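import Pool.Agent.Lib_MP_36b788c.PSShift
import Pool.Agent.Lib_MP_36b788.BoxNet
import Pool.Agent.Lib_MP_36b788.JMap
import Pool.Agent.Lib_MP_36b788.PathDefs

/-!
# Part B: definitions

`ell k = log (1/k)`; sites: the box `boxS d L`; fields with values in a real inner product space `V`
(`E N` or `ℂ`). Heights: `X = log u / ell`. Block time scale: `ts N k` (`ell²` for `N = 2`, `ell` for `N ≥ 3`).
-/

open MeasureTheory ProbabilityTheory
open scoped ENNReal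

namespace DynC

open Dyn

noncomputable section

/-- `log (1/k)` -/
def ell (k : ℝ) : ℝ := Real.log (1 / k)

/-- real time scale of a block -/
def ts (N : ℕ) (k : ℝ) : ℝ := if N = 2 then ell k ^ 2 else ell k

/-- drift of `log u` -/
def lamN (N : ℕ) : ℝ := ((N : ℝ) - 2) / 2

section fields

variable {V : Type} [NormedAddCommGroup V] [InnerProductSpace ℝ V] {ι : Type} [Fintype ι] {d : ℕ}

/-- resolvent on `V` -/
def JV (β h : ℝ) (v : V) : V := (psi β h ‖v‖ / ‖v‖) • v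

/-- lattice interaction -/
def coupV (net : Net ι d) (G : ι → V) (x : ι) : V :=
  ∑ y ∈ net.nb x, G y - ((2 * d : ℕ) : ℝ) • G x

/-- interaction bound for nonnegative fields -/
def cpl (net : Net ι d) (u : ι → ℝ) (x : ι) : ℝ := ∑ y ∈ net.nb x, u y + (2 * d : ℕ) * u x

/-- moduli of a field -/
def nrm (G : ι → V) : ι → ℝ := fun x => ‖G x‖

/-- moduli of a difference -/
def dif (G G' : ι → V) : ι → ℝ := fun x => ‖G x - G' x‖

end fields

section steps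

variable {ι : Type} [Fintype ι] {d : ℕ}

/-- one step inequalities of a field of moduli, scalar noise `b` -/
structure QStep (net : Net ι d) (β h k : ℝ) (b u u' : ι → ℝ) : Prop where
  n0 : ∀ x, 0 ≤ u x
  n1 : ∀ x, 0 ≤ u' x
  up : ∀ x, u' x ≤ psi β h (Real.exp (b x) * u x) + k * h * cpl net u x
  lo : ∀ x, psi β h (Real.exp (b x) * u x) - k * h * cpl net u x ≤ u' x

/-- one step inequality of a field of differences -/
structure DStep (net : Net ι d) (h k : ℝ) (b D D' : ι → ℝ) : Prop where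
  n0 : ∀ x, 0 ≤ D x
  n1 : ∀ x, 0 ≤ D' x
  up : ∀ x, D' x ≤ Real.exp (b x) * D x + k * h * cpl net D x

end steps

/-! ## Potential -/

/-- `g(X)`: identity below `-1/4`, flat `-3/16` on `[-1/8, 1/16]`, slope one above `1/16` -/
def gX (X : ℝ) : ℝ :=
  if X ≤ -(1 / 4) then X
  else if X ≤ -(1 / 8) then X - 4 * (X + 1 / 4) ^ 2
  else if X ≤ 1 / 16 then -(3 / 16)
  else -(3 / 16) + (X - 1 / 16)

/-- `f(v) = exp(ell g(log v / ell))`, `f 0 = 0` -/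
def fpot (k v : ℝ) : ℝ := if v ≤ 0 then 0 else Real.exp (ell k * gX (Real.log v / ell k))

section pot

variable {ι : Type} [Fintype ι] {d : ℕ}

/-- `S(z) = 1 + k^{1/16} Σ_w 2^{-|z-w|} t(w)` -/
def SSt (net : Net ι d) (k : ℝ) (t : ι → ℝ) (z : ι) : ℝ :=
  1 + k ^ (1 / 16 : ℝ) * ∑ w, (1 / 2 : ℝ) ^ net.dist z w * t w

/-- `T_z(x) = k^{|x-z|/4} f(u z) S(z)^{-q}` -/
def Tz (net : Net ι d) (k q : ℝ) (u t : ι → ℝ) (x z : ι) : ℝ :=
  (k ^ (1 / 4 : ℝ)) ^ net.dist x z * fpot k (u z) * SSt net k t z ^ (-q)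

/-- `V(x) = (max_z T_z(x))^{-s}`, infinite if `u = 0` -/
def Vp (net : Net ι d) (k q s : ℝ) (u t : ι → ℝ) (x : ι) : ℝ≥0∞ :=
  (Finset.univ.sup fun z => ENNReal.ofReal (Tz net k q u t x z)) ^ (-s)

/-- local sum `Σ_w 2^{-|x-w|} u(w)` -/
def Yl (net : Net ι d) (u : ι → ℝ) (x : ι) : ℝ := ∑ w, (1 / 2 : ℝ) ^ net.dist x w * u w

variable {V : Type} [NormedAddCommGroup V]

/-- weight of a pair: `Σ_z α^{|x-z|} (V_G(z) + V_{G'}(z))`, both with the joint `S` -/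
def wpr (net : Net ι d) (k q s α : ℝ) (G G' : ι → V) (x : ι) : ℝ≥0∞ :=
  ∑ z, ENNReal.ofReal (α ^ net.dist x z) *
    (Vp net k q s (fun y => ‖G y‖) (fun y => ‖G y‖ + ‖G' y‖) z +
      Vp net k q s (fun y => ‖G' y‖) (fun y => ‖G y‖ + ‖G' y‖) z)

/-- class of functions: change at the single site `y` -/
def Cls (net : Net ι d) (k q s α θ : ℝ) (A : ι → ℝ) (ε : ℝ) (f : (ι → V) → ℂ) : Prop :=
  ∀ (G G' : ι → V) (y : ι), (∀ x, x ≠ y → G x = G' x) →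
    ENNReal.ofReal ‖f G - f G'‖ ≤
      ENNReal.ofReal (A y * ‖G y - G' y‖ ^ θ) * wpr net k q s α G G' y +
        ENNReal.ofReal (ε * (1 + ∑ x, (‖G x‖ + ‖G' x‖)))

end pot

/-! ## Families of chains on boxes -/

/-- a family of chains: fields in `V`, site noise in `Ω0` with law `ν` -/
structure Fam (d : ℕ) where
  V : Type
  [iN : NormedAddCommGroup V]
  [iI : InnerProductSpace ℝ V]
  [iM : MeasurableSpace V]
  [iB : BorelSpace V]
  [iS : SecondCountableTopology V]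
  Ω0 : Type
  [mΩ : MeasurableSpace Ω0]
  ν : Measure Ω0
  [pν : IsProbabilityMeasure ν]
  st : ℝ → (L : ℕ) → (boxS d L → V) → (boxS d L → Ω0) → boxS d L → V
  mst : ∀ h L, Measurable fun p : (boxS d L → V) × (boxS d L → Ω0) => st h L p.1 p.2

attribute [instance] Fam.iN Fam.iI Fam.iM Fam.iB Fam.iS Fam.mΩ Fam.pν

variable {d : ℕ}

/-- product site noise -/
def Fam.mu (F : Fam d) (L : ℕ) : Measure (boxS d L → F.Ω0) := Measure.pi fun _ => F.ν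

instance (F : Fam d) (L : ℕ) : IsProbabilityMeasure (F.mu L) := by
  unfold Fam.mu; infer_instance

/-- transition operator after `n` steps -/
def Fam.Pn (F : Fam d) (h : ℝ) (L n : ℕ) (f : (boxS d L → F.V) → ℂ) (G : boxS d L → F.V) : ℂ :=
  ∫ ω, f (traj (F.st h L) G ω n) ∂(PI (F.mu L))

/-- path expectation -/
def Fam.pathE (F : Fam d) (h : ℝ) (L : ℕ) :
    List ((boxS d L → F.V) → ℂ) → (boxS d L → F.V) → ℂ
  | [], _ => 1
  | f :: fs, G => f G * ∫ ξ, F.pathE h L fs (F.st h L G ξ) ∂(F.mu L)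

/-- law of the chain after `n` steps -/
def Fam.law (F : Fam d) (h : ℝ) (L : ℕ) (m0 : Measure (boxS d L → F.V)) :
    ℕ → Measure (boxS d L → F.V)
  | 0 => m0
  | n + 1 => ((F.law h L m0 n).prod (F.mu L)).map (fun q => F.st h L q.1 q.2)

/-- the chain forgets its initial law (for `k > 0`) -/
def Fam.Mix (F : Fam d) : Prop :=
    ∀ (ρ1 ρ2 : Measure F.V) [IsProbabilityMeasure ρ1] [IsProbabilityMeasure ρ2],
      ρ1 {0} = 0 → ρ2 {0} = 0 → Integrable (fun x : F.V => ‖x‖ ^ 2) ρ1 →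
      Integrable (fun x : F.V => ‖x‖ ^ 2) ρ2 →
    ∀ (R J : ℕ) (CF δ : ℝ), 0 ≤ CF → 0 < δ →
    ∃ (T0 : ℝ) (L0 : ℕ), 0 ≤ T0 ∧ R ≤ L0 ∧
    ∀ L : ℕ, L0 ≤ L →
    ∀ Sm : ℝ, 0 ≤ Sm → ∃ h0 : ℝ, 0 < h0 ∧ ∀ h, 0 < h → h < h0 →
    ∀ n1 n2 M : ℕ, n1 * h ≤ Sm → n2 * h ≤ Sm → M * h ≤ Sm →
    ∀ (f : ℕ → (boxS d L → F.V) → ℂ) (I : Finset ℕ), I.card ≤ J →
      (∀ i, Measurable (f i)) → (∀ i G, ‖f i G‖ ≤ 1) → (∀ i, i ∉ I → f i = fun _ => 1) →
      (∀ i ∈ I, T0 ≤ i * h ∧ ∀ G G' : boxS d L → F.V, ‖f i G - f i G'‖ ≤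
        CF * ∑ x : boxS d L, (if l1 (x : Fin d → ℤ) 0 ≤ R then min 1 ‖G x - G' x‖ else 0)) →
      ∫ G, ∫ G', ‖F.pathE h L ((List.range M).map f) G
          - F.pathE h L ((List.range M).map f) G'‖
        ∂(F.law h L (Measure.pi (fun _ => ρ2)) n2)
        ∂(F.law h L (Measure.pi (fun _ => ρ1)) n1) ≤ δ

/-! ## Pair systems (basic coupling) -/

/-- coupled pair dynamics: both components follow the chain `F`; pathwise inequalities on good noise -/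
structure PSys (F : Fam d) (β k : ℝ) where
  Ωp : Type
  [mΩ : MeasurableSpace Ωp]
  ν : Measure Ωp
  [pν : IsProbabilityMeasure ν]
  b : ℝ → Ωp → ℝ
  gd : ℝ → Set Ωp
  st : ℝ → (L : ℕ) → (boxS d L → F.V) × (boxS d L → F.V) → (boxS d L → Ωp) →
    (boxS d L → F.V) × (boxS d L → F.V)
  mst : ∀ h L, Measurable
    fun p : ((boxS d L → F.V) × (boxS d L → F.V)) × (boxS d L → Ωp) => st h L p.1 p.2
  mb : ∀ h, Measurable (b h)
  mgd : ∀ h, MeasurableSet (gd h)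
  marg1 : ∀ h L G, (Measure.pi (fun _ : boxS d L => ν)).map (fun ω => (st h L G ω).1) =
    (F.mu L).map (fun ξ => F.st h L G.1 ξ)
  marg2 : ∀ h L G, (Measure.pi (fun _ : boxS d L => ν)).map (fun ω => (st h L G ω).2) =
    (F.mu L).map (fun ξ => F.st h L G.2 ξ)
  q1 : ∀ h L G ω, 0 < h → (∀ x, ω x ∈ gd h) →
    QStep (boxNet d L) β h k (fun x => b h (ω x)) (nrm G.1) (nrm (st h L G ω).1)
  q2 : ∀ h L G ω, 0 < h → (∀ x, ω x ∈ gd h) →
    QStep (boxNet d L) β h k (fun x => b h (ω x)) (nrm G.2) (nrm (st h L G ω).2)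
  u1 : ∀ h L G ω, 0 < h → ∀ x, nrm (st h L G ω).1 x ≤
    Real.exp (b h (ω x)) * nrm G.1 x + k * h * cpl (boxNet d L) (nrm G.1) x
  u2 : ∀ h L G ω, 0 < h → ∀ x, nrm (st h L G ω).2 x ≤
    Real.exp (b h (ω x)) * nrm G.2 x + k * h * cpl (boxNet d L) (nrm G.2) x
  dd : ∀ h L G ω, 0 < h → DStep (boxNet d L) h k (fun x => b h (ω x)) (dif G.1 G.2)
    (dif (st h L G ω).1 (st h L G ω).2)

attribute [instance] PSys.mΩ PSys.pν

variable {F : Fam d} {β k : ℝ}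

/-- product site noise of the pair system -/
def PSys.mu (S : PSys F β k) (L : ℕ) : Measure (boxS d L → S.Ωp) := Measure.pi fun _ => S.ν

instance (S : PSys F β k) (L : ℕ) : IsProbabilityMeasure (S.mu L) := by
  unfold PSys.mu; infer_instance

/-- state of the pair after `n` steps -/
def PSys.tr (S : PSys F β k) (h : ℝ) (L : ℕ) (G : (boxS d L → F.V) × (boxS d L → F.V))
    (ω : ℕ → boxS d L → S.Ωp) (n : ℕ) : (boxS d L → F.V) × (boxS d L → F.V) :=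
  traj (S.st h L) G ω n

/-- good noise at all times `< n`, both fields below `rad β h` at all times `≤ n` -/
def PSys.alv (S : PSys F β k) (h : ℝ) (L : ℕ) (G : (boxS d L → F.V) × (boxS d L → F.V))
    (n : ℕ) : Set (ℕ → boxS d L → S.Ωp) :=
  {ω | (∀ j, j < n → ∀ x, ω j x ∈ S.gd h) ∧
    ∀ j, j ≤ n → ∀ x, ‖(S.tr h L G ω j).1 x‖ ≤ rad β h ∧ ‖(S.tr h L G ω j).2 x‖ ≤ rad β h}

/-- potential of the first component with the joint `S` -/
def V1 {V : Type} [NormedAddCommGroup V] {L : ℕ} (k q s : ℝ)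
    (G : (boxS d L → V) × (boxS d L → V)) (x : boxS d L) : ℝ≥0∞ :=
  Vp (boxNet d L) k q s (fun y => ‖G.1 y‖) (fun y => ‖G.1 y‖ + ‖G.2 y‖) x

/-- potential of the second component with the joint `S` -/
def V2 {V : Type} [NormedAddCommGroup V] {L : ℕ} (k q s : ℝ)
    (G : (boxS d L → V) × (boxS d L → V)) (x : boxS d L) : ℝ≥0∞ :=
  Vp (boxNet d L) k q s (fun y => ‖G.2 y‖) (fun y => ‖G.1 y‖ + ‖G.2 y‖) x

/-- law of the scalar noise: moment generating function up to `o(h)`, tails -/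
structure BNoise (N : ℕ) {Ω0 : Type} [MeasurableSpace Ω0] (ν : Measure Ω0) (b : ℝ → Ω0 → ℝ)
    (gd : ℝ → Set Ω0) : Prop where
  bdd : ∀ h, 0 < h → h < 1 → ∀ a ∈ gd h, |b h a| ≤ 2 * h ^ (3 / 8 : ℝ)
  tail : ∃ h0 : ℝ, 0 < h0 ∧ ∀ h, 0 < h → h < h0 → ν (gd h)ᶜ ≤ ENNReal.ofReal (h ^ 3)
  mgf : ∀ rm ε : ℝ, 0 < rm → 0 < ε → ∃ h0 : ℝ, 0 < h0 ∧ ∀ h, 0 < h → h < h0 → ∀ r, |r| ≤ rm →
    ∫⁻ a in gd h, ENNReal.ofReal (Real.exp (r * b h a)) ∂ν ≤
      ENNReal.ofReal (1 + (lamN N * r + r ^ 2 / 2 + ε) * h) ∧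
    ENNReal.ofReal (1 + (lamN N * r + r ^ 2 / 2 - ε) * h) ≤
      ∫⁻ a in gd h, ENNReal.ofReal (Real.exp (r * b h a)) ∂ν
  mgf2 : ∃ C h0 : ℝ, 0 < C ∧ 0 < h0 ∧ ∀ h, 0 < h → h < h0 →
    ∫⁻ a, ENNReal.ofReal (Real.exp (2 * b h a)) ∂ν ≤ ENNReal.ofReal (1 + C * h)

end

end DynC
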