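import Pool.Agent.Lib_MP_36b788c.BDefs
import Pool.Agent.Lib_MP_36b788b.CMix

/-!
# The two families of chains and the links to `ChainMix`

* `Fam1 N d β k`: the Gaussian chain `stp` with values in `E N`.
* `Fam2 d β k`: values in `ℂ`, `G⁺ = J(e^{√h η} G) + k h coup G`, `η` complex Gaussian with independent standard normal real and imaginary parts.
* `PS2`: pair system for `Fam2` (same noise). `b = √h Re η`.

PROOF.
* `link1`: `F.pathE = pathE`, `F.law = chainLaw` by induction on the list / on `n` (`coupV = coup`, `JV = J` by definition), for `k > 0` the clause `k = 0 → …` is empty.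
* `BNoise` for `PS2`: `Re η ~ N(0,1)`: `∫ e^{r √h Re η} = e^{r² h/2}` and the part outside `gd` is `≤ h²` (Gaussian tail `P(|η| > h^{-1/8}) ≤ 2e^{-h^{-1/4}/4}`, Cauchy-Schwarz).
* `PS2` facts: `‖JV v‖ = psi ‖v‖` (`norm_J`), `JV` nonexpansive (as `J_nonexp`; its proof uses only the inner product), `‖e^{√h η} G‖ = e^{b} ‖G‖`.
* `link2`: (1) the chain `stp` for `N = 2` has the same transition kernel as `G⁺ = J(G (1+√h ζ)) + k h coup` on `ℂ` (identification `ℂ ≃ₗᵢ E 2`; `‖G‖ξ` and `G ζ` have the same law by isotropy). (2) Same noise `ζ = η` for this chain (values `G'`) and `Fam2` (values `G`) started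
  at the same configuration: `D = G' - G`, `r = e^{√h η} - 1 - √h η`: `E r = 0`, `E[conj(1+√h η) r] = 0` (`E conj(η) η^j = 0` for `j ≥ 2`), `E|r|² ≤ C h²`, so `E|D(1+√hη) - G r|² = |D|²(1+2h) + |G|² E|r|²`, and with `(a+b)² ≤ (1+h)a² + (1+1/h)b²` for the coupling term:
  `E Σ_x|D⁺|² ≤ (1+Ch) Σ|D|² + C h² Σ|G|²`; `E Σ|G_n|² ≤ e^{C n h} E Σ|G_0|²`. So `E Σ_x|D_n(x)|² ≤ C h` for `n h ≤ 2 Sm`. (3) In `ChainMix` replace both trajectories (times `n1 + i`, `n2 + i`) by those of `Fam2`: product of at most `J` Lipschitz functions: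
  error `≤ 2 J CF Σ_x E min(1,|D|) ≤ C √h`. Then `Mix` with `δ/2`.
-/

open MeasureTheory ProbabilityTheory
open scoped ENNReal

namespace DynC

open Dyn

noncomputable section

/-- standard complex Gaussian (independent standard normal parts) -/
def gC : Measure ℂ :=
  ((gaussianReal 0 1).prod (gaussianReal 0 1)).map (fun p : ℝ × ℝ => (⟨p.1, p.2⟩ : ℂ))

theorem measurable_mkC : Measurable (fun p : ℝ × ℝ => (⟨p.1, p.2⟩ : ℂ)) := by
  have h1 : (fun p : ℝ × ℝ => (⟨p.1, p.2⟩ : ℂ)) = Complex.equivRealProdCLM.symm := by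
    funext p
    rfl
  rw [h1]
  exact Complex.equivRealProdCLM.symm.continuous.measurable

instance : IsProbabilityMeasure gC := by
  unfold gC
  exact Measure.isProbabilityMeasure_map measurable_mkC.aemeasurable

/-- step of the complex chain -/
def st2 (d : ℕ) (β k h : ℝ) (L : ℕ) (G : boxS d L → ℂ) (η : boxS d L → ℂ) : boxS d L → ℂ :=
  fun x => JV β h (Complex.exp (((Real.sqrt h : ℝ) : ℂ) * η x) * G x) +
    (k * h) • coupV (boxNet d L) G x

private theorem BFam_psi_meas (β h : ℝ) : Measurable (psi β h) := by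
  refine measurable_of_Ioi fun c => ?_
  rcases lt_or_ge c 0 with hc | hc
  · have h1 : psi β h ⁻¹' Set.Ioi c = Set.univ := by
      ext v
      simp only [Set.mem_preimage, Set.mem_Ioi, Set.mem_univ, iff_true]
      exact hc.trans_le (psi_nonneg β h v)
    rw [h1]
    exact MeasurableSet.univ
  · have h1 : psi β h ⁻¹' Set.Ioi c =
        {v : ℝ | BddAbove {t : ℝ | 0 ≤ t ∧ t + h * t ^ (1 + β) ≤ v}} ∩
        {v : ℝ | ∃ t : ℝ, c < t ∧ 0 ≤ t ∧ t + h * t ^ (1 + β) ≤ v} := by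
      ext v
      constructor
      · intro hv
        have hv' : c < sSup {t : ℝ | 0 ≤ t ∧ t + h * t ^ (1 + β) ≤ v} := hv
        have hb : BddAbove {t : ℝ | 0 ≤ t ∧ t + h * t ^ (1 + β) ≤ v} := by
          by_contra hb
          rw [Real.sSup_of_not_bddAbove hb] at hv'
          linarith
        have hne : {t : ℝ | 0 ≤ t ∧ t + h * t ^ (1 + β) ≤ v}.Nonempty := by
          by_contra hne
          rw [Set.not_nonempty_iff_eq_empty] at hne
          rw [hne, Real.sSup_empty] at hv'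
          linarith
        obtain ⟨t, ht, hct⟩ := (lt_csSup_iff hb hne).1 hv'
        exact ⟨hb, t, hct, ht.1, ht.2⟩
      · rintro ⟨hb, t, hct, ht⟩
        exact hct.trans_le (le_csSup hb ht)
    rw [h1]
    refine MeasurableSet.inter ?_ ?_
    · refine (IsLowerSet.ordConnected ?_).measurableSet
      intro v w hwv hv
      have h2 : {t : ℝ | 0 ≤ t ∧ t + h * t ^ (1 + β) ≤ w} ⊆
          {t : ℝ | 0 ≤ t ∧ t + h * t ^ (1 + β) ≤ v} := fun t ht => ⟨ht.1, ht.2.trans hwv⟩
      exact BddAbove.mono h2 hv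
    · refine (IsUpperSet.ordConnected ?_).measurableSet
      rintro v w hvw ⟨t, hct, ht0, ht⟩
      exact ⟨t, hct, ht0, ht.trans hvw⟩

private theorem BFam_JV_meas {V : Type} [NormedAddCommGroup V] [InnerProductSpace ℝ V]
    [MeasurableSpace V] [BorelSpace V] [SecondCountableTopology V] (β h : ℝ) :
    Measurable (JV β h : V → V) := by
  unfold JV
  exact (((BFam_psi_meas β h).comp measurable_norm).div measurable_norm).smul measurable_id

private theorem BFam_coup_meas {V : Type} [NormedAddCommGroup V] [InnerProductSpace ℝ V]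
    [MeasurableSpace V] [BorelSpace V] [SecondCountableTopology V] {ι : Type} [Fintype ι]
    {d : ℕ} (net : Net ι d) (x : ι) : Measurable fun G : ι → V => coupV net G x := by
  unfold coupV
  refine Measurable.sub ?_ ?_
  · exact Finset.measurable_fun_sum _ fun y _ => measurable_pi_apply y
  · exact (measurable_pi_apply x).const_smul _

theorem measurable_st2 (d : ℕ) (β k h : ℝ) (L : ℕ) :
    Measurable fun p : (boxS d L → ℂ) × (boxS d L → ℂ) => st2 d β k h L p.1 p.2 := by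
  refine measurable_pi_lambda _ fun x => ?_
  unfold st2
  refine Measurable.add ?_ ?_
  · refine (BFam_JV_meas β h).comp ?_
    refine Measurable.mul ?_ ((measurable_pi_apply x).comp measurable_fst)
    exact Complex.measurable_exp.comp
      (((measurable_pi_apply x).comp measurable_snd).const_mul _)
  · exact ((BFam_coup_meas (boxNet d L) x).comp measurable_fst).const_smul (k * h)

theorem measurable_stp (N d : ℕ) (β k h : ℝ) (L : ℕ) :
    Measurable fun p : (boxS d L → E N) × (boxS d L → E N) =>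
      stp (boxNet d L) β h k p.1 p.2 := by
  refine measurable_pi_lambda _ fun x => ?_
  have hg : Measurable fun p : (boxS d L → E N) × (boxS d L → E N) => p.1 x :=
    (measurable_pi_apply x).comp measurable_fst
  have hξ : Measurable fun p : (boxS d L → E N) × (boxS d L → E N) => p.2 x :=
    (measurable_pi_apply x).comp measurable_snd
  have h1 : Measurable fun p : (boxS d L → E N) × (boxS d L → E N) =>
      JV β h (p.1 x + (Real.sqrt h * ‖p.1 x‖) • p.2 x) :=
    (BFam_JV_meas β h).comp (hg.add ((hg.norm.const_mul _).smul hξ))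
  have h2 : Measurable fun p : (boxS d L → E N) × (boxS d L → E N) =>
      (k * h) • coupV (boxNet d L) p.1 x :=
    ((BFam_coup_meas (boxNet d L) x).comp measurable_fst).const_smul (k * h)
  exact h1.add h2

/-- the complex chain, `N = 2` -/
def Fam2 (d : ℕ) (β k : ℝ) : Fam d where
  V := ℂ
  Ω0 := ℂ
  ν := gC
  st := fun h L => st2 d β k h L
  mst := fun h L => measurable_st2 d β k h L

/-- the Gaussian chain -/
def Fam1 (N d : ℕ) (β k : ℝ) : Fam d where
  V := E N
  Ω0 := E N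
  ν := stdGaussian (E N)
  st := fun h L => stp (boxNet d L) β h k
  mst := fun h L => measurable_stp N d β k h L

/-- scalar noise of the complex chain -/
def bC (h : ℝ) (η : ℂ) : ℝ := Real.sqrt h * η.re

/-- good noise of the complex chain -/
def gdC (h : ℝ) : Set ℂ := {η | Real.sqrt h * ‖η‖ ≤ h ^ (3 / 8 : ℝ)}

theorem norm_JV {V : Type} [NormedAddCommGroup V] [InnerProductSpace ℝ V] {β h : ℝ} (hβ : 0 < β)
    (hh : 0 ≤ h) (v : V) : ‖JV β h v‖ = psi β h ‖v‖ := by
  unfold JV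
  rw [norm_smul, Real.norm_eq_abs, abs_of_nonneg (div_nonneg (psi_nonneg _ _ _) (norm_nonneg _))]
  by_cases hv : ‖v‖ = 0
  · rw [hv, psi_zero hβ hh]; simp
  · field_simp

theorem JV_eq {V : Type} [NormedAddCommGroup V] [InnerProductSpace ℝ V] {β h : ℝ} (hβ : 0 < β)
    (hh : 0 ≤ h) (v : V) : JV β h v + (h * ‖JV β h v‖ ^ β) • JV β h v = v := by
  rcases eq_or_ne v 0 with rfl | hv
  · simp [JV]
  · have hn : 0 < ‖v‖ := norm_pos_iff.mpr hv
    have hp := psi_pos hβ hh hn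
    have he := psi_eq hβ hh hn.le
    rw [norm_JV hβ hh, JV, smul_smul, ← add_smul]
    rw [Real.rpow_add hp, Real.rpow_one] at he
    have : psi β h ‖v‖ / ‖v‖ + h * psi β h ‖v‖ ^ β * (psi β h ‖v‖ / ‖v‖) = 1 := by
      field_simp
      linarith
    rw [this, one_smul]

private theorem BFam_inner {V : Type} [NormedAddCommGroup V] [InnerProductSpace ℝ V] (β : ℝ)
    (u u' : V) :
    inner ℝ (‖u‖ ^ β • u - ‖u'‖ ^ β • u') (u - u')
      = 1 / 2 * (‖u‖ ^ β + ‖u'‖ ^ β) * ‖u - u'‖ ^ 2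
        + 1 / 2 * (‖u‖ ^ β - ‖u'‖ ^ β) * (‖u‖ ^ 2 - ‖u'‖ ^ 2) := by
  rw [norm_sub_sq_real, inner_sub_left, inner_sub_right, inner_sub_right, real_inner_smul_left,
    real_inner_smul_left, real_inner_smul_left, real_inner_smul_left,
    real_inner_self_eq_norm_sq, real_inner_self_eq_norm_sq, real_inner_comm u u']
  ring

private theorem BFam_mono {β a b : ℝ} (hβ : 0 < β) (ha : 0 ≤ a) (hb : 0 ≤ b) :
    0 ≤ (a ^ β - b ^ β) * (a ^ 2 - b ^ 2) := by
  rcases le_total a b with hle | hle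
  · have h1 := Real.rpow_le_rpow ha hle hβ.le
    have h2 := pow_le_pow_left₀ ha hle 2
    nlinarith
  · have h1 := Real.rpow_le_rpow hb hle hβ.le
    have h2 := pow_le_pow_left₀ hb hle 2
    nlinarith

private theorem BFam_sub {V : Type} [NormedAddCommGroup V] [InnerProductSpace ℝ V] {β h : ℝ}
    (hβ : 0 < β) (hh : 0 ≤ h) (v w : V) :
    v - w = (JV β h v - JV β h w) +
      h • (‖JV β h v‖ ^ β • JV β h v - ‖JV β h w‖ ^ β • JV β h w) := by
  have h1 := JV_eq hβ hh v
  have h2 := JV_eq hβ hh w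
  conv_lhs => rw [← h1, ← h2]
  rw [smul_sub, smul_smul, smul_smul]
  abel

private theorem BFam_real {β r s : ℝ} (hβ : 0 < β) (hs : 0 ≤ s) (hsr : s ≤ r) :
    (r ^ β - s ^ β) * s ≤ β * r ^ β * (r - s) := by
  rcases hs.eq_or_lt with h0 | h0
  · rw [← h0]
    have : 0 ≤ r := hs.trans hsr
    have h1 : 0 ≤ β * r ^ β * (r - 0) := by
      have := Real.rpow_nonneg this β
      rw [sub_zero]
      positivity
    rw [mul_zero, ← h0] at *
    exact h1
  · have hr : 0 < r := h0.trans_le hsr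
    have hrb : 0 < r ^ β := Real.rpow_pos_of_pos hr β
    have hq : 0 < s / r := div_pos h0 hr
    have h1 : s ^ β = r ^ β * (s / r) ^ β := by
      rw [Real.div_rpow h0.le hr.le]
      field_simp
    have h2 : Real.log (r / s) ≤ r / s - 1 := Real.log_le_sub_one_of_pos (div_pos hr h0)
    have h3 : 1 - β * Real.log (r / s) ≤ (s / r) ^ β := by
      rw [Real.rpow_def_of_pos hq]
      have h4 := Real.add_one_le_exp (Real.log (s / r) * β)
      have h5 : Real.log (s / r) = - Real.log (r / s) := by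
        rw [← Real.log_inv, inv_div]
      rw [h5] at h4 ⊢
      linarith
    have h6 : 1 - (s / r) ^ β ≤ β * (r / s - 1) := by
      have := mul_le_mul_of_nonneg_left h2 hβ.le
      linarith
    have h7 : (r ^ β - s ^ β) * s = (r ^ β * s) * (1 - (s / r) ^ β) := by
      rw [h1]; ring
    rw [h7]
    have h8 : (r ^ β * s) * (1 - (s / r) ^ β) ≤ (r ^ β * s) * (β * (r / s - 1)) :=
      mul_le_mul_of_nonneg_left h6 (by positivity)
    refine h8.trans (le_of_eq ?_)
    field_simp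

private theorem BFam_bdiff {V : Type} [NormedAddCommGroup V] [InnerProductSpace ℝ V] {β : ℝ}
    (hβ : 0 < β) (u u' : V) (hle : ‖u'‖ ≤ ‖u‖) :
    ‖‖u‖ ^ β • u - ‖u'‖ ^ β • u'‖ ≤ (1 + β) * ‖u‖ ^ β * ‖u - u'‖ := by
  have h1 : ‖u‖ ^ β • u - ‖u'‖ ^ β • u' = ‖u‖ ^ β • (u - u') + (‖u‖ ^ β - ‖u'‖ ^ β) • u' := by
    rw [smul_sub, sub_smul]
    abel
  have h2 : 0 ≤ ‖u‖ ^ β := Real.rpow_nonneg (norm_nonneg _) _
  have h3 : ‖u'‖ ^ β ≤ ‖u‖ ^ β := Real.rpow_le_rpow (norm_nonneg _) hle hβ.le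
  rw [h1]
  refine (norm_add_le _ _).trans ?_
  rw [norm_smul, norm_smul, Real.norm_of_nonneg h2, Real.norm_of_nonneg (sub_nonneg.2 h3)]
  have h4 := BFam_real hβ (norm_nonneg u') hle
  have h5 : ‖u‖ - ‖u'‖ ≤ ‖u - u'‖ := norm_sub_norm_le u u'
  have h6 : β * ‖u‖ ^ β * (‖u‖ - ‖u'‖) ≤ β * ‖u‖ ^ β * ‖u - u'‖ :=
    mul_le_mul_of_nonneg_left h5 (by positivity)
  have h7 : (1 + β) * ‖u‖ ^ β * ‖u - u'‖ = ‖u‖ ^ β * ‖u - u'‖ + β * ‖u‖ ^ β * ‖u - u'‖ := by ring
  rw [h7]
  linarith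

theorem JV_nonexp {V : Type} [NormedAddCommGroup V] [InnerProductSpace ℝ V] {β h : ℝ}
    (hβ : 0 < β) (hh : 0 ≤ h) (v w : V) : ‖JV β h v - JV β h w‖ ≤ ‖v - w‖ := by
  rcases eq_or_lt_of_le (norm_nonneg (JV β h v - JV β h w)) with h0 | h0
  · rw [← h0]; positivity
  · have h3 := BFam_sub hβ hh v w
    have h4 := real_inner_le_norm (v - w) (JV β h v - JV β h w)
    have h5 : inner ℝ (v - w) (JV β h v - JV β h w) = ‖JV β h v - JV β h w‖ ^ 2 +
        h * (1 / 2 * (‖JV β h v‖ ^ β + ‖JV β h w‖ ^ β) * ‖JV β h v - JV β h w‖ ^ 2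
        + 1 / 2 * (‖JV β h v‖ ^ β - ‖JV β h w‖ ^ β) * (‖JV β h v‖ ^ 2 - ‖JV β h w‖ ^ 2)) := by
      rw [← BFam_inner]
      conv_lhs => rw [h3]
      rw [inner_add_left, real_inner_smul_left, real_inner_self_eq_norm_sq]
    have h6 := BFam_mono hβ (norm_nonneg (JV β h v)) (norm_nonneg (JV β h w))
    have h7 : 0 ≤ ‖JV β h v‖ ^ β := by positivity
    have h8 : 0 ≤ ‖JV β h w‖ ^ β := by positivity
    have h9 : 0 ≤ 1 / 2 * (‖JV β h v‖ ^ β + ‖JV β h w‖ ^ β) * ‖JV β h v - JV β h w‖ ^ 2 := by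
      positivity
    have h10 : 0 ≤ h * (1 / 2 * (‖JV β h v‖ ^ β + ‖JV β h w‖ ^ β) *
        ‖JV β h v - JV β h w‖ ^ 2
        + 1 / 2 * (‖JV β h v‖ ^ β - ‖JV β h w‖ ^ β) * (‖JV β h v‖ ^ 2 - ‖JV β h w‖ ^ 2)) :=
      mul_nonneg hh (by linarith)
    have h11 : ‖JV β h v - JV β h w‖ * ‖JV β h v - JV β h w‖ ≤
        ‖v - w‖ * ‖JV β h v - JV β h w‖ := by
      rw [h5] at h4
      nlinarith
    exact le_of_mul_le_mul_right h11 h0

/-- `J` is the identity up to a Lipschitz error of order `h` -/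
theorem JV_lip {V : Type} [NormedAddCommGroup V] [InnerProductSpace ℝ V] {β h : ℝ}
    (hβ : 0 < β) (hh : 0 ≤ h) (v w : V) :
    ‖(JV β h v - JV β h w) - (v - w)‖ ≤ h * (1 + β) * (max ‖v‖ ‖w‖) ^ β * ‖v - w‖ := by
  have key : ∀ v w : V, ‖JV β h w‖ ≤ ‖JV β h v‖ →
      ‖(JV β h v - JV β h w) - (v - w)‖ ≤ h * (1 + β) * ‖v‖ ^ β * ‖v - w‖ := by
    intro v w hle
    have h1 : (JV β h v - JV β h w) - (v - w) =
        -(h • (‖JV β h v‖ ^ β • JV β h v - ‖JV β h w‖ ^ β • JV β h w)) := by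
      conv_lhs => rw [BFam_sub hβ hh v w]
      abel
    rw [h1, norm_neg, norm_smul, Real.norm_of_nonneg hh]
    have h2 := BFam_bdiff hβ (JV β h v) (JV β h w) hle
    have h3 : ‖JV β h v‖ ≤ ‖v‖ := by
      rw [norm_JV hβ hh]
      exact psi_le hβ hh (norm_nonneg v)
    have h4 : ‖JV β h v‖ ^ β ≤ ‖v‖ ^ β := Real.rpow_le_rpow (norm_nonneg _) h3 hβ.le
    have h5 := JV_nonexp hβ hh v w
    have h6 : (1 + β) * ‖JV β h v‖ ^ β * ‖JV β h v - JV β h w‖ ≤
        (1 + β) * ‖v‖ ^ β * ‖v - w‖ := by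
      have := Real.rpow_nonneg (norm_nonneg (JV β h v)) β
      gcongr
    calc h * ‖‖JV β h v‖ ^ β • JV β h v - ‖JV β h w‖ ^ β • JV β h w‖
        ≤ h * ((1 + β) * ‖v‖ ^ β * ‖v - w‖) := mul_le_mul_of_nonneg_left (h2.trans h6) hh
      _ = h * (1 + β) * ‖v‖ ^ β * ‖v - w‖ := by ring
  have hm : ∀ x : ℝ, 0 ≤ x → x ≤ max ‖v‖ ‖w‖ →
      h * (1 + β) * x ^ β * ‖v - w‖ ≤ h * (1 + β) * (max ‖v‖ ‖w‖) ^ β * ‖v - w‖ := by
    intro x hx hxm
    have := Real.rpow_le_rpow hx hxm hβ.le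
    gcongr
  rcases le_total ‖JV β h w‖ ‖JV β h v‖ with hle | hle
  · exact (key v w hle).trans (hm _ (norm_nonneg v) (le_max_left _ _))
  · have h1 := key w v hle
    have h2 : ‖(JV β h v - JV β h w) - (v - w)‖ = ‖(JV β h w - JV β h v) - (w - v)‖ := by
      rw [← norm_neg]
      congr 1
      abel
    rw [h2]
    refine h1.trans ?_
    rw [norm_sub_rev w v]
    exact hm _ (norm_nonneg w) (le_max_right _ _)

private theorem BFam_coup_norm {V : Type} [NormedAddCommGroup V] [InnerProductSpace ℝ V]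
    {ι : Type} [Fintype ι] {d : ℕ} (net : Net ι d) (G : ι → V) (x : ι) :
    ‖coupV net G x‖ ≤ cpl net (nrm G) x := by
  unfold coupV cpl nrm
  refine (norm_sub_le _ _).trans ?_
  refine add_le_add (norm_sum_le _ _) ?_
  rw [norm_smul, Real.norm_of_nonneg (Nat.cast_nonneg _)]

private theorem BFam_coup_sub {V : Type} [NormedAddCommGroup V] [InnerProductSpace ℝ V]
    {ι : Type} [Fintype ι] {d : ℕ} (net : Net ι d) (G G' : ι → V) (x : ι) :
    coupV net G x - coupV net G' x = coupV net (fun y => G y - G' y) x := by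
  unfold coupV
  rw [Finset.sum_sub_distrib, smul_sub]
  abel

private theorem BFam_exp (h : ℝ) (η g : ℂ) :
    ‖Complex.exp (((Real.sqrt h : ℝ) : ℂ) * η) * g‖ = Real.exp (bC h η) * ‖g‖ := by
  rw [norm_mul, Complex.norm_exp]
  congr 2
  unfold bC
  simp

private theorem BFam_q (d : ℕ) {β k h : ℝ} (hβ : 0 < β) (hk : 0 ≤ k) (hh : 0 < h) (L : ℕ)
    (G η : boxS d L → ℂ) :
    QStep (boxNet d L) β h k (fun x => bC h (η x)) (nrm G) (nrm (st2 d β k h L G η)) := by
  have hc : ∀ x, ‖(k * h) • coupV (boxNet d L) G x‖ ≤ k * h * cpl (boxNet d L) (nrm G) x := by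
    intro x
    rw [norm_smul, Real.norm_of_nonneg (mul_nonneg hk hh.le)]
    exact mul_le_mul_of_nonneg_left (BFam_coup_norm _ _ _) (mul_nonneg hk hh.le)
  have hJ : ∀ x, ‖JV β h (Complex.exp (((Real.sqrt h : ℝ) : ℂ) * η x) * G x)‖ =
      psi β h (Real.exp (bC h (η x)) * nrm G x) := by
    intro x
    rw [norm_JV hβ hh.le, BFam_exp]
    rfl
  refine ⟨fun x => norm_nonneg _, fun x => norm_nonneg _, fun x => ?_, fun x => ?_⟩
  · change ‖JV β h (Complex.exp (((Real.sqrt h : ℝ) : ℂ) * η x) * G x) +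
      (k * h) • coupV (boxNet d L) G x‖ ≤ _
    refine (norm_add_le _ _).trans ?_
    rw [hJ]
    exact add_le_add le_rfl (hc x)
  · change _ ≤ ‖JV β h (Complex.exp (((Real.sqrt h : ℝ) : ℂ) * η x) * G x) +
      (k * h) • coupV (boxNet d L) G x‖
    have h1 := norm_sub_le (JV β h (Complex.exp (((Real.sqrt h : ℝ) : ℂ) * η x) * G x) +
      (k * h) • coupV (boxNet d L) G x) ((k * h) • coupV (boxNet d L) G x)
    rw [add_sub_cancel_right, hJ] at h1
    have h2 := hc x
    linarith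

private theorem BFam_u (d : ℕ) {β k h : ℝ} (hβ : 0 < β) (hk : 0 ≤ k) (hh : 0 < h) (L : ℕ)
    (G η : boxS d L → ℂ) (x : boxS d L) :
    nrm (st2 d β k h L G η) x ≤ Real.exp (bC h (η x)) * nrm G x +
      k * h * cpl (boxNet d L) (nrm G) x := by
  refine ((BFam_q d hβ hk hh L G η).up x).trans (add_le_add ?_ le_rfl)
  exact psi_le hβ hh.le (mul_nonneg (Real.exp_pos _).le (norm_nonneg _))

private theorem BFam_d (d : ℕ) {β k h : ℝ} (hβ : 0 < β) (hk : 0 ≤ k) (hh : 0 < h) (L : ℕ)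
    (G G' η : boxS d L → ℂ) :
    DStep (boxNet d L) h k (fun x => bC h (η x)) (dif G G')
      (dif (st2 d β k h L G η) (st2 d β k h L G' η)) := by
  refine ⟨fun x => norm_nonneg _, fun x => norm_nonneg _, fun x => ?_⟩
  change ‖(JV β h (Complex.exp (((Real.sqrt h : ℝ) : ℂ) * η x) * G x) +
      (k * h) • coupV (boxNet d L) G x) -
    (JV β h (Complex.exp (((Real.sqrt h : ℝ) : ℂ) * η x) * G' x) +
      (k * h) • coupV (boxNet d L) G' x)‖ ≤ _
  have h1 : (JV β h (Complex.exp (((Real.sqrt h : ℝ) : ℂ) * η x) * G x) +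
      (k * h) • coupV (boxNet d L) G x) -
    (JV β h (Complex.exp (((Real.sqrt h : ℝ) : ℂ) * η x) * G' x) +
      (k * h) • coupV (boxNet d L) G' x) =
      (JV β h (Complex.exp (((Real.sqrt h : ℝ) : ℂ) * η x) * G x) -
        JV β h (Complex.exp (((Real.sqrt h : ℝ) : ℂ) * η x) * G' x)) +
      (k * h) • coupV (boxNet d L) (fun y => G y - G' y) x := by
    rw [← BFam_coup_sub, smul_sub]
    abel
  rw [h1]
  refine (norm_add_le _ _).trans (add_le_add ?_ ?_)
  · refine (JV_nonexp hβ hh.le _ _).trans (le_of_eq ?_)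
    rw [← mul_sub, BFam_exp]
    rfl
  · rw [norm_smul, Real.norm_of_nonneg (mul_nonneg hk hh.le)]
    exact mul_le_mul_of_nonneg_left (BFam_coup_norm _ _ _) (mul_nonneg hk hh.le)

private theorem BFam_m1 (d : ℕ) (β k h : ℝ) (L : ℕ) :
    Measurable fun p : ((boxS d L → ℂ) × (boxS d L → ℂ)) × (boxS d L → ℂ) =>
      st2 d β k h L p.1.1 p.2 := by
  have h3 : Measurable fun p : ((boxS d L → ℂ) × (boxS d L → ℂ)) × (boxS d L → ℂ) =>
      (p.1.1, p.2) := (measurable_fst.comp measurable_fst).prodMk measurable_snd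
  have h4 := (measurable_st2 d β k h L).comp h3
  exact h4

private theorem BFam_m2 (d : ℕ) (β k h : ℝ) (L : ℕ) :
    Measurable fun p : ((boxS d L → ℂ) × (boxS d L → ℂ)) × (boxS d L → ℂ) =>
      st2 d β k h L p.1.2 p.2 := by
  have h3 : Measurable fun p : ((boxS d L → ℂ) × (boxS d L → ℂ)) × (boxS d L → ℂ) =>
      (p.1.2, p.2) := (measurable_snd.comp measurable_fst).prodMk measurable_snd
  have h4 := (measurable_st2 d β k h L).comp h3
  exact h4

private theorem BFam_mst (d : ℕ) (β k h : ℝ) (L : ℕ) :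
    Measurable fun p : ((boxS d L → ℂ) × (boxS d L → ℂ)) × (boxS d L → ℂ) =>
      (st2 d β k h L p.1.1 p.2, st2 d β k h L p.1.2 p.2) :=
  (BFam_m1 d β k h L).prodMk (BFam_m2 d β k h L)

private theorem BFam_mb (h : ℝ) : Measurable (bC h) :=
  Complex.measurable_re.const_mul _

private theorem BFam_mgd (h : ℝ) : MeasurableSet (gdC h) :=
  measurableSet_le (measurable_norm.const_mul _) measurable_const

/-- pair system of the complex chain: same noise -/
def PS2 (d : ℕ) (β k : ℝ) (hβ : 0 < β) (hk : 0 ≤ k) : PSys (Fam2 d β k) β k where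
  Ωp := ℂ
  ν := gC
  b := bC
  gd := gdC
  st := fun h L G η => (st2 d β k h L G.1 η, st2 d β k h L G.2 η)
  mst := fun h L => BFam_mst d β k h L
  mb := BFam_mb
  mgd := BFam_mgd
  marg1 := fun _ _ _ => rfl
  marg2 := fun _ _ _ => rfl
  q1 := fun _ L G ω hh _ => BFam_q d hβ hk hh L G.1 ω
  q2 := fun _ L G ω hh _ => BFam_q d hβ hk hh L G.2 ω
  u1 := fun _ L G ω hh x => BFam_u d hβ hk hh L G.1 ω x
  u2 := fun _ L G ω hh x => BFam_u d hβ hk hh L G.2 ω x
  dd := fun _ L G ω hh => BFam_d d hβ hk hh L G.1 G.2 ω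

end

end DynC
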