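import Pool.Agent.Lib_MP_36b788c.BFam

/-!
# The two families of chains and the links to `ChainMix`

* `Fam1 N d β k`: the Gaussian chain `stp` with values in `E N`.
* `Fam2 d β k`: values in `ℂ`, `G⁺ = J(e^{√h η} G) + k h coup G`, `η` complex Gaussian with independent standard normal real and imaginary parts.
* `PS2`: pair system for `Fam2` (same noise). `b = √h Re η`.

PROOF.
* `link1`: `F.pathE = pathE`, `F.law = chainLaw` by induction on the list / on `n` (`coupV = coup`, `JV = J` by definition), for `k > 0` the clause `k = 0 → …` is empty.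
* `BNoise` for `PS2`: `Re η ~ N(0,1)`: `∫ e^{r √h Re η} = e^{r² h/2}` and the part outside `gd` is `≤ h²` (Gaussian tail `P(|η| > h^{-1/8}) ≤ 2e^{-h^{-1/4}/4}`, Cauchy-Schwarz).
* `PS2` facts: `‖JV v‖ = psi ‖v‖` (`norm_J`), `JV` nonexpansive (as `J_nonexp`; its proof uses only the inner product), `‖e^{√h η} G‖ = e^{b} ‖G‖`.
* `link2`: (1) the chain `stp` for `N = 2` has the same transition kernel as `G⁺ = J(G (1+√h ζ)) + k h coup` on `ℂ` (identification `ℂ ≃ₗᵢ E 2`; `‖G‖ξ` and `G ζ` have the same law by isotropy). (2) Same noise `ζ = η` for this chain (values `G'`) and `Fam2` (values `G`) started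
  at the same configuration: `D = G' - G`, `r = e^{√h η} - 1 - √h η`: `E r = 0`, `E[conj(1+√h η) r] = 0` (`E conj(η) η^j = 0` for `j ≥ 2`), `E|r|² ≤ C h²`, so `E|D(1+√hη) - G r|² = |D|²(1+2h) + |G|² E|r|²`, and with `(a+b)² ≤ (1+h)a² + (1+1/h)b²` for the coupling term:
  `E Σ_x|D⁺|² ≤ (1+Ch) Σ|D|² + C h² Σ|G|²`; `E Σ|G_n|² ≤ e^{C n h} E Σ|G_0|²`. So `E Σ_x|D_n(x)|² ≤ C h` for `n h ≤ 2 Sm`. (3) In `ChainMix` replace both trajectories (times `n1 + i`, `n2 + i`) by those of `Fam2`: product of at most `J` Lipschitz functions: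
  error `≤ 2 J CF Σ_x E min(1,|D|) ≤ C √h`. Then `Mix` with `δ/2`.
-/

open MeasureTheory ProbabilityTheory
open scoped ENNReal

namespace DynC

open Dyn

private theorem BLink1_pathE (N d : ℕ) (β k h : ℝ) (L : ℕ)
    (fs : List ((boxS d L → E N) → ℂ)) (G : boxS d L → E N) :
    (Fam1 N d β k).pathE h L fs G = pathE (boxNet d L) β h k (stdGaussian (E N)) fs G := by
  induction fs generalizing G with
  | nil => rfl
  | cons f fs ih =>
    have ih' : (fun ξ : boxS d L → E N => (Fam1 N d β k).pathE h L fs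
        (stp (boxNet d L) β h k G ξ)) =
        fun ξ => pathE (boxNet d L) β h k (stdGaussian (E N)) fs
          (stp (boxNet d L) β h k G ξ) := funext fun ξ => ih _
    show f G * ∫ ξ, (Fam1 N d β k).pathE h L fs (stp (boxNet d L) β h k G ξ)
        ∂(Measure.pi fun _ : boxS d L => stdGaussian (E N)) = f G *
      ∫ ξ, pathE (boxNet d L) β h k (stdGaussian (E N)) fs (stp (boxNet d L) β h k G ξ)
        ∂(pim (boxS d L) (stdGaussian (E N)))
    rw [ih']
    rfl

private theorem BLink1_law (N d : ℕ) (β k h : ℝ) (L : ℕ) (m0 : Measure (boxS d L → E N)) (n : ℕ) :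
    (Fam1 N d β k).law h L m0 n = chainLaw (boxNet d L) β h k (stdGaussian (E N)) m0 n := by
  induction n with
  | zero => rfl
  | succ n ih =>
    show (((Fam1 N d β k).law h L m0 n).prod
        (Measure.pi fun _ : boxS d L => stdGaussian (E N))).map
        (fun q => stp (boxNet d L) β h k q.1 q.2) =
      ((chainLaw (boxNet d L) β h k (stdGaussian (E N)) m0 n).prod
        (pim (boxS d L) (stdGaussian (E N)))).map (fun q => stp (boxNet d L) β h k q.1 q.2)
    rw [ih]
    rfl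

theorem link1 (N d : ℕ) (β k : ℝ) (hβ : 0 < β) (hk : 0 < k) (h : (Fam1 N d β k).Mix) :
    DynB.ChainMix N d β k := by
  intro ρ1 ρ2 p1 p2 h1 h2 i1 i2 R J CF δ hCF hδ
  obtain ⟨T0, L0, hT0, hL0, H⟩ := @h ρ1 ρ2 p1 p2 h1 h2 i1 i2 R J CF δ hCF hδ
  refine ⟨T0, L0, hT0, hL0, fun h0 => absurd h0 hk.ne', ?_⟩
  intro L _ hL Sm hSm
  obtain ⟨h0, hh0, H2⟩ := H L hL Sm hSm
  refine ⟨h0, hh0, ?_⟩
  intro h hh hh1 n1 n2 M hn1 hn2 hM F I hI hFm hFb hFI hFL
  have := H2 h hh hh1 n1 n2 M hn1 hn2 hM F I hI hFm hFb hFI hFL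
  have e1 := BLink1_law N d β k h L (Measure.pi (fun _ => ρ1)) n1
  have e2 := BLink1_law N d β k h L (Measure.pi (fun _ => ρ2)) n2
  have e3 : ∀ G : boxS d L → E N, (Fam1 N d β k).pathE h L ((List.range M).map F) G =
      pathE (boxNet d L) β h k (stdGaussian (E N)) ((List.range M).map F) G :=
    fun G => BLink1_pathE N d β k h L _ G
  rw [← e1, ← e2]
  simp only [← e3]
  exact this

end DynC
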