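import Pool.Agent.Lib_MP_36b788c.BFam
import Pool.Agent.Lib_MP_36b788.PhMeas

/-!
# The two families of chains and the links to `ChainMix`

* `Fam1 N d β k`: the Gaussian chain `stp` with values in `E N`.
* `Fam2 d β k`: values in `ℂ`, `G⁺ = J(e^{√h η} G) + k h coup G`, `η` complex Gaussian with independent standard normal real and imaginary parts.
* `PS2`: pair system for `Fam2` (same noise). `b = √h Re η`.

PROOF.
* `link1`: `F.pathE = pathE`, `F.law = chainLaw` by induction on the list / on `n` (`coupV = coup`, `JV = J` by definition), for `k > 0` the clause `k = 0 → …` is empty.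
* `BNoise` for `PS2`: `Re η ~ N(0,1)`: `∫ e^{r √h Re η} = e^{r² h/2}` and the part outside `gd` is `≤ h²` (Gaussian tail `P(|η| > h^{-1/8}) ≤ 2e^{-h^{-1/4}/4}`, Cauchy-Schwarz).
* `PS2` facts: `‖JV v‖ = psi ‖v‖` (`norm_J`), `JV` nonexpansive (as `J_nonexp`; its proof uses only the inner product), `‖e^{√h η} G‖ = e^{b} ‖G‖`.
* `link2`: (1) the chain `stp` for `N = 2` has the same transition kernel as `G⁺ = J(G (1+√h ζ)) + k h coup` on `ℂ` (identification `ℂ ≃ₗᵢ E 2`; `‖G‖ξ` and `G ζ` have the same law by isotropy). (2) Same noise `ζ = η` for this chain (values `G'`) and `Fam2` (values `G`) started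
  at the same configuration: `D = G' - G`, `r = e^{√h η} - 1 - √h η`: `E r = 0`, `E[conj(1+√h η) r] = 0` (`E conj(η) η^j = 0` for `j ≥ 2`), `E|r|² ≤ C h²`, so `E|D(1+√hη) - G r|² = |D|²(1+2h) + |G|² E|r|²`, and with `(a+b)² ≤ (1+h)a² + (1+1/h)b²` for the coupling term:
  `E Σ_x|D⁺|² ≤ (1+Ch) Σ|D|² + C h² Σ|G|²`; `E Σ|G_n|² ≤ e^{C n h} E Σ|G_0|²`. So `E Σ_x|D_n(x)|² ≤ C h` for `n h ≤ 2 Sm`. (3) In `ChainMix` replace both trajectories (times `n1 + i`, `n2 + i`) by those of `Fam2`: product of at most `J` Lipschitz functions: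
  error `≤ 2 J CF Σ_x E min(1,|D|) ≤ C √h`. Then `Mix` with `δ/2`.
-/

open MeasureTheory ProbabilityTheory
open scoped ENNReal

namespace DynC

open Dyn

/-! ### Gaussian integrals -/

private theorem BLink2_I0 (z : ℂ) :
    Integrable (fun x : ℝ => Complex.exp (z * x)) (gaussianReal 0 1) ∧
      ∫ x : ℝ, Complex.exp (z * x) ∂(gaussianReal 0 1) = Complex.exp (z ^ 2 / 2) := by
  refine ⟨integrable_cexp_mul_of_re_mem_integrableExpSet (X := id) aemeasurable_id ?_, ?_⟩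
  · rw [integrableExpSet_id_gaussianReal]
    trivial
  · have h := complexMGF_id_gaussianReal (μ := 0) (v := 1) z
    unfold complexMGF at h
    simp only [id] at h
    rw [h]
    congr 1
    push_cast
    ring

private theorem BLink2_I1 (z : ℂ) :
    Integrable (fun x : ℝ => (x : ℂ) * Complex.exp (z * x)) (gaussianReal 0 1) ∧
      ∫ x : ℝ, (x : ℂ) * Complex.exp (z * x) ∂(gaussianReal 0 1) =
        z * Complex.exp (z ^ 2 / 2) := by
  have hz : z.re ∈ interior (integrableExpSet id (gaussianReal 0 1)) := by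
    rw [integrableExpSet_id_gaussianReal]
    simp
  constructor
  · have h := integrable_pow_mul_cexp_of_re_mem_interior_integrableExpSet hz 1
    simpa using h
  · have h1 := hasDerivAt_complexMGF hz
    have h2 : HasDerivAt (complexMGF id (gaussianReal 0 1)) (z * Complex.exp (z ^ 2 / 2)) z := by
      have e : complexMGF id (gaussianReal 0 1) = fun w : ℂ => Complex.exp (w ^ 2 / 2) := by
        funext w
        rw [complexMGF_id_gaussianReal]
        congr 1
        push_cast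
        ring
      rw [e]
      have h3 : HasDerivAt (fun w : ℂ => w ^ 2 / 2) ((2 : ℕ) * z ^ (2 - 1) / 2) z :=
        (hasDerivAt_pow 2 z).div_const 2
      have h4 := h3.cexp
      have e7 : Complex.exp (z ^ 2 / 2) * (((2 : ℕ) : ℂ) * z ^ (2 - 1) / 2) =
          z * Complex.exp (z ^ 2 / 2) := by
        norm_num
        ring
      rw [e7] at h4
      exact h4
    have h5 := h1.unique h2
    simpa using h5

private theorem BLink2_mk : Measurable (fun p : ℝ × ℝ => (⟨p.1, p.2⟩ : ℂ)) :=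
  measurable_mkC

/-- the mixed integral -/
private theorem BLink2_cross (s : ℝ) :
    Integrable (fun η : ℂ => (1 + (s : ℂ) * η) * Complex.exp ((s : ℂ) * (starRingEnd ℂ) η)) gC ∧
    ∫ η : ℂ, (1 + (s : ℂ) * η) * Complex.exp ((s : ℂ) * (starRingEnd ℂ) η) ∂gC =
      1 + 2 * (s : ℂ) ^ 2 := by
  have hcont : Continuous (fun η : ℂ =>
      (1 + (s : ℂ) * η) * Complex.exp ((s : ℂ) * (starRingEnd ℂ) η)) := by
    fun_prop
  have e : ∀ p : ℝ × ℝ, (1 + (s : ℂ) * (⟨p.1, p.2⟩ : ℂ)) *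
      Complex.exp ((s : ℂ) * (starRingEnd ℂ) (⟨p.1, p.2⟩ : ℂ)) =
      (Complex.exp ((s : ℂ) * p.1) + s * (p.1 * Complex.exp ((s : ℂ) * p.1))) *
        Complex.exp ((-(s * Complex.I)) * p.2) +
      (s * Complex.I * Complex.exp ((s : ℂ) * p.1)) *
        (p.2 * Complex.exp ((-(s * Complex.I)) * p.2)) := by
    intro p
    have e1 : (⟨p.1, p.2⟩ : ℂ) = (p.1 : ℂ) + p.2 * Complex.I := by
      apply Complex.ext <;> simp
    have e2 : (starRingEnd ℂ) (⟨p.1, p.2⟩ : ℂ) = (p.1 : ℂ) - p.2 * Complex.I := by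
      apply Complex.ext <;> simp
    have e3 : (s : ℂ) * ((p.1 : ℂ) - p.2 * Complex.I) =
        (s : ℂ) * p.1 + (-(s * Complex.I)) * p.2 := by ring
    rw [e2, e1, e3, Complex.exp_add]
    ring
  have i1 : Integrable (fun p : ℝ × ℝ =>
      (Complex.exp ((s : ℂ) * p.1) + s * (p.1 * Complex.exp ((s : ℂ) * p.1))) *
        Complex.exp ((-(s * Complex.I)) * p.2)) ((gaussianReal 0 1).prod (gaussianReal 0 1)) :=
    ((BLink2_I0 s).1.add ((BLink2_I1 s).1.const_mul (s : ℂ))).mul_prod (BLink2_I0 _).1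
  have i2 : Integrable (fun p : ℝ × ℝ => (s * Complex.I * Complex.exp ((s : ℂ) * p.1)) *
        (p.2 * Complex.exp ((-(s * Complex.I)) * p.2)))
      ((gaussianReal 0 1).prod (gaussianReal 0 1)) :=
    ((BLink2_I0 s).1.const_mul (s * Complex.I)).mul_prod (BLink2_I1 _).1
  constructor
  · unfold gC
    rw [integrable_map_measure hcont.aestronglyMeasurable BLink2_mk.aemeasurable]
    refine (i1.add i2).congr (Filter.Eventually.of_forall fun p => ?_)
    exact (e p).symm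
  · unfold gC
    rw [integral_map BLink2_mk.aemeasurable hcont.aestronglyMeasurable]
    rw [integral_congr_ae (Filter.Eventually.of_forall e), integral_add i1 i2,
      integral_prod_mul (f := fun x : ℝ => Complex.exp ((s : ℂ) * x) +
        s * (x * Complex.exp ((s : ℂ) * x)))
        (g := fun y : ℝ => Complex.exp ((-(s * Complex.I)) * y)),
      integral_prod_mul (f := fun x : ℝ => s * Complex.I * Complex.exp ((s : ℂ) * x))
        (g := fun y : ℝ => y * Complex.exp ((-(s * Complex.I)) * y)),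
      integral_add (BLink2_I0 s).1 ((BLink2_I1 s).1.const_mul (s : ℂ)), integral_const_mul,
      integral_const_mul, (BLink2_I0 s).2, (BLink2_I1 s).2, (BLink2_I0 _).2, (BLink2_I1 _).2]
    have e4 : (-((s : ℂ) * Complex.I)) ^ 2 / 2 = -((s : ℂ) ^ 2 / 2) := by
      rw [neg_sq, mul_pow, Complex.I_sq]
      ring
    rw [e4]
    have e5 : Complex.exp ((s : ℂ) ^ 2 / 2) * Complex.exp (-((s : ℂ) ^ 2 / 2)) = 1 := by
      rw [← Complex.exp_add, add_neg_cancel, Complex.exp_zero]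
    have e6 : Complex.I * Complex.I = -1 := Complex.I_mul_I
    linear_combination (1 + 2 * (s : ℂ) ^ 2) * e5 -
      (s : ℂ) ^ 2 * Complex.exp ((s : ℂ) ^ 2 / 2) * Complex.exp (-((s : ℂ) ^ 2 / 2)) * e6

private theorem BLink2_sq : Integrable (fun x : ℝ => x ^ 2) (gaussianReal 0 1) ∧
    ∫ x : ℝ, x ^ 2 ∂(gaussianReal 0 1) = 1 := by
  have hi : Integrable (fun x : ℝ => x ^ 2) (gaussianReal 0 1) :=
    (memLp_id_gaussianReal (μ := 0) (v := 1) 2).integrable_sq
  refine ⟨hi, ?_⟩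
  have h := variance_fun_id_gaussianReal (μ := 0) (v := 1)
  rw [variance_eq_integral measurable_id'.aemeasurable, integral_id_gaussianReal] at h
  simpa using h

private theorem BLink2_lin (s : ℝ) :
    Integrable (fun η : ℂ => ‖1 + (s : ℂ) * η‖ ^ 2) gC ∧
    ∫ η : ℂ, ‖1 + (s : ℂ) * η‖ ^ 2 ∂gC = 1 + 2 * s ^ 2 := by
  have hcont : Continuous (fun η : ℂ => ‖1 + (s : ℂ) * η‖ ^ 2) := by fun_prop
  have e : ∀ p : ℝ × ℝ, ‖1 + (s : ℂ) * (⟨p.1, p.2⟩ : ℂ)‖ ^ 2 =
      (1 + 2 * s * p.1 + s ^ 2 * p.1 ^ 2) * 1 + s ^ 2 * p.2 ^ 2 := by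
    intro p
    rw [← Complex.normSq_eq_norm_sq, Complex.normSq_apply]
    simp
    ring
  have hid : Integrable (fun x : ℝ => x) (gaussianReal 0 1) :=
    (memLp_id_gaussianReal (μ := 0) (v := 1) 1).integrable (by norm_num)
  have hq0 : Integrable (fun x : ℝ => 1 + 2 * s * x) (gaussianReal 0 1) :=
    (integrable_const _).add (hid.const_mul _)
  have hq2 : Integrable (fun x : ℝ => s ^ 2 * x ^ 2) (gaussianReal 0 1) :=
    BLink2_sq.1.const_mul _
  have hq : Integrable (fun x : ℝ => 1 + 2 * s * x + s ^ 2 * x ^ 2) (gaussianReal 0 1) :=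
    hq0.add hq2
  have i1 : Integrable (fun p : ℝ × ℝ => (1 + 2 * s * p.1 + s ^ 2 * p.1 ^ 2) * 1)
      ((gaussianReal 0 1).prod (gaussianReal 0 1)) :=
    hq.mul_prod (integrable_const (1 : ℝ))
  have i2 : Integrable (fun p : ℝ × ℝ => s ^ 2 * p.2 ^ 2)
      ((gaussianReal 0 1).prod (gaussianReal 0 1)) :=
    (integrable_const (s ^ 2)).mul_prod BLink2_sq.1
  constructor
  · unfold gC
    rw [integrable_map_measure hcont.aestronglyMeasurable BLink2_mk.aemeasurable]
    refine (i1.add i2).congr (Filter.Eventually.of_forall fun p => ?_)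
    exact (e p).symm
  · unfold gC
    rw [integral_map BLink2_mk.aemeasurable hcont.aestronglyMeasurable]
    rw [integral_congr_ae (Filter.Eventually.of_forall e), integral_add i1 i2,
      integral_prod_mul (f := fun x : ℝ => 1 + 2 * s * x + s ^ 2 * x ^ 2)
        (g := fun _ : ℝ => (1 : ℝ)),
      integral_prod_mul (f := fun _ : ℝ => s ^ 2) (g := fun y : ℝ => y ^ 2),
      integral_add hq0 hq2,
      integral_add (integrable_const _) (hid.const_mul _), integral_const_mul,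
      integral_const_mul, BLink2_sq.2, integral_id_gaussianReal]
    simp
    ring

private theorem BLink2_exp (s : ℝ) :
    Integrable (fun η : ℂ => ‖Complex.exp ((s : ℂ) * η)‖ ^ 2) gC ∧
    ∫ η : ℂ, ‖Complex.exp ((s : ℂ) * η)‖ ^ 2 ∂gC = Real.exp (2 * s ^ 2) := by
  have hcont : Continuous (fun η : ℂ => ‖Complex.exp ((s : ℂ) * η)‖ ^ 2) := by fun_prop
  have e : ∀ p : ℝ × ℝ, ‖Complex.exp ((s : ℂ) * (⟨p.1, p.2⟩ : ℂ))‖ ^ 2 =
      Real.exp ((2 * s) * p.1) * 1 := by
    intro p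
    rw [Complex.norm_exp, ← Real.exp_nat_mul]
    simp
    ring
  have i0 : Integrable (fun x : ℝ => Real.exp ((2 * s) * x)) (gaussianReal 0 1) :=
    integrable_exp_mul_gaussianReal _
  have i1 : Integrable (fun p : ℝ × ℝ => Real.exp ((2 * s) * p.1) * 1)
      ((gaussianReal 0 1).prod (gaussianReal 0 1)) :=
    i0.mul_prod (integrable_const (1 : ℝ))
  constructor
  · unfold gC
    rw [integrable_map_measure hcont.aestronglyMeasurable BLink2_mk.aemeasurable]
    refine i1.congr (Filter.Eventually.of_forall fun p => ?_)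
    exact (e p).symm
  · unfold gC
    rw [integral_map BLink2_mk.aemeasurable hcont.aestronglyMeasurable]
    rw [integral_congr_ae (Filter.Eventually.of_forall e),
      integral_prod_mul (f := fun x : ℝ => Real.exp ((2 * s) * x)) (g := fun _ : ℝ => (1 : ℝ))]
    have h3 := congrFun (mgf_fun_id_gaussianReal (μ := 0) (v := 1)) (2 * s)
    unfold mgf at h3
    rw [h3]
    simp
    ring

/-- the site estimate -/
private theorem BLink2_site_int (s : ℝ) (A B : ℂ) :
    Integrable (fun η : ℂ => ‖A * (1 + (s : ℂ) * η) - Complex.exp ((s : ℂ) * η) * B‖ ^ 2) gC ∧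
    ∫ η : ℂ, ‖A * (1 + (s : ℂ) * η) - Complex.exp ((s : ℂ) * η) * B‖ ^ 2 ∂gC =
      (1 + 2 * s ^ 2) * ‖A - B‖ ^ 2 + ‖B‖ ^ 2 * (Real.exp (2 * s ^ 2) - 1 - 2 * s ^ 2) := by
  have e : ∀ η : ℂ, ‖A * (1 + (s : ℂ) * η) - Complex.exp ((s : ℂ) * η) * B‖ ^ 2 =
      ‖A‖ ^ 2 * ‖1 + (s : ℂ) * η‖ ^ 2 + ‖B‖ ^ 2 * ‖Complex.exp ((s : ℂ) * η)‖ ^ 2 -
        2 * (A * (starRingEnd ℂ) B *
          ((1 + (s : ℂ) * η) * Complex.exp ((s : ℂ) * (starRingEnd ℂ) η))).re := by
    intro η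
    have h1 : ∀ z w : ℂ, ‖z - w‖ ^ 2 = ‖z‖ ^ 2 + ‖w‖ ^ 2 - 2 * (z * (starRingEnd ℂ) w).re := by
      intro z w
      rw [← Complex.normSq_eq_norm_sq, ← Complex.normSq_eq_norm_sq, ← Complex.normSq_eq_norm_sq,
        Complex.normSq_sub]
    rw [h1, norm_mul, norm_mul, mul_pow, mul_pow]
    have h2 : A * (1 + (s : ℂ) * η) * (starRingEnd ℂ) (Complex.exp ((s : ℂ) * η) * B) =
        A * (starRingEnd ℂ) B * ((1 + (s : ℂ) * η) * Complex.exp ((s : ℂ) * (starRingEnd ℂ) η)) := by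
      rw [map_mul, ← Complex.exp_conj, map_mul, Complex.conj_ofReal]
      ring
    rw [h2]
    ring
  have i1 := (BLink2_lin s).1.const_mul (‖A‖ ^ 2)
  have i2 := (BLink2_exp s).1.const_mul (‖B‖ ^ 2)
  have i3 := ((BLink2_cross s).1.const_mul (A * (starRingEnd ℂ) B))
  have i4 : Integrable (fun η : ℂ => 2 * (A * (starRingEnd ℂ) B *
          ((1 + (s : ℂ) * η) * Complex.exp ((s : ℂ) * (starRingEnd ℂ) η))).re) gC :=
    i3.re.const_mul 2
  constructor
  · exact ((i1.add i2).sub i4).congr (Filter.Eventually.of_forall fun η => (e η).symm)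
  · have i12 : Integrable (fun η : ℂ => ‖A‖ ^ 2 * ‖1 + (s : ℂ) * η‖ ^ 2 +
        ‖B‖ ^ 2 * ‖Complex.exp ((s : ℂ) * η)‖ ^ 2) gC := i1.add i2
    rw [integral_congr_ae (Filter.Eventually.of_forall e), integral_sub i12 i4,
      integral_add i1 i2, integral_const_mul, integral_const_mul, integral_const_mul,
      (BLink2_lin s).2, (BLink2_exp s).2]
    have h5 : ∫ η : ℂ, (A * (starRingEnd ℂ) B *
          ((1 + (s : ℂ) * η) * Complex.exp ((s : ℂ) * (starRingEnd ℂ) η))).re ∂gC =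
        (A * (starRingEnd ℂ) B * (1 + 2 * (s : ℂ) ^ 2)).re := by
      have h6 := integral_re i3
      rw [integral_const_mul, (BLink2_cross s).2] at h6
      exact h6
    rw [h5]
    have h7 : (A * (starRingEnd ℂ) B * (1 + 2 * (s : ℂ) ^ 2)).re =
        (A * (starRingEnd ℂ) B).re * (1 + 2 * s ^ 2) := by
      have : (1 + 2 * (s : ℂ) ^ 2) = ((1 + 2 * s ^ 2 : ℝ) : ℂ) := by push_cast; ring
      rw [this, Complex.re_mul_ofReal]
    have h8 : ‖A - B‖ ^ 2 = ‖A‖ ^ 2 + ‖B‖ ^ 2 - 2 * (A * (starRingEnd ℂ) B).re := by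
      rw [← Complex.normSq_eq_norm_sq, ← Complex.normSq_eq_norm_sq, ← Complex.normSq_eq_norm_sq,
        Complex.normSq_sub]
    rw [h7, h8]
    ring

/-! ### the kernel identity -/

/-- identification of `ℂ` with `E 2` -/
private noncomputable def BLink2_e : ℂ ≃ₗᵢ[ℝ] E 2 := Complex.orthonormalBasisOneI.repr

private theorem BLink2_gC : gC = stdGaussian ℂ := by
  rw [stdGaussian_eq_map_pi_orthonormalBasis Complex.orthonormalBasisOneI]
  have h := (measurePreserving_finTwoArrow (gaussianReal 0 1)).map_eq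
  unfold gC
  rw [← h, Measure.map_map BLink2_mk (MeasurableEquiv.measurable _)]
  congr 1
  funext x
  apply Complex.ext <;> simp [MeasurableEquiv.finTwoArrow, Fin.sum_univ_two]

private theorem BLink2_rot (g : ℂ) :
    gC.map (fun ζ => g * ζ) = gC.map (fun ζ => ((‖g‖ : ℝ) : ℂ) * ζ) := by
  by_cases hg : g = 0
  · subst hg
    simp
  · have hn : (‖g‖ : ℂ) ≠ 0 := by
      exact_mod_cast norm_ne_zero_iff.mpr hg
    have hu : ‖g / (‖g‖ : ℂ)‖ = 1 := by
      rw [norm_div, Complex.norm_real, norm_norm, div_self (norm_ne_zero_iff.mpr hg)]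
    set u : Circle := ⟨g / (‖g‖ : ℂ), mem_sphere_zero_iff_norm.mpr hu⟩ with hud
    have h1 : gC.map (rotation u) = gC := by
      have h2 := stdGaussian_map (rotation u)
      rw [BLink2_gC]
      exact h2
    conv_rhs => rw [← h1]
    rw [Measure.map_map (by fun_prop) (rotation u).continuous.measurable]
    congr 1
    funext ζ
    show g * ζ = (‖g‖ : ℂ) * (rotation u ζ)
    rw [rotation_apply]
    show g * ζ = (‖g‖ : ℂ) * (g / (‖g‖ : ℂ) * ζ)
    field_simp

private theorem BLink2_J (β h : ℝ) (v : ℂ) :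
    J β h (BLink2_e v) = BLink2_e (JV β h v) := by
  simp only [J, JV, LinearIsometryEquiv.norm_map, map_smul]

private theorem BLink2_JVc {β h : ℝ} (hβ : 0 < β) (hh : 0 ≤ h) :
    Continuous (fun v : ℂ => JV β h v) := by
  have hl : LipschitzWith 1 (fun v : ℂ => JV β h v) := by
    apply LipschitzWith.of_dist_le_mul
    intro v w
    rw [dist_eq_norm, dist_eq_norm, NNReal.coe_one, one_mul]
    exact JV_nonexp hβ hh v w
  exact hl.continuous

private theorem BLink2_site {β h : ℝ} (hβ : 0 < β) (hh : 0 ≤ h) (g c : ℂ) :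
    gC.map (fun ζ => BLink2_e (JV β h (g * (1 + ((Real.sqrt h : ℝ) : ℂ) * ζ)) + c)) =
      (stdGaussian (E 2)).map (fun ξ => hat β h (BLink2_e g) ξ + BLink2_e c) := by
  have hJ := BLink2_JVc hβ hh
  have hΨ : Measurable (fun w : ℂ => BLink2_e (JV β h (g + ((Real.sqrt h : ℝ) : ℂ) * w) + c)) := by
    have : Continuous (fun w : ℂ => BLink2_e (JV β h (g + ((Real.sqrt h : ℝ) : ℂ) * w) + c)) :=
      BLink2_e.continuous.comp ((hJ.comp (by fun_prop)).add continuous_const)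
    exact this.measurable
  have h1 : (stdGaussian (E 2)) = gC.map BLink2_e := by
    rw [BLink2_gC]
    exact (stdGaussian_map BLink2_e).symm
  have h2 : Measurable (fun ξ : E 2 => hat β h (BLink2_e g) ξ + BLink2_e c) := by
    have : Continuous (fun ξ : E 2 => hat β h (BLink2_e g) ξ + BLink2_e c) :=
      ((hat_continuous hβ hh).comp (by fun_prop : Continuous fun ξ : E 2 =>
        ((BLink2_e g, ξ) : E 2 × E 2))).add continuous_const
    exact this.measurable
  rw [h1, Measure.map_map h2 BLink2_e.continuous.measurable]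
  have e1 : (fun ζ : ℂ => BLink2_e (JV β h (g * (1 + ((Real.sqrt h : ℝ) : ℂ) * ζ)) + c)) =
      (fun w : ℂ => BLink2_e (JV β h (g + ((Real.sqrt h : ℝ) : ℂ) * w) + c)) ∘
        (fun ζ => g * ζ) := by
    funext ζ
    simp only [Function.comp]
    congr 4
    ring
  have e2 : (fun ξ : E 2 => hat β h (BLink2_e g) ξ + BLink2_e c) ∘ BLink2_e =
      (fun w : ℂ => BLink2_e (JV β h (g + ((Real.sqrt h : ℝ) : ℂ) * w) + c)) ∘
        (fun ζ => ((‖g‖ : ℝ) : ℂ) * ζ) := by
    funext ζ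
    simp only [Function.comp, hat]
    rw [map_add]
    congr 1
    rw [← BLink2_J]
    congr 1
    rw [map_add]
    congr 1
    rw [LinearIsometryEquiv.norm_map, ← map_smul]
    congr 1
    rw [Complex.real_smul]
    push_cast
    ring
  rw [e1, e2, ← Measure.map_map hΨ (by fun_prop), ← Measure.map_map hΨ (by fun_prop),
    BLink2_rot]

section kernel

variable {d : ℕ}

/-- the linear chain on `ℂ` -/
private noncomputable def BLink2_s1 (d : ℕ) (β k h : ℝ) (L : ℕ) (G ζ : boxS d L → ℂ) :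
    boxS d L → ℂ :=
  fun x => JV β h (G x * (1 + ((Real.sqrt h : ℝ) : ℂ) * ζ x)) +
    (k * h) • coupV (boxNet d L) G x

private theorem BLink2_coup (L : ℕ) (G : boxS d L → ℂ) (x : boxS d L) :
    coup (boxNet d L) (fun y => BLink2_e (G y)) x = BLink2_e (coupV (boxNet d L) G x) := by
  simp only [coup, coupV, map_sub, map_sum, map_smul]

private theorem BLink2_ker {β h : ℝ} (hβ : 0 < β) (hh : 0 ≤ h) (k : ℝ) (L : ℕ)
    (G : boxS d L → ℂ) :
    (Measure.pi fun _ : boxS d L => gC).map (fun ζ x => BLink2_e (BLink2_s1 d β k h L G ζ x)) =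
      (pim (boxS d L) (stdGaussian (E 2))).map
        (fun ξ => stp (boxNet d L) β h k (fun x => BLink2_e (G x)) ξ) := by
  have hJ := BLink2_JVc hβ hh
  have m1 : ∀ x : boxS d L, Measurable (fun z : ℂ => BLink2_e (JV β h (G x *
      (1 + ((Real.sqrt h : ℝ) : ℂ) * z)) + (k * h) • coupV (boxNet d L) G x)) := by
    intro x
    have : Continuous (fun z : ℂ => BLink2_e (JV β h (G x *
        (1 + ((Real.sqrt h : ℝ) : ℂ) * z)) + (k * h) • coupV (boxNet d L) G x)) :=
      BLink2_e.continuous.comp ((hJ.comp (by fun_prop)).add continuous_const)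
    exact this.measurable
  have m2 : ∀ x : boxS d L, Measurable (fun ξ : E 2 => hat β h (BLink2_e (G x)) ξ +
      BLink2_e ((k * h) • coupV (boxNet d L) G x)) := by
    intro x
    have : Continuous (fun ξ : E 2 => hat β h (BLink2_e (G x)) ξ +
      BLink2_e ((k * h) • coupV (boxNet d L) G x)) :=
      ((hat_continuous hβ hh).comp (by fun_prop : Continuous fun ξ : E 2 =>
        ((BLink2_e (G x), ξ) : E 2 × E 2))).add continuous_const
    exact this.measurable
  have h1 := Measure.pi_map_pi (μ := fun _ : boxS d L => gC) (f := fun x (z : ℂ) =>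
    BLink2_e (JV β h (G x * (1 + ((Real.sqrt h : ℝ) : ℂ) * z)) +
      (k * h) • coupV (boxNet d L) G x))
    (hμ := fun x => by
      have := Measure.isProbabilityMeasure_map (μ := gC) (m1 x).aemeasurable
      infer_instance)
    (fun x => (m1 x).aemeasurable)
  have h2 := Measure.pi_map_pi (μ := fun _ : boxS d L => stdGaussian (E 2))
    (f := fun x (ξ : E 2) =>
      hat β h (BLink2_e (G x)) ξ + BLink2_e ((k * h) • coupV (boxNet d L) G x))
    (hμ := fun x => by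
      have := Measure.isProbabilityMeasure_map (μ := stdGaussian (E 2)) (m2 x).aemeasurable
      infer_instance)
    (fun x => (m2 x).aemeasurable)
  have e2 : (fun ξ : boxS d L → E 2 => stp (boxNet d L) β h k (fun x => BLink2_e (G x)) ξ) =
      fun (ξ : boxS d L → E 2) x => hat β h (BLink2_e (G x)) (ξ x) +
        BLink2_e ((k * h) • coupV (boxNet d L) G x) := by
    funext ξ x
    simp only [stp, BLink2_coup, map_smul]
  rw [e2]
  unfold pim
  rw [h2]
  refine h1.trans ?_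
  congr 1
  funext x
  exact BLink2_site hβ hh (G x) _

private theorem BLink2_coupc (L : ℕ) (x : boxS d L) :
    Continuous (fun G : boxS d L → ℂ => coupV (boxNet d L) G x) := by
  unfold coupV
  fun_prop

private theorem BLink2_ms1 {β h : ℝ} (hβ : 0 < β) (hh : 0 ≤ h) (k : ℝ) (L : ℕ) :
    Measurable (fun p : (boxS d L → ℂ) × (boxS d L → ℂ) => BLink2_s1 d β k h L p.1 p.2) := by
  have hJ := BLink2_JVc hβ hh
  have : Continuous (fun p : (boxS d L → ℂ) × (boxS d L → ℂ) =>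
      BLink2_s1 d β k h L p.1 p.2) := by
    refine continuous_pi fun x => ?_
    show Continuous fun p : (boxS d L → ℂ) × (boxS d L → ℂ) =>
      JV β h (p.1 x * (1 + ((Real.sqrt h : ℝ) : ℂ) * p.2 x)) +
        (k * h) • coupV (boxNet d L) p.1 x
    have h1 : Continuous fun p : (boxS d L → ℂ) × (boxS d L → ℂ) =>
        coupV (boxNet d L) p.1 x := (BLink2_coupc L x).comp continuous_fst
    have h2 : Continuous fun p : (boxS d L → ℂ) × (boxS d L → ℂ) =>
        (k * h) • coupV (boxNet d L) p.1 x := h1.const_smul (k * h)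
    have h3 : Continuous fun p : (boxS d L → ℂ) × (boxS d L → ℂ) =>
        JV β h (p.1 x * (1 + ((Real.sqrt h : ℝ) : ℂ) * p.2 x)) := hJ.comp (by fun_prop)
    exact h3.add h2
  exact this.measurable

/-! ### the Lyapunov function -/

/-- `Σ|G - G'|² + h Σ|G'|²` -/
private noncomputable def BLink2_U {ι : Type} [Fintype ι] (h : ℝ) (G G' : ι → ℂ) : ℝ :=
  ∑ x, ‖G x - G' x‖ ^ 2 + h * ∑ x, ‖G' x‖ ^ 2

private theorem BLink2_U_nonneg {ι : Type} [Fintype ι] {h : ℝ} (hh : 0 ≤ h) (G G' : ι → ℂ) :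
    0 ≤ BLink2_U h G G' := by
  unfold BLink2_U
  positivity

private theorem BLink2_coup_le (L : ℕ) (D : boxS d L → ℂ) (x : boxS d L) :
    ‖coupV (boxNet d L) D x‖ ^ 2 ≤ 16 * (d : ℝ) ^ 2 * ∑ y, ‖D y‖ ^ 2 := by
  set m : ℝ := Real.sqrt (∑ y, ‖D y‖ ^ 2) with hm
  have hm0 : 0 ≤ m := Real.sqrt_nonneg _
  have hs : 0 ≤ ∑ y, ‖D y‖ ^ 2 := Finset.sum_nonneg fun y _ => by positivity
  have h1 : ∀ y, ‖D y‖ ≤ m := by
    intro y
    apply Real.le_sqrt_of_sq_le
    exact Finset.single_le_sum (f := fun y => ‖D y‖ ^ 2) (fun z _ => by positivity)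
      (Finset.mem_univ y)
  have h2 : ‖coupV (boxNet d L) D x‖ ≤ 4 * d * m := by
    unfold coupV
    calc ‖∑ y ∈ (boxNet d L).nb x, D y - ((2 * d : ℕ) : ℝ) • D x‖
        ≤ ‖∑ y ∈ (boxNet d L).nb x, D y‖ + ‖((2 * d : ℕ) : ℝ) • D x‖ := norm_sub_le _ _
      _ ≤ ∑ y ∈ (boxNet d L).nb x, ‖D y‖ + (2 * d : ℕ) * ‖D x‖ := by
          refine add_le_add (norm_sum_le _ _) ?_
          rw [norm_smul, Real.norm_eq_abs, abs_of_nonneg (by positivity)]
      _ ≤ ((boxNet d L).nb x).card * m + (2 * d : ℕ) * m := by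
          refine add_le_add ?_ (mul_le_mul_of_nonneg_left (h1 x) (by positivity))
          calc ∑ y ∈ (boxNet d L).nb x, ‖D y‖ ≤ ∑ _y ∈ (boxNet d L).nb x, m :=
                Finset.sum_le_sum fun y _ => h1 y
            _ = ((boxNet d L).nb x).card * m := by rw [Finset.sum_const, nsmul_eq_mul]
      _ ≤ (2 * d : ℕ) * m + (2 * d : ℕ) * m := by
          have h3 : (((boxNet d L).nb x).card : ℝ) ≤ (2 * d : ℕ) := by
            exact_mod_cast (boxNet d L).nb_card x
          have := mul_le_mul_of_nonneg_right h3 hm0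
          linarith
      _ = 4 * d * m := by
          push_cast
          ring
  calc ‖coupV (boxNet d L) D x‖ ^ 2 ≤ (4 * d * m) ^ 2 :=
        pow_le_pow_left₀ (norm_nonneg _) h2 2
    _ = 16 * (d : ℝ) ^ 2 * m ^ 2 := by ring
    _ = 16 * (d : ℝ) ^ 2 * ∑ y, ‖D y‖ ^ 2 := by rw [hm, Real.sq_sqrt hs]

private theorem BLink2_young {h : ℝ} (hh : 0 < h) (u v : ℂ) :
    ‖u + v‖ ^ 2 ≤ (1 + h) * ‖u‖ ^ 2 + (1 + 1 / h) * ‖v‖ ^ 2 := by
  have h1 := norm_add_le u v
  have h2 : ‖u + v‖ ^ 2 ≤ (‖u‖ + ‖v‖) ^ 2 := pow_le_pow_left₀ (norm_nonneg _) h1 2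
  have h3 : 2 * (‖u‖ * ‖v‖) ≤ h * ‖u‖ ^ 2 + 1 / h * ‖v‖ ^ 2 := by
    have h4 : 0 ≤ h * (‖u‖ - ‖v‖ / h) ^ 2 := by positivity
    have h5 : h * (‖u‖ - ‖v‖ / h) ^ 2 = h * ‖u‖ ^ 2 + 1 / h * ‖v‖ ^ 2 - 2 * (‖u‖ * ‖v‖) := by
      field_simp
      ring
    linarith
  nlinarith

/-- one step -/
private theorem BLink2_step {β : ℝ} (hβ : 0 < β) (k : ℝ) (L : ℕ) :
    ∃ C : ℝ, 0 ≤ C ∧ ∀ h : ℝ, 0 < h → h ≤ 1 / 2 → ∀ G G' : boxS d L → ℂ,
      ∫⁻ ζ, ENNReal.ofReal (BLink2_U h (BLink2_s1 d β k h L G ζ) (st2 d β k h L G' ζ))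
        ∂(Measure.pi fun _ : boxS d L => gC) ≤
      ENNReal.ofReal ((1 + C * h) * BLink2_U h G G') := by
  set c : ℝ := (Fintype.card (boxS d L) : ℝ) with hc
  have hc0 : 0 ≤ c := Nat.cast_nonneg _
  refine ⟨13 + 32 * k ^ 2 * (d : ℝ) ^ 2 * c, by positivity, fun h hh hh2 G G' => ?_⟩
  set s : ℝ := Real.sqrt h with hs
  have hs2 : s ^ 2 = h := Real.sq_sqrt hh.le
  -- pointwise
  set φ : boxS d L → ℂ → ℝ := fun x η =>
    (1 + h) * ‖G x * (1 + (s : ℂ) * η) - Complex.exp ((s : ℂ) * η) * G' x‖ ^ 2 +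
      h * (1 + h) * ‖0 * (1 + (s : ℂ) * η) - Complex.exp ((s : ℂ) * η) * G' x‖ ^ 2 with hφ
  set c1 : ℝ := (1 + 1 / h) * (k * h) ^ 2 * (16 * (d : ℝ) ^ 2 * c) with hc1
  have hpt : ∀ ζ : boxS d L → ℂ,
      BLink2_U h (BLink2_s1 d β k h L G ζ) (st2 d β k h L G' ζ) ≤
        ∑ x, φ x (ζ x) + c1 * BLink2_U h G G' := by
    intro ζ
    have hA : ∀ x, ‖BLink2_s1 d β k h L G ζ x - st2 d β k h L G' ζ x‖ ^ 2 ≤
        (1 + h) * ‖G x * (1 + (s : ℂ) * ζ x) - Complex.exp ((s : ℂ) * ζ x) * G' x‖ ^ 2 +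
          (1 + 1 / h) * (k * h) ^ 2 * (16 * (d : ℝ) ^ 2 * ∑ y, ‖G y - G' y‖ ^ 2) := by
      intro x
      have e1 : BLink2_s1 d β k h L G ζ x - st2 d β k h L G' ζ x =
          (JV β h (G x * (1 + (s : ℂ) * ζ x)) - JV β h (Complex.exp ((s : ℂ) * ζ x) * G' x)) +
            (k * h) • coupV (boxNet d L) (fun y => G y - G' y) x := by
        have e2 : coupV (boxNet d L) (fun y => G y - G' y) x =
            coupV (boxNet d L) G x - coupV (boxNet d L) G' x := by
          simp only [coupV, Finset.sum_sub_distrib, smul_sub]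
          ring
        rw [e2, smul_sub]
        simp only [BLink2_s1, st2]
        ring
      rw [e1]
      refine (BLink2_young hh _ _).trans (add_le_add ?_ ?_)
      · refine mul_le_mul_of_nonneg_left ?_ (by linarith)
        exact pow_le_pow_left₀ (norm_nonneg _) (JV_nonexp hβ hh.le _ _) 2
      · rw [norm_smul, mul_pow, Real.norm_eq_abs, sq_abs, mul_assoc]
        refine mul_le_mul_of_nonneg_left ?_ (by positivity)
        exact mul_le_mul_of_nonneg_left (BLink2_coup_le L _ x) (by positivity)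
    have hB : ∀ x, ‖st2 d β k h L G' ζ x‖ ^ 2 ≤
        (1 + h) * ‖0 * (1 + (s : ℂ) * ζ x) - Complex.exp ((s : ℂ) * ζ x) * G' x‖ ^ 2 +
          (1 + 1 / h) * (k * h) ^ 2 * (16 * (d : ℝ) ^ 2 * ∑ y, ‖G' y‖ ^ 2) := by
      intro x
      have e1 : st2 d β k h L G' ζ x = JV β h (Complex.exp ((s : ℂ) * ζ x) * G' x) +
          (k * h) • coupV (boxNet d L) G' x := rfl
      rw [e1]
      refine (BLink2_young hh _ _).trans (add_le_add ?_ ?_)
      · refine mul_le_mul_of_nonneg_left ?_ (by linarith)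
        have h0 := JV_nonexp hβ hh.le (Complex.exp ((s : ℂ) * ζ x) * G' x) 0
        have h00 : JV β h (0 : ℂ) = 0 := by simp [JV]
        rw [h00, sub_zero, sub_zero] at h0
        rw [zero_mul, zero_sub, norm_neg]
        exact pow_le_pow_left₀ (norm_nonneg _) h0 2
      · rw [norm_smul, mul_pow, Real.norm_eq_abs, sq_abs, mul_assoc]
        refine mul_le_mul_of_nonneg_left ?_ (by positivity)
        exact mul_le_mul_of_nonneg_left (BLink2_coup_le L _ x) (by positivity)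
    have hA' := Finset.sum_le_sum fun x (_ : x ∈ Finset.univ) => hA x
    have hB' := mul_le_mul_of_nonneg_left
      (Finset.sum_le_sum fun x (_ : x ∈ Finset.univ) => hB x) hh.le
    rw [Finset.sum_add_distrib, Finset.sum_const, Finset.card_univ, nsmul_eq_mul,
      ← Finset.mul_sum] at hA' hB'
    have eφ : ∑ x, φ x (ζ x) =
        (1 + h) * ∑ x, ‖G x * (1 + (s : ℂ) * ζ x) - Complex.exp ((s : ℂ) * ζ x) * G' x‖ ^ 2 +
        h * (1 + h) * ∑ x, ‖0 * (1 + (s : ℂ) * ζ x) - Complex.exp ((s : ℂ) * ζ x) * G' x‖ ^ 2 := by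
      simp only [hφ]
      rw [Finset.sum_add_distrib, ← Finset.mul_sum, ← Finset.mul_sum]
    rw [eφ]
    unfold BLink2_U
    refine (add_le_add hA' hB').trans (le_of_eq ?_)
    simp only [hc1, hc]
    ring
  -- integrals
  have hφi : ∀ x, Integrable (φ x) gC := fun x =>
    ((BLink2_site_int s (G x) (G' x)).1.const_mul _).add
      ((BLink2_site_int s 0 (G' x)).1.const_mul _)
  have hφv : ∀ x, ∫ η, φ x η ∂gC = (1 + h) * ((1 + 2 * h) * ‖G x - G' x‖ ^ 2 +
      ‖G' x‖ ^ 2 * (Real.exp (2 * h) - 1 - 2 * h + h * Real.exp (2 * h))) := by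
    intro x
    have h1 : ∫ η, φ x η ∂gC = ∫ η, (1 + h) *
        ‖G x * (1 + (s : ℂ) * η) - Complex.exp ((s : ℂ) * η) * G' x‖ ^ 2 ∂gC +
        ∫ η, h * (1 + h) * ‖0 * (1 + (s : ℂ) * η) - Complex.exp ((s : ℂ) * η) * G' x‖ ^ 2 ∂gC :=
      integral_add ((BLink2_site_int s (G x) (G' x)).1.const_mul _)
        ((BLink2_site_int s 0 (G' x)).1.const_mul _)
    rw [h1, integral_const_mul, integral_const_mul, (BLink2_site_int s (G x) (G' x)).2,
      (BLink2_site_int s 0 (G' x)).2, hs2, zero_sub, norm_neg]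
    ring
  have hU0 := BLink2_U_nonneg hh.le G G'
  have hF : Integrable (fun ζ : boxS d L → ℂ => ∑ x, φ x (ζ x) + c1 * BLink2_U h G G')
      (Measure.pi fun _ : boxS d L => gC) :=
    (integrable_finsetSum _ fun x _ => integrable_comp_eval (hφi x)).add (integrable_const _)
  have hF0 : ∀ ζ : boxS d L → ℂ, 0 ≤ ∑ x, φ x (ζ x) + c1 * BLink2_U h G G' := by
    intro ζ
    refine add_nonneg (Finset.sum_nonneg fun x _ => ?_) (by positivity)
    simp only [hφ]
    positivity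
  refine (lintegral_mono fun ζ => ENNReal.ofReal_le_ofReal (hpt ζ)).trans ?_
  rw [← ofReal_integral_eq_lintegral_ofReal hF (Filter.Eventually.of_forall hF0)]
  apply ENNReal.ofReal_le_ofReal
  have hsum : ∫ ζ : boxS d L → ℂ, (∑ x, φ x (ζ x) + c1 * BLink2_U h G G')
      ∂(Measure.pi fun _ : boxS d L => gC) =
      (1 + h) * ((1 + 2 * h) * ∑ x, ‖G x - G' x‖ ^ 2 + (∑ x, ‖G' x‖ ^ 2) *
        (Real.exp (2 * h) - 1 - 2 * h + h * Real.exp (2 * h))) + c1 * BLink2_U h G G' := by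
    rw [integral_add (integrable_finsetSum _ fun x _ => integrable_comp_eval (hφi x))
      (integrable_const _), integral_finsetSum _ fun x _ => integrable_comp_eval (hφi x)]
    congr 1
    · have h2 : ∀ x, ∫ ζ : boxS d L → ℂ, φ x (ζ x) ∂(Measure.pi fun _ : boxS d L => gC) =
          (1 + h) * ((1 + 2 * h) * ‖G x - G' x‖ ^ 2 +
            ‖G' x‖ ^ 2 * (Real.exp (2 * h) - 1 - 2 * h + h * Real.exp (2 * h))) := by
        intro x
        rw [← hφv x]
        exact integral_comp_eval (hφi x).aestronglyMeasurable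
      simp only [h2]
      rw [← Finset.mul_sum, Finset.sum_add_distrib, ← Finset.mul_sum, ← Finset.sum_mul]
    · simp
  rw [hsum]
  have hE := Real.abs_exp_sub_one_sub_id_le (x := 2 * h) (by rw [abs_of_pos (by linarith)]; linarith)
  have hE1 := (abs_le.mp hE).2
  set W : ℝ := ∑ x, ‖G x - G' x‖ ^ 2 with hW
  set Q : ℝ := ∑ x, ‖G' x‖ ^ 2 with hQ
  have hW0 : 0 ≤ W := Finset.sum_nonneg fun x _ => by positivity
  have hQ0 : 0 ≤ Q := Finset.sum_nonneg fun x _ => by positivity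
  have eU : BLink2_U h G G' = W + h * Q := rfl
  have hc1b : c1 ≤ 32 * k ^ 2 * (d : ℝ) ^ 2 * c * h := by
    have e3 : c1 = k ^ 2 * (16 * (d : ℝ) ^ 2 * c) * (h ^ 2 + h) := by
      rw [hc1]
      field_simp
    rw [e3]
    have : h ^ 2 + h ≤ 2 * h := by nlinarith
    calc k ^ 2 * (16 * (d : ℝ) ^ 2 * c) * (h ^ 2 + h)
        ≤ k ^ 2 * (16 * (d : ℝ) ^ 2 * c) * (2 * h) :=
          mul_le_mul_of_nonneg_left this (by positivity)
      _ = 32 * k ^ 2 * (d : ℝ) ^ 2 * c * h := by ring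
  have hE2 : Real.exp (2 * h) - 1 - 2 * h + h * Real.exp (2 * h) ≤ h + 8 * h ^ 2 := by
    have h3 : Real.exp (2 * h) ≤ 1 + 4 * h := by nlinarith
    nlinarith
  have h5 : (1 + h) * ((1 + 2 * h) * W + Q * (Real.exp (2 * h) - 1 - 2 * h +
      h * Real.exp (2 * h))) ≤ (1 + 13 * h) * (W + h * Q) := by
    have h6 : (1 + h) * (1 + 2 * h) ≤ 1 + 13 * h := by nlinarith
    have h7 : (1 + h) * (h + 8 * h ^ 2) ≤ (1 + 13 * h) * h := by nlinarith [sq_nonneg h]
    have h8 := mul_le_mul_of_nonneg_right h6 hW0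
    have h9 : (1 + h) * (Q * (Real.exp (2 * h) - 1 - 2 * h + h * Real.exp (2 * h))) ≤
        (1 + h) * (Q * (h + 8 * h ^ 2)) :=
      mul_le_mul_of_nonneg_left (mul_le_mul_of_nonneg_left hE2 hQ0) (by linarith)
    have h10 := mul_le_mul_of_nonneg_right h7 hQ0
    nlinarith
  have h11 := mul_le_mul_of_nonneg_right hc1b hU0
  rw [eU] at h11 ⊢
  nlinarith

end kernel

/-! ### path expectations and laws of general chains -/

private theorem BLink2_cur {A B C : Type} [MeasurableSpace A] [MeasurableSpace B]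
    [MeasurableSpace C] {f : A → B → C} (h : Measurable fun p : A × B => f p.1 p.2) (a : A) :
    Measurable (f a) := by
  have h1 : Measurable (fun b : B => (a, b)) := measurable_const.prodMk measurable_id
  exact h.comp h1

/-- path expectation of a general chain -/
private noncomputable def BLink2_pE {A Ω : Type} [MeasurableSpace Ω] (st : A → Ω → A)
    (μ : Measure Ω) : List (A → ℂ) → A → ℂ
  | [], _ => 1
  | f :: fs, G => f G * ∫ ζ, BLink2_pE st μ fs (st G ζ) ∂μ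

private theorem BLink2_pE_facts {A Ω : Type} [MeasurableSpace A] [MeasurableSpace Ω]
    (st : A → Ω → A) (μ : Measure Ω) [IsProbabilityMeasure μ]
    (hst : Measurable (fun p : A × Ω => st p.1 p.2))
    (fs : List (A → ℂ)) (hm : ∀ f ∈ fs, Measurable f) (hb : ∀ f ∈ fs, ∀ G, ‖f G‖ ≤ 1) :
    Measurable (BLink2_pE st μ fs) ∧ ∀ G, ‖BLink2_pE st μ fs G‖ ≤ 1 := by
  induction fs with
  | nil =>
    refine ⟨?_, fun G => ?_⟩
    · show Measurable (fun _ : A => (1 : ℂ))
      exact measurable_const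
    · show ‖(1 : ℂ)‖ ≤ 1
      simp
  | cons f fs ih =>
    obtain ⟨h1, h2⟩ := ih (fun g hg => hm g (List.mem_cons_of_mem _ hg))
      (fun g hg => hb g (List.mem_cons_of_mem _ hg))
    refine ⟨?_, fun G => ?_⟩
    · show Measurable (fun G => f G * ∫ ζ, BLink2_pE st μ fs (st G ζ) ∂μ)
      refine (hm f (by simp)).mul ?_
      have h3 : Measurable (fun q : A × Ω => BLink2_pE st μ fs (st q.1 q.2)) :=
        h1.comp hst
      exact (StronglyMeasurable.integral_prod_right' (ν := μ) h3.stronglyMeasurable).measurable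
    · show ‖f G * ∫ ζ, BLink2_pE st μ fs (st G ζ) ∂μ‖ ≤ 1
      rw [norm_mul]
      refine mul_le_one₀ (hb f (by simp) G) (norm_nonneg _) ?_
      refine (norm_integral_le_of_norm_le_const (C := 1)
        (Filter.Eventually.of_forall fun ζ => h2 _)).trans ?_
      simp

/-- path expectation of a factor -/
private theorem BLink2_pE_factor {A Ω B Ω' : Type} [MeasurableSpace A] [MeasurableSpace Ω]
    [MeasurableSpace B] [MeasurableSpace Ω'] (s : A → Ω → A) (μ : Measure Ω)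
    (t : B → Ω' → B) (μ' : Measure Ω') [IsProbabilityMeasure μ'] (p : A → B) (hp : Measurable p)
    (hs : Measurable fun q : A × Ω => s q.1 q.2) (ht : Measurable fun q : B × Ω' => t q.1 q.2)
    (hk : ∀ a, μ.map (fun ω => p (s a ω)) = μ'.map (fun ω => t (p a) ω))
    (fs : List (B → ℂ)) (hm : ∀ f ∈ fs, Measurable f) (hb : ∀ f ∈ fs, ∀ G, ‖f G‖ ≤ 1) (a : A) :
    BLink2_pE t μ' fs (p a) = BLink2_pE s μ (fs.map fun f b => f (p b)) a := by
  induction fs generalizing a with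
  | nil => rfl
  | cons f fs ih =>
    have ih' := ih (fun g hg => hm g (List.mem_cons_of_mem _ hg))
      (fun g hg => hb g (List.mem_cons_of_mem _ hg))
    obtain ⟨h1, -⟩ := BLink2_pE_facts t μ' ht fs
      (fun g hg => hm g (List.mem_cons_of_mem _ hg))
      (fun g hg => hb g (List.mem_cons_of_mem _ hg))
    show f (p a) * ∫ ω, BLink2_pE t μ' fs (t (p a) ω) ∂μ' =
      f (p a) * ∫ ω, BLink2_pE s μ (fs.map fun f b => f (p b)) (s a ω) ∂μ
    congr 1
    have m1 : Measurable (fun ω => t (p a) ω) := BLink2_cur ht (p a)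
    have m2 : Measurable (fun ω => p (s a ω)) := hp.comp (BLink2_cur hs a)
    have h4 := integral_map (μ := μ') m1.aemeasurable
      (f := BLink2_pE t μ' fs) h1.aestronglyMeasurable
    have h5 := integral_map (μ := μ) m2.aemeasurable
      (f := BLink2_pE t μ' fs) h1.aestronglyMeasurable
    rw [← h4, ← hk a, h5]
    refine integral_congr_ae (Filter.Eventually.of_forall fun ω => ?_)
    exact ih' _

/-- law after `n` steps of a general chain -/
private noncomputable def BLink2_lawG {A Ω : Type} [MeasurableSpace A] [MeasurableSpace Ω]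
    (s : A → Ω → A) (μ : Measure Ω) (m0 : Measure A) : ℕ → Measure A
  | 0 => m0
  | n + 1 => ((BLink2_lawG s μ m0 n).prod μ).map (fun q => s q.1 q.2)

private theorem BLink2_lawG_prob {A Ω : Type} [MeasurableSpace A] [MeasurableSpace Ω]
    (s : A → Ω → A) (μ : Measure Ω) [IsProbabilityMeasure μ] (m0 : Measure A)
    [IsProbabilityMeasure m0] (hs : Measurable fun q : A × Ω => s q.1 q.2) (n : ℕ) :
    IsProbabilityMeasure (BLink2_lawG s μ m0 n) := by
  induction n with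
  | zero =>
    show IsProbabilityMeasure m0
    infer_instance
  | succ n ih =>
    show IsProbabilityMeasure (((BLink2_lawG s μ m0 n).prod μ).map (fun q => s q.1 q.2))
    exact Measure.isProbabilityMeasure_map hs.aemeasurable

/-- factor of a chain -/
private theorem BLink2_factor {A Ω B Ω' : Type} [MeasurableSpace A] [MeasurableSpace Ω]
    [MeasurableSpace B] [MeasurableSpace Ω'] (s : A → Ω → A) (μ : Measure Ω)
    [IsProbabilityMeasure μ] (t : B → Ω' → B) (μ' : Measure Ω') [IsProbabilityMeasure μ']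
    (m0 : Measure A) [IsProbabilityMeasure m0] (p : A → B) (hp : Measurable p)
    (hs : Measurable fun q : A × Ω => s q.1 q.2) (ht : Measurable fun q : B × Ω' => t q.1 q.2)
    (hk : ∀ a, μ.map (fun ω => p (s a ω)) = μ'.map (fun ω => t (p a) ω)) (n : ℕ) :
    (BLink2_lawG s μ m0 n).map p = BLink2_lawG t μ' (m0.map p) n := by
  induction n with
  | zero => rfl
  | succ n ih =>
    have hpr := BLink2_lawG_prob s μ m0 hs n
    refine Measure.ext_of_lintegral _ fun φ hφ => ?_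
    show ∫⁻ b, φ b ∂((((BLink2_lawG s μ m0 n).prod μ).map (fun q => s q.1 q.2)).map p) =
      ∫⁻ b, φ b ∂(((BLink2_lawG t μ' (m0.map p) n).prod μ').map (fun q => t q.1 q.2))
    have hφ1 : Measurable (fun a => φ (p a)) := hφ.comp hp
    have hφ2 : Measurable (fun q : B × Ω' => φ (t q.1 q.2)) := hφ.comp ht
    have hφ3 : Measurable (fun q : A × Ω => φ (p (s q.1 q.2))) := hφ1.comp hs
    rw [lintegral_map hφ hp, lintegral_map hφ1 hs, lintegral_map hφ ht, ← ih,
      lintegral_prod _ hφ3.aemeasurable, lintegral_prod _ hφ2.aemeasurable,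
      lintegral_map hφ2.lintegral_prod_right' hp]
    refine lintegral_congr fun a => ?_
    have hk1 : Measurable (fun ω => p (s a ω)) := hp.comp (BLink2_cur hs a)
    have hk2 : Measurable (fun ω => t (p a) ω) := BLink2_cur ht (p a)
    have h1 := lintegral_map (μ := μ) hφ hk1
    have h2 := lintegral_map (μ := μ') hφ hk2
    rw [hk a] at h1
    exact h1.symm.trans h2

/-- growth of a Lyapunov function -/
private theorem BLink2_growth {A Ω : Type} [MeasurableSpace A] [MeasurableSpace Ω]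
    (s : A → Ω → A) (μ : Measure Ω) [IsProbabilityMeasure μ]
    (m0 : Measure A) [IsProbabilityMeasure m0] (hs : Measurable fun q : A × Ω => s q.1 q.2)
    (Φ : A → ℝ≥0∞) (hΦ : Measurable Φ) (c : ℝ≥0∞) (hc : c ≠ ⊤)
    (h : ∀ a, ∫⁻ ω, Φ (s a ω) ∂μ ≤ c * Φ a) (n : ℕ) :
    ∫⁻ a, Φ a ∂(BLink2_lawG s μ m0 n) ≤ c ^ n * ∫⁻ a, Φ a ∂m0 := by
  induction n with
  | zero =>
    show ∫⁻ a, Φ a ∂m0 ≤ _
    simp
  | succ n ih =>
    have hpr := BLink2_lawG_prob s μ m0 hs n
    show ∫⁻ a, Φ a ∂(((BLink2_lawG s μ m0 n).prod μ).map (fun q => s q.1 q.2)) ≤ _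
    have h3 : Measurable (fun q : A × Ω => Φ (s q.1 q.2)) := hΦ.comp hs
    rw [lintegral_map hΦ hs, lintegral_prod _ h3.aemeasurable]
    refine (lintegral_mono fun a => h a).trans ?_
    rw [lintegral_const_mul' _ _ hc, pow_succ, mul_comm (c ^ n) c, mul_assoc]
    exact mul_le_mul_right ih _

/-- difference of the path expectations -/
private theorem BLink2_diff {ι : Type} [Fintype ι] (s1 s2 : (ι → ℂ) → (ι → ℂ) → ι → ℂ)
    (μ : Measure (ι → ℂ)) [IsProbabilityMeasure μ]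
    (hs1 : Measurable (fun p : (ι → ℂ) × (ι → ℂ) => s1 p.1 p.2))
    (hs2 : Measurable (fun p : (ι → ℂ) × (ι → ℂ) => s2 p.1 p.2)) (C h : ℝ) (hC : 0 ≤ C)
    (hh : 0 < h)
    (hU : ∀ G G' : ι → ℂ, ∫⁻ ζ, ENNReal.ofReal (BLink2_U h (s1 G ζ) (s2 G' ζ)) ∂μ ≤
      ENNReal.ofReal ((1 + C * h) * BLink2_U h G G'))
    (l : List (((ι → ℂ) → ℂ) × ℝ))
    (hl : ∀ p ∈ l, Measurable p.1 ∧ (∀ G, ‖p.1 G‖ ≤ 1) ∧ 0 ≤ p.2 ∧
      ∀ G G' : ι → ℂ, ‖p.1 G - p.1 G'‖ ≤ p.2 * ∑ x, ‖G x - G' x‖) (G G' : ι → ℂ) :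
    ‖BLink2_pE s1 μ (l.map Prod.fst) G - BLink2_pE s2 μ (l.map Prod.fst) G'‖ ≤
      (l.map Prod.snd).sum * ((Fintype.card ι * Real.sqrt h +
        (1 + C * h) ^ l.length * BLink2_U h G G' / Real.sqrt h) / 2) := by
  induction l generalizing G G' with
  | nil => simp [BLink2_pE]
  | cons p l ih =>
    have hl' : ∀ q ∈ l, Measurable q.1 ∧ (∀ G, ‖q.1 G‖ ≤ 1) ∧ 0 ≤ q.2 ∧
      ∀ G G' : ι → ℂ, ‖q.1 G - q.1 G'‖ ≤ q.2 * ∑ x, ‖G x - G' x‖ :=
      fun q hq => hl q (List.mem_cons_of_mem _ hq)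
    obtain ⟨hpm, hpb, hp0, hpl⟩ := hl p (by simp)
    have ih' := ih hl'
    have hsq : 0 < Real.sqrt h := Real.sqrt_pos.mpr hh
    have hsq2 : Real.sqrt h * Real.sqrt h = h := Real.mul_self_sqrt hh.le
    have hS : 0 ≤ (l.map Prod.snd).sum := by
      apply List.sum_nonneg
      intro a ha
      obtain ⟨q, hq, rfl⟩ := List.mem_map.mp ha
      exact (hl' q hq).2.2.1
    have hmf : ∀ f ∈ l.map Prod.fst, Measurable f := by
      intro f hf
      obtain ⟨q, hq, rfl⟩ := List.mem_map.mp hf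
      exact (hl' q hq).1
    have hbf : ∀ f ∈ l.map Prod.fst, ∀ G, ‖f G‖ ≤ 1 := by
      intro f hf
      obtain ⟨q, hq, rfl⟩ := List.mem_map.mp hf
      exact (hl' q hq).2.1
    obtain ⟨f1, b1⟩ := BLink2_pE_facts s1 μ hs1 (l.map Prod.fst) hmf hbf
    obtain ⟨f2, b2⟩ := BLink2_pE_facts s2 μ hs2 (l.map Prod.fst) hmf hbf
    set A : (ι → ℂ) → ℂ := BLink2_pE s1 μ (l.map Prod.fst) with hA
    set B : (ι → ℂ) → ℂ := BLink2_pE s2 μ (l.map Prod.fst) with hB
    have c1 : Measurable (fun ζ => A (s1 G ζ)) := f1.comp (BLink2_cur hs1 G)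
    have c2 : Measurable (fun ζ => B (s2 G' ζ)) := f2.comp (BLink2_cur hs2 G')
    have c3 : Measurable (fun ζ => ‖A (s1 G ζ) - B (s2 G' ζ)‖) := (c1.sub c2).norm
    have i1 : Integrable (fun ζ => A (s1 G ζ)) μ :=
      Integrable.of_bound (C := 1) c1.aestronglyMeasurable
        (Filter.Eventually.of_forall fun ζ => b1 _)
    have i2 : Integrable (fun ζ => B (s2 G' ζ)) μ :=
      Integrable.of_bound (C := 1) c2.aestronglyMeasurable
        (Filter.Eventually.of_forall fun ζ => b2 _)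
    have hU0 := BLink2_U_nonneg hh.le G G'
    -- the integral part
    set S : ℝ := (l.map Prod.snd).sum with hSd
    set K : ℝ := (1 + C * h) ^ l.length with hK
    have hK0 : 0 ≤ K := by positivity
    have hint : ‖∫ ζ, A (s1 G ζ) ∂μ - ∫ ζ, B (s2 G' ζ) ∂μ‖ ≤
        S * ((Fintype.card ι * Real.sqrt h +
          K * ((1 + C * h) * BLink2_U h G G') / Real.sqrt h) / 2) := by
      have e0 : ∫ ζ, A (s1 G ζ) ∂μ - ∫ ζ, B (s2 G' ζ) ∂μ =
          ∫ ζ, (A (s1 G ζ) - B (s2 G' ζ)) ∂μ := (integral_sub i1 i2).symm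
      rw [e0]
      refine (norm_integral_le_integral_norm _).trans ?_
      have hnn : 0 ≤ S * ((Fintype.card ι * Real.sqrt h +
          K * ((1 + C * h) * BLink2_U h G G') / Real.sqrt h) / 2) := by positivity
      rw [integral_eq_lintegral_of_nonneg_ae
        (f := fun ζ => ‖A (s1 G ζ) - B (s2 G' ζ)‖)
        (Filter.Eventually.of_forall fun ζ => norm_nonneg _) c3.aestronglyMeasurable]
      apply ENNReal.toReal_le_of_le_ofReal hnn
      have hstep : ∀ ζ, ENNReal.ofReal ‖A (s1 G ζ) - B (s2 G' ζ)‖ ≤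
          ENNReal.ofReal (S * (Fintype.card ι * Real.sqrt h / 2)) +
            ENNReal.ofReal (S * (K / Real.sqrt h / 2)) *
              ENNReal.ofReal (BLink2_U h (s1 G ζ) (s2 G' ζ)) := by
        intro ζ
        have hu := BLink2_U_nonneg hh.le (s1 G ζ) (s2 G' ζ)
        rw [← ENNReal.ofReal_mul (by positivity), ← ENNReal.ofReal_add (by positivity)
          (by positivity)]
        apply ENNReal.ofReal_le_ofReal
        refine (ih' (s1 G ζ) (s2 G' ζ)).trans (le_of_eq ?_)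
        ring
      refine (lintegral_mono hstep).trans ?_
      rw [lintegral_add_left measurable_const, lintegral_const, measure_univ, mul_one,
        lintegral_const_mul' _ _ ENNReal.ofReal_ne_top]
      refine (add_le_add le_rfl (mul_le_mul_right (hU G G') _)).trans ?_
      rw [← ENNReal.ofReal_mul (by positivity), ← ENNReal.ofReal_add (by positivity)
          (by positivity)]
      apply ENNReal.ofReal_le_ofReal
      apply le_of_eq
      ring
    have hIB : ‖∫ ζ, B (s2 G' ζ) ∂μ‖ ≤ 1 := by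
      refine (norm_integral_le_of_norm_le_const (C := 1)
        (Filter.Eventually.of_forall fun ζ => b2 _)).trans ?_
      simp
    -- the local part
    have hD : ∑ x, ‖G x - G' x‖ ≤ (Fintype.card ι * Real.sqrt h +
        BLink2_U h G G' / Real.sqrt h) / 2 := by
      have h1 : ∀ x, ‖G x - G' x‖ ≤ (Real.sqrt h + ‖G x - G' x‖ ^ 2 / Real.sqrt h) / 2 := by
        intro x
        have h2 : 0 ≤ (‖G x - G' x‖ - Real.sqrt h) ^ 2 / Real.sqrt h := by positivity
        have h3 : (‖G x - G' x‖ - Real.sqrt h) ^ 2 / Real.sqrt h =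
            ‖G x - G' x‖ ^ 2 / Real.sqrt h - 2 * ‖G x - G' x‖ + Real.sqrt h := by
          field_simp
          ring
        linarith
      have h4 := Finset.sum_le_sum fun x (_ : x ∈ Finset.univ) => h1 x
      rw [← Finset.sum_div, Finset.sum_add_distrib, Finset.sum_const, Finset.card_univ,
        nsmul_eq_mul, ← Finset.sum_div] at h4
      refine h4.trans ?_
      have h5 : (∑ x, ‖G x - G' x‖ ^ 2) / Real.sqrt h ≤ BLink2_U h G G' / Real.sqrt h := by
        apply div_le_div_of_nonneg_right _ hsq.le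
        unfold BLink2_U
        have : 0 ≤ h * ∑ x, ‖G' x‖ ^ 2 := by positivity
        linarith
      linarith
    show ‖p.1 G * ∫ ζ, A (s1 G ζ) ∂μ - p.1 G' * ∫ ζ, B (s2 G' ζ) ∂μ‖ ≤
      ((p :: l).map Prod.snd).sum * ((Fintype.card ι * Real.sqrt h +
        (1 + C * h) ^ (p :: l).length * BLink2_U h G G' / Real.sqrt h) / 2)
    rw [List.map_cons, List.sum_cons, List.length_cons, pow_succ, ← hSd, ← hK]
    have e1 : p.1 G * ∫ ζ, A (s1 G ζ) ∂μ - p.1 G' * ∫ ζ, B (s2 G' ζ) ∂μ =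
        p.1 G * (∫ ζ, A (s1 G ζ) ∂μ - ∫ ζ, B (s2 G' ζ) ∂μ) +
          (p.1 G - p.1 G') * ∫ ζ, B (s2 G' ζ) ∂μ := by ring
    rw [e1]
    have hK1 : 1 ≤ K * (1 + C * h) := by
      have h6 : (1 : ℝ) ≤ 1 + C * h := by nlinarith
      have h7 : (1 : ℝ) ≤ K := one_le_pow₀ h6
      nlinarith
    calc ‖p.1 G * (∫ ζ, A (s1 G ζ) ∂μ - ∫ ζ, B (s2 G' ζ) ∂μ) +
          (p.1 G - p.1 G') * ∫ ζ, B (s2 G' ζ) ∂μ‖
        ≤ ‖p.1 G‖ * ‖∫ ζ, A (s1 G ζ) ∂μ - ∫ ζ, B (s2 G' ζ) ∂μ‖ +
          ‖p.1 G - p.1 G'‖ * ‖∫ ζ, B (s2 G' ζ) ∂μ‖ := by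
          refine (norm_add_le _ _).trans ?_
          rw [norm_mul, norm_mul]
      _ ≤ 1 * (S * ((Fintype.card ι * Real.sqrt h +
          K * ((1 + C * h) * BLink2_U h G G') / Real.sqrt h) / 2)) +
          (p.2 * ∑ x, ‖G x - G' x‖) * 1 := by
          refine add_le_add (mul_le_mul (hpb G) hint (norm_nonneg _) zero_le_one)
            (mul_le_mul (hpl G G') hIB (norm_nonneg _) ?_)
          exact mul_nonneg hp0 (Finset.sum_nonneg fun x _ => norm_nonneg _)
      _ ≤ 1 * (S * ((Fintype.card ι * Real.sqrt h +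
          K * ((1 + C * h) * BLink2_U h G G') / Real.sqrt h) / 2)) +
          (p.2 * ((Fintype.card ι * Real.sqrt h +
            K * (1 + C * h) * BLink2_U h G G' / Real.sqrt h) / 2)) * 1 := by
          have h8 : BLink2_U h G G' / Real.sqrt h ≤
              K * (1 + C * h) * BLink2_U h G G' / Real.sqrt h := by
            apply div_le_div_of_nonneg_right _ hsq.le
            nlinarith
          have h9 : ∑ x, ‖G x - G' x‖ ≤ (Fintype.card ι * Real.sqrt h +
            K * (1 + C * h) * BLink2_U h G G' / Real.sqrt h) / 2 := by linarith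
          have := mul_le_mul_of_nonneg_left h9 hp0
          linarith
      _ = _ := by ring

/-- two chains with the same noise -/
private def BLink2_cpl {ι : Type} (s1 s2 : (ι → ℂ) → (ι → ℂ) → ι → ℂ)
    (p : (ι → ℂ) × (ι → ℂ)) (ζ : ι → ℂ) : (ι → ℂ) × (ι → ℂ) := (s1 p.1 ζ, s2 p.2 ζ)

private theorem BLink2_mcpl {ι : Type} (s1 s2 : (ι → ℂ) → (ι → ℂ) → ι → ℂ)
    (hs1 : Measurable (fun p : (ι → ℂ) × (ι → ℂ) => s1 p.1 p.2))
    (hs2 : Measurable (fun p : (ι → ℂ) × (ι → ℂ) => s2 p.1 p.2)) :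
    Measurable (fun q : ((ι → ℂ) × (ι → ℂ)) × (ι → ℂ) => BLink2_cpl s1 s2 q.1 q.2) := by
  have m1 : Measurable (fun q : ((ι → ℂ) × (ι → ℂ)) × (ι → ℂ) => (q.1.1, q.2)) :=
    (measurable_fst.comp measurable_fst).prodMk measurable_snd
  have m2 : Measurable (fun q : ((ι → ℂ) × (ι → ℂ)) × (ι → ℂ) => (q.1.2, q.2)) :=
    (measurable_snd.comp measurable_fst).prodMk measurable_snd
  exact (hs1.comp m1).prodMk (hs2.comp m2)

private theorem BLink2_mU {ι : Type} [Fintype ι] (h : ℝ) :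
    Measurable (fun p : (ι → ℂ) × (ι → ℂ) => ENNReal.ofReal (BLink2_U h p.1 p.2)) := by
  unfold BLink2_U
  have h1 : Continuous (fun p : (ι → ℂ) × (ι → ℂ) => ∑ x, ‖p.1 x - p.2 x‖ ^ 2) :=
    continuous_finsetSum _ fun x _ => by fun_prop
  have h2 : Continuous (fun p : (ι → ℂ) × (ι → ℂ) => ∑ x, ‖p.2 x‖ ^ 2) :=
    continuous_finsetSum _ fun x _ => by fun_prop
  exact ENNReal.measurable_ofReal.comp (h1.add (h2.const_mul h)).measurable

/-- the mean error -/
private theorem BLink2_err {ι : Type} [Fintype ι] (γ : Measure ((ι → ℂ) × (ι → ℂ)))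
    [IsProbabilityMeasure γ] (A B : (ι → ℂ) → ℂ) (hA : Measurable A) (hB : Measurable B)
    (h S K c X : ℝ) (hh : 0 < h) (hS : 0 ≤ S) (hK : 0 ≤ K) (hc : 0 ≤ c) (hX : 0 ≤ X)
    (hXU : ∫⁻ p, ENNReal.ofReal (BLink2_U h p.1 p.2) ∂γ ≤ ENNReal.ofReal X)
    (hAB : ∀ p : (ι → ℂ) × (ι → ℂ), ‖A p.1 - B p.2‖ ≤
      S * ((c * Real.sqrt h + K * BLink2_U h p.1 p.2 / Real.sqrt h) / 2)) :
    ∫ p, ‖A p.1 - B p.2‖ ∂γ ≤ S * ((c * Real.sqrt h + K * X / Real.sqrt h) / 2) := by
  have hsq : 0 < Real.sqrt h := Real.sqrt_pos.mpr hh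
  have hm : Measurable (fun p : (ι → ℂ) × (ι → ℂ) => ‖A p.1 - B p.2‖) :=
    ((hA.comp measurable_fst).sub (hB.comp measurable_snd)).norm
  rw [integral_eq_lintegral_of_nonneg_ae (f := fun p : (ι → ℂ) × (ι → ℂ) => ‖A p.1 - B p.2‖)
    (Filter.Eventually.of_forall fun p => norm_nonneg _) hm.aestronglyMeasurable]
  apply ENNReal.toReal_le_of_le_ofReal (by positivity)
  have hstep : ∀ p : (ι → ℂ) × (ι → ℂ), ENNReal.ofReal ‖A p.1 - B p.2‖ ≤
      ENNReal.ofReal (S * (c * Real.sqrt h / 2)) +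
        ENNReal.ofReal (S * (K / Real.sqrt h / 2)) * ENNReal.ofReal (BLink2_U h p.1 p.2) := by
    intro p
    have hu := BLink2_U_nonneg hh.le p.1 p.2
    rw [← ENNReal.ofReal_mul (by positivity), ← ENNReal.ofReal_add (by positivity)
      (by positivity)]
    apply ENNReal.ofReal_le_ofReal
    refine (hAB p).trans (le_of_eq ?_)
    ring
  refine (lintegral_mono hstep).trans ?_
  rw [lintegral_add_left measurable_const, lintegral_const, measure_univ, mul_one,
    lintegral_const_mul' _ _ ENNReal.ofReal_ne_top]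
  refine (add_le_add le_rfl (mul_le_mul_right hXU _)).trans ?_
  rw [← ENNReal.ofReal_mul (by positivity), ← ENNReal.ofReal_add (by positivity)
      (by positivity)]
  apply ENNReal.ofReal_le_ofReal
  apply le_of_eq
  ring

/-- replacing both components -/
private theorem BLink2_swap {ι : Type} [Fintype ι] (γ1 γ2 : Measure ((ι → ℂ) × (ι → ℂ)))
    [IsProbabilityMeasure γ1] [IsProbabilityMeasure γ2] (A B : (ι → ℂ) → ℂ)
    (hA : Measurable A) (hB : Measurable B) (hA1 : ∀ G, ‖A G‖ ≤ 1) (hB1 : ∀ G, ‖B G‖ ≤ 1) :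
    ∫ p, ∫ p', ‖A p.1 - A p'.1‖ ∂γ2 ∂γ1 ≤
      ∫ p, ∫ p', ‖B p.2 - B p'.2‖ ∂γ2 ∂γ1 + ∫ p, ‖A p.1 - B p.2‖ ∂γ1 +
        ∫ p, ‖A p.1 - B p.2‖ ∂γ2 := by
  have b2 : ∀ z w : ℂ, ‖z‖ ≤ 1 → ‖w‖ ≤ 1 → ‖‖z - w‖‖ ≤ 2 := by
    intro z w hz hw
    rw [norm_norm]
    exact (norm_sub_le _ _).trans (by linarith)
  have mAA : Measurable (fun q : ((ι → ℂ) × (ι → ℂ)) × ((ι → ℂ) × (ι → ℂ)) =>
      ‖A q.1.1 - A q.2.1‖) := by fun_prop
  have mBB : Measurable (fun q : ((ι → ℂ) × (ι → ℂ)) × ((ι → ℂ) × (ι → ℂ)) =>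
      ‖B q.1.2 - B q.2.2‖) := by fun_prop
  have mAB : Measurable (fun p : (ι → ℂ) × (ι → ℂ) => ‖A p.1 - B p.2‖) := by fun_prop
  have iAB1 : Integrable (fun p : (ι → ℂ) × (ι → ℂ) => ‖A p.1 - B p.2‖) γ1 :=
    Integrable.of_bound (C := 2) mAB.aestronglyMeasurable
      (Filter.Eventually.of_forall fun p => b2 _ _ (hA1 _) (hB1 _))
  have iAB2 : Integrable (fun p : (ι → ℂ) × (ι → ℂ) => ‖A p.1 - B p.2‖) γ2 :=
    Integrable.of_bound (C := 2) mAB.aestronglyMeasurable
      (Filter.Eventually.of_forall fun p => b2 _ _ (hA1 _) (hB1 _))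
  have iA : ∀ p : (ι → ℂ) × (ι → ℂ), Integrable
      (fun p' : (ι → ℂ) × (ι → ℂ) => ‖A p.1 - A p'.1‖) γ2 := fun p =>
    Integrable.of_bound (C := 2) (BLink2_cur (f := fun p p' : (ι → ℂ) × (ι → ℂ) =>
      ‖A p.1 - A p'.1‖) mAA p).aestronglyMeasurable
      (Filter.Eventually.of_forall fun p' => b2 _ _ (hA1 _) (hA1 _))
  have iB : ∀ p : (ι → ℂ) × (ι → ℂ), Integrable
      (fun p' : (ι → ℂ) × (ι → ℂ) => ‖B p.2 - B p'.2‖) γ2 := fun p =>
    Integrable.of_bound (C := 2) (BLink2_cur (f := fun p p' : (ι → ℂ) × (ι → ℂ) =>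
      ‖B p.2 - B p'.2‖) mBB p).aestronglyMeasurable
      (Filter.Eventually.of_forall fun p' => b2 _ _ (hB1 _) (hB1 _))
  have iAo : Integrable (fun p : (ι → ℂ) × (ι → ℂ) => ∫ p', ‖A p.1 - A p'.1‖ ∂γ2) γ1 := by
    refine Integrable.of_bound (C := 2)
      (StronglyMeasurable.integral_prod_right' (ν := γ2) mAA.stronglyMeasurable).aestronglyMeasurable
      (Filter.Eventually.of_forall fun p => ?_)
    refine (norm_integral_le_of_norm_le_const (C := 2)
      (Filter.Eventually.of_forall fun p' => b2 _ _ (hA1 _) (hA1 _))).trans ?_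
    simp
  have iBo : Integrable (fun p : (ι → ℂ) × (ι → ℂ) => ∫ p', ‖B p.2 - B p'.2‖ ∂γ2) γ1 := by
    refine Integrable.of_bound (C := 2)
      (StronglyMeasurable.integral_prod_right' (ν := γ2) mBB.stronglyMeasurable).aestronglyMeasurable
      (Filter.Eventually.of_forall fun p => ?_)
    refine (norm_integral_le_of_norm_le_const (C := 2)
      (Filter.Eventually.of_forall fun p' => b2 _ _ (hB1 _) (hB1 _))).trans ?_
    simp
  have hin : ∀ p : (ι → ℂ) × (ι → ℂ), ∫ p', ‖A p.1 - A p'.1‖ ∂γ2 ≤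
      ∫ p', ‖B p.2 - B p'.2‖ ∂γ2 + ‖A p.1 - B p.2‖ + ∫ p, ‖A p.1 - B p.2‖ ∂γ2 := by
    intro p
    have i3 : Integrable (fun p' : (ι → ℂ) × (ι → ℂ) =>
        ‖B p.2 - B p'.2‖ + ‖A p.1 - B p.2‖) γ2 := (iB p).add (integrable_const _)
    have h1 : ∫ p', ‖A p.1 - A p'.1‖ ∂γ2 ≤
        ∫ p' : (ι → ℂ) × (ι → ℂ), (‖B p.2 - B p'.2‖ + ‖A p.1 - B p.2‖ +
          ‖A p'.1 - B p'.2‖) ∂γ2 := by
      refine integral_mono (iA p) (i3.add iAB2) fun p' => ?_
      show ‖A p.1 - A p'.1‖ ≤ ‖B p.2 - B p'.2‖ + ‖A p.1 - B p.2‖ + ‖A p'.1 - B p'.2‖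
      have e : A p.1 - A p'.1 = (B p.2 - B p'.2) + (A p.1 - B p.2) - (A p'.1 - B p'.2) := by
        ring
      rw [e]
      exact (norm_sub_le _ _).trans (add_le_add (norm_add_le _ _) le_rfl)
    rw [integral_add i3 iAB2, integral_add (iB p) (integrable_const _)] at h1
    simpa using h1
  have i4 : Integrable (fun p : (ι → ℂ) × (ι → ℂ) =>
      ∫ p', ‖B p.2 - B p'.2‖ ∂γ2 + ‖A p.1 - B p.2‖) γ1 := iBo.add iAB1
  have h2 := integral_mono iAo (i4.add (integrable_const (∫ p, ‖A p.1 - B p.2‖ ∂γ2))) hin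
  have h3 : ∫ p : (ι → ℂ) × (ι → ℂ), (∫ p', ‖B p.2 - B p'.2‖ ∂γ2 + ‖A p.1 - B p.2‖ +
      ∫ p, ‖A p.1 - B p.2‖ ∂γ2) ∂γ1 = ∫ p, ∫ p', ‖B p.2 - B p'.2‖ ∂γ2 ∂γ1 +
        ∫ p, ‖A p.1 - B p.2‖ ∂γ1 + ∫ p, ‖A p.1 - B p.2‖ ∂γ2 := by
    rw [integral_add i4 (integrable_const _), integral_add iBo iAB1]
    simp
  exact h2.trans (le_of_eq h3)

/-- second moment along the coupled law -/
private theorem BLink2_cplU {ι : Type} [Fintype ι] (s1 s2 : (ι → ℂ) → (ι → ℂ) → ι → ℂ)
    (μ : Measure (ι → ℂ)) [IsProbabilityMeasure μ]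
    (hs1 : Measurable (fun p : (ι → ℂ) × (ι → ℂ) => s1 p.1 p.2))
    (hs2 : Measurable (fun p : (ι → ℂ) × (ι → ℂ) => s2 p.1 p.2)) (C h : ℝ) (hC : 0 ≤ C)
    (hh : 0 < h)
    (hU : ∀ G G' : ι → ℂ, ∫⁻ ζ, ENNReal.ofReal (BLink2_U h (s1 G ζ) (s2 G' ζ)) ∂μ ≤
      ENNReal.ofReal ((1 + C * h) * BLink2_U h G G'))
    (m : Measure (ι → ℂ)) [IsProbabilityMeasure m] (n : ℕ) (Q : ℝ)
    (hm : ∫⁻ G, ENNReal.ofReal (∑ x, ‖G x‖ ^ 2) ∂m ≤ ENNReal.ofReal Q) :
    ∫⁻ p, ENNReal.ofReal (BLink2_U h p.1 p.2)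
        ∂(BLink2_lawG (BLink2_cpl s1 s2) μ (m.map fun G => (G, G)) n) ≤
      ENNReal.ofReal ((1 + C * h) ^ n * (h * Q)) := by
  have hdg : Measurable (fun G : ι → ℂ => (G, G)) := measurable_id.prodMk measurable_id
  have hmp : IsProbabilityMeasure (m.map fun G : ι → ℂ => (G, G)) :=
    Measure.isProbabilityMeasure_map hdg.aemeasurable
  have h1 := BLink2_growth (BLink2_cpl s1 s2) μ (m.map fun G => (G, G))
    (BLink2_mcpl s1 s2 hs1 hs2) (fun p => ENNReal.ofReal (BLink2_U h p.1 p.2)) (BLink2_mU h)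
    (ENNReal.ofReal (1 + C * h)) ENNReal.ofReal_ne_top (fun p => by
      refine (hU p.1 p.2).trans (le_of_eq ?_)
      exact ENNReal.ofReal_mul (by positivity)) n
  refine h1.trans ?_
  rw [lintegral_map (BLink2_mU h) hdg]
  have h2 : ∀ G : ι → ℂ, ENNReal.ofReal (BLink2_U h G G) =
      ENNReal.ofReal h * ENNReal.ofReal (∑ x, ‖G x‖ ^ 2) := by
    intro G
    rw [← ENNReal.ofReal_mul hh.le]
    congr 1
    unfold BLink2_U
    simp
  simp only [h2]
  rw [lintegral_const_mul' _ _ ENNReal.ofReal_ne_top, ENNReal.ofReal_mul (by positivity),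
    ENNReal.ofReal_mul hh.le, ENNReal.ofReal_pow (by positivity)]
  exact mul_le_mul_right (mul_le_mul_right hm _) _

/-- comparison of the decoupling of a factor of `s1` with the one of `s2` -/
private theorem BLink2_main {ι B Ω' : Type} [Fintype ι] [MeasurableSpace B] [MeasurableSpace Ω']
    (s1 s2 : (ι → ℂ) → (ι → ℂ) → ι → ℂ) (μ : Measure (ι → ℂ)) [IsProbabilityMeasure μ]
    (hs1 : Measurable (fun p : (ι → ℂ) × (ι → ℂ) => s1 p.1 p.2))
    (hs2 : Measurable (fun p : (ι → ℂ) × (ι → ℂ) => s2 p.1 p.2)) (C h : ℝ) (hC : 0 ≤ C)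
    (hh : 0 < h)
    (hU : ∀ G G' : ι → ℂ, ∫⁻ ζ, ENNReal.ofReal (BLink2_U h (s1 G ζ) (s2 G' ζ)) ∂μ ≤
      ENNReal.ofReal ((1 + C * h) * BLink2_U h G G'))
    (t : B → Ω' → B) (μ' : Measure Ω') [IsProbabilityMeasure μ'] (e : (ι → ℂ) → B)
    (he : Measurable e) (ht : Measurable fun q : B × Ω' => t q.1 q.2)
    (hk : ∀ G, μ.map (fun ζ => e (s1 G ζ)) = μ'.map (fun ω => t (e G) ω))
    (l : List ((B → ℂ) × ℝ))
    (hl : ∀ p ∈ l, Measurable p.1 ∧ (∀ b, ‖p.1 b‖ ≤ 1) ∧ 0 ≤ p.2 ∧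
      ∀ G G' : ι → ℂ, ‖p.1 (e G) - p.1 (e G')‖ ≤ p.2 * ∑ x, ‖G x - G' x‖)
    (m1 m2 : Measure (ι → ℂ)) [IsProbabilityMeasure m1] [IsProbabilityMeasure m2] (n1 n2 : ℕ)
    (Q1 Q2 : ℝ) (hQ1 : 0 ≤ Q1) (hQ2 : 0 ≤ Q2)
    (hm1 : ∫⁻ G, ENNReal.ofReal (∑ x, ‖G x‖ ^ 2) ∂m1 ≤ ENNReal.ofReal Q1)
    (hm2 : ∫⁻ G, ENNReal.ofReal (∑ x, ‖G x‖ ^ 2) ∂m2 ≤ ENNReal.ofReal Q2) :
    ∫ b, ∫ b', ‖BLink2_pE t μ' (l.map Prod.fst) b - BLink2_pE t μ' (l.map Prod.fst) b'‖
        ∂(BLink2_lawG t μ' (m2.map e) n2) ∂(BLink2_lawG t μ' (m1.map e) n1) ≤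
      ∫ G, ∫ G', ‖BLink2_pE s2 μ ((l.map Prod.fst).map fun f G => f (e G)) G -
          BLink2_pE s2 μ ((l.map Prod.fst).map fun f G => f (e G)) G'‖
        ∂(BLink2_lawG s2 μ m2 n2) ∂(BLink2_lawG s2 μ m1 n1) +
      (l.map Prod.snd).sum *
        ((Fintype.card ι + (1 + C * h) ^ (l.length + n1) * Q1) * Real.sqrt h / 2) +
      (l.map Prod.snd).sum *
        ((Fintype.card ι + (1 + C * h) ^ (l.length + n2) * Q2) * Real.sqrt h / 2) := by
  have hsq : 0 < Real.sqrt h := Real.sqrt_pos.mpr hh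
  have hsq2 : Real.sqrt h * Real.sqrt h = h := Real.mul_self_sqrt hh.le
  have hdg : Measurable (fun G : ι → ℂ => (G, G)) := measurable_id.prodMk measurable_id
  have hp1 : IsProbabilityMeasure (m1.map fun G : ι → ℂ => (G, G)) :=
    Measure.isProbabilityMeasure_map hdg.aemeasurable
  have hp2 : IsProbabilityMeasure (m2.map fun G : ι → ℂ => (G, G)) :=
    Measure.isProbabilityMeasure_map hdg.aemeasurable
  set fs : List (B → ℂ) := l.map Prod.fst with hfs
  set S : ℝ := (l.map Prod.snd).sum with hSd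
  have hmf : ∀ f ∈ fs, Measurable f := by
    intro f hf
    obtain ⟨q, hq, rfl⟩ := List.mem_map.mp hf
    exact (hl q hq).1
  have hbf : ∀ f ∈ fs, ∀ G, ‖f G‖ ≤ 1 := by
    intro f hf
    obtain ⟨q, hq, rfl⟩ := List.mem_map.mp hf
    exact (hl q hq).2.1
  have hS : 0 ≤ S := by
    apply List.sum_nonneg
    intro a ha
    obtain ⟨q, hq, rfl⟩ := List.mem_map.mp ha
    exact (hl q hq).2.2.1
  set fs' : List ((ι → ℂ) → ℂ) := fs.map fun f G => f (e G) with hfs'
  have hmf' : ∀ f ∈ fs', Measurable f := by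
    intro f hf
    obtain ⟨q, hq, rfl⟩ := List.mem_map.mp hf
    exact (hmf q hq).comp he
  have hbf' : ∀ f ∈ fs', ∀ G, ‖f G‖ ≤ 1 := by
    intro f hf G
    obtain ⟨q, hq, rfl⟩ := List.mem_map.mp hf
    exact hbf q hq _
  obtain ⟨fB, bB⟩ := BLink2_pE_facts t μ' ht fs hmf hbf
  obtain ⟨f1, b1⟩ := BLink2_pE_facts s1 μ hs1 fs' hmf' hbf'
  obtain ⟨f2, b2⟩ := BLink2_pE_facts s2 μ hs2 fs' hmf' hbf'
  have hpath : ∀ G, BLink2_pE t μ' fs (e G) = BLink2_pE s1 μ fs' G :=
    fun G => BLink2_pE_factor s1 μ t μ' e he hs1 ht hk fs hmf hbf G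
  have hmc := BLink2_mcpl s1 s2 hs1 hs2
  set γ1 := BLink2_lawG (BLink2_cpl s1 s2) μ (m1.map fun G => (G, G)) n1 with hγ1
  set γ2 := BLink2_lawG (BLink2_cpl s1 s2) μ (m2.map fun G => (G, G)) n2 with hγ2
  have pγ1 : IsProbabilityMeasure γ1 := BLink2_lawG_prob _ _ _ hmc n1
  have pγ2 : IsProbabilityMeasure γ2 := BLink2_lawG_prob _ _ _ hmc n2
  have hef : Measurable (fun p : (ι → ℂ) × (ι → ℂ) => e p.1) := he.comp measurable_fst
  have F1 : γ1.map (fun p => e p.1) = BLink2_lawG t μ' (m1.map e) n1 := by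
    rw [hγ1, BLink2_factor (BLink2_cpl s1 s2) μ t μ' _ (fun p => e p.1) hef hmc ht
      (fun p => hk p.1) n1, Measure.map_map hef hdg]
    rfl
  have F2 : γ2.map (fun p => e p.1) = BLink2_lawG t μ' (m2.map e) n2 := by
    rw [hγ2, BLink2_factor (BLink2_cpl s1 s2) μ t μ' _ (fun p => e p.1) hef hmc ht
      (fun p => hk p.1) n2, Measure.map_map hef hdg]
    rfl
  have S1 : γ1.map Prod.snd = BLink2_lawG s2 μ m1 n1 := by
    rw [hγ1, BLink2_factor (BLink2_cpl s1 s2) μ s2 μ _ Prod.snd measurable_snd hmc hs2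
      (fun p => rfl) n1, Measure.map_map measurable_snd hdg]
    congr 1
    exact Measure.map_id
  have S2 : γ2.map Prod.snd = BLink2_lawG s2 μ m2 n2 := by
    rw [hγ2, BLink2_factor (BLink2_cpl s1 s2) μ s2 μ _ Prod.snd measurable_snd hmc hs2
      (fun p => rfl) n2, Measure.map_map measurable_snd hdg]
    congr 1
    exact Measure.map_id
  -- the left side
  have mBB : Measurable (fun q : B × B => ‖BLink2_pE t μ' fs q.1 - BLink2_pE t μ' fs q.2‖) :=
    ((fB.comp measurable_fst).sub (fB.comp measurable_snd)).norm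
  have m22 : Measurable (fun q : (ι → ℂ) × (ι → ℂ) =>
      ‖BLink2_pE s2 μ fs' q.1 - BLink2_pE s2 μ fs' q.2‖) :=
    ((f2.comp measurable_fst).sub (f2.comp measurable_snd)).norm
  have hL : ∫ b, ∫ b', ‖BLink2_pE t μ' fs b - BLink2_pE t μ' fs b'‖
        ∂(BLink2_lawG t μ' (m2.map e) n2) ∂(BLink2_lawG t μ' (m1.map e) n1) =
      ∫ p, ∫ p', ‖BLink2_pE s1 μ fs' p.1 - BLink2_pE s1 μ fs' p'.1‖ ∂γ2 ∂γ1 := by
    rw [← F1, ← F2]
    have hin : ∀ b, ∫ b', ‖BLink2_pE t μ' fs b - BLink2_pE t μ' fs b'‖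
        ∂(γ2.map (fun p => e p.1)) =
        ∫ p', ‖BLink2_pE t μ' fs b - BLink2_pE s1 μ fs' p'.1‖ ∂γ2 := by
      intro b
      rw [integral_map hef.aemeasurable
        (BLink2_cur (f := fun b b' => ‖BLink2_pE t μ' fs b - BLink2_pE t μ' fs b'‖)
          mBB b).aestronglyMeasurable]
      refine integral_congr_ae (Filter.Eventually.of_forall fun p => ?_)
      show ‖BLink2_pE t μ' fs b - BLink2_pE t μ' fs (e p.1)‖ = _
      rw [hpath]
    simp only [hin]
    have mout : Measurable (fun b => ∫ p', ‖BLink2_pE t μ' fs b -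
        BLink2_pE s1 μ fs' p'.1‖ ∂γ2) := by
      have m3 : Measurable (fun q : B × ((ι → ℂ) × (ι → ℂ)) =>
          ‖BLink2_pE t μ' fs q.1 - BLink2_pE s1 μ fs' q.2.1‖) :=
        ((fB.comp measurable_fst).sub
          (f1.comp (measurable_fst.comp measurable_snd))).norm
      exact (StronglyMeasurable.integral_prod_right' (ν := γ2) m3.stronglyMeasurable).measurable
    rw [integral_map hef.aemeasurable mout.aestronglyMeasurable]
    refine integral_congr_ae (Filter.Eventually.of_forall fun p => ?_)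
    show ∫ p', ‖BLink2_pE t μ' fs (e p.1) - BLink2_pE s1 μ fs' p'.1‖ ∂γ2 = _
    rw [hpath]
  have hR : ∫ G, ∫ G', ‖BLink2_pE s2 μ fs' G - BLink2_pE s2 μ fs' G'‖
        ∂(BLink2_lawG s2 μ m2 n2) ∂(BLink2_lawG s2 μ m1 n1) =
      ∫ p, ∫ p', ‖BLink2_pE s2 μ fs' p.2 - BLink2_pE s2 μ fs' p'.2‖ ∂γ2 ∂γ1 := by
    rw [← S1, ← S2]
    have hin : ∀ G, ∫ G', ‖BLink2_pE s2 μ fs' G - BLink2_pE s2 μ fs' G'‖ ∂(γ2.map Prod.snd) =
        ∫ p', ‖BLink2_pE s2 μ fs' G - BLink2_pE s2 μ fs' p'.2‖ ∂γ2 := by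
      intro G
      exact integral_map measurable_snd.aemeasurable
        (BLink2_cur (f := fun b b' => ‖BLink2_pE s2 μ fs' b - BLink2_pE s2 μ fs' b'‖)
          m22 G).aestronglyMeasurable
    simp only [hin]
    have mout : Measurable (fun G => ∫ p', ‖BLink2_pE s2 μ fs' G -
        BLink2_pE s2 μ fs' p'.2‖ ∂γ2) := by
      have m3 : Measurable (fun q : (ι → ℂ) × ((ι → ℂ) × (ι → ℂ)) =>
          ‖BLink2_pE s2 μ fs' q.1 - BLink2_pE s2 μ fs' q.2.2‖) :=
        ((f2.comp measurable_fst).sub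
          (f2.comp (measurable_snd.comp measurable_snd))).norm
      exact (StronglyMeasurable.integral_prod_right' (ν := γ2) m3.stronglyMeasurable).measurable
    exact integral_map measurable_snd.aemeasurable mout.aestronglyMeasurable
  -- the difference
  set l' : List (((ι → ℂ) → ℂ) × ℝ) := l.map (fun p => ((fun G => p.1 (e G)), p.2)) with hl'
  have e1 : l'.map Prod.fst = fs' := by
    rw [hl', hfs', hfs, List.map_map, List.map_map]
    rfl
  have e2 : l'.map Prod.snd = l.map Prod.snd := by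
    rw [hl', List.map_map]
    rfl
  have e3 : l'.length = l.length := by
    rw [hl', List.length_map]
  have hd : ∀ p : (ι → ℂ) × (ι → ℂ), ‖BLink2_pE s1 μ fs' p.1 - BLink2_pE s2 μ fs' p.2‖ ≤
      S * ((Fintype.card ι * Real.sqrt h +
        (1 + C * h) ^ l.length * BLink2_U h p.1 p.2 / Real.sqrt h) / 2) := by
    intro p
    have h1 := BLink2_diff s1 s2 μ hs1 hs2 C h hC hh hU l' (by
      intro q hq
      obtain ⟨r, hr, rfl⟩ := List.mem_map.mp hq
      obtain ⟨r1, r2, r3, r4⟩ := hl r hr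
      exact ⟨r1.comp he, fun G => r2 _, r3, r4⟩) p.1 p.2
    rw [e1, e2, e3] at h1
    exact h1
  have hX1 := BLink2_cplU s1 s2 μ hs1 hs2 C h hC hh hU m1 n1 Q1 hm1
  have hX2 := BLink2_cplU s1 s2 μ hs1 hs2 C h hC hh hU m2 n2 Q2 hm2
  have E1 := BLink2_err γ1 _ _ f1 f2 h S ((1 + C * h) ^ l.length) (Fintype.card ι)
    ((1 + C * h) ^ n1 * (h * Q1)) hh hS (by positivity) (by positivity) (by positivity) hX1 hd
  have E2 := BLink2_err γ2 _ _ f1 f2 h S ((1 + C * h) ^ l.length) (Fintype.card ι)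
    ((1 + C * h) ^ n2 * (h * Q2)) hh hS (by positivity) (by positivity) (by positivity) hX2 hd
  have hsw := BLink2_swap γ1 γ2 _ _ f1 f2 b1 b2
  have hq : ∀ Q : ℝ, ∀ n : ℕ, (Fintype.card ι * Real.sqrt h + (1 + C * h) ^ l.length *
      ((1 + C * h) ^ n * (h * Q)) / Real.sqrt h) / 2 =
      (Fintype.card ι + (1 + C * h) ^ (l.length + n) * Q) * Real.sqrt h / 2 := by
    intro Q n
    have : h / Real.sqrt h = Real.sqrt h := by
      rw [div_eq_iff hsq.ne']
      exact hsq2.symm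
    rw [pow_add]
    calc (Fintype.card ι * Real.sqrt h + (1 + C * h) ^ l.length *
      ((1 + C * h) ^ n * (h * Q)) / Real.sqrt h) / 2 = (Fintype.card ι * Real.sqrt h +
        (1 + C * h) ^ l.length * (1 + C * h) ^ n * Q * (h / Real.sqrt h)) / 2 := by ring
      _ = _ := by rw [this]; ring
  rw [hq] at E1 E2
  rw [hL, hR]
  linarith

/-! ### the link -/

private theorem BLink2_pathE_eq {d : ℕ} (β k h : ℝ) (L : ℕ)
    (fs : List ((boxS d L → E 2) → ℂ)) (G : boxS d L → E 2) :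
    pathE (boxNet d L) β h k (stdGaussian (E 2)) fs G =
      BLink2_pE (fun G ξ => stp (boxNet d L) β h k G ξ)
        (pim (boxS d L) (stdGaussian (E 2))) fs G := by
  induction fs generalizing G with
  | nil => rfl
  | cons f fs ih =>
    show f G * ∫ ξ, pathE (boxNet d L) β h k (stdGaussian (E 2)) fs
      (stp (boxNet d L) β h k G ξ) ∂(pim (boxS d L) (stdGaussian (E 2))) = f G * _
    congr 1
    refine integral_congr_ae (Filter.Eventually.of_forall fun ζ => ?_)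
    exact ih _

private theorem BLink2_chainLaw_eq {d : ℕ} (β k h : ℝ) (L : ℕ) (m0 : Measure (boxS d L → E 2))
    (n : ℕ) : chainLaw (boxNet d L) β h k (stdGaussian (E 2)) m0 n =
      BLink2_lawG (fun G ξ => stp (boxNet d L) β h k G ξ)
        (pim (boxS d L) (stdGaussian (E 2))) m0 n := by
  induction n with
  | zero => rfl
  | succ n ih =>
    show ((chainLaw (boxNet d L) β h k (stdGaussian (E 2)) m0 n).prod
      (pim (boxS d L) (stdGaussian (E 2)))).map (fun q => stp (boxNet d L) β h k q.1 q.2) = _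
    rw [ih]
    rfl

private theorem BLink2_Fam {d : ℕ} (β k h : ℝ) (L : ℕ) (fs : List ((boxS d L → ℂ) → ℂ))
    (G : boxS d L → ℂ) :
    (Fam2 d β k).pathE h L fs G =
      BLink2_pE (st2 d β k h L) (Measure.pi fun _ : boxS d L => gC) fs G := by
  induction fs generalizing G with
  | nil => rfl
  | cons f fs ih =>
    show f G * ∫ ξ, (Fam2 d β k).pathE h L fs (st2 d β k h L G ξ)
      ∂(Measure.pi fun _ : boxS d L => gC) = f G * _
    congr 1
    refine integral_congr_ae (Filter.Eventually.of_forall fun ζ => ?_)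
    exact ih _

private theorem BLink2_law_eq {d : ℕ} (β k h : ℝ) (L : ℕ) (m0 : Measure (boxS d L → ℂ))
    (n : ℕ) : (Fam2 d β k).law h L m0 n =
      BLink2_lawG (st2 d β k h L) (Measure.pi fun _ : boxS d L => gC) m0 n := by
  induction n with
  | zero => rfl
  | succ n ih =>
    show (((Fam2 d β k).law h L m0 n).prod (Measure.pi fun _ : boxS d L => gC)).map
      (fun q => st2 d β k h L q.1 q.2) = _
    rw [ih]
    rfl

private theorem BLink2_mom {ι : Type} [Fintype ι] (ρ : Measure ℂ) [IsProbabilityMeasure ρ]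
    (hρ : Integrable (fun x : ℂ => ‖x‖ ^ 2) ρ) :
    ∫⁻ G : ι → ℂ, ENNReal.ofReal (∑ x, ‖G x‖ ^ 2) ∂(Measure.pi fun _ : ι => ρ) ≤
      ENNReal.ofReal (Fintype.card ι * ∫ x, ‖x‖ ^ 2 ∂ρ) := by
  have h1 : ∀ x : ι, Integrable (fun G : ι → ℂ => ‖G x‖ ^ 2) (Measure.pi fun _ : ι => ρ) :=
    fun x => integrable_comp_eval (μ := fun _ : ι => ρ) (f := fun z : ℂ => ‖z‖ ^ 2) hρ
  have hF : Integrable (fun G : ι → ℂ => ∑ x, ‖G x‖ ^ 2) (Measure.pi fun _ : ι => ρ) :=
    integrable_finsetSum _ fun x _ => h1 x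
  rw [← ofReal_integral_eq_lintegral_ofReal hF
    (Filter.Eventually.of_forall fun G => Finset.sum_nonneg fun x _ => by positivity)]
  apply ENNReal.ofReal_le_ofReal
  rw [integral_finsetSum _ fun x _ => h1 x]
  have h2 : ∀ x : ι, ∫ G : ι → ℂ, ‖G x‖ ^ 2 ∂(Measure.pi fun _ : ι => ρ) = ∫ z, ‖z‖ ^ 2 ∂ρ :=
    fun x => integral_comp_eval (μ := fun _ : ι => ρ) (f := fun z : ℂ => ‖z‖ ^ 2)
      hρ.aestronglyMeasurable
  simp only [h2]
  simp

private theorem BLink2_lsum (CF : ℝ) (hCF : 0 ≤ CF) (I : Finset ℕ) (J M : ℕ) (hI : I.card ≤ J) :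
    ((List.range M).map fun i => if i ∈ I then CF else 0).sum ≤ J * CF := by
  have h1 : ((List.range M).map fun i => if i ∈ I then CF else 0).sum =
      ∑ i ∈ Finset.range M, if i ∈ I then CF else 0 := rfl
  rw [h1, ← Finset.sum_filter, Finset.sum_const, nsmul_eq_mul]
  refine mul_le_mul_of_nonneg_right ?_ hCF
  have h2 : ((Finset.range M).filter fun i => i ∈ I).card ≤ I.card := by
    apply Finset.card_le_card
    intro i hi
    exact (Finset.mem_filter.mp hi).2
  exact_mod_cast h2.trans hI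

private theorem BLink2_pow {C h Sm : ℝ} (hC : 0 ≤ C) (hh : 0 < h) (n m : ℕ)
    (hn : n * h ≤ Sm) (hm : m * h ≤ Sm) : (1 + C * h) ^ (n + m) ≤ Real.exp (2 * C * Sm) := by
  have h1 : 1 + C * h ≤ Real.exp (C * h) := by
    have := Real.add_one_le_exp (C * h)
    linarith
  refine (pow_le_pow_left₀ (by positivity) h1 _).trans ?_
  rw [← Real.exp_nat_mul]
  apply Real.exp_le_exp.mpr
  push_cast
  have h2 : C * (n * h) ≤ C * Sm := mul_le_mul_of_nonneg_left hn hC
  have h3 : C * (m * h) ≤ C * Sm := mul_le_mul_of_nonneg_left hm hC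
  nlinarith

private theorem BLink2_mape (ρ : Measure (E 2)) (L d : ℕ) [IsProbabilityMeasure ρ] :
    (Measure.pi fun _ : boxS d L => ρ.map BLink2_e.symm).map (fun G x => BLink2_e (G x)) =
      Measure.pi fun _ : boxS d L => ρ := by
  have m1 : Measurable (BLink2_e.symm : E 2 → ℂ) := BLink2_e.symm.continuous.measurable
  have m2 : Measurable (BLink2_e : ℂ → E 2) := BLink2_e.continuous.measurable
  have hp : IsProbabilityMeasure (ρ.map BLink2_e.symm) :=
    Measure.isProbabilityMeasure_map m1.aemeasurable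
  have h3 : (ρ.map BLink2_e.symm).map BLink2_e = ρ := by
    rw [Measure.map_map m2 m1]
    have : (BLink2_e : ℂ → E 2) ∘ (BLink2_e.symm : E 2 → ℂ) = id := by
      funext x
      exact BLink2_e.apply_symm_apply x
    rw [this]
    exact Measure.map_id
  have h1 := Measure.pi_map_pi (μ := fun _ : boxS d L => ρ.map BLink2_e.symm)
    (f := fun (_ : boxS d L) (z : ℂ) => BLink2_e z)
    (hμ := fun x => by
      rw [h3]
      infer_instance)
    (fun x => m2.aemeasurable)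
  refine h1.trans ?_
  congr 1
  funext x
  exact h3

theorem link2 (d : ℕ) (β k : ℝ) (hβ : 0 < β) (hk : 0 < k) (h : (Fam2 d β k).Mix) :
    DynB.ChainMix 2 d β k := by
  intro ρ1 ρ2 i1 i2 z1 z2 q1 q2 R J CF δ hCF hδ
  have m1 : Measurable (BLink2_e.symm : E 2 → ℂ) := BLink2_e.symm.continuous.measurable
  have hp1 : IsProbabilityMeasure (ρ1.map BLink2_e.symm) :=
    Measure.isProbabilityMeasure_map m1.aemeasurable
  have hp2 : IsProbabilityMeasure (ρ2.map BLink2_e.symm) :=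
    Measure.isProbabilityMeasure_map m1.aemeasurable
  have hz : ∀ ρ : Measure (E 2), ρ {0} = 0 → (ρ.map BLink2_e.symm) {(0 : ℂ)} = 0 := by
    intro ρ hρ
    rw [Measure.map_apply m1 (measurableSet_singleton 0)]
    have : (BLink2_e.symm : E 2 → ℂ) ⁻¹' {(0 : ℂ)} = {0} := by
      ext x
      simp
    rw [this, hρ]
  have hq : ∀ ρ : Measure (E 2), Integrable (fun x : E 2 => ‖x‖ ^ 2) ρ →
      Integrable (fun x : ℂ => ‖x‖ ^ 2) (ρ.map BLink2_e.symm) := by
    intro ρ hρ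
    rw [integrable_map_measure (by fun_prop) m1.aemeasurable]
    refine hρ.congr (Filter.Eventually.of_forall fun x => ?_)
    show ‖x‖ ^ 2 = ‖BLink2_e.symm x‖ ^ 2
    rw [LinearIsometryEquiv.norm_map]
  obtain ⟨T0, L0, hT0, hRL, H⟩ := @h (ρ1.map BLink2_e.symm) (ρ2.map BLink2_e.symm) hp1 hp2
    (hz ρ1 z1) (hz ρ2 z2) (hq ρ1 q1) (hq ρ2 q2) R J CF (δ / 2) hCF (half_pos hδ)
  refine ⟨T0, L0, hT0, hRL, fun hk0 => absurd hk0 hk.ne', fun L _ hL Sm hSm => ?_⟩
  obtain ⟨h0', hh0', H'⟩ := H L hL Sm hSm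
  obtain ⟨C, hC, hstep⟩ := BLink2_step (d := d) hβ k L
  set c : ℝ := (Fintype.card (boxS d L) : ℝ) with hc
  have hc0 : 0 ≤ c := Nat.cast_nonneg _
  set Q1 : ℝ := c * ∫ x, ‖x‖ ^ 2 ∂(ρ1.map BLink2_e.symm) with hQ1
  set Q2 : ℝ := c * ∫ x, ‖x‖ ^ 2 ∂(ρ2.map BLink2_e.symm) with hQ2
  have hQ10 : 0 ≤ Q1 := mul_nonneg hc0 (integral_nonneg fun x => by positivity)
  have hQ20 : 0 ≤ Q2 := mul_nonneg hc0 (integral_nonneg fun x => by positivity)
  set K : ℝ := Real.exp (2 * C * Sm) with hK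
  have hK0 : 0 ≤ K := (Real.exp_pos _).le
  set W : ℝ := J * CF * (c + K * (Q1 + Q2)) with hW
  have hW0 : 0 ≤ W := by positivity
  refine ⟨min h0' (min (1 / 2) ((δ / (2 * (W + 1))) ^ 2)), by positivity,
    fun s hs hs0 n1 n2 M hn1 hn2 hM F I hI hFm hFb hFI hFL => ?_⟩
  have hs1 : s < h0' := lt_of_lt_of_le hs0 (min_le_left _ _)
  have hs2 : s ≤ 1 / 2 := (hs0.trans_le ((min_le_right _ _).trans (min_le_left _ _))).le
  have hs3 : s < (δ / (2 * (W + 1))) ^ 2 :=
    lt_of_lt_of_le hs0 ((min_le_right _ _).trans (min_le_right _ _))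
  have mE : Measurable (fun (G : boxS d L → ℂ) (x : boxS d L) => BLink2_e (G x)) := by
    refine measurable_pi_lambda _ fun x => ?_
    exact BLink2_e.continuous.measurable.comp (measurable_pi_apply x)
  have hne : ∀ z w : ℂ, ‖BLink2_e z - BLink2_e w‖ = ‖z - w‖ := by
    intro z w
    rw [← map_sub, LinearIsometryEquiv.norm_map]
  have hlipC : ∀ i ∈ I, ∀ G G' : boxS d L → ℂ,
      ‖F i (fun x => BLink2_e (G x)) - F i (fun x => BLink2_e (G' x))‖ ≤
        CF * ∑ x : boxS d L,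
          (if l1 (x : Fin d → ℤ) 0 ≤ R then min 1 ‖G x - G' x‖ else 0) := by
    intro i hi G G'
    refine ((hFL i hi).2 _ _).trans (le_of_eq ?_)
    simp only [hne]
  have Hm := H' s hs hs1 n1 n2 M hn1 hn2 hM (fun i G => F i (fun x => BLink2_e (G x))) I hI
    (fun i => (hFm i).comp mE) (fun i G => hFb i _)
    (fun i hi => by
      rw [hFI i hi])
    (fun i hi => ⟨(hFL i hi).1, fun G G' => hlipC i hi G G'⟩)
  set l : List (((boxS d L → E 2) → ℂ) × ℝ) :=
    (List.range M).map (fun i => (F i, if i ∈ I then CF else 0)) with hl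
  have l1 : l.map Prod.fst = (List.range M).map F := by
    rw [hl, List.map_map]
    rfl
  have l2 : l.map Prod.snd = (List.range M).map fun i => if i ∈ I then CF else 0 := by
    rw [hl, List.map_map]
    rfl
  have l3 : l.length = M := by
    rw [hl, List.length_map, List.length_range]
  have hlp : ∀ p ∈ l, Measurable p.1 ∧ (∀ b, ‖p.1 b‖ ≤ 1) ∧ 0 ≤ p.2 ∧
      ∀ G G' : boxS d L → ℂ, ‖p.1 (fun x => BLink2_e (G x)) - p.1 (fun x => BLink2_e (G' x))‖ ≤
        p.2 * ∑ x, ‖G x - G' x‖ := by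
    intro p hp
    obtain ⟨i, -, rfl⟩ := List.mem_map.mp hp
    refine ⟨hFm i, hFb i, ?_, fun G G' => ?_⟩
    · show 0 ≤ if i ∈ I then CF else 0
      split_ifs
      · exact hCF
      · exact le_rfl
    · show ‖F i _ - F i _‖ ≤ (if i ∈ I then CF else 0) * _
      by_cases hi : i ∈ I
      · rw [if_pos hi]
        refine ((hFL i hi).2 _ _).trans (mul_le_mul_of_nonneg_left ?_ hCF)
        refine Finset.sum_le_sum fun x _ => ?_
        simp only [hne]
        split_ifs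
        · exact min_le_right _ _
        · exact norm_nonneg _
      · rw [if_neg hi, hFI i hi]
        simp
  have hpm : IsProbabilityMeasure (pim (boxS d L) (stdGaussian (E 2))) := by
    unfold pim
    infer_instance
  have hmain := BLink2_main (BLink2_s1 d β k s L) (st2 d β k s L)
    (Measure.pi fun _ : boxS d L => gC) (BLink2_ms1 hβ hs.le k L) (measurable_st2 d β k s L) C s hC
    hs (hstep s hs hs2) (fun G ξ => stp (boxNet d L) β s k G ξ)
    (pim (boxS d L) (stdGaussian (E 2))) (fun G x => BLink2_e (G x)) mE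
    (stp_continuous hβ hs.le k (boxNet d L)).measurable (BLink2_ker hβ hs.le k L) l hlp
    (Measure.pi fun _ : boxS d L => ρ1.map BLink2_e.symm)
    (Measure.pi fun _ : boxS d L => ρ2.map BLink2_e.symm) n1 n2 Q1 Q2 hQ10 hQ20
    (BLink2_mom _ (hq ρ1 q1)) (BLink2_mom _ (hq ρ2 q2))
  rw [BLink2_mape, BLink2_mape, l1, l2, l3, List.map_map] at hmain
  have hLHS : ∫ G, ∫ G', ‖pathE (boxNet d L) β s k (stdGaussian (E 2)) ((List.range M).map F) G
          - pathE (boxNet d L) β s k (stdGaussian (E 2)) ((List.range M).map F) G'‖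
        ∂(chainLaw (boxNet d L) β s k (stdGaussian (E 2)) (Measure.pi (fun _ => ρ2)) n2)
        ∂(chainLaw (boxNet d L) β s k (stdGaussian (E 2)) (Measure.pi (fun _ => ρ1)) n1) =
      ∫ b, ∫ b', ‖BLink2_pE (fun G ξ => stp (boxNet d L) β s k G ξ)
          (pim (boxS d L) (stdGaussian (E 2))) ((List.range M).map F) b -
          BLink2_pE (fun G ξ => stp (boxNet d L) β s k G ξ)
          (pim (boxS d L) (stdGaussian (E 2))) ((List.range M).map F) b'‖
        ∂(BLink2_lawG (fun G ξ => stp (boxNet d L) β s k G ξ)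
          (pim (boxS d L) (stdGaussian (E 2))) (Measure.pi (fun _ => ρ2)) n2)
        ∂(BLink2_lawG (fun G ξ => stp (boxNet d L) β s k G ξ)
          (pim (boxS d L) (stdGaussian (E 2))) (Measure.pi (fun _ => ρ1)) n1) := by
    rw [BLink2_chainLaw_eq, BLink2_chainLaw_eq]
    simp only [BLink2_pathE_eq]
  have hRHS : ∫ G, ∫ G', ‖BLink2_pE (st2 d β k s L) (Measure.pi fun _ : boxS d L => gC)
          ((List.range M).map ((fun f (G : boxS d L → ℂ) => f fun x => BLink2_e (G x)) ∘ F)) G -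
        BLink2_pE (st2 d β k s L) (Measure.pi fun _ : boxS d L => gC)
          ((List.range M).map ((fun f (G : boxS d L → ℂ) => f fun x => BLink2_e (G x)) ∘ F)) G'‖
      ∂(BLink2_lawG (st2 d β k s L) (Measure.pi fun _ : boxS d L => gC)
        (Measure.pi fun _ : boxS d L => ρ2.map BLink2_e.symm) n2)
      ∂(BLink2_lawG (st2 d β k s L) (Measure.pi fun _ : boxS d L => gC)
        (Measure.pi fun _ : boxS d L => ρ1.map BLink2_e.symm) n1) ≤ δ / 2 := by
    rw [← BLink2_law_eq, ← BLink2_law_eq]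
    simp only [← BLink2_Fam]
    exact Hm
  refine (le_of_eq hLHS).trans (hmain.trans ?_)
  -- the error
  have hsq0 : 0 ≤ Real.sqrt s := Real.sqrt_nonneg _
  have hsq : Real.sqrt s ≤ δ / (2 * (W + 1)) := by
    apply Real.sqrt_le_iff.mpr
    exact ⟨by positivity, hs3.le⟩
  have hsum := BLink2_lsum CF hCF I J M hI
  have hsum0 : 0 ≤ ((List.range M).map fun i => if i ∈ I then CF else 0).sum := by
    apply List.sum_nonneg
    intro a ha
    obtain ⟨i, -, rfl⟩ := List.mem_map.mp ha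
    split_ifs
    · exact hCF
    · exact le_rfl
  have p1 := BLink2_pow hC hs M n1 hM hn1
  have p2 := BLink2_pow hC hs M n2 hM hn2
  have t1 : ((List.range M).map fun i => if i ∈ I then CF else 0).sum *
      ((c + (1 + C * s) ^ (M + n1) * Q1) * Real.sqrt s / 2) ≤
      J * CF * ((c + K * Q1) * Real.sqrt s / 2) := by
    refine mul_le_mul hsum ?_ (by positivity) (by positivity)
    have := mul_le_mul_of_nonneg_right p1 hQ10
    have h5 := mul_le_mul_of_nonneg_right (add_le_add (le_refl c) this) hsq0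
    linarith
  have t2 : ((List.range M).map fun i => if i ∈ I then CF else 0).sum *
      ((c + (1 + C * s) ^ (M + n2) * Q2) * Real.sqrt s / 2) ≤
      J * CF * ((c + K * Q2) * Real.sqrt s / 2) := by
    refine mul_le_mul hsum ?_ (by positivity) (by positivity)
    have := mul_le_mul_of_nonneg_right p2 hQ20
    have h5 := mul_le_mul_of_nonneg_right (add_le_add (le_refl c) this) hsq0
    linarith
  have t3 : J * CF * ((c + K * Q1) * Real.sqrt s / 2) +
      J * CF * ((c + K * Q2) * Real.sqrt s / 2) ≤ W * Real.sqrt s := by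
    have h6 : 0 ≤ J * CF * (K * (Q1 + Q2)) * Real.sqrt s := by positivity
    have h7 : W * Real.sqrt s - (J * CF * ((c + K * Q1) * Real.sqrt s / 2) +
      J * CF * ((c + K * Q2) * Real.sqrt s / 2)) =
        J * CF * (K * (Q1 + Q2)) * Real.sqrt s / 2 := by
      rw [hW]
      ring
    linarith
  have t4 : W * Real.sqrt s ≤ δ / 2 := by
    have h8 : (W + 1) * Real.sqrt s ≤ (W + 1) * (δ / (2 * (W + 1))) :=
      mul_le_mul_of_nonneg_left hsq (by linarith)
    have h9 : (W + 1) * (δ / (2 * (W + 1))) = δ / 2 := by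
      field_simp
    nlinarith
  have hR := hRHS
  linarith

end DynC
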