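import Pool.Agent.Lib_MP_36b788c.Grw
import Pool.Agent.Lib_MP_36b788c.BFam

/-!
# Growth of differences over one block (see the docstring of `Grw.lean`)
-/

open MeasureTheory ProbabilityTheory
open scoped ENNReal

namespace DynC

open Dyn

private theorem Grw2_re_gC : gC.map (fun z : ℂ => z.re) = gaussianReal 0 1 := by
  unfold gC
  rw [Measure.map_map Complex.measurable_re measurable_mkC]
  have h : (fun z : ℂ => z.re) ∘ (fun p : ℝ × ℝ => (⟨p.1, p.2⟩ : ℂ)) = Prod.fst := by
    funext p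
    rfl
  rw [h, Measure.map_fst_prod, measure_univ, one_smul]

private theorem Grw2_re_meas (d L : ℕ) :
    Measurable (fun (η : boxS d L → ℂ) (x : boxS d L) => (η x).re) :=
  measurable_pi_lambda _ fun x => Complex.measurable_re.comp (measurable_pi_apply x)

private theorem Grw2_re_pi (d L : ℕ) :
    (Measure.pi fun _ : boxS d L => gC).map (fun (η : boxS d L → ℂ) (x : boxS d L) => (η x).re) =
      nz (boxS d L) := by
  have h := Measure.pi_map_pi (μ := fun _ : boxS d L => gC)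
    (f := fun _ : boxS d L => fun z : ℂ => z.re) (fun _ => Complex.measurable_re.aemeasurable)
  unfold nz
  refine h.trans ?_
  congr 1
  funext x
  exact Grw2_re_gC

/-- the real parts of the complex noise are standard Gaussian fields -/
theorem re_map (d L : ℕ) :
    (PI (Measure.pi fun _ : boxS d L => gC)).map (fun ω j x => (ω j x).re) =
      PI (nz (boxS d L)) := by
  haveI hp : IsProbabilityMeasure ((Measure.pi fun _ : boxS d L => gC).map
      (fun (η : boxS d L → ℂ) (x : boxS d L) => (η x).re)) := by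
    rw [Grw2_re_pi]
    infer_instance
  have h := PI_map (μ := Measure.pi fun _ : boxS d L => gC)
    (fun (η : boxS d L → ℂ) (x : boxS d L) => (η x).re) (Grw2_re_meas d L)
  refine h.trans ?_
  unfold PI
  congr 1
  funext i
  exact Grw2_re_pi d L

private theorem Grw2_path {d : ℕ} {F : Fam d} {β k : ℝ} (S : PSys F β k) (h : ℝ) (L : ℕ)
    (hk : 0 < k) (hk1 : k < 1) (hh : 0 < h) (G : (boxS d L → F.V) × (boxS d L → F.V))
    (y : boxS d L) (hG : ∀ x, x ≠ y → G.1 x = G.2 x) (ω : ℕ → boxS d L → S.Ωp) (n : ℕ)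
    (x : boxS d L) :
    ‖(S.tr h L G ω n).1 x - (S.tr h L G ω n).2 x‖ ≤
      ‖G.1 y - G.2 y‖ * (1 + 4 * d * k ^ (1 / 8 : ℝ) * h) ^ n *
        Real.exp (ell k * ((boxMSet d L).lpp (1 / 8) (fun _ => 0)
          (fun j z => S.b h (ω j z) / ell k) n x + -(3 / 4 * ((boxNet d L).dist x y : ℝ)))) := by
  refine grow_path d L k h (1 / 8) (1 / 8) (3 / 4) ‖G.1 y - G.2 y‖ hk hk1 hh (norm_nonneg _)
    (by norm_num) (by norm_num) (by norm_num) (by norm_num)
    (fun j z => S.b h (ω j z)) (fun j => dif (S.tr h L G ω j).1 (S.tr h L G ω j).2)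
    (fun j => S.dd h L (S.tr h L G ω j) (ω j) hh)
    (fun x => -(3 / 4 * ((boxNet d L).dist x y : ℝ))) ?_ ?_ n x
  · intro x y' hy'
    have h1 := (boxNet d L).dist_tri x y' y
    rw [(boxNet d L).dist_nb x y' hy'] at h1
    have h2 : ((boxNet d L).dist x y : ℝ) ≤ 1 + ((boxNet d L).dist y' y : ℝ) := by
      exact_mod_cast h1
    linarith
  · intro x
    change ‖G.1 x - G.2 x‖ ≤ _
    by_cases hx : x = y
    · subst hx
      rw [(boxNet d L).dist_self]
      simp
    · rw [hG x hx, sub_self, norm_zero]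
      positivity

private theorem Grw2_ell {k : ℝ} (hk : 0 < k) (h : k < Real.exp (-1)) : 1 ≤ ell k := by
  unfold ell
  rw [one_div, Real.log_inv]
  have h1 : Real.log k ≤ -1 := by
    rw [← Real.log_exp (-1)]
    exact Real.log_le_log hk h.le
  linarith

private theorem Grw2_exp_ell {k : ℝ} (hk : 0 < k) : k = Real.exp (-ell k) := by
  unfold ell
  rw [one_div, Real.log_inv, neg_neg, Real.exp_log hk]

private theorem Grw2_k0 (d : ℕ) (T : ℝ) (hT : 1 ≤ T) : ∃ k0 : ℝ, 0 < k0 ∧ k0 < 1 ∧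
    ∀ k, 0 < k → k < k0 → 1 ≤ ell k ∧ 4 * (d : ℝ) * k ^ (1 / 8 : ℝ) * (T * ell k ^ 2 + 1) ≤ 1 := by
  set B : ℝ := 4100 * d * T + 1 with hB
  have hd : (0 : ℝ) ≤ d := Nat.cast_nonneg d
  have hB1 : 1 ≤ B := by
    have : 0 ≤ 4100 * (d : ℝ) * T := by positivity
    linarith
  have hB0 : 0 < B := by linarith
  refine ⟨min (Real.exp (-1)) ((1 / B) ^ 16), by positivity, ?_, ?_⟩
  · refine (min_le_left _ _).trans_lt ?_
    rw [Real.exp_lt_one_iff]
    norm_num
  · intro k hk hk0
    have he := Grw2_ell hk (hk0.trans_le (min_le_left _ _))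
    refine ⟨he, ?_⟩
    have hk1 : k < 1 := by
      refine (hk0.trans_le (min_le_left _ _)).trans ?_
      rw [Real.exp_lt_one_iff]
      norm_num
    set z : ℝ := k ^ (1 / 16 : ℝ) with hz
    have hz0 : 0 < z := Real.rpow_pos_of_pos hk _
    have hz8 : k ^ (1 / 8 : ℝ) = z ^ 2 := by
      rw [hz, ← Real.rpow_natCast, ← Real.rpow_mul hk.le]
      norm_num
    have hzB : z ≤ 1 / B := by
      have h1 : k ≤ (1 / B) ^ 16 := (hk0.trans_le (min_le_right _ _)).le
      have h2 : z ≤ ((1 / B) ^ 16) ^ (1 / 16 : ℝ) := Real.rpow_le_rpow hk.le h1 (by norm_num)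
      rwa [← Real.rpow_natCast, ← Real.rpow_mul (by positivity),
        show ((16 : ℕ) : ℝ) * (1 / 16) = 1 by norm_num, Real.rpow_one] at h2
    have hell2 : ell k ^ 2 * z ≤ 1024 := by
      have h1 : ell k ≤ (1 / k) ^ (1 / 32 : ℝ) / (1 / 32) := by
        unfold ell
        exact Real.log_le_rpow_div (by positivity) (by norm_num)
      have h2 : ell k ^ 2 ≤ ((1 / k) ^ (1 / 32 : ℝ) / (1 / 32)) ^ 2 :=
        pow_le_pow_left₀ (by linarith) h1 2
      have h3 : ((1 / k) ^ (1 / 32 : ℝ) / (1 / 32)) ^ 2 = 1024 * z⁻¹ := by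
        have h4 : ((1 / k) ^ (1 / 32 : ℝ)) ^ 2 = z⁻¹ := by
          rw [← Real.rpow_natCast, ← Real.rpow_mul (by positivity), one_div k,
            Real.inv_rpow hk.le, hz]
          norm_num
        rw [div_pow, h4]
        norm_num
        ring
      rw [h3] at h2
      calc ell k ^ 2 * z ≤ 1024 * z⁻¹ * z := mul_le_mul_of_nonneg_right h2 hz0.le
        _ = 1024 := by rw [mul_assoc, inv_mul_cancel₀ hz0.ne', mul_one]
    have hz1 : z ≤ 1 := Real.rpow_le_one hk.le hk1.le (by norm_num)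
    rw [hz8]
    have h5 : z ^ 2 * (T * ell k ^ 2 + 1) ≤ 1025 * T * z := by
      have h6 : z ^ 2 * (T * ell k ^ 2 + 1) = z * (T * (ell k ^ 2 * z) + z) := by ring
      rw [h6]
      have h7 : T * (ell k ^ 2 * z) + z ≤ 1025 * T := by
        have h8 : T * (ell k ^ 2 * z) ≤ T * 1024 :=
          mul_le_mul_of_nonneg_left hell2 (by linarith)
        linarith
      have h9 := mul_le_mul_of_nonneg_left h7 hz0.le
      linarith
    have h10 : 4 * (d : ℝ) * z ^ 2 * (T * ell k ^ 2 + 1) ≤ 4100 * d * T * z := by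
      have h11 := mul_le_mul_of_nonneg_left h5 (by positivity : (0 : ℝ) ≤ 4 * d)
      linarith
    refine h10.trans ?_
    have h12 : 4100 * (d : ℝ) * T * z ≤ 4100 * d * T * (1 / B) :=
      mul_le_mul_of_nonneg_left hzB (by positivity)
    refine h12.trans ?_
    rw [mul_one_div, div_le_one hB0]
    linarith

/-- `N = 2`; block length `n h ≤ T ell² + 1` -/
theorem gD2 (d : ℕ) (β : ℝ) (hβ : 0 < β) : ∃ C a0 : ℝ, 0 < C ∧ 0 < a0 ∧ ∀ T : ℝ, 1 ≤ T →
    ∃ k0 : ℝ, 0 < k0 ∧ k0 < 1 ∧ ∀ (k : ℝ) (hk : 0 < k), k < k0 → ∀ a, 0 < a → a ≤ a0 →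
    ∀ L, ∃ h0 : ℝ, 0 < h0 ∧ ∀ h, 0 < h → h < h0 →
    ∀ (G : (boxS d L → ℂ) × (boxS d L → ℂ)) (y : boxS d L), (∀ x, x ≠ y → G.1 x = G.2 x) →
    ∀ n : ℕ, n * h ≤ T * ell k ^ 2 + 1 → ∀ x,
      ∫⁻ ω, ENNReal.ofReal (‖((PS2 d β k hβ hk.le).tr h L G ω n).1 x -
          ((PS2 d β k hβ hk.le).tr h L G ω n).2 x‖ ^ (2 * (a / ell k)))
          ∂(PI ((PS2 d β k hβ hk.le).mu L)) ≤
        ENNReal.ofReal (Real.exp (C * a * T) * Real.exp (-(3 / 2 * a * (boxNet d L).dist x y)) *
          ‖G.1 y - G.2 y‖ ^ (2 * (a / ell k))) := by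
  obtain ⟨lam0, C0, hlam0, hC0, hlpp⟩ := lpp_exp d (1 / 8) (by norm_num)
  refine ⟨2 + 6 * C0, lam0 / 2, by positivity, by positivity, ?_⟩
  intro T hT
  obtain ⟨k0, hk0, hk01, hkk⟩ := Grw2_k0 d T hT
  refine ⟨k0, hk0, hk01, ?_⟩
  intro k hk hkk0 a ha ha0 L
  obtain ⟨hell1, hkd⟩ := hkk k hk hkk0
  have hell : 0 < ell k := by linarith
  refine ⟨1 / lam0 ^ 2, by positivity, ?_⟩
  intro h hh hh0 G y hG n hn x
  set S := PS2 d β k hβ hk.le with hS
  set v : ℝ := h / ell k ^ 2 with hv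
  have hv0 : 0 < v := by positivity
  have hv1 : v ≤ 1 / lam0 ^ 2 := by
    refine le_trans ?_ hh0.le
    rw [hv]
    apply div_le_self hh.le
    nlinarith
  set A : ℝ := ‖G.1 y - G.2 y‖ with hA
  have hA0 : 0 ≤ A := norm_nonneg _
  set p : ℝ := 2 * (a / ell k) with hp
  have hp0 : 0 < p := by positivity
  set dxy : ℝ := ((boxNet d L).dist x y : ℝ) with hdxy
  set cst : ℝ := Real.exp (2 * a) * Real.exp (-(3 / 2 * a * dxy)) * A ^ p with hcst
  have hcst0 : 0 ≤ cst := by positivity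
  set W : (ℕ → boxS d L → ℝ) → ℝ := fun g => (boxMSet d L).lpp (1 / 8) (fun _ => 0) g n x with hW
  -- pathwise bound
  have hpt : ∀ ω : ℕ → boxS d L → ℂ,
      ‖(S.tr h L G ω n).1 x - (S.tr h L G ω n).2 x‖ ^ p ≤
        cst * Real.exp (2 * a * W (sc v (fun j z => (ω j z).re))) := by
    intro ω
    have h1 := Grw2_path S h L hk (hkk0.trans hk01) hh G y hG ω n x
    have hsc : (fun j z => S.b h (ω j z) / ell k) = sc v (fun j z => (ω j z).re) := by
      funext j z
      change Real.sqrt h * (ω j z).re / ell k = Real.sqrt v * (ω j z).re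
      rw [hv, Real.sqrt_div' _ (by positivity), Real.sqrt_sq hell.le]
      ring
    rw [hsc] at h1
    have h2 : (1 + 4 * (d : ℝ) * k ^ (1 / 8 : ℝ) * h) ^ n ≤ Real.exp 1 := by
      have hk8 : 0 ≤ k ^ (1 / 8 : ℝ) := Real.rpow_nonneg hk.le _
      have h3 : 1 + 4 * (d : ℝ) * k ^ (1 / 8 : ℝ) * h ≤
          Real.exp (4 * (d : ℝ) * k ^ (1 / 8 : ℝ) * h) := by
        have := Real.add_one_le_exp (4 * (d : ℝ) * k ^ (1 / 8 : ℝ) * h)
        linarith
      calc (1 + 4 * (d : ℝ) * k ^ (1 / 8 : ℝ) * h) ^ n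
          ≤ Real.exp (4 * (d : ℝ) * k ^ (1 / 8 : ℝ) * h) ^ n :=
            pow_le_pow_left₀ (by positivity) h3 n
        _ = Real.exp (4 * (d : ℝ) * k ^ (1 / 8 : ℝ) * (n * h)) := by
            rw [← Real.exp_nat_mul]
            congr 1
            ring
        _ ≤ Real.exp 1 := by
            apply Real.exp_le_exp.mpr
            refine le_trans ?_ hkd
            exact mul_le_mul_of_nonneg_left hn (by positivity)
    set w : ℝ := W (sc v (fun j z => (ω j z).re)) with hw
    have h4 : ‖(S.tr h L G ω n).1 x - (S.tr h L G ω n).2 x‖ ≤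
        A * Real.exp (1 + ell k * (w + -(3 / 4 * dxy))) := by
      refine h1.trans ?_
      rw [Real.exp_add, ← mul_assoc]
      exact mul_le_mul_of_nonneg_right (mul_le_mul_of_nonneg_left h2 hA0) (Real.exp_pos _).le
    have h5 := Real.rpow_le_rpow (norm_nonneg _) h4 hp0.le
    refine h5.trans ?_
    rw [Real.mul_rpow hA0 (Real.exp_pos _).le, ← Real.exp_mul, hcst]
    have h6 : (1 + ell k * (w + -(3 / 4 * dxy))) * p =
        2 * a / ell k + (2 * a * w + -(3 / 2 * a * dxy)) := by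
      rw [hp]
      field_simp
      ring
    rw [h6]
    have h7 : 2 * a / ell k ≤ 2 * a := div_le_self (by positivity) hell1
    have h8 : Real.exp (2 * a / ell k + (2 * a * w + -(3 / 2 * a * dxy))) ≤
        Real.exp (2 * a) * Real.exp (-(3 / 2 * a * dxy)) * Real.exp (2 * a * w) := by
      rw [← Real.exp_add, ← Real.exp_add]
      apply Real.exp_le_exp.mpr
      linarith
    have h9 := mul_le_mul_of_nonneg_left h8 (Real.rpow_nonneg hA0 p)
    refine h9.trans (le_of_eq ?_)
    ring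
  -- integrate
  have hΦ : Measurable (fun g : ℕ → boxS d L → ℝ =>
      ENNReal.ofReal (Real.exp (2 * a * W (sc v g)))) := by
    have hsm : Measurable (fun g : ℕ → boxS d L → ℝ => sc v g) := by
      unfold sc
      fun_prop
    exact (((measurable_lpp (boxMSet d L) (1 / 8) (fun _ => 0) n x).comp hsm).const_mul
      (2 * a)).exp.ennreal_ofReal
  have hre : Measurable (fun (ω : ℕ → boxS d L → ℂ) (j : ℕ) (z : boxS d L) => (ω j z).re) := by
    refine measurable_pi_lambda _ fun j => ?_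
    exact (Grw2_re_meas d L).comp (measurable_pi_apply j)
  have hint : ∫⁻ ω, ENNReal.ofReal (Real.exp (2 * a * W (sc v (fun j z => (ω j z).re))))
      ∂(PI (Measure.pi fun _ : boxS d L => gC)) ≤
      ENNReal.ofReal (Real.exp (C0 * (n * v + 1) * (2 * a))) := by
    have h1 := lintegral_map hΦ hre (μ := PI (Measure.pi fun _ : boxS d L => gC))
    rw [re_map] at h1
    rw [← h1]
    refine le_trans (lintegral_mono fun g => ?_)
      (hlpp (boxS d L) (boxMSet d L) v hv0 hv1 n x (2 * a) (by positivity) (by linarith))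
    apply ENNReal.ofReal_le_ofReal
    apply Real.exp_le_exp.mpr
    apply mul_le_mul_of_nonneg_left _ (by positivity)
    exact le_lppM (boxMSet d L) (1 / 8) (fun _ => 0) (sc v g) le_rfl x
  calc ∫⁻ ω, ENNReal.ofReal (‖(S.tr h L G ω n).1 x - (S.tr h L G ω n).2 x‖ ^ p) ∂(PI (S.mu L))
      ≤ ∫⁻ ω, ENNReal.ofReal cst *
          ENNReal.ofReal (Real.exp (2 * a * W (sc v (fun j z => (ω j z).re))))
          ∂(PI (Measure.pi fun _ : boxS d L => gC)) := by
        refine lintegral_mono fun ω => ?_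
        rw [← ENNReal.ofReal_mul hcst0]
        exact ENNReal.ofReal_le_ofReal (hpt ω)
    _ = ENNReal.ofReal cst * ∫⁻ ω,
          ENNReal.ofReal (Real.exp (2 * a * W (sc v (fun j z => (ω j z).re))))
          ∂(PI (Measure.pi fun _ : boxS d L => gC)) := by
        have hm : Measurable (fun ω : ℕ → boxS d L → ℂ =>
            ENNReal.ofReal (Real.exp (2 * a * W (sc v (fun j z => (ω j z).re))))) := hΦ.comp hre
        exact lintegral_const_mul _ hm
    _ ≤ ENNReal.ofReal cst * ENNReal.ofReal (Real.exp (C0 * (n * v + 1) * (2 * a))) :=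
        mul_le_mul_right hint _
    _ = ENNReal.ofReal (cst * Real.exp (C0 * (n * v + 1) * (2 * a))) :=
        (ENNReal.ofReal_mul hcst0).symm
    _ ≤ _ := by
        apply ENNReal.ofReal_le_ofReal
        have hnv : n * v + 1 ≤ 3 * T := by
          have h1 : (n : ℝ) * v = n * h / ell k ^ 2 := by rw [hv]; ring
          have h2 : (n : ℝ) * h / ell k ^ 2 ≤ T + 1 := by
            rw [div_le_iff₀ (by positivity)]
            have h3 : 1 ≤ ell k ^ 2 := by nlinarith
            linarith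
          rw [h1]
          linarith
        have h4 : Real.exp (2 * a) * Real.exp (C0 * (n * v + 1) * (2 * a)) ≤
            Real.exp ((2 + 6 * C0) * a * T) := by
          rw [← Real.exp_add]
          apply Real.exp_le_exp.mpr
          have h5 : C0 * (n * v + 1) * (2 * a) ≤ C0 * (3 * T) * (2 * a) :=
            mul_le_mul_of_nonneg_right (mul_le_mul_of_nonneg_left hnv hC0.le) (by positivity)
          have h6 : 2 * a ≤ 2 * a * T := by nlinarith
          linarith
        have h7 : cst * Real.exp (C0 * (n * v + 1) * (2 * a)) =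
            (Real.exp (2 * a) * Real.exp (C0 * (n * v + 1) * (2 * a))) *
              (Real.exp (-(3 / 2 * a * dxy)) * A ^ p) := by
          rw [hcst]
          ring
        rw [h7, mul_assoc (Real.exp ((2 + 6 * C0) * a * T))]
        exact mul_le_mul_of_nonneg_right h4 (by positivity)

/-- mean of `e^b` -/
private theorem Grw2_mgf (N : ℕ) {Ω0 : Type} [MeasurableSpace Ω0] (ν : Measure Ω0)
    [IsProbabilityMeasure ν] (b : ℝ → Ω0 → ℝ) (gd : ℝ → Set Ω0) (hB : BNoise N ν b gd)
    (hmb : ∀ h, Measurable (b h)) (hmgd : ∀ h, MeasurableSet (gd h)) :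
    ∃ h0 : ℝ, 0 < h0 ∧ ∀ h, 0 < h → h < h0 →
      ∫⁻ a, ENNReal.ofReal (Real.exp (b h a)) ∂ν ≤ ENNReal.ofReal (1 + (lamN N + 3) * h) := by
  obtain ⟨h1, hh1, htail⟩ := hB.tail
  obtain ⟨h2, hh2, hmgf⟩ := hB.mgf 1 1 one_pos one_pos
  obtain ⟨C, h3, hC, hh3, hmgf2⟩ := hB.mgf2
  refine ⟨min (min h1 h2) (min h3 (min 1 (1 / C))), by positivity, ?_⟩
  intro h hh hlt
  have hlt1 : h < h1 := hlt.trans_le ((min_le_left _ _).trans (min_le_left _ _))
  have hlt2 : h < h2 := hlt.trans_le ((min_le_left _ _).trans (min_le_right _ _))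
  have hlt3 : h < h3 := hlt.trans_le ((min_le_right _ _).trans (min_le_left _ _))
  have hlt4 : h < 1 := hlt.trans_le
    ((min_le_right _ _).trans ((min_le_right _ _).trans (min_le_left _ _)))
  have hlt5 : h < 1 / C := hlt.trans_le
    ((min_le_right _ _).trans ((min_le_right _ _).trans (min_le_right _ _)))
  have hCh : C * h ≤ 1 := by
    rw [lt_div_iff₀ hC] at hlt5
    linarith
  have hlam : -1 ≤ lamN N := by
    unfold lamN
    have : (0 : ℝ) ≤ N := Nat.cast_nonneg N
    linarith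
  have hm : Measurable (fun a => ENNReal.ofReal (Real.exp (b h a))) :=
    (hmb h).exp.ennreal_ofReal
  have hm2 : Measurable (fun a => ENNReal.ofReal (Real.exp (2 * b h a))) :=
    ((hmb h).const_mul 2).exp.ennreal_ofReal
  have hA : ∫⁻ a in gd h, ENNReal.ofReal (Real.exp (b h a)) ∂ν ≤
      ENNReal.ofReal (1 + (lamN N + 3 / 2) * h) := by
    have h4 := (hmgf h hh hlt2 1 (by norm_num)).1
    have e : 1 + (lamN N * 1 + 1 ^ 2 / 2 + 1) * h = 1 + (lamN N + 3 / 2) * h := by ring
    rw [e] at h4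
    simpa only [one_mul] using h4
  have hBd : ∫⁻ a in (gd h)ᶜ, ENNReal.ofReal (Real.exp (b h a)) ∂ν ≤
      ENNReal.ofReal (3 / 2 * h) := by
    have hpt : ∀ a, ENNReal.ofReal (Real.exp (b h a)) ≤
        ENNReal.ofReal (h / 2) * ENNReal.ofReal (Real.exp (2 * b h a)) +
          ENNReal.ofReal (1 / (2 * h)) := by
      intro a
      rw [← ENNReal.ofReal_mul (by positivity), ← ENNReal.ofReal_add (by positivity)
        (by positivity)]
      apply ENNReal.ofReal_le_ofReal
      have e : Real.exp (2 * b h a) = Real.exp (b h a) ^ 2 := by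
        rw [← Real.exp_nat_mul]
        norm_num
      rw [e]
      set u := Real.exp (b h a)
      have h5 : 0 ≤ (h * u - 1) ^ 2 / (2 * h) := by positivity
      have h6 : (h * u - 1) ^ 2 / (2 * h) = h / 2 * u ^ 2 + 1 / (2 * h) - u := by
        field_simp
        ring
      linarith
    calc ∫⁻ a in (gd h)ᶜ, ENNReal.ofReal (Real.exp (b h a)) ∂ν
        ≤ ∫⁻ a in (gd h)ᶜ, (ENNReal.ofReal (h / 2) * ENNReal.ofReal (Real.exp (2 * b h a)) +
          ENNReal.ofReal (1 / (2 * h))) ∂ν := lintegral_mono fun a => hpt a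
      _ = ENNReal.ofReal (h / 2) * (∫⁻ a in (gd h)ᶜ, ENNReal.ofReal (Real.exp (2 * b h a)) ∂ν) +
          ENNReal.ofReal (1 / (2 * h)) * ν (gd h)ᶜ := by
          rw [lintegral_add_right _ measurable_const, lintegral_const_mul _ hm2, lintegral_const,
            Measure.restrict_apply_univ]
      _ ≤ ENNReal.ofReal (h / 2) * ENNReal.ofReal (1 + C * h) +
          ENNReal.ofReal (1 / (2 * h)) * ENNReal.ofReal (h ^ 3) := by
          refine add_le_add ?_ ?_
          · exact mul_le_mul_right ((setLIntegral_le_lintegral _ _).trans (hmgf2 h hh hlt3)) _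
          · exact mul_le_mul_right (htail h hh hlt1) _
      _ = ENNReal.ofReal (h / 2 * (1 + C * h) + 1 / (2 * h) * h ^ 3) := by
          rw [← ENNReal.ofReal_mul (by positivity), ← ENNReal.ofReal_mul (by positivity),
            ← ENNReal.ofReal_add (by positivity) (by positivity)]
      _ ≤ ENNReal.ofReal (3 / 2 * h) := by
          apply ENNReal.ofReal_le_ofReal
          have e : 1 / (2 * h) * h ^ 3 = h * h / 2 := by
            field_simp
          rw [e]
          have h7 : h / 2 * (1 + C * h) ≤ h / 2 * 2 :=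
            mul_le_mul_of_nonneg_left (by linarith) (by positivity)
          have h8 : h * h ≤ h * 1 := mul_le_mul_of_nonneg_left hlt4.le hh.le
          linarith
  rw [← lintegral_add_compl _ (hmgd h)]
  refine (add_le_add hA hBd).trans ?_
  have h9 : 0 ≤ 1 + (lamN N + 3 / 2) * h := by nlinarith
  rw [← ENNReal.ofReal_add h9 (by positivity)]
  apply ENNReal.ofReal_le_ofReal
  linarith

private theorem Grw2_meas {d : ℕ} {F : Fam d} {β k : ℝ} (S : PSys F β k) (h : ℝ) (L n : ℕ)
    (G : (boxS d L → F.V) × (boxS d L → F.V)) (x : boxS d L) :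
    Measurable (fun ω : ℕ → boxS d L → S.Ωp =>
      dif (S.tr h L G ω n).1 (S.tr h L G ω n).2 x) := by
  have h1 : Measurable (fun ω : ℕ → boxS d L → S.Ωp => S.tr h L G ω n) := by
    have h2 : Measurable (fun ω : ℕ → boxS d L → S.Ωp => (G, ω)) :=
      measurable_const.prodMk measurable_id
    exact (measurable_tr S h L n).comp h2
  have h3 : Measurable (fun ω : ℕ → boxS d L → S.Ωp => (S.tr h L G ω n).1 x) :=
    (measurable_pi_apply x).comp (measurable_fst.comp h1)
  have h4 : Measurable (fun ω : ℕ → boxS d L → S.Ωp => (S.tr h L G ω n).2 x) :=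
    (measurable_pi_apply x).comp (measurable_snd.comp h1)
  exact (h3.sub h4).norm

/-- the noise of step `n` is independent of the state at time `n` -/
private theorem Grw2_indep {d : ℕ} {F : Fam d} {β k : ℝ} (S : PSys F β k) (h : ℝ) (L n : ℕ)
    (G : (boxS d L → F.V) × (boxS d L → F.V)) (x : boxS d L) :
    ∫⁻ ω, ENNReal.ofReal (Real.exp (S.b h (ω n x))) *
        ENNReal.ofReal (dif (S.tr h L G ω n).1 (S.tr h L G ω n).2 x) ∂(PI (S.mu L)) =
      (∫⁻ a, ENNReal.ofReal (Real.exp (S.b h a)) ∂S.ν) *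
        ∫⁻ ω, ENNReal.ofReal (dif (S.tr h L G ω n).1 (S.tr h L G ω n).2 x) ∂(PI (S.mu L)) := by
  have hg : Measurable (fun a : S.Ωp => ENNReal.ofReal (Real.exp (S.b h a))) :=
    (S.mb h).exp.ennreal_ofReal
  have hD : Measurable (fun ω : ℕ → boxS d L → S.Ωp =>
      ENNReal.ofReal (dif (S.tr h L G ω n).1 (S.tr h L G ω n).2 x)) :=
    (Grw2_meas S h L n G x).ennreal_ofReal
  have hev : ∀ j, Measurable (fun ω : ℕ → boxS d L → S.Ωp => ω j x) := fun j => by
    have h1 : Measurable (fun ω : ℕ → boxS d L → S.Ωp => ω j) := measurable_pi_apply j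
    have h2 : Measurable (fun ξ : boxS d L → S.Ωp => ξ x) := measurable_pi_apply x
    exact h2.comp h1
  have hm : Measurable (fun ω : ℕ → boxS d L → S.Ωp =>
      ENNReal.ofReal (Real.exp (S.b h (ω n x))) *
        ENNReal.ofReal (dif (S.tr h L G ω n).1 (S.tr h L G ω n).2 x)) :=
    (hg.comp (hev n)).mul hD
  rw [lintegral_glue n _ hm]
  have hinner : ∀ a : ℕ → boxS d L → S.Ωp,
      ∫⁻ b, ENNReal.ofReal (Real.exp (S.b h (glue n a b n x))) *
        ENNReal.ofReal (dif (S.tr h L G (glue n a b) n).1 (S.tr h L G (glue n a b) n).2 x)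
        ∂(PI (S.mu L)) =
      (∫⁻ c, ENNReal.ofReal (Real.exp (S.b h c)) ∂S.ν) *
        ENNReal.ofReal (dif (S.tr h L G a n).1 (S.tr h L G a n).2 x) := by
    intro a
    have h1 : ∀ b : ℕ → boxS d L → S.Ωp, S.tr h L G (glue n a b) n = S.tr h L G a n :=
      fun b => traj_glue_le (S.st h L) G n a b n le_rfl
    have h2 : ∀ b : ℕ → boxS d L → S.Ωp, glue n a b n = b 0 := by
      intro b
      unfold glue
      rw [if_neg (lt_irrefl n), Nat.sub_self]
    simp_rw [h1, h2]
    have hm0 : Measurable (fun b : ℕ → boxS d L → S.Ωp =>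
        ENNReal.ofReal (Real.exp (S.b h (b 0 x)))) := hg.comp (hev 0)
    rw [lintegral_mul_const _ hm0]
    congr 1
    have h3 : ∫⁻ b : ℕ → boxS d L → S.Ωp, ENNReal.ofReal (Real.exp (S.b h (b 0 x)))
        ∂(PI (S.mu L)) = ∫⁻ ξ : boxS d L → S.Ωp, ENNReal.ofReal (Real.exp (S.b h (ξ x)))
        ∂(S.mu L) := by
      have h4 := map_coord (μ := S.mu L) 0
      conv_rhs => rw [← h4]
      have h5 : Measurable (fun ξ : boxS d L → S.Ωp => ENNReal.ofReal (Real.exp (S.b h (ξ x)))) :=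
        hg.comp (measurable_pi_apply x)
      have h6 : Measurable (fun ω : ℕ → boxS d L → S.Ωp => ω 0) := measurable_pi_apply 0
      exact (lintegral_map h5 h6).symm
    rw [h3]
    unfold PSys.mu
    exact (measurePreserving_eval (fun _ : boxS d L => S.ν) x).lintegral_comp hg
  rw [lintegral_congr hinner, lintegral_const_mul _ hD]

/-- first moment growth for every pair system, from a start with `D_0 ≤ A k^{ρ dist x y}` -/
theorem grow_mean (N d : ℕ) (β : ℝ) (hβ : 0 < β) : ∃ C : ℝ, 0 < C ∧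
    ∀ (F : Fam d) (k : ℝ) (S : PSys F β k), 0 < k → k < 1 → BNoise N S.ν S.b S.gd →
    ∃ h0 : ℝ, 0 < h0 ∧ ∀ h, 0 < h → h < h0 → ∀ (L : ℕ) (G : (boxS d L → F.V) × (boxS d L → F.V))
      (U : boxS d L → ℝ) (r : ℝ), (∀ x, 0 ≤ U x) → (∀ x, k * cpl (boxNet d L) U x ≤ r * U x) →
      (∀ x, dif G.1 G.2 x ≤ U x) → ∀ (n : ℕ) (x : boxS d L),
      ∫⁻ ω, ENNReal.ofReal (dif (S.tr h L G ω n).1 (S.tr h L G ω n).2 x) ∂(PI (S.mu L)) ≤
        ENNReal.ofReal (Real.exp ((C + r) * (n * h)) * U x) := by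
  have hlam : -1 ≤ lamN N := by
    unfold lamN
    have : (0 : ℝ) ≤ N := Nat.cast_nonneg N
    linarith
  refine ⟨lamN N + 3, by linarith, ?_⟩
  intro F k S hk hk1 hB
  obtain ⟨h0, hh0, hmgf⟩ := Grw2_mgf N S.ν S.b S.gd hB S.mb S.mgd
  refine ⟨h0, hh0, ?_⟩
  intro h hh hlt L G U r hU hUr hGU n
  set C : ℝ := lamN N + 3 with hC
  have hC0 : 0 < C := by linarith
  induction n with
  | zero =>
    intro x
    have e : ∀ ω : ℕ → boxS d L → S.Ωp, S.tr h L G ω 0 = G := fun ω => rfl
    simp_rw [e]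
    rw [lintegral_const, measure_univ, mul_one]
    apply ENNReal.ofReal_le_ofReal
    rw [Nat.cast_zero, zero_mul, mul_zero, Real.exp_zero, one_mul]
    exact hGU x
  | succ n ih =>
    intro x
    set c : ℝ := Real.exp ((C + r) * (n * h)) with hc
    have hc0 : 0 < c := Real.exp_pos _
    have hstep : ∀ ω : ℕ → boxS d L → S.Ωp,
        ENNReal.ofReal (dif (S.tr h L G ω (n + 1)).1 (S.tr h L G ω (n + 1)).2 x) ≤
        ENNReal.ofReal (Real.exp (S.b h (ω n x))) *
          ENNReal.ofReal (dif (S.tr h L G ω n).1 (S.tr h L G ω n).2 x) +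
        ENNReal.ofReal (k * h) *
          (∑ y ∈ (boxNet d L).nb x, ENNReal.ofReal (dif (S.tr h L G ω n).1 (S.tr h L G ω n).2 y)
            + ENNReal.ofReal ((2 * d : ℕ) : ℝ) *
              ENNReal.ofReal (dif (S.tr h L G ω n).1 (S.tr h L G ω n).2 x)) := by
      intro ω
      have hdd := S.dd h L (S.tr h L G ω n) (ω n) hh
      have h1 := hdd.up x
      have h2 : ENNReal.ofReal (k * h) *
          (∑ y ∈ (boxNet d L).nb x, ENNReal.ofReal (dif (S.tr h L G ω n).1 (S.tr h L G ω n).2 y)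
            + ENNReal.ofReal ((2 * d : ℕ) : ℝ) *
              ENNReal.ofReal (dif (S.tr h L G ω n).1 (S.tr h L G ω n).2 x)) =
          ENNReal.ofReal (k * h * cpl (boxNet d L)
            (dif (S.tr h L G ω n).1 (S.tr h L G ω n).2) x) := by
        unfold cpl
        rw [← ENNReal.ofReal_sum_of_nonneg (fun y _ => hdd.n0 y),
          ← ENNReal.ofReal_mul (Nat.cast_nonneg _),
          ← ENNReal.ofReal_add (Finset.sum_nonneg fun y _ => hdd.n0 y)
            (mul_nonneg (Nat.cast_nonneg _) (hdd.n0 x)),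
          ← ENNReal.ofReal_mul (by positivity)]
      have h3 : 0 ≤ cpl (boxNet d L) (dif (S.tr h L G ω n).1 (S.tr h L G ω n).2) x := by
        unfold cpl
        exact add_nonneg (Finset.sum_nonneg fun y _ => hdd.n0 y)
          (mul_nonneg (Nat.cast_nonneg _) (hdd.n0 x))
      rw [h2, ← ENNReal.ofReal_mul (Real.exp_pos _).le,
        ← ENNReal.ofReal_add (mul_nonneg (Real.exp_pos _).le (hdd.n0 x))
          (mul_nonneg (by positivity) h3)]
      exact ENNReal.ofReal_le_ofReal h1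
    have hD : ∀ y, Measurable (fun ω : ℕ → boxS d L → S.Ωp =>
        ENNReal.ofReal (dif (S.tr h L G ω n).1 (S.tr h L G ω n).2 y)) :=
      fun y => (Grw2_meas S h L n G y).ennreal_ofReal
    have hsumm : Measurable (fun ω : ℕ → boxS d L → S.Ωp =>
        ∑ y ∈ (boxNet d L).nb x, ENNReal.ofReal (dif (S.tr h L G ω n).1 (S.tr h L G ω n).2 y)) :=
      Finset.measurable_fun_sum _ fun y _ => hD y
    have hcplm : Measurable (fun ω : ℕ → boxS d L → S.Ωp =>
        (∑ y ∈ (boxNet d L).nb x, ENNReal.ofReal (dif (S.tr h L G ω n).1 (S.tr h L G ω n).2 y)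
            + ENNReal.ofReal ((2 * d : ℕ) : ℝ) *
              ENNReal.ofReal (dif (S.tr h L G ω n).1 (S.tr h L G ω n).2 x))) :=
      hsumm.add ((hD x).const_mul _)
    calc ∫⁻ ω, ENNReal.ofReal (dif (S.tr h L G ω (n + 1)).1 (S.tr h L G ω (n + 1)).2 x)
          ∂(PI (S.mu L))
        ≤ ∫⁻ ω, (ENNReal.ofReal (Real.exp (S.b h (ω n x))) *
          ENNReal.ofReal (dif (S.tr h L G ω n).1 (S.tr h L G ω n).2 x) +
        ENNReal.ofReal (k * h) *
          (∑ y ∈ (boxNet d L).nb x, ENNReal.ofReal (dif (S.tr h L G ω n).1 (S.tr h L G ω n).2 y)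
            + ENNReal.ofReal ((2 * d : ℕ) : ℝ) *
              ENNReal.ofReal (dif (S.tr h L G ω n).1 (S.tr h L G ω n).2 x))) ∂(PI (S.mu L)) :=
          lintegral_mono hstep
      _ = (∫⁻ a, ENNReal.ofReal (Real.exp (S.b h a)) ∂S.ν) *
            ∫⁻ ω, ENNReal.ofReal (dif (S.tr h L G ω n).1 (S.tr h L G ω n).2 x) ∂(PI (S.mu L)) +
          ENNReal.ofReal (k * h) * (∑ y ∈ (boxNet d L).nb x,
            ∫⁻ ω, ENNReal.ofReal (dif (S.tr h L G ω n).1 (S.tr h L G ω n).2 y) ∂(PI (S.mu L)) +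
            ENNReal.ofReal ((2 * d : ℕ) : ℝ) *
            ∫⁻ ω, ENNReal.ofReal (dif (S.tr h L G ω n).1 (S.tr h L G ω n).2 x)
              ∂(PI (S.mu L))) := by
          rw [lintegral_add_right _ (hcplm.const_mul _), Grw2_indep,
            lintegral_const_mul _ hcplm, lintegral_add_right _ ((hD x).const_mul _),
            lintegral_const_mul _ (hD x), lintegral_finsetSum _ fun y _ => hD y]
      _ ≤ ENNReal.ofReal (1 + C * h) * ENNReal.ofReal (c * U x) +
          ENNReal.ofReal (k * h) * (∑ y ∈ (boxNet d L).nb x, ENNReal.ofReal (c * U y) +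
            ENNReal.ofReal ((2 * d : ℕ) : ℝ) * ENNReal.ofReal (c * U x)) := by
          refine add_le_add (mul_le_mul' (hmgf h hh hlt) (ih x)) ?_
          refine mul_le_mul_right (add_le_add ?_ (mul_le_mul_right (ih x) _)) _
          exact Finset.sum_le_sum fun y _ => ih y
      _ = ENNReal.ofReal ((1 + C * h) * (c * U x) +
          k * h * (∑ y ∈ (boxNet d L).nb x, c * U y + ((2 * d : ℕ) : ℝ) * (c * U x))) := by
          have hcU : ∀ y, 0 ≤ c * U y := fun y => mul_nonneg hc0.le (hU y)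
          rw [← ENNReal.ofReal_sum_of_nonneg (fun y _ => hcU y),
            ← ENNReal.ofReal_mul (Nat.cast_nonneg _),
            ← ENNReal.ofReal_add (Finset.sum_nonneg fun y _ => hcU y)
              (mul_nonneg (Nat.cast_nonneg _) (hcU x)),
            ← ENNReal.ofReal_mul (by positivity), ← ENNReal.ofReal_mul (by positivity),
            ← ENNReal.ofReal_add (mul_nonneg (by positivity) (hcU x))
              (mul_nonneg (by positivity) (add_nonneg (Finset.sum_nonneg fun y _ => hcU y)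
                (mul_nonneg (Nat.cast_nonneg _) (hcU x))))]
      _ ≤ ENNReal.ofReal (Real.exp ((C + r) * (((n + 1 : ℕ) : ℝ) * h)) * U x) := by
          apply ENNReal.ofReal_le_ofReal
          have h1 : ∑ y ∈ (boxNet d L).nb x, c * U y + ((2 * d : ℕ) : ℝ) * (c * U x) =
              c * cpl (boxNet d L) U x := by
            unfold cpl
            rw [← Finset.mul_sum]
            ring
          rw [h1]
          have h2 : k * h * (c * cpl (boxNet d L) U x) ≤ h * c * (r * U x) := by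
            have h3 := mul_le_mul_of_nonneg_left (hUr x) (by positivity : 0 ≤ h * c)
            linarith
          have h4 : Real.exp ((C + r) * (((n + 1 : ℕ) : ℝ) * h)) =
              c * Real.exp ((C + r) * h) := by
            rw [hc, ← Real.exp_add]
            congr 1
            push_cast
            ring
          have h5 : 1 + (C + r) * h ≤ Real.exp ((C + r) * h) := by
            have := Real.add_one_le_exp ((C + r) * h)
            linarith
          have h6 : c * U x * (1 + (C + r) * h) ≤ c * U x * Real.exp ((C + r) * h) :=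
            mul_le_mul_of_nonneg_left h5 (mul_nonneg hc0.le (hU x))
          rw [h4]
          linarith

/-- Jensen for a power `t ∈ (0,1]` on a probability space. -/
private theorem Grw2_jensen {Ω : Type*} [MeasurableSpace Ω] (μ : Measure Ω)
    [IsProbabilityMeasure μ] (X : Ω → ℝ) (hX : Measurable X) (hX0 : ∀ ω, 0 ≤ X ω) (t : ℝ)
    (h0 : 0 < t) (h1 : t ≤ 1) :
    ∫⁻ ω, ENNReal.ofReal (X ω ^ t) ∂μ ≤ (∫⁻ ω, ENNReal.ofReal (X ω) ∂μ) ^ t := by
  have h := eLpNorm'_le_eLpNorm'_of_exponent_le h0 h1 μ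
    (f := X) hX.aestronglyMeasurable
  unfold eLpNorm' at h
  have e1 : ∀ ω, ‖X ω‖ₑ ^ t = ENNReal.ofReal (X ω ^ t) := by
    intro ω
    rw [Real.enorm_eq_ofReal (hX0 ω), ENNReal.ofReal_rpow_of_nonneg (hX0 ω) h0.le]
  have e2 : ∀ ω, ‖X ω‖ₑ ^ (1 : ℝ) = ENNReal.ofReal (X ω) := by
    intro ω
    rw [Real.enorm_eq_ofReal (hX0 ω), ENNReal.rpow_one]
  simp_rw [e1, e2] at h
  rw [div_one, ENNReal.rpow_one] at h
  have h3 := ENNReal.rpow_le_rpow h h0.le
  rwa [← ENNReal.rpow_mul, one_div, inv_mul_cancel₀ h0.ne', ENNReal.rpow_one] at h3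

/-- `N ≥ 3`; block length `n h ≤ T ell + 1` -/
theorem gD3 (N d : ℕ) (β : ℝ) (hβ : 0 < β) : ∃ C a0 : ℝ, 0 < C ∧ 0 < a0 ∧ ∀ T : ℝ, 1 ≤ T →
    ∃ k0 : ℝ, 0 < k0 ∧ k0 < 1 ∧ ∀ (F : Fam d) (k : ℝ) (S : PSys F β k), 0 < k → k < k0 →
    BNoise N S.ν S.b S.gd → ∀ a, 0 < a → a ≤ a0 →
    ∃ h0 : ℝ, 0 < h0 ∧ ∀ h, 0 < h → h < h0 → ∀ L,
    ∀ (G : (boxS d L → F.V) × (boxS d L → F.V)) (y : boxS d L), (∀ x, x ≠ y → G.1 x = G.2 x) →
    ∀ n : ℕ, n * h ≤ T * ell k + 1 → ∀ x,
      ∫⁻ ω, ENNReal.ofReal (‖(S.tr h L G ω n).1 x - (S.tr h L G ω n).2 x‖ ^ (2 * (a / ell k)))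
          ∂(PI (S.mu L)) ≤
        ENNReal.ofReal (Real.exp (C * a * T) * Real.exp (-(3 / 2 * a * (boxNet d L).dist x y)) *
          ‖G.1 y - G.2 y‖ ^ (2 * (a / ell k))) := by
  obtain ⟨C, hC, hgm⟩ := grow_mean N d β hβ
  have hd0 : (0 : ℝ) ≤ d := Nat.cast_nonneg d
  refine ⟨4 * (C + 4 * d), 1 / 2, by positivity, by norm_num, ?_⟩
  intro T hT
  refine ⟨Real.exp (-1), Real.exp_pos _, by rw [Real.exp_lt_one_iff]; norm_num, ?_⟩
  intro F k S hk hkk0 hB a ha ha0
  have hk1 : k < 1 := hkk0.trans (by rw [Real.exp_lt_one_iff]; norm_num)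
  have hell1 : 1 ≤ ell k := Grw2_ell hk hkk0
  have hell : 0 < ell k := by linarith
  obtain ⟨h0, hh0, hgm'⟩ := hgm F k S hk hk1 hB
  refine ⟨h0, hh0, ?_⟩
  intro h hh hlt L G y hG n hn x
  set A : ℝ := ‖G.1 y - G.2 y‖ with hA
  have hA0 : 0 ≤ A := norm_nonneg _
  set p : ℝ := 2 * (a / ell k) with hp
  have hp0 : 0 < p := by positivity
  have hp1 : p ≤ 1 := by
    rw [hp, ← mul_div_assoc, div_le_one hell]
    linarith
  set U : boxS d L → ℝ := fun x => A * Real.exp (-(3 / 4 * ell k * ((boxNet d L).dist x y : ℝ)))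
    with hU
  have hU0 : ∀ x, 0 ≤ U x := fun x => mul_nonneg hA0 (Real.exp_pos _).le
  have hnear : ∀ x z, (boxNet d L).dist x z ≤ 1 → U z ≤ U x * Real.exp (3 / 4 * ell k) := by
    intro x z hz
    have h0 : A * Real.exp (-(3 / 4 * ell k * ((boxNet d L).dist x y : ℝ))) *
        Real.exp (3 / 4 * ell k) =
        A * Real.exp (-(3 / 4 * ell k * ((boxNet d L).dist x y : ℝ)) + 3 / 4 * ell k) := by
      rw [Real.exp_add]; ring
    change A * Real.exp _ ≤ A * Real.exp _ * Real.exp _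
    rw [h0]
    apply mul_le_mul_of_nonneg_left _ hA0
    apply Real.exp_le_exp.mpr
    have h1 := (boxNet d L).dist_tri x z y
    have h2 : ((boxNet d L).dist x y : ℝ) ≤ 1 + ((boxNet d L).dist z y : ℝ) := by
      have h3 : (boxNet d L).dist x y ≤ 1 + (boxNet d L).dist z y := by omega
      exact_mod_cast h3
    have h4 := mul_le_mul_of_nonneg_left h2 (by positivity : 0 ≤ 3 / 4 * ell k)
    linarith
  have hUr : ∀ x, k * cpl (boxNet d L) U x ≤ 4 * d * U x := by
    intro x
    set Q : ℝ := U x * Real.exp (3 / 4 * ell k) with hQ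
    have hQ0 : 0 ≤ Q := mul_nonneg (hU0 x) (Real.exp_pos _).le
    have hcpl : cpl (boxNet d L) U x ≤ 4 * d * Q := by
      unfold cpl
      have h1 : ∑ z ∈ (boxNet d L).nb x, U z ≤ 2 * d * Q := by
        calc ∑ z ∈ (boxNet d L).nb x, U z ≤ ∑ z ∈ (boxNet d L).nb x, Q :=
              Finset.sum_le_sum fun z hz =>
                hnear x z (le_of_eq ((boxNet d L).dist_nb x z hz))
          _ = ((boxNet d L).nb x).card * Q := by rw [Finset.sum_const, nsmul_eq_mul]
          _ ≤ 2 * d * Q := by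
              apply mul_le_mul_of_nonneg_right _ hQ0
              exact_mod_cast (boxNet d L).nb_card x
      have h2 : ((2 * d : ℕ) : ℝ) * U x ≤ 2 * d * Q := by
        have h3 := hnear x x (by rw [(boxNet d L).dist_self]; exact Nat.zero_le _)
        push_cast
        exact mul_le_mul_of_nonneg_left h3 (by positivity)
      linarith
    have hkQ : k * Q ≤ U x := by
      have h1 : k * Q = U x * Real.exp (-(1 / 4 * ell k)) := by
        rw [hQ]
        have h2 : k * Real.exp (3 / 4 * ell k) = Real.exp (-(1 / 4 * ell k)) := by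
          conv_lhs => rw [Grw2_exp_ell hk]
          rw [← Real.exp_add]
          congr 1
          rw [← Grw2_exp_ell hk]
          ring
        calc k * (U x * Real.exp (3 / 4 * ell k)) = U x * (k * Real.exp (3 / 4 * ell k)) := by ring
          _ = _ := by rw [h2]
      rw [h1]
      have h3 : Real.exp (-(1 / 4 * ell k)) ≤ 1 := by
        rw [Real.exp_le_one_iff]
        linarith
      exact mul_le_of_le_one_right (hU0 x) h3
    calc k * cpl (boxNet d L) U x ≤ k * (4 * d * Q) := mul_le_mul_of_nonneg_left hcpl hk.le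
      _ = 4 * d * (k * Q) := by ring
      _ ≤ 4 * d * U x := mul_le_mul_of_nonneg_left hkQ (by positivity)
  have hGU : ∀ x, dif G.1 G.2 x ≤ U x := by
    intro x
    change ‖G.1 x - G.2 x‖ ≤ A * _
    by_cases hx : x = y
    · subst hx
      rw [(boxNet d L).dist_self]
      simp [hA]
    · rw [hG x hx, sub_self, norm_zero]
      exact mul_nonneg hA0 (Real.exp_pos _).le
  have hmean := hgm' h hh hlt L G U (4 * d) hU0 hUr hGU n x
  have hj := Grw2_jensen (PI (S.mu L)) _ (Grw2_meas S h L n G x) (fun ω => norm_nonneg _) p hp0 hp1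
  refine hj.trans ?_
  refine (ENNReal.rpow_le_rpow hmean hp0.le).trans ?_
  rw [ENNReal.ofReal_rpow_of_nonneg (mul_nonneg (Real.exp_pos _).le (hU0 x)) hp0.le]
  apply ENNReal.ofReal_le_ofReal
  rw [Real.mul_rpow (Real.exp_pos _).le (hU0 x), ← Real.exp_mul]
  change _ * (A * Real.exp (-(3 / 4 * ell k * ((boxNet d L).dist x y : ℝ)))) ^ p ≤ _
  rw [Real.mul_rpow hA0 (Real.exp_pos _).le, ← Real.exp_mul]
  have h1 : -(3 / 4 * ell k * ((boxNet d L).dist x y : ℝ)) * p =
      -(3 / 2 * a * ((boxNet d L).dist x y : ℝ)) := by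
    rw [hp]
    field_simp
    ring
  rw [h1]
  have h2 : Real.exp ((C + 4 * d) * (n * h) * p) ≤ Real.exp (4 * (C + 4 * d) * a * T) := by
    apply Real.exp_le_exp.mpr
    have h3 : (n : ℝ) * h * p ≤ 4 * a * T := by
      have h4 : (n : ℝ) * h * p ≤ (T * ell k + 1) * p := mul_le_mul_of_nonneg_right hn hp0.le
      have h5 : (T * ell k + 1) * p = 2 * a * (T + 1 / ell k) := by
        rw [hp]
        field_simp
      have h6 : 1 / ell k ≤ 1 := by
        rw [div_le_one hell]
        exact hell1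
      have h7 : 2 * a * (T + 1 / ell k) ≤ 2 * a * (2 * T) :=
        mul_le_mul_of_nonneg_left (by linarith) (by positivity)
      linarith
    have h8 := mul_le_mul_of_nonneg_left h3 (by positivity : 0 ≤ C + 4 * (d : ℝ))
    linarith
  have h9 : Real.exp ((C + 4 * d) * (n * h) * p) *
      (A ^ p * Real.exp (-(3 / 2 * a * ((boxNet d L).dist x y : ℝ)))) =
      Real.exp ((C + 4 * d) * (n * h) * p) *
      (Real.exp (-(3 / 2 * a * ((boxNet d L).dist x y : ℝ))) * A ^ p) := by ring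
  rw [h9, mul_assoc (Real.exp (4 * (C + 4 * d) * a * T))]
  exact mul_le_mul_of_nonneg_right h2 (by positivity)

end DynC
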