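import Pool.Agent.Lib_MP_36b788c.LPPc

/-!
# Last passage functional: exponential moments for all times

PROOF. `λ0` from `eps_small` with `e = e^{-16}/64`. `K = ⌊1/(λ0² v)⌋ ≥ 1` (as `v ≤ 1/λ0²`), `K ≥ 1/(2 λ0² v)`. `a_c = sup_x E exp(λ0 lppM_{cK}(x))`, `a_0 = 1`.
`lppM_succ` and `exp(λ max(A,B)) ≤ e^{λA} + e^{λB}`; the second part is estimated by `cell_all` after Tonelli (`lintegral_glue (cK)`,
the initial field of the cell is `lpp_{cK}`, which depends on the first `cK` steps, `lpp ≤ lppM`), so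
`a_{c+1} ≤ a_c + (4e^8+e^48) a_c`. Hence `a_c ≤ (1+4e^8+e^{48})^c` and `n ≤ cK` with `c = ⌈n/K⌉ ≤ 2λ0² v n + 1`.
`lpp_exp_small`: Jensen (`x ↦ x^{t}` concave for `t = λ/λ0 ≤ 1`; `ENNReal.lintegral_rpow_le` type inequality on a probability space).
`lpp_tail`: Markov.
-/

open MeasureTheory ProbabilityTheory
open scoped ENNReal

namespace DynC

private theorem LPPd_measurable_sc {S : Type} [Fintype S] (v : ℝ) :
    Measurable (fun ω : ℕ → S → ℝ => sc v ω) := by
  unfold sc
  fun_prop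

private theorem LPPd_measurable_glue_part {S : Type} [Fintype S] {D : ℕ} (M : MSet S D)
    (q v : ℝ) (n K : ℕ) (x : S) :
    Measurable (fun ω : ℕ → S → ℝ => M.lppM q (M.lpp q (fun _ => 0) (sc v ω) n)
      (fun j => sc v ω (n + j)) K x) := by
  have h : (fun ω : ℕ → S → ℝ => M.lppM q (M.lpp q (fun _ => 0) (sc v ω) n)
      (fun j => sc v ω (n + j)) K x) = fun ω => (Finset.range (K + 1)).sup'
        ⟨0, Finset.mem_range.mpr (Nat.succ_pos K)⟩
        (fun m => M.lpp q (fun _ => 0) (sc v ω) (n + m) x) := by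
    funext ω
    unfold MSet.lppM
    congr 1
    funext m
    rw [lpp_shift]
  rw [h]
  have h2 := Finset.measurable_sup' (s := Finset.range (K + 1))
    ⟨0, Finset.mem_range.mpr (Nat.succ_pos K)⟩
    (f := fun m (ω : ℕ → S → ℝ) => M.lpp q (fun _ => 0) (sc v ω) (n + m) x)
    (fun m _ => (measurable_lpp M q (fun _ => 0) (n + m) x).comp (LPPd_measurable_sc v))
  have h3 : (fun ω : ℕ → S → ℝ => (Finset.range (K + 1)).sup'
        ⟨0, Finset.mem_range.mpr (Nat.succ_pos K)⟩
        (fun m => M.lpp q (fun _ => 0) (sc v ω) (n + m) x)) =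
      (Finset.range (K + 1)).sup' ⟨0, Finset.mem_range.mpr (Nat.succ_pos K)⟩
        (fun m (ω : ℕ → S → ℝ) => M.lpp q (fun _ => 0) (sc v ω) (n + m) x) := by
    funext ω
    rw [Finset.sup'_apply]
  rw [h3]
  exact h2

private theorem LPPd_sc_glue {S : Type} [Fintype S] (v : ℝ) (n : ℕ) (a b : ℕ → S → ℝ) :
    (∀ j, j < n → sc v (glue n a b) j = sc v a j) ∧
      (fun j => sc v (glue n a b) (n + j)) = sc v b := by
  constructor
  · intro j hj
    funext x
    simp [sc, glue, hj]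
  · funext j x
    simp [sc, glue]

private theorem LPPd_core {S : Type} [Fintype S] {D : ℕ} (M : MSet S D) (lam q v e : ℝ)
    (hl : 0 < lam) (hv : 0 < v) (he0 : 0 ≤ e)
    (he : ∀ x, ∑ y, Real.exp (-(lam * q * max (M.dd y x : ℝ) 1)) ≤ e)
    (he1 : e ≤ Real.exp (-16) / 64) (K : ℕ) (hK : lam ^ 2 * v * K ≤ 1) (c : ℕ) :
    ∀ x : S, ∫⁻ ω, ENNReal.ofReal (Real.exp (lam * M.lppM q (fun _ => 0) (sc v ω) (c * K) x))
      ∂(PI (nz S)) ≤ ENNReal.ofReal ((1 + (4 * Real.exp 8 + Real.exp 48)) ^ c) := by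
  induction c with
  | zero =>
    intro x
    simp [MSet.lppM, MSet.lpp]
  | succ c ih =>
    intro x
    obtain ⟨k, hk0, hk1, hk2⟩ := cell_all M lam q v e hl hv he0 he he1 K hK
    set B : ℝ := 4 * Real.exp 8 + Real.exp 48 with hB
    have hBpos : 0 < B := by positivity
    have hmA : Measurable (fun ω : ℕ → S → ℝ => ENNReal.ofReal
        (Real.exp (lam * M.lppM q (fun _ => 0) (sc v ω) (c * K) x))) :=
      (((measurable_lppM M q (fun _ => 0) (c * K) x).comp
        (LPPd_measurable_sc v)).const_mul lam).exp.ennreal_ofReal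
    have hmB : Measurable (fun ω : ℕ → S → ℝ => ENNReal.ofReal
        (Real.exp (lam * M.lppM q (M.lpp q (fun _ => 0) (sc v ω) (c * K))
          (fun j => sc v ω (c * K + j)) K x))) :=
      ((LPPd_measurable_glue_part M q v (c * K) K x).const_mul lam).exp.ennreal_ofReal
    have h1 : ∫⁻ ω, ENNReal.ofReal (Real.exp (lam * M.lppM q (fun _ => 0) (sc v ω)
          ((c + 1) * K) x)) ∂(PI (nz S)) ≤
        ∫⁻ ω, (ENNReal.ofReal (Real.exp (lam * M.lppM q (fun _ => 0) (sc v ω) (c * K) x)) +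
          ENNReal.ofReal (Real.exp (lam * M.lppM q (M.lpp q (fun _ => 0) (sc v ω) (c * K))
            (fun j => sc v ω (c * K + j)) K x))) ∂(PI (nz S)) := by
      apply lintegral_mono
      intro ω
      dsimp only
      rw [show (c + 1) * K = c * K + K by ring, lppM_succ]
      rcases le_total (M.lppM q (fun _ => 0) (sc v ω) (c * K) x)
        (M.lppM q (M.lpp q (fun _ => 0) (sc v ω) (c * K)) (fun j => sc v ω (c * K + j)) K x)
        with h | h
      · rw [max_eq_right h]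
        exact le_add_self
      · rw [max_eq_left h]
        exact le_self_add
    have h2 : ∫⁻ ω, ENNReal.ofReal (Real.exp (lam * M.lppM q (M.lpp q (fun _ => 0) (sc v ω)
          (c * K)) (fun j => sc v ω (c * K + j)) K x)) ∂(PI (nz S)) ≤
        ENNReal.ofReal (B * (1 + B) ^ c) := by
      rw [lintegral_glue (c * K) _ hmB]
      have h3 : ∀ a : ℕ → S → ℝ, ∫⁻ b, ENNReal.ofReal (Real.exp (lam * M.lppM q
          (M.lpp q (fun _ => 0) (sc v (glue (c * K) a b)) (c * K))
          (fun j => sc v (glue (c * K) a b) (c * K + j)) K x)) ∂(PI (nz S)) ≤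
          ENNReal.ofReal (∑ z, Real.exp (lam * M.lpp q (fun _ => 0) (sc v a) (c * K) z)
            * k z x) := by
        intro a
        have h4 : ∀ b : ℕ → S → ℝ, M.lppM q
          (M.lpp q (fun _ => 0) (sc v (glue (c * K) a b)) (c * K))
          (fun j => sc v (glue (c * K) a b) (c * K + j)) K x =
            M.lppM q (M.lpp q (fun _ => 0) (sc v a) (c * K)) (sc v b) K x := by
          intro b
          rw [(LPPd_sc_glue v (c * K) a b).2, lpp_congr M q (fun _ => 0) _ _ (c * K)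
            (LPPd_sc_glue v (c * K) a b).1]
        simp_rw [h4]
        exact hk2 _ (fun z => lpp_nonneg M q _ (fun _ => le_refl 0) _ _ z) x
      refine (lintegral_mono h3).trans ?_
      have h5 : ∀ a : ℕ → S → ℝ, ENNReal.ofReal (∑ z, Real.exp (lam *
          M.lpp q (fun _ => 0) (sc v a) (c * K) z) * k z x) =
          ∑ z, ENNReal.ofReal (k z x) * ENNReal.ofReal (Real.exp (lam *
          M.lpp q (fun _ => 0) (sc v a) (c * K) z)) := by
        intro a
        rw [ENNReal.ofReal_sum_of_nonneg (fun z _ => mul_nonneg (Real.exp_pos _).le (hk0 z x))]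
        refine Finset.sum_congr rfl fun z _ => ?_
        rw [mul_comm, ENNReal.ofReal_mul (hk0 z x)]
      simp_rw [h5]
      rw [lintegral_finsetSum]
      · have h6 : ∀ z ∈ (Finset.univ : Finset S), ∫⁻ a, ENNReal.ofReal (k z x) *
            ENNReal.ofReal (Real.exp (lam * M.lpp q (fun _ => 0) (sc v a) (c * K) z))
            ∂(PI (nz S)) ≤ ENNReal.ofReal (k z x) * ENNReal.ofReal ((1 + B) ^ c) := by
          intro z _
          rw [lintegral_const_mul]
          · gcongr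
            refine le_trans (lintegral_mono fun a => ?_) (ih z)
            apply ENNReal.ofReal_le_ofReal
            apply Real.exp_le_exp.2
            apply mul_le_mul_of_nonneg_left _ hl.le
            exact le_lppM M q _ _ (le_refl _) z
          · exact (((measurable_lpp M q (fun _ => 0) (c * K) z).comp
              (LPPd_measurable_sc v)).const_mul lam).exp.ennreal_ofReal
        refine (Finset.sum_le_sum h6).trans ?_
        rw [← Finset.sum_mul, ← ENNReal.ofReal_sum_of_nonneg (fun z _ => hk0 z x),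
          ← ENNReal.ofReal_mul (Finset.sum_nonneg fun z _ => hk0 z x)]
        apply ENNReal.ofReal_le_ofReal
        gcongr
        exact hk1 x
      · intro z _
        exact Measurable.const_mul (((measurable_lpp M q (fun _ => 0) (c * K) z).comp
              (LPPd_measurable_sc v)).const_mul lam).exp.ennreal_ofReal _
    refine h1.trans ?_
    rw [lintegral_add_left hmA]
    refine (add_le_add (ih x) h2).trans ?_
    rw [← ENNReal.ofReal_add (by positivity) (by positivity)]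
    apply ENNReal.ofReal_le_ofReal
    apply le_of_eq
    ring

private theorem LPPd_lppM_mono {S : Type} [Fintype S] {D : ℕ} (M : MSet S D) (q : ℝ)
    (W0 : S → ℝ) (g : ℕ → S → ℝ) {m n : ℕ} (h : m ≤ n) (x : S) :
    M.lppM q W0 g m x ≤ M.lppM q W0 g n x := by
  unfold MSet.lppM
  apply Finset.sup'_le
  intro i hi
  exact Finset.le_sup' (fun m => M.lpp q W0 g m x)
    (Finset.mem_range.mpr (lt_of_lt_of_le (Finset.mem_range.mp hi) (Nat.succ_le_succ h)))

/-- Jensen for a power `t ∈ (0,1]` on a probability space. -/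
private theorem LPPd_jensen {Ω : Type*} [MeasurableSpace Ω] (μ : Measure Ω)
    [IsProbabilityMeasure μ] (X : Ω → ℝ) (hX : Measurable X) (t : ℝ) (h0 : 0 < t) (h1 : t ≤ 1) :
    ∫⁻ ω, ENNReal.ofReal (Real.exp (t * X ω)) ∂μ ≤
      (∫⁻ ω, ENNReal.ofReal (Real.exp (X ω)) ∂μ) ^ t := by
  have h := eLpNorm'_le_eLpNorm'_of_exponent_le h0 h1 μ
    (f := fun ω => Real.exp (X ω)) hX.exp.aestronglyMeasurable
  unfold eLpNorm' at h
  have e1 : ∀ ω, ‖Real.exp (X ω)‖ₑ ^ t = ENNReal.ofReal (Real.exp (t * X ω)) := by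
    intro ω
    rw [Real.enorm_eq_ofReal (Real.exp_pos _).le,
      ENNReal.ofReal_rpow_of_nonneg (Real.exp_pos _).le h0.le, ← Real.exp_mul, mul_comm]
  have e2 : ∀ ω, ‖Real.exp (X ω)‖ₑ ^ (1 : ℝ) = ENNReal.ofReal (Real.exp (X ω)) := by
    intro ω
    rw [Real.enorm_eq_ofReal (Real.exp_pos _).le, ENNReal.rpow_one]
  simp_rw [e1, e2] at h
  rw [div_one, ENNReal.rpow_one] at h
  have h3 := ENNReal.rpow_le_rpow h h0.le
  rwa [← ENNReal.rpow_mul, one_div, inv_mul_cancel₀ h0.ne', ENNReal.rpow_one] at h3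

theorem lpp_exp (D : ℕ) (q : ℝ) (hq : 0 < q) : ∃ lam0 C : ℝ, 0 < lam0 ∧ 0 < C ∧
    ∀ (S : Type) [Fintype S] (M : MSet S D) (v : ℝ), 0 < v → v ≤ 1 / lam0 ^ 2 →
      ∀ (n : ℕ) (x : S) (lam : ℝ), 0 ≤ lam → lam ≤ lam0 →
        ∫⁻ ω, ENNReal.ofReal (Real.exp (lam * M.lppM q (fun _ => 0) (sc v ω) n x)) ∂(PI (nz S))
          ≤ ENNReal.ofReal (Real.exp (C * (n * v + 1) * lam)) := by
  obtain ⟨L0, hL0, hL⟩ := eps_small D q hq (Real.exp (-16) / 64) (by positivity)
  set B : ℝ := 1 + (4 * Real.exp 8 + Real.exp 48) with hB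
  have hB1 : 1 < B := by
    have := Real.exp_pos 8
    have := Real.exp_pos 48
    linarith
  have hlogB : 0 < Real.log B := Real.log_pos hB1
  refine ⟨L0, (2 * L0 ^ 2 + 1) * Real.log B / L0, hL0, by positivity, ?_⟩
  intro S _ M v hv hvL n x lam hl0 hl1
  rcases hl0.eq_or_lt with rfl | hlpos
  · simp
  -- number of steps of a cell
  set y : ℝ := 1 / (L0 ^ 2 * v) with hy
  have hL2v : 0 < L0 ^ 2 * v := by positivity
  have hy1 : 1 ≤ y := by
    rw [hy, le_div_iff₀ hL2v, one_mul]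
    rw [le_div_iff₀ (by positivity)] at hvL
    linarith
  set K : ℕ := ⌊y⌋₊ with hKdef
  have hK1 : 1 ≤ K := Nat.one_le_floor_iff y |>.2 hy1
  have hKy : (K : ℝ) ≤ y := Nat.floor_le (by linarith)
  have hKpos : (0 : ℝ) < K := by exact_mod_cast hK1
  have hK : L0 ^ 2 * v * K ≤ 1 := by
    calc L0 ^ 2 * v * K ≤ L0 ^ 2 * v * y := by gcongr
      _ = 1 := by rw [hy]; field_simp
  have hK2 : y ≤ 2 * K := by
    have h1 : y < K + 1 := Nat.lt_floor_add_one y
    have h2 : (1 : ℝ) ≤ K := by exact_mod_cast hK1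
    linarith
  set c : ℕ := ⌈(n : ℝ) / K⌉₊ with hc
  have hcK : n ≤ c * K := by
    have h1 : (n : ℝ) / K ≤ c := Nat.le_ceil _
    rw [div_le_iff₀ hKpos] at h1
    exact_mod_cast h1
  have hc1 : (c : ℝ) ≤ 2 * L0 ^ 2 * v * n + 1 := by
    have h1 : (c : ℝ) < (n : ℝ) / K + 1 := Nat.ceil_lt_add_one (by positivity)
    have h2 : (n : ℝ) / K ≤ 2 * L0 ^ 2 * v * n := by
      rw [div_le_iff₀ hKpos]
      have h3 : 1 ≤ 2 * L0 ^ 2 * v * K := by
        have h4 : L0 ^ 2 * v * y = 1 := by rw [hy]; field_simp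
        have h5 : L0 ^ 2 * v * y ≤ L0 ^ 2 * v * (2 * K) := by gcongr
        linarith
      have h4 : (0 : ℝ) ≤ n := Nat.cast_nonneg n
      calc (n : ℝ) = n * 1 := by ring
        _ ≤ n * (2 * L0 ^ 2 * v * K) := by gcongr
        _ = 2 * L0 ^ 2 * v * n * K := by ring
    linarith
  have hcore := LPPd_core M L0 q v (Real.exp (-16) / 64) hL0 hv (by positivity)
    (fun z => hL L0 (le_refl _) S M z) (le_refl _) K hK c x
  have hX : Measurable (fun ω : ℕ → S → ℝ => L0 * M.lppM q (fun _ => 0) (sc v ω) n x) :=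
    ((measurable_lppM M q (fun _ => 0) n x).comp (LPPd_measurable_sc v)).const_mul L0
  have hj := LPPd_jensen (PI (nz S)) _ hX (lam / L0) (by positivity)
    ((div_le_one hL0).2 hl1)
  have e1 : ∀ ω : ℕ → S → ℝ, lam / L0 * (L0 * M.lppM q (fun _ => 0) (sc v ω) n x) =
      lam * M.lppM q (fun _ => 0) (sc v ω) n x := by
    intro ω
    field_simp
  simp_rw [e1] at hj
  refine hj.trans ?_
  have h2 : ∫⁻ ω, ENNReal.ofReal (Real.exp (L0 * M.lppM q (fun _ => 0) (sc v ω) n x))
      ∂(PI (nz S)) ≤ ENNReal.ofReal (B ^ c) := by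
    refine le_trans (lintegral_mono fun ω => ?_) hcore
    apply ENNReal.ofReal_le_ofReal
    apply Real.exp_le_exp.2
    apply mul_le_mul_of_nonneg_left _ hL0.le
    exact LPPd_lppM_mono M q _ _ hcK x
  have h3 : ENNReal.ofReal (B ^ c) ≤
      ENNReal.ofReal (Real.exp ((2 * L0 ^ 2 * v * n + 1) * Real.log B)) := by
    apply ENNReal.ofReal_le_ofReal
    have h4 : B ^ c = Real.exp (c * Real.log B) := by
      rw [mul_comm, Real.exp_mul, Real.exp_log (by linarith), Real.rpow_natCast]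
    rw [h4]
    apply Real.exp_le_exp.2
    gcongr
  refine (ENNReal.rpow_le_rpow (h2.trans h3) (by positivity)).trans ?_
  rw [ENNReal.ofReal_rpow_of_nonneg (Real.exp_pos _).le (by positivity), ← Real.exp_mul]
  apply ENNReal.ofReal_le_ofReal
  apply Real.exp_le_exp.2
  have h5 : (0 : ℝ) ≤ n := Nat.cast_nonneg n
  have h6 : 2 * L0 ^ 2 * v * n + 1 ≤ (2 * L0 ^ 2 + 1) * (n * v + 1) := by
    have h7 : 0 ≤ (n : ℝ) * v := by positivity
    have h8 : 0 ≤ L0 ^ 2 := by positivity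
    nlinarith
  calc (2 * L0 ^ 2 * v * n + 1) * Real.log B * (lam / L0)
      ≤ (2 * L0 ^ 2 + 1) * (n * v + 1) * Real.log B * (lam / L0) := by gcongr
    _ = (2 * L0 ^ 2 + 1) * Real.log B / L0 * (n * v + 1) * lam := by ring

theorem lpp_tail (D : ℕ) (q : ℝ) (hq : 0 < q) : ∃ lam0 C : ℝ, 0 < lam0 ∧ 0 < C ∧
    ∀ (S : Type) [Fintype S] (M : MSet S D) (v : ℝ), 0 < v → v ≤ 1 / lam0 ^ 2 →
      ∀ (n : ℕ) (x : S) (r : ℝ),
        PI (nz S) {ω | r ≤ M.lppM q (fun _ => 0) (sc v ω) n x}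
          ≤ ENNReal.ofReal (Real.exp (C * (n * v + 1) - lam0 * r)) := by
  obtain ⟨lam0, C, h0, hC, h⟩ := lpp_exp D q hq
  refine ⟨lam0, C * lam0, h0, by positivity, ?_⟩
  intro S _ M v hv hv1 n x r
  have h1 := h S M v hv hv1 n x lam0 h0.le (le_refl _)
  have hm : Measurable (fun ω : ℕ → S → ℝ => ENNReal.ofReal
      (Real.exp (lam0 * M.lppM q (fun _ => 0) (sc v ω) n x))) :=
    (((measurable_lppM M q (fun _ => 0) n x).comp
      (LPPd_measurable_sc v)).const_mul lam0).exp.ennreal_ofReal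
  have h2 := mul_meas_ge_le_lintegral (μ := PI (nz S)) hm (ENNReal.ofReal (Real.exp (lam0 * r)))
  have h3 : {ω : ℕ → S → ℝ | r ≤ M.lppM q (fun _ => 0) (sc v ω) n x} ⊆
      {ω | ENNReal.ofReal (Real.exp (lam0 * r)) ≤ ENNReal.ofReal
        (Real.exp (lam0 * M.lppM q (fun _ => 0) (sc v ω) n x))} := by
    intro ω hω
    apply ENNReal.ofReal_le_ofReal
    apply Real.exp_le_exp.2
    exact mul_le_mul_of_nonneg_left hω h0.le
  have h4 : ENNReal.ofReal (Real.exp (lam0 * r)) *
      PI (nz S) {ω | r ≤ M.lppM q (fun _ => 0) (sc v ω) n x} ≤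
      ENNReal.ofReal (Real.exp (C * (n * v + 1) * lam0)) :=
    (mul_le_mul' le_rfl (measure_mono h3)).trans (h2.trans h1)
  have hpos : ENNReal.ofReal (Real.exp (lam0 * r)) ≠ 0 := by
    rw [Ne, ENNReal.ofReal_eq_zero, not_le]
    exact Real.exp_pos _
  rw [mul_comm, ← ENNReal.le_div_iff_mul_le (Or.inl hpos) (Or.inl ENNReal.ofReal_ne_top)] at h4
  refine h4.trans (le_of_eq ?_)
  rw [← ENNReal.ofReal_div_of_pos (Real.exp_pos _), ← Real.exp_sub]
  congr 2
  ring

private theorem LPPd_neg_nz (S : Type) [Fintype S] :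
    (nz S).map (fun g : S → ℝ => -g) = nz S := by
  unfold nz
  have h : (fun g : S → ℝ => -g) = fun g i => (fun y : ℝ => -y) (g i) := by
    funext g i
    rfl
  rw [h, Measure.pi_map_pi (f := fun _ y => -y) (fun _ => measurable_neg.aemeasurable)]
  congr 1
  funext i
  rw [gaussianReal_map_neg, neg_zero]

/-- the same for the reflected noise `-ω` -/
theorem lpp_tail_neg (D : ℕ) (q : ℝ) (hq : 0 < q) : ∃ lam0 C : ℝ, 0 < lam0 ∧ 0 < C ∧
    ∀ (S : Type) [Fintype S] (M : MSet S D) (v : ℝ), 0 < v → v ≤ 1 / lam0 ^ 2 →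
      ∀ (n : ℕ) (x : S) (r : ℝ),
        PI (nz S) {ω | r ≤ M.lppM q (fun _ => 0) (sc v (-ω)) n x}
          ≤ ENNReal.ofReal (Real.exp (C * (n * v + 1) - lam0 * r)) := by
  obtain ⟨lam0, C, h0, hC, h⟩ := lpp_tail D q hq
  refine ⟨lam0, C, h0, hC, ?_⟩
  intro S _ M v hv hv1 n x r
  have h1 := h S M v hv hv1 n x r
  have hmeas : Measurable (fun g : S → ℝ => -g) := measurable_neg
  have : IsProbabilityMeasure ((nz S).map (fun g : S → ℝ => -g)) := by
    rw [LPPd_neg_nz]
    infer_instance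
  have hmap := PI_map (μ := nz S) (fun g : S → ℝ => -g) hmeas
  have hset : MeasurableSet {ω : ℕ → S → ℝ | r ≤ M.lppM q (fun _ => 0) (sc v ω) n x} :=
    measurableSet_le measurable_const
      ((measurable_lppM M q (fun _ => 0) n x).comp (LPPd_measurable_sc v))
  have hneg : Measurable (fun (ω : ℕ → S → ℝ) i => -(ω i)) := by fun_prop
  have h2 : (PI (nz S)).map (fun (ω : ℕ → S → ℝ) i => -(ω i)) = PI (nz S) := by
    rw [hmap]
    unfold PI
    congr 1
    funext i
    exact LPPd_neg_nz S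
  have h3 : PI (nz S) {ω : ℕ → S → ℝ | r ≤ M.lppM q (fun _ => 0) (sc v ω) n x} =
      PI (nz S) {ω : ℕ → S → ℝ | r ≤ M.lppM q (fun _ => 0) (sc v (-ω)) n x} := by
    conv_lhs => rw [← h2]
    rw [Measure.map_apply hneg hset]
    rfl
  rw [← h3]
  exact h1

end DynC
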