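import Pool.Agent.Lib_MP_36b788c.Sm2

/-!
# The potential: many steps

PROOF.
* `V_sq`: `V1 k q s G x ^ 2 = V1 k q (2s) G x` (`ENNReal.rpow_mul`).
* `sm_multi`: `iter_step` with `Φ = V1 … x`, `A = exp(C9 (s/ell + s²) h)`, `B = 0`.
* `untame_time`: `E_j = ∫⁻_{alv j} V1(tr j) x`, `U_j` = the part where the state is untame for `x`. One step (`alv_markov` with `m = 1`, `sm_step`): `E_{j+1} ≤ e^{κ h}(E_j - U_j) + (1 - c s k^{-β/16} h) U_j ≤ e^{κh} E_j - c s k^{-β/16} h U_j`, `κ = C9 (s/ell+s²)`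
  (work with `E_j < ∞`, otherwise `V1 G x = ∞` and the claim is trivial, or write the inequality additively). Sum over `j ∈ [n1, n2)`, `n1 = ⌈1/h⌉`, `n2 = ⌈2/h⌉`: `c s k^{-β/16} h Σ U_j ≤ e^{3κ} V1(G) x`, so the smallest `U_j` is `≤ e^{3κ} V1(G) x k^{β/16}/(c s · (1/2))`.
* `V_one_pair`: from `V_one`.
-/

open MeasureTheory ProbabilityTheory
open scoped ENNReal

namespace DynC

open Dyn

variable {d : ℕ}

private theorem Sm3_meas_gX : Measurable gX := by
  unfold gX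
  refine Measurable.ite measurableSet_Iic measurable_id ?_
  refine Measurable.ite measurableSet_Iic ?_ ?_
  · exact measurable_id.sub (((measurable_id.add_const _).pow_const 2).const_mul 4)
  refine Measurable.ite measurableSet_Iic measurable_const ?_
  exact (measurable_id.sub_const _).const_add _

private theorem Sm3_meas_fpot (k : ℝ) : Measurable (fpot k) := by
  unfold fpot
  refine Measurable.ite measurableSet_Iic measurable_const ?_
  exact Real.measurable_exp.comp ((Sm3_meas_gX.comp (Real.measurable_log.div_const _)).const_mul _)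

private theorem Sm3_meas_SSt {A : Type} [MeasurableSpace A] {ι : Type} [Fintype ι] {d : ℕ}
    (net : Net ι d) (k : ℝ) (t : A → ι → ℝ) (ht : ∀ y, Measurable (fun a => t a y)) (z : ι) :
    Measurable (fun a => SSt net k (t a) z) := by
  unfold SSt
  refine ((Finset.measurable_fun_sum _ ?_).const_mul _).const_add _
  intro w _
  exact (ht w).const_mul _

private theorem Sm3_meas_Tz {A : Type} [MeasurableSpace A] {ι : Type} [Fintype ι] {d : ℕ}
    (net : Net ι d) (k q : ℝ) (u t : A → ι → ℝ) (hu : ∀ y, Measurable (fun a => u a y))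
    (ht : ∀ y, Measurable (fun a => t a y)) (x z : ι) :
    Measurable (fun a => Tz net k q (u a) (t a) x z) := by
  unfold Tz
  exact (((Sm3_meas_fpot k).comp (hu z)).const_mul _).mul
    ((Sm3_meas_SSt net k t ht z).pow_const _)

private theorem Sm3_meas_Vp {A : Type} [MeasurableSpace A] {ι : Type} [Fintype ι] {d : ℕ}
    (net : Net ι d) (k q s : ℝ) (u t : A → ι → ℝ) (hu : ∀ y, Measurable (fun a => u a y))
    (ht : ∀ y, Measurable (fun a => t a y)) (x : ι) :
    Measurable (fun a => Vp net k q s (u a) (t a) x) := by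
  unfold Vp
  have h1 : Measurable (fun a => Finset.univ.sup fun z =>
      ENNReal.ofReal (Tz net k q (u a) (t a) x z)) := by
    have h2 : (fun a => Finset.univ.sup fun z => ENNReal.ofReal (Tz net k q (u a) (t a) x z))
        = fun a => ⨆ z, ENNReal.ofReal (Tz net k q (u a) (t a) x z) := by
      funext a
      rw [Finset.sup_univ_eq_iSup]
    rw [h2]
    refine Measurable.iSup ?_
    intro z
    exact (Sm3_meas_Tz net k q u t hu ht x z).ennreal_ofReal
  exact h1.pow_const _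

private theorem Sm3_meas_untame {A : Type} [MeasurableSpace A] {L : ℕ} (V : Type)
    [NormedAddCommGroup V] {d : ℕ} (k q : ℝ) (u t : A → boxS d L → ℝ)
    (hu : ∀ y, Measurable (fun a => u a y))
    (ht : ∀ y, Measurable (fun a => t a y)) (x : boxS d L) :
    MeasurableSet {a | untame (V := V) k q (u a) (t a) x} := by
  unfold untame
  have h1 : {a | ∀ z, (∀ y, Tz (boxNet d L) k q (u a) (t a) x y ≤
      Tz (boxNet d L) k q (u a) (t a) x z) → 2 ≤ SSt (boxNet d L) k (t a) z} =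
      ⋂ z, ((⋂ y, {a | Tz (boxNet d L) k q (u a) (t a) x y ≤
      Tz (boxNet d L) k q (u a) (t a) x z})ᶜ ∪ {a | 2 ≤ SSt (boxNet d L) k (t a) z}) := by
    ext a
    simp only [Set.mem_ofPred_eq, Set.mem_iInter, Set.mem_union, Set.mem_compl_iff]
    refine forall_congr' ?_
    intro z
    exact imp_iff_not_or
  rw [h1]
  refine MeasurableSet.iInter ?_
  intro z
  refine MeasurableSet.union (MeasurableSet.compl (MeasurableSet.iInter ?_)) ?_
  · intro y
    exact measurableSet_le (Sm3_meas_Tz _ k q u t hu ht x y) (Sm3_meas_Tz _ k q u t hu ht x z)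
  · exact measurableSet_le measurable_const (Sm3_meas_SSt _ k t ht z)

private theorem Sm3_meas_u1 {V : Type} [NormedAddCommGroup V] [InnerProductSpace ℝ V]
    [MeasurableSpace V] [BorelSpace V] {L : ℕ} (y : boxS d L) :
    Measurable (fun G : (boxS d L → V) × (boxS d L → V) => ‖G.1 y‖) :=
  ((measurable_pi_apply y).comp measurable_fst).norm

private theorem Sm3_meas_u2 {V : Type} [NormedAddCommGroup V] [InnerProductSpace ℝ V]
    [MeasurableSpace V] [BorelSpace V] {L : ℕ} (y : boxS d L) :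
    Measurable (fun G : (boxS d L → V) × (boxS d L → V) => ‖G.2 y‖) :=
  ((measurable_pi_apply y).comp measurable_snd).norm

private theorem Sm3_meas_V {V : Type} [NormedAddCommGroup V] [InnerProductSpace ℝ V]
    [MeasurableSpace V] [BorelSpace V] {L : ℕ} (k q s : ℝ) (x : boxS d L) :
    Measurable (fun G : (boxS d L → V) × (boxS d L → V) => V1 k q s G x) ∧
      Measurable (fun G : (boxS d L → V) × (boxS d L → V) => V2 k q s G x) := by
  constructor
  · unfold V1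
    exact Sm3_meas_Vp _ k q s (fun (G : (boxS d L → V) × (boxS d L → V)) y => ‖G.1 y‖)
      (fun (G : (boxS d L → V) × (boxS d L → V)) y => ‖G.1 y‖ + ‖G.2 y‖)
      (fun y => Sm3_meas_u1 y) (fun y => (Sm3_meas_u1 y).add (Sm3_meas_u2 y)) x
  · unfold V2
    exact Sm3_meas_Vp _ k q s (fun (G : (boxS d L → V) × (boxS d L → V)) y => ‖G.2 y‖)
      (fun (G : (boxS d L → V) × (boxS d L → V)) y => ‖G.1 y‖ + ‖G.2 y‖)
      (fun y => Sm3_meas_u2 y) (fun y => (Sm3_meas_u1 y).add (Sm3_meas_u2 y)) x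

private theorem Sm3_multi_gen {F : Fam d} {β k : ℝ} (S : PSys F β k) (h κ : ℝ) (L : ℕ)
    (Φ : (boxS d L → F.V) × (boxS d L → F.V) → ℝ≥0∞) (hΦ : Measurable Φ)
    (hstep : ∀ G : (boxS d L → F.V) × (boxS d L → F.V),
      (∀ x, ‖G.1 x‖ ≤ rad β h ∧ ‖G.2 x‖ ≤ rad β h) →
      ∫⁻ ω in {ω | ∀ x, ω x ∈ S.gd h}, Φ (S.st h L G ω) ∂(S.mu L) ≤
        ENNReal.ofReal (Real.exp (κ * h)) * Φ G)
    (G : (boxS d L → F.V) × (boxS d L → F.V)) (n : ℕ) :
    ∫⁻ ω in S.alv h L G n, Φ (S.tr h L G ω n) ∂(PI (S.mu L)) ≤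
      ENNReal.ofReal (Real.exp (κ * (n * h))) * Φ G := by
  have h1 := iter_step S h L Φ hΦ (ENNReal.ofReal (Real.exp (κ * h))) 0 ?_ G n
  · refine le_trans h1 (le_of_eq ?_)
    rw [zero_mul, add_zero, ← ENNReal.ofReal_pow (Real.exp_pos _).le, ← Real.exp_nat_mul]
    congr 3
    ring
  · intro G hG
    rw [add_zero]
    refine le_trans ?_ (hstep G hG)
    refine lintegral_mono_set ?_
    intro ω hω
    exact hω.1

private theorem Sm3_one {F : Fam d} {β k : ℝ} (S : PSys F β k) (h : ℝ) (L : ℕ)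
    (Φ : (boxS d L → F.V) × (boxS d L → F.V) → ℝ≥0∞) (hΦ : Measurable Φ)
    (G : (boxS d L → F.V) × (boxS d L → F.V)) :
    ∫⁻ ω in S.alv h L G 1, Φ (S.tr h L G ω 1) ∂(PI (S.mu L)) ≤
      ∫⁻ ω in {ω | ∀ x, ω x ∈ S.gd h}, Φ (S.st h L G ω) ∂(S.mu L) := by
  have hm : MeasurableSet {ω : boxS d L → S.Ωp | ∀ x, ω x ∈ S.gd h} := by
    have : {ω : boxS d L → S.Ωp | ∀ x, ω x ∈ S.gd h} = ⋂ x, (fun ω => ω x) ⁻¹' (S.gd h) := by
      ext ω
      simp
    rw [this]
    exact MeasurableSet.iInter fun x => (measurable_pi_apply x) (S.mgd h)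
  have hst : Measurable (fun ω : boxS d L → S.Ωp => S.st h L G ω) :=
    (S.mst h L).comp (measurable_const.prodMk measurable_id)
  have hmap := map_coord (μ := S.mu L) 0
  calc ∫⁻ ω in S.alv h L G 1, Φ (S.tr h L G ω 1) ∂(PI (S.mu L))
      ≤ ∫⁻ ω in (fun ω : ℕ → boxS d L → S.Ωp => ω 0) ⁻¹' {ω | ∀ x, ω x ∈ S.gd h},
          Φ (S.st h L G (ω 0)) ∂(PI (S.mu L)) := by
        refine lintegral_mono_set ?_
        intro ω hω
        exact hω.1 0 (by norm_num)
    _ = ∫⁻ ω in {ω | ∀ x, ω x ∈ S.gd h}, Φ (S.st h L G ω) ∂((PI (S.mu L)).map (fun ω => ω 0)) := by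
        exact (setLIntegral_map hm (hΦ.comp hst) (measurable_pi_apply 0)).symm
    _ = _ := by rw [hmap]

private theorem Sm3_untame_gen {F : Fam d} {β k : ℝ} (S : PSys F β k) (h κ D : ℝ) (L : ℕ)
    (hh : 0 < h) (hh2 : h ≤ 1 / 2) (hκ : 0 ≤ κ) (hD : 0 < D) (hDh : D * h ≤ 1)
    (Φ : (boxS d L → F.V) × (boxS d L → F.V) → ℝ≥0∞) (hΦ : Measurable Φ)
    (T : Set ((boxS d L → F.V) × (boxS d L → F.V))) (hT : MeasurableSet T)
    (hstep : ∀ G : (boxS d L → F.V) × (boxS d L → F.V),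
      (∀ x, ‖G.1 x‖ ≤ rad β h ∧ ‖G.2 x‖ ≤ rad β h) →
      ∫⁻ ω in {ω | ∀ x, ω x ∈ S.gd h}, Φ (S.st h L G ω) ∂(S.mu L) ≤
        ENNReal.ofReal (Real.exp (κ * h)) * Φ G)
    (hstep2 : ∀ G : (boxS d L → F.V) × (boxS d L → F.V),
      (∀ x, ‖G.1 x‖ ≤ rad β h ∧ ‖G.2 x‖ ≤ rad β h) → G ∈ T →
      ∫⁻ ω in {ω | ∀ x, ω x ∈ S.gd h}, Φ (S.st h L G ω) ∂(S.mu L) ≤
        ENNReal.ofReal (1 - D * h) * Φ G)
    (G : (boxS d L → F.V) × (boxS d L → F.V)) :
    ∃ n : ℕ, 1 ≤ n * h ∧ n * h ≤ 3 ∧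
      ∫⁻ ω in S.alv h L G n ∩ {ω | S.tr h L G ω n ∈ T}, Φ (S.tr h L G ω n) ∂(PI (S.mu L)) ≤
        ENNReal.ofReal (2 * Real.exp (3 * κ) / D) * Φ G := by
  classical
  set E : ℕ → ℝ≥0∞ := fun n => ∫⁻ ω in S.alv h L G n, Φ (S.tr h L G ω n) ∂(PI (S.mu L)) with hE
  set U : ℕ → ℝ≥0∞ := fun n => ∫⁻ ω in S.alv h L G n ∩ {ω | S.tr h L G ω n ∈ T},
    Φ (S.tr h L G ω n) ∂(PI (S.mu L)) with hU
  have hmt : ∀ n, Measurable (fun ω : ℕ → boxS d L → S.Ωp => S.tr h L G ω n) := by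
    intro n
    exact (measurable_tr S h L n).comp (measurable_const.prodMk measurable_id)
  have hmT : ∀ n, MeasurableSet {ω : ℕ → boxS d L → S.Ωp | S.tr h L G ω n ∈ T} := fun n =>
    (hmt n) hT
  have hΦt : ∀ n, Measurable (fun ω : ℕ → boxS d L → S.Ωp => Φ (S.tr h L G ω n)) := fun n =>
    hΦ.comp (hmt n)
  -- one step
  have hone : ∀ n, E (n + 1) + ENNReal.ofReal (D * h) * U n ≤
      ENNReal.ofReal (Real.exp (κ * h)) * E n := by
    intro n
    have e1 : E (n + 1) = ∫⁻ ω in S.alv h L G n, (∫⁻ ω' in S.alv h L (S.tr h L G ω n) 1,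
        Φ (S.tr h L (S.tr h L G ω n) ω' 1) ∂(PI (S.mu L))) ∂(PI (S.mu L)) :=
      alv_markov S h L Φ hΦ G n 1
    have e2 : ENNReal.ofReal (D * h) * U n = ∫⁻ ω in S.alv h L G n,
        {ω | S.tr h L G ω n ∈ T}.indicator
          (fun ω => ENNReal.ofReal (D * h) * Φ (S.tr h L G ω n)) ω ∂(PI (S.mu L)) := by
      rw [setLIntegral_indicator (hmT n), Set.inter_comm, lintegral_const_mul _ (hΦt n)]
    rw [e1, e2]
    refine le_trans (le_lintegral_add _ _) ?_
    have e3 : ENNReal.ofReal (Real.exp (κ * h)) * E n = ∫⁻ ω in S.alv h L G n,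
        ENNReal.ofReal (Real.exp (κ * h)) * Φ (S.tr h L G ω n) ∂(PI (S.mu L)) := by
      rw [lintegral_const_mul _ (hΦt n)]
    rw [e3]
    refine setLIntegral_mono' (measurableSet_alv S h L G n) ?_
    intro ω hω
    have hr : ∀ x, ‖(S.tr h L G ω n).1 x‖ ≤ rad β h ∧ ‖(S.tr h L G ω n).2 x‖ ≤ rad β h :=
      hω.2 n le_rfl
    have h1 := Sm3_one S h L Φ hΦ (S.tr h L G ω n)
    by_cases hT1 : S.tr h L G ω n ∈ T
    · rw [Set.indicator_of_mem (by exact hT1)]
      refine le_trans (add_le_add_left (le_trans h1 (hstep2 _ hr hT1)) _) ?_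
      rw [← add_mul, ← ENNReal.ofReal_add (by linarith) (by positivity)]
      refine mul_le_mul_left ?_ _
      refine ENNReal.ofReal_le_ofReal ?_
      have : (1:ℝ) ≤ Real.exp (κ * h) := Real.one_le_exp (by positivity)
      linarith
    · rw [Set.indicator_of_notMem (by exact hT1), add_zero]
      exact le_trans h1 (hstep _ hr)
  -- summation
  have hsum : ∀ n, E n + ENNReal.ofReal (D * h) * ∑ j ∈ Finset.range n, U j ≤
      ENNReal.ofReal (Real.exp (κ * (n * h))) * Φ G := by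
    intro n
    induction n with
    | zero =>
      simp only [Finset.range_zero, Finset.sum_empty, mul_zero, add_zero, Nat.cast_zero, zero_mul,
        Real.exp_zero, ENNReal.ofReal_one, one_mul]
      show ∫⁻ ω in S.alv h L G 0, Φ G ∂(PI (S.mu L)) ≤ Φ G
      rw [setLIntegral_const]
      calc Φ G * PI (S.mu L) (S.alv h L G 0) ≤ Φ G * 1 := mul_le_mul_right prob_le_one _
        _ = Φ G := mul_one _
    | succ n ih =>
      have hone1 : (1:ℝ≥0∞) ≤ ENNReal.ofReal (Real.exp (κ * h)) := by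
        rw [← ENNReal.ofReal_one]
        exact ENNReal.ofReal_le_ofReal (Real.one_le_exp (by positivity))
      rw [Finset.sum_range_succ, mul_add]
      calc E (n + 1) + (ENNReal.ofReal (D * h) * ∑ j ∈ Finset.range n, U j +
              ENNReal.ofReal (D * h) * U n)
          = (E (n + 1) + ENNReal.ofReal (D * h) * U n) +
              ENNReal.ofReal (D * h) * ∑ j ∈ Finset.range n, U j := by ring
        _ ≤ ENNReal.ofReal (Real.exp (κ * h)) * E n + ENNReal.ofReal (Real.exp (κ * h)) *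
              (ENNReal.ofReal (D * h) * ∑ j ∈ Finset.range n, U j) := by
            refine add_le_add (hone n) ?_
            calc _ = 1 * (ENNReal.ofReal (D * h) * ∑ j ∈ Finset.range n, U j) := (one_mul _).symm
              _ ≤ _ := mul_le_mul_left hone1 _
        _ = ENNReal.ofReal (Real.exp (κ * h)) *
              (E n + ENNReal.ofReal (D * h) * ∑ j ∈ Finset.range n, U j) := by ring
        _ ≤ ENNReal.ofReal (Real.exp (κ * h)) *
              (ENNReal.ofReal (Real.exp (κ * (n * h))) * Φ G) := mul_le_mul_right ih _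
        _ = _ := by
            rw [← mul_assoc, ← ENNReal.ofReal_mul (Real.exp_pos _).le, ← Real.exp_add]
            congr 3
            push_cast
            ring
  -- choice of the range
  set n1 : ℕ := ⌈1 / h⌉₊ with hn1
  set n2 : ℕ := ⌈2 / h⌉₊ with hn2
  have hn1a : (1:ℝ) ≤ n1 * h := by
    have := Nat.le_ceil (1 / h)
    rw [div_le_iff₀ hh] at this
    exact this
  have hn1b : (n1:ℝ) * h ≤ 1 + h := by
    have := (Nat.ceil_lt_add_one (by positivity : (0:ℝ) ≤ 1 / h)).le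
    calc (n1:ℝ) * h ≤ (1 / h + 1) * h := by gcongr
      _ = 1 + h := by field_simp
  have hn2a : (2:ℝ) ≤ n2 * h := by
    have := Nat.le_ceil (2 / h)
    rw [div_le_iff₀ hh] at this
    exact this
  have hn2b : (n2:ℝ) * h ≤ 2 + h := by
    have := (Nat.ceil_lt_add_one (by positivity : (0:ℝ) ≤ 2 / h)).le
    calc (n2:ℝ) * h ≤ (2 / h + 1) * h := by gcongr
      _ = 2 + h := by field_simp
  have hlt : n1 < n2 := by
    by_contra hcon
    push Not at hcon
    have : (n2:ℝ) ≤ n1 := by exact_mod_cast hcon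
    have : (n2:ℝ) * h ≤ n1 * h := by gcongr
    linarith
  have hne : (Finset.Ico n1 n2).Nonempty := Finset.nonempty_Ico.2 hlt
  obtain ⟨m, hm, hmin⟩ := Finset.exists_min_image (Finset.Ico n1 n2) U hne
  rw [Finset.mem_Ico] at hm
  refine ⟨m, ?_, ?_, ?_⟩
  · have : (n1:ℝ) ≤ m := by exact_mod_cast hm.1
    calc (1:ℝ) ≤ n1 * h := hn1a
      _ ≤ m * h := by gcongr
  · have : (m:ℝ) ≤ n2 := by exact_mod_cast hm.2.le
    calc (m:ℝ) * h ≤ n2 * h := by gcongr
      _ ≤ 3 := by linarith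
  · show U m ≤ _
    have h1 : ((n2 - n1 : ℕ) : ℝ≥0∞) * U m ≤ ∑ j ∈ Finset.range n2, U j := by
      calc ((n2 - n1 : ℕ) : ℝ≥0∞) * U m = ∑ _j ∈ Finset.Ico n1 n2, U m := by
            rw [Finset.sum_const, Nat.card_Ico, nsmul_eq_mul]
        _ ≤ ∑ j ∈ Finset.Ico n1 n2, U j := Finset.sum_le_sum hmin
        _ ≤ ∑ j ∈ Finset.range n2, U j := by
            refine Finset.sum_le_sum_of_subset ?_
            intro j hj
            rw [Finset.mem_Ico] at hj
            exact Finset.mem_range.2 hj.2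
    have h2 : ENNReal.ofReal (D / 2) * U m ≤ ENNReal.ofReal (Real.exp (3 * κ)) * Φ G := by
      calc ENNReal.ofReal (D / 2) * U m
          ≤ ENNReal.ofReal (D * h) * (((n2 - n1 : ℕ) : ℝ≥0∞) * U m) := by
            rw [← mul_assoc]
            refine mul_le_mul_left ?_ _
            rw [← ENNReal.ofReal_natCast, ← ENNReal.ofReal_mul (by positivity)]
            refine ENNReal.ofReal_le_ofReal ?_
            rw [Nat.cast_sub hlt.le]
            nlinarith
        _ ≤ ENNReal.ofReal (D * h) * ∑ j ∈ Finset.range n2, U j := mul_le_mul_right h1 _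
        _ ≤ E n2 + ENNReal.ofReal (D * h) * ∑ j ∈ Finset.range n2, U j := le_add_self
        _ ≤ ENNReal.ofReal (Real.exp (κ * (n2 * h))) * Φ G := hsum n2
        _ ≤ ENNReal.ofReal (Real.exp (3 * κ)) * Φ G := by
            refine mul_le_mul_left ?_ _
            refine ENNReal.ofReal_le_ofReal (Real.exp_le_exp.2 ?_)
            nlinarith
    have h3 : ENNReal.ofReal (2 / D) * ENNReal.ofReal (D / 2) = 1 := by
      rw [← ENNReal.ofReal_mul (by positivity)]
      rw [show 2 / D * (D / 2) = 1 by field_simp]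
      exact ENNReal.ofReal_one
    calc U m = ENNReal.ofReal (2 / D) * (ENNReal.ofReal (D / 2) * U m) := by
          rw [← mul_assoc, h3, one_mul]
      _ ≤ ENNReal.ofReal (2 / D) * (ENNReal.ofReal (Real.exp (3 * κ)) * Φ G) :=
          mul_le_mul_right h2 _
      _ = ENNReal.ofReal (2 * Real.exp (3 * κ) / D) * Φ G := by
          rw [← mul_assoc, ← ENNReal.ofReal_mul (by positivity)]
          congr 2
          ring

theorem V_sq {V : Type} [NormedAddCommGroup V] {L : ℕ} (k q s : ℝ)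
    (G : (boxS d L → V) × (boxS d L → V)) (x : boxS d L) :
    V1 k q s G x ^ 2 = V1 k q (2 * s) G x ∧ V2 k q s G x ^ 2 = V2 k q (2 * s) G x := by
  constructor
  · unfold V1 Vp
    rw [← ENNReal.rpow_natCast, ← ENNReal.rpow_mul]
    congr 1
    push_cast
    ring
  · unfold V2 Vp
    rw [← ENNReal.rpow_natCast, ← ENNReal.rpow_mul]
    congr 1
    push_cast
    ring

theorem measurable_V {V : Type} [NormedAddCommGroup V] [InnerProductSpace ℝ V] [MeasurableSpace V]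
    [BorelSpace V] [SecondCountableTopology V] {L : ℕ} (k q s : ℝ) (x : boxS d L) :
    Measurable (fun G : (boxS d L → V) × (boxS d L → V) => V1 k q s G x) ∧
      Measurable (fun G : (boxS d L → V) × (boxS d L → V) => V2 k q s G x) := by
  exact Sm3_meas_V k q s x

theorem V_one_pair {V : Type} [NormedAddCommGroup V] {L : ℕ} {k q s : ℝ}
    (hk : 0 < k) (hk1 : k < 1) (hq : 1 ≤ q) (hs : 0 < s)
    (hkq : k ^ (1 / 4 : ℝ) * 2 ^ (q - 1) ≤ 1)
    (G : (boxS d L → V) × (boxS d L → V)) (x : boxS d L) :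
    1 ≤ V1 k q s G x ∧ 1 ≤ V2 k q s G x := by
  have hS : 1 ≤ SSt (boxNet d L) k (fun y => ‖G.1 y‖ + ‖G.2 y‖) x :=
    SSt_one _ hk _ (fun y => by positivity) x
  have hge : (1:ℝ≥0∞) ≤ ENNReal.ofReal
      (SSt (boxNet d L) k (fun y => ‖G.1 y‖ + ‖G.2 y‖) x ^ ((q - 1) * s)) := by
    rw [← ENNReal.ofReal_one]
    refine ENNReal.ofReal_le_ofReal (Real.one_le_rpow hS ?_)
    exact mul_nonneg (by linarith) hs.le
  constructor
  · refine le_trans hge ?_
    unfold V1
    exact V_one _ hk hk1 hq hs hkq _ _ (fun y => norm_nonneg _)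
      (fun y => le_add_of_nonneg_right (norm_nonneg _)) x
  · refine le_trans hge ?_
    unfold V2
    exact V_one _ hk hk1 hq hs hkq _ _ (fun y => norm_nonneg _)
      (fun y => le_add_of_nonneg_left (norm_nonneg _)) x

theorem sm_multi (N d : ℕ) (β : ℝ) (hN : 2 ≤ N) (hβ : 0 < β) : ∃ q0 : ℝ, 1 ≤ q0 ∧
    ∀ q, q0 ≤ q → ∃ C9 k0 : ℝ, 0 < C9 ∧ 0 < k0 ∧ k0 < 1 ∧
    ∀ (F : Fam d) (k : ℝ) (S : PSys F β k), 0 < k → k < k0 → BNoise N S.ν S.b S.gd →
    ∀ s : ℝ, 0 < s → 8 * q * s ≤ 1 →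
    ∃ h0 : ℝ, 0 < h0 ∧ ∀ h, 0 < h → h < h0 → ∀ (L : ℕ) (G : (boxS d L → F.V) × (boxS d L → F.V))
      (n : ℕ) (x : boxS d L),
      (∫⁻ ω in S.alv h L G n, V1 k q s (S.tr h L G ω n) x ∂(PI (S.mu L)) ≤
          ENNReal.ofReal (Real.exp (C9 * (s / ell k + s ^ 2) * (n * h))) * V1 k q s G x) ∧
      (∫⁻ ω in S.alv h L G n, V2 k q s (S.tr h L G ω n) x ∂(PI (S.mu L)) ≤
          ENNReal.ofReal (Real.exp (C9 * (s / ell k + s ^ 2) * (n * h))) * V2 k q s G x) := by
  obtain ⟨q0, hq0, H⟩ := sm_step N d β hN hβ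
  refine ⟨q0, hq0, ?_⟩
  intro q hq
  obtain ⟨C9, c, k0, hC9, hc, hk0, hk01, H1⟩ := H q hq
  refine ⟨C9, k0, hC9, hk0, hk01, ?_⟩
  intro F k S hk hkk hB s hs hqs
  obtain ⟨h0, hh0, H2⟩ := H1 F k S hk hkk hB s hs hqs
  refine ⟨h0, hh0, ?_⟩
  intro h hh hhh L G n x
  constructor
  · exact Sm3_multi_gen S h _ L (fun G => V1 k q s G x) (Sm3_meas_V k q s x).1
      (fun G hG => (H2 h hh hhh L G hG x).1) G n
  · exact Sm3_multi_gen S h _ L (fun G => V2 k q s G x) (Sm3_meas_V k q s x).2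
      (fun G hG => (H2 h hh hhh L G hG x).2.1) G n

/-- at some time in `[1,2]` the untame part of the potential is tiny -/
theorem untame_time (N d : ℕ) (β : ℝ) (hN : 2 ≤ N) (hβ : 0 < β) : ∃ q0 : ℝ, 1 ≤ q0 ∧
    ∀ q, q0 ≤ q → ∃ C k0 : ℝ, 0 < C ∧ 0 < k0 ∧ k0 < 1 ∧
    ∀ (F : Fam d) (k : ℝ) (S : PSys F β k), 0 < k → k < k0 → BNoise N S.ν S.b S.gd →
    ∀ s : ℝ, 0 < s → 8 * q * s ≤ 1 →
    ∃ h0 : ℝ, 0 < h0 ∧ ∀ h, 0 < h → h < h0 → ∀ (L : ℕ) (G : (boxS d L → F.V) × (boxS d L → F.V))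
      (x : boxS d L),
      (∃ n : ℕ, 1 ≤ n * h ∧ n * h ≤ 3 ∧
        ∫⁻ ω in S.alv h L G n ∩ {ω | untame (V := F.V) k q (nrm (S.tr h L G ω n).1)
            (fun y => nrm (S.tr h L G ω n).1 y + nrm (S.tr h L G ω n).2 y) x},
          V1 k q s (S.tr h L G ω n) x ∂(PI (S.mu L)) ≤
          ENNReal.ofReal (C * k ^ (β / 16) / s) * V1 k q s G x) ∧
      (∃ n : ℕ, 1 ≤ n * h ∧ n * h ≤ 3 ∧
        ∫⁻ ω in S.alv h L G n ∩ {ω | untame (V := F.V) k q (nrm (S.tr h L G ω n).2)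
            (fun y => nrm (S.tr h L G ω n).1 y + nrm (S.tr h L G ω n).2 y) x},
          V2 k q s (S.tr h L G ω n) x ∂(PI (S.mu L)) ≤
          ENNReal.ofReal (C * k ^ (β / 16) / s) * V2 k q s G x) := by
  obtain ⟨q0, hq0, H⟩ := sm_step N d β hN hβ
  refine ⟨q0, hq0, ?_⟩
  intro q hq
  obtain ⟨C9, c, k0, hC9, hc, hk0, hk01, H1⟩ := H q hq
  refine ⟨2 * Real.exp (3 * C9) / c, min k0 (Real.exp (-1)), by positivity,
    lt_min hk0 (Real.exp_pos _), lt_of_le_of_lt (min_le_left _ _) hk01, ?_⟩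
  intro F k S hk hkk hB s hs hqs
  have hkk0 : k < k0 := lt_of_lt_of_le hkk (min_le_left _ _)
  have hke : k < Real.exp (-1) := lt_of_lt_of_le hkk (min_le_right _ _)
  obtain ⟨h0, hh0, H2⟩ := H1 F k S hk hkk0 hB s hs hqs
  have hell : 1 ≤ ell k := by
    unfold ell
    rw [one_div, Real.log_inv]
    have h1 : Real.log k < Real.log (Real.exp (-1)) := Real.log_lt_log hk hke
    rw [Real.log_exp] at h1
    linarith
  have hs8 : s ≤ 1 / 8 := by nlinarith
  set κ : ℝ := C9 * (s / ell k + s ^ 2) with hκ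
  have hκ0 : 0 ≤ κ := by positivity
  have hκ1 : κ ≤ C9 := by
    have h1 : s / ell k ≤ s := div_le_self hs.le hell
    have h2 : s / ell k + s ^ 2 ≤ 1 := by nlinarith
    calc κ ≤ C9 * 1 := by rw [hκ]; gcongr
      _ = C9 := mul_one _
  set D : ℝ := c * s * k ^ (-(β / 16)) with hD
  have hD0 : 0 < D := by positivity
  refine ⟨min h0 (min (1 / 2) (1 / D)), by positivity, ?_⟩
  intro h hh hhh L G x
  have hhh0 : h < h0 := lt_of_lt_of_le hhh (min_le_left _ _)
  have hhh2 : h ≤ 1 / 2 := (lt_of_lt_of_le hhh (le_trans (min_le_right _ _) (min_le_left _ _))).le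
  have hhhD : h ≤ 1 / D := (lt_of_lt_of_le hhh (le_trans (min_le_right _ _) (min_le_right _ _))).le
  have hDh : D * h ≤ 1 := by
    rw [le_div_iff₀ hD0] at hhhD
    linarith
  have hconst : 2 * Real.exp (3 * κ) / D ≤ 2 * Real.exp (3 * C9) / c * k ^ (β / 16) / s := by
    have h1 : 2 * Real.exp (3 * κ) / D = 2 * Real.exp (3 * κ) / c * k ^ (β / 16) / s := by
      rw [hD, Real.rpow_neg hk.le]
      field_simp
    rw [h1]
    gcongr
  have hm1 : MeasurableSet {G : (boxS d L → F.V) × (boxS d L → F.V) |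
      untame (V := F.V) k q (nrm G.1) (fun y => nrm G.1 y + nrm G.2 y) x} :=
    Sm3_meas_untame F.V k q (fun G : (boxS d L → F.V) × (boxS d L → F.V) => nrm G.1)
      (fun G : (boxS d L → F.V) × (boxS d L → F.V) => fun y => nrm G.1 y + nrm G.2 y)
      (fun y => Sm3_meas_u1 y) (fun y => (Sm3_meas_u1 y).add (Sm3_meas_u2 y)) x
  have hm2 : MeasurableSet {G : (boxS d L → F.V) × (boxS d L → F.V) |
      untame (V := F.V) k q (nrm G.2) (fun y => nrm G.1 y + nrm G.2 y) x} :=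
    Sm3_meas_untame F.V k q (fun G : (boxS d L → F.V) × (boxS d L → F.V) => nrm G.2)
      (fun G : (boxS d L → F.V) × (boxS d L → F.V) => fun y => nrm G.1 y + nrm G.2 y)
      (fun y => Sm3_meas_u2 y) (fun y => (Sm3_meas_u1 y).add (Sm3_meas_u2 y)) x
  constructor
  · obtain ⟨n, hn1, hn2, hn3⟩ := Sm3_untame_gen S h κ D L hh hhh2 hκ0 hD0 hDh
      (fun G => V1 k q s G x) (Sm3_meas_V k q s x).1 _ hm1
      (fun G hG => (H2 h hh hhh0 L G hG x).1)
      (fun G hG hGT => (H2 h hh hhh0 L G hG x).2.2.1 hGT) G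
    refine ⟨n, hn1, hn2, le_trans hn3 ?_⟩
    exact mul_le_mul_left (ENNReal.ofReal_le_ofReal hconst) _
  · obtain ⟨n, hn1, hn2, hn3⟩ := Sm3_untame_gen S h κ D L hh hhh2 hκ0 hD0 hDh
      (fun G => V2 k q s G x) (Sm3_meas_V k q s x).2 _ hm2
      (fun G hG => (H2 h hh hhh0 L G hG x).2.1)
      (fun G hG hGT => (H2 h hh hhh0 L G hG x).2.2.2 hGT) G
    refine ⟨n, hn1, hn2, le_trans hn3 ?_⟩
    exact mul_le_mul_left (ENNReal.ofReal_le_ofReal hconst) _

end DynC
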