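import Pool.Agent.Lib_MP_36b788c.Brg0

/-!
# The bridge: one step of the logarithmic difference; growth of the difference for every noise

`κ' = min 1 β κ/8`, `M9 = M8 + 2 M6 + 4`, `ς = h min (k^κ') (k^{-M9} A0)`, `m0 ≤ (κ/16) ell + 4`.

PROOF of `brg_step`. `G` regular at time `j < ns`, `δ = log(G.2 z/G.1 z)`, `c = ctl`, `√h c = -δ/(ns+1-j)`, `w = e^{√h ξ} G.1 z`, `w' = e^{√h(ξ+c)} G.2 z`. `JV v = t(v) v`, `t = psi/‖v‖ ∈ (0,1]`, `1 - t ≤ h‖v‖^β`. `G⁺.1 z = w (t + r)`, `r = k h (Σ_{v ∈ nb z} G.1 v - 2d G.1 z)/w`, and the same with primes.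
`G⁺.2 z/G⁺.1 z = exp(δ + √h c) (t'+r')/(t+r)`. Sizes: `|w|, |w'| ≤ 2k^{κ/2}`, so `|1-t|, |1-t'| ≤ h (2k^{κ/2})^β`, `|r|, |r'| ≤ 8 d h k^{κ/2}`; for small `k` the number `(t'+r')/(t+r) = e^{ϵ}` with `|ϵ| ≤ h k^{κ'}` (`ϵ` = principal logarithm).
Linear bound: `|e^δ - 1| ≥ c|δ|/(1+|δ|)` for `|Im δ| ≤ π`, and `|e^δ - 1| = ‖G.1 z - G.2 z‖/‖G.1 z‖ ≤ A0 k^{-M8} k^{-(M6+1)}`, `|δ| ≤ bd j ≤ m0 + ς ns ≤ (κ/16) ell + 5`: so `|δ| ≤ k^{-(M8+M6+2)} A0`. `|t' - t| ≤ h(1+β)(2k^{κ/2})^β |log(|w'|/|w|)| ≤ h|δ|` (`t` as a function of `log‖v‖`), `|r'-r| ≤ k h Σ‖G.2 v - G.1 v‖/|w'| + … ≤ h A0 k^{-(M8+M6+2)} + h k^{κ/4}|w'/w - 1|`, `|w'/w - 1| ≤ 2k^{-κ/8}|δ|`. So `|ϵ| ≤ 2(|t'-t|+|r'-r|) ≤ h k^{-M9} A0`.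
Hence `|ϵ| ≤ ς`. `‖log(e^x)‖ ≤ ‖x‖` (the principal value has the smallest imaginary part), so `‖log(G⁺.2 z/G⁺.1 z)‖ ≤ ‖δ‖(ns-j)/(ns+1-j) + ς ≤ bd (j+1)` (`lamS (j+1) = lamS j + 1/(ns-j)`).

PROOF of `brg_grow`. If the state is not regular at step `j` (or `j ≥ ns`) both fields get the same noise and `D = dif` satisfies `DStep`. Let `τ` be the last `j < n`, `j < ns` with a regular state. `D_τ v ≤ A0 k^{-M8 + dist y v/2}`. At the step `τ`, for `z` in the ball: `D_{τ+1} z ≤ e^{b}(D_τ z + |e^{√h c}-1| ‖G.2 z‖) + k h cpl D_τ z` and `|e^{√h c} - 1| ‖G.2 z‖ ≤ 2|δ| ‖G.2 z‖ ≤ C(1 + ell) e^{|δ|} D_τ z ≤ k^{-κ/4} D_τ z`. So `D_{τ+1} v ≤ e^{b_τ v} 2k^{-κ/4} D_τ v + k h cpl D_τ v`.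
Then `grow_path` (`q' = 1/8`, `ρ = 1/2`, `H v = -(1/2) dist y v`, one step by hand, `A = 2 A0 k^{-M8-κ/4}`) from `τ` to `n`, `lpp` from time `τ` is at most `lpp` from time `0`. If there is no such `τ`: `grow_path` from time `0` with the initial bound.
-/

open MeasureTheory ProbabilityTheory
open scoped ENNReal

namespace DynC

open Dyn

/-- consistent parameters -/
structure BPar.OK {d L : ℕ} (P : BPar d L) (β k h : ℝ) : Prop where
  hκ : 0 < P.κ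
  hκ1 : P.κ ≤ 1 / 8
  hM6 : 0 ≤ P.M6
  hM8 : 0 ≤ P.M8
  hA : 0 ≤ P.A0
  hm : P.m0 ≤ P.κ / 16 * ell k + 4
  hm0 : 0 ≤ P.m0
  hς : P.ς = h * min (k ^ (min 1 β * P.κ / 8)) (k ^ (-(P.M8 + 2 * P.M6 + 4)) * P.A0)
  hns : 1 ≤ P.ns * h
  hns1 : P.ns * h ≤ ell k ^ 3

private theorem Brg1_norm_log_exp (y : ℂ) : ‖Complex.log (Complex.exp y)‖ ≤ ‖y‖ := by
  by_cases h : -Real.pi < y.im ∧ y.im ≤ Real.pi
  · rw [Complex.log_exp h.1 h.2]
  · have hre : (Complex.log (Complex.exp y)).re = y.re := by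
      rw [Complex.log_re, Complex.norm_exp, Real.log_exp]
    have him : |(Complex.log (Complex.exp y)).im| ≤ |y.im| := by
      rw [Complex.log_im]
      have h1 : |(Complex.exp y).arg| ≤ Real.pi := Complex.abs_arg_le_pi _
      have h2 : Real.pi ≤ |y.im| := by
        by_contra hc
        rw [not_le, abs_lt] at hc
        exact h ⟨hc.1, hc.2.le⟩
      exact h1.trans h2
    rw [Complex.norm_def, Complex.norm_def]
    refine Real.sqrt_le_sqrt ?_
    rw [Complex.normSq_apply, Complex.normSq_apply, hre]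
    have := pow_le_pow_left₀ (abs_nonneg _) him 2
    rw [sq_abs, sq_abs] at this
    nlinarith

private theorem Brg1_exp_sub (x : ℂ) : ‖Complex.exp x - 1‖ ≤ ‖x‖ * Real.exp ‖x‖ := by
  have := Complex.norm_exp_sub_sum_le_norm_mul_exp x 1
  simpa using this

/-- `t = psi/m` as a function of `log m` -/
private theorem Brg1_tt1 {β h : ℝ} (hβ : 0 < β) (hh : 0 < h) {m m' M : ℝ} (hm : 0 < m)
    (hmm : m ≤ m') (hM : m' ≤ M) :
    psi β h m / m - psi β h m' / m' ≤ h * β * M ^ β * Real.log (m' / m) := by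
  have hm' : 0 < m' := hm.trans_le hmm
  have hMp : 0 < M := hm'.trans_le hM
  have p1 := psi_pos hβ hh.le hm
  have p2 := psi_pos hβ hh.le hm'
  have e1 := psi_eq hβ hh.le hm.le
  have e2 := psi_eq hβ hh.le hm'.le
  have hr := psi_ratio hβ hh.le hm hmm
  rw [Real.rpow_add p1, Real.rpow_one] at e1
  rw [Real.rpow_add p2, Real.rpow_one] at e2
  set p := psi β h m with hp
  set p' := psi β h m' with hp'
  have q1 : 0 < p ^ β := Real.rpow_pos_of_pos p1 _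
  have q2 : 0 < p' ^ β := Real.rpow_pos_of_pos p2 _
  have t1 : p / m = 1 / (1 + h * p ^ β) := by
    rw [div_eq_div_iff hm.ne' (by positivity)]
    linarith
  have t2 : p' / m' = 1 / (1 + h * p' ^ β) := by
    rw [div_eq_div_iff hm'.ne' (by positivity)]
    linarith
  have hpp : p ^ β ≤ p' ^ β := Real.rpow_le_rpow p1.le (psi_mono hβ hh.le hmm) hβ.le
  have s1 : p / m - p' / m' ≤ h * (p' ^ β - p ^ β) := by
    rw [t1, t2, div_sub_div _ _ (by positivity) (by positivity), div_le_iff₀ (by positivity)]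
    have a1 : 1 ≤ (1 + h * p ^ β) * (1 + h * p' ^ β) := by
      have : 0 ≤ h * p ^ β := by positivity
      have : 0 ≤ h * p' ^ β := by positivity
      nlinarith
    have a2 : 0 ≤ h * (p' ^ β - p ^ β) := mul_nonneg hh.le (by linarith)
    nlinarith
  have s2 : p' / p ≤ m' / m := by
    rw [div_le_div_iff₀ p1 hm]
    rw [div_le_div_iff₀ hm' hm] at hr
    linarith
  have s3 : p' ^ β - p ^ β ≤ β * M ^ β * Real.log (m' / m) := by
    have b1 : p ^ β = p' ^ β * Real.exp (-(β * Real.log (p' / p))) := by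
      rw [Real.log_div p2.ne' p1.ne', Real.rpow_def_of_pos p1, Real.rpow_def_of_pos p2,
        ← Real.exp_add]
      congr 1
      ring
    have b2 : 1 - β * Real.log (p' / p) ≤ Real.exp (-(β * Real.log (p' / p))) := by
      have := Real.add_one_le_exp (-(β * Real.log (p' / p)))
      linarith
    have b3 : Real.log (p' / p) ≤ Real.log (m' / m) :=
      Real.log_le_log (by positivity) s2
    have b4 : 0 ≤ Real.log (m' / m) := Real.log_nonneg (by rw [le_div_iff₀ hm]; linarith)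
    have b5 : p' ^ β ≤ M ^ β :=
      Real.rpow_le_rpow p2.le ((psi_le hβ hh.le hm'.le).trans hM) hβ.le
    calc p' ^ β - p ^ β = p' ^ β * (1 - Real.exp (-(β * Real.log (p' / p)))) := by
          rw [b1]; ring
      _ ≤ p' ^ β * (β * Real.log (m' / m)) := by
          refine mul_le_mul_of_nonneg_left ?_ q2.le
          have := mul_le_mul_of_nonneg_left b3 hβ.le
          linarith
      _ ≤ M ^ β * (β * Real.log (m' / m)) := by
          refine mul_le_mul_of_nonneg_right b5 (by positivity)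
      _ = β * M ^ β * Real.log (m' / m) := by ring
  calc p / m - p' / m' ≤ h * (p' ^ β - p ^ β) := s1
    _ ≤ h * (β * M ^ β * Real.log (m' / m)) := mul_le_mul_of_nonneg_left s3 hh.le
    _ = _ := by ring

private theorem Brg1_tt {β h : ℝ} (hβ : 0 < β) (hh : 0 < h) {m m' M : ℝ} (hm : 0 < m)
    (hm' : 0 < m') (hM : m ≤ M) (hM' : m' ≤ M) :
    |psi β h m' / m' - psi β h m / m| ≤ h * β * M ^ β * |Real.log (m' / m)| := by
  rcases le_total m m' with hc | hc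
  · have h1 := Brg1_tt1 hβ hh hm hc hM'
    have h2 := psi_ratio hβ hh.le hm hc
    have h3 : 0 ≤ Real.log (m' / m) := Real.log_nonneg (by rw [le_div_iff₀ hm]; linarith)
    rw [abs_of_nonpos (by linarith), abs_of_nonneg h3]
    linarith
  · have h1 := Brg1_tt1 hβ hh hm' hc hM
    have h2 := psi_ratio hβ hh.le hm' hc
    have h3 : 0 ≤ Real.log (m / m') := Real.log_nonneg (by rw [le_div_iff₀ hm']; linarith)
    have h4 : Real.log (m' / m) = -Real.log (m / m') := by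
      rw [← Real.log_inv, inv_div]
    rw [abs_of_nonneg (by linarith), h4, abs_neg, abs_of_nonneg h3]
    exact h1

private theorem Brg1_JV (β h : ℝ) (w : ℂ) :
    JV β h w = ((psi β h ‖w‖ / ‖w‖ : ℝ) : ℂ) * w := by
  unfold JV
  rw [Complex.real_smul]

private theorem Brg1_exp_hi {A : ℂ} {a : ℝ} (hA : ‖A‖ ≤ a) (ha : a ≤ 1 / 20) :
    ‖Complex.exp A‖ ≤ 10 / 9 := by
  rw [Complex.norm_exp]
  have h1 : A.re ≤ 1 / 20 := (le_abs_self _).trans ((Complex.abs_re_le_norm A).trans (hA.trans ha))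
  have h2 := Real.add_one_le_exp (-A.re)
  have h3 : Real.exp A.re * Real.exp (-A.re) = 1 := by
    rw [← Real.exp_add]; simp
  have h4 := Real.exp_pos A.re
  nlinarith

private theorem Brg1_exp_lo {A : ℂ} {a : ℝ} (hA : ‖A‖ ≤ a) (ha : a ≤ 1 / 20) :
    9 / 10 ≤ ‖Complex.exp A‖ := by
  rw [Complex.norm_exp]
  have h1 : -(1 / 20) ≤ A.re := by
    have := (neg_abs_le A.re)
    have := (Complex.abs_re_le_norm A).trans (hA.trans ha)
    linarith
  have h2 := Real.add_one_le_exp A.re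
  linarith

/-- the one step estimate for complex numbers -/
private theorem Brg1_core {β h k : ℝ} (hβ : 0 < β) (hh : 0 < h) (hk : 0 < k) (hk1 : k ≤ 1)
    {ι : Type} (s : Finset ι) (d : ℕ) (hs : s.card ≤ 2 * d) (f1 f2 : ι → ℂ) (g1 g2 A : ℂ)
    (a K E : ℝ) (hg1 : g1 ≠ 0) (hg2 : g2 ≠ 0) (ha0 : 0 ≤ a) (ha1 : a ≤ 1) (hA : ‖A‖ ≤ 1 / 40)
    (hB : a * ‖Complex.log (g2 / g1)‖ ≤ 1 / 40) (hK0 : 0 ≤ K) (hK1 : K ≤ 1) (hm1 : ‖g1‖ ≤ K)
    (hm2 : ‖g2‖ ≤ K) (hf1 : ∀ v ∈ s, k * ‖f1 v‖ ≤ K * ‖g1‖) (hf2 : ∀ v ∈ s, k * ‖f2 v‖ ≤ K * ‖g2‖)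
    (hE : Real.exp ‖Complex.log (g2 / g1)‖ ≤ E) (h3 : h * 2 ^ β ≤ 1 / 40)
    (h4 : h * (8 * d) ≤ 1 / 40) :
    JV β h (Complex.exp A * g1) + (k * h) • (∑ v ∈ s, f1 v - ((2 * d : ℕ) : ℝ) • g1) ≠ 0 ∧
    JV β h (Complex.exp (A - a * Complex.log (g2 / g1)) * g2) +
        (k * h) • (∑ v ∈ s, f2 v - ((2 * d : ℕ) : ℝ) • g2) ≠ 0 ∧
    ‖Complex.log ((JV β h (Complex.exp (A - a * Complex.log (g2 / g1)) * g2) +
        (k * h) • (∑ v ∈ s, f2 v - ((2 * d : ℕ) : ℝ) • g2)) /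
      (JV β h (Complex.exp A * g1) + (k * h) • (∑ v ∈ s, f1 v - ((2 * d : ℕ) : ℝ) • g1)))‖ ≤
      (1 - a + h * (2 * β * (2 * K) ^ β + 8 * d * K * E + 8 * d * k)) *
        ‖Complex.log (g2 / g1)‖ + 4 * h * k * (∑ v ∈ s, ‖f1 v - f2 v‖) / ‖g2‖ := by
  set δ := Complex.log (g2 / g1) with hδ
  have hexp : Complex.exp δ = g2 / g1 := Complex.exp_log (div_ne_zero hg2 hg1)
  have hg1p : 0 < ‖g1‖ := norm_pos_iff.2 hg1
  have hg2p : 0 < ‖g2‖ := norm_pos_iff.2 hg2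
  set w := Complex.exp A * g1 with hw
  set w' := Complex.exp (A - a * δ) * g2 with hw'
  have hg2e : g2 = Complex.exp δ * g1 := by
    rw [hexp, div_mul_cancel₀ _ hg1]
  have hww : w' = Complex.exp ((1 - a : ℝ) * δ) * w := by
    rw [hw', hw]
    conv_lhs => rw [hg2e]
    rw [← mul_assoc, ← mul_assoc, ← Complex.exp_add, ← Complex.exp_add]
    congr 2
    push_cast
    ring
  have hw0 : w ≠ 0 := mul_ne_zero (Complex.exp_ne_zero _) hg1
  have hw'0 : w' ≠ 0 := mul_ne_zero (Complex.exp_ne_zero _) hg2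
  have hwp : 0 < ‖w‖ := norm_pos_iff.2 hw0
  have hw'p : 0 < ‖w'‖ := norm_pos_iff.2 hw'0
  have hAB : ‖A - a * δ‖ ≤ 1 / 20 := by
    have h1 : ‖(a : ℂ) * δ‖ = a * ‖δ‖ := by
      rw [norm_mul, Complex.norm_real, Real.norm_of_nonneg ha0]
    have h2 := norm_sub_le A (a * δ)
    rw [h1] at h2
    linarith
  -- sizes of `w`, `w'`
  have e1 := Brg1_exp_hi hA (by norm_num)
  have e2 := Brg1_exp_lo hA (by norm_num)
  have e3 := Brg1_exp_hi hAB le_rfl
  have e4 := Brg1_exp_lo hAB le_rfl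
  have nw : ‖w‖ = ‖Complex.exp A‖ * ‖g1‖ := norm_mul _ _
  have nw' : ‖w'‖ = ‖Complex.exp (A - a * δ)‖ * ‖g2‖ := norm_mul _ _
  have w1 : ‖w‖ ≤ 2 * K := by
    rw [nw]
    calc _ ≤ 10 / 9 * K := mul_le_mul e1 hm1 hg1p.le (by norm_num)
      _ ≤ 2 * K := by linarith
  have w1' : ‖w'‖ ≤ 2 * K := by
    rw [nw']
    calc _ ≤ 10 / 9 * K := mul_le_mul e3 hm2 hg2p.le (by norm_num)
      _ ≤ 2 * K := by linarith
  have w2 : 9 / 10 * ‖g1‖ ≤ ‖w‖ := by
    rw [nw]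
    exact mul_le_mul_of_nonneg_right e2 hg1p.le
  have w2' : 9 / 10 * ‖g2‖ ≤ ‖w'‖ := by
    rw [nw']
    exact mul_le_mul_of_nonneg_right e4 hg2p.le
  -- the factors `t`
  set t := psi β h ‖w‖ / ‖w‖ with ht
  set t' := psi β h ‖w'‖ / ‖w'‖ with ht'
  have tb : ∀ m : ℝ, 0 < m → m ≤ 2 → 39 / 40 ≤ psi β h m / m ∧ psi β h m / m ≤ 1 := by
    intro m hm hm2
    have a1 := psi_lower hβ hh.le hm.le
    have a2 := psi_le hβ hh.le hm.le
    have a3 : h * m ^ β ≤ 1 / 40 :=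
      (mul_le_mul_of_nonneg_left (Real.rpow_le_rpow hm.le hm2 hβ.le) hh.le).trans h3
    constructor
    · rw [le_div_iff₀ hm]
      nlinarith
    · rw [div_le_one hm]
      exact a2
  have tb1 := tb ‖w‖ hwp (by linarith)
  have tb2 := tb ‖w'‖ hw'p (by linarith)
  rw [← ht] at tb1
  rw [← ht'] at tb2
  -- the remainders `r`
  set c1 : ℂ := ∑ v ∈ s, f1 v - ((2 * d : ℕ) : ℝ) • g1 with hc1
  set c2 : ℂ := ∑ v ∈ s, f2 v - ((2 * d : ℕ) : ℝ) • g2 with hc2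
  have hdn : (0 : ℝ) ≤ d := Nat.cast_nonneg d
  have hcard : (s.card : ℝ) ≤ 2 * d := by exact_mod_cast hs
  have cb : ∀ (f : ι → ℂ) (g w : ℂ), (∀ v ∈ s, k * ‖f v‖ ≤ K * ‖g‖) → 9 / 10 * ‖g‖ ≤ ‖w‖ →
      0 < ‖g‖ → ‖((k * h : ℝ) : ℂ) * (∑ v ∈ s, f v - ((2 * d : ℕ) : ℝ) • g) / w‖ ≤ 1 / 40 := by
    intro f g w hf hgw hg
    have b1 : k * ‖∑ v ∈ s, f v‖ ≤ 2 * d * ‖g‖ := by
      calc k * ‖∑ v ∈ s, f v‖ ≤ k * ∑ v ∈ s, ‖f v‖ :=
            mul_le_mul_of_nonneg_left (norm_sum_le _ _) hk.le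
        _ = ∑ v ∈ s, k * ‖f v‖ := Finset.mul_sum _ _ _
        _ ≤ ∑ v ∈ s, K * ‖g‖ := Finset.sum_le_sum hf
        _ = s.card * (K * ‖g‖) := by rw [Finset.sum_const, nsmul_eq_mul]
        _ ≤ 2 * d * (1 * ‖g‖) := by
            refine mul_le_mul hcard ?_ (by positivity) (by positivity)
            exact mul_le_mul_of_nonneg_right hK1 hg.le
        _ = 2 * d * ‖g‖ := by ring
    have b2 : ‖(((2 * d : ℕ) : ℝ) • g : ℂ)‖ = 2 * d * ‖g‖ := by
      rw [norm_smul, Real.norm_of_nonneg (Nat.cast_nonneg _)]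
      push_cast
      ring
    have b3 : k * ‖∑ v ∈ s, f v - ((2 * d : ℕ) : ℝ) • g‖ ≤ 4 * d * ‖g‖ := by
      have := norm_sub_le (∑ v ∈ s, f v) (((2 * d : ℕ) : ℝ) • g)
      rw [b2] at this
      have c1 := mul_le_mul_of_nonneg_left this hk.le
      have c2 : k * (2 * d * ‖g‖) ≤ 1 * (2 * d * ‖g‖) :=
        mul_le_mul_of_nonneg_right hk1 (by positivity)
      linarith
    have hwp : 0 < ‖w‖ := lt_of_lt_of_le (by positivity) hgw
    rw [norm_div, norm_mul, Complex.norm_real, Real.norm_of_nonneg (by positivity),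
      div_le_iff₀ hwp]
    calc k * h * ‖∑ v ∈ s, f v - ((2 * d : ℕ) : ℝ) • g‖
        = h * (k * ‖∑ v ∈ s, f v - ((2 * d : ℕ) : ℝ) • g‖) := by ring
      _ ≤ h * (4 * d * ‖g‖) := mul_le_mul_of_nonneg_left b3 hh.le
      _ = (h * (8 * d)) * (1 / 2 * ‖g‖) := by ring
      _ ≤ 1 / 40 * (9 / 10 * ‖g‖) :=
          mul_le_mul h4 (by linarith) (by positivity) (by norm_num)
      _ ≤ 1 / 40 * ‖w‖ := by linarith
  set r : ℂ := ((k * h : ℝ) : ℂ) * c1 / w with hr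
  set r' : ℂ := ((k * h : ℝ) : ℂ) * c2 / w' with hr'
  have rb1 : ‖r‖ ≤ 1 / 40 := cb f1 g1 w hf1 w2 hg1p
  have rb2 : ‖r'‖ ≤ 1 / 40 := cb f2 g2 w' hf2 w2' hg2p
  have X1 : JV β h w + (k * h) • c1 = w * ((t : ℂ) + r) := by
    rw [Brg1_JV, Complex.real_smul, hr, ← ht, mul_add, mul_div_cancel₀ _ hw0]
    ring
  have X2 : JV β h w' + (k * h) • c2 = w' * ((t' : ℂ) + r') := by
    rw [Brg1_JV, Complex.real_smul, hr', ← ht', mul_add, mul_div_cancel₀ _ hw'0]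
    ring
  rw [X1, X2]
  have dn : ∀ (t : ℝ) (r : ℂ), 39 / 40 ≤ t → ‖r‖ ≤ 1 / 40 → 19 / 20 ≤ ‖(t : ℂ) + r‖ := by
    intro t r ht hr
    have b1 : ‖(t : ℂ)‖ = t := by
      rw [Complex.norm_real, Real.norm_of_nonneg (by linarith)]
    have b2 : ‖(t : ℂ)‖ - ‖r‖ ≤ ‖(t : ℂ) + r‖ := by
      have := norm_sub_norm_le (t : ℂ) (-r)
      rwa [norm_neg, sub_neg_eq_add] at this
    rw [b1] at b2
    linarith
  have den := dn t r tb1.1 rb1
  have den' := dn t' r' tb2.1 rb2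
  have den0 : (t : ℂ) + r ≠ 0 := by
    intro hc
    rw [hc, norm_zero] at den
    linarith
  have den0' : (t' : ℂ) + r' ≠ 0 := by
    intro hc
    rw [hc, norm_zero] at den'
    linarith
  refine ⟨mul_ne_zero hw0 den0, mul_ne_zero hw'0 den0', ?_⟩
  set q := ((t' : ℂ) + r') / ((t : ℂ) + r) with hq
  have q1 : ‖q - 1‖ ≤ 20 / 19 * (|t' - t| + ‖r' - r‖) := by
    have b1 : q - 1 = (((t' - t : ℝ) : ℂ) + (r' - r)) / ((t : ℂ) + r) := by
      rw [hq]
      field_simp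
      push_cast
      ring
    rw [b1, norm_div, div_le_iff₀ (by linarith)]
    have b2 := norm_add_le ((t' - t : ℝ) : ℂ) (r' - r)
    rw [Complex.norm_real, Real.norm_eq_abs] at b2
    have b3 : 0 ≤ |t' - t| + ‖r' - r‖ := by positivity
    nlinarith
  have q2 : |t' - t| ≤ 1 / 40 := by
    rw [abs_le]
    constructor <;> linarith [tb1.1, tb1.2, tb2.1, tb2.2]
  have q3 : ‖r' - r‖ ≤ 1 / 20 := (norm_sub_le _ _).trans (by linarith)
  have q4 : ‖q - 1‖ ≤ 1 / 2 := q1.trans (by linarith)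
  have q5 : ‖Complex.log q‖ ≤ 3 / 2 * ‖q - 1‖ := by
    have := Complex.norm_log_one_add_half_le_self q4
    rwa [show 1 + (q - 1) = q by ring] at this
  have q0 : q ≠ 0 := by
    intro hc
    rw [hc] at q4
    norm_num at q4
  have hfr : w' * ((t' : ℂ) + r') / (w * ((t : ℂ) + r)) =
      Complex.exp ((1 - a : ℝ) * δ + Complex.log q) := by
    rw [Complex.exp_add, Complex.exp_log q0, hq, hww]
    field_simp
  rw [hfr]
  refine (Brg1_norm_log_exp _).trans ?_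
  have main1 : ‖((1 - a : ℝ) : ℂ) * δ + Complex.log q‖ ≤ (1 - a) * ‖δ‖ + ‖Complex.log q‖ := by
    refine (norm_add_le _ _).trans ?_
    rw [norm_mul, Complex.norm_real, Real.norm_of_nonneg (by linarith)]
  -- bound of `t' - t`
  have T : |t' - t| ≤ h * β * (2 * K) ^ β * ‖δ‖ := by
    refine (Brg1_tt hβ hh hwp hw'p w1 w1').trans ?_
    refine mul_le_mul_of_nonneg_left ?_ (by positivity)
    have b1 : ‖w'‖ / ‖w‖ = Real.exp ((1 - a) * δ.re) := by
      rw [hww, norm_mul, mul_div_assoc, div_self hwp.ne', mul_one, Complex.norm_exp]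
      congr 1
      rw [Complex.re_ofReal_mul]
    rw [b1, Real.log_exp, abs_mul, abs_of_nonneg (by linarith : (0 : ℝ) ≤ 1 - a)]
    calc (1 - a) * |δ.re| ≤ 1 * ‖δ‖ :=
          mul_le_mul (by linarith) (Complex.abs_re_le_norm δ) (abs_nonneg _) zero_le_one
      _ = ‖δ‖ := one_mul _
  -- bound of `r' - r`
  have R : ‖r' - r‖ ≤ 2 * (h * k * (∑ v ∈ s, ‖f1 v - f2 v‖) / ‖g2‖) +
      h * (4 * d * K * E + 4 * d * k) * ‖δ‖ := by
    have hw'i : w'⁻¹ = Complex.exp (-((1 - a : ℝ) * δ)) * w⁻¹ := by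
      rw [hww, mul_inv, Complex.exp_neg]
    have hg1i : g1 * w⁻¹ = Complex.exp (-A) := by
      rw [hw, mul_inv, Complex.exp_neg]
      field_simp
    have hg2i : g2 * w'⁻¹ = Complex.exp (-A) * Complex.exp (a * δ) := by
      have : Complex.exp (-A) * Complex.exp (a * δ) = (Complex.exp (A - a * δ))⁻¹ := by
        rw [← Complex.exp_neg, ← Complex.exp_add]
        congr 1
        ring
      rw [this, hw', mul_inv]
      field_simp
    have key : r' - r = ((k * h : ℝ) : ℂ) * (∑ v ∈ s, (f2 v - f1 v)) * w'⁻¹ +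
        ((k * h : ℝ) : ℂ) * (∑ v ∈ s, f1 v) * (Complex.exp (-((1 - a : ℝ) * δ)) - 1) * w⁻¹ -
        ((k * h : ℝ) : ℂ) * ((2 * d : ℕ) : ℂ) * (Complex.exp (-A) * (Complex.exp (a * δ) - 1)) := by
      rw [hr', hr, hc1, hc2, div_eq_mul_inv, div_eq_mul_inv, Finset.sum_sub_distrib,
        Complex.real_smul, Complex.real_smul]
      have k1 : Complex.exp (-A) * (Complex.exp (a * δ) - 1) = g2 * w'⁻¹ - g1 * w⁻¹ := by
        rw [hg2i, hg1i]
        ring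
      have k2 : (∑ v ∈ s, f1 v) * (Complex.exp (-((1 - a : ℝ) * δ)) - 1) * w⁻¹ =
          (∑ v ∈ s, f1 v) * (w'⁻¹ - w⁻¹) := by
        rw [hw'i]
        ring
      rw [mul_assoc, mul_assoc (((k * h : ℝ) : ℂ) * (∑ v ∈ s, f1 v)), mul_assoc ((k * h : ℝ) : ℂ)
        (∑ v ∈ s, f1 v), ← mul_assoc (∑ v ∈ s, f1 v), k2, k1]
      push_cast
      ring
    have hex : Real.exp (1 / 40) ≤ 10 / 9 := by
      have b1 := Real.add_one_le_exp (-(1 / 40) : ℝ)
      have b2 : Real.exp (1 / 40) * Real.exp (-(1 / 40)) = 1 := by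
        rw [← Real.exp_add]; simp
      have b3 := Real.exp_pos (1 / 40 : ℝ)
      nlinarith
    have hS0 : 0 ≤ ∑ v ∈ s, ‖f1 v - f2 v‖ := Finset.sum_nonneg fun _ _ => norm_nonneg _
    have N1 : ‖((k * h : ℝ) : ℂ) * (∑ v ∈ s, (f2 v - f1 v)) * w'⁻¹‖ ≤
        2 * (h * k * (∑ v ∈ s, ‖f1 v - f2 v‖) / ‖g2‖) := by
      rw [norm_mul, norm_mul, norm_inv, Complex.norm_real, Real.norm_of_nonneg (by positivity)]
      have b1 : ‖∑ v ∈ s, (f2 v - f1 v)‖ ≤ ∑ v ∈ s, ‖f1 v - f2 v‖ := by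
        refine (norm_sum_le _ _).trans (le_of_eq ?_)
        exact Finset.sum_congr rfl fun v _ => norm_sub_rev _ _
      have b2 : ‖w'‖⁻¹ ≤ 2 * ‖g2‖⁻¹ := by
        rw [← div_eq_mul_inv, inv_eq_one_div, div_le_div_iff₀ hw'p hg2p]
        linarith
      calc k * h * ‖∑ v ∈ s, (f2 v - f1 v)‖ * ‖w'‖⁻¹
          ≤ k * h * (∑ v ∈ s, ‖f1 v - f2 v‖) * (2 * ‖g2‖⁻¹) :=
            mul_le_mul (mul_le_mul_of_nonneg_left b1 (by positivity)) b2 (by positivity)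
              (by positivity)
        _ = _ := by rw [div_eq_mul_inv]; ring
    have hx1 : ‖-(((1 - a : ℝ) : ℂ) * δ)‖ ≤ ‖δ‖ := by
      rw [norm_neg, norm_mul, Complex.norm_real, Real.norm_of_nonneg (by linarith)]
      calc (1 - a) * ‖δ‖ ≤ 1 * ‖δ‖ := mul_le_mul_of_nonneg_right (by linarith) (norm_nonneg _)
        _ = ‖δ‖ := one_mul _
    have N2 : ‖((k * h : ℝ) : ℂ) * (∑ v ∈ s, f1 v) * (Complex.exp (-((1 - a : ℝ) * δ)) - 1) *
        w⁻¹‖ ≤ h * (4 * d * K * E) * ‖δ‖ := by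
      rw [norm_mul, norm_mul, norm_mul, norm_inv, Complex.norm_real,
        Real.norm_of_nonneg (by positivity)]
      have b1 : k * ‖∑ v ∈ s, f1 v‖ ≤ 2 * d * (K * ‖g1‖) := by
        calc k * ‖∑ v ∈ s, f1 v‖ ≤ k * ∑ v ∈ s, ‖f1 v‖ :=
              mul_le_mul_of_nonneg_left (norm_sum_le _ _) hk.le
          _ = ∑ v ∈ s, k * ‖f1 v‖ := Finset.mul_sum _ _ _
          _ ≤ ∑ v ∈ s, K * ‖g1‖ := Finset.sum_le_sum hf1
          _ = s.card * (K * ‖g1‖) := by rw [Finset.sum_const, nsmul_eq_mul]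
          _ ≤ 2 * d * (K * ‖g1‖) := mul_le_mul_of_nonneg_right hcard (by positivity)
      have b2 : ‖Complex.exp (-((1 - a : ℝ) * δ)) - 1‖ ≤ ‖δ‖ * E := by
        refine (Brg1_exp_sub _).trans ?_
        exact mul_le_mul hx1 ((Real.exp_le_exp.2 hx1).trans hE) (Real.exp_pos _).le (norm_nonneg _)
      have hE0 : 0 ≤ E := (Real.exp_pos _).le.trans hE
      have b3 : ‖w‖⁻¹ ≤ 2 * ‖g1‖⁻¹ := by
        rw [← div_eq_mul_inv, inv_eq_one_div, div_le_div_iff₀ hwp hg1p]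
        linarith
      calc k * h * ‖∑ v ∈ s, f1 v‖ * ‖Complex.exp (-((1 - a : ℝ) * δ)) - 1‖ * ‖w‖⁻¹
          = h * (k * ‖∑ v ∈ s, f1 v‖) * ‖Complex.exp (-((1 - a : ℝ) * δ)) - 1‖ * ‖w‖⁻¹ := by ring
        _ ≤ h * (2 * d * (K * ‖g1‖)) * (‖δ‖ * E) * (2 * ‖g1‖⁻¹) := by
            refine mul_le_mul (mul_le_mul (mul_le_mul_of_nonneg_left b1 hh.le) b2 (norm_nonneg _)
              (by positivity)) b3 (by positivity) (by positivity)
        _ = h * (4 * d * K * E) * ‖δ‖ * (‖g1‖ * ‖g1‖⁻¹) := by ring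
        _ = _ := by rw [mul_inv_cancel₀ hg1p.ne', mul_one]
    have N3 : ‖((k * h : ℝ) : ℂ) * ((2 * d : ℕ) : ℂ) *
        (Complex.exp (-A) * (Complex.exp (a * δ) - 1))‖ ≤ h * (4 * d * k) * ‖δ‖ := by
      rw [norm_mul, norm_mul, norm_mul, Complex.norm_real, Real.norm_of_nonneg (by positivity),
        Complex.norm_natCast]
      have b1 : ‖Complex.exp (-A)‖ ≤ 10 / 9 :=
        Brg1_exp_hi (A := -A) (a := 1 / 40) (by rw [norm_neg]; exact hA) (by norm_num)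
      have b0 : ‖(a : ℂ) * δ‖ = a * ‖δ‖ := by
        rw [norm_mul, Complex.norm_real, Real.norm_of_nonneg ha0]
      have b2 : ‖Complex.exp (a * δ) - 1‖ ≤ ‖δ‖ * (10 / 9) := by
        refine (Brg1_exp_sub _).trans ?_
        rw [b0]
        refine mul_le_mul ?_ ((Real.exp_le_exp.2 hB).trans hex) (Real.exp_pos _).le (norm_nonneg _)
        calc a * ‖δ‖ ≤ 1 * ‖δ‖ := mul_le_mul_of_nonneg_right ha1 (norm_nonneg _)
          _ = ‖δ‖ := one_mul _
      calc k * h * ((2 * d : ℕ) : ℝ) * (‖Complex.exp (-A)‖ * ‖Complex.exp (a * δ) - 1‖)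
          ≤ k * h * ((2 * d : ℕ) : ℝ) * (10 / 9 * (‖δ‖ * (10 / 9))) := by
            refine mul_le_mul_of_nonneg_left ?_ (by positivity)
            exact mul_le_mul b1 b2 (norm_nonneg _) (by norm_num)
        _ = h * (200 / 81 * d * k) * ‖δ‖ := by push_cast; ring
        _ ≤ h * (4 * d * k) * ‖δ‖ := by
            refine mul_le_mul_of_nonneg_right ?_ (norm_nonneg _)
            refine mul_le_mul_of_nonneg_left ?_ hh.le
            have : 0 ≤ d * k := by positivity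
            nlinarith
    rw [key]
    refine (norm_sub_le _ _).trans ?_
    refine (add_le_add (norm_add_le _ _) le_rfl).trans ?_
    calc _ ≤ 2 * (h * k * (∑ v ∈ s, ‖f1 v - f2 v‖) / ‖g2‖) + h * (4 * d * K * E) * ‖δ‖ +
          h * (4 * d * k) * ‖δ‖ := add_le_add (add_le_add N1 N2) N3
      _ = _ := by ring
  refine main1.trans ?_
  have hq5 : ‖Complex.log q‖ ≤ 2 * (|t' - t| + ‖r' - r‖) := by
    have b1 : 0 ≤ |t' - t| + ‖r' - r‖ := by positivity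
    linarith
  calc (1 - a) * ‖δ‖ + ‖Complex.log q‖
      ≤ (1 - a) * ‖δ‖ + 2 * (h * β * (2 * K) ^ β * ‖δ‖ +
        (2 * (h * k * (∑ v ∈ s, ‖f1 v - f2 v‖) / ‖g2‖) +
          h * (4 * d * K * E + 4 * d * k) * ‖δ‖)) := by linarith
    _ = _ := by ring

private theorem Brg1_small (c e η : ℝ) (he : 0 < e) (hη : 0 < η) :
    ∃ k1 : ℝ, 0 < k1 ∧ ∀ k : ℝ, 0 < k → k < k1 → c * k ^ e ≤ η := by
  have h0 : 0 < η / (|c| + 1) := by positivity
  refine ⟨(η / (|c| + 1)) ^ (1 / e), Real.rpow_pos_of_pos h0 _, fun k hk hkk => ?_⟩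
  have h1 : k ^ e ≤ η / (|c| + 1) := by
    have h2 := Real.rpow_le_rpow hk.le hkk.le he.le
    rwa [← Real.rpow_mul h0.le, one_div_mul_cancel he.ne', Real.rpow_one] at h2
  have h3 : 0 ≤ k ^ e := Real.rpow_nonneg hk.le _
  calc c * k ^ e ≤ (|c| + 1) * k ^ e :=
        mul_le_mul_of_nonneg_right (by linarith [le_abs_self c]) h3
    _ ≤ (|c| + 1) * (η / (|c| + 1)) := mul_le_mul_of_nonneg_left h1 (by positivity)
    _ = η := by field_simp

private theorem Brg1_ell_nn {k : ℝ} (hk : 0 < k) (hk1 : k < 1) : 0 ≤ ell k := by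
  unfold ell
  exact Real.log_nonneg (by rw [le_div_iff₀ hk]; linarith)

private theorem Brg1_ev (c e η : ℝ) (m : ℕ) (hc : 0 ≤ c) (he : 0 < e) (hη : 0 < η) :
    ∀ᶠ k in nhdsWithin (0 : ℝ) (Set.Ioi 0), c * (k ^ e * ell k ^ m) ≤ η := by
  set ε : ℝ := e / (2 * (m + 1)) with hε
  have hm : (0 : ℝ) ≤ m := Nat.cast_nonneg m
  have hε0 : 0 < ε := by positivity
  have hεm : 0 < e - ε * m := by
    have h1 : ε * m ≤ e / 2 := by
      rw [hε, div_mul_eq_mul_div, div_le_div_iff₀ (by positivity) (by norm_num)]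
      nlinarith
    linarith
  obtain ⟨k1, hk1, H⟩ := Brg1_small (c / ε ^ m) (e - ε * m) η hεm hη
  have h1 : Set.Ioo (0 : ℝ) (min k1 1) ∈ nhdsWithin (0 : ℝ) (Set.Ioi 0) :=
    Ioo_mem_nhdsGT (lt_min hk1 one_pos)
  filter_upwards [h1] with k hk'
  obtain ⟨hk, hkk⟩ := hk'
  have hk1' : k < 1 := hkk.trans_le (min_le_right _ _)
  have hell := Brg1_ell_nn hk hk1'
  have c1 : ell k ≤ k ^ (-ε) / ε := by
    have c2 := Real.log_le_rpow_div (x := 1 / k) (ε := ε) (by positivity) hε0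
    rwa [one_div, Real.inv_rpow hk.le, ← Real.rpow_neg hk.le, ← one_div] at c2
  have c2 : ell k ^ m ≤ k ^ (-(ε * m)) / ε ^ m := by
    refine (pow_le_pow_left₀ hell c1 m).trans (le_of_eq ?_)
    rw [div_pow, ← Real.rpow_natCast (k ^ (-ε)), ← Real.rpow_mul hk.le]
    congr 2
    ring
  calc c * (k ^ e * ell k ^ m) ≤ c * (k ^ e * (k ^ (-(ε * m)) / ε ^ m)) :=
        mul_le_mul_of_nonneg_left (mul_le_mul_of_nonneg_left c2 (Real.rpow_nonneg hk.le _)) hc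
    _ = c / ε ^ m * (k ^ e * k ^ (-(ε * m))) := by ring
    _ = c / ε ^ m * k ^ (e - ε * m) := by
        rw [← Real.rpow_add hk, sub_eq_add_neg]
    _ ≤ η := H k hk (hkk.trans_le (min_le_left _ _))

private theorem Brg1_k0 (d : ℕ) {β κ : ℝ} (hβ : 0 < β) (hκ : 0 < κ) (hκ1 : κ ≤ 1 / 8) :
    ∃ k0 : ℝ, 0 < k0 ∧ k0 < 1 ∧ ∀ k, 0 < k → k < k0 →
      1 ≤ ell k ∧
      (2 * β * (2 * k ^ (κ / 2)) ^ β + 8 * d * k ^ (κ / 2) * (Real.exp 5 * k ^ (-(κ / 16))) +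
        8 * d * k) * (κ / 16 * ell k + 5) ≤ 1 / 2 * k ^ (min 1 β * κ / 8) ∧
      k ^ (min 1 β * κ / 8) * ell k ^ 3 ≤ 1 ∧
      8 * d * k ^ (κ / 2) * (Real.exp 5 * k ^ (-(κ / 16)) + 1) ≤
        1 / 2 * k ^ (min 1 β * κ / 8) ∧
      2 * (κ / 16 * ell k + 6) * k ≤ 1 ∧
      16 * d * k ^ 4 ≤ 1 ∧
      1 + 2 * (κ / 16 * ell k + 6) * Real.exp 10 * k ^ (-(κ / 8)) ≤ k ^ (-(κ / 4)) ∧
      4 * d * k ^ (3 / 8 : ℝ) * ell k ^ 3 ≤ 1 ∧
      k ^ (1 / 2 : ℝ) * Real.exp 1 ≤ 1 := by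
  set κ' := min 1 β * κ / 8 with hκ'
  have hmin : 0 < min 1 β := lt_min one_pos hβ
  have hκ'0 : 0 < κ' := by positivity
  have hκ'1 : κ' ≤ κ / 8 := by
    have := mul_le_mul_of_nonneg_right (min_le_left 1 β) hκ.le
    rw [hκ']
    linarith
  have hκ'2 : κ' ≤ β * κ / 8 := by
    have := mul_le_mul_of_nonneg_right (min_le_right 1 β) hκ.le
    rw [hκ']
    linarith
  have hd : (0 : ℝ) ≤ d := Nat.cast_nonneg d
  set Cc : ℝ := κ / 16 + 6 with hCc
  have hCc0 : 0 < Cc := by positivity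
  have E1 := Brg1_ev (2 * β * 2 ^ β * Cc) (3 * (β * κ) / 8) (1 / 6) 1 (by positivity) (by positivity)
    (by norm_num)
  have E2 := Brg1_ev (8 * d * Real.exp 5 * Cc) (5 * κ / 16) (1 / 6) 1 (by positivity) (by positivity)
    (by norm_num)
  have E3 := Brg1_ev (8 * d * Cc) (1 / 2) (1 / 6) 1 (by positivity) (by norm_num) (by norm_num)
  have E4 := Brg1_ev 1 κ' 1 3 (by norm_num) hκ'0 one_pos
  have E5 := Brg1_ev (8 * d * (Real.exp 5 + 1)) (5 * κ / 16) (1 / 2) 0 (by positivity)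
    (by positivity) (by norm_num)
  have E6 := Brg1_ev (2 * Cc) 1 1 1 (by positivity) one_pos one_pos
  have E7 := Brg1_ev (16 * d) 1 1 0 (by positivity) one_pos one_pos
  have E8 := Brg1_ev 1 (κ / 4) (1 / 2) 0 (by norm_num) (by positivity) (by norm_num)
  have E9 := Brg1_ev (2 * Cc * Real.exp 10) (κ / 8) (1 / 2) 1 (by positivity) (by positivity)
    (by norm_num)
  have E10 := Brg1_ev (4 * d) (3 / 8) 1 3 (by positivity) (by norm_num) one_pos
  have E11 := Brg1_ev (Real.exp 1) (1 / 2) 1 0 (by positivity) (by norm_num) one_pos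
  have E12 : Set.Ioo (0 : ℝ) (Real.exp (-1)) ∈ nhdsWithin (0 : ℝ) (Set.Ioi 0) :=
    Ioo_mem_nhdsGT (Real.exp_pos _)
  have EE := E1.and (E2.and (E3.and (E4.and (E5.and (E6.and (E7.and (E8.and (E9.and (E10.and
    (E11.and E12))))))))))
  obtain ⟨u, hu, HU⟩ := mem_nhdsGT_iff_exists_Ioo_subset.1 EE
  have hu0 : 0 < u := hu
  refine ⟨min u (1 / 2), lt_min hu0 (by norm_num), (min_le_right _ _).trans_lt (by norm_num),
    fun k hk hkk => ?_⟩
  obtain ⟨b1, b2, b3, b4, b5, b6, b7, b8, b9, b10, b11, b12⟩ :=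
    HU ⟨hk, hkk.trans_le (min_le_left _ _)⟩
  have a5 : k < 1 := (hkk.trans_le (min_le_right _ _)).trans (by norm_num)
  have hl : 1 ≤ ell k := by
    unfold ell
    rw [one_div, Real.log_inv]
    have h1 : Real.log k ≤ -1 := by
      rw [← Real.log_exp (-1)]
      exact Real.log_le_log hk b12.2.le
    linarith
  simp only [pow_zero, mul_one, pow_one, Real.rpow_one, one_mul] at b1 b2 b3 b4 b5 b6 b7 b8 b9 b10 b11
  have hp : 0 < k ^ κ' := Real.rpow_pos_of_pos hk _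
  have hmono : ∀ e : ℝ, κ' ≤ e → k ^ e ≤ k ^ κ' := fun e he =>
    Real.rpow_le_rpow_of_exponent_ge hk a5.le he
  have l5 : κ / 16 * ell k + 5 ≤ Cc * ell k := by
    rw [hCc]
    nlinarith
  have l6 : κ / 16 * ell k + 6 ≤ Cc * ell k := by
    rw [hCc]
    nlinarith
  have l50 : 0 ≤ κ / 16 * ell k + 5 := by positivity
  have t1 : 2 * β * (2 * k ^ (κ / 2)) ^ β * (κ / 16 * ell k + 5) ≤ 1 / 6 * k ^ κ' := by
    have c1 : 2 * β * (2 * k ^ (κ / 2)) ^ β =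
        2 * β * 2 ^ β * k ^ (3 * (β * κ) / 8) * k ^ (β * κ / 8) := by
      rw [Real.mul_rpow (by norm_num) (Real.rpow_nonneg hk.le _), ← Real.rpow_mul hk.le,
        mul_assoc (2 * β * 2 ^ β), ← Real.rpow_add hk]
      rw [show κ / 2 * β = 3 * (β * κ) / 8 + β * κ / 8 by ring]
      ring
    have c2 : 0 ≤ 2 * β * 2 ^ β * k ^ (3 * (β * κ) / 8) := by positivity
    rw [c1]
    calc 2 * β * 2 ^ β * k ^ (3 * (β * κ) / 8) * k ^ (β * κ / 8) * (κ / 16 * ell k + 5)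
        = (2 * β * 2 ^ β * k ^ (3 * (β * κ) / 8) * (κ / 16 * ell k + 5)) * k ^ (β * κ / 8) := by
          ring
      _ ≤ (2 * β * 2 ^ β * k ^ (3 * (β * κ) / 8) * (Cc * ell k)) * k ^ (β * κ / 8) :=
          mul_le_mul_of_nonneg_right (mul_le_mul_of_nonneg_left l5 c2) (Real.rpow_nonneg hk.le _)
      _ = (2 * β * 2 ^ β * Cc * (k ^ (3 * (β * κ) / 8) * ell k)) * k ^ (β * κ / 8) := by ring
      _ ≤ 1 / 6 * k ^ κ' := mul_le_mul b1 (hmono _ hκ'2) (Real.rpow_nonneg hk.le _) (by norm_num)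
  have c716 : k ^ (κ / 2) * k ^ (-(κ / 16)) = k ^ (5 * κ / 16) * k ^ (κ / 8) := by
    rw [← Real.rpow_add hk, ← Real.rpow_add hk]
    congr 1
    ring
  have t2 : 8 * d * k ^ (κ / 2) * (Real.exp 5 * k ^ (-(κ / 16))) * (κ / 16 * ell k + 5) ≤
      1 / 6 * k ^ κ' := by
    have c2 : 0 ≤ 8 * (d : ℝ) * Real.exp 5 * k ^ (5 * κ / 16) := by positivity
    calc 8 * d * k ^ (κ / 2) * (Real.exp 5 * k ^ (-(κ / 16))) * (κ / 16 * ell k + 5)
        = 8 * d * Real.exp 5 * (k ^ (κ / 2) * k ^ (-(κ / 16))) * (κ / 16 * ell k + 5) := by ring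
      _ = (8 * d * Real.exp 5 * k ^ (5 * κ / 16) * (κ / 16 * ell k + 5)) * k ^ (κ / 8) := by
          rw [c716]
          ring
      _ ≤ (8 * d * Real.exp 5 * k ^ (5 * κ / 16) * (Cc * ell k)) * k ^ (κ / 8) :=
          mul_le_mul_of_nonneg_right (mul_le_mul_of_nonneg_left l5 c2) (Real.rpow_nonneg hk.le _)
      _ = (8 * d * Real.exp 5 * Cc * (k ^ (5 * κ / 16) * ell k)) * k ^ (κ / 8) := by ring
      _ ≤ 1 / 6 * k ^ κ' := mul_le_mul b2 (hmono _ hκ'1) (Real.rpow_nonneg hk.le _) (by norm_num)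
  have t3 : 8 * d * k * (κ / 16 * ell k + 5) ≤ 1 / 6 * k ^ κ' := by
    have c1 : k = k ^ (1 / 2 : ℝ) * k ^ (1 / 2 : ℝ) := by
      rw [← Real.rpow_add hk]
      norm_num
    have c2 : 0 ≤ 8 * (d : ℝ) * k ^ (1 / 2 : ℝ) := by positivity
    calc 8 * d * k * (κ / 16 * ell k + 5)
        = 8 * d * (k ^ (1 / 2 : ℝ) * k ^ (1 / 2 : ℝ)) * (κ / 16 * ell k + 5) := by rw [← c1]
      _ = (8 * d * k ^ (1 / 2 : ℝ) * (κ / 16 * ell k + 5)) * k ^ (1 / 2 : ℝ) := by ring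
      _ ≤ (8 * d * k ^ (1 / 2 : ℝ) * (Cc * ell k)) * k ^ (1 / 2 : ℝ) :=
          mul_le_mul_of_nonneg_right (mul_le_mul_of_nonneg_left l5 c2) (Real.rpow_nonneg hk.le _)
      _ = (8 * d * Cc * (k ^ (1 / 2 : ℝ) * ell k)) * k ^ (1 / 2 : ℝ) := by ring
      _ ≤ 1 / 6 * k ^ κ' :=
          mul_le_mul b3 (hmono _ (by linarith)) (Real.rpow_nonneg hk.le _) (by norm_num)
  refine ⟨hl, ?_, b4, ?_, ?_, ?_, ?_, ?_, ?_⟩
  · have c1 : (2 * β * (2 * k ^ (κ / 2)) ^ β + 8 * d * k ^ (κ / 2) *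
        (Real.exp 5 * k ^ (-(κ / 16))) + 8 * d * k) * (κ / 16 * ell k + 5) =
        2 * β * (2 * k ^ (κ / 2)) ^ β * (κ / 16 * ell k + 5) +
        8 * d * k ^ (κ / 2) * (Real.exp 5 * k ^ (-(κ / 16))) * (κ / 16 * ell k + 5) +
        8 * d * k * (κ / 16 * ell k + 5) := by ring
    rw [c1]
    linarith
  · have c1 : k ^ (κ / 2) ≤ k ^ (κ / 2) * k ^ (-(κ / 16)) := by
      refine le_mul_of_one_le_right (Real.rpow_nonneg hk.le _) ?_
      exact Real.one_le_rpow_of_pos_of_le_one_of_nonpos hk a5.le (by linarith)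
    calc 8 * d * k ^ (κ / 2) * (Real.exp 5 * k ^ (-(κ / 16)) + 1)
        = 8 * d * (Real.exp 5 * (k ^ (κ / 2) * k ^ (-(κ / 16))) + k ^ (κ / 2)) := by ring
      _ ≤ 8 * d * (Real.exp 5 * (k ^ (κ / 2) * k ^ (-(κ / 16))) +
          k ^ (κ / 2) * k ^ (-(κ / 16))) :=
          mul_le_mul_of_nonneg_left (by linarith) (by positivity)
      _ = (8 * d * (Real.exp 5 + 1) * k ^ (5 * κ / 16)) * k ^ (κ / 8) := by
          rw [c716]
          ring
      _ ≤ 1 / 2 * k ^ κ' := mul_le_mul b5 (hmono _ hκ'1) (Real.rpow_nonneg hk.le _) (by norm_num)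
  · calc 2 * (κ / 16 * ell k + 6) * k ≤ 2 * (Cc * ell k) * k :=
          mul_le_mul_of_nonneg_right (mul_le_mul_of_nonneg_left l6 (by norm_num)) hk.le
      _ = 2 * Cc * (k * ell k) := by ring
      _ ≤ 1 := b6
  · have c1 : k ^ 4 ≤ k := by
      have := pow_le_pow_of_le_one hk.le a5.le (by norm_num : 1 ≤ 4)
      rwa [pow_one] at this
    calc 16 * (d : ℝ) * k ^ 4 ≤ 16 * d * k := mul_le_mul_of_nonneg_left c1 (by positivity)
      _ ≤ 1 := b7
  · have c1 : k ^ (-(κ / 4)) * k ^ (κ / 4) = 1 := by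
      rw [← Real.rpow_add hk]
      simp
    have c2 : k ^ (-(κ / 8)) = k ^ (-(κ / 4)) * k ^ (κ / 8) := by
      rw [← Real.rpow_add hk]
      congr 1
      ring
    have c3 : 0 < k ^ (-(κ / 4)) := Real.rpow_pos_of_pos hk _
    have c4 : 2 * (κ / 16 * ell k + 6) * Real.exp 10 * k ^ (κ / 8) ≤ 1 / 2 := by
      calc 2 * (κ / 16 * ell k + 6) * Real.exp 10 * k ^ (κ / 8)
          = 2 * Real.exp 10 * k ^ (κ / 8) * (κ / 16 * ell k + 6) := by ring
        _ ≤ 2 * Real.exp 10 * k ^ (κ / 8) * (Cc * ell k) :=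
            mul_le_mul_of_nonneg_left l6 (by positivity)
        _ = 2 * Cc * Real.exp 10 * (k ^ (κ / 8) * ell k) := by ring
        _ ≤ 1 / 2 := b9
    have c5 := mul_le_mul_of_nonneg_left c4 c3.le
    have c6 := mul_le_mul_of_nonneg_left b8 c3.le
    rw [c2]
    calc 1 + 2 * (κ / 16 * ell k + 6) * Real.exp 10 * (k ^ (-(κ / 4)) * k ^ (κ / 8))
        = k ^ (-(κ / 4)) * k ^ (κ / 4) +
          k ^ (-(κ / 4)) * (2 * (κ / 16 * ell k + 6) * Real.exp 10 * k ^ (κ / 8)) := by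
          rw [c1]
          ring
      _ ≤ k ^ (-(κ / 4)) * (1 / 2) + k ^ (-(κ / 4)) * (1 / 2) := add_le_add c6 c5
      _ = k ^ (-(κ / 4)) := by ring
  · calc 4 * (d : ℝ) * k ^ (3 / 8 : ℝ) * ell k ^ 3 = 4 * d * (k ^ (3 / 8 : ℝ) * ell k ^ 3) := by
          ring
      _ ≤ 1 := b10
  · rw [mul_comm]
    exact b11

private theorem Brg1_ratio {g1 g2 : ℂ} (hg1 : g1 ≠ 0) (hg2 : g2 ≠ 0) :
    ‖g1‖ ≤ Real.exp ‖Complex.log (g2 / g1)‖ * ‖g2‖ ∧
      ‖g2‖ ≤ Real.exp ‖Complex.log (g2 / g1)‖ * ‖g1‖ := by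
  set δ := Complex.log (g2 / g1) with hδ
  have hexp : Complex.exp δ = g2 / g1 := Complex.exp_log (div_ne_zero hg2 hg1)
  have hg1p : 0 < ‖g1‖ := norm_pos_iff.2 hg1
  have h1 : ‖g2‖ = Real.exp δ.re * ‖g1‖ := by
    rw [← Complex.norm_exp, hexp, norm_div, div_mul_cancel₀ _ hg1p.ne']
  have h2 : |δ.re| ≤ ‖δ‖ := Complex.abs_re_le_norm δ
  constructor
  · rw [h1, ← mul_assoc, ← Real.exp_add]
    refine le_mul_of_one_le_left hg1p.le (Real.one_le_exp ?_)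
    have := neg_abs_le δ.re
    linarith
  · rw [h1]
    exact mul_le_mul_of_nonneg_right (Real.exp_le_exp.2 ((le_abs_self _).trans h2)) hg1p.le

private theorem Brg1_lin {g1 g2 : ℂ} (hg1 : g1 ≠ 0) :
    ‖Complex.log (g2 / g1)‖ ≤
      2 * (1 + ‖Complex.log (g2 / g1)‖) * (‖g1 - g2‖ / ‖g1‖) := by
  have hg1p : 0 < ‖g1‖ := norm_pos_iff.2 hg1
  have h1 : ‖g1 - g2‖ / ‖g1‖ = ‖g2 / g1 - 1‖ := by
    rw [← norm_div, ← norm_neg]
    congr 1
    field_simp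
    ring
  rw [h1]
  have h0 : 0 ≤ ‖Complex.log (g2 / g1)‖ := norm_nonneg _
  rcases le_total ‖g2 / g1 - 1‖ (1 / 2) with h | h
  · have h2 := Complex.norm_log_one_add_half_le_self h
    rw [show 1 + (g2 / g1 - 1) = g2 / g1 by ring] at h2
    have h3 : 0 ≤ ‖g2 / g1 - 1‖ := norm_nonneg _
    have h4 : 0 ≤ ‖Complex.log (g2 / g1)‖ * ‖g2 / g1 - 1‖ := mul_nonneg h0 h3
    nlinarith
  · nlinarith

private theorem Brg1_bd {d L : ℕ} (P : BPar d L) {β k h : ℝ} (hk : 0 < k) (hh : 0 < h)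
    (hOK : P.OK β k h) (K2 : k ^ (min 1 β * P.κ / 8) * ell k ^ 3 ≤ 1) (j : ℕ) (hj : j < P.ns) :
    P.bd j ≤ P.κ / 16 * ell k + 5 := by
  have hm := hOK.hm
  have hm0 := hOK.hm0
  have hς := hOK.hς
  have hns1 := hOK.hns1
  have hA := hOK.hA
  have hς0 : 0 ≤ P.ς := by
    rw [hς]
    exact mul_nonneg hh.le (le_min (Real.rpow_nonneg hk.le _)
      (mul_nonneg (Real.rpow_nonneg hk.le _) hA))
  have hς1 : P.ς ≤ h * k ^ (min 1 β * P.κ / 8) := by
    rw [hς]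
    exact mul_le_mul_of_nonneg_left (min_le_left _ _) hh.le
  have hjr : (j : ℝ) + 1 ≤ P.ns := by exact_mod_cast hj
  have hj0 : (0 : ℝ) ≤ j := Nat.cast_nonneg j
  have hnsp : (0 : ℝ) < P.ns + 1 := by positivity
  have l3 : lamS P.ns j * ((P.ns : ℝ) + 1 - j) ≤ P.ns := by
    unfold lamS
    rw [Finset.sum_mul]
    calc ∑ i ∈ Finset.range j, 1 / ((P.ns : ℝ) - i) * ((P.ns : ℝ) + 1 - j)
        ≤ ∑ i ∈ Finset.range j, (1 : ℝ) := by
          refine Finset.sum_le_sum fun i hi => ?_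
          have hi' : (i : ℝ) + 1 ≤ j := by exact_mod_cast Finset.mem_range.1 hi
          rw [one_div_mul_eq_div, div_le_one (by linarith)]
          linarith
      _ = j := by simp
      _ ≤ P.ns := by linarith
  have l4 : P.m0 / (P.ns + 1) * ((P.ns : ℝ) + 1 - j) ≤ P.m0 := by
    rw [div_mul_eq_mul_div, div_le_iff₀ hnsp]
    exact mul_le_mul_of_nonneg_left (by linarith) hm0
  have l5 : P.ς * P.ns ≤ 1 := by
    calc P.ς * P.ns ≤ h * k ^ (min 1 β * P.κ / 8) * P.ns :=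
          mul_le_mul_of_nonneg_right hς1 (Nat.cast_nonneg _)
      _ = k ^ (min 1 β * P.κ / 8) * (P.ns * h) := by ring
      _ ≤ k ^ (min 1 β * P.κ / 8) * ell k ^ 3 :=
          mul_le_mul_of_nonneg_left hns1 (Real.rpow_nonneg hk.le _)
      _ ≤ 1 := K2
  calc P.bd j = P.m0 / (P.ns + 1) * ((P.ns : ℝ) + 1 - j) +
        P.ς * (lamS P.ns j * ((P.ns : ℝ) + 1 - j)) := by
        unfold BPar.bd
        ring
    _ ≤ P.m0 + P.ς * P.ns := add_le_add l4 (mul_le_mul_of_nonneg_left l3 hς0)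
    _ ≤ P.κ / 16 * ell k + 5 := by linarith

private theorem Brg1_h0 (d : ℕ) (β κ : ℝ) (Y : ℝ) : ∃ h0 : ℝ, 0 < h0 ∧ ∀ h, 0 < h → h < h0 →
    h ≤ 1 ∧ h ^ (3 / 8 : ℝ) ≤ 1 / 40 ∧ h * (κ / 16 * Y + 5) ≤ 1 / 120 ∧
      h * (Y ^ 3 + 1) ≤ (1 / 240) ^ 2 ∧ h * 2 ^ β ≤ 1 / 40 ∧ h * (8 * d) ≤ 1 / 40 := by
  obtain ⟨k1, hk1, H1⟩ := Brg1_small 1 (3 / 8) (1 / 40) (by norm_num) (by norm_num)
  obtain ⟨k2, hk2, H2⟩ := Brg1_small (κ / 16 * Y + 5) 1 (1 / 120) one_pos (by norm_num)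
  obtain ⟨k3, hk3, H3⟩ := Brg1_small (Y ^ 3 + 1) 1 ((1 / 240) ^ 2) one_pos (by norm_num)
  obtain ⟨k4, hk4, H4⟩ := Brg1_small (2 ^ β) 1 (1 / 40) one_pos (by norm_num)
  obtain ⟨k5, hk5, H5⟩ := Brg1_small (8 * d) 1 (1 / 40) one_pos (by norm_num)
  refine ⟨min (min (min k1 k2) (min k3 k4)) (min k5 1), by positivity, fun h hh hhh => ?_⟩
  have a1 : h < k1 := hhh.trans_le
    ((min_le_left _ _).trans ((min_le_left _ _).trans (min_le_left _ _)))
  have a2 : h < k2 := hhh.trans_le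
    ((min_le_left _ _).trans ((min_le_left _ _).trans (min_le_right _ _)))
  have a3 : h < k3 := hhh.trans_le
    ((min_le_left _ _).trans ((min_le_right _ _).trans (min_le_left _ _)))
  have a4 : h < k4 := hhh.trans_le
    ((min_le_left _ _).trans ((min_le_right _ _).trans (min_le_right _ _)))
  have a5 : h < k5 := hhh.trans_le ((min_le_right _ _).trans (min_le_left _ _))
  have a6 : h < 1 := hhh.trans_le ((min_le_right _ _).trans (min_le_right _ _))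
  have b1 := H1 h hh a1
  have b2 := H2 h hh a2
  have b3 := H3 h hh a3
  have b4 := H4 h hh a4
  have b5 := H5 h hh a5
  rw [Real.rpow_one] at b2 b3 b4 b5
  rw [one_mul] at b1
  exact ⟨a6.le, b1, by linarith, by linarith, by linarith, by linarith⟩

theorem brg_step (d : ℕ) (β : ℝ) (hβ : 0 < β) (κ M6 M8 : ℝ) (hκ : 0 < κ) :
    ∃ k0 : ℝ, 0 < k0 ∧ k0 < 1 ∧ ∀ k, 0 < k → k < k0 → ∃ h0 : ℝ, 0 < h0 ∧ ∀ h, 0 < h → h < h0 →
    ∀ (L : ℕ) (P : BPar d L), P.κ = κ → P.M6 = M6 → P.M8 = M8 → P.OK β k h →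
    ∀ j, j < P.ns → ∀ (G : (boxS d L → ℂ) × (boxS d L → ℂ)), P.RegSt k j G →
    ∀ ξ : boxS d L → ℂ, ∀ z, P.Bs z → Real.sqrt h * ‖ξ z‖ ≤ h ^ (3 / 8 : ℝ) →
      (P.bst β k h j G ξ).1 z ≠ 0 ∧ (P.bst β k h j G ξ).2 z ≠ 0 ∧
        ‖Complex.log ((P.bst β k h j G ξ).2 z / (P.bst β k h j G ξ).1 z)‖ ≤ P.bd (j + 1) := by
  by_cases hκ1 : κ ≤ 1 / 8
  swap
  · refine ⟨1 / 2, by norm_num, by norm_num, fun k _ _ => ⟨1, one_pos, ?_⟩⟩
    intro h _ _ L P e1 _ _ hOK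
    exact absurd (e1 ▸ hOK.hκ1) hκ1
  obtain ⟨k0, hk0, hk01, HK⟩ := Brg1_k0 d hβ hκ hκ1
  refine ⟨k0, hk0, hk01, fun k hk hkk => ?_⟩
  obtain ⟨hl, KA, K2, KC, KD, KE, -, -, -⟩ := HK k hk hkk
  obtain ⟨h0, hh0, HH⟩ := Brg1_h0 d β κ (ell k)
  refine ⟨h0, hh0, fun h hh hhh => ?_⟩
  obtain ⟨q1, q2, q3, q4, q5, q6⟩ := HH h hh hhh
  intro L P e1 e2 e3 hOK j hj G hreg ξ z hz hξ
  have hk1 : k ≤ 1 := (hkk.trans hk01).le
  obtain ⟨n1, n2, n3, n4, n5, n6, n7, n8⟩ := hreg.1 z hz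
  rw [e1] at n5 n7 n8
  have hell : 0 ≤ ell k := by linarith
  have hm := hOK.hm
  have hm0 := hOK.hm0
  have hς := hOK.hς
  have hns := hOK.hns
  have hns1 := hOK.hns1
  have hA := hOK.hA
  have hM6 := hOK.hM6
  have hM8 := hOK.hM8
  rw [e1] at hm hς
  have hς0 : 0 ≤ P.ς := by
    rw [hς]
    exact mul_nonneg hh.le (le_min (Real.rpow_nonneg hk.le _)
      (mul_nonneg (Real.rpow_nonneg hk.le _) hA))
  have hς1 : P.ς ≤ h * k ^ (min 1 β * κ / 8) := by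
    rw [hς]
    exact mul_le_mul_of_nonneg_left (min_le_left _ _) hh.le
  have hkκ1 : k ^ (min 1 β * κ / 8) ≤ 1 := by
    have hmin : 0 < min 1 β := lt_min one_pos hβ
    exact Real.rpow_le_one hk.le hk1 (by positivity)
  have hς2 : P.ς ≤ h := hς1.trans (by nlinarith)
  have hjr : (j : ℝ) + 1 ≤ P.ns := by exact_mod_cast hj
  have hj0 : (0 : ℝ) ≤ j := Nat.cast_nonneg j
  have hnsp : (0 : ℝ) < P.ns + 1 := by positivity
  have hden : 0 < (P.ns : ℝ) + 1 - j := by linarith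
  have hden' : 0 < (P.ns : ℝ) - j := by linarith
  obtain ⟨l1, l2⟩ := lamS_le P.ns j hj.le
  -- `|δ|` at the time `j`
  have hbd : P.bd j ≤ κ / 16 * ell k + 5 := by
    have := Brg1_bd P hk hh hOK (by rw [e1]; exact K2) j hj
    rwa [e1] at this
  -- `|√h c|`
  have hsm : P.m0 / (P.ns + 1) + P.ς * lamS P.ns j ≤ 1 / 40 := by
    have l3 : P.m0 / (P.ns + 1) ≤ h * (κ / 16 * ell k + 4) := by
      rw [div_le_iff₀ hnsp]
      have c1 : 1 ≤ h * ((P.ns : ℝ) + 1) := by nlinarith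
      calc P.m0 ≤ P.m0 * (h * ((P.ns : ℝ) + 1)) := le_mul_of_one_le_right hm0 c1
        _ ≤ (κ / 16 * ell k + 4) * (h * ((P.ns : ℝ) + 1)) :=
            mul_le_mul_of_nonneg_right hm (by positivity)
        _ = _ := by ring
    have l4 : h * Real.sqrt (P.ns + 1) ≤ 1 / 240 := by
      refine abs_le_of_sq_le_sq' ?_ (by norm_num) |>.2
      rw [mul_pow, Real.sq_sqrt hnsp.le]
      calc h ^ 2 * ((P.ns : ℝ) + 1) = h * (P.ns * h + h) := by ring
        _ ≤ h * (ell k ^ 3 + 1) := mul_le_mul_of_nonneg_left (by linarith) hh.le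
        _ ≤ (1 / 240) ^ 2 := q4
    have l5 : Real.log (P.ns + 1) ≤ 2 * Real.sqrt (P.ns + 1) := by
      have c1 := Real.log_le_sub_one_of_pos (Real.sqrt_pos.2 hnsp)
      rw [Real.log_sqrt hnsp.le] at c1
      linarith
    have l6 : P.ς * lamS P.ns j ≤ h + 2 * (h * Real.sqrt (P.ns + 1)) := by
      calc P.ς * lamS P.ns j ≤ h * (1 + 2 * Real.sqrt (P.ns + 1)) :=
            mul_le_mul hς2 (by linarith) l1 hh.le
        _ = _ := by ring
    linarith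
  set δ := Complex.log (G.2 z / G.1 z) with hδ
  set a : ℝ := 1 / ((P.ns : ℝ) + 1 - j) with ha
  have ha0 : 0 ≤ a := by positivity
  have ha1 : a ≤ 1 := by
    rw [ha, div_le_one hden]
    linarith
  have haδ : a * ‖δ‖ ≤ 1 / 40 := by
    refine le_trans ?_ hsm
    rw [ha, one_div_mul_eq_div, div_le_iff₀ hden]
    exact n3
  have hE : Real.exp ‖δ‖ ≤ Real.exp 5 * k ^ (-(κ / 16)) := by
    have c1 : k ^ (-(κ / 16)) = Real.exp (κ / 16 * ell k) := by
      unfold ell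
      rw [Real.rpow_def_of_pos hk, one_div, Real.log_inv]
      congr 1
      ring
    rw [c1, ← Real.exp_add]
    exact Real.exp_le_exp.2 (by linarith)
  have hctl : P.ctl k h j G z = -δ / ((Real.sqrt h * (P.ns + 1 - j) : ℝ) : ℂ) := by
    unfold BPar.ctl
    rw [if_pos ⟨hz, hj, hreg⟩]
  have hsq : 0 < Real.sqrt h := Real.sqrt_pos.2 hh
  have hA2 : ‖((Real.sqrt h : ℝ) : ℂ) * ξ z‖ ≤ 1 / 40 := by
    rw [norm_mul, Complex.norm_real, Real.norm_of_nonneg hsq.le]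
    exact hξ.trans q2
  have harg : ((Real.sqrt h : ℝ) : ℂ) * (ξ z + P.ctl k h j G z) =
      ((Real.sqrt h : ℝ) : ℂ) * ξ z - (a : ℂ) * δ := by
    have c1 : ((Real.sqrt h : ℝ) : ℂ) ≠ 0 := by
      exact_mod_cast hsq.ne'
    have c2 : (((P.ns : ℝ) + 1 - j : ℝ) : ℂ) ≠ 0 := by
      exact_mod_cast hden.ne'
    rw [hctl, ha]
    push_cast at c2 ⊢
    field_simp
    ring
  have e4 : (P.bst β k h j G ξ).1 z = JV β h (Complex.exp (((Real.sqrt h : ℝ) : ℂ) * ξ z) * G.1 z) +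
      (k * h) • (∑ v ∈ (boxNet d L).nb z, G.1 v - ((2 * d : ℕ) : ℝ) • G.1 z) := rfl
  have e5 : (P.bst β k h j G ξ).2 z =
      JV β h (Complex.exp (((Real.sqrt h : ℝ) : ℂ) * ξ z - (a : ℂ) * δ) * G.2 z) +
      (k * h) • (∑ v ∈ (boxNet d L).nb z, G.2 v - ((2 * d : ℕ) : ℝ) • G.2 z) := by
    rw [← harg]
    rfl
  rw [e4, e5]
  obtain ⟨z1, z2, z3⟩ := Brg1_core hβ hh hk hk1 ((boxNet d L).nb z) d ((boxNet d L).nb_card z)
    G.1 G.2 (G.1 z)
    (G.2 z) (((Real.sqrt h : ℝ) : ℂ) * ξ z) a (k ^ (κ / 2)) (Real.exp 5 * k ^ (-(κ / 16))) n1 n2 ha0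
    ha1 hA2 haδ (Real.rpow_nonneg hk.le _) (Real.rpow_le_one hk.le hk1 (by positivity)) n5 n7
    (fun v hv => (n8 v hv).1) (fun v hv => (n8 v hv).2) hE q5 q6
  refine ⟨z1, z2, z3.trans ?_⟩
  rw [← hδ]
  have hg1p : 0 < ‖G.1 z‖ := norm_pos_iff.2 n1
  have hg2p : 0 < ‖G.2 z‖ := norm_pos_iff.2 n2
  have hδ0 : 0 ≤ ‖δ‖ := norm_nonneg _
  have hd0 : (0 : ℝ) ≤ d := Nat.cast_nonneg d
  have hcard : (((boxNet d L).nb z).card : ℝ) ≤ 2 * d := by
    exact_mod_cast (boxNet d L).nb_card z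
  have hb1 : P.bd (j + 1) = (P.m0 / (P.ns + 1) + P.ς * lamS P.ns j) * ((P.ns : ℝ) - j) + P.ς := by
    have c1 : lamS P.ns (j + 1) = lamS P.ns j + 1 / ((P.ns : ℝ) - j) := by
      unfold lamS
      rw [Finset.sum_range_succ]
    have c2 : 1 / ((P.ns : ℝ) - j) * ((P.ns : ℝ) - j) = 1 := by
      rw [one_div, inv_mul_cancel₀ hden'.ne']
    unfold BPar.bd
    rw [c1]
    push_cast
    calc (P.m0 / ((P.ns : ℝ) + 1) + P.ς * (lamS P.ns j + 1 / ((P.ns : ℝ) - j))) *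
          ((P.ns : ℝ) + 1 - (j + 1))
        = (P.m0 / ((P.ns : ℝ) + 1) + P.ς * lamS P.ns j) * ((P.ns : ℝ) - j) +
          P.ς * (1 / ((P.ns : ℝ) - j) * ((P.ns : ℝ) - j)) := by ring
      _ = _ := by rw [c2, mul_one]
  have hb2 : (1 - a) * ‖δ‖ ≤
      (P.m0 / (P.ns + 1) + P.ς * lamS P.ns j) * ((P.ns : ℝ) - j) := by
    have c1 : (1 - a) * ((P.ns : ℝ) + 1 - j) = (P.ns : ℝ) - j := by
      rw [ha, sub_mul, one_div, inv_mul_cancel₀ hden.ne']
      ring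
    calc (1 - a) * ‖δ‖ ≤ (1 - a) * P.bd j := mul_le_mul_of_nonneg_left n3 (by linarith)
      _ = (P.m0 / (P.ns + 1) + P.ς * lamS P.ns j) * ((1 - a) * ((P.ns : ℝ) + 1 - j)) := by
          unfold BPar.bd
          ring
      _ = _ := by rw [c1]
  set κ' := min 1 β * κ / 8 with hκ'
  set coef : ℝ := 2 * β * (2 * k ^ (κ / 2)) ^ β + 8 * d * k ^ (κ / 2) *
    (Real.exp 5 * k ^ (-(κ / 16))) + 8 * d * k with hcoef
  set S : ℝ := 4 * h * k * (∑ v ∈ (boxNet d L).nb z, ‖G.1 v - G.2 v‖) / ‖G.2 z‖ with hS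
  have hcoef0 : 0 ≤ coef := by positivity
  have hkey : h * coef * ‖δ‖ + S ≤ P.ς := by
    rw [hς, mul_min_of_nonneg _ _ hh.le]
    have hcoef1 : coef ≤ 1 / 2 := by
      have c1 : coef * 1 ≤ coef * (κ / 16 * ell k + 5) :=
        mul_le_mul_of_nonneg_left (by nlinarith) hcoef0
      linarith
    refine le_min ?_ ?_
    · have s1 : h * coef * ‖δ‖ ≤ h * (1 / 2 * k ^ κ') := by
        calc h * coef * ‖δ‖ = h * (coef * ‖δ‖) := by ring
          _ ≤ h * (coef * (κ / 16 * ell k + 5)) :=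
              mul_le_mul_of_nonneg_left (mul_le_mul_of_nonneg_left (n3.trans hbd) hcoef0) hh.le
          _ ≤ _ := mul_le_mul_of_nonneg_left KA hh.le
      have s2 : S ≤ h * (1 / 2 * k ^ κ') := by
        have c1 : ‖G.1 z‖ ≤ Real.exp 5 * k ^ (-(κ / 16)) * ‖G.2 z‖ :=
          (Brg1_ratio n1 n2).1.trans (mul_le_mul_of_nonneg_right hE hg2p.le)
        have c2 : k * ∑ v ∈ (boxNet d L).nb z, ‖G.1 v - G.2 v‖ ≤
            2 * d * (k ^ (κ / 2) * (Real.exp 5 * k ^ (-(κ / 16)) + 1) * ‖G.2 z‖) := by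
          rw [Finset.mul_sum]
          calc ∑ v ∈ (boxNet d L).nb z, k * ‖G.1 v - G.2 v‖
              ≤ ∑ v ∈ (boxNet d L).nb z,
                k ^ (κ / 2) * (Real.exp 5 * k ^ (-(κ / 16)) + 1) * ‖G.2 z‖ := by
                refine Finset.sum_le_sum fun v hv => ?_
                have c3 := mul_le_mul_of_nonneg_left (norm_sub_le (G.1 v) (G.2 v)) hk.le
                have c4 := (n8 v hv).1
                have c5 := (n8 v hv).2
                have c6 := mul_le_mul_of_nonneg_left c1 (Real.rpow_nonneg hk.le (κ / 2))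
                calc k * ‖G.1 v - G.2 v‖ ≤ k ^ (κ / 2) * ‖G.1 z‖ + k ^ (κ / 2) * ‖G.2 z‖ := by
                      linarith
                  _ ≤ k ^ (κ / 2) * (Real.exp 5 * k ^ (-(κ / 16)) * ‖G.2 z‖) +
                      k ^ (κ / 2) * ‖G.2 z‖ := by linarith
                  _ = _ := by ring
            _ = (((boxNet d L).nb z).card : ℝ) *
                (k ^ (κ / 2) * (Real.exp 5 * k ^ (-(κ / 16)) + 1) * ‖G.2 z‖) := by
                rw [Finset.sum_const, nsmul_eq_mul]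
            _ ≤ _ := mul_le_mul_of_nonneg_right hcard (by positivity)
        rw [hS, div_le_iff₀ hg2p]
        calc 4 * h * k * ∑ v ∈ (boxNet d L).nb z, ‖G.1 v - G.2 v‖
            = 4 * h * (k * ∑ v ∈ (boxNet d L).nb z, ‖G.1 v - G.2 v‖) := by ring
          _ ≤ 4 * h * (2 * d * (k ^ (κ / 2) * (Real.exp 5 * k ^ (-(κ / 16)) + 1) * ‖G.2 z‖)) :=
              mul_le_mul_of_nonneg_left c2 (by positivity)
          _ = h * (8 * d * k ^ (κ / 2) * (Real.exp 5 * k ^ (-(κ / 16)) + 1)) * ‖G.2 z‖ := by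
              ring
          _ ≤ h * (1 / 2 * k ^ κ') * ‖G.2 z‖ :=
              mul_le_mul_of_nonneg_right (mul_le_mul_of_nonneg_left KC hh.le) hg2p.le
      calc h * coef * ‖δ‖ + S ≤ h * (1 / 2 * k ^ κ') + h * (1 / 2 * k ^ κ') := add_le_add s1 s2
        _ = h * k ^ κ' := by ring
    · -- the bound with `A0`
      set R : ℝ := k ^ (-(P.M8 + 2 * P.M6 + 4)) * P.A0 with hR
      have hD : ∀ v, ‖G.1 v - G.2 v‖ ≤ P.A0 * k ^ (-P.M8) := by
        intro v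
        refine (hreg.2 v).trans (mul_le_mul_of_nonneg_left ?_ hA)
        refine Real.rpow_le_rpow_of_exponent_ge hk hk1 ?_
        have : (0 : ℝ) ≤ (boxNet d L).dist P.y v := Nat.cast_nonneg _
        linarith
      have s0 : ‖δ‖ ≤ R := by
        have c1 := Brg1_lin (g2 := G.2 z) n1
        rw [← hδ] at c1
        have c2 : ‖G.1 z - G.2 z‖ / ‖G.1 z‖ ≤ P.A0 * k ^ (-P.M8) * k ^ (-(P.M6 + 1)) := by
          rw [div_le_iff₀ hg1p]
          calc ‖G.1 z - G.2 z‖ ≤ P.A0 * k ^ (-P.M8) := hD z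
            _ = P.A0 * k ^ (-P.M8) * (k ^ (-(P.M6 + 1)) * k ^ (P.M6 + 1)) := by
                rw [← Real.rpow_add hk]
                simp
            _ ≤ P.A0 * k ^ (-P.M8) * (k ^ (-(P.M6 + 1)) * ‖G.1 z‖) := by
                refine mul_le_mul_of_nonneg_left ?_ (by positivity)
                exact mul_le_mul_of_nonneg_left n4 (Real.rpow_nonneg hk.le _)
            _ = _ := by ring
        have c3 : 2 * (1 + ‖δ‖) ≤ k ^ (-1 : ℝ) := by
          have c4 : 2 * (1 + ‖δ‖) * k ≤ 1 := by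
            refine le_trans (mul_le_mul_of_nonneg_right ?_ hk.le) KD
            have := n3.trans hbd
            linarith
          rw [Real.rpow_neg_one, ← one_div, le_div_iff₀ hk]
          exact c4
        calc ‖δ‖ ≤ 2 * (1 + ‖δ‖) * (‖G.1 z - G.2 z‖ / ‖G.1 z‖) := c1
          _ ≤ k ^ (-1 : ℝ) * (P.A0 * k ^ (-P.M8) * k ^ (-(P.M6 + 1))) :=
              mul_le_mul c3 c2 (by positivity) (by positivity)
          _ = k ^ (-(P.M8 + P.M6 + 2)) * P.A0 := by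
              have c4 : k ^ (-(P.M8 + P.M6 + 2)) = k ^ (-1 : ℝ) * k ^ (-P.M8) *
                  k ^ (-(P.M6 + 1)) := by
                rw [← Real.rpow_add hk, ← Real.rpow_add hk]
                congr 1
                ring
              rw [c4]
              ring
          _ ≤ R := by
              rw [hR]
              refine mul_le_mul_of_nonneg_right ?_ hA
              exact Real.rpow_le_rpow_of_exponent_ge hk hk1 (by linarith)
      have hR0 : 0 ≤ R := by positivity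
      have s1 : h * coef * ‖δ‖ ≤ h * (1 / 2 * R) := by
        calc h * coef * ‖δ‖ = h * (coef * ‖δ‖) := by ring
          _ ≤ h * (1 / 2 * R) :=
              mul_le_mul_of_nonneg_left (mul_le_mul hcoef1 s0 hδ0 (by norm_num)) hh.le
      have s2 : S ≤ h * (1 / 2 * R) := by
        have c2 : ∑ v ∈ (boxNet d L).nb z, ‖G.1 v - G.2 v‖ ≤ 2 * d * (P.A0 * k ^ (-P.M8)) := by
          calc ∑ v ∈ (boxNet d L).nb z, ‖G.1 v - G.2 v‖
              ≤ ∑ v ∈ (boxNet d L).nb z, P.A0 * k ^ (-P.M8) :=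
                Finset.sum_le_sum fun v _ => hD v
            _ = (((boxNet d L).nb z).card : ℝ) * (P.A0 * k ^ (-P.M8)) := by
                rw [Finset.sum_const, nsmul_eq_mul]
            _ ≤ _ := mul_le_mul_of_nonneg_right hcard (by positivity)
        have c3 : 16 * d * (P.A0 * k ^ (-P.M8)) * k ≤ R * k ^ (P.M6 + 1) := by
          have c4 : R * k ^ (P.M6 + 1) = P.A0 * k ^ (-P.M8) * (k ^ (-(P.M6 + 3))) := by
            rw [hR]
            have c5 : k ^ (-(P.M8 + 2 * P.M6 + 4)) * k ^ (P.M6 + 1) =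
                k ^ (-P.M8) * k ^ (-(P.M6 + 3)) := by
              rw [← Real.rpow_add hk, ← Real.rpow_add hk]
              congr 1
              ring
            calc k ^ (-(P.M8 + 2 * P.M6 + 4)) * P.A0 * k ^ (P.M6 + 1)
                = P.A0 * (k ^ (-(P.M8 + 2 * P.M6 + 4)) * k ^ (P.M6 + 1)) := by ring
              _ = _ := by rw [c5]; ring
          have c6 : 16 * d * k ≤ k ^ (-(P.M6 + 3)) := by
            have c7 : k ^ (-3 : ℝ) ≤ k ^ (-(P.M6 + 3)) :=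
              Real.rpow_le_rpow_of_exponent_ge hk hk1 (by linarith)
            refine le_trans ?_ c7
            have c8 : k ^ (-3 : ℝ) = 1 / k ^ 3 := by
              rw [Real.rpow_neg hk.le, one_div]
              congr 1
              exact_mod_cast Real.rpow_natCast k 3
            rw [c8, le_div_iff₀ (by positivity)]
            calc 16 * (d : ℝ) * k * k ^ 3 = 16 * d * k ^ 4 := by ring
              _ ≤ 1 := KE
          rw [c4]
          calc 16 * d * (P.A0 * k ^ (-P.M8)) * k = P.A0 * k ^ (-P.M8) * (16 * d * k) := by ring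
            _ ≤ _ := mul_le_mul_of_nonneg_left c6 (by positivity)
        have c9 : R * k ^ (P.M6 + 1) ≤ R * ‖G.2 z‖ := mul_le_mul_of_nonneg_left n6 hR0
        rw [hS, div_le_iff₀ hg2p]
        calc 4 * h * k * ∑ v ∈ (boxNet d L).nb z, ‖G.1 v - G.2 v‖
            ≤ 4 * h * k * (2 * d * (P.A0 * k ^ (-P.M8))) :=
              mul_le_mul_of_nonneg_left c2 (by positivity)
          _ = h * (1 / 2 * (16 * d * (P.A0 * k ^ (-P.M8)) * k)) := by ring
          _ ≤ h * (1 / 2 * (R * ‖G.2 z‖)) := by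
              refine mul_le_mul_of_nonneg_left ?_ hh.le
              linarith
          _ = h * (1 / 2 * R) * ‖G.2 z‖ := by ring
      calc h * coef * ‖δ‖ + S ≤ h * (1 / 2 * R) + h * (1 / 2 * R) := add_le_add s1 s2
        _ = h * R := by ring
  calc (1 - a + h * coef) * ‖δ‖ + S = (1 - a) * ‖δ‖ + (h * coef * ‖δ‖ + S) := by ring
    _ ≤ (P.m0 / (P.ns + 1) + P.ς * lamS P.ns j) * ((P.ns : ℝ) - j) + P.ς :=
        add_le_add hb2 hkey
    _ = P.bd (j + 1) := hb1.symm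

private theorem Brg1_cpl_nn {ι : Type} [Fintype ι] {d : ℕ} (net : Net ι d) (u : ι → ℝ)
    (hu : ∀ w, 0 ≤ u w) (x : ι) : 0 ≤ cpl net u x := by
  unfold cpl
  have h1 : 0 ≤ ∑ y ∈ net.nb x, u y := Finset.sum_nonneg fun y _ => hu y
  have h2 := hu x
  positivity

/-- a step without control -/
private theorem Brg1_nc {d L : ℕ} (P : BPar d L) {β k h : ℝ} (hβ : 0 < β) (hk : 0 < k) (hh : 0 < h)
    (j : ℕ) (G : (boxS d L → ℂ) × (boxS d L → ℂ)) (ξ : boxS d L → ℂ)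
    (hn : ¬ (j < P.ns ∧ P.RegSt k j G)) :
    DStep (boxNet d L) h k (fun x => bC h (ξ x)) (dif G.1 G.2)
      (dif (P.bst β k h j G ξ).1 (P.bst β k h j G ξ).2) := by
  have h1 : (fun z => ξ z + P.ctl k h j G z) = ξ := by
    funext z
    unfold BPar.ctl
    rw [if_neg (fun hc => hn ⟨hc.2.1, hc.2.2⟩), add_zero]
  have h2 : P.bst β k h j G ξ = (st2 d β k h L G.1 ξ, st2 d β k h L G.2 ξ) := by
    unfold BPar.bst
    rw [h1]
  rw [h2]
  exact (PS2 d β k hβ hk.le).dd h L G ξ hh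

/-- any step, with a factor -/
private theorem Brg1_any {d L : ℕ} (P : BPar d L) {β k h κ : ℝ} (hβ : 0 < β) (hk : 0 < k)
    (hk1 : k < 1) (hh : 0 < h) (hκ : 0 < κ) (e1 : P.κ = κ) (hl : 1 ≤ ell k) (hOK : P.OK β k h)
    (K2 : k ^ (min 1 β * κ / 8) * ell k ^ 3 ≤ 1)
    (KF : 1 + 2 * (κ / 16 * ell k + 6) * Real.exp 10 * k ^ (-(κ / 8)) ≤ k ^ (-(κ / 4)))
    (j : ℕ) (G : (boxS d L → ℂ) × (boxS d L → ℂ)) (ξ : boxS d L → ℂ) (z : boxS d L) :
    dif (P.bst β k h j G ξ).1 (P.bst β k h j G ξ).2 z ≤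
      Real.exp (bC h (ξ z)) * (k ^ (-(κ / 4)) * dif G.1 G.2 z) +
        k * h * cpl (boxNet d L) (dif G.1 G.2) z := by
  have hdd := ((PS2 d β k hβ hk.le).dd h L G ξ hh).up z
  have hdd' : ‖st2 d β k h L G.1 ξ z - st2 d β k h L G.2 ξ z‖ ≤
      Real.exp (bC h (ξ z)) * dif G.1 G.2 z + k * h * cpl (boxNet d L) (dif G.1 G.2) z := hdd
  have hD0 : 0 ≤ dif G.1 G.2 z := norm_nonneg _
  have hexp := Real.exp_pos (bC h (ξ z))
  set c := P.ctl k h j G z with hc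
  have hst : ‖st2 d β k h L G.2 ξ z - st2 d β k h L G.2 (fun z => ξ z + P.ctl k h j G z) z‖ ≤
      Real.exp (bC h (ξ z)) * (‖Complex.exp (((Real.sqrt h : ℝ) : ℂ) * c) - 1‖ * ‖G.2 z‖) := by
    have a1 : st2 d β k h L G.2 ξ z - st2 d β k h L G.2 (fun z => ξ z + P.ctl k h j G z) z =
        JV β h (Complex.exp (((Real.sqrt h : ℝ) : ℂ) * ξ z) * G.2 z) -
          JV β h (Complex.exp (((Real.sqrt h : ℝ) : ℂ) * (ξ z + c)) * G.2 z) := by
      change (JV β h (Complex.exp (((Real.sqrt h : ℝ) : ℂ) * ξ z) * G.2 z) +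
          (k * h) • coupV (boxNet d L) G.2 z) -
        (JV β h (Complex.exp (((Real.sqrt h : ℝ) : ℂ) * (ξ z + c)) * G.2 z) +
          (k * h) • coupV (boxNet d L) G.2 z) = _
      rw [add_sub_add_right_eq_sub]
    rw [a1]
    refine (JV_nonexp hβ hh.le _ _).trans (le_of_eq ?_)
    have a2 : Complex.exp (((Real.sqrt h : ℝ) : ℂ) * ξ z) * G.2 z -
        Complex.exp (((Real.sqrt h : ℝ) : ℂ) * (ξ z + c)) * G.2 z =
        Complex.exp (((Real.sqrt h : ℝ) : ℂ) * ξ z) *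
          (-((Complex.exp (((Real.sqrt h : ℝ) : ℂ) * c) - 1) * G.2 z)) := by
      rw [mul_add, Complex.exp_add]
      ring
    rw [a2, norm_mul, norm_neg, norm_mul, Complex.norm_exp]
    congr 2
    unfold bC
    simp
  have hmain : ‖Complex.exp (((Real.sqrt h : ℝ) : ℂ) * c) - 1‖ * ‖G.2 z‖ ≤
      (k ^ (-(κ / 4)) - 1) * dif G.1 G.2 z := by
    have hK1 : 0 ≤ k ^ (-(κ / 4)) - 1 := by
      have : 0 ≤ 2 * (κ / 16 * ell k + 6) * Real.exp 10 * k ^ (-(κ / 8)) := by positivity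
      linarith
    by_cases hr : P.Bs z ∧ j < P.ns ∧ P.RegSt k j G
    swap
    · have a1 : c = 0 := by
        rw [hc]
        unfold BPar.ctl
        rw [if_neg hr]
      rw [a1, mul_zero, Complex.exp_zero, sub_self, norm_zero, zero_mul]
      exact mul_nonneg hK1 hD0
    obtain ⟨hz, hj, hreg⟩ := hr
    obtain ⟨n1, n2, n3, -⟩ := hreg.1 z hz
    have hg1p : 0 < ‖G.1 z‖ := norm_pos_iff.2 n1
    have hbd : P.bd j ≤ κ / 16 * ell k + 5 := by
      have := Brg1_bd P hk hh hOK (by rw [e1]; exact K2) j hj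
      rwa [e1] at this
    have hjr : (j : ℝ) + 1 ≤ P.ns := by exact_mod_cast hj
    have hden : 1 ≤ (P.ns : ℝ) + 1 - j := by linarith
    have hsq : 0 < Real.sqrt h := Real.sqrt_pos.2 hh
    set δ := Complex.log (G.2 z / G.1 z) with hδ
    have a1 : ‖((Real.sqrt h : ℝ) : ℂ) * c‖ ≤ ‖δ‖ := by
      rw [hc]
      unfold BPar.ctl
      rw [if_pos ⟨hz, hj, hreg⟩, norm_mul, norm_div, norm_neg, Complex.norm_real,
        Complex.norm_real, Real.norm_of_nonneg hsq.le, Real.norm_of_nonneg (by positivity)]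
      rw [← mul_div_assoc, mul_div_mul_left _ _ hsq.ne']
      exact div_le_self (norm_nonneg _) hden
    have a2 : ‖Complex.exp (((Real.sqrt h : ℝ) : ℂ) * c) - 1‖ ≤ ‖δ‖ * Real.exp ‖δ‖ := by
      refine (Brg1_exp_sub _).trans ?_
      exact mul_le_mul a1 (Real.exp_le_exp.2 a1) (Real.exp_pos _).le (norm_nonneg _)
    have a3 := (Brg1_ratio n1 n2).2
    rw [← hδ] at a3
    have a4 := Brg1_lin (g2 := G.2 z) n1
    rw [← hδ] at a4
    have a5 : ‖δ‖ * ‖G.1 z‖ ≤ 2 * (κ / 16 * ell k + 6) * dif G.1 G.2 z := by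
      calc ‖δ‖ * ‖G.1 z‖ ≤ 2 * (1 + ‖δ‖) * (‖G.1 z - G.2 z‖ / ‖G.1 z‖) * ‖G.1 z‖ :=
            mul_le_mul_of_nonneg_right a4 hg1p.le
        _ = 2 * (1 + ‖δ‖) * ‖G.1 z - G.2 z‖ := by
            rw [mul_assoc, div_mul_cancel₀ _ hg1p.ne']
        _ ≤ 2 * (κ / 16 * ell k + 6) * ‖G.1 z - G.2 z‖ := by
            refine mul_le_mul_of_nonneg_right ?_ (norm_nonneg _)
            have := n3.trans hbd
            linarith
        _ = _ := rfl
    have a6 : Real.exp ‖δ‖ * Real.exp ‖δ‖ ≤ Real.exp 10 * k ^ (-(κ / 8)) := by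
      have c1 : k ^ (-(κ / 8)) = Real.exp (κ / 8 * ell k) := by
        unfold ell
        rw [Real.rpow_def_of_pos hk, one_div, Real.log_inv]
        congr 1
        ring
      rw [c1, ← Real.exp_add, ← Real.exp_add]
      have := n3.trans hbd
      exact Real.exp_le_exp.2 (by linarith)
    calc ‖Complex.exp (((Real.sqrt h : ℝ) : ℂ) * c) - 1‖ * ‖G.2 z‖
        ≤ (‖δ‖ * Real.exp ‖δ‖) * (Real.exp ‖δ‖ * ‖G.1 z‖) :=
          mul_le_mul a2 a3 (norm_nonneg _) (by positivity)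
      _ = (Real.exp ‖δ‖ * Real.exp ‖δ‖) * (‖δ‖ * ‖G.1 z‖) := by ring
      _ ≤ (Real.exp 10 * k ^ (-(κ / 8))) * (2 * (κ / 16 * ell k + 6) * dif G.1 G.2 z) :=
          mul_le_mul a6 a5 (by positivity) (by positivity)
      _ = (2 * (κ / 16 * ell k + 6) * Real.exp 10 * k ^ (-(κ / 8))) * dif G.1 G.2 z := by ring
      _ ≤ (k ^ (-(κ / 4)) - 1) * dif G.1 G.2 z :=
          mul_le_mul_of_nonneg_right (by linarith) hD0
  have htri : dif (P.bst β k h j G ξ).1 (P.bst β k h j G ξ).2 z ≤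
      ‖st2 d β k h L G.1 ξ z - st2 d β k h L G.2 ξ z‖ +
      ‖st2 d β k h L G.2 ξ z - st2 d β k h L G.2 (fun z => ξ z + P.ctl k h j G z) z‖ :=
    norm_sub_le_norm_sub_add_norm_sub _ _ _
  calc dif (P.bst β k h j G ξ).1 (P.bst β k h j G ξ).2 z
      ≤ (Real.exp (bC h (ξ z)) * dif G.1 G.2 z + k * h * cpl (boxNet d L) (dif G.1 G.2) z) +
        Real.exp (bC h (ξ z)) * ((k ^ (-(κ / 4)) - 1) * dif G.1 G.2 z) :=
        htri.trans (add_le_add hdd' (hst.trans (mul_le_mul_of_nonneg_left hmain hexp.le)))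
    _ = _ := by ring

/-- growth from a time `τ < n` with one step with a factor -/
private theorem Brg1_from {d L : ℕ} {k h K A M : ℝ} (hk : 0 < k) (hk1 : k < 1) (hh : 0 < h)
    (hl : 1 ≤ ell k) (hK : 1 ≤ K) (hA : 0 ≤ A) (hKe : K * Real.exp 1 ≤ k ^ (-1 : ℝ))
    (KG : 4 * d * k ^ (3 / 8 : ℝ) * ell k ^ 3 ≤ 1) (y : boxS d L)
    (D : ℕ → boxS d L → ℝ) (hD0 : ∀ j x, 0 ≤ D j x) (ω : ℕ → boxS d L → ℂ) (τ n : ℕ) (hτ : τ < n)
    (hn : n * h ≤ ell k ^ 3)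
    (hini : ∀ v, D τ v ≤ A * k ^ (-M + ((boxNet d L).dist y v : ℝ) / 2))
    (hst : ∀ z, D (τ + 1) z ≤ Real.exp (bC h (ω τ z)) * (K * D τ z) +
      k * h * cpl (boxNet d L) (D τ) z)
    (hst' : ∀ j, τ < j → j < n → DStep (boxNet d L) h k (fun x => bC h (ω j x)) (D j) (D (j + 1)))
    (x : boxS d L) :
    D n x ≤ A * Real.exp (ell k * ((boxMSet d L).lpp (1 / 8) (fun _ => 0) (gz k h ω) n x +
          M + 1 - ((boxNet d L).dist y x : ℝ) / 2)) := by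
  have hKe' : k = Real.exp (-ell k) := by
    unfold ell
    rw [one_div, Real.log_inv, neg_neg, Real.exp_log hk]
  have hpow : ∀ e : ℝ, k ^ e = Real.exp (-(ell k * e)) := by
    intro e
    conv_lhs => rw [hKe']
    rw [← Real.exp_mul]
    congr 1
    ring
  have hK0 : 0 ≤ K := by linarith
  set D' : ℕ → boxS d L → ℝ := fun j =>
    if j = 0 then (fun v => K * D τ v) else if τ + j ≤ n then D (τ + j) else fun _ => 0 with hD'
  have hD'0 : ∀ j x, 0 ≤ D' j x := by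
    intro j x
    simp only [hD']
    split_ifs
    · exact mul_nonneg hK0 (hD0 _ _)
    · exact hD0 _ _
    · exact le_rfl
  have hDS : ∀ j, DStep (boxNet d L) h k (fun x => bC h (ω (τ + j) x)) (D' j) (D' (j + 1)) := by
    intro j
    refine ⟨hD'0 j, hD'0 (j + 1), fun z => ?_⟩
    have hcn : ∀ i, 0 ≤ k * h * cpl (boxNet d L) (D' i) z := fun i =>
      mul_nonneg (mul_nonneg hk.le hh.le) (Brg1_cpl_nn _ _ (hD'0 i) z)
    have hrhs : 0 ≤ Real.exp (bC h (ω (τ + j) z)) * D' j z + k * h * cpl (boxNet d L) (D' j) z :=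
      add_nonneg (mul_nonneg (Real.exp_pos _).le (hD'0 j z)) (hcn j)
    by_cases hjn : τ + (j + 1) ≤ n
    swap
    · have a1 : D' (j + 1) z = 0 := by
        simp only [hD']
        rw [if_neg (Nat.succ_ne_zero j), if_neg hjn]
      rw [a1]
      exact hrhs
    have a1 : D' (j + 1) = D (τ + (j + 1)) := by
      simp only [hD']
      rw [if_neg (Nat.succ_ne_zero j), if_pos hjn]
    rw [a1]
    rcases Nat.eq_zero_or_pos j with hj | hj
    · subst hj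
      have a2 : D' 0 = fun v => K * D τ v := by
        simp only [hD']
        rw [if_pos trivial]
      rw [a2]
      refine (hst z).trans (add_le_add le_rfl ?_)
      refine mul_le_mul_of_nonneg_left ?_ (mul_nonneg hk.le hh.le)
      unfold cpl
      refine add_le_add ?_ ?_
      · refine Finset.sum_le_sum fun v _ => ?_
        exact le_mul_of_one_le_left (hD0 τ v) hK
      · exact mul_le_mul_of_nonneg_left (le_mul_of_one_le_left (hD0 τ z) hK) (Nat.cast_nonneg _)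
    · have a2 : D' j = D (τ + j) := by
        simp only [hD']
        rw [if_neg hj.ne', if_pos (by omega)]
      rw [a2]
      exact (hst' (τ + j) (by omega) (by omega)).up z
  have hgp := grow_path d L k h (3 / 8) (1 / 8) (1 / 2) (K * A * k ^ (-M)) hk hk1 hh
    (by positivity) (by norm_num) (by norm_num) (by norm_num) (by norm_num)
    (fun j x => bC h (ω (τ + j) x)) D' hDS (fun v => -((boxNet d L).dist y v : ℝ) / 2)
    (fun x y' hy' => by
      have h1 := (boxNet d L).dist_tri y y' x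
      rw [(boxNet d L).dist_comm y' x, (boxNet d L).dist_nb x y' hy'] at h1
      have h2 : ((boxNet d L).dist y x : ℝ) ≤ ((boxNet d L).dist y y' : ℝ) + 1 := by
        exact_mod_cast h1
      linarith)
    (fun v => by
      have a2 : D' 0 = fun v => K * D τ v := by
        simp only [hD']
        rw [if_pos trivial]
      rw [a2]
      calc K * D τ v ≤ K * (A * k ^ (-M + ((boxNet d L).dist y v : ℝ) / 2)) :=
            mul_le_mul_of_nonneg_left (hini v) hK0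
        _ = K * A * k ^ (-M) * Real.exp (ell k * (-((boxNet d L).dist y v : ℝ) / 2)) := by
            rw [Real.rpow_add hk, hpow (((boxNet d L).dist y v : ℝ) / 2)]
            rw [show -(ell k * (((boxNet d L).dist y v : ℝ) / 2)) =
              ell k * (-((boxNet d L).dist y v : ℝ) / 2) by ring]
            ring)
    (n - τ) x
  have a1 : D' (n - τ) x = D n x := by
    simp only [hD']
    rw [if_neg (by omega), if_pos (by omega)]
    congr 1
    omega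
  rw [a1] at hgp
  have a2 : (boxMSet d L).lpp (1 / 8) (fun _ => 0) (fun j y => bC h (ω (τ + j) y) / ell k)
      (n - τ) x ≤ (boxMSet d L).lpp (1 / 8) (fun _ => 0) (gz k h ω) n x := by
    have b1 : (boxMSet d L).lpp (1 / 8) (fun _ => 0) (fun j => gz k h ω (τ + j)) (n - τ) x ≤
        (boxMSet d L).lpp (1 / 8) ((boxMSet d L).lpp (1 / 8) (fun _ => 0) (gz k h ω) τ)
          (fun j => gz k h ω (τ + j)) (n - τ) x :=
      lpp_mono (boxMSet d L) _ _ _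
        (fun z => lpp_nonneg (boxMSet d L) _ _ (fun _ => le_refl 0) (gz k h ω) τ z) _ (n - τ) x
    rw [← lpp_shift, show τ + (n - τ) = n by omega] at b1
    exact b1
  have a3 : (1 + 4 * (d : ℝ) * k ^ (3 / 8 : ℝ) * h) ^ (n - τ) ≤ Real.exp 1 := by
    have b1 : 1 + 4 * (d : ℝ) * k ^ (3 / 8 : ℝ) * h ≤
        Real.exp (4 * (d : ℝ) * k ^ (3 / 8 : ℝ) * h) := by
      have := Real.add_one_le_exp (4 * (d : ℝ) * k ^ (3 / 8 : ℝ) * h)
      linarith
    have b0 : 0 ≤ 4 * (d : ℝ) * k ^ (3 / 8 : ℝ) := by positivity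
    refine (pow_le_pow_left₀ (by positivity) b1 _).trans ?_
    rw [← Real.exp_nat_mul]
    refine Real.exp_le_exp.2 ?_
    have b2 : ((n - τ : ℕ) : ℝ) ≤ n := by exact_mod_cast Nat.sub_le n τ
    calc ((n - τ : ℕ) : ℝ) * (4 * (d : ℝ) * k ^ (3 / 8 : ℝ) * h)
        ≤ (n : ℝ) * (4 * (d : ℝ) * k ^ (3 / 8 : ℝ) * h) :=
          mul_le_mul_of_nonneg_right b2 (by positivity)
      _ = 4 * (d : ℝ) * k ^ (3 / 8 : ℝ) * (n * h) := by ring
      _ ≤ 4 * (d : ℝ) * k ^ (3 / 8 : ℝ) * ell k ^ 3 := mul_le_mul_of_nonneg_left hn b0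
      _ ≤ 1 := KG
  have hkM : 0 ≤ k ^ (-M) := Real.rpow_nonneg hk.le _
  refine hgp.trans ?_
  set W := (boxMSet d L).lpp (1 / 8) (fun _ => 0) (gz k h ω) n x with hW
  calc K * A * k ^ (-M) * (1 + 4 * (d : ℝ) * k ^ (3 / 8 : ℝ) * h) ^ (n - τ) *
        Real.exp (ell k * ((boxMSet d L).lpp (1 / 8) (fun _ => 0)
          (fun j y => bC h (ω (τ + j) y) / ell k) (n - τ) x +
            -((boxNet d L).dist y x : ℝ) / 2))
      ≤ K * A * k ^ (-M) * Real.exp 1 *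
        Real.exp (ell k * (W + -((boxNet d L).dist y x : ℝ) / 2)) := by
        refine mul_le_mul (mul_le_mul_of_nonneg_left a3 (by positivity)) ?_
          (Real.exp_pos _).le (by positivity)
        refine Real.exp_le_exp.2 (mul_le_mul_of_nonneg_left (by linarith) (by linarith))
    _ = A * (K * Real.exp 1) * k ^ (-M) *
        Real.exp (ell k * (W + -((boxNet d L).dist y x : ℝ) / 2)) := by ring
    _ ≤ A * k ^ (-1 : ℝ) * k ^ (-M) *
        Real.exp (ell k * (W + -((boxNet d L).dist y x : ℝ) / 2)) := by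
        refine mul_le_mul_of_nonneg_right (mul_le_mul_of_nonneg_right
          (mul_le_mul_of_nonneg_left hKe hA) hkM) (Real.exp_pos _).le
    _ = A * Real.exp (ell k * (W + M + 1 - ((boxNet d L).dist y x : ℝ) / 2)) := by
        rw [hpow (-1), hpow (-M), mul_assoc A, ← Real.exp_add, mul_assoc A, ← Real.exp_add]
        congr 2
        ring

theorem brg_grow (d : ℕ) (β : ℝ) (hβ : 0 < β) (κ : ℝ) (hκ : 0 < κ) :
    ∃ k0 : ℝ, 0 < k0 ∧ k0 < 1 ∧ ∀ k, 0 < k → k < k0 → ∃ h0 : ℝ, 0 < h0 ∧ ∀ h, 0 < h → h < h0 →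
    ∀ (L : ℕ) (P : BPar d L), P.κ = κ → P.OK β k h →
    ∀ (G : (boxS d L → ℂ) × (boxS d L → ℂ)),
      (∀ v, ‖G.1 v - G.2 v‖ ≤ P.A0 * k ^ (-P.M8 + (boxNet d L).dist P.y v / 2)) →
    ∀ (ω : ℕ → boxS d L → ℂ) (n : ℕ), n * h ≤ ell k ^ 3 → ∀ x,
      ‖(trajT (P.bst β k h) G ω n).1 x - (trajT (P.bst β k h) G ω n).2 x‖ ≤
        P.A0 * Real.exp (ell k * ((boxMSet d L).lpp (1 / 8) (fun _ => 0) (gz k h ω) n x +
          P.M8 + 1 - (boxNet d L).dist P.y x / 2)) := by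
  by_cases hκ1 : κ ≤ 1 / 8
  swap
  · refine ⟨1 / 2, by norm_num, by norm_num, fun k _ _ => ⟨1, one_pos, ?_⟩⟩
    intro h _ _ L P e1 hOK
    exact absurd (e1 ▸ hOK.hκ1) hκ1
  obtain ⟨k0, hk0, hk01, HK⟩ := Brg1_k0 d hβ hκ hκ1
  refine ⟨k0, hk0, hk01, fun k hk hkk => ⟨1, one_pos, fun h hh _ => ?_⟩⟩
  obtain ⟨hl, -, K2, -, -, -, KF, KG, KH⟩ := HK k hk hkk
  intro L P e1 hOK G hG ω n hn x
  have hk1 : k < 1 := hkk.trans hk01
  have hA := hOK.hA
  set K : ℝ := k ^ (-(κ / 4)) with hKdef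
  have hK1 : 1 ≤ K := by
    have : 0 ≤ 2 * (κ / 16 * ell k + 6) * Real.exp 10 * k ^ (-(κ / 8)) := by positivity
    linarith
  have hKe : K * Real.exp 1 ≤ k ^ (-1 : ℝ) := by
    have c1 : K ≤ k ^ (-1 : ℝ) * k ^ (1 / 2 : ℝ) := by
      rw [hKdef, ← Real.rpow_add hk]
      exact Real.rpow_le_rpow_of_exponent_ge hk hk1.le (by linarith)
    calc K * Real.exp 1 ≤ k ^ (-1 : ℝ) * k ^ (1 / 2 : ℝ) * Real.exp 1 :=
          mul_le_mul_of_nonneg_right c1 (Real.exp_pos _).le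
      _ = k ^ (-1 : ℝ) * (k ^ (1 / 2 : ℝ) * Real.exp 1) := by ring
      _ ≤ k ^ (-1 : ℝ) * 1 := mul_le_mul_of_nonneg_left KH (Real.rpow_nonneg hk.le _)
      _ = _ := mul_one _
  rcases Nat.eq_zero_or_pos n with h0 | h0
  · subst h0
    have a1 : ‖G.1 x - G.2 x‖ ≤ P.A0 * k ^ (-P.M8 + ((boxNet d L).dist P.y x : ℝ) / 2) := hG x
    change ‖G.1 x - G.2 x‖ ≤ P.A0 * Real.exp (ell k * (0 + P.M8 + 1 -
      ((boxNet d L).dist P.y x : ℝ) / 2))
    refine a1.trans (mul_le_mul_of_nonneg_left ?_ hA)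
    have hKe' : k = Real.exp (-ell k) := by
      unfold ell
      rw [one_div, Real.log_inv, neg_neg, Real.exp_log hk]
    conv_lhs => rw [hKe']
    rw [← Real.exp_mul]
    refine Real.exp_le_exp.2 ?_
    have : -ell k * (-P.M8 + ((boxNet d L).dist P.y x : ℝ) / 2) =
      ell k * (0 + P.M8 - ((boxNet d L).dist P.y x : ℝ) / 2) := by ring
    rw [this]
    exact mul_le_mul_of_nonneg_left (by linarith) (by linarith)
  classical
  set T : ℕ → (boxS d L → ℂ) × (boxS d L → ℂ) := fun j => trajT (P.bst β k h) G ω j with hT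
  have hTs : ∀ j, T (j + 1) = P.bst β k h j (T j) (ω j) := fun j => rfl
  set τ := Nat.findGreatest (fun j => j < P.ns ∧ P.RegSt k j (T j)) (n - 1) with hτ
  have hτn : τ < n := by
    have := Nat.findGreatest_le (P := fun j => j < P.ns ∧ P.RegSt k j (T j)) (n - 1)
    omega
  have hini : ∀ v, dif (T τ).1 (T τ).2 v ≤
      P.A0 * k ^ (-P.M8 + ((boxNet d L).dist P.y v : ℝ) / 2) := by
    rcases Nat.eq_zero_or_pos τ with h1 | h1
    · rw [h1]
      exact hG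
    · have h2 := Nat.findGreatest_of_ne_zero
        (P := fun j => j < P.ns ∧ P.RegSt k j (T j)) (n := n - 1) hτ.symm h1.ne'
      exact h2.2.2
  refine Brg1_from hk hk1 hh hl hK1 hA hKe KG P.y (fun j => dif (T j).1 (T j).2)
    (fun j x => norm_nonneg _) ω τ n hτn hn hini (fun z => ?_) (fun j hj hjn => ?_) x
  · exact Brg1_any P hβ hk hk1 hh hκ e1 hl hOK K2 KF τ (T τ) (ω τ) z
  · have h1 := Nat.findGreatest_is_greatest (P := fun j => j < P.ns ∧ P.RegSt k j (T j))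
      (n := n - 1) (k := j) hj (by omega)
    exact Brg1_nc P hβ hk hh j (T j) (ω j) h1

end DynC
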