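import Pool.Agent.Lib_MP_36b788c.PSShift

/-!
# Adapted shift on a block of sites: bound by resampling

`res Bs ns ω ω'`: the entries `(j, z)` with `j < ns`, `Bs z` are taken from `ω'`.

PROOF. `P = PI (γ^ι)`, `Z = exp(logZ ns v ω)`, `shift_lintegral`: `∫ Ψ(shft v ω) Z = ∫ Ψ` (for complex bounded `Ψ` by linearity).
* `Z⁻¹ = exp(logZ ns (-v) ω + Σ‖v‖²) ≤ e^Q exp(logZ ns (-v) ω)`, and `∫ exp(logZ ns (-v)) = 1` (`shift_lintegral` with `Φ = 1` for the adapted shift `-v`). So `∫ Z⁻¹ ≤ e^Q`, and `∫ (Z-1)²/Z = ∫ Z⁻¹ - 2 + ∫ Z ≤ e^Q - 1`.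
* `tilt_bd`: `Ψ ω = ∫ Φ(res ω ω') dω'` does not depend on the entries `(j,z)`, `j < ns`, `Bs z`, so `Ψ(shft v ω) = Ψ ω`. `∫ Φ - ∫ Φ∘shft = ∫ (Φ∘shft)(Z - 1) = ∫ ((Φ - Ψ)∘shft)(Z-1)` since `∫ Ψ Z = ∫ Ψ`. Cauchy-Schwarz with `|Z-1| = (|Z-1|/√Z) √Z`: `≤ (∫ |Φ-Ψ|²∘shft Z)^{1/2} (∫ (Z-1)²/Z)^{1/2} = (∫|Φ-Ψ|²)^{1/2}(e^Q-1)^{1/2}`; Jensen: `|Φ ω - Ψ ω|² ≤ ∫ |Φ ω - Φ(res ω ω')|² dω'`.
* `tilt_mom`: `∫ Ψ∘shft = ∫ (Ψ∘shft √Z)(1/√Z) ≤ (∫ Ψ²∘shft Z)^{1/2} (∫ Z⁻¹)^{1/2} ≤ (∫Ψ²)^{1/2} e^{Q/2}`.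
* `res_map`: the image of `P ⊗ P` under `res` is `P` (product structure).
-/

open MeasureTheory ProbabilityTheory
open scoped ENNReal

namespace DynC

variable {ι V : Type} [Fintype ι] [NormedAddCommGroup V] [InnerProductSpace ℝ V]
  [MeasurableSpace V] [BorelSpace V] [SecondCountableTopology V] {γ : Measure V}
  [IsProbabilityMeasure γ]

/-- resampling of a block -/
noncomputable def res (Bs : ι → Prop) (ns : ℕ) (ω ω' : ℕ → ι → V) : ℕ → ι → V :=
  fun j z => open Classical in if j < ns ∧ Bs z then ω' j z else ω j z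

theorem measurable_res (Bs : ι → Prop) (ns : ℕ) :
    Measurable fun p : (ℕ → ι → V) × (ℕ → ι → V) => res Bs ns p.1 p.2 := by
  classical
  refine measurable_pi_lambda _ fun j => measurable_pi_lambda _ fun z => ?_
  unfold res
  by_cases h : j < ns ∧ Bs z
  · simp only [if_pos h]
    exact (measurable_pi_apply z).comp ((measurable_pi_apply j).comp measurable_snd)
  · simp only [if_neg h]
    exact (measurable_pi_apply z).comp ((measurable_pi_apply j).comp measurable_fst)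

/-- one time: mixing of two configurations -/
private noncomputable def Tilt_mix (Bs : ι → Prop) (b : Prop) (a c : ι → V) : ι → V :=
  fun z => open Classical in if b ∧ Bs z then c z else a z

private theorem Tilt_meas_mix (Bs : ι → Prop) (b : Prop) :
    Measurable fun p : (ι → V) × (ι → V) => Tilt_mix Bs b p.1 p.2 := by
  classical
  refine measurable_pi_lambda _ fun z => ?_
  unfold Tilt_mix
  by_cases h : b ∧ Bs z
  · simp only [if_pos h]
    exact (measurable_pi_apply z).comp measurable_snd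
  · simp only [if_neg h]
    exact (measurable_pi_apply z).comp measurable_fst

private theorem Tilt_map_mix (Bs : ι → Prop) (b : Prop) :
    ((Measure.pi fun _ : ι => γ).prod (Measure.pi fun _ : ι => γ)).map
      (fun p => Tilt_mix Bs b p.1 p.2) = Measure.pi fun _ : ι => γ := by
  classical
  symm
  apply Measure.pi_eq
  intro s hs
  rw [Measure.map_apply (Tilt_meas_mix Bs b) (MeasurableSet.univ_pi hs)]
  have hpre : (fun p : (ι → V) × (ι → V) => Tilt_mix Bs b p.1 p.2) ⁻¹' (Set.univ.pi s)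
      = (Set.univ.pi fun z => if b ∧ Bs z then Set.univ else s z) ×ˢ
        (Set.univ.pi fun z => if b ∧ Bs z then s z else Set.univ) := by
    ext p
    simp only [Set.mem_preimage, Set.mem_pi, Set.mem_univ, forall_true_left, Set.mem_prod]
    constructor
    · intro h
      refine ⟨fun z => ?_, fun z => ?_⟩
      · by_cases hz : b ∧ Bs z
        · rw [if_pos hz]; exact Set.mem_univ _
        · rw [if_neg hz]
          have := h z
          unfold Tilt_mix at this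
          rwa [if_neg hz] at this
      · by_cases hz : b ∧ Bs z
        · rw [if_pos hz]
          have := h z
          unfold Tilt_mix at this
          rwa [if_pos hz] at this
        · rw [if_neg hz]; exact Set.mem_univ _
    · rintro ⟨h1, h2⟩ z
      unfold Tilt_mix
      by_cases hz : b ∧ Bs z
      · rw [if_pos hz]
        have := h2 z
        rwa [if_pos hz] at this
      · rw [if_neg hz]
        have := h1 z
        rwa [if_neg hz] at this
  rw [hpre, Measure.prod_prod, Measure.pi_pi, Measure.pi_pi, ← Finset.prod_mul_distrib]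
  apply Finset.prod_congr rfl
  intro z _
  by_cases hz : b ∧ Bs z
  · rw [if_pos hz, if_pos hz, measure_univ, one_mul]
  · rw [if_neg hz, if_neg hz, measure_univ, mul_one]

private theorem Tilt_res_mix (Bs : ι → Prop) (ns : ℕ) (ω ω' : ℕ → ι → V) (j : ℕ) :
    res Bs ns ω ω' j = Tilt_mix Bs (j < ns) (ω j) (ω' j) := by
  funext z
  unfold res Tilt_mix
  by_cases h : j < ns ∧ Bs z
  · rw [if_pos h, if_pos h]
  · rw [if_neg h, if_neg h]

theorem res_map (Bs : ι → Prop) (ns : ℕ) :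
    ((PI (Measure.pi fun _ : ι => γ)).prod (PI (Measure.pi fun _ : ι => γ))).map
      (fun p => res Bs ns p.1 p.2) = PI (Measure.pi fun _ : ι => γ) := by
  classical
  set μ : Measure (ι → V) := Measure.pi fun _ : ι => γ with hμ
  show ((PI μ).prod (PI μ)).map (fun p => res Bs ns p.1 p.2) = Measure.infinitePi (fun _ : ℕ => μ)
  refine Measure.eq_infinitePi _ ?_
  intro s t ht
  have hms : MeasurableSet ((s : Set ℕ).pi t) :=
    MeasurableSet.pi s.countable_toSet (fun i _ => ht i)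
  rw [Measure.map_apply (measurable_res Bs ns) hms,
    Measure.prod_apply ((measurable_res Bs ns) hms)]
  set g : ℕ → (ι → V) → ℝ≥0∞ := fun j a => μ {c | Tilt_mix Bs (j < ns) a c ∈ t j} with hg
  have hgm : ∀ j, Measurable (g j) := by
    intro j
    exact measurable_measure_prodMk_left ((Tilt_meas_mix Bs (j < ns)) (ht j))
  have h1 : ∀ ω : ℕ → ι → V, (PI μ) (Prod.mk ω ⁻¹'
      ((fun p : (ℕ → ι → V) × (ℕ → ι → V) => res Bs ns p.1 p.2) ⁻¹' ((s : Set ℕ).pi t)))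
      = ∏ j ∈ s, g j (ω j) := by
    intro ω
    have e1 : (Prod.mk ω ⁻¹'
        ((fun p : (ℕ → ι → V) × (ℕ → ι → V) => res Bs ns p.1 p.2) ⁻¹' ((s : Set ℕ).pi t)))
        = (s : Set ℕ).pi (fun j => {c | Tilt_mix Bs (j < ns) (ω j) c ∈ t j}) := by
      ext ω'
      simp only [Set.mem_preimage, Set.mem_pi, Tilt_res_mix]
      rfl
    rw [e1]
    unfold PI
    rw [Measure.infinitePi_pi _ (fun j _ => ?_)]
    exact ((Tilt_meas_mix Bs (j < ns)).comp (measurable_const.prodMk measurable_id)) (ht j)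
  rw [lintegral_congr h1]
  have h2 : iIndepFun (fun (j : ℕ) (ω : ℕ → ι → V) => g j (ω j)) (PI μ) := by
    unfold PI
    exact iIndepFun_infinitePi (P := fun _ : ℕ => μ) (X := g) hgm
  rw [lintegral_prod_eq_prod_lintegral_of_indepFun s _ h2
    (fun j => (hgm j).comp (measurable_pi_apply j))]
  apply Finset.prod_congr rfl
  intro j _
  have h3 : ∫⁻ ω, g j (ω j) ∂(PI μ) = ∫⁻ a, g j a ∂μ := by
    have h := lintegral_map (μ := PI μ) (hgm j) (measurable_pi_apply (X := fun _ : ℕ => ι → V) j)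
    have h' := map_coord (μ := μ) j
    rw [h'] at h
    exact h.symm
  rw [h3]
  have h4 := Measure.prod_apply (μ := μ) (ν := μ) ((Tilt_meas_mix Bs (j < ns)) (ht j))
  have h5 : ((μ.prod μ).map (fun p => Tilt_mix Bs (j < ns) p.1 p.2)) (t j) = μ (t j) := by
    rw [hμ, Tilt_map_mix]
  rw [Measure.map_apply (Tilt_meas_mix Bs (j < ns)) (ht j), h4] at h5
  exact h5

private theorem Tilt_meas_shft (v : ℕ → (ℕ → ι → V) → ι → V) (hv : ∀ j, Measurable (v j)) :
    Measurable (shft v) := by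
  refine measurable_pi_lambda _ fun j => measurable_pi_lambda _ fun x => ?_
  have h1 : Measurable fun ω : ℕ → ι → V => ω j x :=
    (measurable_pi_apply x).comp (measurable_pi_apply j)
  have h2 : Measurable fun ω : ℕ → ι → V => v j ω x := (measurable_pi_apply x).comp (hv j)
  exact h1.add h2

private theorem Tilt_meas_logZ (n : ℕ) (v : ℕ → (ℕ → ι → V) → ι → V)
    (hv : ∀ j, Measurable (v j)) : Measurable (logZ n v) := by
  unfold logZ
  refine Finset.measurable_fun_sum _ fun j _ => Finset.measurable_fun_sum _ fun x _ => ?_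
  have h1 : Measurable fun ω : ℕ → ι → V => ω j x :=
    (measurable_pi_apply x).comp (measurable_pi_apply j)
  have h2 : Measurable fun ω : ℕ → ι → V => v j ω x := (measurable_pi_apply x).comp (hv j)
  exact (h2.inner h1).neg.sub ((h2.norm.pow_const 2).div_const 2)

private theorem Tilt_logZ_neg (n : ℕ) (v : ℕ → (ℕ → ι → V) → ι → V) (ω : ℕ → ι → V) :
    -(logZ n v ω) = logZ n (fun j ω x => - v j ω x) ω +
      ∑ j ∈ Finset.range n, ∑ x, ‖v j ω x‖ ^ 2 := by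
  unfold logZ
  rw [← Finset.sum_neg_distrib, ← Finset.sum_add_distrib]
  apply Finset.sum_congr rfl
  intro j _
  rw [← Finset.sum_neg_distrib, ← Finset.sum_add_distrib]
  apply Finset.sum_congr rfl
  intro x _
  rw [inner_neg_left, norm_neg]
  ring

private theorem Tilt_Z_one (hγ : CMart γ) (n : ℕ) (v : ℕ → (ℕ → ι → V) → ι → V)
    (hv : ∀ j, Measurable (v j)) (hd : ∀ j, Dep j (v j)) (hv0 : ∀ j, n ≤ j → ∀ ω, v j ω = 0) :
    ∫⁻ ω, ENNReal.ofReal (Real.exp (logZ n v ω)) ∂(PI (Measure.pi fun _ : ι => γ)) = 1 := by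
  have h1 := shift_lintegral hγ n v hv hd hv0 (fun _ => 1) measurable_const
  simp only [one_mul, lintegral_one, measure_univ] at h1
  exact h1

private theorem Tilt_Zinv (hγ : CMart γ) (n : ℕ) (v : ℕ → (ℕ → ι → V) → ι → V)
    (hv : ∀ j, Measurable (v j)) (hd : ∀ j, Dep j (v j)) (hv0 : ∀ j, n ≤ j → ∀ ω, v j ω = 0)
    (Q : ℝ) (hQv : ∀ ω, ∑ j ∈ Finset.range n, ∑ x, ‖v j ω x‖ ^ 2 ≤ Q) :
    ∫⁻ ω, ENNReal.ofReal (Real.exp (-(logZ n v ω))) ∂(PI (Measure.pi fun _ : ι => γ)) ≤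
      ENNReal.ofReal (Real.exp Q) := by
  have hw : ∀ j, Measurable ((fun j ω x => - v j ω x : ℕ → (ℕ → ι → V) → ι → V) j) := by
    intro j
    refine measurable_pi_lambda _ fun x => ?_
    exact ((measurable_pi_apply x).comp (hv j)).neg
  have hwd : ∀ j, Dep j ((fun j ω x => - v j ω x : ℕ → (ℕ → ι → V) → ι → V) j) := by
    intro j a b hab
    funext x
    show - v j a x = - v j b x
    rw [hd j a b hab]
  have hw0 : ∀ j, n ≤ j → ∀ ω, (fun j ω x => - v j ω x : ℕ → (ℕ → ι → V) → ι → V) j ω = 0 := by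
    intro j hj ω
    funext x
    show - v j ω x = 0
    rw [hv0 j hj ω]
    simp
  have h1 := Tilt_Z_one hγ n _ hw hwd hw0
  calc ∫⁻ ω, ENNReal.ofReal (Real.exp (-(logZ n v ω))) ∂(PI (Measure.pi fun _ : ι => γ))
      ≤ ∫⁻ ω, ENNReal.ofReal (Real.exp Q) *
          ENNReal.ofReal (Real.exp (logZ n (fun j ω x => - v j ω x) ω))
          ∂(PI (Measure.pi fun _ : ι => γ)) := by
        apply lintegral_mono
        intro ω
        show ENNReal.ofReal (Real.exp (-(logZ n v ω))) ≤ ENNReal.ofReal (Real.exp Q) *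
          ENNReal.ofReal (Real.exp (logZ n (fun j ω x => - v j ω x) ω))
        rw [← ENNReal.ofReal_mul (Real.exp_pos _).le, ← Real.exp_add, Tilt_logZ_neg]
        apply ENNReal.ofReal_le_ofReal
        apply Real.exp_le_exp.mpr
        linarith [hQv ω]
    _ = ENNReal.ofReal (Real.exp Q) := by
        rw [lintegral_const_mul' _ _ ENNReal.ofReal_ne_top, h1, mul_one]

private theorem Tilt_cs {Ω : Type} [MeasurableSpace Ω] (P : Measure Ω) (f g : Ω → ℝ≥0∞)
    (hf : Measurable f) (hg : Measurable g) :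
    ∫⁻ ω, f ω * g ω ∂P ≤ (∫⁻ ω, f ω ^ 2 ∂P) ^ (1 / 2 : ℝ) * (∫⁻ ω, g ω ^ 2 ∂P) ^ (1 / 2 : ℝ) := by
  have h := ENNReal.lintegral_mul_le_Lp_mul_Lq P Real.HolderConjugate.two_two hf.aemeasurable
    hg.aemeasurable
  simp only [ENNReal.rpow_two, Pi.mul_apply] at h
  exact h

private theorem Tilt_half_sq (a : ℝ) :
    ENNReal.ofReal (Real.exp (a / 2)) ^ 2 = ENNReal.ofReal (Real.exp a) := by
  rw [← ENNReal.ofReal_pow (Real.exp_pos _).le, ← Real.exp_nat_mul]
  congr 2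
  push_cast
  ring

theorem tilt_mom (hγ : CMart γ) (ns : ℕ) (v : ℕ → (ℕ → ι → V) → ι → V)
    (hv : ∀ j, Measurable (v j)) (hd : ∀ j, Dep j (v j)) (hv0 : ∀ j, ns ≤ j → ∀ ω, v j ω = 0)
    (Q : ℝ) (hQ : 0 ≤ Q) (hQv : ∀ ω, ∑ j ∈ Finset.range ns, ∑ x, ‖v j ω x‖ ^ 2 ≤ Q)
    (Ψ : (ℕ → ι → V) → ℝ≥0∞) (hΨ : Measurable Ψ) :
    ∫⁻ ω, Ψ (shft v ω) ∂(PI (Measure.pi fun _ : ι => γ)) ≤
      ENNReal.ofReal (Real.exp (Q / 2)) *
        (∫⁻ ω, Ψ ω ^ 2 ∂(PI (Measure.pi fun _ : ι => γ))) ^ (1 / 2 : ℝ) := by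
  have hsm := Tilt_meas_shft v hv
  have hlm := Tilt_meas_logZ ns v hv
  have hf : Measurable fun ω => Ψ (shft v ω) * ENNReal.ofReal (Real.exp (logZ ns v ω / 2)) :=
    (hΨ.comp hsm).mul (ENNReal.measurable_ofReal.comp
      (Real.measurable_exp.comp (hlm.div_const 2)))
  have hg : Measurable fun ω => ENNReal.ofReal (Real.exp (-(logZ ns v ω) / 2)) :=
    ENNReal.measurable_ofReal.comp (Real.measurable_exp.comp (hlm.neg.div_const 2))
  have h1 := Tilt_cs (PI (Measure.pi fun _ : ι => γ)) _ _ hf hg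
  have e1 : ∀ ω, Ψ (shft v ω) * ENNReal.ofReal (Real.exp (logZ ns v ω / 2)) *
      ENNReal.ofReal (Real.exp (-(logZ ns v ω) / 2)) = Ψ (shft v ω) := by
    intro ω
    rw [mul_assoc, ← ENNReal.ofReal_mul (Real.exp_pos _).le, ← Real.exp_add]
    rw [show logZ ns v ω / 2 + -(logZ ns v ω) / 2 = 0 by ring, Real.exp_zero, ENNReal.ofReal_one,
      mul_one]
  have e2 : ∀ ω, (Ψ (shft v ω) * ENNReal.ofReal (Real.exp (logZ ns v ω / 2))) ^ 2 =
      (fun η => Ψ η ^ 2) (shft v ω) * ENNReal.ofReal (Real.exp (logZ ns v ω)) := by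
    intro ω
    rw [mul_pow, Tilt_half_sq]
  have e3 : ∀ ω, ENNReal.ofReal (Real.exp (-(logZ ns v ω) / 2)) ^ 2 =
      ENNReal.ofReal (Real.exp (-(logZ ns v ω))) := fun ω => Tilt_half_sq _
  rw [lintegral_congr e1, lintegral_congr e2, lintegral_congr e3,
    shift_lintegral hγ ns v hv hd hv0 (fun η => Ψ η ^ 2) (hΨ.pow_const 2)] at h1
  refine h1.trans ?_
  rw [mul_comm]
  gcongr
  refine (ENNReal.rpow_le_rpow (Tilt_Zinv hγ ns v hv hd hv0 Q hQv) (by norm_num)).trans ?_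
  rw [ENNReal.ofReal_rpow_of_pos (Real.exp_pos _), ← Real.exp_mul]
  apply le_of_eq
  congr 2
  ring

/-- image of the tilted law -/
private theorem Tilt_map (hγ : CMart γ) (ns : ℕ) (v : ℕ → (ℕ → ι → V) → ι → V)
    (hv : ∀ j, Measurable (v j)) (hd : ∀ j, Dep j (v j)) (hv0 : ∀ j, ns ≤ j → ∀ ω, v j ω = 0) :
    ((PI (Measure.pi fun _ : ι => γ)).withDensity
      (fun ω => ENNReal.ofReal (Real.exp (logZ ns v ω)))).map (shft v) =
      PI (Measure.pi fun _ : ι => γ) := by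
  have hsm := Tilt_meas_shft v hv
  have hlm := Tilt_meas_logZ ns v hv
  have hW : Measurable fun ω => ENNReal.ofReal (Real.exp (logZ ns v ω)) :=
    ENNReal.measurable_ofReal.comp (Real.measurable_exp.comp hlm)
  ext s hs
  rw [Measure.map_apply hsm hs, withDensity_apply _ (hsm hs), ← lintegral_indicator (hsm hs)]
  have h1 := shift_lintegral hγ ns v hv hd hv0 (s.indicator fun _ => 1)
    (measurable_const.indicator hs)
  rw [lintegral_indicator hs, lintegral_const, Measure.restrict_apply MeasurableSet.univ,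
    Set.univ_inter, one_mul] at h1
  rw [← h1]
  apply lintegral_congr
  intro ω
  by_cases h : shft v ω ∈ s
  · rw [Set.indicator_of_mem (show ω ∈ shft v ⁻¹' s from h), Set.indicator_of_mem h, one_mul]
  · rw [Set.indicator_of_notMem (show ω ∉ shft v ⁻¹' s from h), Set.indicator_of_notMem h,
      zero_mul]

private theorem Tilt_cint (hγ : CMart γ) (ns : ℕ) (v : ℕ → (ℕ → ι → V) → ι → V)
    (hv : ∀ j, Measurable (v j)) (hd : ∀ j, Dep j (v j)) (hv0 : ∀ j, ns ≤ j → ∀ ω, v j ω = 0)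
    (Φ : (ℕ → ι → V) → ℂ) (hΦ : Measurable Φ) :
    ∫ ω, ((Real.exp (logZ ns v ω) : ℝ) : ℂ) * Φ (shft v ω) ∂(PI (Measure.pi fun _ : ι => γ)) =
      ∫ ω, Φ ω ∂(PI (Measure.pi fun _ : ι => γ)) := by
  have hsm := Tilt_meas_shft v hv
  have hlm := Tilt_meas_logZ ns v hv
  have hW : Measurable fun ω => ENNReal.ofReal (Real.exp (logZ ns v ω)) :=
    ENNReal.measurable_ofReal.comp (Real.measurable_exp.comp hlm)
  conv_rhs => rw [← Tilt_map hγ ns v hv hd hv0]
  rw [integral_map hsm.aemeasurable hΦ.aestronglyMeasurable,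
    integral_withDensity_eq_integral_toReal_smul hW
      (Filter.Eventually.of_forall fun ω => ENNReal.ofReal_lt_top)]
  apply integral_congr_ae
  refine Filter.Eventually.of_forall fun ω => ?_
  show ((Real.exp (logZ ns v ω) : ℝ) : ℂ) * Φ (shft v ω) =
    (ENNReal.ofReal (Real.exp (logZ ns v ω))).toReal • Φ (shft v ω)
  rw [ENNReal.toReal_ofReal (Real.exp_pos _).le]
  rfl

private theorem Tilt_int_Z (hγ : CMart γ) (ns : ℕ) (v : ℕ → (ℕ → ι → V) → ι → V)
    (hv : ∀ j, Measurable (v j)) (hd : ∀ j, Dep j (v j)) (hv0 : ∀ j, ns ≤ j → ∀ ω, v j ω = 0) :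
    Integrable (fun ω => Real.exp (logZ ns v ω)) (PI (Measure.pi fun _ : ι => γ)) := by
  have hlm := Tilt_meas_logZ ns v hv
  refine ⟨(Real.measurable_exp.comp hlm).aestronglyMeasurable, ?_⟩
  rw [hasFiniteIntegral_iff_ofReal (Filter.Eventually.of_forall fun ω => (Real.exp_pos _).le),
    Tilt_Z_one hγ ns v hv hd hv0]
  exact ENNReal.one_lt_top

/-- `∫ (Z-1)²/Z ≤ e^Q - 1` -/
private theorem Tilt_var (hγ : CMart γ) (ns : ℕ) (v : ℕ → (ℕ → ι → V) → ι → V)
    (hv : ∀ j, Measurable (v j)) (hd : ∀ j, Dep j (v j)) (hv0 : ∀ j, ns ≤ j → ∀ ω, v j ω = 0)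
    (Q : ℝ) (hQ : 0 ≤ Q) (hQv : ∀ ω, ∑ j ∈ Finset.range ns, ∑ x, ‖v j ω x‖ ^ 2 ≤ Q) :
    ∫⁻ ω, ENNReal.ofReal ((Real.exp (logZ ns v ω) - 1) ^ 2 * Real.exp (-(logZ ns v ω)))
      ∂(PI (Measure.pi fun _ : ι => γ)) ≤ ENNReal.ofReal (Real.exp Q - 1) := by
  have hlm := Tilt_meas_logZ ns v hv
  have h2 : (2 : ℝ≥0∞) ≠ ⊤ := by norm_num
  rw [← ENNReal.add_le_add_iff_right h2]
  have e0 : ∫⁻ _ω : ℕ → ι → V, (2 : ℝ≥0∞) ∂(PI (Measure.pi fun _ : ι => γ)) = 2 := by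
    rw [lintegral_const, measure_univ, mul_one]
  have hm1 : Measurable fun ω =>
      ENNReal.ofReal ((Real.exp (logZ ns v ω) - 1) ^ 2 * Real.exp (-(logZ ns v ω))) := by
    apply ENNReal.measurable_ofReal.comp
    exact (((Real.measurable_exp.comp hlm).sub_const 1).pow_const 2).mul
      (Real.measurable_exp.comp hlm.neg)
  have hm2 : Measurable fun ω => ENNReal.ofReal (Real.exp (logZ ns v ω)) :=
    ENNReal.measurable_ofReal.comp (Real.measurable_exp.comp hlm)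
  calc ∫⁻ ω, ENNReal.ofReal ((Real.exp (logZ ns v ω) - 1) ^ 2 * Real.exp (-(logZ ns v ω)))
        ∂(PI (Measure.pi fun _ : ι => γ)) + 2
      = ∫⁻ ω, (ENNReal.ofReal ((Real.exp (logZ ns v ω) - 1) ^ 2 *
          Real.exp (-(logZ ns v ω))) + 2) ∂(PI (Measure.pi fun _ : ι => γ)) := by
        rw [lintegral_add_left hm1, e0]
    _ = ∫⁻ ω, (ENNReal.ofReal (Real.exp (logZ ns v ω)) +
          ENNReal.ofReal (Real.exp (-(logZ ns v ω)))) ∂(PI (Measure.pi fun _ : ι => γ)) := by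
        apply lintegral_congr
        intro ω
        rw [show (2 : ℝ≥0∞) = ENNReal.ofReal 2 by norm_num,
          ← ENNReal.ofReal_add (by positivity) (by norm_num),
          ← ENNReal.ofReal_add (Real.exp_pos _).le (Real.exp_pos _).le]
        congr 1
        have h3 : Real.exp (logZ ns v ω) * Real.exp (-(logZ ns v ω)) = 1 := by
          rw [← Real.exp_add, add_neg_cancel, Real.exp_zero]
        have h4 : (Real.exp (logZ ns v ω) - 1) ^ 2 * Real.exp (-(logZ ns v ω)) =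
            Real.exp (logZ ns v ω) * (Real.exp (logZ ns v ω) * Real.exp (-(logZ ns v ω)))
            - 2 * (Real.exp (logZ ns v ω) * Real.exp (-(logZ ns v ω)))
            + Real.exp (-(logZ ns v ω)) := by ring
        rw [h4, h3]
        ring
    _ = 1 + ∫⁻ ω, ENNReal.ofReal (Real.exp (-(logZ ns v ω)))
          ∂(PI (Measure.pi fun _ : ι => γ)) := by
        rw [lintegral_add_left hm2, Tilt_Z_one hγ ns v hv hd hv0]
    _ ≤ 1 + ENNReal.ofReal (Real.exp Q) := by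
        gcongr
        exact Tilt_Zinv hγ ns v hv hd hv0 Q hQv
    _ = ENNReal.ofReal (Real.exp Q - 1) + 2 := by
        have h5 : 1 ≤ Real.exp Q := Real.one_le_exp hQ
        rw [show (2 : ℝ≥0∞) = ENNReal.ofReal 2 by norm_num,
          show (1 : ℝ≥0∞) = ENNReal.ofReal 1 by norm_num,
          ← ENNReal.ofReal_add (by norm_num) (Real.exp_pos _).le,
          ← ENNReal.ofReal_add (by linarith) (by norm_num)]
        congr 1
        ring

/-- Jensen for a probability measure -/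
private theorem Tilt_jensen {Ω : Type} [MeasurableSpace Ω] (P : Measure Ω)
    [IsProbabilityMeasure P] (f : Ω → ℂ) (hf : Measurable f) :
    ‖∫ ω, f ω ∂P‖ₑ ^ 2 ≤ ∫⁻ ω, ‖f ω‖ₑ ^ 2 ∂P := by
  have h1 : ‖∫ ω, f ω ∂P‖ₑ ≤ ∫⁻ ω, ‖f ω‖ₑ ∂P := enorm_integral_le_lintegral_enorm f
  have h2 := Tilt_cs P (fun ω => ‖f ω‖ₑ) (fun _ => 1) hf.enorm measurable_const
  simp only [mul_one, one_pow, lintegral_one, measure_univ, ENNReal.one_rpow] at h2
  have h3 := pow_le_pow_left₀ (zero_le) (h1.trans h2) 2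
  refine h3.trans (le_of_eq ?_)
  rw [← ENNReal.rpow_two, ← ENNReal.rpow_mul]
  norm_num

theorem tilt_bd (hγ : CMart γ) (ns : ℕ) (Bs : ι → Prop) (v : ℕ → (ℕ → ι → V) → ι → V)
    (hv : ∀ j, Measurable (v j)) (hd : ∀ j, Dep j (v j)) (hv0 : ∀ j, ns ≤ j → ∀ ω, v j ω = 0)
    (hvB : ∀ j ω z, ¬ Bs z → v j ω z = 0) (Q : ℝ) (hQ : 0 ≤ Q)
    (hQv : ∀ ω, ∑ j ∈ Finset.range ns, ∑ x, ‖v j ω x‖ ^ 2 ≤ Q)
    (Φ : (ℕ → ι → V) → ℂ) (hΦ : Measurable Φ) (hb : ∀ ω, ‖Φ ω‖ ≤ 1) :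
    ‖∫ ω, Φ ω ∂(PI (Measure.pi fun _ : ι => γ)) -
        ∫ ω, Φ (shft v ω) ∂(PI (Measure.pi fun _ : ι => γ))‖ ≤
      Real.sqrt (Real.exp Q - 1) *
        Real.sqrt (∫ ω, ∫ ω', ‖Φ ω - Φ (res Bs ns ω ω')‖ ^ 2 ∂(PI (Measure.pi fun _ : ι => γ))
          ∂(PI (Measure.pi fun _ : ι => γ))) := by
  classical
  set P : Measure (ℕ → ι → V) := PI (Measure.pi fun _ : ι => γ) with hP
  have hsm := Tilt_meas_shft v hv
  have hlm := Tilt_meas_logZ ns v hv
  have hres := measurable_res (V := V) Bs ns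
  -- the averaged function
  have hΦr : Measurable fun p : (ℕ → ι → V) × (ℕ → ι → V) => Φ (res Bs ns p.1 p.2) :=
    hΦ.comp hres
  set Ψ : (ℕ → ι → V) → ℂ := fun ω => ∫ ω', Φ (res Bs ns ω ω') ∂P with hΨ
  have hΨm : Measurable Ψ := by
    have h0 : StronglyMeasurable fun p : (ℕ → ι → V) × (ℕ → ι → V) => Φ (res Bs ns p.1 p.2) :=
      hΦr.stronglyMeasurable
    exact (h0.integral_prod_right').measurable
  have hΨb : ∀ ω, ‖Ψ ω‖ ≤ 1 := by
    intro ω
    refine (norm_integral_le_of_norm_le_const (C := 1)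
      (Filter.Eventually.of_forall fun ω' => hb _)).trans ?_
    rw [Measure.real, measure_univ]
    simp
  have hresS : ∀ ω ω', res Bs ns (shft v ω) ω' = res Bs ns ω ω' := by
    intro ω ω'
    funext j z
    unfold res
    by_cases h : j < ns ∧ Bs z
    · rw [if_pos h, if_pos h]
    · rw [if_neg h, if_neg h]
      unfold shft
      by_cases hj : j < ns
      · rw [hvB j ω z (fun hz => h ⟨hj, hz⟩), add_zero]
      · rw [hv0 j (by omega) ω]
        simp
  have hΨS : ∀ ω, Ψ (shft v ω) = Ψ ω := by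
    intro ω
    show ∫ ω', Φ (res Bs ns (shft v ω) ω') ∂P = ∫ ω', Φ (res Bs ns ω ω') ∂P
    simp only [hresS]
  -- integrability
  have hintZ := Tilt_int_Z hγ ns v hv hd hv0
  have hintZc : Integrable (fun ω => ((Real.exp (logZ ns v ω) : ℝ) : ℂ)) P := hintZ.ofReal
  have hiZ : ∀ G : (ℕ → ι → V) → ℂ, Measurable G → (∀ ω, ‖G ω‖ ≤ 1) →
      Integrable (fun ω => ((Real.exp (logZ ns v ω) : ℝ) : ℂ) * G (shft v ω)) P := by
    intro G hG hGb
    refine hintZc.mul_bdd (c := 1) (hG.comp hsm).aestronglyMeasurable ?_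
    exact Filter.Eventually.of_forall fun ω => hGb _
  have hiS : ∀ G : (ℕ → ι → V) → ℂ, Measurable G → (∀ ω, ‖G ω‖ ≤ 1) →
      Integrable (fun ω => G (shft v ω)) P := by
    intro G hG hGb
    exact Integrable.of_bound (hG.comp hsm).aestronglyMeasurable 1
      (Filter.Eventually.of_forall fun ω => hGb _)
  -- the difference
  have hdiff : ∀ G : (ℕ → ι → V) → ℂ, Measurable G → (∀ ω, ‖G ω‖ ≤ 1) →
      ∫ ω, G ω ∂P - ∫ ω, G (shft v ω) ∂P =
        ∫ ω, (((Real.exp (logZ ns v ω) : ℝ) : ℂ) - 1) * G (shft v ω) ∂P := by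
    intro G hG hGb
    rw [← Tilt_cint hγ ns v hv hd hv0 G hG, ← integral_sub (hiZ G hG hGb) (hiS G hG hGb)]
    apply integral_congr_ae
    refine Filter.Eventually.of_forall fun ω => ?_
    show ((Real.exp (logZ ns v ω) : ℝ) : ℂ) * G (shft v ω) - G (shft v ω) =
      (((Real.exp (logZ ns v ω) : ℝ) : ℂ) - 1) * G (shft v ω)
    ring
  have h0 : ∫ ω, (((Real.exp (logZ ns v ω) : ℝ) : ℂ) - 1) * Ψ (shft v ω) ∂P = 0 := by
    rw [← hdiff Ψ hΨm hΨb]
    simp only [hΨS, sub_self]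
  have hi1 : ∀ G : (ℕ → ι → V) → ℂ, Measurable G → (∀ ω, ‖G ω‖ ≤ 1) →
      Integrable (fun ω => (((Real.exp (logZ ns v ω) : ℝ) : ℂ) - 1) * G (shft v ω)) P := by
    intro G hG hGb
    have := (hiZ G hG hGb).sub (hiS G hG hGb)
    refine this.congr (Filter.Eventually.of_forall fun ω => ?_)
    show ((Real.exp (logZ ns v ω) : ℝ) : ℂ) * G (shft v ω) - G (shft v ω) =
      (((Real.exp (logZ ns v ω) : ℝ) : ℂ) - 1) * G (shft v ω)
    ring
  have h1 : ∫ ω, Φ ω ∂P - ∫ ω, Φ (shft v ω) ∂P =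
      ∫ ω, (((Real.exp (logZ ns v ω) : ℝ) : ℂ) - 1) * (Φ (shft v ω) - Ψ (shft v ω)) ∂P := by
    rw [hdiff Φ hΦ hb, ← sub_zero (∫ ω, (((Real.exp (logZ ns v ω) : ℝ) : ℂ) - 1) *
      Φ (shft v ω) ∂P), ← h0, ← integral_sub (hi1 Φ hΦ hb) (hi1 Ψ hΨm hΨb)]
    apply integral_congr_ae
    refine Filter.Eventually.of_forall fun ω => ?_
    show (((Real.exp (logZ ns v ω) : ℝ) : ℂ) - 1) * Φ (shft v ω) -
      (((Real.exp (logZ ns v ω) : ℝ) : ℂ) - 1) * Ψ (shft v ω) =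
      (((Real.exp (logZ ns v ω) : ℝ) : ℂ) - 1) * (Φ (shft v ω) - Ψ (shft v ω))
    ring
  -- Cauchy-Schwarz
  have hDm : Measurable fun ω => Φ ω - Ψ ω := hΦ.sub hΨm
  have hf : Measurable fun ω => ‖Φ (shft v ω) - Ψ (shft v ω)‖ₑ *
      ENNReal.ofReal (Real.exp (logZ ns v ω / 2)) :=
    ((hDm.comp hsm).enorm).mul (ENNReal.measurable_ofReal.comp
      (Real.measurable_exp.comp (hlm.div_const 2)))
  have hg : Measurable fun ω => ENNReal.ofReal |Real.exp (logZ ns v ω) - 1| *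
      ENNReal.ofReal (Real.exp (-(logZ ns v ω) / 2)) :=
    (ENNReal.measurable_ofReal.comp
      ((Real.measurable_exp.comp hlm).sub_const 1).abs).mul
      (ENNReal.measurable_ofReal.comp (Real.measurable_exp.comp (hlm.neg.div_const 2)))
  have h2 := Tilt_cs P _ _ hf hg
  have e1 : ∀ ω, ‖Φ (shft v ω) - Ψ (shft v ω)‖ₑ *
      ENNReal.ofReal (Real.exp (logZ ns v ω / 2)) *
      (ENNReal.ofReal |Real.exp (logZ ns v ω) - 1| *
      ENNReal.ofReal (Real.exp (-(logZ ns v ω) / 2))) =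
      ‖(((Real.exp (logZ ns v ω) : ℝ) : ℂ) - 1) * (Φ (shft v ω) - Ψ (shft v ω))‖ₑ := by
    intro ω
    have e4 : ENNReal.ofReal (Real.exp (logZ ns v ω / 2)) *
        ENNReal.ofReal (Real.exp (-(logZ ns v ω) / 2)) = 1 := by
      rw [← ENNReal.ofReal_mul (Real.exp_pos _).le, ← Real.exp_add,
        show logZ ns v ω / 2 + -(logZ ns v ω) / 2 = 0 by ring, Real.exp_zero, ENNReal.ofReal_one]
    have e5 : ‖(((Real.exp (logZ ns v ω) : ℝ) : ℂ) - 1)‖ₑ =
        ENNReal.ofReal |Real.exp (logZ ns v ω) - 1| := by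
      rw [← ofReal_norm, show (((Real.exp (logZ ns v ω) : ℝ) : ℂ) - 1) =
        ((Real.exp (logZ ns v ω) - 1 : ℝ) : ℂ) by push_cast; rfl, Complex.norm_real,
        Real.norm_eq_abs]
    rw [enorm_mul, e5]
    calc ‖Φ (shft v ω) - Ψ (shft v ω)‖ₑ * ENNReal.ofReal (Real.exp (logZ ns v ω / 2)) *
        (ENNReal.ofReal |Real.exp (logZ ns v ω) - 1| *
          ENNReal.ofReal (Real.exp (-(logZ ns v ω) / 2)))
        = (ENNReal.ofReal (Real.exp (logZ ns v ω / 2)) *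
          ENNReal.ofReal (Real.exp (-(logZ ns v ω) / 2))) *
          (ENNReal.ofReal |Real.exp (logZ ns v ω) - 1| *
            ‖Φ (shft v ω) - Ψ (shft v ω)‖ₑ) := by ring
      _ = ENNReal.ofReal |Real.exp (logZ ns v ω) - 1| *
            ‖Φ (shft v ω) - Ψ (shft v ω)‖ₑ := by rw [e4, one_mul]
  have e2 : ∀ ω, (‖Φ (shft v ω) - Ψ (shft v ω)‖ₑ *
      ENNReal.ofReal (Real.exp (logZ ns v ω / 2))) ^ 2 =
      (fun η => ‖Φ η - Ψ η‖ₑ ^ 2) (shft v ω) * ENNReal.ofReal (Real.exp (logZ ns v ω)) := by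
    intro ω
    rw [mul_pow, Tilt_half_sq]
  have e3 : ∀ ω, (ENNReal.ofReal |Real.exp (logZ ns v ω) - 1| *
      ENNReal.ofReal (Real.exp (-(logZ ns v ω) / 2))) ^ 2 =
      ENNReal.ofReal ((Real.exp (logZ ns v ω) - 1) ^ 2 * Real.exp (-(logZ ns v ω))) := by
    intro ω
    rw [mul_pow, Tilt_half_sq, ← ENNReal.ofReal_pow (abs_nonneg _), sq_abs,
      ← ENNReal.ofReal_mul (sq_nonneg _)]
  rw [lintegral_congr e1, lintegral_congr e2, lintegral_congr e3,
    shift_lintegral hγ ns v hv hd hv0 (fun η => ‖Φ η - Ψ η‖ₑ ^ 2) (hDm.enorm.pow_const 2)] at h2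
  -- the double integral
  have hK : ∫⁻ ω, ‖Φ ω - Ψ ω‖ₑ ^ 2 ∂P ≤
      ENNReal.ofReal (∫ ω, ∫ ω', ‖Φ ω - Φ (res Bs ns ω ω')‖ ^ 2 ∂P ∂P) := by
    have hdm : Measurable fun p : (ℕ → ι → V) × (ℕ → ι → V) =>
        Φ p.1 - Φ (res Bs ns p.1 p.2) := (hΦ.comp measurable_fst).sub hΦr
    have hb4 : ∀ ω ω', ‖Φ ω - Φ (res Bs ns ω ω')‖ ^ 2 ≤ 4 := by
      intro ω ω'
      have h5 : ‖Φ ω - Φ (res Bs ns ω ω')‖ ≤ 2 :=
        (norm_sub_le _ _).trans (by linarith [hb ω, hb (res Bs ns ω ω')])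
      nlinarith [norm_nonneg (Φ ω - Φ (res Bs ns ω ω'))]
    have hsec : ∀ ω, Measurable fun ω' => Φ ω - Φ (res Bs ns ω ω') := by
      intro ω
      exact hdm.comp (measurable_const.prodMk measurable_id)
    have hin : ∀ ω, Integrable (fun ω' => ‖Φ ω - Φ (res Bs ns ω ω')‖ ^ 2) P := by
      intro ω
      refine Integrable.of_bound ((hsec ω).norm.pow_const 2).aestronglyMeasurable 4 ?_
      refine Filter.Eventually.of_forall fun ω' => ?_
      rw [Real.norm_eq_abs, abs_of_nonneg (sq_nonneg _)]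
      exact hb4 ω ω'
    have hGm : Measurable fun ω => ∫ ω', ‖Φ ω - Φ (res Bs ns ω ω')‖ ^ 2 ∂P := by
      have h6 : StronglyMeasurable fun p : (ℕ → ι → V) × (ℕ → ι → V) =>
          ‖Φ p.1 - Φ (res Bs ns p.1 p.2)‖ ^ 2 := (hdm.norm.pow_const 2).stronglyMeasurable
      exact (h6.integral_prod_right').measurable
    have hG0 : ∀ ω, 0 ≤ ∫ ω', ‖Φ ω - Φ (res Bs ns ω ω')‖ ^ 2 ∂P := fun ω =>
      integral_nonneg fun ω' => sq_nonneg _
    have hGi : Integrable (fun ω => ∫ ω', ‖Φ ω - Φ (res Bs ns ω ω')‖ ^ 2 ∂P) P := by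
      refine Integrable.of_bound hGm.aestronglyMeasurable 4 ?_
      refine Filter.Eventually.of_forall fun ω => ?_
      rw [Real.norm_eq_abs, abs_of_nonneg (hG0 ω)]
      calc ∫ ω', ‖Φ ω - Φ (res Bs ns ω ω')‖ ^ 2 ∂P ≤ ∫ _ω', (4 : ℝ) ∂P :=
            integral_mono (hin ω) (integrable_const _) (hb4 ω)
        _ = 4 := by rw [integral_const, Measure.real, measure_univ]; simp
    rw [ofReal_integral_eq_lintegral_ofReal hGi (Filter.Eventually.of_forall hG0)]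
    apply lintegral_mono
    intro ω
    show ‖Φ ω - Ψ ω‖ₑ ^ 2 ≤ ENNReal.ofReal (∫ ω', ‖Φ ω - Φ (res Bs ns ω ω')‖ ^ 2 ∂P)
    rw [ofReal_integral_eq_lintegral_ofReal (hin ω)
      (Filter.Eventually.of_forall fun ω' => sq_nonneg _)]
    have e6 : Φ ω - Ψ ω = ∫ ω', (Φ ω - Φ (res Bs ns ω ω')) ∂P := by
      have h7 : Integrable (fun ω' => Φ (res Bs ns ω ω')) P :=
        Integrable.of_bound (hΦr.comp (measurable_const.prodMk measurable_id)).aestronglyMeasurable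
          1 (Filter.Eventually.of_forall fun ω' => hb _)
      rw [integral_sub (integrable_const _) h7, integral_const, Measure.real, measure_univ]
      simp [hΨ]
    rw [e6]
    refine (Tilt_jensen P _ (hsec ω)).trans (le_of_eq ?_)
    apply lintegral_congr
    intro ω'
    rw [← ofReal_norm, ENNReal.ofReal_pow (norm_nonneg _)]
  -- conclusion
  set I : ℝ := ∫ ω, ∫ ω', ‖Φ ω - Φ (res Bs ns ω ω')‖ ^ 2 ∂P ∂P with hI
  have hI0 : 0 ≤ I := integral_nonneg fun ω => integral_nonneg fun ω' => sq_nonneg _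
  have hE0 : 0 ≤ Real.exp Q - 1 := by linarith [Real.one_le_exp hQ]
  have h3 : ‖∫ ω, Φ ω ∂P - ∫ ω, Φ (shft v ω) ∂P‖ₑ ≤
      ENNReal.ofReal (Real.sqrt (Real.exp Q - 1) * Real.sqrt I) := by
    rw [h1]
    refine (enorm_integral_le_lintegral_enorm _).trans (h2.trans ?_)
    have h8 : (∫⁻ ω, ‖Φ ω - Ψ ω‖ₑ ^ 2 ∂P) ^ (1 / 2 : ℝ) ≤ ENNReal.ofReal (Real.sqrt I) := by
      refine (ENNReal.rpow_le_rpow hK (by norm_num)).trans (le_of_eq ?_)
      rw [ENNReal.ofReal_rpow_of_nonneg hI0 (by norm_num), Real.sqrt_eq_rpow]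
    have h9 : (∫⁻ ω, ENNReal.ofReal ((Real.exp (logZ ns v ω) - 1) ^ 2 *
        Real.exp (-(logZ ns v ω))) ∂P) ^ (1 / 2 : ℝ) ≤
        ENNReal.ofReal (Real.sqrt (Real.exp Q - 1)) := by
      refine (ENNReal.rpow_le_rpow (Tilt_var hγ ns v hv hd hv0 Q hQ hQv) (by norm_num)).trans
        (le_of_eq ?_)
      rw [ENNReal.ofReal_rpow_of_nonneg hE0 (by norm_num), Real.sqrt_eq_rpow]
    calc (∫⁻ ω, ‖Φ ω - Ψ ω‖ₑ ^ 2 ∂P) ^ (1 / 2 : ℝ) *
        (∫⁻ ω, ENNReal.ofReal ((Real.exp (logZ ns v ω) - 1) ^ 2 *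
          Real.exp (-(logZ ns v ω))) ∂P) ^ (1 / 2 : ℝ)
        ≤ ENNReal.ofReal (Real.sqrt I) * ENNReal.ofReal (Real.sqrt (Real.exp Q - 1)) :=
          mul_le_mul' h8 h9
      _ = ENNReal.ofReal (Real.sqrt (Real.exp Q - 1) * Real.sqrt I) := by
          rw [← ENNReal.ofReal_mul (Real.sqrt_nonneg _), mul_comm]
  rw [← ofReal_norm] at h3
  exact (ENNReal.ofReal_le_ofReal_iff (by positivity)).mp h3

end DynC
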