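import Pool.Agent.Lib_MP_36b788c.ItG
import Pool.Agent.Lib_MP_36b788c.Tilt
import Pool.Agent.Lib_MP_36b788c.Brg1
import Pool.Agent.Lib_MP_36b788c.St2
import Pool.Agent.Lib_MP_36b788c.BNoise2

/-!
# Controlled pair and resampled pair: basic facts

PROOF.
* `PI_prod`: the image of `PI μ ⊗ PI ν` under `(ω, ω') ↦ (j ↦ (ω j, ω' j))` is `PI (μ ⊗ ν)` (check on boxes, uniqueness of the infinite product), then Tonelli.
* `rst`: step of the resampled pair with noise `(p.1, p.2)`; `rst_traj`: induction on `n`.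
* `measurableSet_alvC`, `measurableSet_alvR`: `measurable_trajT`, `measurable_bst`, `measurable_traj`, `measurable_res`.
* `lin_ctl`: `λ_j = m0/(ns+1) + ς lamS ns j` for `j < ns`, `0` otherwise; `‖√h ctl‖ ≤ λ_j` (`ctl_le`). `‖(Z (j+1)).i x‖ ≤ e^{b x + λ_j}‖(Z j).i x‖ + k h cpl` (`st2_u`), so `E Σ_x ≤ e^{λ_j}(1 + C h)` times the previous value (`E e^{b} = e^{h/2}`), `Σ λ_j ≤ m0 + ς ns ≤ (κ/16) ell + 5` (`lamS_sum`, `OK`): the constant `CL` depends on `k`.
-/

open MeasureTheory ProbabilityTheory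
open scoped ENNReal

namespace DynC

open Dyn

private theorem VM0_lint_prod {X : Type} [MeasurableSpace X] (μ : Measure X)
    [IsProbabilityMeasure μ] (s : Finset ℕ) (g : ℕ → X → ℝ≥0∞) (hg : ∀ i, Measurable (g i)) :
    ∫⁻ ω, ∏ i ∈ s, g i (ω i) ∂(PI μ) = ∏ i ∈ s, ∫⁻ x, g i x ∂μ := by
  have h1 : iIndepFun (fun (i : ℕ) (ω : ℕ → X) => g i (ω i)) (PI μ) := by
    unfold PI
    exact iIndepFun_infinitePi (X := g) (fun i => hg i)
  rw [lintegral_prod_eq_prod_lintegral_of_indepFun s _ h1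
    (fun i => (hg i).comp (measurable_pi_apply i))]
  refine Finset.prod_congr rfl fun i _ => ?_
  rw [← lintegral_map (hg i) (measurable_pi_apply i), map_coord]

private theorem VM0_meas_pair {X Y : Type} [MeasurableSpace X] [MeasurableSpace Y] :
    Measurable fun q : (ℕ → X) × (ℕ → Y) => fun j : ℕ => (q.1 j, q.2 j) := by
  refine measurable_pi_iff.mpr fun j => ?_
  exact ((measurable_pi_apply j).comp measurable_fst).prodMk
    ((measurable_pi_apply j).comp measurable_snd)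

private theorem VM0_map {X Y : Type} [MeasurableSpace X] [MeasurableSpace Y] (μ : Measure X)
    (ν : Measure Y) [IsProbabilityMeasure μ] [IsProbabilityMeasure ν] :
    ((PI μ).prod (PI ν)).map (fun q : (ℕ → X) × (ℕ → Y) => fun j : ℕ => (q.1 j, q.2 j)) =
      PI (μ.prod ν) := by
  conv_rhs => unfold PI
  refine Measure.eq_infinitePi _ ?_
  intro s t ht
  have hbox := MeasurableSet.pi s.countable_toSet (fun i _ => ht i)
  rw [Measure.map_apply VM0_meas_pair hbox, Measure.prod_apply (VM0_meas_pair hbox)]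
  have h1 : ∀ ω : ℕ → X, (PI ν) (Prod.mk ω ⁻¹'
      ((fun q : (ℕ → X) × (ℕ → Y) => fun j : ℕ => (q.1 j, q.2 j)) ⁻¹' ((s : Set ℕ).pi t))) =
      ∏ i ∈ s, ν (Prod.mk (ω i) ⁻¹' t i) := by
    intro ω
    have h2 : (Prod.mk ω ⁻¹'
      ((fun q : (ℕ → X) × (ℕ → Y) => fun j : ℕ => (q.1 j, q.2 j)) ⁻¹' ((s : Set ℕ).pi t))) =
      (s : Set ℕ).pi (fun i => Prod.mk (ω i) ⁻¹' t i) := by
      ext ω'
      simp only [Set.mem_preimage, Set.mem_pi]
    rw [h2]
    unfold PI
    exact Measure.infinitePi_pi _ (fun i _ => measurable_prodMk_left (ht i))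
  rw [lintegral_congr h1]
  rw [VM0_lint_prod μ s (fun i x => ν (Prod.mk x ⁻¹' t i))
    (fun i => measurable_measure_prodMk_left (ht i))]
  refine Finset.prod_congr rfl fun i _ => ?_
  rw [Measure.prod_apply (ht i)]

theorem PI_prod {X Y : Type} [MeasurableSpace X] [MeasurableSpace Y] (μ : Measure X)
    (ν : Measure Y) [IsProbabilityMeasure μ] [IsProbabilityMeasure ν]
    (F : (ℕ → X) → (ℕ → Y) → ℝ≥0∞)
    (hF : Measurable fun p : (ℕ → X) × (ℕ → Y) => F p.1 p.2) :
    ∫⁻ ω, ∫⁻ ω', F ω ω' ∂(PI ν) ∂(PI μ) =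
      ∫⁻ p, F (fun j => (p j).1) (fun j => (p j).2) ∂(PI (μ.prod ν)) := by
  have hm : Measurable fun p : ℕ → X × Y =>
      ((fun j => (p j).1, fun j => (p j).2) : (ℕ → X) × (ℕ → Y)) := by
    refine Measurable.prodMk ?_ ?_
    · exact measurable_pi_iff.mpr fun j => measurable_fst.comp (measurable_pi_apply j)
    · exact measurable_pi_iff.mpr fun j => measurable_snd.comp (measurable_pi_apply j)
  have hc : Measurable fun p : ℕ → X × Y => F (fun j => (p j).1) (fun j => (p j).2) :=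
    hF.comp hm
  rw [← VM0_map μ ν, lintegral_map hc VM0_meas_pair]
  rw [lintegral_lintegral hF.aemeasurable]

private theorem VM0_mgd (h : ℝ) : MeasurableSet (gdC h) :=
  measurableSet_le (measurable_norm.const_mul _) measurable_const

/-- step of the resampled pair -/
noncomputable def rst (d : ℕ) (β k h : ℝ) (L : ℕ) (Bs : boxS d L → Prop) (ns : ℕ) (j : ℕ)
    (G : (boxS d L → ℂ) × (boxS d L → ℂ)) (p : (boxS d L → ℂ) × (boxS d L → ℂ)) :
    (boxS d L → ℂ) × (boxS d L → ℂ) :=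
  (st2 d β k h L G.1 p.1,
    st2 d β k h L G.2 (fun z => open Classical in if j < ns ∧ Bs z then p.2 z else p.1 z))

theorem rst_traj (d : ℕ) (β k h : ℝ) (L : ℕ) (Bs : boxS d L → Prop) (ns : ℕ)
    (G : (boxS d L → ℂ) × (boxS d L → ℂ)) (ω ω' : ℕ → boxS d L → ℂ) (n : ℕ) :
    trajT (rst d β k h L Bs ns) G (fun j => (ω j, ω' j)) n =
      (traj (st2 d β k h L) G.1 ω n, traj (st2 d β k h L) G.2 (res Bs ns ω ω') n) := by
  induction n with
  | zero => rfl
  | succ n ih =>
    show rst d β k h L Bs ns n (trajT (rst d β k h L Bs ns) G (fun j => (ω j, ω' j)) n)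
      (ω n, ω' n) = (st2 d β k h L (traj (st2 d β k h L) G.1 ω n) (ω n),
        st2 d β k h L (traj (st2 d β k h L) G.2 (res Bs ns ω ω') n) (res Bs ns ω ω' n))
    rw [ih]
    rfl

/-- alive controlled pair -/
def alvC {d L : ℕ} (P : BPar d L) (β k h : ℝ) (G : (boxS d L → ℂ) × (boxS d L → ℂ)) (n : ℕ) :
    Set (ℕ → boxS d L → ℂ) :=
  {ω | (∀ j, j < n → ∀ x, ω j x ∈ gdC h) ∧
    ∀ j, j ≤ n → ∀ x, ‖(trajT (P.bst β k h) G ω j).1 x‖ ≤ rad β h ∧
      ‖(trajT (P.bst β k h) G ω j).2 x‖ ≤ rad β h}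

theorem measurableSet_alvC {d L : ℕ} (P : BPar d L) (β k h : ℝ)
    (G : (boxS d L → ℂ) × (boxS d L → ℂ)) (n : ℕ) : MeasurableSet (alvC P β k h G n) := by
  have ht : ∀ j, Measurable fun ω : ℕ → boxS d L → ℂ => trajT (P.bst β k h) G ω j := fun j =>
    (measurable_trajT (P.bst β k h) (fun j => measurable_bst P β k h j) j).comp
      (measurable_const.prodMk measurable_id)
  have e : alvC P β k h G n = (⋂ j : ℕ, ⋂ (_ : j < n), ⋂ x : boxS d L,
      {ω : ℕ → boxS d L → ℂ | ω j x ∈ gdC h}) ∩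
      (⋂ j : ℕ, ⋂ (_ : j ≤ n), ⋂ x : boxS d L,
        ({ω : ℕ → boxS d L → ℂ | ‖(trajT (P.bst β k h) G ω j).1 x‖ ≤ rad β h} ∩
          {ω | ‖(trajT (P.bst β k h) G ω j).2 x‖ ≤ rad β h})) := by
    ext ω
    simp only [alvC, Set.mem_setOf_eq, Set.mem_inter_iff, Set.mem_iInter]
  rw [e]
  refine MeasurableSet.inter ?_ ?_
  · refine MeasurableSet.iInter fun j => MeasurableSet.iInter fun _ =>
      MeasurableSet.iInter fun x => ?_
    exact ((measurable_pi_apply x).comp (measurable_pi_apply j)) (VM0_mgd h)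
  · refine MeasurableSet.iInter fun j => MeasurableSet.iInter fun _ =>
      MeasurableSet.iInter fun x => MeasurableSet.inter ?_ ?_
    · exact measurableSet_le (((measurable_pi_apply x).comp (measurable_fst.comp (ht j))).norm)
        measurable_const
    · exact measurableSet_le (((measurable_pi_apply x).comp (measurable_snd.comp (ht j))).norm)
        measurable_const

/-- alive resampled pair -/
def alvR (d : ℕ) (β k h : ℝ) (L : ℕ) (Bs : boxS d L → Prop) (ns : ℕ) (G : boxS d L → ℂ) (n : ℕ) :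
    Set ((ℕ → boxS d L → ℂ) × (ℕ → boxS d L → ℂ)) :=
  {p | (∀ j, j < n → ∀ x, p.1 j x ∈ gdC h ∧ p.2 j x ∈ gdC h) ∧
    ∀ j, j ≤ n → ∀ x, ‖traj (st2 d β k h L) G p.1 j x‖ ≤ rad β h ∧
      ‖traj (st2 d β k h L) G (res Bs ns p.1 p.2) j x‖ ≤ rad β h}

theorem measurableSet_alvR (d : ℕ) (β k h : ℝ) (L : ℕ) (Bs : boxS d L → Prop) (ns : ℕ)
    (G : boxS d L → ℂ) (n : ℕ) : MeasurableSet (alvR d β k h L Bs ns G n) := by
  have ht : ∀ j, Measurable fun ω : ℕ → boxS d L → ℂ => traj (st2 d β k h L) G ω j := fun j =>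
    (measurable_traj (st2 d β k h L) (measurable_st2 d β k h L) j).comp
      (measurable_const.prodMk measurable_id)
  have hr : Measurable fun p : (ℕ → boxS d L → ℂ) × (ℕ → boxS d L → ℂ) =>
      res Bs ns p.1 p.2 := measurable_res Bs ns
  have e : alvR d β k h L Bs ns G n = (⋂ j : ℕ, ⋂ (_ : j < n), ⋂ x : boxS d L,
      ({p : (ℕ → boxS d L → ℂ) × (ℕ → boxS d L → ℂ) | p.1 j x ∈ gdC h} ∩
        {p | p.2 j x ∈ gdC h})) ∩
      (⋂ j : ℕ, ⋂ (_ : j ≤ n), ⋂ x : boxS d L,
        ({p : (ℕ → boxS d L → ℂ) × (ℕ → boxS d L → ℂ) |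
            ‖traj (st2 d β k h L) G p.1 j x‖ ≤ rad β h} ∩
          {p | ‖traj (st2 d β k h L) G (res Bs ns p.1 p.2) j x‖ ≤ rad β h})) := by
    ext p
    simp only [alvR, Set.mem_setOf_eq, Set.mem_inter_iff, Set.mem_iInter]
  rw [e]
  refine MeasurableSet.inter ?_ ?_
  · refine MeasurableSet.iInter fun j => MeasurableSet.iInter fun _ =>
      MeasurableSet.iInter fun x => MeasurableSet.inter ?_ ?_
    · exact ((measurable_pi_apply x).comp ((measurable_pi_apply j).comp measurable_fst))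
        (VM0_mgd h)
    · exact ((measurable_pi_apply x).comp ((measurable_pi_apply j).comp measurable_snd))
        (VM0_mgd h)
  · refine MeasurableSet.iInter fun j => MeasurableSet.iInter fun _ =>
      MeasurableSet.iInter fun x => MeasurableSet.inter ?_ ?_
    · exact measurableSet_le
        (((measurable_pi_apply x).comp ((ht j).comp measurable_fst)).norm) measurable_const
    · exact measurableSet_le
        (((measurable_pi_apply x).comp ((ht j).comp hr)).norm) measurable_const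

private theorem VM0_cpl_sum {ι : Type} [Fintype ι] {d : ℕ} (net : Net ι d) (u : ι → ℝ)
    (hu : ∀ x, 0 ≤ u x) : ∑ x, cpl net u x ≤ 4 * d * ∑ x, u x := by
  classical
  unfold cpl
  rw [Finset.sum_add_distrib, ← Finset.mul_sum]
  have h1 : ∑ x, ∑ y ∈ net.nb x, u y = ∑ y, ((net.nb y).card : ℝ) * u y := by
    have h2 : ∀ x, ∑ y ∈ net.nb x, u y = ∑ y, if y ∈ net.nb x then u y else 0 := by
      intro x
      rw [Finset.sum_ite_mem, Finset.univ_inter]
    simp_rw [h2]
    rw [Finset.sum_comm]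
    refine Finset.sum_congr rfl fun y _ => ?_
    have h3 : ∀ x, (if y ∈ net.nb x then u y else 0) = if x ∈ net.nb y then u y else 0 := by
      intro x
      by_cases h4 : y ∈ net.nb x
      · rw [if_pos h4, if_pos (net.nb_symm x y h4)]
      · rw [if_neg h4, if_neg (fun h5 => h4 (net.nb_symm y x h5))]
    simp_rw [h3]
    rw [Finset.sum_ite_mem, Finset.univ_inter, Finset.sum_const, nsmul_eq_mul]
  have h4 : ∑ y, ((net.nb y).card : ℝ) * u y ≤ ∑ y, (2 * d : ℝ) * u y := by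
    refine Finset.sum_le_sum fun y _ => mul_le_mul_of_nonneg_right ?_ (hu y)
    have := net.nb_card y
    exact_mod_cast this
  rw [← Finset.mul_sum] at h4
  rw [h1]
  push_cast
  linarith

/-- the shift of the control -/
private noncomputable def VM0_lam {d L : ℕ} (P : BPar d L) (j : ℕ) : ℝ :=
  if j < P.ns then P.m0 / (P.ns + 1) + P.ς * lamS P.ns j else 0

private theorem VM0_lam_sum {d L : ℕ} (P : BPar d L) (hm : 0 ≤ P.m0) (hς : 0 ≤ P.ς) (m : ℕ) :
    ∑ j ∈ Finset.range m, VM0_lam P j ≤ P.m0 + P.ς * P.ns := by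
  have hn : ∀ j, 0 ≤ VM0_lam P j := by
    intro j
    unfold VM0_lam
    by_cases hj : j < P.ns
    · rw [if_pos hj]
      have := (lamS_le P.ns j hj.le).1
      positivity
    · rw [if_neg hj]
  have h1 : ∑ j ∈ Finset.range m, VM0_lam P j ≤
      ∑ j ∈ Finset.range P.ns, VM0_lam P j := by
    have h2 : ∑ j ∈ Finset.range m, VM0_lam P j ≤
        ∑ j ∈ Finset.range (max m P.ns), VM0_lam P j :=
      Finset.sum_le_sum_of_subset_of_nonneg (Finset.range_mono (le_max_left _ _))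
        (fun i _ _ => hn i)
    have h3 : ∑ j ∈ Finset.range (max m P.ns), VM0_lam P j =
        ∑ j ∈ Finset.range P.ns, VM0_lam P j := by
      symm
      refine Finset.sum_subset (Finset.range_mono (le_max_right _ _)) fun j _ hj => ?_
      unfold VM0_lam
      rw [if_neg (fun h => hj (Finset.mem_range.2 h))]
    rw [← h3]
    exact h2
  refine h1.trans ?_
  have h2 : ∑ j ∈ Finset.range P.ns, VM0_lam P j =
      ∑ j ∈ Finset.range P.ns, (P.m0 / (P.ns + 1) + P.ς * lamS P.ns j) := by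
    refine Finset.sum_congr rfl fun j hj => ?_
    unfold VM0_lam
    rw [if_pos (Finset.mem_range.1 hj)]
  rw [h2, Finset.sum_add_distrib, ← Finset.mul_sum, Finset.sum_const, Finset.card_range,
    nsmul_eq_mul]
  refine add_le_add ?_ (mul_le_mul_of_nonneg_left (lamS_sum P.ns) hς)
  have h3 : (0 : ℝ) < P.ns + 1 := by positivity
  rw [mul_div_assoc', div_le_iff₀ h3]
  nlinarith

/-- the sum of the moduli -/
private noncomputable def VM0_S {d L : ℕ} (G : (boxS d L → ℂ) × (boxS d L → ℂ)) : ℝ :=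
  ∑ x, (‖G.1 x‖ + ‖G.2 x‖)

private theorem VM0_pt (d : ℕ) {β k h : ℝ} (hβ : 0 < β) (hk : 0 < k) (hh : 0 < h) (L : ℕ)
    (P : BPar d L) (hm : 0 ≤ P.m0) (hς : 0 ≤ P.ς) (j : ℕ)
    (G : (boxS d L → ℂ) × (boxS d L → ℂ)) (ξ : boxS d L → ℂ) :
    VM0_S (P.bst β k h j G ξ) ≤
      ∑ x, Real.exp (bC h (ξ x)) * (Real.exp (VM0_lam P j) * (‖G.1 x‖ + ‖G.2 x‖)) +
        k * h * (4 * d * VM0_S G) := by
  have hl0 : 0 ≤ VM0_lam P j := by
    unfold VM0_lam
    by_cases hj : j < P.ns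
    · rw [if_pos hj]
      have := (lamS_le P.ns j hj.le).1
      positivity
    · rw [if_neg hj]
  have h1 : ∀ x, ‖(P.bst β k h j G ξ).1 x‖ + ‖(P.bst β k h j G ξ).2 x‖ ≤
      Real.exp (bC h (ξ x)) * (Real.exp (VM0_lam P j) * (‖G.1 x‖ + ‖G.2 x‖)) +
        k * h * (cpl (boxNet d L) (nrm G.1) x + cpl (boxNet d L) (nrm G.2) x) := by
    intro x
    have h2 := st2_u d hβ hk.le hh L G.1 ξ x
    have h3 := st2_u d hβ hk.le hh L G.2 (fun z => ξ z + P.ctl k h j G z) x
    have h4 : bC h (ξ x + P.ctl k h j G x) ≤ bC h (ξ x) + VM0_lam P j := by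
      have h5 := ctl_le P k h hh hm hς j G x
      have h6 : Real.sqrt h * (P.ctl k h j G x).re ≤ Real.sqrt h * ‖P.ctl k h j G x‖ :=
        mul_le_mul_of_nonneg_left (Complex.re_le_norm _) (Real.sqrt_nonneg h)
      have h7 : Real.sqrt h * ‖P.ctl k h j G x‖ ≤ VM0_lam P j := h5
      unfold bC
      rw [Complex.add_re, mul_add]
      linarith
    have h5 : Real.exp (bC h (ξ x + P.ctl k h j G x)) ≤
        Real.exp (bC h (ξ x)) * Real.exp (VM0_lam P j) := by
      rw [← Real.exp_add]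
      exact Real.exp_le_exp.mpr h4
    have h6 : Real.exp (bC h (ξ x)) * 1 ≤ Real.exp (bC h (ξ x)) * Real.exp (VM0_lam P j) :=
      mul_le_mul_of_nonneg_left (Real.one_le_exp hl0) (Real.exp_pos _).le
    have h7 : Real.exp (bC h (ξ x)) * ‖G.1 x‖ ≤
        Real.exp (bC h (ξ x)) * Real.exp (VM0_lam P j) * ‖G.1 x‖ := by
      rw [mul_one] at h6
      exact mul_le_mul_of_nonneg_right h6 (norm_nonneg _)
    have h8 : Real.exp (bC h (ξ x + P.ctl k h j G x)) * ‖G.2 x‖ ≤
        Real.exp (bC h (ξ x)) * Real.exp (VM0_lam P j) * ‖G.2 x‖ :=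
      mul_le_mul_of_nonneg_right h5 (norm_nonneg _)
    have h9 : ‖(P.bst β k h j G ξ).1 x‖ ≤ Real.exp (bC h (ξ x)) * ‖G.1 x‖ +
        k * h * cpl (boxNet d L) (nrm G.1) x := h2
    have h10 : ‖(P.bst β k h j G ξ).2 x‖ ≤
        Real.exp (bC h (ξ x + P.ctl k h j G x)) * ‖G.2 x‖ +
        k * h * cpl (boxNet d L) (nrm G.2) x := h3
    nlinarith
  unfold VM0_S
  refine (Finset.sum_le_sum fun x _ => h1 x).trans ?_
  rw [Finset.sum_add_distrib, ← Finset.mul_sum, Finset.sum_add_distrib]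
  refine add_le_add le_rfl (mul_le_mul_of_nonneg_left ?_ (by positivity))
  have h2 := VM0_cpl_sum (boxNet d L) (nrm G.1) (fun x => norm_nonneg _)
  have h3 := VM0_cpl_sum (boxNet d L) (nrm G.2) (fun x => norm_nonneg _)
  rw [Finset.sum_add_distrib]
  unfold nrm at h2 h3 ⊢
  linarith

private theorem VM0_one (C h : ℝ) (hC : 0 ≤ C) (hh : 0 < h)
    (hb : ∫⁻ a, ENNReal.ofReal (Real.exp (2 * bC h a)) ∂gC ≤ ENNReal.ofReal (1 + C * h)) :
    ∫⁻ a, ENNReal.ofReal (Real.exp (bC h a)) ∂gC ≤ ENNReal.ofReal (1 + C * h) := by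
  have hmb : Measurable (bC h) := Complex.measurable_re.const_mul _
  have h1 : ∀ a, ENNReal.ofReal (Real.exp (bC h a)) ≤
      ENNReal.ofReal (1 / 2) + ENNReal.ofReal (1 / 2) * ENNReal.ofReal (Real.exp (2 * bC h a)) := by
    intro a
    rw [← ENNReal.ofReal_mul (by norm_num), ← ENNReal.ofReal_add (by norm_num) (by positivity)]
    refine ENNReal.ofReal_le_ofReal ?_
    have h2 : Real.exp (2 * bC h a) = Real.exp (bC h a) * Real.exp (bC h a) := by
      rw [← Real.exp_add]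
      congr 1
      ring
    rw [h2]
    nlinarith [sq_nonneg (Real.exp (bC h a) - 1)]
  refine (lintegral_mono h1).trans ?_
  have hme : Measurable fun a : ℂ => ENNReal.ofReal (Real.exp (2 * bC h a)) :=
    ENNReal.measurable_ofReal.comp (Real.measurable_exp.comp (hmb.const_mul 2))
  rw [lintegral_add_left measurable_const, lintegral_const, measure_univ, mul_one,
    lintegral_const_mul _ hme]
  refine (add_le_add le_rfl (mul_le_mul_right hb _)).trans ?_
  rw [← ENNReal.ofReal_mul (by norm_num), ← ENNReal.ofReal_add (by norm_num) (by positivity)]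
  refine ENNReal.ofReal_le_ofReal ?_
  nlinarith [mul_nonneg hC hh.le]

private theorem VM0_step (d : ℕ) {β k h C : ℝ} (hβ : 0 < β) (hk : 0 < k) (hk1 : k < 1)
    (hh : 0 < h) (hC : 0 ≤ C)
    (hb : ∫⁻ a, ENNReal.ofReal (Real.exp (2 * bC h a)) ∂gC ≤ ENNReal.ofReal (1 + C * h)) (L : ℕ)
    (P : BPar d L) (hm : 0 ≤ P.m0) (hς : 0 ≤ P.ς) (j : ℕ)
    (G : (boxS d L → ℂ) × (boxS d L → ℂ)) :
    ∫⁻ ξ, ENNReal.ofReal (VM0_S (P.bst β k h j G ξ)) ∂(Measure.pi fun _ : boxS d L => gC) ≤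
      ENNReal.ofReal (Real.exp (VM0_lam P j) * (1 + (C + 4 * d) * h)) *
        ENNReal.ofReal (VM0_S G) := by
  have hl0 : 0 ≤ VM0_lam P j := by
    unfold VM0_lam
    by_cases hj : j < P.ns
    · rw [if_pos hj]
      have := (lamS_le P.ns j hj.le).1
      positivity
    · rw [if_neg hj]
  have hS : 0 ≤ VM0_S G := by
    unfold VM0_S
    exact Finset.sum_nonneg fun x _ => add_nonneg (norm_nonneg _) (norm_nonneg _)
  have hmb : Measurable (bC h) := Complex.measurable_re.const_mul _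
  have h1 : ∀ ξ : boxS d L → ℂ, ENNReal.ofReal (VM0_S (P.bst β k h j G ξ)) ≤
      ∑ x, ENNReal.ofReal (Real.exp (bC h (ξ x))) *
        ENNReal.ofReal (Real.exp (VM0_lam P j) * (‖G.1 x‖ + ‖G.2 x‖)) +
        ENNReal.ofReal (k * h * (4 * d * VM0_S G)) := by
    intro ξ
    refine (ENNReal.ofReal_le_ofReal (VM0_pt d hβ hk hh L P hm hς j G ξ)).trans ?_
    refine (ENNReal.ofReal_add_le).trans (add_le_add (le_of_eq ?_) le_rfl)
    rw [ENNReal.ofReal_sum_of_nonneg (fun x _ => by positivity)]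
    refine Finset.sum_congr rfl fun x _ => ?_
    rw [ENNReal.ofReal_mul (Real.exp_pos _).le]
  refine (lintegral_mono h1).trans ?_
  have hmx : ∀ x : boxS d L, Measurable fun ξ : boxS d L → ℂ =>
      ENNReal.ofReal (Real.exp (bC h (ξ x))) := fun x =>
    ENNReal.measurable_ofReal.comp (Real.measurable_exp.comp (hmb.comp (measurable_pi_apply x)))
  rw [lintegral_add_right _ measurable_const, lintegral_const, measure_univ, mul_one,
    lintegral_finsetSum _ (fun x _ => (hmx x).mul_const _)]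
  have h2 : ∀ x : boxS d L, ∫⁻ ξ, ENNReal.ofReal (Real.exp (bC h (ξ x))) *
        ENNReal.ofReal (Real.exp (VM0_lam P j) * (‖G.1 x‖ + ‖G.2 x‖))
        ∂(Measure.pi fun _ : boxS d L => gC) ≤
      ENNReal.ofReal ((1 + C * h) * (Real.exp (VM0_lam P j) * (‖G.1 x‖ + ‖G.2 x‖))) := by
    intro x
    rw [lintegral_mul_const _ (hmx x),
      ENNReal.ofReal_mul (p := 1 + C * h) (q := Real.exp (VM0_lam P j) * (‖G.1 x‖ + ‖G.2 x‖))
        (by positivity)]
    refine mul_le_mul' ?_ le_rfl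
    have h3 := (measurePreserving_eval (fun _ : boxS d L => gC) x).lintegral_comp
      (ENNReal.measurable_ofReal.comp (Real.measurable_exp.comp hmb))
    exact (le_of_eq h3).trans (VM0_one C h hC hh hb)
  refine (add_le_add (Finset.sum_le_sum fun x _ => h2 x) le_rfl).trans ?_
  rw [← ENNReal.ofReal_sum_of_nonneg (fun x _ => by positivity),
    ← ENNReal.ofReal_add (Finset.sum_nonneg fun x _ => by positivity) (by positivity),
    ← ENNReal.ofReal_mul (by positivity)]
  refine ENNReal.ofReal_le_ofReal ?_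
  rw [← Finset.mul_sum, ← Finset.mul_sum]
  have h4 : ∑ x, (‖G.1 x‖ + ‖G.2 x‖) = VM0_S G := rfl
  rw [h4]
  have h5 : 1 ≤ Real.exp (VM0_lam P j) := Real.one_le_exp hl0
  have h6 : k * h * (4 * d * VM0_S G) ≤ Real.exp (VM0_lam P j) * (4 * d * h * VM0_S G) := by
    have h7 : 0 ≤ 4 * d * h * VM0_S G := by positivity
    have h8 : k * h * (4 * d * VM0_S G) = k * (4 * d * h * VM0_S G) := by ring
    rw [h8]
    exact mul_le_mul_of_nonneg_right (hk1.le.trans h5) h7
  nlinarith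

theorem lin_ctl (d : ℕ) (β : ℝ) (hβ : 0 < β) (k : ℝ) (hk : 0 < k) (hk1 : k < 1) (L : ℕ) :
    ∃ CL h0 : ℝ, 1 ≤ CL ∧ 0 < h0 ∧ ∀ h, 0 < h → h < h0 →
    ∀ (P : BPar d L), P.OK β k h → ∀ (G : (boxS d L → ℂ) × (boxS d L → ℂ)) (m : ℕ),
      m * h ≤ 8 * ell k ^ 2 →
      ∫⁻ ω, ENNReal.ofReal (∑ x, (‖(trajT (P.bst β k h) G ω m).1 x‖ +
          ‖(trajT (P.bst β k h) G ω m).2 x‖)) ∂(PI (Measure.pi fun _ : boxS d L => gC)) ≤
        ENNReal.ofReal (CL * ∑ x, (‖G.1 x‖ + ‖G.2 x‖)) := by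
  obtain ⟨C, h0, hC, hh0, hmgf⟩ := bnoise2.mgf2
  have hl : 0 ≤ ell k := by
    unfold ell
    exact Real.log_nonneg (by rw [one_div]; exact (one_le_inv₀ hk).mpr hk1.le)
  refine ⟨Real.exp (ell k + 4 + ell k ^ 3 + (C + 4 * d) * (8 * ell k ^ 2)), h0, ?_, hh0, ?_⟩
  · exact Real.one_le_exp (by positivity)
  intro h hh hhh P hP G m hm
  have hβκ : 0 ≤ min 1 β * P.κ / 8 := by
    have h1 : 0 ≤ min 1 β := le_min zero_le_one hβ.le
    have h2 := hP.hκ.le
    positivity
  have hς0 : 0 ≤ P.ς := by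
    rw [hP.hς]
    refine mul_nonneg hh.le (le_min (Real.rpow_nonneg hk.le _) ?_)
    exact mul_nonneg (Real.rpow_nonneg hk.le _) hP.hA
  have hςh : P.ς ≤ h := by
    rw [hP.hς]
    have h1 : min (k ^ (min 1 β * P.κ / 8)) (k ^ (-(P.M8 + 2 * P.M6 + 4)) * P.A0) ≤ 1 :=
      (min_le_left _ _).trans (Real.rpow_le_one hk.le hk1.le hβκ)
    nlinarith
  have hb := hmgf h hh hhh
  set A : ℕ → ℝ≥0∞ := fun j =>
    ENNReal.ofReal (Real.exp (VM0_lam P j) * (1 + (C + 4 * d) * h)) with hA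
  have hmS : Measurable fun q : (boxS d L → ℂ) × (boxS d L → ℂ) =>
      ENNReal.ofReal (VM0_S q) := by
    refine ENNReal.measurable_ofReal.comp ?_
    unfold VM0_S
    exact Finset.measurable_sum _ fun x _ =>
      ((measurable_pi_apply x).comp measurable_fst).norm.add
        ((measurable_pi_apply x).comp measurable_snd).norm
  have h1 := iter_gen (μ := Measure.pi fun _ : boxS d L => gC) (P.bst β k h)
    (fun j => measurable_bst P β k h j) (fun _ => Set.univ) (fun _ => MeasurableSet.univ)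
    (fun q => ENNReal.ofReal (VM0_S q)) hmS A m
    (by
      intro j _ s
      have h2 : {a : boxS d L → ℂ | (s, a) ∈ (Set.univ : Set
          (((boxS d L → ℂ) × (boxS d L → ℂ)) × (boxS d L → ℂ)))} = Set.univ := by
        ext a
        simp
      rw [h2, Measure.restrict_univ]
      exact VM0_step d hβ hk hk1 hh hC.le hb L P hP.hm0 hς0 j s) G
  have h2 : {ω : ℕ → boxS d L → ℂ | ∀ j, j < m → (trajT (P.bst β k h) G ω j, ω j) ∈
      (Set.univ : Set (((boxS d L → ℂ) × (boxS d L → ℂ)) × (boxS d L → ℂ)))} = Set.univ := by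
    ext ω
    simp
  rw [h2, Measure.restrict_univ] at h1
  have h3 : ∏ j ∈ Finset.range m, A j ≤
      ENNReal.ofReal (Real.exp (ell k + 4 + ell k ^ 3 + (C + 4 * d) * (8 * ell k ^ 2))) := by
    rw [hA, ← ENNReal.ofReal_prod_of_nonneg (fun j _ => by positivity)]
    refine ENNReal.ofReal_le_ofReal ?_
    rw [Finset.prod_mul_distrib, ← Real.exp_sum, Finset.prod_const, Finset.card_range]
    have h4 : (1 + (C + 4 * d) * h) ^ m ≤ Real.exp ((C + 4 * d) * (8 * ell k ^ 2)) := by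
      have h5 : (1 + (C + 4 * d) * h) ≤ Real.exp ((C + 4 * d) * h) := by
        have := Real.add_one_le_exp ((C + 4 * d) * h)
        linarith
      have h6 : (1 + (C + 4 * d) * h) ^ m ≤ Real.exp ((C + 4 * d) * h) ^ m :=
        pow_le_pow_left₀ (by positivity) h5 m
      refine h6.trans ?_
      rw [← Real.exp_nat_mul]
      refine Real.exp_le_exp.mpr ?_
      have h7 : (m : ℝ) * ((C + 4 * d) * h) = (C + 4 * d) * (m * h) := by ring
      rw [h7]
      exact mul_le_mul_of_nonneg_left hm (by positivity)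
    have h5 : ∑ j ∈ Finset.range m, VM0_lam P j ≤ ell k + 4 + ell k ^ 3 := by
      refine (VM0_lam_sum P hP.hm0 hς0 m).trans ?_
      have h6 := hP.hm
      have h7 : P.κ / 16 * ell k ≤ ell k := by
        have h8 : P.κ / 16 ≤ 1 := by
          have := hP.hκ1
          linarith
        nlinarith
      have h8 : P.ς * P.ns ≤ ell k ^ 3 := by
        have h9 : P.ς * P.ns ≤ h * P.ns := mul_le_mul_of_nonneg_right hςh (Nat.cast_nonneg _)
        have h10 := hP.hns1
        linarith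
      linarith
    calc Real.exp (∑ j ∈ Finset.range m, VM0_lam P j) * (1 + (C + 4 * d) * h) ^ m
        ≤ Real.exp (ell k + 4 + ell k ^ 3) * Real.exp ((C + 4 * d) * (8 * ell k ^ 2)) :=
          mul_le_mul (Real.exp_le_exp.mpr h5) h4 (by positivity) (Real.exp_pos _).le
      _ = _ := by rw [← Real.exp_add]
  refine h1.trans ?_
  refine (mul_le_mul' h3 le_rfl).trans (le_of_eq ?_)
  rw [← ENNReal.ofReal_mul (Real.exp_pos _).le]
  rfl

end DynC
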