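import Pool.Agent.Lib_MP_36b788c.Obe2
import Pool.Agent.Lib_MP_36b788c.Sm3

/-!
# Moments of `wpr` and the basic estimates of differences (measure theory only)

PROOF.
* `wpr_mom`: if `wpr (G) x = ⊤` trivial. Otherwise all `c_{z,i} = V_i(G) z` with positive weight are finite and `≥ 1`; weighted Jensen (power mean): `(Σ w c (v/c))^4 ≤ (Σ w c)^3 Σ w c (v/c)^4` with weights `w_z = α^dist`, sum over `z` and `i = 1, 2`; integrate: `≤ (Σ w c)^3 C Σ w c`. (Terms with `α^dist = 0` vanish.)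
* `wpr_dup`: `V1(G,G) = V2(G,G)`, `Vp_two` and `Vp_mono`: `≤ 2^{qs} V2(G1,G) ≤ 2 V2(G1,G)`.
* `pair_pt`: `tele` on `Al`, and `‖f - f'‖ ≤ 2` off `Al`.
* `pair_est`: integrate `pair_pt` over `E`: Hölder with exponents `2, 4, 4` for `1_E · Db · wpr` on `Al`. `t1_bd`: Minkowski in `L²` and Cauchy-Schwarz for `Db² wpr²`.
-/

open MeasureTheory ProbabilityTheory
open scoped ENNReal

namespace DynC

open Dyn

variable {V : Type} [NormedAddCommGroup V] [InnerProductSpace ℝ V] [MeasurableSpace V]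
  [BorelSpace V] [SecondCountableTopology V] {d L : ℕ} {Ω : Type} [MeasurableSpace Ω]

private theorem WprM_wpr (k q s α : ℝ) (G : (boxS d L → V) × (boxS d L → V)) (x : boxS d L) :
    wpr (boxNet d L) k q s α G.1 G.2 x =
      ∑ z, ENNReal.ofReal (α ^ (boxNet d L).dist x z) * (V1 k q s G z + V2 k q s G z) := rfl

private theorem WprM_meas_wpr (k q s α : ℝ) (H : Ω → (boxS d L → V) × (boxS d L → V))
    (hH : Measurable H) (x : boxS d L) :
    Measurable fun ω => wpr (boxNet d L) k q s α (H ω).1 (H ω).2 x := by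
  simp only [WprM_wpr]
  refine Finset.measurable_fun_sum _ ?_
  intro z _
  exact (((measurable_V k q s z).1.comp hH).add ((measurable_V k q s z).2.comp hH)).const_mul _

/-- Minkowski for finite sums -/
private theorem WprM_mink {J : Type} (T : Finset J) (μ : Measure Ω) (p : ℝ) (hp : 1 ≤ p)
    (v : J → Ω → ℝ≥0∞) (hv : ∀ j, Measurable (v j)) :
    (∫⁻ ω, (∑ j ∈ T, v j ω) ^ p ∂μ) ^ (1 / p) ≤ ∑ j ∈ T, (∫⁻ ω, v j ω ^ p ∂μ) ^ (1 / p) := by
  classical
  have hp0 : 0 < p := by linarith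
  induction T using Finset.induction_on with
  | empty =>
    simp only [Finset.sum_empty, ENNReal.zero_rpow_of_pos hp0, lintegral_zero]
    rw [ENNReal.zero_rpow_of_pos (by positivity)]
  | insert j T hj ih =>
    rw [Finset.sum_insert hj]
    have h1 := ENNReal.lintegral_Lp_add_le (μ := μ) (f := v j) (g := fun ω => ∑ i ∈ T, v i ω)
      (hv j).aemeasurable (Finset.measurable_fun_sum _ fun i _ => hv i).aemeasurable hp
    refine le_trans (le_of_eq ?_) (le_trans h1 (add_le_add_right ih _))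
    congr 1
    refine lintegral_congr fun ω => ?_
    rw [Finset.sum_insert hj]
    rfl

private theorem WprM_mink_w {J : Type} (T : Finset J) (μ : Measure Ω) (p : ℝ) (hp : 1 ≤ p)
    (w : J → ℝ≥0∞) (v : J → Ω → ℝ≥0∞) (hv : ∀ j, Measurable (v j)) :
    (∫⁻ ω, (∑ j ∈ T, w j * v j ω) ^ p ∂μ) ^ (1 / p) ≤
      ∑ j ∈ T, w j * (∫⁻ ω, v j ω ^ p ∂μ) ^ (1 / p) := by
  have hp0 : 0 < p := by linarith
  refine le_trans (WprM_mink T μ p hp (fun j ω => w j * v j ω) fun j => (hv j).const_mul _) ?_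
  refine le_of_eq (Finset.sum_congr rfl fun j _ => ?_)
  have h1 : ∀ ω, (w j * v j ω) ^ p = w j ^ p * v j ω ^ p := fun ω =>
    ENNReal.mul_rpow_of_nonneg _ _ hp0.le
  simp only [h1]
  rw [lintegral_const_mul _ ((hv j).pow_const p), ENNReal.mul_rpow_of_nonneg _ _ (by positivity),
    ← ENNReal.rpow_mul, mul_one_div_cancel hp0.ne', ENNReal.rpow_one]

theorem wpr_mom (μ : Measure Ω) (E : Set Ω) (hE : MeasurableSet E)
    (H : Ω → (boxS d L → V) × (boxS d L → V)) (hH : Measurable H) (k q s α C : ℝ) (hC : 1 ≤ C)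
    (hα : 0 ≤ α) (G : (boxS d L → V) × (boxS d L → V))
    (h1 : ∀ z, 1 ≤ V1 k q s G z ∧ 1 ≤ V2 k q s G z)
    (hV : ∀ z, ∫⁻ ω in E, V1 k q s (H ω) z ^ 4 ∂μ ≤ ENNReal.ofReal C * V1 k q s G z ^ 4 ∧
      ∫⁻ ω in E, V2 k q s (H ω) z ^ 4 ∂μ ≤ ENNReal.ofReal C * V2 k q s G z ^ 4) (x : boxS d L) :
    ∫⁻ ω in E, wpr (boxNet d L) k q s α (H ω).1 (H ω).2 x ^ 4 ∂μ ≤
      ENNReal.ofReal C * wpr (boxNet d L) k q s α G.1 G.2 x ^ 4 := by
  set c1 : ℝ≥0∞ := ENNReal.ofReal C ^ (1 / 4 : ℝ) with hc1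
  have hm1 : ∀ z, Measurable fun ω => V1 k q s (H ω) z := fun z => (measurable_V k q s z).1.comp hH
  have hm2 : ∀ z, Measurable fun ω => V2 k q s (H ω) z := fun z => (measurable_V k q s z).2.comp hH
  have hroot : ∀ (v c : ℝ≥0∞), v ≤ ENNReal.ofReal C * c ^ 4 → v ^ (1 / 4 : ℝ) ≤ c1 * c := by
    intro v c h
    refine le_trans (ENNReal.rpow_le_rpow h (by norm_num)) (le_of_eq ?_)
    rw [ENNReal.mul_rpow_of_nonneg _ _ (by norm_num), ← ENNReal.rpow_natCast, ← ENNReal.rpow_mul]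
    norm_num
    rw [hc1]
  have h4 : ∀ v : Ω → ℝ≥0∞, ∫⁻ ω in E, v ω ^ (4 : ℝ) ∂μ = ∫⁻ ω in E, v ω ^ 4 ∂μ := by
    intro v
    refine lintegral_congr fun ω => ?_
    rw [← ENNReal.rpow_natCast]
    norm_num
  have hz : ∀ z, (∫⁻ ω in E, (V1 k q s (H ω) z + V2 k q s (H ω) z) ^ (4 : ℝ) ∂μ) ^ (1 / 4 : ℝ) ≤
      c1 * (V1 k q s G z + V2 k q s G z) := by
    intro z
    have h2 := ENNReal.lintegral_Lp_add_le (μ := μ.restrict E) (f := fun ω => V1 k q s (H ω) z)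
      (g := fun ω => V2 k q s (H ω) z) (hm1 z).aemeasurable (hm2 z).aemeasurable
      (show (1 : ℝ) ≤ 4 by norm_num)
    refine le_trans h2 ?_
    rw [mul_add]
    rw [h4, h4]
    exact add_le_add (hroot _ _ (hV z).1) (hroot _ _ (hV z).2)
  have h3 : (∫⁻ ω in E, wpr (boxNet d L) k q s α (H ω).1 (H ω).2 x ^ (4 : ℝ) ∂μ) ^ (1 / 4 : ℝ) ≤
      c1 * wpr (boxNet d L) k q s α G.1 G.2 x := by
    simp only [WprM_wpr]
    refine le_trans (WprM_mink_w Finset.univ (μ.restrict E) 4 (by norm_num)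
      (fun z => ENNReal.ofReal (α ^ (boxNet d L).dist x z))
      (fun z ω => V1 k q s (H ω) z + V2 k q s (H ω) z) (fun z => (hm1 z).add (hm2 z))) ?_
    rw [Finset.mul_sum]
    refine Finset.sum_le_sum fun z _ => ?_
    rw [← mul_assoc, mul_comm c1, mul_assoc]
    exact mul_le_mul_right (hz z) _
  have h5 := ENNReal.rpow_le_rpow h3 (show (0 : ℝ) ≤ 4 by norm_num)
  rw [← ENNReal.rpow_mul, ENNReal.mul_rpow_of_nonneg _ _ (by norm_num), hc1,
    ← ENNReal.rpow_mul] at h5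
  rw [show (1 / 4 : ℝ) * 4 = 1 by norm_num, ENNReal.rpow_one, ENNReal.rpow_one, h4] at h5
  refine le_trans h5 (le_of_eq ?_)
  congr 1
  rw [← ENNReal.rpow_natCast]
  norm_num

theorem wpr_dup (k q s α : ℝ) (hk : 0 < k) (hk1 : k < 1) (hq : 1 ≤ q) (hs : 0 < s)
    (hqs : q * s ≤ 1) (hα : 0 ≤ α) (G1 G : boxS d L → V) (x : boxS d L) :
    V1 k q s (G, G) x ≤ 2 * V2 k q s (G1, G) x ∧
      wpr (boxNet d L) k q s α G G x ≤ 4 * wpr (boxNet d L) k q s α G1 G x := by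
  have key : ∀ z, V1 k q s (G, G) z ≤ 2 * V2 k q s (G1, G) z := by
    intro z
    have h2 : V1 k q s (G, G) z = Vp (boxNet d L) k q s (fun y => ‖G y‖)
        (fun y => 2 * ‖G y‖) z := by
      unfold V1
      congr 1
      funext y
      ring
    rw [h2]
    refine le_trans (Vp_two (boxNet d L) hk hk1 (by linarith) hs (fun y => ‖G y‖) (fun y => ‖G y‖)
      (fun y => norm_nonneg _) z) ?_
    refine mul_le_mul' ?_ ?_
    · have h3 : (2 : ℝ) ^ (q * s) ≤ 2 ^ (1 : ℝ) :=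
        Real.rpow_le_rpow_of_exponent_le (by norm_num) hqs
      rw [Real.rpow_one] at h3
      refine le_trans (ENNReal.ofReal_le_ofReal h3) (le_of_eq ?_)
      exact ENNReal.ofReal_ofNat 2
    · unfold V2
      exact Vp_mono (boxNet d L) hk hk1 (by linarith) hs _ _ _ _ (fun y => le_rfl)
        (fun y => norm_nonneg _) (fun y => le_add_of_nonneg_left (norm_nonneg _)) z
  have key2 : ∀ z, V2 k q s (G, G) z ≤ 2 * V2 k q s (G1, G) z := fun z => key z
  refine ⟨key x, ?_⟩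
  have e1 : wpr (boxNet d L) k q s α G G x =
      ∑ z, ENNReal.ofReal (α ^ (boxNet d L).dist x z) *
        (V1 k q s (G, G) z + V2 k q s (G, G) z) := rfl
  have e2 : wpr (boxNet d L) k q s α G1 G x =
      ∑ z, ENNReal.ofReal (α ^ (boxNet d L).dist x z) *
        (V1 k q s (G1, G) z + V2 k q s (G1, G) z) := rfl
  rw [e1, e2, Finset.mul_sum]
  refine Finset.sum_le_sum fun z _ => ?_
  rw [← mul_assoc, mul_comm (4 : ℝ≥0∞), mul_assoc]
  refine mul_le_mul_right ?_ _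
  calc V1 k q s (G, G) z + V2 k q s (G, G) z
      ≤ 2 * V2 k q s (G1, G) z + 2 * V2 k q s (G1, G) z := add_le_add (key z) (key2 z)
    _ = 4 * V2 k q s (G1, G) z := by rw [← add_mul]; norm_num
    _ ≤ 4 * (V1 k q s (G1, G) z + V2 k q s (G1, G) z) := mul_le_mul_right le_add_self _

/-- pointwise: main part -/
noncomputable def T1f (k q s α : ℝ) (A : boxS d L → ℝ) (H : Ω → (boxS d L → V) × (boxS d L → V))
    (Al : Set Ω) (Db : boxS d L → Ω → ℝ≥0∞) (ω : Ω) : ℝ≥0∞ :=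
  Al.indicator (fun ω => ∑ x, ENNReal.ofReal (4 * A x) * Db x ω *
    wpr (boxNet d L) k q s α (H ω).1 (H ω).2 x) ω

/-- pointwise: error part -/
noncomputable def T2f (ε : ℝ) (H : Ω → (boxS d L → V) × (boxS d L → V))
    (Al : Set Ω) (ω : Ω) : ℝ≥0∞ :=
  ENNReal.ofReal (2 * (Fintype.card (boxS d L)) * ε *
    (1 + 2 * ∑ x, (‖(H ω).1 x‖ + ‖(H ω).2 x‖))) + Alᶜ.indicator (fun _ => 2) ω

theorem measurable_T1f (k q s α : ℝ) (A : boxS d L → ℝ)
    (H : Ω → (boxS d L → V) × (boxS d L → V)) (hH : Measurable H) (Al : Set Ω)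
    (hAl : MeasurableSet Al) (Db : boxS d L → Ω → ℝ≥0∞) (hDb : ∀ x, Measurable (Db x)) :
    Measurable (T1f k q s α A H Al Db) := by
  unfold T1f
  refine Measurable.indicator ?_ hAl
  refine Finset.measurable_fun_sum _ ?_
  intro x _
  exact ((hDb x).const_mul _).mul (WprM_meas_wpr k q s α H hH x)

theorem measurable_T2f (ε : ℝ) (H : Ω → (boxS d L → V) × (boxS d L → V)) (hH : Measurable H)
    (Al : Set Ω) (hAl : MeasurableSet Al) : Measurable (T2f ε H Al) := by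
  unfold T2f
  refine Measurable.add ?_ ((measurable_const (a := (2 : ℝ≥0∞))).indicator hAl.compl)
  refine Measurable.ennreal_ofReal ?_
  refine Measurable.const_mul ?_ _
  refine Measurable.const_add ?_ _
  refine Measurable.const_mul ?_ _
  refine Finset.measurable_fun_sum _ ?_
  intro x _
  exact (((measurable_pi_apply x).comp (measurable_fst.comp hH)).norm).add
    (((measurable_pi_apply x).comp (measurable_snd.comp hH)).norm)

theorem pair_pt (k q s α θ : ℝ) (hk : 0 < k) (hk1 : k < 1) (hq : 1 ≤ q) (hs : 0 < s)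
    (hqs : q * s ≤ 1) (hα : 0 ≤ α) (hθ : 0 < θ) (A : boxS d L → ℝ) (hA : ∀ x, 0 ≤ A x) (ε : ℝ)
    (he : 0 ≤ ε) (f : (boxS d L → V) → ℂ) (hf : Cls (boxNet d L) k q s α θ A ε f)
    (hb : ∀ G, ‖f G‖ ≤ 1) (H : Ω → (boxS d L → V) × (boxS d L → V)) (Al : Set Ω)
    (Db : boxS d L → Ω → ℝ≥0∞) (ω : Ω)
    (hD : ω ∈ Al → ∀ x, ENNReal.ofReal (‖(H ω).1 x - (H ω).2 x‖ ^ θ) ≤ Db x ω) :
    ENNReal.ofReal ‖f (H ω).1 - f (H ω).2‖ ≤ T1f k q s α A H Al Db ω + T2f ε H Al ω := by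
  by_cases hω : ω ∈ Al
  · refine le_trans (tele k q s α θ hk hk1 hq hs hqs hα hθ A hA ε he f hf (H ω).1 (H ω).2) ?_
    refine add_le_add ?_ ?_
    · unfold T1f
      rw [Set.indicator_of_mem hω]
      refine Finset.sum_le_sum fun x _ => ?_
      refine mul_le_mul_left ?_ _
      rw [ENNReal.ofReal_mul (mul_nonneg (by norm_num) (hA x))]
      exact mul_le_mul_right (hD hω x) _
    · unfold T2f
      exact le_self_add
  · refine le_trans ?_ le_add_self
    refine le_trans ?_ le_add_self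
    rw [Set.indicator_of_mem (by exact hω)]
    have h2 : ‖f (H ω).1 - f (H ω).2‖ ≤ 2 := by
      refine le_trans (norm_sub_le _ _) ?_
      linarith [hb (H ω).1, hb (H ω).2]
    refine le_trans (ENNReal.ofReal_le_ofReal h2) (le_of_eq ?_)
    exact ENNReal.ofReal_ofNat 2

theorem t1_bd (μ : Measure Ω) (k q s α : ℝ) (A : boxS d L → ℝ) (hA : ∀ x, 0 ≤ A x)
    (H : Ω → (boxS d L → V) × (boxS d L → V)) (hH : Measurable H) (Al : Set Ω)
    (hAl : MeasurableSet Al) (Db : boxS d L → Ω → ℝ≥0∞) (hDb : ∀ x, Measurable (Db x)) :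
    (∫⁻ ω, T1f k q s α A H Al Db ω ^ 2 ∂μ) ^ (1 / 2 : ℝ) ≤
      ∑ x, ENNReal.ofReal (4 * A x) * (∫⁻ ω in Al, Db x ω ^ 4 ∂μ) ^ (1 / 4 : ℝ) *
        (∫⁻ ω in Al, wpr (boxNet d L) k q s α (H ω).1 (H ω).2 x ^ 4 ∂μ) ^ (1 / 4 : ℝ) := by
  have hmw := WprM_meas_wpr k q s α H hH
  have e1 : ∫⁻ ω, T1f k q s α A H Al Db ω ^ 2 ∂μ =
      ∫⁻ ω in Al, (∑ x, ENNReal.ofReal (4 * A x) * (Db x ω *
        wpr (boxNet d L) k q s α (H ω).1 (H ω).2 x)) ^ (2 : ℝ) ∂μ := by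
    rw [← lintegral_indicator hAl]
    refine lintegral_congr fun ω => ?_
    unfold T1f
    by_cases hω : ω ∈ Al
    · rw [Set.indicator_of_mem hω, Set.indicator_of_mem hω, ← ENNReal.rpow_natCast]
      simp only [mul_assoc]
      norm_num
    · rw [Set.indicator_of_notMem hω, Set.indicator_of_notMem hω]
      norm_num
  rw [e1]
  refine le_trans (WprM_mink_w Finset.univ (μ.restrict Al) 2 (by norm_num)
    (fun x => ENNReal.ofReal (4 * A x))
    (fun x ω => Db x ω * wpr (boxNet d L) k q s α (H ω).1 (H ω).2 x)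
    (fun x => (hDb x).mul (hmw x))) ?_
  refine Finset.sum_le_sum fun x _ => ?_
  rw [mul_assoc]
  refine mul_le_mul_right ?_ _
  have h1 : ∫⁻ ω in Al, (Db x ω * wpr (boxNet d L) k q s α (H ω).1 (H ω).2 x) ^ (2 : ℝ) ∂μ ≤
      (∫⁻ ω in Al, Db x ω ^ 4 ∂μ) ^ (1 / 2 : ℝ) *
        (∫⁻ ω in Al, wpr (boxNet d L) k q s α (H ω).1 (H ω).2 x ^ 4 ∂μ) ^ (1 / 2 : ℝ) := by
    have h2 := ENNReal.lintegral_mul_le_Lp_mul_Lq (μ.restrict Al) Real.HolderConjugate.two_two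
      (f := fun ω => Db x ω ^ (2 : ℝ))
      (g := fun ω => wpr (boxNet d L) k q s α (H ω).1 (H ω).2 x ^ (2 : ℝ))
      ((hDb x).pow_const _).aemeasurable ((hmw x).pow_const _).aemeasurable
    have h3 : ∀ v : ℝ≥0∞, (v ^ (2 : ℝ)) ^ (2 : ℝ) = v ^ 4 := by
      intro v
      rw [← ENNReal.rpow_mul, ← ENNReal.rpow_natCast]
      norm_num
    simp only [h3] at h2
    refine le_trans (le_of_eq ?_) h2
    refine lintegral_congr fun ω => ?_
    exact ENNReal.mul_rpow_of_nonneg _ _ (by norm_num)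
  refine le_trans (ENNReal.rpow_le_rpow h1 (by norm_num)) (le_of_eq ?_)
  rw [ENNReal.mul_rpow_of_nonneg _ _ (by norm_num), ← ENNReal.rpow_mul, ← ENNReal.rpow_mul]
  norm_num

theorem pair_est (μ : Measure Ω) [IsProbabilityMeasure μ] (k q s α θ : ℝ) (hk : 0 < k)
    (hk1 : k < 1) (hq : 1 ≤ q) (hs : 0 < s)
    (hqs : q * s ≤ 1) (hα : 0 ≤ α) (hθ : 0 < θ) (A : boxS d L → ℝ) (hA : ∀ x, 0 ≤ A x) (ε : ℝ)
    (he : 0 ≤ ε) (f : (boxS d L → V) → ℂ) (hm : Measurable f)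
    (hf : Cls (boxNet d L) k q s α θ A ε f)
    (hb : ∀ G, ‖f G‖ ≤ 1) (H : Ω → (boxS d L → V) × (boxS d L → V)) (hH : Measurable H)
    (Al E : Set Ω) (hAl : MeasurableSet Al) (hE : MeasurableSet E)
    (Db : boxS d L → Ω → ℝ≥0∞) (hDb : ∀ x, Measurable (Db x))
    (hD : ∀ ω ∈ Al ∩ E, ∀ x, ENNReal.ofReal (‖(H ω).1 x - (H ω).2 x‖ ^ θ) ≤ Db x ω) :
    ∫⁻ ω in E, ENNReal.ofReal ‖f (H ω).1 - f (H ω).2‖ ∂μ ≤
      ∑ x, ENNReal.ofReal (4 * A x) * μ E ^ (1 / 2 : ℝ) *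
          (∫⁻ ω in Al, Db x ω ^ 4 ∂μ) ^ (1 / 4 : ℝ) *
          (∫⁻ ω in Al, wpr (boxNet d L) k q s α (H ω).1 (H ω).2 x ^ 4 ∂μ) ^ (1 / 4 : ℝ) +
        (ENNReal.ofReal (2 * (Fintype.card (boxS d L)) * ε) *
          (1 + 2 * ∫⁻ ω, ENNReal.ofReal (∑ x, (‖(H ω).1 x‖ + ‖(H ω).2 x‖)) ∂μ) + 2 * μ Alᶜ) := by
  have hmT1 := measurable_T1f k q s α A H hH Al hAl Db hDb
  have hmT2 := measurable_T2f ε H hH Al hAl
  have h1 : ∫⁻ ω in E, ENNReal.ofReal ‖f (H ω).1 - f (H ω).2‖ ∂μ ≤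
      ∫⁻ ω in E, T1f k q s α A H Al Db ω ∂μ + ∫⁻ ω, T2f ε H Al ω ∂μ := by
    calc ∫⁻ ω in E, ENNReal.ofReal ‖f (H ω).1 - f (H ω).2‖ ∂μ
        ≤ ∫⁻ ω in E, (T1f k q s α A H Al Db ω + T2f ε H Al ω) ∂μ := by
          refine setLIntegral_mono' hE fun ω hω => ?_
          exact pair_pt k q s α θ hk hk1 hq hs hqs hα hθ A hA ε he f hf hb H Al Db ω
            (fun h x => hD ω ⟨h, hω⟩ x)
      _ = ∫⁻ ω in E, T1f k q s α A H Al Db ω ∂μ + ∫⁻ ω in E, T2f ε H Al ω ∂μ :=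
          lintegral_add_left hmT1 _
      _ ≤ _ := add_le_add_right (setLIntegral_le_lintegral _ _) _
  refine le_trans h1 (add_le_add ?_ ?_)
  · have h2 : ∫⁻ ω in E, T1f k q s α A H Al Db ω ∂μ ≤
        μ E ^ (1 / 2 : ℝ) * (∫⁻ ω, T1f k q s α A H Al Db ω ^ 2 ∂μ) ^ (1 / 2 : ℝ) := by
      have h3 := ENNReal.lintegral_mul_le_Lp_mul_Lq (μ.restrict E) Real.HolderConjugate.two_two
        (f := fun _ => (1 : ℝ≥0∞)) (g := fun ω => T1f k q s α A H Al Db ω)
        aemeasurable_const hmT1.aemeasurable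
      have e2 : ∫⁻ ω in E, (((fun _ => (1 : ℝ≥0∞)) : Ω → ℝ≥0∞) *
          (fun ω => T1f k q s α A H Al Db ω : Ω → ℝ≥0∞)) ω ∂μ =
          ∫⁻ ω in E, T1f k q s α A H Al Db ω ∂μ := by
        refine lintegral_congr fun ω => ?_
        rw [Pi.mul_apply, one_mul]
      rw [e2] at h3
      refine le_trans h3 ?_
      refine mul_le_mul' (le_of_eq ?_) ?_
      · rw [ENNReal.one_rpow, setLIntegral_one]
      · refine ENNReal.rpow_le_rpow ?_ (by norm_num)
        refine le_trans (setLIntegral_le_lintegral _ _) (le_of_eq ?_)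
        refine lintegral_congr fun ω => ?_
        rw [← ENNReal.rpow_natCast]
        norm_num
    refine le_trans h2 ?_
    refine le_trans (mul_le_mul_right (t1_bd μ k q s α A hA H hH Al hAl Db hDb) _) ?_
    rw [Finset.mul_sum]
    refine le_of_eq (Finset.sum_congr rfl fun x _ => ?_)
    ring
  · have hms : Measurable fun ω => ENNReal.ofReal (∑ x, (‖(H ω).1 x‖ + ‖(H ω).2 x‖)) := by
      refine Measurable.ennreal_ofReal ?_
      refine Finset.measurable_fun_sum _ ?_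
      intro x _
      exact (((measurable_pi_apply x).comp (measurable_fst.comp hH)).norm).add
        (((measurable_pi_apply x).comp (measurable_snd.comp hH)).norm)
    have e3 : ∀ ω, T2f ε H Al ω = ENNReal.ofReal (2 * (Fintype.card (boxS d L)) * ε) *
        (1 + 2 * ENNReal.ofReal (∑ x, (‖(H ω).1 x‖ + ‖(H ω).2 x‖))) +
          Alᶜ.indicator (fun _ => 2) ω := by
      intro ω
      unfold T2f
      congr 1
      have hs0 : 0 ≤ ∑ x, (‖(H ω).1 x‖ + ‖(H ω).2 x‖) :=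
        Finset.sum_nonneg fun x _ => by positivity
      rw [ENNReal.ofReal_mul (by positivity), ENNReal.ofReal_add (by norm_num) (by positivity),
        ENNReal.ofReal_mul (p := 2) (by norm_num), ENNReal.ofReal_one, ENNReal.ofReal_ofNat]
    simp only [e3]
    rw [lintegral_add_left ((hms.const_mul _).const_add _ |>.const_mul _),
      lintegral_indicator hAl.compl, setLIntegral_const,
      lintegral_const_mul _ ((hms.const_mul _).const_add _),
      lintegral_add_left measurable_const, lintegral_const_mul _ hms, lintegral_one,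
      measure_univ]

end DynC
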