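import Pool.Agent.Lib_MP_36b788c.Osc

/-!
# Last passage functional: deterministic facts

PROOF. All by induction on the number of steps.
* `lpp_nonneg`, `lpp_mono` (in the initial field), `lpp_shift` (semigroup), `lpp_neg_single` (staying at `x`:
  `W_{n}(x) ≥ Σ_{[m,n)} g(x)` for every `m ≤ n`, because `W_m ≥ 0` and `W_{j+1} ≥ W_j + g_j`).
* `lpp_path`: for a path `γ`, `W_{j+1}(γ_{j+1}) ≥ W_j(γ_j) - q dd(γ_j,γ_{j+1}) + g_j(γ_{j+1})`: if `γ_{j+1} = γ_j` by the
  second entry of the max, otherwise `dd ≥ 1`, so `max dd 1 = dd` and `g ≤ g⁺` (third entry).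
* `lpp_le_exJ`: `exp(λ W_m(x)) ≤ Σ_{i≤m} exJ m i x` when `exp(λ W0) ≤ w0`: the three cases of the max in the
  definition: `0`: `exJ (m+1) 0 ≥ 1`; stay: termwise; jump: `exp(λ(W_m(z) - q max(dd,1))) ≤ Σ_i exJ m i z e^{-λ q max(dd,1)} ≤
  Σ_i Σ_z' …`.
* `exJ_group`: on a group of `K` steps (`m ≤ K`), `w0 i` the weights at the start (all `≥ 0`, `w0 0 ≥ 1`):
  `exJ` after `a + m` steps `≤ Σ_{l ≤ i} Σ_z exJ_a^{(i-l)}(z) gk^{(l)}(z,x)`. Prove first the sharper statement where in the last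
  factor `osc` is replaced by the current rise `ρ_m(x) = P_m - min_{m' ≤ m} P_{m'}` (`ρ_{m+1} = max(ρ_m + g, 0)`, so `ρ_{m+1} ≥ ρ_m+g`,
  `ρ_{m+1} ≥ g⁺`, `0 ≤ ρ_m ≤ osc`). Step without jump: factor `e^{λ g}`; the entry `1` in `exJ (m+1) 0` is `≤ w0 e^{λρ}`. Step with a
  jump from `z` to `x`: `e^{λρ_m(z)} ≤ e^{λ osc(z)}`, factor `e^{λ g⁺} ≤ e^{λ ρ_{m+1}(x)}`.
-/

open MeasureTheory ProbabilityTheory
open scoped ENNReal

namespace DynC

variable {S : Type} [Fintype S] {D : ℕ} (M : MSet S D)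

theorem Rq1_le (q : ℝ) (F : S → ℝ) (x : S) (c : ℝ)
    (h : ∀ z, F z - q * max (M.dd x z : ℝ) 1 ≤ c) : M.Rq1 q F x ≤ c := by
  unfold MSet.Rq1
  apply Finset.max'_le
  intro y hy
  obtain ⟨z, _, rfl⟩ := Finset.mem_image.mp hy
  exact h z

theorem le_Rq1 (q : ℝ) (F : S → ℝ) (x z : S) : F z - q * max (M.dd x z : ℝ) 1 ≤ M.Rq1 q F x := by
  unfold MSet.Rq1
  exact Finset.le_max' _ _ (Finset.mem_image_of_mem
    (fun z => F z - q * max (M.dd x z : ℝ) 1) (Finset.mem_univ z))

private theorem LPPa_Rq1_mono (q : ℝ) (F G : S → ℝ) (h : ∀ z, F z ≤ G z) (x : S) :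
    M.Rq1 q F x ≤ M.Rq1 q G x :=
  Rq1_le M q F x _ fun z => (sub_le_sub_right (h z) _).trans (le_Rq1 M q G x z)

private theorem LPPa_Rq1_attained (q : ℝ) (F : S → ℝ) (x : S) :
    ∃ z, M.Rq1 q F x = F z - q * max (M.dd x z : ℝ) 1 := by
  have h := Finset.max'_mem (Finset.univ.image fun z => F z - q * max (M.dd x z : ℝ) 1)
    ⟨F x - q * max (M.dd x x : ℝ) 1, Finset.mem_image_of_mem _ (Finset.mem_univ x)⟩
  obtain ⟨z, _, hz⟩ := Finset.mem_image.mp h
  exact ⟨z, hz.symm⟩

private theorem LPPa_Rq1_eq_sup (q : ℝ) (F : S → ℝ) (x : S) :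
    M.Rq1 q F x = Finset.univ.sup' ⟨x, Finset.mem_univ x⟩
      (fun z => F z - q * max (M.dd x z : ℝ) 1) := by
  apply le_antisymm
  · exact Rq1_le M q F x _ fun z =>
      Finset.le_sup' (f := fun z => F z - q * max (M.dd x z : ℝ) 1) (Finset.mem_univ z)
  · exact Finset.sup'_le _ _ fun z _ => le_Rq1 M q F x z

private theorem LPPa_lpp_succ (q : ℝ) (W0 : S → ℝ) (g : ℕ → S → ℝ) (n : ℕ) (x : S) :
    M.lpp q W0 g (n + 1) x = max 0 (max (M.lpp q W0 g n x + g n x)
      (M.Rq1 q (M.lpp q W0 g n) x + max (g n x) 0)) := rfl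

theorem lpp_nonneg (q : ℝ) (W0 : S → ℝ) (h0 : ∀ z, 0 ≤ W0 z) (g : ℕ → S → ℝ) (n : ℕ) (x : S) :
    0 ≤ M.lpp q W0 g n x := by
  cases n with
  | zero => exact h0 x
  | succ n => exact le_max_left _ _

theorem lpp_mono (q : ℝ) (W0 W0' : S → ℝ) (h : ∀ z, W0 z ≤ W0' z) (g : ℕ → S → ℝ) (n : ℕ) (x : S) :
    M.lpp q W0 g n x ≤ M.lpp q W0' g n x := by
  induction n generalizing x with
  | zero => exact h x
  | succ n ih =>
    rw [LPPa_lpp_succ, LPPa_lpp_succ]
    exact max_le_max le_rfl (max_le_max (add_le_add (ih x) le_rfl)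
      (add_le_add (LPPa_Rq1_mono M q _ _ ih x) le_rfl))

theorem lpp_shift (q : ℝ) (W0 : S → ℝ) (g : ℕ → S → ℝ) (n m : ℕ) :
    M.lpp q W0 g (n + m) = M.lpp q (M.lpp q W0 g n) (fun j => g (n + j)) m := by
  induction m with
  | zero => rfl
  | succ m ih =>
    funext x
    rw [← Nat.add_assoc, LPPa_lpp_succ, LPPa_lpp_succ, ih]

theorem lpp_congr (q : ℝ) (W0 : S → ℝ) (g g' : ℕ → S → ℝ) (n : ℕ) (h : ∀ j, j < n → g j = g' j) :
    M.lpp q W0 g n = M.lpp q W0 g' n := by
  induction n with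
  | zero => rfl
  | succ n ih =>
    funext x
    rw [LPPa_lpp_succ, LPPa_lpp_succ, ih fun j hj => h j (Nat.lt_succ_of_lt hj),
      h n (Nat.lt_succ_self n)]

theorem le_lppM (q : ℝ) (W0 : S → ℝ) (g : ℕ → S → ℝ) {m n : ℕ} (h : m ≤ n) (x : S) :
    M.lpp q W0 g m x ≤ M.lppM q W0 g n x :=
  Finset.le_sup' (f := fun m => M.lpp q W0 g m x)
    (Finset.mem_range.mpr (Nat.lt_succ_of_le h))

theorem lppM_nonneg (q : ℝ) (W0 : S → ℝ) (h0 : ∀ z, 0 ≤ W0 z) (g : ℕ → S → ℝ) (n : ℕ) (x : S) :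
    0 ≤ M.lppM q W0 g n x :=
  (lpp_nonneg M q W0 h0 g 0 x).trans (le_lppM M q W0 g (Nat.zero_le n) x)

theorem lppM_succ (q : ℝ) (W0 : S → ℝ) (g : ℕ → S → ℝ) (n m : ℕ) (x : S) :
    M.lppM q W0 g (n + m) x = max (M.lppM q W0 g n x)
      (M.lppM q (M.lpp q W0 g n) (fun j => g (n + j)) m x) := by
  apply le_antisymm
  · refine Finset.sup'_le _ _ fun k hk => ?_
    have hk' : k ≤ n + m := Nat.lt_succ_iff.mp (Finset.mem_range.mp hk)
    rcases le_total k n with h | h
    · exact le_max_of_le_left (le_lppM M q W0 g h x)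
    · obtain ⟨j, rfl⟩ := Nat.exists_eq_add_of_le h
      refine le_max_of_le_right ?_
      change M.lpp q W0 g (n + j) x ≤ _
      rw [lpp_shift]
      exact le_lppM M q _ _ (by omega) x
  · refine max_le ?_ ?_
    · refine Finset.sup'_le _ _ fun k hk => ?_
      have hk' : k ≤ n := Nat.lt_succ_iff.mp (Finset.mem_range.mp hk)
      exact le_lppM M q W0 g (by omega) x
    · refine Finset.sup'_le _ _ fun k hk => ?_
      have hk' : k ≤ m := Nat.lt_succ_iff.mp (Finset.mem_range.mp hk)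
      change M.lpp q (M.lpp q W0 g n) (fun j => g (n + j)) k x ≤ _
      rw [← lpp_shift]
      exact le_lppM M q W0 g (by omega) x

private theorem LPPa_meas_Rq1 {Ω : Type} [MeasurableSpace Ω] (q : ℝ) (F : Ω → S → ℝ)
    (hF : ∀ z, Measurable fun ω => F ω z) (x : S) : Measurable fun ω => M.Rq1 q (F ω) x := by
  have h : (fun ω => M.Rq1 q (F ω) x) = fun ω => Finset.univ.sup' ⟨x, Finset.mem_univ x⟩
      (fun z => F ω z - q * max (M.dd x z : ℝ) 1) := by
    funext ω
    exact LPPa_Rq1_eq_sup M q (F ω) x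
  rw [h]
  have h2 := Finset.measurable_sup' (s := (Finset.univ : Finset S)) ⟨x, Finset.mem_univ x⟩
    (f := fun z (ω : Ω) => F ω z - q * max (M.dd x z : ℝ) 1)
    (fun z _ => (hF z).sub_const _)
  have h3 : (fun ω => Finset.univ.sup' ⟨x, Finset.mem_univ x⟩
      (fun z => F ω z - q * max (M.dd x z : ℝ) 1)) = Finset.univ.sup' ⟨x, Finset.mem_univ x⟩
      (fun z (ω : Ω) => F ω z - q * max (M.dd x z : ℝ) 1) := by
    funext ω
    rw [Finset.sup'_apply]
  rw [h3]
  exact h2

private theorem LPPa_meas {Ω : Type} [MeasurableSpace Ω] (q : ℝ) (W : Ω → S → ℝ)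
    (hW : ∀ z, Measurable fun ω => W ω z) (g : Ω → ℕ → S → ℝ)
    (hg : ∀ j z, Measurable fun ω => g ω j z) (n : ℕ) (x : S) :
    Measurable fun ω => M.lpp q (W ω) (g ω) n x := by
  induction n generalizing x with
  | zero => exact hW x
  | succ n ih =>
    have h : (fun ω => M.lpp q (W ω) (g ω) (n + 1) x) = fun ω =>
        max 0 (max (M.lpp q (W ω) (g ω) n x + g ω n x)
          (M.Rq1 q (M.lpp q (W ω) (g ω) n) x + max (g ω n x) 0)) := rfl
    rw [h]
    exact measurable_const.max (((ih x).add (hg n x)).max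
      ((LPPa_meas_Rq1 M q _ ih x).add ((hg n x).max measurable_const)))

private theorem LPPa_meas_g (j : ℕ) (z : S) : Measurable fun g : ℕ → S → ℝ => g j z :=
  (measurable_pi_apply z).comp (measurable_pi_apply j)

theorem measurable_lpp (q : ℝ) (W0 : S → ℝ) (n : ℕ) (x : S) :
    Measurable (fun g : ℕ → S → ℝ => M.lpp q W0 g n x) :=
  LPPa_meas M q (fun _ => W0) (fun _ => measurable_const) (fun g => g)
    (fun j z => LPPa_meas_g j z) n x

theorem measurable_lpp2 (q : ℝ) (n : ℕ) (x : S) :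
    Measurable (fun p : (S → ℝ) × (ℕ → S → ℝ) => M.lpp q p.1 p.2 n x) :=
  LPPa_meas M q (fun p : (S → ℝ) × (ℕ → S → ℝ) => p.1)
    (fun z => (measurable_pi_apply z).comp measurable_fst)
    (fun p : (S → ℝ) × (ℕ → S → ℝ) => p.2) (fun j z => (LPPa_meas_g j z).comp measurable_snd) n x

theorem measurable_lppM (q : ℝ) (W0 : S → ℝ) (n : ℕ) (x : S) :
    Measurable (fun g : ℕ → S → ℝ => M.lppM q W0 g n x) := by
  unfold MSet.lppM
  exact Finset.measurable_range_sup'' fun m _ => measurable_lpp M q W0 m x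

/-- the gain on a path is dominated -/
theorem lpp_path (q : ℝ) (W0 : S → ℝ) (h0 : ∀ z, 0 ≤ W0 z) (g : ℕ → S → ℝ) (γ : ℕ → S) {a m : ℕ}
    (ham : a ≤ m) :
    ∑ i ∈ Finset.Ico a m, (g i (γ (i + 1)) - q * M.dd (γ i) (γ (i + 1)))
      ≤ M.lpp q W0 g m (γ m) := by
  induction m, ham using Nat.le_induction with
  | base =>
    rw [Finset.Ico_self, Finset.sum_empty]
    exact lpp_nonneg M q W0 h0 g a _
  | succ m ham ih =>
    rw [Finset.sum_Ico_succ_top ham, LPPa_lpp_succ]
    refine le_max_of_le_right ?_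
    by_cases h : γ (m + 1) = γ m
    · refine le_max_of_le_left ?_
      rw [h, M.dd_self]
      push_cast
      linarith
    · refine le_max_of_le_right ?_
      have h1 := le_Rq1 M q (M.lpp q W0 g m) (γ (m + 1)) (γ m)
      have h2 : (1 : ℝ) ≤ (M.dd (γ (m + 1)) (γ m) : ℝ) := by
        exact_mod_cast M.dd_pos _ _ h
      rw [max_eq_left h2, M.dd_comm] at h1
      have h3 := le_max_left (g m (γ (m + 1))) 0
      linarith

theorem exJ_nonneg (lam q : ℝ) (w0 : S → ℝ) (h0 : ∀ z, 0 ≤ w0 z) (g : ℕ → S → ℝ) (m i : ℕ)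
    (x : S) : 0 ≤ M.exJ lam q w0 g m i x := by
  induction m generalizing i x with
  | zero =>
    cases i with
    | zero => exact h0 x
    | succ i => exact le_rfl
  | succ m ih =>
    cases i with
    | zero => exact zero_le_one.trans (le_max_left _ _)
    | succ i =>
      exact (mul_nonneg (ih (i + 1) x) (Real.exp_pos _).le).trans (le_max_left _ _)

theorem exJ_of_lt (lam q : ℝ) (w0 : S → ℝ) (g : ℕ → S → ℝ) (m i : ℕ) (h : m < i) (x : S) :
    M.exJ lam q w0 g m i x = 0 := by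
  induction m generalizing i x with
  | zero =>
    cases i with
    | zero => exact absurd h (lt_irrefl 0)
    | succ i => rfl
  | succ m ih =>
    cases i with
    | zero => exact absurd h (Nat.not_lt_zero _)
    | succ i =>
      have h1 : M.exJ lam q w0 g (m + 1) (i + 1) x =
          max (M.exJ lam q w0 g m (i + 1) x * Real.exp (lam * g m x))
          ((∑ z, M.exJ lam q w0 g m i z * Real.exp (-(lam * q * max (M.dd x z : ℝ) 1)))
            * Real.exp (lam * max (g m x) 0)) := rfl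
      rw [h1, ih (i + 1) (by omega) x, Finset.sum_eq_zero, zero_mul, zero_mul, max_self]
      intro z _
      rw [ih i (by omega) z, zero_mul]

private theorem LPPa_exJ_zero (lam q : ℝ) (w0 : S → ℝ) (g : ℕ → S → ℝ) (m : ℕ) (x : S) :
    M.exJ lam q w0 g (m + 1) 0 x =
      max 1 (M.exJ lam q w0 g m 0 x * Real.exp (lam * g m x)) := rfl

private theorem LPPa_exJ_succ (lam q : ℝ) (w0 : S → ℝ) (g : ℕ → S → ℝ) (m i : ℕ) (x : S) :
    M.exJ lam q w0 g (m + 1) (i + 1) x =
      max (M.exJ lam q w0 g m (i + 1) x * Real.exp (lam * g m x))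
      ((∑ z, M.exJ lam q w0 g m i z * Real.exp (-(lam * q * max (M.dd x z : ℝ) 1)))
        * Real.exp (lam * max (g m x) 0)) := rfl

private theorem LPPa_one_le_exJ (lam q : ℝ) (w0 : S → ℝ) (h1 : ∀ z, 1 ≤ w0 z) (g : ℕ → S → ℝ)
    (m : ℕ) (x : S) : 1 ≤ M.exJ lam q w0 g m 0 x := by
  cases m with
  | zero => exact h1 x
  | succ m => exact le_max_left _ _

theorem lpp_le_exJ (lam q : ℝ) (hl : 0 ≤ lam) (W0 w0 : S → ℝ) (h1 : ∀ z, 1 ≤ w0 z)
    (h0 : ∀ z, Real.exp (lam * W0 z) ≤ w0 z) (g : ℕ → S → ℝ) (m : ℕ) (x : S) :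
    Real.exp (lam * M.lpp q W0 g m x) ≤ ∑ i ∈ Finset.range (m + 1), M.exJ lam q w0 g m i x := by
  have hw : ∀ z, 0 ≤ w0 z := fun z => zero_le_one.trans (h1 z)
  induction m generalizing x with
  | zero =>
    rw [Finset.sum_range_one]
    exact h0 x
  | succ m ih =>
    have hnn : ∀ i, 0 ≤ M.exJ lam q w0 g (m + 1) i x := fun i => exJ_nonneg M lam q w0 hw g _ i x
    have hcase : M.lpp q W0 g (m + 1) x = 0 ∨
        M.lpp q W0 g (m + 1) x = M.lpp q W0 g m x + g m x ∨
        M.lpp q W0 g (m + 1) x = M.Rq1 q (M.lpp q W0 g m) x + max (g m x) 0 := by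
      rw [LPPa_lpp_succ]
      rcases max_choice (0 : ℝ) (max (M.lpp q W0 g m x + g m x)
        (M.Rq1 q (M.lpp q W0 g m) x + max (g m x) 0)) with h | h
      · exact Or.inl h
      · rw [h]
        exact Or.inr (max_choice _ _)
    rcases hcase with h | h | h
    · rw [h, mul_zero, Real.exp_zero]
      exact (LPPa_one_le_exJ M lam q w0 h1 g (m + 1) x).trans
        (Finset.single_le_sum (f := fun i => M.exJ lam q w0 g (m + 1) i x)
          (fun i _ => hnn i) (Finset.mem_range.mpr (Nat.succ_pos _)))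
    · rw [h, mul_add, Real.exp_add]
      calc Real.exp (lam * M.lpp q W0 g m x) * Real.exp (lam * g m x)
          ≤ (∑ i ∈ Finset.range (m + 1), M.exJ lam q w0 g m i x) * Real.exp (lam * g m x) :=
            mul_le_mul_of_nonneg_right (ih x) (Real.exp_pos _).le
        _ = ∑ i ∈ Finset.range (m + 1), M.exJ lam q w0 g m i x * Real.exp (lam * g m x) :=
            Finset.sum_mul _ _ _
        _ ≤ ∑ i ∈ Finset.range (m + 1), M.exJ lam q w0 g (m + 1) i x := by
            refine Finset.sum_le_sum fun i _ => ?_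
            cases i with
            | zero => exact le_max_right _ _
            | succ i => exact le_max_left _ _
        _ ≤ ∑ i ∈ Finset.range (m + 1 + 1), M.exJ lam q w0 g (m + 1) i x := by
            rw [Finset.sum_range_succ _ (m + 1)]
            exact le_add_of_nonneg_right (hnn _)
    · obtain ⟨z, hz⟩ := LPPa_Rq1_attained M q (M.lpp q W0 g m) x
      rw [h, mul_add, Real.exp_add, hz]
      have e1 : Real.exp (lam * (M.lpp q W0 g m z - q * max (M.dd x z : ℝ) 1)) =
          Real.exp (lam * M.lpp q W0 g m z) * Real.exp (-(lam * q * max (M.dd x z : ℝ) 1)) := by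
        rw [← Real.exp_add]
        congr 1
        ring
      rw [e1]
      calc Real.exp (lam * M.lpp q W0 g m z) * Real.exp (-(lam * q * max (M.dd x z : ℝ) 1)) *
            Real.exp (lam * max (g m x) 0)
          ≤ (∑ i ∈ Finset.range (m + 1), M.exJ lam q w0 g m i z) *
            Real.exp (-(lam * q * max (M.dd x z : ℝ) 1)) * Real.exp (lam * max (g m x) 0) :=
            mul_le_mul_of_nonneg_right (mul_le_mul_of_nonneg_right (ih z) (Real.exp_pos _).le)
              (Real.exp_pos _).le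
        _ = ∑ i ∈ Finset.range (m + 1), M.exJ lam q w0 g m i z *
            Real.exp (-(lam * q * max (M.dd x z : ℝ) 1)) * Real.exp (lam * max (g m x) 0) := by
            rw [Finset.sum_mul, Finset.sum_mul]
        _ ≤ ∑ i ∈ Finset.range (m + 1), M.exJ lam q w0 g (m + 1) (i + 1) x := by
            refine Finset.sum_le_sum fun i _ => ?_
            refine le_trans ?_ (le_max_right _ _)
            refine mul_le_mul_of_nonneg_right ?_ (Real.exp_pos _).le
            exact Finset.single_le_sum (f := fun z => M.exJ lam q w0 g m i z *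
              Real.exp (-(lam * q * max (M.dd x z : ℝ) 1)))
              (fun z _ => mul_nonneg (exJ_nonneg M lam q w0 hw g m i z) (Real.exp_pos _).le)
              (Finset.mem_univ z)
        _ ≤ ∑ i ∈ Finset.range (m + 1 + 1), M.exJ lam q w0 g (m + 1) i x := by
            rw [Finset.sum_range_succ' _ (m + 1)]
            exact le_add_of_nonneg_right (hnn _)

/-- current rise of the partial sums -/
private noncomputable def LPPa_rho (b : ℕ → ℝ) : ℕ → ℝ
  | 0 => 0
  | m + 1 => max (LPPa_rho b m + b m) 0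

private theorem LPPa_rho_nonneg (b : ℕ → ℝ) (m : ℕ) : 0 ≤ LPPa_rho b m := by
  cases m with
  | zero => exact le_rfl
  | succ m => exact le_max_right _ _

private theorem LPPa_rho_eq (b : ℕ → ℝ) (m : ℕ) :
    ∃ j, j ≤ m ∧ LPPa_rho b m = ∑ l ∈ Finset.Ico j m, b l := by
  induction m with
  | zero => exact ⟨0, le_rfl, by simp [LPPa_rho]⟩
  | succ m ih =>
    obtain ⟨j, hj, h⟩ := ih
    rcases max_choice (LPPa_rho b m + b m) 0 with h1 | h1
    · refine ⟨j, by omega, ?_⟩
      change max (LPPa_rho b m + b m) 0 = _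
      rw [h1, Finset.sum_Ico_succ_top hj, h]
    · refine ⟨m + 1, le_rfl, ?_⟩
      change max (LPPa_rho b m + b m) 0 = _
      rw [h1, Finset.Ico_self, Finset.sum_empty]

private theorem LPPa_rho_le (b : ℕ → ℝ) {m K : ℕ} (h : m ≤ K) : LPPa_rho b m ≤ osc b K := by
  obtain ⟨j, hj, he⟩ := LPPa_rho_eq b m
  rw [he]
  exact (le_abs_self _).trans (sum_le_osc b hj h)

/-- the group kernel without its last factor -/
private noncomputable def LPPa_c (lam q : ℝ) (g : ℕ → S → ℝ) (K : ℕ) : ℕ → S → S → ℝ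
  | 0 => fun z x => open Classical in if z = x then 1 else 0
  | l + 1 => fun z x => ∑ y, M.gk lam q g K l z y * Real.exp (-(lam * q * max (M.dd y x : ℝ) 1))

private theorem LPPa_gk_eq (lam q : ℝ) (g : ℕ → S → ℝ) (K l : ℕ) (z x : S) :
    M.gk lam q g K l z x = LPPa_c M lam q g K l z x *
      Real.exp (lam * osc (fun j => g j x) K) := by
  cases l with
  | zero =>
    simp only [MSet.gk, LPPa_c]
    split_ifs <;> simp
  | succ l => rfl

private theorem LPPa_gk_nonneg (lam q : ℝ) (g : ℕ → S → ℝ) (K l : ℕ) (z x : S) :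
    0 ≤ M.gk lam q g K l z x := by
  induction l generalizing x with
  | zero =>
    simp only [MSet.gk]
    split_ifs
    · exact (Real.exp_pos _).le
    · exact le_rfl
  | succ l ih =>
    exact mul_nonneg (Finset.sum_nonneg fun y _ => mul_nonneg (ih y) (Real.exp_pos _).le)
      (Real.exp_pos _).le

private theorem LPPa_c_nonneg (lam q : ℝ) (g : ℕ → S → ℝ) (K l : ℕ) (z x : S) :
    0 ≤ LPPa_c M lam q g K l z x := by
  cases l with
  | zero =>
    simp only [LPPa_c]
    split_ifs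
    · exact zero_le_one
    · exact le_rfl
  | succ l =>
    exact Finset.sum_nonneg fun y _ => mul_nonneg (LPPa_gk_nonneg M lam q g K l z y)
      (Real.exp_pos _).le

/-- the sum `C_i(x)` -/
private noncomputable def LPPa_C (lam q : ℝ) (w0 : S → ℝ) (g : ℕ → S → ℝ) (a K i : ℕ) (x : S) :
    ℝ :=
  ∑ l ∈ Finset.range (i + 1), ∑ z, M.exJ lam q w0 g a (i - l) z *
    LPPa_c M lam q (fun j => g (a + j)) K l z x

private theorem LPPa_C_mul (lam q : ℝ) (w0 : S → ℝ) (g : ℕ → S → ℝ) (a K i : ℕ) (x : S) :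
    LPPa_C M lam q w0 g a K i x * Real.exp (lam * osc (fun j => g (a + j) x) K) =
      ∑ l ∈ Finset.range (i + 1), ∑ z,
        M.exJ lam q w0 g a (i - l) z * M.gk lam q (fun j => g (a + j)) K l z x := by
  unfold LPPa_C
  rw [Finset.sum_mul]
  refine Finset.sum_congr rfl fun l _ => ?_
  rw [Finset.sum_mul]
  refine Finset.sum_congr rfl fun z _ => ?_
  rw [LPPa_gk_eq, mul_assoc]

private theorem LPPa_exJ_le_C (lam q : ℝ) (w0 : S → ℝ) (hw : ∀ z, 0 ≤ w0 z) (g : ℕ → S → ℝ)
    (a K i : ℕ) (x : S) : M.exJ lam q w0 g a i x ≤ LPPa_C M lam q w0 g a K i x := by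
  classical
  have h1 : M.exJ lam q w0 g a i x = ∑ z, M.exJ lam q w0 g a (i - 0) z *
      LPPa_c M lam q (fun j => g (a + j)) K 0 z x := by
    rw [Nat.sub_zero, Finset.sum_eq_single x]
    · simp [LPPa_c]
    · intro z _ hz
      simp [LPPa_c, hz]
    · intro h
      exact absurd (Finset.mem_univ x) h
  rw [h1]
  exact Finset.single_le_sum (f := fun l => ∑ z, M.exJ lam q w0 g a (i - l) z *
    LPPa_c M lam q (fun j => g (a + j)) K l z x)
    (fun l _ => Finset.sum_nonneg fun z _ => mul_nonneg (exJ_nonneg M lam q w0 hw g a _ z)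
      (LPPa_c_nonneg M lam q _ K l z x)) (Finset.mem_range.mpr (Nat.succ_pos i))

private theorem LPPa_C_nonneg (lam q : ℝ) (w0 : S → ℝ) (hw : ∀ z, 0 ≤ w0 z) (g : ℕ → S → ℝ)
    (a K i : ℕ) (x : S) : 0 ≤ LPPa_C M lam q w0 g a K i x :=
  (exJ_nonneg M lam q w0 hw g a i x).trans (LPPa_exJ_le_C M lam q w0 hw g a K i x)

private theorem LPPa_C_jump (lam q : ℝ) (w0 : S → ℝ) (hw : ∀ z, 0 ≤ w0 z) (g : ℕ → S → ℝ)
    (a K i : ℕ) (x : S) :
    ∑ z, (LPPa_C M lam q w0 g a K i z * Real.exp (lam * osc (fun j => g (a + j) z) K)) *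
      Real.exp (-(lam * q * max (M.dd x z : ℝ) 1)) ≤ LPPa_C M lam q w0 g a K (i + 1) x := by
  have h1 : ∑ z, (LPPa_C M lam q w0 g a K i z * Real.exp (lam * osc (fun j => g (a + j) z) K)) *
      Real.exp (-(lam * q * max (M.dd x z : ℝ) 1)) =
      ∑ l ∈ Finset.range (i + 1), ∑ y, M.exJ lam q w0 g a (i + 1 - (l + 1)) y *
        LPPa_c M lam q (fun j => g (a + j)) K (l + 1) y x := by
    have h2 : ∀ z, (LPPa_C M lam q w0 g a K i z *
        Real.exp (lam * osc (fun j => g (a + j) z) K)) *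
        Real.exp (-(lam * q * max (M.dd x z : ℝ) 1)) =
        ∑ l ∈ Finset.range (i + 1), ∑ y, M.exJ lam q w0 g a (i - l) y *
          (M.gk lam q (fun j => g (a + j)) K l y z *
            Real.exp (-(lam * q * max (M.dd z x : ℝ) 1))) := by
      intro z
      rw [LPPa_C_mul, Finset.sum_mul]
      refine Finset.sum_congr rfl fun l _ => ?_
      rw [Finset.sum_mul]
      refine Finset.sum_congr rfl fun y _ => ?_
      rw [mul_assoc, M.dd_comm x z]
    rw [Finset.sum_congr rfl fun z _ => h2 z, Finset.sum_comm]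
    refine Finset.sum_congr rfl fun l _ => ?_
    rw [Finset.sum_comm]
    refine Finset.sum_congr rfl fun y _ => ?_
    rw [← Finset.mul_sum, Nat.add_sub_add_right]
    rfl
  rw [h1]
  unfold LPPa_C
  rw [Finset.sum_range_succ' _ (i + 1)]
  refine le_add_of_nonneg_right ?_
  exact Finset.sum_nonneg fun z _ => mul_nonneg (exJ_nonneg M lam q w0 hw g a _ z)
    (LPPa_c_nonneg M lam q _ K _ z x)

private theorem LPPa_group (lam q : ℝ) (hl : 0 ≤ lam) (w0 : S → ℝ) (h1 : ∀ z, 1 ≤ w0 z)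
    (g : ℕ → S → ℝ) (a K m : ℕ) (hm : m ≤ K) (i : ℕ) (x : S) :
    M.exJ lam q w0 g (a + m) i x ≤ LPPa_C M lam q w0 g a K i x *
      Real.exp (lam * LPPa_rho (fun j => g (a + j) x) m) := by
  have hw : ∀ z, 0 ≤ w0 z := fun z => zero_le_one.trans (h1 z)
  induction m generalizing i x with
  | zero =>
    have h2 : LPPa_rho (fun j => g (a + j) x) 0 = 0 := rfl
    rw [h2, mul_zero, Real.exp_zero, mul_one]
    exact LPPa_exJ_le_C M lam q w0 hw g a K i x
  | succ m ih =>
    have ih' := ih (by omega)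
    have hrho : LPPa_rho (fun j => g (a + j) x) (m + 1) =
      max (LPPa_rho (fun j => g (a + j) x) m + g (a + m) x) 0 := rfl
    have hC := LPPa_C_nonneg M lam q w0 hw g a K
    -- a step without jump
    have hstay : ∀ i, M.exJ lam q w0 g (a + m) i x * Real.exp (lam * g (a + m) x) ≤
        LPPa_C M lam q w0 g a K i x *
          Real.exp (lam * LPPa_rho (fun j => g (a + j) x) (m + 1)) := by
      intro i
      calc M.exJ lam q w0 g (a + m) i x * Real.exp (lam * g (a + m) x)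
          ≤ LPPa_C M lam q w0 g a K i x *
            Real.exp (lam * LPPa_rho (fun j => g (a + j) x) m) * Real.exp (lam * g (a + m) x) :=
            mul_le_mul_of_nonneg_right (ih' i x) (Real.exp_pos _).le
        _ = LPPa_C M lam q w0 g a K i x *
            Real.exp (lam * (LPPa_rho (fun j => g (a + j) x) m + g (a + m) x)) := by
            rw [mul_assoc, ← Real.exp_add, mul_add]
        _ ≤ _ := by
            refine mul_le_mul_of_nonneg_left (Real.exp_le_exp.mpr ?_) (hC i x)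
            rw [hrho]
            exact mul_le_mul_of_nonneg_left (le_max_left _ _) hl
    have hidx : a + (m + 1) = (a + m) + 1 := rfl
    rw [hidx]
    cases i with
    | zero =>
      rw [LPPa_exJ_zero]
      refine max_le ?_ (hstay 0)
      have h3 : 1 ≤ LPPa_C M lam q w0 g a K 0 x :=
        (LPPa_one_le_exJ M lam q w0 h1 g a x).trans (LPPa_exJ_le_C M lam q w0 hw g a K 0 x)
      have h4 : 1 ≤ Real.exp (lam * LPPa_rho (fun j => g (a + j) x) (m + 1)) :=
        Real.one_le_exp (mul_nonneg hl (LPPa_rho_nonneg _ _))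
      nlinarith
    | succ i =>
      rw [LPPa_exJ_succ]
      refine max_le (hstay (i + 1)) ?_
      have h5 : ∑ z, M.exJ lam q w0 g (a + m) i z *
          Real.exp (-(lam * q * max (M.dd x z : ℝ) 1)) ≤ LPPa_C M lam q w0 g a K (i + 1) x := by
        refine le_trans (Finset.sum_le_sum fun z _ => ?_)
          (LPPa_C_jump M lam q w0 hw g a K i x)
        refine mul_le_mul_of_nonneg_right ((ih' i z).trans ?_) (Real.exp_pos _).le
        refine mul_le_mul_of_nonneg_left (Real.exp_le_exp.mpr ?_) (hC i z)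
        exact mul_le_mul_of_nonneg_left (LPPa_rho_le _ (by omega)) hl
      refine mul_le_mul h5 (Real.exp_le_exp.mpr ?_) (Real.exp_pos _).le (hC (i + 1) x)
      refine mul_le_mul_of_nonneg_left ?_ hl
      rw [hrho]
      refine max_le_max ?_ le_rfl
      have := LPPa_rho_nonneg (fun j => g (a + j) x) m
      linarith

theorem exJ_group (lam q : ℝ) (hl : 0 ≤ lam) (w0 : S → ℝ) (h1 : ∀ z, 1 ≤ w0 z) (g : ℕ → S → ℝ)
    (a K m : ℕ) (hm : m ≤ K) (i : ℕ) (x : S) :
    M.exJ lam q w0 g (a + m) i x ≤ ∑ l ∈ Finset.range (i + 1), ∑ z,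
      M.exJ lam q w0 g a (i - l) z * M.gk lam q (fun j => g (a + j)) K l z x := by
  have hw : ∀ z, 0 ≤ w0 z := fun z => zero_le_one.trans (h1 z)
  rw [← LPPa_C_mul]
  refine (LPPa_group M lam q hl w0 h1 g a K m hm i x).trans ?_
  refine mul_le_mul_of_nonneg_left (Real.exp_le_exp.mpr ?_)
    (LPPa_C_nonneg M lam q w0 hw g a K i x)
  exact mul_le_mul_of_nonneg_left (LPPa_rho_le _ hm) hl

end DynC
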