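import Pool.Agent.Lib_MP_36b788c.Grw
import Pool.Agent.Lib_MP_36b788c.LPPa

/-!
# Path bound with prescribed upper bounds at some sites and times

`grow_path2`: as `grow_path`, but at each step and site either the growth inequality holds or the value is at most `A exp(ell H)`.
-/

open MeasureTheory ProbabilityTheory
open scoped ENNReal

namespace DynC

open Dyn

private theorem Grw3_W0 (d L : ℕ) (q : ℝ) (g : ℕ → boxS d L → ℝ) (n : ℕ) (x : boxS d L) :
    (boxMSet d L).lpp q (fun _ => 0) g n x + g n x ≤ (boxMSet d L).lpp q (fun _ => 0) g (n + 1) x := by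
  show _ ≤ max 0 (max ((boxMSet d L).lpp q (fun _ => 0) g n x + g n x) _)
  exact (le_max_left _ _).trans (le_max_right _ _)

private theorem Grw3_W1 (d L : ℕ) (q : ℝ) (g : ℕ → boxS d L → ℝ) (n : ℕ)
    (x y : boxS d L) (hy : (boxNet d L).dist x y ≤ 1) :
    (boxMSet d L).lpp q (fun _ => 0) g n y ≤ (boxMSet d L).lpp q (fun _ => 0) g (n + 1) x + q := by
  have h1 : (boxMSet d L).lpp q (fun _ => 0) g n y - q * max ((boxMSet d L).dd x y : ℝ) 1 ≤
      (boxMSet d L).Rq1 q ((boxMSet d L).lpp q (fun _ => 0) g n) x := by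
    unfold MSet.Rq1
    exact Finset.le_max' (Finset.univ.image fun z : boxS d L =>
      (boxMSet d L).lpp q (fun _ => 0) g n z - q * max ((boxMSet d L).dd x z : ℝ) 1) _
      (Finset.mem_image_of_mem _ (Finset.mem_univ y))
  have h2 : max ((boxMSet d L).dd x y : ℝ) 1 = 1 := by
    apply max_eq_right
    exact_mod_cast hy
  rw [h2] at h1
  have h3 : (boxMSet d L).Rq1 q ((boxMSet d L).lpp q (fun _ => 0) g n) x + max (g n x) 0 ≤
      (boxMSet d L).lpp q (fun _ => 0) g (n + 1) x := by
    show _ ≤ max 0 (max _ ((boxMSet d L).Rq1 q ((boxMSet d L).lpp q (fun _ => 0) g n) x +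
      max (g n x) 0))
    exact (le_max_right _ _).trans (le_max_right _ _)
  have h4 : 0 ≤ max (g n x) 0 := le_max_right _ _
  linarith

theorem grow_path2 (d L : ℕ) (k h ε q' ρ A : ℝ) (hk : 0 < k) (hk1 : k < 1) (hh : 0 < h)
    (hA : 0 ≤ A) (hq' : 0 ≤ q') (hρ : 0 ≤ ρ) (hε : 0 < ε) (hs : q' + ρ + ε ≤ 1)
    (b D : ℕ → boxS d L → ℝ) (H : boxS d L → ℝ)
    (hH : ∀ x, ∀ y ∈ (boxNet d L).nb x, H y ≤ H x + ρ)
    (h0 : ∀ x, D 0 x ≤ A * Real.exp (ell k * H x)) (n : ℕ)
    (hD : ∀ j, j < n → ∀ x,
      D (j + 1) x ≤ Real.exp (b j x) * D j x + k * h * cpl (boxNet d L) (D j) x ∨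
        D (j + 1) x ≤ A * Real.exp (ell k * H x)) (x : boxS d L) :
    D n x ≤ A * (1 + 4 * d * k ^ ε * h) ^ n *
      Real.exp (ell k * ((boxMSet d L).lpp q' (fun _ => 0) (fun j y => b j y / ell k) n x + H x)) := by
  have hell : 0 < ell k := by
    unfold ell
    apply Real.log_pos
    rw [lt_div_iff₀ hk]
    linarith
  have hkexp : k = Real.exp (-ell k) := by
    unfold ell
    rw [one_div, Real.log_inv, neg_neg, Real.exp_log hk]
  have hkeps : k ^ ε = Real.exp (-(ell k * ε)) := by
    conv_lhs => rw [hkexp]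
    rw [← Real.exp_mul]
    congr 1
    ring
  have hkpos : 0 ≤ k ^ ε := Real.rpow_nonneg hk.le _
  have hfac : 0 ≤ 1 + 4 * (d : ℝ) * k ^ ε * h := by positivity
  induction n generalizing x with
  | zero =>
    have h1 := h0 x
    show D 0 x ≤ A * (1 + 4 * d * k ^ ε * h) ^ 0 * Real.exp (ell k * (0 + H x))
    rw [pow_zero, mul_one, zero_add]
    exact h1
  | succ n ih0 =>
    have ih := ih0 (fun j hj => hD j (Nat.lt_succ_of_lt hj))
    set W := (boxMSet d L).lpp q' (fun _ => 0) (fun j y => b j y / ell k) with hW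
    set P : ℝ := A * (1 + 4 * d * k ^ ε * h) ^ n with hP
    have hP0 : 0 ≤ P := mul_nonneg hA (pow_nonneg hfac _)
    set E : ℝ := Real.exp (ell k * (W (n + 1) x + H x)) with hE
    have hE0 : 0 ≤ E := (Real.exp_pos _).le
    rcases hD n (Nat.lt_succ_self n) x with hup | hup
    swap
    · refine hup.trans ?_
      have hW0 : 0 ≤ W (n + 1) x :=
        lpp_nonneg (boxMSet d L) q' (fun _ => 0) (fun _ => le_refl _) _ (n + 1) x
      have hone : 1 ≤ (1 + 4 * (d : ℝ) * k ^ ε * h) ^ (n + 1) := by
        apply one_le_pow₀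
        have : 0 ≤ 4 * (d : ℝ) * k ^ ε * h := by positivity
        linarith
      have hAA : A ≤ A * (1 + 4 * (d : ℝ) * k ^ ε * h) ^ (n + 1) := by
        nlinarith
      refine mul_le_mul hAA ?_ (Real.exp_pos _).le (mul_nonneg hA (pow_nonneg hfac _))
      apply Real.exp_le_exp.mpr
      apply mul_le_mul_of_nonneg_left _ hell.le
      linarith
    have hself : Real.exp (b n x) * D n x ≤ P * E := by
      have h1 := Grw3_W0 d L q' (fun j y => b j y / ell k) n x
      have h1' : W n x + b n x / ell k ≤ W (n + 1) x := h1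
      calc Real.exp (b n x) * D n x
          ≤ Real.exp (b n x) * (P * Real.exp (ell k * (W n x + H x))) :=
            mul_le_mul_of_nonneg_left (ih x) (Real.exp_pos _).le
        _ = P * Real.exp (ell k * (W n x + b n x / ell k + H x)) := by
            have h2 : ell k * (W n x + b n x / ell k + H x) =
                b n x + ell k * (W n x + H x) := by
              field_simp
              ring
            rw [h2, Real.exp_add]
            ring
        _ ≤ P * E := by
            apply mul_le_mul_of_nonneg_left _ hP0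
            apply Real.exp_le_exp.mpr
            apply mul_le_mul_of_nonneg_left _ hell.le
            linarith
    have hcoup : ∀ y, (boxNet d L).dist x y ≤ 1 → H y ≤ H x + ρ →
        D n y ≤ P * E * Real.exp (ell k * (q' + ρ)) := by
      intro y hy hHy
      have h1 := Grw3_W1 d L q' (fun j y => b j y / ell k) n x y hy
      have h1' : W n y ≤ W (n + 1) x + q' := h1
      refine (ih y).trans ?_
      rw [mul_assoc P E, hE, ← Real.exp_add]
      apply mul_le_mul_of_nonneg_left _ hP0
      apply Real.exp_le_exp.mpr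
      rw [← mul_add]
      apply mul_le_mul_of_nonneg_left _ hell.le
      linarith
    set Q : ℝ := P * E * Real.exp (ell k * (q' + ρ)) with hQ
    have hQ0 : 0 ≤ Q := mul_nonneg (mul_nonneg hP0 hE0) (Real.exp_pos _).le
    have hcpl : cpl (boxNet d L) (D n) x ≤ 4 * d * Q := by
      unfold cpl
      have h1 : ∑ y ∈ (boxNet d L).nb x, D n y ≤ 2 * d * Q := by
        calc ∑ y ∈ (boxNet d L).nb x, D n y ≤ ∑ y ∈ (boxNet d L).nb x, Q :=
              Finset.sum_le_sum fun y hy =>
                hcoup y (le_of_eq ((boxNet d L).dist_nb x y hy)) (hH x y hy)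
          _ = ((boxNet d L).nb x).card * Q := by rw [Finset.sum_const, nsmul_eq_mul]
          _ ≤ 2 * d * Q := by
              apply mul_le_mul_of_nonneg_right _ hQ0
              exact_mod_cast (boxNet d L).nb_card x
      have h2 : ((2 * d : ℕ) : ℝ) * D n x ≤ 2 * d * Q := by
        have h3 := hcoup x (by rw [(boxNet d L).dist_self]; exact Nat.zero_le _)
          (by linarith)
        push_cast
        exact mul_le_mul_of_nonneg_left h3 (by positivity)
      linarith
    have hkQ : k * Q ≤ P * E * k ^ ε := by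
      have h1 : k * Q = P * E * (k * Real.exp (ell k * (q' + ρ))) := by
        rw [hQ]
        ring
      rw [h1, hkeps]
      apply mul_le_mul_of_nonneg_left _ (mul_nonneg hP0 hE0)
      have h2 : k * Real.exp (ell k * (q' + ρ)) = Real.exp (-ell k + ell k * (q' + ρ)) := by
        rw [Real.exp_add, ← hkexp]
      rw [h2]
      apply Real.exp_le_exp.mpr
      nlinarith
    calc D (n + 1) x ≤ Real.exp (b n x) * D n x + k * h * cpl (boxNet d L) (D n) x := hup
      _ ≤ P * E + k * h * (4 * d * Q) := by
          apply add_le_add hself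
          exact mul_le_mul_of_nonneg_left hcpl (by positivity)
      _ = P * E + 4 * d * h * (k * Q) := by ring
      _ ≤ P * E + 4 * d * h * (P * E * k ^ ε) := by
          have h5 : 4 * (d : ℝ) * h * (k * Q) ≤ 4 * d * h * (P * E * k ^ ε) :=
            mul_le_mul_of_nonneg_left hkQ (by positivity)
          linarith
      _ = A * (1 + 4 * d * k ^ ε * h) ^ (n + 1) * E := by
          rw [hP, pow_succ]
          ring

end DynC
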