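import Pool.Agent.Lib_MP_36b788c.Brg1b
import Pool.Agent.Lib_MP_36b788c.Grw3
import Pool.Agent.Lib_MP_36b788c.St2
import Pool.Agent.Lib_MP_36b788c.LPPa

/-!
# The bridge: profile of the difference (deterministic)

PROOF of `brg_dif`. `M8' = M8 - 1`, `Z j` the trajectory, `D j v = ‖(Z j).1 v - (Z j).2 v‖`, `W j v = lpp (1/8) 0 (gz k h ω) j v`. CLAIM, by induction on `j ≤ n` (all `v`): `D j v ≤ A0 (1 + 4d k^{5/16} h)^j exp(ell(M8' + 1/4 + W j v - (9/16) dist y v))`. This is `grow_path2` with `q' = 1/8`, `ρ = 9/16`, `ε = 5/16`, `A = A0 exp(ell(M8'+1/4))`, `H v = -(9/16) dist y v`, used inside a strong induction: for `v` outside the ball the control vanishes and `D (j+1) v ≤ e^{b} D j v + k h cpl (D j) v` (`st2_d1` in `St2.lean`).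
For `z` in the ball and `1 ≤ j ≤ n`: `D j z ≤ A0 exp(ell(M8' + 1/4 - (9/16) dist y z))`. `δ_i = log((Z i).2 z/(Z i).1 z)`. `brg_step`, `brg_step2` (all states before `n` are regular): `‖δ_j‖ ≤ bd j`, `‖δ_j‖ ≤ Π(1 + h k^{κ'}) (‖δ_0‖ + Σ_{i<j} 4 h k Σ_{v ∈ nb z} D i v/‖(Z i).2 z‖)`, the product is `≤ exp(ell³ k^{κ'}) ≤ 2`.
`D j z = ‖(Z j).2 z‖ |1 - e^{-δ_j}| ≤ ‖(Z j).2 z‖ ‖δ_j‖ e^{‖δ_j‖}`, `e^{‖δ_j‖} ≤ e^{bd j} ≤ e^5 k^{-κ/16}` (`bd j ≤ m0 + ς ns ≤ (κ/16) ell + 5`). `‖(Z 0).2 z‖ ‖δ_0‖ ≤ C(1 + ell) D 0 z` (`|e^{-δ} - 1| ≥ |δ|/(C(1+|δ|))` for `|Im δ| ≤ π`). Ratios `‖(Z j).2 z‖ ≤ k^{-κ/4}‖(Z i).2 z‖`. So `D j z ≤ k^{-κ/2}(D 0 z + k Σ_{i<j} h Σ_{v ∈ nb z} D i v)`.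
`D 0 z ≤ A0 exp(ell(M8' - (5/8) dist)) ≤ k^{1/4} A0 exp(ell(M8' + 1/4 - (9/16) dist y z))`, `κ/2 < 1/4`. Neighbours: claim at `i < j`, `W i v ≤ κ/8` (hypothesis): `D i v ≤ 2 A0 exp(ell(M8' + 1/4 + κ/8 - (9/16)(dist y z - 1)))`, total factor `4 d ell³ k^{1 - κ/2 - κ/8 - 9/16} ≤ 1/2`.
Conclusion from the claim at `n` and `W n v ≤ 1/4 + dist y v/16`: exponent `M8' + 1/2 + o(1) - dist/2 ≤ M8 - dist/2`.
-/

open MeasureTheory ProbabilityTheory
open scoped ENNReal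

namespace DynC

open Dyn

private theorem Brg2b_ell0 {k : ℝ} (hk : 0 < k) (hk1 : k < 1) : 0 < ell k := by
  unfold ell
  apply Real.log_pos
  rw [lt_div_iff₀ hk]
  linarith

private theorem Brg2b_kexp {k : ℝ} (hk : 0 < k) (a : ℝ) : Real.exp (ell k * a) = k ^ (-a) := by
  rw [Real.rpow_def_of_pos hk]
  congr 1
  unfold ell
  rw [one_div, Real.log_inv]
  ring

private theorem Brg2b_ell (a : ℝ) (ha : 0 < a) (c : ℝ) (hc : 0 < c) :
    ∃ k0 : ℝ, 0 < k0 ∧ k0 < 1 ∧ ∀ k, 0 < k → k < k0 → ell k ^ 3 * k ^ a ≤ c := by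
  obtain ⟨k0, h0, h1, h2⟩ : ∃ k0 : ℝ, 0 < k0 ∧ k0 < 1 ∧ ∀ k, 0 < k → k < k0 →
      k ^ (a / 2) ≤ c / (6 / a) ^ 3 := by
    refine ⟨min (1 / 2) ((c / (6 / a) ^ 3) ^ (1 / (a / 2))), by positivity,
      (min_le_left _ _).trans_lt (by norm_num), fun k hk hk0 => ?_⟩
    have hc' : 0 < c / (6 / a) ^ 3 := by positivity
    have ha' : 0 < a / 2 := by positivity
    have h1 : k ≤ (c / (6 / a) ^ 3) ^ (1 / (a / 2)) := hk0.le.trans (min_le_right _ _)
    have h2 := Real.rpow_le_rpow hk.le h1 ha'.le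
    rw [← Real.rpow_mul hc'.le, one_div, inv_mul_cancel₀ ha'.ne', Real.rpow_one] at h2
    exact h2
  refine ⟨k0, h0, h1, fun k hk hkk => ?_⟩
  have h3 := h2 k hk hkk
  have hk1 : k < 1 := hkk.trans h1
  have h4 : ell k ≤ (6 / a) * k ^ (-(a / 6)) := by
    have h5 := Real.log_le_rpow_div (x := 1 / k) (by positivity) (ε := a / 6) (by positivity)
    unfold ell
    refine h5.trans (le_of_eq ?_)
    rw [one_div, Real.inv_rpow hk.le, Real.rpow_neg hk.le]
    field_simp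
  have h5 : ell k ^ 3 ≤ (6 / a) ^ 3 * k ^ (-(a / 2)) := by
    have h6 := pow_le_pow_left₀ (Brg2b_ell0 hk hk1).le h4 3
    refine h6.trans (le_of_eq ?_)
    rw [mul_pow, ← Real.rpow_natCast (k ^ (-(a / 6))), ← Real.rpow_mul hk.le]
    congr 2
    push_cast
    ring
  calc ell k ^ 3 * k ^ a ≤ (6 / a) ^ 3 * k ^ (-(a / 2)) * k ^ a := by gcongr
    _ = (6 / a) ^ 3 * k ^ (a / 2) := by
        rw [mul_assoc, ← Real.rpow_add hk]
        congr 2
        ring
    _ ≤ (6 / a) ^ 3 * (c / (6 / a) ^ 3) := by gcongr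
    _ = c := by field_simp

private theorem Brg2b_exp1 (x : ℂ) : ‖Complex.exp x - 1‖ ≤ ‖x‖ * Real.exp ‖x‖ := by
  have h1 := Complex.norm_exp_sub_sum_le_norm_mul_exp x 1
  simpa using h1

private theorem Brg2b_log (w : ℂ) :
    ‖Complex.log w‖ ≤ 2 * (1 + ‖Complex.log w‖) * ‖w - 1‖ := by
  have hl := norm_nonneg (Complex.log w)
  have hx := norm_nonneg (w - 1)
  rcases le_or_gt ‖w - 1‖ (1 / 2) with h | h
  · have h1 := Complex.norm_log_one_add_half_le_self h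
    rw [add_sub_cancel] at h1
    nlinarith
  · nlinarith

private theorem Brg2b_dif (a b : ℂ) (ha : a ≠ 0) (hb : b ≠ 0) :
    ‖a - b‖ ≤ ‖b‖ * (‖Complex.log (b / a)‖ * Real.exp ‖Complex.log (b / a)‖) := by
  have h1 : Complex.exp (-Complex.log (b / a)) = a / b := by
    rw [Complex.exp_neg, Complex.exp_log (div_ne_zero hb ha), inv_div]
  have h2 := Brg2b_exp1 (-Complex.log (b / a))
  rw [norm_neg, h1] at h2
  have h3 : a - b = b * (a / b - 1) := by
    field_simp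
  rw [h3, norm_mul]
  exact mul_le_mul_of_nonneg_left h2 (norm_nonneg _)

private theorem Brg2b_low (a b : ℂ) (hb : b ≠ 0) :
    ‖b‖ * ‖Complex.log (b / a)‖ ≤ 2 * (1 + ‖Complex.log (b / a)‖) * ‖a - b‖ := by
  have h0 : ‖Complex.log (a / b)‖ = ‖Complex.log (b / a)‖ := by
    rw [← inv_div, Complex.log_inv_eq_ite]
    split_ifs
    · rw [norm_neg, RCLike.norm_conj]
    · rw [norm_neg]
  have h1 := Brg2b_log (a / b)
  rw [h0] at h1
  have h3 : a - b = b * (a / b - 1) := by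
    field_simp
  rw [h3, norm_mul]
  have h4 := norm_nonneg b
  nlinarith [mul_le_mul_of_nonneg_left h1 h4]

private theorem Brg2b_bd {d L : ℕ} (P : BPar d L) (hm : 0 ≤ P.m0) (hς : 0 ≤ P.ς) (j : ℕ)
    (hj : j ≤ P.ns) : P.bd j ≤ P.m0 + P.ς * P.ns := by
  unfold BPar.bd
  have hjn : (j : ℝ) ≤ P.ns := by exact_mod_cast hj
  have hn1 : (0 : ℝ) < P.ns + 1 := by positivity
  have h1 : P.m0 / (P.ns + 1) * (P.ns + 1 - j) ≤ P.m0 := by
    rw [div_mul_eq_mul_div, div_le_iff₀ hn1]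
    have : (0 : ℝ) ≤ j := Nat.cast_nonneg j
    nlinarith
  have h2 : lamS P.ns j * (P.ns + 1 - j) ≤ P.ns := by
    unfold lamS
    rw [Finset.sum_mul]
    calc ∑ i ∈ Finset.range j, 1 / ((P.ns : ℝ) - i) * (P.ns + 1 - j)
        ≤ ∑ i ∈ Finset.range j, (1 : ℝ) := by
          refine Finset.sum_le_sum fun i hi => ?_
          have hi' : (i : ℝ) + 1 ≤ j := by exact_mod_cast Finset.mem_range.1 hi
          have h3 : 0 < (P.ns : ℝ) - i := by linarith
          rw [one_div_mul_eq_div, div_le_one h3]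
          linarith
      _ = j := by simp
      _ ≤ P.ns := hjn
  calc (P.m0 / (P.ns + 1) + P.ς * lamS P.ns j) * (P.ns + 1 - j)
      = P.m0 / (P.ns + 1) * (P.ns + 1 - j) + P.ς * (lamS P.ns j * (P.ns + 1 - j)) := by ring
    _ ≤ P.m0 + P.ς * P.ns := add_le_add h1 (mul_le_mul_of_nonneg_left h2 hς)

private theorem Brg2b_gron (a : ℝ) (ha : 0 ≤ a) (x s : ℕ → ℝ) (n : ℕ)
    (hs : ∀ i, i < n → 0 ≤ s i)
    (hx : ∀ i, i < n → x (i + 1) ≤ (1 + a) * x i + s i) :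
    x n ≤ (1 + a) ^ n * (x 0 + ∑ i ∈ Finset.range n, s i) := by
  induction n with
  | zero => simp
  | succ n ih =>
    have h1 := ih (fun i hi => hs i (by omega)) (fun i hi => hx i (by omega))
    have h2 := hx n (by omega)
    have h3 := hs n (by omega)
    have h4 : 1 ≤ (1 + a) ^ (n + 1) := one_le_pow₀ (by linarith)
    rw [Finset.sum_range_succ]
    calc x (n + 1) ≤ (1 + a) * x n + s n := h2
      _ ≤ (1 + a) * ((1 + a) ^ n * (x 0 + ∑ i ∈ Finset.range n, s i)) +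
          (1 + a) ^ (n + 1) * s n := by
        apply add_le_add (mul_le_mul_of_nonneg_left h1 (by linarith))
        nlinarith
      _ = (1 + a) ^ (n + 1) * (x 0 + (∑ i ∈ Finset.range n, s i + s n)) := by ring

private theorem Brg2b_in (d : ℕ) (κ k h l T a D0 : ℝ) (N2 δ S : ℕ → ℝ) (m : ℕ)
    (hκ : 0 < κ) (hκ1 : κ ≤ 1 / 8) (hk : 0 < k) (hh : 0 < h) (hl : 1 ≤ l) (hT : 0 ≤ T)
    (ha : 0 ≤ a) (hδn : ∀ i, 0 ≤ δ i) (hSn : ∀ i, 0 ≤ S i) (hD0 : 0 ≤ D0)
    (hE : Real.exp (κ / 16 * l) = k ^ (-(κ / 16)))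
    (h0 : N2 0 * δ 0 ≤ 2 * (1 + δ 0) * D0) (h0' : δ 0 ≤ κ / 16 * l + 5)
    (hm : δ m ≤ κ / 16 * l + 5)
    (hstep : ∀ i, i < m → δ (i + 1) ≤ (1 + a) * δ i + 4 * h * k * S i / N2 i)
    (hpos : ∀ i, i < m → 0 < N2 i) (hNm : 0 ≤ N2 m)
    (hN : ∀ i, i ≤ m → N2 m ≤ k ^ (-(κ / 4)) * N2 i)
    (ha2 : (1 + a) ^ m ≤ 2) (hD : D0 ≤ k ^ (1 / 4 : ℝ) * T)
    (hS : ∀ i, i < m → S i ≤ 2 * d * (2 * T * k ^ (-(κ / 8 + 9 / 16))))
    (hmh : m * h ≤ l ^ 3)
    (c3 : l ^ 3 * k ^ (1 / 4 - 5 * κ / 16) ≤ 1 / (56 * Real.exp 5))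
    (c4 : l ^ 3 * k ^ (7 / 16 - 7 * κ / 16) ≤ 1 / (64 * Real.exp 5 * (d + 1))) :
    N2 m * (δ m * Real.exp (δ m)) ≤ T := by
  have hl3 : l ≤ l ^ 3 := by nlinarith [mul_nonneg (by linarith : (0:ℝ) ≤ l - 1) (by linarith : (0:ℝ) ≤ l), sq_nonneg (l - 1), mul_nonneg (mul_nonneg (by linarith : (0:ℝ) ≤ l - 1) (by linarith : (0:ℝ) ≤ l)) (by linarith : (0:ℝ) ≤ l)]
  have hl31 : 1 ≤ l ^ 3 := one_le_pow₀ hl
  have hkq : 0 ≤ k ^ (-(κ / 4)) := Real.rpow_nonneg hk.le _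
  have hk16 : 0 ≤ k ^ (-(κ / 16)) := Real.rpow_nonneg hk.le _
  -- exponential of `δ m`
  have hexp : Real.exp (δ m) ≤ Real.exp 5 * k ^ (-(κ / 16)) := by
    rw [← hE, ← Real.exp_add]
    exact Real.exp_le_exp.2 (by linarith)
  have hgr := Brg2b_gron a ha δ (fun i => 4 * h * k * S i / N2 i) m
    (fun i hi => div_nonneg (mul_nonneg (by positivity) (hSn i)) (hpos i hi).le) hstep
  have hsn : 0 ≤ δ 0 + ∑ i ∈ Finset.range m, 4 * h * k * S i / N2 i :=
    add_nonneg (hδn 0) (Finset.sum_nonneg fun i hi =>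
      div_nonneg (mul_nonneg (by positivity) (hSn i)) (hpos i (Finset.mem_range.1 hi)).le)
  have hδm : δ m ≤ 2 * (δ 0 + ∑ i ∈ Finset.range m, 4 * h * k * S i / N2 i) :=
    hgr.trans (mul_le_mul_of_nonneg_right ha2 hsn)
  -- first term
  have t0 : N2 m * δ 0 ≤ k ^ (-(κ / 4)) * (2 * (6 + κ / 16 * l) * (k ^ (1 / 4 : ℝ) * T)) := by
    calc N2 m * δ 0 ≤ k ^ (-(κ / 4)) * N2 0 * δ 0 :=
          mul_le_mul_of_nonneg_right (hN 0 (Nat.zero_le _)) (hδn 0)
      _ = k ^ (-(κ / 4)) * (N2 0 * δ 0) := by ring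
      _ ≤ k ^ (-(κ / 4)) * (2 * (6 + κ / 16 * l) * (k ^ (1 / 4 : ℝ) * T)) := by
          refine mul_le_mul_of_nonneg_left (h0.trans ?_) hkq
          have h1 : 0 ≤ k ^ (1 / 4 : ℝ) * T := hD0.trans hD
          have h2 : 2 * (1 + δ 0) ≤ 2 * (6 + κ / 16 * l) := by linarith
          exact mul_le_mul h2 hD hD0 (by positivity)
  have t1 : ∀ i ∈ Finset.range m, N2 m * (4 * h * k * S i / N2 i) ≤
      k ^ (-(κ / 4)) * (4 * h * k * (2 * d * (2 * T * k ^ (-(κ / 8 + 9 / 16))))) := by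
    intro i hi
    have hi' := Finset.mem_range.1 hi
    have hp := hpos i hi'
    calc N2 m * (4 * h * k * S i / N2 i)
        ≤ k ^ (-(κ / 4)) * N2 i * (4 * h * k * S i / N2 i) := by
          refine mul_le_mul_of_nonneg_right (hN i hi'.le) ?_
          exact div_nonneg (mul_nonneg (by positivity) (hSn i)) hp.le
      _ = k ^ (-(κ / 4)) * (4 * h * k * S i) := by
          field_simp
      _ ≤ k ^ (-(κ / 4)) * (4 * h * k * (2 * d * (2 * T * k ^ (-(κ / 8 + 9 / 16))))) := by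
          have := hS i hi'
          gcongr
  have t2 : N2 m * ∑ i ∈ Finset.range m, 4 * h * k * S i / N2 i ≤
      16 * d * (m * h) * T * k ^ (7 / 16 - 3 * κ / 8) := by
    rw [Finset.mul_sum]
    refine (Finset.sum_le_sum t1).trans (le_of_eq ?_)
    rw [Finset.sum_const, Finset.card_range, nsmul_eq_mul]
    have e1 : k ^ (7 / 16 - 3 * κ / 8) = k ^ (-(κ / 4)) * (k * k ^ (-(κ / 8 + 9 / 16))) := by
      nth_rewrite 3 [← Real.rpow_one k]
      rw [← Real.rpow_add hk, ← Real.rpow_add hk]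
      congr 1
      ring
    rw [e1]
    ring
  have t3 : N2 m * δ m ≤ 2 * (k ^ (-(κ / 4)) * (2 * (6 + κ / 16 * l) * (k ^ (1 / 4 : ℝ) * T)) +
      16 * d * l ^ 3 * T * k ^ (7 / 16 - 3 * κ / 8)) := by
    have h5 : 16 * d * (m * h) * T * k ^ (7 / 16 - 3 * κ / 8) ≤
        16 * d * l ^ 3 * T * k ^ (7 / 16 - 3 * κ / 8) := by
      gcongr
    calc N2 m * δ m ≤ N2 m * (2 * (δ 0 + ∑ i ∈ Finset.range m, 4 * h * k * S i / N2 i)) :=
          mul_le_mul_of_nonneg_left hδm hNm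
      _ = 2 * (N2 m * δ 0 + N2 m * ∑ i ∈ Finset.range m, 4 * h * k * S i / N2 i) := by ring
      _ ≤ _ := by
          refine mul_le_mul_of_nonneg_left (add_le_add t0 (t2.trans h5)) (by norm_num)
  have h6 : 6 + κ / 16 * l ≤ 7 * l ^ 3 := by nlinarith
  have e2 : k ^ (-(κ / 16)) * (k ^ (-(κ / 4)) * k ^ (1 / 4 : ℝ)) = k ^ (1 / 4 - 5 * κ / 16) := by
    rw [← Real.rpow_add hk, ← Real.rpow_add hk]
    congr 1
    ring
  have e3 : k ^ (-(κ / 16)) * k ^ (7 / 16 - 3 * κ / 8) = k ^ (7 / 16 - 7 * κ / 16) := by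
    rw [← Real.rpow_add hk]
    congr 1
    ring
  have hE5 := Real.exp_pos 5
  have c3' : 4 * Real.exp 5 * (6 + κ / 16 * l) * k ^ (1 / 4 - 5 * κ / 16) ≤ 1 / 2 := by
    have hp : 0 ≤ k ^ (1 / 4 - 5 * κ / 16) := Real.rpow_nonneg hk.le _
    calc 4 * Real.exp 5 * (6 + κ / 16 * l) * k ^ (1 / 4 - 5 * κ / 16)
        ≤ 4 * Real.exp 5 * (7 * l ^ 3) * k ^ (1 / 4 - 5 * κ / 16) := by gcongr
      _ = 28 * Real.exp 5 * (l ^ 3 * k ^ (1 / 4 - 5 * κ / 16)) := by ring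
      _ ≤ 28 * Real.exp 5 * (1 / (56 * Real.exp 5)) := by gcongr
      _ = 1 / 2 := by field_simp; norm_num
  have c4' : 32 * Real.exp 5 * d * (l ^ 3 * k ^ (7 / 16 - 7 * κ / 16)) ≤ 1 / 2 := by
    calc 32 * Real.exp 5 * d * (l ^ 3 * k ^ (7 / 16 - 7 * κ / 16))
        ≤ 32 * Real.exp 5 * (d + 1) * (1 / (64 * Real.exp 5 * (d + 1))) := by
          gcongr
          linarith
      _ = 1 / 2 := by field_simp; norm_num
  calc N2 m * (δ m * Real.exp (δ m)) = N2 m * δ m * Real.exp (δ m) := by ring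
    _ ≤ 2 * (k ^ (-(κ / 4)) * (2 * (6 + κ / 16 * l) * (k ^ (1 / 4 : ℝ) * T)) +
      16 * d * l ^ 3 * T * k ^ (7 / 16 - 3 * κ / 8)) * (Real.exp 5 * k ^ (-(κ / 16))) := by
        refine mul_le_mul t3 hexp (Real.exp_pos _).le ?_
        exact (mul_nonneg hNm (hδn m)).trans t3
    _ = (4 * Real.exp 5 * (6 + κ / 16 * l) *
          (k ^ (-(κ / 16)) * (k ^ (-(κ / 4)) * k ^ (1 / 4 : ℝ)))) * T +
        (32 * Real.exp 5 * d * (l ^ 3 * (k ^ (-(κ / 16)) * k ^ (7 / 16 - 3 * κ / 8)))) * T := by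
        ring
    _ = (4 * Real.exp 5 * (6 + κ / 16 * l) * k ^ (1 / 4 - 5 * κ / 16)) * T +
        (32 * Real.exp 5 * d * (l ^ 3 * k ^ (7 / 16 - 7 * κ / 16))) * T := by
        rw [e2, e3]
    _ ≤ 1 / 2 * T + 1 / 2 * T :=
        add_le_add (mul_le_mul_of_nonneg_right c3' hT) (mul_le_mul_of_nonneg_right c4' hT)
    _ = T := by ring

private theorem Brg2b_pow {a c : ℝ} (ha : 0 ≤ a) (m : ℕ) (hc : m * a ≤ c) (hc2 : c ≤ 1 / 2) :
    (1 + a) ^ m ≤ 2 := by
  have h1 : (1 + a) ^ m ≤ Real.exp (m * a) := by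
    have h2 : 1 + a ≤ Real.exp a := by
      have := Real.add_one_le_exp a
      linarith
    calc (1 + a) ^ m ≤ Real.exp a ^ m := pow_le_pow_left₀ (by linarith) h2 m
      _ = Real.exp (m * a) := by rw [← Real.exp_nat_mul]
  have h3 : Real.exp (m * a) ≤ Real.exp (1 / 2) := Real.exp_le_exp.2 (hc.trans hc2)
  have h4 : Real.exp (1 / 2) ≤ 2 := by
    have h5 : Real.exp (1 / 2) ^ 2 ≤ 2 ^ 2 := by
      rw [← Real.exp_nat_mul]
      have h6 := Real.exp_one_lt_d9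
      norm_num
      linarith
    exact (abs_le_of_sq_le_sq' h5 (by norm_num)).2
  exact h1.trans (h3.trans h4)

theorem brg_dif (d : ℕ) (β : ℝ) (hβ : 0 < β) (κ M6 M8 : ℝ) (hκ : 0 < κ) (hκ1 : κ ≤ 1 / 8)
    (hM8 : 1 ≤ M8) :
    ∃ k0 : ℝ, 0 < k0 ∧ k0 < 1 ∧ ∀ k, 0 < k → k < k0 → ∃ h0 : ℝ, 0 < h0 ∧ ∀ h, 0 < h → h < h0 →
    ∀ (L : ℕ) (P : BPar d L), P.κ = κ → P.M6 = M6 → P.M8 = M8 → P.OK β k h →
    ∀ (G : (boxS d L → ℂ) × (boxS d L → ℂ)) (ω : ℕ → boxS d L → ℂ) (n : ℕ), n ≤ P.ns →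
      (∀ j, j < P.ns → ∀ x, ω j x ∈ gdC h) →
      (∀ j, j < n → P.RegSt k j (trajT (P.bst β k h) G ω j)) →
      (∀ z, P.Bs z → ∀ i j, i ≤ j → j ≤ n → ‖(trajT (P.bst β k h) G ω j).2 z‖ ≤
        k ^ (-(κ / 4)) * ‖(trajT (P.bst β k h) G ω i).2 z‖) →
      (∀ v, (boxMSet d L).lppM (1 / 8) (fun _ => 0) (gz k h ω) P.ns v ≤
        1 / 4 + (boxNet d L).dist P.y v / 16) →
      (∀ z, P.Bs z → ∀ v, (boxNet d L).dist z v ≤ 1 →
        (boxMSet d L).lppM (1 / 8) (fun _ => 0) (gz k h ω) P.ns v ≤ κ / 8) →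
      (∀ v, ‖G.1 v - G.2 v‖ ≤ P.A0 * k ^ (-(P.M8 - 1) + 5 / 8 * (boxNet d L).dist P.y v)) →
      ∀ v, ‖(trajT (P.bst β k h) G ω n).1 v - (trajT (P.bst β k h) G ω n).2 v‖ ≤
        P.A0 * k ^ (-P.M8 + (boxNet d L).dist P.y v / 2) := by
  have hβm : 0 < min 1 β * κ / 8 := by
    have : 0 < min 1 β := lt_min one_pos hβ
    positivity
  obtain ⟨k1, hk1, hk11, H1⟩ := brg_step d β hβ κ M6 M8 hκ
  obtain ⟨k2, hk2, hk21, H2⟩ := brg_step2 d β hβ κ M6 M8 hκ
  obtain ⟨k3, hk3, hk31, H3⟩ := Brg2b_ell (min 1 β * κ / 8) hβm (1 / 2) (by norm_num)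
  obtain ⟨k4, hk4, hk41, H4⟩ := Brg2b_ell (5 / 16) (by norm_num) (1 / (8 * (d + 1)))
    (by positivity)
  obtain ⟨k5, hk5, hk51, H5⟩ := Brg2b_ell (1 / 4 - 5 * κ / 16) (by linarith)
    (1 / (56 * Real.exp 5)) (by positivity)
  obtain ⟨k6, hk6, hk61, H6⟩ := Brg2b_ell (7 / 16 - 7 * κ / 16) (by linarith)
    (1 / (64 * Real.exp 5 * (d + 1))) (by positivity)
  refine ⟨min (min (min k1 k2) (min k3 k4)) (min (min k5 k6) (Real.exp (-2))), ?_, ?_, ?_⟩
  · have := Real.exp_pos (-2)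
    simp only [lt_min_iff]
    exact ⟨⟨⟨hk1, hk2⟩, hk3, hk4⟩, ⟨hk5, hk6⟩, this⟩
  · exact ((min_le_left _ _).trans ((min_le_left _ _).trans (min_le_left _ _))).trans_lt hk11
  intro k hk hk0
  simp only [lt_min_iff] at hk0
  obtain ⟨⟨⟨a1, a2⟩, a3, a4⟩, ⟨a5, a6⟩, a7⟩ := hk0
  have hklt : k < 1 := a1.trans hk11
  have hl2 : 2 ≤ ell k := by
    unfold ell
    rw [one_div, Real.log_inv]
    have := Real.log_le_log hk a7.le
    rw [Real.log_exp] at this
    linarith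
  have hl1 : 1 ≤ ell k := by linarith
  have hl0 : 0 < ell k := by linarith
  obtain ⟨h1, hh1, F1⟩ := H1 k hk a1
  obtain ⟨h2, hh2, F2⟩ := H2 k hk a2
  have c1 := H3 k hk a3
  have c2 := H4 k hk a4
  have c3 := H5 k hk a5
  have c4 := H6 k hk a6
  refine ⟨min h1 h2, lt_min hh1 hh2, ?_⟩
  intro h hh hh0 L P hPκ hPM6 hPM8 hOK G ω n hn hω hreg hrat hW hWb hG
  have hh01 := hh0.trans_le (min_le_left _ _)
  have hh02 := hh0.trans_le (min_le_right _ _)
  have hA0 := hOK.hA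
  have hm0 := hOK.hm0
  have hκ'0 : 0 ≤ k ^ (min 1 β * κ / 8) := Real.rpow_nonneg hk.le _
  have hς0 : 0 ≤ P.ς := by
    rw [hOK.hς]
    refine mul_nonneg hh.le (le_min (Real.rpow_nonneg hk.le _) ?_)
    exact mul_nonneg (Real.rpow_nonneg hk.le _) hA0
  have hςn : P.ς * P.ns ≤ 1 := by
    have e1 : P.ς ≤ h * k ^ (min 1 β * κ / 8) := by
      rw [hOK.hς, hPκ]
      exact mul_le_mul_of_nonneg_left (min_le_left _ _) hh.le
    have e2 := hOK.hns1
    have e3 : (0 : ℝ) ≤ P.ns := Nat.cast_nonneg _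
    calc P.ς * P.ns ≤ h * k ^ (min 1 β * κ / 8) * P.ns := mul_le_mul_of_nonneg_right e1 e3
      _ = P.ns * h * k ^ (min 1 β * κ / 8) := by ring
      _ ≤ ell k ^ 3 * k ^ (min 1 β * κ / 8) := mul_le_mul_of_nonneg_right e2 hκ'0
      _ ≤ 1 := by linarith
  have hbd : ∀ j, j ≤ P.ns → P.bd j ≤ κ / 16 * ell k + 5 := by
    intro j hj
    have e1 := Brg2b_bd P hm0 hς0 j hj
    have e2 := hOK.hm
    rw [hPκ] at e2
    linarith
  have hmh : ∀ j, j ≤ P.ns → (j : ℝ) * h ≤ ell k ^ 3 := by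
    intro j hj
    have e1 : (j : ℝ) ≤ P.ns := by exact_mod_cast hj
    exact (mul_le_mul_of_nonneg_right e1 hh.le).trans hOK.hns1
  set Z := trajT (P.bst β k h) G ω with hZ
  have hZs : ∀ j, Z (j + 1) = P.bst β k h j (Z j) (ω j) := fun j => rfl
  have hZ0 : Z 0 = G := rfl
  set A : ℝ := P.A0 * Real.exp (ell k * (P.M8 - 1 + 1 / 4)) with hAdef
  have hA : 0 ≤ A := mul_nonneg hA0 (Real.exp_pos _).le
  set H : boxS d L → ℝ := fun v => -(9 / 16 * ((boxNet d L).dist P.y v : ℝ)) with hHdef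
  set W := (boxMSet d L).lpp (1 / 8) (fun _ => 0) (gz k h ω) with hWdef
  have hk516 : 0 ≤ k ^ (5 / 16 : ℝ) := Real.rpow_nonneg hk.le _
  have hfac : ∀ m : ℕ, m ≤ P.ns → (1 + 4 * (d : ℝ) * k ^ (5 / 16 : ℝ) * h) ^ m ≤ 2 := by
    intro m hm
    have e1 : (m : ℝ) * (4 * (d : ℝ) * k ^ (5 / 16 : ℝ) * h) ≤ 1 / 2 := by
      calc (m : ℝ) * (4 * (d : ℝ) * k ^ (5 / 16 : ℝ) * h)
          = 4 * d * k ^ (5 / 16 : ℝ) * (m * h) := by ring
        _ ≤ 4 * d * k ^ (5 / 16 : ℝ) * ell k ^ 3 := by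
            have := hmh m hm
            gcongr
        _ = 4 * d * (ell k ^ 3 * k ^ (5 / 16 : ℝ)) := by ring
        _ ≤ 4 * (d + 1) * (1 / (8 * (d + 1))) := by
            gcongr
            linarith
        _ = 1 / 2 := by field_simp; norm_num
    exact Brg2b_pow (by positivity) m e1 le_rfl
  -- starting bound
  have hD0 : ∀ x, dif (Z 0).1 (Z 0).2 x ≤ A * Real.exp (ell k * H x) := by
    intro x
    have e1 := hG x
    have e2 : k ^ (-(P.M8 - 1) + 5 / 8 * ((boxNet d L).dist P.y x : ℝ)) =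
        Real.exp (ell k * (P.M8 - 1 - 5 / 8 * (boxNet d L).dist P.y x)) := by
      rw [Brg2b_kexp hk]
      congr 1
      ring
    have e3 : (0 : ℝ) ≤ (boxNet d L).dist P.y x := Nat.cast_nonneg _
    rw [e2] at e1
    refine e1.trans ?_
    rw [hAdef, mul_assoc, ← Real.exp_add]
    refine mul_le_mul_of_nonneg_left (Real.exp_le_exp.2 ?_) hA0
    rw [← mul_add]
    refine mul_le_mul_of_nonneg_left ?_ hl0.le
    show _ ≤ P.M8 - 1 + 1 / 4 + -(9 / 16 * ((boxNet d L).dist P.y x : ℝ))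
    linarith
  have hHn : ∀ x v, (boxNet d L).dist x v ≤ 1 → H v ≤ H x + 9 / 16 := by
    intro x v hv
    have e1 := (boxNet d L).dist_tri P.y v x
    rw [(boxNet d L).dist_comm v x] at e1
    have e2 : ((boxNet d L).dist P.y x : ℝ) ≤ (boxNet d L).dist P.y v + 1 := by
      exact_mod_cast (by omega : (boxNet d L).dist P.y x ≤ (boxNet d L).dist P.y v + 1)
    show -(9 / 16 * ((boxNet d L).dist P.y v : ℝ)) ≤
      -(9 / 16 * ((boxNet d L).dist P.y x : ℝ)) + 9 / 16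
    linarith
  -- claim
  have key : ∀ m, m ≤ n → ∀ v, dif (Z m).1 (Z m).2 v ≤
      A * (1 + 4 * (d : ℝ) * k ^ (5 / 16 : ℝ) * h) ^ m * Real.exp (ell k * (W m v + H v)) := by
    intro m
    induction m using Nat.strong_induction_on with
    | _ m ih =>
      intro hmn v
      refine grow_path2 d L k h (5 / 16) (1 / 8) (9 / 16) A hk hklt hh hA (by norm_num)
        (by norm_num) (by norm_num) (by norm_num) (fun j y => Real.sqrt h * (ω j y).re)
        (fun j => dif (Z j).1 (Z j).2) H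
        (fun x y hy => hHn x y (le_of_eq ((boxNet d L).dist_nb x y hy))) hD0 m ?_ v
      intro j hj x
      have hjn : j < n := lt_of_lt_of_le hj hmn
      have hjs : j < P.ns := lt_of_lt_of_le hjn hn
      by_cases hx : P.Bs x
      · right
        -- inside the ball
        set T : ℝ := A * Real.exp (ell k * H x) with hT
        have hT0 : 0 ≤ T := mul_nonneg hA (Real.exp_pos _).le
        have hR : ∀ i, i ≤ j → P.RegSt k i (Z i) := fun i hi => hreg i (by omega)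
        have hgd : ∀ i, i ≤ j → Real.sqrt h * ‖ω i x‖ ≤ h ^ (3 / 8 : ℝ) :=
          fun i hi => hω i (by omega) x
        obtain ⟨b1, b2, b3⟩ := F1 h hh hh01 L P hPκ hPM6 hPM8 hOK j hjs (Z j) (hR j le_rfl)
          (ω j) x hx (hgd j le_rfl)
        rw [← hZs j] at b1 b2 b3
        have q1 : dif (Z (j + 1)).1 (Z (j + 1)).2 x ≤ ‖(Z (j + 1)).2 x‖ *
            (‖Complex.log ((Z (j + 1)).2 x / (Z (j + 1)).1 x)‖ *
              Real.exp ‖Complex.log ((Z (j + 1)).2 x / (Z (j + 1)).1 x)‖) :=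
          Brg2b_dif _ _ b1 b2
        refine q1.trans ?_
        refine Brg2b_in d κ k h (ell k) T (h * k ^ (min 1 β * κ / 8)) (dif (Z 0).1 (Z 0).2 x)
          (fun i => ‖(Z i).2 x‖) (fun i => ‖Complex.log ((Z i).2 x / (Z i).1 x)‖)
          (fun i => ∑ v ∈ (boxNet d L).nb x, ‖(Z i).1 v - (Z i).2 v‖) (j + 1) hκ hκ1 hk hh hl1
          hT0 (mul_nonneg hh.le hκ'0) (fun i => norm_nonneg _)
          (fun i => Finset.sum_nonneg fun v _ => norm_nonneg _) (norm_nonneg _) ?_ ?_ ?_ ?_ ?_ ?_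
          (norm_nonneg _) ?_ ?_ ?_ ?_ ?_ c3 c4
        · rw [mul_comm (κ / 16) (ell k), Brg2b_kexp hk]
        · exact Brg2b_low _ _ ((hR 0 (Nat.zero_le _)).1 x hx).2.1
        · exact ((hR 0 (Nat.zero_le _)).1 x hx).2.2.1.trans (hbd 0 (Nat.zero_le _))
        · exact b3.trans (hbd (j + 1) (by omega))
        · intro i hi
          have e1 := F2 h hh hh02 L P hPκ hPM6 hPM8 hOK i (by omega) (Z i) (hR i (by omega))
            (ω i) x hx (hgd i (by omega))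
          rw [← hZs i] at e1
          refine e1.trans ?_
          have e2 : (0 : ℝ) < (P.ns : ℝ) + 1 - i := by
            have : (i : ℝ) ≤ P.ns := by exact_mod_cast (by omega : i ≤ P.ns)
            linarith
          have e3 : 0 ≤ 1 / ((P.ns : ℝ) + 1 - i) := by positivity
          have e4 : (1 - 1 / ((P.ns : ℝ) + 1 - i) + h * k ^ (min 1 β * κ / 8)) *
              ‖Complex.log ((Z i).2 x / (Z i).1 x)‖ ≤ (1 + h * k ^ (min 1 β * κ / 8)) *
              ‖Complex.log ((Z i).2 x / (Z i).1 x)‖ :=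
            mul_le_mul_of_nonneg_right (by linarith) (norm_nonneg _)
          exact add_le_add e4 le_rfl
        · intro i hi
          exact norm_pos_iff.2 ((hR i (by omega)).1 x hx).2.1
        · intro i hi
          exact hrat x hx i (j + 1) hi (by omega)
        · have e1 : ((j + 1 : ℕ) : ℝ) * (h * k ^ (min 1 β * κ / 8)) ≤ 1 / 2 := by
            calc ((j + 1 : ℕ) : ℝ) * (h * k ^ (min 1 β * κ / 8))
                = ((j + 1 : ℕ) : ℝ) * h * k ^ (min 1 β * κ / 8) := by ring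
              _ ≤ ell k ^ 3 * k ^ (min 1 β * κ / 8) :=
                  mul_le_mul_of_nonneg_right (hmh (j + 1) (by omega)) hκ'0
              _ ≤ 1 / 2 := c1
          exact Brg2b_pow (mul_nonneg hh.le hκ'0) (j + 1) e1 le_rfl
        · have e1 := hG x
          have e2 : k ^ (-(P.M8 - 1) + 5 / 8 * ((boxNet d L).dist P.y x : ℝ)) =
              Real.exp (ell k * (P.M8 - 1 - 5 / 8 * (boxNet d L).dist P.y x)) := by
            rw [Brg2b_kexp hk]
            congr 1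
            ring
          have e3 : (0 : ℝ) ≤ (boxNet d L).dist P.y x := Nat.cast_nonneg _
          have e4 : k ^ (1 / 4 : ℝ) = Real.exp (ell k * (-(1 / 4))) := by
            rw [Brg2b_kexp hk, neg_neg]
          rw [e2] at e1
          refine e1.trans ?_
          rw [hT, hAdef, e4]
          have e5 : Real.exp (ell k * (-(1 / 4))) * (P.A0 *
              Real.exp (ell k * (P.M8 - 1 + 1 / 4)) * Real.exp (ell k * H x)) =
              P.A0 * Real.exp (ell k * (P.M8 - 1 + H x)) := by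
            have e6 : ell k * (P.M8 - 1 + H x) = ell k * (-(1 / 4)) +
                ell k * (P.M8 - 1 + 1 / 4) + ell k * H x := by ring
            rw [e6, Real.exp_add, Real.exp_add]
            ring
          rw [e5]
          refine mul_le_mul_of_nonneg_left (Real.exp_le_exp.2 ?_) hA0
          refine mul_le_mul_of_nonneg_left ?_ hl0.le
          show _ ≤ P.M8 - 1 + -(9 / 16 * ((boxNet d L).dist P.y x : ℝ))
          linarith
        · intro i hi
          have hterm : ∀ v ∈ (boxNet d L).nb x, ‖(Z i).1 v - (Z i).2 v‖ ≤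
              2 * T * k ^ (-(κ / 8 + 9 / 16)) := by
            intro v hv
            have hdv : (boxNet d L).dist x v ≤ 1 := le_of_eq ((boxNet d L).dist_nb x v hv)
            have e1 := ih i (by omega) (by omega) v
            have e2 : W i v ≤ κ / 8 :=
              (le_lppM (boxMSet d L) (1 / 8) (fun _ => 0) (gz k h ω)
                (by omega : i ≤ P.ns) v).trans (hWb x hx v hdv)
            have e3 := hHn x v hdv
            have e4 := hfac i (by omega)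
            have e5 : Real.exp (ell k * (W i v + H v)) ≤
                Real.exp (ell k * (κ / 8 + 9 / 16)) * Real.exp (ell k * H x) := by
              rw [← Real.exp_add, ← mul_add]
              exact Real.exp_le_exp.2 (mul_le_mul_of_nonneg_left (by linarith) hl0.le)
            refine e1.trans ?_
            rw [← Brg2b_kexp hk]
            calc A * (1 + 4 * (d : ℝ) * k ^ (5 / 16 : ℝ) * h) ^ i *
                  Real.exp (ell k * (W i v + H v))
                ≤ A * 2 * (Real.exp (ell k * (κ / 8 + 9 / 16)) * Real.exp (ell k * H x)) := by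
                  gcongr
              _ = 2 * T * Real.exp (ell k * (κ / 8 + 9 / 16)) := by
                  rw [hT]
                  ring
          have hQ0 : 0 ≤ 2 * T * k ^ (-(κ / 8 + 9 / 16)) :=
            mul_nonneg (by linarith) (Real.rpow_nonneg hk.le _)
          calc ∑ v ∈ (boxNet d L).nb x, ‖(Z i).1 v - (Z i).2 v‖
              ≤ ∑ _v ∈ (boxNet d L).nb x, 2 * T * k ^ (-(κ / 8 + 9 / 16)) :=
                Finset.sum_le_sum hterm
            _ = ((boxNet d L).nb x).card * (2 * T * k ^ (-(κ / 8 + 9 / 16))) := by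
                rw [Finset.sum_const, nsmul_eq_mul]
            _ ≤ 2 * d * (2 * T * k ^ (-(κ / 8 + 9 / 16))) := by
                apply mul_le_mul_of_nonneg_right _ hQ0
                exact_mod_cast (boxNet d L).nb_card x
        · exact hmh (j + 1) (by omega)
      · left
        have hc : P.ctl k h j (Z j) x = 0 := by
          unfold BPar.ctl
          rw [if_neg (fun q => hx q.1)]
        have e1 := st2_d1 d hβ hk.le hh L (Z j).1 (Z j).2 (ω j)
          (fun z => ω j z + P.ctl k h j (Z j) z) x (by simp only [hc, add_zero])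
        exact e1
  -- conclusion
  intro v
  have e1 := key n le_rfl v
  have e2 := hfac n hn
  have e3 : W n v ≤ 1 / 4 + (boxNet d L).dist P.y v / 16 :=
    (le_lppM (boxMSet d L) (1 / 8) (fun _ => 0) (gz k h ω) hn v).trans (hW v)
  have e4 : Real.exp (ell k * (W n v + H v)) ≤
      Real.exp (ell k * (1 / 4 - (boxNet d L).dist P.y v / 2)) := by
    refine Real.exp_le_exp.2 (mul_le_mul_of_nonneg_left ?_ hl0.le)
    show W n v + -(9 / 16 * ((boxNet d L).dist P.y v : ℝ)) ≤ _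
    linarith
  have e5 : (2 : ℝ) ≤ Real.exp (ell k * (1 / 2)) := by
    have := Real.add_one_le_exp (ell k * (1 / 2))
    linarith
  have e6 : k ^ (-P.M8 + ((boxNet d L).dist P.y v : ℝ) / 2) =
      Real.exp (ell k * (P.M8 - (boxNet d L).dist P.y v / 2)) := by
    rw [Brg2b_kexp hk]
    congr 1
    ring
  rw [e6]
  refine e1.trans ?_
  calc A * (1 + 4 * (d : ℝ) * k ^ (5 / 16 : ℝ) * h) ^ n * Real.exp (ell k * (W n v + H v))
      ≤ A * 2 * Real.exp (ell k * (1 / 4 - (boxNet d L).dist P.y v / 2)) := by gcongr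
    _ ≤ A * Real.exp (ell k * (1 / 2)) *
        Real.exp (ell k * (1 / 4 - (boxNet d L).dist P.y v / 2)) := by gcongr
    _ = P.A0 * Real.exp (ell k * (P.M8 - (boxNet d L).dist P.y v / 2)) := by
        rw [hAdef]
        have e7 : ell k * (P.M8 - (boxNet d L).dist P.y v / 2) =
            ell k * (P.M8 - 1 + 1 / 4) + ell k * (1 / 2) +
              ell k * (1 / 4 - (boxNet d L).dist P.y v / 2) := by ring
        rw [e7, Real.exp_add, Real.exp_add]
        ring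

end DynC
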