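import Pool.Agent.Lib_MP_36b788c.Brg2a
import Pool.Agent.Lib_MP_36b788c.Brg2b
import Pool.Agent.Lib_MP_36b788c.St2

/-!
# The bridge: regular noise keeps all states regular (deterministic)

PROOF of `brg_reg`. Write `Z j` for the trajectory. By strong induction on `j ≤ ns`: `RegSt k j (Z j)`. Suppose it holds for all `i < j`.
(0) `j = 0`: `δ_0 = log(G.2 z/G.1 z)`, `|Re δ_0| ≤ κd ell`, `|Im| ≤ π`: `‖δ_0‖ ≤ κd ell + 4`; linear bound: `‖δ_0‖ ≤ C(1 + ‖δ_0‖)|e^{δ_0} - 1|`, `|e^{δ_0} - 1| ≤ ‖G.1 z - G.2 z‖/‖G.1 z‖ ≤ A0 k^{-(M8-1) - M6}`: so `‖δ_0‖ ≤ k^{-(M8+M6)} A0`; hence `‖δ_0‖ ≤ m0 = bd 0`. The other conditions from `GCfg` (neighbours: `k ‖G.1 v‖ ≤ k^{κ + κ2}‖G.1 z‖`), the profile from the hypothesis.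
(1) Noise of the second component: `b' i v = √h Re(ω i v + ctl i v)`, `|√h ctl| ≤ m0/(ns+1) + ς lamS ns i` (`ctl_le`), sum over `i < ns` `≤ m0 + ς ns ≤ κd ell + 5 ≤ (κ/64 + κ/64) ell` (`lamS_sum`, `ς ns ≤ k^{min(1,β)κ/8} ell³ ≤ 1`). `lpp` is Lipschitz: `lpp q 0 (g + c) n v ≤ lpp q 0 g n v + Σ_{i<n} sup |c_i|` (induction). So `lppM (κ2/2)` for `b'/ell` is `≤ κ3 (1 + dist z v) + κ/32 ≤ κ/16 + (κ2/8) dist z v`, block sums `≤ κ3 + κ/32 ≤ κ/16`; the same for the first component.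
`brg_one` for both components (`QStep` from `st2_q` in `St2.lean` with the noise `ω`, `ω + ctl`; `|b'| ≤ 2 h^{3/8} + small ≤ 3 h^{3/8}`), center `z` in the ball, up to time `j`: `k^{κ/8}‖G.i z‖ ≤ ‖(Z j).i z‖ ≤ k^{-κ/8}‖G.i z‖`, neighbours `k‖(Z j).i v‖ ≤ k^{7κ/8}‖G.i z‖ ≤ k^{3κ/4}‖(Z j).i z‖`. Gives the size and neighbour conditions of `RegSt`, and the ratio hypothesis of `brg_dif`.
(2) log bound at `j ≥ 1`: `brg_step` for the step `j - 1`. (3) profile: `brg_dif` (`lppM (1/8) ≤ lppM (κ2/2) ≤ 2 κ3 ≤ κ/8` near the ball; `κ2/2 ≤ 1/8`).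
Final profile: for `v` outside the ball from `RegSt`; for `v` in the ball `D_ns v ≤ ‖(Z ns).1 v‖ |e^{δ} - 1| ≤ 2 bd ns`, `bd ns = m0/(ns+1) + ς lamS ns ns ≤ A0 (k^{-(M8+M6)} h + h k^{-(M8+2M6+4)}(1 + log(ns+1)))`, `ns ≤ ell³/h`, so for small `h` (depending on `k`, `Rb`) it is `≤ A0 k^{Rb/2}/2`.
-/

open MeasureTheory ProbabilityTheory
open scoped ENNReal

namespace DynC

open Dyn

/-- good configuration of a pair on a ball -/
structure GCfg {d L : ℕ} (k κ κ2 κd M6 : ℝ) (y : boxS d L) (Rb : ℕ)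
    (G : (boxS d L → ℂ) × (boxS d L → ℂ)) : Prop where
  low : ∀ x, (boxNet d L).dist y x ≤ Rb → k ^ M6 ≤ ‖G.1 x‖ ∧ k ^ M6 ≤ ‖G.2 x‖
  top : ∀ x, (boxNet d L).dist y x ≤ Rb → ‖G.1 x‖ ≤ k ^ κ ∧ ‖G.2 x‖ ≤ k ^ κ
  rat : ∀ x, (boxNet d L).dist y x ≤ Rb →
    ‖G.1 x‖ ≤ k ^ (-κd) * ‖G.2 x‖ ∧ ‖G.2 x‖ ≤ k ^ (-κd) * ‖G.1 x‖
  gap : ∀ x, (boxNet d L).dist y x ≤ Rb → ∀ v, v ≠ x →
    ‖G.1 v‖ ≤ k ^ (κ - (1 - κ2) * (boxNet d L).dist x v) * ‖G.1 x‖ ∧
      ‖G.2 v‖ ≤ k ^ (κ - (1 - κ2) * (boxNet d L).dist x v) * ‖G.2 x‖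
  cap : ∀ v, ‖G.1 v‖ ≤ k ^ (-((1 + (boxNet d L).dist y v : ℝ) / 8)) ∧
    ‖G.2 v‖ ≤ k ^ (-((1 + (boxNet d L).dist y v : ℝ) / 8))

/-- regular noise on a bridge -/
def RegB {d L : ℕ} (κ2 κ3 k h : ℝ) (ns : ℕ) (y : boxS d L) (Rb : ℕ) (ω : ℕ → boxS d L → ℂ) :
    Prop :=
  (∀ j, j < ns → ∀ x, ω j x ∈ gdC h) ∧
  (∀ x, (boxNet d L).dist y x ≤ Rb → (∀ v, (boxMSet d L).lppM (κ2 / 2) (fun _ => 0) (gz k h ω) ns v
      ≤ κ3 * (1 + (boxNet d L).dist x v)) ∧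
    ∀ i j, i ≤ j → j ≤ ns → |∑ l ∈ Finset.Ico i j, gz k h ω l x| ≤ κ3) ∧
  ∀ v, (boxMSet d L).lppM (1 / 8) (fun _ => 0) (gz k h ω) ns v ≤
    1 / 4 + (boxNet d L).dist y v / 16

/-- the parameters of the bridge -/
noncomputable def bpar {d L : ℕ} (β k h κ κd M6 M8 A0 : ℝ) (ns Rb : ℕ) (y : boxS d L) :
    BPar d L where
  y := y
  Rb := Rb
  ns := ns
  κ := κ
  M6 := M6
  M8 := M8
  A0 := A0
  m0 := min (κd * ell k + 4) (k ^ (-(M8 + M6)) * A0)
  ς := h * min (k ^ (min 1 β * κ / 8)) (k ^ (-(M8 + 2 * M6 + 4)) * A0)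

open Filter Topology in
private theorem Brg2_ev {P : ℝ → Prop} (h : ∀ᶠ x in 𝓝[>] (0 : ℝ), P x) :
    ∃ x0 : ℝ, 0 < x0 ∧ ∀ x, 0 < x → x < x0 → P x := by
  obtain ⟨u, hu, hs⟩ := mem_nhdsGT_iff_exists_Ioo_subset.1 h
  exact ⟨u, hu, fun x h1 h2 => hs ⟨h1, h2⟩⟩

open Filter Topology in
private theorem Brg2_pow (C : ℝ) {a δ : ℝ} (ha : 0 < a) (hδ : 0 < δ) :
    ∀ᶠ x in 𝓝[>] (0 : ℝ), C * x ^ a ≤ δ := by
  have h1 : Tendsto (fun x : ℝ => C * x ^ a) (𝓝[>] 0) (𝓝 (C * 0)) := by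
    refine Tendsto.const_mul C ?_
    have h2 : ContinuousAt (fun x : ℝ => x ^ a) 0 := Real.continuousAt_rpow_const 0 a (Or.inr ha.le)
    have h3 := h2.tendsto
    rw [Real.zero_rpow ha.ne'] at h3
    exact h3.mono_left nhdsWithin_le_nhds
  rw [mul_zero] at h1
  exact (h1.eventually (gt_mem_nhds hδ)).mono fun x hx => hx.le

private theorem Brg2_elk (k : ℝ) : ell k = -Real.log k := by
  unfold ell; rw [one_div, Real.log_inv]

open Filter Topology in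
private theorem Brg2_ell (C : ℝ) : ∀ᶠ k in 𝓝[>] (0 : ℝ), C ≤ ell k := by
  have h1 : Tendsto (fun k : ℝ => -Real.log k) (𝓝[>] 0) atTop :=
    tendsto_neg_atBot_atTop.comp Real.tendsto_log_nhdsGT_zero
  refine (h1.eventually_ge_atTop C).mono fun k hk => ?_
  rw [Brg2_elk]
  exact hk

open Filter Topology in
private theorem Brg2_powell (C : ℝ) {a δ : ℝ} (ha : 0 < a) (hδ : 0 < δ) :
    ∀ᶠ k in 𝓝[>] (0 : ℝ), C * k ^ a * ell k ≤ δ := by
  have h1 : Tendsto (fun k : ℝ => -C * (Real.log k * k ^ a)) (𝓝[>] 0) (𝓝 (-C * 0)) :=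
    (tendsto_log_mul_rpow_nhdsGT_zero ha).const_mul (-C)
  rw [mul_zero] at h1
  refine (h1.eventually (gt_mem_nhds hδ)).mono fun k hk => ?_
  rw [Brg2_elk]
  refine le_trans (le_of_eq ?_) hk.le
  ring

/-- `lpp` is Lipschitz in the increments -/
private theorem Brg2_lpp_add {S : Type} [Fintype S] {D : ℕ} (M : MSet S D) (q : ℝ)
    (g g' : ℕ → S → ℝ) (c : ℕ → ℝ) (hc : ∀ j, 0 ≤ c j) (N : ℕ)
    (h : ∀ j, j < N → ∀ x, g' j x ≤ g j x + c j) (n : ℕ) (hn : n ≤ N) (x : S) :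
    M.lpp q (fun _ => 0) g' n x ≤ M.lpp q (fun _ => 0) g n x + ∑ i ∈ Finset.range n, c i := by
  induction n generalizing x with
  | zero => simp [MSet.lpp]
  | succ n ih =>
    have ih' := ih (Nat.le_of_succ_le hn)
    have hS : 0 ≤ ∑ i ∈ Finset.range (n + 1), c i := Finset.sum_nonneg fun i _ => hc i
    have hg := h n (Nat.lt_of_succ_le hn) x
    have e1 : M.lpp q (fun _ => 0) g' (n + 1) x =
      max 0 (max (M.lpp q (fun _ => 0) g' n x + g' n x)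
      (M.Rq1 q (M.lpp q (fun _ => 0) g' n) x + max (g' n x) 0)) := rfl
    have e2 : M.lpp q (fun _ => 0) g (n + 1) x =
      max 0 (max (M.lpp q (fun _ => 0) g n x + g n x)
      (M.Rq1 q (M.lpp q (fun _ => 0) g n) x + max (g n x) 0)) := rfl
    have f0 : 0 ≤ M.lpp q (fun _ => 0) g (n + 1) x := by
      rw [e2]; exact le_max_left _ _
    have f1 : M.lpp q (fun _ => 0) g n x + g n x ≤ M.lpp q (fun _ => 0) g (n + 1) x := by
      rw [e2]; exact (le_max_left _ _).trans (le_max_right _ _)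
    have f2 : M.Rq1 q (M.lpp q (fun _ => 0) g n) x + max (g n x) 0 ≤
        M.lpp q (fun _ => 0) g (n + 1) x := by
      rw [e2]; exact (le_max_right _ _).trans (le_max_right _ _)
    rw [Finset.sum_range_succ] at hS ⊢
    rw [e1]
    refine max_le (by linarith) (max_le ?_ ?_)
    · have := ih' x
      linarith
    · have g1 : M.Rq1 q (M.lpp q (fun _ => 0) g' n) x ≤
          M.Rq1 q (M.lpp q (fun _ => 0) g n) x + ∑ i ∈ Finset.range n, c i := by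
        refine Rq1_le M q _ x _ fun z => ?_
        have g2 := le_Rq1 M q (M.lpp q (fun _ => 0) g n) x z
        have g3 := ih' z
        linarith
      have g4 : max (g' n x) 0 ≤ max (g n x) 0 + c n := by
        refine max_le ?_ ?_
        · exact hg.trans (add_le_add (le_max_left _ _) le_rfl)
        · have := le_max_right (g n x) 0
          have := hc n
          linarith
      linarith

private theorem Brg2_lppM_add {S : Type} [Fintype S] {D : ℕ} (M : MSet S D) (q : ℝ)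
    (g g' : ℕ → S → ℝ) (c : ℕ → ℝ) (hc : ∀ j, 0 ≤ c j) (N : ℕ)
    (h : ∀ j, j < N → ∀ x, g' j x ≤ g j x + c j) (x : S) :
    M.lppM q (fun _ => 0) g' N x ≤ M.lppM q (fun _ => 0) g N x + ∑ i ∈ Finset.range N, c i := by
  show (Finset.range (N + 1)).sup' _ _ ≤ _
  refine Finset.sup'_le _ _ fun m hm => ?_
  have hm' : m ≤ N := Nat.lt_succ_iff.mp (Finset.mem_range.mp hm)
  have h1 := Brg2_lpp_add M q g g' c hc N h m hm' x
  have h2 := le_lppM M q (fun _ => 0) g hm' x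
  have h3 : ∑ i ∈ Finset.range m, c i ≤ ∑ i ∈ Finset.range N, c i :=
    Finset.sum_le_sum_of_subset_of_nonneg (Finset.range_mono hm') fun i _ _ => hc i
  linarith

/-- `lpp` decreases in the cost of the jumps -/
private theorem Brg2_lpp_anti {S : Type} [Fintype S] {D : ℕ} (M : MSet S D) {q q' : ℝ}
    (hq : q ≤ q') (g : ℕ → S → ℝ) (n : ℕ) (x : S) :
    M.lpp q' (fun _ => 0) g n x ≤ M.lpp q (fun _ => 0) g n x := by
  induction n generalizing x with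
  | zero => exact le_rfl
  | succ n ih =>
    show max 0 (max (M.lpp q' (fun _ => 0) g n x + g n x)
      (M.Rq1 q' (M.lpp q' (fun _ => 0) g n) x + max (g n x) 0)) ≤
      max 0 (max (M.lpp q (fun _ => 0) g n x + g n x)
      (M.Rq1 q (M.lpp q (fun _ => 0) g n) x + max (g n x) 0))
    refine max_le_max le_rfl (max_le_max (add_le_add (ih x) le_rfl) (add_le_add ?_ le_rfl))
    refine Rq1_le M q' _ x _ fun z => ?_
    refine le_trans ?_ (le_Rq1 M q (M.lpp q (fun _ => 0) g n) x z)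
    have h1 := ih z
    have h2 : 0 ≤ max (M.dd x z : ℝ) 1 := zero_le_one.trans (le_max_right _ _)
    have h3 := mul_le_mul_of_nonneg_right hq h2
    linarith

private theorem Brg2_lppM_anti {S : Type} [Fintype S] {D : ℕ} (M : MSet S D) {q q' : ℝ}
    (hq : q ≤ q') (g : ℕ → S → ℝ) (N : ℕ) (x : S) :
    M.lppM q' (fun _ => 0) g N x ≤ M.lppM q (fun _ => 0) g N x := by
  show (Finset.range (N + 1)).sup' _ _ ≤ _
  refine Finset.sup'_le _ _ fun m hm => ?_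
  have hm' : m ≤ N := Nat.lt_succ_iff.mp (Finset.mem_range.mp hm)
  exact (Brg2_lpp_anti M hq g m x).trans (le_lppM M q (fun _ => 0) g hm' x)

/-- the logarithm is bounded linearly by the distance to one -/
private theorem Brg2_log (z : ℂ) :
    ‖Complex.log z‖ ≤ 2 * (1 + ‖Complex.log z‖) * ‖z - 1‖ := by
  have h0 := norm_nonneg (Complex.log z)
  have h2 := norm_nonneg (z - 1)
  rcases le_or_gt ‖z - 1‖ (1 / 2) with h | h
  · have h1 := Complex.norm_log_one_add_half_le_self h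
    rw [add_sub_cancel] at h1
    nlinarith
  · nlinarith

/-- crude bound of the logarithm of a quotient -/
private theorem Brg2_logq {a b : ℂ} {e : ℝ} (ha : a ≠ 0) (hb : b ≠ 0)
    (h1 : ‖a‖ ≤ Real.exp e * ‖b‖) (h2 : ‖b‖ ≤ Real.exp e * ‖a‖) :
    ‖Complex.log (b / a)‖ ≤ e + 4 := by
  have ha' : 0 < ‖a‖ := norm_pos_iff.2 ha
  have hb' : 0 < ‖b‖ := norm_pos_iff.2 hb
  have h3 : |(Complex.log (b / a)).re| ≤ e := by
    rw [Complex.log_re, norm_div, Real.log_div hb'.ne' ha'.ne', abs_le]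
    constructor
    · have g1 := Real.log_le_log ha' h1
      rw [Real.log_mul (Real.exp_pos _).ne' hb'.ne', Real.log_exp] at g1
      linarith
    · have g1 := Real.log_le_log hb' h2
      rw [Real.log_mul (Real.exp_pos _).ne' ha'.ne', Real.log_exp] at g1
      linarith
  have h4 : |(Complex.log (b / a)).im| ≤ 4 := by
    rw [Complex.log_im]
    exact (Complex.abs_arg_le_pi _).trans Real.pi_le_four
  exact (Complex.norm_le_abs_re_add_abs_im _).trans (add_le_add h3 h4)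

/-- `h (1 + log (ns + 1))` is small -/
private theorem Brg2_hlog {h T : ℝ} {ns : ℕ} (hh : 0 < h) (hh1 : h ≤ 1) (h1 : 1 ≤ ns * h)
    (h2 : ns * h ≤ T) : h * (1 + Real.log (ns + 1)) ≤ (1 + 2 * Real.sqrt (2 * T)) * h ^ (1 / 2 : ℝ) := by
  rw [← Real.sqrt_eq_rpow]
  set sh : ℝ := Real.sqrt h with hsh
  have hs0 : 0 < sh := Real.sqrt_pos.2 hh
  have hsq : sh * sh = h := Real.mul_self_sqrt hh.le
  have hs1 : sh ≤ 1 := by
    rw [hsh]
    exact Real.sqrt_le_one.2 hh1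
  have hT : 0 ≤ T := by linarith
  have hx : (ns : ℝ) + 1 ≤ 2 * T / h := by
    rw [le_div_iff₀ hh]
    linarith
  have hx0 : (0 : ℝ) ≤ (ns : ℝ) + 1 := by positivity
  have h3 : Real.log (ns + 1) ≤ 2 * Real.sqrt (ns + 1) := by
    have g1 := Real.log_le_rpow_div hx0 (show (0 : ℝ) < 1 / 2 by norm_num)
    rw [← Real.sqrt_eq_rpow] at g1
    linarith
  have h4 : Real.sqrt (ns + 1) ≤ Real.sqrt (2 * T) / sh := by
    rw [hsh, ← Real.sqrt_div (by positivity)]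
    exact Real.sqrt_le_sqrt hx
  have h5 : h * Real.sqrt (ns + 1) ≤ sh * Real.sqrt (2 * T) := by
    have g1 := mul_le_mul_of_nonneg_left h4 hh.le
    refine g1.trans (le_of_eq ?_)
    rw [← hsq]
    field_simp
  have h6 : h ≤ sh := by nlinarith
  nlinarith

/-- the parameters of the bridge are consistent -/
private theorem Brg2_OK {d L : ℕ} {β k h κ κd M6 M8 A0 : ℝ} {ns Rb : ℕ} (y : boxS d L)
    (hk : 0 < k) (hell : 0 ≤ ell k) (hκ : 0 < κ) (hκ1 : κ ≤ 1 / 8)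
    (hκd : 0 < κd) (hκdk : κd ≤ κ / 64) (hM6 : 0 ≤ M6) (hM8 : 1 ≤ M8) (hA0 : 0 ≤ A0)
    (hns : 1 ≤ ns * h) (hns1 : ns * h ≤ ell k ^ 3) :
    (bpar β k h κ κd M6 M8 A0 ns Rb y : BPar d L).OK β k h := by
  refine ⟨hκ, hκ1, hM6, ?_, hA0, ?_, ?_, rfl, hns, hns1⟩
  · show 0 ≤ M8
    linarith
  · show min (κd * ell k + 4) (k ^ (-(M8 + M6)) * A0) ≤ κ / 16 * ell k + 4
    refine (min_le_left _ _).trans ?_
    have : κd * ell k ≤ κ / 16 * ell k := mul_le_mul_of_nonneg_right (by linarith) hell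
    linarith
  · show 0 ≤ min (κd * ell k + 4) (k ^ (-(M8 + M6)) * A0)
    refine le_min (by positivity) ?_
    have := Real.rpow_nonneg hk.le (-(M8 + M6))
    positivity

/-- the statement of `brg_one` for fixed parameters -/
private def Brg2_O (d L : ℕ) (β κ κ2 k h : ℝ) : Prop :=
    ∀ (b u : ℕ → boxS d L → ℝ) (x : boxS d L) (n : ℕ), n * h ≤ ell k ^ 3 →
      (∀ v, 0 ≤ u 0 v) →
      (∀ j, j < n → QStep (boxNet d L) β h k (b j) (u j) (u (j + 1))) →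
      (∀ j, j < n → |b j x| ≤ 3 * h ^ (3 / 8 : ℝ)) →
      (∀ v, (boxMSet d L).lppM (κ2 / 2) (fun _ => 0) (fun j y => b j y / ell k) n v ≤
        κ / 16 + κ2 / 8 * (boxNet d L).dist x v) →
      (∀ i j, i ≤ j → j ≤ n → |∑ l ∈ Finset.Ico i j, b l x| ≤ κ / 16 * ell k) →
      u 0 x ≤ k ^ κ →
      (∀ v, v ≠ x → u 0 v ≤ k ^ (κ - (1 - κ2) * (boxNet d L).dist x v) * u 0 x) →
      ∀ j, j ≤ n → k ^ (κ / 8) * u 0 x ≤ u j x ∧ u j x ≤ k ^ (-(κ / 8)) * u 0 x ∧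
        ∀ v ∈ (boxNet d L).nb x, k * u j v ≤ k ^ (7 / 8 * κ) * u 0 x

/-- growth of one component at a site of the ball -/
private theorem Brg2_comp {d L : ℕ} {β κ κ2 κ3 k h : ℝ} {ns Rb : ℕ} {y : boxS d L}
    (HA : Brg2_O d L β κ κ2 k h) (hell : 0 < ell k) (hκ : 0 < κ)
    (hκ3 : 0 < κ3) (hκ32 : κ3 ≤ κ2 / 16) (hκ3k : κ3 ≤ κ / 64) (hns1 : ns * h ≤ ell k ^ 3)
    {ω : ℕ → boxS d L → ℂ} (hω : RegB κ2 κ3 k h ns y Rb ω)
    (b u : ℕ → boxS d L → ℝ) (c : ℕ → ℝ) (hc : ∀ j, 0 ≤ c j)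
    (hb : ∀ j, j < ns → ∀ x, |b j x| ≤ 3 * h ^ (3 / 8 : ℝ))
    (hbc : ∀ j, j < ns → ∀ x, |b j x - ell k * gz k h ω j x| ≤ c j)
    (hcs : ∑ j ∈ Finset.range ns, c j ≤ κ / 32 * ell k)
    (hQ : ∀ j, j < ns → QStep (boxNet d L) β h k (b j) (u j) (u (j + 1)))
    (z : boxS d L) (hz : (boxNet d L).dist y z ≤ Rb) (hu0 : ∀ v, 0 ≤ u 0 v) (h0 : u 0 z ≤ k ^ κ)
    (hgap : ∀ v, v ≠ z → u 0 v ≤ k ^ (κ - (1 - κ2) * (boxNet d L).dist z v) * u 0 z) :
    ∀ j, j ≤ ns → k ^ (κ / 8) * u 0 z ≤ u j z ∧ u j z ≤ k ^ (-(κ / 8)) * u 0 z ∧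
        ∀ v ∈ (boxNet d L).nb z, k * u j v ≤ k ^ (7 / 8 * κ) * u 0 z := by
  obtain ⟨_, hω2, _⟩ := hω
  obtain ⟨hω3, hω4⟩ := hω2 z hz
  refine HA b u z ns hns1 hu0 hQ (fun j hj => hb j hj z) (fun v => ?_) (fun i j hij hj => ?_) h0 hgap
  · have h1 := Brg2_lppM_add (boxMSet d L) (κ2 / 2) (gz k h ω) (fun j y => b j y / ell k)
      (fun j => c j / ell k) (fun j => div_nonneg (hc j) hell.le) ns (fun j hj x => ?_) v
    · have h2 := hω3 v
      have h3 : ∑ j ∈ Finset.range ns, c j / ell k ≤ κ / 32 := by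
        rw [← Finset.sum_div, div_le_iff₀ hell]
        exact hcs
      have h4 : (0 : ℝ) ≤ (boxNet d L).dist z v := Nat.cast_nonneg _
      have h5 : κ3 * (boxNet d L).dist z v ≤ κ2 / 8 * (boxNet d L).dist z v :=
        mul_le_mul_of_nonneg_right (by linarith) h4
      have h6 : κ3 * (1 + (boxNet d L).dist z v) = κ3 + κ3 * (boxNet d L).dist z v := by ring
      rw [h6] at h2
      linarith
    · have g1 := (abs_le.1 (hbc j hj x)).2
      rw [div_le_iff₀ hell, add_mul, div_mul_cancel₀ _ hell.ne']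
      linarith
  · have h1 := hω4 i j hij hj
    have e1 : ∑ l ∈ Finset.Ico i j, b l z = ell k * ∑ l ∈ Finset.Ico i j, gz k h ω l z +
        ∑ l ∈ Finset.Ico i j, (b l z - ell k * gz k h ω l z) := by
      rw [Finset.mul_sum, ← Finset.sum_add_distrib]
      exact Finset.sum_congr rfl fun l _ => by ring
    rw [e1]
    have h2 : |∑ l ∈ Finset.Ico i j, (b l z - ell k * gz k h ω l z)| ≤
        ∑ l ∈ Finset.range ns, c l := by
      refine (Finset.abs_sum_le_sum_abs _ _).trans ?_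
      have h3 : ∑ l ∈ Finset.Ico i j, |b l z - ell k * gz k h ω l z| ≤
          ∑ l ∈ Finset.Ico i j, c l := by
        refine Finset.sum_le_sum fun l hl => hbc l ?_ z
        exact (Finset.mem_Ico.1 hl).2.trans_le hj
      refine h3.trans (Finset.sum_le_sum_of_subset_of_nonneg ?_ fun l _ _ => hc l)
      intro l hl
      exact Finset.mem_range.2 ((Finset.mem_Ico.1 hl).2.trans_le hj)
    have h3 : |ell k * ∑ l ∈ Finset.Ico i j, gz k h ω l z| ≤ ell k * κ3 := by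
      rw [abs_mul, abs_of_pos hell]
      exact mul_le_mul_of_nonneg_left h1 hell.le
    refine (abs_add_le _ _).trans ?_
    have h4 : ell k * κ3 ≤ κ / 64 * ell k := by
      rw [mul_comm]
      exact mul_le_mul_of_nonneg_right hκ3k hell.le
    have h5 : 0 ≤ κ / 64 * ell k := by positivity
    linarith

/-- logarithmic difference and sizes of the initial configuration -/
private theorem Brg2_init {d L : ℕ} {κ κ2 κd M6 M8 A0 k : ℝ} {Rb : ℕ} {y : boxS d L}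
    (hk : 0 < k) (hk1 : k < 1) (hA0 : 0 ≤ A0)
    (hkC : 2 * (5 + κd * ell k) * k ≤ 1) (hκd : 0 ≤ κd * ell k)
    {G : (boxS d L → ℂ) × (boxS d L → ℂ)} (hG : GCfg k κ κ2 κd M6 y Rb G)
    (hprof : ∀ v, ‖G.1 v - G.2 v‖ ≤ A0 * k ^ (-(M8 - 1) + 5 / 8 * (boxNet d L).dist y v))
    (z : boxS d L) (hz : (boxNet d L).dist y z ≤ Rb) :
    G.1 z ≠ 0 ∧ G.2 z ≠ 0 ∧
      ‖Complex.log (G.2 z / G.1 z)‖ ≤ min (κd * ell k + 4) (k ^ (-(M8 + M6)) * A0) := by
  have hkM : 0 < k ^ M6 := Real.rpow_pos_of_pos hk _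
  obtain ⟨hl1, hl2⟩ := hG.low z hz
  obtain ⟨hr1, hr2⟩ := hG.rat z hz
  have n1 : 0 < ‖G.1 z‖ := hkM.trans_le hl1
  have n2 : 0 < ‖G.2 z‖ := hkM.trans_le hl2
  have z1 : G.1 z ≠ 0 := norm_pos_iff.1 n1
  have z2 : G.2 z ≠ 0 := norm_pos_iff.1 n2
  have hke : k ^ (-κd) = Real.exp (κd * ell k) := by
    rw [Real.rpow_def_of_pos hk, Brg2_elk]
    congr 1
    ring
  rw [hke] at hr1 hr2
  have h1 : ‖Complex.log (G.2 z / G.1 z)‖ ≤ κd * ell k + 4 := Brg2_logq z1 z2 hr1 hr2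
  refine ⟨z1, z2, le_min h1 ?_⟩
  have h2 := Brg2_log (G.2 z / G.1 z)
  have h3 : ‖G.2 z / G.1 z - 1‖ ≤ A0 * (k * k ^ (-(M8 + M6))) := by
    have e1 : G.2 z / G.1 z - 1 = (G.2 z - G.1 z) / G.1 z := by
      field_simp
    rw [e1, norm_div, norm_sub_rev, div_le_iff₀ n1]
    refine (hprof z).trans ?_
    have g1 : k ^ (-(M8 - 1) + 5 / 8 * ((boxNet d L).dist y z : ℝ)) ≤ k ^ (-(M8 - 1)) := by
      refine Real.rpow_le_rpow_of_exponent_ge hk hk1.le ?_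
      have : (0 : ℝ) ≤ (boxNet d L).dist y z := Nat.cast_nonneg _
      linarith
    have g2 : k ^ (-(M8 - 1)) = k * k ^ (-(M8 + M6)) * k ^ M6 := by
      nth_rw 2 [← Real.rpow_one k]
      rw [← Real.rpow_add hk, ← Real.rpow_add hk]
      congr 1
      ring
    have g3 : k * k ^ (-(M8 + M6)) * k ^ M6 ≤ k * k ^ (-(M8 + M6)) * ‖G.1 z‖ := by
      have : 0 < k ^ (-(M8 + M6)) := Real.rpow_pos_of_pos hk _
      exact mul_le_mul_of_nonneg_left hl1 (by positivity)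
    calc A0 * k ^ (-(M8 - 1) + 5 / 8 * ((boxNet d L).dist y z : ℝ))
        ≤ A0 * (k * k ^ (-(M8 + M6)) * ‖G.1 z‖) :=
          mul_le_mul_of_nonneg_left ((g1.trans g2.le).trans g3) hA0
      _ = _ := by ring
  have hkp : 0 < k ^ (-(M8 + M6)) := Real.rpow_pos_of_pos hk _
  have h4 : 2 * (1 + ‖Complex.log (G.2 z / G.1 z)‖) ≤ 2 * (5 + κd * ell k) := by linarith
  calc ‖Complex.log (G.2 z / G.1 z)‖
      ≤ 2 * (1 + ‖Complex.log (G.2 z / G.1 z)‖) * ‖G.2 z / G.1 z - 1‖ := h2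
    _ ≤ 2 * (5 + κd * ell k) * (A0 * (k * k ^ (-(M8 + M6)))) :=
        mul_le_mul h4 h3 (norm_nonneg _) (by positivity)
    _ = (2 * (5 + κd * ell k) * k) * (k ^ (-(M8 + M6)) * A0) := by ring
    _ ≤ 1 * (k ^ (-(M8 + M6)) * A0) := mul_le_mul_of_nonneg_right hkC (by positivity)
    _ = _ := one_mul _

private theorem Brg2_size {k κ M6 u0 uj : ℝ} (hk : 0 < k) (hk1 : k < 1) (hκ : 0 < κ)
    (hκ1 : κ ≤ 1 / 8) (hlow : k ^ M6 ≤ u0) (htop : u0 ≤ k ^ κ) (h1 : k ^ (κ / 8) * u0 ≤ uj)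
    (h2 : uj ≤ k ^ (-(κ / 8)) * u0) :
    0 < uj ∧ k ^ (M6 + 1) ≤ uj ∧ uj ≤ k ^ (κ / 2) ∧
      ∀ w, w ≤ k ^ (7 / 8 * κ) * u0 → w ≤ k ^ (κ / 2) * uj := by
  have p1 : 0 < k ^ M6 := Real.rpow_pos_of_pos hk _
  have hu0 : 0 < u0 := p1.trans_le hlow
  have p2 : 0 < k ^ (κ / 8) := Real.rpow_pos_of_pos hk _
  have p3 : 0 < k ^ (-(κ / 8)) := Real.rpow_pos_of_pos hk _
  have p4 : 0 < k ^ (3 / 4 * κ) := Real.rpow_pos_of_pos hk _
  have huj : 0 < uj := lt_of_lt_of_le (by positivity) h1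
  refine ⟨huj, ?_, ?_, ?_⟩
  · have g1 : k ^ (M6 + 1) = k ^ (1 : ℝ) * k ^ M6 := by
      rw [← Real.rpow_add hk]; congr 1; ring
    have g2 : k ^ (1 : ℝ) ≤ k ^ (κ / 8) :=
      Real.rpow_le_rpow_of_exponent_ge hk hk1.le (by linarith)
    rw [g1]
    exact (mul_le_mul g2 hlow p1.le p2.le).trans h1
  · have g1 : k ^ (-(κ / 8)) * k ^ κ = k ^ (7 / 8 * κ) := by
      rw [← Real.rpow_add hk]; congr 1; ring
    have g2 : k ^ (7 / 8 * κ) ≤ k ^ (κ / 2) :=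
      Real.rpow_le_rpow_of_exponent_ge hk hk1.le (by linarith)
    exact (h2.trans (mul_le_mul_of_nonneg_left htop p3.le)).trans (g1.le.trans g2)
  · intro w hw
    have g1 : k ^ (7 / 8 * κ) = k ^ (3 / 4 * κ) * k ^ (κ / 8) := by
      rw [← Real.rpow_add hk]; congr 1; ring
    have g2 : k ^ (3 / 4 * κ) ≤ k ^ (κ / 2) :=
      Real.rpow_le_rpow_of_exponent_ge hk hk1.le (by linarith)
    rw [g1, mul_assoc] at hw
    exact hw.trans ((mul_le_mul_of_nonneg_left h1 p4.le).trans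
      (mul_le_mul_of_nonneg_right g2 huj.le))

/-- bounds of the control -/
private theorem Brg2_cb {k h κ κd κ' A0 m0 ς K1 K2 : ℝ} {ns : ℕ} (hk : 0 < k) (hk1 : k < 1)
    (hell : 0 < ell k) (hκ : 0 < κ) (hκ' : 0 < κ') (hκdk : κd ≤ κ / 64)
    (hh : 0 < h) (hh1 : h ≤ 1) (hns : 1 ≤ ns * h) (hns1 : ns * h ≤ ell k ^ 3)
    (hkl : 320 / κ ≤ ell k) (hk3 : k ^ κ' * ell k ^ 3 ≤ 1)
    (hm0 : 0 ≤ m0) (hm1 : m0 ≤ κd * ell k + 4) (hm2 : m0 ≤ K1 * A0) (hς0 : 0 ≤ ς)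
    (hς1 : ς ≤ h * k ^ κ') (hς2 : ς ≤ h * (K2 * A0)) (hK2 : 0 ≤ K2 * A0) :
    (∀ j, j ≤ ns → 0 ≤ m0 / (ns + 1) + ς * lamS ns j ∧
      m0 / (ns + 1) + ς * lamS ns j ≤
        (κd * ell k + 4 + (1 + 2 * Real.sqrt (2 * ell k ^ 3))) * h ^ (1 / 2 : ℝ) ∧
      m0 / (ns + 1) + ς * lamS ns j ≤
        A0 * ((K1 + (1 + 2 * Real.sqrt (2 * ell k ^ 3)) * K2) * h ^ (1 / 2 : ℝ))) ∧
    ∑ j ∈ Finset.range ns, (m0 / (ns + 1) + ς * lamS ns j) ≤ κ / 32 * ell k := by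
  set Cl : ℝ := 1 + 2 * Real.sqrt (2 * ell k ^ 3) with hCl
  have hns0 : (0 : ℝ) ≤ ns := Nat.cast_nonneg _
  have hns2 : (0 : ℝ) < (ns : ℝ) + 1 := by positivity
  have hlog := Brg2_hlog hh hh1 hns hns1
  rw [← hCl] at hlog
  have hhh : h ≤ h ^ (1 / 2 : ℝ) := by
    have := Real.rpow_le_rpow_of_exponent_ge hh hh1 (show (1 / 2 : ℝ) ≤ 1 by norm_num)
    rwa [Real.rpow_one] at this
  have hkk : k ^ κ' ≤ 1 := Real.rpow_le_one hk.le hk1.le hκ'.le
  have hm3 : m0 / (ns + 1) ≤ m0 * h := by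
    rw [div_le_iff₀ hns2]
    have : m0 * 1 ≤ m0 * (h * (ns + 1)) := by
      refine mul_le_mul_of_nonneg_left ?_ hm0
      have : h * (ns + 1) = ns * h + h := by ring
      linarith
    linarith
  constructor
  · intro j hj
    obtain ⟨l0, l1⟩ := lamS_le ns j hj
    refine ⟨by positivity, ?_, ?_⟩
    · have g1 : m0 * h ≤ (κd * ell k + 4) * h ^ (1 / 2 : ℝ) :=
        mul_le_mul hm1 hhh hh.le (hm0.trans hm1)
      have g2 : ς * lamS ns j ≤ h * (1 + Real.log (ns + 1)) := by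
        refine mul_le_mul (hς1.trans ?_) l1 l0 hh.le
        have := mul_le_mul_of_nonneg_left hkk hh.le
        linarith
      have g3 : (κd * ell k + 4 + Cl) * h ^ (1 / 2 : ℝ) =
        (κd * ell k + 4) * h ^ (1 / 2 : ℝ) + Cl * h ^ (1 / 2 : ℝ) := by ring
      rw [g3]
      linarith
    · have g1 : m0 * h ≤ (K1 * A0) * h ^ (1 / 2 : ℝ) :=
        mul_le_mul hm2 hhh hh.le (hm0.trans hm2)
      have g2 : ς * lamS ns j ≤ h * (K2 * A0) * (1 + Real.log (ns + 1)) :=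
        mul_le_mul hς2 l1 l0 (by positivity)
      have g4 := mul_le_mul_of_nonneg_left hlog hK2
      have g3 : A0 * ((K1 + Cl * K2) * h ^ (1 / 2 : ℝ)) =
        (K1 * A0) * h ^ (1 / 2 : ℝ) + (K2 * A0) * (Cl * h ^ (1 / 2 : ℝ)) := by ring
      rw [g3]
      linarith
  · rw [Finset.sum_add_distrib, ← Finset.mul_sum, Finset.sum_const, Finset.card_range,
      nsmul_eq_mul]
    have g1 : (ns : ℝ) * (m0 / (ns + 1)) ≤ m0 := by
      rw [mul_div_assoc', div_le_iff₀ hns2]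
      linarith
    have g2 : ς * ∑ j ∈ Finset.range ns, lamS ns j ≤ 1 := by
      have g3 : ς * ∑ j ∈ Finset.range ns, lamS ns j ≤ ς * ns :=
        mul_le_mul_of_nonneg_left (lamS_sum ns) hς0
      have g4 : ς * ns ≤ h * k ^ κ' * ns := mul_le_mul_of_nonneg_right hς1 hns0
      have g5 : h * k ^ κ' * ns = k ^ κ' * (ns * h) := by ring
      have g6 : k ^ κ' * (ns * h) ≤ k ^ κ' * ell k ^ 3 :=
        mul_le_mul_of_nonneg_left hns1 (Real.rpow_nonneg hk.le _)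
      linarith
    have g3 : κd * ell k ≤ κ / 64 * ell k := mul_le_mul_of_nonneg_right hκdk hell.le
    have g4 : 5 ≤ κ / 64 * ell k := by
      rw [div_le_iff₀ hκ] at hkl
      linarith
    linarith

/-- difference at a site of the ball from the logarithmic difference -/
private theorem Brg2_dlog {a b : ℂ} {e : ℝ} (ha : a ≠ 0) (hb : b ≠ 0) (ha1 : ‖a‖ ≤ 1)
    (h1 : ‖Complex.log (b / a)‖ ≤ e) (he : e ≤ 1) : ‖a - b‖ ≤ 2 * e := by
  have h2 : b = a * Complex.exp (Complex.log (b / a)) := by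
    rw [Complex.exp_log (div_ne_zero hb ha)]
    field_simp
  have h3 : a - b = -(a * (Complex.exp (Complex.log (b / a)) - 1)) := by
    have e1 : -(a * (Complex.exp (Complex.log (b / a)) - 1)) =
        a - a * Complex.exp (Complex.log (b / a)) := by ring
    rw [e1, ← h2]
  rw [h3, norm_neg, norm_mul]
  have h4 := Complex.norm_exp_sub_one_le (h1.trans he)
  have h5 : ‖a‖ * ‖Complex.exp (Complex.log (b / a)) - 1‖ ≤
      1 * ‖Complex.exp (Complex.log (b / a)) - 1‖ :=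
    mul_le_mul_of_nonneg_right ha1 (norm_nonneg _)
  linarith

theorem brg_reg (d : ℕ) (β : ℝ) (hβ : 0 < β) (κ κ2 κ3 κd M6 M8 : ℝ) (Rb : ℕ) (hκ : 0 < κ)
    (hκ1 : κ ≤ 1 / 8) (hκ2 : 0 < κ2) (hκ21 : κ2 ≤ 1 / 8) (hκ3 : 0 < κ3) (hκ32 : κ3 ≤ κ2 / 16)
    (hκ3k : κ3 ≤ κ / 64) (hκd : 0 < κd) (hκdk : κd ≤ κ / 64) (hM6 : 0 ≤ M6) (hM8 : 1 ≤ M8) :
    ∃ k0 : ℝ, 0 < k0 ∧ k0 < 1 ∧ ∀ k, 0 < k → k < k0 → ∃ h0 : ℝ, 0 < h0 ∧ ∀ h, 0 < h → h < h0 →
    ∀ (L : ℕ) (y : boxS d L) (A0 : ℝ) (ns : ℕ), 0 ≤ A0 → 1 ≤ ns * h → ns * h ≤ ell k ^ 3 →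
    ∀ (G : (boxS d L → ℂ) × (boxS d L → ℂ)), GCfg k κ κ2 κd M6 y Rb G →
      (∀ v, ‖G.1 v - G.2 v‖ ≤ A0 * k ^ (-(M8 - 1) + 5 / 8 * (boxNet d L).dist y v)) →
    ∀ ω : ℕ → boxS d L → ℂ, RegB κ2 κ3 k h ns y Rb ω →
      (∀ j, j ≤ ns → (bpar β k h κ κd M6 M8 A0 ns Rb y).RegSt k j
        (trajT ((bpar β k h κ κd M6 M8 A0 ns Rb y).bst β k h) G ω j)) ∧
      ∀ v, ‖(trajT ((bpar β k h κ κd M6 M8 A0 ns Rb y).bst β k h) G ω ns).1 v -
          (trajT ((bpar β k h κ κd M6 M8 A0 ns Rb y).bst β k h) G ω ns).2 v‖ ≤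
        A0 * Real.exp (ell k * (M8 - max ((boxNet d L).dist y v : ℝ) Rb / 2)) := by
  have hκ' : 0 < min 1 β * κ / 8 := by
    have := lt_min one_pos hβ
    positivity
  obtain ⟨ka, ka0, ka1, HA⟩ := brg_one d β κ κ2 hβ hκ hκ1 hκ2 hκ21
  obtain ⟨kb, kb0, kb1, HB⟩ := brg_step d β hβ κ M6 M8 hκ
  obtain ⟨kc, kc0, kc1, HC⟩ := brg_dif d β hβ κ M6 M8 hκ hκ1 hM8
  obtain ⟨kd, kd0, HK⟩ := Brg2_ev ((Brg2_ell (320 / κ)).and
    ((Brg2_powell 1 (a := min 1 β * κ / 8 / 3) (δ := 1) (by positivity) one_pos).and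
    ((Brg2_powell (2 * κd) (a := 1) (δ := 1 / 2) one_pos (by norm_num)).and
    (Brg2_pow 10 (a := 1) (δ := 1 / 2) one_pos (by norm_num)))))
  refine ⟨min (min ka kb) (min kc kd), lt_min (lt_min ka0 kb0) (lt_min kc0 kd0),
    (min_le_left _ _).trans_lt ((min_le_left _ _).trans_lt ka1), ?_⟩
  intro k hk hkk
  have hka : k < ka := hkk.trans_le ((min_le_left _ _).trans (min_le_left _ _))
  have hkb : k < kb := hkk.trans_le ((min_le_left _ _).trans (min_le_right _ _))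
  have hkc : k < kc := hkk.trans_le ((min_le_right _ _).trans (min_le_left _ _))
  have hkd : k < kd := hkk.trans_le ((min_le_right _ _).trans (min_le_right _ _))
  have hk1 : k < 1 := hka.trans ka1
  obtain ⟨K1, K2, K3, K4⟩ := HK k hk hkd
  rw [Real.rpow_one] at K3 K4
  have hell : 0 < ell k := by
    rw [Brg2_elk]
    have := Real.log_neg hk hk1
    linarith
  have hk3 : k ^ (min 1 β * κ / 8) * ell k ^ 3 ≤ 1 := by
    have e1 : k ^ (min 1 β * κ / 8) * ell k ^ 3 = (1 * k ^ (min 1 β * κ / 8 / 3) * ell k) ^ 3 := by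
      rw [one_mul, mul_pow, ← Real.rpow_natCast (k ^ (min 1 β * κ / 8 / 3)) 3,
        ← Real.rpow_mul hk.le]
      congr 2
      push_cast
      ring
    rw [e1]
    refine pow_le_one₀ ?_ K2
    have := Real.rpow_nonneg hk.le (min 1 β * κ / 8 / 3)
    positivity
  have hkC : 2 * (5 + κd * ell k) * k ≤ 1 := by
    have e1 : 2 * (5 + κd * ell k) * k = 10 * k + 2 * κd * k * ell k := by ring
    rw [e1]
    linarith
  obtain ⟨ha, ha0, HA⟩ := HA k hk hka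
  obtain ⟨hb, hb0, HB⟩ := HB k hk hkb
  obtain ⟨hc, hc0, HC⟩ := HC k hk hkc
  set Cl : ℝ := 1 + 2 * Real.sqrt (2 * ell k ^ 3) with hCl
  set q1 : ℝ := k ^ (-(M8 + M6)) with hq1
  set q2 : ℝ := k ^ (-(M8 + 2 * M6 + 4)) with hq2
  have hq10 : 0 < q1 := Real.rpow_pos_of_pos hk _
  have hq20 : 0 < q2 := Real.rpow_pos_of_pos hk _
  have hRp : 0 < k ^ (-M8 + (Rb : ℝ) / 2) := Real.rpow_pos_of_pos hk _
  obtain ⟨hd, hd0, HH⟩ := Brg2_ev ((Brg2_pow (κd * ell k + 4 + Cl) (a := 1 / 8) (δ := 1)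
    (by norm_num) one_pos).and (Brg2_pow (2 * (q1 + Cl * q2)) (a := 1 / 2)
    (δ := k ^ (-M8 + (Rb : ℝ) / 2)) (by norm_num) hRp))
  refine ⟨min (min ha hb) (min hc (min hd 1)), lt_min (lt_min ha0 hb0)
    (lt_min hc0 (lt_min hd0 one_pos)), ?_⟩
  intro h hh hhh L y A0 ns hA0 hns hns1 G hG hprof ω hω
  have hha : h < ha := hhh.trans_le ((min_le_left _ _).trans (min_le_left _ _))
  have hhb : h < hb := hhh.trans_le ((min_le_left _ _).trans (min_le_right _ _))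
  have hhc : h < hc := hhh.trans_le ((min_le_right _ _).trans (min_le_left _ _))
  have hhd : h < hd := hhh.trans_le ((min_le_right _ _).trans ((min_le_right _ _).trans
    (min_le_left _ _)))
  have hh1 : h < 1 := hhh.trans_le ((min_le_right _ _).trans ((min_le_right _ _).trans
    (min_le_right _ _)))
  obtain ⟨H1, H2⟩ := HH h hh hhd
  have HA' : Brg2_O d L β κ κ2 k h := HA h hh hha L
  have HB' := HB h hh hhb L
  have HC' := HC h hh hhc L
  obtain ⟨P, hP⟩ : ∃ P : BPar d L, P = bpar β k h κ κd M6 M8 A0 ns Rb y := ⟨_, rfl⟩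
  rw [← hP]
  have hOK : P.OK β k h := by
    rw [hP]
    exact Brg2_OK y hk hell.le hκ hκ1 hκd hκdk hM6 hM8 hA0 hns hns1
  have eκ : P.κ = κ := by rw [hP]; rfl
  have eM6 : P.M6 = M6 := by rw [hP]; rfl
  have eM8 : P.M8 = M8 := by rw [hP]; rfl
  have eA0 : P.A0 = A0 := by rw [hP]; rfl
  have ens : P.ns = ns := by rw [hP]; rfl
  have ey : P.y = y := by rw [hP]; rfl
  have eRb : P.Rb = Rb := by rw [hP]; rfl
  have em0 : P.m0 = min (κd * ell k + 4) (q1 * A0) := by rw [hP]; rfl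
  have eς : P.ς = h * min (k ^ (min 1 β * κ / 8)) (q2 * A0) := by rw [hP]; rfl
  have hm0 := hOK.hm0
  have hq2A : 0 ≤ q2 * A0 := by positivity
  have hς0 : 0 ≤ P.ς := by
    rw [eς]
    exact mul_nonneg hh.le (le_min (Real.rpow_nonneg hk.le _) hq2A)
  -- bounds of the control
  obtain ⟨hcb, hcs⟩ := Brg2_cb (m0 := P.m0) (ς := P.ς) (K1 := q1) (K2 := q2) (A0 := A0)
    (κd := κd) (ns := ns) (κ' := min 1 β * κ / 8) hk hk1 hell hκ hκ' hκdk hh hh1.le hns hns1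
    K1 hk3 hm0 (by rw [em0]; exact min_le_left _ _) (by rw [em0]; exact min_le_right _ _) hς0
    (by rw [eς]; exact mul_le_mul_of_nonneg_left (min_le_left _ _) hh.le)
    (by rw [eς]; exact mul_le_mul_of_nonneg_left (min_le_right _ _) hh.le) hq2A
  rw [← hCl] at hcb
  have hC1 : (κd * ell k + 4 + Cl) * h ^ (1 / 2 : ℝ) ≤ h ^ (3 / 8 : ℝ) := by
    have e1 : h ^ (1 / 2 : ℝ) = h ^ (1 / 8 : ℝ) * h ^ (3 / 8 : ℝ) := by
      rw [← Real.rpow_add hh]; norm_num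
    rw [e1, ← mul_assoc]
    have := mul_le_mul_of_nonneg_right H1 (Real.rpow_nonneg hh.le (3 / 8 : ℝ))
    linarith
  have hh38 : h ^ (3 / 8 : ℝ) ≤ 1 := Real.rpow_le_one hh.le hh1.le (by norm_num)
  -- the trajectory
  obtain ⟨Z, hZ⟩ : ∃ Z : ℕ → (boxS d L → ℂ) × (boxS d L → ℂ),
      Z = trajT (P.bst β k h) G ω := ⟨_, rfl⟩
  have hZ0 : Z 0 = G := by rw [hZ]; rfl
  have hZs : ∀ j, Z (j + 1) = P.bst β k h j (Z j) (ω j) := fun j => by rw [hZ]; rfl
  rw [← hZ]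
  have hgd : ∀ j, j < ns → ∀ x, Real.sqrt h * ‖ω j x‖ ≤ h ^ (3 / 8 : ℝ) := fun j hj x =>
    hω.1 j hj x
  have hb1 : ∀ j, j < ns → ∀ x, |bC h (ω j x)| ≤ h ^ (3 / 8 : ℝ) := by
    intro j hj x
    unfold bC
    rw [abs_mul, abs_of_nonneg (Real.sqrt_nonneg h)]
    exact (mul_le_mul_of_nonneg_left (Complex.abs_re_le_norm _) (Real.sqrt_nonneg h)).trans
      (hgd j hj x)
  have hgz : ∀ j x, ell k * gz k h ω j x = bC h (ω j x) := by
    intro j x
    unfold gz bC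
    rw [mul_div_cancel₀ _ hell.ne']
  have hctl : ∀ j, j < ns → ∀ x, |bC h (ω j x + P.ctl k h j (Z j) x) - bC h (ω j x)| ≤
      P.m0 / (ns + 1) + P.ς * lamS ns j := by
    intro j hj x
    have g1 := ctl_le P k h hh hm0 hς0 j (Z j) x
    rw [ens, if_pos hj] at g1
    refine le_trans ?_ g1
    have e1 : bC h (ω j x + P.ctl k h j (Z j) x) - bC h (ω j x) =
        Real.sqrt h * (P.ctl k h j (Z j) x).re := by
      unfold bC
      rw [Complex.add_re]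
      ring
    rw [e1, abs_mul, abs_of_nonneg (Real.sqrt_nonneg h)]
    exact mul_le_mul_of_nonneg_left (Complex.abs_re_le_norm _) (Real.sqrt_nonneg h)
  have h3p : 0 ≤ h ^ (3 / 8 : ℝ) := Real.rpow_nonneg hh.le _
  -- growth of the two components
  have F1 : ∀ z, P.Bs z → ∀ j, j ≤ ns → k ^ (κ / 8) * ‖G.1 z‖ ≤ ‖(Z j).1 z‖ ∧
      ‖(Z j).1 z‖ ≤ k ^ (-(κ / 8)) * ‖G.1 z‖ ∧
      ∀ v ∈ (boxNet d L).nb z, k * ‖(Z j).1 v‖ ≤ k ^ (7 / 8 * κ) * ‖G.1 z‖ := by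
    intro z hz
    have hz' : (boxNet d L).dist y z ≤ Rb := by rw [← ey, ← eRb]; exact hz
    have g := Brg2_comp HA' hell hκ hκ3 hκ32 hκ3k hns1 hω (fun j x => bC h (ω j x))
      (fun j => nrm (Z j).1) (fun _ => 0) (fun _ => le_rfl)
      (fun j hj x => (hb1 j hj x).trans (by linarith))
      (fun j _ x => by rw [hgz, sub_self, abs_zero]) (by
        rw [Finset.sum_const_zero]
        positivity)
      (fun j _ => by
        have := st2_q d hβ hk.le hh L (Z j).1 (ω j)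
        have e1 : (Z (j + 1)).1 = st2 d β k h L (Z j).1 (ω j) := by rw [hZs]; rfl
        rw [e1]
        exact this) z hz' (fun v => norm_nonneg _)
      (by
        show ‖(Z 0).1 z‖ ≤ k ^ κ
        rw [hZ0]
        exact (hG.top z hz').1)
      (by
        intro v hv
        show ‖(Z 0).1 v‖ ≤ _ * ‖(Z 0).1 z‖
        rw [hZ0]
        exact (hG.gap z hz' v hv).1)
    intro j hj
    have g' := g j hj
    simp only [nrm, hZ0] at g'
    exact g'
  have F2 : ∀ z, P.Bs z → ∀ j, j ≤ ns → k ^ (κ / 8) * ‖G.2 z‖ ≤ ‖(Z j).2 z‖ ∧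
      ‖(Z j).2 z‖ ≤ k ^ (-(κ / 8)) * ‖G.2 z‖ ∧
      ∀ v ∈ (boxNet d L).nb z, k * ‖(Z j).2 v‖ ≤ k ^ (7 / 8 * κ) * ‖G.2 z‖ := by
    intro z hz
    have hz' : (boxNet d L).dist y z ≤ Rb := by rw [← ey, ← eRb]; exact hz
    have g := Brg2_comp HA' hell hκ hκ3 hκ32 hκ3k hns1 hω
      (fun j x => bC h (ω j x + P.ctl k h j (Z j) x))
      (fun j => nrm (Z j).2)
      (fun j => if j < ns then P.m0 / (ns + 1) + P.ς * lamS ns j else 0)
      (fun j => by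
        by_cases hj : j < ns
        · rw [if_pos hj]
          exact (hcb j hj.le).1
        · rw [if_neg hj])
      (fun j hj x => by
        have g1 := hctl j hj x
        have g2 := hb1 j hj x
        have g3 := (hcb j hj.le).2.1
        have g4 : |bC h (ω j x + P.ctl k h j (Z j) x)| ≤ |bC h (ω j x)| +
            |bC h (ω j x + P.ctl k h j (Z j) x) - bC h (ω j x)| := by
          have := abs_add_le (bC h (ω j x)) (bC h (ω j x + P.ctl k h j (Z j) x) - bC h (ω j x))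
          rwa [add_sub_cancel] at this
        linarith)
      (fun j hj x => by rw [hgz, if_pos hj]; exact hctl j hj x) (by
        refine le_trans (le_of_eq ?_) hcs
        exact Finset.sum_congr rfl fun j hj => if_pos (Finset.mem_range.1 hj))
      (fun j _ => by
        have := st2_q d hβ hk.le hh L (Z j).2 (fun z => ω j z + P.ctl k h j (Z j) z)
        have e1 : (Z (j + 1)).2 = st2 d β k h L (Z j).2 (fun z => ω j z + P.ctl k h j (Z j) z) := by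
          rw [hZs]; rfl
        rw [e1]
        exact this) z hz' (fun v => norm_nonneg _)
      (by
        show ‖(Z 0).2 z‖ ≤ k ^ κ
        rw [hZ0]
        exact (hG.top z hz').2)
      (by
        intro v hv
        show ‖(Z 0).2 v‖ ≤ _ * ‖(Z 0).2 z‖
        rw [hZ0]
        exact (hG.gap z hz' v hv).2)
    intro j hj
    have g' := g j hj
    simp only [nrm, hZ0] at g'
    exact g'
  have hreg : ∀ j, j ≤ ns → P.RegSt k j (Z j) := by
    intro j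
    induction j using Nat.strong_induction_on with
    | _ j IH =>
      intro hj
      -- profile
      have hpr := HC' P eκ eM6 eM8 hOK G ω j (by rw [ens]; exact hj)
        (fun i hi x => hω.1 i (by rw [← ens]; exact hi) x)
        (fun i hi => by rw [← hZ]; exact IH i hi (hi.le.trans hj))
        (fun z hz i i' hii' hi'j => by
          rw [← hZ]
          have g1 := (F2 z hz i' (hi'j.trans hj)).2.1
          have g2 := (F2 z hz i (hii'.trans (hi'j.trans hj))).1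
          have g3 : k ^ (-(κ / 8)) * ‖G.2 z‖ =
              k ^ (-(κ / 4)) * (k ^ (κ / 8) * ‖G.2 z‖) := by
            rw [← mul_assoc, ← Real.rpow_add hk]
            congr 2
            ring
          rw [g3] at g1
          exact g1.trans (mul_le_mul_of_nonneg_left g2 (Real.rpow_nonneg hk.le _)))
        (fun v => by rw [ens, ey]; exact hω.2.2 v)
        (fun z hz v hv => by
          have hz' : (boxNet d L).dist y z ≤ Rb := by rw [← ey, ← eRb]; exact hz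
          rw [ens]
          refine (Brg2_lppM_anti (boxMSet d L) (show κ2 / 2 ≤ 1 / 8 by linarith) _ ns v).trans ?_
          refine ((hω.2.1 z hz').1 v).trans ?_
          have : ((boxNet d L).dist z v : ℝ) ≤ 1 := by exact_mod_cast hv
          have g1 : κ3 * (1 + ((boxNet d L).dist z v : ℝ)) ≤ κ3 * 2 :=
            mul_le_mul_of_nonneg_left (by linarith) hκ3.le
          linarith)
        (fun v => by rw [eA0, eM8, ey]; exact hprof v)
      rw [← hZ] at hpr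
      refine ⟨fun z hz => ?_, hpr⟩
      have hz' : (boxNet d L).dist y z ≤ Rb := by rw [← ey, ← eRb]; exact hz
      obtain ⟨a1, a2, a3⟩ := F1 z hz j hj
      obtain ⟨b1, b2, b3⟩ := F2 z hz j hj
      obtain ⟨s1, s2, s3, s4⟩ := Brg2_size hk hk1 hκ hκ1 (hG.low z hz').1 (hG.top z hz').1 a1 a2
      obtain ⟨t1, t2, t3, t4⟩ := Brg2_size hk hk1 hκ hκ1 (hG.low z hz').2 (hG.top z hz').2 b1 b2
      rw [eM6, eκ]
      refine ⟨norm_pos_iff.1 s1, norm_pos_iff.1 t1, ?_, s2, s3, t2, t3,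
        fun v hv => ⟨s4 _ (a3 v hv), t4 _ (b3 v hv)⟩⟩
      rcases Nat.eq_zero_or_pos j with h0 | h0
      · subst h0
        rw [hZ0]
        have g1 := (Brg2_init hk hk1 hA0 hkC (by positivity) hG hprof z hz').2.2
        have e1 : P.bd 0 = min (κd * ell k + 4) (q1 * A0) := by
          unfold BPar.bd
          rw [em0, ens]
          have : (0 : ℝ) < (ns : ℝ) + 1 := by positivity
          unfold lamS
          simp only [Finset.range_zero, Finset.sum_empty, mul_zero, add_zero, Nat.cast_zero,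
            sub_zero]
          rw [div_mul_cancel₀ _ this.ne']
        rw [e1]
        exact g1
      · obtain ⟨i, rfl⟩ : ∃ i, j = i + 1 := ⟨j - 1, by omega⟩
        have g1 := HB' P eκ eM6 eM8 hOK i (by rw [ens]; omega) (Z i)
          (IH i (Nat.lt_succ_self i) (by omega)) (ω i) z hz (hgd i (by omega) z)
        rw [hZs]
        exact g1.2.2
  refine ⟨fun j hj => hreg j hj, fun v => ?_⟩
  have hR := hreg ns le_rfl
  have hkexp : ∀ a : ℝ, k ^ a = Real.exp (ell k * (-a)) := by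
    intro a
    rw [Real.rpow_def_of_pos hk, Brg2_elk]
    congr 1
    ring
  rcases le_or_gt ((boxNet d L).dist y v) Rb with hv | hv
  · have hBv : P.Bs v := by
      show (boxNet d L).dist P.y v ≤ P.Rb
      rw [ey, eRb]
      exact hv
    obtain ⟨r1, r2, r3, r4, r5, _⟩ := hR.1 v hBv
    obtain ⟨c0, c1, c2⟩ := hcb ns le_rfl
    have e1 : P.bd ns = P.m0 / (ns + 1) + P.ς * lamS ns ns := by
      unfold BPar.bd
      rw [ens]
      ring
    rw [e1] at r3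
    have g1 : ‖(Z ns).1 v‖ ≤ 1 := by
      refine r5.trans (Real.rpow_le_one hk.le hk1.le ?_)
      rw [eκ]
      linarith
    have g2 := Brg2_dlog r1 r2 g1 r3 (c1.trans (hC1.trans hh38))
    refine g2.trans ?_
    have e2 : max ((boxNet d L).dist y v : ℝ) Rb = Rb := max_eq_right (by exact_mod_cast hv)
    rw [e2]
    have e3 : Real.exp (ell k * (M8 - (Rb : ℝ) / 2)) = k ^ (-M8 + (Rb : ℝ) / 2) := by
      rw [hkexp]
      congr 2
      ring
    rw [e3]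
    have g3 := mul_le_mul_of_nonneg_left H2 hA0
    have e4 : A0 * (2 * (q1 + Cl * q2) * h ^ (1 / 2 : ℝ)) =
        2 * (A0 * ((q1 + Cl * q2) * h ^ (1 / 2 : ℝ))) := by ring
    rw [e4] at g3
    linarith
  · have e2 : max ((boxNet d L).dist y v : ℝ) Rb = (boxNet d L).dist y v :=
      max_eq_left (by exact_mod_cast hv.le)
    rw [e2]
    refine (hR.2 v).trans ?_
    rw [eA0, eM8, ey, hkexp]
    refine mul_le_mul_of_nonneg_left (Real.exp_le_exp.2 (le_of_eq ?_)) hA0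
    ring

end DynC
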