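import Pool.Agent.Lib_MP_36b788c.Grw2
import Pool.Agent.Lib_MP_36b788c.BFam

/-!
# Regular noise on a window (`N = 2`)

`Reg2 κ g n x`: the last passage values started from `0` are `≤ κ (1 + dist x v)` and all block sums of `g` at `x` are `≤ κ` in modulus.

PROOF.
* `reg2_sub`: `lppM` of the shifted noise from `0` is at most the one of the whole window (`lpp_shift`: the value at time `m` is `≥ 0`, `lpp_mono`, `lpp_congr`); block sums of the shifted noise are block sums.
* `reg2_growth`: `grow_path` with `q' = 1/8`, `ε = 1/8`, `ρ ≤ 3/4`; `(1 + 4d k^{1/8} h)^n ≤ exp(4 d k^{1/8} (ell^3)) ≤ 2` for small `k`; `lpp n v ≤ lppM n v ≤ κ(1+dist x v)`.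
* `reg2_prob`: `lam = 1/√(v n)`, large since `v n ≤ s1`; `cell_all` with `K = n`, `W0 = 0`, `q = 1/8` (`lam² v n = 1`; `eps_small` gives the condition on `e` for `lam ≥ lam1`): `E exp(lam lppM n v) ≤ CB`, Markov: `P(lppM n v > κ(1+dist x v)) ≤ CB e^{-lam κ (1+dist x v)}`, sum over `v` with `e^{-lam κ} ≤ 1/2`
  and `sum_half`. Block sums: `sum_le_osc`, `osc_exp` with `s = lam`: `P(osc > κ) ≤ C e^{-lam κ}`.
* `re_law`: `re_map` for the rescaled noise: the law of `gz k h ω` under `PI (gC^box)` is the law of `sc (h/ell²) ω` under `PI nz`; used for events.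
-/

open MeasureTheory ProbabilityTheory
open scoped ENNReal

namespace DynC

open Dyn

/-- regular noise on a window of `n` steps, seen from `x` -/
def Reg2 {d L : ℕ} (κ : ℝ) (g : ℕ → boxS d L → ℝ) (n : ℕ) (x : boxS d L) : Prop :=
  (∀ v, (boxMSet d L).lppM (1 / 8) (fun _ => 0) g n v ≤ κ * (1 + (boxNet d L).dist x v)) ∧
    ∀ i j, i ≤ j → j ≤ n → |∑ l ∈ Finset.Ico i j, g l x| ≤ κ

/-- increments of the heights, `N = 2` -/
noncomputable def gz {d L : ℕ} (k h : ℝ) (ω : ℕ → boxS d L → ℂ) : ℕ → boxS d L → ℝ :=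
  fun j y => Real.sqrt h * (ω j y).re / ell k

theorem reg2_sub {d L : ℕ} (κ : ℝ) (g : ℕ → boxS d L → ℝ) (n m : ℕ) (hm : m ≤ n) (x : boxS d L)
    (hR : Reg2 κ g n x) : Reg2 κ (fun j => g (m + j)) (n - m) x := by
  obtain ⟨h1, h2⟩ := hR
  refine ⟨fun v => ?_, fun i j hij hj => ?_⟩
  · refine le_trans ?_ (h1 v)
    unfold MSet.lppM
    refine Finset.sup'_le _ _ fun l hl => ?_
    have hl' : l ≤ n - m := Nat.lt_succ_iff.mp (Finset.mem_range.mp hl)
    have e1 : (boxMSet d L).lpp (1 / 8) (fun _ => 0) (fun j => g (m + j)) l v ≤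
        (boxMSet d L).lpp (1 / 8) ((boxMSet d L).lpp (1 / 8) (fun _ => 0) g m)
          (fun j => g (m + j)) l v :=
      lpp_mono (boxMSet d L) _ _ _
        (fun z => lpp_nonneg (boxMSet d L) _ _ (fun _ => le_refl 0) g m z) _ l v
    refine e1.trans ?_
    rw [← lpp_shift]
    exact le_lppM (boxMSet d L) _ _ g (by omega) v
  · have e1 : ∑ l ∈ Finset.Ico i j, g (m + l) x = ∑ l ∈ Finset.Ico (m + i) (m + j), g l x := by
      rw [Finset.sum_Ico_add (fun l => g l x) i j m, add_comm i m, add_comm j m]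
    rw [e1]
    exact h2 (m + i) (m + j) (by omega) (by omega)

theorem measurableSet_Reg2 {d L : ℕ} (κ : ℝ) (n : ℕ) (x : boxS d L) :
    MeasurableSet {g : ℕ → boxS d L → ℝ | Reg2 κ g n x} := by
  unfold Reg2
  have e1 : {g : ℕ → boxS d L → ℝ |
      (∀ v, (boxMSet d L).lppM (1 / 8) (fun _ => 0) g n v ≤ κ * (1 + (boxNet d L).dist x v)) ∧
        ∀ i j, i ≤ j → j ≤ n → |∑ l ∈ Finset.Ico i j, g l x| ≤ κ} =
      (⋂ v, {g : ℕ → boxS d L → ℝ | (boxMSet d L).lppM (1 / 8) (fun _ => 0) g n v ≤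
        κ * (1 + (boxNet d L).dist x v)}) ∩
      ⋂ (i : ℕ) (j : ℕ) (_ : i ≤ j) (_ : j ≤ n),
        {g : ℕ → boxS d L → ℝ | |∑ l ∈ Finset.Ico i j, g l x| ≤ κ} := by
    ext g
    simp only [Set.mem_inter_iff, Set.mem_iInter, Set.mem_ofPred_eq]
  rw [e1]
  refine MeasurableSet.inter (MeasurableSet.iInter fun v => ?_)
    (MeasurableSet.iInter fun i => MeasurableSet.iInter fun j => MeasurableSet.iInter fun _ =>
      MeasurableSet.iInter fun _ => ?_)
  · exact measurableSet_le (measurable_lppM (boxMSet d L) _ _ n v) measurable_const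
  · refine measurableSet_le ?_ measurable_const
    have e2 : Measurable fun g : ℕ → boxS d L → ℝ => ∑ l ∈ Finset.Ico i j, g l x :=
      Finset.measurable_fun_sum _ fun l _ =>
        (measurable_pi_apply x).comp (measurable_pi_apply l)
    exact e2.abs

theorem reg2_growth (d : ℕ) : ∃ k0 : ℝ, 0 < k0 ∧ k0 < 1 ∧ ∀ k, 0 < k → k < k0 →
    ∀ (L : ℕ) (h κ ρ A : ℝ), 0 < h → 0 ≤ ρ → ρ ≤ 3 / 4 → 0 ≤ A →
    ∀ (b D : ℕ → boxS d L → ℝ) (n : ℕ), n * h ≤ ell k ^ 3 →
    (∀ j, DStep (boxNet d L) h k (b j) (D j) (D (j + 1))) →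
    ∀ (x : boxS d L), Reg2 κ (fun j y => b j y / ell k) n x →
    ∀ H : boxS d L → ℝ, (∀ v, ∀ y ∈ (boxNet d L).nb v, H y ≤ H v + ρ) →
    (∀ v, D 0 v ≤ A * Real.exp (ell k * H v)) →
    ∀ j, j ≤ n → ∀ v, D j v ≤
      2 * A * Real.exp (ell k * (κ * (1 + (boxNet d L).dist x v) + H v)) := by
  set B : ℝ := 8 * 24 * 4096 * d + 1 with hB
  have hB1 : 1 ≤ B := by
    rw [hB]
    have : (0 : ℝ) ≤ 8 * 24 * 4096 * d := by positivity
    linarith
  refine ⟨Real.exp (-B), Real.exp_pos _, by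
    rw [Real.exp_lt_one_iff]
    linarith, ?_⟩
  intro k hk hkB L h κ ρ A hh hρ hρ1 hA b D n hn hD x hR H hH h0 j hj v
  have hell : B ≤ ell k := by
    unfold ell
    rw [one_div, Real.log_inv]
    have h1 := Real.log_lt_log hk hkB
    rw [Real.log_exp] at h1
    linarith
  have hk1 : k < 1 := hkB.trans (by
    rw [Real.exp_lt_one_iff]
    linarith)
  have hell0 : 0 < ell k := by linarith
  have h1 := grow_path d L k h (1 / 8) (1 / 8) ρ A hk hk1 hh hA (by norm_num) hρ (by norm_num)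
    (by linarith) b D hD H hH h0 j v
  refine h1.trans ?_
  have h2 : (boxMSet d L).lpp (1 / 8) (fun _ => 0) (fun j y => b j y / ell k) j v ≤
      κ * (1 + (boxNet d L).dist x v) :=
    (le_lppM (boxMSet d L) _ _ _ hj v).trans (hR.1 v)
  have h3 : (1 + 4 * (d : ℝ) * k ^ (1 / 8 : ℝ) * h) ^ j ≤ 2 := by
    have hkp : 0 ≤ k ^ (1 / 8 : ℝ) := Real.rpow_nonneg hk.le _
    have h4 : (1 + 4 * (d : ℝ) * k ^ (1 / 8 : ℝ) * h) ^ j ≤
        Real.exp (4 * (d : ℝ) * k ^ (1 / 8 : ℝ) * h) ^ j := by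
      refine pow_le_pow_left₀ (by positivity) ?_ j
      have := Real.add_one_le_exp (4 * (d : ℝ) * k ^ (1 / 8 : ℝ) * h)
      linarith
    refine h4.trans ?_
    rw [← Real.exp_nat_mul]
    have h5 : (j : ℝ) * (4 * (d : ℝ) * k ^ (1 / 8 : ℝ) * h) ≤ 1 / 2 := by
      have h6 : (j : ℝ) * h ≤ ell k ^ 3 := by
        refine le_trans ?_ hn
        have : (j : ℝ) ≤ n := by exact_mod_cast hj
        exact mul_le_mul_of_nonneg_right this hh.le
      have h7 : (j : ℝ) * (4 * (d : ℝ) * k ^ (1 / 8 : ℝ) * h) =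
          4 * d * k ^ (1 / 8 : ℝ) * (j * h) := by ring
      rw [h7]
      have h8 : 4 * (d : ℝ) * k ^ (1 / 8 : ℝ) * (j * h) ≤
          4 * d * k ^ (1 / 8 : ℝ) * ell k ^ 3 :=
        mul_le_mul_of_nonneg_left h6 (by positivity)
      refine h8.trans ?_
      have h9 : k ^ (1 / 8 : ℝ) = Real.exp (-(ell k / 8)) := by
        rw [Real.rpow_def_of_pos hk]
        congr 1
        unfold ell
        rw [show Real.log (1 / k) = -Real.log k by rw [one_div, Real.log_inv]]
        ring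
      have h10 : (ell k / 8) ^ 4 / (Nat.factorial 4 : ℝ) ≤ Real.exp (ell k / 8) :=
        Real.pow_div_factorial_le_exp (ell k / 8) (by positivity) 4
      have h11 : (Nat.factorial 4 : ℝ) = 24 := by norm_num [Nat.factorial]
      rw [h11] at h10
      have h12 : k ^ (1 / 8 : ℝ) * ell k ^ 4 ≤ 24 * 4096 := by
        rw [h9, Real.exp_neg]
        have h13 : 0 < Real.exp (ell k / 8) := Real.exp_pos _
        rw [inv_mul_le_iff₀ h13]
        have h14 : (ell k / 8) ^ 4 = ell k ^ 4 / 4096 := by ring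
        rw [h14] at h10
        have h15 : ell k ^ 4 / 4096 / 24 = ell k ^ 4 / (24 * 4096) := by ring
        rw [h15, div_le_iff₀ (by norm_num)] at h10
        linarith
      have h16 : (4 * (d : ℝ) * k ^ (1 / 8 : ℝ) * ell k ^ 3) * ell k ≤ 1 / 2 * ell k := by
        calc (4 * (d : ℝ) * k ^ (1 / 8 : ℝ) * ell k ^ 3) * ell k
            = 4 * (d : ℝ) * (k ^ (1 / 8 : ℝ) * ell k ^ 4) := by ring
          _ ≤ 4 * (d : ℝ) * (24 * 4096) := mul_le_mul_of_nonneg_left h12 (by positivity)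
          _ ≤ 1 / 2 * B := by
              rw [hB]
              linarith
          _ ≤ 1 / 2 * ell k := by linarith
      exact le_of_mul_le_mul_right h16 hell0
    calc Real.exp ((j : ℝ) * (4 * (d : ℝ) * k ^ (1 / 8 : ℝ) * h)) ≤ Real.exp (1 / 2) :=
          Real.exp_le_exp.mpr h5
      _ ≤ 2 := by
          have h17 : Real.exp (1 / 2) ^ 2 = Real.exp 1 := by
            rw [← Real.exp_nat_mul]
            congr 1
            norm_num
          have h18 := Real.exp_one_lt_d9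
          nlinarith [Real.exp_pos (1 / 2 : ℝ)]
  have h4 : A * (1 + 4 * (d : ℝ) * k ^ (1 / 8 : ℝ) * h) ^ j ≤ 2 * A := by
    have := mul_le_mul_of_nonneg_left h3 hA
    linarith
  refine mul_le_mul h4 ?_ (Real.exp_pos _).le (by positivity)
  refine Real.exp_le_exp.mpr (mul_le_mul_of_nonneg_left ?_ hell0.le)
  linarith

private theorem Reg2_measurable_sc {S : Type} [Fintype S] (v : ℝ) :
    Measurable (fun ω : ℕ → S → ℝ => sc v ω) := by
  unfold sc
  fun_prop

private theorem Reg2_meas_pmax {Ω : Type} [MeasurableSpace Ω] (f : Ω → ℕ → ℝ)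
    (hf : ∀ j, Measurable fun ω => f ω j) (n : ℕ) : Measurable fun ω => pmax (f ω) n := by
  unfold pmax
  exact Finset.measurable_range_sup'' fun m _ =>
    Finset.measurable_fun_sum _ fun j _ => hf j

private theorem Reg2_meas_osc {S : Type} [Fintype S] (lam v : ℝ) (n : ℕ) (x : S) :
    Measurable (fun ω : ℕ → S → ℝ =>
      ENNReal.ofReal (Real.exp (lam * osc (fun j => sc v ω j x) n))) := by
  have h1 : ∀ j, Measurable fun ω : ℕ → S → ℝ => sc v ω j x := by
    intro j
    have h0 : Measurable fun ω : ℕ → S → ℝ => ω j x :=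
      (measurable_pi_apply x).comp (measurable_pi_apply j)
    unfold sc
    exact h0.const_mul _
  have h2 : Measurable fun ω : ℕ → S → ℝ => osc (fun j => sc v ω j x) n := by
    unfold osc
    exact (Reg2_meas_pmax (fun ω j => sc v ω j x) h1 n).add
      (Reg2_meas_pmax (fun ω j => -sc v ω j x) (fun j => (h1 j).neg) n)
  exact (h2.const_mul lam).exp.ennreal_ofReal

private theorem Reg2_markov {Ω : Type} [MeasurableSpace Ω] (μ : Measure Ω) {f : Ω → ℝ≥0∞}
    (hf : Measurable f) (r C : ℝ) (h : ∫⁻ ω, f ω ∂μ ≤ ENNReal.ofReal C) (E : Set Ω)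
    (hE : ∀ ω ∈ E, ENNReal.ofReal (Real.exp r) ≤ f ω) :
    μ E ≤ ENNReal.ofReal (C * Real.exp (-r)) := by
  have h2 := mul_meas_ge_le_lintegral (μ := μ) hf (ENNReal.ofReal (Real.exp r))
  have h3 : ENNReal.ofReal (Real.exp r) * μ E ≤ ENNReal.ofReal C :=
    (mul_le_mul_right (measure_mono hE) _).trans (h2.trans h)
  have h5 := mul_le_mul_right h3 (ENNReal.ofReal (Real.exp (-r)))
  rw [← mul_assoc, ← ENNReal.ofReal_mul (Real.exp_pos _).le, ← Real.exp_add,
    neg_add_cancel, Real.exp_zero, ENNReal.ofReal_one, one_mul,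
    ← ENNReal.ofReal_mul (Real.exp_pos _).le, mul_comm (Real.exp (-r))] at h5
  exact h5

theorem reg2_prob (d : ℕ) : ∃ C s1 : ℝ, 1 ≤ C ∧ 0 < s1 ∧
    ∀ (L n : ℕ) (v κ : ℝ), 0 < v → 1 ≤ n → v * n ≤ s1 → C * Real.sqrt (v * n) ≤ κ →
    ∀ x : boxS d L, PI (nz (boxS d L)) {ω | ¬ Reg2 κ (sc v ω) n x} ≤
      ENNReal.ofReal (C * Real.exp (-(κ / Real.sqrt (v * n)))) := by
  obtain ⟨L0, hL0, hL⟩ := eps_small d (1 / 8) (by norm_num) (Real.exp (-16) / 64) (by positivity)
  set CB : ℝ := 4 * Real.exp 8 + Real.exp 48 with hCB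
  have hCB0 : 0 < CB := by
    have := Real.exp_pos 8
    have := Real.exp_pos 48
    linarith
  have hCB1 : 1 ≤ CB := by
    have h1 := Real.add_one_le_exp (8 : ℝ)
    have h2 := Real.exp_pos 48
    linarith
  refine ⟨CB * 3 ^ d + 4 * Real.exp 8, 1 / L0 ^ 2, ?_, by positivity, ?_⟩
  · have h1 : (1 : ℝ) ≤ 3 ^ d := one_le_pow₀ (by norm_num)
    have h2 : 1 ≤ CB * 3 ^ d := by nlinarith
    have h3 := Real.exp_pos 8
    linarith
  intro L n v κ hv hn hvn hκ x
  have hn0 : (0 : ℝ) < n := by exact_mod_cast hn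
  have hvn0 : 0 < v * n := by positivity
  set lam : ℝ := 1 / Real.sqrt (v * n) with hlam
  have hsq : 0 < Real.sqrt (v * n) := Real.sqrt_pos.mpr hvn0
  have hlam0 : 0 < lam := by positivity
  have hlam2 : lam ^ 2 * v * n = 1 := by
    rw [hlam, div_pow, Real.sq_sqrt hvn0.le]
    field_simp
  have hlamL : L0 ≤ lam := by
    rw [hlam, le_div_iff₀ hsq]
    have h1 : Real.sqrt (v * n) ≤ 1 / L0 := by
      rw [Real.sqrt_le_left (by positivity)]
      refine hvn.trans (le_of_eq ?_)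
      rw [div_pow, one_pow]
    calc L0 * Real.sqrt (v * n) ≤ L0 * (1 / L0) := mul_le_mul_of_nonneg_left h1 hL0.le
      _ = 1 := by field_simp
  have hκl : 1 ≤ lam * κ := by
    have h1 : Real.sqrt (v * n) ≤ κ := by
      refine le_trans ?_ hκ
      have h2 : 1 ≤ CB * 3 ^ d + 4 * Real.exp 8 := by
        have h1 : (1 : ℝ) ≤ 3 ^ d := one_le_pow₀ (by norm_num)
        have h2 : 1 ≤ CB * 3 ^ d := by nlinarith
        have h3 := Real.exp_pos 8
        linarith
      nlinarith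
    rw [hlam]
    rw [one_div, ← div_eq_inv_mul, le_div_iff₀ hsq]
    linarith
  have hexpk : Real.exp (-(κ / Real.sqrt (v * n))) = Real.exp (-(lam * κ)) := by
    congr 1
    rw [hlam]
    ring
  rw [hexpk]
  -- the last passage part
  obtain ⟨kk, hkk0, hkks, hkk⟩ := cell_all (boxMSet d L) lam (1 / 8) v (Real.exp (-16) / 64) hlam0 hv
    (by positivity) (fun y => hL lam hlamL (boxS d L) (boxMSet d L) y) (le_refl _) n hlam2.le
  have hlpp : ∀ w : boxS d L, PI (nz (boxS d L)) {ω | κ * (1 + (boxNet d L).dist x w) ≤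
      (boxMSet d L).lppM (1 / 8) (fun _ => 0) (sc v ω) n w} ≤
      ENNReal.ofReal (CB * Real.exp (-(lam * κ)) * (1 / 2) ^ (boxNet d L).dist x w) := by
    intro w
    have h1 := hkk (fun _ => 0) (fun _ => le_refl 0) w
    have h2 : ∑ z, Real.exp (lam * (0 : ℝ)) * kk z w ≤ CB := by
      refine le_trans (le_of_eq ?_) (hkks w)
      exact Finset.sum_congr rfl fun z _ => by rw [mul_zero, Real.exp_zero, one_mul]
    have h3 := h1.trans (ENNReal.ofReal_le_ofReal h2)
    have hmeas : Measurable (fun ω : ℕ → boxS d L → ℝ => ENNReal.ofReal (Real.exp (lam *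
        (boxMSet d L).lppM (1 / 8) (fun _ => 0) (sc v ω) n w))) :=
      (((measurable_lppM (boxMSet d L) _ _ n w).comp
        (Reg2_measurable_sc v)).const_mul lam).exp.ennreal_ofReal
    have h4 := Reg2_markov (PI (nz (boxS d L))) hmeas (lam * (κ * (1 + (boxNet d L).dist x w))) CB
      h3 {ω | κ * (1 + (boxNet d L).dist x w) ≤
        (boxMSet d L).lppM (1 / 8) (fun _ => 0) (sc v ω) n w} (fun ω hω =>
          ENNReal.ofReal_le_ofReal (Real.exp_le_exp.mpr (mul_le_mul_of_nonneg_left hω hlam0.le)))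
    refine h4.trans (ENNReal.ofReal_le_ofReal ?_)
    have h5 : Real.exp (-(lam * (κ * (1 + (boxNet d L).dist x w)))) =
        Real.exp (-(lam * κ)) * Real.exp (-(lam * κ)) ^ (boxNet d L).dist x w := by
      rw [← Real.exp_nat_mul, ← Real.exp_add]
      congr 1
      ring
    have h6 : Real.exp (-(lam * κ)) ≤ 1 / 2 := by
      have h7 : Real.exp (-(lam * κ)) ≤ Real.exp (-1) := Real.exp_le_exp.mpr (by linarith)
      refine h7.trans ?_
      rw [Real.exp_neg, inv_le_comm₀ (Real.exp_pos _) (by norm_num)]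
      have := Real.add_one_le_exp (1 : ℝ)
      norm_num at this ⊢
      exact this
    rw [h5]
    have h8 : Real.exp (-(lam * κ)) ^ (boxNet d L).dist x w ≤ (1 / 2) ^ (boxNet d L).dist x w :=
      pow_le_pow_left₀ (Real.exp_pos _).le h6 _
    have h9 : 0 ≤ Real.exp (-(lam * κ)) := (Real.exp_pos _).le
    calc CB * (Real.exp (-(lam * κ)) * Real.exp (-(lam * κ)) ^ (boxNet d L).dist x w)
        ≤ CB * (Real.exp (-(lam * κ)) * (1 / 2) ^ (boxNet d L).dist x w) :=
          mul_le_mul_of_nonneg_left (mul_le_mul_of_nonneg_left h8 h9) hCB0.le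
      _ = _ := by ring
  -- the oscillation part
  have hosc : PI (nz (boxS d L)) {ω | κ ≤ osc (fun j => sc v ω j x) n} ≤
      ENNReal.ofReal (4 * Real.exp 8 * Real.exp (-(lam * κ))) := by
    have h1 := osc_exp_nz (S := boxS d L) lam v hlam0.le hv.le n x
    have h2 : 8 * lam ^ 2 * v * n = 8 := by
      have : 8 * lam ^ 2 * v * n = 8 * (lam ^ 2 * v * n) := by ring
      rw [this, hlam2, mul_one]
    rw [h2] at h1
    have h4 := Reg2_markov (PI (nz (boxS d L))) (Reg2_meas_osc lam v n x) (lam * κ) (4 * Real.exp 8)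
      h1 {ω | κ ≤ osc (fun j => sc v ω j x) n} (fun ω hω =>
          ENNReal.ofReal_le_ofReal (Real.exp_le_exp.mpr (mul_le_mul_of_nonneg_left hω hlam0.le)))
    exact h4
  have hsub : {ω : ℕ → boxS d L → ℝ | ¬ Reg2 κ (sc v ω) n x} ⊆
      (⋃ w : boxS d L, {ω | κ * (1 + (boxNet d L).dist x w) ≤
        (boxMSet d L).lppM (1 / 8) (fun _ => 0) (sc v ω) n w}) ∪
      {ω | κ ≤ osc (fun j => sc v ω j x) n} := by
    intro ω hω
    by_contra hc
    rw [Set.mem_union, not_or] at hc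
    obtain ⟨hc1, hc2⟩ := hc
    apply hω
    refine ⟨fun w => ?_, fun i j hij hj => ?_⟩
    · by_contra h
      exact hc1 (Set.mem_iUnion.mpr ⟨w, (not_le.mp h).le⟩)
    · have h1 := sum_le_osc (fun j => sc v ω j x) hij hj
      by_contra h
      exact hc2 (le_trans (not_le.mp h).le h1)
  refine (measure_mono hsub).trans ((measure_union_le _ _).trans ?_)
  have h10 : PI (nz (boxS d L)) (⋃ w : boxS d L, {ω | κ * (1 + (boxNet d L).dist x w) ≤
        (boxMSet d L).lppM (1 / 8) (fun _ => 0) (sc v ω) n w}) ≤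
      ENNReal.ofReal (CB * 3 ^ d * Real.exp (-(lam * κ))) := by
    refine (measure_iUnion_fintype_le _ _).trans ((Finset.sum_le_sum fun w _ => hlpp w).trans ?_)
    rw [← ENNReal.ofReal_sum_of_nonneg fun w _ => by positivity, ← Finset.mul_sum]
    refine ENNReal.ofReal_le_ofReal ?_
    have h11 := (boxNet d L).sum_half x
    have h12 : 0 ≤ CB * Real.exp (-(lam * κ)) := by positivity
    calc CB * Real.exp (-(lam * κ)) * ∑ w, (1 / 2 : ℝ) ^ (boxNet d L).dist x w
        ≤ CB * Real.exp (-(lam * κ)) * 3 ^ d := mul_le_mul_of_nonneg_left h11 h12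
      _ = _ := by ring
  refine (add_le_add h10 hosc).trans ?_
  rw [← ENNReal.ofReal_add (by positivity) (by positivity)]
  exact ENNReal.ofReal_le_ofReal (le_of_eq (by ring))

/-- events of the real parts -/
theorem re_law (d L : ℕ) (k h : ℝ) (hk : 0 < k) (hk1 : k < 1) (hh : 0 < h)
    (E : Set (ℕ → boxS d L → ℝ)) (hE : MeasurableSet E) :
    PI (Measure.pi fun _ : boxS d L => gC) {ω | gz k h ω ∈ E} =
      PI (nz (boxS d L)) {ω | sc (h / ell k ^ 2) ω ∈ E} := by
  have hell : 0 < ell k := by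
    unfold ell
    apply Real.log_pos
    rw [lt_div_iff₀ hk]
    linarith
  have hm : Measurable (fun (ω : ℕ → boxS d L → ℂ) (j : ℕ) (x : boxS d L) => (ω j x).re) := by
    refine measurable_pi_lambda _ fun j => measurable_pi_lambda _ fun x => ?_
    exact Complex.measurable_re.comp ((measurable_pi_apply x).comp (measurable_pi_apply j))
  have hmE : MeasurableSet {ω : ℕ → boxS d L → ℝ | sc (h / ell k ^ 2) ω ∈ E} :=
    Reg2_measurable_sc _ hE
  rw [← re_map d L, Measure.map_apply hm hmE]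
  congr 1
  ext ω
  have e1 : gz k h ω = sc (h / ell k ^ 2) (fun j x => (ω j x).re) := by
    funext j y
    unfold gz sc
    rw [Real.sqrt_div hh.le, Real.sqrt_sq hell.le]
    ring
  simp only [Set.mem_ofPred_eq, Set.mem_preimage]
  rw [e1]

end DynC
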