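import Pool.Agent.Lib_MP_36b788c.VM0
import Pool.Agent.Lib_MP_36b788c.Grw3
import Pool.Agent.Lib_MP_36b788c.Grw2
import Pool.Agent.Lib_MP_36b788c.Reg2
import Pool.Agent.Lib_MP_36b788c.LPPd

/-!
# Difference of a field and the field with resampled noise on a block

`Mhat`: upper bound of the heights on the ball (both fields). `DbR`: bound of the difference to the power `θ = a/ell`.

PROOF.
* `res_dif`: `D j = ‖X1 j - X2 j‖`, `X1 j = traj G ω j`, `X2 j = traj G (res ..) j`. Upper bound of one field: `grow_path2` (or `grow_path`) with `q' = 1/8`, `ρ = 1/8`, `H v = (1 + dist y v)/8`, `A = 1`, growth from `st2_u`: `‖Xi j z‖ ≤ 2 exp(ell(lpp + (1 + dist y z)/8)) ≤ 2 exp(ell Mhat)` for `z` in the ball, `(1 + 4 d k^ε h)^m ≤ exp(4 d k^ε ell³) ≤ 2` for small `k`.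
  Then `grow_path2` for `D` with `b j z = √h Re ω j z`, `A = 4 exp(ell Mhat)`, `H v = -(3/4) max(dist y v - Rb, 0)` (`ρ = 3/4`, `q' = ε = 1/8`), `D 0 = 0`: for `z` outside the ball or `j ≥ ns` the noises agree (`st2_d1`), for `z` in the ball and `j < ns` `D (j+1) z ≤ ‖X1‖ + ‖X2‖ ≤ 4 exp(ell Mhat)`.
* `res_mom`: `8^{4θ} ≤ 2` for small `k`. `E e^{4a(Mhat + W)} ≤ (E e^{8a Mhat})^{1/2}(E e^{8aW})^{1/2}`, `e^{8a Mhat} ≤ e^{a(1+Rb)} Σ_{z ∈ ball}(e^{8a lppM(ω) z} + e^{8a lppM(res) z})`, `re_law` (or `re_map`), `res_map`, `lpp_exp` with `lam = 8a ≤ lam0`, `n v = m h/ell² ≤ 8`, ball has at most `(2Rb+1)^d` sites.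
-/

open MeasureTheory ProbabilityTheory
open scoped ENNReal

namespace DynC

open Dyn

/-- upper bound of the heights on the ball -/
noncomputable def Mhat {d L : ℕ} (k h : ℝ) (y : boxS d L) (Rb ns m : ℕ)
    (p : (ℕ → boxS d L → ℂ) × (ℕ → boxS d L → ℂ)) : ℝ :=
  (1 + Rb : ℝ) / 8 + Finset.univ.sup' ⟨y, Finset.mem_univ y⟩ fun z : boxS d L =>
    open Classical in if (boxNet d L).dist y z ≤ Rb then
      max ((boxMSet d L).lppM (1 / 8) (fun _ => 0) (gz k h p.1) m z)
        ((boxMSet d L).lppM (1 / 8) (fun _ => 0)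
          (gz k h (res (fun z => (boxNet d L).dist y z ≤ Rb) ns p.1 p.2)) m z)
    else 0

/-- bound of the difference to the power `θ` -/
noncomputable def DbR {d L : ℕ} (k h a : ℝ) (y : boxS d L) (Rb ns m : ℕ) (x : boxS d L)
    (p : (ℕ → boxS d L → ℂ) × (ℕ → boxS d L → ℂ)) : ℝ≥0∞ :=
  ENNReal.ofReal ((8 * Real.exp (ell k * (Mhat k h y Rb ns m p +
    (boxMSet d L).lppM (1 / 8) (fun _ => 0) (gz k h p.1) m x -
      3 / 4 * max ((boxNet d L).dist y x - Rb : ℝ) 0))) ^ (a / ell k))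

private theorem ResD_ell {k : ℝ} (hk : 0 < k) (hk1 : k < 1) : 0 < ell k := by
  unfold ell
  apply Real.log_pos
  rw [lt_div_iff₀ hk]
  linarith

private theorem ResD_exp_ell {k : ℝ} (hk : 0 < k) : k = Real.exp (-ell k) := by
  unfold ell
  rw [one_div, Real.log_inv, neg_neg, Real.exp_log hk]

private theorem ResD_meas_gz {d L : ℕ} (k h : ℝ) :
    Measurable fun ω : ℕ → boxS d L → ℂ => gz k h ω := by
  refine measurable_pi_lambda _ fun j => measurable_pi_lambda _ fun z => ?_
  unfold gz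
  exact ((Complex.measurable_re.comp
    ((measurable_pi_apply z).comp (measurable_pi_apply j))).const_mul _).div_const _

private theorem ResD_meas_W {d L : ℕ} (k h : ℝ) (m : ℕ) (z : boxS d L) :
    Measurable fun ω : ℕ → boxS d L → ℂ =>
      (boxMSet d L).lppM (1 / 8) (fun _ => 0) (gz k h ω) m z :=
  (measurable_lppM (boxMSet d L) (1 / 8) (fun _ => 0) m z).comp (ResD_meas_gz k h)

private theorem ResD_meas_Mhat {d L : ℕ} (k h : ℝ) (y : boxS d L) (Rb ns m : ℕ) :
    Measurable (Mhat k h y Rb ns m) := by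
  classical
  have hf : ∀ z : boxS d L, Measurable fun p : (ℕ → boxS d L → ℂ) × (ℕ → boxS d L → ℂ) =>
      (open Classical in if (boxNet d L).dist y z ≤ Rb then
        max ((boxMSet d L).lppM (1 / 8) (fun _ => 0) (gz k h p.1) m z)
          ((boxMSet d L).lppM (1 / 8) (fun _ => 0)
            (gz k h (res (fun z => (boxNet d L).dist y z ≤ Rb) ns p.1 p.2)) m z)
        else (0 : ℝ)) := by
    intro z
    by_cases hz : (boxNet d L).dist y z ≤ Rb
    · simp only [if_pos hz]
      exact ((ResD_meas_W k h m z).comp measurable_fst).max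
        ((ResD_meas_W k h m z).comp (measurable_res _ ns))
    · simp only [if_neg hz]
      exact measurable_const
  have h2 := Finset.measurable_sup' (s := (Finset.univ : Finset (boxS d L)))
    ⟨y, Finset.mem_univ y⟩ (fun z _ => hf z)
  have h3 : Mhat k h y Rb ns m = fun p => (1 + Rb : ℝ) / 8 +
      (Finset.univ.sup' ⟨y, Finset.mem_univ y⟩
        (fun (z : boxS d L) (p : (ℕ → boxS d L → ℂ) × (ℕ → boxS d L → ℂ)) =>
      (open Classical in if (boxNet d L).dist y z ≤ Rb then
        max ((boxMSet d L).lppM (1 / 8) (fun _ => 0) (gz k h p.1) m z)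
          ((boxMSet d L).lppM (1 / 8) (fun _ => 0)
            (gz k h (res (fun z => (boxNet d L).dist y z ≤ Rb) ns p.1 p.2)) m z)
        else (0 : ℝ)))) p := by
    funext p
    unfold Mhat
    rw [Finset.sup'_apply]
  rw [h3]
  exact h2.const_add _

theorem measurable_DbR {d L : ℕ} (k h a : ℝ) (y : boxS d L) (Rb ns m : ℕ) (x : boxS d L) :
    Measurable (DbR k h a y Rb ns m x) := by
  unfold DbR
  refine ENNReal.measurable_ofReal.comp ?_
  refine Measurable.pow_const ?_ _
  refine Measurable.const_mul ?_ _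
  refine Real.measurable_exp.comp ?_
  refine Measurable.const_mul ?_ _
  exact (((ResD_meas_Mhat k h y Rb ns m).add
    ((ResD_meas_W k h m x).comp measurable_fst)).sub_const _)

private theorem ResD_le_Mhat {d L : ℕ} (k h : ℝ) (y : boxS d L) (Rb ns m : ℕ)
    (p : (ℕ → boxS d L → ℂ) × (ℕ → boxS d L → ℂ)) (z : boxS d L)
    (hz : (boxNet d L).dist y z ≤ Rb) :
    (1 + Rb : ℝ) / 8 + max ((boxMSet d L).lppM (1 / 8) (fun _ => 0) (gz k h p.1) m z)
        ((boxMSet d L).lppM (1 / 8) (fun _ => 0)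
          (gz k h (res (fun z => (boxNet d L).dist y z ≤ Rb) ns p.1 p.2)) m z) ≤
      Mhat k h y Rb ns m p := by
  classical
  unfold Mhat
  have h1 := Finset.le_sup' (f := fun z : boxS d L =>
    (open Classical in if (boxNet d L).dist y z ≤ Rb then
      max ((boxMSet d L).lppM (1 / 8) (fun _ => 0) (gz k h p.1) m z)
        ((boxMSet d L).lppM (1 / 8) (fun _ => 0)
          (gz k h (res (fun z => (boxNet d L).dist y z ≤ Rb) ns p.1 p.2)) m z)
    else (0 : ℝ))) (Finset.mem_univ z)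
  simp only [if_pos hz] at h1
  linarith

/-- upper bound of one field -/
private theorem ResD_field (d : ℕ) {β k h : ℝ} (hβ : 0 < β) (hk : 0 < k) (hk1 : k < 1)
    (hh : 0 < h) (L : ℕ) (y : boxS d L) (G : boxS d L → ℂ)
    (hG : ∀ v, ‖G v‖ ≤ k ^ (-((1 + (boxNet d L).dist y v : ℝ) / 8)))
    (η : ℕ → boxS d L → ℂ) (n : ℕ) (x : boxS d L) :
    ‖traj (st2 d β k h L) G η n x‖ ≤ (1 + 4 * d * k ^ (1 / 8 : ℝ) * h) ^ n *
      Real.exp (ell k * ((boxMSet d L).lpp (1 / 8) (fun _ => 0) (gz k h η) n x +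
        (1 + (boxNet d L).dist y x : ℝ) / 8)) := by
  have h1 := grow_path2 d L k h (1 / 8) (1 / 8) (1 / 8) 1 hk hk1 hh zero_le_one (by norm_num)
    (by norm_num) (by norm_num) (by norm_num) (fun j x => bC h (η j x))
    (fun j x => ‖traj (st2 d β k h L) G η j x‖)
    (fun x => (1 + (boxNet d L).dist y x : ℝ) / 8) ?_ ?_ n
    (fun j _ x => Or.inl (st2_u d hβ hk.le hh L (traj (st2 d β k h L) G η j) (η j) x)) x
  · rw [one_mul] at h1
    exact h1
  · intro x y' hy'
    have h2 := (boxNet d L).dist_tri y x y'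
    rw [(boxNet d L).dist_nb x y' hy'] at h2
    have h3 : ((boxNet d L).dist y y' : ℝ) ≤ (boxNet d L).dist y x + 1 := by
      exact_mod_cast h2
    linarith
  · intro x
    show ‖G x‖ ≤ 1 * Real.exp (ell k * ((1 + (boxNet d L).dist y x : ℝ) / 8))
    rw [one_mul]
    refine (hG x).trans (le_of_eq ?_)
    conv_lhs => rw [ResD_exp_ell hk]
    rw [← Real.exp_mul]
    congr 1
    ring

private theorem ResD_half : Real.exp (1 / 2) ≤ 2 := by
  have h1 : Real.exp (1 / 2) ^ 2 = Real.exp 1 := by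
    rw [← Real.exp_nat_mul]
    norm_num
  have h2 := Real.exp_one_lt_d9
  have h3 : 0 < Real.exp (1 / 2 : ℝ) := Real.exp_pos _
  nlinarith

private theorem ResD_k0 (d : ℕ) : ∃ k0 : ℝ, 0 < k0 ∧ k0 < 1 ∧
    ∀ k, 0 < k → k < k0 → 4 * (d : ℝ) * k ^ (1 / 8 : ℝ) * ell k ^ 3 ≤ 1 / 2 := by
  set B : ℝ := 2 * (4 * d * 110592) + 1 with hB
  have hd : (0 : ℝ) ≤ d := Nat.cast_nonneg d
  have hB1 : 1 ≤ B := by
    have : 0 ≤ 2 * (4 * (d : ℝ) * 110592) := by positivity
    linarith
  have hB0 : 0 < B := by linarith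
  refine ⟨min (Real.exp (-1)) ((1 / B) ^ 16), by positivity, ?_, ?_⟩
  · refine (min_le_left _ _).trans_lt ?_
    rw [Real.exp_lt_one_iff]
    norm_num
  · intro k hk hk0
    have hk1 : k < 1 := by
      refine (hk0.trans_le (min_le_left _ _)).trans ?_
      rw [Real.exp_lt_one_iff]
      norm_num
    have hell := ResD_ell hk hk1
    set z : ℝ := k ^ (1 / 16 : ℝ) with hz
    have hz0 : 0 < z := Real.rpow_pos_of_pos hk _
    have hz8 : k ^ (1 / 8 : ℝ) = z ^ 2 := by
      rw [hz, ← Real.rpow_natCast, ← Real.rpow_mul hk.le]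
      norm_num
    have hzB : z ≤ 1 / B := by
      have h1 : k ≤ (1 / B) ^ 16 := (hk0.trans_le (min_le_right _ _)).le
      have h2 : z ≤ ((1 / B) ^ 16) ^ (1 / 16 : ℝ) := Real.rpow_le_rpow hk.le h1 (by norm_num)
      rwa [← Real.rpow_natCast, ← Real.rpow_mul (by positivity),
        show ((16 : ℕ) : ℝ) * (1 / 16) = 1 by norm_num, Real.rpow_one] at h2
    have hell3 : ell k ^ 3 * z ≤ 110592 := by
      have h1 : ell k ≤ (1 / k) ^ (1 / 48 : ℝ) / (1 / 48) := by
        unfold ell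
        exact Real.log_le_rpow_div (by positivity) (by norm_num)
      have h2 : ell k ^ 3 ≤ ((1 / k) ^ (1 / 48 : ℝ) / (1 / 48)) ^ 3 :=
        pow_le_pow_left₀ hell.le h1 3
      have h3 : ((1 / k) ^ (1 / 48 : ℝ) / (1 / 48)) ^ 3 = 110592 * z⁻¹ := by
        have h4 : ((1 / k) ^ (1 / 48 : ℝ)) ^ 3 = z⁻¹ := by
          rw [← Real.rpow_natCast, ← Real.rpow_mul (by positivity), one_div k,
            Real.inv_rpow hk.le, hz]
          norm_num
        rw [div_pow, h4]
        norm_num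
        ring
      rw [h3] at h2
      calc ell k ^ 3 * z ≤ 110592 * z⁻¹ * z := mul_le_mul_of_nonneg_right h2 hz0.le
        _ = 110592 := by rw [mul_assoc, inv_mul_cancel₀ hz0.ne', mul_one]
    rw [hz8]
    have h5 : 4 * (d : ℝ) * z ^ 2 * ell k ^ 3 = 4 * d * z * (ell k ^ 3 * z) := by ring
    rw [h5]
    have h6 : 4 * (d : ℝ) * z * (ell k ^ 3 * z) ≤ 4 * d * z * 110592 :=
      mul_le_mul_of_nonneg_left hell3 (by positivity)
    have h7 : 4 * (d : ℝ) * z * 110592 ≤ 4 * d * 110592 * (1 / B) := by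
      have := mul_le_mul_of_nonneg_left hzB (by positivity : (0 : ℝ) ≤ 4 * d * 110592)
      linarith
    have h8 : 4 * (d : ℝ) * 110592 * (1 / B) ≤ 1 / 2 := by
      rw [mul_one_div, div_le_iff₀ hB0]
      linarith
    linarith

theorem res_dif (d : ℕ) (β : ℝ) (hβ : 0 < β) : ∃ k0 : ℝ, 0 < k0 ∧ k0 < 1 ∧
    ∀ k, 0 < k → k < k0 → ∀ h, 0 < h → ∀ (L : ℕ) (y : boxS d L) (Rb ns m : ℕ),
      m * h ≤ ell k ^ 3 → ∀ (G : boxS d L → ℂ),
      (∀ v, ‖G v‖ ≤ k ^ (-((1 + (boxNet d L).dist y v : ℝ) / 8))) →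
    ∀ (a : ℝ), 0 < a → ∀ (p : (ℕ → boxS d L → ℂ) × (ℕ → boxS d L → ℂ)) (x : boxS d L),
      ENNReal.ofReal (‖traj (st2 d β k h L) G p.1 m x -
          traj (st2 d β k h L) G (res (fun z => (boxNet d L).dist y z ≤ Rb) ns p.1 p.2) m x‖ ^
            (a / ell k)) ≤ DbR k h a y Rb ns m x p := by
  classical
  obtain ⟨k0, hk0, hk01, hkk⟩ := ResD_k0 d
  refine ⟨k0, hk0, hk01, ?_⟩
  intro k hk hkk0 h hh L y Rb ns m hm G hG a ha p x
  have hk1 : k < 1 := hkk0.trans hk01
  have hell := ResD_ell hk hk1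
  have hkd := hkk k hk hkk0
  set Bs : boxS d L → Prop := fun z => (boxNet d L).dist y z ≤ Rb with hBs
  set ω' : ℕ → boxS d L → ℂ := res Bs ns p.1 p.2 with hω'
  set M : ℝ := Mhat k h y Rb ns m p with hM
  have hkpos : 0 ≤ k ^ (1 / 8 : ℝ) := Real.rpow_nonneg hk.le _
  have hbase : 1 ≤ 1 + 4 * (d : ℝ) * k ^ (1 / 8 : ℝ) * h := by
    have : 0 ≤ 4 * (d : ℝ) * k ^ (1 / 8 : ℝ) * h := by positivity
    linarith
  have hpow : ∀ n, n ≤ m → (1 + 4 * (d : ℝ) * k ^ (1 / 8 : ℝ) * h) ^ n ≤ 2 := by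
    intro n hn
    refine (pow_le_pow_right₀ hbase hn).trans ?_
    have h1 : 1 + 4 * (d : ℝ) * k ^ (1 / 8 : ℝ) * h ≤
        Real.exp (4 * (d : ℝ) * k ^ (1 / 8 : ℝ) * h) := by
      have := Real.add_one_le_exp (4 * (d : ℝ) * k ^ (1 / 8 : ℝ) * h)
      linarith
    refine (pow_le_pow_left₀ (by linarith) h1 m).trans ?_
    rw [← Real.exp_nat_mul]
    refine le_trans (Real.exp_le_exp.mpr ?_) ResD_half
    have h2 : (m : ℝ) * (4 * (d : ℝ) * k ^ (1 / 8 : ℝ) * h) =
        4 * (d : ℝ) * k ^ (1 / 8 : ℝ) * (m * h) := by ring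
    rw [h2]
    exact (mul_le_mul_of_nonneg_left hm (by positivity)).trans hkd
  -- bound of both fields on the ball
  have hfield : ∀ (η : ℕ → boxS d L → ℂ) (z : boxS d L),
      (1 + Rb : ℝ) / 8 + (boxMSet d L).lppM (1 / 8) (fun _ => 0) (gz k h η) m z ≤ M →
      (boxNet d L).dist y z ≤ Rb → ∀ n, n ≤ m →
      ‖traj (st2 d β k h L) G η n z‖ ≤ 2 * Real.exp (ell k * M) := by
    intro η z hz hzR n hn
    refine (ResD_field d hβ hk hk1 hh L y G hG η n z).trans ?_
    refine mul_le_mul (hpow n hn) ?_ (Real.exp_pos _).le (by norm_num)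
    apply Real.exp_le_exp.mpr
    apply mul_le_mul_of_nonneg_left _ hell.le
    have h1 := le_lppM (boxMSet d L) (1 / 8) (fun _ => 0) (gz k h η) hn z
    have h2 : ((boxNet d L).dist y z : ℝ) ≤ Rb := by exact_mod_cast hzR
    linarith
  have hball : ∀ z, (boxNet d L).dist y z ≤ Rb → ∀ n, n ≤ m →
      ‖traj (st2 d β k h L) G p.1 n z - traj (st2 d β k h L) G ω' n z‖ ≤
        4 * Real.exp (ell k * M) := by
    intro z hz n hn
    have h1 := ResD_le_Mhat k h y Rb ns m p z hz
    have hml := le_max_left ((boxMSet d L).lppM (1 / 8) (fun _ => 0) (gz k h p.1) m z)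
      ((boxMSet d L).lppM (1 / 8) (fun _ => 0) (gz k h ω') m z)
    have hmr := le_max_right ((boxMSet d L).lppM (1 / 8) (fun _ => 0) (gz k h p.1) m z)
      ((boxMSet d L).lppM (1 / 8) (fun _ => 0) (gz k h ω') m z)
    have h2 := hfield p.1 z ((add_le_add le_rfl hml).trans h1) hz n hn
    have h3 := hfield ω' z ((add_le_add le_rfl hmr).trans h1) hz n hn
    have h4 := norm_sub_le (traj (st2 d β k h L) G p.1 n z) (traj (st2 d β k h L) G ω' n z)
    linarith
  have hmain := grow_path2 d L k h (1 / 8) (1 / 8) (3 / 4) (4 * Real.exp (ell k * M)) hk hk1 hh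
    (by positivity) (by norm_num) (by norm_num) (by norm_num) (by norm_num)
    (fun j x => bC h (p.1 j x))
    (fun j x => ‖traj (st2 d β k h L) G p.1 j x - traj (st2 d β k h L) G ω' j x‖)
    (fun x => -(3 / 4 * max ((boxNet d L).dist y x - Rb : ℝ) 0)) ?_ ?_ m ?_ x
  · have h1 : ‖traj (st2 d β k h L) G p.1 m x - traj (st2 d β k h L) G ω' m x‖ ≤
        8 * Real.exp (ell k * (M + (boxMSet d L).lppM (1 / 8) (fun _ => 0) (gz k h p.1) m x -
          3 / 4 * max ((boxNet d L).dist y x - Rb : ℝ) 0)) := by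
      refine hmain.trans ?_
      have h2 : 4 * Real.exp (ell k * M) * (1 + 4 * (d : ℝ) * k ^ (1 / 8 : ℝ) * h) ^ m ≤
          8 * Real.exp (ell k * M) := by
        have h3 := mul_le_mul_of_nonneg_left (hpow m le_rfl)
          (by positivity : 0 ≤ 4 * Real.exp (ell k * M))
        linarith
      refine (mul_le_mul_of_nonneg_right h2 (Real.exp_pos _).le).trans ?_
      rw [mul_assoc, ← Real.exp_add]
      apply mul_le_mul_of_nonneg_left _ (by norm_num)
      apply Real.exp_le_exp.mpr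
      rw [← mul_add]
      apply mul_le_mul_of_nonneg_left _ hell.le
      have h4 := le_lppM (boxMSet d L) (1 / 8) (fun _ => 0) (gz k h p.1) (le_refl m) x
      have h5 : (boxMSet d L).lpp (1 / 8) (fun _ => 0) (fun j y => bC h (p.1 j y) / ell k) m x ≤
          (boxMSet d L).lppM (1 / 8) (fun _ => 0) (gz k h p.1) m x := h4
      linarith
    unfold DbR
    apply ENNReal.ofReal_le_ofReal
    exact Real.rpow_le_rpow (norm_nonneg _) h1 (by positivity)
  · intro x y' hy'
    have h2 := (boxNet d L).dist_tri y y' x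
    rw [(boxNet d L).dist_comm y' x, (boxNet d L).dist_nb x y' hy'] at h2
    have h3 : ((boxNet d L).dist y x : ℝ) ≤ (boxNet d L).dist y y' + 1 := by
      exact_mod_cast h2
    have h4 : max ((boxNet d L).dist y x - Rb : ℝ) 0 ≤
        max ((boxNet d L).dist y y' - Rb : ℝ) 0 + 1 := by
      apply max_le
      · have := le_max_left ((boxNet d L).dist y y' - Rb : ℝ) 0
        linarith
      · have := le_max_right ((boxNet d L).dist y y' - Rb : ℝ) 0
        linarith
    linarith
  · intro x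
    show ‖G x - G x‖ ≤ _
    rw [sub_self, norm_zero]
    positivity
  · intro j hj x
    by_cases hx : j < ns ∧ Bs x
    · right
      have h1 : max ((boxNet d L).dist y x - Rb : ℝ) 0 = 0 := by
        apply max_eq_right
        have h2 : ((boxNet d L).dist y x : ℝ) ≤ Rb := by exact_mod_cast hx.2
        linarith
      rw [h1, mul_zero, neg_zero, mul_zero, Real.exp_zero, mul_one]
      exact hball x hx.2 (j + 1) hj
    · left
      have h1 : ω' j x = p.1 j x := by
        rw [hω']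
        unfold res
        rw [if_neg hx]
      exact st2_d1 d hβ hk.le hh L (traj (st2 d β k h L) G p.1 j)
        (traj (st2 d β k h L) G ω' j) (p.1 j) (ω' j) x h1

/-- exponential moment of the heights for the complex noise -/
private theorem ResD_exp (d : ℕ) : ∃ lam0 C : ℝ, 0 < lam0 ∧ 0 < C ∧
    ∀ (L : ℕ) (k h : ℝ), 0 < k → k < Real.exp (-1) → 0 < h → h < 1 / lam0 ^ 2 →
      ∀ (m : ℕ), m * h ≤ 8 * ell k ^ 2 → ∀ (z : boxS d L) (lam : ℝ), 0 ≤ lam → lam ≤ lam0 →
        ∫⁻ ω, ENNReal.ofReal (Real.exp (lam *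
          (boxMSet d L).lppM (1 / 8) (fun _ => 0) (gz k h ω) m z))
            ∂(PI (Measure.pi fun _ : boxS d L => gC)) ≤
          ENNReal.ofReal (Real.exp (9 * C * lam)) := by
  obtain ⟨lam0, C, hlam0, hC, hlpp⟩ := lpp_exp d (1 / 8) (by norm_num)
  refine ⟨lam0, C, hlam0, hC, ?_⟩
  intro L k h hk hke hh hh0 m hm z lam hl hl0
  have hk1 : k < 1 := hke.trans (by rw [Real.exp_lt_one_iff]; norm_num)
  have hell := ResD_ell hk hk1
  have hell1 : 1 ≤ ell k := by
    unfold ell
    rw [one_div, Real.log_inv]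
    have h1 : Real.log k ≤ -1 := by
      rw [← Real.log_exp (-1)]
      exact Real.log_le_log hk hke.le
    linarith
  set v : ℝ := h / ell k ^ 2 with hv
  have hv0 : 0 < v := by positivity
  have hv1 : v ≤ 1 / lam0 ^ 2 := by
    refine le_trans ?_ hh0.le
    rw [hv]
    apply div_le_self hh.le
    nlinarith
  have h1 := hlpp (boxS d L) (boxMSet d L) v hv0 hv1 m z lam hl hl0
  set F : (ℕ → boxS d L → ℝ) → ℝ≥0∞ := fun ω => ENNReal.ofReal (Real.exp (lam *
    (boxMSet d L).lppM (1 / 8) (fun _ => 0) (sc v ω) m z)) with hF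
  have hscm : Measurable fun ω : ℕ → boxS d L → ℝ => sc v ω := by
    refine measurable_pi_lambda _ fun j => measurable_pi_lambda _ fun x => ?_
    unfold sc
    have h0 : Measurable (fun ω : ℕ → boxS d L → ℝ => ω j x) :=
      (measurable_pi_apply x).comp (measurable_pi_apply j)
    exact h0.const_mul _
  have hFm : Measurable F := by
    refine ENNReal.measurable_ofReal.comp (Real.measurable_exp.comp (Measurable.const_mul ?_ _))
    exact (measurable_lppM (boxMSet d L) (1 / 8) (fun _ => 0) m z).comp hscm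
  have hrem : Measurable (fun (ω : ℕ → boxS d L → ℂ) (j : ℕ) (x : boxS d L) => (ω j x).re) := by
    refine measurable_pi_lambda _ fun j => measurable_pi_lambda _ fun x => ?_
    exact Complex.measurable_re.comp ((measurable_pi_apply x).comp (measurable_pi_apply j))
  have h2 : ∫⁻ ω, ENNReal.ofReal (Real.exp (lam *
          (boxMSet d L).lppM (1 / 8) (fun _ => 0) (gz k h ω) m z))
            ∂(PI (Measure.pi fun _ : boxS d L => gC)) = ∫⁻ ω, F ω ∂(PI (nz (boxS d L))) := by
    rw [← re_map d L, lintegral_map hFm hrem]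
    refine lintegral_congr fun ω => ?_
    have e1 : gz k h ω = sc v (fun j x => (ω j x).re) := by
      funext j y
      unfold gz sc
      rw [hv, Real.sqrt_div hh.le, Real.sqrt_sq hell.le]
      ring
    rw [hF]
    simp only
    rw [e1]
  rw [h2]
  refine h1.trans ?_
  apply ENNReal.ofReal_le_ofReal
  apply Real.exp_le_exp.mpr
  have h3 : (m : ℝ) * v ≤ 8 := by
    rw [hv, ← mul_div_assoc, div_le_iff₀ (by positivity)]
    exact hm
  have h4 : C * (m * v + 1) * lam ≤ C * 9 * lam :=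
    mul_le_mul_of_nonneg_right (mul_le_mul_of_nonneg_left (by linarith) hC.le) hl
  linarith

theorem res_mom (d : ℕ) : ∃ C a0 : ℝ, 1 ≤ C ∧ 0 < a0 ∧ ∀ a, 0 < a → a ≤ a0 →
    ∃ k0 : ℝ, 0 < k0 ∧ k0 < 1 ∧ ∀ k, 0 < k → k < k0 → ∃ h0 : ℝ, 0 < h0 ∧ ∀ h, 0 < h → h < h0 →
    ∀ (L : ℕ) (y : boxS d L) (Rb ns m : ℕ), m * h ≤ 8 * ell k ^ 2 → ∀ x,
      ∫⁻ p, DbR k h a y Rb ns m x p ^ 4 ∂((PI (Measure.pi fun _ : boxS d L => gC)).prod
          (PI (Measure.pi fun _ : boxS d L => gC))) ≤
        ENNReal.ofReal (C * (2 * Rb + 1) ^ d * Real.exp (C * a * (1 + Rb)) *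
          Real.exp (-(3 * a * max ((boxNet d L).dist y x - Rb : ℝ) 0))) := by
  classical
  obtain ⟨lam0, C1, hlam0, hC1, hexp⟩ := ResD_exp d
  refine ⟨3 + 72 * C1, lam0 / 8, by linarith, by positivity, ?_⟩
  intro a ha ha0
  refine ⟨Real.exp (-(1 + 12 * a)), Real.exp_pos _, ?_, ?_⟩
  · rw [Real.exp_lt_one_iff]
    linarith
  intro k hk hkk0
  have hke : k < Real.exp (-1) := by
    refine hkk0.trans_le (Real.exp_le_exp.mpr ?_)
    linarith
  have hk1 : k < 1 := hke.trans (by rw [Real.exp_lt_one_iff]; norm_num)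
  have hell := ResD_ell hk hk1
  have hella : 12 * a ≤ ell k := by
    unfold ell
    rw [one_div, Real.log_inv]
    have h1 : Real.log k ≤ -(1 + 12 * a) := by
      rw [← Real.log_exp (-(1 + 12 * a))]
      exact Real.log_le_log hk hkk0.le
    linarith
  refine ⟨1 / lam0 ^ 2, by positivity, ?_⟩
  intro h hh hh0 L y Rb ns m hm x
  set P : Measure (ℕ → boxS d L → ℂ) := PI (Measure.pi fun _ : boxS d L => gC) with hP
  haveI hPp : IsProbabilityMeasure P := by rw [hP]; infer_instance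
  set W : (ℕ → boxS d L → ℂ) → boxS d L → ℝ := fun ω z =>
    (boxMSet d L).lppM (1 / 8) (fun _ => 0) (gz k h ω) m z with hW
  set Bs : boxS d L → Prop := fun z => (boxNet d L).dist y z ≤ Rb with hBs
  set mx : ℝ := max ((boxNet d L).dist y x - Rb : ℝ) 0 with hmx
  set K : ℝ≥0∞ := ENNReal.ofReal (Real.exp (9 * C1 * (8 * a))) with hK
  have hWm : ∀ z, Measurable fun ω => W ω z := fun z => ResD_meas_W k h m z
  have hE : ∀ z, Measurable fun ω => ENNReal.ofReal (Real.exp (8 * a * W ω z)) := fun z =>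
    ENNReal.measurable_ofReal.comp (Real.measurable_exp.comp ((hWm z).const_mul _))
  have hI : ∀ z, ∫⁻ ω, ENNReal.ofReal (Real.exp (8 * a * W ω z)) ∂P ≤ K := fun z =>
    hexp L k h hk hke hh hh0 m hm z (8 * a) (by positivity) (by linarith)
  have hI1 : ∀ z, ∫⁻ p, ENNReal.ofReal (Real.exp (8 * a * W p.1 z)) ∂(P.prod P) ≤ K := by
    intro z
    have h1 : ∫⁻ p : (ℕ → boxS d L → ℂ) × (ℕ → boxS d L → ℂ),
        ENNReal.ofReal (Real.exp (8 * a * W p.1 z)) ∂(P.prod P) =
        ∫⁻ ω, ENNReal.ofReal (Real.exp (8 * a * W ω z)) ∂((P.prod P).map Prod.fst) :=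
      (lintegral_map (hE z) measurable_fst).symm
    rw [h1, Measure.map_fst_prod, measure_univ, one_smul]
    exact hI z
  have hI2 : ∀ z, ∫⁻ p, ENNReal.ofReal (Real.exp (8 * a * W (res Bs ns p.1 p.2) z)) ∂(P.prod P) ≤
      K := by
    intro z
    have h1 : ∫⁻ p : (ℕ → boxS d L → ℂ) × (ℕ → boxS d L → ℂ),
        ENNReal.ofReal (Real.exp (8 * a * W (res Bs ns p.1 p.2) z)) ∂(P.prod P) =
        ∫⁻ ω, ENNReal.ofReal (Real.exp (8 * a * W ω z))
          ∂((P.prod P).map (fun p => res Bs ns p.1 p.2)) :=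
      (lintegral_map (hE z) (measurable_res Bs ns)).symm
    rw [h1, hP, res_map]
    exact hI z
  -- pointwise bound
  have hcard : ((Finset.univ.filter Bs).card : ℝ) ≤ (2 * Rb + 1 : ℝ) ^ d := by
    have h1 := (boxMSet d L).growth y Rb (Finset.univ.filter Bs)
      (fun z hz => (Finset.mem_filter.1 hz).2)
    exact_mod_cast h1
  have hsup : ∀ p : (ℕ → boxS d L → ℂ) × (ℕ → boxS d L → ℂ),
      Real.exp (8 * a * Mhat k h y Rb ns m p) ≤ Real.exp (a * (1 + Rb)) *
        ∑ z ∈ Finset.univ.filter Bs, (Real.exp (8 * a * W p.1 z) +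
          Real.exp (8 * a * W (res Bs ns p.1 p.2) z)) := by
    intro p
    obtain ⟨z, _, hz⟩ := Finset.exists_mem_eq_sup' ⟨y, Finset.mem_univ y⟩
      (fun z : boxS d L => (open Classical in if (boxNet d L).dist y z ≤ Rb then
        max ((boxMSet d L).lppM (1 / 8) (fun _ => 0) (gz k h p.1) m z)
        ((boxMSet d L).lppM (1 / 8) (fun _ => 0)
          (gz k h (res (fun z => (boxNet d L).dist y z ≤ Rb) ns p.1 p.2)) m z)
        else (0 : ℝ)))
    have h1 : Mhat k h y Rb ns m p = (1 + Rb : ℝ) / 8 +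
        (open Classical in if (boxNet d L).dist y z ≤ Rb then
        max ((boxMSet d L).lppM (1 / 8) (fun _ => 0) (gz k h p.1) m z)
        ((boxMSet d L).lppM (1 / 8) (fun _ => 0)
          (gz k h (res (fun z => (boxNet d L).dist y z ≤ Rb) ns p.1 p.2)) m z)
        else (0 : ℝ)) := by
      unfold Mhat
      rw [hz]
    have h2 : 8 * a * Mhat k h y Rb ns m p = a * (1 + Rb) + 8 * a *
        (open Classical in if (boxNet d L).dist y z ≤ Rb then
        max ((boxMSet d L).lppM (1 / 8) (fun _ => 0) (gz k h p.1) m z)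
        ((boxMSet d L).lppM (1 / 8) (fun _ => 0)
          (gz k h (res (fun z => (boxNet d L).dist y z ≤ Rb) ns p.1 p.2)) m z)
        else (0 : ℝ)) := by
      rw [h1]
      ring
    rw [h2, Real.exp_add]
    apply mul_le_mul_of_nonneg_left _ (Real.exp_pos _).le
    have hterm : ∀ z ∈ Finset.univ.filter Bs, Real.exp (8 * a * W p.1 z) +
          Real.exp (8 * a * W (res Bs ns p.1 p.2) z) ≤
        ∑ z ∈ Finset.univ.filter Bs, (Real.exp (8 * a * W p.1 z) +
          Real.exp (8 * a * W (res Bs ns p.1 p.2) z)) := fun z hz =>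
      Finset.single_le_sum (f := fun z => Real.exp (8 * a * W p.1 z) +
          Real.exp (8 * a * W (res Bs ns p.1 p.2) z))
        (fun z _ => by positivity) hz
    by_cases hzR : (boxNet d L).dist y z ≤ Rb
    · rw [if_pos hzR]
      refine le_trans ?_ (hterm z (Finset.mem_filter.2 ⟨Finset.mem_univ z, hzR⟩))
      rcases max_choice ((boxMSet d L).lppM (1 / 8) (fun _ => 0) (gz k h p.1) m z)
        ((boxMSet d L).lppM (1 / 8) (fun _ => 0)
          (gz k h (res (fun z => (boxNet d L).dist y z ≤ Rb) ns p.1 p.2)) m z) with hc | hc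
      · rw [hc]
        have := Real.exp_pos (8 * a * W (res Bs ns p.1 p.2) z)
        have e1 : W p.1 z = (boxMSet d L).lppM (1 / 8) (fun _ => 0) (gz k h p.1) m z := rfl
        rw [← e1]
        linarith
      · rw [hc]
        have := Real.exp_pos (8 * a * W p.1 z)
        have e1 : W (res Bs ns p.1 p.2) z = (boxMSet d L).lppM (1 / 8) (fun _ => 0)
          (gz k h (res (fun z => (boxNet d L).dist y z ≤ Rb) ns p.1 p.2)) m z := rfl
        rw [← e1]
        linarith
    · rw [if_neg hzR, mul_zero, Real.exp_zero]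
      have hyB : Bs y := by
        show (boxNet d L).dist y y ≤ Rb
        rw [(boxNet d L).dist_self]
        exact Nat.zero_le _
      refine le_trans ?_ (hterm y (Finset.mem_filter.2 ⟨Finset.mem_univ y, hyB⟩))
      have h3 : 0 ≤ W p.1 y :=
        lppM_nonneg (boxMSet d L) (1 / 8) (fun _ => 0) (fun _ => le_rfl) _ m y
      have h4 : 1 ≤ Real.exp (8 * a * W p.1 y) := Real.one_le_exp (by positivity)
      have := Real.exp_pos (8 * a * W (res Bs ns p.1 p.2) y)
      linarith
  have hpt : ∀ p : (ℕ → boxS d L → ℂ) × (ℕ → boxS d L → ℂ),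
      DbR k h a y Rb ns m x p ^ 4 ≤ ENNReal.ofReal (Real.exp (-(3 * a * mx))) *
        (ENNReal.ofReal (Real.exp (a * (1 + Rb))) *
          ∑ z ∈ Finset.univ.filter Bs, (ENNReal.ofReal (Real.exp (8 * a * W p.1 z)) +
            ENNReal.ofReal (Real.exp (8 * a * W (res Bs ns p.1 p.2) z))) +
          ENNReal.ofReal (Real.exp (8 * a * W p.1 x))) := by
    intro p
    set Mh : ℝ := Mhat k h y Rb ns m p with hMh
    unfold DbR
    rw [← hMh, ← hmx]
    have hb0 : 0 ≤ 8 * Real.exp (ell k * (Mh + (boxMSet d L).lppM (1 / 8) (fun _ => 0)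
        (gz k h p.1) m x - 3 / 4 * mx)) := by positivity
    rw [← ENNReal.ofReal_pow (Real.rpow_nonneg hb0 _)]
    have h1 : ((8 * Real.exp (ell k * (Mh + (boxMSet d L).lppM (1 / 8) (fun _ => 0)
        (gz k h p.1) m x - 3 / 4 * mx))) ^ (a / ell k)) ^ 4 ≤
        Real.exp (-(3 * a * mx)) * (Real.exp (8 * a * Mh) + Real.exp (8 * a * W p.1 x)) := by
      have e1 : W p.1 x = (boxMSet d L).lppM (1 / 8) (fun _ => 0) (gz k h p.1) m x := rfl
      rw [← e1]
      rw [← Real.rpow_natCast, ← Real.rpow_mul hb0,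
        Real.mul_rpow (by norm_num) (Real.exp_pos _).le, ← Real.exp_mul]
      have h2 : (8 : ℝ) ^ (a / ell k * ((4 : ℕ) : ℝ)) ≤ 2 := by
        have h3 : a / ell k * ((4 : ℕ) : ℝ) ≤ 1 / 3 := by
          rw [div_mul_eq_mul_div, div_le_iff₀ hell]
          push_cast
          linarith
        refine (Real.rpow_le_rpow_of_exponent_le (by norm_num) h3).trans (le_of_eq ?_)
        rw [show (8 : ℝ) = 2 ^ (3 : ℝ) by norm_num, ← Real.rpow_mul (by norm_num)]
        norm_num
      have h4 : ell k * (Mh + W p.1 x - 3 / 4 * mx) * (a / ell k * ((4 : ℕ) : ℝ)) =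
          4 * a * Mh + 4 * a * W p.1 x + -(3 * a * mx) := by
        field_simp
        push_cast
        ring
      rw [h4, Real.exp_add, Real.exp_add]
      have h5 : 2 * (Real.exp (4 * a * Mh) * Real.exp (4 * a * W p.1 x)) ≤
          Real.exp (8 * a * Mh) + Real.exp (8 * a * W p.1 x) := by
        have h6 : Real.exp (8 * a * Mh) = Real.exp (4 * a * Mh) ^ 2 := by
          rw [← Real.exp_nat_mul]
          congr 1
          push_cast
          ring
        have h7 : Real.exp (8 * a * W p.1 x) = Real.exp (4 * a * W p.1 x) ^ 2 := by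
          rw [← Real.exp_nat_mul]
          congr 1
          push_cast
          ring
        rw [h6, h7]
        nlinarith [sq_nonneg (Real.exp (4 * a * Mh) - Real.exp (4 * a * W p.1 x))]
      have h8 : 0 ≤ Real.exp (4 * a * Mh) * Real.exp (4 * a * W p.1 x) *
          Real.exp (-(3 * a * mx)) := by positivity
      calc (8 : ℝ) ^ (a / ell k * ((4 : ℕ) : ℝ)) * (Real.exp (4 * a * Mh) *
            Real.exp (4 * a * W p.1 x) * Real.exp (-(3 * a * mx)))
          ≤ 2 * (Real.exp (4 * a * Mh) * Real.exp (4 * a * W p.1 x) *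
            Real.exp (-(3 * a * mx))) := mul_le_mul_of_nonneg_right h2 h8
        _ = Real.exp (-(3 * a * mx)) *
            (2 * (Real.exp (4 * a * Mh) * Real.exp (4 * a * W p.1 x))) := by ring
        _ ≤ _ := mul_le_mul_of_nonneg_left h5 (Real.exp_pos _).le
    refine (ENNReal.ofReal_le_ofReal h1).trans ?_
    rw [ENNReal.ofReal_mul (Real.exp_pos _).le]
    refine mul_le_mul_right ?_ _
    rw [ENNReal.ofReal_add (Real.exp_pos _).le (Real.exp_pos _).le]
    refine add_le_add ?_ le_rfl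
    refine (ENNReal.ofReal_le_ofReal (hsup p)).trans (le_of_eq ?_)
    rw [ENNReal.ofReal_mul (Real.exp_pos _).le, ENNReal.ofReal_sum_of_nonneg
      (fun z _ => by positivity)]
    congr 1
    refine Finset.sum_congr rfl fun z _ => ?_
    rw [ENNReal.ofReal_add (Real.exp_pos _).le (Real.exp_pos _).le]
  have hm1 : ∀ z, Measurable fun p : (ℕ → boxS d L → ℂ) × (ℕ → boxS d L → ℂ) =>
      ENNReal.ofReal (Real.exp (8 * a * W p.1 z)) := fun z => (hE z).comp measurable_fst
  have hm2 : ∀ z, Measurable fun p : (ℕ → boxS d L → ℂ) × (ℕ → boxS d L → ℂ) =>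
      ENNReal.ofReal (Real.exp (8 * a * W (res Bs ns p.1 p.2) z)) :=
    fun z => (hE z).comp (measurable_res Bs ns)
  have hms : Measurable fun p : (ℕ → boxS d L → ℂ) × (ℕ → boxS d L → ℂ) =>
      ∑ z ∈ Finset.univ.filter Bs, (ENNReal.ofReal (Real.exp (8 * a * W p.1 z)) +
            ENNReal.ofReal (Real.exp (8 * a * W (res Bs ns p.1 p.2) z))) :=
    Finset.measurable_fun_sum _ fun z _ => (hm1 z).add (hm2 z)
  refine (lintegral_mono hpt).trans ?_
  have hmt : Measurable fun p : (ℕ → boxS d L → ℂ) × (ℕ → boxS d L → ℂ) =>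
      ENNReal.ofReal (Real.exp (a * (1 + Rb))) *
      ∑ z ∈ Finset.univ.filter Bs, (ENNReal.ofReal (Real.exp (8 * a * W p.1 z)) +
            ENNReal.ofReal (Real.exp (8 * a * W (res Bs ns p.1 p.2) z))) +
      ENNReal.ofReal (Real.exp (8 * a * W p.1 x)) := (hms.const_mul _).add (hm1 x)
  have hm3 : ∀ z ∈ Finset.univ.filter Bs,
      Measurable fun p : (ℕ → boxS d L → ℂ) × (ℕ → boxS d L → ℂ) =>
      (ENNReal.ofReal (Real.exp (8 * a * W p.1 z)) +
            ENNReal.ofReal (Real.exp (8 * a * W (res Bs ns p.1 p.2) z))) :=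
    fun z _ => (hm1 z).add (hm2 z)
  rw [lintegral_const_mul _ hmt, lintegral_add_right _ (hm1 x),
    lintegral_const_mul _ hms, lintegral_finsetSum _ hm3]
  have hsum : ∑ z ∈ Finset.univ.filter Bs, ∫⁻ p : (ℕ → boxS d L → ℂ) × (ℕ → boxS d L → ℂ),
      (ENNReal.ofReal (Real.exp (8 * a * W p.1 z)) +
        ENNReal.ofReal (Real.exp (8 * a * W (res Bs ns p.1 p.2) z))) ∂(P.prod P) ≤
      ENNReal.ofReal ((2 * Rb + 1 : ℝ) ^ d) * (2 * K) := by
    calc _ ≤ ∑ z ∈ Finset.univ.filter Bs, 2 * K := by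
          refine Finset.sum_le_sum fun z _ => ?_
          rw [lintegral_add_right _ (hm2 z), two_mul]
          exact add_le_add (hI1 z) (hI2 z)
      _ = ((Finset.univ.filter Bs).card : ℝ≥0∞) * (2 * K) := by
          rw [Finset.sum_const, nsmul_eq_mul]
      _ ≤ _ := by
          refine mul_le_mul_left ?_ _
          rw [← ENNReal.ofReal_natCast]
          exact ENNReal.ofReal_le_ofReal hcard
  calc ENNReal.ofReal (Real.exp (-(3 * a * mx))) *
        (ENNReal.ofReal (Real.exp (a * (1 + Rb))) * (∑ z ∈ Finset.univ.filter Bs,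
          ∫⁻ p : (ℕ → boxS d L → ℂ) × (ℕ → boxS d L → ℂ),
          (ENNReal.ofReal (Real.exp (8 * a * W p.1 z)) +
          ENNReal.ofReal (Real.exp (8 * a * W (res Bs ns p.1 p.2) z))) ∂(P.prod P)) +
          ∫⁻ p : (ℕ → boxS d L → ℂ) × (ℕ → boxS d L → ℂ),
            ENNReal.ofReal (Real.exp (8 * a * W p.1 x)) ∂(P.prod P))
      ≤ ENNReal.ofReal (Real.exp (-(3 * a * mx))) *
        (ENNReal.ofReal (Real.exp (a * (1 + Rb))) *
          (ENNReal.ofReal ((2 * Rb + 1 : ℝ) ^ d) * (2 * K)) + K) := by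
        refine mul_le_mul_right ?_ _
        exact add_le_add (mul_le_mul_right hsum _) (hI1 x)
    _ ≤ ENNReal.ofReal ((3 + 72 * C1) * (2 * Rb + 1) ^ d *
          Real.exp ((3 + 72 * C1) * a * (1 + Rb)) * Real.exp (-(3 * a * mx))) := by
        have hKe : K = ENNReal.ofReal (Real.exp (72 * C1 * a)) := by
          rw [hK]
          congr 2
          ring
        have h2K : 2 * K = ENNReal.ofReal (2 * Real.exp (72 * C1 * a)) := by
          rw [hKe, ENNReal.ofReal_mul (by norm_num)]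
          norm_num
        rw [h2K, hKe, ← ENNReal.ofReal_mul (by positivity), ← ENNReal.ofReal_mul (by positivity),
          ← ENNReal.ofReal_add (by positivity) (by positivity),
          ← ENNReal.ofReal_mul (by positivity)]
        apply ENNReal.ofReal_le_ofReal
        rw [mul_comm (Real.exp (-(3 * a * mx)))]
        apply mul_le_mul_of_nonneg_right _ (Real.exp_pos _).le
        set Q : ℝ := (2 * Rb + 1 : ℝ) ^ d with hQ
        have hQ1 : 1 ≤ Q := by
          apply one_le_pow₀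
          have : (0 : ℝ) ≤ Rb := Nat.cast_nonneg _
          linarith
        have hRb : (0 : ℝ) ≤ Rb := Nat.cast_nonneg _
        set E1 : ℝ := Real.exp (a * (1 + Rb)) with hE1
        have hE11 : 1 ≤ E1 := Real.one_le_exp (by positivity)
        set E2 : ℝ := Real.exp (72 * C1 * a) with hE2
        have hE20 : 0 < E2 := Real.exp_pos _
        have h3 : E1 * E2 ≤ Real.exp ((3 + 72 * C1) * a * (1 + Rb)) := by
          rw [hE1, hE2, ← Real.exp_add]
          apply Real.exp_le_exp.mpr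
          have h4 : 72 * C1 * a ≤ 72 * C1 * a * (1 + Rb) := by
            have : 0 ≤ 72 * C1 * a * Rb := by positivity
            linarith
          have h5 : 0 ≤ a * (1 + Rb) := by positivity
          nlinarith
        have h6 : E1 * (Q * (2 * E2)) + E2 ≤ 3 * Q * (E1 * E2) := by
          have h7 : E2 ≤ Q * (E1 * E2) := by
            have h8 : 1 * 1 ≤ Q * E1 := mul_le_mul hQ1 hE11 (by norm_num) (by linarith)
            nlinarith
          nlinarith
        have h9 : 3 * Q * (E1 * E2) ≤ 3 * Q * Real.exp ((3 + 72 * C1) * a * (1 + Rb)) :=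
          mul_le_mul_of_nonneg_left h3 (by positivity)
        have h10 : 3 * Q * Real.exp ((3 + 72 * C1) * a * (1 + Rb)) ≤
            (3 + 72 * C1) * Q * Real.exp ((3 + 72 * C1) * a * (1 + Rb)) := by
          apply mul_le_mul_of_nonneg_right _ (Real.exp_pos _).le
          apply mul_le_mul_of_nonneg_right _ (by linarith)
          linarith
        linarith

end DynC
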