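import Pool.Agent.Lib_MP_36b788c.BrA
import Pool.Agent.Lib_MP_36b788c.BrB

/-!
# The bridge at the level of states

PROOF of `brM`. `ns = ⌈sw ell²/h⌉`. `Pn m f G.1 = ∫ f(Z m).1` (`bst_fst`), `|∫ f(Z m).1 - ∫ f(Z m).2| ≤ ∫ ‖f(Z m).1 - f(Z m).2‖` (`brA`), `(Z m).2 = traj G.2 (shft v ω) m` (`bst_snd`), `brB`. `C` = sum of the two constants where needed (all right sides are monotone in `C`: `pBr d C` is increasing in `C`; check that `C √sw ≤ κ2` etc. for the bigger `C` imply those for the smaller one).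
-/

open MeasureTheory ProbabilityTheory
open scoped ENNReal

namespace DynC

open Dyn

/-- coefficient of the bridge -/
noncomputable def KBr (d : ℕ) (C a κ3 κd M6 M8 sw : ℝ) (Rb : ℕ) : ℝ :=
  C * (Real.exp (a * (M8 - Rb / 16)) + Real.exp (a * M8) * pBr d C κ3 sw Rb ^ (1 / 2 : ℝ) +
    (2 * Rb + 1) ^ (3 * d) * (κd / Real.sqrt sw) * Real.exp (C * a * (M8 + M6 + Rb)))

private theorem BrM_pBr_nonneg (d : ℕ) (C κ3 sw : ℝ) (Rb : ℕ) : 0 ≤ pBr d C κ3 sw Rb := by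
  unfold pBr
  positivity

private theorem BrM_pBr_mono (d : ℕ) {C C' κ3 sw : ℝ} (Rb : ℕ) (hC : 0 < C) (hCC : C ≤ C')
    (hκ3 : 0 ≤ κ3) (hsw : 0 < sw) : pBr d C κ3 sw Rb ≤ pBr d C' κ3 sw Rb := by
  have hs : 0 < Real.sqrt sw := Real.sqrt_pos.2 hsw
  have h1 : 0 < C * Real.sqrt sw := mul_pos hC hs
  have h2 : C * Real.sqrt sw ≤ C' * Real.sqrt sw := mul_le_mul_of_nonneg_right hCC hs.le
  unfold pBr
  refine add_le_add (mul_le_mul_of_nonneg_left ?_ (by positivity)) ?_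
  · rw [Real.exp_le_exp, neg_le_neg_iff]
    exact div_le_div_of_nonneg_left hκ3 h1 h2
  · rw [Real.exp_le_exp, neg_le_neg_iff]
    exact div_le_div_of_nonneg_left zero_le_one h1 h2

private theorem BrM_KBr (d : ℕ) {CA CB C a κ3 κd M6 M8 sw : ℝ} (Rb : ℕ) (hA : 1 ≤ CA)
    (hB : 1 ≤ CB) (hAC : CA ≤ C) (hBC : CB ≤ C) (ha : 0 < a) (hκ3 : 0 ≤ κ3) (hκd : 0 < κd)
    (hM6 : 0 ≤ M6) (hM8 : 1 ≤ M8) (hsw : 0 < sw) :
    CA * (Real.exp (a * (M8 - Rb / 16)) + Real.exp (a * M8) * pBr d CA κ3 sw Rb ^ (1 / 2 : ℝ)) +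
      CB * (2 * Rb + 1) ^ (3 * d) * (κd / Real.sqrt sw) * Real.exp (CB * a * (M8 + M6 + Rb)) ≤
      KBr d C a κ3 κd M6 M8 sw Rb := by
  have hA0 : 0 < CA := by linarith
  have hB0 : 0 < CB := by linarith
  have hC0 : 0 < C := by linarith
  have hs : 0 < Real.sqrt sw := Real.sqrt_pos.2 hsw
  have h1 : pBr d CA κ3 sw Rb ^ (1 / 2 : ℝ) ≤ pBr d C κ3 sw Rb ^ (1 / 2 : ℝ) :=
    Real.rpow_le_rpow (BrM_pBr_nonneg d CA κ3 sw Rb) (BrM_pBr_mono d Rb hA0 hAC hκ3 hsw)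
      (by norm_num)
  have h2 : Real.exp (CB * a * (M8 + M6 + Rb)) ≤ Real.exp (C * a * (M8 + M6 + Rb)) := by
    rw [Real.exp_le_exp]
    refine mul_le_mul_of_nonneg_right (mul_le_mul_of_nonneg_right hBC ha.le) ?_
    have : (0 : ℝ) ≤ Rb := Nat.cast_nonneg Rb
    linarith
  have h3 : 0 ≤ pBr d C κ3 sw Rb ^ (1 / 2 : ℝ) :=
    Real.rpow_nonneg (BrM_pBr_nonneg d C κ3 sw Rb) _
  have h4 : 0 ≤ pBr d CA κ3 sw Rb ^ (1 / 2 : ℝ) :=
    Real.rpow_nonneg (BrM_pBr_nonneg d CA κ3 sw Rb) _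
  have h5 : 0 ≤ (2 * (Rb : ℝ) + 1) ^ (3 * d) * (κd / Real.sqrt sw) := by positivity
  have h6 : CA * (Real.exp (a * (M8 - Rb / 16)) +
      Real.exp (a * M8) * pBr d CA κ3 sw Rb ^ (1 / 2 : ℝ)) ≤
      C * (Real.exp (a * (M8 - Rb / 16)) +
      Real.exp (a * M8) * pBr d C κ3 sw Rb ^ (1 / 2 : ℝ)) := by
    refine mul_le_mul hAC ?_ (by positivity) hC0.le
    have := mul_le_mul_of_nonneg_left h1 (Real.exp_pos (a * M8)).le
    linarith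
  have h7 : CB * (2 * Rb + 1) ^ (3 * d) * (κd / Real.sqrt sw) *
      Real.exp (CB * a * (M8 + M6 + Rb)) ≤
      C * ((2 * Rb + 1) ^ (3 * d) * (κd / Real.sqrt sw) *
      Real.exp (C * a * (M8 + M6 + Rb))) := by
    rw [mul_assoc CB, mul_assoc CB]
    refine mul_le_mul hBC ?_ (by positivity) hC0.le
    exact mul_le_mul_of_nonneg_left h2 h5
  unfold KBr
  calc _ ≤ C * (Real.exp (a * (M8 - Rb / 16)) +
      Real.exp (a * M8) * pBr d C κ3 sw Rb ^ (1 / 2 : ℝ)) +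
      C * ((2 * Rb + 1) ^ (3 * d) * (κd / Real.sqrt sw) *
      Real.exp (C * a * (M8 + M6 + Rb))) := add_le_add h6 h7
    _ = _ := by ring

/-- combination of two weighted sums -/
private theorem BrM_comb {ι : Type} [Fintype ι] (A e : ι → ℝ) (w : ι → ℝ≥0∞)
    {X1 X2 K t r1 r2 r S1 S2 : ℝ} (I1 I2 : ℝ≥0∞) (hA : ∀ x, 0 ≤ A x) (he : ∀ x, 0 ≤ e x)
    (hX1 : 0 ≤ X1) (hX2 : 0 ≤ X2) (hK : X1 + X2 ≤ K) (ht : 0 ≤ t) (hr1 : 0 ≤ r1) (hr2 : 0 ≤ r2)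
    (hr : r1 + r2 ≤ r) (hS1 : 0 ≤ S1) (hS : S1 = S2)
    (h1 : I1 ≤ ∑ x, ENNReal.ofReal (A x * (X1 * e x) * t) * w x + ENNReal.ofReal (r1 * S1))
    (h2 : I2 ≤ ∑ x, ENNReal.ofReal (A x * (X2 * e x) * t) * w x + ENNReal.ofReal (r2 * S1)) :
    I1 + I2 ≤ ∑ x, ENNReal.ofReal (A x * (K * e x) * t) * w x + ENNReal.ofReal (r * S2) := by
  subst hS
  refine (add_le_add h1 h2).trans ?_
  rw [add_add_add_comm, ← Finset.sum_add_distrib, ← ENNReal.ofReal_add (mul_nonneg hr1 hS1)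
    (mul_nonneg hr2 hS1)]
  refine add_le_add (Finset.sum_le_sum fun x _ => ?_) (ENNReal.ofReal_le_ofReal ?_)
  · have g1 : 0 ≤ A x * (X1 * e x) * t :=
      mul_nonneg (mul_nonneg (hA x) (mul_nonneg hX1 (he x))) ht
    have g2 : 0 ≤ A x * (X2 * e x) * t :=
      mul_nonneg (mul_nonneg (hA x) (mul_nonneg hX2 (he x))) ht
    rw [← add_mul, ← ENNReal.ofReal_add g1 g2]
    refine mul_le_mul_left (ENNReal.ofReal_le_ofReal ?_) (w x)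
    have g3 : A x * (X1 * e x) * t + A x * (X2 * e x) * t = A x * ((X1 + X2) * e x) * t := by
      ring
    rw [g3]
    exact mul_le_mul_of_nonneg_right (mul_le_mul_of_nonneg_left
      (mul_le_mul_of_nonneg_right hK (he x)) (hA x)) ht
  · rw [← add_mul]
    exact mul_le_mul_of_nonneg_right hr hS1

private theorem BrM_int {Ω : Type} [MeasurableSpace Ω] (μ : Measure Ω) [IsProbabilityMeasure μ]
    (g1 g2 : Ω → ℂ) (m1 : Measurable g1) (m2 : Measurable g2) (b1 : ∀ ω, ‖g1 ω‖ ≤ 1)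
    (b2 : ∀ ω, ‖g2 ω‖ ≤ 1) :
    ENNReal.ofReal ‖∫ ω, g1 ω ∂μ - ∫ ω, g2 ω ∂μ‖ ≤ ∫⁻ ω, ENNReal.ofReal ‖g1 ω - g2 ω‖ ∂μ := by
  have i1 : Integrable g1 μ :=
    Integrable.of_bound m1.aestronglyMeasurable 1 (Filter.Eventually.of_forall b1)
  have i2 : Integrable g2 μ :=
    Integrable.of_bound m2.aestronglyMeasurable 1 (Filter.Eventually.of_forall b2)
  rw [← integral_sub i1 i2, ofReal_norm]
  refine (enorm_integral_le_lintegral_enorm _).trans (le_of_eq ?_)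
  refine lintegral_congr fun ω => ?_
  rw [ofReal_norm]

theorem brM (d : ℕ) (β : ℝ) (hβ : 0 < β) : ∃ q0 : ℝ, 1 ≤ q0 ∧ ∀ q, q0 ≤ q →
    ∃ C a0 : ℝ, 1 ≤ C ∧ 0 < a0 ∧ ∀ (a a' κ κ2 κ3 κd M6 M8 sw : ℝ) (Rb : ℕ), 0 < a → a ≤ a0 →
      0 < a' → a' ≤ 1 → 0 < κ → κ ≤ 1 / 8 → 0 < κ2 → κ2 ≤ 1 / 8 → 0 < κ3 → κ3 ≤ κ2 / 16 →
      κ3 ≤ κ / 64 → 0 < κd → κd ≤ κ / 64 → 0 ≤ M6 → 1 ≤ M8 → 0 < sw → sw ≤ 1 →
      C * Real.sqrt sw ≤ κ2 → C * Real.sqrt sw ≤ κ3 → 16 * (2 * Rb + 1) ^ d * κd ^ 2 ≤ sw →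
    ∃ k0 : ℝ, 0 < k0 ∧ k0 < 1 ∧ ∀ k, 0 < k → k < k0 → ∀ L : ℕ, ∃ CL : ℝ, 1 ≤ CL ∧
    ∀ ε0 : ℝ, 0 < ε0 → ∃ h0 : ℝ, 0 < h0 ∧ ∀ h, 0 < h → h < h0 →
    ∀ (A : boxS d L → ℝ) (ε : ℝ) (f : (boxS d L → ℂ) → ℂ), (∀ x, 0 ≤ A x) → 0 ≤ ε →
      Measurable f → (∀ G, ‖f G‖ ≤ 1) →
      Cls (boxNet d L) k q (a' / ell k) (Real.exp (-(a / 8))) (a / ell k) A ε f →
    ∀ (y : boxS d L) (A0 : ℝ) (G : (boxS d L → ℂ) × (boxS d L → ℂ)), 0 ≤ A0 →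
      GCfg k κ κ2 κd M6 y Rb G →
      (∀ v, ‖G.1 v - G.2 v‖ ≤ A0 * k ^ (-(M8 - 1) + 5 / 8 * (boxNet d L).dist y v)) →
    ∀ m : ℕ, sw * ell k ^ 2 + 1 ≤ m * h → m * h ≤ 4 * ell k ^ 2 + 4 →
      ENNReal.ofReal ‖(Fam2 d β k).Pn h L m f G.1 - (Fam2 d β k).Pn h L m f G.2‖ ≤
        ∑ x, ENNReal.ofReal (A x * (KBr d C a κ3 κd M6 M8 sw Rb *
            Real.exp (-(7 / 16 * a * (boxNet d L).dist x y))) * A0 ^ (a / ell k)) *
            wpr (boxNet d L) k q (a' / ell k) (Real.exp (-(a / 8))) G.1 G.2 x +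
          ENNReal.ofReal ((CL * ε + ε0) * (1 + ∑ x, (‖G.1 x‖ + ‖G.2 x‖))) := by
  obtain ⟨qA, hqA, brA⟩ := brA d β hβ
  obtain ⟨qB, hqB, brB⟩ := brB d β hβ
  refine ⟨max qA qB, le_max_of_le_left hqA, fun q hq => ?_⟩
  obtain ⟨CA, aA, hCA, haA, brA⟩ := brA q ((le_max_left _ _).trans hq)
  obtain ⟨CB, aB, hCB, haB, brB⟩ := brB q ((le_max_right _ _).trans hq)
  refine ⟨CA + CB, min aA aB, by linarith, lt_min haA haB, ?_⟩
  intro a a' κ κ2 κ3 κd M6 M8 sw Rb ha ha0 ha' ha'1 hκ hκ1 hκ2 hκ21 hκ3 hκ32 hκ3k hκd hκdk hM6 hM8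
    hsw hsw1 hC2 hC3 hRb
  have hs : 0 ≤ Real.sqrt sw := Real.sqrt_nonneg _
  have hCAs : CA * Real.sqrt sw ≤ (CA + CB) * Real.sqrt sw :=
    mul_le_mul_of_nonneg_right (by linarith) hs
  obtain ⟨kA, hkA, hkA1, brA⟩ := brA a a' κ κ2 κ3 κd M6 M8 sw Rb ha
    (ha0.trans (min_le_left _ _)) ha' ha'1 hκ hκ1 hκ2 hκ21 hκ3 hκ32 hκ3k hκd hκdk hM6 hM8 hsw hsw1
    (hCAs.trans hC2) (hCAs.trans hC3) hRb
  obtain ⟨kB, hkB, hkB1, brB⟩ := brB a a' κ κd M6 M8 sw Rb ha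
    (ha0.trans (min_le_right _ _)) ha' ha'1 hκ hκ1 hκd hκdk hM6 hM8 hsw hsw1 hRb
  refine ⟨min kA kB, lt_min hkA hkB, (min_le_left _ _).trans_lt hkA1, ?_⟩
  intro k hk hkk L
  obtain ⟨CLA, hCLA, brA⟩ := brA k hk (hkk.trans_le (min_le_left _ _)) L
  obtain ⟨CLB, hCLB, brB⟩ := brB k hk (hkk.trans_le (min_le_right _ _)) L
  refine ⟨CLA + CLB, by linarith, ?_⟩
  intro ε0 hε0
  obtain ⟨hA, hhA, brA⟩ := brA (ε0 / 2) (half_pos hε0)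
  obtain ⟨hB, hhB, brB⟩ := brB (ε0 / 2) (half_pos hε0)
  refine ⟨min (min hA hB) 1, lt_min (lt_min hhA hhB) one_pos, ?_⟩
  intro h hh hhh A ε f hA0 hε hf hf1 hcls y A0 G hA0' hG hprof m hm1 hm2
  have hh1 : h < 1 := hhh.trans_le (min_le_right _ _)
  have hhA' : h < hA := hhh.trans_le ((min_le_left _ _).trans (min_le_left _ _))
  have hhB' : h < hB := hhh.trans_le ((min_le_left _ _).trans (min_le_right _ _))
  set ns : ℕ := ⌈sw * ell k ^ 2 / h⌉₊ with hns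
  have hnm : ns ≤ m := by
    rw [hns, Nat.ceil_le, div_le_iff₀ hh]
    linarith
  have BA := brA h hh hhA' A ε f hA0 hε hf hf1 hcls y A0 G hA0' hG hprof ns m hns hnm hm2
  have BB := brB h hh hhB' A ε f hA0 hε hf hf1 hcls y A0 G hA0' (fun v => (hG.cap v).2) ns m hns
    hnm hm2
  set P : BPar d L := bpar β k h κ κd M6 M8 A0 ns Rb y with hP
  have hst : Measurable fun p : (boxS d L → ℂ) × (boxS d L → ℂ) => st2 d β k h L p.1 p.2 :=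
    measurable_st2 d β k h L
  have mZ : Measurable fun ω : ℕ → boxS d L → ℂ => trajT (P.bst β k h) G ω m :=
    (measurable_trajT (P.bst β k h) (fun j => measurable_bst P β k h j) m).comp
      (measurable_const.prodMk measurable_id)
  have hI := BrM_int (PI (Measure.pi fun _ : boxS d L => gC))
    (fun ω => f (trajT (P.bst β k h) G ω m).1) (fun ω => f (trajT (P.bst β k h) G ω m).2)
    (hf.comp (measurable_fst.comp mZ)) (hf.comp (measurable_snd.comp mZ))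
    (fun ω => hf1 _) (fun ω => hf1 _)
  have e1 : (Fam2 d β k).Pn h L m f G.1 = ∫ ω, f (trajT (P.bst β k h) G ω m).1
      ∂(PI (Measure.pi fun _ : boxS d L => gC)) := by
    simp_rw [bst_fst]
    rfl
  have e2 : (∫ ω, f (trajT (P.bst β k h) G ω m).2 ∂(PI (Measure.pi fun _ : boxS d L => gC))) =
      ∫ ω, f (traj (st2 d β k h L) G.2 (shft (P.vct β k h G) ω) m)
        ∂(PI (Measure.pi fun _ : boxS d L => gC)) := by
    simp_rw [bst_snd]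
  have e3 : (Fam2 d β k).Pn h L m f G.2 = ∫ ω, f (traj (st2 d β k h L) G.2 ω m)
      ∂(PI (Measure.pi fun _ : boxS d L => gC)) := rfl
  have htri : ENNReal.ofReal ‖(Fam2 d β k).Pn h L m f G.1 - (Fam2 d β k).Pn h L m f G.2‖ ≤
      (∫⁻ ω, ENNReal.ofReal ‖f (trajT (P.bst β k h) G ω m).1 - f (trajT (P.bst β k h) G ω m).2‖
        ∂(PI (Measure.pi fun _ : boxS d L => gC))) +
      ENNReal.ofReal ‖∫ ω, f (traj (st2 d β k h L) G.2 ω m)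
            ∂(PI (Measure.pi fun _ : boxS d L => gC)) -
          ∫ ω, f (traj (st2 d β k h L) G.2 (shft (P.vct β k h G) ω) m)
            ∂(PI (Measure.pi fun _ : boxS d L => gC))‖ := by
    refine le_trans ?_ (add_le_add_left hI _)
    rw [← ENNReal.ofReal_add (norm_nonneg _) (norm_nonneg _), e1, e3, e2]
    refine ENNReal.ofReal_le_ofReal ?_
    rw [norm_sub_rev (∫ ω, f (traj (st2 d β k h L) G.2 ω m)
            ∂(PI (Measure.pi fun _ : boxS d L => gC)))]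
    exact norm_sub_le_norm_sub_add_norm_sub _ _ _
  refine htri.trans ?_
  refine BrM_comb A (fun x => Real.exp (-(7 / 16 * a * (boxNet d L).dist x y)))
    (fun x => wpr (boxNet d L) k q (a' / ell k) (Real.exp (-(a / 8))) G.1 G.2 x)
    (X1 := CA * (Real.exp (a * (M8 - Rb / 16)) +
      Real.exp (a * M8) * pBr d CA κ3 sw Rb ^ (1 / 2 : ℝ)))
    (X2 := CB * (2 * Rb + 1) ^ (3 * d) * (κd / Real.sqrt sw) *
      Real.exp (CB * a * (M8 + M6 + Rb)))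
    (t := A0 ^ (a / ell k)) (r1 := CLA * ε + ε0 / 2) (r2 := CLB * ε + ε0 / 2)
    (S1 := 1 + ∑ x, (‖G.1 x‖ + ‖G.2 x‖)) _ _ hA0 (fun x => (Real.exp_pos _).le) ?_ ?_
    (BrM_KBr d Rb hCA hCB (by linarith) (by linarith) ha hκ3.le hκd hM6 hM8 hsw)
    (Real.rpow_nonneg hA0' _) ?_ ?_ ?_ ?_ rfl BA BB
  · have h4 : 0 ≤ pBr d CA κ3 sw Rb ^ (1 / 2 : ℝ) :=
      Real.rpow_nonneg (BrM_pBr_nonneg d CA κ3 sw Rb) _
    have : 0 < CA := by linarith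
    positivity
  · have : 0 < CB := by linarith
    positivity
  · have := mul_nonneg (by linarith : (0 : ℝ) ≤ CLA) hε
    linarith
  · have := mul_nonneg (by linarith : (0 : ℝ) ≤ CLB) hε
    linarith
  · linarith
  · have : 0 ≤ ∑ x, (‖G.1 x‖ + ‖G.2 x‖) := Finset.sum_nonneg fun x _ => by positivity
    linarith

end DynC
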