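import Pool.Agent.Lib_MP_36b788c.PS

/-!
# Time dependent steps

`trajT f s ω n`: state after `n` steps, step `j` is `f j`.

PROOF.
* `trajT_glue_*`, `dep_trajT`, `measurable_trajT`: as for `traj` (in fact `trajT` is `traj` on the state space `ℕ × St`).
* `iter_gen`: induction on `n` for all start times: condition on the first entry (`lintegral_cons`); the event for the shifted sequence is the event for the steps `j ↦ f (j+1)` from the state `f 0 s a`.
-/

open MeasureTheory ProbabilityTheory
open scoped ENNReal

namespace DynC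

/-- state sequence with time dependent steps -/
def trajT {St X : Type} (f : ℕ → St → X → St) (s : St) (ω : ℕ → X) : ℕ → St
  | 0 => s
  | n + 1 => f n (trajT f s ω n) (ω n)

variable {St X : Type} [MeasurableSpace St] [MeasurableSpace X] {μ : Measure X}
  [IsProbabilityMeasure μ]

theorem dep_trajT {St X : Type} (f : ℕ → St → X → St) (s : St) (n : ℕ) :
    Dep n (fun ω => trajT f s ω n) := by
  intro a b
  induction n with
  | zero => intro _; rfl
  | succ n ih =>
    intro h
    show f n (trajT f s a n) (a n) = f n (trajT f s b n) (b n)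
    have h1 : trajT f s a n = trajT f s b n := ih (fun i hi => h i (by omega))
    rw [h1, h n (by omega)]

theorem measurable_trajT (f : ℕ → St → X → St)
    (hf : ∀ j, Measurable fun p : St × X => f j p.1 p.2) (n : ℕ) :
    Measurable (fun p : St × (ℕ → X) => trajT f p.1 p.2 n) := by
  induction n with
  | zero => exact measurable_fst
  | succ n ih =>
    show Measurable (fun p : St × (ℕ → X) => f n (trajT f p.1 p.2 n) (p.2 n))
    exact (hf n).comp (ih.prodMk ((measurable_pi_apply n).comp measurable_snd))

/-- restart at time `n` -/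
theorem trajT_add {St X : Type} (f : ℕ → St → X → St) (s : St) (ω : ℕ → X) (n m : ℕ) :
    trajT f s ω (n + m) =
      trajT (fun j => f (n + j)) (trajT f s ω n) (fun j => ω (n + j)) m := by
  induction m with
  | zero => rfl
  | succ m ih =>
    show f (n + m) (trajT f s ω (n + m)) (ω (n + m)) =
      f (n + m) (trajT (fun j => f (n + j)) (trajT f s ω n) (fun j => ω (n + j)) m) (ω (n + m))
    rw [ih]

private theorem ItG_cons {St X : Type} (f : ℕ → St → X → St) (s : St) (a : X) (ω : ℕ → X)
    (m : ℕ) : trajT f s (fun i => Nat.casesOn i a ω) (m + 1) =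
      trajT (fun j => f (j + 1)) (f 0 s a) ω m := by
  induction m with
  | zero => rfl
  | succ m ih =>
    show f (m + 1) (trajT f s (fun i => Nat.casesOn i a ω) (m + 1)) (ω m) =
      f (m + 1) (trajT (fun j => f (j + 1)) (f 0 s a) ω m) (ω m)
    rw [ih]

private theorem ItG_meas_ev (f : ℕ → St → X → St)
    (hf : ∀ j, Measurable fun p : St × X => f j p.1 p.2)
    (Gd : ℕ → Set (St × X)) (hG : ∀ j, MeasurableSet (Gd j)) (n : ℕ) (s : St) :
    MeasurableSet {ω : ℕ → X | ∀ j, j < n → (trajT f s ω j, ω j) ∈ Gd j} := by
  have h1 : {ω : ℕ → X | ∀ j, j < n → (trajT f s ω j, ω j) ∈ Gd j} =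
      ⋂ j ∈ Finset.range n, (fun ω : ℕ → X => (trajT f s ω j, ω j)) ⁻¹' (Gd j) := by
    ext ω
    simp
  rw [h1]
  refine Finset.measurableSet_biInter _ ?_
  intro j _
  refine (Measurable.prodMk ?_ (measurable_pi_apply j)) (hG j)
  exact (measurable_trajT f hf j).comp (measurable_const.prodMk measurable_id)

theorem iter_gen (f : ℕ → St → X → St) (hf : ∀ j, Measurable fun p : St × X => f j p.1 p.2)
    (Gd : ℕ → Set (St × X)) (hG : ∀ j, MeasurableSet (Gd j)) (Φ : St → ℝ≥0∞) (hΦ : Measurable Φ)
    (A : ℕ → ℝ≥0∞) (n : ℕ)
    (hstep : ∀ j, j < n → ∀ s, ∫⁻ a in {a | (s, a) ∈ Gd j}, Φ (f j s a) ∂μ ≤ A j * Φ s) (s : St) :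
    ∫⁻ ω in {ω | ∀ j, j < n → (trajT f s ω j, ω j) ∈ Gd j}, Φ (trajT f s ω n) ∂(PI μ) ≤
      (∏ j ∈ Finset.range n, A j) * Φ s := by
  induction n generalizing f Gd A s with
  | zero =>
    have h0 : {ω : ℕ → X | ∀ j, j < 0 → (trajT f s ω j, ω j) ∈ Gd j} = Set.univ := by
      ext ω
      simp
    rw [h0, Measure.restrict_univ]
    have h1 : ∀ ω : ℕ → X, Φ (trajT f s ω 0) = Φ s := fun ω => rfl
    rw [lintegral_congr h1, lintegral_const, measure_univ, mul_one, Finset.prod_range_zero,
      one_mul]
  | succ n ih =>
    have hms := ItG_meas_ev f hf Gd hG (n + 1) s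
    have hmt : Measurable fun ω : ℕ → X => Φ (trajT f s ω (n + 1)) :=
      hΦ.comp ((measurable_trajT f hf (n + 1)).comp (measurable_const.prodMk measurable_id))
    rw [← lintegral_indicator hms, lintegral_cons _ (hmt.indicator hms)]
    have hms0 : MeasurableSet {a : X | (s, a) ∈ Gd 0} :=
      (measurable_const.prodMk measurable_id) (hG 0)
    have hin : ∀ a : X, ∫⁻ ω, ({ω : ℕ → X | ∀ j, j < n + 1 → (trajT f s ω j, ω j) ∈ Gd j}.indicator
          (fun ω => Φ (trajT f s ω (n + 1)))) (fun i => Nat.casesOn i a ω) ∂(PI μ)
        ≤ {a : X | (s, a) ∈ Gd 0}.indicator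
          (fun a => (∏ j ∈ Finset.range n, A (j + 1)) * Φ (f 0 s a)) a := by
      intro a
      by_cases ha : (s, a) ∈ Gd 0
      · rw [Set.indicator_of_mem (show a ∈ {a : X | (s, a) ∈ Gd 0} from ha)]
        refine le_trans (le_of_eq ?_) (ih (fun j => f (j + 1)) (fun j => hf (j + 1))
          (fun j => Gd (j + 1)) (fun j => hG (j + 1)) (fun j => A (j + 1))
          (fun j hj s => hstep (j + 1) (by omega) s) (f 0 s a))
        have hms1 := ItG_meas_ev (fun j => f (j + 1)) (fun j => hf (j + 1))
          (fun j => Gd (j + 1)) (fun j => hG (j + 1)) n (f 0 s a)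
        rw [← lintegral_indicator hms1]
        apply lintegral_congr
        intro ω
        by_cases hω : ∀ j, j < n →
            (trajT (fun j => f (j + 1)) (f 0 s a) ω j, ω j) ∈ Gd (j + 1)
        · rw [Set.indicator_of_mem, Set.indicator_of_mem, ItG_cons]
          · exact hω
          · intro j hj
            cases j with
            | zero => exact ha
            | succ j =>
              have h2 := hω j (by omega)
              rw [← ItG_cons] at h2
              exact h2
        · rw [Set.indicator_of_notMem, Set.indicator_of_notMem]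
          · exact hω
          · intro hc
            apply hω
            intro j hj
            have h2 := hc (j + 1) (by omega)
            rw [ItG_cons] at h2
            exact h2
      · rw [Set.indicator_of_notMem (show a ∉ {a : X | (s, a) ∈ Gd 0} from ha)]
        rw [nonpos_iff_eq_zero, ← lintegral_zero (μ := PI μ)]
        apply lintegral_congr
        intro ω
        rw [Set.indicator_of_notMem]
        intro hc
        exact ha (hc 0 (by omega))
    refine (lintegral_mono hin).trans ?_
    rw [lintegral_indicator hms0, lintegral_const_mul]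
    · rw [Finset.prod_range_succ', mul_assoc]
      gcongr
      exact hstep 0 (by omega) s
    · exact hΦ.comp ((hf 0).comp (measurable_const.prodMk measurable_id))

end DynC
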