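import Pool.Agent.Lib_MP_36b788c.BFam

/-!
# Matrix noise

`MN V H`: site noise `ω : H` acting by a random linear map `A h ω` on `V`, with a Cameron-Martin direction `e0`.
`stM` is the chain `G⁺(x) = J(A(ω_x) G(x)) + k h coup G (x)`.

PROOF.
* `MN2`: `V = H = ℂ`, `A h η v = e^{√h η} v`, `gd = gdC`, `e0 = 1`. `E e^{√h η} = e^{h/2} e^{-h/2} = 1`, `E|e^{√h η} - 1|² = e^{2h} - 1`. `cm`: `CMart gC` from `cmart_real` on both real coordinates (product measure, as `cmart_pi`). `near`: `|e^w - 1| ≤ 2|w|` for `|w| ≤ 1`. `sh`: `|e^{√h c} - 1 - √h c| ≤ h c²`, `|e^{√h η}| ≤ 3`.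
  `sh2`: `|e^{√h c} - 1| ≤ 2 √h |c|`. `st2 = stM` by `rfl` or `funext`.
* `MN3 N`: `H = EuclideanSpace ℝ (Fin (N*N))` (matrices `B` by `finProdFinEquiv`), `γ` standard Gaussian (`cmart_std`), `A h B v = v + √h B v`, `gd = {√h ‖B‖ ≤ h^{3/8}}`, `e0` = identity matrix (`‖e0‖² = N`), `‖B v‖ ≤ ‖B‖ ‖v‖`. `sh`: `A(B + c I) v - (1+√h c) A(B) v = -√h c √h B v`. `E‖√h B v‖² = h N ‖v‖²`. Tail: Gaussian norm tail.
* `law3`: for fixed `G` the vector `(B_x G_x)_x` has the law of `(‖G_x‖ ξ_x)_x` (independent over `x`; for fixed `v`, `B v ~ N(0, ‖v‖² I)`: characteristic functions), so one step has the same law as `stp`.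
* `traj_law`: induction on `n` with `lintegral_cons`: `traj f s (a :: ω) = s :: traj f (f s a) ω`, `Φ (s :: ·)` is `Dep (n-1)`; `Ψ(s') = ∫⁻ Φ (s :: traj f2 s' ω)` is measurable and `∫⁻ Ψ (f1 s a) dμ1 = ∫⁻ Ψ (f2 s a) dμ2`.
-/

open MeasureTheory ProbabilityTheory
open scoped ENNReal

namespace DynC

open Dyn

/-- matrix noise -/
structure MN (V H : Type) [NormedAddCommGroup V] [InnerProductSpace ℝ V] [MeasurableSpace V]
    [NormedAddCommGroup H] [InnerProductSpace ℝ H] [MeasurableSpace H] where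
  γ : Measure H
  [pγ : IsProbabilityMeasure γ]
  A : ℝ → H → V →ₗ[ℝ] V
  gd : ℝ → Set H
  e0 : H
  C : ℝ
  cm : CMart γ
  mA : ∀ h, Measurable fun p : H × V => A h p.1 p.2
  mgd : ∀ h, MeasurableSet (gd h)
  C1 : 1 ≤ C
  e0n : ‖e0‖ ≤ C
  int : ∀ h v, 0 < h → h < 1 → Integrable (fun ω => A h ω v) γ
  mean : ∀ h v, 0 < h → h < 1 → ∫ ω, A h ω v ∂γ = v
  var : ∀ h v, 0 < h → h < 1 →
    ∫⁻ ω, ENNReal.ofReal (‖A h ω v - v‖ ^ 2) ∂γ ≤ ENNReal.ofReal (C * h * ‖v‖ ^ 2)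
  tail : ∃ h0 : ℝ, 0 < h0 ∧ ∀ h, 0 < h → h < h0 → γ (gd h)ᶜ ≤ ENNReal.ofReal (h ^ 3)
  near : ∀ h ω v, 0 < h → h < 1 → ω ∈ gd h → ‖A h ω v - v‖ ≤ C * h ^ (3 / 8 : ℝ) * ‖v‖
  sh : ∀ h ω (c : ℝ) v, 0 < h → h < 1 → |c| ≤ 1 → ω ∈ gd h →
    ‖A h (ω + c • e0) v - (1 + Real.sqrt h * c) • A h ω v‖ ≤
      C * h ^ (7 / 8 : ℝ) * |c| * ‖v‖
  sh2 : ∀ h ω (c : ℝ) v, 0 < h → h < 1 → |c| ≤ 1 →
    ‖A h (ω + c • e0) v - A h ω v‖ ≤ C * Real.sqrt h * |c| * (‖v‖ + ‖A h ω v‖)

attribute [instance] MN.pγ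

section

variable {V H : Type} [NormedAddCommGroup V] [InnerProductSpace ℝ V] [MeasurableSpace V]
  [NormedAddCommGroup H] [InnerProductSpace ℝ H] [MeasurableSpace H]

/-- product site noise -/
noncomputable def MN.mu (M : MN V H) (d L : ℕ) : Measure (boxS d L → H) := Measure.pi fun _ => M.γ

instance (M : MN V H) (d L : ℕ) : IsProbabilityMeasure (M.mu d L) := by
  unfold MN.mu; infer_instance

/-- step of the matrix chain -/
noncomputable def MN.st (M : MN V H) {d : ℕ} (β k h : ℝ) (L : ℕ) (G : boxS d L → V)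
    (ω : boxS d L → H) : boxS d L → V :=
  fun x => JV β h (M.A h (ω x) (G x)) + (k * h) • coupV (boxNet d L) G x

private theorem MNz_psi_meas (β h : ℝ) : Measurable (psi β h) := by
  refine measurable_of_Ioi fun c => ?_
  rcases lt_or_ge c 0 with hc | hc
  · have h1 : psi β h ⁻¹' Set.Ioi c = Set.univ := by
      ext v
      simp only [Set.mem_preimage, Set.mem_Ioi, Set.mem_univ, iff_true]
      exact hc.trans_le (psi_nonneg β h v)
    rw [h1]
    exact MeasurableSet.univ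
  · have h1 : psi β h ⁻¹' Set.Ioi c =
        {v : ℝ | BddAbove {t : ℝ | 0 ≤ t ∧ t + h * t ^ (1 + β) ≤ v}} ∩
        {v : ℝ | ∃ t : ℝ, c < t ∧ 0 ≤ t ∧ t + h * t ^ (1 + β) ≤ v} := by
      ext v
      constructor
      · intro hv
        have hv' : c < sSup {t : ℝ | 0 ≤ t ∧ t + h * t ^ (1 + β) ≤ v} := hv
        have hb : BddAbove {t : ℝ | 0 ≤ t ∧ t + h * t ^ (1 + β) ≤ v} := by
          by_contra hb
          rw [Real.sSup_of_not_bddAbove hb] at hv'
          linarith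
        have hne : {t : ℝ | 0 ≤ t ∧ t + h * t ^ (1 + β) ≤ v}.Nonempty := by
          by_contra hne
          rw [Set.not_nonempty_iff_eq_empty] at hne
          rw [hne, Real.sSup_empty] at hv'
          linarith
        obtain ⟨t, ht, hct⟩ := (lt_csSup_iff hb hne).1 hv'
        exact ⟨hb, t, hct, ht.1, ht.2⟩
      · rintro ⟨hb, t, hct, ht⟩
        exact hct.trans_le (le_csSup hb ht)
    rw [h1]
    refine MeasurableSet.inter ?_ ?_
    · refine (IsLowerSet.ordConnected ?_).measurableSet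
      intro v w hwv hv
      have h2 : {t : ℝ | 0 ≤ t ∧ t + h * t ^ (1 + β) ≤ w} ⊆
          {t : ℝ | 0 ≤ t ∧ t + h * t ^ (1 + β) ≤ v} := fun t ht => ⟨ht.1, ht.2.trans hwv⟩
      exact BddAbove.mono h2 hv
    · refine (IsUpperSet.ordConnected ?_).measurableSet
      rintro v w hvw ⟨t, hct, ht0, ht⟩
      exact ⟨t, hct, ht0, ht.trans hvw⟩

private theorem MNz_JV_meas {V : Type} [NormedAddCommGroup V] [InnerProductSpace ℝ V]
    [MeasurableSpace V] [BorelSpace V] [SecondCountableTopology V] (β h : ℝ) :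
    Measurable (JV β h : V → V) := by
  unfold JV
  exact (((MNz_psi_meas β h).comp measurable_norm).div measurable_norm).smul measurable_id

private theorem MNz_coup_meas {V : Type} [NormedAddCommGroup V] [InnerProductSpace ℝ V]
    [MeasurableSpace V] [BorelSpace V] [SecondCountableTopology V] {ι : Type} [Fintype ι]
    {d : ℕ} (net : Net ι d) (x : ι) : Measurable fun G : ι → V => coupV net G x := by
  unfold coupV
  refine Measurable.sub ?_ ?_
  · exact Finset.measurable_fun_sum _ fun y _ => measurable_pi_apply y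
  · exact (measurable_pi_apply x).const_smul _

theorem MN.measurable_st [BorelSpace V] [SecondCountableTopology V] (M : MN V H) {d : ℕ}
    (β k h : ℝ) (L : ℕ) :
    Measurable fun p : (boxS d L → V) × (boxS d L → H) => M.st β k h L p.1 p.2 := by
  refine measurable_pi_lambda _ fun x => ?_
  have h1 : Measurable fun p : (boxS d L → V) × (boxS d L → H) => M.A h (p.2 x) (p.1 x) := by
    have h3 : Measurable fun p : (boxS d L → V) × (boxS d L → H) => (p.2 x, p.1 x) :=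
      ((measurable_pi_apply x).comp measurable_snd).prodMk
        ((measurable_pi_apply x).comp measurable_fst)
    exact (M.mA h).comp h3
  exact ((MNz_JV_meas β h).comp h1).add
    (((MNz_coup_meas (boxNet d L) x).comp measurable_fst).const_smul (k * h))

end

private theorem MNz_meas_w {V : Type} [NormedAddCommGroup V] [InnerProductSpace ℝ V]
    [MeasurableSpace V] [BorelSpace V] [SecondCountableTopology V] (a : V) :
    Measurable fun ξ : V => ENNReal.ofReal (Real.exp (-(inner ℝ a ξ) - ‖a‖ ^ 2 / 2)) := by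
  apply ENNReal.measurable_ofReal.comp
  apply Real.measurable_exp.comp
  apply Measurable.sub_const
  apply Measurable.neg
  exact (measurable_const.inner measurable_id)

theorem cmart_gC : CMart gC := by
  intro a Φ hΦ
  have hL : Measurable fun ξ : ℂ => Φ (ξ + a) *
      ENNReal.ofReal (Real.exp (-(inner ℝ a ξ) - ‖a‖ ^ 2 / 2)) :=
    (hΦ.comp (measurable_add_const a)).mul (MNz_meas_w a)
  have hL2 : Measurable fun p : ℝ × ℝ => Φ ((⟨p.1, p.2⟩ : ℂ) + a) *
      ENNReal.ofReal (Real.exp (-(inner ℝ a (⟨p.1, p.2⟩ : ℂ)) - ‖a‖ ^ 2 / 2)) :=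
    hL.comp measurable_mkC
  have hΦ2 : Measurable fun p : ℝ × ℝ => Φ (⟨p.1, p.2⟩ : ℂ) := hΦ.comp measurable_mkC
  unfold gC
  rw [lintegral_map hL measurable_mkC, lintegral_map hΦ measurable_mkC,
    lintegral_prod _ hL2.aemeasurable, lintegral_prod _ hΦ2.aemeasurable]
  have e : ∀ x y : ℝ, Φ ((⟨x, y⟩ : ℂ) + a) *
      ENNReal.ofReal (Real.exp (-(inner ℝ a (⟨x, y⟩ : ℂ)) - ‖a‖ ^ 2 / 2)) =
      (Φ (⟨x + a.re, y + a.im⟩ : ℂ) *
        ENNReal.ofReal (Real.exp (-(inner ℝ a.im y) - ‖a.im‖ ^ 2 / 2))) *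
        ENNReal.ofReal (Real.exp (-(inner ℝ a.re x) - ‖a.re‖ ^ 2 / 2)) := by
    intro x y
    have e1 : (⟨x, y⟩ : ℂ) + a = ⟨x + a.re, y + a.im⟩ := by
      apply Complex.ext <;> simp
    rw [e1, mul_assoc, ← ENNReal.ofReal_mul (Real.exp_pos _).le, ← Real.exp_add]
    congr 3
    have e2 : ‖a‖ ^ 2 = a.re ^ 2 + a.im ^ 2 := by
      rw [← Complex.normSq_eq_norm_sq, Complex.normSq_apply]
      ring
    rw [e2, Complex.inner]
    simp only [Complex.mul_re, Complex.conj_re, Complex.conj_im, RCLike.inner_apply, conj_trivial,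
      Real.norm_eq_abs, sq_abs]
    ring
  have h1 : ∀ x : ℝ, ∫⁻ y, Φ ((⟨x, y⟩ : ℂ) + a) *
      ENNReal.ofReal (Real.exp (-(inner ℝ a (⟨x, y⟩ : ℂ)) - ‖a‖ ^ 2 / 2)) ∂(gaussianReal 0 1) =
      (∫⁻ y, Φ (⟨x + a.re, y⟩ : ℂ) ∂(gaussianReal 0 1)) *
        ENNReal.ofReal (Real.exp (-(inner ℝ a.re x) - ‖a.re‖ ^ 2 / 2)) := by
    intro x
    have hm : Measurable fun y : ℝ => Φ (⟨x + a.re, y⟩ : ℂ) :=
      hΦ.comp (measurable_mkC.comp (measurable_const.prodMk measurable_id))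
    have hc := cmart_real a.im (fun y : ℝ => Φ (⟨x + a.re, y⟩ : ℂ)) hm
    have hm' : Measurable fun y : ℝ => Φ (⟨x + a.re, y + a.im⟩ : ℂ) *
        ENNReal.ofReal (Real.exp (-(inner ℝ a.im y) - ‖a.im‖ ^ 2 / 2)) :=
      (hm.comp (measurable_add_const a.im)).mul (MNz_meas_w a.im)
    rw [← hc, ← lintegral_mul_const _ hm']
    exact lintegral_congr fun y => e x y
  have hm2 : Measurable fun x : ℝ => ∫⁻ y, Φ (⟨x, y⟩ : ℂ) ∂(gaussianReal 0 1) :=
    Measurable.lintegral_prod_right' (f := fun p : ℝ × ℝ => Φ (⟨p.1, p.2⟩ : ℂ))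
      (hΦ.comp measurable_mkC)
  have hc2 := cmart_real a.re (fun x : ℝ => ∫⁻ y, Φ (⟨x, y⟩ : ℂ) ∂(gaussianReal 0 1)) hm2
  rw [← hc2]
  exact lintegral_congr fun x => h1 x

private theorem MNz_cexp_int (c : ℂ) :
    Integrable (fun x : ℝ => Complex.exp (c * x)) (gaussianReal 0 1) := by
  refine (integrable_exp_mul_gaussianReal (μ := 0) (v := 1) c.re).mono' ?_
    (Filter.Eventually.of_forall fun x => ?_)
  · exact (Complex.continuous_exp.comp
      (continuous_const.mul Complex.continuous_ofReal)).aestronglyMeasurable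
  · rw [Complex.norm_exp]
    simp

private theorem MNz_cexp_val (c : ℂ) :
    ∫ x : ℝ, Complex.exp (c * x) ∂(gaussianReal 0 1) = Complex.exp (c ^ 2 / 2) := by
  have h := complexMGF_id_gaussianReal (μ := 0) (v := 1) c
  unfold complexMGF at h
  simpa using h

private theorem MNz_split (c : ℂ) (p : ℝ × ℝ) : Complex.exp (c * (⟨p.1, p.2⟩ : ℂ)) =
    Complex.exp (c * p.1) * Complex.exp ((c * Complex.I) * p.2) := by
  rw [← Complex.exp_add]
  congr 1
  have h : (⟨p.1, p.2⟩ : ℂ) = p.1 + p.2 * Complex.I := by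
    apply Complex.ext <;> simp
  rw [h]
  ring

private theorem MNz_meas_exp (c : ℂ) : Measurable fun η : ℂ => Complex.exp (c * η) :=
  Complex.measurable_exp.comp (measurable_id.const_mul c)

private theorem MNz_g_int (c : ℂ) : Integrable (fun η : ℂ => Complex.exp (c * η)) gC := by
  unfold gC
  rw [integrable_map_measure (MNz_meas_exp c).aestronglyMeasurable measurable_mkC.aemeasurable]
  have h := (MNz_cexp_int c).mul_prod (MNz_cexp_int (c * Complex.I))
  refine h.congr (Filter.Eventually.of_forall fun p => ?_)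
  exact (MNz_split c p).symm

private theorem MNz_g_val (c : ℂ) : ∫ η : ℂ, Complex.exp (c * η) ∂gC = 1 := by
  unfold gC
  rw [integral_map measurable_mkC.aemeasurable (MNz_meas_exp c).aestronglyMeasurable]
  have h1 : ∀ p : ℝ × ℝ, Complex.exp (c * (⟨p.1, p.2⟩ : ℂ)) =
    Complex.exp (c * p.1) * Complex.exp ((c * Complex.I) * p.2) := MNz_split c
  rw [integral_congr_ae (Filter.Eventually.of_forall h1),
    integral_prod_mul (fun x : ℝ => Complex.exp (c * x))
      (fun y : ℝ => Complex.exp ((c * Complex.I) * y)), MNz_cexp_val, MNz_cexp_val,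
    ← Complex.exp_add]
  rw [mul_pow, Complex.I_sq]
  have : c ^ 2 / 2 + c ^ 2 * -1 / 2 = 0 := by ring
  rw [this, Complex.exp_zero]

private theorem MNz_norm_exp (h : ℝ) (η : ℂ) :
    ‖Complex.exp (((Real.sqrt h : ℝ) : ℂ) * η)‖ ^ 2 = Real.exp (2 * Real.sqrt h * η.re) := by
  rw [Complex.norm_exp, ← Real.exp_nat_mul]
  congr 1
  simp
  ring

private theorem MNz_re_int (t : ℝ) : Integrable (fun η : ℂ => Real.exp (t * η.re)) gC := by
  unfold gC
  have hm : Measurable fun η : ℂ => Real.exp (t * η.re) :=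
    Real.measurable_exp.comp (Complex.measurable_re.const_mul t)
  rw [integrable_map_measure hm.aestronglyMeasurable measurable_mkC.aemeasurable]
  exact (integrable_exp_mul_gaussianReal (μ := 0) (v := 1) t).comp_fst _

private theorem MNz_re_val (t : ℝ) : ∫ η : ℂ, Real.exp (t * η.re) ∂gC = Real.exp (t ^ 2 / 2) := by
  unfold gC
  have hm : Measurable fun η : ℂ => Real.exp (t * η.re) :=
    Real.measurable_exp.comp (Complex.measurable_re.const_mul t)
  rw [integral_map measurable_mkC.aemeasurable hm.aestronglyMeasurable]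
  have h1 := integral_fun_fst (μ := gaussianReal 0 1) (ν := gaussianReal 0 1)
    (f := fun x : ℝ => Real.exp (t * x))
  rw [h1]
  have h2 := mgf_gaussianReal (p := gaussianReal 0 1) (X := id) (μ := 0) (v := 1) (by simp) t
  unfold mgf at h2
  simpa using h2

/-- `E ‖e^{√h η} - 1‖² = e^{2h} - 1` -/
private theorem MNz_var (h : ℝ) (hh : 0 ≤ h) :
    Integrable (fun η : ℂ => ‖Complex.exp (((Real.sqrt h : ℝ) : ℂ) * η) - 1‖ ^ 2) gC ∧
    ∫ η : ℂ, ‖Complex.exp (((Real.sqrt h : ℝ) : ℂ) * η) - 1‖ ^ 2 ∂gC = Real.exp (2 * h) - 1 := by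
  have e : ∀ η : ℂ, ‖Complex.exp (((Real.sqrt h : ℝ) : ℂ) * η) - 1‖ ^ 2 =
      Real.exp (2 * Real.sqrt h * η.re) -
        2 * (Complex.exp (((Real.sqrt h : ℝ) : ℂ) * η)).re + 1 := by
    intro η
    rw [← MNz_norm_exp, ← Complex.normSq_eq_norm_sq, ← Complex.normSq_eq_norm_sq,
      Complex.normSq_apply, Complex.normSq_apply]
    simp
    ring
  have i1 := MNz_re_int (2 * Real.sqrt h)
  have i2 : Integrable (fun η : ℂ => (Complex.exp (((Real.sqrt h : ℝ) : ℂ) * η)).re) gC :=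
    (MNz_g_int ((Real.sqrt h : ℝ) : ℂ)).re
  have hs : Integrable (fun η : ℂ => Real.exp (2 * Real.sqrt h * η.re) -
        2 * (Complex.exp (((Real.sqrt h : ℝ) : ℂ) * η)).re + 1) gC :=
    (i1.sub (i2.const_mul 2)).add (integrable_const 1)
  refine ⟨hs.congr (Filter.Eventually.of_forall fun η => (e η).symm), ?_⟩
  rw [integral_congr_ae (Filter.Eventually.of_forall e)]
  have h1 := integral_add (i1.sub (i2.const_mul 2)) (integrable_const (μ := gC) (1 : ℝ))
  have h2 := integral_sub i1 (i2.const_mul 2)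
  simp only [Pi.sub_apply] at h1
  rw [h1, h2, integral_const_mul, MNz_re_val, integral_const]
  have h3 : ∫ η : ℂ, (Complex.exp (((Real.sqrt h : ℝ) : ℂ) * η)).re ∂gC = 1 := by
    have h4 := integral_re (MNz_g_int ((Real.sqrt h : ℝ) : ℂ))
    rw [MNz_g_val] at h4
    simpa using h4
  rw [h3, probReal_univ]
  have h5 : (2 * Real.sqrt h) ^ 2 / 2 = 2 * h := by
    rw [mul_pow, Real.sq_sqrt hh]
    ring
  rw [h5]
  simp only [smul_eq_mul]
  ring

private theorem MNz_exp2 (h : ℝ) (h0 : 0 < h) (h1 : h < 1) : Real.exp (2 * h) - 1 ≤ 8 * h := by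
  have h2 := convexOn_exp.2 (Set.mem_univ (0:ℝ)) (Set.mem_univ (2:ℝ)) (by linarith : 0 ≤ 1 - h) h0.le
    (by ring)
  simp only [smul_eq_mul, mul_zero, zero_add, Real.exp_zero, mul_one] at h2
  have h3 : Real.exp 2 ≤ 9 := by
    have h4 := Real.exp_one_lt_d9
    have h5 : Real.exp 2 = Real.exp 1 ^ 2 := by
      rw [← Real.exp_nat_mul]
      norm_num
    rw [h5]
    have h6 : Real.exp 1 ≤ 3 := by linarith
    have h7 := Real.exp_pos 1
    nlinarith
  have h8 : h * 2 = 2 * h := by ring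
  rw [h8] at h2
  have h9 : h * Real.exp 2 ≤ h * 9 := mul_le_mul_of_nonneg_left h3 h0.le
  linarith

private theorem MNz_tail {H : Type} [NormedAddCommGroup H] [InnerProductSpace ℝ H]
    [CompleteSpace H] [MeasurableSpace H] [BorelSpace H] [SecondCountableTopology H]
    (γ : Measure H) [IsGaussian γ] :
    ∃ h0 : ℝ, 0 < h0 ∧ ∀ h, 0 < h → h < h0 →
      γ {x : H | Real.sqrt h * ‖x‖ ≤ h ^ (3 / 8 : ℝ)}ᶜ ≤ ENNReal.ofReal (h ^ 3) := by
  have hi : Integrable (fun x : H => ‖x‖ ^ 32) γ :=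
    (IsGaussian.memLp_id γ (32 : ℕ) (by simp)).integrable_norm_pow'
  set M := ∫ x : H, ‖x‖ ^ 32 ∂γ with hM
  have hM0 : 0 ≤ M := integral_nonneg fun x => by positivity
  refine ⟨1 / (M + 1), by positivity, fun h hh hlt => ?_⟩
  have h2 : h * M ≤ 1 := by
    have := (lt_div_iff₀ (by positivity : 0 < M + 1)).1 hlt
    nlinarith
  have hpt : ∀ x : H, ({x : H | Real.sqrt h * ‖x‖ ≤ h ^ (3 / 8 : ℝ)}ᶜ).indicator
      (fun _ => (1 : ℝ≥0∞)) x ≤ ENNReal.ofReal (h ^ 4 * ‖x‖ ^ 32) := by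
    intro x
    by_cases hx : x ∈ {x : H | Real.sqrt h * ‖x‖ ≤ h ^ (3 / 8 : ℝ)}ᶜ
    · rw [Set.indicator_of_mem hx]
      have hx' : h ^ (3 / 8 : ℝ) < Real.sqrt h * ‖x‖ := not_le.1 hx
      have h3 : 0 < h ^ (3 / 8 : ℝ) := Real.rpow_pos_of_pos hh _
      have h4 : (h ^ (3 / 8 : ℝ)) ^ 32 ≤ (Real.sqrt h * ‖x‖) ^ 32 := pow_le_pow_left₀ h3.le hx'.le 32
      have h5 : (h ^ (3 / 8 : ℝ)) ^ 32 = h ^ 12 := by
        rw [← Real.rpow_natCast, ← Real.rpow_mul hh.le, ← Real.rpow_natCast h 12]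
        norm_num
      have h6 : (Real.sqrt h * ‖x‖) ^ 32 = h ^ 16 * ‖x‖ ^ 32 := by
        rw [mul_pow, show (32 : ℕ) = 2 * 16 by norm_num, pow_mul (Real.sqrt h), Real.sq_sqrt hh.le]
      rw [h5, h6] at h4
      have h7 : 0 < h ^ 12 := by positivity
      have h8 : 1 ≤ h ^ 4 * ‖x‖ ^ 32 := by
        have h9 : h ^ 12 * 1 ≤ h ^ 12 * (h ^ 4 * ‖x‖ ^ 32) := by
          calc h ^ 12 * 1 = h ^ 12 := mul_one _
            _ ≤ h ^ 16 * ‖x‖ ^ 32 := h4
            _ = h ^ 12 * (h ^ 4 * ‖x‖ ^ 32) := by ring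
        exact le_of_mul_le_mul_left h9 h7
      rw [← ENNReal.ofReal_one]
      exact ENNReal.ofReal_le_ofReal h8
    · rw [Set.indicator_of_notMem hx]
      exact bot_le
  have hms : MeasurableSet {x : H | Real.sqrt h * ‖x‖ ≤ h ^ (3 / 8 : ℝ)}ᶜ :=
    (measurableSet_le (measurable_norm.const_mul _) measurable_const).compl
  calc γ {x : H | Real.sqrt h * ‖x‖ ≤ h ^ (3 / 8 : ℝ)}ᶜ
      = ∫⁻ x, ({x : H | Real.sqrt h * ‖x‖ ≤ h ^ (3 / 8 : ℝ)}ᶜ).indicator
          (fun _ => (1 : ℝ≥0∞)) x ∂γ := by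
        rw [lintegral_indicator_const hms, one_mul]
    _ ≤ ∫⁻ x, ENNReal.ofReal (h ^ 4 * ‖x‖ ^ 32) ∂γ := lintegral_mono hpt
    _ = ENNReal.ofReal (∫ x, h ^ 4 * ‖x‖ ^ 32 ∂γ) := by
        rw [ofReal_integral_eq_lintegral_ofReal (hi.const_mul _)
          (Filter.Eventually.of_forall fun x => by positivity)]
    _ ≤ ENNReal.ofReal (h ^ 3) := by
        refine ENNReal.ofReal_le_ofReal ?_
        rw [integral_const_mul, ← hM]
        have h10 : h ^ 4 * M = h ^ 3 * (h * M) := by ring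
        rw [h10]
        have h11 : 0 ≤ h ^ 3 := by positivity
        nlinarith

private theorem MNz_gauss_gC : IsGaussian gC := by
  unfold gC
  have h1 : (fun p : ℝ × ℝ => (⟨p.1, p.2⟩ : ℂ)) = Complex.equivRealProdCLM.symm := by
    funext p
    rfl
  rw [h1]
  infer_instance

private theorem MNz_A2 (h : ℝ) (η v : ℂ) :
    (LinearMap.mulLeft ℝ (Complex.exp (((Real.sqrt h : ℝ) : ℂ) * η))) v =
      Complex.exp (((Real.sqrt h : ℝ) : ℂ) * η) * v := rfl

private theorem MNz_small (h : ℝ) (η : ℂ) (h0 : 0 < h) (h1 : h < 1) (hη : η ∈ gdC h) :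
    ‖((Real.sqrt h : ℝ) : ℂ) * η‖ ≤ h ^ (3 / 8 : ℝ) ∧ ‖((Real.sqrt h : ℝ) : ℂ) * η‖ ≤ 1 := by
  have h2 : ‖((Real.sqrt h : ℝ) : ℂ) * η‖ = Real.sqrt h * ‖η‖ := by
    rw [norm_mul, Complex.norm_real, Real.norm_of_nonneg (Real.sqrt_nonneg h)]
  have h3 : h ^ (3 / 8 : ℝ) ≤ 1 := Real.rpow_le_one h0.le h1.le (by norm_num)
  rw [h2]
  exact ⟨hη, le_trans hη h3⟩

/-- complex noise, `N = 2` -/
noncomputable def MN2 : MN ℂ ℂ where
  γ := gC
  A := fun h η => (LinearMap.mulLeft ℝ (Complex.exp (((Real.sqrt h : ℝ) : ℂ) * η)))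
  gd := gdC
  e0 := 1
  C := 8
  cm := cmart_gC
  mA := by
    intro h
    have h1 : Measurable fun p : ℂ × ℂ => Complex.exp (((Real.sqrt h : ℝ) : ℂ) * p.1) * p.2 :=
      ((MNz_meas_exp _).comp measurable_fst).mul measurable_snd
    exact h1
  mgd := by
    intro h
    exact measurableSet_le (measurable_norm.const_mul _) measurable_const
  C1 := by norm_num
  e0n := by
    rw [norm_one]
    norm_num
  int := by
    intro h v _ _
    exact (MNz_g_int _).mul_const v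
  mean := by
    intro h v _ _
    have h1 : ∫ ω : ℂ, Complex.exp (((Real.sqrt h : ℝ) : ℂ) * ω) * v ∂gC = v := by
      rw [integral_mul_const, MNz_g_val, one_mul]
    exact h1
  var := by
    intro h v h0 h1
    obtain ⟨i1, i2⟩ := MNz_var h h0.le
    have e : ∀ ω : ℂ, ‖Complex.exp (((Real.sqrt h : ℝ) : ℂ) * ω) * v - v‖ ^ 2 =
        ‖Complex.exp (((Real.sqrt h : ℝ) : ℂ) * ω) - 1‖ ^ 2 * ‖v‖ ^ 2 := by
      intro ω
      rw [← mul_pow, ← norm_mul]
      congr 2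
      ring
    have h2 : ∫⁻ ω : ℂ, ENNReal.ofReal (‖Complex.exp (((Real.sqrt h : ℝ) : ℂ) * ω) * v - v‖ ^ 2) ∂gC
        ≤ ENNReal.ofReal (8 * h * ‖v‖ ^ 2) := by
      rw [lintegral_congr fun ω => by rw [e ω],
        ← ofReal_integral_eq_lintegral_ofReal (i1.mul_const _)
          (Filter.Eventually.of_forall fun x => by positivity), integral_mul_const, i2]
      refine ENNReal.ofReal_le_ofReal ?_
      exact mul_le_mul_of_nonneg_right (MNz_exp2 h h0 h1) (by positivity)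
    exact h2
  tail := by
    have := MNz_gauss_gC
    exact MNz_tail gC
  near := by
    intro h ω v h0 h1 hω
    obtain ⟨h2, h3⟩ := MNz_small h ω h0 h1 hω
    have h4 := Complex.norm_exp_sub_one_le h3
    rw [MNz_A2]
    have e : Complex.exp (((Real.sqrt h : ℝ) : ℂ) * ω) * v - v =
        (Complex.exp (((Real.sqrt h : ℝ) : ℂ) * ω) - 1) * v := by ring
    rw [e, norm_mul]
    refine mul_le_mul_of_nonneg_right ?_ (norm_nonneg v)
    have h5 : 0 < h ^ (3 / 8 : ℝ) := Real.rpow_pos_of_pos h0 _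
    linarith
  sh := by
    intro h ω c v h0 h1 hc hω
    obtain ⟨h2, h3⟩ := MNz_small h ω h0 h1 hω
    rw [MNz_A2, MNz_A2]
    have hs0 := Real.sqrt_nonneg h
    have hs1 : Real.sqrt h ≤ 1 := Real.sqrt_le_one.2 h1.le
    have hsq : Real.sqrt h * Real.sqrt h = h := Real.mul_self_sqrt h0.le
    have hn : ‖(((Real.sqrt h * c : ℝ)) : ℂ)‖ = Real.sqrt h * |c| := by
      rw [Complex.norm_real, Real.norm_eq_abs, abs_mul, abs_of_nonneg hs0]
    have hn1 : ‖(((Real.sqrt h * c : ℝ)) : ℂ)‖ ≤ 1 := by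
      rw [hn]
      exact mul_le_one₀ hs1 (abs_nonneg c) hc
    have h4 := Complex.norm_exp_sub_one_sub_id_le hn1
    have e : Complex.exp (((Real.sqrt h : ℝ) : ℂ) * (ω + c • (1 : ℂ))) * v -
        (1 + Real.sqrt h * c) • (Complex.exp (((Real.sqrt h : ℝ) : ℂ) * ω) * v) =
        Complex.exp (((Real.sqrt h : ℝ) : ℂ) * ω) *
          (Complex.exp ((Real.sqrt h * c : ℝ) : ℂ) - 1 - ((Real.sqrt h * c : ℝ) : ℂ)) * v := by
      have e1 : ((Real.sqrt h : ℝ) : ℂ) * (ω + c • (1 : ℂ)) =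
          ((Real.sqrt h : ℝ) : ℂ) * ω + ((Real.sqrt h * c : ℝ) : ℂ) := by
        rw [Complex.real_smul]
        push_cast
        ring
      rw [e1, Complex.exp_add, Complex.real_smul]
      push_cast
      ring
    rw [e, norm_mul, norm_mul]
    have h5 : ‖Complex.exp (((Real.sqrt h : ℝ) : ℂ) * ω)‖ ≤ 3 := by
      rw [Complex.norm_exp]
      have h6 := (Complex.abs_re_le_norm (((Real.sqrt h : ℝ) : ℂ) * ω)).trans h3
      have h7 := (abs_le.1 h6).2
      have h8 := Real.exp_le_exp.2 h7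
      have h9 := Real.exp_one_lt_d9
      linarith
    have h10 : ‖Complex.exp ((Real.sqrt h * c : ℝ) : ℂ) - 1 - ((Real.sqrt h * c : ℝ) : ℂ)‖ ≤
        h ^ (7 / 8 : ℝ) * |c| := by
      refine h4.trans ?_
      rw [hn]
      have h11 : h ≤ h ^ (7 / 8 : ℝ) := by
        have := Real.rpow_le_rpow_of_exponent_ge h0 h1.le (by norm_num : (7 / 8 : ℝ) ≤ 1)
        rwa [Real.rpow_one] at this
      have h12 : (Real.sqrt h * |c|) ^ 2 = h * (|c| * |c|) := by
        rw [mul_pow, Real.sq_sqrt h0.le]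
        ring
      rw [h12]
      have h13 : |c| * |c| ≤ 1 * |c| := mul_le_mul_of_nonneg_right hc (abs_nonneg c)
      rw [one_mul] at h13
      exact mul_le_mul h11 h13 (mul_nonneg (abs_nonneg c) (abs_nonneg c)) (by positivity)
    have h14 : 0 ≤ h ^ (7 / 8 : ℝ) * |c| := by positivity
    have h15 : ‖Complex.exp (((Real.sqrt h : ℝ) : ℂ) * ω)‖ *
        ‖Complex.exp ((Real.sqrt h * c : ℝ) : ℂ) - 1 - ((Real.sqrt h * c : ℝ) : ℂ)‖ ≤
        8 * h ^ (7 / 8 : ℝ) * |c| := by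
      have h16 := mul_le_mul h5 h10 (norm_nonneg _) (by norm_num : (0:ℝ) ≤ 3)
      linarith
    exact mul_le_mul_of_nonneg_right h15 (norm_nonneg v)
  sh2 := by
    intro h ω c v h0 h1 hc
    rw [MNz_A2, MNz_A2]
    have hs0 := Real.sqrt_nonneg h
    have hs1 : Real.sqrt h ≤ 1 := Real.sqrt_le_one.2 h1.le
    have hn : ‖(((Real.sqrt h * c : ℝ)) : ℂ)‖ = Real.sqrt h * |c| := by
      rw [Complex.norm_real, Real.norm_eq_abs, abs_mul, abs_of_nonneg hs0]
    have hn1 : ‖(((Real.sqrt h * c : ℝ)) : ℂ)‖ ≤ 1 := by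
      rw [hn]
      exact mul_le_one₀ hs1 (abs_nonneg c) hc
    have h4 := Complex.norm_exp_sub_one_le hn1
    rw [hn] at h4
    have e : Complex.exp (((Real.sqrt h : ℝ) : ℂ) * (ω + c • (1 : ℂ))) * v -
        Complex.exp (((Real.sqrt h : ℝ) : ℂ) * ω) * v =
        (Complex.exp ((Real.sqrt h * c : ℝ) : ℂ) - 1) *
          (Complex.exp (((Real.sqrt h : ℝ) : ℂ) * ω) * v) := by
      have e1 : ((Real.sqrt h : ℝ) : ℂ) * (ω + c • (1 : ℂ)) =
          ((Real.sqrt h : ℝ) : ℂ) * ω + ((Real.sqrt h * c : ℝ) : ℂ) := by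
        rw [Complex.real_smul]
        push_cast
        ring
      rw [e1, Complex.exp_add]
      ring
    rw [e, norm_mul]
    have h5 : 0 ≤ Real.sqrt h * |c| := mul_nonneg hs0 (abs_nonneg c)
    have h6 := norm_nonneg (Complex.exp (((Real.sqrt h : ℝ) : ℂ) * ω) * v)
    have h7 := mul_le_mul_of_nonneg_right h4 h6
    have h8 : 0 ≤ Real.sqrt h * |c| * ‖v‖ := mul_nonneg h5 (norm_nonneg v)
    have h9 : 0 ≤ Real.sqrt h * |c| * ‖Complex.exp (((Real.sqrt h : ℝ) : ℂ) * ω) * v‖ :=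
      mul_nonneg h5 h6
    nlinarith

theorem st2_eq (d : ℕ) (β k h : ℝ) (L : ℕ) : st2 d β k h L = MN2.st (d := d) β k h L := by
  rfl

/-- the matrix with entries `ω (i,j)` acting on `v` -/
noncomputable def actM {N : ℕ} (B : EuclideanSpace ℝ (Fin (N * N))) : E N →ₗ[ℝ] E N where
  toFun := fun v => WithLp.toLp 2 fun i => ∑ j, B (finProdFinEquiv (i, j)) * v j
  map_add' := by
    intro v w
    ext i
    simp only [PiLp.add_apply]
    rw [← Finset.sum_add_distrib]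
    exact Finset.sum_congr rfl fun j _ => by ring
  map_smul' := by
    intro c v
    ext i
    simp only [PiLp.smul_apply, smul_eq_mul, RingHom.id_apply]
    rw [Finset.mul_sum]
    exact Finset.sum_congr rfl fun j _ => by ring

private theorem MNz_act {N : ℕ} (B : EuclideanSpace ℝ (Fin (N * N))) (v : E N) (i : Fin N) :
    actM B v i = ∑ j, B (finProdFinEquiv (i, j)) * v j := rfl

private theorem MNz_nsq {N : ℕ} (B : EuclideanSpace ℝ (Fin (N * N))) :
    ‖B‖ ^ 2 = ∑ i, ∑ j, B (finProdFinEquiv (i, j)) ^ 2 := by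
  rw [EuclideanSpace.real_norm_sq_eq, ← finProdFinEquiv.sum_comp, Fintype.sum_prod_type]

private theorem MNz_act_le {N : ℕ} (B : EuclideanSpace ℝ (Fin (N * N))) (v : E N) :
    ‖actM B v‖ ≤ ‖B‖ * ‖v‖ := by
  refine (sq_le_sq₀ (norm_nonneg _) (by positivity)).1 ?_
  rw [mul_pow, MNz_nsq, EuclideanSpace.real_norm_sq_eq, EuclideanSpace.real_norm_sq_eq,
    Finset.sum_mul]
  refine Finset.sum_le_sum fun i _ => ?_
  rw [MNz_act]
  exact Finset.sum_mul_sq_le_sq_mul_sq _ _ _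

/-- the tensor `t ⊗ v` -/
private noncomputable def MNz_tau {N : ℕ} (t v : E N) : EuclideanSpace ℝ (Fin (N * N)) :=
  WithLp.toLp 2 fun p => t (finProdFinEquiv.symm p).1 * v (finProdFinEquiv.symm p).2

private theorem MNz_tau_ap {N : ℕ} (t v : E N) (i j : Fin N) :
    MNz_tau t v (finProdFinEquiv (i, j)) = t i * v j := by
  unfold MNz_tau
  simp

private theorem MNz_tau_norm {N : ℕ} (t v : E N) : ‖MNz_tau t v‖ ^ 2 = ‖t‖ ^ 2 * ‖v‖ ^ 2 := by
  rw [MNz_nsq, EuclideanSpace.real_norm_sq_eq t, EuclideanSpace.real_norm_sq_eq v,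
    Finset.sum_mul_sum]
  refine Finset.sum_congr rfl fun i _ => Finset.sum_congr rfl fun j _ => ?_
  rw [MNz_tau_ap]
  ring

private theorem MNz_inner {N : ℕ} (B : EuclideanSpace ℝ (Fin (N * N))) (t v : E N) :
    inner ℝ (actM B v) t = inner ℝ B (MNz_tau t v) := by
  rw [PiLp.inner_apply, PiLp.inner_apply, ← finProdFinEquiv.sum_comp, Fintype.sum_prod_type]
  refine Finset.sum_congr rfl fun i _ => ?_
  rw [MNz_act]
  simp only [RCLike.inner_apply, conj_trivial, MNz_tau_ap]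
  rw [Finset.mul_sum]
  exact Finset.sum_congr rfl fun j _ => by ring

private theorem MNz_act_meas {N : ℕ} (v : E N) :
    Measurable fun B : EuclideanSpace ℝ (Fin (N * N)) => actM B v := by
  have h : Measurable fun B : EuclideanSpace ℝ (Fin (N * N)) =>
      (WithLp.toLp 2 fun i => ∑ j, B (finProdFinEquiv (i, j)) * v j : E N) := by
    fun_prop
  exact h

private theorem MNz_act_meas2 {N : ℕ} :
    Measurable fun p : EuclideanSpace ℝ (Fin (N * N)) × E N => actM p.1 p.2 := by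
  have h : Measurable fun p : EuclideanSpace ℝ (Fin (N * N)) × E N =>
      (WithLp.toLp 2 fun i => ∑ j, p.1 (finProdFinEquiv (i, j)) * p.2 j : E N) := by
    fun_prop
  exact h

/-- law of `B v` -/
private theorem MNz_law {N : ℕ} (v : E N) :
    (stdGaussian (EuclideanSpace ℝ (Fin (N * N)))).map (fun B => actM B v) =
      (stdGaussian (E N)).map (fun ξ => ‖v‖ • ξ) := by
  have m2 : Measurable fun ξ : E N => ‖v‖ • ξ := by fun_prop
  have p1 : IsProbabilityMeasure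
      ((stdGaussian (EuclideanSpace ℝ (Fin (N * N)))).map (fun B => actM B v)) :=
    Measure.isProbabilityMeasure_map (MNz_act_meas v).aemeasurable
  have p2 : IsProbabilityMeasure ((stdGaussian (E N)).map (fun ξ => ‖v‖ • ξ)) :=
    Measure.isProbabilityMeasure_map m2.aemeasurable
  refine Measure.ext_of_charFun ?_
  ext t
  rw [charFun_apply, charFun_apply, integral_map (MNz_act_meas v).aemeasurable (by fun_prop),
    integral_map m2.aemeasurable (by fun_prop)]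
  have e1 : ∫ B : EuclideanSpace ℝ (Fin (N * N)),
      Complex.exp ((inner ℝ (actM B v) t : ℝ) * Complex.I)
        ∂(stdGaussian (EuclideanSpace ℝ (Fin (N * N)))) =
      charFun (stdGaussian (EuclideanSpace ℝ (Fin (N * N)))) (MNz_tau t v) := by
    rw [charFun_apply]
    refine integral_congr_ae (Filter.Eventually.of_forall fun B => ?_)
    simp only
    rw [MNz_inner]
  have e2 : ∫ ξ : E N, Complex.exp ((inner ℝ (‖v‖ • ξ) t : ℝ) * Complex.I) ∂(stdGaussian (E N)) =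
      charFun (stdGaussian (E N)) (‖v‖ • t) := by
    rw [charFun_apply]
    refine integral_congr_ae (Filter.Eventually.of_forall fun B => ?_)
    simp only
    rw [real_inner_smul_left, real_inner_smul_right]
  rw [e1, e2, charFun_stdGaussian, charFun_stdGaussian]
  congr 2
  have e3 : ‖MNz_tau t v‖ ^ 2 = ‖‖v‖ • t‖ ^ 2 := by
    rw [MNz_tau_norm, norm_smul, norm_norm]
    ring
  have e4 : ((‖MNz_tau t v‖ : ℝ) : ℂ) ^ 2 = ((‖‖v‖ • t‖ : ℝ) : ℂ) ^ 2 := by
    exact_mod_cast e3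
  rw [e4]

/-- the identity matrix -/
private noncomputable def MNz_id (N : ℕ) : EuclideanSpace ℝ (Fin (N * N)) :=
  WithLp.toLp 2 fun p => if (finProdFinEquiv.symm p).1 = (finProdFinEquiv.symm p).2 then 1 else 0

private theorem MNz_id_ap {N : ℕ} (i j : Fin N) :
    MNz_id N (finProdFinEquiv (i, j)) = if i = j then 1 else 0 := by
  unfold MNz_id
  simp

private theorem MNz_id_act {N : ℕ} (v : E N) : actM (MNz_id N) v = v := by
  ext i
  rw [MNz_act]
  simp only [MNz_id_ap, ite_mul, one_mul, zero_mul]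
  simp

private theorem MNz_id_norm (N : ℕ) (hN : 1 ≤ N) : ‖MNz_id N‖ ≤ 8 * N := by
  have hN' : (1 : ℝ) ≤ N := by exact_mod_cast hN
  refine (sq_le_sq₀ (norm_nonneg _) (by positivity)).1 ?_
  rw [MNz_nsq]
  simp only [MNz_id_ap]
  have h1 : ∑ i : Fin N, ∑ j : Fin N, (if i = j then (1 : ℝ) else 0) ^ 2 = N := by
    simp
  rw [h1]
  nlinarith

private theorem MNz_act_add {N : ℕ} (B B' : EuclideanSpace ℝ (Fin (N * N))) (v : E N) :
    actM (B + B') v = actM B v + actM B' v := by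
  ext i
  simp only [MNz_act, PiLp.add_apply]
  rw [← Finset.sum_add_distrib]
  exact Finset.sum_congr rfl fun j _ => by ring

private theorem MNz_act_smul {N : ℕ} (c : ℝ) (B : EuclideanSpace ℝ (Fin (N * N))) (v : E N) :
    actM (c • B) v = c • actM B v := by
  ext i
  simp only [MNz_act, PiLp.smul_apply, smul_eq_mul]
  rw [Finset.mul_sum]
  exact Finset.sum_congr rfl fun j _ => by ring

private theorem MNz_A3 {N : ℕ} (h : ℝ) (B : EuclideanSpace ℝ (Fin (N * N))) (v : E N) :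
    ((LinearMap.id + Real.sqrt h • actM B : E N →ₗ[ℝ] E N)) v = v + Real.sqrt h • actM B v := rfl

private theorem MNz_act_int {N : ℕ} (v : E N) :
    Integrable (fun B : EuclideanSpace ℝ (Fin (N * N)) => actM B v)
      (stdGaussian (EuclideanSpace ℝ (Fin (N * N)))) := by
  have h1 : Integrable (fun B : EuclideanSpace ℝ (Fin (N * N)) => B)
      (stdGaussian (EuclideanSpace ℝ (Fin (N * N)))) := IsGaussian.integrable_id
  refine (h1.norm.mul_const ‖v‖).mono' (MNz_act_meas v).aestronglyMeasurable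
    (Filter.Eventually.of_forall fun B => MNz_act_le B v)

private theorem MNz_act_mean {N : ℕ} (v : E N) :
    ∫ B : EuclideanSpace ℝ (Fin (N * N)), actM B v
      ∂(stdGaussian (EuclideanSpace ℝ (Fin (N * N)))) = 0 := by
  have m2 : Measurable fun ξ : E N => ‖v‖ • ξ := by fun_prop
  have h1 : ∫ B : EuclideanSpace ℝ (Fin (N * N)), actM B v
      ∂(stdGaussian (EuclideanSpace ℝ (Fin (N * N)))) =
      ∫ x, x ∂((stdGaussian (EuclideanSpace ℝ (Fin (N * N)))).map (fun B => actM B v)) :=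
    (integral_map (MNz_act_meas v).aemeasurable measurable_id.aestronglyMeasurable).symm
  rw [h1, MNz_law, integral_map (f := fun x : E N => x) m2.aemeasurable
    measurable_id.aestronglyMeasurable, integral_smul,
    integral_id_stdGaussian, smul_zero]

/-- expectations of functions of `B v` -/
private theorem MNz_act_lint {N : ℕ} (v : E N) (Φ : E N → ℝ≥0∞) (hΦ : Measurable Φ) :
    ∫⁻ B : EuclideanSpace ℝ (Fin (N * N)), Φ (actM B v)
      ∂(stdGaussian (EuclideanSpace ℝ (Fin (N * N)))) =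
      ∫⁻ ξ, Φ (‖v‖ • ξ) ∂(stdGaussian (E N)) := by
  have m2 : Measurable fun ξ : E N => ‖v‖ • ξ := by fun_prop
  rw [← lintegral_map hΦ (MNz_act_meas v), MNz_law, lintegral_map hΦ m2]

private theorem MNz_pow (N n : ℕ) :
    Integrable (fun ξ : E N => ‖ξ‖ ^ n) (stdGaussian (E N)) := by
  have h := (IsGaussian.memLp_id (stdGaussian (E N)) (n : ENNReal) (by simp)).integrable_norm_pow'
  exact h

private theorem MNz_coord {N : ℕ} (i : Fin N) :
    ∫ ξ : E N, (ξ i) ^ 2 ∂(stdGaussian (E N)) = 1 := by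
  have h1 := variance_dual_stdGaussian (E := E N) (EuclideanSpace.proj i : StrongDual ℝ (E N))
  have h2 := integral_strongDual_stdGaussian (E := E N) (EuclideanSpace.proj i : StrongDual ℝ (E N))
  rw [variance_of_integral_eq_zero (by fun_prop) h2] at h1
  have h3 : (EuclideanSpace.proj i : StrongDual ℝ (E N)) =
      innerSL ℝ (EuclideanSpace.single i (1:ℝ) : E N) := by
    ext ξ
    rw [innerSL_apply_apply, EuclideanSpace.inner_single_left]
    simp
  have h4 : ‖(EuclideanSpace.proj i : StrongDual ℝ (E N))‖ = 1 := by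
    rw [h3, innerSL_apply_norm]
    simp
  rw [h4, one_pow] at h1
  exact h1

private theorem MNz_two {N : ℕ} : ∫ ξ : E N, ‖ξ‖ ^ 2 ∂(stdGaussian (E N)) = N := by
  have h1 : ∀ ξ : E N, ‖ξ‖ ^ 2 = ∑ i, (ξ i) ^ 2 := fun ξ => EuclideanSpace.real_norm_sq_eq ξ
  simp only [h1]
  rw [integral_finsetSum]
  · simp only [MNz_coord]
    simp
  · intro i _
    refine (MNz_pow N 2).mono' (by fun_prop) (Filter.Eventually.of_forall fun ξ => ?_)
    rw [Real.norm_eq_abs, abs_of_nonneg (sq_nonneg _), h1]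
    exact Finset.single_le_sum (f := fun i => (ξ i) ^ 2) (fun i _ => sq_nonneg _) (Finset.mem_univ i)

/-- Gaussian matrix noise in dimension `N` -/
noncomputable def MN3 (N : ℕ) (hN : 1 ≤ N) : MN (E N) (EuclideanSpace ℝ (Fin (N * N))) where
  γ := stdGaussian (EuclideanSpace ℝ (Fin (N * N)))
  A := fun h B => LinearMap.id + Real.sqrt h • actM B
  gd := fun h => {B | Real.sqrt h * ‖B‖ ≤ h ^ (3 / 8 : ℝ)}
  e0 := WithLp.toLp 2 fun p => if (finProdFinEquiv.symm p).1 = (finProdFinEquiv.symm p).2 then 1 else 0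
  C := 8 * N
  cm := cmart_std (N * N)
  mA := by
    intro h
    have h1 : Measurable fun p : EuclideanSpace ℝ (Fin (N * N)) × E N =>
        p.2 + Real.sqrt h • actM p.1 p.2 :=
      measurable_snd.add (MNz_act_meas2.const_smul (Real.sqrt h))
    exact h1
  mgd := by
    intro h
    exact measurableSet_le (measurable_norm.const_mul _) measurable_const
  C1 := by
    have hN' : (1 : ℝ) ≤ N := by exact_mod_cast hN
    linarith
  e0n := by
    exact MNz_id_norm N hN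
  int := by
    intro h v _ _
    exact (integrable_const v).add ((MNz_act_int v).smul (Real.sqrt h))
  mean := by
    intro h v _ _
    have h1 : ∫ B : EuclideanSpace ℝ (Fin (N * N)), (v + Real.sqrt h • actM B v)
        ∂(stdGaussian (EuclideanSpace ℝ (Fin (N * N)))) = v := by
      have hi : Integrable (fun B : EuclideanSpace ℝ (Fin (N * N)) => Real.sqrt h • actM B v)
          (stdGaussian (EuclideanSpace ℝ (Fin (N * N)))) := (MNz_act_int v).smul (Real.sqrt h)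
      rw [integral_add (integrable_const v) hi, integral_smul,
        MNz_act_mean, smul_zero, add_zero, integral_const, probReal_univ, one_smul]
    exact h1
  var := by
    intro h v h0 h1
    have e : ∀ B : EuclideanSpace ℝ (Fin (N * N)),
        ENNReal.ofReal (‖(v + Real.sqrt h • actM B v) - v‖ ^ 2) =
        ENNReal.ofReal (h * ‖actM B v‖ ^ 2) := by
      intro B
      rw [add_sub_cancel_left, norm_smul, mul_pow, Real.norm_of_nonneg (Real.sqrt_nonneg h),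
        Real.sq_sqrt h0.le]
    have h2 : ∫⁻ B : EuclideanSpace ℝ (Fin (N * N)),
        ENNReal.ofReal (‖(v + Real.sqrt h • actM B v) - v‖ ^ 2)
        ∂(stdGaussian (EuclideanSpace ℝ (Fin (N * N)))) ≤
        ENNReal.ofReal (8 * N * h * ‖v‖ ^ 2) := by
      rw [lintegral_congr e, MNz_act_lint v (fun x => ENNReal.ofReal (h * ‖x‖ ^ 2)) (by fun_prop)]
      have e2 : ∀ ξ : E N, ENNReal.ofReal (h * ‖‖v‖ • ξ‖ ^ 2) =
          ENNReal.ofReal (h * ‖v‖ ^ 2 * ‖ξ‖ ^ 2) := by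
        intro ξ
        rw [norm_smul, norm_norm]
        congr 1
        ring
      rw [lintegral_congr e2, ← ofReal_integral_eq_lintegral_ofReal ((MNz_pow N 2).const_mul _)
        (Filter.Eventually.of_forall fun x => by positivity), integral_const_mul]
      refine ENNReal.ofReal_le_ofReal ?_
      have h3 := mul_le_mul_of_nonneg_left (MNz_two (N := N)).le (by positivity : 0 ≤ h * ‖v‖ ^ 2)
      refine h3.trans ?_
      have h4 : 0 ≤ h * ‖v‖ ^ 2 * N := by positivity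
      nlinarith
    exact h2
  tail := by
    exact MNz_tail _
  near := by
    intro h B v h0 h1 hB
    rw [MNz_A3, add_sub_cancel_left, norm_smul, Real.norm_of_nonneg (Real.sqrt_nonneg h)]
    have hN' : (1 : ℝ) ≤ N := by exact_mod_cast hN
    have h2 : Real.sqrt h * ‖B‖ ≤ h ^ (3 / 8 : ℝ) := hB
    have h3 := mul_le_mul_of_nonneg_left (MNz_act_le B v) (Real.sqrt_nonneg h)
    have h4 := mul_le_mul_of_nonneg_right h2 (norm_nonneg v)
    have h5 : 0 ≤ h ^ (3 / 8 : ℝ) * ‖v‖ := by positivity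
    have h6 : h ^ (3 / 8 : ℝ) * ‖v‖ * 1 ≤ h ^ (3 / 8 : ℝ) * ‖v‖ * (8 * N) :=
      mul_le_mul_of_nonneg_left (by linarith) h5
    linarith
  sh := by
    intro h B c v h0 h1 hc hB
    have hid : (WithLp.toLp 2 fun p => if (finProdFinEquiv.symm p).1 =
        (finProdFinEquiv.symm p).2 then 1 else 0 : EuclideanSpace ℝ (Fin (N * N))) = MNz_id N := rfl
    rw [MNz_A3, MNz_A3, hid, MNz_act_add, MNz_act_smul, MNz_id_act]
    have hN' : (1 : ℝ) ≤ N := by exact_mod_cast hN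
    have e : v + Real.sqrt h • (actM B v + c • v) -
        (1 + Real.sqrt h * c) • (v + Real.sqrt h • actM B v) =
        -((Real.sqrt h * c) • (Real.sqrt h • actM B v)) := by
      module
    rw [e, norm_neg, norm_smul, norm_smul, Real.norm_of_nonneg (Real.sqrt_nonneg h), Real.norm_eq_abs,
      abs_mul, abs_of_nonneg (Real.sqrt_nonneg h)]
    have h2 : Real.sqrt h * ‖B‖ ≤ h ^ (3 / 8 : ℝ) := hB
    have h3 := mul_le_mul_of_nonneg_left (MNz_act_le B v) (Real.sqrt_nonneg h)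
    have h4 := mul_le_mul_of_nonneg_right h2 (norm_nonneg v)
    have h5 : Real.sqrt h * ‖actM B v‖ ≤ h ^ (3 / 8 : ℝ) * ‖v‖ := by linarith
    have h6 : Real.sqrt h * h ^ (3 / 8 : ℝ) = h ^ (7 / 8 : ℝ) := by
      rw [Real.sqrt_eq_rpow, ← Real.rpow_add h0]
      norm_num
    have h7 : 0 ≤ Real.sqrt h * |c| := mul_nonneg (Real.sqrt_nonneg h) (abs_nonneg c)
    have h8 := mul_le_mul_of_nonneg_left h5 h7
    have h9 : Real.sqrt h * |c| * (h ^ (3 / 8 : ℝ) * ‖v‖) = h ^ (7 / 8 : ℝ) * |c| * ‖v‖ := by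
      rw [← h6]
      ring
    have h10 : 0 ≤ h ^ (7 / 8 : ℝ) * |c| * ‖v‖ := by positivity
    have h11 : h ^ (7 / 8 : ℝ) * |c| * ‖v‖ * 1 ≤ h ^ (7 / 8 : ℝ) * |c| * ‖v‖ * (8 * N) :=
      mul_le_mul_of_nonneg_left (by linarith) h10
    linarith
  sh2 := by
    intro h B c v h0 h1 hc
    have hid : (WithLp.toLp 2 fun p => if (finProdFinEquiv.symm p).1 =
        (finProdFinEquiv.symm p).2 then 1 else 0 : EuclideanSpace ℝ (Fin (N * N))) = MNz_id N := rfl
    rw [MNz_A3, MNz_A3, hid, MNz_act_add, MNz_act_smul, MNz_id_act]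
    have hN' : (1 : ℝ) ≤ N := by exact_mod_cast hN
    have e : v + Real.sqrt h • (actM B v + c • v) - (v + Real.sqrt h • actM B v) =
        (Real.sqrt h * c) • v := by
      module
    rw [e, norm_smul, Real.norm_eq_abs, abs_mul, abs_of_nonneg (Real.sqrt_nonneg h)]
    have h7 : 0 ≤ Real.sqrt h * |c| := mul_nonneg (Real.sqrt_nonneg h) (abs_nonneg c)
    have h8 : 0 ≤ Real.sqrt h * |c| * (‖v‖ + ‖v + Real.sqrt h • actM B v‖) :=
      mul_nonneg h7 (add_nonneg (norm_nonneg _) (norm_nonneg _))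
    have h9 : Real.sqrt h * |c| * ‖v‖ ≤ Real.sqrt h * |c| * (‖v‖ + ‖v + Real.sqrt h • actM B v‖) :=
      mul_le_mul_of_nonneg_left (by linarith [norm_nonneg (v + Real.sqrt h • actM B v)]) h7
    have h10 : Real.sqrt h * |c| * (‖v‖ + ‖v + Real.sqrt h • actM B v‖) * 1 ≤
        Real.sqrt h * |c| * (‖v‖ + ‖v + Real.sqrt h • actM B v‖) * (8 * N) :=
      mul_le_mul_of_nonneg_left (by linarith) h8
    linarith

/-- one step of the matrix chain has the law of one step of the Gaussian chain -/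
theorem law3 (N : ℕ) (hN : 1 ≤ N) (d : ℕ) (β k h : ℝ) (L : ℕ) (G : boxS d L → E N) :
    ((MN3 N hN).mu d L).map (fun ω => (MN3 N hN).st β k h L G ω) =
      ((Fam1 N d β k).mu L).map (fun ξ => (Fam1 N d β k).st h L G ξ) := by
  have m1 : ∀ g : E N, Measurable fun w : E N => g + Real.sqrt h • w := by
    intro g
    fun_prop
  have hu : ∀ x : boxS d L, (stdGaussian (EuclideanSpace ℝ (Fin (N * N)))).map
      (fun B => G x + Real.sqrt h • actM B (G x)) =
      (stdGaussian (E N)).map (fun ξ => G x + (Real.sqrt h * ‖G x‖) • ξ) := by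
    intro x
    have m2 : Measurable fun ξ : E N => ‖G x‖ • ξ := by fun_prop
    have e1 : (fun B : EuclideanSpace ℝ (Fin (N * N)) => G x + Real.sqrt h • actM B (G x)) =
        (fun w : E N => G x + Real.sqrt h • w) ∘ (fun B => actM B (G x)) := rfl
    have e2 : (fun ξ : E N => G x + (Real.sqrt h * ‖G x‖) • ξ) =
        (fun w : E N => G x + Real.sqrt h • w) ∘ (fun ξ => ‖G x‖ • ξ) := by
      funext ξ
      simp only [Function.comp_apply, smul_smul]
    rw [e1, e2, ← Measure.map_map (m1 _) (MNz_act_meas _), MNz_law, Measure.map_map (m1 _) m2]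
  have mR : Measurable fun (w : boxS d L → E N) (x : boxS d L) =>
      JV β h (w x) + (k * h) • coupV (boxNet d L) G x :=
    measurable_pi_lambda _ fun x =>
      ((MNz_JV_meas β h).comp (measurable_pi_apply x)).add measurable_const
  have mA : Measurable fun (ω : boxS d L → EuclideanSpace ℝ (Fin (N * N))) (x : boxS d L) =>
      G x + Real.sqrt h • actM (ω x) (G x) :=
    measurable_pi_lambda _ fun x =>
      ((m1 (G x)).comp (MNz_act_meas (G x))).comp (measurable_pi_apply x)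
  have mB : Measurable fun (ξ : boxS d L → E N) (x : boxS d L) =>
      G x + (Real.sqrt h * ‖G x‖) • ξ x := by
    refine measurable_pi_lambda _ fun x => ?_
    exact measurable_const.add ((measurable_pi_apply x).const_smul (Real.sqrt h * ‖G x‖))
  have hl : ((MN3 N hN).mu d L).map (fun ω => (MN3 N hN).st β k h L G ω) =
      (((MN3 N hN).mu d L).map (fun ω x => G x + Real.sqrt h • actM (ω x) (G x))).map
        (fun w x => JV β h (w x) + (k * h) • coupV (boxNet d L) G x) := by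
    rw [Measure.map_map mR mA]
    rfl
  have hr : ((Fam1 N d β k).mu L).map (fun ξ => (Fam1 N d β k).st h L G ξ) =
      (((Fam1 N d β k).mu L).map (fun (ξ : boxS d L → E N) x =>
        G x + (Real.sqrt h * ‖G x‖) • ξ x)).map
        (fun w x => JV β h (w x) + (k * h) • coupV (boxNet d L) G x) := by
    exact (Measure.map_map mR mB).symm
  rw [hl, hr]
  congr 1
  have e3 : ((MN3 N hN).mu d L).map (fun ω x => G x + Real.sqrt h • actM (ω x) (G x)) =
      Measure.pi fun x : boxS d L => (stdGaussian (EuclideanSpace ℝ (Fin (N * N)))).map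
        (fun B => G x + Real.sqrt h • actM B (G x)) :=
    have i1 : ∀ x : boxS d L, SigmaFinite ((stdGaussian (EuclideanSpace ℝ (Fin (N * N)))).map
        (fun B => G x + Real.sqrt h • actM B (G x))) := fun x => by
      have := Measure.isProbabilityMeasure_map
        (μ := stdGaussian (EuclideanSpace ℝ (Fin (N * N))))
        ((m1 (G x)).comp (MNz_act_meas (G x))).aemeasurable
      exact inferInstanceAs (SigmaFinite ((stdGaussian (EuclideanSpace ℝ (Fin (N * N)))).map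
        ((fun w : E N => G x + Real.sqrt h • w) ∘ fun B => actM B (G x))))
    Measure.pi_map_pi (f := fun (x : boxS d L) (B : EuclideanSpace ℝ (Fin (N * N))) =>
      G x + Real.sqrt h • actM B (G x))
      (fun x => ((m1 (G x)).comp (MNz_act_meas (G x))).aemeasurable)
  have e4 : ((Fam1 N d β k).mu L).map (fun (ξ : boxS d L → E N) x =>
        G x + (Real.sqrt h * ‖G x‖) • ξ x) =
      Measure.pi fun x : boxS d L => (stdGaussian (E N)).map
        (fun ξ => G x + (Real.sqrt h * ‖G x‖) • ξ) := by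
    have m5 : ∀ x : boxS d L, Measurable fun ξ : E N => G x + (Real.sqrt h * ‖G x‖) • ξ :=
      fun x => measurable_const.add (measurable_id.const_smul (Real.sqrt h * ‖G x‖))
    have i1 : ∀ x : boxS d L, SigmaFinite ((stdGaussian (E N)).map
        (fun ξ => G x + (Real.sqrt h * ‖G x‖) • ξ)) := fun x => by
      have := Measure.isProbabilityMeasure_map (μ := stdGaussian (E N)) (m5 x).aemeasurable
      infer_instance
    exact Measure.pi_map_pi (μ := fun _ : boxS d L => stdGaussian (E N))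
      (f := fun (x : boxS d L) (ξ : E N) =>
      G x + (Real.sqrt h * ‖G x‖) • ξ) (fun x => (m5 x).aemeasurable)
  rw [e3, e4]
  congr 1
  funext x
  exact hu x

private theorem MNz_pw (p : ℝ) (hp : 0 < p) : ∃ K u0 : ℝ, 0 < K ∧ 0 < u0 ∧ u0 ≤ 1 / 2 ∧ ∀ u : ℝ, |u| ≤ u0 →
    (1 + u) ^ (-p) ≤ 1 - p * u + p * (p + 1) / 2 * u ^ 2 + K * |u| ^ 3 := by
  refine ⟨2 * p + 3 * p ^ 2 + 8 * p ^ 3, 1 / (4 * (p + 1)), by positivity, by positivity, ?_,
    fun u hu => ?_⟩
  · rw [div_le_div_iff₀ (by positivity) (by norm_num)]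
    linarith
  have h0 := abs_nonneg u
  have hu1 : |u| * (4 * (p + 1)) ≤ 1 := by
    rwa [le_div_iff₀ (by positivity)] at hu
  have hu2 : |u| ≤ 1 / 4 := by nlinarith
  have hu3 : p * |u| ≤ 1 / 4 := by nlinarith
  have hpos : 0 < 1 + u := by
    have := neg_abs_le u
    linarith
  rw [Real.rpow_def_of_pos hpos]
  have hl := Real.abs_log_sub_add_sum_range_le (x := -u) (by rw [abs_neg]; linarith) 2
  rw [abs_neg, sub_neg_eq_add] at hl
  simp only [Finset.sum_range_succ, Finset.sum_range_zero, zero_add] at hl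
  norm_num at hl
  have hden : |u| ^ 3 / (1 - |u|) ≤ 2 * |u| ^ 3 := by
    rw [div_le_iff₀ (by linarith)]
    have : 0 ≤ |u| ^ 3 := by positivity
    nlinarith
  have hl2 := hl.trans hden
  set ρ : ℝ := -u + u ^ 2 / 2 + Real.log (1 + u) with hρ
  have hlog : Real.log (1 + u) = u - u ^ 2 / 2 + ρ := by rw [hρ]; ring
  set w : ℝ := Real.log (1 + u) * -p with hw
  set s : ℝ := p * u ^ 2 / 2 - p * ρ with hs
  have hws : w = -(p * u) + s := by rw [hw, hs, hlog]; ring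
  have hu2' : u ^ 2 = |u| ^ 2 := (sq_abs u).symm
  have hρb := abs_le.1 hl2
  have hsb : |s| ≤ p * |u| ^ 2 := by
    have h1 : |s| ≤ p * u ^ 2 / 2 + p * |ρ| := by
      rw [hs]
      refine (abs_sub _ _).trans ?_
      rw [abs_of_nonneg (by positivity : 0 ≤ p * u ^ 2 / 2), abs_mul, abs_of_pos hp]
    have h2 : p * |ρ| ≤ p * (2 * |u| ^ 3) := mul_le_mul_of_nonneg_left hl2 hp.le
    have h3 : p * (2 * |u| ^ 3) ≤ p * (1 / 2 * |u| ^ 2) := by
      refine mul_le_mul_of_nonneg_left ?_ hp.le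
      have : 0 ≤ |u| ^ 2 := by positivity
      nlinarith
    rw [hu2'] at h1
    linarith
  have hwb : |w| ≤ 2 * (p * |u|) := by
    rw [hws]
    refine (abs_add_le _ _).trans ?_
    rw [abs_neg, abs_mul, abs_of_pos hp]
    have : p * |u| ^ 2 ≤ p * |u| := by
      refine mul_le_mul_of_nonneg_left ?_ hp.le
      nlinarith
    linarith
  have hw1 : |w| ≤ 1 := by linarith
  have he := Real.exp_bound hw1 (n := 3) (by norm_num)
  simp only [Finset.sum_range_succ, Finset.sum_range_zero, zero_add] at he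
  norm_num [Nat.factorial] at he
  have he2 := (abs_le.1 he).2
  have hw3 : |w| ^ 3 ≤ (2 * (p * |u|)) ^ 3 := pow_le_pow_left₀ (abs_nonneg w) hwb 3
  have hwsq : w ^ 2 ≤ p ^ 2 * u ^ 2 + 2 * (p * |u|) * |s| + |s| ^ 2 := by
    rw [hws]
    have h1 : -(p * u) * s ≤ p * |u| * |s| := by
      have := neg_abs_le (u * s)
      rw [abs_mul] at this
      nlinarith
    have h2 : s ^ 2 = |s| ^ 2 := (sq_abs s).symm
    nlinarith
  have hs1 : 2 * (p * |u|) * |s| ≤ 2 * p ^ 2 * |u| ^ 3 := by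
    have := mul_le_mul_of_nonneg_left hsb (by positivity : 0 ≤ 2 * (p * |u|))
    calc 2 * (p * |u|) * |s| ≤ 2 * (p * |u|) * (p * |u| ^ 2) := this
      _ = 2 * p ^ 2 * |u| ^ 3 := by ring
  have hs2 : |s| ^ 2 ≤ p ^ 2 * |u| ^ 3 := by
    have := pow_le_pow_left₀ (abs_nonneg s) hsb 2
    refine this.trans ?_
    have h3 : (p * |u| ^ 2) ^ 2 = p ^ 2 * |u| ^ 3 * |u| := by ring
    rw [h3]
    have h4 : 0 ≤ p ^ 2 * |u| ^ 3 := by positivity
    nlinarith
  have hw_le : w ≤ -(p * u) + p * u ^ 2 / 2 + 2 * p * |u| ^ 3 := by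
    rw [hws, hs]
    have := mul_le_mul_of_nonneg_left hρb.1 hp.le
    nlinarith
  have h8 : 0 ≤ p ^ 3 * |u| ^ 3 := by positivity
  have h9 : (2 * (p * |u|)) ^ 3 = 8 * (p ^ 3 * |u| ^ 3) := by ring
  rw [h9] at hw3
  nlinarith

private theorem MNz_powB (N n : ℕ) :
    Integrable (fun B : EuclideanSpace ℝ (Fin (N * N)) => ‖B‖ ^ n)
      (stdGaussian (EuclideanSpace ℝ (Fin (N * N)))) := by
  have h := (IsGaussian.memLp_id (stdGaussian (EuclideanSpace ℝ (Fin (N * N)))) (n : ENNReal)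
    (by simp)).integrable_norm_pow'
  exact h

/-- `E ⟪v, B v⟫² = ‖v‖⁴` -/
private theorem MNz_a2 {N : ℕ} (v : E N) :
    ∫ B : EuclideanSpace ℝ (Fin (N * N)), (inner ℝ v (actM B v)) ^ 2
      ∂(stdGaussian (EuclideanSpace ℝ (Fin (N * N)))) = ‖v‖ ^ 4 := by
  have m2 : Measurable fun ξ : E N => ‖v‖ • ξ := by fun_prop
  have h0 : ∫ B : EuclideanSpace ℝ (Fin (N * N)), (inner ℝ v (actM B v)) ^ 2
      ∂(stdGaussian (EuclideanSpace ℝ (Fin (N * N)))) =
      ∫ x, (inner ℝ v x) ^ 2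
        ∂((stdGaussian (EuclideanSpace ℝ (Fin (N * N)))).map (fun B => actM B v)) :=
    (integral_map (f := fun x : E N => (inner ℝ v x) ^ 2) (MNz_act_meas v).aemeasurable
      (by fun_prop)).symm
  have h1 := variance_dual_stdGaussian (E := E N) (innerSL ℝ v)
  have h2 := integral_strongDual_stdGaussian (E := E N) (innerSL ℝ v)
  rw [variance_of_integral_eq_zero (by fun_prop) h2, innerSL_apply_norm] at h1
  have h3 : ∫ ξ : E N, (inner ℝ v ξ) ^ 2 ∂(stdGaussian (E N)) = ‖v‖ ^ 2 := h1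
  rw [h0, MNz_law, integral_map (f := fun x : E N => (inner ℝ v x) ^ 2) m2.aemeasurable
    (by fun_prop)]
  have h4 : ∀ ξ : E N, (inner ℝ v (‖v‖ • ξ)) ^ 2 = ‖v‖ ^ 2 * (inner ℝ v ξ) ^ 2 := by
    intro ξ
    rw [real_inner_smul_right, mul_pow]
  rw [integral_congr_ae (Filter.Eventually.of_forall h4), integral_const_mul, h3]
  ring

/-- `E ‖B v‖² = N ‖v‖²` -/
private theorem MNz_b2 {N : ℕ} (v : E N) :
    ∫ B : EuclideanSpace ℝ (Fin (N * N)), ‖actM B v‖ ^ 2
      ∂(stdGaussian (EuclideanSpace ℝ (Fin (N * N)))) = N * ‖v‖ ^ 2 := by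
  have m2 : Measurable fun ξ : E N => ‖v‖ • ξ := by fun_prop
  have h0 : ∫ B : EuclideanSpace ℝ (Fin (N * N)), ‖actM B v‖ ^ 2
      ∂(stdGaussian (EuclideanSpace ℝ (Fin (N * N)))) =
      ∫ x, ‖x‖ ^ 2
        ∂((stdGaussian (EuclideanSpace ℝ (Fin (N * N)))).map (fun B => actM B v)) :=
    (integral_map (f := fun x : E N => ‖x‖ ^ 2) (MNz_act_meas v).aemeasurable
      (by fun_prop)).symm
  rw [h0, MNz_law, integral_map (f := fun x : E N => ‖x‖ ^ 2) m2.aemeasurable (by fun_prop)]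
  have h4 : ∀ ξ : E N, ‖‖v‖ • ξ‖ ^ 2 = ‖v‖ ^ 2 * ‖ξ‖ ^ 2 := by
    intro ξ
    rw [norm_smul, norm_norm, mul_pow]
  rw [integral_congr_ae (Filter.Eventually.of_forall h4), integral_const_mul, MNz_two]
  ring

private theorem MNz_a1 {N : ℕ} (v : E N) :
    ∫ B : EuclideanSpace ℝ (Fin (N * N)), inner ℝ v (actM B v)
      ∂(stdGaussian (EuclideanSpace ℝ (Fin (N * N)))) = 0 := by
  rw [integral_inner (MNz_act_int v), MNz_act_mean, inner_zero_right]

private theorem MNz_ia1 {N : ℕ} (v : E N) :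
    Integrable (fun B : EuclideanSpace ℝ (Fin (N * N)) => inner ℝ v (actM B v))
      (stdGaussian (EuclideanSpace ℝ (Fin (N * N)))) :=
  (MNz_act_int v).const_inner v

private theorem MNz_ib2 {N : ℕ} (v : E N) :
    Integrable (fun B : EuclideanSpace ℝ (Fin (N * N)) => ‖actM B v‖ ^ 2)
      (stdGaussian (EuclideanSpace ℝ (Fin (N * N)))) := by
  refine ((MNz_powB N 2).mul_const (‖v‖ ^ 2)).mono'
    ((MNz_act_meas v).norm.pow_const 2).aestronglyMeasurable
    (Filter.Eventually.of_forall fun B => ?_)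
  rw [Real.norm_of_nonneg (by positivity), ← mul_pow]
  exact pow_le_pow_left₀ (norm_nonneg _) (MNz_act_le B v) 2

private theorem MNz_ia2 {N : ℕ} (v : E N) :
    Integrable (fun B : EuclideanSpace ℝ (Fin (N * N)) => (inner ℝ v (actM B v)) ^ 2)
      (stdGaussian (EuclideanSpace ℝ (Fin (N * N)))) := by
  refine ((MNz_ib2 v).const_mul (‖v‖ ^ 2)).mono'
    ((measurable_const.inner (MNz_act_meas v)).pow_const 2).aestronglyMeasurable
    (Filter.Eventually.of_forall fun B => ?_)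
  rw [Real.norm_of_nonneg (by positivity), ← mul_pow, ← sq_abs]
  exact pow_le_pow_left₀ (abs_nonneg _) (abs_real_inner_le_norm _ _) 2

/-- the comparison function -/
private noncomputable def MNz_Q {N : ℕ} (p K η : ℝ) (v : E N)
    (B : EuclideanSpace ℝ (Fin (N * N))) : ℝ :=
  1 - p * (2 * η ^ 4 * (inner ℝ v (actM B v) / ‖v‖ ^ 2) + η ^ 8 * (‖actM B v‖ ^ 2 / ‖v‖ ^ 2)) +
    p * (p + 1) / 2 * (4 * η ^ 8 * ((inner ℝ v (actM B v)) ^ 2 / ‖v‖ ^ 4) +
      η ^ 9 * (4 * ‖B‖ ^ 3 + ‖B‖ ^ 4)) + 27 * K * η ^ 9 +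
    p * η ^ 9 * (2 * ‖B‖ ^ 17 + ‖B‖ ^ 18)

private theorem MNz_Q_int {N : ℕ} (p K η : ℝ) (v : E N) :
    Integrable (MNz_Q p K η v) (stdGaussian (EuclideanSpace ℝ (Fin (N * N)))) := by
  have i1 := ((MNz_ia1 v).div_const (‖v‖ ^ 2)).const_mul (2 * η ^ 4)
  have i2 := ((MNz_ib2 v).div_const (‖v‖ ^ 2)).const_mul (η ^ 8)
  have i3 := ((MNz_ia2 v).div_const (‖v‖ ^ 4)).const_mul (4 * η ^ 8)
  have i4 := (((MNz_powB N 3).const_mul 4).add (MNz_powB N 4)).const_mul (η ^ 9)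
  have i5 := (((MNz_powB N 17).const_mul 2).add (MNz_powB N 18)).const_mul (p * η ^ 9)
  exact ((((integrable_const (1 : ℝ)).sub ((i1.add i2).const_mul p)).add
    ((i3.add i4).const_mul (p * (p + 1) / 2))).add (integrable_const (27 * K * η ^ 9))).add i5

private theorem MNz_Q_val {N : ℕ} (p K η : ℝ) (v : E N) (hv : v ≠ 0) :
    ∫ B, MNz_Q p K η v B ∂(stdGaussian (EuclideanSpace ℝ (Fin (N * N)))) =
      1 - p * η ^ 8 * N + 2 * p * (p + 1) * η ^ 8 + η ^ 9 *
        (p * (p + 1) / 2 * (4 * ∫ B : EuclideanSpace ℝ (Fin (N * N)), ‖B‖ ^ 3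
            ∂(stdGaussian (EuclideanSpace ℝ (Fin (N * N)))) +
          ∫ B : EuclideanSpace ℝ (Fin (N * N)), ‖B‖ ^ 4
            ∂(stdGaussian (EuclideanSpace ℝ (Fin (N * N))))) + 27 * K +
        p * (2 * ∫ B : EuclideanSpace ℝ (Fin (N * N)), ‖B‖ ^ 17
            ∂(stdGaussian (EuclideanSpace ℝ (Fin (N * N)))) +
          ∫ B : EuclideanSpace ℝ (Fin (N * N)), ‖B‖ ^ 18
            ∂(stdGaussian (EuclideanSpace ℝ (Fin (N * N)))))) := by
  have i1 := ((MNz_ia1 v).div_const (‖v‖ ^ 2)).const_mul (2 * η ^ 4)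
  have i2 := ((MNz_ib2 v).div_const (‖v‖ ^ 2)).const_mul (η ^ 8)
  have i3 := ((MNz_ia2 v).div_const (‖v‖ ^ 4)).const_mul (4 * η ^ 8)
  have i4 := (((MNz_powB N 3).const_mul 4).add (MNz_powB N 4)).const_mul (η ^ 9)
  have i5 := (((MNz_powB N 17).const_mul 2).add (MNz_powB N 18)).const_mul (p * η ^ 9)
  have j1 := (integrable_const (μ := stdGaussian (EuclideanSpace ℝ (Fin (N * N)))) (1 : ℝ))
  have j2 := (i1.add i2).const_mul p
  have j3 := (i3.add i4).const_mul (p * (p + 1) / 2)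
  have j4 := (integrable_const (μ := stdGaussian (EuclideanSpace ℝ (Fin (N * N))))
    (27 * K * η ^ 9))
  have hn : ‖v‖ ≠ 0 := norm_ne_zero_iff.2 hv
  unfold MNz_Q
  have e5 := integral_add (((j1.sub j2).add j3).add j4) i5
  have e4 := integral_add ((j1.sub j2).add j3) j4
  have e3 := integral_add (j1.sub j2) j3
  have e2 := integral_sub j1 j2
  have e6 := integral_add i1 i2
  have e7 := integral_add i3 i4
  have e8 := integral_add ((MNz_powB N 3).const_mul 4) (MNz_powB N 4)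
  have e9 := integral_add ((MNz_powB N 17).const_mul 2) (MNz_powB N 18)
  simp only [Pi.add_apply, Pi.sub_apply] at e2 e3 e4 e5 e6 e7 e8 e9
  rw [e5, e4, e3, e2, integral_const_mul, e6, integral_const_mul, integral_const_mul,
    integral_div, integral_div, integral_const_mul (p * (p + 1) / 2), e7,
    integral_const_mul (4 * η ^ 8), integral_div, integral_const_mul (η ^ 9), e8,
    integral_const_mul (p * η ^ 9), e9, integral_const_mul (4 : ℝ), integral_const_mul (2 : ℝ),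
    MNz_a1, MNz_a2, MNz_b2, integral_const, integral_const, probReal_univ]
  simp only [smul_eq_mul, one_mul]
  field_simp
  ring

private theorem MNz_Q_le {N : ℕ} (p K u0 η : ℝ) (hp : 0 < p) (hK : 0 < K) (hu0 : u0 ≤ 1 / 2)
    (hKu : ∀ u : ℝ, |u| ≤ u0 →
      (1 + u) ^ (-p) ≤ 1 - p * u + p * (p + 1) / 2 * u ^ 2 + K * |u| ^ 3)
    (hη : 0 < η) (hη1 : η ≤ 1) (hηu : 3 * η ≤ u0) (v : E N) (hv : v ≠ 0)
    (B : EuclideanSpace ℝ (Fin (N * N))) (hB : η ^ 4 * ‖B‖ ≤ η ^ 3) :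
    ‖v + η ^ 4 • actM B v‖ ^ (-(2 * p)) ≤ MNz_Q p K η v B * ‖v‖ ^ (-(2 * p)) := by
  have hn : 0 < ‖v‖ := norm_pos_iff.2 hv
  set a : ℝ := inner ℝ v (actM B v) / ‖v‖ ^ 2 with ha
  set b : ℝ := ‖actM B v‖ / ‖v‖ with hb
  set β : ℝ := ‖B‖ with hβ
  have hb0 : 0 ≤ b := by positivity
  have hβ0 : 0 ≤ β := norm_nonneg B
  have hbβ : b ≤ β := by
    rw [hb, div_le_iff₀ hn]
    exact MNz_act_le B v
  have hab : |a| ≤ b := by
    rw [ha, hb, abs_div, abs_of_pos (by positivity : 0 < ‖v‖ ^ 2), div_le_div_iff₀ (by positivity) hn]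
    have := abs_real_inner_le_norm v (actM B v)
    calc |inner ℝ v (actM B v)| * ‖v‖ ≤ (‖v‖ * ‖actM B v‖) * ‖v‖ :=
          mul_le_mul_of_nonneg_right this hn.le
      _ = ‖actM B v‖ * ‖v‖ ^ 2 := by ring
  have hη3 : 0 < η ^ 3 := by positivity
  have hβη : η * β ≤ 1 := by
    have : η ^ 3 * (η * β) ≤ η ^ 3 * 1 := by
      calc η ^ 3 * (η * β) = η ^ 4 * β := by ring
        _ ≤ η ^ 3 := hB
        _ = η ^ 3 * 1 := (mul_one _).symm
    exact le_of_mul_le_mul_left this hη3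
  set u : ℝ := 2 * η ^ 4 * a + η ^ 8 * b ^ 2 with hu
  have hηb : η * b ≤ 1 := (mul_le_mul_of_nonneg_left hbβ hη.le).trans hβη
  have hηb0 : 0 ≤ η * b := by positivity
  have huabs : |u| ≤ 3 * η ^ 3 := by
    have h1 : |u| ≤ 2 * η ^ 4 * |a| + η ^ 8 * b ^ 2 := by
      rw [hu]
      refine (abs_add_le _ _).trans ?_
      rw [abs_mul, abs_of_pos (by positivity : 0 < 2 * η ^ 4),
        abs_of_nonneg (by positivity : 0 ≤ η ^ 8 * b ^ 2)]
    have h2 : 2 * η ^ 4 * |a| ≤ 2 * η ^ 3 := by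
      calc 2 * η ^ 4 * |a| ≤ 2 * η ^ 4 * b := mul_le_mul_of_nonneg_left hab (by positivity)
        _ = 2 * η ^ 3 * (η * b) := by ring
        _ ≤ 2 * η ^ 3 * 1 := mul_le_mul_of_nonneg_left hηb (by positivity)
        _ = 2 * η ^ 3 := mul_one _
    have h3 : η ^ 8 * b ^ 2 ≤ η ^ 3 := by
      have h4 : (η * b) ^ 2 ≤ 1 := pow_le_one₀ hηb0 hηb
      have h5 : η ^ 3 ≤ 1 := pow_le_one₀ hη.le hη1
      calc η ^ 8 * b ^ 2 = η ^ 3 * (η ^ 3 * (η * b) ^ 2) := by ring
        _ ≤ η ^ 3 * (1 * 1) := by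
            refine mul_le_mul_of_nonneg_left ?_ hη3.le
            exact mul_le_mul h5 h4 (by positivity) zero_le_one
        _ = η ^ 3 := by ring
    linarith
  have hη31 : η ^ 3 ≤ η := by
    calc η ^ 3 = η * η ^ 2 := by ring
      _ ≤ η * 1 := mul_le_mul_of_nonneg_left (pow_le_one₀ hη.le hη1) hη.le
      _ = η := mul_one _
  have hu1 : |u| ≤ u0 := by linarith
  have hpos : 0 < 1 + u := by
    have := neg_abs_le u
    linarith
  have hsq : ‖v + η ^ 4 • actM B v‖ ^ 2 = ‖v‖ ^ 2 * (1 + u) := by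
    rw [norm_add_sq_real, norm_smul, real_inner_smul_right, Real.norm_of_nonneg (by positivity), hu,
      ha, hb]
    field_simp
    ring
  have hrp : ‖v + η ^ 4 • actM B v‖ ^ (-(2 * p)) = ‖v‖ ^ (-(2 * p)) * (1 + u) ^ (-p) := by
    have e1 : ∀ x : ℝ, 0 ≤ x → x ^ (-(2 * p)) = (x ^ 2) ^ (-p) := by
      intro x hx
      rw [← Real.rpow_natCast x 2, ← Real.rpow_mul hx]
      congr 1
      push_cast
      ring
    rw [e1 _ (norm_nonneg _), hsq, Real.mul_rpow (by positivity) hpos.le, ← e1 _ hn.le]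
  rw [hrp, mul_comm]
  refine mul_le_mul_of_nonneg_right ?_ (Real.rpow_nonneg hn.le _)
  refine (hKu u hu1).trans ?_
  have hu3 : |u| ^ 3 ≤ 27 * η ^ 9 := by
    calc |u| ^ 3 ≤ (3 * η ^ 3) ^ 3 := pow_le_pow_left₀ (abs_nonneg u) huabs 3
      _ = 27 * η ^ 9 := by ring
  have hK3 : K * |u| ^ 3 ≤ 27 * K * η ^ 9 := by
    have := mul_le_mul_of_nonneg_left hu3 hK.le
    linarith
  have hu2 : u ^ 2 ≤ 4 * η ^ 8 * a ^ 2 + η ^ 9 * (4 * β ^ 3 + β ^ 4) := by
    have h1 : u ^ 2 = 4 * η ^ 8 * a ^ 2 + 4 * η ^ 12 * (a * b ^ 2) + η ^ 16 * b ^ 4 := by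
      rw [hu]; ring
    have h2 : a * b ^ 2 ≤ β ^ 3 := by
      calc a * b ^ 2 ≤ |a| * b ^ 2 := mul_le_mul_of_nonneg_right (le_abs_self a) (by positivity)
        _ ≤ b * b ^ 2 := mul_le_mul_of_nonneg_right hab (by positivity)
        _ = b ^ 3 := by ring
        _ ≤ β ^ 3 := pow_le_pow_left₀ hb0 hbβ 3
    have h3 : b ^ 4 ≤ β ^ 4 := pow_le_pow_left₀ hb0 hbβ 4
    have h4 : η ^ 12 ≤ η ^ 9 := pow_le_pow_of_le_one hη.le hη1 (by norm_num)
    have h5 : η ^ 16 ≤ η ^ 9 := pow_le_pow_of_le_one hη.le hη1 (by norm_num)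
    have h6 : η ^ 12 * (a * b ^ 2) ≤ η ^ 9 * β ^ 3 := by
      calc η ^ 12 * (a * b ^ 2) ≤ η ^ 12 * β ^ 3 := mul_le_mul_of_nonneg_left h2 (by positivity)
        _ ≤ η ^ 9 * β ^ 3 := mul_le_mul_of_nonneg_right h4 (by positivity)
    have h7 : η ^ 16 * b ^ 4 ≤ η ^ 9 * β ^ 4 := by
      calc η ^ 16 * b ^ 4 ≤ η ^ 16 * β ^ 4 := mul_le_mul_of_nonneg_left h3 (by positivity)
        _ ≤ η ^ 9 * β ^ 4 := mul_le_mul_of_nonneg_right h5 (by positivity)
    rw [h1]
    linarith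
  have hpp : 0 ≤ p * (p + 1) / 2 := by positivity
  have h10 := mul_le_mul_of_nonneg_left hu2 hpp
  have h11 : 0 ≤ p * η ^ 9 * (2 * β ^ 17 + β ^ 18) := by positivity
  have e1 : ‖actM B v‖ ^ 2 / ‖v‖ ^ 2 = b ^ 2 := by rw [hb, div_pow]
  have e2 : (inner ℝ v (actM B v)) ^ 2 / ‖v‖ ^ 4 = a ^ 2 := by
    rw [ha, div_pow]
    congr 1
    ring
  unfold MNz_Q
  rw [e1, e2, ← ha, ← hβ]
  linarith

private theorem MNz_Q_nonneg {N : ℕ} (p K η : ℝ) (hp : 0 < p) (hK : 0 < K)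
    (hη : 0 < η) (hη1 : η ≤ 1) (v : E N) (hv : v ≠ 0)
    (B : EuclideanSpace ℝ (Fin (N * N))) (hB : ¬ η ^ 4 * ‖B‖ ≤ η ^ 3) :
    0 ≤ MNz_Q p K η v B := by
  have hn : 0 < ‖v‖ := norm_pos_iff.2 hv
  set a : ℝ := inner ℝ v (actM B v) / ‖v‖ ^ 2 with ha
  set b : ℝ := ‖actM B v‖ / ‖v‖ with hb
  set β : ℝ := ‖B‖ with hβ
  have hb0 : 0 ≤ b := by positivity
  have hβ0 : 0 ≤ β := norm_nonneg B
  have hbβ : b ≤ β := by
    rw [hb, div_le_iff₀ hn]
    exact MNz_act_le B v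
  have hab : |a| ≤ b := by
    rw [ha, hb, abs_div, abs_of_pos (by positivity : 0 < ‖v‖ ^ 2), div_le_div_iff₀ (by positivity) hn]
    have := abs_real_inner_le_norm v (actM B v)
    calc |inner ℝ v (actM B v)| * ‖v‖ ≤ (‖v‖ * ‖actM B v‖) * ‖v‖ :=
          mul_le_mul_of_nonneg_right this hn.le
      _ = ‖actM B v‖ * ‖v‖ ^ 2 := by ring
  have hη3 : 0 < η ^ 3 := by positivity
  have hβη : 1 ≤ η * β := by
    have h1 : η ^ 3 * 1 < η ^ 3 * (η * β) := by
      calc η ^ 3 * 1 = η ^ 3 := mul_one _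
        _ < η ^ 4 * β := not_le.1 hB
        _ = η ^ 3 * (η * β) := by ring
    exact (lt_of_mul_lt_mul_left h1 hη3.le).le
  have h16 : 1 ≤ η ^ 9 * β ^ 16 := by
    have h1 : 1 ≤ (η * β) ^ 16 := one_le_pow₀ hβη
    have h2 : (η * β) ^ 16 = η ^ 16 * β ^ 16 := by ring
    have h3 : η ^ 16 ≤ η ^ 9 := pow_le_pow_of_le_one hη.le hη1 (by norm_num)
    have h4 : η ^ 16 * β ^ 16 ≤ η ^ 9 * β ^ 16 := mul_le_mul_of_nonneg_right h3 (by positivity)
    linarith
  have h17 : 2 * β + β ^ 2 ≤ η ^ 9 * (2 * β ^ 17 + β ^ 18) := by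
    have h1 : 0 ≤ 2 * β + β ^ 2 := by positivity
    calc 2 * β + β ^ 2 = 1 * (2 * β + β ^ 2) := (one_mul _).symm
      _ ≤ (η ^ 9 * β ^ 16) * (2 * β + β ^ 2) := mul_le_mul_of_nonneg_right h16 h1
      _ = η ^ 9 * (2 * β ^ 17 + β ^ 18) := by ring
  have h4 : η ^ 4 ≤ 1 := pow_le_one₀ hη.le hη1
  have h8 : η ^ 8 ≤ 1 := pow_le_one₀ hη.le hη1
  have hu : 2 * η ^ 4 * a + η ^ 8 * b ^ 2 ≤ 2 * β + β ^ 2 := by
    have h1 : 2 * η ^ 4 * a ≤ 2 * β := by
      calc 2 * η ^ 4 * a ≤ 2 * η ^ 4 * |a| :=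
            mul_le_mul_of_nonneg_left (le_abs_self a) (by positivity)
        _ ≤ 2 * η ^ 4 * β := mul_le_mul_of_nonneg_left (hab.trans hbβ) (by positivity)
        _ ≤ 2 * 1 * β := by
            refine mul_le_mul_of_nonneg_right ?_ hβ0
            linarith
        _ = 2 * β := by ring
    have h2 : η ^ 8 * b ^ 2 ≤ β ^ 2 := by
      calc η ^ 8 * b ^ 2 ≤ 1 * b ^ 2 := mul_le_mul_of_nonneg_right h8 (by positivity)
        _ = b ^ 2 := one_mul _
        _ ≤ β ^ 2 := pow_le_pow_left₀ hb0 hbβ 2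
    linarith
  have e1 : ‖actM B v‖ ^ 2 / ‖v‖ ^ 2 = b ^ 2 := by rw [hb, div_pow]
  have h5 := mul_le_mul_of_nonneg_left (hu.trans h17) hp.le
  have h6 : 0 ≤ p * (p + 1) / 2 * (4 * η ^ 8 * ((inner ℝ v (actM B v)) ^ 2 / ‖v‖ ^ 4) +
      η ^ 9 * (4 * β ^ 3 + β ^ 4)) := by positivity
  have h7 : 0 ≤ 27 * K * η ^ 9 := by positivity
  unfold MNz_Q
  rw [e1, ← ha, ← hβ]
  linarith

private theorem MNz_neg_aux (N : ℕ) (r ε : ℝ) (hr : 0 < r) (hε : 0 < ε) :
    ∃ h0 : ℝ, 0 < h0 ∧ ∀ h, 0 < h → h < h0 → ∀ v : E N, v ≠ 0 →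
      ∫⁻ B in {B : EuclideanSpace ℝ (Fin (N * N)) | Real.sqrt h * ‖B‖ ≤ h ^ (3 / 8 : ℝ)},
        ENNReal.ofReal (‖v + Real.sqrt h • actM B v‖ ^ (-r))
          ∂(stdGaussian (EuclideanSpace ℝ (Fin (N * N)))) ≤
        ENNReal.ofReal ((1 + (-(lamN N * r) + r ^ 2 / 2 + ε) * h) * ‖v‖ ^ (-r)) := by
  obtain ⟨K, u0, hK, hu0, hu2, hKu⟩ := MNz_pw (r / 2) (by positivity)
  obtain ⟨γ, hγ⟩ : ∃ γ : Measure (EuclideanSpace ℝ (Fin (N * N))),
      γ = stdGaussian (EuclideanSpace ℝ (Fin (N * N))) := ⟨_, rfl⟩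
  obtain ⟨K', hK'⟩ : ∃ K' : ℝ, K' = r / 2 * (r / 2 + 1) / 2 *
      (4 * ∫ B : EuclideanSpace ℝ (Fin (N * N)), ‖B‖ ^ 3 ∂γ +
      ∫ B : EuclideanSpace ℝ (Fin (N * N)), ‖B‖ ^ 4 ∂γ) + 27 * K +
    r / 2 * (2 * ∫ B : EuclideanSpace ℝ (Fin (N * N)), ‖B‖ ^ 17 ∂γ +
      ∫ B : EuclideanSpace ℝ (Fin (N * N)), ‖B‖ ^ 18 ∂γ) := ⟨_, rfl⟩
  have hK'0 : 0 ≤ K' := by
    rw [hK']
    have i3 : 0 ≤ ∫ B : EuclideanSpace ℝ (Fin (N * N)), ‖B‖ ^ 3 ∂γ :=
      integral_nonneg fun B => by positivity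
    have i4 : 0 ≤ ∫ B : EuclideanSpace ℝ (Fin (N * N)), ‖B‖ ^ 4 ∂γ :=
      integral_nonneg fun B => by positivity
    have i17 : 0 ≤ ∫ B : EuclideanSpace ℝ (Fin (N * N)), ‖B‖ ^ 17 ∂γ :=
      integral_nonneg fun B => by positivity
    have i18 : 0 ≤ ∫ B : EuclideanSpace ℝ (Fin (N * N)), ‖B‖ ^ 18 ∂γ :=
      integral_nonneg fun B => by positivity
    positivity
  have hK1 : 0 < K' + 1 := by linarith
  obtain ⟨η0, hη0⟩ : ∃ η0 : ℝ, η0 = min 1 (min (ε / (K' + 1)) (u0 / 3)) := ⟨_, rfl⟩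
  have hη0p : 0 < η0 := by
    rw [hη0]
    exact lt_min one_pos (lt_min (div_pos hε hK1) (by positivity))
  refine ⟨η0 ^ 8, by positivity, fun h hh hlt v hv => ?_⟩
  obtain ⟨η, hη⟩ : ∃ η : ℝ, η = h ^ (1 / 8 : ℝ) := ⟨_, rfl⟩
  have hηp : 0 < η := by
    rw [hη]
    exact Real.rpow_pos_of_pos hh _
  have hη8 : η ^ 8 = h := by
    rw [hη, ← Real.rpow_natCast, ← Real.rpow_mul hh.le]
    norm_num
  have hηlt : η < η0 := by
    rw [← hη8] at hlt
    exact lt_of_pow_lt_pow_left₀ 8 hη0p.le hlt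
  rw [hη0] at hηlt
  have hη1 : η ≤ 1 := hηlt.le.trans (min_le_left _ _)
  have hηε : η * K' ≤ ε := by
    have h1 : η ≤ ε / (K' + 1) := hηlt.le.trans ((min_le_right _ _).trans (min_le_left _ _))
    have h2 : η * (K' + 1) ≤ ε := (le_div_iff₀ hK1).1 h1
    nlinarith
  have hηu : 3 * η ≤ u0 := by
    have h1 : η ≤ u0 / 3 := hηlt.le.trans ((min_le_right _ _).trans (min_le_right _ _))
    linarith
  have hsq : Real.sqrt h = η ^ 4 := by
    rw [← hη8]
    have : η ^ 8 = (η ^ 4) ^ 2 := by ring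
    rw [this, Real.sqrt_sq (by positivity)]
  have h38 : h ^ (3 / 8 : ℝ) = η ^ 3 := by
    rw [hη, ← Real.rpow_natCast, ← Real.rpow_mul hh.le]
    norm_num
  have hn : 0 < ‖v‖ := norm_pos_iff.2 hv
  have h2p : -r = -(2 * (r / 2)) := by ring
  have hgd : MeasurableSet {B : EuclideanSpace ℝ (Fin (N * N)) |
      Real.sqrt h * ‖B‖ ≤ h ^ (3 / 8 : ℝ)} :=
    measurableSet_le (measurable_norm.const_mul _) measurable_const
  have hQ0 : ∀ B, 0 ≤ MNz_Q (r / 2) K η v B := by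
    intro B
    by_cases hB : η ^ 4 * ‖B‖ ≤ η ^ 3
    · have h1 := MNz_Q_le (r / 2) K u0 η (by positivity) hK hu2 hKu hηp hη1 hηu v hv B hB
      have h2 : 0 ≤ ‖v + η ^ 4 • actM B v‖ ^ (-(2 * (r / 2))) := Real.rpow_nonneg (norm_nonneg _) _
      have h3 : 0 < ‖v‖ ^ (-(2 * (r / 2))) := Real.rpow_pos_of_pos hn _
      exact nonneg_of_mul_nonneg_left (h2.trans h1) h3
    · exact MNz_Q_nonneg (r / 2) K η (by positivity) hK hηp hη1 v hv B hB
  have hQi := MNz_Q_int (r / 2) K η v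
  rw [← hγ] at hQi ⊢
  calc ∫⁻ B in {B : EuclideanSpace ℝ (Fin (N * N)) | Real.sqrt h * ‖B‖ ≤ h ^ (3 / 8 : ℝ)},
        ENNReal.ofReal (‖v + Real.sqrt h • actM B v‖ ^ (-r)) ∂γ
      ≤ ∫⁻ B in {B : EuclideanSpace ℝ (Fin (N * N)) | Real.sqrt h * ‖B‖ ≤ h ^ (3 / 8 : ℝ)},
        ENNReal.ofReal (MNz_Q (r / 2) K η v B * ‖v‖ ^ (-r)) ∂γ := by
        refine setLIntegral_mono' hgd fun B hB => ENNReal.ofReal_le_ofReal ?_
        have hB' : η ^ 4 * ‖B‖ ≤ η ^ 3 := by
          have h1 : Real.sqrt h * ‖B‖ ≤ h ^ (3 / 8 : ℝ) := hB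
          rwa [hsq, h38] at h1
        have h1 := MNz_Q_le (r / 2) K u0 η (by positivity) hK hu2 hKu hηp hη1 hηu v hv B hB'
        rw [hsq, h2p]
        exact h1
    _ ≤ ∫⁻ ω, ENNReal.ofReal (MNz_Q (r / 2) K η v ω * ‖v‖ ^ (-r)) ∂γ :=
        setLIntegral_le_lintegral _ _
    _ = ENNReal.ofReal (∫ ω, MNz_Q (r / 2) K η v ω * ‖v‖ ^ (-r) ∂γ) := by
        rw [ofReal_integral_eq_lintegral_ofReal (hQi.mul_const _)
          (Filter.Eventually.of_forall fun B => mul_nonneg (hQ0 B) (Real.rpow_nonneg hn.le _))]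
    _ ≤ ENNReal.ofReal ((1 + (-(lamN N * r) + r ^ 2 / 2 + ε) * h) * ‖v‖ ^ (-r)) := by
        refine ENNReal.ofReal_le_ofReal ?_
        rw [integral_mul_const]
        refine mul_le_mul_of_nonneg_right ?_ (Real.rpow_nonneg hn.le _)
        have hval := MNz_Q_val (r / 2) K η v hv
        rw [← hγ, ← hK'] at hval
        rw [hval]
        have h1 : η ^ 9 * K' ≤ η ^ 8 * ε := by
          calc η ^ 9 * K' = η ^ 8 * (η * K') := by ring
            _ ≤ η ^ 8 * ε := mul_le_mul_of_nonneg_left hηε (by positivity)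
        rw [hη8] at h1 ⊢
        unfold lamN
        nlinarith

/-- negative moments of the matrix noise -/
theorem mn3_neg (N : ℕ) (hN : 1 ≤ N) (r ε : ℝ) (hr : 0 < r) (hε : 0 < ε) :
    ∃ h0 : ℝ, 0 < h0 ∧ ∀ h, 0 < h → h < h0 → ∀ v : E N, v ≠ 0 →
      ∫⁻ ω in (MN3 N hN).gd h, ENNReal.ofReal (‖(MN3 N hN).A h ω v‖ ^ (-r)) ∂((MN3 N hN).γ) ≤
        ENNReal.ofReal ((1 + (-(lamN N * r) + r ^ 2 / 2 + ε) * h) * ‖v‖ ^ (-r)) := by
  obtain ⟨h0, hp, h1⟩ := MNz_neg_aux N r ε hr hε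
  refine ⟨h0, hp, fun h hh hlt v hv => ?_⟩
  exact h1 h hh hlt v hv

private theorem MNz_meas_traj {St X : Type} [MeasurableSpace St] [MeasurableSpace X]
    (f : St → X → St) (hf : Measurable fun p : St × X => f p.1 p.2) :
    Measurable fun p : St × (ℕ → X) => traj f p.1 p.2 := by
  refine measurable_pi_lambda _ fun n => ?_
  induction n with
  | zero => exact measurable_fst
  | succ n ih =>
    show Measurable fun p : St × (ℕ → X) => f (traj f p.1 p.2 n) (p.2 n)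
    exact hf.comp (ih.prodMk ((measurable_pi_apply n).comp measurable_snd))

private def MNz_cons {X : Type} (a : X) (ω : ℕ → X) : ℕ → X := fun i => Nat.casesOn i a ω

private theorem MNz_meas_cons {X : Type} [MeasurableSpace X] :
    Measurable (fun p : X × (ℕ → X) => MNz_cons p.1 p.2) := by
  rw [measurable_pi_iff]
  intro i
  cases i with
  | zero => exact measurable_fst
  | succ i => exact (measurable_pi_apply i).comp measurable_snd

private theorem MNz_traj_cons {St X : Type} (f : St → X → St) (s : St) (a : X) (ω : ℕ → X) :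
    traj f s (MNz_cons a ω) = MNz_cons s (traj f (f s a) ω) := by
  funext n
  induction n with
  | zero => rfl
  | succ n ih =>
    show f (traj f s (MNz_cons a ω) n) (MNz_cons a ω n) = traj f (f s a) ω n
    rw [ih]
    cases n with
    | zero => rfl
    | succ n => rfl

/-- equal kernels give equal laws of trajectories -/
theorem traj_law {St X1 X2 : Type} [MeasurableSpace St] [MeasurableSpace X1] [MeasurableSpace X2]
    (μ1 : Measure X1) [IsProbabilityMeasure μ1] (μ2 : Measure X2) [IsProbabilityMeasure μ2]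
    (f1 : St → X1 → St) (f2 : St → X2 → St)
    (h1 : Measurable fun p : St × X1 => f1 p.1 p.2) (h2 : Measurable fun p : St × X2 => f2 p.1 p.2)
    (h : ∀ s, μ1.map (f1 s) = μ2.map (f2 s)) (n : ℕ) (Φ : (ℕ → St) → ℝ≥0∞) (hΦ : Measurable Φ)
    (hd : Dep n Φ) (s : St) :
    ∫⁻ ω, Φ (traj f1 s ω) ∂(PI μ1) = ∫⁻ ω, Φ (traj f2 s ω) ∂(PI μ2) := by
  induction n generalizing Φ s with
  | zero =>
    have h3 : ∀ a b : ℕ → St, Φ a = Φ b := fun a b => hd a b (by intro i hi; omega)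
    have e1 : ∀ ω : ℕ → X1, Φ (traj f1 s ω) = Φ fun _ => s := fun ω => h3 _ _
    have e2 : ∀ ω : ℕ → X2, Φ (traj f2 s ω) = Φ fun _ => s := fun ω => h3 _ _
    rw [lintegral_congr e1, lintegral_congr e2, lintegral_const, lintegral_const, measure_univ,
      measure_univ]
  | succ n ih =>
    have m1 : Measurable fun ω : ℕ → X1 => Φ (traj f1 s ω) :=
      hΦ.comp ((MNz_meas_traj f1 h1).comp (measurable_const.prodMk measurable_id))
    have m2 : Measurable fun ω : ℕ → X2 => Φ (traj f2 s ω) :=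
      hΦ.comp ((MNz_meas_traj f2 h2).comp (measurable_const.prodMk measurable_id))
    rw [lintegral_cons _ m1, lintegral_cons _ m2]
    change ∫⁻ a, ∫⁻ ω, Φ (traj f1 s (MNz_cons a ω)) ∂(PI μ1) ∂μ1 =
      ∫⁻ a, ∫⁻ ω, Φ (traj f2 s (MNz_cons a ω)) ∂(PI μ2) ∂μ2
    simp only [MNz_traj_cons]
    have mΦ : Measurable fun τ : ℕ → St => Φ (MNz_cons s τ) :=
      hΦ.comp (MNz_meas_cons.comp (measurable_const.prodMk measurable_id))
    have dΦ : Dep n fun τ : ℕ → St => Φ (MNz_cons s τ) := by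
      intro a b hab
      refine hd _ _ fun i hi => ?_
      cases i with
      | zero => rfl
      | succ i => exact hab i (by omega)
    have key : ∀ s' : St, ∫⁻ ω, Φ (MNz_cons s (traj f1 s' ω)) ∂(PI μ1) =
        ∫⁻ ω, Φ (MNz_cons s (traj f2 s' ω)) ∂(PI μ2) := fun s' =>
      ih (fun τ => Φ (MNz_cons s τ)) mΦ dΦ s'
    have mΨ : Measurable fun s' : St =>
        ∫⁻ ω, Φ (MNz_cons s (traj f2 s' ω)) ∂(PI μ2) :=
      Measurable.lintegral_prod_right'
        (f := fun p : St × (ℕ → X2) => Φ (MNz_cons s (traj f2 p.1 p.2)))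
        (mΦ.comp (MNz_meas_traj f2 h2))
    calc ∫⁻ a, ∫⁻ ω, Φ (MNz_cons s (traj f1 (f1 s a) ω)) ∂(PI μ1) ∂μ1
        = ∫⁻ a, ∫⁻ ω, Φ (MNz_cons s (traj f2 (f1 s a) ω)) ∂(PI μ2) ∂μ1 :=
          lintegral_congr fun a => key (f1 s a)
      _ = ∫⁻ s', ∫⁻ ω, Φ (MNz_cons s (traj f2 s' ω)) ∂(PI μ2) ∂(μ1.map (f1 s)) :=
          (lintegral_map mΨ (h1.comp (measurable_const.prodMk measurable_id))).symm
      _ = ∫⁻ s', ∫⁻ ω, Φ (MNz_cons s (traj f2 s' ω)) ∂(PI μ2) ∂(μ2.map (f2 s)) := by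
          rw [h s]
      _ = ∫⁻ a, ∫⁻ ω, Φ (MNz_cons s (traj f2 (f2 s a) ω)) ∂(PI μ2) ∂μ2 :=
          lintegral_map mΨ (h2.comp (measurable_const.prodMk measurable_id))

end DynC
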