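import Pool.Agent.Lib_MP_36b788c.Tilt
import Pool.Agent.Lib_MP_36b788c.ItG
import Pool.Agent.Lib_MP_36b788c.MNz
import Pool.Agent.Lib_MP_36b788c.Reg2

/-!
# The bridge: definitions and elementary facts

Two fields `G.1`, `G.2` (`N = 2`); during `ns` steps the second one gets the extra noise `ctl` at the sites of the ball `Bs`, which removes the logarithmic difference `δ z = log (G.2 z/G.1 z)`: `√h ctl = -δ/(ns + 1 - j)`, as long as the current state is regular (`RegSt`).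

PROOF.
* `bst_fst`, `bst_snd`: induction on `n`.
* `measurable_bst`: `RegSt` is a finite conjunction of closed or measurable conditions (`Complex.log` is measurable). `dep_vct` from `dep_trajT`.
* `lamS_sum`: `Σ_{j<ns} lamS ns j = Σ_{i<ns} (ns-1-i)/(ns-i) ≤ ns`. `lamS_le`: each of the `j` terms is `≤ 1/(ns-j+1)`; `lamS ns j ≤ 1 + log (ns+1)` (harmonic sum). `lamS_sq`: `lamS ns j ≤ 1 + log(ns/(ns-j))` for `j < ns`, `(1 + log x)² ≤ 4 √x` for `x ≥ 1`, `Σ_{j<ns} √(ns/(ns-j)) ≤ 2 ns`; constant `40` is generous (any proof of `Σ lamS² ≤ 20 ns` will do).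
* `ctl_le`: `√h ‖ctl‖ ≤ bd j/(ns+1-j)`. `energy`: `Σ_z ‖ctl‖² ≤ (2Rb+1)^d (m0/(ns+1) + ς lamS)²/h`, `(a+b)² ≤ 2a²+2b²`.
-/

open MeasureTheory ProbabilityTheory
open scoped ENNReal

namespace DynC

open Dyn

/-- parameters of a bridge -/
structure BPar (d L : ℕ) where
  y : boxS d L
  Rb : ℕ
  ns : ℕ
  κ : ℝ
  M6 : ℝ
  M8 : ℝ
  A0 : ℝ
  m0 : ℝ
  ς : ℝ

noncomputable def lamS (ns j : ℕ) : ℝ := ∑ i ∈ Finset.range j, 1 / ((ns : ℝ) - i)

variable {d L : ℕ}

/-- bound of the logarithmic difference at time `j` -/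
noncomputable def BPar.bd (P : BPar d L) (j : ℕ) : ℝ :=
  (P.m0 / (P.ns + 1) + P.ς * lamS P.ns j) * (P.ns + 1 - j)

/-- the ball -/
def BPar.Bs (P : BPar d L) (z : boxS d L) : Prop := (boxNet d L).dist P.y z ≤ P.Rb

/-- regular states at time `j` -/
def BPar.RegSt (P : BPar d L) (k : ℝ) (j : ℕ) (G : (boxS d L → ℂ) × (boxS d L → ℂ)) : Prop :=
  (∀ z, P.Bs z → G.1 z ≠ 0 ∧ G.2 z ≠ 0 ∧ ‖Complex.log (G.2 z / G.1 z)‖ ≤ P.bd j ∧
    k ^ (P.M6 + 1) ≤ ‖G.1 z‖ ∧ ‖G.1 z‖ ≤ k ^ (P.κ / 2) ∧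
    k ^ (P.M6 + 1) ≤ ‖G.2 z‖ ∧ ‖G.2 z‖ ≤ k ^ (P.κ / 2) ∧
    ∀ v ∈ (boxNet d L).nb z, k * ‖G.1 v‖ ≤ k ^ (P.κ / 2) * ‖G.1 z‖ ∧
      k * ‖G.2 v‖ ≤ k ^ (P.κ / 2) * ‖G.2 z‖) ∧
  ∀ v, ‖G.1 v - G.2 v‖ ≤ P.A0 * k ^ (-P.M8 + (boxNet d L).dist P.y v / 2)

/-- control -/
noncomputable def BPar.ctl (P : BPar d L) (k h : ℝ) (j : ℕ)
    (G : (boxS d L → ℂ) × (boxS d L → ℂ)) (z : boxS d L) : ℂ := open Classical in
  if P.Bs z ∧ j < P.ns ∧ P.RegSt k j G then
    -Complex.log (G.2 z / G.1 z) / ((Real.sqrt h * (P.ns + 1 - j) : ℝ) : ℂ)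
  else 0

/-- step of the controlled pair -/
noncomputable def BPar.bst (P : BPar d L) (β k h : ℝ) (j : ℕ)
    (G : (boxS d L → ℂ) × (boxS d L → ℂ)) (ξ : boxS d L → ℂ) :
    (boxS d L → ℂ) × (boxS d L → ℂ) :=
  (st2 d β k h L G.1 ξ, st2 d β k h L G.2 (fun z => ξ z + P.ctl k h j G z))

/-- the control as an adapted shift -/
noncomputable def BPar.vct (P : BPar d L) (β k h : ℝ) (G : (boxS d L → ℂ) × (boxS d L → ℂ))
    (j : ℕ) (ω : ℕ → boxS d L → ℂ) : boxS d L → ℂ :=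
  P.ctl k h j (trajT (P.bst β k h) G ω j)

private theorem Brg0_meas_ge {X : Type} [MeasurableSpace X] {f g : X → ℝ} (hf : Measurable f)
    (hg : Measurable g) : MeasurableSet {x | f x ≤ g x} := measurableSet_le hf hg

private theorem Brg0_meas_log {X : Type} [MeasurableSpace X] {f g : X → ℂ} (hf : Measurable f)
    (hg : Measurable g) : Measurable fun x => Complex.log (f x / g x) :=
  (hf.div hg).clog

private theorem Brg0_meas_RegSt (P : BPar d L) (k : ℝ) (j : ℕ) :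
    MeasurableSet {G : (boxS d L → ℂ) × (boxS d L → ℂ) | P.RegSt k j G} := by
  have m1 : ∀ z : boxS d L,
      Measurable fun G : (boxS d L → ℂ) × (boxS d L → ℂ) => G.1 z :=
    fun z => (measurable_pi_apply z).comp measurable_fst
  have m2 : ∀ z : boxS d L,
      Measurable fun G : (boxS d L → ℂ) × (boxS d L → ℂ) => G.2 z :=
    fun z => (measurable_pi_apply z).comp measurable_snd
  have e : {G : (boxS d L → ℂ) × (boxS d L → ℂ) | P.RegSt k j G} =
      (⋂ z : boxS d L, ⋂ (_ : P.Bs z),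
        ({G : (boxS d L → ℂ) × (boxS d L → ℂ) | G.1 z ≠ 0} ∩
        ({G | G.2 z ≠ 0} ∩ ({G | ‖Complex.log (G.2 z / G.1 z)‖ ≤ P.bd j} ∩
        ({G | k ^ (P.M6 + 1) ≤ ‖G.1 z‖} ∩ ({G | ‖G.1 z‖ ≤ k ^ (P.κ / 2)} ∩
        ({G | k ^ (P.M6 + 1) ≤ ‖G.2 z‖} ∩ ({G | ‖G.2 z‖ ≤ k ^ (P.κ / 2)} ∩
        (⋂ v : boxS d L, ⋂ (_ : v ∈ (boxNet d L).nb z),
          ({G | k * ‖G.1 v‖ ≤ k ^ (P.κ / 2) * ‖G.1 z‖} ∩
            {G | k * ‖G.2 v‖ ≤ k ^ (P.κ / 2) * ‖G.2 z‖}))))))))))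
      ∩ (⋂ v : boxS d L,
        {G | ‖G.1 v - G.2 v‖ ≤ P.A0 * k ^ (-P.M8 + (boxNet d L).dist P.y v / 2)}) := by
    ext G
    simp only [BPar.RegSt, Set.mem_ofPred_eq, Set.mem_inter_iff, Set.mem_iInter]
  rw [e]
  refine MeasurableSet.inter ?_ ?_
  · refine MeasurableSet.iInter fun z => MeasurableSet.iInter fun _ => ?_
    refine MeasurableSet.inter ((measurableSet_singleton (0 : ℂ)).compl.preimage (m1 z)) ?_
    refine MeasurableSet.inter ((measurableSet_singleton (0 : ℂ)).compl.preimage (m2 z)) ?_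
    refine MeasurableSet.inter
      (measurableSet_le (Brg0_meas_log (m2 z) (m1 z)).norm measurable_const) ?_
    refine MeasurableSet.inter (measurableSet_le measurable_const (m1 z).norm) ?_
    refine MeasurableSet.inter (measurableSet_le (m1 z).norm measurable_const) ?_
    refine MeasurableSet.inter (measurableSet_le measurable_const (m2 z).norm) ?_
    refine MeasurableSet.inter (measurableSet_le (m2 z).norm measurable_const) ?_
    refine MeasurableSet.iInter fun v => MeasurableSet.iInter fun _ => ?_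
    exact MeasurableSet.inter
      (measurableSet_le ((m1 v).norm.const_mul _) ((m1 z).norm.const_mul _))
      (measurableSet_le ((m2 v).norm.const_mul _) ((m2 z).norm.const_mul _))
  · exact MeasurableSet.iInter fun v =>
      measurableSet_le ((m1 v).sub (m2 v)).norm measurable_const

theorem measurable_ctl (P : BPar d L) (k h : ℝ) (j : ℕ) :
    Measurable (fun G : (boxS d L → ℂ) × (boxS d L → ℂ) => P.ctl k h j G) := by
  refine measurable_pi_lambda _ fun z => ?_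
  have m1 : Measurable fun G : (boxS d L → ℂ) × (boxS d L → ℂ) => G.1 z :=
    (measurable_pi_apply z).comp measurable_fst
  have m2 : Measurable fun G : (boxS d L → ℂ) × (boxS d L → ℂ) => G.2 z :=
    (measurable_pi_apply z).comp measurable_snd
  unfold BPar.ctl
  refine Measurable.ite ?_ ?_ measurable_const
  · have e : {G : (boxS d L → ℂ) × (boxS d L → ℂ) | P.Bs z ∧ j < P.ns ∧ P.RegSt k j G} =
        {_G | P.Bs z} ∩ ({_G | j < P.ns} ∩ {G | P.RegSt k j G}) := by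
      ext G
      rfl
    rw [e]
    exact (MeasurableSet.const _).inter ((MeasurableSet.const _).inter (Brg0_meas_RegSt P k j))
  · exact (Brg0_meas_log m2 m1).neg.div_const _

theorem measurable_bst (P : BPar d L) (β k h : ℝ) (j : ℕ) :
    Measurable fun p : ((boxS d L → ℂ) × (boxS d L → ℂ)) × (boxS d L → ℂ) =>
      P.bst β k h j p.1 p.2 := by
  have a1 : Measurable fun p : ((boxS d L → ℂ) × (boxS d L → ℂ)) × (boxS d L → ℂ) =>
      (p.1.1, p.2) := (measurable_fst.comp measurable_fst).prodMk measurable_snd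
  have a2 : Measurable fun p : ((boxS d L → ℂ) × (boxS d L → ℂ)) × (boxS d L → ℂ) =>
      (fun z => p.2 z + P.ctl k h j p.1 z) := by
    refine measurable_pi_lambda _ fun z => ?_
    have b1 : Measurable fun p : ((boxS d L → ℂ) × (boxS d L → ℂ)) × (boxS d L → ℂ) => p.2 z :=
      (measurable_pi_apply z).comp measurable_snd
    have b2 : Measurable fun p : ((boxS d L → ℂ) × (boxS d L → ℂ)) × (boxS d L → ℂ) =>
        P.ctl k h j p.1 z := by
      have b3 : Measurable fun p : ((boxS d L → ℂ) × (boxS d L → ℂ)) × (boxS d L → ℂ) =>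
        P.ctl k h j p.1 := (measurable_ctl P k h j).comp measurable_fst
      exact (measurable_pi_apply z).comp b3
    exact b1.add b2
  have a3 : Measurable fun p : ((boxS d L → ℂ) × (boxS d L → ℂ)) × (boxS d L → ℂ) =>
      (p.1.2, fun z => p.2 z + P.ctl k h j p.1 z) :=
    (measurable_snd.comp measurable_fst).prodMk a2
  have c1 := (measurable_st2 d β k h L).comp a1
  have c2 := (measurable_st2 d β k h L).comp a3
  exact c1.prodMk c2

theorem measurable_vct (P : BPar d L) (β k h : ℝ) (G : (boxS d L → ℂ) × (boxS d L → ℂ)) (j : ℕ) :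
    Measurable (P.vct β k h G j) := by
  unfold BPar.vct
  exact (measurable_ctl P k h j).comp
    ((measurable_trajT (P.bst β k h) (fun j => measurable_bst P β k h j) j).comp
      (measurable_const.prodMk measurable_id))

theorem dep_vct (P : BPar d L) (β k h : ℝ) (G : (boxS d L → ℂ) × (boxS d L → ℂ)) (j : ℕ) :
    Dep j (P.vct β k h G j) := by
  intro a b hab
  unfold BPar.vct
  have h1 : trajT (P.bst β k h) G a j = trajT (P.bst β k h) G b j :=
    dep_trajT (P.bst β k h) G j a b hab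
  rw [h1]

theorem vct_zero (P : BPar d L) (β k h : ℝ) (G : (boxS d L → ℂ) × (boxS d L → ℂ)) (j : ℕ)
    (hj : P.ns ≤ j) (ω : ℕ → boxS d L → ℂ) : P.vct β k h G j ω = 0 := by
  funext z
  unfold BPar.vct BPar.ctl
  rw [if_neg (fun h1 => absurd h1.2.1 (not_lt.mpr hj))]
  rfl

theorem vct_out (P : BPar d L) (β k h : ℝ) (G : (boxS d L → ℂ) × (boxS d L → ℂ)) (j : ℕ)
    (ω : ℕ → boxS d L → ℂ) (z : boxS d L) (hz : ¬ P.Bs z) : P.vct β k h G j ω z = 0 := by
  unfold BPar.vct BPar.ctl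
  rw [if_neg (fun h1 => hz h1.1)]

theorem bst_fst (P : BPar d L) (β k h : ℝ) (G : (boxS d L → ℂ) × (boxS d L → ℂ))
    (ω : ℕ → boxS d L → ℂ) (n : ℕ) :
    (trajT (P.bst β k h) G ω n).1 = traj (st2 d β k h L) G.1 ω n := by
  induction n with
  | zero => rfl
  | succ n ih =>
    show st2 d β k h L (trajT (P.bst β k h) G ω n).1 (ω n) =
      st2 d β k h L (traj (st2 d β k h L) G.1 ω n) (ω n)
    rw [ih]

theorem bst_snd (P : BPar d L) (β k h : ℝ) (G : (boxS d L → ℂ) × (boxS d L → ℂ))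
    (ω : ℕ → boxS d L → ℂ) (n : ℕ) :
    (trajT (P.bst β k h) G ω n).2 = traj (st2 d β k h L) G.2 (shft (P.vct β k h G) ω) n := by
  induction n with
  | zero => rfl
  | succ n ih =>
    show st2 d β k h L (trajT (P.bst β k h) G ω n).2
        (fun z => ω n z + P.ctl k h n (trajT (P.bst β k h) G ω n) z) =
      st2 d β k h L (traj (st2 d β k h L) G.2 (shft (P.vct β k h G) ω) n)
        (shft (P.vct β k h G) ω n)
    rw [ih]
    rfl

private theorem Brg0_exch (f : ℕ → ℝ) (m : ℕ) :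
    ∑ j ∈ Finset.range m, ∑ i ∈ Finset.range j, f i =
      ∑ i ∈ Finset.range m, ((m : ℝ) - 1 - i) * f i := by
  induction m with
  | zero => simp
  | succ m ih =>
    rw [Finset.sum_range_succ, ih, Finset.sum_range_succ, ← Finset.sum_add_distrib]
    have h0 : (((m + 1 : ℕ) : ℝ) - 1 - m) * f m = 0 := by
      push_cast
      ring
    rw [h0, add_zero]
    refine Finset.sum_congr rfl fun i _ => ?_
    push_cast
    ring

private theorem Brg0_pos (ns i : ℕ) (h : i < ns) : 0 < (ns : ℝ) - i := by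
  have : (i : ℝ) < ns := by exact_mod_cast h
  linarith

private theorem Brg0_lamS_nonneg (ns j : ℕ) (hj : j ≤ ns) : 0 ≤ lamS ns j := by
  unfold lamS
  refine Finset.sum_nonneg fun i hi => ?_
  have h1 := Brg0_pos ns i ((Finset.mem_range.1 hi).trans_le hj)
  positivity

theorem lamS_sum (ns : ℕ) : ∑ j ∈ Finset.range ns, lamS ns j ≤ ns := by
  unfold lamS
  rw [Brg0_exch]
  have h1 : ∀ i ∈ Finset.range ns, ((ns : ℝ) - 1 - i) * (1 / ((ns : ℝ) - i)) ≤ 1 := by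
    intro i hi
    have h2 := Brg0_pos ns i (Finset.mem_range.1 hi)
    rw [mul_one_div, div_le_one h2]
    linarith
  calc ∑ i ∈ Finset.range ns, ((ns : ℝ) - 1 - i) * (1 / ((ns : ℝ) - i))
      ≤ ∑ i ∈ Finset.range ns, (1 : ℝ) := Finset.sum_le_sum h1
    _ = ns := by simp

theorem lamS_le (ns j : ℕ) (hj : j ≤ ns) : 0 ≤ lamS ns j ∧ lamS ns j ≤ 1 + Real.log (ns + 1) := by
  refine ⟨Brg0_lamS_nonneg ns j hj, ?_⟩
  have h1 : lamS ns j ≤ lamS ns ns := by
    unfold lamS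
    refine Finset.sum_le_sum_of_subset_of_nonneg (Finset.range_mono hj) fun i hi _ => ?_
    have h1 := Brg0_pos ns i (Finset.mem_range.1 hi)
    positivity
  have h2 : lamS ns ns = ((harmonic ns : ℚ) : ℝ) := by
    unfold lamS harmonic
    rw [← Finset.sum_range_reflect]
    push_cast
    refine Finset.sum_congr rfl fun i hi => ?_
    have h3 := Finset.mem_range.1 hi
    have h4 : ((ns - 1 - i : ℕ) : ℝ) = (ns : ℝ) - 1 - i := by
      rw [Nat.sub_sub, Nat.cast_sub (by omega)]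
      push_cast
      ring
    rw [h4, one_div]
    congr 1
    ring
  have h3 : ((harmonic ns : ℚ) : ℝ) ≤ 1 + Real.log ns := harmonic_le_one_add_log ns
  have h4 : Real.log ns ≤ Real.log (ns + 1) := by
    rcases Nat.eq_zero_or_pos ns with h0 | h0
    · subst h0
      simp
    · exact Real.log_le_log (by exact_mod_cast h0) (by linarith)
  linarith

theorem lamS_sq (ns : ℕ) : ∑ j ∈ Finset.range ns, lamS ns j ^ 2 ≤ 20 * ns := by
  have h1 : ∀ j, lamS ns j ^ 2 = ∑ i ∈ Finset.range j,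
      (2 * lamS ns i * (1 / ((ns : ℝ) - i)) + (1 / ((ns : ℝ) - i)) ^ 2) := by
    intro j
    induction j with
    | zero => simp [lamS]
    | succ j ih =>
      rw [Finset.sum_range_succ, ← ih]
      have h2 : lamS ns (j + 1) = lamS ns j + 1 / ((ns : ℝ) - j) := by
        unfold lamS
        rw [Finset.sum_range_succ]
      rw [h2]
      ring
  simp_rw [h1]
  rw [Brg0_exch]
  have h2 : ∀ i ∈ Finset.range ns, ((ns : ℝ) - 1 - i) *
      (2 * lamS ns i * (1 / ((ns : ℝ) - i)) + (1 / ((ns : ℝ) - i)) ^ 2) ≤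
      2 * lamS ns i + 1 := by
    intro i hi
    have h3 := Brg0_pos ns i (Finset.mem_range.1 hi)
    have h4 := Brg0_lamS_nonneg ns i (Finset.mem_range.1 hi).le
    have h5 : 1 ≤ (ns : ℝ) - i := by
      have : ((i + 1 : ℕ) : ℝ) ≤ ns := by exact_mod_cast Finset.mem_range.1 hi
      push_cast at this
      linarith
    have h6 : ((ns : ℝ) - 1 - i) * (1 / ((ns : ℝ) - i)) ≤ 1 := by
      rw [mul_one_div, div_le_one h3]
      linarith
    have h6' : 0 ≤ ((ns : ℝ) - 1 - i) * (1 / ((ns : ℝ) - i)) := by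
      have : 0 ≤ (ns : ℝ) - 1 - i := by linarith
      positivity
    have h7 : 1 / ((ns : ℝ) - i) ≤ 1 := by
      rw [div_le_one h3]
      exact h5
    have h8 : 0 ≤ 1 / ((ns : ℝ) - i) := by positivity
    calc ((ns : ℝ) - 1 - i) *
          (2 * lamS ns i * (1 / ((ns : ℝ) - i)) + (1 / ((ns : ℝ) - i)) ^ 2)
        = (((ns : ℝ) - 1 - i) * (1 / ((ns : ℝ) - i))) * (2 * lamS ns i) +
          (((ns : ℝ) - 1 - i) * (1 / ((ns : ℝ) - i))) * (1 / ((ns : ℝ) - i)) := by ring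
      _ ≤ 1 * (2 * lamS ns i) + 1 * 1 :=
          add_le_add (mul_le_mul_of_nonneg_right h6 (by linarith))
            (mul_le_mul h6 h7 h8 zero_le_one)
      _ = 2 * lamS ns i + 1 := by ring
  have h9 := Finset.sum_le_sum h2
  rw [Finset.sum_add_distrib, ← Finset.mul_sum] at h9
  have h10 := lamS_sum ns
  have h11 : ∑ i ∈ Finset.range ns, (1 : ℝ) = ns := by simp
  have h12 : (0 : ℝ) ≤ ns := Nat.cast_nonneg ns
  rw [h11] at h9
  linarith

theorem ctl_le (P : BPar d L) (k h : ℝ) (hh : 0 < h) (hm : 0 ≤ P.m0) (hς : 0 ≤ P.ς) (j : ℕ)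
    (G : (boxS d L → ℂ) × (boxS d L → ℂ)) (z : boxS d L) :
    Real.sqrt h * ‖P.ctl k h j G z‖ ≤
      if j < P.ns then P.m0 / (P.ns + 1) + P.ς * lamS P.ns j else 0 := by
  by_cases hj : j < P.ns
  · rw [if_pos hj]
    have h0 : 0 ≤ P.m0 / (P.ns + 1) + P.ς * lamS P.ns j := by
      have := Brg0_lamS_nonneg P.ns j hj.le
      positivity
    unfold BPar.ctl
    by_cases hc : P.Bs z ∧ j < P.ns ∧ P.RegSt k j G
    · rw [if_pos hc]
      have h1 := (hc.2.2.1 z hc.1).2.2.1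
      have hs : 0 < Real.sqrt h := Real.sqrt_pos.2 hh
      have h2 : 0 < (P.ns : ℝ) + 1 - j := by
        have := Brg0_pos P.ns j hj
        linarith
      have h3 : 0 < Real.sqrt h * ((P.ns : ℝ) + 1 - j) := mul_pos hs h2
      rw [norm_div, norm_neg, Complex.norm_real, Real.norm_of_nonneg h3.le]
      have h4 : Real.sqrt h * (‖Complex.log (G.2 z / G.1 z)‖ /
          (Real.sqrt h * ((P.ns : ℝ) + 1 - j))) =
          ‖Complex.log (G.2 z / G.1 z)‖ / ((P.ns : ℝ) + 1 - j) := by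
        field_simp
      rw [h4, div_le_iff₀ h2]
      exact h1
    · rw [if_neg hc, norm_zero, mul_zero]
      exact h0
  · rw [if_neg hj]
    unfold BPar.ctl
    rw [if_neg (fun h1 => hj h1.2.1), norm_zero, mul_zero]

private theorem Brg0_card (P : BPar d L) [DecidablePred P.Bs] :
    ((Finset.univ.filter P.Bs).card : ℝ) ≤ (2 * P.Rb + 1 : ℝ) ^ d := by
  have h1 : ((Finset.univ.filter P.Bs).card) ≤
      (Fintype.piFinset (fun i : Fin d =>
        Finset.Icc ((P.y : Fin d → ℤ) i - P.Rb) ((P.y : Fin d → ℤ) i + P.Rb))).card := by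
    refine Finset.card_le_card_of_injOn (fun z : boxS d L => (z : Fin d → ℤ)) ?_ ?_
    · intro z hz
      have hz' : (boxNet d L).dist P.y z ≤ P.Rb := (Finset.mem_filter.1 hz).2
      rw [boxNet_dist] at hz'
      refine Fintype.mem_piFinset.2 fun i => ?_
      have h2 : ((P.y : Fin d → ℤ) i - (z : Fin d → ℤ) i).natAbs ≤ P.Rb := by
        refine le_trans ?_ hz'
        unfold l1
        exact Finset.single_le_sum
          (f := fun i => ((P.y : Fin d → ℤ) i - (z : Fin d → ℤ) i).natAbs)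
          (fun _ _ => Nat.zero_le _) (Finset.mem_univ i)
      rw [Finset.mem_Icc]
      show (P.y : Fin d → ℤ) i - P.Rb ≤ (z : Fin d → ℤ) i ∧
        (z : Fin d → ℤ) i ≤ (P.y : Fin d → ℤ) i + P.Rb
      constructor <;> omega
    · intro a _ b _ hab
      exact Subtype.ext hab
  have h2 : (Fintype.piFinset (fun i : Fin d =>
        Finset.Icc ((P.y : Fin d → ℤ) i - P.Rb) ((P.y : Fin d → ℤ) i + P.Rb))).card =
      (2 * P.Rb + 1) ^ d := by
    rw [Fintype.card_piFinset]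
    have h3 : ∀ i : Fin d, (Finset.Icc ((P.y : Fin d → ℤ) i - P.Rb)
        ((P.y : Fin d → ℤ) i + P.Rb)).card = 2 * P.Rb + 1 := by
      intro i
      rw [Int.card_Icc]
      omega
    simp_rw [h3]
    simp
  rw [h2] at h1
  exact_mod_cast h1

/-- bound of the energy of the control -/
noncomputable def BPar.En (P : BPar d L) (h : ℝ) : ℝ :=
  (2 * P.Rb + 1 : ℝ) ^ d * (2 * P.m0 ^ 2 / ((P.ns + 1) * h) + 40 * P.ς ^ 2 * P.ns / h)

private theorem Brg0_step (P : BPar d L) (β k h : ℝ) (hh : 0 < h) (hm : 0 ≤ P.m0)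
    (hς : 0 ≤ P.ς) (G : (boxS d L → ℂ) × (boxS d L → ℂ)) (ω : ℕ → boxS d L → ℂ) (j : ℕ)
    (hj : j < P.ns) :
    ∑ x, ‖P.vct β k h G j ω x‖ ^ 2 ≤ (2 * P.Rb + 1 : ℝ) ^ d *
      ((2 * P.m0 ^ 2 / (P.ns + 1) ^ 2 + 2 * P.ς ^ 2 * lamS P.ns j ^ 2) / h) := by
  classical
  have h1 : ∀ x, ‖P.vct β k h G j ω x‖ ^ 2 ≤
      (2 * P.m0 ^ 2 / (P.ns + 1) ^ 2 + 2 * P.ς ^ 2 * lamS P.ns j ^ 2) / h := by
    intro x
    have h2 := ctl_le P k h hh hm hς j (trajT (P.bst β k h) G ω j) x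
    rw [if_pos hj] at h2
    have h3 : (Real.sqrt h * ‖P.ctl k h j (trajT (P.bst β k h) G ω j) x‖) ^ 2 ≤
        (P.m0 / (P.ns + 1) + P.ς * lamS P.ns j) ^ 2 :=
      pow_le_pow_left₀ (by positivity) h2 2
    rw [mul_pow, Real.sq_sqrt hh.le] at h3
    rw [le_div_iff₀ hh]
    have h4 : (P.m0 / (P.ns + 1) + P.ς * lamS P.ns j) ^ 2 ≤
        2 * P.m0 ^ 2 / (P.ns + 1) ^ 2 + 2 * P.ς ^ 2 * lamS P.ns j ^ 2 := by
      have h5 : 2 * P.m0 ^ 2 / ((P.ns : ℝ) + 1) ^ 2 = 2 * (P.m0 / (P.ns + 1)) ^ 2 := by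
        rw [div_pow]
        ring
      rw [h5]
      nlinarith [sq_nonneg (P.m0 / ((P.ns : ℝ) + 1) - P.ς * lamS P.ns j)]
    calc ‖P.vct β k h G j ω x‖ ^ 2 * h
        = h * ‖P.ctl k h j (trajT (P.bst β k h) G ω j) x‖ ^ 2 := mul_comm _ _
      _ ≤ _ := h3.trans h4
  have h0 : 0 ≤ (2 * P.m0 ^ 2 / ((P.ns : ℝ) + 1) ^ 2 + 2 * P.ς ^ 2 * lamS P.ns j ^ 2) / h := by
    positivity
  have h2 : ∑ x, ‖P.vct β k h G j ω x‖ ^ 2 =
      ∑ x ∈ Finset.univ.filter P.Bs, ‖P.vct β k h G j ω x‖ ^ 2 := by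
    symm
    refine Finset.sum_subset (Finset.filter_subset _ _) fun x _ hx => ?_
    have hx' : ¬ P.Bs x := fun h3 => hx (Finset.mem_filter.2 ⟨Finset.mem_univ x, h3⟩)
    rw [vct_out P β k h G j ω x hx']
    simp
  rw [h2]
  calc ∑ x ∈ Finset.univ.filter P.Bs, ‖P.vct β k h G j ω x‖ ^ 2
      ≤ ∑ x ∈ Finset.univ.filter P.Bs,
        (2 * P.m0 ^ 2 / ((P.ns : ℝ) + 1) ^ 2 + 2 * P.ς ^ 2 * lamS P.ns j ^ 2) / h :=
        Finset.sum_le_sum fun x _ => h1 x
    _ = ((Finset.univ.filter P.Bs).card : ℝ) *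
        ((2 * P.m0 ^ 2 / ((P.ns : ℝ) + 1) ^ 2 + 2 * P.ς ^ 2 * lamS P.ns j ^ 2) / h) := by
        rw [Finset.sum_const, nsmul_eq_mul]
    _ ≤ _ := mul_le_mul_of_nonneg_right (Brg0_card P) h0

theorem energy (P : BPar d L) (β k h : ℝ) (hh : 0 < h) (hm : 0 ≤ P.m0) (hς : 0 ≤ P.ς)
    (G : (boxS d L → ℂ) × (boxS d L → ℂ)) (ω : ℕ → boxS d L → ℂ) :
    ∑ j ∈ Finset.range P.ns, ∑ x, ‖P.vct β k h G j ω x‖ ^ 2 ≤ P.En h := by
  have h1 : ∑ j ∈ Finset.range P.ns, ∑ x, ‖P.vct β k h G j ω x‖ ^ 2 ≤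
      ∑ j ∈ Finset.range P.ns, (2 * P.Rb + 1 : ℝ) ^ d *
      ((2 * P.m0 ^ 2 / (P.ns + 1) ^ 2 + 2 * P.ς ^ 2 * lamS P.ns j ^ 2) / h) :=
    Finset.sum_le_sum fun j hj =>
      Brg0_step P β k h hh hm hς G ω j (Finset.mem_range.1 hj)
  refine h1.trans ?_
  rw [← Finset.mul_sum, ← Finset.sum_div, Finset.sum_add_distrib, ← Finset.mul_sum,
    Finset.sum_const, Finset.card_range, nsmul_eq_mul]
  unfold BPar.En
  refine mul_le_mul_of_nonneg_left ?_ (by positivity)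
  have h2 := lamS_sq P.ns
  have h3 : (P.ns : ℝ) * (2 * P.m0 ^ 2 / (P.ns + 1) ^ 2) ≤ 2 * P.m0 ^ 2 / (P.ns + 1) := by
    have h4 : (0 : ℝ) < P.ns + 1 := by positivity
    have h5 : (2 * P.m0 ^ 2 / ((P.ns : ℝ) + 1)) =
        ((P.ns : ℝ) + 1) * (2 * P.m0 ^ 2 / (P.ns + 1) ^ 2) := by
      field_simp
    rw [h5]
    exact mul_le_mul_of_nonneg_right (by linarith) (by positivity)
  have h4 : 2 * P.ς ^ 2 * ∑ j ∈ Finset.range P.ns, lamS P.ns j ^ 2 ≤
      2 * P.ς ^ 2 * (20 * P.ns) := mul_le_mul_of_nonneg_left h2 (by positivity)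
  have h5 : 2 * P.m0 ^ 2 / (((P.ns : ℝ) + 1) * h) + 40 * P.ς ^ 2 * P.ns / h =
      (2 * P.m0 ^ 2 / (P.ns + 1) + 2 * P.ς ^ 2 * (20 * P.ns)) / h := by
    have h4 : (0 : ℝ) < P.ns + 1 := by positivity
    field_simp
    ring
  rw [h5]
  exact div_le_div_of_nonneg_right (add_le_add h3 h4) hh.le

end DynC
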