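import Pool.Agent.Lib_MP_36b788c.LPPb

/-!
# Last passage functional: one cell

PROOF of `cell_jumps`. `1 ≤ i ≤ K`. Groups: boundaries `a_g = ⌊g K / i⌋`, `g = 0..i`, lengths `K_g = a_{g+1} - a_g ≤ K/i + 1 ≤ 2K/i`, so
`v K_g λ² ≤ 2/i`. Put `E_{g}(l)(z,x) = E gk^{(l)}(z,x)` for a group with `K_g` steps (`ENNReal` or real), with
`Σ_z E_g(l)(z,x) ≤ e^l 4 exp(16 (l+1)²/i)` (`gk_exp`). Deterministic kernels `k_g^{(j)}(z,x)`, `k_0^{(0)} = 1_{z=x}`, `k_0^{(j)} = 0` for `j>0`,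
`k_{g+1}^{(j)}(z,x) = Σ_{l≤j} Σ_y k_g^{(j-l)}(z,y) E_g(l)(y,x)`.
Claim by induction on `g`: the running maximum `A_g^{(j)}(x) := sup_{m ≤ a_g} exJ_m^{(j)}(x)` is at most a random variable `Q_g^{(j)}(x)`
depending on the first `a_g` steps, where `Q_0^{(0)} = w0`, `Q_0^{(j)}=0`, `Q_{g+1}^{(j)}(x) = Σ_{l≤j} Σ_y Q_g^{(j-l)}(y) gk^{(l)}(y,x)` (exJ_group; for `m ≤ a_g` use
that the term `l = 0`, `y = x` is `Q_g^{(j)}(x) e^{λ osc} ≥ Q_g^{(j)}(x)`), and by independence of the groups (`lintegral_glue`)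
`E Q_g^{(j)}(x) ≤ Σ_z w0(z) k_g^{(j)}(z,x)`. Column sums: by induction `Σ_z k_g^{(j)}(z,x) ≤ 2^{j+g} 4^g e^j exp(16 (j² + 2j + g)/i)`
(`Σ_{l≤j} 2^{j-l+g-1}·… ≤ 2^{j+g}`; exponent: `(j-l)² + 2(j-l) + (g-1) + (l+1)² ≤ j² + 2j + g`). With `j = g = i`:
`≤ 16^i e^i exp(16(i+3))`.
`cell_zero`: `sup_{m≤K} exJ_m^{(0)}(x) ≤ w0(x) e^{λ osc(x)}` (exJ_group with `a = 0`, `i = 0`), expectation `≤ 4 e^{8} w0(x)`.
`cell_all`: sum over `i ≤ K` (for `m ≤ K` only `i ≤ K` occur), `e ≤ e^{-16}/64`: `Σ_z k(z,x) ≤ 4e^8 + e^{48} Σ_{i≥1} 4^{-i} ≤ 4e^8 + e^{48}`.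
-/

open MeasureTheory ProbabilityTheory
open scoped ENNReal

namespace DynC

variable {S : Type} [Fintype S] {D : ℕ} (M : MSet S D)


/-- random upper bound for the running maximum over the first groups -/
private noncomputable def LPPc_Q (lam q : ℝ) (w0 : S → ℝ) (a : ℕ → ℕ) (h : ℕ → S → ℝ) :
    ℕ → ℕ → S → ℝ
  | 0 => fun j x => if j = 0 then w0 x else 0
  | g + 1 => fun j x => ∑ l ∈ Finset.range (j + 1), ∑ y, LPPc_Q lam q w0 a h g (j - l) y *
      M.gk lam q (fun t => h (a g + t)) (a (g + 1) - a g) l y x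

/-- deterministic kernels -/
private noncomputable def LPPc_k (E : ℕ → ℕ → S → S → ℝ) : ℕ → ℕ → S → S → ℝ
  | 0 => fun j z x => if j = 0 then (open Classical in if z = x then 1 else 0) else 0
  | g + 1 => fun j z x => ∑ l ∈ Finset.range (j + 1), ∑ y, LPPc_k E g (j - l) z y * E g l y x

private theorem LPPc_Q_nonneg (lam q : ℝ) (w0 : S → ℝ) (h0 : ∀ z, 0 ≤ w0 z) (a : ℕ → ℕ)
    (h : ℕ → S → ℝ) (g : ℕ) : ∀ (j : ℕ) (x : S), 0 ≤ LPPc_Q M lam q w0 a h g j x := by
  induction g with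
  | zero =>
    intro j x
    simp only [LPPc_Q]
    split_ifs
    · exact h0 x
    · exact le_refl 0
  | succ g ih =>
    intro j x
    simp only [LPPc_Q]
    exact Finset.sum_nonneg fun l _ => Finset.sum_nonneg fun y _ =>
      mul_nonneg (ih _ _) (gk_nonneg M _ _ _ _ _ _ _)

private theorem LPPc_k_nonneg (E : ℕ → ℕ → S → S → ℝ) (hE : ∀ g l y x, 0 ≤ E g l y x) (g : ℕ) :
    ∀ (j : ℕ) (z x : S), 0 ≤ LPPc_k E g j z x := by
  induction g with
  | zero =>
    intro j z x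
    simp only [LPPc_k]
    split_ifs
    · exact zero_le_one
    · exact le_refl 0
    · exact le_refl 0
  | succ g ih =>
    intro j z x
    simp only [LPPc_k]
    exact Finset.sum_nonneg fun l _ => Finset.sum_nonneg fun y _ => mul_nonneg (ih _ _ _) (hE _ _ _ _)

private theorem LPPc_Q_le_succ (lam q : ℝ) (hl : 0 ≤ lam) (w0 : S → ℝ) (h0 : ∀ z, 0 ≤ w0 z)
    (a : ℕ → ℕ) (h : ℕ → S → ℝ) (g j : ℕ) (x : S) :
    LPPc_Q M lam q w0 a h g j x ≤ LPPc_Q M lam q w0 a h (g + 1) j x := by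
  simp only [LPPc_Q]
  have h1 : LPPc_Q M lam q w0 a h g (j - 0) x *
      M.gk lam q (fun t => h (a g + t)) (a (g + 1) - a g) 0 x x ≤
      ∑ y, LPPc_Q M lam q w0 a h g (j - 0) y *
      M.gk lam q (fun t => h (a g + t)) (a (g + 1) - a g) 0 y x :=
    Finset.single_le_sum (f := fun y => LPPc_Q M lam q w0 a h g (j - 0) y *
      M.gk lam q (fun t => h (a g + t)) (a (g + 1) - a g) 0 y x)
      (fun y _ => mul_nonneg (LPPc_Q_nonneg M lam q w0 h0 a h g _ _) (gk_nonneg M _ _ _ _ _ _ _))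
      (Finset.mem_univ x)
  have h2 : (∑ y, LPPc_Q M lam q w0 a h g (j - 0) y *
      M.gk lam q (fun t => h (a g + t)) (a (g + 1) - a g) 0 y x) ≤
      ∑ l ∈ Finset.range (j + 1), ∑ y, LPPc_Q M lam q w0 a h g (j - l) y *
      M.gk lam q (fun t => h (a g + t)) (a (g + 1) - a g) l y x :=
    Finset.single_le_sum (f := fun l => ∑ y, LPPc_Q M lam q w0 a h g (j - l) y *
      M.gk lam q (fun t => h (a g + t)) (a (g + 1) - a g) l y x)
      (fun l _ => Finset.sum_nonneg fun y _ =>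
        mul_nonneg (LPPc_Q_nonneg M lam q w0 h0 a h g _ _) (gk_nonneg M _ _ _ _ _ _ _))
      (Finset.mem_range.2 (Nat.succ_pos j))
  refine le_trans ?_ (h1.trans h2)
  rw [Nat.sub_zero]
  have h3 : (1 : ℝ) ≤ M.gk lam q (fun t => h (a g + t)) (a (g + 1) - a g) 0 x x := by
    simp only [MSet.gk, if_true]
    exact Real.one_le_exp (mul_nonneg hl (osc_nonneg _ _))
  exact le_mul_of_one_le_right (LPPc_Q_nonneg M lam q w0 h0 a h g _ _) h3

private theorem LPPc_exJ_le_Q (lam q : ℝ) (hl : 0 ≤ lam) (w0 : S → ℝ) (h1 : ∀ z, 1 ≤ w0 z)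
    (a : ℕ → ℕ) (ha0 : a 0 = 0) (h : ℕ → S → ℝ) (g : ℕ) :
    ∀ (j m : ℕ) (x : S), m ≤ a g → M.exJ lam q w0 h m j x ≤ LPPc_Q M lam q w0 a h g j x := by
  have h0 : ∀ z, 0 ≤ w0 z := fun z => le_trans zero_le_one (h1 z)
  induction g with
  | zero =>
    intro j m x hm
    rw [ha0] at hm
    have hm0 : m = 0 := by omega
    subst hm0
    rcases j with _ | j
    · simp [MSet.exJ, LPPc_Q]
    · simp [MSet.exJ, LPPc_Q]
  | succ g ih =>
    intro j m x hm
    rcases le_total m (a g) with hmg | hmg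
    · exact (ih j m x hmg).trans (LPPc_Q_le_succ M lam q hl w0 h0 a h g j x)
    · have h2 := exJ_group M lam q hl w0 h1 h (a g) (a (g + 1) - a g) (m - a g) (by omega) j x
      rw [Nat.add_sub_cancel' hmg] at h2
      refine h2.trans ?_
      simp only [LPPc_Q]
      refine Finset.sum_le_sum fun l _ => Finset.sum_le_sum fun z _ => ?_
      exact mul_le_mul_of_nonneg_right (ih (j - l) (a g) z (le_refl _)) (gk_nonneg M _ _ _ _ _ _ _)

private theorem LPPc_Q_congr (lam q : ℝ) (w0 : S → ℝ) (a : ℕ → ℕ) (ha : Monotone a)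
    (h h' : ℕ → S → ℝ) (g : ℕ) :
    ∀ (j : ℕ) (x : S), (∀ t, t < a g → h t = h' t) →
      LPPc_Q M lam q w0 a h g j x = LPPc_Q M lam q w0 a h' g j x := by
  induction g with
  | zero =>
    intro j x _
    simp only [LPPc_Q]
  | succ g ih =>
    intro j x hh
    have hag : a g ≤ a (g + 1) := ha (Nat.le_succ g)
    simp only [LPPc_Q]
    refine Finset.sum_congr rfl fun l _ => Finset.sum_congr rfl fun y _ => ?_
    rw [ih (j - l) y (fun t ht => hh t (lt_of_lt_of_le ht hag)),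
      gk_congr M lam q (fun t => h (a g + t)) (fun t => h' (a g + t)) (a (g + 1) - a g) l y x
        (fun t ht => hh (a g + t) (by omega))]

private theorem LPPc_measurable_sc (v : ℝ) : Measurable (fun ω : ℕ → S → ℝ => sc v ω) := by
  unfold sc
  fun_prop

private theorem LPPc_measurable_gk_shift (lam q v : ℝ) (n K l : ℕ) (y x : S) :
    Measurable (fun ω : ℕ → S → ℝ => M.gk lam q (fun t => sc v ω (n + t)) K l y x) := by
  have h1 : Measurable (fun ω : ℕ → S → ℝ => fun t => sc v ω (n + t)) := by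
    unfold sc
    fun_prop
  exact (measurable_gk M lam q K l y x).comp h1

private theorem LPPc_measurable_Q (lam q v : ℝ) (w0 : S → ℝ) (a : ℕ → ℕ) (g : ℕ) :
    ∀ (j : ℕ) (x : S), Measurable (fun ω : ℕ → S → ℝ => LPPc_Q M lam q w0 a (sc v ω) g j x) := by
  induction g with
  | zero =>
    intro j x
    simp only [LPPc_Q]
    exact measurable_const
  | succ g ih =>
    intro j x
    simp only [LPPc_Q]
    exact Finset.measurable_sum _ fun l _ => Finset.measurable_sum _ fun y _ =>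
      (ih (j - l) y).mul (LPPc_measurable_gk_shift M lam q v (a g) (a (g + 1) - a g) l y x)

private theorem LPPc_sc_glue (v : ℝ) (n : ℕ) (a b : ℕ → S → ℝ) :
    (∀ j, j < n → sc v (glue n a b) j = sc v a j) ∧
      (fun j => sc v (glue n a b) (n + j)) = sc v b := by
  constructor
  · intro j hj
    funext x
    simp [sc, glue, hj]
  · funext j x
    simp [sc, glue]

private theorem LPPc_Q_lint (lam q v : ℝ) (w0 : S → ℝ) (h0 : ∀ z, 0 ≤ w0 z) (a : ℕ → ℕ)
    (ha : Monotone a) (E : ℕ → ℕ → S → S → ℝ) (hE0 : ∀ g l y x, 0 ≤ E g l y x)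
    (hE : ∀ g l y x, ∫⁻ ω, ENNReal.ofReal (M.gk lam q (sc v ω) (a (g + 1) - a g) l y x)
      ∂(PI (nz S)) ≤ ENNReal.ofReal (E g l y x)) (g : ℕ) :
    ∀ (j : ℕ) (x : S), ∫⁻ ω, ENNReal.ofReal (LPPc_Q M lam q w0 a (sc v ω) g j x) ∂(PI (nz S))
      ≤ ENNReal.ofReal (∑ z, w0 z * LPPc_k E g j z x) := by
  induction g with
  | zero =>
    intro j x
    simp only [LPPc_Q, LPPc_k]
    rw [lintegral_const, measure_univ, mul_one]
    apply ENNReal.ofReal_le_ofReal
    rcases j with _ | j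
    · classical
      simp
    · simp
  | succ g ih =>
    intro j x
    have hQ0 : ∀ (a' : ℕ → S → ℝ) (j : ℕ) (y : S), 0 ≤ LPPc_Q M lam q w0 a (sc v a') g j y :=
      fun a' j y => LPPc_Q_nonneg M lam q w0 h0 a _ g j y
    rw [lintegral_glue (a g) _ (LPPc_measurable_Q M lam q v w0 a (g + 1) j x).ennreal_ofReal]
    have h1 : ∀ a' b : ℕ → S → ℝ,
        ENNReal.ofReal (LPPc_Q M lam q w0 a (sc v (glue (a g) a' b)) (g + 1) j x) =
        ∑ l ∈ Finset.range (j + 1), ∑ y, ENNReal.ofReal (LPPc_Q M lam q w0 a (sc v a') g (j - l) y) *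
          ENNReal.ofReal (M.gk lam q (sc v b) (a (g + 1) - a g) l y x) := by
      intro a' b
      simp only [LPPc_Q]
      rw [(LPPc_sc_glue v (a g) a' b).2]
      have h2 : ∀ (j : ℕ) (y : S), LPPc_Q M lam q w0 a (sc v (glue (a g) a' b)) g j y =
          LPPc_Q M lam q w0 a (sc v a') g j y := fun j y =>
        LPPc_Q_congr M lam q w0 a ha _ _ g j y (LPPc_sc_glue v (a g) a' b).1
      simp only [h2]
      rw [ENNReal.ofReal_sum_of_nonneg (fun l _ => Finset.sum_nonneg fun y _ =>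
        mul_nonneg (hQ0 _ _ _) (gk_nonneg M _ _ _ _ _ _ _))]
      refine Finset.sum_congr rfl fun l _ => ?_
      rw [ENNReal.ofReal_sum_of_nonneg (fun y _ =>
        mul_nonneg (hQ0 _ _ _) (gk_nonneg M _ _ _ _ _ _ _))]
      refine Finset.sum_congr rfl fun y _ => ?_
      rw [ENNReal.ofReal_mul (hQ0 _ _ _)]
    simp only [h1]
    have hgm : ∀ l y, Measurable (fun b : ℕ → S → ℝ =>
        ENNReal.ofReal (M.gk lam q (sc v b) (a (g + 1) - a g) l y x)) := fun l y =>
      ((measurable_gk M lam q (a (g + 1) - a g) l y x).comp (LPPc_measurable_sc v)).ennreal_ofReal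
    have h3 : ∀ a' : ℕ → S → ℝ, ∫⁻ b, ∑ l ∈ Finset.range (j + 1), ∑ y,
          ENNReal.ofReal (LPPc_Q M lam q w0 a (sc v a') g (j - l) y) *
          ENNReal.ofReal (M.gk lam q (sc v b) (a (g + 1) - a g) l y x) ∂(PI (nz S)) ≤
        ∑ l ∈ Finset.range (j + 1), ∑ y,
          ENNReal.ofReal (LPPc_Q M lam q w0 a (sc v a') g (j - l) y) *
          ENNReal.ofReal (E g l y x) := by
      intro a'
      rw [lintegral_finsetSum _ (fun l _ => Finset.measurable_sum _ fun y _ =>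
        (hgm l y).const_mul _)]
      refine Finset.sum_le_sum fun l _ => ?_
      rw [lintegral_finsetSum _ (fun y _ => (hgm l y).const_mul _)]
      refine Finset.sum_le_sum fun y _ => ?_
      rw [lintegral_const_mul _ (hgm l y)]
      exact mul_le_mul_right (hE g l y x) _
    refine (lintegral_mono h3).trans ?_
    have hQm : ∀ j y, Measurable (fun a' : ℕ → S → ℝ =>
        ENNReal.ofReal (LPPc_Q M lam q w0 a (sc v a') g j y)) := fun j y =>
      (LPPc_measurable_Q M lam q v w0 a g j y).ennreal_ofReal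
    rw [lintegral_finsetSum _ (fun l _ => Finset.measurable_sum _ fun y _ =>
        (hQm (j - l) y).mul_const _)]
    have h4 : ∀ l ∈ Finset.range (j + 1), ∫⁻ a', ∑ y,
          ENNReal.ofReal (LPPc_Q M lam q w0 a (sc v a') g (j - l) y) *
          ENNReal.ofReal (E g l y x) ∂(PI (nz S)) ≤
        ∑ y, ENNReal.ofReal ((∑ z, w0 z * LPPc_k E g (j - l) z y) * E g l y x) := by
      intro l _
      rw [lintegral_finsetSum _ (fun y _ => (hQm (j - l) y).mul_const _)]
      refine Finset.sum_le_sum fun y _ => ?_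
      rw [lintegral_mul_const _ (hQm (j - l) y), ENNReal.ofReal_mul
        (Finset.sum_nonneg fun z _ => mul_nonneg (h0 z) (LPPc_k_nonneg E hE0 g _ _ _))]
      exact mul_le_mul_left (ih (j - l) y) _
    refine (Finset.sum_le_sum h4).trans (le_of_eq ?_)
    have hk0 : ∀ (j : ℕ) (y : S), 0 ≤ ∑ z, w0 z * LPPc_k E g j z y := fun j y =>
      Finset.sum_nonneg fun z _ => mul_nonneg (h0 z) (LPPc_k_nonneg E hE0 g _ _ _)
    have h5 : ∀ l ∈ Finset.range (j + 1),
        ∑ y, ENNReal.ofReal ((∑ z, w0 z * LPPc_k E g (j - l) z y) * E g l y x) =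
        ENNReal.ofReal (∑ y, (∑ z, w0 z * LPPc_k E g (j - l) z y) * E g l y x) := by
      intro l _
      rw [ENNReal.ofReal_sum_of_nonneg (fun y _ => mul_nonneg (hk0 _ _) (hE0 _ _ _ _))]
    rw [Finset.sum_congr rfl h5, ← ENNReal.ofReal_sum_of_nonneg (fun l _ =>
      Finset.sum_nonneg fun y _ => mul_nonneg (hk0 _ _) (hE0 _ _ _ _))]
    congr 1
    simp only [LPPc_k, Finset.mul_sum, Finset.sum_mul]
    rw [Finset.sum_comm (s := (Finset.univ : Finset S)) (t := Finset.range (j + 1))]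
    refine Finset.sum_congr rfl fun l _ => ?_
    rw [Finset.sum_comm]
    refine Finset.sum_congr rfl fun z _ => Finset.sum_congr rfl fun y _ => ?_
    ring

/-- column sums of the deterministic kernels -/
private theorem LPPc_colsum (e : ℝ) (he0 : 0 ≤ e) (t : ℝ) (ht : 0 ≤ t) (E : ℕ → ℕ → S → S → ℝ)
    (hE0 : ∀ g l y x, 0 ≤ E g l y x)
    (hE : ∀ g l x, ∑ y, E g l y x ≤ e ^ l * (4 * Real.exp (t * ((l : ℝ) + 1) ^ 2))) (g : ℕ) :
    ∀ (j : ℕ) (x : S), ∑ z, LPPc_k E g j z x ≤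
      2 ^ (j + g) * 4 ^ g * e ^ j * Real.exp (t * ((j : ℝ) ^ 2 + 2 * j + g)) := by
  induction g with
  | zero =>
    intro j x
    simp only [LPPc_k]
    rcases j with _ | j
    · classical
      simp
    · simp only [Nat.succ_ne_zero, if_false, Finset.sum_const_zero]
      positivity
  | succ g ih =>
    intro j x
    have h1 : ∑ z, LPPc_k E (g + 1) j z x =
        ∑ l ∈ Finset.range (j + 1), ∑ y, (∑ z, LPPc_k E g (j - l) z y) * E g l y x := by
      simp only [LPPc_k, Finset.sum_mul]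
      rw [Finset.sum_comm]
      refine Finset.sum_congr rfl fun l _ => ?_
      rw [Finset.sum_comm]
    rw [h1]
    have h2 : ∀ l ∈ Finset.range (j + 1),
        ∑ y, (∑ z, LPPc_k E g (j - l) z y) * E g l y x ≤
        2 ^ (j - l) * (2 ^ g * 4 ^ (g + 1) * e ^ j *
          Real.exp (t * ((j : ℝ) ^ 2 + 2 * j + (g + 1 : ℕ)))) := by
      intro l hl
      have hlj : l ≤ j := by
        have := Finset.mem_range.1 hl
        omega
      have h3 : ∑ y, (∑ z, LPPc_k E g (j - l) z y) * E g l y x ≤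
          ∑ y, (2 ^ ((j - l) + g) * 4 ^ g * e ^ (j - l) *
            Real.exp (t * (((j - l : ℕ) : ℝ) ^ 2 + 2 * ((j - l : ℕ) : ℝ) + g))) * E g l y x :=
        Finset.sum_le_sum fun y _ => mul_le_mul_of_nonneg_right (ih (j - l) y) (hE0 _ _ _ _)
      refine h3.trans ?_
      rw [← Finset.mul_sum]
      have h4 : (0 : ℝ) ≤ 2 ^ ((j - l) + g) * 4 ^ g * e ^ (j - l) *
            Real.exp (t * (((j - l : ℕ) : ℝ) ^ 2 + 2 * ((j - l : ℕ) : ℝ) + g)) := by positivity
      refine (mul_le_mul_of_nonneg_left (hE g l x) h4).trans ?_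
      have h5 : (2 ^ ((j - l) + g) * 4 ^ g * e ^ (j - l) *
            Real.exp (t * (((j - l : ℕ) : ℝ) ^ 2 + 2 * ((j - l : ℕ) : ℝ) + g))) *
            (e ^ l * (4 * Real.exp (t * ((l : ℝ) + 1) ^ 2))) =
          2 ^ (j - l) * (2 ^ g * 4 ^ (g + 1) * (e ^ (j - l) * e ^ l) *
            (Real.exp (t * (((j - l : ℕ) : ℝ) ^ 2 + 2 * ((j - l : ℕ) : ℝ) + g)) *
              Real.exp (t * ((l : ℝ) + 1) ^ 2))) := by
        ring
      rw [h5, ← pow_add, Nat.sub_add_cancel hlj, ← Real.exp_add]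
      refine mul_le_mul_of_nonneg_left ?_ (by positivity)
      refine mul_le_mul_of_nonneg_left ?_ (by positivity)
      apply Real.exp_le_exp.2
      rw [← mul_add]
      apply mul_le_mul_of_nonneg_left _ ht
      rw [Nat.cast_sub hlj]
      push_cast
      have hl0 : (0 : ℝ) ≤ l := Nat.cast_nonneg l
      have hjl : (l : ℝ) ≤ j := by exact_mod_cast hlj
      nlinarith [mul_nonneg hl0 (sub_nonneg.2 hjl)]
    refine (Finset.sum_le_sum h2).trans ?_
    rw [← Finset.sum_mul]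
    have h6 : ∑ l ∈ Finset.range (j + 1), (2 : ℝ) ^ (j - l) ≤ 2 ^ (j + 1) := by
      have h8 := Finset.sum_range_reflect (fun l => (2 : ℝ) ^ l) (j + 1)
      simp only [Nat.add_sub_cancel] at h8
      rw [h8, geom_sum_eq (by norm_num)]
      have h9 : (0 : ℝ) < 2 ^ (j + 1) := by positivity
      norm_num
    have h7 : (0 : ℝ) ≤ 2 ^ g * 4 ^ (g + 1) * e ^ j *
          Real.exp (t * ((j : ℝ) ^ 2 + 2 * j + (g + 1 : ℕ))) := by positivity
    refine (mul_le_mul_of_nonneg_right h6 h7).trans (le_of_eq ?_)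
    ring

/-- bound for the expectation of one group kernel -/
private theorem LPPc_exists_E (lam q v e : ℝ) (hl : 0 < lam) (hv : 0 < v) (he0 : 0 ≤ e)
    (he : ∀ x, ∑ y, Real.exp (-(lam * q * max (M.dd y x : ℝ) 1)) ≤ e) (t : ℝ) (a : ℕ → ℕ)
    (hat : ∀ g, 8 * (lam ^ 2 * v * ((a (g + 1) - a g : ℕ) : ℝ)) ≤ t) :
    ∃ E : ℕ → ℕ → S → S → ℝ, (∀ g l y x, 0 ≤ E g l y x) ∧
      (∀ g l y x, ∫⁻ ω, ENNReal.ofReal (M.gk lam q (sc v ω) (a (g + 1) - a g) l y x)
        ∂(PI (nz S)) ≤ ENNReal.ofReal (E g l y x)) ∧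
      (∀ g l x, ∑ y, E g l y x ≤ e ^ l * (4 * Real.exp (t * ((l : ℝ) + 1) ^ 2))) := by
  have hgm : ∀ g l y x, Measurable (fun b : ℕ → S → ℝ =>
      ENNReal.ofReal (M.gk lam q (sc v b) (a (g + 1) - a g) l y x)) := fun g l y x =>
    ((measurable_gk M lam q (a (g + 1) - a g) l y x).comp (LPPc_measurable_sc v)).ennreal_ofReal
  have hsum : ∀ g l x, ∑ y, ∫⁻ ω, ENNReal.ofReal (M.gk lam q (sc v ω) (a (g + 1) - a g) l y x)
      ∂(PI (nz S)) ≤ ENNReal.ofReal (e ^ l * (4 * Real.exp (t * ((l : ℝ) + 1) ^ 2))) := by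
    intro g l x
    rw [← lintegral_finsetSum _ (fun y _ => hgm g l y x)]
    have h1 : ∀ ω : ℕ → S → ℝ, ∑ y, ENNReal.ofReal (M.gk lam q (sc v ω) (a (g + 1) - a g) l y x) =
        ENNReal.ofReal (∑ y, M.gk lam q (sc v ω) (a (g + 1) - a g) l y x) := by
      intro ω
      rw [ENNReal.ofReal_sum_of_nonneg (fun y _ => gk_nonneg M _ _ _ _ _ _ _)]
    simp only [h1]
    refine (gk_exp M lam q v e hl.le hv.le he (a (g + 1) - a g) l x).trans ?_
    apply ENNReal.ofReal_le_ofReal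
    apply mul_le_mul_of_nonneg_left _ (pow_nonneg he0 l)
    apply mul_le_mul_of_nonneg_left _ (by norm_num)
    apply Real.exp_le_exp.2
    have h2 := mul_le_mul_of_nonneg_right (hat g) (sq_nonneg ((l : ℝ) + 1))
    nlinarith [h2]
  have hfin : ∀ g l y x, ∫⁻ ω, ENNReal.ofReal (M.gk lam q (sc v ω) (a (g + 1) - a g) l y x)
      ∂(PI (nz S)) ≠ ∞ := by
    intro g l y x
    refine ne_top_of_le_ne_top ENNReal.ofReal_ne_top (le_trans ?_ (hsum g l x))
    exact Finset.single_le_sum (f := fun y => ∫⁻ ω, ENNReal.ofReal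
      (M.gk lam q (sc v ω) (a (g + 1) - a g) l y x) ∂(PI (nz S))) (fun _ _ => zero_le)
      (Finset.mem_univ y)
  refine ⟨fun g l y x => (∫⁻ ω, ENNReal.ofReal (M.gk lam q (sc v ω) (a (g + 1) - a g) l y x)
      ∂(PI (nz S))).toReal, fun g l y x => ENNReal.toReal_nonneg, fun g l y x => ?_,
      fun g l x => ?_⟩
  · rw [ENNReal.ofReal_toReal (hfin g l y x)]
  · rw [← ENNReal.toReal_sum (fun y _ => hfin g l y x)]
    exact ENNReal.toReal_le_of_le_ofReal (by positivity) (hsum g l x)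

/-- the part with exactly `i` jumps, running maximum over one cell -/
theorem cell_jumps (lam q v e : ℝ) (hl : 0 < lam) (hv : 0 < v)
    (he0 : 0 ≤ e) (he : ∀ x, ∑ y, Real.exp (-(lam * q * max (M.dd y x : ℝ) 1)) ≤ e) (K i : ℕ)
    (hK : lam ^ 2 * v * K ≤ 1) (hi : 1 ≤ i) (hiK : i ≤ K) :
    ∃ k : S → S → ℝ, (∀ z x, 0 ≤ k z x) ∧
      (∀ x, ∑ z, k z x ≤ Real.exp 48 * (16 * Real.exp 16 * e) ^ i) ∧
      ∀ w0 : S → ℝ, (∀ z, 1 ≤ w0 z) → ∀ x,
        ∫⁻ ω, (Finset.range (K + 1)).sup (fun m => ENNReal.ofReal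
            (M.exJ lam q w0 (sc v ω) m i x)) ∂(PI (nz S))
          ≤ ENNReal.ofReal (∑ z, w0 z * k z x) := by
  have hi0 : (0 : ℝ) < i := by exact_mod_cast hi
  set a : ℕ → ℕ := fun g => g * K / i with ha_def
  have ha : Monotone a := fun g g' hg => Nat.div_le_div_right (Nat.mul_le_mul_right K hg)
  have ha0 : a 0 = 0 := by simp [ha_def]
  have hai : a i = K := by
    simp only [ha_def]
    exact Nat.mul_div_cancel_left K hi
  have hat : ∀ g, 8 * (lam ^ 2 * v * ((a (g + 1) - a g : ℕ) : ℝ)) ≤ 16 / i := by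
    intro g
    have h1 : (a (g + 1) - a g) * i ≤ 2 * K := by
      have h2 : a (g + 1) * i ≤ (g + 1) * K := Nat.div_mul_le_self _ _
      have h3 : g * K < a g * i + i := by
        have := Nat.lt_div_mul_add (a := g * K) (b := i) hi
        simpa [ha_def] using this
      rw [Nat.sub_mul]
      have h4 : (g + 1) * K = g * K + K := by ring
      omega
    have h5 : ((a (g + 1) - a g : ℕ) : ℝ) * i ≤ 2 * K := by exact_mod_cast h1
    rw [le_div_iff₀ hi0]
    have h6 : 0 ≤ lam ^ 2 * v := by positivity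
    have h7 := mul_le_mul_of_nonneg_left h5 h6
    nlinarith [h7, hK]
  obtain ⟨E, hE0, hE1, hE2⟩ := LPPc_exists_E M lam q v e hl hv he0 he (16 / i) a hat
  refine ⟨fun z x => LPPc_k E i i z x, fun z x => LPPc_k_nonneg E hE0 i i z x, fun x => ?_,
    fun w0 h1 x => ?_⟩
  · refine (LPPc_colsum e he0 (16 / i) (by positivity) E hE0 hE2 i i x).trans (le_of_eq ?_)
    have h1 : (16 / (i : ℝ)) * ((i : ℝ) ^ 2 + 2 * i + i) = 48 + i * 16 := by
      field_simp
      ring
    rw [h1, Real.exp_add, Real.exp_nat_mul, mul_pow, mul_pow, ← two_mul, pow_mul]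
    have h2 : (16 : ℝ) ^ i = (2 ^ 2) ^ i * 4 ^ i := by
      rw [← mul_pow]
      norm_num
    rw [h2]
    ring
  · have h0 : ∀ z, 0 ≤ w0 z := fun z => le_trans zero_le_one (h1 z)
    refine le_trans (lintegral_mono fun ω => ?_)
      (LPPc_Q_lint M lam q v w0 h0 a ha E hE0 hE1 i i x)
    apply Finset.sup_le
    intro m hm
    apply ENNReal.ofReal_le_ofReal
    apply LPPc_exJ_le_Q M lam q hl.le w0 h1 a ha0 (sc v ω) i i m x
    rw [hai]
    have := Finset.mem_range.1 hm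
    omega

theorem cell_zero (lam q v : ℝ) (hl : 0 < lam) (hv : 0 < v) (K : ℕ)
    (hK : lam ^ 2 * v * K ≤ 1) (w0 : S → ℝ) (h0 : ∀ z, 1 ≤ w0 z) (x : S) :
    ∫⁻ ω, (Finset.range (K + 1)).sup (fun m => ENNReal.ofReal
        (M.exJ lam q w0 (sc v ω) m 0 x)) ∂(PI (nz S))
      ≤ ENNReal.ofReal (4 * Real.exp 8 * w0 x) := by
  classical
  have hw : 0 ≤ w0 x := le_trans zero_le_one (h0 x)
  have h1 : ∀ ω : ℕ → S → ℝ, (Finset.range (K + 1)).sup (fun m => ENNReal.ofReal
        (M.exJ lam q w0 (sc v ω) m 0 x)) ≤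
      ENNReal.ofReal (w0 x) * ENNReal.ofReal (Real.exp (lam * osc (fun j => sc v ω j x) K)) := by
    intro ω
    apply Finset.sup_le
    intro m hm
    have hmK : m ≤ K := by
      have := Finset.mem_range.1 hm
      omega
    rw [← ENNReal.ofReal_mul hw]
    apply ENNReal.ofReal_le_ofReal
    have h2 := exJ_group M lam q hl.le w0 h0 (sc v ω) 0 K m hmK 0 x
    simp only [Nat.zero_add] at h2
    refine h2.trans (le_of_eq ?_)
    simp [MSet.gk, MSet.exJ]
  refine (lintegral_mono h1).trans ?_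
  rw [lintegral_const_mul' _ _ ENNReal.ofReal_ne_top]
  refine (mul_le_mul_right (osc_exp_nz lam v hl.le hv.le K x) _).trans ?_
  rw [← ENNReal.ofReal_mul hw]
  apply ENNReal.ofReal_le_ofReal
  rw [mul_comm (w0 x)]
  apply mul_le_mul_of_nonneg_right _ hw
  apply mul_le_mul_of_nonneg_left _ (by norm_num)
  apply Real.exp_le_exp.2
  nlinarith [hK]

private theorem LPPc_measurable_exJ (lam q v : ℝ) (w0 : S → ℝ) (m : ℕ) :
    ∀ (i : ℕ) (x : S), Measurable (fun ω : ℕ → S → ℝ => M.exJ lam q w0 (sc v ω) m i x) := by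
  have hg : ∀ (m : ℕ) (x : S), Measurable (fun ω : ℕ → S → ℝ => sc v ω m x) := by
    intro m x
    unfold sc
    fun_prop
  induction m with
  | zero =>
    intro i x
    rcases i with _ | i
    · simp only [MSet.exJ]
      exact measurable_const
    · simp only [MSet.exJ]
      exact measurable_const
  | succ m ih =>
    intro i x
    rcases i with _ | i
    · simp only [MSet.exJ]
      exact measurable_const.max ((ih 0 x).mul ((hg m x).const_mul lam).exp)
    · simp only [MSet.exJ]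
      refine ((ih (i + 1) x).mul ((hg m x).const_mul lam).exp).max (Measurable.mul ?_ ?_)
      · exact Finset.measurable_sum _ fun z _ => (ih i z).mul_const _
      · exact (((hg m x).max measurable_const).const_mul lam).exp

private theorem LPPc_measurable_sup (lam q v : ℝ) (w0 : S → ℝ) (K i : ℕ) (x : S) :
    Measurable (fun ω : ℕ → S → ℝ => (Finset.range (K + 1)).sup (fun m => ENNReal.ofReal
        (M.exJ lam q w0 (sc v ω) m i x))) := by
  have h := Finset.measurable_range_sup'' (n := K)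
    (f := fun m (ω : ℕ → S → ℝ) => ENNReal.ofReal (M.exJ lam q w0 (sc v ω) m i x))
    (fun m _ => (LPPc_measurable_exJ M lam q v w0 m i x).ennreal_ofReal)
  simpa only [Finset.sup'_eq_sup] using h

/-- one cell: the running maximum of `e^{λ W}` -/
theorem cell_all (lam q v e : ℝ) (hl : 0 < lam) (hv : 0 < v)
    (he0 : 0 ≤ e) (he : ∀ x, ∑ y, Real.exp (-(lam * q * max (M.dd y x : ℝ) 1)) ≤ e)
    (he1 : e ≤ Real.exp (-16) / 64) (K : ℕ) (hK : lam ^ 2 * v * K ≤ 1) :
    ∃ k : S → S → ℝ, (∀ z x, 0 ≤ k z x) ∧ (∀ x, ∑ z, k z x ≤ 4 * Real.exp 8 + Real.exp 48) ∧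
      ∀ W0 : S → ℝ, (∀ z, 0 ≤ W0 z) → ∀ x,
        ∫⁻ ω, ENNReal.ofReal (Real.exp (lam * M.lppM q W0 (sc v ω) K x)) ∂(PI (nz S))
          ≤ ENNReal.ofReal (∑ z, Real.exp (lam * W0 z) * k z x) := by
  classical
  have hq : ∀ i : ℕ, ∃ k : S → S → ℝ, (i < K → ((∀ z x, 0 ≤ k z x) ∧
      (∀ x, ∑ z, k z x ≤ Real.exp 48 * (16 * Real.exp 16 * e) ^ (i + 1)) ∧
      ∀ w0 : S → ℝ, (∀ z, 1 ≤ w0 z) → ∀ x,
        ∫⁻ ω, (Finset.range (K + 1)).sup (fun m => ENNReal.ofReal
            (M.exJ lam q w0 (sc v ω) m (i + 1) x)) ∂(PI (nz S))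
          ≤ ENNReal.ofReal (∑ z, w0 z * k z x))) := by
    intro i
    by_cases hiK : i < K
    · obtain ⟨k, hk⟩ := cell_jumps M lam q v e hl hv he0 he K (i + 1) hK (by omega) (by omega)
      exact ⟨k, fun _ => hk⟩
    · exact ⟨fun _ _ => 0, fun h => absurd h hiK⟩
  choose k hk using hq
  have hk0 : ∀ i ∈ Finset.range K, ∀ z x, 0 ≤ k i z x := fun i hi =>
    (hk i (Finset.mem_range.1 hi)).1
  refine ⟨fun z x => (if z = x then 4 * Real.exp 8 else 0) + ∑ i ∈ Finset.range K, k i z x,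
    fun z x => ?_, fun x => ?_, fun W0 hW0 x => ?_⟩
  · refine add_nonneg ?_ (Finset.sum_nonneg fun i hi => hk0 i hi z x)
    split_ifs
    · positivity
    · exact le_refl 0
  · rw [Finset.sum_add_distrib]
    have h1 : ∑ z, (if z = x then 4 * Real.exp 8 else 0) = 4 * Real.exp 8 := by simp
    rw [h1, Finset.sum_comm]
    refine add_le_add (le_refl _) ?_
    have h2 : 16 * Real.exp 16 * e ≤ 1 / 4 := by
      have h3 := mul_le_mul_of_nonneg_left he1 (by positivity : (0 : ℝ) ≤ 16 * Real.exp 16)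
      refine h3.trans (le_of_eq ?_)
      rw [Real.exp_neg]
      field_simp
      norm_num
    have h4 : ∀ i ∈ Finset.range K, ∑ z, k i z x ≤ Real.exp 48 * (1 / 4 : ℝ) ^ (i + 1) := by
      intro i hi
      refine ((hk i (Finset.mem_range.1 hi)).2.1 x).trans ?_
      apply mul_le_mul_of_nonneg_left _ (Real.exp_pos _).le
      exact pow_le_pow_left₀ (by positivity) h2 _
    refine (Finset.sum_le_sum h4).trans ?_
    rw [← Finset.mul_sum]
    have h5 : ∑ i ∈ Finset.range K, (1 / 4 : ℝ) ^ (i + 1) ≤ 1 := by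
      have h6 : ∀ n : ℕ, ∑ i ∈ Finset.range n, (1 / 4 : ℝ) ^ (i + 1) ≤ 1 - (1 / 4) ^ n := by
        intro n
        induction n with
        | zero => simp
        | succ n ihn =>
          rw [Finset.sum_range_succ]
          have h7 : (0 : ℝ) ≤ (1 / 4) ^ n := by positivity
          rw [pow_succ]
          linarith
      have h8 : (0 : ℝ) ≤ (1 / 4) ^ K := by positivity
      linarith [h6 K]
    calc Real.exp 48 * ∑ i ∈ Finset.range K, (1 / 4 : ℝ) ^ (i + 1) ≤ Real.exp 48 * 1 :=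
          mul_le_mul_of_nonneg_left h5 (Real.exp_pos _).le
      _ = Real.exp 48 := mul_one _
  · set w0 : S → ℝ := fun z => Real.exp (lam * W0 z) with hw0
    have hw1 : ∀ z, 1 ≤ w0 z := fun z => Real.one_le_exp (mul_nonneg hl.le (hW0 z))
    have hw00 : ∀ z, 0 ≤ w0 z := fun z => (Real.exp_pos _).le
    have h1 : ∀ ω : ℕ → S → ℝ, ENNReal.ofReal (Real.exp (lam * M.lppM q W0 (sc v ω) K x)) ≤
        (Finset.range (K + 1)).sup (fun m => ENNReal.ofReal
            (M.exJ lam q w0 (sc v ω) m 0 x)) +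
        ∑ i ∈ Finset.range K, (Finset.range (K + 1)).sup (fun m => ENNReal.ofReal
            (M.exJ lam q w0 (sc v ω) m (i + 1) x)) := by
      intro ω
      obtain ⟨m, hm, hmx⟩ := Finset.exists_mem_eq_sup' (s := Finset.range (K + 1))
        ⟨0, Finset.mem_range.mpr (Nat.succ_pos K)⟩ (fun m => M.lpp q W0 (sc v ω) m x)
      have hmx' : M.lppM q W0 (sc v ω) K x = M.lpp q W0 (sc v ω) m x := hmx
      rw [hmx']
      have hmK : m ≤ K := by
        have := Finset.mem_range.1 hm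
        omega
      have h2 := lpp_le_exJ M lam q hl.le W0 w0 hw1 (fun z => le_refl _) (sc v ω) m x
      have hn : ∀ i, 0 ≤ M.exJ lam q w0 (sc v ω) m i x := fun i =>
        exJ_nonneg M lam q w0 hw00 (sc v ω) m i x
      have h3 : ∑ i ∈ Finset.range (m + 1), M.exJ lam q w0 (sc v ω) m i x ≤
          ∑ i ∈ Finset.range (K + 1), M.exJ lam q w0 (sc v ω) m i x :=
        Finset.sum_le_sum_of_subset_of_nonneg
          (Finset.range_subset_range.2 (by omega)) (fun i _ _ => hn i)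
      refine (ENNReal.ofReal_le_ofReal (h2.trans h3)).trans ?_
      rw [Finset.sum_range_succ', add_comm, ENNReal.ofReal_add (hn 0)
        (Finset.sum_nonneg fun i _ => hn _), ENNReal.ofReal_sum_of_nonneg (fun i _ => hn _)]
      refine add_le_add ?_ (Finset.sum_le_sum fun i _ => ?_)
      · exact Finset.le_sup (f := fun m => ENNReal.ofReal
            (M.exJ lam q w0 (sc v ω) m 0 x)) hm
      · exact Finset.le_sup (f := fun m => ENNReal.ofReal
            (M.exJ lam q w0 (sc v ω) m (i + 1) x)) hm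
    refine (lintegral_mono h1).trans ?_
    rw [lintegral_add_left (LPPc_measurable_sup M lam q v w0 K 0 x),
      lintegral_finsetSum _ (fun i _ => LPPc_measurable_sup M lam q v w0 K (i + 1) x)]
    have h4 : ∀ i ∈ Finset.range K, ∫⁻ ω, (Finset.range (K + 1)).sup (fun m => ENNReal.ofReal
            (M.exJ lam q w0 (sc v ω) m (i + 1) x)) ∂(PI (nz S)) ≤
        ENNReal.ofReal (∑ z, w0 z * k i z x) := fun i hi =>
      (hk i (Finset.mem_range.1 hi)).2.2 w0 hw1 x
    refine (add_le_add (cell_zero M lam q v hl hv K hK w0 hw1 x) (Finset.sum_le_sum h4)).trans ?_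
    rw [← ENNReal.ofReal_sum_of_nonneg (fun i hi => Finset.sum_nonneg fun z _ =>
        mul_nonneg (hw00 z) (hk0 i hi z x)), ← ENNReal.ofReal_add
      (mul_nonneg (by positivity) (hw00 x)) (Finset.sum_nonneg fun i hi =>
        Finset.sum_nonneg fun z _ => mul_nonneg (hw00 z) (hk0 i hi z x))]
    apply ENNReal.ofReal_le_ofReal
    apply le_of_eq
    simp only [mul_add, Finset.sum_add_distrib, Finset.mul_sum]
    rw [Finset.sum_comm (s := Finset.range K)]
    congr 1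
    rw [Finset.sum_eq_single x (fun z _ hz => by simp [hz]) (fun h => absurd (Finset.mem_univ x) h)]
    simp only [if_true]
    ring

end DynC
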