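import Pool.Agent.Lib_MP_36b788c.PSDefs

/-!
# Finite metric sets, last passage functional, height model: definitions
-/

open MeasureTheory ProbabilityTheory
open scoped ENNReal

namespace DynC

noncomputable section

/-- finite set with an integer valued distance of polynomial growth -/
structure MSet (S : Type) [Fintype S] (D : ℕ) where
  dd : S → S → ℕ
  dd_self : ∀ x, dd x x = 0
  dd_pos : ∀ x y, x ≠ y → 1 ≤ dd x y
  dd_comm : ∀ x y, dd x y = dd y x
  dd_tri : ∀ x y z, dd x z ≤ dd x y + dd y z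
  growth : ∀ (x : S) (r : ℕ) (A : Finset S), (∀ y ∈ A, dd x y ≤ r) → A.card ≤ (2 * r + 1) ^ D

/-- `n` disjoint pairs of points at distance at most one near every point -/
def MSet.HasLine {S : Type} [Fintype S] {D : ℕ} (M : MSet S D) (n : ℕ) : Prop :=
  ∀ y : S, ∃ p : Fin n → Fin 2 → S, Function.Injective (fun q : Fin n × Fin 2 => p q.1 q.2) ∧
    (∀ i, M.dd (p i 0) (p i 1) = 1) ∧ ∀ i j, M.dd y (p i j) ≤ 2 * n

variable {S : Type} [Fintype S] {D : ℕ}

/-- sup convolution `R(F)(x) = max_z (F z - dd x z)` -/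
def MSet.RR (M : MSet S D) (F : S → ℝ) (x : S) : ℝ :=
  (Finset.univ.image fun z => F z - M.dd x z).max' (by
    exact ⟨F x - M.dd x x, Finset.mem_image_of_mem _ (Finset.mem_univ x)⟩)

/-- a maximizer `z` in `RR F x` (a fixed choice) -/
def MSet.am (M : MSet S D) (F : S → ℝ) (x : S) : S :=
  Classical.choose (show ∃ z, F z - M.dd x z = M.RR F x by
    have h := Finset.max'_mem (Finset.univ.image fun z => F z - (M.dd x z : ℝ))
      ⟨F x - M.dd x x, Finset.mem_image_of_mem _ (Finset.mem_univ x)⟩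
    obtain ⟨z, _, hz⟩ := Finset.mem_image.mp h
    exact ⟨z, hz⟩)

/-- one step of the height model with increments `g` -/
def MSet.mst (M : MSet S D) (F g : S → ℝ) : S → ℝ := fun x => min 0 (M.RR F x + g x)

/-- height model started at `X`, increments `g j = c • ω j` -/
def MSet.mf (M : MSet S D) (X : S → ℝ) (g : ℕ → S → ℝ) : ℕ → S → ℝ
  | 0 => X
  | n + 1 => M.mst (M.mf X g n) (g n)

/-- position at time `n - i` of the lineage of `(x, n)`: `i` steps back -/
def MSet.lin (M : MSet S D) (X : S → ℝ) (g : ℕ → S → ℝ) (n : ℕ) (x : S) : ℕ → S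
  | 0 => x
  | i + 1 => M.am (M.mf X g (n - (i + 1))) (M.lin X g n x i)

/-- the lineage of `(x,n)` is `η`-uncut back to time `m`: all uncapped values on it are `< η` -/
def MSet.uncut (M : MSet S D) (η : ℝ) (X : S → ℝ) (g : ℕ → S → ℝ) (n m : ℕ) (x : S) : Prop :=
  ∀ i, i < n - m → M.RR (M.mf X g (n - (i + 1))) (M.lin X g n x i) +
    g (n - (i + 1)) (M.lin X g n x i) < η

/-- sup convolution with cost `q` per unit -/
def MSet.Rq (M : MSet S D) (q : ℝ) (F : S → ℝ) (x : S) : ℝ :=
  (Finset.univ.image fun z => F z - q * M.dd x z).max' (by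
    exact ⟨F x - q * M.dd x x, Finset.mem_image_of_mem _ (Finset.mem_univ x)⟩)

/-- sup over all points at cost `q * max (dd) 1` -/
def MSet.Rq1 (M : MSet S D) (q : ℝ) (F : S → ℝ) (x : S) : ℝ :=
  (Finset.univ.image fun z => F z - q * max (M.dd x z : ℝ) 1).max' (by
    exact ⟨F x - q * max (M.dd x x : ℝ) 1, Finset.mem_image_of_mem _ (Finset.mem_univ x)⟩)

/-- last passage functional with jump cost `q`, initial field `W0`:
`W_{n+1}(x) = max (0, W_n(x) + g, sup_z (W_n(z) - q max(dd,1)) + g⁺)` -/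
def MSet.lpp (M : MSet S D) (q : ℝ) (W0 : S → ℝ) (g : ℕ → S → ℝ) : ℕ → S → ℝ
  | 0 => W0
  | n + 1 => fun x => max 0 (max (M.lpp q W0 g n x + g n x)
      (M.Rq1 q (M.lpp q W0 g n) x + max (g n x) 0))

/-- running maximum of the last passage functional -/
def MSet.lppM (M : MSet S D) (q : ℝ) (W0 : S → ℝ) (g : ℕ → S → ℝ) (n : ℕ) (x : S) : ℝ :=
  (Finset.range (n + 1)).sup' ⟨0, Finset.mem_range.mpr (Nat.succ_pos n)⟩
    (fun m => M.lpp q W0 g m x)

/-- `max_{m ≤ n} Σ_{j<m} b_j` -/
def pmax (b : ℕ → ℝ) (n : ℕ) : ℝ :=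
  (Finset.range (n + 1)).sup' ⟨0, Finset.mem_range.mpr (Nat.succ_pos n)⟩
    (fun m => ∑ j ∈ Finset.range m, b j)

/-- oscillation bound `max_m P_m + max_m (-P_m)` of the partial sums -/
def osc (b : ℕ → ℝ) (n : ℕ) : ℝ := pmax b n + pmax (fun j => -b j) n

/-- exponential of the best value with exactly `i` jumps after `m` steps, initial weight `w0` -/
def MSet.exJ (M : MSet S D) (lam q : ℝ) (w0 : S → ℝ) (g : ℕ → S → ℝ) : ℕ → ℕ → S → ℝ
  | 0, 0 => w0
  | 0, _ + 1 => fun _ => 0
  | m + 1, 0 => fun x => max 1 (M.exJ lam q w0 g m 0 x * Real.exp (lam * g m x))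
  | m + 1, i + 1 => fun x => max (M.exJ lam q w0 g m (i + 1) x * Real.exp (lam * g m x))
      ((∑ z, M.exJ lam q w0 g m i z * Real.exp (-(lam * q * max (M.dd x z : ℝ) 1)))
        * Real.exp (lam * max (g m x) 0))

/-- group kernel with `l` jumps, noise `g` on `K` steps -/
def MSet.gk (M : MSet S D) (lam q : ℝ) (g : ℕ → S → ℝ) (K : ℕ) : ℕ → S → S → ℝ
  | 0 => fun z x => open Classical in if z = x then Real.exp (lam * osc (fun j => g j x) K) else 0
  | l + 1 => fun z x => (∑ y, M.gk lam q g K l z y *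
      Real.exp (-(lam * q * max (M.dd y x : ℝ) 1))) * Real.exp (lam * osc (fun j => g j x) K)

/-- Gaussian noise field with unit variance -/
def nz (S : Type) [Fintype S] : Measure (S → ℝ) := Measure.pi (fun _ => gaussianReal 0 1)

instance : IsProbabilityMeasure (nz S) := by
  unfold nz; infer_instance

/-- rescaled noise -/
def sc (v : ℝ) (ω : ℕ → S → ℝ) : ℕ → S → ℝ := fun j x => Real.sqrt v * ω j x

end

end DynC
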