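import Pool.Agent.Lib_MP_36b788c.PS
import Pool.Agent.Lib_MP_36b788c.MFDefs

/-!
# Oscillation of partial sums: deterministic facts and exponential moments

PROOF.
* `pmax_nonneg` (take `m = 0`), `pmax_mono` in `n`, `le_pmax`, and for `i ≤ j ≤ n`:
  `|Σ_{l∈[i,j)} b_l| ≤ osc b n` (difference of two partial sums).
* `max_ineq`: nonnegative supermartingale maximal inequality on path space. Let `θ = E e^{sφ} ≤ e^{w}`. Claim by
  induction on `n`: for all `y > 0`, `P(∃ m ≤ n, y ≤ exp(s P_m - m w)) ≤ 1/y`. `y ≤ 1`: trivial (a probability).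
  `y > 1`: `m = 0` is impossible, condition on the first entry `a` (`lintegral_cons`):
  the event is `∃ m ≤ n-1, y e^{-sφ(a)+w} ≤ exp(s P'_m - m w)` for the shifted sequence, so the probability is
  `≤ E[e^{sφ(a)-w}]/y ≤ 1/y`.
* `pmax_exp`: with the exponent `2s` and `w = 2s²v`: `P(e^{s pmax_n} ≥ y) = P(e^{2s pmax_n} ≥ y²) ≤ e^{2s²vn} y^{-2}`
  (`exp(2sP_m) ≤ exp(2sP_m - m w) e^{n w}`), and `E e^{s pmax} ≤ 1 + ∫_1^∞ P(e^{s pmax} ≥ y) dy ≤ 1 + e^{2s²vn}
  ≤ 2 e^{2s²vn}` (layer cake `lintegral_eq_lintegral_meas_le` or a dyadic sum; any constant is fine as long as the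
  stated one results; with the dyadic sum use `y = 2^j`, constant below is `4`).
* `osc_exp`: Cauchy-Schwarz `E e^{s osc} ≤ (E e^{2s pmax})^{1/2} (E e^{2s pmax(-b)})^{1/2}`.
-/

open MeasureTheory ProbabilityTheory
open scoped ENNReal

namespace DynC

theorem pmax_nonneg (b : ℕ → ℝ) (n : ℕ) : 0 ≤ pmax b n := by
  have h := Finset.le_sup' (f := fun m => ∑ j ∈ Finset.range m, b j)
    (Finset.mem_range.mpr (Nat.succ_pos n))
  simpa [pmax] using h

theorem le_pmax (b : ℕ → ℝ) {m n : ℕ} (h : m ≤ n) : ∑ j ∈ Finset.range m, b j ≤ pmax b n :=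
  Finset.le_sup' (f := fun m => ∑ j ∈ Finset.range m, b j)
    (Finset.mem_range.mpr (Nat.lt_succ_of_le h))

theorem pmax_mono (b : ℕ → ℝ) {m n : ℕ} (h : m ≤ n) : pmax b m ≤ pmax b n := by
  refine Finset.sup'_le _ _ fun k hk => ?_
  exact le_pmax b ((Nat.lt_succ_iff.mp (Finset.mem_range.mp hk)).trans h)

theorem osc_nonneg (b : ℕ → ℝ) (n : ℕ) : 0 ≤ osc b n :=
  add_nonneg (pmax_nonneg _ _) (pmax_nonneg _ _)

theorem osc_mono (b : ℕ → ℝ) {m n : ℕ} (h : m ≤ n) : osc b m ≤ osc b n :=
  add_le_add (pmax_mono _ h) (pmax_mono _ h)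

theorem sum_le_osc (b : ℕ → ℝ) {i j n : ℕ} (hij : i ≤ j) (hj : j ≤ n) :
    |∑ l ∈ Finset.Ico i j, b l| ≤ osc b n := by
  have h1 := le_pmax b hj
  have h2 := le_pmax b (hij.trans hj)
  have h3 := le_pmax (fun l => -b l) hj
  have h4 := le_pmax (fun l => -b l) (hij.trans hj)
  rw [Finset.sum_neg_distrib] at h3 h4
  rw [Finset.sum_Ico_eq_sub _ hij]
  unfold osc
  rw [abs_le]
  constructor <;> linarith

private theorem Osc_exists (b : ℕ → ℝ) (n : ℕ) :
    ∃ m, m ≤ n ∧ pmax b n = ∑ j ∈ Finset.range m, b j := by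
  obtain ⟨m, hm, h⟩ := Finset.exists_mem_eq_sup' (s := Finset.range (n + 1))
    ⟨0, Finset.mem_range.mpr (Nat.succ_pos n)⟩ (fun m => ∑ j ∈ Finset.range m, b j)
  exact ⟨m, Nat.lt_succ_iff.mp (Finset.mem_range.mp hm), h⟩

variable {X : Type} [MeasurableSpace X] {μ : Measure X} [IsProbabilityMeasure μ]

private theorem Osc_meas_sum (φ : X → ℝ) (hφ : Measurable φ) (m : ℕ) :
    Measurable (fun ω : ℕ → X => ∑ j ∈ Finset.range m, φ (ω j)) :=
  Finset.measurable_sum _ fun j _ => hφ.comp (measurable_pi_apply j)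

private theorem Osc_meas_pmax (φ : X → ℝ) (hφ : Measurable φ) (n : ℕ) :
    Measurable (fun ω : ℕ → X => pmax (fun j => φ (ω j)) n) := by
  unfold pmax
  exact Finset.measurable_range_sup'' fun m _ => Osc_meas_sum φ hφ m

/-- maximal inequality for a nonnegative exponential supermartingale -/
theorem max_ineq (φ : X → ℝ) (hφ : Measurable φ) (s w : ℝ)
    (h : ∫⁻ a, ENNReal.ofReal (Real.exp (s * φ a)) ∂μ ≤ ENNReal.ofReal (Real.exp w)) (n : ℕ)
    (y : ℝ) (hy : 0 < y) :
    PI μ {ω | ∃ m, m ≤ n ∧ y ≤ Real.exp (s * (∑ j ∈ Finset.range m, φ (ω j)) - m * w)}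
      ≤ ENNReal.ofReal (1 / y) := by
  induction n generalizing y with
  | zero =>
    rcases le_or_gt y 1 with hy1 | hy1
    · refine prob_le_one.trans ?_
      rw [ENNReal.one_le_ofReal]
      exact (one_le_div hy).2 hy1
    · have : {ω : ℕ → X | ∃ m, m ≤ 0 ∧
          y ≤ Real.exp (s * (∑ j ∈ Finset.range m, φ (ω j)) - m * w)} = ∅ := by
        rw [Set.eq_empty_iff_forall_notMem]
        rintro ω ⟨m, hm, hle⟩
        obtain rfl : m = 0 := Nat.le_zero.mp hm
        simp at hle
        linarith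
      rw [this]
      simp
  | succ n ih =>
    rcases le_or_gt y 1 with hy1 | hy1
    · refine prob_le_one.trans ?_
      rw [ENNReal.one_le_ofReal]
      exact (one_le_div hy).2 hy1
    · set E : Set (ℕ → X) := {ω | ∃ m, m ≤ n + 1 ∧
          y ≤ Real.exp (s * (∑ j ∈ Finset.range m, φ (ω j)) - m * w)} with hE
      have hEm : MeasurableSet E := by
        have : E = ⋃ m : ℕ, {ω : ℕ → X | m ≤ n + 1 ∧
            y ≤ Real.exp (s * (∑ j ∈ Finset.range m, φ (ω j)) - m * w)} := by
          ext ω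
          simp [hE]
        rw [this]
        refine MeasurableSet.iUnion fun m => ?_
        have hm2 : Measurable (fun ω : ℕ → X =>
            Real.exp (s * (∑ j ∈ Finset.range m, φ (ω j)) - m * w)) :=
          Real.measurable_exp.comp (((Osc_meas_sum φ hφ m).const_mul s).sub measurable_const)
        exact (MeasurableSet.const _).inter
          (measurableSet_le (f := fun _ : ℕ → X => y) measurable_const hm2)
      have h1 : PI μ E = ∫⁻ ω, E.indicator (fun _ => (1 : ℝ≥0∞)) ω ∂(PI μ) := by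
        rw [lintegral_indicator hEm, lintegral_const, Measure.restrict_apply_univ, one_mul]
      rw [h1, lintegral_cons _ (measurable_const.indicator hEm)]
      have h2 : ∀ a : X, ∫⁻ ω, E.indicator (fun _ => (1 : ℝ≥0∞)) (fun i => Nat.casesOn i a ω) ∂(PI μ)
          ≤ ENNReal.ofReal (Real.exp (s * φ a)) * ENNReal.ofReal (Real.exp (-w) / y) := by
        intro a
        have hy' : 0 < y * Real.exp (w - s * φ a) := mul_pos hy (Real.exp_pos _)
        refine le_trans ?_ (le_trans (ih (y * Real.exp (w - s * φ a)) hy') ?_)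
        · set E' : Set (ℕ → X) := {ω | ∃ m, m ≤ n ∧ y * Real.exp (w - s * φ a) ≤
            Real.exp (s * (∑ j ∈ Finset.range m, φ (ω j)) - m * w)} with hE'
          have hsub : ∀ ω : ℕ → X, E.indicator (fun _ => (1 : ℝ≥0∞)) (fun i => Nat.casesOn i a ω)
              ≤ E'.indicator (fun _ => (1 : ℝ≥0∞)) ω := by
            intro ω
            by_cases hω : (fun i => Nat.casesOn i a ω : ℕ → X) ∈ E
            · rw [Set.indicator_of_mem hω]
              have hω' : ω ∈ E' := by
                obtain ⟨m, hm, hle⟩ := hω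
                rcases m with _ | m
                · exfalso
                  simp at hle
                  linarith
                · refine ⟨m, Nat.le_of_succ_le_succ hm, ?_⟩
                  rw [Finset.sum_range_succ'] at hle
                  have e1 : Real.exp (s * (∑ j ∈ Finset.range m, φ (ω j)) - m * w)
                      = Real.exp (s * (∑ j ∈ Finset.range m, φ (ω j) + φ a) - ((m + 1 : ℕ) : ℝ) * w)
                        * Real.exp (w - s * φ a) := by
                    rw [← Real.exp_add]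
                    congr 1
                    push_cast
                    ring
                  rw [e1]
                  exact mul_le_mul_of_nonneg_right hle (Real.exp_pos _).le
              rw [Set.indicator_of_mem hω']
            · rw [Set.indicator_of_notMem hω]
              exact zero_le
          refine (lintegral_mono hsub).trans ?_
          exact (lintegral_indicator_one_le E')
        · rw [← ENNReal.ofReal_mul (Real.exp_pos _).le]
          apply ENNReal.ofReal_le_ofReal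
          apply le_of_eq
          rw [Real.exp_sub, Real.exp_neg]
          field_simp
      refine (lintegral_mono h2).trans ?_
      rw [lintegral_mul_const _ (by fun_prop)]
      refine (mul_le_mul_left h _).trans ?_
      rw [← ENNReal.ofReal_mul (Real.exp_pos _).le]
      apply ENNReal.ofReal_le_ofReal
      apply le_of_eq
      rw [Real.exp_neg]
      field_simp

/-- layer cake with the tail `A / y ^ 2` -/
private theorem Osc_layer {Ω : Type} [MeasurableSpace Ω] (P : Measure Ω) [IsProbabilityMeasure P]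
    (Z : Ω → ℝ) (hZ : Measurable Z) (h0 : ∀ ω, 0 ≤ Z ω) (A : ℝ) (hA : 1 ≤ A)
    (h : ∀ y : ℝ, 0 < y → P {ω | y ≤ Z ω} ≤ ENNReal.ofReal (A / y ^ 2)) :
    ∫⁻ ω, ENNReal.ofReal (Z ω) ∂P ≤ ENNReal.ofReal (2 * A) := by
  rw [lintegral_eq_lintegral_meas_le P (Filter.Eventually.of_forall h0) hZ.aemeasurable]
  have hu : Set.Ioi (0 : ℝ) = Set.Ioc 0 1 ∪ Set.Ioi 1 := by
    rw [Set.Ioc_union_Ioi_eq_Ioi zero_le_one]
  rw [hu]
  refine (lintegral_union_le _ _ _).trans ?_
  have h1 : ∫⁻ t in Set.Ioc (0 : ℝ) 1, P {a | t ≤ Z a} ≤ ENNReal.ofReal A := by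
    calc ∫⁻ t in Set.Ioc (0 : ℝ) 1, P {a | t ≤ Z a}
        ≤ ∫⁻ _ in Set.Ioc (0 : ℝ) 1, 1 := lintegral_mono fun t => prob_le_one
      _ = 1 := by simp
      _ ≤ ENNReal.ofReal A := by rwa [ENNReal.one_le_ofReal]
  have h2 : ∫⁻ t in Set.Ioi (1 : ℝ), P {a | t ≤ Z a} ≤ ENNReal.ofReal A := by
    have hint : IntegrableOn (fun t : ℝ => A * t ^ (-2 : ℝ)) (Set.Ioi 1) :=
      (integrableOn_Ioi_rpow_of_lt (by norm_num) one_pos).const_mul A
    calc ∫⁻ t in Set.Ioi (1 : ℝ), P {a | t ≤ Z a}
        ≤ ∫⁻ t in Set.Ioi (1 : ℝ), ENNReal.ofReal (A * t ^ (-2 : ℝ)) := by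
          refine setLIntegral_mono' measurableSet_Ioi fun t ht => ?_
          have ht0 : (0 : ℝ) < t := zero_lt_one.trans ht
          refine (h t ht0).trans (le_of_eq ?_)
          congr 1
          rw [Real.rpow_neg ht0.le, div_eq_mul_inv]
          norm_num
      _ = ENNReal.ofReal (∫ t in Set.Ioi (1 : ℝ), A * t ^ (-2 : ℝ)) := by
          rw [ofReal_integral_eq_lintegral_ofReal hint]
          refine (ae_restrict_mem measurableSet_Ioi).mono fun t ht => ?_
          have ht0 : (0 : ℝ) < t := zero_lt_one.trans ht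
          exact mul_nonneg (by linarith) (Real.rpow_nonneg ht0.le _)
      _ = ENNReal.ofReal A := by
          congr 1
          rw [integral_const_mul, integral_Ioi_rpow_of_lt (by norm_num) one_pos]
          norm_num
  calc _ ≤ ENNReal.ofReal A + ENNReal.ofReal A := add_le_add h1 h2
    _ = ENNReal.ofReal (2 * A) := by
      rw [← ENNReal.ofReal_add (by linarith) (by linarith)]
      congr 1
      ring

theorem pmax_exp (φ : X → ℝ) (hφ : Measurable φ) (s v : ℝ) (hs : 0 ≤ s) (hv : 0 ≤ v)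
    (h : ∫⁻ a, ENNReal.ofReal (Real.exp (2 * s * φ a)) ∂μ
      ≤ ENNReal.ofReal (Real.exp (2 * s ^ 2 * v))) (n : ℕ) :
    ∫⁻ ω, ENNReal.ofReal (Real.exp (s * pmax (fun j => φ (ω j)) n)) ∂(PI μ)
      ≤ ENNReal.ofReal (4 * Real.exp (2 * s ^ 2 * v * n)) := by
  have hw : 0 ≤ 2 * s ^ 2 * v := by positivity
  have hA : (1 : ℝ) ≤ Real.exp (2 * s ^ 2 * v * n) :=
    Real.one_le_exp (mul_nonneg hw (Nat.cast_nonneg n))
  have hZ : Measurable (fun ω : ℕ → X => Real.exp (s * pmax (fun j => φ (ω j)) n)) :=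
    Real.measurable_exp.comp ((Osc_meas_pmax φ hφ n).const_mul s)
  refine (Osc_layer (PI μ) _ hZ (fun ω => (Real.exp_pos _).le)
    (Real.exp (2 * s ^ 2 * v * n)) hA ?_).trans ?_
  · intro y hy
    have hy' : 0 < y ^ 2 * Real.exp (-(2 * s ^ 2 * v * n)) := by positivity
    refine le_trans (measure_mono ?_) ((max_ineq φ hφ (2 * s) (2 * s ^ 2 * v) h n
      (y ^ 2 * Real.exp (-(2 * s ^ 2 * v * n))) hy').trans ?_)
    · intro ω hω
      obtain ⟨m, hm, he⟩ := Osc_exists (fun j => φ (ω j)) n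
      refine ⟨m, hm, ?_⟩
      have hω' : y ≤ Real.exp (s * ∑ j ∈ Finset.range m, φ (ω j)) := by
        have : y ≤ Real.exp (s * pmax (fun j => φ (ω j)) n) := hω
        rwa [he] at this
      have h1 : y ^ 2 ≤ Real.exp (2 * s * ∑ j ∈ Finset.range m, φ (ω j)) := by
        calc y ^ 2 ≤ (Real.exp (s * ∑ j ∈ Finset.range m, φ (ω j))) ^ 2 :=
              pow_le_pow_left₀ hy.le hω' 2
          _ = Real.exp (2 * s * ∑ j ∈ Finset.range m, φ (ω j)) := by
              rw [← Real.exp_nat_mul]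
              congr 1
              push_cast
              ring
      calc y ^ 2 * Real.exp (-(2 * s ^ 2 * v * n))
          ≤ Real.exp (2 * s * ∑ j ∈ Finset.range m, φ (ω j))
            * Real.exp (-(2 * s ^ 2 * v * m)) := by
            apply mul_le_mul h1 _ (Real.exp_pos _).le (Real.exp_pos _).le
            apply Real.exp_le_exp.mpr
            have : (m : ℝ) ≤ n := by exact_mod_cast hm
            have := mul_le_mul_of_nonneg_left this hw
            linarith
        _ = Real.exp (2 * s * (∑ j ∈ Finset.range m, φ (ω j)) - m * (2 * s ^ 2 * v)) := by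
            rw [← Real.exp_add]
            congr 1
            ring
    · apply ENNReal.ofReal_le_ofReal
      apply le_of_eq
      rw [Real.exp_neg]
      field_simp
  · apply ENNReal.ofReal_le_ofReal
    linarith

/-- `E e^{s osc} ≤ 4 e^{8 s² v n}` -/
theorem osc_exp (φ : X → ℝ) (hφ : Measurable φ) (s v : ℝ) (hs : 0 ≤ s) (hv : 0 ≤ v)
    (h : ∀ r, |r| ≤ 4 * s → ∫⁻ a, ENNReal.ofReal (Real.exp (r * φ a)) ∂μ
      ≤ ENNReal.ofReal (Real.exp (r ^ 2 * v / 2))) (n : ℕ) :
    ∫⁻ ω, ENNReal.ofReal (Real.exp (s * osc (fun j => φ (ω j)) n)) ∂(PI μ)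
      ≤ ENNReal.ofReal (4 * Real.exp (8 * s ^ 2 * v * n)) := by
  have hφ' : Measurable (fun a => -φ a) := hφ.neg
  have hp : ∫⁻ ω, ENNReal.ofReal (Real.exp ((2 * s) * pmax (fun j => φ (ω j)) n)) ∂(PI μ)
      ≤ ENNReal.ofReal (4 * Real.exp (2 * (2 * s) ^ 2 * v * n)) := by
    refine pmax_exp φ hφ (2 * s) v (by positivity) hv ?_ n
    have h4 := h (4 * s) (by rw [abs_of_nonneg (by positivity)])
    have e1 : (2 * (2 * s) : ℝ) = 4 * s := by ring
    have e2 : 2 * (2 * s) ^ 2 * v = (4 * s) ^ 2 * v / 2 := by ring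
    rw [e1, e2]
    exact h4
  have hm : ∫⁻ ω, ENNReal.ofReal (Real.exp ((2 * s) * pmax (fun j => -φ (ω j)) n)) ∂(PI μ)
      ≤ ENNReal.ofReal (4 * Real.exp (2 * (2 * s) ^ 2 * v * n)) := by
    refine pmax_exp (fun a => -φ a) hφ' (2 * s) v (by positivity) hv ?_ n
    have h4 := h (-(4 * s)) (by rw [abs_neg, abs_of_nonneg (by positivity)])
    have e1 : ∀ a, 2 * (2 * s) * -φ a = -(4 * s) * φ a := fun a => by ring
    have e2 : 2 * (2 * s) ^ 2 * v = (-(4 * s)) ^ 2 * v / 2 := by ring
    simp only [e1]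
    rw [e2]
    exact h4
  have hmp : Measurable (fun ω : ℕ → X =>
      ENNReal.ofReal (Real.exp ((2 * s) * pmax (fun j => φ (ω j)) n))) :=
    ENNReal.measurable_ofReal.comp
      (Real.measurable_exp.comp ((Osc_meas_pmax φ hφ n).const_mul (2 * s)))
  have key : ∀ ω : ℕ → X, ENNReal.ofReal (Real.exp (s * osc (fun j => φ (ω j)) n))
      ≤ ENNReal.ofReal (1 / 2) * (ENNReal.ofReal (Real.exp ((2 * s) * pmax (fun j => φ (ω j)) n))
        + ENNReal.ofReal (Real.exp ((2 * s) * pmax (fun j => -φ (ω j)) n))) := by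
    intro ω
    rw [← ENNReal.ofReal_add (Real.exp_pos _).le (Real.exp_pos _).le,
      ← ENNReal.ofReal_mul (by norm_num)]
    apply ENNReal.ofReal_le_ofReal
    set p := pmax (fun j => φ (ω j)) n
    set q := pmax (fun j => -φ (ω j)) n
    have e0 : osc (fun j => φ (ω j)) n = p + q := rfl
    have e1 : Real.exp (s * (p + q)) = Real.exp (s * p) * Real.exp (s * q) := by
      rw [← Real.exp_add]
      congr 1
      ring
    have e2 : Real.exp (2 * s * p) = Real.exp (s * p) ^ 2 := by
      rw [← Real.exp_nat_mul]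
      congr 1
      push_cast
      ring
    have e3 : Real.exp (2 * s * q) = Real.exp (s * q) ^ 2 := by
      rw [← Real.exp_nat_mul]
      congr 1
      push_cast
      ring
    rw [e0, e1, e2, e3]
    nlinarith [sq_nonneg (Real.exp (s * p) - Real.exp (s * q))]
  refine (lintegral_mono key).trans ?_
  rw [lintegral_const_mul' _ _ ENNReal.ofReal_ne_top, lintegral_add_left hmp]
  refine (mul_le_mul_right (add_le_add hp hm) _).trans ?_
  rw [← ENNReal.ofReal_add (by positivity) (by positivity), ← ENNReal.ofReal_mul (by norm_num)]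
  apply ENNReal.ofReal_le_ofReal
  apply le_of_eq
  have e2 : 2 * (2 * s) ^ 2 * v * n = 8 * s ^ 2 * v * n := by ring
  rw [e2]
  ring

private theorem Osc_gauss {S : Type} [Fintype S] (x : S) (r v : ℝ) (hv : 0 ≤ v) :
    ∫⁻ a, ENNReal.ofReal (Real.exp (r * (Real.sqrt v * a x))) ∂(nz S)
      ≤ ENNReal.ofReal (Real.exp (r ^ 2 * v / 2)) := by
  have hmp : MeasurePreserving (Function.eval x)
      (Measure.pi (fun _ : S => gaussianReal 0 1)) (gaussianReal 0 1) :=
    measurePreserving_eval (fun _ : S => gaussianReal 0 1) x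
  have h1 : ∫⁻ a, ENNReal.ofReal (Real.exp (r * (Real.sqrt v * a x))) ∂(nz S)
      = ∫⁻ t, ENNReal.ofReal (Real.exp ((r * Real.sqrt v) * t)) ∂(gaussianReal 0 1) := by
    have h2 := hmp.lintegral_comp
      (f := fun t : ℝ => ENNReal.ofReal (Real.exp ((r * Real.sqrt v) * t))) (by fun_prop)
    rw [← h2]
    unfold nz
    refine lintegral_congr fun a => ?_
    simp only [Function.eval]
    rw [mul_assoc]
  rw [h1, ← ofReal_integral_eq_lintegral_ofReal (integrable_exp_mul_gaussianReal _)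
    (Filter.Eventually.of_forall fun t => (Real.exp_pos _).le)]
  apply ENNReal.ofReal_le_ofReal
  apply le_of_eq
  have h3 := congrFun (mgf_fun_id_gaussianReal (μ := 0) (v := 1)) (r * Real.sqrt v)
  unfold mgf at h3
  rw [h3]
  congr 1
  rw [mul_pow, Real.sq_sqrt hv]
  simp

/-- Gaussian case, one site of the noise field -/
theorem osc_exp_nz {S : Type} [Fintype S] (s v : ℝ) (hs : 0 ≤ s) (hv : 0 ≤ v) (n : ℕ) (x : S) :
    ∫⁻ ω, ENNReal.ofReal (Real.exp (s * osc (fun j => sc v ω j x) n)) ∂(PI (nz S))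
      ≤ ENNReal.ofReal (4 * Real.exp (8 * s ^ 2 * v * n)) := by
  have hφ : Measurable (fun a : S → ℝ => Real.sqrt v * a x) :=
    (measurable_pi_apply x).const_mul _
  exact osc_exp (μ := nz S) (fun a => Real.sqrt v * a x) hφ s v hs hv
    (fun r _ => Osc_gauss x r v hv) n

/-- probability of a large oscillation -/
theorem osc_tail_nz {S : Type} [Fintype S] (v : ℝ) (hv : 0 < v) (n : ℕ) (hn : 0 < n) (x : S)
    (r : ℝ) (hr : 0 ≤ r) :
    PI (nz S) {ω | r ≤ osc (fun j => sc v ω j x) n}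
      ≤ ENNReal.ofReal (4 * Real.exp (-(r ^ 2) / (32 * (v * n)))) := by
  have hn' : (0 : ℝ) < n := by exact_mod_cast hn
  set s : ℝ := r / (16 * (v * n)) with hs
  have hs0 : 0 ≤ s := by positivity
  have h1 := osc_exp_nz s v hs0 hv.le n x
  have hφ : Measurable (fun a : S → ℝ => Real.sqrt v * a x) :=
    (measurable_pi_apply x).const_mul _
  have hφ' : Measurable (fun a : S → ℝ => -(Real.sqrt v * a x)) := hφ.neg
  have hmo : Measurable (fun ω : ℕ → S → ℝ => osc (fun j => sc v ω j x) n) :=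
    (Osc_meas_pmax _ hφ n).add (Osc_meas_pmax _ hφ' n)
  have hme : Measurable (fun ω : ℕ → S → ℝ =>
      ENNReal.ofReal (Real.exp (s * osc (fun j => sc v ω j x) n))) :=
    ENNReal.measurable_ofReal.comp (Real.measurable_exp.comp (hmo.const_mul s))
  have h2 := mul_meas_ge_le_lintegral (μ := PI (nz S)) hme (ENNReal.ofReal (Real.exp (s * r)))
  have hsub : {ω : ℕ → S → ℝ | r ≤ osc (fun j => sc v ω j x) n} ⊆
      {ω | ENNReal.ofReal (Real.exp (s * r)) ≤
        ENNReal.ofReal (Real.exp (s * osc (fun j => sc v ω j x) n))} := by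
    intro ω hω
    apply ENNReal.ofReal_le_ofReal
    exact Real.exp_le_exp.mpr (mul_le_mul_of_nonneg_left hω hs0)
  have h3 : ENNReal.ofReal (Real.exp (s * r)) * PI (nz S) {ω | r ≤ osc (fun j => sc v ω j x) n}
      ≤ ENNReal.ofReal (4 * Real.exp (8 * s ^ 2 * v * n)) :=
    (mul_le_mul_right (measure_mono hsub) _).trans (h2.trans h1)
  have h4 : PI (nz S) {ω | r ≤ osc (fun j => sc v ω j x) n}
      ≤ ENNReal.ofReal (Real.exp (-(s * r))) * ENNReal.ofReal (4 * Real.exp (8 * s ^ 2 * v * n)) := by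
    have h5 := mul_le_mul_right h3 (ENNReal.ofReal (Real.exp (-(s * r))))
    rw [← mul_assoc, ← ENNReal.ofReal_mul (Real.exp_pos _).le, ← Real.exp_add,
      neg_add_cancel, Real.exp_zero, ENNReal.ofReal_one, one_mul] at h5
    exact h5
  refine h4.trans ?_
  rw [← ENNReal.ofReal_mul (Real.exp_pos _).le]
  apply ENNReal.ofReal_le_ofReal
  apply le_of_eq
  have e1 : Real.exp (-(s * r)) * (4 * Real.exp (8 * s ^ 2 * v * n))
      = 4 * Real.exp (-(s * r) + 8 * s ^ 2 * v * n) := by
    rw [Real.exp_add]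
    ring
  rw [e1]
  congr 2
  rw [hs]
  field_simp
  ring

end DynC
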