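import Pool.Agent.Lib_MP_36b788c.Brg2
import Pool.Agent.Lib_MP_36b788c.LPPc
import Pool.Agent.Lib_MP_36b788c.Osc
import Pool.Agent.Lib_MP_36b788c.BNoise2

/-!
# The bridge: probability of regular noise

PROOF. `v = h/ell²`, `K = ns`, `v K ≤ sw + 1/ell² ≤ 2 sw` (small `k`). The law of `gz k h ω` is that of `sc v ω`, `ω ~ nz` (`re_law` in `Reg2.lean`; the conditions on `gz` are measurable: `measurable_lppM`).
`lam = 1/√(2 sw)`, so `lam² v K ≤ 1`. `eps_small` with `q = 1`, `e = exp(-16)/64` gives `L0`; `cell_all` for the exponent `lam` and `q = κ2/2` needs `lam κ2/2 ≥ L0` (the sum in `cell_all` is `Σ exp(-(lam κ2/2) max(dd,1))`): `C √sw ≤ κ2`. `W0 = 0`: `E exp(lam lppM (κ2/2) v) ≤ C1 = 4e^8 + e^48`.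
`P(∃ v, lppM v > κ3(1 + dist x v)) ≤ Σ_v C1 exp(-lam κ3(1+dist x v)) ≤ C1 exp(-lam κ3) Σ_v exp(-lam κ3 dist x v)`, `lam κ3 ≥ C/√2 ≥ 1`, `sum_exp_dd`. Union over the at most `(2Rb+1)^d` sites of the ball (`growth`). Block sums: `osc_exp_nz` with `s = lam`, `sum_le_osc`: `≤ 4 e^8 exp(-lam κ3)` for each site of the ball.
Third condition: `cell_all` with `q = 1/8`, `lam/8 ≥ L0`: `Σ_v C1 exp(-lam(1/4 + dist y v/16)) ≤ C exp(-lam/4)` (`lam/16 ≥ 1`).
First condition: `P(some ω j x ∉ gdC h) ≤ ns card(box) h³` (`bnoise2.tail`) `≤ (ell³ + 1) card h² ≤ exp(-1/√sw)` for small `h` (depending on `L`, `k`).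
-/

open MeasureTheory ProbabilityTheory
open scoped ENNReal

namespace DynC

open Dyn

private theorem Brg3_sc {S : Type} [Fintype S] (v : ℝ) :
    Measurable (fun ω : ℕ → S → ℝ => sc v ω) := by
  unfold sc
  fun_prop

private theorem Brg3_pmax {Ω : Type} [MeasurableSpace Ω] (f : Ω → ℕ → ℝ)
    (hf : ∀ j, Measurable fun ω => f ω j) (n : ℕ) : Measurable fun ω => pmax (f ω) n := by
  unfold pmax
  exact Finset.measurable_range_sup'' fun m _ =>
    Finset.measurable_fun_sum _ fun j _ => hf j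

private theorem Brg3_osc {S : Type} [Fintype S] (n : ℕ) (x : S) :
    Measurable (fun g : ℕ → S → ℝ => osc (fun j => g j x) n) := by
  have h1 : ∀ j, Measurable fun g : ℕ → S → ℝ => g j x := fun j =>
    (measurable_pi_apply x).comp (measurable_pi_apply j)
  unfold osc
  exact (Brg3_pmax (fun (g : ℕ → S → ℝ) (j : ℕ) => g j x) h1 n).add
    (Brg3_pmax (fun (g : ℕ → S → ℝ) (j : ℕ) => -g j x) (fun j => (h1 j).neg) n)

private theorem Brg3_markov {Ω : Type} [MeasurableSpace Ω] (μ : Measure Ω) {f : Ω → ℝ≥0∞}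
    (hf : Measurable f) (r C : ℝ) (h : ∫⁻ ω, f ω ∂μ ≤ ENNReal.ofReal C) (E : Set Ω)
    (hE : ∀ ω ∈ E, ENNReal.ofReal (Real.exp r) ≤ f ω) :
    μ E ≤ ENNReal.ofReal (C * Real.exp (-r)) := by
  have h2 := mul_meas_ge_le_lintegral (μ := μ) hf (ENNReal.ofReal (Real.exp r))
  have h3 : ENNReal.ofReal (Real.exp r) * μ E ≤ ENNReal.ofReal C :=
    (mul_le_mul_right (measure_mono hE) _).trans (h2.trans h)
  have h5 := mul_le_mul_right h3 (ENNReal.ofReal (Real.exp (-r)))
  rw [← mul_assoc, ← ENNReal.ofReal_mul (Real.exp_pos _).le, ← Real.exp_add,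
    neg_add_cancel, Real.exp_zero, ENNReal.ofReal_one, one_mul,
    ← ENNReal.ofReal_mul (Real.exp_pos _).le, mul_comm (Real.exp (-r))] at h5
  exact h5

/-- last passage values: union over all sites -/
private theorem Brg3_lpp (d L : ℕ) (lam q v a b : ℝ) (n : ℕ) (hlam0 : 0 < lam) (hv : 0 < v)
    (hK : lam ^ 2 * v * n ≤ 1)
    (he : ∀ x : boxS d L, ∑ y, Real.exp (-(lam * q * max ((boxMSet d L).dd y x : ℝ) 1)) ≤
      Real.exp (-16) / 64) (hb : 1 ≤ lam * b) (x : boxS d L) :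
    PI (nz (boxS d L)) {ω | ∃ w, a + b * (boxNet d L).dist x w ≤
        (boxMSet d L).lppM q (fun _ => 0) (sc v ω) n w} ≤
      ENNReal.ofReal ((4 * Real.exp 8 + Real.exp 48) * 3 ^ d * Real.exp (-(lam * a))) := by
  set CB : ℝ := 4 * Real.exp 8 + Real.exp 48 with hCB
  have hCB0 : 0 < CB := by
    have := Real.exp_pos 8
    have := Real.exp_pos 48
    linarith
  obtain ⟨kk, hkk0, hkks, hkk⟩ := cell_all (boxMSet d L) lam q v (Real.exp (-16) / 64) hlam0 hv
    (by positivity) he (le_refl _) n hK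
  have hlpp : ∀ w : boxS d L, PI (nz (boxS d L)) {ω | a + b * (boxNet d L).dist x w ≤
      (boxMSet d L).lppM q (fun _ => 0) (sc v ω) n w} ≤
      ENNReal.ofReal (CB * Real.exp (-(lam * a)) * (1 / 2) ^ (boxNet d L).dist x w) := by
    intro w
    have h1 := hkk (fun _ => 0) (fun _ => le_refl 0) w
    have h2 : ∑ z, Real.exp (lam * (0 : ℝ)) * kk z w ≤ CB := by
      refine le_trans (le_of_eq ?_) (hkks w)
      exact Finset.sum_congr rfl fun z _ => by rw [mul_zero, Real.exp_zero, one_mul]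
    have h3 := h1.trans (ENNReal.ofReal_le_ofReal h2)
    have hmeas : Measurable (fun ω : ℕ → boxS d L → ℝ => ENNReal.ofReal (Real.exp (lam *
        (boxMSet d L).lppM q (fun _ => 0) (sc v ω) n w))) :=
      (((measurable_lppM (boxMSet d L) _ _ n w).comp
        (Brg3_sc v)).const_mul lam).exp.ennreal_ofReal
    have h4 := Brg3_markov (PI (nz (boxS d L))) hmeas (lam * (a + b * (boxNet d L).dist x w)) CB
      h3 {ω | a + b * (boxNet d L).dist x w ≤
        (boxMSet d L).lppM q (fun _ => 0) (sc v ω) n w} (fun ω hω =>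
          ENNReal.ofReal_le_ofReal (Real.exp_le_exp.mpr (mul_le_mul_of_nonneg_left hω hlam0.le)))
    refine h4.trans (ENNReal.ofReal_le_ofReal ?_)
    have h5 : Real.exp (-(lam * (a + b * (boxNet d L).dist x w))) =
        Real.exp (-(lam * a)) * Real.exp (-(lam * b)) ^ (boxNet d L).dist x w := by
      rw [← Real.exp_nat_mul, ← Real.exp_add]
      congr 1
      ring
    have h6 : Real.exp (-(lam * b)) ≤ 1 / 2 := by
      have h7 : Real.exp (-(lam * b)) ≤ Real.exp (-1) := Real.exp_le_exp.mpr (by linarith)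
      refine h7.trans ?_
      rw [Real.exp_neg, inv_le_comm₀ (Real.exp_pos _) (by norm_num)]
      have := Real.add_one_le_exp (1 : ℝ)
      norm_num at this ⊢
      exact this
    rw [h5]
    have h8 : Real.exp (-(lam * b)) ^ (boxNet d L).dist x w ≤ (1 / 2) ^ (boxNet d L).dist x w :=
      pow_le_pow_left₀ (Real.exp_pos _).le h6 _
    calc CB * (Real.exp (-(lam * a)) * Real.exp (-(lam * b)) ^ (boxNet d L).dist x w)
        ≤ CB * (Real.exp (-(lam * a)) * (1 / 2) ^ (boxNet d L).dist x w) :=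
          mul_le_mul_of_nonneg_left (mul_le_mul_of_nonneg_left h8 (Real.exp_pos _).le) hCB0.le
      _ = _ := by ring
  have hsub : {ω : ℕ → boxS d L → ℝ | ∃ w, a + b * (boxNet d L).dist x w ≤
        (boxMSet d L).lppM q (fun _ => 0) (sc v ω) n w} ⊆
      ⋃ w : boxS d L, {ω | a + b * (boxNet d L).dist x w ≤
        (boxMSet d L).lppM q (fun _ => 0) (sc v ω) n w} := by
    rintro ω ⟨w, hw⟩
    exact Set.mem_iUnion.mpr ⟨w, hw⟩
  refine (measure_mono hsub).trans ?_
  refine (measure_iUnion_fintype_le _ _).trans ((Finset.sum_le_sum fun w _ => hlpp w).trans ?_)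
  rw [← ENNReal.ofReal_sum_of_nonneg fun w _ => by positivity, ← Finset.mul_sum]
  refine ENNReal.ofReal_le_ofReal ?_
  have h11 := (boxNet d L).sum_half x
  have h12 : 0 ≤ CB * Real.exp (-(lam * a)) := by positivity
  calc CB * Real.exp (-(lam * a)) * ∑ w, (1 / 2 : ℝ) ^ (boxNet d L).dist x w
      ≤ CB * Real.exp (-(lam * a)) * 3 ^ d := mul_le_mul_of_nonneg_left h11 h12
    _ = _ := by ring

private theorem Brg3_bad (d L : ℕ) (h : ℝ) (n : ℕ) (hh : 0 < h)
    (ht : gC (gdC h)ᶜ ≤ ENNReal.ofReal (h ^ 3)) :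
    PI (Measure.pi fun _ : boxS d L => gC) {ω | ¬ ∀ j, j < n → ∀ y, ω j y ∈ gdC h} ≤
      ENNReal.ofReal (n * Fintype.card (boxS d L) * h ^ 3) := by
  have hm : MeasurableSet (gdC h)ᶜ := by
    refine MeasurableSet.compl ?_
    exact measurableSet_le (measurable_norm.const_mul _) measurable_const
  have hone : ∀ (j : ℕ) (y : boxS d L), PI (Measure.pi fun _ : boxS d L => gC)
      {ω | ω j y ∈ (gdC h)ᶜ} ≤ ENNReal.ofReal (h ^ 3) := by
    intro j y
    have h1 : PI (Measure.pi fun _ : boxS d L => gC) {ω | ω j y ∈ (gdC h)ᶜ} =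
        (PI (Measure.pi fun _ : boxS d L => gC)).map (fun ω => ω j)
          {η : boxS d L → ℂ | η y ∈ (gdC h)ᶜ} := by
      rw [Measure.map_apply (measurable_pi_apply j) (measurable_pi_apply y hm)]
      rfl
    rw [h1, map_coord]
    have h2 := (measurePreserving_eval (fun _ : boxS d L => gC) y).measure_preimage
      hm.nullMeasurableSet
    have h3 : {η : boxS d L → ℂ | η y ∈ (gdC h)ᶜ} = Function.eval y ⁻¹' (gdC h)ᶜ := rfl
    rw [h3, h2]
    exact ht
  have hsub : {ω : ℕ → boxS d L → ℂ | ¬ ∀ j, j < n → ∀ y, ω j y ∈ gdC h} ⊆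
      ⋃ j ∈ Finset.range n, ⋃ y ∈ (Finset.univ : Finset (boxS d L)), {ω | ω j y ∈ (gdC h)ᶜ} := by
    intro ω hω
    simp only [Set.mem_ofPred_eq, not_forall] at hω
    obtain ⟨j, hj, y, hy⟩ := hω
    simp only [Set.mem_iUnion]
    exact ⟨j, Finset.mem_range.mpr hj, y, Finset.mem_univ y, hy⟩
  refine (measure_mono hsub).trans ?_
  refine (measure_biUnion_finset_le _ _).trans ?_
  calc ∑ j ∈ Finset.range n, PI (Measure.pi fun _ : boxS d L => gC)
        (⋃ y ∈ (Finset.univ : Finset (boxS d L)), {ω | ω j y ∈ (gdC h)ᶜ})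
      ≤ ∑ j ∈ Finset.range n, ∑ y : boxS d L, ENNReal.ofReal (h ^ 3) := by
        refine Finset.sum_le_sum fun j _ => ?_
        refine (measure_biUnion_finset_le _ _).trans ?_
        exact Finset.sum_le_sum fun y _ => hone j y
    _ = ENNReal.ofReal (n * Fintype.card (boxS d L) * h ^ 3) := by
        rw [Finset.sum_const, Finset.sum_const, Finset.card_range, Finset.card_univ]
        rw [nsmul_eq_mul, nsmul_eq_mul, mul_assoc, ENNReal.ofReal_mul (by positivity),
          ENNReal.ofReal_mul (by positivity), ENNReal.ofReal_natCast, ENNReal.ofReal_natCast]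

private theorem Brg3_ell (T : ℝ) : ∃ k0 : ℝ, 0 < k0 ∧ k0 < 1 ∧ ∀ k, 0 < k → k < k0 → T ≤ ell k := by
  refine ⟨Real.exp (-(max T 1)), Real.exp_pos _, ?_, fun k hk hkk => ?_⟩
  · rw [Real.exp_lt_one_iff]
    have := le_max_right T 1
    linarith
  · unfold ell
    rw [one_div, Real.log_inv]
    have h1 := Real.log_lt_log hk hkk
    rw [Real.log_exp] at h1
    have := le_max_left T 1
    linarith

theorem brg_noise (d : ℕ) : ∃ C : ℝ, 1 ≤ C ∧
    ∀ (κ2 κ3 sw : ℝ) (Rb : ℕ), 0 < κ2 → κ2 ≤ 1 / 8 → 0 < κ3 → 0 < sw →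
      C * Real.sqrt sw ≤ κ2 → C * Real.sqrt sw ≤ κ3 →
    ∃ k0 : ℝ, 0 < k0 ∧ k0 < 1 ∧ ∀ k, 0 < k → k < k0 → ∀ L : ℕ, ∃ h0 : ℝ, 0 < h0 ∧
    ∀ h, 0 < h → h < h0 → ∀ (y : boxS d L) (ns : ℕ), 1 ≤ ns → ns * h ≤ sw * ell k ^ 2 + 1 →
      PI (Measure.pi fun _ : boxS d L => gC) {ω | ¬ RegB κ2 κ3 k h ns y Rb ω} ≤
        ENNReal.ofReal ((2 * Rb + 1) ^ d * (C * Real.exp (-(κ3 / (C * Real.sqrt sw)))) +
          C * Real.exp (-(1 / (C * Real.sqrt sw)))) := by
  obtain ⟨L0, hL0, hL⟩ := eps_small d 1 one_pos (Real.exp (-16) / 64) (by positivity)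
  obtain ⟨hT0, hhT0, hT⟩ := bnoise2.tail
  set CB : ℝ := 4 * Real.exp 8 + Real.exp 48 with hCB
  have he8 : 1 ≤ Real.exp 8 := Real.one_le_exp (by norm_num)
  have hCB0 : 1 ≤ CB := by
    have := Real.exp_pos 48
    linarith
  have h3d : (1 : ℝ) ≤ 3 ^ d := one_le_pow₀ (by norm_num)
  have hCB3 : 1 ≤ CB * 3 ^ d := by nlinarith
  set C : ℝ := CB * 3 ^ d + 4 * Real.exp 8 + 3 * L0 + 10 with hC
  have hC1 : 10 ≤ C := by linarith
  have hCL : 3 * L0 ≤ C := by linarith
  have hC2 : CB * 3 ^ d + 4 * Real.exp 8 ≤ C := by linarith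
  have hC3 : CB * 3 ^ d + 1 ≤ C := by linarith
  refine ⟨C, by linarith, ?_⟩
  intro κ2 κ3 sw Rb hκ2 hκ28 hκ3 hsw hC2' hC3'
  have hsq : 0 < Real.sqrt sw := Real.sqrt_pos.mpr hsw
  obtain ⟨k0, hk0, hk01, hk⟩ := Brg3_ell (max 1 (1 / Real.sqrt sw))
  refine ⟨k0, hk0, hk01, fun k hkp hkk L => ?_⟩
  have hk1 : k < 1 := hkk.trans hk01
  have hl1 : 1 ≤ ell k := (le_max_left _ _).trans (hk k hkp hkk)
  have hl2 : 1 / Real.sqrt sw ≤ ell k := (le_max_right _ _).trans (hk k hkp hkk)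
  have hl3 : 1 ≤ sw * ell k ^ 2 := by
    have h1 : 1 ≤ Real.sqrt sw * ell k := by
      rw [div_le_iff₀ hsq] at hl2
      linarith
    calc (1 : ℝ) ≤ (Real.sqrt sw * ell k) ^ 2 := one_le_pow₀ h1
      _ = sw * ell k ^ 2 := by rw [mul_pow, Real.sq_sqrt hsw.le]
  have hell : 0 < ell k := by linarith
  set e1 : ℝ := Real.exp (-(1 / (C * Real.sqrt sw))) with he1
  have he1p : 0 < e1 := Real.exp_pos _
  set Bd : ℝ := (sw * ell k ^ 2 + 1) * Fintype.card (boxS d L) + 1 with hBd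
  have hBd0 : 1 ≤ Bd := by
    have : 0 ≤ (sw * ell k ^ 2 + 1) * (Fintype.card (boxS d L) : ℝ) := by positivity
    linarith
  refine ⟨min hT0 (min 1 (e1 / Bd)), lt_min hhT0 (lt_min one_pos (by positivity)), ?_⟩
  intro h hh hhh y ns hns hnsh
  have hhT : h < hT0 := hhh.trans_le (min_le_left _ _)
  have hh1 : h < 1 := (hhh.trans_le (min_le_right _ _)).trans_le (min_le_left _ _)
  have hhe : h < e1 / Bd := (hhh.trans_le (min_le_right _ _)).trans_le (min_le_right _ _)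
  have hns0 : (0 : ℝ) < ns := by exact_mod_cast hns
  set v : ℝ := h / ell k ^ 2 with hv
  have hv0 : 0 < v := by positivity
  have hvn : v * ns ≤ 2 * sw := by
    rw [hv, div_mul_eq_mul_div, div_le_iff₀ (by positivity)]
    linarith
  have hs2 : 0 < Real.sqrt 2 := Real.sqrt_pos.mpr (by norm_num)
  have hs22 : Real.sqrt 2 ≤ 3 / 2 := by
    rw [Real.sqrt_le_left (by norm_num)]; norm_num
  set lam : ℝ := 1 / (Real.sqrt 2 * Real.sqrt sw) with hlam
  have hlam0 : 0 < lam := by positivity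
  have hlamsq : lam * Real.sqrt sw = 1 / Real.sqrt 2 := by
    rw [hlam]
    field_simp
  have hl23 : 2 / 3 ≤ 1 / Real.sqrt 2 := by
    rw [div_le_div_iff₀ (by norm_num) hs2]
    linarith
  have hlam2 : lam ^ 2 * v * ns ≤ 1 := by
    have h1 : lam ^ 2 = 1 / (2 * sw) := by
      rw [hlam, div_pow, mul_pow, Real.sq_sqrt (by norm_num), Real.sq_sqrt hsw.le, one_pow]
    rw [h1, mul_assoc, div_mul_eq_mul_div, one_mul, div_le_iff₀ (by positivity)]
    linarith
  -- lower bounds of `lam κ`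
  have hlk : ∀ κ, C * Real.sqrt sw ≤ κ → 2 / 3 * C ≤ lam * κ := by
    intro κ hκ
    have h1 := mul_le_mul_of_nonneg_left hκ hlam0.le
    have h2 : lam * (C * Real.sqrt sw) = C * (1 / Real.sqrt 2) := by
      rw [← hlamsq]; ring
    have h3 := mul_le_mul_of_nonneg_left hl23 (by linarith : (0 : ℝ) ≤ C)
    linarith
  have hl2' := hlk κ2 hC2'
  have hl3' := hlk κ3 hC3'
  have hl8 : 2 / 3 * C ≤ lam * (1 / 8) := hl2'.trans (mul_le_mul_of_nonneg_left hκ28 hlam0.le)
  have hq2 : L0 ≤ lam * (κ2 / 2) := by linarith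
  have hq8 : L0 ≤ lam * (1 / 8) := by linarith
  have hHe : ∀ q, L0 ≤ lam * q → ∀ x : boxS d L,
      ∑ y, Real.exp (-(lam * q * max ((boxMSet d L).dd y x : ℝ) 1)) ≤ Real.exp (-16) / 64 := by
    intro q hq x
    have h1 := hL (lam * q) hq (boxS d L) (boxMSet d L) x
    simpa only [mul_one] using h1
  -- comparison of exponentials
  have hcmp : ∀ a, 0 ≤ a → Real.exp (-(lam * a)) ≤ Real.exp (-(a / (C * Real.sqrt sw))) := by
    intro a ha
    refine Real.exp_le_exp.mpr (neg_le_neg ?_)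
    have h1 : a / (C * Real.sqrt sw) = (1 / (C * Real.sqrt sw)) * a := by ring
    rw [h1]
    refine mul_le_mul_of_nonneg_right ?_ ha
    rw [hlam]
    refine one_div_le_one_div_of_le (by positivity) ?_
    exact mul_le_mul_of_nonneg_right (by linarith) hsq.le
  have hcmp4 : Real.exp (-(lam * (1 / 4))) ≤ e1 := by
    refine Real.exp_le_exp.mpr (neg_le_neg ?_)
    have h1 : (1 : ℝ) / (C * Real.sqrt sw) = (1 / Real.sqrt sw) * (1 / C) := by
      rw [one_div_mul_one_div, mul_comm]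
    have h2 : lam * (1 / 4) = (1 / Real.sqrt sw) * (1 / (4 * Real.sqrt 2)) := by
      rw [hlam]
      field_simp
    rw [h1, h2]
    refine mul_le_mul_of_nonneg_left ?_ (by positivity)
    exact one_div_le_one_div_of_le (by positivity) (by linarith)
  -- events
  set ball : Finset (boxS d L) := Finset.univ.filter fun x => (boxNet d L).dist y x ≤ Rb with hball
  have hcard : (ball.card : ℝ) ≤ (2 * Rb + 1) ^ d := by
    have h1 := (boxMSet d L).growth y Rb ball (fun x hx => (Finset.mem_filter.mp hx).2)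
    exact_mod_cast h1
  set E1 : boxS d L → Set (ℕ → boxS d L → ℝ) := fun x =>
    {g | ∃ w, κ3 + κ3 * (boxNet d L).dist x w ≤
      (boxMSet d L).lppM (κ2 / 2) (fun _ => 0) g ns w} with hE1
  set E2 : boxS d L → Set (ℕ → boxS d L → ℝ) := fun x =>
    {g | κ3 ≤ osc (fun j => g j x) ns} with hE2
  set E3 : Set (ℕ → boxS d L → ℝ) := {g | ∃ w, 1 / 4 + 1 / 16 * (boxNet d L).dist y w ≤
      (boxMSet d L).lppM (1 / 8) (fun _ => 0) g ns w} with hE3
  have hmex : ∀ (q a b : ℝ) (x : boxS d L), MeasurableSet {g : ℕ → boxS d L → ℝ |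
      ∃ w, a + b * (boxNet d L).dist x w ≤ (boxMSet d L).lppM q (fun _ => 0) g ns w} := by
    intro q a b x
    rw [Set.ofPred_exists]
    exact MeasurableSet.iUnion fun w =>
      measurableSet_le measurable_const (measurable_lppM (boxMSet d L) _ _ ns w)
  have hm1 : ∀ x, MeasurableSet (E1 x) := fun x => hmex _ _ _ x
  have hm2 : ∀ x, MeasurableSet (E2 x) := fun x => measurableSet_le measurable_const (Brg3_osc ns x)
  have hm3 : MeasurableSet E3 := hmex _ _ _ y
  set μ := PI (Measure.pi fun _ : boxS d L => gC) with hμ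
  have p1 : ∀ x, μ {ω | gz k h ω ∈ E1 x} ≤
      ENNReal.ofReal (CB * 3 ^ d * Real.exp (-(lam * κ3))) := by
    intro x
    rw [hμ, re_law d L k h hkp hk1 hh (E1 x) (hm1 x)]
    exact Brg3_lpp d L lam (κ2 / 2) v κ3 κ3 ns hlam0 hv0 hlam2 (hHe _ hq2) (by linarith) x
  have p2 : ∀ x, μ {ω | gz k h ω ∈ E2 x} ≤
      ENNReal.ofReal (4 * Real.exp 8 * Real.exp (-(lam * κ3))) := by
    intro x
    rw [hμ, re_law d L k h hkp hk1 hh (E2 x) (hm2 x)]
    have h1 := osc_exp_nz (S := boxS d L) lam v hlam0.le hv0.le ns x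
    have h2 : 4 * Real.exp (8 * lam ^ 2 * v * ns) ≤ 4 * Real.exp 8 := by
      refine mul_le_mul_of_nonneg_left (Real.exp_le_exp.mpr ?_) (by norm_num)
      have : 8 * lam ^ 2 * v * ns = 8 * (lam ^ 2 * v * ns) := by ring
      rw [this]
      linarith
    have hmo : Measurable (fun ω : ℕ → boxS d L → ℝ =>
        ENNReal.ofReal (Real.exp (lam * osc (fun j => sc v ω j x) ns))) :=
      (((Brg3_osc ns x).comp (Brg3_sc v)).const_mul lam).exp.ennreal_ofReal
    exact Brg3_markov (PI (nz (boxS d L))) hmo (lam * κ3) (4 * Real.exp 8)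
      (h1.trans (ENNReal.ofReal_le_ofReal h2)) _ (fun ω hω =>
          ENNReal.ofReal_le_ofReal (Real.exp_le_exp.mpr (mul_le_mul_of_nonneg_left hω hlam0.le)))
  have p3 : μ {ω | gz k h ω ∈ E3} ≤
      ENNReal.ofReal (CB * 3 ^ d * Real.exp (-(lam * (1 / 4)))) := by
    rw [hμ, re_law d L k h hkp hk1 hh E3 hm3]
    exact Brg3_lpp d L lam (1 / 8) v (1 / 4) (1 / 16) ns hlam0 hv0 hlam2 (hHe _ hq8)
      (by linarith) y
  have p4 : μ {ω | ¬ ∀ j, j < ns → ∀ y, ω j y ∈ gdC h} ≤ ENNReal.ofReal e1 := by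
    refine (Brg3_bad d L h ns hh (hT h hh hhT)).trans (ENNReal.ofReal_le_ofReal ?_)
    have h1 : (ns : ℝ) * Fintype.card (boxS d L) * h ^ 3 =
        (ns * h) * Fintype.card (boxS d L) * h ^ 2 := by ring
    have hc0 : (0 : ℝ) ≤ Fintype.card (boxS d L) := Nat.cast_nonneg _
    rw [h1]
    calc (ns * h) * Fintype.card (boxS d L) * h ^ 2
        ≤ (sw * ell k ^ 2 + 1) * Fintype.card (boxS d L) * h := by
          refine mul_le_mul (mul_le_mul_of_nonneg_right hnsh hc0) ?_ (by positivity) (by positivity)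
          nlinarith
      _ ≤ Bd * h := mul_le_mul_of_nonneg_right (by rw [hBd]; linarith) hh.le
      _ ≤ Bd * (e1 / Bd) := mul_le_mul_of_nonneg_left hhe.le (by linarith)
      _ = e1 := by field_simp
  have hsub : {ω | ¬ RegB κ2 κ3 k h ns y Rb ω} ⊆
      ({ω : ℕ → boxS d L → ℂ | ¬ ∀ j, j < ns → ∀ y, ω j y ∈ gdC h} ∪
        ⋃ x ∈ ball, ({ω | gz k h ω ∈ E1 x} ∪ {ω | gz k h ω ∈ E2 x})) ∪ {ω | gz k h ω ∈ E3} := by
    intro ω hω
    by_contra hc
    rw [Set.mem_union, not_or, Set.mem_union, not_or] at hc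
    obtain ⟨⟨hc1, hc2⟩, hc3⟩ := hc
    apply hω
    refine ⟨?_, fun x hx => ⟨fun w => ?_, fun i j hij hj => ?_⟩, fun w => ?_⟩
    · by_contra h4
      exact hc1 h4
    · by_contra h4
      apply hc2
      refine Set.mem_iUnion₂.mpr ⟨x, Finset.mem_filter.mpr ⟨Finset.mem_univ _, hx⟩, Or.inl ⟨w, ?_⟩⟩
      rw [not_le] at h4
      linarith
    · by_contra h4
      apply hc2
      refine Set.mem_iUnion₂.mpr ⟨x, Finset.mem_filter.mpr ⟨Finset.mem_univ _, hx⟩, Or.inr ?_⟩
      rw [not_le] at h4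
      exact h4.le.trans (sum_le_osc (fun j => gz k h ω j x) hij hj)
    · by_contra h4
      apply hc3
      refine ⟨w, ?_⟩
      rw [not_le] at h4
      linarith
  refine (measure_mono hsub).trans ((measure_union_le _ _).trans ?_)
  have q1 : μ (⋃ x ∈ ball, ({ω | gz k h ω ∈ E1 x} ∪ {ω | gz k h ω ∈ E2 x})) ≤
      ENNReal.ofReal ((2 * Rb + 1) ^ d * (C * Real.exp (-(κ3 / (C * Real.sqrt sw))))) := by
    refine (measure_biUnion_finset_le _ _).trans ?_
    calc ∑ x ∈ ball, μ ({ω | gz k h ω ∈ E1 x} ∪ {ω | gz k h ω ∈ E2 x})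
        ≤ ∑ _x ∈ ball, ENNReal.ofReal (C * Real.exp (-(κ3 / (C * Real.sqrt sw)))) := by
          refine Finset.sum_le_sum fun x _ => ?_
          refine (measure_union_le _ _).trans ((add_le_add (p1 x) (p2 x)).trans ?_)
          rw [← ENNReal.ofReal_add (by positivity) (by positivity)]
          refine ENNReal.ofReal_le_ofReal ?_
          rw [← add_mul]
          exact mul_le_mul hC2 (hcmp κ3 hκ3.le) (Real.exp_pos _).le (by linarith)
      _ = (ball.card : ℝ≥0∞) * ENNReal.ofReal (C * Real.exp (-(κ3 / (C * Real.sqrt sw)))) := by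
          rw [Finset.sum_const, nsmul_eq_mul]
      _ = ENNReal.ofReal (ball.card * (C * Real.exp (-(κ3 / (C * Real.sqrt sw))))) := by
          rw [ENNReal.ofReal_mul (Nat.cast_nonneg _), ENNReal.ofReal_natCast]
      _ ≤ _ := by
          refine ENNReal.ofReal_le_ofReal (mul_le_mul_of_nonneg_right hcard ?_)
          have : (0 : ℝ) ≤ C := by linarith
          positivity
  have hC0 : (0 : ℝ) ≤ C := by linarith
  calc μ ({ω : ℕ → boxS d L → ℂ | ¬ ∀ j, j < ns → ∀ y, ω j y ∈ gdC h} ∪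
        ⋃ x ∈ ball, ({ω | gz k h ω ∈ E1 x} ∪ {ω | gz k h ω ∈ E2 x})) + μ {ω | gz k h ω ∈ E3}
      ≤ (ENNReal.ofReal e1 +
          ENNReal.ofReal ((2 * Rb + 1) ^ d * (C * Real.exp (-(κ3 / (C * Real.sqrt sw)))))) +
          ENNReal.ofReal (CB * 3 ^ d * Real.exp (-(lam * (1 / 4)))) :=
        add_le_add ((measure_union_le _ _).trans (add_le_add p4 q1)) p3
    _ = ENNReal.ofReal ((e1 + (2 * Rb + 1) ^ d * (C * Real.exp (-(κ3 / (C * Real.sqrt sw))))) +
          CB * 3 ^ d * Real.exp (-(lam * (1 / 4)))) := by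
        rw [← ENNReal.ofReal_add he1p.le (by positivity),
          ← ENNReal.ofReal_add (by positivity) (by positivity)]
    _ ≤ _ := by
        refine ENNReal.ofReal_le_ofReal ?_
        have h5 : CB * 3 ^ d * Real.exp (-(lam * (1 / 4))) ≤ CB * 3 ^ d * e1 :=
          mul_le_mul_of_nonneg_left hcmp4 (by linarith)
        have h6 : (CB * 3 ^ d + 1) * e1 ≤ C * e1 := mul_le_mul_of_nonneg_right hC3 he1p.le
        linarith

end DynC
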