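import Pool.Agent.Lib_MP_36b788c.Hop

/-!
# Catching up along a path

`u0 = ‖G z‖`, `z` the maximizer of `‖G v‖ k^{dist x v}` (`x` is the target), `m = dist x z ≤ m0`. After `n` steps, `n h ≤ k^c`: `‖G_n x‖ ≥ k^{m+e'} u0` and `‖G_n v‖ ≤ k^{m - (1+e') dist x v - e'} u0` for all `v`.

PROOF. Exponents `e_i = 32^{i-m0} e_m0'`, `e_{i+1} = 32 e_i`, the last one `≤ min(e1, e'/4)`; `ε'' ≤ e_1/(64(1+m0))`, small compared with `e_1/(4β)` as well; `ε0 = e_1/(16(1+β))`. Path `p_0 = z, …, p_m = x`, `p_{i+1} ∈ nb p_i`, `dist x p_i = m - i` (`toward`). `N_i = Σ_{j ≤ i} 2⌈k^{e_j}/h⌉`.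
(1) Upper bounds: `U v = k^{m - dist x v} u0` satisfies `k cpl U ≤ 4d U`, `‖G v‖ ≤ U v`: `fm1` with `φ = 0` gives `E‖G_n v‖ ≤ C U v` for `n h ≤ 1`. Markov and a union over `v` (`Σ_v k^{ε'' dist x v} ≤ 3^d`, `sum_half`): with probability `≥ 1 - C k^{ε''}`, `‖G_n v‖ ≤ k^{-ε''(1+dist x v)} U v` for all `v`; used at the times `N_0, …, N_m`.
(2) Claim: with probability `≥ 1 - Σ_{j ≤ i}(k^{e_j/100} + C k^{ε''})`: `‖G_{N_i} p_i‖ ≥ k^{i + 3 e_i} u0`. Step `i → i+1`: state at time `N_i` (Markov property, `lintegral_glue`/`traj_glue_add`), `hop` with `z := p_i`, `x := p_{i+1}`, `e := e_{i+1}`: `dist x v ≤ (m-i-1) + dist v p_{i+1}`, so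
`‖G_{N_i} v‖ ≤ k^{m - dist x v - ε''(1+dist x v)} u0 ≤ k^{1 - dist v p_{i+1} - ε''(1 + m0 + dist v p_{i+1}) - 3e_i} ‖G_{N_i} p_i‖`, and `ε''(1+m0) + 3 e_i ≤ e_{i+1}/4`, `ε'' ≤ e_{i+1}/16`. Size: `‖G_{N_i} p_i‖ ≤ k^{i - ε''(1+m0)} u0 ≤ k^{-ε''(1+m0) - ε0} ≤ k^{-e_{i+1}/(4β)}`. Result: `≥ k^{1+2e_{i+1}} k^{i+3e_i} u0 ≥ k^{i+1+3e_{i+1}} u0`.
For `m = 0` nothing has to be done: `n = 0`.
-/

open MeasureTheory ProbabilityTheory
open scoped ENNReal

namespace DynC

open Dyn

private theorem CUp_small (ε b : ℝ) (hε : 0 < ε) (hb : 0 < b) :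
    ∀ᶠ k : ℝ in nhdsWithin 0 (Set.Ioi 0), k ^ ε ≤ b := by
  have h1 : Filter.Tendsto (fun k : ℝ => k ^ ε) (nhds 0) (nhds 0) := by
    have h := (Real.continuousAt_rpow_const 0 ε (Or.inr hε.le)).tendsto
    rwa [Real.zero_rpow hε.ne'] at h
  exact (h1.mono_left nhdsWithin_le_nhds).eventually (Iic_mem_nhds hb)

private theorem CUp_markov {Ω : Type} [MeasurableSpace Ω] (μ : Measure Ω) (f : Ω → ℝ)
    (hf : Measurable f) (C b t : ℝ) (hb : 0 ≤ b) (ht : 0 < t)
    (h : ∫⁻ ω, ENNReal.ofReal (f ω) ∂μ ≤ ENNReal.ofReal (C * b)) :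
    μ {ω | t * b < f ω} ≤ ENNReal.ofReal (C / t) := by
  rcases hb.eq_or_lt with hb0 | hb0
  · subst hb0
    have h0 : ∫⁻ ω, ENNReal.ofReal (f ω) ∂μ = 0 := by simpa using h
    rw [lintegral_eq_zero_iff hf.ennreal_ofReal] at h0
    have h2 : μ {ω | t * 0 < f ω} = 0 := by
      have h3 : {ω | t * 0 < f ω} ⊆ {ω | ¬ (fun ω => ENNReal.ofReal (f ω)) ω = (0 : Ω → ℝ≥0∞) ω} := by
        intro ω hω
        have hω' : t * 0 < f ω := hω
        show ¬ ENNReal.ofReal (f ω) = 0
        rw [mul_zero] at hω'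
        simpa using hω'
      exact measure_mono_null h3 h0
    rw [h2]
    exact zero_le
  · have h1 := mul_meas_ge_le_lintegral (μ := μ) hf.ennreal_ofReal (ENNReal.ofReal (t * b))
    have hsub : {ω | t * b < f ω} ⊆ {ω | ENNReal.ofReal (t * b) ≤ ENNReal.ofReal (f ω)} := by
      intro ω hω
      exact ENNReal.ofReal_le_ofReal (le_of_lt hω)
    have hpos : 0 < t * b := mul_pos ht hb0
    have h2 : ENNReal.ofReal (t * b) * μ {ω | t * b < f ω} ≤ ENNReal.ofReal (t * b) * ENNReal.ofReal (C / t) := by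
      calc ENNReal.ofReal (t * b) * μ {ω | t * b < f ω}
          ≤ ENNReal.ofReal (t * b) * μ {ω | ENNReal.ofReal (t * b) ≤ ENNReal.ofReal (f ω)} := by
            gcongr
        _ ≤ ENNReal.ofReal (C * b) := h1.trans h
        _ = ENNReal.ofReal (t * b) * ENNReal.ofReal (C / t) := by
            rw [← ENNReal.ofReal_mul hpos.le]
            congr 1
            field_simp
    exact (ENNReal.mul_le_mul_iff_right (by simpa using hpos) ENNReal.ofReal_ne_top).mp h2

private theorem CUp_mp {St X : Type} [MeasurableSpace St] [MeasurableSpace X] (μ : Measure X)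
    [IsProbabilityMeasure μ] (f : St → X → St) (hf : Measurable fun p : St × X => f p.1 p.2)
    (s : St) (N n : ℕ) (S : Set St) (hS : MeasurableSet S) (B : Set (ℕ → X)) (q : ℝ≥0∞)
    (h : ∀ a, a ∉ B → PI μ {b | traj f (traj f s a N) b n ∈ S} ≤ q) :
    PI μ {ω | traj f s ω (N + n) ∈ S} ≤ PI μ B + q := by
  have : IsProbabilityMeasure (PI μ) := by unfold PI; infer_instance
  have hm : ∀ (s' : St) (j : ℕ), Measurable (fun ω : ℕ → X => traj f s' ω j) := fun s' j =>
    (measurable_traj f hf j).comp (measurable_const.prodMk measurable_id)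
  have hE : MeasurableSet {ω : ℕ → X | traj f s ω (N + n) ∈ S} := hm s (N + n) hS
  have hE2 : ∀ s', MeasurableSet {ω : ℕ → X | traj f s' ω n ∈ S} := fun s' => hm s' n hS
  rw [← lintegral_indicator_one hE, lintegral_glue N _ (measurable_one.indicator hE)]
  calc ∫⁻ a, ∫⁻ b, ({ω : ℕ → X | traj f s ω (N + n) ∈ S}.indicator 1) (glue N a b) ∂PI μ ∂PI μ
      ≤ ∫⁻ a, (B.indicator (fun _ => (1 : ℝ≥0∞)) a + q) ∂PI μ := by
        refine lintegral_mono fun a => ?_
        have h1 : ∫⁻ b, ({ω : ℕ → X | traj f s ω (N + n) ∈ S}.indicator 1) (glue N a b) ∂PI μ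
            = PI μ {b | traj f (traj f s a N) b n ∈ S} := by
          rw [← lintegral_indicator_one (hE2 _)]
          refine lintegral_congr fun b => ?_
          have h2 : (glue N a b ∈ {ω : ℕ → X | traj f s ω (N + n) ∈ S}) ↔
              (b ∈ {b | traj f (traj f s a N) b n ∈ S}) := by
            show traj f s (glue N a b) (N + n) ∈ S ↔ traj f (traj f s a N) b n ∈ S
            rw [traj_glue_add]
          by_cases hb : b ∈ {b | traj f (traj f s a N) b n ∈ S}
          · rw [Set.indicator_of_mem (h2.mpr hb), Set.indicator_of_mem hb]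
            rfl
          · rw [Set.indicator_of_notMem (fun hc => hb (h2.mp hc)), Set.indicator_of_notMem hb]
        simp only [h1]
        by_cases ha : a ∈ B
        · rw [Set.indicator_of_mem ha]
          exact prob_le_one.trans le_self_add
        · rw [Set.indicator_of_notMem ha, zero_add]
          exact h a ha
    _ = ∫⁻ a, B.indicator (fun _ => (1 : ℝ≥0∞)) a ∂PI μ + q := by
        rw [lintegral_add_right _ measurable_const, lintegral_const, measure_univ, mul_one]
    _ ≤ PI μ B + q := by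
        gcongr
        exact (lintegral_indicator_const_le B 1).trans (by rw [one_mul])

section

variable {V H : Type} [NormedAddCommGroup V] [InnerProductSpace ℝ V] [MeasurableSpace V]
  [BorelSpace V] [SecondCountableTopology V] [FiniteDimensional ℝ V]
  [NormedAddCommGroup H] [InnerProductSpace ℝ H] [MeasurableSpace H] [BorelSpace H]
  [SecondCountableTopology H]

private theorem CUp_up (M : MN V H) (d : ℕ) (β : ℝ) (hβ : 0 < β) : ∃ C' : ℝ, 0 < C' ∧
    ∀ (m : ℕ) (ε : ℝ), 0 < ε → ∀ k h : ℝ, 0 < k → k < 1 → k ^ ε ≤ 1 / 2 → 0 < h → h < 1 →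
    ∀ (L : ℕ) (G : boxS d L → V) (x : boxS d L) (u : ℝ), 0 ≤ u →
    (∀ v, ‖G v‖ * k ^ (boxNet d L).dist x v ≤ u * k ^ m) →
    ∀ n : ℕ, n * h ≤ 1 →
      PI (M.mu d L) {ω | ∃ v, k ^ ((m : ℝ) - (boxNet d L).dist x v -
          ε * (1 + (boxNet d L).dist x v)) * u < ‖traj (M.st β k h L) G ω n v‖} ≤
        ENNReal.ofReal (C' * k ^ ε) := by
  obtain ⟨C, hC, HF⟩ := fm1 M d β hβ
  refine ⟨C * Real.exp (4 * d) * 3 ^ d, by positivity, ?_⟩
  intro m ε hε k h hk hk1 hke hh hh1 L G x u hu hG n hn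
  set net := boxNet d L with hnet
  let U : boxS d L → ℝ := fun v => prof k m 1 x v * u
  have hU0 : ∀ v, 0 ≤ U v := fun v => mul_nonneg (Real.rpow_nonneg hk.le _) hu
  have hcpl : ∀ v, k * cpl net U v ≤ (4 * d) * U v := by
    intro v
    have h1 := prof_cpl (d := d) (L := L) k m 1 hk hk1 x v
    have h2 : (1 : ℝ) - max |1| 0 = 0 := by norm_num
    rw [h2, Real.rpow_zero, mul_one] at h1
    have h3 : cpl net U v = cpl net (prof k m 1 x) v * u := by
      simp only [cpl, U]
      rw [← Finset.sum_mul]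
      ring
    rw [h3]
    calc k * (cpl net (prof k m 1 x) v * u) = (k * cpl net (prof k m 1 x) v) * u := by ring
      _ ≤ (4 * d * prof k m 1 x v) * u := by gcongr
      _ = 4 * d * U v := by simp only [U]; ring
  have hGU : ∀ v, ‖G v‖ ≤ U v := by
    intro v
    have h1 := hG v
    have h2 : (0 : ℝ) < k ^ net.dist x v := pow_pos hk _
    have h3 : U v = u * k ^ m / k ^ net.dist x v := by
      simp only [U, prof]
      rw [one_mul, Real.rpow_sub hk, Real.rpow_natCast, Real.rpow_natCast, net.dist_comm v x]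
      ring
    rw [h3, le_div_iff₀ h2]
    exact h1
  have hmeas : ∀ v, Measurable (fun ω : ℕ → boxS d L → H => ‖traj (M.st β k h L) G ω n v‖) := by
    intro v
    have h1 : Measurable (fun ω : ℕ → boxS d L → H => traj (M.st β k h L) G ω n) :=
      (measurable_traj (M.st β k h L) (M.measurable_st β k h L) n).comp
        (measurable_const.prodMk measurable_id)
    exact measurable_norm.comp ((measurable_pi_apply v).comp h1)
  have hone : ∀ v, PI (M.mu d L) {ω | k ^ ((m : ℝ) - net.dist x v - ε * (1 + net.dist x v)) * u <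
      ‖traj (M.st β k h L) G ω n v‖} ≤
      ENNReal.ofReal (C * Real.exp (4 * d) * k ^ ε * (1 / 2) ^ net.dist x v) := by
    intro v
    have h1 := HF k h hk hk1 hh hh1 L x 1 le_rfl (by push_cast; linarith) 0 le_rfl zero_le_one G U
      (4 * d) (by positivity) hU0 hcpl hGU n v hn
    have h2 : ∀ ω, trs M β k h L G x 1 0 ω n v = traj (M.st β k h L) G ω n v := by
      intro ω
      unfold trs
      rw [zero_smul, add_zero]
    simp only [h2] at h1
    have ht : 0 < k ^ (-(ε * (1 + net.dist x v))) := Real.rpow_pos_of_pos hk _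
    have h3 := CUp_markov (PI (M.mu d L)) (fun ω => ‖traj (M.st β k h L) G ω n v‖) (hmeas v)
      (C * Real.exp (4 * d * (n * h))) (U v) (k ^ (-(ε * (1 + net.dist x v)))) (hU0 v) ht h1
    have h4 : k ^ ((m : ℝ) - net.dist x v - ε * (1 + net.dist x v)) * u =
        k ^ (-(ε * (1 + net.dist x v))) * U v := by
      simp only [U, prof]
      rw [← mul_assoc, ← Real.rpow_add hk, net.dist_comm v x]
      congr 2
      ring
    rw [h4]
    refine h3.trans (ENNReal.ofReal_le_ofReal ?_)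
    have h5 : k ^ (ε * (1 + (net.dist x v : ℝ))) ≤ k ^ ε * (1 / 2) ^ net.dist x v := by
      rw [mul_add, mul_one, Real.rpow_add hk, Real.rpow_mul hk.le, Real.rpow_natCast]
      have : 0 ≤ k ^ ε := Real.rpow_nonneg hk.le _
      gcongr
    have h6 : Real.exp (4 * d * (n * h)) ≤ Real.exp (4 * d) := by
      refine Real.exp_le_exp.mpr ?_
      have : (0 : ℝ) ≤ 4 * d := by positivity
      nlinarith
    rw [Real.rpow_neg hk.le, div_inv_eq_mul]
    calc C * Real.exp (4 * d * (n * h)) * k ^ (ε * (1 + (net.dist x v : ℝ)))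
        ≤ C * Real.exp (4 * d) * (k ^ ε * (1 / 2) ^ net.dist x v) := by
          have : 0 ≤ k ^ (ε * (1 + (net.dist x v : ℝ))) := Real.rpow_nonneg hk.le _
          gcongr
      _ = _ := by ring
  have hset : {ω | ∃ v, k ^ ((m : ℝ) - net.dist x v - ε * (1 + net.dist x v)) * u <
      ‖traj (M.st β k h L) G ω n v‖} = ⋃ v, {ω | k ^ ((m : ℝ) - net.dist x v -
        ε * (1 + net.dist x v)) * u < ‖traj (M.st β k h L) G ω n v‖} := by
    ext ω
    simp
  rw [hset]
  calc PI (M.mu d L) (⋃ v, {ω | k ^ ((m : ℝ) - net.dist x v -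
        ε * (1 + net.dist x v)) * u < ‖traj (M.st β k h L) G ω n v‖})
      ≤ ∑ v, PI (M.mu d L) {ω | k ^ ((m : ℝ) - net.dist x v -
        ε * (1 + net.dist x v)) * u < ‖traj (M.st β k h L) G ω n v‖} :=
        measure_iUnion_fintype_le _ _
    _ ≤ ∑ v, ENNReal.ofReal (C * Real.exp (4 * d) * k ^ ε * (1 / 2) ^ net.dist x v) :=
        Finset.sum_le_sum fun v _ => hone v
    _ = ENNReal.ofReal (∑ v, C * Real.exp (4 * d) * k ^ ε * (1 / 2) ^ net.dist x v) := by
        rw [ENNReal.ofReal_sum_of_nonneg]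
        intro v _
        have : 0 ≤ k ^ ε := Real.rpow_nonneg hk.le _
        positivity
    _ ≤ ENNReal.ofReal (C * Real.exp (4 * d) * 3 ^ d * k ^ ε) := by
        refine ENNReal.ofReal_le_ofReal ?_
        rw [← Finset.mul_sum]
        have h1 := net.sum_half x
        have : 0 ≤ k ^ ε := Real.rpow_nonneg hk.le _
        calc C * Real.exp (4 * d) * k ^ ε * ∑ v, (1 / 2 : ℝ) ^ net.dist x v
            ≤ C * Real.exp (4 * d) * k ^ ε * 3 ^ d := by gcongr
          _ = _ := by ring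

theorem catch_up (M : MN V H) (d : ℕ) (β : ℝ) (hβ : 0 < β) (m0 : ℕ) (e' : ℝ) (he' : 0 < e') :
    ∃ ε0 c k0 : ℝ, 0 < ε0 ∧ 0 < c ∧ 0 < k0 ∧ k0 < 1 ∧
    ∀ k, 0 < k → k < k0 → ∃ h0 : ℝ, 0 < h0 ∧ ∀ h, 0 < h → h < h0 → ∀ m : ℕ, m ≤ m0 →
    ∃ n : ℕ, n * h ≤ k ^ c ∧
    ∀ (L : ℕ) (G : boxS d L → V) (z x : boxS d L), (boxNet d L).dist x z = m →
    (∀ v, ‖G v‖ * k ^ (boxNet d L).dist x v ≤ ‖G z‖ * k ^ m) →
    ‖G z‖ ≤ k ^ (-ε0) →
      PI (M.mu d L) {ω | ‖traj (M.st β k h L) G ω n x‖ < k ^ (m + e') * ‖G z‖ ∨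
          ∃ v, k ^ (m - (1 + e') * (boxNet d L).dist x v - e') * ‖G z‖ <
            ‖traj (M.st β k h L) G ω n v‖}
        ≤ ENNReal.ofReal (k ^ c) := by
  obtain ⟨C', hC', HU⟩ := CUp_up M d β hβ
  obtain ⟨e1, he1, HH⟩ := hop M d β hβ
  obtain ⟨E, hEdef⟩ : ∃ E : ℝ, E = min e1 (e' / 4) / 32 ^ m0 := ⟨_, rfl⟩
  have hmin : 0 < min e1 (e' / 4) := lt_min he1 (by linarith)
  have hE0 : 0 < E := by rw [hEdef]; positivity
  obtain ⟨e, hedef⟩ : ∃ e : ℕ → ℝ, ∀ j, e j = E * 32 ^ j := ⟨_, fun j => rfl⟩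
  have he_pos : ∀ j, 0 < e j := fun j => by rw [hedef]; positivity
  have he_le : ∀ j, j ≤ m0 → e j ≤ min e1 (e' / 4) := by
    intro j hj
    rw [hedef, hEdef, div_mul_eq_mul_div, div_le_iff₀ (by positivity)]
    have : (32 : ℝ) ^ j ≤ 32 ^ m0 := pow_le_pow_right₀ (by norm_num) hj
    gcongr
  have he_succ : ∀ j, e (j + 1) = 32 * e j := fun j => by rw [hedef, hedef, pow_succ]; ring
  have he_ge : ∀ j, E ≤ e j := by
    intro j
    rw [hedef]
    have : (1 : ℝ) ≤ 32 ^ j := one_le_pow₀ (by norm_num)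
    nlinarith
  obtain ⟨ε, hεdef⟩ : ∃ ε : ℝ, ε = E / ((1 + m0) * (1 + β)) := ⟨_, rfl⟩
  have hε0 : 0 < ε := by rw [hεdef]; positivity
  have hε1 : ε * (1 + m0) = E / (1 + β) := by rw [hεdef]; field_simp
  have hEβ : E / (1 + β) ≤ E := div_le_self hE0.le (by linarith)
  have hεE : ε ≤ E := by
    have : ε ≤ ε * (1 + m0) := by
      have : (0 : ℝ) ≤ m0 := Nat.cast_nonneg _
      nlinarith
    linarith
  obtain ⟨K, hKdef⟩ : ∃ K : ℝ, K = 4 * m0 + m0 * (C' + 1) + C' + 1 := ⟨_, rfl⟩
  have hK0 : 0 < K := by rw [hKdef]; positivity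
  obtain ⟨c, hcdef⟩ : ∃ c : ℝ, c = ε / 200 := ⟨_, rfl⟩
  have hc0 : 0 < c := by rw [hcdef]; positivity
  have hop' : ∀ j ∈ Finset.range m0, ∀ᶠ k : ℝ in nhdsWithin 0 (Set.Ioi 0),
      ∀ᶠ h : ℝ in nhdsWithin 0 (Set.Ioi 0),
      ∀ (L : ℕ) (G : boxS d L → V) (z x : boxS d L), x ∈ (boxNet d L).nb z →
      (∀ v, ‖G v‖ ≤ k ^ (1 - e (j + 1) / 4 - (1 + e (j + 1) / 16) * (boxNet d L).dist v x) *
        ‖G z‖) →
      ‖G z‖ ≤ k ^ (-(e (j + 1) / (4 * β))) →
      PI (M.mu d L) {ω | ‖traj (M.st β k h L) G ω (2 * ⌈k ^ e (j + 1) / h⌉₊) x‖ <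
        k ^ (1 + 2 * e (j + 1)) * ‖G z‖} ≤ ENNReal.ofReal (k ^ (e (j + 1) / 100)) := by
    intro j hj
    obtain ⟨k1, hk1, -, hk⟩ := HH (e (j + 1)) (he_pos _)
      ((he_le (j + 1) (Finset.mem_range.mp hj)).trans (min_le_left _ _))
    refine (nhdsGT_basis 0).eventually_iff.mpr ⟨k1, hk1, fun k hkk => ?_⟩
    obtain ⟨h1, hh1, hh⟩ := hk k hkk.1 hkk.2
    exact (nhdsGT_basis 0).eventually_iff.mpr ⟨h1, hh1, fun h hhh => hh h hhh.1 hhh.2⟩
  have hall := (Filter.eventually_all_finset (Finset.range m0)).mpr hop'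
  have hev := hall.and ((CUp_small ε (1 / 2) hε0 (by norm_num)).and
    (CUp_small c (1 / K) hc0 (by positivity)))
  obtain ⟨k1, hk1, hk⟩ := (nhdsGT_basis 0).eventually_iff.mp hev
  refine ⟨E / (1 + β), c, min k1 (1 / 2), by positivity, hc0, lt_min hk1 (by norm_num),
    (min_le_right _ _).trans_lt (by norm_num), fun k hk0 hkk => ?_⟩
  obtain ⟨hA, hB, hCc⟩ := hk ⟨hk0, lt_of_lt_of_le hkk (min_le_left _ _)⟩
  have hkone : k < 1 := (lt_of_lt_of_le hkk (min_le_right _ _)).trans (by norm_num)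
  have hh := (Filter.eventually_all_finset (Finset.range m0)).mpr hA
  obtain ⟨h1, hh1, hhh⟩ := (nhdsGT_basis 0).eventually_iff.mp hh
  have hkc : 0 < k ^ (2 * c) := Real.rpow_pos_of_pos hk0 _
  have hkc1 : 0 < k ^ c := Real.rpow_pos_of_pos hk0 _
  have hcc : k ^ (2 * c) = k ^ c * k ^ c := by rw [← Real.rpow_add hk0]; congr 1; ring
  have hKc : K * k ^ (2 * c) ≤ k ^ c := by
    rw [hcc]
    have h2 : K * k ^ c ≤ 1 := by
      calc K * k ^ c ≤ K * (1 / K) := by gcongr
        _ = 1 := by field_simp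
    nlinarith
  refine ⟨min h1 (min (k ^ (2 * c)) (1 / 2)), lt_min hh1 (lt_min hkc (by norm_num)),
    fun h hh0 hhlt m hm => ?_⟩
  have hH := hhh (x := h) ⟨hh0, lt_of_lt_of_le hhlt (min_le_left _ _)⟩
  have hhk : h ≤ k ^ (2 * c) :=
    (lt_of_lt_of_le hhlt ((min_le_right _ _).trans (min_le_left _ _))).le
  have hhone : h < 1 :=
    (lt_of_lt_of_le hhlt ((min_le_right _ _).trans (min_le_right _ _))).trans (by norm_num)
  obtain ⟨N, hNdef⟩ : ∃ N : ℕ → ℕ, ∀ i, N i = ∑ j ∈ Finset.range i, 2 * ⌈k ^ e (j + 1) / h⌉₊ :=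
    ⟨_, fun i => rfl⟩
  have hk_le : ∀ a : ℝ, 2 * c ≤ a → k ^ a ≤ k ^ (2 * c) := fun a ha =>
    Real.rpow_le_rpow_of_exponent_ge hk0 hkone.le ha
  have hNh : ∀ i, i ≤ m0 → (N i : ℝ) * h ≤ k ^ c := by
    intro i hi
    have h2 : (N i : ℝ) * h ≤ ∑ j ∈ Finset.range i, 4 * k ^ (2 * c) := by
      rw [hNdef, Nat.cast_sum, Finset.sum_mul]
      refine Finset.sum_le_sum fun j _ => ?_
      have h3 : (⌈k ^ e (j + 1) / h⌉₊ : ℝ) < k ^ e (j + 1) / h + 1 :=
        Nat.ceil_lt_add_one (div_nonneg (Real.rpow_nonneg hk0.le _) hh0.le)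
      have h4 : k ^ e (j + 1) ≤ k ^ (2 * c) := by
        refine hk_le _ ?_
        have := he_ge (j + 1)
        rw [hcdef]
        linarith
      push_cast
      calc 2 * (⌈k ^ e (j + 1) / h⌉₊ : ℝ) * h ≤ 2 * (k ^ e (j + 1) / h + 1) * h := by gcongr
        _ = 2 * (k ^ e (j + 1) + h) := by field_simp
        _ ≤ 2 * (k ^ (2 * c) + k ^ (2 * c)) := by gcongr
        _ = 4 * k ^ (2 * c) := by ring
    rw [Finset.sum_const, Finset.card_range, nsmul_eq_mul] at h2
    have h3 : (i : ℝ) ≤ m0 := by exact_mod_cast hi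
    have h4 : (4 : ℝ) * m0 ≤ K := by
      rw [hKdef]
      have : 0 ≤ (m0 : ℝ) * (C' + 1) := by positivity
      linarith
    calc (N i : ℝ) * h ≤ i * (4 * k ^ (2 * c)) := h2
      _ ≤ m0 * (4 * k ^ (2 * c)) := by gcongr
      _ = 4 * m0 * k ^ (2 * c) := by ring
      _ ≤ K * k ^ (2 * c) := by gcongr
      _ ≤ k ^ c := hKc
  have hkcle : k ^ c ≤ 1 := Real.rpow_le_one hk0.le hkone.le hc0.le
  refine ⟨N m, hNh m hm, ?_⟩
  intro L G z x hz hG hu
  set net := boxNet d L with hnet
  set f := M.st (d := d) β k h L with hf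
  set u := ‖G z‖ with hudef
  have hu0 : 0 ≤ u := norm_nonneg _
  have hUp : ∀ i, i ≤ m → PI (M.mu d L) {ω | ∃ v, k ^ ((m : ℝ) - net.dist x v -
      ε * (1 + net.dist x v)) * u < ‖traj f G ω (N i) v‖} ≤ ENNReal.ofReal (C' * k ^ ε) :=
    fun i hi => HU m ε hε0 k h hk0 hkone hB hh0 hhone L G x u hu0 hG (N i)
      ((hNh i (hi.trans hm)).trans hkcle)
  have hmR : (m : ℝ) ≤ m0 := by exact_mod_cast hm
  have main : ∀ i, i ≤ m → ∃ p : boxS d L, net.dist x p + i = m ∧
      PI (M.mu d L) {ω | ‖traj f G ω (N i) p‖ < k ^ ((i : ℝ) + 3 * e i) * u} ≤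
        i * ENNReal.ofReal (C' * k ^ ε + k ^ (E / 100)) := by
    intro i
    induction i with
    | zero =>
      intro _
      refine ⟨z, by simpa using hz, ?_⟩
      have hN0 : N 0 = 0 := by rw [hNdef]; simp
      have hempty : {ω : ℕ → boxS d L → H | ‖traj f G ω (N 0) z‖ <
          k ^ (((0 : ℕ) : ℝ) + 3 * e 0) * u} = ∅ := by
        rw [Set.eq_empty_iff_forall_notMem]
        intro ω hω
        have h2 : ‖traj f G ω (N 0) z‖ < k ^ (((0 : ℕ) : ℝ) + 3 * e 0) * u := hω
        rw [hN0] at h2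
        have h3 : k ^ (((0 : ℕ) : ℝ) + 3 * e 0) ≤ 1 := by
          refine Real.rpow_le_one hk0.le hkone.le ?_
          have := he_pos 0
          push_cast
          linarith
        have h4 : ‖traj f G ω 0 z‖ = u := rfl
        rw [h4] at h2
        nlinarith
      rw [hempty, measure_empty]
      exact zero_le
    | succ i ih =>
      intro hi
      obtain ⟨p, hp, hP⟩ := ih (by omega)
      have hpx : p ≠ x := by
        rintro rfl
        rw [net.dist_self] at hp
        omega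
      obtain ⟨q, hq, hqd⟩ := net.toward x p hpx
      refine ⟨q, by omega, ?_⟩
      have hsum : N (i + 1) = N i + 2 * ⌈k ^ e (i + 1) / h⌉₊ := by
        rw [hNdef, hNdef, Finset.sum_range_succ]
      have hmS : MeasurableSet {G' : boxS d L → V |
          ‖G' q‖ < k ^ (((i + 1 : ℕ) : ℝ) + 3 * e (i + 1)) * u} :=
        measurableSet_lt (measurable_norm.comp (measurable_pi_apply q)) measurable_const
      have hstep := CUp_mp (M.mu d L) f (M.measurable_st β k h L) G (N i)
        (2 * ⌈k ^ e (i + 1) / h⌉₊) {G' : boxS d L → V |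
          ‖G' q‖ < k ^ (((i + 1 : ℕ) : ℝ) + 3 * e (i + 1)) * u} hmS
        ({ω | ‖traj f G ω (N i) p‖ < k ^ ((i : ℝ) + 3 * e i) * u} ∪
          {ω | ∃ v, k ^ ((m : ℝ) - net.dist x v -
            ε * (1 + net.dist x v)) * u < ‖traj f G ω (N i) v‖})
        (ENNReal.ofReal (k ^ (e (i + 1) / 100))) (by
          intro a ha
          rw [Set.mem_union, not_or] at ha
          obtain ⟨ha1, ha2⟩ := ha
          obtain ⟨G', hG'⟩ : ∃ G', G' = traj f G a (N i) := ⟨_, rfl⟩
          have hlow : k ^ ((i : ℝ) + 3 * e i) * u ≤ ‖G' p‖ := by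
            rw [hG']
            exact not_lt.mp ha1
          have hupp : ∀ v, ‖G' v‖ ≤ k ^ ((m : ℝ) - net.dist x v -
              ε * (1 + net.dist x v)) * u := by
            intro v
            rw [hG']
            by_contra hcon
            exact ha2 ⟨v, not_le.mp hcon⟩
          rw [← hG']
          have hes := he_succ i
          have hei := he_ge i
          have heip := he_pos i
          have hiR : (i : ℝ) + 1 ≤ m := by exact_mod_cast hi
          have hpR : (net.dist x p : ℝ) + i = m := by exact_mod_cast hp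
          have hqR : (net.dist x q : ℝ) + 1 = net.dist x p := by exact_mod_cast hqd
          have hεm : ε * (1 + (m : ℝ)) ≤ E / (1 + β) := by
            rw [← hε1]
            gcongr
          have hi0 : (0 : ℝ) ≤ i := Nat.cast_nonneg i
          refine (measure_mono ?_).trans (hH i (Finset.mem_range.mpr (by omega)) L G' p q hq ?_ ?_)
          · intro b hb
            have hb' : ‖traj f G' b (2 * ⌈k ^ e (i + 1) / h⌉₊) q‖ <
              k ^ (((i + 1 : ℕ) : ℝ) + 3 * e (i + 1)) * u := hb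
            show ‖traj f G' b (2 * ⌈k ^ e (i + 1) / h⌉₊) q‖ < k ^ (1 + 2 * e (i + 1)) * ‖G' p‖
            refine lt_of_lt_of_le hb' ?_
            calc k ^ (((i + 1 : ℕ) : ℝ) + 3 * e (i + 1)) * u
                ≤ k ^ (1 + 2 * e (i + 1) + ((i : ℝ) + 3 * e i)) * u := by
                  refine mul_le_mul_of_nonneg_right ?_ hu0
                  refine Real.rpow_le_rpow_of_exponent_ge hk0 hkone.le ?_
                  push_cast
                  linarith
              _ = k ^ (1 + 2 * e (i + 1)) * (k ^ ((i : ℝ) + 3 * e i) * u) := by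
                  rw [Real.rpow_add hk0, mul_assoc]
              _ ≤ _ := mul_le_mul_of_nonneg_left hlow (Real.rpow_nonneg hk0.le _)
          · intro v
            refine (hupp v).trans ?_
            calc k ^ ((m : ℝ) - net.dist x v - ε * (1 + net.dist x v)) * u
                ≤ k ^ (1 - e (i + 1) / 4 - (1 + e (i + 1) / 16) * net.dist v q +
                    ((i : ℝ) + 3 * e i)) * u := by
                  refine mul_le_mul_of_nonneg_right ?_ hu0
                  refine Real.rpow_le_rpow_of_exponent_ge hk0 hkone.le ?_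
                  have h5 : (net.dist x v : ℝ) ≤ net.dist x q + net.dist v q := by
                    have h6 := net.dist_tri x q v
                    rw [net.dist_comm q v] at h6
                    exact_mod_cast h6
                  have hD0 : (0 : ℝ) ≤ net.dist v q := Nat.cast_nonneg _
                  have h7 : ε * (net.dist v q : ℝ) ≤ e (i + 1) / 16 * net.dist v q := by
                    refine mul_le_mul_of_nonneg_right ?_ hD0
                    linarith
                  have h8 : ε * (net.dist x v : ℝ) ≤ ε * (m - i - 1 + net.dist v q) := by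
                    refine mul_le_mul_of_nonneg_left ?_ hε0.le
                    linarith
                  have h9 : 0 ≤ ε * i := by positivity
                  have h10 : ε * (m : ℝ) ≤ E := by nlinarith
                  nlinarith
              _ = k ^ (1 - e (i + 1) / 4 - (1 + e (i + 1) / 16) * net.dist v q) *
                    (k ^ ((i : ℝ) + 3 * e i) * u) := by
                  rw [Real.rpow_add hk0, mul_assoc]
              _ ≤ _ := mul_le_mul_of_nonneg_left hlow (Real.rpow_nonneg hk0.le _)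
          · refine (hupp p).trans ?_
            calc k ^ ((m : ℝ) - net.dist x p - ε * (1 + net.dist x p)) * u
                ≤ k ^ ((m : ℝ) - net.dist x p - ε * (1 + net.dist x p)) * k ^ (-(E / (1 + β))) :=
                  mul_le_mul_of_nonneg_left hu (Real.rpow_nonneg hk0.le _)
              _ = k ^ ((m : ℝ) - net.dist x p - ε * (1 + net.dist x p) + -(E / (1 + β))) := by
                  rw [Real.rpow_add hk0]
              _ ≤ _ := by
                  refine Real.rpow_le_rpow_of_exponent_ge hk0 hkone.le ?_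
                  have h5 : ε * (1 + (net.dist x p : ℝ)) ≤ E / (1 + β) := by
                    refine le_trans (mul_le_mul_of_nonneg_left ?_ hε0.le) hεm
                    linarith
                  have h6 : 2 * (E / (1 + β)) ≤ e (i + 1) / (4 * β) := by
                    rw [mul_div_assoc', div_le_div_iff₀ (by positivity) (by positivity)]
                    have h7 : 32 * E ≤ e (i + 1) := by linarith
                    have h8 : 32 * E * (1 + β) ≤ e (i + 1) * (1 + β) :=
                      mul_le_mul_of_nonneg_right h7 (by linarith)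
                    nlinarith
                  linarith)
      rw [← hsum] at hstep
      refine hstep.trans ?_
      have hE100 : k ^ (e (i + 1) / 100) ≤ k ^ (E / 100) := by
        refine Real.rpow_le_rpow_of_exponent_ge hk0 hkone.le ?_
        have := he_ge (i + 1)
        linarith
      calc PI (M.mu d L) ({ω | ‖traj f G ω (N i) p‖ < k ^ ((i : ℝ) + 3 * e i) * u} ∪
              {ω | ∃ v, k ^ ((m : ℝ) - net.dist x v -
              ε * (1 + net.dist x v)) * u < ‖traj f G ω (N i) v‖}) +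
              ENNReal.ofReal (k ^ (e (i + 1) / 100))
          ≤ (i * ENNReal.ofReal (C' * k ^ ε + k ^ (E / 100)) + ENNReal.ofReal (C' * k ^ ε)) +
              ENNReal.ofReal (k ^ (E / 100)) := by
            refine add_le_add ((measure_union_le _ _).trans (add_le_add hP (hUp i (by omega))))
              (ENNReal.ofReal_le_ofReal hE100)
        _ = ((i + 1 : ℕ) : ℝ≥0∞) * ENNReal.ofReal (C' * k ^ ε + k ^ (E / 100)) := by
            rw [add_assoc, ← ENNReal.ofReal_add (by positivity) (by positivity)]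
            push_cast
            ring
  obtain ⟨p, hp, hP⟩ := main m le_rfl
  have hpx : p = x := by
    by_contra hne
    have := net.dist_pos x p (Ne.symm hne)
    omega
  rw [hpx] at hP
  have h3e : 3 * e m ≤ e' := by
    have h2 := (he_le m hm).trans (min_le_right _ _)
    linarith
  have hεe' : ε ≤ e' := by
    have h2 := he_ge m
    have h3 := he_pos m
    linarith
  refine (measure_mono (t := {ω | ‖traj f G ω (N m) x‖ < k ^ ((m : ℝ) + 3 * e m) * u} ∪
    {ω | ∃ v, k ^ ((m : ℝ) - net.dist x v -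
      ε * (1 + net.dist x v)) * u < ‖traj f G ω (N m) v‖}) ?_).trans ?_
  · intro ω hω
    rcases hω with hω | ⟨v, hv⟩
    · left
      show ‖traj f G ω (N m) x‖ < k ^ ((m : ℝ) + 3 * e m) * u
      refine lt_of_lt_of_le hω (mul_le_mul_of_nonneg_right ?_ hu0)
      exact Real.rpow_le_rpow_of_exponent_ge hk0 hkone.le (by linarith)
    · right
      refine ⟨v, lt_of_le_of_lt (mul_le_mul_of_nonneg_right ?_ hu0) hv⟩
      refine Real.rpow_le_rpow_of_exponent_ge hk0 hkone.le ?_
      have hD0 : (0 : ℝ) ≤ net.dist x v := Nat.cast_nonneg _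
      nlinarith
  · refine (measure_union_le _ _).trans ((add_le_add hP (hUp m le_rfl)).trans ?_)
    have hm0 : (m : ℝ≥0∞) = ENNReal.ofReal (m : ℝ) := (ENNReal.ofReal_natCast m).symm
    have hkε : k ^ ε ≤ k ^ (2 * c) := hk_le _ (by rw [hcdef]; linarith)
    have hkE : k ^ (E / 100) ≤ k ^ (2 * c) := hk_le _ (by rw [hcdef]; linarith)
    rw [hm0, ← ENNReal.ofReal_mul (Nat.cast_nonneg m),
      ← ENNReal.ofReal_add (by positivity) (by positivity)]
    refine ENNReal.ofReal_le_ofReal ?_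
    calc (m : ℝ) * (C' * k ^ ε + k ^ (E / 100)) + C' * k ^ ε
        ≤ m0 * (C' * k ^ (2 * c) + k ^ (2 * c)) + C' * k ^ (2 * c) := by gcongr
      _ = (m0 * (C' + 1) + C') * k ^ (2 * c) := by ring
      _ ≤ K * k ^ (2 * c) := by
          refine mul_le_mul_of_nonneg_right ?_ hkc.le
          rw [hKdef]
          have : (0 : ℝ) ≤ 4 * m0 := by positivity
          linarith
      _ ≤ k ^ c := hKc

end

end DynC
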