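import Pool.Agent.Lib_MP_36b788c.LPPd

/-!
# Height model: deterministic facts

`F_{j+1}(x) = min (0, RR F_j x + g_j x)`, `RR F x = max_z (F z - dd x z)`.

PROOF. Everything is elementary.
* `RR`: `le_RR`, `RR_le`, monotone, commutes with constants, `RR F x ≤ RR F y + dd x y` (triangle inequality),
  `RR (RR F) = RR F`; `am_spec` is `Classical.choose_spec`. `am_eq_self`: if `-1 < F x` and `F ≤ 0` then `am F x = x`: for `z ≠ x`
  `F z - dd x z ≤ -1 < F x = F x - dd x x`.
* `mf`: `mf_nonpos` (for `n ≥ 1` always; for `n = 0` if `X ≤ 0`), monotone in `X`, sup contraction, semigroup `mf_shift`,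
  locality `mf_congr`, `mf_RR` (the start enters only through `RR X`).
* `mf_stay`: if `-c ≤ Σ_{l ∈ [i,n)} g_l(y)` for all `i ≤ n` (`c ≥ 0`) and `n ≥ 1` then `min 0 (RR X y) - c ≤ mf X g n y`: prove by induction on `n` the
  identity type bound `mf_n(y) ≥ min( RR X y + Σ_{[0,n)} g, min_{1≤i≤n} Σ_{[i,n)} g )` (with `Σ_∅ = 0`) from `mf_{n+1} ≥ min(0, mf_n + g_n)`.
* `mf_le_lin`: along the lineage `F_n(x) ≤ F_{n-i}(γ) + Σ (g - dd)` (equality in `RR`, drop the cap).
* `lin_shift`: the lineage of `(x, n+m)` after `m` steps back continues as the lineage of `(γ, n)`.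
-/

open MeasureTheory ProbabilityTheory
open scoped ENNReal

namespace DynC

variable {S : Type} [Fintype S] {D : ℕ} (M : MSet S D)

theorem le_RR (F : S → ℝ) (x z : S) : F z - M.dd x z ≤ M.RR F x := by
  unfold MSet.RR
  exact Finset.le_max' _ _ (Finset.mem_image_of_mem (fun z => F z - (M.dd x z : ℝ)) (Finset.mem_univ z))

theorem self_le_RR (F : S → ℝ) (x : S) : F x ≤ M.RR F x := by
  have h := le_RR M F x x
  rw [M.dd_self] at h
  simpa using h

theorem RR_le (F : S → ℝ) (x : S) (c : ℝ) (h : ∀ z, F z - M.dd x z ≤ c) : M.RR F x ≤ c := by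
  unfold MSet.RR
  refine Finset.max'_le _ _ _ ?_
  intro y hy
  obtain ⟨z, _, rfl⟩ := Finset.mem_image.mp hy
  exact h z

theorem RR_mono (F F' : S → ℝ) (h : ∀ z, F z ≤ F' z) (x : S) : M.RR F x ≤ M.RR F' x := by
  refine RR_le M F x _ (fun z => ?_)
  have h1 := le_RR M F' x z
  have h2 := h z
  linarith

theorem RR_add (F F' : S → ℝ) (c : ℝ) (h : ∀ z, F z ≤ F' z + c) (x : S) :
    M.RR F x ≤ M.RR F' x + c := by
  refine RR_le M F x _ (fun z => ?_)
  have h1 := le_RR M F' x z
  have h2 := h z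
  linarith

theorem RR_lip (F : S → ℝ) (x y : S) : M.RR F x ≤ M.RR F y + M.dd x y := by
  refine RR_le M F x _ (fun z => ?_)
  have h1 := le_RR M F y z
  have h2 : (M.dd y z : ℝ) ≤ M.dd y x + M.dd x z := by exact_mod_cast M.dd_tri y x z
  have h3 : (M.dd y x : ℝ) = M.dd x y := by rw [M.dd_comm]
  linarith

theorem RR_RR (F : S → ℝ) : M.RR (M.RR F) = M.RR F := by
  funext x
  refine le_antisymm ?_ (self_le_RR M (M.RR F) x)
  refine RR_le M (M.RR F) x _ (fun z => ?_)
  have h1 := RR_lip M F z x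
  have h3 : (M.dd z x : ℝ) = M.dd x z := by rw [M.dd_comm]
  linarith

theorem am_spec (F : S → ℝ) (x : S) : F (M.am F x) - M.dd x (M.am F x) = M.RR F x := by
  unfold MSet.am
  exact Classical.choose_spec (p := fun z => F z - (M.dd x z : ℝ) = M.RR F x) _

theorem am_eq_self (F : S → ℝ) (hF : ∀ z, F z ≤ 0) (x : S) (hx : -1 < F x) : M.am F x = x := by
  by_contra hne
  have h1 := am_spec M F x
  have h2 := self_le_RR M F x
  have h3 := hF (M.am F x)
  have h4 : (1 : ℝ) ≤ M.dd x (M.am F x) := by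
    exact_mod_cast M.dd_pos x _ (fun h => hne h.symm)
  linarith

theorem measurable_RR (x : S) : Measurable (fun F : S → ℝ => M.RR F x) := by
  refine measurable_of_Iic (fun c => ?_)
  have : (fun F : S → ℝ => M.RR F x) ⁻¹' Set.Iic c =
      ⋂ z : S, {F : S → ℝ | F z - (M.dd x z : ℝ) ≤ c} := by
    ext F
    simp only [Set.mem_preimage, Set.mem_Iic, Set.mem_iInter, Set.mem_ofPred_eq]
    exact ⟨fun h z => (le_RR M F x z).trans h, fun h => RR_le M F x c h⟩
  rw [this]
  refine MeasurableSet.iInter (fun z => ?_)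
  exact measurableSet_le ((measurable_pi_apply z).sub_const _) measurable_const

/-- the sets `{F | am F x = z}` are measurable (for the fixed choice this needs care: replace the
choice by comparison of finitely many values; `am` is a function of the finite set of maximizers) -/
theorem measurableSet_am (x z : S) : MeasurableSet {F : S → ℝ | M.am F x = z} := by
  classical
  let cho : (S → Prop) → S := fun p => if h : ∃ z, p z then Classical.choose h else x
  have hcho : ∀ F : S → ℝ, M.am F x = cho (fun z => F z - (M.dd x z : ℝ) = M.RR F x) := by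
    intro F
    have hex : ∃ z, F z - (M.dd x z : ℝ) = M.RR F x := ⟨M.am F x, am_spec M F x⟩
    have h2 : cho (fun z => F z - (M.dd x z : ℝ) = M.RR F x) = Classical.choose hex := dif_pos hex
    rw [h2]
    rfl
  have hm : Measurable (fun F : S → ℝ => (fun z => F z - (M.dd x z : ℝ) = M.RR F x : S → Prop)) := by
    refine measurable_pi_lambda _ (fun z => ?_)
    refine measurableSet_setOfPred.mp ?_
    exact measurableSet_eq_fun ((measurable_pi_apply z).sub_const _) (measurable_RR M x)
  have heq : {F : S → ℝ | M.am F x = z} =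
      (fun F : S → ℝ => (fun z => F z - (M.dd x z : ℝ) = M.RR F x : S → Prop)) ⁻¹'
        {p | cho p = z} := by
    ext F
    simp only [Set.mem_ofPred_eq, Set.mem_preimage]
    rw [hcho F]
  rw [heq]
  exact hm (Set.toFinite _).measurableSet

theorem mf_nonpos (X : S → ℝ) (hX : ∀ z, X z ≤ 0) (g : ℕ → S → ℝ) (n : ℕ) (x : S) :
    M.mf X g n x ≤ 0 := by
  cases n with
  | zero => exact hX x
  | succ n => exact min_le_left _ _

theorem mf_succ_nonpos (X : S → ℝ) (g : ℕ → S → ℝ) (n : ℕ) (x : S) : M.mf X g (n + 1) x ≤ 0 := by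
  exact min_le_left _ _

theorem mf_mono (X X' : S → ℝ) (h : ∀ z, X z ≤ X' z) (g : ℕ → S → ℝ) (n : ℕ) (x : S) :
    M.mf X g n x ≤ M.mf X' g n x := by
  induction n generalizing x with
  | zero => exact h x
  | succ n ih =>
    change min 0 (M.RR (M.mf X g n) x + g n x) ≤ min 0 (M.RR (M.mf X' g n) x + g n x)
    refine min_le_min le_rfl ?_
    have := RR_mono M _ _ ih x
    linarith

theorem mf_contr (X X' : S → ℝ) (c : ℝ) (hc : 0 ≤ c) (h : ∀ z, X z ≤ X' z + c) (g : ℕ → S → ℝ)
    (n : ℕ) (x : S) : M.mf X g n x ≤ M.mf X' g n x + c := by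
  induction n generalizing x with
  | zero => exact h x
  | succ n ih =>
    change min 0 (M.RR (M.mf X g n) x + g n x) ≤ min 0 (M.RR (M.mf X' g n) x + g n x) + c
    have h1 := RR_add M _ _ c ih x
    rw [← min_add_add_right]
    refine le_min ?_ ?_
    · exact (min_le_left _ _).trans (by linarith)
    · exact (min_le_right _ _).trans (by linarith)

theorem mf_shift (X : S → ℝ) (g : ℕ → S → ℝ) (n m : ℕ) :
    M.mf X g (n + m) = M.mf (M.mf X g n) (fun j => g (n + j)) m := by
  induction m with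
  | zero => rfl
  | succ m ih =>
    change M.mst (M.mf X g (n + m)) (g (n + m)) = M.mst _ (g (n + m))
    rw [ih]

theorem mf_congr (X : S → ℝ) (g g' : ℕ → S → ℝ) (n : ℕ) (h : ∀ j, j < n → g j = g' j) :
    M.mf X g n = M.mf X g' n := by
  induction n with
  | zero => rfl
  | succ n ih =>
    change M.mst (M.mf X g n) (g n) = M.mst (M.mf X g' n) (g' n)
    rw [ih (fun j hj => h j (by omega)), h n (by omega)]

theorem mf_RR (X : S → ℝ) (g : ℕ → S → ℝ) (n : ℕ) : M.mf (M.RR X) g (n + 1) = M.mf X g (n + 1) := by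
  induction n with
  | zero =>
    change M.mst (M.RR X) (g 0) = M.mst X (g 0)
    unfold MSet.mst
    rw [RR_RR]
  | succ n ih =>
    change M.mst (M.mf (M.RR X) g (n + 1)) (g (n + 1)) = M.mst (M.mf X g (n + 1)) (g (n + 1))
    rw [ih]

theorem measurable_mf (n : ℕ) (x : S) :
    Measurable (fun p : (S → ℝ) × (ℕ → S → ℝ) => M.mf p.1 p.2 n x) := by
  induction n generalizing x with
  | zero => exact (measurable_pi_apply x).comp measurable_fst
  | succ n ih =>
    change Measurable (fun p : (S → ℝ) × (ℕ → S → ℝ) =>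
      min 0 (M.RR (M.mf p.1 p.2 n) x + p.2 n x))
    have h1 : Measurable (fun p : (S → ℝ) × (ℕ → S → ℝ) => M.mf p.1 p.2 n) :=
      measurable_pi_lambda _ ih
    have h2 : Measurable (fun p : (S → ℝ) × (ℕ → S → ℝ) => p.2 n x) :=
      (measurable_pi_apply x).comp ((measurable_pi_apply (X := fun _ : ℕ => S → ℝ) n).comp
        measurable_snd)
    exact measurable_const.min (((measurable_RR M x).comp h1).add h2)

theorem mf_stay (X : S → ℝ) (g : ℕ → S → ℝ) (n : ℕ) (hn : 1 ≤ n) (y : S) (c : ℝ) (hc : 0 ≤ c)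
    (h : ∀ i, i ≤ n → -c ≤ ∑ l ∈ Finset.Ico i n, g l y) :
    min 0 (M.RR X y) - c ≤ M.mf X g n y := by
  have key : ∀ n : ℕ, 1 ≤ n → ∀ t : ℝ, t ≤ M.RR X y + ∑ l ∈ Finset.Ico 0 n, g l y →
      (∀ i, 1 ≤ i → i ≤ n → t ≤ ∑ l ∈ Finset.Ico i n, g l y) → t ≤ M.mf X g n y := by
    intro n hn
    induction n, hn using Nat.le_induction with
    | base =>
      intro t h1 h2
      have h3 := h2 1 le_rfl le_rfl
      simp only [Finset.Ico_self, Finset.sum_empty] at h3
      simp only [Nat.Ico_zero_eq_range, Finset.sum_range_one] at h1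
      exact le_min h3 h1
    | succ n hn ih =>
      intro t h1 h2
      have h3 := h2 (n + 1) (by omega) le_rfl
      simp only [Finset.Ico_self, Finset.sum_empty] at h3
      refine le_min h3 ?_
      have h4 : t - g n y ≤ M.mf X g n y := by
        refine ih _ ?_ ?_
        · rw [Finset.sum_Ico_succ_top (Nat.zero_le n)] at h1
          linarith
        · intro i hi hin
          have h5 := h2 i hi (by omega)
          rw [Finset.sum_Ico_succ_top hin] at h5
          linarith
      have h6 := self_le_RR M (M.mf X g n) y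
      linarith
  refine key n hn _ ?_ ?_
  · have h1 := h 0 (Nat.zero_le n)
    have h2 := min_le_right (0 : ℝ) (M.RR X y)
    linarith
  · intro i _ hi
    have h1 := h i hi
    have h2 := min_le_left (0 : ℝ) (M.RR X y)
    linarith

theorem lin_shift (X : S → ℝ) (g : ℕ → S → ℝ) (n m : ℕ) (x : S) (i : ℕ) (hi : i ≤ n) :
    M.lin X g (n + m) x (m + i) = M.lin X g n (M.lin X g (n + m) x m) i := by
  induction i with
  | zero => rfl
  | succ i ih =>
    have hk : n + m - (m + i + 1) = n - (i + 1) := by omega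
    change M.am (M.mf X g (n + m - (m + i + 1))) (M.lin X g (n + m) x (m + i)) =
      M.am (M.mf X g (n - (i + 1))) (M.lin X g n (M.lin X g (n + m) x m) i)
    rw [hk, ih (by omega)]

/-- the last `m` steps of the lineage depend on the past only through `mf X g n` -/
theorem lin_shift' (X : S → ℝ) (g : ℕ → S → ℝ) (n m : ℕ) (x : S) (i : ℕ) (hi : i ≤ m) :
    M.lin X g (n + m) x i = M.lin (M.mf X g n) (fun j => g (n + j)) m x i := by
  induction i with
  | zero => rfl
  | succ i ih =>
    have hk : n + m - (i + 1) = n + (m - (i + 1)) := by omega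
    change M.am (M.mf X g (n + m - (i + 1))) (M.lin X g (n + m) x i) =
      M.am (M.mf (M.mf X g n) (fun j => g (n + j)) (m - (i + 1)))
        (M.lin (M.mf X g n) (fun j => g (n + j)) m x i)
    rw [hk, ih (by omega), mf_shift]

theorem lin_congr (X : S → ℝ) (g g' : ℕ → S → ℝ) (n : ℕ) (h : ∀ j, j + 1 < n → g j = g' j) (x : S)
    (i : ℕ) (hi : i ≤ n) : M.lin X g n x i = M.lin X g' n x i := by
  induction i with
  | zero => rfl
  | succ i ih =>
    change M.am (M.mf X g (n - (i + 1))) (M.lin X g n x i) =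
      M.am (M.mf X g' (n - (i + 1))) (M.lin X g' n x i)
    rw [ih (by omega), mf_congr M X g g' (n - (i + 1)) (fun j hj => h j (by omega))]

theorem measurableSet_lin (n : ℕ) (x : S) (i : ℕ) (z : S) :
    MeasurableSet {p : (S → ℝ) × (ℕ → S → ℝ) | M.lin p.1 p.2 n x i = z} := by
  induction i generalizing z with
  | zero =>
    change MeasurableSet {p : (S → ℝ) × (ℕ → S → ℝ) | x = z}
    exact MeasurableSet.const _
  | succ i ih =>
    have heq : {p : (S → ℝ) × (ℕ → S → ℝ) | M.lin p.1 p.2 n x (i + 1) = z} =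
        ⋃ w : S, {p : (S → ℝ) × (ℕ → S → ℝ) | M.lin p.1 p.2 n x i = w} ∩
          ((fun p : (S → ℝ) × (ℕ → S → ℝ) => M.mf p.1 p.2 (n - (i + 1))) ⁻¹'
            {F : S → ℝ | M.am F w = z}) := by
      ext p
      simp only [Set.mem_ofPred_eq, Set.mem_iUnion, Set.mem_inter_iff, Set.mem_preimage]
      constructor
      · intro hp
        exact ⟨M.lin p.1 p.2 n x i, rfl, hp⟩
      · rintro ⟨w, hw, hp⟩
        change M.am (M.mf p.1 p.2 (n - (i + 1))) (M.lin p.1 p.2 n x i) = z
        rw [hw]
        exact hp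
    rw [heq]
    refine MeasurableSet.iUnion (fun w => (ih w).inter ?_)
    have h1 : Measurable (fun p : (S → ℝ) × (ℕ → S → ℝ) => M.mf p.1 p.2 (n - (i + 1))) :=
      measurable_pi_lambda _ (fun y => measurable_mf M (n - (i + 1)) y)
    exact h1 (measurableSet_am M w z)

/-- value along the lineage: `γ_j = lin (n - j)` is the position at time `j` -/
theorem mf_le_lin (X : S → ℝ) (g : ℕ → S → ℝ) (n : ℕ) (x : S) (i : ℕ) (hi : i ≤ n) :
    M.mf X g n x ≤ M.mf X g (n - i) (M.lin X g n x i) +
      ∑ l ∈ Finset.range i, (g (n - (l + 1)) (M.lin X g n x l) -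
        M.dd (M.lin X g n x l) (M.lin X g n x (l + 1))) := by
  induction i with
  | zero => simp [MSet.lin]
  | succ i ih =>
    have h1 := ih (by omega)
    rw [Finset.sum_range_succ]
    have hk : n - i = n - (i + 1) + 1 := by omega
    have h2 : M.mf X g (n - i) (M.lin X g n x i) ≤
        M.mf X g (n - (i + 1)) (M.lin X g n x (i + 1)) +
          (g (n - (i + 1)) (M.lin X g n x i) -
            M.dd (M.lin X g n x i) (M.lin X g n x (i + 1))) := by
      rw [hk]
      have h3 := am_spec M (M.mf X g (n - (i + 1))) (M.lin X g n x i)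
      change min 0 (M.RR (M.mf X g (n - (i + 1))) (M.lin X g n x i) +
        g (n - (i + 1)) (M.lin X g n x i)) ≤ _
      refine (min_le_right _ _).trans ?_
      rw [← h3]
      change _ ≤ M.mf X g (n - (i + 1)) (M.am (M.mf X g (n - (i + 1))) (M.lin X g n x i)) +
        (g (n - (i + 1)) (M.lin X g n x i) -
            M.dd (M.lin X g n x i) (M.am (M.mf X g (n - (i + 1))) (M.lin X g n x i)))
      linarith
    linarith

theorem dd_lin (X : S → ℝ) (g : ℕ → S → ℝ) (n : ℕ) (x : S) (i : ℕ) :
    (M.dd x (M.lin X g n x i) : ℝ) ≤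
      ∑ l ∈ Finset.range i, (M.dd (M.lin X g n x l) (M.lin X g n x (l + 1)) : ℝ) := by
  induction i with
  | zero => simp [MSet.lin, M.dd_self]
  | succ i ih =>
    rw [Finset.sum_range_succ]
    have h1 : (M.dd x (M.lin X g n x (i + 1)) : ℝ) ≤
        M.dd x (M.lin X g n x i) + M.dd (M.lin X g n x i) (M.lin X g n x (i + 1)) := by
      exact_mod_cast M.dd_tri x (M.lin X g n x i) (M.lin X g n x (i + 1))
    linarith

/-- gain on the lineage against the last passage functional with `q = 1/8` -/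
theorem gain_lin (X : S → ℝ) (g : ℕ → S → ℝ) (n : ℕ) (x : S) (i : ℕ) (hi : i ≤ n) :
    ∑ l ∈ Finset.range i, g (n - (l + 1)) (M.lin X g n x l) ≤
      1 / 8 * ∑ l ∈ Finset.range i, (M.dd (M.lin X g n x l) (M.lin X g n x (l + 1)) : ℝ) +
        M.lppM (1 / 8) (fun _ => 0) g n x := by
  have h1 := lpp_path M (1 / 8) (fun _ => 0) (fun _ => le_rfl) g
    (fun j => M.lin X g n x (n - j)) (a := n - i) (m := n) (Nat.sub_le n i)
  simp only [Nat.sub_self] at h1
  have h2 := le_lppM M (1 / 8) (fun _ => 0) g (le_refl n) x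
  have h3 : ∑ l ∈ Finset.range i, (g (n - (l + 1)) (M.lin X g n x l) -
        1 / 8 * (M.dd (M.lin X g n x l) (M.lin X g n x (l + 1)) : ℝ)) =
      ∑ j ∈ Finset.Ico (n - i) n, (g j (M.lin X g n x (n - (j + 1))) -
        1 / 8 * (M.dd (M.lin X g n x (n - j)) (M.lin X g n x (n - (j + 1))) : ℝ)) := by
    refine Finset.sum_bij' (fun l _ => n - (l + 1)) (fun j _ => n - (j + 1)) ?_ ?_ ?_ ?_ ?_
    · intro l hl
      rw [Finset.mem_range] at hl
      rw [Finset.mem_Ico]
      omega
    · intro j hj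
      rw [Finset.mem_Ico] at hj
      rw [Finset.mem_range]
      omega
    · intro l hl
      rw [Finset.mem_range] at hl
      omega
    · intro j hj
      rw [Finset.mem_Ico] at hj
      omega
    · intro l hl
      rw [Finset.mem_range] at hl
      have e1 : n - (n - (l + 1) + 1) = l := by omega
      have e2 : n - (n - (l + 1)) = l + 1 := by omega
      rw [e1, e2, M.dd_comm (M.lin X g n x (l + 1)) (M.lin X g n x l)]
  rw [Finset.sum_sub_distrib, ← Finset.mul_sum] at h3
  have h4 : M.lpp (1 / 8) (fun _ => 0) g n (M.lin X g n x 0) = M.lpp (1 / 8) (fun _ => 0) g n x := rfl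
  rw [h4] at h1
  linarith

/-- total length of the lineage (`n ≥ 1`) -/
theorem len_lin (X : S → ℝ) (hX : ∀ z, X z ≤ 0) (g : ℕ → S → ℝ) (n : ℕ) (x : S) (Ke : ℝ)
    (hKe : 0 ≤ Ke) (hx : -Ke ≤ X x) :
    7 / 8 * ∑ l ∈ Finset.range n, (M.dd (M.lin X g n x l) (M.lin X g n x (l + 1)) : ℝ) ≤
      Ke + M.lppM (1 / 8) (fun _ => 0) g n x + M.lppM (1 / 8) (fun _ => 0) (-g) n x := by
  have hz : ∀ z : S, (0 : ℝ) ≤ (fun _ : S => (0 : ℝ)) z := fun _ => le_rfl
  have hP := lppM_nonneg M (1 / 8) (fun _ => 0) hz g n x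
  have hN := lppM_nonneg M (1 / 8) (fun _ => 0) hz (-g) n x
  rcases Nat.eq_zero_or_pos n with hn | hn
  · subst hn
    simp only [Finset.range_zero, Finset.sum_empty, mul_zero]
    linarith
  · have h1 := mf_le_lin M X g n x n le_rfl
    rw [Nat.sub_self, Finset.sum_sub_distrib] at h1
    have h2 : M.mf X g 0 (M.lin X g n x n) ≤ 0 := hX _
    have h3 := gain_lin M X g n x n le_rfl
    have h4 : min 0 (M.RR X x) - M.lppM (1 / 8) (fun _ => 0) (-g) n x ≤ M.mf X g n x := by
      refine mf_stay M X g n hn x _ hN (fun i hi => ?_)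
      have h5 := lpp_path M (1 / 8) (fun _ => 0) hz (-g) (fun _ => x) hi
      have h6 := le_lppM M (1 / 8) (fun _ => 0) (-g) (le_refl n) x
      have h7 : ∑ l ∈ Finset.Ico i n, ((-g) l x - 1 / 8 * (M.dd x x : ℝ)) =
          - ∑ l ∈ Finset.Ico i n, g l x := by
        rw [← Finset.sum_neg_distrib]
        refine Finset.sum_congr rfl (fun l _ => ?_)
        rw [M.dd_self]
        simp
      rw [h7] at h5
      linarith
    have h8 : -Ke ≤ min 0 (M.RR X x) :=
      le_min (by linarith) (hx.trans (self_le_RR M X x))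
    linarith

end DynC
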