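import Pool.Agent.Lib_MP_36b788c.Sm3

/-!
# First unit of time: caps and lower bounds in terms of the potential

`PotGe k q u t M s0 y`: for every `v` some `z` has `Tz k q u t v z ≥ k^{M + s0 dist v y}`.
`LowR k u M s0 y`: for every `v` some `z` has `u z k^{dist v z} ≥ k^{M + s0 dist v y}`.
`Caps k u ε0 y`: `u v ≤ k^{-ε0(1+dist v y)}` for all `v`.

PROOF.
* `potGe_of_V`: `Vp = (sup_z ofReal Tz)^{-s} ≤ ofReal (exp(a'(M + s0 dist)))`, `s = a'/ell` gives `sup_z Tz ≥ exp(-ell(M + s0 dist)) = k^{M+s0 dist}`.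
* `V_of_potGe`: `Vp k q s0' ≤ k^{-s0'(M+s0 dist)}`.
* `caps_prob`: `mom_cap`: `E[Yl(u)(v) + Yl(u')(v); alv n] ≤ C` for `1 ≤ n h`, `u v ≤ Yl u v`, Markov and `Σ_v k^{ε0 dist v y} ≤ 3^d` (`sum_half`, `k^{ε0} ≤ 1/2`).
* `pot_prob`: exponent `r = 1/(8q)`: `sm_multi` (`8 q r ≤ 1`, `n h ≤ 3`): `∫_{alv n} V1 k q r (tr n) v ≤ e^{C} V1 k q r G v ≤ e^C k^{-r(M + s0 dist v y)}`. Markov: `P(alv n, V1 > k^{-r(M + ε + (s0+ε) dist v y)}) ≤ e^C k^{rε(1+dist v y)}`, sum over `v`. `V1 ≤ k^{-r A}` iff `sup_z Tz ≥ k^A`.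
* `low_of_pot`: `t = u + u'` with `Caps`, `Tz v z = k^{dist v z/4} fpot(u z) SSt(z)^{-q} ≥ k^{A}`, `A = M + s0 dist v y`, `SSt ≥ 1`: `k^{dist v z/4} fpot(u z) ≥ k^A`; `fpot(u z) ≤ max 1 (u z) ≤ k^{-ε0(1+dist z y)}` so `dist v z/4 ≤ A + ε0(1 + dist z y) ≤ A + ε0(1+dist v y+dist v z)`, with `ε0 ≤ 1/8`: `dist v z ≤ 8(A + ε0(1+dist v y))`, and
  `u z k^{dist v z} ≥ fpot(u z) k^{dist v z} ≥ k^{A + (3/4) dist v z} ≥ k^{A + 6(A+ε0(1+dist v y))}`, exponent `≤ 7A + 1 + dist v y·6ε0`.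
-/

open MeasureTheory ProbabilityTheory
open scoped ENNReal

namespace DynC

open Dyn

variable {d : ℕ}

/-- lower bound of the potential level -/
def PotGe {L : ℕ} (k q : ℝ) (u t : boxS d L → ℝ) (M s0 : ℝ) (y : boxS d L) : Prop :=
  ∀ v, ∃ z, k ^ (M + s0 * (boxNet d L).dist v y) ≤ Tz (boxNet d L) k q u t v z

/-- lower bound of the sup convolution of the heights -/
def LowR {L : ℕ} (k : ℝ) (u : boxS d L → ℝ) (M s0 : ℝ) (y : boxS d L) : Prop :=
  ∀ v, ∃ z, k ^ (M + s0 * (boxNet d L).dist v y) ≤ u z * k ^ (boxNet d L).dist v z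

/-- caps around `y` -/
def Caps {L : ℕ} (k : ℝ) (u : boxS d L → ℝ) (ε0 : ℝ) (y : boxS d L) : Prop :=
  ∀ v, u v ≤ k ^ (-(ε0 * (1 + (boxNet d L).dist v y)))

private theorem Unit_inv {a b : ℝ≥0∞} {s : ℝ} (hs : 0 < s) : a ^ (-s) ≤ b ^ (-s) ↔ b ≤ a := by
  rw [ENNReal.rpow_neg, ENNReal.rpow_neg, ENNReal.inv_le_inv, ENNReal.rpow_le_rpow_iff hs]

private theorem Unit_ell {k : ℝ} : ell k = -Real.log k := by
  unfold ell
  rw [one_div, Real.log_inv]

private theorem Unit_small (K η : ℝ) (hK : 0 < K) (hη : 0 < η) : ∃ k0 : ℝ, 0 < k0 ∧ k0 < 1 ∧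
    ∀ k, 0 < k → k < k0 → k ^ η ≤ 1 / 2 ∧ K * k ^ η ≤ k ^ (η / 2) ∧ 1 ≤ ell k := by
  refine ⟨min (Real.exp (-1)) (min ((1 / 2 : ℝ) ^ (1 / η)) ((1 / K) ^ (2 / η))), ?_, ?_, ?_⟩
  · exact lt_min (Real.exp_pos _) (lt_min (Real.rpow_pos_of_pos (by norm_num) _)
      (Real.rpow_pos_of_pos (by positivity) _))
  · refine lt_of_le_of_lt (min_le_left _ _) ?_
    rw [Real.exp_lt_one_iff]
    norm_num
  · intro k hk hlt
    have h1 : k < Real.exp (-1) := hlt.trans_le (min_le_left _ _)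
    have h2 : k < (1 / 2 : ℝ) ^ (1 / η) :=
      hlt.trans_le ((min_le_right _ _).trans (min_le_left _ _))
    have h3 : k < (1 / K) ^ (2 / η) :=
      hlt.trans_le ((min_le_right _ _).trans (min_le_right _ _))
    refine ⟨?_, ?_, ?_⟩
    · have e1 : k ^ η ≤ ((1 / 2 : ℝ) ^ (1 / η)) ^ η := Real.rpow_le_rpow hk.le h2.le hη.le
      rw [← Real.rpow_mul (by norm_num), one_div_mul_cancel hη.ne', Real.rpow_one] at e1
      exact e1
    · have e1 : k ^ (η / 2) ≤ ((1 / K) ^ (2 / η)) ^ (η / 2) :=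
        Real.rpow_le_rpow hk.le h3.le (by positivity)
      rw [← Real.rpow_mul (by positivity), show 2 / η * (η / 2) = 1 by field_simp,
        Real.rpow_one] at e1
      have e2 : k ^ η = k ^ (η / 2) * k ^ (η / 2) := by
        rw [← Real.rpow_add hk]
        congr 1
        ring
      have e3 : 0 < k ^ (η / 2) := Real.rpow_pos_of_pos hk _
      calc K * k ^ η = K * k ^ (η / 2) * k ^ (η / 2) := by rw [e2]; ring
        _ ≤ K * (1 / K) * k ^ (η / 2) := by gcongr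
        _ = k ^ (η / 2) := by rw [mul_one_div_cancel hK.ne', one_mul]
    · rw [Unit_ell]
      have e1 := Real.log_lt_log hk h1
      rw [Real.log_exp] at e1
      linarith

private theorem Unit_sum {L : ℕ} {Ω : Type} [MeasurableSpace Ω] (μ : Measure Ω) (A ev : Set Ω)
    (B : boxS d L → Set Ω) (y : boxS d L) {K ρ : ℝ} (hK : 0 ≤ K) (hρ : 0 ≤ ρ) (hρ2 : ρ ≤ 1 / 2)
    (hsub : ∀ ω ∈ ev, ∃ v, ω ∈ B v)
    (hB : ∀ v, μ (A ∩ B v) ≤ ENNReal.ofReal (K * ρ * ρ ^ (boxNet d L).dist v y)) :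
    μ (A ∩ ev) ≤ ENNReal.ofReal (K * 3 ^ d * ρ) := by
  have h1 : A ∩ ev ⊆ ⋃ v, A ∩ B v := by
    intro ω hω
    obtain ⟨v, hv⟩ := hsub ω hω.2
    exact Set.mem_iUnion.2 ⟨v, hω.1, hv⟩
  calc μ (A ∩ ev) ≤ μ (⋃ v, A ∩ B v) := measure_mono h1
    _ ≤ ∑ v, μ (A ∩ B v) := measure_iUnion_fintype_le _ _
    _ ≤ ∑ v, ENNReal.ofReal (K * ρ * ρ ^ (boxNet d L).dist v y) :=
        Finset.sum_le_sum fun v _ => hB v
    _ = ENNReal.ofReal (∑ v, K * ρ * ρ ^ (boxNet d L).dist v y) := by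
        rw [ENNReal.ofReal_sum_of_nonneg]
        intro v _
        positivity
    _ ≤ ENNReal.ofReal (K * 3 ^ d * ρ) := by
        refine ENNReal.ofReal_le_ofReal ?_
        rw [← Finset.mul_sum]
        have h2 : ∑ v, ρ ^ (boxNet d L).dist v y ≤ 3 ^ d := by
          refine le_trans (Finset.sum_le_sum fun v _ => ?_) ((boxNet d L).sum_half y)
          rw [(boxNet d L).dist_comm v y]
          exact pow_le_pow_left₀ hρ hρ2 _
        calc K * ρ * ∑ v, ρ ^ (boxNet d L).dist v y ≤ K * ρ * 3 ^ d :=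
              mul_le_mul_of_nonneg_left h2 (by positivity)
          _ = K * 3 ^ d * ρ := by ring

private theorem Unit_markov {Ω : Type} [MeasurableSpace Ω] (μ : Measure Ω) (A : Set Ω)
    (f : Ω → ℝ≥0∞) (hf : Measurable f) {a b : ℝ} (ha : 0 < a)
    (hI : ∫⁻ ω in A, f ω ∂μ ≤ ENNReal.ofReal b) :
    μ (A ∩ {ω | ENNReal.ofReal a ≤ f ω}) ≤ ENNReal.ofReal (b / a) := by
  have h1 := mul_meas_ge_le_lintegral (μ := μ.restrict A) hf (ENNReal.ofReal a)
  have h2 : μ.restrict A {ω | ENNReal.ofReal a ≤ f ω} =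
      μ (A ∩ {ω | ENNReal.ofReal a ≤ f ω}) := by
    rw [Measure.restrict_apply (measurableSet_le measurable_const hf), Set.inter_comm]
  rw [h2] at h1
  have h3 := h1.trans hI
  have ha0 : ENNReal.ofReal a ≠ 0 := (ENNReal.ofReal_pos.2 ha).ne'
  rw [mul_comm, ← ENNReal.le_div_iff_mul_le (Or.inl ha0) (Or.inl ENNReal.ofReal_ne_top)] at h3
  refine h3.trans (le_of_eq ?_)
  rw [ENNReal.ofReal_div_of_pos ha]

theorem potGe_of_V {L : ℕ} {k q a' M s0 : ℝ} (hk : 0 < k) (hk1 : k < 1) (ha : 0 < a')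
    (u t : boxS d L → ℝ) (y : boxS d L)
    (h : ∀ v, Vp (boxNet d L) k q (a' / ell k) u t v ≤
      ENNReal.ofReal (Real.exp (a' * (M + s0 * (boxNet d L).dist v y)))) :
    PotGe k q u t M s0 y := by
  intro v
  have hv := h v
  have hl : 0 < ell k := ell_pos hk hk1
  unfold Vp at hv
  have e1 : ENNReal.ofReal (Real.exp (a' * (M + s0 * (boxNet d L).dist v y))) =
      (ENNReal.ofReal (k ^ (M + s0 * (boxNet d L).dist v y))) ^ (-(a' / ell k)) := by
    rw [ENNReal.ofReal_rpow_of_pos (Real.rpow_pos_of_pos hk _), ← Real.rpow_mul hk.le,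
      Real.rpow_def_of_pos hk]
    congr 2
    have h2 : Real.log k = -ell k := by rw [Unit_ell, neg_neg]
    rw [h2]
    field_simp
  rw [e1, Unit_inv (div_pos ha hl)] at hv
  obtain ⟨z, -, hz⟩ := Finset.exists_mem_eq_sup Finset.univ ⟨v, Finset.mem_univ v⟩
    (fun z => ENNReal.ofReal (Tz (boxNet d L) k q u t v z))
  rw [hz] at hv
  refine ⟨z, ?_⟩
  rcases ENNReal.ofReal_le_ofReal_iff'.1 hv with h3 | h3
  · exact h3
  · exact absurd h3 (not_le.2 (Real.rpow_pos_of_pos hk _))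

theorem V_of_potGe {L : ℕ} {k q r M s0 : ℝ} (hk : 0 < k) (hk1 : k < 1) (hr : 0 < r)
    (u t : boxS d L → ℝ) (y : boxS d L) (h : PotGe k q u t M s0 y) (v : boxS d L) :
    Vp (boxNet d L) k q r u t v ≤
      ENNReal.ofReal (k ^ (-(r * (M + s0 * (boxNet d L).dist v y)))) := by
  obtain ⟨z, hz⟩ := h v
  unfold Vp
  have e1 : ENNReal.ofReal (k ^ (-(r * (M + s0 * (boxNet d L).dist v y)))) =
      (ENNReal.ofReal (k ^ (M + s0 * (boxNet d L).dist v y))) ^ (-r) := by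
    rw [ENNReal.ofReal_rpow_of_pos (Real.rpow_pos_of_pos hk _), ← Real.rpow_mul hk.le]
    congr 2
    ring
  rw [e1, Unit_inv hr]
  exact (ENNReal.ofReal_le_ofReal hz).trans
    (Finset.le_sup (f := fun z => ENNReal.ofReal (Tz (boxNet d L) k q u t v z))
      (Finset.mem_univ z))

theorem caps_prob (N d : ℕ) (β : ℝ) (hβ : 0 < β) (ε0 : ℝ) (hε : 0 < ε0) :
    ∃ c k0 : ℝ, 0 < c ∧ 0 < k0 ∧ k0 < 1 ∧
    ∀ (F : Fam d) (k : ℝ) (S : PSys F β k), 0 < k → k < k0 → BNoise N S.ν S.b S.gd →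
    ∀ L : ℕ, ∃ h0 : ℝ, 0 < h0 ∧ ∀ h, 0 < h → h < h0 →
    ∀ (G : (boxS d L → F.V) × (boxS d L → F.V)) (n : ℕ), 1 ≤ n * h → ∀ y : boxS d L,
      PI (S.mu L) (S.alv h L G n ∩ {ω | ¬ Caps k (fun v => ‖(S.tr h L G ω n).1 v‖ +
          ‖(S.tr h L G ω n).2 v‖) ε0 y}) ≤ ENNReal.ofReal (k ^ c) := by
  obtain ⟨C, hC, H⟩ := mom_cap N d β hβ
  obtain ⟨k0, hk0, hk01, Hk⟩ := Unit_small (C * 3 ^ d) ε0 (by positivity) hε
  refine ⟨ε0 / 2, k0, by positivity, hk0, hk01, ?_⟩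
  intro F k S hk hkk hB L
  obtain ⟨h0, hh0, H0⟩ := H F k S hk.le (hkk.trans hk01).le hB L
  refine ⟨h0, hh0, ?_⟩
  intro h hh hhh G n hn y
  obtain ⟨h1, h2, -⟩ := Hk k hk hkk
  have hρ : 0 ≤ k ^ ε0 := Real.rpow_nonneg hk.le _
  have htr : Measurable (fun ω : ℕ → boxS d L → S.Ωp => S.tr h L G ω n) :=
    (measurable_tr S h L n).comp (measurable_const.prodMk measurable_id)
  have hm1 : ∀ w : boxS d L, Measurable
      (fun ω : ℕ → boxS d L → S.Ωp => ‖(S.tr h L G ω n).1 w‖) := fun w =>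
    ((measurable_pi_apply w).comp (measurable_fst.comp htr)).norm
  have hm2 : ∀ w : boxS d L, Measurable
      (fun ω : ℕ → boxS d L → S.Ωp => ‖(S.tr h L G ω n).2 w‖) := fun w =>
    ((measurable_pi_apply w).comp (measurable_snd.comp htr)).norm
  have hY1 : ∀ v : boxS d L, Measurable
      (fun ω : ℕ → boxS d L → S.Ωp => Yl (boxNet d L) (nrm (S.tr h L G ω n).1) v) := by
    intro v
    unfold Yl nrm
    exact Finset.measurable_fun_sum _ fun w _ => (hm1 w).const_mul _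
  have hY2 : ∀ v : boxS d L, Measurable
      (fun ω : ℕ → boxS d L → S.Ωp => Yl (boxNet d L) (nrm (S.tr h L G ω n).2) v) := by
    intro v
    unfold Yl nrm
    exact Finset.measurable_fun_sum _ fun w _ => (hm2 w).const_mul _
  have hle : ∀ (u : boxS d L → ℝ) (v : boxS d L), (∀ w, 0 ≤ u w) → u v ≤ Yl (boxNet d L) u v := by
    intro u v hu
    have e := Finset.single_le_sum (f := fun w => (1 / 2 : ℝ) ^ (boxNet d L).dist v w * u w)
      (fun w _ => mul_nonneg (by positivity) (hu w)) (Finset.mem_univ v)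
    rw [(boxNet d L).dist_self, pow_zero, one_mul] at e
    exact e
  refine (Unit_sum (PI (S.mu L)) (S.alv h L G n) _
    (fun v => {ω | ENNReal.ofReal (k ^ (-(ε0 * (1 + (boxNet d L).dist v y)))) ≤
      ENNReal.ofReal (Yl (boxNet d L) (nrm (S.tr h L G ω n).1) v +
        Yl (boxNet d L) (nrm (S.tr h L G ω n).2) v)}) y hC.le hρ h1 ?_ ?_).trans
    (ENNReal.ofReal_le_ofReal h2)
  · intro ω hω
    have hω' : ¬ Caps k (fun v => ‖(S.tr h L G ω n).1 v‖ + ‖(S.tr h L G ω n).2 v‖) ε0 y := hω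
    unfold Caps at hω'
    push Not at hω'
    obtain ⟨v, hv⟩ := hω'
    refine ⟨v, ?_⟩
    refine ENNReal.ofReal_le_ofReal ?_
    have e1 := hle (nrm (S.tr h L G ω n).1) v (fun w => norm_nonneg _)
    have e2 := hle (nrm (S.tr h L G ω n).2) v (fun w => norm_nonneg _)
    have e3 : nrm (S.tr h L G ω n).1 v = ‖(S.tr h L G ω n).1 v‖ := rfl
    have e4 : nrm (S.tr h L G ω n).2 v = ‖(S.tr h L G ω n).2 v‖ := rfl
    rw [e3] at e1
    rw [e4] at e2
    linarith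
  · intro v
    have hY : Measurable (fun ω : ℕ → boxS d L → S.Ωp =>
        ENNReal.ofReal (Yl (boxNet d L) (nrm (S.tr h L G ω n).1) v +
        Yl (boxNet d L) (nrm (S.tr h L G ω n).2) v)) := ((hY1 v).add (hY2 v)).ennreal_ofReal
    refine (Unit_markov (PI (S.mu L)) (S.alv h L G n) _ hY (Real.rpow_pos_of_pos hk _)
      (H0 h hh hhh G n hn v)).trans (ENNReal.ofReal_le_ofReal (le_of_eq ?_))
    rw [Real.rpow_neg hk.le, div_inv_eq_mul, mul_assoc]
    congr 1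
    rw [← Real.rpow_natCast, ← Real.rpow_mul hk.le, ← Real.rpow_add hk]
    congr 1
    ring

theorem pot_prob (N d : ℕ) (β : ℝ) (hN : 2 ≤ N) (hβ : 0 < β) : ∃ q0 : ℝ, 1 ≤ q0 ∧
    ∀ q, q0 ≤ q → ∀ ε, 0 < ε → ∃ c k0 : ℝ, 0 < c ∧ 0 < k0 ∧ k0 < 1 ∧
    ∀ (F : Fam d) (k : ℝ) (S : PSys F β k), 0 < k → k < k0 → BNoise N S.ν S.b S.gd →
    ∃ h0 : ℝ, 0 < h0 ∧ ∀ h, 0 < h → h < h0 → ∀ L : ℕ,
    ∀ (G : (boxS d L → F.V) × (boxS d L → F.V)) (n : ℕ), n * h ≤ 3 → ∀ (y : boxS d L) (M s0 : ℝ),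
      0 ≤ M → 0 ≤ s0 →
      (PotGe k q (nrm G.1) (fun v => nrm G.1 v + nrm G.2 v) M s0 y →
        PI (S.mu L) (S.alv h L G n ∩ {ω | ¬ PotGe k q (nrm (S.tr h L G ω n).1)
          (fun v => nrm (S.tr h L G ω n).1 v + nrm (S.tr h L G ω n).2 v) (M + ε) (s0 + ε) y}) ≤
            ENNReal.ofReal (k ^ c)) ∧
      (PotGe k q (nrm G.2) (fun v => nrm G.1 v + nrm G.2 v) M s0 y →
        PI (S.mu L) (S.alv h L G n ∩ {ω | ¬ PotGe k q (nrm (S.tr h L G ω n).2)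
          (fun v => nrm (S.tr h L G ω n).1 v + nrm (S.tr h L G ω n).2 v) (M + ε) (s0 + ε) y}) ≤
            ENNReal.ofReal (k ^ c)) := by
  obtain ⟨q0, hq0, H⟩ := sm_multi N d β hN hβ
  refine ⟨q0, hq0, ?_⟩
  intro q hq ε hε
  have hq1 : 1 ≤ q := hq0.trans hq
  obtain ⟨C9, k1, hC9, hk1, hk11, H1⟩ := H q hq
  have hr : 0 < 1 / (8 * q) := by positivity
  obtain ⟨k2, hk2, hk21, Hk⟩ := Unit_small
    (Real.exp (C9 * (1 / (8 * q) + (1 / (8 * q)) ^ 2) * 3) * 3 ^ d) (1 / (8 * q) * ε)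
    (by positivity) (by positivity)
  refine ⟨1 / (8 * q) * ε / 2, min k1 k2, by positivity, lt_min hk1 hk2,
    lt_of_le_of_lt (min_le_left _ _) hk11, ?_⟩
  intro F k S hk hkk hB
  have hkk1 : k < k1 := hkk.trans_le (min_le_left _ _)
  have hkk2 : k < k2 := hkk.trans_le (min_le_right _ _)
  obtain ⟨e1, e2, e3⟩ := Hk k hk hkk2
  set r : ℝ := 1 / (8 * q) with hrd
  have hqr : 8 * q * r ≤ 1 := by
    rw [hrd, mul_one_div_cancel (by positivity)]
  obtain ⟨h0, hh0, H2⟩ := H1 F k S hk hkk1 hB r hr hqr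
  refine ⟨h0, hh0, ?_⟩
  intro h hh hhh L G n hn y M s0 hM hs0
  have hk1' : k < 1 := hkk1.trans hk11
  have hexp : Real.exp (C9 * (r / ell k + r ^ 2) * (n * h)) ≤
      Real.exp (C9 * (r + r ^ 2) * 3) := by
    refine Real.exp_le_exp.2 ?_
    have a1 : r / ell k ≤ r := div_le_self hr.le e3
    have a2 : 0 ≤ r / ell k := div_nonneg hr.le (by linarith)
    have a3 : 0 ≤ (n : ℝ) * h := by positivity
    calc C9 * (r / ell k + r ^ 2) * (n * h) ≤ C9 * (r + r ^ 2) * (n * h) := by gcongr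
      _ ≤ C9 * (r + r ^ 2) * 3 := by gcongr
  have htr : Measurable (fun ω : ℕ → boxS d L → S.Ωp => S.tr h L G ω n) :=
    (measurable_tr S h L n).comp (measurable_const.prodMk measurable_id)
  have hρ : 0 ≤ k ^ (r * ε) := Real.rpow_nonneg hk.le _
  have key : ∀ (u : (boxS d L → F.V) × (boxS d L → F.V) → boxS d L → ℝ)
      (W : (boxS d L → F.V) × (boxS d L → F.V) → boxS d L → ℝ≥0∞)
      (_ : ∀ P v, W P v = Vp (boxNet d L) k q r (u P) (fun v => nrm P.1 v + nrm P.2 v) v)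
      (_ : ∀ v, Measurable (fun ω : ℕ → boxS d L → S.Ωp => W (S.tr h L G ω n) v))
      (_ : ∀ v, ∫⁻ ω in S.alv h L G n, W (S.tr h L G ω n) v ∂(PI (S.mu L)) ≤
          ENNReal.ofReal (Real.exp (C9 * (r / ell k + r ^ 2) * (n * h))) * W G v),
      PotGe k q (u G) (fun v => nrm G.1 v + nrm G.2 v) M s0 y →
        PI (S.mu L) (S.alv h L G n ∩ {ω | ¬ PotGe k q (u (S.tr h L G ω n))
          (fun v => nrm (S.tr h L G ω n).1 v + nrm (S.tr h L G ω n).2 v) (M + ε) (s0 + ε) y}) ≤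
            ENNReal.ofReal (k ^ (r * ε / 2)) := by
    intro u W hW hWm hWi hG
    refine (Unit_sum (PI (S.mu L)) (S.alv h L G n) _
      (fun v => {ω | ENNReal.ofReal (k ^ (-(r * (M + ε + (s0 + ε) * (boxNet d L).dist v y)))) ≤
        W (S.tr h L G ω n) v}) y (Real.exp_pos _).le hρ e1 ?_ ?_).trans
      (ENNReal.ofReal_le_ofReal e2)
    · intro ω hω
      have hω' : ¬ PotGe k q (u (S.tr h L G ω n))
          (fun v => nrm (S.tr h L G ω n).1 v + nrm (S.tr h L G ω n).2 v) (M + ε) (s0 + ε) y := hω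
      unfold PotGe at hω'
      push Not at hω'
      obtain ⟨v, hv⟩ := hω'
      refine ⟨v, ?_⟩
      show _ ≤ W (S.tr h L G ω n) v
      rw [hW]
      unfold Vp
      have a1 : ENNReal.ofReal (k ^ (-(r * (M + ε + (s0 + ε) * (boxNet d L).dist v y)))) =
          (ENNReal.ofReal (k ^ (M + ε + (s0 + ε) * (boxNet d L).dist v y))) ^ (-r) := by
        rw [ENNReal.ofReal_rpow_of_pos (Real.rpow_pos_of_pos hk _), ← Real.rpow_mul hk.le]
        congr 2
        ring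
      rw [a1, Unit_inv hr]
      refine Finset.sup_le fun z _ => ENNReal.ofReal_le_ofReal (hv z).le
    · intro v
      have a1 : ∫⁻ ω in S.alv h L G n, W (S.tr h L G ω n) v ∂(PI (S.mu L)) ≤
          ENNReal.ofReal (Real.exp (C9 * (r + r ^ 2) * 3) *
            k ^ (-(r * (M + s0 * (boxNet d L).dist v y)))) := by
        refine (hWi v).trans ?_
        rw [ENNReal.ofReal_mul (Real.exp_pos _).le]
        refine mul_le_mul' (ENNReal.ofReal_le_ofReal hexp) ?_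
        rw [hW]
        exact V_of_potGe hk hk1' hr _ _ y hG v
      refine (Unit_markov (PI (S.mu L)) (S.alv h L G n) _ (hWm v) (Real.rpow_pos_of_pos hk _)
        a1).trans (ENNReal.ofReal_le_ofReal (le_of_eq ?_))
      have b1 : k ^ (-(r * (M + s0 * (boxNet d L).dist v y))) *
          k ^ (r * (M + ε + (s0 + ε) * (boxNet d L).dist v y)) =
          k ^ (r * ε) * (k ^ (r * ε)) ^ (boxNet d L).dist v y := by
        rw [← Real.rpow_natCast (k ^ (r * ε)) _, ← Real.rpow_mul hk.le, ← Real.rpow_add hk,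
          ← Real.rpow_add hk]
        congr 1
        ring
      rw [Real.rpow_neg hk.le (r * (M + ε + (s0 + ε) * (boxNet d L).dist v y)), div_inv_eq_mul,
        mul_assoc (Real.exp (C9 * (r + r ^ 2) * 3)), b1, ← mul_assoc]
  constructor
  · intro hG
    exact key (fun P => nrm P.1) (fun P v => V1 k q r P v) (fun P v => rfl)
      (fun v => ((measurable_V k q r v).1).comp htr)
      (fun v => (H2 h hh hhh L G n v).1) hG
  · intro hG
    exact key (fun P => nrm P.2) (fun P v => V2 k q r P v) (fun P v => rfl)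
      (fun v => ((measurable_V k q r v).2).comp htr)
      (fun v => (H2 h hh hhh L G n v).2) hG

theorem low_of_pot {L : ℕ} {k q M s0 ε0 : ℝ} (hk : 0 < k) (hk1 : k < 1) (hq : 0 ≤ q)
    (hM : 0 ≤ M) (hs0 : 0 ≤ s0) (hε : 0 < ε0) (hε1 : ε0 ≤ 1 / 8)
    (u t : boxS d L → ℝ) (hu : ∀ v, 0 ≤ u v) (hut : ∀ v, u v ≤ t v) (y : boxS d L)
    (h : PotGe k q u t M s0 y) (hc : Caps k t ε0 y) :
    LowR k u (7 * M + 1) (7 * s0 + 6 * ε0) y := by
  intro v
  obtain ⟨z, hz⟩ := h v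
  refine ⟨z, ?_⟩
  have ht : ∀ w, 0 ≤ t w := fun w => (hu w).trans (hut w)
  set D : ℝ := (((boxNet d L).dist v z : ℕ) : ℝ) with hD
  set Y : ℝ := (((boxNet d L).dist v y : ℕ) : ℝ) with hY
  have hD0 : 0 ≤ D := Nat.cast_nonneg _
  have hY0 : 0 ≤ Y := Nat.cast_nonneg _
  have hf0 : 0 ≤ fpot k (u z) := fpot_nonneg k (u z)
  have hS : SSt (boxNet d L) k t z ^ (-q) ≤ 1 :=
    Real.rpow_le_one_of_one_le_of_nonpos (SSt_one (boxNet d L) hk t ht z) (by linarith)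
  have hpow : (k ^ (1 / 4 : ℝ)) ^ (boxNet d L).dist v z = k ^ (D / 4) := by
    rw [← Real.rpow_natCast, ← Real.rpow_mul hk.le]
    congr 1
    ring
  have hpow2 : k ^ (boxNet d L).dist v z = k ^ D := by
    rw [← Real.rpow_natCast]
  have h1 : k ^ (M + s0 * Y) ≤ k ^ (D / 4) * fpot k (u z) := by
    refine hz.trans ?_
    unfold Tz
    rw [hpow]
    have a1 : 0 ≤ k ^ (D / 4) * fpot k (u z) := mul_nonneg (Real.rpow_nonneg hk.le _) hf0
    calc k ^ (D / 4) * fpot k (u z) * SSt (boxNet d L) k t z ^ (-q)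
        ≤ k ^ (D / 4) * fpot k (u z) * 1 := mul_le_mul_of_nonneg_left hS a1
      _ = _ := mul_one _
  have hfu : fpot k (u z) ≤ u z := fpot_le hk hk1 (hu z)
  have htri : (((boxNet d L).dist z y : ℕ) : ℝ) ≤ Y + D := by
    have a1 := (boxNet d L).dist_tri z v y
    have a2 : (((boxNet d L).dist z y : ℕ) : ℝ) ≤ (((boxNet d L).dist z v : ℕ) : ℝ) + Y := by
      rw [hY]
      exact_mod_cast a1
    rw [(boxNet d L).dist_comm z v] at a2
    linarith
  have hcap : u z ≤ k ^ (-(ε0 * (1 + Y + D))) := by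
    refine (hut z).trans ((hc z).trans ?_)
    refine Real.rpow_le_rpow_of_exponent_ge hk hk1.le ?_
    have := mul_le_mul_of_nonneg_left htri hε.le
    nlinarith
  have h2 : k ^ (M + s0 * Y) ≤ k ^ (D / 4 + -(ε0 * (1 + Y + D))) := by
    rw [Real.rpow_add hk (D / 4)]
    refine h1.trans (mul_le_mul_of_nonneg_left (hfu.trans hcap) (Real.rpow_nonneg hk.le _))
  have h3 : D / 4 + -(ε0 * (1 + Y + D)) ≤ M + s0 * Y := by
    exact (Real.rpow_le_rpow_left_iff_of_base_lt_one hk hk1).1 h2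
  have h4 : D ≤ 8 * (M + s0 * Y + ε0 * (1 + Y)) := by nlinarith
  rw [hpow2]
  calc k ^ (7 * M + 1 + (7 * s0 + 6 * ε0) * Y)
      ≤ k ^ (M + s0 * Y + 3 / 4 * D) := by
        refine Real.rpow_le_rpow_of_exponent_ge hk hk1.le ?_
        nlinarith
    _ = k ^ (M + s0 * Y) * k ^ (3 / 4 * D) := Real.rpow_add hk _ _
    _ ≤ k ^ (D / 4) * fpot k (u z) * k ^ (3 / 4 * D) :=
        mul_le_mul_of_nonneg_right h1 (Real.rpow_nonneg hk.le _)
    _ = fpot k (u z) * k ^ D := by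
        rw [show D = D / 4 + 3 / 4 * D by ring, Real.rpow_add hk]
        ring_nf
    _ ≤ u z * k ^ D := mul_le_mul_of_nonneg_right hfu (Real.rpow_nonneg hk.le _)

end DynC
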