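import Pool.Agent.Lib_MP_36b788c.OL2
import Pool.Agent.Lib_MP_36b788c.CUp
import Pool.Agent.Lib_MP_36b788c.Q2
import Pool.Agent.Lib_MP_36b788c.Osc
import Pool.Agent.Lib_MP_36b788c.BNoise2

/-!
# One window, `N = 2`: lower bound of a height by the sup convolution

`wl2`: `z` maximizes `‖G v‖ k^{dist x v}`, `m = dist x z ≤ m0`, `‖G z‖ ≤ k^{-ε0}`, `‖G v‖ ≤ k^{-H v}` with a profile `H` (`H y ≤ H v + 3/4` for neighbours, `H ≤ 1/16` within distance one of `x`); window `1 ≤ n h ≤ ell³`. With probability `≥ 1 - k^c`: `Reg2` fails or `‖G_n x‖ ≥ min (k^{3κ}) (k^{ε+m} exp(Σ b_j x) ‖G z‖)`.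

PROOF. `u0 = ‖G z‖ > 0`. `e = min(e1, ε/8, …)` from `ol2`, `e' = (e/16) min(1,1/β)/2`, `ε0`, `c`, from `catch_up` (with `e'`), also `ε0 ≤ e/(8β)`. `N` = the number of steps of `catch_up` for `m` (`N h ≤ k^c`).
At time `N`, outside probability `k^c`: `‖G_N x‖ ≥ k^{m+e'} u0`, `‖G_N v‖ ≤ k^{m-(1+e') dist x v - e'} u0 ≤ k^{-2e'-(1+e') dist x v} ‖G_N x‖`, so the hypotheses of `ol2` hold at time `N` (`2e' ≤ e/4`, `e' ≤ e/16`, `‖G_N x‖ ≤ k^{-e'-ε0} ≤ k^{-e/(4β)}`). `MN2.mu`, `st2_eq` identify the chains.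
`ol2` on the remaining `n - N` steps (`lintegral_glue`, `traj_glue_add`; `reg2_sub`; `n - N ≥ ⌈k^e/h⌉` since `1 ≤ n h`): outside probability `k^{e/100}`, if `Reg2` holds, either `‖G_n x‖ ≥ k^{2e} exp(Σ_{N ≤ j < n} b_j x) k^{m+e'} u0`, or some `j0 ∈ [N, n]` has `‖G_{j0} x‖ ≥ k^κ`.
First case: `|Σ_{j<N} b_j x| ≤ (ε/4) ell` outside probability `2 exp(-(ε ell/4)²/(2k^c))` (Gaussian sum; `adapted_tail` or `osc_exp`), `2e + e' + ε/4 ≤ ε`.
Second case: `q2_low` for `u_j = ‖G_j‖`: `QStep` by `PS2.q1` on the event that all noise is good (`P ≥ 1 - |box| n h³`, `h0` depends on `L`), block sums by `Reg2`; sizes: `reg2_growth` with `D = u`, `A = 1`, the given `H`, `ρ = 3/4` (`DStep` from `u1`): `‖G_j v‖ ≤ 2k^{-κ(1+dist x v) - H v} ≤ 2k^{-1/32-1/16} ≤ k^{-1/8}` for `dist x v ≤ 1`.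
-/

open MeasureTheory ProbabilityTheory
open scoped ENNReal

namespace DynC

open Dyn

private theorem WL2_rp {k : ℝ} (hk : 0 < k) (a : ℝ) : k ^ a = Real.exp (-(a * ell k)) := by
  unfold ell
  rw [Real.rpow_def_of_pos hk, one_div, Real.log_inv]
  congr 1
  ring

private theorem WL2_ell_pos {k : ℝ} (hk : 0 < k) (hk1 : k < 1) : 0 < ell k := by
  unfold ell
  exact Real.log_pos (by rw [one_div]; exact (one_lt_inv₀ hk).mpr hk1)

private theorem WL2_small (a b c e ε : ℝ) (hc : 0 < c) (ha : 2 * c ≤ a) (hb : 2 * c ≤ b)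
    (he : 0 < e) (hε : 0 < ε) : ∃ k0 : ℝ, 0 < k0 ∧ k0 < 1 ∧ ∀ k, 0 < k → k < k0 →
      k ^ a ≤ k ^ c / 4 ∧ k ^ b ≤ k ^ c / 4 ∧
      4 * Real.exp (-((ε / 4) ^ 2 * ell k ^ 2 / (32 * k ^ a))) ≤ k ^ c / 4 ∧
      2 ≤ Real.exp (ell k / 32) ∧ k ^ e + k ^ a ≤ 1 / 2 := by
  have ha0 : 0 < a := by linarith
  have hb0 : 0 < b := by linarith
  set l0 : ℝ := 32 + 2 / c + 512 * (c + 1) / ε ^ 2 + 2 / e with hl0
  have p1 : 0 < 2 / c := by positivity
  have p2 : 0 < 512 * (c + 1) / ε ^ 2 := by positivity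
  have p3 : 0 < 2 / e := by positivity
  refine ⟨Real.exp (-l0), Real.exp_pos _, ?_, ?_⟩
  · rw [Real.exp_lt_one_iff]
    linarith
  intro k hk hkk
  have hl : l0 < ell k := by
    unfold ell
    rw [one_div, Real.log_inv]
    have h1 := Real.log_lt_log hk hkk
    rw [Real.log_exp] at h1
    linarith
  have hl16 : 32 ≤ ell k := by linarith
  have hlc : 2 ≤ c * ell k := by
    have h1 : 2 / c ≤ ell k := by linarith
    rw [div_le_iff₀ hc] at h1
    linarith
  have hle : 2 ≤ e * ell k := by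
    have h1 : 2 / e ≤ ell k := by linarith
    rw [div_le_iff₀ he] at h1
    linarith
  have hlε : 512 * (c + 1) ≤ ε ^ 2 * ell k := by
    have h1 : 512 * (c + 1) / ε ^ 2 ≤ ell k := by linarith
    rw [div_le_iff₀ (by positivity)] at h1
    linarith
  have h4 : (4 : ℝ) ≤ Real.exp 2 := by
    have h1 : (2 : ℝ) ≤ Real.exp 1 := by
      have := Real.add_one_le_exp (1 : ℝ)
      linarith
    have h2 : Real.exp 2 = Real.exp 1 * Real.exp 1 := by
      rw [← Real.exp_add]
      norm_num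
    rw [h2]
    nlinarith
  have hq : Real.exp (-2) ≤ 1 / 4 := by
    rw [Real.exp_neg, inv_eq_one_div]
    exact one_div_le_one_div_of_le (by norm_num) h4
  have hka1 : k ^ a ≤ 1 / 4 := by
    rw [WL2_rp hk]
    refine le_trans (Real.exp_le_exp.mpr ?_) hq
    nlinarith
  have hdiv : ∀ t, 2 * c ≤ t → k ^ t ≤ k ^ c / 4 := by
    intro t ht
    rw [WL2_rp hk, WL2_rp hk]
    have h1 : Real.exp (-(t * ell k)) ≤ Real.exp (-(c * ell k)) * Real.exp (-2) := by
      rw [← Real.exp_add]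
      refine Real.exp_le_exp.mpr ?_
      nlinarith
    have h2 : Real.exp (-(c * ell k)) * Real.exp (-2) ≤ Real.exp (-(c * ell k)) * (1 / 4) :=
      mul_le_mul_of_nonneg_left hq (Real.exp_pos _).le
    linarith
  refine ⟨hdiv a ha, hdiv b hb, ?_, ?_, ?_⟩
  · have hkap : 0 < k ^ a := Real.rpow_pos_of_pos hk _
    have h1 : (c + 1) * ell k ≤ (ε / 4) ^ 2 * ell k ^ 2 / (32 * k ^ a) := by
      rw [le_div_iff₀ (by positivity)]
      have h2 : (c + 1) * ell k * (32 * k ^ a) ≤ (c + 1) * ell k * 32 := by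
        have h3 : 0 ≤ (c + 1) * ell k := by positivity
        nlinarith
      nlinarith
    rw [WL2_rp hk c]
    have h5 : Real.exp (-((ε / 4) ^ 2 * ell k ^ 2 / (32 * k ^ a))) ≤
        Real.exp (-(c * ell k)) * Real.exp (-4) := by
      rw [← Real.exp_add]
      refine Real.exp_le_exp.mpr ?_
      nlinarith
    have h6 : Real.exp (-4) ≤ 1 / 16 := by
      have h7 : Real.exp (-4) = Real.exp (-2) * Real.exp (-2) := by
        rw [← Real.exp_add]
        norm_num
      rw [h7]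
      nlinarith [Real.exp_pos (-2)]
    have h8 : Real.exp (-(c * ell k)) * Real.exp (-4) ≤ Real.exp (-(c * ell k)) * (1 / 16) :=
      mul_le_mul_of_nonneg_left h6 (Real.exp_pos _).le
    linarith
  · have h1 : (1 : ℝ) ≤ ell k / 32 := by linarith
    have h2 := Real.add_one_le_exp (ell k / 32)
    linarith
  · have h1 : k ^ e ≤ 1 / 4 := by
      rw [WL2_rp hk]
      exact le_trans (Real.exp_le_exp.mpr (by linarith)) hq
    linarith

private theorem WL2_osc (d L : ℕ) (k h : ℝ) (hk : 0 < k) (hk1 : k < 1) (hh : 0 < h) (N : ℕ)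
    (x : boxS d L) (r : ℝ) (hr : 0 < r) (T : ℝ) (hT : 0 < T) (hN : N * h ≤ T) :
    PI (Measure.pi fun _ : boxS d L => gC)
      {ω | r < |∑ j ∈ Finset.range N, gz k h ω j x|} ≤
      ENNReal.ofReal (4 * Real.exp (-(r ^ 2 * ell k ^ 2 / (32 * T)))) := by
  have hl := WL2_ell_pos hk hk1
  rcases Nat.eq_zero_or_pos N with h0 | h0
  · subst h0
    have h1 : {ω : ℕ → boxS d L → ℂ | r < |∑ j ∈ Finset.range 0, gz k h ω j x|} = ∅ := by
      ext ω
      simp [hr.le]
    rw [h1, measure_empty]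
    exact zero_le
  · have hE : MeasurableSet {g : ℕ → boxS d L → ℝ | r < |∑ j ∈ Finset.range N, g j x|} := by
      refine measurableSet_lt measurable_const (continuous_abs.measurable.comp ?_)
      exact Finset.measurable_sum _ fun j _ => (measurable_pi_apply x).comp (measurable_pi_apply j)
    have h1 := re_law d L k h hk hk1 hh _ hE
    have h2 : PI (Measure.pi fun _ : boxS d L => gC)
        {ω | r < |∑ j ∈ Finset.range N, gz k h ω j x|} =
        PI (nz (boxS d L)) {ω | r < |∑ j ∈ Finset.range N, sc (h / ell k ^ 2) ω j x|} := h1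
    rw [h2]
    have hsub : {ω : ℕ → boxS d L → ℝ | r < |∑ j ∈ Finset.range N, sc (h / ell k ^ 2) ω j x|} ⊆
        {ω | r ≤ osc (fun j => sc (h / ell k ^ 2) ω j x) N} := by
      intro ω hω
      have h3 := sum_le_osc (fun j => sc (h / ell k ^ 2) ω j x) (Nat.zero_le N) le_rfl
      rw [← Finset.range_eq_Ico] at h3
      exact (le_of_lt hω).trans h3
    refine (measure_mono hsub).trans ?_
    have hN' : (0 : ℝ) < N := by exact_mod_cast h0
    refine (osc_tail_nz (S := boxS d L) (h / ell k ^ 2) (by positivity) N h0 x r hr.le).trans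
      (ENNReal.ofReal_le_ofReal ?_)
    refine mul_le_mul_of_nonneg_left (Real.exp_le_exp.mpr ?_) (by norm_num)
    have h4 : -(r ^ 2) / (32 * (h / ell k ^ 2 * N)) = -(r ^ 2 * ell k ^ 2 / (32 * (N * h))) := by
      field_simp
    rw [h4]
    refine neg_le_neg ?_
    exact div_le_div_of_nonneg_left (by positivity) (by positivity) (by linarith)

private theorem WL2_bad (d L : ℕ) (h : ℝ) (n : ℕ) (hh : 0 < h)
    (ht : gC (gdC h)ᶜ ≤ ENNReal.ofReal (h ^ 3)) :
    PI (Measure.pi fun _ : boxS d L => gC) {ω | ¬ ∀ j, j < n → ∀ y, ω j y ∈ gdC h} ≤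
      ENNReal.ofReal (n * Fintype.card (boxS d L) * h ^ 3) := by
  have hm : MeasurableSet (gdC h)ᶜ := by
    refine MeasurableSet.compl ?_
    exact measurableSet_le (measurable_norm.const_mul _) measurable_const
  have hone : ∀ (j : ℕ) (y : boxS d L), PI (Measure.pi fun _ : boxS d L => gC)
      {ω | ω j y ∈ (gdC h)ᶜ} ≤ ENNReal.ofReal (h ^ 3) := by
    intro j y
    have h1 : PI (Measure.pi fun _ : boxS d L => gC) {ω | ω j y ∈ (gdC h)ᶜ} =
        (PI (Measure.pi fun _ : boxS d L => gC)).map (fun ω => ω j)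
          {η : boxS d L → ℂ | η y ∈ (gdC h)ᶜ} := by
      rw [Measure.map_apply (measurable_pi_apply j) (measurable_pi_apply y hm)]
      rfl
    rw [h1, map_coord]
    have h2 := (measurePreserving_eval (fun _ : boxS d L => gC) y).measure_preimage
      hm.nullMeasurableSet
    have h3 : {η : boxS d L → ℂ | η y ∈ (gdC h)ᶜ} = Function.eval y ⁻¹' (gdC h)ᶜ := rfl
    rw [h3, h2]
    exact ht
  have hsub : {ω : ℕ → boxS d L → ℂ | ¬ ∀ j, j < n → ∀ y, ω j y ∈ gdC h} ⊆
      ⋃ j ∈ Finset.range n, ⋃ y ∈ (Finset.univ : Finset (boxS d L)), {ω | ω j y ∈ (gdC h)ᶜ} := by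
    intro ω hω
    simp only [Set.mem_setOf_eq, not_forall] at hω
    obtain ⟨j, hj, y, hy⟩ := hω
    simp only [Set.mem_iUnion]
    exact ⟨j, Finset.mem_range.mpr hj, y, Finset.mem_univ y, hy⟩
  refine (measure_mono hsub).trans ?_
  refine (measure_biUnion_finset_le _ _).trans ?_
  calc ∑ j ∈ Finset.range n, PI (Measure.pi fun _ : boxS d L => gC)
        (⋃ y ∈ (Finset.univ : Finset (boxS d L)), {ω | ω j y ∈ (gdC h)ᶜ})
      ≤ ∑ j ∈ Finset.range n, ∑ y : boxS d L, ENNReal.ofReal (h ^ 3) := by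
        refine Finset.sum_le_sum fun j _ => ?_
        refine (measure_biUnion_finset_le _ _).trans ?_
        exact Finset.sum_le_sum fun y _ => hone j y
    _ = ENNReal.ofReal (n * Fintype.card (boxS d L) * h ^ 3) := by
        rw [Finset.sum_const, Finset.sum_const, Finset.card_range, Finset.card_univ]
        rw [nsmul_eq_mul, nsmul_eq_mul, mul_assoc, ENNReal.ofReal_mul (by positivity),
          ENNReal.ofReal_mul (by positivity), ENNReal.ofReal_natCast, ENNReal.ofReal_natCast]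

private theorem WL2_markov {X St : Type} [MeasurableSpace X] [MeasurableSpace St] (μ : Measure X)
    [IsProbabilityMeasure μ] (f : St → X → St) (hf : Measurable fun p : St × X => f p.1 p.2)
    (s : St) (N : ℕ) (S : Set (St × (ℕ → X))) (hS : MeasurableSet S) (p : ℝ≥0∞)
    (h : ∀ s', PI μ {b | (s', b) ∈ S} ≤ p) :
    PI μ {ω | (traj f s ω N, fun j => ω (N + j)) ∈ S} ≤ p := by
  have hm : Measurable fun ω : ℕ → X => (traj f s ω N, fun j => ω (N + j)) := by
    refine Measurable.prodMk ?_ ?_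
    · exact (measurable_traj f hf N).comp (measurable_const.prodMk measurable_id)
    · exact measurable_pi_iff.mpr fun j => measurable_pi_apply (N + j)
  have hA : MeasurableSet {ω : ℕ → X | (traj f s ω N, fun j => ω (N + j)) ∈ S} := hm hS
  have h1 : PI μ {ω : ℕ → X | (traj f s ω N, fun j => ω (N + j)) ∈ S} =
      ∫⁻ a, ∫⁻ b, ({ω : ℕ → X | (traj f s ω N, fun j => ω (N + j)) ∈ S}).indicator 1
        (glue N a b) ∂(PI μ) ∂(PI μ) := by
    rw [← lintegral_glue N _ (measurable_one.indicator hA)]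
    rw [lintegral_indicator_one hA]
  rw [h1]
  calc _ ≤ ∫⁻ _a, p ∂(PI μ) := by
        refine lintegral_mono fun a => ?_
        have h2 : ∀ b, ({ω : ℕ → X | (traj f s ω N, fun j => ω (N + j)) ∈ S}).indicator
            (1 : (ℕ → X) → ℝ≥0∞) (glue N a b) =
            ({b | (traj f s a N, b) ∈ S}).indicator 1 b := by
          intro b
          have e1 : traj f s (glue N a b) N = traj f s a N := traj_glue_le f s N a b N le_rfl
          have e2 : (fun j => glue N a b (N + j)) = b := by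
            funext j
            unfold glue
            rw [if_neg (by omega)]
            congr 1
            omega
          have e3 : (glue N a b ∈ {ω : ℕ → X | (traj f s ω N, fun j => ω (N + j)) ∈ S}) ↔
              (b ∈ {b | (traj f s a N, b) ∈ S}) := by
            simp only [Set.mem_setOf_eq, e1, e2]
          by_cases hb : b ∈ {b | (traj f s a N, b) ∈ S}
          · rw [Set.indicator_of_mem hb, Set.indicator_of_mem (e3.mpr hb)]
            rfl
          · rw [Set.indicator_of_notMem hb, Set.indicator_of_notMem (fun h => hb (e3.mp h))]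
        have hB : MeasurableSet {b : ℕ → X | (traj f s a N, b) ∈ S} :=
          measurable_prodMk_left hS
        calc ∫⁻ b, ({ω : ℕ → X | (traj f s ω N, fun j => ω (N + j)) ∈ S}).indicator
              (1 : (ℕ → X) → ℝ≥0∞) (glue N a b) ∂(PI μ)
            = ∫⁻ b, ({b | (traj f s a N, b) ∈ S}).indicator 1 b ∂(PI μ) :=
              lintegral_congr h2
          _ = PI μ {b | (traj f s a N, b) ∈ S} := lintegral_indicator_one hB
          _ ≤ p := h _
    _ = p := by
        rw [lintegral_const]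
        simp

private theorem WL2_traj_add {X St : Type} (f : St → X → St) (s : St) (ω : ℕ → X) (N m : ℕ) :
    traj f s ω (N + m) = traj f (traj f s ω N) (fun j => ω (N + j)) m := by
  induction m with
  | zero => rfl
  | succ m ih =>
    show f (traj f s ω (N + m)) (ω (N + m)) =
      f (traj f (traj f s ω N) (fun j => ω (N + j)) m) (ω (N + m))
    rw [ih]

private theorem WL2_det (d : ℕ) {β k h κ : ℝ} (hβ : 0 < β) (hκ : 0 < κ) (hκ1 : κ ≤ 1 / 64)
    (hk : 0 < k) (hk1 : k < 1) (hh : 0 < h) (hh1 : h < 1) (L : ℕ) (G : boxS d L → ℂ) (x : boxS d L) (ω : ℕ → boxS d L → ℂ) (n : ℕ)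
    (hn : n * h ≤ ell k ^ 3) (hK : 2 ≤ Real.exp (ell k / 32))
    (hq2 : ∀ (ι : Type) [Fintype ι] (net : Net ι d) (b u : ℕ → ι → ℝ) (x : ι) (n : ℕ),
      n * h ≤ ell k ^ 3 →
      (∀ j, j < n → QStep net β h k (b j) (u j) (u (j + 1))) →
      (∀ j, j < n → |b j x| ≤ 2 * h ^ (3 / 8 : ℝ)) →
      (∀ i j, i ≤ j → j ≤ n → |∑ l ∈ Finset.Ico i j, b l x| ≤ κ * ell k) →
      (∀ j, j ≤ n → u j x ≤ k ^ (-(1 / 8 : ℝ)) ∧ ∀ y ∈ net.nb x, u j y ≤ k ^ (-(1 / 8 : ℝ))) →
      ∀ j0, j0 ≤ n → k ^ κ ≤ u j0 x → k ^ (3 * κ) ≤ u n x)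
    (hrg : ∀ (L : ℕ) (h κ ρ A : ℝ), 0 < h → 0 ≤ ρ → ρ ≤ 3 / 4 → 0 ≤ A →
      ∀ (b D : ℕ → boxS d L → ℝ) (n : ℕ), n * h ≤ ell k ^ 3 →
      (∀ j, DStep (boxNet d L) h k (b j) (D j) (D (j + 1))) →
      ∀ (x : boxS d L), Reg2 κ (fun j y => b j y / ell k) n x →
      ∀ H : boxS d L → ℝ, (∀ v, ∀ y ∈ (boxNet d L).nb v, H y ≤ H v + ρ) →
      (∀ v, D 0 v ≤ A * Real.exp (ell k * H v)) →
      ∀ j, j ≤ n → ∀ v, D j v ≤
        2 * A * Real.exp (ell k * (κ * (1 + (boxNet d L).dist x v) + H v)))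
    (H : boxS d L → ℝ) (hH : ∀ v, ∀ y ∈ (boxNet d L).nb v, H y ≤ H v + 3 / 4)
    (hH1 : ∀ v, (boxNet d L).dist x v ≤ 1 → H v ≤ 1 / 16) (hsz : ∀ v, ‖G v‖ ≤ k ^ (-(H v)))
    (hgd : ∀ j, j < n → ∀ y, ω j y ∈ gdC h)
    (hR : Reg2 κ (gz k h ω) n x) (j0 : ℕ) (hj0 : j0 ≤ n)
    (hbig : k ^ κ ≤ ‖traj (st2 d β k h L) G ω j0 x‖) :
    k ^ (3 * κ) ≤ ‖traj (st2 d β k h L) G ω n x‖ := by
  have hl := WL2_ell_pos hk hk1
  have hgrow := hrg L h κ (3 / 4) 1 hh (by norm_num) le_rfl zero_le_one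
    (fun j y => bC h (ω j y))
    (fun j => nrm (traj (st2 d β k h L) G ω j)) n hn
    (fun j => ⟨fun y => norm_nonneg _, fun y => norm_nonneg _,
      fun y => (PS2 d β k hβ hk.le).u1 h L
        (traj (st2 d β k h L) G ω j, traj (st2 d β k h L) G ω j) (ω j) hh y⟩) x hR
    H hH
    (by
      intro v
      rw [one_mul]
      have h1 := hsz v
      rw [WL2_rp hk] at h1
      refine le_trans h1 (Real.exp_le_exp.mpr (le_of_eq ?_))
      ring)
  have hsmall : ∀ j, j ≤ n → ∀ v, (boxNet d L).dist x v ≤ 1 →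
      nrm (traj (st2 d β k h L) G ω j) v ≤ k ^ (-(1 / 8 : ℝ)) := by
    intro j hj v hv
    have h1 := hgrow j hj v
    have hv' : ((boxNet d L).dist x v : ℝ) ≤ 1 := by exact_mod_cast hv
    refine h1.trans ?_
    rw [WL2_rp hk, mul_one]
    have h2 : Real.exp (ell k * (κ * (1 + ((boxNet d L).dist x v : ℝ)) + H v)) ≤
        Real.exp (3 * ell k / 32) := by
      refine Real.exp_le_exp.mpr ?_
      have h3 : κ * (1 + ((boxNet d L).dist x v : ℝ)) + H v ≤ 3 / 32 := by
        have h3' := hH1 v hv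
        nlinarith
      have h4 := mul_le_mul_of_nonneg_left h3 hl.le
      linarith
    have h5 : Real.exp (-(-(1 / 8 : ℝ) * ell k)) =
        Real.exp (ell k / 32) * Real.exp (3 * ell k / 32) := by
      rw [← Real.exp_add]
      congr 1
      ring
    rw [h5]
    exact mul_le_mul hK h2 (Real.exp_pos _).le (Real.exp_pos _).le
  refine hq2 (boxS d L) (boxNet d L) (fun j y => bC h (ω j y))
    (fun j => nrm (traj (st2 d β k h L) G ω j)) x n hn ?_ ?_ ?_ ?_ j0 hj0 hbig
  · intro j hj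
    exact (PS2 d β k hβ hk.le).q1 h L
      (traj (st2 d β k h L) G ω j, traj (st2 d β k h L) G ω j) (ω j) hh (hgd j hj)
  · intro j hj
    exact bnoise2.bdd h hh hh1 (ω j x) (hgd j hj x)
  · intro i j hij hj
    have h1 := hR.2 i j hij hj
    have h2 : ∑ l ∈ Finset.Ico i j, bC h (ω l x) =
        ell k * ∑ l ∈ Finset.Ico i j, gz k h ω l x := by
      rw [Finset.mul_sum]
      refine Finset.sum_congr rfl fun l _ => ?_
      unfold gz bC
      field_simp
    show |∑ l ∈ Finset.Ico i j, bC h (ω l x)| ≤ κ * ell k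
    rw [h2, abs_mul, abs_of_pos hl, mul_comm]
    exact mul_le_mul_of_nonneg_right h1 hl.le
  · intro j hj
    refine ⟨hsmall j hj x ?_, ?_⟩
    · rw [(boxNet d L).dist_self]
      norm_num
    · intro y hy
      exact hsmall j hj y ((boxNet d L).dist_nb x y hy).le

theorem wl2 (d : ℕ) (β : ℝ) (hβ : 0 < β) (m0 : ℕ) (κ : ℝ) (hκ : 0 < κ) (hκ1 : κ ≤ 1 / 64)
    (ε : ℝ) (hε : 0 < ε) : ∃ ε0 c k0 : ℝ, 0 < ε0 ∧ 0 < c ∧ 0 < k0 ∧ k0 < 1 ∧
    ∀ k, 0 < k → k < k0 → ∀ L : ℕ, ∃ h0 : ℝ, 0 < h0 ∧ ∀ h, 0 < h → h < h0 →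
    ∀ (G : boxS d L → ℂ) (z x : boxS d L), (boxNet d L).dist x z ≤ m0 →
    (∀ v, ‖G v‖ * k ^ (boxNet d L).dist x v ≤ ‖G z‖ * k ^ (boxNet d L).dist x z) →
    ‖G z‖ ≤ k ^ (-ε0) →
    ∀ H : boxS d L → ℝ, (∀ v, ∀ y ∈ (boxNet d L).nb v, H y ≤ H v + 3 / 4) →
    (∀ v, (boxNet d L).dist x v ≤ 1 → H v ≤ 1 / 16) → (∀ v, ‖G v‖ ≤ k ^ (-(H v))) →
    ∀ n : ℕ, 1 ≤ n * h → n * h ≤ ell k ^ 3 →
      PI (Measure.pi fun _ : boxS d L => gC) {ω | Reg2 κ (gz k h ω) n x ∧
          ‖traj (st2 d β k h L) G ω n x‖ < min (k ^ (3 * κ))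
            (k ^ (ε + (boxNet d L).dist x z) *
              Real.exp (ell k * ∑ j ∈ Finset.range n, gz k h ω j x) * ‖G z‖)}
        ≤ ENNReal.ofReal (k ^ c) := by
  obtain ⟨e1, he1, H1⟩ := ol2 d β hβ
  set e : ℝ := min e1 (ε / 8) with he
  have he0 : 0 < e := lt_min he1 (by linarith)
  have hee1 : e ≤ e1 := min_le_left _ _
  have heε : e ≤ ε / 8 := min_le_right _ _
  obtain ⟨ka, hka, hka1, H2⟩ := H1 e he0 hee1 κ hκ (by linarith)
  set e' : ℝ := e / 32 * min 1 (1 / β) with he'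
  have hmin : 0 < min 1 (1 / β) := lt_min one_pos (by positivity)
  have he'0 : 0 < e' := by positivity
  have he'e : e' ≤ e / 32 := by
    have h1 : min 1 (1 / β) ≤ 1 := min_le_left _ _
    have h2 : 0 ≤ e / 32 := by positivity
    nlinarith
  have he'β : e' ≤ e / (32 * β) := by
    have h1 : min 1 (1 / β) ≤ 1 / β := min_le_right _ _
    have h2 : e / 32 * min 1 (1 / β) ≤ e / 32 * (1 / β) :=
      mul_le_mul_of_nonneg_left h1 (by positivity)
    have h3 : e / 32 * (1 / β) = e / (32 * β) := by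
      field_simp
    rw [← h3]
    exact h2
  obtain ⟨εc, cc, kb, hεc, hcc, hkb, hkb1, H3⟩ := catch_up MN2 d β hβ m0 e' he'0
  obtain ⟨kc, hkc, hkc1, H4⟩ := q2_low d β κ hβ hκ (by linarith)
  obtain ⟨kd, hkd, hkd1, H5⟩ := reg2_growth d
  obtain ⟨hT, hT0, H6⟩ := bnoise2.tail
  set ε0 : ℝ := min εc (e / (8 * β)) with hε0d
  have hε0 : 0 < ε0 := by positivity
  have hεc' : ε0 ≤ εc := min_le_left _ _
  have hεβ : ε0 ≤ e / (8 * β) := min_le_right _ _
  set c : ℝ := min cc (e / 100) / 2 with hc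
  have hc0 : 0 < c := by positivity
  have hc1 : 2 * c ≤ cc := by
    have h1 : min cc (e / 100) ≤ cc := min_le_left _ _
    linarith
  have hc2 : 2 * c ≤ e / 100 := by
    have h1 : min cc (e / 100) ≤ e / 100 := min_le_right _ _
    linarith
  obtain ⟨kf, hkf, hkf1, H7⟩ := WL2_small cc (e / 100) c e ε hc0 hc1 hc2 he0 hε
  refine ⟨ε0, c, min ka (min kb (min kc (min kd kf))), hε0, hc0, by positivity,
    (min_le_left _ _).trans_lt hka1, ?_⟩
  intro k hk hkk L
  have hkka : k < ka := hkk.trans_le (min_le_left _ _)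
  have hkkb : k < kb := hkk.trans_le ((min_le_right _ _).trans (min_le_left _ _))
  have hkkc : k < kc :=
    hkk.trans_le ((min_le_right _ _).trans ((min_le_right _ _).trans (min_le_left _ _)))
  have hkkd : k < kd := hkk.trans_le ((min_le_right _ _).trans ((min_le_right _ _).trans
    ((min_le_right _ _).trans (min_le_left _ _))))
  have hkkf : k < kf := hkk.trans_le ((min_le_right _ _).trans ((min_le_right _ _).trans
    ((min_le_right _ _).trans (min_le_right _ _))))
  have hk1 : k < 1 := hkka.trans hka1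
  have hl := WL2_ell_pos hk hk1
  obtain ⟨ha, hha, H2'⟩ := H2 k hk hkka
  obtain ⟨hb, hhb, H3'⟩ := H3 k hk hkkb
  obtain ⟨hq, hhq, H4'⟩ := H4 k hk hkkc
  have H5' := H5 k hk hkkd
  obtain ⟨S1, S2, S3, S4, S5⟩ := H7 k hk hkkf
  have hkc0 : 0 < k ^ c := Real.rpow_pos_of_pos hk _
  have hcard : (0 : ℝ) ≤ (Fintype.card (boxS d L) : ℝ) * ell k ^ 3 := by positivity
  refine ⟨min ha (min hb (min hq (min hT (min (1 / 4)
    (k ^ c / (4 * ((Fintype.card (boxS d L) : ℝ) * ell k ^ 3 + 1))))))), by positivity, ?_⟩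
  intro h hh hhh G z x hxz hmax hGz H hH hH1 hsize n hn1 hn2
  have hh_a : h < ha := hhh.trans_le (min_le_left _ _)
  have hh_b : h < hb := hhh.trans_le ((min_le_right _ _).trans (min_le_left _ _))
  have hh_q : h < hq :=
    hhh.trans_le ((min_le_right _ _).trans ((min_le_right _ _).trans (min_le_left _ _)))
  have hh_T : h < hT := hhh.trans_le ((min_le_right _ _).trans ((min_le_right _ _).trans
    ((min_le_right _ _).trans (min_le_left _ _))))
  have hh_4 : h < 1 / 4 := hhh.trans_le ((min_le_right _ _).trans ((min_le_right _ _).trans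
    ((min_le_right _ _).trans ((min_le_right _ _).trans (min_le_left _ _)))))
  have hh_c : h < k ^ c / (4 * ((Fintype.card (boxS d L) : ℝ) * ell k ^ 3 + 1)) :=
    hhh.trans_le ((min_le_right _ _).trans ((min_le_right _ _).trans
    ((min_le_right _ _).trans ((min_le_right _ _).trans (min_le_right _ _)))))
  have hh1 : h < 1 := by linarith
  have hH2 := H2' h hh hh_a L
  have hH4 := H4' h hh hh_q
  obtain ⟨N, hN, hH3⟩ := H3' h hh hh_b ((boxNet d L).dist x z) hxz
  -- trivial case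
  rcases eq_or_lt_of_le (norm_nonneg (G z)) with hz0 | hz0
  · have h1 : {ω | Reg2 κ (gz k h ω) n x ∧
          ‖traj (st2 d β k h L) G ω n x‖ < min (k ^ (3 * κ))
            (k ^ (ε + (boxNet d L).dist x z) *
              Real.exp (ell k * ∑ j ∈ Finset.range n, gz k h ω j x) * ‖G z‖)} = ∅ := by
      ext ω
      simp only [Set.mem_setOf_eq, Set.mem_empty_iff_false, iff_false, not_and, not_lt]
      intro _
      rw [← hz0, mul_zero]
      exact (min_le_right _ _).trans (norm_nonneg _)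
    rw [h1, measure_empty]
    exact zero_le
  -- number of steps
  have hNh : (N : ℝ) * h ≤ 1 / 4 + 1 / 4 := by
    have h1 : 0 < k ^ e := Real.rpow_pos_of_pos hk _
    linarith
  have hNn : N ≤ n := by
    have h1 : (N : ℝ) * h ≤ n * h := by linarith
    exact_mod_cast le_of_mul_le_mul_right h1 hh
  obtain ⟨n', rfl⟩ : ∃ n', n = N + n' := ⟨n - N, by omega⟩
  have hn1' : k ^ e + h ≤ n' * h := by
    push_cast at hn1
    have h2 : (N : ℝ) * h ≤ k ^ cc := hN
    nlinarith
  have hn2' : (n' : ℝ) * h ≤ ell k ^ 3 := by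
    push_cast at hn2
    have h1 : 0 ≤ (N : ℝ) * h := by positivity
    nlinarith
  have hceil : ⌈k ^ e / h⌉₊ ≤ n' := by
    refine Nat.ceil_le.mpr ?_
    rw [div_le_iff₀ hh]
    linarith
  have hmm : ((boxNet d L).dist x z : ℝ) ≤ m0 := by exact_mod_cast hxz
  have hm00 : (0 : ℝ) ≤ ((boxNet d L).dist x z : ℝ) := Nat.cast_nonneg _
  -- the first bad event
  have B1 : PI (Measure.pi fun _ : boxS d L => gC)
      {ω | ‖traj (st2 d β k h L) G ω N x‖ < k ^ (((boxNet d L).dist x z : ℝ) + e') * ‖G z‖ ∨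
        ∃ v, k ^ (((boxNet d L).dist x z : ℝ) - (1 + e') * (boxNet d L).dist x v - e') * ‖G z‖ <
          ‖traj (st2 d β k h L) G ω N v‖} ≤ ENNReal.ofReal (k ^ cc) := by
    have h1 := hH3 L G z x rfl hmax (hGz.trans (Real.rpow_le_rpow_of_exponent_ge hk hk1.le
      (by linarith)))
    rw [st2_eq]
    exact h1
  -- the second bad event
  have B2 := WL2_osc d L k h hk hk1 hh N x (ε / 4) (by positivity) (k ^ cc)
    (Real.rpow_pos_of_pos hk _) hN
  -- the third bad event
  have B3 := WL2_bad d L h (N + n') hh (H6 h hh hh_T)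
  have B3' : ((N + n' : ℕ) : ℝ) * Fintype.card (boxS d L) * h ^ 3 ≤ k ^ c / 4 := by
    have h1 : ((N + n' : ℕ) : ℝ) * h ≤ ell k ^ 3 := hn2
    have h2 : ((N + n' : ℕ) : ℝ) * Fintype.card (boxS d L) * h ^ 3 =
        (Fintype.card (boxS d L) : ℝ) * (((N + n' : ℕ) : ℝ) * h) * h ^ 2 := by ring
    have h3 : (Fintype.card (boxS d L) : ℝ) * (((N + n' : ℕ) : ℝ) * h) ≤
        (Fintype.card (boxS d L) : ℝ) * ell k ^ 3 :=
      mul_le_mul_of_nonneg_left h1 (Nat.cast_nonneg _)
    have h4 : h ^ 2 ≤ h := by nlinarith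
    have h5 : ((Fintype.card (boxS d L) : ℝ) * ell k ^ 3 + 1) * h ≤ k ^ c / 4 := by
      rw [lt_div_iff₀ (by positivity)] at hh_c
      linarith
    rw [h2]
    calc (Fintype.card (boxS d L) : ℝ) * (((N + n' : ℕ) : ℝ) * h) * h ^ 2
        ≤ ((Fintype.card (boxS d L) : ℝ) * ell k ^ 3) * h ^ 2 :=
          mul_le_mul_of_nonneg_right h3 (by positivity)
      _ ≤ ((Fintype.card (boxS d L) : ℝ) * ell k ^ 3) * h :=
          mul_le_mul_of_nonneg_left h4 hcard
      _ ≤ ((Fintype.card (boxS d L) : ℝ) * ell k ^ 3 + 1) * h := by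
          nlinarith
      _ ≤ k ^ c / 4 := h5
  -- the main event
  set S : Set ((boxS d L → ℂ) × (ℕ → boxS d L → ℂ)) := {q |
    (k ^ (((boxNet d L).dist x z : ℝ) + e') * ‖G z‖ ≤ ‖q.1 x‖ ∧
      ∀ v, ‖q.1 v‖ ≤
        k ^ (((boxNet d L).dist x z : ℝ) - (1 + e') * (boxNet d L).dist x v - e') * ‖G z‖) ∧
    Reg2 κ (gz k h q.2) n' x ∧
      (∀ j, ⌈k ^ e / h⌉₊ ≤ j → j ≤ n' → ‖traj (st2 d β k h L) q.1 q.2 j x‖ < k ^ κ) ∧
      ‖traj (st2 d β k h L) q.1 q.2 n' x‖ <
        k ^ (2 * e) * Real.exp (ell k * ∑ j ∈ Finset.range n', gz k h q.2 j x) * ‖q.1 x‖} with hSd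
  have hmt : ∀ j, Measurable fun q : (boxS d L → ℂ) × (ℕ → boxS d L → ℂ) =>
      ‖traj (st2 d β k h L) q.1 q.2 j x‖ := fun j =>
    ((measurable_pi_apply x).comp
      (measurable_traj (st2 d β k h L) (measurable_st2 d β k h L) j)).norm
  have hmg : Measurable fun ω : ℕ → boxS d L → ℂ => gz k h ω := by
    refine measurable_pi_iff.mpr fun j => measurable_pi_iff.mpr fun y => ?_
    unfold gz
    exact ((Complex.measurable_re.comp ((measurable_pi_apply y).comp
      (measurable_pi_apply j))).const_mul _).div_const _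
  have hS : MeasurableSet S := by
    refine MeasurableSet.inter (MeasurableSet.inter ?_ ?_) (MeasurableSet.inter ?_
      (MeasurableSet.inter ?_ ?_))
    · exact measurableSet_le measurable_const
        ((measurable_pi_apply x).comp measurable_fst).norm
    · have h1 : {q : (boxS d L → ℂ) × (ℕ → boxS d L → ℂ) | ∀ v, ‖q.1 v‖ ≤
          k ^ (((boxNet d L).dist x z : ℝ) - (1 + e') * (boxNet d L).dist x v - e') * ‖G z‖} =
          ⋂ v, {q | ‖q.1 v‖ ≤
          k ^ (((boxNet d L).dist x z : ℝ) - (1 + e') * (boxNet d L).dist x v - e') * ‖G z‖} := by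
        ext q
        simp
      refine (congrArg MeasurableSet h1).mpr ?_
      exact MeasurableSet.iInter fun v => measurableSet_le
        ((measurable_pi_apply v).comp measurable_fst).norm measurable_const
    · exact (hmg.comp measurable_snd) (measurableSet_Reg2 κ n' x)
    · have h1 : {q : (boxS d L → ℂ) × (ℕ → boxS d L → ℂ) |
          ∀ j, ⌈k ^ e / h⌉₊ ≤ j → j ≤ n' → ‖traj (st2 d β k h L) q.1 q.2 j x‖ < k ^ κ} =
          ⋂ j, ⋂ (_ : ⌈k ^ e / h⌉₊ ≤ j), ⋂ (_ : j ≤ n'),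
            {q | ‖traj (st2 d β k h L) q.1 q.2 j x‖ < k ^ κ} := by
        ext q
        simp
      refine (congrArg MeasurableSet h1).mpr ?_
      exact MeasurableSet.iInter fun j => MeasurableSet.iInter fun _ =>
        MeasurableSet.iInter fun _ => measurableSet_lt (hmt j) measurable_const
    · refine measurableSet_lt (hmt n') (Measurable.mul (Measurable.const_mul ?_ _)
        ((measurable_pi_apply x).comp measurable_fst).norm)
      refine Real.measurable_exp.comp (Measurable.const_mul ?_ _)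
      exact Finset.measurable_sum _ fun j _ =>
        (measurable_pi_apply x).comp ((measurable_pi_apply j).comp (hmg.comp measurable_snd))
  have B4 : PI (Measure.pi fun _ : boxS d L => gC)
      {ω | (traj (st2 d β k h L) G ω N, fun j => ω (N + j)) ∈ S} ≤
      ENNReal.ofReal (k ^ (e / 100)) := by
    refine WL2_markov _ (st2 d β k h L) (measurable_st2 d β k h L) G N S hS _ (fun s' => ?_)
    by_cases hP : k ^ (((boxNet d L).dist x z : ℝ) + e') * ‖G z‖ ≤ ‖s' x‖ ∧
      ∀ v, ‖s' v‖ ≤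
        k ^ (((boxNet d L).dist x z : ℝ) - (1 + e') * (boxNet d L).dist x v - e') * ‖G z‖
    · obtain ⟨hP1, hP2⟩ := hP
      have g1 : ∀ v, ‖s' v‖ ≤
          k ^ (-(e / 4) - (1 + e / 16) * (boxNet d L).dist v x) * ‖s' x‖ := by
        intro v
        refine (hP2 v).trans ?_
        have h1 : k ^ (((boxNet d L).dist x z : ℝ) - (1 + e') * (boxNet d L).dist x v - e') =
            k ^ (-(2 * e') - (1 + e') * (boxNet d L).dist x v) *
              k ^ (((boxNet d L).dist x z : ℝ) + e') := by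
          rw [← Real.rpow_add hk]
          congr 1
          ring
        rw [h1, mul_assoc]
        refine mul_le_mul ?_ hP1 (by positivity) (Real.rpow_pos_of_pos hk _).le
        refine Real.rpow_le_rpow_of_exponent_ge hk hk1.le ?_
        rw [(boxNet d L).dist_comm v x]
        have h2 : (0 : ℝ) ≤ (boxNet d L).dist x v := Nat.cast_nonneg _
        nlinarith
      have g2 : ‖s' x‖ ≤ k ^ (-(e / (4 * β))) := by
        refine (hP2 x).trans ?_
        rw [(boxNet d L).dist_self, Nat.cast_zero, mul_zero, sub_zero]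
        calc k ^ (((boxNet d L).dist x z : ℝ) - e') * ‖G z‖
            ≤ k ^ (-e') * k ^ (-ε0) := by
              refine mul_le_mul ?_ hGz (norm_nonneg _) (Real.rpow_pos_of_pos hk _).le
              exact Real.rpow_le_rpow_of_exponent_ge hk hk1.le (by linarith)
          _ = k ^ (-e' + -ε0) := by rw [← Real.rpow_add hk]
          _ ≤ k ^ (-(e / (4 * β))) := by
              refine Real.rpow_le_rpow_of_exponent_ge hk hk1.le ?_
              have h1 : e / (32 * β) + e / (8 * β) ≤ e / (4 * β) := by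
                have h2 : e / (4 * β) - (e / (32 * β) + e / (8 * β)) = 3 * e / (32 * β) := by
                  field_simp
                  ring
                have h3 : 0 < 3 * e / (32 * β) := by positivity
                linarith
              linarith
      refine (measure_mono ?_).trans (hH2 s' x g1 g2 n' hceil hn2')
      intro b hb
      exact hb.2
    · have h1 : {b : ℕ → boxS d L → ℂ | (s', b) ∈ S} = ∅ := by
        ext b
        simp only [Set.mem_setOf_eq, Set.mem_empty_iff_false, iff_false]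
        intro hb
        exact hP hb.1
      rw [h1, measure_empty]
      exact zero_le
  -- the inclusion
  have hinc : {ω | Reg2 κ (gz k h ω) (N + n') x ∧
          ‖traj (st2 d β k h L) G ω (N + n') x‖ < min (k ^ (3 * κ))
            (k ^ (ε + (boxNet d L).dist x z) *
              Real.exp (ell k * ∑ j ∈ Finset.range (N + n'), gz k h ω j x) * ‖G z‖)} ⊆
      ((({ω | ‖traj (st2 d β k h L) G ω N x‖ < k ^ (((boxNet d L).dist x z : ℝ) + e') * ‖G z‖ ∨
        ∃ v, k ^ (((boxNet d L).dist x z : ℝ) - (1 + e') * (boxNet d L).dist x v - e') * ‖G z‖ <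
          ‖traj (st2 d β k h L) G ω N v‖} ∪
      {ω | ε / 4 < |∑ j ∈ Finset.range N, gz k h ω j x|}) ∪
      {ω | ¬ ∀ j, j < N + n' → ∀ y, ω j y ∈ gdC h}) ∪
      {ω | (traj (st2 d β k h L) G ω N, fun j => ω (N + j)) ∈ S}) := by
    intro ω hω
    obtain ⟨hR, hlt⟩ := hω
    obtain ⟨hlt1, hlt2⟩ := lt_min_iff.mp hlt
    by_contra hcon
    simp only [Set.mem_union, not_or] at hcon
    obtain ⟨⟨⟨c1, c2⟩, c3⟩, c4⟩ := hcon
    simp only [Set.mem_setOf_eq, not_or, not_lt, not_exists, not_not] at c1 c2 c3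
    obtain ⟨c1a, c1b⟩ := c1
    refine c4 ⟨⟨c1a, c1b⟩, ?_, ?_, ?_⟩
    · have h1 := reg2_sub κ (gz k h ω) (N + n') N (by omega) x hR
      rw [Nat.add_sub_cancel_left] at h1
      exact h1
    · intro j hj1 hj2
      by_contra hge
      rw [not_lt] at hge
      have h1 : k ^ κ ≤ ‖traj (st2 d β k h L) G ω (N + j) x‖ := by
        rw [WL2_traj_add]
        exact hge
      have h2 := WL2_det d hβ hκ hκ1 hk hk1 hh hh1 L G x ω (N + n') hn2 S4 hH4 H5'
        H hH hH1 hsize c3 hR (N + j) (by omega) h1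
      linarith
    · show ‖traj (st2 d β k h L) (traj (st2 d β k h L) G ω N) (fun j => ω (N + j)) n' x‖ <
        k ^ (2 * e) * Real.exp (ell k * ∑ j ∈ Finset.range n', gz k h ω (N + j) x) *
          ‖traj (st2 d β k h L) G ω N x‖
      rw [← WL2_traj_add]
      refine hlt2.trans_le ?_
      rw [Finset.sum_range_add, mul_add, Real.exp_add]
      have h1 : k ^ (ε + ((boxNet d L).dist x z : ℝ)) *
          Real.exp (ell k * ∑ j ∈ Finset.range N, gz k h ω j x) ≤
          k ^ (2 * e) * k ^ (((boxNet d L).dist x z : ℝ) + e') := by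
        rw [WL2_rp hk, WL2_rp hk, WL2_rp hk, ← Real.exp_add, ← Real.exp_add]
        refine Real.exp_le_exp.mpr ?_
        have h2 : ∑ j ∈ Finset.range N, gz k h ω j x ≤ ε - 2 * e - e' := by
          have h3 := (le_abs_self _).trans c2
          linarith
        have h4 := mul_le_mul_of_nonneg_left h2 hl.le
        linarith
      calc k ^ (ε + ((boxNet d L).dist x z : ℝ)) *
            (Real.exp (ell k * ∑ j ∈ Finset.range N, gz k h ω j x) *
              Real.exp (ell k * ∑ j ∈ Finset.range n', gz k h ω (N + j) x)) * ‖G z‖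
          = (k ^ (ε + ((boxNet d L).dist x z : ℝ)) *
            Real.exp (ell k * ∑ j ∈ Finset.range N, gz k h ω j x)) *
              Real.exp (ell k * ∑ j ∈ Finset.range n', gz k h ω (N + j) x) * ‖G z‖ := by ring
        _ ≤ (k ^ (2 * e) * k ^ (((boxNet d L).dist x z : ℝ) + e')) *
              Real.exp (ell k * ∑ j ∈ Finset.range n', gz k h ω (N + j) x) * ‖G z‖ := by
            refine mul_le_mul_of_nonneg_right (mul_le_mul_of_nonneg_right h1
              (Real.exp_pos _).le) (norm_nonneg _)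
        _ = k ^ (2 * e) * Real.exp (ell k * ∑ j ∈ Finset.range n', gz k h ω (N + j) x) *
              (k ^ (((boxNet d L).dist x z : ℝ) + e') * ‖G z‖) := by ring
        _ ≤ _ := by
            refine mul_le_mul_of_nonneg_left c1a ?_
            exact mul_nonneg (Real.rpow_pos_of_pos hk _).le (Real.exp_pos _).le
  -- the sum
  refine (measure_mono hinc).trans ?_
  refine (measure_union_le _ _).trans ?_
  refine (add_le_add ((measure_union_le _ _).trans
    (add_le_add (measure_union_le _ _) le_rfl)) le_rfl).trans ?_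
  have q1 := B1.trans (ENNReal.ofReal_le_ofReal S1)
  have q2 := B2.trans (ENNReal.ofReal_le_ofReal S3)
  have q3 := B3.trans (ENNReal.ofReal_le_ofReal B3')
  have q4 := B4.trans (ENNReal.ofReal_le_ofReal S2)
  refine (add_le_add (add_le_add (add_le_add q1 q2) q3) q4).trans (le_of_eq ?_)
  rw [← ENNReal.ofReal_add (by positivity) (by positivity),
    ← ENNReal.ofReal_add (by positivity) (by positivity),
    ← ENNReal.ofReal_add (by positivity) (by positivity)]
  congr 1
  ring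

end DynC
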