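import Pool.Agent.Lib_MP_36b788c.Mid2
import Pool.Agent.Lib_MP_36b788c.Unit
import Pool.Agent.Lib_MP_36b788g.FWpr

/-!
# Good coupling for `N = 2` in block form

`M = 7 log K/a' + 3`, `s0 = a/a'`.

PROOF of `good2`. `G = (G, G')` with `D_0` supported at `y`, `A0 = ‖G y - G' y‖`, `wpr(y) < K`: for both potentials `V_i z ≤ K e^{(a/8) dist y z}` (one term of the sum, `α^{dist} = e^{-(a/8)dist}`), so `potGe_of_V` gives `PotGe k q .. (log K/a') (a/(8a')) y` for both. Unit stage: `n0 = ⌈1/h⌉`, `1 ≤ n0 h ≤ 2`; `nB = ⌈(T+1) ell²/h⌉`, `m = nB - n0`. `E` = bad event at time `n0`, union of: `pot_prob` for both components with `ε = a/(200 a')`; `caps_prob` with `ε0' = min(ε0, a/(200 a'), 1/8)` (a bound for `‖G.1‖ + ‖G.2‖`); some `v` with `lppM (1/8) 0 (gz k h ω) n0 v > 1/8 + dist y v/32`. Its probability (on `alv n0`) is `≤ k^c` for some `c > 0`: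
  for the last one `cell_all` (LPPc) with `lam = ell/2`, `v n0 = n0 h/ell² ≤ 2/ell²`, `q = 1/8`, `lam/8` large: `Σ_v C exp(-lam(1/8 + dist/32)) ≤ C k^{1/16}`.
Off `E`: `low_of_pot` gives `LowR` with `7(log K/a' + ε) + 1 ≤ M` and `7(a/(8a') + ε) + 6 ε0' ≤ a/a' = s0` (`LowR` is monotone in `M`, `s0`); profile: `grow_path` (`q' = 1/8`, `ρ = 3/4`, `A = A0`, `H = -(3/4) dist`): `D_{n0} v ≤ 2 A0 exp(ell(1/8 + dist/32 - (3/4) dist)) ≤ A0 k^{-1/4 + (11/16) dist}`.
`P^{nB} f G - P^{nB} f G' = ∫_{E} (f(G_nB) - f(G'_nB)) + ∫_{Eᶜ}(P^m f (G_{n0}) - P^m f(G'_{n0}))`.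
* `Eᶜ ∩ alv n0`: `mid2`, `m h ∈ [(T+1) ell² - 3, (T+1) ell² + 3]`; `∫_{alv n0} wpr_{n0}(x) ≤ 2 wpr_0(x)` (`sm_multi`, small `k`), `wpr_0(x) ≤ e^{(a/8) dist x y} wpr_0(y) ≤ K e^{(a/8) dist x y}` (triangle inequality for `α^{dist}`).
* `E`: `pair_est` exactly as in the proof of `mid2` (`P(E)^{1/2} ≤ k^{c/2}`): coefficient `k^{c/2} C e^{C(a+a')T} K e^{-(11/16)a dist + (a/8) dist}`, for small `k` `≤ KE2 K e^{-(5/16) a dist}` (`KE2 > 0`: `pPr ≥ p > 0`).
* `(alv)ᶜ`: `exit_bd`. `CW ≤ CW e^{..}`. Total coefficient `≤ (KB2 (2 κL K + CW) + 4 KE2 K) e^{-(5/16) a dist}`.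
The final inequality is between real numbers: both sides finite.
-/

open MeasureTheory ProbabilityTheory
open scoped ENNReal

namespace DynC

open Dyn

private theorem Good2_small (B K η : ℝ) (hK : 0 < K) (hη : 0 < η) : ∃ k0 : ℝ, 0 < k0 ∧ k0 < 1 ∧
    ∀ k, 0 < k → k < k0 → B ≤ ell k ∧ K * k ^ η ≤ 1 := by
  refine ⟨min (Real.exp (-(max B 1))) ((1 / K) ^ (1 / η)), ?_, ?_, ?_⟩
  · exact lt_min (Real.exp_pos _) (Real.rpow_pos_of_pos (by positivity) _)
  · refine lt_of_le_of_lt (min_le_left _ _) ?_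
    rw [Real.exp_lt_one_iff]
    have := le_max_right B 1
    linarith
  · intro k hk hlt
    have h1 : k < Real.exp (-(max B 1)) := hlt.trans_le (min_le_left _ _)
    have h2 : k < (1 / K) ^ (1 / η) := hlt.trans_le (min_le_right _ _)
    constructor
    · unfold ell
      rw [one_div, Real.log_inv]
      have e1 := Real.log_lt_log hk h1
      rw [Real.log_exp] at e1
      have := le_max_left B 1
      linarith
    · have e1 : k ^ η ≤ ((1 / K) ^ (1 / η)) ^ η := Real.rpow_le_rpow hk.le h2.le hη.le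
      rw [← Real.rpow_mul (by positivity), one_div_mul_cancel hη.ne', Real.rpow_one] at e1
      calc K * k ^ η ≤ K * (1 / K) := mul_le_mul_of_nonneg_left e1 hK.le
        _ = 1 := mul_one_div_cancel hK.ne'

private theorem Good2_n1 {q a' l : ℝ} (h : 8 * q ≤ l) (hq : 1 ≤ q) (ha1 : a' ≤ 1) :
    8 * q * a' ≤ l := by
  have : 8 * q * a' ≤ 8 * q * 1 := mul_le_mul_of_nonneg_left ha1 (by linarith)
  linarith

private theorem Good2_n2 {T l : ℝ} (hT : 2 ≤ T) (hl : 1 ≤ l) :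
    1 ≤ l ^ 2 ∧ 1 ≤ (T + 1) * l ^ 2 := by
  have h1 : 1 ≤ l ^ 2 := one_le_pow₀ hl
  exact ⟨h1, by nlinarith⟩

private theorem Good2_n3 {a' : ℝ} (h0 : 0 < a') (h1 : a' ≤ 1) : a' + a' ^ 2 ≤ 2 := by nlinarith

private theorem Good2_n4 {C l : ℝ} (h : 8 * C ≤ l) (hl : 1 ≤ l) :
    4 * C ≤ 1 / 2 * l ^ 2 := by nlinarith

private theorem Good2_n5 {x y : ℝ} (hx : 1 ≤ x) (hy : 1 ≤ y) : 1 ≤ x * y := by nlinarith

private theorem Good2_n6 {X t s : ℝ} (h : X ≤ t ^ 2) (h1 : t ≤ s) (h2 : t ≤ 1) (h3 : 0 ≤ t) :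
    X ≤ s := by nlinarith

private theorem Good2_n7 {X l : ℝ} (h : X ≤ 2) (h1 : 8 ≤ l) : X ≤ l ^ 3 := by
  have h2 : (8 : ℝ) ^ 3 ≤ l ^ 3 := pow_le_pow_left₀ (by norm_num) h1 3
  linarith

private theorem Good2_n8 {X T l : ℝ} (h : X ≤ T * l ^ 2 + 1) (h1 : 1 ≤ l) :
    X ≤ (T + 1) * l ^ 2 := by
  have h2 : 1 ≤ l ^ 2 := one_le_pow₀ h1
  linarith

private theorem Good2_n9 {a' : ℝ} (h0 : 0 < a') (h1 : a' ≤ 1) : 4 * a' + 16 * a' ^ 2 ≤ 20 := by
  nlinarith

private theorem Good2_kexp {k : ℝ} (hk : 0 < k) (e : ℝ) : k ^ e = Real.exp (-(ell k * e)) := by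
  rw [Real.rpow_def_of_pos hk]
  congr 1
  unfold ell
  rw [one_div, Real.log_inv]
  ring

private theorem Good2_glue_alv {d : ℕ} {F : Fam d} {β k : ℝ} (S : PSys F β k) (h : ℝ) (L : ℕ)
    (G : (boxS d L → F.V) × (boxS d L → F.V)) (n : ℕ) (a b : ℕ → boxS d L → S.Ωp) :
    glue n a b ∈ S.alv h L G n ↔ a ∈ S.alv h L G n := by
  simp only [PSys.alv, PSys.tr, Set.mem_ofPred_eq]
  refine and_congr ?_ ?_
  · refine forall_congr' fun j => forall_congr' fun hj => forall_congr' fun x => ?_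
    have : glue n a b j = a j := by unfold glue; rw [if_pos hj]
    rw [this]
  · refine forall_congr' fun j => forall_congr' fun hj => forall_congr' fun x => ?_
    rw [traj_glue_le _ _ _ _ _ _ hj]

private theorem Good2_trm {d : ℕ} {F : Fam d} {β k : ℝ} (S : PSys F β k) (h : ℝ) (L : ℕ)
    (G : (boxS d L → F.V) × (boxS d L → F.V)) (n : ℕ) :
    Measurable (fun ω => S.tr h L G ω n) :=
  (measurable_tr S h L n).comp (measurable_const.prodMk measurable_id)

private theorem Good2_Pn {d : ℕ} {F : Fam d} {β k : ℝ} (S : PSys F β k) (h : ℝ) (L n : ℕ)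
    (f : (boxS d L → F.V) → ℂ) (hm : Measurable f)
    (G : (boxS d L → F.V) × (boxS d L → F.V)) :
    F.Pn h L n f G.1 = ∫ ω, f (S.tr h L G ω n).1 ∂(PI (S.mu L)) ∧
    F.Pn h L n f G.2 = ∫ ω, f (S.tr h L G ω n).2 ∂(PI (S.mu L)) := by
  have hX := Good2_trm S h L G n
  have hX1 : Measurable (fun ω => (S.tr h L G ω n).1) := measurable_fst.comp hX
  have hX2 : Measurable (fun ω => (S.tr h L G ω n).2) := measurable_snd.comp hX
  have hY1 : Measurable (fun ω => traj (F.st h L) G.1 ω n) :=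
    (measurable_traj _ (F.mst h L) n).comp (measurable_const.prodMk measurable_id)
  have hY2 : Measurable (fun ω => traj (F.st h L) G.2 ω n) :=
    (measurable_traj _ (F.mst h L) n).comp (measurable_const.prodMk measurable_id)
  constructor
  · unfold Fam.Pn
    rw [← integral_map (φ := fun ω => traj (F.st h L) G.1 ω n) hY1.aemeasurable
      hm.aestronglyMeasurable, ← (tr_marg S h L G n).1,
      integral_map hX1.aemeasurable hm.aestronglyMeasurable]
  · unfold Fam.Pn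
    rw [← integral_map (φ := fun ω => traj (F.st h L) G.2 ω n) hY2.aemeasurable
      hm.aestronglyMeasurable, ← (tr_marg S h L G n).2,
      integral_map hX2.aemeasurable hm.aestronglyMeasurable]

/-- Markov property at time `n`, split according to a bad set of states -/
private theorem Good2_split {d : ℕ} {F : Fam d} {β k : ℝ} (S : PSys F β k) (h : ℝ) (L n m : ℕ)
    (f : (boxS d L → F.V) → ℂ) (hm : Measurable f) (hb : ∀ G, ‖f G‖ ≤ 1)
    (G : (boxS d L → F.V) × (boxS d L → F.V))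
    (Bad : Set ((boxS d L → F.V) × (boxS d L → F.V))) (hBad : MeasurableSet Bad) :
    ENNReal.ofReal ‖F.Pn h L (n + m) f G.1 - F.Pn h L (n + m) f G.2‖ ≤
      ∫⁻ ω in S.alv h L G n ∩ {ω | S.tr h L G ω n ∈ Bad},
          ENNReal.ofReal ‖f (S.tr h L G ω (n + m)).1 - f (S.tr h L G ω (n + m)).2‖
          ∂(PI (S.mu L)) +
      ∫⁻ ω in S.alv h L G n \ {ω | S.tr h L G ω n ∈ Bad},
          ENNReal.ofReal ‖F.Pn h L m f (S.tr h L G ω n).1 - F.Pn h L m f (S.tr h L G ω n).2‖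
          ∂(PI (S.mu L)) +
      2 * PI (S.mu L) (S.alv h L G n)ᶜ := by
  set μ := PI (S.mu L) with hμ
  set A : Set (ℕ → boxS d L → S.Ωp) := S.alv h L G n with hA
  set B : Set (ℕ → boxS d L → S.Ωp) := {ω | S.tr h L G ω n ∈ Bad} with hB
  have hX : ∀ (j : ℕ) (G' : (boxS d L → F.V) × (boxS d L → F.V)),
      Measurable (fun ω => S.tr h L G' ω j) := fun j G' => Good2_trm S h L G' j
  have hAm : MeasurableSet A := measurableSet_alv S h L G n
  have hBm : MeasurableSet B := (hX n G) hBad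
  set g : (ℕ → boxS d L → S.Ωp) → ℂ := fun ω =>
    f (S.tr h L G ω (n + m)).1 - f (S.tr h L G ω (n + m)).2 with hg
  have hi : ∀ (j : ℕ) (G' : (boxS d L → F.V) × (boxS d L → F.V)),
      Integrable (fun ω => f (S.tr h L G' ω j).1) μ ∧
      Integrable (fun ω => f (S.tr h L G' ω j).2) μ := by
    intro j G'
    constructor
    · exact Integrable.of_bound (hm.comp (measurable_fst.comp (hX j G'))).aestronglyMeasurable 1
        (Filter.Eventually.of_forall fun _ => hb _)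
    · exact Integrable.of_bound (hm.comp (measurable_snd.comp (hX j G'))).aestronglyMeasurable 1
        (Filter.Eventually.of_forall fun _ => hb _)
  have hgm : Measurable g := (hm.comp (measurable_fst.comp (hX (n + m) G))).sub
    (hm.comp (measurable_snd.comp (hX (n + m) G)))
  have hg2 : ∀ ω, ‖g ω‖ ≤ 2 := by
    intro ω
    refine (norm_sub_le _ _).trans ?_
    have h1 := hb (S.tr h L G ω (n + m)).1
    have h2 := hb (S.tr h L G ω (n + m)).2
    linarith
  have hgi : Integrable g μ := Integrable.of_bound hgm.aestronglyMeasurable 2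
    (Filter.Eventually.of_forall hg2)
  have e0 : F.Pn h L (n + m) f G.1 - F.Pn h L (n + m) f G.2 = ∫ ω, g ω ∂μ := by
    rw [(Good2_Pn S h L (n + m) f hm G).1, (Good2_Pn S h L (n + m) f hm G).2,
      ← integral_sub (hi (n + m) G).1 (hi (n + m) G).2]
  have e1 : ∫ ω, g ω ∂μ =
      (∫ ω in A ∩ B, g ω ∂μ + ∫ ω in A \ B, g ω ∂μ) + ∫ ω in Aᶜ, g ω ∂μ := by
    rw [integral_inter_add_sdiff hBm hgi.integrableOn, integral_add_compl hAm hgi]
  have e2 : ∫ ω in A \ B, g ω ∂μ = ∫ ω in A \ B, (F.Pn h L m f (S.tr h L G ω n).1 -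
      F.Pn h L m f (S.tr h L G ω n).2) ∂μ := by
    rw [← integral_indicator (hAm.diff hBm), ← integral_indicator (hAm.diff hBm)]
    have hbd : ∀ ω, ‖(A \ B).indicator g ω‖ ≤ 2 := fun ω =>
      (norm_indicator_le_norm_self _ _).trans (hg2 ω)
    rw [integral_glue n _ (hgm.indicator (hAm.diff hBm)) 2 hbd]
    refine integral_congr_ae (Filter.Eventually.of_forall fun a => ?_)
    have hmem : ∀ b, glue n a b ∈ A \ B ↔ a ∈ A \ B := by
      intro b
      have h1 := Good2_glue_alv S h L G n a b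
      have h2 : glue n a b ∈ B ↔ a ∈ B := by
        show traj (S.st h L) G (glue n a b) n ∈ Bad ↔ traj (S.st h L) G a n ∈ Bad
        rw [traj_glue_le _ _ _ _ _ _ le_rfl]
      exact and_congr h1 (not_congr h2)
    show ∫ b, (A \ B).indicator g (glue n a b) ∂μ = (A \ B).indicator _ a
    by_cases ha : a ∈ A \ B
    · rw [Set.indicator_of_mem ha]
      have h1 : ∀ b, (A \ B).indicator g (glue n a b) =
          f (S.tr h L (S.tr h L G a n) b m).1 - f (S.tr h L (S.tr h L G a n) b m).2 := by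
        intro b
        rw [Set.indicator_of_mem ((hmem b).2 ha)]
        show f (traj (S.st h L) G (glue n a b) (n + m)).1 -
          f (traj (S.st h L) G (glue n a b) (n + m)).2 = _
        rw [traj_glue_add]
        rfl
      simp_rw [h1]
      rw [integral_sub (hi m _).1 (hi m _).2, (Good2_Pn S h L m f hm (S.tr h L G a n)).1,
        (Good2_Pn S h L m f hm (S.tr h L G a n)).2]
    · rw [Set.indicator_of_notMem ha]
      have h1 : ∀ b, (A \ B).indicator g (glue n a b) = 0 := fun b =>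
        Set.indicator_of_notMem (fun hc => ha ((hmem b).1 hc)) _
      simp_rw [h1]
      exact integral_zero _ _
  rw [e0, e1, e2]
  simp_rw [ofReal_norm]
  refine (enorm_add_le _ _).trans (add_le_add ((enorm_add_le _ _).trans (add_le_add ?_ ?_)) ?_)
  · exact enorm_integral_le_lintegral_enorm _
  · exact enorm_integral_le_lintegral_enorm _
  · refine (enorm_integral_le_lintegral_enorm _).trans ?_
    calc ∫⁻ ω in Aᶜ, ‖g ω‖ₑ ∂μ ≤ ∫⁻ ω in Aᶜ, 2 ∂μ := by
          refine lintegral_mono fun ω => ?_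
          rw [← ofReal_norm]
          exact (ENNReal.ofReal_le_ofReal (hg2 ω)).trans (le_of_eq (ENNReal.ofReal_ofNat 2))
      _ = 2 * μ Aᶜ := by rw [lintegral_const, Measure.restrict_apply_univ]

/-- the profile after a unit of time -/
private theorem Good2_prof (d : ℕ) (β : ℝ) (hβ : 0 < β) : ∃ k0 : ℝ, 0 < k0 ∧ k0 < 1 ∧
    ∀ (k : ℝ) (hk : 0 < k), k < k0 → ∀ (L : ℕ) (h : ℝ), 0 < h →
    ∀ (G : (boxS d L → ℂ) × (boxS d L → ℂ)) (y : boxS d L), (∀ x, x ≠ y → G.1 x = G.2 x) →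
    ∀ n : ℕ, 1 ≤ n → n * h ≤ 2 →
      PI ((PS2 d β k hβ hk.le).mu L) {ω | ¬ ∀ v, ‖((PS2 d β k hβ hk.le).tr h L G ω n).1 v -
        ((PS2 d β k hβ hk.le).tr h L G ω n).2 v‖ ≤
          ‖G.1 y - G.2 y‖ * k ^ (-(1 / 4) + 11 / 16 * ((boxNet d L).dist y v : ℝ))} ≤
        ENNReal.ofReal (k ^ (1 / 128 : ℝ)) := by
  obtain ⟨C, s1, hC, hs1, hP⟩ := reg2_prob d
  obtain ⟨kg, hkg, hkg1, hG⟩ := reg2_growth d
  obtain ⟨k1, hk1, hk11, H1⟩ := Good2_small (max (max 8 (2 / s1)) (64 * C)) C (1 / 128)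
    (by linarith) (by norm_num)
  refine ⟨min k1 kg, lt_min hk1 hkg, lt_of_le_of_lt (min_le_left _ _) hk11, ?_⟩
  intro k hk hkk L h hh G y hGy n hn hnh
  obtain ⟨hB, hK⟩ := H1 k hk (hkk.trans_le (min_le_left _ _))
  have hkk1 : k < 1 := (hkk.trans_le (min_le_left _ _)).trans hk11
  have h8 : 8 ≤ ell k := ((le_max_left _ _).trans (le_max_left _ _)).trans hB
  have h2s : 2 / s1 ≤ ell k := ((le_max_right _ _).trans (le_max_left _ _)).trans hB
  have h64 : 64 * C ≤ ell k := (le_max_right _ _).trans hB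
  have hl0 : 0 < ell k := by linarith
  set v : ℝ := h / ell k ^ 2 with hv
  have hv0 : 0 < v := by positivity
  have hn0 : (0 : ℝ) < n := by exact_mod_cast hn
  have hvn : v * n ≤ (2 / ell k) ^ 2 := by
    rw [hv, div_pow, div_mul_eq_mul_div]
    apply div_le_div_of_nonneg_right _ (by positivity)
    rw [mul_comm h]
    linarith
  have hvn0 : 0 < v * n := by positivity
  have hsq : Real.sqrt (v * n) ≤ 2 / ell k := by
    rw [← Real.sqrt_sq (show 0 ≤ 2 / ell k by positivity)]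
    exact Real.sqrt_le_sqrt hvn
  have hsq0 : 0 < Real.sqrt (v * n) := Real.sqrt_pos.2 hvn0
  have c1 : v * n ≤ s1 := by
    have e1 : 2 / ell k ≤ s1 := by
      rw [div_le_iff₀ hl0]
      rw [div_le_iff₀ hs1] at h2s
      linarith
    have e2 : 2 / ell k ≤ 1 := by
      rw [div_le_one hl0]; linarith
    have e3 : 0 ≤ 2 / ell k := by positivity
    exact Good2_n6 hvn e1 e2 e3
  have c2 : C * Real.sqrt (v * n) ≤ 1 / 32 := by
    have e1 : C * Real.sqrt (v * n) ≤ C * (2 / ell k) :=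
      mul_le_mul_of_nonneg_left hsq (by linarith)
    have e2 : C * (2 / ell k) ≤ 1 / 32 := by
      rw [mul_div_assoc', div_le_iff₀ hl0]
      linarith
    linarith
  have hlaw := re_law d L k h hk hkk1 hh {g | ¬ Reg2 (1 / 32) g n y}
    (measurableSet_Reg2 (1 / 32) n y).compl
  have hreg : PI (Measure.pi fun _ : boxS d L => gC)
      {ω | gz k h ω ∈ {g | ¬ Reg2 (1 / 32) g n y}} ≤
      ENNReal.ofReal (C * Real.exp (-(1 / 32 / Real.sqrt (v * n)))) := by
    rw [hlaw]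
    exact hP L n v (1 / 32) hv0 hn c1 c2 y
  have hsub : {ω | ¬ ∀ v, ‖((PS2 d β k hβ hk.le).tr h L G ω n).1 v -
        ((PS2 d β k hβ hk.le).tr h L G ω n).2 v‖ ≤
          ‖G.1 y - G.2 y‖ * k ^ (-(1 / 4) + 11 / 16 * ((boxNet d L).dist y v : ℝ))} ⊆
      {ω : ℕ → boxS d L → ℂ | gz k h ω ∈ {g | ¬ Reg2 (1 / 32) g n y}} := by
    intro ω hω
    by_contra hc
    apply hω
    have hR : Reg2 (1 / 32) (gz k h ω) n y := by
      by_contra hc'
      exact hc hc'
    intro w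
    have e1 := hG k hk (hkk.trans_le (min_le_right _ _)) L h (1 / 32) (3 / 4) ‖G.1 y - G.2 y‖ hh
      (by norm_num) le_rfl (norm_nonneg _)
      (fun j z => (PS2 d β k hβ hk.le).b h (ω j z))
      (fun j => dif ((PS2 d β k hβ hk.le).tr h L G ω j).1 ((PS2 d β k hβ hk.le).tr h L G ω j).2)
      n (Good2_n7 hnh h8)
      (fun j => (PS2 d β k hβ hk.le).dd h L ((PS2 d β k hβ hk.le).tr h L G ω j) (ω j) hh)
      y hR (fun x => -(3 / 4 * ((boxNet d L).dist x y : ℝ))) (by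
        intro x y' hy'
        have h1 := (boxNet d L).dist_tri x y' y
        rw [(boxNet d L).dist_nb x y' hy'] at h1
        have h2 : ((boxNet d L).dist x y : ℝ) ≤ 1 + ((boxNet d L).dist y' y : ℝ) := by
          exact_mod_cast h1
        linarith) (by
        intro x
        change ‖G.1 x - G.2 x‖ ≤ _
        by_cases hx : x = y
        · subst hx
          rw [(boxNet d L).dist_self]
          simp
        · rw [hGy x hx, sub_self, norm_zero]
          positivity) n le_rfl w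
    refine e1.trans ?_
    rw [Good2_kexp hk, mul_comm (2 : ℝ), mul_assoc]
    refine mul_le_mul_of_nonneg_left ?_ (norm_nonneg _)
    have e2 : (2 : ℝ) ≤ Real.exp 1 := by
      have := Real.add_one_le_exp (1 : ℝ)
      linarith
    calc 2 * Real.exp (ell k * (1 / 32 * (1 + ((boxNet d L).dist y w : ℝ)) +
            -(3 / 4 * ((boxNet d L).dist w y : ℝ))))
        ≤ Real.exp 1 * Real.exp (ell k * (1 / 32 * (1 + ((boxNet d L).dist y w : ℝ)) +
            -(3 / 4 * ((boxNet d L).dist w y : ℝ)))) :=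
          mul_le_mul_of_nonneg_right e2 (Real.exp_pos _).le
      _ = Real.exp (1 + ell k * (1 / 32 * (1 + ((boxNet d L).dist y w : ℝ)) +
            -(3 / 4 * ((boxNet d L).dist w y : ℝ)))) := by rw [Real.exp_add]
      _ ≤ _ := by
          apply Real.exp_le_exp.2
          rw [(boxNet d L).dist_comm w y]
          have hd0 : (0 : ℝ) ≤ ((boxNet d L).dist y w : ℝ) := Nat.cast_nonneg _
          nlinarith
  refine (measure_mono hsub).trans (hreg.trans (ENNReal.ofReal_le_ofReal ?_))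
  have e3 : Real.exp (-(1 / 32 / Real.sqrt (v * n))) ≤ k ^ (1 / 64 : ℝ) := by
    rw [Good2_kexp hk]
    apply Real.exp_le_exp.2
    have : ell k * (1 / 64) ≤ 1 / 32 / Real.sqrt (v * n) := by
      rw [le_div_iff₀ hsq0]
      have h1 : ell k * (1 / 64) * Real.sqrt (v * n) ≤ ell k * (1 / 64) * (2 / ell k) :=
        mul_le_mul_of_nonneg_left hsq (by positivity)
      have h2 : ell k * (1 / 64) * (2 / ell k) = 1 / 32 := by
        field_simp
        norm_num
      linarith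
    linarith
  have e4 : k ^ (1 / 64 : ℝ) = k ^ (1 / 128 : ℝ) * k ^ (1 / 128 : ℝ) := by
    rw [← Real.rpow_add hk]
    norm_num
  have e5 : 0 ≤ k ^ (1 / 128 : ℝ) := Real.rpow_nonneg hk.le _
  calc C * Real.exp (-(1 / 32 / Real.sqrt (v * n))) ≤ C * k ^ (1 / 64 : ℝ) :=
        mul_le_mul_of_nonneg_left e3 (by linarith)
    _ = C * k ^ (1 / 128 : ℝ) * k ^ (1 / 128 : ℝ) := by rw [e4]; ring
    _ ≤ 1 * k ^ (1 / 128 : ℝ) := mul_le_mul_of_nonneg_right hK e5
    _ = k ^ (1 / 128 : ℝ) := one_mul _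

private theorem Good2_meas_gX : Measurable gX := by
  unfold gX
  refine Measurable.ite measurableSet_Iic measurable_id ?_
  refine Measurable.ite measurableSet_Iic ?_ ?_
  · exact measurable_id.sub (((measurable_id.add_const _).pow_const 2).const_mul 4)
  refine Measurable.ite measurableSet_Iic measurable_const ?_
  exact (measurable_id.sub_const _).const_add _

private theorem Good2_meas_fpot (k : ℝ) : Measurable (fpot k) := by
  unfold fpot
  refine Measurable.ite measurableSet_Iic measurable_const ?_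
  exact Real.measurable_exp.comp ((Good2_meas_gX.comp (Real.measurable_log.div_const _)).const_mul _)

private theorem Good2_meas_Tz {A : Type} [MeasurableSpace A] {ι : Type} [Fintype ι] {d : ℕ}
    (net : Net ι d) (k q : ℝ) (u t : A → ι → ℝ) (hu : ∀ y, Measurable (fun a => u a y))
    (ht : ∀ y, Measurable (fun a => t a y)) (x z : ι) :
    Measurable (fun a => Tz net k q (u a) (t a) x z) := by
  have hS : Measurable (fun a => SSt net k (t a) z) := by
    unfold SSt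
    refine ((Finset.measurable_fun_sum _ ?_).const_mul _).const_add _
    intro w _
    exact (ht w).const_mul _
  unfold Tz
  exact (((Good2_meas_fpot k).comp (hu z)).const_mul _).mul (hS.pow_const _)

/-- bad states at the end of the first unit of time -/
private def Good2Bad {d L : ℕ} (k q M s0 ε0 A0 : ℝ) (y : boxS d L) :
    Set ((boxS d L → ℂ) × (boxS d L → ℂ)) :=
  {P | ¬ (PotGe k q (nrm P.1) (fun v => nrm P.1 v + nrm P.2 v) M s0 y ∧
      PotGe k q (nrm P.2) (fun v => nrm P.1 v + nrm P.2 v) M s0 y ∧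
      Caps k (fun v => ‖P.1 v‖ + ‖P.2 v‖) ε0 y ∧
      ∀ v, ‖P.1 v - P.2 v‖ ≤ A0 * k ^ (-(1 / 4) + 11 / 16 * ((boxNet d L).dist y v : ℝ)))}

private theorem Good2_measBad {d L : ℕ} (k q M s0 ε0 A0 : ℝ) (y : boxS d L) :
    MeasurableSet (Good2Bad k q M s0 ε0 A0 y) := by
  have m1 : ∀ v, Measurable fun P : (boxS d L → ℂ) × (boxS d L → ℂ) => ‖P.1 v‖ := fun v =>
    ((measurable_pi_apply v).comp measurable_fst).norm
  have m2 : ∀ v, Measurable fun P : (boxS d L → ℂ) × (boxS d L → ℂ) => ‖P.2 v‖ := fun v =>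
    ((measurable_pi_apply v).comp measurable_snd).norm
  have m3 : ∀ v, Measurable fun P : (boxS d L → ℂ) × (boxS d L → ℂ) => ‖P.1 v - P.2 v‖ := fun v =>
    (((measurable_pi_apply v).comp measurable_fst).sub
      ((measurable_pi_apply v).comp measurable_snd)).norm
  have mt : ∀ v, Measurable fun P : (boxS d L → ℂ) × (boxS d L → ℂ) =>
      nrm P.1 v + nrm P.2 v := fun v => (m1 v).add (m2 v)
  unfold Good2Bad
  refine MeasurableSet.compl ?_
  refine MeasurableSet.inter ?_ (MeasurableSet.inter ?_ (MeasurableSet.inter ?_ ?_))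
  · have : {P : (boxS d L → ℂ) × (boxS d L → ℂ) |
        PotGe k q (nrm P.1) (fun v => nrm P.1 v + nrm P.2 v) M s0 y} =
        ⋂ v, ⋃ z, {P : (boxS d L → ℂ) × (boxS d L → ℂ) |
          k ^ (M + s0 * (boxNet d L).dist v y) ≤
            Tz (boxNet d L) k q (nrm P.1) (fun v => nrm P.1 v + nrm P.2 v) v z} := by
      ext P
      simp only [PotGe, Set.mem_ofPred_eq, Set.mem_iInter, Set.mem_iUnion]
    show MeasurableSet {P : (boxS d L → ℂ) × (boxS d L → ℂ) |
        PotGe k q (nrm P.1) (fun v => nrm P.1 v + nrm P.2 v) M s0 y}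
    rw [this]
    refine MeasurableSet.iInter fun v => MeasurableSet.iUnion fun z => ?_
    exact measurableSet_le measurable_const (Good2_meas_Tz (boxNet d L) k q
      (fun P : (boxS d L → ℂ) × (boxS d L → ℂ) => nrm P.1)
      (fun P => fun v => nrm P.1 v + nrm P.2 v) m1 mt v z)
  · have : {P : (boxS d L → ℂ) × (boxS d L → ℂ) |
        PotGe k q (nrm P.2) (fun v => nrm P.1 v + nrm P.2 v) M s0 y} =
        ⋂ v, ⋃ z, {P : (boxS d L → ℂ) × (boxS d L → ℂ) |
          k ^ (M + s0 * (boxNet d L).dist v y) ≤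
            Tz (boxNet d L) k q (nrm P.2) (fun v => nrm P.1 v + nrm P.2 v) v z} := by
      ext P
      simp only [PotGe, Set.mem_ofPred_eq, Set.mem_iInter, Set.mem_iUnion]
    show MeasurableSet {P : (boxS d L → ℂ) × (boxS d L → ℂ) |
        PotGe k q (nrm P.2) (fun v => nrm P.1 v + nrm P.2 v) M s0 y}
    rw [this]
    refine MeasurableSet.iInter fun v => MeasurableSet.iUnion fun z => ?_
    exact measurableSet_le measurable_const (Good2_meas_Tz (boxNet d L) k q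
      (fun P : (boxS d L → ℂ) × (boxS d L → ℂ) => nrm P.2)
      (fun P => fun v => nrm P.1 v + nrm P.2 v) m2 mt v z)
  · have : {P : (boxS d L → ℂ) × (boxS d L → ℂ) | Caps k (fun v => ‖P.1 v‖ + ‖P.2 v‖) ε0 y} =
        ⋂ v, {P : (boxS d L → ℂ) × (boxS d L → ℂ) |
          ‖P.1 v‖ + ‖P.2 v‖ ≤ k ^ (-(ε0 * (1 + (boxNet d L).dist v y)))} := by
      ext P
      simp only [Caps, Set.mem_ofPred_eq, Set.mem_iInter]
    show MeasurableSet {P : (boxS d L → ℂ) × (boxS d L → ℂ) |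
      Caps k (fun v => ‖P.1 v‖ + ‖P.2 v‖) ε0 y}
    rw [this]
    exact MeasurableSet.iInter fun v => measurableSet_le ((m1 v).add (m2 v)) measurable_const
  · have : {P : (boxS d L → ℂ) × (boxS d L → ℂ) |
        ∀ v, ‖P.1 v - P.2 v‖ ≤ A0 * k ^ (-(1 / 4) + 11 / 16 * ((boxNet d L).dist y v : ℝ))} =
        ⋂ v, {P : (boxS d L → ℂ) × (boxS d L → ℂ) |
          ‖P.1 v - P.2 v‖ ≤ A0 * k ^ (-(1 / 4) + 11 / 16 * ((boxNet d L).dist y v : ℝ))} := by
      ext P
      simp only [Set.mem_ofPred_eq, Set.mem_iInter]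
    show MeasurableSet {P : (boxS d L → ℂ) × (boxS d L → ℂ) |
        ∀ v, ‖P.1 v - P.2 v‖ ≤ A0 * k ^ (-(1 / 4) + 11 / 16 * ((boxNet d L).dist y v : ℝ))}
    rw [this]
    exact MeasurableSet.iInter fun v => measurableSet_le (m3 v) measurable_const

private theorem Good2_bad (d : ℕ) (β : ℝ) (hβ : 0 < β) : ∃ q0 : ℝ, 1 ≤ q0 ∧ ∀ q, q0 ≤ q →
    ∀ ε ε0 : ℝ, 0 < ε → 0 < ε0 → ∃ c k0 : ℝ, 0 < c ∧ 0 < k0 ∧ k0 < 1 ∧
    ∀ (k : ℝ) (hk : 0 < k), k < k0 → ∀ L : ℕ, ∃ h0 : ℝ, 0 < h0 ∧ ∀ h, 0 < h → h < h0 →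
    ∀ (G : (boxS d L → ℂ) × (boxS d L → ℂ)) (y : boxS d L) (n : ℕ), 1 ≤ n * h → n * h ≤ 2 →
      (∀ x, x ≠ y → G.1 x = G.2 x) → ∀ M s0 : ℝ, 0 ≤ M → 0 ≤ s0 →
      PotGe k q (nrm G.1) (fun v => nrm G.1 v + nrm G.2 v) M s0 y →
      PotGe k q (nrm G.2) (fun v => nrm G.1 v + nrm G.2 v) M s0 y →
      PI ((PS2 d β k hβ hk.le).mu L) ((PS2 d β k hβ hk.le).alv h L G n ∩
        {ω | (PS2 d β k hβ hk.le).tr h L G ω n ∈
          Good2Bad k q (M + ε) (s0 + ε) ε0 ‖G.1 y - G.2 y‖ y}) ≤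
        ENNReal.ofReal (4 * k ^ c) := by
  obtain ⟨q0, hq0, H⟩ := pot_prob 2 d β le_rfl hβ
  refine ⟨q0, hq0, ?_⟩
  intro q hq ε ε0 hε hε0
  obtain ⟨c1, k1, hc1, hk1, hk11, H1⟩ := H q hq ε hε
  obtain ⟨c2, k2, hc2, hk2, hk21, H2⟩ := caps_prob 2 d β hβ ε0 hε0
  obtain ⟨k3, hk3, hk31, H3⟩ := Good2_prof d β hβ
  refine ⟨min (min c1 c2) (1 / 128), min (min k1 k2) k3,
    lt_min (lt_min hc1 hc2) (by norm_num), lt_min (lt_min hk1 hk2) hk3,
    lt_of_le_of_lt (min_le_right _ _) hk31, ?_⟩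
  intro k hk hkk L
  have hkk1 : k < k1 := hkk.trans_le ((min_le_left _ _).trans (min_le_left _ _))
  have hkk2 : k < k2 := hkk.trans_le ((min_le_left _ _).trans (min_le_right _ _))
  have hkk3 : k < k3 := hkk.trans_le (min_le_right _ _)
  set S := PS2 d β k hβ hk.le with hS
  obtain ⟨h1, hh1, H1'⟩ := H1 (Fam2 d β k) k S hk hkk1 bnoise2
  obtain ⟨h2, hh2, H2'⟩ := H2 (Fam2 d β k) k S hk hkk2 bnoise2 L
  refine ⟨min h1 h2, lt_min hh1 hh2, ?_⟩
  intro h hh hhh G y n hn1 hn2 hGy M s0 hM hs0 hp1 hp2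
  have hhh1 : h < h1 := hhh.trans_le (min_le_left _ _)
  have hhh2 : h < h2 := hhh.trans_le (min_le_right _ _)
  have hn : 1 ≤ n := by
    rcases Nat.eq_zero_or_pos n with rfl | hpos
    · exfalso
      rw [Nat.cast_zero, zero_mul] at hn1
      linarith
    · exact hpos
  obtain ⟨P1, P2⟩ := H1' h hh hhh1 L G n (by linarith) y M s0 hM hs0
  have P3 := H2' h hh hhh2 G n hn1 y
  have P4 := H3 k hk hkk3 L h hh G y hGy n hn hn2
  have hle : ∀ c', min (min c1 c2) (1 / 128) ≤ c' → ENNReal.ofReal (k ^ c') ≤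
      ENNReal.ofReal (k ^ (min (min c1 c2) (1 / 128))) := fun c' hc' =>
    ENNReal.ofReal_le_ofReal (Real.rpow_le_rpow_of_exponent_ge hk (hkk1.trans hk11).le hc')
  set X : ℝ≥0∞ := ENNReal.ofReal (k ^ (min (min c1 c2) (1 / 128))) with hX
  have Q1 := (P1 hp1).trans (hle c1 ((min_le_left _ _).trans (min_le_left _ _)))
  have Q2 := (P2 hp2).trans (hle c1 ((min_le_left _ _).trans (min_le_left _ _)))
  have Q3 := P3.trans (hle c2 ((min_le_left _ _).trans (min_le_right _ _)))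
  have Q4 := P4.trans (hle (1 / 128) (min_le_right _ _))
  have hsub : S.alv h L G n ∩ {ω | S.tr h L G ω n ∈
          Good2Bad k q (M + ε) (s0 + ε) ε0 ‖G.1 y - G.2 y‖ y} ⊆
      ((S.alv h L G n ∩ {ω | ¬ PotGe k q (nrm (S.tr h L G ω n).1)
          (fun v => nrm (S.tr h L G ω n).1 v + nrm (S.tr h L G ω n).2 v) (M + ε) (s0 + ε) y}) ∪
      (S.alv h L G n ∩ {ω | ¬ PotGe k q (nrm (S.tr h L G ω n).2)
          (fun v => nrm (S.tr h L G ω n).1 v + nrm (S.tr h L G ω n).2 v) (M + ε) (s0 + ε) y})) ∪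
      ((S.alv h L G n ∩ {ω | ¬ Caps k (fun v => ‖(S.tr h L G ω n).1 v‖ +
          ‖(S.tr h L G ω n).2 v‖) ε0 y}) ∪
      {ω | ¬ ∀ v, ‖(S.tr h L G ω n).1 v - (S.tr h L G ω n).2 v‖ ≤
          ‖G.1 y - G.2 y‖ * k ^ (-(1 / 4) + 11 / 16 * ((boxNet d L).dist y v : ℝ))}) := by
    rintro ω ⟨hω1, hω2⟩
    by_cases b1 : PotGe k q (nrm (S.tr h L G ω n).1)
          (fun v => nrm (S.tr h L G ω n).1 v + nrm (S.tr h L G ω n).2 v) (M + ε) (s0 + ε) y
    · by_cases b2 : PotGe k q (nrm (S.tr h L G ω n).2)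
          (fun v => nrm (S.tr h L G ω n).1 v + nrm (S.tr h L G ω n).2 v) (M + ε) (s0 + ε) y
      · by_cases b3 : Caps k (fun v => ‖(S.tr h L G ω n).1 v‖ +
          ‖(S.tr h L G ω n).2 v‖) ε0 y
        · exact Or.inr (Or.inr fun b4 => hω2 ⟨b1, b2, b3, b4⟩)
        · exact Or.inr (Or.inl ⟨hω1, b3⟩)
      · exact Or.inl (Or.inr ⟨hω1, b2⟩)
    · exact Or.inl (Or.inl ⟨hω1, b1⟩)
  refine (measure_mono hsub).trans ?_
  refine (measure_union_le _ _).trans ?_
  refine (add_le_add (measure_union_le _ _) (measure_union_le _ _)).trans ?_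
  refine (add_le_add (add_le_add Q1 Q2) (add_le_add Q3 Q4)).trans (le_of_eq ?_)
  rw [ENNReal.ofReal_mul (by norm_num), ENNReal.ofReal_ofNat, ← hX]
  ring

private theorem Good2_root (X : ℝ≥0∞) {c : ℝ} (hc : 0 ≤ c) (w : ℝ≥0∞)
    (h : X ≤ ENNReal.ofReal c * w ^ 4) : X ^ (1 / 4 : ℝ) ≤ ENNReal.ofReal (c ^ (1 / 4 : ℝ)) * w := by
  refine (ENNReal.rpow_le_rpow h (by norm_num)).trans (le_of_eq ?_)
  rw [ENNReal.mul_rpow_of_nonneg _ _ (by norm_num),
    ENNReal.ofReal_rpow_of_nonneg hc (by norm_num), ← ENNReal.rpow_natCast, ← ENNReal.rpow_mul]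
  norm_num

/-- fourth root of the fourth moment of `wpr` -/
private theorem Good2_W4 {d : ℕ} {F : Fam d} {β k' : ℝ} (S : PSys F β k') (h : ℝ) (L n : ℕ)
    (k q s α C : ℝ) (hC : 1 ≤ C) (hα : 0 ≤ α) (G : (boxS d L → F.V) × (boxS d L → F.V))
    (h1 : ∀ z, 1 ≤ V1 k q s G z ∧ 1 ≤ V2 k q s G z)
    (hV : ∀ z, ∫⁻ ω in S.alv h L G n, V1 k q (4 * s) (S.tr h L G ω n) z ∂(PI (S.mu L)) ≤
        ENNReal.ofReal C * V1 k q (4 * s) G z ∧
      ∫⁻ ω in S.alv h L G n, V2 k q (4 * s) (S.tr h L G ω n) z ∂(PI (S.mu L)) ≤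
        ENNReal.ofReal C * V2 k q (4 * s) G z) (x : boxS d L) :
    (∫⁻ ω in S.alv h L G n, wpr (boxNet d L) k q s α
      (S.tr h L G ω n).1 (S.tr h L G ω n).2 x ^ 4 ∂(PI (S.mu L))) ^ (1 / 4 : ℝ) ≤
      ENNReal.ofReal (C ^ (1 / 4 : ℝ)) * wpr (boxNet d L) k q s α G.1 G.2 x := by
  refine Good2_root _ (by linarith) _ ?_
  refine wpr_mom (PI (S.mu L)) (S.alv h L G n) (measurableSet_alv S h L G n)
    (fun ω => S.tr h L G ω n) (Good2_trm S h L G n) k q s α C hC hα G h1 ?_ x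
  intro z
  have e4 : ∀ P : (boxS d L → F.V) × (boxS d L → F.V), V1 k q s P z ^ 4 = V1 k q (4 * s) P z ∧
      V2 k q s P z ^ 4 = V2 k q (4 * s) P z := by
    intro P
    have a1 := V_sq k q s P z
    have a2 := V_sq k q (2 * s) P z
    rw [show 4 * s = 2 * (2 * s) by ring, ← a2.1, ← a2.2, ← a1.1, ← a1.2]
    constructor <;> rw [← pow_mul]
  constructor
  · simp_rw [fun P => (e4 P).1]
    exact (hV z).1
  · simp_rw [fun P => (e4 P).2]
    exact (hV z).2

/-- differences on an event -/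
private theorem Good2_E (d : ℕ) (β : ℝ) (hβ : 0 < β) : ∃ q0 a0 : ℝ, 1 ≤ q0 ∧ 0 < a0 ∧
    ∀ q, q0 ≤ q → ∀ T : ℝ, 1 ≤ T → ∃ CE k0 : ℝ, 0 < CE ∧ 0 < k0 ∧ k0 < 1 ∧
    ∀ (k : ℝ) (hk : 0 < k), k < k0 → ∀ a a' : ℝ, 0 < a → a ≤ a0 → 0 < a' → a' ≤ 1 →
    ∀ L : ℕ, ∃ h0 : ℝ, 0 < h0 ∧ ∀ h, 0 < h → h < h0 →
    ∀ (A : boxS d L → ℝ) (ε : ℝ) (f : (boxS d L → ℂ) → ℂ), (∀ x, 0 ≤ A x) → 0 ≤ ε →
      Measurable f → (∀ G, ‖f G‖ ≤ 1) →
      Cls (boxNet d L) k q (a' / ell k) (Real.exp (-(a / 8))) (a / ell k) A ε f →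
    ∀ (G : (boxS d L → ℂ) × (boxS d L → ℂ)) (y : boxS d L), (∀ x, x ≠ y → G.1 x = G.2 x) →
    ∀ n : ℕ, n * h ≤ T * ell k ^ 2 + 1 →
    ∀ E : Set (ℕ → boxS d L → ℂ), MeasurableSet E →
      ∫⁻ ω in E, ENNReal.ofReal ‖f ((PS2 d β k hβ hk.le).tr h L G ω n).1 -
          f ((PS2 d β k hβ hk.le).tr h L G ω n).2‖ ∂(PI ((PS2 d β k hβ hk.le).mu L)) ≤
        ∑ x, ENNReal.ofReal (4 * A x) * PI ((PS2 d β k hβ hk.le).mu L) E ^ (1 / 2 : ℝ) *
          ENNReal.ofReal (CE * Real.exp (-(3 / 4 * a * (boxNet d L).dist x y)) *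
            ‖G.1 y - G.2 y‖ ^ (a / ell k)) *
          wpr (boxNet d L) k q (a' / ell k) (Real.exp (-(a / 8))) G.1 G.2 x +
        (ENNReal.ofReal (2 * (Fintype.card (boxS d L)) * ε) *
          (1 + 2 * ∫⁻ ω, ENNReal.ofReal (∑ x, (‖((PS2 d β k hβ hk.le).tr h L G ω n).1 x‖ +
            ‖((PS2 d β k hβ hk.le).tr h L G ω n).2 x‖)) ∂(PI ((PS2 d β k hβ hk.le).mu L))) +
          2 * PI ((PS2 d β k hβ hk.le).mu L) ((PS2 d β k hβ hk.le).alv h L G n)ᶜ) := by
  obtain ⟨q0, hq0, H⟩ := sm_multi 2 d β le_rfl hβ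
  obtain ⟨CD, aD, hCD, haD, HD⟩ := gD2 d β hβ
  refine ⟨q0, aD / 2, hq0, by positivity, ?_⟩
  intro q hq T hT
  have hq1 : 1 ≤ q := hq0.trans hq
  obtain ⟨C9, k1, hC9, hk1, hk11, H1⟩ := H q hq
  obtain ⟨kD, hkD, hkD1, HD'⟩ := HD T hT
  obtain ⟨k2, hk2, hk21, H2⟩ := Good2_small (max 1 (32 * q)) (2 ^ (q - 1)) (1 / 4)
    (Real.rpow_pos_of_pos (by norm_num) _) (by norm_num)
  set C20 : ℝ := Real.exp (20 * C9 * (T + 1)) with hC20
  have hC20p : 1 ≤ C20 := by
    rw [hC20, ← Real.exp_zero]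
    exact Real.exp_le_exp.2 (by positivity)
  refine ⟨Real.exp (CD * aD * T) * C20 ^ (1 / 4 : ℝ), min (min k1 kD) k2, by positivity,
    lt_min (lt_min hk1 hkD) hk2, lt_of_le_of_lt (min_le_right _ _) hk21, ?_⟩
  intro k hk hkk a a' ha ha0 ha' ha'1 L
  have hkk1 : k < k1 := hkk.trans_le ((min_le_left _ _).trans (min_le_left _ _))
  have hkkD : k < kD := hkk.trans_le ((min_le_left _ _).trans (min_le_right _ _))
  have hkk2 : k < k2 := hkk.trans_le (min_le_right _ _)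
  have hkl1 : k < 1 := hkk1.trans hk11
  obtain ⟨hB, hK⟩ := H2 k hk hkk2
  have hl1 : 1 ≤ ell k := (le_max_left _ _).trans hB
  have hl32 : 32 * q ≤ ell k := (le_max_right _ _).trans hB
  have hl0 : 0 < ell k := by linarith
  set S := PS2 d β k hβ hk.le with hS
  set s : ℝ := a' / ell k with hs
  have hs0 : 0 < s := by positivity
  have hsl : s * ell k ≤ 1 := by
    rw [hs, div_mul_cancel₀ _ hl0.ne']
    exact ha'1
  have hqs32 : 8 * q * (4 * s) ≤ 1 := by
    have h1 : 32 * q * s ≤ ell k * s := mul_le_mul_of_nonneg_right hl32 hs0.le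
    linarith
  have hqs : q * s ≤ 1 := by
    have : 0 ≤ q * s := by positivity
    linarith
  obtain ⟨h1, hh1, H3⟩ := H1 (Fam2 d β k) k S hk hkk1 bnoise2 (4 * s) (by positivity) hqs32
  obtain ⟨h2, hh2, H4⟩ := HD' k hk hkkD (2 * a) (by positivity) (by linarith) L
  refine ⟨min h1 h2, lt_min hh1 hh2, ?_⟩
  intro h hh hhh A ε f hA hε hm hb hf G y hGy n hn E hE
  have hhh1 : h < h1 := hhh.trans_le (min_le_left _ _)
  have hhh2 : h < h2 := hhh.trans_le (min_le_right _ _)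
  have hθ : 0 < a / ell k := by positivity
  have hX := Good2_trm S h L G n
  set Db : boxS d L → (ℕ → boxS d L → ℂ) → ℝ≥0∞ := fun x ω =>
    ENNReal.ofReal (‖(S.tr h L G ω n).1 x - (S.tr h L G ω n).2 x‖ ^ (a / ell k)) with hDb
  have hDbm : ∀ x, Measurable (Db x) := by
    intro x
    have h1 : Measurable (fun ω => (S.tr h L G ω n).1 x - (S.tr h L G ω n).2 x) :=
      ((measurable_pi_apply x).comp (measurable_fst.comp hX)).sub
        ((measurable_pi_apply x).comp (measurable_snd.comp hX))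
    exact (h1.norm.pow_const _).ennreal_ofReal
  have key := pair_est (PI (S.mu L)) k q s (Real.exp (-(a / 8))) (a / ell k) hk hkl1 hq1 hs0 hqs
    (Real.exp_pos _).le hθ A hA ε hε f hm hf hb (fun ω => S.tr h L G ω n) hX (S.alv h L G n) E
    (measurableSet_alv S h L G n) hE Db hDbm (fun ω _ x => le_rfl)
  refine key.trans (add_le_add ?_ le_rfl)
  refine Finset.sum_le_sum fun x _ => ?_
  -- fourth moment of the difference
  have hD4 : (∫⁻ ω in S.alv h L G n, Db x ω ^ 4 ∂(PI (S.mu L))) ^ (1 / 4 : ℝ) ≤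
      ENNReal.ofReal (Real.exp (CD * aD * T) * Real.exp (-(3 / 4 * a * (boxNet d L).dist x y)) *
        ‖G.1 y - G.2 y‖ ^ (a / ell k)) := by
    have e1 : ∫⁻ ω in S.alv h L G n, Db x ω ^ 4 ∂(PI (S.mu L)) ≤
        ENNReal.ofReal ((Real.exp (CD * aD * T) * Real.exp (-(3 / 4 * a * (boxNet d L).dist x y)) *
        ‖G.1 y - G.2 y‖ ^ (a / ell k)) ^ 4) := by
      refine (setLIntegral_le_lintegral _ _).trans ?_
      have e2 : ∀ ω, Db x ω ^ 4 = ENNReal.ofReal
          (‖(S.tr h L G ω n).1 x - (S.tr h L G ω n).2 x‖ ^ (2 * (2 * a / ell k))) := by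
        intro ω
        rw [hDb]
        simp only
        rw [← ENNReal.ofReal_pow (Real.rpow_nonneg (norm_nonneg _) _), ← Real.rpow_natCast,
          ← Real.rpow_mul (norm_nonneg _)]
        congr 2
        push_cast
        ring
      simp_rw [e2]
      refine (H4 h hh hhh2 G y hGy n hn x).trans (ENNReal.ofReal_le_ofReal ?_)
      have e3 : ‖G.1 y - G.2 y‖ ^ (2 * (2 * a / ell k)) = (‖G.1 y - G.2 y‖ ^ (a / ell k)) ^ 4 := by
        rw [← Real.rpow_natCast, ← Real.rpow_mul (norm_nonneg _)]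
        congr 1
        push_cast
        ring
      rw [e3, mul_pow, mul_pow, ← Real.exp_nat_mul, ← Real.exp_nat_mul]
      refine mul_le_mul_of_nonneg_right ?_ (by positivity)
      rw [← Real.exp_add, ← Real.exp_add]
      apply Real.exp_le_exp.2
      push_cast
      have h5 : CD * (2 * a) * T ≤ CD * aD * T := by
        have : 2 * a ≤ aD := by linarith
        gcongr
      have h6 : 0 ≤ CD * aD * T := by positivity
      linarith
    refine (ENNReal.rpow_le_rpow e1 (by norm_num)).trans (le_of_eq ?_)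
    rw [ENNReal.ofReal_rpow_of_nonneg (by positivity) (by norm_num), ← Real.rpow_natCast,
      ← Real.rpow_mul (by positivity)]
    norm_num
  have hW4 : (∫⁻ ω in S.alv h L G n, wpr (boxNet d L) k q s (Real.exp (-(a / 8)))
      (S.tr h L G ω n).1 (S.tr h L G ω n).2 x ^ 4 ∂(PI (S.mu L))) ^ (1 / 4 : ℝ) ≤
      ENNReal.ofReal (C20 ^ (1 / 4 : ℝ)) *
        wpr (boxNet d L) k q s (Real.exp (-(a / 8))) G.1 G.2 x := by
    have e6 : Real.exp (C9 * (4 * s / ell k + (4 * s) ^ 2) * (n * h)) ≤ C20 := by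
      rw [hC20]
      apply Real.exp_le_exp.2
      have h7 : (4 * s / ell k + (4 * s) ^ 2) * (n * h) ≤ 20 * (T + 1) := by
        have h8 : 4 * s / ell k = 4 * a' / ell k ^ 2 := by
          rw [hs]
          field_simp
        have h9 : (4 * s) ^ 2 = 16 * a' ^ 2 / ell k ^ 2 := by
          rw [hs]
          field_simp
          ring
        have h10 : (n : ℝ) * h ≤ (T + 1) * ell k ^ 2 := Good2_n8 hn hl1
        have h11 : 4 * s / ell k + (4 * s) ^ 2 ≤ 20 / ell k ^ 2 := by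
          rw [h8, h9, ← add_div]
          exact div_le_div_of_nonneg_right (Good2_n9 ha' ha'1) (by positivity)
        calc (4 * s / ell k + (4 * s) ^ 2) * (n * h)
            ≤ 20 / ell k ^ 2 * ((T + 1) * ell k ^ 2) := by
              apply mul_le_mul h11 h10 (by positivity) (by positivity)
          _ = 20 * (T + 1) := by field_simp
      calc C9 * (4 * s / ell k + (4 * s) ^ 2) * (n * h)
          = C9 * ((4 * s / ell k + (4 * s) ^ 2) * (n * h)) := by ring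
        _ ≤ C9 * (20 * (T + 1)) := mul_le_mul_of_nonneg_left h7 hC9.le
        _ = 20 * C9 * (T + 1) := by ring
    exact Good2_W4 S h L n k q s (Real.exp (-(a / 8))) C20 hC20p (Real.exp_pos _).le G
      (fun z => V_one_pair hk hkl1 hq1 hs0 (by rw [mul_comm]; exact hK) G z)
      (fun z => ⟨(H3 h hh hhh1 L G n z).1.trans (mul_le_mul' (ENNReal.ofReal_le_ofReal e6) le_rfl),
        (H3 h hh hhh1 L G n z).2.trans (mul_le_mul' (ENNReal.ofReal_le_ofReal e6) le_rfl)⟩) x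
  calc ENNReal.ofReal (4 * A x) * PI (S.mu L) E ^ (1 / 2 : ℝ) *
          (∫⁻ ω in S.alv h L G n, Db x ω ^ 4 ∂(PI (S.mu L))) ^ (1 / 4 : ℝ) *
          (∫⁻ ω in S.alv h L G n, wpr (boxNet d L) k q s (Real.exp (-(a / 8)))
            (S.tr h L G ω n).1 (S.tr h L G ω n).2 x ^ 4 ∂(PI (S.mu L))) ^ (1 / 4 : ℝ)
      ≤ ENNReal.ofReal (4 * A x) * PI (S.mu L) E ^ (1 / 2 : ℝ) *
          ENNReal.ofReal (Real.exp (CD * aD * T) *
            Real.exp (-(3 / 4 * a * (boxNet d L).dist x y)) * ‖G.1 y - G.2 y‖ ^ (a / ell k)) *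
          (ENNReal.ofReal (C20 ^ (1 / 4 : ℝ)) *
            wpr (boxNet d L) k q s (Real.exp (-(a / 8))) G.1 G.2 x) := by
        gcongr
    _ = _ := by
        rw [← mul_assoc, mul_assoc (_ * _) (ENNReal.ofReal _) (ENNReal.ofReal _),
          ← ENNReal.ofReal_mul (by positivity)]
        congr 3
        ring

/-- first moment of `wpr` -/
private theorem Good2_W1 {d : ℕ} {F : Fam d} {β k' : ℝ} (S : PSys F β k') (h : ℝ) (L n : ℕ)
    (k q s α C : ℝ) (G : (boxS d L → F.V) × (boxS d L → F.V))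
    (hV : ∀ z, ∫⁻ ω in S.alv h L G n, V1 k q s (S.tr h L G ω n) z ∂(PI (S.mu L)) ≤
        ENNReal.ofReal C * V1 k q s G z ∧
      ∫⁻ ω in S.alv h L G n, V2 k q s (S.tr h L G ω n) z ∂(PI (S.mu L)) ≤
        ENNReal.ofReal C * V2 k q s G z) (x : boxS d L) :
    ∫⁻ ω in S.alv h L G n, wpr (boxNet d L) k q s α
      (S.tr h L G ω n).1 (S.tr h L G ω n).2 x ∂(PI (S.mu L)) ≤
      ENNReal.ofReal C * wpr (boxNet d L) k q s α G.1 G.2 x := by
  have hX := Good2_trm S h L G n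
  have m1 : ∀ z, Measurable fun ω => V1 k q s (S.tr h L G ω n) z := fun z =>
    (measurable_V k q s z).1.comp hX
  have m2 : ∀ z, Measurable fun ω => V2 k q s (S.tr h L G ω n) z := fun z =>
    (measurable_V k q s z).2.comp hX
  have e1 : ∀ P : (boxS d L → F.V) × (boxS d L → F.V), wpr (boxNet d L) k q s α P.1 P.2 x =
      ∑ z, ENNReal.ofReal (α ^ (boxNet d L).dist x z) * (V1 k q s P z + V2 k q s P z) :=
    fun P => rfl
  have h3 : ∀ z, Measurable fun ω => V1 k q s (S.tr h L G ω n) z + V2 k q s (S.tr h L G ω n) z :=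
    fun z => (m1 z).add (m2 z)
  simp_rw [e1]
  rw [lintegral_finsetSum _ fun z _ => (h3 z).const_mul _, Finset.mul_sum]
  refine Finset.sum_le_sum fun z _ => ?_
  have e2 : ∫⁻ ω in S.alv h L G n, ENNReal.ofReal (α ^ (boxNet d L).dist x z) *
      (V1 k q s (S.tr h L G ω n) z + V2 k q s (S.tr h L G ω n) z) ∂(PI (S.mu L)) =
      ENNReal.ofReal (α ^ (boxNet d L).dist x z) *
        (∫⁻ ω in S.alv h L G n, V1 k q s (S.tr h L G ω n) z ∂(PI (S.mu L)) +
        ∫⁻ ω in S.alv h L G n, V2 k q s (S.tr h L G ω n) z ∂(PI (S.mu L))) := by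
    rw [lintegral_const_mul _ (h3 z), lintegral_add_left (m1 z)]
  rw [e2, mul_left_comm, mul_add (ENNReal.ofReal C)]
  exact mul_le_mul_right (add_le_add (hV z).1 (hV z).2) _

/-- integration of the bound at time `n` -/
private theorem Good2_int {d : ℕ} {F : Fam d} {β k' : ℝ} (S : PSys F β k') (h : ℝ) (L n : ℕ)
    (k q s α : ℝ) (G : (boxS d L → F.V) × (boxS d L → F.V)) (A' : boxS d L → ℝ≥0∞)
    (KB κL CW KE e1 : ℝ≥0∞) (W : boxS d L → ℝ≥0∞)
    (hW : ∀ x, ∫⁻ ω in S.alv h L G n, wpr (boxNet d L) k q s α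
      (S.tr h L G ω n).1 (S.tr h L G ω n).2 x ∂(PI (S.mu L)) ≤ W x) :
    ∫⁻ ω in S.alv h L G n, (∑ x, A' x * (KB * (κL * wpr (boxNet d L) k q s α
        (S.tr h L G ω n).1 (S.tr h L G ω n).2 x + CW) + KE * wpr (boxNet d L) k q s α
        (S.tr h L G ω n).1 (S.tr h L G ω n).2 x) +
        e1 * (1 + ENNReal.ofReal (∑ x, (‖(S.tr h L G ω n).1 x‖ + ‖(S.tr h L G ω n).2 x‖))))
        ∂(PI (S.mu L)) ≤
      ∑ x, A' x * (KB * (κL * W x + CW) + KE * W x) +
        e1 * (1 + ∫⁻ ω, ENNReal.ofReal (∑ x, (‖(S.tr h L G ω n).1 x‖ +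
          ‖(S.tr h L G ω n).2 x‖)) ∂(PI (S.mu L))) := by
  have hX := Good2_trm S h L G n
  have hw : ∀ x, Measurable fun ω => wpr (boxNet d L) k q s α
      (S.tr h L G ω n).1 (S.tr h L G ω n).2 x := by
    intro x
    have e1 : ∀ P : (boxS d L → F.V) × (boxS d L → F.V), wpr (boxNet d L) k q s α P.1 P.2 x =
        ∑ z, ENNReal.ofReal (α ^ (boxNet d L).dist x z) * (V1 k q s P z + V2 k q s P z) :=
      fun P => rfl
    simp_rw [e1]
    refine Finset.measurable_fun_sum _ fun z _ => Measurable.const_mul ?_ _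
    exact ((measurable_V k q s z).1.comp hX).add ((measurable_V k q s z).2.comp hX)
  have hS : Measurable fun ω => ENNReal.ofReal (∑ x, (‖(S.tr h L G ω n).1 x‖ +
      ‖(S.tr h L G ω n).2 x‖)) := by
    refine Measurable.ennreal_ofReal (Finset.measurable_fun_sum _ fun x _ => ?_)
    exact (((measurable_pi_apply x).comp (measurable_fst.comp hX)).norm).add
      (((measurable_pi_apply x).comp (measurable_snd.comp hX)).norm)
  have hone : PI (S.mu L) (S.alv h L G n) ≤ 1 := prob_le_one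
  have ht : ∀ x, Measurable fun ω => A' x * (KB * (κL * wpr (boxNet d L) k q s α
        (S.tr h L G ω n).1 (S.tr h L G ω n).2 x + CW) + KE * wpr (boxNet d L) k q s α
        (S.tr h L G ω n).1 (S.tr h L G ω n).2 x) := by
    intro x
    exact (((((hw x).const_mul _).add_const _).const_mul _).add ((hw x).const_mul _)).const_mul _
  rw [lintegral_add_left (Finset.measurable_fun_sum _ fun x _ => ht x)]
  refine add_le_add ?_ ?_
  · rw [lintegral_finsetSum _ fun x _ => ht x]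
    refine Finset.sum_le_sum fun x _ => ?_
    have m1 : Measurable fun ω => κL * wpr (boxNet d L) k q s α
        (S.tr h L G ω n).1 (S.tr h L G ω n).2 x := (hw x).const_mul _
    have m2 : Measurable fun ω => κL * wpr (boxNet d L) k q s α
        (S.tr h L G ω n).1 (S.tr h L G ω n).2 x + CW := m1.add_const _
    have m3 : Measurable fun ω => KB * (κL * wpr (boxNet d L) k q s α
        (S.tr h L G ω n).1 (S.tr h L G ω n).2 x + CW) := m2.const_mul _
    have m4 : Measurable fun ω => KB * (κL * wpr (boxNet d L) k q s α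
        (S.tr h L G ω n).1 (S.tr h L G ω n).2 x + CW) + KE * wpr (boxNet d L) k q s α
        (S.tr h L G ω n).1 (S.tr h L G ω n).2 x := m3.add ((hw x).const_mul _)
    rw [lintegral_const_mul _ m4, lintegral_add_left m3, lintegral_const_mul _ m2,
      lintegral_add_left m1, lintegral_const_mul _ (hw x), lintegral_const_mul _ (hw x),
      lintegral_const, Measure.restrict_apply_univ]
    gcongr
    · exact hW x
    · calc CW * PI (S.mu L) (S.alv h L G n) ≤ CW * 1 := mul_le_mul_right hone _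
        _ = CW := mul_one _
    · exact hW x
  · have m5 : Measurable fun ω => (1 : ℝ≥0∞) + ENNReal.ofReal (∑ x, (‖(S.tr h L G ω n).1 x‖ +
      ‖(S.tr h L G ω n).2 x‖)) := measurable_const.add hS
    rw [lintegral_const_mul _ m5]
    gcongr
    rw [lintegral_add_left measurable_const, lintegral_const, Measure.restrict_apply_univ, one_mul]
    exact add_le_add hone (setLIntegral_le_lintegral _ _)


private theorem Good2_r1 {Ax kc CE E1 Aθ K E2 KE E3 : ℝ} (hAx : 0 ≤ Ax) (hkc : 0 ≤ kc)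
    (hCE : 0 ≤ CE) (hE1 : 0 ≤ E1) (hAθ : 0 ≤ Aθ) (hK : 0 ≤ K) (hE2 : 0 ≤ E2) (hKE : 0 ≤ KE)
    (h1 : 8 * CE * kc ≤ KE) (h2 : E1 * E2 ≤ E3) {X W : ℝ≥0∞} (hX : X ≤ ENNReal.ofReal (2 * kc))
    (hW : W ≤ ENNReal.ofReal (K * E2)) :
    ENNReal.ofReal (4 * Ax) * X * ENNReal.ofReal (CE * E1 * Aθ) * W ≤
      ENNReal.ofReal (Ax * (KE * K * E3) * Aθ) := by
  calc ENNReal.ofReal (4 * Ax) * X * ENNReal.ofReal (CE * E1 * Aθ) * W
      ≤ ENNReal.ofReal (4 * Ax) * ENNReal.ofReal (2 * kc) * ENNReal.ofReal (CE * E1 * Aθ) *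
        ENNReal.ofReal (K * E2) := by gcongr
    _ = ENNReal.ofReal (4 * Ax * (2 * kc) * (CE * E1 * Aθ) * (K * E2)) := by
      rw [← ENNReal.ofReal_mul (by positivity), ← ENNReal.ofReal_mul (by positivity),
        ← ENNReal.ofReal_mul (by positivity)]
    _ ≤ _ := by
      refine ENNReal.ofReal_le_ofReal ?_
      calc 4 * Ax * (2 * kc) * (CE * E1 * Aθ) * (K * E2) =
          Ax * ((8 * CE * kc) * K * (E1 * E2)) * Aθ := by ring
        _ ≤ Ax * (KE * K * E3) * Aθ := by gcongr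

private theorem Good2_r2 {c D : ℝ} (hc : 0 ≤ c) (hD : 0 ≤ D) {I : ℝ≥0∞}
    (hI : I ≤ ENNReal.ofReal D) :
    ENNReal.ofReal c * (1 + 2 * I) ≤ ENNReal.ofReal (c * (1 + 2 * D)) := by
  rw [ENNReal.ofReal_mul hc, ENNReal.ofReal_add (by norm_num) (by positivity),
    ENNReal.ofReal_mul (p := 2) (by norm_num), ENNReal.ofReal_one, ENNReal.ofReal_ofNat]
  gcongr

private theorem Good2_r3 {c S : ℝ} (hc : 0 ≤ c) (hS : 0 ≤ S) :
    ENNReal.ofReal (c * (1 + S)) = ENNReal.ofReal c * (1 + ENNReal.ofReal S) := by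
  rw [ENNReal.ofReal_mul hc, ENNReal.ofReal_add (by norm_num) hS, ENNReal.ofReal_one]

private theorem Good2_r4 {c D : ℝ} (hc : 0 ≤ c) (hD : 0 ≤ D) {I : ℝ≥0∞}
    (hI : I ≤ ENNReal.ofReal D) :
    ENNReal.ofReal c * (1 + I) ≤ ENNReal.ofReal (c * (1 + D)) := by
  rw [Good2_r3 hc hD]
  gcongr

private theorem Good2_r4' {D : ℝ} {I : ℝ≥0∞}
    (hI : I ≤ ENNReal.ofReal D) : 2 * I ≤ ENNReal.ofReal (2 * D) := by
  rw [ENNReal.ofReal_mul (p := 2) (by norm_num), ENNReal.ofReal_ofNat]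
  gcongr

private theorem Good2_r5 {Ax E7 E8 E5 Aθ KB κL K CW KE : ℝ} (hAx : 0 ≤ Ax) (hE7 : 0 ≤ E7)
    (hAθ : 0 ≤ Aθ) (hKB : 0 ≤ KB) (hκL : 0 ≤ κL) (hK : 0 ≤ K) (hCW : 0 ≤ CW) (hKE : 0 ≤ KE)
    (h8 : 1 ≤ E8) (h78 : E7 * E8 = E5) :
    ENNReal.ofReal (Ax * E7 * Aθ) * (ENNReal.ofReal KB * (ENNReal.ofReal κL *
        ENNReal.ofReal (2 * (K * E8)) + ENNReal.ofReal CW) +
        ENNReal.ofReal KE * ENNReal.ofReal (2 * (K * E8))) ≤
      ENNReal.ofReal (Ax * ((KB * (2 * κL * K + CW) + 2 * KE * K) * E5) * Aθ) := by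
  have hE8 : 0 ≤ E8 := by linarith
  rw [← ENNReal.ofReal_mul hκL, ← ENNReal.ofReal_add (by positivity) hCW,
    ← ENNReal.ofReal_mul hKB, ← ENNReal.ofReal_mul hKE,
    ← ENNReal.ofReal_add (by positivity) (by positivity),
    ← ENNReal.ofReal_mul (by positivity)]
  refine ENNReal.ofReal_le_ofReal ?_
  calc Ax * E7 * Aθ * (KB * (κL * (2 * (K * E8)) + CW) + KE * (2 * (K * E8)))
      ≤ Ax * E7 * Aθ * (KB * (κL * (2 * (K * E8)) + CW * E8) + KE * (2 * (K * E8))) := by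
        gcongr
        exact le_mul_of_one_le_right hCW h8
    _ = Ax * ((KB * (2 * κL * K + CW) + 2 * KE * K) * (E7 * E8)) * Aθ := by ring
    _ = _ := by rw [h78]

private theorem Good2_r6 {x n1 n2 e1 e2 e3 : ℝ} (hn1 : 0 ≤ n1) (hn2 : 0 ≤ n2) (he1 : 0 ≤ e1)
    (he2 : 0 ≤ e2) (he3 : 0 ≤ e3)
    (h : ENNReal.ofReal x ≤ ENNReal.ofReal (n1 + e1) + ENNReal.ofReal (n2 + e2) +
      ENNReal.ofReal e3) : x ≤ n1 + e1 + (n2 + e2) + e3 := by
  rw [← ENNReal.ofReal_add (by positivity) (by positivity),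
    ← ENNReal.ofReal_add (by positivity) (by positivity)] at h
  exact (ENNReal.ofReal_le_ofReal_iff (by positivity)).1 h

private theorem Good2_r7 {ι : Type*} [Fintype ι] (A E : ι → ℝ) {Aθ X Y : ℝ} (hA : ∀ x, 0 ≤ A x)
    (hE : ∀ x, 0 ≤ E x) (hAθ : 0 ≤ Aθ) (hX : 0 ≤ X) :
    ∑ x, A x * (X * E x) * Aθ + ∑ x, A x * ((Y + 2 * X) * E x) * Aθ ≤
      (∑ x, A x * ((Y + 4 * X) * E x)) * Aθ := by
  rw [← Finset.sum_add_distrib, Finset.sum_mul]
  refine Finset.sum_le_sum fun x _ => ?_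
  have hAx := hA x
  have hEx := hE x
  have h1 : 0 ≤ A x * (X * E x) * Aθ := by positivity
  calc A x * (X * E x) * Aθ + A x * ((Y + 2 * X) * E x) * Aθ
      ≤ A x * (X * E x) * Aθ + A x * ((Y + 2 * X) * E x) * Aθ + A x * (X * E x) * Aθ :=
        le_add_of_nonneg_right h1
    _ = _ := by ring

private theorem Good2_r8 {cd ε Cl Sg0 ε1 CLm : ℝ} (hcd : 0 ≤ cd) (hε : 0 ≤ ε) (hCl : 1 ≤ Cl)
    (hSg : 0 ≤ Sg0) (hε1 : 0 < ε1) (hCLm : 1 ≤ CLm) :
    2 * cd * ε * (1 + 2 * (Cl * Sg0)) + 2 * (ε1 / 8 * (1 + Sg0)) +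
      (CLm * ε + ε1 / (2 * Cl)) * (1 + Cl * Sg0) + 2 * (ε1 / 8 * (1 + Sg0)) ≤
      ((CLm * Cl + 4 * cd * Cl) * ε + ε1) * (1 + Sg0) := by
  have hCl0 : 0 < Cl := by linarith
  have hcl : 0 ≤ CLm * ε + ε1 / (2 * Cl) := by
    have : 0 ≤ CLm := by linarith
    positivity
  have h1 : 1 + 2 * (Cl * Sg0) ≤ 2 * Cl * (1 + Sg0) := by nlinarith
  have h2 : 1 + Cl * Sg0 ≤ Cl * (1 + Sg0) := by nlinarith
  have h3 : 2 * cd * ε * (1 + 2 * (Cl * Sg0)) ≤ 2 * cd * ε * (2 * Cl * (1 + Sg0)) :=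
    mul_le_mul_of_nonneg_left h1 (by positivity)
  have h4 := mul_le_mul_of_nonneg_left h2 hcl
  have h5 : (CLm * ε + ε1 / (2 * Cl)) * (Cl * (1 + Sg0)) =
      CLm * Cl * ε * (1 + Sg0) + ε1 / 2 * (1 + Sg0) := by
    field_simp
  rw [h5] at h4
  linarith

private theorem Good2_r9 {k cb : ℝ} (hk : 0 < k) {X : ℝ≥0∞}
    (hX : X ≤ ENNReal.ofReal (4 * k ^ cb)) :
    X ^ (1 / 2 : ℝ) ≤ ENNReal.ofReal (2 * k ^ (cb / 2)) := by
  refine (ENNReal.rpow_le_rpow hX (by norm_num)).trans (le_of_eq ?_)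
  rw [ENNReal.ofReal_rpow_of_nonneg (by positivity) (by norm_num)]
  congr 1
  rw [Real.mul_rpow (by norm_num) (by positivity), ← Real.rpow_mul hk.le,
    show (4 : ℝ) = 2 ^ (2 : ℝ) by norm_num, ← Real.rpow_mul (by norm_num)]
  norm_num
  congr 1
  ring

private theorem Good2_KB {d : ℕ} {C C5 a T M κ3 κd sw p : ℝ} {Rb : ℕ} (hC : 1 ≤ C)
    (hκd : 0 < κd) : 0 ≤ KB2 d C C5 a T M κ3 κd sw p Rb := by
  have hC0 : 0 < C := by linarith
  unfold KB2 KBr pBr
  positivity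

private theorem Good2_KE {d : ℕ} {C C5 c3 a a' T M s0 κ κd p : ℝ} {Rb : ℕ} (hC : 1 ≤ C)
    (hC5 : 1 ≤ C5) (hT : 2 ≤ T) (hM : 1 ≤ M) (hκ : 0 < κ) (hκd : 0 < κd) (hp : 0 < p)
    (hp2 : p ≤ 1 / 2) : 0 < KE2 d C C5 c3 a a' T M s0 κ κd p Rb := by
  have hC0 : 0 < C := by linarith
  have hlog : 0 ≤ Real.log (1 / p) := Real.log_nonneg (by rw [le_div_iff₀ hp]; linarith)
  have h1 : 0 < pPr d c3 C5 T M s0 κ κd p Rb := by
    unfold pPr
    have h2 : 0 ≤ C5 * (T + M + Rb + Real.log (1 / p)) := by positivity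
    positivity
  unfold KE2
  positivity

private theorem Good2_low_mono {d L : ℕ} {k M M' s0 s0' : ℝ} (hk : 0 < k) (hk1 : k ≤ 1)
    (hM : M ≤ M') (hs : s0 ≤ s0') (u : boxS d L → ℝ) (y : boxS d L) (h : LowR k u M s0 y) :
    LowR k u M' s0' y := by
  intro v
  obtain ⟨z, hz⟩ := h v
  refine ⟨z, le_trans (Real.rpow_le_rpow_of_exponent_ge hk hk1 ?_) hz⟩
  have : (0 : ℝ) ≤ ((boxNet d L).dist v y : ℝ) := Nat.cast_nonneg _
  nlinarith

private theorem Good2_caps_mono {d L : ℕ} {k ε ε' : ℝ} (hk : 0 < k) (hk1 : k ≤ 1)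
    (hε : ε ≤ ε') (u t : boxS d L → ℝ) (hut : ∀ v, u v ≤ t v) (y : boxS d L)
    (h : Caps k t ε y) : Caps k u ε' y := by
  intro v
  refine (hut v).trans ((h v).trans (Real.rpow_le_rpow_of_exponent_ge hk hk1 ?_))
  have : (0 : ℝ) ≤ ((boxNet d L).dist v y : ℝ) := Nat.cast_nonneg _
  nlinarith

theorem good2 (d : ℕ) (hd : 1 ≤ d) (β : ℝ) (hβ : 0 < β) : ∃ q0 : ℝ, 1 ≤ q0 ∧ ∀ q, q0 ≤ q →
    ∃ (C a0 c3 C5 s1 : ℝ) (Ls : ℕ), 1 ≤ C ∧ 0 < a0 ∧ 0 < c3 ∧ 1 ≤ C5 ∧ 0 < s1 ∧ s1 ≤ 1 / 16 ∧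
    ∀ (a a' T K κ κ3 κd sw p : ℝ) (Rb : ℕ), 1 ≤ K →
      Par2 d C C5 a0 s1 a a' T (7 * Real.log K / a' + 3) (a / a') κ κ3 κd sw p Rb →
    ∃ k0 : ℝ, 0 < k0 ∧ k0 < 1 ∧ ∀ (k : ℝ) (hk : 0 < k), k < k0 → ∀ L : ℕ, Ls ≤ L →
    ∀ κL CW : ℝ, 0 ≤ κL → 0 ≤ CW →
    (∃ h1 : ℝ, 0 < h1 ∧ ∀ h, 0 < h → h < h1 → ∀ (G : (boxS d L → ℂ) × (boxS d L → ℂ)) (n : ℕ),
      (T - 3 / 2) * ell k ^ 2 ≤ n * h → n * h ≤ (T + 1 / 2) * ell k ^ 2 → ∀ x,
      ∫⁻ ω in (PS2 d β k hβ hk.le).alv h L G n,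
          wpr (boxNet d L) k q (a' / ell k) (Real.exp (-(a / 8)))
            ((PS2 d β k hβ hk.le).tr h L G ω n).1 ((PS2 d β k hβ hk.le).tr h L G ω n).2 x
          ∂(PI ((PS2 d β k hβ hk.le).mu L)) ≤
        ENNReal.ofReal κL * wpr (boxNet d L) k q (a' / ell k) (Real.exp (-(a / 8))) G.1 G.2 x +
          ENNReal.ofReal CW) →
    ∃ CL : ℝ, 1 ≤ CL ∧ ∀ ε1 : ℝ, 0 < ε1 → ∃ h0 : ℝ, 0 < h0 ∧ ∀ h, 0 < h → h < h0 →
    ∀ (A : boxS d L → ℝ) (ε : ℝ) (f : (boxS d L → ℂ) → ℂ), (∀ x, 0 ≤ A x) → 0 ≤ ε →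
      Measurable f → (∀ G, ‖f G‖ ≤ 1) →
      Cls (boxNet d L) k q (a' / ell k) (Real.exp (-(a / 8))) (a / ell k) A ε f →
    ∀ (G G' : boxS d L → ℂ) (y : boxS d L), (∀ x, x ≠ y → G x = G' x) →
      wpr (boxNet d L) k q (a' / ell k) (Real.exp (-(a / 8))) G G' y < ENNReal.ofReal K →
      ‖(Fam2 d β k).Pn h L ⌈(T + 1) * ell k ^ 2 / h⌉₊ f G -
          (Fam2 d β k).Pn h L ⌈(T + 1) * ell k ^ 2 / h⌉₊ f G'‖ ≤
        (∑ x, A x * ((KB2 d C C5 a T (7 * Real.log K / a' + 3) κ3 κd sw p Rb *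
              (2 * κL * K + CW) +
            4 * KE2 d C C5 c3 a a' T (7 * Real.log K / a' + 3) (a / a') κ κd p Rb * K) *
          Real.exp (-(5 / 16 * a * (boxNet d L).dist x y)))) * ‖G y - G' y‖ ^ (a / ell k) +
          (CL * ε + ε1) * (1 + ∑ x, (‖G x‖ + ‖G' x‖)) := by
  obtain ⟨qm, hqm, Hmid⟩ := mid2 d hd β hβ
  obtain ⟨qb, hqb, Hbad⟩ := Good2_bad d β hβ
  obtain ⟨qE, aE, hqE, haE, HE⟩ := Good2_E d β hβ
  obtain ⟨qs, hqs, Hs⟩ := sm_multi 2 d β le_rfl hβ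
  refine ⟨max (max qm qb) (max qE qs), hqm.trans ((le_max_left _ _).trans (le_max_left _ _)), ?_⟩
  intro q hq
  have hqm' : qm ≤ q := ((le_max_left _ _).trans (le_max_left _ _)).trans hq
  have hqb' : qb ≤ q := ((le_max_right _ _).trans (le_max_left _ _)).trans hq
  have hqE' : qE ≤ q := ((le_max_left _ _).trans (le_max_right _ _)).trans hq
  have hqs' : qs ≤ q := ((le_max_right _ _).trans (le_max_right _ _)).trans hq
  have hq1 : 1 ≤ q := hqm.trans hqm'
  obtain ⟨C, a0, c3, C5, s1, Ls, hC, ha0, hc3, hC5, hs1, hs11, HM⟩ := Hmid q hqm'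
  obtain ⟨C9, ks, hC9, hks, hks1, Hs1⟩ := Hs q hqs'
  refine ⟨C, min a0 aE, c3, C5, s1, Ls, hC, lt_min ha0 haE, hc3, hC5, hs1, hs11, ?_⟩
  intro a a' T K κ κ3 κd sw p Rb hK hPar
  have hPar' : Par2 d C C5 a0 s1 a a' T (7 * Real.log K / a' + 3) (a / a') κ κ3 κd sw p Rb := by
    obtain ⟨h1, h2, h3⟩ := hPar
    exact ⟨h1, h2.trans (min_le_left _ _), h3⟩
  obtain ⟨ε0, km, hε0, hkm, hkm1, HM1⟩ := HM a a' T _ _ κ κ3 κd sw p Rb hPar'
  obtain ⟨ha, haa, ha', ha'1, hT, hM1, hs0, hs0s, hκ, -, -, -, -, hκd, -, -, -, -, -, -, hp,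
    hp2⟩ := hPar
  have haaE : a ≤ aE := haa.trans (min_le_right _ _)
  have hKE : 0 < KE2 d C C5 c3 a a' T (7 * Real.log K / a' + 3) (a / a') κ κd p Rb :=
    Good2_KE hC hC5 hT hM1 hκ hκd hp hp2
  have hKB : 0 ≤ KB2 d C C5 a T (7 * Real.log K / a' + 3) κ3 κd sw p Rb := Good2_KB hC hκd
  set KE : ℝ := KE2 d C C5 c3 a a' T (7 * Real.log K / a' + 3) (a / a') κ κd p Rb with hKEd
  set KB : ℝ := KB2 d C C5 a T (7 * Real.log K / a' + 3) κ3 κd sw p Rb with hKBd
  have hK0 : 0 < K := by linarith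
  have hlK : 0 ≤ Real.log K := Real.log_nonneg hK
  set ε2 : ℝ := a / (200 * a') with hε2
  have hε2p : 0 < ε2 := by positivity
  set ε3 : ℝ := min ε0 (min ε2 (1 / 8)) with hε3
  have hε3p : 0 < ε3 := lt_min hε0 (lt_min hε2p (by norm_num))
  obtain ⟨cb, kb, hcb, hkb, hkb1, Hb1⟩ := Hbad q hqb' ε2 ε3 hε2p hε3p
  obtain ⟨CE, kE, hCE, hkE, hkE1, HE1⟩ := HE q hqE' (T + 1) (by linarith)
  obtain ⟨kp, hkp, hkp1, Hp⟩ := Good2_small (max (8 * q) (max 1 (8 * C9))) (8 * CE / KE) (cb / 2)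
    (by positivity) (by positivity)
  refine ⟨min (min km ks) (min (min kb kE) kp),
    lt_min (lt_min hkm hks) (lt_min (lt_min hkb hkE) hkp),
    lt_of_le_of_lt ((min_le_left _ _).trans (min_le_left _ _)) hkm1, ?_⟩
  intro k hk hkk L hL κL CW hκL hCW hdrift
  have hkkm : k < km := hkk.trans_le ((min_le_left _ _).trans (min_le_left _ _))
  have hkks : k < ks := hkk.trans_le ((min_le_left _ _).trans (min_le_right _ _))
  have hkkb : k < kb :=
    hkk.trans_le ((min_le_right _ _).trans ((min_le_left _ _).trans (min_le_left _ _)))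
  have hkkE : k < kE :=
    hkk.trans_le ((min_le_right _ _).trans ((min_le_left _ _).trans (min_le_right _ _)))
  have hkkp : k < kp := hkk.trans_le ((min_le_right _ _).trans (min_le_right _ _))
  have hk1 : k < 1 := hkkm.trans hkm1
  obtain ⟨hB, hKk⟩ := Hp k hk hkkp
  have hl8 : 8 * q ≤ ell k := (le_max_left _ _).trans hB
  have hl1 : 1 ≤ ell k := ((le_max_left _ _).trans (le_max_right _ _)).trans hB
  have hl9 : 8 * C9 ≤ ell k := ((le_max_right _ _).trans (le_max_right _ _)).trans hB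
  have hl0 : 0 < ell k := by linarith
  set S := PS2 d β k hβ hk.le with hS
  set s : ℝ := a' / ell k with hs
  have hsp : 0 < s := by positivity
  set θ : ℝ := a / ell k with hθ
  have hqs1 : 8 * q * s ≤ 1 := by
    rw [hs, mul_div_assoc', div_le_one hl0]
    exact Good2_n1 hl8 hq1 ha'1
  obtain ⟨CLm, hCLm, HM2⟩ := HM1 k hk hkkm L hL κL CW hκL hCW hdrift
  obtain ⟨hl2, hTl⟩ := Good2_n2 hT hl1
  have hSm : 0 ≤ (T + 1) * ell k ^ 2 + 2 := by positivity
  obtain ⟨Cl, hl0', hCl, hhl0, Hl⟩ := lin_sum 2 hβ hk.le S bnoise2 L ((T + 1) * ell k ^ 2 + 2) hSm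
  set cd : ℝ := (Fintype.card (boxS d L) : ℝ) with hcd
  have hcd0 : 0 ≤ cd := Nat.cast_nonneg _
  have hCl0 : 0 < Cl := by linarith
  refine ⟨CLm * Cl + 4 * cd * Cl, ?_, ?_⟩
  · have h1 : 1 ≤ CLm * Cl := Good2_n5 hCLm hCl
    have h2 : 0 ≤ 4 * cd * Cl := by positivity
    linarith
  intro ε1 hε1
  obtain ⟨hm0, hhm0, HM3⟩ := HM2 (ε1 / (2 * Cl)) (by positivity)
  obtain ⟨he0, hhe0, He⟩ := exit_bd 2 hβ hk.le S bnoise2 L ((T + 1) * ell k ^ 2 + 2) (ε1 / 8) hSm
    (by positivity)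
  obtain ⟨hb0, hhb0, Hb⟩ := Hb1 k hk hkkb L
  obtain ⟨hE0, hhE0, HE2⟩ := HE1 k hk hkkE a a' ha haaE ha' ha'1 L
  obtain ⟨hs0', hhs0, Hs2⟩ := Hs1 (Fam2 d β k) k S hk hkks bnoise2 s hsp hqs1
  refine ⟨min 1 (min (min hl0' hm0) (min (min he0 hb0) (min hE0 hs0'))), by positivity, ?_⟩
  intro h hh hhh A ε f hA hε hm hb hf G G' y hGG hwK
  have hh1 : h < 1 := hhh.trans_le (min_le_left _ _)
  have hhl : h < hl0' := hhh.trans_le
    ((min_le_right _ _).trans ((min_le_left _ _).trans (min_le_left _ _)))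
  have hhm : h < hm0 := hhh.trans_le
    ((min_le_right _ _).trans ((min_le_left _ _).trans (min_le_right _ _)))
  have hhe : h < he0 := hhh.trans_le
    ((min_le_right _ _).trans ((min_le_right _ _).trans ((min_le_left _ _).trans (min_le_left _ _))))
  have hhb : h < hb0 := hhh.trans_le
    ((min_le_right _ _).trans ((min_le_right _ _).trans ((min_le_left _ _).trans (min_le_right _ _))))
  have hhE : h < hE0 := hhh.trans_le
    ((min_le_right _ _).trans ((min_le_right _ _).trans ((min_le_right _ _).trans (min_le_left _ _))))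
  have hhs : h < hs0' := hhh.trans_le
    ((min_le_right _ _).trans ((min_le_right _ _).trans ((min_le_right _ _).trans (min_le_right _ _))))
  -- times
  set n0 : ℕ := ⌈1 / h⌉₊ with hn0
  set nB : ℕ := ⌈(T + 1) * ell k ^ 2 / h⌉₊ with hnB
  have t1 : 1 ≤ n0 * h := by
    have := Nat.le_ceil (1 / h)
    rwa [div_le_iff₀ hh] at this
  have t2 : n0 * h ≤ 1 + h := by
    have h1 := (Nat.ceil_lt_add_one (show 0 ≤ 1 / h by positivity)).le
    have h2 := mul_le_mul_of_nonneg_right h1 hh.le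
    rw [add_mul, one_mul, one_div_mul_cancel hh.ne'] at h2
    exact h2
  have t3 : (T + 1) * ell k ^ 2 ≤ nB * h := by
    have := Nat.le_ceil ((T + 1) * ell k ^ 2 / h)
    rwa [div_le_iff₀ hh] at this
  have t4 : nB * h ≤ (T + 1) * ell k ^ 2 + h := by
    have h1 := (Nat.ceil_lt_add_one (show 0 ≤ (T + 1) * ell k ^ 2 / h by positivity)).le
    have h2 := mul_le_mul_of_nonneg_right h1 hh.le
    have h3 : ((T + 1) * ell k ^ 2 / h + 1) * h = (T + 1) * ell k ^ 2 + h := by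
      field_simp
    rw [h3] at h2
    exact h2
  have t5 : n0 ≤ nB := by
    exact Nat.ceil_mono (div_le_div_of_nonneg_right hTl hh.le)
  have t6 : n0 + (nB - n0) = nB := Nat.add_sub_cancel' t5
  have t7 : ((nB - n0 : ℕ) : ℝ) = (nB : ℝ) - n0 := Nat.cast_sub t5
  set m : ℕ := nB - n0 with hmd
  set P : (boxS d L → ℂ) × (boxS d L → ℂ) := (G, G') with hP
  set A0 : ℝ := ‖G y - G' y‖ with hA0
  have hA00 : 0 ≤ A0 := norm_nonneg _
  -- weights
  have hW0 : ∀ x, wpr (boxNet d L) k q s (Real.exp (-(a / 8))) P.1 P.2 x ≤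
      ENNReal.ofReal (K * Real.exp (a / 8 * (boxNet d L).dist x y)) := by
    intro x
    refine (DynG.wpr_shift k q s a ha.le P.1 P.2 x y).trans ?_
    rw [mul_comm K, ENNReal.ofReal_mul (Real.exp_pos _).le]
    exact mul_le_mul_right hwK.le _
  have hVle : ∀ z, V1 k q s P z ≤ ENNReal.ofReal (Real.exp (a' * (Real.log K / a' +
      a / (8 * a') * (boxNet d L).dist z y))) ∧ V2 k q s P z ≤ ENNReal.ofReal (Real.exp (a' *
      (Real.log K / a' + a / (8 * a') * (boxNet d L).dist z y))) := by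
    intro z
    have e1 : ENNReal.ofReal (Real.exp (a / 8 * (boxNet d L).dist z y)) * ENNReal.ofReal K =
        ENNReal.ofReal (Real.exp (a' * (Real.log K / a' +
          a / (8 * a') * (boxNet d L).dist z y))) := by
      rw [← ENNReal.ofReal_mul (Real.exp_pos _).le]
      congr 1
      have e2 : a' * (Real.log K / a' + a / (8 * a') * (boxNet d L).dist z y) =
          a / 8 * (boxNet d L).dist z y + Real.log K := by
        field_simp
        ring
      rw [e2, Real.exp_add, Real.exp_log hK0]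
    have e3 := DynG.V_le_wpr k q s a P z y
    rw [← e1]
    exact ⟨e3.1.trans (mul_le_mul_right hwK.le _), e3.2.trans (mul_le_mul_right hwK.le _)⟩
  have hM'0 : 0 ≤ Real.log K / a' := by positivity
  have hs'0 : 0 ≤ a / (8 * a') := by positivity
  have pot1 : PotGe k q (nrm P.1) (fun v => nrm P.1 v + nrm P.2 v) (Real.log K / a')
      (a / (8 * a')) y := potGe_of_V hk hk1 ha' _ _ y fun v => (hVle v).1
  have pot2 : PotGe k q (nrm P.2) (fun v => nrm P.1 v + nrm P.2 v) (Real.log K / a')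
      (a / (8 * a')) y := potGe_of_V hk hk1 ha' _ _ y fun v => (hVle v).2
  set Bd : Set ((boxS d L → ℂ) × (boxS d L → ℂ)) :=
    Good2Bad k q (Real.log K / a' + ε2) (a / (8 * a') + ε2) ε3 A0 y with hBd
  have hBdm : MeasurableSet Bd := Good2_measBad _ _ _ _ _ _ _
  have hbadP : PI (S.mu L) (S.alv h L P n0 ∩ {ω | S.tr h L P ω n0 ∈ Bd}) ≤
      ENNReal.ofReal (4 * k ^ cb) :=
    Hb h hh hhb P y n0 t1 (by linarith) hGG (Real.log K / a') (a / (8 * a')) hM'0 hs'0 pot1 pot2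
  have hsplit := Good2_split S h L n0 m f hm hb P Bd hBdm
  rw [t6] at hsplit
  have hXn := Good2_trm S h L P n0
  have hE1m : MeasurableSet (S.alv h L P n0 ∩ {ω | S.tr h L P ω n0 ∈ Bd}) :=
    (measurableSet_alv S h L P n0).inter (hXn hBdm)
  have hE2m : MeasurableSet (S.alv h L P n0 \ {ω | S.tr h L P ω n0 ∈ Bd}) :=
    (measurableSet_alv S h L P n0).diff (hXn hBdm)
  set Sg0 : ℝ := ∑ x, (‖G x‖ + ‖G' x‖) with hSg0
  have hSg00 : 0 ≤ Sg0 := Finset.sum_nonneg fun x _ => add_nonneg (norm_nonneg _) (norm_nonneg _)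
  have hlin : ∀ j : ℕ, j * h ≤ (T + 1) * ell k ^ 2 + 2 →
      ∫⁻ ω, ENNReal.ofReal (∑ x, (‖(S.tr h L P ω j).1 x‖ + ‖(S.tr h L P ω j).2 x‖))
        ∂(PI (S.mu L)) ≤ ENNReal.ofReal (Cl * Sg0) := fun j hj => Hl h hh hhl P j hj
  have hexit : ∀ j : ℕ, j * h ≤ (T + 1) * ell k ^ 2 + 2 →
      PI (S.mu L) (S.alv h L P j)ᶜ ≤ ENNReal.ofReal (ε1 / 8 * (1 + Sg0)) :=
    fun j hj => He h hh hhe P j hj
  -- the bad event
  have part1 : ∫⁻ ω in S.alv h L P n0 ∩ {ω | S.tr h L P ω n0 ∈ Bd},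
          ENNReal.ofReal ‖f (S.tr h L P ω nB).1 - f (S.tr h L P ω nB).2‖ ∂(PI (S.mu L)) ≤
      ENNReal.ofReal (∑ x, A x * (KE * K * Real.exp (-(5 / 16 * a * (boxNet d L).dist x y))) *
        A0 ^ θ + (2 * cd * ε * (1 + 2 * (Cl * Sg0)) + 2 * (ε1 / 8 * (1 + Sg0)))) := by
    refine (HE2 h hh hhE A ε f hA hε hm hb hf P y hGG nB (by linarith) _ hE1m).trans ?_
    rw [ENNReal.ofReal_add (Finset.sum_nonneg fun x _ => by have := hA x; positivity)
      (by positivity), ENNReal.ofReal_sum_of_nonneg (fun x _ => by have := hA x; positivity),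
      ENNReal.ofReal_add (by positivity) (by positivity)]
    refine add_le_add (Finset.sum_le_sum fun x _ => ?_) (add_le_add ?_ ?_)
    · have hr : (0 : ℝ) ≤ ((boxNet d L).dist x y : ℝ) := Nat.cast_nonneg _
      have e2 : 8 * CE * k ^ (cb / 2) ≤ KE := by
        have e3 := mul_le_mul_of_nonneg_right hKk hKE.le
        have e4 : 8 * CE / KE * k ^ (cb / 2) * KE = 8 * CE * k ^ (cb / 2) := by
          field_simp
        rw [e4, one_mul] at e3
        exact e3
      have e5 : Real.exp (-(3 / 4 * a * (boxNet d L).dist x y)) *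
          Real.exp (a / 8 * (boxNet d L).dist x y) ≤
          Real.exp (-(5 / 16 * a * (boxNet d L).dist x y)) := by
        rw [← Real.exp_add]
        apply Real.exp_le_exp.2
        have : 0 ≤ a * ((boxNet d L).dist x y : ℝ) := by positivity
        linarith
      exact Good2_r1 (hA x) (Real.rpow_nonneg hk.le _) hCE.le (Real.exp_pos _).le
        (Real.rpow_nonneg hA00 _) hK0.le (Real.exp_pos _).le hKE.le e2 e5
        (Good2_r9 hk hbadP) (hW0 x)
    · exact Good2_r2 (by positivity) (by positivity) (hlin nB (by linarith))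
    · exact Good2_r4' (hexit nB (by linarith))
  -- the good event
  have part2 : ∫⁻ ω in S.alv h L P n0 \ {ω | S.tr h L P ω n0 ∈ Bd},
          ENNReal.ofReal ‖(Fam2 d β k).Pn h L m f (S.tr h L P ω n0).1 -
            (Fam2 d β k).Pn h L m f (S.tr h L P ω n0).2‖ ∂(PI (S.mu L)) ≤
      ENNReal.ofReal (∑ x, A x * ((KB * (2 * κL * K + CW) + 2 * KE * K) *
        Real.exp (-(5 / 16 * a * (boxNet d L).dist x y))) *
        A0 ^ θ + (CLm * ε + ε1 / (2 * Cl)) * (1 + Cl * Sg0)) := by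
    have hcl : 0 ≤ CLm * ε + ε1 / (2 * Cl) := by
      have : 0 ≤ CLm := by linarith
      positivity
    have hpt : ∀ ω ∈ S.alv h L P n0 \ {ω | S.tr h L P ω n0 ∈ Bd},
        ENNReal.ofReal ‖(Fam2 d β k).Pn h L m f (S.tr h L P ω n0).1 -
            (Fam2 d β k).Pn h L m f (S.tr h L P ω n0).2‖ ≤
        ∑ x, ENNReal.ofReal (A x * Real.exp (-(7 / 16 * a * (boxNet d L).dist x y)) * A0 ^ θ) *
          (ENNReal.ofReal KB * (ENNReal.ofReal κL * wpr (boxNet d L) k q s (Real.exp (-(a / 8)))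
              (S.tr h L P ω n0).1 (S.tr h L P ω n0).2 x + ENNReal.ofReal CW) +
            ENNReal.ofReal KE * wpr (boxNet d L) k q s (Real.exp (-(a / 8)))
              (S.tr h L P ω n0).1 (S.tr h L P ω n0).2 x) +
          ENNReal.ofReal (CLm * ε + ε1 / (2 * Cl)) *
            (1 + ENNReal.ofReal (∑ x, (‖(S.tr h L P ω n0).1 x‖ + ‖(S.tr h L P ω n0).2 x‖))) := by
      rintro ω ⟨-, hω⟩
      have hω' : PotGe k q (nrm (S.tr h L P ω n0).1)
          (fun v => nrm (S.tr h L P ω n0).1 v + nrm (S.tr h L P ω n0).2 v)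
            (Real.log K / a' + ε2) (a / (8 * a') + ε2) y ∧
          PotGe k q (nrm (S.tr h L P ω n0).2)
            (fun v => nrm (S.tr h L P ω n0).1 v + nrm (S.tr h L P ω n0).2 v)
            (Real.log K / a' + ε2) (a / (8 * a') + ε2) y ∧
          Caps k (fun v => ‖(S.tr h L P ω n0).1 v‖ + ‖(S.tr h L P ω n0).2 v‖) ε3 y ∧
          ∀ v, ‖(S.tr h L P ω n0).1 v - (S.tr h L P ω n0).2 v‖ ≤
            A0 * k ^ (-(1 / 4) + 11 / 16 * ((boxNet d L).dist y v : ℝ)) := by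
        by_contra hc
        exact hω hc
      obtain ⟨g1, g2, g3, g4⟩ := hω'
      have e8 : ε3 ≤ 1 / 8 := (min_le_right _ _).trans (min_le_right _ _)
      have e9 : ε3 ≤ ε2 := (min_le_right _ _).trans (min_le_left _ _)
      have e10 : ε3 ≤ ε0 := min_le_left _ _
      have e11 : 7 * (Real.log K / a' + ε2) + 1 ≤ 7 * Real.log K / a' + 3 := by
        have : ε2 ≤ 1 / 16 := by
          have h1 : ε2 = a / a' / 200 := by rw [hε2]; field_simp
          rw [h1]
          linarith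
        have h2 : 7 * Real.log K / a' = 7 * (Real.log K / a') := by ring
        rw [h2]
        linarith
      have e12 : 7 * (a / (8 * a') + ε2) + 6 * ε3 ≤ a / a' := by
        have h1 : ε2 = a / a' / 200 := by rw [hε2]; field_simp
        have h2 : a / (8 * a') = a / a' / 8 := by field_simp
        rw [h2]
        have h3 : 0 ≤ a / a' := hs0
        rw [h1] at e9 ⊢
        linarith
      have low1 := Good2_low_mono hk hk1.le e11 e12 _ y
        (low_of_pot hk hk1 (by linarith) (by positivity) (by positivity) hε3p e8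
          (nrm (S.tr h L P ω n0).1)
          (fun v => nrm (S.tr h L P ω n0).1 v + nrm (S.tr h L P ω n0).2 v)
          (fun v => norm_nonneg _) (fun v => le_add_of_nonneg_right (norm_nonneg _)) y g1 g3)
      have low2 := Good2_low_mono hk hk1.le e11 e12 _ y
        (low_of_pot hk hk1 (by linarith) (by positivity) (by positivity) hε3p e8
          (nrm (S.tr h L P ω n0).2)
          (fun v => nrm (S.tr h L P ω n0).1 v + nrm (S.tr h L P ω n0).2 v)
          (fun v => norm_nonneg _) (fun v => le_add_of_nonneg_left (norm_nonneg _)) y g2 g3)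
      have cap1 : Caps k (nrm (S.tr h L P ω n0).1) ε0 y :=
        Good2_caps_mono hk hk1.le e10 _ _ (fun v => le_add_of_nonneg_right (norm_nonneg _)) y g3
      have cap2 : Caps k (nrm (S.tr h L P ω n0).2) ε0 y :=
        Good2_caps_mono hk hk1.le e10 _ _ (fun v => le_add_of_nonneg_left (norm_nonneg _)) y g3
      refine (HM3 h hh hhm A ε f hA hε hm hb hf (S.tr h L P ω n0) y A0 hA00 low1 low2 cap1 cap2
        g4 m ?_ ?_).trans (add_le_add le_rfl (le_of_eq ?_))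
      · rw [t7, sub_mul]
        linarith
      · rw [t7, sub_mul]
        linarith
      · have hsum : (0 : ℝ) ≤ ∑ x, (‖(S.tr h L P ω n0).1 x‖ + ‖(S.tr h L P ω n0).2 x‖) :=
          Finset.sum_nonneg fun x _ => add_nonneg (norm_nonneg _) (norm_nonneg _)
        exact Good2_r3 hcl hsum
    refine (setLIntegral_mono' hE2m hpt).trans ?_
    refine (lintegral_mono_set Set.sdiff_subset).trans ?_
    have hfac : Real.exp (C9 * (s / ell k + s ^ 2) * (n0 * h)) ≤ 2 := by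
      have h1 : C9 * (s / ell k + s ^ 2) * (n0 * h) ≤ 1 / 2 := by
        have h2 : s / ell k + s ^ 2 ≤ 2 / ell k ^ 2 := by
          have h3 : s / ell k = a' / ell k ^ 2 := by rw [hs]; field_simp
          have h4 : s ^ 2 = a' ^ 2 / ell k ^ 2 := by rw [hs]; field_simp
          rw [h3, h4, ← add_div]
          exact div_le_div_of_nonneg_right (Good2_n3 ha' ha'1) (by positivity)
        calc C9 * (s / ell k + s ^ 2) * (n0 * h) ≤ C9 * (2 / ell k ^ 2) * 2 := by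
              have h5 : (n0 : ℝ) * h ≤ 2 := by linarith
              have h6 : 0 ≤ (n0 : ℝ) * h := by positivity
              exact mul_le_mul (mul_le_mul_of_nonneg_left h2 hC9.le) h5 h6 (by positivity)
          _ = 4 * C9 / ell k ^ 2 := by ring
          _ ≤ 1 / 2 := by
              rw [div_le_iff₀ (by positivity)]
              exact Good2_n4 hl9 hl1
      have h7 : Real.exp (1 / 2) ≤ 2 := by
        have h8 : (1 : ℝ) / 2 ≤ Real.log 2 := by
          have := Real.log_two_gt_d9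
          linarith
        calc Real.exp (1 / 2) ≤ Real.exp (Real.log 2) := Real.exp_le_exp.2 h8
          _ = 2 := Real.exp_log (by norm_num)
      exact (Real.exp_le_exp.2 h1).trans h7
    have hWx : ∀ x, ∫⁻ ω in S.alv h L P n0, wpr (boxNet d L) k q s (Real.exp (-(a / 8)))
        (S.tr h L P ω n0).1 (S.tr h L P ω n0).2 x ∂(PI (S.mu L)) ≤
        ENNReal.ofReal (2 * (K * Real.exp (a / 8 * (boxNet d L).dist x y))) := by
      intro x
      refine (Good2_W1 S h L n0 k q s (Real.exp (-(a / 8))) 2 P (fun z =>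
        ⟨(Hs2 h hh hhs L P n0 z).1.trans (mul_le_mul' (ENNReal.ofReal_le_ofReal hfac) le_rfl),
        (Hs2 h hh hhs L P n0 z).2.trans (mul_le_mul' (ENNReal.ofReal_le_ofReal hfac) le_rfl)⟩)
        x).trans ?_
      rw [ENNReal.ofReal_mul (p := 2) (by norm_num)]
      exact mul_le_mul_right (hW0 x) _
    refine (Good2_int S h L n0 k q s (Real.exp (-(a / 8))) P _ _ _ _ _ _ _ hWx).trans ?_
    rw [ENNReal.ofReal_add (Finset.sum_nonneg fun x _ => by have := hA x; positivity)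
      (by positivity), ENNReal.ofReal_sum_of_nonneg (fun x _ => by have := hA x; positivity)]
    refine add_le_add (Finset.sum_le_sum fun x _ => ?_) ?_
    · have hr : (0 : ℝ) ≤ ((boxNet d L).dist x y : ℝ) := Nat.cast_nonneg _
      have e1 : 1 ≤ Real.exp (a / 8 * (boxNet d L).dist x y) := by
        rw [← Real.exp_zero]
        exact Real.exp_le_exp.2 (by positivity)
      have e2 : Real.exp (-(7 / 16 * a * (boxNet d L).dist x y)) *
          Real.exp (a / 8 * (boxNet d L).dist x y) =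
          Real.exp (-(5 / 16 * a * (boxNet d L).dist x y)) := by
        rw [← Real.exp_add]
        congr 1
        ring
      exact Good2_r5 (hA x) (Real.exp_pos _).le (Real.rpow_nonneg hA00 _) hKB hκL hK0.le hCW
        hKE.le e1 e2
    · exact Good2_r4 hcl (by positivity) (hlin n0 (by linarith))
  have part3 : 2 * PI (S.mu L) (S.alv h L P n0)ᶜ ≤ ENNReal.ofReal (2 * (ε1 / 8 * (1 + Sg0))) :=
    Good2_r4' (hexit n0 (by linarith))
  have htot := hsplit.trans (add_le_add (add_le_add part1 part2) part3)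
  have hcl : 0 ≤ CLm * ε + ε1 / (2 * Cl) := by
    have : 0 ≤ CLm := by linarith
    positivity
  have hreal := Good2_r6 (Finset.sum_nonneg fun x _ => mul_nonneg (mul_nonneg (hA x)
    (mul_nonneg (mul_nonneg hKE.le hK0.le) (Real.exp_pos _).le)) (Real.rpow_nonneg hA00 _))
    (Finset.sum_nonneg fun x _ => mul_nonneg (mul_nonneg (hA x)
    (mul_nonneg (by positivity) (Real.exp_pos _).le)) (Real.rpow_nonneg hA00 _))
    (by positivity) (by positivity) (by positivity) htot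
  refine hreal.trans ?_
  have hmain := Good2_r7 A (fun x => Real.exp (-(5 / 16 * a * (boxNet d L).dist x y)))
    (Aθ := A0 ^ θ) (X := KE * K) (Y := KB * (2 * κL * K + CW)) hA
    (fun x => (Real.exp_pos _).le) (Real.rpow_nonneg hA00 _) (by positivity)
  have herr := Good2_r8 (cd := cd) (ε := ε) (Cl := Cl) (Sg0 := Sg0) (ε1 := ε1) (CLm := CLm) hcd0
    hε hCl hSg00 hε1 hCLm
  simp only [← mul_assoc] at hmain herr ⊢
  linarith

end DynC
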