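import Pool.Agent.Lib_MP_36b788c.Unit

/-!
# Decay of the potential over a block: reduction to the main estimate

`MEst`: main estimate from a reference site `z` with height at least `X0`, potential level `PL = dist x z/4 - g(X0) ≥ M0`.

PROOF of `ly_red`. `s = a/ell`, `K_a = e^{a M0*}` with `M0* = M0 + M0' + 10` (below). All bounds for `k` small, then `h` small. `C` depends on `a, T0` only.
1. `untame_time`: `n'` with `1 ≤ n' h ≤ 3` and untame part of `V1(tr n') x` at most `C k^{β/16} ell V1 G x`. By `alv_markov` and `sm_multi` (`(n-n') h ≤ T0 ts + 1`, growth `e^C`), the contribution of untame states at time `n'` to `∫_{alv n} V1(tr n)` is `≤ (a/100) V1 G x`.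
2. A state `G'` at time `n'` (norms `≤ rad`), tame: maximizer `z` of `Tz … x ·` with `SSt(z) < 2`. If `V1 G' x ≤ K_a`: `sm_multi` gives a contribution `≤ e^C K_a`, into `Ca`. Otherwise (`V1 G' x < ∞`, `u z > 0`) put `X_z = log‖G'.1 z‖/ell < 1/16` (`k^{1/16} u z + 1 ≤ SSt z < 2`), `PL = dist x z/4 - g(X_z)`, `V1 G' x = e^{a PL} SSt(z)^{q s}`, so `e^{a PL} ≤ V1 G' x ≤ 2^{qs} e^{a PL}`.
   Profile: for all `v`, `Tz v ≤ Tz z` gives `fpot(u v) ≤ k^{(dist x z - dist x v)/4} (SSt v/SSt z)^q fpot(u z) ≤ k^{-dist z v/4} 2^{q dist z v} fpot(u z)`, `u v ≤ k^{-1/4} fpot(u v)`, so `u v ≤ k^{-(X_z + 1/4 + (3/8) dist z v)}` (`2^q ≤ k^{-1/8}`).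
3. Deep case `X_z ≤ -Md` (`Md`, `M0`, `ε0` from `HM` with `M = 1`): `MEst` from time `n'` with reference site `z`: contribution `≤ (1 - a/2) e^{a PL} + (a/100) V1 G' x ≤ (1 - a/2 + a/100) V1 G' x`.
4. Shallow case `-Md < X_z < 1/16`: `n'' = n' + ⌈1/h⌉`. `M0', Md', ε0'` from `HM` with `M = Md + 3`. `ε = 1/100`. From time `n'` (state `G'`): `PotGe k q … (ε - g(X_z)) (1/4) z` holds (`Tz z` at `v`: `k^{dist v z/4} fpot(u z) SSt(z)^{-q}`), `pot_prob` gives at time `n''`, outside probability `k^c` (on `alv`), `PotGe` with `(2ε - g(X_z), 1/4 + ε)`, in particular some `z'` with `k^{dist z z'/4} fpot(u'' z') ≥ k^{2ε - g(X_z)}`;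
   `caps_prob`: `Caps` with `ε1` around `z` outside `k^c`. Hence `fpot(u'' z') ≤ max 1 (u'' z') ≤ k^{-ε1(1+dist z z')}`, `dist z z' ≤ 5(Md+2)` (`g(X_z) ≥ -Md - 1/4`), `X0 := log(u'' z')/ell ≤ 1/8`, `g(X0) ≥ g(X_z) + dist z z'/4 - 2ε`, `X0 ≥ g(X0) ≥ -Md - 1`; caps around `z'` with `ε0' ` if `ε1(1 + 5(Md+2)) ≤ ε0'`; profile with `M = Md + 3` from the caps. `PL'' = dist x z'/4 - g(X0) ≤ PL + 2ε`.
   If `PL'' < M0'`: `V1(tr n'') x ≤ e^{a PL''} SSt(z')^{qs} ≤ 2 e^{a M0'}`, contribution into `Ca` (`sm_multi`). Otherwise `MEst` from time `n''`: `≤ (1 - a/2) e^{a PL + 2aε} + (a/100) V1(tr n'') x`, and `∫ V1(tr n'') x ≤ e^{small} V1 G' x` (`sm_multi`). Exceptional events of probability `p ≤ k^c` at time `n''`: contribution `≤ (∫_{alv n} V1² )^{1/2} p^{1/2} ≤ e^C V1 G' x k^{c/2}` (`V_sq`, `sm_multi` with `2s`, Markov).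
5. Sum: `≤ (1 - a/2 + 4a/100 + a/50 + …) ∫_{alv n'} V1(tr n') x + Ca + (a/100) V1 G x`, `∫_{alv n'} V1(tr n') x ≤ e^{3 C9 (s/ell + s²)} V1 G x ≤ (1 + a/100) V1 G x`. Total `≤ (1 - a/4) V1 G x + Ca`.
-/

open MeasureTheory ProbabilityTheory
open scoped ENNReal

namespace DynC

open Dyn

variable {d : ℕ}

/-- main estimate for the block, reference site `z` -/
def MEst (N : ℕ) {F : Fam d} {β k : ℝ} (S : PSys F β k) (q a T0 M M0 Md ε0 : ℝ) (L : ℕ) (h : ℝ) :
    Prop :=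
  ∀ m : ℕ, T0 * ts N k - 5 ≤ m * h → m * h ≤ T0 * ts N k + 5 →
  ∀ (G : (boxS d L → F.V) × (boxS d L → F.V)) (x z : boxS d L) (X0 : ℝ),
    X0 ≤ 1 / 8 → k ^ (-X0) ≤ ‖G.1 z‖ → M0 ≤ (boxNet d L).dist x z / 4 - gX X0 →
    (∀ v, ‖G.1 v‖ ≤ k ^ (-(X0 + M + (boxNet d L).dist z v / 2))) →
    (Caps k (nrm G.1) ε0 z ∨ X0 ≤ -Md) →
    ∫⁻ ω in S.alv h L G m, V1 k q (a / ell k) (S.tr h L G ω m) x ∂(PI (S.mu L)) ≤
      ENNReal.ofReal ((1 - a / 2) * Real.exp (a * ((boxNet d L).dist x z / 4 - gX X0))) +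
        ENNReal.ofReal (a / 100) * V1 k q (a / ell k) G x

/-! ### real functions -/

private theorem LYr_rp {k : ℝ} (hk : 0 < k) (x : ℝ) : k ^ x = Real.exp (-(ell k * x)) := by
  unfold ell
  rw [Real.rpow_def_of_pos hk, one_div, Real.log_inv]
  congr 1
  ring

private theorem LYr_rp_le {k : ℝ} (hk : 0 < k) (hk1 : k < 1) {x y : ℝ} : k ^ x ≤ k ^ y ↔ y ≤ x := by
  rw [LYr_rp hk, LYr_rp hk, Real.exp_le_exp]
  have := ell_pos hk hk1
  constructor
  · intro h
    by_contra hc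
    push Not at hc
    nlinarith
  · intro h
    nlinarith

private theorem LYr_log {k v : ℝ} (hk : 0 < k) (hk1 : k < 1) (hv : 0 < v) :
    v = k ^ (-(Real.log v / ell k)) := by
  have h1 := ell_pos hk hk1
  rw [LYr_rp hk]
  have h2 : -(ell k * -(Real.log v / ell k)) = Real.log v := by field_simp
  rw [h2, Real.exp_log hv]

private theorem LYr_fpot {k v : ℝ} (hk : 0 < k) (hv : 0 < v) :
    fpot k v = k ^ (-gX (Real.log v / ell k)) := by
  unfold fpot
  rw [if_neg (not_le.2 hv), LYr_rp hk]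
  congr 1
  ring

private theorem LYr_gX16 {X : ℝ} (h : X ≤ 1 / 16) : gX X ≤ -(3 / 16) := by
  have h1 := gX_mono h
  have h2 : gX (1 / 16) = -(3 / 16) := by
    unfold gX
    norm_num
  rw [h2] at h1
  exact h1

section nets
variable {ι : Type} [Fintype ι] (net : Net ι d)

private theorem LYr_Tz {k q : ℝ} (hk : 0 < k) (u t : ι → ℝ) (x z : ι) (hu : 0 < u z) :
    Tz net k q u t x z =
      k ^ ((net.dist x z : ℝ) / 4 - gX (Real.log (u z) / ell k)) * SSt net k t z ^ (-q) := by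
  unfold Tz
  rw [LYr_fpot hk hu, ← Real.rpow_natCast, ← Real.rpow_mul hk.le, ← Real.rpow_add hk]
  congr 2
  ring

private theorem LYr_Vp {k q a : ℝ} (hk : 0 < k) (hk1 : k < 1) (u t : ι → ℝ)
    (ht : ∀ y, 0 ≤ t y) (x z : ι)
    (hz : ∀ y, Tz net k q u t x y ≤ Tz net k q u t x z) (hu : 0 < u z) :
    Vp net k q (a / ell k) u t x =
      ENNReal.ofReal (Real.exp (a * ((net.dist x z : ℝ) / 4 - gX (Real.log (u z) / ell k))) *
        SSt net k t z ^ (q * (a / ell k))) := by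
  have hl := ell_pos hk hk1
  have hS := SSt_one net hk t ht z
  have hS0 : 0 < SSt net k t z := by linarith
  have hp : 0 < k ^ ((net.dist x z : ℝ) / 4 - gX (Real.log (u z) / ell k)) := Real.rpow_pos_of_pos hk _
  have hp2 : 0 < SSt net k t z ^ (-q) := Real.rpow_pos_of_pos hS0 _
  rw [Vp_argmax net k q _ u t x z hz, LYr_Tz net hk u t x z hu,
    ENNReal.ofReal_rpow_of_pos (mul_pos hp hp2)]
  congr 1
  rw [Real.mul_rpow hp.le hp2.le, ← Real.rpow_mul hk.le, ← Real.rpow_mul hS0.le, LYr_rp hk]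
  congr 2
  · field_simp
  · ring

private theorem LYr_Vtop {k q a : ℝ} (hk : 0 < k) (hk1 : k < 1) (ha : 0 < a) (u t : ι → ℝ)
    (x z : ι) (hz : ∀ y, Tz net k q u t x y ≤ Tz net k q u t x z) (hu : u z ≤ 0) :
    Vp net k q (a / ell k) u t x = ⊤ := by
  have hl := ell_pos hk hk1
  rw [Vp_argmax net k q _ u t x z hz]
  have h1 : Tz net k q u t x z = 0 := by
    unfold Tz fpot
    rw [if_pos hu]
    ring
  rw [h1, ENNReal.ofReal_zero, ENNReal.zero_rpow_of_neg]
  have : 0 < a / ell k := by positivity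
  linarith

/-- height of a tame maximizer -/
private theorem LYr_tame {k : ℝ} (hk : 0 < k) (hk1 : k < 1) (u t : ι → ℝ)
    (hut : ∀ y, u y ≤ t y) (ht : ∀ y, 0 ≤ t y) (z : ι) (hu : 0 < u z)
    (hS : SSt net k t z < 2) : Real.log (u z) / ell k < 1 / 16 := by
  have hl := ell_pos hk hk1
  have h1 := le_SSt net hk t ht z
  have h2 : k ^ (1 / 16 : ℝ) * u z < 1 := by
    have h3 : k ^ (1 / 16 : ℝ) * u z ≤ k ^ (1 / 16 : ℝ) * t z :=
      mul_le_mul_of_nonneg_left (hut z) (Real.rpow_pos_of_pos hk _).le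
    linarith
  by_contra hc
  push Not at hc
  have h4 : k ^ (1 / 16 : ℝ) * u z = k ^ (1 / 16 - Real.log (u z) / ell k) := by
    conv_lhs => rw [LYr_log hk hk1 hu]
    rw [← Real.rpow_add hk]
    congr 1
  rw [h4] at h2
  have h5 : (1 : ℝ) ≤ k ^ (1 / 16 - Real.log (u z) / ell k) := by
    calc (1 : ℝ) = k ^ (0 : ℝ) := (Real.rpow_zero k).symm
      _ ≤ _ := (LYr_rp_le hk hk1).2 (by linarith)
  linarith

/-- profile around a maximizer -/
private theorem LYr_prof {k q : ℝ} (hk : 0 < k) (hk1 : k < 1) (hq : 0 ≤ q)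
    (hkq : (2 : ℝ) ^ q ≤ k ^ (-(1 / 8 : ℝ))) (u t : ι → ℝ)
    (hu0 : ∀ y, 0 ≤ u y) (ht : ∀ y, 0 ≤ t y) (x z : ι)
    (hz : ∀ y, Tz net k q u t x y ≤ Tz net k q u t x z) (hu : 0 < u z) (v : ι) :
    u v ≤ k ^ (-(Real.log (u z) / ell k + 1 + (net.dist z v : ℝ) / 2)) := by
  have hl := ell_pos hk hk1
  rcases (hu0 v).lt_or_eq with hv | hv
  swap
  · rw [← hv]
    exact (Real.rpow_pos_of_pos hk _).le
  have hSz := SSt_one net hk t ht z
  have hSv := SSt_one net hk t ht v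
  have hSz0 : 0 < SSt net k t z := by linarith
  have hSv0 : 0 < SSt net k t v := by linarith
  have hd := SSt_dist net hk t ht v z
  have hT := hz v
  rw [LYr_Tz net hk u t x z hu, LYr_Tz net hk u t x v hv] at hT
  -- T v * S(v)^q
  have h1 : k ^ ((net.dist x v : ℝ) / 4 - gX (Real.log (u v) / ell k)) ≤
      k ^ ((net.dist x z : ℝ) / 4 - gX (Real.log (u z) / ell k)) *
        (SSt net k t z ^ (-q) * SSt net k t v ^ q) := by
    have h2 : SSt net k t v ^ (-q) * SSt net k t v ^ q = 1 := by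
      rw [← Real.rpow_add hSv0]
      simp
    calc k ^ ((net.dist x v : ℝ) / 4 - gX (Real.log (u v) / ell k))
        = k ^ ((net.dist x v : ℝ) / 4 - gX (Real.log (u v) / ell k)) *
          (SSt net k t v ^ (-q) * SSt net k t v ^ q) := by rw [h2, mul_one]
      _ = k ^ ((net.dist x v : ℝ) / 4 - gX (Real.log (u v) / ell k)) * SSt net k t v ^ (-q) *
          SSt net k t v ^ q := by ring
      _ ≤ k ^ ((net.dist x z : ℝ) / 4 - gX (Real.log (u z) / ell k)) * SSt net k t z ^ (-q) *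
          SSt net k t v ^ q := mul_le_mul_of_nonneg_right hT (Real.rpow_pos_of_pos hSv0 _).le
      _ = _ := by ring
  have h3 : SSt net k t z ^ (-q) * SSt net k t v ^ q ≤ k ^ (-((net.dist z v : ℝ) / 8)) := by
    have h4 : SSt net k t v ^ q ≤ ((2 : ℝ) ^ net.dist v z * SSt net k t z) ^ q :=
      Real.rpow_le_rpow hSv0.le hd hq
    rw [Real.mul_rpow (by positivity) hSz0.le] at h4
    have h5 : ((2 : ℝ) ^ net.dist v z) ^ q = ((2 : ℝ) ^ q) ^ net.dist v z := by
      rw [← Real.rpow_natCast, ← Real.rpow_natCast, ← Real.rpow_mul (by norm_num),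
        ← Real.rpow_mul (by norm_num), mul_comm]
    have h6 : ((2 : ℝ) ^ q) ^ net.dist v z ≤ (k ^ (-(1 / 8 : ℝ))) ^ net.dist v z :=
      pow_le_pow_left₀ (by positivity) hkq _
    have h7 : (k ^ (-(1 / 8 : ℝ))) ^ net.dist v z = k ^ (-((net.dist z v : ℝ) / 8)) := by
      rw [← Real.rpow_natCast, ← Real.rpow_mul hk.le, net.dist_comm v z]
      congr 1
      ring
    calc SSt net k t z ^ (-q) * SSt net k t v ^ q
        ≤ SSt net k t z ^ (-q) * (((2 : ℝ) ^ net.dist v z) ^ q * SSt net k t z ^ q) :=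
          mul_le_mul_of_nonneg_left h4 (Real.rpow_pos_of_pos hSz0 _).le
      _ = (SSt net k t z ^ (-q) * SSt net k t z ^ q) * ((2 : ℝ) ^ net.dist v z) ^ q := by ring
      _ = ((2 : ℝ) ^ net.dist v z) ^ q := by
          rw [← Real.rpow_add hSz0]
          simp
      _ ≤ _ := by rw [h5]; exact h6.trans (le_of_eq h7)
  have h8 : k ^ ((net.dist x v : ℝ) / 4 - gX (Real.log (u v) / ell k)) ≤
      k ^ ((net.dist x z : ℝ) / 4 - gX (Real.log (u z) / ell k) - (net.dist z v : ℝ) / 8) := by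
    refine h1.trans ((mul_le_mul_of_nonneg_left h3 (Real.rpow_pos_of_pos hk _).le).trans ?_)
    rw [← Real.rpow_add hk]
    exact le_of_eq (by congr 1)
  rw [LYr_rp_le hk hk1] at h8
  conv_lhs => rw [LYr_log hk hk1 hv]
  rw [LYr_rp_le hk hk1]
  have g1 := gX_ge (Real.log (u v) / ell k)
  have g2 := gX_le (Real.log (u z) / ell k)
  have h9 : (net.dist x v : ℝ) ≤ net.dist x z + net.dist z v := by exact_mod_cast net.dist_tri x z v
  have h10 : (0 : ℝ) ≤ net.dist z v := Nat.cast_nonneg _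
  linarith

end nets

/-- a new reference site after one unit of time -/
private theorem LYr_good {L : ℕ} {k q ε0 ε1 M1 X : ℝ} (hk : 0 < k) (hk1 : k < 1) (hq : 0 ≤ q)
    (u t : boxS d L → ℝ) (hu0 : ∀ y, 0 ≤ u y) (hut : ∀ y, u y ≤ t y) (x z : boxS d L)
    (hM1 : 0 ≤ M1) (hX : -M1 < X) (hε1 : 0 < ε1) (hε2 : ε1 ≤ 1 / 20)
    (hε3 : ε1 * (1 + 5 * (M1 + 2)) ≤ 1 / 8) (hε4 : ε1 * (1 + 5 * (M1 + 2)) ≤ ε0)
    (hP : PotGe k q u t (1 / 100 - gX X + 1 / 100) (1 / 4 + 1 / 100) z) (hC : Caps k t ε1 z) :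
    ∃ (z' : boxS d L) (X0 : ℝ), X0 ≤ 1 / 8 ∧ k ^ (-X0) ≤ u z' ∧
      ((boxNet d L).dist x z' : ℝ) / 4 - gX X0 ≤ (boxNet d L).dist x z / 4 - gX X + 1 / 50 ∧
      ((boxNet d L).dist x z : ℝ) / 4 - gX X - (9 / 4 * M1 + 3) ≤
        (boxNet d L).dist x z' / 4 - gX X0 ∧
      (∀ v, u v ≤ k ^ (-(X0 + (M1 + 3) + ((boxNet d L).dist z' v : ℝ) / 2))) ∧
      Caps k u ε0 z' := by
  have ht : ∀ y, 0 ≤ t y := fun y => (hu0 y).trans (hut y)
  obtain ⟨z', hz'⟩ := hP z
  rw [(boxNet d L).dist_self] at hz'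
  have hu : 0 < u z' := by
    by_contra hc
    push Not at hc
    have h1 : Tz (boxNet d L) k q u t z z' = 0 := by
      unfold Tz fpot
      rw [if_pos hc]
      ring
    rw [h1] at hz'
    have h2 := Real.rpow_pos_of_pos hk (1 / 100 - gX X + 1 / 100 + (1 / 4 + 1 / 100) * ((0 : ℕ) : ℝ))
    linarith
  set X0 := Real.log (u z') / ell k with hX0
  have hS := SSt_one (boxNet d L) hk t ht z'
  have hT : Tz (boxNet d L) k q u t z z' ≤ k ^ (((boxNet d L).dist z z' : ℝ) / 4 - gX X0) := by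
    rw [LYr_Tz (boxNet d L) hk u t z z' hu]
    refine mul_le_of_le_one_right (Real.rpow_pos_of_pos hk _).le ?_
    rw [Real.rpow_neg (by linarith)]
    exact inv_le_one_of_one_le₀ (Real.one_le_rpow hS hq)
  have e1 := hz'.trans hT
  rw [LYr_rp_le hk hk1, Nat.cast_zero, mul_zero, add_zero] at e1
  have e2 : X0 ≤ ε1 * (1 + (boxNet d L).dist z' z) := by
    have h1 := (hut z').trans (hC z')
    rw [LYr_log hk hk1 hu, LYr_rp_le hk hk1] at h1
    linarith
  have hdc : ((boxNet d L).dist z' z : ℝ) = (boxNet d L).dist z z' := by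
    rw [(boxNet d L).dist_comm]
  rw [hdc] at e2
  have hD0 : (0 : ℝ) ≤ (boxNet d L).dist z z' := Nat.cast_nonneg _
  have gl := gX_le X0
  have gg := gX_ge X
  have hD : ((boxNet d L).dist z z' : ℝ) ≤ 5 * (M1 + 2) := by nlinarith
  have e3 : X0 ≤ ε1 * (1 + 5 * (M1 + 2)) := e2.trans (mul_le_mul_of_nonneg_left (by linarith) hε1.le)
  have e4 : X0 ≤ 1 / 8 := e3.trans hε3
  have hεε : ε1 ≤ ε0 := by nlinarith
  have hcap : ∀ v, u v ≤ k ^ (-(ε1 * (1 + 5 * (M1 + 2)) + ε1 * (boxNet d L).dist v z')) := by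
    intro v
    refine ((hut v).trans (hC v)).trans ?_
    rw [LYr_rp_le hk hk1]
    have h1 : ((boxNet d L).dist v z : ℝ) ≤ (boxNet d L).dist v z' + (boxNet d L).dist z' z := by
      exact_mod_cast (boxNet d L).dist_tri v z' z
    rw [hdc] at h1
    nlinarith
  refine ⟨z', X0, e4, ?_, ?_, ?_, ?_, ?_⟩
  · exact le_of_eq (LYr_log hk hk1 hu).symm
  · have h1 : ((boxNet d L).dist x z' : ℝ) ≤ (boxNet d L).dist x z + (boxNet d L).dist z z' := by
      exact_mod_cast (boxNet d L).dist_tri x z z'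
    linarith
  · have h1 : ((boxNet d L).dist x z : ℝ) ≤ (boxNet d L).dist x z' + (boxNet d L).dist z' z := by
      exact_mod_cast (boxNet d L).dist_tri x z' z
    rw [hdc] at h1
    linarith
  · intro v
    refine (hcap v).trans ?_
    rw [LYr_rp_le hk hk1]
    have h1 : ((boxNet d L).dist v z' : ℝ) = (boxNet d L).dist z' v := by
      rw [(boxNet d L).dist_comm]
    have h2 : (0 : ℝ) ≤ (boxNet d L).dist z' v := Nat.cast_nonneg _
    rw [h1]
    nlinarith
  · intro v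
    refine (hcap v).trans ?_
    rw [LYr_rp_le hk hk1]
    have h2 : (0 : ℝ) ≤ (boxNet d L).dist v z' := Nat.cast_nonneg _
    nlinarith

/-- the potential is large around a tame maximizer -/
private theorem LYr_pot {L : ℕ} {k q : ℝ} (hk : 0 < k) (hk1 : k < 1) (hq : 0 ≤ q)
    (hkq : (2 : ℝ) ^ q ≤ k ^ (-(1 / 100 : ℝ))) (u t : boxS d L → ℝ)
    (ht : ∀ y, 0 ≤ t y) (z : boxS d L) (hu : 0 < u z)
    (hS : SSt (boxNet d L) k t z < 2) :
    PotGe k q u t (1 / 100 - gX (Real.log (u z) / ell k)) (1 / 4) z := by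
  intro v
  refine ⟨z, ?_⟩
  rw [LYr_Tz (boxNet d L) hk u t v z hu]
  have hS1 := SSt_one (boxNet d L) hk t ht z
  have hS0 : 0 < SSt (boxNet d L) k t z := by linarith
  have h1 : k ^ (1 / 100 : ℝ) ≤ SSt (boxNet d L) k t z ^ (-q) := by
    have h2 : SSt (boxNet d L) k t z ^ q ≤ k ^ (-(1 / 100 : ℝ)) :=
      (Real.rpow_le_rpow hS0.le hS.le hq).trans hkq
    have h3 : 0 < SSt (boxNet d L) k t z ^ q := Real.rpow_pos_of_pos hS0 _
    rw [Real.rpow_neg hS0.le, le_inv_comm₀ (Real.rpow_pos_of_pos hk _) h3, ← Real.rpow_neg hk.le]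
    exact h2
  calc k ^ (1 / 100 - gX (Real.log (u z) / ell k) + 1 / 4 * ((boxNet d L).dist v z : ℝ))
      = k ^ (((boxNet d L).dist v z : ℝ) / 4 - gX (Real.log (u z) / ell k)) * k ^ (1 / 100 : ℝ) := by
        rw [← Real.rpow_add hk]
        congr 1
        ring
    _ ≤ _ := mul_le_mul_of_nonneg_left h1 (Real.rpow_pos_of_pos hk _).le


/-! ### integrals -/

private theorem LYr_split {Ω : Type} [MeasurableSpace Ω] (μ : Measure Ω) [IsFiniteMeasure μ]
    (A U : Set Ω) (hA : MeasurableSet A) (Φ Ψ : Ω → ℝ≥0∞) (h : ∀ ω ∈ A, ω ∉ U → Φ ω ≤ Ψ ω) :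
    ∫⁻ ω in A, Φ ω ∂μ ≤ ∫⁻ ω in A ∩ U, Φ ω ∂μ + ∫⁻ ω in A, Ψ ω ∂μ := by
  have hB : MeasurableSet (toMeasurable μ (A ∩ U)) := measurableSet_toMeasurable μ _
  rw [← lintegral_inter_add_sdiff Φ A hB]
  refine add_le_add ?_ ?_
  · calc ∫⁻ ω in A ∩ toMeasurable μ (A ∩ U), Φ ω ∂μ ≤ ∫⁻ ω in toMeasurable μ (A ∩ U), Φ ω ∂μ :=
          lintegral_mono_set Set.inter_subset_right
      _ = ∫⁻ ω in A ∩ U, Φ ω ∂μ := by
          rw [Measure.restrict_toMeasurable (measure_ne_top μ _)]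
  · calc ∫⁻ ω in A \ toMeasurable μ (A ∩ U), Φ ω ∂μ ≤ ∫⁻ ω in A \ toMeasurable μ (A ∩ U), Ψ ω ∂μ := by
          refine setLIntegral_mono' (hA.diff hB) ?_
          rintro ω ⟨h1, h2⟩
          exact h ω h1 fun h3 => h2 (subset_toMeasurable μ _ ⟨h1, h3⟩)
      _ ≤ ∫⁻ ω in A, Ψ ω ∂μ := lintegral_mono_set Set.sdiff_subset

private theorem LYr_cs {Ω : Type} [MeasurableSpace Ω] (μ : Measure Ω) (A B : Set Ω)
    (f : Ω → ℝ≥0∞) (hf : Measurable f) :
    ∫⁻ ω in A ∩ B, f ω ∂μ ≤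
      (∫⁻ ω in A, f ω ^ 2 ∂μ) ^ (1 / 2 : ℝ) * μ (A ∩ B) ^ (1 / 2 : ℝ) := by
  have h1 := ENNReal.lintegral_mul_le_Lp_mul_Lq (μ.restrict (A ∩ B)) Real.HolderConjugate.two_two
    (f := f) (g := fun _ => 1) hf.aemeasurable aemeasurable_const
  simp only [Pi.mul_apply, mul_one, ENNReal.one_rpow, lintegral_one, Measure.restrict_apply_univ]
    at h1
  refine h1.trans (mul_le_mul_left ?_ _)
  refine ENNReal.rpow_le_rpow ?_ (by norm_num)
  simp only [← ENNReal.rpow_natCast]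
  exact lintegral_mono_set Set.inter_subset_left

/-- expectation of the potential -/
private noncomputable def LYr_I {F : Fam d} {β k : ℝ} (S : PSys F β k) (h : ℝ) (L : ℕ) (q s : ℝ) (m : ℕ)
    (G : (boxS d L → F.V) × (boxS d L → F.V)) (x : boxS d L) : ℝ≥0∞ :=
  ∫⁻ ω in S.alv h L G m, V1 k q s (S.tr h L G ω m) x ∂(PI (S.mu L))

private theorem LYr_tr_meas {F : Fam d} {β k : ℝ} (S : PSys F β k) (h : ℝ) (L m : ℕ)
    (G : (boxS d L → F.V) × (boxS d L → F.V)) :
    Measurable fun ω : ℕ → boxS d L → S.Ωp => S.tr h L G ω m :=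
  (measurable_tr S h L m).comp (measurable_const.prodMk measurable_id)

private theorem LYr_markov {F : Fam d} {β k : ℝ} (S : PSys F β k) (h : ℝ) (L : ℕ) (q s : ℝ)
    (n m : ℕ) (G : (boxS d L → F.V) × (boxS d L → F.V)) (x : boxS d L) :
    LYr_I S h L q s (n + m) G x =
      ∫⁻ ω in S.alv h L G n, LYr_I S h L q s m (S.tr h L G ω n) x ∂(PI (S.mu L)) := by
  unfold LYr_I
  exact alv_markov S h L (fun G => V1 k q s G x) (measurable_V k q s x).1 G n m


/-- the main estimate for a tame state -/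
private theorem LYr_state {F : Fam d} {β k : ℝ} (S : PSys F β k) (N L : ℕ)
    (h q a T0 E M1 ε1 M0 Md ε0 M0' Md' ε0' p Mst : ℝ)
    (hk : 0 < k) (hk1 : k < 1) (hh : 0 < h) (hh1 : h < 1) (hq : 1 ≤ q) (ha : 0 < a)
    (ha8 : a ≤ 1 / 8) (hT : 10 ≤ T0 * ts N k) (hkq : (2 : ℝ) ^ q ≤ k ^ (-(1 / 100 : ℝ)))
    (hE0 : 0 ≤ E)
    (HE : ∀ G (m : ℕ) x, m * h ≤ T0 * ts N k + 5 →
      LYr_I S h L q (a / ell k) m G x ≤ ENNReal.ofReal E * V1 k q (a / ell k) G x)
    (H1 : ∀ G (m : ℕ) x, m * h ≤ 3 →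
      LYr_I S h L q (a / ell k) m G x ≤ ENNReal.ofReal 2 * V1 k q (a / ell k) G x)
    (H2 : ∀ G (m : ℕ) x, m * h ≤ 3 →
      LYr_I S h L q (2 * (a / ell k)) m G x ≤ ENNReal.ofReal 2 * V1 k q (2 * (a / ell k)) G x)
    (HC : ∀ (G : (boxS d L → F.V) × (boxS d L → F.V)) (n : ℕ), 1 ≤ n * h → ∀ y : boxS d L,
      PI (S.mu L) (S.alv h L G n ∩ {ω | ¬ Caps k (fun v => ‖(S.tr h L G ω n).1 v‖ +
          ‖(S.tr h L G ω n).2 v‖) ε1 y}) ≤ ENNReal.ofReal p)
    (HP : ∀ (G : (boxS d L → F.V) × (boxS d L → F.V)) (n : ℕ), n * h ≤ 3 →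
      ∀ (y : boxS d L) (M s0 : ℝ), 0 ≤ M → 0 ≤ s0 →
      PotGe k q (nrm G.1) (fun v => nrm G.1 v + nrm G.2 v) M s0 y →
        PI (S.mu L) (S.alv h L G n ∩ {ω | ¬ PotGe k q (nrm (S.tr h L G ω n).1)
          (fun v => nrm (S.tr h L G ω n).1 v + nrm (S.tr h L G ω n).2 v) (M + 1 / 100)
          (s0 + 1 / 100) y}) ≤ ENNReal.ofReal p)
    (HM1 : MEst N S q a T0 1 M0 Md ε0 L h)
    (HM2 : MEst N S q a T0 (M1 + 3) M0' Md' ε0' L h)
    (hM1 : 0 ≤ M1) (hMd : Md ≤ M1) (hp : 0 ≤ p)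
    (hpE : E * (Real.sqrt 2 * Real.sqrt (2 * p)) ≤ a / 100)
    (hε1 : 0 < ε1) (hε2 : ε1 ≤ 1 / 20)
    (hε3 : ε1 * (1 + 5 * (M1 + 2)) ≤ 1 / 8) (hε4 : ε1 * (1 + 5 * (M1 + 2)) ≤ ε0')
    (hMst1 : M0 + 1 ≤ Mst) (hMst2 : M0' + 9 / 4 * M1 + 4 ≤ Mst)
    (G : (boxS d L → F.V) × (boxS d L → F.V)) (x : boxS d L)
    (htame : ¬ untame (V := F.V) k q (nrm G.1) (fun y => nrm G.1 y + nrm G.2 y) x)
    (hV : ENNReal.ofReal (Real.exp (a * Mst)) < V1 k q (a / ell k) G x)
    (m : ℕ) (hm : T0 * ts N k - 3 ≤ m * h) (hm' : m * h ≤ T0 * ts N k + 1) :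
    LYr_I S h L q (a / ell k) m G x ≤
      ENNReal.ofReal (1 - a / 2 + 11 * a / 200) * V1 k q (a / ell k) G x := by
  have hl := ell_pos hk hk1
  have hq0 : 0 ≤ q := by linarith
  have hs : 0 < a / ell k := by positivity
  have hkq8 : (2 : ℝ) ^ q ≤ k ^ (-(1 / 8 : ℝ)) := hkq.trans ((LYr_rp_le hk hk1).2 (by norm_num))
  unfold untame at htame
  push Not at htame
  obtain ⟨z, hz, hS2⟩ := htame
  set u : boxS d L → ℝ := nrm G.1 with hu_def
  set t : boxS d L → ℝ := fun y => nrm G.1 y + nrm G.2 y with ht_def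
  have hu0 : ∀ y, 0 ≤ u y := fun y => norm_nonneg _
  have hut : ∀ y, u y ≤ t y := fun y => by
    have : 0 ≤ nrm G.2 y := norm_nonneg _
    simp only [ht_def, hu_def]
    linarith
  have ht0 : ∀ y, 0 ≤ t y := fun y => (hu0 y).trans (hut y)
  have hVdef : V1 k q (a / ell k) G x = Vp (boxNet d L) k q (a / ell k) u t x := rfl
  have hc0 : 0 < 1 - a / 2 + 11 * a / 200 := by linarith
  rcases le_or_gt (u z) 0 with huz | huz
  · rw [hVdef, LYr_Vtop (boxNet d L) hk hk1 ha u t x z hz huz, ENNReal.mul_top]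
    · exact le_top
    · exact (ENNReal.ofReal_pos.2 hc0).ne'
  set X := Real.log (u z) / ell k with hX_def
  have hX16 : X < 1 / 16 := LYr_tame (boxNet d L) hk hk1 u t hut ht0 z huz hS2
  set PL := ((boxNet d L).dist x z : ℝ) / 4 - gX X with hPL_def
  have hVeq : V1 k q (a / ell k) G x =
      ENNReal.ofReal (Real.exp (a * PL) * SSt (boxNet d L) k t z ^ (q * (a / ell k))) := by
    rw [hVdef, LYr_Vp (boxNet d L) hk hk1 u t ht0 x z hz huz]
  have hS1 := SSt_one (boxNet d L) hk t ht0 z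
  have hS0 : 0 < SSt (boxNet d L) k t z := by linarith
  have hSq1 : 1 ≤ SSt (boxNet d L) k t z ^ (q * (a / ell k)) := Real.one_le_rpow hS1 (by positivity)
  have hSq2 : SSt (boxNet d L) k t z ^ (q * (a / ell k)) ≤ Real.exp a := by
    rw [Real.rpow_mul hS0.le]
    calc (SSt (boxNet d L) k t z ^ q) ^ (a / ell k) ≤ (k ^ (-(1 / 100 : ℝ))) ^ (a / ell k) :=
          Real.rpow_le_rpow (Real.rpow_nonneg hS0.le _)
            ((Real.rpow_le_rpow hS0.le hS2.le hq0).trans hkq) hs.le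
      _ = Real.exp (a / 100) := by
          rw [← Real.rpow_mul hk.le, LYr_rp hk]
          congr 1
          field_simp
      _ ≤ Real.exp a := Real.exp_le_exp.2 (by linarith)
  have hlow : ENNReal.ofReal (Real.exp (a * PL)) ≤ V1 k q (a / ell k) G x := by
    rw [hVeq]
    exact ENNReal.ofReal_le_ofReal (le_mul_of_one_le_right (Real.exp_pos _).le hSq1)
  have hPL : Mst < PL + 1 := by
    rw [hVeq] at hV
    have h1 := (ENNReal.ofReal_lt_ofReal_iff_of_nonneg (Real.exp_pos _).le).1 hV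
    have h2 : Real.exp (a * PL) * SSt (boxNet d L) k t z ^ (q * (a / ell k)) ≤
        Real.exp (a * (PL + 1)) := by
      calc _ ≤ Real.exp (a * PL) * Real.exp a := mul_le_mul_of_nonneg_left hSq2 (Real.exp_pos _).le
        _ = Real.exp (a * (PL + 1)) := by rw [← Real.exp_add]; congr 1; ring
    have h3 := Real.exp_lt_exp.1 (lt_of_lt_of_le h1 h2)
    exact lt_of_mul_lt_mul_left h3 ha.le
  have hprof := LYr_prof (boxNet d L) hk hk1 hq0 hkq8 u t hu0 ht0 x z hz huz
  have hkX : k ^ (-X) ≤ u z := le_of_eq (LYr_log hk hk1 huz).symm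
  rcases le_or_gt X (-M1) with hX | hX
  · -- deep case
    have h1 := HM1 m (by linarith) (by linarith) G x z X (by linarith) hkX (by linarith)
      (fun v => hprof v) (Or.inr (by linarith))
    refine h1.trans ?_
    calc ENNReal.ofReal ((1 - a / 2) * Real.exp (a * PL)) +
          ENNReal.ofReal (a / 100) * V1 k q (a / ell k) G x
        ≤ ENNReal.ofReal (1 - a / 2) * V1 k q (a / ell k) G x +
          ENNReal.ofReal (a / 100) * V1 k q (a / ell k) G x := by
          refine add_le_add ?_ le_rfl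
          rw [ENNReal.ofReal_mul (by linarith)]
          exact mul_le_mul_right hlow _
      _ = ENNReal.ofReal (1 - a / 2 + a / 100) * V1 k q (a / ell k) G x := by
          rw [← add_mul, ← ENNReal.ofReal_add (by linarith) (by positivity)]
      _ ≤ _ := mul_le_mul_left (ENNReal.ofReal_le_ofReal (by linarith)) _
  · -- shallow case
    set j := ⌈1 / h⌉₊ with hj_def
    have hj1 : 1 ≤ (j : ℝ) * h := by
      have := Nat.le_ceil (1 / h)
      rw [div_le_iff₀ hh] at this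
      exact this
    have hj2 : (j : ℝ) * h ≤ 2 := by
      have h1 := Nat.ceil_lt_add_one (by positivity : 0 ≤ 1 / h)
      have h2 : (j : ℝ) * h ≤ (1 / h + 1) * h := mul_le_mul_of_nonneg_right h1.le hh.le
      have h3 : (1 / h + 1) * h = 1 + h := by field_simp
      linarith
    have hjm : j ≤ m := by
      have h1 : (j : ℝ) * h ≤ m * h := by linarith
      have h2 := le_of_mul_le_mul_right h1 hh
      exact_mod_cast h2
    obtain ⟨m2, rfl⟩ := Nat.exists_eq_add_of_le hjm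
    push_cast at hm hm'
    have hm2a : T0 * ts N k - 5 ≤ m2 * h := by nlinarith
    have hm2b : m2 * h ≤ T0 * ts N k + 5 := by nlinarith
    rw [LYr_markov]
    -- the bad event
    have hgX := LYr_gX16 hX16.le
    have hPot := LYr_pot hk hk1 hq0 hkq u t ht0 z huz hS2
    have B1 := HC G j hj1 z
    have B2 := HP G j (by linarith) z (1 / 100 - gX X) (1 / 4) (by linarith) (by norm_num) hPot
    set U : Set (ℕ → boxS d L → S.Ωp) :=
      {ω | ¬ Caps k (fun v => ‖(S.tr h L G ω j).1 v‖ + ‖(S.tr h L G ω j).2 v‖) ε1 z} ∪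
      {ω | ¬ PotGe k q (nrm (S.tr h L G ω j).1)
          (fun v => nrm (S.tr h L G ω j).1 v + nrm (S.tr h L G ω j).2 v)
          (1 / 100 - gX X + 1 / 100) (1 / 4 + 1 / 100) z} with hU_def
    have hPU : PI (S.mu L) (S.alv h L G j ∩ U) ≤ ENNReal.ofReal (2 * p) := by
      rw [hU_def, Set.inter_union_distrib_left]
      refine (measure_union_le _ _).trans ((add_le_add B1 B2).trans (le_of_eq ?_))
      rw [← ENNReal.ofReal_add hp hp]
      congr 1
      ring
    have hsplit := LYr_split (PI (S.mu L)) (S.alv h L G j) U (measurableSet_alv S h L G j)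
      (fun ω => LYr_I S h L q (a / ell k) m2 (S.tr h L G ω j) x)
      (fun ω => ENNReal.ofReal ((1 - a / 2) * Real.exp (a * (PL + 1 / 50))) +
        ENNReal.ofReal (a / 100) * V1 k q (a / ell k) (S.tr h L G ω j) x) ?_
    swap
    · intro ω _ hω
      rw [hU_def, Set.mem_union, not_or] at hω
      obtain ⟨h1, h2⟩ := hω
      have h1' : Caps k (fun v => nrm (S.tr h L G ω j).1 v + nrm (S.tr h L G ω j).2 v) ε1 z := by
        by_contra hc
        exact h1 hc
      have h2' : PotGe k q (nrm (S.tr h L G ω j).1)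
          (fun v => nrm (S.tr h L G ω j).1 v + nrm (S.tr h L G ω j).2 v)
          (1 / 100 - gX X + 1 / 100) (1 / 4 + 1 / 100) z := by
        by_contra hc
        exact h2 hc
      obtain ⟨z', X0, g1, g2, g3, g4, g5, g6⟩ := LYr_good hk hk1 hq0 (nrm (S.tr h L G ω j).1)
        (fun v => nrm (S.tr h L G ω j).1 v + nrm (S.tr h L G ω j).2 v) (fun y => norm_nonneg _)
        (fun y => le_add_of_nonneg_right (norm_nonneg _)) x z hM1 hX hε1 hε2 hε3 hε4 h2' h1'
      have h3 := HM2 m2 hm2a hm2b (S.tr h L G ω j) x z' X0 g1 g2 (by linarith) g5 (Or.inl g6)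
      refine h3.trans (add_le_add ?_ le_rfl)
      refine ENNReal.ofReal_le_ofReal (mul_le_mul_of_nonneg_left ?_ (by linarith))
      exact Real.exp_le_exp.2 (mul_le_mul_of_nonneg_left g3 ha.le)
    refine hsplit.trans ?_
    -- bad part
    have hbad : ∫⁻ ω in S.alv h L G j ∩ U, LYr_I S h L q (a / ell k) m2 (S.tr h L G ω j) x
        ∂(PI (S.mu L)) ≤ ENNReal.ofReal (a / 100) * V1 k q (a / ell k) G x := by
      calc ∫⁻ ω in S.alv h L G j ∩ U, LYr_I S h L q (a / ell k) m2 (S.tr h L G ω j) x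
            ∂(PI (S.mu L))
          ≤ ∫⁻ ω in S.alv h L G j ∩ U, ENNReal.ofReal E * V1 k q (a / ell k) (S.tr h L G ω j) x
            ∂(PI (S.mu L)) := lintegral_mono fun ω => HE _ m2 x hm2b
        _ = ENNReal.ofReal E * ∫⁻ ω in S.alv h L G j ∩ U, V1 k q (a / ell k) (S.tr h L G ω j) x
            ∂(PI (S.mu L)) := lintegral_const_mul' _ _ ENNReal.ofReal_ne_top
        _ ≤ ENNReal.ofReal E * (ENNReal.ofReal (Real.sqrt 2) * V1 k q (a / ell k) G x *
            ENNReal.ofReal (Real.sqrt (2 * p))) := by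
            refine mul_le_mul_right ?_ _
            refine (LYr_cs (PI (S.mu L)) (S.alv h L G j) U
              (fun ω => V1 k q (a / ell k) (S.tr h L G ω j) x)
              ((measurable_V k q (a / ell k) x).1.comp (LYr_tr_meas S h L j G))).trans ?_
            refine mul_le_mul' ?_ ?_
            · have h1 : ∫⁻ ω in S.alv h L G j, V1 k q (a / ell k) (S.tr h L G ω j) x ^ 2
                  ∂(PI (S.mu L)) ≤ ENNReal.ofReal 2 * V1 k q (a / ell k) G x ^ 2 := by
                rw [(V_sq k q (a / ell k) G x).1]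
                refine le_trans (le_of_eq ?_) (H2 G j x (by linarith))
                unfold LYr_I
                exact lintegral_congr fun ω => (V_sq k q (a / ell k) (S.tr h L G ω j) x).1
              refine (ENNReal.rpow_le_rpow h1 (by norm_num)).trans (le_of_eq ?_)
              rw [ENNReal.mul_rpow_of_nonneg _ _ (by norm_num), ← ENNReal.rpow_natCast,
                ← ENNReal.rpow_mul, ENNReal.ofReal_rpow_of_pos (by norm_num), Real.sqrt_eq_rpow]
              norm_num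
            · refine (ENNReal.rpow_le_rpow hPU (by norm_num)).trans (le_of_eq ?_)
              rw [ENNReal.ofReal_rpow_of_nonneg (by positivity) (by norm_num), Real.sqrt_eq_rpow]
        _ = ENNReal.ofReal (E * (Real.sqrt 2 * Real.sqrt (2 * p))) * V1 k q (a / ell k) G x := by
            rw [ENNReal.ofReal_mul hE0, ENNReal.ofReal_mul (Real.sqrt_nonneg _)]
            ring
        _ ≤ _ := mul_le_mul_left (ENNReal.ofReal_le_ofReal hpE) _
    -- good part
    have hgood : ∫⁻ ω in S.alv h L G j,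
        (ENNReal.ofReal ((1 - a / 2) * Real.exp (a * (PL + 1 / 50))) +
        ENNReal.ofReal (a / 100) * V1 k q (a / ell k) (S.tr h L G ω j) x) ∂(PI (S.mu L)) ≤
        ENNReal.ofReal (1 - a / 2 + a / 40) * V1 k q (a / ell k) G x +
          ENNReal.ofReal (a / 50) * V1 k q (a / ell k) G x := by
      rw [lintegral_add_left measurable_const, lintegral_const_mul' _ _ ENNReal.ofReal_ne_top]
      refine add_le_add ?_ ?_
      · rw [setLIntegral_const]
        calc ENNReal.ofReal ((1 - a / 2) * Real.exp (a * (PL + 1 / 50))) *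
              PI (S.mu L) (S.alv h L G j)
            ≤ ENNReal.ofReal ((1 - a / 2) * Real.exp (a * (PL + 1 / 50))) * 1 :=
              mul_le_mul_right prob_le_one _
          _ = ENNReal.ofReal ((1 - a / 2) * Real.exp (a * (PL + 1 / 50))) := mul_one _
          _ ≤ ENNReal.ofReal ((1 - a / 2 + a / 40) * Real.exp (a * PL)) := by
              refine ENNReal.ofReal_le_ofReal ?_
              have h1 : Real.exp (a * (PL + 1 / 50)) = Real.exp (a / 50) * Real.exp (a * PL) := by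
                rw [← Real.exp_add]
                congr 1
                ring
              rw [h1, ← mul_assoc]
              refine mul_le_mul_of_nonneg_right ?_ (Real.exp_pos _).le
              have h2 : Real.exp (a / 50) ≤ 1 + a / 40 := by
                have h3 := Real.exp_bound_div_one_sub_of_interval (x := a / 50) (by positivity)
                  (by linarith)
                refine h3.trans ?_
                rw [div_le_iff₀ (by linarith)]
                nlinarith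
              calc (1 - a / 2) * Real.exp (a / 50) ≤ (1 - a / 2) * (1 + a / 40) :=
                    mul_le_mul_of_nonneg_left h2 (by linarith)
                _ ≤ 1 - a / 2 + a / 40 := by nlinarith
          _ ≤ _ := by
              rw [ENNReal.ofReal_mul (by linarith)]
              exact mul_le_mul_right hlow _
      · have h1 := H1 G j x (by linarith)
        calc ENNReal.ofReal (a / 100) * ∫⁻ ω in S.alv h L G j,
              V1 k q (a / ell k) (S.tr h L G ω j) x ∂(PI (S.mu L))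
            ≤ ENNReal.ofReal (a / 100) * (ENNReal.ofReal 2 * V1 k q (a / ell k) G x) :=
              mul_le_mul_right h1 _
          _ = ENNReal.ofReal (a / 50) * V1 k q (a / ell k) G x := by
              rw [← mul_assoc, ← ENNReal.ofReal_mul (by positivity)]
              congr 2
              ring
    refine (add_le_add hbad hgood).trans (le_of_eq ?_)
    rw [← add_mul, ← add_mul, ← ENNReal.ofReal_add (by linarith) (by positivity),
      ← ENNReal.ofReal_add (by positivity) (by linarith)]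
    congr 2
    ring

/-- smallness of `k` -/
private theorem LYr_small (q a T0 C9 E Cu c β : ℝ) (ha : 0 < a) (hc : 0 < c) (hβ : 0 < β) :
    ∃ k0 : ℝ, 0 < k0 ∧ k0 < 1 ∧ ∀ k, 0 < k → k < k0 →
      1 ≤ ell k ∧ 10 / T0 ≤ ell k ∧ (2 : ℝ) ^ q ≤ k ^ (-(1 / 100 : ℝ)) ∧ 16 * q * a ≤ ell k ∧
      C9 * ((a / ell k / ell k + (a / ell k) ^ 2) * 3) ≤ Real.log (1 + a / 100) ∧
      C9 * ((2 * (a / ell k) / ell k + (2 * (a / ell k)) ^ 2) * 3) ≤ Real.log 2 ∧
      E * (Real.sqrt 2 * Real.sqrt (2 * k ^ c)) ≤ a / 100 ∧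
      E * (Cu * k ^ (β / 16) / (a / ell k)) ≤ a / 100 := by
  have t0 : Filter.Tendsto (fun y : ℝ => y⁻¹) Filter.atTop (nhds 0) := tendsto_inv_atTop_zero
  have t1 : Filter.Tendsto (fun y : ℝ => C9 * ((a * y⁻¹ * y⁻¹ + (a * y⁻¹) ^ 2) * 3)) Filter.atTop
      (nhds (C9 * ((a * 0 * 0 + (a * 0) ^ 2) * 3))) :=
    (((((t0.const_mul a).mul t0).add ((t0.const_mul a).pow 2)).mul_const 3).const_mul C9)
  have t2 : Filter.Tendsto (fun y : ℝ => C9 * ((2 * (a * y⁻¹) * y⁻¹ + (2 * (a * y⁻¹)) ^ 2) * 3))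
      Filter.atTop (nhds (C9 * ((2 * (a * 0) * 0 + (2 * (a * 0)) ^ 2) * 3))) :=
    ((((((t0.const_mul a).const_mul 2).mul t0).add (((t0.const_mul a).const_mul 2).pow 2)).mul_const
      3).const_mul C9)
  have t3 : Filter.Tendsto (fun y : ℝ => Real.exp (-(y * c))) Filter.atTop (nhds 0) := by
    refine Real.tendsto_exp_neg_atTop_nhds_zero.comp ?_
    exact Filter.tendsto_id.atTop_mul_const hc
  have t4 : Filter.Tendsto (fun y : ℝ => E * (Real.sqrt 2 * Real.sqrt (2 * Real.exp (-(y * c)))))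
      Filter.atTop (nhds (E * (Real.sqrt 2 * Real.sqrt (2 * 0)))) :=
    (((Real.continuous_sqrt.tendsto _).comp (t3.const_mul 2)).const_mul (Real.sqrt 2)).const_mul E
  have t5 : Filter.Tendsto (fun y : ℝ => y * Real.exp (-(y * (β / 16)))) Filter.atTop (nhds 0) := by
    have h1 := Real.tendsto_pow_mul_exp_neg_atTop_nhds_zero 1
    have h2 : Filter.Tendsto (fun y : ℝ => y * (β / 16)) Filter.atTop Filter.atTop :=
      Filter.tendsto_id.atTop_mul_const (by positivity)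
    have h3 := (h1.comp h2).const_mul (16 / β)
    rw [mul_zero] at h3
    refine h3.congr fun y => ?_
    simp only [Function.comp, pow_one]
    field_simp
  have t6 : Filter.Tendsto (fun y : ℝ => E * (Cu / a * (y * Real.exp (-(y * (β / 16))))))
      Filter.atTop (nhds (E * (Cu / a * 0))) := (t5.const_mul (Cu / a)).const_mul E
  simp only [mul_zero, Real.sqrt_zero, zero_pow (two_ne_zero), add_zero, zero_mul] at t1 t2 t4 t6
  have hlog : 0 < Real.log (1 + a / 100) := Real.log_pos (by linarith [show 0 < a / 100 by positivity])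
  have hlog2 : 0 < Real.log 2 := Real.log_pos (by norm_num)
  have ha100 : 0 < a / 100 := by positivity
  have t7 : ∀ᶠ y : ℝ in Filter.atTop, (2 : ℝ) ^ q ≤ Real.exp (y * (1 / 100)) := by
    have h1 : Filter.Tendsto (fun y : ℝ => Real.exp (y * (1 / 100))) Filter.atTop Filter.atTop :=
      Real.tendsto_exp_atTop.comp (Filter.tendsto_id.atTop_mul_const (by norm_num))
    exact h1.eventually_ge_atTop _
  have hev := (Filter.eventually_ge_atTop (1 : ℝ)).and ((Filter.eventually_ge_atTop (10 / T0)).and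
    (t7.and ((Filter.eventually_ge_atTop (16 * q * a)).and ((t1.eventually_le_const hlog).and
    ((t2.eventually_le_const hlog2).and ((t4.eventually_le_const ha100).and
    (t6.eventually_le_const ha100)))))))
  obtain ⟨Y, hY⟩ := Filter.eventually_atTop.1 hev
  refine ⟨min (Real.exp (-Y)) (1 / 2), by positivity, by
    exact lt_of_le_of_lt (min_le_right _ _) (by norm_num), ?_⟩
  intro k hk hkk
  have hkY : k < Real.exp (-Y) := lt_of_lt_of_le hkk (min_le_left _ _)
  have hell : Y ≤ ell k := by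
    unfold ell
    rw [one_div, Real.log_inv]
    have h1 := Real.log_lt_log hk hkY
    rw [Real.log_exp] at h1
    linarith
  obtain ⟨h1, h2, h3, h4, h5, h6, h7, h8⟩ := hY (ell k) hell
  have hl0 : 0 < ell k := by linarith
  refine ⟨h1, h2, ?_, h4, ?_, ?_, ?_, ?_⟩
  · rw [LYr_rp hk]
    refine h3.trans (le_of_eq ?_)
    congr 1
    ring
  · refine le_trans (le_of_eq ?_) h5
    field_simp
  · refine le_trans (le_of_eq ?_) h6
    field_simp
  · rw [LYr_rp hk]
    exact h7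
  · rw [LYr_rp hk]
    refine le_trans (le_of_eq ?_) h8
    field_simp

/-- numerical facts -/
private theorem LYr_n1 {a T0 y C9 mh ts' : ℝ} (ha : 0 < a) (hT0 : 0 < T0) (hy : 1 ≤ y)
    (hC9 : 0 < C9) (hts : ts' ≤ y ^ 2) (hm : mh ≤ T0 * ts' + 5) :
    C9 * (a / y / y + (a / y) ^ 2) * mh ≤ C9 * ((a + a ^ 2) * (T0 + 5)) := by
  have hy0 : 0 < y := by linarith
  have hsum : a / y / y + (a / y) ^ 2 = (a + a ^ 2) / y ^ 2 := by field_simp
  rw [mul_assoc, hsum]
  refine mul_le_mul_of_nonneg_left ?_ hC9.le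
  have h7 : 1 ≤ y ^ 2 := one_le_pow₀ hy
  have h8 : mh ≤ (T0 + 5) * y ^ 2 := by nlinarith
  calc (a + a ^ 2) / y ^ 2 * mh ≤ (a + a ^ 2) / y ^ 2 * ((T0 + 5) * y ^ 2) :=
        mul_le_mul_of_nonneg_left h8 (by positivity)
    _ = (a + a ^ 2) * (T0 + 5) := by field_simp

private theorem LYr_n2 {a : ℝ} (ha : 0 < a) :
    a / 100 + (1 - a / 2 + 11 * a / 200) * (1 + a / 100) ≤ 1 - a / 4 := by
  nlinarith

private theorem LYr_n3 {T0 ts' : ℝ} (hT0 : 0 < T0) (h : 10 / T0 ≤ ts') : 10 ≤ T0 * ts' := by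
  have h1 : T0 * (10 / T0) ≤ T0 * ts' := mul_le_mul_of_nonneg_left h hT0.le
  have h2 : T0 * (10 / T0) = 10 := by field_simp
  linarith

private theorem LYr_n4 (N : ℕ) {k : ℝ} (h : 1 ≤ ell k) : ell k ≤ ts N k ∧ ts N k ≤ ell k ^ 2 := by
  unfold ts
  split_ifs
  · exact ⟨by nlinarith, le_rfl⟩
  · exact ⟨le_rfl, by nlinarith⟩

/-- decay of the potential over one block -/
theorem ly_red (N d : ℕ) (β : ℝ) (hN : 2 ≤ N) (hβ : 0 < β) : ∃ q0 : ℝ, 1 ≤ q0 ∧
    ∀ q, q0 ≤ q → ∀ (a T0 : ℝ) (Ls : ℕ), 0 < a → a ≤ 1 / 8 → 0 < T0 →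
    ∀ (F : ℝ → Fam d) (S : ∀ k, 0 < k → PSys (F k) β k),
    (∀ k hk, BNoise N (S k hk).ν (S k hk).b (S k hk).gd) →
    (∀ M : ℝ, 1 ≤ M → ∃ M0 Md ε0 k0 : ℝ, 0 < ε0 ∧ 0 < k0 ∧ k0 < 1 ∧ ∀ (k : ℝ) (hk : 0 < k),
      k < k0 → ∀ L : ℕ, Ls ≤ L → ∃ h0 : ℝ, 0 < h0 ∧ ∀ h, 0 < h → h < h0 →
      MEst N (S k hk) q a T0 M M0 Md ε0 L h) →
    ∃ Ca k0 : ℝ, 0 < Ca ∧ 0 < k0 ∧ k0 < 1 ∧ ∀ (k : ℝ) (hk : 0 < k), k < k0 →
    ∀ L : ℕ, Ls ≤ L → ∃ h0 : ℝ, 0 < h0 ∧ ∀ h, 0 < h → h < h0 →
    ∀ (G : (boxS d L → (F k).V) × (boxS d L → (F k).V)) (x : boxS d L) (n : ℕ),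
      T0 * ts N k ≤ n * h → n * h ≤ T0 * ts N k + 1 →
      ∫⁻ ω in (S k hk).alv h L G n, V1 k q (a / ell k) ((S k hk).tr h L G ω n) x
          ∂(PI ((S k hk).mu L)) ≤
        ENNReal.ofReal (1 - a / 4) * V1 k q (a / ell k) G x + ENNReal.ofReal Ca := by
  obtain ⟨q1, hq1, HU⟩ := untame_time N d β hN hβ
  obtain ⟨q2, hq2, HS⟩ := sm_multi N d β hN hβ
  obtain ⟨q3, hq3, HP⟩ := pot_prob N d β hN hβ
  refine ⟨max q1 (max q2 q3), le_max_of_le_left hq1, ?_⟩
  intro q hq a T0 Ls ha ha8 hT0 F S hB HM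
  have hq1' : q1 ≤ q := (le_max_left _ _).trans hq
  have hq2' : q2 ≤ q := ((le_max_left _ _).trans (le_max_right _ _)).trans hq
  have hq3' : q3 ≤ q := ((le_max_right _ _).trans (le_max_right _ _)).trans hq
  have hq' : 1 ≤ q := hq1.trans hq1'
  obtain ⟨M0, Md, ε0, k1, hε0, hk1, hk11, HM1⟩ := HM 1 le_rfl
  set M1 := max Md 0 with hM1_def
  have hM1 : 0 ≤ M1 := le_max_right _ _
  obtain ⟨M0', Md', ε0', k2, hε0', hk2, hk21, HM2⟩ := HM (M1 + 3) (by linarith)
  have hden : 0 < 1 + 5 * (M1 + 2) := by linarith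
  set ε1 := min (1 / 20) ε0' / (1 + 5 * (M1 + 2)) with hε1_def
  have hmin : 0 < min (1 / 20) ε0' := lt_min (by norm_num) hε0'
  have hε1 : 0 < ε1 := div_pos hmin hden
  have hε1m : ε1 * (1 + 5 * (M1 + 2)) = min (1 / 20) ε0' := by
    rw [hε1_def]
    field_simp
  have hε3 : ε1 * (1 + 5 * (M1 + 2)) ≤ 1 / 8 := by
    rw [hε1m]
    exact (min_le_left _ _).trans (by norm_num)
  have hε4 : ε1 * (1 + 5 * (M1 + 2)) ≤ ε0' := by
    rw [hε1m]
    exact min_le_right _ _
  have hε2 : ε1 ≤ 1 / 20 := by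
    have h1 : ε1 * (1 + 5 * (M1 + 2)) ≤ 1 / 20 := by
      rw [hε1m]
      exact min_le_left _ _
    nlinarith
  obtain ⟨c1, k3, hc1, hk3, hk31, HC⟩ := caps_prob N d β hβ ε1 hε1
  obtain ⟨c2, k4, hc2, hk4, hk41, HP⟩ := HP q hq3' (1 / 100) (by norm_num)
  obtain ⟨Cu, k5, hCu, hk5, hk51, HU⟩ := HU q hq1'
  obtain ⟨C9, k6, hC9, hk6, hk61, HS⟩ := HS q hq2'
  set Mst := max (M0 + 1) (M0' + 9 / 4 * M1 + 4) with hMst_def
  set E := Real.exp (C9 * ((a + a ^ 2) * (T0 + 5))) with hE_def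
  have hE : 0 < E := Real.exp_pos _
  have hc : 0 < min c1 c2 := lt_min hc1 hc2
  obtain ⟨k7, hk7, hk71, HK⟩ := LYr_small q a T0 C9 E Cu (min c1 c2) β ha hc hβ
  refine ⟨E * Real.exp (a * Mst), min (min (min k1 k2) (min k3 k4)) (min (min k5 k6) k7),
    by positivity, by positivity, ?_, ?_⟩
  · exact lt_of_le_of_lt ((min_le_left _ _).trans ((min_le_left _ _).trans (min_le_left _ _))) hk11
  intro k hk hkk L hL
  have hkk1 : k < k1 := lt_of_lt_of_le hkk
    ((min_le_left _ _).trans ((min_le_left _ _).trans (min_le_left _ _)))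
  have hkk2 : k < k2 := lt_of_lt_of_le hkk
    ((min_le_left _ _).trans ((min_le_left _ _).trans (min_le_right _ _)))
  have hkk3 : k < k3 := lt_of_lt_of_le hkk
    ((min_le_left _ _).trans ((min_le_right _ _).trans (min_le_left _ _)))
  have hkk4 : k < k4 := lt_of_lt_of_le hkk
    ((min_le_left _ _).trans ((min_le_right _ _).trans (min_le_right _ _)))
  have hkk5 : k < k5 := lt_of_lt_of_le hkk
    ((min_le_right _ _).trans ((min_le_left _ _).trans (min_le_left _ _)))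
  have hkk6 : k < k6 := lt_of_lt_of_le hkk
    ((min_le_right _ _).trans ((min_le_left _ _).trans (min_le_right _ _)))
  have hkk7 : k < k7 := lt_of_lt_of_le hkk ((min_le_right _ _).trans (min_le_right _ _))
  have hk1' : k < 1 := hkk1.trans hk11
  obtain ⟨e1, e2, e3, e4, e5, e6, e7, e8⟩ := HK k hk hkk7
  have hl := ell_pos hk hk1'
  have hs : 0 < a / ell k := by positivity
  have hqs2 : 8 * q * (2 * (a / ell k)) ≤ 1 := by
    have h1 : 8 * q * (2 * (a / ell k)) = 16 * q * a / ell k := by ring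
    rw [h1, div_le_one hl]
    exact e4
  have hqs : 8 * q * (a / ell k) ≤ 1 := by
    have h1 : 0 ≤ 8 * q * (a / ell k) := by positivity
    linarith
  obtain ⟨hts1, hts2⟩ := LYr_n4 N e1
  have hT : 10 ≤ T0 * ts N k := LYr_n3 hT0 (e2.trans hts1)
  obtain ⟨h1, hh1, HM1⟩ := HM1 k hk hkk1 L hL
  obtain ⟨h2, hh2, HM2⟩ := HM2 k hk hkk2 L hL
  obtain ⟨h3, hh3, HC⟩ := HC (F k) k (S k hk) hk hkk3 (hB k hk) L
  obtain ⟨h4, hh4, HP⟩ := HP (F k) k (S k hk) hk hkk4 (hB k hk)
  obtain ⟨h5, hh5, HU⟩ := HU (F k) k (S k hk) hk hkk5 (hB k hk) (a / ell k) hs hqs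
  obtain ⟨h6, hh6, HS1⟩ := HS (F k) k (S k hk) hk hkk6 (hB k hk) (a / ell k) hs hqs
  obtain ⟨h7, hh7, HS2⟩ := HS (F k) k (S k hk) hk hkk6 (hB k hk) (2 * (a / ell k)) (by positivity)
    hqs2
  refine ⟨min (min (min h1 h2) (min h3 h4)) (min (min h5 h6) (min h7 (1 / 2))),
    by positivity, ?_⟩
  intro h hh hhh G x n hn hn'
  have g1 : h < h1 := lt_of_lt_of_le hhh
    ((min_le_left _ _).trans ((min_le_left _ _).trans (min_le_left _ _)))
  have g2 : h < h2 := lt_of_lt_of_le hhh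
    ((min_le_left _ _).trans ((min_le_left _ _).trans (min_le_right _ _)))
  have g3 : h < h3 := lt_of_lt_of_le hhh
    ((min_le_left _ _).trans ((min_le_right _ _).trans (min_le_left _ _)))
  have g4 : h < h4 := lt_of_lt_of_le hhh
    ((min_le_left _ _).trans ((min_le_right _ _).trans (min_le_right _ _)))
  have g5 : h < h5 := lt_of_lt_of_le hhh
    ((min_le_right _ _).trans ((min_le_left _ _).trans (min_le_left _ _)))
  have g6 : h < h6 := lt_of_lt_of_le hhh
    ((min_le_right _ _).trans ((min_le_left _ _).trans (min_le_right _ _)))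
  have g7 : h < h7 := lt_of_lt_of_le hhh
    ((min_le_right _ _).trans ((min_le_right _ _).trans (min_le_left _ _)))
  have g8 : h < 1 / 2 := lt_of_lt_of_le hhh
    ((min_le_right _ _).trans ((min_le_right _ _).trans (min_le_right _ _)))
  have hhr : h < 1 := by linarith
  have hsum0 : 0 ≤ a / ell k / ell k + (a / ell k) ^ 2 := by positivity
  -- growth over the block
  have HE : ∀ G (m : ℕ) x, m * h ≤ T0 * ts N k + 5 →
      LYr_I (S k hk) h L q (a / ell k) m G x ≤ ENNReal.ofReal E * V1 k q (a / ell k) G x := by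
    intro G m x hm
    refine (HS1 h hh g6 L G m x).1.trans (mul_le_mul_left (ENNReal.ofReal_le_ofReal ?_) _)
    rw [hE_def]
    exact Real.exp_le_exp.2 (LYr_n1 ha hT0 e1 hC9 hts2 hm)
  have Hs : ∀ G (m : ℕ) x, m * h ≤ 3 →
      LYr_I (S k hk) h L q (a / ell k) m G x ≤
        ENNReal.ofReal (1 + a / 100) * V1 k q (a / ell k) G x := by
    intro G m x hm
    refine (HS1 h hh g6 L G m x).1.trans (mul_le_mul_left (ENNReal.ofReal_le_ofReal ?_) _)
    rw [← Real.le_log_iff_exp_le (by positivity)]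
    refine le_trans ?_ e5
    rw [mul_assoc]
    exact mul_le_mul_of_nonneg_left (mul_le_mul_of_nonneg_left hm hsum0) hC9.le
  have H1 : ∀ G (m : ℕ) x, m * h ≤ 3 →
      LYr_I (S k hk) h L q (a / ell k) m G x ≤ ENNReal.ofReal 2 * V1 k q (a / ell k) G x :=
    fun G m x hm => (Hs G m x hm).trans
      (mul_le_mul_left (ENNReal.ofReal_le_ofReal (by linarith)) _)
  have H2 : ∀ G (m : ℕ) x, m * h ≤ 3 →
      LYr_I (S k hk) h L q (2 * (a / ell k)) m G x ≤
        ENNReal.ofReal 2 * V1 k q (2 * (a / ell k)) G x := by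
    intro G m x hm
    refine (HS2 h hh g7 L G m x).1.trans (mul_le_mul_left (ENNReal.ofReal_le_ofReal ?_) _)
    rw [← Real.le_log_iff_exp_le (by norm_num)]
    refine le_trans ?_ e6
    rw [mul_assoc]
    exact mul_le_mul_of_nonneg_left (mul_le_mul_of_nonneg_left hm (by positivity)) hC9.le
  have hkc : ∀ c' : ℝ, min c1 c2 ≤ c' → k ^ c' ≤ k ^ (min c1 c2) := fun c' hc' =>
    (LYr_rp_le hk hk1').2 hc'
  obtain ⟨⟨n', hn1, hn2, hU⟩, -⟩ := HU h hh g5 L G x
  have hnn : n' ≤ n := by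
    have h8 : (n' : ℝ) * h ≤ n * h := by linarith
    have h9 := le_of_mul_le_mul_right h8 hh
    exact_mod_cast h9
  obtain ⟨m, rfl⟩ := Nat.exists_eq_add_of_le hnn
  push_cast at hn hn'
  rw [add_mul] at hn hn'
  have hm1 : T0 * ts N k - 3 ≤ m * h := by linarith
  have hm2 : (m : ℝ) * h ≤ T0 * ts N k + 1 := by linarith
  have hstate : ∀ G' : (boxS d L → (F k).V) × (boxS d L → (F k).V),
      ¬ untame (V := (F k).V) k q (nrm G'.1) (fun y => nrm G'.1 y + nrm G'.2 y) x →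
      LYr_I (S k hk) h L q (a / ell k) m G' x ≤
        ENNReal.ofReal (1 - a / 2 + 11 * a / 200) * V1 k q (a / ell k) G' x +
          ENNReal.ofReal (E * Real.exp (a * Mst)) := by
    intro G' hG'
    rcases le_or_gt (V1 k q (a / ell k) G' x) (ENNReal.ofReal (Real.exp (a * Mst))) with hV | hV
    · refine (HE G' m x (by linarith)).trans ?_
      rw [ENNReal.ofReal_mul hE.le]
      exact le_add_left (mul_le_mul_right hV _)
    · refine (LYr_state (S k hk) N L h q a T0 E M1 ε1 M0 Md ε0 M0' Md' ε0' (k ^ (min c1 c2)) Mst hk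
        hk1' hh hhr hq' ha ha8 hT e3 hE.le HE H1 H2 ?_ ?_ (HM1 h hh g1) (HM2 h hh g2) hM1
        (le_max_left _ _) (Real.rpow_pos_of_pos hk _).le e7 hε1 hε2 hε3 hε4 (le_max_left _ _)
        (le_max_right _ _) G' x hG' hV m hm1 hm2).trans le_self_add
      · intro G n hn y
        exact (HC h hh g3 G n hn y).trans
          (ENNReal.ofReal_le_ofReal (hkc _ (min_le_left _ _)))
      · intro G n hn y M s0 hM hs0 hpot
        exact ((HP h hh g4 L G n hn y M s0 hM hs0).1 hpot).trans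
          (ENNReal.ofReal_le_ofReal (hkc _ (min_le_right _ _)))
  change LYr_I (S k hk) h L q (a / ell k) (n' + m) G x ≤ _
  rw [LYr_markov]
  refine (LYr_split (PI ((S k hk).mu L)) ((S k hk).alv h L G n')
    {ω | untame (V := (F k).V) k q (nrm ((S k hk).tr h L G ω n').1)
            (fun y => nrm ((S k hk).tr h L G ω n').1 y + nrm ((S k hk).tr h L G ω n').2 y) x}
    (measurableSet_alv (S k hk) h L G n')
    (fun ω => LYr_I (S k hk) h L q (a / ell k) m ((S k hk).tr h L G ω n') x)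
    (fun ω => ENNReal.ofReal (1 - a / 2 + 11 * a / 200) *
      V1 k q (a / ell k) ((S k hk).tr h L G ω n') x +
          ENNReal.ofReal (E * Real.exp (a * Mst)))
    (fun ω _ hω => hstate _ hω)).trans ?_
  have hbad : ∫⁻ ω in (S k hk).alv h L G n' ∩
      {ω | untame (V := (F k).V) k q (nrm ((S k hk).tr h L G ω n').1)
            (fun y => nrm ((S k hk).tr h L G ω n').1 y + nrm ((S k hk).tr h L G ω n').2 y) x},
      LYr_I (S k hk) h L q (a / ell k) m ((S k hk).tr h L G ω n') x ∂(PI ((S k hk).mu L)) ≤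
      ENNReal.ofReal (a / 100) * V1 k q (a / ell k) G x := by
    refine (lintegral_mono fun ω => HE _ m x (by linarith)).trans ?_
    rw [lintegral_const_mul' _ _ ENNReal.ofReal_ne_top]
    refine (mul_le_mul_right hU _).trans ?_
    rw [← mul_assoc, ← ENNReal.ofReal_mul hE.le]
    exact mul_le_mul_left (ENNReal.ofReal_le_ofReal e8) _
  have hc0 : 0 ≤ 1 - a / 2 + 11 * a / 200 := by linarith
  have hgood : ∫⁻ ω in (S k hk).alv h L G n', (ENNReal.ofReal (1 - a / 2 + 11 * a / 200) *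
      V1 k q (a / ell k) ((S k hk).tr h L G ω n') x +
          ENNReal.ofReal (E * Real.exp (a * Mst))) ∂(PI ((S k hk).mu L)) ≤
      ENNReal.ofReal ((1 - a / 2 + 11 * a / 200) * (1 + a / 100)) * V1 k q (a / ell k) G x +
        ENNReal.ofReal (E * Real.exp (a * Mst)) := by
    rw [lintegral_add_right _ measurable_const, lintegral_const_mul' _ _ ENNReal.ofReal_ne_top,
      setLIntegral_const]
    refine add_le_add ?_ ?_
    · rw [ENNReal.ofReal_mul hc0, mul_assoc]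
      exact mul_le_mul_right (Hs G n' x hn2) _
    · calc ENNReal.ofReal (E * Real.exp (a * Mst)) * PI ((S k hk).mu L) ((S k hk).alv h L G n')
          ≤ ENNReal.ofReal (E * Real.exp (a * Mst)) * 1 := mul_le_mul_right prob_le_one _
        _ = _ := mul_one _
  refine (add_le_add hbad hgood).trans ?_
  rw [← add_assoc, ← add_mul, ← ENNReal.ofReal_add (by positivity) (by positivity)]
  exact add_le_add (mul_le_mul_left (ENNReal.ofReal_le_ofReal (LYr_n2 ha)) _) le_rfl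

end DynC
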