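import Pool.Agent.Lib_MP_36b788c.WL2
import Pool.Agent.Lib_MP_36b788c.Unit
import Pool.Agent.Lib_MP_36b788c.LPPd
import Pool.Agent.Lib_MP_36b788c.BNoise2

/-!
# Lower bound of a height over a block, `N = 2`

`LowE k g m w Y ε u`: `u ≥ k^{ε - (Y + Σ_{j<m} g_j w)}` or `u ≥ k^{ε - (-1/16 + Σ_{j ≤ l < m} g_l w)}` for some `j ≤ m`.
`low2`: hypotheses as in `low3`; block length `T0 ell² - 5 ≤ m h ≤ T0 ell² + 5`; outside probability `p` the event `LowE` holds with `Y = X0 - dist z w`.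

PROOF. `g = gz k h ω`, law as `sc (h/ell²)` (`re_law`), `κ = 1/64`. Constants in this order: `M1`, `M2` (from `p, T0, M`), `m0`, `σ`, `J = ⌈(T0+1)/σ⌉`, `ε0`, `k0`.
𝔅1: `∃ v, lppM (1/8) 0 g m v > M1 + dist z v/8`: `lpp_tail`, `≤ Σ_v exp(C(T0+2) - lam0(M1 + dist z v/8)) ≤ p/8` (`sum_exp_dd`). 𝔅2: some block sum of `g` at `w` is `> M2` in modulus: `osc_exp`, `≤ p/8`.
Windows: the first `J-1` have `⌊m/J⌋` steps, the last one the rest; `n_j h/ell² ≤ 2σ`. 𝔅3: `Reg2 κ` fails at `w` in some window (`reg2_prob`): `≤ J C exp(-κ/√(2σ)) ≤ p/8` for small `σ`.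
Upper bounds at the window starts `t_j` off 𝔅1: `grow_path` with `H v = X0 + M + dist z v/2`, `ρ = 1/2`, `q' = 1/8`: `‖G_{t_j} v‖ ≤ 2 k^{-(lpp_{t_j}(v) + H v)} ≤ k^{-(X0 + M + M1 + 1 + (5/8) dist z v)}`.
𝔅4: for `j ≥ 1` caps at `w`: `‖G_{t_j} v‖ ≤ k^{-ε''(1+dist w v)}` (`caps_prob` for the pair `(G,0)` of `PS2`, `bnoise2`; off `alv` use `exit_bd` with the bound `Σ‖G v‖ ≤ |box| k^{-…}`: `P(alv^c) → 0` as `h → 0`, uniformly since `X0 ≤ 1/8` and the profile bounds `‖G v‖` by a constant depending on `k, L, M`), and the exceptional events of `wl2`: `≤ J(k^c + k^c)`.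
Claim: off all these events, with `Y_0 = X0 - dist z w`, `Y_{j+1} = min (-3/64) (Y_j + g^{(j)}) - ε/J` (`g^{(j)}` = sum of `g w` over window `j`), some site `v` has `‖G_{t_j} v‖ k^{dist w v} ≥ k^{-Y_j}`. Maximizer `z'` of `‖G_{t_j} v‖ k^{dist w v}`: `Y_j ≥ min (Y_0) (-3/64) - M2 - ε ≥ X0 - M - 1 - M2 - ε`, upper bound `X0 + M + M1 + 1 + (5/8)dist z z' - dist w z' ≥ Y_j`, `dist z z' ≤ M + dist w z'`:
`(3/8) dist w z' ≤ 3M + M1 + M2 + 3`, so `dist w z' ≤ m0`. `‖G_{t_j} z'‖ ≤ k^{-ε0'}`: caps for `j ≥ 1`; `j = 0`: caps around `z`, or deep: `X0 + M + M1 + 2 + (5/8)(M + m0) ≤ 0`. Profile for `wl2`: `H v = ε''(1+dist w v)` (`j ≥ 1`), `H v = ε0(1+dist z v)` or `X0 + M + dist z v/2` (`j = 0`), `≤ 1/16` within distance one of `w`. `wl2` (`κ = 1/64`, `ε/J`) gives the claim for `j+1` (with `v = w`).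
Unfold: `Y_J ≥ min(Y_0 + Σ_all g, min_{j ≥ 1}(-3/64 + Σ_{l ≥ t_j} g_l)) - ε`.
-/

open MeasureTheory ProbabilityTheory
open scoped ENNReal

namespace DynC

open Dyn

/-! ### trajectories and shifts -/

private theorem Low2_traj_add {St X : Type} (f : St → X → St) (s : St) (ω : ℕ → X) (t n : ℕ) :
    traj f s ω (t + n) = traj f (traj f s ω t) (fun i => ω (t + i)) n := by
  induction n with
  | zero => rfl
  | succ n ih =>
    show f (traj f s ω (t + n)) (ω (t + n)) =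
      f (traj f (traj f s ω t) (fun i => ω (t + i)) n) (ω (t + n))
    rw [ih]

private theorem Low2_win {St X : Type} [MeasurableSpace St] [MeasurableSpace X] (μ : Measure X)
    [IsProbabilityMeasure μ] (f : St → X → St) (hf : Measurable fun p : St × X => f p.1 p.2)
    (E : Set (St × (ℕ → X))) (hE : MeasurableSet E) (r : ℝ≥0∞) (s : St) (t : ℕ) :
    PI μ {ω | PI μ {b | (traj f s ω t, b) ∈ E} ≤ r ∧
      (traj f s ω t, fun i => ω (t + i)) ∈ E} ≤ r := by
  classical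
  have m1 : Measurable (fun ω : ℕ → X => traj f s ω t) :=
    (measurable_traj f hf t).comp (measurable_const.prodMk measurable_id)
  have m2 : Measurable (fun S : St => PI μ {b | (S, b) ∈ E}) :=
    measurable_measure_prodMk_left hE
  have m3 : Measurable (fun ω : ℕ → X => fun i => ω (t + i)) :=
    measurable_pi_lambda _ fun i => measurable_pi_apply (t + i)
  set A : Set (ℕ → X) := {ω | PI μ {b | (traj f s ω t, b) ∈ E} ≤ r ∧
      (traj f s ω t, fun i => ω (t + i)) ∈ E} with hA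
  have mA : MeasurableSet A :=
    (measurableSet_le (m2.comp m1) measurable_const).inter ((m1.prodMk m3) hE)
  rw [← lintegral_indicator_one mA, lintegral_glue t _ (measurable_one.indicator mA)]
  refine le_trans (lintegral_mono fun a => ?_) (by simp : ∫⁻ _, r ∂(PI μ) ≤ r)
  have e1 : ∀ b : ℕ → X, traj f s (glue t a b) t = traj f s a t := fun b =>
    traj_glue_le f s t a b t le_rfl
  have e2 : ∀ b : ℕ → X, (fun i => glue t a b (t + i)) = b := by
    intro b
    funext i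
    unfold glue
    rw [if_neg (by omega)]
    congr 1
    omega
  have e3 : ∀ b : ℕ → X, glue t a b ∈ A ↔
      (PI μ {b | (traj f s a t, b) ∈ E} ≤ r ∧ (traj f s a t, b) ∈ E) := by
    intro b
    rw [hA, Set.mem_ofPred_eq, e1 b, e2 b]
  by_cases hr : PI μ {b | (traj f s a t, b) ∈ E} ≤ r
  · refine le_trans (le_of_eq ?_) hr
    have mB : MeasurableSet {b : ℕ → X | (traj f s a t, b) ∈ E} := measurable_prodMk_left hE
    have eB := lintegral_indicator_one (μ := PI μ) mB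
    rw [← eB]
    refine lintegral_congr fun b => ?_
    by_cases hb : (traj f s a t, b) ∈ E
    · rw [Set.indicator_of_mem ((e3 b).2 ⟨hr, hb⟩), Set.indicator_of_mem (by exact hb)]
      rfl
    · rw [Set.indicator_of_notMem (fun hc => hb ((e3 b).1 hc).2), Set.indicator_of_notMem (by exact hb)]
  · refine le_trans (le_of_eq ?_) zero_le
    rw [← lintegral_zero (μ := PI μ)]
    refine lintegral_congr fun b => ?_
    rw [Set.indicator_of_notMem fun hc => hr ((e3 b).1 hc).1]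

private theorem Low2_shift {X : Type} [MeasurableSpace X] (μ : Measure X)
    [IsProbabilityMeasure μ] (E : Set (ℕ → X)) (hE : MeasurableSet E) (t : ℕ) :
    PI μ {ω | (fun i => ω (t + i)) ∈ E} ≤ PI μ E := by
  have h := Low2_win μ (fun (_ : Unit) (_ : X) => ()) measurable_const
    (Prod.snd ⁻¹' E) (measurable_snd hE) (PI μ E) () t
  refine le_trans (measure_mono ?_) h
  intro ω hω
  exact ⟨le_rfl, hω⟩

private theorem Low2_rpow {k : ℝ} (hk : 0 < k) (x : ℝ) : k ^ (-x) = Real.exp (ell k * x) := by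
  rw [Real.rpow_def_of_pos hk]
  unfold ell
  rw [one_div, Real.log_inv]
  congr 1
  ring

private theorem Low2_tr (d : ℕ) {β k : ℝ} (hβ : 0 < β) (hk : 0 ≤ k) (h : ℝ) (L : ℕ)
    (G : (boxS d L → ℂ) × (boxS d L → ℂ)) (ω : ℕ → boxS d L → ℂ) (n : ℕ) :
    ((PS2 d β k hβ hk).tr h L G ω n).1 = traj (st2 d β k h L) G.1 ω n := by
  induction n with
  | zero => rfl
  | succ n ih =>
    show st2 d β k h L ((PS2 d β k hβ hk).tr h L G ω n).1 (ω n) =
      st2 d β k h L (traj (st2 d β k h L) G.1 ω n) (ω n)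
    rw [ih]

/-- upper bound of all values off the exceptional event of the last passage functional -/
private theorem Low2_up (d : ℕ) {β k h : ℝ} (hβ : 0 < β) (hk : 0 < k) (hk2 : k ≤ 1 / 2) (L : ℕ)
    (hh : 0 < h) (T : ℝ) (hT : 4 * d * k ^ (3 / 8 : ℝ) * T ≤ Real.log 2)
    (G : boxS d L → ℂ) (z : boxS d L) (M X0 M1 : ℝ)
    (hG : ∀ v, ‖G v‖ ≤ k ^ (-(X0 + M + (boxNet d L).dist z v / 2)))
    (ω : ℕ → boxS d L → ℂ) (n n' : ℕ) (hn : n * h ≤ T) (hnn : n ≤ n')
    (hM : ∀ v, (boxMSet d L).lppM (1 / 8) (fun _ => 0) (gz k h ω) n' v ≤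
      M1 + (boxNet d L).dist z v / 8) (v : boxS d L) :
    ‖traj (st2 d β k h L) G ω n v‖ ≤
      k ^ (-(X0 + M + M1 + 1 + 5 / 8 * (boxNet d L).dist z v)) := by
  have hk1 : k < 1 := by linarith
  have hell := ell_pos hk hk1
  have hD : ∀ j, DStep (boxNet d L) h k (fun x => bC h (ω j x))
      (nrm (traj (st2 d β k h L) G ω j)) (nrm (traj (st2 d β k h L) G ω (j + 1))) := by
    intro j
    refine ⟨fun x => norm_nonneg _, fun x => norm_nonneg _, fun x => ?_⟩
    have := (PS2 d β k hβ hk.le).u1 h L (traj (st2 d β k h L) G ω j, 0) (ω j) hh x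
    exact this
  have h1 := grow_path d L k h (3 / 8) (1 / 8) (1 / 2) 1 hk hk1 hh zero_le_one (by norm_num)
    (by norm_num) (by norm_num) (by norm_num) (fun j x => bC h (ω j x))
    (fun j => nrm (traj (st2 d β k h L) G ω j)) hD
    (fun v => X0 + M + (boxNet d L).dist z v / 2)
    (fun x y hy => by
      have h2 := (boxNet d L).dist_tri z x y
      rw [(boxNet d L).dist_nb x y hy] at h2
      have h3 : ((boxNet d L).dist z y : ℝ) ≤ (boxNet d L).dist z x + 1 := by exact_mod_cast h2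
      linarith)
    (fun x => by
      have := hG x
      rw [Low2_rpow hk] at this
      rw [one_mul]
      exact this) n v
  have hgz : (fun j y => bC h (ω j y) / ell k) = gz k h ω := by
    funext j y
    rfl
  rw [hgz, one_mul] at h1
  have h2 : (boxMSet d L).lpp (1 / 8) (fun _ => 0) (gz k h ω) n v ≤
      M1 + (boxNet d L).dist z v / 8 :=
    (le_lppM _ _ _ _ hnn v).trans (hM v)
  have h3 : (1 + 4 * d * k ^ (3 / 8 : ℝ) * h) ^ n ≤ 2 := by
    have a1 : 1 + 4 * d * k ^ (3 / 8 : ℝ) * h ≤ Real.exp (4 * d * k ^ (3 / 8 : ℝ) * h) := by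
      have := Real.add_one_le_exp (4 * d * k ^ (3 / 8 : ℝ) * h)
      linarith
    have a0 : 0 ≤ 4 * d * k ^ (3 / 8 : ℝ) := by positivity
    calc (1 + 4 * d * k ^ (3 / 8 : ℝ) * h) ^ n
        ≤ (Real.exp (4 * d * k ^ (3 / 8 : ℝ) * h)) ^ n := pow_le_pow_left₀ (by positivity) a1 n
      _ = Real.exp (4 * d * k ^ (3 / 8 : ℝ) * (n * h)) := by
          rw [← Real.exp_nat_mul]
          congr 1
          ring
      _ ≤ Real.exp (Real.log 2) := by
          apply Real.exp_le_exp.2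
          refine le_trans ?_ hT
          exact mul_le_mul_of_nonneg_left hn a0
      _ = 2 := Real.exp_log (by norm_num)
  have h4 : (2 : ℝ) ≤ Real.exp (ell k) := by
    have : Real.exp (ell k) = 1 / k := by
      unfold ell
      rw [Real.exp_log (by positivity)]
    rw [this, le_div_iff₀ hk]
    linarith
  have h5 : ‖traj (st2 d β k h L) G ω n v‖ ≤ Real.exp (ell k) *
      Real.exp (ell k * (M1 + (boxNet d L).dist z v / 8 + (X0 + M + (boxNet d L).dist z v / 2))) := by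
    refine le_trans h1 ?_
    refine mul_le_mul (h3.trans h4) ?_ (Real.exp_pos _).le (Real.exp_pos _).le
    apply Real.exp_le_exp.2
    apply mul_le_mul_of_nonneg_left _ hell.le
    linarith
  refine h5.trans (le_of_eq ?_)
  rw [Low2_rpow hk, ← Real.exp_add]
  congr 1
  ring

/-- deterministic core: iteration over the windows -/
private theorem Low2_step {d L : ℕ} {k : ℝ} (hk : 0 < k) (hk1 : k < 1) (g : ℕ → boxS d L → ℝ)
    (u : ℕ → boxS d L → ℝ) (J : ℕ) (t : ℕ → ℕ)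
    (htm : ∀ j, t j ≤ t (j + 1)) (z w : boxS d L) (X0 M M1 M2 εw : ℝ) (hX0 : X0 ≤ 1 / 8)
    (hM : 1 ≤ M) (hεw : 0 ≤ εw) (hJε : J * εw ≤ 1)
    (hzw : (boxNet d L).dist z w ≤ M)
    (hup : ∀ j, j ≤ J → ∀ v, u (t j) v ≤
      k ^ (-(X0 + M + M1 + 1 + 5 / 8 * (boxNet d L).dist z v)))
    (hosc : ∀ i j, i ≤ j → j ≤ J → ∀ i', i' ≤ t j → |∑ l ∈ Finset.Ico i' (t j), g l w| ≤ M2)
    (m0 : ℕ) (hm0 : 8 / 3 * (3 * M + M1 + M2 + 3) ≤ m0)
    (hstep : ∀ j, j < J → ∀ z', (∀ v, u (t j) v * k ^ (boxNet d L).dist w v ≤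
        u (t j) z' * k ^ (boxNet d L).dist w z') → (boxNet d L).dist w z' ≤ m0 →
      ∀ v, min (k ^ (3 / 64 : ℝ)) (k ^ εw * Real.exp (ell k *
        ∑ l ∈ Finset.Ico (t j) (t (j + 1)), g l w) *
        (u (t j) v * k ^ (boxNet d L).dist w v)) ≤ u (t (j + 1)) w)
    (j : ℕ) (hj : j < J) (v0 : boxS d L)
    (hc : k ^ (j * εw - (X0 - (boxNet d L).dist z w + ∑ l ∈ Finset.Ico 0 (t j), g l w)) ≤
        u (t j) v0 * k ^ (boxNet d L).dist w v0 ∨
      ∃ i, i ≤ t j ∧ k ^ (j * εw - (-(3 / 64) + ∑ l ∈ Finset.Ico i (t j), g l w)) ≤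
        u (t j) v0 * k ^ (boxNet d L).dist w v0) :
    k ^ ((j + 1 : ℕ) * εw - (X0 - (boxNet d L).dist z w + ∑ l ∈ Finset.Ico 0 (t (j + 1)), g l w)) ≤
        u (t (j + 1)) w ∨
      ∃ i, i ≤ t (j + 1) ∧
        k ^ ((j + 1 : ℕ) * εw - (-(3 / 64) + ∑ l ∈ Finset.Ico i (t (j + 1)), g l w)) ≤
        u (t (j + 1)) w := by
  have hjε : (j : ℝ) * εw ≤ 1 := by
    refine le_trans ?_ hJε
    have : (j : ℝ) ≤ J := by exact_mod_cast hj.le
    exact mul_le_mul_of_nonneg_right this hεw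
  have hjε0 : 0 ≤ (j : ℝ) * εw := by positivity
  -- the maximizer
  obtain ⟨z', -, hz'⟩ := Finset.exists_max_image (Finset.univ : Finset (boxS d L))
    (fun v => u (t j) v * k ^ (boxNet d L).dist w v) ⟨w, Finset.mem_univ w⟩
  have hmax : ∀ v, u (t j) v * k ^ (boxNet d L).dist w v ≤
      u (t j) z' * k ^ (boxNet d L).dist w z' := fun v => hz' v (Finset.mem_univ v)
  have hlow : k ^ (M + M2 + 2 - X0) ≤ u (t j) v0 * k ^ (boxNet d L).dist w v0 := by
    rcases hc with hc | ⟨i, hi, hc⟩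
    · refine le_trans ?_ hc
      apply Real.rpow_le_rpow_of_exponent_ge hk hk1.le
      have := (abs_le.1 (hosc j j le_rfl hj.le 0 (Nat.zero_le _))).1
      linarith
    · refine le_trans ?_ hc
      apply Real.rpow_le_rpow_of_exponent_ge hk hk1.le
      have := (abs_le.1 (hosc j j le_rfl hj.le i hi)).1
      linarith
  have hdist : (boxNet d L).dist w z' ≤ m0 := by
    have h1 : k ^ (M + M2 + 2 - X0) ≤
        k ^ (-(X0 + M + M1 + 1 + 5 / 8 * (boxNet d L).dist z z') + ((boxNet d L).dist w z' : ℕ)) := by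
      refine hlow.trans ((hmax v0).trans ?_)
      rw [Real.rpow_add hk, Real.rpow_natCast]
      exact mul_le_mul_of_nonneg_right (hup j hj.le z') (by positivity)
    have h2 := (Real.rpow_le_rpow_left_iff_of_base_lt_one hk hk1).1 h1
    have h3 : ((boxNet d L).dist z z' : ℝ) ≤ (boxNet d L).dist z w + (boxNet d L).dist w z' := by
      exact_mod_cast (boxNet d L).dist_tri z w z'
    have h4 : ((boxNet d L).dist w z' : ℝ) ≤ m0 := by
      refine le_trans ?_ hm0
      linarith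
    exact_mod_cast h4
  have hs := hstep j hj z' hmax hdist v0
  rcases min_le_iff.1 (le_refl (min (k ^ (3 / 64 : ℝ)) (k ^ εw * Real.exp (ell k *
        ∑ l ∈ Finset.Ico (t j) (t (j + 1)), g l w) *
        (u (t j) v0 * k ^ (boxNet d L).dist w v0)))) with h1 | h1
  · right
    refine ⟨t (j + 1), le_rfl, ?_⟩
    refine le_trans ?_ (h1.trans hs)
    rw [Finset.Ico_self, Finset.sum_empty]
    apply Real.rpow_le_rpow_of_exponent_ge hk hk1.le
    have : 0 ≤ ((j + 1 : ℕ) : ℝ) * εw := by positivity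
    linarith
  · have e1 : Real.exp (ell k * ∑ l ∈ Finset.Ico (t j) (t (j + 1)), g l w) =
        k ^ (-(∑ l ∈ Finset.Ico (t j) (t (j + 1)), g l w)) := (Low2_rpow hk _).symm
    rw [e1] at h1 hs
    have e2 : ∀ i, i ≤ t j → ∑ l ∈ Finset.Ico i (t (j + 1)), g l w =
        ∑ l ∈ Finset.Ico i (t j), g l w + ∑ l ∈ Finset.Ico (t j) (t (j + 1)), g l w := fun i hi =>
      (Finset.sum_Ico_consecutive (fun l => g l w) hi (htm j)).symm
    rcases hc with hc | ⟨i, hi, hc⟩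
    · left
      refine le_trans ?_ (h1.trans hs)
      refine le_trans (le_of_eq ?_) (mul_le_mul_of_nonneg_left hc
        (by positivity : 0 ≤ k ^ εw * k ^ (-(∑ l ∈ Finset.Ico (t j) (t (j + 1)), g l w))))
      rw [← Real.rpow_add hk, ← Real.rpow_add hk, e2 0 (Nat.zero_le _)]
      congr 1
      push_cast
      ring
    · right
      refine ⟨i, hi.trans (htm j), ?_⟩
      refine le_trans ?_ (h1.trans hs)
      refine le_trans (le_of_eq ?_) (mul_le_mul_of_nonneg_left hc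
        (by positivity : 0 ≤ k ^ εw * k ^ (-(∑ l ∈ Finset.Ico (t j) (t (j + 1)), g l w))))
      rw [← Real.rpow_add hk, ← Real.rpow_add hk, e2 i hi]
      congr 1
      push_cast
      ring


/-! ### the exceptional event of a window -/

/-- bad event of a window -/
private def Low2_W {d L : ℕ} (β k h ε : ℝ) (n : ℕ) (w : boxS d L) :
    Set ((boxS d L → ℂ) × (ℕ → boxS d L → ℂ)) :=
  {p | Reg2 (1 / 64) (gz k h p.2) n w ∧ ∃ v, ‖traj (st2 d β k h L) p.1 p.2 n w‖ <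
    min (k ^ (3 / 64 : ℝ)) (k ^ ε * Real.exp (ell k * ∑ j ∈ Finset.range n, gz k h p.2 j w) *
      (‖p.1 v‖ * k ^ (boxNet d L).dist w v))}

private theorem Low2_gz_meas {d L : ℕ} (k h : ℝ) :
    Measurable (fun ω : ℕ → boxS d L → ℂ => gz k h ω) := by
  unfold gz
  refine measurable_pi_lambda _ fun j => measurable_pi_lambda _ fun y => ?_
  exact ((Complex.measurable_re.comp ((measurable_pi_apply y).comp
    (measurable_pi_apply (X := fun _ : ℕ => boxS d L → ℂ) j))).const_mul _).div_const _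

private theorem Low2_gz_meas1 {d L : ℕ} (k h : ℝ) (j : ℕ) (y : boxS d L) :
    Measurable (fun ω : ℕ → boxS d L → ℂ => gz k h ω j y) :=
  (measurable_pi_apply y).comp ((measurable_pi_apply (X := fun _ : ℕ => boxS d L → ℝ) j).comp
    (Low2_gz_meas k h))

private theorem Low2_W_meas {d L : ℕ} (β k h ε : ℝ) (n : ℕ) (w : boxS d L) :
    MeasurableSet (Low2_W β k h ε n w) := by
  have h1 : MeasurableSet {p : (boxS d L → ℂ) × (ℕ → boxS d L → ℂ) |
      Reg2 (1 / 64) (gz k h p.2) n w} :=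
    ((Low2_gz_meas k h).comp measurable_snd) (measurableSet_Reg2 (1 / 64) n w)
  have ht := measurable_traj (st2 d β k h L) (measurable_st2 d β k h L) n
  have h2 : MeasurableSet {p : (boxS d L → ℂ) × (ℕ → boxS d L → ℂ) |
      ∃ v, ‖traj (st2 d β k h L) p.1 p.2 n w‖ <
    min (k ^ (3 / 64 : ℝ)) (k ^ ε * Real.exp (ell k * ∑ j ∈ Finset.range n, gz k h p.2 j w) *
      (‖p.1 v‖ * k ^ (boxNet d L).dist w v))} := by
    have e : {p : (boxS d L → ℂ) × (ℕ → boxS d L → ℂ) |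
      ∃ v, ‖traj (st2 d β k h L) p.1 p.2 n w‖ <
    min (k ^ (3 / 64 : ℝ)) (k ^ ε * Real.exp (ell k * ∑ j ∈ Finset.range n, gz k h p.2 j w) *
      (‖p.1 v‖ * k ^ (boxNet d L).dist w v))} = ⋃ v, {p |
      ‖traj (st2 d β k h L) p.1 p.2 n w‖ <
    min (k ^ (3 / 64 : ℝ)) (k ^ ε * Real.exp (ell k * ∑ j ∈ Finset.range n, gz k h p.2 j w) *
      (‖p.1 v‖ * k ^ (boxNet d L).dist w v))} := by
      ext p
      simp only [Set.mem_ofPred_eq, Set.mem_iUnion]
    rw [e]
    refine MeasurableSet.iUnion fun v => measurableSet_lt ?_ ?_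
    · exact ((measurable_pi_apply w).comp ht).norm
    · refine measurable_const.min (Measurable.mul (Measurable.const_mul ?_ _) ?_)
      · refine Real.measurable_exp.comp (Measurable.const_mul (Finset.measurable_sum _ fun j _ => ?_) _)
        exact (Low2_gz_meas1 k h j w).comp measurable_snd
      · exact (((measurable_pi_apply v).comp measurable_fst).norm).mul_const _
  exact h1.inter h2

private theorem Low2_W_prob {d L : ℕ} {β k h ε0 c ε : ℝ} {m0 : ℕ} (hk : 0 < k) (n : ℕ)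
    (w : boxS d L)
    (H : ∀ (G : boxS d L → ℂ) (z x : boxS d L), (boxNet d L).dist x z ≤ m0 →
      (∀ v, ‖G v‖ * k ^ (boxNet d L).dist x v ≤ ‖G z‖ * k ^ (boxNet d L).dist x z) →
      ‖G z‖ ≤ k ^ (-ε0) →
      ∀ H : boxS d L → ℝ, (∀ v, ∀ y ∈ (boxNet d L).nb v, H y ≤ H v + 3 / 4) →
      (∀ v, (boxNet d L).dist x v ≤ 1 → H v ≤ 1 / 16) → (∀ v, ‖G v‖ ≤ k ^ (-(H v))) →
      ∀ n : ℕ, 1 ≤ n * h → n * h ≤ ell k ^ 3 →
        PI (Measure.pi fun _ : boxS d L => gC) {ω | Reg2 (1 / 64) (gz k h ω) n x ∧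
            ‖traj (st2 d β k h L) G ω n x‖ < min (k ^ (3 * (1 / 64 : ℝ)))
              (k ^ (ε + (boxNet d L).dist x z) *
                Real.exp (ell k * ∑ j ∈ Finset.range n, gz k h ω j x) * ‖G z‖)}
          ≤ ENNReal.ofReal (k ^ c))
    (hn : 1 ≤ n * h) (hn3 : n * h ≤ ell k ^ 3) (S : boxS d L → ℂ) (z' : boxS d L)
    (hz' : (boxNet d L).dist w z' ≤ m0)
    (hmax : ∀ v, ‖S v‖ * k ^ (boxNet d L).dist w v ≤ ‖S z'‖ * k ^ (boxNet d L).dist w z')
    (hs : ‖S z'‖ ≤ k ^ (-ε0)) (Hf : boxS d L → ℝ)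
    (h1 : ∀ v, ∀ y ∈ (boxNet d L).nb v, Hf y ≤ Hf v + 3 / 4)
    (h2 : ∀ v, (boxNet d L).dist w v ≤ 1 → Hf v ≤ 1 / 16) (h3 : ∀ v, ‖S v‖ ≤ k ^ (-(Hf v))) :
    PI (Measure.pi fun _ : boxS d L => gC) {b | (S, b) ∈ Low2_W β k h ε n w} ≤
      ENNReal.ofReal (k ^ c) := by
  refine le_trans (measure_mono ?_) (H S z' w hz' hmax hs Hf h1 h2 h3 n hn hn3)
  rintro b ⟨hR, v, hv⟩
  refine ⟨hR, lt_of_lt_of_le hv (min_le_min (le_of_eq (by norm_num)) ?_)⟩
  rw [Real.rpow_add hk, Real.rpow_natCast]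
  calc k ^ ε * Real.exp (ell k * ∑ j ∈ Finset.range n, gz k h b j w) *
        (‖S v‖ * k ^ (boxNet d L).dist w v)
      ≤ k ^ ε * Real.exp (ell k * ∑ j ∈ Finset.range n, gz k h b j w) *
        (‖S z'‖ * k ^ (boxNet d L).dist w z') :=
        mul_le_mul_of_nonneg_left (hmax v) (by positivity)
    _ = k ^ ε * k ^ (boxNet d L).dist w z' *
        Real.exp (ell k * ∑ j ∈ Finset.range n, gz k h b j w) * ‖S z'‖ := by ring

/-! ### constants -/

private theorem Low2_sigma (T0 C3 s1 p : ℝ) (hT : 0 < T0) (hC : 1 ≤ C3) (hs : 0 < s1) (hp : 0 < p) :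
    ∃ (σ : ℝ) (J : ℕ), 0 < σ ∧ σ ≤ 1 ∧ 2 * σ ≤ s1 ∧ C3 * Real.sqrt (2 * σ) ≤ 1 / 64 ∧ 1 ≤ J ∧
      T0 + 1 ≤ σ * J ∧ J * (C3 * Real.exp (-((1 / 64) / Real.sqrt (2 * σ)))) ≤ p / 8 := by
  have hC0 : 0 < C3 := by linarith
  set κ : ℝ := 1 / 64 with hκ
  have hκ0 : 0 < κ := by rw [hκ]; norm_num
  set σ : ℝ := min (min 1 (s1 / 2)) (min ((κ / C3) ^ 2 / 2) (p * κ ^ 4 / (768 * C3 * (T0 + 2))))
    with hσ
  have hσ0 : 0 < σ := by
    rw [hσ]
    refine lt_min (lt_min one_pos (by positivity)) (lt_min (by positivity) (by positivity))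
  have a1 : σ ≤ 1 := (min_le_left _ _).trans (min_le_left _ _)
  have a2 : σ ≤ s1 / 2 := (min_le_left _ _).trans (min_le_right _ _)
  have a3 : σ ≤ (κ / C3) ^ 2 / 2 := (min_le_right _ _).trans (min_le_left _ _)
  have a4 : σ ≤ p * κ ^ 4 / (768 * C3 * (T0 + 2)) := (min_le_right _ _).trans (min_le_right _ _)
  set J : ℕ := ⌈(T0 + 1) / σ⌉₊ with hJ
  have hq : 0 < (T0 + 1) / σ := by positivity
  have hJ1 : 1 ≤ J := Nat.one_le_iff_ne_zero.2 (Nat.ceil_pos.2 hq).ne'
  have hJ2 : (T0 + 1) / σ ≤ J := Nat.le_ceil _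
  have hJ3 : (J : ℝ) ≤ (T0 + 2) / σ := by
    have h1 : (J : ℝ) < (T0 + 1) / σ + 1 := Nat.ceil_lt_add_one hq.le
    have h2 : (1 : ℝ) ≤ 1 / σ := by rw [le_div_iff₀ hσ0]; linarith
    have h3 : (T0 + 2) / σ = (T0 + 1) / σ + 1 / σ := by ring
    rw [h3]
    linarith
  have hs2 : 0 < Real.sqrt (2 * σ) := Real.sqrt_pos.2 (by positivity)
  refine ⟨σ, J, hσ0, a1, by linarith, ?_, hJ1, ?_, ?_⟩
  · have h1 : Real.sqrt (2 * σ) ≤ κ / C3 := by
      rw [Real.sqrt_le_left (by positivity)]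
      linarith
    calc C3 * Real.sqrt (2 * σ) ≤ C3 * (κ / C3) := mul_le_mul_of_nonneg_left h1 hC0.le
      _ = κ := by field_simp
  · rw [div_le_iff₀ hσ0] at hJ2
    linarith
  · have h1 : Real.exp (-(κ / Real.sqrt (2 * σ))) ≤ 96 * σ ^ 2 / κ ^ 4 := by
      set y : ℝ := κ / Real.sqrt (2 * σ) with hy
      have hy0 : 0 < y := div_pos hκ0 hs2
      have h2 := Real.pow_div_factorial_le_exp y hy0.le 4
      have h3 : y ^ 4 = κ ^ 4 / (4 * σ ^ 2) := by
        rw [hy, div_pow]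
        congr 1
        have : Real.sqrt (2 * σ) ^ 4 = (Real.sqrt (2 * σ) ^ 2) ^ 2 := by ring
        rw [this, Real.sq_sqrt (by positivity)]
        ring
      rw [Real.exp_neg]
      have h4 : κ ^ 4 / (96 * σ ^ 2) ≤ Real.exp y := by
        refine le_trans (le_of_eq ?_) h2
        rw [h3]
        have : ((Nat.factorial 4 : ℕ) : ℝ) = 24 := by norm_num [Nat.factorial]
        rw [this]
        field_simp
        norm_num
      calc (Real.exp y)⁻¹ ≤ (κ ^ 4 / (96 * σ ^ 2))⁻¹ :=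
            inv_anti₀ (by positivity) h4
        _ = 96 * σ ^ 2 / κ ^ 4 := by rw [inv_div]
    calc (J : ℝ) * (C3 * Real.exp (-(κ / Real.sqrt (2 * σ))))
        ≤ (T0 + 2) / σ * (C3 * (96 * σ ^ 2 / κ ^ 4)) := by
          refine mul_le_mul hJ3 (mul_le_mul_of_nonneg_left h1 hC0.le) (by positivity) (by positivity)
      _ = 96 * C3 * (T0 + 2) * σ / κ ^ 4 := by
          field_simp
      _ ≤ 96 * C3 * (T0 + 2) * (p * κ ^ 4 / (768 * C3 * (T0 + 2))) / κ ^ 4 := by
          apply div_le_div_of_nonneg_right _ (by positivity)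
          exact mul_le_mul_of_nonneg_left a4 (by positivity)
      _ = p / 8 := by
          field_simp
          norm_num

private theorem Low2_ell : Filter.Tendsto ell (nhdsWithin 0 (Set.Ioi 0)) Filter.atTop := by
  have h1 : ell = fun k => -Real.log k := by
    funext k
    unfold ell
    rw [one_div, Real.log_inv]
  rw [h1]
  exact Filter.tendsto_neg_atBot_atTop.comp Real.tendsto_log_nhdsGT_zero

private theorem Low2_pow {c : ℝ} (hc : 0 < c) (a : ℝ) (ha : 0 < a) (B : ℝ) :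
    ∀ᶠ k in nhdsWithin (0 : ℝ) (Set.Ioi 0), B * k ^ c ≤ a := by
  have h1 : Filter.Tendsto (fun k : ℝ => B * k ^ c) (nhds 0) (nhds (B * 0 ^ c)) :=
    ((Real.continuousAt_rpow_const 0 c (Or.inr hc.le)).tendsto).const_mul B
  rw [Real.zero_rpow hc.ne', mul_zero] at h1
  exact (h1.mono_left nhdsWithin_le_nhds).eventually (Iic_mem_nhds ha)

private theorem Low2_grow (B T0 a : ℝ) (hB : 0 ≤ B) (hT : 0 < T0) (ha : 0 < a) :
    ∀ᶠ k in nhdsWithin (0 : ℝ) (Set.Ioi 0), B * k ^ (3 / 8 : ℝ) * (T0 * ell k ^ 2 + 5) ≤ a := by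
  have h1 := Low2_pow (c := 1 / 4) (by norm_num) a ha (B * (T0 + 5) * 128)
  filter_upwards [h1, self_mem_nhdsWithin, Low2_ell.eventually_ge_atTop 1] with k h2 hk h3
  have hk0 : 0 < k := hk
  refine le_trans ?_ h2
  have h4 : T0 * ell k ^ 2 + 5 ≤ (T0 + 5) * ell k ^ 2 := by nlinarith
  have h5 : ell k ^ 2 ≤ 128 * k ^ (-(1 / 8) : ℝ) := by
    rw [Low2_rpow hk0]
    have h6 := Real.pow_div_factorial_le_exp (ell k * (1 / 8)) (by positivity) 2
    have h7 : ((Nat.factorial 2 : ℕ) : ℝ) = 2 := by norm_num [Nat.factorial]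
    rw [h7] at h6
    nlinarith
  calc B * k ^ (3 / 8 : ℝ) * (T0 * ell k ^ 2 + 5)
      ≤ B * k ^ (3 / 8 : ℝ) * ((T0 + 5) * (128 * k ^ (-(1 / 8) : ℝ))) := by
        apply mul_le_mul_of_nonneg_left _ (by positivity)
        exact h4.trans (mul_le_mul_of_nonneg_left h5 (by positivity))
    _ = B * (T0 + 5) * 128 * (k ^ (3 / 8 : ℝ) * k ^ (-(1 / 8) : ℝ)) := by ring
    _ = B * (T0 + 5) * 128 * k ^ (1 / 4 : ℝ) := by
        rw [← Real.rpow_add hk0]
        norm_num

/-- lower bound of a value after a block -/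
def LowE {d L : ℕ} (k : ℝ) (g : ℕ → boxS d L → ℝ) (m : ℕ) (w : boxS d L) (Y ε u : ℝ) : Prop :=
  k ^ (ε - (Y + ∑ j ∈ Finset.range m, g j w)) ≤ u ∨
    ∃ j, j ≤ m ∧ k ^ (ε - (-(1 / 16) + ∑ l ∈ Finset.Ico j m, g l w)) ≤ u

/-- window starts -/
private def Low2_t (J m j : ℕ) : ℕ := if j < J then j * (m / J) else m

private theorem Low2_t_facts {J m : ℕ} (hJ : 1 ≤ J) : Low2_t J m 0 = 0 ∧ Low2_t J m J = m ∧
    (∀ j, Low2_t J m j ≤ m) ∧ (∀ j, Low2_t J m j ≤ Low2_t J m (j + 1)) ∧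
    (∀ j, 1 ≤ j → j < J → m / J ≤ Low2_t J m j) ∧
    (∀ j, j < J → m / J ≤ Low2_t J m (j + 1) - Low2_t J m j ∧
      Low2_t J m (j + 1) - Low2_t J m j ≤ m / J + J) := by
  have hJ0 : 0 < J := hJ
  have hdiv : J * (m / J) ≤ m := Nat.mul_div_le m J
  have hmod : m < J * (m / J) + J := by
    have h1 := Nat.div_add_mod m J
    have h2 := Nat.mod_lt m hJ0
    generalize m / J = q at *
    generalize m % J = r at *
    omega
  unfold Low2_t
  generalize m / J = q at *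
  have key : ∀ j, j < J → j * q + q ≤ m := by
    intro j hj
    have h1 : (j + 1) * q ≤ J * q := Nat.mul_le_mul_right _ hj
    have h2 : (j + 1) * q = j * q + q := by ring
    omega
  refine ⟨?_, ?_, ?_, ?_, ?_, ?_⟩
  · rw [if_pos hJ0, zero_mul]
  · rw [if_neg (lt_irrefl _)]
  · intro j
    split_ifs with h
    · have := key j h
      omega
    · exact le_rfl
  · intro j
    split_ifs with h1 h2
    · exact Nat.mul_le_mul_right _ (Nat.le_succ j)
    · have := key j h1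
      omega
    · omega
    · exact le_rfl
  · intro j h1 h2
    rw [if_pos h2]
    exact Nat.le_mul_of_pos_left _ h1
  · intro j hj
    rw [if_pos hj]
    by_cases h1 : j + 1 < J
    · rw [if_pos h1]
      have h2 : (j + 1) * q = j * q + q := by ring
      omega
    · rw [if_neg h1]
      have h2 : J = j + 1 := by omega
      have h3 := key j hj
      have h4 : J * q = j * q + q := by
        rw [h2]
        ring
      omega

private theorem Low2_osc_meas {S : Type} [Fintype S] (n : ℕ) (x : S) :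
    Measurable (fun g : ℕ → S → ℝ => osc (fun j => g j x) n) := by
  have h1 : Measurable (fun b : ℕ → ℝ => pmax b n) := by
    unfold pmax
    refine Finset.measurable_range_sup'' (fun k _ => ?_)
    exact Finset.measurable_sum _ (fun j _ => measurable_pi_apply j)
  have h2 : Measurable (fun b : ℕ → ℝ => osc b n) := by
    unfold osc
    refine h1.add (h1.comp ?_)
    exact measurable_pi_lambda _ (fun j => (measurable_pi_apply j).neg)
  refine h2.comp ?_
  exact measurable_pi_lambda _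
    (fun j => (measurable_pi_apply x).comp (measurable_pi_apply (X := fun _ => S → ℝ) j))

/-- exceptional events of the noise: last passage functional, oscillation at `w`, regularity in the windows -/
private theorem Low2_noise (d L : ℕ) (k h : ℝ) (hk : 0 < k) (hk1 : k < 1) (hh : 0 < h)
    (T0 p lam0 C1 C2 C3 s1 M1 M2 σ : ℝ) (J m : ℕ) (hT : 0 < T0) (hlam : 0 < lam0) (hC1 : 0 < C1)
    (hM2 : 0 ≤ M2) (hJ : 1 ≤ J) (hσ : 0 < σ) (hC3 : 1 ≤ C3)
    (htail : ∀ (S : Type) [Fintype S] (M : MSet S d) (v : ℝ), 0 < v → v ≤ 1 / lam0 ^ 2 →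
      ∀ (n : ℕ) (x : S) (r : ℝ), PI (nz S) {ω | r ≤ M.lppM (1 / 8) (fun _ => 0) (sc v ω) n x}
          ≤ ENNReal.ofReal (Real.exp (C1 * (n * v + 1) - lam0 * r)))
    (hsum : ∀ (S : Type) [Fintype S] (M : MSet S d) (x : S),
      ∑ y, Real.exp (-(lam0 / 8 * (M.dd x y : ℝ))) ≤ C2)
    (hreg : ∀ (L n : ℕ) (v κ : ℝ), 0 < v → 1 ≤ n → v * n ≤ s1 → C3 * Real.sqrt (v * n) ≤ κ →
      ∀ x : boxS d L, PI (nz (boxS d L)) {ω | ¬ Reg2 κ (sc v ω) n x} ≤
        ENNReal.ofReal (C3 * Real.exp (-(κ / Real.sqrt (v * n)))))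
    (hM1p : Real.exp (C1 * (T0 + 2) - lam0 * M1) * C2 ≤ p / 8)
    (hM2p : 4 * Real.exp (-(M2 ^ 2) / (32 * (T0 + 1))) ≤ p / 8)
    (hσ1 : 2 * σ ≤ s1) (hσ2 : C3 * Real.sqrt (2 * σ) ≤ 1 / 64)
    (hσ3 : J * (C3 * Real.exp (-((1 / 64) / Real.sqrt (2 * σ)))) ≤ p / 8)
    (hv : h / ell k ^ 2 ≤ 1 / lam0 ^ 2) (hm0 : 0 < m) (hm : h / ell k ^ 2 * m ≤ T0 + 1)
    (t : ℕ → ℕ) (hn1 : ∀ j, j < J → 1 ≤ t (j + 1) - t j)
    (hn2 : ∀ j, j < J → h / ell k ^ 2 * ((t (j + 1) - t j : ℕ) : ℝ) ≤ 2 * σ)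
    (z w : boxS d L) :
    PI (Measure.pi fun _ : boxS d L => gC)
      ({ω | ∃ v, M1 + (boxNet d L).dist z v / 8 ≤
          (boxMSet d L).lppM (1 / 8) (fun _ => 0) (gz k h ω) m v} ∪
        {ω | M2 ≤ osc (fun j => gz k h ω j w) m} ∪
        {ω | ∃ j, j < J ∧ ¬ Reg2 (1 / 64) (gz k h (fun i => ω (t j + i))) (t (j + 1) - t j) w}) ≤
      ENNReal.ofReal (p / 8 + p / 8 + p / 8) := by
  set P := PI (Measure.pi fun _ : boxS d L => gC) with hP
  have hell := ell_pos hk hk1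
  have hv0 : 0 < h / ell k ^ 2 := by positivity
  have hp8 : 0 ≤ p / 8 := le_trans (by positivity) hσ3
  -- first event
  have h1 : P {ω | ∃ v, M1 + (boxNet d L).dist z v / 8 ≤
      (boxMSet d L).lppM (1 / 8) (fun _ => 0) (gz k h ω) m v} ≤ ENNReal.ofReal (p / 8) := by
    have e : {ω : ℕ → boxS d L → ℂ | ∃ v, M1 + (boxNet d L).dist z v / 8 ≤
      (boxMSet d L).lppM (1 / 8) (fun _ => 0) (gz k h ω) m v} =
        ⋃ v, {ω | gz k h ω ∈ {g : ℕ → boxS d L → ℝ | M1 + (boxNet d L).dist z v / 8 ≤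
          (boxMSet d L).lppM (1 / 8) (fun _ => 0) g m v}} := by
      ext ω
      simp only [Set.mem_ofPred_eq, Set.mem_iUnion]
    rw [e]
    refine (measure_iUnion_le _).trans ?_
    rw [tsum_fintype]
    have e1 : ∀ v : boxS d L, P {ω | gz k h ω ∈ {g : ℕ → boxS d L → ℝ |
        M1 + (boxNet d L).dist z v / 8 ≤ (boxMSet d L).lppM (1 / 8) (fun _ => 0) g m v}} ≤
        ENNReal.ofReal (Real.exp (C1 * (T0 + 2) - lam0 * M1) *
          Real.exp (-(lam0 / 8 * ((boxMSet d L).dd z v : ℝ)))) := by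
      intro v
      rw [hP, re_law d L k h hk hk1 hh _ (measurableSet_le measurable_const
        (measurable_lppM _ _ _ _ _))]
      refine le_trans (htail (boxS d L) (boxMSet d L) _ hv0 hv m v _) ?_
      apply ENNReal.ofReal_le_ofReal
      rw [← Real.exp_add]
      apply Real.exp_le_exp.2
      have a1 : C1 * (m * (h / ell k ^ 2) + 1) ≤ C1 * (T0 + 2) :=
        mul_le_mul_of_nonneg_left (by linarith) hC1.le
      have a2 : ((boxMSet d L).dd z v : ℝ) = (boxNet d L).dist z v := rfl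
      rw [a2]
      linarith
    refine (Finset.sum_le_sum fun v _ => e1 v).trans ?_
    rw [← ENNReal.ofReal_sum_of_nonneg (fun _ _ => by positivity), ← Finset.mul_sum]
    apply ENNReal.ofReal_le_ofReal
    exact (mul_le_mul_of_nonneg_left (hsum _ (boxMSet d L) z) (Real.exp_pos _).le).trans hM1p
  have h2 : P {ω | M2 ≤ osc (fun j => gz k h ω j w) m} ≤ ENNReal.ofReal (p / 8) := by
    have e : {ω : ℕ → boxS d L → ℂ | M2 ≤ osc (fun j => gz k h ω j w) m} =
        {ω | gz k h ω ∈ {g : ℕ → boxS d L → ℝ | M2 ≤ osc (fun j => g j w) m}} := rfl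
    rw [e, hP, re_law d L k h hk hk1 hh _ (measurableSet_le measurable_const (Low2_osc_meas m w))]
    refine le_trans (osc_tail_nz (h / ell k ^ 2) hv0 m hm0 w M2 hM2) ?_
    apply ENNReal.ofReal_le_ofReal
    refine le_trans ?_ hM2p
    apply mul_le_mul_of_nonneg_left _ (by norm_num)
    apply Real.exp_le_exp.2
    rw [neg_div, neg_div, neg_le_neg_iff]
    have hm0' : (0 : ℝ) < m := by exact_mod_cast hm0
    exact div_le_div_of_nonneg_left (by positivity) (by positivity) (by linarith)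
  have h3 : P {ω | ∃ j, j < J ∧ ¬ Reg2 (1 / 64) (gz k h (fun i => ω (t j + i)))
      (t (j + 1) - t j) w} ≤ ENNReal.ofReal (p / 8) := by
    have e : {ω : ℕ → boxS d L → ℂ | ∃ j, j < J ∧ ¬ Reg2 (1 / 64)
        (gz k h (fun i => ω (t j + i))) (t (j + 1) - t j) w} =
        ⋃ j ∈ Finset.range J, {ω | (fun i => ω (t j + i)) ∈ {ω' : ℕ → boxS d L → ℂ |
          gz k h ω' ∈ {g : ℕ → boxS d L → ℝ | ¬ Reg2 (1 / 64) g (t (j + 1) - t j) w}}} := by
      ext ω
      simp only [Set.mem_ofPred_eq, Set.mem_iUnion, Finset.mem_range, exists_prop]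
    rw [e]
    refine (measure_biUnion_finset_le _ _).trans ?_
    have e1 : ∀ j ∈ Finset.range J, P {ω | (fun i => ω (t j + i)) ∈ {ω' : ℕ → boxS d L → ℂ |
          gz k h ω' ∈ {g : ℕ → boxS d L → ℝ | ¬ Reg2 (1 / 64) g (t (j + 1) - t j) w}}} ≤
        ENNReal.ofReal (C3 * Real.exp (-((1 / 64) / Real.sqrt (2 * σ)))) := by
      intro j hj
      have hj' := Finset.mem_range.1 hj
      have mE : MeasurableSet {g : ℕ → boxS d L → ℝ | ¬ Reg2 (1 / 64) g (t (j + 1) - t j) w} :=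
        (measurableSet_Reg2 (1 / 64) (t (j + 1) - t j) w).compl
      refine (Low2_shift _ _ (Low2_gz_meas k h mE) (t j)).trans ?_
      have e2 := re_law d L k h hk hk1 hh _ mE
      refine (le_of_eq e2).trans ?_
      have hn := hn1 j hj'
      have hn0 : (0 : ℝ) < ((t (j + 1) - t j : ℕ) : ℝ) := by exact_mod_cast hn
      have hsq : Real.sqrt (h / ell k ^ 2 * ((t (j + 1) - t j : ℕ) : ℝ)) ≤ Real.sqrt (2 * σ) :=
        Real.sqrt_le_sqrt (hn2 j hj')
      have hsq0 : 0 < Real.sqrt (h / ell k ^ 2 * ((t (j + 1) - t j : ℕ) : ℝ)) :=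
        Real.sqrt_pos.2 (by positivity)
      refine (hreg L (t (j + 1) - t j) (h / ell k ^ 2) (1 / 64) hv0 hn ((hn2 j hj').trans hσ1)
        ((mul_le_mul_of_nonneg_left hsq (by linarith)).trans hσ2) w).trans ?_
      apply ENNReal.ofReal_le_ofReal
      apply mul_le_mul_of_nonneg_left _ (by linarith)
      apply Real.exp_le_exp.2
      rw [neg_le_neg_iff]
      exact div_le_div_of_nonneg_left (by norm_num) hsq0 hsq
    refine (Finset.sum_le_sum e1).trans ?_
    rw [Finset.sum_const, Finset.card_range, nsmul_eq_mul, ← ENNReal.ofReal_natCast,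
      ← ENNReal.ofReal_mul (Nat.cast_nonneg _)]
    exact ENNReal.ofReal_le_ofReal hσ3
  refine (measure_union_le _ _).trans ?_
  rw [ENNReal.ofReal_add (by positivity) hp8, ENNReal.ofReal_add hp8 hp8]
  exact add_le_add ((measure_union_le _ _).trans (add_le_add h1 h2)) h3

/-- off the exceptional events the lower bound holds -/
private theorem Low2_good (d L : ℕ) (β k h : ℝ) (hβ : 0 < β) (hk : 0 < k) (hk2 : k ≤ 1 / 2)
    (hh : 0 < h) (T0 M M1 M2 ε1 ε εw ε0w ε2 ε0 Md c : ℝ) (J m m0 : ℕ) (hJ : 1 ≤ J)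
    (hM : 1 ≤ M) (hM1 : 0 ≤ M1) (hM2 : 0 ≤ M2) (hε1 : ε1 ≤ 1) (hε1ε : ε1 ≤ ε) (hεw : 0 < εw)
    (hJε : J * εw = ε1) (hε0w : 0 < ε0w) (hε2 : 0 < ε2) (hε2' : ε2 ≤ 1 / 32)
    (hε2'' : ε2 * (1 + m0) ≤ ε0w) (hε0 : 0 < ε0) (hε0' : ε0 * (2 + M) ≤ 1 / 16)
    (hε0'' : ε0 * (1 + M + m0) ≤ ε0w) (hMd : M + (M + m0) / 2 ≤ Md) (hMd' : M + (M + 1) / 2 ≤ Md)
    (hm0 : 8 / 3 * (3 * M + M1 + M2 + 3) ≤ m0)
    (hT : 4 * d * k ^ (3 / 8 : ℝ) * (T0 * ell k ^ 2 + 5) ≤ Real.log 2)
    (hmT : m * h ≤ T0 * ell k ^ 2 + 5)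
    (hw1 : ∀ j, j < J → 1 ≤ ((Low2_t J m (j + 1) - Low2_t J m j : ℕ) : ℝ) * h)
    (hw3 : ∀ j, j < J → ((Low2_t J m (j + 1) - Low2_t J m j : ℕ) : ℝ) * h ≤ ell k ^ 3)
    (H : ∀ (G : boxS d L → ℂ) (z x : boxS d L), (boxNet d L).dist x z ≤ m0 →
      (∀ v, ‖G v‖ * k ^ (boxNet d L).dist x v ≤ ‖G z‖ * k ^ (boxNet d L).dist x z) →
      ‖G z‖ ≤ k ^ (-ε0w) →
      ∀ H : boxS d L → ℝ, (∀ v, ∀ y ∈ (boxNet d L).nb v, H y ≤ H v + 3 / 4) →
      (∀ v, (boxNet d L).dist x v ≤ 1 → H v ≤ 1 / 16) → (∀ v, ‖G v‖ ≤ k ^ (-(H v))) →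
      ∀ n : ℕ, 1 ≤ n * h → n * h ≤ ell k ^ 3 →
        PI (Measure.pi fun _ : boxS d L => gC) {ω | Reg2 (1 / 64) (gz k h ω) n x ∧
            ‖traj (st2 d β k h L) G ω n x‖ < min (k ^ (3 * (1 / 64 : ℝ)))
              (k ^ (εw + (boxNet d L).dist x z) *
                Real.exp (ell k * ∑ j ∈ Finset.range n, gz k h ω j x) * ‖G z‖)}
          ≤ ENNReal.ofReal (k ^ c))
    (G : boxS d L → ℂ) (z w : boxS d L) (X0 : ℝ) (hX0 : X0 ≤ 1 / 8) (hz : k ^ (-X0) ≤ ‖G z‖)
    (hzw : (boxNet d L).dist z w ≤ M)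
    (hG : ∀ v, ‖G v‖ ≤ k ^ (-(X0 + M + (boxNet d L).dist z v / 2)))
    (hcd : Caps k (nrm G) ε0 z ∨ X0 ≤ -Md)
    (ω : ℕ → boxS d L → ℂ)
    (hB1 : ¬ ∃ v, M1 + (boxNet d L).dist z v / 8 ≤
          (boxMSet d L).lppM (1 / 8) (fun _ => 0) (gz k h ω) m v)
    (hB2 : ¬ M2 ≤ osc (fun j => gz k h ω j w) m)
    (hB3 : ¬ ∃ j, j < J ∧ ¬ Reg2 (1 / 64) (gz k h (fun i => ω (Low2_t J m j + i)))
      (Low2_t J m (j + 1) - Low2_t J m j) w)
    (hB4 : ∀ j, 1 ≤ j → j < J →
      Caps k (nrm (traj (st2 d β k h L) G ω (Low2_t J m j))) ε2 w)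
    (hB6 : ∀ j, j < J → ¬ (PI (Measure.pi fun _ : boxS d L => gC)
        {b | (traj (st2 d β k h L) G ω (Low2_t J m j), b) ∈
          Low2_W β k h εw (Low2_t J m (j + 1) - Low2_t J m j) w} ≤ ENNReal.ofReal (k ^ c) ∧
      (traj (st2 d β k h L) G ω (Low2_t J m j), fun i => ω (Low2_t J m j + i)) ∈
          Low2_W β k h εw (Low2_t J m (j + 1) - Low2_t J m j) w)) :
    LowE k (gz k h ω) m w (X0 - (boxNet d L).dist z w) ε ‖traj (st2 d β k h L) G ω m w‖ := by
  have hk1 : k < 1 := by linarith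
  have hell := ell_pos hk hk1
  have hεM : 0 ≤ ε0 * M := mul_nonneg hε0.le (by linarith)
  have hε2m : 0 ≤ ε2 * (m0 : ℝ) := mul_nonneg hε2.le (Nat.cast_nonneg _)
  have hε0m : 0 ≤ ε0 * (m0 : ℝ) := mul_nonneg hε0.le (Nat.cast_nonneg _)
  obtain ⟨t0, tJ, tle, tmono, -, -⟩ := Low2_t_facts (m := m) hJ
  set t := Low2_t J m with ht
  set u : ℕ → boxS d L → ℝ := fun j v => ‖traj (st2 d β k h L) G ω j v‖ with hu
  push Not at hB1 hB2 hB3
  have hup : ∀ j, j ≤ J → ∀ v, u (t j) v ≤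
      k ^ (-(X0 + M + M1 + 1 + 5 / 8 * (boxNet d L).dist z v)) := by
    intro j _ v
    have hle : ((t j : ℕ) : ℝ) * h ≤ T0 * ell k ^ 2 + 5 := by
      refine le_trans (mul_le_mul_of_nonneg_right ?_ hh.le) hmT
      exact_mod_cast tle j
    exact Low2_up d hβ hk hk2 L hh (T0 * ell k ^ 2 + 5) hT G z M X0 M1 hG ω (t j) m hle (tle j)
      (fun v => (hB1 v).le) v
  have hosc : ∀ i j, i ≤ j → j ≤ J → ∀ i', i' ≤ t j →
      |∑ l ∈ Finset.Ico i' (t j), gz k h ω l w| ≤ M2 := by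
    intro _ j _ _ i' hi'
    exact (sum_le_osc (fun l => gz k h ω l w) hi' (tle j)).trans hB2.le
  have hdn : ∀ (a : boxS d L) (v y : boxS d L), y ∈ (boxNet d L).nb v →
      ((boxNet d L).dist a y : ℝ) ≤ (boxNet d L).dist a v + 1 := by
    intro a v y hy
    have h2 := (boxNet d L).dist_tri a v y
    rw [(boxNet d L).dist_nb v y hy] at h2
    exact_mod_cast h2
  have hstep : ∀ j, j < J → ∀ z', (∀ v, u (t j) v * k ^ (boxNet d L).dist w v ≤
        u (t j) z' * k ^ (boxNet d L).dist w z') → (boxNet d L).dist w z' ≤ m0 →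
      ∀ v, min (k ^ (3 / 64 : ℝ)) (k ^ εw * Real.exp (ell k *
        ∑ l ∈ Finset.Ico (t j) (t (j + 1)), gz k h ω l w) *
        (u (t j) v * k ^ (boxNet d L).dist w v)) ≤ u (t (j + 1)) w := by
    intro j hj z' hmax hdist v
    by_contra hlt
    push Not at hlt
    have hdm : ((boxNet d L).dist w z' : ℝ) ≤ m0 := by exact_mod_cast hdist
    refine hB6 j hj ⟨?_, hB3 j hj, v, ?_⟩
    · -- the hypotheses of `wl2`
      rcases Nat.eq_zero_or_pos j with hj0 | hj0
      · have hS : traj (st2 d β k h L) G ω (t j) = G := by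
          rw [hj0, t0]
          rfl
        have hmax' : ∀ v, ‖G v‖ * k ^ (boxNet d L).dist w v ≤
            ‖G z'‖ * k ^ (boxNet d L).dist w z' := by
          intro v
          have := hmax v
          simp only [hu, hS] at this
          exact this
        rw [hS]
        have hzz : ((boxNet d L).dist z z' : ℝ) ≤ M + m0 := by
          have h1 : ((boxNet d L).dist z z' : ℝ) ≤ (boxNet d L).dist z w + (boxNet d L).dist w z' := by
            exact_mod_cast (boxNet d L).dist_tri z w z'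
          linarith
        have hzn : ∀ v, (boxNet d L).dist w v ≤ 1 → ((boxNet d L).dist z v : ℝ) ≤ M + 1 := by
          intro v hv
          have h1 : ((boxNet d L).dist z v : ℝ) ≤ (boxNet d L).dist z w + (boxNet d L).dist w v := by
            exact_mod_cast (boxNet d L).dist_tri z w v
          have h2 : ((boxNet d L).dist w v : ℝ) ≤ 1 := by exact_mod_cast hv
          linarith
        rcases hcd with hc | hc
        · refine Low2_W_prob hk _ w H (hw1 j hj) (hw3 j hj) G z' hdist hmax' ?_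
            (fun v => ε0 * (1 + (boxNet d L).dist z v)) ?_ ?_ ?_
          · refine (hc z').trans ?_
            apply Real.rpow_le_rpow_of_exponent_ge hk hk1.le
            rw [(boxNet d L).dist_comm z' z]
            have := mul_le_mul_of_nonneg_left hzz hε0.le
            linarith
          · intro v y hy
            have := mul_le_mul_of_nonneg_left (hdn z v y hy) hε0.le
            show ε0 * (1 + ((boxNet d L).dist z y : ℝ)) ≤ ε0 * (1 + ((boxNet d L).dist z v : ℝ)) + 3 / 4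
            linarith
          · intro v hv
            have := mul_le_mul_of_nonneg_left (hzn v hv) hε0.le
            show ε0 * (1 + ((boxNet d L).dist z v : ℝ)) ≤ 1 / 16
            linarith
          · intro v
            have := hc v
            rw [(boxNet d L).dist_comm v z] at this
            exact this
        · refine Low2_W_prob hk _ w H (hw1 j hj) (hw3 j hj) G z' hdist hmax' ?_
            (fun v => X0 + M + (boxNet d L).dist z v / 2) ?_ ?_ hG
          · refine (hG z').trans ?_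
            apply Real.rpow_le_rpow_of_exponent_ge hk hk1.le
            linarith
          · intro v y hy
            have := hdn z v y hy
            show X0 + M + ((boxNet d L).dist z y : ℝ) / 2 ≤
              X0 + M + ((boxNet d L).dist z v : ℝ) / 2 + 3 / 4
            linarith
          · intro v hv
            have := hzn v hv
            show X0 + M + ((boxNet d L).dist z v : ℝ) / 2 ≤ 1 / 16
            linarith
      · have hc := hB4 j hj0 hj
        refine Low2_W_prob hk _ w H (hw1 j hj) (hw3 j hj) _ z' hdist hmax ?_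
            (fun v => ε2 * (1 + (boxNet d L).dist w v)) ?_ ?_ ?_
        · refine (hc z').trans ?_
          apply Real.rpow_le_rpow_of_exponent_ge hk hk1.le
          rw [(boxNet d L).dist_comm z' w]
          have := mul_le_mul_of_nonneg_left hdm hε2.le
          linarith
        · intro v y hy
          have := mul_le_mul_of_nonneg_left (hdn w v y hy) hε2.le
          show ε2 * (1 + ((boxNet d L).dist w y : ℝ)) ≤ ε2 * (1 + ((boxNet d L).dist w v : ℝ)) + 3 / 4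
          linarith
        · intro v hv
          have h2 : ((boxNet d L).dist w v : ℝ) ≤ 1 := by exact_mod_cast hv
          have := mul_le_mul_of_nonneg_left h2 hε2.le
          show ε2 * (1 + ((boxNet d L).dist w v : ℝ)) ≤ 1 / 16
          linarith
        · intro v
          have := hc v
          rw [(boxNet d L).dist_comm v w] at this
          exact this
    · -- membership
      have e1 : t j + (t (j + 1) - t j) = t (j + 1) := Nat.add_sub_cancel' (tmono j)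
      have e2 : traj (st2 d β k h L) (traj (st2 d β k h L) G ω (t j)) (fun i => ω (t j + i))
          (t (j + 1) - t j) = traj (st2 d β k h L) G ω (t (j + 1)) := by
        rw [← Low2_traj_add, e1]
      have e3 : ∑ i ∈ Finset.range (t (j + 1) - t j), gz k h (fun i => ω (t j + i)) i w =
          ∑ l ∈ Finset.Ico (t j) (t (j + 1)), gz k h ω l w := by
        rw [Finset.sum_Ico_eq_sum_range]
        rfl
      show ‖traj (st2 d β k h L) (traj (st2 d β k h L) G ω (t j)) (fun i => ω (t j + i))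
          (t (j + 1) - t j) w‖ < min (k ^ (3 / 64 : ℝ)) (k ^ εw * Real.exp (ell k *
            ∑ i ∈ Finset.range (t (j + 1) - t j), gz k h (fun i => ω (t j + i)) i w) *
          (‖traj (st2 d β k h L) G ω (t j) v‖ * k ^ (boxNet d L).dist w v))
      rw [e2, e3]
      exact hlt
  have hJε1 : (J : ℝ) * εw ≤ 1 := hJε.trans_le hε1
  have step := fun j hj v0 hc => Low2_step hk hk1 (gz k h ω) u J t tmono z w X0 M M1 M2 εw hX0 hM
    hεw.le hJε1 hzw hup hosc m0 hm0 hstep j hj v0 hc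
  have claim : ∀ j, j ≤ J → ∃ v0,
      (k ^ (j * εw - (X0 - (boxNet d L).dist z w + ∑ l ∈ Finset.Ico 0 (t j), gz k h ω l w)) ≤
        u (t j) v0 * k ^ (boxNet d L).dist w v0 ∨
      ∃ i, i ≤ t j ∧ k ^ (j * εw - (-(3 / 64) + ∑ l ∈ Finset.Ico i (t j), gz k h ω l w)) ≤
        u (t j) v0 * k ^ (boxNet d L).dist w v0) := by
    intro j
    induction j with
    | zero =>
      intro _
      refine ⟨z, Or.inl ?_⟩
      rw [t0, Finset.Ico_self, Finset.sum_empty]
      have e1 : k ^ (((0 : ℕ) : ℝ) * εw - (X0 - (boxNet d L).dist z w + 0)) =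
          k ^ (-X0) * k ^ (boxNet d L).dist w z := by
        rw [(boxNet d L).dist_comm w z, ← Real.rpow_natCast k ((boxNet d L).dist z w),
          ← Real.rpow_add hk]
        congr 1
        push_cast
        ring
      rw [e1]
      exact mul_le_mul_of_nonneg_right hz (by positivity)
    | succ j ih =>
      intro hj
      obtain ⟨v0, hv0⟩ := ih (by omega)
      refine ⟨w, ?_⟩
      rw [(boxNet d L).dist_self w, pow_zero, mul_one]
      exact step j (by omega) v0 hv0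
  obtain ⟨j', hj'⟩ : ∃ j', J = j' + 1 := ⟨J - 1, by omega⟩
  obtain ⟨v0, hv0⟩ := claim j' (by omega)
  have hfin := step j' (by omega) v0 hv0
  rw [← hj', tJ, hJε] at hfin
  rcases hfin with hf | ⟨i, hi, hf⟩
  · left
    refine le_trans ?_ hf
    rw [Finset.range_eq_Ico]
    apply Real.rpow_le_rpow_of_exponent_ge hk hk1.le
    linarith
  · right
    refine ⟨i, hi, le_trans ?_ hf⟩
    apply Real.rpow_le_rpow_of_exponent_ge hk hk1.le
    linarith

private theorem Low2_M1 (a p lam0 C2 : ℝ) (hp : 0 < p) (hl : 0 < lam0) (hC : 0 < C2) :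
    ∃ M1 : ℝ, 0 ≤ M1 ∧ Real.exp (a - lam0 * M1) * C2 ≤ p / 8 := by
  refine ⟨max 0 ((a - Real.log (p / (8 * C2))) / lam0), le_max_left _ _, ?_⟩
  have h1 : (a - Real.log (p / (8 * C2))) / lam0 ≤ max 0 ((a - Real.log (p / (8 * C2))) / lam0) :=
    le_max_right _ _
  rw [div_le_iff₀ hl] at h1
  have h2 : Real.exp (a - lam0 * max 0 ((a - Real.log (p / (8 * C2))) / lam0)) ≤ p / (8 * C2) := by
    rw [← Real.exp_log (by positivity : 0 < p / (8 * C2))]
    apply Real.exp_le_exp.2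
    rw [Real.exp_log (by positivity)]
    linarith
  calc Real.exp (a - lam0 * max 0 ((a - Real.log (p / (8 * C2))) / lam0)) * C2
      ≤ p / (8 * C2) * C2 := mul_le_mul_of_nonneg_right h2 hC.le
    _ = p / 8 := by field_simp

private theorem Low2_M2 (T p : ℝ) (hp : 0 < p) (hT : 0 < T) :
    ∃ M2 : ℝ, 0 ≤ M2 ∧ 4 * Real.exp (-(M2 ^ 2) / (32 * T)) ≤ p / 8 := by
  set B : ℝ := 32 * T * max 0 (-Real.log (p / 32)) with hB
  have hB0 : 0 ≤ B := by positivity
  refine ⟨1 + B, by linarith, ?_⟩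
  have h1 : B ≤ (1 + B) ^ 2 := by nlinarith
  have h2 : -Real.log (p / 32) ≤ max 0 (-Real.log (p / 32)) := le_max_right _ _
  have h3 : -((1 + B) ^ 2) / (32 * T) ≤ Real.log (p / 32) := by
    rw [div_le_iff₀ (by positivity)]
    have h4 : 32 * T * (-Real.log (p / 32)) ≤ B := mul_le_mul_of_nonneg_left h2 (by positivity)
    linarith
  calc 4 * Real.exp (-((1 + B) ^ 2) / (32 * T)) ≤ 4 * Real.exp (Real.log (p / 32)) :=
        mul_le_mul_of_nonneg_left (Real.exp_le_exp.2 h3) (by norm_num)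
    _ = p / 8 := by
        rw [Real.exp_log (by positivity)]
        ring

theorem low2 (d : ℕ) (β : ℝ) (hβ : 0 < β) (T0 M ε p : ℝ) (hT : 0 < T0) (hM : 1 ≤ M)
    (hε : 0 < ε) (hp : 0 < p) : ∃ Md ε0 k0 : ℝ, 0 < ε0 ∧ 0 < k0 ∧ k0 < 1 ∧
    ∀ k, 0 < k → k < k0 → ∀ L : ℕ, ∃ h0 : ℝ, 0 < h0 ∧ ∀ h, 0 < h → h < h0 →
    ∀ (m : ℕ), T0 * ell k ^ 2 - 5 ≤ m * h → m * h ≤ T0 * ell k ^ 2 + 5 →
    ∀ (G : boxS d L → ℂ) (z w : boxS d L) (X0 : ℝ), X0 ≤ 1 / 8 → k ^ (-X0) ≤ ‖G z‖ →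
    (boxNet d L).dist z w ≤ M →
    (∀ v, ‖G v‖ ≤ k ^ (-(X0 + M + (boxNet d L).dist z v / 2))) →
    (Caps k (nrm G) ε0 z ∨ X0 ≤ -Md) →
      PI (Measure.pi fun _ : boxS d L => gC) {ω | ¬ LowE k (gz k h ω) m w
          (X0 - (boxNet d L).dist z w) ε ‖traj (st2 d β k h L) G ω m w‖}
        ≤ ENNReal.ofReal p := by
  classical
  set ε1 : ℝ := min ε 1 with hε1d
  have hε1 : 0 < ε1 := lt_min hε one_pos
  have hε1ε : ε1 ≤ ε := min_le_left _ _
  have hε11 : ε1 ≤ 1 := min_le_right _ _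
  obtain ⟨lam0, C1, hlam, hC1, htail⟩ := lpp_tail d (1 / 8) (by norm_num)
  obtain ⟨C2, hC2, hsum⟩ := sum_exp_dd d (lam0 / 8) (by positivity)
  obtain ⟨C3, s1, hC3, hs1, hreg⟩ := reg2_prob d
  obtain ⟨M1, hM1, hM1p⟩ := Low2_M1 (C1 * (T0 + 2)) p lam0 C2 hp hlam (by linarith)
  obtain ⟨M2, hM2, hM2p⟩ := Low2_M2 (T0 + 1) p hp (by linarith)
  set m0 : ℕ := ⌈8 / 3 * (3 * M + M1 + M2 + 3)⌉₊ with hm0d
  have hm0 : 8 / 3 * (3 * M + M1 + M2 + 3) ≤ m0 := Nat.le_ceil _
  have hm00 : (0 : ℝ) ≤ m0 := Nat.cast_nonneg _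
  obtain ⟨σ, J, hσ, hσ1, hσs, hσC, hJ, hσJ, hσp⟩ := Low2_sigma T0 C3 s1 p hT hC3 hs1 hp
  have hJ0 : (0 : ℝ) < J := by exact_mod_cast hJ
  have hJ1 : (1 : ℝ) ≤ J := by exact_mod_cast hJ
  set εw : ℝ := ε1 / J with hεwd
  have hεw : 0 < εw := div_pos hε1 hJ0
  have hJε : J * εw = ε1 := by rw [hεwd]; field_simp
  obtain ⟨ε0w, cw, k0w, hε0w, hcw, hk0w, hk0w1, Hw⟩ := wl2 d β hβ m0 (1 / 64) (by norm_num) le_rfl
    εw hεw
  set ε2 : ℝ := min (1 / 32) (ε0w / (1 + m0)) with hε2d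
  have hε2 : 0 < ε2 := lt_min (by norm_num) (by positivity)
  have hε2' : ε2 ≤ 1 / 32 := min_le_left _ _
  have hε2'' : ε2 * (1 + m0) ≤ ε0w := by
    rw [← le_div_iff₀ (by positivity)]
    exact min_le_right _ _
  obtain ⟨cc, k0c, hcc, hk0c, hk0c1, Hc⟩ := caps_prob 2 d β hβ ε2 hε2
  set ε0 : ℝ := min (1 / 16 / (2 + M)) (ε0w / (1 + M + m0)) with hε0d
  have hε0 : 0 < ε0 := lt_min (by positivity) (by positivity)
  have hε0' : ε0 * (2 + M) ≤ 1 / 16 := by
    rw [← le_div_iff₀ (by positivity)]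
    exact min_le_left _ _
  have hε0'' : ε0 * (1 + M + m0) ≤ ε0w := by
    rw [← le_div_iff₀ (by positivity)]
    exact min_le_right _ _
  -- conditions on `k`
  have hev : ∀ᶠ k in nhdsWithin (0 : ℝ) (Set.Ioi 0), (k < k0w ∧ k < k0c ∧ k ≤ 1 / 2) ∧
      max (3 + 2 * σ) ((5 + 2 * J) / T0) ≤ ell k ∧
      4 * d * k ^ (3 / 8 : ℝ) * (T0 * ell k ^ 2 + 5) ≤ Real.log 2 ∧
      J * k ^ cc ≤ p / 8 ∧ J * k ^ cw ≤ p / 8 := by
    have a1 : ∀ᶠ k in nhdsWithin (0 : ℝ) (Set.Ioi 0), k < k0w ∧ k < k0c ∧ k ≤ 1 / 2 := by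
      have : ∀ᶠ k in nhds (0 : ℝ), k < k0w ∧ k < k0c ∧ k ≤ 1 / 2 := by
        filter_upwards [Iio_mem_nhds hk0w, Iio_mem_nhds hk0c,
          Iic_mem_nhds (by norm_num : (0 : ℝ) < 1 / 2)] with k h1 h2 h3
        exact ⟨h1, h2, h3⟩
      exact this.filter_mono nhdsWithin_le_nhds
    exact a1.and ((Low2_ell.eventually_ge_atTop _).and ((Low2_grow (4 * d) T0 (Real.log 2)
      (by positivity) hT (Real.log_pos (by norm_num))).and ((Low2_pow hcc (p / 8) (by positivity) J).and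
        (Low2_pow hcw (p / 8) (by positivity) J))))
  obtain ⟨k1, hk1pos, hk1⟩ := mem_nhdsGT_iff_exists_Ioo_subset.1 hev
  have hk1pos' : 0 < k1 := hk1pos
  refine ⟨2 * M + m0 + 1, ε0, min k1 (1 / 2), hε0, lt_min hk1pos' (by norm_num),
    lt_of_le_of_lt (min_le_right _ _) (by norm_num), ?_⟩
  intro k hk hkk L
  obtain ⟨⟨hkw, hkc, hk2⟩, hellA, hgrow, hpc, hpw⟩ := hk1 ⟨hk, lt_of_lt_of_le hkk (min_le_left _ _)⟩
  have hk1' : k < 1 := by linarith
  have hell := ell_pos hk hk1'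
  have hell3 : 3 + 2 * σ ≤ ell k := (le_max_left _ _).trans hellA
  have hellT : 5 + 2 * J ≤ T0 * ell k := by
    have := (le_max_right _ _).trans hellA
    rw [div_le_iff₀ hT] at this
    linarith
  have hell1 : 1 ≤ ell k := by linarith
  have hellsq : ell k ≤ ell k ^ 2 := by nlinarith
  have hellT2 : 5 + 2 * J ≤ T0 * ell k ^ 2 := hellT.trans (mul_le_mul_of_nonneg_left hellsq hT.le)
  have hell5 : 5 ≤ ell k ^ 2 := by nlinarith
  set Dm : ℝ := ∑ a : boxS d L, ∑ b : boxS d L, ((boxNet d L).dist a b : ℝ) with hDm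
  set W : ℝ := ∑ _a : boxS d L, k ^ (-(1 / 8 + M + Dm / 2)) with hW
  have hW0 : 0 ≤ W := Finset.sum_nonneg fun _ _ => by positivity
  set Sy := PS2 d β k hβ hk.le with hSy
  obtain ⟨hw, hhw, HW⟩ := Hw k hk hkw L
  obtain ⟨hc, hhc, HC⟩ := Hc (Fam2 d β k) k Sy hk hkc bnoise2 L
  obtain ⟨hx, hhx, HX⟩ := exit_bd 2 hβ hk.le Sy bnoise2 L (T0 * ell k ^ 2 + 5) (p / 8 / (1 + W))
    (by positivity) (by positivity)
  refine ⟨min (min hw hc) (min hx (min (1 / lam0 ^ 2) (min (σ / J) 1))), by positivity, ?_⟩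
  intro h hh hlt m hm1 hm2 G z w X0 hX0 hz hzw hG hcd
  have hlw : h < hw := lt_of_lt_of_le hlt ((min_le_left _ _).trans (min_le_left _ _))
  have hlc : h < hc := lt_of_lt_of_le hlt ((min_le_left _ _).trans (min_le_right _ _))
  have hlx : h < hx := lt_of_lt_of_le hlt ((min_le_right _ _).trans (min_le_left _ _))
  have hll : h < 1 / lam0 ^ 2 := lt_of_lt_of_le hlt
    ((min_le_right _ _).trans ((min_le_right _ _).trans (min_le_left _ _)))
  have hlσ : h < σ / J := lt_of_lt_of_le hlt ((min_le_right _ _).trans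
    ((min_le_right _ _).trans ((min_le_right _ _).trans (min_le_left _ _))))
  have hl1 : h < 1 := lt_of_lt_of_le hlt ((min_le_right _ _).trans
    ((min_le_right _ _).trans ((min_le_right _ _).trans (min_le_right _ _))))
  have hJh : J * h ≤ σ := by
    rw [lt_div_iff₀ hJ0] at hlσ
    linarith
  obtain ⟨t0, tJ, tle, tmono, tge, tn⟩ := Low2_t_facts (m := m) hJ
  -- lengths of the windows
  have hmJ : ((m / J : ℕ) : ℝ) * J ≤ m := by
    have h1 := Nat.div_mul_le_self m J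
    exact_mod_cast h1
  have hmJ2 : (m : ℝ) ≤ (m / J : ℕ) * J + J := by
    have h1 := Nat.div_add_mod m J
    have h2 := Nat.mod_lt m (by omega : 0 < J)
    have h3 : m ≤ (m / J) * J + J := by
      rw [mul_comm]
      generalize m / J = q at *
      generalize m % J = r at *
      omega
    exact_mod_cast h3
  have hq1 : 1 ≤ ((m / J : ℕ) : ℝ) * h := by
    have h1 : (m : ℝ) * h ≤ (m / J : ℕ) * h * J + J * h := by
      calc (m : ℝ) * h ≤ ((m / J : ℕ) * J + J) * h := mul_le_mul_of_nonneg_right hmJ2 hh.le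
        _ = (m / J : ℕ) * h * J + J * h := by ring
    have h2 : 2 * J ≤ (m : ℝ) * h := by linarith
    have h3 : (J : ℝ) * 1 ≤ (m / J : ℕ) * h * J := by
      have : J * h ≤ 1 * J := by nlinarith
      linarith
    have h4 : (1 : ℝ) * J ≤ (m / J : ℕ) * h * J := by linarith
    exact le_of_mul_le_mul_right h4 hJ0
  have hq2 : (((m / J : ℕ) : ℝ) + J) * h ≤ 2 * σ * ell k ^ 2 := by
    have h1 : ((m / J : ℕ) : ℝ) * h * J ≤ T0 * ell k ^ 2 + 5 := by
      have : ((m / J : ℕ) : ℝ) * J * h ≤ m * h := mul_le_mul_of_nonneg_right hmJ hh.le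
      linarith
    have h2 : ((m / J : ℕ) : ℝ) * h * J ≤ σ * ell k ^ 2 * J := by
      have h3 : (T0 + 1) * ell k ^ 2 ≤ σ * J * ell k ^ 2 :=
        mul_le_mul_of_nonneg_right hσJ (by positivity)
      linarith
    have h3 : ((m / J : ℕ) : ℝ) * h ≤ σ * ell k ^ 2 := le_of_mul_le_mul_right h2 hJ0
    have h4 : σ * 1 ≤ σ * ell k ^ 2 := mul_le_mul_of_nonneg_left (by linarith) hσ.le
    linarith
  have hw1 : ∀ j, j < J → 1 ≤ ((Low2_t J m (j + 1) - Low2_t J m j : ℕ) : ℝ) * h := by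
    intro j hj
    refine hq1.trans (mul_le_mul_of_nonneg_right ?_ hh.le)
    exact_mod_cast (tn j hj).1
  have hw2 : ∀ j, j < J → ((Low2_t J m (j + 1) - Low2_t J m j : ℕ) : ℝ) * h ≤
      2 * σ * ell k ^ 2 := by
    intro j hj
    refine le_trans (mul_le_mul_of_nonneg_right ?_ hh.le) hq2
    exact_mod_cast (tn j hj).2
  have hw3 : ∀ j, j < J → ((Low2_t J m (j + 1) - Low2_t J m j : ℕ) : ℝ) * h ≤ ell k ^ 3 := by
    intro j hj
    refine (hw2 j hj).trans ?_
    have : 2 * σ * ell k ^ 2 ≤ ell k * ell k ^ 2 :=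
      mul_le_mul_of_nonneg_right (by linarith) (by positivity)
    calc 2 * σ * ell k ^ 2 ≤ ell k * ell k ^ 2 := this
      _ = ell k ^ 3 := by ring
  have hv : h / ell k ^ 2 ≤ 1 / lam0 ^ 2 := by
    refine le_trans ?_ hll.le
    exact div_le_self hh.le (by linarith)
  have hmpos : 0 < m := by
    rcases Nat.eq_zero_or_pos m with h0 | h0
    · rw [h0] at hm1
      push_cast at hm1
      linarith
    · exact h0
  have hvm : h / ell k ^ 2 * m ≤ T0 + 1 := by
    rw [div_mul_eq_mul_div, div_le_iff₀ (by positivity)]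
    linarith
  have hn1 : ∀ j, j < J → 1 ≤ Low2_t J m (j + 1) - Low2_t J m j := by
    intro j hj
    by_contra hc0
    have h0 : Low2_t J m (j + 1) - Low2_t J m j = 0 := by omega
    have := hw1 j hj
    rw [h0] at this
    norm_num at this
  have hn2 : ∀ j, j < J → h / ell k ^ 2 * ((Low2_t J m (j + 1) - Low2_t J m j : ℕ) : ℝ) ≤
      2 * σ := by
    intro j hj
    rw [div_mul_eq_mul_div, div_le_iff₀ (by positivity)]
    linarith [hw2 j hj]
  set P := PI (Measure.pi fun _ : boxS d L => gC) with hP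
  -- the exceptional events
  set A1 : Set (ℕ → boxS d L → ℂ) :=
      {ω | ∃ v, M1 + (boxNet d L).dist z v / 8 ≤
          (boxMSet d L).lppM (1 / 8) (fun _ => 0) (gz k h ω) m v} ∪
        {ω | M2 ≤ osc (fun j => gz k h ω j w) m} ∪
        {ω | ∃ j, j < J ∧ ¬ Reg2 (1 / 64) (gz k h (fun i => ω (Low2_t J m j + i)))
          (Low2_t J m (j + 1) - Low2_t J m j) w} with hA1
  have pA1 : P A1 ≤ ENNReal.ofReal (p / 8 + p / 8 + p / 8) :=
    Low2_noise d L k h hk hk1' hh T0 p lam0 C1 C2 C3 s1 M1 M2 σ J m hT hlam hC1 hM2 hJ hσ hC3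
      htail hsum hreg hM1p hM2p hσs hσC hσp hv hmpos hvm (Low2_t J m) hn1 hn2 z w
  set A2 : Set (ℕ → boxS d L → ℂ) := (Sy.alv h L (G, 0) m)ᶜ with hA2
  have pA2 : P A2 ≤ ENNReal.ofReal (p / 8) := by
    have h1 := HX h hh hlx (G, 0) m hm2
    refine le_trans h1 ?_
    apply ENNReal.ofReal_le_ofReal
    have h2 : ∑ x : boxS d L, (‖G x‖ + ‖(0 : boxS d L → ℂ) x‖) ≤ W := by
      rw [hW]
      refine Finset.sum_le_sum fun x _ => ?_
      rw [Pi.zero_apply, norm_zero, add_zero]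
      refine (hG x).trans ?_
      apply Real.rpow_le_rpow_of_exponent_ge hk hk1'.le
      have h3 : ((boxNet d L).dist z x : ℝ) ≤ Dm := by
        rw [hDm]
        refine le_trans ?_ (Finset.single_le_sum (f := fun a : boxS d L =>
          ∑ b : boxS d L, ((boxNet d L).dist a b : ℝ))
          (fun _ _ => Finset.sum_nonneg fun _ _ => Nat.cast_nonneg _) (Finset.mem_univ z))
        exact Finset.single_le_sum (f := fun b : boxS d L => ((boxNet d L).dist z b : ℝ))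
          (fun _ _ => Nat.cast_nonneg _) (Finset.mem_univ x)
      linarith
    calc p / 8 / (1 + W) * (1 + ∑ x : boxS d L, (‖G x‖ + ‖(0 : boxS d L → ℂ) x‖))
        ≤ p / 8 / (1 + W) * (1 + W) := mul_le_mul_of_nonneg_left (by linarith) (by positivity)
      _ = p / 8 := by field_simp
  set A3 : ℕ → Set (ℕ → boxS d L → ℂ) := fun j => Sy.alv h L (G, 0) (Low2_t J m j) ∩
    {ω | ¬ Caps k (fun v => ‖(Sy.tr h L (G, 0) ω (Low2_t J m j)).1 v‖ +
          ‖(Sy.tr h L (G, 0) ω (Low2_t J m j)).2 v‖) ε2 w} with hA3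
  have pA3 : ∀ j, 1 ≤ j → j < J → P (A3 j) ≤ ENNReal.ofReal (k ^ cc) := by
    intro j hj1 hjJ
    refine HC h hh hlc (G, 0) (Low2_t J m j) ?_ w
    refine hq1.trans (mul_le_mul_of_nonneg_right ?_ hh.le)
    exact_mod_cast tge j hj1 hjJ
  set A4 : ℕ → Set (ℕ → boxS d L → ℂ) := fun j => {ω | P {b |
        (traj (st2 d β k h L) G ω (Low2_t J m j), b) ∈
          Low2_W β k h εw (Low2_t J m (j + 1) - Low2_t J m j) w} ≤ ENNReal.ofReal (k ^ cw) ∧
      (traj (st2 d β k h L) G ω (Low2_t J m j), fun i => ω (Low2_t J m j + i)) ∈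
          Low2_W β k h εw (Low2_t J m (j + 1) - Low2_t J m j) w} with hA4
  have pA4 : ∀ j, P (A4 j) ≤ ENNReal.ofReal (k ^ cw) := fun j =>
    Low2_win (Measure.pi fun _ : boxS d L => gC) (st2 d β k h L) (measurable_st2 d β k h L) _
      (Low2_W_meas β k h εw (Low2_t J m (j + 1) - Low2_t J m j) w) _ G (Low2_t J m j)
  have hsub : {ω | ¬ LowE k (gz k h ω) m w
          (X0 - (boxNet d L).dist z w) ε ‖traj (st2 d β k h L) G ω m w‖} ⊆
      A1 ∪ A2 ∪ (⋃ j ∈ Finset.Ico 1 J, A3 j) ∪ (⋃ j ∈ Finset.range J, A4 j) := by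
    intro ω hω
    by_contra hno
    rw [Set.mem_union, Set.mem_union, Set.mem_union] at hno
    push Not at hno
    obtain ⟨⟨⟨n1, n2⟩, n3⟩, n4⟩ := hno
    rw [hA1, Set.mem_union, Set.mem_union] at n1
    push Not at n1
    obtain ⟨⟨n11, n12⟩, n13⟩ := n1
    have halv : ω ∈ Sy.alv h L (G, 0) m := by
      by_contra hc0
      exact n2 hc0
    refine hω (Low2_good d L β k h hβ hk hk2 hh T0 M M1 M2 ε1 ε εw ε0w ε2 ε0 (2 * M + m0 + 1) cw J m
      m0 hJ hM hM1 hM2 hε11 hε1ε hεw hJε hε0w hε2 hε2' hε2'' hε0 hε0' hε0'' (by linarith)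
      (by linarith) hm0 hgrow hm2 hw1 hw3 (HW h hh hlw) G z w X0 hX0 hz hzw hG hcd ω n11 n12 n13
      ?_ ?_)
    · intro j hj1 hjJ
      have h1 : ω ∉ A3 j := by
        intro hc0
        apply n3
        rw [Set.mem_iUnion₂]
        exact ⟨j, Finset.mem_Ico.2 ⟨hj1, hjJ⟩, hc0⟩
      have h2 : ω ∈ Sy.alv h L (G, 0) (Low2_t J m j) :=
        ⟨fun i hi => halv.1 i (lt_of_lt_of_le hi (tle j)), fun i hi => halv.2 i (hi.trans (tle j))⟩
      have h3 : Caps k (fun v => ‖(Sy.tr h L (G, 0) ω (Low2_t J m j)).1 v‖ +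
          ‖(Sy.tr h L (G, 0) ω (Low2_t J m j)).2 v‖) ε2 w := by
        by_contra hc0
        exact h1 ⟨h2, hc0⟩
      intro v
      refine le_trans ?_ (h3 v)
      have h4 := Low2_tr d hβ hk.le h L (G, 0) ω (Low2_t J m j)
      show ‖traj (st2 d β k h L) G ω (Low2_t J m j) v‖ ≤ _
      have h5 : (Sy.tr h L (G, 0) ω (Low2_t J m j)).1 v =
          traj (st2 d β k h L) G ω (Low2_t J m j) v := congrFun h4 v
      exact (le_of_eq (congrArg norm h5.symm)).trans (le_add_of_nonneg_right (norm_nonneg _))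
    · intro j hj hc0
      apply n4
      rw [Set.mem_iUnion₂]
      exact ⟨j, Finset.mem_range.2 hj, hc0⟩
  refine (measure_mono hsub).trans ?_
  have b3 : P (⋃ j ∈ Finset.Ico 1 J, A3 j) ≤ ENNReal.ofReal (p / 8) := by
    refine (measure_biUnion_finset_le _ _).trans ?_
    refine (Finset.sum_le_sum fun j hj => pA3 j (Finset.mem_Ico.1 hj).1 (Finset.mem_Ico.1 hj).2).trans ?_
    rw [Finset.sum_const, Nat.card_Ico, nsmul_eq_mul, ← ENNReal.ofReal_natCast,
      ← ENNReal.ofReal_mul (Nat.cast_nonneg _)]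
    apply ENNReal.ofReal_le_ofReal
    refine le_trans (mul_le_mul_of_nonneg_right ?_ (by positivity)) hpc
    exact_mod_cast Nat.sub_le J 1
  have b4 : P (⋃ j ∈ Finset.range J, A4 j) ≤ ENNReal.ofReal (p / 8) := by
    refine (measure_biUnion_finset_le _ _).trans ?_
    refine (Finset.sum_le_sum fun j _ => pA4 j).trans ?_
    rw [Finset.sum_const, Finset.card_range, nsmul_eq_mul, ← ENNReal.ofReal_natCast,
      ← ENNReal.ofReal_mul (Nat.cast_nonneg _)]
    exact ENNReal.ofReal_le_ofReal hpw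
  refine (measure_union_le _ _).trans ?_
  refine (add_le_add ((measure_union_le _ _).trans (add_le_add ((measure_union_le _ _).trans
    (add_le_add pA1 pA2)) b3)) b4).trans ?_
  rw [← ENNReal.ofReal_add (by positivity) (by positivity),
    ← ENNReal.ofReal_add (by positivity) (by positivity),
    ← ENNReal.ofReal_add (by positivity) (by positivity)]
  apply ENNReal.ofReal_le_ofReal
  linarith

end DynC
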