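import Pool.Agent.Lib_MP_36b788c.PSShift
import Pool.Agent.Lib_MP_36b788c.Osc

/-!
# Random walk estimates for the main estimate, `N = 2`

Walk with steps `√v ω_j`, `m` steps, `v m ∈ [T0/2, 2 T0]`, `T0 = c n²`, `c = 1/2^{20}`.

PROOF.
* `indep_sites`: for finitely many distinct sites the path noises at the sites are independent with law `PI (gaussianReal 0 1)`. (Both sides are product measures; π-system of cylinders, or: `PI (Measure.pi μ)` is the image of `Measure.pi (fun x => PI μ)` under the transposition `(x ↦ (j ↦ ω)) ↦ (j ↦ (x ↦ ω))`: uniqueness `Measure.eq_infinitePi`, then `Measure.pi_pi`.)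
* `walk_up`: `E = {Σ_{j<m} √v ω_j ≥ 2n, Σ_{[j,m)} √v ω ≥ -n/16 for all j ≤ m}`. Shift every step by `b = 4n/(m √v)` (`shift_lintegral` with one site): `P(E) = E[1_E(ω + b) exp(-b Σω_j - m b²/2)]`. On `A = {|Σ_{[i,j)} √v ω| ≤ n/16 for all i ≤ j ≤ m}`, `ω + b ∈ E` (`4n - n/16 ≥ 2n`), `b Σω_j ≤ (4n/(m v)) n/16 ≤ 1/(2c)`, `m b² = 16 n²/(m v) ≤ 32/c`. `P(A^c) ≤ P(osc > n/16) ≤ 4·e^{…} ≤ 1/2` by `osc_exp` with `s = 64/n`:
  `4 exp(8 s² v m·… - 4) ≤ 1/2` since `s² v m ≤ 64² · 2c` is tiny. (`osc_exp` has its own constants: `c = 2^{-20}` is more than enough.)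
* `walk_mom`: `t² ≤ 2 n² e^{t/n}` for `t ≥ 0`, so `E[(osc+1)² e^{2a(osc+1)}] ≤ 2n² E e^{(2a+1/n)(osc+1)}`, `a ≤ 1/n`, `osc_exp` with `s = 2a + 1/n ≤ 3/n`, `s² v m ≤ 18c`.
-/

open MeasureTheory ProbabilityTheory
open scoped ENNReal

namespace DynC

private theorem ME2a_transp {S : Type} [Fintype S] (γ : Measure ℝ) [IsProbabilityMeasure γ] :
    (Measure.infinitePi fun _ : ℕ => Measure.pi fun _ : S => γ).map (fun ω w j => ω j w) =
      Measure.pi fun _ : S => Measure.infinitePi fun _ : ℕ => γ := by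
  have e1 : (fun _ : ℕ => Measure.pi fun _ : S => γ) =
      fun _ : ℕ => Measure.infinitePi fun _ : S => γ := by
    funext i
    rw [Measure.infinitePi_eq_pi]
  have hT : Measurable (fun (ω : ℕ → S → ℝ) (w : S) (j : ℕ) => ω j w) :=
    measurable_pi_lambda _ fun w => measurable_pi_lambda _ fun j =>
      (measurable_pi_apply w).comp (measurable_pi_apply j)
  have c1 := Measure.infinitePi_map_curry (ι := ℕ) (κ := S) (X := ℝ) (fun _ _ => γ)
  have c2 := Measure.infinitePi_map_curry (ι := S) (κ := ℕ) (X := ℝ) (fun _ _ => γ)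
  have c3 := Measure.infinitePi_map_piCongrLeft (fun _ : S × ℕ => γ) (Equiv.prodComm ℕ S)
  rw [e1, ← c1, ← Measure.infinitePi_eq_pi, ← c2, ← c3, Measure.map_map hT (MeasurableEquiv.measurable _),
    Measure.map_map (MeasurableEquiv.measurable _) (MeasurableEquiv.measurable _)]
  congr 1

theorem indep_sites {S : Type} [Fintype S] (A : Finset S) (E : S → Set (ℕ → ℝ))
    (hE : ∀ w, MeasurableSet (E w)) :
    PI (nz S) {ω | ∀ w ∈ A, (fun j => ω j w) ∈ E w} =
      ∏ w ∈ A, PI (gaussianReal 0 1) (E w) := by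
  classical
  have hT : Measurable (fun (ω : ℕ → S → ℝ) (w : S) (j : ℕ) => ω j w) :=
    measurable_pi_lambda _ fun w => measurable_pi_lambda _ fun j =>
      (measurable_pi_apply w).comp (measurable_pi_apply j)
  set B : S → Set (ℕ → ℝ) := fun w => if w ∈ A then E w else Set.univ with hB
  have hBm : ∀ w, MeasurableSet (B w) := by
    intro w
    rw [hB]
    dsimp only
    split_ifs
    · exact hE w
    · exact MeasurableSet.univ
  have h1 : {ω : ℕ → S → ℝ | ∀ w ∈ A, (fun j => ω j w) ∈ E w} =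
      (fun (ω : ℕ → S → ℝ) (w : S) (j : ℕ) => ω j w) ⁻¹' (Set.univ.pi B) := by
    ext ω
    simp only [Set.mem_ofPred_eq, Set.mem_preimage, Set.mem_pi, Set.mem_univ, forall_true_left, hB]
    constructor
    · intro h w
      split_ifs with hw
      · exact h w hw
      · trivial
    · intro h w hw
      have := h w
      rwa [if_pos hw] at this
  rw [h1, ← Measure.map_apply hT (MeasurableSet.univ_pi hBm)]
  have h2 := ME2a_transp (S := S) (gaussianReal 0 1)
  unfold PI nz
  rw [h2, Measure.pi_pi]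
  have h3 : ∀ w : S, (Measure.infinitePi fun _ : ℕ => gaussianReal 0 1) (B w) =
      if w ∈ A then (Measure.infinitePi fun _ : ℕ => gaussianReal 0 1) (E w) else 1 := by
    intro w
    rw [hB]
    dsimp only
    split_ifs
    · rfl
    · exact measure_univ
  rw [Finset.prod_congr rfl fun w _ => h3 w, Finset.prod_ite_mem, Finset.univ_inter]

private theorem ME2a_unit : (PI (nz Unit)).map (fun (ω : ℕ → Unit → ℝ) (j : ℕ) => ω j ()) =
    PI (gaussianReal 0 1) := by
  have h1 : (nz Unit).map (fun a : Unit → ℝ => a ()) = gaussianReal 0 1 :=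
    (measurePreserving_eval (fun _ : Unit => gaussianReal 0 1) ()).map_eq
  have h2 := Measure.infinitePi_map_pi (fun _ : ℕ => nz Unit)
    (f := fun _ (a : Unit → ℝ) => a ()) (fun _ => measurable_pi_apply ())
  unfold PI
  rw [h2]
  congr 1
  funext i
  exact h1

private theorem ME2a_meas : Measurable (fun (ω : ℕ → Unit → ℝ) (j : ℕ) => ω j ()) :=
  measurable_pi_lambda _ fun j => (measurable_pi_apply ()).comp (measurable_pi_apply j)

theorem walk_up : ∃ p1 : ℝ, 0 < p1 ∧ p1 < 1 ∧ ∀ (n : ℕ), 1 ≤ n → ∀ (v : ℝ) (m : ℕ), 0 < v →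
    (n : ℝ) ^ 2 / 2 ^ 21 ≤ v * m → v * m ≤ (n : ℝ) ^ 2 / 2 ^ 19 →
    ENNReal.ofReal p1 ≤ PI (gaussianReal 0 1) {ω | 2 * n ≤ ∑ j ∈ Finset.range m, Real.sqrt v * ω j ∧
      ∀ j, j ≤ m → -(n / 16 : ℝ) ≤ ∑ l ∈ Finset.Ico j m, Real.sqrt v * ω l} := by
  refine ⟨Real.exp (-(2 ^ 19 + 2 ^ 24)) / 2, by positivity, ?_, ?_⟩
  · have h1 : Real.exp (-(2 ^ 19 + 2 ^ 24)) < Real.exp 0 := Real.exp_lt_exp.2 (by norm_num)
    rw [Real.exp_zero] at h1
    exact (half_lt_self (Real.exp_pos _)).trans h1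
  intro n hn v m hv hlo hhi
  have hn' : (1 : ℝ) ≤ n := by exact_mod_cast hn
  have hn0 : (0 : ℝ) < n := by linarith
  have hvm : 0 < v * m := lt_of_lt_of_le (by positivity) hlo
  have hm0 : (0 : ℝ) < m := by
    rcases (Nat.cast_nonneg (α := ℝ) m).lt_or_eq with h | h
    · exact h
    · rw [← h, mul_zero] at hvm
      exact absurd hvm (lt_irrefl _)
  have hm : 0 < m := by exact_mod_cast hm0
  set E : Set (ℕ → ℝ) := {ω | 2 * n ≤ ∑ j ∈ Finset.range m, Real.sqrt v * ω j ∧
      ∀ j, j ≤ m → -(n / 16 : ℝ) ≤ ∑ l ∈ Finset.Ico j m, Real.sqrt v * ω l} with hE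
  have hEm : MeasurableSet E := by
    have h1 : E = {ω | (2 * n : ℝ) ≤ ∑ j ∈ Finset.range m, Real.sqrt v * ω j} ∩
        ⋂ j : ℕ, {ω | j ≤ m → -(n / 16 : ℝ) ≤ ∑ l ∈ Finset.Ico j m, Real.sqrt v * ω l} := by
      ext ω
      simp [hE]
    rw [h1]
    refine (measurableSet_le measurable_const (by fun_prop)).inter (MeasurableSet.iInter fun j => ?_)
    by_cases hj : j ≤ m
    · simp only [hj, forall_true_left]
      exact measurableSet_le measurable_const (by fun_prop)
    · simp [hj]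
  rw [← ME2a_unit, Measure.map_apply ME2a_meas hEm]
  set E' : Set (ℕ → Unit → ℝ) := (fun (ω : ℕ → Unit → ℝ) (j : ℕ) => ω j ()) ⁻¹' E with hE'
  have hEm' : MeasurableSet E' := ME2a_meas hEm
  -- the shift
  have hsv : 0 < Real.sqrt v := Real.sqrt_pos.2 hv
  have hsv2 : Real.sqrt v * Real.sqrt v = v := Real.mul_self_sqrt hv.le
  set b : ℝ := 4 * n / (m * Real.sqrt v) with hb
  have hb0 : 0 < b := by positivity
  let w : ℕ → (ℕ → Unit → ℝ) → Unit → ℝ := fun j _ _ => if j < m then b else 0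
  have hsh := shift_lintegral (ι := Unit) (γ := gaussianReal 0 1) cmart_real m w
    (fun j => measurable_const) (fun j a a' _ => rfl)
    (fun j hj ω => by
      funext x
      simp only [w, if_neg (not_lt.2 hj)]
      rfl)
    (E'.indicator fun _ => 1) (measurable_const.indicator hEm')
  have hPE : ∫⁻ ω, E'.indicator (fun _ => (1 : ℝ≥0∞)) ω ∂(PI (Measure.pi fun _ : Unit => gaussianReal 0 1)) =
      PI (nz Unit) E' := by
    rw [lintegral_indicator hEm', lintegral_const, Measure.restrict_apply_univ, one_mul]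
    rfl
  rw [hPE] at hsh
  rw [← hsh]
  -- the good event
  set A : Set (ℕ → Unit → ℝ) := {ω | (n : ℝ) / 16 ≤ osc (fun j => sc v ω j ()) m}ᶜ with hA
  have hAt := osc_tail_nz (S := Unit) v hv m hm () (n / 16) (by positivity)
  have hAt2 : PI (nz Unit) {ω | (n : ℝ) / 16 ≤ osc (fun j => sc v ω j ()) m} ≤
      ENNReal.ofReal (1 / 2) := by
    refine hAt.trans (ENNReal.ofReal_le_ofReal ?_)
    have h1 : -((n : ℝ) / 16) ^ 2 / (32 * (v * m)) ≤ -64 := by
      rw [div_le_iff₀ (by positivity)]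
      have : 64 * (32 * (v * m)) ≤ 64 * (32 * ((n : ℝ) ^ 2 / 2 ^ 19)) := by
        refine mul_le_mul_of_nonneg_left (mul_le_mul_of_nonneg_left hhi (by norm_num)) (by norm_num)
      have e : 64 * (32 * ((n : ℝ) ^ 2 / 2 ^ 19)) = ((n : ℝ) / 16) ^ 2 := by ring
      linarith
    have h2 : Real.exp (-((n : ℝ) / 16) ^ 2 / (32 * (v * m))) ≤ Real.exp (-64) :=
      Real.exp_le_exp.2 h1
    have h3 : Real.exp (-64) ≤ 1 / 8 := by
      rw [Real.exp_neg, ← one_div]
      refine one_div_le_one_div_of_le (by norm_num) ?_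
      have := Real.add_one_le_exp (64 : ℝ)
      linarith
    linarith
  have hmA : MeasurableSet {ω : ℕ → Unit → ℝ | (n : ℝ) / 16 ≤ osc (fun j => sc v ω j ()) m} := by
    have h1 : Measurable fun ω : ℕ → Unit → ℝ => osc (fun j => sc v ω j ()) m := by
      unfold osc pmax sc
      refine Measurable.add ?_ ?_
      · refine Finset.measurable_range_sup'' fun k _ => ?_
        refine Finset.measurable_fun_sum _ fun j _ => ?_
        have hj : Measurable fun ω : ℕ → Unit → ℝ => ω j () :=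
          (measurable_pi_apply ()).comp (measurable_pi_apply j)
        exact hj.const_mul _
      · refine Finset.measurable_range_sup'' fun k _ => ?_
        refine Finset.measurable_fun_sum _ fun j _ => ?_
        have hj : Measurable fun ω : ℕ → Unit → ℝ => ω j () :=
          (measurable_pi_apply ()).comp (measurable_pi_apply j)
        exact (hj.const_mul _).neg
    exact measurableSet_le measurable_const h1
  have hPA : ENNReal.ofReal (1 / 2) ≤ PI (nz Unit) A := by
    rw [hA, prob_compl_eq_one_sub hmA]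
    have h1 : (1 : ℝ≥0∞) - ENNReal.ofReal (1 / 2) = ENNReal.ofReal (1 / 2) := by
      rw [← ENNReal.ofReal_one, ← ENNReal.ofReal_sub _ (by norm_num)]
      norm_num
    rw [← h1]
    refine (tsub_le_tsub_left hAt2 _).trans' ?_
    rw [h1]
  have hptw : ∀ ω ∈ A, ENNReal.ofReal (Real.exp (-(2 ^ 19 + 2 ^ 24))) ≤
      E'.indicator (fun _ => (1 : ℝ≥0∞)) (shft w ω) * ENNReal.ofReal (Real.exp (logZ m w ω)) := by
    intro ω hω
    have hosc : osc (fun j => sc v ω j ()) m < n / 16 := not_le.1 hω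
    have hsum : ∀ i j, i ≤ j → j ≤ m → |∑ l ∈ Finset.Ico i j, Real.sqrt v * ω l ()| < n / 16 := by
      intro i j hij hj
      exact (sum_le_osc (fun j => sc v ω j ()) hij hj).trans_lt hosc
    have htot : |∑ l ∈ Finset.range m, Real.sqrt v * ω l ()| < n / 16 := by
      have := hsum 0 m (Nat.zero_le m) le_rfl
      rwa [← Finset.range_eq_Ico] at this
    have hbm : (m : ℝ) * (Real.sqrt v * b) = 4 * n := by
      rw [hb]
      field_simp
    have hmem : shft w ω ∈ E' := by
      rw [hE', Set.mem_preimage, hE, Set.mem_ofPred_eq]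
      constructor
      · have e : ∑ j ∈ Finset.range m, Real.sqrt v * shft w ω j () =
            ∑ j ∈ Finset.range m, Real.sqrt v * ω j () + 4 * n := by
          rw [← hbm]
          have : ∀ j ∈ Finset.range m, Real.sqrt v * shft w ω j () =
              Real.sqrt v * ω j () + Real.sqrt v * b := by
            intro j hj
            simp only [shft, w, if_pos (Finset.mem_range.1 hj)]
            ring
          rw [Finset.sum_congr rfl this, Finset.sum_add_distrib, Finset.sum_const,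
            Finset.card_range, nsmul_eq_mul]
        rw [e]
        have := (abs_lt.1 htot).1
        linarith
      · intro j hj
        have h1 : ∑ l ∈ Finset.Ico j m, Real.sqrt v * ω l () ≤
            ∑ l ∈ Finset.Ico j m, Real.sqrt v * shft w ω l () := by
          refine Finset.sum_le_sum fun l hl => ?_
          refine mul_le_mul_of_nonneg_left ?_ hsv.le
          simp only [shft, w, if_pos (Finset.mem_Ico.1 hl).2]
          linarith
        have h2 := (abs_lt.1 (hsum j m hj le_rfl)).1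
        linarith
    rw [Set.indicator_of_mem hmem, one_mul]
    refine ENNReal.ofReal_le_ofReal (Real.exp_le_exp.2 ?_)
    have e1 : logZ m w ω = -(b * ∑ j ∈ Finset.range m, ω j ()) - m * (b ^ 2 / 2) := by
      unfold logZ
      have : ∀ j ∈ Finset.range m, ∑ x : Unit, (-(inner ℝ (w j ω x) (ω j x)) - ‖w j ω x‖ ^ 2 / 2) =
          -(b * ω j ()) - b ^ 2 / 2 := by
        intro j hj
        simp only [Finset.univ_unique, Finset.sum_singleton, w, if_pos (Finset.mem_range.1 hj)]
        simp [mul_comm]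
      rw [Finset.sum_congr rfl this, Finset.sum_sub_distrib, Finset.sum_neg_distrib,
        Finset.mul_sum, Finset.sum_const, Finset.card_range, nsmul_eq_mul]
    have e2 : b * ∑ j ∈ Finset.range m, ω j () =
        4 * n / (v * m) * ∑ j ∈ Finset.range m, Real.sqrt v * ω j () := by
      have hb' : b = 4 * n / (v * m) * Real.sqrt v := by
        rw [hb]
        nth_rewrite 2 [← hsv2]
        field_simp
      rw [← Finset.mul_sum, hb']
      ring
    have e3 : (m : ℝ) * (b ^ 2 / 2) = 8 * n ^ 2 / (v * m) := by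
      have hb2 : b ^ 2 = 16 * n ^ 2 / (m ^ 2 * v) := by
        rw [hb, div_pow, mul_pow, mul_pow, Real.sq_sqrt hv.le]
        norm_num
      rw [hb2]
      field_simp
      ring
    have h4 : 4 * (n : ℝ) / (v * m) * ∑ j ∈ Finset.range m, Real.sqrt v * ω j () ≤
        4 * n / (v * m) * (n / 16) :=
      mul_le_mul_of_nonneg_left (abs_lt.1 htot).2.le (by positivity)
    have h5 : (n : ℝ) ^ 2 / (v * m) ≤ 2 ^ 21 := by
      rw [div_le_iff₀ hvm]
      have := (div_le_iff₀ (by norm_num : (0 : ℝ) < 2 ^ 21)).1 hlo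
      linarith
    have h6 : 4 * (n : ℝ) / (v * m) * (n / 16) = (n ^ 2 / (v * m)) / 4 := by ring
    have h7 : 8 * (n : ℝ) ^ 2 / (v * m) = 8 * (n ^ 2 / (v * m)) := by ring
    rw [e1, e2, e3, h7]
    rw [h6] at h4
    linarith
  calc ENNReal.ofReal (Real.exp (-(2 ^ 19 + 2 ^ 24)) / 2)
      = ENNReal.ofReal (Real.exp (-(2 ^ 19 + 2 ^ 24))) * ENNReal.ofReal (1 / 2) := by
        rw [← ENNReal.ofReal_mul (Real.exp_pos _).le]
        congr 1
        ring
    _ ≤ ENNReal.ofReal (Real.exp (-(2 ^ 19 + 2 ^ 24))) * PI (nz Unit) A := by gcongr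
    _ = ∫⁻ ω in A, ENNReal.ofReal (Real.exp (-(2 ^ 19 + 2 ^ 24))) ∂(PI (nz Unit)) := by
        rw [setLIntegral_const]
    _ ≤ ∫⁻ ω in A, E'.indicator (fun _ => (1 : ℝ≥0∞)) (shft w ω) *
          ENNReal.ofReal (Real.exp (logZ m w ω)) ∂(PI (nz Unit)) :=
        setLIntegral_mono' hmA.compl hptw
    _ ≤ ∫⁻ ω, E'.indicator (fun _ => (1 : ℝ≥0∞)) (shft w ω) *
          ENNReal.ofReal (Real.exp (logZ m w ω)) ∂(PI (nz Unit)) := setLIntegral_le_lintegral _ _
    _ = _ := rfl

theorem walk_mom : ∃ C : ℝ, 1 ≤ C ∧ ∀ (n : ℕ), 1 ≤ n → ∀ (v : ℝ) (m : ℕ), 0 < v →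
    v * m ≤ (n : ℝ) ^ 2 / 2 ^ 19 → ∀ a : ℝ, 0 < a → a ≤ 1 / n →
    ∫⁻ ω, ENNReal.ofReal ((osc (fun j => Real.sqrt v * ω j) m + 1) ^ 2 *
        Real.exp (2 * a * (osc (fun j => Real.sqrt v * ω j) m + 1))) ∂(PI (gaussianReal 0 1)) ≤
      ENNReal.ofReal (C * n ^ 2) := by
  refine ⟨8 * Real.exp 4, ?_, ?_⟩
  · have := Real.one_le_exp (by norm_num : (0 : ℝ) ≤ 4)
    linarith
  intro n hn v m hv hvm a ha han
  have hn' : (1 : ℝ) ≤ n := by exact_mod_cast hn
  have hn0 : (0 : ℝ) < n := by linarith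
  have hmo : Measurable fun ω : ℕ → ℝ => osc (fun j => Real.sqrt v * ω j) m := by
    unfold osc pmax
    refine Measurable.add ?_ ?_
    · refine Finset.measurable_range_sup'' fun k _ => ?_
      exact Finset.measurable_fun_sum _ fun j _ => (measurable_pi_apply j).const_mul _
    · refine Finset.measurable_range_sup'' fun k _ => ?_
      exact Finset.measurable_fun_sum _ fun j _ => ((measurable_pi_apply j).const_mul _).neg
  have hmF : Measurable fun ω : ℕ → ℝ => ENNReal.ofReal ((osc (fun j => Real.sqrt v * ω j) m + 1) ^ 2 *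
        Real.exp (2 * a * (osc (fun j => Real.sqrt v * ω j) m + 1))) :=
    ENNReal.measurable_ofReal.comp (((hmo.add_const 1).pow_const 2).mul
      (Real.measurable_exp.comp ((hmo.add_const 1).const_mul (2 * a))))
  rw [← ME2a_unit, lintegral_map hmF ME2a_meas]
  set s : ℝ := 2 * a + 1 / n with hs
  have hs0 : 0 ≤ s := by positivity
  have hsn : s * n ≤ 3 := by
    have h1 : a * n ≤ 1 := by
      have := mul_le_mul_of_nonneg_right han hn0.le
      rwa [one_div_mul_cancel hn0.ne'] at this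
    have h2 : s * n = 2 * (a * n) + 1 := by
      rw [hs]
      field_simp
    linarith
  have hs3 : s ≤ 3 := by nlinarith
  have h1 := osc_exp_nz (S := Unit) s v hs0 hv.le m ()
  have hptw : ∀ ω : ℕ → Unit → ℝ, ENNReal.ofReal ((osc (fun j => Real.sqrt v * ω j ()) m + 1) ^ 2 *
        Real.exp (2 * a * (osc (fun j => Real.sqrt v * ω j ()) m + 1))) ≤
      ENNReal.ofReal (2 * n ^ 2 * Real.exp 3) *
        ENNReal.ofReal (Real.exp (s * osc (fun j => sc v ω j ()) m)) := by
    intro ω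
    rw [← ENNReal.ofReal_mul (by positivity)]
    refine ENNReal.ofReal_le_ofReal ?_
    have ho : 0 ≤ osc (fun j => Real.sqrt v * ω j ()) m := osc_nonneg _ _
    have hsc : osc (fun j => sc v ω j ()) m = osc (fun j => Real.sqrt v * ω j ()) m := rfl
    rw [hsc]
    set t : ℝ := osc (fun j => Real.sqrt v * ω j ()) m with ht
    have h2 : (t + 1) ^ 2 ≤ 2 * n ^ 2 * Real.exp ((t + 1) / n) := by
      have h3 := Real.quadratic_le_exp_of_nonneg (x := (t + 1) / n) (by positivity)
      have h4 : ((t + 1) / n) ^ 2 / 2 ≤ Real.exp ((t + 1) / n) := by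
        have : 0 ≤ (t + 1) / n := by positivity
        linarith
      have h5 : (t + 1) ^ 2 = 2 * n ^ 2 * (((t + 1) / n) ^ 2 / 2) := by
        field_simp
      rw [h5]
      exact mul_le_mul_of_nonneg_left h4 (by positivity)
    calc (t + 1) ^ 2 * Real.exp (2 * a * (t + 1))
        ≤ 2 * n ^ 2 * Real.exp ((t + 1) / n) * Real.exp (2 * a * (t + 1)) :=
          mul_le_mul_of_nonneg_right h2 (Real.exp_pos _).le
      _ = 2 * n ^ 2 * (Real.exp s * Real.exp (s * t)) := by
          rw [mul_assoc, ← Real.exp_add, ← Real.exp_add]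
          congr 2
          rw [hs]
          ring
      _ ≤ 2 * n ^ 2 * (Real.exp 3 * Real.exp (s * t)) := by
          have := Real.exp_le_exp.2 hs3
          gcongr
      _ = 2 * n ^ 2 * Real.exp 3 * Real.exp (s * t) := by ring
  refine (lintegral_mono hptw).trans ?_
  rw [lintegral_const_mul' _ _ ENNReal.ofReal_ne_top]
  refine (mul_le_mul_right h1 _).trans ?_
  rw [← ENNReal.ofReal_mul (by positivity)]
  refine ENNReal.ofReal_le_ofReal ?_
  have h8 : 8 * s ^ 2 * v * m ≤ 1 := by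
    have e1 : 8 * s ^ 2 * v * m = 8 * s ^ 2 * (v * m) := by ring
    rw [e1]
    calc 8 * s ^ 2 * (v * m) ≤ 8 * s ^ 2 * ((n : ℝ) ^ 2 / 2 ^ 19) :=
          mul_le_mul_of_nonneg_left hvm (by positivity)
      _ = 8 * (s * n) ^ 2 / 2 ^ 19 := by ring
      _ ≤ 8 * 3 ^ 2 / 2 ^ 19 := by
          have : 0 ≤ s * n := by positivity
          gcongr
      _ ≤ 1 := by norm_num
  have h9 : Real.exp (8 * s ^ 2 * v * m) ≤ Real.exp 1 := Real.exp_le_exp.2 h8
  calc 2 * (n : ℝ) ^ 2 * Real.exp 3 * (4 * Real.exp (8 * s ^ 2 * v * m))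
      ≤ 2 * (n : ℝ) ^ 2 * Real.exp 3 * (4 * Real.exp 1) := by gcongr
    _ = 8 * (Real.exp 3 * Real.exp 1) * n ^ 2 := by ring
    _ = 8 * Real.exp 4 * n ^ 2 := by
        rw [← Real.exp_add]
        norm_num

end DynC
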