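import Pool.Agent.Lib_MP_36b788c.LYr
import Pool.Agent.Lib_MP_36b788c.Low2
import Pool.Agent.Lib_MP_36b788c.ME2a
import Pool.Agent.Lib_MP_36b788c.BNoise2
import Pool.Agent.Lib_MP_36b788c.Grw2

/-!
# Main estimate, `N = 2`

PROOF of `mest2`. `p1`, `C` from `walk_up`, `walk_mom`; `n0` so large that `n0 ≥ 48` and `(√C + 2) n0 (1-p1)^{n0/4} ≤ 1/16`; `T0 = n0²/2^{20}`, `a0 = 1/n0`, `Ls = n0`. `s = a/ell`, `PL = dist x z/4 - g(X0) ≥ M0 = 2 n0 + 10`. `v = h/ell²`, `g = gz k h ω` (law `sc v`, `re_law`), `v m ∈ [T0/2, 2T0]`.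
Sites: `w_0 = z, w_1, …, w_{n0}` with `dist z w_i = i`; if `dist x z ≥ n0` moreover `dist x w_i = dist x z - i` (`toward`); otherwise any such sites (the box has points at distance `n0 ≤ L` of `z` along a coordinate), `dist x w_i ≤ dist x z + i`.
Apply `low2` at each `w_i` with `max M n0`, `ε = 1/100`, `p = (tiny)²/(n0+1)`: outside probability `(n0+1)p`: `LowE` for all `i`. Let `Θ = osc (g · z) m`. Success: for some `i ∈ [n0/2, n0]`: `Σ_{j<m} g_j w_i ≥ 2n0` and all `Σ_{[j,m)} g w_i ≥ -n0/16`.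
Gain `= PL - (dist x w/4 - g(X''))`, `X''` the lower bound of the height of `w` at time `m` from `LowE`. On success with `w = w_i`: `X'' ≥ X0 - i + 2n0 - 1/100 ≥ X0 + n0 - 1` or `X'' ≥ -1/16 - n0/16 - 1/100`. If `dist x z ≥ n0`: gain `= i/4 + g(X'') - g(X0) ≥ i/4` or `≥ n0/8 - n0/16 - 1/2` (`g(X) ≥ X - 1/4`, `g(X0) ≤ 0`), `≥ 1`. If `dist x z < n0`: `g(X0) ≤ -M0 + n0/4`, gain `≥ -n0/4 + g(X'') - g(X0) ≥ -n0/4 + min(n0 - 2, M0 - n0/4 - n0/16 - 1) ≥ 1`.
Without success, `w = z`: `X'' ≥ X0 - Θ - 1/100` or `≥ -1/16 - Θ - 1/100`, gain `≥ -(Θ + 1/8)` (`g` is 1-Lipschitz below `1/16`, `-3/16 ≥ g(X0) - 1/16`).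
`SSt(w_i) ≤ 2` at time `m` outside `C k^{1/16}` (`mom_cap`). On the good event `V1(tr m) x ≤ 2^{qs} e^{a PL} e^{-a gain}`. `E e^{-a gain} ≤ e^{-a} + (1-e^{-a}) P(fail) + a E[(Θ+1) e^{a(Θ+1)}; fail] ≤ 1 - a + a²/2 + a P(fail) + a (E[(Θ+1)² e^{2a(Θ+1)}])^{1/2} P(fail)^{1/2} ≤ 1 - (3/4) a`,
`P(fail) ≤ (1-p1)^{n0/2}` (`indep_sites`, `walk_up`), `walk_mom`. Exceptional events of total probability `p'`: `(∫_{alv} V1²)^{1/2} p'^{1/2} ≤ e^{C(a,T0)} V1 G x p'^{1/2} ≤ (a/100) V1 G x` (`V_sq`, `sm_multi` with `2s`, `m h ≤ T0 ell² + 5`).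
-/

open MeasureTheory ProbabilityTheory
open scoped ENNReal

namespace DynC

open Dyn

private theorem ME2_gX_lip (X δ : ℝ) (hδ : 0 ≤ δ) : gX X - δ ≤ gX (X - δ) := by
  unfold gX
  split_ifs <;> nlinarith

private theorem ME2_gX_hi {X : ℝ} (h : X ≤ 1 / 8) : gX X ≤ -(1 / 8) := by
  have h1 := gX_mono h
  have h2 : gX (1 / 8) = -(1 / 8) := by
    unfold gX
    norm_num
  linarith

private theorem ME2_gX_mid {X δ : ℝ} (hδ : 0 ≤ δ) (h : -(1 / 16) - δ ≤ X) :
    -(3 / 16) - δ ≤ gX X := by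
  have h1 := ME2_gX_lip (-(1 / 16)) δ hδ
  have h2 : gX (-(1 / 16)) = -(3 / 16) := by
    unfold gX
    norm_num
  have h3 := gX_mono h
  linarith

/-- gain on success -/
private theorem ME2_gain_succ {n i D Dw X0 X : ℝ} (hn : 48 ≤ n) (hi : n / 2 ≤ i) (hin : i ≤ n)
    (hX0 : X0 ≤ 1 / 8) (hM : 2 * n + 10 ≤ D / 4 - gX X0)
    (hD : (Dw + i = D) ∨ (D < n ∧ Dw ≤ D + i))
    (hX : X0 - i + 2 * n - 1 / 100 ≤ X ∨ -(1 / 16) - n / 16 - 1 / 100 ≤ X) :
    Dw / 4 - gX X ≤ D / 4 - gX X0 - 1 := by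
  have h8 := ME2_gX_hi hX0
  rcases hX with hX | hX
  · have h1 : X0 + (n - 1 / 100) ≤ X := by linarith
    rcases hD with hD | ⟨hD, hDw⟩
    · have h2 : gX X0 ≤ gX X := gX_mono (by linarith)
      linarith
    · have h3 : gX X0 ≤ -(1 / 4) := by linarith
      have h4 : X - 1 / 4 ≤ gX X := gX_ge X
      have h5 : gX X0 ≤ X0 := gX_le X0
      linarith
  · have h1 := ME2_gX_mid (X := X) (δ := n / 16 + 1 / 100) (by linarith) (by linarith)
    rcases hD with hD | ⟨hD, hDw⟩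
    · linarith
    · linarith

/-- gain without success -/
private theorem ME2_gain_fail {D X0 X Θ : ℝ} (hΘ : 0 ≤ Θ) (hX0 : X0 ≤ 1 / 8)
    (hX : X0 - Θ - 1 / 100 ≤ X ∨ -(1 / 16) - Θ - 1 / 100 ≤ X) :
    D / 4 - gX X ≤ D / 4 - gX X0 + (Θ + 1) := by
  rcases hX with hX | hX
  · have h1 := ME2_gX_lip X0 (Θ + 1 / 100) (by linarith)
    have h2 := gX_mono (show X0 - (Θ + 1 / 100) ≤ X by linarith)
    linarith
  · have h1 := ME2_gX_mid (X := X) (δ := Θ + 1 / 100) (by linarith) (by linarith)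
    have h2 := ME2_gX_hi hX0
    linarith

private theorem ME2_V_le {d L : ℕ} {k q a : ℝ} (hk : 0 < k) (hk1 : k < 1) (hq : 0 ≤ q) (ha : 0 < a)
    (u t : boxS d L → ℝ) (ht : ∀ y, 0 ≤ t y) (x w : boxS d L) (X : ℝ) (hX : k ^ (-X) ≤ u w)
    (hS : SSt (boxNet d L) k t w ≤ 2) :
    Vp (boxNet d L) k q (a / ell k) u t x ≤
      ENNReal.ofReal (2 ^ (q * (a / ell k)) *
        Real.exp (a * ((boxNet d L).dist x w / 4 - gX X))) := by
  have hl := ell_pos hk hk1
  have hs : 0 < a / ell k := div_pos ha hl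
  have hkx : k ^ (-X) = Real.exp (ell k * X) := by
    rw [Real.rpow_def_of_pos hk]
    congr 1
    unfold ell
    rw [one_div, Real.log_inv]
    ring
  have hu : 0 < u w := lt_of_lt_of_le (Real.rpow_pos_of_pos hk _) hX
  have hS1 := SSt_one (net := boxNet d L) hk t ht w
  have hS0 : 0 < SSt (boxNet d L) k t w := by linarith
  have hf : Real.exp (ell k * gX X) ≤ fpot k (u w) := by
    refine le_trans (le_of_eq ?_) (fpot_mono hk hk1 hX)
    unfold fpot
    rw [if_neg (not_le.mpr (Real.rpow_pos_of_pos hk _)), hkx, Real.log_exp,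
      mul_div_cancel_left₀ _ hl.ne']
  set D : ℕ := (boxNet d L).dist x w with hD
  have hkD : (k ^ (1 / 4 : ℝ)) ^ D = Real.exp (-(ell k * (D / 4))) := by
    rw [← Real.rpow_natCast, ← Real.rpow_mul hk.le, Real.rpow_def_of_pos hk]
    congr 1
    have h1 : Real.log (1 / k) = -Real.log k := by rw [one_div, Real.log_inv]
    unfold ell
    rw [h1]
    ring
  have hT0 : 0 < Tz (boxNet d L) k q u t x w := by
    unfold Tz
    have h1 := fpot_pos (k := k) hu
    have h2 : 0 < SSt (boxNet d L) k t w ^ (-q) := Real.rpow_pos_of_pos hS0 _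
    have h3 : 0 < (k ^ (1 / 4 : ℝ)) ^ (boxNet d L).dist x w := by positivity
    positivity
  have hT : Real.exp (-(ell k * (D / 4 - gX X))) * 2 ^ (-q) ≤ Tz (boxNet d L) k q u t x w := by
    unfold Tz
    rw [← hD, hkD]
    have h2 : (2 : ℝ) ^ (-q) ≤ SSt (boxNet d L) k t w ^ (-q) :=
      Real.rpow_le_rpow_of_nonpos hS0 hS (by linarith)
    have h3 : Real.exp (-(ell k * (D / 4 - gX X))) =
        Real.exp (-(ell k * (D / 4))) * Real.exp (ell k * gX X) := by
      rw [← Real.exp_add]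
      congr 1
      ring
    rw [h3]
    have h4 : Real.exp (-(ell k * (D / 4))) * Real.exp (ell k * gX X) ≤
        Real.exp (-(ell k * (D / 4))) * fpot k (u w) :=
      mul_le_mul_of_nonneg_left hf (Real.exp_pos _).le
    exact mul_le_mul h4 h2 (Real.rpow_nonneg (by norm_num) _)
      (mul_nonneg (Real.exp_pos _).le (fpot_nonneg _ _))
  have hsup : ENNReal.ofReal (Tz (boxNet d L) k q u t x w) ≤
      Finset.univ.sup fun z => ENNReal.ofReal (Tz (boxNet d L) k q u t x z) :=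
    Finset.le_sup (f := fun z => ENNReal.ofReal (Tz (boxNet d L) k q u t x z))
      (Finset.mem_univ w)
  unfold Vp
  rw [ENNReal.rpow_neg]
  have h1 : ((Finset.univ.sup fun z => ENNReal.ofReal (Tz (boxNet d L) k q u t x z)) ^
      (a / ell k))⁻¹ ≤ (ENNReal.ofReal (Tz (boxNet d L) k q u t x w) ^ (a / ell k))⁻¹ :=
    ENNReal.inv_le_inv.mpr (ENNReal.rpow_le_rpow hsup hs.le)
  refine h1.trans ?_
  rw [← ENNReal.rpow_neg, ENNReal.ofReal_rpow_of_pos hT0]
  apply ENNReal.ofReal_le_ofReal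
  have h5 := Real.rpow_le_rpow_of_nonpos (by positivity) hT (show -(a / ell k) ≤ 0 by linarith)
  refine h5.trans (le_of_eq ?_)
  rw [Real.mul_rpow (Real.exp_pos _).le (by positivity), ← Real.exp_mul,
    ← Real.rpow_mul (by norm_num), mul_comm]
  congr 1
  · congr 1
    ring
  · congr 1
    field_simp

/-- success of a walk -/
private def ME2Suc (n m : ℕ) (b : ℕ → ℝ) : Prop :=
  2 * (n : ℝ) ≤ ∑ j ∈ Finset.range m, b j ∧ ∀ j, j ≤ m → -(n / 16 : ℝ) ≤ ∑ l ∈ Finset.Ico j m, b l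

/-- bound of the block factor -/
private noncomputable def ME2F {S : Type} (a : ℝ) (r m : ℕ) (z : S) (w : ℕ → S)
    (g : ℕ → S → ℝ) : ℝ :=
  open Classical in
  if ∃ i, r ≤ i ∧ i ≤ 2 * r ∧ ME2Suc (2 * r) m (fun j => g j (w i)) then Real.exp (-a)
  else Real.exp (a * (osc (fun j => g j z) m + 1))

private theorem ME2_meas_suc (n m : ℕ) : MeasurableSet {b : ℕ → ℝ | ME2Suc n m b} := by
  unfold ME2Suc
  have h1 : {b : ℕ → ℝ | 2 * (n : ℝ) ≤ ∑ j ∈ Finset.range m, b j ∧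
      ∀ j, j ≤ m → -(n / 16 : ℝ) ≤ ∑ l ∈ Finset.Ico j m, b l} =
      {b : ℕ → ℝ | 2 * (n : ℝ) ≤ ∑ j ∈ Finset.range m, b j} ∩
      ⋂ j, ⋂ (_ : j ≤ m), {b : ℕ → ℝ | -(n / 16 : ℝ) ≤ ∑ l ∈ Finset.Ico j m, b l} := by
    ext b
    simp
  rw [h1]
  refine MeasurableSet.inter ?_ (MeasurableSet.iInter fun j => MeasurableSet.iInter fun _ => ?_)
  · exact measurableSet_le measurable_const
      (Finset.measurable_sum _ fun j _ => measurable_pi_apply j)
  · exact measurableSet_le measurable_const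
      (Finset.measurable_sum _ fun j _ => measurable_pi_apply j)

private theorem ME2_meas_pmax (n : ℕ) : Measurable (fun b : ℕ → ℝ => pmax b n) := by
  unfold pmax
  exact Finset.measurable_range_sup'' fun m _ =>
    Finset.measurable_sum _ fun j _ => measurable_pi_apply j

private theorem ME2_meas_osc (n : ℕ) : Measurable (fun b : ℕ → ℝ => osc b n) := by
  unfold osc
  refine (ME2_meas_pmax n).add ?_
  refine (ME2_meas_pmax n).comp ?_
  exact measurable_pi_lambda _ fun j => (measurable_pi_apply j).neg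

private theorem ME2_site_map {S : Type} [Fintype S] (z : S) :
    (PI (nz S)).map (fun ω j => ω j z) = PI (gaussianReal 0 1) := by
  have h0 : (nz S).map (fun a => a z) = gaussianReal 0 1 := by
    unfold nz
    exact (measurePreserving_eval (fun _ : S => gaussianReal 0 1) z).map_eq
  have : IsProbabilityMeasure ((nz S).map (fun a : S → ℝ => a z)) := by
    rw [h0]; infer_instance
  have h := PI_map (μ := nz S) (fun a : S → ℝ => a z) (measurable_pi_apply z)
  refine h.trans ?_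
  unfold PI
  congr 1
  funext i
  exact h0

private theorem ME2_r0 (C p1 : ℝ) (hC : 1 ≤ C) (hp : 0 < p1) (hp1 : p1 < 1) :
    ∃ r : ℕ, 24 ≤ r ∧ 32 * (C * (2 * r : ℝ) ^ 2) * (1 - p1) ^ (r + 1) ≤ 1 / 32 := by
  have h1 : Filter.Tendsto (fun r : ℕ => (r : ℝ) ^ 2 * (1 - p1) ^ r) Filter.atTop
      (nhds 0) :=
    tendsto_pow_const_mul_const_pow_of_abs_lt_one 2 (by rw [abs_lt]; constructor <;> linarith)
  have h2 := (h1.eventually (gt_mem_nhds (show (0 : ℝ) < 1 / (32 * 128 * C) by positivity))).and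
    (Filter.eventually_ge_atTop 24)
  obtain ⟨r, hr, hr24⟩ := h2.exists
  refine ⟨r, hr24, ?_⟩
  have h3 : (1 - p1) ^ (r + 1) ≤ (1 - p1) ^ r :=
    pow_le_pow_of_le_one (by linarith) (by linarith) (Nat.le_succ r)
  have h4 : (0 : ℝ) ≤ (1 - p1) ^ r := pow_nonneg (by linarith) r
  calc 32 * (C * (2 * r : ℝ) ^ 2) * (1 - p1) ^ (r + 1) ≤
      32 * (C * (2 * r : ℝ) ^ 2) * (1 - p1) ^ r := mul_le_mul_of_nonneg_left h3 (by positivity)
    _ = 128 * C * ((r : ℝ) ^ 2 * (1 - p1) ^ r) := by ring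
    _ ≤ 128 * C * (1 / (32 * 128 * C)) := mul_le_mul_of_nonneg_left hr.le (by positivity)
    _ = 1 / 32 := by field_simp

private theorem ME2_F_le {S : Type} (a Λ : ℝ) (ha : 0 < a) (hΛ : 0 < Λ) (r m : ℕ) (z : S)
    (w : ℕ → S) (g : ℕ → S → ℝ) :
    ENNReal.ofReal (ME2F a r m z w g) ≤ ENNReal.ofReal (Real.exp (-a)) +
      ENNReal.ofReal (a * Λ) * ENNReal.ofReal ((osc (fun j => g j z) m + 1) ^ 2 *
        Real.exp (2 * a * (osc (fun j => g j z) m + 1))) +
      ENNReal.ofReal (a / Λ) * Set.indicator {g : ℕ → S → ℝ | ∀ i, r ≤ i → i ≤ 2 * r →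
        ¬ ME2Suc (2 * r) m (fun j => g j (w i))} (fun _ => 1) g := by
  unfold ME2F
  split_ifs with h
  · exact le_add_right (le_add_right le_rfl)
  · rw [Set.indicator_of_mem (by
      intro i hi1 hi2 hs
      exact h ⟨i, hi1, hi2, hs⟩), mul_one]
    set Y : ℝ := osc (fun j => g j z) m + 1 with hY
    have hY1 : 1 ≤ Y := by
      have := osc_nonneg (fun j => g j z) m
      linarith
    rw [← ENNReal.ofReal_mul (by positivity), ← ENNReal.ofReal_add (by positivity) (by positivity),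
      ← ENNReal.ofReal_add (by positivity) (by positivity)]
    apply ENNReal.ofReal_le_ofReal
    have h1 : Real.exp (a * Y) - 1 ≤ a * Y * Real.exp (a * Y) := by
      have h2 := Real.add_one_le_exp (-(a * Y))
      have h3 : (-(a * Y) + 1) * Real.exp (a * Y) ≤ Real.exp (-(a * Y)) * Real.exp (a * Y) :=
        mul_le_mul_of_nonneg_right h2 (Real.exp_pos _).le
      rw [← Real.exp_add, neg_add_cancel, Real.exp_zero] at h3
      linarith
    have h4 : 1 - Real.exp (-a) ≤ a := by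
      have := Real.add_one_le_exp (-a)
      linarith
    have h5 : 1 ≤ Y * Real.exp (a * Y) := by
      have h6 : 1 ≤ Real.exp (a * Y) := Real.one_le_exp (by positivity)
      nlinarith
    have h7 : 2 * (Y * Real.exp (a * Y)) ≤
        Λ * (Y ^ 2 * Real.exp (2 * a * Y)) + 1 / Λ := by
      have h8 : Real.exp (2 * a * Y) = Real.exp (a * Y) ^ 2 := by
        rw [← Real.exp_nat_mul]
        congr 1
        push_cast
        ring
      rw [h8]
      have h9 : Λ * (Y ^ 2 * Real.exp (a * Y) ^ 2) + 1 / Λ - 2 * (Y * Real.exp (a * Y)) =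
          (Λ * (Y * Real.exp (a * Y)) - 1) ^ 2 / Λ := by
        field_simp
        ring
      have h10 : 0 ≤ (Λ * (Y * Real.exp (a * Y)) - 1) ^ 2 / Λ := by positivity
      linarith
    have h11 := mul_le_mul_of_nonneg_left h7 ha.le
    have h12 := mul_le_mul_of_nonneg_left h5 ha.le
    have h13 : a * (Λ * (Y ^ 2 * Real.exp (2 * a * Y)) + 1 / Λ) =
        a * Λ * (Y ^ 2 * Real.exp (2 * a * Y)) + a / Λ := by ring
    rw [h13] at h11
    linarith

/-- the block factor -/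
private theorem ME2_walk : ∃ r : ℕ, 24 ≤ r ∧ ∀ (S : Type) [Fintype S] (z : S) (w : ℕ → S),
    (∀ i j, i ≤ 2 * r → j ≤ 2 * r → w i = w j → i = j) → ∀ (v : ℝ) (m : ℕ), 0 < v →
    ((2 * r : ℕ) : ℝ) ^ 2 / 2 ^ 21 ≤ v * m → v * m ≤ ((2 * r : ℕ) : ℝ) ^ 2 / 2 ^ 19 →
    ∀ a : ℝ, 0 < a → a ≤ 1 / ((2 * r : ℕ) : ℝ) →
    ∫⁻ ω, ENNReal.ofReal (ME2F a r m z w (sc v ω)) ∂(PI (nz S)) ≤
      ENNReal.ofReal (1 - 3 / 4 * a) := by
  obtain ⟨p1, hp1, hp11, hup⟩ := walk_up
  obtain ⟨C, hC, hmom⟩ := walk_mom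
  obtain ⟨r, hr, hrC⟩ := ME2_r0 C p1 hC hp1 hp11
  refine ⟨r, hr, ?_⟩
  intro S _ z w hw v m hv hv1 hv2 a ha ha1
  classical
  set n : ℕ := 2 * r with hn
  have hn1 : 1 ≤ n := by omega
  have hn0 : (0 : ℝ) < n := by exact_mod_cast hn1
  have hn48 : (48 : ℝ) ≤ n := by
    have : 48 ≤ n := by omega
    exact_mod_cast this
  set Λ : ℝ := 1 / (32 * (C * (n : ℝ) ^ 2)) with hΛ
  have hΛ0 : 0 < Λ := by positivity
  -- the failure event
  set Ef : Set (ℕ → ℝ) := {b | ¬ ME2Suc n m (fun j => Real.sqrt v * b j)} with hEf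
  have hEfm : MeasurableSet Ef := by
    have h1 : Measurable (fun (b : ℕ → ℝ) (j : ℕ) => Real.sqrt v * b j) :=
      measurable_pi_lambda _ fun j => (measurable_pi_apply j).const_mul _
    exact (h1 (ME2_meas_suc n m)).compl
  have hEfp : PI (gaussianReal 0 1) Ef ≤ ENNReal.ofReal (1 - p1) := by
    have h1 := hup n hn1 v m hv hv1 hv2
    have h2 : Ef = {ω : ℕ → ℝ | 2 * (n : ℝ) ≤ ∑ j ∈ Finset.range m, Real.sqrt v * ω j ∧
      ∀ j, j ≤ m → -(n / 16 : ℝ) ≤ ∑ l ∈ Finset.Ico j m, Real.sqrt v * ω l}ᶜ := rfl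
    have h3 : MeasurableSet {ω : ℕ → ℝ | 2 * (n : ℝ) ≤ ∑ j ∈ Finset.range m, Real.sqrt v * ω j ∧
      ∀ j, j ≤ m → -(n / 16 : ℝ) ≤ ∑ l ∈ Finset.Ico j m, Real.sqrt v * ω l} := by
      have := hEfm.compl
      rwa [h2, compl_compl] at this
    rw [h2, prob_compl_eq_one_sub h3, ENNReal.ofReal_sub _ hp1.le, ENNReal.ofReal_one]
    exact tsub_le_tsub_left h1 _
  set A : Finset S := (Finset.Icc r n).image w with hA
  have hAc : A.card = r + 1 := by
    rw [hA, Finset.card_image_of_injOn]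
    · rw [Nat.card_Icc]; omega
    · intro i hi j hj hij
      have hi' := (Finset.mem_Icc.1 (Finset.mem_coe.1 hi)).2
      have hj' := (Finset.mem_Icc.1 (Finset.mem_coe.1 hj)).2
      exact hw i j hi' hj' hij
  have hfail : PI (nz S) {ω | ∀ y ∈ A, (fun j => ω j y) ∈ Ef} ≤
      ENNReal.ofReal ((1 - p1) ^ (r + 1)) := by
    rw [indep_sites A (fun _ => Ef) (fun _ => hEfm), Finset.prod_const, hAc,
      ENNReal.ofReal_pow (by linarith)]
    exact pow_le_pow_left₀ (by positivity) hEfp _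
  have hset : {ω : ℕ → S → ℝ | sc v ω ∈ {g : ℕ → S → ℝ | ∀ i, r ≤ i → i ≤ n →
        ¬ ME2Suc n m (fun j => g j (w i))}} = {ω | ∀ y ∈ A, (fun j => ω j y) ∈ Ef} := by
    ext ω
    constructor
    · intro h y hy
      obtain ⟨i, hi, rfl⟩ := Finset.mem_image.1 hy
      have hi' := Finset.mem_Icc.1 hi
      exact h i hi'.1 hi'.2
    · intro h i hi1 hi2
      exact h (w i) (Finset.mem_image_of_mem _ (Finset.mem_Icc.2 ⟨hi1, hi2⟩))
  have hsetm : MeasurableSet {ω : ℕ → S → ℝ | ∀ y ∈ A, (fun j => ω j y) ∈ Ef} := by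
    have h1 : {ω : ℕ → S → ℝ | ∀ y ∈ A, (fun j => ω j y) ∈ Ef} =
        ⋂ y, ⋂ (_ : y ∈ A), (fun (ω : ℕ → S → ℝ) j => ω j y) ⁻¹' Ef := by
      ext ω
      simp
    rw [h1]
    refine MeasurableSet.iInter fun y => MeasurableSet.iInter fun _ => ?_
    refine (measurable_pi_lambda _ fun j => ?_) hEfm
    exact (measurable_pi_apply y).comp (measurable_pi_apply j)
  -- moment
  have hm1 : Measurable (fun b : ℕ → ℝ => ENNReal.ofReal ((osc (fun j => Real.sqrt v * b j) m + 1) ^ 2 *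
        Real.exp (2 * a * (osc (fun j => Real.sqrt v * b j) m + 1)))) := by
    have h1 : Measurable (fun (b : ℕ → ℝ) => osc (fun j => Real.sqrt v * b j) m) :=
      (ME2_meas_osc m).comp (measurable_pi_lambda _ fun j => (measurable_pi_apply j).const_mul _)
    exact (((h1.add_const 1).pow_const 2).mul
      (Real.measurable_exp.comp ((h1.add_const 1).const_mul (2 * a)))).ennreal_ofReal
  have hsm : Measurable (fun (ω : ℕ → S → ℝ) (j : ℕ) => ω j z) :=
    measurable_pi_lambda _ fun j => (measurable_pi_apply z).comp (measurable_pi_apply j)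
  have hint : ∫⁻ ω, ENNReal.ofReal ((osc (fun j => sc v ω j z) m + 1) ^ 2 *
        Real.exp (2 * a * (osc (fun j => sc v ω j z) m + 1))) ∂(PI (nz S)) ≤
      ENNReal.ofReal (C * n ^ 2) := by
    have h1 := lintegral_map hm1 hsm (μ := PI (nz S))
    rw [ME2_site_map] at h1
    refine le_trans (le_of_eq h1.symm) ?_
    exact hmom n hn1 v m hv hv2 a ha ha1
  have hm2 : Measurable (fun ω : ℕ → S → ℝ => ENNReal.ofReal ((osc (fun j => sc v ω j z) m + 1) ^ 2 *
        Real.exp (2 * a * (osc (fun j => sc v ω j z) m + 1)))) := hm1.comp hsm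
  calc ∫⁻ ω, ENNReal.ofReal (ME2F a r m z w (sc v ω)) ∂(PI (nz S))
      ≤ ∫⁻ ω, (ENNReal.ofReal (Real.exp (-a)) +
      ENNReal.ofReal (a * Λ) * ENNReal.ofReal ((osc (fun j => sc v ω j z) m + 1) ^ 2 *
        Real.exp (2 * a * (osc (fun j => sc v ω j z) m + 1))) +
      ENNReal.ofReal (a / Λ) * Set.indicator {ω : ℕ → S → ℝ | ∀ y ∈ A, (fun j => ω j y) ∈ Ef}
        (fun _ => 1) ω) ∂(PI (nz S)) := by
        refine lintegral_mono fun ω => ?_
        refine (ME2_F_le a Λ ha hΛ0 r m z w (sc v ω)).trans (le_of_eq ?_)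
        congr 2
        rw [← hset]
        rfl
    _ = ENNReal.ofReal (Real.exp (-a)) +
      ENNReal.ofReal (a * Λ) * ∫⁻ ω, ENNReal.ofReal ((osc (fun j => sc v ω j z) m + 1) ^ 2 *
        Real.exp (2 * a * (osc (fun j => sc v ω j z) m + 1))) ∂(PI (nz S)) +
      ENNReal.ofReal (a / Λ) * PI (nz S) {ω : ℕ → S → ℝ | ∀ y ∈ A, (fun j => ω j y) ∈ Ef} := by
        have hm3 : Measurable (fun ω : ℕ → S → ℝ => ENNReal.ofReal (Real.exp (-a)) +
            ENNReal.ofReal (a * Λ) * ENNReal.ofReal ((osc (fun j => sc v ω j z) m + 1) ^ 2 *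
            Real.exp (2 * a * (osc (fun j => sc v ω j z) m + 1)))) :=
          measurable_const.add (hm2.const_mul _)
        rw [lintegral_add_left hm3, lintegral_add_left measurable_const, lintegral_const,
          measure_univ, mul_one, lintegral_const_mul _ hm2]
        congr 1
        rw [lintegral_const_mul _ (measurable_const.indicator hsetm),
          lintegral_indicator_const hsetm, one_mul]
    _ ≤ ENNReal.ofReal (Real.exp (-a)) +
      ENNReal.ofReal (a * Λ) * ENNReal.ofReal (C * n ^ 2) +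
      ENNReal.ofReal (a / Λ) * ENNReal.ofReal ((1 - p1) ^ (r + 1)) := by
        gcongr
    _ ≤ ENNReal.ofReal (1 - 3 / 4 * a) := by
        have hq0 : (0 : ℝ) ≤ (1 - p1) ^ (r + 1) := pow_nonneg (by linarith) _
        rw [← ENNReal.ofReal_mul (by positivity), ← ENNReal.ofReal_mul (by positivity),
          ← ENNReal.ofReal_add (by positivity) (by positivity),
          ← ENNReal.ofReal_add (by positivity) (by positivity)]
        apply ENNReal.ofReal_le_ofReal
        have h1 : a * Λ * (C * (n : ℝ) ^ 2) = a / 32 := by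
          rw [hΛ]
          field_simp
        have h2 : a / Λ * (1 - p1) ^ (r + 1) ≤ a / 32 := by
          have h3 : a / Λ * (1 - p1) ^ (r + 1) =
              a * (32 * (C * (n : ℝ) ^ 2) * (1 - p1) ^ (r + 1)) := by
            rw [hΛ]
            field_simp
          rw [h3]
          have h4 : 32 * (C * (n : ℝ) ^ 2) * (1 - p1) ^ (r + 1) ≤ 1 / 32 := by
            have h5 : (n : ℝ) = 2 * r := by rw [hn]; push_cast; ring
            rw [h5]
            exact hrC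
          have := mul_le_mul_of_nonneg_left h4 ha.le
          linarith
        have h6 : Real.exp (-a) ≤ 1 - a + a ^ 2 := by
          have h7 : |Real.exp (-a) - 1 - (-a)| ≤ (-a) ^ 2 := by
            apply Real.abs_exp_sub_one_sub_id_le
            rw [abs_neg, abs_of_pos ha]
            refine ha1.trans ?_
            rw [div_le_one hn0]
            linarith
          have h8 := (abs_le.1 h7).2
          nlinarith
        have h9 : a ^ 2 ≤ a / 48 := by
          have h10 : a ≤ 1 / 48 := by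
            refine ha1.trans ?_
            exact one_div_le_one_div_of_le (by norm_num) hn48
          nlinarith
        rw [h1]
        linarith

private theorem ME2_shift {d : ℕ} (hd : 1 ≤ d) (L i : ℕ) (hi : i ≤ L) (z : boxS d L) :
    ∃ y : boxS d L, (boxNet d L).dist z y = i := by
  classical
  have hz := Finset.mem_Icc.1 z.2
  let i0 : Fin d := ⟨0, hd⟩
  have a1 : -(L : ℤ) ≤ z.1 i0 := hz.1 i0
  have a2 : z.1 i0 ≤ (L : ℤ) := hz.2 i0
  obtain ⟨σ, hσ, b1, b2⟩ : ∃ σ : ℤ, (σ.natAbs = i) ∧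
      -(L : ℤ) ≤ z.1 i0 + σ ∧ z.1 i0 + σ ≤ L := by
    by_cases h : 0 ≤ z.1 i0
    · exact ⟨-(i : ℤ), by simp, by omega, by omega⟩
    · exact ⟨(i : ℤ), by simp, by omega, by omega⟩
  have hmem : Function.update z.1 i0 (z.1 i0 + σ) ∈ boxS d L := by
    refine Finset.mem_Icc.2 ⟨?_, ?_⟩
    · intro j
      by_cases hj : j = i0
      · rw [hj, Function.update_self]
        exact b1
      · rw [Function.update_of_ne hj]
        exact hz.1 j
    · intro j
      by_cases hj : j = i0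
      · rw [hj, Function.update_self]
        exact b2
      · rw [Function.update_of_ne hj]
        exact hz.2 j
  refine ⟨⟨_, hmem⟩, ?_⟩
  rw [boxNet_dist]
  unfold l1
  rw [Finset.sum_eq_single i0]
  · show (z.1 i0 - Function.update z.1 i0 (z.1 i0 + σ) i0).natAbs = i
    rw [Function.update_self]
    rw [show z.1 i0 - (z.1 i0 + σ) = -σ by ring, Int.natAbs_neg, hσ]
  · intro j _ hj
    show (z.1 j - Function.update z.1 i0 (z.1 i0 + σ) j).natAbs = 0
    rw [Function.update_of_ne hj]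
    simp
  · intro h
    exact absurd (Finset.mem_univ _) h

private theorem ME2_toward {d L : ℕ} (x z : boxS d L) (i : ℕ)
    (hi : i ≤ (boxNet d L).dist x z) :
    ∃ y, (boxNet d L).dist x y + i = (boxNet d L).dist x z ∧ (boxNet d L).dist z y = i := by
  induction i with
  | zero => exact ⟨z, by simp, (boxNet d L).dist_self z⟩
  | succ i ih =>
    obtain ⟨y, hy1, hy2⟩ := ih (by omega)
    have hyx : y ≠ x := by
      rintro rfl
      rw [(boxNet d L).dist_self] at hy1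
      omega
    obtain ⟨w, hw1, hw2⟩ := (boxNet d L).toward x y hyx
    refine ⟨w, by omega, ?_⟩
    have h1 := (boxNet d L).dist_tri z y w
    have h2 := (boxNet d L).dist_nb y w hw1
    have h3 := (boxNet d L).dist_tri x w z
    have h4 := (boxNet d L).dist_comm w z
    omega

private theorem ME2_sites {d : ℕ} (hd : 1 ≤ d) (n L : ℕ) (hL : n ≤ L) (x z : boxS d L) :
    ∃ w : ℕ → boxS d L, (∀ i, i ≤ n → (boxNet d L).dist z (w i) = i) ∧
      ((∀ i, i ≤ n → (boxNet d L).dist x (w i) + i = (boxNet d L).dist x z) ∨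
        (boxNet d L).dist x z < n) := by
  classical
  by_cases h : n ≤ (boxNet d L).dist x z
  · have h1 : ∀ i : ℕ, ∃ y, i ≤ n → (boxNet d L).dist x y + i = (boxNet d L).dist x z ∧
        (boxNet d L).dist z y = i := by
      intro i
      by_cases hi : i ≤ n
      · obtain ⟨y, hy⟩ := ME2_toward x z i (by omega)
        exact ⟨y, fun _ => hy⟩
      · exact ⟨z, fun h => absurd h hi⟩
    choose w hw using h1
    exact ⟨w, fun i hi => (hw i hi).2, Or.inl fun i hi => (hw i hi).1⟩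
  · have h1 : ∀ i : ℕ, ∃ y, i ≤ n → (boxNet d L).dist z y = i := by
      intro i
      by_cases hi : i ≤ n
      · obtain ⟨y, hy⟩ := ME2_shift hd L i (by omega) z
        exact ⟨y, fun _ => hy⟩
      · exact ⟨z, fun h => absurd h hi⟩
    choose w hw using h1
    exact ⟨w, hw, Or.inr (by omega)⟩

private theorem ME2_inj {d L n : ℕ} {z : boxS d L} {w : ℕ → boxS d L}
    (hw : ∀ i, i ≤ n → (boxNet d L).dist z (w i) = i) (i j : ℕ) (hi : i ≤ n) (hj : j ≤ n)
    (h : w i = w j) : i = j := by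
  rw [← hw i hi, ← hw j hj, h]

private theorem ME2_cut {Ω : Type} [MeasurableSpace Ω] (μ : Measure Ω) (A B : Set Ω)
    (hA : MeasurableSet A) (V Φ : Ω → ℝ≥0∞) (hV : Measurable V)
    (hgood : ∀ ω ∈ A, ω ∉ B → V ω ≤ Φ ω) (D c E2 p : ℝ≥0∞) (hD0 : D ≠ 0) (hD : D ≠ ⊤)
    (hc0 : c ≠ 0) (hc : c ≠ ⊤) (hsq : ∫⁻ ω in A, V ω ^ 2 ∂μ ≤ E2 * D ^ 2) (hp : μ B ≤ p) :
    ∫⁻ ω in A, V ω ∂μ ≤ ∫⁻ ω, Φ ω ∂μ + (c * E2 + p / c) * D := by
  set B' := toMeasurable μ B with hB'
  have hB'm : MeasurableSet B' := measurableSet_toMeasurable μ B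
  have hBB : B ⊆ B' := subset_toMeasurable μ B
  have hB'p : μ B' ≤ p := by
    rw [hB', measure_toMeasurable]
    exact hp
  set κ : ℝ≥0∞ := D / c with hκ
  have hκ0 : κ ≠ 0 := ENNReal.div_ne_zero.2 ⟨hD0, hc⟩
  have hκt : κ ≠ ⊤ := ENNReal.div_ne_top hD hc0
  have hpt : ∀ ω ∈ A, V ω ≤ Φ ω + (κ⁻¹ * V ω ^ 2 + κ * B'.indicator (fun _ => 1) ω) := by
    intro ω hω
    by_cases hωB : ω ∈ B'
    · rw [Set.indicator_of_mem hωB, mul_one]
      refine le_add_left ?_
      rcases le_or_gt (V ω) κ with h1 | h1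
      · exact le_add_left h1
      · refine le_add_right ?_
        have h2 : 1 ≤ κ⁻¹ * V ω := by
          rw [← ENNReal.inv_mul_cancel hκ0 hκt]
          gcongr
        calc V ω = 1 * V ω := (one_mul _).symm
          _ ≤ κ⁻¹ * V ω * V ω := by gcongr
          _ = κ⁻¹ * V ω ^ 2 := by rw [pow_two, mul_assoc]
    · exact le_add_right (hgood ω hω fun h => hωB (hBB h))
  have hm1 : Measurable fun ω => κ⁻¹ * V ω ^ 2 := (hV.pow_const 2).const_mul _
  have hm2 : Measurable fun ω => κ * B'.indicator (fun _ => (1 : ℝ≥0∞)) ω :=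
    (measurable_const.indicator hB'm).const_mul _
  calc ∫⁻ ω in A, V ω ∂μ
      ≤ ∫⁻ ω in A, (Φ ω + (κ⁻¹ * V ω ^ 2 + κ * B'.indicator (fun _ => 1) ω)) ∂μ :=
        setLIntegral_mono' hA hpt
    _ = ∫⁻ ω in A, Φ ω ∂μ + (κ⁻¹ * ∫⁻ ω in A, V ω ^ 2 ∂μ +
          κ * ∫⁻ ω in A, B'.indicator (fun _ => 1) ω ∂μ) := by
        have hm3 : Measurable fun ω => κ⁻¹ * V ω ^ 2 +
            κ * B'.indicator (fun _ => (1 : ℝ≥0∞)) ω := hm1.add hm2
        rw [lintegral_add_right _ hm3, lintegral_add_left hm1,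
          lintegral_const_mul _ (hV.pow_const 2),
          lintegral_const_mul _ (measurable_const.indicator hB'm)]
    _ ≤ ∫⁻ ω, Φ ω ∂μ + (κ⁻¹ * (E2 * D ^ 2) + κ * p) := by
        have h1 : ∫⁻ ω in A, B'.indicator (fun _ => 1) ω ∂μ ≤ p := by
          refine (setLIntegral_le_lintegral _ _).trans ?_
          rw [lintegral_indicator_const hB'm, one_mul]
          exact hB'p
        have h2 : ∫⁻ ω in A, Φ ω ∂μ ≤ ∫⁻ ω, Φ ω ∂μ := setLIntegral_le_lintegral _ _
        gcongr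
    _ = ∫⁻ ω, Φ ω ∂μ + (c * E2 + p / c) * D := by
        congr 1
        have h1 : κ⁻¹ * D = c := by
          rw [hκ, ENNReal.inv_div (Or.inl hc) (Or.inl hc0), ENNReal.div_mul_cancel hD0 hD]
        have h2 : κ⁻¹ * (E2 * D ^ 2) = c * E2 * D := by
          calc κ⁻¹ * (E2 * D ^ 2) = (κ⁻¹ * D) * E2 * D := by ring
            _ = c * E2 * D := by rw [h1]
        rw [h2, add_mul, hκ]
        congr 1
        rw [div_eq_mul_inv, div_eq_mul_inv]
        ring

private theorem ME2_SSt (N d : ℕ) (β : ℝ) (hβ : 0 < β) : ∃ C : ℝ, 0 < C ∧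
    ∀ (F : Fam d) (k : ℝ) (S : PSys F β k), 0 < k → k ≤ 1 → BNoise N S.ν S.b S.gd →
    ∀ L : ℕ, ∃ h0 : ℝ, 0 < h0 ∧ ∀ h, 0 < h → h < h0 →
    ∀ (G : (boxS d L → F.V) × (boxS d L → F.V)) (n : ℕ), 1 ≤ n * h → ∀ x,
      PI (S.mu L) ({ω | ¬ SSt (boxNet d L) k (fun y => ‖(S.tr h L G ω n).1 y‖ +
        ‖(S.tr h L G ω n).2 y‖) x ≤ 2} ∩ S.alv h L G n) ≤
        ENNReal.ofReal (C * k ^ (1 / 16 : ℝ)) := by
  obtain ⟨C, hC, H⟩ := mom_cap N d β hβ
  refine ⟨C, hC, fun F k S hk hk1 hB L => ?_⟩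
  obtain ⟨h0, hh0, H1⟩ := H F k S hk.le hk1 hB L
  refine ⟨h0, hh0, fun h hh hlt G n hn x => ?_⟩
  have H2 := H1 h hh hlt G n hn x
  have hAm := measurableSet_alv S h L G n
  set Z : (ℕ → boxS d L → S.Ωp) → ℝ := fun ω => Yl (boxNet d L) (nrm (S.tr h L G ω n).1) x +
          Yl (boxNet d L) (nrm (S.tr h L G ω n).2) x with hZ
  have htr : Measurable fun ω : ℕ → boxS d L → S.Ωp => S.tr h L G ω n :=
    (measurable_tr S h L n).comp (measurable_const.prodMk measurable_id)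
  have hZm : Measurable Z := by
    refine Measurable.add ?_ ?_
    · unfold Yl nrm
      refine Finset.measurable_sum _ fun y _ => ?_
      exact (((measurable_pi_apply y).comp (measurable_fst.comp htr)).norm).const_mul _
    · unfold Yl nrm
      refine Finset.measurable_sum _ fun y _ => ?_
      exact (((measurable_pi_apply y).comp (measurable_snd.comp htr)).norm).const_mul _
  have hk16 : 0 < k ^ (1 / 16 : ℝ) := Real.rpow_pos_of_pos hk _
  set ε : ℝ := (k ^ (1 / 16 : ℝ))⁻¹ with hε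
  have hε0 : 0 < ε := by positivity
  have h1 := meas_ge_le_lintegral_div (μ := (PI (S.mu L)).restrict (S.alv h L G n))
    (hZm.ennreal_ofReal.aemeasurable) (ε := ENNReal.ofReal ε) (by positivity) ENNReal.ofReal_ne_top
  have hsub : {ω | ¬ SSt (boxNet d L) k (fun y => ‖(S.tr h L G ω n).1 y‖ +
        ‖(S.tr h L G ω n).2 y‖) x ≤ 2} ⊆ {ω | ENNReal.ofReal ε ≤ ENNReal.ofReal (Z ω)} := by
    intro ω hω
    simp only [Set.mem_ofPred_eq, not_le] at hω ⊢
    apply ENNReal.ofReal_le_ofReal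
    have h2 : SSt (boxNet d L) k (fun y => ‖(S.tr h L G ω n).1 y‖ +
        ‖(S.tr h L G ω n).2 y‖) x = 1 + k ^ (1 / 16 : ℝ) * Z ω := by
      show _ = 1 + k ^ (1 / 16 : ℝ) * (Yl (boxNet d L) (nrm (S.tr h L G ω n).1) x +
          Yl (boxNet d L) (nrm (S.tr h L G ω n).2) x)
      unfold SSt Yl nrm
      rw [← Finset.sum_add_distrib]
      congr 2
      refine Finset.sum_congr rfl fun y _ => ?_
      ring
    rw [h2] at hω
    rw [hε, inv_le_iff_one_le_mul₀' hk16]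
    linarith
  have h3 : PI (S.mu L) ({ω | ¬ SSt (boxNet d L) k (fun y => ‖(S.tr h L G ω n).1 y‖ +
        ‖(S.tr h L G ω n).2 y‖) x ≤ 2} ∩ S.alv h L G n) =
      (PI (S.mu L)).restrict (S.alv h L G n) {ω | ¬ SSt (boxNet d L) k
        (fun y => ‖(S.tr h L G ω n).1 y‖ + ‖(S.tr h L G ω n).2 y‖) x ≤ 2} :=
    (Measure.restrict_apply' hAm).symm
  rw [h3]
  refine (measure_mono hsub).trans (h1.trans ?_)
  refine (ENNReal.div_le_div_right H2 _).trans (le_of_eq ?_)
  rw [← ENNReal.ofReal_div_of_pos hε0, hε, div_inv_eq_mul]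

private theorem ME2_meas_F {S : Type} [Fintype S] (a : ℝ) (r m : ℕ) (z : S) (w : ℕ → S) :
    Measurable (fun g : ℕ → S → ℝ => ME2F a r m z w g) := by
  classical
  unfold ME2F
  have hs : ∀ y : S, Measurable (fun (g : ℕ → S → ℝ) (j : ℕ) => g j y) := fun y =>
    measurable_pi_lambda _ fun j => (measurable_pi_apply y).comp (measurable_pi_apply j)
  refine Measurable.ite ?_ measurable_const ?_
  · have h1 : {g : ℕ → S → ℝ | ∃ i, r ≤ i ∧ i ≤ 2 * r ∧ ME2Suc (2 * r) m (fun j => g j (w i))} =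
        ⋃ i, ⋃ (_ : r ≤ i ∧ i ≤ 2 * r), (fun (g : ℕ → S → ℝ) (j : ℕ) => g j (w i)) ⁻¹'
          {b : ℕ → ℝ | ME2Suc (2 * r) m b} := by
      ext g
      simp only [Set.mem_ofPred_eq, Set.mem_iUnion, Set.mem_preimage, exists_prop, and_assoc]
    rw [h1]
    exact MeasurableSet.iUnion fun i => MeasurableSet.iUnion fun _ =>
      (hs (w i)) (ME2_meas_suc (2 * r) m)
  · exact Real.measurable_exp.comp
      ((((ME2_meas_osc m).comp (hs z)).add_const 1).const_mul a)

private theorem ME2_transfer (d L : ℕ) (k h : ℝ) (hk : 0 < k) (hk1 : k < 1) (hh : 0 < h)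
    (a : ℝ) (r m : ℕ) (z : boxS d L) (w : ℕ → boxS d L) :
    ∫⁻ ω, ENNReal.ofReal (ME2F a r m z w (gz k h ω)) ∂(PI (Measure.pi fun _ : boxS d L => gC)) =
      ∫⁻ ω, ENNReal.ofReal (ME2F a r m z w (sc (h / ell k ^ 2) ω)) ∂(PI (nz (boxS d L))) := by
  have hell := ell_pos hk hk1
  have hm : Measurable (fun (ω : ℕ → boxS d L → ℂ) (j : ℕ) (x : boxS d L) => (ω j x).re) := by
    refine measurable_pi_lambda _ fun j => measurable_pi_lambda _ fun x => ?_
    exact Complex.measurable_re.comp ((measurable_pi_apply x).comp (measurable_pi_apply j))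
  have hsc : Measurable (fun ω : ℕ → boxS d L → ℝ => sc (h / ell k ^ 2) ω) := by
    unfold sc
    fun_prop
  have hF : Measurable (fun ω : ℕ → boxS d L → ℝ =>
      ENNReal.ofReal (ME2F a r m z w (sc (h / ell k ^ 2) ω))) :=
    ((ME2_meas_F a r m z w).comp hsc).ennreal_ofReal
  have h1 := lintegral_map hF hm (μ := PI (Measure.pi fun _ : boxS d L => gC))
  rw [re_map] at h1
  rw [h1]
  refine lintegral_congr fun ω => ?_
  have e1 : gz k h ω = sc (h / ell k ^ 2) (fun j x => (ω j x).re) := by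
    funext j y
    unfold gz sc
    rw [Real.sqrt_div hh.le, Real.sqrt_sq hell.le]
    ring
  rw [e1]

/-- pathwise bound of the potential on the good event -/
private theorem ME2_core {d L : ℕ} {k q a : ℝ} {V : Type} [NormedAddCommGroup V] (hk : 0 < k)
    (hk1 : k < 1) (hq : 0 ≤ q) (ha : 0 < a) (r : ℕ) (hr : 24 ≤ r) (m : ℕ)
    (P : (boxS d L → V) × (boxS d L → V)) (x z : boxS d L) (w : ℕ → boxS d L)
    (hw : ∀ i, i ≤ 2 * r → (boxNet d L).dist z (w i) = i)
    (hwx : (∀ i, i ≤ 2 * r → (boxNet d L).dist x (w i) + i = (boxNet d L).dist x z) ∨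
        (boxNet d L).dist x z < 2 * r)
    (X0 : ℝ) (hX0 : X0 ≤ 1 / 8)
    (hM0 : 2 * ((2 * r : ℕ) : ℝ) + 10 ≤ (boxNet d L).dist x z / 4 - gX X0)
    (g : ℕ → boxS d L → ℝ)
    (hlow : ∀ i, i ≤ 2 * r → LowE k g m (w i) (X0 - (boxNet d L).dist z (w i)) (1 / 100)
      ‖P.1 (w i)‖)
    (hS : ∀ i, i ≤ 2 * r → SSt (boxNet d L) k (fun y => ‖P.1 y‖ + ‖P.2 y‖) (w i) ≤ 2) :
    V1 k q (a / ell k) P x ≤
      ENNReal.ofReal (2 ^ (q * (a / ell k)) *
        Real.exp (a * ((boxNet d L).dist x z / 4 - gX X0))) *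
        ENNReal.ofReal (ME2F a r m z w g) := by
  have hn : (48 : ℝ) ≤ ((2 * r : ℕ) : ℝ) := by
    have : 48 ≤ 2 * r := by omega
    exact_mod_cast this
  set n : ℕ := 2 * r with hndef
  have hV : ∀ i, i ≤ n → ∀ X : ℝ, k ^ (-X) ≤ ‖P.1 (w i)‖ → ∀ c : ℝ,
      (boxNet d L).dist x (w i) / 4 - gX X ≤ (boxNet d L).dist x z / 4 - gX X0 + c →
      V1 k q (a / ell k) P x ≤ ENNReal.ofReal (2 ^ (q * (a / ell k)) *
        Real.exp (a * ((boxNet d L).dist x z / 4 - gX X0))) *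
        ENNReal.ofReal (Real.exp (a * c)) := by
    intro i hi X hX c hc
    have h1 := ME2_V_le hk hk1 hq ha (fun y => ‖P.1 y‖) (fun y => ‖P.1 y‖ + ‖P.2 y‖)
      (fun y => by positivity) x (w i) X hX (hS i hi)
    have h2 : (0 : ℝ) ≤ 2 ^ (q * (a / ell k)) := Real.rpow_nonneg (by norm_num) _
    refine h1.trans ?_
    rw [← ENNReal.ofReal_mul (by positivity)]
    apply ENNReal.ofReal_le_ofReal
    rw [mul_assoc, ← Real.exp_add]
    apply mul_le_mul_of_nonneg_left _ h2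
    apply Real.exp_le_exp.mpr
    have h3 := mul_le_mul_of_nonneg_left hc ha.le
    linarith
  unfold ME2F
  split_ifs with h
  · obtain ⟨i, hi1, hi2, hs1, hs2⟩ := h
    have hi : i ≤ n := hi2
    have hin : (i : ℝ) ≤ (n : ℝ) := by exact_mod_cast hi
    have hi0 : (n : ℝ) / 2 ≤ i := by
      have : (r : ℝ) ≤ i := by exact_mod_cast hi1
      have h2 : (n : ℝ) = 2 * r := by rw [hndef]; push_cast; ring
      linarith
    have hD : ((boxNet d L).dist x (w i) : ℝ) + i = (boxNet d L).dist x z ∨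
        (((boxNet d L).dist x z : ℝ) < n ∧
          ((boxNet d L).dist x (w i) : ℝ) ≤ (boxNet d L).dist x z + i) := by
      rcases hwx with h1 | h1
      · left
        exact_mod_cast h1 i hi
      · right
        refine ⟨by exact_mod_cast h1, ?_⟩
        have h2 := (boxNet d L).dist_tri x z (w i)
        rw [hw i hi] at h2
        exact_mod_cast h2
    have hl := hlow i hi
    rw [hw i hi] at hl
    have hg : ∀ X : ℝ, (X0 - i + 2 * n - 1 / 100 ≤ X ∨ -(1 / 16) - n / 16 - 1 / 100 ≤ X) →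
        k ^ (-X) ≤ ‖P.1 (w i)‖ →
        V1 k q (a / ell k) P x ≤ ENNReal.ofReal (2 ^ (q * (a / ell k)) *
        Real.exp (a * ((boxNet d L).dist x z / 4 - gX X0))) *
        ENNReal.ofReal (Real.exp (-a)) := by
      intro X hX hkX
      have h1 := ME2_gain_succ hn hi0 hin hX0 hM0 hD hX
      have h2 := hV i hi X hkX (-1) (by linarith)
      rwa [mul_neg_one] at h2
    rcases hl with hl | ⟨j, hj, hl⟩
    · refine hg (X0 - i + ∑ j ∈ Finset.range m, g j (w i) - 1 / 100) (Or.inl ?_) ?_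
      · linarith
      · refine le_trans (le_of_eq ?_) hl
        congr 1
        ring
    · refine hg (-(1 / 16) + ∑ l ∈ Finset.Ico j m, g l (w i) - 1 / 100) (Or.inr ?_) ?_
      · have := hs2 j hj
        linarith
      · refine le_trans (le_of_eq ?_) hl
        congr 1
        ring
  · have hz : w 0 = z := by
      by_contra hne
      have h1 := (boxNet d L).dist_pos z (w 0) (fun h => hne h.symm)
      rw [hw 0 (Nat.zero_le _)] at h1
      omega
    have hl := hlow 0 (Nat.zero_le _)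
    rw [hw 0 (Nat.zero_le _), hz] at hl
    have hΘ := osc_nonneg (fun j => g j z) m
    have hb : ∀ j, j ≤ m → -(osc (fun j => g j z) m) ≤ ∑ l ∈ Finset.Ico j m, g l z := by
      intro j hj
      exact (abs_le.1 (sum_le_osc (fun j => g j z) hj le_rfl)).1
    have hg : ∀ X : ℝ, (X0 - osc (fun j => g j z) m - 1 / 100 ≤ X ∨
        -(1 / 16) - osc (fun j => g j z) m - 1 / 100 ≤ X) → k ^ (-X) ≤ ‖P.1 z‖ →
        V1 k q (a / ell k) P x ≤ ENNReal.ofReal (2 ^ (q * (a / ell k)) *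
        Real.exp (a * ((boxNet d L).dist x z / 4 - gX X0))) *
        ENNReal.ofReal (Real.exp (a * (osc (fun j => g j z) m + 1))) := by
      intro X hX hkX
      have h1 := ME2_gain_fail (D := (boxNet d L).dist x z) hΘ hX0 hX
      have h2 := hV 0 (Nat.zero_le _) X (by rw [hz]; exact hkX) (osc (fun j => g j z) m + 1)
        (by rw [hz]; exact h1)
      exact h2
    rcases hl with hl | ⟨j, hj, hl⟩
    · refine hg (X0 - (0 : ℕ) + ∑ j ∈ Finset.range m, g j z - 1 / 100) (Or.inl ?_) ?_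
      · have h1 := hb 0 (Nat.zero_le m)
        rw [← Finset.range_eq_Ico] at h1
        push_cast
        linarith
      · refine le_trans (le_of_eq ?_) hl
        congr 1
        ring
    · refine hg (-(1 / 16) + ∑ l ∈ Finset.Ico j m, g l z - 1 / 100) (Or.inr ?_) ?_
      · have := hb j hj
        linarith
      · refine le_trans (le_of_eq ?_) hl
        congr 1
        ring

/-- small `k` -/
private theorem ME2_k0 (T0 q a Cm p : ℝ) (hT0 : 0 < T0) (hq : 0 ≤ q) (ha : 0 < a)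
    (hCm : 0 < Cm) (hp : 0 < p) : ∃ k0 : ℝ, 0 < k0 ∧ k0 < 1 ∧ ∀ k, 0 < k → k < k0 →
      1 ≤ ell k ∧ 10 ≤ T0 * ell k ^ 2 ∧ 16 * q * a ≤ ell k ∧
      (2 : ℝ) ^ (q * (a / ell k)) ≤ 1 + a / 4 ∧ Cm * k ^ (1 / 16 : ℝ) ≤ p := by
  have hlog : 0 < Real.log (1 + a / 4) := Real.log_pos (by linarith)
  set K : ℝ := 1 + 10 / T0 + 16 * q * a + q * a / Real.log (1 + a / 4) with hK
  have e1 : 0 ≤ 10 / T0 := by positivity
  have e2 : 0 ≤ 16 * q * a := by positivity
  have e3 : 0 ≤ q * a / Real.log (1 + a / 4) := by positivity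
  refine ⟨min (Real.exp (-K)) ((p / Cm) ^ 16), by positivity, ?_, ?_⟩
  · refine (min_le_left _ _).trans_lt ?_
    rw [Real.exp_lt_one_iff]
    linarith
  intro k hk hkk
  have hell : K ≤ ell k := by
    unfold ell
    rw [one_div, Real.log_inv]
    have h1 : Real.log k ≤ -K := by
      rw [← Real.log_exp (-K)]
      exact Real.log_le_log hk (hkk.le.trans (min_le_left _ _))
    linarith
  have hell1 : 1 ≤ ell k := by linarith
  have hell0 : 0 < ell k := by linarith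
  refine ⟨hell1, ?_, by linarith, ?_, ?_⟩
  · have h1 : 10 / T0 ≤ ell k ^ 2 := by
      have h2 : ell k ≤ ell k ^ 2 := by nlinarith
      linarith
    rw [div_le_iff₀ hT0] at h1
    linarith
  · rw [Real.rpow_def_of_pos (by norm_num)]
    have h1 : Real.log 2 * (q * (a / ell k)) ≤ Real.log (1 + a / 4) := by
      have h2 : Real.log 2 ≤ 1 := by
        have := Real.log_two_lt_d9
        linarith
      have h3 : 0 ≤ q * (a / ell k) := by positivity
      have h4 : q * (a / ell k) ≤ Real.log (1 + a / 4) := by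
        have h5 : q * a / Real.log (1 + a / 4) ≤ ell k := by linarith
        rw [div_le_iff₀ hlog] at h5
        rw [← mul_div_assoc, div_le_iff₀ hell0]
        linarith
      nlinarith
    calc Real.exp (Real.log 2 * (q * (a / ell k))) ≤ Real.exp (Real.log (1 + a / 4)) :=
          Real.exp_le_exp.mpr h1
      _ = 1 + a / 4 := Real.exp_log (by linarith)
  · have h1 : k ^ (1 / 16 : ℝ) ≤ ((p / Cm) ^ 16) ^ (1 / 16 : ℝ) :=
      Real.rpow_le_rpow hk.le (hkk.le.trans (min_le_right _ _)) (by norm_num)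
    rw [← Real.rpow_natCast, ← Real.rpow_mul (by positivity),
      show ((16 : ℕ) : ℝ) * (1 / 16) = 1 by norm_num, Real.rpow_one] at h1
    calc Cm * k ^ (1 / 16 : ℝ) ≤ Cm * (p / Cm) := mul_le_mul_of_nonneg_left h1 hCm.le
      _ = p := by field_simp

private theorem ME2_V_ne_zero {d L : ℕ} {k q s : ℝ} {V : Type} [NormedAddCommGroup V] (hs : 0 < s)
    (P : (boxS d L → V) × (boxS d L → V)) (x : boxS d L) : V1 k q s P x ≠ 0 := by
  unfold V1 Vp
  intro h
  rw [ENNReal.rpow_neg, ENNReal.inv_eq_zero, ENNReal.rpow_eq_top_iff] at h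
  rcases h with ⟨-, h⟩ | ⟨h, -⟩
  · linarith
  · have h2 : (Finset.univ.sup fun z => ENNReal.ofReal (Tz (boxNet d L) k q (fun y => ‖P.1 y‖)
        (fun y => ‖P.1 y‖ + ‖P.2 y‖) x z)) < ⊤ := by
      rw [Finset.sup_lt_iff (by simp)]
      intro z _
      exact ENNReal.ofReal_lt_top
    exact absurd h h2.ne

private theorem ME2_tr (d : ℕ) (β k : ℝ) (hβ : 0 < β) (hk : 0 ≤ k) (h : ℝ) (L : ℕ)
    (G : (boxS d L → ℂ) × (boxS d L → ℂ)) (ω : ℕ → boxS d L → ℂ) (n : ℕ) :
    ((PS2 d β k hβ hk).tr h L G ω n).1 = traj (st2 d β k h L) G.1 ω n := by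
  induction n with
  | zero => rfl
  | succ n ih =>
    show st2 d β k h L ((PS2 d β k hβ hk).tr h L G ω n).1 (ω n) = _
    rw [ih]
    rfl

theorem mest2 (d : ℕ) (hd : 1 ≤ d) (β : ℝ) (hβ : 0 < β) : ∃ q0 a0 T0 : ℝ, ∃ Ls : ℕ, 1 ≤ q0 ∧
    0 < a0 ∧ a0 ≤ 1 / 8 ∧ 0 < T0 ∧
    ∀ q, q0 ≤ q → ∀ a : ℝ, 0 < a → a ≤ a0 →
    ∀ M : ℝ, 1 ≤ M → ∃ M0 Md ε0 k0 : ℝ, 0 < ε0 ∧ 0 < k0 ∧ k0 < 1 ∧ ∀ (k : ℝ) (hk : 0 < k),
      k < k0 → ∀ L : ℕ, Ls ≤ L → ∃ h0 : ℝ, 0 < h0 ∧ ∀ h, 0 < h → h < h0 →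
      MEst 2 (PS2 d β k hβ hk.le) q a T0 M M0 Md ε0 L h := by
  obtain ⟨r, hr, hwalk⟩ := ME2_walk
  obtain ⟨q0, hq0, hsm⟩ := sm_multi 2 d β le_rfl hβ
  obtain ⟨Cm, hCm, hSS⟩ := ME2_SSt 2 d β hβ
  have hn48 : (48 : ℝ) ≤ ((2 * r : ℕ) : ℝ) := by
    have : 48 ≤ 2 * r := by omega
    exact_mod_cast this
  have hn0 : (0 : ℝ) < ((2 * r : ℕ) : ℝ) := by linarith
  obtain ⟨T0, hT0⟩ : ∃ T0 : ℝ, T0 = ((2 * r : ℕ) : ℝ) ^ 2 / 2 ^ 20 := ⟨_, rfl⟩
  have hT00 : 0 < T0 := by rw [hT0]; positivity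
  refine ⟨q0, 1 / ((2 * r : ℕ) : ℝ), T0, 2 * r, hq0, by positivity, ?_, hT00, ?_⟩
  · exact one_div_le_one_div_of_le (by norm_num) (by linarith)
  intro q hq a ha ha1 M hM
  have hq1 : 1 ≤ q := hq0.trans hq
  obtain ⟨C9, k1, hC9, hk1, hk11, hsm1⟩ := hsm q hq
  obtain ⟨Csq, hCsq⟩ : ∃ Csq : ℝ, Csq = Real.exp (C9 * (2 * a + 4 * a ^ 2) * (T0 + 5)) :=
    ⟨_, rfl⟩
  have hCsq0 : 0 < Csq := by rw [hCsq]; positivity
  obtain ⟨c, hc⟩ : ∃ c : ℝ, c = a / (300 * Csq) := ⟨_, rfl⟩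
  have hc0 : 0 < c := by rw [hc]; positivity
  obtain ⟨p, hp⟩ : ∃ p : ℝ, p = c * a / (600 * ((2 * r : ℕ) + 1)) := ⟨_, rfl⟩
  have hp0 : 0 < p := by rw [hp]; positivity
  obtain ⟨Md, ε0, k2, hε0, hk2, hk21, hlow⟩ := low2 d β hβ T0 (max M ((2 * r : ℕ) : ℝ))
    (1 / 100) p hT00 (le_max_of_le_left hM) (by norm_num) hp0
  obtain ⟨k3, hk3, hk31, hk3'⟩ := ME2_k0 T0 q a Cm p hT00 (by linarith) ha hCm hp0
  refine ⟨2 * ((2 * r : ℕ) : ℝ) + 10, Md, ε0, min k1 (min k2 k3), hε0,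
    lt_min hk1 (lt_min hk2 hk3), (min_le_left _ _).trans_lt hk11, ?_⟩
  intro k hk hkk L hL
  have hkk1 : k < k1 := hkk.trans_le (min_le_left _ _)
  have hkk2 : k < k2 := hkk.trans_le ((min_le_right _ _).trans (min_le_left _ _))
  have hkk3 : k < k3 := hkk.trans_le ((min_le_right _ _).trans (min_le_right _ _))
  have hkl1 : k < 1 := hkk1.trans hk11
  obtain ⟨hell1, hell2, hell3, hell4, hell5⟩ := hk3' k hk hkk3
  have hell0 : 0 < ell k := by linarith
  have hs0 : 0 < a / ell k := div_pos ha hell0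
  have h8 : 8 * q * (2 * (a / ell k)) ≤ 1 := by
    have h1 : 8 * q * (2 * (a / ell k)) = 16 * q * a / ell k := by ring
    rw [h1, div_le_one hell0]
    exact hell3
  obtain ⟨h1, hh1, hsm2⟩ := hsm1 (Fam2 d β k) k (PS2 d β k hβ hk.le) hk hkk1 bnoise2
    (2 * (a / ell k)) (by positivity) h8
  obtain ⟨h2, hh2, hSS1⟩ := hSS (Fam2 d β k) k (PS2 d β k hβ hk.le) hk hkl1.le bnoise2 L
  obtain ⟨h3, hh3, hlow1⟩ := hlow k hk hkk2 L
  refine ⟨min h1 (min h2 h3), lt_min hh1 (lt_min hh2 hh3), fun h hh hhlt => ?_⟩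
  have hhl1 : h < h1 := hhlt.trans_le (min_le_left _ _)
  have hhl2 : h < h2 := hhlt.trans_le ((min_le_right _ _).trans (min_le_left _ _))
  have hhl3 : h < h3 := hhlt.trans_le ((min_le_right _ _).trans (min_le_right _ _))
  intro m hm1 hm2 G x z X0 hX0 hGz hM0 hprof hcaps
  have hts : ts 2 k = ell k ^ 2 := by
    unfold ts
    rw [if_pos rfl]
  rw [hts] at hm1 hm2
  by_cases hDt : V1 k q (a / ell k) G x = ⊤
  · rw [hDt, ENNReal.mul_top (by rw [Ne, ENNReal.ofReal_eq_zero]; push Not; positivity), add_top]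
    exact le_top
  have hD0 : V1 k q (a / ell k) G x ≠ 0 := ME2_V_ne_zero hs0 G x
  obtain ⟨w, hw, hwx⟩ := ME2_sites hd (2 * r) L hL x z
  -- second moment
  have hsq : ∫⁻ ω in (PS2 d β k hβ hk.le).alv h L G m,
      V1 k q (a / ell k) ((PS2 d β k hβ hk.le).tr h L G ω m) x ^ 2
        ∂(PI ((PS2 d β k hβ hk.le).mu L)) ≤
      ENNReal.ofReal Csq * V1 k q (a / ell k) G x ^ 2 := by
    have e1 := (hsm2 h hh hhl1 L G m x).1
    have e2 : ∀ P : (boxS d L → (Fam2 d β k).V) × (boxS d L → (Fam2 d β k).V),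
        V1 k q (a / ell k) P x ^ 2 = V1 k q (2 * (a / ell k)) P x := fun P =>
      (V_sq k q (a / ell k) P x).1
    simp_rw [e2]
    refine e1.trans ?_
    gcongr
    rw [hCsq]
    apply Real.exp_le_exp.mpr
    have e3 : C9 * (2 * (a / ell k) / ell k + (2 * (a / ell k)) ^ 2) * (m * h) =
        C9 * (2 * a + 4 * a ^ 2) * (m * h / ell k ^ 2) := by
      field_simp
      ring
    rw [e3]
    have e4 : (m : ℝ) * h / ell k ^ 2 ≤ T0 + 5 := by
      rw [div_le_iff₀ (by positivity)]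
      have : 1 ≤ ell k ^ 2 := by nlinarith
      nlinarith
    exact mul_le_mul_of_nonneg_left e4 (by positivity)
  -- bad event
  set Bad : Set (ℕ → boxS d L → ℂ) := ⋃ i ∈ Finset.range (2 * r + 1),
    ({ω | ¬ LowE k (gz k h ω) m (w i) (X0 - (boxNet d L).dist z (w i)) (1 / 100)
        ‖traj (st2 d β k h L) G.1 ω m (w i)‖} ∪
      ({ω | ¬ SSt (boxNet d L) k (fun y => ‖((PS2 d β k hβ hk.le).tr h L G ω m).1 y‖ +
        ‖((PS2 d β k hβ hk.le).tr h L G ω m).2 y‖) (w i) ≤ 2} ∩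
        (PS2 d β k hβ hk.le).alv h L G m)) with hBad
  have hBadp : PI ((PS2 d β k hβ hk.le).mu L) Bad ≤ ENNReal.ofReal (c * a / 300) := by
    have e1 : ∀ i ∈ Finset.range (2 * r + 1), PI ((PS2 d β k hβ hk.le).mu L)
        ({ω | ¬ LowE k (gz k h ω) m (w i) (X0 - (boxNet d L).dist z (w i)) (1 / 100)
        ‖traj (st2 d β k h L) G.1 ω m (w i)‖} ∪
      ({ω | ¬ SSt (boxNet d L) k (fun y => ‖((PS2 d β k hβ hk.le).tr h L G ω m).1 y‖ +
        ‖((PS2 d β k hβ hk.le).tr h L G ω m).2 y‖) (w i) ≤ 2} ∩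
        (PS2 d β k hβ hk.le).alv h L G m)) ≤ ENNReal.ofReal (2 * p) := by
      intro i hi
      have hi' : i ≤ 2 * r := Nat.lt_succ_iff.1 (Finset.mem_range.1 hi)
      refine (measure_union_le _ _).trans ?_
      have e2 : PI ((PS2 d β k hβ hk.le).mu L) {ω | ¬ LowE k (gz k h ω) m (w i)
          (X0 - (boxNet d L).dist z (w i)) (1 / 100)
          ‖traj (st2 d β k h L) G.1 ω m (w i)‖} ≤ ENNReal.ofReal p := by
        refine hlow1 h hh hhl3 m hm1 hm2 G.1 z (w i) X0 hX0 hGz ?_ ?_ hcaps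
        · rw [hw i hi']
          refine le_max_of_le_right ?_
          exact_mod_cast hi'
        · intro v
          refine (hprof v).trans ?_
          apply Real.rpow_le_rpow_of_exponent_ge hk hkl1.le
          have := le_max_left M ((2 * r : ℕ) : ℝ)
          linarith
      have e3 := hSS1 h hh hhl2 G m (by linarith) (w i)
      have e4 : ENNReal.ofReal (2 * p) = ENNReal.ofReal p + ENNReal.ofReal p := by
        rw [two_mul, ENNReal.ofReal_add hp0.le hp0.le]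
      rw [e4]
      exact add_le_add e2 (e3.trans (ENNReal.ofReal_le_ofReal hell5))
    refine (measure_biUnion_finset_le _ _).trans ((Finset.sum_le_sum e1).trans (le_of_eq ?_))
    rw [Finset.sum_const, Finset.card_range, nsmul_eq_mul, ← ENNReal.ofReal_natCast,
      ← ENNReal.ofReal_mul (by positivity)]
    congr 1
    rw [hp]
    push_cast
    field_simp
    ring
  -- cut
  have hVm : Measurable fun ω : ℕ → boxS d L → (PS2 d β k hβ hk.le).Ωp =>
      V1 k q (a / ell k) ((PS2 d β k hβ hk.le).tr h L G ω m) x :=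
    (measurable_V k q (a / ell k) x).1.comp
      ((measurable_tr (PS2 d β k hβ hk.le) h L m).comp (measurable_const.prodMk measurable_id))
  have hcut := ME2_cut (PI ((PS2 d β k hβ hk.le).mu L)) ((PS2 d β k hβ hk.le).alv h L G m) Bad
    (measurableSet_alv _ h L G m)
    (fun ω => V1 k q (a / ell k) ((PS2 d β k hβ hk.le).tr h L G ω m) x)
    (fun ω => ENNReal.ofReal (2 ^ (q * (a / ell k)) *
        Real.exp (a * ((boxNet d L).dist x z / 4 - gX X0))) *
        ENNReal.ofReal (ME2F a r m z w (gz k h ω))) hVm ?_ (V1 k q (a / ell k) G x)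
    (ENNReal.ofReal c) (ENNReal.ofReal Csq) (ENNReal.ofReal (c * a / 300)) hD0 hDt
    (by rw [Ne, ENNReal.ofReal_eq_zero]; push Not; exact hc0) ENNReal.ofReal_ne_top hsq hBadp
  swap
  · intro ω hω hωB
    have hnot : ∀ i, i ≤ 2 * r → LowE k (gz k h ω) m (w i)
        (X0 - (boxNet d L).dist z (w i)) (1 / 100)
        ‖traj (st2 d β k h L) G.1 ω m (w i)‖ ∧
        SSt (boxNet d L) k (fun y => ‖((PS2 d β k hβ hk.le).tr h L G ω m).1 y‖ +
        ‖((PS2 d β k hβ hk.le).tr h L G ω m).2 y‖) (w i) ≤ 2 := by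
      intro i hi
      constructor
      · by_contra hcon
        exact hωB (Set.mem_biUnion (Finset.mem_coe.2 (Finset.mem_range.2 (Nat.lt_succ_of_le hi)))
          (Or.inl hcon))
      · by_contra hcon
        exact hωB (Set.mem_biUnion (Finset.mem_coe.2 (Finset.mem_range.2 (Nat.lt_succ_of_le hi)))
          (Or.inr ⟨hcon, hω⟩))
    refine ME2_core hk hkl1 (by linarith) ha r hr m _ x z w hw hwx X0 hX0 hM0 (gz k h ω)
      (fun i hi => ?_) (fun i hi => (hnot i hi).2)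
    have e1 := (hnot i hi).1
    have e2 := ME2_tr d β k hβ hk.le h L G ω m
    rw [← e2] at e1
    exact e1
  refine hcut.trans ?_
  -- main term
  have hv1 : ((2 * r : ℕ) : ℝ) ^ 2 / 2 ^ 21 ≤ h / ell k ^ 2 * m := by
    have e1 : h / ell k ^ 2 * m = m * h / ell k ^ 2 := by ring
    rw [e1, le_div_iff₀ (by positivity)]
    have e2 : ((2 * r : ℕ) : ℝ) ^ 2 / 2 ^ 21 = T0 / 2 := by rw [hT0]; ring
    rw [e2]
    linarith
  have hv2 : h / ell k ^ 2 * m ≤ ((2 * r : ℕ) : ℝ) ^ 2 / 2 ^ 19 := by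
    have e1 : h / ell k ^ 2 * m = m * h / ell k ^ 2 := by ring
    rw [e1, div_le_iff₀ (by positivity)]
    have e2 : ((2 * r : ℕ) : ℝ) ^ 2 / 2 ^ 19 = 2 * T0 := by rw [hT0]; ring
    rw [e2]
    linarith
  have hmain : ∫⁻ ω, ENNReal.ofReal (2 ^ (q * (a / ell k)) *
        Real.exp (a * ((boxNet d L).dist x z / 4 - gX X0))) *
        ENNReal.ofReal (ME2F a r m z w (gz k h ω)) ∂(PI ((PS2 d β k hβ hk.le).mu L)) ≤
      ENNReal.ofReal ((1 - a / 2) *
        Real.exp (a * ((boxNet d L).dist x z / 4 - gX X0))) := by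
    rw [lintegral_const_mul' _ _ ENNReal.ofReal_ne_top]
    have e1 := ME2_transfer d L k h hk hkl1 hh a r m z w
    have e2 := hwalk (boxS d L) z w (fun i j hi hj hij => ME2_inj hw i j hi hj hij)
      (h / ell k ^ 2) m (by positivity) hv1 hv2 a ha ha1
    have e3 : ∫⁻ ω, ENNReal.ofReal (ME2F a r m z w (gz k h ω))
        ∂(PI ((PS2 d β k hβ hk.le).mu L)) ≤ ENNReal.ofReal (1 - 3 / 4 * a) :=
      (le_of_eq e1).trans e2
    refine (mul_le_mul_right e3 _).trans ?_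
    have e4 : (0 : ℝ) ≤ 2 ^ (q * (a / ell k)) := Real.rpow_nonneg (by norm_num) _
    rw [← ENNReal.ofReal_mul (by positivity)]
    apply ENNReal.ofReal_le_ofReal
    have e5 : (0 : ℝ) ≤ 1 - 3 / 4 * a := by
      have : a ≤ 1 / 48 := ha1.trans (one_div_le_one_div_of_le (by norm_num) hn48)
      linarith
    have e6 : (2 : ℝ) ^ (q * (a / ell k)) * (1 - 3 / 4 * a) ≤ 1 - a / 2 := by
      have := mul_le_mul_of_nonneg_right hell4 e5
      nlinarith
    have e7 := mul_le_mul_of_nonneg_right e6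
      (Real.exp_pos (a * ((boxNet d L).dist x z / 4 - gX X0))).le
    linarith
  refine add_le_add hmain ?_
  gcongr
  rw [← ENNReal.ofReal_mul hc0.le, ← ENNReal.ofReal_div_of_pos hc0,
    ← ENNReal.ofReal_add (by positivity) (by positivity)]
  apply ENNReal.ofReal_le_ofReal
  have e1 : c * Csq = a / 300 := by
    rw [hc]
    field_simp
  have e2 : c * a / 300 / c = a / 300 := by
    field_simp
  rw [e1, e2]
  linarith

end DynC
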