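import Pool.Agent.Lib_MP_36b788c.LYit
import Pool.Agent.Lib_MP_36b788c.LYr
import Pool.Agent.Lib_MP_36b788c.ME2
import Pool.Agent.Lib_MP_36b788c.Sm3
import Pool.Agent.Lib_MP_36b788c.BNoise2

/-!
# Drift of the potential, `N = 2`, in the form used for the blocks

PROOF of `ly_w`. `mest2` gives `q0, a0, T0, Ls`; `ly_red` (with `F k = Fam2 d β k`, `S k hk = PS2 ..`, `bnoise2`) gives for each `a ≤ a0` a constant `Ca(a)`; `ly_iter` gives `B, c` (depending on `q, T0` only) with `∫_{alv} V1 (a/ell) ≤ B e^{-c a T'} V1 + B Ca/a` at the step `⌈T' ell²/h⌉` for `T' ≥ 2 T0`.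
(i) squares: `V1 ^ 2 = V1` at exponent `2 a'/ell` (`V_sq`): `a := 2a' ≤ a0`, `T' = T + 1`.
(ii) `n` in the range: `n1 = ⌈(T-2) ell²/h⌉ ≤ n`, `(n - n1) h ≤ 3 ell²`: `alv_markov` at `n1`, `sm_multi` for the remaining steps (factor `exp(C9(a' + a'^2) 3) ≤ const`), `a := a'`, `T' = T - 2`: `e^{-c a'(T-2)} ≤ e^{2c} e^{-c a' T}`. Enlarge `B`.
`V2`: for `PS2` both components follow the same map, `tr (G.swap) = (tr G).swap` and `alv` is symmetric, `V2 k q s G x = V1 k q s G.swap x` (`swap_V`).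
-/

open MeasureTheory ProbabilityTheory
open scoped ENNReal

namespace DynC

open Dyn

private theorem LyW_tr {d : ℕ} {β k : ℝ} (hβ : 0 < β) (hk : 0 ≤ k) (h : ℝ) (L : ℕ)
    (G : (boxS d L → ℂ) × (boxS d L → ℂ)) (ω : ℕ → boxS d L → ℂ) (n : ℕ) :
    (PS2 d β k hβ hk).tr h L G.swap ω n = ((PS2 d β k hβ hk).tr h L G ω n).swap := by
  induction n with
  | zero => rfl
  | succ n ih =>
    show (PS2 d β k hβ hk).st h L ((PS2 d β k hβ hk).tr h L G.swap ω n) (ω n) =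
      ((PS2 d β k hβ hk).st h L ((PS2 d β k hβ hk).tr h L G ω n) (ω n)).swap
    rw [ih]
    rfl

private theorem LyW_alv {d : ℕ} {β k : ℝ} (hβ : 0 < β) (hk : 0 ≤ k) (h : ℝ) (L : ℕ)
    (G : (boxS d L → ℂ) × (boxS d L → ℂ)) (n : ℕ) :
    (PS2 d β k hβ hk).alv h L G.swap n = (PS2 d β k hβ hk).alv h L G n := by
  ext ω
  show ((∀ j, j < n → ∀ x, ω j x ∈ (PS2 d β k hβ hk).gd h) ∧
      ∀ j, j ≤ n → ∀ x, ‖((PS2 d β k hβ hk).tr h L G.swap ω j).1 x‖ ≤ rad β h ∧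
        ‖((PS2 d β k hβ hk).tr h L G.swap ω j).2 x‖ ≤ rad β h) ↔
    ((∀ j, j < n → ∀ x, ω j x ∈ (PS2 d β k hβ hk).gd h) ∧
      ∀ j, j ≤ n → ∀ x, ‖((PS2 d β k hβ hk).tr h L G ω j).1 x‖ ≤ rad β h ∧
        ‖((PS2 d β k hβ hk).tr h L G ω j).2 x‖ ≤ rad β h)
  constructor
  · rintro ⟨h1, h2⟩
    refine ⟨h1, fun j hj x => ?_⟩
    have h3 := h2 j hj x
    have e1 := congrArg (fun f => ‖f.1 x‖) (LyW_tr hβ hk h L G ω j)
    have e2 := congrArg (fun f => ‖f.2 x‖) (LyW_tr hβ hk h L G ω j)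
    exact ⟨(le_of_eq e2.symm).trans h3.2, (le_of_eq e1.symm).trans h3.1⟩
  · rintro ⟨h1, h2⟩
    refine ⟨h1, fun j hj x => ?_⟩
    have h3 := h2 j hj x
    have e1 := congrArg (fun f => ‖f.1 x‖) (LyW_tr hβ hk h L G ω j)
    have e2 := congrArg (fun f => ‖f.2 x‖) (LyW_tr hβ hk h L G ω j)
    exact ⟨(le_of_eq e1).trans h3.2, (le_of_eq e2).trans h3.1⟩

private theorem LyW_ell {q k : ℝ} (hk : 0 < k) (hkq : k < Real.exp (-q)) : q ≤ ell k := by
  unfold ell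
  rw [one_div, Real.log_inv]
  have h1 := Real.log_lt_log hk hkq
  rw [Real.log_exp] at h1
  linarith

private theorem LyW_one (d : ℕ) (hd : 1 ≤ d) (β : ℝ) (hβ : 0 < β) :
    ∃ (q0 a1 T1 : ℝ) (Ls : ℕ), 1 ≤ q0 ∧
    0 < a1 ∧ a1 ≤ 1 / 16 ∧ 2 ≤ T1 ∧ ∀ q, q0 ≤ q → ∃ B c : ℝ, 1 ≤ B ∧ 0 < c ∧ ∀ a', 0 < a' → a' ≤ a1 →
    ∃ Ca : ℝ, 1 ≤ Ca ∧ ∀ T, T1 ≤ T → ∃ k0 : ℝ, 0 < k0 ∧ k0 < 1 ∧
    ∀ (k : ℝ) (hk : 0 < k), k < k0 → ∀ L : ℕ, Ls ≤ L → ∃ h0 : ℝ, 0 < h0 ∧ ∀ h, 0 < h → h < h0 →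
    ∀ (G : (boxS d L → ℂ) × (boxS d L → ℂ)) (x : boxS d L),
      (∫⁻ ω in (PS2 d β k hβ hk.le).alv h L G ⌈(T + 1) * ell k ^ 2 / h⌉₊,
          V1 k q (a' / ell k) ((PS2 d β k hβ hk.le).tr h L G ω ⌈(T + 1) * ell k ^ 2 / h⌉₊) x ^ 2
          ∂(PI ((PS2 d β k hβ hk.le).mu L)) ≤
        ENNReal.ofReal (B * Real.exp (-(2 * c * a' * T))) * V1 k q (a' / ell k) G x ^ 2 +
          ENNReal.ofReal Ca) ∧
      ∀ n : ℕ, (T - 3 / 2) * ell k ^ 2 ≤ n * h → n * h ≤ (T + 1 / 2) * ell k ^ 2 →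
        ∫⁻ ω in (PS2 d β k hβ hk.le).alv h L G n,
            V1 k q (a' / ell k) ((PS2 d β k hβ hk.le).tr h L G ω n) x
            ∂(PI ((PS2 d β k hβ hk.le).mu L)) ≤
          ENNReal.ofReal (B * Real.exp (-(c * a' * T))) * V1 k q (a' / ell k) G x +
            ENNReal.ofReal Ca := by
  obtain ⟨q1, a0, T0, Ls, hq1, ha0, ha08, hT0, HM⟩ := mest2 d hd β hβ
  obtain ⟨q2, hq2, HR⟩ := ly_red 2 d β le_rfl hβ
  obtain ⟨q3, hq3, HI⟩ := ly_iter 2 d β le_rfl hβ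
  obtain ⟨q4, hq4, HS⟩ := sm_multi 2 d β le_rfl hβ
  refine ⟨max (max q1 q2) (max q3 q4), min (a0 / 2) (1 / 16), 2 * T0 + 2, Ls,
    hq1.trans ((le_max_left _ _).trans (le_max_left _ _)), by positivity, min_le_right _ _,
    by linarith, ?_⟩
  intro q hq
  have b1 : q1 ≤ q := ((le_max_left _ _).trans (le_max_left _ _)).trans hq
  have b2 : q2 ≤ q := ((le_max_right _ _).trans (le_max_left _ _)).trans hq
  have b3 : q3 ≤ q := ((le_max_left _ _).trans (le_max_right _ _)).trans hq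
  have b4 : q4 ≤ q := ((le_max_right _ _).trans (le_max_right _ _)).trans hq
  have bq : 1 ≤ q := hq1.trans b1
  obtain ⟨B, c, hB, hc, HI1⟩ := HI q b3 T0 hT0
  obtain ⟨C9, kS, hC9, hkS, hkS1, HS1⟩ := HS q b4
  have hE : 1 ≤ Real.exp (6 * C9 + 2 * c) := Real.one_le_exp (by positivity)
  refine ⟨B * Real.exp (6 * C9 + 2 * c), c, by nlinarith, hc, ?_⟩
  intro a' ha' ha1
  have ha1a : a' ≤ a0 / 2 := ha1.trans (min_le_left _ _)
  have ha1b : a' ≤ 1 / 16 := ha1.trans (min_le_right _ _)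
  have one : ∀ a : ℝ, 0 < a → a ≤ a0 → ∃ Ca k0 : ℝ, 0 < Ca ∧ 0 < k0 ∧ k0 < 1 ∧
      ∀ (k : ℝ) (hk : 0 < k), k < k0 →
      ∀ L : ℕ, Ls ≤ L → ∃ h0 : ℝ, 0 < h0 ∧ ∀ h, 0 < h → h < h0 →
      ∀ (G : (boxS d L → ℂ) × (boxS d L → ℂ)) (x : boxS d L) (n : ℕ),
        T0 * ts 2 k ≤ n * h → n * h ≤ T0 * ts 2 k + 1 →
        ∫⁻ ω in (PS2 d β k hβ hk.le).alv h L G n,
            V1 k q (a / ell k) ((PS2 d β k hβ hk.le).tr h L G ω n) x
            ∂(PI ((PS2 d β k hβ hk.le).mu L)) ≤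
          ENNReal.ofReal (1 - a / 4) * V1 k q (a / ell k) G x + ENNReal.ofReal Ca :=
    fun a h1 h2 => HR q b2 a T0 Ls h1 (h2.trans ha08) hT0 (fun k => Fam2 d β k)
      (fun k hk => PS2 d β k hβ hk.le) (fun k hk => bnoise2) (HM q b1 a h1 h2)
  obtain ⟨C1, k1, hC1, hk1, hk11, H1⟩ := one (2 * a') (by positivity) (by linarith)
  obtain ⟨C2, k2, hC2, hk2, hk21, H2⟩ := one a' ha' (by linarith)
  refine ⟨max 1 (max (B * C1 / (2 * a')) (Real.exp (6 * C9) * (B * C2 / a'))),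
    le_max_left _ _, ?_⟩
  intro T hT
  obtain ⟨k3, hk3, hk31, H3⟩ := HI1 (2 * a') C1 Ls (by positivity) (by linarith) hC1.le
    (fun k => Fam2 d β k) (fun k hk => PS2 d β k hβ hk.le) (fun k hk => bnoise2)
    ⟨k1, hk1, hk11, H1⟩ (T + 1) (by linarith)
  obtain ⟨k4, hk4, hk41, H4⟩ := HI1 a' C2 Ls ha' (by linarith) hC2.le
    (fun k => Fam2 d β k) (fun k hk => PS2 d β k hβ hk.le) (fun k hk => bnoise2)
    ⟨k2, hk2, hk21, H2⟩ (T - 2) (by linarith)
  refine ⟨min (min k3 k4) (min kS (Real.exp (-q))),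
    lt_min (lt_min hk3 hk4) (lt_min hkS (Real.exp_pos _)),
    ((min_le_left _ _).trans (min_le_left _ _)).trans_lt hk31, ?_⟩
  intro k hk hkk L hL
  have l3 : k < k3 := hkk.trans_le ((min_le_left _ _).trans (min_le_left _ _))
  have l4 : k < k4 := hkk.trans_le ((min_le_left _ _).trans (min_le_right _ _))
  have lS : k < kS := hkk.trans_le ((min_le_right _ _).trans (min_le_left _ _))
  have lq : k < Real.exp (-q) := hkk.trans_le ((min_le_right _ _).trans (min_le_right _ _))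
  have hellq : q ≤ ell k := LyW_ell hk lq
  have hell : 1 ≤ ell k := bq.trans hellq
  have hell0 : 0 < ell k := by linarith
  have hts : ts 2 k = ell k ^ 2 := by
    unfold ts
    rw [if_pos rfl]
  have hs : 0 < a' / ell k := div_pos ha' hell0
  have hqs : 8 * q * (a' / ell k) ≤ 1 := by
    rw [← mul_div_assoc, div_le_one hell0]
    nlinarith
  obtain ⟨h3, hh3, H3'⟩ := H3 k hk l3 L hL
  obtain ⟨h4, hh4, H4'⟩ := H4 k hk l4 L hL
  obtain ⟨h5, hh5, H5⟩ := HS1 (Fam2 d β k) k (PS2 d β k hβ hk.le) hk lS bnoise2 (a' / ell k)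
    hs hqs
  refine ⟨min (min h3 h4) (min h5 (1 / 2)), lt_min (lt_min hh3 hh4) (lt_min hh5 (by norm_num)),
    ?_⟩
  intro h hh hhh G x
  have m3 : h < h3 := hhh.trans_le ((min_le_left _ _).trans (min_le_left _ _))
  have m4 : h < h4 := hhh.trans_le ((min_le_left _ _).trans (min_le_right _ _))
  have m5 : h < h5 := hhh.trans_le ((min_le_right _ _).trans (min_le_left _ _))
  have m6 : h < 1 / 2 := hhh.trans_le ((min_le_right _ _).trans (min_le_right _ _))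
  have hell2 : 1 ≤ ell k ^ 2 := one_le_pow₀ hell
  constructor
  · have e1 := H3' h hh m3 G x
    rw [hts] at e1
    have e2 : ∀ G' : (boxS d L → ℂ) × (boxS d L → ℂ),
        V1 k q (a' / ell k) G' x ^ 2 = V1 k q (2 * a' / ell k) G' x := by
      intro G'
      rw [(V_sq k q (a' / ell k) G' x).1]
      congr 1
      ring
    rw [e2 G]
    calc ∫⁻ ω in (PS2 d β k hβ hk.le).alv h L G ⌈(T + 1) * ell k ^ 2 / h⌉₊,
          V1 k q (a' / ell k) ((PS2 d β k hβ hk.le).tr h L G ω ⌈(T + 1) * ell k ^ 2 / h⌉₊) x ^ 2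
          ∂(PI ((PS2 d β k hβ hk.le).mu L))
        = ∫⁻ ω in (PS2 d β k hβ hk.le).alv h L G ⌈(T + 1) * ell k ^ 2 / h⌉₊,
          V1 k q (2 * a' / ell k)
            ((PS2 d β k hβ hk.le).tr h L G ω ⌈(T + 1) * ell k ^ 2 / h⌉₊) x
          ∂(PI ((PS2 d β k hβ hk.le).mu L)) := lintegral_congr fun ω => e2 _
      _ ≤ ENNReal.ofReal (B * Real.exp (-(c * (2 * a') * (T + 1)))) *
            V1 k q (2 * a' / ell k) G x + ENNReal.ofReal (B * C1 / (2 * a')) := e1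
      _ ≤ _ := by
          refine add_le_add (mul_le_mul_left ?_ _) (ENNReal.ofReal_le_ofReal ?_)
          · refine ENNReal.ofReal_le_ofReal ?_
            have f1 : Real.exp (-(c * (2 * a') * (T + 1))) ≤ Real.exp (-(2 * c * a' * T)) := by
              apply Real.exp_le_exp.2
              have : 0 < c * a' := mul_pos hc ha'
              nlinarith
            have f2 : B ≤ B * Real.exp (6 * C9 + 2 * c) := by nlinarith
            exact mul_le_mul f2 f1 (Real.exp_pos _).le (by positivity)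
          · exact (le_max_left _ _).trans (le_max_right _ _)
  · intro n hn1 hn2
    have e1 := H4' h hh m4 G x
    rw [hts] at e1
    have hT2 : 0 ≤ (T - 2) * ell k ^ 2 / h := by
      have : 0 ≤ T - 2 := by linarith
      positivity
    set n1 : ℕ := ⌈(T - 2) * ell k ^ 2 / h⌉₊ with hn1d
    have hn1a : (T - 2) * ell k ^ 2 ≤ n1 * h := by
      have h6 := Nat.le_ceil ((T - 2) * ell k ^ 2 / h)
      rw [div_le_iff₀ hh] at h6
      exact h6
    have hn1b : n1 * h ≤ (T - 2) * ell k ^ 2 + h := by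
      have h6 := (Nat.ceil_lt_add_one hT2).le
      calc (n1:ℝ) * h ≤ ((T - 2) * ell k ^ 2 / h + 1) * h := by gcongr
        _ = (T - 2) * ell k ^ 2 + h := by field_simp
    have hle : n1 ≤ n := by
      have h7 : (n1 : ℝ) * h ≤ n * h := by nlinarith
      have h8 : (n1 : ℝ) ≤ n := le_of_mul_le_mul_right h7 hh
      exact_mod_cast h8
    obtain ⟨r, hr⟩ := Nat.exists_eq_add_of_le hle
    have hrh : (r : ℝ) * h ≤ 3 * ell k ^ 2 := by
      have h9 : (n : ℝ) = n1 + r := by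
        rw [hr]
        push_cast
        ring
      have h10 : (r : ℝ) * h = n * h - n1 * h := by
        rw [h9]
        ring
      rw [h10]
      nlinarith
    have hΦ : Measurable (fun G : (boxS d L → ℂ) × (boxS d L → ℂ) =>
        V1 k q (a' / ell k) G x) := (measurable_V k q (a' / ell k) x).1
    have hmk := alv_markov (PS2 d β k hβ hk.le) h L
      (fun G : (boxS d L → ℂ) × (boxS d L → ℂ) => V1 k q (a' / ell k) G x) hΦ G n1 r
    rw [← hr] at hmk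
    have hexp : Real.exp (C9 * (a' / ell k / ell k + (a' / ell k) ^ 2) * (r * h)) ≤
        Real.exp (6 * C9) := by
      apply Real.exp_le_exp.2
      have g1 : a' / ell k / ell k + (a' / ell k) ^ 2 = (a' + a' ^ 2) / ell k ^ 2 := by
        field_simp
      have g2 : a' + a' ^ 2 ≤ 2 := by nlinarith
      rw [g1]
      calc C9 * ((a' + a' ^ 2) / ell k ^ 2) * (r * h)
          ≤ C9 * (2 / ell k ^ 2) * (3 * ell k ^ 2) := by gcongr
        _ = 6 * C9 := by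
            field_simp
            ring
    have hin : ∀ ω, ∫⁻ ω' in (PS2 d β k hβ hk.le).alv h L
          ((PS2 d β k hβ hk.le).tr h L G ω n1) r,
          V1 k q (a' / ell k) ((PS2 d β k hβ hk.le).tr h L
            ((PS2 d β k hβ hk.le).tr h L G ω n1) ω' r) x
            ∂(PI ((PS2 d β k hβ hk.le).mu L)) ≤
        ENNReal.ofReal (Real.exp (6 * C9)) *
          V1 k q (a' / ell k) ((PS2 d β k hβ hk.le).tr h L G ω n1) x := by
      intro ω
      refine le_trans (H5 h hh m5 L ((PS2 d β k hβ hk.le).tr h L G ω n1) r x).1 ?_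
      exact mul_le_mul_left (ENNReal.ofReal_le_ofReal hexp) _
    have hmk' : ∫⁻ ω in (PS2 d β k hβ hk.le).alv h L G n,
          V1 k q (a' / ell k) ((PS2 d β k hβ hk.le).tr h L G ω n) x
          ∂(PI ((PS2 d β k hβ hk.le).mu L)) =
        ∫⁻ ω in (PS2 d β k hβ hk.le).alv h L G n1,
          (∫⁻ ω' in (PS2 d β k hβ hk.le).alv h L
          ((PS2 d β k hβ hk.le).tr h L G ω n1) r,
          V1 k q (a' / ell k) ((PS2 d β k hβ hk.le).tr h L
            ((PS2 d β k hβ hk.le).tr h L G ω n1) ω' r) x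
            ∂(PI ((PS2 d β k hβ hk.le).mu L))) ∂(PI ((PS2 d β k hβ hk.le).mu L)) := hmk
    rw [hmk']
    calc ∫⁻ ω in (PS2 d β k hβ hk.le).alv h L G n1,
          (∫⁻ ω' in (PS2 d β k hβ hk.le).alv h L
          ((PS2 d β k hβ hk.le).tr h L G ω n1) r,
          V1 k q (a' / ell k) ((PS2 d β k hβ hk.le).tr h L
            ((PS2 d β k hβ hk.le).tr h L G ω n1) ω' r) x
            ∂(PI ((PS2 d β k hβ hk.le).mu L))) ∂(PI ((PS2 d β k hβ hk.le).mu L))
        ≤ ∫⁻ ω in (PS2 d β k hβ hk.le).alv h L G n1, ENNReal.ofReal (Real.exp (6 * C9)) *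
          V1 k q (a' / ell k) ((PS2 d β k hβ hk.le).tr h L G ω n1) x
            ∂(PI ((PS2 d β k hβ hk.le).mu L)) := lintegral_mono hin
      _ = ENNReal.ofReal (Real.exp (6 * C9)) *
          ∫⁻ ω in (PS2 d β k hβ hk.le).alv h L G n1,
          V1 k q (a' / ell k) ((PS2 d β k hβ hk.le).tr h L G ω n1) x
            ∂(PI ((PS2 d β k hβ hk.le).mu L)) :=
          lintegral_const_mul' _ _ ENNReal.ofReal_ne_top
      _ ≤ ENNReal.ofReal (Real.exp (6 * C9)) *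
          (ENNReal.ofReal (B * Real.exp (-(c * a' * (T - 2)))) * V1 k q (a' / ell k) G x +
            ENNReal.ofReal (B * C2 / a')) := mul_le_mul_right e1 _
      _ = ENNReal.ofReal (Real.exp (6 * C9) * (B * Real.exp (-(c * a' * (T - 2))))) *
            V1 k q (a' / ell k) G x + ENNReal.ofReal (Real.exp (6 * C9) * (B * C2 / a')) := by
          rw [mul_add, ← mul_assoc, ← ENNReal.ofReal_mul (Real.exp_pos _).le,
            ← ENNReal.ofReal_mul (Real.exp_pos _).le]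
      _ ≤ _ := by
          refine add_le_add (mul_le_mul_left (ENNReal.ofReal_le_ofReal ?_) _)
            (ENNReal.ofReal_le_ofReal ?_)
          · have f1 : Real.exp (6 * C9) * (B * Real.exp (-(c * a' * (T - 2)))) =
                B * Real.exp (6 * C9 + 2 * c * a') * Real.exp (-(c * a' * T)) := by
              have : Real.exp (-(c * a' * (T - 2))) =
                  Real.exp (2 * c * a') * Real.exp (-(c * a' * T)) := by
                rw [← Real.exp_add]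
                congr 1
                ring
              rw [this, Real.exp_add]
              ring
            rw [f1]
            have f2 : Real.exp (6 * C9 + 2 * c * a') ≤ Real.exp (6 * C9 + 2 * c) := by
              apply Real.exp_le_exp.2
              nlinarith
            gcongr
          · exact (le_max_right _ _).trans (le_max_right _ _)

theorem ly_w (d : ℕ) (hd : 1 ≤ d) (β : ℝ) (hβ : 0 < β) : ∃ (q0 a1 T1 : ℝ) (Ls : ℕ), 1 ≤ q0 ∧
    0 < a1 ∧ a1 ≤ 1 / 16 ∧ 2 ≤ T1 ∧ ∀ q, q0 ≤ q → ∃ B c : ℝ, 1 ≤ B ∧ 0 < c ∧ ∀ a', 0 < a' → a' ≤ a1 →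
    ∃ Ca : ℝ, 1 ≤ Ca ∧ ∀ T, T1 ≤ T → ∃ k0 : ℝ, 0 < k0 ∧ k0 < 1 ∧
    ∀ (k : ℝ) (hk : 0 < k), k < k0 → ∀ L : ℕ, Ls ≤ L → ∃ h0 : ℝ, 0 < h0 ∧ ∀ h, 0 < h → h < h0 →
    ∀ (G : (boxS d L → ℂ) × (boxS d L → ℂ)) (x : boxS d L),
      (∫⁻ ω in (PS2 d β k hβ hk.le).alv h L G ⌈(T + 1) * ell k ^ 2 / h⌉₊,
          V1 k q (a' / ell k) ((PS2 d β k hβ hk.le).tr h L G ω ⌈(T + 1) * ell k ^ 2 / h⌉₊) x ^ 2
          ∂(PI ((PS2 d β k hβ hk.le).mu L)) ≤
        ENNReal.ofReal (B * Real.exp (-(2 * c * a' * T))) * V1 k q (a' / ell k) G x ^ 2 +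
          ENNReal.ofReal Ca) ∧
      (∫⁻ ω in (PS2 d β k hβ hk.le).alv h L G ⌈(T + 1) * ell k ^ 2 / h⌉₊,
          V2 k q (a' / ell k) ((PS2 d β k hβ hk.le).tr h L G ω ⌈(T + 1) * ell k ^ 2 / h⌉₊) x ^ 2
          ∂(PI ((PS2 d β k hβ hk.le).mu L)) ≤
        ENNReal.ofReal (B * Real.exp (-(2 * c * a' * T))) * V2 k q (a' / ell k) G x ^ 2 +
          ENNReal.ofReal Ca) ∧
      ∀ n : ℕ, (T - 3 / 2) * ell k ^ 2 ≤ n * h → n * h ≤ (T + 1 / 2) * ell k ^ 2 →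
        ∫⁻ ω in (PS2 d β k hβ hk.le).alv h L G n,
            V1 k q (a' / ell k) ((PS2 d β k hβ hk.le).tr h L G ω n) x
            ∂(PI ((PS2 d β k hβ hk.le).mu L)) ≤
          ENNReal.ofReal (B * Real.exp (-(c * a' * T))) * V1 k q (a' / ell k) G x +
            ENNReal.ofReal Ca ∧
        ∫⁻ ω in (PS2 d β k hβ hk.le).alv h L G n,
            V2 k q (a' / ell k) ((PS2 d β k hβ hk.le).tr h L G ω n) x
            ∂(PI ((PS2 d β k hβ hk.le).mu L)) ≤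
          ENNReal.ofReal (B * Real.exp (-(c * a' * T))) * V2 k q (a' / ell k) G x +
            ENNReal.ofReal Ca := by
  obtain ⟨q0, a1, T1, Ls, hq0, ha1, ha1', hT1, H⟩ := LyW_one d hd β hβ
  refine ⟨q0, a1, T1, Ls, hq0, ha1, ha1', hT1, ?_⟩
  intro q hq
  obtain ⟨B, c, hB, hc, H1⟩ := H q hq
  refine ⟨B, c, hB, hc, ?_⟩
  intro a' ha' haa
  obtain ⟨Ca, hCa, H2⟩ := H1 a' ha' haa
  refine ⟨Ca, hCa, ?_⟩
  intro T hT
  obtain ⟨k0, hk0, hk01, H3⟩ := H2 T hT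
  refine ⟨k0, hk0, hk01, ?_⟩
  intro k hk hkk L hL
  obtain ⟨h0, hh0, H4⟩ := H3 k hk hkk L hL
  refine ⟨h0, hh0, ?_⟩
  intro h hh hhh G x
  obtain ⟨A1, A2⟩ := H4 h hh hhh G x
  obtain ⟨A3, A4⟩ := H4 h hh hhh G.swap x
  have eV : ∀ G' : (boxS d L → ℂ) × (boxS d L → ℂ),
      V1 k q (a' / ell k) G'.swap x = V2 k q (a' / ell k) G' x :=
    fun G' => (swap_V k q (a' / ell k) G' x).1
  have eI : ∀ n : ℕ, ∀ ω : ℕ → boxS d L → ℂ,
      V1 k q (a' / ell k) ((PS2 d β k hβ hk.le).tr h L G.swap ω n) x =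
        V2 k q (a' / ell k) ((PS2 d β k hβ hk.le).tr h L G ω n) x := by
    intro n ω
    have e1 := congrArg (fun G' => V1 k q (a' / ell k) G' x) (LyW_tr hβ hk.le h L G ω n)
    exact e1.trans (eV _)
  refine ⟨A1, ?_, fun n hn1 hn2 => ⟨A2 n hn1 hn2, ?_⟩⟩
  · rw [LyW_alv, eV G] at A3
    refine le_trans (le_of_eq ?_) A3
    exact lintegral_congr fun ω => (congrArg (fun t => t ^ 2) (eI _ ω)).symm
  · have A5 := A4 n hn1 hn2
    rw [LyW_alv, eV G] at A5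
    refine le_trans (le_of_eq ?_) A5
    exact lintegral_congr fun ω => (eI _ ω).symm

end DynC
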