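import Pool.Agent.Lib_MP_36b788c.Obe2

/-!
# Initial laws

PROOF.
* `V_start`: i.i.d. law `ρ` without atom at `0`: choose `δ0 ∈ (0,1]` with `ρ(‖v‖ ≥ δ0) ≥ 1/2`. The event `E_L`: for some site `x` of the box there is no site `z` with `‖G z‖ ≥ δ0` within distance `L`. There are at least
  `r + 1` sites within distance `r ≤ L` of `x` (move in one coordinate direction), so `P(no such site within r) ≤ 2^{-(r+1)}` and `P(E_L) ≤ |box| 2^{-L} → 0`. Off `E_L` let `r` = distance from `x` to the nearest such site `z`: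
  `V1(x)² ≤ (k^{r/4} fpot(δ0) SSt(z)^{-q})^{-2s} = k^{-rs/2} fpot(δ0)^{-2s} SSt(z)^{2qs}`. Sum over `z`: `E[V1(x)²; E_L^c] ≤ Σ_z k^{-s|x-z|/2} fpot(δ0)^{-2s} E[1{nearest at distance |x-z|} SSt(z)^{2qs}]`, Cauchy-Schwarz:
  `≤ Σ_z k^{-s|x-z|/2} C 2^{-|x-z|/2} (E SSt(z)^{4qs})^{1/2}`, `E SSt ≤ 1 + 3^d E‖v‖`, `4qs ≤ 1`; converges uniformly in `L` if `k^{-s/2} 2^{-1/2} ≤ 9/10`... (hypothesis `hks : k^{-s} ≤ 11/10`, and the number of `z` at distance `r` is at most `(2r+1)^d`).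
* `V_all`: pair system started at `(G, 0)`: the second component stays `0` on good noise (`q2`). `m_j = (E[V1(x)²(tr (j n_B)); alv, E_L^c])^{1/2} ≤ κ' m_{j-1} + CV` (`ly`, Minkowski in the initial configuration, Markov property by `lintegral_glue`), `κ' ≤ 1/2`, then `gV` for the remainder.
  So `E[V1(x)²(tr n); alv, E_L^c] ≤ CI` uniformly in `n, L, h, x`.
* `mom` gives `E[‖G_n x‖; alv] ≤ CM (1 + E Yl) ≤ C`.
* `init_of_blk`: `G = G_{n1}`, `G' = G'_{n2}` independent (two independent copies of the system started from `(G_0,0)`, `(G'_0,0)`). `tele` and `Cls`: `‖f G - f G'‖ ≤ Σ 4A(x) D(x)^θ w(x) + …`. `E[D(x)^θ w(x); good] ≤ (E D^{2θ})^{1/2} (E w²)^{1/2}`,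
  `D^{2θ} ≤ 1 + ‖G x‖ + ‖G' x‖`. For the joint `S`: `SSt(u+u') ≤ SSt(u) SSt(u')`, so with `z* = z*(G)` the maximizer for `G` alone, `V1(G,G')(x) ≤ V1(G,0)(x) SSt(u')(z*)^{qs}` and by independence `E[V1(G,G')(x)²; good] ≤ E[V1(G,0)(x)²; good] sup_z E[SSt(u')(z)^{2qs}; good] ≤ C`.
  Minkowski over `z` in `wpr`. The exceptional events: `E_L` (probability `≤ η/8` for `L ≥ L1`), `alv^c` (`exit`, `E Σ‖G_0‖ < ∞`), on which `‖f G - f G'‖ ≤ 2`. Additive term: `sum`.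
-/

open MeasureTheory ProbabilityTheory
open scoped ENNReal

namespace DynC

open Dyn

variable {d : ℕ}

/-- uniform first moment bound -/
def MomU {F : Fam d} {β k : ℝ} (S : PSys F β k) (CM : ℝ) : Prop :=
  ∀ L : ℕ, ∃ h0 : ℝ, 0 < h0 ∧ ∀ h, 0 < h → h < h0 →
    ∀ (G : (boxS d L → F.V) × (boxS d L → F.V)) (n : ℕ) (x : boxS d L),
      ∫⁻ ω in S.alv h L G n, ENNReal.ofReal (Yl (boxNet d L) (nrm (S.tr h L G ω n).1) x)
          ∂(PI (S.mu L))
        ≤ ENNReal.ofReal (CM * (1 + Yl (boxNet d L) (nrm G.1) x))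

/-- bad initial configurations: some site has no site with modulus `≥ δ0` within distance `L` -/
def EL {V : Type} [NormedAddCommGroup V] (d L : ℕ) (δ0 : ℝ) : Set (boxS d L → V) :=
  {G | ∃ x, ∀ z, (boxNet d L).dist x z ≤ L → ‖G z‖ < δ0}

end DynC
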