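import Pool.Agent.Lib_MP_36b788c.Mom1
import Pool.Agent.Lib_MP_36b788c.Obe3

/-!
# Uniform moments

`Yl u x = Σ_w 2^{-|x-w|} u w`.

PROOF.
* `site_mean`: `u ≤ rad`: on good noise `ψ(v) = v - h ψ(v)^{1+β} ≤ v - h (v/2)^{1+β}` (`psi_eq`, `psi_half`, `h v^β ≤ 1` since `v ≤ 2 rad`, `h rad^β ≤ h^{3/4}`), `v = e^b u`;
  `E_{gd} e^b ≤ 1 + C h`, `E_{gd} e^{(1+β) b} ≥ 1/2`: `E_{gd} u⁺(w) ≤ (1+Ch) u(w) - h c u(w)^{1+β} + k h cpl u w`, `c = 2^{-(2+β)}`.
* `mom_step`: `Σ_w 2^{-|x-w|} Σ_{y~w} u y ≤ 4d Yl u x`, power mean `Σ p u^{1+β} ≥ (Σ p)^{-β} (Σ p u)^{1+β}`, `Σ p ≤ 3^d` (`sum_half`), `C Y - c'' Y^{1+β} ≤ A - (c''/2) Y^{1+β}`.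
* `mom_cap`: `y_n = E[Yl(u_n)(x); alv n]`. `y_{n+1} ≤ y_n + h (A - c y_n^{1+β})` (Jensen for the sub-probability, `E[Y^{1+β};alv] ≥ y^{1+β}`). With `C* = (2A/c)^{1/(1+β)}`: while `y ≥ C*`: `y_{n+1} ≤ y_n - h (c/2) y_n^{1+β}`, so `y_{n+1}^{-β} ≥ y_n^{-β} + β h c/2`
  (Bernoulli) and `y_n ≤ (2/(β c n h))^{1/β}`; after the first time below `C*` always `≤ C* + A h`. (`x ↦ x + h(A - c x^{1+β})` is increasing on `[0, 3^d rad]` for small `h`.)
* `mom_unif` (`MomU`): the same recursion: `y_n ≤ max (y_0) (C* + A)`.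
* `mom_tail`: Markov: `u_n(x) ≤ Yl(u_n)(x)`.
-/

open MeasureTheory ProbabilityTheory
open scoped ENNReal

namespace DynC

open Dyn

variable {d : ℕ}

/-! ### elementary facts -/

private theorem Mom2_small (K e : ℝ) (he : 0 < e) : ∃ h0 : ℝ, 0 < h0 ∧ ∀ h, 0 < h → h < h0 →
    K * h ^ e ≤ 1 := by
  refine ⟨(1 / (|K| + 1)) ^ (1 / e), by positivity, fun h hh hlt => ?_⟩
  have hK : 0 < |K| + 1 := by positivity
  have h1 : h ^ e ≤ 1 / (|K| + 1) := by
    have h2 := Real.rpow_le_rpow hh.le hlt.le he.le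
    rwa [← Real.rpow_mul (by positivity), one_div_mul_cancel he.ne', Real.rpow_one] at h2
  have h3 : 0 ≤ h ^ e := Real.rpow_nonneg hh.le e
  calc K * h ^ e ≤ (|K| + 1) * h ^ e :=
        mul_le_mul_of_nonneg_right (by linarith [le_abs_self K]) h3
    _ ≤ (|K| + 1) * (1 / (|K| + 1)) := mul_le_mul_of_nonneg_left h1 hK.le
    _ = 1 := mul_one_div_cancel hK.ne'

private theorem Mom2_tan {β Y t : ℝ} (hβ : 0 < β) (hY : 0 ≤ Y) (ht : 0 ≤ t) :
    (1 + β) * t ^ β * Y - β * t ^ (1 + β) ≤ Y ^ (1 + β) := by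
  have hb : (0 : ℝ) < 1 + β := by linarith
  have h := Real.geom_mean_le_arith_mean2_weighted (w₁ := β / (1 + β)) (w₂ := 1 / (1 + β))
    (p₁ := t ^ (1 + β)) (p₂ := Y ^ (1 + β)) (by positivity) (by positivity)
    (Real.rpow_nonneg ht _) (Real.rpow_nonneg hY _) (by field_simp; ring)
  rw [← Real.rpow_mul ht, ← Real.rpow_mul hY, mul_div_cancel₀ _ hb.ne', mul_one_div_cancel hb.ne',
    Real.rpow_one] at h
  have h2 := mul_le_mul_of_nonneg_left h hb.le
  have h3 : (1 + β) * (β / (1 + β) * t ^ (1 + β) + 1 / (1 + β) * Y ^ (1 + β)) =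
      β * t ^ (1 + β) + Y ^ (1 + β) := by field_simp
  rw [h3] at h2
  nlinarith [h2]

private theorem Mom2_rad {β h : ℝ} (hβ : 0 < β) (hh : 0 < h) (h1 : h < 1) :
    0 ≤ rad β h ∧ h * rad β h ^ β ≤ h ^ (3 / 4 : ℝ) := by
  have h0 : 0 ≤ rad β h := by
    unfold rad
    exact le_min (Real.rpow_nonneg hh.le _) (Real.rpow_nonneg hh.le _)
  refine ⟨h0, ?_⟩
  have h2 : rad β h ≤ h ^ (-(1 / (4 * β)) : ℝ) := min_le_right _ _
  have h3 := Real.rpow_le_rpow h0 h2 hβ.le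
  rw [← Real.rpow_mul hh.le] at h3
  have h4 : -(1 / (4 * β)) * β = -(1 / 4 : ℝ) := by field_simp
  rw [h4] at h3
  calc h * rad β h ^ β ≤ h * h ^ (-(1 / 4) : ℝ) := mul_le_mul_of_nonneg_left h3 hh.le
    _ = h ^ (1 : ℝ) * h ^ (-(1 / 4) : ℝ) := by rw [Real.rpow_one]
    _ = h ^ (3 / 4 : ℝ) := by rw [← Real.rpow_add hh]; norm_num

section nets

variable {ι : Type} [Fintype ι]

private theorem Mom2_Yl_nonneg (net : Net ι d) (u : ι → ℝ) (hu : ∀ w, 0 ≤ u w) (x : ι) :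
    0 ≤ Yl net u x := by
  unfold Yl
  exact Finset.sum_nonneg fun w _ => mul_nonneg (by positivity) (hu w)

private theorem Mom2_Yl_le (net : Net ι d) (u : ι → ℝ) (R : ℝ) (hR : 0 ≤ R) (hu : ∀ w, u w ≤ R)
    (x : ι) : Yl net u x ≤ 3 ^ d * R := by
  unfold Yl
  calc ∑ w, (1 / 2 : ℝ) ^ net.dist x w * u w ≤ ∑ w, (1 / 2 : ℝ) ^ net.dist x w * R :=
        Finset.sum_le_sum fun w _ => mul_le_mul_of_nonneg_left (hu w) (by positivity)
    _ = (∑ w, (1 / 2 : ℝ) ^ net.dist x w) * R := by rw [Finset.sum_mul]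
    _ ≤ 3 ^ d * R := mul_le_mul_of_nonneg_right (net.sum_half x) hR

private theorem Mom2_cpl (net : Net ι d) (u : ι → ℝ) (hu : ∀ w, 0 ≤ u w) (x : ι) :
    ∑ w, (1 / 2 : ℝ) ^ net.dist x w * cpl net u w ≤ 6 * d * Yl net u x := by
  classical
  have h1 : ∑ w, (1 / 2 : ℝ) ^ net.dist x w * ∑ y ∈ net.nb w, u y ≤ 4 * d * Yl net u x := by
    have h2 : ∀ w, (1 / 2 : ℝ) ^ net.dist x w * ∑ y ∈ net.nb w, u y ≤
        ∑ y ∈ net.nb w, 2 * ((1 / 2 : ℝ) ^ net.dist x y * u y) := by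
      intro w
      rw [Finset.mul_sum]
      refine Finset.sum_le_sum fun y hy => ?_
      have h3 : net.dist x y ≤ net.dist x w + 1 := by
        have := net.dist_tri x w y
        rw [net.dist_nb w y hy] at this
        exact this
      have h4 : (1 / 2 : ℝ) ^ (net.dist x w + 1) ≤ (1 / 2 : ℝ) ^ net.dist x y :=
        pow_le_pow_of_le_one (by norm_num) (by norm_num) h3
      have h5 : (1 / 2 : ℝ) ^ net.dist x w ≤ 2 * (1 / 2 : ℝ) ^ net.dist x y := by
        rw [pow_succ] at h4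
        linarith
      calc (1 / 2 : ℝ) ^ net.dist x w * u y ≤ (2 * (1 / 2 : ℝ) ^ net.dist x y) * u y :=
            mul_le_mul_of_nonneg_right h5 (hu y)
        _ = _ := by ring
    calc ∑ w, (1 / 2 : ℝ) ^ net.dist x w * ∑ y ∈ net.nb w, u y
        ≤ ∑ w, ∑ y ∈ net.nb w, 2 * ((1 / 2 : ℝ) ^ net.dist x y * u y) :=
          Finset.sum_le_sum fun w _ => h2 w
      _ = ∑ y, ∑ w ∈ net.nb y, 2 * ((1 / 2 : ℝ) ^ net.dist x y * u y) := by
          refine Finset.sum_comm' fun w y => ?_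
          constructor
          · rintro ⟨_, h⟩
            exact ⟨net.nb_symm w y h, Finset.mem_univ _⟩
          · rintro ⟨h, _⟩
            exact ⟨Finset.mem_univ _, net.nb_symm y w h⟩
      _ ≤ ∑ y, (2 * d : ℝ) * (2 * ((1 / 2 : ℝ) ^ net.dist x y * u y)) := by
          refine Finset.sum_le_sum fun y _ => ?_
          rw [Finset.sum_const, nsmul_eq_mul]
          refine mul_le_mul_of_nonneg_right ?_ (mul_nonneg (by norm_num)
            (mul_nonneg (by positivity) (hu y)))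
          exact_mod_cast net.nb_card y
      _ = 4 * d * Yl net u x := by
          unfold Yl
          rw [Finset.mul_sum]
          exact Finset.sum_congr rfl fun y _ => by ring
  have h6 : ∑ w, (1 / 2 : ℝ) ^ net.dist x w * cpl net u w =
      ∑ w, (1 / 2 : ℝ) ^ net.dist x w * ∑ y ∈ net.nb w, u y + 2 * d * Yl net u x := by
    unfold Yl cpl
    rw [Finset.mul_sum, ← Finset.sum_add_distrib]
    exact Finset.sum_congr rfl fun w _ => by push_cast; ring
  rw [h6]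
  linarith

private theorem Mom2_pow (net : Net ι d) {β : ℝ} (hβ : 0 < β) (u : ι → ℝ) (hu : ∀ w, 0 ≤ u w)
    (x : ι) : Yl net u x ^ (1 + β) ≤
      ((3 : ℝ) ^ d) ^ β * ∑ w, (1 / 2 : ℝ) ^ net.dist x w * u w ^ (1 + β) := by
  have hP : 0 < ∑ w, (1 / 2 : ℝ) ^ net.dist x w := by
    refine Finset.sum_pos (fun w _ => by positivity) ⟨x, Finset.mem_univ x⟩
  set P := ∑ w, (1 / 2 : ℝ) ^ net.dist x w with hPdef
  have h1 := Real.rpow_arith_mean_le_arith_mean_rpow Finset.univ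
    (fun w => (1 / 2 : ℝ) ^ net.dist x w / P) u (fun w _ => by positivity)
    (by rw [← Finset.sum_div, ← hPdef, div_self hP.ne']) (fun w _ => hu w)
    (show (1 : ℝ) ≤ 1 + β by linarith)
  have h2 : ∑ w, (1 / 2 : ℝ) ^ net.dist x w / P * u w = Yl net u x / P := by
    unfold Yl
    rw [Finset.sum_div]
    exact Finset.sum_congr rfl fun w _ => by ring
  have h3 : ∑ w, (1 / 2 : ℝ) ^ net.dist x w / P * u w ^ (1 + β) =
      (∑ w, (1 / 2 : ℝ) ^ net.dist x w * u w ^ (1 + β)) / P := by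
    rw [Finset.sum_div]
    exact Finset.sum_congr rfl fun w _ => by ring
  rw [h2, h3, Real.div_rpow (Mom2_Yl_nonneg net u hu x) hP.le] at h1
  have h4 : P ^ (1 + β) = P * P ^ β := by rw [Real.rpow_add hP, Real.rpow_one]
  have hPb : 0 < P ^ β := Real.rpow_pos_of_pos hP β
  have hS : 0 ≤ ∑ w, (1 / 2 : ℝ) ^ net.dist x w * u w ^ (1 + β) :=
    Finset.sum_nonneg fun w _ => mul_nonneg (by positivity) (Real.rpow_nonneg (hu w) _)
  rw [h4, div_le_div_iff₀ (by positivity) hP] at h1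
  have h5 : Yl net u x ^ (1 + β) ≤ P ^ β * ∑ w, (1 / 2 : ℝ) ^ net.dist x w * u w ^ (1 + β) := by
    have h6 : Yl net u x ^ (1 + β) * P ≤
        (P ^ β * ∑ w, (1 / 2 : ℝ) ^ net.dist x w * u w ^ (1 + β)) * P := by
      refine h1.trans (le_of_eq (by ring))
    exact le_of_mul_le_mul_right h6 hP
  refine h5.trans (mul_le_mul_of_nonneg_right ?_ hS)
  exact Real.rpow_le_rpow hP.le (net.sum_half x) hβ.le

end nets

/-! ### one site -/

private theorem Mom2_site (N : ℕ) {β : ℝ} (hβ : 0 < β) {Ω0 : Type} [MeasurableSpace Ω0]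
    (ν : Measure Ω0) [IsProbabilityMeasure ν] (b : ℝ → Ω0 → ℝ) (gd : ℝ → Set Ω0)
    (hmb : ∀ h, Measurable (b h)) (hmg : ∀ h, MeasurableSet (gd h)) (hB : BNoise N ν b gd) :
    ∃ h0 : ℝ, 0 < h0 ∧ ∀ h, 0 < h → h < h0 → ∀ u : ℝ, 0 ≤ u → u ≤ rad β h →
      0 ≤ (1 + (|lamN N| + 2) * h) * u - h * (2 : ℝ) ^ (-(2 + β)) * u ^ (1 + β) ∧
      ∫⁻ a in gd h, ENNReal.ofReal (psi β h (Real.exp (b h a) * u)) ∂ν ≤
        ENNReal.ofReal ((1 + (|lamN N| + 2) * h) * u
          - h * (2 : ℝ) ^ (-(2 + β)) * u ^ (1 + β)) := by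
  obtain ⟨h1, hh1, H1⟩ := hB.mgf (1 + β) 1 (by linarith) one_pos
  obtain ⟨h2, hh2, H2⟩ := Mom2_small (2 / Real.log 2) (3 / 8) (by norm_num)
  obtain ⟨h3, hh3, H3⟩ := Mom2_small ((2 : ℝ) ^ β) (3 / 4) (by norm_num)
  obtain ⟨h4, hh4, H4⟩ := Mom2_small (2 * |lamN N * (1 + β) + (1 + β) ^ 2 / 2 - 1|) 1 one_pos
  refine ⟨min (min h1 h2) (min (min h3 h4) 1), by positivity, fun h hh hlt u hu hur => ?_⟩
  have hl1 : h < h1 := hlt.trans_le ((min_le_left _ _).trans (min_le_left _ _))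
  have hl2 : h < h2 := hlt.trans_le ((min_le_left _ _).trans (min_le_right _ _))
  have hl3 : h < h3 := hlt.trans_le
    ((min_le_right _ _).trans ((min_le_left _ _).trans (min_le_left _ _)))
  have hl4 : h < h4 := hlt.trans_le
    ((min_le_right _ _).trans ((min_le_left _ _).trans (min_le_right _ _)))
  have hl5 : h < 1 := hlt.trans_le ((min_le_right _ _).trans (min_le_right _ _))
  obtain ⟨hr0, hr1⟩ := Mom2_rad hβ hh hl5
  have hlog : 0 < Real.log 2 := Real.log_pos (by norm_num)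
  have hexp : ∀ a ∈ gd h, Real.exp (b h a) ≤ 2 := by
    intro a ha
    have e1 := hB.bdd h hh hl5 a ha
    have e2 := H2 h hh hl2
    have e3 : 2 * h ^ (3 / 8 : ℝ) ≤ Real.log 2 := by
      have e4 := mul_le_mul_of_nonneg_left e2 hlog.le
      rw [mul_one, ← mul_assoc, mul_div_cancel₀ _ hlog.ne'] at e4
      exact e4
    have e5 : b h a ≤ Real.log 2 := (le_abs_self _).trans (e1.trans e3)
    calc Real.exp (b h a) ≤ Real.exp (Real.log 2) := Real.exp_le_exp.mpr e5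
      _ = 2 := Real.exp_log (by norm_num)
  have hub : h * u ^ β ≤ h ^ (3 / 4 : ℝ) :=
    (mul_le_mul_of_nonneg_left (Real.rpow_le_rpow hu hur hβ.le) hh.le).trans hr1
  have h34 : h ^ (3 / 4 : ℝ) ≤ 1 := Real.rpow_le_one hh.le hl5.le (by norm_num)
  have hc0 : (0 : ℝ) < (2 : ℝ) ^ (-(2 + β)) := by positivity
  have hc1 : (2 : ℝ) ^ (-(2 + β)) ≤ 1 := by
    refine Real.rpow_le_one_of_one_le_of_nonpos (by norm_num) (by linarith)
  have hu1 : u ^ (1 + β) = u * u ^ β := by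
    rcases hu.lt_or_eq with h0 | h0
    · rw [Real.rpow_add h0, Real.rpow_one]
    · rw [← h0, Real.zero_rpow (by linarith), zero_mul]
  have hnn : 0 ≤ (1 + (|lamN N| + 2) * h) * u - h * (2 : ℝ) ^ (-(2 + β)) * u ^ (1 + β) := by
    have e1 : h * (2 : ℝ) ^ (-(2 + β)) * u ^ (1 + β) ≤ u := by
      rw [hu1]
      calc h * (2 : ℝ) ^ (-(2 + β)) * (u * u ^ β) = (2 : ℝ) ^ (-(2 + β)) * (h * u ^ β) * u := by ring
        _ ≤ 1 * 1 * u := by
            refine mul_le_mul_of_nonneg_right ?_ hu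
            exact mul_le_mul hc1 (hub.trans h34) (by positivity) zero_le_one
        _ = u := by ring
    have e2 : 0 ≤ (|lamN N| + 2) * h * u := by positivity
    nlinarith
  refine ⟨hnn, ?_⟩
  have hpt : ∀ a ∈ gd h, ENNReal.ofReal (psi β h (Real.exp (b h a) * u)) +
      ENNReal.ofReal (h * (u / 2) ^ (1 + β)) * ENNReal.ofReal (Real.exp ((1 + β) * b h a)) ≤
      ENNReal.ofReal u * ENNReal.ofReal (Real.exp (1 * b h a)) := by
    intro a ha
    have hv0 : 0 ≤ Real.exp (b h a) * u := mul_nonneg (Real.exp_pos _).le hu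
    have hv1 : h * (Real.exp (b h a) * u) ^ β ≤ 1 := by
      rw [Real.mul_rpow (Real.exp_pos _).le hu]
      have e1 : Real.exp (b h a) ^ β ≤ (2 : ℝ) ^ β :=
        Real.rpow_le_rpow (Real.exp_pos _).le (hexp a ha) hβ.le
      calc h * (Real.exp (b h a) ^ β * u ^ β) = Real.exp (b h a) ^ β * (h * u ^ β) := by ring
        _ ≤ (2 : ℝ) ^ β * h ^ (3 / 4 : ℝ) := by
            exact mul_le_mul e1 hub (by positivity) (by positivity)
        _ ≤ 1 := H3 h hh hl3
    have e2 := psi_eq (h := h) hβ hh.le hv0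
    have e3 := psi_half (h := h) hβ hh.le hv0 hv1
    have e4 : (Real.exp (b h a) * u / 2) ^ (1 + β) ≤ psi β h (Real.exp (b h a) * u) ^ (1 + β) :=
      Real.rpow_le_rpow (by positivity) e3 (by linarith)
    rw [← ENNReal.ofReal_mul (by positivity), ← ENNReal.ofReal_mul hu,
      ← ENNReal.ofReal_add (psi_nonneg _ _ _) (by positivity)]
    refine ENNReal.ofReal_le_ofReal ?_
    have e5 : (Real.exp (b h a) * u / 2) ^ (1 + β) =
        (u / 2) ^ (1 + β) * Real.exp ((1 + β) * b h a) := by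
      rw [mul_div_assoc, Real.mul_rpow (Real.exp_pos _).le (by positivity), ← Real.exp_mul,
        mul_comm (b h a) (1 + β), mul_comm]
    rw [one_mul]
    rw [e5] at e4
    have e6 := mul_le_mul_of_nonneg_left e4 hh.le
    nlinarith
  have hm1 : Measurable fun a => ENNReal.ofReal (psi β h (Real.exp (b h a) * u)) :=
    (((psi_continuous hβ hh.le).measurable.comp
      ((Real.measurable_exp.comp (hmb h)).mul_const u))).ennreal_ofReal
  have hm2 : ∀ r : ℝ, Measurable fun a => ENNReal.ofReal (Real.exp (r * b h a)) := fun r =>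
    (Real.measurable_exp.comp ((hmb h).const_mul r)).ennreal_ofReal
  have hint : ∫⁻ a in gd h, ENNReal.ofReal (psi β h (Real.exp (b h a) * u)) ∂ν +
      ENNReal.ofReal (h * (u / 2) ^ (1 + β)) *
        ∫⁻ a in gd h, ENNReal.ofReal (Real.exp ((1 + β) * b h a)) ∂ν ≤
      ENNReal.ofReal u * ∫⁻ a in gd h, ENNReal.ofReal (Real.exp (1 * b h a)) ∂ν := by
    rw [← lintegral_const_mul _ (hm2 _), ← lintegral_const_mul _ (hm2 _),
      ← lintegral_add_left hm1]
    exact setLIntegral_mono' (hmg h) fun a ha => hpt a ha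
  have hup := (H1 h hh hl1 1 (by rw [abs_one]; linarith)).1
  have hlo := (H1 h hh hl1 (1 + β) (by rw [abs_of_pos (by linarith)])).2
  have hlo2 : ENNReal.ofReal (1 / 2) ≤
      ∫⁻ a in gd h, ENNReal.ofReal (Real.exp ((1 + β) * b h a)) ∂ν := by
    refine le_trans (ENNReal.ofReal_le_ofReal ?_) hlo
    have e1 := H4 h hh hl4
    rw [Real.rpow_one] at e1
    have e2 := neg_abs_le ((lamN N * (1 + β) + (1 + β) ^ 2 / 2 - 1))
    nlinarith
  have hup2 : ∫⁻ a in gd h, ENNReal.ofReal (Real.exp (1 * b h a)) ∂ν ≤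
      ENNReal.ofReal (1 + (|lamN N| + 2) * h) := by
    refine hup.trans (ENNReal.ofReal_le_ofReal ?_)
    have e2 := le_abs_self (lamN N)
    nlinarith
  have hfin : ∫⁻ a in gd h, ENNReal.ofReal (psi β h (Real.exp (b h a) * u)) ∂ν +
      ENNReal.ofReal (h * (2 : ℝ) ^ (-(2 + β)) * u ^ (1 + β)) ≤
      ENNReal.ofReal ((1 + (|lamN N| + 2) * h) * u) := by
    have e1 : ENNReal.ofReal (h * (2 : ℝ) ^ (-(2 + β)) * u ^ (1 + β)) ≤
        ENNReal.ofReal (h * (u / 2) ^ (1 + β)) *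
        ∫⁻ a in gd h, ENNReal.ofReal (Real.exp ((1 + β) * b h a)) ∂ν := by
      calc ENNReal.ofReal (h * (2 : ℝ) ^ (-(2 + β)) * u ^ (1 + β))
          = ENNReal.ofReal (h * (u / 2) ^ (1 + β)) * ENNReal.ofReal (1 / 2) := by
            rw [← ENNReal.ofReal_mul (by positivity)]
            congr 1
            rw [Real.div_rpow hu (by norm_num), show -(2 + β) = -(1 + β) + (-1) by ring,
              Real.rpow_add (by norm_num), Real.rpow_neg (by norm_num) (1 + β), Real.rpow_neg_one]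
            ring
        _ ≤ _ := by gcongr
    calc _ ≤ ∫⁻ a in gd h, ENNReal.ofReal (psi β h (Real.exp (b h a) * u)) ∂ν +
          ENNReal.ofReal (h * (u / 2) ^ (1 + β)) *
          ∫⁻ a in gd h, ENNReal.ofReal (Real.exp ((1 + β) * b h a)) ∂ν := by gcongr
      _ ≤ _ := hint
      _ ≤ ENNReal.ofReal u * ENNReal.ofReal (1 + (|lamN N| + 2) * h) := by gcongr
      _ = _ := by rw [← ENNReal.ofReal_mul hu, mul_comm]
  rw [ENNReal.ofReal_sub _ (by positivity)]
  exact ENNReal.le_sub_of_add_le_right ENNReal.ofReal_ne_top hfin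

private theorem Mom2_lconst {Ω0 : Type} [MeasurableSpace Ω0] (μ : Measure Ω0)
    [IsProbabilityMeasure μ] (s : Set Ω0) (c : ℝ≥0∞) : ∫⁻ _ in s, c ∂μ ≤ c := by
  rw [setLIntegral_const]
  exact (mul_le_mul_right prob_le_one _).trans (le_of_eq (mul_one _))

/-! ### one component of one step -/

private theorem Mom2_comp (N d : ℕ) (β : ℝ) (hβ : 0 < β) : ∃ A c : ℝ, 0 < A ∧ 0 < c ∧
    ∀ (F : Fam d) (k : ℝ) (S : PSys F β k), 0 ≤ k → k ≤ 1 → BNoise N S.ν S.b S.gd →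
    ∃ h0 : ℝ, 0 < h0 ∧ ∀ h, 0 < h → h < h0 → h < 1 ∧ h * c * (1 + β) * (3 ^ d * rad β h) ^ β ≤ 1 ∧
    ∀ (L : ℕ) (u : boxS d L → ℝ)
      (u' : (boxS d L → S.Ωp) → boxS d L → ℝ), (∀ w, 0 ≤ u w) → (∀ w, u w ≤ rad β h) →
      (∀ ω, (∀ w, ω w ∈ S.gd h) → ∀ w, u' ω w ≤
        psi β h (Real.exp (S.b h (ω w)) * u w) + k * h * cpl (boxNet d L) u w) → ∀ x,
      (0 ≤ Yl (boxNet d L) u x + h * (A - c * Yl (boxNet d L) u x ^ (1 + β))) ∧
      ∫⁻ ω in {ω | ∀ x, ω x ∈ S.gd h}, ENNReal.ofReal (Yl (boxNet d L) (u' ω) x) ∂(S.mu L) ≤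
        ENNReal.ofReal (Yl (boxNet d L) u x + h * (A - c * Yl (boxNet d L) u x ^ (1 + β))) := by
  classical
  set C2 : ℝ := |lamN N| + 2 + 6 * d with hC2
  set c2 : ℝ := (2 : ℝ) ^ (-(2 + β)) / ((3 : ℝ) ^ d) ^ β with hc2
  have hC2p : 0 < C2 := by positivity
  have hc2p : 0 < c2 := by positivity
  set M : ℝ := (2 * C2 / c2) ^ (1 / β) with hM
  have hMp : 0 < M := by positivity
  refine ⟨C2 * M, c2 / 2, by positivity, by positivity, fun F k S hk0 hk1 hB => ?_⟩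
  obtain ⟨h1, hh1, H1⟩ := Mom2_site N hβ S.ν S.b S.gd S.mb S.mgd hB
  obtain ⟨h2, hh2, H2⟩ := Mom2_small (c2 / 2 * (1 + β) * ((3 : ℝ) ^ d) ^ β) (3 / 4) (by norm_num)
  refine ⟨min (min h1 h2) 1, by positivity, fun h hh hlt => ?_⟩
  have hl1 : h < h1 := hlt.trans_le ((min_le_left _ _).trans (min_le_left _ _))
  have hl2 : h < h2 := hlt.trans_le ((min_le_left _ _).trans (min_le_right _ _))
  have hl5 : h < 1 := hlt.trans_le (min_le_right _ _)
  obtain ⟨hr0, hr1⟩ := Mom2_rad hβ hh hl5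
  have hsm : h * (c2 / 2) * (1 + β) * (3 ^ d * rad β h) ^ β ≤ 1 := by
    rw [Real.mul_rpow (by positivity) hr0]
    calc h * (c2 / 2) * (1 + β) * (((3 : ℝ) ^ d) ^ β * rad β h ^ β)
        = (c2 / 2 * (1 + β) * ((3 : ℝ) ^ d) ^ β) * (h * rad β h ^ β) := by ring
      _ ≤ (c2 / 2 * (1 + β) * ((3 : ℝ) ^ d) ^ β) * h ^ (3 / 4 : ℝ) :=
          mul_le_mul_of_nonneg_left hr1 (by positivity)
      _ ≤ 1 := H2 h hh hl2
  refine ⟨hl5, hsm, fun L u u' hu0 hur hu' x => ?_⟩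
  set net := boxNet d L with hnet
  set Y : ℝ := Yl net u x with hY
  have hY0 : 0 ≤ Y := Mom2_Yl_nonneg net u hu0 x
  have hYR : Y ≤ 3 ^ d * rad β h := Mom2_Yl_le net u _ hr0 hur x
  have hYb : Y ^ (1 + β) = Y * Y ^ β := by
    rcases hY0.lt_or_eq with h0 | h0
    · rw [Real.rpow_add h0, Real.rpow_one]
    · rw [← h0, Real.zero_rpow (by linarith), zero_mul]
  have hnn : 0 ≤ Y + h * (C2 * M - c2 / 2 * Y ^ (1 + β)) := by
    have e1 : Y ^ β ≤ (3 ^ d * rad β h) ^ β := Real.rpow_le_rpow hY0 hYR hβ.le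
    have e2 : h * (c2 / 2) * Y ^ β ≤ 1 := by
      have e3 : 0 ≤ (3 ^ d * rad β h) ^ β := by positivity
      have e4 : h * (c2 / 2) * Y ^ β ≤ h * (c2 / 2) * (3 ^ d * rad β h) ^ β :=
        mul_le_mul_of_nonneg_left e1 (by positivity)
      have e5 : 0 ≤ h * (c2 / 2) * (3 ^ d * rad β h) ^ β * β := by positivity
      nlinarith
    have e6 : h * (c2 / 2) * Y ^ (1 + β) ≤ Y := by
      rw [hYb]
      calc h * (c2 / 2) * (Y * Y ^ β) = (h * (c2 / 2) * Y ^ β) * Y := by ring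
        _ ≤ 1 * Y := mul_le_mul_of_nonneg_right e2 hY0
        _ = Y := one_mul Y
    have e7 : 0 ≤ h * (C2 * M) := by positivity
    nlinarith
  refine ⟨hnn, ?_⟩
  have hcplnn : ∀ w, 0 ≤ cpl net u w := by
    intro w
    unfold cpl
    exact add_nonneg (Finset.sum_nonneg fun y _ => hu0 y) (mul_nonneg (by positivity) (hu0 w))
  have hmp : ∀ w : boxS d L, Measurable fun ω : boxS d L → S.Ωp =>
      ENNReal.ofReal (psi β h (Real.exp (S.b h (ω w)) * u w)) := by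
    intro w
    exact ((psi_continuous hβ hh.le).measurable.comp
      ((Real.measurable_exp.comp ((S.mb h).comp (measurable_pi_apply w))).mul_const
        (u w))).ennreal_ofReal
  have hmgood : MeasurableSet {ω : boxS d L → S.Ωp | ∀ x, ω x ∈ S.gd h} := by
    have : {ω : boxS d L → S.Ωp | ∀ x, ω x ∈ S.gd h} =
        ⋂ x, (fun ω : boxS d L → S.Ωp => ω x) ⁻¹' (S.gd h) := by
      ext ω; simp
    rw [this]
    exact MeasurableSet.iInter fun x => measurable_pi_apply x (S.mgd h)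
  have hsite : ∀ w : boxS d L,
      ∫⁻ ω in {ω : boxS d L → S.Ωp | ∀ x, ω x ∈ S.gd h},
        ENNReal.ofReal (psi β h (Real.exp (S.b h (ω w)) * u w)) ∂(S.mu L) ≤
      ENNReal.ofReal ((1 + (|lamN N| + 2) * h) * u w
          - h * (2 : ℝ) ^ (-(2 + β)) * u w ^ (1 + β)) := by
    intro w
    have e1 : MeasurePreserving (fun ω : boxS d L → S.Ωp => ω w) (S.mu L) S.ν :=
      measurePreserving_eval (fun _ : boxS d L => S.ν) w
    have hm0 : Measurable fun a => ENNReal.ofReal (psi β h (Real.exp (S.b h a) * u w)) :=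
      ((psi_continuous hβ hh.le).measurable.comp
        ((Real.measurable_exp.comp (S.mb h)).mul_const (u w))).ennreal_ofReal
    calc _ ≤ ∫⁻ ω in (fun ω : boxS d L → S.Ωp => ω w) ⁻¹' (S.gd h),
          ENNReal.ofReal (psi β h (Real.exp (S.b h (ω w)) * u w)) ∂(S.mu L) :=
          lintegral_mono_set (fun ω (hω : ∀ x, ω x ∈ S.gd h) => hω w)
      _ = ∫⁻ a in S.gd h, ENNReal.ofReal (psi β h (Real.exp (S.b h a) * u w)) ∂S.ν :=
          e1.setLIntegral_comp_preimage (S.mgd h) hm0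
      _ ≤ _ := (H1 h hh hl1 (u w) (hu0 w) (hur w)).2
  have hp0 : ∀ w, (0 : ℝ) ≤ (1 / 2 : ℝ) ^ net.dist x w := fun w => by positivity
  have hb0 : ∀ w, 0 ≤ (1 + (|lamN N| + 2) * h) * u w
          - h * (2 : ℝ) ^ (-(2 + β)) * u w ^ (1 + β) := fun w =>
    (H1 h hh hl1 (u w) (hu0 w) (hur w)).1
  calc ∫⁻ ω in {ω | ∀ x, ω x ∈ S.gd h}, ENNReal.ofReal (Yl net (u' ω) x) ∂(S.mu L)
      ≤ ∫⁻ ω in {ω | ∀ x, ω x ∈ S.gd h}, ∑ w, (ENNReal.ofReal ((1 / 2 : ℝ) ^ net.dist x w) *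
          ENNReal.ofReal (psi β h (Real.exp (S.b h (ω w)) * u w)) +
          ENNReal.ofReal ((1 / 2 : ℝ) ^ net.dist x w * (k * h * cpl net u w))) ∂(S.mu L) := by
        refine setLIntegral_mono' hmgood fun ω hω => ?_
        have e1 : Yl net (u' ω) x ≤ ∑ w, ((1 / 2 : ℝ) ^ net.dist x w *
            psi β h (Real.exp (S.b h (ω w)) * u w) +
            (1 / 2 : ℝ) ^ net.dist x w * (k * h * cpl net u w)) := by
          unfold Yl
          refine Finset.sum_le_sum fun w _ => ?_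
          rw [← mul_add]
          exact mul_le_mul_of_nonneg_left (hu' ω hω w) (hp0 w)
        refine (ENNReal.ofReal_le_ofReal e1).trans ?_
        rw [ENNReal.ofReal_sum_of_nonneg fun w _ => add_nonneg
          (mul_nonneg (hp0 w) (psi_nonneg _ _ _))
          (mul_nonneg (hp0 w) (mul_nonneg (mul_nonneg hk0 hh.le) (hcplnn w)))]
        refine Finset.sum_le_sum fun w _ => ?_
        rw [ENNReal.ofReal_add (mul_nonneg (hp0 w) (psi_nonneg _ _ _))
          (mul_nonneg (hp0 w) (mul_nonneg (mul_nonneg hk0 hh.le) (hcplnn w))),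
          ENNReal.ofReal_mul (hp0 w)]
    _ = ∑ w, ∫⁻ ω in {ω | ∀ x, ω x ∈ S.gd h}, (ENNReal.ofReal ((1 / 2 : ℝ) ^ net.dist x w) *
          ENNReal.ofReal (psi β h (Real.exp (S.b h (ω w)) * u w)) +
          ENNReal.ofReal ((1 / 2 : ℝ) ^ net.dist x w * (k * h * cpl net u w))) ∂(S.mu L) := by
        refine lintegral_finsetSum _ fun w _ => ?_
        exact ((hmp w).const_mul _).add_const _
    _ ≤ ∑ w, (ENNReal.ofReal ((1 / 2 : ℝ) ^ net.dist x w) *
          ENNReal.ofReal ((1 + (|lamN N| + 2) * h) * u w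
          - h * (2 : ℝ) ^ (-(2 + β)) * u w ^ (1 + β)) +
          ENNReal.ofReal ((1 / 2 : ℝ) ^ net.dist x w * (k * h * cpl net u w))) := by
        refine Finset.sum_le_sum fun w _ => ?_
        rw [lintegral_add_left ((hmp w).const_mul _), lintegral_const_mul _ (hmp w)]
        exact add_le_add (mul_le_mul_right (hsite w) _) (Mom2_lconst _ _ _)
    _ = ENNReal.ofReal (∑ w, ((1 / 2 : ℝ) ^ net.dist x w * ((1 + (|lamN N| + 2) * h) * u w
          - h * (2 : ℝ) ^ (-(2 + β)) * u w ^ (1 + β)) +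
          (1 / 2 : ℝ) ^ net.dist x w * (k * h * cpl net u w))) := by
        rw [ENNReal.ofReal_sum_of_nonneg fun w _ => add_nonneg
          (mul_nonneg (hp0 w) (hb0 w))
          (mul_nonneg (hp0 w) (mul_nonneg (mul_nonneg hk0 hh.le) (hcplnn w)))]
        refine Finset.sum_congr rfl fun w _ => ?_
        rw [ENNReal.ofReal_add (mul_nonneg (hp0 w) (hb0 w))
          (mul_nonneg (hp0 w) (mul_nonneg (mul_nonneg hk0 hh.le) (hcplnn w))),
          ENNReal.ofReal_mul (hp0 w) (q := (1 + (|lamN N| + 2) * h) * u w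
          - h * (2 : ℝ) ^ (-(2 + β)) * u w ^ (1 + β))]
    _ ≤ ENNReal.ofReal (Y + h * (C2 * M - c2 / 2 * Y ^ (1 + β))) := by
        refine ENNReal.ofReal_le_ofReal ?_
        have e1 : ∑ w, ((1 / 2 : ℝ) ^ net.dist x w * ((1 + (|lamN N| + 2) * h) * u w
            - h * (2 : ℝ) ^ (-(2 + β)) * u w ^ (1 + β)) +
            (1 / 2 : ℝ) ^ net.dist x w * (k * h * cpl net u w)) =
            (1 + (|lamN N| + 2) * h) * Y - h * (2 : ℝ) ^ (-(2 + β)) *
              (∑ w, (1 / 2 : ℝ) ^ net.dist x w * u w ^ (1 + β)) +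
            k * h * ∑ w, (1 / 2 : ℝ) ^ net.dist x w * cpl net u w := by
          rw [hY]
          unfold Yl
          rw [Finset.mul_sum, Finset.mul_sum, Finset.mul_sum, ← Finset.sum_sub_distrib,
            ← Finset.sum_add_distrib]
          exact Finset.sum_congr rfl fun w _ => by ring
        rw [e1]
        have e2 := Mom2_cpl net u hu0 x
        rw [← hY] at e2
        have e3 := Mom2_pow net hβ u hu0 x
        rw [← hY] at e3
        set Q := ∑ w, (1 / 2 : ℝ) ^ net.dist x w * u w ^ (1 + β) with hQ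
        set P := ∑ w, (1 / 2 : ℝ) ^ net.dist x w * cpl net u w with hP
        have hP0 : 0 ≤ P := Finset.sum_nonneg fun w _ => mul_nonneg (hp0 w) (hcplnn w)
        have e4 : k * h * P ≤ h * (6 * d * Y) := by
          calc k * h * P ≤ 1 * h * P := by
                refine mul_le_mul_of_nonneg_right (mul_le_mul_of_nonneg_right hk1 hh.le) hP0
            _ = h * P := by ring
            _ ≤ h * (6 * d * Y) := mul_le_mul_of_nonneg_left e2 hh.le
        have e5 : c2 * Y ^ (1 + β) ≤ (2 : ℝ) ^ (-(2 + β)) * Q := by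
          have h3d : (0 : ℝ) < ((3 : ℝ) ^ d) ^ β := by positivity
          calc c2 * Y ^ (1 + β) ≤ c2 * (((3 : ℝ) ^ d) ^ β * Q) :=
                mul_le_mul_of_nonneg_left e3 hc2p.le
            _ = (2 : ℝ) ^ (-(2 + β)) * Q := by
                rw [hc2]; field_simp
        have e6 : C2 * Y ≤ C2 * M + c2 / 2 * Y ^ (1 + β) := by
          rcases le_or_gt Y M with hle | hgt
          · have : C2 * Y ≤ C2 * M := mul_le_mul_of_nonneg_left hle hC2p.le
            have : 0 ≤ c2 / 2 * Y ^ (1 + β) := by positivity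
            linarith
          · have f1 : 2 * C2 / c2 ≤ Y ^ β := by
              have f2 := Real.rpow_le_rpow hMp.le hgt.le hβ.le
              rw [hM, ← Real.rpow_mul (by positivity), one_div_mul_cancel hβ.ne',
                Real.rpow_one] at f2
              exact f2
            rw [div_le_iff₀ hc2p] at f1
            rw [hYb]
            have f3 := mul_le_mul_of_nonneg_right f1 hY0
            have f4 : 0 ≤ C2 * M := by positivity
            nlinarith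
        have e7 := mul_le_mul_of_nonneg_left e5 hh.le
        have e8 := mul_le_mul_of_nonneg_left e6 hh.le
        have e9 : (1 + (|lamN N| + 2) * h) * Y + h * (6 * d * Y) = Y + h * (C2 * Y) := by
          rw [hC2]; ring
        have e10 : h * (2 : ℝ) ^ (-(2 + β)) * Q = h * ((2 : ℝ) ^ (-(2 + β)) * Q) := by ring
        rw [e10]
        linarith

/-! ### recursion for the mean on the alive event -/

private theorem Mom2_rec {F : Fam d} {β k : ℝ} (hβ : 0 < β) (S : PSys F β k) (h : ℝ) (hh : 0 < h)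
    (L : ℕ) (Ψ : (boxS d L → F.V) × (boxS d L → F.V) → ℝ) (hΨ : Measurable Ψ)
    (R A c : ℝ) (hA : 0 ≤ A) (hc : 0 ≤ c) (h0 : ∀ G, 0 ≤ Ψ G)
    (hR : ∀ G : (boxS d L → F.V) × (boxS d L → F.V),
      (∀ x, ‖G.1 x‖ ≤ rad β h ∧ ‖G.2 x‖ ≤ rad β h) → Ψ G ≤ R)
    (hR0 : 0 ≤ R)
    (hsm : h * c * (1 + β) * R ^ β ≤ 1)
    (hstep : ∀ G : (boxS d L → F.V) × (boxS d L → F.V),
      (∀ x, ‖G.1 x‖ ≤ rad β h ∧ ‖G.2 x‖ ≤ rad β h) →
      ∫⁻ ω in {ω | ∀ x, ω x ∈ S.gd h}, ENNReal.ofReal (Ψ (S.st h L G ω)) ∂(S.mu L) ≤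
        ENNReal.ofReal (Ψ G + h * (A - c * Ψ G ^ (1 + β))))
    (G : (boxS d L → F.V) × (boxS d L → F.V)) (n : ℕ) :
    ∃ y : ℕ → ℝ, (∀ n, 0 ≤ y n) ∧ (∀ n, y n ≤ R) ∧ y 0 ≤ Ψ G ∧
      (∀ n, y (n + 1) ≤ y n + h * (A - c * y n ^ (1 + β))) ∧
      ∀ n, ∫⁻ ω in S.alv h L G n, ENNReal.ofReal (Ψ (S.tr h L G ω n)) ∂(PI (S.mu L)) =
        ENNReal.ofReal (y n) := by
  classical
  set I : ℕ → ℝ≥0∞ := fun n =>
    ∫⁻ ω in S.alv h L G n, ENNReal.ofReal (Ψ (S.tr h L G ω n)) ∂(PI (S.mu L)) with hI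
  have hIR : ∀ n, I n ≤ ENNReal.ofReal R := by
    intro n
    calc I n ≤ ∫⁻ ω in S.alv h L G n, ENNReal.ofReal R ∂(PI (S.mu L)) := by
          refine setLIntegral_mono' (measurableSet_alv S h L G n) fun ω hω => ?_
          exact ENNReal.ofReal_le_ofReal (hR _ (hω.2 n le_rfl))
      _ ≤ ENNReal.ofReal R := by
          exact Mom2_lconst _ _ _
  have hItop : ∀ n, I n ≠ ∞ := fun n => ne_top_of_le_ne_top ENNReal.ofReal_ne_top (hIR n)
  have hIy : ∀ n, I n = ENNReal.ofReal (I n).toReal := fun n =>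
    (ENNReal.ofReal_toReal (hItop n)).symm
  have hyR : ∀ n, (I n).toReal ≤ R := fun n => by
    have := ENNReal.toReal_mono ENNReal.ofReal_ne_top (hIR n)
    rwa [ENNReal.toReal_ofReal hR0] at this
  refine ⟨fun n => (I n).toReal, fun n => ENNReal.toReal_nonneg, hyR, ?_, fun n => ?_, hIy⟩
  · have e1 : I 0 ≤ ENNReal.ofReal (Ψ G) := by
      calc I 0 ≤ ∫⁻ ω in S.alv h L G 0, ENNReal.ofReal (Ψ G) ∂(PI (S.mu L)) := le_of_eq rfl
        _ ≤ ENNReal.ofReal (Ψ G) := by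
          exact Mom2_lconst _ _ _
    have := ENNReal.toReal_mono ENNReal.ofReal_ne_top e1
    rwa [ENNReal.toReal_ofReal (h0 G)] at this
  · set t : ℝ := (I n).toReal with ht
    have ht0 : 0 ≤ t := ENNReal.toReal_nonneg
    have htR : t ≤ R := hyR n
    have hΦ : Measurable fun G' : (boxS d L → F.V) × (boxS d L → F.V) =>
        ENNReal.ofReal (Ψ G') := hΨ.ennreal_ofReal
    have hα : 0 ≤ 1 - h * c * (1 + β) * t ^ β := by
      have e1 : t ^ β ≤ R ^ β := Real.rpow_le_rpow ht0 htR hβ.le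
      have e2 : h * c * (1 + β) * t ^ β ≤ h * c * (1 + β) * R ^ β :=
        mul_le_mul_of_nonneg_left e1 (by positivity)
      linarith
    have hγ : 0 ≤ h * A + h * c * β * t ^ (1 + β) := by positivity
    have hmk := alv_markov S h L (fun G' => ENNReal.ofReal (Ψ G')) hΦ G n 1
    have hinner : ∀ G' : (boxS d L → F.V) × (boxS d L → F.V),
        (∀ x, ‖G'.1 x‖ ≤ rad β h ∧ ‖G'.2 x‖ ≤ rad β h) →
        ∫⁻ ω' in S.alv h L G' 1, ENNReal.ofReal (Ψ (S.tr h L G' ω' 1)) ∂(PI (S.mu L)) ≤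
          ENNReal.ofReal (1 - h * c * (1 + β) * t ^ β) * ENNReal.ofReal (Ψ G') +
            ENNReal.ofReal (h * A + h * c * β * t ^ (1 + β)) := by
      intro G' hG'
      have hmgood : MeasurableSet {ω : boxS d L → S.Ωp | ∀ x, ω x ∈ S.gd h} := by
        have : {ω : boxS d L → S.Ωp | ∀ x, ω x ∈ S.gd h} =
            ⋂ x, (fun ω : boxS d L → S.Ωp => ω x) ⁻¹' (S.gd h) := by
          ext ω; simp
        rw [this]
        exact MeasurableSet.iInter fun x => measurable_pi_apply x (S.mgd h)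
      have e1 : MeasurePreserving (fun ω : ℕ → boxS d L → S.Ωp => ω 0) (PI (S.mu L)) (S.mu L) :=
        ⟨measurable_pi_apply 0, map_coord 0⟩
      have hm0 : Measurable fun ω : boxS d L → S.Ωp => ENNReal.ofReal (Ψ (S.st h L G' ω)) :=
        hΦ.comp ((S.mst h L).comp (measurable_const.prodMk measurable_id))
      calc ∫⁻ ω' in S.alv h L G' 1, ENNReal.ofReal (Ψ (S.tr h L G' ω' 1)) ∂(PI (S.mu L))
          ≤ ∫⁻ ω' in (fun ω : ℕ → boxS d L → S.Ωp => ω 0) ⁻¹' {ω | ∀ x, ω x ∈ S.gd h},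
              ENNReal.ofReal (Ψ (S.st h L G' (ω' 0))) ∂(PI (S.mu L)) := by
            refine lintegral_mono_set fun ω hω => ?_
            exact hω.1 0 one_pos
        _ = ∫⁻ ω in {ω | ∀ x, ω x ∈ S.gd h}, ENNReal.ofReal (Ψ (S.st h L G' ω)) ∂(S.mu L) :=
            e1.setLIntegral_comp_preimage hmgood hm0
        _ ≤ ENNReal.ofReal (Ψ G' + h * (A - c * Ψ G' ^ (1 + β))) := hstep G' hG'
        _ ≤ ENNReal.ofReal ((1 - h * c * (1 + β) * t ^ β) * Ψ G' +
              (h * A + h * c * β * t ^ (1 + β))) := by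
            refine ENNReal.ofReal_le_ofReal ?_
            have e2 := Mom2_tan hβ (h0 G') ht0
            have e3 := mul_le_mul_of_nonneg_left e2 (mul_nonneg hh.le hc)
            nlinarith
        _ = _ := by
            rw [ENNReal.ofReal_add (mul_nonneg hα (h0 G')) hγ, ENNReal.ofReal_mul hα]
    have e5 : I (n + 1) ≤ ENNReal.ofReal (t + h * (A - c * t ^ (1 + β))) := by
      calc I (n + 1) = ∫⁻ ω in S.alv h L G n, (∫⁻ ω' in S.alv h L (S.tr h L G ω n) 1,
              ENNReal.ofReal (Ψ (S.tr h L (S.tr h L G ω n) ω' 1)) ∂(PI (S.mu L)))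
                ∂(PI (S.mu L)) := hmk
        _ ≤ ∫⁻ ω in S.alv h L G n, (ENNReal.ofReal (1 - h * c * (1 + β) * t ^ β) *
              ENNReal.ofReal (Ψ (S.tr h L G ω n)) +
              ENNReal.ofReal (h * A + h * c * β * t ^ (1 + β))) ∂(PI (S.mu L)) := by
            refine setLIntegral_mono' (measurableSet_alv S h L G n) fun ω hω => ?_
            exact hinner _ (hω.2 n le_rfl)
        _ ≤ ENNReal.ofReal (1 - h * c * (1 + β) * t ^ β) * I n +
              ENNReal.ofReal (h * A + h * c * β * t ^ (1 + β)) := by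
            have hmt : Measurable fun ω : ℕ → boxS d L → S.Ωp =>
                ENNReal.ofReal (Ψ (S.tr h L G ω n)) :=
              hΦ.comp ((measurable_tr S h L n).comp (measurable_const.prodMk measurable_id))
            rw [lintegral_add_left (hmt.const_mul _), lintegral_const_mul _ hmt]
            exact add_le_add le_rfl (Mom2_lconst _ _ _)
        _ = ENNReal.ofReal ((1 - h * c * (1 + β) * t ^ β) * t +
              (h * A + h * c * β * t ^ (1 + β))) := by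
            rw [hIy n, ← ht, ← ENNReal.ofReal_mul hα, ← ENNReal.ofReal_add
              (mul_nonneg hα ht0) hγ]
        _ = _ := by
            congr 1
            have e6 : t ^ (1 + β) = t * t ^ β := by
              rcases ht0.lt_or_eq with h0 | h0
              · rw [Real.rpow_add h0, Real.rpow_one]
              · rw [← h0, Real.zero_rpow (by linarith), zero_mul]
            rw [e6]; ring
    have e7 : 0 ≤ t + h * (A - c * t ^ (1 + β)) := by
      have e6 : t ^ (1 + β) = t * t ^ β := by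
        rcases ht0.lt_or_eq with h0 | h0
        · rw [Real.rpow_add h0, Real.rpow_one]
        · rw [← h0, Real.zero_rpow (by linarith), zero_mul]
      have e8 : 0 ≤ (1 - h * c * (1 + β) * t ^ β) * t := mul_nonneg hα ht0
      have e9 : 0 ≤ h * c * β * (t * t ^ β) := by positivity
      have e10 : 0 ≤ h * A := by positivity
      rw [e6]
      nlinarith
    have e11 := ENNReal.toReal_mono ENNReal.ofReal_ne_top e5
    rwa [ENNReal.toReal_ofReal e7] at e11

/-! ### the recursion in real numbers -/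

private theorem Mom2_detb {β A c h : ℝ} (hβ : 0 < β) (hA : 0 < A) (hc : 0 < c) (hh : 0 < h)
    {y y' : ℝ} (hrec : y' ≤ y + h * (A - c * y ^ (1 + β)))
    (hy : (2 * A / c) ^ (1 / (1 + β)) ≤ y) : y' ≤ y - h * (c / 2) * y ^ (1 + β) := by
  have hb : (0 : ℝ) < 1 + β := by linarith
  have h1 := Real.rpow_le_rpow (by positivity) hy hb.le
  rw [← Real.rpow_mul (by positivity), one_div_mul_cancel hb.ne', Real.rpow_one,
    div_le_iff₀ hc] at h1
  have h2 : h * A ≤ h * (c / 2 * y ^ (1 + β)) := mul_le_mul_of_nonneg_left (by linarith) hh.le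
  nlinarith

private theorem Mom2_deta {β A c h : ℝ} (hβ : 0 < β) (hA : 0 < A) (hc : 0 < c) (hh : 0 < h)
    (y : ℕ → ℝ) (hy0 : ∀ n, 0 ≤ y n)
    (hrec : ∀ n, y (n + 1) ≤ y n + h * (A - c * y n ^ (1 + β))) (B : ℝ)
    (hB : (2 * A / c) ^ (1 / (1 + β)) + A * h ≤ B) (j : ℕ) (hj : y j ≤ B) (m : ℕ) :
    y (j + m) ≤ B := by
  induction m with
  | zero => exact hj
  | succ m ih =>
    rcases le_or_gt ((2 * A / c) ^ (1 / (1 + β))) (y (j + m)) with h1 | h1
    · have h2 := Mom2_detb hβ hA hc hh (hrec (j + m)) h1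
      have h3 : 0 ≤ h * (c / 2) * y (j + m) ^ (1 + β) := by
        have := Real.rpow_nonneg (hy0 (j + m)) (1 + β)
        positivity
      show y (j + m + 1) ≤ B
      linarith
    · have h2 := hrec (j + m)
      have h3 : 0 ≤ c * y (j + m) ^ (1 + β) := by
        have := Real.rpow_nonneg (hy0 (j + m)) (1 + β)
        positivity
      show y (j + m + 1) ≤ B
      nlinarith

private theorem Mom2_detc {β A c h R : ℝ} (hβ : 0 < β) (hA : 0 < A) (hc : 0 < c) (hh : 0 < h)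
    (hh1 : h < 1)
    (y : ℕ → ℝ) (hy0 : ∀ n, 0 ≤ y n) (hyR : ∀ n, y n ≤ R) (hsm : h * c * (1 + β) * R ^ β ≤ 1)
    (hrec : ∀ n, y (n + 1) ≤ y n + h * (A - c * y n ^ (1 + β))) (n : ℕ) (hn : 1 ≤ n * h) :
    y n ≤ (2 / (β * c)) ^ (1 / β) + ((2 * A / c) ^ (1 / (1 + β)) + A) := by
  have hK : 0 < (2 / (β * c)) ^ (1 / β) := by positivity
  have hCs : 0 < (2 * A / c) ^ (1 / (1 + β)) := by positivity
  have hAh : A * h ≤ A := by nlinarith
  by_cases hex : ∃ j, j ≤ n ∧ y j ≤ (2 * A / c) ^ (1 / (1 + β)) + A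
  · obtain ⟨j, hjn, hj⟩ := hex
    have h1 := Mom2_deta hβ hA hc hh y hy0 hrec ((2 * A / c) ^ (1 / (1 + β)) + A)
      (by linarith) j hj (n - j)
    rw [Nat.add_sub_cancel' hjn] at h1
    linarith
  · push Not at hex
    have hbig : ∀ j, j ≤ n → (2 * A / c) ^ (1 / (1 + β)) ≤ y j := fun j hj => by
      have := hex j hj
      linarith
    have hW : ∀ m, m ≤ n → (m : ℝ) * (β * h * c / 2) * y m ^ β ≤ 1 := by
      intro m
      induction m with
      | zero => intro _; simp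
      | succ m ih =>
        intro hm
        have ih' := ih (by omega)
        have hym : 0 < y m := hCs.trans_le (hbig m (by omega))
        have h1 := Mom2_detb hβ hA hc hh (hrec m) (hbig m (by omega))
        have hyb : y m ^ (1 + β) = y m * y m ^ β := by rw [Real.rpow_add hym, Real.rpow_one]
        set W := y m ^ β with hWdef
        have hW0 : 0 < W := Real.rpow_pos_of_pos hym β
        set s := h * (c / 2) * W with hs
        have hs0 : 0 < s := by positivity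
        have hs1 : s ≤ 1 := by
          have e1 : W ≤ R ^ β := Real.rpow_le_rpow hym.le (hyR m) hβ.le
          have e2 : h * c * (1 + β) * W ≤ 1 :=
            (mul_le_mul_of_nonneg_left e1 (by positivity)).trans hsm
          have e3 : 0 < h * c * β * W := by positivity
          rw [hs]
          nlinarith
        have h2 : y (m + 1) ≤ y m * (1 - s) := by
          rw [hyb] at h1
          refine h1.trans (le_of_eq ?_)
          rw [hs]; ring
        have h3 : (1 - s) ^ β ≤ 1 / (1 + β * s) := by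
          have e1 : 1 - s ≤ Real.exp (-s) := by
            have := Real.add_one_le_exp (-s)
            linarith
          have e2 : (1 - s) ^ β ≤ Real.exp (-s) ^ β :=
            Real.rpow_le_rpow (by linarith) e1 hβ.le
          rw [← Real.exp_mul] at e2
          have e3 : Real.exp (-s * β) ≤ 1 / (1 + β * s) := by
            rw [show -s * β = -(β * s) by ring, Real.exp_neg, ← one_div]
            refine one_div_le_one_div_of_le (by positivity) ?_
            have := Real.add_one_le_exp (β * s)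
            linarith
          exact e2.trans e3
        have h4 : y (m + 1) ^ β ≤ W * (1 / (1 + β * s)) := by
          have e1 := Real.rpow_le_rpow (hy0 (m + 1)) h2 hβ.le
          rw [Real.mul_rpow hym.le (by linarith)] at e1
          exact e1.trans (mul_le_mul_of_nonneg_left h3 hW0.le)
        have h5 : ((m + 1 : ℕ) : ℝ) * (β * h * c / 2) * y (m + 1) ^ β ≤
            ((m + 1 : ℕ) : ℝ) * (β * h * c / 2) * (W * (1 / (1 + β * s))) :=
          mul_le_mul_of_nonneg_left h4 (by positivity)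
        refine h5.trans ?_
        have h6 : ((m + 1 : ℕ) : ℝ) * (β * h * c / 2) * (W * (1 / (1 + β * s))) =
            (((m : ℝ) + 1) * (β * h * c / 2) * W) / (1 + β * s) := by
          push_cast
          ring
        rw [h6, div_le_one (by positivity)]
        have h7 : β * s = β * h * c / 2 * W := by rw [hs]; ring
        rw [h7]
        nlinarith
    have h1 := hW n le_rfl
    have hyn : 0 < y n := hCs.trans_le (hbig n le_rfl)
    have h2 : β * c / 2 * y n ^ β ≤ 1 := by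
      have e1 : 0 ≤ β * c / 2 * y n ^ β := by positivity
      calc β * c / 2 * y n ^ β = 1 * (β * c / 2 * y n ^ β) := (one_mul _).symm
        _ ≤ (n * h) * (β * c / 2 * y n ^ β) := mul_le_mul_of_nonneg_right hn e1
        _ = (n : ℝ) * (β * h * c / 2) * y n ^ β := by ring
        _ ≤ 1 := h1
    have h3 : y n ^ β ≤ 2 / (β * c) := by
      rw [le_div_iff₀ (by positivity)]
      nlinarith
    have h4 := Real.rpow_le_rpow (by positivity) h3 (show (0 : ℝ) ≤ 1 / β by positivity)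
    rw [← Real.rpow_mul hyn.le, mul_one_div_cancel hβ.ne', Real.rpow_one] at h4
    linarith

/-! ### the statements -/

private theorem Mom2_alv_empty {F : Fam d} {β k : ℝ} (S : PSys F β k) (h : ℝ) (L : ℕ)
    (G : (boxS d L → F.V) × (boxS d L → F.V))
    (hG : ¬ ∀ x, ‖G.1 x‖ ≤ rad β h ∧ ‖G.2 x‖ ≤ rad β h) (n : ℕ) : S.alv h L G n = ∅ := by
  rw [Set.eq_empty_iff_forall_notMem]
  intro ω hω
  exact hG (hω.2 0 (Nat.zero_le n))

private theorem Mom2_meas1 (F : Fam d) (L : ℕ) (x : boxS d L) :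
    Measurable fun G : (boxS d L → F.V) × (boxS d L → F.V) => Yl (boxNet d L) (nrm G.1) x := by
  unfold Yl nrm
  refine Finset.measurable_sum _ fun w _ => ?_
  exact (((measurable_pi_apply w).comp measurable_fst).norm).const_mul _

private theorem Mom2_meas2 (F : Fam d) (L : ℕ) (x : boxS d L) :
    Measurable fun G : (boxS d L → F.V) × (boxS d L → F.V) => Yl (boxNet d L) (nrm G.2) x := by
  unfold Yl nrm
  refine Finset.measurable_sum _ fun w _ => ?_
  exact (((measurable_pi_apply w).comp measurable_snd).norm).const_mul _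

private theorem Mom2_both (N d : ℕ) (β : ℝ) (hβ : 0 < β) : ∃ A c : ℝ, 0 < A ∧ 0 < c ∧
    ∀ (F : Fam d) (k : ℝ) (S : PSys F β k), 0 ≤ k → k ≤ 1 → BNoise N S.ν S.b S.gd →
    ∃ h0 : ℝ, 0 < h0 ∧ ∀ h, 0 < h → h < h0 → h < 1 ∧
    0 ≤ 3 ^ d * rad β h ∧ h * c * (1 + β) * (3 ^ d * rad β h) ^ β ≤ 1 ∧
    ∀ (L : ℕ) (G : (boxS d L → F.V) × (boxS d L → F.V)),
      (∀ x, ‖G.1 x‖ ≤ rad β h ∧ ‖G.2 x‖ ≤ rad β h) → ∀ x,
      (0 ≤ Yl (boxNet d L) (nrm G.1) x + h * (A - c * Yl (boxNet d L) (nrm G.1) x ^ (1 + β))) ∧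
      ∫⁻ ω in {ω | ∀ x, ω x ∈ S.gd h}, ENNReal.ofReal
          (Yl (boxNet d L) (nrm (S.st h L G ω).1) x) ∂(S.mu L) ≤
        ENNReal.ofReal (Yl (boxNet d L) (nrm G.1) x +
          h * (A - c * Yl (boxNet d L) (nrm G.1) x ^ (1 + β))) ∧
      ∫⁻ ω in {ω | ∀ x, ω x ∈ S.gd h}, ENNReal.ofReal
          (Yl (boxNet d L) (nrm (S.st h L G ω).2) x) ∂(S.mu L) ≤
        ENNReal.ofReal (Yl (boxNet d L) (nrm G.2) x +
          h * (A - c * Yl (boxNet d L) (nrm G.2) x ^ (1 + β))) := by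
  obtain ⟨A, c, hA, hc, H⟩ := Mom2_comp N d β hβ
  refine ⟨A, c, hA, hc, fun F k S hk0 hk1 hB => ?_⟩
  obtain ⟨h0, hh0, H0⟩ := H F k S hk0 hk1 hB
  refine ⟨h0, hh0, fun h hh hlt => ?_⟩
  obtain ⟨hl1, hsm, H1⟩ := H0 h hh hlt
  refine ⟨hl1, mul_nonneg (by positivity) (Mom2_rad hβ hh hl1).1, hsm, fun L G hG x => ?_⟩
  have h1 := H1 L (nrm G.1) (fun ω => nrm (S.st h L G ω).1) (fun w => norm_nonneg _)
    (fun w => (hG w).1) (fun ω hω w => (S.q1 h L G ω hh hω).up w) x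
  have h2 := H1 L (nrm G.2) (fun ω => nrm (S.st h L G ω).2) (fun w => norm_nonneg _)
    (fun w => (hG w).2) (fun ω hω w => (S.q2 h L G ω hh hω).up w) x
  exact ⟨h1.1, h1.2, h2.2⟩


theorem mom_step (N d : ℕ) (β : ℝ) (hβ : 0 < β) : ∃ A c : ℝ, 0 < A ∧ 0 < c ∧
    ∀ (F : Fam d) (k : ℝ) (S : PSys F β k), 0 ≤ k → k ≤ 1 → BNoise N S.ν S.b S.gd →
    ∃ h0 : ℝ, 0 < h0 ∧ ∀ h, 0 < h → h < h0 → ∀ (L : ℕ) (G : (boxS d L → F.V) × (boxS d L → F.V)),
      (∀ x, ‖G.1 x‖ ≤ rad β h ∧ ‖G.2 x‖ ≤ rad β h) → ∀ x,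
      (0 ≤ Yl (boxNet d L) (nrm G.1) x + h * (A - c * Yl (boxNet d L) (nrm G.1) x ^ (1 + β))) ∧
      ∫⁻ ω in {ω | ∀ x, ω x ∈ S.gd h}, ENNReal.ofReal
          (Yl (boxNet d L) (nrm (S.st h L G ω).1) x) ∂(S.mu L) ≤
        ENNReal.ofReal (Yl (boxNet d L) (nrm G.1) x +
          h * (A - c * Yl (boxNet d L) (nrm G.1) x ^ (1 + β))) ∧
      ∫⁻ ω in {ω | ∀ x, ω x ∈ S.gd h}, ENNReal.ofReal
          (Yl (boxNet d L) (nrm (S.st h L G ω).2) x) ∂(S.mu L) ≤
        ENNReal.ofReal (Yl (boxNet d L) (nrm G.2) x +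
          h * (A - c * Yl (boxNet d L) (nrm G.2) x ^ (1 + β))) := by
  obtain ⟨A, c, hA, hc, H⟩ := Mom2_both N d β hβ
  refine ⟨A, c, hA, hc, fun F k S hk0 hk1 hB => ?_⟩
  obtain ⟨h0, hh0, H0⟩ := H F k S hk0 hk1 hB
  exact ⟨h0, hh0, fun h hh hlt => (H0 h hh hlt).2.2.2⟩

/-- after real time one the local sums have bounded mean, whatever the start -/
theorem mom_cap (N d : ℕ) (β : ℝ) (hβ : 0 < β) : ∃ C : ℝ, 0 < C ∧
    ∀ (F : Fam d) (k : ℝ) (S : PSys F β k), 0 ≤ k → k ≤ 1 → BNoise N S.ν S.b S.gd →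
    ∀ L : ℕ, ∃ h0 : ℝ, 0 < h0 ∧ ∀ h, 0 < h → h < h0 →
    ∀ (G : (boxS d L → F.V) × (boxS d L → F.V)) (n : ℕ), 1 ≤ n * h → ∀ x,
      ∫⁻ ω in S.alv h L G n, ENNReal.ofReal (Yl (boxNet d L) (nrm (S.tr h L G ω n).1) x +
          Yl (boxNet d L) (nrm (S.tr h L G ω n).2) x) ∂(PI (S.mu L)) ≤ ENNReal.ofReal C := by
  obtain ⟨A, c, hA, hc, H⟩ := Mom2_both N d β hβ
  refine ⟨2 * ((2 / (β * c)) ^ (1 / β) + ((2 * A / c) ^ (1 / (1 + β)) + A)), by positivity,
    fun F k S hk0 hk1 hB L => ?_⟩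
  obtain ⟨h0, hh0, H0⟩ := H F k S hk0 hk1 hB
  refine ⟨h0, hh0, fun h hh hlt G n hn x => ?_⟩
  obtain ⟨hl1, hR0, hsm, H1⟩ := H0 h hh hlt
  by_cases hG : ∀ x, ‖G.1 x‖ ≤ rad β h ∧ ‖G.2 x‖ ≤ rad β h
  swap
  · rw [Mom2_alv_empty S h L G hG n, Measure.restrict_empty, lintegral_zero_measure]
    exact bot_le
  have hr0 : 0 ≤ rad β h := (Mom2_rad hβ hh hl1).1
  obtain ⟨y1, hy10, hy1R, -, hrec1, hI1⟩ := Mom2_rec hβ S h hh L
    (fun G => Yl (boxNet d L) (nrm G.1) x) (Mom2_meas1 F L x) (3 ^ d * rad β h) A c hA.le hc.le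
    (fun G => Mom2_Yl_nonneg _ _ (fun w => norm_nonneg _) x)
    (fun G hG => Mom2_Yl_le _ _ _ hr0 (fun w => (hG w).1) x) hR0 hsm
    (fun G hG => (H1 L G hG x).2.1) G n
  obtain ⟨y2, hy20, hy2R, -, hrec2, hI2⟩ := Mom2_rec hβ S h hh L
    (fun G => Yl (boxNet d L) (nrm G.2) x) (Mom2_meas2 F L x) (3 ^ d * rad β h) A c hA.le hc.le
    (fun G => Mom2_Yl_nonneg _ _ (fun w => norm_nonneg _) x)
    (fun G hG => Mom2_Yl_le _ _ _ hr0 (fun w => (hG w).2) x) hR0 hsm
    (fun G hG => (H1 L G hG x).2.2) G n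
  have e1 := Mom2_detc hβ hA hc hh hl1 y1 hy10 hy1R hsm hrec1 n hn
  have e2 := Mom2_detc hβ hA hc hh hl1 y2 hy20 hy2R hsm hrec2 n hn
  have hm1 : Measurable fun ω : ℕ → boxS d L → S.Ωp =>
      ENNReal.ofReal (Yl (boxNet d L) (nrm (S.tr h L G ω n).1) x) :=
    ((Mom2_meas1 F L x).comp
      ((measurable_tr S h L n).comp (measurable_const.prodMk measurable_id))).ennreal_ofReal
  calc ∫⁻ ω in S.alv h L G n, ENNReal.ofReal (Yl (boxNet d L) (nrm (S.tr h L G ω n).1) x +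
          Yl (boxNet d L) (nrm (S.tr h L G ω n).2) x) ∂(PI (S.mu L))
      = ∫⁻ ω in S.alv h L G n, (ENNReal.ofReal (Yl (boxNet d L) (nrm (S.tr h L G ω n).1) x) +
          ENNReal.ofReal (Yl (boxNet d L) (nrm (S.tr h L G ω n).2) x)) ∂(PI (S.mu L)) := by
        refine lintegral_congr fun ω => ?_
        exact ENNReal.ofReal_add (Mom2_Yl_nonneg _ _ (fun w => norm_nonneg _) x)
          (Mom2_Yl_nonneg _ _ (fun w => norm_nonneg _) x)
    _ = ENNReal.ofReal (y1 n) + ENNReal.ofReal (y2 n) := by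
        rw [lintegral_add_left hm1, hI1 n, hI2 n]
    _ = ENNReal.ofReal (y1 n + y2 n) := (ENNReal.ofReal_add (hy10 n) (hy20 n)).symm
    _ ≤ _ := ENNReal.ofReal_le_ofReal (by linarith)

theorem mom_unif (N d : ℕ) (β : ℝ) (hβ : 0 < β) : ∃ C : ℝ, 0 < C ∧
    ∀ (F : Fam d) (k : ℝ) (S : PSys F β k), 0 ≤ k → k ≤ 1 → BNoise N S.ν S.b S.gd → MomU S C := by
  obtain ⟨A, c, hA, hc, H⟩ := Mom2_both N d β hβ
  refine ⟨1 + ((2 * A / c) ^ (1 / (1 + β)) + A), by positivity,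
    fun F k S hk0 hk1 hB L => ?_⟩
  obtain ⟨h0, hh0, H0⟩ := H F k S hk0 hk1 hB
  refine ⟨h0, hh0, fun h hh hlt G n x => ?_⟩
  obtain ⟨hl1, hR0, hsm, H1⟩ := H0 h hh hlt
  by_cases hG : ∀ x, ‖G.1 x‖ ≤ rad β h ∧ ‖G.2 x‖ ≤ rad β h
  swap
  · rw [Mom2_alv_empty S h L G hG n, Measure.restrict_empty, lintegral_zero_measure]
    exact bot_le
  have hr0 : 0 ≤ rad β h := (Mom2_rad hβ hh hl1).1
  obtain ⟨y1, hy10, hy1R, hy1i, hrec1, hI1⟩ := Mom2_rec hβ S h hh L
    (fun G => Yl (boxNet d L) (nrm G.1) x) (Mom2_meas1 F L x) (3 ^ d * rad β h) A c hA.le hc.le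
    (fun G => Mom2_Yl_nonneg _ _ (fun w => norm_nonneg _) x)
    (fun G hG => Mom2_Yl_le _ _ _ hr0 (fun w => (hG w).1) x) hR0 hsm
    (fun G hG => (H1 L G hG x).2.1) G n
  rw [hI1 n]
  refine ENNReal.ofReal_le_ofReal ?_
  have hY0 : 0 ≤ Yl (boxNet d L) (nrm G.1) x := Mom2_Yl_nonneg _ _ (fun w => norm_nonneg _) x
  have hCs : 0 < (2 * A / c) ^ (1 / (1 + β)) := by positivity
  have hAh : A * h ≤ A := by nlinarith
  have e1 := Mom2_deta hβ hA hc hh y1 hy10 hrec1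
    (Yl (boxNet d L) (nrm G.1) x + ((2 * A / c) ^ (1 / (1 + β)) + A)) (by linarith) 0
    (by linarith) n
  rw [Nat.zero_add] at e1
  have e2 : 0 ≤ ((2 * A / c) ^ (1 / (1 + β)) + A) * Yl (boxNet d L) (nrm G.1) x := by positivity
  nlinarith

end DynC
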