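import Pool.Agent.Lib_MP_36b788c.Obe1

/-!
# From the block inequalities to mixing

`n_B = ⌈TB/h⌉`. (contr): a function of class `A` is mapped by `P^{n_B}` to class `A'` with `ΣA' ≤ ½ΣA`; (grow): for `n ≤ n_B`, `ΣA' ≤ Cg ΣA`; (init): integrals over two
independent initial configurations.

PROOF of `mix_of_obe`. Given `ρ1, ρ2, R, J, CF, δ`. For a test function `f_i` (`i ∈ I`) and two configurations which differ only at `y`:
`‖f_i G - f_i G'‖ ≤ CF 1{|y| ≤ R} min 1 ‖D‖ ≤ A_R(y) ‖D‖^θ w`, `A_R(y) = CF 1{|y|₁ ≤ R}` (`θ ≤ 1`, `1 ≤ w` is `one_le`), `ΣA_R ≤ CF (2R+1)^d =: B`. Product rule (`Cls_mul`): if `‖f‖,‖g‖ ≤ 1`, `f ∈ Cls A1 ε1`, `g ∈ Cls A2 ε2` then `f g ∈ Cls (A1+A2) (ε1+ε2)`.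
`g_j(G) = pathE [f_j,…,f_{M-1}] G`. Let `i_1 < … < i_r` be the elements of `I` below `M` (`r ≤ J`). `g_{i_r} = f_{i_r}·1`; `g_{i_l} = f_{i_l} · P^{n} g_{i_{l+1}}` with `n = i_{l+1} - i_l` (for indices not in `I`, `f = 1`:
`pathE` over them is `P^n`, `pathE_Pn`). Write `n = m n_B + n'`, `n' < n_B`: `m` times (contr), once (grow): the sum of the weights is multiplied by at most
`Cg 2^{-m} ≤ Cg`. So `ΣA_{i_1} ≤ B (1 + Cg + … + Cg^{J-1}) =: B'`, and `ΣA_0 ≤ Cg 2^{-m_1} B'` with `m_1 = ⌊i_1/n_B⌋ ≥ T0/(TB+h) - 1` (`i_1 h ≥ T0`). (If `I` has no element below `M`, `g_0` is constant `1`, nothing to prove.)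
Choose `T0` so that `Ci Cg 2^{-m_1} B' ≤ δ/4`. The number of applications of (contr), (grow) is at most `Q = J (Sm/TB + 2)`; each changes `ε` into `CL ε + ε0`, so the final additive
constant is `≤ CL^Q Q ε0`; then (init) gives total `≤ Ci ΣA_0 + CL·CL^Q Q ε0 + ε0 + η ≤ δ` for `η = δ/4` (`L0 = max R Ls L1(η)`) and `ε0` small; `h0` = minimum of the two `h0(ε0)`.
-/

open MeasureTheory ProbabilityTheory
open scoped ENNReal

namespace DynC

open Dyn

variable {d : ℕ}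

/-- monotone in the additive constant -/
private theorem Obe1b_mono {V : Type} [NormedAddCommGroup V] {L : ℕ} {k q s α θ : ℝ}
    {A : boxS d L → ℝ} {ε ε' : ℝ} (he : ε ≤ ε') {f : (boxS d L → V) → ℂ}
    (hf : Cls (boxNet d L) k q s α θ A ε f) : Cls (boxNet d L) k q s α θ A ε' f := by
  intro G G' y hy
  refine (hf G G' y hy).trans (add_le_add le_rfl (ENNReal.ofReal_le_ofReal ?_))
  refine mul_le_mul_of_nonneg_right he ?_
  have : 0 ≤ ∑ x, (‖G x‖ + ‖G' x‖) := Finset.sum_nonneg fun x _ => by positivity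
  linarith

/-- bounded measurable function with total weight at most `σ` -/
private def Obe1b_Good (F : Fam d) (k q s α θ : ℝ) (L : ℕ) (σ ε : ℝ)
    (f : (boxS d L → F.V) → ℂ) : Prop :=
  Measurable f ∧ (∀ G, ‖f G‖ ≤ 1) ∧ ∃ A : boxS d L → ℝ, (∀ x, 0 ≤ A x) ∧ ∑ x, A x ≤ σ ∧
    Cls (boxNet d L) k q s α θ A ε f

/-- the block inequality for `n` steps with factor `c` -/
private def Obe1b_Step (F : Fam d) (k q s α θ : ℝ) (L : ℕ) (h CL ε0 c : ℝ) (n : ℕ) : Prop :=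
  ∀ (A : boxS d L → ℝ) (ε : ℝ) (f : (boxS d L → F.V) → ℂ),
      (∀ x, 0 ≤ A x) → 0 ≤ ε → Measurable f → (∀ G, ‖f G‖ ≤ 1) →
      Cls (boxNet d L) k q s α θ A ε f →
      ∃ A' : boxS d L → ℝ, (∀ x, 0 ≤ A' x) ∧ ∑ x, A' x ≤ c * ∑ x, A x ∧
        Cls (boxNet d L) k q s α θ A' (CL * ε + ε0) (F.Pn h L n f)

/-- additive constant after `Q` steps -/
private noncomputable def Obe1b_e (CL ε0 : ℝ) (Q : ℕ) : ℝ := CL ^ Q * Q * ε0

private theorem Obe1b_e_nonneg {CL ε0 : ℝ} (hCL : 1 ≤ CL) (he : 0 < ε0) (Q : ℕ) :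
    0 ≤ Obe1b_e CL ε0 Q := by
  unfold Obe1b_e; positivity

private theorem Obe1b_e_succ {CL ε0 : ℝ} (hCL : 1 ≤ CL) (he : 0 < ε0) (Q : ℕ) :
    CL * Obe1b_e CL ε0 Q + ε0 ≤ Obe1b_e CL ε0 (Q + 1) := by
  unfold Obe1b_e
  have h1 : 1 ≤ CL ^ (Q + 1) := one_le_pow₀ hCL
  have h2 : ε0 ≤ CL ^ (Q + 1) * ε0 := by nlinarith
  push_cast
  have h3 : CL ^ (Q + 1) * ((Q : ℝ) + 1) * ε0 = CL * (CL ^ Q * Q * ε0) + CL ^ (Q + 1) * ε0 := by
    ring
  rw [h3]
  linarith

private theorem Obe1b_e_mono {CL ε0 : ℝ} (hCL : 1 ≤ CL) (he : 0 < ε0) {Q Q' : ℕ} (h : Q ≤ Q') :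
    Obe1b_e CL ε0 Q ≤ Obe1b_e CL ε0 Q' := by
  unfold Obe1b_e
  have h1 : CL ^ Q ≤ CL ^ Q' := pow_le_pow_right₀ hCL h
  have h2 : (Q : ℝ) ≤ Q' := by exact_mod_cast h
  have h3 : 0 ≤ CL ^ Q := by positivity
  have h4 : (0 : ℝ) ≤ Q := by positivity
  gcongr

private theorem Obe1b_Good_mono {F : Fam d} {k q s α θ : ℝ} {L : ℕ} {σ ε σ' ε' : ℝ}
    (hσ : σ ≤ σ') (hε : ε ≤ ε') {f : (boxS d L → F.V) → ℂ}
    (hf : Obe1b_Good F k q s α θ L σ ε f) : Obe1b_Good F k q s α θ L σ' ε' f := by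
  obtain ⟨h1, h2, A, h3, h4, h5⟩ := hf
  exact ⟨h1, h2, A, h3, h4.trans hσ, Obe1b_mono hε h5⟩

private theorem Obe1b_Good_step {F : Fam d} {k q s α θ : ℝ} {L : ℕ} {h CL ε0 c : ℝ} {n : ℕ}
    (hS : Obe1b_Step F k q s α θ L h CL ε0 c n) (hc : 0 ≤ c) {σ ε : ℝ} (hε : 0 ≤ ε)
    {f : (boxS d L → F.V) → ℂ} (hf : Obe1b_Good F k q s α θ L σ ε f) :
    Obe1b_Good F k q s α θ L (c * σ) (CL * ε + ε0) (F.Pn h L n f) := by
  obtain ⟨h1, h2, A, h3, h4, h5⟩ := hf
  obtain ⟨A', h6, h7, h8⟩ := hS A ε f h3 hε h1 h2 h5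
  obtain ⟨h9, h10⟩ := Fam_Pn_facts F h L n f h1 h2
  exact ⟨h9, h10, A', h6, h7.trans (mul_le_mul_of_nonneg_left h4 hc), h8⟩

private theorem Obe1b_Pn_zero (F : Fam d) (h : ℝ) (L : ℕ) (f : (boxS d L → F.V) → ℂ) :
    F.Pn h L 0 f = f := by
  funext G
  unfold Fam.Pn
  have : IsProbabilityMeasure (PI (F.mu L)) := by unfold PI; infer_instance
  simp [traj]

/-- `m` contractions -/
private theorem Obe1b_contr {F : Fam d} {k q s α θ : ℝ} {L : ℕ} {h CL ε0 : ℝ} {nB : ℕ}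
    (hCL : 1 ≤ CL) (he : 0 < ε0)
    (hS : Obe1b_Step F k q s α θ L h CL ε0 (1 / 2) nB) {σ : ℝ} :
    ∀ (m Q : ℕ) (f : (boxS d L → F.V) → ℂ),
      Obe1b_Good F k q s α θ L σ (Obe1b_e CL ε0 Q) f →
      Obe1b_Good F k q s α θ L ((1 / 2) ^ m * σ) (Obe1b_e CL ε0 (Q + m)) (F.Pn h L (m * nB) f) := by
  intro m
  induction m with
  | zero =>
    intro Q f hf
    have h0 : F.Pn h L (0 * nB) f = f := by rw [Nat.zero_mul]; exact Obe1b_Pn_zero F h L f
    rw [h0]
    simpa using hf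
  | succ m ih =>
    intro Q f hf
    have h1 := ih Q f hf
    have h2 := Obe1b_Good_step hS (by norm_num) (Obe1b_e_nonneg hCL he _) h1
    have h3 : F.Pn h L ((m + 1) * nB) f = F.Pn h L nB (F.Pn h L (m * nB) f) := by
      rw [show (m + 1) * nB = nB + m * nB by ring]
      exact Fam_Pn_add F h L nB (m * nB) f hf.1 hf.2.1
    rw [h3]
    refine Obe1b_Good_mono (le_of_eq (by ring)) ?_ h2
    exact Obe1b_e_succ hCL he (Q + m)

/-- general number of steps -/
private theorem Obe1b_gen {F : Fam d} {k q s α θ : ℝ} {L : ℕ} {h CL ε0 Cg : ℝ} {nB : ℕ}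
    (hnB : 0 < nB) (hCL : 1 ≤ CL) (he : 0 < ε0) (hCg : 1 ≤ Cg)
    (hS : Obe1b_Step F k q s α θ L h CL ε0 (1 / 2) nB)
    (hG : ∀ n, n ≤ nB → Obe1b_Step F k q s α θ L h CL ε0 Cg n) {σ : ℝ}
    (n Q : ℕ) (f : (boxS d L → F.V) → ℂ)
    (hf : Obe1b_Good F k q s α θ L σ (Obe1b_e CL ε0 Q) f) :
    Obe1b_Good F k q s α θ L (Cg * ((1 / 2) ^ (n / nB) * σ)) (Obe1b_e CL ε0 (Q + n / nB + 1))
      (F.Pn h L n f) := by
  have h1 := Obe1b_contr hCL he hS (n / nB) Q f hf
  have h2 : n % nB ≤ nB := (Nat.mod_lt n hnB).le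
  have h3 := Obe1b_Good_step (hG _ h2) (by linarith) (Obe1b_e_nonneg hCL he _) h1
  have h4 : F.Pn h L n f = F.Pn h L (n % nB) (F.Pn h L (n / nB * nB) f) := by
    rw [← Fam_Pn_add F h L (n % nB) (n / nB * nB) f hf.1 hf.2.1]
    congr 1
    rw [Nat.mul_comm]
    exact (Nat.mod_add_div n nB).symm
  rw [h4]
  refine Obe1b_Good_mono le_rfl ?_ h3
  exact Obe1b_e_succ hCL he (Q + n / nB)

/-- sums of weights after `r` test functions -/
private noncomputable def Obe1b_sig (B Cg : ℝ) : ℕ → ℝ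
  | 0 => 0
  | r + 1 => B + Cg * Obe1b_sig B Cg r

private theorem Obe1b_sig_nonneg {B Cg : ℝ} (hB : 0 ≤ B) (hCg : 1 ≤ Cg) (r : ℕ) :
    0 ≤ Obe1b_sig B Cg r := by
  induction r with
  | zero => simp [Obe1b_sig]
  | succ r ih => unfold Obe1b_sig; nlinarith

private theorem Obe1b_sig_mono {B Cg : ℝ} (hB : 0 ≤ B) (hCg : 1 ≤ Cg) :
    Monotone (Obe1b_sig B Cg) := by
  refine monotone_nat_of_le_succ fun r => ?_
  have := Obe1b_sig_nonneg hB hCg r
  show Obe1b_sig B Cg r ≤ B + Cg * Obe1b_sig B Cg r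
  nlinarith

/-- product with a test function -/
private theorem Obe1b_mul {F : Fam d} {k q s α θ : ℝ} {L : ℕ} {σ1 σ2 ε : ℝ}
    (hε : 0 ≤ ε) {f g : (boxS d L → F.V) → ℂ}
    (hf : Obe1b_Good F k q s α θ L σ1 0 f) (hg : Obe1b_Good F k q s α θ L σ2 ε g) :
    Obe1b_Good F k q s α θ L (σ1 + σ2) ε (fun G => f G * g G) := by
  obtain ⟨h1, h2, A, h3, h4, h5⟩ := hf
  obtain ⟨g1, g2, A', g3, g4, g5⟩ := hg
  refine ⟨h1.mul g1, fun G => ?_, A + A', fun x => add_nonneg (h3 x) (g3 x), ?_, ?_⟩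
  · rw [norm_mul]
    exact mul_le_one₀ (h2 G) (norm_nonneg _) (g2 G)
  · simp only [Pi.add_apply, Finset.sum_add_distrib]
    linarith
  · have := Cls_mul k q s α θ A A' h3 g3 0 ε le_rfl hε f g h2 g2 h5 g5
    rwa [zero_add] at this

/-- the backward recursion -/
private theorem Obe1b_path {F : Fam d} {k q s α θ : ℝ} {L : ℕ} {h CL ε0 Cg B : ℝ} {nB : ℕ}
    (hnB : 0 < nB) (hCL : 1 ≤ CL) (he : 0 < ε0) (hCg : 1 ≤ Cg) (hB : 0 ≤ B)
    (hS : Obe1b_Step F k q s α θ L h CL ε0 (1 / 2) nB)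
    (hG : ∀ n, n ≤ nB → Obe1b_Step F k q s α θ L h CL ε0 Cg n) :
    ∀ (M : ℕ) (f : ℕ → (boxS d L → F.V) → ℂ) (p : ℕ → ℕ),
      (∀ i, Measurable (f i)) → (∀ i G, ‖f i G‖ ≤ 1) →
      (∀ i, p i = 0 ∧ (f i = fun _ => 1) ∨
        p i = 1 ∧ Obe1b_Good F k q s α θ L B 0 (f i)) →
      ∃ (n : ℕ) (g : (boxS d L → F.V) → ℂ), n ≤ M ∧
        F.pathE h L ((List.range M).map f) = F.Pn h L n g ∧
        Obe1b_Good F k q s α θ L (Obe1b_sig B Cg (∑ i ∈ Finset.range M, p i))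
          (Obe1b_e CL ε0 ((∑ i ∈ Finset.range M, p i) + (M - n) / nB)) g ∧
        (p n = 1 ∨ g = fun _ => 1) := by
  intro M
  induction M with
  | zero =>
    intro f p hm hb hp
    refine ⟨0, fun _ => 1, le_rfl, ?_, ?_, Or.inr rfl⟩
    · rw [Obe1b_Pn_zero]
      rfl
    · refine ⟨measurable_const, fun G => by simp, fun _ => 0, fun _ => le_rfl, ?_, ?_⟩
      · simp [Obe1b_sig]
      · intro G G' y hy
        simp
  | succ M ih =>
    intro f p hm hb hp
    obtain ⟨n, g, hn, hE, hgd, hpn⟩ := ih (fun i => f (i + 1)) (fun i => p (i + 1))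
      (fun i => hm _) (fun i => hb _) (fun i => hp _)
    have hsum : ∑ i ∈ Finset.range (M + 1), p i = (∑ i ∈ Finset.range M, p (i + 1)) + p 0 :=
      Finset.sum_range_succ' _ _
    have hlist : (List.range (M + 1)).map f = f 0 :: (List.range M).map (fun i => f (i + 1)) := by
      rw [List.range_succ_eq_map, List.map_cons, List.map_map]
      rfl
    have hfm : ∀ f' ∈ (List.range M).map (fun i => f (i + 1)), Measurable f' := by
      intro f' hf'
      obtain ⟨i, _, rfl⟩ := List.mem_map.1 hf'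
      exact hm _
    have hfb : ∀ f' ∈ (List.range M).map (fun i => f (i + 1)), ∀ G, ‖f' G‖ ≤ 1 := by
      intro f' hf'
      obtain ⟨i, _, rfl⟩ := List.mem_map.1 hf'
      exact hb _
    -- one step
    have hone : F.pathE h L ((fun _ => 1) :: (List.range M).map (fun i => f (i + 1))) =
        F.Pn h L (n + 1) g := by
      have h1 := pathE_Pn F h L 1 ((List.range M).map (fun i => f (i + 1))) hfm hfb
      rw [show List.replicate 1 (fun _ : boxS d L → F.V => (1 : ℂ)) ++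
        (List.range M).map (fun i => f (i + 1)) =
        (fun _ => 1) :: (List.range M).map (fun i => f (i + 1)) from rfl] at h1
      rw [h1, hE, Nat.add_comm n 1]
      exact (Fam_Pn_add F h L 1 n g hgd.1 hgd.2.1).symm
    have hcons : F.pathE h L ((List.range (M + 1)).map f) =
        fun G => f 0 G * F.Pn h L (n + 1) g G := by
      rw [hlist, ← hone]
      funext G
      show f 0 G * _ = f 0 G * (1 * _)
      rw [one_mul]
    rcases hp 0 with ⟨hp0, hf0⟩ | ⟨hp0, hf0⟩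
    · refine ⟨n + 1, g, by omega, ?_, ?_, hpn⟩
      · rw [hcons, hf0]
        funext G
        exact one_mul _
      · rw [hsum, hp0, Nat.add_zero, Nat.add_sub_add_right]
        exact hgd
    · refine ⟨0, fun G => f 0 G * F.Pn h L (n + 1) g G, Nat.zero_le _, ?_, ?_, Or.inl hp0⟩
      · rw [Obe1b_Pn_zero, hcons]
      · have h1 := Obe1b_gen hnB hCL he hCg hS hG (n + 1) _ g hgd
        have h2 := Obe1b_mul (Obe1b_e_nonneg hCL he _) hf0 h1
        rw [hsum, hp0]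
        refine Obe1b_Good_mono ?_ ?_ h2
        · show _ ≤ B + Cg * Obe1b_sig B Cg (∑ i ∈ Finset.range M, p (i + 1))
          have h3 := Obe1b_sig_nonneg hB hCg (∑ i ∈ Finset.range M, p (i + 1))
          have h4 : (1 / 2 : ℝ) ^ ((n + 1) / nB) ≤ 1 :=
            pow_le_one₀ (by norm_num) (by norm_num)
          have h5 : (1 / 2 : ℝ) ^ ((n + 1) / nB) *
              Obe1b_sig B Cg (∑ i ∈ Finset.range M, p (i + 1)) ≤
              Obe1b_sig B Cg (∑ i ∈ Finset.range M, p (i + 1)) :=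
            mul_le_of_le_one_left h3 h4
          have h6 := mul_le_mul_of_nonneg_left h5 (by linarith : (0 : ℝ) ≤ Cg)
          linarith
        · refine Obe1b_e_mono hCL he ?_
          have h3 : (M - n) / nB + (n + 1) / nB ≤ (M + 1 - 0) / nB := by
            have := @Nat.div_add_div_le_add_div (M - n) (n + 1) nB
            rw [show M - n + (n + 1) = M + 1 - 0 by omega] at this
            exact this
          omega

private theorem Obe1b_rpow {t θ : ℝ} (ht : 0 ≤ t) (hθ : 0 < θ) (hθ1 : θ ≤ 1) :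
    min 1 t ≤ t ^ θ := by
  rcases le_total t 1 with h | h
  · refine (min_le_right _ _).trans ?_
    rcases ht.eq_or_lt with h0 | h0
    · rw [← h0]; exact Real.rpow_nonneg le_rfl _
    · calc t = t ^ (1 : ℝ) := (Real.rpow_one t).symm
        _ ≤ t ^ θ := Real.rpow_le_rpow_of_exponent_ge h0 h hθ1
  · exact (min_le_left _ _).trans (Real.one_le_rpow h hθ.le)

/-- test functions -/
private theorem Obe1b_test {F : Fam d} {k q s α θ : ℝ} {L R : ℕ} {CF : ℝ} (hCF : 0 ≤ CF)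
    (hθ : 0 < θ) (hθ1 : θ ≤ 1)
    (hone : ∀ (G G' : boxS d L → F.V) (x : boxS d L), 1 ≤ wpr (boxNet d L) k q s α G G' x)
    (f : (boxS d L → F.V) → ℂ) (hm : Measurable f) (hb : ∀ G, ‖f G‖ ≤ 1)
    (hf : ∀ G G' : boxS d L → F.V, ‖f G - f G'‖ ≤
        CF * ∑ x : boxS d L, (if l1 (x : Fin d → ℤ) 0 ≤ R then min 1 ‖G x - G' x‖ else 0)) :
    Obe1b_Good F k q s α θ L (CF * (boxS d R).card) 0 f := by
  classical
  refine ⟨hm, hb, fun y => if l1 (y : Fin d → ℤ) 0 ≤ R then CF else 0, fun x => ?_, ?_, ?_⟩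
  · dsimp only
    split_ifs
    · exact hCF
    · exact le_rfl
  · rw [← Finset.sum_filter, Finset.sum_const, nsmul_eq_mul, mul_comm]
    refine mul_le_mul_of_nonneg_left ?_ hCF
    have h1 : (Finset.univ.filter (fun y : boxS d L => l1 (y : Fin d → ℤ) 0 ≤ R)).card ≤
        (boxS d R).card := by
      refine Finset.card_le_card_of_injOn (fun y => (y : Fin d → ℤ)) ?_ ?_
      · intro y hy
        have hy' : l1 (y : Fin d → ℤ) 0 ≤ R := by simpa using hy
        show (y : Fin d → ℤ) ∈ (boxS d R : Set _)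
        rw [Finset.mem_coe]
        unfold boxS
        rw [Finset.mem_Icc]
        have h2 : ∀ i, ((y : Fin d → ℤ) i).natAbs ≤ R := by
          intro i
          unfold l1 at hy'
          have := Finset.single_le_sum
            (f := fun i => ((y : Fin d → ℤ) i - (0 : Fin d → ℤ) i).natAbs)
            (fun _ _ => Nat.zero_le _) (Finset.mem_univ i)
          simp only [Pi.zero_apply, sub_zero] at this hy'
          omega
        constructor
        · intro i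
          have := h2 i
          show -(R : ℤ) ≤ (y : Fin d → ℤ) i
          omega
        · intro i
          have := h2 i
          show (y : Fin d → ℤ) i ≤ (R : ℤ)
          omega
      · intro a _ b _ hab
        exact Subtype.ext hab
    exact_mod_cast h1
  · intro G G' y hy
    have h1 : ∑ x : boxS d L, (if l1 (x : Fin d → ℤ) 0 ≤ R then min 1 ‖G x - G' x‖ else 0) =
        (if l1 (y : Fin d → ℤ) 0 ≤ R then min 1 ‖G y - G' y‖ else 0) := by
      refine Finset.sum_eq_single y (fun x _ hx => ?_) (fun h => absurd (Finset.mem_univ y) h)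
      rw [hy x hx, sub_self, norm_zero]
      simp
    have h2 : ‖f G - f G'‖ ≤
        (if l1 (y : Fin d → ℤ) 0 ≤ R then CF else 0) * ‖G y - G' y‖ ^ θ := by
      refine (hf G G').trans ?_
      rw [h1]
      split_ifs
      · exact mul_le_mul_of_nonneg_left (Obe1b_rpow (norm_nonneg _) hθ hθ1) hCF
      · simp
    calc ENNReal.ofReal ‖f G - f G'‖
        ≤ ENNReal.ofReal ((if l1 (y : Fin d → ℤ) 0 ≤ R then CF else 0) * ‖G y - G' y‖ ^ θ) :=
          ENNReal.ofReal_le_ofReal h2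
      _ ≤ ENNReal.ofReal ((if l1 (y : Fin d → ℤ) 0 ≤ R then CF else 0) * ‖G y - G' y‖ ^ θ) *
          wpr (boxNet d L) k q s α G G' y := le_mul_of_one_le_right' (hone G G' y)
      _ ≤ _ := le_self_add

theorem mix_of_obe (F : Fam d) (k q s α θ TB Cg : ℝ) (Ls : ℕ)
    (H : Obe F k q s α θ TB Cg Ls) : F.Mix := by
  classical
  intro ρ1 ρ2 _ _ hρ1 hρ2 hi1 hi2 R J CF δ hCF hδ
  obtain ⟨Ci, hCi, hinit⟩ := H.init ρ1 ρ2 hρ1 hρ2 hi1 hi2
  obtain ⟨L1, hL1⟩ := hinit (δ / 4) (by positivity)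
  set B : ℝ := CF * (boxS d R).card with hBdef
  have hB : 0 ≤ B := by positivity
  have hCg := H.hCg
  have hTB := H.hTB
  set S : ℝ := Obe1b_sig B Cg J with hSdef
  have hS0 : 0 ≤ S := Obe1b_sig_nonneg hB hCg J
  -- number of contractions
  obtain ⟨m, hm⟩ : ∃ m : ℕ, (1 / 2 : ℝ) ^ m * (Ci * Cg * S) ≤ δ / 4 := by
    have h1 : Filter.Tendsto (fun m : ℕ => (1 / 2 : ℝ) ^ m * (Ci * Cg * S)) Filter.atTop
        (nhds (0 * (Ci * Cg * S))) :=
      (tendsto_pow_atTop_nhds_zero_of_lt_one (by norm_num) (by norm_num)).mul_const _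
    rw [zero_mul] at h1
    have h2 := (h1.eventually (gt_mem_nhds (show (0 : ℝ) < δ / 4 by positivity))).exists
    obtain ⟨m, hm⟩ := h2
    exact ⟨m, le_of_lt hm⟩
  refine ⟨m * (TB + 1), max R (max Ls L1), by positivity, le_max_left _ _, ?_⟩
  intro L hL Sm hSm
  have hLs : Ls ≤ L := (le_max_left _ _).trans ((le_max_right _ _).trans hL)
  have hLL1 : L1 ≤ L := (le_max_right _ _).trans ((le_max_right _ _).trans hL)
  obtain ⟨Cc, hCc, hcontr⟩ := H.contr L hLs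
  obtain ⟨Cr, hCr, hgrow⟩ := H.grow L hLs
  obtain ⟨CI, hCI, hI⟩ := hL1 L hLL1 Sm hSm
  set CL : ℝ := max Cc Cr with hCLdef
  have hCL : 1 ≤ CL := hCc.trans (le_max_left _ _)
  set Qm : ℕ := J + ⌈Sm / TB⌉₊ + 1 with hQm
  set ε0 : ℝ := δ / (4 * (CI * (CL ^ Qm * (Qm + 1)))) with hε0def
  have hCIpos : 0 < CI := by linarith
  have hCLpos : 0 < CL := by linarith
  have hden : 0 < 4 * (CI * (CL ^ Qm * ((Qm : ℝ) + 1))) := by positivity
  have hε0 : 0 < ε0 := by positivity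
  have hfin : CI * Obe1b_e CL ε0 Qm ≤ δ / 4 := by
    unfold Obe1b_e
    have h1 : CI * (CL ^ Qm * (Qm : ℝ) * ε0) ≤ CI * (CL ^ Qm * ((Qm : ℝ) + 1)) * ε0 := by
      have h2 : CL ^ Qm * (Qm : ℝ) ≤ CL ^ Qm * ((Qm : ℝ) + 1) :=
        mul_le_mul_of_nonneg_left (by linarith) (by positivity)
      calc CI * (CL ^ Qm * (Qm : ℝ) * ε0) = CI * (CL ^ Qm * (Qm : ℝ)) * ε0 := by ring
        _ ≤ CI * (CL ^ Qm * ((Qm : ℝ) + 1)) * ε0 :=
          mul_le_mul_of_nonneg_right (mul_le_mul_of_nonneg_left h2 hCIpos.le) hε0.le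
    refine h1.trans (le_of_eq ?_)
    rw [hε0def]
    field_simp
  obtain ⟨hc, hc0, hcc⟩ := hcontr ε0 hε0
  obtain ⟨hg, hg0, hgg⟩ := hgrow ε0 hε0
  obtain ⟨hi, hi0, hii⟩ := hI (δ / 4) (by positivity)
  refine ⟨min (min hc hg) (min hi 1), by positivity, ?_⟩
  intro h hh0 hh n1 n2 M hn1 hn2 hM f I hIc hfm hfb hf1 hfI
  have hhc : h < hc := hh.trans_le ((min_le_left _ _).trans (min_le_left _ _))
  have hhg : h < hg := hh.trans_le ((min_le_left _ _).trans (min_le_right _ _))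
  have hhi : h < hi := hh.trans_le ((min_le_right _ _).trans (min_le_left _ _))
  have hh1 : h < 1 := hh.trans_le ((min_le_right _ _).trans (min_le_right _ _))
  set nB : ℕ := ⌈TB / h⌉₊ with hnBdef
  have hnB : 0 < nB := Nat.ceil_pos.2 (by positivity)
  have hnBlo : TB / h ≤ nB := Nat.le_ceil _
  have hnBhi : (nB : ℝ) < TB / h + 1 := Nat.ceil_lt_add_one (by positivity)
  -- steps
  have hStepC : Obe1b_Step F k q s α θ L h CL ε0 (1 / 2) nB := by
    intro A ε g hA hε hgm hgb hg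
    obtain ⟨A', h1, h2, h3⟩ := hcc h hh0 hhc A ε g hA hε hgm hgb hg
    refine ⟨A', h1, h2, Obe1b_mono ?_ h3⟩
    have := mul_le_mul_of_nonneg_right (le_max_left Cc Cr) hε
    linarith
  have hStepG : ∀ n, n ≤ nB → Obe1b_Step F k q s α θ L h CL ε0 Cg n := by
    intro n hn A ε g hA hε hgm hgb hg
    obtain ⟨A', h1, h2, h3⟩ := hgg h hh0 hhg A ε g hA hε hgm hgb hg n hn
    refine ⟨A', h1, h2, Obe1b_mono ?_ h3⟩
    have := mul_le_mul_of_nonneg_right (le_max_right Cc Cr) hε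
    linarith
  -- the path
  obtain ⟨n, g, hnM, hE, hgd, hpn⟩ := Obe1b_path hnB hCL hε0 hCg hB hStepC hStepG M f
    (fun i => if i ∈ I then 1 else 0) hfm hfb (by
      intro i
      by_cases hi : i ∈ I
      · right
        refine ⟨by simp [hi], ?_⟩
        exact Obe1b_test hCF H.hθ H.hθ1 (H.one_le L) (f i) (hfm i) (hfb i) (hfI i hi).2
      · left
        exact ⟨by simp [hi], hf1 i hi⟩)
  have hr : (∑ i ∈ Finset.range M, if i ∈ I then 1 else 0) ≤ J := by
    rw [← Finset.sum_filter, Finset.sum_const, smul_eq_mul, mul_one]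
    refine (Finset.card_le_card ?_).trans hIc
    intro i hi
    exact (Finset.mem_filter.1 hi).2
  rcases hpn with hpn | hpn
  · -- `n ∈ I`
    have hnI : n ∈ I := by
      by_contra hcon
      simp [hcon] at hpn
    have hT := (hfI n hnI).1
    have h1 := Obe1b_gen hnB hCL hε0 hCg hStepC hStepG n _ g hgd
    rw [← hE] at h1
    have hnm : m ≤ n / nB := by
      rw [Nat.le_div_iff_mul_le hnB]
      have h2 : (nB : ℝ) * h ≤ TB + 1 := by
        have := mul_lt_mul_of_pos_right hnBhi hh0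
        rw [add_mul, div_mul_cancel₀ _ hh0.ne'] at this
        linarith
      have h3 : (m : ℝ) * nB * h ≤ n * h := by
        calc (m : ℝ) * nB * h = m * (nB * h) := by ring
          _ ≤ m * (TB + 1) := mul_le_mul_of_nonneg_left h2 (by positivity)
          _ ≤ n * h := hT
      have h4 : (m : ℝ) * nB ≤ n := le_of_mul_le_mul_right h3 hh0
      exact_mod_cast h4
    have hMB : M / nB ≤ ⌈Sm / TB⌉₊ := by
      have h2 : ((M / nB : ℕ) : ℝ) ≤ Sm / TB := by
        refine Nat.cast_div_le.trans ?_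
        rw [div_le_div_iff₀ (by exact_mod_cast hnB) hTB]
        have h3 : TB ≤ nB * h := by
          rw [div_le_iff₀ hh0] at hnBlo
          exact hnBlo
        calc (M : ℝ) * TB ≤ M * (nB * h) := mul_le_mul_of_nonneg_left h3 (by positivity)
          _ = (M * h) * nB := by ring
          _ ≤ Sm * nB := mul_le_mul_of_nonneg_right hM (by positivity)
      have h4 := h2.trans (Nat.le_ceil (Sm / TB))
      exact_mod_cast h4
    have hQ : (∑ i ∈ Finset.range M, if i ∈ I then 1 else 0) + (M - n) / nB + n / nB + 1 ≤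
        Qm := by
      have h2 : (M - n) / nB + n / nB ≤ M / nB := by
        have := @Nat.div_add_div_le_add_div (M - n) n nB
        rwa [show M - n + n = M by omega] at this
      omega
    have h2 : Obe1b_Good F k q s α θ L (Cg * ((1 / 2) ^ m * S)) (Obe1b_e CL ε0 Qm)
        (F.pathE h L ((List.range M).map f)) := by
      refine Obe1b_Good_mono ?_ (Obe1b_e_mono hCL hε0 hQ) h1
      refine mul_le_mul_of_nonneg_left ?_ (by linarith)
      have h3 : (1 / 2 : ℝ) ^ (n / nB) ≤ (1 / 2) ^ m :=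
        pow_le_pow_of_le_one (by norm_num) (by norm_num) hnm
      have h4 := Obe1b_sig_mono hB hCg hr
      have h5 := Obe1b_sig_nonneg hB hCg (∑ i ∈ Finset.range M, if i ∈ I then 1 else 0)
      exact mul_le_mul h3 h4 h5 (by positivity)
    obtain ⟨h3, h4, A, h5, h6, h7⟩ := h2
    have h8 := hii h hh0 hhi n1 n2 hn1 hn2 A _ _ h5 (Obe1b_e_nonneg hCL hε0 _) h3 h4 h7
    refine h8.trans ?_
    have h9 : Ci * ∑ x, A x ≤ δ / 4 := by
      calc Ci * ∑ x, A x ≤ Ci * (Cg * ((1 / 2) ^ m * S)) := mul_le_mul_of_nonneg_left h6 hCi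
        _ = (1 / 2 : ℝ) ^ m * (Ci * Cg * S) := by ring
        _ ≤ δ / 4 := hm
    linarith
  · -- constant
    have h1 : F.pathE h L ((List.range M).map f) = fun _ => 1 := by
      rw [hE, hpn]
      funext G
      unfold Fam.Pn
      have : IsProbabilityMeasure (PI (F.mu L)) := by unfold PI; infer_instance
      simp
    rw [h1]
    simp
    exact hδ.le

end DynC
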