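import Pool.Agent.Lib_MP_36b788c.Obe2
import Pool.Agent.Lib_MP_36b788g.FPair
import Pool.Agent.Lib_MP_36b788g.FWpr

/-!
# From pair estimates to the block inequalities

`Blk`: all estimates for one fixed `k` (constants as parameters). `n_B = ⌈TB/h⌉`.

PROOF.
* `tele`: `f ∈ Cls A ε`, arbitrary `G, G'`: `‖f G - f G'‖ ≤ Σ_x 4 A(x) ‖D(x)‖^θ wpr G G' x + 2|box| ε (1 + 2Σ(‖G‖+‖G'‖))`. Path from `G` to `G'` through the sitewise larger
  configuration `M` (`M x = G x` if `‖G' x‖ ≤ ‖G x‖`, else `G' x`): first change, one after the other, the sites with `‖G x‖ < ‖G' x‖` from `G x` to `G' x`, then the others. Every site is changed once.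
  On the first leg the intermediate configurations `H` satisfy `‖H z‖ ≥ ‖G z‖`, `‖H z‖ ≤ max(‖G z‖,‖G' z‖)`, so for two consecutive ones `t = ‖H‖+‖H'‖ ≤ 2(‖G‖+‖G'‖)`, `SSt(t) ≤ 2 SSt(‖G‖+‖G'‖)`, `fpot` is
  monotone, hence `Tz(H,t) ≥ 2^{-q} Tz(G)`, `Vp(H,t)(z) ≤ 2^{qs} Vp_G(z)` and `wpr(H,H') ≤ 2^{1+qs} wpr(G,G') ≤ 4 wpr(G,G')` (`qs ≤ 1`). Second leg: the same with `G'`. Sums of norms of intermediate configurations are `≤ Σ(‖G‖+‖G'‖)`.
* `blk_pair`: pair `(G,G')` differing only at `y`, `n ≤ n_B`: `‖P^n f G - P^n f G'‖ ≤ E‖f G_n - f G'_n‖` (marginals `marg1, marg2`: the law of the first component of `tr n` is the law of the chain, by induction) `≤ E[tele; alv] + 2P(alv^c)`;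
  `E[D^θ w; alv] ≤ (E[D^{2θ}; alv])^{1/2} (E[w²; alv])^{1/2}`, Minkowski for `w = Σ α^{|x-z|}(V1+V2)(z)`.
  With `gV`: `(E w_n(x)²)^{1/2} ≤ √BV w_0(x)`. With `ly` at `n = n_B`: `≤ κ' w_0(x) + 2 CV Σ_z α^{|x-z|}`. `w_0(x) ≤ α^{-|x-y|} w_0(y)`.
* `contr`: if `wpr G G' y < K`: `good`. Otherwise `κ' w_0(x) + 2 CV Cα ≤ (κ' α^{-|x-y|} + 2 CV Cα/K) w_0(y)`. So `P^{n_B} f ∈ Cls A' …` with `A'(y) = Σ_x A(x) max(c_good(x,y), c_bad(x,y))`, bounded by the sum of both,
  `c_bad(x,y) = 4 √BD e^{-(3/4)a|x-y|} (κ' α^{-|x-y|} + 2 CV Cα/K)`, `Σ_y (c_good + c_bad)(x,y) ≤ 1/2` by `num`.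
* `grow`: `c(x,y) = 4 √BD e^{-(3/4)a|x-y|} √BV α^{-|x-y|}`.
* additive terms: `2P(alv^c) ≤ 2ε0 (1+Σ)` (exit), `E(1+Σ(‖G_n‖+‖G'_n‖)) ≤ C(1+Σ)` (sum).
-/

open MeasureTheory ProbabilityTheory
open scoped ENNReal

namespace DynC

open Dyn

variable {d : ℕ}

private theorem Obe2b_cs {Ω : Type} [MeasurableSpace Ω] (μ : Measure Ω) (f g : Ω → ℝ≥0∞)
    (hf : Measurable f) (hg : Measurable g) :
    ∫⁻ ω, f ω * g ω ∂μ ≤ (∫⁻ ω, f ω ^ 2 ∂μ) ^ (1 / 2 : ℝ) * (∫⁻ ω, g ω ^ 2 ∂μ) ^ (1 / 2 : ℝ) := by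
  have h := ENNReal.lintegral_mul_le_Lp_mul_Lq μ Real.HolderConjugate.two_two hf.aemeasurable
    hg.aemeasurable
  simpa [Pi.mul_apply, ENNReal.rpow_two] using h

private theorem Obe2b_sqrt {x : ℝ} (hx : 0 ≤ x) :
    ENNReal.ofReal x ^ (1 / 2 : ℝ) = ENNReal.ofReal (Real.sqrt x) := by
  rw [ENNReal.ofReal_rpow_of_nonneg hx (by norm_num), Real.sqrt_eq_rpow]

private theorem Obe2b_pair {F : Fam d} {β k : ℝ} (S : PSys F β k) {h : ℝ} {L n : ℕ}
    {q s a θ BD cd κ1 CV1 : ℝ} (hk : 0 < k) (hk1 : k < 1) (hq : 1 ≤ q) (hs : 0 < s)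
    (hqs : q * s ≤ 1) (ha : 0 < a) (hθ : 0 < θ) (hBD : 1 ≤ BD) (hκ1 : 0 ≤ κ1) (hCV1 : 0 ≤ CV1)
    (hcd : ∀ x : boxS d L, ∑ z, Real.exp (-(a / 8)) ^ (boxNet d L).dist x z ≤ cd)
    (A : boxS d L → ℝ) (hA : ∀ x, 0 ≤ A x) (ε : ℝ) (he : 0 ≤ ε)
    (f : (boxS d L → F.V) → ℂ) (hm : Measurable f) (hb : ∀ G, ‖f G‖ ≤ 1)
    (hf : Cls (boxNet d L) k q s (Real.exp (-(a / 8))) θ A ε f)
    (G : (boxS d L → F.V) × (boxS d L → F.V)) (y : boxS d L)
    (hV : ∀ z, ∫⁻ ω in S.alv h L G n, V1 k q s (S.tr h L G ω n) z ^ 2 ∂(PI (S.mu L)) ≤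
        (ENNReal.ofReal κ1 * V1 k q s G z + ENNReal.ofReal CV1) ^ 2 ∧
      ∫⁻ ω in S.alv h L G n, V2 k q s (S.tr h L G ω n) z ^ 2 ∂(PI (S.mu L)) ≤
        (ENNReal.ofReal κ1 * V2 k q s G z + ENNReal.ofReal CV1) ^ 2)
    (hD : ∀ x, ∫⁻ ω in S.alv h L G n, ENNReal.ofReal
          (‖(S.tr h L G ω n).1 x - (S.tr h L G ω n).2 x‖ ^ (2 * θ)) ∂(PI (S.mu L))
        ≤ ENNReal.ofReal (BD * Real.exp (-(3 / 2 * a * (boxNet d L).dist x y)) *
            ‖G.1 y - G.2 y‖ ^ (2 * θ))) :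
    ENNReal.ofReal ‖F.Pn h L n f G.1 - F.Pn h L n f G.2‖ ≤
      ∑ x, ENNReal.ofReal (4 * A x * (Real.sqrt BD *
          Real.exp (-(3 / 4 * a * (boxNet d L).dist x y)) * ‖G.1 y - G.2 y‖ ^ θ)) *
          (ENNReal.ofReal (κ1 * Real.exp (a / 8 * (boxNet d L).dist x y)) *
            wpr (boxNet d L) k q s (Real.exp (-(a / 8))) G.1 G.2 y +
            ENNReal.ofReal (2 * CV1 * cd)) +
        (ENNReal.ofReal (2 * (Fintype.card (boxS d L)) * ε) *
          (1 + 2 * ∫⁻ ω, ENNReal.ofReal (∑ x, (‖(S.tr h L G ω n).1 x‖ +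
            ‖(S.tr h L G ω n).2 x‖)) ∂(PI (S.mu L))) + 2 * PI (S.mu L) (S.alv h L G n)ᶜ) := by
  refine (DynG.pn_pair S h L n q s (Real.exp (-(a / 8))) θ hk hk1 hq hs hqs (Real.exp_pos _).le hθ
    A hA ε he f hm hb hf G).trans ?_
  refine add_le_add (Finset.sum_le_sum fun x _ => ?_) le_rfl
  have hT : Measurable fun ω : ℕ → boxS d L → S.Ωp => S.tr h L G ω n :=
    (measurable_tr S h L n).comp (measurable_const.prodMk measurable_id)
  have hw : Measurable fun ω : ℕ → boxS d L → S.Ωp =>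
      wpr (boxNet d L) k q s (Real.exp (-(a / 8))) (S.tr h L G ω n).1 (S.tr h L G ω n).2 x :=
    (DynG.measurable_wpr k q s (Real.exp (-(a / 8))) x).comp hT
  have hd1 : Measurable fun ω : ℕ → boxS d L → S.Ωp =>
      ‖(S.tr h L G ω n).1 x - (S.tr h L G ω n).2 x‖ := by
    have h1 : Measurable fun ω : ℕ → boxS d L → S.Ωp => (S.tr h L G ω n).1 x :=
      (measurable_pi_apply x).comp (measurable_fst.comp hT)
    have h2 : Measurable fun ω : ℕ → boxS d L → S.Ωp => (S.tr h L G ω n).2 x :=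
      (measurable_pi_apply x).comp (measurable_snd.comp hT)
    exact (h1.sub h2).norm
  have hdm : Measurable fun ω : ℕ → boxS d L → S.Ωp =>
      ENNReal.ofReal (‖(S.tr h L G ω n).1 x - (S.tr h L G ω n).2 x‖ ^ θ) :=
    (hd1.pow_const θ).ennreal_ofReal
  have hcs := Obe2b_cs ((PI (S.mu L)).restrict (S.alv h L G n)) _ _ hdm hw
  have hsq : ∀ ω : ℕ → boxS d L → S.Ωp,
      ENNReal.ofReal (‖(S.tr h L G ω n).1 x - (S.tr h L G ω n).2 x‖ ^ θ) ^ 2 =
        ENNReal.ofReal (‖(S.tr h L G ω n).1 x - (S.tr h L G ω n).2 x‖ ^ (2 * θ)) := by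
    intro ω
    rw [← ENNReal.ofReal_pow (Real.rpow_nonneg (norm_nonneg _) _), ← Real.rpow_natCast,
      ← Real.rpow_mul (norm_nonneg _)]
    congr 2
    push_cast
    ring
  simp only [hsq] at hcs
  have hD0 : 0 ≤ ‖G.1 y - G.2 y‖ ^ θ := Real.rpow_nonneg (norm_nonneg _) _
  have e1 : (∫⁻ ω in S.alv h L G n, ENNReal.ofReal
      (‖(S.tr h L G ω n).1 x - (S.tr h L G ω n).2 x‖ ^ (2 * θ)) ∂(PI (S.mu L))) ^ (1 / 2 : ℝ) ≤
      ENNReal.ofReal (Real.sqrt BD * Real.exp (-(3 / 4 * a * (boxNet d L).dist x y)) *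
        ‖G.1 y - G.2 y‖ ^ θ) := by
    refine (ENNReal.rpow_le_rpow (hD x) (by norm_num)).trans (le_of_eq ?_)
    rw [Obe2b_sqrt (by positivity)]
    congr 1
    have h1 : BD * Real.exp (-(3 / 2 * a * (boxNet d L).dist x y)) *
        ‖G.1 y - G.2 y‖ ^ (2 * θ) =
        BD * (Real.exp (-(3 / 4 * a * (boxNet d L).dist x y)) * ‖G.1 y - G.2 y‖ ^ θ) ^ 2 := by
      rw [mul_pow, ← Real.exp_nat_mul, ← Real.rpow_natCast (‖G.1 y - G.2 y‖ ^ θ),
        ← Real.rpow_mul (norm_nonneg _)]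
      have i1 : -(3 / 2 * a * ((boxNet d L).dist x y : ℝ)) =
          ((2 : ℕ) : ℝ) * -(3 / 4 * a * ((boxNet d L).dist x y : ℝ)) := by push_cast; ring
      have i2 : 2 * θ = θ * ((2 : ℕ) : ℝ) := by push_cast; ring
      rw [i1, i2]
      ring
    rw [h1, Real.sqrt_mul (by linarith), Real.sqrt_sq (by positivity)]
    ring
  have e2 := DynG.wpr_l2 (PI (S.mu L)) (S.alv h L G n) (measurableSet_alv S h L G n)
    (fun ω => S.tr h L G ω n) hT k q s a κ1 CV1 cd hκ1 hCV1 hcd G hV x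
  have e3 := DynG.wpr_shift k q s a ha.le G.1 G.2 x y
  have e4 : (∫⁻ ω in S.alv h L G n, wpr (boxNet d L) k q s (Real.exp (-(a / 8)))
      (S.tr h L G ω n).1 (S.tr h L G ω n).2 x ^ 2 ∂(PI (S.mu L))) ^ (1 / 2 : ℝ) ≤
      ENNReal.ofReal (κ1 * Real.exp (a / 8 * (boxNet d L).dist x y)) *
            wpr (boxNet d L) k q s (Real.exp (-(a / 8))) G.1 G.2 y +
            ENNReal.ofReal (2 * CV1 * cd) := by
    refine e2.trans (add_le_add ?_ le_rfl)
    rw [ENNReal.ofReal_mul hκ1, mul_assoc]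
    exact mul_le_mul_right e3 _
  calc _ ≤ ENNReal.ofReal (4 * A x) *
        (ENNReal.ofReal (Real.sqrt BD * Real.exp (-(3 / 4 * a * (boxNet d L).dist x y)) *
          ‖G.1 y - G.2 y‖ ^ θ) *
        (ENNReal.ofReal (κ1 * Real.exp (a / 8 * (boxNet d L).dist x y)) *
            wpr (boxNet d L) k q s (Real.exp (-(a / 8))) G.1 G.2 y +
            ENNReal.ofReal (2 * CV1 * cd))) :=
        mul_le_mul_right (hcs.trans (mul_le_mul' e1 e4)) _
    _ = _ := by
        rw [← mul_assoc, ← ENNReal.ofReal_mul (by have := hA x; positivity)]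

private theorem Obe2b_add {F : Fam d} {β k : ℝ} (S : PSys F β k)
    {q s a θ TB BD BV κ' CV K cd : ℝ} {Ls : ℕ} (B : Blk S q s a θ TB BD BV κ' CV K cd Ls)
    (L : ℕ) : ∃ CL : ℝ, 1 ≤ CL ∧ ∀ ε0 : ℝ, 0 < ε0 → ∃ h0 : ℝ, 0 < h0 ∧
    ∀ h, 0 < h → h < h0 → ∀ (G : (boxS d L → F.V) × (boxS d L → F.V)) (ε : ℝ), 0 ≤ ε →
    ∀ n, n ≤ ⌈TB / h⌉₊ →
      ENNReal.ofReal (2 * (Fintype.card (boxS d L)) * ε) *
          (1 + 2 * ∫⁻ ω, ENNReal.ofReal (∑ x, (‖(S.tr h L G ω n).1 x‖ +
            ‖(S.tr h L G ω n).2 x‖)) ∂(PI (S.mu L))) + 2 * PI (S.mu L) (S.alv h L G n)ᶜ ≤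
        ENNReal.ofReal ((CL * ε + ε0) * (1 + ∑ x, (‖G.1 x‖ + ‖G.2 x‖))) := by
  have hTB := B.hTB
  obtain ⟨C, h1, hC, hh1, H1⟩ := B.sum L (TB + 1) (by linarith)
  refine ⟨max 1 (4 * (Fintype.card (boxS d L)) * C), le_max_left _ _, fun ε0 hε0 => ?_⟩
  obtain ⟨h2, hh2, H2⟩ := B.exit L (TB + 1) (ε0 / 2) (by linarith) (by linarith)
  refine ⟨min (min h1 h2) 1, lt_min (lt_min hh1 hh2) one_pos, fun h hh hhlt G ε he n hn => ?_⟩
  have b1 : h < h1 := lt_of_lt_of_le hhlt ((min_le_left _ _).trans (min_le_left _ _))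
  have b2 : h < h2 := lt_of_lt_of_le hhlt ((min_le_left _ _).trans (min_le_right _ _))
  have b3 : h < 1 := lt_of_lt_of_le hhlt (min_le_right _ _)
  have hnh : (n : ℝ) * h ≤ TB + 1 := by
    have c1 : (n : ℝ) ≤ (⌈TB / h⌉₊ : ℝ) := by exact_mod_cast hn
    have c2 : (⌈TB / h⌉₊ : ℝ) < TB / h + 1 := Nat.ceil_lt_add_one (by positivity)
    have c3 := mul_le_mul_of_nonneg_right (c1.trans c2.le) hh.le
    have c4 : (TB / h + 1) * h = TB + h := by field_simp
    linarith
  have H1' := H1 h hh b1 G n hnh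
  have H2' := H2 h hh b2 G n hnh
  set Sg := ∑ x, (‖G.1 x‖ + ‖G.2 x‖) with hSg
  have hSg : 0 ≤ Sg := Finset.sum_nonneg fun x _ => add_nonneg (norm_nonneg _) (norm_nonneg _)
  set N : ℝ := (Fintype.card (boxS d L) : ℝ) with hN
  have hN0 : 0 ≤ N := Nat.cast_nonneg _
  calc _ ≤ ENNReal.ofReal (2 * N * ε) * (1 + 2 * ENNReal.ofReal (C * Sg)) +
        2 * ENNReal.ofReal (ε0 / 2 * (1 + Sg)) := by gcongr
    _ = ENNReal.ofReal (2 * N * ε * (1 + 2 * (C * Sg)) + 2 * (ε0 / 2 * (1 + Sg))) := by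
        rw [ENNReal.ofReal_add (by positivity) (by positivity),
          ENNReal.ofReal_mul (by positivity : (0:ℝ) ≤ 2 * N * ε),
          ENNReal.ofReal_add (by positivity) (by positivity), ENNReal.ofReal_one,
          ENNReal.ofReal_mul (by norm_num : (0:ℝ) ≤ 2),
          ENNReal.ofReal_mul (by norm_num : (0:ℝ) ≤ 2)]
        norm_num
    _ ≤ _ := by
        refine ENNReal.ofReal_le_ofReal ?_
        have i1 : 4 * N * C ≤ max 1 (4 * N * C) := le_max_right _ _
        have i2 : 4 * N * C * ε ≤ max 1 (4 * N * C) * ε := mul_le_mul_of_nonneg_right i1 he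
        have i3 : 4 * N * C * ε * (1 + Sg) ≤ max 1 (4 * N * C) * ε * (1 + Sg) :=
          mul_le_mul_of_nonneg_right i2 (by linarith)
        have i4 : 2 * N * ε ≤ 4 * N * C * ε := by
          have : 0 ≤ N * ε := mul_nonneg hN0 he
          nlinarith
        nlinarith

theorem obe_of_blk {F : Fam d} {β k : ℝ} (S : PSys F β k)
    (q s a θ TB BD BV κ' CV K cd : ℝ) (Ls : ℕ) (B : Blk S q s a θ TB BD BV κ' CV K cd Ls)
    (hinit : ObeInit F k q s (Real.exp (-(a / 8))) θ) :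
    ∃ Cg : ℝ, Obe F k q s (Real.exp (-(a / 8))) θ TB Cg Ls := by
  have hk := B.hk
  have hk1 := B.hk1
  have hq := B.hq
  have hs := B.hs
  have ha := B.ha
  have hθ := B.hθ
  have hTB := B.hTB
  have hBD := B.hBD
  have hBV := B.hBV
  have hκ := B.hκ
  have hCV := B.hCV
  have hK := B.hK
  have hqs1 : q * s ≤ 1 := by
    have := B.hqs
    have : 0 ≤ q * s := by positivity
    linarith
  have hone : ∀ (L : ℕ) (G G' : boxS d L → F.V) (x : boxS d L),
      1 ≤ wpr (boxNet d L) k q s (Real.exp (-(a / 8))) G G' x := by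
    intro L G G' x
    have h1 := (B.vone L (G, G') x).1
    unfold wpr
    refine le_trans ?_ (Finset.single_le_sum (f := fun z => ENNReal.ofReal
      (Real.exp (-(a / 8)) ^ (boxNet d L).dist x z) *
      (Vp (boxNet d L) k q s (fun y => ‖G y‖) (fun y => ‖G y‖ + ‖G' y‖) z +
        Vp (boxNet d L) k q s (fun y => ‖G' y‖) (fun y => ‖G y‖ + ‖G' y‖) z))
      (fun z _ => zero_le) (Finset.mem_univ x))
    rw [(boxNet d L).dist_self, pow_zero, ENNReal.ofReal_one, one_mul]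
    exact h1.trans le_self_add
  have hsumBD : 0 ≤ Real.sqrt BD := Real.sqrt_nonneg _
  have hcdL : ∀ L : ℕ, ∀ x : boxS d L, ∑ y, Real.exp (-(5 / 8 * a)) ^ (boxNet d L).dist x y ≤ cd :=
    fun L x => (B.hcd L x).2
  have hexp58 : ∀ (L : ℕ) (x y : boxS d L), Real.exp (-(3 / 4 * a * (boxNet d L).dist x y)) *
      Real.exp (a / 8 * (boxNet d L).dist x y) =
      Real.exp (-(5 / 8 * a)) ^ (boxNet d L).dist x y := by
    intro L x y
    rw [← Real.exp_add, ← Real.exp_nat_mul]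
    congr 1
    ring
  have hexp34 : ∀ (L : ℕ) (x y : boxS d L), Real.exp (-(3 / 4 * a * (boxNet d L).dist x y)) ≤
      Real.exp (-(5 / 8 * a)) ^ (boxNet d L).dist x y := by
    intro L x y
    rw [← Real.exp_nat_mul]
    refine Real.exp_le_exp.2 ?_
    have : (0 : ℝ) ≤ a * (boxNet d L).dist x y := by positivity
    nlinarith
  refine ⟨max 1 (4 * Real.sqrt BD * Real.sqrt BV * cd),
    { hk := hk
      hk1 := hk1
      hθ := hθ
      hθ1 := by have := B.hθ1; linarith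
      hTB := hTB
      hCg := le_max_left _ _
      one_le := hone
      contr := ?_
      grow := ?_
      init := hinit }⟩
  · -- contraction
    intro L hL
    obtain ⟨CLg, cg, hCLg, hcg0, hcg1, Hg⟩ := B.good L hL
    obtain ⟨CLa, hCLa, Ha⟩ := Obe2b_add S B L
    obtain ⟨hD0, hhD0, HD⟩ := B.gD L hL
    obtain ⟨hl0, hhl0, Hly⟩ := B.ly L hL
    refine ⟨max CLg CLa, hCLg.trans (le_max_left _ _), fun ε0 hε0 => ?_⟩
    obtain ⟨h1, hh1, Hg1⟩ := Hg ε0 hε0
    obtain ⟨h2, hh2, Ha2⟩ := Ha ε0 hε0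
    refine ⟨min (min h1 h2) (min hD0 hl0), lt_min (lt_min hh1 hh2) (lt_min hhD0 hhl0), ?_⟩
    intro h hh hhlt A ε f hA he hm hb hf
    have b1 : h < h1 := lt_of_lt_of_le hhlt ((min_le_left _ _).trans (min_le_left _ _))
    have b2 : h < h2 := lt_of_lt_of_le hhlt ((min_le_left _ _).trans (min_le_right _ _))
    have b3 : h < hD0 := lt_of_lt_of_le hhlt ((min_le_right _ _).trans (min_le_left _ _))
    have b4 : h < hl0 := lt_of_lt_of_le hhlt ((min_le_right _ _).trans (min_le_right _ _))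
    set κb : ℝ := κ' + 2 * CV * cd / K with hκb
    have hcd0 : ∀ x : boxS d L, 0 ≤ cd := fun x =>
      le_trans (Finset.sum_nonneg fun z _ => pow_nonneg (Real.exp_pos _).le _) (B.hcd L x).1
    set cb : boxS d L → boxS d L → ℝ := fun x y => 4 * Real.sqrt BD * κb *
      Real.exp (-(5 / 8 * a)) ^ (boxNet d L).dist x y with hcb
    have hκb0 : ∀ x : boxS d L, 0 ≤ κb := fun x => by
      have := hcd0 x
      positivity
    have hcb0 : ∀ x y, 0 ≤ cb x y := fun x y => by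
      have := hκb0 x
      positivity
    have hcb1 : ∀ x, ∑ y, cb x y ≤ 1 / 4 := by
      intro x
      rw [hcb]
      simp only
      rw [← Finset.mul_sum]
      refine le_trans (mul_le_mul_of_nonneg_left (hcdL L x) ?_) B.num
      have := hκb0 x
      positivity
    refine ⟨fun y => ∑ x, A x * (cg x y + cb x y), ?_, ?_, ?_⟩
    · intro y
      exact Finset.sum_nonneg fun x _ => mul_nonneg (hA x) (add_nonneg (hcg0 x y) (hcb0 x y))
    · rw [Finset.sum_comm, Finset.mul_sum]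
      refine Finset.sum_le_sum fun x _ => ?_
      rw [← Finset.mul_sum, Finset.sum_add_distrib]
      have := mul_le_mul_of_nonneg_left (add_le_add (hcg1 x) (hcb1 x)) (hA x)
      linarith
    · intro G G' y hy
      have hS0 : 0 ≤ 1 + ∑ x, (‖G x‖ + ‖G' x‖) := add_nonneg zero_le_one
        (Finset.sum_nonneg fun x _ => add_nonneg (norm_nonneg _) (norm_nonneg _))
      have hp : 0 ≤ ‖G y - G' y‖ ^ θ := Real.rpow_nonneg (norm_nonneg _) _
      have hε1 : ENNReal.ofReal ((CLg * ε + ε0) * (1 + ∑ x, (‖G x‖ + ‖G' x‖))) ≤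
          ENNReal.ofReal ((max CLg CLa * ε + ε0) * (1 + ∑ x, (‖G x‖ + ‖G' x‖))) := by
        refine ENNReal.ofReal_le_ofReal (mul_le_mul_of_nonneg_right ?_ hS0)
        have := mul_le_mul_of_nonneg_right (le_max_left CLg CLa) he
        linarith
      have hε2 : ENNReal.ofReal ((CLa * ε + ε0) * (1 + ∑ x, (‖G x‖ + ‖G' x‖))) ≤
          ENNReal.ofReal ((max CLg CLa * ε + ε0) * (1 + ∑ x, (‖G x‖ + ‖G' x‖))) := by
        refine ENNReal.ofReal_le_ofReal (mul_le_mul_of_nonneg_right ?_ hS0)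
        have := mul_le_mul_of_nonneg_right (le_max_right CLg CLa) he
        linarith
      rcases lt_or_ge (wpr (boxNet d L) k q s (Real.exp (-(a / 8))) G G' y) (ENNReal.ofReal K) with
        hw | hw
      · -- good
        have h3 := Hg1 h hh b1 A ε f hA he hm hb hf G G' y hy hw
        refine (ENNReal.ofReal_le_ofReal h3).trans ?_
        have hg0 : 0 ≤ ∑ x, A x * cg x y := Finset.sum_nonneg fun x _ => mul_nonneg (hA x) (hcg0 x y)
        rw [ENNReal.ofReal_add (mul_nonneg hg0 hp) (mul_nonneg (by positivity) hS0)]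
        refine add_le_add ?_ hε1
        calc ENNReal.ofReal ((∑ x, A x * cg x y) * ‖G y - G' y‖ ^ θ)
            ≤ ENNReal.ofReal ((∑ x, A x * (cg x y + cb x y)) * ‖G y - G' y‖ ^ θ) := by
              refine ENNReal.ofReal_le_ofReal (mul_le_mul_of_nonneg_right ?_ hp)
              refine Finset.sum_le_sum fun x _ => mul_le_mul_of_nonneg_left ?_ (hA x)
              have := hcb0 x y
              linarith
          _ = ENNReal.ofReal ((∑ x, A x * (cg x y + cb x y)) * ‖G y - G' y‖ ^ θ) * 1 :=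
              (mul_one _).symm
          _ ≤ _ := mul_le_mul_right (hone L G G' y) _
      · -- bad
        have h3 := Obe2b_pair S (h := h) (L := L) (n := ⌈TB / h⌉₊) hk hk1 hq hs hqs1 ha hθ hBD hκ hCV
          (fun x => (B.hcd L x).1) A hA ε he f hm hb hf (G, G') y
          (fun z => Hly h hh b4 (G, G') z) (fun x => HD h hh b3 (G, G') y hy _ le_rfl x)
        refine h3.trans (add_le_add ?_ ((Ha2 h hh b2 (G, G') ε he _ le_rfl).trans hε2))
        have hg0 : 0 ≤ ∑ x, A x * (cg x y + cb x y) :=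
          Finset.sum_nonneg fun x _ => mul_nonneg (hA x) (add_nonneg (hcg0 x y) (hcb0 x y))
        have e1 : ENNReal.ofReal ((∑ x, A x * (cg x y + cb x y)) * ‖G y - G' y‖ ^ θ) =
            ∑ x, ENNReal.ofReal (A x * (cg x y + cb x y) * ‖G y - G' y‖ ^ θ) := by
          rw [Finset.sum_mul, ENNReal.ofReal_sum_of_nonneg]
          intro x _
          exact mul_nonneg (mul_nonneg (hA x) (add_nonneg (hcg0 x y) (hcb0 x y))) hp
        show _ ≤ ENNReal.ofReal ((∑ x, A x * (cg x y + cb x y)) * ‖G y - G' y‖ ^ θ) * _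
        rw [e1, Finset.sum_mul]
        refine Finset.sum_le_sum fun x _ => ?_
        have hcdx := hcd0 x
        have f1 : ENNReal.ofReal (2 * CV * cd) ≤ ENNReal.ofReal (2 * CV * cd / K) *
            wpr (boxNet d L) k q s (Real.exp (-(a / 8))) G G' y := by
          calc ENNReal.ofReal (2 * CV * cd) = ENNReal.ofReal (2 * CV * cd / K) *
                ENNReal.ofReal K := by
                rw [← ENNReal.ofReal_mul (by positivity), div_mul_cancel₀ _ hK.ne']
            _ ≤ _ := mul_le_mul_right hw _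
        calc _ ≤ ENNReal.ofReal (4 * A x * (Real.sqrt BD *
              Real.exp (-(3 / 4 * a * (boxNet d L).dist x y)) * ‖G y - G' y‖ ^ θ)) *
              (ENNReal.ofReal (κ' * Real.exp (a / 8 * (boxNet d L).dist x y)) *
                wpr (boxNet d L) k q s (Real.exp (-(a / 8))) G G' y +
              ENNReal.ofReal (2 * CV * cd / K) *
                wpr (boxNet d L) k q s (Real.exp (-(a / 8))) G G' y) :=
              mul_le_mul_right (add_le_add le_rfl f1) _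
          _ = ENNReal.ofReal (4 * A x * (Real.sqrt BD *
              Real.exp (-(3 / 4 * a * (boxNet d L).dist x y)) * ‖G y - G' y‖ ^ θ) *
              (κ' * Real.exp (a / 8 * (boxNet d L).dist x y) + 2 * CV * cd / K)) *
              wpr (boxNet d L) k q s (Real.exp (-(a / 8))) G G' y := by
              have hAx := hA x
              rw [← add_mul, ← ENNReal.ofReal_add (by positivity) (by positivity), ← mul_assoc,
                ← ENNReal.ofReal_mul (by positivity)]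
          _ ≤ _ := by
              refine mul_le_mul_left (ENNReal.ofReal_le_ofReal ?_) _
              have hAx := hA x
              have g1 := hexp58 L x y
              have g2 := hexp34 L x y
              have g3 : Real.exp (-(3 / 4 * a * (boxNet d L).dist x y)) *
                  (κ' * Real.exp (a / 8 * (boxNet d L).dist x y) + 2 * CV * cd / K) ≤
                  κb * Real.exp (-(5 / 8 * a)) ^ (boxNet d L).dist x y := by
                rw [hκb, mul_add, add_mul]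
                refine add_le_add (le_of_eq ?_) ?_
                · rw [← g1]; ring
                · rw [mul_comm]
                  exact mul_le_mul_of_nonneg_left g2 (by positivity)
              calc 4 * A x * (Real.sqrt BD *
                  Real.exp (-(3 / 4 * a * (boxNet d L).dist x y)) * ‖G y - G' y‖ ^ θ) *
                  (κ' * Real.exp (a / 8 * (boxNet d L).dist x y) + 2 * CV * cd / K) =
                  A x * (4 * Real.sqrt BD) * (Real.exp (-(3 / 4 * a * (boxNet d L).dist x y)) *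
                  (κ' * Real.exp (a / 8 * (boxNet d L).dist x y) + 2 * CV * cd / K)) *
                  ‖G y - G' y‖ ^ θ := by ring
                _ ≤ A x * (4 * Real.sqrt BD) *
                  (κb * Real.exp (-(5 / 8 * a)) ^ (boxNet d L).dist x y) *
                  ‖G y - G' y‖ ^ θ :=
                    mul_le_mul_of_nonneg_right (mul_le_mul_of_nonneg_left g3 (by positivity)) hp
                _ = A x * cb x y * ‖G y - G' y‖ ^ θ := by rw [hcb]; ring
                _ ≤ A x * (cg x y + cb x y) * ‖G y - G' y‖ ^ θ := by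
                    refine mul_le_mul_of_nonneg_right (mul_le_mul_of_nonneg_left ?_ hAx) hp
                    have := hcg0 x y
                    linarith
  · -- growth
    intro L hL
    obtain ⟨CLa, hCLa, Ha⟩ := Obe2b_add S B L
    obtain ⟨hD0, hhD0, HD⟩ := B.gD L hL
    obtain ⟨hV0, hhV0, HV⟩ := B.gV L hL
    refine ⟨CLa, hCLa, fun ε0 hε0 => ?_⟩
    obtain ⟨h2, hh2, Ha2⟩ := Ha ε0 hε0
    refine ⟨min h2 (min hD0 hV0), lt_min hh2 (lt_min hhD0 hhV0), ?_⟩
    intro h hh hhlt A ε f hA he hm hb hf n hn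
    have b2 : h < h2 := lt_of_lt_of_le hhlt (min_le_left _ _)
    have b3 : h < hD0 := lt_of_lt_of_le hhlt ((min_le_right _ _).trans (min_le_left _ _))
    have b4 : h < hV0 := lt_of_lt_of_le hhlt ((min_le_right _ _).trans (min_le_right _ _))
    set cb : boxS d L → boxS d L → ℝ := fun x y => 4 * Real.sqrt BD * Real.sqrt BV *
      Real.exp (-(5 / 8 * a)) ^ (boxNet d L).dist x y with hcb
    have hcb0 : ∀ x y, 0 ≤ cb x y := fun x y => by positivity
    have hcb1 : ∀ x, ∑ y, cb x y ≤ max 1 (4 * Real.sqrt BD * Real.sqrt BV * cd) := by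
      intro x
      rw [hcb]
      simp only
      rw [← Finset.mul_sum]
      exact (mul_le_mul_of_nonneg_left (hcdL L x) (by positivity)).trans (le_max_right _ _)
    refine ⟨fun y => ∑ x, A x * cb x y, ?_, ?_, ?_⟩
    · intro y
      exact Finset.sum_nonneg fun x _ => mul_nonneg (hA x) (hcb0 x y)
    · rw [Finset.sum_comm, Finset.mul_sum]
      refine Finset.sum_le_sum fun x _ => ?_
      rw [← Finset.mul_sum]
      have := mul_le_mul_of_nonneg_left (hcb1 x) (hA x)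
      linarith
    · intro G G' y hy
      have hp : 0 ≤ ‖G y - G' y‖ ^ θ := Real.rpow_nonneg (norm_nonneg _) _
      have hV : ∀ z, ∫⁻ ω in S.alv h L (G, G') n, V1 k q s (S.tr h L (G, G') ω n) z ^ 2
            ∂(PI (S.mu L)) ≤
          (ENNReal.ofReal (Real.sqrt BV) * V1 k q s (G, G') z + ENNReal.ofReal 0) ^ 2 ∧
        ∫⁻ ω in S.alv h L (G, G') n, V2 k q s (S.tr h L (G, G') ω n) z ^ 2 ∂(PI (S.mu L)) ≤
          (ENNReal.ofReal (Real.sqrt BV) * V2 k q s (G, G') z + ENNReal.ofReal 0) ^ 2 := by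
        intro z
        obtain ⟨v1, v2⟩ := HV h hh b4 (G, G') n hn z
        have hsq : ENNReal.ofReal (Real.sqrt BV) ^ 2 = ENNReal.ofReal BV := by
          rw [← ENNReal.ofReal_pow (Real.sqrt_nonneg _), Real.sq_sqrt (by linarith)]
        rw [ENNReal.ofReal_zero, add_zero, add_zero, mul_pow, mul_pow, hsq]
        exact ⟨v1, v2⟩
      have h3 := Obe2b_pair S (h := h) (L := L) (n := n) hk hk1 hq hs hqs1 ha hθ hBD
        (Real.sqrt_nonneg BV) le_rfl
        (fun x => (B.hcd L x).1) A hA ε he f hm hb hf (G, G') y hV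
        (fun x => HD h hh b3 (G, G') y hy n hn x)
      refine h3.trans (add_le_add ?_ (Ha2 h hh b2 (G, G') ε he n hn))
      have e1 : ENNReal.ofReal ((∑ x, A x * cb x y) * ‖G y - G' y‖ ^ θ) =
          ∑ x, ENNReal.ofReal (A x * cb x y * ‖G y - G' y‖ ^ θ) := by
        rw [Finset.sum_mul, ENNReal.ofReal_sum_of_nonneg]
        intro x _
        exact mul_nonneg (mul_nonneg (hA x) (hcb0 x y)) hp
      show _ ≤ ENNReal.ofReal ((∑ x, A x * cb x y) * ‖G y - G' y‖ ^ θ) * _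
      rw [e1, Finset.sum_mul]
      refine Finset.sum_le_sum fun x _ => ?_
      have hAx := hA x
      rw [mul_zero, zero_mul, ENNReal.ofReal_zero, add_zero, ← mul_assoc,
        ← ENNReal.ofReal_mul (by positivity)]
      refine mul_le_mul_left (ENNReal.ofReal_le_ofReal (le_of_eq ?_)) _
      rw [hcb]
      simp only
      rw [← hexp58 L x y]
      ring

end DynC
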