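import Pool.Agent.Lib_MP_36b788c.Obe3

/-!
# Initial laws

PROOF.
* `V_start`: i.i.d. law `ρ` without atom at `0`: choose `δ0 ∈ (0,1]` with `ρ(‖v‖ ≥ δ0) ≥ 1/2`. The event `E_L`: for some site `x` of the box there is no site `z` with `‖G z‖ ≥ δ0` within distance `L`. There are at least
  `r + 1` sites within distance `r ≤ L` of `x` (move in one coordinate direction), so `P(no such site within r) ≤ 2^{-(r+1)}` and `P(E_L) ≤ |box| 2^{-L} → 0`. Off `E_L` let `r` = distance from `x` to the nearest such site `z`: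
  `V1(x)² ≤ (k^{r/4} fpot(δ0) SSt(z)^{-q})^{-2s} = k^{-rs/2} fpot(δ0)^{-2s} SSt(z)^{2qs}`. Sum over `z`: `E[V1(x)²; E_L^c] ≤ Σ_z k^{-s|x-z|/2} fpot(δ0)^{-2s} E[1{nearest at distance |x-z|} SSt(z)^{2qs}]`, Cauchy-Schwarz:
  `≤ Σ_z k^{-s|x-z|/2} C 2^{-|x-z|/2} (E SSt(z)^{4qs})^{1/2}`, `E SSt ≤ 1 + 3^d E‖v‖`, `4qs ≤ 1`; converges uniformly in `L` if `k^{-s/2} 2^{-1/2} ≤ 9/10`... (hypothesis `hks : k^{-s} ≤ 11/10`, and the number of `z` at distance `r` is at most `(2r+1)^d`).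
* `V_all`: pair system started at `(G, 0)`: the second component stays `0` on good noise (`q2`). `m_j = (E[V1(x)²(tr (j n_B)); alv, E_L^c])^{1/2} ≤ κ' m_{j-1} + CV` (`ly`, Minkowski in the initial configuration, Markov property by `lintegral_glue`), `κ' ≤ 1/2`, then `gV` for the remainder.
  So `E[V1(x)²(tr n); alv, E_L^c] ≤ CI` uniformly in `n, L, h, x`.
* `mom` gives `E[‖G_n x‖; alv] ≤ CM (1 + E Yl) ≤ C`.
* `init_of_blk`: `G = G_{n1}`, `G' = G'_{n2}` independent (two independent copies of the system started from `(G_0,0)`, `(G'_0,0)`). `tele` and `Cls`: `‖f G - f G'‖ ≤ Σ 4A(x) D(x)^θ w(x) + …`. `E[D(x)^θ w(x); good] ≤ (E D^{2θ})^{1/2} (E w²)^{1/2}`,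
  `D^{2θ} ≤ 1 + ‖G x‖ + ‖G' x‖`. For the joint `S`: `SSt(u+u') ≤ SSt(u) SSt(u')`, so with `z* = z*(G)` the maximizer for `G` alone, `V1(G,G')(x) ≤ V1(G,0)(x) SSt(u')(z*)^{qs}` and by independence `E[V1(G,G')(x)²; good] ≤ E[V1(G,0)(x)²; good] sup_z E[SSt(u')(z)^{2qs}; good] ≤ C`.
  Minkowski over `z` in `wpr`. The exceptional events: `E_L` (probability `≤ η/8` for `L ≥ L1`), `alv^c` (`exit`, `E Σ‖G_0‖ < ∞`), on which `‖f G - f G'‖ ≤ 2`. Additive term: `sum`.
-/

open MeasureTheory ProbabilityTheory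
open scoped ENNReal

namespace DynC

open Dyn

variable {d : ℕ}

/-! ### Measurability -/

private theorem Obe3b_gX : Measurable gX := by
  unfold gX
  refine Measurable.ite measurableSet_Iic measurable_id ?_
  refine Measurable.ite measurableSet_Iic (by fun_prop) ?_
  exact Measurable.ite measurableSet_Iic measurable_const (by fun_prop)

private theorem Obe3b_fpot (k : ℝ) : Measurable (fpot k) := by
  unfold fpot
  refine Measurable.ite measurableSet_Iic measurable_const ?_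
  exact Real.measurable_exp.comp
    ((Obe3b_gX.comp (Real.measurable_log.div_const (ell k))).const_mul (ell k))

private theorem Obe3b_mSSt {α : Type} [MeasurableSpace α] {L : ℕ} (k : ℝ)
    (t : α → boxS d L → ℝ) (ht : ∀ y, Measurable fun a => t a y) (y : boxS d L) :
    Measurable fun a => SSt (boxNet d L) k (t a) y := by
  unfold SSt
  refine Measurable.const_add ?_ _
  refine Measurable.const_mul ?_ _
  exact Finset.measurable_sum _ fun w _ => (ht w).const_mul _

private theorem Obe3b_mVp {α : Type} [MeasurableSpace α] {L : ℕ} (k q s : ℝ) (x : boxS d L)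
    (u t : α → boxS d L → ℝ) (hu : ∀ y, Measurable fun a => u a y)
    (ht : ∀ y, Measurable fun a => t a y) :
    Measurable fun a => Vp (boxNet d L) k q s (u a) (t a) x := by
  unfold Vp
  refine Measurable.pow_const ?_ _
  have h1 : ∀ z : boxS d L, Measurable fun a => ENNReal.ofReal (Tz (boxNet d L) k q (u a) (t a) x z) := by
    intro z
    refine ENNReal.measurable_ofReal.comp ?_
    unfold Tz
    refine Measurable.mul (Measurable.const_mul ((Obe3b_fpot k).comp (hu z)) _) ?_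
    exact (Obe3b_mSSt k t ht z).pow_const _
  have h2 : ∀ S : Finset (boxS d L), Measurable fun a => S.sup fun z =>
      ENNReal.ofReal (Tz (boxNet d L) k q (u a) (t a) x z) := by
    classical
    intro S
    induction S using Finset.induction_on with
    | empty => simp only [Finset.sup_empty]; exact measurable_const
    | insert z S _ ih =>
      simp only [Finset.sup_insert]
      exact (h1 z).sup ih
  exact h2 Finset.univ

variable {F : Fam d} {β k : ℝ}

private theorem Obe3b_mV1 {L : ℕ} (k q s : ℝ) (x : boxS d L) :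
    Measurable fun G : (boxS d L → F.V) × (boxS d L → F.V) => V1 k q s G x := by
  unfold V1
  refine Obe3b_mVp k q s x _ _ (fun y => ?_) (fun y => ?_)
  · exact ((measurable_pi_apply y).comp measurable_fst).norm
  · exact ((measurable_pi_apply y).comp measurable_fst).norm.add
      ((measurable_pi_apply y).comp measurable_snd).norm

private theorem Obe3b_mtr (S : PSys F β k) (h : ℝ) (L n : ℕ) :
    Measurable fun p : ((boxS d L → F.V) × (boxS d L → F.V)) × (ℕ → boxS d L → S.Ωp) =>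
      S.tr h L p.1 p.2 n := by
  induction n with
  | zero => exact measurable_fst
  | succ n ih =>
    show Measurable fun p : ((boxS d L → F.V) × (boxS d L → F.V)) × (ℕ → boxS d L → S.Ωp) =>
      S.st h L (S.tr h L p.1 p.2 n) (p.2 n)
    exact (S.mst h L).comp (ih.prodMk ((measurable_pi_apply n).comp measurable_snd))

private theorem Obe3b_malv (S : PSys F β k) (h : ℝ) (L n : ℕ) :
    MeasurableSet {p : ((boxS d L → F.V) × (boxS d L → F.V)) × (ℕ → boxS d L → S.Ωp) |
      p.2 ∈ S.alv h L p.1 n} := by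
  unfold PSys.alv
  refine measurableSet_setOfPred.mpr (Measurable.and ?_ ?_)
  · refine Measurable.forall fun j => Measurable.imp measurable_const
      (Measurable.forall fun x => ?_)
    exact (measurableSet_setOfPred.mp (S.mgd h)).comp
      ((measurable_pi_apply x).comp ((measurable_pi_apply j).comp measurable_snd))
  · refine Measurable.forall fun j => Measurable.imp measurable_const
      (Measurable.forall fun x => Measurable.and ?_ ?_)
    · exact measurableSet_setOfPred.mp (measurableSet_le ((measurable_pi_apply x).comp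
        (measurable_fst.comp (Obe3b_mtr S h L j))).norm measurable_const)
    · exact measurableSet_setOfPred.mp (measurableSet_le ((measurable_pi_apply x).comp
        (measurable_snd.comp (Obe3b_mtr S h L j))).norm measurable_const)

private theorem Obe3b_malv1 (S : PSys F β k) (h : ℝ) (L n : ℕ)
    (G : (boxS d L → F.V) × (boxS d L → F.V)) : MeasurableSet (S.alv h L G n) := by
  have h1 : Measurable (fun ω : ℕ → boxS d L → S.Ωp => (G, ω)) :=
    measurable_const.prodMk measurable_id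
  exact h1 (Obe3b_malv S h L n)

/-! ### Markov property -/

private theorem Obe3b_glue (S : PSys F β k) (h : ℝ) (L n m : ℕ)
    (G : (boxS d L → F.V) × (boxS d L → F.V)) (a b : ℕ → boxS d L → S.Ωp) :
    glue n a b ∈ S.alv h L G (n + m) ↔ a ∈ S.alv h L G n ∧ b ∈ S.alv h L (S.tr h L G a n) m := by
  have t1 : ∀ j, j ≤ n → S.tr h L G (glue n a b) j = S.tr h L G a j :=
    fun j hj => traj_glue_le _ _ n a b j hj
  have t2 : ∀ j, S.tr h L G (glue n a b) (n + j) = S.tr h L (S.tr h L G a n) b j :=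
    fun j => traj_glue_add _ _ n a b j
  have g1 : ∀ j, j < n → glue n a b j = a j := by
    intro j hj
    unfold glue
    rw [if_pos hj]
  have g2 : ∀ j, glue n a b (n + j) = b j := by
    intro j
    unfold glue
    rw [if_neg (by omega)]
    congr 1
    omega
  constructor
  · rintro ⟨h1, h2⟩
    refine ⟨⟨fun j hj x => ?_, fun j hj x => ?_⟩, ⟨fun j hj x => ?_, fun j hj x => ?_⟩⟩
    · rw [← g1 j hj]
      exact h1 j (by omega) x
    · rw [← t1 j hj]
      exact h2 j (by omega) x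
    · rw [← g2 j]
      exact h1 (n + j) (by omega) x
    · rw [← t2 j]
      exact h2 (n + j) (by omega) x
  · rintro ⟨⟨h1, h2⟩, ⟨h3, h4⟩⟩
    refine ⟨fun j hj x => ?_, fun j hj x => ?_⟩
    · by_cases hjn : j < n
      · rw [g1 j hjn]
        exact h1 j hjn x
      · obtain ⟨i, rfl⟩ := Nat.exists_eq_add_of_le (not_lt.mp hjn)
        rw [g2 i]
        exact h3 i (by omega) x
    · by_cases hjn : j ≤ n
      · rw [t1 j hjn]
        exact h2 j hjn x
      · obtain ⟨i, rfl⟩ := Nat.exists_eq_add_of_le (not_le.mp hjn).le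
        rw [t2 i]
        exact h4 i (by omega) x

private theorem Obe3b_markov (S : PSys F β k) (h : ℝ) (L n m : ℕ)
    (G : (boxS d L → F.V) × (boxS d L → F.V))
    (Ψ : (boxS d L → F.V) × (boxS d L → F.V) → ℝ≥0∞) (hΨ : Measurable Ψ) :
    ∫⁻ ω in S.alv h L G (n + m), Ψ (S.tr h L G ω (n + m)) ∂(PI (S.mu L)) =
      ∫⁻ a in S.alv h L G n, ∫⁻ b in S.alv h L (S.tr h L G a n) m,
        Ψ (S.tr h L (S.tr h L G a n) b m) ∂(PI (S.mu L)) ∂(PI (S.mu L)) := by
  classical
  have hm1 : Measurable (fun ω : ℕ → boxS d L → S.Ωp => Ψ (S.tr h L G ω (n + m))) := by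
    have h1 : Measurable (fun ω : ℕ → boxS d L → S.Ωp => (G, ω)) :=
      measurable_const.prodMk measurable_id
    exact hΨ.comp ((Obe3b_mtr S h L (n + m)).comp h1)
  rw [← lintegral_indicator (Obe3b_malv1 S h L (n + m) G),
    lintegral_glue n _ (hm1.indicator (Obe3b_malv1 S h L (n + m) G)),
    ← lintegral_indicator (Obe3b_malv1 S h L n G)]
  refine lintegral_congr fun a => ?_
  by_cases ha : a ∈ S.alv h L G n
  · rw [Set.indicator_of_mem ha, ← lintegral_indicator (Obe3b_malv1 S h L m _)]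
    refine lintegral_congr fun b => ?_
    by_cases hb : b ∈ S.alv h L (S.tr h L G a n) m
    · rw [Set.indicator_of_mem hb, Set.indicator_of_mem ((Obe3b_glue S h L n m G a b).mpr ⟨ha, hb⟩)]
      congr 1
      exact traj_glue_add _ _ n a b m
    · rw [Set.indicator_of_notMem hb,
        Set.indicator_of_notMem (fun hc => hb ((Obe3b_glue S h L n m G a b).mp hc).2)]
  · rw [Set.indicator_of_notMem ha]
    have h0 : ∀ b, (S.alv h L G (n + m)).indicator (fun ω => Ψ (S.tr h L G ω (n + m)))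
        (glue n a b) = 0 := fun b =>
      Set.indicator_of_notMem (fun hc => ha ((Obe3b_glue S h L n m G a b).mp hc).1) _
    simp only [h0, lintegral_zero]

/-- representation on the product space -/
private theorem Obe3b_rep (S : PSys F β k) (h : ℝ) (L n : ℕ)
    (m0 : Measure (boxS d L → F.V)) [IsFiniteMeasure m0]
    (Φ : (boxS d L → F.V) × (ℕ → boxS d L → S.Ωp) → ℝ≥0∞) (hΦ : Measurable Φ) :
    ∫⁻ G, ∫⁻ ω in S.alv h L (G, (0 : boxS d L → F.V)) n, Φ (G, ω) ∂(PI (S.mu L)) ∂m0 =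
      ∫⁻ p in {p : (boxS d L → F.V) × (ℕ → boxS d L → S.Ωp) |
        p.2 ∈ S.alv h L (p.1, (0 : boxS d L → F.V)) n}, Φ p ∂(m0.prod (PI (S.mu L))) := by
  have hA : MeasurableSet {p : (boxS d L → F.V) × (ℕ → boxS d L → S.Ωp) |
        p.2 ∈ S.alv h L (p.1, (0 : boxS d L → F.V)) n} := by
    have h1 : Measurable (fun p : (boxS d L → F.V) × (ℕ → boxS d L → S.Ωp) =>
        ((p.1, (0 : boxS d L → F.V)), p.2)) :=
      (measurable_fst.prodMk measurable_const).prodMk measurable_snd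
    exact h1 (Obe3b_malv S h L n)
  rw [← lintegral_indicator hA, lintegral_prod _ (hΦ.indicator hA).aemeasurable]
  refine lintegral_congr fun G => ?_
  rw [← lintegral_indicator (Obe3b_malv1 S h L n _)]
  refine lintegral_congr fun ω => ?_
  by_cases hω : ω ∈ S.alv h L (G, (0 : boxS d L → F.V)) n
  · rw [Set.indicator_of_mem hω, Set.indicator_of_mem (by exact hω)]
  · rw [Set.indicator_of_notMem hω, Set.indicator_of_notMem (by exact hω)]

/-- Minkowski -/
private theorem Obe3b_mink {α : Type} [MeasurableSpace α] (μ : Measure α) (f : α → ℝ≥0∞)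
    (hf : Measurable f) (a b : ℝ≥0∞) (m : ℝ≥0∞) (hm : μ Set.univ ≤ m) :
    ∫⁻ p, (a * f p + b) ^ 2 ∂μ ≤
      (a * (∫⁻ p, f p ^ 2 ∂μ) ^ (1 / 2 : ℝ) + b * m ^ (1 / 2 : ℝ)) ^ 2 := by
  have h1 := ENNReal.lintegral_Lp_add_le (μ := μ) (p := 2) (f := fun p => a * f p)
    (g := fun _ => b) (hf.const_mul a).aemeasurable aemeasurable_const (by norm_num)
  have h2 : ∀ x : ℝ≥0∞, (x ^ (1 / 2 : ℝ)) ^ 2 = x := by
    intro x
    rw [← ENNReal.rpow_two, ← ENNReal.rpow_mul]
    norm_num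
  have h2' : ∀ x : ℝ≥0∞, (x ^ 2) ^ (1 / 2 : ℝ) = x := by
    intro x
    rw [← ENNReal.rpow_two, ← ENNReal.rpow_mul]
    norm_num
  simp only [Pi.add_apply, ENNReal.rpow_two] at h1
  have h3 : (∫⁻ p, (a * f p) ^ 2 ∂μ) ^ (1 / 2 : ℝ) = a * (∫⁻ p, f p ^ 2 ∂μ) ^ (1 / 2 : ℝ) := by
    simp only [mul_pow]
    rw [lintegral_const_mul _ (hf.pow_const 2), ENNReal.mul_rpow_of_nonneg _ _ (by norm_num), h2']
  have h4 : (∫⁻ _, b ^ 2 ∂μ) ^ (1 / 2 : ℝ) ≤ b * m ^ (1 / 2 : ℝ) := by
    rw [lintegral_const, ENNReal.mul_rpow_of_nonneg _ _ (by norm_num), h2']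
    exact mul_le_mul_right (ENNReal.rpow_le_rpow hm (by norm_num)) _
  rw [h3] at h1
  have h5 := h1.trans (add_le_add le_rfl h4)
  calc ∫⁻ p, (a * f p + b) ^ 2 ∂μ = ((∫⁻ p, (a * f p + b) ^ 2 ∂μ) ^ (1 / 2 : ℝ)) ^ 2 := (h2 _).symm
    _ ≤ _ := pow_le_pow_left₀ (zero_le) h5 2

/-- numerical facts -/
private theorem Obe3b_half {S : PSys F β k} {q s a θ TB BD BV κ' CV K cd : ℝ} {Ls : ℕ}
    (B : Blk S q s a θ TB BD BV κ' CV K cd Ls) {L : ℕ} (x : boxS d L) : κ' ≤ 1 / 2 := by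
  have h1 : (1 : ℝ) ≤ cd := by
    have h2 := (B.hcd L x).1
    have h3 : (1 : ℝ) ≤ ∑ z, Real.exp (-(a / 8)) ^ (boxNet d L).dist x z := by
      have h4 : Real.exp (-(a / 8)) ^ (boxNet d L).dist x x = 1 := by
        rw [(boxNet d L).dist_self, pow_zero]
      rw [← h4]
      exact Finset.single_le_sum (f := fun z => Real.exp (-(a / 8)) ^ (boxNet d L).dist x z)
        (fun z _ => by positivity) (Finset.mem_univ x)
    linarith
  have h5 : 1 ≤ Real.sqrt BD := by
    rw [← Real.sqrt_one]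
    exact Real.sqrt_le_sqrt B.hBD
  have h6 : 0 ≤ 2 * CV * cd / K := by
    have := B.hCV
    have := B.hK
    positivity
  have h7 := B.num
  have h8 := B.hκ
  have h9 : κ' ≤ Real.sqrt BD * (κ' + 2 * CV * cd / K) * cd := by
    have h10 : κ' ≤ κ' + 2 * CV * cd / K := by linarith
    have h11 : κ' + 2 * CV * cd / K ≤ Real.sqrt BD * (κ' + 2 * CV * cd / K) :=
      le_mul_of_one_le_left (by linarith) h5
    have h12 : Real.sqrt BD * (κ' + 2 * CV * cd / K) ≤
        Real.sqrt BD * (κ' + 2 * CV * cd / K) * cd :=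
      le_mul_of_one_le_right (by positivity) h1
    linarith
  linarith

/-- the recursion -/
private theorem Obe3b_rec (κ' CV : ℝ) (hκ : κ' ≤ 1 / 2) (hCV : 0 ≤ CV)
    (M : ℕ → ℝ≥0∞) (u : ℝ≥0∞)
    (h : ∀ j, M (j + 1) ≤ (ENNReal.ofReal κ' * M j ^ (1 / 2 : ℝ) + ENNReal.ofReal CV * u) ^ 2)
    (R : ℝ≥0∞) (h0 : M 0 ≤ R) (j : ℕ) :
    M j ≤ (R ^ (1 / 2 : ℝ) + ENNReal.ofReal (2 * CV) * u) ^ 2 := by
  have h2 : ∀ x : ℝ≥0∞, (x ^ (1 / 2 : ℝ)) ^ 2 = x := by
    intro x
    rw [← ENNReal.rpow_two, ← ENNReal.rpow_mul]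
    norm_num
  have h2' : ∀ x : ℝ≥0∞, (x ^ 2) ^ (1 / 2 : ℝ) = x := by
    intro x
    rw [← ENNReal.rpow_two, ← ENNReal.rpow_mul]
    norm_num
  induction j with
  | zero =>
    calc M 0 ≤ R := h0
      _ = (R ^ (1 / 2 : ℝ)) ^ 2 := (h2 R).symm
      _ ≤ _ := pow_le_pow_left₀ (zero_le) (le_add_right le_rfl) 2
  | succ j ih =>
    refine (h j).trans (pow_le_pow_left₀ (zero_le) ?_ 2)
    have h3 : M j ^ (1 / 2 : ℝ) ≤ R ^ (1 / 2 : ℝ) + ENNReal.ofReal (2 * CV) * u := by
      have := ENNReal.rpow_le_rpow ih (by norm_num : (0 : ℝ) ≤ 1 / 2)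
      rwa [h2'] at this
    have h4 : ENNReal.ofReal κ' ≤ ENNReal.ofReal (1 / 2) := ENNReal.ofReal_le_ofReal hκ
    have h5 : ENNReal.ofReal (1 / 2) ≤ 1 := by
      rw [← ENNReal.ofReal_one]
      exact ENNReal.ofReal_le_ofReal (by norm_num)
    calc ENNReal.ofReal κ' * M j ^ (1 / 2 : ℝ) + ENNReal.ofReal CV * u
        ≤ ENNReal.ofReal (1 / 2) * (R ^ (1 / 2 : ℝ) + ENNReal.ofReal (2 * CV) * u) +
          ENNReal.ofReal CV * u := add_le_add (mul_le_mul' h4 h3) le_rfl
      _ = ENNReal.ofReal (1 / 2) * R ^ (1 / 2 : ℝ) +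
          (ENNReal.ofReal (1 / 2) * ENNReal.ofReal (2 * CV) + ENNReal.ofReal CV) * u := by ring
      _ ≤ 1 * R ^ (1 / 2 : ℝ) + ENNReal.ofReal (2 * CV) * u := by
          refine add_le_add (mul_le_mul' h5 le_rfl) (mul_le_mul' ?_ le_rfl)
          rw [← ENNReal.ofReal_mul (by norm_num), ← ENNReal.ofReal_add (by positivity) hCV]
          apply ENNReal.ofReal_le_ofReal
          linarith
      _ = _ := by rw [one_mul]

/-- uniform in time bound of the potential for the chain started at `(G, 0)` -/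
theorem V_all {F : Fam d} {β k : ℝ} (S : PSys F β k)
    (q s a θ TB BD BV κ' CV K cd : ℝ) (Ls : ℕ) (B : Blk S q s a θ TB BD BV κ' CV K cd Ls)
    (L : ℕ) (hL : Ls ≤ L) :
    ∃ h0 : ℝ, 0 < h0 ∧ ∀ h, 0 < h → h < h0 →
      ∀ (m0 : Measure (boxS d L → F.V)) [IsFiniteMeasure m0] (n : ℕ) (x : boxS d L),
        ∫⁻ G, ∫⁻ ω in S.alv h L (G, 0) n, V1 k q s (S.tr h L (G, 0) ω n) x ^ 2
            ∂(PI (S.mu L)) ∂m0
          ≤ ENNReal.ofReal BV * ((∫⁻ G, V1 k q s (G, (0 : boxS d L → F.V)) x ^ 2 ∂m0) ^ (1 / 2 : ℝ) +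
              ENNReal.ofReal (2 * CV) * (m0 Set.univ) ^ (1 / 2 : ℝ)) ^ 2 := by
  obtain ⟨h1, hh1, H1⟩ := B.gV L hL
  obtain ⟨h2, hh2, H2⟩ := B.ly L hL
  refine ⟨min h1 h2, lt_min hh1 hh2, fun h hh hlt m0 _ n x => ?_⟩
  have gV := H1 h hh (hlt.trans_le (min_le_left _ _))
  have ly := H2 h hh (hlt.trans_le (min_le_right _ _))
  have hPI : IsProbabilityMeasure (PI (S.mu L)) := by unfold PI; infer_instance
  set nB : ℕ := ⌈TB / h⌉₊ with hnB
  have hnB0 : 0 < nB := Nat.ceil_pos.mpr (div_pos B.hTB hh)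
  have hmV : Measurable fun G : (boxS d L → F.V) × (boxS d L → F.V) => V1 k q s G x :=
    Obe3b_mV1 k q s x
  have hmV2 : Measurable fun G : (boxS d L → F.V) × (boxS d L → F.V) => V1 k q s G x ^ 2 :=
    hmV.pow_const 2
  have hpr : Measurable (fun p : (boxS d L → F.V) × (ℕ → boxS d L → S.Ωp) =>
      ((p.1, (0 : boxS d L → F.V)), p.2)) :=
    (measurable_fst.prodMk measurable_const).prodMk measurable_snd
  set MM : ℕ → ℝ≥0∞ := fun j => ∫⁻ G, ∫⁻ ω in S.alv h L (G, (0 : boxS d L → F.V)) j,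
    V1 k q s (S.tr h L (G, (0 : boxS d L → F.V)) ω j) x ^ 2 ∂(PI (S.mu L)) ∂m0 with hMM
  -- remainder
  have hrem : ∀ j r, r ≤ nB → MM (j + r) ≤ ENNReal.ofReal BV * MM j := by
    intro j r hr
    simp only [hMM]
    rw [← lintegral_const_mul' _ _ ENNReal.ofReal_ne_top]
    refine lintegral_mono fun G => ?_
    rw [Obe3b_markov S h L j r (G, 0) _ hmV2, ← lintegral_const_mul' _ _ ENNReal.ofReal_ne_top]
    exact lintegral_mono fun a => (gV _ r hr x).1
  -- block
  have hblk : ∀ j, MM (j + nB) ≤ (ENNReal.ofReal κ' * MM j ^ (1 / 2 : ℝ) +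
      ENNReal.ofReal CV * (m0 Set.univ) ^ (1 / 2 : ℝ)) ^ 2 := by
    intro j
    have hmt : Measurable (fun p : (boxS d L → F.V) × (ℕ → boxS d L → S.Ωp) =>
        V1 k q s (S.tr h L (p.1, (0 : boxS d L → F.V)) p.2 j) x) :=
      hmV.comp ((Obe3b_mtr S h L j).comp hpr)
    have e1 : MM (j + nB) ≤ ∫⁻ G, ∫⁻ ω in S.alv h L (G, (0 : boxS d L → F.V)) j,
        (ENNReal.ofReal κ' * V1 k q s (S.tr h L (G, (0 : boxS d L → F.V)) ω j) x +
          ENNReal.ofReal CV) ^ 2 ∂(PI (S.mu L)) ∂m0 := by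
      simp only [hMM]
      refine lintegral_mono fun G => ?_
      rw [Obe3b_markov S h L j nB (G, 0) _ hmV2]
      exact lintegral_mono fun a => (ly _ x).1
    have e2 := Obe3b_rep S h L j m0 (fun p => (ENNReal.ofReal κ' *
      V1 k q s (S.tr h L (p.1, (0 : boxS d L → F.V)) p.2 j) x + ENNReal.ofReal CV) ^ 2)
      (((hmt.const_mul _).add_const _).pow_const 2)
    have e3 := Obe3b_rep S h L j m0 (fun p =>
      V1 k q s (S.tr h L (p.1, (0 : boxS d L → F.V)) p.2 j) x ^ 2) (hmt.pow_const 2)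
    have e4 : MM j = ∫⁻ p in {p : (boxS d L → F.V) × (ℕ → boxS d L → S.Ωp) |
        p.2 ∈ S.alv h L (p.1, (0 : boxS d L → F.V)) j},
        V1 k q s (S.tr h L (p.1, (0 : boxS d L → F.V)) p.2 j) x ^ 2 ∂(m0.prod (PI (S.mu L))) := e3
    refine (e1.trans (le_of_eq e2)).trans ?_
    rw [e4]
    refine Obe3b_mink _ _ hmt _ _ _ ?_
    rw [Measure.restrict_apply_univ]
    refine (measure_mono (Set.subset_univ _)).trans ?_
    rw [← Set.univ_prod_univ, Measure.prod_prod, hPI.measure_univ, mul_one]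
  have h00 : MM 0 ≤ ∫⁻ G, V1 k q s (G, (0 : boxS d L → F.V)) x ^ 2 ∂m0 := by
    simp only [hMM]
    refine lintegral_mono fun G => ?_
    show ∫⁻ ω in S.alv h L (G, (0 : boxS d L → F.V)) 0, V1 k q s (G, (0 : boxS d L → F.V)) x ^ 2
      ∂(PI (S.mu L)) ≤ _
    rw [setLIntegral_const]
    calc V1 k q s (G, (0 : boxS d L → F.V)) x ^ 2 *
        PI (S.mu L) (S.alv h L (G, (0 : boxS d L → F.V)) 0)
        ≤ V1 k q s (G, (0 : boxS d L → F.V)) x ^ 2 * 1 := mul_le_mul' le_rfl prob_le_one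
      _ = _ := mul_one _
  have hrec := Obe3b_rec κ' CV (Obe3b_half B x) B.hCV (fun j => MM (j * nB))
    ((m0 Set.univ) ^ (1 / 2 : ℝ)) (fun j => by
      show MM ((j + 1) * nB) ≤ _
      rw [add_mul, one_mul]
      exact hblk (j * nB)) (∫⁻ G, V1 k q s (G, (0 : boxS d L → F.V)) x ^ 2 ∂m0) (by
      show MM (0 * nB) ≤ _
      rw [zero_mul]
      exact h00) (n / nB)
  have hn : n = n / nB * nB + n % nB := (Nat.div_add_mod' n nB).symm
  have hfin : MM n ≤ ENNReal.ofReal BV * MM (n / nB * nB) := by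
    conv_lhs => rw [hn]
    exact hrem _ _ (Nat.mod_lt _ hnB0).le
  exact hfin.trans (mul_le_mul' le_rfl hrec)

end DynC
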