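import Pool.Agent.Lib_MP_36b788c.Obe3a
import Pool.Agent.Lib_MP_36b788c.Obe3b
import Pool.Agent.Lib_MP_36b788c.Obe1b
import Pool.Agent.Lib_MP_36b788c.Obe2b

/-!
# Initial laws

PROOF.
* `V_start`: i.i.d. law `ρ` without atom at `0`: choose `δ0 ∈ (0,1]` with `ρ(‖v‖ ≥ δ0) ≥ 1/2`. The event `E_L`: for some site `x` of the box there is no site `z` with `‖G z‖ ≥ δ0` within distance `L`. There are at least
  `r + 1` sites within distance `r ≤ L` of `x` (move in one coordinate direction), so `P(no such site within r) ≤ 2^{-(r+1)}` and `P(E_L) ≤ |box| 2^{-L} → 0`. Off `E_L` let `r` = distance from `x` to the nearest such site `z`: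
  `V1(x)² ≤ (k^{r/4} fpot(δ0) SSt(z)^{-q})^{-2s} = k^{-rs/2} fpot(δ0)^{-2s} SSt(z)^{2qs}`. Sum over `z`: `E[V1(x)²; E_L^c] ≤ Σ_z k^{-s|x-z|/2} fpot(δ0)^{-2s} E[1{nearest at distance |x-z|} SSt(z)^{2qs}]`, Cauchy-Schwarz:
  `≤ Σ_z k^{-s|x-z|/2} C 2^{-|x-z|/2} (E SSt(z)^{4qs})^{1/2}`, `E SSt ≤ 1 + 3^d E‖v‖`, `4qs ≤ 1`; converges uniformly in `L` if `k^{-s/2} 2^{-1/2} ≤ 9/10`... (hypothesis `hks : k^{-s} ≤ 11/10`, and the number of `z` at distance `r` is at most `(2r+1)^d`).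
* `V_all`: pair system started at `(G, 0)`: the second component stays `0` on good noise (`q2`). `m_j = (E[V1(x)²(tr (j n_B)); alv, E_L^c])^{1/2} ≤ κ' m_{j-1} + CV` (`ly`, Minkowski in the initial configuration, Markov property by `lintegral_glue`), `κ' ≤ 1/2`, then `gV` for the remainder.
  So `E[V1(x)²(tr n); alv, E_L^c] ≤ CI` uniformly in `n, L, h, x`.
* `mom` gives `E[‖G_n x‖; alv] ≤ CM (1 + E Yl) ≤ C`.
* `init_of_blk`: `G = G_{n1}`, `G' = G'_{n2}` independent (two independent copies of the system started from `(G_0,0)`, `(G'_0,0)`). `tele` and `Cls`: `‖f G - f G'‖ ≤ Σ 4A(x) D(x)^θ w(x) + …`. `E[D(x)^θ w(x); good] ≤ (E D^{2θ})^{1/2} (E w²)^{1/2}`,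
  `D^{2θ} ≤ 1 + ‖G x‖ + ‖G' x‖`. For the joint `S`: `SSt(u+u') ≤ SSt(u) SSt(u')`, so with `z* = z*(G)` the maximizer for `G` alone, `V1(G,G')(x) ≤ V1(G,0)(x) SSt(u')(z*)^{qs}` and by independence `E[V1(G,G')(x)²; good] ≤ E[V1(G,0)(x)²; good] sup_z E[SSt(u')(z)^{2qs}; good] ≤ C`.
  Minkowski over `z` in `wpr`. The exceptional events: `E_L` (probability `≤ η/8` for `L ≥ L1`), `alv^c` (`exit`, `E Σ‖G_0‖ < ∞`), on which `‖f G - f G'‖ ≤ 2`. Additive term: `sum`.
-/

open MeasureTheory ProbabilityTheory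
open scoped ENNReal

namespace DynC

open Dyn

variable {d : ℕ}

/-! ### Measurability -/

private theorem Obe3c_gX : Measurable gX := by
  unfold gX
  refine Measurable.ite measurableSet_Iic measurable_id ?_
  refine Measurable.ite measurableSet_Iic (by fun_prop) ?_
  exact Measurable.ite measurableSet_Iic measurable_const (by fun_prop)

private theorem Obe3c_fpot (k : ℝ) : Measurable (fpot k) := by
  unfold fpot
  refine Measurable.ite measurableSet_Iic measurable_const ?_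
  exact Real.measurable_exp.comp
    ((Obe3c_gX.comp (Real.measurable_log.div_const (ell k))).const_mul (ell k))

private theorem Obe3c_mSSt {α : Type} [MeasurableSpace α] {L : ℕ} (k : ℝ)
    (t : α → boxS d L → ℝ) (ht : ∀ y, Measurable fun a => t a y) (y : boxS d L) :
    Measurable fun a => SSt (boxNet d L) k (t a) y := by
  unfold SSt
  refine Measurable.const_add ?_ _
  refine Measurable.const_mul ?_ _
  exact Finset.measurable_sum _ fun w _ => (ht w).const_mul _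

private theorem Obe3c_mVp {α : Type} [MeasurableSpace α] {L : ℕ} (k q s : ℝ) (x : boxS d L)
    (u t : α → boxS d L → ℝ) (hu : ∀ y, Measurable fun a => u a y)
    (ht : ∀ y, Measurable fun a => t a y) :
    Measurable fun a => Vp (boxNet d L) k q s (u a) (t a) x := by
  unfold Vp
  refine Measurable.pow_const ?_ _
  have h1 : ∀ z : boxS d L, Measurable fun a => ENNReal.ofReal (Tz (boxNet d L) k q (u a) (t a) x z) := by
    intro z
    refine ENNReal.measurable_ofReal.comp ?_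
    unfold Tz
    refine Measurable.mul (Measurable.const_mul ((Obe3c_fpot k).comp (hu z)) _) ?_
    exact (Obe3c_mSSt k t ht z).pow_const _
  have h2 : ∀ S : Finset (boxS d L), Measurable fun a => S.sup fun z =>
      ENNReal.ofReal (Tz (boxNet d L) k q (u a) (t a) x z) := by
    classical
    intro S
    induction S using Finset.induction_on with
    | empty => simp only [Finset.sup_empty]; exact measurable_const
    | insert z S _ ih =>
      simp only [Finset.sup_insert]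
      exact (h1 z).sup ih
  exact h2 Finset.univ

/-! ### The joint `S` -/

private theorem Obe3c_S1 {L : ℕ} {k : ℝ} (hk : 0 < k) (t : boxS d L → ℝ) (ht : ∀ w, 0 ≤ t w)
    (z : boxS d L) : 1 ≤ SSt (boxNet d L) k t z := by
  unfold SSt
  have h1 : 0 ≤ k ^ (1 / 16 : ℝ) := (Real.rpow_pos_of_pos hk _).le
  have h2 : 0 ≤ ∑ w, (1 / 2 : ℝ) ^ (boxNet d L).dist z w * t w :=
    Finset.sum_nonneg fun w _ => mul_nonneg (by positivity) (ht w)
  nlinarith [mul_nonneg h1 h2]

private theorem Obe3c_Sadd {L : ℕ} {k : ℝ} (hk : 0 < k) (t t' : boxS d L → ℝ) (ht : ∀ w, 0 ≤ t w)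
    (ht' : ∀ w, 0 ≤ t' w) (z : boxS d L) :
    SSt (boxNet d L) k (fun w => t w + t' w) z ≤
      SSt (boxNet d L) k t z * SSt (boxNet d L) k t' z := by
  unfold SSt
  have h1 : 0 ≤ k ^ (1 / 16 : ℝ) := (Real.rpow_pos_of_pos hk _).le
  have h2 : 0 ≤ ∑ w, (1 / 2 : ℝ) ^ (boxNet d L).dist z w * t w :=
    Finset.sum_nonneg fun w _ => mul_nonneg (by positivity) (ht w)
  have h3 : 0 ≤ ∑ w, (1 / 2 : ℝ) ^ (boxNet d L).dist z w * t' w :=
    Finset.sum_nonneg fun w _ => mul_nonneg (by positivity) (ht' w)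
  have h4 : ∑ w, (1 / 2 : ℝ) ^ (boxNet d L).dist z w * (t w + t' w) =
      ∑ w, (1 / 2 : ℝ) ^ (boxNet d L).dist z w * t w +
        ∑ w, (1 / 2 : ℝ) ^ (boxNet d L).dist z w * t' w := by
    rw [← Finset.sum_add_distrib]
    exact Finset.sum_congr rfl fun w _ => by ring
  rw [h4]
  nlinarith [mul_nonneg (mul_nonneg h1 h2) (mul_nonneg h1 h3)]

/-- adding a nonnegative field to the joint `S` costs at most a factor `SSt t'` at one site which
depends only on the old field -/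
private theorem Obe3c_Vadd {L : ℕ} {k q s : ℝ} (hk : 0 < k) (hq : 0 ≤ q) (hs : 0 < s)
    (hqs : 2 * q * s ≤ 1) (u t : boxS d L → ℝ) (ht : ∀ w, 0 ≤ t w) (z : boxS d L) :
    ∃ y : boxS d L, ∀ t' : boxS d L → ℝ, (∀ w, 0 ≤ t' w) →
      Vp (boxNet d L) k q s u (fun w => t w + t' w) z ^ 2 ≤
        Vp (boxNet d L) k q s u t z ^ 2 * ENNReal.ofReal (SSt (boxNet d L) k t' y) := by
  obtain ⟨y, -, hy⟩ := Finset.exists_mem_eq_sup (Finset.univ : Finset (boxS d L)) ⟨z, Finset.mem_univ z⟩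
    (fun y => ENNReal.ofReal (Tz (boxNet d L) k q u t z y))
  refine ⟨y, fun t' ht' => ?_⟩
  have hS' := Obe3c_S1 hk t' ht' y
  have hS := Obe3c_S1 hk t ht y
  rcases le_or_gt (Tz (boxNet d L) k q u t z y) 0 with h0 | h0
  · have h1 : Vp (boxNet d L) k q s u t z = ⊤ := by
      unfold Vp
      rw [hy, ENNReal.ofReal_of_nonpos h0]
      exact ENNReal.zero_rpow_of_neg (by linarith)
    rw [h1]
    have h2 : (⊤ : ℝ≥0∞) ^ 2 * ENNReal.ofReal (SSt (boxNet d L) k t' y) = ⊤ := by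
      rw [ENNReal.top_pow (by norm_num)]
      refine ENNReal.top_mul ?_
      rw [Ne, ENNReal.ofReal_eq_zero, not_le]
      linarith
    rw [h2]
    exact le_top
  · set T := Tz (boxNet d L) k q u t z y with hT
    set S' := SSt (boxNet d L) k t' y with hS'def
    have h3 : T * S' ^ (-q) ≤ Tz (boxNet d L) k q u (fun w => t w + t' w) z y := by
      have hA : 0 ≤ (k ^ (1 / 4 : ℝ)) ^ (boxNet d L).dist z y * fpot k (u y) := by
        by_contra hneg
        rw [not_le] at hneg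
        have h4 : T < 0 := by
          rw [hT]
          unfold Tz
          exact mul_neg_of_neg_of_pos hneg (Real.rpow_pos_of_pos (by linarith) _)
        linarith
      have h5 : SSt (boxNet d L) k t y ^ (-q) * S' ^ (-q) ≤
          SSt (boxNet d L) k (fun w => t w + t' w) y ^ (-q) := by
        rw [← Real.mul_rpow (by linarith) (by linarith)]
        have h6 := Obe3c_S1 hk (fun w => t w + t' w) (fun w => add_nonneg (ht w) (ht' w)) y
        exact Real.rpow_le_rpow_of_nonpos (by linarith) (Obe3c_Sadd hk t t' ht ht' y) (by linarith)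
      rw [hT]
      unfold Tz
      rw [mul_assoc]
      exact mul_le_mul_of_nonneg_left h5 hA
    have hS'q : 0 < S' ^ (-q) := Real.rpow_pos_of_pos (by linarith) _
    have h7 : Vp (boxNet d L) k q s u (fun w => t w + t' w) z ≤
        ENNReal.ofReal (T ^ (-s) * S' ^ (q * s)) := by
      unfold Vp
      have h8 : ENNReal.ofReal (T * S' ^ (-q)) ≤ Finset.univ.sup fun y =>
          ENNReal.ofReal (Tz (boxNet d L) k q u (fun w => t w + t' w) z y) :=
        le_trans (ENNReal.ofReal_le_ofReal h3)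
          (Finset.le_sup (f := fun y => ENNReal.ofReal
            (Tz (boxNet d L) k q u (fun w => t w + t' w) z y)) (Finset.mem_univ y))
      have h9 : T ^ (-s) * S' ^ (q * s) = (T * S' ^ (-q)) ^ (-s) := by
        rw [Real.mul_rpow h0.le hS'q.le, ← Real.rpow_mul (by linarith)]
        congr 2
        ring
      rw [h9, ← ENNReal.ofReal_rpow_of_pos (mul_pos h0 hS'q), ENNReal.rpow_neg, ENNReal.rpow_neg]
      exact ENNReal.inv_le_inv.mpr (ENNReal.rpow_le_rpow h8 hs.le)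
    have h10 : Vp (boxNet d L) k q s u t z = ENNReal.ofReal (T ^ (-s)) := by
      unfold Vp
      rw [hy]
      exact ENNReal.ofReal_rpow_of_pos h0
    calc Vp (boxNet d L) k q s u (fun w => t w + t' w) z ^ 2
        ≤ ENNReal.ofReal (T ^ (-s) * S' ^ (q * s)) ^ 2 := pow_le_pow_left' h7 2
      _ = ENNReal.ofReal (T ^ (-s)) ^ 2 * ENNReal.ofReal ((S' ^ (q * s)) ^ 2) := by
          rw [ENNReal.ofReal_mul (Real.rpow_nonneg h0.le _), mul_pow,
            ENNReal.ofReal_pow (Real.rpow_nonneg (by linarith) _)]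
      _ ≤ Vp (boxNet d L) k q s u t z ^ 2 * ENNReal.ofReal S' := by
          rw [h10]
          refine mul_le_mul' le_rfl (ENNReal.ofReal_le_ofReal ?_)
          rw [← Real.rpow_natCast, ← Real.rpow_mul (by linarith)]
          calc S' ^ (q * s * ((2 : ℕ) : ℝ)) ≤ S' ^ (1 : ℝ) :=
                Real.rpow_le_rpow_of_exponent_le hS' (by push_cast; linarith)
            _ = S' := Real.rpow_one _

private theorem Obe3c_Vmono {L : ℕ} {k q s : ℝ} (hk : 0 < k) (hq : 0 ≤ q) (hs : 0 < s)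
    (u t t' : boxS d L → ℝ) (ht : ∀ w, 0 ≤ t w) (htt : ∀ w, t w ≤ t' w) (z : boxS d L) :
    Vp (boxNet d L) k q s u t z ≤ Vp (boxNet d L) k q s u t' z := by
  unfold Vp
  rw [ENNReal.rpow_neg, ENNReal.rpow_neg]
  refine ENNReal.inv_le_inv.mpr (ENNReal.rpow_le_rpow ?_ hs.le)
  refine Finset.sup_mono_fun fun y _ => ?_
  rcases le_or_gt (Tz (boxNet d L) k q u t' z y) 0 with h0 | h0
  · rw [ENNReal.ofReal_of_nonpos h0]
    exact zero_le
  · refine ENNReal.ofReal_le_ofReal ?_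
    unfold Tz at h0 ⊢
    have hS := Obe3c_S1 hk t ht y
    have hS' := Obe3c_S1 hk t' (fun w => (ht w).trans (htt w)) y
    have hA : 0 ≤ (k ^ (1 / 4 : ℝ)) ^ (boxNet d L).dist z y * fpot k (u y) := by
      by_contra hneg
      rw [not_le] at hneg
      have h4 := mul_neg_of_neg_of_pos hneg (Real.rpow_pos_of_pos (by linarith :
        0 < SSt (boxNet d L) k t' y) (-q))
      linarith
    refine mul_le_mul_of_nonneg_left ?_ hA
    refine Real.rpow_le_rpow_of_nonpos (by linarith) ?_ (by linarith)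
    unfold SSt
    have h1 : 0 ≤ k ^ (1 / 16 : ℝ) := (Real.rpow_pos_of_pos hk _).le
    have h2 : ∑ w, (1 / 2 : ℝ) ^ (boxNet d L).dist y w * t w ≤
        ∑ w, (1 / 2 : ℝ) ^ (boxNet d L).dist y w * t' w :=
      Finset.sum_le_sum fun w _ => mul_le_mul_of_nonneg_left (htt w) (by positivity)
    nlinarith [mul_le_mul_of_nonneg_left h2 h1]


/-! ### Law of the chain -/

private theorem Obe3c_mtraj (F : Fam d) (h : ℝ) (L n : ℕ) :
    Measurable fun p : (boxS d L → F.V) × (ℕ → boxS d L → F.Ω0) =>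
      traj (F.st h L) p.1 p.2 n := by
  induction n with
  | zero => exact measurable_fst
  | succ n ih =>
    show Measurable fun p : (boxS d L → F.V) × (ℕ → boxS d L → F.Ω0) =>
      F.st h L (traj (F.st h L) p.1 p.2 n) (p.2 n)
    exact (F.mst h L).comp (ih.prodMk ((measurable_pi_apply n).comp measurable_snd))

private theorem Obe3c_mst (F : Fam d) (h : ℝ) (L : ℕ) :
    Measurable fun q : (boxS d L → F.V) × (boxS d L → F.Ω0) => F.st h L q.1 q.2 :=
  F.mst h L

private theorem Obe3c_law (F : Fam d) (h : ℝ) (L : ℕ) (m0 : Measure (boxS d L → F.V))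
    [IsProbabilityMeasure m0] (n : ℕ) :
    IsProbabilityMeasure (F.law h L m0 n) ∧
    ∀ g : (boxS d L → F.V) → ℝ≥0∞, Measurable g →
      ∫⁻ G, g G ∂(F.law h L m0 n) =
        ∫⁻ G, ∫⁻ ω, g (traj (F.st h L) G ω n) ∂(PI (F.mu L)) ∂m0 := by
  induction n with
  | zero =>
    refine ⟨(inferInstance : IsProbabilityMeasure m0), fun g _ => ?_⟩
    show ∫⁻ G, g G ∂m0 = ∫⁻ G, ∫⁻ _, g G ∂(PI (F.mu L)) ∂m0
    refine lintegral_congr fun G => ?_
    have : IsProbabilityMeasure (PI (F.mu L)) := by unfold PI; infer_instance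
    rw [lintegral_const, measure_univ, mul_one]
  | succ n ih =>
    obtain ⟨hp, ih⟩ := ih
    refine ⟨?_, fun g hg => ?_⟩
    · show IsProbabilityMeasure (((F.law h L m0 n).prod (F.mu L)).map
        (fun q => F.st h L q.1 q.2))
      exact Measure.isProbabilityMeasure_map (Obe3c_mst F h L).aemeasurable
    · show ∫⁻ G, g G ∂(((F.law h L m0 n).prod (F.mu L)).map (fun q => F.st h L q.1 q.2)) = _
      have m1 : Measurable fun q : (boxS d L → F.V) × (boxS d L → F.Ω0) =>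
          g (F.st h L q.1 q.2) := hg.comp (Obe3c_mst F h L)
      rw [lintegral_map hg (Obe3c_mst F h L), lintegral_prod _ m1.aemeasurable]
      have m2 : Measurable fun G : boxS d L → F.V => ∫⁻ ξ, g (F.st h L G ξ) ∂(F.mu L) :=
        m1.lintegral_prod_right'
      rw [ih _ m2]
      refine lintegral_congr fun G => ?_
      have m3 : Measurable fun ω : ℕ → boxS d L → F.Ω0 => g (traj (F.st h L) G ω (n + 1)) :=
        hg.comp ((Obe3c_mtraj F h L (n + 1)).comp (measurable_const.prodMk measurable_id))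
      rw [lintegral_glue n (fun ω => g (traj (F.st h L) G ω (n + 1))) m3]
      refine lintegral_congr fun a => ?_
      have e1 : ∀ b : ℕ → boxS d L → F.Ω0, traj (F.st h L) G (glue n a b) (n + 1) =
          F.st h L (traj (F.st h L) G a n) (b 0) := fun b =>
        traj_glue_add (F.st h L) G n a b 1
      simp only [e1]
      have m4 : Measurable fun ξ : boxS d L → F.Ω0 => g (F.st h L (traj (F.st h L) G a n) ξ) :=
        m1.comp (measurable_const.prodMk measurable_id)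
      have e2 := lintegral_map (μ := PI (F.mu L)) m4 (measurable_pi_apply (0 : ℕ))
      rw [map_coord] at e2
      exact e2


/-! ### One side -/

section side

variable {F : Fam d} {β k : ℝ}

/-- first component of the pair chain started at `(G, 0)` -/
private def Obe3c_H (S : PSys F β k) (h : ℝ) (L n : ℕ)
    (p : (boxS d L → F.V) × (ℕ → boxS d L → S.Ωp)) : boxS d L → F.V :=
  (S.tr h L (p.1, (0 : boxS d L → F.V)) p.2 n).1

private def Obe3c_gs (S : PSys F β k) (h : ℝ) (L n : ℕ) (δ0 : ℝ) :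
    Set ((boxS d L → F.V) × (ℕ → boxS d L → S.Ωp)) :=
  {p | p.1 ∉ EL d L δ0 ∧ p.2 ∈ S.alv h L (p.1, (0 : boxS d L → F.V)) n}

private theorem Obe3c_mst2 (S : PSys F β k) (h : ℝ) (L : ℕ) : Measurable
    fun p : ((boxS d L → F.V) × (boxS d L → F.V)) × (boxS d L → S.Ωp) => S.st h L p.1 p.2 :=
  S.mst h L

private theorem Obe3c_mtr0 (S : PSys F β k) (h : ℝ) (L n : ℕ) :
    Measurable fun p : ((boxS d L → F.V) × (boxS d L → F.V)) × (ℕ → boxS d L → S.Ωp) =>
      S.tr h L p.1 p.2 n := by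
  induction n with
  | zero => exact measurable_fst
  | succ n ih =>
    show Measurable fun p : ((boxS d L → F.V) × (boxS d L → F.V)) × (ℕ → boxS d L → S.Ωp) =>
      S.st h L (S.tr h L p.1 p.2 n) (p.2 n)
    exact (Obe3c_mst2 S h L).comp (ih.prodMk ((measurable_pi_apply n).comp measurable_snd))

private theorem Obe3c_mtr (S : PSys F β k) (h : ℝ) (L n : ℕ) :
    Measurable fun p : (boxS d L → F.V) × (ℕ → boxS d L → S.Ωp) =>
      S.tr h L (p.1, (0 : boxS d L → F.V)) p.2 n :=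
  (Obe3c_mtr0 S h L n).comp ((measurable_fst.prodMk measurable_const).prodMk measurable_snd)

private theorem Obe3c_mH (S : PSys F β k) (h : ℝ) (L n : ℕ) :
    Measurable (Obe3c_H S h L n) :=
  measurable_fst.comp (Obe3c_mtr S h L n)

private theorem Obe3c_mEL (L : ℕ) (δ0 : ℝ) :
    MeasurableSet (EL d L δ0 : Set (boxS d L → F.V)) := by
  unfold EL
  refine measurableSet_setOfPred.mpr (Measurable.exists fun x => Measurable.forall fun z => ?_)
  refine Measurable.imp measurable_const ?_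
  exact measurableSet_setOfPred.mp (measurableSet_lt (measurable_pi_apply z).norm measurable_const)

private theorem Obe3c_mgs (S : PSys F β k) (h : ℝ) (L n : ℕ) (δ0 : ℝ) :
    MeasurableSet (Obe3c_gs S h L n δ0) := by
  unfold Obe3c_gs PSys.alv
  refine measurableSet_setOfPred.mpr (Measurable.and ?_ (Measurable.and ?_ ?_))
  · exact (measurableSet_setOfPred.mp (Obe3c_mEL L δ0)).not.comp measurable_fst
  · refine Measurable.forall fun j => Measurable.imp measurable_const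
      (Measurable.forall fun x => ?_)
    exact (measurableSet_setOfPred.mp (S.mgd h)).comp
      ((measurable_pi_apply x).comp ((measurable_pi_apply j).comp measurable_snd))
  · refine Measurable.forall fun j => Measurable.imp measurable_const
      (Measurable.forall fun x => Measurable.and ?_ ?_)
    · exact measurableSet_setOfPred.mp (measurableSet_le ((measurable_pi_apply x).comp
        (measurable_fst.comp (Obe3c_mtr S h L j))).norm measurable_const)
    · exact measurableSet_setOfPred.mp (measurableSet_le ((measurable_pi_apply x).comp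
        (measurable_snd.comp (Obe3c_mtr S h L j))).norm measurable_const)

private theorem Obe3c_gs_lint (S : PSys F β k) (h : ℝ) (L n : ℕ) (δ0 : ℝ)
    (m0 : Measure (boxS d L → F.V)) [IsProbabilityMeasure m0]
    (Φ : (boxS d L → F.V) × (ℕ → boxS d L → S.Ωp) → ℝ≥0∞) (hΦ : Measurable Φ) :
    ∫⁻ p in Obe3c_gs S h L n δ0, Φ p ∂(m0.prod (PI (S.mu L))) =
      ∫⁻ G in (EL d L δ0)ᶜ, ∫⁻ ω in S.alv h L (G, (0 : boxS d L → F.V)) n, Φ (G, ω)
        ∂(PI (S.mu L)) ∂m0 := by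
  have hPI : IsProbabilityMeasure (PI (S.mu L)) := by unfold PI; infer_instance
  rw [← lintegral_indicator (Obe3c_mgs S h L n δ0),
    lintegral_prod _ (hΦ.indicator (Obe3c_mgs S h L n δ0)).aemeasurable,
    ← lintegral_indicator (Obe3c_mEL L δ0).compl]
  refine lintegral_congr fun G => ?_
  by_cases hG : G ∈ EL d L δ0
  · rw [Set.indicator_of_notMem (by simpa using hG)]
    have h1 : ∀ ω : ℕ → boxS d L → S.Ωp,
        (Obe3c_gs S h L n δ0).indicator Φ (G, ω) = 0 := fun ω =>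
      Set.indicator_of_notMem (fun hh => hh.1 hG) _
    simp only [h1, lintegral_zero]
  · have halv : MeasurableSet (S.alv h L (G, (0 : boxS d L → F.V)) n) := by
      have h2 : S.alv h L (G, (0 : boxS d L → F.V)) n =
          (fun ω => (G, ω)) ⁻¹' (Obe3c_gs S h L n δ0) := by
        ext ω
        exact ⟨fun hh => ⟨hG, hh⟩, fun hh => hh.2⟩
      rw [h2]
      exact (measurable_const.prodMk measurable_id) (Obe3c_mgs S h L n δ0)
    rw [Set.indicator_of_mem (by simpa using hG), ← lintegral_indicator halv]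
    refine lintegral_congr fun ω => ?_
    by_cases hω : ω ∈ S.alv h L (G, (0 : boxS d L → F.V)) n
    · rw [Set.indicator_of_mem (show (G, ω) ∈ Obe3c_gs S h L n δ0 from ⟨hG, hω⟩),
        Set.indicator_of_mem hω]
    · rw [Set.indicator_of_notMem (show (G, ω) ∉ Obe3c_gs S h L n δ0 from fun hh => hω hh.2),
        Set.indicator_of_notMem hω]

private theorem Obe3c_law_map (S : PSys F β k) (h : ℝ) (L n : ℕ)
    (m0 : Measure (boxS d L → F.V)) [IsProbabilityMeasure m0] :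
    F.law h L m0 n = (m0.prod (PI (S.mu L))).map (Obe3c_H S h L n) := by
  have hPI : IsProbabilityMeasure (PI (S.mu L)) := by unfold PI; infer_instance
  refine Measure.ext fun s hs => ?_
  have hg : Measurable (s.indicator (1 : (boxS d L → F.V) → ℝ≥0∞)) :=
    measurable_one.indicator hs
  have hgH : Measurable fun p => s.indicator (1 : (boxS d L → F.V) → ℝ≥0∞)
      (Obe3c_H S h L n p) := hg.comp (Obe3c_mH S h L n)
  rw [← lintegral_indicator_one hs, ← lintegral_indicator_one hs,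
    (Obe3c_law F h L m0 n).2 _ hg, lintegral_map hg (Obe3c_mH S h L n),
    lintegral_prod _ hgH.aemeasurable]
  refine lintegral_congr fun G => ?_
  have e := (tr_marg S h L (G, (0 : boxS d L → F.V)) n).1
  have m1 : Measurable fun ω : ℕ → boxS d L → S.Ωp => (S.tr h L (G, (0 : boxS d L → F.V)) ω n).1 :=
    (Obe3c_mH S h L n).comp (measurable_const.prodMk measurable_id)
  have m2 : Measurable fun ω : ℕ → boxS d L → F.Ω0 => traj (F.st h L) G ω n :=
    (Obe3c_mtraj F h L n).comp (measurable_const.prodMk measurable_id)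
  have e1 := lintegral_map (μ := PI (S.mu L)) hg m1
  have e2 := lintegral_map (μ := PI (F.mu L)) hg m2
  rw [e, e2] at e1
  exact e1

private theorem Obe3c_lin (ρ : Measure F.V) [IsProbabilityMeasure ρ] {L : ℕ} (m : ℝ) (hm0 : 0 ≤ m)
    (hm : ∫⁻ v, ENNReal.ofReal ‖v‖ ∂ρ = ENNReal.ofReal m) (c : boxS d L → ℝ)
    (hc : ∀ w, 0 ≤ c w) :
    ∫⁻ G, ENNReal.ofReal (∑ w, c w * ‖G w‖) ∂(Measure.pi fun _ : boxS d L => ρ) =
      ENNReal.ofReal ((∑ w, c w) * m) := by
  have e1 : ∀ G : boxS d L → F.V, ENNReal.ofReal (∑ w, c w * ‖G w‖) =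
      ∑ w, ENNReal.ofReal (c w) * ENNReal.ofReal ‖G w‖ := by
    intro G
    rw [ENNReal.ofReal_sum_of_nonneg fun w _ => mul_nonneg (hc w) (norm_nonneg _)]
    exact Finset.sum_congr rfl fun w _ => ENNReal.ofReal_mul (hc w)
  have mn : ∀ w : boxS d L, Measurable fun G : boxS d L → F.V => ENNReal.ofReal ‖G w‖ :=
    fun w => ENNReal.measurable_ofReal.comp (measurable_pi_apply w).norm
  simp only [e1]
  rw [lintegral_finsetSum _ fun w _ => (mn w).const_mul _, Finset.sum_mul,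
    ENNReal.ofReal_sum_of_nonneg fun w _ => mul_nonneg (hc w) hm0]
  refine Finset.sum_congr rfl fun w _ => ?_
  rw [lintegral_const_mul _ (mn w), ENNReal.ofReal_mul (hc w)]
  congr 1
  have e2 := (measurePreserving_eval (fun _ : boxS d L => ρ) w).lintegral_comp
    (f := fun v : F.V => ENNReal.ofReal ‖v‖) (ENNReal.measurable_ofReal.comp measurable_norm)
  rw [← hm, ← e2]

private theorem Obe3c_side (hd : 1 ≤ d) (S : PSys F β k)
    (q s a θ TB BD BV κ' CV K cd CM : ℝ) (Ls : ℕ)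
    (B : Blk S q s a θ TB BD BV κ' CV K cd Ls) (hM : MomU S CM) (hks : k ^ (-s) ≤ 11 / 10)
    (ρ : Measure F.V) [IsProbabilityMeasure ρ] (h0 : ρ {0} = 0)
    (h2 : Integrable (fun x : F.V => ‖x‖ ^ 2) ρ) :
    ∃ Cv Cm : ℝ, 0 ≤ Cv ∧ 0 ≤ Cm ∧ ∀ η : ℝ, 0 < η → ∃ L1 : ℕ, ∀ L, L1 ≤ L →
      ∀ Sm : ℝ, 0 ≤ Sm → ∃ CL : ℝ, 0 ≤ CL ∧ ∀ ε0 : ℝ, 0 < ε0 → ∃ h0 : ℝ, 0 < h0 ∧
      ∀ h, 0 < h → h < h0 → ∀ n : ℕ, n * h ≤ Sm → ∃ N B' : Measure (boxS d L → F.V),
        F.law h L (Measure.pi fun _ => ρ) n = N + B' ∧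
        B' Set.univ ≤ ENNReal.ofReal (η + ε0) ∧ N Set.univ ≤ 1 ∧
        (∀ x, ∫⁻ H, ENNReal.ofReal ‖H x‖ ∂N ≤ ENNReal.ofReal Cm) ∧
        (∀ y, ∫⁻ H, ENNReal.ofReal (SSt (boxNet d L) k (fun w => ‖H w‖) y) ∂N ≤
          ENNReal.ofReal Cm) ∧
        (∀ x, ∫⁻ H, Vp (boxNet d L) k q s (fun y => ‖H y‖) (fun y => ‖H y‖) x ^ 2 ∂N ≤
          ENNReal.ofReal Cv) ∧
        ∫⁻ H, ENNReal.ofReal (∑ x, ‖H x‖) ∂N ≤ ENNReal.ofReal CL := by
  obtain ⟨δ0, C, hδ0, hC, hEL, hV⟩ := V_start d hd k q s B.hk B.hk1 B.hq B.hs B.hqs hks ρ h0 h2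
  have h1 : Integrable (fun v : F.V => ‖v‖) ρ := by
    refine Integrable.mono' ((integrable_const (1 : ℝ)).add h2) continuous_norm.aestronglyMeasurable
      (Filter.Eventually.of_forall fun v => ?_)
    rw [norm_norm]
    simp only [Pi.add_apply]
    nlinarith [sq_nonneg (‖v‖ - 1), norm_nonneg v]
  set m : ℝ := ∫ v, ‖v‖ ∂ρ with hmdef
  have hm0 : 0 ≤ m := integral_nonneg fun v => norm_nonneg v
  have hm : ∫⁻ v, ENNReal.ofReal ‖v‖ ∂ρ = ENNReal.ofReal m :=
    (ofReal_integral_eq_lintegral_ofReal h1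
      (Filter.Eventually.of_forall fun v => norm_nonneg v)).symm
  set CvE : ℝ≥0∞ := ENNReal.ofReal BV *
    ((ENNReal.ofReal C) ^ (1 / 2 : ℝ) + ENNReal.ofReal (2 * CV)) ^ 2 with hCvE
  have hCvT : CvE ≠ ⊤ := by
    refine ENNReal.mul_ne_top ENNReal.ofReal_ne_top (ENNReal.pow_ne_top ?_)
    exact ENNReal.add_ne_top.mpr ⟨ENNReal.rpow_ne_top_of_nonneg (by norm_num)
      ENNReal.ofReal_ne_top, ENNReal.ofReal_ne_top⟩
  have hCm : 0 ≤ |CM| * (1 + 3 ^ d * m) := by positivity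
  refine ⟨CvE.toReal, 1 + |CM| * (1 + 3 ^ d * m), ENNReal.toReal_nonneg, by linarith, ?_⟩
  intro η hη
  obtain ⟨L1, hL1⟩ := hEL η hη
  refine ⟨max L1 Ls, fun L hL Sm hSm => ?_⟩
  have hLs : Ls ≤ L := le_trans (le_max_right _ _) hL
  have hL1' := hL1 L (le_trans (le_max_left _ _) hL)
  obtain ⟨Cs, hs0, hCs1, hs0p, hsum⟩ := B.sum L Sm hSm
  set cr : ℝ := (Fintype.card (boxS d L) : ℝ) with hcr
  have hcr0 : 0 ≤ cr := Nat.cast_nonneg _
  refine ⟨Cs * (cr * m), mul_nonneg (by linarith) (mul_nonneg hcr0 hm0), fun ε0 hε0 => ?_⟩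
  have hden : 0 < 1 + cr * m := by nlinarith [mul_nonneg hcr0 hm0]
  obtain ⟨he, hep, hexit⟩ := B.exit L Sm (ε0 / (1 + cr * m)) hSm (div_pos hε0 hden)
  obtain ⟨hv, hvp, hVall⟩ := V_all S q s a θ TB BD BV κ' CV K cd Ls B L hLs
  obtain ⟨hmo, hmop, hMom⟩ := hM L
  refine ⟨min (min hs0 he) (min hv hmo), lt_min (lt_min hs0p hep) (lt_min hvp hmop), ?_⟩
  intro h hh hhlt n hn
  have l1 : h < hs0 := lt_of_lt_of_le hhlt ((min_le_left _ _).trans (min_le_left _ _))
  have l2 : h < he := lt_of_lt_of_le hhlt ((min_le_left _ _).trans (min_le_right _ _))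
  have l3 : h < hv := lt_of_lt_of_le hhlt ((min_le_right _ _).trans (min_le_left _ _))
  have l4 : h < hmo := lt_of_lt_of_le hhlt ((min_le_right _ _).trans (min_le_right _ _))
  have hPI : IsProbabilityMeasure (PI (S.mu L)) := by unfold PI; infer_instance
  set m0 : Measure (boxS d L → F.V) := Measure.pi fun _ => ρ with hm0def
  have hmgs := Obe3c_mgs S h L n δ0
  have hmH := Obe3c_mH S h L n
  have hmE : MeasurableSet (EL d L δ0 : Set (boxS d L → F.V)) := Obe3c_mEL L δ0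
  set P : Measure ((boxS d L → F.V) × (ℕ → boxS d L → S.Ωp)) := m0.prod (PI (S.mu L)) with hP
  have hNl : ∀ g : (boxS d L → F.V) → ℝ≥0∞, Measurable g →
      ∫⁻ H, g H ∂((P.restrict (Obe3c_gs S h L n δ0)).map (Obe3c_H S h L n)) =
      ∫⁻ G in (EL d L δ0)ᶜ, ∫⁻ ω in S.alv h L (G, (0 : boxS d L → F.V)) n,
        g (Obe3c_H S h L n (G, ω)) ∂(PI (S.mu L)) ∂m0 := by
    intro g hg
    rw [lintegral_map hg hmH]
    exact Obe3c_gs_lint S h L n δ0 m0 (fun p => g (Obe3c_H S h L n p)) (hg.comp hmH)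
  have hfull : ∀ c : boxS d L → ℝ, (∀ w, 0 ≤ c w) →
      ∫⁻ G in (EL d L δ0)ᶜ, ENNReal.ofReal (∑ w, c w * ‖G w‖) ∂m0 ≤
        ENNReal.ofReal ((∑ w, c w) * m) := by
    intro c hc
    rw [← Obe3c_lin ρ m hm0 hm c hc]
    exact setLIntegral_le_lintegral _ _
  -- first moments
  have hYl : ∀ x : boxS d L,
      ∫⁻ H, ENNReal.ofReal (Yl (boxNet d L) (nrm H) x)
        ∂((P.restrict (Obe3c_gs S h L n δ0)).map (Obe3c_H S h L n)) ≤
        ENNReal.ofReal (|CM| * (1 + 3 ^ d * m)) := by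
    intro x
    have mY : Measurable fun H : boxS d L → F.V =>
        ENNReal.ofReal (Yl (boxNet d L) (nrm H) x) := by
      refine ENNReal.measurable_ofReal.comp ?_
      unfold Yl nrm
      exact Finset.measurable_sum _ fun w _ => (measurable_pi_apply w).norm.const_mul _
    rw [hNl _ mY]
    have e1 : ∀ G : boxS d L → F.V,
        ∫⁻ ω in S.alv h L (G, (0 : boxS d L → F.V)) n,
          ENNReal.ofReal (Yl (boxNet d L) (nrm (Obe3c_H S h L n (G, ω))) x) ∂(PI (S.mu L)) ≤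
        ENNReal.ofReal |CM| * (1 + ENNReal.ofReal (∑ w, (1 / 2 : ℝ) ^ (boxNet d L).dist x w *
          ‖G w‖)) := by
      intro G
      refine le_trans (hMom h hh l4 (G, (0 : boxS d L → F.V)) n x) ?_
      have hY0 : 0 ≤ ∑ w, (1 / 2 : ℝ) ^ (boxNet d L).dist x w * ‖G w‖ :=
        Finset.sum_nonneg fun w _ => by positivity
      have e2 : (1 : ℝ≥0∞) + ENNReal.ofReal (∑ w, (1 / 2 : ℝ) ^ (boxNet d L).dist x w * ‖G w‖) =
          ENNReal.ofReal (1 + ∑ w, (1 / 2 : ℝ) ^ (boxNet d L).dist x w * ‖G w‖) := by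
        rw [ENNReal.ofReal_add zero_le_one hY0, ENNReal.ofReal_one]
      rw [e2, ← ENNReal.ofReal_mul (abs_nonneg CM)]
      refine ENNReal.ofReal_le_ofReal ?_
      exact mul_le_mul_of_nonneg_right (le_abs_self CM) (by
        show 0 ≤ 1 + Yl (boxNet d L) (nrm G) x
        exact add_nonneg zero_le_one hY0)
    refine le_trans (lintegral_mono fun G => e1 G) ?_
    have mS : Measurable fun G : boxS d L → F.V =>
        ENNReal.ofReal (∑ w, (1 / 2 : ℝ) ^ (boxNet d L).dist x w * ‖G w‖) :=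
      ENNReal.measurable_ofReal.comp
        (Finset.measurable_sum _ fun w _ => (measurable_pi_apply w).norm.const_mul _)
    rw [lintegral_const_mul _ (mS.const_add _), lintegral_add_right _ mS, lintegral_const,
      ENNReal.ofReal_mul (abs_nonneg CM)]
    refine mul_le_mul' le_rfl ?_
    rw [ENNReal.ofReal_add zero_le_one (by positivity), ENNReal.ofReal_one]
    refine add_le_add ?_ ?_
    · rw [one_mul, Measure.restrict_apply MeasurableSet.univ, Set.univ_inter]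
      exact prob_le_one
    · refine le_trans (hfull _ fun w => by positivity) (ENNReal.ofReal_le_ofReal ?_)
      exact mul_le_mul_of_nonneg_right ((boxNet d L).sum_half x) hm0
  refine ⟨(P.restrict (Obe3c_gs S h L n δ0)).map (Obe3c_H S h L n),
    (P.restrict (Obe3c_gs S h L n δ0)ᶜ).map (Obe3c_H S h L n), ?_, ?_, ?_, ?_, ?_, ?_, ?_⟩
  · rw [Obe3c_law_map S h L n m0, ← Measure.map_add _ _ hmH,
      Measure.restrict_add_restrict_compl hmgs]
  · rw [Measure.map_apply hmH MeasurableSet.univ, Set.preimage_univ, Measure.restrict_apply_univ,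
      hP, Measure.prod_apply hmgs.compl]
    have e1 : ∀ G : boxS d L → F.V, PI (S.mu L) (Prod.mk G ⁻¹' (Obe3c_gs S h L n δ0)ᶜ) ≤
        (EL d L δ0).indicator 1 G + ENNReal.ofReal (ε0 / (1 + cr * m)) *
          (1 + ENNReal.ofReal (∑ w, (1 : ℝ) * ‖G w‖)) := by
      intro G
      by_cases hG : G ∈ EL d L δ0
      · rw [Set.indicator_of_mem hG]
        exact le_trans prob_le_one le_self_add
      · rw [Set.indicator_of_notMem hG, zero_add]
        have e2 : Prod.mk G ⁻¹' (Obe3c_gs S h L n δ0)ᶜ ⊆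
            (S.alv h L (G, (0 : boxS d L → F.V)) n)ᶜ := by
          intro ω hω hh'
          exact hω ⟨hG, hh'⟩
        refine le_trans (measure_mono e2)
          (le_trans (hexit h hh l2 (G, (0 : boxS d L → F.V)) n hn) ?_)
        have hY0 : 0 ≤ ∑ w : boxS d L, (1 : ℝ) * ‖G w‖ :=
          Finset.sum_nonneg fun w _ => by positivity
        have e3 : (1 : ℝ≥0∞) + ENNReal.ofReal (∑ w, (1 : ℝ) * ‖G w‖) =
            ENNReal.ofReal (1 + ∑ w, (1 : ℝ) * ‖G w‖) := by
          rw [ENNReal.ofReal_add zero_le_one hY0, ENNReal.ofReal_one]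
        rw [e3, ← ENNReal.ofReal_mul (div_pos hε0 hden).le]
        refine ENNReal.ofReal_le_ofReal (le_of_eq ?_)
        congr 2
        refine Finset.sum_congr rfl fun w _ => ?_
        simp
    refine le_trans (lintegral_mono fun G => e1 G) ?_
    have mS : Measurable fun G : boxS d L → F.V => ENNReal.ofReal (∑ w, (1 : ℝ) * ‖G w‖) :=
      ENNReal.measurable_ofReal.comp
        (Finset.measurable_sum _ fun w _ => (measurable_pi_apply w).norm.const_mul _)
    rw [lintegral_add_left (measurable_one.indicator hmE), lintegral_indicator_one hmE,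
      lintegral_const_mul _ (mS.const_add _), lintegral_add_right _ mS, lintegral_const,
      Obe3c_lin ρ m hm0 hm _ (fun _ => zero_le_one), ENNReal.ofReal_add hη.le hε0.le]
    refine add_le_add hL1' ?_
    have e4 : (1 : ℝ≥0∞) * m0 Set.univ + ENNReal.ofReal ((∑ _w : boxS d L, (1 : ℝ)) * m) =
        ENNReal.ofReal (1 + cr * m) := by
      rw [measure_univ, one_mul, ENNReal.ofReal_add zero_le_one (mul_nonneg hcr0 hm0),
        ENNReal.ofReal_one]
      congr 3
      simp [hcr]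
    rw [e4, ← ENNReal.ofReal_mul (div_pos hε0 hden).le]
    exact ENNReal.ofReal_le_ofReal (le_of_eq (div_mul_cancel₀ _ hden.ne'))
  · rw [Measure.map_apply hmH MeasurableSet.univ, Set.preimage_univ, Measure.restrict_apply_univ]
    exact prob_le_one
  · intro x
    refine le_trans (lintegral_mono fun H => ENNReal.ofReal_le_ofReal ?_)
      (le_trans (hYl x) (ENNReal.ofReal_le_ofReal (by linarith)))
    unfold Yl nrm
    have e1 := Finset.single_le_sum (f := fun w => (1 / 2 : ℝ) ^ (boxNet d L).dist x w * ‖H w‖)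
      (fun w _ => by positivity) (Finset.mem_univ x)
    simp only [(boxNet d L).dist_self, pow_zero, one_mul] at e1
    exact e1
  · intro y
    have mY : Measurable fun H : boxS d L → F.V =>
        ENNReal.ofReal (Yl (boxNet d L) (nrm H) y) := by
      refine ENNReal.measurable_ofReal.comp ?_
      unfold Yl nrm
      exact Finset.measurable_sum _ fun w _ => (measurable_pi_apply w).norm.const_mul _
    have e1 : ∀ H : boxS d L → F.V, ENNReal.ofReal (SSt (boxNet d L) k (fun w => ‖H w‖) y) ≤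
        1 + ENNReal.ofReal (Yl (boxNet d L) (nrm H) y) := by
      intro H
      have hY0 : 0 ≤ Yl (boxNet d L) (nrm H) y := by
        unfold Yl nrm
        exact Finset.sum_nonneg fun w _ => by positivity
      rw [← ENNReal.ofReal_one, ← ENNReal.ofReal_add zero_le_one hY0]
      refine ENNReal.ofReal_le_ofReal ?_
      have e2 : k ^ (1 / 16 : ℝ) ≤ 1 := Real.rpow_le_one B.hk.le B.hk1.le (by norm_num)
      have e3 : SSt (boxNet d L) k (fun w => ‖H w‖) y =
          1 + k ^ (1 / 16 : ℝ) * Yl (boxNet d L) (nrm H) y := rfl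
      rw [e3]
      nlinarith
    refine le_trans (lintegral_mono fun H => e1 H) ?_
    rw [lintegral_add_right _ mY, lintegral_const, one_mul,
      ENNReal.ofReal_add zero_le_one hCm, ENNReal.ofReal_one]
    refine add_le_add ?_ (hYl y)
    rw [Measure.map_apply hmH MeasurableSet.univ, Set.preimage_univ, Measure.restrict_apply_univ]
    exact prob_le_one
  · intro x
    have mV : Measurable fun H : boxS d L → F.V =>
        Vp (boxNet d L) k q s (fun y => ‖H y‖) (fun y => ‖H y‖) x ^ 2 :=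
      (Obe3c_mVp k q s x _ _ (fun y => (measurable_pi_apply y).norm)
        (fun y => (measurable_pi_apply y).norm)).pow_const 2
    rw [hNl _ mV, ENNReal.ofReal_toReal hCvT]
    have e1 : ∀ (G : boxS d L → F.V) (ω : ℕ → boxS d L → S.Ωp),
        Vp (boxNet d L) k q s (fun y => ‖Obe3c_H S h L n (G, ω) y‖)
          (fun y => ‖Obe3c_H S h L n (G, ω) y‖) x ^ 2 ≤
        V1 k q s (S.tr h L (G, (0 : boxS d L → F.V)) ω n) x ^ 2 := by
      intro G ω
      refine pow_le_pow_left' ?_ 2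
      exact Obe3c_Vmono B.hk (by linarith [B.hq]) B.hs _ _ _ (fun w => norm_nonneg _)
        (fun w => le_add_of_nonneg_right (norm_nonneg _)) x
    refine le_trans (lintegral_mono fun G => lintegral_mono fun ω => e1 G ω) ?_
    refine le_trans (hVall h hh l3 (m0.restrict (EL d L δ0)ᶜ) n x) ?_
    rw [hCvE]
    refine mul_le_mul' le_rfl (pow_le_pow_left' (add_le_add ?_ ?_) 2)
    · exact ENNReal.rpow_le_rpow (hV L x) (by norm_num)
    · refine le_trans (mul_le_mul' le_rfl (ENNReal.rpow_le_rpow ?_ (by norm_num) :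
        _ ≤ (1 : ℝ≥0∞) ^ (1 / 2 : ℝ))) ?_
      · rw [Measure.restrict_apply_univ]
        exact prob_le_one
      · rw [ENNReal.one_rpow, mul_one]
  · have mS : Measurable fun G : boxS d L → F.V => ENNReal.ofReal (∑ w, ‖G w‖) :=
      ENNReal.measurable_ofReal.comp
        (Finset.measurable_sum _ fun w _ => (measurable_pi_apply w).norm)
    rw [hNl _ mS]
    have e1 : ∀ G : boxS d L → F.V,
        ∫⁻ ω in S.alv h L (G, (0 : boxS d L → F.V)) n,
          ENNReal.ofReal (∑ w, ‖Obe3c_H S h L n (G, ω) w‖) ∂(PI (S.mu L)) ≤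
        ENNReal.ofReal (∑ w, Cs * ‖G w‖) := by
      intro G
      refine le_trans (setLIntegral_le_lintegral _ _) ?_
      refine le_trans (lintegral_mono fun ω => ENNReal.ofReal_le_ofReal ?_)
        (le_trans (hsum h hh l1 (G, (0 : boxS d L → F.V)) n hn)
          (ENNReal.ofReal_le_ofReal (le_of_eq ?_)))
      · exact Finset.sum_le_sum fun w _ => le_add_of_nonneg_right (norm_nonneg _)
      · rw [Finset.mul_sum]
        refine Finset.sum_congr rfl fun w _ => ?_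
        simp
    refine le_trans (lintegral_mono fun G => e1 G) ?_
    refine le_trans (hfull (fun _ => Cs) fun _ => by linarith) (ENNReal.ofReal_le_ofReal ?_)
    rw [Finset.sum_const, nsmul_eq_mul, Finset.card_univ, ← hcr]
    exact le_of_eq (by ring)

end side


/-! ### Two sides -/

private theorem Obe3c_sq {ι : Type} (S : Finset ι) (a b : ι → ℝ≥0∞) :
    (∑ z ∈ S, a z * b z) ^ 2 ≤ 2 * (∑ z ∈ S, a z) * ∑ z ∈ S, a z * b z ^ 2 := by
  have h1 : ∀ u v : ℝ≥0∞, u * v ≤ u ^ 2 + v ^ 2 := by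
    intro u v
    rcases le_total u v with h | h
    · calc u * v ≤ v * v := mul_le_mul' h le_rfl
        _ = v ^ 2 := (sq v).symm
        _ ≤ u ^ 2 + v ^ 2 := le_add_self
    · calc u * v ≤ u * u := mul_le_mul' le_rfl h
        _ = u ^ 2 := (sq u).symm
        _ ≤ u ^ 2 + v ^ 2 := le_self_add
  rw [sq, Finset.sum_mul_sum]
  calc ∑ i ∈ S, ∑ j ∈ S, a i * b i * (a j * b j)
      ≤ ∑ i ∈ S, ∑ j ∈ S, (a i * b i ^ 2 * a j + a i * (a j * b j ^ 2)) := by
        refine Finset.sum_le_sum fun i _ => Finset.sum_le_sum fun j _ => ?_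
        calc a i * b i * (a j * b j) = a i * a j * (b i * b j) := by ring
          _ ≤ a i * a j * (b i ^ 2 + b j ^ 2) := mul_le_mul' le_rfl (h1 _ _)
          _ = a i * b i ^ 2 * a j + a i * (a j * b j ^ 2) := by ring
    _ = 2 * (∑ z ∈ S, a z) * ∑ z ∈ S, a z * b z ^ 2 := by
        simp only [Finset.sum_add_distrib]
        rw [← Finset.sum_mul_sum, ← Finset.sum_mul_sum]
        ring

private theorem Obe3c_add_sq (u v : ℝ≥0∞) : (u + v) ^ 2 ≤ 4 * (u ^ 2 + v ^ 2) := by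
  rcases le_total u v with h | h
  · calc (u + v) ^ 2 ≤ (v + v) ^ 2 := pow_le_pow_left' (add_le_add h le_rfl) 2
      _ = 4 * v ^ 2 := by ring
      _ ≤ 4 * (u ^ 2 + v ^ 2) := mul_le_mul' le_rfl le_add_self
  · calc (u + v) ^ 2 ≤ (u + u) ^ 2 := pow_le_pow_left' (add_le_add le_rfl h) 2
      _ = 4 * u ^ 2 := by ring
      _ ≤ 4 * (u ^ 2 + v ^ 2) := mul_le_mul' le_rfl le_self_add

private theorem Obe3c_rpow {t θ : ℝ} (ht : 0 ≤ t) (hθ : 0 < θ) (hθ1 : θ ≤ 1 / 2) :
    (t ^ θ) ^ 2 ≤ 1 + t := by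
  rw [← Real.rpow_natCast, ← Real.rpow_mul ht]
  rcases le_or_gt t 1 with h | h
  · have := Real.rpow_le_one ht h (by positivity : (0 : ℝ) ≤ θ * ((2 : ℕ) : ℝ))
    linarith
  · calc t ^ (θ * ((2 : ℕ) : ℝ)) ≤ t ^ (1 : ℝ) :=
          Real.rpow_le_rpow_of_exponent_le h.le (by push_cast; linarith)
      _ = t := Real.rpow_one t
      _ ≤ 1 + t := by linarith

section pair

variable {V : Type} [NormedAddCommGroup V] [MeasurableSpace V]
  [BorelSpace V] [SecondCountableTopology V] {L : ℕ}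

omit [SecondCountableTopology V] in
private theorem Obe3c_V1int {k q s : ℝ} (hk : 0 < k) (hq : 0 ≤ q) (hs : 0 < s)
    (hqs : 2 * q * s ≤ 1) (N1 N2 : Measure (boxS d L → V)) [IsFiniteMeasure N1]
    [IsFiniteMeasure N2] (Cv Cm : ℝ) (hCv : 0 ≤ Cv) (z : boxS d L)
    (hS : ∀ y, ∫⁻ H, ENNReal.ofReal (SSt (boxNet d L) k (fun w => ‖H w‖) y) ∂N2 ≤
      ENNReal.ofReal Cm)
    (hV : ∫⁻ H, Vp (boxNet d L) k q s (fun y => ‖H y‖) (fun y => ‖H y‖) z ^ 2 ∂N1 ≤
      ENNReal.ofReal Cv) :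
    ∫⁻ H, ∫⁻ H', Vp (boxNet d L) k q s (fun y => ‖H y‖) (fun y => ‖H y‖ + ‖H' y‖) z ^ 2 ∂N2 ∂N1 ≤
      ENNReal.ofReal (Cv * Cm) := by
  have e1 : ∀ H : boxS d L → V,
      ∫⁻ H', Vp (boxNet d L) k q s (fun y => ‖H y‖) (fun y => ‖H y‖ + ‖H' y‖) z ^ 2 ∂N2 ≤
      Vp (boxNet d L) k q s (fun y => ‖H y‖) (fun y => ‖H y‖) z ^ 2 * ENNReal.ofReal Cm := by
    intro H
    obtain ⟨y, hy⟩ := Obe3c_Vadd hk hq hs hqs (fun y => ‖H y‖) (fun y => ‖H y‖)
      (fun w => norm_nonneg _) z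
    refine le_trans (lintegral_mono fun H' => hy (fun w => ‖H' w‖) fun w => norm_nonneg _) ?_
    have mS : Measurable fun H' : boxS d L → V =>
        ENNReal.ofReal (SSt (boxNet d L) k (fun w => ‖H' w‖) y) :=
      ENNReal.measurable_ofReal.comp
        (Obe3c_mSSt k _ (fun w => (measurable_pi_apply w).norm) y)
    rw [lintegral_const_mul _ mS]
    exact mul_le_mul' le_rfl (hS y)
  refine le_trans (lintegral_mono fun H => e1 H) ?_
  have mV : Measurable fun H : boxS d L → V =>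
      Vp (boxNet d L) k q s (fun y => ‖H y‖) (fun y => ‖H y‖) z ^ 2 :=
    (Obe3c_mVp k q s z _ _ (fun y => (measurable_pi_apply y).norm)
      (fun y => (measurable_pi_apply y).norm)).pow_const 2
  rw [lintegral_mul_const _ mV, ENNReal.ofReal_mul hCv]
  exact mul_le_mul' hV le_rfl

private theorem Obe3c_pair {k q s α θ : ℝ} (hk : 0 < k) (hk1 : k < 1) (hq : 1 ≤ q) (hs : 0 < s)
    (hqs : 4 * q * s ≤ 1) (hα : 0 ≤ α) (hθ : 0 < θ) (hθ1 : θ ≤ 1 / 2)
    (N1 N2 : Measure (boxS d L → V)) (hN1 : N1 Set.univ ≤ 1) (hN2 : N2 Set.univ ≤ 1)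
    (Cv Cm CL cd : ℝ) (hCv : 0 ≤ Cv) (hCm : 0 ≤ Cm) (hCL : 0 ≤ CL) (hcd : 0 ≤ cd)
    (hcd' : ∀ x : boxS d L, ∑ z, α ^ (boxNet d L).dist x z ≤ cd)
    (hn1 : ∀ x, ∫⁻ H, ENNReal.ofReal ‖H x‖ ∂N1 ≤ ENNReal.ofReal Cm)
    (hn2 : ∀ x, ∫⁻ H, ENNReal.ofReal ‖H x‖ ∂N2 ≤ ENNReal.ofReal Cm)
    (hS1 : ∀ y, ∫⁻ H, ENNReal.ofReal (SSt (boxNet d L) k (fun w => ‖H w‖) y) ∂N1 ≤
      ENNReal.ofReal Cm)
    (hS2 : ∀ y, ∫⁻ H, ENNReal.ofReal (SSt (boxNet d L) k (fun w => ‖H w‖) y) ∂N2 ≤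
      ENNReal.ofReal Cm)
    (hV1 : ∀ z, ∫⁻ H, Vp (boxNet d L) k q s (fun y => ‖H y‖) (fun y => ‖H y‖) z ^ 2 ∂N1 ≤
      ENNReal.ofReal Cv)
    (hV2 : ∀ z, ∫⁻ H, Vp (boxNet d L) k q s (fun y => ‖H y‖) (fun y => ‖H y‖) z ^ 2 ∂N2 ≤
      ENNReal.ofReal Cv)
    (hL1 : ∫⁻ H, ENNReal.ofReal (∑ x, ‖H x‖) ∂N1 ≤ ENNReal.ofReal CL)
    (hL2 : ∫⁻ H, ENNReal.ofReal (∑ x, ‖H x‖) ∂N2 ≤ ENNReal.ofReal CL)
    (A : boxS d L → ℝ) (hA : ∀ x, 0 ≤ A x) (ε : ℝ) (he : 0 ≤ ε) (f : (boxS d L → V) → ℂ)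
    (hfm : Measurable f) (hf : Cls (boxNet d L) k q s α θ A ε f) :
    ∫⁻ H, ∫⁻ H', ENNReal.ofReal ‖f H - f H'‖ ∂N2 ∂N1 ≤
      ENNReal.ofReal (4 * (1 + 2 * Cm + 16 * cd ^ 2 * (Cv * Cm)) * ∑ x, A x +
        2 * (Fintype.card (boxS d L)) * ε * (1 + 4 * CL)) := by
  have i1 : IsFiniteMeasure N1 := ⟨lt_of_le_of_lt hN1 ENNReal.one_lt_top⟩
  have i2 : IsFiniteMeasure N2 := ⟨lt_of_le_of_lt hN2 ENNReal.one_lt_top⟩
  have mf : Measurable fun p : (boxS d L → V) × (boxS d L → V) =>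
      ENNReal.ofReal ‖f p.1 - f p.2‖ :=
    ENNReal.measurable_ofReal.comp ((hfm.comp measurable_fst).sub (hfm.comp measurable_snd)).norm
  have e0 : ∫⁻ H, ∫⁻ H', ENNReal.ofReal ‖f H - f H'‖ ∂N2 ∂N1 =
      ∫⁻ p, ENNReal.ofReal ‖f p.1 - f p.2‖ ∂(N1.prod N2) :=
    (lintegral_prod _ mf.aemeasurable).symm
  rw [e0]
  -- measurability of the pieces
  have mx1 : ∀ x : boxS d L, Measurable fun p : (boxS d L → V) × (boxS d L → V) => ‖p.1 x‖ :=
    fun x => ((measurable_pi_apply x).comp measurable_fst).norm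
  have mx2 : ∀ x : boxS d L, Measurable fun p : (boxS d L → V) × (boxS d L → V) => ‖p.2 x‖ :=
    fun x => ((measurable_pi_apply x).comp measurable_snd).norm
  have mV1 : ∀ z : boxS d L, Measurable fun p : (boxS d L → V) × (boxS d L → V) =>
      Vp (boxNet d L) k q s (fun y => ‖p.1 y‖) (fun y => ‖p.1 y‖ + ‖p.2 y‖) z ^ 2 := fun z =>
    (Obe3c_mVp k q s z _ _ mx1 (fun y => (mx1 y).add (mx2 y))).pow_const 2
  have mV2 : ∀ z : boxS d L, Measurable fun p : (boxS d L → V) × (boxS d L → V) =>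
      Vp (boxNet d L) k q s (fun y => ‖p.2 y‖) (fun y => ‖p.1 y‖ + ‖p.2 y‖) z ^ 2 := fun z =>
    (Obe3c_mVp k q s z _ _ mx2 (fun y => (mx1 y).add (mx2 y))).pow_const 2
  -- integrals of the pieces
  have iV1 : ∀ z : boxS d L, ∫⁻ p, Vp (boxNet d L) k q s (fun y => ‖p.1 y‖)
      (fun y => ‖p.1 y‖ + ‖p.2 y‖) z ^ 2 ∂(N1.prod N2) ≤ ENNReal.ofReal (Cv * Cm) := by
    intro z
    rw [lintegral_prod _ (mV1 z).aemeasurable]
    exact Obe3c_V1int hk (by linarith) hs (by nlinarith) N1 N2 Cv Cm hCv z hS2 (hV1 z)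
  have iV2 : ∀ z : boxS d L, ∫⁻ p, Vp (boxNet d L) k q s (fun y => ‖p.2 y‖)
      (fun y => ‖p.1 y‖ + ‖p.2 y‖) z ^ 2 ∂(N1.prod N2) ≤ ENNReal.ofReal (Cv * Cm) := by
    intro z
    rw [lintegral_prod_symm _ (mV2 z).aemeasurable]
    have e1 : ∀ H H' : boxS d L → V, (fun y => ‖H' y‖ + ‖H y‖) = fun y => ‖H y‖ + ‖H' y‖ :=
      fun H H' => funext fun y => add_comm _ _
    simp only [e1]
    exact Obe3c_V1int hk (by linarith) hs (by nlinarith) N2 N1 Cv Cm hCv z hS1 (hV2 z)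
  have iF : ∀ (g : (boxS d L → V) → ℝ≥0∞), Measurable g → ∀ c : ℝ≥0∞,
      ∫⁻ H, g H ∂N1 ≤ c → ∫⁻ p, g p.1 ∂(N1.prod N2) ≤ c := by
    intro g hg c hc
    have mg : Measurable fun p : (boxS d L → V) × (boxS d L → V) => g p.1 :=
      hg.comp measurable_fst
    rw [lintegral_prod _ mg.aemeasurable]
    refine le_trans (lintegral_mono fun H => ?_) hc
    show ∫⁻ _, g H ∂N2 ≤ g H
    rw [lintegral_const]
    exact le_trans (mul_le_mul' le_rfl hN2) (mul_one _).le
  have iG : ∀ (g : (boxS d L → V) → ℝ≥0∞), Measurable g → ∀ c : ℝ≥0∞,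
      ∫⁻ H, g H ∂N2 ≤ c → ∫⁻ p, g p.2 ∂(N1.prod N2) ≤ c := by
    intro g hg c hc
    have mg : Measurable fun p : (boxS d L → V) × (boxS d L → V) => g p.2 :=
      hg.comp measurable_snd
    rw [lintegral_prod _ mg.aemeasurable]
    show ∫⁻ _, ∫⁻ H', g H' ∂N2 ∂N1 ≤ c
    rw [lintegral_const]
    exact le_trans (mul_le_mul' hc hN1) (mul_one _).le
  have iU : (N1.prod N2) Set.univ ≤ 1 := by
    rw [Measure.prod_apply MeasurableSet.univ]
    simp only [Set.preimage_univ, lintegral_const]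
    exact le_trans (mul_le_mul' hN2 hN1) (mul_one _).le
  set cE : ℝ≥0∞ := ENNReal.ofReal cd with hcE
  set vE : ℝ≥0∞ := ENNReal.ofReal (Cv * Cm) with hvE
  set mE : ℝ≥0∞ := ENNReal.ofReal Cm with hmE
  -- pointwise
  have hpt : ∀ p : (boxS d L → V) × (boxS d L → V), ENNReal.ofReal ‖f p.1 - f p.2‖ ≤
      ∑ x, ENNReal.ofReal (4 * A x) * ((1 + (ENNReal.ofReal ‖p.1 x‖ + ENNReal.ofReal ‖p.2 x‖)) +
        8 * cE * ∑ z, ENNReal.ofReal (α ^ (boxNet d L).dist x z) *
          (Vp (boxNet d L) k q s (fun y => ‖p.1 y‖) (fun y => ‖p.1 y‖ + ‖p.2 y‖) z ^ 2 +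
            Vp (boxNet d L) k q s (fun y => ‖p.2 y‖) (fun y => ‖p.1 y‖ + ‖p.2 y‖) z ^ 2)) +
      ENNReal.ofReal (2 * (Fintype.card (boxS d L)) * ε) *
        (1 + 2 * (ENNReal.ofReal (∑ x, ‖p.1 x‖) + ENNReal.ofReal (∑ x, ‖p.2 x‖))) := by
    intro p
    refine le_trans (tele k q s α θ hk hk1 hq hs (by nlinarith) hα hθ A hA ε he f hf p.1 p.2) ?_
    refine add_le_add (Finset.sum_le_sum fun x _ => ?_) ?_
    · rw [ENNReal.ofReal_mul (mul_nonneg (by norm_num) (hA x)), mul_assoc]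
      refine mul_le_mul' le_rfl ?_
      have h1 : ENNReal.ofReal (‖p.1 x - p.2 x‖ ^ θ) * wpr (boxNet d L) k q s α p.1 p.2 x ≤
          ENNReal.ofReal (‖p.1 x - p.2 x‖ ^ θ) ^ 2 + wpr (boxNet d L) k q s α p.1 p.2 x ^ 2 := by
        rcases le_total (ENNReal.ofReal (‖p.1 x - p.2 x‖ ^ θ))
          (wpr (boxNet d L) k q s α p.1 p.2 x) with h | h
        · calc ENNReal.ofReal (‖p.1 x - p.2 x‖ ^ θ) * wpr (boxNet d L) k q s α p.1 p.2 x
              ≤ wpr (boxNet d L) k q s α p.1 p.2 x * wpr (boxNet d L) k q s α p.1 p.2 x :=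
                mul_le_mul' h le_rfl
            _ = wpr (boxNet d L) k q s α p.1 p.2 x ^ 2 := (sq _).symm
            _ ≤ _ := le_add_self
        · calc ENNReal.ofReal (‖p.1 x - p.2 x‖ ^ θ) * wpr (boxNet d L) k q s α p.1 p.2 x
              ≤ ENNReal.ofReal (‖p.1 x - p.2 x‖ ^ θ) * ENNReal.ofReal (‖p.1 x - p.2 x‖ ^ θ) :=
                mul_le_mul' le_rfl h
            _ = ENNReal.ofReal (‖p.1 x - p.2 x‖ ^ θ) ^ 2 := (sq _).symm
            _ ≤ _ := le_self_add
      refine le_trans h1 (add_le_add ?_ ?_)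
      · rw [← ENNReal.ofReal_pow (Real.rpow_nonneg (norm_nonneg _) _), ← ENNReal.ofReal_one,
          ← ENNReal.ofReal_add (norm_nonneg _) (norm_nonneg _),
          ← ENNReal.ofReal_add zero_le_one (add_nonneg (norm_nonneg _) (norm_nonneg _))]
        refine ENNReal.ofReal_le_ofReal (le_trans (Obe3c_rpow (norm_nonneg _) hθ hθ1) ?_)
        linarith [norm_sub_le (p.1 x) (p.2 x)]
      · unfold wpr
        refine le_trans (Obe3c_sq _ _ _) ?_
        have h2 : ∑ z, ENNReal.ofReal (α ^ (boxNet d L).dist x z) ≤ cE := by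
          rw [← ENNReal.ofReal_sum_of_nonneg fun z _ => pow_nonneg hα _]
          exact ENNReal.ofReal_le_ofReal (hcd' x)
        calc 2 * (∑ z, ENNReal.ofReal (α ^ (boxNet d L).dist x z)) *
              ∑ z, ENNReal.ofReal (α ^ (boxNet d L).dist x z) *
                (Vp (boxNet d L) k q s (fun y => ‖p.1 y‖) (fun y => ‖p.1 y‖ + ‖p.2 y‖) z +
                  Vp (boxNet d L) k q s (fun y => ‖p.2 y‖) (fun y => ‖p.1 y‖ + ‖p.2 y‖) z) ^ 2
            ≤ 2 * cE * ∑ z, ENNReal.ofReal (α ^ (boxNet d L).dist x z) *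
                (4 * (Vp (boxNet d L) k q s (fun y => ‖p.1 y‖) (fun y => ‖p.1 y‖ + ‖p.2 y‖) z ^ 2 +
                  Vp (boxNet d L) k q s (fun y => ‖p.2 y‖) (fun y => ‖p.1 y‖ + ‖p.2 y‖) z ^ 2)) := by
              refine mul_le_mul' (mul_le_mul' le_rfl h2) (Finset.sum_le_sum fun z _ => ?_)
              exact mul_le_mul' le_rfl (Obe3c_add_sq _ _)
          _ = 8 * cE * ∑ z, ENNReal.ofReal (α ^ (boxNet d L).dist x z) *
                (Vp (boxNet d L) k q s (fun y => ‖p.1 y‖) (fun y => ‖p.1 y‖ + ‖p.2 y‖) z ^ 2 +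
                  Vp (boxNet d L) k q s (fun y => ‖p.2 y‖) (fun y => ‖p.1 y‖ + ‖p.2 y‖) z ^ 2) := by
              have h3 : ∀ z : boxS d L, ENNReal.ofReal (α ^ (boxNet d L).dist x z) *
                (4 * (Vp (boxNet d L) k q s (fun y => ‖p.1 y‖) (fun y => ‖p.1 y‖ + ‖p.2 y‖) z ^ 2 +
                  Vp (boxNet d L) k q s (fun y => ‖p.2 y‖) (fun y => ‖p.1 y‖ + ‖p.2 y‖) z ^ 2)) =
                4 * (ENNReal.ofReal (α ^ (boxNet d L).dist x z) *
                (Vp (boxNet d L) k q s (fun y => ‖p.1 y‖) (fun y => ‖p.1 y‖ + ‖p.2 y‖) z ^ 2 +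
                  Vp (boxNet d L) k q s (fun y => ‖p.2 y‖) (fun y => ‖p.1 y‖ + ‖p.2 y‖) z ^ 2)) :=
                fun z => by ring
              simp only [h3]
              rw [← Finset.mul_sum]
              ring
    · have h4 : 0 ≤ 2 * ((Fintype.card (boxS d L) : ℕ) : ℝ) * ε := by positivity
      have h5 : 0 ≤ ∑ x, ‖p.1 x‖ := Finset.sum_nonneg fun x _ => norm_nonneg _
      have h6 : 0 ≤ ∑ x, ‖p.2 x‖ := Finset.sum_nonneg fun x _ => norm_nonneg _
      have h7 : (1 : ℝ≥0∞) + 2 * (ENNReal.ofReal (∑ x, ‖p.1 x‖) + ENNReal.ofReal (∑ x, ‖p.2 x‖)) =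
          ENNReal.ofReal (1 + 2 * (∑ x, ‖p.1 x‖ + ∑ x, ‖p.2 x‖)) := by
        rw [ENNReal.ofReal_add zero_le_one (by positivity), ENNReal.ofReal_one,
          ENNReal.ofReal_mul (by norm_num), ENNReal.ofReal_add h5 h6]
        norm_num
      rw [h7, ← ENNReal.ofReal_mul h4, Finset.sum_add_distrib]
  refine le_trans (lintegral_mono hpt) ?_
  have mD : ∀ x : boxS d L, Measurable fun p : (boxS d L → V) × (boxS d L → V) =>
      (1 : ℝ≥0∞) + (ENNReal.ofReal ‖p.1 x‖ + ENNReal.ofReal ‖p.2 x‖) := fun x =>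
    ((ENNReal.measurable_ofReal.comp (mx1 x)).add
      (ENNReal.measurable_ofReal.comp (mx2 x))).const_add _
  have mW : ∀ x z : boxS d L, Measurable fun p : (boxS d L → V) × (boxS d L → V) =>
      ENNReal.ofReal (α ^ (boxNet d L).dist x z) *
          (Vp (boxNet d L) k q s (fun y => ‖p.1 y‖) (fun y => ‖p.1 y‖ + ‖p.2 y‖) z ^ 2 +
            Vp (boxNet d L) k q s (fun y => ‖p.2 y‖) (fun y => ‖p.1 y‖ + ‖p.2 y‖) z ^ 2) :=
    fun x z => ((mV1 z).add (mV2 z)).const_mul _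
  have mWs : ∀ x : boxS d L, Measurable fun p : (boxS d L → V) × (boxS d L → V) =>
      8 * cE * ∑ z, ENNReal.ofReal (α ^ (boxNet d L).dist x z) *
          (Vp (boxNet d L) k q s (fun y => ‖p.1 y‖) (fun y => ‖p.1 y‖ + ‖p.2 y‖) z ^ 2 +
            Vp (boxNet d L) k q s (fun y => ‖p.2 y‖) (fun y => ‖p.1 y‖ + ‖p.2 y‖) z ^ 2) :=
    fun x => (Finset.measurable_sum _ fun z _ => mW x z).const_mul _
  have mR : Measurable fun p : (boxS d L → V) × (boxS d L → V) =>
      ENNReal.ofReal (2 * (Fintype.card (boxS d L)) * ε) *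
        (1 + 2 * (ENNReal.ofReal (∑ x, ‖p.1 x‖) + ENNReal.ofReal (∑ x, ‖p.2 x‖))) :=
    ((((ENNReal.measurable_ofReal.comp (Finset.measurable_sum _ fun x _ => mx1 x)).add
      (ENNReal.measurable_ofReal.comp (Finset.measurable_sum _ fun x _ => mx2 x))).const_mul
      _).const_add _).const_mul _
  have mDW0 : ∀ x : boxS d L, Measurable fun p : (boxS d L → V) × (boxS d L → V) =>
      ((1 + (ENNReal.ofReal ‖p.1 x‖ + ENNReal.ofReal ‖p.2 x‖)) +
        8 * cE * ∑ z, ENNReal.ofReal (α ^ (boxNet d L).dist x z) *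
          (Vp (boxNet d L) k q s (fun y => ‖p.1 y‖) (fun y => ‖p.1 y‖ + ‖p.2 y‖) z ^ 2 +
            Vp (boxNet d L) k q s (fun y => ‖p.2 y‖) (fun y => ‖p.1 y‖ + ‖p.2 y‖) z ^ 2)) :=
    fun x => (mD x).add (mWs x)
  have mDW : ∀ x : boxS d L, Measurable fun p : (boxS d L → V) × (boxS d L → V) =>
      ENNReal.ofReal (4 * A x) * ((1 + (ENNReal.ofReal ‖p.1 x‖ + ENNReal.ofReal ‖p.2 x‖)) +
        8 * cE * ∑ z, ENNReal.ofReal (α ^ (boxNet d L).dist x z) *
          (Vp (boxNet d L) k q s (fun y => ‖p.1 y‖) (fun y => ‖p.1 y‖ + ‖p.2 y‖) z ^ 2 +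
            Vp (boxNet d L) k q s (fun y => ‖p.2 y‖) (fun y => ‖p.1 y‖ + ‖p.2 y‖) z ^ 2)) :=
    fun x => (mDW0 x).const_mul _
  rw [lintegral_add_right _ mR, lintegral_finsetSum _ fun x _ => mDW x]
  have hR : ∫⁻ p : (boxS d L → V) × (boxS d L → V),
      ENNReal.ofReal (2 * (Fintype.card (boxS d L)) * ε) *
        (1 + 2 * (ENNReal.ofReal (∑ x, ‖p.1 x‖) + ENNReal.ofReal (∑ x, ‖p.2 x‖)))
        ∂(N1.prod N2) ≤ ENNReal.ofReal (2 * (Fintype.card (boxS d L)) * ε * (1 + 4 * CL)) := by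
    have ms1 : Measurable fun p : (boxS d L → V) × (boxS d L → V) =>
        ENNReal.ofReal (∑ x, ‖p.1 x‖) :=
      ENNReal.measurable_ofReal.comp (Finset.measurable_sum _ fun x _ => mx1 x)
    have ms2 : Measurable fun p : (boxS d L → V) × (boxS d L → V) =>
        ENNReal.ofReal (∑ x, ‖p.2 x‖) :=
      ENNReal.measurable_ofReal.comp (Finset.measurable_sum _ fun x _ => mx2 x)
    have ms : Measurable fun H : boxS d L → V => ENNReal.ofReal (∑ x, ‖H x‖) :=
      ENNReal.measurable_ofReal.comp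
        (Finset.measurable_sum _ fun x _ => (measurable_pi_apply x).norm)
    have ms12 : Measurable fun p : (boxS d L → V) × (boxS d L → V) =>
        ENNReal.ofReal (∑ x, ‖p.1 x‖) + ENNReal.ofReal (∑ x, ‖p.2 x‖) := ms1.add ms2
    have ms12' : Measurable fun p : (boxS d L → V) × (boxS d L → V) =>
        2 * (ENNReal.ofReal (∑ x, ‖p.1 x‖) + ENNReal.ofReal (∑ x, ‖p.2 x‖)) := ms12.const_mul _
    have ms12'' : Measurable fun p : (boxS d L → V) × (boxS d L → V) =>
        1 + 2 * (ENNReal.ofReal (∑ x, ‖p.1 x‖) + ENNReal.ofReal (∑ x, ‖p.2 x‖)) :=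
      ms12'.const_add _
    rw [lintegral_const_mul _ ms12'', lintegral_add_right _ ms12', lintegral_const,
      lintegral_const_mul _ ms12, lintegral_add_right _ ms2,
      ENNReal.ofReal_mul (show 0 ≤ 2 * ((Fintype.card (boxS d L) : ℕ) : ℝ) * ε by positivity)]
    refine mul_le_mul' le_rfl ?_
    have e1 : ENNReal.ofReal (1 + 4 * CL) = 1 + 2 * (ENNReal.ofReal CL + ENNReal.ofReal CL) := by
      rw [ENNReal.ofReal_add zero_le_one (by positivity), ENNReal.ofReal_one,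
        ← ENNReal.ofReal_add hCL hCL]
      have : (2 : ℝ≥0∞) = ENNReal.ofReal 2 := by norm_num
      rw [this, ← ENNReal.ofReal_mul (by norm_num)]
      congr 2
      ring
    rw [e1, one_mul]
    exact add_le_add iU (mul_le_mul' le_rfl (add_le_add (iF _ ms _ hL1) (iG _ ms _ hL2)))
  have hX : ∀ x : boxS d L, ∫⁻ p : (boxS d L → V) × (boxS d L → V),
      ENNReal.ofReal (4 * A x) * ((1 + (ENNReal.ofReal ‖p.1 x‖ + ENNReal.ofReal ‖p.2 x‖)) +
        8 * cE * ∑ z, ENNReal.ofReal (α ^ (boxNet d L).dist x z) *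
          (Vp (boxNet d L) k q s (fun y => ‖p.1 y‖) (fun y => ‖p.1 y‖ + ‖p.2 y‖) z ^ 2 +
            Vp (boxNet d L) k q s (fun y => ‖p.2 y‖) (fun y => ‖p.1 y‖ + ‖p.2 y‖) z ^ 2))
        ∂(N1.prod N2) ≤
      ENNReal.ofReal (4 * (1 + 2 * Cm + 16 * cd ^ 2 * (Cv * Cm)) * A x) := by
    intro x
    have mx1' : Measurable fun p : (boxS d L → V) × (boxS d L → V) => ENNReal.ofReal ‖p.1 x‖ :=
      ENNReal.measurable_ofReal.comp (mx1 x)
    have mx2' : Measurable fun p : (boxS d L → V) × (boxS d L → V) => ENNReal.ofReal ‖p.2 x‖ :=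
      ENNReal.measurable_ofReal.comp (mx2 x)
    have mx12 : Measurable fun p : (boxS d L → V) × (boxS d L → V) =>
        ENNReal.ofReal ‖p.1 x‖ + ENNReal.ofReal ‖p.2 x‖ := mx1'.add mx2'
    rw [lintegral_const_mul _ (mDW0 x), lintegral_add_right _ (mWs x),
      lintegral_add_right _ mx12, lintegral_const, lintegral_add_right _ mx2',
      lintegral_const_mul _ (Finset.measurable_sum _ fun z _ => mW x z),
      lintegral_finsetSum _ fun z _ => mW x z]
    have mn : Measurable fun H : boxS d L → V => ENNReal.ofReal ‖H x‖ :=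
      ENNReal.measurable_ofReal.comp (measurable_pi_apply x).norm
    have e1 : ∑ z, ∫⁻ p : (boxS d L → V) × (boxS d L → V),
        ENNReal.ofReal (α ^ (boxNet d L).dist x z) *
          (Vp (boxNet d L) k q s (fun y => ‖p.1 y‖) (fun y => ‖p.1 y‖ + ‖p.2 y‖) z ^ 2 +
            Vp (boxNet d L) k q s (fun y => ‖p.2 y‖) (fun y => ‖p.1 y‖ + ‖p.2 y‖) z ^ 2)
        ∂(N1.prod N2) ≤ cE * (vE + vE) := by
      calc _ ≤ ∑ z, ENNReal.ofReal (α ^ (boxNet d L).dist x z) * (vE + vE) := by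
            refine Finset.sum_le_sum fun z _ => ?_
            have mVV : Measurable fun p : (boxS d L → V) × (boxS d L → V) =>
                Vp (boxNet d L) k q s (fun y => ‖p.1 y‖) (fun y => ‖p.1 y‖ + ‖p.2 y‖) z ^ 2 +
                  Vp (boxNet d L) k q s (fun y => ‖p.2 y‖) (fun y => ‖p.1 y‖ + ‖p.2 y‖) z ^ 2 :=
              (mV1 z).add (mV2 z)
            rw [lintegral_const_mul _ mVV, lintegral_add_right _ (mV2 z)]
            exact mul_le_mul' le_rfl (add_le_add (iV1 z) (iV2 z))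
        _ = (∑ z, ENNReal.ofReal (α ^ (boxNet d L).dist x z)) * (vE + vE) := by
            rw [Finset.sum_mul]
        _ ≤ cE * (vE + vE) := by
            refine mul_le_mul' ?_ le_rfl
            rw [← ENNReal.ofReal_sum_of_nonneg fun z _ => pow_nonneg hα _]
            exact ENNReal.ofReal_le_ofReal (hcd' x)
    have e2 : ENNReal.ofReal (4 * (1 + 2 * Cm + 16 * cd ^ 2 * (Cv * Cm)) * A x) =
        ENNReal.ofReal (4 * A x) * ((1 * 1 + (mE + mE)) + 8 * cE * (cE * (vE + vE))) := by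
      have hvv : 0 ≤ Cv * Cm := mul_nonneg hCv hCm
      have h8 : (8 : ℝ≥0∞) = ENNReal.ofReal 8 := by norm_num
      have e3 : (1 * 1 + (mE + mE)) + 8 * cE * (cE * (vE + vE)) =
          ENNReal.ofReal ((1 + (Cm + Cm)) + 8 * cd * (cd * (Cv * Cm + Cv * Cm))) := by
        rw [ENNReal.ofReal_add (by positivity) (by positivity),
          ENNReal.ofReal_add zero_le_one (by positivity), ENNReal.ofReal_add hCm hCm,
          ENNReal.ofReal_mul (by positivity), ENNReal.ofReal_mul (by positivity),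
          ENNReal.ofReal_mul hcd, ENNReal.ofReal_add hvv hvv, ENNReal.ofReal_one, ← h8, mul_one]
      rw [e3, ← ENNReal.ofReal_mul (mul_nonneg (by norm_num) (hA x))]
      congr 1
      ring
    rw [e2]
    refine mul_le_mul' le_rfl (add_le_add (add_le_add (mul_le_mul' le_rfl iU)
      (add_le_add (iF _ mn _ (hn1 x)) (iG _ mn _ (hn2 x)))) (mul_le_mul' le_rfl e1))
  have hc0 : 0 ≤ 4 * (1 + 2 * Cm + 16 * cd ^ 2 * (Cv * Cm)) := by
    have := mul_nonneg hCv hCm
    positivity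
  rw [ENNReal.ofReal_add (mul_nonneg hc0 (Finset.sum_nonneg fun x _ => hA x)) (by positivity)]
  refine add_le_add ?_ hR
  rw [Finset.mul_sum, ENNReal.ofReal_sum_of_nonneg fun x _ => mul_nonneg hc0 (hA x)]
  exact Finset.sum_le_sum fun x _ => hX x

end pair


theorem init_of_blk (hd : 1 ≤ d) {F : Fam d} {β k : ℝ} (S : PSys F β k)
    (q s a θ TB BD BV κ' CV K cd CM : ℝ) (Ls : ℕ)
    (B : Blk S q s a θ TB BD BV κ' CV K cd Ls) (hM : MomU S CM) (hks : k ^ (-s) ≤ 11 / 10) :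
    ObeInit F k q s (Real.exp (-(a / 8))) θ := by
  intro ρ1 ρ2 p1 p2 h1 h2 i1 i2
  obtain ⟨Cv1, Cm1, hCv1, hCm1, hs1⟩ :=
    Obe3c_side hd S q s a θ TB BD BV κ' CV K cd CM Ls B hM hks ρ1 h1 i1
  obtain ⟨Cv2, Cm2, hCv2, hCm2, hs2⟩ :=
    Obe3c_side hd S q s a θ TB BD BV κ' CV K cd CM Ls B hM hks ρ2 h2 i2
  set Cv : ℝ := max Cv1 Cv2 with hCvd
  set Cm : ℝ := max Cm1 Cm2 with hCmd
  have hCv : 0 ≤ Cv := le_trans hCv1 (le_max_left _ _)
  have hCm : 0 ≤ Cm := le_trans hCm1 (le_max_left _ _)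
  have hvm : 0 ≤ Cv * Cm := mul_nonneg hCv hCm
  set Ci : ℝ := 4 * (1 + 2 * Cm + 16 * cd ^ 2 * (Cv * Cm)) with hCi
  have hCi0 : 0 ≤ Ci := by positivity
  refine ⟨Ci, hCi0, fun η hη => ?_⟩
  obtain ⟨L1, hL1⟩ := hs1 (η / 4) (by linarith)
  obtain ⟨L2, hL2⟩ := hs2 (η / 4) (by linarith)
  refine ⟨max L1 L2, fun L hL Sm hSm => ?_⟩
  obtain ⟨CL1, hCL1, g1⟩ := hL1 L (le_trans (le_max_left _ _) hL) Sm hSm
  obtain ⟨CL2, hCL2, g2⟩ := hL2 L (le_trans (le_max_right _ _) hL) Sm hSm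
  set CL0 : ℝ := max CL1 CL2 with hCL0d
  have hCL0 : 0 ≤ CL0 := le_trans hCL1 (le_max_left _ _)
  set cr : ℝ := (Fintype.card (boxS d L) : ℝ) with hcr
  have hcr0 : 0 ≤ cr := Nat.cast_nonneg _
  refine ⟨1 + 2 * cr * (1 + 4 * CL0), by
    have : 0 ≤ 2 * cr * (1 + 4 * CL0) := by positivity
    linarith, fun ε0 hε0 => ?_⟩
  obtain ⟨ha, hap, f1⟩ := g1 (ε0 / 4) (by linarith)
  obtain ⟨hb, hbp, f2⟩ := g2 (ε0 / 4) (by linarith)
  refine ⟨min ha hb, lt_min hap hbp, ?_⟩
  intro h hh hlt n1 n2 hn1 hn2 A ε f hA he hfm hfb hf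
  obtain ⟨N1, B1, e1, b1, u1, m1, S1, V1', W1⟩ := f1 h hh (lt_of_lt_of_le hlt (min_le_left _ _)) n1 hn1
  obtain ⟨N2, B2, e2, b2, u2, m2, S2, V2', W2⟩ := f2 h hh (lt_of_lt_of_le hlt (min_le_right _ _)) n2 hn2
  have hsum0 : 0 ≤ ∑ x, A x := Finset.sum_nonneg fun x _ => hA x
  have pr1 : IsProbabilityMeasure (F.law h L (Measure.pi (fun _ => ρ1)) n1) :=
    (Obe3c_law F h L (Measure.pi (fun _ => ρ1)) n1).1
  have pr2 : IsProbabilityMeasure (F.law h L (Measure.pi (fun _ => ρ2)) n2) :=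
    (Obe3c_law F h L (Measure.pi (fun _ => ρ2)) n2).1
  set μ1 := F.law h L (Measure.pi (fun _ => ρ1)) n1 with hμ1
  set μ2 := F.law h L (Measure.pi (fun _ => ρ2)) n2 with hμ2
  have hcd0 : 0 ≤ cd := by
    obtain ⟨x0⟩ : Nonempty (boxS d L) := by
      refine ⟨⟨fun _ => 0, ?_⟩⟩
      unfold boxS
      rw [Finset.mem_Icc]
      exact ⟨fun i => by simp, fun i => by simp⟩
    exact le_trans (Finset.sum_nonneg fun z _ => by positivity) (B.hcd L x0).1
  have key := Obe3c_pair (V := F.V) B.hk B.hk1 B.hq B.hs B.hqs (Real.exp_pos (-(a / 8))).le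
    B.hθ B.hθ1 N1 N2 u1 u2 Cv Cm CL0 cd hCv hCm hCL0 hcd0 (fun x => (B.hcd L x).1)
    (fun x => (m1 x).trans (ENNReal.ofReal_le_ofReal (le_max_left _ _)))
    (fun x => (m2 x).trans (ENNReal.ofReal_le_ofReal (le_max_right _ _)))
    (fun x => (S1 x).trans (ENNReal.ofReal_le_ofReal (le_max_left _ _)))
    (fun x => (S2 x).trans (ENNReal.ofReal_le_ofReal (le_max_right _ _)))
    (fun x => (V1' x).trans (ENNReal.ofReal_le_ofReal (le_max_left _ _)))
    (fun x => (V2' x).trans (ENNReal.ofReal_le_ofReal (le_max_right _ _)))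
    (W1.trans (ENNReal.ofReal_le_ofReal (le_max_left _ _)))
    (W2.trans (ENNReal.ofReal_le_ofReal (le_max_right _ _))) A hA ε he f hfm hf
  have hφ : ∀ G G' : boxS d L → F.V, ENNReal.ofReal ‖f G - f G'‖ ≤ ENNReal.ofReal 2 := by
    intro G G'
    refine ENNReal.ofReal_le_ofReal ?_
    linarith [norm_sub_le (f G) (f G'), hfb G, hfb G']
  have hX0 : 0 ≤ Ci * ∑ x, A x + 2 * cr * ε * (1 + 4 * CL0) := by
    have := mul_nonneg hCi0 hsum0
    positivity
  have hlint : ∫⁻ G, ∫⁻ G', ENNReal.ofReal ‖f G - f G'‖ ∂μ2 ∂μ1 ≤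
      ENNReal.ofReal (Ci * ∑ x, A x + (1 + 2 * cr * (1 + 4 * CL0)) * ε + ε0 + η) := by
    have s1 : ∫⁻ G, ∫⁻ G', ENNReal.ofReal ‖f G - f G'‖ ∂μ2 ∂μ1 =
        ∫⁻ G, ∫⁻ G', ENNReal.ofReal ‖f G - f G'‖ ∂μ2 ∂N1 +
          ∫⁻ G, ∫⁻ G', ENNReal.ofReal ‖f G - f G'‖ ∂μ2 ∂B1 := by
      rw [e1, lintegral_add_measure]
    have s2 : ∫⁻ G, ∫⁻ G', ENNReal.ofReal ‖f G - f G'‖ ∂μ2 ∂B1 ≤
        ENNReal.ofReal (2 * (η / 4 + ε0 / 4)) := by
      calc ∫⁻ G, ∫⁻ G', ENNReal.ofReal ‖f G - f G'‖ ∂μ2 ∂B1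
          ≤ ∫⁻ _, ENNReal.ofReal 2 ∂B1 := by
            refine lintegral_mono fun G => ?_
            refine le_trans (lintegral_mono fun G' => hφ G G') ?_
            rw [lintegral_const, measure_univ, mul_one]
        _ = ENNReal.ofReal 2 * B1 Set.univ := lintegral_const _
        _ ≤ ENNReal.ofReal 2 * ENNReal.ofReal (η / 4 + ε0 / 4) := mul_le_mul' le_rfl b1
        _ = _ := (ENNReal.ofReal_mul (by norm_num)).symm
    have s3 : ∫⁻ G, ∫⁻ G', ENNReal.ofReal ‖f G - f G'‖ ∂μ2 ∂N1 ≤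
        ENNReal.ofReal (Ci * ∑ x, A x + 2 * cr * ε * (1 + 4 * CL0)) +
          ENNReal.ofReal (2 * (η / 4 + ε0 / 4)) := by
      calc ∫⁻ G, ∫⁻ G', ENNReal.ofReal ‖f G - f G'‖ ∂μ2 ∂N1
          ≤ ∫⁻ G, (∫⁻ G', ENNReal.ofReal ‖f G - f G'‖ ∂N2 +
              ENNReal.ofReal (2 * (η / 4 + ε0 / 4))) ∂N1 := by
            refine lintegral_mono fun G => ?_
            show ∫⁻ G', ENNReal.ofReal ‖f G - f G'‖ ∂μ2 ≤ _
            rw [e2, lintegral_add_measure]
            refine add_le_add le_rfl ?_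
            calc ∫⁻ G', ENNReal.ofReal ‖f G - f G'‖ ∂B2 ≤ ∫⁻ _, ENNReal.ofReal 2 ∂B2 :=
                  lintegral_mono fun G' => hφ G G'
              _ = ENNReal.ofReal 2 * B2 Set.univ := lintegral_const _
              _ ≤ ENNReal.ofReal 2 * ENNReal.ofReal (η / 4 + ε0 / 4) := mul_le_mul' le_rfl b2
              _ = _ := (ENNReal.ofReal_mul (by norm_num)).symm
        _ = ∫⁻ G, ∫⁻ G', ENNReal.ofReal ‖f G - f G'‖ ∂N2 ∂N1 +
              ENNReal.ofReal (2 * (η / 4 + ε0 / 4)) * N1 Set.univ := by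
            rw [lintegral_add_right _ measurable_const, lintegral_const]
        _ ≤ _ := by
            refine add_le_add key ?_
            exact le_trans (mul_le_mul' le_rfl u1) (mul_one _).le
    rw [s1]
    refine le_trans (add_le_add s3 s2) ?_
    rw [← ENNReal.ofReal_add hX0 (by positivity), ← ENNReal.ofReal_add (by positivity) (by positivity)]
    refine ENNReal.ofReal_le_ofReal ?_
    nlinarith
  have hXX : 0 ≤ Ci * ∑ x, A x + (1 + 2 * cr * (1 + 4 * CL0)) * ε + ε0 + η := by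
    have := mul_nonneg hCi0 hsum0
    positivity
  have mff : Measurable fun p : (boxS d L → F.V) × (boxS d L → F.V) => ‖f p.1 - f p.2‖ :=
    ((hfm.comp measurable_fst).sub (hfm.comp measurable_snd)).norm
  have hin : ∀ G : boxS d L → F.V, Integrable (fun G' => ‖f G - f G'‖) μ2 := by
    intro G
    refine Integrable.of_bound (mff.comp (measurable_const.prodMk measurable_id)).aestronglyMeasurable
      2 (Filter.Eventually.of_forall fun G' => ?_)
    simp only [norm_norm]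
    linarith [norm_sub_le (f G) (f G'), hfb G, hfb G']
  have hms : StronglyMeasurable fun G : boxS d L → F.V => ∫ G', ‖f G - f G'‖ ∂μ2 :=
    mff.stronglyMeasurable.integral_prod_right'
  rw [integral_eq_lintegral_of_nonneg_ae (Filter.Eventually.of_forall fun G =>
    integral_nonneg fun G' => norm_nonneg _) hms.aestronglyMeasurable]
  refine ENNReal.toReal_le_of_le_ofReal hXX ?_
  refine le_trans (le_of_eq ?_) hlint
  refine lintegral_congr fun G => ?_
  exact ofReal_integral_eq_lintegral_ofReal (hin G) (Filter.Eventually.of_forall fun G' =>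
    norm_nonneg _)

/-- block estimates imply mixing -/
theorem mix_of_blk (hd : 1 ≤ d) {F : Fam d} {β k : ℝ} (S : PSys F β k)
    (q s a θ TB BD BV κ' CV K cd CM : ℝ) (Ls : ℕ)
    (B : Blk S q s a θ TB BD BV κ' CV K cd Ls) (hM : MomU S CM) (hks : k ^ (-s) ≤ 11 / 10) :
    F.Mix := by
  obtain ⟨Cg, h⟩ := obe_of_blk S q s a θ TB BD BV κ' CV K cd Ls B
    (init_of_blk hd S q s a θ TB BD BV κ' CV K cd CM Ls B hM hks)
  exact mix_of_obe F k q s _ θ TB Cg Ls h

end DynC
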