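import Pool.Agent.Lib_MP_36b788c.Mom1
import Pool.Agent.Lib_MP_36b788c.LPPd

/-!
# Growth of fields with `D⁺ ≤ e^b D + k h cpl D`

PROOF.
* `boxMSet`: the box with the distance of `boxNet`: `dist = l1` (`boxNet_dist`), at most `(2r+1)^d` points within distance `r` (each coordinate difference is in `[-r,r]`).
* `grow_path`: (LPP majorant) `W = lpp q' 0 g`, `g_j(x) = b_j(x)/ell`. If `D_0 ≤ A exp(ell H)`, `H` is `ρ`-Lipschitz for neighbours, `q' + ρ + ε ≤ 1`, then `D_n(x) ≤ A (1 + 4 d k^ε h)^n exp(ell (W_n(x) + H x))`. Induction: `e^{b} D_n(x)`: `W_{n+1}(x) ≥ W_n(x) + g`. Neighbour `y`: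
  `W_{n+1}(x) ≥ W_n(y) - q'` (jump, `g⁺ ≥ 0`), `H y ≤ H x + ρ`: `k h D_n(y) ≤ h k^{1-q'-ρ} A (…)^n exp(ell(W_{n+1}(x) + H x))`; the same for the term `2d u(x)` (jump to itself costs `q'`). `k = e^{-ell}`.
* `gD2` (`N = 2`, `PS2`): the image of `PI (gC^box)` under `Re` is `PI (nz box)` (`PI_map`, `Measure.pi_map_pi`, first marginal of `gC`). `g = sc v ω` with `v = h/ell²`. `q' = 1/8`, `ρ = 3/4`, `ε = 1/8`, `H(x) = - (3/4) dist x y`, `A = D_0(y)`. `n h ≤ T ell² + h`: `(1+4d k^{1/8} h)^n ≤ e` for small `k`.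
  `D^{2θ} ≤ A^{2θ} e^{2θ} exp(2a W - (3/2) a dist)`, `lpp_exp` with `lam = 2a ≤ lam0`: `≤ exp(C (T + 2) 2a)`.
* `gD3`: `E D_{n+1}(x) ≤ (1+Ch) E D_n(x) + k h cpl (E D_n)(x)`; `U(x) = A k^{(3/4) dist x y}` satisfies `k cpl U x ≤ 4 d k^{1/4} U x`; so `E D_n ≤ exp((C+4d) n h) U`, `n h ≤ T ell + h`; Jensen with exponent `2θ = 2a/ell ≤ 1`.
-/

open MeasureTheory ProbabilityTheory
open scoped ENNReal

namespace DynC

open Dyn

/-- the box as a metric set -/
noncomputable def boxMSet (d L : ℕ) : MSet (boxS d L) d where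
  dd := (boxNet d L).dist
  dd_self := (boxNet d L).dist_self
  dd_pos := (boxNet d L).dist_pos
  dd_comm := (boxNet d L).dist_comm
  dd_tri := (boxNet d L).dist_tri
  growth := by
    intro x r A hA
    classical
    have h1 : A.image (fun y : boxS d L => (y : Fin d → ℤ)) ⊆
        Fintype.piFinset (fun i : Fin d =>
          Finset.Icc ((x : Fin d → ℤ) i - (r : ℤ)) ((x : Fin d → ℤ) i + (r : ℤ))) := by
      intro y hy
      rw [Finset.mem_image] at hy
      obtain ⟨w, hw, rfl⟩ := hy
      rw [Fintype.mem_piFinset]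
      intro i
      have h2 := hA w hw
      rw [boxNet_dist] at h2
      have h3 : ((x : Fin d → ℤ) i - (w : Fin d → ℤ) i).natAbs ≤ r := by
        refine le_trans ?_ h2
        unfold l1
        exact Finset.single_le_sum
          (f := fun i => ((x : Fin d → ℤ) i - (w : Fin d → ℤ) i).natAbs)
          (fun j _ => Nat.zero_le _) (Finset.mem_univ i)
      rw [Finset.mem_Icc]
      omega
    have h2 := Finset.card_le_card h1
    rw [Finset.card_image_of_injective _ Subtype.val_injective, Fintype.card_piFinset] at h2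
    refine h2.trans (le_of_eq ?_)
    have h3 : ∀ i : Fin d, (Finset.Icc ((x : Fin d → ℤ) i - (r : ℤ))
        ((x : Fin d → ℤ) i + (r : ℤ))).card = 2 * r + 1 := by
      intro i
      rw [Int.card_Icc]
      omega
    rw [Finset.prod_congr rfl (fun i _ => h3 i), Finset.prod_const, Finset.card_univ,
      Fintype.card_fin]

private theorem Grw_W0 (d L : ℕ) (q : ℝ) (g : ℕ → boxS d L → ℝ) (n : ℕ) (x : boxS d L) :
    (boxMSet d L).lpp q (fun _ => 0) g n x + g n x ≤ (boxMSet d L).lpp q (fun _ => 0) g (n + 1) x := by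
  show _ ≤ max 0 (max ((boxMSet d L).lpp q (fun _ => 0) g n x + g n x) _)
  exact (le_max_left _ _).trans (le_max_right _ _)

private theorem Grw_W1 (d L : ℕ) (q : ℝ) (g : ℕ → boxS d L → ℝ) (n : ℕ)
    (x y : boxS d L) (hy : (boxNet d L).dist x y ≤ 1) :
    (boxMSet d L).lpp q (fun _ => 0) g n y ≤ (boxMSet d L).lpp q (fun _ => 0) g (n + 1) x + q := by
  have h1 : (boxMSet d L).lpp q (fun _ => 0) g n y - q * max ((boxMSet d L).dd x y : ℝ) 1 ≤
      (boxMSet d L).Rq1 q ((boxMSet d L).lpp q (fun _ => 0) g n) x := by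
    unfold MSet.Rq1
    exact Finset.le_max' (Finset.univ.image fun z : boxS d L =>
      (boxMSet d L).lpp q (fun _ => 0) g n z - q * max ((boxMSet d L).dd x z : ℝ) 1) _
      (Finset.mem_image_of_mem _ (Finset.mem_univ y))
  have h2 : max ((boxMSet d L).dd x y : ℝ) 1 = 1 := by
    apply max_eq_right
    exact_mod_cast hy
  rw [h2] at h1
  have h3 : (boxMSet d L).Rq1 q ((boxMSet d L).lpp q (fun _ => 0) g n) x + max (g n x) 0 ≤
      (boxMSet d L).lpp q (fun _ => 0) g (n + 1) x := by
    show _ ≤ max 0 (max _ ((boxMSet d L).Rq1 q ((boxMSet d L).lpp q (fun _ => 0) g n) x +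
      max (g n x) 0))
    exact (le_max_right _ _).trans (le_max_right _ _)
  have h4 : 0 ≤ max (g n x) 0 := le_max_right _ _
  linarith

theorem grow_path (d L : ℕ) (k h ε q' ρ A : ℝ) (hk : 0 < k) (hk1 : k < 1) (hh : 0 < h)
    (hA : 0 ≤ A) (hq' : 0 ≤ q') (hρ : 0 ≤ ρ) (hε : 0 < ε) (hs : q' + ρ + ε ≤ 1)
    (b D : ℕ → boxS d L → ℝ)
    (hD : ∀ j, DStep (boxNet d L) h k (b j) (D j) (D (j + 1)))
    (H : boxS d L → ℝ) (hH : ∀ x, ∀ y ∈ (boxNet d L).nb x, H y ≤ H x + ρ)
    (h0 : ∀ x, D 0 x ≤ A * Real.exp (ell k * H x)) (n : ℕ) (x : boxS d L) :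
    D n x ≤ A * (1 + 4 * d * k ^ ε * h) ^ n *
      Real.exp (ell k * ((boxMSet d L).lpp q' (fun _ => 0) (fun j y => b j y / ell k) n x + H x)) := by
  have hell : 0 < ell k := by
    unfold ell
    apply Real.log_pos
    rw [lt_div_iff₀ hk]
    linarith
  have hkexp : k = Real.exp (-ell k) := by
    unfold ell
    rw [one_div, Real.log_inv, neg_neg, Real.exp_log hk]
  have hkeps : k ^ ε = Real.exp (-(ell k * ε)) := by
    conv_lhs => rw [hkexp]
    rw [← Real.exp_mul]
    congr 1
    ring
  have hkpos : 0 ≤ k ^ ε := Real.rpow_nonneg hk.le _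
  have hfac : 0 ≤ 1 + 4 * (d : ℝ) * k ^ ε * h := by positivity
  induction n generalizing x with
  | zero =>
    have h1 := h0 x
    show D 0 x ≤ A * (1 + 4 * d * k ^ ε * h) ^ 0 * Real.exp (ell k * (0 + H x))
    rw [pow_zero, mul_one, zero_add]
    exact h1
  | succ n ih =>
    set W := (boxMSet d L).lpp q' (fun _ => 0) (fun j y => b j y / ell k) with hW
    set P : ℝ := A * (1 + 4 * d * k ^ ε * h) ^ n with hP
    have hP0 : 0 ≤ P := mul_nonneg hA (pow_nonneg hfac _)
    set E : ℝ := Real.exp (ell k * (W (n + 1) x + H x)) with hE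
    have hE0 : 0 ≤ E := (Real.exp_pos _).le
    have hup := (hD n).up x
    have hself : Real.exp (b n x) * D n x ≤ P * E := by
      have h1 := Grw_W0 d L q' (fun j y => b j y / ell k) n x
      have h1' : W n x + b n x / ell k ≤ W (n + 1) x := h1
      calc Real.exp (b n x) * D n x
          ≤ Real.exp (b n x) * (P * Real.exp (ell k * (W n x + H x))) :=
            mul_le_mul_of_nonneg_left (ih x) (Real.exp_pos _).le
        _ = P * Real.exp (ell k * (W n x + b n x / ell k + H x)) := by
            have h2 : ell k * (W n x + b n x / ell k + H x) =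
                b n x + ell k * (W n x + H x) := by
              field_simp
              ring
            rw [h2, Real.exp_add]
            ring
        _ ≤ P * E := by
            apply mul_le_mul_of_nonneg_left _ hP0
            apply Real.exp_le_exp.mpr
            apply mul_le_mul_of_nonneg_left _ hell.le
            linarith
    have hcoup : ∀ y, (boxNet d L).dist x y ≤ 1 → H y ≤ H x + ρ →
        D n y ≤ P * E * Real.exp (ell k * (q' + ρ)) := by
      intro y hy hHy
      have h1 := Grw_W1 d L q' (fun j y => b j y / ell k) n x y hy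
      have h1' : W n y ≤ W (n + 1) x + q' := h1
      refine (ih y).trans ?_
      rw [mul_assoc P E, hE, ← Real.exp_add]
      apply mul_le_mul_of_nonneg_left _ hP0
      apply Real.exp_le_exp.mpr
      rw [← mul_add]
      apply mul_le_mul_of_nonneg_left _ hell.le
      linarith
    set Q : ℝ := P * E * Real.exp (ell k * (q' + ρ)) with hQ
    have hQ0 : 0 ≤ Q := mul_nonneg (mul_nonneg hP0 hE0) (Real.exp_pos _).le
    have hcpl : cpl (boxNet d L) (D n) x ≤ 4 * d * Q := by
      unfold cpl
      have h1 : ∑ y ∈ (boxNet d L).nb x, D n y ≤ 2 * d * Q := by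
        calc ∑ y ∈ (boxNet d L).nb x, D n y ≤ ∑ y ∈ (boxNet d L).nb x, Q :=
              Finset.sum_le_sum fun y hy =>
                hcoup y (le_of_eq ((boxNet d L).dist_nb x y hy)) (hH x y hy)
          _ = ((boxNet d L).nb x).card * Q := by rw [Finset.sum_const, nsmul_eq_mul]
          _ ≤ 2 * d * Q := by
              apply mul_le_mul_of_nonneg_right _ hQ0
              exact_mod_cast (boxNet d L).nb_card x
      have h2 : ((2 * d : ℕ) : ℝ) * D n x ≤ 2 * d * Q := by
        have h3 := hcoup x (by rw [(boxNet d L).dist_self]; exact Nat.zero_le _)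
          (by linarith)
        push_cast
        exact mul_le_mul_of_nonneg_left h3 (by positivity)
      linarith
    have hkQ : k * Q ≤ P * E * k ^ ε := by
      have h1 : k * Q = P * E * (k * Real.exp (ell k * (q' + ρ))) := by
        rw [hQ]
        ring
      rw [h1, hkeps]
      apply mul_le_mul_of_nonneg_left _ (mul_nonneg hP0 hE0)
      have h2 : k * Real.exp (ell k * (q' + ρ)) = Real.exp (-ell k + ell k * (q' + ρ)) := by
        rw [Real.exp_add, ← hkexp]
      rw [h2]
      apply Real.exp_le_exp.mpr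
      nlinarith
    calc D (n + 1) x ≤ Real.exp (b n x) * D n x + k * h * cpl (boxNet d L) (D n) x := hup
      _ ≤ P * E + k * h * (4 * d * Q) := by
          apply add_le_add hself
          exact mul_le_mul_of_nonneg_left hcpl (by positivity)
      _ = P * E + 4 * d * h * (k * Q) := by ring
      _ ≤ P * E + 4 * d * h * (P * E * k ^ ε) := by
          have h5 : 4 * (d : ℝ) * h * (k * Q) ≤ 4 * d * h * (P * E * k ^ ε) :=
            mul_le_mul_of_nonneg_left hkQ (by positivity)
          linarith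
      _ = A * (1 + 4 * d * k ^ ε * h) ^ (n + 1) * E := by
          rw [hP, pow_succ]
          ring

end DynC
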