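import Pool.Agent.Lib_MP_36b788c.LPPa

/-!
# Last passage functional: expectation of the group kernels

PROOF. `prod_osc`: for a list `L` of `p` sites `E Π_{y∈L} e^{s osc(y)} ≤ 4 e^{8 (p s)² v K}`: generalized Hölder
`E Π_{i<p} Z_i ≤ Π (E Z_i^p)^{1/p}` (`ENNReal.lintegral_prod_norm_pow_le` or by AM-GM: `Π e^{s osc(y_i)} ≤ (1/p) Σ_i e^{p s osc(y_i)}`,
which gives the bound at once), and `osc_exp_nz` with the exponent `p s`. For `p = 0` the left side is `1`.
`gk_exp`: by induction on `l`, for every list `L`: `E[Π_{y∈L} e^{λ osc(y)} Σ_z gk l z x] ≤ e^l · 4 exp(8((|L|+l+1) λ)² v K)`: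
`l = 0`: `Σ_z gk 0 z x = e^{λ osc(x)}`, list `x :: L`. `l+1`: `Σ_z gk (l+1) z x = Σ_y e^{-λ q max(dd y x,1)} (Σ_z gk l z y) e^{λ osc(x)}`, use the
induction hypothesis for the list `x :: L` and sum over `y` with `he`.
-/

open MeasureTheory ProbabilityTheory
open scoped ENNReal

namespace DynC

variable {S : Type} [Fintype S] {D : ℕ} (M : MSet S D)

private theorem LPPb_measurable_pmax (n : ℕ) : Measurable (fun b : ℕ → ℝ => pmax b n) := by
  unfold pmax
  refine Finset.measurable_range_sup'' (fun k _ => ?_)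
  exact Finset.measurable_sum _ (fun j _ => measurable_pi_apply j)

private theorem LPPb_measurable_osc (n : ℕ) : Measurable (fun b : ℕ → ℝ => osc b n) := by
  unfold osc
  refine (LPPb_measurable_pmax n).add ?_
  refine (LPPb_measurable_pmax n).comp ?_
  exact measurable_pi_lambda _ (fun j => (measurable_pi_apply j).neg)

private theorem LPPb_measurable_osc_site (n : ℕ) (x : S) :
    Measurable (fun g : ℕ → S → ℝ => osc (fun j => g j x) n) := by
  refine (LPPb_measurable_osc n).comp ?_
  exact measurable_pi_lambda _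
    (fun j => (measurable_pi_apply x).comp (measurable_pi_apply (X := fun _ => S → ℝ) j))

private theorem LPPb_measurable_sc (v : ℝ) : Measurable (fun ω : ℕ → S → ℝ => sc v ω) := by
  unfold sc
  refine measurable_pi_lambda _ (fun j => measurable_pi_lambda _ (fun x => ?_))
  exact ((measurable_pi_apply x).comp
    (measurable_pi_apply (X := fun _ => S → ℝ) j)).const_mul _

private theorem LPPb_pmax_congr (b b' : ℕ → ℝ) (n : ℕ) (h : ∀ j, j < n → b j = b' j) :
    pmax b n = pmax b' n := by
  unfold pmax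
  refine Finset.sup'_congr _ rfl (fun m hm => ?_)
  refine Finset.sum_congr rfl (fun j hj => h j ?_)
  have h1 := Finset.mem_range.mp hm
  have h2 := Finset.mem_range.mp hj
  omega

private theorem LPPb_osc_congr (b b' : ℕ → ℝ) (n : ℕ) (h : ∀ j, j < n → b j = b' j) :
    osc b n = osc b' n := by
  unfold osc
  rw [LPPb_pmax_congr b b' n h,
    LPPb_pmax_congr (fun j => -b j) (fun j => -b' j) n (fun j hj => by rw [h j hj])]

private theorem LPPb_amgm (p : ℕ) (hp : 0 < p) (f : Fin p → ℝ) :
    Real.exp (∑ i, f i) ≤ ∑ i, (1 / (p : ℝ)) * Real.exp (p * f i) := by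
  have hp' : (0 : ℝ) < p := by exact_mod_cast hp
  have h := convexOn_exp.map_sum_le (t := Finset.univ) (w := fun _ : Fin p => (1 / (p : ℝ)))
    (p := fun i => (p : ℝ) * f i) (fun i _ => by positivity)
    (by
      rw [Finset.sum_const, Finset.card_univ, Fintype.card_fin, nsmul_eq_mul]
      field_simp)
    (fun i _ => Set.mem_univ _)
  simp only [smul_eq_mul] at h
  have h2 : ∑ i, (1 / (p : ℝ)) * ((p : ℝ) * f i) = ∑ i, f i := by
    refine Finset.sum_congr rfl (fun i _ => ?_)
    field_simp
  rw [h2] at h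
  exact h

theorem prod_osc (s v : ℝ) (hs : 0 ≤ s) (hv : 0 ≤ v) (K : ℕ) (L : List S) :
    ∫⁻ ω, ENNReal.ofReal ((L.map fun y => Real.exp (s * osc (fun j => sc v ω j y) K)).prod)
        ∂(PI (nz S))
      ≤ ENNReal.ofReal (4 * Real.exp (8 * (L.length * s) ^ 2 * v * K)) := by
  rcases Nat.eq_zero_or_pos L.length with h0 | hp
  · have hL : L = [] := List.length_eq_zero_iff.mp h0
    subst hL
    simp only [List.map_nil, List.prod_nil, List.length_nil, ENNReal.ofReal_one]
    rw [lintegral_const, measure_univ, mul_one]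
    have : (1 : ℝ≥0∞) = ENNReal.ofReal 1 := ENNReal.ofReal_one.symm
    rw [this]
    refine ENNReal.ofReal_le_ofReal ?_
    simp
  · have hp' : (0 : ℝ) < L.length := by exact_mod_cast hp
    have hpt : ∀ ω : ℕ → S → ℝ,
        ENNReal.ofReal ((L.map fun y => Real.exp (s * osc (fun j => sc v ω j y) K)).prod)
        ≤ ∑ i : Fin L.length, ENNReal.ofReal (1 / (L.length : ℝ)) * ENNReal.ofReal
            (Real.exp ((L.length * s) * osc (fun j => sc v ω j (L.get i)) K)) := by
      intro ω
      have e1 : (L.map fun y => Real.exp (s * osc (fun j => sc v ω j y) K)).prod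
          = Real.exp (∑ i : Fin L.length, s * osc (fun j => sc v ω j (L.get i)) K) := by
        rw [Real.exp_sum]
        rw [← Fin.prod_univ_fun_getElem]
        rfl
      rw [e1]
      have e2 := LPPb_amgm L.length hp (fun i => s * osc (fun j => sc v ω j (L.get i)) K)
      refine (ENNReal.ofReal_le_ofReal e2).trans ?_
      rw [ENNReal.ofReal_sum_of_nonneg (fun i _ => by positivity)]
      refine Finset.sum_le_sum (fun i _ => ?_)
      rw [ENNReal.ofReal_mul (by positivity)]
      refine le_of_eq ?_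
      congr 3
      ring
    refine (lintegral_mono hpt).trans ?_
    have hmeas : ∀ i : Fin L.length, Measurable (fun ω : ℕ → S → ℝ => ENNReal.ofReal
            (Real.exp ((L.length * s) * osc (fun j => sc v ω j (L.get i)) K))) := by
      intro i
      have h1 : Measurable (fun ω : ℕ → S → ℝ => osc (fun j => sc v ω j (L.get i)) K) :=
        (LPPb_measurable_osc_site K (L.get i)).comp (LPPb_measurable_sc v)
      exact (Real.measurable_exp.comp (h1.const_mul _)).ennreal_ofReal
    rw [lintegral_finset_sum _ (fun i _ => (hmeas i).const_mul _)]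
    have hb : ∀ i : Fin L.length,
        ∫⁻ ω, ENNReal.ofReal (1 / (L.length : ℝ)) * ENNReal.ofReal
            (Real.exp ((L.length * s) * osc (fun j => sc v ω j (L.get i)) K)) ∂(PI (nz S))
        ≤ ENNReal.ofReal (1 / (L.length : ℝ)) *
          ENNReal.ofReal (4 * Real.exp (8 * (L.length * s) ^ 2 * v * K)) := by
      intro i
      rw [lintegral_const_mul _ (hmeas i)]
      exact mul_le_mul' le_rfl (osc_exp_nz _ v (by positivity) hv K (L.get i))
    refine (Finset.sum_le_sum (fun i _ => hb i)).trans ?_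
    rw [Finset.sum_const, Finset.card_univ, Fintype.card_fin, nsmul_eq_mul, ← mul_assoc]
    refine le_of_eq ?_
    have e3 : (L.length : ℝ≥0∞) * ENNReal.ofReal (1 / (L.length : ℝ)) = 1 := by
      rw [← ENNReal.ofReal_natCast, ← ENNReal.ofReal_mul (by positivity)]
      rw [mul_one_div_cancel hp'.ne', ENNReal.ofReal_one]
    rw [e3, one_mul]

theorem gk_nonneg (lam q : ℝ) (g : ℕ → S → ℝ) (K l : ℕ) (z x : S) : 0 ≤ M.gk lam q g K l z x := by
  induction l generalizing x with
  | zero =>
    unfold MSet.gk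
    split_ifs
    · positivity
    · exact le_rfl
  | succ l ih =>
    unfold MSet.gk
    exact mul_nonneg (Finset.sum_nonneg fun y _ => mul_nonneg (ih y) (Real.exp_nonneg _))
      (Real.exp_nonneg _)

theorem measurable_gk (lam q : ℝ) (K l : ℕ) (z x : S) :
    Measurable (fun g : ℕ → S → ℝ => M.gk lam q g K l z x) := by
  induction l generalizing x with
  | zero =>
    unfold MSet.gk
    by_cases h : z = x
    · simp only [h, if_true]
      exact Real.measurable_exp.comp ((LPPb_measurable_osc_site K x).const_mul _)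
    · simp only [h, if_false]
      exact measurable_const
  | succ l ih =>
    unfold MSet.gk
    refine Measurable.mul ?_ (Real.measurable_exp.comp ((LPPb_measurable_osc_site K x).const_mul _))
    exact Finset.measurable_sum _ (fun y _ => (ih y).mul_const _)

theorem gk_congr (lam q : ℝ) (g g' : ℕ → S → ℝ) (K l : ℕ) (z x : S)
    (h : ∀ j, j < K → g j = g' j) : M.gk lam q g K l z x = M.gk lam q g' K l z x := by
  have ho : ∀ y, osc (fun j => g j y) K = osc (fun j => g' j y) K := fun y =>
    LPPb_osc_congr _ _ K (fun j hj => by rw [h j hj])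
  induction l generalizing x with
  | zero =>
    unfold MSet.gk
    rw [ho x]
  | succ l ih =>
    unfold MSet.gk
    rw [ho x]
    congr 1
    exact Finset.sum_congr rfl (fun y _ => by rw [ih y])

private theorem LPPb_gk_exp (lam q v e : ℝ) (hl : 0 ≤ lam) (hv : 0 ≤ v)
    (he : ∀ x, ∑ y, Real.exp (-(lam * q * max (M.dd y x : ℝ) 1)) ≤ e) (K l : ℕ) :
    ∀ (L : List S) (x : S),
    ∫⁻ ω, ENNReal.ofReal ((L.map fun y => Real.exp (lam * osc (fun j => sc v ω j y) K)).prod *
        ∑ z, M.gk lam q (sc v ω) K l z x) ∂(PI (nz S))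
      ≤ ENNReal.ofReal (e ^ l * (4 * Real.exp (8 * ((L.length + l + 1) * lam) ^ 2 * v * K))) := by
  induction l with
  | zero =>
    intro L x
    have h := prod_osc (S := S) lam v hl hv K (x :: L)
    have e0 : ∀ ω : ℕ → S → ℝ, ∑ z, M.gk lam q (sc v ω) K 0 z x
        = Real.exp (lam * osc (fun j => sc v ω j x) K) := by
      intro ω
      classical
      simp only [MSet.gk]
      rw [Finset.sum_eq_single x]
      · simp
      · intro b _ hb
        simp [hb]
      · intro hx
        exact absurd (Finset.mem_univ x) hx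
    have e1 : ∀ ω : ℕ → S → ℝ,
        (L.map fun y => Real.exp (lam * osc (fun j => sc v ω j y) K)).prod *
        ∑ z, M.gk lam q (sc v ω) K 0 z x
        = ((x :: L).map fun y => Real.exp (lam * osc (fun j => sc v ω j y) K)).prod := by
      intro ω
      rw [e0, List.map_cons, List.prod_cons, mul_comm]
    simp only [e1]
    refine h.trans (le_of_eq ?_)
    rw [List.length_cons, pow_zero, one_mul]
    push_cast
    rw [add_zero]
  | succ l ih =>
    intro L x
    have he0 : 0 ≤ e := le_trans (Finset.sum_nonneg fun y _ => Real.exp_nonneg _) (he x)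
    have e1 : ∀ ω : ℕ → S → ℝ,
        ENNReal.ofReal ((L.map fun y => Real.exp (lam * osc (fun j => sc v ω j y) K)).prod *
        ∑ z, M.gk lam q (sc v ω) K (l + 1) z x)
        = ∑ y, ENNReal.ofReal (Real.exp (-(lam * q * max (M.dd y x : ℝ) 1))) *
          ENNReal.ofReal
          (((x :: L).map fun y => Real.exp (lam * osc (fun j => sc v ω j y) K)).prod *
            ∑ z, M.gk lam q (sc v ω) K l z y) := by
      intro ω
      have hP : 0 ≤ ((x :: L).map fun y => Real.exp (lam * osc (fun j => sc v ω j y) K)).prod := by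
        refine List.prod_nonneg (fun a ha => ?_)
        obtain ⟨y, _, rfl⟩ := List.mem_map.mp ha
        positivity
      have e2 : (L.map fun y => Real.exp (lam * osc (fun j => sc v ω j y) K)).prod *
        ∑ z, M.gk lam q (sc v ω) K (l + 1) z x
          = ∑ y, Real.exp (-(lam * q * max (M.dd y x : ℝ) 1)) *
          (((x :: L).map fun y => Real.exp (lam * osc (fun j => sc v ω j y) K)).prod *
            ∑ z, M.gk lam q (sc v ω) K l z y) := by
        have e3 : ∑ z, M.gk lam q (sc v ω) K (l + 1) z x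
            = (∑ y, Real.exp (-(lam * q * max (M.dd y x : ℝ) 1)) *
              ∑ z, M.gk lam q (sc v ω) K l z y) * Real.exp (lam * osc (fun j => sc v ω j x) K) := by
          simp only [MSet.gk]
          rw [← Finset.sum_mul]
          congr 1
          rw [Finset.sum_comm]
          refine Finset.sum_congr rfl (fun y _ => ?_)
          rw [Finset.mul_sum]
          exact Finset.sum_congr rfl (fun z _ => mul_comm _ _)
        rw [e3, List.map_cons, List.prod_cons, Finset.sum_mul, Finset.mul_sum]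
        refine Finset.sum_congr rfl (fun y _ => ?_)
        ring
      rw [e2, ENNReal.ofReal_sum_of_nonneg]
      · refine Finset.sum_congr rfl (fun y _ => ?_)
        rw [ENNReal.ofReal_mul (Real.exp_nonneg _)]
      · intro y _
        exact mul_nonneg (Real.exp_nonneg _)
          (mul_nonneg hP (Finset.sum_nonneg fun z _ => gk_nonneg M _ _ _ _ _ _ _))
    simp only [e1]
    have hm : ∀ y : S, Measurable (fun ω : ℕ → S → ℝ => ENNReal.ofReal
          (((x :: L).map fun y => Real.exp (lam * osc (fun j => sc v ω j y) K)).prod *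
            ∑ z, M.gk lam q (sc v ω) K l z y)) := by
      intro y
      refine Measurable.ennreal_ofReal ?_
      refine Measurable.mul ?_ ?_
      · have e4 : (fun ω : ℕ → S → ℝ =>
            ((x :: L).map fun y => Real.exp (lam * osc (fun j => sc v ω j y) K)).prod)
            = fun ω => ∏ i : Fin (x :: L).length,
              Real.exp (lam * osc (fun j => sc v ω j (x :: L)[i.1]) K) := by
          funext ω
          exact (Fin.prod_univ_fun_getElem (x :: L)
            (fun y => Real.exp (lam * osc (fun j => sc v ω j y) K))).symm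
        rw [e4]
        refine Finset.measurable_prod _ (fun i _ => ?_)
        have h1 : Measurable (fun ω : ℕ → S → ℝ => osc (fun j => sc v ω j (x :: L)[i.1]) K) :=
          (LPPb_measurable_osc_site K _).comp (LPPb_measurable_sc v)
        exact Real.measurable_exp.comp (h1.const_mul _)
      · refine Finset.measurable_sum _ (fun z _ => ?_)
        exact (measurable_gk M lam q K l z y).comp (LPPb_measurable_sc v)
    rw [lintegral_finset_sum _ (fun y _ => (hm y).const_mul _)]
    have hb : ∀ y : S, ∫⁻ ω, ENNReal.ofReal (Real.exp (-(lam * q * max (M.dd y x : ℝ) 1))) *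
          ENNReal.ofReal
          (((x :: L).map fun y => Real.exp (lam * osc (fun j => sc v ω j y) K)).prod *
            ∑ z, M.gk lam q (sc v ω) K l z y) ∂(PI (nz S))
        ≤ ENNReal.ofReal (Real.exp (-(lam * q * max (M.dd y x : ℝ) 1)) * (e ^ l *
          (4 * Real.exp (8 * (((x :: L).length + l + 1) * lam) ^ 2 * v * K)))) := by
      intro y
      rw [lintegral_const_mul _ (hm y), ENNReal.ofReal_mul (Real.exp_nonneg _)]
      exact mul_le_mul' le_rfl (ih (x :: L) y)
    refine (Finset.sum_le_sum (fun y _ => hb y)).trans ?_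
    rw [← ENNReal.ofReal_sum_of_nonneg (fun y _ => by positivity), ← Finset.sum_mul]
    refine ENNReal.ofReal_le_ofReal ?_
    have e5 : ((((x :: L).length : ℕ) : ℝ) + l + 1) = (L.length + ((l + 1 : ℕ) : ℝ) + 1) := by
      rw [List.length_cons]; push_cast; ring
    rw [e5, pow_succ e l, mul_comm (e ^ l) e, mul_assoc e]
    exact mul_le_mul_of_nonneg_right (he x) (by positivity)

theorem gk_exp (lam q v e : ℝ) (hl : 0 ≤ lam) (hv : 0 ≤ v)
    (he : ∀ x, ∑ y, Real.exp (-(lam * q * max (M.dd y x : ℝ) 1)) ≤ e) (K l : ℕ) (x : S) :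
    ∫⁻ ω, ENNReal.ofReal (∑ z, M.gk lam q (sc v ω) K l z x) ∂(PI (nz S))
      ≤ ENNReal.ofReal (e ^ l * (4 * Real.exp (8 * ((l + 1) * lam) ^ 2 * v * K))) := by
  have h := LPPb_gk_exp M lam q v e hl hv he K l [] x
  simp only [List.map_nil, List.prod_nil, one_mul, List.length_nil, Nat.cast_zero,
    zero_add] at h
  exact h

private theorem LPPb_summable (D : ℕ) (r : ℝ) (hr : 0 < r) :
    Summable (fun n : ℕ => ((2 * n + 1 : ℕ) : ℝ) ^ D * Real.exp (-(r * n))) := by
  have h1 := (Real.summable_pow_mul_exp_neg_nat_mul D hr).mul_left ((3 : ℝ) ^ D)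
  have h2 := Real.summable_pow_mul_exp_neg_nat_mul 0 hr
  refine Summable.of_nonneg_of_le (fun n => by positivity) (fun n => ?_) (h1.add h2)
  have e1 : Real.exp (-(r * n)) = Real.exp (-r * n) := by ring_nf
  rw [e1]
  have h3 : ((2 * n + 1 : ℕ) : ℝ) ^ D ≤ (3 : ℝ) ^ D * (n : ℝ) ^ D + 1 := by
    rcases Nat.eq_zero_or_pos n with h0 | hn
    · subst h0
      simp only [Nat.mul_zero, Nat.zero_add, Nat.cast_one, one_pow]
      have : 0 ≤ (3 : ℝ) ^ D * ((0 : ℕ) : ℝ) ^ D := by positivity
      linarith
    · have h4 : ((2 * n + 1 : ℕ) : ℝ) ≤ 3 * n := by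
        have : 2 * n + 1 ≤ 3 * n := by omega
        exact_mod_cast this
      have h5 : ((2 * n + 1 : ℕ) : ℝ) ^ D ≤ (3 * (n : ℝ)) ^ D :=
        pow_le_pow_left₀ (by positivity) h4 D
      rw [mul_pow] at h5
      linarith
  calc ((2 * n + 1 : ℕ) : ℝ) ^ D * Real.exp (-r * n)
      ≤ ((3 : ℝ) ^ D * (n : ℝ) ^ D + 1) * Real.exp (-r * n) :=
        mul_le_mul_of_nonneg_right h3 (Real.exp_nonneg _)
    _ = _ := by ring

/-- summability on a metric set -/
private theorem LPPb_sum_exp_dd (D : ℕ) (r : ℝ) (hr : 0 < r) : ∃ C : ℝ, 1 ≤ C ∧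
    ∀ (S : Type) [Fintype S] (M : MSet S D) (x : S),
      ∑ y, Real.exp (-(r * (M.dd x y : ℝ))) ≤ C := by
  have hs := LPPb_summable D r hr
  refine ⟨max 1 (∑' n : ℕ, ((2 * n + 1 : ℕ) : ℝ) ^ D * Real.exp (-(r * n))), le_max_left _ _,
    fun S _ M x => ?_⟩
  refine le_trans ?_ (le_max_right _ _)
  classical
  have h1 : ∑ y, Real.exp (-(r * (M.dd x y : ℝ)))
      = ∑ n ∈ Finset.univ.image (fun y => M.dd x y),
        ∑ y ∈ Finset.univ.filter (fun y => M.dd x y = n), Real.exp (-(r * (M.dd x y : ℝ))) := by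
    rw [Finset.sum_fiberwise_of_maps_to (fun y _ => Finset.mem_image_of_mem _ (Finset.mem_univ y))]
  rw [h1]
  refine le_trans (Finset.sum_le_sum (fun n _ => ?_))
    (hs.sum_le_tsum (Finset.univ.image (fun y => M.dd x y)) (fun n _ => by positivity))
  have h2 : ∑ y ∈ Finset.univ.filter (fun y => M.dd x y = n), Real.exp (-(r * (M.dd x y : ℝ)))
      = ∑ y ∈ Finset.univ.filter (fun y => M.dd x y = n), Real.exp (-(r * (n : ℝ))) := by
    refine Finset.sum_congr rfl (fun y hy => ?_)
    rw [(Finset.mem_filter.mp hy).2]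
  rw [h2, Finset.sum_const, nsmul_eq_mul]
  refine mul_le_mul_of_nonneg_right ?_ (Real.exp_nonneg _)
  have h3 := M.growth x n (Finset.univ.filter (fun y => M.dd x y = n))
    (fun y hy => ((Finset.mem_filter.mp hy).2).le)
  exact_mod_cast h3

/-- `ε_λ → 0` -/
theorem eps_small (D : ℕ) (q : ℝ) (hq : 0 < q) (e : ℝ) (he : 0 < e) :
    ∃ L0 : ℝ, 0 < L0 ∧ ∀ lam, L0 ≤ lam → ∀ (S : Type) [Fintype S] (M : MSet S D) (x : S),
      ∑ y, Real.exp (-(lam * q * max (M.dd y x : ℝ) 1)) ≤ e := by
  obtain ⟨C, hC1, hC⟩ := LPPb_sum_exp_dd D q hq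
  have hC0 : 0 < C := lt_of_lt_of_le one_pos hC1
  refine ⟨1 + |Real.log (C / e)| / q, by positivity, fun lam hlam S _ M x => ?_⟩
  have hlam1 : 1 ≤ lam := by
    have : 0 ≤ |Real.log (C / e)| / q := by positivity
    linarith
  have hlog : Real.log (C / e) ≤ (lam - 1) * q := by
    have h1 : |Real.log (C / e)| / q ≤ lam - 1 := by linarith
    have h2 : |Real.log (C / e)| ≤ (lam - 1) * q := (div_le_iff₀ hq).mp h1
    exact (le_abs_self _).trans h2
  have hexp : C * Real.exp (-((lam - 1) * q)) ≤ e := by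
    rw [Real.exp_neg, ← div_eq_mul_inv, div_le_iff₀ (Real.exp_pos _)]
    have h3 : C / e ≤ Real.exp ((lam - 1) * q) := by
      rw [← Real.log_le_iff_le_exp (by positivity)]
      exact hlog
    rw [div_le_iff₀ he] at h3
    linarith
  refine le_trans ?_ hexp
  calc ∑ y, Real.exp (-(lam * q * max (M.dd y x : ℝ) 1))
      ≤ ∑ y, Real.exp (-(q * (M.dd x y : ℝ))) * Real.exp (-((lam - 1) * q)) := by
        refine Finset.sum_le_sum (fun y _ => ?_)
        rw [← Real.exp_add, M.dd_comm y x]
        refine Real.exp_le_exp.mpr ?_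
        have h4 : (M.dd x y : ℝ) ≤ max (M.dd x y : ℝ) 1 := le_max_left _ _
        have h5 : (1 : ℝ) ≤ max (M.dd x y : ℝ) 1 := le_max_right _ _
        have h6 : q * (M.dd x y : ℝ) ≤ q * max (M.dd x y : ℝ) 1 :=
          mul_le_mul_of_nonneg_left h4 hq.le
        have h7 : (lam - 1) * q * 1 ≤ (lam - 1) * q * max (M.dd x y : ℝ) 1 :=
          mul_le_mul_of_nonneg_left h5 (mul_nonneg (by linarith) hq.le)
        nlinarith
    _ = (∑ y, Real.exp (-(q * (M.dd x y : ℝ)))) * Real.exp (-((lam - 1) * q)) := by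
        rw [Finset.sum_mul]
    _ ≤ C * Real.exp (-((lam - 1) * q)) :=
        mul_le_mul_of_nonneg_right (hC S M x) (Real.exp_nonneg _)

/-- summability on a metric set -/
theorem sum_exp_dd (D : ℕ) (r : ℝ) (hr : 0 < r) : ∃ C : ℝ, 1 ≤ C ∧
    ∀ (S : Type) [Fintype S] (M : MSet S D) (x : S),
      ∑ y, Real.exp (-(r * (M.dd x y : ℝ))) ≤ C :=
  LPPb_sum_exp_dd D r hr

end DynC
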