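import Pool.Agent.Lib_MP_36b788c.LYr

/-!
# Iteration of the decay; exchange of the components

PROOF.
* `PSys.swap`: exchange the components before and after the step; all fields from those of `S` (`dif` is symmetric by `norm_sub_rev`).
* `swap_tr`, `swap_alv`: induction; the conditions are symmetric. `swap_V`: `V1` of the exchanged pair is `V2` (`add_comm` in `t`).
* `ly_iter`: `s = a/ell`, `J = ⌊T/T0⌋ - 1 ≥ 1`, `n0 = ⌈T0 ts/h⌉`, `n_B = ⌈T ts/h⌉`. `J n0 ≤ n_B` for small `h`. `alv_markov`: `E_j = ∫_{alv (j n0)} V1(tr (j n0)) x`, `E_{j+1} ≤ (1-a/4) E_j + Ca` (one step property applied to the state at time `j n0`, total mass `≤ 1`), so `E_J ≤ (1-a/4)^J V1 + 4Ca/a`. Remainder `r = n_B - J n0`, `r h ≤ 2 T0 ts + 2`: `sm_multi`,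
  `≤ exp(C9(s/ell + s²)(2T0 ts + 2)) ≤ exp(C9(2T0+2)) =: B0` (`ts ≤ ell²`, `a ≤ 1/8`). `(1-a/4)^J ≤ exp(-(a/4)(T/T0 - 2))`.
-/

open MeasureTheory ProbabilityTheory
open scoped ENNReal

namespace DynC

open Dyn

variable {d : ℕ}

/-- exchange of the two components -/
def PSys.swap {F : Fam d} {β k : ℝ} (S : PSys F β k) : PSys F β k where
  Ωp := S.Ωp
  ν := S.ν
  b := S.b
  gd := S.gd
  st := fun h L G ω => (S.st h L G.swap ω).swap
  mst := by
    intro h L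
    have h1 : Measurable (fun p : ((boxS d L → F.V) × (boxS d L → F.V)) × (boxS d L → S.Ωp) =>
        (p.1.swap, p.2)) := (measurable_swap.comp measurable_fst).prodMk measurable_snd
    exact measurable_swap.comp ((S.mst h L).comp h1)
  mb := S.mb
  mgd := S.mgd
  marg1 := by
    intro h L G
    exact S.marg2 h L G.swap
  marg2 := by
    intro h L G
    exact S.marg1 h L G.swap
  q1 := by
    intro h L G ω hh hg
    exact S.q2 h L G.swap ω hh hg
  q2 := by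
    intro h L G ω hh hg
    exact S.q1 h L G.swap ω hh hg
  u1 := by
    intro h L G ω hh x
    exact S.u2 h L G.swap ω hh x
  u2 := by
    intro h L G ω hh x
    exact S.u1 h L G.swap ω hh x
  dd := by
    intro h L G ω hh
    have h1 := S.dd h L G.swap ω hh
    have e1 : dif G.swap.1 G.swap.2 = dif G.1 G.2 := by
      funext x
      exact norm_sub_rev _ _
    have e2 : dif (S.st h L G.swap ω).1 (S.st h L G.swap ω).2 =
        dif (S.st h L G.swap ω).swap.1 (S.st h L G.swap ω).swap.2 := by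
      funext x
      exact norm_sub_rev _ _
    rw [e1, e2] at h1
    exact h1

theorem swap_tr {F : Fam d} {β k : ℝ} (S : PSys F β k) (h : ℝ) (L : ℕ)
    (G : (boxS d L → F.V) × (boxS d L → F.V)) (ω : ℕ → boxS d L → S.Ωp) (n : ℕ) :
    S.swap.tr h L G ω n = (S.tr h L G.swap ω n).swap := by
  induction n with
  | zero => rfl
  | succ n ih =>
    show (S.st h L (S.swap.tr h L G ω n).swap (ω n)).swap =
      (S.st h L (S.tr h L G.swap ω n) (ω n)).swap
    rw [ih, Prod.swap_swap]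

theorem swap_alv {F : Fam d} {β k : ℝ} (S : PSys F β k) (h : ℝ) (L : ℕ)
    (G : (boxS d L → F.V) × (boxS d L → F.V)) (n : ℕ) :
    S.swap.alv h L G n = S.alv h L G.swap n := by
  ext ω
  show ((∀ j, j < n → ∀ x, ω j x ∈ S.gd h) ∧
      ∀ j, j ≤ n → ∀ x, ‖(S.swap.tr h L G ω j).1 x‖ ≤ rad β h ∧
        ‖(S.swap.tr h L G ω j).2 x‖ ≤ rad β h) ↔
    ((∀ j, j < n → ∀ x, ω j x ∈ S.gd h) ∧
      ∀ j, j ≤ n → ∀ x, ‖(S.tr h L G.swap ω j).1 x‖ ≤ rad β h ∧
        ‖(S.tr h L G.swap ω j).2 x‖ ≤ rad β h)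
  constructor
  · rintro ⟨h1, h2⟩
    refine ⟨h1, ?_⟩
    intro j hj x
    have h3 := h2 j hj x
    rw [swap_tr] at h3
    exact ⟨h3.2, h3.1⟩
  · rintro ⟨h1, h2⟩
    refine ⟨h1, ?_⟩
    intro j hj x
    have h3 := h2 j hj x
    rw [swap_tr]
    exact ⟨h3.2, h3.1⟩

theorem swap_V {V : Type} [NormedAddCommGroup V] {L : ℕ} (k q s : ℝ)
    (G : (boxS d L → V) × (boxS d L → V)) (x : boxS d L) :
    V1 k q s G.swap x = V2 k q s G x ∧ V2 k q s G.swap x = V1 k q s G x := by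
  have e : (fun y : boxS d L => ‖G.swap.1 y‖ + ‖G.swap.2 y‖) = fun y => ‖G.1 y‖ + ‖G.2 y‖ := by
    funext y
    exact add_comm _ _
  unfold V1 V2
  rw [e]
  exact ⟨rfl, rfl⟩

/-- iteration of a one-block estimate -/
private theorem LYit_iter {F : Fam d} {β k : ℝ} (S : PSys F β k) (h : ℝ) (L : ℕ)
    (Φ : (boxS d L → F.V) × (boxS d L → F.V) → ℝ≥0∞) (hΦ : Measurable Φ) (A B : ℝ≥0∞) (m : ℕ)
    (hstep : ∀ G : (boxS d L → F.V) × (boxS d L → F.V),
      ∫⁻ ω in S.alv h L G m, Φ (S.tr h L G ω m) ∂(PI (S.mu L)) ≤ A * Φ G + B)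
    (G : (boxS d L → F.V) × (boxS d L → F.V)) (j : ℕ) :
    ∫⁻ ω in S.alv h L G (j * m), Φ (S.tr h L G ω (j * m)) ∂(PI (S.mu L)) ≤
      A ^ j * Φ G + B * ∑ i ∈ Finset.range j, A ^ i := by
  induction j with
  | zero =>
    rw [Nat.zero_mul]
    have h1 : ∀ ω, Φ (S.tr h L G ω 0) = Φ G := fun _ => rfl
    simp_rw [h1]
    rw [setLIntegral_const]
    calc Φ G * PI (S.mu L) (S.alv h L G 0) ≤ Φ G * 1 := by gcongr; exact prob_le_one
      _ ≤ A ^ 0 * Φ G + B * ∑ i ∈ Finset.range 0, A ^ i := by simp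
  | succ j ih =>
    rw [Nat.succ_mul, alv_markov S h L Φ hΦ G (j * m) m]
    have hmtr : Measurable fun ω : ℕ → boxS d L → S.Ωp => Φ (S.tr h L G ω (j * m)) :=
      hΦ.comp ((measurable_tr S h L (j * m)).comp (measurable_const.prodMk measurable_id))
    calc ∫⁻ ω in S.alv h L G (j * m), (∫⁻ ω' in S.alv h L (S.tr h L G ω (j * m)) m,
          Φ (S.tr h L (S.tr h L G ω (j * m)) ω' m) ∂(PI (S.mu L))) ∂(PI (S.mu L))
        ≤ ∫⁻ ω in S.alv h L G (j * m), (A * Φ (S.tr h L G ω (j * m)) + B) ∂(PI (S.mu L)) :=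
          lintegral_mono fun ω => hstep _
      _ = A * ∫⁻ ω in S.alv h L G (j * m), Φ (S.tr h L G ω (j * m)) ∂(PI (S.mu L)) +
          B * PI (S.mu L) (S.alv h L G (j * m)) := by
          rw [lintegral_add_right _ measurable_const, lintegral_const_mul _ hmtr,
            setLIntegral_const]
      _ ≤ A * (A ^ j * Φ G + B * ∑ i ∈ Finset.range j, A ^ i) + B * 1 := by
          gcongr
          exact prob_le_one
      _ = A ^ (j + 1) * Φ G + B * ∑ i ∈ Finset.range (j + 1), A ^ i := by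
          rw [Finset.sum_range_succ']
          simp_rw [pow_succ]
          rw [← Finset.sum_mul, pow_zero, mul_add, mul_add]
          ring

/-- geometric sum with ratio `1 - a/4` -/
private theorem LYit_geom (a : ℝ) (ha : 0 < a) (ha8 : a ≤ 1 / 8) (j : ℕ) :
    ∑ i ∈ Finset.range j, ENNReal.ofReal (1 - a / 4) ^ i ≤ ENNReal.ofReal (4 / a) := by
  have h1 : (0 : ℝ) ≤ 1 - a / 4 := by linarith
  have h2 : ∀ i, ENNReal.ofReal (1 - a / 4) ^ i = ENNReal.ofReal ((1 - a / 4) ^ i) := fun i =>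
    (ENNReal.ofReal_pow h1 i).symm
  simp_rw [h2]
  rw [← ENNReal.ofReal_sum_of_nonneg (fun i _ => pow_nonneg h1 i)]
  refine ENNReal.ofReal_le_ofReal ?_
  have h3 : (∑ i ∈ Finset.range j, (1 - a / 4) ^ i) * (1 - (1 - a / 4)) =
      1 - (1 - a / 4) ^ j := by
    have := geom_sum_mul (1 - a / 4) j
    linarith
  have h4 : (0 : ℝ) ≤ (1 - a / 4) ^ j := pow_nonneg h1 j
  rw [le_div_iff₀ ha]
  nlinarith

/-- powers of `1 - a/4` -/
private theorem LYit_pow (a T T0 : ℝ) (ha : 0 < a) (ha8 : a ≤ 1 / 8) (hT0 : 0 < T0)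
    (J : ℕ) (hJ : T / T0 - 2 ≤ J) :
    (1 - a / 4) ^ J ≤ 4 * Real.exp (-(1 / (4 * T0) * a * T)) := by
  have h1 : (1 - a / 4) ^ J ≤ Real.exp (-(a / 4)) ^ J := by
    refine pow_le_pow_left₀ (by linarith) ?_ J
    have := Real.add_one_le_exp (-(a / 4))
    linarith
  rw [← Real.exp_nat_mul] at h1
  have h2 : (J : ℝ) * -(a / 4) ≤ a / 2 + -(1 / (4 * T0) * a * T) := by
    have e : 1 / (4 * T0) * a * T = a / 4 * (T / T0) := by
      field_simp
    rw [e]
    nlinarith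
  have h3 : Real.exp (a / 2) ≤ 4 := by
    have h4 : Real.exp (a / 2) ≤ Real.exp 1 := Real.exp_le_exp.2 (by linarith)
    have h5 := Real.exp_one_lt_d9
    linarith
  calc (1 - a / 4) ^ J ≤ Real.exp ((J : ℝ) * -(a / 4)) := h1
    _ ≤ Real.exp (a / 2 + -(1 / (4 * T0) * a * T)) := Real.exp_le_exp.2 h2
    _ = Real.exp (a / 2) * Real.exp (-(1 / (4 * T0) * a * T)) := Real.exp_add _ _
    _ ≤ 4 * Real.exp (-(1 / (4 * T0) * a * T)) := by gcongr

/-- large `ell` -/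
private theorem LYit_ell (M k : ℝ) (hk : 0 < k) (hkM : k < Real.exp (-M)) : M ≤ ell k := by
  unfold ell
  rw [one_div, Real.log_inv]
  have h1 : Real.log k < Real.log (Real.exp (-M)) := Real.log_lt_log hk hkM
  rw [Real.log_exp] at h1
  linarith

private theorem LYit_ts (N : ℕ) (k : ℝ) (hell : 1 ≤ ell k) : 1 ≤ ts N k ∧ ts N k ≤ ell k ^ 2 := by
  unfold ts
  split_ifs
  · exact ⟨by nlinarith, le_rfl⟩
  · exact ⟨hell, by nlinarith⟩

/-- exponent of the growth over the remainder -/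
private theorem LYit_expo (C9 a T0 l τ rh : ℝ) (hC9 : 0 < C9) (ha : 0 < a) (ha8 : a ≤ 1 / 8)
    (hT0 : 0 < T0) (hl : 1 ≤ l) (hτ : τ ≤ l ^ 2) (hr0 : 0 ≤ rh) (hr : rh ≤ 2 * T0 * τ + 1) :
    C9 * (a / l / l + (a / l) ^ 2) * rh ≤ C9 * (2 * T0 + 1) := by
  have hl0 : 0 < l := by linarith
  have e1 : a / l / l + (a / l) ^ 2 = (a + a ^ 2) / l ^ 2 := by
    field_simp
  have h1 : (a + a ^ 2) / l ^ 2 ≤ 1 / l ^ 2 := by
    gcongr
    nlinarith
  have h2 : rh ≤ (2 * T0 + 1) * l ^ 2 := by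
    have : 1 ≤ l ^ 2 := by nlinarith
    nlinarith
  rw [e1]
  calc C9 * ((a + a ^ 2) / l ^ 2) * rh ≤ C9 * (1 / l ^ 2) * ((2 * T0 + 1) * l ^ 2) := by
        gcongr
    _ = C9 * (2 * T0 + 1) := by
        field_simp

theorem ly_iter (N d : ℕ) (β : ℝ) (hN : 2 ≤ N) (hβ : 0 < β) : ∃ q0 : ℝ, 1 ≤ q0 ∧
    ∀ q, q0 ≤ q → ∀ T0 : ℝ, 0 < T0 → ∃ B c : ℝ, 1 ≤ B ∧ 0 < c ∧
    ∀ (a Ca : ℝ) (Ls : ℕ), 0 < a → a ≤ 1 / 8 → 0 ≤ Ca →
    ∀ (F : ℝ → Fam d) (S : ∀ k, 0 < k → PSys (F k) β k),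
    (∀ k hk, BNoise N (S k hk).ν (S k hk).b (S k hk).gd) →
    (∃ k0 : ℝ, 0 < k0 ∧ k0 < 1 ∧ ∀ (k : ℝ) (hk : 0 < k), k < k0 →
      ∀ L : ℕ, Ls ≤ L → ∃ h0 : ℝ, 0 < h0 ∧ ∀ h, 0 < h → h < h0 →
      ∀ (G : (boxS d L → (F k).V) × (boxS d L → (F k).V)) (x : boxS d L) (n : ℕ),
        T0 * ts N k ≤ n * h → n * h ≤ T0 * ts N k + 1 →
        ∫⁻ ω in (S k hk).alv h L G n, V1 k q (a / ell k) ((S k hk).tr h L G ω n) x
            ∂(PI ((S k hk).mu L)) ≤
          ENNReal.ofReal (1 - a / 4) * V1 k q (a / ell k) G x + ENNReal.ofReal Ca) →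
    ∀ T : ℝ, 2 * T0 ≤ T → ∃ k0 : ℝ, 0 < k0 ∧ k0 < 1 ∧ ∀ (k : ℝ) (hk : 0 < k), k < k0 →
      ∀ L : ℕ, Ls ≤ L → ∃ h0 : ℝ, 0 < h0 ∧ ∀ h, 0 < h → h < h0 →
      ∀ (G : (boxS d L → (F k).V) × (boxS d L → (F k).V)) (x : boxS d L),
        ∫⁻ ω in (S k hk).alv h L G ⌈T * ts N k / h⌉₊,
            V1 k q (a / ell k) ((S k hk).tr h L G ω ⌈T * ts N k / h⌉₊) x
            ∂(PI ((S k hk).mu L)) ≤
          ENNReal.ofReal (B * Real.exp (-(c * a * T))) * V1 k q (a / ell k) G x +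
            ENNReal.ofReal (B * Ca / a) := by
  obtain ⟨q0, hq0, H⟩ := sm_multi N d β hN hβ
  refine ⟨q0, hq0, ?_⟩
  intro q hq T0 hT0
  obtain ⟨C9, k1, hC9, hk1, hk11, H1⟩ := H q hq
  have hq1 : 1 ≤ q := le_trans hq0 hq
  have hB0 : 1 ≤ Real.exp (C9 * (2 * T0 + 1)) := Real.one_le_exp (by positivity)
  refine ⟨4 * Real.exp (C9 * (2 * T0 + 1)), 1 / (4 * T0), by linarith, by positivity, ?_⟩
  intro a Ca Ls ha ha8 hCa F S hB hone T hT
  obtain ⟨k2, hk2, hk21, H2⟩ := hone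
  have hkmin : 0 < min (min k1 k2) (Real.exp (-q)) :=
    lt_min (lt_min hk1 hk2) (Real.exp_pos _)
  refine ⟨min (min k1 k2) (Real.exp (-q)), hkmin, ?_, ?_⟩
  · exact lt_of_le_of_lt (le_trans (min_le_left _ _) (min_le_left _ _)) hk11
  intro k hk hkk L hL
  have hkk1 : k < k1 := lt_of_lt_of_le hkk (le_trans (min_le_left _ _) (min_le_left _ _))
  have hkk2 : k < k2 := lt_of_lt_of_le hkk (le_trans (min_le_left _ _) (min_le_right _ _))
  have hkq : k < Real.exp (-q) := lt_of_lt_of_le hkk (min_le_right _ _)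
  have hellq : q ≤ ell k := LYit_ell q k hk hkq
  have hell : 1 ≤ ell k := le_trans hq1 hellq
  have hell0 : 0 < ell k := by linarith
  obtain ⟨hts1, hts2⟩ := LYit_ts N k hell
  have hs : 0 < a / ell k := div_pos ha hell0
  have hqs : 8 * q * (a / ell k) ≤ 1 := by
    rw [← mul_div_assoc, div_le_one hell0]
    nlinarith
  obtain ⟨h1, hh1, H3⟩ := H1 (F k) k (S k hk) hk hkk1 (hB k hk) (a / ell k) hs hqs
  obtain ⟨h2, hh2, H4⟩ := H2 k hk hkk2 L hL
  have hT0' : 0 < T := by linarith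
  have hTT : 2 ≤ T / T0 := by
    rw [le_div_iff₀ hT0]
    exact hT
  have hTT0 : 0 < T / T0 := by linarith
  refine ⟨min (min h1 h2) (min 1 (T0 / (T / T0))), by positivity, ?_⟩
  intro h hh hhh G x
  have hhh1 : h < h1 := lt_of_lt_of_le hhh (le_trans (min_le_left _ _) (min_le_left _ _))
  have hhh2 : h < h2 := lt_of_lt_of_le hhh (le_trans (min_le_left _ _) (min_le_right _ _))
  have hhh3 : h < 1 := lt_of_lt_of_le hhh (le_trans (min_le_right _ _) (min_le_left _ _))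
  have hhh4 : h * (T / T0) ≤ T0 := by
    have h5 : h ≤ T0 / (T / T0) :=
      (lt_of_lt_of_le hhh (le_trans (min_le_right _ _) (min_le_right _ _))).le
    rw [le_div_iff₀ hTT0] at h5
    exact h5
  -- times
  have hts0 : 0 < ts N k := by linarith
  set n0 : ℕ := ⌈T0 * ts N k / h⌉₊ with hn0
  set nB : ℕ := ⌈T * ts N k / h⌉₊ with hnB
  have hn0a : T0 * ts N k ≤ n0 * h := by
    have h5 := Nat.le_ceil (T0 * ts N k / h)
    rw [div_le_iff₀ hh] at h5
    exact h5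
  have hn0b : n0 * h ≤ T0 * ts N k + h := by
    have h5 := (Nat.ceil_lt_add_one (by positivity : (0:ℝ) ≤ T0 * ts N k / h)).le
    calc (n0:ℝ) * h ≤ (T0 * ts N k / h + 1) * h := by gcongr
      _ = T0 * ts N k + h := by field_simp
  have hnBa : T * ts N k ≤ nB * h := by
    have h5 := Nat.le_ceil (T * ts N k / h)
    rw [div_le_iff₀ hh] at h5
    exact h5
  have hnBb : nB * h ≤ T * ts N k + h := by
    have h5 := (Nat.ceil_lt_add_one (by positivity : (0:ℝ) ≤ T * ts N k / h)).le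
    calc (nB:ℝ) * h ≤ (T * ts N k / h + 1) * h := by gcongr
      _ = T * ts N k + h := by field_simp
  set J : ℕ := ⌊T / T0⌋₊ - 1 with hJ
  have hfl : 2 ≤ ⌊T / T0⌋₊ := Nat.le_floor (by exact_mod_cast hTT)
  have hJc : (J : ℝ) = (⌊T / T0⌋₊ : ℝ) - 1 := by
    rw [hJ, Nat.cast_sub (by omega)]
    norm_num
  have hJa : (J : ℝ) ≤ T / T0 - 1 := by
    rw [hJc]
    have h5 := Nat.floor_le hTT0.le
    linarith
  have hJb : T / T0 - 2 ≤ (J : ℝ) := by
    rw [hJc]
    have h5 := Nat.lt_floor_add_one (T / T0)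
    linarith
  have hTe : T / T0 * T0 = T := by field_simp
  have hJn : J * n0 ≤ nB := by
    have h5 : (J : ℝ) * (n0 * h) ≤ nB * h := by
      calc (J : ℝ) * (n0 * h) ≤ (T / T0 - 1) * (T0 * ts N k + h) := by
            have : (0:ℝ) ≤ T / T0 - 1 := by linarith
            gcongr
        _ = T / T0 * T0 * ts N k - T0 * ts N k + (h * (T / T0) - h) := by ring
        _ ≤ T * ts N k := by
            rw [hTe]
            nlinarith
        _ ≤ nB * h := hnBa
    have h6 : ((J * n0 : ℕ) : ℝ) * h ≤ nB * h := by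
      push_cast
      linarith
    have h7 : ((J * n0 : ℕ) : ℝ) ≤ nB := le_of_mul_le_mul_right h6 hh
    exact_mod_cast h7
  obtain ⟨r, hr⟩ := Nat.exists_eq_add_of_le hJn
  have hrc : (nB : ℝ) = J * n0 + r := by
    rw [hr]
    push_cast
    ring
  have hrh : (r : ℝ) * h ≤ 2 * T0 * ts N k + 1 := by
    have h5 : (r : ℝ) * h = nB * h - J * (n0 * h) := by
      rw [hrc]
      ring
    have h6 : (T / T0 - 2) * (T0 * ts N k) ≤ J * (n0 * h) := by
      have : (0:ℝ) ≤ T / T0 - 2 := by linarith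
      gcongr
    have h7 : (T / T0 - 2) * (T0 * ts N k) = T * ts N k - 2 * T0 * ts N k := by
      have : (T / T0 - 2) * (T0 * ts N k) = T / T0 * T0 * ts N k - 2 * T0 * ts N k := by ring
      rw [this, hTe]
    rw [h5]
    linarith
  -- iteration
  have hΦ : Measurable (fun G : (boxS d L → (F k).V) × (boxS d L → (F k).V) =>
      V1 k q (a / ell k) G x) := (measurable_V k q (a / ell k) x).1
  have hit := LYit_iter (S k hk) h L (fun G => V1 k q (a / ell k) G x) hΦ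
    (ENNReal.ofReal (1 - a / 4)) (ENNReal.ofReal Ca) n0
    (fun G => H4 h hh hhh2 G x n0 hn0a (by linarith)) G J
  have hmk := alv_markov (S k hk) h L (fun G => V1 k q (a / ell k) G x) hΦ G (J * n0) r
  rw [← hr] at hmk
  rw [hmk]
  have hexp : ENNReal.ofReal (Real.exp (C9 * (a / ell k / ell k + (a / ell k) ^ 2) * (r * h))) ≤
      ENNReal.ofReal (Real.exp (C9 * (2 * T0 + 1))) := by
    refine ENNReal.ofReal_le_ofReal (Real.exp_le_exp.2 ?_)
    exact LYit_expo C9 a T0 (ell k) (ts N k) (r * h) hC9 ha ha8 hT0 hell hts2 (by positivity) hrh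
  have hmtr : Measurable fun ω : ℕ → boxS d L → (S k hk).Ωp =>
      V1 k q (a / ell k) ((S k hk).tr h L G ω (J * n0)) x :=
    hΦ.comp ((measurable_tr (S k hk) h L (J * n0)).comp (measurable_const.prodMk measurable_id))
  have hin : ∀ ω, ∫⁻ ω' in (S k hk).alv h L ((S k hk).tr h L G ω (J * n0)) r,
        V1 k q (a / ell k) ((S k hk).tr h L ((S k hk).tr h L G ω (J * n0)) ω' r) x
          ∂(PI ((S k hk).mu L)) ≤
      ENNReal.ofReal (Real.exp (C9 * (2 * T0 + 1))) *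
        V1 k q (a / ell k) ((S k hk).tr h L G ω (J * n0)) x := by
    intro ω
    refine le_trans (H3 h hh hhh1 L ((S k hk).tr h L G ω (J * n0)) r x).1 ?_
    exact mul_le_mul_left hexp _
  have hpow : ENNReal.ofReal (1 - a / 4) ^ J ≤
      ENNReal.ofReal (4 * Real.exp (-(1 / (4 * T0) * a * T))) := by
    rw [← ENNReal.ofReal_pow (by linarith)]
    exact ENNReal.ofReal_le_ofReal (LYit_pow a T T0 ha ha8 hT0 J hJb)
  have hgs := LYit_geom a ha ha8 J
  calc ∫⁻ ω in (S k hk).alv h L G (J * n0),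
        (∫⁻ ω' in (S k hk).alv h L ((S k hk).tr h L G ω (J * n0)) r,
          V1 k q (a / ell k) ((S k hk).tr h L ((S k hk).tr h L G ω (J * n0)) ω' r) x
            ∂(PI ((S k hk).mu L))) ∂(PI ((S k hk).mu L))
      ≤ ∫⁻ ω in (S k hk).alv h L G (J * n0), ENNReal.ofReal (Real.exp (C9 * (2 * T0 + 1))) *
          V1 k q (a / ell k) ((S k hk).tr h L G ω (J * n0)) x ∂(PI ((S k hk).mu L)) :=
        lintegral_mono hin
    _ = ENNReal.ofReal (Real.exp (C9 * (2 * T0 + 1))) *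
          ∫⁻ ω in (S k hk).alv h L G (J * n0),
            V1 k q (a / ell k) ((S k hk).tr h L G ω (J * n0)) x ∂(PI ((S k hk).mu L)) :=
        lintegral_const_mul _ hmtr
    _ ≤ ENNReal.ofReal (Real.exp (C9 * (2 * T0 + 1))) *
          (ENNReal.ofReal (1 - a / 4) ^ J * V1 k q (a / ell k) G x +
            ENNReal.ofReal Ca * ∑ i ∈ Finset.range J, ENNReal.ofReal (1 - a / 4) ^ i) := by
        exact mul_le_mul_right hit _
    _ ≤ ENNReal.ofReal (Real.exp (C9 * (2 * T0 + 1))) *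
          (ENNReal.ofReal (4 * Real.exp (-(1 / (4 * T0) * a * T))) * V1 k q (a / ell k) G x +
            ENNReal.ofReal Ca * ENNReal.ofReal (4 / a)) := by
        gcongr
    _ = ENNReal.ofReal (4 * Real.exp (C9 * (2 * T0 + 1)) *
            Real.exp (-(1 / (4 * T0) * a * T))) * V1 k q (a / ell k) G x +
          ENNReal.ofReal (4 * Real.exp (C9 * (2 * T0 + 1)) * Ca / a) := by
        have e1 : 4 * Real.exp (C9 * (2 * T0 + 1)) * Real.exp (-(1 / (4 * T0) * a * T)) =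
            Real.exp (C9 * (2 * T0 + 1)) * (4 * Real.exp (-(1 / (4 * T0) * a * T))) := by ring
        have e2 : 4 * Real.exp (C9 * (2 * T0 + 1)) * Ca / a =
            Real.exp (C9 * (2 * T0 + 1)) * (Ca * (4 / a)) := by ring
        rw [mul_add, ← mul_assoc, ← ENNReal.ofReal_mul (Real.exp_pos _).le,
          ← ENNReal.ofReal_mul hCa, ← ENNReal.ofReal_mul (Real.exp_pos _).le, e1, e2]

end DynC
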