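import Pool.Agent.Lib_MP_36b788c.LYr
import Pool.Agent.Lib_MP_36b788c.Low3

/-!
# Main estimate, `N ≥ 3`

PROOF of `mest3`. `λ = lamN N ≥ 1/2`, `T0 = 40`. Given `M` (replace it by `max M 8`), `Md, ε0, c` from `low3` with `T0`, `ε = 1/100`. `M0 = 30`. `s = a/ell`, `PL = dist x z/4 - g(X0) ≥ M0`.
Site `w`: if `dist x z ≥ 8` a site with `dist z w = 8`, `dist x w = dist x z - 8` (eight steps of `toward`), otherwise `w = z`. `low3` (the first component of `S.tr` has the law of the chain, `tr_path`): outside probability `k^c`, `‖(tr m).1 w‖ ≥ k^{-X''}`, `X'' = min (X0 - dist z w + λ m h/ell) (-1/16) - 1/100`, and `λ m h/ell ≥ 19`.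
`mom_cap`: outside probability `C k^{1/16}` (on `alv`) `SSt(t)(w) = 1 + k^{1/16} Yl(t)(w) ≤ 2` at time `m`. So `V1(tr m) x ≤ Tz(w)^{-s} ≤ exp(a(dist x w/4 - g(X''))) 2^{q s}`.
Gain `PL - (dist x w/4 - g(X'')) ≥ 1`: if `dist x z ≥ 8`: `= 2 + g(X'') - g(X0)`, `g` monotone, `X'' ≥ X0 + 1` or `X'' ≥ -1/16 - 1/100 ≥ -1/8`, `g(X'') = -3/16 ≥ g(X0) - 1/16` (`X0 ≤ 1/8`). If `dist x z < 8`: `g(X0) ≤ -M0 + 2`, so `X0 ≤ -M0 + 3`, `X'' ≥ X0 + 18` or `≥ -1/8`: `g(X'') - g(X0) ≥ min(18 - 1/4, M0 - 3) ≥ 1`.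
On the good event: `≤ 2^{qs} e^{-a} e^{a PL} ≤ (1 - a/2) e^{a PL}` (`e^{-a} ≤ 1 - a + a²/2`, `a ≤ 1/8`, `2^{qs} ≤ 1 + a/100`). On the rest: `(∫_{alv m} V1²)^{1/2} p^{1/2}`, `V_sq`, `sm_multi` with `2s` (`m h ≤ T0 ell + 5`): `≤ e^{C} V1 G x (2k^{c'})^{1/2} ≤ (a/100) V1 G x`.
-/

open MeasureTheory ProbabilityTheory
open scoped ENNReal

namespace DynC

open Dyn

private theorem ME3_tend_ell : Filter.Tendsto ell (nhdsWithin 0 (Set.Ioi 0)) Filter.atTop := by
  unfold ell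
  have h1 : Filter.Tendsto (fun k : ℝ => 1 / k) (nhdsWithin 0 (Set.Ioi 0)) Filter.atTop := by
    simpa [one_div] using tendsto_inv_nhdsGT_zero (𝕜 := ℝ)
  exact Real.tendsto_log_atTop.comp h1

private theorem ME3_tend_rpow {c : ℝ} (hc : 0 < c) :
    Filter.Tendsto (fun k : ℝ => k ^ c) (nhdsWithin 0 (Set.Ioi 0)) (nhds 0) := by
  have h1 : Filter.Tendsto (fun k : ℝ => k ^ c) (nhds 0) (nhds ((0 : ℝ) ^ c)) :=
    (Real.continuousAt_rpow_const 0 c (Or.inr hc.le))
  rw [Real.zero_rpow hc.ne'] at h1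
  exact h1.mono_left nhdsWithin_le_nhds

private theorem ME3_small (A a C9 C c kL k9 : ℝ) (ha : 0 < a) (hc : 0 < c)
    (hkL : 0 < kL) (hk9 : 0 < k9) : ∃ k0 : ℝ, 0 < k0 ∧ k0 < 1 ∧ ∀ k, 0 < k → k < k0 →
      k < kL ∧ k < k9 ∧ k < 1 ∧ A ≤ ell k ∧
        Real.exp (C9 / 2) * Real.sqrt (k ^ c + C * k ^ (1 / 16 : ℝ)) ≤ a / 100 := by
  have h1 : ∀ᶠ k in nhdsWithin (0 : ℝ) (Set.Ioi 0), A ≤ ell k :=
    ME3_tend_ell.eventually (Filter.eventually_ge_atTop A)
  have h2 : Filter.Tendsto (fun k : ℝ => Real.exp (C9 / 2) * Real.sqrt (k ^ c + C * k ^ (1 / 16 : ℝ)))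
      (nhdsWithin 0 (Set.Ioi 0)) (nhds 0) := by
    have e1 := (ME3_tend_rpow hc).add ((ME3_tend_rpow (c := 1 / 16) (by norm_num)).const_mul C)
    rw [mul_zero, add_zero] at e1
    have e2 := ((Real.continuous_sqrt.tendsto 0).comp e1).const_mul (Real.exp (C9 / 2))
    rw [Real.sqrt_zero, mul_zero] at e2
    exact e2
  have h3 := h2.eventually (gt_mem_nhds (show (0 : ℝ) < a / 100 by positivity))
  obtain ⟨k1, hk1, H1⟩ := mem_nhdsGT_iff_exists_Ioo_subset.mp (h1.and h3)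
  refine ⟨min (min kL k9) (min k1 (1 / 2)), ?_, ?_, ?_⟩
  · exact lt_min (lt_min hkL hk9) (lt_min hk1 (by norm_num))
  · exact lt_of_le_of_lt ((min_le_right _ _).trans (min_le_right _ _)) (by norm_num)
  · intro k hk hlt
    have hA := lt_of_lt_of_le hlt ((min_le_left _ _).trans (min_le_left _ _))
    have hB := lt_of_lt_of_le hlt ((min_le_left _ _).trans (min_le_right _ _))
    have hC := lt_of_lt_of_le hlt ((min_le_right _ _).trans (min_le_left _ _))
    have hD := lt_of_lt_of_le hlt ((min_le_right _ _).trans (min_le_right _ _))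
    have hm := H1 ⟨hk, hC⟩
    exact ⟨hA, hB, hD.trans (by norm_num), hm.1, hm.2.le⟩

/-- several steps towards `x` -/
private theorem ME3_toward {ι : Type} [Fintype ι] {d : ℕ} (net : Net ι d) (x z : ι) (n : ℕ)
    (h : n ≤ net.dist x z) : ∃ w, net.dist z w = n ∧ net.dist x w + n = net.dist x z := by
  induction n with
  | zero => exact ⟨z, net.dist_self z, by simp⟩
  | succ n ih =>
    obtain ⟨w, hw1, hw2⟩ := ih (by omega)
    have hne : w ≠ x := by
      rintro rfl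
      rw [net.dist_self] at hw2
      omega
    obtain ⟨w', hw', hd⟩ := net.toward x w hne
    have h1 : net.dist w w' = 1 := net.dist_nb w w' hw'
    have h2 := net.dist_tri z w w'
    have h3 := net.dist_tri x w' z
    rw [net.dist_comm w' z] at h3
    exact ⟨w', by omega, by omega⟩

private theorem ME3_exp_ell {k : ℝ} (hk : 0 < k) (A : ℝ) : k ^ A = Real.exp (-(ell k * A)) := by
  rw [Real.rpow_def_of_pos hk]
  congr 1
  unfold ell
  rw [one_div, Real.log_inv]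
  ring

/-- potential from a height at a site with small `SSt` -/
private theorem ME3_V {d : ℕ} {V : Type} [NormedAddCommGroup V] {L : ℕ} {k q a : ℝ} (hk : 0 < k) (hk1 : k < 1)
    (hq : 0 ≤ q) (ha : 0 < a) (G : (boxS d L → V) × (boxS d L → V)) (x w : boxS d L) (Y : ℝ)
    (h1 : k ^ (-Y) ≤ ‖G.1 w‖)
    (h2 : SSt (boxNet d L) k (fun y => ‖G.1 y‖ + ‖G.2 y‖) w ≤ 2) :
    V1 k q (a / ell k) G x ≤ ENNReal.ofReal ((2 : ℝ) ^ (q * (a / ell k)) *
      Real.exp (a * ((boxNet d L).dist x w / 4 - gX Y))) := by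
  have hl := ell_pos hk hk1
  have hs : 0 < a / ell k := div_pos ha hl
  set D : ℝ := ((boxNet d L).dist x w : ℝ) with hD
  set B : ℝ := Real.exp (-(ell k * (D / 4 - gX Y))) * (2 : ℝ) ^ (-q) with hB
  have hBpos : 0 < B := by positivity
  have hu : 0 < ‖G.1 w‖ := lt_of_lt_of_le (Real.rpow_pos_of_pos hk _) h1
  have hS1 : 1 ≤ SSt (boxNet d L) k (fun y => ‖G.1 y‖ + ‖G.2 y‖) w :=
    SSt_one _ hk _ (fun y => by positivity) w
  have hT : B ≤ Tz (boxNet d L) k q (fun y => ‖G.1 y‖) (fun y => ‖G.1 y‖ + ‖G.2 y‖) x w := by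
    unfold Tz
    have e1 : (k ^ (1 / 4 : ℝ)) ^ (boxNet d L).dist x w = Real.exp (-(ell k * (D / 4))) := by
      rw [← Real.rpow_natCast, ← Real.rpow_mul hk.le, ME3_exp_ell hk]
      congr 2
      rw [hD]
      ring
    have e2 : Real.exp (ell k * gX Y) ≤ fpot k ‖G.1 w‖ := by
      unfold fpot
      rw [if_neg (not_le.mpr hu)]
      apply Real.exp_le_exp.mpr
      apply mul_le_mul_of_nonneg_left _ hl.le
      apply gX_mono
      rw [le_div_iff₀ hl]
      have h3 := Real.log_le_log (Real.rpow_pos_of_pos hk _) h1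
      rw [Real.log_rpow hk] at h3
      have h4 : Real.log k = -ell k := by
        unfold ell
        rw [one_div, Real.log_inv, neg_neg]
      rw [h4] at h3
      linarith
    have e3 : (2 : ℝ) ^ (-q) ≤ SSt (boxNet d L) k (fun y => ‖G.1 y‖ + ‖G.2 y‖) w ^ (-q) :=
      Real.rpow_le_rpow_of_nonpos (by linarith) h2 (by linarith)
    rw [e1, hB, show -(ell k * (D / 4 - gX Y)) = -(ell k * (D / 4)) + ell k * gX Y by ring,
      Real.exp_add]
    exact mul_le_mul (mul_le_mul_of_nonneg_left e2 (Real.exp_pos _).le) e3 (by positivity)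
      (by
        have := fpot_nonneg k ‖G.1 w‖
        positivity)
  have hsup : ENNReal.ofReal B ≤ Finset.univ.sup fun z => ENNReal.ofReal
      (Tz (boxNet d L) k q (fun y => ‖G.1 y‖) (fun y => ‖G.1 y‖ + ‖G.2 y‖) x z) :=
    (ENNReal.ofReal_le_ofReal hT).trans (Finset.le_sup (f := fun z => ENNReal.ofReal
      (Tz (boxNet d L) k q (fun y => ‖G.1 y‖) (fun y => ‖G.1 y‖ + ‖G.2 y‖) x z)) (Finset.mem_univ w))
  unfold V1 Vp
  calc (Finset.univ.sup fun z => ENNReal.ofReal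
      (Tz (boxNet d L) k q (fun y => ‖G.1 y‖) (fun y => ‖G.1 y‖ + ‖G.2 y‖) x z)) ^ (-(a / ell k))
      ≤ (ENNReal.ofReal B) ^ (-(a / ell k)) := by
        rw [ENNReal.rpow_neg, ENNReal.rpow_neg, ENNReal.inv_le_inv]
        exact ENNReal.rpow_le_rpow hsup hs.le
    _ = ENNReal.ofReal (B ^ (-(a / ell k))) := ENNReal.ofReal_rpow_of_pos hBpos
    _ = _ := by
        congr 1
        rw [hB, Real.mul_rpow (Real.exp_pos _).le (by positivity), ← Real.exp_mul,
          ← Real.rpow_mul (by norm_num), mul_comm]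
        congr 1
        · congr 1
          ring
        · congr 1
          field_simp

/-- numeric gain, first case -/
private theorem ME3_gain1 {X0 e : ℝ} (hX : X0 ≤ 1 / 8) (he : 19 ≤ e) :
    gX X0 ≤ gX (min (X0 - 8 + e) (-(1 / 16)) - 1 / 100) + 1 := by
  rcases le_total (X0 - 8 + e) (-(1 / 16)) with h | h
  · rw [min_eq_left h]
    have := gX_mono (show X0 ≤ X0 - 8 + e - 1 / 100 by linarith)
    linarith
  · rw [min_eq_right h]
    have h1 : gX (-(1 / 16) - 1 / 100) = -(3 / 16) := by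
      unfold gX
      norm_num
    have h2 := gX_mono hX
    have h3 : gX (1 / 8) = -(1 / 8) := by
      unfold gX
      norm_num
    rw [h1]
    linarith

private theorem ME3_gain2 {X0 e : ℝ} (hX : gX X0 ≤ -28) (he : 19 ≤ e) :
    gX X0 ≤ gX (min (X0 - 0 + e) (-(1 / 16)) - 1 / 100) - 1 := by
  have h0 := gX_le X0
  have h0' := gX_ge X0
  rcases le_total (X0 - 0 + e) (-(1 / 16)) with h | h
  · rw [min_eq_left h]
    have := gX_ge (X0 - 0 + e - 1 / 100)
    have h4 := gX_le X0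
    linarith
  · rw [min_eq_right h]
    have h1 : gX (-(1 / 16) - 1 / 100) = -(3 / 16) := by
      unfold gX
      norm_num
    rw [h1]
    linarith

private theorem ME3_CS {Ω : Type} [MeasurableSpace Ω] (μ : Measure Ω) (f : Ω → ℝ≥0∞)
    (hf : AEMeasurable f μ) : ∫⁻ ω, f ω ∂μ ≤ (∫⁻ ω, f ω ^ 2 ∂μ) ^ (1 / 2 : ℝ) * (μ Set.univ) ^ (1 / 2 : ℝ) := by
  have h := ENNReal.lintegral_mul_le_Lp_mul_Lq μ (p := 2) (q := 2)
    (Real.HolderConjugate.two_two) hf (aemeasurable_const (b := (1 : ℝ≥0∞)))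
  simp only [Pi.mul_apply, mul_one, ENNReal.one_rpow, lintegral_const, one_mul] at h
  simpa using h

private theorem ME3_sqrt {x : ℝ} (hx : 0 ≤ x) : (ENNReal.ofReal x) ^ (1 / 2 : ℝ) =
    ENNReal.ofReal (Real.sqrt x) := by
  rw [Real.sqrt_eq_rpow, ENNReal.ofReal_rpow_of_nonneg hx (by norm_num)]

private theorem ME3_A1 {N d : ℕ} {β k : ℝ} (S : PSys (Fam1 N d β k) β k) (h : ℝ) (L : ℕ)
    (G : (boxS d L → (Fam1 N d β k).V) × (boxS d L → (Fam1 N d β k).V)) (m : ℕ) (w : boxS d L)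
    (r : ℝ) (p : ℝ≥0∞)
    (hp : PI ((Fam1 N d β k).mu L) {ω | ‖traj ((Fam1 N d β k).st h L) G.1 ω m w‖ < r} ≤ p) :
    PI (S.mu L) {ω | ‖(S.tr h L G ω m).1 w‖ < r} ≤ p := by
  have hset : MeasurableSet {q : ℕ → boxS d L → (Fam1 N d β k).V | ‖q m w‖ < r} :=
    measurableSet_lt (measurable_norm.comp ((measurable_pi_apply w).comp (measurable_pi_apply m)))
      measurable_const
  have htr := (tr_path S h L G (m + 1)
    (Set.indicator {q : ℕ → boxS d L → (Fam1 N d β k).V | ‖q m w‖ < r} 1)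
    (measurable_one.indicator hset) (by
      intro a b hab
      simp only [Set.indicator, Set.mem_ofPred_eq, Pi.one_apply]
      rw [hab m (by omega)])).1
  have hm1 : Measurable fun ω : ℕ → boxS d L → S.Ωp => (S.tr h L G ω m).1 w :=
    (measurable_pi_apply w).comp (measurable_fst.comp
      ((measurable_tr S h L m).comp (measurable_const.prodMk measurable_id)))
  have hm2 : Measurable fun ω : ℕ → boxS d L → (Fam1 N d β k).Ω0 =>
      traj ((Fam1 N d β k).st h L) G.1 ω m w :=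
    (measurable_pi_apply w).comp
      ((measurable_traj ((Fam1 N d β k).st h L) ((Fam1 N d β k).mst h L) m).comp
        (measurable_const.prodMk measurable_id))
  have e1 : (fun ω : ℕ → boxS d L → S.Ωp =>
      (Set.indicator {q : ℕ → boxS d L → (Fam1 N d β k).V | ‖q m w‖ < r} 1
        (fun j => (S.tr h L G ω j).1) : ℝ≥0∞)) =
      Set.indicator {ω | ‖(S.tr h L G ω m).1 w‖ < r} 1 := by
    funext ω
    simp only [Set.indicator, Set.mem_ofPred_eq, Pi.one_apply]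
  have e2 : (fun ω : ℕ → boxS d L → (Fam1 N d β k).Ω0 =>
      (Set.indicator {q : ℕ → boxS d L → (Fam1 N d β k).V | ‖q m w‖ < r} 1
        (traj ((Fam1 N d β k).st h L) G.1 ω) : ℝ≥0∞)) =
      Set.indicator {ω | ‖traj ((Fam1 N d β k).st h L) G.1 ω m w‖ < r} 1 := by
    funext ω
    simp only [Set.indicator, Set.mem_ofPred_eq, Pi.one_apply]
  rw [e1, e2, lintegral_indicator_one, lintegral_indicator_one] at htr
  · rw [htr]
    exact hp
  · exact measurableSet_lt (measurable_norm.comp hm2) measurable_const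
  · exact measurableSet_lt (measurable_norm.comp hm1) measurable_const

private theorem ME3_A2 {d : ℕ} {F : Fam d} {β k : ℝ} (hk : 0 < k) (S : PSys F β k) (h : ℝ) (L : ℕ)
    (G : (boxS d L → F.V) × (boxS d L → F.V)) (m : ℕ) (w : boxS d L) (C : ℝ) (hC : 0 < C)
    (hcap : ∫⁻ ω in S.alv h L G m, ENNReal.ofReal (Yl (boxNet d L) (nrm (S.tr h L G ω m).1) w +
          Yl (boxNet d L) (nrm (S.tr h L G ω m).2) w) ∂(PI (S.mu L)) ≤ ENNReal.ofReal C) :
    (PI (S.mu L)).restrict (S.alv h L G m) {ω | 2 < SSt (boxNet d L) k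
      (fun y => ‖(S.tr h L G ω m).1 y‖ + ‖(S.tr h L G ω m).2 y‖) w} ≤
      ENNReal.ofReal (C * k ^ (1 / 16 : ℝ)) := by
  have hkk : 0 < k ^ (1 / 16 : ℝ) := Real.rpow_pos_of_pos hk _
  have hsub : {ω | 2 < SSt (boxNet d L) k
      (fun y => ‖(S.tr h L G ω m).1 y‖ + ‖(S.tr h L G ω m).2 y‖) w} ⊆
      {ω | ENNReal.ofReal (k ^ (1 / 16 : ℝ))⁻¹ ≤ ENNReal.ofReal
        (Yl (boxNet d L) (nrm (S.tr h L G ω m).1) w +
          Yl (boxNet d L) (nrm (S.tr h L G ω m).2) w)} := by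
    intro ω hω
    simp only [Set.mem_ofPred_eq] at hω ⊢
    apply ENNReal.ofReal_le_ofReal
    unfold SSt at hω
    have e : ∑ y, (1 / 2 : ℝ) ^ (boxNet d L).dist w y *
        (‖(S.tr h L G ω m).1 y‖ + ‖(S.tr h L G ω m).2 y‖) =
        Yl (boxNet d L) (nrm (S.tr h L G ω m).1) w + Yl (boxNet d L) (nrm (S.tr h L G ω m).2) w := by
      unfold Yl nrm
      rw [← Finset.sum_add_distrib]
      exact Finset.sum_congr rfl fun y _ => by ring
    rw [e] at hω
    rw [inv_le_iff_one_le_mul₀ hkk]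
    linarith
  refine (measure_mono hsub).trans ?_
  have hM := mul_meas_ge_le_lintegral₀ (μ := (PI (S.mu L)).restrict (S.alv h L G m))
    (f := fun ω => ENNReal.ofReal (Yl (boxNet d L) (nrm (S.tr h L G ω m).1) w +
          Yl (boxNet d L) (nrm (S.tr h L G ω m).2) w)) (by
      have hm : Measurable fun ω : ℕ → boxS d L → S.Ωp => S.tr h L G ω m :=
        (measurable_tr S h L m).comp (measurable_const.prodMk measurable_id)
      have hmy : ∀ y, Measurable fun ω : ℕ → boxS d L → S.Ωp => ‖(S.tr h L G ω m).1 y‖ := fun y =>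
        measurable_norm.comp ((measurable_pi_apply y).comp (measurable_fst.comp hm))
      have hmy' : ∀ y, Measurable fun ω : ℕ → boxS d L → S.Ωp => ‖(S.tr h L G ω m).2 y‖ := fun y =>
        measurable_norm.comp ((measurable_pi_apply y).comp (measurable_snd.comp hm))
      refine (Measurable.ennreal_ofReal ?_).aemeasurable
      unfold Yl nrm
      exact (Finset.measurable_sum _ fun y _ => (hmy y).const_mul _).add
        (Finset.measurable_sum _ fun y _ => (hmy' y).const_mul _))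
    (ENNReal.ofReal (k ^ (1 / 16 : ℝ))⁻¹)
  have h2 := hM.trans hcap
  have h3 : ENNReal.ofReal (k ^ (1 / 16 : ℝ)) * ENNReal.ofReal (k ^ (1 / 16 : ℝ))⁻¹ = 1 := by
    rw [← ENNReal.ofReal_mul hkk.le, mul_inv_cancel₀ hkk.ne', ENNReal.ofReal_one]
  calc _ = ENNReal.ofReal (k ^ (1 / 16 : ℝ)) * (ENNReal.ofReal (k ^ (1 / 16 : ℝ))⁻¹ *
        (PI (S.mu L)).restrict (S.alv h L G m) {ω | ENNReal.ofReal (k ^ (1 / 16 : ℝ))⁻¹ ≤
          ENNReal.ofReal (Yl (boxNet d L) (nrm (S.tr h L G ω m).1) w +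
          Yl (boxNet d L) (nrm (S.tr h L G ω m).2) w)}) := by
        rw [← mul_assoc, h3, one_mul]
    _ ≤ ENNReal.ofReal (k ^ (1 / 16 : ℝ)) * ENNReal.ofReal C := by gcongr
    _ = _ := by
        rw [← ENNReal.ofReal_mul hkk.le, mul_comm]

/-- splitting of the integral of the potential -/
private theorem ME3_split {Ω : Type} [MeasurableSpace Ω] (μ : Measure Ω) (hμ : μ Set.univ ≤ 1)
    (V : Ω → ℝ≥0∞) (hV : Measurable V) (B : Set Ω) (K : ℝ≥0∞) (hK : ∀ ω, ω ∉ B → V ω ≤ K)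
    (p Q : ℝ) (hp : 0 ≤ p) (hQ : 0 ≤ Q) (hB : μ B ≤ ENNReal.ofReal p) (W : ℝ≥0∞)
    (hV2 : ∫⁻ ω, V ω ^ 2 ∂μ ≤ ENNReal.ofReal Q * W ^ 2) :
    ∫⁻ ω, V ω ∂μ ≤ K + ENNReal.ofReal (Real.sqrt Q * Real.sqrt p) * W := by
  have h1 : ∫⁻ ω, V ω ∂μ ≤ ∫⁻ ω, K ∂μ + ∫⁻ ω in toMeasurable μ B, V ω ∂μ := by
    rw [← lintegral_indicator (measurableSet_toMeasurable μ B), ← lintegral_add_left measurable_const]
    apply lintegral_mono
    intro ω
    simp only
    by_cases hω : ω ∈ toMeasurable μ B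
    · rw [Set.indicator_of_mem hω]
      exact le_add_self
    · rw [Set.indicator_of_notMem hω, add_zero]
      exact hK ω fun h => hω (subset_toMeasurable μ B h)
  refine h1.trans (add_le_add ?_ ?_)
  · rw [lintegral_const]
    calc K * μ Set.univ ≤ K * 1 := by gcongr
      _ = K := mul_one K
  · refine (ME3_CS (μ.restrict (toMeasurable μ B)) V hV.aemeasurable).trans ?_
    rw [Measure.restrict_apply_univ, measure_toMeasurable]
    have h2 : ∫⁻ ω in toMeasurable μ B, V ω ^ 2 ∂μ ≤ ENNReal.ofReal Q * W ^ 2 :=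
      (setLIntegral_le_lintegral _ _).trans hV2
    calc (∫⁻ ω in toMeasurable μ B, V ω ^ 2 ∂μ) ^ (1 / 2 : ℝ) * (μ B) ^ (1 / 2 : ℝ)
        ≤ (ENNReal.ofReal Q * W ^ 2) ^ (1 / 2 : ℝ) * (ENNReal.ofReal p) ^ (1 / 2 : ℝ) := by
          gcongr
      _ = ENNReal.ofReal (Real.sqrt Q * Real.sqrt p) * W := by
          rw [ENNReal.mul_rpow_of_nonneg _ _ (by norm_num), ME3_sqrt hQ, ME3_sqrt hp,
            ENNReal.ofReal_mul (Real.sqrt_nonneg Q), ← ENNReal.rpow_natCast, ← ENNReal.rpow_mul]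
          have : ((2 : ℕ) : ℝ) * (1 / 2 : ℝ) = 1 := by norm_num
          rw [this, ENNReal.rpow_one]
          ring

private theorem ME3_num {q a l : ℝ} (hq : 1 ≤ q) (ha : 0 < a) (ha8 : a ≤ 1 / 8)
    (hl : 200 * q + 13 ≤ l) (PL : ℝ) :
    (2 : ℝ) ^ (q * (a / l)) * Real.exp (a * (PL - 1)) ≤ (1 - a / 2) * Real.exp (a * PL) := by
  have hl0 : 0 < l := by linarith
  have h1 : (2 : ℝ) ^ (q * (a / l)) ≤ 1 + a / 100 := by
    rw [Real.rpow_def_of_pos (by norm_num)]
    have hlog : Real.log 2 ≤ 1 := by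
      have := Real.log_two_lt_d9
      linarith
    have h2 : Real.log 2 * (q * (a / l)) ≤ a / 200 := by
      have h3 : q * (a / l) ≤ a / 200 := by
        rw [← mul_div_assoc, div_le_div_iff₀ hl0 (by norm_num)]
        nlinarith
      have h4 : 0 ≤ q * (a / l) := by positivity
      have h5 : 0 ≤ Real.log 2 := Real.log_nonneg (by norm_num)
      nlinarith
    have h0 : 0 ≤ Real.log 2 * (q * (a / l)) := by
      have h5 : 0 ≤ Real.log 2 := Real.log_nonneg (by norm_num)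
      positivity
    have h6 := Real.abs_exp_sub_one_sub_id_le (x := Real.log 2 * (q * (a / l)))
      (by rw [abs_of_nonneg h0]; linarith)
    have h7 := (abs_le.mp h6).2
    nlinarith
  have h2 : Real.exp (a * (PL - 1)) = Real.exp (-a) * Real.exp (a * PL) := by
    rw [← Real.exp_add]
    congr 1
    ring
  have h3 : Real.exp (-a) ≤ 1 - a + a ^ 2 := by
    have h6 := Real.abs_exp_sub_one_sub_id_le (x := -a) (by rw [abs_neg, abs_of_pos ha]; linarith)
    have h7 := (abs_le.mp h6).2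
    linarith [neg_sq a]
  rw [h2, ← mul_assoc]
  apply mul_le_mul_of_nonneg_right _ (Real.exp_pos _).le
  calc (2 : ℝ) ^ (q * (a / l)) * Real.exp (-a) ≤ (1 + a / 100) * (1 - a + a ^ 2) :=
        mul_le_mul h1 h3 (Real.exp_pos _).le (by positivity)
    _ ≤ 1 - a / 2 := by nlinarith [sq_nonneg a, mul_pos ha ha, mul_pos (mul_pos ha ha) ha]

theorem mest3 (N d : ℕ) (β : ℝ) (hN : 3 ≤ N) (hβ : 0 < β) : ∃ q0 : ℝ, 1 ≤ q0 ∧
    ∀ q, q0 ≤ q → ∀ a : ℝ, 0 < a → a ≤ 1 / 8 →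
    ∀ (S : ∀ k, 0 < k → PSys (Fam1 N d β k) β k),
    (∀ k hk, BNoise N (S k hk).ν (S k hk).b (S k hk).gd) →
    ∀ M : ℝ, 1 ≤ M → ∃ M0 Md ε0 k0 : ℝ, 0 < ε0 ∧ 0 < k0 ∧ k0 < 1 ∧ ∀ (k : ℝ) (hk : 0 < k),
      k < k0 → ∀ L : ℕ, ∃ h0 : ℝ, 0 < h0 ∧ ∀ h, 0 < h → h < h0 →
      MEst N (S k hk) q a 40 M M0 Md ε0 L h := by
  obtain ⟨q0, hq0, Hsm⟩ := sm_multi N d β (by omega) hβ
  obtain ⟨Cc, hCc, Hcap⟩ := mom_cap N d β hβ
  refine ⟨q0, hq0, ?_⟩
  intro q hq a ha ha8 S hB M hM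
  obtain ⟨C9, k9, hC9, hk9, hk91, Hsm⟩ := Hsm q hq
  obtain ⟨Md, ε0, c, kL, hε0, hc, hkL, hkL1, Hlow⟩ := low3 N d (by omega) β hβ 40 (max M 8)
    (1 / 100) (by norm_num) (le_max_of_le_left hM) (by norm_num)
  obtain ⟨k0, hk0, hk01, Hk⟩ := ME3_small (200 * q + 13) a C9 Cc c kL k9 ha hc hkL hk9
  refine ⟨30, Md, ε0, k0, hε0, hk0, hk01, ?_⟩
  intro k hk hkk L
  obtain ⟨hkL', hk9', hk1, hell, hsmall⟩ := Hk k hk hkk
  have hS := hB k hk
  have hl := ell_pos hk hk1
  have hq1 : 1 ≤ q := hq0.trans hq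
  have hs : 0 < a / ell k := div_pos ha hl
  have hqs : 8 * q * (2 * (a / ell k)) ≤ 1 := by
    rw [← mul_div_assoc, ← mul_div_assoc, div_le_one hl]
    nlinarith
  obtain ⟨hA, hA0, HA⟩ := Hsm (Fam1 N d β k) k (S k hk) hk hk9' hS (2 * (a / ell k))
    (by positivity) hqs
  obtain ⟨hC, hC0, HC⟩ := Hcap (Fam1 N d β k) k (S k hk) hk.le hk1.le hS L
  obtain ⟨hD, hD0, HD⟩ := Hlow k hk hkL' (S k hk) hS L
  refine ⟨min hA (min hC hD), lt_min hA0 (lt_min hC0 hD0), ?_⟩
  intro h hh hlt m hm1 hm2 G x z X0 hX0 hGz hM0 hprof hcaps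
  have hhA : h < hA := lt_of_lt_of_le hlt (min_le_left _ _)
  have hhC : h < hC := lt_of_lt_of_le hlt ((min_le_right _ _).trans (min_le_left _ _))
  have hhD : h < hD := lt_of_lt_of_le hlt ((min_le_right _ _).trans (min_le_right _ _))
  have hts : ts N k = ell k := by
    unfold ts
    rw [if_neg (by omega)]
  rw [hts] at hm1 hm2
  -- time of the drift
  have hlam : 1 / 2 ≤ lamN N := by
    unfold lamN
    have : (3 : ℝ) ≤ N := by exact_mod_cast hN
    linarith
  have he : 19 ≤ lamN N * (m * h) / ell k := by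
    rw [le_div_iff₀ hl]
    have h1 : 0 ≤ (m : ℝ) * h := by positivity
    nlinarith
  -- the site
  obtain ⟨w, hwM, hgain⟩ : ∃ w, ((boxNet d L).dist z w : ℝ) ≤ max M 8 ∧
      ((boxNet d L).dist x w : ℝ) / 4 - gX (min (X0 - (boxNet d L).dist z w +
        lamN N * (m * h) / ell k) (-(1 / 16)) - 1 / 100) ≤
        (((boxNet d L).dist x z : ℝ) / 4 - gX X0) - 1 := by
    rcases Nat.lt_or_ge ((boxNet d L).dist x z) 8 with h8 | h8
    · refine ⟨z, ?_, ?_⟩
      · rw [(boxNet d L).dist_self]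
        exact le_max_of_le_right (by norm_num)
      · rw [(boxNet d L).dist_self]
        have h8' : ((boxNet d L).dist x z : ℝ) ≤ 7 := by exact_mod_cast Nat.lt_succ_iff.mp h8
        have hg : gX X0 ≤ -28 := by linarith
        have := ME3_gain2 hg he
        push_cast
        linarith
    · obtain ⟨w, hw1, hw2⟩ := ME3_toward (boxNet d L) x z 8 h8
      refine ⟨w, ?_, ?_⟩
      · rw [hw1]
        exact le_max_of_le_right (by norm_num)
      · rw [hw1]
        have hw2' : ((boxNet d L).dist x w : ℝ) + 8 = (boxNet d L).dist x z := by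
          exact_mod_cast hw2
        have := ME3_gain1 hX0 he
        push_cast
        linarith
  set Y : ℝ := min (X0 - (boxNet d L).dist z w + lamN N * (m * h) / ell k) (-(1 / 16)) - 1 / 100
    with hY
  -- first exceptional event
  have hprof' : ∀ v, ‖G.1 v‖ ≤ k ^ (-(X0 + max M 8 + (boxNet d L).dist z v / 2)) := by
    intro v
    refine (hprof v).trans (Real.rpow_le_rpow_of_exponent_ge hk hk1.le ?_)
    have := le_max_left M 8
    linarith
  have hp1 := HD h hh hhD m hm1 hm2 G.1 z w X0 hX0 hGz hwM hprof' hcaps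
  have hexp : (1 / 100 : ℝ) - min (X0 - (boxNet d L).dist z w + lamN N * (m * h) / ell k)
      (-(1 / 16)) = -Y := by
    rw [hY]
    ring
  rw [hexp] at hp1
  have hA1 := ME3_A1 (S k hk) h L G m w (k ^ (-Y)) _ hp1
  -- second exceptional event
  have h1m : 1 ≤ (m : ℝ) * h := by linarith
  have hA2 := ME3_A2 hk (S k hk) h L G m w Cc hCc (HC h hh hhC G m h1m w)
  -- the second moment
  have hV2 := (HA h hh hhA L G m x).1
  have hmV : Measurable fun ω : ℕ → boxS d L → (S k hk).Ωp =>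
      V1 k q (a / ell k) ((S k hk).tr h L G ω m) x :=
    (measurable_V k q (a / ell k) x).1.comp
      ((measurable_tr (S k hk) h L m).comp (measurable_const.prodMk measurable_id))
  have hQ : C9 * (2 * (a / ell k) / ell k + (2 * (a / ell k)) ^ 2) * (m * h) ≤ C9 := by
    have h2 : (2 * (a / ell k) / ell k + (2 * (a / ell k)) ^ 2) * (m * h) ≤ 1 := by
      have e1 : 2 * (a / ell k) / ell k + (2 * (a / ell k)) ^ 2 = (2 * a + 4 * a ^ 2) / ell k ^ 2 := by
        field_simp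
        ring
      rw [e1, div_mul_eq_mul_div, div_le_one (by positivity)]
      have h3 : 2 * a + 4 * a ^ 2 ≤ 5 / 16 := by nlinarith
      have h4 : (m : ℝ) * h ≤ 41 * ell k := by linarith
      have h5 : 0 ≤ (m : ℝ) * h := by positivity
      calc (2 * a + 4 * a ^ 2) * (m * h) ≤ 5 / 16 * (41 * ell k) :=
            mul_le_mul h3 h4 h5 (by norm_num)
        _ ≤ ell k ^ 2 := by nlinarith
    nlinarith
  have hV2' : ∫⁻ ω, (V1 k q (a / ell k) ((S k hk).tr h L G ω m) x) ^ 2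
      ∂((PI ((S k hk).mu L)).restrict ((S k hk).alv h L G m)) ≤
      ENNReal.ofReal (Real.exp C9) * (V1 k q (a / ell k) G x) ^ 2 := by
    have e1 : ∀ G' : (boxS d L → (Fam1 N d β k).V) × (boxS d L → (Fam1 N d β k).V),
        (V1 k q (a / ell k) G' x) ^ 2 = V1 k q (2 * (a / ell k)) G' x := fun G' =>
      (V_sq k q (a / ell k) G' x).1
    simp only [e1]
    refine hV2.trans ?_
    gcongr
  have hμ : (PI ((S k hk).mu L)).restrict ((S k hk).alv h L G m) Set.univ ≤ 1 := by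
    rw [Measure.restrict_apply_univ]
    exact prob_le_one
  have hBm : (PI ((S k hk).mu L)).restrict ((S k hk).alv h L G m)
      ({ω | ‖((S k hk).tr h L G ω m).1 w‖ < k ^ (-Y)} ∪ {ω | 2 < SSt (boxNet d L) k
      (fun y => ‖((S k hk).tr h L G ω m).1 y‖ + ‖((S k hk).tr h L G ω m).2 y‖) w}) ≤
      ENNReal.ofReal (k ^ c + Cc * k ^ (1 / 16 : ℝ)) := by
    refine (measure_union_le _ _).trans ?_
    rw [ENNReal.ofReal_add (Real.rpow_nonneg hk.le _)
      (mul_nonneg hCc.le (Real.rpow_nonneg hk.le _))]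
    exact add_le_add ((Measure.restrict_apply_le _ _).trans hA1) hA2
  have hsplit := ME3_split ((PI ((S k hk).mu L)).restrict ((S k hk).alv h L G m)) hμ
    (fun ω => V1 k q (a / ell k) ((S k hk).tr h L G ω m) x) hmV _
    (ENNReal.ofReal ((2 : ℝ) ^ (q * (a / ell k)) *
      Real.exp (a * ((boxNet d L).dist x w / 4 - gX Y)))) (by
      intro ω hω
      simp only [Set.mem_union, Set.mem_ofPred_eq, not_or, not_lt] at hω
      exact ME3_V hk hk1 (by linarith) ha _ x w Y hω.1 hω.2)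
    (k ^ c + Cc * k ^ (1 / 16 : ℝ)) (Real.exp C9) (by
      have := Real.rpow_nonneg hk.le c
      have := Real.rpow_nonneg hk.le (1 / 16 : ℝ)
      positivity) (Real.exp_pos _).le hBm (V1 k q (a / ell k) G x) hV2'
  refine hsplit.trans (add_le_add (ENNReal.ofReal_le_ofReal ?_) ?_)
  · refine le_trans ?_ (ME3_num hq1 ha ha8 hell _)
    apply mul_le_mul_of_nonneg_left _ (by positivity)
    apply Real.exp_le_exp.mpr
    exact mul_le_mul_of_nonneg_left hgain ha.le
  · gcongr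
    rw [← Real.exp_half]
    exact hsmall

end DynC
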