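import Pool.Agent.Lib_MP_36b788c.MFa

/-!
# Height model: perturbation of the initial heights and uncut lineages

PROOF of `mf_pert`. `F = mf X`, `F' = mf X'`, `F ≤ F' ≤ F + η`. Suppose `F_n(x) < F'_n(x)`. Claim by induction on `i ≤ n`: at the
point `(γ_i, n-i)` of the lineage of `F'` one has `F < F'`, and the uncapped values of `F'` at the steps `< i` are `< η`. Step: `F_{j+1}(y) <
F'_{j+1}(y)` with `F_{j+1}(y) = min 0 (RR F_j y + g)`: the uncapped value of `F` is negative, the one of `F'` is at most `η` larger (`RR_add`), so `< η`, and it is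
strictly larger than that of `F`; with `z = am F'_j y`: `F'_j z - dd y z + g > RR F_j y + g ≥ F_j z - dd y z + g`.
`mf_interp`: `X_i = min (X', X + iη)`. `X_0 = X` (as `X ≤ X'`), `X_i = X'` for large `i` (here `m η ≥ X' - X`), `X_i ≤ X_{i+1} ≤ X_i + η`. Telescoping,
each difference is `≤ η` and, if positive, the lineage is uncut and `X_i(γ_0) < X_{i+1}(γ_0)`, which forces `X(γ_0) + iη < X'(γ_0) ≤ 0`.
-/

open MeasureTheory ProbabilityTheory
open scoped ENNReal

namespace DynC

variable {S : Type} [Fintype S] {D : ℕ} (M : MSet S D)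

theorem mf_pert (X X' : S → ℝ) (η : ℝ) (h1 : ∀ z, X z ≤ X' z) (h2 : ∀ z, X' z ≤ X z + η)
    (g : ℕ → S → ℝ) (n : ℕ) (x : S) (hlt : M.mf X g n x < M.mf X' g n x) :
    M.uncut η X' g n 0 x ∧ X (M.lin X' g n x n) < X' (M.lin X' g n x n) := by
  have hη : 0 ≤ η := by
    have a := h1 x
    have b := h2 x
    linarith
  have key : ∀ i, i ≤ n →
      M.mf X g (n - i) (M.lin X' g n x i) < M.mf X' g (n - i) (M.lin X' g n x i) ∧
      ∀ l, l < i → M.RR (M.mf X' g (n - (l + 1))) (M.lin X' g n x l) +
        g (n - (l + 1)) (M.lin X' g n x l) < η := by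
    intro i
    induction i with
    | zero => intro _; exact ⟨by simpa [MSet.lin] using hlt, by intro l hl; omega⟩
    | succ i ih =>
      intro hi
      obtain ⟨hlt', hall⟩ := ih (by omega)
      have hj : n - i = (n - (i + 1)) + 1 := by omega
      rw [hj] at hlt'
      set j := n - (i + 1) with hjdef
      set y := M.lin X' g n x i with hy
      change min 0 (M.RR (M.mf X g j) y + g j y) < min 0 (M.RR (M.mf X' g j) y + g j y) at hlt'
      have ha : M.RR (M.mf X g j) y + g j y < 0 := by
        by_contra hcon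
        rw [min_eq_left (not_lt.mp hcon)] at hlt'
        exact absurd (lt_of_lt_of_le hlt' (min_le_left _ _)) (lt_irrefl _)
      have hab : M.RR (M.mf X g j) y + g j y < M.RR (M.mf X' g j) y + g j y := by
        rw [min_eq_right ha.le] at hlt'
        exact lt_of_lt_of_le hlt' (min_le_right _ _)
      have hadd : M.RR (M.mf X' g j) y ≤ M.RR (M.mf X g j) y + η :=
        RR_add M _ _ η (fun z => mf_contr M X' X η hη h2 g j z) y
      refine ⟨?_, ?_⟩
      · have hz := am_spec M (M.mf X' g j) y
        have hle := le_RR M (M.mf X g j) y (M.am (M.mf X' g j) y)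
        have hl : M.lin X' g n x (i + 1) = M.am (M.mf X' g j) y := rfl
        rw [hl]
        linarith
      · intro l hl
        rcases Nat.lt_succ_iff_lt_or_eq.mp hl with h | h
        · exact hall l h
        · subst h
          change M.RR (M.mf X' g j) y + g j y < η
          linarith
  obtain ⟨ha, hb⟩ := key n le_rfl
  refine ⟨?_, ?_⟩
  · intro i hi
    exact hb i (by omega)
  · simpa [MSet.mf] using ha

/-- interpolated initial heights -/
noncomputable def ipl (X X' : S → ℝ) (η : ℝ) (i : ℕ) : S → ℝ := fun z => min (X' z) (X z + i * η)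

theorem mf_interp (X X' : S → ℝ) (η : ℝ) (hη : 0 < η) (h1 : ∀ z, X z ≤ X' z)
    (hX : ∀ z, X' z ≤ 0) (m : ℕ) (hm : ∀ z, X' z ≤ X z + m * η)
    (g : ℕ → S → ℝ) (n : ℕ) (x : S) :
    M.mf X' g n x - M.mf X g n x ≤ ∑ i ∈ Finset.range m, open Classical in
      (if M.uncut η (ipl X X' η (i + 1)) g n 0 x ∧
          X (M.lin (ipl X X' η (i + 1)) g n x n) < -(i * η) then η else 0) := by
  classical
  have e0 : ipl X X' η 0 = X := by
    funext z
    simp only [ipl, Nat.cast_zero, zero_mul, add_zero]
    exact min_eq_right (h1 z)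
  have em : ipl X X' η m = X' := by
    funext z
    simp only [ipl]
    exact min_eq_left (hm z)
  have htel : M.mf X' g n x - M.mf X g n x =
      ∑ i ∈ Finset.range m, (M.mf (ipl X X' η (i + 1)) g n x - M.mf (ipl X X' η i) g n x) := by
    rw [Finset.sum_range_sub (fun i => M.mf (ipl X X' η i) g n x), e0, em]
  rw [htel]
  refine Finset.sum_le_sum fun i _ => ?_
  have hc : ((i + 1 : ℕ) : ℝ) * η = i * η + η := by push_cast; ring
  have hle1 : ∀ z, ipl X X' η i z ≤ ipl X X' η (i + 1) z := by
    intro z
    simp only [ipl]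
    rw [hc]
    exact min_le_min le_rfl (by linarith)
  have hle2 : ∀ z, ipl X X' η (i + 1) z ≤ ipl X X' η i z + η := by
    intro z
    simp only [ipl]
    rw [hc]
    rcases min_cases (X' z) (X z + i * η) with ⟨h, _⟩ | ⟨h, _⟩
    · rw [h]
      exact (min_le_left _ _).trans (by linarith)
    · rw [h]
      exact (min_le_right _ _).trans (by linarith)
  have hdiff : M.mf (ipl X X' η (i + 1)) g n x ≤ M.mf (ipl X X' η i) g n x + η :=
    mf_contr M _ _ η hη.le hle2 g n x
  by_cases hlt : M.mf (ipl X X' η i) g n x < M.mf (ipl X X' η (i + 1)) g n x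
  · obtain ⟨hu, hx⟩ := mf_pert M _ _ η hle1 hle2 g n x hlt
    have hx' : X (M.lin (ipl X X' η (i + 1)) g n x n) < -(i * η) := by
      set z := M.lin (ipl X X' η (i + 1)) g n x n with hz
      simp only [ipl] at hx
      have h3 : X z + i * η < X' z := by
        by_contra hcon
        rw [min_eq_left (not_lt.mp hcon)] at hx
        exact absurd (lt_of_lt_of_le hx (min_le_left _ _)) (lt_irrefl _)
      have h4 := hX z
      linarith
    rw [if_pos ⟨hu, hx'⟩]
    linarith
  · have h5 : M.mf (ipl X X' η (i + 1)) g n x - M.mf (ipl X X' η i) g n x ≤ 0 := by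
      linarith [not_lt.mp hlt]
    refine h5.trans ?_
    split_ifs
    · exact hη.le
    · exact le_rfl

theorem measurableSet_uncut (η : ℝ) (n m : ℕ) (x : S) :
    MeasurableSet {p : (S → ℝ) × (ℕ → S → ℝ) | M.uncut η p.1 p.2 n m x} := by
  have hset : {p : (S → ℝ) × (ℕ → S → ℝ) | M.uncut η p.1 p.2 n m x} =
      ⋂ i ∈ Finset.range (n - m), ⋃ z : S, ({p : (S → ℝ) × (ℕ → S → ℝ) | M.lin p.1 p.2 n x i = z} ∩
        {p | M.RR (M.mf p.1 p.2 (n - (i + 1))) z + p.2 (n - (i + 1)) z < η}) := by
    ext p
    simp only [Set.mem_setOf_eq, Set.mem_iInter, Finset.mem_range, Set.mem_iUnion, Set.mem_inter_iff]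
    constructor
    · intro h i hi
      exact ⟨_, rfl, h i hi⟩
    · intro h i hi
      obtain ⟨z, hz, hz'⟩ := h i hi
      rw [hz]
      exact hz'
  rw [hset]
  refine Finset.measurableSet_biInter _ fun i _ => MeasurableSet.iUnion fun z => ?_
  refine (measurableSet_lin M n x i z).inter ?_
  refine measurableSet_lt ?_ measurable_const
  refine Measurable.add ?_ ?_
  · have h1 : Measurable (fun p : (S → ℝ) × (ℕ → S → ℝ) => M.mf p.1 p.2 (n - (i + 1))) :=
      measurable_pi_lambda _ fun y => measurable_mf M (n - (i + 1)) y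
    exact (measurable_RR M z).comp h1
  · exact (measurable_pi_apply z).comp ((measurable_pi_apply (n - (i + 1))).comp measurable_snd)

/-- uncut lineages split at intermediate times -/
theorem uncut_split (η : ℝ) (X : S → ℝ) (g : ℕ → S → ℝ) (n m : ℕ) (x : S) :
    M.uncut η X g (n + m) 0 x ↔
      (M.uncut η (M.mf X g n) (fun j => g (n + j)) m 0 x ∧
        M.uncut η X g n 0 (M.lin X g (n + m) x m)) := by
  constructor
  · intro h
    refine ⟨?_, ?_⟩
    · intro i hi
      have h1 := h i (by omega)
      have e1 : n + m - (i + 1) = n + (m - (i + 1)) := by omega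
      rw [e1, mf_shift M X g n (m - (i + 1)), lin_shift' M X g n m x i (by omega)] at h1
      exact h1
    · intro i hi
      have h1 := h (m + i) (by omega)
      have e1 : n + m - (m + i + 1) = n - (i + 1) := by omega
      rw [e1, lin_shift M X g n m x i (by omega)] at h1
      exact h1
  · rintro ⟨ha, hb⟩ i hi
    rcases Nat.lt_or_ge i m with hi' | hi'
    · have h1 := ha i (by omega)
      have e1 : n + m - (i + 1) = n + (m - (i + 1)) := by omega
      rw [e1, mf_shift M X g n (m - (i + 1)), lin_shift' M X g n m x i (by omega)]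
      exact h1
    · obtain ⟨l, rfl⟩ := Nat.exists_eq_add_of_le hi'
      have h1 := hb l (by omega)
      have e1 : n + m - (m + l + 1) = n - (l + 1) := by omega
      rw [e1, lin_shift M X g n m x l (by omega)]
      exact h1

end DynC
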