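import Pool.Agent.Lib_MP_36b788c.MFb

/-!
# Height model: weights of the good windows of an uncut lineage

A window has `nu` steps. `Good F ω z` is a condition on the heights `F` at the start of the window, the noise `ω` of the window
(it depends on the first `nu` entries) and the base point `z` (position of the lineage at the start of the window).
`Flip c`: for every endpoint `x` and every `ψ ≥ 0`, `E[1{uncut, Good at the base} ψ(F_end)] ≤ e^c E[1{cut} ψ(F_end)]`.

PROOF of `weights`. `γ_w` = position of the lineage of `(x, m nu)` at time `w nu`. Put `W_m(x) = 1{uncut} Π_{w<m} (1 + e^{-c} 1{Good_w})`.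
Claim: `E[W_m(x) ψ(F_{m nu})] ≤ E[ψ(F_{m nu})]` for all `x, ψ ≥ 0`, induction on `m`. Step (`lintegral_glue (m nu)`, `mf_shift`, `lin_shift`,
`uncut_split`, `gcount_succ`): with `F = F_{m nu}` and `ω'` the noise of the last window and `z = lin F ω' nu x nu`,
`W_{m+1}(x) = 1{uncut F ω' nu 0 x} (1 + e^{-c} 1{Good F ω' z}) W_m(z)`. So
`E[W_{m+1}(x) ψ] = E[Σ_z W_m(z) κ_z(F)]`, `κ_z(F) = E_{ω'}[1{uncut} 1{lin = z} (1 + e^{-c} 1{Good F ω' z}) ψ(mf F ω' nu)]`. Induction hypothesis for each `z`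
with `ψ = κ_z`: `≤ E[Σ_z κ_z(F)] = E E_{ω'}[1{uncut} (1 + e^{-c} 1{Good}) ψ] ≤ E E_{ω'}[ψ]` by `Flip c` (`1{uncut}ψ + e^{-c}1{uncut,Good}ψ ≤ 1{uncut}ψ + 1{cut}ψ`).
`good_few`: Markov: `W_m ≥ (1+e^{-c})^r` on the event, `ψ = 1`. For the remainder `r' ` steps after the last window: `uncut_split`, sum over the
position `x'` of the lineage at time `m nu`: `Σ_{x'} E[W_m(x') P(lin F ω' r' x r' = x')] ≤ Σ_{x'} E[P(..)] = 1`.
-/

open MeasureTheory ProbabilityTheory
open scoped ENNReal

namespace DynC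

variable {S : Type} [Fintype S] {D : ℕ} (M : MSet S D)

/-- number of windows `w < m` with property `Good` along the lineage of `(x, m nu)`;
`gv v` converts noise into increments -/
noncomputable def gcount (v : ℝ) (nu : ℕ) (Good : (S → ℝ) → (ℕ → S → ℝ) → S → Prop)
    (X : S → ℝ) (ω : ℕ → S → ℝ) (m : ℕ) (x : S) : ℕ := open Classical in
  ((Finset.range m).filter fun w => Good (M.mf X (sc v ω) (w * nu)) (fun j => ω (w * nu + j))
    (M.lin X (sc v ω) (m * nu) x ((m - w) * nu))).card

/-- flip inequality for one window -/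
def Flip (v η c : ℝ) (nu : ℕ) (Good : (S → ℝ) → (ℕ → S → ℝ) → S → Prop) : Prop :=
  ∀ (F : S → ℝ), (∀ z, F z ≤ 0) → ∀ (x : S) (ψ : (S → ℝ) → ℝ≥0∞), Measurable ψ →
    ∫⁻ ω, Set.indicator {ω | M.uncut η F (sc v ω) nu 0 x ∧ Good F ω (M.lin F (sc v ω) nu x nu)}
        (fun ω => ψ (M.mf F (sc v ω) nu)) ω ∂(PI (nz S))
      ≤ ENNReal.ofReal (Real.exp c) *
        ∫⁻ ω, Set.indicator {ω | ¬ M.uncut η F (sc v ω) nu 0 x}
          (fun ω => ψ (M.mf F (sc v ω) nu)) ω ∂(PI (nz S))

omit [Fintype S] in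
private theorem MFc_measurable_sc (v : ℝ) :
    Measurable (fun ω : ℕ → S → ℝ => sc v ω) := by
  unfold sc
  exact measurable_pi_lambda _ fun j => measurable_pi_lambda _ fun x =>
    measurable_const.mul ((measurable_pi_apply x).comp (measurable_pi_apply j))

omit [Fintype S] in
private theorem MFc_sc_glue_lt (v : ℝ) (n : ℕ) (a b : ℕ → S → ℝ) (j : ℕ) (hj : j < n) :
    sc v (glue n a b) j = sc v a j := by
  funext x
  simp only [sc, glue, if_pos hj]

omit [Fintype S] in
private theorem MFc_sc_glue_ge (v : ℝ) (n : ℕ) (a b : ℕ → S → ℝ) :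
    (fun j => sc v (glue n a b) (n + j)) = sc v b := by
  funext j x
  have h : ¬ (n + j < n) := by omega
  simp only [sc, glue, if_neg h, Nat.add_sub_cancel_left]

omit [Fintype S] in
private theorem MFc_glue_ge (n : ℕ) (a b : ℕ → S → ℝ) :
    (fun j => glue n a b (n + j)) = b := by
  funext j
  have h : ¬ (n + j < n) := by omega
  simp only [glue, if_neg h, Nat.add_sub_cancel_left]

private theorem MFc_uncut_congr (η : ℝ) (X : S → ℝ) (g g' : ℕ → S → ℝ) (n m : ℕ) (x : S)
    (h : ∀ j, j < n → g j = g' j) : M.uncut η X g n m x ↔ M.uncut η X g' n m x := by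
  have key : ∀ g g' : ℕ → S → ℝ, (∀ j, j < n → g j = g' j) → M.uncut η X g n m x →
      M.uncut η X g' n m x := by
    intro g g' h hu i hi
    have h1 := hu i hi
    rw [mf_congr M X g g' (n - (i + 1)) (fun j hj => h j (by omega)),
      lin_congr M X g g' n (fun j hj => h j (by omega)) x i (by omega),
      h (n - (i + 1)) (by omega)] at h1
    exact h1
  exact ⟨key g g' h, key g' g (fun j hj => (h j hj).symm)⟩

private theorem MFc_gcount_congr (v : ℝ) (nu : ℕ) (Good : (S → ℝ) → (ℕ → S → ℝ) → S → Prop)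
    (hG : ∀ F z ω ω', (∀ j, j < nu → ω j = ω' j) → (Good F ω z ↔ Good F ω' z))
    (X : S → ℝ) (a b : ℕ → S → ℝ) (m : ℕ) (x : S) (h : ∀ j, j < m * nu → a j = b j) :
    gcount M v nu Good X a m x = gcount M v nu Good X b m x := by
  classical
  unfold gcount
  congr 1
  refine Finset.filter_congr fun w hw => ?_
  have hw' : w < m := Finset.mem_range.mp hw
  have hle : (w + 1) * nu ≤ m * nu := Nat.mul_le_mul_right _ hw'
  have hle2 : w * nu + nu ≤ m * nu := by
    have : (w + 1) * nu = w * nu + nu := by ring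
    omega
  have hsc : ∀ j, j < m * nu → sc v a j = sc v b j := by
    intro j hj
    funext y
    simp only [sc]
    rw [h j hj]
  rw [mf_congr M X (sc v a) (sc v b) (w * nu) (fun j hj => hsc j (by omega)),
    lin_congr M X (sc v a) (sc v b) (m * nu) (fun j hj => hsc j (by omega)) x ((m - w) * nu)
      (Nat.mul_le_mul_right _ (by omega))]
  exact hG _ _ _ _ (fun j hj => h _ (by omega))

theorem gcount_succ (v : ℝ) (nu : ℕ) (Good : (S → ℝ) → (ℕ → S → ℝ) → S → Prop)
    (hG : ∀ F z ω ω', (∀ j, j < nu → ω j = ω' j) → (Good F ω z ↔ Good F ω' z))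
    (X : S → ℝ) (a b : ℕ → S → ℝ) (m : ℕ) (x : S) : open Classical in
    gcount M v nu Good X (glue (m * nu) a b) (m + 1) x =
      gcount M v nu Good X a m (M.lin (M.mf X (sc v a) (m * nu)) (sc v b) nu x nu) +
        (if Good (M.mf X (sc v a) (m * nu)) b
          (M.lin (M.mf X (sc v a) (m * nu)) (sc v b) nu x nu) then 1 else 0) := by
  classical
  have hmf : M.mf X (sc v (glue (m * nu) a b)) (m * nu) = M.mf X (sc v a) (m * nu) :=
    mf_congr M X _ _ (m * nu) (fun j hj => MFc_sc_glue_lt v (m * nu) a b j hj)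
  have hmul : (m + 1) * nu = m * nu + nu := by ring
  have hlin : M.lin X (sc v (glue (m * nu) a b)) ((m + 1) * nu) x nu =
      M.lin (M.mf X (sc v a) (m * nu)) (sc v b) nu x nu := by
    rw [hmul, lin_shift' M X _ (m * nu) nu x nu le_rfl, hmf, MFc_sc_glue_ge]
  have hgc := MFc_gcount_congr M v nu Good hG X a (glue (m * nu) a b) m
    (M.lin (M.mf X (sc v a) (m * nu)) (sc v b) nu x nu)
    (fun j hj => by simp only [glue, if_pos hj])
  rw [hgc]
  unfold gcount
  rw [Finset.range_add_one, Finset.filter_insert]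
  have hlast : Good (M.mf X (sc v (glue (m * nu) a b)) (m * nu))
      (fun j => glue (m * nu) a b (m * nu + j))
      (M.lin X (sc v (glue (m * nu) a b)) ((m + 1) * nu) x ((m + 1 - m) * nu)) ↔
      Good (M.mf X (sc v a) (m * nu)) b
          (M.lin (M.mf X (sc v a) (m * nu)) (sc v b) nu x nu) := by
    have e1 : (m + 1 - m) * nu = nu := by
      rw [Nat.add_sub_cancel_left]; ring
    rw [e1, hlin, hmf, MFc_glue_ge]
  have hfil : (Finset.filter (fun w => Good (M.mf X (sc v (glue (m * nu) a b)) (w * nu))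
      (fun j => glue (m * nu) a b (w * nu + j))
      (M.lin X (sc v (glue (m * nu) a b)) ((m + 1) * nu) x ((m + 1 - w) * nu))) (Finset.range m)) =
      (Finset.filter (fun w => Good (M.mf X (sc v (glue (m * nu) a b)) (w * nu))
      (fun j => glue (m * nu) a b (w * nu + j))
      (M.lin X (sc v (glue (m * nu) a b)) (m * nu)
        (M.lin (M.mf X (sc v a) (m * nu)) (sc v b) nu x nu) ((m - w) * nu))) (Finset.range m)) := by
    refine Finset.filter_congr fun w hw => ?_
    have hw' : w < m := Finset.mem_range.mp hw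
    have e2 : (m + 1 - w) * nu = nu + (m - w) * nu := by
      have : m + 1 - w = 1 + (m - w) := by omega
      rw [this]; ring
    have e3 : M.lin X (sc v (glue (m * nu) a b)) ((m + 1) * nu) x ((m + 1 - w) * nu) =
        M.lin X (sc v (glue (m * nu) a b)) (m * nu)
        (M.lin (M.mf X (sc v a) (m * nu)) (sc v b) nu x nu) ((m - w) * nu) := by
      rw [e2, ← hlin, hmul]
      exact lin_shift M X _ (m * nu) nu x ((m - w) * nu) (Nat.mul_le_mul_right _ (by omega))
    rw [e3]
  split_ifs with h1 h2 h2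
  · rw [Finset.card_insert_of_notMem (by simp), hfil]
  · exact absurd (hlast.mp h1) h2
  · exact absurd (hlast.mpr h2) h1
  · rw [hfil, add_zero]

private theorem MFc_measurableSet_good (v : ℝ) (nu : ℕ)
    (Good : (S → ℝ) → (ℕ → S → ℝ) → S → Prop)
    (hm : ∀ z, MeasurableSet {p : (S → ℝ) × (ℕ → S → ℝ) | Good p.1 p.2 z})
    (X : S → ℝ) (m w : ℕ) (x : S) :
    MeasurableSet {ω : ℕ → S → ℝ | Good (M.mf X (sc v ω) (w * nu)) (fun j => ω (w * nu + j))
      (M.lin X (sc v ω) (m * nu) x ((m - w) * nu))} := by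
  have hset : {ω : ℕ → S → ℝ | Good (M.mf X (sc v ω) (w * nu)) (fun j => ω (w * nu + j))
      (M.lin X (sc v ω) (m * nu) x ((m - w) * nu))} =
      ⋃ z : S, ({ω | M.lin X (sc v ω) (m * nu) x ((m - w) * nu) = z} ∩
        {ω | Good (M.mf X (sc v ω) (w * nu)) (fun j => ω (w * nu + j)) z}) := by
    ext ω
    simp only [Set.mem_ofPred_eq, Set.mem_iUnion, Set.mem_inter_iff]
    constructor
    · intro h
      exact ⟨_, rfl, h⟩
    · rintro ⟨z, hz, h⟩
      rw [hz]
      exact h
  rw [hset]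
  refine MeasurableSet.iUnion fun z => MeasurableSet.inter ?_ ?_
  · have h1 : Measurable (fun ω : ℕ → S → ℝ => (X, sc v ω)) :=
      measurable_const.prodMk (MFc_measurable_sc v)
    exact h1 (measurableSet_lin M (m * nu) x ((m - w) * nu) z)
  · have h1 : Measurable (fun ω : ℕ → S → ℝ => (M.mf X (sc v ω) (w * nu),
        (fun j => ω (w * nu + j)))) := by
      refine Measurable.prodMk ?_ ?_
      · refine measurable_pi_lambda _ fun y => ?_
        exact (measurable_mf M (w * nu) y).comp (measurable_const.prodMk (MFc_measurable_sc v))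
      · exact measurable_pi_lambda _ fun j => measurable_pi_apply _
    exact h1 (hm z)

private theorem MFc_measurable_gcount (v : ℝ) (nu : ℕ)
    (Good : (S → ℝ) → (ℕ → S → ℝ) → S → Prop)
    (hm : ∀ z, MeasurableSet {p : (S → ℝ) × (ℕ → S → ℝ) | Good p.1 p.2 z})
    (X : S → ℝ) (m : ℕ) (x : S) :
    Measurable (fun ω : ℕ → S → ℝ => gcount M v nu Good X ω m x) := by
  classical
  unfold gcount
  simp only [Finset.card_filter]
  refine Finset.measurable_sum _ fun w _ => ?_
  exact Measurable.ite (MFc_measurableSet_good M v nu Good hm X m w x) measurable_const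
    measurable_const

/-- the weight of the lineage -/
private noncomputable def MFc_wt (v η c : ℝ) (nu : ℕ) (Good : (S → ℝ) → (ℕ → S → ℝ) → S → Prop)
    (X : S → ℝ) (m : ℕ) (x : S) (ω : ℕ → S → ℝ) : ℝ≥0∞ :=
  Set.indicator {ω | M.uncut η X (sc v ω) (m * nu) 0 x}
    (fun ω => ENNReal.ofReal ((1 + Real.exp (-c)) ^ gcount M v nu Good X ω m x)) ω

private theorem MFc_measurableSet_unc (v η : ℝ) (X : S → ℝ) (n : ℕ) (x : S) :
    MeasurableSet {ω : ℕ → S → ℝ | M.uncut η X (sc v ω) n 0 x} := by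
  have h1 : Measurable (fun ω : ℕ → S → ℝ => (X, sc v ω)) :=
    measurable_const.prodMk (MFc_measurable_sc v)
  exact h1 (measurableSet_uncut M η n 0 x)

private theorem MFc_measurable_wt (v η c : ℝ) (nu : ℕ)
    (Good : (S → ℝ) → (ℕ → S → ℝ) → S → Prop)
    (hm : ∀ z, MeasurableSet {p : (S → ℝ) × (ℕ → S → ℝ) | Good p.1 p.2 z})
    (X : S → ℝ) (m : ℕ) (x : S) : Measurable (MFc_wt M v η c nu Good X m x) := by
  unfold MFc_wt
  refine Measurable.indicator ?_ (MFc_measurableSet_unc M v η X (m * nu) x)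
  have h1 : Measurable (fun k : ℕ => ENNReal.ofReal ((1 + Real.exp (-c)) ^ k)) :=
    measurable_from_top
  exact h1.comp (MFc_measurable_gcount M v nu Good hm X m x)

private theorem MFc_measurable_mfX (v : ℝ) (X : S → ℝ) (n : ℕ) :
    Measurable (fun ω : ℕ → S → ℝ => M.mf X (sc v ω) n) := by
  refine measurable_pi_lambda _ fun y => ?_
  exact (measurable_mf M n y).comp (measurable_const.prodMk (MFc_measurable_sc v))

/-- exchange of the weights with a kernel of the next block -/
private theorem MFc_tower (v η c : ℝ) (nu : ℕ) (Good : (S → ℝ) → (ℕ → S → ℝ) → S → Prop)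
    (hm : ∀ z, MeasurableSet {p : (S → ℝ) × (ℕ → S → ℝ) | Good p.1 p.2 z})
    (X : S → ℝ) (m : ℕ)
    (H : ∀ (x : S) (ψ : (S → ℝ) → ℝ≥0∞), Measurable ψ →
      ∫⁻ ω, MFc_wt M v η c nu Good X m x ω * ψ (M.mf X (sc v ω) (m * nu)) ∂(PI (nz S))
      ≤ ∫⁻ ω, ψ (M.mf X (sc v ω) (m * nu)) ∂(PI (nz S)))
    (K : S → (S → ℝ) × (ℕ → S → ℝ) → ℝ≥0∞) (hK : ∀ z, Measurable (K z)) :
    ∫⁻ a, ∫⁻ b, ∑ z, MFc_wt M v η c nu Good X m z a * K z (M.mf X (sc v a) (m * nu), b)
        ∂(PI (nz S)) ∂(PI (nz S))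
      ≤ ∫⁻ a, ∫⁻ b, ∑ z, K z (M.mf X (sc v a) (m * nu), b) ∂(PI (nz S)) ∂(PI (nz S)) := by
  have hKb : ∀ (z : S) (A : S → ℝ), Measurable (fun b : ℕ → S → ℝ => K z (A, b)) := fun z A =>
    (hK z).comp (measurable_const.prodMk measurable_id)
  have hκ : ∀ z : S, Measurable (fun A : S → ℝ => ∫⁻ b, K z (A, b) ∂(PI (nz S))) := fun z =>
    (hK z).lintegral_prod_right'
  have hw := fun z : S => MFc_measurable_wt M v η c nu Good hm X m z
  have e1 : ∀ a : ℕ → S → ℝ, ∫⁻ b, ∑ z, MFc_wt M v η c nu Good X m z a *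
      K z (M.mf X (sc v a) (m * nu), b) ∂(PI (nz S)) =
      ∑ z, MFc_wt M v η c nu Good X m z a *
        ∫⁻ b, K z (M.mf X (sc v a) (m * nu), b) ∂(PI (nz S)) := by
    intro a
    rw [lintegral_finsetSum]
    · refine Finset.sum_congr rfl fun z _ => ?_
      rw [lintegral_const_mul _ (hKb z _)]
    · intro z _
      exact (hKb z _).const_mul _
  have e2 : ∀ a : ℕ → S → ℝ, ∫⁻ b, ∑ z, K z (M.mf X (sc v a) (m * nu), b) ∂(PI (nz S)) =
      ∑ z, ∫⁻ b, K z (M.mf X (sc v a) (m * nu), b) ∂(PI (nz S)) := by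
    intro a
    rw [lintegral_finsetSum]
    intro z _
    exact hKb z _
  simp only [e1, e2]
  rw [lintegral_finsetSum, lintegral_finsetSum]
  · exact Finset.sum_le_sum fun z _ => H z _ (hκ z)
  · intro z _
    exact (hκ z).comp (MFc_measurable_mfX M v X (m * nu))
  · intro z _
    exact (hw z).mul ((hκ z).comp (MFc_measurable_mfX M v X (m * nu)))

private theorem MFc_weights (v η c : ℝ) (nu : ℕ) (Good : (S → ℝ) → (ℕ → S → ℝ) → S → Prop)
    (hm : ∀ z, MeasurableSet {p : (S → ℝ) × (ℕ → S → ℝ) | Good p.1 p.2 z})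
    (hG : ∀ F z ω ω', (∀ j, j < nu → ω j = ω' j) → (Good F ω z ↔ Good F ω' z))
    (hF : Flip M v η c nu Good) (X : S → ℝ) (hX : ∀ z, X z ≤ 0) (m : ℕ) :
    ∀ (x : S) (ψ : (S → ℝ) → ℝ≥0∞), Measurable ψ →
    ∫⁻ ω, MFc_wt M v η c nu Good X m x ω * ψ (M.mf X (sc v ω) (m * nu)) ∂(PI (nz S))
      ≤ ∫⁻ ω, ψ (M.mf X (sc v ω) (m * nu)) ∂(PI (nz S)) := by
  classical
  induction m with
  | zero =>
    intro x ψ hψ
    refine lintegral_mono fun ω => ?_
    have h1 : MFc_wt M v η c nu Good X 0 x ω ≤ 1 := by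
      unfold MFc_wt
      refine (Set.indicator_le_self _ _ _).trans ?_
      simp [gcount]
    calc MFc_wt M v η c nu Good X 0 x ω * ψ (M.mf X (sc v ω) (0 * nu))
        ≤ 1 * ψ (M.mf X (sc v ω) (0 * nu)) := mul_le_mul_left h1 _
      _ = ψ (M.mf X (sc v ω) (0 * nu)) := one_mul _
  | succ m ih =>
    intro x ψ hψ
    -- kernel of the last window
    set q : ℝ≥0∞ := ENNReal.ofReal (Real.exp (-c)) with hq
    set K : S → (S → ℝ) × (ℕ → S → ℝ) → ℝ≥0∞ := fun z p =>
      Set.indicator {p : (S → ℝ) × (ℕ → S → ℝ) | M.uncut η p.1 (sc v p.2) nu 0 x ∧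
          M.lin p.1 (sc v p.2) nu x nu = z}
        (fun p => (1 + Set.indicator {p : (S → ℝ) × (ℕ → S → ℝ) | Good p.1 p.2 z}
          (fun _ => q) p) * ψ (M.mf p.1 (sc v p.2) nu)) p with hKdef
    have hpair : Measurable (fun p : (S → ℝ) × (ℕ → S → ℝ) => (p.1, sc v p.2)) :=
      measurable_fst.prodMk ((MFc_measurable_sc v).comp measurable_snd)
    have hmfp : Measurable (fun p : (S → ℝ) × (ℕ → S → ℝ) => M.mf p.1 (sc v p.2) nu) :=
      measurable_pi_lambda _ fun y => (measurable_mf M nu y).comp hpair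
    have hSu : MeasurableSet {p : (S → ℝ) × (ℕ → S → ℝ) | M.uncut η p.1 (sc v p.2) nu 0 x} :=
      hpair (measurableSet_uncut M η nu 0 x)
    have hSl : ∀ z, MeasurableSet {p : (S → ℝ) × (ℕ → S → ℝ) |
        M.lin p.1 (sc v p.2) nu x nu = z} := fun z =>
      hpair (measurableSet_lin M nu x nu z)
    have hK : ∀ z, Measurable (K z) := by
      intro z
      refine Measurable.indicator ?_ (hSu.inter (hSl z))
      exact (measurable_const.add (measurable_const.indicator (hm z))).mul (hψ.comp hmfp)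
    have hmul : (m + 1) * nu = m * nu + nu := by ring
    have hpos : (0 : ℝ) ≤ 1 + Real.exp (-c) := by positivity
    -- the integrand splits
    have hsplit : ∀ a b : ℕ → S → ℝ,
        MFc_wt M v η c nu Good X (m + 1) x (glue (m * nu) a b) *
          ψ (M.mf X (sc v (glue (m * nu) a b)) ((m + 1) * nu)) =
        ∑ z, MFc_wt M v η c nu Good X m z a * K z (M.mf X (sc v a) (m * nu), b) := by
      intro a b
      set A := M.mf X (sc v a) (m * nu) with hA
      set z0 := M.lin A (sc v b) nu x nu with hz0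
      have hmf : M.mf X (sc v (glue (m * nu) a b)) (m * nu) = A :=
        mf_congr M X _ _ (m * nu) (fun j hj => MFc_sc_glue_lt v (m * nu) a b j hj)
      have hmf2 : M.mf X (sc v (glue (m * nu) a b)) ((m + 1) * nu) = M.mf A (sc v b) nu := by
        rw [hmul, mf_shift, hmf, MFc_sc_glue_ge]
      have hlin : M.lin X (sc v (glue (m * nu) a b)) (m * nu + nu) x nu = z0 := by
        rw [lin_shift' M X _ (m * nu) nu x nu le_rfl, hmf, MFc_sc_glue_ge]
      have hunc : M.uncut η X (sc v (glue (m * nu) a b)) ((m + 1) * nu) 0 x ↔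
          (M.uncut η A (sc v b) nu 0 x ∧ M.uncut η X (sc v a) (m * nu) 0 z0) := by
        rw [hmul, uncut_split M η X _ (m * nu) nu x, hlin, hmf, MFc_sc_glue_ge,
          MFc_uncut_congr M η X _ (sc v a) (m * nu) 0 z0
            (fun j hj => MFc_sc_glue_lt v (m * nu) a b j hj)]
      have hgc := gcount_succ M v nu Good hG X a b m x
      rw [← hA, ← hz0] at hgc
      rw [Finset.sum_eq_single z0]
      · -- main term
        have hK0 : K z0 (A, b) = Set.indicator {b : ℕ → S → ℝ | M.uncut η A (sc v b) nu 0 x}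
            (fun b => (1 + if Good A b z0 then q else 0) * ψ (M.mf A (sc v b) nu)) b := by
          simp only [hKdef, Set.indicator, Set.mem_ofPred_eq]
          by_cases hu : M.uncut η A (sc v b) nu 0 x
          · rw [if_pos ⟨hu, rfl⟩, if_pos hu]
          · rw [if_neg (fun h => hu h.1), if_neg hu]
        rw [hK0, hmf2]
        unfold MFc_wt
        simp only [Set.indicator, Set.mem_ofPred_eq]
        by_cases hu : M.uncut η A (sc v b) nu 0 x
        · by_cases hu2 : M.uncut η X (sc v a) (m * nu) 0 z0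
          · rw [if_pos (hunc.mpr ⟨hu, hu2⟩), if_pos hu, if_pos hu2, hgc]
            by_cases hgood : Good A b z0
            · rw [if_pos hgood, if_pos hgood, pow_succ,
                ENNReal.ofReal_mul (pow_nonneg hpos _),
                ENNReal.ofReal_add zero_le_one (Real.exp_pos _).le, ENNReal.ofReal_one, mul_assoc]
            · rw [if_neg hgood, if_neg hgood, add_zero, add_zero, one_mul]
          · rw [if_neg (fun h => hu2 (hunc.mp h).2), if_neg hu2, zero_mul, zero_mul]
        · rw [if_neg (fun h => hu (hunc.mp h).1), if_neg hu, zero_mul, mul_zero]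
      · intro z _ hz
        have : K z (A, b) = 0 := by
          simp only [hKdef, Set.indicator, Set.mem_ofPred_eq]
          rw [if_neg]
          rintro ⟨_, h⟩
          exact hz h.symm
        rw [this, mul_zero]
      · intro h
        exact absurd (Finset.mem_univ _) h
    -- the sum of the kernels
    have hsum : ∀ A : S → ℝ, (∀ z, A z ≤ 0) →
        ∫⁻ b, ∑ z, K z (A, b) ∂(PI (nz S)) ≤ ∫⁻ b, ψ (M.mf A (sc v b) nu) ∂(PI (nz S)) := by
      intro A hA
      have hAb : Measurable (fun b : ℕ → S → ℝ => (A, b)) := measurable_const.prodMk measurable_id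
      have hψb : Measurable (fun b : ℕ → S → ℝ => ψ (M.mf A (sc v b) nu)) :=
        (hψ.comp hmfp).comp hAb
      have hSuA : MeasurableSet {b : ℕ → S → ℝ | M.uncut η A (sc v b) nu 0 x} := hAb hSu
      have hSg : MeasurableSet {b : ℕ → S → ℝ | M.uncut η A (sc v b) nu 0 x ∧
          Good A b (M.lin A (sc v b) nu x nu)} := by
        have hset : {b : ℕ → S → ℝ | M.uncut η A (sc v b) nu 0 x ∧
            Good A b (M.lin A (sc v b) nu x nu)} =
            {b : ℕ → S → ℝ | M.uncut η A (sc v b) nu 0 x} ∩ ⋃ z : S,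
              ({b | M.lin A (sc v b) nu x nu = z} ∩ {b | Good A b z}) := by
          ext b
          simp only [Set.mem_ofPred_eq, Set.mem_inter_iff, Set.mem_iUnion]
          constructor
          · rintro ⟨h1, h2⟩
            exact ⟨h1, _, rfl, h2⟩
          · rintro ⟨h1, z, h2, h3⟩
            refine ⟨h1, ?_⟩
            rw [h2]
            exact h3
        rw [hset]
        exact hSuA.inter (MeasurableSet.iUnion fun z => (hAb (hSl z)).inter (hAb (hm z)))
      have hpt : ∀ b : ℕ → S → ℝ, ∑ z, K z (A, b) =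
          Set.indicator {b : ℕ → S → ℝ | M.uncut η A (sc v b) nu 0 x}
            (fun b => ψ (M.mf A (sc v b) nu)) b +
          q * Set.indicator {b : ℕ → S → ℝ | M.uncut η A (sc v b) nu 0 x ∧
            Good A b (M.lin A (sc v b) nu x nu)} (fun b => ψ (M.mf A (sc v b) nu)) b := by
        intro b
        rw [Finset.sum_eq_single (M.lin A (sc v b) nu x nu)]
        · simp only [hKdef, Set.indicator, Set.mem_ofPred_eq]
          by_cases hu : M.uncut η A (sc v b) nu 0 x
          · by_cases hgood : Good A b (M.lin A (sc v b) nu x nu)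
            · rw [if_pos ⟨hu, trivial⟩, if_pos hgood, if_pos hu, if_pos ⟨hu, hgood⟩, add_mul, one_mul]
            · rw [if_pos ⟨hu, trivial⟩, if_neg hgood, if_pos hu, if_neg (fun h => hgood h.2), add_zero,
                one_mul, mul_zero, add_zero]
          · rw [if_neg (fun h => hu h.1), if_neg hu, if_neg (fun h => hu h.1), mul_zero, add_zero]
        · intro z _ hz
          simp only [hKdef, Set.indicator, Set.mem_ofPred_eq]
          rw [if_neg]
          rintro ⟨_, h⟩
          exact hz h.symm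
        · intro h
          exact absurd (Finset.mem_univ _) h
      simp only [hpt]
      rw [lintegral_add_left (hψb.indicator hSuA), lintegral_const_mul _ (hψb.indicator hSg)]
      have hflip := hF A hA x ψ hψ
      have hqe : q * ENNReal.ofReal (Real.exp c) = 1 := by
        rw [hq, ← ENNReal.ofReal_mul (Real.exp_pos _).le, ← Real.exp_add, neg_add_cancel,
          Real.exp_zero, ENNReal.ofReal_one]
      calc _ ≤ ∫⁻ b, Set.indicator {b : ℕ → S → ℝ | M.uncut η A (sc v b) nu 0 x}
            (fun b => ψ (M.mf A (sc v b) nu)) b ∂(PI (nz S)) +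
            q * (ENNReal.ofReal (Real.exp c) *
              ∫⁻ b, Set.indicator {b : ℕ → S → ℝ | ¬ M.uncut η A (sc v b) nu 0 x}
              (fun b => ψ (M.mf A (sc v b) nu)) b ∂(PI (nz S))) := by
              gcongr
        _ = ∫⁻ b, Set.indicator {b : ℕ → S → ℝ | M.uncut η A (sc v b) nu 0 x}
            (fun b => ψ (M.mf A (sc v b) nu)) b ∂(PI (nz S)) +
              ∫⁻ b, Set.indicator {b : ℕ → S → ℝ | ¬ M.uncut η A (sc v b) nu 0 x}
              (fun b => ψ (M.mf A (sc v b) nu)) b ∂(PI (nz S)) := by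
              rw [← mul_assoc, hqe, one_mul]
        _ = ∫⁻ b, ψ (M.mf A (sc v b) nu) ∂(PI (nz S)) := by
              rw [← lintegral_add_left (hψb.indicator hSuA)]
              refine lintegral_congr fun b => ?_
              simp only [Set.indicator, Set.mem_ofPred_eq]
              by_cases hu : M.uncut η A (sc v b) nu 0 x
              · rw [if_pos hu, if_neg (not_not.mpr hu), add_zero]
              · rw [if_neg hu, if_pos hu, zero_add]
    have hmeasL : Measurable (fun ω : ℕ → S → ℝ => MFc_wt M v η c nu Good X (m + 1) x ω *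
        ψ (M.mf X (sc v ω) ((m + 1) * nu))) :=
      (MFc_measurable_wt M v η c nu Good hm X (m + 1) x).mul
        (hψ.comp (MFc_measurable_mfX M v X ((m + 1) * nu)))
    have hmeasR : Measurable (fun ω : ℕ → S → ℝ => ψ (M.mf X (sc v ω) ((m + 1) * nu))) :=
      hψ.comp (MFc_measurable_mfX M v X ((m + 1) * nu))
    rw [lintegral_glue (m * nu) _ hmeasL, lintegral_glue (m * nu) _ hmeasR]
    simp only [hsplit]
    refine (MFc_tower M v η c nu Good hm X m ih K hK).trans ?_
    refine lintegral_mono fun a => ?_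
    refine (hsum _ (fun z => mf_nonpos M X hX (sc v a) (m * nu) z)).trans ?_
    refine lintegral_mono fun b => ?_
    refine le_of_eq ?_
    congr 1
    rw [hmul, mf_shift, MFc_sc_glue_ge,
      mf_congr M X _ (sc v a) (m * nu) (fun j hj => MFc_sc_glue_lt v (m * nu) a b j hj)]

theorem weights (v η c : ℝ) (nu : ℕ) (Good : (S → ℝ) → (ℕ → S → ℝ) → S → Prop)
    (hm : ∀ z, MeasurableSet {p : (S → ℝ) × (ℕ → S → ℝ) | Good p.1 p.2 z})
    (hG : ∀ F z ω ω', (∀ j, j < nu → ω j = ω' j) → (Good F ω z ↔ Good F ω' z))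
    (hF : Flip M v η c nu Good) (X : S → ℝ) (hX : ∀ z, X z ≤ 0) (m : ℕ) (x : S)
    (ψ : (S → ℝ) → ℝ≥0∞) (hψ : Measurable ψ) :
    ∫⁻ ω, Set.indicator {ω | M.uncut η X (sc v ω) (m * nu) 0 x}
        (fun ω => ENNReal.ofReal ((1 + Real.exp (-c)) ^ gcount M v nu Good X ω m x) *
          ψ (M.mf X (sc v ω) (m * nu))) ω ∂(PI (nz S))
      ≤ ∫⁻ ω, ψ (M.mf X (sc v ω) (m * nu)) ∂(PI (nz S)) := by
  classical
  refine le_trans (le_of_eq ?_) (MFc_weights M v η c nu Good hm hG hF X hX m x ψ hψ)
  refine lintegral_congr fun ω => ?_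
  unfold MFc_wt
  simp only [Set.indicator]
  split_ifs
  · rfl
  · rw [zero_mul]

/-- an uncut lineage with at least `r` good windows is unlikely -/
theorem good_few (v η c : ℝ) (nu : ℕ) (Good : (S → ℝ) → (ℕ → S → ℝ) → S → Prop)
    (hm : ∀ z, MeasurableSet {p : (S → ℝ) × (ℕ → S → ℝ) | Good p.1 p.2 z})
    (hG : ∀ F z ω ω', (∀ j, j < nu → ω j = ω' j) → (Good F ω z ↔ Good F ω' z))
    (hF : Flip M v η c nu Good) (X : S → ℝ) (hX : ∀ z, X z ≤ 0) (m r' r : ℕ) (x : S) :
    PI (nz S) {ω | M.uncut η X (sc v ω) (m * nu + r') 0 x ∧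
        r ≤ gcount M v nu Good X ω m (M.lin X (sc v ω) (m * nu + r') x r')}
      ≤ ENNReal.ofReal ((1 + Real.exp (-c))⁻¹ ^ r) := by
  classical
  have hpos : (0 : ℝ) < 1 + Real.exp (-c) := by positivity
  have hone : (1 : ℝ) ≤ 1 + Real.exp (-c) := by linarith [Real.exp_pos (-c)]
  have hX1 : Measurable (fun ω : ℕ → S → ℝ => (X, sc v ω)) :=
    measurable_const.prodMk (MFc_measurable_sc v)
  have hE : MeasurableSet {ω : ℕ → S → ℝ | M.uncut η X (sc v ω) (m * nu + r') 0 x ∧
        r ≤ gcount M v nu Good X ω m (M.lin X (sc v ω) (m * nu + r') x r')} := by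
    have hset : {ω : ℕ → S → ℝ | M.uncut η X (sc v ω) (m * nu + r') 0 x ∧
        r ≤ gcount M v nu Good X ω m (M.lin X (sc v ω) (m * nu + r') x r')} =
        {ω : ℕ → S → ℝ | M.uncut η X (sc v ω) (m * nu + r') 0 x} ∩ ⋃ z : S,
          ({ω | M.lin X (sc v ω) (m * nu + r') x r' = z} ∩
            {ω | r ≤ gcount M v nu Good X ω m z}) := by
      ext ω
      simp only [Set.mem_ofPred_eq, Set.mem_inter_iff, Set.mem_iUnion]
      constructor
      · rintro ⟨h1, h2⟩
        exact ⟨h1, _, rfl, h2⟩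
      · rintro ⟨h1, z, h2, h3⟩
        refine ⟨h1, ?_⟩
        rw [h2]
        exact h3
    rw [hset]
    refine (MFc_measurableSet_unc M v η X (m * nu + r') x).inter
      (MeasurableSet.iUnion fun z => MeasurableSet.inter ?_ ?_)
    · exact hX1 (measurableSet_lin M (m * nu + r') x r' z)
    · exact measurableSet_le measurable_const (MFc_measurable_gcount M v nu Good hm X m z)
  set K : S → (S → ℝ) × (ℕ → S → ℝ) → ℝ≥0∞ := fun z p =>
      Set.indicator {p : (S → ℝ) × (ℕ → S → ℝ) | M.lin p.1 (sc v p.2) r' x r' = z}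
        (fun _ => ENNReal.ofReal ((1 + Real.exp (-c))⁻¹ ^ r)) p with hKdef
  have hpair : Measurable (fun p : (S → ℝ) × (ℕ → S → ℝ) => (p.1, sc v p.2)) :=
    measurable_fst.prodMk ((MFc_measurable_sc v).comp measurable_snd)
  have hSl : ∀ z, MeasurableSet {p : (S → ℝ) × (ℕ → S → ℝ) |
      M.lin p.1 (sc v p.2) r' x r' = z} := fun z =>
    hpair (measurableSet_lin M r' x r' z)
  have hK : ∀ z, Measurable (K z) := fun z => measurable_const.indicator (hSl z)
  rw [← lintegral_indicator_one hE, lintegral_glue (m * nu) _ (measurable_one.indicator hE)]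
  have hpt : ∀ a b : ℕ → S → ℝ,
      Set.indicator {ω : ℕ → S → ℝ | M.uncut η X (sc v ω) (m * nu + r') 0 x ∧
        r ≤ gcount M v nu Good X ω m (M.lin X (sc v ω) (m * nu + r') x r')}
        (1 : (ℕ → S → ℝ) → ℝ≥0∞) (glue (m * nu) a b) ≤
      ∑ z, MFc_wt M v η c nu Good X m z a * K z (M.mf X (sc v a) (m * nu), b) := by
    intro a b
    set A := M.mf X (sc v a) (m * nu) with hA
    set z0 := M.lin A (sc v b) r' x r' with hz0
    have hmf : M.mf X (sc v (glue (m * nu) a b)) (m * nu) = A :=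
      mf_congr M X _ _ (m * nu) (fun j hj => MFc_sc_glue_lt v (m * nu) a b j hj)
    have hlin : M.lin X (sc v (glue (m * nu) a b)) (m * nu + r') x r' = z0 := by
      rw [lin_shift' M X _ (m * nu) r' x r' le_rfl, hmf, MFc_sc_glue_ge]
    have hgc : gcount M v nu Good X (glue (m * nu) a b) m z0 = gcount M v nu Good X a m z0 :=
      MFc_gcount_congr M v nu Good hG X _ _ m z0 (fun j hj => by simp only [glue, if_pos hj])
    refine Set.indicator_apply_le' (fun hmem => ?_) (fun _ => zero_le)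
    obtain ⟨hu, hr⟩ := hmem
    have hu' : M.uncut η X (sc v (glue (m * nu) a b)) (m * nu + r') 0 x := hu
    have hr' : r ≤ gcount M v nu Good X (glue (m * nu) a b) m
      (M.lin X (sc v (glue (m * nu) a b)) (m * nu + r') x r') := hr
    rw [hlin, hgc] at hr'
    have hu2 := ((uncut_split M η X _ (m * nu) r' x).mp hu').2
    rw [hlin, MFc_uncut_congr M η X _ (sc v a) (m * nu) 0 z0
            (fun j hj => MFc_sc_glue_lt v (m * nu) a b j hj)] at hu2
    have hterm : (1 : ℝ≥0∞) ≤ MFc_wt M v η c nu Good X m z0 a * K z0 (A, b) := by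
      unfold MFc_wt
      simp only [hKdef, Set.indicator, Set.mem_ofPred_eq]
      rw [if_pos hu2, if_pos hz0.symm, ← ENNReal.ofReal_mul (pow_nonneg hpos.le _),
        ← ENNReal.ofReal_one]
      refine ENNReal.ofReal_le_ofReal ?_
      rw [inv_pow]
      rw [← div_eq_mul_inv, le_div_iff₀ (pow_pos hpos _), one_mul]
      exact pow_le_pow_right₀ hone hr'
    exact hterm.trans (Finset.single_le_sum (f := fun z => MFc_wt M v η c nu Good X m z a *
      K z (A, b)) (fun _ _ => zero_le) (Finset.mem_univ z0))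
  calc ∫⁻ a, ∫⁻ b, Set.indicator {ω : ℕ → S → ℝ | M.uncut η X (sc v ω) (m * nu + r') 0 x ∧
        r ≤ gcount M v nu Good X ω m (M.lin X (sc v ω) (m * nu + r') x r')}
        (1 : (ℕ → S → ℝ) → ℝ≥0∞) (glue (m * nu) a b) ∂(PI (nz S)) ∂(PI (nz S))
      ≤ ∫⁻ a, ∫⁻ b, ∑ z, MFc_wt M v η c nu Good X m z a * K z (M.mf X (sc v a) (m * nu), b)
          ∂(PI (nz S)) ∂(PI (nz S)) := lintegral_mono fun a => lintegral_mono fun b => hpt a b
    _ ≤ ∫⁻ a, ∫⁻ b, ∑ z, K z (M.mf X (sc v a) (m * nu), b) ∂(PI (nz S)) ∂(PI (nz S)) :=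
        MFc_tower M v η c nu Good hm X m
          (MFc_weights M v η c nu Good hm hG hF X hX m) K hK
    _ = ∫⁻ a, ∫⁻ b, ENNReal.ofReal ((1 + Real.exp (-c))⁻¹ ^ r) ∂(PI (nz S)) ∂(PI (nz S)) := by
        refine lintegral_congr fun a => lintegral_congr fun b => ?_
        rw [Finset.sum_eq_single (M.lin (M.mf X (sc v a) (m * nu)) (sc v b) r' x r')]
        · simp only [hKdef, Set.indicator, Set.mem_ofPred_eq]
          rw [if_pos trivial]
        · intro z _ hz
          simp only [hKdef, Set.indicator, Set.mem_ofPred_eq]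
          rw [if_neg (fun h => hz h.symm)]
        · intro h
          exact absurd (Finset.mem_univ _) h
    _ = ENNReal.ofReal ((1 + Real.exp (-c))⁻¹ ^ r) := by
        simp only [lintegral_const, measure_univ, mul_one]

end DynC
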