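import Pool.Agent.Lib_MP_36b788c.PS

/-!
# Adapted shifts of Gaussian noise

PROOF. `cmart_real`, `cmart_std`: the density of `N(0,1)` (`gaussianReal`), translation of Lebesgue measure;
for `stdGaussian (E m)` transfer through the description as image of `Measure.pi (gaussianReal 0 1)` and Tonelli.
`cmart_pi`: product measures, coordinate by coordinate (`ι → V` with the sum of the inner products): by
induction on a finset of shifted coordinates or through `Measure.pi` Tonelli (measurePreserving of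
`MeasurableEquiv.piFinSuccAbove`, or induction over `Fintype` with `Option`).
`shift_lintegral`: induction on `n`. For `n = 0` the shift is zero (`hv0`). For `n+1`: split with
`lintegral_glue n` and `lintegral_cons`: `ω = glue n a (c :: b)`. The shift at times `< n` and the vector
`v n` depend on `a` only; for fixed `a` (and fixed `b`) the identity `cmart_pi` for the coordinate `c` removes the
last shift; then the induction hypothesis for the process shifted at the times `< n`.
`abs_tail`: `Σ⟪v,ω⟫` for an adapted `v` with `Σ‖v‖² ≤ V`: `E exp(±Σ⟪v,ω⟫ - V/2) ≤ 1` from `shift_lintegral`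
with `Φ = 1` (and `-v`), then Markov.
-/

open MeasureTheory ProbabilityTheory
open scoped ENNReal

namespace DynC

theorem cmart_real : CMart (gaussianReal 0 1) := by
  intro a Φ hΦ
  rw [gaussianReal_of_var_ne_zero _ one_ne_zero]
  have hw : Measurable fun ξ : ℝ => ENNReal.ofReal (Real.exp (-(inner ℝ a ξ) - ‖a‖ ^ 2 / 2)) := by
    apply ENNReal.measurable_ofReal.comp
    apply Real.measurable_exp.comp
    apply Measurable.sub_const
    apply Measurable.neg
    exact (measurable_const.inner measurable_id)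
  have h0 := lintegral_withDensity_eq_lintegral_mul volume (measurable_gaussianPDF 0 1)
    (g := fun ξ => Φ (ξ + a) * ENNReal.ofReal (Real.exp (-(inner ℝ a ξ) - ‖a‖ ^ 2 / 2)))
    ((hΦ.comp (measurable_add_const a)).mul hw)
  rw [h0, lintegral_withDensity_eq_lintegral_mul _ (measurable_gaussianPDF 0 1) hΦ]
  rw [← lintegral_add_right_eq_self (fun x => (gaussianPDF 0 1 * Φ) x) a]
  apply lintegral_congr
  intro x
  simp only [Pi.mul_apply]
  have key : gaussianPDF 0 1 x * ENNReal.ofReal (Real.exp (-(inner ℝ a x) - ‖a‖ ^ 2 / 2))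
      = gaussianPDF 0 1 (x + a) := by
    unfold gaussianPDF
    rw [← ENNReal.ofReal_mul (gaussianPDFReal_nonneg 0 1 x)]
    congr 1
    unfold gaussianPDFReal
    rw [mul_assoc, ← Real.exp_add]
    congr 2
    simp only [RCLike.inner_apply, conj_trivial, NNReal.coe_one, Real.norm_eq_abs, sq_abs]
    ring
  calc gaussianPDF 0 1 x * (Φ (x + a) *
        ENNReal.ofReal (Real.exp (-(inner ℝ a x) - ‖a‖ ^ 2 / 2)))
      = (gaussianPDF 0 1 x * ENNReal.ofReal (Real.exp (-(inner ℝ a x) - ‖a‖ ^ 2 / 2)))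
          * Φ (x + a) := by ring
    _ = gaussianPDF 0 1 (x + a) * Φ (x + a) := by rw [key]

section

variable {ι V : Type} [Fintype ι] [NormedAddCommGroup V] [InnerProductSpace ℝ V]
  [MeasurableSpace V] [BorelSpace V] [SecondCountableTopology V] {γ : Measure V}
  [IsProbabilityMeasure γ]

private theorem PSShift_meas_w (a : V) :
    Measurable fun ξ : V => ENNReal.ofReal (Real.exp (-(inner ℝ a ξ) - ‖a‖ ^ 2 / 2)) := by
  apply ENNReal.measurable_ofReal.comp
  apply Real.measurable_exp.comp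
  apply Measurable.sub_const
  apply Measurable.neg
  exact (measurable_const.inner measurable_id)

private theorem PSShift_ofReal_sum (f : ι → ℝ) :
    ENNReal.ofReal (Real.exp (∑ x, f x)) = ∏ x, ENNReal.ofReal (Real.exp (f x)) := by
  rw [Real.exp_sum, ENNReal.ofReal_prod_of_nonneg (fun i _ => (Real.exp_pos _).le)]

private theorem PSShift_lint_prod (f : ι → V → ℝ≥0∞) (hf : ∀ x, Measurable (f x)) :
    ∫⁻ ξ, ∏ x, f x (ξ x) ∂(Measure.pi fun _ : ι => γ) = ∏ x, ∫⁻ v, f x v ∂γ := by
  have h1 : iIndepFun (fun (x : ι) (ξ : ι → V) => f x (ξ x)) (Measure.pi fun _ : ι => γ) :=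
    iIndepFun_pi (X := f) (fun x => (hf x).aemeasurable)
  rw [lintegral_prod_eq_prod_lintegral_of_indepFun Finset.univ _ h1
    (fun x => (hf x).comp (measurable_pi_apply x))]
  apply Finset.prod_congr rfl
  intro x _
  exact (measurePreserving_eval (fun _ : ι => γ) x).lintegral_comp (hf x)

theorem cmart_pi (hγ : CMart γ) (a : ι → V) (Φ : (ι → V) → ℝ≥0∞) (hΦ : Measurable Φ) :
    ∫⁻ ξ, Φ (fun x => ξ x + a x) *
        ENNReal.ofReal (Real.exp (∑ x, (-(inner ℝ (a x) (ξ x)) - ‖a x‖ ^ 2 / 2)))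
        ∂(Measure.pi fun _ => γ) = ∫⁻ ξ, Φ ξ ∂(Measure.pi fun _ => γ) := by
  classical
  set P : Measure (ι → V) := Measure.pi fun _ => γ with hP
  let W : (ι → V) → ℝ≥0∞ := fun ξ =>
    ∏ x, ENNReal.ofReal (Real.exp (-(inner ℝ (a x) (ξ x)) - ‖a x‖ ^ 2 / 2))
  have hW : Measurable W :=
    Finset.measurable_fun_prod _ (fun x _ => (PSShift_meas_w (a x)).comp (measurable_pi_apply x))
  have hT : Measurable fun ξ : ι → V => fun x => ξ x + a x :=
    measurable_pi_lambda _ (fun x => (measurable_add_const (a x)).comp (measurable_pi_apply x))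
  have key : (P.withDensity W).map (fun ξ : ι → V => fun x => ξ x + a x) = P := by
    symm
    rw [hP]
    apply Measure.pi_eq
    intro s hs
    rw [Measure.map_apply hT (MeasurableSet.univ_pi hs),
      withDensity_apply _ (hT (MeasurableSet.univ_pi hs)),
      ← lintegral_indicator (hT (MeasurableSet.univ_pi hs))]
    have e1 : ∀ ξ : ι → V, (((fun ξ : ι → V => fun x => ξ x + a x) ⁻¹' Set.univ.pi s).indicator
        (fun ξ => W ξ)) ξ = ∏ x, ((s x).indicator (fun _ => (1:ℝ≥0∞)) (ξ x + a x) *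
          ENNReal.ofReal (Real.exp (-(inner ℝ (a x) (ξ x)) - ‖a x‖ ^ 2 / 2))) := by
      intro ξ
      rw [Finset.prod_mul_distrib]
      by_cases h : (fun x => ξ x + a x) ∈ Set.univ.pi s
      · rw [Set.indicator_of_mem (by exact h)]
        rw [Finset.prod_eq_one, one_mul]
        intro x _
        rw [Set.indicator_of_mem (h x (Set.mem_univ x))]
      · rw [Set.indicator_of_notMem (by exact h)]
        simp only [Set.mem_pi, Set.mem_univ, forall_true_left, not_forall] at h
        obtain ⟨x, hx⟩ := h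
        rw [Finset.prod_eq_zero (Finset.mem_univ x), zero_mul]
        rw [Set.indicator_of_notMem hx]
    rw [lintegral_congr e1, PSShift_lint_prod (γ := γ) (fun x v =>
      (s x).indicator (fun _ => (1:ℝ≥0∞)) (v + a x) *
          ENNReal.ofReal (Real.exp (-(inner ℝ (a x) v) - ‖a x‖ ^ 2 / 2)))]
    · apply Finset.prod_congr rfl
      intro x _
      rw [hγ (a x) ((s x).indicator (fun _ => (1:ℝ≥0∞))) (measurable_const.indicator (hs x))]
      rw [lintegral_indicator (hs x)]
      simp
    · intro x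
      exact ((measurable_const.indicator (hs x)).comp (measurable_add_const (a x))).mul
        (PSShift_meas_w (a x))
  have h2 : ∀ ξ : ι → V, Φ (fun x => ξ x + a x) *
        ENNReal.ofReal (Real.exp (∑ x, (-(inner ℝ (a x) (ξ x)) - ‖a x‖ ^ 2 / 2)))
      = (W * fun η : ι → V => Φ (fun x => η x + a x)) ξ := by
    intro ξ
    rw [PSShift_ofReal_sum, Pi.mul_apply, mul_comm]
  have h3 := lintegral_withDensity_eq_lintegral_mul P hW
    (g := fun η : ι → V => Φ (fun x => η x + a x)) (hΦ.comp hT)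
  rw [lintegral_congr h2, ← h3]
  conv_rhs => rw [← key]
  rw [lintegral_map hΦ hT]

end

theorem cmart_std (m : ℕ) : CMart (stdGaussian (EuclideanSpace ℝ (Fin m))) := by
  intro a Φ hΦ
  rw [← map_pi_eq_stdGaussian]
  have hm : Measurable (WithLp.toLp 2 : (Fin m → ℝ) → EuclideanSpace ℝ (Fin m)) := by fun_prop
  rw [lintegral_map _ hm, lintegral_map hΦ hm]
  · rw [← cmart_pi (ι := Fin m) cmart_real (fun i => a i) (fun ξ => Φ (WithLp.toLp 2 ξ))
      (hΦ.comp hm)]
    apply lintegral_congr
    intro ξ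
    congr 2
    congr 1
    rw [Finset.sum_sub_distrib, EuclideanSpace.norm_sq_eq, ← Finset.sum_div, Finset.sum_neg_distrib]
    simp only [PiLp.inner_apply]
  · exact (hΦ.comp (measurable_add_const a)).mul (PSShift_meas_w a)


section

variable {ι V : Type} [Fintype ι] [NormedAddCommGroup V] [InnerProductSpace ℝ V]
  [MeasurableSpace V] [BorelSpace V] [SecondCountableTopology V] {γ : Measure V}
  [IsProbabilityMeasure γ]

private def PSShift_cut (n : ℕ) (v : ℕ → (ℕ → ι → V) → ι → V) : ℕ → (ℕ → ι → V) → ι → V :=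
  fun j ω => if j < n then v j ω else 0

private theorem PSShift_meas_shft (v : ℕ → (ℕ → ι → V) → ι → V) (hv : ∀ j, Measurable (v j)) :
    Measurable (shft v) := by
  refine measurable_pi_lambda _ fun j => measurable_pi_lambda _ fun x => ?_
  have h1 : Measurable fun ω : ℕ → ι → V => ω j x :=
    (measurable_pi_apply x).comp (measurable_pi_apply j)
  have h2 : Measurable fun ω : ℕ → ι → V => v j ω x := (measurable_pi_apply x).comp (hv j)
  exact h1.add h2

private theorem PSShift_meas_logZ (n : ℕ) (v : ℕ → (ℕ → ι → V) → ι → V)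
    (hv : ∀ j, Measurable (v j)) : Measurable (logZ n v) := by
  unfold logZ
  refine Finset.measurable_fun_sum _ fun j _ => Finset.measurable_fun_sum _ fun x _ => ?_
  have h1 : Measurable fun ω : ℕ → ι → V => ω j x :=
    (measurable_pi_apply x).comp (measurable_pi_apply j)
  have h2 : Measurable fun ω : ℕ → ι → V => v j ω x := (measurable_pi_apply x).comp (hv j)
  exact (h2.inner h1).neg.sub ((h2.norm.pow_const 2).div_const 2)

private theorem PSShift_meas_F (n : ℕ) (v : ℕ → (ℕ → ι → V) → ι → V)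
    (hv : ∀ j, Measurable (v j)) (Φ : (ℕ → ι → V) → ℝ≥0∞) (hΦ : Measurable Φ) :
    Measurable fun ω => Φ (shft v ω) * ENNReal.ofReal (Real.exp (logZ n v ω)) :=
  (hΦ.comp (PSShift_meas_shft v hv)).mul
    (ENNReal.measurable_ofReal.comp (Real.measurable_exp.comp (PSShift_meas_logZ n v hv)))

/-- `a` for the first `n` entries, then `c`, then `b` -/
private def PSShift_g {X : Type} (n : ℕ) (a : ℕ → X) (c : X) (b : ℕ → X) : ℕ → X :=
  glue n a (fun i => Nat.casesOn i c b)

private theorem PSShift_g_lt {X : Type} (n : ℕ) (a : ℕ → X) (c : X) (b : ℕ → X) (j : ℕ)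
    (hj : j < n) : PSShift_g n a c b j = a j := by
  unfold PSShift_g glue
  rw [if_pos hj]

private theorem PSShift_g_eq {X : Type} (n : ℕ) (a : ℕ → X) (c : X) (b : ℕ → X) :
    PSShift_g n a c b n = c := by
  unfold PSShift_g glue
  rw [if_neg (lt_irrefl n), Nat.sub_self]
  rfl

private theorem PSShift_g_gt {X : Type} (n : ℕ) (a : ℕ → X) (c : X) (b : ℕ → X) (j : ℕ) :
    PSShift_g n a c b (n + 1 + j) = b j := by
  unfold PSShift_g glue
  rw [if_neg (by omega), show n + 1 + j - n = j + 1 by omega]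

private theorem PSShift_meas_g {X : Type} [MeasurableSpace X] (n : ℕ) (a : ℕ → X) :
    Measurable fun p : X × (ℕ → X) => PSShift_g n a p.1 p.2 := by
  refine measurable_pi_lambda _ fun j => ?_
  rcases lt_trichotomy j n with h | h | h
  · simp only [PSShift_g_lt n a _ _ j h]
    exact measurable_const
  · subst h
    simp only [PSShift_g_eq]
    exact measurable_fst
  · obtain ⟨k, rfl⟩ : ∃ k, j = n + 1 + k := ⟨j - (n + 1), by omega⟩
    simp only [PSShift_g_gt]
    exact (measurable_pi_apply k).comp measurable_snd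

private theorem PSShift_step (hγ : CMart γ) (n : ℕ) (v : ℕ → (ℕ → ι → V) → ι → V)
    (hv : ∀ j, Measurable (v j)) (hd : ∀ j, Dep j (v j)) (hv0 : ∀ j, n + 1 ≤ j → ∀ ω, v j ω = 0)
    (Φ : (ℕ → ι → V) → ℝ≥0∞) (hΦ : Measurable Φ) :
    ∫⁻ ω, Φ (shft v ω) * ENNReal.ofReal (Real.exp (logZ (n + 1) v ω))
        ∂(PI (Measure.pi fun _ : ι => γ))
      = ∫⁻ ω, Φ (shft (PSShift_cut n v) ω) *
          ENNReal.ofReal (Real.exp (logZ n (PSShift_cut n v) ω))
          ∂(PI (Measure.pi fun _ : ι => γ)) := by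
  have hvc : ∀ j, Measurable (PSShift_cut n v j) := by
    intro j
    unfold PSShift_cut
    by_cases h : j < n
    · simp only [if_pos h]; exact hv j
    · simp only [if_neg h]; exact measurable_const
  rw [lintegral_glue n _ (PSShift_meas_F (n + 1) v hv Φ hΦ),
    lintegral_glue n _ (PSShift_meas_F n (PSShift_cut n v) hvc Φ hΦ)]
  apply lintegral_congr
  intro a
  have hga : Measurable fun b : ℕ → ι → V => glue n a b :=
    (measurable_glue n).comp (measurable_const.prodMk measurable_id)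
  rw [lintegral_cons (fun b => Φ (shft v (glue n a b)) *
      ENNReal.ofReal (Real.exp (logZ (n + 1) v (glue n a b))))
      ((PSShift_meas_F (n + 1) v hv Φ hΦ).comp hga),
    lintegral_cons (fun b => Φ (shft (PSShift_cut n v) (glue n a b)) *
      ENNReal.ofReal (Real.exp (logZ n (PSShift_cut n v) (glue n a b))))
      ((PSShift_meas_F n (PSShift_cut n v) hvc Φ hΦ).comp hga)]
  -- the shift depends on `a` only
  have hva : ∀ (c : ι → V) (b : ℕ → ι → V) (j : ℕ), j ≤ n → v j (PSShift_g n a c b) = v j a := by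
    intro c b j hj
    exact hd j _ _ (fun i hi => PSShift_g_lt n a c b i (lt_of_lt_of_le hi hj))
  set u : ι → V := v n a with hu
  set K : ℝ≥0∞ := ENNReal.ofReal (Real.exp (logZ n v a)) with hK
  have hZ1 : ∀ (c : ι → V) (b : ℕ → ι → V), logZ (n + 1) v (PSShift_g n a c b)
      = logZ n v a + ∑ x, (-(inner ℝ (u x) (c x)) - ‖u x‖ ^ 2 / 2) := by
    intro c b
    unfold logZ
    rw [Finset.sum_range_succ]
    congr 1
    · apply Finset.sum_congr rfl
      intro j hj
      have hj' := Finset.mem_range.mp hj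
      rw [hva c b j hj'.le, PSShift_g_lt n a c b j hj']
    · rw [hva c b n le_rfl, PSShift_g_eq]
  have hZ2 : ∀ (c : ι → V) (b : ℕ → ι → V), logZ n (PSShift_cut n v) (PSShift_g n a c b)
      = logZ n v a := by
    intro c b
    unfold logZ
    apply Finset.sum_congr rfl
    intro j hj
    have hj' := Finset.mem_range.mp hj
    have e : PSShift_cut n v j (PSShift_g n a c b) = v j a := by
      unfold PSShift_cut
      rw [if_pos hj', hva c b j hj'.le]
    rw [e, PSShift_g_lt n a c b j hj']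
  have hS : ∀ (c : ι → V) (b : ℕ → ι → V), shft v (PSShift_g n a c b)
      = shft (PSShift_cut n v) (PSShift_g n a (fun x => c x + u x) b) := by
    intro c b
    funext j x
    unfold shft PSShift_cut
    rcases lt_trichotomy j n with h | h | h
    · rw [if_pos h, hva c b j h.le, hva _ b j h.le, PSShift_g_lt n a _ _ j h,
        PSShift_g_lt n a _ _ j h]
    · subst h
      rw [if_neg (lt_irrefl _), hva c b _ le_rfl, PSShift_g_eq, PSShift_g_eq]
      simp [hu]
    · obtain ⟨k, rfl⟩ : ∃ k, j = n + 1 + k := ⟨j - (n + 1), by omega⟩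
      rw [if_neg (by omega), hv0 _ (by omega), PSShift_g_gt, PSShift_g_gt]
  set H : (ι → V) → ℝ≥0∞ := fun c => ∫⁻ b, Φ (shft (PSShift_cut n v) (PSShift_g n a c b))
    ∂(PI (Measure.pi fun _ : ι => γ)) with hH
  have hHm : Measurable H := by
    have h1 : Measurable fun p : (ι → V) × (ℕ → ι → V) =>
        Φ (shft (PSShift_cut n v) (PSShift_g n a p.1 p.2)) :=
      hΦ.comp ((PSShift_meas_shft _ hvc).comp (PSShift_meas_g n a))
    exact h1.lintegral_prod_right'
  have hL : ∀ c : ι → V, (∫⁻ b, Φ (shft v (PSShift_g n a c b)) *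
      ENNReal.ofReal (Real.exp (logZ (n + 1) v (PSShift_g n a c b)))
      ∂(PI (Measure.pi fun _ : ι => γ)))
      = (H (fun x => c x + u x) *
        ENNReal.ofReal (Real.exp (∑ x, (-(inner ℝ (u x) (c x)) - ‖u x‖ ^ 2 / 2)))) * K := by
    intro c
    have e : ∀ b : ℕ → ι → V, Φ (shft v (PSShift_g n a c b)) *
        ENNReal.ofReal (Real.exp (logZ (n + 1) v (PSShift_g n a c b)))
        = Φ (shft (PSShift_cut n v) (PSShift_g n a (fun x => c x + u x) b)) *
          (ENNReal.ofReal (Real.exp (∑ x, (-(inner ℝ (u x) (c x)) - ‖u x‖ ^ 2 / 2))) * K) := by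
      intro b
      rw [hS c b, hZ1 c b, Real.exp_add, ENNReal.ofReal_mul (Real.exp_pos _).le, mul_comm (K)]
    rw [lintegral_congr e, lintegral_mul_const' _ _ (by
      exact ENNReal.mul_ne_top ENNReal.ofReal_ne_top ENNReal.ofReal_ne_top), hH]
    ring
  have hR : ∀ c : ι → V, (∫⁻ b, Φ (shft (PSShift_cut n v) (PSShift_g n a c b)) *
      ENNReal.ofReal (Real.exp (logZ n (PSShift_cut n v) (PSShift_g n a c b)))
      ∂(PI (Measure.pi fun _ : ι => γ))) = H c * K := by
    intro c
    have e : ∀ b : ℕ → ι → V, Φ (shft (PSShift_cut n v) (PSShift_g n a c b)) *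
        ENNReal.ofReal (Real.exp (logZ n (PSShift_cut n v) (PSShift_g n a c b)))
        = Φ (shft (PSShift_cut n v) (PSShift_g n a c b)) * K := by
      intro b
      rw [hZ2 c b]
    rw [lintegral_congr e, lintegral_mul_const' _ _ ENNReal.ofReal_ne_top]
  refine (lintegral_congr hL).trans (Eq.trans ?_ (lintegral_congr hR).symm)
  rw [lintegral_mul_const' _ _ ENNReal.ofReal_ne_top, lintegral_mul_const' _ _ ENNReal.ofReal_ne_top,
    cmart_pi hγ u H hHm]

/-- adapted shift identity -/
theorem shift_lintegral (hγ : CMart γ) (n : ℕ) (v : ℕ → (ℕ → ι → V) → ι → V)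
    (hv : ∀ j, Measurable (v j)) (hd : ∀ j, Dep j (v j)) (hv0 : ∀ j, n ≤ j → ∀ ω, v j ω = 0)
    (Φ : (ℕ → ι → V) → ℝ≥0∞) (hΦ : Measurable Φ) :
    ∫⁻ ω, Φ (shft v ω) * ENNReal.ofReal (Real.exp (logZ n v ω)) ∂(PI (Measure.pi fun _ : ι => γ))
      = ∫⁻ ω, Φ ω ∂(PI (Measure.pi fun _ : ι => γ)) := by
  induction n generalizing v with
  | zero =>
    apply lintegral_congr
    intro ω
    have h1 : shft v ω = ω := by
      funext j x
      unfold shft
      rw [hv0 j (Nat.zero_le j) ω]
      simp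
    rw [h1]
    simp [logZ]
  | succ n ih =>
    rw [PSShift_step hγ n v hv hd hv0 Φ hΦ]
    apply ih (PSShift_cut n v)
    · intro j
      unfold PSShift_cut
      by_cases h : j < n
      · simp only [if_pos h]; exact hv j
      · simp only [if_neg h]; exact measurable_const
    · intro j a b hab
      unfold PSShift_cut
      by_cases h : j < n
      · rw [if_pos h, if_pos h]; exact hd j a b hab
      · rw [if_neg h, if_neg h]
    · intro j hj ω
      unfold PSShift_cut
      rw [if_neg (by omega)]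

private theorem PSShift_tail1 (hγ : CMart γ) (n : ℕ) (v : ℕ → (ℕ → ι → V) → ι → V)
    (hv : ∀ j, Measurable (v j)) (hd : ∀ j, Dep j (v j)) (hv0 : ∀ j, n ≤ j → ∀ ω, v j ω = 0)
    (Q : ℝ) (hQ : 0 < Q) (hQv : ∀ ω, ∑ j ∈ Finset.range n, ∑ x, ‖v j ω x‖ ^ 2 ≤ Q) (r : ℝ)
    (hr : 0 ≤ r) :
    PI (Measure.pi fun _ : ι => γ)
        {ω | r < ∑ j ∈ Finset.range n, ∑ x, inner ℝ (v j ω x) (ω j x)}
      ≤ ENNReal.ofReal (Real.exp (-(r ^ 2) / (2 * Q))) := by
  set μ := PI (Measure.pi fun _ : ι => γ) with hμ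
  set l : ℝ := r / Q with hl
  have hl0 : 0 ≤ l := div_nonneg hr hQ.le
  let w : ℕ → (ℕ → ι → V) → ι → V := fun j ω x => (-l) • v j ω x
  have hw : ∀ j, Measurable (w j) := by
    intro j
    refine measurable_pi_lambda _ fun x => ?_
    exact ((measurable_pi_apply x).comp (hv j)).const_smul (-l)
  have hwd : ∀ j, Dep j (w j) := by
    intro j a b hab
    funext x
    simp only [w]
    rw [hd j a b hab]
  have hw0 : ∀ j, n ≤ j → ∀ ω, w j ω = 0 := by
    intro j hj ω
    funext x
    simp only [w]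
    rw [hv0 j hj ω]
    simp
  have h1 := shift_lintegral hγ n w hw hwd hw0 (fun _ => 1) measurable_const
  simp only [one_mul, lintegral_one, measure_univ] at h1
  have hZ : ∀ ω, logZ n w ω = l * (∑ j ∈ Finset.range n, ∑ x, inner ℝ (v j ω x) (ω j x))
      - l ^ 2 * (∑ j ∈ Finset.range n, ∑ x, ‖v j ω x‖ ^ 2) / 2 := by
    intro ω
    unfold logZ
    rw [Finset.mul_sum, mul_div_assoc, Finset.sum_div, Finset.mul_sum, ← Finset.sum_sub_distrib]
    apply Finset.sum_congr rfl
    intro j _
    rw [Finset.mul_sum, Finset.sum_div, Finset.mul_sum, ← Finset.sum_sub_distrib]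
    apply Finset.sum_congr rfl
    intro x _
    simp only [w]
    rw [inner_smul_left, norm_smul]
    simp only [conj_trivial, norm_neg, Real.norm_eq_abs]
    rw [mul_pow, sq_abs]
    ring
  have hsub : {ω | r < ∑ j ∈ Finset.range n, ∑ x, inner ℝ (v j ω x) (ω j x)} ⊆
      {ω | ENNReal.ofReal (Real.exp (r ^ 2 / (2 * Q))) ≤
        ENNReal.ofReal (Real.exp (logZ n w ω))} := by
    intro ω hω
    simp only [Set.mem_setOf_eq] at hω ⊢
    apply ENNReal.ofReal_le_ofReal
    apply Real.exp_le_exp.mpr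
    rw [hZ ω]
    have h2 : l ^ 2 * (∑ j ∈ Finset.range n, ∑ x, ‖v j ω x‖ ^ 2) / 2 ≤ l ^ 2 * Q / 2 := by
      have := mul_le_mul_of_nonneg_left (hQv ω) (sq_nonneg l)
      linarith
    have h3 : l * r ≤ l * (∑ j ∈ Finset.range n, ∑ x, inner ℝ (v j ω x) (ω j x)) :=
      mul_le_mul_of_nonneg_left hω.le hl0
    have h4 : r ^ 2 / (2 * Q) = l * r - l ^ 2 * Q / 2 := by
      rw [hl]; field_simp; ring
    linarith
  refine (measure_mono hsub).trans ?_
  have hm : AEMeasurable (fun ω => ENNReal.ofReal (Real.exp (logZ n w ω))) μ :=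
    (ENNReal.measurable_ofReal.comp
      (Real.measurable_exp.comp (PSShift_meas_logZ n w hw))).aemeasurable
  have h5 := mul_meas_ge_le_lintegral₀ hm (ENNReal.ofReal (Real.exp (r ^ 2 / (2 * Q))))
  rw [h1] at h5
  have hpos : 0 < Real.exp (r ^ 2 / (2 * Q)) := Real.exp_pos _
  have h6 : Real.exp (-(r ^ 2) / (2 * Q)) = (Real.exp (r ^ 2 / (2 * Q)))⁻¹ := by
    rw [← Real.exp_neg]; congr 1; ring
  rw [h6, ENNReal.ofReal_inv_of_pos hpos]
  rw [ENNReal.le_inv_iff_mul_le]
  rw [mul_comm]
  exact h5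

/-- Gaussian tail of an adapted linear functional with bounded quadratic variation -/
theorem adapted_tail (hγ : CMart γ) (n : ℕ) (v : ℕ → (ℕ → ι → V) → ι → V)
    (hv : ∀ j, Measurable (v j)) (hd : ∀ j, Dep j (v j)) (hv0 : ∀ j, n ≤ j → ∀ ω, v j ω = 0)
    (Q : ℝ) (hQ : 0 < Q) (hQv : ∀ ω, ∑ j ∈ Finset.range n, ∑ x, ‖v j ω x‖ ^ 2 ≤ Q) (r : ℝ)
    (hr : 0 ≤ r) :
    PI (Measure.pi fun _ : ι => γ)
        {ω | r < |∑ j ∈ Finset.range n, ∑ x, inner ℝ (v j ω x) (ω j x)|}
      ≤ ENNReal.ofReal (2 * Real.exp (-(r ^ 2) / (2 * Q))) := by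
  let w : ℕ → (ℕ → ι → V) → ι → V := fun j ω x => - v j ω x
  have hw : ∀ j, Measurable (w j) := by
    intro j
    refine measurable_pi_lambda _ fun x => ?_
    exact ((measurable_pi_apply x).comp (hv j)).neg
  have hwd : ∀ j, Dep j (w j) := by
    intro j a b hab
    funext x
    simp only [w]
    rw [hd j a b hab]
  have hw0 : ∀ j, n ≤ j → ∀ ω, w j ω = 0 := by
    intro j hj ω
    funext x
    simp only [w]
    rw [hv0 j hj ω]
    simp
  have h1 := PSShift_tail1 hγ n v hv hd hv0 Q hQ hQv r hr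
  have h2 := PSShift_tail1 hγ n w hw hwd hw0 Q hQ (by
    intro ω
    simp only [w, norm_neg]
    exact hQv ω) r hr
  have hsub : {ω | r < |∑ j ∈ Finset.range n, ∑ x, inner ℝ (v j ω x) (ω j x)|} ⊆
      {ω | r < ∑ j ∈ Finset.range n, ∑ x, inner ℝ (v j ω x) (ω j x)} ∪
      {ω | r < ∑ j ∈ Finset.range n, ∑ x, inner ℝ (w j ω x) (ω j x)} := by
    intro ω hω
    simp only [Set.mem_setOf_eq] at hω
    rcases lt_abs.mp hω with h | h
    · exact Or.inl h
    · right
      simp only [Set.mem_setOf_eq, w, inner_neg_left, Finset.sum_neg_distrib]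
      exact h
  refine (measure_mono hsub).trans ((measure_union_le _ _).trans ((add_le_add h1 h2).trans ?_))
  rw [← ENNReal.ofReal_add (Real.exp_pos _).le (Real.exp_pos _).le]
  apply ENNReal.ofReal_le_ofReal
  linarith

end

end DynC
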