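import Pool.Agent.Lib_MP_36b788c.MFc
import Pool.Agent.Lib_MP_36b788c.PSShift

/-!
# Height model: the flip in one window

Window of `nu` steps. Base point `z`. Stage 1 (`j < n1`): control `+ cup v` on the ball `B(z,r1)`. Stage 2 (`n1 ≤ j < nu`): control
`- min (cd v) (RR F~_j - RR F_j)` on `B(z,r2)`. `F = mf F0 g`, `F~ = cst` (controlled heights), `F~_{j+1} = min 0 (RR F~_j + g_j + cu_j)`.

`Good`: (g1) `-KG - dd y z/8 ≤ RR F0 y`; (g2) `lppM (1/8)` of `±g` at `y` is `≤ Kn + dd y z/8`; (g3) oscillation over the first `n1` steps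
`≤ 1/4` on `B(z,r1)`; (g4) `|Σ ⟨control, noise⟩| ≤ K'`.

PROOF.
(a) `F_j(y) ≥ -KG - Kn - dd y z/4` for `1 ≤ j ≤ nu` and `RR F_j(y) ≥` the same for `0 ≤ j`: `mf_stay` with `c = Kn + dd y z/8`
    (`-Σ_{[i,j)} g(y) ≤ lpp(-g)` by `lpp_path` with the constant path).
(b) `F_j ≤ F~_j ≤ 0` by induction (`cu ≥ 0` in stage 1; in stage 2 `RR F~ + cu ≥ RR F`).
(c) `F~_j ≤ F_j + cup v j` for `j ≤ n1`; then `RR F~_j - RR F_j ≤ max 0 (cup v n1 - cd v (j - n1))` everywhere, by induction, using (d) outside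
    `B(z,r2)`; so `F~_nu = F_nu` as `cd (nu - n1) ≥ cup n1` (look at the last step: `RR F~ - RR F ≤ cd v` at `j = nu-1`, whole difference is removed).
(d) influence: by induction `F~_j(y) ≤ max (F_j y) (-(7/8)(dd y z - r1)^+ + W_j(y))`, `W_j = lpp (1/8) 0 g j`: for `y` in `B(z,r1)` the second entry is
    `≥ 0`; otherwise `cu_j(y) ≤ 0` and `RR F~_j(y) = F~_j(z') - dd y z'`, `W_{j+1}(y) ≥ W_j(z') - dd y z'/8 + g_j(y)` and
    `(dd z' z - r1)^+ + dd y z' ≥ (dd y z - r1)^+`. With (g2), (a): if `RR F_j(y) < RR F~_j(y)` then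
    `-KG-Kn-dd/4 < -(7/8)(dd-r1) + Kn + dd/8`, i.e. `dd/2 < (7/8) r1 + KG + 2Kn`, so `dd y z ≤ r2`.
(e) if `z = lin F0 g nu x nu` then `dd x z ≤ r0`: `mf_le_lin`, `gain_lin`, `F0 z ≤ 0`: `F_nu(x) ≤ -(7/8) len + Kn + dd x z/8` and (a) at `x`,
    `len ≥ dd x z`: `(1/2) dd ≤ KG + 2Kn`, `r0 ≥ 2KG + 4Kn`.
(f) the lineage of `F~` from `(x,nu)` is in `B(z,r1)` at time `n1`: let `y'` be its position. By `mf_le_lin` on `[n1,nu]` (controls `≤ 0`):
    `F_nu(x) = F~_nu(x) ≤ 0 - (7/8) dd x y' + Kn + dd x z/8`, so `dd x y' ≤ 2KG + 4Kn`, `dd y' z ≤ 4KG+8Kn ≤ r1`.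
(g) it is cut: let `y` in `B(z,r1)`. For `j ≤ n1`: `F~_j(y) ≥ min (-KG - r1/8 - 1/4 + cup v j) (-1/4)` (as in `mf_stay`, with (g3)). Let
    `j1` be the first `j` with `cup v j ≥ KG + r1/8`; `cup v j1 ≤ KG + r1/8 + 1`, so `cup v (n1 - j1) ≥ 3`. On `[j1,n1)`: `F~_j(y) ≥ -1/4 > -1`, so
    `am F~_j y = y` (`am_eq_self`): the lineage stays at `y`. If it were `η`-uncut there, `F~_{j+1}(y) ≥ F~_j(y) + g_j(y) + cup v - η`, hence
    `F~_{n1}(y) ≥ -1/4 - 1/4 + 3 - η n1 > 0`, contradiction (`η nu ≤ 1`).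
-/

open MeasureTheory ProbabilityTheory
open scoped ENNReal

namespace DynC

/-- parameters of the flip -/
structure FPar where
  v : ℝ
  η : ℝ
  cup : ℝ
  cd : ℝ
  KG : ℝ
  Kn : ℝ
  Kp : ℝ
  n1 : ℕ
  nu : ℕ
  r0 : ℕ
  r1 : ℕ
  r2 : ℕ
  hv : 0 < v
  hη : 0 < η
  hcup : 0 < cup
  hcd : 0 < cd
  hKG : 0 ≤ KG
  hKn : 0 ≤ Kn
  hKp : 0 ≤ Kp
  hn : n1 < nu
  hηn : η * nu ≤ 1
  hcv : cup * v ≤ 1
  hr0 : 2 * KG + 4 * Kn ≤ r0
  hr1 : 4 * KG + 8 * Kn ≤ r1
  hr2 : 2 * r1 + 2 * KG + 4 * Kn ≤ (r2 : ℝ)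
  hup : KG + r1 / 8 + 4 ≤ cup * (v * n1)
  hdn : cup * (v * n1) ≤ cd * (v * ((nu : ℝ) - n1))

variable {S : Type} [Fintype S] {D : ℕ} (M : MSet S D)

/-- control in units of the increments -/
noncomputable def cu (P : FPar) (z : S) (j : ℕ) (Ft F : S → ℝ) : S → ℝ := fun y =>
  if j < P.n1 then (if M.dd y z ≤ P.r1 then P.cup * P.v else 0)
  else if j < P.nu then
    (if M.dd y z ≤ P.r2 then -(min (P.cd * P.v) (M.RR Ft y - M.RR F y)) else 0)
  else 0

/-- controlled heights -/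
noncomputable def cst (P : FPar) (z : S) (F0 : S → ℝ) (g : ℕ → S → ℝ) : ℕ → S → ℝ
  | 0 => F0
  | j + 1 => M.mst (cst P z F0 g j)
      (fun y => g j y + cu M P z j (cst P z F0 g j) (M.mf F0 g j) y)

/-- the control along the path -/
noncomputable def cuP (P : FPar) (z : S) (F0 : S → ℝ) (g : ℕ → S → ℝ) (j : ℕ) : S → ℝ :=
  cu M P z j (cst M P z F0 g j) (M.mf F0 g j)

/-- good base point: deterministic part (increments `g`) -/
structure GoodD (P : FPar) (F0 : S → ℝ) (g : ℕ → S → ℝ) (z : S) : Prop where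
  g1 : ∀ y, -P.KG - M.dd y z / 8 ≤ M.RR F0 y
  g2 : ∀ y, M.lppM (1 / 8) (fun _ => 0) g P.nu y ≤ P.Kn + M.dd y z / 8
  g2' : ∀ y, M.lppM (1 / 8) (fun _ => 0) (-g) P.nu y ≤ P.Kn + M.dd y z / 8
  g3 : ∀ y, M.dd y z ≤ P.r1 → osc (fun j => g j y) P.n1 ≤ 1 / 4

/-- good base point, `ω` = noise with unit variance -/
def GoodW (P : FPar) (F0 : S → ℝ) (ω : ℕ → S → ℝ) (z : S) : Prop :=
  GoodD M P F0 (sc P.v ω) z ∧
    |∑ j ∈ Finset.range P.nu, ∑ y, (cuP M P z F0 (sc P.v ω) j y / Real.sqrt P.v) * ω j y| ≤ P.Kp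

private theorem MFd_cst_succ (P : FPar) (z : S) (F0 : S → ℝ) (g : ℕ → S → ℝ) (n : ℕ) :
    cst M P z F0 g (n + 1) = M.mst (cst M P z F0 g n)
      (fun y => g n y + cuP M P z F0 g n y) := rfl

private theorem MFd_mf_succ (X : S → ℝ) (g : ℕ → S → ℝ) (n : ℕ) (y : S) :
    M.mf X g (n + 1) y = min 0 (M.RR (M.mf X g n) y + g n y) := rfl

private theorem MFd_cst_succ' (P : FPar) (z : S) (F0 : S → ℝ) (g : ℕ → S → ℝ) (n : ℕ) (y : S) :
    cst M P z F0 g (n + 1) y =
      min 0 (M.RR (cst M P z F0 g n) y + (g n y + cuP M P z F0 g n y)) := rfl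

theorem cst_eq_mf (P : FPar) (z : S) (F0 : S → ℝ) (g : ℕ → S → ℝ) (n : ℕ) :
    cst M P z F0 g n = M.mf F0 (fun j y => g j y + cuP M P z F0 g j y) n := by
  induction n with
  | zero => rfl
  | succ n ih =>
    funext y
    rw [MFd_cst_succ', MFd_mf_succ, ih]

theorem flip_mono (P : FPar) (z : S) (F0 : S → ℝ) (g : ℕ → S → ℝ) (j : ℕ)
    (y : S) : M.mf F0 g j y ≤ cst M P z F0 g j y := by
  induction j generalizing y with
  | zero => exact le_rfl
  | succ j ih =>
    rw [MFd_cst_succ', MFd_mf_succ]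
    refine min_le_min le_rfl ?_
    have h1 : M.RR (M.mf F0 g j) y ≤ M.RR (cst M P z F0 g j) y := RR_mono M _ _ ih y
    have h2 : M.RR (M.mf F0 g j) y ≤ M.RR (cst M P z F0 g j) y + cuP M P z F0 g j y := by
      unfold cuP cu
      split_ifs
      · have := mul_pos P.hcup P.hv
        linarith
      · linarith
      · have := min_le_right (P.cd * P.v)
          (M.RR (cst M P z F0 g j) y - M.RR (M.mf F0 g j) y)
        linarith
      · linarith
      · linarith
    linarith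

private theorem MFd_RR_mono (P : FPar) (z : S) (F0 : S → ℝ) (g : ℕ → S → ℝ) (j : ℕ) (y : S) :
    M.RR (M.mf F0 g j) y ≤ M.RR (cst M P z F0 g j) y :=
  RR_mono M _ _ (flip_mono M P z F0 g j) y

/-- outside `B(z, r1)` the control is `≤ 0` -/
private theorem MFd_cuP_out (P : FPar) (z : S) (F0 : S → ℝ) (g : ℕ → S → ℝ) (j : ℕ) (y : S)
    (h : P.r1 < M.dd y z ∨ P.n1 ≤ j) : cuP M P z F0 g j y ≤ 0 := by
  have h1 := MFd_RR_mono M P z F0 g j y
  have h2 : 0 < P.cd * P.v := mul_pos P.hcd P.hv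
  unfold cuP cu
  split_ifs
  · omega
  · exact le_rfl
  · have : 0 ≤ min (P.cd * P.v) (M.RR (cst M P z F0 g j) y - M.RR (M.mf F0 g j) y) :=
      le_min h2.le (by linarith)
    linarith
  · exact le_rfl
  · exact le_rfl

private theorem MFd_neg_sum (g : ℕ → S → ℝ) (z y : S) (Kn : ℝ) (n : ℕ)
    (h : M.lppM (1 / 8) (fun _ => 0) (-g) n y ≤ Kn + M.dd y z / 8) {i j : ℕ} (hij : i ≤ j)
    (hj : j ≤ n) : -(Kn + M.dd y z / 8) ≤ ∑ l ∈ Finset.Ico i j, g l y := by
  have h1 := lpp_path M (1 / 8) (fun _ => 0) (fun _ => le_rfl) (-g) (fun _ => y) hij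
  have h2 := le_lppM M (1 / 8) (fun _ => 0) (-g) hj y
  have h3 : ∑ i ∈ Finset.Ico i j, ((-g) i y - 1 / 8 * (M.dd y y : ℝ)) =
      -∑ l ∈ Finset.Ico i j, g l y := by
    rw [← Finset.sum_neg_distrib]
    refine Finset.sum_congr rfl fun l _ => ?_
    rw [M.dd_self, Nat.cast_zero, mul_zero, sub_zero]
    rfl
  rw [h3] at h1
  linarith

theorem flip_low (P : FPar) (z : S) (F0 : S → ℝ) (g : ℕ → S → ℝ)
    (hG : GoodD M P F0 g z) (j : ℕ) (hj : j ≤ P.nu) (y : S) :
    -P.KG - P.Kn - M.dd y z / 4 ≤ M.RR (M.mf F0 g j) y ∧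
      (1 ≤ j → -P.KG - P.Kn - M.dd y z / 4 ≤ M.mf F0 g j y) := by
  have hKn := P.hKn
  have hKG := P.hKG
  have hdd : (0 : ℝ) ≤ M.dd y z := Nat.cast_nonneg _
  have h1 : 1 ≤ j → -P.KG - P.Kn - M.dd y z / 4 ≤ M.mf F0 g j y := by
    intro hj1
    have h2 := mf_stay M F0 g j hj1 y (P.Kn + M.dd y z / 8) (by positivity)
      fun i hi => MFd_neg_sum M g z y P.Kn P.nu (hG.g2' y) hi hj
    have h3 := hG.g1 y
    have h4 : -P.KG - M.dd y z / 8 ≤ min 0 (M.RR F0 y) := le_min (by linarith) h3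
    linarith
  refine ⟨?_, h1⟩
  rcases Nat.eq_zero_or_pos j with rfl | hj1
  · have h3 := hG.g1 y
    change -P.KG - P.Kn - M.dd y z / 4 ≤ M.RR F0 y
    linarith
  · exact (h1 hj1).trans (self_le_RR M _ y)

/-- positive part of `dd y z - r1` -/
private noncomputable def MFd_pp (P : FPar) (z y : S) : ℝ := max ((M.dd y z : ℝ) - P.r1) 0

private theorem MFd_pp_tri (P : FPar) (z y y' : S) :
    MFd_pp M P z y ≤ MFd_pp M P z y' + M.dd y y' := by
  unfold MFd_pp
  have h1 : (M.dd y z : ℝ) ≤ M.dd y y' + M.dd y' z := by exact_mod_cast M.dd_tri y y' z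
  have h2 : (0 : ℝ) ≤ M.dd y y' := Nat.cast_nonneg _
  refine max_le ?_ ?_
  · have := le_max_left ((M.dd y' z : ℝ) - P.r1) 0
    linarith
  · have := le_max_right ((M.dd y' z : ℝ) - P.r1) 0
    linarith

/-- influence -/
private theorem MFd_infl (P : FPar) (z : S) (F0 : S → ℝ) (g : ℕ → S → ℝ) (j : ℕ) (y : S) :
    cst M P z F0 g j y ≤ max (M.mf F0 g j y)
      (-(7 / 8 * MFd_pp M P z y) + M.lpp (1 / 8) (fun _ => 0) g j y) := by
  induction j generalizing y with
  | zero => exact le_max_left _ _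
  | succ j ih =>
    by_cases hy : M.dd y z ≤ P.r1
    · refine le_max_of_le_right ?_
      have h1 : MFd_pp M P z y = 0 := by
        unfold MFd_pp
        refine max_eq_right ?_
        have : (M.dd y z : ℝ) ≤ P.r1 := by exact_mod_cast hy
        linarith
      rw [h1, mul_zero, neg_zero, zero_add]
      refine le_trans ?_ (lpp_nonneg M _ _ (fun _ => le_rfl) g (j + 1) y)
      rw [MFd_cst_succ']
      exact min_le_left _ _
    · have hcu := MFd_cuP_out M P z F0 g j y (Or.inl (not_le.1 hy))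
      have hspec := am_spec M (cst M P z F0 g j) y
      obtain ⟨z', hz'⟩ : ∃ z', z' = M.am (cst M P z F0 g j) y := ⟨_, rfl⟩
      rw [← hz'] at hspec
      rcases le_max_iff.1 (ih z') with h1 | h1
      · refine le_max_of_le_left ?_
        rw [MFd_cst_succ', MFd_mf_succ]
        refine min_le_min le_rfl ?_
        have h2 := le_RR M (M.mf F0 g j) y z'
        linarith
      · refine le_max_of_le_right ?_
        have hW : M.lpp (1 / 8) (fun _ => 0) g j z' - 1 / 8 * M.dd y z' + g j y ≤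
            M.lpp (1 / 8) (fun _ => 0) g (j + 1) y := by
          change _ ≤ max 0 (max (M.lpp (1 / 8) (fun _ => 0) g j y + g j y)
            (M.Rq1 (1 / 8) (M.lpp (1 / 8) (fun _ => 0) g j) y + max (g j y) 0))
          by_cases hzy : y = z'
          · rw [← hzy, M.dd_self]
            refine le_max_of_le_right (le_max_of_le_left ?_)
            simp
          · refine le_max_of_le_right (le_max_of_le_right ?_)
            have h3 := le_Rq1 M (1 / 8) (M.lpp (1 / 8) (fun _ => 0) g j) y z'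
            have h4 : (1 : ℝ) ≤ M.dd y z' := by exact_mod_cast M.dd_pos y z' hzy
            rw [max_eq_left h4] at h3
            have h5 := le_max_left (g j y) 0
            linarith
        have hpp := MFd_pp_tri M P z y z'
        have h6 : cst M P z F0 g (j + 1) y ≤
            M.RR (cst M P z F0 g j) y + (g j y + cuP M P z F0 g j y) := by
          rw [MFd_cst_succ']
          exact min_le_right _ _
        linarith

theorem flip_infl (P : FPar) (z : S) (F0 : S → ℝ) (hF : ∀ y, F0 y ≤ 0) (g : ℕ → S → ℝ)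
    (hG : GoodD M P F0 g z) (j : ℕ) (hj : j ≤ P.nu) (y : S)
    (hlt : M.RR (M.mf F0 g j) y < M.RR (cst M P z F0 g j) y) : M.dd y z ≤ P.r2 := by
  have hspec := am_spec M (cst M P z F0 g j) y
  obtain ⟨z', hz'⟩ : ∃ z', z' = M.am (cst M P z F0 g j) y := ⟨_, rfl⟩
  rw [← hz'] at hspec
  rcases le_max_iff.1 (MFd_infl M P z F0 g j z') with h1 | h1
  · have h2 := le_RR M (M.mf F0 g j) y z'
    linarith
  · have hW : M.lpp (1 / 8) (fun _ => 0) g j z' ≤ P.Kn + M.dd z' z / 8 :=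
      (le_lppM M (1 / 8) (fun _ => 0) g hj z').trans (hG.g2 z')
    have hlow := (flip_low M P z F0 g hG j hj y).1
    have hpp := MFd_pp_tri M P z y z'
    have hpp2 : (M.dd y z : ℝ) - P.r1 ≤ MFd_pp M P z y := le_max_left _ _
    have htri : (M.dd z' z : ℝ) ≤ M.dd y z' + M.dd y z := by
      have h3 := M.dd_tri z' y z
      rw [M.dd_comm z' y] at h3
      exact_mod_cast h3
    have hr2 := P.hr2
    have hr1 : (0 : ℝ) ≤ P.r1 := Nat.cast_nonneg _
    have h5 : (M.dd y z : ℝ) ≤ P.r2 := by linarith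
    exact_mod_cast h5

/-- the difference after stage 1 -/
private theorem MFd_up (P : FPar) (z : S) (F0 : S → ℝ) (g : ℕ → S → ℝ) (j : ℕ) (hj : j ≤ P.n1)
    (y : S) : cst M P z F0 g j y ≤ M.mf F0 g j y + P.cup * P.v * j := by
  induction j generalizing y with
  | zero =>
    rw [Nat.cast_zero, mul_zero, add_zero]
    exact le_rfl
  | succ j ih =>
    have h1 := RR_add M _ _ _ (ih (by omega)) y
    have hcv : 0 < P.cup * P.v := mul_pos P.hcup P.hv
    have h2 : cuP M P z F0 g j y ≤ P.cup * P.v := by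
      unfold cuP cu
      rw [if_pos (show j < P.n1 by omega)]
      split_ifs
      · exact le_rfl
      · exact hcv.le
    rw [MFd_cst_succ', MFd_mf_succ]
    have h3 : (0 : ℝ) ≤ P.cup * P.v * ((j + 1 : ℕ) : ℝ) := by positivity
    rw [← min_add_add_right, zero_add]
    refine min_le_min h3 ?_
    push_cast
    linarith

/-- the difference in stage 2 -/
private theorem MFd_down (P : FPar) (z : S) (F0 : S → ℝ) (hF : ∀ y, F0 y ≤ 0) (g : ℕ → S → ℝ)
    (hG : GoodD M P F0 g z) (i : ℕ) (hi : P.n1 + i ≤ P.nu) (y : S) :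
    cst M P z F0 g (P.n1 + i) y ≤ M.mf F0 g (P.n1 + i) y +
      max 0 (P.cup * P.v * P.n1 - P.cd * P.v * i) := by
  induction i generalizing y with
  | zero =>
    rw [add_zero, Nat.cast_zero, mul_zero, sub_zero]
    have h1 := MFd_up M P z F0 g P.n1 le_rfl y
    have h2 := le_max_right 0 (P.cup * P.v * (P.n1 : ℝ))
    linarith
  | succ i ih =>
    have h1 := RR_add M _ _ _ (ih (by omega)) y
    have hcd : 0 < P.cd * P.v := mul_pos P.hcd P.hv
    obtain ⟨d, hd⟩ : ∃ d, d = max 0 (P.cup * P.v * P.n1 - P.cd * P.v * i) := ⟨_, rfl⟩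
    obtain ⟨d', hd'⟩ : ∃ d', d' = max 0 (P.cup * P.v * P.n1 - P.cd * P.v * ((i + 1 : ℕ) : ℝ)) :=
      ⟨_, rfl⟩
    have hd0 : 0 ≤ d' := by
      rw [hd']
      exact le_max_left _ _
    have hdd' : d - P.cd * P.v ≤ d' := by
      rw [hd, hd', sub_le_iff_le_add]
      refine max_le ?_ ?_
      · have := le_max_left 0 (P.cup * P.v * P.n1 - P.cd * P.v * ((i + 1 : ℕ) : ℝ))
        linarith
      · have := le_max_right 0 (P.cup * P.v * P.n1 - P.cd * P.v * ((i + 1 : ℕ) : ℝ))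
        push_cast at this ⊢
        linarith
    rw [← hd] at h1
    rw [← hd', ← add_assoc, MFd_cst_succ', MFd_mf_succ, ← min_add_add_right, zero_add]
    refine min_le_min hd0 ?_
    have hmono := MFd_RR_mono M P z F0 g (P.n1 + i) y
    by_cases hy : M.dd y z ≤ P.r2
    · have h2 : cuP M P z F0 g (P.n1 + i) y = -(min (P.cd * P.v)
          (M.RR (cst M P z F0 g (P.n1 + i)) y - M.RR (M.mf F0 g (P.n1 + i)) y)) := by
        unfold cuP cu
        rw [if_neg (show ¬ (P.n1 + i < P.n1) by omega), if_pos (show P.n1 + i < P.nu by omega),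
          if_pos hy]
      rw [h2]
      rcases min_choice (P.cd * P.v)
          (M.RR (cst M P z F0 g (P.n1 + i)) y - M.RR (M.mf F0 g (P.n1 + i)) y) with h3 | h3
      · rw [h3]
        linarith
      · rw [h3]
        linarith
    · have h2 : M.RR (cst M P z F0 g (P.n1 + i)) y ≤ M.RR (M.mf F0 g (P.n1 + i)) y := by
        by_contra hcon
        exact hy (flip_infl M P z F0 hF g hG (P.n1 + i) (by omega) y (not_le.1 hcon))
      have h3 := MFd_cuP_out M P z F0 g (P.n1 + i) y (Or.inr (by omega))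
      linarith

theorem flip_end (P : FPar) (z : S) (F0 : S → ℝ) (hF : ∀ y, F0 y ≤ 0) (g : ℕ → S → ℝ)
    (hG : GoodD M P F0 g z) : cst M P z F0 g P.nu = M.mf F0 g P.nu := by
  funext y
  refine le_antisymm ?_ (flip_mono M P z F0 g P.nu y)
  have hn := P.hn
  have h1 := MFd_down M P z F0 hF g hG (P.nu - P.n1) (by omega) y
  have h2 : P.n1 + (P.nu - P.n1) = P.nu := by omega
  rw [h2] at h1
  have h3 : max 0 (P.cup * P.v * P.n1 - P.cd * P.v * ((P.nu - P.n1 : ℕ) : ℝ)) = 0 := by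
    refine max_eq_left ?_
    rw [Nat.cast_sub hn.le]
    have h4 := P.hdn
    linarith
  rw [h3, add_zero] at h1
  exact h1

private theorem MFd_disp (P : FPar) (F0 : S → ℝ) (hF : ∀ y, F0 y ≤ 0) (g : ℕ → S → ℝ) (x : S)
    (hG : GoodD M P F0 g (M.lin F0 g P.nu x P.nu)) :
    (M.dd x (M.lin F0 g P.nu x P.nu) : ℝ) ≤ 2 * P.KG + 4 * P.Kn := by
  have hn := P.hn
  have h1 := mf_le_lin M F0 g P.nu x P.nu le_rfl
  have h2 := gain_lin M F0 g P.nu x P.nu le_rfl
  have h3 := dd_lin M F0 g P.nu x P.nu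
  have h4 := hG.g2 x
  have h5 := (flip_low M P _ F0 g hG P.nu le_rfl x).2 (by omega)
  rw [Finset.sum_sub_distrib, Nat.sub_self] at h1
  have h6 : M.mf F0 g 0 (M.lin F0 g P.nu x P.nu) ≤ 0 := hF _
  linarith

theorem flip_disp (P : FPar) (F0 : S → ℝ) (hF : ∀ y, F0 y ≤ 0) (g : ℕ → S → ℝ) (x : S)
    (hG : GoodD M P F0 g (M.lin F0 g P.nu x P.nu)) : M.dd x (M.lin F0 g P.nu x P.nu) ≤ P.r0 := by
  have h1 := (MFd_disp M P F0 hF g x hG).trans P.hr0
  exact_mod_cast h1

private theorem MFd_pos (P : FPar) (F0 : S → ℝ) (hF : ∀ y, F0 y ≤ 0) (g : ℕ → S → ℝ) (x z : S)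
    (hz : M.lin F0 g P.nu x P.nu = z) (hG : GoodD M P F0 g z) :
    M.dd (M.lin F0 (fun j y => g j y + cuP M P z F0 g j y) P.nu x (P.nu - P.n1)) z ≤ P.r1 := by
  have hn := P.hn
  obtain ⟨g', hg'⟩ : ∃ g' : ℕ → S → ℝ, g' = fun j y => g j y + cuP M P z F0 g j y := ⟨_, rfl⟩
  rw [← hg']
  obtain ⟨L, hL⟩ : ∃ L : ℕ → S, L = M.lin F0 g' P.nu x := ⟨_, rfl⟩
  have hL0 : L 0 = x := by rw [hL]; rfl
  have h1 := mf_le_lin M F0 g' P.nu x (P.nu - P.n1) (by omega)
  have hlen := dd_lin M F0 g' P.nu x (P.nu - P.n1)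
  rw [← hL] at h1 hlen ⊢
  have h2 : M.mf F0 g' P.nu x = M.mf F0 g P.nu x := by
    rw [hg', ← cst_eq_mf, flip_end M P z F0 hF g hG]
  have h3 : M.mf F0 g' (P.nu - (P.nu - P.n1)) (L (P.nu - P.n1)) ≤ 0 := mf_nonpos M F0 hF g' _ _
  have h4 : ∑ l ∈ Finset.range (P.nu - P.n1), (g' (P.nu - (l + 1)) (L l) -
      (M.dd (L l) (L (l + 1)) : ℝ)) ≤
      ∑ l ∈ Finset.range (P.nu - P.n1), ((g (P.nu - (l + 1)) (L l) -
      1 / 8 * (M.dd (L l) (L (l + 1)) : ℝ)) - 7 / 8 * (M.dd (L l) (L (l + 1)) : ℝ)) := by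
    refine Finset.sum_le_sum fun l hl => ?_
    have hl' := Finset.mem_range.1 hl
    have h5 := MFd_cuP_out M P z F0 g (P.nu - (l + 1)) (L l) (Or.inr (by omega))
    rw [hg']
    change g (P.nu - (l + 1)) (L l) + cuP M P z F0 g (P.nu - (l + 1)) (L l) - _ ≤ _
    linarith
  have h4' : ∑ l ∈ Finset.range (P.nu - P.n1), ((g (P.nu - (l + 1)) (L l) -
      1 / 8 * (M.dd (L l) (L (l + 1)) : ℝ)) - 7 / 8 * (M.dd (L l) (L (l + 1)) : ℝ)) =
      ∑ l ∈ Finset.range (P.nu - P.n1), (g (P.nu - (l + 1)) (L l) -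
      1 / 8 * (M.dd (L l) (L (l + 1)) : ℝ)) -
      7 / 8 * ∑ l ∈ Finset.range (P.nu - P.n1), (M.dd (L l) (L (l + 1)) : ℝ) := by
    rw [Finset.mul_sum]
    exact Finset.sum_sub_distrib (fun l => g (P.nu - (l + 1)) (L l) -
      1 / 8 * (M.dd (L l) (L (l + 1)) : ℝ)) (fun l => 7 / 8 * (M.dd (L l) (L (l + 1)) : ℝ))
  rw [h4'] at h4
  have h5 := lpp_path M (1 / 8) (fun _ => 0) (fun _ => le_rfl) g (fun i => L (P.nu - i)) hn.le
  have h6 : ∑ i ∈ Finset.Ico P.n1 P.nu, (g i (L (P.nu - (i + 1))) -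
      1 / 8 * (M.dd (L (P.nu - i)) (L (P.nu - (i + 1))) : ℝ)) =
      ∑ l ∈ Finset.range (P.nu - P.n1), (g (P.nu - (l + 1)) (L l) -
      1 / 8 * (M.dd (L l) (L (l + 1)) : ℝ)) := by
    refine Finset.sum_nbij' (fun i => P.nu - (i + 1)) (fun l => P.nu - (l + 1)) ?_ ?_ ?_ ?_ ?_
    · intro i hi
      rw [Finset.mem_Ico] at hi
      rw [Finset.mem_range]
      omega
    · intro l hl
      rw [Finset.mem_range] at hl
      rw [Finset.mem_Ico]
      omega
    · intro i hi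
      rw [Finset.mem_Ico] at hi
      omega
    · intro l hl
      rw [Finset.mem_range] at hl
      omega
    · intro i hi
      rw [Finset.mem_Ico] at hi
      have h7 : P.nu - (P.nu - (i + 1) + 1) = i := by omega
      have h8 : P.nu - i = P.nu - (i + 1) + 1 := by omega
      rw [h7, h8, M.dd_comm]
  rw [h6, Nat.sub_self, hL0] at h5
  have h7 := (le_lppM M (1 / 8) (fun _ => 0) g (le_refl P.nu) x).trans (hG.g2 x)
  have h8 := (flip_low M P z F0 g hG P.nu le_rfl x).2 (by omega)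
  have h9 : (M.dd x z : ℝ) ≤ 2 * P.KG + 4 * P.Kn := by
    have := MFd_disp M P F0 hF g x (hz.symm ▸ hG)
    rwa [hz] at this
  have h10 : (M.dd (L (P.nu - P.n1)) z : ℝ) ≤ M.dd x (L (P.nu - P.n1)) + M.dd x z := by
    have := M.dd_tri (L (P.nu - P.n1)) x z
    rw [M.dd_comm (L (P.nu - P.n1)) x] at this
    exact_mod_cast this
  have h11 := P.hr1
  have h12 : (M.dd (L (P.nu - P.n1)) z : ℝ) ≤ P.r1 := by linarith
  exact_mod_cast h12

/-- the height at a site with a constant control -/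
private theorem MFd_walk (P : FPar) (z : S) (F0 : S → ℝ) (g : ℕ → S → ℝ) (y : S)
    (hy : M.dd y z ≤ P.r1) (j : ℕ) (hj1 : 1 ≤ j) (hj : j ≤ P.n1) (c : ℝ)
    (h0 : c ≤ M.RR F0 y + ∑ l ∈ Finset.Ico 0 j, (g l y + P.cup * P.v))
    (h : ∀ i, 1 ≤ i → i ≤ j → c ≤ ∑ l ∈ Finset.Ico i j, (g l y + P.cup * P.v)) :
    c ≤ cst M P z F0 g j y := by
  induction j, hj1 using Nat.le_induction generalizing c with
  | base =>
    have h1 := h 1 le_rfl le_rfl
    rw [Finset.Ico_self, Finset.sum_empty] at h1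
    rw [Nat.Ico_zero_eq_range, Finset.sum_range_one] at h0
    have hcu : cuP M P z F0 g 0 y = P.cup * P.v := by
      unfold cuP cu
      rw [if_pos (show 0 < P.n1 by omega), if_pos hy]
    change c ≤ cst M P z F0 g (0 + 1) y
    rw [MFd_cst_succ', hcu]
    exact le_min h1 h0
  | succ j hj1 ih =>
    have h1 := h (j + 1) (by omega) le_rfl
    rw [Finset.Ico_self, Finset.sum_empty] at h1
    have hcu : cuP M P z F0 g j y = P.cup * P.v := by
      unfold cuP cu
      rw [if_pos (show j < P.n1 by omega), if_pos hy]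
    have h2 : c - (g j y + P.cup * P.v) ≤ cst M P z F0 g j y := by
      refine ih (by omega) _ ?_ ?_
      · rw [Finset.sum_Ico_succ_top (Nat.zero_le _)] at h0
        linarith
      · intro i hi1 hi
        have h3 := h i hi1 (by omega)
        rw [Finset.sum_Ico_succ_top hi] at h3
        linarith
    have h3 := self_le_RR M (cst M P z F0 g j) y
    rw [MFd_cst_succ', hcu]
    exact le_min h1 (by linarith)

theorem flip_cut (P : FPar) (F0 : S → ℝ) (hF : ∀ y, F0 y ≤ 0) (g : ℕ → S → ℝ) (x z : S)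
    (hz : M.lin F0 g P.nu x P.nu = z) (hG : GoodD M P F0 g z) :
    ¬ M.uncut P.η F0 (fun j y => g j y + cuP M P z F0 g j y) P.nu 0 x := by
  classical
  intro hun
  have hn := P.hn
  have hcv : 0 < P.cup * P.v := mul_pos P.hcup P.hv
  have hcv1 := P.hcv
  have hKG := P.hKG
  have hr1 : (0 : ℝ) ≤ P.r1 := Nat.cast_nonneg _
  have hpos := MFd_pos M P F0 hF g x z hz hG
  obtain ⟨g', hg'⟩ : ∃ g' : ℕ → S → ℝ, g' = fun j y => g j y + cuP M P z F0 g j y := ⟨_, rfl⟩
  rw [← hg'] at hpos hun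
  obtain ⟨y, hy⟩ : ∃ y, y = M.lin F0 g' P.nu x (P.nu - P.n1) := ⟨_, rfl⟩
  rw [← hy] at hpos
  have hcst : ∀ j, M.mf F0 g' j = cst M P z F0 g j := fun j => by rw [cst_eq_mf, hg']
  have hcst0 : ∀ j y, cst M P z F0 g j y ≤ 0 := by
    intro j y
    rw [← hcst]
    exact mf_nonpos M F0 hF g' j y
  have hosc : ∀ i j, i ≤ j → j ≤ P.n1 → -(1 / 4) ≤ ∑ l ∈ Finset.Ico i j, g l y := by
    intro i j hij hj
    have h1 := sum_le_osc (fun j => g j y) hij hj
    have h2 := hG.g3 y hpos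
    have h3 := neg_abs_le (∑ l ∈ Finset.Ico i j, g l y)
    linarith
  -- the time j1
  obtain ⟨c0, hc0⟩ : ∃ c0, c0 = P.KG + P.r1 / 8 := ⟨_, rfl⟩
  have hc00 : 0 ≤ c0 := by rw [hc0]; positivity
  have hup : c0 + 4 ≤ P.cup * P.v * P.n1 := by
    have := P.hup
    rw [hc0]
    linarith
  have hn1 : 1 ≤ P.n1 := by
    by_contra hcon
    have h1 : P.n1 = 0 := by omega
    rw [h1, Nat.cast_zero, mul_zero] at hup
    linarith
  have hex : ∃ j : ℕ, 1 ≤ j ∧ c0 ≤ P.cup * P.v * j := ⟨P.n1, hn1, by linarith⟩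
  obtain ⟨j1, ⟨hj1, hj1'⟩, hmin⟩ : ∃ j1 : ℕ, (1 ≤ j1 ∧ c0 ≤ P.cup * P.v * j1) ∧
      ∀ m < j1, ¬ (1 ≤ m ∧ c0 ≤ P.cup * P.v * m) :=
    ⟨Nat.find hex, Nat.find_spec hex, fun m hm => Nat.find_min hex hm⟩
  have hj1n : j1 ≤ P.n1 := by
    by_contra hcon
    exact hmin P.n1 (not_le.1 hcon) ⟨hn1, by linarith⟩
  have hj1u : P.cup * P.v * j1 ≤ c0 + 1 := by
    rcases Nat.lt_or_ge 1 j1 with h1 | h1
    · have h2 := hmin (j1 - 1) (by omega)
      have h3 : ¬ (c0 ≤ P.cup * P.v * ((j1 - 1 : ℕ) : ℝ)) := fun h4 => h2 ⟨by omega, h4⟩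
      rw [Nat.cast_sub hj1, Nat.cast_one] at h3
      linarith
    · have h2 : j1 = 1 := by omega
      rw [h2, Nat.cast_one, mul_one]
      linarith
  -- lower bound of the heights
  have hlow : ∀ j, j1 ≤ j → j ≤ P.n1 → -(1 / 4) ≤ cst M P z F0 g j y := by
    intro j hj hjn
    refine MFd_walk M P z F0 g y hpos j (by omega) hjn _ ?_ ?_
    · have h1 := hG.g1 y
      have h2 := hosc 0 j (Nat.zero_le _) hjn
      have h3 : (M.dd y z : ℝ) ≤ P.r1 := by exact_mod_cast hpos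
      rw [Finset.sum_add_distrib, Finset.sum_const, Nat.card_Ico, nsmul_eq_mul, Nat.sub_zero]
      have h4 : P.cup * P.v * j1 ≤ P.cup * P.v * j :=
        mul_le_mul_of_nonneg_left (by exact_mod_cast hj) hcv.le
      linarith
    · intro i _ hi
      have h2 := hosc i j hi hjn
      rw [Finset.sum_add_distrib, Finset.sum_const, nsmul_eq_mul]
      have : 0 ≤ ((Finset.Ico i j).card : ℝ) * (P.cup * P.v) := by positivity
      linarith
  -- the lineage stays at `y`
  have hlin : ∀ k, k ≤ P.n1 - j1 → M.lin F0 g' P.nu x (P.nu - P.n1 + k) = y := by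
    intro k
    induction k with
    | zero =>
      intro _
      rw [add_zero]
      exact hy.symm
    | succ k ih =>
      intro hk
      have h1 := ih (by omega)
      change M.am (M.mf F0 g' (P.nu - (P.nu - P.n1 + k + 1)))
        (M.lin F0 g' P.nu x (P.nu - P.n1 + k)) = y
      have h2 : P.nu - (P.nu - P.n1 + k + 1) = P.n1 - (k + 1) := by omega
      rw [h1, h2, hcst]
      refine am_eq_self M _ (hcst0 _) y ?_
      have h3 := hlow (P.n1 - (k + 1)) (by omega) (by omega)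
      linarith
  -- no cut: the heights grow
  have hstep : ∀ j, j1 ≤ j → j < P.n1 →
      cst M P z F0 g j y + g j y + P.cup * P.v - P.η ≤ cst M P z F0 g (j + 1) y := by
    intro j hj hjn
    have h1 := hun (P.nu - (j + 1)) (by omega)
    have h2 : P.nu - (P.nu - (j + 1) + 1) = j := by omega
    have h3 : M.lin F0 g' P.nu x (P.nu - (j + 1)) = y := by
      have := hlin (P.n1 - (j + 1)) (by omega)
      rwa [show P.nu - P.n1 + (P.n1 - (j + 1)) = P.nu - (j + 1) by omega] at this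
    rw [h2, h3, hcst] at h1
    have hcu : cuP M P z F0 g j y = P.cup * P.v := by
      unfold cuP cu
      rw [if_pos hjn, if_pos hpos]
    have h4 : g' j y = g j y + P.cup * P.v := by
      rw [hg']
      change g j y + cuP M P z F0 g j y = _
      rw [hcu]
    rw [h4] at h1
    have h5 := self_le_RR M (cst M P z F0 g j) y
    have hη := P.hη
    rw [MFd_cst_succ', hcu]
    exact le_min (by linarith) (by linarith)
  have hgrow : ∀ m, j1 + m ≤ P.n1 → cst M P z F0 g j1 y + ∑ l ∈ Finset.Ico j1 (j1 + m), g l y +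
      (P.cup * P.v - P.η) * m ≤ cst M P z F0 g (j1 + m) y := by
    intro m
    induction m with
    | zero =>
      intro _
      rw [add_zero, Finset.Ico_self, Finset.sum_empty, Nat.cast_zero, mul_zero, add_zero, add_zero]
    | succ m ih =>
      intro hm
      have h1 := ih (by omega)
      have h2 := hstep (j1 + m) (by omega) (by omega)
      rw [← add_assoc, Finset.sum_Ico_succ_top (by omega)]
      push_cast
      linarith
  have h1 := hgrow (P.n1 - j1) (by omega)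
  have h2 : j1 + (P.n1 - j1) = P.n1 := by omega
  rw [h2, Nat.cast_sub hj1n] at h1
  have h3 := hlow j1 le_rfl hj1n
  have h4 := hosc j1 P.n1 hj1n le_rfl
  have h5 := hcst0 P.n1 y
  have h6 : P.η * ((P.n1 : ℝ) - j1) ≤ 1 := by
    refine le_trans (mul_le_mul_of_nonneg_left ?_ P.hη.le) P.hηn
    have h7 : (0 : ℝ) ≤ j1 := Nat.cast_nonneg _
    have h8 : (P.n1 : ℝ) ≤ P.nu := by exact_mod_cast hn.le
    linarith
  linarith

theorem cuP_bound (P : FPar) (z : S) (F0 : S → ℝ) (g : ℕ → S → ℝ) (j : ℕ) (y : S) :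
    |cuP M P z F0 g j y| ≤ max P.cup P.cd * P.v ∧ (P.r2 < M.dd y z → cuP M P z F0 g j y = 0) ∧
      (P.nu ≤ j → cuP M P z F0 g j y = 0) := by
  have hv := P.hv
  have h1 := MFd_RR_mono M P z F0 g j y
  have hcu : 0 < P.cup * P.v := mul_pos P.hcup P.hv
  have hcd : 0 < P.cd * P.v := mul_pos P.hcd P.hv
  have h2 : P.cup * P.v ≤ max P.cup P.cd * P.v :=
    mul_le_mul_of_nonneg_right (le_max_left _ _) hv.le
  have h3 : P.cd * P.v ≤ max P.cup P.cd * P.v :=
    mul_le_mul_of_nonneg_right (le_max_right _ _) hv.le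
  have hn := P.hn
  refine ⟨?_, ?_, ?_⟩
  · unfold cuP cu
    split_ifs
    · rw [abs_of_pos hcu]
      exact h2
    · rw [abs_zero]
      linarith
    · rw [abs_neg, abs_of_nonneg (le_min hcd.le (by linarith))]
      exact (min_le_left _ _).trans h3
    · rw [abs_zero]
      linarith
    · rw [abs_zero]
      linarith
  · intro h4
    have hr2 := P.hr2
    have hKG := P.hKG
    have hKn := P.hKn
    have hr1 : (0 : ℝ) ≤ P.r1 := Nat.cast_nonneg _
    have h5 : (P.r1 : ℝ) ≤ P.r2 := by linarith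
    have h6 : P.r1 ≤ P.r2 := by exact_mod_cast h5
    unfold cuP cu
    rw [if_neg (show ¬ M.dd y z ≤ P.r1 by omega), if_neg (show ¬ M.dd y z ≤ P.r2 by omega)]
    split_ifs <;> rfl
  · intro h4
    unfold cuP cu
    rw [if_neg (show ¬ j < P.n1 by omega), if_neg (show ¬ j < P.nu by omega)]

/-- total energy of the control -/
theorem cuP_energy (P : FPar) (z : S) (F0 : S → ℝ) (g : ℕ → S → ℝ) :
    ∑ j ∈ Finset.range P.nu, ∑ y, (cuP M P z F0 g j y / Real.sqrt P.v) ^ 2 ≤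
      (max P.cup P.cd) ^ 2 * (P.v * P.nu) * (2 * P.r2 + 1) ^ D := by
  classical
  have hv := P.hv
  have hterm : ∀ j y, (cuP M P z F0 g j y / Real.sqrt P.v) ^ 2 ≤
      if M.dd y z ≤ P.r2 then (max P.cup P.cd) ^ 2 * P.v else 0 := by
    intro j y
    obtain ⟨h1, h2, -⟩ := cuP_bound M P z F0 g j y
    split_ifs with h3
    · rw [div_pow, Real.sq_sqrt hv.le, div_le_iff₀ hv]
      calc (cuP M P z F0 g j y) ^ 2 = |cuP M P z F0 g j y| ^ 2 := (sq_abs _).symm
        _ ≤ (max P.cup P.cd * P.v) ^ 2 := pow_le_pow_left₀ (abs_nonneg _) h1 2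
        _ = (max P.cup P.cd) ^ 2 * P.v * P.v := by ring
    · rw [h2 (not_le.1 h3), zero_div]
      norm_num
  have hsum : ∀ j, ∑ y, (cuP M P z F0 g j y / Real.sqrt P.v) ^ 2 ≤
      (max P.cup P.cd) ^ 2 * P.v * (2 * P.r2 + 1) ^ D := by
    intro j
    refine (Finset.sum_le_sum fun y _ => hterm j y).trans ?_
    rw [← Finset.sum_filter, Finset.sum_const, nsmul_eq_mul, mul_comm]
    refine mul_le_mul_of_nonneg_left ?_ (by positivity)
    have h1 := M.growth z P.r2 (Finset.univ.filter fun y => M.dd y z ≤ P.r2) (by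
      intro y hy
      rw [M.dd_comm]
      exact (Finset.mem_filter.1 hy).2)
    exact_mod_cast h1
  refine (Finset.sum_le_sum fun j _ => hsum j).trans (le_of_eq ?_)
  rw [Finset.sum_const, Finset.card_range, nsmul_eq_mul]
  ring

private theorem MFd_meas (P : FPar) (z : S) (j : ℕ)
    (h : ∀ y, Measurable (fun p : (S → ℝ) × (ℕ → S → ℝ) => cst M P z p.1 p.2 j y)) (y : S) :
    Measurable (fun p : (S → ℝ) × (ℕ → S → ℝ) => cuP M P z p.1 p.2 j y) := by
  have h1 : Measurable (fun p : (S → ℝ) × (ℕ → S → ℝ) => M.RR (cst M P z p.1 p.2 j) y) :=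
    (measurable_RR M y).comp (measurable_pi_lambda _ fun y' => h y')
  have h2 : Measurable (fun p : (S → ℝ) × (ℕ → S → ℝ) => M.RR (M.mf p.1 p.2 j) y) :=
    (measurable_RR M y).comp (measurable_pi_lambda _ fun y' => measurable_mf M j y')
  unfold cuP cu
  by_cases h3 : j < P.n1
  · simp only [if_pos h3]
    exact measurable_const
  · simp only [if_neg h3]
    by_cases h4 : j < P.nu
    · simp only [if_pos h4]
      by_cases h5 : M.dd y z ≤ P.r2
      · simp only [if_pos h5]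
        exact (measurable_const.min (h1.sub h2)).neg
      · simp only [if_neg h5]
        exact measurable_const
    · simp only [if_neg h4]
      exact measurable_const

private theorem MFd_meas_cst (P : FPar) (z : S) (j : ℕ) (y : S) :
    Measurable (fun p : (S → ℝ) × (ℕ → S → ℝ) => cst M P z p.1 p.2 j y) := by
  induction j generalizing y with
  | zero => exact (measurable_pi_apply y).comp measurable_fst
  | succ j ih =>
    have h1 : Measurable (fun p : (S → ℝ) × (ℕ → S → ℝ) => M.RR (cst M P z p.1 p.2 j) y) :=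
      (measurable_RR M y).comp (measurable_pi_lambda _ fun y' => ih y')
    have h2 := MFd_meas M P z j ih y
    have h3 : Measurable (fun p : (S → ℝ) × (ℕ → S → ℝ) => p.2 j y) :=
      (measurable_pi_apply y).comp ((measurable_pi_apply j).comp measurable_snd)
    simp only [MFd_cst_succ']
    exact measurable_const.min (h1.add (h3.add h2))

theorem measurable_cuP (P : FPar) (z : S) (j : ℕ) (y : S) :
    Measurable (fun p : (S → ℝ) × (ℕ → S → ℝ) => cuP M P z p.1 p.2 j y) :=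
  MFd_meas M P z j (fun y' => MFd_meas_cst M P z j y') y

end DynC
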