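import Pool.Agent.Lib_MP_36b788c.MFd

/-!
# Height model: the flip inequality

PROOF of `flip_ineq`. Fix `F ≤ 0`, `x`, `ψ ≥ 0`. For a site `z` with `dd x z ≤ r0` let `v_j = cuP / √v` (adapted, bounded, energy `≤ Q`, `Q = max(cup,cd)² v nu (2 r2+1)^D`,
`cuP_energy`), and `Φ(ω) = 1{¬ uncut η F (sc v ω) nu 0 x} ψ(mf F (sc v ω) nu)`. `sc v (ω + v_j) = sc v ω + cuP`. On
`A_z = {uncut, lin = z, Good z}`: `mf F (sc v (shft ω)) nu = cst nu = mf F (sc v ω) nu` (`cst_eq_mf`, `flip_end`), `¬ uncut` for the shifted noise (`flip_cut`), and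
`logZ = -Σ⟨v_j,ω_j⟩ - Σ|v_j|²/2 ≥ -K' - Q/2` (g4). Hence `1_{A_z} ψ(mf F (sc v ω) nu) ≤ e^{K'+Q/2} Φ(shft ω) e^{logZ}`, and by `shift_lintegral` its expectation is
`≤ e^{K'+Q/2} E Φ`. By `flip_disp` only `z` with `dd x z ≤ r0` occur, at most `(2 r0+1)^D` (`growth`). So `e^c = (2 r0+1)^D e^{K'+Q/2}`.
`good_noise`: for fixed `F, z`: the probability that (g2), (g2'), (g3) or (g4) fails. (g2): `Σ_y exp(C(nu v+1) - λ0 (Kn + dd y z/8))`; (g3): at most `(2 r1+1)^D` sites,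
`osc_tail_nz`; (g4): `adapted_tail`.
-/

open MeasureTheory ProbabilityTheory
open scoped ENNReal

namespace DynC

/-- `log` of the flip constant -/
noncomputable def flipC (D : ℕ) (P : FPar) : ℝ :=
  D * Real.log (2 * P.r0 + 1) + P.Kp +
    (max P.cup P.cd) ^ 2 * (P.v * P.nu) * (2 * P.r2 + 1) ^ D / 2

private theorem MFd2_measurable_sc {S : Type} (v : ℝ) :
    Measurable (fun ω : ℕ → S → ℝ => sc v ω) := by
  unfold sc
  exact measurable_pi_lambda _ fun j => measurable_pi_lambda _ fun x =>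
    measurable_const.mul ((measurable_pi_apply x).comp (measurable_pi_apply j))

private theorem MFd2_measurable_pmax {α : Type} [MeasurableSpace α] (b : α → ℕ → ℝ)
    (hb : ∀ j, Measurable (fun a => b a j)) (n : ℕ) : Measurable (fun a => pmax (b a) n) := by
  unfold pmax
  exact Finset.measurable_range_sup'' fun m _ => Finset.measurable_sum _ fun j _ => hb j

private theorem MFd2_measurable_osc {α : Type} [MeasurableSpace α] (b : α → ℕ → ℝ)
    (hb : ∀ j, Measurable (fun a => b a j)) (n : ℕ) : Measurable (fun a => osc (b a) n) :=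
  (MFd2_measurable_pmax b hb n).add (MFd2_measurable_pmax (fun a j => -b a j)
    (fun j => (hb j).neg) n)

/-- the control in units of the noise -/
private noncomputable def MFd2_v {S : Type} [Fintype S] {D : ℕ} (M : MSet S D) (P : FPar)
    (F : S → ℝ) (z : S) (j : ℕ) (ω : ℕ → S → ℝ) : S → ℝ :=
  fun y => cuP M P z F (sc P.v ω) j y / Real.sqrt P.v

private theorem MFd2_measurable_cuP {S : Type} [Fintype S] {D : ℕ} (M : MSet S D) (P : FPar)
    (z : S) (j : ℕ) (y : S) :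
    Measurable (fun p : (S → ℝ) × (ℕ → S → ℝ) =>
      cuP M P z p.1 (sc P.v p.2) j y / Real.sqrt P.v) :=
  ((measurable_cuP M P z j y).comp
    (measurable_fst.prodMk ((MFd2_measurable_sc P.v).comp measurable_snd))).div_const _

private theorem MFd2_measurable_v {S : Type} [Fintype S] {D : ℕ} (M : MSet S D) (P : FPar)
    (F : S → ℝ) (z : S) (j : ℕ) : Measurable (MFd2_v M P F z j) := by
  refine measurable_pi_lambda _ fun y => ?_
  have h1 : Measurable (fun ω : ℕ → S → ℝ => ((F, ω) : (S → ℝ) × (ℕ → S → ℝ))) :=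
    measurable_const.prodMk measurable_id
  have h2 := (MFd2_measurable_cuP M P z j y).comp h1
  exact h2

theorem measurableSet_GoodW {S : Type} [Fintype S] {D : ℕ} (M : MSet S D) (P : FPar) (z : S) :
    MeasurableSet {p : (S → ℝ) × (ℕ → S → ℝ) | GoodW M P p.1 p.2 z} := by
  have hsc : Measurable (fun p : (S → ℝ) × (ℕ → S → ℝ) => sc P.v p.2) :=
    (MFd2_measurable_sc P.v).comp measurable_snd
  have hset : {p : (S → ℝ) × (ℕ → S → ℝ) | GoodW M P p.1 p.2 z} =
      (((⋂ y : S, {p : (S → ℝ) × (ℕ → S → ℝ) | -P.KG - M.dd y z / 8 ≤ M.RR p.1 y}) ∩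
        ((⋂ y : S, {p : (S → ℝ) × (ℕ → S → ℝ) |
          M.lppM (1 / 8) (fun _ => 0) (sc P.v p.2) P.nu y ≤ P.Kn + M.dd y z / 8}) ∩
        (⋂ y : S, {p : (S → ℝ) × (ℕ → S → ℝ) |
          M.lppM (1 / 8) (fun _ => 0) (-(sc P.v p.2)) P.nu y ≤ P.Kn + M.dd y z / 8}))) ∩
        (⋂ y : S, ⋂ _ : M.dd y z ≤ P.r1, {p : (S → ℝ) × (ℕ → S → ℝ) |
          osc (fun j => sc P.v p.2 j y) P.n1 ≤ 1 / 4})) ∩
        {p : (S → ℝ) × (ℕ → S → ℝ) | |∑ j ∈ Finset.range P.nu, ∑ y,
          (cuP M P z p.1 (sc P.v p.2) j y / Real.sqrt P.v) * p.2 j y| ≤ P.Kp} := by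
    ext p
    simp only [Set.mem_ofPred_eq, Set.mem_inter_iff, Set.mem_iInter]
    constructor
    · rintro ⟨⟨h1, h2, h3, h4⟩, h5⟩
      exact ⟨⟨⟨h1, h2, h3⟩, h4⟩, h5⟩
    · rintro ⟨⟨⟨h1, h2, h3⟩, h4⟩, h5⟩
      exact ⟨⟨h1, h2, h3, h4⟩, h5⟩
  rw [hset]
  refine MeasurableSet.inter (MeasurableSet.inter (MeasurableSet.inter ?_
    (MeasurableSet.inter ?_ ?_)) ?_) ?_
  · exact MeasurableSet.iInter fun y =>
      measurableSet_le measurable_const ((measurable_RR M y).comp measurable_fst)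
  · exact MeasurableSet.iInter fun y =>
      measurableSet_le ((measurable_lppM M (1 / 8) (fun _ => 0) P.nu y).comp hsc) measurable_const
  · exact MeasurableSet.iInter fun y =>
      measurableSet_le ((measurable_lppM M (1 / 8) (fun _ => 0) P.nu y).comp hsc.neg)
        measurable_const
  · refine MeasurableSet.iInter fun y => MeasurableSet.iInter fun _ => ?_
    refine measurableSet_le ?_ measurable_const
    refine MFd2_measurable_osc (fun (p : (S → ℝ) × (ℕ → S → ℝ)) j => sc P.v p.2 j y)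
      (fun j => ?_) P.n1
    have h1 : Measurable fun g : ℕ → S → ℝ => g j y :=
      (measurable_pi_apply y).comp (measurable_pi_apply j)
    exact h1.comp hsc
  · refine measurableSet_le ?_ measurable_const
    simp only [← Real.norm_eq_abs]
    refine Measurable.norm ?_
    refine Finset.measurable_sum _ fun j _ => Finset.measurable_sum _ fun y _ => ?_
    have h1 : Measurable fun g : ℕ → S → ℝ => g j y :=
      (measurable_pi_apply y).comp (measurable_pi_apply j)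
    exact (MFd2_measurable_cuP M P z j y).mul (h1.comp measurable_snd)

private theorem MFd2_cst_congr {S : Type} [Fintype S] {D : ℕ} (M : MSet S D) (P : FPar) (z : S)
    (F0 : S → ℝ) (g g' : ℕ → S → ℝ) (n : ℕ) (h : ∀ j, j < n → g j = g' j) :
    cst M P z F0 g n = cst M P z F0 g' n := by
  induction n with
  | zero => rfl
  | succ n ih =>
    change M.mst (cst M P z F0 g n)
        (fun y => g n y + cu M P z n (cst M P z F0 g n) (M.mf F0 g n) y) =
      M.mst (cst M P z F0 g' n)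
        (fun y => g' n y + cu M P z n (cst M P z F0 g' n) (M.mf F0 g' n) y)
    rw [ih (fun j hj => h j (by omega)), mf_congr M F0 g g' n (fun j hj => h j (by omega)),
      h n (by omega)]

private theorem MFd2_cuP_congr {S : Type} [Fintype S] {D : ℕ} (M : MSet S D) (P : FPar) (z : S)
    (F0 : S → ℝ) (g g' : ℕ → S → ℝ) (n : ℕ) (h : ∀ j, j < n → g j = g' j) :
    cuP M P z F0 g n = cuP M P z F0 g' n := by
  unfold cuP
  rw [MFd2_cst_congr M P z F0 g g' n h, mf_congr M F0 g g' n h]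

private theorem MFd2_lppM_congr {S : Type} [Fintype S] {D : ℕ} (M : MSet S D) (q : ℝ)
    (W0 : S → ℝ) (g g' : ℕ → S → ℝ) (n : ℕ) (h : ∀ j, j < n → g j = g' j) (x : S) :
    M.lppM q W0 g n x = M.lppM q W0 g' n x := by
  unfold MSet.lppM
  refine Finset.sup'_congr _ rfl (fun m hm => ?_)
  rw [lpp_congr M q W0 g g' m (fun j hj => h j (by have := Finset.mem_range.mp hm; omega))]

private theorem MFd2_pmax_congr (b b' : ℕ → ℝ) (n : ℕ) (h : ∀ j, j < n → b j = b' j) :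
    pmax b n = pmax b' n := by
  unfold pmax
  refine Finset.sup'_congr _ rfl (fun m hm => Finset.sum_congr rfl fun j hj => h j ?_)
  have h1 := Finset.mem_range.mp hm
  have h2 := Finset.mem_range.mp hj
  omega

private theorem MFd2_sc_congr {S : Type} (v : ℝ) (ω ω' : ℕ → S → ℝ) (j : ℕ)
    (h : ω j = ω' j) : sc v ω j = sc v ω' j := by
  funext x
  simp only [sc, h]

private theorem MFd2_GoodW_imp {S : Type} [Fintype S] {D : ℕ} (M : MSet S D) (P : FPar)
    (F : S → ℝ) (z : S) (ω ω' : ℕ → S → ℝ) (h : ∀ j, j < P.nu → ω j = ω' j)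
    (hG : GoodW M P F ω z) : GoodW M P F ω' z := by
  have hn := P.hn
  have hs : ∀ j, j < P.nu → sc P.v ω j = sc P.v ω' j := fun j hj =>
    MFd2_sc_congr P.v ω ω' j (h j hj)
  obtain ⟨⟨h1, h2, h3, h4⟩, h5⟩ := hG
  refine ⟨⟨h1, ?_, ?_, ?_⟩, ?_⟩
  · intro y
    rw [← MFd2_lppM_congr M (1 / 8) (fun _ => 0) (sc P.v ω) (sc P.v ω') P.nu hs y]
    exact h2 y
  · intro y
    rw [← MFd2_lppM_congr M (1 / 8) (fun _ => 0) (-(sc P.v ω)) (-(sc P.v ω')) P.nu
      (fun j hj => by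
        change -(sc P.v ω j) = -(sc P.v ω' j)
        rw [hs j hj]) y]
    exact h3 y
  · intro y hy
    have h6 := h4 y hy
    have h7 : osc (fun j => sc P.v ω j y) P.n1 = osc (fun j => sc P.v ω' j y) P.n1 := by
      unfold osc
      rw [MFd2_pmax_congr (fun j => sc P.v ω j y) (fun j => sc P.v ω' j y) P.n1
          (fun j hj => by rw [hs j (by omega)]),
        MFd2_pmax_congr (fun j => -sc P.v ω j y) (fun j => -sc P.v ω' j y) P.n1
          (fun j hj => by rw [hs j (by omega)])]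
    rwa [h7] at h6
  · have h8 : ∑ j ∈ Finset.range P.nu, ∑ y,
        (cuP M P z F (sc P.v ω') j y / Real.sqrt P.v) * ω' j y =
        ∑ j ∈ Finset.range P.nu, ∑ y,
        (cuP M P z F (sc P.v ω) j y / Real.sqrt P.v) * ω j y := by
      refine Finset.sum_congr rfl fun j hj => ?_
      have hj' := Finset.mem_range.mp hj
      rw [h j hj', MFd2_cuP_congr M P z F (sc P.v ω) (sc P.v ω') j
        (fun i hi => hs i (by omega))]
    rw [h8]
    exact h5

theorem GoodW_congr {S : Type} [Fintype S] {D : ℕ} (M : MSet S D) (P : FPar) (F : S → ℝ) (z : S)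
    (ω ω' : ℕ → S → ℝ) (h : ∀ j, j < P.nu → ω j = ω' j) :
    GoodW M P F ω z ↔ GoodW M P F ω' z :=
  ⟨MFd2_GoodW_imp M P F z ω ω' h, MFd2_GoodW_imp M P F z ω' ω (fun j hj => (h j hj).symm)⟩

private theorem MFd2_v_dep {S : Type} [Fintype S] {D : ℕ} (M : MSet S D) (P : FPar)
    (F : S → ℝ) (z : S) (j : ℕ) : Dep j (MFd2_v M P F z j) := by
  intro a b hab
  unfold MFd2_v
  rw [MFd2_cuP_congr M P z F (sc P.v a) (sc P.v b) j
    (fun i hi => MFd2_sc_congr P.v a b i (hab i hi))]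

private theorem MFd2_v_zero {S : Type} [Fintype S] {D : ℕ} (M : MSet S D) (P : FPar)
    (F : S → ℝ) (z : S) (j : ℕ) (hj : P.nu ≤ j) (ω : ℕ → S → ℝ) : MFd2_v M P F z j ω = 0 := by
  funext y
  unfold MFd2_v
  rw [(cuP_bound M P z F (sc P.v ω) j y).2.2 hj]
  simp

private theorem MFd2_sc_shft {S : Type} [Fintype S] {D : ℕ} (M : MSet S D) (P : FPar)
    (F : S → ℝ) (z : S) (ω : ℕ → S → ℝ) :
    sc P.v (shft (MFd2_v M P F z) ω) =
      fun j y => sc P.v ω j y + cuP M P z F (sc P.v ω) j y := by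
  have hv : Real.sqrt P.v ≠ 0 := (Real.sqrt_pos.2 P.hv).ne'
  funext j y
  unfold sc shft MFd2_v
  change Real.sqrt P.v * (ω j y + cuP M P z F (sc P.v ω) j y / Real.sqrt P.v) =
    Real.sqrt P.v * ω j y + cuP M P z F (sc P.v ω) j y
  rw [mul_add, mul_div_cancel₀ _ hv]

/-- the energy bound -/
private noncomputable def MFd2_Q (D : ℕ) (P : FPar) : ℝ :=
  (max P.cup P.cd) ^ 2 * (P.v * P.nu) * (2 * P.r2 + 1) ^ D

private theorem MFd2_Q_pos (D : ℕ) (P : FPar) : 0 < MFd2_Q D P := by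
  unfold MFd2_Q
  have h1 : 0 < max P.cup P.cd := lt_max_of_lt_left P.hcup
  have h2 : (0 : ℝ) < P.nu := by
    have hn := P.hn
    have hn0 : 0 < P.nu := by omega
    exact_mod_cast hn0
  have h3 := P.hv
  positivity

private theorem MFd2_energy {S : Type} [Fintype S] {D : ℕ} (M : MSet S D) (P : FPar)
    (F : S → ℝ) (z : S) (ω : ℕ → S → ℝ) :
    ∑ j ∈ Finset.range P.nu, ∑ y, ‖MFd2_v M P F z j ω y‖ ^ 2 ≤ MFd2_Q D P := by
  refine le_trans (le_of_eq ?_) (cuP_energy M P z F (sc P.v ω))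
  refine Finset.sum_congr rfl fun j _ => Finset.sum_congr rfl fun y _ => ?_
  rw [Real.norm_eq_abs, sq_abs]
  rfl

private theorem MFd2_inner {S : Type} [Fintype S] {D : ℕ} (M : MSet S D) (P : FPar)
    (F : S → ℝ) (z : S) (ω : ℕ → S → ℝ) :
    ∑ j ∈ Finset.range P.nu, ∑ y, inner ℝ (MFd2_v M P F z j ω y) (ω j y) =
      ∑ j ∈ Finset.range P.nu, ∑ y,
        (cuP M P z F (sc P.v ω) j y / Real.sqrt P.v) * ω j y := by
  refine Finset.sum_congr rfl fun j _ => Finset.sum_congr rfl fun y _ => ?_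
  rw [real_inner_eq_re_inner, RCLike.inner_apply]
  simp only [conj_trivial, RCLike.re_to_real]
  unfold MFd2_v
  ring

private theorem MFd2_logZ {S : Type} [Fintype S] {D : ℕ} (M : MSet S D) (P : FPar)
    (F : S → ℝ) (z : S) (ω : ℕ → S → ℝ) (hG : GoodW M P F ω z) :
    0 ≤ P.Kp + MFd2_Q D P / 2 + logZ P.nu (MFd2_v M P F z) ω := by
  have h1 := hG.2
  rw [← MFd2_inner] at h1
  have h2 := MFd2_energy M P F z ω
  have h3 : logZ P.nu (MFd2_v M P F z) ω =
      -(∑ j ∈ Finset.range P.nu, ∑ y, inner ℝ (MFd2_v M P F z j ω y) (ω j y)) -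
        (∑ j ∈ Finset.range P.nu, ∑ y, ‖MFd2_v M P F z j ω y‖ ^ 2) / 2 := by
    unfold logZ
    rw [← Finset.sum_neg_distrib, Finset.sum_div, ← Finset.sum_sub_distrib]
    refine Finset.sum_congr rfl fun j _ => ?_
    rw [← Finset.sum_neg_distrib, Finset.sum_div, ← Finset.sum_sub_distrib]
  have h4 := le_abs_self
    (∑ j ∈ Finset.range P.nu, ∑ y, inner ℝ (MFd2_v M P F z j ω y) (ω j y))
  rw [h3]
  linarith

/-- the test function of the cut windows -/
private noncomputable def MFd2_Phi {S : Type} [Fintype S] {D : ℕ} (M : MSet S D) (P : FPar)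
    (F : S → ℝ) (x : S) (ψ : (S → ℝ) → ℝ≥0∞) (ω : ℕ → S → ℝ) : ℝ≥0∞ :=
  Set.indicator {ω | ¬ M.uncut P.η F (sc P.v ω) P.nu 0 x}
    (fun ω => ψ (M.mf F (sc P.v ω) P.nu)) ω

private theorem MFd2_meas_uncut {S : Type} [Fintype S] {D : ℕ} (M : MSet S D) (P : FPar)
    (F : S → ℝ) (x : S) :
    MeasurableSet {ω : ℕ → S → ℝ | M.uncut P.η F (sc P.v ω) P.nu 0 x} :=
  (measurable_const.prodMk (MFd2_measurable_sc P.v) :
    Measurable (fun ω : ℕ → S → ℝ => (F, sc P.v ω))) (measurableSet_uncut M P.η P.nu 0 x)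

private theorem MFd2_meas_mf {S : Type} [Fintype S] {D : ℕ} (M : MSet S D) (P : FPar)
    (F : S → ℝ) : Measurable (fun ω : ℕ → S → ℝ => M.mf F (sc P.v ω) P.nu) :=
  measurable_pi_lambda _ fun y => (measurable_mf M P.nu y).comp
    (measurable_const.prodMk (MFd2_measurable_sc P.v) :
      Measurable (fun ω : ℕ → S → ℝ => (F, sc P.v ω)))

private theorem MFd2_meas_Phi {S : Type} [Fintype S] {D : ℕ} (M : MSet S D) (P : FPar)
    (F : S → ℝ) (x : S) (ψ : (S → ℝ) → ℝ≥0∞) (hψ : Measurable ψ) :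
    Measurable (MFd2_Phi M P F x ψ) := by
  unfold MFd2_Phi
  exact (hψ.comp (MFd2_meas_mf M P F)).indicator (MFd2_meas_uncut M P F x).compl

/-- the contribution of one base point -/
private theorem MFd2_point {S : Type} [Fintype S] {D : ℕ} (M : MSet S D) (P : FPar)
    (F : S → ℝ) (hF : ∀ z, F z ≤ 0) (x z : S) (ψ : (S → ℝ) → ℝ≥0∞) (ω : ℕ → S → ℝ)
    (hlin : M.lin F (sc P.v ω) P.nu x P.nu = z) (hG : GoodW M P F ω z) :
    ψ (M.mf F (sc P.v ω) P.nu) ≤ ENNReal.ofReal (Real.exp (P.Kp + MFd2_Q D P / 2)) *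
      (MFd2_Phi M P F x ψ (shft (MFd2_v M P F z) ω) *
        ENNReal.ofReal (Real.exp (logZ P.nu (MFd2_v M P F z) ω))) := by
  have hcut := flip_cut M P F hF (sc P.v ω) x z hlin hG.1
  have hmf : M.mf F (fun j y => sc P.v ω j y + cuP M P z F (sc P.v ω) j y) P.nu =
      M.mf F (sc P.v ω) P.nu := by
    rw [← cst_eq_mf, flip_end M P z F hF (sc P.v ω) hG.1]
  have hPhi : MFd2_Phi M P F x ψ (shft (MFd2_v M P F z) ω) = ψ (M.mf F (sc P.v ω) P.nu) := by
    unfold MFd2_Phi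
    rw [Set.indicator_of_mem]
    · rw [MFd2_sc_shft, hmf]
    · change ¬ M.uncut P.η F (sc P.v (shft (MFd2_v M P F z) ω)) P.nu 0 x
      rw [MFd2_sc_shft]
      exact hcut
  rw [hPhi, mul_left_comm, ← ENNReal.ofReal_mul (Real.exp_pos _).le, ← Real.exp_add]
  have h1 : (1 : ℝ≥0∞) ≤ ENNReal.ofReal (Real.exp (P.Kp + MFd2_Q D P / 2 +
      logZ P.nu (MFd2_v M P F z) ω)) := by
    rw [ENNReal.one_le_ofReal]
    exact Real.one_le_exp (MFd2_logZ M P F z ω hG)
  calc ψ (M.mf F (sc P.v ω) P.nu) = ψ (M.mf F (sc P.v ω) P.nu) * 1 := (mul_one _).symm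
    _ ≤ _ := mul_le_mul' le_rfl h1

private theorem MFd2_measurable_logZ {S : Type} [Fintype S] {D : ℕ} (M : MSet S D) (P : FPar)
    (F : S → ℝ) (z : S) : Measurable (logZ P.nu (MFd2_v M P F z)) := by
  unfold logZ
  refine Finset.measurable_sum _ fun j _ => Finset.measurable_sum _ fun y _ => ?_
  have h1 : Measurable fun ω : ℕ → S → ℝ => MFd2_v M P F z j ω y :=
    (measurable_pi_apply y).comp (MFd2_measurable_v M P F z j)
  have h2 : Measurable fun ω : ℕ → S → ℝ => ω j y :=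
    (measurable_pi_apply y).comp (measurable_pi_apply j)
  exact (h1.inner h2).neg.sub ((h1.norm.pow_const 2).div_const 2)

private theorem MFd2_shift {S : Type} [Fintype S] {D : ℕ} (M : MSet S D) (P : FPar)
    (F : S → ℝ) (z : S) (Φ : (ℕ → S → ℝ) → ℝ≥0∞) (hΦ : Measurable Φ) :
    ∫⁻ ω, Φ (shft (MFd2_v M P F z) ω) *
        ENNReal.ofReal (Real.exp (logZ P.nu (MFd2_v M P F z) ω)) ∂(PI (nz S)) =
      ∫⁻ ω, Φ ω ∂(PI (nz S)) :=
  shift_lintegral cmart_real P.nu (MFd2_v M P F z) (MFd2_measurable_v M P F z)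
    (MFd2_v_dep M P F z) (fun j hj ω => MFd2_v_zero M P F z j hj ω) Φ hΦ

theorem flip_ineq {S : Type} [Fintype S] {D : ℕ} (M : MSet S D) (P : FPar) :
    Flip M P.v P.η (flipC D P) P.nu (GoodW M P) := by
  classical
  intro F hF x ψ hψ
  set B : Finset S := Finset.univ.filter fun z => M.dd x z ≤ P.r0 with hB
  set c0 : ℝ≥0∞ := ENNReal.ofReal (Real.exp (P.Kp + MFd2_Q D P / 2)) with hc0
  have hpt : ∀ ω : ℕ → S → ℝ,
      Set.indicator {ω | M.uncut P.η F (sc P.v ω) P.nu 0 x ∧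
          GoodW M P F ω (M.lin F (sc P.v ω) P.nu x P.nu)}
        (fun ω => ψ (M.mf F (sc P.v ω) P.nu)) ω ≤
      ∑ z ∈ B, c0 * (MFd2_Phi M P F x ψ (shft (MFd2_v M P F z) ω) *
        ENNReal.ofReal (Real.exp (logZ P.nu (MFd2_v M P F z) ω))) := by
    intro ω
    by_cases hω : M.uncut P.η F (sc P.v ω) P.nu 0 x ∧
        GoodW M P F ω (M.lin F (sc P.v ω) P.nu x P.nu)
    · rw [Set.indicator_of_mem (show ω ∈ {ω | M.uncut P.η F (sc P.v ω) P.nu 0 x ∧
          GoodW M P F ω (M.lin F (sc P.v ω) P.nu x P.nu)} from hω)]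
      have hmem : M.lin F (sc P.v ω) P.nu x P.nu ∈ B := by
        rw [hB, Finset.mem_filter]
        exact ⟨Finset.mem_univ _, flip_disp M P F hF (sc P.v ω) x hω.2.1⟩
      refine le_trans (MFd2_point M P F hF x _ ψ ω rfl hω.2) ?_
      exact Finset.single_le_sum (f := fun z => c0 *
        (MFd2_Phi M P F x ψ (shft (MFd2_v M P F z) ω) *
          ENNReal.ofReal (Real.exp (logZ P.nu (MFd2_v M P F z) ω))))
        (fun z _ => zero_le) hmem
    · rw [Set.indicator_of_notMem (show ω ∉ {ω | M.uncut P.η F (sc P.v ω) P.nu 0 x ∧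
          GoodW M P F ω (M.lin F (sc P.v ω) P.nu x P.nu)} from hω)]
      exact zero_le
  refine (lintegral_mono hpt).trans ?_
  have hΦ := MFd2_meas_Phi M P F x ψ hψ
  have hsm : ∀ z, Measurable (shft (MFd2_v M P F z)) := by
    intro z
    unfold shft
    refine measurable_pi_lambda _ fun j => measurable_pi_lambda _ fun y => ?_
    exact ((measurable_pi_apply y).comp (measurable_pi_apply j)).add
      ((measurable_pi_apply y).comp (MFd2_measurable_v M P F z j))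
  have hint : ∀ z, Measurable fun ω : ℕ → S → ℝ =>
      MFd2_Phi M P F x ψ (shft (MFd2_v M P F z) ω) *
        ENNReal.ofReal (Real.exp (logZ P.nu (MFd2_v M P F z) ω)) := fun z =>
    (hΦ.comp (hsm z)).mul (MFd2_measurable_logZ M P F z).exp.ennreal_ofReal
  rw [lintegral_finsetSum _ (fun z _ => (hint z).const_mul c0)]
  have hterm : ∀ z ∈ B, ∫⁻ ω, c0 * (MFd2_Phi M P F x ψ (shft (MFd2_v M P F z) ω) *
        ENNReal.ofReal (Real.exp (logZ P.nu (MFd2_v M P F z) ω))) ∂(PI (nz S)) =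
      c0 * ∫⁻ ω, MFd2_Phi M P F x ψ ω ∂(PI (nz S)) := by
    intro z _
    rw [lintegral_const_mul c0 (hint z), MFd2_shift M P F z _ hΦ]
  rw [Finset.sum_congr rfl hterm, Finset.sum_const, nsmul_eq_mul, ← mul_assoc]
  change _ ≤ ENNReal.ofReal (Real.exp (flipC D P)) * ∫⁻ ω, MFd2_Phi M P F x ψ ω ∂(PI (nz S))
  refine mul_le_mul' ?_ le_rfl
  have hcard : (B.card : ℝ) ≤ (2 * P.r0 + 1) ^ D := by
    have h1 := M.growth x P.r0 B (fun y hy => (Finset.mem_filter.1 hy).2)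
    exact_mod_cast h1
  have h2 : Real.exp (flipC D P) = (2 * P.r0 + 1) ^ D * Real.exp (P.Kp + MFd2_Q D P / 2) := by
    have h3 : (0 : ℝ) < 2 * P.r0 + 1 := by positivity
    have h4 : flipC D P = D * Real.log (2 * P.r0 + 1) + (P.Kp + MFd2_Q D P / 2) := by
      unfold flipC MFd2_Q
      ring
    rw [h4, Real.exp_add, Real.exp_nat_mul, Real.exp_log h3]
  rw [h2, ENNReal.ofReal_mul (by positivity)]
  refine mul_le_mul' ?_ le_rfl
  rw [← ENNReal.ofReal_natCast]
  exact ENNReal.ofReal_le_ofReal hcard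

private theorem MFd2_neg_nz (S : Type) [Fintype S] :
    (nz S).map (fun g : S → ℝ => -g) = nz S := by
  unfold nz
  have h : (fun g : S → ℝ => -g) = fun g i => (fun y : ℝ => -y) (g i) := by
    funext g i
    rfl
  rw [h, Measure.pi_map_pi (f := fun _ y => -y) (fun _ => measurable_neg.aemeasurable)]
  congr 1
  funext i
  rw [gaussianReal_map_neg, neg_zero]

private theorem MFd2_PI_neg (S : Type) [Fintype S] (A : Set (ℕ → S → ℝ)) (hA : MeasurableSet A) :
    PI (nz S) {ω | (fun i => -(ω i)) ∈ A} = PI (nz S) A := by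
  have hmeas : Measurable (fun g : S → ℝ => -g) := measurable_neg
  have : IsProbabilityMeasure ((nz S).map (fun g : S → ℝ => -g)) := by
    rw [MFd2_neg_nz]
    infer_instance
  have hmap := PI_map (μ := nz S) (fun g : S → ℝ => -g) hmeas
  have hneg : Measurable (fun (ω : ℕ → S → ℝ) i => -(ω i)) := by fun_prop
  have h2 : (PI (nz S)).map (fun (ω : ℕ → S → ℝ) i => -(ω i)) = PI (nz S) := by
    rw [hmap]
    unfold PI
    congr 1
    funext i
    exact MFd2_neg_nz S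
  conv_rhs => rw [← h2]
  rw [Measure.map_apply hneg hA]
  rfl

/-- union bound for the last passage functional, both signs -/
private theorem MFd2_union {S : Type} [Fintype S] {D : ℕ} (M : MSet S D) (lam0 C1 C3 v : ℝ)
    (n : ℕ) (z : S) (Kn : ℝ)
    (hC3 : ∑ y, Real.exp (-(lam0 / 8 * (M.dd z y : ℝ))) ≤ C3)
    (μ : Measure (ℕ → S → ℝ)) (L : (ℕ → S → ℝ) → S → ℝ)
    (h : ∀ (x : S) (r : ℝ), μ {ω | r ≤ L ω x}
      ≤ ENNReal.ofReal (Real.exp (C1 * (n * v + 1) - lam0 * r))) :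
    μ {ω | ∃ y, Kn + M.dd y z / 8 < L ω y} ≤
      ENNReal.ofReal (C3 * Real.exp (C1 * (n * v + 1) - lam0 * Kn)) := by
  have h1 : {ω | ∃ y, Kn + M.dd y z / 8 < L ω y} ⊆
      ⋃ y : S, {ω | Kn + M.dd y z / 8 ≤ L ω y} := by
    rintro ω ⟨y, hy⟩
    exact Set.mem_iUnion.2 ⟨y, le_of_lt hy⟩
  refine (measure_mono h1).trans ((measure_iUnion_fintype_le μ _).trans ?_)
  refine (Finset.sum_le_sum fun y _ => h y _).trans ?_
  rw [← ENNReal.ofReal_sum_of_nonneg (fun y _ => (Real.exp_pos _).le)]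
  apply ENNReal.ofReal_le_ofReal
  calc ∑ y, Real.exp (C1 * (n * v + 1) - lam0 * (Kn + M.dd y z / 8))
      = ∑ y, Real.exp (-(lam0 / 8 * (M.dd z y : ℝ))) *
          Real.exp (C1 * (n * v + 1) - lam0 * Kn) := by
        refine Finset.sum_congr rfl fun y _ => ?_
        rw [← Real.exp_add, M.dd_comm y z]
        congr 1
        ring
    _ = (∑ y, Real.exp (-(lam0 / 8 * (M.dd z y : ℝ)))) *
          Real.exp (C1 * (n * v + 1) - lam0 * Kn) := by rw [Finset.sum_mul]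
    _ ≤ C3 * Real.exp (C1 * (n * v + 1) - lam0 * Kn) :=
        mul_le_mul_of_nonneg_right hC3 (Real.exp_pos _).le

/-- the oscillation condition (g3) -/
private theorem MFd2_g3 {S : Type} [Fintype S] {D : ℕ} (M : MSet S D) (P : FPar)
    (hn1 : 1 ≤ P.n1) (z : S) :
    PI (nz S) {ω | ∃ y, M.dd y z ≤ P.r1 ∧ 1 / 4 < osc (fun j => sc P.v ω j y) P.n1} ≤
      ENNReal.ofReal ((2 * P.r1 + 1) ^ D * (4 * Real.exp (-(1 / (512 * (P.v * P.n1)))))) := by
  classical
  set B : Finset S := Finset.univ.filter fun y => M.dd y z ≤ P.r1 with hB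
  have h1 : {ω : ℕ → S → ℝ | ∃ y, M.dd y z ≤ P.r1 ∧
        1 / 4 < osc (fun j => sc P.v ω j y) P.n1} ⊆
      ⋃ y ∈ B, {ω | 1 / 4 ≤ osc (fun j => sc P.v ω j y) P.n1} := by
    rintro ω ⟨y, hy, hy'⟩
    refine Set.mem_iUnion₂.2 ⟨y, ?_, le_of_lt hy'⟩
    rw [hB, Finset.mem_filter]
    exact ⟨Finset.mem_univ _, hy⟩
  refine (measure_mono h1).trans ((measure_biUnion_finset_le B _).trans ?_)
  have h2 : ∀ y ∈ B, PI (nz S) {ω | 1 / 4 ≤ osc (fun j => sc P.v ω j y) P.n1} ≤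
      ENNReal.ofReal (4 * Real.exp (-(1 / (512 * (P.v * P.n1))))) := by
    intro y _
    refine (osc_tail_nz P.v P.hv P.n1 (by omega) y (1 / 4) (by norm_num)).trans (le_of_eq ?_)
    have hv := P.hv
    have hn0 : 0 < P.n1 := hn1
    have hn : (0 : ℝ) < P.n1 := by exact_mod_cast hn0
    congr 3
    field_simp
    norm_num
  refine (Finset.sum_le_sum h2).trans ?_
  have h4 : (0 : ℝ) ≤ (2 * P.r1 + 1) ^ D := by positivity
  rw [Finset.sum_const, nsmul_eq_mul, ENNReal.ofReal_mul h4]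
  refine mul_le_mul' ?_ le_rfl
  rw [← ENNReal.ofReal_natCast]
  apply ENNReal.ofReal_le_ofReal
  have h3 := M.growth z P.r1 B (by
    intro y hy
    rw [M.dd_comm]
    exact (Finset.mem_filter.1 hy).2)
  exact_mod_cast h3

/-- the noise condition (g4) -/
private theorem MFd2_g4 {S : Type} [Fintype S] {D : ℕ} (M : MSet S D) (P : FPar)
    (F : S → ℝ) (z : S) :
    PI (nz S) {ω | P.Kp < |∑ j ∈ Finset.range P.nu, ∑ y,
        (cuP M P z F (sc P.v ω) j y / Real.sqrt P.v) * ω j y|} ≤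
      ENNReal.ofReal (2 * Real.exp (-(P.Kp ^ 2 / (2 * MFd2_Q D P)))) := by
  have h1 := adapted_tail cmart_real P.nu (MFd2_v M P F z) (MFd2_measurable_v M P F z)
    (MFd2_v_dep M P F z) (fun j hj ω => MFd2_v_zero M P F z j hj ω) (MFd2_Q D P)
    (MFd2_Q_pos D P) (MFd2_energy M P F z) P.Kp P.hKp
  have h2 : {ω : ℕ → S → ℝ | P.Kp < |∑ j ∈ Finset.range P.nu, ∑ y,
        (cuP M P z F (sc P.v ω) j y / Real.sqrt P.v) * ω j y|} =
      {ω | P.Kp < |∑ j ∈ Finset.range P.nu, ∑ y, inner ℝ (MFd2_v M P F z j ω y) (ω j y)|} := by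
    ext ω
    simp only [Set.mem_ofPred_eq]
    rw [MFd2_inner]
  rw [h2]
  refine le_trans h1 (le_of_eq ?_)
  congr 3
  ring

theorem good_noise (D : ℕ) : ∃ lam0 C : ℝ, 0 < lam0 ∧ 0 < C ∧
    ∀ (S : Type) [Fintype S] (M : MSet S D) (P : FPar), P.v ≤ 1 / lam0 ^ 2 → 1 ≤ P.n1 →
      ∀ (F : S → ℝ) (z : S),
        PI (nz S) {ω | (∀ y, -P.KG - M.dd y z / 8 ≤ M.RR F y) ∧ ¬ GoodW M P F ω z}
          ≤ ENNReal.ofReal (C * Real.exp (C * (P.nu * P.v + 1) - lam0 * P.Kn)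
            + (2 * P.r1 + 1) ^ D * (4 * Real.exp (-(1 / (512 * (P.v * P.n1)))))
            + 2 * Real.exp (-(P.Kp ^ 2 /
                (2 * ((max P.cup P.cd) ^ 2 * (P.v * P.nu) * (2 * P.r2 + 1) ^ D))))) := by
  obtain ⟨lam0, C1, h0, hC1, htail⟩ := lpp_tail D (1 / 8) (by norm_num)
  obtain ⟨C3, hC31, hsum⟩ := sum_exp_dd D (lam0 / 8) (by positivity)
  refine ⟨lam0, max (2 * C3) C1, h0, lt_max_of_lt_right hC1, ?_⟩
  intro S _ M P hv hn1 F z
  have hvp := P.hv
  have hC3 := hsum S M z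
  have ht1 : ∀ (x : S) (r : ℝ),
      PI (nz S) {ω | r ≤ M.lppM (1 / 8) (fun _ => 0) (sc P.v ω) P.nu x}
        ≤ ENNReal.ofReal (Real.exp (C1 * (P.nu * P.v + 1) - lam0 * r)) := fun x r =>
    htail S M P.v hvp hv P.nu x r
  have ht2 : ∀ (x : S) (r : ℝ),
      PI (nz S) {ω | r ≤ M.lppM (1 / 8) (fun _ => 0) (-(sc P.v ω)) P.nu x}
        ≤ ENNReal.ofReal (Real.exp (C1 * (P.nu * P.v + 1) - lam0 * r)) := by
    intro x r
    have hset : MeasurableSet {ω : ℕ → S → ℝ |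
        r ≤ M.lppM (1 / 8) (fun _ => 0) (sc P.v ω) P.nu x} :=
      measurableSet_le measurable_const
        ((measurable_lppM M (1 / 8) (fun _ => 0) P.nu x).comp (MFd2_measurable_sc P.v))
    refine le_trans (le_of_eq ?_) (ht1 x r)
    rw [← MFd2_PI_neg S _ hset]
    congr 1
    ext ω
    simp only [Set.mem_ofPred_eq]
    have h3 : -(sc P.v ω) = sc P.v (fun i => -(ω i)) := by
      funext j y
      simp [sc]
    rw [h3]
  have hu1 := MFd2_union M lam0 C1 C3 P.v P.nu z P.Kn hC3 (PI (nz S))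
    (fun ω y => M.lppM (1 / 8) (fun _ => 0) (sc P.v ω) P.nu y) ht1
  have hu2 := MFd2_union M lam0 C1 C3 P.v P.nu z P.Kn hC3 (PI (nz S))
    (fun ω y => M.lppM (1 / 8) (fun _ => 0) (-(sc P.v ω)) P.nu y) ht2
  have hu3 := MFd2_g3 M P hn1 z
  have hu4 := MFd2_g4 M P F z
  have hsub : {ω : ℕ → S → ℝ | (∀ y, -P.KG - M.dd y z / 8 ≤ M.RR F y) ∧ ¬ GoodW M P F ω z} ⊆
      (({ω : ℕ → S → ℝ | ∃ y, P.Kn + M.dd y z / 8 <
          M.lppM (1 / 8) (fun _ => 0) (sc P.v ω) P.nu y} ∪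
        {ω | ∃ y, P.Kn + M.dd y z / 8 <
          M.lppM (1 / 8) (fun _ => 0) (-(sc P.v ω)) P.nu y}) ∪
        {ω | ∃ y, M.dd y z ≤ P.r1 ∧ 1 / 4 < osc (fun j => sc P.v ω j y) P.n1}) ∪
        {ω | P.Kp < |∑ j ∈ Finset.range P.nu, ∑ y,
          (cuP M P z F (sc P.v ω) j y / Real.sqrt P.v) * ω j y|} := by
    rintro ω ⟨hg1, hbad⟩
    by_contra hcon
    simp only [Set.mem_union, Set.mem_ofPred_eq, not_or, not_exists, not_lt, not_and] at hcon
    obtain ⟨⟨⟨h1, h2⟩, h3⟩, h4⟩ := hcon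
    exact hbad ⟨⟨hg1, h1, h2, h3⟩, h4⟩
  refine (measure_mono hsub).trans ?_
  refine (measure_union_le _ _).trans ?_
  refine (add_le_add ((measure_union_le _ _).trans (add_le_add ((measure_union_le _ _).trans
    (add_le_add hu1 hu2)) hu3)) hu4).trans ?_
  have hC30 : 0 ≤ C3 := by linarith
  rw [← ENNReal.ofReal_add (by positivity) (by positivity),
    ← ENNReal.ofReal_add (by positivity) (by positivity),
    ← ENNReal.ofReal_add (by positivity) (by positivity)]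
  apply ENNReal.ofReal_le_ofReal
  have h5 : C3 * Real.exp (C1 * (P.nu * P.v + 1) - lam0 * P.Kn) +
      C3 * Real.exp (C1 * (P.nu * P.v + 1) - lam0 * P.Kn) ≤
      max (2 * C3) C1 * Real.exp (max (2 * C3) C1 * (P.nu * P.v + 1) - lam0 * P.Kn) := by
    have h6 : Real.exp (C1 * (P.nu * P.v + 1) - lam0 * P.Kn) ≤
        Real.exp (max (2 * C3) C1 * (P.nu * P.v + 1) - lam0 * P.Kn) := by
      apply Real.exp_le_exp.2
      have h7 : (0 : ℝ) ≤ P.nu * P.v + 1 := by positivity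
      have := mul_le_mul_of_nonneg_right (le_max_right (2 * C3) C1) h7
      linarith
    have h8 : 2 * C3 * Real.exp (C1 * (P.nu * P.v + 1) - lam0 * P.Kn) ≤
        max (2 * C3) C1 * Real.exp (max (2 * C3) C1 * (P.nu * P.v + 1) - lam0 * P.Kn) :=
      mul_le_mul (le_max_left _ _) h6 (Real.exp_pos _).le
        (le_trans (by positivity) (le_max_left (2 * C3) C1))
    linarith
  have h9 : 2 * Real.exp (-(P.Kp ^ 2 / (2 * MFd2_Q D P))) = 2 * Real.exp (-(P.Kp ^ 2 /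
      (2 * ((max P.cup P.cd) ^ 2 * (P.v * P.nu) * (2 * P.r2 + 1) ^ D)))) := rfl
  rw [h9]
  linarith

end DynC
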