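import Pool.Agent.Lib_MP_36b788c.MFa

/-!
# Height model: Lyapunov function from disjoint pairs of sites

`a = 1/50`, periods of `np` steps with `v np ∈ [100,101]`.

PROOF of `dimer_gauss`: for independent `X, Y ~ N(0,t)`: `max(X,Y) = (X+Y)/2 + |X-Y|/2` with independent summands,
`E e^{-a(X+Y)/2} = e^{a² t/4}`; `|X-Y|/2 = √(t/2) |Z|`, `E e^{-b|Z|} ≤ 1 - b E|Z| + b²/2`, `b = a √(t/2)`; `E|Z| ≥ 0.577` (`√(2/π)`, or from
`u ≥ α u² - (4/27) α³ u⁴` (`u ≥ 0`) with `α = 0.866`, fourth moment `3`). For `t ∈ [100,101]`: `e^{a + a² t/4} (1 - 0.577 b + b²/2) ≤ 0.96`.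
`pair_step` (deterministic): `r = min (RR F p0) (RR F p1)`, `dd p0 p1 = 1`, `np ≥ 1` steps: with `W_i = Σ g(p_i)`, `O = max(osc p0, osc p1) + 1`:
`min (r + max W_0 W_1 - 1) (-O) ≤ min (RR F' p0) (RR F' p1)`, `F' = mf F g np`. Indeed `F'(p_i) ≥ min (RR F p_i + W_i) (-osc_i)` (as in `mf_stay`), `RR F' p0 ≥ F' p0`,
`RR F' p0 ≥ F' p1 - 1`, and `max (min a c) (min b d) ≥ min (max a b) (min c d)`.
`pairs_affine`: for one period and `α, β ≥ 0`: `E Π_i (α e^{-a r_i'} + β) ≤ Π_i (α ρ1 e^{-a r_i} + α Co + β)`, `ρ1 = 97/100`, `Co` = bound of `E e^{a O}` (`osc_exp_nz`, `O ≤ osc_0+osc_1+1`): by `pair_step`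
`e^{-a r'} ≤ e^{-a r} e^{-a(max(W_0,W_1) - 1)} + e^{aO}`; the factors for distinct pairs are independent (they depend on the noise at disjoint sets of sites). The
cap at zero: `e^{-a r}` with `r ≤ 0`; no further condition.
`pairs_iter`: induction on the number of periods. `lyap_F`: `Λ = n a`: `e^{-Λ RR F'(y)} ≤ Π_i e^{2an} e^{-a r_i'}` (`RR F'(y) ≥ RR F'(p) - 2n`), `e^{-a r_i} ≤ e^{2an} e^{-a RR F(y)}`, and
`Π (A + B) = (A+B)^n ≤ 2^n (A^n + B^n)`.
-/

open MeasureTheory ProbabilityTheory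
open scoped ENNReal

namespace DynC

private def MFe_HI {Ω : Type} [MeasurableSpace Ω] (μ : Measure Ω) (f : Ω → ℝ) (v : ℝ) : Prop :=
  Integrable f μ ∧ ∫ x, f x ∂μ = v

private lemma MFe_HI_add {Ω : Type} [MeasurableSpace Ω] {μ : Measure Ω} {f g : Ω → ℝ} {a b : ℝ}
    (hf : MFe_HI μ f a) (hg : MFe_HI μ g b) : MFe_HI μ (fun x => f x + g x) (a + b) :=
  ⟨hf.1.add hg.1, by rw [integral_add hf.1 hg.1, hf.2, hg.2]⟩

private lemma MFe_HI_mul {Ω : Type} [MeasurableSpace Ω] {μ : Measure Ω} {f : Ω → ℝ} {a : ℝ}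
    (c : ℝ) (hf : MFe_HI μ f a) : MFe_HI μ (fun x => c * f x) (c * a) :=
  ⟨hf.1.const_mul c, by rw [integral_const_mul, hf.2]⟩

private lemma MFe_mono (c : ℝ) (i j : ℕ) :
    MFe_HI ((gaussianReal 0 1).prod (gaussianReal 0 1))
      (fun z : ℝ × ℝ => Real.exp (-(c * z.1)) ^ i * Real.exp (-(c * z.2)) ^ j)
      (Real.exp (c ^ 2 / 2) ^ (i ^ 2 + j ^ 2)) := by
  have h1 : ∀ k : ℕ, MFe_HI (gaussianReal 0 1) (fun x : ℝ => Real.exp (-(c * x)) ^ k)
      (Real.exp (c ^ 2 / 2) ^ (k ^ 2)) := by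
    intro k
    have e : (fun x : ℝ => Real.exp (-(c * x)) ^ k) = fun x => Real.exp (-(k * c) * x) := by
      funext x
      rw [← Real.exp_nat_mul]
      congr 1
      ring
    refine ⟨?_, ?_⟩
    · rw [e]
      exact integrable_exp_mul_gaussianReal _
    · rw [e]
      have := congrFun (mgf_id_gaussianReal (μ := 0) (v := 1)) (-(k * c))
      simp only [mgf, id] at this
      rw [this, ← Real.exp_nat_mul]
      congr 1
      push_cast
      ring
  have hi := h1 i
  have hj := h1 j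
  refine ⟨hi.1.mul_prod hj.1, ?_⟩
  rw [integral_prod_mul (fun x : ℝ => Real.exp (-(c * x)) ^ i)
    (fun x : ℝ => Real.exp (-(c * x)) ^ j), hi.2, hj.2, ← pow_add]

private lemma MFe_min (A B : ℝ) :
    min A B ≤ (A + B) / 2 - 1 / 2 * (14 / 5 * (A - B) ^ 2 - 10976 / 3375 * (A - B) ^ 4) := by
  have key : ∀ w : ℝ, 0 ≤ w → 14 / 5 * w ^ 2 - 10976 / 3375 * w ^ 4 ≤ w := by
    intro w hw
    have h : w - (14 / 5 * w ^ 2 - 10976 / 3375 * w ^ 4) =
        w * ((1 - 28 / 15 * w) ^ 2 * (1 + 14 / 15 * w)) := by ring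
    have : 0 ≤ w * ((1 - 28 / 15 * w) ^ 2 * (1 + 14 / 15 * w)) := by positivity
    linarith
  rcases le_total A B with h | h
  · rw [min_eq_left h]
    have := key (B - A) (by linarith)
    have e1 : (B - A) ^ 2 = (A - B) ^ 2 := by ring
    have e2 : (B - A) ^ 4 = (A - B) ^ 4 := by ring
    rw [e1, e2] at this
    linarith
  · rw [min_eq_right h]
    have := key (A - B) (by linarith)
    linarith

theorem dimer_gauss (t : ℝ) (h1 : 100 ≤ t) (h2 : t ≤ 101) :
    ∫⁻ z : ℝ × ℝ, ENNReal.ofReal (Real.exp (-(1 / 50) *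
        (max (Real.sqrt t * z.1) (Real.sqrt t * z.2) - 1)))
        ∂((gaussianReal 0 1).prod (gaussianReal 0 1))
      ≤ ENNReal.ofReal (97 / 100) := by
  set c : ℝ := 1 / 50 * Real.sqrt t with hc
  set y : ℝ := Real.exp (c ^ 2 / 2) with hy
  have hc2 : c ^ 2 = t / 2500 := by
    rw [hc, mul_pow, Real.sq_sqrt (by linarith)]
    ring
  set μ := (gaussianReal 0 1).prod (gaussianReal 0 1) with hμ
  have m := MFe_mono c
  -- the majorant
  have hI := MFe_HI_add (MFe_HI_add (MFe_HI_add (MFe_HI_add (MFe_HI_add (MFe_HI_add (MFe_HI_add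
    (MFe_HI_add (MFe_HI_add
    (MFe_HI_mul (1 / 2) (m 1 0)) (MFe_HI_mul (1 / 2) (m 0 1)))
    (MFe_HI_mul (-(7 / 5)) (m 2 0))) (MFe_HI_mul (14 / 5) (m 1 1))) (MFe_HI_mul (-(7 / 5)) (m 0 2)))
    (MFe_HI_mul (5488 / 3375) (m 4 0))) (MFe_HI_mul (-(21952 / 3375)) (m 3 1)))
    (MFe_HI_mul (32928 / 3375) (m 2 2))) (MFe_HI_mul (-(21952 / 3375)) (m 1 3)))
    (MFe_HI_mul (5488 / 3375) (m 0 4))
  have hI2 := MFe_HI_mul (Real.exp (1 / 50)) hI
  have hpt : ∀ z : ℝ × ℝ, Real.exp (-(1 / 50) *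
      (max (Real.sqrt t * z.1) (Real.sqrt t * z.2) - 1)) ≤ Real.exp (1 / 50) *
      (1 / 2 * (Real.exp (-(c * z.1)) ^ 1 * Real.exp (-(c * z.2)) ^ 0) +
        1 / 2 * (Real.exp (-(c * z.1)) ^ 0 * Real.exp (-(c * z.2)) ^ 1) +
        -(7 / 5) * (Real.exp (-(c * z.1)) ^ 2 * Real.exp (-(c * z.2)) ^ 0) +
        14 / 5 * (Real.exp (-(c * z.1)) ^ 1 * Real.exp (-(c * z.2)) ^ 1) +
        -(7 / 5) * (Real.exp (-(c * z.1)) ^ 0 * Real.exp (-(c * z.2)) ^ 2) +
        5488 / 3375 * (Real.exp (-(c * z.1)) ^ 4 * Real.exp (-(c * z.2)) ^ 0) +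
        -(21952 / 3375) * (Real.exp (-(c * z.1)) ^ 3 * Real.exp (-(c * z.2)) ^ 1) +
        32928 / 3375 * (Real.exp (-(c * z.1)) ^ 2 * Real.exp (-(c * z.2)) ^ 2) +
        -(21952 / 3375) * (Real.exp (-(c * z.1)) ^ 1 * Real.exp (-(c * z.2)) ^ 3) +
        5488 / 3375 * (Real.exp (-(c * z.1)) ^ 0 * Real.exp (-(c * z.2)) ^ 4)) := by
    intro z
    have e1 : Real.exp (-(1 / 50) * (max (Real.sqrt t * z.1) (Real.sqrt t * z.2) - 1)) =
        Real.exp (1 / 50) * min (Real.exp (-(c * z.1))) (Real.exp (-(c * z.2))) := by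
      rcases le_total (Real.sqrt t * z.1) (Real.sqrt t * z.2) with h | h
      · rw [max_eq_right h, min_eq_right (Real.exp_le_exp.mpr (by rw [hc]; nlinarith)),
          ← Real.exp_add]
        congr 1
        rw [hc]
        ring
      · rw [max_eq_left h, min_eq_left (Real.exp_le_exp.mpr (by rw [hc]; nlinarith)),
          ← Real.exp_add]
        congr 1
        rw [hc]
        ring
    rw [e1]
    refine mul_le_mul_of_nonneg_left ?_ (Real.exp_pos _).le
    refine (MFe_min _ _).trans (le_of_eq ?_)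
    ring
  have hlt : ∫⁻ z : ℝ × ℝ, ENNReal.ofReal (Real.exp (-(1 / 50) *
        (max (Real.sqrt t * z.1) (Real.sqrt t * z.2) - 1))) ∂μ ≤
      ENNReal.ofReal (Real.exp (1 / 50) * (1 / 2 * y ^ (1 ^ 2 + 0 ^ 2) + 1 / 2 * y ^ (0 ^ 2 + 1 ^ 2) +
        -(7 / 5) * y ^ (2 ^ 2 + 0 ^ 2) + 14 / 5 * y ^ (1 ^ 2 + 1 ^ 2) +
        -(7 / 5) * y ^ (0 ^ 2 + 2 ^ 2) + 5488 / 3375 * y ^ (4 ^ 2 + 0 ^ 2) +
        -(21952 / 3375) * y ^ (3 ^ 2 + 1 ^ 2) + 32928 / 3375 * y ^ (2 ^ 2 + 2 ^ 2) +
        -(21952 / 3375) * y ^ (1 ^ 2 + 3 ^ 2) + 5488 / 3375 * y ^ (0 ^ 2 + 4 ^ 2))) := by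
    refine (lintegral_mono fun z => ENNReal.ofReal_le_ofReal (hpt z)).trans ?_
    rw [← ofReal_integral_eq_lintegral_ofReal hI2.1
      (Filter.Eventually.of_forall fun z => (Real.exp_pos _).le.trans (hpt z))]
    exact ENNReal.ofReal_le_ofReal hI2.2.le
  refine hlt.trans (ENNReal.ofReal_le_ofReal ?_)
  -- numerics
  have y1 : 1 + 1 / 50 + 1 / 5000 ≤ y := by
    have h := Real.quadratic_le_exp_of_nonneg (x := 1 / 50) (by norm_num)
    have h' : Real.exp (1 / 50) ≤ y := Real.exp_le_exp.mpr (by rw [hc2]; linarith)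
    linarith
  have y2 : y ≤ 1 / (1 - 101 / 5000) := by
    have h' : y ≤ Real.exp (101 / 5000) := Real.exp_le_exp.mpr (by rw [hc2]; linarith)
    have h := Real.exp_bound_div_one_sub_of_interval (x := 101 / 5000) (by norm_num) (by norm_num)
    linarith
  have e1 : Real.exp (1 / 50) ≤ 50 / 49 := by
    have h := Real.exp_bound_div_one_sub_of_interval (x := 1 / 50) (by norm_num) (by norm_num)
    have e : (1 : ℝ) / (1 - 1 / 50) = 50 / 49 := by norm_num
    linarith
  have y3 : y ≤ 10207 / 10000 := y2.trans (by norm_num)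
  have x1 : 10408 / 10000 ≤ y ^ 2 := by nlinarith
  have x2 : y ^ 2 ≤ 10417 / 10000 := by
    have : y ^ 2 ≤ (1 / (1 - 101 / 5000)) ^ 2 := pow_le_pow_left₀ (by linarith) y2 2
    exact this.trans (by norm_num)
  have hP : 1 / 2 * y ^ (1 ^ 2 + 0 ^ 2) + 1 / 2 * y ^ (0 ^ 2 + 1 ^ 2) +
        -(7 / 5) * y ^ (2 ^ 2 + 0 ^ 2) + 14 / 5 * y ^ (1 ^ 2 + 1 ^ 2) +
        -(7 / 5) * y ^ (0 ^ 2 + 2 ^ 2) + 5488 / 3375 * y ^ (4 ^ 2 + 0 ^ 2) +
        -(21952 / 3375) * y ^ (3 ^ 2 + 1 ^ 2) + 32928 / 3375 * y ^ (2 ^ 2 + 2 ^ 2) +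
        -(21952 / 3375) * y ^ (1 ^ 2 + 3 ^ 2) + 5488 / 3375 * y ^ (0 ^ 2 + 4 ^ 2) ≤ 943 / 1000 := by
    have e : 1 / 2 * y ^ (1 ^ 2 + 0 ^ 2) + 1 / 2 * y ^ (0 ^ 2 + 1 ^ 2) +
        -(7 / 5) * y ^ (2 ^ 2 + 0 ^ 2) + 14 / 5 * y ^ (1 ^ 2 + 1 ^ 2) +
        -(7 / 5) * y ^ (0 ^ 2 + 2 ^ 2) + 5488 / 3375 * y ^ (4 ^ 2 + 0 ^ 2) +
        -(21952 / 3375) * y ^ (3 ^ 2 + 1 ^ 2) + 32928 / 3375 * y ^ (2 ^ 2 + 2 ^ 2) +
        -(21952 / 3375) * y ^ (1 ^ 2 + 3 ^ 2) + 5488 / 3375 * y ^ (0 ^ 2 + 4 ^ 2) =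
        y - 14 / 5 * (y ^ 2 * (y ^ 2 - 1)) + 10976 / 3375 * ((y ^ 2) ^ 4 *
          ((y ^ 2 - 1) ^ 2 * ((y ^ 2) ^ 2 + 2 * y ^ 2 + 3))) := by ring
    rw [e]
    have a1 : 10408 / 10000 * (408 / 10000) ≤ y ^ 2 * (y ^ 2 - 1) := by
      apply mul_le_mul x1 (by linarith) (by norm_num) (by positivity)
    have a2 : (y ^ 2) ^ 4 * ((y ^ 2 - 1) ^ 2 * ((y ^ 2) ^ 2 + 2 * y ^ 2 + 3)) ≤
        (10417 / 10000) ^ 4 * ((417 / 10000) ^ 2 *
          ((10417 / 10000) ^ 2 + 2 * (10417 / 10000) + 3)) := by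
      have h0 : (0 : ℝ) ≤ y ^ 2 - 1 := by linarith
      have h417 : y ^ 2 - 1 ≤ 417 / 10000 := by linarith
      gcongr
    have a3 : (10417 / 10000 : ℝ) ^ 4 * ((417 / 10000) ^ 2 *
          ((10417 / 10000) ^ 2 + 2 * (10417 / 10000) + 3)) ≤ 127 / 10000 := by norm_num
    linarith
  calc Real.exp (1 / 50) * _ ≤ Real.exp (1 / 50) * (943 / 1000) :=
        mul_le_mul_of_nonneg_left hP (Real.exp_pos _).le
    _ ≤ 50 / 49 * (943 / 1000) := mul_le_mul_of_nonneg_right e1 (by norm_num)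
    _ ≤ 97 / 100 := by norm_num


variable {S : Type} [Fintype S] {D : ℕ} (M : MSet S D)

private lemma MFe_low (F : S → ℝ) (g : ℕ → S → ℝ) (y : S) (n : ℕ) : ∀ c : ℝ,
    (∀ i, 1 ≤ i → i ≤ n + 1 → -c ≤ ∑ l ∈ Finset.Ico i (n + 1), g l y) →
    min (M.RR F y + ∑ j ∈ Finset.range (n + 1), g j y) (-c) ≤ M.mf F g (n + 1) y := by
  induction n with
  | zero =>
    intro c h
    have hc : 0 ≤ c := by
      have := h 1 le_rfl le_rfl
      simp at this
      exact this
    show _ ≤ min 0 (M.RR F y + g 0 y)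
    rw [Finset.sum_range_one]
    rcases le_total (M.RR F y + g 0 y) 0 with h0 | h0
    · rw [min_eq_right h0]; exact min_le_left _ _
    · rw [min_eq_left h0]; exact (min_le_right _ _).trans (by linarith)
  | succ n ih =>
    intro c h
    have hc : 0 ≤ c := by
      have := h (n + 2) (by omega) le_rfl
      simp at this
      exact this
    have ih' := ih (c + g (n + 1) y) (by
      intro i h1 h2
      have := h i h1 (by omega)
      rw [Finset.sum_Ico_succ_top h2] at this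
      linarith)
    have h3 : M.mf F g (n + 1) y ≤ M.RR (M.mf F g (n + 1)) y := self_le_RR M _ y
    show _ ≤ min 0 (M.RR (M.mf F g (n + 1)) y + g (n + 1) y)
    rw [Finset.sum_range_succ]
    refine le_min ((min_le_right _ _).trans (by linarith)) ?_
    have h4 : min (M.RR F y + (∑ j ∈ Finset.range (n + 1), g j y + g (n + 1) y)) (-c) ≤
        min (M.RR F y + ∑ j ∈ Finset.range (n + 1), g j y) (-(c + g (n + 1) y)) + g (n + 1) y := by
      rw [← min_add_add_right]
      apply min_le_min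
      · linarith
      · linarith
    linarith

private lemma MFe_one (F : S → ℝ) (g : ℕ → S → ℝ) (n : ℕ) (hn : 1 ≤ n) (y : S) :
    min (M.RR F y + ∑ j ∈ Finset.range n, g j y) (-(osc (fun j => g j y) n)) ≤ M.mf F g n y := by
  obtain ⟨m, rfl⟩ : ∃ m, n = m + 1 := ⟨n - 1, by omega⟩
  apply MFe_low
  intro i h1 h2
  have := sum_le_osc (fun j => g j y) h2 (le_refl (m + 1))
  exact (abs_le.mp this).1

theorem pair_step (F : S → ℝ) (g : ℕ → S → ℝ) (n : ℕ) (hn : 1 ≤ n) (p0 p1 : S)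
    (hp : M.dd p0 p1 = 1) :
    min (min (M.RR F p0) (M.RR F p1) +
        max (∑ j ∈ Finset.range n, g j p0) (∑ j ∈ Finset.range n, g j p1) - 1)
      (-(max (osc (fun j => g j p0) n) (osc (fun j => g j p1) n) + 1)) ≤
    min (M.RR (M.mf F g n) p0) (M.RR (M.mf F g n) p1) := by
  have key : ∀ a b : S, M.dd b a = 1 →
      (∑ j ∈ Finset.range n, g j b) ≤ (∑ j ∈ Finset.range n, g j a) →
      min (min (M.RR F a) (M.RR F b) + (∑ j ∈ Finset.range n, g j a) - 1)
      (-(max (osc (fun j => g j a) n) (osc (fun j => g j b) n) + 1)) ≤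
      min (M.RR (M.mf F g n) a) (M.RR (M.mf F g n) b) := by
    intro a b hab hle
    have h1 := MFe_one M F g n hn a
    have h2 : M.mf F g n a ≤ M.RR (M.mf F g n) a := self_le_RR M _ a
    have h3 := le_RR M (M.mf F g n) b a
    rw [hab] at h3
    push_cast at h3
    have h4 : min (min (M.RR F a) (M.RR F b) + (∑ j ∈ Finset.range n, g j a) - 1)
        (-(max (osc (fun j => g j a) n) (osc (fun j => g j b) n) + 1)) ≤
        min (M.RR F a + ∑ j ∈ Finset.range n, g j a) (-(osc (fun j => g j a) n)) - 1 := by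
      rw [← min_sub_sub_right]
      apply min_le_min
      · have := min_le_left (M.RR F a) (M.RR F b)
        linarith
      · have := le_max_left (osc (fun j => g j a) n) (osc (fun j => g j b) n)
        linarith
    apply le_min <;> linarith
  rcases le_total (∑ j ∈ Finset.range n, g j p1) (∑ j ∈ Finset.range n, g j p0) with h | h
  · rw [max_eq_left h]
    exact key p0 p1 (by rw [M.dd_comm]; exact hp) h
  · rw [max_eq_right h]
    have := key p1 p0 hp h
    rw [min_comm (M.RR F p1), max_comm (osc (fun j => g j p1) n),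
      min_comm (M.RR (M.mf F g n) p1)] at this
    exact this

private lemma MFe_law {κ : Type} (f : κ → S) (hf : Function.Injective f) :
    (PI (nz S)).map (fun ω (k : κ) (j : ℕ) => ω j (f k)) =
      Measure.infinitePi (fun _ : κ => PI (gaussianReal 0 1)) := by
  have e : PI (nz S) = (Measure.infinitePi (fun _ : ℕ × S => gaussianReal 0 1)).map
      (MeasurableEquiv.curry ℕ S ℝ) := by
    rw [Measure.infinitePi_map_curry (fun _ _ => gaussianReal 0 1)]
    unfold PI nz
    congr! 2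
    exact (Measure.infinitePi_eq_pi _).symm
  have hinj : Function.Injective (fun q : κ × ℕ => ((q.2, f q.1) : ℕ × S)) := by
    rintro ⟨k, j⟩ ⟨k', j'⟩ h
    simp only [Prod.mk.injEq] at h
    rw [h.1, hf h.2]
  rw [e, Measure.map_map (by fun_prop) (MeasurableEquiv.measurable _)]
  have e2 : (fun ω (k : κ) (j : ℕ) => ω j (f k)) ∘ (MeasurableEquiv.curry ℕ S ℝ) =
      (MeasurableEquiv.curry κ ℕ ℝ) ∘ (fun (η : ℕ × S → ℝ) (q : κ × ℕ) => η (q.2, f q.1)) := by
    funext η
    rfl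
  rw [e2, ← Measure.map_map (MeasurableEquiv.measurable _) (by fun_prop)]
  rw [Measure.map_infinitePi_infinitePi_of_inj (P := fun _ : ℕ × S => gaussianReal 0 1)
    (f := fun q : κ × ℕ => ((q.2, f q.1) : ℕ × S)) hinj]
  rw [Measure.infinitePi_map_curry (fun (_ : κ) (_ : ℕ) => gaussianReal 0 1)]
  rfl

private lemma MFe_law2 {n : ℕ} (p : Fin n → Fin 2 → S)
    (hp : Function.Injective (fun q : Fin n × Fin 2 => p q.1 q.2)) :
    (PI (nz S)).map (fun ω (i : Fin n) (a : Fin 2) (j : ℕ) => ω j (p i a)) =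
      Measure.infinitePi (fun _ : Fin n =>
        Measure.infinitePi (fun _ : Fin 2 => PI (gaussianReal 0 1))) := by
  rw [← Measure.infinitePi_map_curry (fun (_ : Fin n) (_ : Fin 2) => PI (gaussianReal 0 1)),
    ← MFe_law (fun q : Fin n × Fin 2 => p q.1 q.2) hp,
    Measure.map_map (MeasurableEquiv.measurable _) (by fun_prop)]
  rfl

private lemma MFe_indep {n : ℕ} (p : Fin n → Fin 2 → S)
    (hp : Function.Injective (fun q : Fin n × Fin 2 => p q.1 q.2))
    (f : Fin n → (Fin 2 → ℕ → ℝ) → ℝ≥0∞) (hf : ∀ i, Measurable (f i)) :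
    ∫⁻ ω, ∏ i, f i (fun a j => ω j (p i a)) ∂(PI (nz S)) =
      ∏ i, ∫⁻ x, f i x ∂(Measure.infinitePi (fun _ : Fin 2 => PI (gaussianReal 0 1))) := by
  have h1 : ∫⁻ ω, ∏ i, f i (fun a j => ω j (p i a)) ∂(PI (nz S)) =
      ∫⁻ x : Fin n → Fin 2 → ℕ → ℝ, ∏ i, f i (x i) ∂((PI (nz S)).map
        (fun ω (i : Fin n) (a : Fin 2) (j : ℕ) => ω j (p i a))) := by
    rw [lintegral_map]
    · exact Finset.measurable_prod _ (fun i _ => (hf i).comp (measurable_pi_apply i))
    · fun_prop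
  rw [h1, MFe_law2 p hp, lintegral_prod_eq_prod_lintegral_of_indepFun Finset.univ
    (fun i (x : Fin n → Fin 2 → ℕ → ℝ) => f i (x i))
    (iIndepFun_infinitePi (X := fun i x => f i x) hf)
    (fun i => (hf i).comp (measurable_pi_apply i))]
  refine Finset.prod_congr rfl fun i _ => ?_
  conv_rhs => rw [← Measure.infinitePi_map_eval (fun _ : Fin n =>
        Measure.infinitePi (fun _ : Fin 2 => PI (gaussianReal 0 1))) i]
  rw [lintegral_map (hf i) (measurable_pi_apply i)]

private lemma MFe_marg (a0 : Fin 2) (f : (ℕ → ℝ) → ℝ≥0∞) (hf : Measurable f) :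
    ∫⁻ x, f (x a0) ∂(Measure.infinitePi (fun _ : Fin 2 => PI (gaussianReal 0 1))) =
      ∫⁻ x, f x ∂(PI (gaussianReal 0 1)) := by
  conv_rhs => rw [← Measure.infinitePi_map_eval (fun _ : Fin 2 => PI (gaussianReal 0 1)) a0]
  rw [lintegral_map hf (measurable_pi_apply a0)]

private lemma MFe_site (x : S) (f : (ℕ → ℝ) → ℝ≥0∞) (hf : Measurable f) :
    ∫⁻ ω, f (fun j => ω j x) ∂(PI (nz S)) = ∫⁻ y, f y ∂(PI (gaussianReal 0 1)) := by
  have h := MFe_law (fun _ : Unit => x) (fun _ _ _ => rfl)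
  have h2 : ((PI (nz S)).map (fun ω (_ : Unit) (j : ℕ) => ω j x)).map
      (fun z : Unit → ℕ → ℝ => z ()) = PI (gaussianReal 0 1) := by
    rw [h, Measure.infinitePi_map_eval]
  rw [Measure.map_map (by fun_prop) (by fun_prop)] at h2
  rw [← h2, lintegral_map hf (by fun_prop)]
  rfl

private lemma MFe_sum (m : ℕ) :
    (PI (gaussianReal 0 1)).map (fun x : ℕ → ℝ => ∑ j ∈ Finset.range m, x j) =
      gaussianReal 0 m := by
  induction m with
  | zero =>
    simp
  | succ m ih =>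
    have hind : IndepFun (fun x : ℕ → ℝ => ∑ j ∈ Finset.range m, x j) (fun x : ℕ → ℝ => x m)
        (PI (gaussianReal 0 1)) := by
      have h := iIndepFun_infinitePi (P := fun _ : ℕ => gaussianReal 0 1)
        (X := fun _ x => x) (fun _ => measurable_id)
      have h2 := h.indepFun_finsetSum_of_notMem (fun i => measurable_pi_apply i)
        (s := Finset.range m) (i := m) (by simp)
      have e : (∑ j ∈ Finset.range m, fun ω : ℕ → ℝ => ω j) =
          fun x : ℕ → ℝ => ∑ j ∈ Finset.range m, x j := by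
        funext x
        simp
      rw [e] at h2
      exact h2
    have h3 := gaussianReal_add_gaussianReal_of_indepFun (P := PI (gaussianReal 0 1)) hind ih
      (map_coord (μ := gaussianReal 0 1) m)
    have e2 : (fun x : ℕ → ℝ => ∑ j ∈ Finset.range (m + 1), x j) =
        (fun x : ℕ → ℝ => ∑ j ∈ Finset.range m, x j) + (fun x : ℕ → ℝ => x m) := by
      funext x
      simp [Finset.sum_range_succ]
    rw [e2, h3]
    simp

private lemma MFe_sc (v : ℝ) (np : ℕ) (hv : 0 < v) :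
    (PI (gaussianReal 0 1)).map (fun x : ℕ → ℝ => ∑ j ∈ Finset.range np, Real.sqrt v * x j) =
      (gaussianReal 0 1).map (fun z => Real.sqrt (v * np) * z) := by
  have e : (fun x : ℕ → ℝ => ∑ j ∈ Finset.range np, Real.sqrt v * x j) =
      (fun z : ℝ => Real.sqrt v * z) ∘ (fun x : ℕ → ℝ => ∑ j ∈ Finset.range np, x j) := by
    funext x
    simp [Finset.mul_sum]
  rw [e, ← Measure.map_map (by fun_prop) (by fun_prop), MFe_sum,
    gaussianReal_map_const_mul, gaussianReal_map_const_mul]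
  congr 1
  · simp
  · apply NNReal.coe_injective
    push_cast
    have h1 : Real.sqrt v ^ 2 = v := Real.sq_sqrt hv.le
    have h2 : Real.sqrt (v * np) ^ 2 = v * np := Real.sq_sqrt (by positivity)
    show Real.sqrt v ^ 2 * (np : ℝ) = Real.sqrt (v * np) ^ 2 * 1
    rw [h1, h2, mul_one]

private lemma MFe_G (v : ℝ) (np : ℕ) (hv : 0 < v) (h1 : 100 ≤ v * np) (h2 : v * np ≤ 101) :
    ∫⁻ x : Fin 2 → ℕ → ℝ, ENNReal.ofReal (Real.exp (-(1 / 50) *
        (max (∑ j ∈ Finset.range np, Real.sqrt v * x 0 j)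
          (∑ j ∈ Finset.range np, Real.sqrt v * x 1 j) - 1)))
        ∂(Measure.infinitePi (fun _ : Fin 2 => PI (gaussianReal 0 1)))
      ≤ ENNReal.ofReal (97 / 100) := by
  set s : (ℕ → ℝ) → ℝ := fun x => ∑ j ∈ Finset.range np, Real.sqrt v * x j with hs
  have hsm : Measurable s := by fun_prop
  have : IsProbabilityMeasure ((PI (gaussianReal 0 1)).map s) :=
    Measure.isProbabilityMeasure_map hsm.aemeasurable
  have hmap : (Measure.infinitePi (fun _ : Fin 2 => PI (gaussianReal 0 1))).map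
      (fun x : Fin 2 → ℕ → ℝ => (s (x 0), s (x 1))) =
      ((PI (gaussianReal 0 1)).map s).prod ((PI (gaussianReal 0 1)).map s) := by
    have h := Measure.infinitePi_map_pi (μ := fun _ : Fin 2 => PI (gaussianReal 0 1))
      (f := fun _ : Fin 2 => s) (fun _ => hsm)
    have h' := Measure.infinitePi_map_eval_prod (P := fun _ : Fin 2 => (PI (gaussianReal 0 1)).map s)
      (i := 0) (j := 1) (by decide)
    rw [← h, Measure.map_map (by fun_prop) (by fun_prop)] at h'
    exact h'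
  have hh : Measurable (fun z : ℝ × ℝ => ENNReal.ofReal (Real.exp (-(1 / 50) *
      (max z.1 z.2 - 1)))) := by fun_prop
  have e1 : ∫⁻ x : Fin 2 → ℕ → ℝ, ENNReal.ofReal (Real.exp (-(1 / 50) *
        (max (s (x 0)) (s (x 1)) - 1)))
        ∂(Measure.infinitePi (fun _ : Fin 2 => PI (gaussianReal 0 1))) =
      ∫⁻ z : ℝ × ℝ, ENNReal.ofReal (Real.exp (-(1 / 50) * (max z.1 z.2 - 1)))
        ∂((Measure.infinitePi (fun _ : Fin 2 => PI (gaussianReal 0 1))).map
      (fun x : Fin 2 → ℕ → ℝ => (s (x 0), s (x 1)))) := by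
    rw [lintegral_map hh (by fun_prop)]
  rw [e1, hmap, MFe_sc v np hv, Measure.map_prod_map _ _ (by fun_prop) (by fun_prop),
    lintegral_map hh (by fun_prop)]
  exact dimer_gauss (v * np) h1 h2

private lemma MFe_pmax_meas (c : ℝ) (n : ℕ) :
    Measurable (fun x : ℕ → ℝ => pmax (fun j => c * x j) n) := by
  have h := Finset.measurable_range_sup'' (n := n)
    (f := fun m (x : ℕ → ℝ) => ∑ j ∈ Finset.range m, c * x j) (fun m _ => by fun_prop)
  exact h

private lemma MFe_osc_meas (c : ℝ) (n : ℕ) :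
    Measurable (fun x : ℕ → ℝ => osc (fun j => c * x j) n) := by
  unfold osc
  refine (MFe_pmax_meas c n).add ?_
  have h := MFe_pmax_meas (-c) n
  convert h using 3
  funext j
  ring

private lemma MFe_osc (v : ℝ) (np : ℕ) (hv : 0 < v) (h2 : v * np ≤ 101) :
    ∫⁻ x : Fin 2 → ℕ → ℝ, ENNReal.ofReal (Real.exp (1 / 50 *
        (max (osc (fun j => Real.sqrt v * x 0 j) np) (osc (fun j => Real.sqrt v * x 1 j) np) + 1)))
        ∂(Measure.infinitePi (fun _ : Fin 2 => PI (gaussianReal 0 1)))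
      ≤ ENNReal.ofReal (8 * Real.exp (1 / 50 + 808 / 2500)) := by
  have hm : Measurable (fun y : ℕ → ℝ =>
      ENNReal.ofReal (Real.exp (1 / 50 * osc (fun j => Real.sqrt v * y j) np))) :=
    ENNReal.measurable_ofReal.comp (Real.measurable_exp.comp ((MFe_osc_meas _ _).const_mul _))
  have h1 : ∫⁻ y, ENNReal.ofReal (Real.exp (1 / 50 * osc (fun j => Real.sqrt v * y j) np))
      ∂(PI (gaussianReal 0 1)) ≤ ENNReal.ofReal (4 * Real.exp (808 / 2500)) := by
    rw [← MFe_site (S := Unit) () _ hm]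
    refine (osc_exp_nz (S := Unit) (1 / 50) v (by norm_num) hv.le np ()).trans ?_
    apply ENNReal.ofReal_le_ofReal
    have : 8 * (1 / 50 : ℝ) ^ 2 * v * np ≤ 808 / 2500 := by nlinarith
    gcongr
  have hpt : ∀ x : Fin 2 → ℕ → ℝ, ENNReal.ofReal (Real.exp (1 / 50 *
        (max (osc (fun j => Real.sqrt v * x 0 j) np) (osc (fun j => Real.sqrt v * x 1 j) np) + 1)))
      ≤ ENNReal.ofReal (Real.exp (1 / 50)) *
        ENNReal.ofReal (Real.exp (1 / 50 * osc (fun j => Real.sqrt v * x 0 j) np)) +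
        ENNReal.ofReal (Real.exp (1 / 50)) *
        ENNReal.ofReal (Real.exp (1 / 50 * osc (fun j => Real.sqrt v * x 1 j) np)) := by
    intro x
    rw [← ENNReal.ofReal_mul (Real.exp_pos _).le, ← ENNReal.ofReal_mul (Real.exp_pos _).le,
      ← ENNReal.ofReal_add (by positivity) (by positivity), ← Real.exp_add, ← Real.exp_add]
    apply ENNReal.ofReal_le_ofReal
    rcases le_total (osc (fun j => Real.sqrt v * x 0 j) np)
      (osc (fun j => Real.sqrt v * x 1 j) np) with h | h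
    · rw [max_eq_right h]
      have e : 1 / 50 * (osc (fun j => Real.sqrt v * x 1 j) np + 1) =
        1 / 50 + 1 / 50 * osc (fun j => Real.sqrt v * x 1 j) np := by ring
      rw [e]
      have := Real.exp_pos (1 / 50 + 1 / 50 * osc (fun j => Real.sqrt v * x 0 j) np)
      linarith
    · rw [max_eq_left h]
      have e : 1 / 50 * (osc (fun j => Real.sqrt v * x 0 j) np + 1) =
        1 / 50 + 1 / 50 * osc (fun j => Real.sqrt v * x 0 j) np := by ring
      rw [e]
      have := Real.exp_pos (1 / 50 + 1 / 50 * osc (fun j => Real.sqrt v * x 1 j) np)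
      linarith
  have hm0 : ∀ a : Fin 2, Measurable (fun x : Fin 2 → ℕ → ℝ =>
      ENNReal.ofReal (Real.exp (1 / 50 * osc (fun j => Real.sqrt v * x a j) np))) :=
    fun a => hm.comp (measurable_pi_apply a)
  refine (lintegral_mono hpt).trans ?_
  rw [lintegral_add_left ((hm0 0).const_mul _), lintegral_const_mul _ (hm0 0),
    lintegral_const_mul _ (hm0 1)]
  have m0 := MFe_marg 0 _ hm
  have m1 := MFe_marg 1 _ hm
  rw [m0, m1]
  refine (add_le_add (mul_le_mul_right h1 _) (mul_le_mul_right h1 _)).trans ?_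
  rw [← ENNReal.ofReal_mul (Real.exp_pos _).le, ← ENNReal.ofReal_add (by positivity)
    (by positivity)]
  apply ENNReal.ofReal_le_ofReal
  rw [Real.exp_add]
  linarith

/-- one period of `np` steps, `v np ∈ [100,101]` -/
theorem pairs_affine : ∃ Co : ℝ, 1 ≤ Co ∧
    ∀ (S : Type) [Fintype S] (D : ℕ) (M : MSet S D) (v : ℝ) (np : ℕ), 0 < v → v ≤ 1 →
      100 ≤ v * np → v * np ≤ 101 → ∀ (n : ℕ) (p : Fin n → Fin 2 → S),
      Function.Injective (fun q : Fin n × Fin 2 => p q.1 q.2) →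
      (∀ i, M.dd (p i 0) (p i 1) = 1) → ∀ (F : S → ℝ) (α b : ℝ), 0 ≤ α → 0 ≤ b →
      ∫⁻ ω, ENNReal.ofReal (∏ i, (α * Real.exp (-(1 / 50) *
          min (M.RR (M.mf F (sc v ω) np) (p i 0)) (M.RR (M.mf F (sc v ω) np) (p i 1))) + b))
          ∂(PI (nz S))
        ≤ ENNReal.ofReal (∏ i, (α * (97 / 100) * Real.exp (-(1 / 50) *
          min (M.RR F (p i 0)) (M.RR F (p i 1))) + α * Co + b)) := by
  refine ⟨8 * Real.exp (1 / 50 + 808 / 2500), ?_, ?_⟩
  · have := Real.one_le_exp (x := 1 / 50 + 808 / 2500) (by norm_num)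
    linarith
  intro S _ D M v np hv hv1 h1 h2 n p hp hdd F α b hα hb
  have hnp : 1 ≤ np := by
    rcases Nat.eq_zero_or_pos np with h | h
    · rw [h] at h1
      norm_num at h1
    · exact h
  set r : Fin n → ℝ := fun i => min (M.RR F (p i 0)) (M.RR F (p i 1)) with hr
  set G : (Fin 2 → ℕ → ℝ) → ℝ := fun x => Real.exp (-(1 / 50) *
        (max (∑ j ∈ Finset.range np, Real.sqrt v * x 0 j)
          (∑ j ∈ Finset.range np, Real.sqrt v * x 1 j) - 1)) with hG
  set O : (Fin 2 → ℕ → ℝ) → ℝ := fun x => Real.exp (1 / 50 *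
        (max (osc (fun j => Real.sqrt v * x 0 j) np) (osc (fun j => Real.sqrt v * x 1 j) np) + 1))
    with hO
  have hGm : Measurable G := by
    rw [hG]
    fun_prop
  have hOm : Measurable O := by
    rw [hO]
    exact Real.measurable_exp.comp ((((MFe_osc_meas _ _).comp (measurable_pi_apply 0)).max
      ((MFe_osc_meas _ _).comp (measurable_pi_apply 1))).add_const 1 |>.const_mul _)
  set f : Fin n → (Fin 2 → ℕ → ℝ) → ℝ≥0∞ := fun i x =>
    ENNReal.ofReal (α * Real.exp (-(1 / 50) * r i)) * ENNReal.ofReal (G x) +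
      ENNReal.ofReal α * ENNReal.ofReal (O x) + ENNReal.ofReal b with hf
  have hfm : ∀ i, Measurable (f i) := fun i =>
    (((ENNReal.measurable_ofReal.comp hGm).const_mul _).add
      ((ENNReal.measurable_ofReal.comp hOm).const_mul _)).add_const _
  have hpt : ∀ ω : ℕ → S → ℝ, ENNReal.ofReal (∏ i, (α * Real.exp (-(1 / 50) *
          min (M.RR (M.mf F (sc v ω) np) (p i 0)) (M.RR (M.mf F (sc v ω) np) (p i 1))) + b)) ≤
      ∏ i, f i (fun a j => ω j (p i a)) := by
    intro ω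
    rw [ENNReal.ofReal_prod_of_nonneg (fun i _ => by positivity)]
    refine Finset.prod_le_prod' fun i _ => ?_
    have hstep := pair_step M F (sc v ω) np hnp (p i 0) (p i 1) (hdd i)
    have hGi : G (fun a j => ω j (p i a)) = Real.exp (-(1 / 50) *
        (max (∑ j ∈ Finset.range np, sc v ω j (p i 0))
          (∑ j ∈ Finset.range np, sc v ω j (p i 1)) - 1)) := rfl
    have hOi : O (fun a j => ω j (p i a)) = Real.exp (1 / 50 *
        (max (osc (fun j => sc v ω j (p i 0)) np) (osc (fun j => sc v ω j (p i 1)) np) + 1)) := rfl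
    rw [hf]
    simp only
    rw [hGi, hOi, ← ENNReal.ofReal_mul (by positivity), ← ENNReal.ofReal_mul hα,
      ← ENNReal.ofReal_add (by positivity) (by positivity),
      ← ENNReal.ofReal_add (by positivity) hb]
    apply ENNReal.ofReal_le_ofReal
    have hkey : Real.exp (-(1 / 50) * min (M.RR (M.mf F (sc v ω) np) (p i 0))
        (M.RR (M.mf F (sc v ω) np) (p i 1))) ≤
        Real.exp (-(1 / 50) * r i) * Real.exp (-(1 / 50) *
        (max (∑ j ∈ Finset.range np, sc v ω j (p i 0))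
          (∑ j ∈ Finset.range np, sc v ω j (p i 1)) - 1)) + Real.exp (1 / 50 *
        (max (osc (fun j => sc v ω j (p i 0)) np) (osc (fun j => sc v ω j (p i 1)) np) + 1)) := by
      rw [← Real.exp_add]
      rcases min_le_iff.mp hstep with h | h
      · have h3 : Real.exp (-(1 / 50) * min (M.RR (M.mf F (sc v ω) np) (p i 0))
            (M.RR (M.mf F (sc v ω) np) (p i 1))) ≤ Real.exp (-(1 / 50) * r i + -(1 / 50) *
            (max (∑ j ∈ Finset.range np, sc v ω j (p i 0))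
            (∑ j ∈ Finset.range np, sc v ω j (p i 1)) - 1)) := by
          apply Real.exp_le_exp.mpr
          rw [hr]
          simp only
          linarith
        have := Real.exp_pos (1 / 50 * (max (osc (fun j => sc v ω j (p i 0)) np)
          (osc (fun j => sc v ω j (p i 1)) np) + 1))
        linarith
      · have h3 : Real.exp (-(1 / 50) * min (M.RR (M.mf F (sc v ω) np) (p i 0))
            (M.RR (M.mf F (sc v ω) np) (p i 1))) ≤ Real.exp (1 / 50 *
            (max (osc (fun j => sc v ω j (p i 0)) np) (osc (fun j => sc v ω j (p i 1)) np) + 1)) := by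
          apply Real.exp_le_exp.mpr
          linarith
        have := Real.exp_pos (-(1 / 50) * r i + -(1 / 50) *
            (max (∑ j ∈ Finset.range np, sc v ω j (p i 0))
            (∑ j ∈ Finset.range np, sc v ω j (p i 1)) - 1))
        linarith
    have := mul_le_mul_of_nonneg_left hkey hα
    linarith
  refine (lintegral_mono hpt).trans ?_
  rw [MFe_indep p hp f hfm, ENNReal.ofReal_prod_of_nonneg (fun i _ => by positivity)]
  refine Finset.prod_le_prod' fun i _ => ?_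
  rw [hf]
  simp only
  have hGm' : Measurable (fun x => ENNReal.ofReal (G x)) := hGm.ennreal_ofReal
  have hOm' : Measurable (fun x => ENNReal.ofReal (O x)) := hOm.ennreal_ofReal
  rw [lintegral_add_right _ measurable_const,
    lintegral_add_left (hGm'.const_mul _),
    lintegral_const_mul _ hGm', lintegral_const_mul _ hOm', lintegral_const]
  simp only [measure_univ, mul_one]
  refine (add_le_add (add_le_add (mul_le_mul_right (MFe_G v np hv h1 h2) _)
    (mul_le_mul_right (MFe_osc v np hv h2) _)) le_rfl).trans ?_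
  rw [← ENNReal.ofReal_mul (by positivity), ← ENNReal.ofReal_mul hα,
      ← ENNReal.ofReal_add (by positivity) (by positivity),
      ← ENNReal.ofReal_add (by positivity) hb]
  apply ENNReal.ofReal_le_ofReal
  apply le_of_eq
  ring

private lemma MFe_meas {S : Type} [Fintype S] {D : ℕ} (M : MSet S D) (F : S → ℝ) (v : ℝ) (k : ℕ)
    (x : S) : Measurable (fun ω : ℕ → S → ℝ => M.RR (M.mf F (sc v ω) k) x) := by
  refine (measurable_RR M x).comp (measurable_pi_lambda _ fun y => ?_)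
  have h : Measurable (fun ω : ℕ → S → ℝ => ((F, sc v ω) : (S → ℝ) × (ℕ → S → ℝ))) := by
    unfold sc
    fun_prop
  exact (measurable_mf M k y).comp h

private lemma MFe_glue {S : Type} [Fintype S] {D : ℕ} (M : MSet S D) (F : S → ℝ) (v : ℝ)
    (np k : ℕ) (a b : ℕ → S → ℝ) :
    M.mf F (sc v (glue np a b)) (np + k) = M.mf (M.mf F (sc v a) np) (sc v b) k := by
  rw [mf_shift]
  have e1 : M.mf F (sc v (glue np a b)) np = M.mf F (sc v a) np := by
    apply mf_congr
    intro j hj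
    funext x
    simp [sc, glue, hj]
  have e2 : (fun j => sc v (glue np a b) (np + j)) = sc v b := by
    funext j x
    simp [sc, glue]
  rw [e1, e2]

/-- `w` periods -/
theorem pairs_iter : ∃ C1 : ℝ, 1 ≤ C1 ∧
    ∀ (S : Type) [Fintype S] (D : ℕ) (M : MSet S D) (v : ℝ) (np : ℕ), 0 < v → v ≤ 1 →
      100 ≤ v * np → v * np ≤ 101 → ∀ (w n : ℕ) (p : Fin n → Fin 2 → S),
      Function.Injective (fun q : Fin n × Fin 2 => p q.1 q.2) →
      (∀ i, M.dd (p i 0) (p i 1) = 1) → ∀ (F : S → ℝ),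
      ∫⁻ ω, ENNReal.ofReal (∏ i, Real.exp (-(1 / 50) *
          min (M.RR (M.mf F (sc v ω) (w * np)) (p i 0)) (M.RR (M.mf F (sc v ω) (w * np)) (p i 1))))
          ∂(PI (nz S))
        ≤ ENNReal.ofReal (∏ i, ((97 / 100) ^ w * Real.exp (-(1 / 50) *
          min (M.RR F (p i 0)) (M.RR F (p i 1))) + C1)) := by
  obtain ⟨Co, hCo, H⟩ := pairs_affine
  refine ⟨Co * (100 / 3), by linarith, ?_⟩
  intro S _ D M v np hv hv1 h1 h2 w n p hp hdd
  have key : ∀ (w : ℕ) (F : S → ℝ) (α b : ℝ), 0 ≤ α → 0 ≤ b →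
      ∫⁻ ω, ENNReal.ofReal (∏ i, (α * Real.exp (-(1 / 50) *
          min (M.RR (M.mf F (sc v ω) (w * np)) (p i 0))
            (M.RR (M.mf F (sc v ω) (w * np)) (p i 1))) + b)) ∂(PI (nz S))
        ≤ ENNReal.ofReal (∏ i, (α * (97 / 100) ^ w * Real.exp (-(1 / 50) *
          min (M.RR F (p i 0)) (M.RR F (p i 1))) +
            (α * (Co * (100 / 3)) * (1 - (97 / 100) ^ w) + b))) := by
    intro w
    induction w with
    | zero =>
      intro F α b hα hb
      simp [MSet.mf]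
    | succ w ih =>
      intro F α b hα hb
      have hpow : (0 : ℝ) ≤ 1 - (97 / 100) ^ w := by
        have : ((97 : ℝ) / 100) ^ w ≤ 1 := pow_le_one₀ (by norm_num) (by norm_num)
        linarith
      have e : (w + 1) * np = np + w * np := by ring
      have hm : Measurable (fun ω : ℕ → S → ℝ => ENNReal.ofReal (∏ i, (α * Real.exp (-(1 / 50) *
          min (M.RR (M.mf F (sc v ω) (np + w * np)) (p i 0))
            (M.RR (M.mf F (sc v ω) (np + w * np)) (p i 1))) + b))) := by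
        refine ENNReal.measurable_ofReal.comp (Finset.measurable_prod _ fun i _ => ?_)
        exact ((Real.measurable_exp.comp (((MFe_meas M F v _ _).min
          (MFe_meas M F v _ _)).const_mul _)).const_mul _).add_const _
      rw [e, lintegral_glue np _ hm]
      have h3 : ∀ a : ℕ → S → ℝ, ∫⁻ b', ENNReal.ofReal (∏ i, (α * Real.exp (-(1 / 50) *
          min (M.RR (M.mf F (sc v (glue np a b')) (np + w * np)) (p i 0))
            (M.RR (M.mf F (sc v (glue np a b')) (np + w * np)) (p i 1))) + b)) ∂(PI (nz S)) ≤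
          ENNReal.ofReal (∏ i, (α * (97 / 100) ^ w * Real.exp (-(1 / 50) *
          min (M.RR (M.mf F (sc v a) np) (p i 0)) (M.RR (M.mf F (sc v a) np) (p i 1))) +
            (α * (Co * (100 / 3)) * (1 - (97 / 100) ^ w) + b))) := by
        intro a
        simp only [MFe_glue]
        exact ih (M.mf F (sc v a) np) α b hα hb
      refine (lintegral_mono h3).trans ?_
      refine (H S D M v np hv hv1 h1 h2 n p hp hdd F (α * (97 / 100) ^ w)
        (α * (Co * (100 / 3)) * (1 - (97 / 100) ^ w) + b) (by positivity) (by positivity)).trans ?_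
      apply ENNReal.ofReal_le_ofReal
      apply le_of_eq
      refine Finset.prod_congr rfl fun i _ => ?_
      rw [pow_succ]
      ring
  intro F
  have h := key w F 1 0 zero_le_one le_rfl
  simp only [one_mul, add_zero] at h
  refine h.trans (ENNReal.ofReal_le_ofReal ?_)
  refine Finset.prod_le_prod (fun i _ => ?_) (fun i _ => ?_)
  · have : ((97 : ℝ) / 100) ^ w ≤ 1 := pow_le_one₀ (by norm_num) (by norm_num)
    have h2 : (0 : ℝ) ≤ 1 - (97 / 100) ^ w := by linarith
    positivity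
  · have : (0 : ℝ) ≤ ((97 : ℝ) / 100) ^ w := by positivity
    nlinarith

/-- single site Lyapunov estimate with `n` pairs -/
theorem lyap_F : ∃ C1 : ℝ, 1 ≤ C1 ∧
    ∀ (S : Type) [Fintype S] (D : ℕ) (M : MSet S D) (v : ℝ) (np : ℕ), 0 < v → v ≤ 1 →
      100 ≤ v * np → v * np ≤ 101 → ∀ (w n : ℕ), M.HasLine n → ∀ (F : S → ℝ) (y : S),
      ∫⁻ ω, ENNReal.ofReal (Real.exp (-(n / 50) * M.RR (M.mf F (sc v ω) (w * np)) y))
          ∂(PI (nz S))
        ≤ ENNReal.ofReal (2 ^ n * Real.exp (4 / 50 * n ^ 2) * (97 / 100) ^ (w * n) *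
            Real.exp (-(n / 50) * M.RR F y) + 2 ^ n * Real.exp (2 / 50 * n ^ 2) * C1 ^ n) := by
  obtain ⟨C1, hC1, H⟩ := pairs_iter
  refine ⟨C1, hC1, ?_⟩
  intro S _ D M v np hv hv1 h1 h2 w n hline F y
  obtain ⟨p, hp, hdd, hy⟩ := hline y
  have hfar : ∀ (F' : S → ℝ) (i : Fin n) (a : Fin 2), M.RR F' (p i a) ≤ M.RR F' y + 2 * n := by
    intro F' i a
    have h3 := RR_lip M F' (p i a) y
    have h4 : (M.dd (p i a) y : ℝ) ≤ 2 * n := by
      rw [M.dd_comm]
      exact_mod_cast hy i a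
    linarith
  have hnear : ∀ (F' : S → ℝ) (i : Fin n) (a : Fin 2), M.RR F' y ≤ M.RR F' (p i a) + 2 * n := by
    intro F' i a
    have h3 := RR_lip M F' y (p i a)
    have h4 : (M.dd y (p i a) : ℝ) ≤ 2 * n := by exact_mod_cast hy i a
    linarith
  have hexp : ∀ u : ℝ, Real.exp (-(n / 50) * u) = ∏ _i : Fin n, Real.exp (-(1 / 50) * u) := by
    intro u
    rw [Finset.prod_const, Finset.card_univ, Fintype.card_fin, ← Real.exp_nat_mul]
    congr 1
    ring
  have hpt : ∀ ω : ℕ → S → ℝ,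
      ENNReal.ofReal (Real.exp (-(n / 50) * M.RR (M.mf F (sc v ω) (w * np)) y)) ≤
      ENNReal.ofReal (Real.exp (2 / 50 * n ^ 2)) * ENNReal.ofReal (∏ i, Real.exp (-(1 / 50) *
          min (M.RR (M.mf F (sc v ω) (w * np)) (p i 0))
            (M.RR (M.mf F (sc v ω) (w * np)) (p i 1)))) := by
    intro ω
    rw [← ENNReal.ofReal_mul (Real.exp_pos _).le]
    apply ENNReal.ofReal_le_ofReal
    have e : Real.exp (2 / 50 * (n : ℝ) ^ 2) = ∏ _i : Fin n, Real.exp (2 / 50 * n) := by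
      rw [Finset.prod_const, Finset.card_univ, Fintype.card_fin, ← Real.exp_nat_mul]
      congr 1
      ring
    rw [e, ← Finset.prod_mul_distrib, hexp]
    refine Finset.prod_le_prod (fun i _ => (Real.exp_pos _).le) (fun i _ => ?_)
    rw [← Real.exp_add]
    apply Real.exp_le_exp.mpr
    have := hfar (M.mf F (sc v ω) (w * np)) i 0
    have h5 := min_le_left (M.RR (M.mf F (sc v ω) (w * np)) (p i 0))
      (M.RR (M.mf F (sc v ω) (w * np)) (p i 1))
    linarith
  refine (lintegral_mono hpt).trans ?_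
  rw [lintegral_const_mul' _ _ ENNReal.ofReal_ne_top]
  refine (mul_le_mul_right (H S D M v np hv hv1 h1 h2 w n p hp hdd F) _).trans ?_
  rw [← ENNReal.ofReal_mul (Real.exp_pos _).le]
  apply ENNReal.ofReal_le_ofReal
  set A : ℝ := (97 / 100) ^ w * (Real.exp (2 / 50 * n) * Real.exp (-(1 / 50) * M.RR F y)) with hA
  have hA0 : 0 ≤ A := by positivity
  have hprod : ∏ i, ((97 / 100) ^ w * Real.exp (-(1 / 50) *
          min (M.RR F (p i 0)) (M.RR F (p i 1))) + C1) ≤ (A + C1) ^ n := by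
    have e : (A + C1) ^ n = ∏ _i : Fin n, (A + C1) := by
      rw [Finset.prod_const, Finset.card_univ, Fintype.card_fin]
    rw [e]
    refine Finset.prod_le_prod (fun i _ => by positivity) (fun i _ => ?_)
    rw [hA]
    gcongr
    rw [← Real.exp_add]
    apply Real.exp_le_exp.mpr
    have h3 := hnear F i 0
    have h4 := hnear F i 1
    have h5 : M.RR F y - 2 * n ≤ min (M.RR F (p i 0)) (M.RR F (p i 1)) :=
      le_min (by linarith) (by linarith)
    linarith
  have hpow : (A + C1) ^ n ≤ 2 ^ n * (A ^ n + C1 ^ n) := by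
    have h3 : A + C1 ≤ 2 * max A C1 := by
      have := le_max_left A C1
      have := le_max_right A C1
      linarith
    calc (A + C1) ^ n ≤ (2 * max A C1) ^ n := pow_le_pow_left₀ (by positivity) h3 n
      _ = 2 ^ n * (max A C1) ^ n := mul_pow _ _ _
      _ ≤ 2 ^ n * (A ^ n + C1 ^ n) := by
        gcongr
        rcases le_total A C1 with h | h
        · rw [max_eq_right h]
          have : 0 ≤ A ^ n := by positivity
          linarith
        · rw [max_eq_left h]
          have : 0 ≤ C1 ^ n := by positivity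
          linarith
  have hAn : A ^ n = (97 / 100) ^ (w * n) *
      (Real.exp (2 / 50 * n ^ 2) * Real.exp (-(n / 50) * M.RR F y)) := by
    rw [hA, mul_pow, mul_pow, ← pow_mul, ← Real.exp_nat_mul, ← Real.exp_nat_mul]
    congr 2
    · congr 1
      ring
    · congr 1
      ring
  calc Real.exp (2 / 50 * n ^ 2) * ∏ i, ((97 / 100) ^ w * Real.exp (-(1 / 50) *
          min (M.RR F (p i 0)) (M.RR F (p i 1))) + C1)
      ≤ Real.exp (2 / 50 * n ^ 2) * (2 ^ n * (A ^ n + C1 ^ n)) :=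
        mul_le_mul_of_nonneg_left (hprod.trans hpow) (Real.exp_pos _).le
    _ = 2 ^ n * (Real.exp (2 / 50 * n ^ 2) * Real.exp (2 / 50 * n ^ 2)) * (97 / 100) ^ (w * n) *
            Real.exp (-(n / 50) * M.RR F y) + 2 ^ n * Real.exp (2 / 50 * n ^ 2) * C1 ^ n := by
        rw [hAn]
        ring
    _ = _ := by
        rw [← Real.exp_add]
        congr 5
        ring

end DynC
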