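import Pool.Agent.Lib_MP_36b788c.MFd2
import Pool.Agent.Lib_MP_36b788c.MFe

/-!
# Height model: an uncut lineage has many good windows

`Y_0 = 1`, `Y_{w+1}(z') = Σ_z e^{-3 dd z z'} (θ if B_w(z) else 1) Y_w(z)`, `B_w(z) = B(F_{w nu}, ω^{(w)}, z)`.

PROOF.
* `Yp_path`: for every sequence `z_0, …, z_m`: `e^{-3 Σ_{w<m} dd z_w z_{w+1}} θ^{#{w<m : B_w(z_w)}} ≤ Y_m(z_m)` (keep one term of each sum).
* `Yp_exp`: let `h(F,z) ≥ 1` with `E_ω[(θ if B(F,ω,z) else 1) h(mf F ω nu, z')] ≤ b1 e^{dd z z'} h(F,z)` for all `F ≤ 0`, `z`, `z'`, and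
  `h(X,z) ≤ H0 e^{dd z x}`. Then `E[Y_w(z) h(F_{w nu},z)] ≤ (b1 CS)^w H0 e^{dd z x}`, `CS ≥ sup_x Σ_z e^{-dd x z}`. Induction on `w` with `lintegral_glue (w nu)`:
  `E[Y_{w+1}(z') h(F_{w+1},z')] = Σ_z e^{-3dd z z'} E[Y_w(z) E_ω[..]] ≤ Σ_z e^{-2 dd z z'} b1 E[Y_w(z) h(F_w,z)] ≤ b1 (b1 CS)^w H0 Σ_z e^{-2dd z z' + dd z x}`, `dd z x ≤ dd z z' + dd z' x`.
* `bad_many`: on the event, with `z_w` = position of the lineage of `(x, m nu + r')` at time `w nu`, `Σ_{w<m} dd z_w z_{w+1} + dd z_m x ≤ len ≤ R`: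
  `θ^{k} ≤ e^{3R} Σ_z e^{-3 dd z x} Y_m(z)`; take expectations, `E Y_m(z) ≤ (b1 CS)^m H0 e^{dd z x}`: `θ^k P ≤ e^{3R} CS (b1 CS)^m H0`.
* `lyap_h`: `h(F,z) = 1 + (θ/K) Φ(F,z)`, `Φ(F,z) = Σ_y e^{-dd y z} e^{-Λ RR F y}`, `B = {Φ(F,z) > K}`. If `E e^{-Λ RR F'(y)} ≤ ρ e^{-Λ RR F(y)} + CL`: `E Φ(F',z') ≤ ρ e^{dd z z'} Φ(F,z) + CL CS`.
  `Φ(F,z) ≤ K`: `E h' ≤ 1 + θ CL CS/K + ρ e^{dd} (θ/K)Φ ≤ (1 + θ CL CS/K + ρ) e^{dd} h`. `Φ > K`: `h ≥ (θ/K)Φ ≥ θ`:
  `θ E h' ≤ θ (1 + θ CL CS / K) + θ ρ e^{dd} (θ/K) Φ ≤ (1 + θCL CS/K + θρ) e^{dd} h`. So `b1 = 1 + θ CL CS/K + θ ρ` (`θ ≥ 1`).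
  Take `θ = 1/ρ`, `K ≥ θ CL CS`: `b1 ≤ 3`.
-/

open MeasureTheory ProbabilityTheory
open scoped ENNReal

namespace DynC

variable {S : Type} [Fintype S] {D : ℕ} (M : MSet S D)

/-- weighted sum over sequences of positions -/
noncomputable def Yp (v θ : ℝ) (nu : ℕ) (B : (S → ℝ) → (ℕ → S → ℝ) → S → Prop) (X : S → ℝ)
    (ω : ℕ → S → ℝ) : ℕ → S → ℝ
  | 0 => fun _ => 1
  | w + 1 => fun z' => open Classical in ∑ z, Real.exp (-(3 * (M.dd z z' : ℝ))) *
      (if B (M.mf X (sc v ω) (w * nu)) (fun j => ω (w * nu + j)) z then θ else 1) *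
      Yp v θ nu B X ω w z

private theorem MFf_Yp_succ (v θ : ℝ) (nu : ℕ) (B : (S → ℝ) → (ℕ → S → ℝ) → S → Prop) (X : S → ℝ)
    (ω : ℕ → S → ℝ) (w : ℕ) (z' : S) : open Classical in
    Yp M v θ nu B X ω (w + 1) z' = ∑ z, Real.exp (-(3 * (M.dd z z' : ℝ))) *
      (if B (M.mf X (sc v ω) (w * nu)) (fun j => ω (w * nu + j)) z then θ else 1) *
      Yp M v θ nu B X ω w z := rfl

private theorem MFf_Yp_nonneg (v θ : ℝ) (hθ : 1 ≤ θ) (nu : ℕ)
    (B : (S → ℝ) → (ℕ → S → ℝ) → S → Prop) (X : S → ℝ)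
    (ω : ℕ → S → ℝ) (w : ℕ) : ∀ z, 0 ≤ Yp M v θ nu B X ω w z := by
  classical
  induction w with
  | zero => intro z; exact zero_le_one
  | succ w ih =>
    intro z'
    rw [MFf_Yp_succ]
    apply Finset.sum_nonneg
    intro z _
    apply mul_nonneg _ (ih z)
    apply mul_nonneg (Real.exp_nonneg _)
    split_ifs
    · linarith
    · exact zero_le_one

private theorem MFf_sc_glue (v : ℝ) (n : ℕ) (a b : ℕ → S → ℝ) (j : ℕ) (hj : j < n) :
    sc v (glue n a b) j = sc v a j := by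
  funext y
  simp only [sc, glue, if_pos hj]

private theorem MFf_glue_add (n : ℕ) (a b : ℕ → S → ℝ) :
    (fun j => glue n a b (n + j)) = b := by
  funext j
  simp only [glue]
  rw [if_neg (by omega)]
  congr 1
  omega

private theorem MFf_mf_glue (v : ℝ) (X : S → ℝ) (n : ℕ) (a b : ℕ → S → ℝ) :
    M.mf X (sc v (glue n a b)) n = M.mf X (sc v a) n :=
  mf_congr M X _ _ n (fun j hj => MFf_sc_glue v n a b j hj)

private theorem MFf_mf_glue_add (v : ℝ) (X : S → ℝ) (n m : ℕ) (a b : ℕ → S → ℝ) :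
    M.mf X (sc v (glue n a b)) (n + m) = M.mf (M.mf X (sc v a) n) (sc v b) m := by
  rw [mf_shift, MFf_mf_glue]
  congr 1
  funext j y
  have h := congrFun (congrFun (MFf_glue_add n a b) j) y
  simp only [sc]
  rw [h]

private theorem MFf_Yp_congr (v θ : ℝ) (nu : ℕ) (B : (S → ℝ) → (ℕ → S → ℝ) → S → Prop)
    (hB : ∀ F z ω ω', (∀ j, j < nu → ω j = ω' j) → (B F ω z ↔ B F ω' z)) (X : S → ℝ)
    (ω ω' : ℕ → S → ℝ) (w : ℕ) : (∀ j, j < w * nu → ω j = ω' j) →
    ∀ z, Yp M v θ nu B X ω w z = Yp M v θ nu B X ω' w z := by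
  classical
  induction w with
  | zero => intro _ z; rfl
  | succ w ih =>
    intro hj z'
    have hj' : ∀ j, j < w * nu → ω j = ω' j := by
      intro j h
      apply hj
      have : (w + 1) * nu = w * nu + nu := by ring
      omega
    rw [MFf_Yp_succ, MFf_Yp_succ]
    apply Finset.sum_congr rfl
    intro z _
    rw [ih hj' z]
    have h1 : M.mf X (sc v ω) (w * nu) = M.mf X (sc v ω') (w * nu) := by
      apply mf_congr
      intro j h
      funext y
      simp only [sc, hj' j h]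
    have h2 : (B (M.mf X (sc v ω) (w * nu)) (fun j => ω (w * nu + j)) z) ↔
        (B (M.mf X (sc v ω') (w * nu)) (fun j => ω' (w * nu + j)) z) := by
      rw [h1]
      apply hB
      intro j h
      apply hj
      have : (w + 1) * nu = w * nu + nu := by ring
      omega
    have h3 : (if B (M.mf X (sc v ω) (w * nu)) (fun j => ω (w * nu + j)) z then θ else 1) =
        (if B (M.mf X (sc v ω') (w * nu)) (fun j => ω' (w * nu + j)) z then θ else 1) := by
      by_cases h : B (M.mf X (sc v ω) (w * nu)) (fun j => ω (w * nu + j)) z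
      · rw [if_pos h, if_pos (h2.mp h)]
      · rw [if_neg h, if_neg (fun h' => h (h2.mpr h'))]
    rw [h3]

private theorem MFf_meas_sc (v : ℝ) : Measurable (fun ω : ℕ → S → ℝ => sc v ω) := by
  apply measurable_pi_lambda
  intro j
  apply measurable_pi_lambda
  intro y
  simp only [sc]
  exact measurable_const.mul ((measurable_pi_apply y).comp (measurable_pi_apply j))

private theorem MFf_meas_mf (v : ℝ) (X : S → ℝ) (n : ℕ) :
    Measurable (fun ω : ℕ → S → ℝ => M.mf X (sc v ω) n) := by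
  apply measurable_pi_lambda
  intro y
  exact (measurable_mf M n y).comp (measurable_const.prodMk (MFf_meas_sc v))

private theorem MFf_meas_tail (n : ℕ) :
    Measurable (fun ω : ℕ → S → ℝ => fun j => ω (n + j)) := by
  apply measurable_pi_lambda
  intro j
  exact measurable_pi_apply _

private theorem MFf_meas_Yp (v θ : ℝ) (nu : ℕ) (B : (S → ℝ) → (ℕ → S → ℝ) → S → Prop)
    (hm : ∀ z, MeasurableSet {p : (S → ℝ) × (ℕ → S → ℝ) | B p.1 p.2 z}) (X : S → ℝ)
    (w : ℕ) : ∀ z, Measurable (fun ω => Yp M v θ nu B X ω w z) := by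
  classical
  induction w with
  | zero => intro z; exact measurable_const
  | succ w ih =>
    intro z'
    simp only [MFf_Yp_succ]
    apply Finset.measurable_sum
    intro z _
    refine (measurable_const.mul ?_).mul (ih z)
    refine Measurable.ite ?_ measurable_const measurable_const
    exact ((MFf_meas_mf M v X (w * nu)).prodMk (MFf_meas_tail (w * nu))) (hm z)

private theorem MFf_CS_nonneg (CS : ℝ) (hS : ∀ x, ∑ z, Real.exp (-(M.dd x z : ℝ)) ≤ CS) (x : S) :
    0 ≤ CS :=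
  le_trans (Finset.sum_nonneg fun z _ => Real.exp_nonneg _) (hS x)

theorem Yp_exp (v θ b1 CS H0 : ℝ) (hθ : 1 ≤ θ) (hb1 : 0 ≤ b1) (hH : 0 ≤ H0) (nu : ℕ)
    (B : (S → ℝ) → (ℕ → S → ℝ) → S → Prop)
    (hm : ∀ z, MeasurableSet {p : (S → ℝ) × (ℕ → S → ℝ) | B p.1 p.2 z})
    (hB : ∀ F z ω ω', (∀ j, j < nu → ω j = ω' j) → (B F ω z ↔ B F ω' z))
    (hS : ∀ x, ∑ z, Real.exp (-(M.dd x z : ℝ)) ≤ CS)
    (h : (S → ℝ) → S → ℝ) (hhm : ∀ z, Measurable fun F => h F z) (hh1 : ∀ F z, 1 ≤ h F z)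
    (hdrift : ∀ F, (∀ y, F y ≤ 0) → ∀ z z', open Classical in
      ∫⁻ ω, ENNReal.ofReal ((if B F ω z then θ else 1) * h (M.mf F (sc v ω) nu) z') ∂(PI (nz S))
        ≤ ENNReal.ofReal (b1 * Real.exp (M.dd z z') * h F z))
    (X : S → ℝ) (hX : ∀ y, X y ≤ 0) (x : S) (hX0 : ∀ z, h X z ≤ H0 * Real.exp (M.dd z x)) (w : ℕ)
    (z : S) :
    ∫⁻ ω, ENNReal.ofReal (Yp M v θ nu B X ω w z * h (M.mf X (sc v ω) (w * nu)) z) ∂(PI (nz S))
      ≤ ENNReal.ofReal ((b1 * CS) ^ w * H0 * Real.exp (M.dd z x)) := by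
  classical
  have hCS : 0 ≤ CS := MFf_CS_nonneg M CS hS x
  induction w generalizing z with
  | zero =>
    have h0 : ∀ ω : ℕ → S → ℝ, ENNReal.ofReal (Yp M v θ nu B X ω 0 z *
        h (M.mf X (sc v ω) (0 * nu)) z) = ENNReal.ofReal (h X z) := by
      intro ω
      have h1 : M.mf X (sc v ω) (0 * nu) = X := by rw [Nat.zero_mul]; rfl
      have h2 : Yp M v θ nu B X ω 0 z = 1 := rfl
      rw [h1, h2, one_mul]
    simp only [h0]
    rw [lintegral_const, measure_univ, mul_one, pow_zero, one_mul]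
    exact ENNReal.ofReal_le_ofReal (hX0 z)
  | succ w ih =>
    have hmeas : ∀ (n : ℕ) (y : S), Measurable (fun ω : ℕ → S → ℝ =>
        h (M.mf X (sc v ω) n) y) := fun n y => (hhm y).comp (MFf_meas_mf M v X n)
    have hwn : (w + 1) * nu = w * nu + nu := by ring
    have hmF : Measurable (fun ω : ℕ → S → ℝ => ENNReal.ofReal (Yp M v θ nu B X ω (w + 1) z *
        h (M.mf X (sc v ω) ((w + 1) * nu)) z)) :=
      ((MFf_meas_Yp M v θ nu B hm X (w + 1) z).mul (hmeas ((w + 1) * nu) z)).ennreal_ofReal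
    rw [lintegral_glue (w * nu) _ hmF]
    -- integrand for fixed `a`
    have key : ∀ a : ℕ → S → ℝ, ∫⁻ b, ENNReal.ofReal (Yp M v θ nu B X (glue (w * nu) a b) (w + 1) z *
        h (M.mf X (sc v (glue (w * nu) a b)) ((w + 1) * nu)) z) ∂(PI (nz S)) ≤
        ∑ y, ENNReal.ofReal (b1 * Real.exp (-(2 * (M.dd y z : ℝ)))) *
          ENNReal.ofReal (Yp M v θ nu B X a w y * h (M.mf X (sc v a) (w * nu)) y) := by
      intro a
      have e1 : ∀ b : ℕ → S → ℝ, ENNReal.ofReal (Yp M v θ nu B X (glue (w * nu) a b) (w + 1) z *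
          h (M.mf X (sc v (glue (w * nu) a b)) ((w + 1) * nu)) z) =
          ∑ y, ENNReal.ofReal (Real.exp (-(3 * (M.dd y z : ℝ))) * Yp M v θ nu B X a w y) *
            ENNReal.ofReal ((if B (M.mf X (sc v a) (w * nu)) b y then θ else 1) *
              h (M.mf (M.mf X (sc v a) (w * nu)) (sc v b) nu) z) := by
        intro b
        have hh0 : 0 ≤ h (M.mf (M.mf X (sc v a) (w * nu)) (sc v b) nu) z :=
          le_trans zero_le_one (hh1 _ _)
        rw [MFf_Yp_succ, hwn, MFf_mf_glue_add, MFf_mf_glue, MFf_glue_add, Finset.sum_mul,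
          ENNReal.ofReal_sum_of_nonneg]
        · apply Finset.sum_congr rfl
          intro y _
          rw [MFf_Yp_congr M v θ nu B hB X (glue (w * nu) a b) a w (by
            intro j hj
            simp only [glue, if_pos hj]) y]
          rw [← ENNReal.ofReal_mul (mul_nonneg (Real.exp_nonneg _)
            (MFf_Yp_nonneg M v θ hθ nu B X a w y))]
          congr 1
          ring
        · intro y _
          apply mul_nonneg _ hh0
          apply mul_nonneg _ (MFf_Yp_nonneg M v θ hθ nu B X _ w y)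
          apply mul_nonneg (Real.exp_nonneg _)
          split_ifs
          · linarith
          · exact zero_le_one
      simp only [e1]
      have hmb : ∀ y : S, Measurable (fun b : ℕ → S → ℝ =>
          ENNReal.ofReal ((if B (M.mf X (sc v a) (w * nu)) b y then θ else 1) *
              h (M.mf (M.mf X (sc v a) (w * nu)) (sc v b) nu) z)) := by
        intro y
        apply Measurable.ennreal_ofReal
        refine Measurable.mul ?_ ((hhm z).comp (MFf_meas_mf M v _ nu))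
        refine Measurable.ite ?_ measurable_const measurable_const
        exact (measurable_const.prodMk measurable_id) (hm y)
      rw [lintegral_finsetSum _ (fun y _ => (hmb y).const_mul _)]
      apply Finset.sum_le_sum
      intro y _
      rw [lintegral_const_mul _ (hmb y)]
      have hd := hdrift (M.mf X (sc v a) (w * nu)) (fun u => mf_nonpos M X hX _ _ u) y z
      refine le_trans (mul_le_mul_right hd _) ?_
      have hYn := MFf_Yp_nonneg M v θ hθ nu B X a w y
      rw [← ENNReal.ofReal_mul (mul_nonneg (Real.exp_nonneg _) hYn),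
        ← ENNReal.ofReal_mul (mul_nonneg hb1 (Real.exp_nonneg _))]
      apply ENNReal.ofReal_le_ofReal
      have he : Real.exp (-(3 * (M.dd y z : ℝ))) * Real.exp (M.dd y z) =
          Real.exp (-(2 * (M.dd y z : ℝ))) := by
        rw [← Real.exp_add]; congr 1; ring
      have : Real.exp (-(3 * (M.dd y z : ℝ))) * Yp M v θ nu B X a w y *
          (b1 * Real.exp (M.dd y z) * h (M.mf X (sc v a) (w * nu)) y) =
          b1 * (Real.exp (-(3 * (M.dd y z : ℝ))) * Real.exp (M.dd y z)) *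
          (Yp M v θ nu B X a w y * h (M.mf X (sc v a) (w * nu)) y) := by ring
      rw [this, he]
    refine le_trans (lintegral_mono key) ?_
    have hma : ∀ y : S, Measurable (fun a : ℕ → S → ℝ =>
        ENNReal.ofReal (Yp M v θ nu B X a w y * h (M.mf X (sc v a) (w * nu)) y)) := fun y =>
      ((MFf_meas_Yp M v θ nu B hm X w y).mul (hmeas (w * nu) y)).ennreal_ofReal
    rw [lintegral_finsetSum _ (fun y _ => (hma y).const_mul _)]
    have step : ∀ y ∈ (Finset.univ : Finset S),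
        ∫⁻ a, ENNReal.ofReal (b1 * Real.exp (-(2 * (M.dd y z : ℝ)))) *
          ENNReal.ofReal (Yp M v θ nu B X a w y * h (M.mf X (sc v a) (w * nu)) y) ∂(PI (nz S)) ≤
        ENNReal.ofReal (b1 * Real.exp (-(2 * (M.dd y z : ℝ))) *
          ((b1 * CS) ^ w * H0 * Real.exp (M.dd y x))) := by
      intro y _
      rw [lintegral_const_mul _ (hma y),
        ENNReal.ofReal_mul (mul_nonneg hb1 (Real.exp_nonneg _))]
      exact mul_le_mul_right (ih y) _
    refine le_trans (Finset.sum_le_sum step) ?_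
    have hpow : 0 ≤ (b1 * CS) ^ w := pow_nonneg (mul_nonneg hb1 hCS) w
    rw [← ENNReal.ofReal_sum_of_nonneg]
    · apply ENNReal.ofReal_le_ofReal
      have hterm : ∀ y ∈ (Finset.univ : Finset S), b1 * Real.exp (-(2 * (M.dd y z : ℝ))) *
          ((b1 * CS) ^ w * H0 * Real.exp (M.dd y x)) ≤
          (b1 * (b1 * CS) ^ w * H0 * Real.exp (M.dd z x)) * Real.exp (-(M.dd z y : ℝ)) := by
        intro y _
        have h1 : Real.exp (-(2 * (M.dd y z : ℝ))) * Real.exp (M.dd y x) ≤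
            Real.exp (M.dd z x) * Real.exp (-(M.dd z y : ℝ)) := by
          rw [← Real.exp_add, ← Real.exp_add, Real.exp_le_exp]
          have h2 : (M.dd y x : ℝ) ≤ M.dd y z + M.dd z x := by exact_mod_cast M.dd_tri y z x
          have h3 : (M.dd z y : ℝ) = M.dd y z := by rw [M.dd_comm]
          rw [h3]
          linarith
        have h4 : 0 ≤ b1 * (b1 * CS) ^ w * H0 := mul_nonneg (mul_nonneg hb1 hpow) hH
        calc b1 * Real.exp (-(2 * (M.dd y z : ℝ))) * ((b1 * CS) ^ w * H0 * Real.exp (M.dd y x))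
            = (b1 * (b1 * CS) ^ w * H0) *
              (Real.exp (-(2 * (M.dd y z : ℝ))) * Real.exp (M.dd y x)) := by ring
          _ ≤ (b1 * (b1 * CS) ^ w * H0) *
              (Real.exp (M.dd z x) * Real.exp (-(M.dd z y : ℝ))) :=
              mul_le_mul_of_nonneg_left h1 h4
          _ = _ := by ring
      refine le_trans (Finset.sum_le_sum hterm) ?_
      rw [← Finset.mul_sum]
      have h5 : 0 ≤ b1 * (b1 * CS) ^ w * H0 * Real.exp (M.dd z x) :=
        mul_nonneg (mul_nonneg (mul_nonneg hb1 hpow) hH) (Real.exp_nonneg _)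
      refine le_trans (mul_le_mul_of_nonneg_left (hS z) h5) (le_of_eq ?_)
      ring
    · intro y _
      exact mul_nonneg (mul_nonneg hb1 (Real.exp_nonneg _))
        (mul_nonneg (mul_nonneg hpow hH) (Real.exp_nonneg _))

/-- one term of each sum -/
private theorem MFf_Yp_path (v θ : ℝ) (hθ : 1 ≤ θ) (nu : ℕ)
    (B : (S → ℝ) → (ℕ → S → ℝ) → S → Prop) (X : S → ℝ)
    (ω : ℕ → S → ℝ) (zs : ℕ → S) (m : ℕ) : open Classical in
    Real.exp (-(3 * ∑ w ∈ Finset.range m, (M.dd (zs w) (zs (w + 1)) : ℝ))) *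
      θ ^ ((Finset.range m).filter fun w => B (M.mf X (sc v ω) (w * nu))
        (fun j => ω (w * nu + j)) (zs w)).card ≤ Yp M v θ nu B X ω m (zs m) := by
  classical
  induction m with
  | zero => simp [Yp]
  | succ m ih =>
    rw [MFf_Yp_succ]
    have hYn := MFf_Yp_nonneg M v θ hθ nu B X ω m
    have hnn : ∀ z ∈ (Finset.univ : Finset S), 0 ≤ Real.exp (-(3 * (M.dd z (zs (m + 1)) : ℝ))) *
        (if B (M.mf X (sc v ω) (m * nu)) (fun j => ω (m * nu + j)) z then θ else 1) *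
        Yp M v θ nu B X ω m z := by
      intro z _
      apply mul_nonneg _ (hYn z)
      apply mul_nonneg (Real.exp_nonneg _)
      split_ifs
      · linarith
      · exact zero_le_one
    refine le_trans ?_ (Finset.single_le_sum hnn (Finset.mem_univ (zs m)))
    rw [Finset.sum_range_succ]
    have he : Real.exp (-(3 * (∑ w ∈ Finset.range m, (M.dd (zs w) (zs (w + 1)) : ℝ) +
        (M.dd (zs m) (zs (m + 1)) : ℝ)))) =
        Real.exp (-(3 * (M.dd (zs m) (zs (m + 1)) : ℝ))) *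
        Real.exp (-(3 * ∑ w ∈ Finset.range m, (M.dd (zs w) (zs (w + 1)) : ℝ))) := by
      rw [← Real.exp_add]; congr 1; ring
    rw [he, Finset.range_add_one, Finset.filter_insert]
    by_cases hb : B (M.mf X (sc v ω) (m * nu)) (fun j => ω (m * nu + j)) (zs m)
    · rw [if_pos hb, if_pos hb, Finset.card_insert_of_notMem (by simp), pow_succ]
      have h2 := mul_le_mul_of_nonneg_left ih
        (mul_nonneg (Real.exp_nonneg (-(3 * (M.dd (zs m) (zs (m + 1)) : ℝ))))
          (le_trans zero_le_one hθ))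
      refine le_trans (le_of_eq ?_) h2
      ring
    · rw [if_neg hb, if_neg hb, mul_one]
      have h2 := mul_le_mul_of_nonneg_left ih
        (Real.exp_nonneg (-(3 * (M.dd (zs m) (zs (m + 1)) : ℝ))))
      refine le_trans (le_of_eq ?_) h2
      ring

/-- blocks of a lineage: displacement over windows -/
private theorem MFf_blocks (y : ℕ → S) (r' nu m : ℕ) :
    (∑ w ∈ Finset.range m, (M.dd (y (r' + (m - w) * nu)) (y (r' + (m - (w + 1)) * nu)) : ℝ)) ≤
      ∑ l ∈ Finset.Ico r' (r' + m * nu), (M.dd (y l) (y (l + 1)) : ℝ) := by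
  have htri : ∀ a k : ℕ, (M.dd (y (a + k)) (y a) : ℝ) ≤
      ∑ l ∈ Finset.Ico a (a + k), (M.dd (y l) (y (l + 1)) : ℝ) := by
    intro a k
    induction k with
    | zero => simp [M.dd_self]
    | succ k ih =>
      rw [← Nat.add_assoc, Finset.sum_Ico_succ_top (by omega)]
      have h1 : (M.dd (y (a + k + 1)) (y a) : ℝ) ≤
          M.dd (y (a + k + 1)) (y (a + k)) + M.dd (y (a + k)) (y a) := by
        exact_mod_cast M.dd_tri _ _ _
      have h2 : (M.dd (y (a + k + 1)) (y (a + k)) : ℝ) = M.dd (y (a + k)) (y (a + k + 1)) := by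
        rw [M.dd_comm]
      rw [← h2]
      linarith
  induction m with
  | zero => simp
  | succ m ih =>
    rw [Finset.sum_range_succ']
    have h1 : ∑ w ∈ Finset.range m, (M.dd (y (r' + (m + 1 - (w + 1)) * nu))
        (y (r' + (m + 1 - (w + 1 + 1)) * nu)) : ℝ) =
        ∑ w ∈ Finset.range m, (M.dd (y (r' + (m - w) * nu)) (y (r' + (m - (w + 1)) * nu)) : ℝ) := by
      apply Finset.sum_congr rfl
      intro w _
      rw [Nat.add_sub_add_right, Nat.add_sub_add_right]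
    rw [h1]
    have h2 := htri (r' + m * nu) nu
    have h3 : r' + m * nu + nu = r' + (m + 1) * nu := by ring
    rw [h3] at h2
    have h4 : (m + 1 - 0) = m + 1 := rfl
    have h5 : (m + 1 - (0 + 1)) = m := rfl
    rw [h4, h5]
    rw [← Finset.sum_Ico_consecutive _ (show r' ≤ r' + m * nu by omega)
      (show r' + m * nu ≤ r' + (m + 1) * nu by rw [← h3]; omega)]
    linarith

/-- few sequences have many bad windows -/
theorem bad_many (v θ b1 CS H0 : ℝ) (hθ : 1 ≤ θ) (hb1 : 0 ≤ b1) (hH : 0 ≤ H0) (nu : ℕ)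
    (B : (S → ℝ) → (ℕ → S → ℝ) → S → Prop)
    (hm : ∀ z, MeasurableSet {p : (S → ℝ) × (ℕ → S → ℝ) | B p.1 p.2 z})
    (hB : ∀ F z ω ω', (∀ j, j < nu → ω j = ω' j) → (B F ω z ↔ B F ω' z))
    (hS : ∀ x, ∑ z, Real.exp (-(M.dd x z : ℝ)) ≤ CS)
    (h : (S → ℝ) → S → ℝ) (hhm : ∀ z, Measurable fun F => h F z) (hh1 : ∀ F z, 1 ≤ h F z)
    (hdrift : ∀ F, (∀ y, F y ≤ 0) → ∀ z z', open Classical in
      ∫⁻ ω, ENNReal.ofReal ((if B F ω z then θ else 1) * h (M.mf F (sc v ω) nu) z') ∂(PI (nz S))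
        ≤ ENNReal.ofReal (b1 * Real.exp (M.dd z z') * h F z))
    (X : S → ℝ) (hX : ∀ y, X y ≤ 0) (x : S) (hX0 : ∀ z, h X z ≤ H0 * Real.exp (M.dd z x))
    (m r' k : ℕ) (R : ℝ) :
    PI (nz S) {ω | (∑ l ∈ Finset.range (m * nu + r'),
          (M.dd (M.lin X (sc v ω) (m * nu + r') x l)
            (M.lin X (sc v ω) (m * nu + r') x (l + 1)) : ℝ)) ≤ R ∧
        k ≤ gcount M v nu B X ω m (M.lin X (sc v ω) (m * nu + r') x r')}
      ≤ ENNReal.ofReal (θ⁻¹ ^ k * (Real.exp (3 * R) * CS * (b1 * CS) ^ m * H0)) := by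
  classical
  have hCS : 0 ≤ CS := MFf_CS_nonneg M CS hS x
  have hθ0 : 0 < θ := lt_of_lt_of_le one_pos hθ
  have hpow : 0 ≤ (b1 * CS) ^ m := pow_nonneg (mul_nonneg hb1 hCS) m
  -- the function dominating `θ ^ k` on the event
  set f : (ℕ → S → ℝ) → ℝ≥0∞ := fun ω =>
    ∑ z, ENNReal.ofReal (Real.exp (3 * R) * Real.exp (-(3 * (M.dd z x : ℝ)))) *
      ENNReal.ofReal (Yp M v θ nu B X ω m z) with hf
  have hfm : Measurable f := by
    apply Finset.measurable_sum
    intro z _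
    exact ((MFf_meas_Yp M v θ nu B hm X m z).ennreal_ofReal).const_mul _
  -- pointwise bound
  have hpt : {ω | (∑ l ∈ Finset.range (m * nu + r'),
          (M.dd (M.lin X (sc v ω) (m * nu + r') x l)
            (M.lin X (sc v ω) (m * nu + r') x (l + 1)) : ℝ)) ≤ R ∧
        k ≤ gcount M v nu B X ω m (M.lin X (sc v ω) (m * nu + r') x r')} ⊆
      {ω | ENNReal.ofReal (θ ^ k) ≤ f ω} := by
    rintro ω ⟨h1, h2⟩
    set y : ℕ → S := fun i => M.lin X (sc v ω) (m * nu + r') x i with hy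
    -- sequence of positions at window starts
    set zs : ℕ → S := fun w => y (r' + (m - w) * nu) with hzs
    have hzm : zs m = y r' := by simp [hzs]
    have hlin : ∀ w, M.lin X (sc v ω) (m * nu) (y r') ((m - w) * nu) = zs w := by
      intro w
      have h3 : (m - w) * nu ≤ m * nu := Nat.mul_le_mul_right _ (Nat.sub_le _ _)
      exact (lin_shift M X (sc v ω) (m * nu) r' x ((m - w) * nu) h3).symm
    have hgc : gcount M v nu B X ω m (y r') = ((Finset.range m).filter fun w =>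
        B (M.mf X (sc v ω) (w * nu)) (fun j => ω (w * nu + j)) (zs w)).card := by
      unfold gcount
      congr 1
      apply Finset.filter_congr
      intro w _
      rw [hlin w]
    have hpath := MFf_Yp_path M v θ hθ nu B X ω zs m
    rw [← hgc] at hpath
    -- displacement
    have hd1 : ∑ w ∈ Finset.range m, (M.dd (zs w) (zs (w + 1)) : ℝ) ≤
        ∑ l ∈ Finset.Ico r' (r' + m * nu), (M.dd (y l) (y (l + 1)) : ℝ) :=
      MFf_blocks M y r' nu m
    have hd2 : (M.dd (zs m) x : ℝ) ≤ ∑ l ∈ Finset.range r', (M.dd (y l) (y (l + 1)) : ℝ) := by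
      rw [hzm, M.dd_comm]
      exact dd_lin M X (sc v ω) (m * nu + r') x r'
    have hd3 : ∑ w ∈ Finset.range m, (M.dd (zs w) (zs (w + 1)) : ℝ) + M.dd (zs m) x ≤ R := by
      have h4 : ∑ l ∈ Finset.range (m * nu + r'), (M.dd (y l) (y (l + 1)) : ℝ) =
          ∑ l ∈ Finset.range r', (M.dd (y l) (y (l + 1)) : ℝ) +
          ∑ l ∈ Finset.Ico r' (r' + m * nu), (M.dd (y l) (y (l + 1)) : ℝ) := by
        rw [Finset.range_eq_Ico, Finset.range_eq_Ico, Nat.add_comm (m * nu) r']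
        exact (Finset.sum_Ico_consecutive _ (Nat.zero_le _) (Nat.le_add_right _ _)).symm
      have h5 : ∑ l ∈ Finset.range (m * nu + r'), (M.dd (y l) (y (l + 1)) : ℝ) ≤ R := h1
      rw [h4] at h5
      linarith
    have hYn := MFf_Yp_nonneg M v θ hθ nu B X ω m
    have hk : θ ^ k ≤ θ ^ gcount M v nu B X ω m (y r') := pow_le_pow_right₀ hθ h2
    have hreal : θ ^ k ≤ Real.exp (3 * R) * Real.exp (-(3 * (M.dd (zs m) x : ℝ))) *
        Yp M v θ nu B X ω m (zs m) := by
      set Sd : ℝ := ∑ w ∈ Finset.range m, (M.dd (zs w) (zs (w + 1)) : ℝ) with hSd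
      have h6 : 1 ≤ Real.exp (3 * R) * Real.exp (-(3 * (M.dd (zs m) x : ℝ))) *
          Real.exp (-(3 * Sd)) := by
        rw [← Real.exp_add, ← Real.exp_add]
        apply Real.one_le_exp
        linarith
      have hθg : 0 ≤ θ ^ gcount M v nu B X ω m (y r') := pow_nonneg hθ0.le _
      calc θ ^ k ≤ θ ^ gcount M v nu B X ω m (y r') := hk
        _ = 1 * θ ^ gcount M v nu B X ω m (y r') := by ring
        _ ≤ (Real.exp (3 * R) * Real.exp (-(3 * (M.dd (zs m) x : ℝ))) *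
          Real.exp (-(3 * Sd))) * θ ^ gcount M v nu B X ω m (y r') :=
            mul_le_mul_of_nonneg_right h6 hθg
        _ = (Real.exp (3 * R) * Real.exp (-(3 * (M.dd (zs m) x : ℝ)))) *
          (Real.exp (-(3 * Sd)) * θ ^ gcount M v nu B X ω m (y r')) := by ring
        _ ≤ _ := mul_le_mul_of_nonneg_left hpath
            (mul_nonneg (Real.exp_nonneg _) (Real.exp_nonneg _))
    show ENNReal.ofReal (θ ^ k) ≤ f ω
    refine le_trans (ENNReal.ofReal_le_ofReal hreal) ?_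
    rw [ENNReal.ofReal_mul (mul_nonneg (Real.exp_nonneg _) (Real.exp_nonneg _))]
    exact Finset.single_le_sum (f := fun z => ENNReal.ofReal (Real.exp (3 * R) *
      Real.exp (-(3 * (M.dd z x : ℝ)))) * ENNReal.ofReal (Yp M v θ nu B X ω m z))
      (fun z _ => zero_le) (Finset.mem_univ (zs m))
  -- expectation of `f`
  have hEf : ∫⁻ ω, f ω ∂(PI (nz S)) ≤
      ENNReal.ofReal (Real.exp (3 * R) * CS * (b1 * CS) ^ m * H0) := by
    rw [hf, lintegral_finsetSum _ (fun z _ =>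
      ((MFf_meas_Yp M v θ nu B hm X m z).ennreal_ofReal).const_mul _)]
    have step : ∀ z ∈ (Finset.univ : Finset S),
        ∫⁻ ω, ENNReal.ofReal (Real.exp (3 * R) * Real.exp (-(3 * (M.dd z x : ℝ)))) *
          ENNReal.ofReal (Yp M v θ nu B X ω m z) ∂(PI (nz S)) ≤
        ENNReal.ofReal ((Real.exp (3 * R) * (b1 * CS) ^ m * H0) *
          Real.exp (-(M.dd x z : ℝ))) := by
      intro z _
      rw [lintegral_const_mul _ ((MFf_meas_Yp M v θ nu B hm X m z).ennreal_ofReal)]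
      have h1 : ∫⁻ ω, ENNReal.ofReal (Yp M v θ nu B X ω m z) ∂(PI (nz S)) ≤
          ENNReal.ofReal ((b1 * CS) ^ m * H0 * Real.exp (M.dd z x)) := by
        refine le_trans (lintegral_mono fun ω => ?_)
          (Yp_exp M v θ b1 CS H0 hθ hb1 hH nu B hm hB hS h hhm hh1 hdrift X hX x hX0 m z)
        apply ENNReal.ofReal_le_ofReal
        have h2 := mul_le_mul_of_nonneg_left (hh1 (M.mf X (sc v ω) (m * nu)) z)
          (MFf_Yp_nonneg M v θ hθ nu B X ω m z)
        rw [mul_one] at h2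
        exact h2
      refine le_trans (mul_le_mul_right h1 _) ?_
      rw [← ENNReal.ofReal_mul (mul_nonneg (Real.exp_nonneg _) (Real.exp_nonneg _))]
      apply ENNReal.ofReal_le_ofReal
      have h3 : Real.exp (-(3 * (M.dd z x : ℝ))) * Real.exp (M.dd z x) ≤
          Real.exp (-(M.dd x z : ℝ)) := by
        rw [← Real.exp_add, Real.exp_le_exp, M.dd_comm x z]
        have : (0 : ℝ) ≤ M.dd z x := Nat.cast_nonneg _
        linarith
      have h4 : 0 ≤ Real.exp (3 * R) * (b1 * CS) ^ m * H0 :=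
        mul_nonneg (mul_nonneg (Real.exp_nonneg _) hpow) hH
      calc Real.exp (3 * R) * Real.exp (-(3 * (M.dd z x : ℝ))) *
            ((b1 * CS) ^ m * H0 * Real.exp (M.dd z x))
          = (Real.exp (3 * R) * (b1 * CS) ^ m * H0) *
            (Real.exp (-(3 * (M.dd z x : ℝ))) * Real.exp (M.dd z x)) := by ring
        _ ≤ _ := mul_le_mul_of_nonneg_left h3 h4
    refine le_trans (Finset.sum_le_sum step) ?_
    have h4 : 0 ≤ Real.exp (3 * R) * (b1 * CS) ^ m * H0 :=
      mul_nonneg (mul_nonneg (Real.exp_nonneg _) hpow) hH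
    rw [← ENNReal.ofReal_sum_of_nonneg (fun z _ => mul_nonneg h4 (Real.exp_nonneg _))]
    apply ENNReal.ofReal_le_ofReal
    rw [← Finset.mul_sum]
    refine le_trans (mul_le_mul_of_nonneg_left (hS x) h4) (le_of_eq ?_)
    ring
  -- Markov
  have hM := mul_meas_ge_le_lintegral (μ := PI (nz S)) hfm (ENNReal.ofReal (θ ^ k))
  have hP : ENNReal.ofReal (θ ^ k) * PI (nz S) {ω | (∑ l ∈ Finset.range (m * nu + r'),
          (M.dd (M.lin X (sc v ω) (m * nu + r') x l)
            (M.lin X (sc v ω) (m * nu + r') x (l + 1)) : ℝ)) ≤ R ∧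
        k ≤ gcount M v nu B X ω m (M.lin X (sc v ω) (m * nu + r') x r')} ≤
      ENNReal.ofReal (Real.exp (3 * R) * CS * (b1 * CS) ^ m * H0) :=
    le_trans (le_trans (mul_le_mul_right (measure_mono hpt) _) hM) hEf
  have hinv : ENNReal.ofReal (θ⁻¹ ^ k) * ENNReal.ofReal (θ ^ k) = 1 := by
    rw [← ENNReal.ofReal_mul (pow_nonneg (inv_nonneg.mpr hθ0.le) k), ← mul_pow,
      inv_mul_cancel₀ hθ0.ne', one_pow, ENNReal.ofReal_one]
  rw [ENNReal.ofReal_mul (pow_nonneg (inv_nonneg.mpr hθ0.le) k)]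
  calc PI (nz S) _ = ENNReal.ofReal (θ⁻¹ ^ k) * ENNReal.ofReal (θ ^ k) * PI (nz S) _ := by
        rw [hinv, one_mul]
    _ = ENNReal.ofReal (θ⁻¹ ^ k) * (ENNReal.ofReal (θ ^ k) * PI (nz S) _) := by rw [mul_assoc]
    _ ≤ _ := mul_le_mul_right hP _

/-- the potential `Φ` -/
noncomputable def PhiF (Lam : ℝ) (F : S → ℝ) (z : S) : ℝ :=
  ∑ y, Real.exp (-(M.dd y z : ℝ)) * Real.exp (-(Lam * M.RR F y))

theorem lyap_h (v θ ρ Lam K CL CS : ℝ) (hθ : 1 ≤ θ) (hρ : 0 ≤ ρ) (hK : 0 < K) (hCL : 0 ≤ CL)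
    (hS : ∀ x, ∑ z, Real.exp (-(M.dd x z : ℝ)) ≤ CS) (nu : ℕ)
    (hL : ∀ F, (∀ y, F y ≤ 0) → ∀ y,
      ∫⁻ ω, ENNReal.ofReal (Real.exp (-(Lam * M.RR (M.mf F (sc v ω) nu) y))) ∂(PI (nz S))
        ≤ ENNReal.ofReal (ρ * Real.exp (-(Lam * M.RR F y)) + CL)) :
    ∀ F, (∀ y, F y ≤ 0) → ∀ z z', open Classical in
      ∫⁻ ω, ENNReal.ofReal ((if K < PhiF M Lam F z then θ else 1) *
          (1 + θ / K * PhiF M Lam (M.mf F (sc v ω) nu) z')) ∂(PI (nz S))
        ≤ ENNReal.ofReal ((1 + θ * CL * CS / K + θ * ρ) * Real.exp (M.dd z z') *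
          (1 + θ / K * PhiF M Lam F z)) := by
  intro F hF z z'
  have hCS : 0 ≤ CS := MFf_CS_nonneg M CS hS z
  have hθ0 : 0 < θ := lt_of_lt_of_le one_pos hθ
  have hPn : ∀ (G : S → ℝ) (u : S), 0 ≤ PhiF M Lam G u := fun G u =>
    Finset.sum_nonneg fun y _ => mul_nonneg (Real.exp_nonneg _) (Real.exp_nonneg _)
  have hRm : ∀ y : S, Measurable (fun ω : ℕ → S → ℝ =>
      Real.exp (-(Lam * M.RR (M.mf F (sc v ω) nu) y))) := by
    intro y
    exact Real.measurable_exp.comp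
      ((((measurable_RR M y).comp (MFf_meas_mf M v F nu)).const_mul Lam).neg)
  have hPm : Measurable (fun ω : ℕ → S → ℝ => PhiF M Lam (M.mf F (sc v ω) nu) z') := by
    unfold PhiF
    apply Finset.measurable_sum
    intro y _
    exact (hRm y).const_mul _
  have hΦ0 : 0 ≤ PhiF M Lam F z := hPn F z
  -- expectation of the potential
  have hE : ∫⁻ ω, ENNReal.ofReal (PhiF M Lam (M.mf F (sc v ω) nu) z') ∂(PI (nz S)) ≤
      ENNReal.ofReal (ρ * Real.exp (M.dd z z') * PhiF M Lam F z + CL * CS) := by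
    have e1 : ∀ ω : ℕ → S → ℝ, ENNReal.ofReal (PhiF M Lam (M.mf F (sc v ω) nu) z') =
        ∑ y, ENNReal.ofReal (Real.exp (-(M.dd y z' : ℝ))) *
          ENNReal.ofReal (Real.exp (-(Lam * M.RR (M.mf F (sc v ω) nu) y))) := by
      intro ω
      unfold PhiF
      rw [ENNReal.ofReal_sum_of_nonneg
        (fun y _ => mul_nonneg (Real.exp_nonneg _) (Real.exp_nonneg _))]
      apply Finset.sum_congr rfl
      intro y _
      rw [ENNReal.ofReal_mul (Real.exp_nonneg _)]
    simp only [e1]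
    rw [lintegral_finsetSum _ (fun y _ => ((hRm y).ennreal_ofReal).const_mul _)]
    have step : ∀ y ∈ (Finset.univ : Finset S),
        ∫⁻ ω, ENNReal.ofReal (Real.exp (-(M.dd y z' : ℝ))) *
          ENNReal.ofReal (Real.exp (-(Lam * M.RR (M.mf F (sc v ω) nu) y))) ∂(PI (nz S)) ≤
        ENNReal.ofReal (ρ * Real.exp (M.dd z z') *
          (Real.exp (-(M.dd y z : ℝ)) * Real.exp (-(Lam * M.RR F y))) +
          CL * Real.exp (-(M.dd z' y : ℝ))) := by
      intro y _
      rw [lintegral_const_mul _ ((hRm y).ennreal_ofReal)]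
      refine le_trans (mul_le_mul_right (hL F hF y) _) ?_
      rw [← ENNReal.ofReal_mul (Real.exp_nonneg _)]
      apply ENNReal.ofReal_le_ofReal
      have h1 : Real.exp (-(M.dd y z' : ℝ)) ≤
          Real.exp (M.dd z z') * Real.exp (-(M.dd y z : ℝ)) := by
        rw [← Real.exp_add, Real.exp_le_exp]
        have h2 : (M.dd y z : ℝ) ≤ M.dd y z' + M.dd z' z := by exact_mod_cast M.dd_tri y z' z
        have h3 : (M.dd z' z : ℝ) = M.dd z z' := by rw [M.dd_comm]
        linarith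
      have h4 : Real.exp (-(M.dd z' y : ℝ)) = Real.exp (-(M.dd y z' : ℝ)) := by
        rw [M.dd_comm]
      rw [h4]
      have h5 : 0 ≤ ρ * Real.exp (-(Lam * M.RR F y)) := mul_nonneg hρ (Real.exp_nonneg _)
      have h6 := mul_le_mul_of_nonneg_right h1 h5
      calc Real.exp (-(M.dd y z' : ℝ)) * (ρ * Real.exp (-(Lam * M.RR F y)) + CL)
          = Real.exp (-(M.dd y z' : ℝ)) * (ρ * Real.exp (-(Lam * M.RR F y))) +
            CL * Real.exp (-(M.dd y z' : ℝ)) := by ring
        _ ≤ Real.exp (M.dd z z') * Real.exp (-(M.dd y z : ℝ)) *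
            (ρ * Real.exp (-(Lam * M.RR F y))) + CL * Real.exp (-(M.dd y z' : ℝ)) := by
            linarith
        _ = _ := by ring
    refine le_trans (Finset.sum_le_sum step) ?_
    rw [← ENNReal.ofReal_sum_of_nonneg (fun y _ => add_nonneg
      (mul_nonneg (mul_nonneg hρ (Real.exp_nonneg _))
        (mul_nonneg (Real.exp_nonneg _) (Real.exp_nonneg _)))
      (mul_nonneg hCL (Real.exp_nonneg _)))]
    apply ENNReal.ofReal_le_ofReal
    rw [Finset.sum_add_distrib, ← Finset.mul_sum, ← Finset.mul_sum]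
    have h7 := mul_le_mul_of_nonneg_left (hS z') hCL
    show ρ * Real.exp (M.dd z z') * PhiF M Lam F z + _ ≤ _
    linarith
  -- put together
  set c : ℝ := if K < PhiF M Lam F z then θ else 1 with hc
  have hc0 : 0 ≤ c := by
    rw [hc]; split_ifs
    · exact hθ0.le
    · exact zero_le_one
  have hθK : 0 ≤ θ / K := div_nonneg hθ0.le hK.le
  have e2 : ∀ ω : ℕ → S → ℝ, ENNReal.ofReal (c *
      (1 + θ / K * PhiF M Lam (M.mf F (sc v ω) nu) z')) =
      ENNReal.ofReal c + ENNReal.ofReal (c * (θ / K)) *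
        ENNReal.ofReal (PhiF M Lam (M.mf F (sc v ω) nu) z') := by
    intro ω
    rw [← ENNReal.ofReal_mul (mul_nonneg hc0 hθK), ← ENNReal.ofReal_add hc0
      (mul_nonneg (mul_nonneg hc0 hθK) (hPn _ _))]
    congr 1
    ring
  simp only [e2]
  rw [lintegral_add_left measurable_const, lintegral_const, measure_univ, mul_one,
    lintegral_const_mul _ hPm.ennreal_ofReal]
  refine le_trans (add_le_add_right (mul_le_mul_right hE _) _) ?_
  have hEn : 0 ≤ ρ * Real.exp (M.dd z z') * PhiF M Lam F z + CL * CS :=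
    add_nonneg (mul_nonneg (mul_nonneg hρ (Real.exp_nonneg _)) hΦ0) (mul_nonneg hCL hCS)
  rw [← ENNReal.ofReal_mul (mul_nonneg hc0 hθK), ← ENNReal.ofReal_add hc0
      (mul_nonneg (mul_nonneg hc0 hθK) hEn)]
  apply ENNReal.ofReal_le_ofReal
  set Φ : ℝ := PhiF M Lam F z with hΦ
  set E : ℝ := Real.exp (M.dd z z') with hEd
  have hE1 : 1 ≤ E := Real.one_le_exp (Nat.cast_nonneg _)
  set t : ℝ := θ / K * Φ with ht
  have ht0 : 0 ≤ t := mul_nonneg hθK hΦ0
  set A : ℝ := θ * CL * CS / K with hA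
  have hA0 : 0 ≤ A := div_nonneg (mul_nonneg (mul_nonneg hθ0.le hCL) hCS) hK.le
  have hlhs : c + c * (θ / K) * (ρ * E * Φ + CL * CS) = c * (1 + A) + c * ρ * E * t := by
    rw [hA, ht]; ring
  rw [hlhs]
  have h1t : 1 ≤ E * (1 + t) := by nlinarith
  have hEt : 0 ≤ E * t := mul_nonneg (by linarith) ht0
  have hr1 : c * ρ * E * t ≤ θ * ρ * (E * (1 + t)) := by
    have hcθ : c ≤ θ := by
      rw [hc]; split_ifs
      · exact le_refl _
      · exact hθ
    have h8 : c * ρ ≤ θ * ρ := mul_le_mul_of_nonneg_right hcθ hρ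
    have h9 : E * t ≤ E * (1 + t) := by nlinarith
    calc c * ρ * E * t = (c * ρ) * (E * t) := by ring
      _ ≤ (θ * ρ) * (E * t) := mul_le_mul_of_nonneg_right h8 hEt
      _ ≤ (θ * ρ) * (E * (1 + t)) := mul_le_mul_of_nonneg_left h9 (mul_nonneg hθ0.le hρ)
  have hr2 : c * (1 + A) ≤ (1 + A) * (E * (1 + t)) := by
    have hcE : c ≤ E * (1 + t) := by
      rw [hc]
      split_ifs with hlt
      · have h10 : θ ≤ t := by
          rw [ht]
          have h11 : θ / K * K ≤ θ / K * Φ := mul_le_mul_of_nonneg_left hlt.le hθK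
          rw [div_mul_cancel₀ θ hK.ne'] at h11
          exact h11
        nlinarith
      · exact h1t
    rw [mul_comm]
    exact mul_le_mul_of_nonneg_left hcE (by linarith)
  calc c * (1 + A) + c * ρ * E * t ≤ (1 + A) * (E * (1 + t)) + θ * ρ * (E * (1 + t)) :=
        add_le_add hr2 hr1
    _ = _ := by ring

end DynC
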