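import Pool.Agent.Lib_MP_36b788c.MFf

/-!
# Height model: exponential decay of the influence of the initial heights

PROOF of `uncut_decay`. Constants: `lam0, C0` of `lpp_tail` (`q = 1/8`), `lpp_tail_neg`, `good_noise` (take the worst; all statements are monotone in these
constants after adjusting), `CS` from `sum_exp_dd` (`r = 1`), `CS'` (`r = 1/2`), `C1` of `lyap_F`.
Length: off an event of probability `2 e^{-C0(nv+1)}`, `lppM(±g)(x) ≤ 2 C0 (nv+1)/lam0`, so by `len_lin` the length is `≤ R = (8/7)(Ke + 4 C0 (nv+1)/lam0)`; let `C''` with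
`3R ≤ C''(Ke + nv + 1)`. `nd ≥ 400` with `nd * 3/400 ≥ 2·101·C'' + 8` (`-log(97/100) ≥ 3/100`). `Λ = nd/50 ≥ 8`, `s0 = 1/(2Λ)`.
`w` large: `ρ := 2^nd e^{4nd²/50} (97/100)^{w nd} ≤ exp(-w nd/50)` and `exp(w nd /200) ≥ exp(101 w C'' + 1) · 3 CS²`, … . `np = ⌈100/v⌉`, `nu = w np`, `v nu ∈ [100w, 101w]`.
`θ = 1/ρ`, `CL = 2^nd e^{2nd²/50} C1^nd`, `K = max 1 (θ CL CS)`, `KG = log K / Λ`: `PhiF ≤ K` implies (g1). By `lyap_h` and `bad_many` with
`B = {K < PhiF}`, `h = 1 + (θ/K) PhiF` (`h F z ≤ h F x e^{dd z x}`), `b1 = 3`, `H0 = 1 + θ e^{Λ Ke} CS'/K`: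
`P(len ≤ R, #B ≥ m/4) ≤ ρ^{m/4} e^{3R} CS (3CS)^m H0`.
`p2 > 0` small with `p2^{1/4} 2 CS e^{101 w C''} ≤ e^{-1}`; `Kn, r0, r1, r2, T1, n1 = ⌊T1/v⌋, cup = cd = 2(KG+r1/8+4)/T1, Kp` such that `good_noise ≤ p2` (in this order);
`bad_many` with `B2 = {(g1), not GoodW}`, `h = 1`, `θ = 1/p2`, `b1 = 2`. `v0 ≤ T1, 1/cup, 1/lam0², 1`. `η0 = 1/nu`.
Good windows: `good_few` with `r = ⌈m/2⌉`, `flip_ineq`; `flipC` is bounded uniformly in `v` since `v nu ≤ 101 w`. Each window is good, or in `B`, or in `B2`. `m = ⌊n/nu⌋ ≥ nv/(101w) - 1`.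
-/

open MeasureTheory ProbabilityTheory
open scoped ENNReal

namespace DynC

section

variable {S : Type} [Fintype S] {D : ℕ} (M : MSet S D)

private theorem MFg_sc_neg (v : ℝ) (ω : ℕ → S → ℝ) : sc v (-ω) = -(sc v ω) := by
  funext j x
  simp [sc]

/-- length off the two events -/
private theorem MFg_len (X : S → ℝ) (hX : ∀ z, X z ≤ 0) (v : ℝ) (ω : ℕ → S → ℝ) (n : ℕ) (x : S)
    (Ke a b : ℝ) (hKe : 0 ≤ Ke) (hx : -Ke ≤ X x)
    (ha : ¬ a ≤ M.lppM (1 / 8) (fun _ => 0) (sc v ω) n x)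
    (hb : ¬ b ≤ M.lppM (1 / 8) (fun _ => 0) (sc v (-ω)) n x) :
    ∑ l ∈ Finset.range n, (M.dd (M.lin X (sc v ω) n x l) (M.lin X (sc v ω) n x (l + 1)) : ℝ) ≤
      8 / 7 * (Ke + a + b) := by
  have h := len_lin M X hX (sc v ω) n x Ke hKe hx
  rw [MFg_sc_neg] at hb
  push Not at ha hb
  linarith

/-- `PhiF ≤ K` bounds the heights from below -/
private theorem MFg_phi_g1 (Lam K : ℝ) (hLam : 8 ≤ Lam) (F : S → ℝ) (z : S)
    (h : PhiF M Lam F z ≤ K) (y : S) :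
    -(Real.log K / Lam) - M.dd y z / 8 ≤ M.RR F y := by
  have hL0 : 0 < Lam := by linarith
  have h1 : Real.exp (-(M.dd y z : ℝ)) * Real.exp (-(Lam * M.RR F y)) ≤ K := by
    refine le_trans ?_ h
    unfold PhiF
    exact Finset.single_le_sum (f := fun y => Real.exp (-(M.dd y z : ℝ)) *
      Real.exp (-(Lam * M.RR F y))) (fun _ _ => by positivity) (Finset.mem_univ y)
  rw [← Real.exp_add] at h1
  have h2 := Real.log_le_log (Real.exp_pos _) h1
  rw [Real.log_exp] at h2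
  have hd : (0 : ℝ) ≤ M.dd y z := by positivity
  have h3 : Lam * (-(Real.log K / Lam) - M.dd y z / 8) ≤ Lam * M.RR F y := by
    have e1 : Lam * (-(Real.log K / Lam) - M.dd y z / 8) = -Real.log K - Lam * M.dd y z / 8 := by
      field_simp
    rw [e1]
    nlinarith
  exact le_of_mul_le_mul_left h3 hL0

/-- the potential at the start -/
private theorem MFg_phi_init (Lam s0 Ke CS' : ℝ) (hLam : 0 < Lam) (hs : Lam * s0 = 1 / 2)
    (hS' : ∀ x, ∑ z, Real.exp (-(1 / 2 * (M.dd x z : ℝ))) ≤ CS') (X : S → ℝ) (x : S)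
    (hX0 : ∀ z, -Ke - s0 * M.dd x z ≤ X z) (z : S) :
    PhiF M Lam X z ≤ CS' * Real.exp (Lam * Ke) * Real.exp (M.dd z x) := by
  have hCS' : 0 ≤ CS' := le_trans (Finset.sum_nonneg fun _ _ => (Real.exp_pos _).le) (hS' z)
  have h1 : ∀ y, Real.exp (-(M.dd y z : ℝ)) * Real.exp (-(Lam * M.RR X y)) ≤
      Real.exp (-(1 / 2 * (M.dd z y : ℝ))) * (Real.exp (Lam * Ke) * Real.exp (M.dd z x)) := by
    intro y
    rw [← Real.exp_add, ← Real.exp_add, ← Real.exp_add]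
    apply Real.exp_le_exp.mpr
    have h2 : -Ke - s0 * M.dd x y ≤ M.RR X y := (hX0 y).trans (self_le_RR M X y)
    have h3 : Lam * (-Ke - s0 * M.dd x y) ≤ Lam * M.RR X y :=
      mul_le_mul_of_nonneg_left h2 hLam.le
    have h4 : Lam * (-Ke - s0 * M.dd x y) = -(Lam * Ke) - 1 / 2 * M.dd x y := by
      rw [← hs]
      ring
    rw [h4] at h3
    have h5 : (M.dd x y : ℝ) ≤ M.dd x z + M.dd z y := by exact_mod_cast M.dd_tri x z y
    have h6 : (M.dd y z : ℝ) = M.dd z y := by rw [M.dd_comm]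
    have h7 : (M.dd x z : ℝ) = M.dd z x := by rw [M.dd_comm]
    have h8 : (0 : ℝ) ≤ M.dd z x := by positivity
    rw [h6]
    linarith
  calc PhiF M Lam X z ≤ ∑ y, Real.exp (-(1 / 2 * (M.dd z y : ℝ))) *
        (Real.exp (Lam * Ke) * Real.exp (M.dd z x)) := Finset.sum_le_sum fun y _ => h1 y
    _ = (∑ y, Real.exp (-(1 / 2 * (M.dd z y : ℝ)))) *
        (Real.exp (Lam * Ke) * Real.exp (M.dd z x)) := by rw [Finset.sum_mul]
    _ ≤ CS' * (Real.exp (Lam * Ke) * Real.exp (M.dd z x)) :=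
        mul_le_mul_of_nonneg_right (hS' z) (by positivity)
    _ = _ := by ring

private theorem MFg_phi_nonneg (Lam : ℝ) (F : S → ℝ) (z : S) : 0 ≤ PhiF M Lam F z :=
  Finset.sum_nonneg fun _ _ => by positivity

private theorem MFg_phi_meas (Lam : ℝ) (z : S) : Measurable fun F : S → ℝ => PhiF M Lam F z := by
  unfold PhiF
  refine Finset.measurable_sum _ fun y _ => ?_
  exact measurable_const.mul (((measurable_RR M y).const_mul Lam).neg.exp)

/-- the windows are covered by three properties -/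
private theorem MFg_cover (v : ℝ) (nu : ℕ) (B1 B2 B3 : (S → ℝ) → (ℕ → S → ℝ) → S → Prop)
    (h : ∀ F ω z, B1 F ω z ∨ B2 F ω z ∨ B3 F ω z) (X : S → ℝ) (ω : ℕ → S → ℝ) (m : ℕ) (x : S) :
    m ≤ gcount M v nu B1 X ω m x + gcount M v nu B2 X ω m x + gcount M v nu B3 X ω m x := by
  classical
  unfold gcount
  have h1 : (Finset.range m) ⊆
      (((Finset.range m).filter fun w => B1 (M.mf X (sc v ω) (w * nu)) (fun j => ω (w * nu + j))
          (M.lin X (sc v ω) (m * nu) x ((m - w) * nu))) ∪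
        ((Finset.range m).filter fun w => B2 (M.mf X (sc v ω) (w * nu)) (fun j => ω (w * nu + j))
          (M.lin X (sc v ω) (m * nu) x ((m - w) * nu)))) ∪
        ((Finset.range m).filter fun w => B3 (M.mf X (sc v ω) (w * nu)) (fun j => ω (w * nu + j))
          (M.lin X (sc v ω) (m * nu) x ((m - w) * nu))) := by
    intro w hw
    rw [Finset.mem_union, Finset.mem_union, Finset.mem_filter, Finset.mem_filter,
      Finset.mem_filter]
    rcases h (M.mf X (sc v ω) (w * nu)) (fun j => ω (w * nu + j))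
      (M.lin X (sc v ω) (m * nu) x ((m - w) * nu)) with h | h | h
    · exact Or.inl (Or.inl ⟨hw, h⟩)
    · exact Or.inl (Or.inr ⟨hw, h⟩)
    · exact Or.inr ⟨hw, h⟩
  have h2 := (Finset.card_le_card h1).trans (Finset.card_union_le _ _)
  rw [Finset.card_range] at h2
  have h3 := h2.trans (Nat.add_le_add_right (Finset.card_union_le _ _) _)
  convert h3

/-- drift for the windows with large potential -/
private theorem MFg_drift1 (v θ ρ Lam K CL CS : ℝ) (hθ : 1 ≤ θ) (hρ : 0 ≤ ρ) (hθρ : θ * ρ ≤ 1)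
    (hK1 : 0 < K) (hCL : 0 ≤ CL) (hK : θ * CL * CS ≤ K)
    (hS : ∀ x, ∑ z, Real.exp (-(M.dd x z : ℝ)) ≤ CS) (nu : ℕ)
    (hL : ∀ F, (∀ y, F y ≤ 0) → ∀ y,
      ∫⁻ ω, ENNReal.ofReal (Real.exp (-(Lam * M.RR (M.mf F (sc v ω) nu) y))) ∂(PI (nz S))
        ≤ ENNReal.ofReal (ρ * Real.exp (-(Lam * M.RR F y)) + CL)) :
    ∀ F, (∀ y, F y ≤ 0) → ∀ z z', open Classical in
      ∫⁻ ω, ENNReal.ofReal ((if K < PhiF M Lam F z then θ else 1) *
          (1 + θ / K * PhiF M Lam (M.mf F (sc v ω) nu) z')) ∂(PI (nz S))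
        ≤ ENNReal.ofReal (3 * Real.exp (M.dd z z') * (1 + θ / K * PhiF M Lam F z)) := by
  intro F hF z z'
  refine (lyap_h M v θ ρ Lam K CL CS hθ hρ hK1 hCL hS nu hL F hF z z').trans ?_
  apply ENNReal.ofReal_le_ofReal
  have h1 : θ * CL * CS / K ≤ 1 := by
    rw [div_le_one hK1]
    exact hK
  have h2 := MFg_phi_nonneg M Lam F z
  have h3 : 0 ≤ 1 + θ / K * PhiF M Lam F z := by positivity
  apply mul_le_mul_of_nonneg_right _ h3
  apply mul_le_mul_of_nonneg_right _ (Real.exp_pos _).le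
  linarith

/-- drift for a property of small probability -/
private theorem MFg_drift2 (v θ : ℝ) (hθ : 1 ≤ θ) (nu : ℕ)
    (B : (S → ℝ) → (ℕ → S → ℝ) → S → Prop)
    (hm : ∀ z, MeasurableSet {p : (S → ℝ) × (ℕ → S → ℝ) | B p.1 p.2 z})
    (hgn : ∀ F z, PI (nz S) {ω | B F ω z} ≤ ENNReal.ofReal θ⁻¹) :
    ∀ F, (∀ y, F y ≤ 0) → ∀ z z', open Classical in
      ∫⁻ ω, ENNReal.ofReal ((if B F ω z then θ else 1) *
          (fun (_ : S → ℝ) (_ : S) => (1 : ℝ)) (M.mf F (sc v ω) nu) z') ∂(PI (nz S))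
        ≤ ENNReal.ofReal (2 * Real.exp (M.dd z z') *
          (fun (_ : S → ℝ) (_ : S) => (1 : ℝ)) F z) := by
  classical
  intro F _ z z'
  have hθ0 : 0 < θ := by linarith
  have hE : MeasurableSet {ω : ℕ → S → ℝ | B F ω z} :=
    (measurable_const.prodMk measurable_id : Measurable fun ω : ℕ → S → ℝ => (F, ω)) (hm z)
  have h1 : ∀ ω : ℕ → S → ℝ, ENNReal.ofReal ((if B F ω z then θ else 1) *
      (fun (_ : S → ℝ) (_ : S) => (1 : ℝ)) (M.mf F (sc v ω) nu) z') ≤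
      1 + ENNReal.ofReal θ * Set.indicator {ω : ℕ → S → ℝ | B F ω z} 1 ω := by
    intro ω
    by_cases h : B F ω z
    · rw [if_pos h, Set.indicator_of_mem (show ω ∈ {ω : ℕ → S → ℝ | B F ω z} from h)]
      simp only [mul_one, Pi.one_apply]
      exact le_add_self
    · rw [if_neg h, Set.indicator_of_notMem (show ω ∉ {ω : ℕ → S → ℝ | B F ω z} from h)]
      simp
  calc ∫⁻ ω, ENNReal.ofReal ((if B F ω z then θ else 1) *
          (fun (_ : S → ℝ) (_ : S) => (1 : ℝ)) (M.mf F (sc v ω) nu) z') ∂(PI (nz S))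
      ≤ ∫⁻ ω, (1 + ENNReal.ofReal θ * Set.indicator {ω : ℕ → S → ℝ | B F ω z} 1 ω)
          ∂(PI (nz S)) := lintegral_mono h1
    _ = 1 + ENNReal.ofReal θ * PI (nz S) {ω | B F ω z} := by
        rw [lintegral_add_left measurable_const, lintegral_const, 
          lintegral_const_mul _ (measurable_one.indicator hE), lintegral_indicator_one hE]
        have : PI (nz S) Set.univ = 1 := by
          have : IsProbabilityMeasure (PI (nz S)) := by
            unfold PI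
            infer_instance
          exact measure_univ
        rw [this, one_mul]
    _ ≤ 1 + ENNReal.ofReal θ * ENNReal.ofReal θ⁻¹ := by
        gcongr
        exact hgn F z
    _ = ENNReal.ofReal 2 := by
        rw [← ENNReal.ofReal_mul hθ0.le, mul_inv_cancel₀ hθ0.ne', ← ENNReal.ofReal_one,
          ← ENNReal.ofReal_add zero_le_one zero_le_one]
        norm_num
    _ ≤ _ := by
        apply ENNReal.ofReal_le_ofReal
        have : 1 ≤ Real.exp (M.dd z z') := Real.one_le_exp (by positivity)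
        simp only [mul_one]
        linarith

/-- the union bound -/
private theorem MFg_core (P : FPar) (lam1 Ca lam2 Cb : ℝ) (h1 : 0 < lam1) (h2 : 0 < lam2)
    (ht1 : ∀ (n : ℕ) (x : S) (r : ℝ),
      PI (nz S) {ω | r ≤ M.lppM (1 / 8) (fun _ => 0) (sc P.v ω) n x}
        ≤ ENNReal.ofReal (Real.exp (Ca * (n * P.v + 1) - lam1 * r)))
    (ht2 : ∀ (n : ℕ) (x : S) (r : ℝ),
      PI (nz S) {ω | r ≤ M.lppM (1 / 8) (fun _ => 0) (sc P.v (-ω)) n x}
        ≤ ENNReal.ofReal (Real.exp (Cb * (n * P.v + 1) - lam2 * r)))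
    (θ ρ Lam K CL CS CS' s0 : ℝ) (hθ : 1 ≤ θ) (hρ : 0 ≤ ρ) (hθρ : θ * ρ ≤ 1)
    (hK1 : 1 ≤ K) (hCL : 0 ≤ CL) (hK : θ * CL * CS ≤ K) (hLam : 8 ≤ Lam)
    (hs : Lam * s0 = 1 / 2) (hKG : P.KG = Real.log K / Lam)
    (hS : ∀ x, ∑ z, Real.exp (-(M.dd x z : ℝ)) ≤ CS)
    (hS' : ∀ x, ∑ z, Real.exp (-(1 / 2 * (M.dd x z : ℝ))) ≤ CS')
    (hL : ∀ F, (∀ y, F y ≤ 0) → ∀ y,
      ∫⁻ ω, ENNReal.ofReal (Real.exp (-(Lam * M.RR (M.mf F (sc P.v ω) P.nu) y))) ∂(PI (nz S))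
        ≤ ENNReal.ofReal (ρ * Real.exp (-(Lam * M.RR F y)) + CL))
    (hgn : ∀ F z, PI (nz S) {ω | (∀ y, -P.KG - M.dd y z / 8 ≤ M.RR F y) ∧ ¬ GoodW M P F ω z}
      ≤ ENNReal.ofReal θ⁻¹)
    (X : S → ℝ) (hX : ∀ z, X z ≤ 0) (x : S) (Ke : ℝ) (hKe : 0 ≤ Ke)
    (hX0 : ∀ z, -Ke - s0 * M.dd x z ≤ X z) (m r' k r : ℕ) (hkr : 4 * k ≤ m + 3)
    (hr : 2 * r ≤ m + 1) (R N : ℝ) (hN : N = ((m * P.nu + r' : ℕ) : ℝ) * P.v)
    (hR : R = 8 / 7 * (Ke + 2 * Ca * (N + 1) / lam1 + 2 * Cb * (N + 1) / lam2)) :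
    PI (nz S) {ω | M.uncut P.η X (sc P.v ω) (m * P.nu + r') 0 x} ≤
      ENNReal.ofReal (Real.exp (-(Ca * (N + 1)))) + ENNReal.ofReal (Real.exp (-(Cb * (N + 1)))) +
      ENNReal.ofReal (θ⁻¹ ^ k * (Real.exp (3 * R) * CS * (3 * CS) ^ m *
        (1 + θ / K * (CS' * Real.exp (Lam * Ke))))) +
      ENNReal.ofReal (θ⁻¹ ^ k * (Real.exp (3 * R) * CS * (2 * CS) ^ m * 1)) +
      ENNReal.ofReal ((1 + Real.exp (-(flipC D P)))⁻¹ ^ r) := by
  classical
  have hK0 : 0 < K := by linarith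
  have hL0 : 0 < Lam := by linarith
  have hCS' : 0 ≤ CS' := le_trans (Finset.sum_nonneg fun _ _ => (Real.exp_pos _).le) (hS' x)
  set B1 : (S → ℝ) → (ℕ → S → ℝ) → S → Prop := fun F _ z => K < PhiF M Lam F z with hB1
  set B2 : (S → ℝ) → (ℕ → S → ℝ) → S → Prop := fun F ω z =>
    (∀ y, -P.KG - M.dd y z / 8 ≤ M.RR F y) ∧ ¬ GoodW M P F ω z with hB2
  have hm1 : ∀ z, MeasurableSet {p : (S → ℝ) × (ℕ → S → ℝ) | B1 p.1 p.2 z} := fun z =>
    measurableSet_lt measurable_const ((MFg_phi_meas M Lam z).comp measurable_fst)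
  have hm2 : ∀ z, MeasurableSet {p : (S → ℝ) × (ℕ → S → ℝ) | B2 p.1 p.2 z} := by
    intro z
    have e : {p : (S → ℝ) × (ℕ → S → ℝ) | B2 p.1 p.2 z} =
        (⋂ y, {p : (S → ℝ) × (ℕ → S → ℝ) | -P.KG - M.dd y z / 8 ≤ M.RR p.1 y}) ∩
          {p : (S → ℝ) × (ℕ → S → ℝ) | GoodW M P p.1 p.2 z}ᶜ := by
      ext p
      simp only [hB2, Set.mem_ofPred_eq, Set.mem_inter_iff, Set.mem_iInter, Set.mem_compl_iff]
    rw [e]
    exact (MeasurableSet.iInter fun y => measurableSet_le measurable_const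
      ((measurable_RR M y).comp measurable_fst)).inter (measurableSet_GoodW M P z).compl
  have hd2 : ∀ F z (ω ω' : ℕ → S → ℝ), (∀ j, j < P.nu → ω j = ω' j) →
      (B2 F ω z ↔ B2 F ω' z) := by
    intro F z ω ω' h
    simp only [hB2]
    rw [GoodW_congr M P F z ω ω' h]
  -- the five events
  have hb1 := bad_many M P.v θ 3 CS (1 + θ / K * (CS' * Real.exp (Lam * Ke))) hθ (by norm_num)
    (by positivity) P.nu B1 hm1 (fun F z ω ω' _ => Iff.rfl) hS
    (fun F z => 1 + θ / K * PhiF M Lam F z)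
    (fun z => measurable_const.add ((MFg_phi_meas M Lam z).const_mul _))
    (fun F z => by
      have := MFg_phi_nonneg M Lam F z
      have : 0 ≤ θ / K * PhiF M Lam F z := by positivity
      linarith)
    (fun F hF z z' => by
      convert MFg_drift1 M P.v θ ρ Lam K CL CS hθ hρ hθρ hK0 hCL hK hS P.nu hL F hF z z')
    X hX x
    (fun z => by
      have e1 := MFg_phi_init M Lam s0 Ke CS' hL0 hs hS' X x hX0 z
      have e2 : θ / K * PhiF M Lam X z ≤
          θ / K * (CS' * Real.exp (Lam * Ke) * Real.exp (M.dd z x)) :=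
        mul_le_mul_of_nonneg_left e1 (by positivity)
      have e3 : 1 ≤ Real.exp (M.dd z x) := Real.one_le_exp (by positivity)
      calc 1 + θ / K * PhiF M Lam X z
          ≤ Real.exp (M.dd z x) + θ / K * (CS' * Real.exp (Lam * Ke) * Real.exp (M.dd z x)) :=
            add_le_add e3 e2
        _ = _ := by ring)
    m r' k R
  have hb2 := bad_many M P.v θ 2 CS 1 hθ (by norm_num) (by norm_num) P.nu B2 hm2 hd2 hS
    (fun _ _ => 1) (fun z => measurable_const) (fun F z => le_rfl)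
    (MFg_drift2 M P.v θ hθ P.nu B2 hm2 hgn) X hX x
    (fun z => by
      have e3 : 1 ≤ Real.exp (M.dd z x) := Real.one_le_exp (by positivity)
      linarith)
    m r' k R
  have hb3 := good_few M P.v P.η (flipC D P) P.nu (GoodW M P) (measurableSet_GoodW M P)
    (fun F z ω ω' h => GoodW_congr M P F z ω ω' h) (flip_ineq M P) X hX m r' r x
  set E1 : Set (ℕ → S → ℝ) := {ω | 2 * Ca * (N + 1) / lam1 ≤
    M.lppM (1 / 8) (fun _ => 0) (sc P.v ω) (m * P.nu + r') x} with hE1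
  set E2 : Set (ℕ → S → ℝ) := {ω | 2 * Cb * (N + 1) / lam2 ≤
    M.lppM (1 / 8) (fun _ => 0) (sc P.v (-ω)) (m * P.nu + r') x} with hE2
  have hp1 : PI (nz S) E1 ≤ ENNReal.ofReal (Real.exp (-(Ca * (N + 1)))) := by
    refine (ht1 (m * P.nu + r') x _).trans (le_of_eq ?_)
    congr 2
    rw [← hN]
    field_simp
    ring
  have hp2 : PI (nz S) E2 ≤ ENNReal.ofReal (Real.exp (-(Cb * (N + 1)))) := by
    refine (ht2 (m * P.nu + r') x _).trans (le_of_eq ?_)
    congr 2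
    rw [← hN]
    field_simp
    ring
  refine le_trans (measure_mono (?_ : _ ⊆ (((E1 ∪ E2) ∪ _) ∪ _) ∪ _))
    ((measure_union_le _ _).trans (add_le_add ((measure_union_le _ _).trans
      (add_le_add ((measure_union_le _ _).trans (add_le_add ((measure_union_le _ _).trans
        (add_le_add hp1 hp2)) hb1)) hb2)) hb3))
  intro ω hω
  by_contra hcon
  simp only [Set.mem_union, not_or] at hcon
  obtain ⟨⟨⟨⟨c1, c2⟩, c3⟩, c4⟩, c5⟩ := hcon
  have hx : -Ke ≤ X x := by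
    have := hX0 x
    rw [M.dd_self] at this
    simpa using this
  have hlen := MFg_len M X hX P.v ω (m * P.nu + r') x Ke _ _ hKe hx c1 c2
  rw [← hR] at hlen
  have d3 : ¬ k ≤ gcount M P.v P.nu B1 X ω m (M.lin X (sc P.v ω) (m * P.nu + r') x r') :=
    fun h => c3 ⟨hlen, h⟩
  have d4 : ¬ k ≤ gcount M P.v P.nu B2 X ω m (M.lin X (sc P.v ω) (m * P.nu + r') x r') :=
    fun h => c4 ⟨hlen, h⟩
  have d5 : ¬ r ≤ gcount M P.v P.nu (GoodW M P) X ω m
      (M.lin X (sc P.v ω) (m * P.nu + r') x r') := fun h => c5 ⟨hω, h⟩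
  have hc := MFg_cover M P.v P.nu B1 B2 (GoodW M P) (fun F ω z => by
    by_cases e1 : K < PhiF M Lam F z
    · exact Or.inl e1
    · right
      by_cases e2 : GoodW M P F ω z
      · exact Or.inr e2
      · left
        refine ⟨?_, e2⟩
        intro y
        rw [hKG]
        exact MFg_phi_g1 M Lam K hLam F z (not_lt.mp e1) y) X ω m
    (M.lin X (sc P.v ω) (m * P.nu + r') x r')
  omega

end

/-- number of steps of a period -/
private theorem MFg_np (v : ℝ) (hv : 0 < v) (hv1 : v ≤ 1) :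
    100 ≤ v * (⌈100 / v⌉₊ : ℝ) ∧ v * (⌈100 / v⌉₊ : ℝ) ≤ 101 := by
  have h1 : 100 / v ≤ (⌈100 / v⌉₊ : ℝ) := Nat.le_ceil _
  have h2 : (⌈100 / v⌉₊ : ℝ) < 100 / v + 1 := Nat.ceil_lt_add_one (by positivity)
  constructor
  · rw [div_le_iff₀ hv] at h1
    linarith
  · have h3 : v * (⌈100 / v⌉₊ : ℝ) ≤ v * (100 / v + 1) := mul_le_mul_of_nonneg_left h2.le hv.le
    have h4 : v * (100 / v + 1) = 100 + v := by
      field_simp
    linarith

/-- the parameters of the flip -/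
private theorem MFg_par (D : ℕ) (lam3 Cg q W KG : ℝ) (w : ℕ) (hl : 0 < lam3) (hCg : 0 < Cg)
    (hq : 0 < q) (hq1 : q ≤ 1) (hw : 1 ≤ w) (hW : W = 101 * w) (hKG : 0 ≤ KG) :
    ∃ v1 c : ℝ, 0 < v1 ∧ v1 ≤ 1 ∧ 0 ≤ c ∧ ∀ v, 0 < v → v ≤ v1 → ∀ η, 0 < η →
      η * ((w * ⌈100 / v⌉₊ : ℕ) : ℝ) ≤ 1 →
      ∃ P : FPar, P.v = v ∧ P.η = η ∧ P.nu = w * ⌈100 / v⌉₊ ∧ P.KG = KG ∧ 1 ≤ P.n1 ∧
        flipC D P ≤ c ∧
        Cg * Real.exp (Cg * (P.nu * P.v + 1) - lam3 * P.Kn)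
            + (2 * P.r1 + 1) ^ D * (4 * Real.exp (-(1 / (512 * (P.v * P.n1)))))
            + 2 * Real.exp (-(P.Kp ^ 2 /
                (2 * ((max P.cup P.cd) ^ 2 * (P.v * P.nu) * (2 * P.r2 + 1) ^ D)))) ≤ q := by
  have hw1 : (1 : ℝ) ≤ w := by exact_mod_cast hw
  have hW1 : 101 ≤ W := by rw [hW]; linarith
  -- Kn
  set Kn : ℝ := max 0 ((Cg * (W + 1) + Real.log (3 * Cg / q)) / lam3) with hKn
  have hKn0 : 0 ≤ Kn := le_max_left _ _
  have hKn1 : Cg * Real.exp (Cg * (W + 1) - lam3 * Kn) ≤ q / 3 := by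
    have h1 : (Cg * (W + 1) + Real.log (3 * Cg / q)) / lam3 ≤ Kn := le_max_right _ _
    rw [div_le_iff₀ hl] at h1
    have h2 : Cg * (W + 1) - lam3 * Kn ≤ -Real.log (3 * Cg / q) := by linarith
    calc Cg * Real.exp (Cg * (W + 1) - lam3 * Kn) ≤ Cg * Real.exp (-Real.log (3 * Cg / q)) :=
          mul_le_mul_of_nonneg_left (Real.exp_le_exp.mpr h2) hCg.le
      _ = q / 3 := by
          rw [Real.exp_neg, Real.exp_log (by positivity)]
          field_simp
  set r0 : ℕ := ⌈2 * KG + 4 * Kn⌉₊ with hr0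
  set r1 : ℕ := ⌈4 * KG + 8 * Kn⌉₊ with hr1
  set r2 : ℕ := ⌈2 * (r1 : ℝ) + 2 * KG + 4 * Kn⌉₊ with hr2
  -- T1
  set L1 : ℝ := Real.log (12 * (2 * (r1 : ℝ) + 1) ^ D / q) with hL1
  have hpow1 : (1 : ℝ) ≤ (2 * (r1 : ℝ) + 1) ^ D := one_le_pow₀ (by
    have : (0 : ℝ) ≤ r1 := by positivity
    linarith)
  have hL1pos : 0 < L1 := by
    apply Real.log_pos
    rw [lt_div_iff₀ hq]
    linarith
  set T1 : ℝ := min 1 (1 / (512 * L1)) with hT1
  have hT0 : 0 < T1 := lt_min one_pos (by positivity)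
  have hT1' : T1 ≤ 1 := min_le_left _ _
  have hT2 : (2 * (r1 : ℝ) + 1) ^ D * (4 * Real.exp (-(1 / (512 * T1)))) ≤ q / 3 := by
    have h1 : T1 ≤ 1 / (512 * L1) := min_le_right _ _
    have h2 : L1 ≤ 1 / (512 * T1) := by
      rw [le_div_iff₀ (by positivity)]
      rw [le_div_iff₀ (by positivity)] at h1
      linarith
    calc (2 * (r1 : ℝ) + 1) ^ D * (4 * Real.exp (-(1 / (512 * T1))))
        ≤ (2 * (r1 : ℝ) + 1) ^ D * (4 * Real.exp (-L1)) := by
          apply mul_le_mul_of_nonneg_left _ (by positivity)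
          apply mul_le_mul_of_nonneg_left _ (by norm_num)
          apply Real.exp_le_exp.mpr
          linarith
      _ = q / 3 := by
          rw [Real.exp_neg, hL1, Real.exp_log (by positivity)]
          field_simp
          norm_num
  set cup : ℝ := 2 * (KG + r1 / 8 + 4) / T1 with hcup
  have hcup0 : 0 < cup := by positivity
  set Q : ℝ := 2 * (cup ^ 2 * W * (2 * (r2 : ℝ) + 1) ^ D) with hQ
  have hW0 : 0 < W := by linarith
  have hQ0 : 0 < Q := by positivity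
  have hL6 : 0 ≤ Real.log (6 / q) := by
    apply Real.log_nonneg
    rw [le_div_iff₀ hq]
    linarith
  set Kp : ℝ := Q + Real.log (6 / q) with hKp
  have hKp0 : 0 ≤ Kp := by linarith
  refine ⟨min (T1 / 2) (1 / cup), D * Real.log (2 * r0 + 1) + Kp +
    cup ^ 2 * W * (2 * (r2 : ℝ) + 1) ^ D / 2, lt_min (by positivity) (by positivity),
    (min_le_left _ _).trans (by linarith), ?_, ?_⟩
  · have : 0 ≤ Real.log (2 * (r0 : ℝ) + 1) := Real.log_nonneg (by
      have : (0 : ℝ) ≤ r0 := by positivity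
      linarith)
    positivity
  intro v hv hv1 η hη hηn
  have hvT : v ≤ T1 / 2 := hv1.trans (min_le_left _ _)
  have hvc : v ≤ 1 / cup := hv1.trans (min_le_right _ _)
  have hvle : v ≤ 1 := by linarith
  obtain ⟨hp1, hp2⟩ := MFg_np v hv hvle
  set n1 : ℕ := ⌊T1 / v⌋₊ with hn1
  have hn1a : v * (n1 : ℝ) ≤ T1 := by
    have h1 : (n1 : ℝ) ≤ T1 / v := Nat.floor_le (by positivity)
    rw [le_div_iff₀ hv] at h1
    linarith
  have hn1b : T1 / 2 ≤ v * (n1 : ℝ) := by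
    have h1 : T1 / v < n1 + 1 := Nat.lt_floor_add_one _
    rw [div_lt_iff₀ hv] at h1
    linarith
  have hn1c : 1 ≤ n1 := by
    rw [hn1, Nat.one_le_floor_iff, le_div_iff₀ hv]
    linarith
  have hnu1 : v * (((w * ⌈100 / v⌉₊ : ℕ) : ℝ)) ≤ W := by
    push_cast
    rw [hW]
    calc v * ((w : ℝ) * (⌈100 / v⌉₊ : ℝ)) = w * (v * (⌈100 / v⌉₊ : ℝ)) := by ring
      _ ≤ w * 101 := mul_le_mul_of_nonneg_left hp2 (by positivity)
      _ = 101 * w := by ring
  have hnu2 : 100 ≤ v * (((w * ⌈100 / v⌉₊ : ℕ) : ℝ)) := by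
    push_cast
    calc (100 : ℝ) ≤ 1 * (v * (⌈100 / v⌉₊ : ℝ)) := by linarith
      _ ≤ w * (v * (⌈100 / v⌉₊ : ℝ)) := mul_le_mul_of_nonneg_right hw1 (by positivity)
      _ = v * ((w : ℝ) * (⌈100 / v⌉₊ : ℝ)) := by ring
  have hlt : n1 < w * ⌈100 / v⌉₊ := by
    have h1 : v * (n1 : ℝ) < v * (((w * ⌈100 / v⌉₊ : ℕ) : ℝ)) := by linarith
    have h2 := lt_of_mul_lt_mul_left h1 hv.le
    exact_mod_cast h2
  refine ⟨{ v := v, η := η, cup := cup, cd := cup, KG := KG, Kn := Kn, Kp := Kp, n1 := n1,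
            nu := w * ⌈100 / v⌉₊, r0 := r0, r1 := r1, r2 := r2, hv := hv, hη := hη,
            hcup := hcup0, hcd := hcup0, hKG := hKG, hKn := hKn0, hKp := hKp0, hn := hlt,
            hηn := hηn, hcv := ?_, hr0 := Nat.le_ceil _, hr1 := Nat.le_ceil _,
            hr2 := Nat.le_ceil _, hup := ?_, hdn := ?_ }, rfl, rfl, rfl, rfl, hn1c, ?_, ?_⟩
  · rw [le_div_iff₀ hcup0] at hvc
    linarith
  · have h1 : cup * (T1 / 2) ≤ cup * (v * n1) := mul_le_mul_of_nonneg_left hn1b hcup0.le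
    have h2 : cup * (T1 / 2) = KG + r1 / 8 + 4 := by
      rw [hcup]
      field_simp
    linarith
  · apply mul_le_mul_of_nonneg_left _ hcup0.le
    rw [mul_sub]
    linarith
  · simp only [flipC, max_self]
    have h1 : cup ^ 2 * (v * (((w * ⌈100 / v⌉₊ : ℕ) : ℝ))) * (2 * (r2 : ℝ) + 1) ^ D ≤
        cup ^ 2 * W * (2 * (r2 : ℝ) + 1) ^ D := by
      apply mul_le_mul_of_nonneg_right _ (by positivity)
      exact mul_le_mul_of_nonneg_left hnu1 (by positivity)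
    linarith
  · simp only [max_self]
    have e1 : Cg * Real.exp (Cg * ((((w * ⌈100 / v⌉₊ : ℕ) : ℝ)) * v + 1) - lam3 * Kn) ≤ q / 3 := by
      refine le_trans ?_ hKn1
      apply mul_le_mul_of_nonneg_left _ hCg.le
      apply Real.exp_le_exp.mpr
      have : Cg * ((((w * ⌈100 / v⌉₊ : ℕ) : ℝ)) * v + 1) ≤ Cg * (W + 1) := by
        apply mul_le_mul_of_nonneg_left _ hCg.le
        linarith
      linarith
    have hvn : 0 < v * (n1 : ℝ) := by linarith
    have e2 : (2 * (r1 : ℝ) + 1) ^ D * (4 * Real.exp (-(1 / (512 * (v * n1))))) ≤ q / 3 := by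
      refine le_trans ?_ hT2
      apply mul_le_mul_of_nonneg_left _ (by positivity)
      apply mul_le_mul_of_nonneg_left _ (by norm_num)
      apply Real.exp_le_exp.mpr
      apply neg_le_neg
      apply one_div_le_one_div_of_le (by positivity)
      linarith
    have hnu0 : 0 < v * (((w * ⌈100 / v⌉₊ : ℕ) : ℝ)) := by linarith
    have e3 : 2 * Real.exp (-(Kp ^ 2 / (2 * (cup ^ 2 * (v * (((w * ⌈100 / v⌉₊ : ℕ) : ℝ))) *
        (2 * (r2 : ℝ) + 1) ^ D)))) ≤ q / 3 := by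
      have h1 : 2 * (cup ^ 2 * (v * (((w * ⌈100 / v⌉₊ : ℕ) : ℝ))) * (2 * (r2 : ℝ) + 1) ^ D) ≤ Q := by
        rw [hQ]
        apply mul_le_mul_of_nonneg_left _ (by norm_num)
        apply mul_le_mul_of_nonneg_right _ (by positivity)
        exact mul_le_mul_of_nonneg_left hnu1 (by positivity)
      have h2 : Real.log (6 / q) ≤ Kp ^ 2 / Q := by
        rw [le_div_iff₀ hQ0, hKp]
        nlinarith
      have h3 : Kp ^ 2 / Q ≤ Kp ^ 2 / (2 * (cup ^ 2 * (v * (((w * ⌈100 / v⌉₊ : ℕ) : ℝ))) *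
          (2 * (r2 : ℝ) + 1) ^ D)) := by
        apply div_le_div_of_nonneg_left (by positivity) (by positivity) h1
      calc 2 * Real.exp (-(Kp ^ 2 / (2 * (cup ^ 2 * (v * (((w * ⌈100 / v⌉₊ : ℕ) : ℝ))) *
            (2 * (r2 : ℝ) + 1) ^ D)))) ≤ 2 * Real.exp (-Real.log (6 / q)) := by
            apply mul_le_mul_of_nonneg_left _ (by norm_num)
            apply Real.exp_le_exp.mpr
            linarith
        _ = q / 3 := by
            rw [Real.exp_neg, Real.exp_log (by positivity)]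
            field_simp
            norm_num
    linarith

/-- the final estimate -/
private theorem MFg_num (Ca Cb lam1 lam2 Cpp W A E θ K CS CS' H1 Lam cb δ c3 G C : ℝ)
    (hCa : 0 < Ca) (hCb : 0 < Cb) (hl1 : 0 < lam1) (hl2 : 0 < lam2)
    (hCpp : Cpp = 4 * (1 + (2 * Ca / lam1 + 2 * Cb / lam2))) (hW : 0 < W) (hCS : 1 ≤ CS)
    (hA : A = Real.log (3 * CS)) (hE : E = 1 + Cpp * W + A) (hθ : θ = Real.exp (4 * E))
    (hK : 1 ≤ K) (hCS' : 0 ≤ CS') (hLam : 0 < Lam) (hH1 : H1 = 1 + θ / K * CS')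
    (hδ : δ = Real.log (1 + Real.exp (-cb)) / 2) (hcb : 0 ≤ cb)
    (hc3 : c3 = min (min Ca Cb) (δ / W))
    (hG : G = Real.exp (1 + Cpp * (W + 1)) * CS * H1)
    (hC : C = max (Cpp + Lam) (Real.log (2 + 2 * G + Real.exp 1)))
    (fC Ke N R : ℝ) (m k r : ℕ) (hfC : fC ≤ cb) (hKe : 0 ≤ Ke) (hN : 0 ≤ N)
    (hk : m ≤ 4 * k) (hr : m ≤ 2 * r) (hNm : N ≤ W * (m + 1))
    (hR : R = 8 / 7 * (Ke + 2 * Ca * (N + 1) / lam1 + 2 * Cb * (N + 1) / lam2)) :
    Real.exp (-(Ca * (N + 1))) + Real.exp (-(Cb * (N + 1))) +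
      θ⁻¹ ^ k * (Real.exp (3 * R) * CS * (3 * CS) ^ m *
        (1 + θ / K * (CS' * Real.exp (Lam * Ke)))) +
      θ⁻¹ ^ k * (Real.exp (3 * R) * CS * (2 * CS) ^ m * 1) +
      (1 + Real.exp (-fC))⁻¹ ^ r ≤ Real.exp (C * (Ke + 1) - c3 * N) := by
  have hK0 : 0 < K := by linarith
  have hCS0 : 0 < CS := by linarith
  have hθ0 : 0 < θ := by rw [hθ]; positivity
  have ha0 : 0 ≤ 2 * Ca / lam1 + 2 * Cb / lam2 := by positivity
  have hCpp0 : 0 < Cpp := by rw [hCpp]; linarith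
  have hA0 : 0 ≤ A := by
    rw [hA]
    exact Real.log_nonneg (by linarith)
  have hE0 : 0 ≤ E := by
    rw [hE]
    positivity
  have hH10 : 1 ≤ H1 := by
    rw [hH1]
    have : 0 ≤ θ / K * CS' := by positivity
    linarith
  have hG0 : 0 ≤ G := by
    rw [hG]
    positivity
  have hδ0 : 0 < δ := by
    rw [hδ]
    have : 0 < Real.log (1 + Real.exp (-cb)) := Real.log_pos (by
      have := Real.exp_pos (-cb)
      linarith)
    linarith
  have hδ1 : δ ≤ 1 := by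
    rw [hδ]
    have h1 : Real.log (1 + Real.exp (-cb)) ≤ (1 + Real.exp (-cb)) - 1 :=
      Real.log_le_sub_one_of_pos (by positivity)
    have h2 : Real.exp (-cb) ≤ 1 := Real.exp_le_one_iff.mpr (by linarith)
    linarith
  have hc3a : c3 ≤ Ca := by
    rw [hc3]
    exact (min_le_left _ _).trans (min_le_left _ _)
  have hc3b : c3 ≤ Cb := by
    rw [hc3]
    exact (min_le_left _ _).trans (min_le_right _ _)
  have hc3c : c3 ≤ δ / W := by
    rw [hc3]
    exact min_le_right _ _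
  have hc3N : c3 * N ≤ δ * (N / W) := by
    calc c3 * N ≤ δ / W * N := mul_le_mul_of_nonneg_right hc3c hN
      _ = δ * (N / W) := by ring
  have hNW : N / W ≤ m + 1 := by
    rw [div_le_iff₀ hW]
    linarith
  have hNW0 : 0 ≤ N / W := by positivity
  have hm1 : Real.exp (-(m : ℝ)) ≤ Real.exp 1 * Real.exp (-(c3 * N)) := by
    rw [← Real.exp_add]
    apply Real.exp_le_exp.mpr
    have : δ * (N / W) ≤ N / W := by
      calc δ * (N / W) ≤ 1 * (N / W) := mul_le_mul_of_nonneg_right hδ1 hNW0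
        _ = N / W := one_mul _
    linarith
  have hm2 : Real.exp (-(δ * m)) ≤ Real.exp 1 * Real.exp (-(c3 * N)) := by
    rw [← Real.exp_add]
    apply Real.exp_le_exp.mpr
    have h1 : δ * (N / W) ≤ δ * (m + 1) := mul_le_mul_of_nonneg_left hNW hδ0.le
    nlinarith
  -- the length
  have h3R : 3 * R ≤ Cpp * (Ke + W * (m + 1) + 1) := by
    rw [hR, hCpp]
    have e1 : 2 * Ca * (N + 1) / lam1 + 2 * Cb * (N + 1) / lam2 =
        (2 * Ca / lam1 + 2 * Cb / lam2) * (N + 1) := by ring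
    have e2 : 3 * (8 / 7 * (Ke + 2 * Ca * (N + 1) / lam1 + 2 * Cb * (N + 1) / lam2)) =
        24 / 7 * (Ke + (2 * Ca / lam1 + 2 * Cb / lam2) * (N + 1)) := by
      rw [← e1]
      ring
    rw [e2]
    set a := 2 * Ca / lam1 + 2 * Cb / lam2
    have e3 : a * (N + 1) ≤ a * (W * (m + 1) + 1) := mul_le_mul_of_nonneg_left (by linarith) ha0
    have e4 : 0 ≤ W * ((m : ℝ) + 1) + 1 := by positivity
    have e5 : 0 ≤ a * (W * (m + 1) + 1) := mul_nonneg ha0 e4
    have e6 : 0 ≤ a * Ke := mul_nonneg ha0 hKe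
    nlinarith
  have hmk : (m : ℝ) ≤ 4 * k := by exact_mod_cast hk
  have hmr : (m : ℝ) ≤ 2 * r := by exact_mod_cast hr
  have hθk : θ⁻¹ ^ k ≤ Real.exp (-(E * m)) := by
    rw [hθ, ← Real.exp_neg, ← Real.exp_nat_mul]
    apply Real.exp_le_exp.mpr
    have := mul_le_mul_of_nonneg_left hmk hE0
    linarith
  have h3m : (3 * CS) ^ m = Real.exp (A * m) := by
    rw [hA, mul_comm (Real.log (3 * CS)), Real.exp_nat_mul, Real.exp_log (by positivity)]
  have hH : 1 + θ / K * (CS' * Real.exp (Lam * Ke)) ≤ Real.exp (Lam * Ke) * H1 := by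
    rw [hH1]
    have h1 : 1 ≤ Real.exp (Lam * Ke) := Real.one_le_exp (by positivity)
    have h2 : Real.exp (Lam * Ke) * (1 + θ / K * CS') =
        Real.exp (Lam * Ke) + θ / K * (CS' * Real.exp (Lam * Ke)) := by ring
    rw [h2]
    linarith
  have hH0 : 1 ≤ 1 + θ / K * (CS' * Real.exp (Lam * Ke)) := by
    have : 0 ≤ θ / K * (CS' * Real.exp (Lam * Ke)) := by positivity
    linarith
  -- third term
  have ht3 : θ⁻¹ ^ k * (Real.exp (3 * R) * CS * (3 * CS) ^ m *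
      (1 + θ / K * (CS' * Real.exp (Lam * Ke)))) ≤
      G * (Real.exp ((Cpp + Lam) * Ke) * Real.exp (-(c3 * N))) := by
    calc θ⁻¹ ^ k * (Real.exp (3 * R) * CS * (3 * CS) ^ m *
          (1 + θ / K * (CS' * Real.exp (Lam * Ke))))
        ≤ Real.exp (-(E * m)) * (Real.exp (Cpp * (Ke + W * (m + 1) + 1)) * CS *
          Real.exp (A * m) * (Real.exp (Lam * Ke) * H1)) := by
          rw [h3m]
          apply mul_le_mul hθk _ (by positivity) (Real.exp_pos _).le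
          apply mul_le_mul _ hH (by positivity) (by positivity)
          apply mul_le_mul_of_nonneg_right _ (Real.exp_pos _).le
          apply mul_le_mul_of_nonneg_right _ hCS0.le
          exact Real.exp_le_exp.mpr h3R
      _ = Real.exp (-(m : ℝ)) * (Real.exp ((Cpp + Lam) * Ke) *
          (Real.exp (Cpp * (W + 1)) * CS * H1)) := by
          have e : Real.exp (-(E * m)) * (Real.exp (Cpp * (Ke + W * (m + 1) + 1)) *
              Real.exp (A * m) * Real.exp (Lam * Ke)) =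
              Real.exp (-(m : ℝ)) * (Real.exp ((Cpp + Lam) * Ke) * Real.exp (Cpp * (W + 1))) := by
            rw [← Real.exp_add, ← Real.exp_add, ← Real.exp_add, ← Real.exp_add, ← Real.exp_add]
            congr 1
            rw [hE]
            ring
          calc _ = (Real.exp (-(E * m)) * (Real.exp (Cpp * (Ke + W * (m + 1) + 1)) *
              Real.exp (A * m) * Real.exp (Lam * Ke))) * (CS * H1) := by ring
            _ = _ := by
              rw [e]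
              ring
      _ ≤ (Real.exp 1 * Real.exp (-(c3 * N))) * (Real.exp ((Cpp + Lam) * Ke) *
          (Real.exp (Cpp * (W + 1)) * CS * H1)) :=
          mul_le_mul_of_nonneg_right hm1 (by positivity)
      _ = _ := by
          rw [hG, Real.exp_add 1]
          ring
  have ht4 : θ⁻¹ ^ k * (Real.exp (3 * R) * CS * (2 * CS) ^ m * 1) ≤
      G * (Real.exp ((Cpp + Lam) * Ke) * Real.exp (-(c3 * N))) := by
    refine le_trans ?_ ht3
    apply mul_le_mul_of_nonneg_left _ (by positivity)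
    apply mul_le_mul _ hH0 (by norm_num) (by positivity)
    apply mul_le_mul_of_nonneg_left _ (by positivity)
    exact pow_le_pow_left₀ (by positivity) (by linarith) m
  have hKe1 : 1 ≤ Real.exp ((Cpp + Lam) * Ke) := Real.one_le_exp (by positivity)
  have hexpN : 0 < Real.exp (-(c3 * N)) := Real.exp_pos _
  have ht5 : (1 + Real.exp (-fC))⁻¹ ^ r ≤
      Real.exp 1 * (Real.exp ((Cpp + Lam) * Ke) * Real.exp (-(c3 * N))) := by
    have h1 : (1 + Real.exp (-fC))⁻¹ ≤ Real.exp (-(2 * δ)) := by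
      have e : 2 * δ = Real.log (1 + Real.exp (-cb)) := by rw [hδ]; ring
      rw [e, Real.exp_neg (Real.log _), Real.exp_log (by positivity)]
      apply inv_anti₀ (by positivity)
      have := Real.exp_le_exp.mpr (neg_le_neg hfC)
      linarith
    calc (1 + Real.exp (-fC))⁻¹ ^ r ≤ Real.exp (-(2 * δ)) ^ r :=
          pow_le_pow_left₀ (by positivity) h1 r
      _ = Real.exp (-(δ * (2 * r))) := by
          rw [← Real.exp_nat_mul]
          congr 1
          ring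
      _ ≤ Real.exp (-(δ * m)) := by
          apply Real.exp_le_exp.mpr
          have := mul_le_mul_of_nonneg_left hmr hδ0.le
          linarith
      _ ≤ Real.exp 1 * Real.exp (-(c3 * N)) := hm2
      _ ≤ _ := by
          apply mul_le_mul_of_nonneg_left _ (Real.exp_pos _).le
          calc Real.exp (-(c3 * N)) = 1 * Real.exp (-(c3 * N)) := (one_mul _).symm
            _ ≤ _ := mul_le_mul_of_nonneg_right hKe1 hexpN.le
  have ht1 : Real.exp (-(Ca * (N + 1))) ≤ 1 * (Real.exp ((Cpp + Lam) * Ke) *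
      Real.exp (-(c3 * N))) := by
    rw [one_mul, ← Real.exp_add]
    apply Real.exp_le_exp.mpr
    have h1 : c3 * N ≤ Ca * N := mul_le_mul_of_nonneg_right hc3a hN
    have h2 : 0 ≤ (Cpp + Lam) * Ke := by positivity
    linarith
  have ht2 : Real.exp (-(Cb * (N + 1))) ≤ 1 * (Real.exp ((Cpp + Lam) * Ke) *
      Real.exp (-(c3 * N))) := by
    rw [one_mul, ← Real.exp_add]
    apply Real.exp_le_exp.mpr
    have h1 : c3 * N ≤ Cb * N := mul_le_mul_of_nonneg_right hc3b hN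
    have h2 : 0 ≤ (Cpp + Lam) * Ke := by positivity
    linarith
  have hC1 : Cpp + Lam ≤ C := by rw [hC]; exact le_max_left _ _
  have hC2 : Real.log (2 + 2 * G + Real.exp 1) ≤ C := by rw [hC]; exact le_max_right _ _
  have hsum : 2 + 2 * G + Real.exp 1 ≤ Real.exp C := by
    have h1 : 0 < 2 + 2 * G + Real.exp 1 := by positivity
    calc 2 + 2 * G + Real.exp 1 = Real.exp (Real.log (2 + 2 * G + Real.exp 1)) :=
          (Real.exp_log h1).symm
      _ ≤ Real.exp C := Real.exp_le_exp.mpr hC2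
  calc _ ≤ 1 * (Real.exp ((Cpp + Lam) * Ke) * Real.exp (-(c3 * N))) +
        1 * (Real.exp ((Cpp + Lam) * Ke) * Real.exp (-(c3 * N))) +
        G * (Real.exp ((Cpp + Lam) * Ke) * Real.exp (-(c3 * N))) +
        G * (Real.exp ((Cpp + Lam) * Ke) * Real.exp (-(c3 * N))) +
        Real.exp 1 * (Real.exp ((Cpp + Lam) * Ke) * Real.exp (-(c3 * N))) :=
        add_le_add (add_le_add (add_le_add (add_le_add ht1 ht2) ht3) ht4) ht5
    _ = (2 + 2 * G + Real.exp 1) * (Real.exp ((Cpp + Lam) * Ke) * Real.exp (-(c3 * N))) := by ring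
    _ ≤ Real.exp C * (Real.exp (C * Ke) * Real.exp (-(c3 * N))) := by
        apply mul_le_mul hsum _ (by positivity) (Real.exp_pos _).le
        apply mul_le_mul_of_nonneg_right _ hexpN.le
        apply Real.exp_le_exp.mpr
        exact mul_le_mul_of_nonneg_right hC1 hKe
    _ = _ := by
        rw [← Real.exp_add, ← Real.exp_add]
        congr 1
        ring

theorem uncut_decay (D : ℕ) : ∃ (v0 c3 C s0 : ℝ) (nd : ℕ), 0 < v0 ∧ 0 < c3 ∧ 1 ≤ C ∧ 0 < s0 ∧
    s0 ≤ 1 / 8 ∧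
    ∀ v : ℝ, 0 < v → v ≤ v0 → ∃ η0 : ℝ, 0 < η0 ∧ ∀ η : ℝ, 0 < η → η ≤ η0 →
      ∀ (S : Type) [Fintype S] (M : MSet S D), M.HasLine nd → ∀ (n : ℕ) (X : S → ℝ) (x : S)
        (Ke : ℝ), 0 ≤ Ke → (∀ z, X z ≤ 0) → (∀ z, -Ke - s0 * M.dd x z ≤ X z) →
        PI (nz S) {ω | M.uncut η X (sc v ω) n 0 x}
          ≤ ENNReal.ofReal (Real.exp (C * (Ke + 1) - c3 * (n * v))) := by
  obtain ⟨lam1, Ca, hl1, hCa, ht1⟩ := lpp_tail D (1 / 8) (by norm_num)
  obtain ⟨lam2, Cb, hl2, hCb, ht2⟩ := lpp_tail_neg D (1 / 8) (by norm_num)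
  obtain ⟨lam3, Cg, hl3, hCg, hgn⟩ := good_noise D
  obtain ⟨CS, hCS, hS⟩ := sum_exp_dd D 1 one_pos
  obtain ⟨CS', hCS', hS'⟩ := sum_exp_dd D (1 / 2) (by norm_num)
  obtain ⟨C1, hC1, hly⟩ := lyap_F
  obtain ⟨Cpp, hCpp⟩ : ∃ Cpp : ℝ, Cpp = 4 * (1 + (2 * Ca / lam1 + 2 * Cb / lam2)) := ⟨_, rfl⟩
  obtain ⟨A, hA⟩ : ∃ A : ℝ, A = Real.log (3 * CS) := ⟨_, rfl⟩
  have hCpp0 : 4 ≤ Cpp := by
    rw [hCpp]
    have : 0 ≤ 2 * Ca / lam1 + 2 * Cb / lam2 := by positivity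
    linarith
  have hA0 : 0 ≤ A := by
    rw [hA]
    exact Real.log_nonneg (by linarith)
  obtain ⟨nd, hnd1, hnd2⟩ : ∃ nd : ℕ, (400 : ℝ) ≤ nd ∧ 27000 * Cpp ≤ nd := by
    refine ⟨max 400 ⌈27000 * Cpp⌉₊, ?_, ?_⟩
    · exact_mod_cast le_max_left _ _
    · exact (Nat.le_ceil _).trans (by exact_mod_cast le_max_right _ _)
  obtain ⟨Lam, hLam⟩ : ∃ Lam : ℝ, Lam = nd / 50 := ⟨_, rfl⟩
  have hLam8 : 8 ≤ Lam := by rw [hLam]; linarith
  have hLam0 : 0 < Lam := by linarith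
  obtain ⟨w, hw1, hw2⟩ : ∃ w : ℕ, 1 ≤ w ∧ (nd : ℝ) + 4 / 50 * nd ^ 2 + 4 + 4 * A ≤ w := by
    refine ⟨⌈(nd : ℝ) + 4 / 50 * nd ^ 2 + 4 + 4 * A⌉₊ + 1, by omega, ?_⟩
    push_cast
    have := Nat.le_ceil ((nd : ℝ) + 4 / 50 * nd ^ 2 + 4 + 4 * A)
    linarith
  have hw1R : (1 : ℝ) ≤ w := by exact_mod_cast hw1
  obtain ⟨W, hW⟩ : ∃ W : ℝ, W = 101 * w := ⟨_, rfl⟩
  have hW0 : 0 < W := by rw [hW]; linarith
  obtain ⟨E, hE⟩ : ∃ E : ℝ, E = 1 + Cpp * W + A := ⟨_, rfl⟩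
  have hE0 : 0 ≤ E := by rw [hE]; positivity
  obtain ⟨θ, hθ⟩ : ∃ θ : ℝ, θ = Real.exp (4 * E) := ⟨_, rfl⟩
  have hθ1 : 1 ≤ θ := by rw [hθ]; exact Real.one_le_exp (by positivity)
  have hθ0 : 0 < θ := by linarith
  obtain ⟨ρ, hρ⟩ : ∃ ρ : ℝ, ρ = 2 ^ nd * Real.exp (4 / 50 * nd ^ 2) * (97 / 100) ^ (w * nd) :=
    ⟨_, rfl⟩
  have hρ0 : 0 ≤ ρ := by rw [hρ]; positivity
  have hθρ : θ * ρ ≤ 1 := by
    have e1 : (2 : ℝ) ^ nd ≤ Real.exp nd := by
      have h1 : (2 : ℝ) ≤ Real.exp 1 := by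
        have := Real.exp_one_gt_d9
        linarith
      calc (2 : ℝ) ^ nd ≤ Real.exp 1 ^ nd := pow_le_pow_left₀ (by norm_num) h1 nd
        _ = Real.exp nd := by rw [← Real.exp_nat_mul, mul_one]
    have e2 : ((97 : ℝ) / 100) ^ (w * nd) ≤ Real.exp (-(3 / 100 * (w * nd))) := by
      have h1 : (97 : ℝ) / 100 ≤ Real.exp (-(3 / 100)) := by
        have := Real.one_sub_le_exp_neg (3 / 100)
        linarith
      calc ((97 : ℝ) / 100) ^ (w * nd) ≤ Real.exp (-(3 / 100)) ^ (w * nd) :=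
            pow_le_pow_left₀ (by norm_num) h1 _
        _ = Real.exp (-(3 / 100 * (w * nd))) := by
            rw [← Real.exp_nat_mul]
            congr 1
            push_cast
            ring
    calc θ * ρ ≤ Real.exp (4 * E) * (Real.exp nd * Real.exp (4 / 50 * nd ^ 2) *
          Real.exp (-(3 / 100 * (w * nd)))) := by
          rw [hθ, hρ]
          apply mul_le_mul_of_nonneg_left _ (Real.exp_pos _).le
          apply mul_le_mul _ e2 (by positivity) (by positivity)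
          exact mul_le_mul_of_nonneg_right e1 (Real.exp_pos _).le
      _ = Real.exp (4 * E + (nd + 4 / 50 * nd ^ 2 + -(3 / 100 * (w * nd)))) := by
          rw [← Real.exp_add, ← Real.exp_add, ← Real.exp_add]
      _ ≤ Real.exp 0 := by
          apply Real.exp_le_exp.mpr
          rw [hE, hW]
          have f1 : (w : ℝ) * (27000 * Cpp) ≤ w * nd :=
            mul_le_mul_of_nonneg_left hnd2 (by positivity)
          have f2 : ((nd : ℝ) + 4 / 50 * nd ^ 2 + 4 + 4 * A) * 400 ≤ w * nd :=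
            mul_le_mul hw2 hnd1 (by norm_num) (by positivity)
          have f3 : 0 ≤ (nd : ℝ) + 4 / 50 * nd ^ 2 + 4 + 4 * A := by positivity
          nlinarith
      _ = 1 := Real.exp_zero
  obtain ⟨CL, hCL⟩ : ∃ CL : ℝ, CL = 2 ^ nd * Real.exp (2 / 50 * nd ^ 2) * C1 ^ nd := ⟨_, rfl⟩
  have hCL0 : 0 ≤ CL := by rw [hCL]; positivity
  obtain ⟨K, hK⟩ : ∃ K : ℝ, K = max 1 (θ * CL * CS) := ⟨_, rfl⟩
  have hK1 : 1 ≤ K := by rw [hK]; exact le_max_left _ _
  have hK2 : θ * CL * CS ≤ K := by rw [hK]; exact le_max_right _ _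
  obtain ⟨KG, hKG⟩ : ∃ KG : ℝ, KG = Real.log K / Lam := ⟨_, rfl⟩
  have hKG0 : 0 ≤ KG := by
    rw [hKG]
    exact div_nonneg (Real.log_nonneg hK1) hLam0.le
  obtain ⟨v1, cb, hv1, hv1', hcb, hpar⟩ := MFg_par D lam3 Cg θ⁻¹ W KG w hl3 hCg
    (by positivity) (inv_le_one_of_one_le₀ hθ1) hw1 hW hKG0
  obtain ⟨H1, hH1⟩ : ∃ H1 : ℝ, H1 = 1 + θ / K * CS' := ⟨_, rfl⟩
  obtain ⟨δ, hδ⟩ : ∃ δ : ℝ, δ = Real.log (1 + Real.exp (-cb)) / 2 := ⟨_, rfl⟩
  have hδ0 : 0 < δ := by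
    rw [hδ]
    have : 0 < Real.log (1 + Real.exp (-cb)) := Real.log_pos (by
      have := Real.exp_pos (-cb)
      linarith)
    linarith
  obtain ⟨c3, hc3⟩ : ∃ c3 : ℝ, c3 = min (min Ca Cb) (δ / W) := ⟨_, rfl⟩
  have hc30 : 0 < c3 := by
    rw [hc3]
    exact lt_min (lt_min hCa hCb) (by positivity)
  obtain ⟨G, hG⟩ : ∃ G : ℝ, G = Real.exp (1 + Cpp * (W + 1)) * CS * H1 := ⟨_, rfl⟩
  obtain ⟨C, hC⟩ : ∃ C : ℝ, C = max (Cpp + Lam) (Real.log (2 + 2 * G + Real.exp 1)) := ⟨_, rfl⟩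
  have hC1' : 1 ≤ C := by
    rw [hC]
    exact le_trans (by linarith) (le_max_left _ _)
  refine ⟨min v1 (min (1 / lam1 ^ 2) (min (1 / lam2 ^ 2) (1 / lam3 ^ 2))), c3, C, 1 / (2 * Lam),
    nd, lt_min hv1 (lt_min (by positivity) (lt_min (by positivity) (by positivity))), hc30, hC1',
    by positivity, ?_, ?_⟩
  · apply one_div_le_one_div_of_le (by norm_num)
    linarith
  intro v hv hvle
  have hva : v ≤ v1 := hvle.trans (min_le_left _ _)
  have hvb : v ≤ 1 / lam1 ^ 2 := hvle.trans ((min_le_right _ _).trans (min_le_left _ _))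
  have hvc : v ≤ 1 / lam2 ^ 2 :=
    hvle.trans ((min_le_right _ _).trans ((min_le_right _ _).trans (min_le_left _ _)))
  have hvd : v ≤ 1 / lam3 ^ 2 :=
    hvle.trans ((min_le_right _ _).trans ((min_le_right _ _).trans (min_le_right _ _)))
  have hv1 : v ≤ 1 := hva.trans hv1'
  obtain ⟨hnp1, hnp2⟩ := MFg_np v hv hv1
  have hnppos : 0 < ⌈100 / v⌉₊ := Nat.ceil_pos.mpr (by positivity)
  have hnupos : 0 < w * ⌈100 / v⌉₊ := Nat.mul_pos hw1 hnppos
  have hnuposR : (0 : ℝ) < ((w * ⌈100 / v⌉₊ : ℕ) : ℝ) := by exact_mod_cast hnupos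
  refine ⟨1 / ((w * ⌈100 / v⌉₊ : ℕ) : ℝ), by positivity, ?_⟩
  intro η hη hηle S _ M hline n X x Ke hKe hX hX0
  have hηn : η * ((w * ⌈100 / v⌉₊ : ℕ) : ℝ) ≤ 1 := by
    rw [le_div_iff₀ hnuposR] at hηle
    exact hηle
  obtain ⟨P, hPv, hPη, hPnu, hPKG, hPn1, hPfc, hPq⟩ := hpar v hv hva η hη hηn
  have hPnupos : 0 < P.nu := by rw [hPnu]; exact hnupos
  obtain ⟨m, hm⟩ : ∃ m, m = n / P.nu := ⟨_, rfl⟩
  obtain ⟨r', hr'⟩ : ∃ r', r' = n % P.nu := ⟨_, rfl⟩
  have hr'lt : r' < P.nu := by rw [hr']; exact Nat.mod_lt _ hPnupos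
  have hn : n = m * P.nu + r' := by
    rw [hm, hr', mul_comm]
    exact (Nat.div_add_mod n P.nu).symm
  have hvnu : v * (P.nu : ℝ) ≤ W := by
    rw [hPnu, hW]
    push_cast
    calc v * ((w : ℝ) * (⌈100 / v⌉₊ : ℝ)) = w * (v * (⌈100 / v⌉₊ : ℝ)) := by ring
      _ ≤ w * 101 := mul_le_mul_of_nonneg_left hnp2 (by positivity)
      _ = 101 * w := by ring
  have hN0 : 0 ≤ (n : ℝ) * v := by positivity
  have hNm : (n : ℝ) * v ≤ W * (m + 1) := by
    have h1 : (n : ℝ) ≤ (m + 1) * P.nu := by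
      have : n ≤ (m + 1) * P.nu := by
        rw [hn, Nat.succ_mul]
        omega
      exact_mod_cast this
    calc (n : ℝ) * v ≤ (m + 1) * P.nu * v := mul_le_mul_of_nonneg_right h1 hv.le
      _ = v * P.nu * (m + 1) := by ring
      _ ≤ W * (m + 1) := mul_le_mul_of_nonneg_right hvnu (by positivity)
  have hcore := MFg_core M P lam1 Ca lam2 Cb hl1 hl2
    (by rw [hPv]; exact ht1 S M v hv hvb) (by rw [hPv]; exact ht2 S M v hv hvc)
    θ ρ Lam K CL CS CS' (1 / (2 * Lam)) hθ1 hρ0 hθρ hK1 hCL0 hK2 hLam8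
    (by field_simp) (by rw [hPKG, hKG])
    (fun x => by
      have := hS S M x
      simpa using this)
    (fun x => hS' S M x)
    (fun F _ y => by
      have h1 := hly S D M v ⌈100 / v⌉₊ hv hv1 hnp1 hnp2 w nd hline F y
      rw [hPv, hPnu, hρ, hCL, hLam]
      simpa only [neg_mul] using h1)
    (fun F z => (hgn S M P (by rw [hPv]; exact hvd) hPn1 F z).trans
      (ENNReal.ofReal_le_ofReal hPq))
    X hX x Ke hKe hX0 m r' ((m + 3) / 4) ((m + 1) / 2) (by omega) (by omega)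
    (8 / 7 * (Ke + 2 * Ca * ((n : ℝ) * v + 1) / lam1 + 2 * Cb * ((n : ℝ) * v + 1) / lam2))
    ((n : ℝ) * v) (by rw [← hn, hPv]) rfl
  rw [← hn, hPv, hPη] at hcore
  refine hcore.trans ?_
  rw [← ENNReal.ofReal_add (by positivity) (by positivity),
    ← ENNReal.ofReal_add (by positivity) (by positivity),
    ← ENNReal.ofReal_add (by positivity) (by positivity),
    ← ENNReal.ofReal_add (by positivity) (by positivity)]
  apply ENNReal.ofReal_le_ofReal
  exact MFg_num Ca Cb lam1 lam2 Cpp W A E θ K CS CS' H1 Lam cb δ c3 G C hCa hCb hl1 hl2 hCpp hW0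
    hCS hA hE hθ hK1 (by linarith) hLam0 hH1 hδ hcb hc3 hG hC (flipC D P) Ke ((n : ℝ) * v)
    (8 / 7 * (Ke + 2 * Ca * ((n : ℝ) * v + 1) / lam1 + 2 * Cb * ((n : ℝ) * v + 1) / lam2))
    m ((m + 3) / 4) ((m + 1) / 2) hPfc hKe hN0 (by omega) (by omega) hNm rfl

/-- length of lineages -/
theorem len_tail (D : ℕ) : ∃ (v0 c C : ℝ), 0 < v0 ∧ 0 < c ∧ 1 ≤ C ∧
    ∀ (S : Type) [Fintype S] (M : MSet S D) (v : ℝ), 0 < v → v ≤ v0 →
      ∀ (n : ℕ) (X : S → ℝ) (x : S) (Ke r : ℝ), 0 ≤ Ke → (∀ z, X z ≤ 0) → -Ke ≤ X x →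
        PI (nz S) {ω | r ≤ M.dd x (M.lin X (sc v ω) n x n)}
          ≤ ENNReal.ofReal (Real.exp (C * (n * v + Ke + 1) - c * r)) := by
  obtain ⟨lam1, Ca, hl1, hCa, ht1⟩ := lpp_tail D (1 / 8) (by norm_num)
  obtain ⟨lam2, Cb, hl2, hCb, ht2⟩ := lpp_tail_neg D (1 / 8) (by norm_num)
  obtain ⟨l, hl⟩ : ∃ l : ℝ, l = min lam1 lam2 := ⟨_, rfl⟩
  have hl0 : 0 < l := by rw [hl]; exact lt_min hl1 hl2
  have hla : l ≤ lam1 := by rw [hl]; exact min_le_left _ _
  have hlb : l ≤ lam2 := by rw [hl]; exact min_le_right _ _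
  obtain ⟨B, hB⟩ : ∃ B : ℝ, B = max Ca Cb := ⟨_, rfl⟩
  have hB0 : 0 < B := by rw [hB]; exact lt_max_of_lt_left hCa
  have hBa : Ca ≤ B := by rw [hB]; exact le_max_left _ _
  have hBb : Cb ≤ B := by rw [hB]; exact le_max_right _ _
  refine ⟨min (1 / lam1 ^ 2) (1 / lam2 ^ 2), 7 / 16 * l, B + l / 2 + 1,
    lt_min (by positivity) (by positivity), by positivity, by linarith, ?_⟩
  intro S _ M v hv hvle n X x Ke r hKe hX hx
  have hva : v ≤ 1 / lam1 ^ 2 := hvle.trans (min_le_left _ _)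
  have hvb : v ≤ 1 / lam2 ^ 2 := hvle.trans (min_le_right _ _)
  have hN0 : 0 ≤ (n : ℝ) * v := by positivity
  rcases le_or_gt (7 / 8 * r) Ke with hs | hs
  · -- trivial case
    have hprob : IsProbabilityMeasure (PI (nz S)) := by
      unfold PI
      infer_instance
    refine prob_le_one.trans ?_
    rw [← ENNReal.ofReal_one]
    apply ENNReal.ofReal_le_ofReal
    apply Real.one_le_exp
    have h1 : l * (7 / 8 * r) ≤ l * Ke := mul_le_mul_of_nonneg_left hs hl0.le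
    have h2 : 0 ≤ B * (n * v + Ke + 1) := by positivity
    have h3 : 0 ≤ l / 2 * (n * v + 1) := by positivity
    nlinarith
  · set s : ℝ := (7 / 8 * r - Ke) / 2 with hsdef
    have hs0 : 0 < s := by rw [hsdef]; linarith
    have hsub : {ω : ℕ → S → ℝ | r ≤ M.dd x (M.lin X (sc v ω) n x n)} ⊆
        {ω | s ≤ M.lppM (1 / 8) (fun _ => 0) (sc v ω) n x} ∪
          {ω | s ≤ M.lppM (1 / 8) (fun _ => 0) (sc v (-ω)) n x} := by
      intro ω hω
      by_contra hcon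
      simp only [Set.mem_union, not_or] at hcon
      obtain ⟨c1, c2⟩ := hcon
      have h1 := len_lin M X hX (sc v ω) n x Ke hKe hx
      have h2 := dd_lin M X (sc v ω) n x n
      have h3 : r ≤ M.dd x (M.lin X (sc v ω) n x n) := hω
      have c1' : ¬ s ≤ M.lppM (1 / 8) (fun _ => 0) (sc v ω) n x := c1
      have c2' : ¬ s ≤ M.lppM (1 / 8) (fun _ => 0) (sc v (-ω)) n x := c2
      rw [MFg_sc_neg] at c2'
      push Not at c1' c2'
      linarith
    refine (measure_mono hsub).trans ((measure_union_le _ _).trans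
      ((add_le_add (ht1 S M v hv hva n x s) (ht2 S M v hv hvb n x s)).trans ?_))
    rw [← ENNReal.ofReal_add (by positivity) (by positivity)]
    apply ENNReal.ofReal_le_ofReal
    have e1 : Real.exp (Ca * (n * v + 1) - lam1 * s) ≤ Real.exp (B * (n * v + 1) - l * s) := by
      apply Real.exp_le_exp.mpr
      have h1 : Ca * (n * v + 1) ≤ B * (n * v + 1) :=
        mul_le_mul_of_nonneg_right hBa (by positivity)
      have h2 : l * s ≤ lam1 * s := mul_le_mul_of_nonneg_right hla hs0.le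
      linarith
    have e2 : Real.exp (Cb * (n * v + 1) - lam2 * s) ≤ Real.exp (B * (n * v + 1) - l * s) := by
      apply Real.exp_le_exp.mpr
      have h1 : Cb * (n * v + 1) ≤ B * (n * v + 1) :=
        mul_le_mul_of_nonneg_right hBb (by positivity)
      have h2 : l * s ≤ lam2 * s := mul_le_mul_of_nonneg_right hlb hs0.le
      linarith
    have e3 : (2 : ℝ) ≤ Real.exp 1 := by
      have := Real.exp_one_gt_d9
      linarith
    calc Real.exp (Ca * (n * v + 1) - lam1 * s) + Real.exp (Cb * (n * v + 1) - lam2 * s)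
        ≤ 2 * Real.exp (B * (n * v + 1) - l * s) := by linarith
      _ ≤ Real.exp 1 * Real.exp (B * (n * v + 1) - l * s) :=
          mul_le_mul_of_nonneg_right e3 (Real.exp_pos _).le
      _ = Real.exp (1 + (B * (n * v + 1) - l * s)) := (Real.exp_add _ _).symm
      _ ≤ _ := by
          apply Real.exp_le_exp.mpr
          rw [hsdef]
          have h1 : 0 ≤ B * Ke := by positivity
          have h2 : 0 ≤ l / 2 * (n * v + 1) := by positivity
          nlinarith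

end DynC
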