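import Pool.Agent.Lib_MP_36b788c.MFg

/-!
# Height model: decay of the influence of the initial heights

PROOF of `mf_decay`. `X0 = min X X'`, `X1 = max X X'`: `|F - F'| ≤ mf X1 - mf X0`. `mf_interp` with `η ≤ η0`: `E[mf X1 - mf X0] ≤ Σ_i η P(uncut_i, X0(γ0) < -iη)`. The interpolated heights lie above
`X0`, so `uncut_decay` applies to each. `X0(γ0) ≥ -Ke - s0 dd x γ0` so the event with `iη ≥ Ke + s0 r` needs length `≥ (iη - Ke)/s0`, probability
`≤ 2 exp(C0(nv+1) - lam0 ((7/8)(iη-Ke)/s0 - Ke)/2)`. Sum: `(Ke + s0 r + η) sup + geometric tail`, `r = C(nv + Ke + 1)`. Markov with `κ`.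
(In the Lean proof the two bounds are combined by `min (e^a) (e^b) ≤ e^{(1-t) a + t b}` with a small `t`,
so that the sum over `i` is geometric.)
-/

open MeasureTheory ProbabilityTheory
open scoped ENNReal

namespace DynC

private theorem measurable_sc_MFg2 {S : Type} [Fintype S] (v : ℝ) :
    Measurable (fun ω : ℕ → S → ℝ => sc v ω) := by
  unfold sc
  refine measurable_pi_lambda _ fun j => measurable_pi_lambda _ fun y => ?_
  have h1 : Measurable (fun ω : ℕ → S → ℝ => ω j) := measurable_pi_apply j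
  have h2 : Measurable (fun a : S → ℝ => a y) := measurable_pi_apply y
  exact (h2.comp h1).const_mul _

private theorem measurable_pair_MFg2 {S : Type} [Fintype S] (v : ℝ) (Y : S → ℝ) :
    Measurable (fun ω : ℕ → S → ℝ => ((Y, sc v ω) : (S → ℝ) × (ℕ → S → ℝ))) :=
  measurable_const.prodMk (measurable_sc_MFg2 v)

/-- the event of `mf_interp` is measurable -/
private theorem measurableSet_A_MFg2 {S : Type} [Fintype S] {D : ℕ} (M : MSet S D)
    (v η q : ℝ) (Y X0 : S → ℝ) (n : ℕ) (x : S) :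
    MeasurableSet {ω : ℕ → S → ℝ | M.uncut η Y (sc v ω) n 0 x ∧
      X0 (M.lin Y (sc v ω) n x n) < q} := by
  have h1 : MeasurableSet {ω : ℕ → S → ℝ | M.uncut η Y (sc v ω) n 0 x} :=
    measurable_pair_MFg2 v Y (measurableSet_uncut M η n 0 x)
  have h2 : MeasurableSet {ω : ℕ → S → ℝ | X0 (M.lin Y (sc v ω) n x n) < q} := by
    have e : {ω : ℕ → S → ℝ | X0 (M.lin Y (sc v ω) n x n) < q} =
        ⋃ z : S, ({ω : ℕ → S → ℝ | M.lin Y (sc v ω) n x n = z} ∩ {_ω | X0 z < q}) := by
      ext ω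
      simp only [Set.mem_ofPred_eq, Set.mem_iUnion, Set.mem_inter_iff]
      constructor
      · intro h
        exact ⟨_, rfl, h⟩
      · rintro ⟨z, hz, hz'⟩
        rw [hz]
        exact hz'
    rw [e]
    refine MeasurableSet.iUnion fun z => MeasurableSet.inter ?_ (MeasurableSet.const _)
    exact measurable_pair_MFg2 v Y (measurableSet_lin M n x n z)
  exact h1.inter h2

/-- geometric sum -/
private theorem geom_MFg2 (η δ E : ℝ) (hη : 0 < η) (hη1 : η ≤ 1) (hδ : 0 < δ) (m : ℕ) :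
    ∑ i ∈ Finset.range m, η * Real.exp (E - δ * (i * η)) ≤ (1 / δ + 1) * Real.exp E := by
  have hq0 : 0 < Real.exp (-(δ * η)) := Real.exp_pos _
  have hδη : 0 < δ * η := mul_pos hδ hη
  have hq1 : Real.exp (-(δ * η)) < 1 := by
    rw [Real.exp_lt_one_iff]
    linarith
  have hs : ∑ i ∈ Finset.range m, η * Real.exp (E - δ * (i * η)) =
      η * Real.exp E * ∑ i ∈ Finset.range m, Real.exp (-(δ * η)) ^ i := by
    rw [Finset.mul_sum]
    refine Finset.sum_congr rfl fun i _ => ?_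
    rw [← Real.exp_nat_mul, mul_assoc, ← Real.exp_add]
    congr 2
    ring
  have hg : ∑ i ∈ Finset.range m, Real.exp (-(δ * η)) ^ i ≤ (1 - Real.exp (-(δ * η)))⁻¹ := by
    have h1 := Summable.sum_le_tsum (Finset.range m) (fun i _ => (pow_pos hq0 i).le)
      (summable_geometric_of_lt_one hq0.le hq1)
    rwa [tsum_geometric_of_lt_one hq0.le hq1] at h1
  have hlow : δ * η / (1 + δ * η) ≤ 1 - Real.exp (-(δ * η)) := by
    have h2 : 1 + δ * η ≤ Real.exp (δ * η) := by
      have := Real.add_one_le_exp (δ * η)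
      linarith
    have h3 : Real.exp (-(δ * η)) ≤ 1 / (1 + δ * η) := by
      rw [Real.exp_neg, ← one_div]
      exact one_div_le_one_div_of_le (by linarith) h2
    have h4 : δ * η / (1 + δ * η) = 1 - 1 / (1 + δ * η) := by
      field_simp
      ring
    linarith
  have hpos : 0 < δ * η / (1 + δ * η) := div_pos hδη (by linarith)
  have hinv : (1 - Real.exp (-(δ * η)))⁻¹ ≤ (1 + δ * η) / (δ * η) := by
    rw [← one_div]
    calc 1 / (1 - Real.exp (-(δ * η))) ≤ 1 / (δ * η / (1 + δ * η)) :=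
          one_div_le_one_div_of_le hpos hlow
      _ = (1 + δ * η) / (δ * η) := by rw [one_div_div]
  rw [hs]
  calc η * Real.exp E * ∑ i ∈ Finset.range m, Real.exp (-(δ * η)) ^ i
      ≤ η * Real.exp E * ((1 + δ * η) / (δ * η)) :=
        mul_le_mul_of_nonneg_left (hg.trans hinv) (mul_nonneg hη.le (Real.exp_pos _).le)
    _ = (1 / δ + η) * Real.exp E := by
        field_simp
    _ ≤ (1 / δ + 1) * Real.exp E :=
        mul_le_mul_of_nonneg_right (by linarith) (Real.exp_pos _).le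

/-- exponent bookkeeping -/
private theorem expo_MFg2 (Ca Cb c c3 s0 t Ke nv y : ℝ) (hCa : 1 ≤ Ca) (hCb : 1 ≤ Cb) (hc : 0 < c)
    (hc3 : 0 < c3) (hs0 : 0 < s0) (ht : 0 < t) (ht2 : t ≤ 1 / 2) (htC : t * Cb ≤ c3 / 4)
    (hKe : 0 ≤ Ke) (hnv : 0 ≤ nv) :
    (1 - t) * (Ca * (Ke + 1) - c3 * nv) + t * (Cb * (nv + Ke + 1) - c * ((y - Ke) / s0)) ≤
      (Ca + Cb + c / s0) * (Ke + 1) - c3 / 4 * nv - t * c / s0 * y := by
  have h1 : 0 ≤ t * (Ca * (Ke + 1)) := by positivity
  have h2 : 0 ≤ (1 / 2 - t) * (c3 * nv) := mul_nonneg (by linarith) (by positivity)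
  have h3 : 0 ≤ (c3 / 4 - t * Cb) * nv := mul_nonneg (by linarith) hnv
  have h4 : 0 ≤ (1 - t) * (Cb * (Ke + 1)) := mul_nonneg (by linarith) (by positivity)
  have h5 : 0 ≤ c / s0 * ((1 - t) * Ke + 1) := by
    have : 0 ≤ (1 - t) * Ke := mul_nonneg (by linarith) hKe
    positivity
  have e : c * ((y - Ke) / s0) = c / s0 * y - c / s0 * Ke := by ring
  have e2 : t * c / s0 * y = t * (c / s0 * y) := by ring
  rw [e, e2]
  nlinarith

/-- one term -/
private theorem term_MFg2 (p : ℝ≥0∞) (a b t E : ℝ) (ht0 : 0 ≤ t) (ht1 : t ≤ 1)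
    (ha : p ≤ ENNReal.ofReal (Real.exp a)) (hb : p ≤ ENNReal.ofReal (Real.exp b))
    (hE : (1 - t) * a + t * b ≤ E) : p ≤ ENNReal.ofReal (Real.exp E) := by
  rcases le_total a b with h | h
  · refine ha.trans (ENNReal.ofReal_le_ofReal (Real.exp_le_exp.mpr ?_))
    have : 0 ≤ t * (b - a) := mul_nonneg ht0 (by linarith)
    linarith
  · refine hb.trans (ENNReal.ofReal_le_ofReal (Real.exp_le_exp.mpr ?_))
    have : 0 ≤ (1 - t) * (a - b) := mul_nonneg (by linarith) (by linarith)
    linarith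

/-- the two families of heights are squeezed -/
private theorem squeeze_MFg2 {S : Type} [Fintype S] {D : ℕ} (M : MSet S D) (X X' : S → ℝ)
    (g : ℕ → S → ℝ) (n : ℕ) (x : S) :
    |M.mf X g n x - M.mf X' g n x| ≤
      M.mf (fun z => max (X z) (X' z)) g n x - M.mf (fun z => min (X z) (X' z)) g n x := by
  have h1 := mf_mono M X (fun z => max (X z) (X' z)) (fun z => le_max_left _ _) g n x
  have h2 := mf_mono M X' (fun z => max (X z) (X' z)) (fun z => le_max_right _ _) g n x
  have h3 := mf_mono M (fun z => min (X z) (X' z)) X (fun z => min_le_left _ _) g n x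
  have h4 := mf_mono M (fun z => min (X z) (X' z)) X' (fun z => min_le_right _ _) g n x
  rw [abs_le]
  constructor <;> linarith

/-- decay of the influence of the initial heights -/
theorem mf_decay (D : ℕ) : ∃ (v0 c3 C s0 : ℝ) (nd : ℕ), 0 < v0 ∧ 0 < c3 ∧ 1 ≤ C ∧ 0 < s0 ∧
    s0 ≤ 1 / 8 ∧
    ∀ v : ℝ, 0 < v → v ≤ v0 → ∀ (S : Type) [Fintype S] (M : MSet S D), M.HasLine nd →
      ∀ (n : ℕ) (X X' : S → ℝ) (x : S) (Ke κ : ℝ), 0 ≤ Ke → 0 < κ →
        (∀ z, X z ≤ 0) → (∀ z, X' z ≤ 0) → (∀ z, -Ke - s0 * M.dd x z ≤ X z) →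
        (∀ z, -Ke - s0 * M.dd x z ≤ X' z) →
        PI (nz S) {ω | κ < |M.mf X (sc v ω) n x - M.mf X' (sc v ω) n x|}
          ≤ ENNReal.ofReal (1 / κ * Real.exp (C * (Ke + 1) - c3 * (n * v))) := by
  obtain ⟨v0a, c3, Ca, s0, nd, hv0a, hc3, hCa, hs0, hs8, hunc⟩ := uncut_decay D
  obtain ⟨v0b, c, Cb, hv0b, hc, hCb, hlen⟩ := len_tail D
  -- constants
  set t : ℝ := min (1 / 2) (c3 / (4 * Cb)) with ht
  have hCb0 : 0 < Cb := by linarith
  have ht0 : 0 < t := lt_min (by norm_num) (by positivity)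
  have ht2 : t ≤ 1 / 2 := min_le_left _ _
  have htC : t * Cb ≤ c3 / 4 := by
    have h1 : t ≤ c3 / (4 * Cb) := min_le_right _ _
    have h2 := mul_le_mul_of_nonneg_right h1 hCb0.le
    have h3 : c3 / (4 * Cb) * Cb = c3 / 4 := by field_simp
    linarith
  set δ : ℝ := t * c / s0 with hδ
  have hδ0 : 0 < δ := by positivity
  set Kc : ℝ := 1 / δ + 1 with hKc
  have hKc1 : 1 ≤ Kc := by
    have : 0 < 1 / δ := by positivity
    linarith
  have hlog : 0 ≤ Real.log Kc := Real.log_nonneg hKc1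
  have hcs : 0 < c / s0 := by positivity
  refine ⟨min v0a v0b, c3 / 4, Ca + Cb + c / s0 + Real.log Kc, s0, nd, lt_min hv0a hv0b,
    by positivity, by linarith, hs0, hs8, ?_⟩
  intro v hv hvle S _ M hline n X X' x Ke κ hKe hκ hX hX' hXl hXl'
  obtain ⟨η0, hη0, hunc'⟩ := hunc v hv (hvle.trans (min_le_left _ _))
  set η : ℝ := min η0 1 with hη
  have hηpos : 0 < η := lt_min hη0 one_pos
  have hη1 : η ≤ 1 := min_le_right _ _
  have hηle : η ≤ η0 := min_le_left _ _
  set X0 : S → ℝ := fun z => min (X z) (X' z) with hX0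
  set X1 : S → ℝ := fun z => max (X z) (X' z) with hX1
  have h01 : ∀ z, X0 z ≤ X1 z := fun z => (min_le_left _ _).trans (le_max_left _ _)
  have hX1n : ∀ z, X1 z ≤ 0 := fun z => max_le (hX z) (hX' z)
  have hX0l : ∀ z, -Ke - s0 * M.dd x z ≤ X0 z := fun z => le_min (hXl z) (hXl' z)
  -- number of interpolation steps
  set B : ℝ := ∑ z, |X0 z| with hB
  obtain ⟨m, hm⟩ := exists_nat_ge (B / η)
  have hmB : B ≤ m * η := by
    rw [div_le_iff₀ hηpos] at hm
    exact hm
  have hmX : ∀ z, X1 z ≤ X0 z + m * η := by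
    intro z
    have h1 : |X0 z| ≤ B := Finset.single_le_sum (f := fun z => |X0 z|)
      (fun y _ => abs_nonneg _) (Finset.mem_univ z)
    have h2 := neg_abs_le (X0 z)
    have h3 := hX1n z
    linarith
  -- interpolated heights
  set Y : ℕ → S → ℝ := fun i => ipl X0 X1 η (i + 1) with hY
  have hYn : ∀ i z, Y i z ≤ 0 := fun i z => (min_le_left _ _).trans (hX1n z)
  have hYX : ∀ i z, X0 z ≤ Y i z := by
    intro i z
    refine le_min (h01 z) ?_
    have : (0 : ℝ) ≤ ((i + 1 : ℕ) : ℝ) * η := by positivity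
    linarith
  have hYl : ∀ i z, -Ke - s0 * M.dd x z ≤ Y i z := fun i z => (hX0l z).trans (hYX i z)
  have hYx : ∀ i, -Ke ≤ Y i x := by
    intro i
    have := hYl i x
    rw [M.dd_self x] at this
    simpa using this
  -- the events
  set A : ℕ → Set (ℕ → S → ℝ) := fun i => {ω | M.uncut η (Y i) (sc v ω) n 0 x ∧
      X0 (M.lin (Y i) (sc v ω) n x n) < -(i * η)} with hA
  have hAm : ∀ i, MeasurableSet (A i) := fun i => measurableSet_A_MFg2 M v η _ (Y i) X0 n x
  set E : ℝ := (Ca + Cb + c / s0) * (Ke + 1) - c3 / 4 * (n * v) with hE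
  have hnv : (0 : ℝ) ≤ n * v := by positivity
  have hPA : ∀ i : ℕ, PI (nz S) (A i) ≤ ENNReal.ofReal (Real.exp (E - δ * (i * η))) := by
    intro i
    have hp1 : PI (nz S) (A i) ≤ ENNReal.ofReal (Real.exp (Ca * (Ke + 1) - c3 * (n * v))) :=
      (measure_mono fun ω hω => hω.1).trans
        (hunc' η hηpos hηle S M hline n (Y i) x Ke hKe (hYn i) (hYl i))
    have hp2 : PI (nz S) (A i) ≤
        ENNReal.ofReal (Real.exp (Cb * (n * v + Ke + 1) - c * ((i * η - Ke) / s0))) := by
      refine (measure_mono ?_).trans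
        (hlen S M v hv (hvle.trans (min_le_right _ _)) n (Y i) x Ke ((i * η - Ke) / s0) hKe (hYn i)
          (hYx i))
      intro ω hω
      have h1 := hω.2
      have h2 := hX0l (M.lin (Y i) (sc v ω) n x n)
      change (i * η - Ke) / s0 ≤ _
      rw [div_le_iff₀ hs0]
      linarith
    refine term_MFg2 _ _ _ t _ ht0.le (by linarith) hp1 hp2 ?_
    have h := expo_MFg2 Ca Cb c c3 s0 t Ke (n * v) (i * η) hCa hCb hc hc3 hs0 ht0 ht2 htC hKe hnv
    rw [hE, hδ]
    exact h
  -- the dominating function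
  classical
  set f : (ℕ → S → ℝ) → ℝ≥0∞ := fun ω =>
    ∑ i ∈ Finset.range m, (A i).indicator (fun _ => ENNReal.ofReal η) ω with hf
  have hfm : Measurable f :=
    Finset.measurable_sum _ fun i _ => measurable_const.indicator (hAm i)
  have hsub : {ω | κ < |M.mf X (sc v ω) n x - M.mf X' (sc v ω) n x|} ⊆
      {ω | ENNReal.ofReal κ ≤ f ω} := by
    intro ω hω
    have h1 : κ < |M.mf X (sc v ω) n x - M.mf X' (sc v ω) n x| := hω
    have h2 := squeeze_MFg2 M X X' (sc v ω) n x
    have h3 := mf_interp M X0 X1 η hηpos h01 hX1n m hmX (sc v ω) n x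
    have h4 : κ ≤ ∑ i ∈ Finset.range m, (if M.uncut η (ipl X0 X1 η (i + 1)) (sc v ω) n 0 x ∧
        X0 (M.lin (ipl X0 X1 η (i + 1)) (sc v ω) n x n) < -(i * η) then η else 0) := by
      refine (h1.le.trans h2).trans ?_
      convert h3 using 1
    have h5 : f ω = ENNReal.ofReal (∑ i ∈ Finset.range m,
        (if M.uncut η (ipl X0 X1 η (i + 1)) (sc v ω) n 0 x ∧
        X0 (M.lin (ipl X0 X1 η (i + 1)) (sc v ω) n x n) < -(i * η) then η else 0)) := by
      rw [ENNReal.ofReal_sum_of_nonneg (fun i _ => by split_ifs <;> linarith)]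
      refine Finset.sum_congr rfl fun i _ => ?_
      by_cases h : M.uncut η (ipl X0 X1 η (i + 1)) (sc v ω) n 0 x ∧
        X0 (M.lin (ipl X0 X1 η (i + 1)) (sc v ω) n x n) < -(i * η)
      · have h' : ω ∈ A i := h
        rw [Set.indicator_of_mem h', if_pos h]
      · have h' : ω ∉ A i := h
        rw [Set.indicator_of_notMem h', if_neg h, ENNReal.ofReal_zero]
    change ENNReal.ofReal κ ≤ f ω
    rw [h5]
    exact ENNReal.ofReal_le_ofReal h4
  have hint : ∫⁻ ω, f ω ∂(PI (nz S)) ≤ ENNReal.ofReal (Kc * Real.exp E) := by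
    calc ∫⁻ ω, f ω ∂(PI (nz S))
        = ∑ i ∈ Finset.range m, ∫⁻ ω, (A i).indicator (fun _ => ENNReal.ofReal η) ω
            ∂(PI (nz S)) :=
          lintegral_finsetSum _ fun i _ => measurable_const.indicator (hAm i)
      _ = ∑ i ∈ Finset.range m, ENNReal.ofReal η * PI (nz S) (A i) := by
          refine Finset.sum_congr rfl fun i _ => ?_
          rw [lintegral_indicator_const (hAm i)]
      _ ≤ ∑ i ∈ Finset.range m, ENNReal.ofReal (η * Real.exp (E - δ * (i * η))) := by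
          refine Finset.sum_le_sum fun i _ => ?_
          rw [ENNReal.ofReal_mul hηpos.le]
          exact mul_le_mul_right (hPA i) _
      _ = ENNReal.ofReal (∑ i ∈ Finset.range m, η * Real.exp (E - δ * (i * η))) :=
          (ENNReal.ofReal_sum_of_nonneg fun i _ =>
            mul_nonneg hηpos.le (Real.exp_pos _).le).symm
      _ ≤ ENNReal.ofReal (Kc * Real.exp E) :=
          ENNReal.ofReal_le_ofReal (geom_MFg2 η δ E hηpos hη1 hδ0 m)
  -- Markov
  have hκ' : ENNReal.ofReal κ ≠ 0 := by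
    rw [Ne, ENNReal.ofReal_eq_zero, not_le]
    exact hκ
  calc PI (nz S) {ω | κ < |M.mf X (sc v ω) n x - M.mf X' (sc v ω) n x|}
      ≤ PI (nz S) {ω | ENNReal.ofReal κ ≤ f ω} := measure_mono hsub
    _ ≤ (∫⁻ ω, f ω ∂(PI (nz S))) / ENNReal.ofReal κ :=
        meas_ge_le_lintegral_div hfm.aemeasurable hκ' ENNReal.ofReal_ne_top
    _ ≤ ENNReal.ofReal (Kc * Real.exp E) / ENNReal.ofReal κ := ENNReal.div_le_div_right hint _
    _ = ENNReal.ofReal (Kc * Real.exp E / κ) := (ENNReal.ofReal_div_of_pos hκ).symm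
    _ ≤ ENNReal.ofReal (1 / κ * Real.exp ((Ca + Cb + c / s0 + Real.log Kc) * (Ke + 1) -
          c3 / 4 * (n * v))) := by
        refine ENNReal.ofReal_le_ofReal ?_
        have h1 : Kc ≤ Real.exp (Real.log Kc * (Ke + 1)) := by
          calc Kc = Real.exp (Real.log Kc) := (Real.exp_log (by linarith)).symm
            _ ≤ Real.exp (Real.log Kc * (Ke + 1)) := by
                refine Real.exp_le_exp.mpr ?_
                have : 0 ≤ Real.log Kc * Ke := mul_nonneg hlog hKe
                linarith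
        have h2 : Kc * Real.exp E ≤ Real.exp ((Ca + Cb + c / s0 + Real.log Kc) * (Ke + 1) -
            c3 / 4 * (n * v)) := by
          calc Kc * Real.exp E ≤ Real.exp (Real.log Kc * (Ke + 1)) * Real.exp E :=
                mul_le_mul_of_nonneg_right h1 (Real.exp_pos _).le
            _ = _ := by
                rw [← Real.exp_add, hE]
                congr 1
                ring
        rw [div_eq_mul_inv, mul_comm, one_div]
        exact mul_le_mul_of_nonneg_left h2 (inv_nonneg.mpr hκ.le)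

end DynC
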