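import Pool.Agent.Lib_MP_36b788c.MFa
import Pool.Agent.Lib_MP_36b788c.PSShift

/-!
# Height model: gaps (no site close to the top or to its floor, for most times)

`r_j = RR F_j`, `cap_j(z) = (r_j(z) + g_j(z))^+`, `fl_j(z) = max_{z' ≠ z} (r_j(z') - dd z z')`, `Δ_j(z) = r_j(z) - fl_j(z) ≥ 0`.

PROOF.
* `caps_exp`: `φ2(r) = ((r+1/2)^+)²`. `r_{j+1}(z) = F_{j+1}(z)` or both are `≤ -1`, so `φ2(r_{j+1}) = φ2(F_{j+1})`, `F_{j+1} = min 0 (r_j + g)`; `φ2(r+g) - φ2(min 0 (r+g)) = cap² + cap ≥ cap`,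
  `E φ2(r + g) ≤ φ2(r) + v`. Sum: `E Σ_j cap_j ≤ 1/4 + n v`.
* `top_occ`: `φ(r) = ((r+3κ)^+)²`, `κ ≤ 1/6`. If `r_j < -3κ`: `φ(r_{j+1}) ≥ 0 = φ(r_j)`. If `r_j ≥ -3κ`, `y = r_j + 3κ ∈ [0,3κ]`:
  `E φ(r_j + g) = y² + v - E((y+g)^-)²`, cap loss `φ(r+g) - φ(min 0 (r+g)) = cap² + 6κ cap`. `E((y+g)^-)² ≤ v/2`, `E cap² ≤ v/2`, and one of them is `≤ v/8` when `v ≤ κ²/C`
  (`y ≥ 3κ/2` or `r_j ≤ -3κ/2`, Gaussian tail). So `E φ(r_{j+1}) ≥ E φ(r_j) + (v/4) P(r_j ≥ -3κ) - 6κ E cap_j`. Sum.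
* `floor_occ`: `z*` = maximizer in `fl_j(z)`. `lift_{j+1}(z) = r_{j+1}(z) - F_{j+1}(z)`; if it is positive then `r_{j+1}(z) = F_{j+1}(z') - dd z z' ≤ fl_{j+1}(z)`, so `Δ_{j+1} = 0`.
  Without lift `Δ_{j+1} ≤ D0 + cap_j(z*)`, `D0 = Δ_j + g(z) - g(z*)` (`r_{j+1}(z*) ≥ F_{j+1}(z*) = r_j(z*) + g(z*) - cap`). With `φ(Δ) = ((3κ-Δ)^+)²`:
  `φ(Δ_{j+1}) ≥ φ((D0 + cap)^+) ≥ φ(D0^+) - 6κ cap`, `φ(D0^+) = φ(D0) - 6κ D0^- - (D0^-)²`. For `Δ_j ≤ 3κ`: `E φ(D0) - E (D0^-)² ≥ φ(Δ_j) + v/4` (variance `2v`, as above).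
  For `Δ_j > 3κ` use `φ(Δ_{j+1}) ≥ 0 = φ(Δ_j)`. Moreover `D0^- ≤ lift_{j+1}(z) + cap_j(z*)`. On `{τ > j}` (`r_i(z) ≥ -M1 + 2` for all `i ≤ j`) and `Δ_j ≤ 3κ`: `fl_j ≥ -M1+1`, so
  `dd z z* ≤ M1`, and `cap_j(z*) ≤ Σ_{dd z z' ≤ M1} cap_j(z')`. Stop the telescoping sum at `τ`. `E Σ lift(z) ≤ E(-r_{n0}(z)) + E Σ cap(z)` (`r_{j+1} = r_j + g - cap + lift`).
* `gap_occ`: if `F_j(z) < F_j(z') - dd z z' + 3κ` for some `z' ≠ z`, take for `z'` the maximizer over `z' ≠ z`: then `r_j(z') = F_j(z')` (otherwise `r_j(z')` comes from `z` itself, and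
  `F_j(z') - dd < F_j(z) - 2`), hence `Δ_j(z) ≤ 3κ`. Union over `z` in the ball. `E(-r_{n0}(z)) ≤ Ke + s + C √(n0 v + 1)` (`mf_stay`, `osc_exp_nz`); `P(τ ≤ ·)` from `mf_stay` and `osc_tail_nz`.
-/

open MeasureTheory ProbabilityTheory
open scoped ENNReal

namespace DynC

/-! ### Gaussian integrals in one variable -/

private theorem MFh_sq_int : ∫ t, t ^ 2 ∂(gaussianReal 0 1) = 1 := by
  have h := variance_eq_sub (μ := gaussianReal 0 1) (X := id) (memLp_id_gaussianReal 2)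
  rw [variance_id_gaussianReal] at h
  have h2 : ∫ x, id x ∂(gaussianReal 0 1) = 0 := integral_id_gaussianReal
  rw [h2] at h
  simp only [NNReal.coe_one, Pi.pow_apply, id_eq] at h
  linarith

private theorem MFh_sq_integrable : Integrable (fun t : ℝ => t ^ 2) (gaussianReal 0 1) := by
  have h := (memLp_id_gaussianReal (μ := 0) (v := 1) 2).integrable_sq
  simpa using h

private theorem MFh_id_integrable : Integrable (fun t : ℝ => t) (gaussianReal 0 1) := by
  have h : Integrable (id : ℝ → ℝ) (gaussianReal 0 1) :=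
    memLp_one_iff_integrable.mp (by exact_mod_cast memLp_id_gaussianReal (μ := 0) (v := 1) 1)
  exact h

/-- `E (a + s g)² = a² + s²` -/
private theorem MFh_G1 (a s : ℝ) :
    ∫⁻ t, ENNReal.ofReal ((a + s * t) ^ 2) ∂(gaussianReal 0 1) = ENNReal.ofReal (a ^ 2 + s ^ 2) := by
  have e : (fun t : ℝ => (a + s * t) ^ 2) = fun t => a ^ 2 + (2 * a * s * t + s ^ 2 * t ^ 2) := by
    funext t
    ring
  have i1 : Integrable (fun t : ℝ => 2 * a * s * t) (gaussianReal 0 1) :=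
    MFh_id_integrable.const_mul _
  have i2 : Integrable (fun t : ℝ => s ^ 2 * t ^ 2) (gaussianReal 0 1) :=
    MFh_sq_integrable.const_mul _
  have i3 : Integrable (fun _ : ℝ => a ^ 2) (gaussianReal 0 1) := integrable_const _
  have i4 : Integrable (fun t : ℝ => (a + s * t) ^ 2) (gaussianReal 0 1) := by
    rw [e]
    exact i3.add (i1.add i2)
  rw [← ofReal_integral_eq_lintegral_ofReal i4 (Filter.Eventually.of_forall fun t => sq_nonneg _), e]
  congr 1
  have h1 : ∫ t, (a ^ 2 + (2 * a * s * t + s ^ 2 * t ^ 2)) ∂(gaussianReal 0 1) =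
      ∫ _t, a ^ 2 ∂(gaussianReal 0 1) + ∫ t, (2 * a * s * t + s ^ 2 * t ^ 2) ∂(gaussianReal 0 1) :=
    integral_add i3 (i1.add i2)
  have h2 : ∫ t, (2 * a * s * t + s ^ 2 * t ^ 2) ∂(gaussianReal 0 1) =
      ∫ t, 2 * a * s * t ∂(gaussianReal 0 1) + ∫ t, s ^ 2 * t ^ 2 ∂(gaussianReal 0 1) :=
    integral_add i1 i2
  have h3 : ∫ t : ℝ, t ∂(gaussianReal 0 1) = 0 := integral_id_gaussianReal
  rw [h1, h2, integral_const_mul, integral_const_mul, MFh_sq_int, h3, integral_const]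
  simp

private theorem MFh_neg (f : ℝ → ℝ≥0∞) (hf : Measurable f) :
    ∫⁻ t, f (-t) ∂(gaussianReal 0 1) = ∫⁻ t, f t ∂(gaussianReal 0 1) := by
  have h : Measure.map (fun x : ℝ => -x) (gaussianReal 0 1) = gaussianReal 0 1 := by
    rw [gaussianReal_map_neg, neg_zero]
  conv_rhs => rw [← h]
  rw [lintegral_map hf measurable_neg]

private theorem MFh_G2 :
    ∫⁻ t : ℝ, ENNReal.ofReal ((max t 0) ^ 2) ∂(gaussianReal 0 1) = ENNReal.ofReal (1 / 2) := by
  have hm : Measurable fun t : ℝ => ENNReal.ofReal ((max t 0) ^ 2) :=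
    ((measurable_id.max measurable_const).pow_const 2).ennreal_ofReal
  have hn := MFh_neg _ hm
  have h1 : ∫⁻ t : ℝ, (ENNReal.ofReal ((max t 0) ^ 2) + ENNReal.ofReal ((max (-t) 0) ^ 2))
      ∂(gaussianReal 0 1) = 1 := by
    have h2 := MFh_G1 0 1
    have h3 : ENNReal.ofReal ((0 : ℝ) ^ 2 + 1 ^ 2) = 1 := by norm_num
    rw [h3] at h2
    rw [← h2]
    apply lintegral_congr
    intro t
    rw [← ENNReal.ofReal_add (sq_nonneg _) (sq_nonneg _)]
    congr 1
    rcases le_total t 0 with h | h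
    · rw [max_eq_right h, max_eq_left (by linarith)]
      ring
    · rw [max_eq_left h, max_eq_right (by linarith)]
      ring
  rw [lintegral_add_left hm, hn, ← two_mul] at h1
  have h4 : ENNReal.ofReal (1 / 2) = 2⁻¹ := by
    rw [one_div, ENNReal.ofReal_inv_of_pos (by norm_num)]
    norm_num
  rw [h4]
  refine ENNReal.eq_inv_of_mul_eq_one_left ?_
  rw [mul_comm]
  exact h1

private theorem MFh_G3 (b : ℝ) (hb : 4 ≤ b) :
    ∫⁻ t : ℝ, ENNReal.ofReal ((max (t - b) 0) ^ 2) ∂(gaussianReal 0 1) ≤ ENNReal.ofReal (1 / 4) := by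
  have h1 : ∀ t : ℝ, (max (t - b) 0) ^ 2 ≤ 2 * Real.exp (-b) * Real.exp t := by
    intro t
    rcases le_total (t - b) 0 with h | h
    · rw [max_eq_right h, zero_pow two_ne_zero]
      positivity
    · rw [max_eq_left h]
      have h2 := Real.quadratic_le_exp_of_nonneg h
      have h3 : Real.exp (-b) * Real.exp t = Real.exp (t - b) := by
        rw [← Real.exp_add]
        congr 1
        ring
      nlinarith
  have hi : Integrable (fun t : ℝ => Real.exp t) (gaussianReal 0 1) := by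
    have := integrable_exp_mul_gaussianReal (μ := 0) (v := 1) 1
    simpa using this
  have hE : ∫ t, Real.exp t ∂(gaussianReal 0 1) = Real.exp (1 / 2) := by
    have h := congrFun (mgf_id_gaussianReal (μ := 0) (v := 1)) 1
    unfold mgf at h
    simpa using h
  calc ∫⁻ t : ℝ, ENNReal.ofReal ((max (t - b) 0) ^ 2) ∂(gaussianReal 0 1)
      ≤ ∫⁻ t : ℝ, ENNReal.ofReal (2 * Real.exp (-b) * Real.exp t) ∂(gaussianReal 0 1) :=
        lintegral_mono fun t => ENNReal.ofReal_le_ofReal (h1 t)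
    _ = ENNReal.ofReal (2 * Real.exp (-b) * Real.exp (1 / 2)) := by
        rw [← ofReal_integral_eq_lintegral_ofReal (hi.const_mul _)
          (Filter.Eventually.of_forall fun t => by positivity), integral_const_mul, hE]
    _ ≤ ENNReal.ofReal (1 / 4) := by
        apply ENNReal.ofReal_le_ofReal
        have h5 : 2 * Real.exp (-b) * Real.exp (1 / 2) = 2 * Real.exp (1 / 2 - b) := by
          rw [mul_assoc, ← Real.exp_add]
          congr 2
          ring
        rw [h5]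
        have h6 : Real.exp (1 / 2 - b) ≤ Real.exp (-3) := Real.exp_le_exp.mpr (by linarith)
        have h7 : Real.exp (-3) * (Real.exp 1) ^ 3 = 1 := by
          rw [← Real.exp_nat_mul, ← Real.exp_add]
          norm_num
        have h8 : (2 : ℝ) ≤ Real.exp 1 := by
          have := Real.add_one_le_exp (1 : ℝ)
          linarith
        have h9 : (8 : ℝ) ≤ (Real.exp 1) ^ 3 := by
          calc (8 : ℝ) = 2 ^ 3 := by norm_num
            _ ≤ (Real.exp 1) ^ 3 := pow_le_pow_left₀ (by norm_num) h8 3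
        have h10 : 0 < Real.exp (-3) := Real.exp_pos _
        nlinarith

/-! ### One step in one variable -/

/-- upper bound for the quadratic potential -/
private theorem MFh_up (v r : ℝ) (hv : 0 < v) :
    ∫⁻ t, ENNReal.ofReal ((max (r + 1 / 2 + Real.sqrt v * t) 0) ^ 2) ∂(gaussianReal 0 1) ≤
      ENNReal.ofReal ((max (r + 1 / 2) 0) ^ 2) + ENNReal.ofReal v := by
  rw [← ENNReal.ofReal_add (sq_nonneg _) hv.le]
  have h1 := MFh_G1 (max (r + 1 / 2) 0) (Real.sqrt v)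
  rw [Real.sq_sqrt hv.le] at h1
  rw [← h1]
  refine lintegral_mono fun t => ENNReal.ofReal_le_ofReal ?_
  rcases le_total (r + 1 / 2) 0 with h | h
  · rw [max_eq_right h]
    rcases le_total (r + 1 / 2 + Real.sqrt v * t) 0 with h' | h'
    · rw [max_eq_right h', zero_pow two_ne_zero]
      exact sq_nonneg _
    · rw [max_eq_left h']
      exact pow_le_pow_left₀ h' (by linarith) 2
  · rw [max_eq_left h]
    rcases le_total (r + 1 / 2 + Real.sqrt v * t) 0 with h' | h'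
    · rw [max_eq_right h', zero_pow two_ne_zero]
      exact sq_nonneg _
    · rw [max_eq_left h']

private theorem MFh_scale (v : ℝ) (hv : 0 < v) (f : ℝ → ℝ) (hf : Measurable f) (c : ℝ)
    (h : ∫⁻ t, ENNReal.ofReal (f t) ∂(gaussianReal 0 1) ≤ ENNReal.ofReal c) :
    ∫⁻ t, ENNReal.ofReal (v * f t) ∂(gaussianReal 0 1) ≤ ENNReal.ofReal (v * c) := by
  calc ∫⁻ t, ENNReal.ofReal (v * f t) ∂(gaussianReal 0 1)
      = ∫⁻ t, ENNReal.ofReal v * ENNReal.ofReal (f t) ∂(gaussianReal 0 1) := by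
        apply lintegral_congr
        intro t
        exact ENNReal.ofReal_mul hv.le
    _ = ENNReal.ofReal v * ∫⁻ t, ENNReal.ofReal (f t) ∂(gaussianReal 0 1) :=
        lintegral_const_mul _ hf.ennreal_ofReal
    _ ≤ ENNReal.ofReal v * ENNReal.ofReal c := by gcongr
    _ = ENNReal.ofReal (v * c) := (ENNReal.ofReal_mul hv.le).symm

/-- the two losses together are at most `3v/4` -/
private theorem MFh_loss (v κ r : ℝ) (hv : 0 < v) (hκ : 0 < κ) (hvκ : v ≤ κ ^ 2 / 24)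
    (hr : r ≤ 0) (hr3 : -(3 * κ) ≤ r) :
    ∫⁻ t, ENNReal.ofReal ((max (r + Real.sqrt v * t) 0) ^ 2) ∂(gaussianReal 0 1) +
      ∫⁻ t, ENNReal.ofReal ((max (-(r + 3 * κ + Real.sqrt v * t)) 0) ^ 2) ∂(gaussianReal 0 1) ≤
      ENNReal.ofReal (3 * v / 4) := by
  set s : ℝ := Real.sqrt v with hs
  have hs0 : 0 < s := Real.sqrt_pos.mpr hv
  have hs2 : s ^ 2 = v := Real.sq_sqrt hv.le
  set b : ℝ := 3 * κ / (2 * s) with hb
  have hbs : s * b = 3 * κ / 2 := by
    rw [hb]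
    field_simp
  have hb4 : 4 ≤ b := by
    rw [hb, le_div_iff₀ (by positivity)]
    nlinarith
  have hsq : ∀ x y : ℝ, x ≤ s * y → (max x 0) ^ 2 ≤ v * (max y 0) ^ 2 := by
    intro x y h
    have h1 : max x 0 ≤ s * max y 0 := by
      apply max_le
      · exact h.trans (mul_le_mul_of_nonneg_left (le_max_left _ _) hs0.le)
      · exact mul_nonneg hs0.le (le_max_right _ _)
    calc (max x 0) ^ 2 ≤ (s * max y 0) ^ 2 := pow_le_pow_left₀ (le_max_right _ _) h1 2
      _ = v * (max y 0) ^ 2 := by rw [mul_pow, hs2]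
  have m1 : Measurable fun t : ℝ => (max t 0) ^ 2 := (measurable_id.max measurable_const).pow_const 2
  have m2 : Measurable fun t : ℝ => (max (t - b) 0) ^ 2 :=
    ((measurable_id.sub_const b).max measurable_const).pow_const 2
  have m1' : Measurable fun t : ℝ => (max (-t) 0) ^ 2 := m1.comp measurable_neg
  have m2' : Measurable fun t : ℝ => (max (-t - b) 0) ^ 2 := m2.comp measurable_neg
  have g1 := MFh_scale v hv _ m1 (1 / 2) MFh_G2.le
  have g2 := MFh_scale v hv _ m2 (1 / 4) (MFh_G3 b hb4)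
  have g1' := MFh_scale v hv _ m1' (1 / 2) ((MFh_neg _ m1.ennreal_ofReal).trans MFh_G2).le
  have g2' := MFh_scale v hv _ m2' (1 / 4)
    ((MFh_neg _ m2.ennreal_ofReal).le.trans (MFh_G3 b hb4))
  have hsum : ENNReal.ofReal (v * (1 / 2)) + ENNReal.ofReal (v * (1 / 4)) =
      ENNReal.ofReal (3 * v / 4) := by
    rw [← ENNReal.ofReal_add (by positivity) (by positivity)]
    congr 1
    ring
  rcases le_total r (-(3 * κ / 2)) with h | h
  · rw [← hsum, add_comm (ENNReal.ofReal (v * (1 / 2)))]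
    refine add_le_add (le_trans (lintegral_mono fun t => ENNReal.ofReal_le_ofReal
      (hsq _ (t - b) ?_)) g2) (le_trans (lintegral_mono fun t => ENNReal.ofReal_le_ofReal
      (hsq _ (-t) ?_)) g1')
    · rw [mul_sub, hbs]
      linarith
    · linarith
  · rw [← hsum]
    refine add_le_add (le_trans (lintegral_mono fun t => ENNReal.ofReal_le_ofReal
      (hsq _ t ?_)) g1) (le_trans (lintegral_mono fun t => ENNReal.ofReal_le_ofReal
      (hsq _ (-t - b) ?_)) g2')
    · linarith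
    · rw [mul_sub, hbs]
      linarith

/-- lower bound for the potential near the top -/
private theorem MFh_low (v κ r : ℝ) (hv : 0 < v) (hκ : 0 < κ) (hvκ : v ≤ κ ^ 2 / 24)
    (hr : r ≤ 0) (hr3 : -(3 * κ) ≤ r) :
    ENNReal.ofReal ((max (r + 3 * κ) 0) ^ 2) + ENNReal.ofReal (v / 4) ≤
      ∫⁻ t, ENNReal.ofReal ((max (min 0 (r + Real.sqrt v * t) + 3 * κ) 0) ^ 2)
        ∂(gaussianReal 0 1) +
      ENNReal.ofReal (6 * κ) * ∫⁻ t, ENNReal.ofReal (r + Real.sqrt v * t) ∂(gaussianReal 0 1) := by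
  set s : ℝ := Real.sqrt v with hs
  have hs2 : s ^ 2 = v := Real.sq_sqrt hv.le
  have hl := MFh_loss v κ r hv hκ hvκ hr hr3
  rw [← hs] at hl
  have ma : Measurable fun t : ℝ => r + s * t := (measurable_id.const_mul s).const_add r
  have mA : Measurable fun t : ℝ => ENNReal.ofReal ((max (min 0 (r + s * t) + 3 * κ) 0) ^ 2) :=
    ((((measurable_const.min ma).add_const _).max measurable_const).pow_const 2).ennreal_ofReal
  have mB : Measurable fun t : ℝ => ENNReal.ofReal (r + s * t) := ma.ennreal_ofReal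
  have mD : Measurable fun t : ℝ => ENNReal.ofReal ((max (r + s * t) 0) ^ 2) :=
    ((ma.max measurable_const).pow_const 2).ennreal_ofReal
  have h1 : ∫⁻ t, ENNReal.ofReal ((r + 3 * κ + s * t) ^ 2) ∂(gaussianReal 0 1) =
      ∫⁻ t, ENNReal.ofReal ((max (min 0 (r + s * t) + 3 * κ) 0) ^ 2) ∂(gaussianReal 0 1) +
      ENNReal.ofReal (6 * κ) * ∫⁻ t, ENNReal.ofReal (r + s * t) ∂(gaussianReal 0 1) +
      (∫⁻ t, ENNReal.ofReal ((max (r + s * t) 0) ^ 2) ∂(gaussianReal 0 1) +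
      ∫⁻ t, ENNReal.ofReal ((max (-(r + 3 * κ + s * t)) 0) ^ 2) ∂(gaussianReal 0 1)) := by
    have mAB : Measurable fun t : ℝ => ENNReal.ofReal ((max (min 0 (r + s * t) + 3 * κ) 0) ^ 2) +
        ENNReal.ofReal (6 * κ) * ENNReal.ofReal (r + s * t) := mA.add (mB.const_mul _)
    rw [← lintegral_const_mul _ mB, ← lintegral_add_left mA, ← lintegral_add_left mD,
      ← lintegral_add_left mAB]
    apply lintegral_congr
    intro t
    have e6 : ENNReal.ofReal (6 * κ) * ENNReal.ofReal (r + s * t) =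
        ENNReal.ofReal (6 * κ * max (r + s * t) 0) := by
      rcases le_total (r + s * t) 0 with h | h
      · rw [max_eq_right h, ENNReal.ofReal_of_nonpos h, mul_zero, mul_zero, ENNReal.ofReal_zero]
      · rw [max_eq_left h, ENNReal.ofReal_mul (show (0 : ℝ) ≤ 6 * κ by positivity)]
    have hp : 0 ≤ 6 * κ * max (r + s * t) 0 := mul_nonneg (by positivity) (le_max_right _ _)
    rw [e6, ← ENNReal.ofReal_add (sq_nonneg _) hp, ← ENNReal.ofReal_add (sq_nonneg _) (sq_nonneg _),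
      ← ENNReal.ofReal_add (add_nonneg (sq_nonneg _) hp) (add_nonneg (sq_nonneg _) (sq_nonneg _))]
    congr 1
    rcases le_total (r + s * t) 0 with h | h
    · rw [max_eq_right h, min_eq_right h]
      rcases le_total (r + 3 * κ + s * t) 0 with h' | h'
      · rw [max_eq_left (show (0 : ℝ) ≤ -(r + 3 * κ + s * t) by linarith),
          max_eq_right (show r + s * t + 3 * κ ≤ 0 by linarith)]
        ring
      · rw [max_eq_right (show -(r + 3 * κ + s * t) ≤ 0 by linarith),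
          max_eq_left (show 0 ≤ r + s * t + 3 * κ by linarith)]
        ring
    · rw [max_eq_left h, min_eq_left h,
        max_eq_right (show -(r + 3 * κ + s * t) ≤ 0 by linarith),
        max_eq_left (show (0 : ℝ) ≤ 0 + 3 * κ by linarith)]
      ring
  rw [MFh_G1, hs2] at h1
  have h2 : ENNReal.ofReal ((r + 3 * κ) ^ 2 + v) =
      ENNReal.ofReal ((max (r + 3 * κ) 0) ^ 2) + ENNReal.ofReal (v / 4) +
        ENNReal.ofReal (3 * v / 4) := by
    rw [max_eq_left (by linarith), ← ENNReal.ofReal_add (sq_nonneg _) (by positivity),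
      ← ENNReal.ofReal_add (by positivity) (by positivity)]
    congr 1
    ring
  rw [h2] at h1
  refine ENNReal.le_of_add_le_add_right (a := ENNReal.ofReal (3 * v / 4)) ENNReal.ofReal_ne_top ?_
  rw [h1]
  gcongr

/-! ### The height model -/

variable {S : Type} [Fintype S] {D : ℕ} (M : MSet S D)

/-- `z` is at distance `3κ` from the top and from its floor -/
def Gap (κ : ℝ) (F : S → ℝ) (z : S) : Prop :=
  F z ≤ -(3 * κ) ∧ ∀ z', z' ≠ z → F z' - M.dd z z' + 3 * κ ≤ F z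

/-- value before the increment -/
private noncomputable def MFh_r (v : ℝ) (X : S → ℝ) (m : ℕ) (z : S) (ω : ℕ → S → ℝ) : ℝ :=
  M.RR (M.mf X (sc v ω) m) z

private theorem MFh_r_meas (v : ℝ) (X : S → ℝ) (m : ℕ) (z : S) : Measurable (MFh_r M v X m z) := by
  have h0 : Measurable (fun ω : ℕ → S → ℝ => ((X, sc v ω) : (S → ℝ) × (ℕ → S → ℝ))) := by
    refine measurable_const.prodMk ?_
    unfold sc
    refine measurable_pi_lambda _ fun j => measurable_pi_lambda _ fun y => ?_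
    have h1 : Measurable (fun ω : ℕ → S → ℝ => ω j) := measurable_pi_apply j
    have h2 : Measurable (fun a : S → ℝ => a y) := measurable_pi_apply y
    exact (h2.comp h1).const_mul _
  have h1 : Measurable (fun ω : ℕ → S → ℝ => M.mf X (sc v ω) m) :=
    measurable_pi_lambda _ fun y => (measurable_mf M m y).comp h0
  exact (measurable_RR M z).comp h1

omit [Fintype S] in
private theorem MFh_coord_meas (m : ℕ) (z : S) : Measurable (fun ω : ℕ → S → ℝ => ω m z) := by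
  have h1 : Measurable (fun ω : ℕ → S → ℝ => ω m) := measurable_pi_apply m
  have h2 : Measurable (fun a : S → ℝ => a z) := measurable_pi_apply z
  exact h2.comp h1

private theorem MFh_r_nonpos (v : ℝ) (X : S → ℝ) (hX : ∀ y, X y ≤ 0) (m : ℕ) (z : S)
    (ω : ℕ → S → ℝ) : MFh_r M v X m z ω ≤ 0 := by
  refine RR_le M _ z 0 fun y => ?_
  have h1 := mf_nonpos M X hX (sc v ω) m y
  have h2 : (0 : ℝ) ≤ M.dd z y := by positivity
  linarith

/-- `r_{m+1}` is at least the new height -/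
private theorem MFh_r_succ_ge (v : ℝ) (X : S → ℝ) (m : ℕ) (z : S) (ω : ℕ → S → ℝ) :
    min 0 (MFh_r M v X m z ω + Real.sqrt v * ω m z) ≤ MFh_r M v X (m + 1) z ω :=
  self_le_RR M (M.mf X (sc v ω) (m + 1)) z

/-- `r_{m+1}` is the new height or both are at most `-1` -/
private theorem MFh_r_succ (v : ℝ) (X : S → ℝ) (m : ℕ) (z : S) (ω : ℕ → S → ℝ) :
    MFh_r M v X (m + 1) z ω = min 0 (MFh_r M v X m z ω + Real.sqrt v * ω m z) ∨
      MFh_r M v X (m + 1) z ω ≤ -1 := by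
  by_cases h : M.am (M.mf X (sc v ω) (m + 1)) z = z
  · left
    have h1 := am_spec M (M.mf X (sc v ω) (m + 1)) z
    rw [h, M.dd_self] at h1
    change M.RR (M.mf X (sc v ω) (m + 1)) z = _
    rw [← h1]
    simp only [Nat.cast_zero, sub_zero]
    rfl
  · right
    have h1 := am_spec M (M.mf X (sc v ω) (m + 1)) z
    have h2 := mf_succ_nonpos M X (sc v ω) m (M.am (M.mf X (sc v ω) (m + 1)) z)
    have h3 : (1 : ℝ) ≤ M.dd z (M.am (M.mf X (sc v ω) (m + 1)) z) := by
      exact_mod_cast M.dd_pos z _ (fun e => h e.symm)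
    change M.RR (M.mf X (sc v ω) (m + 1)) z ≤ -1
    linarith

/-- independence of the increment -/
private theorem MFh_indep (v : ℝ) (X : S → ℝ) (m : ℕ) (z : S) (h : ℝ → ℝ → ℝ≥0∞)
    (hh : Measurable (Function.uncurry h)) :
    ∫⁻ ω, h (MFh_r M v X m z ω) (ω m z) ∂(PI (nz S)) =
      ∫⁻ ω, ∫⁻ t, h (MFh_r M v X m z ω) t ∂(gaussianReal 0 1) ∂(PI (nz S)) := by
  have hF : Measurable fun ω : ℕ → S → ℝ => h (MFh_r M v X m z ω) (ω m z) :=
    hh.comp ((MFh_r_meas M v X m z).prodMk (MFh_coord_meas m z))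
  rw [lintegral_glue m _ hF]
  apply lintegral_congr
  intro a
  have h1 : ∀ b : ℕ → S → ℝ, h (MFh_r M v X m z (glue m a b)) (glue m a b m z) =
      h (MFh_r M v X m z a) (b 0 z) := by
    intro b
    have e1 : MFh_r M v X m z (glue m a b) = MFh_r M v X m z a := by
      unfold MFh_r
      rw [mf_congr M X (sc v (glue m a b)) (sc v a) m]
      intro j hj
      funext y
      unfold sc glue
      rw [if_pos hj]
    have e2 : glue m a b m z = b 0 z := by
      unfold glue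
      rw [if_neg (lt_irrefl m), Nat.sub_self]
    rw [e1, e2]
  rw [lintegral_congr h1]
  have hc : Measurable (h (MFh_r M v X m z a)) := hh.comp measurable_prodMk_left
  have h2 : ∫⁻ b : ℕ → S → ℝ, h (MFh_r M v X m z a) (b 0 z) ∂(PI (nz S)) =
      ∫⁻ c : S → ℝ, h (MFh_r M v X m z a) (c z) ∂((PI (nz S)).map fun ω => ω 0) := by
    have hc' : Measurable fun c : S → ℝ => h (MFh_r M v X m z a) (c z) :=
      hc.comp (measurable_pi_apply z)
    exact (lintegral_map hc' (measurable_pi_apply 0)).symm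
  rw [h2, map_coord 0]
  unfold nz
  exact (measurePreserving_eval (fun _ : S => gaussianReal 0 1) z).lintegral_comp hc

/-- telescoping with a gain -/
private theorem MFh_tel_up (a c : ℕ → ℝ≥0∞) (e : ℝ≥0∞) (n0 : ℕ) (h : ∀ m, a (m + 1) + c m ≤ a m + e)
    (n : ℕ) : a (n0 + n) + ∑ j ∈ Finset.range n, c (n0 + j) ≤ a n0 + n * e := by
  induction n with
  | zero => simp
  | succ n ih =>
    rw [Finset.sum_range_succ]
    calc a (n0 + (n + 1)) + (∑ j ∈ Finset.range n, c (n0 + j) + c (n0 + n))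
        = (a (n0 + n + 1) + c (n0 + n)) + ∑ j ∈ Finset.range n, c (n0 + j) := by
          rw [← add_assoc n0 n 1]
          ring
      _ ≤ (a (n0 + n) + e) + ∑ j ∈ Finset.range n, c (n0 + j) := add_le_add (h _) le_rfl
      _ = (a (n0 + n) + ∑ j ∈ Finset.range n, c (n0 + j)) + e := by ring
      _ ≤ (a n0 + n * e) + e := by gcongr
      _ = a n0 + ((n + 1 : ℕ) : ℝ≥0∞) * e := by
          push_cast
          ring

private theorem MFh_tel_low (a c p : ℕ → ℝ≥0∞) (n0 : ℕ) (h : ∀ m, a m + p m ≤ a (m + 1) + c m)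
    (n : ℕ) : a n0 + ∑ j ∈ Finset.range n, p (n0 + j) ≤
      a (n0 + n) + ∑ j ∈ Finset.range n, c (n0 + j) := by
  induction n with
  | zero => simp
  | succ n ih =>
    rw [Finset.sum_range_succ, Finset.sum_range_succ]
    calc a n0 + (∑ j ∈ Finset.range n, p (n0 + j) + p (n0 + n))
        = (a n0 + ∑ j ∈ Finset.range n, p (n0 + j)) + p (n0 + n) := by ring
      _ ≤ (a (n0 + n) + ∑ j ∈ Finset.range n, c (n0 + j)) + p (n0 + n) := by gcongr
      _ = (a (n0 + n) + p (n0 + n)) + ∑ j ∈ Finset.range n, c (n0 + j) := by ring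
      _ ≤ (a (n0 + n + 1) + c (n0 + n)) + ∑ j ∈ Finset.range n, c (n0 + j) :=
          add_le_add (h _) le_rfl
      _ = a (n0 + (n + 1)) + (∑ j ∈ Finset.range n, c (n0 + j) + c (n0 + n)) := by
          rw [← add_assoc n0 n 1]
          ring

private theorem MFh_caps_step (v : ℝ) (hv : 0 < v) (X : S → ℝ) (m : ℕ) (z : S) :
    ∫⁻ ω, ENNReal.ofReal ((max (MFh_r M v X (m + 1) z ω + 1 / 2) 0) ^ 2) ∂(PI (nz S)) +
      ∫⁻ ω, ENNReal.ofReal (MFh_r M v X m z ω + Real.sqrt v * ω m z) ∂(PI (nz S)) ≤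
    ∫⁻ ω, ENNReal.ofReal ((max (MFh_r M v X m z ω + 1 / 2) 0) ^ 2) ∂(PI (nz S)) +
      ENNReal.ofReal v := by
  have mr := MFh_r_meas M v X m z
  have mr1 := MFh_r_meas M v X (m + 1) z
  have mφ : Measurable fun ω => ENNReal.ofReal ((max (MFh_r M v X (m + 1) z ω + 1 / 2) 0) ^ 2) :=
    (((mr1.add_const _).max measurable_const).pow_const 2).ennreal_ofReal
  have mφ0 : Measurable fun ω => ENNReal.ofReal ((max (MFh_r M v X m z ω + 1 / 2) 0) ^ 2) :=
    (((mr.add_const _).max measurable_const).pow_const 2).ennreal_ofReal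
  rw [← lintegral_add_left mφ]
  calc ∫⁻ ω, (ENNReal.ofReal ((max (MFh_r M v X (m + 1) z ω + 1 / 2) 0) ^ 2) +
          ENNReal.ofReal (MFh_r M v X m z ω + Real.sqrt v * ω m z)) ∂(PI (nz S))
      ≤ ∫⁻ ω, (fun r t : ℝ => ENNReal.ofReal ((max (r + 1 / 2 + Real.sqrt v * t) 0) ^ 2))
          (MFh_r M v X m z ω) (ω m z) ∂(PI (nz S)) := by
        refine lintegral_mono fun ω => ?_
        simp only
        set r := MFh_r M v X m z ω with hr
        set g := Real.sqrt v * ω m z with hg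
        have h1 : (max (MFh_r M v X (m + 1) z ω + 1 / 2) 0) ^ 2 =
            (max (min 0 (r + g) + 1 / 2) 0) ^ 2 := by
          rcases MFh_r_succ M v X m z ω with h | h
          · rw [h]
          · have h2 := MFh_r_succ_ge M v X m z ω
            rw [← hr, ← hg] at h2
            rw [max_eq_right (show MFh_r M v X (m + 1) z ω + 1 / 2 ≤ 0 by linarith),
              max_eq_right (show min 0 (r + g) + 1 / 2 ≤ 0 by linarith)]
        rw [h1]
        rcases le_total (r + g) 0 with h | h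
        · rw [min_eq_right h, ENNReal.ofReal_of_nonpos h, add_zero,
            show r + g + 1 / 2 = r + 1 / 2 + g by ring]
        · rw [min_eq_left h, ← ENNReal.ofReal_add (sq_nonneg _) h]
          apply ENNReal.ofReal_le_ofReal
          rw [max_eq_left (show (0 : ℝ) ≤ 0 + 1 / 2 by norm_num),
            max_eq_left (show 0 ≤ r + 1 / 2 + g by linarith)]
          nlinarith
    _ = ∫⁻ ω, ∫⁻ t, ENNReal.ofReal ((max (MFh_r M v X m z ω + 1 / 2 + Real.sqrt v * t) 0) ^ 2)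
          ∂(gaussianReal 0 1) ∂(PI (nz S)) := by
        have hp : Measurable fun p : ℝ × ℝ => p.1 + 1 / 2 + Real.sqrt v * p.2 :=
          (measurable_fst.add_const _).add (measurable_snd.const_mul _)
        exact MFh_indep M v X m z
          (fun r t => ENNReal.ofReal ((max (r + 1 / 2 + Real.sqrt v * t) 0) ^ 2))
          ((hp.max measurable_const).pow_const 2).ennreal_ofReal
    _ ≤ ∫⁻ ω, (ENNReal.ofReal ((max (MFh_r M v X m z ω + 1 / 2) 0) ^ 2) + ENNReal.ofReal v)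
          ∂(PI (nz S)) := lintegral_mono fun ω => MFh_up v _ hv
    _ = _ := by
        rw [lintegral_add_left mφ0, lintegral_const, measure_univ, mul_one]

theorem caps_exp (v : ℝ) (hv : 0 < v) (X : S → ℝ) (hX : ∀ y, X y ≤ 0) (n0 n : ℕ) (z : S) :
    ∑ j ∈ Finset.range n, ∫⁻ ω, ENNReal.ofReal (M.RR (M.mf X (sc v ω) (n0 + j)) z +
        sc v ω (n0 + j) z) ∂(PI (nz S))
      ≤ ENNReal.ofReal (1 / 4 + n * v) := by
  have h1 := MFh_tel_up
    (fun m => ∫⁻ ω, ENNReal.ofReal ((max (MFh_r M v X m z ω + 1 / 2) 0) ^ 2) ∂(PI (nz S)))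
    (fun m => ∫⁻ ω, ENNReal.ofReal (MFh_r M v X m z ω + Real.sqrt v * ω m z) ∂(PI (nz S)))
    (ENNReal.ofReal v) n0 (fun m => MFh_caps_step M v hv X m z) n
  have h2 : ∫⁻ ω, ENNReal.ofReal ((max (MFh_r M v X n0 z ω + 1 / 2) 0) ^ 2) ∂(PI (nz S)) ≤
      ENNReal.ofReal (1 / 4) := by
    calc ∫⁻ ω, ENNReal.ofReal ((max (MFh_r M v X n0 z ω + 1 / 2) 0) ^ 2) ∂(PI (nz S))
        ≤ ∫⁻ _ω, ENNReal.ofReal (1 / 4) ∂(PI (nz S)) := by
          refine lintegral_mono fun ω => ENNReal.ofReal_le_ofReal ?_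
          have h3 := MFh_r_nonpos M v X hX n0 z ω
          have h4 : max (MFh_r M v X n0 z ω + 1 / 2) 0 ≤ 1 / 2 := max_le (by linarith) (by norm_num)
          calc (max (MFh_r M v X n0 z ω + 1 / 2) 0) ^ 2 ≤ (1 / 2) ^ 2 :=
                pow_le_pow_left₀ (le_max_right _ _) h4 2
            _ = 1 / 4 := by norm_num
      _ = ENNReal.ofReal (1 / 4) := by rw [lintegral_const, measure_univ, mul_one]
  calc ∑ j ∈ Finset.range n, ∫⁻ ω, ENNReal.ofReal (M.RR (M.mf X (sc v ω) (n0 + j)) z +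
        sc v ω (n0 + j) z) ∂(PI (nz S))
      = ∑ j ∈ Finset.range n, ∫⁻ ω, ENNReal.ofReal (MFh_r M v X (n0 + j) z ω +
          Real.sqrt v * ω (n0 + j) z) ∂(PI (nz S)) := rfl
    _ ≤ _ := le_add_self
    _ ≤ _ := h1
    _ ≤ ENNReal.ofReal (1 / 4) + n * ENNReal.ofReal v := by gcongr
    _ = ENNReal.ofReal (1 / 4 + n * v) := by
        rw [ENNReal.ofReal_add (by norm_num) (by positivity),
          ENNReal.ofReal_mul (Nat.cast_nonneg n), ENNReal.ofReal_natCast]

private theorem MFh_top_step (v κ : ℝ) (hv : 0 < v) (hκ : 0 < κ) (hvκ : v ≤ κ ^ 2 / 24) (X : S → ℝ)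
    (hX : ∀ y, X y ≤ 0) (m : ℕ) (z : S) :
    ∫⁻ ω, ENNReal.ofReal ((max (MFh_r M v X m z ω + 3 * κ) 0) ^ 2) ∂(PI (nz S)) +
      ENNReal.ofReal (v / 4) * PI (nz S) {ω | -(3 * κ) ≤ MFh_r M v X m z ω} ≤
    ∫⁻ ω, ENNReal.ofReal ((max (MFh_r M v X (m + 1) z ω + 3 * κ) 0) ^ 2) ∂(PI (nz S)) +
      ENNReal.ofReal (6 * κ) *
        ∫⁻ ω, ENNReal.ofReal (MFh_r M v X m z ω + Real.sqrt v * ω m z) ∂(PI (nz S)) := by
  have mr := MFh_r_meas M v X m z
  have mφ0 : Measurable fun ω => ENNReal.ofReal ((max (MFh_r M v X m z ω + 3 * κ) 0) ^ 2) :=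
    (((mr.add_const _).max measurable_const).pow_const 2).ennreal_ofReal
  have mE : MeasurableSet {ω | -(3 * κ) ≤ MFh_r M v X m z ω} := measurableSet_le measurable_const mr
  have hp : Measurable fun p : ℝ × ℝ => p.1 + Real.sqrt v * p.2 :=
    measurable_fst.add (measurable_snd.const_mul _)
  have hA : Measurable fun p : ℝ × ℝ =>
      ENNReal.ofReal ((max (min 0 (p.1 + Real.sqrt v * p.2) + 3 * κ) 0) ^ 2) :=
    ((((measurable_const.min hp).add_const _).max measurable_const).pow_const 2).ennreal_ofReal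
  have hB : Measurable fun p : ℝ × ℝ => ENNReal.ofReal (p.1 + Real.sqrt v * p.2) :=
    hp.ennreal_ofReal
  have mA : Measurable fun ω => ∫⁻ t, ENNReal.ofReal
      ((max (min 0 (MFh_r M v X m z ω + Real.sqrt v * t) + 3 * κ) 0) ^ 2) ∂(gaussianReal 0 1) := by
    have h1 : Measurable fun r : ℝ => ∫⁻ t, ENNReal.ofReal
      ((max (min 0 (r + Real.sqrt v * t) + 3 * κ) 0) ^ 2) ∂(gaussianReal 0 1) :=
      hA.lintegral_prod_right'
    exact h1.comp mr
  have mB : Measurable fun ω => ∫⁻ t, ENNReal.ofReal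
      (MFh_r M v X m z ω + Real.sqrt v * t) ∂(gaussianReal 0 1) := by
    have h1 : Measurable fun r : ℝ => ∫⁻ t, ENNReal.ofReal
      (r + Real.sqrt v * t) ∂(gaussianReal 0 1) := hB.lintegral_prod_right'
    exact h1.comp mr
  have i1 := MFh_indep M v X m z
    (fun r t => ENNReal.ofReal ((max (min 0 (r + Real.sqrt v * t) + 3 * κ) 0) ^ 2)) hA
  have i2 := MFh_indep M v X m z (fun r t => ENNReal.ofReal (r + Real.sqrt v * t)) hB
  calc ∫⁻ ω, ENNReal.ofReal ((max (MFh_r M v X m z ω + 3 * κ) 0) ^ 2) ∂(PI (nz S)) +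
      ENNReal.ofReal (v / 4) * PI (nz S) {ω | -(3 * κ) ≤ MFh_r M v X m z ω}
      = ∫⁻ ω, (ENNReal.ofReal ((max (MFh_r M v X m z ω + 3 * κ) 0) ^ 2) +
          ENNReal.ofReal (v / 4) *
            Set.indicator {ω | -(3 * κ) ≤ MFh_r M v X m z ω} 1 ω) ∂(PI (nz S)) := by
        rw [lintegral_add_left mφ0, lintegral_const_mul _ (measurable_one.indicator mE),
          lintegral_indicator_one mE]
    _ ≤ ∫⁻ ω, (∫⁻ t, ENNReal.ofReal
          ((max (min 0 (MFh_r M v X m z ω + Real.sqrt v * t) + 3 * κ) 0) ^ 2) ∂(gaussianReal 0 1) +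
        ENNReal.ofReal (6 * κ) * ∫⁻ t, ENNReal.ofReal
          (MFh_r M v X m z ω + Real.sqrt v * t) ∂(gaussianReal 0 1)) ∂(PI (nz S)) := by
        refine lintegral_mono fun ω => ?_
        simp only
        by_cases h : -(3 * κ) ≤ MFh_r M v X m z ω
        · rw [Set.indicator_of_mem (show ω ∈ {ω | -(3 * κ) ≤ MFh_r M v X m z ω} from h),
            Pi.one_apply, mul_one]
          exact MFh_low v κ _ hv hκ hvκ (MFh_r_nonpos M v X hX m z ω) h
        · rw [Set.indicator_of_notMem (show ω ∉ {ω | -(3 * κ) ≤ MFh_r M v X m z ω} from h),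
            mul_zero, add_zero, max_eq_right (by linarith [not_le.mp h])]
          simp
    _ = ∫⁻ ω, ENNReal.ofReal ((max (min 0 (MFh_r M v X m z ω + Real.sqrt v * ω m z) + 3 * κ) 0) ^ 2)
          ∂(PI (nz S)) + ENNReal.ofReal (6 * κ) *
        ∫⁻ ω, ENNReal.ofReal (MFh_r M v X m z ω + Real.sqrt v * ω m z) ∂(PI (nz S)) := by
        rw [lintegral_add_left mA, lintegral_const_mul _ mB, i1, i2]
    _ ≤ _ := by
        gcongr with ω
        exact MFh_r_succ_ge M v X m z ω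

theorem top_occ : ∃ C : ℝ, 1 ≤ C ∧ ∀ (S : Type) [Fintype S] (D : ℕ) (M : MSet S D) (v κ : ℝ),
    0 < v → 0 < κ → κ ≤ 1 / 6 → v ≤ κ ^ 2 / C → ∀ (X : S → ℝ), (∀ y, X y ≤ 0) →
    ∀ (n0 n : ℕ) (z : S),
    ∑ j ∈ Finset.range n, PI (nz S) {ω | -(3 * κ) ≤ M.RR (M.mf X (sc v ω) (n0 + j)) z}
      ≤ ENNReal.ofReal (C * κ * (1 + n * v) / v) := by
  refine ⟨24, by norm_num, ?_⟩
  intro S _ D M v κ hv hκ hκ6 hvκ X hX n0 n z
  have h1 := MFh_tel_low
    (fun m => ∫⁻ ω, ENNReal.ofReal ((max (MFh_r M v X m z ω + 3 * κ) 0) ^ 2) ∂(PI (nz S)))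
    (fun m => ENNReal.ofReal (6 * κ) *
      ∫⁻ ω, ENNReal.ofReal (MFh_r M v X m z ω + Real.sqrt v * ω m z) ∂(PI (nz S)))
    (fun m => ENNReal.ofReal (v / 4) * PI (nz S) {ω | -(3 * κ) ≤ MFh_r M v X m z ω}) n0
    (fun m => MFh_top_step M v κ hv hκ hvκ X hX m z) n
  have h2 : ∫⁻ ω, ENNReal.ofReal ((max (MFh_r M v X (n0 + n) z ω + 3 * κ) 0) ^ 2) ∂(PI (nz S)) ≤
      ENNReal.ofReal ((3 * κ) ^ 2) := by
    calc ∫⁻ ω, ENNReal.ofReal ((max (MFh_r M v X (n0 + n) z ω + 3 * κ) 0) ^ 2) ∂(PI (nz S))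
        ≤ ∫⁻ _ω, ENNReal.ofReal ((3 * κ) ^ 2) ∂(PI (nz S)) := by
          refine lintegral_mono fun ω => ENNReal.ofReal_le_ofReal ?_
          have h3 := MFh_r_nonpos M v X hX (n0 + n) z ω
          exact pow_le_pow_left₀ (le_max_right _ _) (max_le (by linarith) (by positivity)) 2
      _ = ENNReal.ofReal ((3 * κ) ^ 2) := by rw [lintegral_const, measure_univ, mul_one]
  have h3 := caps_exp M v hv X hX n0 n z
  have h4 : ∑ j ∈ Finset.range n, ENNReal.ofReal (6 * κ) *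
      ∫⁻ ω, ENNReal.ofReal (MFh_r M v X (n0 + j) z ω + Real.sqrt v * ω (n0 + j) z) ∂(PI (nz S)) ≤
      ENNReal.ofReal (6 * κ) * ENNReal.ofReal (1 / 4 + n * v) := by
    rw [← Finset.mul_sum]
    gcongr
    exact h3
  have h5 : ENNReal.ofReal (v / 4) * ∑ j ∈ Finset.range n,
      PI (nz S) {ω | -(3 * κ) ≤ M.RR (M.mf X (sc v ω) (n0 + j)) z} ≤
      ENNReal.ofReal ((3 * κ) ^ 2) + ENNReal.ofReal (6 * κ) * ENNReal.ofReal (1 / 4 + n * v) := by
    rw [Finset.mul_sum]
    exact (le_add_self.trans h1).trans (add_le_add h2 h4)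
  have hnv : (0 : ℝ) ≤ n * v := by positivity
  have h6 : ENNReal.ofReal ((3 * κ) ^ 2) + ENNReal.ofReal (6 * κ) * ENNReal.ofReal (1 / 4 + n * v) ≤
      ENNReal.ofReal (v / 4) * ENNReal.ofReal (24 * κ * (1 + n * v) / v) := by
    rw [← ENNReal.ofReal_mul (by positivity), ← ENNReal.ofReal_add (by positivity) (by positivity),
      ← ENNReal.ofReal_mul (by positivity)]
    apply ENNReal.ofReal_le_ofReal
    have e : v / 4 * (24 * κ * (1 + n * v) / v) = 6 * κ * (1 + n * v) := by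
      field_simp
      ring
    rw [e]
    nlinarith
  have hv4 : ENNReal.ofReal (v / 4) ≠ 0 := by
    rw [Ne, ENNReal.ofReal_eq_zero, not_le]
    positivity
  exact (ENNReal.mul_le_mul_iff_right hv4 ENNReal.ofReal_ne_top).mp (h5.trans h6)

end DynC
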