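import Pool.Agent.Lib_MP_36b788c.MFh

/-!
# Height model: gaps (no site close to the top or to its floor, for most times)

`r_j = RR F_j`, `cap_j(z) = (r_j(z) + g_j(z))^+`, `fl_j(z) = max_{z' ≠ z} (r_j(z') - dd z z')`, `Δ_j(z) = r_j(z) - fl_j(z) ≥ 0`.

PROOF.
* `caps_exp`: `φ2(r) = ((r+1/2)^+)²`. `r_{j+1}(z) = F_{j+1}(z)` or both are `≤ -1`, so `φ2(r_{j+1}) = φ2(F_{j+1})`, `F_{j+1} = min 0 (r_j + g)`; `φ2(r+g) - φ2(min 0 (r+g)) = cap² + cap ≥ cap`,
  `E φ2(r + g) ≤ φ2(r) + v`. Sum: `E Σ_j cap_j ≤ 1/4 + n v`.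
* `top_occ`: `φ(r) = ((r+3κ)^+)²`, `κ ≤ 1/6`. If `r_j < -3κ`: `φ(r_{j+1}) ≥ 0 = φ(r_j)`. If `r_j ≥ -3κ`, `y = r_j + 3κ ∈ [0,3κ]`:
  `E φ(r_j + g) = y² + v - E((y+g)^-)²`, cap loss `φ(r+g) - φ(min 0 (r+g)) = cap² + 6κ cap`. `E((y+g)^-)² ≤ v/2`, `E cap² ≤ v/2`, and one of them is `≤ v/8` when `v ≤ κ²/C`
  (`y ≥ 3κ/2` or `r_j ≤ -3κ/2`, Gaussian tail). So `E φ(r_{j+1}) ≥ E φ(r_j) + (v/4) P(r_j ≥ -3κ) - 6κ E cap_j`. Sum.
* `floor_occ`: `z*` = maximizer in `fl_j(z)`. `lift_{j+1}(z) = r_{j+1}(z) - F_{j+1}(z)`; if it is positive then `r_{j+1}(z) = F_{j+1}(z') - dd z z' ≤ fl_{j+1}(z)`, so `Δ_{j+1} = 0`.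
  Without lift `Δ_{j+1} ≤ D0 + cap_j(z*)`, `D0 = Δ_j + g(z) - g(z*)` (`r_{j+1}(z*) ≥ F_{j+1}(z*) = r_j(z*) + g(z*) - cap`). With `φ(Δ) = ((3κ-Δ)^+)²`:
  `φ(Δ_{j+1}) ≥ φ((D0 + cap)^+) ≥ φ(D0^+) - 6κ cap`, `φ(D0^+) = φ(D0) - 6κ D0^- - (D0^-)²`. For `Δ_j ≤ 3κ`: `E φ(D0) - E (D0^-)² ≥ φ(Δ_j) + v/4` (variance `2v`, as above).
  For `Δ_j > 3κ` use `φ(Δ_{j+1}) ≥ 0 = φ(Δ_j)`. Moreover `D0^- ≤ lift_{j+1}(z) + cap_j(z*)`. On `{τ > j}` (`r_i(z) ≥ -M1 + 2` for all `i ≤ j`) and `Δ_j ≤ 3κ`: `fl_j ≥ -M1+1`, so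
  `dd z z* ≤ M1`, and `cap_j(z*) ≤ Σ_{dd z z' ≤ M1} cap_j(z')`. Stop the telescoping sum at `τ`. `E Σ lift(z) ≤ E(-r_{n0}(z)) + E Σ cap(z)` (`r_{j+1} = r_j + g - cap + lift`).
* `gap_occ`: if `F_j(z) < F_j(z') - dd z z' + 3κ` for some `z' ≠ z`, take for `z'` the maximizer over `z' ≠ z`: then `r_j(z') = F_j(z')` (otherwise `r_j(z')` comes from `z` itself, and
  `F_j(z') - dd < F_j(z) - 2`), hence `Δ_j(z) ≤ 3κ`. Union over `z` in the ball. `E(-r_{n0}(z)) ≤ Ke + s + C √(n0 v + 1)` (`mf_stay`, `osc_exp_nz`); `P(τ ≤ ·)` from `mf_stay` and `osc_tail_nz`.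
-/

open MeasureTheory ProbabilityTheory
open scoped ENNReal

namespace DynC

variable {S : Type} [Fintype S] {D : ℕ} (M : MSet S D)

/-- floor of `z` -/
noncomputable def flr (F : S → ℝ) (z : S) : WithBot ℝ := open Classical in
  (Finset.univ.filter fun z' => z' ≠ z).sup fun z' => ((M.RR F z' - M.dd z z' : ℝ) : WithBot ℝ)

private theorem mfh2_law1 (z : S) : (nz S).map (fun c : S → ℝ => c z) = gaussianReal 0 1 := by
  unfold nz
  exact (measurePreserving_eval (fun _ : S => gaussianReal 0 1) z).map_eq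

private theorem mfh2_law2 {z w : S} (h : w ≠ z) :
    (nz S).map (fun c : S → ℝ => c z - c w) = gaussianReal 0 2 := by
  have hi : iIndepFun (fun i (c : S → ℝ) => c i) (nz S) := by
    unfold nz
    exact iIndepFun_pi (X := fun _ => id) (fun i => aemeasurable_id)
  have h2 : IndepFun (fun c : S → ℝ => c z) (fun c => c w) (nz S) := hi.indepFun h.symm
  have h3 : IndepFun (fun c : S → ℝ => c z) (fun c => - c w) (nz S) :=
    h2.comp (φ := id) (ψ := fun x : ℝ => -x) measurable_id measurable_neg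
  have hm : (nz S).map (fun c : S → ℝ => - c w) = gaussianReal 0 1 := by
    have e : (fun c : S → ℝ => - c w) = (fun x : ℝ => -x) ∘ (fun c : S → ℝ => c w) := rfl
    have e2 := Measure.map_map (μ := nz S) (f := fun c : S → ℝ => c w) (g := fun x : ℝ => -x)
      measurable_neg (measurable_pi_apply w)
    rw [e, ← e2, mfh2_law1, gaussianReal_map_neg, neg_zero]
  have h4 := gaussianReal_add_gaussianReal_of_indepFun h3 (mfh2_law1 z) hm
  have e : ((fun c : S → ℝ => c z) + fun c => - c w) = fun c : S → ℝ => c z - c w := by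
    ext c; simp [sub_eq_add_neg]
  rw [e] at h4
  rw [h4]
  norm_num

private theorem mfh2_int1 (s : NNReal) : Integrable (fun x : ℝ => x) (gaussianReal 0 s) :=
  (memLp_id_gaussianReal' 1 (by simp)).integrable le_rfl

private theorem mfh2_int2 (s : NNReal) : Integrable (fun x : ℝ => x ^ 2) (gaussianReal 0 s) :=
  (memLp_id_gaussianReal' 2 (by simp)).integrable_sq

private theorem mfh2_int4 (s : NNReal) : Integrable (fun x : ℝ => x ^ 4) (gaussianReal 0 s) := by
  have h := (memLp_id_gaussianReal (μ := 0) (v := s) 4)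
  have := h.integrable_norm_pow (p := 4) (by norm_num)
  refine this.congr (Filter.Eventually.of_forall fun x => ?_)
  simp only [id, Real.norm_eq_abs]
  exact Even.pow_abs (by decide) x

private theorem mfh2_mean (s : NNReal) : ∫ x, x ∂(gaussianReal 0 s) = 0 := integral_id_gaussianReal

private theorem mfh2_sq (s : NNReal) : ∫ x, x ^ 2 ∂(gaussianReal 0 s) = s := by
  have h := variance_of_integral_eq_zero (μ := gaussianReal 0 s) (X := fun x : ℝ => x)
    aemeasurable_id (mfh2_mean s)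
  rw [variance_fun_id_gaussianReal] at h
  exact h.symm

private theorem mfh2_symm (s : NNReal) (f : ℝ → ℝ) :
    ∫ x, f (-x) ∂(gaussianReal 0 s) = ∫ x, f x ∂(gaussianReal 0 s) := by
  have h := gaussianReal_map_neg (μ := 0) (v := s)
  rw [neg_zero] at h
  have h2 := (MeasurableEquiv.neg ℝ).measurableEmbedding.integral_map (μ := gaussianReal 0 s) f
  have e : ((MeasurableEquiv.neg ℝ : ℝ ≃ᵐ ℝ) : ℝ → ℝ) = fun x => -x := rfl
  rw [e, h] at h2
  exact h2.symm

private theorem mfh2_posint (s : NNReal) :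
    Integrable (fun x : ℝ => (max 0 x) ^ 2) (gaussianReal 0 s) := by
  refine (mfh2_int2 s).mono' (by fun_prop) (Filter.Eventually.of_forall fun x => ?_)
  rw [Real.norm_eq_abs, abs_of_nonneg (by positivity)]
  rcases le_total x 0 with h | h
  · rw [max_eq_left h]; nlinarith
  · rw [max_eq_right h]

private theorem mfh2_negint (s : NNReal) :
    Integrable (fun x : ℝ => (max 0 (-x)) ^ 2) (gaussianReal 0 s) := by
  refine (mfh2_int2 s).mono' (by fun_prop) (Filter.Eventually.of_forall fun x => ?_)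
  rw [Real.norm_eq_abs, abs_of_nonneg (by positivity)]
  rcases le_total (-x) 0 with h | h
  · rw [max_eq_left h]; nlinarith
  · rw [max_eq_right h]; nlinarith

private theorem mfh2_pos (s : NNReal) : ∫ x, (max 0 x) ^ 2 ∂(gaussianReal 0 s) = s / 2 := by
  have h1 := mfh2_symm s (fun x => (max 0 x) ^ 2)
  have h2 : ∫ x, ((max 0 x) ^ 2 + (max 0 (-x)) ^ 2) ∂(gaussianReal 0 s) = s := by
    rw [← mfh2_sq s]
    refine integral_congr_ae (Filter.Eventually.of_forall fun x => ?_)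
    simp only
    rcases le_total x 0 with h | h
    · rw [max_eq_left h, max_eq_right (by linarith)]; ring
    · rw [max_eq_right h, max_eq_left (by linarith)]; ring
  rw [integral_add (mfh2_posint s) (mfh2_negint s)] at h2
  linarith

private theorem mfh2_neg (s : NNReal) : ∫ x, (max 0 (-x)) ^ 2 ∂(gaussianReal 0 s) = s / 2 := by
  rw [← mfh2_pos s]
  exact mfh2_symm s (fun x => (max 0 x) ^ 2)

private theorem mfh2_cosh (x : ℝ) : x ^ 4 ≤ 24 * (Real.exp x + Real.exp (-x)) := by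
  have key : ∀ y : ℝ, 0 ≤ y → y ^ 4 ≤ 24 * Real.exp y := by
    intro y hy
    have := Real.sum_le_exp_of_nonneg hy 5
    simp only [Finset.sum_range_succ, Finset.sum_range_zero, Nat.factorial] at this
    norm_num at this
    have h2 : 0 ≤ y ^ 2 := sq_nonneg y
    have h3 : 0 ≤ y ^ 3 := by positivity
    nlinarith
  have p1 := Real.exp_pos x
  have p2 := Real.exp_pos (-x)
  rcases le_total 0 x with h | h
  · have := key x h
    linarith
  · have := key (-x) (by linarith)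
    have e : (-x) ^ 4 = x ^ 4 := by ring
    rw [e] at this
    linarith

private theorem mfh2_four (s : NNReal) : ∫ x, x ^ 4 ∂(gaussianReal 0 s) ≤ 48 * Real.exp (s / 2) := by
  have i1 := integrable_exp_mul_gaussianReal (μ := 0) (v := s) 1
  have i2 := integrable_exp_mul_gaussianReal (μ := 0) (v := s) (-1)
  have m1 : ∫ x, Real.exp (1 * x) ∂(gaussianReal 0 s) = Real.exp (s / 2) := by
    have := congrFun (mgf_fun_id_gaussianReal (μ := 0) (v := s)) 1
    simp only [mgf] at this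
    rw [this]
    congr 1
    ring
  have m2 : ∫ x, Real.exp (-1 * x) ∂(gaussianReal 0 s) = Real.exp (s / 2) := by
    have := congrFun (mgf_fun_id_gaussianReal (μ := 0) (v := s)) (-1)
    simp only [mgf] at this
    rw [this]
    congr 1
    ring
  calc ∫ x, x ^ 4 ∂(gaussianReal 0 s)
      ≤ ∫ x, 24 * (Real.exp (1 * x) + Real.exp (-1 * x)) ∂(gaussianReal 0 s) := by
        refine integral_mono (mfh2_int4 s) ((i1.add i2).const_mul 24) fun x => ?_
        have := mfh2_cosh x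
        simpa using this
    _ = 48 * Real.exp (s / 2) := by
        rw [integral_const_mul, integral_add i1 i2, m1, m2]
        ring

/-- `(x - t)⁺² ≤ x⁴ / (16 t²)` -/
private theorem mfh2_tail (x t : ℝ) (ht : 0 < t) :
    (max 0 (x - t)) ^ 2 ≤ x ^ 4 / (16 * t ^ 2) := by
  rcases le_total (x - t) 0 with h | h
  · rw [max_eq_left h, zero_pow two_ne_zero]; positivity
  · rw [max_eq_right h, le_div_iff₀ (by positivity)]
    have h1 : 4 * t * (x - t) ≤ x ^ 2 := by nlinarith [sq_nonneg (x - 2 * t)]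
    have h2 : 0 ≤ 4 * t * (x - t) := mul_nonneg (by positivity) h
    have h3 : (4 * t * (x - t)) ^ 2 ≤ (x ^ 2) ^ 2 := pow_le_pow_left₀ h2 h1 2
    nlinarith

private theorem mfh2_lin (c0 c1 c2 c4 c5 : ℝ) (p : ℝ → ℝ) (hp : Integrable p (gaussianReal 0 2)) :
    Integrable (fun x : ℝ => c0 + c1 * x + c2 * x ^ 2 - c4 * x ^ 4 - c5 * p x) (gaussianReal 0 2) ∧
    ∫ x, (c0 + c1 * x + c2 * x ^ 2 - c4 * x ^ 4 - c5 * p x) ∂(gaussianReal 0 2) =
      c0 + c2 * 2 - c4 * ∫ x, x ^ 4 ∂(gaussianReal 0 2) - c5 * ∫ x, p x ∂(gaussianReal 0 2) := by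
  have I1 : Integrable (fun x : ℝ => c0 + c1 * x) (gaussianReal 0 2) :=
    (integrable_const c0).add ((mfh2_int1 2).const_mul c1)
  have I2 : Integrable (fun x : ℝ => c0 + c1 * x + c2 * x ^ 2) (gaussianReal 0 2) :=
    I1.add ((mfh2_int2 2).const_mul c2)
  have I4 : Integrable (fun x : ℝ => c0 + c1 * x + c2 * x ^ 2 - c4 * x ^ 4) (gaussianReal 0 2) :=
    I2.sub ((mfh2_int4 2).const_mul c4)
  refine ⟨I4.sub (hp.const_mul c5), ?_⟩
  rw [integral_sub I4 (hp.const_mul c5), integral_sub I2 ((mfh2_int4 2).const_mul c4),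
    integral_add I1 ((mfh2_int2 2).const_mul c2),
    integral_add (integrable_const c0) ((mfh2_int1 2).const_mul c1),
    integral_const_mul, integral_const_mul, integral_const_mul, integral_const_mul,
    mfh2_mean, mfh2_sq]
  simp

private theorem mfh2_gauss (κ v a b : ℝ) (ha : 0 ≤ a) (hb : 0 ≤ b) (hab : a + b = 3 * κ)
    (hv : 0 < v) (hκ : 0 < κ) (hvC : v ≤ κ ^ 2 / 80) :
    a ^ 2 + v / 4 ≤ ∫ x, ((max 0 (a - Real.sqrt v * x)) ^ 2 -
      (max 0 (-b - Real.sqrt v * x)) ^ 2) ∂(gaussianReal 0 2) := by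
  have hs : Real.sqrt v ^ 2 = v := Real.sq_sqrt hv.le
  have hs0 : 0 ≤ Real.sqrt v := Real.sqrt_nonneg v
  have i1 := mfh2_int1 2
  have i2 := mfh2_int2 2
  have i4 := mfh2_int4 2
  have ip := mfh2_posint 2
  have im := mfh2_negint 2
  have m1 := mfh2_mean 2
  have m2 := mfh2_sq 2
  have m4 : ∫ x, x ^ 4 ∂(gaussianReal 0 2) ≤ 144 := by
    refine (mfh2_four 2).trans ?_
    have : Real.exp (((2 : NNReal) : ℝ) / 2) ≤ 3 := by
      have e : (((2 : NNReal) : ℝ) / 2) = 1 := by norm_num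
      rw [e]
      have := Real.exp_one_lt_d9
      linarith
    linarith
  have mp := mfh2_pos 2
  have mm := mfh2_neg 2
  have c2 : (((2 : NNReal) : ℝ)) = 2 := by norm_num
  rw [c2] at m2 mp mm
  have I0 : Integrable (fun x : ℝ => (max 0 (a - Real.sqrt v * x)) ^ 2 -
      (max 0 (-b - Real.sqrt v * x)) ^ 2) (gaussianReal 0 2) := by
    have j1 : Integrable (fun x : ℝ => (max 0 (a - Real.sqrt v * x)) ^ 2) (gaussianReal 0 2) := by
      refine ((integrable_const (2 * a ^ 2)).add (i2.const_mul (2 * v))).mono' (by fun_prop)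
        (Filter.Eventually.of_forall fun x => ?_)
      rw [Real.norm_eq_abs, abs_of_nonneg (by positivity)]
      simp only [Pi.add_apply]
      have e : v * x ^ 2 = (Real.sqrt v * x) ^ 2 := by rw [mul_pow, hs]
      rw [mul_assoc, e]
      rcases le_total (a - Real.sqrt v * x) 0 with h | h
      · rw [max_eq_left h]; nlinarith [sq_nonneg (Real.sqrt v * x), sq_nonneg a]
      · rw [max_eq_right h]; nlinarith [sq_nonneg (Real.sqrt v * x + a)]
    have j2 : Integrable (fun x : ℝ => (max 0 (-b - Real.sqrt v * x)) ^ 2) (gaussianReal 0 2) := by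
      refine ((integrable_const (2 * b ^ 2)).add (i2.const_mul (2 * v))).mono' (by fun_prop)
        (Filter.Eventually.of_forall fun x => ?_)
      rw [Real.norm_eq_abs, abs_of_nonneg (by positivity)]
      simp only [Pi.add_apply]
      have e : v * x ^ 2 = (Real.sqrt v * x) ^ 2 := by rw [mul_pow, hs]
      rw [mul_assoc, e]
      rcases le_total (-b - Real.sqrt v * x) 0 with h | h
      · rw [max_eq_left h]; nlinarith [sq_nonneg (Real.sqrt v * x), sq_nonneg b]
      · rw [max_eq_right h]; nlinarith [sq_nonneg (Real.sqrt v * x - b)]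
    exact j1.sub j2
  -- scaling of the positive part
  have sc1 : ∀ x : ℝ, (max 0 (Real.sqrt v * x)) ^ 2 = v * (max 0 x) ^ 2 := by
    intro x
    have : max 0 (Real.sqrt v * x) = Real.sqrt v * max 0 x := by
      rw [mul_max_of_nonneg _ _ hs0, mul_zero]
    rw [this, mul_pow, hs]
  have sc4 : ∀ x : ℝ, (Real.sqrt v * x) ^ 4 = v ^ 2 * x ^ 4 := by
    intro x
    rw [mul_pow]
    congr 1
    calc Real.sqrt v ^ 4 = (Real.sqrt v ^ 2) ^ 2 := by ring
      _ = v ^ 2 := by rw [hs]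
  have hq : v ^ 2 * 144 / (36 * κ ^ 2) ≤ v / 4 := by
    rw [div_le_iff₀ (by positivity)]
    have : v * 80 ≤ κ ^ 2 := by
      have := mul_le_mul_of_nonneg_right hvC (by norm_num : (0 : ℝ) ≤ 80)
      linarith
    nlinarith
  rcases le_total b a with hc | hc
  · -- `a ≥ 3κ/2`
    have ha2 : 3 * κ / 2 ≤ a := by linarith
    have hpt : ∀ x : ℝ, a ^ 2 + (-(2 * a * Real.sqrt v)) * x + v * x ^ 2 -
        v ^ 2 / (36 * κ ^ 2) * x ^ 4 - v * (max 0 (-x)) ^ 2 ≤
        (max 0 (a - Real.sqrt v * x)) ^ 2 - (max 0 (-b - Real.sqrt v * x)) ^ 2 := by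
      intro x
      have t1 := mfh2_tail (Real.sqrt v * x) a (by linarith)
      rw [sc4] at t1
      have t2 : v ^ 2 * x ^ 4 / (16 * a ^ 2) ≤ v ^ 2 / (36 * κ ^ 2) * x ^ 4 := by
        rw [div_mul_eq_mul_div]
        apply div_le_div_of_nonneg_left (by positivity) (by positivity)
        nlinarith
      have t3 : (max 0 (-b - Real.sqrt v * x)) ^ 2 ≤ v * (max 0 (-x)) ^ 2 := by
        rw [← sc1]
        apply pow_le_pow_left₀ (le_max_left _ _)
        apply max_le_max le_rfl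
        linarith [mul_neg (Real.sqrt v) x]
      have t4 : (max 0 (a - Real.sqrt v * x)) ^ 2 = (a - Real.sqrt v * x) ^ 2 -
          (max 0 (Real.sqrt v * x - a)) ^ 2 := by
        rcases le_total (a - Real.sqrt v * x) 0 with h | h
        · rw [max_eq_left h, max_eq_right (by linarith)]; ring
        · rw [max_eq_right h, max_eq_left (by linarith)]; ring
      rw [t4]
      have t5 : (a - Real.sqrt v * x) ^ 2 = a ^ 2 + (-(2 * a * Real.sqrt v)) * x + v * x ^ 2 := by
        have : v * x ^ 2 = Real.sqrt v ^ 2 * x ^ 2 := by rw [hs]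
        rw [this]; ring
      rw [t5]
      linarith
    obtain ⟨I1, e⟩ := mfh2_lin (a ^ 2) (-(2 * a * Real.sqrt v)) v (v ^ 2 / (36 * κ ^ 2)) v _ im
    refine le_trans ?_ (integral_mono I1 I0 hpt)
    rw [e, mm]
    have : v ^ 2 / (36 * κ ^ 2) * ∫ x, x ^ 4 ∂(gaussianReal 0 2) ≤ v / 4 := by
      refine le_trans (mul_le_mul_of_nonneg_left m4 (by positivity)) ?_
      rw [div_mul_eq_mul_div]; exact hq
    linarith
  · have hb2 : 3 * κ / 2 ≤ b := by linarith
    have hpt : ∀ x : ℝ, a ^ 2 + (-(2 * a * Real.sqrt v)) * x + v * x ^ 2 -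
        v ^ 2 / (36 * κ ^ 2) * x ^ 4 - v * (max 0 x) ^ 2 ≤
        (max 0 (a - Real.sqrt v * x)) ^ 2 - (max 0 (-b - Real.sqrt v * x)) ^ 2 := by
      intro x
      have t1 := mfh2_tail (-(Real.sqrt v * x)) b (by linarith)
      have e4 : (-(Real.sqrt v * x)) ^ 4 = (Real.sqrt v * x) ^ 4 := by ring
      rw [e4, sc4] at t1
      have t2 : v ^ 2 * x ^ 4 / (16 * b ^ 2) ≤ v ^ 2 / (36 * κ ^ 2) * x ^ 4 := by
        rw [div_mul_eq_mul_div]
        apply div_le_div_of_nonneg_left (by positivity) (by positivity)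
        nlinarith
      have t3 : (max 0 (Real.sqrt v * x - a)) ^ 2 ≤ v * (max 0 x) ^ 2 := by
        rw [← sc1]
        apply pow_le_pow_left₀ (le_max_left _ _)
        apply max_le_max le_rfl
        linarith
      have t4 : (max 0 (a - Real.sqrt v * x)) ^ 2 = (a - Real.sqrt v * x) ^ 2 -
          (max 0 (Real.sqrt v * x - a)) ^ 2 := by
        rcases le_total (a - Real.sqrt v * x) 0 with h | h
        · rw [max_eq_left h, max_eq_right (by linarith)]; ring
        · rw [max_eq_right h, max_eq_left (by linarith)]; ring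
      have t6 : -b - Real.sqrt v * x = -(Real.sqrt v * x) - b := by ring
      rw [t4, t6]
      have t5 : (a - Real.sqrt v * x) ^ 2 = a ^ 2 + (-(2 * a * Real.sqrt v)) * x + v * x ^ 2 := by
        have : v * x ^ 2 = Real.sqrt v ^ 2 * x ^ 2 := by rw [hs]
        rw [this]; ring
      rw [t5]
      linarith
    obtain ⟨I1, e⟩ := mfh2_lin (a ^ 2) (-(2 * a * Real.sqrt v)) v (v ^ 2 / (36 * κ ^ 2)) v _ ip
    refine le_trans ?_ (integral_mono I1 I0 hpt)
    rw [e, mp]
    have : v ^ 2 / (36 * κ ^ 2) * ∫ x, x ^ 4 ∂(gaussianReal 0 2) ≤ v / 4 := by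
      refine le_trans (mul_le_mul_of_nonneg_left m4 (by positivity)) ?_
      rw [div_mul_eq_mul_div]; exact hq
    linarith

/-! ### deterministic step -/

/-- real floor -/
private noncomputable def mfh2_fl (z : S) (hN : ∃ w, w ≠ z) (F : S → ℝ) : ℝ := open Classical in
  (Finset.univ.filter fun z' => z' ≠ z).sup' (by
    obtain ⟨w, hw⟩ := hN
    exact ⟨w, by simp [hw]⟩) fun z' => M.RR F z' - M.dd z z'

private theorem mfh2_le_fl (z : S) (hN : ∃ w, w ≠ z) (F : S → ℝ) (w : S) (hw : w ≠ z) :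
    M.RR F w - M.dd z w ≤ mfh2_fl M z hN F := by
  classical
  unfold mfh2_fl
  exact Finset.le_sup' (fun z' => M.RR F z' - (M.dd z z' : ℝ)) (by simp [hw])

private theorem mfh2_fl_ex (z : S) (hN : ∃ w, w ≠ z) (F : S → ℝ) :
    ∃ w, w ≠ z ∧ mfh2_fl M z hN F = M.RR F w - M.dd z w := by
  classical
  unfold mfh2_fl
  obtain ⟨w, hw, e⟩ := Finset.exists_mem_eq_sup' (s := Finset.univ.filter fun z' => z' ≠ z) (by
    obtain ⟨w, hw⟩ := hN
    exact ⟨w, by simp [hw]⟩) (fun z' => M.RR F z' - (M.dd z z' : ℝ))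
  exact ⟨w, by simpa using hw, e⟩

private theorem mfh2_fl_le (z : S) (hN : ∃ w, w ≠ z) (F : S → ℝ) :
    mfh2_fl M z hN F ≤ M.RR F z := by
  obtain ⟨w, hw, e⟩ := mfh2_fl_ex M z hN F
  rw [e]
  have := RR_lip M F w z
  rw [M.dd_comm w z] at this
  linarith

private theorem mfh2_flr (z : S) (hN : ∃ w, w ≠ z) (F : S → ℝ) (c : ℝ) :
    ((c : ℝ) : WithBot ℝ) ≤ flr M F z ↔ c ≤ mfh2_fl M z hN F := by
  classical
  unfold flr mfh2_fl
  rw [Finset.le_sup_iff (WithBot.bot_lt_coe c), Finset.le_sup'_iff]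
  simp only [WithBot.coe_le_coe]

private theorem mfh2_meas_fl (z : S) (hN : ∃ w, w ≠ z) :
    Measurable (fun F : S → ℝ => mfh2_fl M z hN F) := by
  classical
  unfold mfh2_fl
  have h := Finset.measurable_sup' (s := Finset.univ.filter fun z' => z' ≠ z) (by
    obtain ⟨w, hw⟩ := hN
    exact ⟨w, by simp [hw]⟩) (f := fun z' (F : S → ℝ) => M.RR F z' - (M.dd z z' : ℝ))
    (fun w _ => (measurable_RR M w).sub measurable_const)
  convert h using 1
  ext F
  rw [Finset.sup'_apply]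

/-- truncated square -/
private noncomputable def mfh2_phi (κ x : ℝ) : ℝ := (max 0 (3 * κ - x)) ^ 2

private theorem mfh2_phi_anti (κ : ℝ) {x y : ℝ} (h : x ≤ y) : mfh2_phi κ y ≤ mfh2_phi κ x := by
  unfold mfh2_phi
  apply pow_le_pow_left₀ (le_max_left _ _)
  exact max_le_max le_rfl (by linarith)

private theorem mfh2_phi_le (κ : ℝ) (hκ : 0 < κ) {x : ℝ} (h : 0 ≤ x) :
    mfh2_phi κ x ≤ 9 * κ ^ 2 := by
  have h1 := mfh2_phi_anti κ h
  have h2 : mfh2_phi κ 0 = 9 * κ ^ 2 := by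
    unfold mfh2_phi
    rw [sub_zero, max_eq_right (by linarith)]
    ring
  linarith

/-- the change of `phi` under a nonnegative shift -/
private theorem mfh2_phi_add (κ : ℝ) (hκ : 0 < κ) {x c : ℝ} (h : 0 ≤ x) (hc : 0 ≤ c) :
    mfh2_phi κ x - 6 * κ * c ≤ mfh2_phi κ (x + c) := by
  unfold mfh2_phi
  rcases le_total (3 * κ - x) 0 with h1 | h1
  · rw [max_eq_left h1]
    have : 0 ≤ (max 0 (3 * κ - (x + c))) ^ 2 := by positivity
    have : 0 ≤ κ * c := mul_nonneg hκ.le hc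
    nlinarith
  · rw [max_eq_right h1]
    rcases le_total (3 * κ - (x + c)) 0 with h2 | h2
    · rw [max_eq_left h2]
      have h3 : 0 ≤ κ * c := mul_nonneg hκ.le hc
      have h4 : 3 * κ - x ≤ c := by linarith
      have h5 : 3 * κ - x ≤ 3 * κ := by linarith
      nlinarith [mul_le_mul h5 h4 h1 (by linarith : (0 : ℝ) ≤ 3 * κ)]
    · rw [max_eq_right h2]
      nlinarith [mul_nonneg hκ.le hc, mul_nonneg h hc, mul_nonneg hc hc]

/-- negative arguments -/
private theorem mfh2_phi_neg (κ : ℝ) (hκ : 0 < κ) (x : ℝ) :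
    mfh2_phi κ (max 0 x) = mfh2_phi κ x - 6 * κ * max 0 (-x) - (max 0 (-x)) ^ 2 := by
  unfold mfh2_phi
  rcases le_total x 0 with h | h
  · rw [max_eq_left h, max_eq_right (show 0 ≤ -x by linarith), sub_zero,
      max_eq_right (show 0 ≤ 3 * κ by linarith), max_eq_right (show 0 ≤ 3 * κ - x by linarith)]
    ring
  · rw [max_eq_right h, max_eq_left (show -x ≤ 0 by linarith)]
    ring

private theorem mfh2_det (κ : ℝ) (hκ : 0 < κ) (z : S) (hN : ∃ w, w ≠ z) (F g : S → ℝ) (w : S)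
    (hw : w ≠ z) (he : mfh2_fl M z hN F = M.RR F w - M.dd z w) :
    mfh2_phi κ (M.RR F z - mfh2_fl M z hN F + (g z - g w)) -
        (max 0 (-(M.RR F z - mfh2_fl M z hN F + (g z - g w)))) ^ 2 ≤
      mfh2_phi κ (M.RR (M.mst F g) z - mfh2_fl M z hN (M.mst F g)) +
        6 * κ * (M.RR (M.mst F g) z - M.mst F g z) + 12 * κ * max 0 (M.RR F w + g w) := by
  set D0 := M.RR F z - mfh2_fl M z hN F + (g z - g w) with hD0
  set F' := M.mst F g with hF'
  have hFx : ∀ x, F' x = M.RR F x + g x - max 0 (M.RR F x + g x) := by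
    intro x
    rw [hF']
    unfold MSet.mst
    rcases le_total 0 (M.RR F x + g x) with h | h
    · rw [min_eq_left h, max_eq_right h]; ring
    · rw [min_eq_right h, max_eq_left h]; ring
  have hlift : 0 ≤ M.RR F' z - F' z := by
    have := self_le_RR M F' z
    linarith
  have hcw : 0 ≤ max 0 (M.RR F w + g w) := le_max_left _ _
  have hcz : 0 ≤ max 0 (M.RR F z + g z) := le_max_left _ _
  -- floor of the new field
  have hfl : M.RR F w + g w - max 0 (M.RR F w + g w) - M.dd z w ≤ mfh2_fl M z hN F' := by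
    have h1 := mfh2_le_fl M z hN F' w hw
    have h2 := self_le_RR M F' w
    rw [hFx w] at h2
    linarith
  have hflz := mfh2_fl_le M z hN F'
  have hFz := hFx z
  -- claim B
  have hB : max 0 (-D0) ≤ (M.RR F' z - F' z) + max 0 (M.RR F w + g w) := by
    apply max_le
    · linarith
    · rw [hD0, he]
      linarith
  -- claim A
  have hA : mfh2_phi κ (max 0 D0) - 6 * κ * max 0 (M.RR F w + g w) ≤
      mfh2_phi κ (M.RR F' z - mfh2_fl M z hN F') := by
    rcases eq_or_lt_of_le hlift with h0 | h0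
    · have h1 : M.RR F' z - mfh2_fl M z hN F' ≤ max 0 D0 + max 0 (M.RR F w + g w) := by
        have h2 : D0 ≤ max 0 D0 := le_max_right _ _
        have h3 : M.RR F' z - mfh2_fl M z hN F' ≤ D0 + max 0 (M.RR F w + g w) := by
          rw [hD0, he]
          linarith
        linarith
      exact (mfh2_phi_add κ hκ (le_max_left 0 D0) hcw).trans (mfh2_phi_anti κ h1)
    · -- lifted: the new floor is the value
      have h1 : M.RR F' z ≤ mfh2_fl M z hN F' := by
        have h2 := am_spec M F' z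
        have h3 : M.am F' z ≠ z := by
          intro h4
          rw [h4, M.dd_self] at h2
          simp at h2
          linarith
        have h4 := mfh2_le_fl M z hN F' _ h3
        have h5 := self_le_RR M F' (M.am F' z)
        linarith
      have h6 : M.RR F' z - mfh2_fl M z hN F' = 0 := by linarith
      rw [h6]
      have h7 := mfh2_phi_anti κ (le_max_left 0 D0)
      have h8 : 0 ≤ κ * max 0 (M.RR F w + g w) := mul_nonneg hκ.le hcw
      linarith
  have hC := mfh2_phi_neg κ hκ D0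
  have hB2 := mul_le_mul_of_nonneg_left hB (by linarith : (0 : ℝ) ≤ 6 * κ)
  nlinarith [mul_nonneg hκ.le hcw]

/-! ### one step in expectation -/

private theorem mfh2_step {X : Type} [MeasurableSpace X] (μ : Measure X) [IsProbabilityMeasure μ]
    (k : ℕ) (G : (ℕ → X) → X → ℝ≥0∞) (hG : Measurable (fun p : (ℕ → X) × X => G p.1 p.2))
    (hd : ∀ c, Dep k (fun a => G a c)) :
    ∫⁻ ω, G ω (ω k) ∂(PI μ) = ∫⁻ a, ∫⁻ c, G a c ∂μ ∂(PI μ) := by
  have hF : Measurable (fun ω : ℕ → X => G ω (ω k)) :=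
    hG.comp (measurable_id.prodMk (measurable_pi_apply k))
  rw [lintegral_glue k _ hF]
  refine lintegral_congr fun a => ?_
  have h1 : ∀ b : ℕ → X, G (glue k a b) (glue k a b k) = G a (b 0) := by
    intro b
    have e : glue k a b k = b 0 := by simp [glue]
    rw [e]
    exact hd (b 0) _ _ (fun i hi => by simp [glue, hi])
  simp only [h1]
  have h2 : Measurable (fun c => G a c) := hG.comp (measurable_const.prodMk measurable_id)
  have h3 := lintegral_map (μ := PI μ) h2 (measurable_pi_apply 0)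
  rw [map_coord 0] at h3
  exact h3.symm

private theorem mfh2_ofReal_int {Ω : Type} [MeasurableSpace Ω] (μ : Measure Ω) (f : Ω → ℝ) :
    ENNReal.ofReal (∫ x, f x ∂μ) ≤ ∫⁻ x, ENNReal.ofReal (f x) ∂μ := by
  by_cases hf : Integrable f μ
  · have hp : Integrable (fun x => max (f x) 0) μ := hf.pos_part
    have h1 : ∫ x, f x ∂μ ≤ ∫ x, max (f x) 0 ∂μ :=
      integral_mono hf hp fun x => le_max_left _ _
    refine (ENNReal.ofReal_le_ofReal h1).trans ?_
    rw [ofReal_integral_eq_lintegral_ofReal hp (Filter.Eventually.of_forall fun x => le_max_right _ _)]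
    refine lintegral_mono fun x => ?_
    simp only
    rcases le_total (f x) 0 with h | h
    · rw [max_eq_right h]; simp
    · rw [max_eq_left h]
  · rw [integral_undef hf]; simp

private theorem mfh2_one (v κ : ℝ) (hv : 0 < v) (hκ : 0 < κ) (hκ6 : κ ≤ 1 / 6)
    (hvC : v ≤ κ ^ 2 / 80) (z : S) (hN : ∃ w, w ≠ z) (F : S → ℝ) (hF : ∀ x, F x ≤ 0) (M1 : ℕ)
    (hr : -(M1 : ℝ) + 2 ≤ M.RR F z) (hD : M.RR F z - 3 * κ ≤ mfh2_fl M z hN F) (B : Finset S)
    (hB : ∀ w, M.dd z w ≤ M1 → w ∈ B) :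
    ENNReal.ofReal (mfh2_phi κ (M.RR F z - mfh2_fl M z hN F)) + ENNReal.ofReal (v / 4) ≤
      ∫⁻ c, (ENNReal.ofReal (mfh2_phi κ (M.RR (M.mst F (fun x => Real.sqrt v * c x)) z -
          mfh2_fl M z hN (M.mst F (fun x => Real.sqrt v * c x)))) +
        ENNReal.ofReal (6 * κ) * ENNReal.ofReal (M.RR (M.mst F (fun x => Real.sqrt v * c x)) z -
          M.mst F (fun x => Real.sqrt v * c x) z) +
        ENNReal.ofReal (12 * κ) * ∑ w ∈ B, ENNReal.ofReal (M.RR F w + Real.sqrt v * c w))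
        ∂(nz S) := by
  obtain ⟨w, hw, he⟩ := mfh2_fl_ex M z hN F
  have hRw : M.RR F w ≤ 0 := RR_le M F w 0 fun y => by
    have := hF y
    have : (0 : ℝ) ≤ M.dd w y := Nat.cast_nonneg _
    linarith
  have hwB : w ∈ B := by
    apply hB
    have : (M.dd z w : ℝ) ≤ M1 := by linarith
    exact_mod_cast this
  have hb := mfh2_fl_le M z hN F
  have hg := mfh2_gauss κ v (3 * κ - (M.RR F z - mfh2_fl M z hN F))
    (M.RR F z - mfh2_fl M z hN F) (by linarith) (by linarith) (by ring) hv hκ hvC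
  have hphi : mfh2_phi κ (M.RR F z - mfh2_fl M z hN F) =
      (3 * κ - (M.RR F z - mfh2_fl M z hN F)) ^ 2 := by
    unfold mfh2_phi
    rw [max_eq_right (by linarith)]
  have hm : Measurable (fun c : S → ℝ => c z - c w) :=
    (measurable_pi_apply z).sub (measurable_pi_apply w)
  rw [hphi, ← ENNReal.ofReal_add (sq_nonneg _) (by positivity)]
  refine (ENNReal.ofReal_le_ofReal hg).trans ?_
  refine (mfh2_ofReal_int _ _).trans ?_
  rw [← mfh2_law2 hw, lintegral_map (by fun_prop) hm]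
  refine lintegral_mono fun c => ?_
  have hdet := mfh2_det M κ hκ z hN F (fun x => Real.sqrt v * c x) w hw he
  set F' := M.mst F (fun x => Real.sqrt v * c x) with hF'
  have e1 : (max 0 (3 * κ - (M.RR F z - mfh2_fl M z hN F) - Real.sqrt v * (c z - c w))) ^ 2 -
      (max 0 (-(M.RR F z - mfh2_fl M z hN F) - Real.sqrt v * (c z - c w))) ^ 2 =
      mfh2_phi κ (M.RR F z - mfh2_fl M z hN F + (Real.sqrt v * c z - Real.sqrt v * c w)) -
        (max 0 (-(M.RR F z - mfh2_fl M z hN F + (Real.sqrt v * c z - Real.sqrt v * c w)))) ^ 2 := by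
    unfold mfh2_phi
    congr 3 <;> [skip; skip] <;> ring
  have hphi0 : 0 ≤ mfh2_phi κ (M.RR F' z - mfh2_fl M z hN F') := by
    unfold mfh2_phi; positivity
  have hl0 : 0 ≤ M.RR F' z - F' z := by
    have := self_le_RR M F' z
    linarith
  calc ENNReal.ofReal ((max 0 (3 * κ - (M.RR F z - mfh2_fl M z hN F) -
        Real.sqrt v * (c z - c w))) ^ 2 -
      (max 0 (-(M.RR F z - mfh2_fl M z hN F) - Real.sqrt v * (c z - c w))) ^ 2)
      ≤ ENNReal.ofReal (mfh2_phi κ (M.RR F' z - mfh2_fl M z hN F') +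
        6 * κ * (M.RR F' z - F' z) + 12 * κ * max 0 (M.RR F w + Real.sqrt v * c w)) := by
        rw [e1]
        exact ENNReal.ofReal_le_ofReal hdet
    _ = ENNReal.ofReal (mfh2_phi κ (M.RR F' z - mfh2_fl M z hN F')) +
        ENNReal.ofReal (6 * κ) * ENNReal.ofReal (M.RR F' z - F' z) +
        ENNReal.ofReal (12 * κ) * ENNReal.ofReal (M.RR F w + Real.sqrt v * c w) := by
        rw [ENNReal.ofReal_add (by positivity) (by positivity),
          ENNReal.ofReal_add hphi0 (by positivity),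
          ENNReal.ofReal_mul (show (0 : ℝ) ≤ 6 * κ by positivity),
          ENNReal.ofReal_mul (show (0 : ℝ) ≤ 12 * κ by positivity)]
        congr 2
        rcases le_total 0 (M.RR F w + Real.sqrt v * c w) with h | h
        · rw [max_eq_right h]
        · rw [max_eq_left h, ENNReal.ofReal_zero, ENNReal.ofReal_of_nonpos h]
    _ ≤ _ := by
        gcongr
        exact Finset.single_le_sum (f := fun w => ENNReal.ofReal (M.RR F w + Real.sqrt v * c w))
          (fun _ _ => zero_le) hwB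

private theorem mfh2_lift1 (v r : ℝ) (hr : r ≤ 0) (z : S) :
    ∫⁻ c : S → ℝ, ENNReal.ofReal (-(r + Real.sqrt v * c z)) ∂(nz S) =
      ENNReal.ofReal (-r) + ∫⁻ c : S → ℝ, ENNReal.ofReal (r + Real.sqrt v * c z) ∂(nz S) := by
  have hm : Measurable (fun c : S → ℝ => c z) := measurable_pi_apply z
  have e1 : ∫⁻ c : S → ℝ, ENNReal.ofReal (-(r + Real.sqrt v * c z)) ∂(nz S) =
      ∫⁻ x, ENNReal.ofReal (-(r + Real.sqrt v * x)) ∂(gaussianReal 0 1) := by
    rw [← mfh2_law1 z, lintegral_map (by fun_prop) hm]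
  have e2 : ∫⁻ c : S → ℝ, ENNReal.ofReal (r + Real.sqrt v * c z) ∂(nz S) =
      ∫⁻ x, ENNReal.ofReal (r + Real.sqrt v * x) ∂(gaussianReal 0 1) := by
    rw [← mfh2_law1 z, lintegral_map (by fun_prop) hm]
  rw [e1, e2]
  have hi : Integrable (fun x : ℝ => r + Real.sqrt v * x) (gaussianReal 0 1) :=
    (integrable_const r).add ((mfh2_int1 1).const_mul _)
  have hp : Integrable (fun x : ℝ => max (r + Real.sqrt v * x) 0) (gaussianReal 0 1) := hi.pos_part
  have hn : Integrable (fun x : ℝ => max (-(r + Real.sqrt v * x)) 0) (gaussianReal 0 1) :=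
    hi.neg_part
  have f1 : ∫⁻ x, ENNReal.ofReal (-(r + Real.sqrt v * x)) ∂(gaussianReal 0 1) =
      ENNReal.ofReal (∫ x, max (-(r + Real.sqrt v * x)) 0 ∂(gaussianReal 0 1)) := by
    rw [ofReal_integral_eq_lintegral_ofReal hn (Filter.Eventually.of_forall fun x => le_max_right _ _)]
    refine lintegral_congr fun x => ?_
    rcases le_total (-(r + Real.sqrt v * x)) 0 with h | h
    · rw [max_eq_right h, ENNReal.ofReal_of_nonpos h, ENNReal.ofReal_zero]
    · rw [max_eq_left h]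
  have f2 : ∫⁻ x, ENNReal.ofReal (r + Real.sqrt v * x) ∂(gaussianReal 0 1) =
      ENNReal.ofReal (∫ x, max (r + Real.sqrt v * x) 0 ∂(gaussianReal 0 1)) := by
    rw [ofReal_integral_eq_lintegral_ofReal hp (Filter.Eventually.of_forall fun x => le_max_right _ _)]
    refine lintegral_congr fun x => ?_
    rcases le_total (r + Real.sqrt v * x) 0 with h | h
    · rw [max_eq_right h, ENNReal.ofReal_of_nonpos h, ENNReal.ofReal_zero]
    · rw [max_eq_left h]
  have g1 : ∫ x, max (-(r + Real.sqrt v * x)) 0 ∂(gaussianReal 0 1) -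
      ∫ x, max (r + Real.sqrt v * x) 0 ∂(gaussianReal 0 1) = -r := by
    rw [← integral_sub hn hp]
    have : ∀ x : ℝ, max (-(r + Real.sqrt v * x)) 0 - max (r + Real.sqrt v * x) 0 =
        -r + (-Real.sqrt v) * x := by
      intro x
      rcases le_total (r + Real.sqrt v * x) 0 with h | h
      · rw [max_eq_right h, max_eq_left (by linarith)]; ring
      · rw [max_eq_left h, max_eq_right (by linarith)]; ring
    simp only [this]
    rw [integral_add (integrable_const _) ((mfh2_int1 1).const_mul _), integral_const_mul,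
      mfh2_mean]
    simp
  have hp0 : 0 ≤ ∫ x, max (r + Real.sqrt v * x) 0 ∂(gaussianReal 0 1) :=
    integral_nonneg fun x => le_max_right _ _
  rw [f1, f2, ← ENNReal.ofReal_add (by linarith) hp0]
  congr 1
  linarith

/-! ### path space -/

omit [Fintype S] in
private theorem mfh2_meas_sc (v : ℝ) : Measurable (fun ω : ℕ → S → ℝ => sc v ω) := by
  unfold sc
  fun_prop

private theorem mfh2_meas_F (v : ℝ) (X : S → ℝ) (k : ℕ) :
    Measurable (fun ω : ℕ → S → ℝ => M.mf X (sc v ω) k) :=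
  measurable_pi_iff.2 fun x =>
    (measurable_mf M k x).comp (measurable_const.prodMk (mfh2_meas_sc v))

private theorem mfh2_meas_mst : Measurable (fun p : (S → ℝ) × (S → ℝ) => M.mst p.1 p.2) := by
  refine measurable_pi_iff.2 fun x => ?_
  unfold MSet.mst
  exact measurable_const.min (((measurable_RR M x).comp measurable_fst).add
    ((measurable_pi_apply x).comp measurable_snd))

omit [Fintype S] in
private theorem mfh2_meas_inc (v : ℝ) :
    Measurable fun p : (ℕ → S → ℝ) × (S → ℝ) => (fun x => Real.sqrt v * p.2 x) := by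
  fun_prop

private theorem mfh2_meas_F1 (v : ℝ) (X : S → ℝ) (k : ℕ) :
    Measurable fun p : (ℕ → S → ℝ) × (S → ℝ) => M.mf X (sc v p.1) k :=
    (mfh2_meas_F M v X k).comp measurable_fst

private theorem mfh2_meas_st (v : ℝ) (X : S → ℝ) (k : ℕ) :
    Measurable fun p : (ℕ → S → ℝ) × (S → ℝ) =>
      M.mst (M.mf X (sc v p.1) k) (fun x => Real.sqrt v * p.2 x) := by
  have h1 := mfh2_meas_inc (S := S) v
  have h2 := mfh2_meas_F1 M v X k
  have h3 := (mfh2_meas_mst M).comp (h2.prodMk h1)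
  simpa only [Function.comp_def] using h3

private theorem mfh2_dep (v : ℝ) (X : S → ℝ) (k : ℕ) (a b : ℕ → S → ℝ)
    (h : ∀ i, i < k → a i = b i) (l : ℕ) (hl : l ≤ k) :
    M.mf X (sc v a) l = M.mf X (sc v b) l := by
  refine mf_congr M X _ _ l fun j hj => ?_
  unfold sc
  rw [h j (by omega)]

/-- the lifts are paid by the caps -/
private theorem mfh2_lifts (v : ℝ) (X : S → ℝ) (hX : ∀ y, X y ≤ 0) (n0 n : ℕ) (z : S) :
    ∑ j ∈ Finset.range n, ∫⁻ ω, ENNReal.ofReal (M.RR (M.mf X (sc v ω) (n0 + j + 1)) z -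
        M.mf X (sc v ω) (n0 + j + 1) z) ∂(PI (nz S)) +
      ∫⁻ ω, ENNReal.ofReal (-(M.RR (M.mf X (sc v ω) (n0 + n)) z)) ∂(PI (nz S)) ≤
    ∫⁻ ω, ENNReal.ofReal (-(M.RR (M.mf X (sc v ω) n0) z)) ∂(PI (nz S)) +
      ∑ j ∈ Finset.range n, ∫⁻ ω, ENNReal.ofReal (M.RR (M.mf X (sc v ω) (n0 + j)) z +
        sc v ω (n0 + j) z) ∂(PI (nz S)) := by
  have hRm : ∀ k, Measurable fun ω : ℕ → S → ℝ => M.RR (M.mf X (sc v ω) k) z := fun k =>
    (measurable_RR M z).comp (mfh2_meas_F M v X k)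
  have hR0 : ∀ (ω : ℕ → S → ℝ) k, M.RR (M.mf X (sc v ω) k) z ≤ 0 := fun ω k =>
    RR_le M _ z 0 fun y => by
      have := mf_nonpos M X hX (sc v ω) k y
      have : (0 : ℝ) ≤ M.dd z y := Nat.cast_nonneg _
      linarith
  induction n with
  | zero => simp
  | succ n ih =>
    rw [Finset.sum_range_succ, Finset.sum_range_succ]
    have hFm : Measurable fun ω : ℕ → S → ℝ => M.mf X (sc v ω) (n0 + n + 1) z :=
      (measurable_pi_apply z).comp (mfh2_meas_F M v X (n0 + n + 1))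
    -- one step
    have h1 : ∫⁻ ω, ENNReal.ofReal (M.RR (M.mf X (sc v ω) (n0 + n + 1)) z -
        M.mf X (sc v ω) (n0 + n + 1) z) ∂(PI (nz S)) +
        ∫⁻ ω, ENNReal.ofReal (-(M.RR (M.mf X (sc v ω) (n0 + (n + 1))) z)) ∂(PI (nz S)) =
        ∫⁻ ω, ENNReal.ofReal (-(M.mf X (sc v ω) (n0 + n + 1) z)) ∂(PI (nz S)) := by
      have hm1 : Measurable fun ω : ℕ → S → ℝ => ENNReal.ofReal
          (M.RR (M.mf X (sc v ω) (n0 + n + 1)) z - M.mf X (sc v ω) (n0 + n + 1) z) :=
        ((hRm _).sub hFm).ennreal_ofReal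
      rw [← lintegral_add_left hm1]
      refine lintegral_congr fun ω => ?_
      have a1 := self_le_RR M (M.mf X (sc v ω) (n0 + n + 1)) z
      have a2 := hR0 ω (n0 + n + 1)
      rw [← add_assoc n0 n 1, ← ENNReal.ofReal_add (by linarith) (by linarith)]
      congr 1
      ring
    have h2 : ∫⁻ ω, ENNReal.ofReal (-(M.mf X (sc v ω) (n0 + n + 1) z)) ∂(PI (nz S)) =
        ∫⁻ ω, ENNReal.ofReal (-(M.RR (M.mf X (sc v ω) (n0 + n)) z)) ∂(PI (nz S)) +
        ∫⁻ ω, ENNReal.ofReal (M.RR (M.mf X (sc v ω) (n0 + n)) z + sc v ω (n0 + n) z)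
          ∂(PI (nz S)) := by
      have e1 : ∫⁻ ω, ENNReal.ofReal (-(M.mf X (sc v ω) (n0 + n + 1) z)) ∂(PI (nz S)) =
          ∫⁻ a, ∫⁻ c, ENNReal.ofReal (-(M.RR (M.mf X (sc v a) (n0 + n)) z + Real.sqrt v * c z))
            ∂(nz S) ∂(PI (nz S)) := by
        rw [← mfh2_step (nz S) (n0 + n) (fun a c =>
          ENNReal.ofReal (-(M.RR (M.mf X (sc v a) (n0 + n)) z + Real.sqrt v * c z)))]
        · refine lintegral_congr fun ω => ?_
          have e : M.mf X (sc v ω) (n0 + n + 1) z =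
              min 0 (M.RR (M.mf X (sc v ω) (n0 + n)) z + Real.sqrt v * ω (n0 + n) z) := rfl
          rw [e]
          rcases le_total 0 (M.RR (M.mf X (sc v ω) (n0 + n)) z + Real.sqrt v * ω (n0 + n) z)
            with h | h
          · rw [min_eq_left h, neg_zero, ENNReal.ofReal_zero,
              ENNReal.ofReal_of_nonpos (by linarith)]
          · rw [min_eq_right h]
        · exact (((hRm (n0 + n)).comp measurable_fst).add
            (((measurable_pi_apply z).comp measurable_snd).const_mul _)).neg.ennreal_ofReal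
        · intro c a b hab
          simp only
          rw [mfh2_dep M v X (n0 + n) a b hab (n0 + n) le_rfl]
      have e2 : ∫⁻ ω, ENNReal.ofReal (M.RR (M.mf X (sc v ω) (n0 + n)) z + sc v ω (n0 + n) z)
            ∂(PI (nz S)) =
          ∫⁻ a, ∫⁻ c, ENNReal.ofReal (M.RR (M.mf X (sc v a) (n0 + n)) z + Real.sqrt v * c z)
            ∂(nz S) ∂(PI (nz S)) := by
        rw [← mfh2_step (nz S) (n0 + n) (fun a c =>
          ENNReal.ofReal (M.RR (M.mf X (sc v a) (n0 + n)) z + Real.sqrt v * c z))]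
        · rfl
        · exact (((hRm (n0 + n)).comp measurable_fst).add
            (((measurable_pi_apply z).comp measurable_snd).const_mul _)).ennreal_ofReal
        · intro c a b hab
          simp only
          rw [mfh2_dep M v X (n0 + n) a b hab (n0 + n) le_rfl]
      have hm2 : Measurable fun ω : ℕ → S → ℝ => ENNReal.ofReal
          (-(M.RR (M.mf X (sc v ω) (n0 + n)) z)) := (hRm _).neg.ennreal_ofReal
      rw [e1, e2, ← lintegral_add_left hm2]
      refine lintegral_congr fun a => ?_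
      exact mfh2_lift1 v _ (hR0 a _) z
    calc _ = ∑ j ∈ Finset.range n, ∫⁻ ω, ENNReal.ofReal (M.RR (M.mf X (sc v ω) (n0 + j + 1)) z -
        M.mf X (sc v ω) (n0 + j + 1) z) ∂(PI (nz S)) +
        (∫⁻ ω, ENNReal.ofReal (M.RR (M.mf X (sc v ω) (n0 + n + 1)) z -
        M.mf X (sc v ω) (n0 + n + 1) z) ∂(PI (nz S)) +
        ∫⁻ ω, ENNReal.ofReal (-(M.RR (M.mf X (sc v ω) (n0 + (n + 1))) z)) ∂(PI (nz S))) := by
          rw [add_assoc]
      _ = (∑ j ∈ Finset.range n, ∫⁻ ω, ENNReal.ofReal (M.RR (M.mf X (sc v ω) (n0 + j + 1)) z -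
        M.mf X (sc v ω) (n0 + j + 1) z) ∂(PI (nz S)) +
        ∫⁻ ω, ENNReal.ofReal (-(M.RR (M.mf X (sc v ω) (n0 + n)) z)) ∂(PI (nz S))) +
        ∫⁻ ω, ENNReal.ofReal (M.RR (M.mf X (sc v ω) (n0 + n)) z + sc v ω (n0 + n) z)
          ∂(PI (nz S)) := by
          rw [h1, h2, add_assoc]
      _ ≤ _ := by
          rw [← add_assoc]
          gcongr

/-- telescoping step -/
private theorem mfh2_tel (v κ : ℝ) (hv : 0 < v) (hκ : 0 < κ) (hκ6 : κ ≤ 1 / 6)
    (hvC : v ≤ κ ^ 2 / 80) (z : S) (hN : ∃ w, w ≠ z) (X : S → ℝ) (hX : ∀ x, X x ≤ 0)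
    (n0 M1 : ℕ) (B : Finset S) (hB : ∀ w, M.dd z w ≤ M1 → w ∈ B) (A : ℕ → Set (ℕ → S → ℝ))
    (hA : ∀ j, A j = {ω | ∀ i, i ≤ j → -(M1 : ℝ) + 2 ≤ M.RR (M.mf X (sc v ω) (n0 + i)) z})
    (Psi : ℕ → ℝ≥0∞) (hPsi : ∀ j, Psi j = ∫⁻ ω, ((A j).indicator (fun ω => ENNReal.ofReal
      (mfh2_phi κ (M.RR (M.mf X (sc v ω) (n0 + j)) z - mfh2_fl M z hN (M.mf X (sc v ω) (n0 + j)))))
        ω + (A j)ᶜ.indicator (fun _ => ENNReal.ofReal (9 * κ ^ 2)) ω) ∂(PI (nz S))) (j : ℕ) :
    Psi j + ENNReal.ofReal (v / 4) * PI (nz S) {ω | ω ∈ A j ∧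
        M.RR (M.mf X (sc v ω) (n0 + j)) z - 3 * κ ≤ mfh2_fl M z hN (M.mf X (sc v ω) (n0 + j))} ≤
      Psi (j + 1) + ENNReal.ofReal (6 * κ) * ∫⁻ ω, ENNReal.ofReal
          (M.RR (M.mf X (sc v ω) (n0 + j + 1)) z - M.mf X (sc v ω) (n0 + j + 1) z) ∂(PI (nz S)) +
        ENNReal.ofReal (12 * κ) * ∑ w ∈ B, ∫⁻ ω, ENNReal.ofReal
          (M.RR (M.mf X (sc v ω) (n0 + j)) w + sc v ω (n0 + j) w) ∂(PI (nz S)) := by
  have hRm : ∀ (x : S) k, Measurable fun ω : ℕ → S → ℝ => M.RR (M.mf X (sc v ω) k) x := fun x k =>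
    (measurable_RR M x).comp (mfh2_meas_F M v X k)
  have hfm : ∀ k, Measurable fun ω : ℕ → S → ℝ => mfh2_fl M z hN (M.mf X (sc v ω) k) := fun k =>
    (mfh2_meas_fl M z hN).comp (mfh2_meas_F M v X k)
  have hAm : ∀ j, MeasurableSet (A j) := by
    intro j
    rw [hA]
    have : {ω : ℕ → S → ℝ | ∀ i, i ≤ j → -(M1 : ℝ) + 2 ≤ M.RR (M.mf X (sc v ω) (n0 + i)) z} =
        ⋂ i, ⋂ (_ : i ≤ j), {ω | -(M1 : ℝ) + 2 ≤ M.RR (M.mf X (sc v ω) (n0 + i)) z} := by
      ext ω; simp
    rw [this]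
    exact MeasurableSet.iInter fun i => MeasurableSet.iInter fun _ =>
      measurableSet_le measurable_const (hRm z _)
  have hphim : Measurable (mfh2_phi κ) := by
    unfold mfh2_phi
    fun_prop
  have hAdep : ∀ a b : ℕ → S → ℝ, (∀ i, i < n0 + j → a i = b i) → (a ∈ A j ↔ b ∈ A j) := by
    intro a b hab
    rw [hA]
    simp only [Set.mem_ofPred_eq]
    refine forall_congr' fun i => forall_congr' fun hi => ?_
    rw [mfh2_dep M v X (n0 + j) a b hab (n0 + i) (by omega)]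
  -- the function of the past and the next increment
  let V : (ℕ → S → ℝ) → (S → ℝ) → ℝ≥0∞ := fun a c =>
    ((A j).indicator (fun a => ENNReal.ofReal (mfh2_phi κ
      (M.RR (M.mst (M.mf X (sc v a) (n0 + j)) (fun x => Real.sqrt v * c x)) z -
        mfh2_fl M z hN (M.mst (M.mf X (sc v a) (n0 + j)) (fun x => Real.sqrt v * c x))))) a +
      (A j)ᶜ.indicator (fun _ => ENNReal.ofReal (9 * κ ^ 2)) a) +
    ENNReal.ofReal (6 * κ) * ENNReal.ofReal
      (M.RR (M.mst (M.mf X (sc v a) (n0 + j)) (fun x => Real.sqrt v * c x)) z -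
        M.mst (M.mf X (sc v a) (n0 + j)) (fun x => Real.sqrt v * c x) z) +
    ENNReal.ofReal (12 * κ) * ∑ w ∈ B, ENNReal.ofReal
      (M.RR (M.mf X (sc v a) (n0 + j)) w + Real.sqrt v * c w)
  have hstm := mfh2_meas_st M v X (n0 + j)
  have hVm : Measurable fun p : (ℕ → S → ℝ) × (S → ℝ) => V p.1 p.2 := by
    have m1 : Measurable fun p : (ℕ → S → ℝ) × (S → ℝ) => ENNReal.ofReal (mfh2_phi κ
      (M.RR (M.mst (M.mf X (sc v p.1) (n0 + j)) (fun x => Real.sqrt v * p.2 x)) z -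
        mfh2_fl M z hN (M.mst (M.mf X (sc v p.1) (n0 + j)) (fun x => Real.sqrt v * p.2 x)))) := by
      have a1 := (measurable_RR M z).comp hstm
      have a2 := (mfh2_meas_fl M z hN).comp hstm
      have a3 := (hphim.comp (a1.sub a2)).ennreal_ofReal
      simpa only [Function.comp_def, Pi.sub_apply] using a3
    have hAf : MeasurableSet {p : (ℕ → S → ℝ) × (S → ℝ) | p.1 ∈ A j} :=
      measurable_fst (hAm j)
    have m2 : Measurable fun p : (ℕ → S → ℝ) × (S → ℝ) => (A j).indicator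
        (fun a => ENNReal.ofReal (mfh2_phi κ
      (M.RR (M.mst (M.mf X (sc v a) (n0 + j)) (fun x => Real.sqrt v * p.2 x)) z -
        mfh2_fl M z hN (M.mst (M.mf X (sc v a) (n0 + j)) (fun x => Real.sqrt v * p.2 x))))) p.1 := by
      have h := m1.indicator hAf
      convert h using 1
      funext p
      by_cases hp : p.1 ∈ A j
      · rw [Set.indicator_of_mem hp,
          Set.indicator_of_mem (show p ∈ {p : (ℕ → S → ℝ) × (S → ℝ) | p.1 ∈ A j} from hp)]
      · rw [Set.indicator_of_notMem hp,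
          Set.indicator_of_notMem (show p ∉ {p : (ℕ → S → ℝ) × (S → ℝ) | p.1 ∈ A j} from hp)]
    have m3 : Measurable fun p : (ℕ → S → ℝ) × (S → ℝ) =>
        (A j)ᶜ.indicator (fun _ => ENNReal.ofReal (9 * κ ^ 2)) p.1 :=
      (measurable_const.indicator (hAm j).compl).comp measurable_fst
    have m4 : Measurable fun p : (ℕ → S → ℝ) × (S → ℝ) => ENNReal.ofReal
      (M.RR (M.mst (M.mf X (sc v p.1) (n0 + j)) (fun x => Real.sqrt v * p.2 x)) z -
        M.mst (M.mf X (sc v p.1) (n0 + j)) (fun x => Real.sqrt v * p.2 x) z) := by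
      have a1 := (measurable_RR M z).comp hstm
      have a2 := (measurable_pi_apply z).comp hstm
      have a3 := (a1.sub a2).ennreal_ofReal
      simpa only [Function.comp_def, Pi.sub_apply] using a3
    have m5 : ∀ w, Measurable fun p : (ℕ → S → ℝ) × (S → ℝ) => ENNReal.ofReal
      (M.RR (M.mf X (sc v p.1) (n0 + j)) w + Real.sqrt v * p.2 w) := by
      intro w
      have a1 : Measurable fun p : (ℕ → S → ℝ) × (S → ℝ) =>
          M.RR (M.mf X (sc v p.1) (n0 + j)) w :=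
        (measurable_RR M w).comp (mfh2_meas_F1 M v X (n0 + j))
      have a2 : Measurable fun p : (ℕ → S → ℝ) × (S → ℝ) => Real.sqrt v * p.2 w := by fun_prop
      exact (a1.add a2).ennreal_ofReal
    exact ((m2.add m3).add (m4.const_mul _)).add
      ((Finset.measurable_sum B fun w _ => m5 w).const_mul _)
  have hVd : ∀ c, Dep (n0 + j) (fun a => V a c) := by
    intro c a b hab
    have e1 := mfh2_dep M v X (n0 + j) a b hab (n0 + j) le_rfl
    have e2 := hAdep a b hab
    simp only [V]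
    by_cases hb : b ∈ A j
    · have ha : a ∈ A j := e2.2 hb
      rw [Set.indicator_of_mem ha, Set.indicator_of_mem hb,
        Set.indicator_of_notMem (by simpa using ha), Set.indicator_of_notMem (by simpa using hb), e1]
    · have ha : a ∉ A j := fun h => hb (e2.1 h)
      rw [Set.indicator_of_notMem ha, Set.indicator_of_notMem hb,
        Set.indicator_of_mem (show a ∈ (A j)ᶜ from ha), Set.indicator_of_mem (show b ∈ (A j)ᶜ from hb), e1]
  have hstep := mfh2_step (nz S) (n0 + j) V hVm hVd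
  -- lower bound
  have hlow : Psi j + ENNReal.ofReal (v / 4) * PI (nz S) {ω | ω ∈ A j ∧
        M.RR (M.mf X (sc v ω) (n0 + j)) z - 3 * κ ≤ mfh2_fl M z hN (M.mf X (sc v ω) (n0 + j))} ≤
      ∫⁻ a, ∫⁻ c, V a c ∂(nz S) ∂(PI (nz S)) := by
    have mE : MeasurableSet {ω : ℕ → S → ℝ | ω ∈ A j ∧
        M.RR (M.mf X (sc v ω) (n0 + j)) z - 3 * κ ≤
          mfh2_fl M z hN (M.mf X (sc v ω) (n0 + j))} :=
      (hAm j).inter (measurableSet_le ((hRm z _).sub measurable_const) (hfm _))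
    have mP : Measurable fun ω : ℕ → S → ℝ => ENNReal.ofReal
      (mfh2_phi κ (M.RR (M.mf X (sc v ω) (n0 + j)) z -
        mfh2_fl M z hN (M.mf X (sc v ω) (n0 + j)))) :=
      (hphim.comp ((hRm z _).sub (hfm _))).ennreal_ofReal
    have mPs : Measurable fun ω => ((A j).indicator (fun ω => ENNReal.ofReal
      (mfh2_phi κ (M.RR (M.mf X (sc v ω) (n0 + j)) z - mfh2_fl M z hN (M.mf X (sc v ω) (n0 + j)))))
        ω + (A j)ᶜ.indicator (fun _ => ENNReal.ofReal (9 * κ ^ 2)) ω) :=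
      (mP.indicator (hAm j)).add (measurable_const.indicator (hAm j).compl)
    rw [hPsi, ← lintegral_indicator_const mE, ← lintegral_add_left mPs]
    refine lintegral_mono fun a => ?_
    simp only
    by_cases ha : a ∈ A j
    · rw [Set.indicator_of_mem ha, Set.indicator_of_notMem (by simpa using ha), add_zero]
      have ha' := ha
      rw [hA] at ha'
      have hr : -(M1 : ℝ) + 2 ≤ M.RR (M.mf X (sc v a) (n0 + j)) z := ha' j le_rfl
      by_cases hD : M.RR (M.mf X (sc v a) (n0 + j)) z - 3 * κ ≤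
          mfh2_fl M z hN (M.mf X (sc v a) (n0 + j))
      · rw [Set.indicator_of_mem (show a ∈ {ω : ℕ → S → ℝ | ω ∈ A j ∧
          M.RR (M.mf X (sc v ω) (n0 + j)) z - 3 * κ ≤
          mfh2_fl M z hN (M.mf X (sc v ω) (n0 + j))} from ⟨ha, hD⟩)]
        refine (mfh2_one M v κ hv hκ hκ6 hvC z hN (M.mf X (sc v a) (n0 + j))
          (fun x => mf_nonpos M X hX _ _ x) M1 hr hD B hB).trans ?_
        refine lintegral_mono fun c => ?_
        simp only [V]
        rw [Set.indicator_of_mem ha, Set.indicator_of_notMem (by simpa using ha), add_zero]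
      · rw [Set.indicator_of_notMem (fun h => hD h.2)]
        have e0 : mfh2_phi κ (M.RR (M.mf X (sc v a) (n0 + j)) z -
            mfh2_fl M z hN (M.mf X (sc v a) (n0 + j))) = 0 := by
          unfold mfh2_phi
          rw [max_eq_left (by linarith [not_le.1 hD]), zero_pow two_ne_zero]
        rw [e0]
        simp
    · rw [Set.indicator_of_notMem ha, Set.indicator_of_mem (show a ∈ (A j)ᶜ from ha),
        Set.indicator_of_notMem (fun h => ha h.1), zero_add, add_zero]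
      have : ∀ c, ENNReal.ofReal (9 * κ ^ 2) ≤ V a c := by
        intro c
        simp only [V]
        rw [Set.indicator_of_notMem ha, Set.indicator_of_mem (show a ∈ (A j)ᶜ from ha), zero_add,
          add_assoc]
        exact le_self_add
      calc ENNReal.ofReal (9 * κ ^ 2) = ∫⁻ _c, ENNReal.ofReal (9 * κ ^ 2) ∂(nz S) := by simp
        _ ≤ _ := lintegral_mono this
  -- upper bound
  have hup : ∫⁻ ω, V ω (ω (n0 + j)) ∂(PI (nz S)) ≤
      Psi (j + 1) + ENNReal.ofReal (6 * κ) * ∫⁻ ω, ENNReal.ofReal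
          (M.RR (M.mf X (sc v ω) (n0 + j + 1)) z - M.mf X (sc v ω) (n0 + j + 1) z) ∂(PI (nz S)) +
        ENNReal.ofReal (12 * κ) * ∑ w ∈ B, ∫⁻ ω, ENNReal.ofReal
          (M.RR (M.mf X (sc v ω) (n0 + j)) w + sc v ω (n0 + j) w) ∂(PI (nz S)) := by
    have q1 : ∀ ω : ℕ → S → ℝ, M.mst (M.mf X (sc v ω) (n0 + j))
        (fun x => Real.sqrt v * ω (n0 + j) x) = M.mf X (sc v ω) (n0 + j + 1) := fun ω => rfl
    have q2 : ∀ (ω : ℕ → S → ℝ) w, sc v ω (n0 + j) w = Real.sqrt v * ω (n0 + j) w :=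
      fun ω w => rfl
    have mP : Measurable fun ω : ℕ → S → ℝ => ENNReal.ofReal
      (mfh2_phi κ (M.RR (M.mf X (sc v ω) (n0 + (j + 1))) z -
        mfh2_fl M z hN (M.mf X (sc v ω) (n0 + (j + 1))))) :=
      (hphim.comp ((hRm z _).sub (hfm _))).ennreal_ofReal
    have mPs : Measurable fun ω => ((A (j + 1)).indicator (fun ω => ENNReal.ofReal
      (mfh2_phi κ (M.RR (M.mf X (sc v ω) (n0 + (j + 1))) z -
        mfh2_fl M z hN (M.mf X (sc v ω) (n0 + (j + 1))))))
        ω + (A (j + 1))ᶜ.indicator (fun _ => ENNReal.ofReal (9 * κ ^ 2)) ω) :=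
      (mP.indicator (hAm (j + 1))).add (measurable_const.indicator (hAm (j + 1)).compl)
    have mL : Measurable fun ω : ℕ → S → ℝ => ENNReal.ofReal
          (M.RR (M.mf X (sc v ω) (n0 + j + 1)) z - M.mf X (sc v ω) (n0 + j + 1) z) := by
      have a2 : Measurable fun ω : ℕ → S → ℝ => M.mf X (sc v ω) (n0 + j + 1) z := by
        have := (measurable_pi_apply z).comp (mfh2_meas_F M v X (n0 + j + 1))
        simpa only [Function.comp_def] using this
      exact ((hRm z _).sub a2).ennreal_ofReal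
    have mC : ∀ w, Measurable fun ω : ℕ → S → ℝ => ENNReal.ofReal
          (M.RR (M.mf X (sc v ω) (n0 + j)) w + sc v ω (n0 + j) w) := by
      intro w
      simp only [q2]
      have a2 : Measurable fun ω : ℕ → S → ℝ => Real.sqrt v * ω (n0 + j) w := by fun_prop
      exact ((hRm w _).add a2).ennreal_ofReal
    have mQ : Measurable fun ω : ℕ → S → ℝ => ENNReal.ofReal (12 * κ) * ∑ w ∈ B, ENNReal.ofReal
          (M.RR (M.mf X (sc v ω) (n0 + j)) w + sc v ω (n0 + j) w) :=
      (Finset.measurable_sum B fun w _ => mC w).const_mul _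
    rw [hPsi, ← lintegral_finsetSum _ (fun w _ => mC w), ← lintegral_const_mul _ mL,
      ← lintegral_const_mul _ (Finset.measurable_sum B fun w _ => mC w),
      ← lintegral_add_left mPs, ← lintegral_add_right _ mQ]
    refine lintegral_mono fun ω => ?_
    simp only [V, q1, q2]
    gcongr ?_ + _ + _
    by_cases ha : ω ∈ A j
    · rw [Set.indicator_of_mem ha, Set.indicator_of_notMem (show ω ∉ (A j)ᶜ by simpa using ha),
        add_zero]
      by_cases hb : ω ∈ A (j + 1)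
      · rw [Set.indicator_of_mem hb, Set.indicator_of_notMem (show ω ∉ (A (j + 1))ᶜ by simpa using hb),
          add_zero]
        exact le_rfl
      · rw [Set.indicator_of_notMem hb, Set.indicator_of_mem (show ω ∈ (A (j + 1))ᶜ from hb),
          zero_add]
        apply ENNReal.ofReal_le_ofReal
        apply mfh2_phi_le κ hκ
        exact sub_nonneg.2 (mfh2_fl_le M z hN _)
    · have hb : ω ∉ A (j + 1) := by
        intro h
        apply ha
        rw [hA] at h ⊢
        exact fun i hi => h i (by omega)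
      rw [Set.indicator_of_notMem ha, Set.indicator_of_mem (show ω ∈ (A j)ᶜ from ha),
        Set.indicator_of_notMem hb, Set.indicator_of_mem (show ω ∈ (A (j + 1))ᶜ from hb)]
  rw [hstep] at hup
  exact hlow.trans hup

theorem floor_occ : ∃ C : ℝ, 1 ≤ C ∧ ∀ (S : Type) [Fintype S] (D : ℕ) (M : MSet S D) (v κ : ℝ),
    0 < v → 0 < κ → κ ≤ 1 / 6 → v ≤ κ ^ 2 / C → ∀ (X : S → ℝ), (∀ y, X y ≤ 0) →
    ∀ (n0 n M1 : ℕ) (z : S) (E0 : ℝ), 0 ≤ E0 →
    (∫⁻ ω, ENNReal.ofReal (-(M.RR (M.mf X (sc v ω) n0) z)) ∂(PI (nz S)) ≤ ENNReal.ofReal E0) →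
    ∑ j ∈ Finset.range n, PI (nz S) {ω | (∀ i, i ≤ j →
          -(M1 : ℝ) + 2 ≤ M.RR (M.mf X (sc v ω) (n0 + i)) z) ∧
        ((M.RR (M.mf X (sc v ω) (n0 + j)) z - 3 * κ : ℝ) : WithBot ℝ) ≤
          flr M (M.mf X (sc v ω) (n0 + j)) z}
      ≤ ENNReal.ofReal (C * κ * (E0 + (2 * M1 + 1) ^ D * (1 + n * v)) / v) := by
  refine ⟨80, by norm_num, ?_⟩
  intro S _ D M v κ hv hκ hκ6 hvC X hX n0 n M1 z E0 hE0 hE
  classical
  by_cases hN : ∃ w, w ≠ z
  swap
  · -- no other point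
    have h0 : ∀ j, {ω : ℕ → S → ℝ | (∀ i, i ≤ j →
          -(M1 : ℝ) + 2 ≤ M.RR (M.mf X (sc v ω) (n0 + i)) z) ∧
        ((M.RR (M.mf X (sc v ω) (n0 + j)) z - 3 * κ : ℝ) : WithBot ℝ) ≤
          flr M (M.mf X (sc v ω) (n0 + j)) z} = ∅ := by
      intro j
      ext ω
      simp only [Set.mem_ofPred_eq, Set.mem_empty_iff_false, iff_false, not_and]
      intro _ h
      have e : flr M (M.mf X (sc v ω) (n0 + j)) z = ⊥ := by
        unfold flr
        have : (Finset.univ.filter fun z' : S => z' ≠ z) = ∅ := by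
          apply Finset.filter_eq_empty_iff.2
          intro w _ hw
          exact hN ⟨w, hw⟩
        rw [this, Finset.sup_empty]
      rw [e] at h
      exact absurd h (by simp)
    simp only [h0, measure_empty, Finset.sum_const_zero]
    exact zero_le
  -- the ball
  set B : Finset S := Finset.univ.filter fun w => M.dd z w ≤ M1 with hBdef
  have hB : ∀ w, M.dd z w ≤ M1 → w ∈ B := fun w hw => by simp [hBdef, hw]
  have hBc : B.card ≤ (2 * M1 + 1) ^ D := M.growth z M1 B fun y hy => by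
    simpa [hBdef] using hy
  let A : ℕ → Set (ℕ → S → ℝ) := fun j =>
    {ω | ∀ i, i ≤ j → -(M1 : ℝ) + 2 ≤ M.RR (M.mf X (sc v ω) (n0 + i)) z}
  let Psi : ℕ → ℝ≥0∞ := fun j => ∫⁻ ω, ((A j).indicator (fun ω => ENNReal.ofReal
      (mfh2_phi κ (M.RR (M.mf X (sc v ω) (n0 + j)) z - mfh2_fl M z hN (M.mf X (sc v ω) (n0 + j)))))
        ω + (A j)ᶜ.indicator (fun _ => ENNReal.ofReal (9 * κ ^ 2)) ω) ∂(PI (nz S))
  let P : ℕ → ℝ≥0∞ := fun j => PI (nz S) {ω | ω ∈ A j ∧
        M.RR (M.mf X (sc v ω) (n0 + j)) z - 3 * κ ≤ mfh2_fl M z hN (M.mf X (sc v ω) (n0 + j))}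
  let L : ℕ → ℝ≥0∞ := fun j => ∫⁻ ω, ENNReal.ofReal
          (M.RR (M.mf X (sc v ω) (n0 + j + 1)) z - M.mf X (sc v ω) (n0 + j + 1) z) ∂(PI (nz S))
  let Q : ℕ → S → ℝ≥0∞ := fun j w => ∫⁻ ω, ENNReal.ofReal
          (M.RR (M.mf X (sc v ω) (n0 + j)) w + sc v ω (n0 + j) w) ∂(PI (nz S))
  have hset : ∀ j, PI (nz S) {ω : ℕ → S → ℝ | (∀ i, i ≤ j →
          -(M1 : ℝ) + 2 ≤ M.RR (M.mf X (sc v ω) (n0 + i)) z) ∧
        ((M.RR (M.mf X (sc v ω) (n0 + j)) z - 3 * κ : ℝ) : WithBot ℝ) ≤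
          flr M (M.mf X (sc v ω) (n0 + j)) z} = P j := by
    intro j
    congr 1
    ext ω
    simp only [Set.mem_ofPred_eq, A]
    rw [mfh2_flr M z hN]
  simp only [hset]
  have hstep : ∀ j, Psi j + ENNReal.ofReal (v / 4) * P j ≤ Psi (j + 1) +
      ENNReal.ofReal (6 * κ) * L j + ENNReal.ofReal (12 * κ) * ∑ w ∈ B, Q j w := fun j =>
    mfh2_tel M v κ hv hκ hκ6 hvC z hN X hX n0 M1 B hB A (fun _ => rfl) Psi (fun _ => rfl) j
  have htel : ∀ n, ENNReal.ofReal (v / 4) * ∑ j ∈ Finset.range n, P j ≤ Psi n +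
      ENNReal.ofReal (6 * κ) * ∑ j ∈ Finset.range n, L j +
      ENNReal.ofReal (12 * κ) * ∑ j ∈ Finset.range n, ∑ w ∈ B, Q j w := by
    intro n
    induction n with
    | zero => simp
    | succ n ih =>
      rw [Finset.sum_range_succ, Finset.sum_range_succ, Finset.sum_range_succ, mul_add, mul_add,
        mul_add]
      calc ENNReal.ofReal (v / 4) * ∑ j ∈ Finset.range n, P j + ENNReal.ofReal (v / 4) * P n
          ≤ (Psi n + ENNReal.ofReal (6 * κ) * ∑ j ∈ Finset.range n, L j +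
            ENNReal.ofReal (12 * κ) * ∑ j ∈ Finset.range n, ∑ w ∈ B, Q j w) +
            ENNReal.ofReal (v / 4) * P n := by gcongr
        _ = (Psi n + ENNReal.ofReal (v / 4) * P n) +
            (ENNReal.ofReal (6 * κ) * ∑ j ∈ Finset.range n, L j +
            ENNReal.ofReal (12 * κ) * ∑ j ∈ Finset.range n, ∑ w ∈ B, Q j w) := by ring
        _ ≤ (Psi (n + 1) + ENNReal.ofReal (6 * κ) * L n +
            ENNReal.ofReal (12 * κ) * ∑ w ∈ B, Q n w) +
            (ENNReal.ofReal (6 * κ) * ∑ j ∈ Finset.range n, L j +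
            ENNReal.ofReal (12 * κ) * ∑ j ∈ Finset.range n, ∑ w ∈ B, Q j w) := by
            exact add_le_add (hstep n) le_rfl
        _ = _ := by ring
  -- bounds
  have hPsi : Psi n ≤ ENNReal.ofReal (9 * κ ^ 2) := by
    calc Psi n ≤ ∫⁻ _ω, ENNReal.ofReal (9 * κ ^ 2) ∂(PI (nz S)) := by
          refine lintegral_mono fun ω => ?_
          simp only
          by_cases ha : ω ∈ A n
          · rw [Set.indicator_of_mem ha,
              Set.indicator_of_notMem (show ω ∉ (A n)ᶜ by simpa using ha), add_zero]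
            apply ENNReal.ofReal_le_ofReal
            apply mfh2_phi_le κ hκ
            have := mfh2_fl_le M z hN (M.mf X (sc v ω) (n0 + n))
            linarith
          · rw [Set.indicator_of_notMem ha, Set.indicator_of_mem (show ω ∈ (A n)ᶜ from ha),
              zero_add]
      _ = ENNReal.ofReal (9 * κ ^ 2) := by simp
  have hQ : ∀ w, ∑ j ∈ Finset.range n, Q j w ≤ ENNReal.ofReal (1 / 4 + n * v) := fun w =>
    caps_exp M v hv X hX n0 n w
  have hL : ∑ j ∈ Finset.range n, L j ≤ ENNReal.ofReal (E0 + (1 / 4 + n * v)) := by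
    have h := mfh2_lifts M v X hX n0 n z
    rw [ENNReal.ofReal_add hE0 (by positivity)]
    calc ∑ j ∈ Finset.range n, L j ≤ _ := le_trans le_self_add h
      _ ≤ _ := add_le_add hE (hQ z)
  have hQQ : ∑ j ∈ Finset.range n, ∑ w ∈ B, Q j w ≤
      ENNReal.ofReal ((2 * M1 + 1) ^ D * (1 / 4 + n * v)) := by
    rw [Finset.sum_comm]
    calc ∑ w ∈ B, ∑ j ∈ Finset.range n, Q j w ≤ ∑ _w ∈ B, ENNReal.ofReal (1 / 4 + n * v) :=
          Finset.sum_le_sum fun w _ => hQ w
      _ = (B.card : ℝ≥0∞) * ENNReal.ofReal (1 / 4 + n * v) := by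
          rw [Finset.sum_const, nsmul_eq_mul]
      _ ≤ (((2 * M1 + 1) ^ D : ℕ) : ℝ≥0∞) * ENNReal.ofReal (1 / 4 + n * v) := by
          gcongr
      _ = ENNReal.ofReal ((2 * M1 + 1) ^ D * (1 / 4 + n * v)) := by
          rw [ENNReal.ofReal_mul (by positivity), ← ENNReal.ofReal_natCast]
          push_cast
          rfl
  have hv4 : 0 < v / 4 := by positivity
  have htot : ENNReal.ofReal (v / 4) * ∑ j ∈ Finset.range n, P j ≤
      ENNReal.ofReal (9 * κ ^ 2 + 6 * κ * (E0 + (1 / 4 + n * v)) +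
        12 * κ * ((2 * M1 + 1) ^ D * (1 / 4 + n * v))) := by
    rw [ENNReal.ofReal_add (by positivity) (by positivity),
      ENNReal.ofReal_add (by positivity) (by positivity),
      ENNReal.ofReal_mul (show (0 : ℝ) ≤ 6 * κ by positivity),
      ENNReal.ofReal_mul (show (0 : ℝ) ≤ 12 * κ by positivity)]
    refine (htel n).trans ?_
    gcongr
  have hfin : ∑ j ∈ Finset.range n, P j ≤ ENNReal.ofReal ((9 * κ ^ 2 +
      6 * κ * (E0 + (1 / 4 + n * v)) + 12 * κ * ((2 * M1 + 1) ^ D * (1 / 4 + n * v))) / (v / 4)) := by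
    rw [ENNReal.ofReal_div_of_pos hv4]
    rw [ENNReal.le_div_iff_mul_le (Or.inl (by simpa using hv4)) (Or.inl ENNReal.ofReal_ne_top),
      mul_comm]
    exact htot
  refine hfin.trans (ENNReal.ofReal_le_ofReal ?_)
  rw [div_le_div_iff₀ hv4 hv]
  have hG : (1 : ℝ) ≤ (2 * (M1 : ℝ) + 1) ^ D := by
    apply one_le_pow₀
    have : (0 : ℝ) ≤ M1 := Nat.cast_nonneg _
    linarith
  have hnv : 0 ≤ (n : ℝ) * v := by positivity
  have key : 9 * κ ^ 2 + 6 * κ * (E0 + (1 / 4 + n * v)) +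
      12 * κ * ((2 * M1 + 1) ^ D * (1 / 4 + n * v)) ≤
      20 * κ * (E0 + (2 * M1 + 1) ^ D * (1 + n * v)) := by
    have h1 : 9 * κ ^ 2 ≤ 3 / 2 * κ := by nlinarith
    have h2 : 9 * κ + 6 * (E0 + (1 / 4 + n * v)) + 12 * ((2 * (M1 : ℝ) + 1) ^ D * (1 / 4 + n * v)) ≤
        20 * (E0 + (2 * (M1 : ℝ) + 1) ^ D * (1 + n * v)) := by
      have h3 : (n : ℝ) * v ≤ (2 * (M1 : ℝ) + 1) ^ D * (n * v) := by nlinarith
      nlinarith
    nlinarith [mul_le_mul_of_nonneg_left h2 hκ.le]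
  have := mul_le_mul_of_nonneg_right key hv.le
  nlinarith

end DynC
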