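import Pool.Agent.Lib_MP_36b788c.MFh2

/-!
# Height model: gaps (no site close to the top or to its floor, for most times)

`r_j = RR F_j`, `cap_j(z) = (r_j(z) + g_j(z))^+`, `fl_j(z) = max_{z' ≠ z} (r_j(z') - dd z z')`, `Δ_j(z) = r_j(z) - fl_j(z) ≥ 0`.

PROOF.
* `caps_exp`: `φ2(r) = ((r+1/2)^+)²`. `r_{j+1}(z) = F_{j+1}(z)` or both are `≤ -1`, so `φ2(r_{j+1}) = φ2(F_{j+1})`, `F_{j+1} = min 0 (r_j + g)`; `φ2(r+g) - φ2(min 0 (r+g)) = cap² + cap ≥ cap`,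
  `E φ2(r + g) ≤ φ2(r) + v`. Sum: `E Σ_j cap_j ≤ 1/4 + n v`.
* `top_occ`: `φ(r) = ((r+3κ)^+)²`, `κ ≤ 1/6`. If `r_j < -3κ`: `φ(r_{j+1}) ≥ 0 = φ(r_j)`. If `r_j ≥ -3κ`, `y = r_j + 3κ ∈ [0,3κ]`:
  `E φ(r_j + g) = y² + v - E((y+g)^-)²`, cap loss `φ(r+g) - φ(min 0 (r+g)) = cap² + 6κ cap`. `E((y+g)^-)² ≤ v/2`, `E cap² ≤ v/2`, and one of them is `≤ v/8` when `v ≤ κ²/C`
  (`y ≥ 3κ/2` or `r_j ≤ -3κ/2`, Gaussian tail). So `E φ(r_{j+1}) ≥ E φ(r_j) + (v/4) P(r_j ≥ -3κ) - 6κ E cap_j`. Sum.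
* `floor_occ`: `z*` = maximizer in `fl_j(z)`. `lift_{j+1}(z) = r_{j+1}(z) - F_{j+1}(z)`; if it is positive then `r_{j+1}(z) = F_{j+1}(z') - dd z z' ≤ fl_{j+1}(z)`, so `Δ_{j+1} = 0`.
  Without lift `Δ_{j+1} ≤ D0 + cap_j(z*)`, `D0 = Δ_j + g(z) - g(z*)` (`r_{j+1}(z*) ≥ F_{j+1}(z*) = r_j(z*) + g(z*) - cap`). With `φ(Δ) = ((3κ-Δ)^+)²`:
  `φ(Δ_{j+1}) ≥ φ((D0 + cap)^+) ≥ φ(D0^+) - 6κ cap`, `φ(D0^+) = φ(D0) - 6κ D0^- - (D0^-)²`. For `Δ_j ≤ 3κ`: `E φ(D0) - E (D0^-)² ≥ φ(Δ_j) + v/4` (variance `2v`, as above).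
  For `Δ_j > 3κ` use `φ(Δ_{j+1}) ≥ 0 = φ(Δ_j)`. Moreover `D0^- ≤ lift_{j+1}(z) + cap_j(z*)`. On `{τ > j}` (`r_i(z) ≥ -M1 + 2` for all `i ≤ j`) and `Δ_j ≤ 3κ`: `fl_j ≥ -M1+1`, so
  `dd z z* ≤ M1`, and `cap_j(z*) ≤ Σ_{dd z z' ≤ M1} cap_j(z')`. Stop the telescoping sum at `τ`. `E Σ lift(z) ≤ E(-r_{n0}(z)) + E Σ cap(z)` (`r_{j+1} = r_j + g - cap + lift`).
* `gap_occ`: if `F_j(z) < F_j(z') - dd z z' + 3κ` for some `z' ≠ z`, take for `z'` the maximizer over `z' ≠ z`: then `r_j(z') = F_j(z')` (otherwise `r_j(z')` comes from `z` itself, and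
  `F_j(z') - dd < F_j(z) - 2`), hence `Δ_j(z) ≤ 3κ`. Union over `z` in the ball. `E(-r_{n0}(z)) ≤ Ke + s + C √(n0 v + 1)` (`mf_stay`, `osc_exp_nz`); `P(τ ≤ ·)` from `mf_stay` and `osc_tail_nz`.
-/

open MeasureTheory ProbabilityTheory
open scoped ENNReal

namespace DynC

variable {S : Type} [Fintype S] {D : ℕ} (M : MSet S D)

private theorem MFh3_stay (X : S → ℝ) (g : ℕ → S → ℝ) (m : ℕ) (hm : 1 ≤ m) (z : S) (Ke : ℝ)
    (hKe : 0 ≤ Ke) (hX : -Ke ≤ X z) :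
    -Ke - osc (fun j => g j z) m ≤ M.RR (M.mf X g m) z := by
  have h1 := mf_stay M X g m hm z (osc (fun j => g j z) m) (osc_nonneg _ _) (by
    intro i hi
    have h2 := sum_le_osc (fun j => g j z) hi le_rfl
    exact (abs_le.1 h2).1)
  have h3 := self_le_RR M (M.mf X g m) z
  have h4 := self_le_RR M X z
  have h5 : -Ke ≤ min 0 (M.RR X z) := le_min (by linarith) (by linarith)
  linarith

private theorem MFh3_notgap (κ : ℝ) (hκ : 0 < κ) (F : S → ℝ) (z : S) (h : ¬ Gap M κ F z) :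
    -(3 * κ) ≤ M.RR F z ∨ ((M.RR F z - 3 * κ : ℝ) : WithBot ℝ) ≤ flr M F z := by
  classical
  by_cases h1 : F z ≤ -(3 * κ)
  · right
    have h2 : ∃ z', z' ≠ z ∧ F z < F z' - M.dd z z' + 3 * κ := by
      by_contra hcon
      push Not at hcon
      exact h ⟨h1, hcon⟩
    obtain ⟨z', hz', hlt⟩ := h2
    obtain ⟨z0, hz0, hmax⟩ := Finset.exists_max_image (Finset.univ.filter fun w => w ≠ z)
      (fun w => F w - (M.dd z w : ℝ)) ⟨z', by simp [hz']⟩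
    have hz0' : z0 ≠ z := (Finset.mem_filter.1 hz0).2
    have h3 : F z' - M.dd z z' ≤ F z0 - M.dd z z0 := hmax z' (by simp [hz'])
    have h4 : M.RR F z ≤ F z0 - M.dd z z0 + 3 * κ := by
      refine RR_le M F z _ fun w => ?_
      by_cases hw : w = z
      · subst hw
        rw [M.dd_self]
        simp only [Nat.cast_zero, sub_zero]
        linarith
      · have h5 : F w - M.dd z w ≤ F z0 - M.dd z z0 := hmax w (by simp [hw])
        linarith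
    have h6 := self_le_RR M F z0
    have h7 : (M.RR F z - 3 * κ : ℝ) ≤ M.RR F z0 - M.dd z z0 := by linarith
    refine le_trans (WithBot.coe_le_coe.2 h7) ?_
    unfold flr
    refine Finset.le_sup (f := fun z' => ((M.RR F z' - M.dd z z' : ℝ) : WithBot ℝ)) ?_
    simp [hz0']
  · left
    have h2 := self_le_RR M F z
    push Not at h1
    linarith

private theorem MFh3_E0 (v : ℝ) (hv : 0 < v) (X : S → ℝ) (n0 : ℕ) (hn0 : 1 ≤ n0) (z : S) (Ke : ℝ)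
    (hKe : 0 ≤ Ke) (hX : -Ke ≤ X z) :
    ∫⁻ ω, ENNReal.ofReal (-(M.RR (M.mf X (sc v ω) n0) z)) ∂(PI (nz S)) ≤
      ENNReal.ofReal (Ke + 4 + 8 * v * n0) := by
  have hvn : 0 ≤ 8 * v * n0 := by positivity
  have h1 : ∀ ω : ℕ → S → ℝ, ENNReal.ofReal (-(M.RR (M.mf X (sc v ω) n0) z)) ≤
      ENNReal.ofReal (Ke + 8 * v * n0) + ENNReal.ofReal (Real.exp (-(8 * v * n0))) *
        ENNReal.ofReal (Real.exp (1 * osc (fun j => sc v ω j z) n0)) := by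
    intro ω
    rw [← ENNReal.ofReal_mul (Real.exp_pos _).le, ← Real.exp_add,
      ← ENNReal.ofReal_add (by positivity) (Real.exp_pos _).le]
    refine ENNReal.ofReal_le_ofReal ?_
    have h2 := MFh3_stay M X (sc v ω) n0 hn0 z Ke hKe hX
    have h3 := Real.add_one_le_exp (-(8 * v * n0) + 1 * osc (fun j => sc v ω j z) n0)
    linarith
  refine (lintegral_mono h1).trans ?_
  rw [lintegral_add_left measurable_const, lintegral_const_mul' _ _ ENNReal.ofReal_ne_top,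
    lintegral_const, measure_univ, mul_one]
  have h4 := osc_exp_nz 1 v zero_le_one hv.le n0 z
  refine (add_le_add le_rfl (mul_le_mul' le_rfl h4)).trans ?_
  rw [← ENNReal.ofReal_mul (Real.exp_pos _).le,
    ← ENNReal.ofReal_add (by positivity) (by positivity)]
  refine ENNReal.ofReal_le_ofReal (le_of_eq ?_)
  have h5 : Real.exp (-(8 * v * n0)) * (4 * Real.exp (8 * 1 ^ 2 * v * n0)) = 4 := by
    have h6 : Real.exp (-(8 * v * n0)) * Real.exp (8 * 1 ^ 2 * v * n0) = 1 := by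
      rw [← Real.exp_add]
      have : -(8 * v * n0) + 8 * 1 ^ 2 * v * n0 = 0 := by ring
      rw [this, Real.exp_zero]
    linear_combination 4 * h6
  rw [h5]
  ring

private theorem MFh3_tau (v : ℝ) (hv : 0 < v) (X : S → ℝ) (n0 n M1 : ℕ) (hn0 : 1 ≤ n0) (z : S)
    (Ke : ℝ) (hKe : 0 ≤ Ke) (hX : -Ke ≤ X z) (hM : Ke + 2 ≤ M1) (j : ℕ) (hj : j < n) :
    PI (nz S) {ω | ¬ ∀ i, i ≤ j → -(M1 : ℝ) + 2 ≤ M.RR (M.mf X (sc v ω) (n0 + i)) z} ≤
      ENNReal.ofReal (4 * Real.exp (-((M1 - 2 - Ke) ^ 2) / (32 * (v * ((n0 + n : ℕ) : ℝ))))) := by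
  refine le_trans (measure_mono ?_) (osc_tail_nz v hv (n0 + n) (by omega) z (M1 - 2 - Ke)
    (by linarith))
  intro ω hω
  simp only [Set.mem_ofPred_eq] at hω ⊢
  push Not at hω
  obtain ⟨i, hi, hlt⟩ := hω
  have h1 := MFh3_stay M X (sc v ω) (n0 + i) (by omega) z Ke hKe hX
  have h2 := osc_mono (fun j => sc v ω j z) (show n0 + i ≤ n0 + n by omega)
  linarith

/-- for most times all sites of a ball have gaps -/
theorem gap_occ (D : ℕ) : ∃ C : ℝ, 1 ≤ C ∧ ∀ (S : Type) [Fintype S] (M : MSet S D) (v κ : ℝ),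
    0 < v → 0 < κ → κ ≤ 1 / 6 → v ≤ κ ^ 2 / C → ∀ (X : S → ℝ), (∀ y, X y ≤ 0) →
    ∀ (n0 n M1 Rr : ℕ) (x : S) (Ke : ℝ), 1 ≤ n0 → 0 ≤ Ke →
    (∀ z, M.dd x z ≤ Rr → -Ke ≤ X z) → Ke + 2 ≤ M1 →
    ∑ j ∈ Finset.range n, PI (nz S)
        {ω | ∃ z, M.dd x z ≤ Rr ∧ ¬ Gap M κ (M.mf X (sc v ω) (n0 + j)) z}
      ≤ ENNReal.ofReal ((2 * Rr + 1) ^ D * (C * κ * (Ke + C + (n0 + n) * v +
            (2 * M1 + 1) ^ D * (1 + n * v)) / v +
          n * C * Real.exp (-((M1 - 2 - Ke) ^ 2 / (C * ((n0 + n) * v)))))) := by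
  classical
  obtain ⟨Ct, hCt1, hCt⟩ := top_occ
  obtain ⟨Cf, hCf1, hCf⟩ := floor_occ
  refine ⟨32 + Ct + 8 * Cf, by linarith, ?_⟩
  intro S _ M v κ hv hκ hκ6 hvκ X hX n0 n M1 Rr x Ke hn0 hKe hball hM
  set C : ℝ := 32 + Ct + 8 * Cf with hC
  have hC0 : 0 < C := by linarith
  have hκ2 : 0 < κ ^ 2 := by positivity
  have hvt : v ≤ κ ^ 2 / Ct := hvκ.trans (div_le_div_of_nonneg_left hκ2.le (by linarith)
    (by linarith))
  have hvf : v ≤ κ ^ 2 / Cf := hvκ.trans (div_le_div_of_nonneg_left hκ2.le (by linarith)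
    (by linarith))
  have hnv : 0 ≤ (n : ℝ) * v := by positivity
  have hn0v : 0 ≤ (n0 : ℝ) * v := by positivity
  let Bl : Finset S := Finset.univ.filter fun z => M.dd x z ≤ Rr
  have hcard : (Bl.card : ℝ) ≤ (2 * Rr + 1) ^ D := by
    have h1 := M.growth x Rr Bl (fun y hy => (Finset.mem_filter.1 hy).2)
    calc (Bl.card : ℝ) ≤ (((2 * Rr + 1) ^ D : ℕ) : ℝ) := by exact_mod_cast h1
      _ = (2 * Rr + 1) ^ D := by push_cast; ring
  -- one site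
  let a : ℝ := Ct * κ * (1 + n * v) / v
  let b : ℝ := Cf * κ * (Ke + 4 + 8 * v * n0 + (2 * M1 + 1) ^ D * (1 + n * v)) / v
  let e : ℝ := 4 * Real.exp (-((M1 - 2 - Ke) ^ 2) / (32 * (v * ((n0 + n : ℕ) : ℝ))))
  have ha : 0 ≤ a := by positivity
  have hb : 0 ≤ b := by positivity
  have he : 0 ≤ e := by positivity
  have hsite : ∀ z ∈ Bl, ∑ j ∈ Finset.range n, PI (nz S)
      {ω | ¬ Gap M κ (M.mf X (sc v ω) (n0 + j)) z} ≤ ENNReal.ofReal (a + b + n * e) := by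
    intro z hz
    have hXz : -Ke ≤ X z := hball z (Finset.mem_filter.1 hz).2
    have h1 : ∀ j ∈ Finset.range n, PI (nz S) {ω | ¬ Gap M κ (M.mf X (sc v ω) (n0 + j)) z} ≤
        PI (nz S) {ω | -(3 * κ) ≤ M.RR (M.mf X (sc v ω) (n0 + j)) z} +
        PI (nz S) {ω | (∀ i, i ≤ j → -(M1 : ℝ) + 2 ≤ M.RR (M.mf X (sc v ω) (n0 + i)) z) ∧
          ((M.RR (M.mf X (sc v ω) (n0 + j)) z - 3 * κ : ℝ) : WithBot ℝ) ≤
            flr M (M.mf X (sc v ω) (n0 + j)) z} + ENNReal.ofReal e := by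
      intro j hj
      have h2 : {ω : ℕ → S → ℝ | ¬ Gap M κ (M.mf X (sc v ω) (n0 + j)) z} ⊆
          ({ω | -(3 * κ) ≤ M.RR (M.mf X (sc v ω) (n0 + j)) z} ∪
          {ω | (∀ i, i ≤ j → -(M1 : ℝ) + 2 ≤ M.RR (M.mf X (sc v ω) (n0 + i)) z) ∧
            ((M.RR (M.mf X (sc v ω) (n0 + j)) z - 3 * κ : ℝ) : WithBot ℝ) ≤
              flr M (M.mf X (sc v ω) (n0 + j)) z}) ∪
          {ω | ¬ ∀ i, i ≤ j → -(M1 : ℝ) + 2 ≤ M.RR (M.mf X (sc v ω) (n0 + i)) z} := by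
        intro ω hω
        rcases MFh3_notgap M κ hκ _ z hω with h3 | h3
        · exact Or.inl (Or.inl h3)
        · by_cases h4 : ∀ i, i ≤ j → -(M1 : ℝ) + 2 ≤ M.RR (M.mf X (sc v ω) (n0 + i)) z
          · exact Or.inl (Or.inr ⟨h4, h3⟩)
          · exact Or.inr h4
      refine (measure_mono h2).trans ((measure_union_le _ _).trans ?_)
      exact add_le_add (measure_union_le _ _)
        (MFh3_tau M v hv X n0 n M1 hn0 z Ke hKe hXz hM j (Finset.mem_range.1 hj))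
    refine (Finset.sum_le_sum h1).trans ?_
    rw [Finset.sum_add_distrib, Finset.sum_add_distrib]
    have h5 := hCt S D M v κ hv hκ hκ6 hvt X hX n0 n z
    have h6 := hCf S D M v κ hv hκ hκ6 hvf X hX n0 n M1 z (Ke + 4 + 8 * v * n0) (by positivity)
      (MFh3_E0 M v hv X n0 hn0 z Ke hKe hXz)
    have h7 : ∑ _j ∈ Finset.range n, ENNReal.ofReal e = ENNReal.ofReal (n * e) := by
      rw [Finset.sum_const, Finset.card_range, nsmul_eq_mul,
        ENNReal.ofReal_mul (Nat.cast_nonneg n), ENNReal.ofReal_natCast]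
    rw [h7, ENNReal.ofReal_add (add_nonneg ha hb) (by positivity), ENNReal.ofReal_add ha hb]
    exact add_le_add (add_le_add h5 h6) le_rfl
  -- union over the ball
  have hun : ∀ j ∈ Finset.range n, PI (nz S)
      {ω | ∃ z, M.dd x z ≤ Rr ∧ ¬ Gap M κ (M.mf X (sc v ω) (n0 + j)) z} ≤
      ∑ z ∈ Bl, PI (nz S) {ω | ¬ Gap M κ (M.mf X (sc v ω) (n0 + j)) z} := by
    intro j _
    refine le_trans (measure_mono ?_) (measure_biUnion_finset_le Bl _)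
    intro ω hω
    obtain ⟨z, hz, hg⟩ := hω
    simp only [Set.mem_iUnion]
    exact ⟨z, by simp [Bl, hz], hg⟩
  refine (Finset.sum_le_sum hun).trans ?_
  rw [Finset.sum_comm]
  refine (Finset.sum_le_sum hsite).trans ?_
  rw [Finset.sum_const, nsmul_eq_mul, ← ENNReal.ofReal_natCast,
    ← ENNReal.ofReal_mul (Nat.cast_nonneg _)]
  refine ENNReal.ofReal_le_ofReal ?_
  have hP : (1 : ℝ) ≤ (2 * M1 + 1) ^ D := one_le_pow₀ (by
    have : (0 : ℝ) ≤ M1 := Nat.cast_nonneg _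
    linarith)
  refine mul_le_mul hcard ?_ (by positivity) (by positivity)
  refine add_le_add ?_ ?_
  · show Ct * κ * (1 + n * v) / v +
      Cf * κ * (Ke + 4 + 8 * v * n0 + (2 * M1 + 1) ^ D * (1 + n * v)) / v ≤ _
    rw [← add_div]
    refine div_le_div_of_nonneg_right ?_ hv.le
    have h8 : Ct * (1 + n * v) + Cf * (Ke + 4 + 8 * v * n0 + (2 * M1 + 1) ^ D * (1 + n * v)) ≤
        C * (Ke + C + (n0 + n) * v + (2 * M1 + 1) ^ D * (1 + n * v)) := by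
      have h9 : 0 ≤ (2 * (M1 : ℝ) + 1) ^ D * (1 + n * v) := by positivity
      have h10 : Ct + 4 * Cf ≤ C * C := by nlinarith
      have h11 : Cf * Ke ≤ C * Ke := mul_le_mul_of_nonneg_right (by linarith) hKe
      have h12 : Ct * (n * v) ≤ C * (n * v) := mul_le_mul_of_nonneg_right (by linarith) hnv
      have h13 : 8 * Cf * (n0 * v) ≤ C * (n0 * v) :=
        mul_le_mul_of_nonneg_right (by linarith) hn0v
      have h14 : Cf * ((2 * (M1 : ℝ) + 1) ^ D * (1 + n * v)) ≤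
          C * ((2 * (M1 : ℝ) + 1) ^ D * (1 + n * v)) :=
        mul_le_mul_of_nonneg_right (by linarith) h9
      linarith
    have h15 := mul_le_mul_of_nonneg_left h8 hκ.le
    linarith
  · show (n : ℝ) * (4 * Real.exp (-((M1 - 2 - Ke) ^ 2) / (32 * (v * ((n0 + n : ℕ) : ℝ))))) ≤ _
    rw [mul_assoc]
    refine mul_le_mul_of_nonneg_left ?_ (Nat.cast_nonneg n)
    refine mul_le_mul (by linarith) ?_ (Real.exp_pos _).le hC0.le
    refine Real.exp_le_exp.2 ?_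
    rw [neg_div]
    refine neg_le_neg ?_
    push_cast
    have hN : (0 : ℝ) < (n0 + n) * v := by
      have : (1 : ℝ) ≤ n0 := by exact_mod_cast hn0
      have : (0 : ℝ) ≤ n := Nat.cast_nonneg n
      positivity
    refine div_le_div_of_nonneg_left (sq_nonneg _) (by linarith [hN]) ?_
    have h16 : 32 * ((n0 + n) * v) ≤ C * ((n0 + n) * v) :=
      mul_le_mul_of_nonneg_right (by linarith) hN.le
    linarith

end DynC
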