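import Pool.Agent.Lib_MP_36b788c.MFg2
import Pool.Agent.Lib_MP_36b788c.MFh3
import Pool.Agent.Lib_MP_36b788c.Osc
import Pool.Agent.Lib_MP_36b788c.MFa

/-!
# Height model: two initial conditions, a good time

`B = T + Ke + Rb + log(1/p) + 1`.

PROOF of `hts2`. `F = mf X (sc v ω) (n0+j)`, `F'` for `X'`. Union of the following events.
* Gap for `F`, `F'`: `gap_occ` with `n = nJ`, `Rr = Rb`, `x = y`, `Ke' = Ke + s Rb`, `M1 = ⌈C' B⌉` for `X` and for `X'`; the sum of the two bounds, divided by `nJ` (`nJ v ≥ 1/2`), is `≤ (2Rb+1)^D (4 C κ (Ke' + C + T + 1 + 2 (2 M1+1)^D) + 2 C exp(-((M1 - 2 - Ke')²/(C (T+1)))))`, so for some `j < nJ` the probability is at most this. `(M1 - 2 - Ke')² ≥ (C'-3)² B² ≥ (C'-3)² B (T+1)`, so the exponential part is `≤ p/4` for `C'` large (`B ≥ 1 + Rb + log(1/p)`); the `κ` part is `≤ κ (C B)^(4D+4)`.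
* `|F z - F' z| > κd`: `mf_decay` with `x = z`, `Ke + s Rb` (`dd y z' ≤ Rb + dd z z'`), `s ≤ s0`: `≤ (1/κd) exp(C(Ke + s Rb + 1) - c3 (n0+j) v)`, union over `(2Rb+1)^D` sites.
* `F z < -C B`: `mf_stay` (`h`: block sums at `z` are `≥ -osc`, `sum_le_osc`), `RR X z ≥ X z ≥ -Ke - s Rb`, `osc_tail_nz` with `v n ≤ T + 1`: `4 exp(-(r²/(32(T+1))))`, `r = C B - Ke'`: `≤ p/(8 (2Rb+1)^D)`. The same for `F'`.
-/

open MeasureTheory ProbabilityTheory
open scoped ENNReal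

namespace DynC

/-- union over a ball -/
private theorem Pr1_union {S Ω : Type} [Fintype S] [MeasurableSpace Ω] {D : ℕ} (M : MSet S D)
    (P : Measure Ω) (y : S) (Rb : ℕ) (E : S → Set Ω) (b : ℝ) (hb : 0 ≤ b)
    (h : ∀ z, M.dd y z ≤ Rb → P (E z) ≤ ENNReal.ofReal b) :
    P {ω | ∃ z, M.dd y z ≤ Rb ∧ ω ∈ E z} ≤ ENNReal.ofReal ((2 * Rb + 1) ^ D * b) := by
  classical
  let Bl : Finset S := Finset.univ.filter fun z => M.dd y z ≤ Rb
  have hcard : (Bl.card : ℝ) ≤ (2 * Rb + 1) ^ D := by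
    have h1 := M.growth y Rb Bl (fun z hz => (Finset.mem_filter.1 hz).2)
    calc (Bl.card : ℝ) ≤ (((2 * Rb + 1) ^ D : ℕ) : ℝ) := by exact_mod_cast h1
      _ = (2 * Rb + 1) ^ D := by push_cast; ring
  have hsub : {ω | ∃ z, M.dd y z ≤ Rb ∧ ω ∈ E z} ⊆ ⋃ z ∈ Bl, E z := by
    rintro ω ⟨z, hz, hω⟩
    simp only [Set.mem_iUnion]
    exact ⟨z, Finset.mem_filter.2 ⟨Finset.mem_univ _, hz⟩, hω⟩
  calc P {ω | ∃ z, M.dd y z ≤ Rb ∧ ω ∈ E z} ≤ P (⋃ z ∈ Bl, E z) := measure_mono hsub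
    _ ≤ ∑ z ∈ Bl, P (E z) := measure_biUnion_finset_le _ _
    _ ≤ ∑ _z ∈ Bl, ENNReal.ofReal b :=
        Finset.sum_le_sum fun z hz => h z (Finset.mem_filter.1 hz).2
    _ = ENNReal.ofReal (Bl.card * b) := by
        rw [Finset.sum_const, nsmul_eq_mul, ENNReal.ofReal_mul (Nat.cast_nonneg _),
          ENNReal.ofReal_natCast]
    _ ≤ ENNReal.ofReal ((2 * Rb + 1) ^ D * b) :=
        ENNReal.ofReal_le_ofReal (mul_le_mul_of_nonneg_right hcard hb)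

/-- the exponential terms -/
private theorem Pr1_tail (D : ℕ) (K c a B T p w r : ℝ) (Rb : ℕ) (hK : 0 ≤ K) (hc : 0 < c)
    (hp : 0 < p) (hB1 : 1 ≤ B) (hBR : (Rb : ℝ) ≤ B)
    (hBl : Real.log (1 / p) ≤ B) (hBT : T + 1 ≤ B) (hw : 0 < w) (hwT : w ≤ T + 1) (ha : 1 ≤ a)
    (hac : c * (2 * D + K + 1) ≤ a) (hr : a * B ≤ r) :
    (2 * (Rb : ℝ) + 1) ^ D * (K * Real.exp (-(r ^ 2 / (c * w)))) ≤ p := by
  have hB0 : 0 < B := by linarith
  have hD0 : (0 : ℝ) ≤ D := Nat.cast_nonneg _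
  have hRb0 : (0 : ℝ) ≤ Rb := Nat.cast_nonneg _
  have h1 : (2 * (Rb : ℝ) + 1) ^ D ≤ Real.exp (D * (2 * Rb)) := by
    rw [Real.exp_nat_mul]
    exact pow_le_pow_left₀ (by positivity) (Real.add_one_le_exp _) _
  have h2 : K ≤ Real.exp K := by
    have := Real.add_one_le_exp K
    linarith
  have h3 : (2 * D + K + 1) * B ≤ r ^ 2 / (c * w) := by
    rw [le_div_iff₀ (by positivity)]
    have e1 : (2 * D + K + 1) * B * (c * w) = c * (2 * D + K + 1) * (B * w) := by ring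
    have e2 : c * (2 * D + K + 1) * (B * w) ≤ a * (B * w) :=
      mul_le_mul_of_nonneg_right hac (by positivity)
    have e3 : a * (B * w) ≤ a * (B * B) :=
      mul_le_mul_of_nonneg_left (mul_le_mul_of_nonneg_left (hwT.trans hBT) hB0.le) (by linarith)
    have e4 : 1 * (a * (B * B)) ≤ a * (a * (B * B)) :=
      mul_le_mul_of_nonneg_right ha (by positivity)
    have e5 : a * (a * (B * B)) = (a * B) ^ 2 := by ring
    have e6 : (a * B) ^ 2 ≤ r ^ 2 := pow_le_pow_left₀ (by positivity) hr 2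
    rw [e1]
    linarith
  have h4 : Real.exp (-(r ^ 2 / (c * w))) ≤ Real.exp (-((2 * D + K + 1) * B)) :=
    Real.exp_le_exp.2 (by linarith)
  calc (2 * (Rb : ℝ) + 1) ^ D * (K * Real.exp (-(r ^ 2 / (c * w))))
      ≤ Real.exp (D * (2 * Rb)) * (Real.exp K * Real.exp (-((2 * D + K + 1) * B))) := by
        refine mul_le_mul h1 (mul_le_mul h2 h4 (Real.exp_pos _).le (Real.exp_pos _).le) ?_
          (Real.exp_pos _).le
        exact mul_nonneg hK (Real.exp_pos _).le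
    _ = Real.exp (D * (2 * Rb) + (K + -((2 * D + K + 1) * B))) := by
        rw [Real.exp_add, Real.exp_add]
    _ ≤ Real.exp (-Real.log (1 / p)) := by
        apply Real.exp_le_exp.2
        have e1 : D * (2 * (Rb : ℝ)) ≤ D * (2 * B) :=
          mul_le_mul_of_nonneg_left (by linarith) hD0
        have e2 : K * 1 ≤ K * B := mul_le_mul_of_nonneg_left hB1 hK
        have e3 : (2 * D + K + 1) * B = D * (2 * B) + K * B + B := by ring
        linarith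
    _ = p := by
        rw [one_div, Real.log_inv, neg_neg, Real.exp_log hp]

/-- the polynomial term -/
private theorem Pr1_poly (D : ℕ) (A x1 x2 x3 x4 : ℝ) (hA : 2 ≤ A) (h10 : 0 ≤ x1) (h1 : x1 ≤ A)
    (h20 : 0 ≤ x2) (h2 : x2 ≤ A) (h30 : 0 ≤ x3) (h3 : x3 ≤ A) (h40 : 0 ≤ x4) (h4 : x4 ≤ A) :
    x1 ^ D * (x2 * (x3 + 2 * x4 ^ D)) ≤ A ^ (4 * D + 4) := by
  have hA0 : 0 ≤ A := by linarith
  have hA1 : 1 ≤ A := by linarith
  have e1 : x1 ^ D ≤ A ^ D := pow_le_pow_left₀ h10 h1 _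
  have e4 : x4 ^ D ≤ A ^ D := pow_le_pow_left₀ h40 h4 _
  have hAD : 0 ≤ A ^ D := pow_nonneg hA0 _
  have e5 : x3 + 2 * x4 ^ D ≤ A ^ (D + 2) := by
    have a1 : A ≤ A ^ (D + 1) := by
      calc A = A ^ 1 := (pow_one A).symm
        _ ≤ A ^ (D + 1) := pow_le_pow_right₀ hA1 (by omega)
    have a2 : 2 * A ^ D ≤ A * A ^ D := mul_le_mul_of_nonneg_right hA hAD
    have a3 : A * A ^ D = A ^ (D + 1) := by ring
    have a4 : 2 * A ^ (D + 1) ≤ A * A ^ (D + 1) :=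
      mul_le_mul_of_nonneg_right hA (pow_nonneg hA0 _)
    have a5 : A * A ^ (D + 1) = A ^ (D + 2) := by ring
    linarith
  have e6 : 0 ≤ x3 + 2 * x4 ^ D := by positivity
  calc x1 ^ D * (x2 * (x3 + 2 * x4 ^ D)) ≤ A ^ D * (A * A ^ (D + 2)) :=
        mul_le_mul e1 (mul_le_mul h2 e5 e6 hA0) (mul_nonneg h20 e6) hAD
    _ = A ^ (2 * D + 3) := by ring
    _ ≤ A ^ (4 * D + 4) := pow_le_pow_right₀ hA1 (by omega)

/-- low heights -/
private theorem Pr1_low {S : Type} [Fintype S] {D : ℕ} (M : MSet S D) (v : ℝ) (hv : 0 < v)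
    (X : S → ℝ) (n : ℕ) (hn : 1 ≤ n) (z : S) (Ke l r : ℝ) (hKe : 0 ≤ Ke) (hX : -Ke ≤ X z)
    (hr : 0 ≤ r) (hl : Ke + r ≤ l) :
    PI (nz S) {ω | ¬ (-l ≤ M.mf X (sc v ω) n z)} ≤
      ENNReal.ofReal (4 * Real.exp (-(r ^ 2 / (32 * (v * n))))) := by
  have h0 := osc_tail_nz v hv n (by omega) z r hr
  rw [neg_div] at h0
  refine le_trans (measure_mono ?_) h0
  intro ω hω
  simp only [Set.mem_ofPred_eq] at hω ⊢
  push Not at hω
  have h1 := mf_stay M X (sc v ω) n hn z (osc (fun j => sc v ω j z) n) (osc_nonneg _ _) (by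
    intro i hi
    have h2 := sum_le_osc (fun j => sc v ω j z) hi le_rfl
    exact (abs_le.1 h2).1)
  have h4 := self_le_RR M X z
  have h5 : -Ke ≤ min 0 (M.RR X z) := le_min (by linarith) (by linarith)
  linarith

theorem hts2 (D : ℕ) : ∃ (v0 c3 C s1 : ℝ) (nd : ℕ), 0 < v0 ∧ 0 < c3 ∧ 1 ≤ C ∧ 0 < s1 ∧ s1 ≤ 1 / 8 ∧
    ∀ (S : Type) [Fintype S] (M : MSet S D), M.HasLine nd →
    ∀ (T Ke s κ κd p v : ℝ) (Rb n0 nJ : ℕ) (y : S) (X X' : S → ℝ), 1 ≤ T → 0 ≤ Ke → 0 ≤ s →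
      s ≤ s1 → 0 < κ → κ ≤ 1 / 6 → 0 < κd → 0 < p → p ≤ 1 → 0 < v → v ≤ v0 → v ≤ κ ^ 2 / C →
      1 ≤ n0 → 1 / 2 ≤ nJ * v → nJ * v ≤ 1 → (n0 + nJ) * v ≤ T + 1 →
      (∀ z, X z ≤ 0) → (∀ z, X' z ≤ 0) → (∀ z, -Ke - s * M.dd y z ≤ X z) →
      (∀ z, -Ke - s * M.dd y z ≤ X' z) →
      ∃ j, j < nJ ∧ PI (nz S) {ω | ∃ z, M.dd y z ≤ Rb ∧
          ¬ (Gap M κ (M.mf X (sc v ω) (n0 + j)) z ∧ Gap M κ (M.mf X' (sc v ω) (n0 + j)) z ∧
            |M.mf X (sc v ω) (n0 + j) z - M.mf X' (sc v ω) (n0 + j) z| ≤ κd ∧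
            -(C * (T + Ke + Rb + Real.log (1 / p) + 1)) ≤ M.mf X (sc v ω) (n0 + j) z ∧
            -(C * (T + Ke + Rb + Real.log (1 / p) + 1)) ≤ M.mf X' (sc v ω) (n0 + j) z)}
        ≤ ENNReal.ofReal (p + (2 * Rb + 1) ^ D / κd *
            Real.exp (C * (Ke + s * Rb + 1) - c3 * (n0 * v)) +
          κ * (C * (T + Ke + Rb + Real.log (1 / p) + 1)) ^ (4 * D + 4)) := by
  classical
  obtain ⟨Cg, hCg1, HG⟩ := gap_occ D
  obtain ⟨v0, c3, Cd, s0, nd, hv0, hc3, hCd, hs0, hs8, HD⟩ := mf_decay D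
  have hD0 : (0 : ℝ) ≤ D := Nat.cast_nonneg _
  obtain ⟨C', hC'⟩ : ∃ C' : ℝ, C' = 1 + Cg * (2 * D + 8 * Cg + 1) := ⟨_, rfl⟩
  have ha1 : 1 ≤ Cg * (2 * D + 8 * Cg + 1) := by
    have h1 : (1 : ℝ) * 1 ≤ Cg * (2 * D + 8 * Cg + 1) :=
      mul_le_mul hCg1 (by linarith) zero_le_one (by linarith)
    linarith
  have hC'2 : 2 ≤ C' := by linarith
  obtain ⟨C, hC⟩ : ∃ C : ℝ, C = 4 * Cg + Cd + (2 * C' + 3) + (1 + 32 * (2 * D + 33)) := ⟨_, rfl⟩
  refine ⟨v0, c3, C, s0, nd, hv0, hc3, by linarith, hs0, hs8, ?_⟩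
  intro S _ M hline T Ke s κ κd p v Rb n0 nJ y X X' hT hKe hs hss hκ hκ6 hκd hp hp1 hv hvv0 hvκ
    hn0 hn1 hn2 hn3 hX0 hX0' hXl hXl'
  obtain ⟨lp, hlp⟩ : ∃ lp : ℝ, lp = Real.log (1 / p) := ⟨_, rfl⟩
  have hlp0 : 0 ≤ lp := by
    rw [hlp]
    apply Real.log_nonneg
    rw [le_div_iff₀ hp]
    linarith
  rw [← hlp]
  obtain ⟨B, hB⟩ : ∃ B : ℝ, B = T + Ke + Rb + lp + 1 := ⟨_, rfl⟩
  rw [← hB]
  have hRb0 : (0 : ℝ) ≤ Rb := Nat.cast_nonneg _
  have hB1 : 1 ≤ B := by linarith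
  have hB0 : 0 < B := by linarith
  have hCg0 : 0 < Cg := by linarith
  have hC0 : 0 < C := by linarith
  have hsR0 : 0 ≤ s * Rb := mul_nonneg hs hRb0
  have hsR : s * Rb ≤ Rb := by
    have h1 : s * (Rb : ℝ) ≤ 1 * Rb := mul_le_mul_of_nonneg_right (by linarith) hRb0
    linarith
  obtain ⟨Kq, hKq⟩ : ∃ Kq : ℝ, Kq = Ke + s * Rb := ⟨_, rfl⟩
  have hKq0 : 0 ≤ Kq := by rw [hKq]; linarith
  have hKqB : Kq + T + 1 ≤ B := by rw [hKq, hB]; linarith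
  have hball : ∀ (Y : S → ℝ), (∀ z, -Ke - s * M.dd y z ≤ Y z) → ∀ z, M.dd y z ≤ Rb →
      -Kq ≤ Y z := by
    intro Y hY z hz
    have h1 := hY z
    have h2 : s * (M.dd y z : ℝ) ≤ s * Rb :=
      mul_le_mul_of_nonneg_left (by exact_mod_cast hz) hs
    rw [hKq]
    linarith
  -- gaps
  obtain ⟨M1, hM1⟩ : ∃ M1 : ℕ, M1 = ⌈C' * B⌉₊ := ⟨_, rfl⟩
  have hM1a : C' * B ≤ M1 := by rw [hM1]; exact Nat.le_ceil _
  have hM1b : (M1 : ℝ) ≤ C' * B + 1 := by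
    rw [hM1]
    exact (Nat.ceil_lt_add_one (by positivity)).le
  have hM1r : Cg * (2 * D + 8 * Cg + 1) * B ≤ (M1 : ℝ) - 2 - Kq := by
    have h1 : C' * B = B + Cg * (2 * D + 8 * Cg + 1) * B := by rw [hC']; ring
    linarith
  have hM1K : Kq + 2 ≤ (M1 : ℝ) := by
    have h1 : 0 ≤ Cg * (2 * D + 8 * Cg + 1) * B := by positivity
    linarith
  have hvg : v ≤ κ ^ 2 / Cg := hvκ.trans
    (div_le_div_of_nonneg_left (by positivity) hCg0 (by linarith))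
  have hnJpos : 0 < nJ := by
    rcases Nat.eq_zero_or_pos nJ with h0 | h0
    · rw [h0] at hn1
      norm_num at hn1
    · exact h0
  have hnJr : (0 : ℝ) < nJ := by exact_mod_cast hnJpos
  have hn0r : (0 : ℝ) < n0 := by exact_mod_cast hn0
  obtain ⟨G, hG⟩ : ∃ G : ℝ, G = (2 * Rb + 1) ^ D * (Cg * κ * (Kq + Cg + (n0 + nJ) * v +
            (2 * M1 + 1) ^ D * (1 + nJ * v)) / v +
          nJ * Cg * Real.exp (-((M1 - 2 - Kq) ^ 2 / (Cg * ((n0 + nJ) * v))))) := ⟨_, rfl⟩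
  have hG1 := HG S M v κ hv hκ hκ6 hvg X hX0 n0 nJ M1 Rb y Kq hn0 hKq0 (hball X hXl) hM1K
  have hG2 := HG S M v κ hv hκ hκ6 hvg X' hX0' n0 nJ M1 Rb y Kq hn0 hKq0 (hball X' hXl') hM1K
  rw [← hG] at hG1 hG2
  have hG0 : 0 ≤ G := by
    rw [hG]
    have h1 : 0 ≤ (nJ : ℝ) * v := by positivity
    positivity
  set a : ℕ → ℝ≥0∞ := fun j =>
    PI (nz S) {ω | ∃ z, M.dd y z ≤ Rb ∧ ¬ Gap M κ (M.mf X (sc v ω) (n0 + j)) z} +
    PI (nz S) {ω | ∃ z, M.dd y z ≤ Rb ∧ ¬ Gap M κ (M.mf X' (sc v ω) (n0 + j)) z} with ha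
  obtain ⟨j, hj, hmin⟩ := Finset.exists_min_image (Finset.range nJ) a
    ⟨0, Finset.mem_range.2 hnJpos⟩
  have hjn : j < nJ := Finset.mem_range.1 hj
  have hsum : (nJ : ℝ≥0∞) * a j ≤ ENNReal.ofReal (2 * G) := by
    have h1 : (nJ : ℝ≥0∞) * a j ≤ ∑ i ∈ Finset.range nJ, a i := by
      calc (nJ : ℝ≥0∞) * a j = ∑ _i ∈ Finset.range nJ, a j := by
            rw [Finset.sum_const, Finset.card_range, nsmul_eq_mul]
        _ ≤ ∑ i ∈ Finset.range nJ, a i := Finset.sum_le_sum hmin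
    refine h1.trans ?_
    rw [ha, Finset.sum_add_distrib, two_mul, ENNReal.ofReal_add hG0 hG0]
    exact add_le_add hG1 hG2
  have haj : a j ≤ ENNReal.ofReal (2 * G / nJ) := by
    rw [ENNReal.ofReal_div_of_pos hnJr, ENNReal.ofReal_natCast,
      ENNReal.le_div_iff_mul_le (Or.inl (by exact_mod_cast hnJpos.ne'))
        (Or.inl (ENNReal.natCast_ne_top _)), mul_comm]
    exact hsum
  -- the bound for the gaps
  obtain ⟨E0, hE0⟩ : ∃ E0 : ℝ, E0 = Real.exp (-((M1 - 2 - Kq) ^ 2 / (Cg * ((n0 + nJ) * v)))) :=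
    ⟨_, rfl⟩
  have hCB2 : 2 ≤ C * B := by
    have h1 : (2 : ℝ) * 1 ≤ C * B := mul_le_mul (by linarith) hB1 zero_le_one hC0.le
    linarith
  have hCBB : ∀ x : ℝ, x ≤ C → x * B ≤ C * B := fun x hx => mul_le_mul_of_nonneg_right hx hB0.le
  have hgap : 2 * G / nJ ≤ κ * (C * B) ^ (4 * D + 4) + p / 4 := by
    have e0 : 2 * G / nJ = (2 * Rb + 1) ^ D * (2 * (Cg * κ * (Kq + Cg + (n0 + nJ) * v +
            (2 * M1 + 1) ^ D * (1 + nJ * v))) * (1 / (nJ * v))) +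
          (2 * Rb + 1) ^ D * (8 * Cg * E0) / 4 := by
      rw [hG, ← hE0]
      field_simp
      ring
    have e1 : (2 * (Rb : ℝ) + 1) ^ D * (8 * Cg * E0) ≤ p := by
      rw [hE0]
      exact Pr1_tail D (8 * Cg) Cg (Cg * (2 * D + 8 * Cg + 1)) B T p ((n0 + nJ) * v)
        (M1 - 2 - Kq) Rb (by linarith) hCg0 hp hB1 (by linarith) (by rw [← hlp]; linarith)
        (by linarith) (by positivity) hn3 ha1 le_rfl hM1r
    have e2 : 1 / ((nJ : ℝ) * v) ≤ 2 := by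
      rw [div_le_iff₀ (by positivity)]
      linarith
    have e3 : (0 : ℝ) ≤ (2 * M1 + 1) ^ D := by positivity
    have e4 : Kq + Cg + (n0 + nJ) * v + (2 * M1 + 1) ^ D * (1 + nJ * v) ≤
        (Kq + Cg + T + 1) + 2 * (2 * M1 + 1) ^ D := by
      have h1 : (2 * (M1 : ℝ) + 1) ^ D * (1 + nJ * v) ≤ (2 * M1 + 1) ^ D * 2 :=
        mul_le_mul_of_nonneg_left (by linarith) e3
      linarith
    have e4' : 0 ≤ Kq + Cg + (n0 + nJ) * v + (2 * M1 + 1) ^ D * (1 + nJ * v) := by positivity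
    have e5 : 2 * (Cg * κ * (Kq + Cg + (n0 + nJ) * v +
            (2 * M1 + 1) ^ D * (1 + nJ * v))) * (1 / (nJ * v)) ≤
        κ * (4 * Cg * ((Kq + Cg + T + 1) + 2 * (2 * M1 + 1) ^ D)) := by
      calc 2 * (Cg * κ * (Kq + Cg + (n0 + nJ) * v +
            (2 * M1 + 1) ^ D * (1 + nJ * v))) * (1 / (nJ * v))
          ≤ 2 * (Cg * κ * (Kq + Cg + (n0 + nJ) * v +
            (2 * M1 + 1) ^ D * (1 + nJ * v))) * 2 :=
            mul_le_mul_of_nonneg_left e2 (by positivity)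
        _ ≤ 2 * (Cg * κ * ((Kq + Cg + T + 1) + 2 * (2 * M1 + 1) ^ D)) * 2 := by
            apply mul_le_mul_of_nonneg_right _ (by norm_num)
            apply mul_le_mul_of_nonneg_left _ (by norm_num)
            exact mul_le_mul_of_nonneg_left e4 (by positivity)
        _ = κ * (4 * Cg * ((Kq + Cg + T + 1) + 2 * (2 * M1 + 1) ^ D)) := by ring
    have e6 := Pr1_poly D (C * B) (2 * Rb + 1) (4 * Cg) (Kq + Cg + T + 1) (2 * M1 + 1) hCB2
      (by positivity) (by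
        have h1 := hCBB 2 (by linarith)
        linarith) (by positivity) (by
        have h1 := hCBB (4 * Cg) (by linarith)
        have h2 : 4 * Cg * 1 ≤ 4 * Cg * B := mul_le_mul_of_nonneg_left hB1 (by linarith)
        linarith) (by linarith) (by
        have h1 := hCBB (1 + Cg) (by linarith)
        have h2 : Cg * 1 ≤ Cg * B := mul_le_mul_of_nonneg_left hB1 (by linarith)
        have h3 : (1 + Cg) * B = B + Cg * B := by ring
        linarith) (by positivity) (by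
        have h1 := hCBB (2 * C' + 3) (by linarith)
        have h3 : (2 * C' + 3) * B = 2 * (C' * B) + 3 * B := by ring
        linarith)
    have e7 : (2 * (Rb : ℝ) + 1) ^ D * (2 * (Cg * κ * (Kq + Cg + (n0 + nJ) * v +
            (2 * M1 + 1) ^ D * (1 + nJ * v))) * (1 / (nJ * v))) ≤
        κ * (C * B) ^ (4 * D + 4) := by
      calc (2 * (Rb : ℝ) + 1) ^ D * (2 * (Cg * κ * (Kq + Cg + (n0 + nJ) * v +
            (2 * M1 + 1) ^ D * (1 + nJ * v))) * (1 / (nJ * v)))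
          ≤ (2 * Rb + 1) ^ D * (κ * (4 * Cg * ((Kq + Cg + T + 1) + 2 * (2 * M1 + 1) ^ D))) :=
            mul_le_mul_of_nonneg_left e5 (by positivity)
        _ = κ * ((2 * Rb + 1) ^ D * (4 * Cg * ((Kq + Cg + T + 1) + 2 * (2 * M1 + 1) ^ D))) := by
            ring
        _ ≤ κ * (C * B) ^ (4 * D + 4) := mul_le_mul_of_nonneg_left e6 hκ.le
    rw [e0]
    linarith
  refine ⟨j, hjn, ?_⟩
  -- the difference
  have hdiff : PI (nz S) {ω | ∃ z, M.dd y z ≤ Rb ∧ ω ∈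
      {ω : ℕ → S → ℝ | κd < |M.mf X (sc v ω) (n0 + j) z - M.mf X' (sc v ω) (n0 + j) z|}} ≤
      ENNReal.ofReal ((2 * Rb + 1) ^ D *
        (1 / κd * Real.exp (C * (Ke + s * Rb + 1) - c3 * (n0 * v)))) := by
    refine Pr1_union M _ y Rb _ _ (by positivity) fun z hz => ?_
    have hlow : ∀ (Y : S → ℝ), (∀ z, -Ke - s * M.dd y z ≤ Y z) → ∀ z',
        -Kq - s0 * M.dd z z' ≤ Y z' := by
      intro Y hY z'
      have h1 := hY z'
      have h2 : (M.dd y z' : ℝ) ≤ Rb + M.dd z z' := by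
        have : M.dd y z' ≤ Rb + M.dd z z' := (M.dd_tri y z z').trans (by omega)
        exact_mod_cast this
      have h3 : s * (M.dd y z' : ℝ) ≤ s * (Rb + M.dd z z') := mul_le_mul_of_nonneg_left h2 hs
      have h4 : s * (M.dd z z' : ℝ) ≤ s0 * M.dd z z' :=
        mul_le_mul_of_nonneg_right hss (Nat.cast_nonneg _)
      have h5 : s * ((Rb : ℝ) + M.dd z z') = s * Rb + s * M.dd z z' := by ring
      rw [hKq]
      linarith
    refine (HD v hv hvv0 S M hline (n0 + j) X X' z Kq κd hKq0 hκd hX0 hX0' (hlow X hXl)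
      (hlow X' hXl')).trans (ENNReal.ofReal_le_ofReal ?_)
    apply mul_le_mul_of_nonneg_left _ (by positivity)
    apply Real.exp_le_exp.2
    have h1 : Cd * (Kq + 1) ≤ C * (Kq + 1) :=
      mul_le_mul_of_nonneg_right (by linarith) (by linarith)
    have h2 : (n0 : ℝ) * v ≤ ((n0 + j : ℕ) : ℝ) * v := by
      apply mul_le_mul_of_nonneg_right _ hv.le
      exact_mod_cast Nat.le_add_right _ _
    have h3 : c3 * ((n0 : ℝ) * v) ≤ c3 * (((n0 + j : ℕ) : ℝ) * v) :=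
      mul_le_mul_of_nonneg_left h2 hc3.le
    have h4 : C * (Kq + 1) = C * (Ke + s * Rb + 1) := by rw [hKq]
    linarith
  -- low heights
  have hnjr : ((n0 + j : ℕ) : ℝ) * v ≤ T + 1 := by
    refine le_trans (mul_le_mul_of_nonneg_right ?_ hv.le) hn3
    have : n0 + j ≤ n0 + nJ := by omega
    exact_mod_cast this
  have hnj0 : (0 : ℝ) < v * ((n0 + j : ℕ) : ℝ) := by
    apply mul_pos hv
    exact_mod_cast (show 0 < n0 + j by omega)
  have hlowp : ∀ (Y : S → ℝ), (∀ z, -Ke - s * M.dd y z ≤ Y z) →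
      PI (nz S) {ω | ∃ z, M.dd y z ≤ Rb ∧ ω ∈
        {ω : ℕ → S → ℝ | ¬ (-(C * B) ≤ M.mf Y (sc v ω) (n0 + j) z)}} ≤ ENNReal.ofReal (p / 8) := by
    intro Y hY
    have e1 : (2 * (Rb : ℝ) + 1) ^ D * (32 * Real.exp (-((32 * (2 * D + 33) * B) ^ 2 /
        (32 * (v * ((n0 + j : ℕ) : ℝ)))))) ≤ p :=
      Pr1_tail D 32 32 (32 * (2 * D + 33)) B T p (v * ((n0 + j : ℕ) : ℝ))
        (32 * (2 * D + 33) * B) Rb (by norm_num) (by norm_num) hp hB1 (by linarith)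
        (by rw [← hlp]; linarith) (by linarith) hnj0 (by rw [mul_comm]; exact hnjr)
        (by linarith) (by linarith) le_rfl
    refine (Pr1_union M (PI (nz S)) y Rb _ (4 * Real.exp (-((32 * (2 * D + 33) * B) ^ 2 /
        (32 * (v * ((n0 + j : ℕ) : ℝ)))))) (by positivity) fun z hz => ?_).trans
      (ENNReal.ofReal_le_ofReal ?_)
    · refine Pr1_low M v hv Y (n0 + j) (by omega) z Kq (C * B) (32 * (2 * D + 33) * B) hKq0
        (hball Y hY z hz) (by positivity) ?_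
      have h1 := hCBB (1 + 32 * (2 * D + 33)) (by linarith)
      have h2 : (1 + 32 * (2 * (D : ℝ) + 33)) * B = B + 32 * (2 * D + 33) * B := by ring
      linarith
    · linarith
  -- union
  have hsub : {ω : ℕ → S → ℝ | ∃ z, M.dd y z ≤ Rb ∧
          ¬ (Gap M κ (M.mf X (sc v ω) (n0 + j)) z ∧ Gap M κ (M.mf X' (sc v ω) (n0 + j)) z ∧
            |M.mf X (sc v ω) (n0 + j) z - M.mf X' (sc v ω) (n0 + j) z| ≤ κd ∧
            -(C * B) ≤ M.mf X (sc v ω) (n0 + j) z ∧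
            -(C * B) ≤ M.mf X' (sc v ω) (n0 + j) z)} ⊆
      ({ω | ∃ z, M.dd y z ≤ Rb ∧ ¬ Gap M κ (M.mf X (sc v ω) (n0 + j)) z} ∪
        {ω | ∃ z, M.dd y z ≤ Rb ∧ ¬ Gap M κ (M.mf X' (sc v ω) (n0 + j)) z}) ∪
      ({ω | ∃ z, M.dd y z ≤ Rb ∧ ω ∈
      {ω : ℕ → S → ℝ | κd < |M.mf X (sc v ω) (n0 + j) z - M.mf X' (sc v ω) (n0 + j) z|}} ∪
      ({ω | ∃ z, M.dd y z ≤ Rb ∧ ω ∈
        {ω : ℕ → S → ℝ | ¬ (-(C * B) ≤ M.mf X (sc v ω) (n0 + j) z)}} ∪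
      {ω | ∃ z, M.dd y z ≤ Rb ∧ ω ∈
        {ω : ℕ → S → ℝ | ¬ (-(C * B) ≤ M.mf X' (sc v ω) (n0 + j) z)}})) := by
    rintro ω ⟨z, hz, hno⟩
    by_contra hcon
    apply hno
    refine ⟨?_, ?_, ?_, ?_, ?_⟩
    · by_contra h
      exact hcon (Or.inl (Or.inl ⟨z, hz, h⟩))
    · by_contra h
      exact hcon (Or.inl (Or.inr ⟨z, hz, h⟩))
    · by_contra h
      exact hcon (Or.inr (Or.inl ⟨z, hz, not_le.1 h⟩))
    · by_contra h
      exact hcon (Or.inr (Or.inr (Or.inl ⟨z, hz, h⟩)))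
    · by_contra h
      exact hcon (Or.inr (Or.inr (Or.inr ⟨z, hz, h⟩)))
  have hk0 : 0 ≤ κ * (C * B) ^ (4 * D + 4) := by positivity
  have hd0 : 0 ≤ (2 * (Rb : ℝ) + 1) ^ D *
        (1 / κd * Real.exp (C * (Ke + s * Rb + 1) - c3 * (n0 * v))) := by positivity
  calc PI (nz S) _ ≤ PI (nz S) _ := measure_mono hsub
    _ ≤ a j + (ENNReal.ofReal ((2 * Rb + 1) ^ D *
        (1 / κd * Real.exp (C * (Ke + s * Rb + 1) - c3 * (n0 * v)))) +
        (ENNReal.ofReal (p / 8) + ENNReal.ofReal (p / 8))) := by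
        refine (measure_union_le _ _).trans (add_le_add (measure_union_le _ _) ?_)
        refine (measure_union_le _ _).trans (add_le_add hdiff ?_)
        exact (measure_union_le _ _).trans (add_le_add (hlowp X hXl) (hlowp X' hXl'))
    _ ≤ ENNReal.ofReal (κ * (C * B) ^ (4 * D + 4) + p / 4) + (ENNReal.ofReal ((2 * Rb + 1) ^ D *
        (1 / κd * Real.exp (C * (Ke + s * Rb + 1) - c3 * (n0 * v)))) +
        (ENNReal.ofReal (p / 8) + ENNReal.ofReal (p / 8))) :=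
        add_le_add (haj.trans (ENNReal.ofReal_le_ofReal hgap)) le_rfl
    _ = ENNReal.ofReal ((κ * (C * B) ^ (4 * D + 4) + p / 4) + ((2 * Rb + 1) ^ D *
        (1 / κd * Real.exp (C * (Ke + s * Rb + 1) - c3 * (n0 * v))) + (p / 8 + p / 8))) := by
        rw [ENNReal.ofReal_add (p := κ * (C * B) ^ (4 * D + 4) + p / 4) (by positivity)
          (by positivity), ENNReal.ofReal_add hd0 (by positivity),
          ENNReal.ofReal_add (p := p / 8) (by positivity) (by positivity)]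
    _ ≤ _ := by
        apply ENNReal.ofReal_le_ofReal
        have h1 : (2 * (Rb : ℝ) + 1) ^ D *
          (1 / κd * Real.exp (C * (Ke + s * Rb + 1) - c3 * (n0 * v))) =
          (2 * Rb + 1) ^ D / κd * Real.exp (C * (Ke + s * Rb + 1) - c3 * (n0 * v)) := by ring
        rw [h1]
        linarith

end DynC
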