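import Pool.Agent.Lib_MP_36b788c.Pr0
import Pool.Agent.Lib_MP_36b788c.Pr1
import Pool.Agent.Lib_MP_36b788c.Brg2
import Pool.Agent.Lib_MP_36b788c.Unit
import Pool.Agent.Lib_MP_36b788c.Grw3
import Pool.Agent.Lib_MP_36b788c.LPPd

/-!
# Two fields with the same noise, `N = 2`: good configuration at a good time

`B = T + M + Rb + log(1/p)`.

PROOF of `pair2`. Constants: `v0, c3', C', s1', nd` from `hts2 d`; `s1 = min(s1'/2, 1/16)`, `Ls = 2 nd`, `c3 = c3'`. Given the parameters: `M' = C'' B` (the lower bound of `hts2`), `Rg = ⌈2(C5 B + Rb + 3)⌉`, `κc = κd/8`; `R ≥ R0` of `cmp2` (with ball radius `Rg`, error `κc`, probability `p/16`, `T + 1/4` in place of `T`), `R ≥ 4 nd`, `R ≥ Rg`; then `σ` small: `σ ≤ σ0` of `cmp2`, `2σ ≤ v0`, `2σ ≤ κ²/C'`, `σ ≤ 1/16`; `J = ⌊T/σ⌋`, `nJ = ⌊(3/4)/σ⌋`, `n0 = J - nJ`; `nw = ⌈σ ell²/h⌉`, `v = nw h/ell² ∈ [σ, σ + h/ell²]`. `ε0` small (that of `cmp2`, `ε0(1+R) ≤ 1/16`).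
* Initial heights: `X = RR (hB k (M + s0 R + 1) (nrm G.1) y R)` on `ballM`, `X'` for `G.2`; `hB_low`: `X v ≥ -(2M+4) - 2 s0 dist y v`, so `Ke = 2M+4`, `s = 2 s0`; `mf (RR X) g (n+1) = mf X g (n+1)` (`mf_RR`). `ball_line` gives `HasLine`. Law of the window sums: `gw_law` (variance `v`).
* `hts2` gives `j < nJ`; `n = (n0+j) nw`. `n h`: `(n0 + j) σ ell² ≤ n h ≤ (n0+j)(σ ell² + h)`, `n0 σ ≥ T - σ - 3/4`, `(n0+nJ) σ ≤ T`. The exponent: `c3 n0 v ≥ c3 T - c3`.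
* `cmp2` for `G.1` and for `G.2` at `i = n0+j` (`1 ≤ i ≤ J`): for `dist y x ≤ Rg`, `‖G_n x‖ = exp(ell(F x ± κc))`, the same for `G'`, `F'`. `caps_prob` (PS2, with `ε0 = 1/8`) at time `n`: `≤ k^c ≤ p/16` (on `alv`, `exit_bd`: the probability of `alvᶜ` is `≤ p/32 + ..` : the sums `Σ‖G‖` are bounded by `card·k^{-(..)}` through `Caps`, so `h0` may be chosen).
* So off an event of probability `≤ p + ..`: `GCfg` at time `n`: `low`: `F ≥ -C''B'`, `top`: `F x ≤ -3κ`, `rat`: `|F - F'| ≤ κd/8` (use `hts2` with `κd/8`) plus `2κc`. `gap`, `x` in the ball `Rb`, `v ≠ x`: if `dist y v ≤ Rg`: `‖G_n v‖ ≤ exp(ell(F v + κc)) ≤ exp(ell(F x + dist x v - 3κ + κc)) ≤ exp(ell(dist x v - 3κ + 2κc))‖G_n x‖`, and `κ2 dist x v ≤ κ2 (Rb + Rg) ≤ κ` (`κ2 = κ/(8 C5 B)`).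
  If `dist y v > Rg`: `‖G_n v‖ ≤ k^{-(1 + dist y v)/8}`, `‖G_n x‖ ≥ k^{C5 B}`, `(7/8)(dist y v - Rb) - (1 + dist y v)/8 ≥ C5 B + κ` (`1 - κ2 ≥ 7/8`). `cap`: the caps.
* Difference: `grow_path` (or `grow_path2`) with `q' = 1/8`, `ρ = 11/16`, `A = A0 k^{-1/4}`: `D_n v ≤ 2 A0 exp(ell(lppM (1/8) 0 (gz k h ω) n v + 1/4 - (11/16) dist y v))`; `lpp_tail` and a union over `v`: `P(∃ v, lppM v > C(T + log(1/p)) + dist y v/16) ≤ p/16` (`sum_exp_dd`; `n h/ell² ≤ T + 1`).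
-/

open MeasureTheory ProbabilityTheory
open scoped ENNReal

namespace DynC

open Dyn

/-- probability of a bad pair -/
noncomputable def pPr (d : ℕ) (c3 C5 T M s0 κ κd p : ℝ) (Rb : ℕ) : ℝ :=
  p + (2 * Rb + 1) ^ d / κd * Real.exp (C5 * (M + s0 * Rb + 1) - c3 * T) +
    κ * (C5 * (T + M + Rb + Real.log (1 / p))) ^ (4 * d + 4)

private theorem Pair2_kpow {k : ℝ} (hk : 0 < k) (a : ℝ) : k ^ a = Real.exp (-(ell k * a)) := by
  rw [Real.rpow_def_of_pos hk]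
  congr 1
  unfold ell
  rw [one_div, Real.log_inv]
  ring

private theorem Pair2_traj (d L : ℕ) (β k h : ℝ) (hβ : 0 < β) (hk : 0 ≤ k)
    (G : (boxS d L → ℂ) × (boxS d L → ℂ)) (ω : ℕ → boxS d L → ℂ) (n : ℕ) :
    (PS2 d β k hβ hk).tr h L G ω n =
      (traj (st2 d β k h L) G.1 ω n, traj (st2 d β k h L) G.2 ω n) := by
  induction n with
  | zero => rfl
  | succ n ih =>
    change (PS2 d β k hβ hk).st h L ((PS2 d β k hβ hk).tr h L G ω n) (ω n) = _
    rw [ih]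
    rfl

/-- growth of the difference -/
private theorem Pair2_diff (d : ℕ) {β k h : ℝ} (hβ : 0 < β) (hk : 0 < k) (hk1 : k < 1)
    (hh : 0 < h) (L : ℕ) (G : (boxS d L → ℂ) × (boxS d L → ℂ)) (y : boxS d L) (A0 : ℝ)
    (hA : 0 ≤ A0)
    (hG : ∀ v, ‖G.1 v - G.2 v‖ ≤
      A0 * k ^ (-(1 / 4) + 11 / 16 * ((boxNet d L).dist y v : ℝ)))
    (ω : ℕ → boxS d L → ℂ) (n : ℕ) (v : boxS d L) :
    ‖traj (st2 d β k h L) G.1 ω n v - traj (st2 d β k h L) G.2 ω n v‖ ≤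
      A0 * (1 + 4 * d * k ^ (3 / 16 : ℝ) * h) ^ n *
        Real.exp (ell k * ((boxMSet d L).lpp (1 / 8) (fun _ => 0) (gz k h ω) n v +
          (1 / 4 - 11 / 16 * ((boxNet d L).dist y v : ℝ)))) := by
  have hg := grow_path d L k h (3 / 16) (1 / 8) (11 / 16) A0 hk hk1 hh hA (by norm_num)
    (by norm_num) (by norm_num) (by norm_num) (fun j x => bC h (ω j x))
    (fun j x => ‖traj (st2 d β k h L) G.1 ω j x - traj (st2 d β k h L) G.2 ω j x‖)
    (fun j => (PS2 d β k hβ hk.le).dd h L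
      (traj (st2 d β k h L) G.1 ω j, traj (st2 d β k h L) G.2 ω j) (ω j) hh)
    (fun x => 1 / 4 - 11 / 16 * ((boxNet d L).dist y x : ℝ))
    (fun x z hz => by
      have h1 := (boxNet d L).dist_tri y z x
      have h2 := (boxNet d L).dist_nb x z hz
      rw [(boxNet d L).dist_comm z x, h2] at h1
      have h3 : ((boxNet d L).dist y x : ℝ) ≤ (boxNet d L).dist y z + 1 := by exact_mod_cast h1
      show 1 / 4 - 11 / 16 * ((boxNet d L).dist y z : ℝ) ≤
        1 / 4 - 11 / 16 * ((boxNet d L).dist y x : ℝ) + 11 / 16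
      linarith)
    (fun x => by
      refine (hG x).trans (le_of_eq ?_)
      rw [Pair2_kpow hk]
      congr 2
      ring) n v
  exact hg

/-- last passage values around `y` -/
private theorem Pair2_lpp (d : ℕ) : ∃ C6 lam0 : ℝ, 0 < C6 ∧ 0 < lam0 ∧
    ∀ T p : ℝ, 2 ≤ T → 0 < p → p ≤ 1 / 2 → ∀ k h : ℝ, 0 < k → k < 1 → 0 < h →
    h / ell k ^ 2 ≤ 1 / lam0 ^ 2 → ∀ (L n : ℕ) (y : boxS d L), n * (h / ell k ^ 2) ≤ T + 1 →
    PI (Measure.pi fun _ : boxS d L => gC) {ω | ∃ v : boxS d L,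
        C6 * (T + Real.log (1 / p)) + (boxNet d L).dist y v / 16 ≤
          (boxMSet d L).lppM (1 / 8) (fun _ => 0) (gz k h ω) n v} ≤ ENNReal.ofReal (p / 16) := by
  obtain ⟨lam0, C, hl, hC, H⟩ := lpp_tail d (1 / 8) (by norm_num)
  obtain ⟨C7, hC7, H7⟩ := sum_exp_dd d (lam0 / 16) (by positivity)
  have hlC7 : 0 ≤ Real.log C7 := Real.log_nonneg hC7
  refine ⟨(2 * C + Real.log C7 + 4) / lam0, lam0, by positivity, hl, ?_⟩
  intro T p hT hp hp2 k h hk hk1 hh hv L n y hn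
  set C6 : ℝ := (2 * C + Real.log C7 + 4) / lam0 with hC6
  have hell := ell_pos hk hk1
  have hv0 : 0 < h / ell k ^ 2 := by positivity
  have hlp : 0 ≤ Real.log (1 / p) := by
    apply Real.log_nonneg
    rw [le_div_iff₀ hp]
    linarith
  have hset : {ω : ℕ → boxS d L → ℂ | ∃ v : boxS d L,
        C6 * (T + Real.log (1 / p)) + (boxNet d L).dist y v / 16 ≤
          (boxMSet d L).lppM (1 / 8) (fun _ => 0) (gz k h ω) n v} =
      ⋃ v : boxS d L, {ω | gz k h ω ∈ {g : ℕ → boxS d L → ℝ |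
        C6 * (T + Real.log (1 / p)) + (boxNet d L).dist y v / 16 ≤
          (boxMSet d L).lppM (1 / 8) (fun _ => 0) g n v}} := by
    ext ω
    simp only [Set.mem_ofPred_eq, Set.mem_iUnion]
  rw [hset]
  have h1 : ∀ v : boxS d L, PI (Measure.pi fun _ : boxS d L => gC)
      {ω | gz k h ω ∈ {g : ℕ → boxS d L → ℝ |
        C6 * (T + Real.log (1 / p)) + (boxNet d L).dist y v / 16 ≤
          (boxMSet d L).lppM (1 / 8) (fun _ => 0) g n v}} ≤
      ENNReal.ofReal (Real.exp (C * (T + 2) - lam0 * (C6 * (T + Real.log (1 / p)))) *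
        Real.exp (-(lam0 / 16 * ((boxMSet d L).dd y v : ℝ)))) := by
    intro v
    rw [re_law d L k h hk hk1 hh _ (measurableSet_le measurable_const
      (measurable_lppM (boxMSet d L) (1 / 8) (fun _ => 0) n v))]
    refine (H (boxS d L) (boxMSet d L) (h / ell k ^ 2) hv0 hv n v
      (C6 * (T + Real.log (1 / p)) + (boxNet d L).dist y v / 16)).trans ?_
    refine ENNReal.ofReal_le_ofReal ?_
    rw [← Real.exp_add]
    apply Real.exp_le_exp.2
    have h2 : C * (n * (h / ell k ^ 2) + 1) ≤ C * (T + 2) :=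
      mul_le_mul_of_nonneg_left (by linarith) hC.le
    have h3 : (((boxMSet d L).dd y v : ℕ) : ℝ) = ((boxNet d L).dist y v : ℝ) := rfl
    rw [h3]
    nlinarith
  calc PI (Measure.pi fun _ : boxS d L => gC) (⋃ v : boxS d L, {ω | gz k h ω ∈ {g : ℕ → boxS d L → ℝ |
        C6 * (T + Real.log (1 / p)) + (boxNet d L).dist y v / 16 ≤
          (boxMSet d L).lppM (1 / 8) (fun _ => 0) g n v}})
      ≤ ∑ v : boxS d L, PI (Measure.pi fun _ : boxS d L => gC) {ω | gz k h ω ∈ {g : ℕ → boxS d L → ℝ |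
        C6 * (T + Real.log (1 / p)) + (boxNet d L).dist y v / 16 ≤
          (boxMSet d L).lppM (1 / 8) (fun _ => 0) g n v}} := measure_iUnion_fintype_le _ _
    _ ≤ ∑ v : boxS d L, ENNReal.ofReal (Real.exp (C * (T + 2) - lam0 * (C6 * (T + Real.log (1 / p)))) *
        Real.exp (-(lam0 / 16 * ((boxMSet d L).dd y v : ℝ)))) := Finset.sum_le_sum fun v _ => h1 v
    _ = ENNReal.ofReal (∑ v : boxS d L, Real.exp (C * (T + 2) - lam0 * (C6 * (T + Real.log (1 / p)))) *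
        Real.exp (-(lam0 / 16 * ((boxMSet d L).dd y v : ℝ)))) := by
        rw [ENNReal.ofReal_sum_of_nonneg]
        intro v _
        positivity
    _ ≤ ENNReal.ofReal (p / 16) := by
        refine ENNReal.ofReal_le_ofReal ?_
        rw [← Finset.mul_sum]
        have h2 := H7 (boxS d L) (boxMSet d L) y
        have h3 : Real.exp (C * (T + 2) - lam0 * (C6 * (T + Real.log (1 / p)))) * C7 ≤ p / 16 := by
          have e1 : lam0 * (C6 * (T + Real.log (1 / p))) =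
              (2 * C + Real.log C7 + 4) * (T + Real.log (1 / p)) := by
            rw [hC6]
            field_simp
          rw [e1]
          have e2 : Real.log (p / 16) = -Real.log (1 / p) - Real.log 16 := by
            rw [Real.log_div hp.ne' (by norm_num), one_div, Real.log_inv]
            ring
          have e3 : Real.log 16 ≤ 4 := by
            have h4 : Real.log 16 = 4 * Real.log 2 := by
              rw [show (16 : ℝ) = 2 ^ 4 by norm_num, Real.log_pow]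
              norm_num
            have h5 := Real.log_two_lt_d9
            rw [h4]
            linarith
          have e4 : Real.log (Real.exp (C * (T + 2) -
              (2 * C + Real.log C7 + 4) * (T + Real.log (1 / p))) * C7) ≤ Real.log (p / 16) := by
            rw [Real.log_mul (Real.exp_pos _).ne' (by linarith), Real.log_exp, e2]
            have a1 : (0 : ℝ) ≤ C * (T - 2) := mul_nonneg hC.le (by linarith)
            have a2 : 0 ≤ Real.log C7 * (T - 1) := mul_nonneg hlC7 (by linarith)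
            have a3 : 0 ≤ Real.log C7 * Real.log (1 / p) := mul_nonneg hlC7 hlp
            have a4 : 0 ≤ C * Real.log (1 / p) := mul_nonneg hC.le hlp
            nlinarith
          exact (Real.log_le_log_iff (by positivity) (by positivity)).1 e4
        calc Real.exp (C * (T + 2) - lam0 * (C6 * (T + Real.log (1 / p)))) *
              ∑ v : boxS d L, Real.exp (-(lam0 / 16 * ((boxMSet d L).dd y v : ℝ)))
            ≤ Real.exp (C * (T + 2) - lam0 * (C6 * (T + Real.log (1 / p)))) * C7 :=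
              mul_le_mul_of_nonneg_left h2 (Real.exp_pos _).le
          _ ≤ p / 16 := h3

/-- caps at a time `n h ≥ 1` -/
private theorem Pair2_caps (d : ℕ) (β : ℝ) (hβ : 0 < β) (p : ℝ) (hp : 0 < p) :
    ∃ k0 : ℝ, 0 < k0 ∧ k0 < 1 ∧ ∀ k, 0 < k → k < k0 → ∀ (L : ℕ) (Sm ε0 : ℝ), 0 ≤ Sm → 0 < ε0 →
    ∃ h0 : ℝ, 0 < h0 ∧ ∀ h, 0 < h → h < h0 →
    ∀ (G : (boxS d L → ℂ) × (boxS d L → ℂ)) (y : boxS d L), Caps k (nrm G.1) ε0 y →
      Caps k (nrm G.2) ε0 y → ∀ n : ℕ, 1 ≤ n * h → n * h ≤ Sm →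
      PI (Measure.pi fun _ : boxS d L => gC) {ω | ¬ ∀ v,
          ‖traj (st2 d β k h L) G.1 ω n v‖ ≤ k ^ (-((1 + (boxNet d L).dist y v : ℝ) / 8)) ∧
          ‖traj (st2 d β k h L) G.2 ω n v‖ ≤ k ^ (-((1 + (boxNet d L).dist y v : ℝ) / 8))}
        ≤ ENNReal.ofReal (p / 8) := by
  obtain ⟨cc, k0c, hcc, hk0c, hk0c1, Hc⟩ := caps_prob 2 d β hβ (1 / 8) (by norm_num)
  -- `k ^ cc ≤ p / 16` for small `k`
  refine ⟨min k0c ((p / 16) ^ (1 / cc)), lt_min hk0c (by positivity),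
    lt_of_le_of_lt (min_le_left _ _) hk0c1, ?_⟩
  intro k hk hkk L Sm ε0 hSm hε
  have hkc : k < k0c := lt_of_lt_of_le hkk (min_le_left _ _)
  have hk1 : k < 1 := hkc.trans hk0c1
  have hkp : k ^ cc ≤ p / 16 := by
    have h1 : k ≤ (p / 16) ^ (1 / cc) := (lt_of_lt_of_le hkk (min_le_right _ _)).le
    have h2 := Real.rpow_le_rpow hk.le h1 hcc.le
    rw [← Real.rpow_mul (by positivity), one_div_mul_cancel hcc.ne', Real.rpow_one] at h2
    exact h2
  set Dm : ℝ := ∑ a : boxS d L, ∑ b : boxS d L, ((boxNet d L).dist a b : ℝ) with hDm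
  set W : ℝ := ∑ _a : boxS d L, 2 * k ^ (-(ε0 * (1 + Dm))) with hW
  have hW0 : 0 ≤ W := Finset.sum_nonneg fun _ _ => by positivity
  obtain ⟨hc, hhc, HC⟩ := Hc (Fam2 d β k) k (PS2 d β k hβ hk.le) hk hkc bnoise2 L
  obtain ⟨hx, hhx, HX⟩ := exit_bd 2 hβ hk.le (PS2 d β k hβ hk.le) bnoise2 L Sm (p / 16 / (1 + W))
    hSm (by positivity)
  refine ⟨min hc hx, lt_min hhc hhx, ?_⟩
  intro h hh hlt G y hG1 hG2 n hn1 hn2
  have hdist : ∀ v : boxS d L, ((boxNet d L).dist v y : ℝ) ≤ Dm := by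
    intro v
    have h1 : ((boxNet d L).dist v y : ℝ) ≤ ∑ b : boxS d L, ((boxNet d L).dist v b : ℝ) :=
      Finset.single_le_sum (f := fun b : boxS d L => ((boxNet d L).dist v b : ℝ))
        (fun b _ => Nat.cast_nonneg _) (Finset.mem_univ y)
    refine h1.trans ?_
    exact Finset.single_le_sum (f := fun a : boxS d L =>
      ∑ b : boxS d L, ((boxNet d L).dist a b : ℝ))
      (fun a _ => Finset.sum_nonneg fun b _ => Nat.cast_nonneg _) (Finset.mem_univ v)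
  have hcapW : ∀ (u : boxS d L → ℂ), Caps k (nrm u) ε0 y → ∀ v, ‖u v‖ ≤ k ^ (-(ε0 * (1 + Dm))) := by
    intro u hu v
    refine (hu v).trans ?_
    apply Real.rpow_le_rpow_of_exponent_ge hk hk1.le
    have := hdist v
    nlinarith
  have hsum : ∑ x, (‖G.1 x‖ + ‖G.2 x‖) ≤ W := by
    rw [hW]
    refine Finset.sum_le_sum fun v _ => ?_
    have h1 := hcapW G.1 hG1 v
    have h2 := hcapW G.2 hG2 v
    linarith
  have hcp := HC h hh (lt_of_lt_of_le hlt (min_le_left _ _)) G n hn1 y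
  have hex := HX h hh (lt_of_lt_of_le hlt (min_le_right _ _)) G n hn2
  have hsub : {ω : ℕ → boxS d L → ℂ | ¬ ∀ v,
          ‖traj (st2 d β k h L) G.1 ω n v‖ ≤ k ^ (-((1 + (boxNet d L).dist y v : ℝ) / 8)) ∧
          ‖traj (st2 d β k h L) G.2 ω n v‖ ≤ k ^ (-((1 + (boxNet d L).dist y v : ℝ) / 8))} ⊆
      ((PS2 d β k hβ hk.le).alv h L G n ∩ {ω | ¬ Caps k (fun v =>
          ‖((PS2 d β k hβ hk.le).tr h L G ω n).1 v‖ +
          ‖((PS2 d β k hβ hk.le).tr h L G ω n).2 v‖) (1 / 8) y}) ∪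
        ((PS2 d β k hβ hk.le).alv h L G n)ᶜ := by
    intro ω hω
    by_cases ha : ω ∈ (PS2 d β k hβ hk.le).alv h L G n
    · left
      refine ⟨ha, ?_⟩
      intro hcaps
      apply hω
      intro v
      have h0 := hcaps v
      rw [Pair2_traj] at h0
      have h1 : ‖traj (st2 d β k h L) G.1 ω n v‖ + ‖traj (st2 d β k h L) G.2 ω n v‖ ≤
          k ^ (-(1 / 8 * (1 + ((boxNet d L).dist v y : ℝ)))) := h0
      have h2 : (-((1 + (boxNet d L).dist y v : ℝ) / 8)) =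
          -(1 / 8 * (1 + ((boxNet d L).dist v y : ℝ))) := by
        rw [(boxNet d L).dist_comm v y]
        ring
      rw [h2]
      have h3 := norm_nonneg (traj (st2 d β k h L) G.1 ω n v)
      have h4 := norm_nonneg (traj (st2 d β k h L) G.2 ω n v)
      exact ⟨by linarith, by linarith⟩
    · right
      exact ha
  have hfin : ENNReal.ofReal (k ^ cc) +
      ENNReal.ofReal (p / 16 / (1 + W) * (1 + ∑ x, (‖G.1 x‖ + ‖G.2 x‖))) ≤
      ENNReal.ofReal (p / 8) := by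
    rw [← ENNReal.ofReal_add (by positivity) (by positivity)]
    refine ENNReal.ofReal_le_ofReal ?_
    have h1 : p / 16 / (1 + W) * (1 + ∑ x, (‖G.1 x‖ + ‖G.2 x‖)) ≤ p / 16 / (1 + W) * (1 + W) :=
      mul_le_mul_of_nonneg_left (by linarith) (by positivity)
    rw [div_mul_cancel₀ _ (by positivity : (1 + W) ≠ 0)] at h1
    linarith
  exact (measure_mono hsub).trans ((measure_union_le _ _).trans ((add_le_add hcp hex).trans hfin))

/-- the good configuration from the heights -/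
private theorem Pair2_cfg {d L : ℕ} {k : ℝ} (hk : 0 < k) (hk1 : k < 1) {κ κ2 κd M6 Ml : ℝ}
    (hκ : κ ≤ 1 / 8) (hκd : 0 < κd) (hκdk : κd ≤ κ) (hM6 : 0 ≤ M6) (hMl : Ml + κd / 8 ≤ M6)
    (hκ2 : 0 ≤ κ2) (hκ28 : κ2 ≤ 1 / 8) (y : boxS d L) (Rb Rg R : ℕ) (hbg : Rb ≤ Rg) (hgR : Rg ≤ R)
    (hκR : κ2 * (Rb + Rg) ≤ κ) (hRg : 2 * (M6 + Rb + 3) ≤ Rg)
    (u u' : boxS d L → ℂ) (F F' : Bl d L y R → ℝ)
    (hc : ∀ x : Bl d L y R, (boxNet d L).dist y x.1 ≤ Rg →
      Real.exp (ell k * (F x - κd / 8)) ≤ ‖u x.1‖ ∧ ‖u x.1‖ ≤ Real.exp (ell k * (F x + κd / 8)))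
    (hc' : ∀ x : Bl d L y R, (boxNet d L).dist y x.1 ≤ Rg →
      Real.exp (ell k * (F' x - κd / 8)) ≤ ‖u' x.1‖ ∧
        ‖u' x.1‖ ≤ Real.exp (ell k * (F' x + κd / 8)))
    (hg : ∀ z : Bl d L y R, (boxNet d L).dist y z.1 ≤ Rb →
      Gap (ballM d L y R) κ F z ∧ Gap (ballM d L y R) κ F' z ∧ |F z - F' z| ≤ κd / 8 ∧
        -Ml ≤ F z ∧ -Ml ≤ F' z)
    (hcap : ∀ v, ‖u v‖ ≤ k ^ (-((1 + (boxNet d L).dist y v : ℝ) / 8)) ∧
      ‖u' v‖ ≤ k ^ (-((1 + (boxNet d L).dist y v : ℝ) / 8))) :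
    GCfg k κ κ2 κd M6 y Rb (u, u') := by
  have hell := ell_pos hk hk1
  have hmem : ∀ x, (boxNet d L).dist y x ≤ Rb → (boxNet d L).dist y x ≤ R := fun x hx =>
    hx.trans (hbg.trans hgR)
  -- lower bound
  have hlow1 : ∀ (w : boxS d L → ℂ) (H : Bl d L y R → ℝ),
      (∀ x : Bl d L y R, (boxNet d L).dist y x.1 ≤ Rg →
        Real.exp (ell k * (H x - κd / 8)) ≤ ‖w x.1‖ ∧
          ‖w x.1‖ ≤ Real.exp (ell k * (H x + κd / 8))) →
      ∀ x (hx : (boxNet d L).dist y x ≤ Rb), -Ml ≤ H ⟨x, hmem x hx⟩ → k ^ M6 ≤ ‖w x‖ := by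
    intro w H hw x hx hH
    refine le_trans ?_ (hw ⟨x, hmem x hx⟩ (hx.trans hbg)).1
    rw [Pair2_kpow hk]
    apply Real.exp_le_exp.2
    nlinarith
  -- upper bound
  have htop1 : ∀ (w : boxS d L → ℂ) (H : Bl d L y R → ℝ),
      (∀ x : Bl d L y R, (boxNet d L).dist y x.1 ≤ Rg →
        Real.exp (ell k * (H x - κd / 8)) ≤ ‖w x.1‖ ∧
          ‖w x.1‖ ≤ Real.exp (ell k * (H x + κd / 8))) →
      ∀ x (hx : (boxNet d L).dist y x ≤ Rb), H ⟨x, hmem x hx⟩ ≤ -(3 * κ) → ‖w x‖ ≤ k ^ κ := by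
    intro w H hw x hx hH
    refine (hw ⟨x, hmem x hx⟩ (hx.trans hbg)).2.trans ?_
    rw [Pair2_kpow hk]
    apply Real.exp_le_exp.2
    have h1 : ell k * (H ⟨x, hmem x hx⟩ + κd / 8) ≤ ell k * (-κ) :=
      mul_le_mul_of_nonneg_left (by linarith) hell.le
    linarith
  -- ratio
  have hrat1 : ∀ (w w' : boxS d L → ℂ) (H H' : Bl d L y R → ℝ),
      (∀ x : Bl d L y R, (boxNet d L).dist y x.1 ≤ Rg →
        Real.exp (ell k * (H x - κd / 8)) ≤ ‖w x.1‖ ∧
          ‖w x.1‖ ≤ Real.exp (ell k * (H x + κd / 8))) →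
      (∀ x : Bl d L y R, (boxNet d L).dist y x.1 ≤ Rg →
        Real.exp (ell k * (H' x - κd / 8)) ≤ ‖w' x.1‖ ∧
          ‖w' x.1‖ ≤ Real.exp (ell k * (H' x + κd / 8))) →
      ∀ x (hx : (boxNet d L).dist y x ≤ Rb),
        H ⟨x, hmem x hx⟩ - H' ⟨x, hmem x hx⟩ ≤ κd / 8 → ‖w x‖ ≤ k ^ (-κd) * ‖w' x‖ := by
    intro w w' H H' hw hw' x hx hH
    have h1 := (hw ⟨x, hmem x hx⟩ (hx.trans hbg)).2
    have h2 := (hw' ⟨x, hmem x hx⟩ (hx.trans hbg)).1
    have h3 : k ^ (-κd) * Real.exp (ell k * (H' ⟨x, hmem x hx⟩ - κd / 8)) ≤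
        k ^ (-κd) * ‖w' x‖ := mul_le_mul_of_nonneg_left h2 (Real.rpow_nonneg hk.le _)
    refine h1.trans (le_trans ?_ h3)
    rw [Pair2_kpow hk, ← Real.exp_add]
    apply Real.exp_le_exp.2
    have h4 : ell k * (H ⟨x, hmem x hx⟩ + κd / 8) ≤
        ell k * (κd + (H' ⟨x, hmem x hx⟩ - κd / 8)) :=
      mul_le_mul_of_nonneg_left (by linarith) hell.le
    linarith
  -- gap
  have hgap1 : ∀ (w : boxS d L → ℂ) (H : Bl d L y R → ℝ),
      (∀ x : Bl d L y R, (boxNet d L).dist y x.1 ≤ Rg →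
        Real.exp (ell k * (H x - κd / 8)) ≤ ‖w x.1‖ ∧
          ‖w x.1‖ ≤ Real.exp (ell k * (H x + κd / 8))) →
      (∀ v, ‖w v‖ ≤ k ^ (-((1 + (boxNet d L).dist y v : ℝ) / 8))) →
      ∀ x (hx : (boxNet d L).dist y x ≤ Rb), Gap (ballM d L y R) κ H ⟨x, hmem x hx⟩ →
        -Ml ≤ H ⟨x, hmem x hx⟩ → ∀ v, v ≠ x →
        ‖w v‖ ≤ k ^ (κ - (1 - κ2) * (boxNet d L).dist x v) * ‖w x‖ := by
    intro w H hw hwc x hx hGap hMl' v hvx
    have h2 := (hw ⟨x, hmem x hx⟩ (hx.trans hbg)).1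
    have h3 : k ^ (κ - (1 - κ2) * (boxNet d L).dist x v) *
        Real.exp (ell k * (H ⟨x, hmem x hx⟩ - κd / 8)) ≤
        k ^ (κ - (1 - κ2) * (boxNet d L).dist x v) * ‖w x‖ :=
      mul_le_mul_of_nonneg_left h2 (Real.rpow_nonneg hk.le _)
    refine le_trans ?_ h3
    rw [Pair2_kpow hk, ← Real.exp_add]
    have htri : ((boxNet d L).dist x v : ℝ) ≤ Rb + (boxNet d L).dist y v := by
      have h4 := (boxNet d L).dist_tri x y v
      rw [(boxNet d L).dist_comm x y] at h4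
      have h5 : (boxNet d L).dist x v ≤ Rb + (boxNet d L).dist y v := by omega
      exact_mod_cast h5
    have htri2 : ((boxNet d L).dist y v : ℝ) ≤ Rb + (boxNet d L).dist x v := by
      have h4 := (boxNet d L).dist_tri y x v
      have h5 : (boxNet d L).dist y v ≤ Rb + (boxNet d L).dist x v := by omega
      exact_mod_cast h5
    by_cases hv : (boxNet d L).dist y v ≤ Rg
    · have h1 := (hw ⟨v, hv.trans hgR⟩ hv).2
      refine h1.trans ?_
      apply Real.exp_le_exp.2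
      have hgv := hGap.2 ⟨v, hv.trans hgR⟩ (fun he => hvx (congrArg Subtype.val he))
      have e1 : (((ballM d L y R).dd ⟨x, hmem x hx⟩ ⟨v, hv.trans hgR⟩ : ℕ) : ℝ) =
          ((boxNet d L).dist x v : ℝ) := rfl
      rw [e1] at hgv
      have hv' : ((boxNet d L).dist y v : ℝ) ≤ Rg := by exact_mod_cast hv
      have e2 : κ2 * ((boxNet d L).dist x v : ℝ) ≤ κ :=
        (mul_le_mul_of_nonneg_left (by linarith) hκ2).trans hκR
      have e3 : H ⟨v, hv.trans hgR⟩ + κd / 8 ≤ -(κ - (1 - κ2) * ((boxNet d L).dist x v : ℝ)) +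
          (H ⟨x, hmem x hx⟩ - κd / 8) := by nlinarith
      have e4 := mul_le_mul_of_nonneg_left e3 hell.le
      linarith
    · push Not at hv
      have hv' : (Rg : ℝ) < ((boxNet d L).dist y v : ℝ) := by exact_mod_cast hv
      refine (hwc v).trans ?_
      rw [Pair2_kpow hk]
      apply Real.exp_le_exp.2
      have e2 : (7 / 8 : ℝ) * ((boxNet d L).dist x v : ℝ) ≤
          (1 - κ2) * ((boxNet d L).dist x v : ℝ) :=
        mul_le_mul_of_nonneg_right (by linarith) (Nat.cast_nonneg _)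
      have hRb0 : (0 : ℝ) ≤ Rb := Nat.cast_nonneg _
      have e3 : (1 + ((boxNet d L).dist y v : ℝ)) / 8 ≤
          -(κ - (1 - κ2) * ((boxNet d L).dist x v : ℝ)) + (H ⟨x, hmem x hx⟩ - κd / 8) := by
        linarith
      have e4 := mul_le_mul_of_nonneg_left e3 hell.le
      linarith
  refine ⟨fun x hx => ?_, fun x hx => ?_, fun x hx => ?_, fun x hx v hv => ?_, hcap⟩
  · have h := hg ⟨x, hmem x hx⟩ hx
    exact ⟨hlow1 u F hc x hx h.2.2.2.1, hlow1 u' F' hc' x hx h.2.2.2.2⟩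
  · have h := hg ⟨x, hmem x hx⟩ hx
    exact ⟨htop1 u F hc x hx h.1.1, htop1 u' F' hc' x hx h.2.1.1⟩
  · have h := hg ⟨x, hmem x hx⟩ hx
    have h1 := abs_le.1 h.2.2.1
    exact ⟨hrat1 u u' F F' hc hc' x hx (by linarith), hrat1 u' u F' F hc' hc x hx (by linarith)⟩
  · have h := hg ⟨x, hmem x hx⟩ hx
    exact ⟨hgap1 u F hc (fun w => (hcap w).1) x hx h.1 h.2.2.2.1 v hv,
      hgap1 u' F' hc' (fun w => (hcap w).2) x hx h.2.1 h.2.2.2.2 v hv⟩

/-- measurability of the height event -/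
private theorem Pair2_meas {S : Type} [Fintype S] {D : ℕ} (M : MSet S D) (κ κd Ml : ℝ)
    (X X' : S → ℝ) (m : ℕ) (y : S) (Rb : ℕ) :
    MeasurableSet {g : ℕ → S → ℝ | ∃ z, M.dd y z ≤ Rb ∧
      ¬ (Gap M κ (M.mf X g m) z ∧ Gap M κ (M.mf X' g m) z ∧
        |M.mf X g m z - M.mf X' g m z| ≤ κd ∧ -Ml ≤ M.mf X g m z ∧ -Ml ≤ M.mf X' g m z)} := by
  have hmf : ∀ (Y : S → ℝ) (z : S), Measurable (fun g : ℕ → S → ℝ => M.mf Y g m z) := by
    intro Y z
    have h1 : Measurable (fun g : ℕ → S → ℝ => ((Y, g) : (S → ℝ) × (ℕ → S → ℝ))) :=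
      measurable_const.prodMk measurable_id
    exact (measurable_mf M m z).comp h1
  have hGap : ∀ (Y : S → ℝ) (z : S), MeasurableSet {g : ℕ → S → ℝ | Gap M κ (M.mf Y g m) z} := by
    intro Y z
    have e : {g : ℕ → S → ℝ | Gap M κ (M.mf Y g m) z} =
        {g | M.mf Y g m z ≤ -(3 * κ)} ∩ ⋂ z', {g | z' ≠ z →
          M.mf Y g m z' - M.dd z z' + 3 * κ ≤ M.mf Y g m z} := by
      ext g
      simp only [Set.mem_inter_iff, Set.mem_iInter, Set.mem_ofPred_eq]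
      rfl
    rw [e]
    refine MeasurableSet.inter (measurableSet_le (hmf Y z) measurable_const) ?_
    refine MeasurableSet.iInter fun z' => ?_
    by_cases hz : z' = z
    · have e2 : {g : ℕ → S → ℝ | z' ≠ z → M.mf Y g m z' - M.dd z z' + 3 * κ ≤ M.mf Y g m z} =
          Set.univ := by
        ext g
        simp only [Set.mem_ofPred_eq, Set.mem_univ, iff_true]
        exact fun h => absurd hz h
      rw [e2]
      exact MeasurableSet.univ
    · have e2 : {g : ℕ → S → ℝ | z' ≠ z → M.mf Y g m z' - M.dd z z' + 3 * κ ≤ M.mf Y g m z} =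
          {g | M.mf Y g m z' - M.dd z z' + 3 * κ ≤ M.mf Y g m z} := by
        ext g
        simp only [Set.mem_ofPred_eq]
        exact ⟨fun h => h hz, fun h _ => h⟩
      rw [e2]
      exact measurableSet_le (((hmf Y z').sub_const _).add_const _) (hmf Y z)
  have e : {g : ℕ → S → ℝ | ∃ z, M.dd y z ≤ Rb ∧
      ¬ (Gap M κ (M.mf X g m) z ∧ Gap M κ (M.mf X' g m) z ∧
        |M.mf X g m z - M.mf X' g m z| ≤ κd ∧ -Ml ≤ M.mf X g m z ∧ -Ml ≤ M.mf X' g m z)} =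
      ⋃ z, ⋃ (_ : M.dd y z ≤ Rb), ({g | Gap M κ (M.mf X g m) z} ∩ ({g | Gap M κ (M.mf X' g m) z} ∩
        ({g | |M.mf X g m z - M.mf X' g m z| ≤ κd} ∩ ({g | -Ml ≤ M.mf X g m z} ∩
          {g | -Ml ≤ M.mf X' g m z}))))ᶜ := by
    ext g
    simp only [Set.mem_iUnion, Set.mem_compl_iff, Set.mem_inter_iff, Set.mem_ofPred_eq, exists_prop]
  rw [e]
  refine MeasurableSet.iUnion fun z => MeasurableSet.iUnion fun _ => MeasurableSet.compl ?_
  refine (hGap X z).inter ((hGap X' z).inter (MeasurableSet.inter ?_ (MeasurableSet.inter ?_ ?_)))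
  · exact measurableSet_le (((hmf X z).sub (hmf X' z)).abs) measurable_const
  · exact measurableSet_le measurable_const (hmf X z)
  · exact measurableSet_le measurable_const (hmf X' z)

private theorem Pair2_ell : Filter.Tendsto ell (nhdsWithin 0 (Set.Ioi 0)) Filter.atTop := by
  have h1 : ell = fun k => -Real.log k := by
    funext k
    unfold ell
    rw [one_div, Real.log_inv]
  rw [h1]
  exact Filter.tendsto_neg_atBot_atTop.comp Real.tendsto_log_nhdsGT_zero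

private theorem Pair2_k (B : ℝ) : ∃ k1 : ℝ, 0 < k1 ∧ k1 < 1 ∧ ∀ k, 0 < k → k < k1 →
    2 ≤ ell k ∧ B * k ^ (3 / 16 : ℝ) * ell k ^ 2 ≤ Real.log 2 := by
  have h1 := tendsto_rpow_mul_exp_neg_mul_atTop_nhds_zero 2 (3 / 16) (by norm_num)
  have h2 : Filter.Tendsto (fun x : ℝ => B * (x ^ (2 : ℝ) * Real.exp (-(3 / 16) * x)))
      Filter.atTop (nhds (B * 0)) := h1.const_mul B
  rw [mul_zero] at h2
  have h3 : ∀ᶠ x : ℝ in Filter.atTop, B * (x ^ (2 : ℝ) * Real.exp (-(3 / 16) * x)) < Real.log 2 :=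
    h2.eventually (gt_mem_nhds (Real.log_pos (by norm_num)))
  have h4 := Pair2_ell.eventually (h3.and (Filter.eventually_ge_atTop (2 : ℝ)))
  obtain ⟨k1, hk1pos, hk1⟩ := mem_nhdsGT_iff_exists_Ioo_subset.1 h4
  have hk1pos' : 0 < k1 := hk1pos
  refine ⟨min k1 (1 / 2), lt_min hk1pos' (by norm_num),
    lt_of_le_of_lt (min_le_right _ _) (by norm_num), ?_⟩
  intro k hk hkk
  obtain ⟨ha, hb⟩ := hk1 ⟨hk, lt_of_lt_of_le hkk (min_le_left _ _)⟩
  refine ⟨hb, ?_⟩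
  refine le_trans (le_of_eq ?_) ha.le
  rw [Pair2_kpow hk, show (2 : ℝ) = ((2 : ℕ) : ℝ) by norm_num, Real.rpow_natCast]
  rw [show -(ell k * (3 / 16)) = -(3 / 16) * ell k by ring]
  ring

/-- the windows -/
private theorem Pair2_win (T σ h E : ℝ) (hT : 2 ≤ T) (hσ : 0 < σ) (hσ16 : σ ≤ 1 / 16)
    (hh : 0 < h) (hE : 4 ≤ E) (hTσ : 2 * T * h ≤ σ) :
    ∃ nw J nJ n0 : ℕ, 1 ≤ nw ∧ 1 ≤ n0 ∧ n0 + nJ = J ∧ (J : ℝ) * σ ≤ T ∧
      σ * E ≤ nw * h ∧ nw * h ≤ σ * E + h ∧ σ ≤ nw * h / E ∧ nw * h / E ≤ 2 * σ ∧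
      1 / 2 ≤ (nJ : ℝ) * (nw * h / E) ∧ (nJ : ℝ) * (nw * h / E) ≤ 1 ∧
      ((n0 : ℝ) + nJ) * (nw * h / E) ≤ T + 1 ∧ T - 1 ≤ (n0 : ℝ) * (nw * h / E) ∧
      ∀ j : ℕ, j < nJ → (T - 3 / 2) * E ≤ (((n0 + j) * nw : ℕ) : ℝ) * h ∧
        (((n0 + j) * nw : ℕ) : ℝ) * h ≤ (T + 1 / 2) * E := by
  have hE0 : 0 < E := by linarith
  have h4σ : 4 * h ≤ σ := by
    have : 4 * h ≤ 2 * T * h := mul_le_mul_of_nonneg_right (by linarith) hh.le
    linarith
  obtain ⟨nw, hnw⟩ : ∃ nw : ℕ, nw = ⌈σ * E / h⌉₊ := ⟨_, rfl⟩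
  have hnw1 : σ * E ≤ nw * h := by
    rw [← div_le_iff₀ hh, hnw]
    exact Nat.le_ceil _
  have hnw2 : nw * h ≤ σ * E + h := by
    have h1 : (nw : ℝ) ≤ σ * E / h + 1 := by
      rw [hnw]
      exact (Nat.ceil_lt_add_one (by positivity)).le
    calc (nw : ℝ) * h ≤ (σ * E / h + 1) * h := mul_le_mul_of_nonneg_right h1 hh.le
      _ = σ * E + h := by field_simp
  have hnwpos : 1 ≤ nw := by
    rw [hnw]
    exact Nat.one_le_iff_ne_zero.2 (Nat.pos_iff_ne_zero.1 (Nat.ceil_pos.2 (by positivity)))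
  have hvσ : σ ≤ nw * h / E := by
    rw [le_div_iff₀ hE0]
    exact hnw1
  have hvσ2 : nw * h / E ≤ σ + h / 4 := by
    rw [div_le_iff₀ hE0]
    have h1 : h / 4 * 4 ≤ h / 4 * E := mul_le_mul_of_nonneg_left hE (by linarith)
    have h2 : (σ + h / 4) * E = σ * E + h / 4 * E := by ring
    linarith
  obtain ⟨J, hJ⟩ : ∃ J : ℕ, J = ⌊T / σ⌋₊ := ⟨_, rfl⟩
  obtain ⟨nJ, hnJ⟩ : ∃ nJ : ℕ, nJ = ⌊(3 / 4) / σ⌋₊ := ⟨_, rfl⟩
  have hJ1 : (J : ℝ) * σ ≤ T := by
    rw [← le_div_iff₀ hσ, hJ]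
    exact Nat.floor_le (by positivity)
  have hJ2 : T < ((J : ℝ) + 1) * σ := by
    rw [← div_lt_iff₀ hσ, hJ]
    exact Nat.lt_floor_add_one _
  have hnJ1 : (nJ : ℝ) * σ ≤ 3 / 4 := by
    rw [← le_div_iff₀ hσ, hnJ]
    exact Nat.floor_le (by positivity)
  have hnJ2 : 3 / 4 < ((nJ : ℝ) + 1) * σ := by
    rw [← div_lt_iff₀ hσ, hnJ]
    exact Nat.lt_floor_add_one _
  have hnJJ : nJ ≤ J := by
    rw [hJ, hnJ]
    apply Nat.floor_le_floor
    exact div_le_div_of_nonneg_right (by linarith) hσ.le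
  obtain ⟨n0, hn0⟩ : ∃ n0 : ℕ, n0 + nJ = J := ⟨J - nJ, by omega⟩
  have hn0r : (n0 : ℝ) + nJ = J := by exact_mod_cast hn0
  have hnJ0 : (0 : ℝ) ≤ nJ := Nat.cast_nonneg _
  have hJ0 : (0 : ℝ) ≤ J := Nat.cast_nonneg _
  have hn00 : (0 : ℝ) ≤ n0 := Nat.cast_nonneg _
  have hn0σ : T - 1 ≤ n0 * σ := by
    have h1 : (n0 : ℝ) * σ + nJ * σ = J * σ := by rw [← hn0r]; ring
    have h2 : ((J : ℝ) + 1) * σ = J * σ + σ := by ring
    linarith
  have hn01 : 1 ≤ n0 := by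
    rcases Nat.eq_zero_or_pos n0 with h0 | h0
    · rw [h0] at hn0σ
      push_cast at hn0σ
      linarith
    · exact h0
  have hJh : (J : ℝ) * h ≤ 1 / 2 := by
    have h1 : (J : ℝ) * (2 * T * h) ≤ J * σ := mul_le_mul_of_nonneg_left hTσ hJ0
    have h2 : (J : ℝ) * h * (2 * T) ≤ 1 / 2 * (2 * T) := by
      calc (J : ℝ) * h * (2 * T) = J * (2 * T * h) := by ring
        _ ≤ J * σ := h1
        _ ≤ T := hJ1
        _ = 1 / 2 * (2 * T) := by ring
    exact le_of_mul_le_mul_right h2 (by linarith)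
  have hnJJr : (nJ : ℝ) ≤ J := by exact_mod_cast hnJJ
  have hnJh : (nJ : ℝ) * h ≤ 1 / 2 := (mul_le_mul_of_nonneg_right hnJJr hh.le).trans hJh
  refine ⟨nw, J, nJ, n0, hnwpos, hn01, hn0, hJ1, hnw1, hnw2, hvσ, by linarith, ?_, ?_, ?_, ?_, ?_⟩
  · have h1 : (nJ : ℝ) * σ ≤ nJ * (nw * h / E) := mul_le_mul_of_nonneg_left hvσ hnJ0
    have h2 : ((nJ : ℝ) + 1) * σ = nJ * σ + σ := by ring
    linarith
  · have h1 : (nJ : ℝ) * (nw * h / E) ≤ nJ * (σ + h / 4) := mul_le_mul_of_nonneg_left hvσ2 hnJ0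
    have h2 : (nJ : ℝ) * (σ + h / 4) = nJ * σ + nJ * h / 4 := by ring
    linarith
  · rw [hn0r]
    have h1 : (J : ℝ) * (nw * h / E) ≤ J * (σ + h / 4) := mul_le_mul_of_nonneg_left hvσ2 hJ0
    have h2 : (J : ℝ) * (σ + h / 4) = J * σ + J * h / 4 := by ring
    linarith
  · exact hn0σ.trans (mul_le_mul_of_nonneg_left hvσ hn00)
  · intro j hj
    have hjJ : n0 + j ≤ J := by omega
    have hjJr : ((n0 + j : ℕ) : ℝ) ≤ J := by exact_mod_cast hjJ
    have hjn0 : (n0 : ℝ) ≤ ((n0 + j : ℕ) : ℝ) := by exact_mod_cast Nat.le_add_right _ _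
    have hnwh : 0 ≤ (nw : ℝ) * h := by positivity
    have e0 : (((n0 + j) * nw : ℕ) : ℝ) * h = ((n0 + j : ℕ) : ℝ) * (nw * h) := by
      push_cast
      ring
    rw [e0]
    constructor
    · calc (T - 3 / 2) * E ≤ (T - 1) * E := mul_le_mul_of_nonneg_right (by linarith) hE0.le
        _ ≤ n0 * σ * E := mul_le_mul_of_nonneg_right hn0σ hE0.le
        _ = n0 * (σ * E) := by ring
        _ ≤ n0 * (nw * h) := mul_le_mul_of_nonneg_left hnw1 hn00
        _ ≤ ((n0 + j : ℕ) : ℝ) * (nw * h) := mul_le_mul_of_nonneg_right hjn0 hnwh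
    · calc ((n0 + j : ℕ) : ℝ) * (nw * h) ≤ J * (nw * h) := mul_le_mul_of_nonneg_right hjJr hnwh
        _ ≤ J * (σ * E + h) := mul_le_mul_of_nonneg_left hnw2 hJ0
        _ = J * σ * E + J * h := by ring
        _ ≤ T * E + 1 / 2 := add_le_add (mul_le_mul_of_nonneg_right hJ1 hE0.le) hJh
        _ ≤ (T + 1 / 2) * E := by
            have : (T + 1 / 2) * E = T * E + E / 2 := by ring
            linarith

private theorem Pair2_add {a b c e f : ℝ} (ha : 0 ≤ a) (hb : 0 ≤ b) (hc : 0 ≤ c) (he : 0 ≤ e)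
    (hf : 0 ≤ f) : ENNReal.ofReal a + (ENNReal.ofReal b + (ENNReal.ofReal c +
      (ENNReal.ofReal e + ENNReal.ofReal f))) = ENNReal.ofReal (a + (b + (c + (e + f)))) := by
  rw [← ENNReal.ofReal_add he hf, ← ENNReal.ofReal_add hc (by linarith),
    ← ENNReal.ofReal_add hb (by linarith), ← ENNReal.ofReal_add ha (by linarith)]

theorem pair2 (d : ℕ) (hd : 1 ≤ d) (β : ℝ) (hβ : 0 < β) : ∃ (c3 C5 s1 : ℝ) (Ls : ℕ), 0 < c3 ∧
    1 ≤ C5 ∧ 0 < s1 ∧ s1 ≤ 1 / 16 ∧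
    ∀ (T M s0 κ κd p : ℝ) (Rb : ℕ), 2 ≤ T → 1 ≤ M → 0 ≤ s0 → s0 ≤ s1 → 0 < κ → κ ≤ 1 / 8 →
      0 < κd → κd ≤ κ → 0 < p → p ≤ 1 / 2 →
    ∃ ε0 k0 : ℝ, 0 < ε0 ∧ 0 < k0 ∧ k0 < 1 ∧ ∀ k, 0 < k → k < k0 → ∀ L : ℕ, Ls ≤ L →
    ∃ h0 : ℝ, 0 < h0 ∧ ∀ h, 0 < h → h < h0 →
    ∀ (G : (boxS d L → ℂ) × (boxS d L → ℂ)) (y : boxS d L) (A0 : ℝ), 0 ≤ A0 →
      LowR k (nrm G.1) M s0 y → LowR k (nrm G.2) M s0 y →
      Caps k (nrm G.1) ε0 y → Caps k (nrm G.2) ε0 y →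
      (∀ v, ‖G.1 v - G.2 v‖ ≤ A0 * k ^ (-(1 / 4) + 11 / 16 * ((boxNet d L).dist y v : ℝ))) →
    ∃ n : ℕ, (T - 3 / 2) * ell k ^ 2 ≤ n * h ∧ n * h ≤ (T + 1 / 2) * ell k ^ 2 ∧
      PI (Measure.pi fun _ : boxS d L => gC) {ω |
          ¬ (GCfg k κ (κ / (8 * C5 * (T + M + Rb + Real.log (1 / p)))) κd
              (C5 * (T + M + Rb + Real.log (1 / p))) y Rb
              (traj (st2 d β k h L) G.1 ω n, traj (st2 d β k h L) G.2 ω n) ∧
            ∀ v, ‖traj (st2 d β k h L) G.1 ω n v - traj (st2 d β k h L) G.2 ω n v‖ ≤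
              A0 * k ^ (-(C5 * (T + Real.log (1 / p))) + 5 / 8 * (boxNet d L).dist y v))}
        ≤ ENNReal.ofReal (pPr d c3 C5 T M s0 κ κd p Rb) := by
  obtain ⟨v0, c3, C, s1', nd, hv0, hc3, hC1, hs1', hs18, HH⟩ := hts2 d
  obtain ⟨C6, lam0, hC6, hlam0, HL⟩ := Pair2_lpp d
  refine ⟨c3, 7 * C + C6 + c3 + 5, min (s1' / 2) (1 / 16), 2 * nd, hc3, by linarith,
    lt_min (by linarith) (by norm_num), min_le_right _ _, ?_⟩
  intro T M s0 κ κd p Rb hT hM hs0 hs0s hκ hκ8 hκd hκdk hp hp2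
  obtain ⟨C5, hC5⟩ : ∃ C5 : ℝ, C5 = 7 * C + C6 + c3 + 5 := ⟨_, rfl⟩
  obtain ⟨lp, hlp⟩ : ∃ lp : ℝ, lp = Real.log (1 / p) := ⟨_, rfl⟩
  rw [← hC5, ← hlp]
  have hC5pos : 0 < C5 := by rw [hC5]; linarith
  have hC51 : 1 ≤ C5 := by rw [hC5]; linarith
  have hlp0 : 0 ≤ lp := by
    rw [hlp]
    apply Real.log_nonneg
    rw [le_div_iff₀ hp]
    linarith
  have hRb0 : (0 : ℝ) ≤ Rb := Nat.cast_nonneg _
  obtain ⟨B, hBd⟩ : ∃ B : ℝ, B = T + M + Rb + lp := ⟨_, rfl⟩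
  rw [← hBd]
  have hB3 : 3 + Rb ≤ B := by rw [hBd]; linarith
  have hs016 : s0 ≤ 1 / 16 := hs0s.trans (min_le_right _ _)
  have hs0s' : 2 * s0 ≤ s1' := by
    have := hs0s.trans (min_le_left _ _)
    linarith
  have hC5B : B ≤ C5 * B := le_mul_of_one_le_left (by linarith) hC51
  -- the radius
  obtain ⟨Rg, hRg⟩ : ∃ Rg : ℕ, Rg = ⌈2 * (C5 * B + Rb + 3)⌉₊ := ⟨_, rfl⟩
  have hRg1 : 2 * (C5 * B + Rb + 3) ≤ (Rg : ℝ) := by rw [hRg]; exact Nat.le_ceil _
  have hRg2 : (Rg : ℝ) ≤ 2 * (C5 * B + Rb + 3) + 1 := by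
    rw [hRg]
    exact (Nat.ceil_lt_add_one (by linarith)).le
  have hbg : Rb ≤ Rg := by
    have : (Rb : ℝ) ≤ Rg := by linarith
    exact_mod_cast this
  obtain ⟨R0, HR⟩ := cmp2 d hd β hβ T M s0 Rg (κd / 8) (p / 16) (by linarith) hM hs0 hs016
    (by linarith) (by linarith)
  obtain ⟨R, hR⟩ : ∃ R : ℕ, R = max R0 (max (4 * nd) Rg) := ⟨_, rfl⟩
  have hRR0 : R0 ≤ R := by rw [hR]; exact le_max_left _ _
  have hRnd : 4 * nd ≤ R := by rw [hR]; exact (le_max_left _ _).trans (le_max_right _ _)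
  have hRRg : Rg ≤ R := by rw [hR]; exact (le_max_right _ _).trans (le_max_right _ _)
  obtain ⟨σ0, hσ0, Hσ⟩ := HR R hRR0
  -- the window length
  obtain ⟨σ, hσ⟩ : ∃ σ : ℝ, σ = min (min σ0 (1 / 16)) (min (v0 / 2) (κ ^ 2 / (2 * C))) := ⟨_, rfl⟩
  have hσpos : 0 < σ := by
    rw [hσ]
    exact lt_min (lt_min hσ0 (by norm_num)) (lt_min (by linarith) (by positivity))
  have hσσ0 : σ ≤ σ0 := by rw [hσ]; exact (min_le_left _ _).trans (min_le_left _ _)
  have hσ16 : σ ≤ 1 / 16 := by rw [hσ]; exact (min_le_left _ _).trans (min_le_right _ _)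
  have hσv0 : 2 * σ ≤ v0 := by
    have : σ ≤ v0 / 2 := by rw [hσ]; exact (min_le_right _ _).trans (min_le_left _ _)
    linarith
  have hσκ : 2 * σ ≤ κ ^ 2 / C := by
    have h1 : σ ≤ κ ^ 2 / (2 * C) := by
      rw [hσ]
      exact (min_le_right _ _).trans (min_le_right _ _)
    have h2 : κ ^ 2 / C = 2 * (κ ^ 2 / (2 * C)) := by
      field_simp
    linarith
  obtain ⟨ε0c, k0c, hε0c, hk0c, hk0c1, Hk⟩ := Hσ σ hσpos hσσ0
  obtain ⟨k0p, hk0p, hk0p1, Hcaps⟩ := Pair2_caps d β hβ p hp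
  obtain ⟨k1, hk1pos, hk11, Hk1⟩ := Pair2_k (4 * d * (T + 1 / 2))
  have hR1 : (0 : ℝ) < 1 + R := by positivity
  obtain ⟨ε0, hε0⟩ : ∃ ε0 : ℝ, ε0 = min ε0c (1 / 16 / (1 + R)) := ⟨_, rfl⟩
  have hε0pos : 0 < ε0 := by rw [hε0]; exact lt_min hε0c (by positivity)
  have hε0R : ε0 * (1 + R) ≤ 1 / 16 := by
    rw [← le_div_iff₀ hR1, hε0]
    exact min_le_right _ _
  have hε0c' : ε0 ≤ ε0c := by rw [hε0]; exact min_le_left _ _
  refine ⟨ε0, min k0c (min k0p k1), hε0pos, lt_min hk0c (lt_min hk0p hk1pos),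
    lt_of_le_of_lt (min_le_left _ _) hk0c1, ?_⟩
  intro k hk hkk L hLs
  have hkc : k < k0c := lt_of_lt_of_le hkk (min_le_left _ _)
  have hkp : k < k0p := lt_of_lt_of_le hkk ((min_le_right _ _).trans (min_le_left _ _))
  have hkk1 : k < k1 := lt_of_lt_of_le hkk ((min_le_right _ _).trans (min_le_right _ _))
  have hk1' : k < 1 := hkc.trans hk0c1
  have hell := ell_pos hk hk1'
  obtain ⟨hell2, hgrow⟩ := Hk1 k hk hkk1
  have hellsq : 4 ≤ ell k ^ 2 := by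
    have h1 : (2 : ℝ) * 2 ≤ ell k * ell k := mul_le_mul hell2 hell2 (by norm_num) hell.le
    calc (4 : ℝ) = 2 * 2 := by norm_num
      _ ≤ ell k * ell k := h1
      _ = ell k ^ 2 := by ring
  have hellsq0 : 0 < ell k ^ 2 := by positivity
  obtain ⟨hcm, hhcm, HC⟩ := Hk k hk hkc L
  obtain ⟨hcp, hhcp, HP⟩ := Hcaps k hk hkp L ((T + 1 / 2) * ell k ^ 2) ε0 (by positivity) hε0pos
  refine ⟨min hcm (min hcp (min (1 / lam0 ^ 2) (min (σ / (2 * T)) 1))), by positivity, ?_⟩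
  intro h hh hlt G y A0 hA0 hL1 hL2 hcap1 hcap2 hprof
  have hlcm : h < hcm := lt_of_lt_of_le hlt (min_le_left _ _)
  have hlcp : h < hcp := lt_of_lt_of_le hlt ((min_le_right _ _).trans (min_le_left _ _))
  have hllam : h < 1 / lam0 ^ 2 := lt_of_lt_of_le hlt ((min_le_right _ _).trans
    ((min_le_right _ _).trans (min_le_left _ _)))
  have hlσ : h < σ / (2 * T) := lt_of_lt_of_le hlt ((min_le_right _ _).trans
    ((min_le_right _ _).trans ((min_le_right _ _).trans (min_le_left _ _))))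
  have hl1 : h < 1 := lt_of_lt_of_le hlt ((min_le_right _ _).trans
    ((min_le_right _ _).trans ((min_le_right _ _).trans (min_le_right _ _))))
  have hTσ : 2 * T * h ≤ σ := by
    rw [lt_div_iff₀ (by linarith)] at hlσ
    linarith
  -- the windows
  obtain ⟨nw, J, nJ, n0, hnwpos, hn01, hn0, hJ1, hnw1, hnw2, hvσ, hvσ2, hw1, hw2, hw3, hn0v, hwj⟩ :=
    Pair2_win T σ h (ell k ^ 2) hT hσpos hσ16 hh hellsq hTσ
  -- the heights
  set Mb : MSet (Bl d L y R) d := ballM d L y R with hMb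
  have hy0 : (boxNet d L).dist y y ≤ R := by
    rw [(boxNet d L).dist_self]
    exact Nat.zero_le _
  have hhB : ∀ (u : boxS d L → ℝ) (x : Bl d L y R), hB k (M + s0 * R + 1) u y R x ≤ 0 := by
    intro u x
    unfold hB
    exact min_le_left _ _
  have hX0 : ∀ (u : boxS d L → ℝ) (x : Bl d L y R), Mb.RR (hB k (M + s0 * R + 1) u y R) x ≤ 0 := by
    intro u x
    refine RR_le Mb _ _ _ fun z => ?_
    have h1 := hhB u z
    have h2 : (0 : ℝ) ≤ Mb.dd x z := Nat.cast_nonneg _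
    linarith
  obtain ⟨j, hj, hbd⟩ := HH (Bl d L y R) Mb (ball_line d hd nd L R hLs hRnd y) T (2 * M + 4)
    (2 * s0) κ (κd / 8) (p / 4) (nw * h / ell k ^ 2) Rb n0 nJ ⟨y, hy0⟩
    (Mb.RR (hB k (M + s0 * R + 1) (nrm G.1) y R)) (Mb.RR (hB k (M + s0 * R + 1) (nrm G.2) y R))
    (by linarith) (by linarith) (by linarith) hs0s' hκ (by linarith) (by linarith) (by linarith)
    (by linarith) (lt_of_lt_of_le hσpos hvσ) (hvσ2.trans hσv0) (hvσ2.trans hσκ) hn01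
    hw1 hw2 hw3
    (hX0 _) (hX0 _)
    (fun z => by
      have h1 := hB_low k M s0 ε0 hk hk1' (by linarith) hs0 hs016 hε0pos R hε0R y (nrm G.1)
        (fun v => norm_nonneg _) hL1 hcap1 z
      exact h1)
    (fun z => by
      have h1 := hB_low k M s0 ε0 hk hk1' (by linarith) hs0 hs016 hε0pos R hε0R y (nrm G.2)
        (fun v => norm_nonneg _) hL2 hcap2 z
      exact h1)
  have hjJ : n0 + j ≤ J := by omega
  have hjJr : ((n0 + j : ℕ) : ℝ) ≤ J := by exact_mod_cast hjJ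
  obtain ⟨hnlow, hnup⟩ := hwj j hj
  refine ⟨(n0 + j) * nw, hnlow, hnup, ?_⟩
  have hnup' : (((n0 + j) * nw : ℕ) : ℝ) * (h / ell k ^ 2) ≤ T + 1 := by
    rw [← mul_div_assoc, div_le_iff₀ hellsq0]
    exact hnup.trans (mul_le_mul_of_nonneg_right (by linarith) hellsq0.le)
  have hn1h : 1 ≤ (((n0 + j) * nw : ℕ) : ℝ) * h := by
    have h1 : 1 / 2 * 4 ≤ (T - 3 / 2) * ell k ^ 2 :=
      mul_le_mul (by linarith) hellsq (by norm_num) (by linarith)
    linarith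
  set P := PI (Measure.pi fun _ : boxS d L => gC) with hP
  -- the heights at the good time
  set F1 : (ℕ → boxS d L → ℂ) → Bl d L y R → ℝ := fun ω =>
    Mb.mf (hB k (M + s0 * R + 1) (nrm G.1) y R) (gwin y R (gz k h ω) nw) (n0 + j) with hF1
  set F2 : (ℕ → boxS d L → ℂ) → Bl d L y R → ℝ := fun ω =>
    Mb.mf (hB k (M + s0 * R + 1) (nrm G.2) y R) (gwin y R (gz k h ω) nw) (n0 + j) with hF2
  obtain ⟨mm, hmm⟩ : ∃ mm, n0 + j = mm + 1 := ⟨n0 + j - 1, by omega⟩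
  have hmf : ∀ (Y : Bl d L y R → ℝ) (g : ℕ → Bl d L y R → ℝ),
      Mb.mf (Mb.RR Y) g (n0 + j) = Mb.mf Y g (n0 + j) := by
    intro Y g
    rw [hmm]
    exact mf_RR Mb Y g mm
  obtain ⟨Ml, hMl⟩ : ∃ Ml : ℝ, Ml = C * (T + (2 * M + 4) + Rb + Real.log (1 / (p / 4)) + 1) :=
    ⟨_, rfl⟩
  rw [← hMl] at hbd
  set Eh : Set (ℕ → Bl d L y R → ℝ) := {g | ∃ z, Mb.dd ⟨y, hy0⟩ z ≤ Rb ∧
      ¬ (Gap Mb κ (Mb.mf (Mb.RR (hB k (M + s0 * R + 1) (nrm G.1) y R)) g (n0 + j)) z ∧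
        Gap Mb κ (Mb.mf (Mb.RR (hB k (M + s0 * R + 1) (nrm G.2) y R)) g (n0 + j)) z ∧
        |Mb.mf (Mb.RR (hB k (M + s0 * R + 1) (nrm G.1) y R)) g (n0 + j) z -
          Mb.mf (Mb.RR (hB k (M + s0 * R + 1) (nrm G.2) y R)) g (n0 + j) z| ≤ κd / 8 ∧
        -Ml ≤ Mb.mf (Mb.RR (hB k (M + s0 * R + 1) (nrm G.1) y R)) g (n0 + j) z ∧
        -Ml ≤ Mb.mf (Mb.RR (hB k (M + s0 * R + 1) (nrm G.2) y R)) g (n0 + j) z)} with hEh
  have hEhm : MeasurableSet Eh := Pair2_meas Mb κ (κd / 8) Ml _ _ (n0 + j) ⟨y, hy0⟩ Rb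
  set E1 : Set (ℕ → boxS d L → ℂ) := {ω | gwin y R (gz k h ω) nw ∈ Eh} with hE1
  have hb1 : P E1 ≤ ENNReal.ofReal (p / 4 + (2 * Rb + 1) ^ d / (κd / 8) *
            Real.exp (C * (2 * M + 4 + 2 * s0 * Rb + 1) - c3 * (n0 * (nw * h / ell k ^ 2))) +
          κ * Ml ^ (4 * d + 4)) := by
    rw [hP, hE1, gw_law d L k h hk hk1' hh nw hnwpos y R Eh hEhm]
    exact hbd
  set E2 : Set (ℕ → boxS d L → ℂ) := {ω | ∃ i, 1 ≤ i ∧ i ≤ J ∧ ∃ x : Bl d L y R,
          (boxNet d L).dist y x.1 ≤ Rg ∧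
          ¬ (Real.exp (ell k * ((ballM d L y R).mf (hB k (M + s0 * R + 1) (nrm G.1) y R)
                (gwin y R (gz k h ω) nw) i x - κd / 8)) ≤
                ‖traj (st2 d β k h L) G.1 ω (i * nw) x.1‖ ∧
              ‖traj (st2 d β k h L) G.1 ω (i * nw) x.1‖ ≤
              Real.exp (ell k * ((ballM d L y R).mf (hB k (M + s0 * R + 1) (nrm G.1) y R)
                (gwin y R (gz k h ω) nw) i x + κd / 8)))} with hE2
  have hcapm : ∀ u : boxS d L → ℝ, Caps k u ε0 y → Caps k u ε0c y := by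
    intro u hu v
    refine (hu v).trans ?_
    apply Real.rpow_le_rpow_of_exponent_ge hk hk1'.le
    have h1 : (0 : ℝ) ≤ 1 + (boxNet d L).dist v y := by positivity
    have h2 : ε0 * (1 + (boxNet d L).dist v y) ≤ ε0c * (1 + (boxNet d L).dist v y) :=
      mul_le_mul_of_nonneg_right hε0c' h1
    linarith
  have hb2 : P E2 ≤ ENNReal.ofReal (p / 16) :=
    HC h hh hlcm nw J (by linarith) (by linarith) hJ1 G.1 y hL1 (hcapm _ hcap1)
  set E3 : Set (ℕ → boxS d L → ℂ) := {ω | ∃ i, 1 ≤ i ∧ i ≤ J ∧ ∃ x : Bl d L y R,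
          (boxNet d L).dist y x.1 ≤ Rg ∧
          ¬ (Real.exp (ell k * ((ballM d L y R).mf (hB k (M + s0 * R + 1) (nrm G.2) y R)
                (gwin y R (gz k h ω) nw) i x - κd / 8)) ≤
                ‖traj (st2 d β k h L) G.2 ω (i * nw) x.1‖ ∧
              ‖traj (st2 d β k h L) G.2 ω (i * nw) x.1‖ ≤
              Real.exp (ell k * ((ballM d L y R).mf (hB k (M + s0 * R + 1) (nrm G.2) y R)
                (gwin y R (gz k h ω) nw) i x + κd / 8)))} with hE3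
  have hb3 : P E3 ≤ ENNReal.ofReal (p / 16) :=
    HC h hh hlcm nw J (by linarith) (by linarith) hJ1 G.2 y hL2 (hcapm _ hcap2)
  set E4 : Set (ℕ → boxS d L → ℂ) := {ω | ¬ ∀ v,
          ‖traj (st2 d β k h L) G.1 ω ((n0 + j) * nw) v‖ ≤
            k ^ (-((1 + (boxNet d L).dist y v : ℝ) / 8)) ∧
          ‖traj (st2 d β k h L) G.2 ω ((n0 + j) * nw) v‖ ≤
            k ^ (-((1 + (boxNet d L).dist y v : ℝ) / 8))} with hE4
  have hb4 : P E4 ≤ ENNReal.ofReal (p / 8) :=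
    HP h hh hlcp G y hcap1 hcap2 ((n0 + j) * nw) hn1h hnup
  set E5 : Set (ℕ → boxS d L → ℂ) := {ω | ∃ v : boxS d L,
        C6 * (T + Real.log (1 / p)) + (boxNet d L).dist y v / 16 ≤
          (boxMSet d L).lppM (1 / 8) (fun _ => 0) (gz k h ω) ((n0 + j) * nw) v} with hE5
  have hb5 : P E5 ≤ ENNReal.ofReal (p / 16) := by
    refine HL T p hT hp hp2 k h hk hk1' hh ?_ L ((n0 + j) * nw) y hnup'
    refine le_trans ?_ hllam.le
    exact div_le_self hh.le (by linarith)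
  -- off the exceptional events
  have hMl6 : Ml + κd / 8 ≤ C5 * B := by
    have e1 : Real.log (1 / (p / 4)) = lp + Real.log 4 := by
      rw [hlp, show (1 / (p / 4) : ℝ) = 1 / p * 4 by field_simp,
        Real.log_mul (by positivity) (by norm_num)]
    have e2 : Real.log 4 ≤ 2 := by
      have h4 : Real.log 4 = 2 * Real.log 2 := by
        rw [show (4 : ℝ) = 2 ^ 2 by norm_num, Real.log_pow]
        norm_num
      have h5 := Real.log_two_lt_d9
      rw [h4]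
      linarith
    have e3 : Ml ≤ 7 * C * B := by
      have h1 : T + (2 * M + 4) + Rb + Real.log (1 / (p / 4)) + 1 ≤ 7 * B := by
        rw [e1, hBd]
        linarith
      rw [hMl]
      calc C * (T + (2 * M + 4) + Rb + Real.log (1 / (p / 4)) + 1) ≤ C * (7 * B) :=
            mul_le_mul_of_nonneg_left h1 (by linarith)
        _ = 7 * C * B := by ring
    have e4 : 7 * C * B + 1 * B ≤ C5 * B := by
      rw [← add_mul]
      apply mul_le_mul_of_nonneg_right _ (by linarith)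
      rw [hC5]
      linarith
    linarith
  have hBpos : 0 < B := by linarith
  have h8 : 0 < 8 * C5 * B := by positivity
  have hκ2nn : 0 ≤ κ / (8 * C5 * B) := by positivity
  have hκ28 : κ / (8 * C5 * B) ≤ 1 / 8 := by
    rw [div_le_iff₀ h8]
    have h1 : 1 / 8 * (8 * C5 * B) = C5 * B := by ring
    rw [h1]
    linarith
  have hκR : κ / (8 * C5 * B) * (Rb + Rg) ≤ κ := by
    rw [div_mul_eq_mul_div, div_le_iff₀ h8]
    apply mul_le_mul_of_nonneg_left _ hκ.le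
    linarith
  have hgood : ∀ ω, ω ∉ E1 → ω ∉ E2 → ω ∉ E3 → ω ∉ E4 → ω ∉ E5 →
      (GCfg k κ (κ / (8 * C5 * B)) κd (C5 * B) y Rb
          (traj (st2 d β k h L) G.1 ω ((n0 + j) * nw), traj (st2 d β k h L) G.2 ω ((n0 + j) * nw)) ∧
        ∀ v, ‖traj (st2 d β k h L) G.1 ω ((n0 + j) * nw) v -
            traj (st2 d β k h L) G.2 ω ((n0 + j) * nw) v‖ ≤
          A0 * k ^ (-(C5 * (T + lp)) + 5 / 8 * (boxNet d L).dist y v)) := by
    intro ω h1 h2 h3 h4 h5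
    refine ⟨?_, ?_⟩
    · refine Pair2_cfg hk hk1' hκ8 hκd hκdk (by positivity) hMl6 hκ2nn hκ28 y Rb Rg R hbg hRRg hκR
        hRg1 _ _ (F1 ω) (F2 ω) ?_ ?_ ?_ ?_
      · intro x hx
        by_contra hcon
        exact h2 ⟨n0 + j, by omega, hjJ, x, hx, hcon⟩
      · intro x hx
        by_contra hcon
        exact h3 ⟨n0 + j, by omega, hjJ, x, hx, hcon⟩
      · intro z hz
        by_contra hcon
        refine h1 ?_
        refine ⟨z, hz, ?_⟩
        rw [hmf, hmf]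
        exact hcon
      · by_contra hcon
        exact h4 hcon
    · intro v
      have hd1 := Pair2_diff d hβ hk hk1' hh L G y A0 hA0 hprof ω ((n0 + j) * nw) v
      refine hd1.trans ?_
      have hl : (boxMSet d L).lpp (1 / 8) (fun _ => 0) (gz k h ω) ((n0 + j) * nw) v ≤
          C6 * (T + lp) + (boxNet d L).dist y v / 16 := by
        refine (le_lppM (boxMSet d L) (1 / 8) (fun _ => 0) (gz k h ω) le_rfl v).trans ?_
        by_contra hcon
        push Not at hcon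
        refine h5 ⟨v, ?_⟩
        rw [← hlp]
        exact hcon.le
      have hpow : (1 + 4 * d * k ^ (3 / 16 : ℝ) * h) ^ ((n0 + j) * nw) ≤ 2 := by
        have e1 : (1 + 4 * d * k ^ (3 / 16 : ℝ) * h) ≤ Real.exp (4 * d * k ^ (3 / 16 : ℝ) * h) := by
          have := Real.add_one_le_exp (4 * d * k ^ (3 / 16 : ℝ) * h)
          linarith
        have e0 : 0 ≤ 1 + 4 * d * k ^ (3 / 16 : ℝ) * h := by positivity
        calc (1 + 4 * d * k ^ (3 / 16 : ℝ) * h) ^ ((n0 + j) * nw)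
            ≤ Real.exp (4 * d * k ^ (3 / 16 : ℝ) * h) ^ ((n0 + j) * nw) :=
              pow_le_pow_left₀ e0 e1 _
          _ = Real.exp ((((n0 + j) * nw : ℕ) : ℝ) * (4 * d * k ^ (3 / 16 : ℝ) * h)) := by
              rw [← Real.exp_nat_mul]
          _ ≤ Real.exp (Real.log 2) := by
              apply Real.exp_le_exp.2
              have e2 : (((n0 + j) * nw : ℕ) : ℝ) * (4 * d * k ^ (3 / 16 : ℝ) * h) =
                  4 * d * k ^ (3 / 16 : ℝ) * ((((n0 + j) * nw : ℕ) : ℝ) * h) := by ring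
              rw [e2]
              have e3 : 4 * d * k ^ (3 / 16 : ℝ) * ((((n0 + j) * nw : ℕ) : ℝ) * h) ≤
                  4 * d * k ^ (3 / 16 : ℝ) * ((T + 1 / 2) * ell k ^ 2) :=
                mul_le_mul_of_nonneg_left hnup (by positivity)
              refine e3.trans (le_trans (le_of_eq ?_) hgrow)
              ring
          _ = 2 := Real.exp_log (by norm_num)
      have h2e : (2 : ℝ) ≤ Real.exp (ell k * 1) := by
        have e1 := Real.add_one_le_exp (ell k * 1)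
        linarith
      have hDv : (0 : ℝ) ≤ (boxNet d L).dist y v := Nat.cast_nonneg _
      rw [Pair2_kpow hk (-(C5 * (T + lp)) + 5 / 8 * ((boxNet d L).dist y v : ℝ))]
      calc A0 * (1 + 4 * d * k ^ (3 / 16 : ℝ) * h) ^ ((n0 + j) * nw) *
            Real.exp (ell k * ((boxMSet d L).lpp (1 / 8) (fun _ => 0) (gz k h ω)
              ((n0 + j) * nw) v + (1 / 4 - 11 / 16 * ((boxNet d L).dist y v : ℝ))))
          ≤ A0 * Real.exp (ell k * 1) *
            Real.exp (ell k * ((C6 * (T + lp) + (boxNet d L).dist y v / 16) +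
              (1 / 4 - 11 / 16 * ((boxNet d L).dist y v : ℝ)))) := by
            refine mul_le_mul (mul_le_mul_of_nonneg_left (hpow.trans h2e) hA0) ?_
              (Real.exp_pos _).le (by positivity)
            apply Real.exp_le_exp.2
            apply mul_le_mul_of_nonneg_left _ hell.le
            linarith
        _ = A0 * Real.exp (ell k * (1 + ((C6 * (T + lp) + (boxNet d L).dist y v / 16) +
              (1 / 4 - 11 / 16 * ((boxNet d L).dist y v : ℝ))))) := by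
            rw [mul_assoc, ← Real.exp_add]
            congr 2
            ring
        _ ≤ A0 * Real.exp (-(ell k * (-(C5 * (T + lp)) + 5 / 8 * (boxNet d L).dist y v))) := by
            apply mul_le_mul_of_nonneg_left _ hA0
            apply Real.exp_le_exp.2
            rw [← mul_neg]
            apply mul_le_mul_of_nonneg_left _ hell.le
            have e1 : C6 * (T + lp) + 2 * (T + lp) ≤ C5 * (T + lp) := by
              rw [← add_mul]
              apply mul_le_mul_of_nonneg_right _ (by linarith)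
              rw [hC5]
              linarith
            linarith
  -- the total probability
  have hsub : {ω : ℕ → boxS d L → ℂ | ¬ (GCfg k κ (κ / (8 * C5 * B)) κd (C5 * B) y Rb
          (traj (st2 d β k h L) G.1 ω ((n0 + j) * nw), traj (st2 d β k h L) G.2 ω ((n0 + j) * nw)) ∧
        ∀ v, ‖traj (st2 d β k h L) G.1 ω ((n0 + j) * nw) v -
            traj (st2 d β k h L) G.2 ω ((n0 + j) * nw) v‖ ≤
          A0 * k ^ (-(C5 * (T + lp)) + 5 / 8 * (boxNet d L).dist y v))} ⊆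
      E1 ∪ (E2 ∪ (E3 ∪ (E4 ∪ E5))) := by
    intro ω hω
    by_contra hcon
    simp only [Set.mem_union, not_or] at hcon
    exact hω (hgood ω hcon.1 hcon.2.1 hcon.2.2.1 hcon.2.2.2.1 hcon.2.2.2.2)
  have hMl0 : 0 ≤ Ml := by
    rw [hMl]
    have e1 : 0 ≤ Real.log (1 / (p / 4)) := by
      apply Real.log_nonneg
      rw [le_div_iff₀ (by positivity)]
      linarith
    have e2 : (0 : ℝ) ≤ C := by linarith
    positivity
  have hs0Rb : 0 ≤ s0 * Rb := mul_nonneg hs0 hRb0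
  have hexp : Real.exp (C * (2 * M + 4 + 2 * s0 * Rb + 1) - c3 * (n0 * (nw * h / ell k ^ 2))) * 8 ≤
      Real.exp (C5 * (M + s0 * Rb + 1) - c3 * T) := by
    have e0 : (8 : ℝ) ≤ Real.exp 3 := by
      have h1 := Real.exp_one_gt_d9
      have h2 : Real.exp 3 = Real.exp 1 * Real.exp 1 * Real.exp 1 := by
        rw [← Real.exp_add, ← Real.exp_add]
        norm_num
      rw [h2]
      have h3 : (2 : ℝ) ≤ Real.exp 1 := by linarith
      have h4 : (2 : ℝ) * 2 ≤ Real.exp 1 * Real.exp 1 :=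
        mul_le_mul h3 h3 (by norm_num) (by linarith)
      have h5 : (2 : ℝ) * 2 * 2 ≤ Real.exp 1 * Real.exp 1 * Real.exp 1 :=
        mul_le_mul h4 h3 (by norm_num) (by linarith)
      linarith
    calc Real.exp (C * (2 * M + 4 + 2 * s0 * Rb + 1) - c3 * (n0 * (nw * h / ell k ^ 2))) * 8
        ≤ Real.exp (C * (2 * M + 4 + 2 * s0 * Rb + 1) - c3 * (n0 * (nw * h / ell k ^ 2))) *
            Real.exp 3 := mul_le_mul_of_nonneg_left e0 (Real.exp_pos _).le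
      _ = Real.exp (C * (2 * M + 4 + 2 * s0 * Rb + 1) - c3 * (n0 * (nw * h / ell k ^ 2)) + 3) := by
          rw [← Real.exp_add]
      _ ≤ Real.exp (C5 * (M + s0 * Rb + 1) - c3 * T) := by
          apply Real.exp_le_exp.2
          have e1 : T - 1 ≤ n0 * (nw * h / ell k ^ 2) := hn0v
          have e2 : c3 * (T - 1) ≤ c3 * (n0 * (nw * h / ell k ^ 2)) :=
            mul_le_mul_of_nonneg_left e1 hc3.le
          have e3 : C * (2 * M + 4 + 2 * s0 * Rb + 1) ≤ 7 * C * (M + s0 * Rb + 1) := by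
            have h1 : (2 * M + 4 + 2 * s0 * Rb + 1) ≤ 7 * (M + s0 * Rb + 1) := by
              linarith
            calc C * (2 * M + 4 + 2 * s0 * Rb + 1) ≤ C * (7 * (M + s0 * Rb + 1)) :=
                  mul_le_mul_of_nonneg_left h1 (by linarith)
              _ = 7 * C * (M + s0 * Rb + 1) := by ring
          have e4 : (C6 + c3 + 5) * 1 ≤ (C6 + c3 + 5) * (M + s0 * Rb + 1) :=
            mul_le_mul_of_nonneg_left (by linarith) (by linarith)
          have e5 : C5 * (M + s0 * Rb + 1) =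
              7 * C * (M + s0 * Rb + 1) + (C6 + c3 + 5) * (M + s0 * Rb + 1) := by
            rw [hC5]
            ring
          rw [e5]
          linarith
  have hterm2 : (2 * (Rb : ℝ) + 1) ^ d / (κd / 8) *
      Real.exp (C * (2 * M + 4 + 2 * s0 * Rb + 1) - c3 * (n0 * (nw * h / ell k ^ 2))) ≤
      (2 * Rb + 1) ^ d / κd * Real.exp (C5 * (M + s0 * Rb + 1) - c3 * T) := by
    calc (2 * (Rb : ℝ) + 1) ^ d / (κd / 8) *
      Real.exp (C * (2 * M + 4 + 2 * s0 * Rb + 1) - c3 * (n0 * (nw * h / ell k ^ 2)))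
        = (2 * Rb + 1) ^ d / κd *
          (Real.exp (C * (2 * M + 4 + 2 * s0 * Rb + 1) - c3 * (n0 * (nw * h / ell k ^ 2))) * 8) := by
          field_simp
      _ ≤ (2 * Rb + 1) ^ d / κd * Real.exp (C5 * (M + s0 * Rb + 1) - c3 * T) :=
          mul_le_mul_of_nonneg_left hexp (by positivity)
  have hterm3 : κ * Ml ^ (4 * d + 4) ≤ κ * (C5 * B) ^ (4 * d + 4) := by
    apply mul_le_mul_of_nonneg_left _ hκ.le
    apply pow_le_pow_left₀ hMl0
    linarith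
  have hterm20 : 0 ≤ (2 * (Rb : ℝ) + 1) ^ d / (κd / 8) *
      Real.exp (C * (2 * M + 4 + 2 * s0 * Rb + 1) - c3 * (n0 * (nw * h / ell k ^ 2))) := by
    positivity
  have hterm30 : 0 ≤ κ * Ml ^ (4 * d + 4) := mul_nonneg hκ.le (pow_nonneg hMl0 _)
  calc P _ ≤ P (E1 ∪ (E2 ∪ (E3 ∪ (E4 ∪ E5)))) := measure_mono hsub
    _ ≤ P E1 + (P E2 + (P E3 + (P E4 + P E5))) := by
        refine (measure_union_le _ _).trans (add_le_add le_rfl ?_)
        refine (measure_union_le _ _).trans (add_le_add le_rfl ?_)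
        refine (measure_union_le _ _).trans (add_le_add le_rfl ?_)
        exact measure_union_le _ _
    _ ≤ ENNReal.ofReal (p / 4 + (2 * Rb + 1) ^ d / (κd / 8) *
            Real.exp (C * (2 * M + 4 + 2 * s0 * Rb + 1) - c3 * (n0 * (nw * h / ell k ^ 2))) +
          κ * Ml ^ (4 * d + 4)) + (ENNReal.ofReal (p / 16) + (ENNReal.ofReal (p / 16) +
          (ENNReal.ofReal (p / 8) + ENNReal.ofReal (p / 16)))) :=
        add_le_add hb1 (add_le_add hb2 (add_le_add hb3 (add_le_add hb4 hb5)))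
    _ = ENNReal.ofReal ((p / 4 + (2 * Rb + 1) ^ d / (κd / 8) *
            Real.exp (C * (2 * M + 4 + 2 * s0 * Rb + 1) - c3 * (n0 * (nw * h / ell k ^ 2))) +
          κ * Ml ^ (4 * d + 4)) + (p / 16 + (p / 16 + (p / 8 + p / 16)))) := by
        exact Pair2_add (by linarith) (by linarith) (by linarith) (by linarith) (by linarith)
    _ ≤ ENNReal.ofReal (pPr d c3 C5 T M s0 κ κd p Rb) := by
        refine ENNReal.ofReal_le_ofReal ?_
        unfold pPr
        rw [← hlp, ← hBd]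
        linarith

end DynC
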