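import Pool.Agent.Lib_MP_36b788c.BrM
import Pool.Agent.Lib_MP_36b788c.Pair2
import Pool.Agent.Lib_MP_36b788c.Sm3
import Pool.Agent.Lib_MP_36b788c.Grw2
import Pool.Agent.Lib_MP_36b788c.Mom1

/-!
# One block from a state with lower bounds and caps, `N = 2`

`B = T + M + Rb + log(1/p)`, `M6 = C5 B`, `M8 = C5 (T + log(1/p)) + 1`, `κ2 = κ/(8 C5 B)`. `κL, CW`: constants of the drift of `wpr` (hypothesis).

PROOF of `mid2`. `n` from `pair2`, `m = n + m'`; `(T+1) ell² - 3 - (T + 1/2) ell² ≥ sw ell² + 1` and `m' h ≤ (5/2) ell² + 3 ≤ 4 ell² + 4`. `E` = the bad event of `pair2` (it depends on the first `n` noises; replace it by a measurable superset with the same bound if you do not want to prove measurability: `toMeasurable`; but the dependence on the first `n` coordinates is needed, so better prove measurability: `GCfg` is a finite conjunction of closed conditions on the two fields at time `n`, so `E = {ω | (G_n,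 G'_n) ∈ Bad}` with `Bad` measurable).
`Pn m f G.1 - Pn m f G.2 = ∫ (f(G_m) - f(G'_m)) = ∫_E (f(G_m) - f(G'_m)) + ∫_{Eᶜ} (Pn m' f (G_n) - Pn m' f (G'_n))` (`integral_glue`, `traj_glue_add`).
* On `E`: `pair_est` with `Al = alv`, `Db x ω = ofReal((2 A0 exp(ell(lppM (1/8) 0 (gz k h ω) m x + 1/4 - (11/16) dist y x)))^θ)` (`grow_path`), `(∫ Db^4)^{1/4} ≤ C e^{C a (T+1)} e^{-(11/16) a dist} A0^θ` (`lpp_exp`, `4a ≤ lam0`), `(∫_{alv} wpr^4)^{1/4} ≤ e^{C a'(T+2)} wpr(G)(x)` (`wpr_mom`, `V_sq` twice, `sm_multi` with exponent `4a'/ell`), `P(E)^{1/2} ≤ pPr^{1/2}`.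
* On `Eᶜ ∩ alv n`: `brM` at the state `(G_n, G'_n)` (profile exponent `-(M8 - 1) = -C5(T + log(1/p))`), integrate: `∫_{alv n} wpr(G_n,G'_n)(x) ≤ κL wpr(G)(x) + CW` (hypothesis), the error term by `lin_sum`. On `Eᶜ ∩ (alv n)ᶜ`: `≤ 2 P((alv n)ᶜ)` (`exit_bd`).
-/

open MeasureTheory ProbabilityTheory
open scoped ENNReal

namespace DynC

open Dyn

/-! ### the pair of complex chains -/

private theorem Mid2_tr (d : ℕ) (β k : ℝ) (hβ : 0 < β) (hk : 0 ≤ k) (h : ℝ) (L : ℕ)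
    (G : (boxS d L → ℂ) × (boxS d L → ℂ)) (ω : ℕ → boxS d L → ℂ) (n : ℕ) :
    (PS2 d β k hβ hk).tr h L G ω n =
      (traj (st2 d β k h L) G.1 ω n, traj (st2 d β k h L) G.2 ω n) := by
  induction n with
  | zero => rfl
  | succ n ih =>
    show (PS2 d β k hβ hk).st h L ((PS2 d β k hβ hk).tr h L G ω n) (ω n) = _
    rw [ih]
    rfl

/-! ### splitting on the state at time `n` -/

private theorem Mid2_split {X St : Type} [MeasurableSpace X] [MeasurableSpace St] (μ : Measure X)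
    [IsProbabilityMeasure μ] (st : St → X → St) (hst : Measurable fun p : St × X => st p.1 p.2)
    (f : St → ℂ) (hf : Measurable f) (hb : ∀ s, ‖f s‖ ≤ 1) (G : St × St) (n m : ℕ)
    (B : Set (St × St)) (hB : MeasurableSet B) :
    ENNReal.ofReal ‖∫ ω, f (traj st G.1 ω (n + m)) ∂(PI μ) -
        ∫ ω, f (traj st G.2 ω (n + m)) ∂(PI μ)‖ ≤
      ∫⁻ ω in {ω | (traj st G.1 ω n, traj st G.2 ω n) ∈ B},
        ENNReal.ofReal ‖f (traj st G.1 ω (n + m)) - f (traj st G.2 ω (n + m))‖ ∂(PI μ) +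
      ∫⁻ ω in {ω | (traj st G.1 ω n, traj st G.2 ω n) ∈ B}ᶜ,
        ENNReal.ofReal ‖∫ b, f (traj st (traj st G.1 ω n) b m) ∂(PI μ) -
          ∫ b, f (traj st (traj st G.2 ω n) b m) ∂(PI μ)‖ ∂(PI μ) := by
  have hmt : ∀ (s : St) (j : ℕ), Measurable fun ω : ℕ → X => traj st s ω j := fun s j =>
    (measurable_traj st hst j).comp (measurable_const.prodMk measurable_id)
  set E : Set (ℕ → X) := {ω | (traj st G.1 ω n, traj st G.2 ω n) ∈ B} with hE
  have hEm : MeasurableSet E := ((hmt G.1 n).prodMk (hmt G.2 n)) hB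
  set D : (ℕ → X) → ℂ := fun ω => f (traj st G.1 ω (n + m)) - f (traj st G.2 ω (n + m)) with hD
  have hDm : Measurable D := (hf.comp (hmt G.1 (n + m))).sub (hf.comp (hmt G.2 (n + m)))
  have hD2 : ∀ ω, ‖D ω‖ ≤ 2 := fun ω => by
    refine le_trans (norm_sub_le _ _) ?_
    linarith [hb (traj st G.1 ω (n + m)), hb (traj st G.2 ω (n + m))]
  have hint : ∀ s : St, Integrable (fun ω => f (traj st s ω (n + m))) (PI μ) := fun s =>
    Integrable.of_bound (hf.comp (hmt s (n + m))).aestronglyMeasurable 1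
      (Filter.Eventually.of_forall fun ω => hb _)
  have hDint : Integrable D (PI μ) := (hint G.1).sub (hint G.2)
  have e1 : ∫ ω, f (traj st G.1 ω (n + m)) ∂(PI μ) - ∫ ω, f (traj st G.2 ω (n + m)) ∂(PI μ) =
      ∫ ω in E, D ω ∂(PI μ) + ∫ ω, Eᶜ.indicator D ω ∂(PI μ) := by
    rw [← integral_sub (hint G.1) (hint G.2), integral_indicator hEm.compl]
    exact (integral_add_compl hEm hDint).symm
  have hint2 : ∀ s : St, Integrable (fun b => f (traj st s b m)) (PI μ) := fun s =>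
    Integrable.of_bound (hf.comp (hmt s m)).aestronglyMeasurable 1
      (Filter.Eventually.of_forall fun ω => hb _)
  have e2 : ∫ ω, Eᶜ.indicator D ω ∂(PI μ) = ∫ a, Eᶜ.indicator (fun a =>
      ∫ b, f (traj st (traj st G.1 a n) b m) ∂(PI μ) -
        ∫ b, f (traj st (traj st G.2 a n) b m) ∂(PI μ)) a ∂(PI μ) := by
    rw [integral_glue (μ := μ) n (Eᶜ.indicator D) (hDm.indicator hEm.compl) 2 ?_]
    · refine integral_congr_ae (Filter.Eventually.of_forall fun a => ?_)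
      have hmem : ∀ b, glue n a b ∈ E ↔ a ∈ E := by
        intro b
        rw [hE]
        show (traj st G.1 (glue n a b) n, traj st G.2 (glue n a b) n) ∈ B ↔
          (traj st G.1 a n, traj st G.2 a n) ∈ B
        rw [traj_glue_le st G.1 n a b n le_rfl, traj_glue_le st G.2 n a b n le_rfl]
      by_cases ha : a ∈ E
      · have h1 : ∀ b, Eᶜ.indicator D (glue n a b) = 0 := fun b =>
          Set.indicator_of_notMem (Set.notMem_compl_iff.2 ((hmem b).2 ha)) _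
        show ∫ b, Eᶜ.indicator D (glue n a b) ∂(PI μ) = _
        rw [Set.indicator_of_notMem (Set.notMem_compl_iff.2 ha)]
        simp only [h1, integral_zero]
      · have h1 : ∀ b, Eᶜ.indicator D (glue n a b) =
            f (traj st (traj st G.1 a n) b m) - f (traj st (traj st G.2 a n) b m) := by
          intro b
          rw [Set.indicator_of_mem (show glue n a b ∈ Eᶜ from fun hc => ha ((hmem b).1 hc))]
          show f (traj st G.1 (glue n a b) (n + m)) - f (traj st G.2 (glue n a b) (n + m)) = _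
          rw [traj_glue_add, traj_glue_add]
        show ∫ b, Eᶜ.indicator D (glue n a b) ∂(PI μ) = _
        rw [Set.indicator_of_mem (show a ∈ Eᶜ from ha)]
        simp only [h1]
        exact integral_sub (hint2 _) (hint2 _)
    · intro ω
      refine le_trans (norm_indicator_le_norm_self _ _) (hD2 ω)
  rw [e1, e2, ofReal_norm]
  refine le_trans (enorm_add_le _ _) (add_le_add ?_ ?_)
  · refine le_trans (enorm_integral_le_lintegral_enorm _) (le_of_eq ?_)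
    refine lintegral_congr fun ω => ?_
    rw [ofReal_norm]
  · refine le_trans (enorm_integral_le_lintegral_enorm _) (le_of_eq ?_)
    rw [← lintegral_indicator hEm.compl]
    refine lintegral_congr fun ω => ?_
    by_cases hω : ω ∈ Eᶜ
    · rw [Set.indicator_of_mem hω, Set.indicator_of_mem hω, ofReal_norm]
    · rw [Set.indicator_of_notMem hω, Set.indicator_of_notMem hω, enorm_zero]

/-! ### small `k` -/

private theorem Mid2_ell {k : ℝ} {c : ℝ} (hk : 0 < k) (h : k < Real.exp (-c)) : c ≤ ell k := by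
  unfold ell
  rw [one_div, Real.log_inv]
  have h1 : Real.log k ≤ -c := by
    rw [← Real.log_exp (-c)]
    exact Real.log_le_log hk h.le
  linarith

private theorem Mid2_exp_ell {k : ℝ} (hk : 0 < k) : k = Real.exp (-ell k) := by
  unfold ell
  rw [one_div, Real.log_inv, neg_neg, Real.exp_log hk]

private theorem Mid2_k0 (d : ℕ) (T q : ℝ) (hT : 0 ≤ T) (hq : 1 ≤ q) : ∃ k0 : ℝ, 0 < k0 ∧ k0 < 1 ∧
    ∀ k, 0 < k → k < k0 → 4 ≤ ell k ∧ 32 * q ≤ ell k ∧ k ^ (1 / 4 : ℝ) * 2 ^ (q - 1) ≤ 1 ∧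
      4 * (d : ℝ) * k ^ (3 / 16 : ℝ) * ((T + 1) * ell k ^ 2 + 3) ≤ 1 := by
  have hev : ∀ᶠ k : ℝ in nhdsWithin 0 (Set.Ioi 0),
      4 * (d : ℝ) * k ^ (3 / 16 : ℝ) * ((T + 1) * ell k ^ 2 + 3) ≤ 1 := by
    have hz : Filter.Tendsto (fun k : ℝ => k ^ (3 / 32 : ℝ)) (nhdsWithin 0 (Set.Ioi 0)) (nhds 0) := by
      have h1 : Filter.Tendsto (fun k : ℝ => k ^ (3 / 32 : ℝ)) (nhds 0) (nhds (0 ^ (3 / 32 : ℝ))) :=
        (Real.continuousAt_rpow_const 0 (3 / 32) (Or.inr (by norm_num))).tendsto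
      rw [Real.zero_rpow (by norm_num)] at h1
      exact h1.mono_left nhdsWithin_le_nhds
    have hb : ∀ k : ℝ, 0 < k → k < 1 → ell k ^ 2 * k ^ (3 / 32 : ℝ) ≤ 4096 / 9 * 1 := by
      intro k hk hk1
      have hl0 : 0 ≤ ell k := by
        unfold ell
        exact Real.log_nonneg (by rw [le_div_iff₀ hk]; linarith)
      have h1 : ell k ≤ (1 / k) ^ (3 / 64 : ℝ) / (3 / 64) := by
        unfold ell
        exact Real.log_le_rpow_div (by positivity) (by norm_num)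
      have h2 : ell k ^ 2 ≤ ((1 / k) ^ (3 / 64 : ℝ) / (3 / 64)) ^ 2 :=
        pow_le_pow_left₀ hl0 h1 2
      have h3 : ((1 / k) ^ (3 / 64 : ℝ) / (3 / 64)) ^ 2 = 4096 / 9 * (k ^ (3 / 32 : ℝ))⁻¹ := by
        have h4 : ((1 / k) ^ (3 / 64 : ℝ)) ^ 2 = (k ^ (3 / 32 : ℝ))⁻¹ := by
          rw [← Real.rpow_natCast, ← Real.rpow_mul (by positivity), one_div k,
            Real.inv_rpow hk.le]
          norm_num
        rw [div_pow, h4]
        norm_num
        ring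
      rw [h3] at h2
      have hz0 : 0 < k ^ (3 / 32 : ℝ) := Real.rpow_pos_of_pos hk _
      calc ell k ^ 2 * k ^ (3 / 32 : ℝ) ≤ 4096 / 9 * (k ^ (3 / 32 : ℝ))⁻¹ * k ^ (3 / 32 : ℝ) :=
            mul_le_mul_of_nonneg_right h2 hz0.le
        _ = 4096 / 9 * 1 := by rw [mul_assoc, inv_mul_cancel₀ hz0.ne']
    have hlim : Filter.Tendsto (fun k : ℝ => 4 * (d : ℝ) * ((T + 1) * (4096 / 9) + 3) *
        k ^ (3 / 32 : ℝ)) (nhdsWithin 0 (Set.Ioi 0)) (nhds 0) := by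
      have := hz.const_mul (4 * (d : ℝ) * ((T + 1) * (4096 / 9) + 3))
      rwa [mul_zero] at this
    have h5 := hlim.eventually (gt_mem_nhds one_pos)
    have h6 : ∀ᶠ k : ℝ in nhdsWithin 0 (Set.Ioi 0), k < 1 :=
      nhdsWithin_le_nhds (gt_mem_nhds one_pos)
    filter_upwards [h5, h6, self_mem_nhdsWithin] with k a1 a2 a3
    have hk : 0 < k := a3
    have hz0 : 0 < k ^ (3 / 32 : ℝ) := Real.rpow_pos_of_pos hk _
    have hz1 : k ^ (3 / 32 : ℝ) ≤ 1 := Real.rpow_le_one hk.le a2.le (by norm_num)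
    have e : k ^ (3 / 16 : ℝ) = k ^ (3 / 32 : ℝ) * k ^ (3 / 32 : ℝ) := by
      rw [← Real.rpow_add hk]
      norm_num
    refine le_trans ?_ a1.le
    rw [e]
    have h7 : k ^ (3 / 32 : ℝ) * k ^ (3 / 32 : ℝ) * ((T + 1) * ell k ^ 2 + 3) ≤
        ((T + 1) * (4096 / 9) + 3) * k ^ (3 / 32 : ℝ) := by
      have h8 := hb k hk a2
      have h9 : k ^ (3 / 32 : ℝ) * ((T + 1) * ell k ^ 2 + 3) ≤ (T + 1) * (4096 / 9) + 3 := by
        have h10 : k ^ (3 / 32 : ℝ) * ((T + 1) * ell k ^ 2 + 3) =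
            (T + 1) * (ell k ^ 2 * k ^ (3 / 32 : ℝ)) + 3 * k ^ (3 / 32 : ℝ) := by ring
        rw [h10]
        have h11 := mul_le_mul_of_nonneg_left h8 (show 0 ≤ T + 1 by linarith)
        linarith
      calc k ^ (3 / 32 : ℝ) * k ^ (3 / 32 : ℝ) * ((T + 1) * ell k ^ 2 + 3)
          = (k ^ (3 / 32 : ℝ) * ((T + 1) * ell k ^ 2 + 3)) * k ^ (3 / 32 : ℝ) := by ring
        _ ≤ _ := mul_le_mul_of_nonneg_right h9 hz0.le
    calc 4 * (d : ℝ) * (k ^ (3 / 32 : ℝ) * k ^ (3 / 32 : ℝ)) * ((T + 1) * ell k ^ 2 + 3)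
        = 4 * (d : ℝ) * (k ^ (3 / 32 : ℝ) * k ^ (3 / 32 : ℝ) * ((T + 1) * ell k ^ 2 + 3)) := by ring
      _ ≤ 4 * (d : ℝ) * (((T + 1) * (4096 / 9) + 3) * k ^ (3 / 32 : ℝ)) :=
          mul_le_mul_of_nonneg_left h7 (by positivity)
      _ = _ := by ring
  rw [eventually_nhdsWithin_iff, Metric.eventually_nhds_iff] at hev
  obtain ⟨k1, hk1, hev⟩ := hev
  refine ⟨min (Real.exp (-(32 * q))) k1, by positivity, ?_, ?_⟩
  · refine (min_le_left _ _).trans_lt ?_
    rw [Real.exp_lt_one_iff]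
    linarith
  · intro k hk hkk
    have hl := Mid2_ell hk (hkk.trans_le (min_le_left _ _))
    refine ⟨by linarith, hl, ?_, ?_⟩
    · have h1 : k ^ (1 / 4 : ℝ) ≤ Real.exp (-(8 * q)) := by
        conv_lhs => rw [Mid2_exp_ell hk]
        rw [← Real.exp_mul]
        apply Real.exp_le_exp.2
        linarith
      have h2 : (2 : ℝ) ^ (q - 1) ≤ Real.exp (8 * q) := by
        rw [Real.rpow_def_of_pos (by norm_num)]
        apply Real.exp_le_exp.2
        have h3 : Real.log 2 ≤ 1 := by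
          have := Real.log_two_lt_d9
          linarith
        nlinarith [Real.log_two_gt_d9]
      calc k ^ (1 / 4 : ℝ) * 2 ^ (q - 1) ≤ Real.exp (-(8 * q)) * Real.exp (8 * q) :=
            mul_le_mul h1 h2 (by positivity) (by positivity)
        _ = 1 := by rw [← Real.exp_add]; simp
    · exact hev (by rw [Real.dist_eq, sub_zero, abs_of_pos hk]; exact hkk.trans_le (min_le_right _ _)) hk

/-! ### growth of the difference -/

private theorem Mid2_Db {d : ℕ} {β k : ℝ} (hβ : 0 < β) (hk : 0 < k) (hk1 : k < 1) (a T : ℝ)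
    (ha : 0 < a) (hell : 1 ≤ ell k)
    (hkd : 4 * (d : ℝ) * k ^ (3 / 16 : ℝ) * ((T + 1) * ell k ^ 2 + 3) ≤ 1) (h : ℝ) (hh : 0 < h)
    (L : ℕ) (G : (boxS d L → ℂ) × (boxS d L → ℂ)) (y : boxS d L) (A0 : ℝ) (hA0 : 0 ≤ A0)
    (hG : ∀ v, ‖G.1 v - G.2 v‖ ≤ A0 * k ^ (-(1 / 4) + 11 / 16 * ((boxNet d L).dist y v : ℝ)))
    (m : ℕ) (hm : m * h ≤ (T + 1) * ell k ^ 2 + 3) (ω : ℕ → boxS d L → ℂ) (x : boxS d L) :
    ‖((PS2 d β k hβ hk.le).tr h L G ω m).1 x -
        ((PS2 d β k hβ hk.le).tr h L G ω m).2 x‖ ^ (a / ell k) ≤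
      A0 ^ (a / ell k) * Real.exp (5 / 4 * a) *
        Real.exp (-(11 / 16 * a * (boxNet d L).dist y x)) *
        Real.exp (a * (boxMSet d L).lpp (1 / 8) (fun _ => 0)
          (sc (h / ell k ^ 2) (fun j z => (ω j z).re)) m x) := by
  have hl0 : 0 < ell k := by linarith
  set S := PS2 d β k hβ hk.le with hS
  set θ : ℝ := a / ell k with hθ
  have hθ0 : 0 < θ := by positivity
  have hkp : ∀ r : ℝ, k ^ r = Real.exp (-(ell k * r)) := by
    intro r
    conv_lhs => rw [Mid2_exp_ell hk]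
    rw [← Real.exp_mul]
    congr 1
    ring
  have h1 : ‖(S.tr h L G ω m).1 x - (S.tr h L G ω m).2 x‖ ≤
      A0 * k ^ (-(1 / 4) : ℝ) * (1 + 4 * d * k ^ (3 / 16 : ℝ) * h) ^ m *
        Real.exp (ell k * ((boxMSet d L).lpp (1 / 8) (fun _ => 0)
          (fun j z => S.b h (ω j z) / ell k) m x +
            -(11 / 16 * ((boxNet d L).dist y x : ℝ)))) := by
    refine grow_path d L k h (3 / 16) (1 / 8) (11 / 16) (A0 * k ^ (-(1 / 4) : ℝ)) hk hk1 hh
      (mul_nonneg hA0 (Real.rpow_nonneg hk.le _))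
      (by norm_num) (by norm_num) (by norm_num) (by norm_num)
      (fun j z => S.b h (ω j z)) (fun j => dif (S.tr h L G ω j).1 (S.tr h L G ω j).2)
      (fun j => S.dd h L (S.tr h L G ω j) (ω j) hh)
      (fun x => -(11 / 16 * ((boxNet d L).dist y x : ℝ))) ?_ ?_ m x
    · intro x y' hy'
      have h1 := (boxNet d L).dist_tri y y' x
      rw [(boxNet d L).dist_comm y' x, (boxNet d L).dist_nb x y' hy'] at h1
      have h2 : ((boxNet d L).dist y x : ℝ) ≤ ((boxNet d L).dist y y' : ℝ) + 1 := by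
        exact_mod_cast h1
      linarith
    · intro x
      change ‖G.1 x - G.2 x‖ ≤ _
      refine (hG x).trans (le_of_eq ?_)
      rw [Real.rpow_add hk, ← mul_assoc, hkp (11 / 16 * _)]
      congr 2
      ring
  have hsc : (fun j z => S.b h (ω j z) / ell k) =
      sc (h / ell k ^ 2) (fun j z => (ω j z).re) := by
    funext j z
    change Real.sqrt h * (ω j z).re / ell k = Real.sqrt (h / ell k ^ 2) * (ω j z).re
    rw [Real.sqrt_div' _ (by positivity), Real.sqrt_sq hl0.le]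
    ring
  rw [hsc] at h1
  have h2 : (1 + 4 * (d : ℝ) * k ^ (3 / 16 : ℝ) * h) ^ m ≤ Real.exp 1 := by
    have hk8 : 0 ≤ k ^ (3 / 16 : ℝ) := Real.rpow_nonneg hk.le _
    have h3 : 1 + 4 * (d : ℝ) * k ^ (3 / 16 : ℝ) * h ≤
        Real.exp (4 * (d : ℝ) * k ^ (3 / 16 : ℝ) * h) := by
      have := Real.add_one_le_exp (4 * (d : ℝ) * k ^ (3 / 16 : ℝ) * h)
      linarith
    calc (1 + 4 * (d : ℝ) * k ^ (3 / 16 : ℝ) * h) ^ m
        ≤ Real.exp (4 * (d : ℝ) * k ^ (3 / 16 : ℝ) * h) ^ m :=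
          pow_le_pow_left₀ (by positivity) h3 m
      _ = Real.exp (4 * (d : ℝ) * k ^ (3 / 16 : ℝ) * (m * h)) := by
          rw [← Real.exp_nat_mul]
          congr 1
          ring
      _ ≤ Real.exp 1 := by
          apply Real.exp_le_exp.mpr
          refine le_trans ?_ hkd
          exact mul_le_mul_of_nonneg_left hm (by positivity)
  set w : ℝ := (boxMSet d L).lpp (1 / 8) (fun _ => 0)
    (sc (h / ell k ^ 2) (fun j z => (ω j z).re)) m x with hw
  set dxy : ℝ := ((boxNet d L).dist y x : ℝ) with hdxy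
  have h4 : ‖(S.tr h L G ω m).1 x - (S.tr h L G ω m).2 x‖ ≤
      A0 * Real.exp (1 + ell k * (w + 1 / 4 + -(11 / 16 * dxy))) := by
    refine h1.trans ?_
    have e1 : Real.exp (1 + ell k * (w + 1 / 4 + -(11 / 16 * dxy))) =
        k ^ (-(1 / 4) : ℝ) * Real.exp 1 * Real.exp (ell k * (w + -(11 / 16 * dxy))) := by
      rw [hkp, ← Real.exp_add, ← Real.exp_add]
      congr 1
      ring
    rw [e1, ← mul_assoc, ← mul_assoc]
    exact mul_le_mul_of_nonneg_right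
      (mul_le_mul_of_nonneg_left h2 (mul_nonneg hA0 (Real.rpow_nonneg hk.le _)))
      (Real.exp_pos _).le
  have h5 := Real.rpow_le_rpow (norm_nonneg _) h4 hθ0.le
  refine h5.trans ?_
  rw [Real.mul_rpow hA0 (Real.exp_pos _).le, ← Real.exp_mul]
  have h6 : (1 + ell k * (w + 1 / 4 + -(11 / 16 * dxy))) * θ =
      a / ell k + (a * w + a / 4 + -(11 / 16 * a * dxy)) := by
    rw [hθ]
    field_simp
  rw [h6]
  have h7 : a / ell k ≤ a := div_le_self ha.le hell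
  have h8 : Real.exp (a / ell k + (a * w + a / 4 + -(11 / 16 * a * dxy))) ≤
      Real.exp (5 / 4 * a) * Real.exp (-(11 / 16 * a * dxy)) * Real.exp (a * w) := by
    rw [← Real.exp_add, ← Real.exp_add]
    apply Real.exp_le_exp.mpr
    linarith
  have h9 := mul_le_mul_of_nonneg_left h8 (Real.rpow_nonneg hA0 θ)
  refine h9.trans (le_of_eq ?_)
  ring

private theorem Mid2_reM (d L : ℕ) :
    Measurable (fun (ω : ℕ → boxS d L → ℂ) (j : ℕ) (z : boxS d L) => (ω j z).re) := by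
  refine measurable_pi_lambda _ fun j => measurable_pi_lambda _ fun x => ?_
  exact Complex.measurable_re.comp ((measurable_pi_apply x).comp (measurable_pi_apply j))

private theorem Mid2_scM (d L : ℕ) (v : ℝ) :
    Measurable (fun g : ℕ → boxS d L → ℝ => sc v g) := by
  unfold sc
  fun_prop

private theorem Mid2_DbM (d L : ℕ) (v a cst : ℝ) (m : ℕ) (x : boxS d L) :
    Measurable fun ω : ℕ → boxS d L → ℂ => ENNReal.ofReal (cst * Real.exp (a *
      (boxMSet d L).lpp (1 / 8) (fun _ => 0) (sc v (fun j z => (ω j z).re)) m x)) := by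
  have h1 : Measurable (fun g : ℕ → boxS d L → ℝ =>
      ENNReal.ofReal (cst * Real.exp (a * (boxMSet d L).lpp (1 / 8) (fun _ => 0) (sc v g) m x))) :=
    ((((measurable_lpp (boxMSet d L) (1 / 8) (fun _ => 0) m x).comp
      (Mid2_scM d L v)).const_mul a).exp.const_mul cst).ennreal_ofReal
  exact h1.comp (Mid2_reM d L)

private theorem Mid2_Dint (d : ℕ) (lam0 C0 : ℝ) (hC0 : 0 < C0)
    (hlpp : ∀ (S : Type) [Fintype S] (M : MSet S d) (v : ℝ), 0 < v → v ≤ 1 / lam0 ^ 2 →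
      ∀ (n : ℕ) (x : S) (lam : ℝ), 0 ≤ lam → lam ≤ lam0 →
        ∫⁻ ω, ENNReal.ofReal (Real.exp (lam * M.lppM (1 / 8) (fun _ => 0) (sc v ω) n x)) ∂(PI (nz S))
          ≤ ENNReal.ofReal (Real.exp (C0 * (n * v + 1) * lam)))
    (k a T : ℝ) (ha : 0 < a) (ha4 : 4 * a ≤ lam0) (hT : 2 ≤ T) (hell : 4 ≤ ell k) (h : ℝ)
    (hh : 0 < h) (hhl : h ≤ 1 / lam0 ^ 2) (L m : ℕ) (hm : m * h ≤ (T + 1) * ell k ^ 2 + 3)
    (x : boxS d L) (cst : ℝ) (hcst : 0 ≤ cst) :
    (∫⁻ ω, (ENNReal.ofReal (cst * Real.exp (a * (boxMSet d L).lpp (1 / 8) (fun _ => 0)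
        (sc (h / ell k ^ 2) (fun j z => (ω j z).re)) m x))) ^ 4
        ∂(PI (Measure.pi fun _ : boxS d L => gC))) ^ (1 / 4 : ℝ) ≤
      ENNReal.ofReal (cst * Real.exp (5 / 2 * C0 * a * T)) := by
  have hl0 : 0 < ell k := by linarith
  set v : ℝ := h / ell k ^ 2 with hv
  have hv0 : 0 < v := by positivity
  have hv1 : v ≤ 1 / lam0 ^ 2 := by
    refine le_trans ?_ hhl
    rw [hv]
    apply div_le_self hh.le
    nlinarith
  set W : (ℕ → boxS d L → ℝ) → ℝ := fun g => (boxMSet d L).lpp (1 / 8) (fun _ => 0) g m x with hW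
  have e1 : ∀ ω : ℕ → boxS d L → ℂ,
      (ENNReal.ofReal (cst * Real.exp (a * W (sc v (fun j z => (ω j z).re))))) ^ 4 =
        ENNReal.ofReal (cst ^ 4) *
          ENNReal.ofReal (1 * Real.exp (4 * a * W (sc v (fun j z => (ω j z).re)))) := by
    intro ω
    rw [← ENNReal.ofReal_pow (by positivity), ← ENNReal.ofReal_mul (by positivity), mul_pow,
      ← Real.exp_nat_mul, one_mul]
    congr 3
    push_cast
    ring
  have hint : ∫⁻ ω, ENNReal.ofReal (1 * Real.exp (4 * a * W (sc v (fun j z => (ω j z).re))))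
      ∂(PI (Measure.pi fun _ : boxS d L => gC)) ≤
      ENNReal.ofReal (Real.exp (C0 * (m * v + 1) * (4 * a))) := by
    have hΦ : Measurable (fun g : ℕ → boxS d L → ℝ =>
        ENNReal.ofReal (1 * Real.exp (4 * a * W (sc v g)))) :=
      ((((measurable_lpp (boxMSet d L) (1 / 8) (fun _ => 0) m x).comp
        (Mid2_scM d L v)).const_mul (4 * a)).exp.const_mul 1).ennreal_ofReal
    have h1 := lintegral_map hΦ (Mid2_reM d L) (μ := PI (Measure.pi fun _ : boxS d L => gC))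
    rw [re_map] at h1
    rw [← h1]
    refine le_trans (lintegral_mono fun g => ?_)
      (hlpp (boxS d L) (boxMSet d L) v hv0 hv1 m x (4 * a) (by positivity) ha4)
    apply ENNReal.ofReal_le_ofReal
    rw [one_mul]
    apply Real.exp_le_exp.mpr
    apply mul_le_mul_of_nonneg_left _ (by positivity)
    exact le_lppM (boxMSet d L) (1 / 8) (fun _ => 0) (sc v g) le_rfl x
  have hmv : m * v + 1 ≤ 5 / 2 * T := by
    have h1 : (m : ℝ) * v = m * h / ell k ^ 2 := by rw [hv]; ring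
    have h2 : (m : ℝ) * h / ell k ^ 2 ≤ T + 2 := by
      rw [div_le_iff₀ (by positivity)]
      have h3 : 16 ≤ ell k ^ 2 := by nlinarith
      nlinarith
    rw [h1]
    linarith
  have h3 : ∫⁻ ω, (ENNReal.ofReal (cst * Real.exp (a * W (sc v (fun j z => (ω j z).re))))) ^ 4
        ∂(PI (Measure.pi fun _ : boxS d L => gC)) ≤
      ENNReal.ofReal ((cst * Real.exp (5 / 2 * C0 * a * T)) ^ 4) := by
    simp only [e1]
    rw [lintegral_const_mul _ (Mid2_DbM d L v (4 * a) 1 m x), mul_pow,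
      ENNReal.ofReal_mul (by positivity)]
    refine mul_le_mul_right (hint.trans ?_) _
    apply ENNReal.ofReal_le_ofReal
    rw [← Real.exp_nat_mul]
    apply Real.exp_le_exp.2
    push_cast
    have h4 : C0 * (m * v + 1) * (4 * a) ≤ C0 * (5 / 2 * T) * (4 * a) :=
      mul_le_mul_of_nonneg_right (mul_le_mul_of_nonneg_left hmv hC0.le) (by positivity)
    linarith
  refine (ENNReal.rpow_le_rpow h3 (by norm_num)).trans (le_of_eq ?_)
  rw [ENNReal.ofReal_rpow_of_nonneg (by positivity) (by norm_num), ← Real.rpow_natCast,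
    ← Real.rpow_mul (by positivity)]
  norm_num

/-! ### measurability of the bad set -/

private theorem Mid2_bad {d L : ℕ} (k κ κ2 κd M6 : ℝ) (y : boxS d L) (Rb : ℕ) (A0 r : ℝ) :
    MeasurableSet {H : (boxS d L → ℂ) × (boxS d L → ℂ) | ¬ (GCfg k κ κ2 κd M6 y Rb H ∧
      ∀ v, ‖H.1 v - H.2 v‖ ≤ A0 * k ^ (-r + 5 / 8 * ((boxNet d L).dist y v : ℝ)))} := by
  have hn1 : ∀ x, Measurable fun H : (boxS d L → ℂ) × (boxS d L → ℂ) => ‖H.1 x‖ := fun x =>
    ((measurable_pi_apply x).comp measurable_fst).norm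
  have hn2 : ∀ x, Measurable fun H : (boxS d L → ℂ) × (boxS d L → ℂ) => ‖H.2 x‖ := fun x =>
    ((measurable_pi_apply x).comp measurable_snd).norm
  have hle : ∀ f g : (boxS d L → ℂ) × (boxS d L → ℂ) → ℝ, Measurable f → Measurable g →
      Measurable fun H => f H ≤ g H := fun f g hf hg => measurableSet_setOfPred.1 (measurableSet_le hf hg)
  have e : {H : (boxS d L → ℂ) × (boxS d L → ℂ) | ¬ (GCfg k κ κ2 κd M6 y Rb H ∧
      ∀ v, ‖H.1 v - H.2 v‖ ≤ A0 * k ^ (-r + 5 / 8 * ((boxNet d L).dist y v : ℝ)))} =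
    {H : (boxS d L → ℂ) × (boxS d L → ℂ) | ¬ (((∀ x, (boxNet d L).dist y x ≤ Rb →
        k ^ M6 ≤ ‖H.1 x‖ ∧ k ^ M6 ≤ ‖H.2 x‖) ∧
      (∀ x, (boxNet d L).dist y x ≤ Rb → ‖H.1 x‖ ≤ k ^ κ ∧ ‖H.2 x‖ ≤ k ^ κ) ∧
      (∀ x, (boxNet d L).dist y x ≤ Rb →
        ‖H.1 x‖ ≤ k ^ (-κd) * ‖H.2 x‖ ∧ ‖H.2 x‖ ≤ k ^ (-κd) * ‖H.1 x‖) ∧
      (∀ x, (boxNet d L).dist y x ≤ Rb → ∀ v, v ≠ x →
        ‖H.1 v‖ ≤ k ^ (κ - (1 - κ2) * (boxNet d L).dist x v) * ‖H.1 x‖ ∧
          ‖H.2 v‖ ≤ k ^ (κ - (1 - κ2) * (boxNet d L).dist x v) * ‖H.2 x‖) ∧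
      (∀ v, ‖H.1 v‖ ≤ k ^ (-((1 + (boxNet d L).dist y v : ℝ) / 8)) ∧
        ‖H.2 v‖ ≤ k ^ (-((1 + (boxNet d L).dist y v : ℝ) / 8)))) ∧
      ∀ v, ‖H.1 v - H.2 v‖ ≤ A0 * k ^ (-r + 5 / 8 * ((boxNet d L).dist y v : ℝ)))} := by
    ext H
    constructor
    · intro h1 h2
      exact h1 ⟨⟨h2.1.1, h2.1.2.1, h2.1.2.2.1, h2.1.2.2.2.1, h2.1.2.2.2.2⟩, h2.2⟩
    · intro h1 h2
      exact h1 ⟨⟨h2.1.low, h2.1.top, h2.1.rat, h2.1.gap, h2.1.cap⟩, h2.2⟩
  rw [e]
  apply measurableSet_setOfPred.2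
  refine Measurable.not (Measurable.and (Measurable.and ?_ (Measurable.and ?_ (Measurable.and ?_
    (Measurable.and ?_ ?_)))) ?_)
  · refine Measurable.forall fun x => Measurable.imp measurable_const (Measurable.and ?_ ?_)
    · exact hle _ _ measurable_const (hn1 x)
    · exact hle _ _ measurable_const (hn2 x)
  · refine Measurable.forall fun x => Measurable.imp measurable_const (Measurable.and ?_ ?_)
    · exact hle _ _ (hn1 x) measurable_const
    · exact hle _ _ (hn2 x) measurable_const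
  · refine Measurable.forall fun x => Measurable.imp measurable_const (Measurable.and ?_ ?_)
    · exact hle _ _ (hn1 x) ((hn2 x).const_mul _)
    · exact hle _ _ (hn2 x) ((hn1 x).const_mul _)
  · refine Measurable.forall fun x => Measurable.imp measurable_const
      (Measurable.forall fun v => Measurable.imp measurable_const (Measurable.and ?_ ?_))
    · exact hle _ _ (hn1 v) ((hn1 x).const_mul _)
    · exact hle _ _ (hn2 v) ((hn2 x).const_mul _)
  · refine Measurable.forall fun v => Measurable.and ?_ ?_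
    · exact hle _ _ (hn1 v) measurable_const
    · exact hle _ _ (hn2 v) measurable_const
  · refine Measurable.forall fun v => ?_
    exact hle _ _ (((measurable_pi_apply v).comp measurable_fst).sub
      ((measurable_pi_apply v).comp measurable_snd)).norm measurable_const

/-! ### moments of `wpr` -/

private theorem Mid2_trM {d : ℕ} {β k : ℝ} (hβ : 0 < β) (hk : 0 < k) (h : ℝ) (L : ℕ)
    (G : (boxS d L → ℂ) × (boxS d L → ℂ)) (m : ℕ) :
    Measurable (β := (boxS d L → ℂ) × (boxS d L → ℂ))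
      (fun ω : ℕ → boxS d L → ℂ => (PS2 d β k hβ hk.le).tr h L G ω m) :=
  (measurable_tr (PS2 d β k hβ hk.le) h L m).comp (measurable_const.prodMk measurable_id)

private theorem Mid2_wprM {d L : ℕ} (k q s α : ℝ) (H : (ℕ → boxS d L → ℂ) → (boxS d L → ℂ) × (boxS d L → ℂ))
    (hH : Measurable H) (x : boxS d L) :
    Measurable fun ω => wpr (boxNet d L) k q s α (H ω).1 (H ω).2 x := by
  show Measurable fun ω => ∑ z, ENNReal.ofReal (α ^ (boxNet d L).dist x z) *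
    (V1 k q s (H ω) z + V2 k q s (H ω) z)
  refine Finset.measurable_fun_sum _ ?_
  intro z _
  exact (((measurable_V k q s z).1.comp hH).add ((measurable_V k q s z).2.comp hH)).const_mul _

private theorem Mid2_V4 {V : Type} [NormedAddCommGroup V] {d L : ℕ} (k q s : ℝ)
    (G : (boxS d L → V) × (boxS d L → V)) (x : boxS d L) :
    V1 k q s G x ^ 4 = V1 k q (4 * s) G x ∧ V2 k q s G x ^ 4 = V2 k q (4 * s) G x := by
  have e : (4 : ℝ) * s = 2 * (2 * s) := by ring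
  constructor
  · rw [e, ← (V_sq k q (2 * s) G x).1, ← (V_sq k q s G x).1, ← pow_mul]
  · rw [e, ← (V_sq k q (2 * s) G x).2, ← (V_sq k q s G x).2, ← pow_mul]

private theorem Mid2_wpr {d : ℕ} {β k : ℝ} (hβ : 0 < β) (hk : 0 < k) (hk1 : k < 1) (q a' T C9 : ℝ)
    (hq : 1 ≤ q) (ha' : 0 < a') (ha'1 : a' ≤ 1) (hT : 2 ≤ T) (hC9 : 0 < C9) (hell : 4 ≤ ell k)
    (hkq : k ^ (1 / 4 : ℝ) * 2 ^ (q - 1) ≤ 1) (α : ℝ) (hα : 0 ≤ α) (h : ℝ) (hh : 0 < h) (L : ℕ)
    (hsm : ∀ (G : (boxS d L → ℂ) × (boxS d L → ℂ)) (n : ℕ) (x : boxS d L),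
      (∫⁻ ω in (PS2 d β k hβ hk.le).alv h L G n,
          V1 k q (4 * (a' / ell k)) ((PS2 d β k hβ hk.le).tr h L G ω n) x
          ∂(PI ((PS2 d β k hβ hk.le).mu L)) ≤
          ENNReal.ofReal (Real.exp (C9 * (4 * (a' / ell k) / ell k + (4 * (a' / ell k)) ^ 2) *
            (n * h))) * V1 k q (4 * (a' / ell k)) G x) ∧
      (∫⁻ ω in (PS2 d β k hβ hk.le).alv h L G n,
          V2 k q (4 * (a' / ell k)) ((PS2 d β k hβ hk.le).tr h L G ω n) x
          ∂(PI ((PS2 d β k hβ hk.le).mu L)) ≤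
          ENNReal.ofReal (Real.exp (C9 * (4 * (a' / ell k) / ell k + (4 * (a' / ell k)) ^ 2) *
            (n * h))) * V2 k q (4 * (a' / ell k)) G x))
    (G : (boxS d L → ℂ) × (boxS d L → ℂ)) (m : ℕ) (hm : m * h ≤ (T + 1) * ell k ^ 2 + 3)
    (x : boxS d L) :
    (∫⁻ ω in (PS2 d β k hβ hk.le).alv h L G m, wpr (boxNet d L) k q (a' / ell k) α
        ((PS2 d β k hβ hk.le).tr h L G ω m).1 ((PS2 d β k hβ hk.le).tr h L G ω m).2 x ^ 4
        ∂(PI ((PS2 d β k hβ hk.le).mu L))) ^ (1 / 4 : ℝ) ≤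
      ENNReal.ofReal (Real.exp (10 * C9 * a' * T)) *
        wpr (boxNet d L) k q (a' / ell k) α G.1 G.2 x := by
  have hl0 : 0 < ell k := by linarith
  set S := PS2 d β k hβ hk.le with hS
  set s : ℝ := a' / ell k with hs
  have hs0 : 0 < s := by positivity
  have hexp : C9 * (4 * s / ell k + (4 * s) ^ 2) * (m * h) ≤ 40 * C9 * a' * T := by
    have h16 : 16 ≤ ell k ^ 2 := by nlinarith
    have e1 : 4 * s / ell k + (4 * s) ^ 2 = (4 * a' + 16 * a' ^ 2) / ell k ^ 2 := by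
      rw [hs]
      field_simp
      ring
    have e2 : (4 * a' + 16 * a' ^ 2) / ell k ^ 2 ≤ 20 * a' / ell k ^ 2 := by
      apply div_le_div_of_nonneg_right _ (by positivity)
      nlinarith
    have e3 : m * h ≤ 2 * T * ell k ^ 2 := by
      nlinarith
    have hmh : (0 : ℝ) ≤ m * h := by positivity
    calc C9 * (4 * s / ell k + (4 * s) ^ 2) * (m * h)
        ≤ C9 * (20 * a' / ell k ^ 2) * (2 * T * ell k ^ 2) := by
          rw [e1]
          refine mul_le_mul (mul_le_mul_of_nonneg_left e2 hC9.le) e3 hmh (by positivity)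
      _ = 40 * C9 * a' * T := by
          field_simp
          ring
  have hle : ENNReal.ofReal (Real.exp (C9 * (4 * s / ell k + (4 * s) ^ 2) * (m * h))) ≤
      ENNReal.ofReal (Real.exp (40 * C9 * a' * T)) :=
    ENNReal.ofReal_le_ofReal (Real.exp_le_exp.2 hexp)
  have hm4 := wpr_mom (V := ℂ) (PI (S.mu L)) (S.alv h L G m) (measurableSet_alv S h L G m)
    (fun ω => S.tr h L G ω m) (Mid2_trM hβ hk h L G m) k q s α (Real.exp (40 * C9 * a' * T))
    (Real.one_le_exp (by positivity)) hα G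
    (fun z => V_one_pair hk hk1 hq hs0 hkq G z) (fun z => by
      constructor
      · simp only [(Mid2_V4 k q s _ z).1]
        exact ((hsm G m z).1).trans (mul_le_mul_left hle _)
      · simp only [(Mid2_V4 k q s _ z).2]
        exact ((hsm G m z).2).trans (mul_le_mul_left hle _)) x
  refine (ENNReal.rpow_le_rpow hm4 (by norm_num)).trans (le_of_eq ?_)
  rw [ENNReal.mul_rpow_of_nonneg _ _ (by norm_num), ← ENNReal.rpow_natCast, ← ENNReal.rpow_mul,
    ENNReal.ofReal_rpow_of_nonneg (by positivity) (by norm_num), ← Real.exp_mul]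
  norm_num
  congr 3
  ring

/-! ### the bad event -/

private theorem Mid2_E {d : ℕ} {β k : ℝ} (hβ : 0 < β) (hk : 0 < k) (hk1 : k < 1)
    (q a a' T C9 lam0 C0 : ℝ) (hq : 1 ≤ q) (ha : 0 < a) (ha' : 0 < a') (ha'1 : a' ≤ 1)
    (hT : 2 ≤ T) (hC9 : 0 < C9) (hC0 : 0 < C0)
    (hlpp : ∀ (S : Type) [Fintype S] (M : MSet S d) (v : ℝ), 0 < v → v ≤ 1 / lam0 ^ 2 →
      ∀ (n : ℕ) (x : S) (lam : ℝ), 0 ≤ lam → lam ≤ lam0 →
        ∫⁻ ω, ENNReal.ofReal (Real.exp (lam * M.lppM (1 / 8) (fun _ => 0) (sc v ω) n x)) ∂(PI (nz S))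
          ≤ ENNReal.ofReal (Real.exp (C0 * (n * v + 1) * lam)))
    (ha4 : 4 * a ≤ lam0) (hell : 4 ≤ ell k) (hellq : 32 * q ≤ ell k)
    (hkq : k ^ (1 / 4 : ℝ) * 2 ^ (q - 1) ≤ 1)
    (hkd : 4 * (d : ℝ) * k ^ (3 / 16 : ℝ) * ((T + 1) * ell k ^ 2 + 3) ≤ 1)
    (h : ℝ) (hh : 0 < h) (hhl : h ≤ 1 / lam0 ^ 2) (L : ℕ)
    (hsm : ∀ (G : (boxS d L → ℂ) × (boxS d L → ℂ)) (n : ℕ) (x : boxS d L),
      (∫⁻ ω in (PS2 d β k hβ hk.le).alv h L G n,
          V1 k q (4 * (a' / ell k)) ((PS2 d β k hβ hk.le).tr h L G ω n) x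
          ∂(PI ((PS2 d β k hβ hk.le).mu L)) ≤
          ENNReal.ofReal (Real.exp (C9 * (4 * (a' / ell k) / ell k + (4 * (a' / ell k)) ^ 2) *
            (n * h))) * V1 k q (4 * (a' / ell k)) G x) ∧
      (∫⁻ ω in (PS2 d β k hβ hk.le).alv h L G n,
          V2 k q (4 * (a' / ell k)) ((PS2 d β k hβ hk.le).tr h L G ω n) x
          ∂(PI ((PS2 d β k hβ hk.le).mu L)) ≤
          ENNReal.ofReal (Real.exp (C9 * (4 * (a' / ell k) / ell k + (4 * (a' / ell k)) ^ 2) *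
            (n * h))) * V2 k q (4 * (a' / ell k)) G x))
    (A : boxS d L → ℝ) (ε : ℝ) (f : (boxS d L → ℂ) → ℂ) (hA : ∀ x, 0 ≤ A x) (hε : 0 ≤ ε)
    (hf : Measurable f) (hfb : ∀ G, ‖f G‖ ≤ 1) (α : ℝ) (hα : 0 ≤ α)
    (hcls : Cls (boxNet d L) k q (a' / ell k) α (a / ell k) A ε f)
    (G : (boxS d L → ℂ) × (boxS d L → ℂ)) (y : boxS d L) (A0 : ℝ) (hA0 : 0 ≤ A0)
    (hG : ∀ v, ‖G.1 v - G.2 v‖ ≤ A0 * k ^ (-(1 / 4) + 11 / 16 * ((boxNet d L).dist y v : ℝ)))
    (m : ℕ) (hm : m * h ≤ (T + 1) * ell k ^ 2 + 3) (E : Set (ℕ → boxS d L → ℂ))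
    (hE : MeasurableSet E) (P C1 ε2 : ℝ) (hP : 0 ≤ P) (hC1 : 1 ≤ C1) (hε2 : 0 ≤ ε2)
    (hPE : PI (Measure.pi fun _ : boxS d L => gC) E ≤ ENNReal.ofReal P)
    (hlin : ∫⁻ ω, ENNReal.ofReal (∑ x, (‖((PS2 d β k hβ hk.le).tr h L G ω m).1 x‖ +
        ‖((PS2 d β k hβ hk.le).tr h L G ω m).2 x‖)) ∂(PI ((PS2 d β k hβ hk.le).mu L)) ≤
      ENNReal.ofReal (C1 * ∑ x, (‖G.1 x‖ + ‖G.2 x‖)))
    (hex : PI ((PS2 d β k hβ hk.le).mu L) ((PS2 d β k hβ hk.le).alv h L G m)ᶜ ≤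
      ENNReal.ofReal (ε2 * (1 + ∑ x, (‖G.1 x‖ + ‖G.2 x‖)))) :
    ∫⁻ ω in E, ENNReal.ofReal ‖f (traj (st2 d β k h L) G.1 ω m) -
        f (traj (st2 d β k h L) G.2 ω m)‖ ∂(PI (Measure.pi fun _ : boxS d L => gC)) ≤
      ∑ x, ENNReal.ofReal (4 * A x * P ^ (1 / 2 : ℝ) * (A0 ^ (a / ell k) *
          Real.exp (5 / 4 * a) * Real.exp (-(11 / 16 * a * (boxNet d L).dist y x)) *
          Real.exp (5 / 2 * C0 * a * T)) * Real.exp (10 * C9 * a' * T)) *
          wpr (boxNet d L) k q (a' / ell k) α G.1 G.2 x +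
        ENNReal.ofReal ((4 * (Fintype.card (boxS d L)) * C1 * ε + 2 * ε2) *
          (1 + ∑ x, (‖G.1 x‖ + ‖G.2 x‖))) := by
  have hl0 : 0 < ell k := by linarith
  set S := PS2 d β k hβ hk.le with hS
  set s : ℝ := a' / ell k with hs
  have hs0 : 0 < s := by positivity
  set θ : ℝ := a / ell k with hθ
  have hθ0 : 0 < θ := by positivity
  have hqs : q * s ≤ 1 := by
    rw [hs, ← mul_div_assoc, div_le_one hl0]
    nlinarith
  set W0 : ℝ := ∑ x, (‖G.1 x‖ + ‖G.2 x‖) with hW0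
  have hW00 : 0 ≤ W0 := Finset.sum_nonneg fun x _ => by positivity
  set v : ℝ := h / ell k ^ 2 with hv
  set cst : boxS d L → ℝ := fun x => A0 ^ θ * Real.exp (5 / 4 * a) *
    Real.exp (-(11 / 16 * a * (boxNet d L).dist y x)) with hcst
  have hcst0 : ∀ x, 0 ≤ cst x := fun x => by
    rw [hcst]
    have := Real.rpow_nonneg hA0 θ
    positivity
  set Db : boxS d L → (ℕ → boxS d L → ℂ) → ℝ≥0∞ := fun x ω => ENNReal.ofReal (cst x *
    Real.exp (a * (boxMSet d L).lpp (1 / 8) (fun _ => 0) (sc v (fun j z => (ω j z).re)) m x))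
    with hDb
  have hpe := pair_est (V := ℂ) (PI (Measure.pi fun _ : boxS d L => gC)) k q s α θ hk hk1 hq hs0
    hqs hα hθ0 A hA ε hε f hf hcls hfb (fun ω => S.tr h L G ω m) (Mid2_trM hβ hk h L G m)
    (S.alv h L G m) E (measurableSet_alv S h L G m) hE Db (fun x => Mid2_DbM d L v a (cst x) m x)
    (fun ω _ x => ENNReal.ofReal_le_ofReal
      (Mid2_Db hβ hk hk1 a T ha (by linarith) hkd h hh L G y A0 hA0 hG m hm ω x))
  have hlhs : ∫⁻ ω in E, ENNReal.ofReal ‖f (traj (st2 d β k h L) G.1 ω m) -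
        f (traj (st2 d β k h L) G.2 ω m)‖ ∂(PI (Measure.pi fun _ : boxS d L => gC)) =
      ∫⁻ ω in E, ENNReal.ofReal ‖f (S.tr h L G ω m).1 - f (S.tr h L G ω m).2‖
        ∂(PI (Measure.pi fun _ : boxS d L => gC)) := by
    refine lintegral_congr fun ω => ?_
    rw [show S.tr h L G ω m = (traj (st2 d β k h L) G.1 ω m, traj (st2 d β k h L) G.2 ω m) from
      Mid2_tr d β k hβ hk.le h L G ω m]
  rw [hlhs]
  refine hpe.trans (add_le_add ?_ ?_)
  · refine Finset.sum_le_sum fun x _ => ?_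
    have b1 : PI (Measure.pi fun _ : boxS d L => gC) E ^ (1 / 2 : ℝ) ≤
        ENNReal.ofReal (P ^ (1 / 2 : ℝ)) := by
      rw [← ENNReal.ofReal_rpow_of_nonneg hP (by norm_num)]
      exact ENNReal.rpow_le_rpow hPE (by norm_num)
    have b2 : (∫⁻ ω in S.alv h L G m, Db x ω ^ 4
        ∂(PI (Measure.pi fun _ : boxS d L => gC))) ^ (1 / 4 : ℝ) ≤
        ENNReal.ofReal (cst x * Real.exp (5 / 2 * C0 * a * T)) := by
      refine le_trans (ENNReal.rpow_le_rpow (setLIntegral_le_lintegral _ _) (by norm_num)) ?_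
      exact Mid2_Dint d lam0 C0 hC0 hlpp k a T ha ha4 hT hell h hh hhl L m hm x (cst x) (hcst0 x)
    have b3 := Mid2_wpr hβ hk hk1 q a' T C9 hq ha' ha'1 hT hC9 hell hkq α hα h hh L hsm G m hm x
    have hP2 : 0 ≤ P ^ (1 / 2 : ℝ) := Real.rpow_nonneg hP _
    calc _ ≤ ENNReal.ofReal (4 * A x) * ENNReal.ofReal (P ^ (1 / 2 : ℝ)) *
          ENNReal.ofReal (cst x * Real.exp (5 / 2 * C0 * a * T)) *
          (ENNReal.ofReal (Real.exp (10 * C9 * a' * T)) *
            wpr (boxNet d L) k q s α G.1 G.2 x) :=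
          mul_le_mul' (mul_le_mul' (mul_le_mul_right b1 _) b2) b3
      _ = _ := by
          rw [← mul_assoc]
          congr 1
          have hAx := hA x
          have hcx := hcst0 x
          rw [← ENNReal.ofReal_mul (by positivity), ← ENNReal.ofReal_mul (by positivity),
            ← ENNReal.ofReal_mul (by positivity)]
  · set card : ℝ := (Fintype.card (boxS d L) : ℝ) with hcard
    have hcard0 : 0 ≤ card := by positivity
    calc _ ≤ ENNReal.ofReal (2 * card * ε) * (1 + 2 * ENNReal.ofReal (C1 * W0)) +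
          2 * ENNReal.ofReal (ε2 * (1 + W0)) :=
          add_le_add (mul_le_mul_right (add_le_add_right (mul_le_mul_right hlin _) _) _)
            (mul_le_mul_right hex _)
      _ = ENNReal.ofReal (2 * card * ε * (1 + 2 * (C1 * W0)) + 2 * (ε2 * (1 + W0))) := by
          rw [← ENNReal.ofReal_ofNat 2, ← ENNReal.ofReal_one, ← ENNReal.ofReal_mul (by norm_num),
            ← ENNReal.ofReal_add (by norm_num) (by positivity),
            ← ENNReal.ofReal_mul (by positivity), ← ENNReal.ofReal_mul (by norm_num),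
            ← ENNReal.ofReal_add (by positivity) (by positivity)]
      _ ≤ _ := by
          apply ENNReal.ofReal_le_ofReal
          have e1 : 2 * card * ε * (1 + 2 * (C1 * W0)) ≤ 4 * card * C1 * ε * (1 + W0) := by
            have h1 : 1 + 2 * (C1 * W0) ≤ 2 * C1 * (1 + W0) := by nlinarith
            have h2 := mul_le_mul_of_nonneg_left h1 (show 0 ≤ 2 * card * ε by positivity)
            linarith
          linarith

private theorem Mid2_KBr (d : ℕ) {C C' : ℝ} (hC : 1 ≤ C) (hCC : C ≤ C') (a κ3 κd M6 M8 sw : ℝ)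
    (Rb : ℕ) (ha : 0 ≤ a) (hκ3 : 0 ≤ κ3) (hκd : 0 ≤ κd) (hM6 : 0 ≤ M6) (hM8 : 0 ≤ M8)
    (hsw : 0 < sw) :
    0 ≤ KBr d C a κ3 κd M6 M8 sw Rb ∧
      KBr d C a κ3 κd M6 M8 sw Rb ≤ KBr d C' a κ3 κd M6 M8 sw Rb := by
  have hsq : 0 < Real.sqrt sw := Real.sqrt_pos.2 hsw
  have hC0 : 0 < C := by linarith
  have hC0' : 0 < C' := by linarith
  have hp : 0 ≤ pBr d C κ3 sw Rb := by
    unfold pBr
    positivity
  have hpp : pBr d C κ3 sw Rb ≤ pBr d C' κ3 sw Rb := by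
    unfold pBr
    gcongr
  constructor
  · unfold KBr
    have := Real.rpow_nonneg hp (1 / 2 : ℝ)
    positivity
  · unfold KBr
    have := Real.rpow_nonneg hp (1 / 2 : ℝ)
    gcongr

/-! ### the good event -/

private theorem Mid2_G {Ω I : Type} [MeasurableSpace Ω] [Fintype I] (μ : Measure Ω)
    [IsProbabilityMeasure μ] (E Al : Set Ω) (hE : MeasurableSet E) (hAl : MeasurableSet Al)
    (g : Ω → ℝ≥0∞) (hg : ∀ ω, g ω ≤ 2) (c b : I → ℝ≥0∞) (w : I → Ω → ℝ≥0∞)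
    (hw : ∀ x, Measurable (w x)) (S : Ω → ℝ) (hSm : Measurable S) (hS0 : ∀ ω, 0 ≤ S ω)
    (e C1 ε2 S0 : ℝ) (he : 0 ≤ e) (hC1 : 1 ≤ C1) (hε2 : 0 ≤ ε2) (h0 : 0 ≤ S0)
    (hpt : ∀ ω ∈ E, g ω ≤ ∑ x, c x * w x ω + ENNReal.ofReal (e * (1 + S ω)))
    (hb : ∀ x, ∫⁻ ω in Al, w x ω ∂μ ≤ b x)
    (hS : ∫⁻ ω, ENNReal.ofReal (S ω) ∂μ ≤ ENNReal.ofReal (C1 * S0))
    (hex : μ Alᶜ ≤ ENNReal.ofReal (ε2 * (1 + S0))) :
    ∫⁻ ω in E, g ω ∂μ ≤ ∑ x, c x * b x + ENNReal.ofReal ((e * C1 + 2 * ε2) * (1 + S0)) := by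
  have hm1 : Measurable fun ω => ∑ x, c x * w x ω :=
    Finset.measurable_fun_sum _ fun x _ => (hw x).const_mul _
  have hm2 : Measurable fun ω => ENNReal.ofReal e * (1 + ENNReal.ofReal (S ω)) :=
    (hSm.ennreal_ofReal.const_add 1).const_mul _
  have h1 : ∀ ω ∈ E, g ω ≤ Al.indicator (fun ω => ∑ x, c x * w x ω) ω +
      (ENNReal.ofReal e * (1 + ENNReal.ofReal (S ω)) + Alᶜ.indicator (fun _ => 2) ω) := by
    intro ω hω
    by_cases ha : ω ∈ Al
    · rw [Set.indicator_of_mem ha]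
      refine (hpt ω hω).trans (add_le_add le_rfl ?_)
      refine le_trans (le_of_eq ?_) le_self_add
      rw [ENNReal.ofReal_mul he, ENNReal.ofReal_add zero_le_one (hS0 ω), ENNReal.ofReal_one]
    · refine (hg ω).trans ?_
      rw [Set.indicator_of_mem (show ω ∈ Alᶜ from ha)]
      exact le_add_self.trans le_add_self
  calc ∫⁻ ω in E, g ω ∂μ
      ≤ ∫⁻ ω in E, (Al.indicator (fun ω => ∑ x, c x * w x ω) ω +
        (ENNReal.ofReal e * (1 + ENNReal.ofReal (S ω)) + Alᶜ.indicator (fun _ => 2) ω)) ∂μ :=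
        setLIntegral_mono' hE h1
    _ ≤ ∫⁻ ω, (Al.indicator (fun ω => ∑ x, c x * w x ω) ω +
        (ENNReal.ofReal e * (1 + ENNReal.ofReal (S ω)) + Alᶜ.indicator (fun _ => 2) ω)) ∂μ :=
        setLIntegral_le_lintegral _ _
    _ = ∫⁻ ω in Al, ∑ x, c x * w x ω ∂μ +
        (ENNReal.ofReal e * (1 + ∫⁻ ω, ENNReal.ofReal (S ω) ∂μ) + 2 * μ Alᶜ) := by
        rw [lintegral_add_left (hm1.indicator hAl), lintegral_add_left hm2,
          lintegral_indicator hAl, lintegral_indicator hAl.compl, setLIntegral_const,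
          lintegral_const_mul _ (hSm.ennreal_ofReal.const_add 1),
          lintegral_add_left measurable_const, lintegral_const, measure_univ, mul_one]
    _ ≤ ∑ x, c x * b x + (ENNReal.ofReal (e * (C1 * (1 + S0))) +
        ENNReal.ofReal (2 * (ε2 * (1 + S0)))) := by
        refine add_le_add ?_ (add_le_add ?_ ?_)
        · rw [lintegral_finsetSum _ fun x _ => (hw x).const_mul _]
          refine Finset.sum_le_sum fun x _ => ?_
          rw [lintegral_const_mul _ (hw x)]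
          exact mul_le_mul_right (hb x) _
        · rw [ENNReal.ofReal_mul he]
          refine mul_le_mul_right ?_ _
          refine (add_le_add_right hS 1).trans ?_
          rw [← ENNReal.ofReal_one, ← ENNReal.ofReal_add zero_le_one (by positivity)]
          apply ENNReal.ofReal_le_ofReal
          linarith
        · rw [ENNReal.ofReal_mul (by norm_num), ENNReal.ofReal_ofNat]
          exact mul_le_mul_right hex _
    _ = _ := by
        rw [← ENNReal.ofReal_add (by positivity) (by positivity)]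
        congr 2
        ring

private theorem Mid2_sq {l : ℝ} (h : 4 ≤ l) : 16 ≤ l ^ 2 := by nlinarith

private theorem Mid2_sumM {d L : ℕ} (H : (ℕ → boxS d L → ℂ) → (boxS d L → ℂ) × (boxS d L → ℂ))
    (hH : Measurable H) : Measurable fun ω => ∑ x, (‖(H ω).1 x‖ + ‖(H ω).2 x‖) :=
  Finset.measurable_fun_sum _ fun x _ =>
    (((measurable_pi_apply x).comp (measurable_fst.comp hH)).norm).add
      (((measurable_pi_apply x).comp (measurable_snd.comp hH)).norm)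

private theorem Mid2_arith1 (T E mh nh h : ℝ) (hE : 16 ≤ E) (hh : 0 < h) (h1 : mh + h ≤ nh)
    (h2 : (T + 1) * E - 3 ≤ mh) (h3 : nh ≤ (T + 1 / 2) * E) : False := by
  linarith

private theorem Mid2_arith2 (T E nh mh sE : ℝ) (hE : 16 ≤ E) (h0 : sE ≤ 1 / 4 * E)
    (h2 : (T + 1) * E - 3 ≤ nh + mh) (h3 : nh ≤ (T + 1 / 2) * E) : sE + 1 ≤ mh := by
  linarith

private theorem Mid2_arith3 (T E nh mh : ℝ) (hE : 16 ≤ E)
    (h2 : nh + mh ≤ (T + 1) * E + 3) (h3 : (T - 3 / 2) * E ≤ nh) : mh ≤ 4 * E + 4 := by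
  linarith

private theorem Mid2_arith4 (T E nh : ℝ) (hE : 16 ≤ E) (h3 : nh ≤ (T + 1 / 2) * E) :
    nh ≤ (T + 1) * E + 3 := by
  linarith

/-- coefficient of the bridge for the parameters of a block -/
noncomputable def KB2 (d : ℕ) (C C5 a T M κ3 κd sw p : ℝ) (Rb : ℕ) : ℝ :=
  KBr d C a κ3 κd (C5 * (T + M + Rb + Real.log (1 / p))) (C5 * (T + Real.log (1 / p)) + 1) sw Rb

/-- coefficient of the bad event -/
noncomputable def KE2 (d : ℕ) (C C5 c3 a a' T M s0 κ κd p : ℝ) (Rb : ℕ) : ℝ :=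
  C * Real.exp (C * (a + a') * T) * pPr d c3 C5 T M s0 κ κd p Rb ^ (1 / 2 : ℝ)

/-- the conditions on the parameters -/
def Par2 (d : ℕ) (C C5 a0 s1 a a' T M s0 κ κ3 κd sw p : ℝ) (Rb : ℕ) : Prop :=
  0 < a ∧ a ≤ a0 ∧ 0 < a' ∧ a' ≤ 1 ∧ 2 ≤ T ∧ 1 ≤ M ∧ 0 ≤ s0 ∧ s0 ≤ s1 ∧ 0 < κ ∧ κ ≤ 1 / 8 ∧
    0 < κ3 ∧ κ3 ≤ κ / (8 * C5 * (T + M + Rb + Real.log (1 / p))) / 16 ∧ κ3 ≤ κ / 64 ∧ 0 < κd ∧
    κd ≤ κ / 64 ∧ 0 < sw ∧ sw ≤ 1 / 4 ∧
    C * Real.sqrt sw ≤ κ / (8 * C5 * (T + M + Rb + Real.log (1 / p))) ∧ C * Real.sqrt sw ≤ κ3 ∧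
    16 * (2 * Rb + 1) ^ d * κd ^ 2 ≤ sw ∧ 0 < p ∧ p ≤ 1 / 2

theorem mid2 (d : ℕ) (hd : 1 ≤ d) (β : ℝ) (hβ : 0 < β) : ∃ q0 : ℝ, 1 ≤ q0 ∧ ∀ q, q0 ≤ q →
    ∃ (C a0 c3 C5 s1 : ℝ) (Ls : ℕ), 1 ≤ C ∧ 0 < a0 ∧ 0 < c3 ∧ 1 ≤ C5 ∧ 0 < s1 ∧ s1 ≤ 1 / 16 ∧
    ∀ (a a' T M s0 κ κ3 κd sw p : ℝ) (Rb : ℕ), Par2 d C C5 a0 s1 a a' T M s0 κ κ3 κd sw p Rb →
    ∃ ε0 k0 : ℝ, 0 < ε0 ∧ 0 < k0 ∧ k0 < 1 ∧ ∀ (k : ℝ) (hk : 0 < k), k < k0 → ∀ L : ℕ, Ls ≤ L →
    ∀ κL CW : ℝ, 0 ≤ κL → 0 ≤ CW →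
    (∃ h1 : ℝ, 0 < h1 ∧ ∀ h, 0 < h → h < h1 → ∀ (G : (boxS d L → ℂ) × (boxS d L → ℂ)) (n : ℕ),
      (T - 3 / 2) * ell k ^ 2 ≤ n * h → n * h ≤ (T + 1 / 2) * ell k ^ 2 → ∀ x,
      ∫⁻ ω in (PS2 d β k hβ hk.le).alv h L G n,
          wpr (boxNet d L) k q (a' / ell k) (Real.exp (-(a / 8)))
            ((PS2 d β k hβ hk.le).tr h L G ω n).1 ((PS2 d β k hβ hk.le).tr h L G ω n).2 x
          ∂(PI ((PS2 d β k hβ hk.le).mu L)) ≤
        ENNReal.ofReal κL * wpr (boxNet d L) k q (a' / ell k) (Real.exp (-(a / 8))) G.1 G.2 x +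
          ENNReal.ofReal CW) →
    ∃ CL : ℝ, 1 ≤ CL ∧ ∀ ε1 : ℝ, 0 < ε1 → ∃ h0 : ℝ, 0 < h0 ∧ ∀ h, 0 < h → h < h0 →
    ∀ (A : boxS d L → ℝ) (ε : ℝ) (f : (boxS d L → ℂ) → ℂ), (∀ x, 0 ≤ A x) → 0 ≤ ε →
      Measurable f → (∀ G, ‖f G‖ ≤ 1) →
      Cls (boxNet d L) k q (a' / ell k) (Real.exp (-(a / 8))) (a / ell k) A ε f →
    ∀ (G : (boxS d L → ℂ) × (boxS d L → ℂ)) (y : boxS d L) (A0 : ℝ), 0 ≤ A0 →
      LowR k (nrm G.1) M s0 y → LowR k (nrm G.2) M s0 y →
      Caps k (nrm G.1) ε0 y → Caps k (nrm G.2) ε0 y →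
      (∀ v, ‖G.1 v - G.2 v‖ ≤ A0 * k ^ (-(1 / 4) + 11 / 16 * ((boxNet d L).dist y v : ℝ))) →
    ∀ m : ℕ, (T + 1) * ell k ^ 2 - 3 ≤ m * h → m * h ≤ (T + 1) * ell k ^ 2 + 3 →
      ENNReal.ofReal ‖(Fam2 d β k).Pn h L m f G.1 - (Fam2 d β k).Pn h L m f G.2‖ ≤
        ∑ x, ENNReal.ofReal (A x * Real.exp (-(7 / 16 * a * (boxNet d L).dist x y)) *
            A0 ^ (a / ell k)) *
          (ENNReal.ofReal (KB2 d C C5 a T M κ3 κd sw p Rb) *
              (ENNReal.ofReal κL *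
                wpr (boxNet d L) k q (a' / ell k) (Real.exp (-(a / 8))) G.1 G.2 x +
                ENNReal.ofReal CW) +
            ENNReal.ofReal (KE2 d C C5 c3 a a' T M s0 κ κd p Rb) *
              wpr (boxNet d L) k q (a' / ell k) (Real.exp (-(a / 8))) G.1 G.2 x) +
          ENNReal.ofReal ((CL * ε + ε1) * (1 + ∑ x, (‖G.1 x‖ + ‖G.2 x‖))) := by
  obtain ⟨c3, C5, s1, Ls, hc3, hC5, hs1, hs1', HP⟩ := pair2 d hd β hβ
  obtain ⟨qB, hqB, HB⟩ := brM d β hβ
  obtain ⟨qS, hqS, HS⟩ := sm_multi 2 d β le_rfl hβ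
  obtain ⟨lam0, C0, hlam0, hC0, hlpp⟩ := lpp_exp d (1 / 8) (by norm_num)
  refine ⟨max qB qS, le_trans hqB (le_max_left _ _), ?_⟩
  intro q hq
  have hqB' : qB ≤ q := le_trans (le_max_left _ _) hq
  have hqS' : qS ≤ q := le_trans (le_max_right _ _) hq
  have hq1 : 1 ≤ q := hqB.trans hqB'
  obtain ⟨Cb, ab, hCb, hab, HB2⟩ := HB q hqB'
  obtain ⟨C9, kS, hC9, hkS, hkS1, HS2⟩ := HS q hqS'
  set C : ℝ := Cb + (4 + 5 / 4 + 5 / 2 * C0 + 10 * C9) with hC
  have hC4 : 4 ≤ C := by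
    have : 0 < 5 / 2 * C0 := by positivity
    have : 0 < 10 * C9 := by positivity
    linarith
  have hCbC : Cb ≤ C := by
    have : 0 < 5 / 2 * C0 := by positivity
    have : 0 < 10 * C9 := by positivity
    linarith
  refine ⟨C, min ab (lam0 / 4), c3, C5, s1, Ls, by linarith, by positivity, hc3, hC5, hs1, hs1', ?_⟩
  intro a a' T M s0 κ κ3 κd sw p Rb hpar
  obtain ⟨ha, haa0, ha', ha'1, hT, hM, hs0, hs01, hκ, hκ8, hκ3, hκ3a, hκ3b, hκd, hκdκ, hsw, hsw4,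
    hCk2, hCk3, h16, hp, hp2⟩ := hpar
  have haab : a ≤ ab := haa0.trans (min_le_left _ _)
  have hal4 : 4 * a ≤ lam0 := by
    have := haa0.trans (min_le_right _ _)
    linarith
  have hlogp : 0 ≤ Real.log (1 / p) := Real.log_nonneg (by rw [le_div_iff₀ hp]; linarith)
  have hRb : (0 : ℝ) ≤ Rb := Nat.cast_nonneg _
  set Bq : ℝ := T + M + Rb + Real.log (1 / p) with hBq
  have hB3 : 3 ≤ Bq := by linarith
  have hC50 : 0 < C5 := by linarith
  have hCB : 3 ≤ C5 * Bq := hB3.trans (le_mul_of_one_le_left (by linarith) hC5)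
  set κ2 : ℝ := κ / (8 * C5 * Bq) with hκ2d
  have hden : 0 < 8 * C5 * Bq := by positivity
  have hκ2 : 0 < κ2 := by positivity
  have hκ28 : κ2 ≤ 1 / 8 := by
    rw [hκ2d, div_le_iff₀ hden, show 1 / 8 * (8 * C5 * Bq) = C5 * Bq by ring]
    linarith
  set lp : ℝ := Real.log (1 / p) with hlp
  have hM6 : 0 ≤ C5 * Bq := by linarith
  have hM8 : 1 ≤ C5 * (T + lp) + 1 := by
    have : 0 ≤ C5 * (T + lp) := by positivity
    linarith
  have hsq0 : 0 ≤ Real.sqrt sw := Real.sqrt_nonneg _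
  have hCbs : Cb * Real.sqrt sw ≤ C * Real.sqrt sw := mul_le_mul_of_nonneg_right hCbC hsq0
  obtain ⟨ε0, kP, hε0, hkP, hkP1, HP2⟩ := HP T M s0 κ κd p Rb hT hM hs0 hs01 hκ hκ8 hκd
    (by linarith) hp hp2
  obtain ⟨kB, hkB, hkB1, HB3⟩ := HB2 a a' κ κ2 κ3 κd (C5 * Bq) (C5 * (T + lp) + 1) sw Rb ha haab ha'
    ha'1 hκ hκ8 hκ2 hκ28 hκ3 hκ3a hκ3b hκd hκdκ hM6 hM8 hsw (by linarith) (hCbs.trans hCk2)
    (hCbs.trans hCk3) h16
  obtain ⟨kT, hkT, hkT1, HT⟩ := Mid2_k0 d T q (by linarith) hq1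
  refine ⟨ε0, min (min kP kB) (min kS kT), hε0, by positivity,
    ((min_le_left _ _).trans (min_le_left _ _)).trans_lt hkP1, ?_⟩
  intro k hk hkk L hL κL CW hκL hCW hhyp
  obtain ⟨h1, hh1, Hh1⟩ := hhyp
  have hkkP : k < kP := hkk.trans_le ((min_le_left _ _).trans (min_le_left _ _))
  have hkkB : k < kB := hkk.trans_le ((min_le_left _ _).trans (min_le_right _ _))
  have hkkS : k < kS := hkk.trans_le ((min_le_right _ _).trans (min_le_left _ _))
  have hkkT : k < kT := hkk.trans_le ((min_le_right _ _).trans (min_le_right _ _))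
  have hk1 : k < 1 := hkkP.trans hkP1
  obtain ⟨hell4, hellq, hkq, hkd⟩ := HT k hk hkkT
  have hl0 : 0 < ell k := by linarith
  have hl16 : 16 ≤ ell k ^ 2 := Mid2_sq hell4
  obtain ⟨CLb, hCLb, HB4⟩ := HB3 k hk hkkB L
  have hSm : 0 ≤ (T + 1) * ell k ^ 2 + 3 := by positivity
  obtain ⟨C1, h2, hC1, hh2, Hlin⟩ := lin_sum 2 hβ hk.le (PS2 d β k hβ hk.le) bnoise2 L
    ((T + 1) * ell k ^ 2 + 3) hSm
  obtain ⟨h3, hh3, HP3⟩ := HP2 k hk hkkP L hL
  have hs4 : 8 * q * (4 * (a' / ell k)) ≤ 1 := by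
    have e : 8 * q * (4 * (a' / ell k)) = (32 * q * a') / ell k := by ring
    rw [e, div_le_one hl0]
    exact (mul_le_of_le_one_right (by linarith) ha'1).trans hellq
  obtain ⟨h4, hh4, Hsm⟩ := HS2 (Fam2 d β k) k (PS2 d β k hβ hk.le) hk hkkS bnoise2
    (4 * (a' / ell k)) (by positivity) hs4
  set card : ℝ := (Fintype.card (boxS d L) : ℝ) with hcard
  have hcard0 : 0 ≤ card := by positivity
  have hC10 : 0 < C1 := by linarith
  refine ⟨4 * card * C1 + CLb * C1, ?_, ?_⟩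
  · have h0 : 0 ≤ 4 * card * C1 := by positivity
    have h00 : 1 ≤ CLb * C1 := one_le_mul_of_one_le_of_one_le hCLb hC1
    linarith
  intro ε1 hε1
  obtain ⟨h5, hh5, HB5⟩ := HB4 (ε1 / (2 * C1)) (by positivity)
  obtain ⟨h6, hh6, Hex⟩ := exit_bd 2 hβ hk.le (PS2 d β k hβ hk.le) bnoise2 L
    ((T + 1) * ell k ^ 2 + 3) (ε1 / 8) hSm (by positivity)
  refine ⟨min (min (min h1 h2) (min h3 h4)) (min (min h5 h6) (1 / lam0 ^ 2)), by positivity, ?_⟩
  intro h hh hhh A ε f hA hε hf hfb hcls G y A0 hA0 hlow1 hlow2 hcap1 hcap2 hprof m hm1 hm2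
  have hlt1 : h < h1 := hhh.trans_le
    ((min_le_left _ _).trans ((min_le_left _ _).trans (min_le_left _ _)))
  have hlt2 : h < h2 := hhh.trans_le
    ((min_le_left _ _).trans ((min_le_left _ _).trans (min_le_right _ _)))
  have hlt3 : h < h3 := hhh.trans_le
    ((min_le_left _ _).trans ((min_le_right _ _).trans (min_le_left _ _)))
  have hlt4 : h < h4 := hhh.trans_le
    ((min_le_left _ _).trans ((min_le_right _ _).trans (min_le_right _ _)))
  have hlt5 : h < h5 := hhh.trans_le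
    ((min_le_right _ _).trans ((min_le_left _ _).trans (min_le_left _ _)))
  have hlt6 : h < h6 := hhh.trans_le
    ((min_le_right _ _).trans ((min_le_left _ _).trans (min_le_right _ _)))
  have hlt7 : h < 1 / lam0 ^ 2 := hhh.trans_le ((min_le_right _ _).trans (min_le_right _ _))
  obtain ⟨n, hn1, hn2, hbad⟩ := HP3 h hh hlt3 G y A0 hA0 hlow1 hlow2 hcap1 hcap2 hprof
  have hnm : n ≤ m := by
    by_contra hc
    push Not at hc
    have h8 : (m : ℝ) + 1 ≤ n := by exact_mod_cast hc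
    have h9 : ((m : ℝ) + 1) * h ≤ n * h := mul_le_mul_of_nonneg_right h8 hh.le
    have h10 : ((m : ℝ) + 1) * h = m * h + h := by ring
    exact Mid2_arith1 T (ell k ^ 2) (m * h) (n * h) h hl16 hh (h10 ▸ h9) hm1 hn2
  obtain ⟨m', rfl⟩ : ∃ m', m = n + m' := Nat.exists_eq_add_of_le hnm
  have hcast : ((n + m' : ℕ) : ℝ) = n + m' := by push_cast; ring
  have hm'1 : sw * ell k ^ 2 + 1 ≤ m' * h := by
    rw [hcast] at hm1
    have h8 : sw * ell k ^ 2 ≤ 1 / 4 * ell k ^ 2 :=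
      mul_le_mul_of_nonneg_right hsw4 (by positivity)
    have h9 : ((n : ℝ) + m') * h = n * h + m' * h := by ring
    rw [h9] at hm1
    exact Mid2_arith2 T (ell k ^ 2) (n * h) (m' * h) (sw * ell k ^ 2) hl16 h8 hm1 hn2
  have hm'2 : m' * h ≤ 4 * ell k ^ 2 + 4 := by
    rw [hcast, show ((n : ℝ) + m') * h = n * h + m' * h by ring] at hm2
    exact Mid2_arith3 T (ell k ^ 2) (n * h) (m' * h) hl16 hm2 hn1
  have hnSm : (n : ℝ) * h ≤ (T + 1) * ell k ^ 2 + 3 :=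
    Mid2_arith4 T (ell k ^ 2) (n * h) hl16 hn2
  set α : ℝ := Real.exp (-(a / 8)) with hα
  have hα0 : 0 ≤ α := (Real.exp_pos _).le
  set θ : ℝ := a / ell k with hθ
  set s : ℝ := a' / ell k with hs
  set W0 : ℝ := ∑ x, (‖G.1 x‖ + ‖G.2 x‖) with hW0
  have hW00 : 0 ≤ W0 := Finset.sum_nonneg fun x _ => by positivity
  set S := PS2 d β k hβ hk.le with hS
  set Bad : Set ((boxS d L → ℂ) × (boxS d L → ℂ)) := {H | ¬ (GCfg k κ κ2 κd (C5 * Bq) y Rb H ∧
      ∀ v, ‖H.1 v - H.2 v‖ ≤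
        A0 * k ^ (-(C5 * (T + lp)) + 5 / 8 * ((boxNet d L).dist y v : ℝ)))} with hBad
  have hBadM : MeasurableSet Bad := Mid2_bad k κ κ2 κd (C5 * Bq) y Rb A0 (C5 * (T + lp))
  have htr : ∀ ω j, S.tr h L G ω j =
      (traj (st2 d β k h L) G.1 ω j, traj (st2 d β k h L) G.2 ω j) := fun ω j =>
    Mid2_tr d β k hβ hk.le h L G ω j
  have hsplit := Mid2_split (Measure.pi fun _ : boxS d L => gC) (st2 d β k h L)
    (measurable_st2 d β k h L) f hf hfb G n m' Bad hBadM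
  set E : Set (ℕ → boxS d L → ℂ) :=
    {ω | (traj (st2 d β k h L) G.1 ω n, traj (st2 d β k h L) G.2 ω n) ∈ Bad} with hE
  have hEm : MeasurableSet E := by
    have h8 : Measurable fun ω : ℕ → boxS d L → ℂ =>
        (traj (st2 d β k h L) G.1 ω n, traj (st2 d β k h L) G.2 ω n) :=
      ((measurable_traj (st2 d β k h L) (measurable_st2 d β k h L) n).comp
        (measurable_const.prodMk measurable_id)).prodMk
        ((measurable_traj (st2 d β k h L) (measurable_st2 d β k h L) n).comp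
        (measurable_const.prodMk measurable_id))
    exact h8 hBadM
  set P : ℝ := pPr d c3 C5 T M s0 κ κd p Rb with hP
  have hP0 : 0 ≤ P := by
    rw [hP]
    unfold pPr
    have h8 : 0 ≤ (C5 * (T + M + Rb + Real.log (1 / p))) ^ (4 * d + 4) := pow_nonneg hM6 _
    positivity
  have hPE : PI (Measure.pi fun _ : boxS d L => gC) E ≤ ENNReal.ofReal P := hbad
  -- the bad event
  have hEest := Mid2_E hβ hk hk1 q a a' T C9 lam0 C0 hq1 ha ha' ha'1 hT hC9 hC0 hlpp hal4 hell4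
    hellq hkq hkd h hh hlt7.le L (fun G n x => Hsm h hh hlt4 L G n x) A ε f hA hε hf hfb α hα0 hcls
    G y A0 hA0 hprof (n + m') hm2 E hEm P C1 (ε1 / 8) hP0 hC1 (by positivity) hPE
    (Hlin h hh hlt2 G (n + m') hm2) (Hex h hh hlt6 G (n + m') hm2)
  -- the good event
  set KB : ℝ := KBr d Cb a κ3 κd (C5 * Bq) (C5 * (T + lp) + 1) sw Rb with hKB
  have hKBm := Mid2_KBr d hCb hCbC a κ3 κd (C5 * Bq) (C5 * (T + lp) + 1) sw Rb ha.le hκ3.le hκd.le
    hM6 (by linarith) hsw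
  have htrM : Measurable (β := (boxS d L → ℂ) × (boxS d L → ℂ)) (fun ω => S.tr h L G ω n) :=
    Mid2_trM hβ hk h L G n
  have hGest := Mid2_G (PI (Measure.pi fun _ : boxS d L => gC)) Eᶜ (S.alv h L G n) hEm.compl
    (measurableSet_alv S h L G n)
    (fun ω => ENNReal.ofReal ‖∫ b, f (traj (st2 d β k h L) (traj (st2 d β k h L) G.1 ω n) b m')
        ∂(PI (Measure.pi fun _ : boxS d L => gC)) -
      ∫ b, f (traj (st2 d β k h L) (traj (st2 d β k h L) G.2 ω n) b m')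
        ∂(PI (Measure.pi fun _ : boxS d L => gC))‖)
    (by
      intro ω
      have h8 : ∀ H : boxS d L → ℂ, ‖∫ b, f (traj (st2 d β k h L) H b m')
          ∂(PI (Measure.pi fun _ : boxS d L => gC))‖ ≤ 1 := fun H =>
        (Fam_Pn_facts (Fam2 d β k) h L m' f hf hfb).2 H
      rw [← ENNReal.ofReal_ofNat 2]
      apply ENNReal.ofReal_le_ofReal
      refine (norm_sub_le _ _).trans ?_
      linarith [h8 (traj (st2 d β k h L) G.1 ω n), h8 (traj (st2 d β k h L) G.2 ω n)])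
    (fun x => ENNReal.ofReal (A x * (KB * Real.exp (-(7 / 16 * a * (boxNet d L).dist x y))) *
      A0 ^ θ))
    (fun x => ENNReal.ofReal κL * wpr (boxNet d L) k q s α G.1 G.2 x + ENNReal.ofReal CW)
    (fun x ω => wpr (boxNet d L) k q s α (S.tr h L G ω n).1 (S.tr h L G ω n).2 x)
    (fun x => Mid2_wprM k q s α (fun ω => S.tr h L G ω n) htrM x)
    (fun ω => ∑ x, (‖(S.tr h L G ω n).1 x‖ + ‖(S.tr h L G ω n).2 x‖))
    (Mid2_sumM (fun ω => S.tr h L G ω n) htrM)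
    (fun ω => Finset.sum_nonneg fun x _ => by positivity)
    (CLb * ε + ε1 / (2 * C1)) C1 (ε1 / 8) W0 (by positivity) hC1 (by positivity) hW00
    (by
      intro ω hω
      have hgood : GCfg k κ κ2 κd (C5 * Bq) y Rb
            (traj (st2 d β k h L) G.1 ω n, traj (st2 d β k h L) G.2 ω n) ∧
          ∀ v, ‖traj (st2 d β k h L) G.1 ω n v - traj (st2 d β k h L) G.2 ω n v‖ ≤
            A0 * k ^ (-(C5 * (T + lp)) + 5 / 8 * ((boxNet d L).dist y v : ℝ)) := by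
        by_contra hc
        exact hω hc
      have h8 := HB5 h hh hlt5 A ε f hA hε hf hfb hcls y A0
        (traj (st2 d β k h L) G.1 ω n, traj (st2 d β k h L) G.2 ω n) hA0 hgood.1
        (fun v => by
          have h9 := hgood.2 v
          rwa [show C5 * (T + lp) + 1 - 1 = C5 * (T + lp) by ring]) m' hm'1 hm'2
      rw [htr ω n]
      exact h8)
    (fun x => Hh1 h hh hlt1 G n hn1 hn2 x)
    (Hlin h hh hlt2 G n hnSm) (Hex h hh hlt6 G n hnSm)
  refine le_trans hsplit ?_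
  refine le_trans (add_le_add hEest hGest) ?_
  have hbase : ∀ x, 0 ≤ A x * Real.exp (-(7 / 16 * a * (boxNet d L).dist x y)) * A0 ^ θ := fun x =>
    mul_nonneg (mul_nonneg (hA x) (Real.exp_pos _).le) (Real.rpow_nonneg hA0 θ)
  have hKB2 : KB2 d C C5 a T M κ3 κd sw p Rb =
      KBr d C a κ3 κd (C5 * Bq) (C5 * (T + lp) + 1) sw Rb := rfl
  have hx1 : ∀ x, ENNReal.ofReal (4 * A x * P ^ (1 / 2 : ℝ) * (A0 ^ θ *
          Real.exp (5 / 4 * a) * Real.exp (-(11 / 16 * a * (boxNet d L).dist y x)) *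
          Real.exp (5 / 2 * C0 * a * T)) * Real.exp (10 * C9 * a' * T)) *
          wpr (boxNet d L) k q s α G.1 G.2 x ≤
      ENNReal.ofReal (A x * Real.exp (-(7 / 16 * a * (boxNet d L).dist x y)) * A0 ^ θ) *
        (ENNReal.ofReal (KE2 d C C5 c3 a a' T M s0 κ κd p Rb) *
          wpr (boxNet d L) k q s α G.1 G.2 x) := by
    intro x
    rw [← mul_assoc (ENNReal.ofReal (A x *
      Real.exp (-(7 / 16 * a * (boxNet d L).dist x y)) * A0 ^ θ)),
      ← ENNReal.ofReal_mul (hbase x)]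
    refine mul_le_mul_left (ENNReal.ofReal_le_ofReal ?_) _
    have hKE : KE2 d C C5 c3 a a' T M s0 κ κd p Rb =
        C * Real.exp (C * (a + a') * T) * P ^ (1 / 2 : ℝ) := rfl
    rw [hKE, (boxNet d L).dist_comm y x]
    have hP2 : 0 ≤ P ^ (1 / 2 : ℝ) := Real.rpow_nonneg hP0 _
    have hA2 : 0 ≤ A0 ^ θ := Real.rpow_nonneg hA0 θ
    have hAx := hA x
    have e1 : Real.exp (5 / 4 * a) * Real.exp (5 / 2 * C0 * a * T) *
        Real.exp (10 * C9 * a' * T) ≤ Real.exp (C * (a + a') * T) := by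
      rw [← Real.exp_add, ← Real.exp_add]
      apply Real.exp_le_exp.2
      have e2 : C * (a + a') * T = Cb * (a + a') * T + 4 * (a + a') * T + 5 / 4 * (a + a') * T +
          5 / 2 * C0 * (a + a') * T + 10 * C9 * (a + a') * T := by
        rw [hC]
        ring
      have e3 : 0 ≤ Cb * (a + a') * T := by positivity
      have e4 : 0 ≤ 4 * (a + a') * T := by positivity
      have e5 : 5 / 4 * a ≤ 5 / 4 * (a + a') * T := by
        have e9 : a + a' ≤ (a + a') * T := le_mul_of_one_le_right (by positivity) (by linarith)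
        linarith
      have e6 : 5 / 2 * C0 * a * T ≤ 5 / 2 * C0 * (a + a') * T := by gcongr; linarith
      have e7 : 10 * C9 * a' * T ≤ 10 * C9 * (a + a') * T := by gcongr; linarith
      linarith
    have e8 : Real.exp (-(11 / 16 * a * (boxNet d L).dist x y)) ≤
        Real.exp (-(7 / 16 * a * (boxNet d L).dist x y)) := by
      apply Real.exp_le_exp.2
      have : (0 : ℝ) ≤ a * (boxNet d L).dist x y := mul_nonneg ha.le (Nat.cast_nonneg _)
      linarith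
    calc 4 * A x * P ^ (1 / 2 : ℝ) * (A0 ^ θ *
          Real.exp (5 / 4 * a) * Real.exp (-(11 / 16 * a * (boxNet d L).dist x y)) *
          Real.exp (5 / 2 * C0 * a * T)) * Real.exp (10 * C9 * a' * T)
        = A x * Real.exp (-(11 / 16 * a * (boxNet d L).dist x y)) * A0 ^ θ *
          (4 * (Real.exp (5 / 4 * a) * Real.exp (5 / 2 * C0 * a * T) *
            Real.exp (10 * C9 * a' * T)) * P ^ (1 / 2 : ℝ)) := by ring
      _ ≤ A x * Real.exp (-(7 / 16 * a * (boxNet d L).dist x y)) * A0 ^ θ *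
          (C * Real.exp (C * (a + a') * T) * P ^ (1 / 2 : ℝ)) := by
          gcongr
  have hx2 : ∀ x, ENNReal.ofReal (A x * (KB *
        Real.exp (-(7 / 16 * a * (boxNet d L).dist x y))) * A0 ^ θ) *
        (ENNReal.ofReal κL * wpr (boxNet d L) k q s α G.1 G.2 x + ENNReal.ofReal CW) ≤
      ENNReal.ofReal (A x * Real.exp (-(7 / 16 * a * (boxNet d L).dist x y)) * A0 ^ θ) *
        (ENNReal.ofReal (KB2 d C C5 a T M κ3 κd sw p Rb) *
          (ENNReal.ofReal κL * wpr (boxNet d L) k q s α G.1 G.2 x + ENNReal.ofReal CW)) := by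
    intro x
    rw [← mul_assoc (ENNReal.ofReal (A x * Real.exp _ * A0 ^ θ)), ← ENNReal.ofReal_mul (hbase x)]
    refine mul_le_mul_left (ENNReal.ofReal_le_ofReal ?_) _
    rw [hKB2]
    have h8 := mul_le_mul_of_nonneg_left hKBm.2 (hbase x)
    linarith
  have hsum : ∑ x, ENNReal.ofReal (4 * A x * P ^ (1 / 2 : ℝ) * (A0 ^ θ *
          Real.exp (5 / 4 * a) * Real.exp (-(11 / 16 * a * (boxNet d L).dist y x)) *
          Real.exp (5 / 2 * C0 * a * T)) * Real.exp (10 * C9 * a' * T)) *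
          wpr (boxNet d L) k q s α G.1 G.2 x +
        ∑ x, ENNReal.ofReal (A x * (KB *
          Real.exp (-(7 / 16 * a * (boxNet d L).dist x y))) * A0 ^ θ) *
          (ENNReal.ofReal κL * wpr (boxNet d L) k q s α G.1 G.2 x + ENNReal.ofReal CW) ≤
      ∑ x, ENNReal.ofReal (A x * Real.exp (-(7 / 16 * a * (boxNet d L).dist x y)) * A0 ^ θ) *
          (ENNReal.ofReal (KB2 d C C5 a T M κ3 κd sw p Rb) *
              (ENNReal.ofReal κL * wpr (boxNet d L) k q s α G.1 G.2 x + ENNReal.ofReal CW) +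
            ENNReal.ofReal (KE2 d C C5 c3 a a' T M s0 κ κd p Rb) *
              wpr (boxNet d L) k q s α G.1 G.2 x) := by
    rw [← Finset.sum_add_distrib]
    refine Finset.sum_le_sum fun x _ => ?_
    refine le_trans (le_of_eq (add_comm _ _)) ((add_le_add (hx2 x) (hx1 x)).trans (le_of_eq ?_))
    exact (mul_add _ _ _).symm
  have herr : ENNReal.ofReal ((4 * card * C1 * ε + 2 * (ε1 / 8)) * (1 + W0)) +
      ENNReal.ofReal (((CLb * ε + ε1 / (2 * C1)) * C1 + 2 * (ε1 / 8)) * (1 + W0)) ≤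
      ENNReal.ofReal (((4 * card * C1 + CLb * C1) * ε + ε1) * (1 + W0)) := by
    rw [← ENNReal.ofReal_add (by positivity) (by positivity)]
    apply ENNReal.ofReal_le_ofReal
    have h8 : ε1 / (2 * C1) * C1 = ε1 / 2 := by
      field_simp
    have h9 : (CLb * ε + ε1 / (2 * C1)) * C1 = CLb * C1 * ε + ε1 / 2 := by
      rw [add_mul, h8]
      ring
    rw [h9, ← add_mul]
    refine mul_le_mul_of_nonneg_right (le_of_eq ?_) (by linarith)
    ring
  calc _ = (∑ x, ENNReal.ofReal (4 * A x * P ^ (1 / 2 : ℝ) * (A0 ^ θ *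
          Real.exp (5 / 4 * a) * Real.exp (-(11 / 16 * a * (boxNet d L).dist y x)) *
          Real.exp (5 / 2 * C0 * a * T)) * Real.exp (10 * C9 * a' * T)) *
          wpr (boxNet d L) k q s α G.1 G.2 x +
        ∑ x, ENNReal.ofReal (A x * (KB *
          Real.exp (-(7 / 16 * a * (boxNet d L).dist x y))) * A0 ^ θ) *
          (ENNReal.ofReal κL * wpr (boxNet d L) k q s α G.1 G.2 x + ENNReal.ofReal CW)) +
        (ENNReal.ofReal ((4 * card * C1 * ε + 2 * (ε1 / 8)) * (1 + W0)) +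
          ENNReal.ofReal (((CLb * ε + ε1 / (2 * C1)) * C1 + 2 * (ε1 / 8)) * (1 + W0))) := by
        abel
    _ ≤ _ := add_le_add hsum herr

end DynC
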