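import Pool.Agent.Lib_MP_36b788c.Hop0

/-!
# One window, one site, `N ≥ 3`

`M = MN3 N`, window `n h ≤ σ ell + 1`, `λ = lamN N`.

PROOF.
* `fm_same`: two starts, same noise: `E‖G'_{j+1} x - G_{j+1} x‖ ≤ (1+Ch) E‖D_j x‖ + k h cpl(E‖D_j‖) x` (`JV_nonexp`, `E‖A v‖ ≤ (1+Ch)‖v‖`), supersolution `W`.
* `pr_mean`: `E‖pr A i j v‖ ≤ (1+Ch)^{j-i} ‖v‖`, independence.
* `neg_prod`: `E[‖pr A 0 n w‖^{-r}; all ω_j ∈ gd] ≤ (1 + (-λr + r²/2 + ε1) h)^n ‖w‖^{-r}` (induction, `mn3_neg`; on `gd`, `A` is injective by `near`), Markov: `P(‖pr A 0 n w‖ < exp(λ n h - ε ell)‖w‖) ≤ n h³ + exp(-rε ell + (r²/2+ε1) n h)`; `r = min 1 (ε/(2σ))`, `ε1 = r²/2`: `≤ k^{c}` for `n h ≤ σ ell + 1`.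
* `ol3`: `u = ‖G x‖ > 0`, `n1 = ⌈k^e/h⌉`, `C = M.C`, `δ = k^{e/8}`. `Reg`: `RegS M … x n1 δ`, `ω_j x ∈ gd` for `j < n`, `‖G_j x‖ < k^κ` for `n1 ≤ j ≤ n`. `sbs` with `v = shz M x n1`, `F ω = traj … G ω n x`, `η = k^{e/16}`, `ρ = (1/16C) √(n1 h) η k^{ε/2} e^{λ n h} u` (`≥ k^{2e+ε} e^{λ n h} u`).
Let `φ' - φ ≥ η`, `D_j = trs φ' ω j - trs φ ω j`, both shifted paths in `Reg`. As in `ol2`, outside probability `C k^{1/8}`: `‖D_{n1} x‖ ≥ √(n1 h)(φ'-φ)u/(2C)`, `‖D_{n1} x‖ ≤ 4 √(n1 h) u`, and `‖D_{n1} v‖ ≤ √(n1 h) u k^{-1/4} k^{(3/4) dist x v}` for `v ≠ x` (Markov, `fm2`; note `E‖D_{n1} v‖ ≤ C√(n1 h)k^{-e/4} k^{(1+15e/16) dist} u`, so even the bound with `k^{1/2 + (3/4)(dist-1)}` holds outside probability `C k^{1/8}`).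
`W v = ‖D_{n1} x‖ k^{(3/4) dist x v} + √(n1 h) u k^{1/2} k^{(3/4)(dist x v - 1)^+}` satisfies `k cpl W ≤ 4 d k^{1/4} W`. `fm_same` from time `n1` (conditionally on the first `n1` steps): `E‖D_j v‖ ≤ e^{C(σ ell + 2)} W v`.
Duhamel at `x`: `D_n x = pr A n1 n (D_{n1} x) + Σ_j pr A (j+1) n (e_j + k h coup D_j x)`, `‖e_j‖ ≤ h(1+β)(2k^κ)^β ‖A_j D_j x‖` (`JV_lip`; both norms `≤ 2k^κ`). `pr_mean` for the later factors: the expectation of the norm of the sum, restricted to `Reg` up to the current time, is `≤ e^{C'(σ ell+2)}(ell²)( (2k^κ)^β (1+β) W x + k·2d·(W(nb) + W x))`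
`≤ (k^{κβ - 2C'σ} + k^{1/2}…)(‖D_{n1} x‖ + k^{1/2} √(n1 h) u)`. With `σ ≤ σ0(κ,β)`, `ε ≤ κβ/8` this is `≤ k^{κβ/2} ‖D_{n1} x‖`, Markov: the sum is `≤ (1/4) k^{ε/2} e^{λ n h}‖D_{n1} x‖` outside probability `k^{κβ/4}`. Main term: `neg_prod` with `w = D_{n1} x` (independent of the later noise), `ε/4`: `≥ k^{ε/4} e^{λ(n-n1)h}‖D_{n1} x‖`.
So `‖D_n x‖ ≥ (1/2) k^{ε/2} e^{λ n h}‖D_{n1} x‖ > 2ρ` outside probability `k^{c}`; `p2 ≤ k^c`.
-/

open MeasureTheory ProbabilityTheory
open scoped ENNReal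

namespace DynC

open Dyn

private theorem OL3_step {X : Type} [MeasurableSpace X] (μ : Measure X) [IsProbabilityMeasure μ]
    (k : ℕ) (G : (ℕ → X) → X → ℝ≥0∞) (hG : Measurable (fun p : (ℕ → X) × X => G p.1 p.2))
    (hd : ∀ c, Dep k (fun a => G a c)) :
    ∫⁻ ω, G ω (ω k) ∂(PI μ) = ∫⁻ a, ∫⁻ c, G a c ∂μ ∂(PI μ) := by
  have hF : Measurable (fun ω : ℕ → X => G ω (ω k)) :=
    hG.comp (measurable_id.prodMk (measurable_pi_apply k))
  rw [lintegral_glue k _ hF]
  refine lintegral_congr fun a => ?_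
  have h1 : ∀ b : ℕ → X, G (glue k a b) (glue k a b k) = G a (b 0) := by
    intro b
    have e : glue k a b k = b 0 := by simp [glue]
    rw [e]
    exact hd (b 0) _ _ (fun i hi => by simp [glue, hi])
  simp only [h1]
  have h2 : Measurable (fun c => G a c) := hG.comp (measurable_const.prodMk measurable_id)
  have h3 := lintegral_map (μ := PI μ) h2 (measurable_pi_apply 0)
  rw [map_coord 0] at h3
  exact h3.symm

/-- one coordinate of a product measure -/
private theorem OL3_pi {ι X : Type} [Fintype ι] [MeasurableSpace X] (μ : Measure X)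
    [IsProbabilityMeasure μ] (x : ι) : (Measure.pi fun _ : ι => μ).map (fun c => c x) = μ :=
  (measurePreserving_eval (fun _ : ι => μ) x).map_eq

section

variable {V H : Type} [NormedAddCommGroup V] [InnerProductSpace ℝ V] [MeasurableSpace V]
  [BorelSpace V] [SecondCountableTopology V] [CompleteSpace V]
  [NormedAddCommGroup H] [InnerProductSpace ℝ H] [MeasurableSpace H]

omit [BorelSpace V] [SecondCountableTopology V] [CompleteSpace V] in
private theorem OL3_meas_A (M : MN V H) (h : ℝ) (v : V) : Measurable (fun ω => M.A h ω v) := by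
  have h1 := (M.mA h).comp (measurable_id.prodMk (measurable_const (a := v)))
  simpa only [Function.comp_def, id] using h1

private theorem OL3_Anorm (M : MN V H) {h : ℝ} (hh : 0 < h) (hh1 : h < 1) (v : V) :
    ∫⁻ ω, ENNReal.ofReal ‖M.A h ω v‖ ∂M.γ ≤ ENNReal.ofReal ((1 + M.C * h) * ‖v‖) := by
  rcases eq_or_ne v 0 with rfl | hv
  · simp
  have hv0 : 0 < ‖v‖ := norm_pos_iff.2 hv
  have hC := M.C1
  have hint := M.int h v hh hh1
  have hmean := M.mean h v hh hh1
  have hvar := M.var h v hh hh1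
  have hmA := OL3_meas_A M h v
  have hms : Measurable (fun ω => ‖M.A h ω v - v‖ ^ 2) := ((hmA.sub_const v).norm).pow_const 2
  have hi2 : Integrable (fun ω => ‖M.A h ω v - v‖ ^ 2) M.γ := by
    refine ⟨hms.aestronglyMeasurable, ?_⟩
    rw [hasFiniteIntegral_iff_ofReal (Filter.Eventually.of_forall fun ω => by positivity)]
    exact hvar.trans_lt ENNReal.ofReal_lt_top
  have hvar2 : ∫ ω, ‖M.A h ω v - v‖ ^ 2 ∂M.γ ≤ M.C * h * ‖v‖ ^ 2 := by
    rw [← ofReal_integral_eq_lintegral_ofReal hi2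
      (Filter.Eventually.of_forall fun ω => by positivity)] at hvar
    exact (ENNReal.ofReal_le_ofReal_iff (by positivity)).1 hvar
  have hii : Integrable (fun ω => (inner ℝ v (M.A h ω v - v) : ℝ)) M.γ :=
    (hint.sub (integrable_const v)).const_inner v
  have hiz : ∫ ω, (inner ℝ v (M.A h ω v - v) : ℝ) ∂M.γ = 0 := by
    have e1 : Integrable (fun ω => M.A h ω v - v) M.γ := hint.sub (integrable_const v)
    rw [integral_inner e1, integral_sub hint (integrable_const v), hmean]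
    simp
  have hptw : ∀ ω, ‖M.A h ω v‖ ≤ ‖v‖ + (inner ℝ v (M.A h ω v - v) : ℝ) / ‖v‖ +
      ‖M.A h ω v - v‖ ^ 2 / (2 * ‖v‖) := by
    intro ω
    set w := M.A h ω v with hw
    have h1 : ‖w‖ ^ 2 = ‖v‖ ^ 2 + 2 * (inner ℝ v (w - v) : ℝ) + ‖w - v‖ ^ 2 := by
      have h2 : w = v + (w - v) := by abel
      conv_lhs => rw [h2]
      exact norm_add_sq_real v (w - v)
    have h3 : ‖w‖ ≤ (‖w‖ ^ 2 + ‖v‖ ^ 2) / (2 * ‖v‖) := by
      rw [le_div_iff₀ (by positivity)]
      nlinarith [sq_nonneg (‖w‖ - ‖v‖)]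
    refine h3.trans (le_of_eq ?_)
    rw [h1]
    field_simp
    ring
  have hI : ∫ ω, ‖M.A h ω v‖ ∂M.γ ≤ (1 + M.C * h) * ‖v‖ := by
    have h1 : ∫ ω, ‖M.A h ω v‖ ∂M.γ ≤ ∫ ω, (‖v‖ + (inner ℝ v (M.A h ω v - v) : ℝ) / ‖v‖ +
      ‖M.A h ω v - v‖ ^ 2 / (2 * ‖v‖)) ∂M.γ :=
      integral_mono hint.norm (((integrable_const _).add (hii.div_const _)).add
        (hi2.div_const _)) hptw
    have h2 : ∫ ω, (‖v‖ + (inner ℝ v (M.A h ω v - v) : ℝ) / ‖v‖ +
      ‖M.A h ω v - v‖ ^ 2 / (2 * ‖v‖)) ∂M.γ = ‖v‖ + (∫ ω, ‖M.A h ω v - v‖ ^ 2 ∂M.γ) / (2 * ‖v‖) := by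
      have e1 : Integrable (fun ω => ‖v‖ + (inner ℝ v (M.A h ω v - v) : ℝ) / ‖v‖) M.γ :=
        (integrable_const _).add (hii.div_const _)
      rw [integral_add e1 (hi2.div_const _),
        integral_add (integrable_const _) (hii.div_const _), integral_div, integral_div, hiz]
      simp
    rw [h2] at h1
    have h3 : (∫ ω, ‖M.A h ω v - v‖ ^ 2 ∂M.γ) / (2 * ‖v‖) ≤ M.C * h * ‖v‖ := by
      rw [div_le_iff₀ (by positivity)]
      have h4 : 0 ≤ M.C * h * ‖v‖ ^ 2 := by positivity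
      nlinarith
    linarith
  rw [← ofReal_integral_eq_lintegral_ofReal hint.norm
    (Filter.Eventually.of_forall fun ω => norm_nonneg _)]
  exact ENNReal.ofReal_le_ofReal hI

omit [CompleteSpace V] in
private theorem OL3_meas_traj (M : MN V H) {d : ℕ} (β k h : ℝ) (L : ℕ) (G : boxS d L → V) (n : ℕ) :
    Measurable (fun ω : ℕ → boxS d L → H => traj (M.st β k h L) G ω n) := by
  have h1 := (measurable_traj (M.st β k h L) (M.measurable_st β k h L) n).comp
    ((measurable_const (a := G)).prodMk measurable_id)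
  simpa only [Function.comp_def, id] using h1

omit [SecondCountableTopology V] [CompleteSpace V] [BorelSpace V] in
private theorem OL3_meas_pr (M : MN V H) (h : ℝ) (w : V) (n : ℕ) :
    Measurable (fun ω : ℕ → H => pr (fun j => M.A h (ω j)) 0 n w) := by
  induction n with
  | zero => simp only [pr_self]; exact measurable_const
  | succ n ih =>
    have e0 : (fun ω : ℕ → H => pr (fun j => M.A h (ω j)) 0 (n + 1) w) =
        fun ω => M.A h (ω n) (pr (fun j => M.A h (ω j)) 0 n w) :=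
      funext fun ω => pr_succ _ (Nat.zero_le n) w
    rw [e0]
    have h1 := (M.mA h).comp ((measurable_pi_apply n).prodMk ih)
    simpa only [Function.comp_def] using h1

omit [SecondCountableTopology V] [CompleteSpace V] [BorelSpace V] in
private theorem OL3_dep_pr (M : MN V H) (h : ℝ) (w : V) (n : ℕ) :
    Dep n (fun ω : ℕ → H => pr (fun j => M.A h (ω j)) 0 n w) := by
  intro a b
  induction n with
  | zero => intro _; simp only [pr_self]
  | succ n ih =>
    intro hab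
    simp only [pr_succ _ (Nat.zero_le n)]
    have h1 : pr (fun j => M.A h (a j)) 0 n w = pr (fun j => M.A h (b j)) 0 n w :=
      ih (fun i hi => hab i (by omega))
    rw [h1, hab n (by omega)]

private theorem OL3_cond (M : MN V H) {h : ℝ} (hh : 0 < h) (hh1 : h < 1) {X : Type}
    [MeasurableSpace X] (μ : Measure X) [IsProbabilityMeasure μ] (g : X → H) (hg : Measurable g)
    (hγ : μ.map g = M.γ) (n : ℕ) (D : (ℕ → X) → V) (hD : Measurable D) (hd : Dep n D) :
    ∫⁻ ω, ENNReal.ofReal ‖M.A h (g (ω n)) (D ω)‖ ∂(PI μ) ≤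
      ENNReal.ofReal (1 + M.C * h) * ∫⁻ ω, ENNReal.ofReal ‖D ω‖ ∂(PI μ) := by
  have hC := M.C1
  have hmA : Measurable fun p : (ℕ → X) × X => M.A h (g p.2) (D p.1) := by
    have h1 := (M.mA h).comp ((hg.comp measurable_snd).prodMk (hD.comp measurable_fst))
    simpa only [Function.comp_def] using h1
  rw [OL3_step μ n (fun ω c => ENNReal.ofReal ‖M.A h (g c) (D ω)‖) hmA.norm.ennreal_ofReal
    (fun c a b hab => by simp only [hd a b hab]), ← lintegral_const_mul _ hD.norm.ennreal_ofReal]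
  refine lintegral_mono fun a => ?_
  have h2 : Measurable fun c => ENNReal.ofReal ‖M.A h c (D a)‖ :=
    (OL3_meas_A M h (D a)).norm.ennreal_ofReal
  have h3 := lintegral_map (μ := μ) h2 hg
  rw [hγ] at h3
  rw [← h3, ← ENNReal.ofReal_mul (by positivity)]
  exact OL3_Anorm M hh hh1 (D a)

private theorem OL3_cpl_smul {ι : Type} [Fintype ι] {d : ℕ} (net : Net ι d) (c : ℝ) (W : ι → ℝ)
    (x : ι) : cpl net (fun y => c * W y) x = c * cpl net W x := by
  unfold cpl
  rw [mul_add, Finset.mul_sum]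
  ring

private theorem OL3_cpl {Ω ι : Type} [MeasurableSpace Ω] (μ : Measure Ω) [Fintype ι] {d : ℕ}
    (net : Net ι d) (u : Ω → ι → ℝ) (hu : ∀ ω y, 0 ≤ u ω y) (hm : ∀ y, Measurable fun ω => u ω y)
    (B : ι → ℝ) (hB : ∀ y, 0 ≤ B y)
    (h : ∀ y, ∫⁻ ω, ENNReal.ofReal (u ω y) ∂μ ≤ ENNReal.ofReal (B y)) (x : ι) :
    ∫⁻ ω, ENNReal.ofReal (cpl net (u ω) x) ∂μ ≤ ENNReal.ofReal (cpl net B x) := by
  have h1 : ∀ ω, ENNReal.ofReal (cpl net (u ω) x) = ∑ y ∈ net.nb x, ENNReal.ofReal (u ω y) +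
      ENNReal.ofReal (2 * d : ℕ) * ENNReal.ofReal (u ω x) := by
    intro ω
    unfold cpl
    rw [ENNReal.ofReal_add (Finset.sum_nonneg fun y _ => hu ω y)
      (mul_nonneg (Nat.cast_nonneg _) (hu ω x)), ENNReal.ofReal_sum_of_nonneg fun y _ => hu ω y,
      ENNReal.ofReal_mul (Nat.cast_nonneg _)]
  have h2 : ENNReal.ofReal (cpl net B x) = ∑ y ∈ net.nb x, ENNReal.ofReal (B y) +
      ENNReal.ofReal (2 * d : ℕ) * ENNReal.ofReal (B x) := by
    unfold cpl
    rw [ENNReal.ofReal_add (Finset.sum_nonneg fun y _ => hB y)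
      (mul_nonneg (Nat.cast_nonneg _) (hB x)), ENNReal.ofReal_sum_of_nonneg fun y _ => hB y,
      ENNReal.ofReal_mul (Nat.cast_nonneg _)]
  simp only [h1]
  rw [h2, lintegral_add_left (Finset.measurable_sum _ fun y _ => (hm y).ennreal_ofReal),
    lintegral_finsetSum _ fun y _ => (hm y).ennreal_ofReal,
    lintegral_const_mul _ (hm x).ennreal_ofReal]
  gcongr with y hy
  · exact h y
  · exact h x

omit [MeasurableSpace V] [BorelSpace V] [SecondCountableTopology V] [CompleteSpace V] in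
private theorem OL3_coup_dif {ι : Type} [Fintype ι] {d : ℕ} (net : Net ι d) (G G' : ι → V)
    (x : ι) : ‖coupV net G' x - coupV net G x‖ ≤ cpl net (dif G' G) x := by
  have h1 : coupV net G' x - coupV net G x = ∑ y ∈ net.nb x, (G' y - G y) -
      ((2 * d : ℕ) : ℝ) • (G' x - G x) := by
    unfold coupV
    rw [Finset.sum_sub_distrib, smul_sub]
    abel
  rw [h1]
  unfold cpl dif
  refine (norm_sub_le _ _).trans ?_
  refine add_le_add (norm_sum_le _ _) ?_
  rw [norm_smul, Real.norm_of_nonneg (Nat.cast_nonneg _)]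

private theorem OL3_fm (M : MN V H) (d : ℕ) (β : ℝ) (hβ : 0 < β) (k h : ℝ) (hk : 0 < k)
    (hh : 0 < h) (hh1 : h < 1) (L : ℕ) (G G' : boxS d L → V)
    (W : boxS d L → ℝ) (r : ℝ) (hr : 0 ≤ r) (hW : ∀ x, 0 ≤ W x)
    (hWr : ∀ x, k * cpl (boxNet d L) W x ≤ r * W x) (hG : ∀ x, ‖G' x - G x‖ ≤ W x) (n : ℕ) :
      ∀ (x : boxS d L),
        ∫⁻ ω, ENNReal.ofReal ‖traj (M.st β k h L) G' ω n x -
            traj (M.st β k h L) G ω n x‖ ∂(PI (M.mu d L)) ≤
          ENNReal.ofReal (Real.exp ((M.C + r) * (n * h)) * W x) := by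
  have hC := M.C1
  induction n with
  | zero =>
    intro x
    simp only [traj, lintegral_const, measure_univ, mul_one, Nat.cast_zero, zero_mul, mul_zero,
      Real.exp_zero, one_mul]
    exact ENNReal.ofReal_le_ofReal (hG x)
  | succ n ih =>
    intro x
    have hm1 := OL3_meas_traj M β k h L G' n
    have hm2 := OL3_meas_traj M β k h L G n
    set D : (ℕ → boxS d L → H) → boxS d L → V := fun ω y =>
      traj (M.st β k h L) G' ω n y - traj (M.st β k h L) G ω n y with hD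
    have hmD : ∀ y, Measurable fun ω => D ω y := fun y =>
      ((measurable_pi_apply y).comp hm1).sub ((measurable_pi_apply y).comp hm2)
    have h1 : ∀ ω : ℕ → boxS d L → H, ‖traj (M.st β k h L) G' ω (n + 1) x -
        traj (M.st β k h L) G ω (n + 1) x‖ ≤ ‖M.A h (ω n x) (D ω x)‖ +
        k * h * cpl (boxNet d L) (fun y => ‖D ω y‖) x := by
      intro ω
      have e1 : traj (M.st β k h L) G' ω (n + 1) x - traj (M.st β k h L) G ω (n + 1) x =
          (JV β h (M.A h (ω n x) (traj (M.st β k h L) G' ω n x)) -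
            JV β h (M.A h (ω n x) (traj (M.st β k h L) G ω n x))) +
          (k * h) • (coupV (boxNet d L) (traj (M.st β k h L) G' ω n) x -
            coupV (boxNet d L) (traj (M.st β k h L) G ω n) x) := by
        simp only [traj, MN.st]
        rw [smul_sub]
        abel
      rw [e1]
      refine (norm_add_le _ _).trans (add_le_add ?_ ?_)
      · refine (JV_nonexp hβ hh.le _ _).trans (le_of_eq ?_)
        rw [← map_sub]
      · rw [norm_smul, Real.norm_of_nonneg (by positivity)]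
        exact mul_le_mul_of_nonneg_left (OL3_coup_dif _ _ _ _) (by positivity)
    have hcn : ∀ ω, 0 ≤ cpl (boxNet d L) (fun y => ‖D ω y‖) x := by
      intro ω; unfold cpl; positivity
    calc ∫⁻ ω, ENNReal.ofReal ‖traj (M.st β k h L) G' ω (n + 1) x -
            traj (M.st β k h L) G ω (n + 1) x‖ ∂(PI (M.mu d L))
        ≤ ∫⁻ ω, (ENNReal.ofReal ‖M.A h (ω n x) (D ω x)‖ +
          ENNReal.ofReal (k * h) * ENNReal.ofReal (cpl (boxNet d L) (fun y => ‖D ω y‖) x))
            ∂(PI (M.mu d L)) := by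
          refine lintegral_mono fun ω => ?_
          rw [← ENNReal.ofReal_mul (by positivity), ← ENNReal.ofReal_add (norm_nonneg _)
            (mul_nonneg (by positivity) (hcn ω))]
          exact ENNReal.ofReal_le_ofReal (h1 ω)
      _ = ∫⁻ ω, ENNReal.ofReal ‖M.A h (ω n x) (D ω x)‖ ∂(PI (M.mu d L)) +
          ENNReal.ofReal (k * h) * ∫⁻ ω, ENNReal.ofReal (cpl (boxNet d L) (fun y => ‖D ω y‖) x)
            ∂(PI (M.mu d L)) := by
          have e1 : Measurable fun ω => ENNReal.ofReal (cpl (boxNet d L) (fun y => ‖D ω y‖) x) := by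
            unfold cpl
            exact ((Finset.measurable_sum _ fun y _ => (hmD y).norm).add
              ((hmD x).norm.const_mul _)).ennreal_ofReal
          rw [lintegral_add_right _ (e1.const_mul _), lintegral_const_mul _ e1]
      _ ≤ ENNReal.ofReal ((1 + M.C * h) * (Real.exp ((M.C + r) * (n * h)) * W x)) +
          ENNReal.ofReal (k * h) * ENNReal.ofReal (cpl (boxNet d L)
            (fun y => Real.exp ((M.C + r) * (n * h)) * W y) x) := by
          gcongr
          · refine (OL3_cond M hh hh1 (M.mu d L) (fun c => c x) (measurable_pi_apply x)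
              (OL3_pi M.γ x) n (fun ω => D ω x) (hmD x) (fun a b hab => ?_)).trans ?_
            · simp only [hD, dep_traj (M.st β k h L) G' n a b hab,
                dep_traj (M.st β k h L) G n a b hab]
            · rw [ENNReal.ofReal_mul (by positivity)]
              gcongr
              exact ih x
          · exact OL3_cpl _ _ _ (fun ω y => norm_nonneg _) (fun y => (hmD y).norm) _
              (fun y => by have := hW y; positivity) ih x
      _ ≤ ENNReal.ofReal (Real.exp ((M.C + r) * ((n + 1 : ℕ) * h)) * W x) := by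
          have hWx := hW x
          have hcW : 0 ≤ cpl (boxNet d L) W x := by
            unfold cpl
            exact add_nonneg (Finset.sum_nonneg fun y _ => hW y)
              (mul_nonneg (Nat.cast_nonneg _) (hW x))
          rw [OL3_cpl_smul, ← ENNReal.ofReal_mul (by positivity), ← ENNReal.ofReal_add
            (by positivity) (by positivity)]
          refine ENNReal.ofReal_le_ofReal ?_
          set E := Real.exp ((M.C + r) * (n * h)) with hE
          have e1 : Real.exp ((M.C + r) * ((n + 1 : ℕ) * h)) = E * Real.exp ((M.C + r) * h) := by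
            rw [hE, ← Real.exp_add]
            congr 1
            push_cast
            ring
          rw [e1]
          have e2 : 1 + (M.C + r) * h ≤ Real.exp ((M.C + r) * h) := by
            have := Real.add_one_le_exp ((M.C + r) * h)
            linarith
          have hE0 : 0 < E := Real.exp_pos _
          calc (1 + M.C * h) * (E * W x) + k * h * (E * cpl (boxNet d L) W x)
              = E * ((1 + M.C * h) * W x + h * (k * cpl (boxNet d L) W x)) := by ring
            _ ≤ E * ((1 + M.C * h) * W x + h * (r * W x)) := by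
                have := hWr x
                gcongr
            _ = E * (1 + (M.C + r) * h) * W x := by ring
            _ ≤ E * Real.exp ((M.C + r) * h) * W x := by gcongr

end

theorem fm_same (N : ℕ) (hN : 1 ≤ N) (d : ℕ) (β : ℝ) (hβ : 0 < β) : ∃ C : ℝ, 1 ≤ C ∧
    ∀ k h : ℝ, 0 < k → k < 1 → 0 < h → h < 1 → ∀ (L : ℕ) (G G' : boxS d L → E N)
      (W : boxS d L → ℝ) (r : ℝ), 0 ≤ r → (∀ x, 0 ≤ W x) →
      (∀ x, k * cpl (boxNet d L) W x ≤ r * W x) → (∀ x, ‖G' x - G x‖ ≤ W x) →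
      ∀ (n : ℕ) (x : boxS d L),
        ∫⁻ ω, ENNReal.ofReal ‖traj ((MN3 N hN).st β k h L) G' ω n x -
            traj ((MN3 N hN).st β k h L) G ω n x‖ ∂(PI ((MN3 N hN).mu d L)) ≤
          ENNReal.ofReal (Real.exp ((C + r) * (n * h)) * W x) :=
  ⟨(MN3 N hN).C, (MN3 N hN).C1, fun k h hk _ hh hh1 L G G' W r hr hW hWr hG n x =>
    OL3_fm (MN3 N hN) d β hβ k h hk hh hh1 L G G' W r hr hW hWr hG n x⟩

theorem pr_mean (N : ℕ) (hN : 1 ≤ N) : ∃ C : ℝ, 1 ≤ C ∧
    ∀ h : ℝ, 0 < h → h < 1 → ∀ (n : ℕ) (w : E N),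
      ∫⁻ ω, ENNReal.ofReal ‖pr (fun j => (MN3 N hN).A h (ω j)) 0 n w‖ ∂(PI (MN3 N hN).γ) ≤
        ENNReal.ofReal (Real.exp (C * (n * h)) * ‖w‖) := by
  refine ⟨(MN3 N hN).C, (MN3 N hN).C1, fun h hh hh1 n w => ?_⟩
  set M := MN3 N hN with hM
  have hC := M.C1
  induction n with
  | zero => simp [pr_self]
  | succ n ih =>
    have hmp := OL3_meas_pr M h w n
    have e0 : ∀ ω : ℕ → EuclideanSpace ℝ (Fin (N * N)),
        pr (fun j => M.A h (ω j)) 0 (n + 1) w = M.A h (ω n) (pr (fun j => M.A h (ω j)) 0 n w) :=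
      fun ω => pr_succ _ (Nat.zero_le n) w
    simp only [e0]
    refine (OL3_cond M hh hh1 M.γ id measurable_id Measure.map_id n
      (fun ω => pr (fun j => M.A h (ω j)) 0 n w) hmp (OL3_dep_pr M h w n)).trans ?_
    refine (mul_le_mul' le_rfl ih).trans ?_
    rw [← ENNReal.ofReal_mul (by positivity)]
    refine ENNReal.ofReal_le_ofReal ?_
    have e1 : Real.exp (M.C * ((n + 1 : ℕ) * h)) = Real.exp (M.C * h) * Real.exp (M.C * (n * h)) := by
      rw [← Real.exp_add]
      congr 1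
      push_cast
      ring
    have e2 : 1 + M.C * h ≤ Real.exp (M.C * h) := by
      have := Real.add_one_le_exp (M.C * h)
      linarith
    rw [e1, mul_assoc]
    gcongr

private theorem OL3_ev {P : ℝ → Prop} (h : ∀ᶠ k in nhdsWithin (0 : ℝ) (Set.Ioi 0), P k) :
    ∃ k0 : ℝ, 0 < k0 ∧ k0 < 1 ∧ ∀ k, 0 < k → k < k0 → P k := by
  rw [Filter.Eventually, mem_nhdsGT_iff_exists_Ioo_subset] at h
  obtain ⟨u, hu, h⟩ := h
  refine ⟨min u (1 / 2), lt_min hu (by norm_num), (min_le_right _ _).trans_lt (by norm_num), ?_⟩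
  intro k hk hk1
  exact h ⟨hk, hk1.trans_le (min_le_left _ _)⟩

private theorem OL3_pow (C a : ℝ) (ha : 0 < a) :
    ∀ᶠ k in nhdsWithin (0 : ℝ) (Set.Ioi 0), C * k ^ a ≤ 1 := by
  have h1 : Filter.Tendsto (fun k : ℝ => C * k ^ a) (nhdsWithin (0 : ℝ) (Set.Ioi 0)) (nhds 0) := by
    have h2 : Filter.Tendsto (fun k : ℝ => k ^ a) (nhds 0) (nhds ((0 : ℝ) ^ a)) :=
      (Real.continuous_rpow_const ha.le).tendsto 0
    rw [Real.zero_rpow ha.ne'] at h2
    have h3 := (h2.mono_left (nhdsWithin_le_nhds (s := Set.Ioi (0 : ℝ)))).const_mul C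
    simpa using h3
  filter_upwards [h1.eventually (gt_mem_nhds (by norm_num : (0 : ℝ) < 1))] with k hk
  exact hk.le

private theorem OL3_ell (C a : ℝ) (ha : 0 < a) :
    ∀ᶠ k in nhdsWithin (0 : ℝ) (Set.Ioi 0), C * ell k * k ^ a ≤ 1 := by
  have h1 : Filter.Tendsto (fun k : ℝ => -C * (Real.log k * k ^ a))
      (nhdsWithin (0 : ℝ) (Set.Ioi 0)) (nhds 0) := by
    have h3 := (tendsto_log_mul_rpow_nhdsGT_zero ha).const_mul (-C)
    simpa using h3
  filter_upwards [h1.eventually (gt_mem_nhds (by norm_num : (0 : ℝ) < 1))] with k hk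
  have e1 : ell k = -Real.log k := by
    unfold ell
    rw [one_div, Real.log_inv]
  rw [e1]
  nlinarith [hk.le]

private theorem OL3_bad {X : Type} [MeasurableSpace X] (μ : Measure X) [IsProbabilityMeasure μ]
    (s : Set X) (hs : MeasurableSet s) (n : ℕ) (a : ℝ≥0∞) (ha : μ sᶜ ≤ a) :
    PI μ {ω | ¬ ∀ j, j < n → ω j ∈ s} ≤ n * a := by
  have e1 : {ω : ℕ → X | ¬ ∀ j, j < n → ω j ∈ s} ⊆
      ⋃ j ∈ Finset.range n, (fun ω : ℕ → X => ω j) ⁻¹' sᶜ := by
    intro ω hω
    simp only [Set.mem_ofPred_eq, not_forall] at hω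
    obtain ⟨j, hj, hjs⟩ := hω
    exact Set.mem_biUnion (Finset.mem_coe.2 (Finset.mem_range.2 hj)) hjs
  refine (measure_mono e1).trans ((measure_biUnion_finset_le _ _).trans ?_)
  have h2 : ∀ j ∈ Finset.range n, PI μ ((fun ω : ℕ → X => ω j) ⁻¹' sᶜ) ≤ a := by
    intro j _
    rw [← Measure.map_apply (measurable_pi_apply j) hs.compl, map_coord]
    exact ha
  refine (Finset.sum_le_sum h2).trans ?_
  simp

private theorem OL3_ne (N : ℕ) (hN : 1 ≤ N) {h : ℝ} (hh : 0 < h) (hh1 : h < 1)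
    (hC : (MN3 N hN).C * h ^ (3 / 8 : ℝ) < 1) {B : EuclideanSpace ℝ (Fin (N * N))}
    (hB : B ∈ (MN3 N hN).gd h) {v : E N} (hv : v ≠ 0) : (MN3 N hN).A h B v ≠ 0 := by
  intro h0
  have h1 := (MN3 N hN).near h B v hh hh1 hB
  rw [h0, zero_sub, norm_neg] at h1
  have h2 : 0 < ‖v‖ := norm_pos_iff.2 hv
  nlinarith

private theorem OL3_neg (N : ℕ) (hN : 1 ≤ N) (r ε h : ℝ) (hh : 0 < h) (hh1 : h < 1)
    (hC : (MN3 N hN).C * h ^ (3 / 8 : ℝ) < 1)
    (hneg : ∀ v : E N, v ≠ 0 →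
      ∫⁻ ω in (MN3 N hN).gd h, ENNReal.ofReal (‖(MN3 N hN).A h ω v‖ ^ (-r)) ∂((MN3 N hN).γ) ≤
        ENNReal.ofReal ((1 + (-(lamN N * r) + r ^ 2 / 2 + ε) * h) * ‖v‖ ^ (-r)))
    (w : E N) (hw : w ≠ 0) (n : ℕ) :
    ∫⁻ ω in {ω : ℕ → EuclideanSpace ℝ (Fin (N * N)) | ∀ j, j < n → ω j ∈ (MN3 N hN).gd h},
      ENNReal.ofReal (‖pr (fun j => (MN3 N hN).A h (ω j)) 0 n w‖ ^ (-r)) ∂(PI (MN3 N hN).γ) ≤
        ENNReal.ofReal (Real.exp ((-(lamN N * r) + r ^ 2 / 2 + ε) * (n * h)) * ‖w‖ ^ (-r)) := by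
  set M := MN3 N hN with hM
  set ρ : ℝ := -(lamN N * r) + r ^ 2 / 2 + ε with hρ
  have hne : ∀ n (ω : ℕ → EuclideanSpace ℝ (Fin (N * N))), (∀ j, j < n → ω j ∈ M.gd h) →
      pr (fun j => M.A h (ω j)) 0 n w ≠ 0 := by
    intro n ω
    induction n with
    | zero => intro _; rwa [pr_self]
    | succ n ih =>
      intro hg
      rw [pr_succ _ (Nat.zero_le n)]
      exact OL3_ne N hN hh hh1 hC (hg n (by omega)) (ih fun j hj => hg j (by omega))
  have hms : ∀ n, MeasurableSet {ω : ℕ → EuclideanSpace ℝ (Fin (N * N)) |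
      ∀ j, j < n → ω j ∈ M.gd h} := by
    intro n
    have e1 : {ω : ℕ → EuclideanSpace ℝ (Fin (N * N)) | ∀ j, j < n → ω j ∈ M.gd h} =
        ⋂ j ∈ Finset.range n, (fun ω : ℕ → EuclideanSpace ℝ (Fin (N * N)) => ω j) ⁻¹' M.gd h := by
      ext ω
      simp
    rw [e1]
    exact Finset.measurableSet_biInter _ fun j _ => measurable_pi_apply j (M.mgd h)
  have hmX : ∀ n, Measurable fun ω : ℕ → EuclideanSpace ℝ (Fin (N * N)) =>
      pr (fun j => M.A h (ω j)) 0 n w := OL3_meas_pr M h w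
  induction n with
  | zero =>
    simp [pr_self]
  | succ n ih =>
    set S : Set (ℕ → EuclideanSpace ℝ (Fin (N * N))) := {ω | ∀ j, j < n → ω j ∈ M.gd h} with hS
    set X : (ℕ → EuclideanSpace ℝ (Fin (N * N))) → E N := fun ω =>
      pr (fun j => M.A h (ω j)) 0 n w with hX
    have hmSX : Measurable fun p : (ℕ → EuclideanSpace ℝ (Fin (N * N))) ×
        EuclideanSpace ℝ (Fin (N * N)) => S.indicator (fun _ => (1 : ℝ≥0∞)) p.1 *
          (M.gd h).indicator (fun _ => (1 : ℝ≥0∞)) p.2 *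
          ENNReal.ofReal (‖M.A h p.2 (X p.1)‖ ^ (-r)) := by
      have h1 := (M.mA h).comp (measurable_snd.prodMk ((hmX n).comp measurable_fst))
      have h2 : Measurable fun p : (ℕ → EuclideanSpace ℝ (Fin (N * N))) ×
        EuclideanSpace ℝ (Fin (N * N)) => M.A h p.2 (X p.1) := by
        simpa only [Function.comp_def] using h1
      exact (((measurable_const.indicator (hms n)).comp measurable_fst).mul
        ((measurable_const.indicator (M.mgd h)).comp measurable_snd)).mul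
        (h2.norm.pow_const _).ennreal_ofReal
    rw [← lintegral_indicator (hms (n + 1))]
    have e1 : ∀ ω : ℕ → EuclideanSpace ℝ (Fin (N * N)),
        {ω : ℕ → EuclideanSpace ℝ (Fin (N * N)) | ∀ j, j < n + 1 → ω j ∈ M.gd h}.indicator
          (fun ω => ENNReal.ofReal (‖pr (fun j => M.A h (ω j)) 0 (n + 1) w‖ ^ (-r))) ω =
        S.indicator (fun _ => (1 : ℝ≥0∞)) ω * (M.gd h).indicator (fun _ => (1 : ℝ≥0∞)) (ω n) *
          ENNReal.ofReal (‖M.A h (ω n) (X ω)‖ ^ (-r)) := by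
      intro ω
      by_cases h1 : ω ∈ S
      · by_cases h2 : ω n ∈ M.gd h
        · have h3 : ω ∈ {ω : ℕ → EuclideanSpace ℝ (Fin (N * N)) | ∀ j, j < n + 1 → ω j ∈ M.gd h} := by
            intro j hj
            rcases Nat.lt_succ_iff_lt_or_eq.1 hj with h4 | h4
            · exact h1 j h4
            · rw [h4]; exact h2
          rw [Set.indicator_of_mem h3, Set.indicator_of_mem h1, Set.indicator_of_mem h2, one_mul,
            one_mul, pr_succ _ (Nat.zero_le n)]
        · have h3 : ω ∉ {ω : ℕ → EuclideanSpace ℝ (Fin (N * N)) | ∀ j, j < n + 1 → ω j ∈ M.gd h} :=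
            fun h4 => h2 (h4 n (by omega))
          rw [Set.indicator_of_notMem h3, Set.indicator_of_notMem h2, mul_zero, zero_mul]
      · have h3 : ω ∉ {ω : ℕ → EuclideanSpace ℝ (Fin (N * N)) | ∀ j, j < n + 1 → ω j ∈ M.gd h} :=
          fun h4 => h1 fun j hj => h4 j (by omega)
        rw [Set.indicator_of_notMem h3, Set.indicator_of_notMem h1, zero_mul, zero_mul]
    simp only [e1]
    rw [OL3_step M.γ n (fun ω c => S.indicator (fun _ => (1 : ℝ≥0∞)) ω *
      (M.gd h).indicator (fun _ => (1 : ℝ≥0∞)) c * ENNReal.ofReal (‖M.A h c (X ω)‖ ^ (-r))) hmSX]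
    swap
    · intro c a b hab
      have h1 : X a = X b := OL3_dep_pr M h w n a b hab
      have h2 : a ∈ S ↔ b ∈ S := by
        constructor
        · intro h3 j hj; rw [← hab j hj]; exact h3 j hj
        · intro h3 j hj; rw [hab j hj]; exact h3 j hj
      simp only [h1]
      by_cases h3 : a ∈ S
      · rw [Set.indicator_of_mem h3, Set.indicator_of_mem (h2.1 h3)]
      · rw [Set.indicator_of_notMem h3, Set.indicator_of_notMem fun h4 => h3 (h2.2 h4)]
    have e2 : ∀ a, ∫⁻ c, S.indicator (fun _ => (1 : ℝ≥0∞)) a *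
        (M.gd h).indicator (fun _ => (1 : ℝ≥0∞)) c * ENNReal.ofReal (‖M.A h c (X a)‖ ^ (-r)) ∂M.γ ≤
        ENNReal.ofReal (Real.exp (ρ * h)) *
          S.indicator (fun ω => ENNReal.ofReal (‖X ω‖ ^ (-r))) a := by
      intro a
      by_cases h1 : a ∈ S
      · rw [Set.indicator_of_mem h1, Set.indicator_of_mem h1]
        have e3 : ∀ c, 1 * (M.gd h).indicator (fun _ => (1 : ℝ≥0∞)) c *
            ENNReal.ofReal (‖M.A h c (X a)‖ ^ (-r)) =
            (M.gd h).indicator (fun c => ENNReal.ofReal (‖M.A h c (X a)‖ ^ (-r))) c := by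
          intro c
          by_cases h2 : c ∈ M.gd h
          · rw [Set.indicator_of_mem h2, Set.indicator_of_mem h2, one_mul, one_mul]
          · rw [Set.indicator_of_notMem h2, Set.indicator_of_notMem h2, mul_zero, zero_mul]
        simp only [e3]
        rw [lintegral_indicator (M.mgd h)]
        refine (hneg (X a) (hne n a h1)).trans ?_
        rw [← ENNReal.ofReal_mul (Real.exp_pos _).le]
        refine ENNReal.ofReal_le_ofReal ?_
        have h3 : 0 ≤ ‖X a‖ ^ (-r) := Real.rpow_nonneg (norm_nonneg _) _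
        have h4 := Real.add_one_le_exp (ρ * h)
        refine mul_le_mul_of_nonneg_right ?_ h3
        linarith
      · rw [Set.indicator_of_notMem h1, Set.indicator_of_notMem h1]
        simp
    refine (lintegral_mono e2).trans ?_
    rw [lintegral_const_mul' _ _ ENNReal.ofReal_ne_top, lintegral_indicator (hms n)]
    refine (mul_le_mul' le_rfl ih).trans ?_
    rw [← ENNReal.ofReal_mul (Real.exp_pos _).le, ← mul_assoc, ← Real.exp_add]
    refine ENNReal.ofReal_le_ofReal (le_of_eq ?_)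
    congr 2
    push_cast
    ring

private theorem OL3_small (C a : ℝ) (ha : 0 < a) {y : ℝ} (hy : 0 < y) :
    ∀ᶠ h in nhdsWithin (0 : ℝ) (Set.Ioi 0), C * h ^ a ≤ y := by
  filter_upwards [OL3_pow (C / y) a ha] with h hh
  have h1 : C / y * h ^ a * y ≤ 1 * y := mul_le_mul_of_nonneg_right hh hy.le
  have h2 : C / y * h ^ a * y = C * h ^ a := by field_simp
  rw [h2, one_mul] at h1
  exact h1

private theorem OL3_exp_ell {k : ℝ} (hk : 0 < k) (a : ℝ) : Real.exp (-(a * ell k)) = k ^ a := by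
  unfold ell
  rw [one_div, Real.log_inv, Real.rpow_def_of_pos hk]
  congr 1
  ring

private theorem OL3_ell_pos {k : ℝ} (hk : 0 < k) (hk1 : k < 1) : 0 < ell k := by
  unfold ell
  exact Real.log_pos (by rw [one_div]; exact (one_lt_inv₀ hk).2 hk1)

theorem neg_prod (N : ℕ) (hN : 1 ≤ N) (σ ε : ℝ) (hσ : 0 < σ) (hε : 0 < ε) :
    ∃ c k0 : ℝ, 0 < c ∧ 0 < k0 ∧ k0 < 1 ∧ ∀ k, 0 < k → k < k0 →
    ∃ h0 : ℝ, 0 < h0 ∧ ∀ h, 0 < h → h < h0 → ∀ (n : ℕ), n * h ≤ σ * ell k + 1 → ∀ w : E N,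
      PI (MN3 N hN).γ {ω | ‖pr (fun j => (MN3 N hN).A h (ω j)) 0 n w‖ <
          Real.exp (lamN N * (n * h) - ε * ell k) * ‖w‖} ≤ ENNReal.ofReal (k ^ c) := by
  set r : ℝ := min 1 (ε / (2 * σ)) with hr
  have hr0 : 0 < r := lt_min one_pos (by positivity)
  have hr1 : r ≤ 1 := min_le_left _ _
  have hr2 : r * σ ≤ ε / 2 := by
    have h1 : r ≤ ε / (2 * σ) := min_le_right _ _
    calc r * σ ≤ ε / (2 * σ) * σ := by gcongr
      _ = ε / 2 := by field_simp
  obtain ⟨k0, hk00, hk01, hk0⟩ := OL3_ev (OL3_pow 4 (r * ε / 4) (by positivity))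
  refine ⟨r * ε / 4, k0, by positivity, hk00, hk01, fun k hk hk1 => ?_⟩
  have hkk := hk0 k hk hk1
  have hell := OL3_ell_pos hk (hk1.trans hk01)
  obtain ⟨h1, hh10, hneg⟩ := mn3_neg N hN r (r ^ 2 / 2) hr0 (by positivity)
  obtain ⟨h2, hh20, htail⟩ := (MN3 N hN).tail
  have hkp : 0 < k ^ (r * ε / 2) := Real.rpow_pos_of_pos hk _
  obtain ⟨h3, hh30, hh31, hsm⟩ := OL3_ev ((OL3_small (MN3 N hN).C (3 / 8) (by norm_num)
    (by norm_num : (0 : ℝ) < 1 / 2)).and (OL3_small (σ * ell k + 1) 1 one_pos hkp))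
  refine ⟨min h1 (min h2 h3), lt_min hh10 (lt_min hh20 hh30), fun h hh hhm n hn w => ?_⟩
  have hhh1 : h < h1 := hhm.trans_le (min_le_left _ _)
  have hhh2 : h < h2 := hhm.trans_le ((min_le_right _ _).trans (min_le_left _ _))
  have hhh3 : h < h3 := hhm.trans_le ((min_le_right _ _).trans (min_le_right _ _))
  have hhlt : h < 1 := hhh3.trans hh31
  obtain ⟨hsm1, hsm2⟩ := hsm h hh hhh3
  rw [Real.rpow_one] at hsm2
  rcases eq_or_ne w 0 with rfl | hw
  · have e1 : {ω : ℕ → EuclideanSpace ℝ (Fin (N * N)) |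
        ‖pr (fun j => (MN3 N hN).A h (ω j)) 0 n (0 : E N)‖ <
          Real.exp (lamN N * (n * h) - ε * ell k) * ‖(0 : E N)‖} = ∅ := by
      ext ω
      simp
    rw [e1]
    simp
  have hw0 : 0 < ‖w‖ := norm_pos_iff.2 hw
  have hN1 := OL3_neg N hN r (r ^ 2 / 2) h hh hhlt (by linarith) (hneg h hh hhh1) w hw n
  set S : Set (ℕ → EuclideanSpace ℝ (Fin (N * N))) := {ω | ∀ j, j < n → ω j ∈ (MN3 N hN).gd h}
    with hS
  have hmS : MeasurableSet S := by
    have e1 : S = ⋂ j ∈ Finset.range n,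
        (fun ω : ℕ → EuclideanSpace ℝ (Fin (N * N)) => ω j) ⁻¹' (MN3 N hN).gd h := by
      ext ω
      simp [hS]
    rw [e1]
    exact Finset.measurableSet_biInter _ fun j _ => measurable_pi_apply j ((MN3 N hN).mgd h)
  have hbad := OL3_bad (MN3 N hN).γ ((MN3 N hN).gd h) ((MN3 N hN).mgd h) n
    (ENNReal.ofReal (h ^ 3)) (htail h hh hhh2)
  have hmX : Measurable fun ω : ℕ → EuclideanSpace ℝ (Fin (N * N)) =>
      ENNReal.ofReal (‖pr (fun j => (MN3 N hN).A h (ω j)) 0 n w‖ ^ (-r)) :=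
    ((OL3_meas_pr (MN3 N hN) h w n).norm.pow_const _).ennreal_ofReal
  set y : ℝ := Real.exp (lamN N * (n * h) - ε * ell k) * ‖w‖ with hy
  have hy0 : 0 < y := by positivity
  have hsub : {ω : ℕ → EuclideanSpace ℝ (Fin (N * N)) |
        ‖pr (fun j => (MN3 N hN).A h (ω j)) 0 n w‖ < y} ⊆
      {ω | ¬ ∀ j, j < n → ω j ∈ (MN3 N hN).gd h} ∪ (S ∩ {ω | ENNReal.ofReal (y ^ (-r)) ≤
        ENNReal.ofReal (‖pr (fun j => (MN3 N hN).A h (ω j)) 0 n w‖ ^ (-r))}) := by
    intro ω hω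
    by_cases h4 : ω ∈ S
    · right
      refine ⟨h4, ?_⟩
      have hne : ∀ n, (∀ j, j < n → ω j ∈ (MN3 N hN).gd h) →
          pr (fun j => (MN3 N hN).A h (ω j)) 0 n w ≠ 0 := by
        intro n
        induction n with
        | zero => intro _; rwa [pr_self]
        | succ n ih =>
          intro hg
          rw [pr_succ _ (Nat.zero_le n)]
          exact OL3_ne N hN hh hhlt (by linarith) (hg n (by omega)) (ih fun j hj => hg j (by omega))
      have h5 : 0 < ‖pr (fun j => (MN3 N hN).A h (ω j)) 0 n w‖ := norm_pos_iff.2 (hne n h4)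
      refine ENNReal.ofReal_le_ofReal ?_
      exact Real.rpow_le_rpow_of_nonpos h5 (le_of_lt hω) (by linarith)
    · left
      exact h4
  have hmark : PI (MN3 N hN).γ (S ∩ {ω | ENNReal.ofReal (y ^ (-r)) ≤
        ENNReal.ofReal (‖pr (fun j => (MN3 N hN).A h (ω j)) 0 n w‖ ^ (-r))}) ≤
      ENNReal.ofReal (Real.exp 1 * k ^ (r * ε / 2)) := by
    have h4 := mul_meas_ge_le_lintegral (μ := (PI (MN3 N hN).γ).restrict S) hmX
      (ENNReal.ofReal (y ^ (-r)))
    rw [Measure.restrict_apply (measurableSet_le measurable_const hmX), Set.inter_comm] at h4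
    have h5 := h4.trans hN1
    have hyr : 0 < y ^ (-r) := Real.rpow_pos_of_pos hy0 _
    have h6 : ENNReal.ofReal (y ^ (-r)) ≠ 0 := by
      rw [Ne, ENNReal.ofReal_eq_zero, not_le]; exact hyr
    rw [mul_comm, ← ENNReal.le_div_iff_mul_le (Or.inl h6) (Or.inl ENNReal.ofReal_ne_top),
      ← ENNReal.ofReal_div_of_pos hyr] at h5
    refine h5.trans (ENNReal.ofReal_le_ofReal ?_)
    have h7 : y ^ (-r) = Real.exp (-(r * (lamN N * (n * h) - ε * ell k))) * ‖w‖ ^ (-r) := by
      rw [hy, Real.mul_rpow (Real.exp_pos _).le hw0.le, ← Real.exp_mul]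
      congr 2
      ring
    have h8 : 0 < ‖w‖ ^ (-r) := Real.rpow_pos_of_pos hw0 _
    rw [h7, mul_div_mul_right _ _ h8.ne', ← Real.exp_sub, ← OL3_exp_ell hk, ← Real.exp_add]
    refine Real.exp_le_exp.2 ?_
    have h9 : r ^ 2 * (n * h) ≤ r * ε / 2 * ell k + 1 := by
      have h10 : r ^ 2 * (n * h) ≤ r ^ 2 * (σ * ell k + 1) := by gcongr
      have h11 : r * (r * σ) * ell k ≤ r * (ε / 2) * ell k := by gcongr
      have h12 : r ^ 2 ≤ 1 := by nlinarith
      nlinarith
    nlinarith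
  refine (measure_mono hsub).trans ((measure_union_le _ _).trans ((add_le_add hbad hmark).trans ?_))
  have h4 : (n : ℝ≥0∞) * ENNReal.ofReal (h ^ 3) ≤ ENNReal.ofReal (k ^ (r * ε / 2)) := by
    rw [← ENNReal.ofReal_natCast n, ← ENNReal.ofReal_mul (Nat.cast_nonneg n)]
    refine ENNReal.ofReal_le_ofReal ?_
    calc (n : ℝ) * h ^ 3 = (n * h) * (h * h) := by ring
      _ ≤ (σ * ell k + 1) * (h * 1) := by gcongr
      _ = (σ * ell k + 1) * h := by ring
      _ ≤ _ := hsm2
  refine (add_le_add h4 le_rfl).trans ?_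
  rw [← ENNReal.ofReal_add hkp.le (by positivity)]
  refine ENNReal.ofReal_le_ofReal ?_
  have h5 : k ^ (r * ε / 2) = k ^ (r * ε / 4) * k ^ (r * ε / 4) := by
    rw [← Real.rpow_add hk]; congr 1; ring
  have h6 : 0 < k ^ (r * ε / 4) := Real.rpow_pos_of_pos hk _
  have h7 := Real.exp_one_lt_d9
  rw [h5]
  nlinarith [mul_le_mul_of_nonneg_left hkk h6.le, mul_pos h6 h6]

private theorem OL3_all {Ω : Type} [MeasurableSpace Ω] (P : ℕ → Ω → Prop)
    (h : ∀ i, MeasurableSet {ω | P i ω}) (n : ℕ) : MeasurableSet {ω | ∀ i, i < n → P i ω} := by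
  have e1 : {ω | ∀ i, i < n → P i ω} = ⋂ i ∈ Finset.range n, {ω | P i ω} := by
    ext ω
    simp
  rw [e1]
  exact Finset.measurableSet_biInter _ fun i _ => h i

private theorem OL3_all' {Ω : Type} [MeasurableSpace Ω] (P : ℕ → Ω → Prop)
    (h : ∀ i, MeasurableSet {ω | P i ω}) (n0 n : ℕ) :
    MeasurableSet {ω | ∀ i, n0 ≤ i → i ≤ n → P i ω} := by
  have e1 : {ω | ∀ i, n0 ≤ i → i ≤ n → P i ω} = ⋂ i ∈ Finset.Icc n0 n, {ω | P i ω} := by
    ext ω
    simp
  rw [e1]
  exact Finset.measurableSet_biInter _ fun i _ => h i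

/-- good set of the second phase -/
private def OL3_Gd (N : ℕ) (hN : 1 ≤ N) (d : ℕ) (β κ k h : ℝ) (L : ℕ) (G G' : boxS d L → E N)
    (x : boxS d L) (n : ℕ) : Set (ℕ → boxS d L → EuclideanSpace ℝ (Fin (N * N))) :=
  {ω | (∀ j, j < n → ω j x ∈ (MN3 N hN).gd h) ∧ ∀ j, j < n + 1 →
    ‖traj ((MN3 N hN).st β k h L) G ω j x‖ ≤ k ^ κ ∧
    ‖traj ((MN3 N hN).st β k h L) G' ω j x‖ ≤ k ^ κ}

private theorem OL3_Gd_meas (N : ℕ) (hN : 1 ≤ N) (d : ℕ) (β κ k h : ℝ) (L : ℕ)
    (G G' : boxS d L → E N) (x : boxS d L) (n : ℕ) :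
    MeasurableSet (OL3_Gd N hN d β κ k h L G G' x n) := by
  refine MeasurableSet.inter ?_ ?_
  · exact OL3_all (fun j (ω : ℕ → boxS d L → EuclideanSpace ℝ (Fin (N * N))) =>
      ω j x ∈ (MN3 N hN).gd h) (fun i => ((measurable_pi_apply x).comp
        (measurable_pi_apply i)) ((MN3 N hN).mgd h)) n
  · refine OL3_all (fun j (ω : ℕ → boxS d L → EuclideanSpace ℝ (Fin (N * N))) =>
      ‖traj ((MN3 N hN).st β k h L) G ω j x‖ ≤ k ^ κ ∧
      ‖traj ((MN3 N hN).st β k h L) G' ω j x‖ ≤ k ^ κ) (fun i => ?_) (n + 1)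
    exact MeasurableSet.inter
      (measurableSet_le ((measurable_pi_apply x).comp
        (OL3_meas_traj (MN3 N hN) β k h L G i)).norm measurable_const)
      (measurableSet_le ((measurable_pi_apply x).comp
        (OL3_meas_traj (MN3 N hN) β k h L G' i)).norm measurable_const)

private theorem OL3_Gd_dep (N : ℕ) (hN : 1 ≤ N) (d : ℕ) (β κ k h : ℝ) (L : ℕ)
    (G G' : boxS d L → E N) (x : boxS d L) (n : ℕ)
    (a b : ℕ → boxS d L → EuclideanSpace ℝ (Fin (N * N))) (hab : ∀ i, i < n → a i = b i)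
    (ha : a ∈ OL3_Gd N hN d β κ k h L G G' x n) : b ∈ OL3_Gd N hN d β κ k h L G G' x n := by
  refine ⟨fun j hj => ?_, fun j hj => ?_⟩
  · rw [← hab j hj]; exact ha.1 j hj
  · have h1 := dep_traj ((MN3 N hN).st β k h L) G j a b fun i hi => hab i (by omega)
    have h2 := dep_traj ((MN3 N hN).st β k h L) G' j a b fun i hi => hab i (by omega)
    simp only at h1 h2
    rw [← h1, ← h2]
    exact ha.2 j hj

/-- the recursion for the remainder in expectation -/
private theorem OL3_rem (N : ℕ) (hN : 1 ≤ N) (d : ℕ) (β : ℝ) (hβ : 0 < β) (κ k h : ℝ)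
    (hk : 0 < k) (hh : 0 < h) (hh1 : h < 1) (hC : (MN3 N hN).C * h ^ (3 / 8 : ℝ) < 1) (L : ℕ)
    (G G' : boxS d L → E N) (x : boxS d L) (r T : ℝ) (hr : 0 ≤ r) (W : boxS d L → ℝ)
    (hW : ∀ v, 0 ≤ W v) (hWr : ∀ v, k * cpl (boxNet d L) W v ≤ r * W v)
    (hG : ∀ v, ‖G' v - G v‖ ≤ W v) (m : ℕ) (hm : m * h ≤ T) :
    ∀ n, n ≤ m →
    ∫⁻ ω, ENNReal.ofReal ‖(OL3_Gd N hN d β κ k h L G G' x n).indicator (fun ω =>
      (traj ((MN3 N hN).st β k h L) G' ω n x - traj ((MN3 N hN).st β k h L) G ω n x) -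
      pr (fun j => (MN3 N hN).A h (ω j x)) 0 n (G' x - G x)) ω‖ ∂(PI ((MN3 N hN).mu d L)) ≤
    ENNReal.ofReal (Real.exp ((MN3 N hN).C * (n * h)) * (n * h) *
      (Real.exp (((MN3 N hN).C + r) * T) * (2 * (1 + β) * (2 * k ^ κ) ^ β + r) * W x)) := by
  set M := MN3 N hN with hM
  have hC1 := M.C1
  have hkκ : 0 < k ^ κ := Real.rpow_pos_of_pos hk _
  set c1 : ℝ := 2 * (1 + β) * (2 * k ^ κ) ^ β with hc1
  have hc10 : 0 ≤ c1 := by positivity
  set Q : ℝ := Real.exp ((M.C + r) * T) * (c1 + r) * W x with hQ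
  have hQ0 : 0 ≤ Q := by have := hW x; positivity
  set w : E N := G' x - G x with hw
  intro n
  induction n with
  | zero =>
    intro _
    have e1 : ∀ ω : ℕ → boxS d L → EuclideanSpace ℝ (Fin (N * N)),
        (OL3_Gd N hN d β κ k h L G G' x 0).indicator (fun ω =>
      (traj (M.st β k h L) G' ω 0 x - traj (M.st β k h L) G ω 0 x) -
      pr (fun j => M.A h (ω j x)) 0 0 w) ω = 0 := by
      intro ω
      have e2 : (fun ω : ℕ → boxS d L → EuclideanSpace ℝ (Fin (N * N)) =>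
          (traj (M.st β k h L) G' ω 0 x - traj (M.st β k h L) G ω 0 x) -
          pr (fun j => M.A h (ω j x)) 0 0 w) = fun _ => 0 := by
        funext ω
        rw [pr_self]
        simp [traj, hw]
      rw [e2]
      simp
    simp only [e1]
    simp
  | succ n ih =>
    intro hn
    have ih' := ih (by omega)
    have hm1 := OL3_meas_traj M β k h L G' n
    have hm2 := OL3_meas_traj M β k h L G n
    set D : (ℕ → boxS d L → EuclideanSpace ℝ (Fin (N * N))) → boxS d L → E N := fun ω y =>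
      traj (M.st β k h L) G' ω n y - traj (M.st β k h L) G ω n y with hD
    have hmD : ∀ y, Measurable fun ω => D ω y := fun y =>
      ((measurable_pi_apply y).comp hm1).sub ((measurable_pi_apply y).comp hm2)
    set R : (ℕ → boxS d L → EuclideanSpace ℝ (Fin (N * N))) → E N := fun ω =>
      (traj (M.st β k h L) G' ω n x - traj (M.st β k h L) G ω n x) -
        pr (fun j => M.A h (ω j x)) 0 n w with hR
    have hmpr : Measurable fun ω : ℕ → boxS d L → EuclideanSpace ℝ (Fin (N * N)) =>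
        pr (fun j => M.A h (ω j x)) 0 n w := by
      have h1 := (OL3_meas_pr M h w n).comp (measurable_pi_lambda
        (fun (ω : ℕ → boxS d L → EuclideanSpace ℝ (Fin (N * N))) (j : ℕ) => ω j x)
        fun j => (measurable_pi_apply x).comp (measurable_pi_apply j))
      simpa only [Function.comp_def] using h1
    have hmR : Measurable R := (hmD x).sub hmpr
    have hmRi : Measurable ((OL3_Gd N hN d β κ k h L G G' x n).indicator R) :=
      hmR.indicator (OL3_Gd_meas N hN d β κ k h L G G' x n)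
    have hdR : Dep n ((OL3_Gd N hN d β κ k h L G G' x n).indicator R) := by
      intro a b hab
      have h1 : R a = R b := by
        have h2 := dep_traj (M.st β k h L) G' n a b hab
        have h3 := dep_traj (M.st β k h L) G n a b hab
        have h4 := OL3_dep_pr M h w n (fun j => a j x) (fun j => b j x)
          (fun i hi => by rw [hab i hi])
        simp only at h2 h3 h4
        simp only [hR, h2, h3, h4]
      by_cases h2 : a ∈ OL3_Gd N hN d β κ k h L G G' x n
      · rw [Set.indicator_of_mem h2, Set.indicator_of_mem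
          (OL3_Gd_dep N hN d β κ k h L G G' x n a b hab h2), h1]
      · rw [Set.indicator_of_notMem h2, Set.indicator_of_notMem fun h3 =>
          h2 (OL3_Gd_dep N hN d β κ k h L G G' x n b a (fun i hi => (hab i hi).symm) h3)]
    have hcn : ∀ ω, 0 ≤ cpl (boxNet d L) (fun y => ‖D ω y‖) x := by
      intro ω; unfold cpl; positivity
    have hptw : ∀ ω : ℕ → boxS d L → EuclideanSpace ℝ (Fin (N * N)),
        ‖(OL3_Gd N hN d β κ k h L G G' x (n + 1)).indicator (fun ω =>
          (traj (M.st β k h L) G' ω (n + 1) x - traj (M.st β k h L) G ω (n + 1) x) -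
          pr (fun j => M.A h (ω j x)) 0 (n + 1) w) ω‖ ≤
        ‖M.A h (ω n x) ((OL3_Gd N hN d β κ k h L G G' x n).indicator R ω)‖ +
          (h * c1 * ‖D ω x‖ + k * h * cpl (boxNet d L) (fun y => ‖D ω y‖) x) := by
      intro ω
      by_cases h1 : ω ∈ OL3_Gd N hN d β κ k h L G G' x (n + 1)
      · have h2 : ω ∈ OL3_Gd N hN d β κ k h L G G' x n :=
          ⟨fun j hj => h1.1 j (by omega), fun j hj => h1.2 j (by omega)⟩
        rw [Set.indicator_of_mem h1, Set.indicator_of_mem h2]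
        have hg : ω n x ∈ M.gd h := h1.1 n (by omega)
        have hA2 : ∀ v : E N, ‖M.A h (ω n x) v‖ ≤ 2 * ‖v‖ := by
          intro v
          have h3 := M.near h (ω n x) v hh hh1 hg
          have h4 := norm_le_norm_add_norm_sub' (M.A h (ω n x) v) v
          have h5 := norm_nonneg v
          nlinarith
        have e1 : (traj (M.st β k h L) G' ω (n + 1) x - traj (M.st β k h L) G ω (n + 1) x) -
          pr (fun j => M.A h (ω j x)) 0 (n + 1) w = M.A h (ω n x) (R ω) +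
            (((JV β h (M.A h (ω n x) (traj (M.st β k h L) G' ω n x)) -
            JV β h (M.A h (ω n x) (traj (M.st β k h L) G ω n x))) -
            (M.A h (ω n x) (traj (M.st β k h L) G' ω n x) -
            M.A h (ω n x) (traj (M.st β k h L) G ω n x))) +
          (k * h) • (coupV (boxNet d L) (traj (M.st β k h L) G' ω n) x -
            coupV (boxNet d L) (traj (M.st β k h L) G ω n) x)) := by
          rw [pr_succ _ (Nat.zero_le n)]
          simp only [hR, map_sub, traj, MN.st]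
          rw [smul_sub]
          abel
        rw [e1]
        refine (norm_add_le _ _).trans (add_le_add le_rfl ((norm_add_le _ _).trans
          (add_le_add ?_ ?_)))
        · refine (JV_lip hβ hh.le _ _).trans ?_
          have h3 := (hA2 (traj (M.st β k h L) G' ω n x)).trans
            (mul_le_mul_of_nonneg_left (h1.2 n (by omega)).2 (by norm_num))
          have h4 := (hA2 (traj (M.st β k h L) G ω n x)).trans
            (mul_le_mul_of_nonneg_left (h1.2 n (by omega)).1 (by norm_num))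
          have h5 : (max ‖M.A h (ω n x) (traj (M.st β k h L) G' ω n x)‖
              ‖M.A h (ω n x) (traj (M.st β k h L) G ω n x)‖) ^ β ≤ (2 * k ^ κ) ^ β :=
            Real.rpow_le_rpow (le_max_of_le_left (norm_nonneg _)) (max_le h3 h4) hβ.le
          have h6 : ‖M.A h (ω n x) (traj (M.st β k h L) G' ω n x) -
              M.A h (ω n x) (traj (M.st β k h L) G ω n x)‖ ≤ 2 * ‖D ω x‖ := by
            rw [← map_sub]
            exact hA2 _
          calc h * (1 + β) * (max ‖M.A h (ω n x) (traj (M.st β k h L) G' ω n x)‖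
              ‖M.A h (ω n x) (traj (M.st β k h L) G ω n x)‖) ^ β *
              ‖M.A h (ω n x) (traj (M.st β k h L) G' ω n x) -
              M.A h (ω n x) (traj (M.st β k h L) G ω n x)‖
              ≤ h * (1 + β) * (2 * k ^ κ) ^ β * (2 * ‖D ω x‖) := by gcongr
            _ = h * c1 * ‖D ω x‖ := by rw [hc1]; ring
        · rw [norm_smul, Real.norm_of_nonneg (by positivity)]
          exact mul_le_mul_of_nonneg_left (OL3_coup_dif _ _ _ _) (by positivity)
      · rw [Set.indicator_of_notMem h1, norm_zero]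
        have := hcn ω
        positivity
    have hfm := OL3_fm M d β hβ k h hk hh hh1 L G G' W r hr hW hWr hG n
    have hnT : (n : ℝ) * h ≤ T := by
      refine le_trans ?_ hm
      have : (n : ℝ) ≤ m := by exact_mod_cast (by omega : n ≤ m)
      gcongr
    have hq : ∫⁻ ω, ENNReal.ofReal (h * c1 * ‖D ω x‖ +
        k * h * cpl (boxNet d L) (fun y => ‖D ω y‖) x) ∂(PI (M.mu d L)) ≤
        ENNReal.ofReal (h * Q) := by
      have hen : Real.exp ((M.C + r) * (n * h)) ≤ Real.exp ((M.C + r) * T) := by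
        refine Real.exp_le_exp.2 ?_
        gcongr
      set e := Real.exp ((M.C + r) * (n * h)) with he
      have he0 : 0 < e := Real.exp_pos _
      have hWx := hW x
      have hcW : 0 ≤ cpl (boxNet d L) W x := by
        unfold cpl
        exact add_nonneg (Finset.sum_nonneg fun y _ => hW y)
          (mul_nonneg (Nat.cast_nonneg _) (hW x))
      have h1 : ∫⁻ ω, ENNReal.ofReal (h * c1 * ‖D ω x‖) ∂(PI (M.mu d L)) ≤
          ENNReal.ofReal (h * c1 * (e * W x)) := by
        simp only [ENNReal.ofReal_mul (show 0 ≤ h * c1 by positivity)]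
        rw [lintegral_const_mul' _ _ ENNReal.ofReal_ne_top]
        gcongr
        exact hfm x
      have h2 : ∫⁻ ω, ENNReal.ofReal (k * h * cpl (boxNet d L) (fun y => ‖D ω y‖) x)
          ∂(PI (M.mu d L)) ≤ ENNReal.ofReal (k * h * (e * cpl (boxNet d L) W x)) := by
        simp only [ENNReal.ofReal_mul (show 0 ≤ k * h by positivity)]
        rw [lintegral_const_mul' _ _ ENNReal.ofReal_ne_top, ← OL3_cpl_smul]
        gcongr
        exact OL3_cpl _ _ _ (fun ω y => norm_nonneg _) (fun y => (hmD y).norm) _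
              (fun y => by have := hW y; positivity) hfm x
      have h3 : ∀ ω, ENNReal.ofReal (h * c1 * ‖D ω x‖ +
          k * h * cpl (boxNet d L) (fun y => ‖D ω y‖) x) = ENNReal.ofReal (h * c1 * ‖D ω x‖) +
          ENNReal.ofReal (k * h * cpl (boxNet d L) (fun y => ‖D ω y‖) x) := fun ω =>
        ENNReal.ofReal_add (by positivity) (mul_nonneg (by positivity) (hcn ω))
      simp only [h3]
      rw [lintegral_add_left ((hmD x).norm.const_mul _).ennreal_ofReal]
      refine (add_le_add h1 h2).trans ?_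
      rw [← ENNReal.ofReal_add (by positivity) (by positivity)]
      refine ENNReal.ofReal_le_ofReal ?_
      calc h * c1 * (e * W x) + k * h * (e * cpl (boxNet d L) W x)
          = h * e * (c1 * W x + k * cpl (boxNet d L) W x) := by ring
        _ ≤ h * e * (c1 * W x + r * W x) := by have := hWr x; gcongr
        _ = h * (e * (c1 + r) * W x) := by ring
        _ ≤ h * (Real.exp ((M.C + r) * T) * (c1 + r) * W x) := by gcongr
    calc ∫⁻ ω, ENNReal.ofReal ‖(OL3_Gd N hN d β κ k h L G G' x (n + 1)).indicator (fun ω =>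
          (traj (M.st β k h L) G' ω (n + 1) x - traj (M.st β k h L) G ω (n + 1) x) -
          pr (fun j => M.A h (ω j x)) 0 (n + 1) w) ω‖ ∂(PI (M.mu d L))
        ≤ ∫⁻ ω, (ENNReal.ofReal ‖M.A h (ω n x)
          ((OL3_Gd N hN d β κ k h L G G' x n).indicator R ω)‖ +
          ENNReal.ofReal (h * c1 * ‖D ω x‖ + k * h * cpl (boxNet d L) (fun y => ‖D ω y‖) x))
            ∂(PI (M.mu d L)) := by
          refine lintegral_mono fun ω => ?_
          have := hcn ω
          rw [← ENNReal.ofReal_add (norm_nonneg _) (by positivity)]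
          exact ENNReal.ofReal_le_ofReal (hptw ω)
      _ = ∫⁻ ω, ENNReal.ofReal ‖M.A h (ω n x)
          ((OL3_Gd N hN d β κ k h L G G' x n).indicator R ω)‖ ∂(PI (M.mu d L)) +
          ∫⁻ ω, ENNReal.ofReal (h * c1 * ‖D ω x‖ +
            k * h * cpl (boxNet d L) (fun y => ‖D ω y‖) x) ∂(PI (M.mu d L)) := by
          refine lintegral_add_right _ ?_
          unfold cpl
          exact (((hmD x).norm.const_mul _).add (((Finset.measurable_sum _
            fun y _ => (hmD y).norm).add ((hmD x).norm.const_mul _)).const_mul _)).ennreal_ofReal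
      _ ≤ ENNReal.ofReal (1 + M.C * h) * ENNReal.ofReal (Real.exp (M.C * (n * h)) * (n * h) * Q) +
          ENNReal.ofReal (h * Q) := by
          refine add_le_add ?_ hq
          refine (OL3_cond M hh hh1 (M.mu d L) (fun c => c x) (measurable_pi_apply x)
              (OL3_pi M.γ x) n _ hmRi hdR).trans ?_
          gcongr
      _ ≤ ENNReal.ofReal (Real.exp (M.C * ((n + 1 : ℕ) * h)) * ((n + 1 : ℕ) * h) * Q) := by
          rw [← ENNReal.ofReal_mul (by positivity), ← ENNReal.ofReal_add (by positivity)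
            (by positivity)]
          refine ENNReal.ofReal_le_ofReal ?_
          have e1 : Real.exp (M.C * ((n + 1 : ℕ) * h)) =
              Real.exp (M.C * h) * Real.exp (M.C * (n * h)) := by
            rw [← Real.exp_add]
            congr 1
            push_cast
            ring
          have e2 : 1 + M.C * h ≤ Real.exp (M.C * h) := by
            have := Real.add_one_le_exp (M.C * h)
            linarith
          have e3 : 1 ≤ Real.exp (M.C * ((n + 1 : ℕ) * h)) := Real.one_le_exp (by positivity)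
          have e4 : (1 + M.C * h) * Real.exp (M.C * (n * h)) ≤
              Real.exp (M.C * ((n + 1 : ℕ) * h)) := by
            rw [e1]; gcongr
          calc (1 + M.C * h) * (Real.exp (M.C * (n * h)) * (n * h) * Q) + h * Q
              = ((1 + M.C * h) * Real.exp (M.C * (n * h))) * ((n * h) * Q) + 1 * (h * Q) := by ring
            _ ≤ Real.exp (M.C * ((n + 1 : ℕ) * h)) * ((n * h) * Q) +
                Real.exp (M.C * ((n + 1 : ℕ) * h)) * (h * Q) := by gcongr
            _ = _ := by push_cast; ring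

private theorem OL3_meas_R (N : ℕ) (hN : 1 ≤ N) (d : ℕ) (β κ k h : ℝ) (L : ℕ)
    (G G' : boxS d L → E N) (x : boxS d L) (w : E N) (n : ℕ) :
    Measurable ((OL3_Gd N hN d β κ k h L G G' x n).indicator (fun ω =>
      (traj ((MN3 N hN).st β k h L) G' ω n x - traj ((MN3 N hN).st β k h L) G ω n x) -
      pr (fun j => (MN3 N hN).A h (ω j x)) 0 n w)) := by
  have hm1 := OL3_meas_traj (MN3 N hN) β k h L G' n
  have hm2 := OL3_meas_traj (MN3 N hN) β k h L G n
  have hmpr : Measurable fun ω : ℕ → boxS d L → EuclideanSpace ℝ (Fin (N * N)) =>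
      pr (fun j => (MN3 N hN).A h (ω j x)) 0 n w := by
    have h1 := (OL3_meas_pr (MN3 N hN) h w n).comp (measurable_pi_lambda
      (fun (ω : ℕ → boxS d L → EuclideanSpace ℝ (Fin (N * N))) (j : ℕ) => ω j x)
      fun j => (measurable_pi_apply x).comp (measurable_pi_apply j))
    simpa only [Function.comp_def] using h1
  exact ((((measurable_pi_apply x).comp hm1).sub ((measurable_pi_apply x).comp hm2)).sub
    hmpr).indicator (OL3_Gd_meas N hN d β κ k h L G G' x n)

private theorem OL3_two (N : ℕ) (hN : 1 ≤ N) (d : ℕ) (β : ℝ) (hβ : 0 < β) (κ : ℝ) (hκ : 0 < κ) :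
    ∃ τ σ0 : ℝ, 0 < τ ∧ 0 < σ0 ∧
    ∀ σ, 0 < σ → σ ≤ σ0 → ∀ ε, 0 < ε → ε ≤ τ → ∃ c k0 : ℝ, 0 < c ∧ 0 < k0 ∧ k0 < 1 ∧
    ∀ k, 0 < k → k < k0 → ∃ h0 : ℝ, 0 < h0 ∧ ∀ h, 0 < h → h < h0 →
    ∀ (L : ℕ) (G G' : boxS d L → E N) (x : boxS d L), 0 < ‖G' x - G x‖ →
      (∀ v, ‖G' v - G v‖ ≤ prof k 0 (-(3 / 4)) x v * ‖G' x - G x‖) →
      ∀ m : ℕ, m * h ≤ σ * ell k + 1 →
      PI ((MN3 N hN).mu d L) {ω | ω ∈ OL3_Gd N hN d β κ k h L G G' x m ∧
        ‖traj ((MN3 N hN).st β k h L) G' ω m x - traj ((MN3 N hN).st β k h L) G ω m x‖ ≤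
          1 / 2 * (Real.exp (lamN N * (m * h) - ε / 4 * ell k) * ‖G' x - G x‖)} ≤
        ENNReal.ofReal (k ^ c) := by
  set M := MN3 N hN with hM
  have hC1 := M.C1
  set τ : ℝ := min (κ * β) (1 / 4) with hτ
  have hτ0 : 0 < τ := lt_min (by positivity) (by norm_num)
  have hτ1 : τ ≤ κ * β := min_le_left _ _
  have hτ2 : τ ≤ 1 / 4 := min_le_right _ _
  set C1 : ℝ := 2 * (1 + β) * 2 ^ β + 4 * d with hC1d
  have hC10 : 0 < C1 := by positivity
  set K : ℝ := 2 * Real.exp (2 * M.C + 2) * C1 with hK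
  have hK0 : 0 < K := by positivity
  refine ⟨τ, min 1 (τ / (8 * (M.C + 1))), hτ0, lt_min one_pos (by positivity), ?_⟩
  intro σ hσ hσ1 ε hε hε1
  have hσa : σ ≤ 1 := hσ1.trans (min_le_left _ _)
  have hσb : (2 * M.C + 2) * σ ≤ τ / 4 := by
    have h1 : σ ≤ τ / (8 * (M.C + 1)) := hσ1.trans (min_le_right _ _)
    rw [le_div_iff₀ (by positivity)] at h1
    linarith
  obtain ⟨c1, k1, hc1, hk10, hk11, hneg⟩ := neg_prod N hN σ (ε / 4) hσ (by positivity)
  set c : ℝ := min c1 (τ / 4) / 2 with hc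
  have hc0 : 0 < c := by
    have : 0 < min c1 (τ / 4) := lt_min hc1 (by positivity)
    positivity
  obtain ⟨k2, hk20, hk21, hk2⟩ := OL3_ev (((OL3_ell (2 * K) (τ / 4) (by positivity)).and
    (OL3_pow (2 * K) (τ / 4) (by positivity))).and ((OL3_pow (4 * d) (1 / 4) (by norm_num)).and
    (OL3_pow 2 c hc0)))
  refine ⟨c, min k1 k2, hc0, lt_min hk10 hk20, (min_le_left _ _).trans_lt hk11, ?_⟩
  intro k hk hkm
  have hkk1 : k < k1 := hkm.trans_le (min_le_left _ _)
  have hkk2 : k < k2 := hkm.trans_le (min_le_right _ _)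
  have hk1 : k < 1 := hkk1.trans hk11
  obtain ⟨⟨hb1, hb2⟩, hb3, hb4⟩ := hk2 k hk hkk2
  obtain ⟨h1, hh10, hneg1⟩ := hneg k hk hkk1
  obtain ⟨h2, hh20, hh21, hh2⟩ := OL3_ev (OL3_small M.C (3 / 8) (by norm_num)
    (by norm_num : (0 : ℝ) < 1 / 2))
  refine ⟨min h1 h2, lt_min hh10 hh20, ?_⟩
  intro h hh hhm L G G' x hw0 hprof m hm
  have hhh1 : h < h1 := hhm.trans_le (min_le_left _ _)
  have hhh2 : h < h2 := hhm.trans_le (min_le_right _ _)
  have hhlt : h < 1 := hhh2.trans hh21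
  have hell := OL3_ell_pos hk hk1
  have hsm := hh2 h hh hhh2
  set w : E N := G' x - G x with hw
  set T : ℝ := σ * ell k + 1 with hT
  have hT0 : 0 < T := by positivity
  set r : ℝ := 4 * d * k ^ (1 / 4 : ℝ) with hr
  have hr0 : 0 ≤ r := by positivity
  set W : boxS d L → ℝ := fun v => ‖w‖ * prof k 0 (-(3 / 4)) x v with hW
  have hW0 : ∀ v, 0 ≤ W v := fun v => by
    have : 0 ≤ prof k 0 (-(3 / 4)) x v := Real.rpow_nonneg hk.le _
    positivity
  have hWr : ∀ v, k * cpl (boxNet d L) W v ≤ r * W v := by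
    intro v
    have h3 := prof_cpl k 0 (-(3 / 4)) hk hk1 x v
    have h4 : (1 : ℝ) - max |(-(3 / 4) : ℝ)| 0 = 1 / 4 := by
      rw [abs_neg, abs_of_pos (by norm_num), max_eq_left (by norm_num)]
      norm_num
    rw [h4] at h3
    rw [hW, OL3_cpl_smul]
    calc k * (‖w‖ * cpl (boxNet d L) (prof k 0 (-(3 / 4)) x) v)
        = ‖w‖ * (k * cpl (boxNet d L) (prof k 0 (-(3 / 4)) x) v) := by ring
      _ ≤ ‖w‖ * (4 * d * k ^ (1 / 4 : ℝ) * prof k 0 (-(3 / 4)) x v) := by gcongr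
      _ = _ := by rw [hr]; ring
  have hGW : ∀ v, ‖G' v - G v‖ ≤ W v := fun v => (hprof v).trans (le_of_eq (mul_comm _ _))
  have hWx : W x = ‖w‖ := by
    rw [hW]
    simp [prof, (boxNet d L).dist_self]
  have hrem := OL3_rem N hN d β hβ κ k h hk hh hhlt (by linarith) L G G' x r T hr0 W hW0 hWr hGW m hm
    m le_rfl
  rw [hWx, ← hM, ← hw] at hrem
  set y : ℝ := 1 / 2 * (Real.exp (lamN N * (m * h) - ε / 4 * ell k) * ‖w‖) with hy
  have hy0 : 0 < y := by positivity
  -- main term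
  have hmapx : (PI (M.mu d L)).map (fun ω j => ω j x) = PI M.γ := by
    have hmm : (M.mu d L).map (fun c => c x) = M.γ := OL3_pi M.γ x
    have : IsProbabilityMeasure ((M.mu d L).map (fun c => c x)) := by rw [hmm]; infer_instance
    have h3 := PI_map (μ := M.mu d L) (fun c : boxS d L → EuclideanSpace ℝ (Fin (N * N)) => c x)
      (measurable_pi_apply x)
    rw [h3]
    congr 1
  have hmain : PI (M.mu d L) {ω | ‖pr (fun j => M.A h (ω j x)) 0 m w‖ <
      Real.exp (lamN N * (m * h) - ε / 4 * ell k) * ‖w‖} ≤ ENNReal.ofReal (k ^ c1) := by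
    have h3 := hneg1 h hh hhh1 m hm w
    have hmx : Measurable (fun (ω : ℕ → boxS d L → EuclideanSpace ℝ (Fin (N * N))) (j : ℕ) =>
        ω j x) := measurable_pi_lambda _ fun j => (measurable_pi_apply x).comp
          (measurable_pi_apply j)
    have hms : MeasurableSet {ω : ℕ → EuclideanSpace ℝ (Fin (N * N)) |
        ‖pr (fun j => M.A h (ω j)) 0 m w‖ <
        Real.exp (lamN N * (m * h) - ε / 4 * ell k) * ‖w‖} :=
      measurableSet_lt (OL3_meas_pr M h w m).norm measurable_const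
    rw [← hM, ← hmapx, Measure.map_apply hmx hms] at h3
    exact h3
  -- remainder
  set F : (ℕ → boxS d L → EuclideanSpace ℝ (Fin (N * N))) → E N :=
    (OL3_Gd N hN d β κ k h L G G' x m).indicator (fun ω =>
      (traj (M.st β k h L) G' ω m x - traj (M.st β k h L) G ω m x) -
      pr (fun j => M.A h (ω j x)) 0 m w) with hF
  have hFm : Measurable F := OL3_meas_R N hN d β κ k h L G G' x w m
  have hmark := meas_ge_le_lintegral_div (μ := PI (M.mu d L)) hFm.norm.ennreal_ofReal.aemeasurable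
    (ε := ENNReal.ofReal y) (by rw [Ne, ENNReal.ofReal_eq_zero, not_le]; exact hy0)
    ENNReal.ofReal_ne_top
  have hrem2 : PI (M.mu d L) {ω | ENNReal.ofReal y ≤ ENNReal.ofReal ‖F ω‖} ≤
      ENNReal.ofReal (k ^ (τ / 4)) := by
    refine hmark.trans ((ENNReal.div_le_div_right hrem _).trans ?_)
    rw [← ENNReal.ofReal_div_of_pos hy0]
    refine ENNReal.ofReal_le_ofReal ?_
    rw [div_le_iff₀ hy0, hy]
    have hmh0 : 0 ≤ (m : ℝ) * h := by positivity
    have hlam : -T ≤ lamN N * (m * h) := by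
      have h3 : (-1 : ℝ) ≤ lamN N := by
        unfold lamN
        have : (1 : ℝ) ≤ N := by exact_mod_cast hN
        linarith
      nlinarith
    have hc1r : 2 * (1 + β) * (2 * k ^ κ) ^ β + r ≤ C1 * k ^ τ := by
      have h3 : (2 * k ^ κ) ^ β = 2 ^ β * k ^ (κ * β) := by
        rw [Real.mul_rpow (by norm_num) (Real.rpow_nonneg hk.le _), ← Real.rpow_mul hk.le]
      have h4 : k ^ (κ * β) ≤ k ^ τ := Real.rpow_le_rpow_of_exponent_ge hk hk1.le hτ1
      have h5 : k ^ (1 / 4 : ℝ) ≤ k ^ τ := Real.rpow_le_rpow_of_exponent_ge hk hk1.le hτ2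
      rw [h3, hr, hC1d]
      calc 2 * (1 + β) * (2 ^ β * k ^ (κ * β)) + 4 * d * k ^ (1 / 4 : ℝ)
          ≤ 2 * (1 + β) * (2 ^ β * k ^ τ) + 4 * d * k ^ τ := by gcongr
        _ = _ := by ring
    have hexp : Real.exp (M.C * (m * h)) * Real.exp ((M.C + r) * T) ≤
        Real.exp (2 * M.C + 2) * Real.exp (τ / 4 * ell k) * Real.exp (-T) := by
      rw [← Real.exp_add, ← Real.exp_add, ← Real.exp_add]
      refine Real.exp_le_exp.2 ?_
      have h3 : M.C * (m * h) ≤ M.C * T := by gcongr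
      have h4 : (M.C + r) * T ≤ (M.C + 1) * T := by
        have : r ≤ 1 := hb3
        gcongr
      have h5 : (2 * M.C + 2) * T ≤ τ / 4 * ell k + (2 * M.C + 2) := by
        rw [hT]
        have h6 : (2 * M.C + 2) * σ * ell k ≤ τ / 4 * ell k := by gcongr
        linarith
      linarith
    have hee : Real.exp (-T) ≤ Real.exp (τ / 4 * ell k) *
        Real.exp (lamN N * (m * h) - ε / 4 * ell k) := by
      rw [← Real.exp_add]
      refine Real.exp_le_exp.2 ?_
      have h3 : ε / 4 * ell k ≤ τ / 4 * ell k := by gcongr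
      linarith
    have hTb : K * T * k ^ (τ / 4) ≤ 1 := by
      have h3 : T ≤ ell k + 1 := by
        rw [hT]; nlinarith
      calc K * T * k ^ (τ / 4) ≤ K * (ell k + 1) * k ^ (τ / 4) := by
            have := Real.rpow_nonneg hk.le (τ / 4); gcongr
        _ = (2 * K * ell k * k ^ (τ / 4) + 2 * K * k ^ (τ / 4)) / 2 := by ring
        _ ≤ (1 + 1) / 2 := by gcongr
        _ = 1 := by norm_num
    have hpow : k ^ τ * (Real.exp (τ / 4 * ell k) * Real.exp (τ / 4 * ell k)) =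
        k ^ (τ / 4) * k ^ (τ / 4) := by
      rw [← OL3_exp_ell hk, ← OL3_exp_ell hk, ← Real.exp_add, ← Real.exp_add, ← Real.exp_add]
      congr 1
      ring
    set Λ : ℝ := Real.exp (lamN N * (m * h) - ε / 4 * ell k) with hΛ
    have hΛ0 : 0 < Λ := Real.exp_pos _
    have hkτ : 0 < k ^ τ := Real.rpow_pos_of_pos hk _
    have hkτ4 : 0 < k ^ (τ / 4) := Real.rpow_pos_of_pos hk _
    calc Real.exp (M.C * (m * h)) * (m * h) * (Real.exp ((M.C + r) * T) *
          (2 * (1 + β) * (2 * k ^ κ) ^ β + r) * ‖w‖)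
        = (Real.exp (M.C * (m * h)) * Real.exp ((M.C + r) * T)) * (m * h) *
          (2 * (1 + β) * (2 * k ^ κ) ^ β + r) * ‖w‖ := by ring
      _ ≤ (Real.exp (2 * M.C + 2) * Real.exp (τ / 4 * ell k) * Real.exp (-T)) * T *
          (C1 * k ^ τ) * ‖w‖ := by gcongr
      _ ≤ (Real.exp (2 * M.C + 2) * Real.exp (τ / 4 * ell k) *
          (Real.exp (τ / 4 * ell k) * Λ)) * T * (C1 * k ^ τ) * ‖w‖ := by gcongr
      _ = (K * T) * (k ^ τ * (Real.exp (τ / 4 * ell k) * Real.exp (τ / 4 * ell k))) *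
          (1 / 2 * (Λ * ‖w‖)) := by rw [hK]; ring
      _ = (K * T * k ^ (τ / 4)) * (k ^ (τ / 4) * (1 / 2 * (Λ * ‖w‖))) := by rw [hpow]; ring
      _ ≤ 1 * (k ^ (τ / 4) * (1 / 2 * (Λ * ‖w‖))) := by gcongr
      _ = _ := by ring
  have hsub : {ω | ω ∈ OL3_Gd N hN d β κ k h L G G' x m ∧
        ‖traj (M.st β k h L) G' ω m x - traj (M.st β k h L) G ω m x‖ ≤ y} ⊆
      {ω | ‖pr (fun j => M.A h (ω j x)) 0 m w‖ <
        Real.exp (lamN N * (m * h) - ε / 4 * ell k) * ‖w‖} ∪
      {ω | ENNReal.ofReal y ≤ ENNReal.ofReal ‖F ω‖} := by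
    rintro ω ⟨hω1, hω2⟩
    by_cases h3 : ‖pr (fun j => M.A h (ω j x)) 0 m w‖ <
        Real.exp (lamN N * (m * h) - ε / 4 * ell k) * ‖w‖
    · left; exact h3
    · right
      rw [not_lt] at h3
      refine ENNReal.ofReal_le_ofReal ?_
      rw [hF, Set.indicator_of_mem hω1]
      have h4 := norm_sub_norm_le (pr (fun j => M.A h (ω j x)) 0 m w)
        (traj (M.st β k h L) G' ω m x - traj (M.st β k h L) G ω m x)
      rw [norm_sub_rev (pr (fun j => M.A h (ω j x)) 0 m w)] at h4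
      have h5 : Real.exp (lamN N * (m * h) - ε / 4 * ell k) * ‖w‖ = 2 * y := by rw [hy]; ring
      rw [h5] at h3
      linarith
  refine (measure_mono hsub).trans ((measure_union_le _ _).trans
    ((add_le_add hmain hrem2).trans ?_))
  rw [← ENNReal.ofReal_add (Real.rpow_nonneg hk.le _) (Real.rpow_nonneg hk.le _)]
  refine ENNReal.ofReal_le_ofReal ?_
  have h3 : k ^ c1 ≤ k ^ (c + c) := Real.rpow_le_rpow_of_exponent_ge hk hk1.le (by
    have := min_le_left c1 (τ / 4)
    rw [hc]; linarith)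
  have h4 : k ^ (τ / 4) ≤ k ^ (c + c) := Real.rpow_le_rpow_of_exponent_ge hk hk1.le (by
    have := min_le_right c1 (τ / 4)
    rw [hc]; linarith)
  have h5 : k ^ (c + c) = k ^ c * k ^ c := Real.rpow_add hk _ _
  have h6 : 0 < k ^ c := Real.rpow_pos_of_pos hk _
  nlinarith

private theorem OL3_markov {Ω : Type} [MeasurableSpace Ω] (μ : Measure Ω) (f : Ω → ℝ)
    (hf : Measurable f) (y B : ℝ) (hy : 0 < y) (hB : ∫⁻ ω, ENNReal.ofReal (f ω) ∂μ ≤
      ENNReal.ofReal B) : μ {ω | y ≤ f ω} ≤ ENNReal.ofReal (B / y) := by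
  have h1 := meas_ge_le_lintegral_div (μ := μ) hf.ennreal_ofReal.aemeasurable
    (ε := ENNReal.ofReal y) (by rw [Ne, ENNReal.ofReal_eq_zero, not_le]; exact hy)
    ENNReal.ofReal_ne_top
  rw [ENNReal.ofReal_div_of_pos hy]
  refine le_trans (measure_mono fun ω hω => ?_) (h1.trans (ENNReal.div_le_div_right hB _))
  exact ENNReal.ofReal_le_ofReal hω

/-- deterministic part of the first phase -/
private theorem OL3_low {C k e s δ u Sg X : ℝ} (n1 : ℕ) (h : ℝ) (hh : 0 < h) (hn1 : 1 ≤ n1)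
    (hC : 1 ≤ C) (hk : 0 < k) (hs : s = Real.sqrt (n1 * h)) (hke : k ^ (e / 2) ≤ s)
    (hδ : k ^ (e / 16) ≤ δ) (hu : 0 < u) (hS : Sg ≤ k ^ (1 / 4 : ℝ) * (s * u))
    (h1 : 400 * C * k ^ (e / 8) ≤ 1) (h2 : 8 * C * k ^ (7 * e / 16) ≤ 1)
    (h3 : 160 * C * k ^ (1 / 4 : ℝ) ≤ k ^ (e / 16))
    (hX : ((1 + Real.sqrt h * (δ / (C * Real.sqrt n1))) ^ n1 - 1) * u ≤ X +
      ((50 * k ^ (e / 8) * s * δ + k ^ e) * u + 20 * Sg)) :
    s * k ^ (e / 16) * u / (2 * C) ≤ X := by
  have hn0 : (0 : ℝ) < n1 := by exact_mod_cast hn1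
  have hδ0 : 0 < δ := lt_of_lt_of_le (Real.rpow_pos_of_pos hk _) hδ
  have hs0 : 0 < s := lt_of_lt_of_le (Real.rpow_pos_of_pos hk _) hke
  have hb : s * δ / C ≤ (1 + Real.sqrt h * (δ / (C * Real.sqrt n1))) ^ n1 - 1 := by
    have h4 := one_add_mul_le_pow (a := Real.sqrt h * (δ / (C * Real.sqrt n1)))
      (by have : 0 ≤ Real.sqrt h * (δ / (C * Real.sqrt n1)) := by positivity
          linarith) n1
    have h5 : (n1 : ℝ) * (Real.sqrt h * (δ / (C * Real.sqrt n1))) = s * δ / C := by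
      rw [hs, Real.sqrt_mul hn0.le]
      have h6 : Real.sqrt n1 ≠ 0 := (Real.sqrt_pos.2 hn0).ne'
      have h7 : (n1 : ℝ) = Real.sqrt n1 * Real.sqrt n1 := (Real.mul_self_sqrt hn0.le).symm
      field_simp
      rw [Real.sq_sqrt hn0.le]
    linarith
  have hsδ : k ^ e ≤ s * δ * (1 / (8 * C)) := by
    have h4 : k ^ e = k ^ (7 * e / 16) * (k ^ (e / 2) * k ^ (e / 16)) := by
      rw [← Real.rpow_add hk, ← Real.rpow_add hk]; congr 1; ring
    have h5 : k ^ (7 * e / 16) ≤ 1 / (8 * C) := by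
      rw [le_div_iff₀ (by positivity)]; linarith
    have h6 : k ^ (e / 2) * k ^ (e / 16) ≤ s * δ := by gcongr
    rw [h4, mul_comm (s * δ)]
    gcongr
  have h50 : 50 * k ^ (e / 8) ≤ 1 / (8 * C) := by
    rw [le_div_iff₀ (by positivity)]; linarith
  have h20 : 20 * k ^ (1 / 4 : ℝ) ≤ δ * (1 / (8 * C)) := by
    rw [mul_one_div, le_div_iff₀ (by positivity)]
    linarith
  have hmain : s * δ / C * u ≤ X + (((1 / (8 * C)) * s * δ + s * δ * (1 / (8 * C))) * u +
      δ * (1 / (8 * C)) * (s * u)) := by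
    have h4 : s * δ / C * u ≤ ((1 + Real.sqrt h * (δ / (C * Real.sqrt n1))) ^ n1 - 1) * u := by
      gcongr
    have h5 : (50 * k ^ (e / 8) * s * δ + k ^ e) * u ≤
        ((1 / (8 * C)) * s * δ + s * δ * (1 / (8 * C))) * u := by gcongr
    have h6 : 20 * Sg ≤ δ * (1 / (8 * C)) * (s * u) := by
      calc 20 * Sg ≤ 20 * (k ^ (1 / 4 : ℝ) * (s * u)) := by linarith
        _ = (20 * k ^ (1 / 4 : ℝ)) * (s * u) := by ring
        _ ≤ _ := by gcongr
    linarith
  have e1 : s * δ / C * u = 8 * (s * δ * u / (8 * C)) := by field_simp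
  have e2 : (((1 / (8 * C)) * s * δ + s * δ * (1 / (8 * C))) * u +
      δ * (1 / (8 * C)) * (s * u)) = 3 * (s * δ * u / (8 * C)) := by field_simp; ring
  rw [e1, e2] at hmain
  have e3 : s * k ^ (e / 16) * u / (2 * C) ≤ 4 * (s * δ * u / (8 * C)) := by
    have : s * k ^ (e / 16) * u / (2 * C) ≤ s * δ * u / (2 * C) := by gcongr
    refine this.trans (le_of_eq ?_)
    field_simp
    norm_num
  have e4 : 0 ≤ s * δ * u / (8 * C) := by positivity
  linarith

section

variable {V H : Type} [NormedAddCommGroup V] [InnerProductSpace ℝ V] [MeasurableSpace V]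
  [BorelSpace V] [SecondCountableTopology V] [FiniteDimensional ℝ V]
  [NormedAddCommGroup H] [InnerProductSpace ℝ H] [MeasurableSpace H] [BorelSpace H]
  [SecondCountableTopology H]

private theorem OL3_one (M : MN V H) (d : ℕ) (β : ℝ) (hβ : 0 < β) (e : ℝ) (he : 0 < e)
    (he1 : e ≤ 1 / 16) : ∃ k0 : ℝ, 0 < k0 ∧ k0 < 1 ∧ ∀ k, 0 < k → k < k0 →
    ∃ h0 : ℝ, 0 < h0 ∧ ∀ h, 0 < h → h < h0 →
    ∀ (L : ℕ) (G : boxS d L → V) (x : boxS d L),
    (∀ v, ‖G v‖ ≤ k ^ (-(e / 4) - (1 + e / 16) * (boxNet d L).dist v x) * ‖G x‖) →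
    ‖G x‖ ≤ k ^ (-(e / (4 * β))) → 0 < ‖G x‖ → ∀ n1 : ℕ, n1 = ⌈k ^ e / h⌉₊ →
    ∀ φ φ' : ℝ, 0 ≤ φ → φ' ≤ 1 → k ^ (e / 16) ≤ φ' - φ →
      PI (M.mu d L) {ω | (ω + φ • shz M x n1) ∈ RegS M β k h L G x n1 (k ^ (e / 8)) ∧
        (ω + φ' • shz M x n1) ∈ RegS M β k h L G x n1 (k ^ (e / 8)) ∧
        ¬ (Real.sqrt (n1 * h) * k ^ (e / 16) * ‖G x‖ / (2 * M.C) ≤
            ‖trs M β k h L G x n1 φ' ω n1 x - trs M β k h L G x n1 φ ω n1 x‖ ∧
          ∀ v, ‖trs M β k h L G x n1 φ' ω n1 v - trs M β k h L G x n1 φ ω n1 v‖ ≤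
            prof k 0 (-(3 / 4)) x v *
              ‖trs M β k h L G x n1 φ' ω n1 x - trs M β k h L G x n1 φ ω n1 x‖)} ≤
        ENNReal.ofReal (k ^ (1 / 32 : ℝ)) := by
  have hC1 := M.C1
  obtain ⟨ks, hks0, hks1, hshift⟩ := site_shift M d β hβ e he he1
  obtain ⟨C2, hC2, hfm⟩ := fm2 M d β hβ
  obtain ⟨ka, hka0, hka1, hka⟩ := OL3_ev ((((OL3_pow (400 * M.C) (e / 8) (by positivity)).and
    (OL3_pow (8 * M.C) (7 * e / 16) (by positivity))).and
    ((OL3_pow (160 * M.C) (1 / 8) (by norm_num)).and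
    (OL3_pow (2 * M.C) (1 / 32) (by norm_num)))).and
    ((((OL3_pow 2 (1 / 16) (by norm_num)).and (OL3_pow 2 e he)).and
    ((OL3_pow (24 * d * C2 + 3 * C2 * 3 ^ d) (5 / 64) (by norm_num)).and
    (OL3_pow (16 * d) (e / 16) (by positivity))))))
  refine ⟨min ks ka, lt_min hks0 hka0, (min_le_left _ _).trans_lt hks1, ?_⟩
  intro k hk hkm
  have hkks : k < ks := hkm.trans_le (min_le_left _ _)
  have hkka : k < ka := hkm.trans_le (min_le_right _ _)
  have hk1 : k < 1 := hkks.trans hks1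
  obtain ⟨⟨⟨hb1, hb2⟩, hb3, hb4⟩, ⟨hb5, hb6⟩, hb7, hb8⟩ := hka k hk hkka
  have hke : 0 < k ^ e := Real.rpow_pos_of_pos hk _
  obtain ⟨hs, hhs0, hshift1⟩ := hshift k hk hkks (k ^ e) hke
  refine ⟨min hs (min (k ^ e) (1 / 2)), lt_min hhs0 (lt_min hke (by norm_num)), ?_⟩
  intro h hh hhm L G x hG hGx hu n1 hn1 φ φ' hφ hφ' hδ
  have hhhs : h < hs := hhm.trans_le (min_le_left _ _)
  have hhke : h < k ^ e := hhm.trans_le ((min_le_right _ _).trans (min_le_left _ _))
  have hhlt : h < 1 := (hhm.trans_le ((min_le_right _ _).trans (min_le_right _ _))).trans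
    (by norm_num)
  set u : ℝ := ‖G x‖ with hud
  set δ : ℝ := φ' - φ with hδd
  have hδ1 : δ ≤ 1 := by rw [hδd]; linarith
  have hδ0 : 0 < δ := lt_of_lt_of_le (Real.rpow_pos_of_pos hk _) hδ
  have hφφ : φ ≤ φ' := by rw [hδd] at hδ0; linarith
  have hn1a : k ^ e ≤ n1 * h := by
    have h1 := Nat.le_ceil (k ^ e / h)
    rw [← hn1, div_le_iff₀ hh] at h1
    exact h1
  have hn1b : (n1 : ℝ) * h ≤ 2 * k ^ e := by
    have h1 := Nat.ceil_lt_add_one (show 0 ≤ k ^ e / h by positivity)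
    rw [← hn1] at h1
    have h2 : (n1 : ℝ) * h < (k ^ e / h + 1) * h := by gcongr
    have h3 : (k ^ e / h + 1) * h = k ^ e + h := by field_simp
    linarith
  have hn1c : 1 ≤ n1 := by
    rcases Nat.eq_zero_or_pos n1 with h1 | h1
    · rw [h1] at hn1a
      simp at hn1a
      linarith
    · exact h1
  have hn1d : (n1 : ℝ) * h ≤ 1 := hn1b.trans hb6
  have hn10 : (0 : ℝ) < n1 := by exact_mod_cast hn1c
  set s : ℝ := Real.sqrt (n1 * h) with hsd
  have hs0 : 0 < s := Real.sqrt_pos.2 (by positivity)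
  have hse : k ^ (e / 2) ≤ s := by
    rw [hsd, Real.le_sqrt (Real.rpow_nonneg hk.le _)  (by positivity)]
    calc (k ^ (e / 2)) ^ 2 = k ^ e := by
          rw [← Real.rpow_natCast, ← Real.rpow_mul hk.le]; congr 1; push_cast; ring
      _ ≤ _ := hn1a
  set D : (ℕ → boxS d L → H) → ℕ → boxS d L → V := fun ω n v =>
    trs M β k h L G x n1 φ' ω n v - trs M β k h L G x n1 φ ω n v with hD
  have hmD : ∀ n v, Measurable fun ω => D ω n v := fun n v =>
    ((measurable_pi_apply v).comp (measurable_trs M β k h L G x n1 φ' n)).sub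
      ((measurable_pi_apply v).comp (measurable_trs M β k h L G x n1 φ n))
  set net := boxNet d L with hnet
  set U : boxS d L → ℝ := fun v => u * prof k (-(e / 4)) (1 + e / 16) x v with hU
  set W : boxS d L → ℝ := prof k 0 (-(1 + 15 * e / 16)) x with hW
  have hprof0 : ∀ (a b : ℝ) (v : boxS d L), 0 < prof k a b x v := fun a b v =>
    Real.rpow_pos_of_pos hk _
  set r : ℝ := 4 * d * k ^ (-(e / 16)) with hr
  set r' : ℝ := 4 * d * k ^ (-(15 * e / 16)) with hr'
  have hr0 : 0 ≤ r := by positivity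
  have hr0' : 0 ≤ r' := by positivity
  have hUr : ∀ v, k * cpl net U v ≤ r * U v := by
    intro v
    have h3 := prof_cpl k (-(e / 4)) (1 + e / 16) hk hk1 x v
    have h4 : (1 : ℝ) - max |(1 + e / 16 : ℝ)| 0 = -(e / 16) := by
      rw [abs_of_pos (by positivity), max_eq_left (by positivity)]
      ring
    rw [h4] at h3
    rw [hU, OL3_cpl_smul]
    calc k * (u * cpl net (prof k (-(e / 4)) (1 + e / 16) x) v)
        = u * (k * cpl net (prof k (-(e / 4)) (1 + e / 16) x) v) := by ring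
      _ ≤ u * (4 * d * k ^ (-(e / 16)) * prof k (-(e / 4)) (1 + e / 16) x v) := by gcongr
      _ = _ := by rw [hr]; ring
  have hWr : ∀ v, k * cpl net W v ≤ r' * W v := by
    intro v
    have h3 := prof_cpl k 0 (-(1 + 15 * e / 16)) hk hk1 x v
    have h4 : (1 : ℝ) - max |(-(1 + 15 * e / 16) : ℝ)| 0 = -(15 * e / 16) := by
      rw [abs_neg, abs_of_pos (by positivity), max_eq_left (by positivity)]
      ring
    rw [h4] at h3
    exact h3
  have hGU : ∀ v, ‖G v‖ ≤ U v := fun v => (hG v).trans (le_of_eq (by rw [hU]; unfold prof; ring))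
  have hUx : U x = u * k ^ (-(e / 4)) := by
    rw [hU]; simp only [prof, (boxNet d L).dist_self]; simp
  have hWx : W x = 1 := by
    rw [hW]; simp only [prof, (boxNet d L).dist_self]; simp
  have hW1 : ∀ v, W v ≤ 1 := by
    intro v
    rw [hW]
    unfold prof
    refine Real.rpow_le_one hk.le hk1.le ?_
    have : (0 : ℝ) ≤ (boxNet d L).dist v x := Nat.cast_nonneg _
    have h5 : 0 ≤ (1 + 15 * e / 16) * ((boxNet d L).dist v x : ℝ) := by positivity
    linarith
  set A : ℝ := 3 * C2 * s * (k ^ (-(e / 4)) * u) with hA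
  have hA0 : 0 < A := by positivity
  have hfm2 : ∀ n, n ≤ n1 → ∀ v, ∫⁻ ω, ENNReal.ofReal ‖D ω n v‖ ∂(PI (M.mu d L)) ≤
      ENNReal.ofReal (A * W v) := by
    intro n hn v
    have hnh : (n : ℝ) * h ≤ n1 * h := by
      have : (n : ℝ) ≤ n1 := by exact_mod_cast hn
      gcongr
    have h1 := hfm k h hk hk1 hh hhlt L x n1 hn1c hn1d φ φ' hφ hφφ hφ' G U W r r' hr0 hr0'
      (fun v => (mul_pos hu (hprof0 _ _ v)).le) hUr hGU (fun v => (hprof0 _ _ v).le) hWx.ge hWr
      n v (hnh.trans hn1d)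
    refine h1.trans (ENNReal.ofReal_le_ofReal ?_)
    have h2 : Real.exp ((r + r') * (n * h)) ≤ 3 := by
      have h3 : (r + r') * (n * h) ≤ 1 := by
        have h4 : k ^ (-(e / 16)) ≤ k ^ (-(15 * e / 16)) :=
          Real.rpow_le_rpow_of_exponent_ge hk hk1.le (by linarith)
        have h5 : k ^ (-(15 * e / 16)) * k ^ e = k ^ (e / 16) := by
          rw [← Real.rpow_add hk]; congr 1; ring
        calc (r + r') * (n * h) ≤ (r + r') * (2 * k ^ e) := by
              have := hnh.trans hn1b; gcongr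
          _ ≤ (4 * d * k ^ (-(15 * e / 16)) + 4 * d * k ^ (-(15 * e / 16))) * (2 * k ^ e) := by
              rw [hr, hr']; gcongr
          _ = 16 * d * (k ^ (-(15 * e / 16)) * k ^ e) := by ring
          _ = 16 * d * k ^ (e / 16) := by rw [h5]
          _ ≤ 1 := hb8
      have h4 := Real.exp_le_exp.2 h3
      have h5 := Real.exp_one_lt_d9
      linarith
    rw [hUx]
    have hWv := (hprof0 0 (-(1 + 15 * e / 16)) v).le
    calc C2 * Real.exp ((r + r') * (n * h)) * (φ' - φ) * Real.sqrt (n1 * h) *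
        (u * k ^ (-(e / 4))) * W v ≤ C2 * 3 * 1 * s * (u * k ^ (-(e / 4))) * W v := by
          gcongr
      _ = A * W v := by rw [hA]; ring
  -- first bad event
  set Sg : (ℕ → boxS d L → H) → ℝ := fun ω => ∑ i ∈ Finset.range n1, k * h * cpl net
    (fun v => ‖D ω i v‖) x with hSg
  have hcn : ∀ ω i, 0 ≤ cpl net (fun v => ‖D ω i v‖) x := by
    intro ω i; unfold cpl; positivity
  have hmc : ∀ i, Measurable fun ω => k * h * cpl net (fun v => ‖D ω i v‖) x := by
    intro i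
    unfold cpl
    exact ((Finset.measurable_sum _ fun y _ => (hmD i y).norm).add
      ((hmD i x).norm.const_mul _)).const_mul _
  have hmSg : Measurable Sg := Finset.measurable_sum _ fun i _ => hmc i
  have hESg : ∫⁻ ω, ENNReal.ofReal (Sg ω) ∂(PI (M.mu d L)) ≤
      ENNReal.ofReal (24 * d * C2 * k ^ (1 + 3 * e / 4) * (s * u)) := by
    have h1 : ∀ ω, ENNReal.ofReal (Sg ω) = ∑ i ∈ Finset.range n1,
        ENNReal.ofReal (k * h * cpl net (fun v => ‖D ω i v‖) x) := by
      intro ω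
      exact ENNReal.ofReal_sum_of_nonneg fun i _ => mul_nonneg (by positivity) (hcn ω i)
    simp only [h1]
    rw [lintegral_finsetSum _ fun i _ => (hmc i).ennreal_ofReal]
    have h2 : ∀ i ∈ Finset.range n1, ∫⁻ ω, ENNReal.ofReal (k * h * cpl net
        (fun v => ‖D ω i v‖) x) ∂(PI (M.mu d L)) ≤ ENNReal.ofReal (k * h * (A * (4 * d))) := by
      intro i hi
      simp only [ENNReal.ofReal_mul (show 0 ≤ k * h by positivity)]
      rw [lintegral_const_mul' _ _ ENNReal.ofReal_ne_top]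
      gcongr
      refine (OL3_cpl _ _ _ (fun ω y => norm_nonneg _) (fun y => (hmD i y).norm)
        (fun v => A * W v) (fun y => by have := (hprof0 0 (-(1 + 15 * e / 16)) y).le; positivity)
        (hfm2 i (Finset.mem_range.1 hi).le) x).trans (ENNReal.ofReal_le_ofReal ?_)
      rw [OL3_cpl_smul]
      gcongr
      unfold cpl
      have h3 : ∑ y ∈ net.nb x, W y ≤ ∑ y ∈ net.nb x, (1 : ℝ) := Finset.sum_le_sum fun y _ => hW1 y
      rw [Finset.sum_const, nsmul_eq_mul, mul_one] at h3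
      have h4 : ((net.nb x).card : ℝ) ≤ (2 * d : ℕ) := by exact_mod_cast net.nb_card x
      rw [hWx]
      push_cast at h4 ⊢
      linarith
    refine (Finset.sum_le_sum h2).trans ?_
    rw [Finset.sum_const, Finset.card_range, nsmul_eq_mul, ← ENNReal.ofReal_natCast,
      ← ENNReal.ofReal_mul (Nat.cast_nonneg _)]
    refine ENNReal.ofReal_le_ofReal ?_
    have h3 : k ^ (1 + 3 * e / 4) = k * (k ^ e * k ^ (-(e / 4))) := by
      rw [← Real.rpow_add hk]
      nth_rewrite 2 [← Real.rpow_one k]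
      rw [← Real.rpow_add hk]
      congr 1
      ring
    calc (n1 : ℝ) * (k * h * (A * (4 * d))) = (n1 * h) * (k * A * (4 * d)) := by ring
      _ ≤ (2 * k ^ e) * (k * A * (4 * d)) := by gcongr
      _ = _ := by rw [h3, hA]; ring
  have hk14 : 0 < k ^ (1 / 4 : ℝ) := Real.rpow_pos_of_pos hk _
  have hE1 := OL3_markov (PI (M.mu d L)) Sg hmSg (k ^ (1 / 4 : ℝ) * (s * u)) _ (by positivity) hESg
  -- second bad event
  set t : boxS d L → ℝ := fun v => s * u * k ^ (3 / 4 * (net.dist v x : ℝ) + 1 / 16) with ht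
  have ht0 : ∀ v, 0 < t v := fun v => by
    have : 0 < k ^ (3 / 4 * (net.dist v x : ℝ) + 1 / 16) := Real.rpow_pos_of_pos hk _
    positivity
  have hE2 : PI (M.mu d L) {ω | ∃ v, v ≠ x ∧ t v ≤ ‖D ω n1 v‖} ≤
      ENNReal.ofReal (3 * C2 * 3 ^ d * k ^ (7 / 64 : ℝ)) := by
    classical
    have h1 : {ω | ∃ v, v ≠ x ∧ t v ≤ ‖D ω n1 v‖} ⊆
        ⋃ v ∈ Finset.univ.filter (fun v : boxS d L => v ≠ x), {ω | t v ≤ ‖D ω n1 v‖} := by
      rintro ω ⟨v, hv, hv2⟩
      exact Set.mem_biUnion (Finset.mem_coe.2 (Finset.mem_filter.2 ⟨Finset.mem_univ _, hv⟩)) hv2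
    refine (measure_mono h1).trans ((measure_biUnion_finset_le _ _).trans ?_)
    have h2 : ∀ v ∈ Finset.univ.filter (fun v : boxS d L => v ≠ x),
        PI (M.mu d L) {ω | t v ≤ ‖D ω n1 v‖} ≤
          ENNReal.ofReal (3 * C2 * k ^ (7 / 64 : ℝ) * (1 / 2 : ℝ) ^ net.dist x v) := by
      intro v hv
      have hvx : v ≠ x := (Finset.mem_filter.1 hv).2
      refine (OL3_markov (PI (M.mu d L)) _ (hmD n1 v).norm (t v) _ (ht0 v)
        (hfm2 n1 le_rfl v)).trans (ENNReal.ofReal_le_ofReal ?_)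
      rw [div_le_iff₀ (ht0 v)]
      have hd1 : (1 : ℝ) ≤ (net.dist v x : ℝ) := by exact_mod_cast net.dist_pos v x hvx
      rw [net.dist_comm x v]
      set j := net.dist v x with hj
      have h3 : k ^ ((1 / 16 : ℝ) * j) ≤ (1 / 2 : ℝ) ^ j := by
        rw [Real.rpow_mul_natCast hk.le]
        have h4 : k ^ (1 / 16 : ℝ) ≤ 1 / 2 := by linarith
        have h5 : 0 ≤ k ^ (1 / 16 : ℝ) := Real.rpow_nonneg hk.le _
        gcongr
      have h4 : k ^ (-(e / 4)) * k ^ (0 - -(1 + 15 * e / 16) * (j : ℝ)) ≤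
          k ^ (7 / 64 : ℝ) * k ^ ((1 / 16 : ℝ) * j) * k ^ (3 / 4 * (j : ℝ) + 1 / 16) := by
        rw [← Real.rpow_add hk, ← Real.rpow_add hk, ← Real.rpow_add hk]
        refine Real.rpow_le_rpow_of_exponent_ge hk hk1.le ?_
        have h5 : 0 ≤ e * (j : ℝ) := by positivity
        nlinarith
      calc A * W v = 3 * C2 * (s * u) * (k ^ (-(e / 4)) * k ^ (0 - -(1 + 15 * e / 16) * (j : ℝ))) := by
            rw [hA, hW]; unfold prof; ring
        _ ≤ 3 * C2 * (s * u) * (k ^ (7 / 64 : ℝ) * k ^ ((1 / 16 : ℝ) * j) *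
            k ^ (3 / 4 * (j : ℝ) + 1 / 16)) := by gcongr
        _ ≤ 3 * C2 * (s * u) * (k ^ (7 / 64 : ℝ) * (1 / 2 : ℝ) ^ j *
            k ^ (3 / 4 * (j : ℝ) + 1 / 16)) := by gcongr
        _ = _ := by rw [ht]; ring
    refine (Finset.sum_le_sum h2).trans ?_
    rw [← ENNReal.ofReal_sum_of_nonneg fun v _ => by positivity, ← Finset.mul_sum]
    refine ENNReal.ofReal_le_ofReal ?_
    have h3 : ∑ v ∈ Finset.univ.filter (fun v : boxS d L => v ≠ x), (1 / 2 : ℝ) ^ net.dist x v ≤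
        3 ^ d := by
      refine le_trans ?_ (net.sum_half x)
      exact Finset.sum_le_sum_of_subset_of_nonneg (Finset.filter_subset _ _)
        fun v _ _ => by positivity
    calc 3 * C2 * k ^ (7 / 64 : ℝ) * ∑ v ∈ Finset.univ.filter (fun v : boxS d L => v ≠ x),
        (1 / 2 : ℝ) ^ net.dist x v ≤ 3 * C2 * k ^ (7 / 64 : ℝ) * 3 ^ d := by gcongr
      _ = _ := by ring
  have hsub : {ω | (ω + φ • shz M x n1) ∈ RegS M β k h L G x n1 (k ^ (e / 8)) ∧
        (ω + φ' • shz M x n1) ∈ RegS M β k h L G x n1 (k ^ (e / 8)) ∧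
        ¬ (s * k ^ (e / 16) * u / (2 * M.C) ≤ ‖D ω n1 x‖ ∧
          ∀ v, ‖D ω n1 v‖ ≤ prof k 0 (-(3 / 4)) x v * ‖D ω n1 x‖)} ⊆
      {ω | k ^ (1 / 4 : ℝ) * (s * u) ≤ Sg ω} ∪ {ω | ∃ v, v ≠ x ∧ t v ≤ ‖D ω n1 v‖} := by
    rintro ω ⟨hR1, hR2, hR3⟩
    by_contra hcon
    rw [Set.mem_union, not_or] at hcon
    obtain ⟨hc1, hc2⟩ := hcon
    simp only [Set.mem_ofPred_eq, not_le, not_exists, not_and] at hc1 hc2
    apply hR3
    have h1 := (hshift1 h hh hhhs L G x hGx n1 n1 hn1 (by omega) φ φ' hφ hφφ hφ' ω hR1 hR2 n1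
      le_rfl).2
    rw [min_self] at h1
    have h2 : s * k ^ (e / 16) * u / (2 * M.C) ≤ ‖D ω n1 x‖ := by
      refine OL3_low (Sg := Sg ω) n1 h hh hn1c hC1 hk hsd hse hδ hu hc1.le hb1 hb2 ?_ ?_
      · have h3 : k ^ (1 / 4 : ℝ) ≤ k ^ (1 / 8 : ℝ) * k ^ (e / 16) := by
          rw [← Real.rpow_add hk]
          exact Real.rpow_le_rpow_of_exponent_ge hk hk1.le (by linarith)
        calc 160 * M.C * k ^ (1 / 4 : ℝ) ≤ 160 * M.C * (k ^ (1 / 8 : ℝ) * k ^ (e / 16)) := by
              gcongr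
          _ = (160 * M.C * k ^ (1 / 8 : ℝ)) * k ^ (e / 16) := by ring
          _ ≤ 1 * k ^ (e / 16) := by
              have : 0 ≤ k ^ (e / 16) := Real.rpow_nonneg hk.le _
              gcongr
          _ = _ := one_mul _
      · set θ : ℝ := (1 + Real.sqrt h * (δ / (M.C * Real.sqrt n1))) ^ n1 - 1 with hθ
        have hθ0 : 0 ≤ θ := by
          have : (1 : ℝ) ≤ 1 + Real.sqrt h * (δ / (M.C * Real.sqrt n1)) := by
            have : 0 ≤ Real.sqrt h * (δ / (M.C * Real.sqrt n1)) := by positivity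
            linarith
          have := one_le_pow₀ this (n := n1)
          rw [hθ]; linarith
        have h3 : ‖D ω n1 x - θ • G x‖ ≤ (50 * k ^ (e / 8) * s * δ + k ^ e) * u + 20 * Sg ω := h1
        have h4 : ‖θ • G x‖ = θ * u := by rw [norm_smul, Real.norm_of_nonneg hθ0]
        have h5 := norm_sub_norm_le (θ • G x) (D ω n1 x)
        rw [norm_sub_rev (θ • G x)] at h5
        linarith
    refine ⟨h2, fun v => ?_⟩
    rcases eq_or_ne v x with rfl | hv
    · simp [prof, (boxNet d L).dist_self]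
    · have h3 := (hc2 v hv).le
      have h4 : s * u ≤ 2 * M.C * k ^ (-(e / 16)) * ‖D ω n1 x‖ := by
        rw [div_le_iff₀ (by positivity)] at h2
        have h5 : k ^ (-(e / 16)) * k ^ (e / 16) = 1 := by
          rw [← Real.rpow_add hk]; simp
        have h6 : 0 < k ^ (-(e / 16)) := Real.rpow_pos_of_pos hk _
        calc s * u = (s * k ^ (e / 16) * u) * k ^ (-(e / 16)) := by
              rw [show (s * k ^ (e / 16) * u) * k ^ (-(e / 16)) =
                s * u * (k ^ (-(e / 16)) * k ^ (e / 16)) by ring, h5, mul_one]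
          _ ≤ (‖D ω n1 x‖ * (2 * M.C)) * k ^ (-(e / 16)) := by gcongr
          _ = _ := by ring
      have h5 : 2 * M.C * k ^ (-(e / 16)) * k ^ (1 / 16 : ℝ) ≤ 1 := by
        have h6 : k ^ (-(e / 16)) * k ^ (1 / 16 : ℝ) ≤ k ^ (1 / 32 : ℝ) := by
          rw [← Real.rpow_add hk]
          exact Real.rpow_le_rpow_of_exponent_ge hk hk1.le (by linarith)
        calc 2 * M.C * k ^ (-(e / 16)) * k ^ (1 / 16 : ℝ)
            = 2 * M.C * (k ^ (-(e / 16)) * k ^ (1 / 16 : ℝ)) := by ring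
          _ ≤ 2 * M.C * k ^ (1 / 32 : ℝ) := by gcongr
          _ ≤ 1 := hb4
      have h6 : prof k 0 (-(3 / 4)) x v = k ^ (3 / 4 * (net.dist v x : ℝ)) := by
        unfold prof; congr 1; ring
      have h7 : 0 < k ^ (3 / 4 * (net.dist v x : ℝ)) := Real.rpow_pos_of_pos hk _
      have h8 : 0 < k ^ (1 / 16 : ℝ) := Real.rpow_pos_of_pos hk _
      rw [h6]
      calc ‖D ω n1 v‖ ≤ t v := h3
        _ = (s * u) * (k ^ (3 / 4 * (net.dist v x : ℝ)) * k ^ (1 / 16 : ℝ)) := by
            rw [ht, ← Real.rpow_add hk]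
        _ ≤ (2 * M.C * k ^ (-(e / 16)) * ‖D ω n1 x‖) *
            (k ^ (3 / 4 * (net.dist v x : ℝ)) * k ^ (1 / 16 : ℝ)) := by gcongr
        _ = (2 * M.C * k ^ (-(e / 16)) * k ^ (1 / 16 : ℝ)) *
            (k ^ (3 / 4 * (net.dist v x : ℝ)) * ‖D ω n1 x‖) := by ring
        _ ≤ 1 * (k ^ (3 / 4 * (net.dist v x : ℝ)) * ‖D ω n1 x‖) := by gcongr
        _ = _ := one_mul _
  refine (measure_mono hsub).trans ((measure_union_le _ _).trans ((add_le_add hE1 hE2).trans ?_))
  rw [← ENNReal.ofReal_add (by positivity) (by positivity)]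
  refine ENNReal.ofReal_le_ofReal ?_
  have h1 : 24 * d * C2 * k ^ (1 + 3 * e / 4) * (s * u) / (k ^ (1 / 4 : ℝ) * (s * u)) ≤
      24 * d * C2 * k ^ (7 / 64 : ℝ) := by
    rw [div_le_iff₀ (by positivity)]
    have h2 : k ^ (1 + 3 * e / 4) ≤ k ^ (7 / 64 : ℝ) * k ^ (1 / 4 : ℝ) := by
      rw [← Real.rpow_add hk]
      exact Real.rpow_le_rpow_of_exponent_ge hk hk1.le (by linarith)
    calc 24 * d * C2 * k ^ (1 + 3 * e / 4) * (s * u)
        ≤ 24 * d * C2 * (k ^ (7 / 64 : ℝ) * k ^ (1 / 4 : ℝ)) * (s * u) := by gcongr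
      _ = _ := by ring
  have h2 : k ^ (7 / 64 : ℝ) = k ^ (5 / 64 : ℝ) * k ^ (1 / 32 : ℝ) := by
    rw [← Real.rpow_add hk]; norm_num
  have h3 : 0 < k ^ (1 / 32 : ℝ) := Real.rpow_pos_of_pos hk _
  calc 24 * d * C2 * k ^ (1 + 3 * e / 4) * (s * u) / (k ^ (1 / 4 : ℝ) * (s * u)) +
        3 * C2 * 3 ^ d * k ^ (7 / 64 : ℝ)
      ≤ 24 * d * C2 * k ^ (7 / 64 : ℝ) + 3 * C2 * 3 ^ d * k ^ (7 / 64 : ℝ) := by linarith
    _ = ((24 * d * C2 + 3 * C2 * 3 ^ d) * k ^ (5 / 64 : ℝ)) * k ^ (1 / 32 : ℝ) := by rw [h2]; ring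
    _ ≤ 1 * k ^ (1 / 32 : ℝ) := by gcongr
    _ = _ := one_mul _

omit [BorelSpace V] [SecondCountableTopology V] [FiniteDimensional ℝ V]
  [BorelSpace H] [SecondCountableTopology H] in
private theorem OL3_trs_glue (M : MN V H) {d : ℕ} (β k h : ℝ) (L : ℕ) (G : boxS d L → V)
    (z : boxS d L) (n1 : ℕ) (φ : ℝ) (a b : ℕ → boxS d L → H) (m : ℕ) :
    trs M β k h L G z n1 φ (glue n1 a b) (n1 + m) =
      traj (M.st β k h L) (trs M β k h L G z n1 φ a n1) b m := by
  have h1 : glue n1 a b + φ • shz M z n1 = glue n1 (a + φ • shz M z n1) b := by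
    funext j y
    simp only [Pi.add_apply, Pi.smul_apply, glue]
    by_cases hj : j < n1
    · simp only [hj, if_true, Pi.add_apply, Pi.smul_apply]
    · simp only [hj, if_false]
      simp [shz, hj]
  unfold trs
  rw [h1]
  exact traj_glue_add _ _ _ _ _ _

end

theorem ol3 (N : ℕ) (hN : 1 ≤ N) (d : ℕ) (β : ℝ) (hβ : 0 < β) (κ : ℝ) (hκ : 0 < κ)
    (hκ1 : κ ≤ 1 / 16) : ∃ e1 σ0 ε1 : ℝ, 0 < e1 ∧ 0 < σ0 ∧ 0 < ε1 ∧
    ∀ e, 0 < e → e ≤ e1 → ∀ σ, 0 < σ → σ ≤ σ0 → ∀ ε, 0 < ε → ε ≤ ε1 →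
    ∃ c k0 : ℝ, 0 < c ∧ 0 < k0 ∧ k0 < 1 ∧
    ∀ k, 0 < k → k < k0 → ∃ h0 : ℝ, 0 < h0 ∧ ∀ h, 0 < h → h < h0 →
    ∀ (L : ℕ) (G : boxS d L → E N) (x : boxS d L),
    (∀ v, ‖G v‖ ≤ k ^ (-(e / 4) - (1 + e / 16) * (boxNet d L).dist v x) * ‖G x‖) →
    ‖G x‖ ≤ k ^ (-(e / (4 * β))) →
    ∀ n : ℕ, ⌈k ^ e / h⌉₊ ≤ n → n * h ≤ σ * ell k + 1 →
      PI ((MN3 N hN).mu d L) {ω |
          (∀ j, ⌈k ^ e / h⌉₊ ≤ j → j ≤ n → ‖traj ((MN3 N hN).st β k h L) G ω j x‖ < k ^ κ) ∧
          ‖traj ((MN3 N hN).st β k h L) G ω n x‖ <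
            k ^ (2 * e + ε) * Real.exp (lamN N * (n * h)) * ‖G x‖}
        ≤ ENNReal.ofReal (k ^ c) := by
  obtain ⟨τ, σ0, hτ0, hσ00, htwo⟩ := OL3_two N hN d β hβ κ hκ
  refine ⟨1 / 16, σ0, τ, by norm_num, hσ00, hτ0, ?_⟩
  intro e he he1 σ hσ hσ1 ε hε hε1
  obtain ⟨c2, k2, hc2, hk20, hk21, htwo1⟩ := htwo σ hσ hσ1 ε hε hε1
  set M := MN3 N hN with hM
  have hC1 := M.C1
  obtain ⟨k1, hk10, hk11, hone⟩ := OL3_one M d β hβ e he he1
  obtain ⟨C3, k3, hC3, hk30, hk31, hreg⟩ := regS_prob M d β hβ e he he1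
  set c' : ℝ := min (e / 16) (min (1 / 32) c2) with hc'
  have hc'0 : 0 < c' := lt_min (by positivity) (lt_min (by norm_num) hc2)
  have hc'1 : c' ≤ e / 16 := min_le_left _ _
  have hc'2 : c' ≤ 1 / 32 := (min_le_right _ _).trans (min_le_left _ _)
  have hc'3 : c' ≤ c2 := (min_le_right _ _).trans (min_le_right _ _)
  obtain ⟨k4, hk40, hk41, hk4⟩ := OL3_ev (((OL3_pow (C3 + 5) (c' / 8) (by positivity)).and
    (OL3_pow (16 * M.C) (23 / 16 * e + ε / 2) (by positivity))).and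
    ((OL3_pow (4 * N) e he)))
  refine ⟨c' / 8, min (min k1 k2) (min k3 k4), by positivity, lt_min (lt_min hk10 hk20)
    (lt_min hk30 hk40), ((min_le_left _ _).trans (min_le_left _ _)).trans_lt hk11, ?_⟩
  intro k hk hkm
  have hkk1 : k < k1 := hkm.trans_le ((min_le_left _ _).trans (min_le_left _ _))
  have hkk2 : k < k2 := hkm.trans_le ((min_le_left _ _).trans (min_le_right _ _))
  have hkk3 : k < k3 := hkm.trans_le ((min_le_right _ _).trans (min_le_left _ _))
  have hkk4 : k < k4 := hkm.trans_le ((min_le_right _ _).trans (min_le_right _ _))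
  have hk1 : k < 1 := hkk1.trans hk11
  have hell := OL3_ell_pos hk hk1
  obtain ⟨⟨hb1, hb2⟩, hb3⟩ := hk4 k hk hkk4
  obtain ⟨h1, hh10, hone1⟩ := hone k hk hkk1
  obtain ⟨h2, hh20, htwo2⟩ := htwo1 k hk hkk2
  obtain ⟨h3, hh30, hreg1⟩ := hreg k hk hkk3
  obtain ⟨h4, hh40, htail⟩ := M.tail
  have hke : 0 < k ^ e := Real.rpow_pos_of_pos hk _
  have hkc : 0 < k ^ (c' / 4) := Real.rpow_pos_of_pos hk _
  obtain ⟨h5, hh50, hh51, hh5⟩ := OL3_ev ((OL3_small 1 1 one_pos hke).and
    (OL3_small (σ * ell k + 1) 1 one_pos hkc))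
  refine ⟨min (min h1 h2) (min h3 (min h4 h5)), lt_min (lt_min hh10 hh20) (lt_min hh30
    (lt_min hh40 hh50)), ?_⟩
  intro h hh hhm L G x hG hGx n hn hnh
  have hhh1 : h < h1 := hhm.trans_le ((min_le_left _ _).trans (min_le_left _ _))
  have hhh2 : h < h2 := hhm.trans_le ((min_le_left _ _).trans (min_le_right _ _))
  have hhh3 : h < h3 := hhm.trans_le ((min_le_right _ _).trans (min_le_left _ _))
  have hhh4 : h < h4 := hhm.trans_le ((min_le_right _ _).trans ((min_le_right _ _).trans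
    (min_le_left _ _)))
  have hhh5 : h < h5 := hhm.trans_le ((min_le_right _ _).trans ((min_le_right _ _).trans
    (min_le_right _ _)))
  have hhlt : h < 1 := hhh5.trans hh51
  obtain ⟨hh5a, hh5b⟩ := hh5 h hh hhh5
  rw [Real.rpow_one] at hh5a hh5b
  rw [one_mul] at hh5a
  set n1 : ℕ := ⌈k ^ e / h⌉₊ with hn1
  rcases eq_or_lt_of_le (norm_nonneg (G x)) with hu0 | hu
  · have e1 : {ω : ℕ → boxS d L → EuclideanSpace ℝ (Fin (N * N)) |
          (∀ j, n1 ≤ j → j ≤ n → ‖traj (M.st β k h L) G ω j x‖ < k ^ κ) ∧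
          ‖traj (M.st β k h L) G ω n x‖ <
            k ^ (2 * e + ε) * Real.exp (lamN N * (n * h)) * ‖G x‖} = ∅ := by
      rw [← hu0, mul_zero]
      ext ω
      simp only [Set.mem_ofPred_eq, Set.mem_empty_iff_false, iff_false, not_and, not_lt]
      exact fun _ => norm_nonneg _
    rw [e1]
    simp
  have hn1a : k ^ e ≤ n1 * h := by
    have h6 := Nat.le_ceil (k ^ e / h)
    rw [← hn1, div_le_iff₀ hh] at h6
    exact h6
  have hn1b : (n1 : ℝ) * h ≤ 2 * k ^ e := by
    have h6 := Nat.ceil_lt_add_one (show 0 ≤ k ^ e / h by positivity)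
    rw [← hn1] at h6
    have h7 : (n1 : ℝ) * h < (k ^ e / h + 1) * h := by gcongr
    have h8 : (k ^ e / h + 1) * h = k ^ e + h := by field_simp
    linarith
  set u : ℝ := ‖G x‖ with hud
  set s : ℝ := Real.sqrt (n1 * h) with hsd
  have hs0 : 0 < s := Real.sqrt_pos.2 (lt_of_lt_of_le hke hn1a)
  have hse : k ^ (e / 2) ≤ s := by
    rw [hsd, Real.le_sqrt (Real.rpow_nonneg hk.le _)  (by positivity)]
    calc (k ^ (e / 2)) ^ 2 = k ^ e := by
          rw [← Real.rpow_natCast, ← Real.rpow_mul hk.le]; congr 1; push_cast; ring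
      _ ≤ _ := hn1a
  set ρ : ℝ := 1 / (16 * M.C) * (s * k ^ (e / 16)) * k ^ (ε / 2) *
    Real.exp (lamN N * (n * h)) * u with hρ
  have hρ0 : 0 ≤ ρ := by positivity
  have hδ0 : 0 < k ^ (e / 8) := Real.rpow_pos_of_pos hk _
  have hδ1 : k ^ (e / 8) ≤ 1 := Real.rpow_le_one hk.le hk1.le (by positivity)
  set RS : Set (ℕ → boxS d L → EuclideanSpace ℝ (Fin (N * N))) :=
    RegS M β k h L G x n1 (k ^ (e / 8)) with hRS
  set GD : Set (ℕ → boxS d L → EuclideanSpace ℝ (Fin (N * N))) :=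
    {ω | ∀ j, j < n → ω j x ∈ M.gd h} with hGD
  set KP : Set (ℕ → boxS d L → EuclideanSpace ℝ (Fin (N * N))) :=
    {ω | ∀ j, n1 ≤ j → j ≤ n → ‖traj (M.st β k h L) G ω j x‖ < k ^ κ} with hKP
  have hmtr : ∀ φ j, Measurable fun ω : ℕ → boxS d L → EuclideanSpace ℝ (Fin (N * N)) =>
      trs M β k h L G x n1 φ ω j := fun φ j => measurable_trs M β k h L G x n1 φ j
  have htr0 : ∀ ω j, trs M β k h L G x n1 0 ω j = traj (M.st β k h L) G ω j := by
    intro ω j
    unfold trs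
    rw [zero_smul, add_zero]
  have hmtj : ∀ j, Measurable fun ω : ℕ → boxS d L → EuclideanSpace ℝ (Fin (N * N)) =>
      traj (M.st β k h L) G ω j := by
    intro j
    have h6 := hmtr 0 j
    simpa only [htr0] using h6
  have hmRS : MeasurableSet RS := measurableSet_RegS M β k h hh hhlt L G x n1 _ hδ0 hδ1
  have hmGD : MeasurableSet GD :=
    OL3_all (fun j (ω : ℕ → boxS d L → EuclideanSpace ℝ (Fin (N * N))) =>
      ω j x ∈ M.gd h) (fun i => ((measurable_pi_apply x).comp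
        (measurable_pi_apply i)) (M.mgd h)) n
  have hmKP : MeasurableSet KP :=
    OL3_all' (fun j (ω : ℕ → boxS d L → EuclideanSpace ℝ (Fin (N * N))) =>
      ‖traj (M.st β k h L) G ω j x‖ < k ^ κ)
      (fun i => measurableSet_lt ((measurable_pi_apply x).comp (hmtj i)).norm
        measurable_const) n1 n
  set Reg : Set (ℕ → boxS d L → EuclideanSpace ℝ (Fin (N * N))) := RS ∩ (GD ∩ KP) with hReg
  have hmReg : MeasurableSet Reg := hmRS.inter (hmGD.inter hmKP)
  -- the pair estimate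
  have hpair : ∀ φ φ' : ℝ, 0 ≤ φ → φ' ≤ 1 → k ^ (e / 16) ≤ φ' - φ →
      PI (Measure.pi fun _ : boxS d L => M.γ) {ω | (ω + φ • shz M x n1) ∈ Reg ∧
        (ω + φ' • shz M x n1) ∈ Reg ∧
        ‖traj (M.st β k h L) G (ω + φ' • shz M x n1) n x -
          traj (M.st β k h L) G (ω + φ • shz M x n1) n x‖ ≤ 2 * ρ} ≤
        ENNReal.ofReal (k ^ (1 / 32 : ℝ) + k ^ c2) := by
    intro φ φ' hφ hφ' hφφ
    obtain ⟨m, hm⟩ := Nat.exists_eq_add_of_le hn
    have hmh : (m : ℝ) * h ≤ σ * ell k + 1 := by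
      refine le_trans ?_ hnh
      have h6 : (m : ℝ) ≤ n := by exact_mod_cast (by omega : m ≤ n)
      gcongr
    set AB : Set (ℕ → boxS d L → EuclideanSpace ℝ (Fin (N * N))) := {ω |
      s * k ^ (e / 16) * u / (2 * M.C) ≤
            ‖trs M β k h L G x n1 φ' ω n1 x - trs M β k h L G x n1 φ ω n1 x‖ ∧
          ∀ v, ‖trs M β k h L G x n1 φ' ω n1 v - trs M β k h L G x n1 φ ω n1 v‖ ≤
            prof k 0 (-(3 / 4)) x v *
              ‖trs M β k h L G x n1 φ' ω n1 x - trs M β k h L G x n1 φ ω n1 x‖} with hAB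
    set B2 : Set (ℕ → boxS d L → EuclideanSpace ℝ (Fin (N * N))) := AB ∩
      ({ω | ∀ j, j < m → ω (n1 + j) x ∈ M.gd h} ∩
      ({ω | ∀ j, j < m + 1 → ‖trs M β k h L G x n1 φ ω (n1 + j) x‖ ≤ k ^ κ ∧
        ‖trs M β k h L G x n1 φ' ω (n1 + j) x‖ ≤ k ^ κ} ∩
      {ω | ‖trs M β k h L G x n1 φ' ω (n1 + m) x - trs M β k h L G x n1 φ ω (n1 + m) x‖ ≤
        1 / 2 * (Real.exp (lamN N * (m * h) - ε / 4 * ell k) *
          ‖trs M β k h L G x n1 φ' ω n1 x - trs M β k h L G x n1 φ ω n1 x‖)})) with hB2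
    have hmx : ∀ φ j v, Measurable fun ω : ℕ → boxS d L → EuclideanSpace ℝ (Fin (N * N)) =>
        trs M β k h L G x n1 φ ω j v := fun φ j v => (measurable_pi_apply v).comp (hmtr φ j)
    have hmd : ∀ j v, Measurable fun ω : ℕ → boxS d L → EuclideanSpace ℝ (Fin (N * N)) =>
        ‖trs M β k h L G x n1 φ' ω j v - trs M β k h L G x n1 φ ω j v‖ := fun j v =>
      ((hmx φ' j v).sub (hmx φ j v)).norm
    have hmAB : MeasurableSet AB := by
      refine MeasurableSet.inter (measurableSet_le measurable_const (hmd n1 x)) ?_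
      have e1 : {ω : ℕ → boxS d L → EuclideanSpace ℝ (Fin (N * N)) |
          ∀ v, ‖trs M β k h L G x n1 φ' ω n1 v - trs M β k h L G x n1 φ ω n1 v‖ ≤
            prof k 0 (-(3 / 4)) x v *
              ‖trs M β k h L G x n1 φ' ω n1 x - trs M β k h L G x n1 φ ω n1 x‖} =
          ⋂ v, {ω | ‖trs M β k h L G x n1 φ' ω n1 v - trs M β k h L G x n1 φ ω n1 v‖ ≤
            prof k 0 (-(3 / 4)) x v *
              ‖trs M β k h L G x n1 φ' ω n1 x - trs M β k h L G x n1 φ ω n1 x‖} := by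
        ext ω
        simp
      have e2 : MeasurableSet (⋂ v, {ω : ℕ → boxS d L → EuclideanSpace ℝ (Fin (N * N)) |
          ‖trs M β k h L G x n1 φ' ω n1 v - trs M β k h L G x n1 φ ω n1 v‖ ≤
            prof k 0 (-(3 / 4)) x v *
              ‖trs M β k h L G x n1 φ' ω n1 x - trs M β k h L G x n1 φ ω n1 x‖}) :=
        MeasurableSet.iInter fun v => measurableSet_le (hmd n1 v) ((hmd n1 x).const_mul _)
      rw [← e1] at e2
      exact e2
    have hmB2 : MeasurableSet B2 := by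
      refine hmAB.inter (MeasurableSet.inter ?_ (MeasurableSet.inter ?_ ?_))
      · exact OL3_all (fun j (ω : ℕ → boxS d L → EuclideanSpace ℝ (Fin (N * N))) =>
          ω (n1 + j) x ∈ M.gd h) (fun i => ((measurable_pi_apply x).comp
            (measurable_pi_apply (n1 + i))) (M.mgd h)) m
      · exact OL3_all (fun j (ω : ℕ → boxS d L → EuclideanSpace ℝ (Fin (N * N))) =>
          ‖trs M β k h L G x n1 φ ω (n1 + j) x‖ ≤ k ^ κ ∧
          ‖trs M β k h L G x n1 φ' ω (n1 + j) x‖ ≤ k ^ κ) (fun i => MeasurableSet.inter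
            (measurableSet_le (hmx φ (n1 + i) x).norm measurable_const)
            (measurableSet_le (hmx φ' (n1 + i) x).norm measurable_const)) (m + 1)
      · exact measurableSet_le (hmd (n1 + m) x) (((hmd n1 x).const_mul _).const_mul _)
    have hsub : {ω | (ω + φ • shz M x n1) ∈ Reg ∧ (ω + φ' • shz M x n1) ∈ Reg ∧
        ‖traj (M.st β k h L) G (ω + φ' • shz M x n1) n x -
          traj (M.st β k h L) G (ω + φ • shz M x n1) n x‖ ≤ 2 * ρ} ⊆
        {ω | (ω + φ • shz M x n1) ∈ RS ∧ (ω + φ' • shz M x n1) ∈ RS ∧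
        ¬ (s * k ^ (e / 16) * u / (2 * M.C) ≤
            ‖trs M β k h L G x n1 φ' ω n1 x - trs M β k h L G x n1 φ ω n1 x‖ ∧
          ∀ v, ‖trs M β k h L G x n1 φ' ω n1 v - trs M β k h L G x n1 φ ω n1 v‖ ≤
            prof k 0 (-(3 / 4)) x v *
              ‖trs M β k h L G x n1 φ' ω n1 x - trs M β k h L G x n1 φ ω n1 x‖)} ∪ B2 := by
      rintro ω ⟨hω1, hω2, hω3⟩
      by_cases hab : ω ∈ AB
      · right
        refine ⟨hab, fun j hj => ?_, fun j hj => ⟨?_, ?_⟩, ?_⟩
        · have h6 := hω1.2.1 (n1 + j) (by omega)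
          have h7 : (ω + φ • shz M x n1) (n1 + j) x = ω (n1 + j) x := by
            simp [shz]
          rw [h7] at h6
          exact h6
        · exact (hω1.2.2 (n1 + j) (by omega) (by omega)).le
        · exact (hω2.2.2 (n1 + j) (by omega) (by omega)).le
        · have h6 : ‖trs M β k h L G x n1 φ' ω (n1 + m) x -
              trs M β k h L G x n1 φ ω (n1 + m) x‖ ≤ 2 * ρ := by
            rw [← hm]; exact hω3
          refine h6.trans ?_
          have h7 := hab.1
          set X := ‖trs M β k h L G x n1 φ' ω n1 x - trs M β k h L G x n1 φ ω n1 x‖ with hX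
          have h8 : Real.exp (lamN N * (n * h)) * (1 / 2) * k ^ (ε / 4) ≤
              Real.exp (lamN N * (m * h) - ε / 4 * ell k) := by
            have h9 : Real.exp (lamN N * (m * h) - ε / 4 * ell k) =
                Real.exp (lamN N * (n * h)) * Real.exp (-(lamN N * (n1 * h))) * k ^ (ε / 4) := by
              rw [← OL3_exp_ell hk, ← Real.exp_add, ← Real.exp_add]
              congr 1
              rw [hm]
              push_cast
              ring
            rw [h9]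
            have h10 : (1 / 2 : ℝ) ≤ Real.exp (-(lamN N * (n1 * h))) := by
              have h11 : lamN N * (n1 * h) ≤ 1 / 2 := by
                have h12 : lamN N ≤ N := by
                  unfold lamN
                  have : (0 : ℝ) ≤ N := Nat.cast_nonneg _
                  linarith
                calc lamN N * (n1 * h) ≤ N * (2 * k ^ e) := by
                      have : (0 : ℝ) ≤ N := Nat.cast_nonneg _
                      gcongr
                  _ = 4 * N * k ^ e / 2 := by ring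
                  _ ≤ 1 / 2 := by gcongr
              have h12 := Real.add_one_le_exp (-(lamN N * (n1 * h)))
              linarith
            have h11 : 0 ≤ k ^ (ε / 4) := Real.rpow_nonneg hk.le _
            gcongr
          have h9 : k ^ (ε / 2) ≤ k ^ (ε / 4) :=
            Real.rpow_le_rpow_of_exponent_ge hk hk1.le (by linarith)
          have h10 : 0 ≤ k ^ (ε / 4) := Real.rpow_nonneg hk.le _
          calc 2 * ρ = Real.exp (lamN N * (n * h)) * k ^ (ε / 2) *
                (s * k ^ (e / 16) * u / (2 * M.C)) / 4 := by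
                rw [hρ]; field_simp; ring
            _ ≤ Real.exp (lamN N * (n * h)) * k ^ (ε / 4) * X / 4 := by gcongr
            _ = 1 / 2 * ((Real.exp (lamN N * (n * h)) * (1 / 2) * k ^ (ε / 4)) * X) := by ring
            _ ≤ _ := by
                have : 0 ≤ X := norm_nonneg _
                gcongr
      · left
        exact ⟨hω1.1, hω2.1, hab⟩
    have hP1 := hone1 h hh hhh1 L G x hG hGx hu n1 hn1 φ φ' hφ hφ' hφφ
    have hP2 : PI (M.mu d L) B2 ≤ ENNReal.ofReal (k ^ c2) := by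
      rw [← lintegral_indicator_one hmB2, lintegral_glue n1 _ (measurable_one.indicator hmB2)]
      have h6 : ∀ a : ℕ → boxS d L → EuclideanSpace ℝ (Fin (N * N)),
          ∫⁻ b, B2.indicator 1 (glue n1 a b) ∂(PI (M.mu d L)) ≤ ENNReal.ofReal (k ^ c2) := by
        intro a
        have h7 : ∀ b, B2.indicator
            (1 : (ℕ → boxS d L → EuclideanSpace ℝ (Fin (N * N))) → ℝ≥0∞) (glue n1 a b) =
            ((fun b => glue n1 a b) ⁻¹' B2).indicator 1 b := fun b => rfl
        have hgm : Measurable fun b : ℕ → boxS d L → EuclideanSpace ℝ (Fin (N * N)) =>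
            glue n1 a b := by
          have h8 := (measurable_glue (X := boxS d L → EuclideanSpace ℝ (Fin (N * N))) n1).comp
            (measurable_const (a := a) |>.prodMk measurable_id)
          simpa only [Function.comp_def, id] using h8
        simp only [h7]
        rw [lintegral_indicator_one (hgm hmB2)]
        have h8 : ∀ φ (b : ℕ → boxS d L → EuclideanSpace ℝ (Fin (N * N))) j,
            trs M β k h L G x n1 φ (glue n1 a b) (n1 + j) =
            traj (M.st β k h L) (trs M β k h L G x n1 φ a n1) b j := fun φ b j =>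
          OL3_trs_glue M β k h L G x n1 φ a b j
        have h9 : ∀ φ (b : ℕ → boxS d L → EuclideanSpace ℝ (Fin (N * N))),
            trs M β k h L G x n1 φ (glue n1 a b) n1 = trs M β k h L G x n1 φ a n1 :=
          fun φ b => h8 φ b 0
        by_cases hab : a ∈ AB
        · have h10 := htwo2 h hh hhh2 L (trs M β k h L G x n1 φ a n1)
            (trs M β k h L G x n1 φ' a n1) x (lt_of_lt_of_le (by positivity) hab.1) hab.2 m hmh
          refine (measure_mono ?_).trans h10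
          rintro b ⟨-, hb2, hb3, hb4⟩
          refine ⟨⟨fun j hj => ?_, fun j hj => ?_⟩, ?_⟩
          · have h11 : glue n1 a b (n1 + j) x ∈ M.gd h := hb2 j hj
            have h12 : glue n1 a b (n1 + j) = b j := by
              unfold glue
              rw [if_neg (by omega)]
              congr 1
              omega
            rw [h12] at h11
            exact h11
          · have h11 : ‖trs M β k h L G x n1 φ (glue n1 a b) (n1 + j) x‖ ≤ k ^ κ ∧
                ‖trs M β k h L G x n1 φ' (glue n1 a b) (n1 + j) x‖ ≤ k ^ κ := hb3 j hj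
            rw [h8, h8] at h11
            exact h11
          · have h11 : ‖trs M β k h L G x n1 φ' (glue n1 a b) (n1 + m) x -
                trs M β k h L G x n1 φ (glue n1 a b) (n1 + m) x‖ ≤
              1 / 2 * (Real.exp (lamN N * (m * h) - ε / 4 * ell k) *
                ‖trs M β k h L G x n1 φ' (glue n1 a b) n1 x -
                  trs M β k h L G x n1 φ (glue n1 a b) n1 x‖) := hb4
            rw [h8, h8, h9, h9] at h11
            exact h11
        · have h10 : (fun b => glue n1 a b) ⁻¹' B2 = ∅ := by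
            ext b
            simp only [Set.mem_preimage, Set.mem_empty_iff_false, iff_false]
            intro hb
            apply hab
            have h11 : glue n1 a b ∈ AB := hb.1
            simp only [hAB, Set.mem_ofPred_eq, h9] at h11
            exact h11
          rw [h10]
          simp
      refine (lintegral_mono h6).trans ?_
      simp
    refine (measure_mono hsub).trans ((measure_union_le _ _).trans ?_)
    rw [ENNReal.ofReal_add (by positivity) (by positivity)]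
    exact add_le_add hP1 hP2
  have hsbs := sbs M.γ M.cm n1 (shz M x n1) (fun j hj => by
      funext y; simp [shz, Nat.not_lt.2 hj]) (shz_sum M x n1)
    (fun ω => traj (M.st β k h L) G ω n x) ((measurable_pi_apply x).comp (hmtj n)) Reg hmReg ρ
    (k ^ (e / 16)) (k ^ (1 / 32 : ℝ) + k ^ c2) hρ0 (by positivity) (by positivity) hpair
  have hregp := hreg1 h hh hhh3 L G x x hGx hu (-(e / 4)) (by
      rw [(boxNet d L).dist_self]
      refine Real.rpow_le_rpow_of_exponent_ge hk hk1.le ?_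
      simp only [Nat.cast_zero, mul_zero, sub_zero]
      linarith) (fun v => hG v) n1 (by omega)
  have hgdp : PI (M.mu d L) GDᶜ ≤ ENNReal.ofReal (k ^ (c' / 4)) := by
    have hms : MeasurableSet {c : boxS d L → EuclideanSpace ℝ (Fin (N * N)) | c x ∈ M.gd h} :=
      (measurable_pi_apply x) (M.mgd h)
    have h6 : M.mu d L {c : boxS d L → EuclideanSpace ℝ (Fin (N * N)) | c x ∈ M.gd h}ᶜ ≤
        ENNReal.ofReal (h ^ 3) := by
      have h7 := htail h hh hhh4
      have h8 : (M.mu d L).map (fun c => c x) = M.γ := OL3_pi M.γ x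
      rw [← h8, Measure.map_apply (measurable_pi_apply x) (M.mgd h).compl] at h7
      exact h7
    have h7 := OL3_bad (M.mu d L) _ hms n _ h6
    refine h7.trans ?_
    rw [← ENNReal.ofReal_natCast n, ← ENNReal.ofReal_mul (Nat.cast_nonneg n)]
    refine ENNReal.ofReal_le_ofReal ?_
    calc (n : ℝ) * h ^ 3 = (n * h) * (h * h) := by ring
      _ ≤ (σ * ell k + 1) * (h * 1) := by gcongr
      _ = (σ * ell k + 1) * h := by ring
      _ ≤ _ := hh5b
  have hsub : {ω : ℕ → boxS d L → EuclideanSpace ℝ (Fin (N * N)) |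
          (∀ j, n1 ≤ j → j ≤ n → ‖traj (M.st β k h L) G ω j x‖ < k ^ κ) ∧
          ‖traj (M.st β k h L) G ω n x‖ <
            k ^ (2 * e + ε) * Real.exp (lamN N * (n * h)) * u} ⊆
      RSᶜ ∪ (GDᶜ ∪ {ω | ω ∈ Reg ∧ ‖traj (M.st β k h L) G ω n x‖ ≤ ρ}) := by
    rintro ω ⟨hω1, hω2⟩
    by_cases h6 : ω ∈ RS
    · by_cases h7 : ω ∈ GD
      · right; right
        refine ⟨⟨h6, h7, hω1⟩, hω2.le.trans ?_⟩
        have h8 : k ^ (2 * e + ε) = k ^ (23 / 16 * e + ε / 2) * (k ^ (e / 2) * k ^ (e / 16) *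
            k ^ (ε / 2)) := by
          rw [← Real.rpow_add hk, ← Real.rpow_add hk, ← Real.rpow_add hk]
          congr 1
          ring
        have h9 : k ^ (23 / 16 * e + ε / 2) ≤ 1 / (16 * M.C) := by
          rw [le_div_iff₀ (by positivity)]
          linarith
        have h10 : 0 < k ^ (ε / 2) := Real.rpow_pos_of_pos hk _
        have h11 : 0 < k ^ (e / 16) := Real.rpow_pos_of_pos hk _
        rw [h8, hρ]
        calc k ^ (23 / 16 * e + ε / 2) * (k ^ (e / 2) * k ^ (e / 16) * k ^ (ε / 2)) *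
            Real.exp (lamN N * (n * h)) * u
            ≤ 1 / (16 * M.C) * (s * k ^ (e / 16) * k ^ (ε / 2)) *
              Real.exp (lamN N * (n * h)) * u := by gcongr
          _ = _ := by ring
      · right; left; exact h7
    · left; exact h6
  refine (measure_mono hsub).trans ((measure_union_le _ _).trans ((add_le_add hregp
    ((measure_union_le _ _).trans (add_le_add hgdp hsbs))).trans ?_))
  rw [← ENNReal.ofReal_add hkc.le (by positivity), ← ENNReal.ofReal_add (by positivity)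
    (by positivity)]
  refine ENNReal.ofReal_le_ofReal ?_
  have h6 : (2 * k ^ (e / 16) + (k ^ (1 / 32 : ℝ) + k ^ c2)) ^ (1 / 4 : ℝ) ≤
      2 * k ^ (c' / 4) := by
    have h7 : 2 * k ^ (e / 16) + (k ^ (1 / 32 : ℝ) + k ^ c2) ≤ 16 * k ^ c' := by
      have h8 : k ^ (e / 16) ≤ k ^ c' := Real.rpow_le_rpow_of_exponent_ge hk hk1.le hc'1
      have h9 : k ^ (1 / 32 : ℝ) ≤ k ^ c' := Real.rpow_le_rpow_of_exponent_ge hk hk1.le hc'2
      have h10 : k ^ c2 ≤ k ^ c' := Real.rpow_le_rpow_of_exponent_ge hk hk1.le hc'3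
      have h11 : 0 < k ^ c' := Real.rpow_pos_of_pos hk _
      linarith
    have h8 : (16 * k ^ c' : ℝ) ^ (1 / 4 : ℝ) = 2 * k ^ (c' / 4) := by
      rw [Real.mul_rpow (by norm_num) (Real.rpow_nonneg hk.le _), ← Real.rpow_mul hk.le,
        show (16 : ℝ) = 2 ^ (4 : ℝ) by norm_num, ← Real.rpow_mul (by norm_num)]
      norm_num
      congr 1
      ring
    rw [← h8]
    exact Real.rpow_le_rpow (by positivity) h7 (by norm_num)
  have h7 : C3 * k ^ (e / 2) ≤ C3 * k ^ (c' / 4) := by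
    have : k ^ (e / 2) ≤ k ^ (c' / 4) := Real.rpow_le_rpow_of_exponent_ge hk hk1.le (by linarith)
    gcongr
  have h8 : k ^ (c' / 4) = k ^ (c' / 8) * k ^ (c' / 8) := by
    rw [← Real.rpow_add hk]; congr 1; ring
  have h9 : 0 < k ^ (c' / 8) := Real.rpow_pos_of_pos hk _
  calc C3 * k ^ (e / 2) + (k ^ (c' / 4) +
        2 * (2 * k ^ (e / 16) + (k ^ (1 / 32 : ℝ) + k ^ c2)) ^ (1 / 4 : ℝ))
      ≤ C3 * k ^ (c' / 4) + (k ^ (c' / 4) + 2 * (2 * k ^ (c' / 4))) := by gcongr
    _ = ((C3 + 5) * k ^ (c' / 8)) * k ^ (c' / 8) := by rw [h8]; ring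
    _ ≤ 1 * k ^ (c' / 8) := by gcongr
    _ = _ := one_mul _

end DynC
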