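import Pool.Agent.Lib_MP_36b788c.BDefs

/-!
# From the block inequalities to mixing

`n_B = ⌈TB/h⌉`. (contr): a function of class `A` is mapped by `P^{n_B}` to class `A'` with `ΣA' ≤ ½ΣA`; (grow): for `n ≤ n_B`, `ΣA' ≤ Cg ΣA`; (init): integrals over two
independent initial configurations.

PROOF of `mix_of_obe`. Given `ρ1, ρ2, R, J, CF, δ`. For a test function `f_i` (`i ∈ I`) and two configurations which differ only at `y`:
`‖f_i G - f_i G'‖ ≤ CF 1{|y| ≤ R} min 1 ‖D‖ ≤ A_R(y) ‖D‖^θ w`, `A_R(y) = CF 1{|y|₁ ≤ R}` (`θ ≤ 1`, `1 ≤ w` is `one_le`), `ΣA_R ≤ CF (2R+1)^d =: B`. Product rule (`Cls_mul`): if `‖f‖,‖g‖ ≤ 1`, `f ∈ Cls A1 ε1`, `g ∈ Cls A2 ε2` then `f g ∈ Cls (A1+A2) (ε1+ε2)`.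
`g_j(G) = pathE [f_j,…,f_{M-1}] G`. Let `i_1 < … < i_r` be the elements of `I` below `M` (`r ≤ J`). `g_{i_r} = f_{i_r}·1`; `g_{i_l} = f_{i_l} · P^{n} g_{i_{l+1}}` with `n = i_{l+1} - i_l` (for indices not in `I`, `f = 1`:
`pathE` over them is `P^n`, `pathE_Pn`). Write `n = m n_B + n'`, `n' < n_B`: `m` times (contr), once (grow): the sum of the weights is multiplied by at most
`Cg 2^{-m} ≤ Cg`. So `ΣA_{i_1} ≤ B (1 + Cg + … + Cg^{J-1}) =: B'`, and `ΣA_0 ≤ Cg 2^{-m_1} B'` with `m_1 = ⌊i_1/n_B⌋ ≥ T0/(TB+h) - 1` (`i_1 h ≥ T0`). (If `I` has no element below `M`, `g_0` is constant `1`, nothing to prove.)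
Choose `T0` so that `Ci Cg 2^{-m_1} B' ≤ δ/4`. The number of applications of (contr), (grow) is at most `Q = J (Sm/TB + 2)`; each changes `ε` into `CL ε + ε0`, so the final additive
constant is `≤ CL^Q Q ε0`; then (init) gives total `≤ Ci ΣA_0 + CL·CL^Q Q ε0 + ε0 + η ≤ δ` for `η = δ/4` (`L0 = max R Ls L1(η)`) and `ε0` small; `h0` = minimum of the two `h0(ε0)`.
-/

open MeasureTheory ProbabilityTheory
open scoped ENNReal

namespace DynC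

open Dyn

variable {d : ℕ}

/-- two independent initial configurations, arbitrary times -/
def ObeInit (F : Fam d) (k q s α θ : ℝ) : Prop :=
  ∀ (ρ1 ρ2 : Measure F.V) [IsProbabilityMeasure ρ1] [IsProbabilityMeasure ρ2],
      ρ1 {0} = 0 → ρ2 {0} = 0 → Integrable (fun x : F.V => ‖x‖ ^ 2) ρ1 →
      Integrable (fun x : F.V => ‖x‖ ^ 2) ρ2 → ∃ Ci : ℝ, 0 ≤ Ci ∧
    ∀ η : ℝ, 0 < η → ∃ L1 : ℕ, ∀ L, L1 ≤ L →
    ∀ Sm : ℝ, 0 ≤ Sm → ∃ CL : ℝ, 1 ≤ CL ∧ ∀ ε0 : ℝ, 0 < ε0 → ∃ h0 : ℝ, 0 < h0 ∧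
    ∀ h, 0 < h → h < h0 → ∀ n1 n2 : ℕ, n1 * h ≤ Sm → n2 * h ≤ Sm →
    ∀ (A : boxS d L → ℝ) (ε : ℝ) (f : (boxS d L → F.V) → ℂ),
      (∀ x, 0 ≤ A x) → 0 ≤ ε → Measurable f → (∀ G, ‖f G‖ ≤ 1) →
      Cls (boxNet d L) k q s α θ A ε f →
      ∫ G, ∫ G', ‖f G - f G'‖ ∂(F.law h L (Measure.pi (fun _ => ρ2)) n2)
        ∂(F.law h L (Measure.pi (fun _ => ρ1)) n1) ≤ Ci * ∑ x, A x + CL * ε + ε0 + η

/-- block inequalities -/
structure Obe (F : Fam d) (k q s α θ TB Cg : ℝ) (Ls : ℕ) : Prop where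
  hk : 0 < k
  hk1 : k < 1
  hθ : 0 < θ
  hθ1 : θ ≤ 1
  hTB : 0 < TB
  hCg : 1 ≤ Cg
  one_le : ∀ (L : ℕ) (G G' : boxS d L → F.V) (x : boxS d L),
    1 ≤ wpr (boxNet d L) k q s α G G' x
  contr : ∀ L, Ls ≤ L → ∃ CL : ℝ, 1 ≤ CL ∧ ∀ ε0 : ℝ, 0 < ε0 → ∃ h0 : ℝ, 0 < h0 ∧
    ∀ h, 0 < h → h < h0 → ∀ (A : boxS d L → ℝ) (ε : ℝ) (f : (boxS d L → F.V) → ℂ),
      (∀ x, 0 ≤ A x) → 0 ≤ ε → Measurable f → (∀ G, ‖f G‖ ≤ 1) →
      Cls (boxNet d L) k q s α θ A ε f →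
      ∃ A' : boxS d L → ℝ, (∀ x, 0 ≤ A' x) ∧ ∑ x, A' x ≤ 1 / 2 * ∑ x, A x ∧
        Cls (boxNet d L) k q s α θ A' (CL * ε + ε0) (F.Pn h L ⌈TB / h⌉₊ f)
  grow : ∀ L, Ls ≤ L → ∃ CL : ℝ, 1 ≤ CL ∧ ∀ ε0 : ℝ, 0 < ε0 → ∃ h0 : ℝ, 0 < h0 ∧
    ∀ h, 0 < h → h < h0 → ∀ (A : boxS d L → ℝ) (ε : ℝ) (f : (boxS d L → F.V) → ℂ),
      (∀ x, 0 ≤ A x) → 0 ≤ ε → Measurable f → (∀ G, ‖f G‖ ≤ 1) →
      Cls (boxNet d L) k q s α θ A ε f → ∀ n, n ≤ ⌈TB / h⌉₊ →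
      ∃ A' : boxS d L → ℝ, (∀ x, 0 ≤ A' x) ∧ ∑ x, A' x ≤ Cg * ∑ x, A x ∧
        Cls (boxNet d L) k q s α θ A' (CL * ε + ε0) (F.Pn h L n f)
  init : ObeInit F k q s α θ

theorem Cls_mul {V : Type} [NormedAddCommGroup V] {L : ℕ} (k q s α θ : ℝ)
    (A1 A2 : boxS d L → ℝ) (h1 : ∀ x, 0 ≤ A1 x) (h2 : ∀ x, 0 ≤ A2 x) (ε1 ε2 : ℝ)
    (he1 : 0 ≤ ε1) (he2 : 0 ≤ ε2) (f g : (boxS d L → V) → ℂ)
    (hf : ∀ G, ‖f G‖ ≤ 1) (hg : ∀ G, ‖g G‖ ≤ 1)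
    (hf1 : Cls (boxNet d L) k q s α θ A1 ε1 f) (hg1 : Cls (boxNet d L) k q s α θ A2 ε2 g) :
    Cls (boxNet d L) k q s α θ (A1 + A2) (ε1 + ε2) (fun G => f G * g G) := by
  intro G G' y hy
  have hN : ‖f G * g G - f G' * g G'‖ ≤ ‖f G - f G'‖ + ‖g G - g G'‖ := by
    have e1 : f G * g G - f G' * g G' = (f G - f G') * g G + f G' * (g G - g G') := by ring
    rw [e1]
    refine (norm_add_le _ _).trans ?_
    rw [norm_mul, norm_mul]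
    have a1 : ‖f G - f G'‖ * ‖g G‖ ≤ ‖f G - f G'‖ * 1 :=
      mul_le_mul_of_nonneg_left (hg G) (norm_nonneg _)
    have a2 : ‖f G'‖ * ‖g G - g G'‖ ≤ 1 * ‖g G - g G'‖ :=
      mul_le_mul_of_nonneg_right (hf G') (norm_nonneg _)
    linarith
  have hp : 0 ≤ ‖G y - G' y‖ ^ θ := Real.rpow_nonneg (norm_nonneg _) _
  have hS : 0 ≤ 1 + ∑ x, (‖G x‖ + ‖G' x‖) :=
    add_nonneg zero_le_one (Finset.sum_nonneg fun x _ => add_nonneg (norm_nonneg _) (norm_nonneg _))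
  have e2 : ENNReal.ofReal ((A1 + A2) y * ‖G y - G' y‖ ^ θ) =
      ENNReal.ofReal (A1 y * ‖G y - G' y‖ ^ θ) + ENNReal.ofReal (A2 y * ‖G y - G' y‖ ^ θ) := by
    rw [Pi.add_apply, add_mul, ENNReal.ofReal_add (mul_nonneg (h1 y) hp) (mul_nonneg (h2 y) hp)]
  have e3 : ENNReal.ofReal ((ε1 + ε2) * (1 + ∑ x, (‖G x‖ + ‖G' x‖))) =
      ENNReal.ofReal (ε1 * (1 + ∑ x, (‖G x‖ + ‖G' x‖))) +
        ENNReal.ofReal (ε2 * (1 + ∑ x, (‖G x‖ + ‖G' x‖))) := by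
    rw [add_mul, ENNReal.ofReal_add (mul_nonneg he1 hS) (mul_nonneg he2 hS)]
  rw [e2, e3]
  show ENNReal.ofReal ‖f G * g G - f G' * g G'‖ ≤ _
  refine (ENNReal.ofReal_le_ofReal hN).trans ?_
  rw [ENNReal.ofReal_add (norm_nonneg _) (norm_nonneg _)]
  refine (add_le_add (hf1 G G' y hy) (hg1 G G' y hy)).trans (le_of_eq ?_)
  rw [add_mul]
  abel

private theorem Obe1_step_meas (F : Fam d) (h : ℝ) (L : ℕ) (g : (boxS d L → F.V) → ℂ)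
    (hg : Measurable g) :
    Measurable fun G : boxS d L → F.V => ∫ ξ, g (F.st h L G ξ) ∂(F.mu L) := by
  have h0 : StronglyMeasurable (fun p : (boxS d L → F.V) × (boxS d L → F.Ω0) =>
      g (F.st h L p.1 p.2)) := (hg.comp (F.mst h L)).stronglyMeasurable
  exact h0.integral_prod_right'.measurable

/-- path expectations facts -/
theorem Fam_pathE_facts (F : Fam d) (h : ℝ) (L : ℕ) (fs : List ((boxS d L → F.V) → ℂ))
    (hm : ∀ f ∈ fs, Measurable f) (hb : ∀ f ∈ fs, ∀ G, ‖f G‖ ≤ 1) :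
    Measurable (F.pathE h L fs) ∧ ∀ G, ‖F.pathE h L fs G‖ ≤ 1 := by
  induction fs with
  | nil =>
    refine ⟨?_, fun G => ?_⟩
    · show Measurable fun _ : boxS d L → F.V => (1 : ℂ)
      exact measurable_const
    · show ‖(1 : ℂ)‖ ≤ 1
      rw [norm_one]
  | cons f fs ih =>
    obtain ⟨i1, i2⟩ := ih (fun g hg => hm g (List.mem_cons_of_mem _ hg))
      (fun g hg => hb g (List.mem_cons_of_mem _ hg))
    refine ⟨?_, fun G => ?_⟩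
    · show Measurable fun G : boxS d L → F.V =>
        f G * ∫ ξ, F.pathE h L fs (F.st h L G ξ) ∂(F.mu L)
      exact (hm f List.mem_cons_self).mul (Obe1_step_meas F h L _ i1)
    · show ‖f G * ∫ ξ, F.pathE h L fs (F.st h L G ξ) ∂(F.mu L)‖ ≤ 1
      rw [norm_mul]
      have a1 : ‖∫ ξ, F.pathE h L fs (F.st h L G ξ) ∂(F.mu L)‖ ≤ 1 := by
        have a2 := norm_integral_le_of_norm_le_const (μ := F.mu L) (C := 1)
          (f := fun ξ => F.pathE h L fs (F.st h L G ξ))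
          (Filter.Eventually.of_forall fun ξ => i2 _)
        rw [probReal_univ, mul_one] at a2
        exact a2
      exact mul_le_one₀ (hb f List.mem_cons_self G) (norm_nonneg _) a1

theorem Fam_Pn_facts (F : Fam d) (h : ℝ) (L n : ℕ) (f : (boxS d L → F.V) → ℂ)
    (hm : Measurable f) (hb : ∀ G, ‖f G‖ ≤ 1) :
    Measurable (F.Pn h L n f) ∧ ∀ G, ‖F.Pn h L n f G‖ ≤ 1 := by
  refine ⟨?_, fun G => ?_⟩
  · show Measurable fun G : boxS d L → F.V =>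
      ∫ ω, f (traj (F.st h L) G ω n) ∂(PI (F.mu L))
    have h0 : StronglyMeasurable (fun p : (boxS d L → F.V) × (ℕ → boxS d L → F.Ω0) =>
        f (traj (F.st h L) p.1 p.2 n)) :=
      (hm.comp (measurable_traj (F.st h L) (F.mst h L) n)).stronglyMeasurable
    exact h0.integral_prod_right'.measurable
  · show ‖∫ ω, f (traj (F.st h L) G ω n) ∂(PI (F.mu L))‖ ≤ 1
    have a2 := norm_integral_le_of_norm_le_const (μ := PI (F.mu L)) (C := 1)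
      (f := fun ω => f (traj (F.st h L) G ω n)) (Filter.Eventually.of_forall fun ω => hb _)
    rw [probReal_univ, mul_one] at a2
    exact a2

theorem Fam_Pn_add (F : Fam d) (h : ℝ) (L n m : ℕ) (f : (boxS d L → F.V) → ℂ)
    (hm : Measurable f) (hb : ∀ G, ‖f G‖ ≤ 1) :
    F.Pn h L (n + m) f = F.Pn h L n (F.Pn h L m f) := by
  funext G
  show ∫ ω, f (traj (F.st h L) G ω (n + m)) ∂(PI (F.mu L)) =
    ∫ a, ∫ b, f (traj (F.st h L) (traj (F.st h L) G a n) b m) ∂(PI (F.mu L)) ∂(PI (F.mu L))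
  have hM : Measurable fun ω : ℕ → boxS d L → F.Ω0 => f (traj (F.st h L) G ω (n + m)) :=
    hm.comp ((measurable_traj (F.st h L) (F.mst h L) (n + m)).comp
      (measurable_const.prodMk measurable_id))
  rw [integral_glue (μ := F.mu L) n _ hM 1 fun ω => hb _]
  simp only [traj_glue_add]

private theorem Obe1_Pn_zero (F : Fam d) (h : ℝ) (L : ℕ) (f : (boxS d L → F.V) → ℂ) :
    F.Pn h L 0 f = f := by
  funext G
  show ∫ _, f G ∂(PI (F.mu L)) = f G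
  rw [integral_const, probReal_univ, one_smul]

private theorem Obe1_Pn_one (F : Fam d) (h : ℝ) (L : ℕ) (f : (boxS d L → F.V) → ℂ)
    (hm : Measurable f) (G : boxS d L → F.V) :
    F.Pn h L 1 f G = ∫ ξ, f (F.st h L G ξ) ∂(F.mu L) := by
  show ∫ ω, f (F.st h L G (ω 0)) ∂(PI (F.mu L)) = _
  have hM : Measurable fun ξ : boxS d L → F.Ω0 => f (F.st h L G ξ) :=
    hm.comp ((F.mst h L).comp (measurable_const.prodMk measurable_id))
  have h1 := integral_map (μ := PI (F.mu L)) (φ := fun ω : ℕ → boxS d L → F.Ω0 => ω 0)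
    (measurable_pi_apply 0).aemeasurable
    (f := fun ξ => f (F.st h L G ξ)) hM.aestronglyMeasurable
  rw [map_coord] at h1
  exact h1.symm

/-- `n` trivial test functions followed by the list `fs` -/
theorem pathE_Pn (F : Fam d) (h : ℝ) (L n : ℕ) (fs : List ((boxS d L → F.V) → ℂ))
    (hm : ∀ f ∈ fs, Measurable f) (hb : ∀ f ∈ fs, ∀ G, ‖f G‖ ≤ 1) :
    F.pathE h L (List.replicate n (fun _ => 1) ++ fs) = F.Pn h L n (F.pathE h L fs) := by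
  obtain ⟨m1, m2⟩ := Fam_pathE_facts F h L fs hm hb
  induction n with
  | zero =>
    rw [Obe1_Pn_zero]
    rfl
  | succ n ih =>
    obtain ⟨p1, p2⟩ := Fam_Pn_facts F h L n _ m1 m2
    rw [Nat.add_comm n 1, Fam_Pn_add F h L 1 n _ m1 m2, Nat.add_comm 1 n, List.replicate_succ]
    funext G
    rw [Obe1_Pn_one F h L _ p1]
    show (1 : ℂ) * ∫ ξ, F.pathE h L (List.replicate n (fun _ => 1) ++ fs) (F.st h L G ξ)
      ∂(F.mu L) = _
    rw [ih, one_mul]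

end DynC
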