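import Pool.Agent.Lib_MP_36b788c.Obe1

/-!
# From pair estimates to the block inequalities

`Blk`: all estimates for one fixed `k` (constants as parameters). `n_B = ⌈TB/h⌉`.

PROOF.
* `tele`: `f ∈ Cls A ε`, arbitrary `G, G'`: `‖f G - f G'‖ ≤ Σ_x 4 A(x) ‖D(x)‖^θ wpr G G' x + 2|box| ε (1 + 2Σ(‖G‖+‖G'‖))`. Path from `G` to `G'` through the sitewise larger
  configuration `M` (`M x = G x` if `‖G' x‖ ≤ ‖G x‖`, else `G' x`): first change, one after the other, the sites with `‖G x‖ < ‖G' x‖` from `G x` to `G' x`, then the others. Every site is changed once.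
  On the first leg the intermediate configurations `H` satisfy `‖H z‖ ≥ ‖G z‖`, `‖H z‖ ≤ max(‖G z‖,‖G' z‖)`, so for two consecutive ones `t = ‖H‖+‖H'‖ ≤ 2(‖G‖+‖G'‖)`, `SSt(t) ≤ 2 SSt(‖G‖+‖G'‖)`, `fpot` is
  monotone, hence `Tz(H,t) ≥ 2^{-q} Tz(G)`, `Vp(H,t)(z) ≤ 2^{qs} Vp_G(z)` and `wpr(H,H') ≤ 2^{1+qs} wpr(G,G') ≤ 4 wpr(G,G')` (`qs ≤ 1`). Second leg: the same with `G'`. Sums of norms of intermediate configurations are `≤ Σ(‖G‖+‖G'‖)`.
* `blk_pair`: pair `(G,G')` differing only at `y`, `n ≤ n_B`: `‖P^n f G - P^n f G'‖ ≤ E‖f G_n - f G'_n‖` (marginals `marg1, marg2`: the law of the first component of `tr n` is the law of the chain, by induction) `≤ E[tele; alv] + 2P(alv^c)`;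
  `E[D^θ w; alv] ≤ (E[D^{2θ}; alv])^{1/2} (E[w²; alv])^{1/2}`, Minkowski for `w = Σ α^{|x-z|}(V1+V2)(z)`.
  With `gV`: `(E w_n(x)²)^{1/2} ≤ √BV w_0(x)`. With `ly` at `n = n_B`: `≤ κ' w_0(x) + 2 CV Σ_z α^{|x-z|}`. `w_0(x) ≤ α^{-|x-y|} w_0(y)`.
* `contr`: if `wpr G G' y < K`: `good`. Otherwise `κ' w_0(x) + 2 CV Cα ≤ (κ' α^{-|x-y|} + 2 CV Cα/K) w_0(y)`. So `P^{n_B} f ∈ Cls A' …` with `A'(y) = Σ_x A(x) max(c_good(x,y), c_bad(x,y))`, bounded by the sum of both,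
  `c_bad(x,y) = 4 √BD e^{-(3/4)a|x-y|} (κ' α^{-|x-y|} + 2 CV Cα/K)`, `Σ_y (c_good + c_bad)(x,y) ≤ 1/2` by `num`.
* `grow`: `c(x,y) = 4 √BD e^{-(3/4)a|x-y|} √BV α^{-|x-y|}`.
* additive terms: `2P(alv^c) ≤ 2ε0 (1+Σ)` (exit), `E(1+Σ(‖G_n‖+‖G'_n‖)) ≤ C(1+Σ)` (sum).
-/

open MeasureTheory ProbabilityTheory
open scoped ENNReal

namespace DynC

open Dyn

variable {d : ℕ}

/-- estimates of one block for fixed `k` -/
structure Blk {F : Fam d} {β k : ℝ} (S : PSys F β k) (q s a θ TB BD BV κ' CV K cd : ℝ) (Ls : ℕ) :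
    Prop where
  hk : 0 < k
  hk1 : k < 1
  hβ : 0 < β
  hq : 1 ≤ q
  hs : 0 < s
  hqs : 4 * q * s ≤ 1
  ha : 0 < a
  hθ : 0 < θ
  hθ1 : θ ≤ 1 / 2
  hTB : 0 < TB
  hBD : 1 ≤ BD
  hBV : 1 ≤ BV
  hκ : 0 ≤ κ'
  hCV : 0 ≤ CV
  hK : 0 < K
  vone : ∀ (L : ℕ) (G : (boxS d L → F.V) × (boxS d L → F.V)) (x : boxS d L),
    1 ≤ V1 k q s G x ∧ 1 ≤ V2 k q s G x
  exit : ∀ (L : ℕ) (Sm ε0 : ℝ), 0 ≤ Sm → 0 < ε0 → ∃ h0 : ℝ, 0 < h0 ∧ ∀ h, 0 < h → h < h0 →
    ∀ (G : (boxS d L → F.V) × (boxS d L → F.V)) (n : ℕ), n * h ≤ Sm →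
      PI (S.mu L) (S.alv h L G n)ᶜ ≤ ENNReal.ofReal (ε0 * (1 + ∑ x, (‖G.1 x‖ + ‖G.2 x‖)))
  sum : ∀ (L : ℕ) (Sm : ℝ), 0 ≤ Sm → ∃ C h0 : ℝ, 1 ≤ C ∧ 0 < h0 ∧ ∀ h, 0 < h → h < h0 →
    ∀ (G : (boxS d L → F.V) × (boxS d L → F.V)) (n : ℕ), n * h ≤ Sm →
      ∫⁻ ω, ENNReal.ofReal (∑ x, (‖(S.tr h L G ω n).1 x‖ + ‖(S.tr h L G ω n).2 x‖)) ∂(PI (S.mu L))
        ≤ ENNReal.ofReal (C * ∑ x, (‖G.1 x‖ + ‖G.2 x‖))
  gD : ∀ L, Ls ≤ L → ∃ h0 : ℝ, 0 < h0 ∧ ∀ h, 0 < h → h < h0 →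
    ∀ (G : (boxS d L → F.V) × (boxS d L → F.V)) (y : boxS d L),
      (∀ x, x ≠ y → G.1 x = G.2 x) → ∀ n, n ≤ ⌈TB / h⌉₊ → ∀ x,
      ∫⁻ ω in S.alv h L G n, ENNReal.ofReal
          (‖(S.tr h L G ω n).1 x - (S.tr h L G ω n).2 x‖ ^ (2 * θ)) ∂(PI (S.mu L))
        ≤ ENNReal.ofReal (BD * Real.exp (-(3 / 2 * a * (boxNet d L).dist x y)) *
            ‖G.1 y - G.2 y‖ ^ (2 * θ))
  gV : ∀ L, Ls ≤ L → ∃ h0 : ℝ, 0 < h0 ∧ ∀ h, 0 < h → h < h0 →
    ∀ (G : (boxS d L → F.V) × (boxS d L → F.V)) (n : ℕ), n ≤ ⌈TB / h⌉₊ → ∀ x,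
      ∫⁻ ω in S.alv h L G n, V1 k q s (S.tr h L G ω n) x ^ 2 ∂(PI (S.mu L))
          ≤ ENNReal.ofReal BV * V1 k q s G x ^ 2 ∧
      ∫⁻ ω in S.alv h L G n, V2 k q s (S.tr h L G ω n) x ^ 2 ∂(PI (S.mu L))
          ≤ ENNReal.ofReal BV * V2 k q s G x ^ 2
  ly : ∀ L, Ls ≤ L → ∃ h0 : ℝ, 0 < h0 ∧ ∀ h, 0 < h → h < h0 →
    ∀ (G : (boxS d L → F.V) × (boxS d L → F.V)) (x : boxS d L),
      ∫⁻ ω in S.alv h L G ⌈TB / h⌉₊, V1 k q s (S.tr h L G ω ⌈TB / h⌉₊) x ^ 2 ∂(PI (S.mu L))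
          ≤ (ENNReal.ofReal κ' * V1 k q s G x + ENNReal.ofReal CV) ^ 2 ∧
      ∫⁻ ω in S.alv h L G ⌈TB / h⌉₊, V2 k q s (S.tr h L G ω ⌈TB / h⌉₊) x ^ 2 ∂(PI (S.mu L))
          ≤ (ENNReal.ofReal κ' * V2 k q s G x + ENNReal.ofReal CV) ^ 2
  good : ∀ L, Ls ≤ L → ∃ (CL : ℝ) (c : boxS d L → boxS d L → ℝ), 1 ≤ CL ∧ (∀ x y, 0 ≤ c x y) ∧
    (∀ x, ∑ y, c x y ≤ 1 / 4) ∧ ∀ ε0 : ℝ, 0 < ε0 → ∃ h0 : ℝ, 0 < h0 ∧
    ∀ h, 0 < h → h < h0 → ∀ (A : boxS d L → ℝ) (ε : ℝ) (f : (boxS d L → F.V) → ℂ),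
      (∀ x, 0 ≤ A x) → 0 ≤ ε → Measurable f → (∀ G, ‖f G‖ ≤ 1) →
      Cls (boxNet d L) k q s (Real.exp (-(a / 8))) θ A ε f →
      ∀ (G G' : boxS d L → F.V) (y : boxS d L), (∀ x, x ≠ y → G x = G' x) →
      wpr (boxNet d L) k q s (Real.exp (-(a / 8))) G G' y < ENNReal.ofReal K →
      ‖F.Pn h L ⌈TB / h⌉₊ f G - F.Pn h L ⌈TB / h⌉₊ f G'‖ ≤
        (∑ x, A x * c x y) * ‖G y - G' y‖ ^ θ +
          (CL * ε + ε0) * (1 + ∑ x, (‖G x‖ + ‖G' x‖))
  hcd : ∀ (L : ℕ) (x : boxS d L),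
    ∑ z, Real.exp (-(a / 8)) ^ (boxNet d L).dist x z ≤ cd ∧
    ∑ y, Real.exp (-(5 / 8 * a)) ^ (boxNet d L).dist x y ≤ cd
  num : 4 * Real.sqrt BD * (κ' + 2 * CV * cd / K) * cd ≤ 1 / 4

private theorem Obe2_gX_mono : Monotone gX := by
  intro a b hab
  unfold gX
  split_ifs <;> nlinarith

private theorem Obe2_fpot_nonneg (k v : ℝ) : 0 ≤ fpot k v := by
  unfold fpot
  split_ifs
  · exact le_rfl
  · exact (Real.exp_pos _).le

private theorem Obe2_fpot_mono {k : ℝ} (hk : 0 < k) (hk1 : k < 1) {u v : ℝ} (h : u ≤ v) :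
    fpot k u ≤ fpot k v := by
  have hl : 0 < ell k := by
    unfold ell
    exact Real.log_pos (one_lt_one_div hk hk1)
  unfold fpot
  split_ifs with h1 h2
  · exact le_rfl
  · exact (Real.exp_pos _).le
  · exfalso; linarith
  · refine Real.exp_le_exp.2 (mul_le_mul_of_nonneg_left (Obe2_gX_mono ?_) hl.le)
    exact div_le_div_of_nonneg_right (Real.log_le_log (by linarith) h) hl.le

/-- comparison of potentials -/
private theorem Obe2_Vp {ι : Type} [Fintype ι] (net : Net ι d) {k q s : ℝ} (hk : 0 < k)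
    (hk1 : k < 1) (hq : 1 ≤ q) (hs : 0 < s) (hqs : q * s ≤ 1) {u v t t' : ι → ℝ}
    (huv : ∀ x, u x ≤ v x) (ht' : ∀ x, 0 ≤ t' x) (htt : ∀ x, t' x ≤ 2 * t x) (x : ι) :
    Vp net k q s v t' x ≤ 2 * Vp net k q s u t x := by
  classical
  have hS : ∀ z, 1 ≤ SSt net k t' z ∧ SSt net k t' z ≤ 2 * SSt net k t z := by
    intro z
    unfold SSt
    have h1 : 0 ≤ k ^ (1 / 16 : ℝ) := Real.rpow_nonneg hk.le _
    have h2 : 0 ≤ ∑ w, (1 / 2 : ℝ) ^ net.dist z w * t' w :=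
      Finset.sum_nonneg fun w _ => mul_nonneg (by positivity) (ht' w)
    have h3 : ∑ w, (1 / 2 : ℝ) ^ net.dist z w * t' w ≤
        2 * ∑ w, (1 / 2 : ℝ) ^ net.dist z w * t w := by
      rw [Finset.mul_sum]
      refine Finset.sum_le_sum fun w _ => ?_
      have := mul_le_mul_of_nonneg_left (htt w) (by positivity : (0:ℝ) ≤ (1 / 2) ^ net.dist z w)
      linarith
    have h4 := mul_nonneg h1 h2
    have h5 := mul_le_mul_of_nonneg_left h3 h1
    constructor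
    · linarith
    · linarith
  have hT : ∀ z, ENNReal.ofReal (2 ^ (-q)) * ENNReal.ofReal (Tz net k q u t x z) ≤
      ENNReal.ofReal (Tz net k q v t' x z) := by
    intro z
    rw [← ENNReal.ofReal_mul (Real.rpow_nonneg (by norm_num) _)]
    refine ENNReal.ofReal_le_ofReal ?_
    unfold Tz
    obtain ⟨h1, h2⟩ := hS z
    have hSt : 0 < SSt net k t z := by linarith
    have h3 : (2 : ℝ) ^ (-q) * SSt net k t z ^ (-q) ≤ SSt net k t' z ^ (-q) := by
      rw [← Real.mul_rpow (by norm_num) hSt.le]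
      exact Real.rpow_le_rpow_of_nonpos (by linarith) h2 (by linarith)
    have h4 : 0 ≤ (k ^ (1 / 4 : ℝ)) ^ net.dist x z := pow_nonneg (Real.rpow_nonneg hk.le _) _
    have h5 : 0 ≤ (2 : ℝ) ^ (-q) * SSt net k t z ^ (-q) :=
      mul_nonneg (Real.rpow_nonneg (by norm_num) _) (Real.rpow_nonneg hSt.le _)
    calc (2 : ℝ) ^ (-q) * ((k ^ (1 / 4 : ℝ)) ^ net.dist x z * fpot k (u z) *
          SSt net k t z ^ (-q))
        = (k ^ (1 / 4 : ℝ)) ^ net.dist x z * fpot k (u z) *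
          (2 ^ (-q) * SSt net k t z ^ (-q)) := by ring
      _ ≤ (k ^ (1 / 4 : ℝ)) ^ net.dist x z * fpot k (v z) * SSt net k t' z ^ (-q) := by
          refine mul_le_mul (mul_le_mul_of_nonneg_left (Obe2_fpot_mono hk hk1 (huv z)) h4) h3 h5
            (mul_nonneg h4 (Obe2_fpot_nonneg k _))
  unfold Vp
  have hsup : ENNReal.ofReal (2 ^ (-q)) *
      (Finset.univ.sup fun z => ENNReal.ofReal (Tz net k q u t x z)) ≤
      Finset.univ.sup fun z => ENNReal.ofReal (Tz net k q v t' x z) := by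
    obtain ⟨z, _, hz⟩ := Finset.exists_mem_eq_sup Finset.univ ⟨x, Finset.mem_univ x⟩
      (fun z => ENNReal.ofReal (Tz net k q u t x z))
    rw [hz]
    exact (hT z).trans (Finset.le_sup (f := fun z => ENNReal.ofReal (Tz net k q v t' x z))
      (Finset.mem_univ z))
  have htop : (Finset.univ.sup fun z => ENNReal.ofReal (Tz net k q u t x z)) ≠ ⊤ := by
    obtain ⟨z, _, hz⟩ := Finset.exists_mem_eq_sup Finset.univ ⟨x, Finset.mem_univ x⟩
      (fun z => ENNReal.ofReal (Tz net k q u t x z))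
    rw [hz]
    exact ENNReal.ofReal_ne_top
  have h1 : (Finset.univ.sup fun z => ENNReal.ofReal (Tz net k q v t' x z)) ^ (-s) ≤
      (ENNReal.ofReal (2 ^ (-q)) *
        (Finset.univ.sup fun z => ENNReal.ofReal (Tz net k q u t x z))) ^ (-s) := by
    rw [ENNReal.rpow_neg, ENNReal.rpow_neg, ENNReal.inv_le_inv]
    exact ENNReal.rpow_le_rpow hsup hs.le
  refine h1.trans ?_
  rw [ENNReal.mul_rpow_of_ne_top ENNReal.ofReal_ne_top htop]
  refine mul_le_mul_left ?_ _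
  rw [ENNReal.ofReal_rpow_of_pos (Real.rpow_pos_of_pos (by norm_num) _), ← Real.rpow_mul (by norm_num)]
  have h2 : (2 : ℝ) ^ (-q * -s) ≤ 2 := by
    calc (2 : ℝ) ^ (-q * -s) ≤ 2 ^ (1 : ℝ) :=
          Real.rpow_le_rpow_of_exponent_le (by norm_num) (by linarith)
      _ = 2 := Real.rpow_one _
  calc ENNReal.ofReal ((2 : ℝ) ^ (-q * -s)) ≤ ENNReal.ofReal 2 := ENNReal.ofReal_le_ofReal h2
    _ = 2 := by norm_num

/-- comparison of weights -/
private theorem Obe2_wpr {V : Type} [NormedAddCommGroup V] {L : ℕ} {k q s α : ℝ} (hk : 0 < k)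
    (hk1 : k < 1) (hq : 1 ≤ q) (hs : 0 < s) (hqs : q * s ≤ 1) {G G' U H H' : boxS d L → V}
    (hU : U = G ∨ U = G') (hH : ∀ z, ‖U z‖ ≤ ‖H z‖) (hH' : ∀ z, ‖U z‖ ≤ ‖H' z‖)
    (ht : ∀ z, ‖H z‖ ≤ ‖G z‖ + ‖G' z‖) (ht' : ∀ z, ‖H' z‖ ≤ ‖G z‖ + ‖G' z‖) (x : boxS d L) :
    wpr (boxNet d L) k q s α H H' x ≤ 4 * wpr (boxNet d L) k q s α G G' x := by
  unfold wpr
  rw [Finset.mul_sum]
  refine Finset.sum_le_sum fun z _ => ?_
  have hn : ∀ y, (0 : ℝ) ≤ ‖H y‖ + ‖H' y‖ := fun y => by positivity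
  have hb : ∀ y, ‖H y‖ + ‖H' y‖ ≤ 2 * (‖G y‖ + ‖G' y‖) := fun y => by
    have h1 := ht y
    have h2 := ht' y
    linarith
  have h1 := Obe2_Vp (boxNet d L) hk hk1 hq hs hqs (u := fun y => ‖U y‖) (v := fun y => ‖H y‖)
    (t := fun y => ‖G y‖ + ‖G' y‖) (t' := fun y => ‖H y‖ + ‖H' y‖) hH hn hb z
  have h2 := Obe2_Vp (boxNet d L) hk hk1 hq hs hqs (u := fun y => ‖U y‖) (v := fun y => ‖H' y‖)
    (t := fun y => ‖G y‖ + ‖G' y‖) (t' := fun y => ‖H y‖ + ‖H' y‖) hH' hn hb z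
  have h3 : Vp (boxNet d L) k q s (fun y => ‖U y‖) (fun y => ‖G y‖ + ‖G' y‖) z ≤
      Vp (boxNet d L) k q s (fun y => ‖G y‖) (fun y => ‖G y‖ + ‖G' y‖) z +
        Vp (boxNet d L) k q s (fun y => ‖G' y‖) (fun y => ‖G y‖ + ‖G' y‖) z := by
    rcases hU with rfl | rfl
    · exact le_self_add
    · exact le_add_self
  calc _ ≤ ENNReal.ofReal (α ^ (boxNet d L).dist x z) *
        (2 * Vp (boxNet d L) k q s (fun y => ‖U y‖) (fun y => ‖G y‖ + ‖G' y‖) z +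
          2 * Vp (boxNet d L) k q s (fun y => ‖U y‖) (fun y => ‖G y‖ + ‖G' y‖) z) :=
        mul_le_mul_right (add_le_add h1 h2) _
    _ = 4 * (ENNReal.ofReal (α ^ (boxNet d L).dist x z) *
        Vp (boxNet d L) k q s (fun y => ‖U y‖) (fun y => ‖G y‖ + ‖G' y‖) z) := by ring
    _ ≤ _ := mul_le_mul_right (mul_le_mul_right h3 _) _

/-- one leg of the path -/
private theorem Obe2_leg {V : Type} [NormedAddCommGroup V] {L : ℕ} {k q s α θ : ℝ} (hk : 0 < k)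
    (hk1 : k < 1) (hq : 1 ≤ q) (hs : 0 < s) (hqs : q * s ≤ 1)
    {A : boxS d L → ℝ} (hA : ∀ x, 0 ≤ A x) {ε : ℝ} (he : 0 ≤ ε) {f : (boxS d L → V) → ℂ}
    (hf : Cls (boxNet d L) k q s α θ A ε f) {G G' U M : boxS d L → V}
    (hU : U = G ∨ U = G') (hUM : ∀ z, ‖U z‖ ≤ ‖M z‖) (hM : ∀ z, ‖M z‖ ≤ ‖G z‖ + ‖G' z‖) :
    ENNReal.ofReal ‖f U - f M‖ ≤
      ∑ x, ENNReal.ofReal (4 * A x * ‖U x - M x‖ ^ θ) * wpr (boxNet d L) k q s α G G' x +
        ENNReal.ofReal ((Fintype.card (boxS d L)) * (ε * (1 + 2 * ∑ x, (‖G x‖ + ‖G' x‖)))) := by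
  classical
  have hUG : ∀ z, ‖U z‖ ≤ ‖G z‖ + ‖G' z‖ := fun z => (hUM z).trans (hM z)
  have hE : 0 ≤ ε * (1 + 2 * ∑ x, (‖G x‖ + ‖G' x‖)) := by
    have : 0 ≤ ∑ x, (‖G x‖ + ‖G' x‖) := Finset.sum_nonneg fun x _ => by positivity
    positivity
  have key : ∀ T : Finset (boxS d L),
      ENNReal.ofReal ‖f U - f (fun x => if x ∈ T then M x else U x)‖ ≤
      ∑ x ∈ T, ENNReal.ofReal (4 * A x * ‖U x - M x‖ ^ θ) * wpr (boxNet d L) k q s α G G' x +
        ENNReal.ofReal (T.card * (ε * (1 + 2 * ∑ x, (‖G x‖ + ‖G' x‖)))) := by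
    intro T
    induction T using Finset.induction_on with
    | empty => simp
    | insert y T hy ih =>
      set H : boxS d L → V := fun x => if x ∈ T then M x else U x with hHdef
      set H' : boxS d L → V := fun x => if x ∈ insert y T then M x else U x with hH'def
      have hd : ∀ x, x ≠ y → H x = H' x := by
        intro x hx
        simp only [hHdef, hH'def, Finset.mem_insert, hx, false_or]
      have hHy : H y = U y := by simp only [hHdef, hy, if_false]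
      have hH'y : H' y = M y := by
        simp only [hH'def, Finset.mem_insert_self, if_true]
      have b1 : ∀ z, ‖U z‖ ≤ ‖H z‖ := by
        intro z
        simp only [hHdef]
        split_ifs
        · exact hUM z
        · exact le_rfl
      have b2 : ∀ z, ‖U z‖ ≤ ‖H' z‖ := by
        intro z
        simp only [hH'def]
        split_ifs
        · exact hUM z
        · exact le_rfl
      have c1 : ∀ z, ‖H z‖ ≤ ‖G z‖ + ‖G' z‖ := by
        intro z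
        simp only [hHdef]
        split_ifs
        · exact hM z
        · exact hUG z
      have c2 : ∀ z, ‖H' z‖ ≤ ‖G z‖ + ‖G' z‖ := by
        intro z
        simp only [hH'def]
        split_ifs
        · exact hM z
        · exact hUG z
      have h1 := hf H H' y hd
      rw [hHy, hH'y] at h1
      have h2 := Obe2_wpr (α := α) hk hk1 hq hs hqs hU b1 b2 c1 c2 y
      have h3 : ENNReal.ofReal (ε * (1 + ∑ x, (‖H x‖ + ‖H' x‖))) ≤
          ENNReal.ofReal (ε * (1 + 2 * ∑ x, (‖G x‖ + ‖G' x‖))) := by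
        refine ENNReal.ofReal_le_ofReal (mul_le_mul_of_nonneg_left ?_ he)
        rw [Finset.mul_sum]
        refine add_le_add le_rfl (Finset.sum_le_sum fun x _ => ?_)
        have e1 := c1 x
        have e2 := c2 x
        linarith
      have h4 : ENNReal.ofReal (A y * ‖U y - M y‖ ^ θ) * wpr (boxNet d L) k q s α H H' y ≤
          ENNReal.ofReal (4 * A y * ‖U y - M y‖ ^ θ) * wpr (boxNet d L) k q s α G G' y := by
        calc _ ≤ ENNReal.ofReal (A y * ‖U y - M y‖ ^ θ) *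
              (4 * wpr (boxNet d L) k q s α G G' y) := mul_le_mul_right h2 _
          _ = _ := by
            rw [mul_assoc 4 (A y) _, ENNReal.ofReal_mul (by norm_num : (0 : ℝ) ≤ 4)]
            rw [ENNReal.ofReal_ofNat]
            ring
      have h5 : ENNReal.ofReal ‖f U - f H'‖ ≤
          ENNReal.ofReal ‖f U - f H‖ + ENNReal.ofReal ‖f H - f H'‖ := by
        rw [← ENNReal.ofReal_add (norm_nonneg _) (norm_nonneg _)]
        exact ENNReal.ofReal_le_ofReal (norm_sub_le_norm_sub_add_norm_sub _ _ _)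
      rw [Finset.sum_insert hy, Finset.card_insert_of_notMem hy]
      have h6 : ENNReal.ofReal (((T.card + 1 : ℕ) : ℝ) *
          (ε * (1 + 2 * ∑ x, (‖G x‖ + ‖G' x‖)))) =
          ENNReal.ofReal (T.card * (ε * (1 + 2 * ∑ x, (‖G x‖ + ‖G' x‖)))) +
            ENNReal.ofReal (ε * (1 + 2 * ∑ x, (‖G x‖ + ‖G' x‖))) := by
        rw [← ENNReal.ofReal_add (mul_nonneg (Nat.cast_nonneg _) hE) hE]
        congr 1
        push_cast
        ring
      rw [h6]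
      refine h5.trans ((add_le_add ih (h1.trans (add_le_add h4 h3))).trans (le_of_eq ?_))
      ring
  have hu := key Finset.univ
  have hM' : (fun x => if x ∈ (Finset.univ : Finset (boxS d L)) then M x else U x) = M := by
    funext x
    rw [if_pos (Finset.mem_univ x)]
  rw [hM', Finset.card_univ] at hu
  exact hu

theorem tele {V : Type} [NormedAddCommGroup V] {L : ℕ} (k q s α θ : ℝ) (hk : 0 < k) (hk1 : k < 1)
    (hq : 1 ≤ q) (hs : 0 < s) (hqs : q * s ≤ 1) (hα : 0 ≤ α) (hθ : 0 < θ)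
    (A : boxS d L → ℝ) (hA : ∀ x, 0 ≤ A x) (ε : ℝ) (he : 0 ≤ ε) (f : (boxS d L → V) → ℂ)
    (hf : Cls (boxNet d L) k q s α θ A ε f) (G G' : boxS d L → V) :
    ENNReal.ofReal ‖f G - f G'‖ ≤
      ∑ x, ENNReal.ofReal (4 * A x * ‖G x - G' x‖ ^ θ) * wpr (boxNet d L) k q s α G G' x +
        ENNReal.ofReal (2 * (Fintype.card (boxS d L)) * ε * (1 + 2 * ∑ x, (‖G x‖ + ‖G' x‖))) := by
  classical
  set M : boxS d L → V := fun x => if ‖G x‖ < ‖G' x‖ then G' x else G x with hMdef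
  have h1 : ∀ z, ‖G z‖ ≤ ‖M z‖ := by
    intro z
    simp only [hMdef]
    split_ifs with h
    · exact h.le
    · exact le_rfl
  have h2 : ∀ z, ‖G' z‖ ≤ ‖M z‖ := by
    intro z
    simp only [hMdef]
    split_ifs with h
    · exact le_rfl
    · exact not_lt.1 h
  have h3 : ∀ z, ‖M z‖ ≤ ‖G z‖ + ‖G' z‖ := by
    intro z
    simp only [hMdef]
    split_ifs with h
    · linarith [norm_nonneg (G z)]
    · linarith [norm_nonneg (G' z)]
  have l1 := Obe2_leg hk hk1 hq hs hqs hA he hf (Or.inl rfl : G = G ∨ G = G') h1 h3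
  have l2 := Obe2_leg hk hk1 hq hs hqs hA he hf (Or.inr rfl : G' = G ∨ G' = G') h2 h3
  have h4 : ENNReal.ofReal ‖f G - f G'‖ ≤
      ENNReal.ofReal ‖f G - f M‖ + ENNReal.ofReal ‖f G' - f M‖ := by
    rw [← ENNReal.ofReal_add (norm_nonneg _) (norm_nonneg _)]
    refine ENNReal.ofReal_le_ofReal ?_
    rw [norm_sub_rev (f G') (f M)]
    exact norm_sub_le_norm_sub_add_norm_sub _ _ _
  have hE : 0 ≤ ε * (1 + 2 * ∑ x, (‖G x‖ + ‖G' x‖)) := by
    have : 0 ≤ ∑ x, (‖G x‖ + ‖G' x‖) := Finset.sum_nonneg fun x _ => by positivity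
    positivity
  have h5 : ENNReal.ofReal (2 * (Fintype.card (boxS d L)) * ε *
      (1 + 2 * ∑ x, (‖G x‖ + ‖G' x‖))) =
      ENNReal.ofReal ((Fintype.card (boxS d L)) * (ε * (1 + 2 * ∑ x, (‖G x‖ + ‖G' x‖)))) +
      ENNReal.ofReal ((Fintype.card (boxS d L)) * (ε * (1 + 2 * ∑ x, (‖G x‖ + ‖G' x‖)))) := by
    rw [← ENNReal.ofReal_add (by positivity) (by positivity)]
    congr 1
    ring
  have h6 : ∑ x, ENNReal.ofReal (4 * A x * ‖G x - G' x‖ ^ θ) * wpr (boxNet d L) k q s α G G' x =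
      ∑ x, ENNReal.ofReal (4 * A x * ‖G x - M x‖ ^ θ) * wpr (boxNet d L) k q s α G G' x +
      ∑ x, ENNReal.ofReal (4 * A x * ‖G' x - M x‖ ^ θ) * wpr (boxNet d L) k q s α G G' x := by
    rw [← Finset.sum_add_distrib]
    refine Finset.sum_congr rfl fun x _ => ?_
    by_cases h : ‖G x‖ < ‖G' x‖
    · have hM : M x = G' x := by simp only [hMdef, h, if_true]
      rw [hM, sub_self, norm_zero, Real.zero_rpow hθ.ne', mul_zero, ENNReal.ofReal_zero, zero_mul,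
        add_zero]
    · have hM : M x = G x := by simp only [hMdef, h, if_false]
      rw [hM, sub_self, norm_zero, Real.zero_rpow hθ.ne', mul_zero, ENNReal.ofReal_zero, zero_mul,
        zero_add, norm_sub_rev (G' x) (G x)]
  rw [h5, h6]
  refine h4.trans ((add_le_add l1 l2).trans (le_of_eq ?_))
  ring

/-- one step of the path integral -/
private theorem Obe2_succ {X St : Type} [MeasurableSpace X] [MeasurableSpace St] {μ : Measure X}
    [IsProbabilityMeasure μ] (f : St → X → St) (hf : Measurable fun p : St × X => f p.1 p.2)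
    (s : St) (n : ℕ) (Φ : St → ℝ≥0∞) (hΦ : Measurable Φ) :
    ∫⁻ ω, Φ (traj f s ω (n + 1)) ∂(PI μ) =
      ∫⁻ ω, ∫⁻ ξ, Φ (f (traj f s ω n) ξ) ∂μ ∂(PI μ) := by
  have hm : ∀ m, Measurable fun ω : ℕ → X => traj f s ω m := fun m =>
    (measurable_traj f hf m).comp (measurable_const.prodMk measurable_id)
  rw [lintegral_glue n (fun ω => Φ (traj f s ω (n + 1))) (hΦ.comp (hm (n + 1)))]
  refine lintegral_congr fun a => ?_
  have h1 : ∀ b : ℕ → X, traj f s (glue n a b) (n + 1) = f (traj f s a n) (b 0) := fun b =>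
    traj_glue_add f s n a b 1
  simp_rw [h1]
  have h2 : Measurable fun ξ : X => Φ (f (traj f s a n) ξ) :=
    hΦ.comp (hf.comp (measurable_const.prodMk measurable_id))
  have h3 := lintegral_map (μ := PI μ) h2 (measurable_pi_apply (0 : ℕ))
  rw [map_coord] at h3
  exact h3.symm

/-- laws of a component of a coupled chain -/
private theorem Obe2_marg {X Y St St' : Type} [MeasurableSpace X] [MeasurableSpace Y]
    [MeasurableSpace St] [MeasurableSpace St'] {μ : Measure X} [IsProbabilityMeasure μ]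
    {ν : Measure Y} [IsProbabilityMeasure ν]
    (f : St → X → St) (hf : Measurable fun p : St × X => f p.1 p.2)
    (g : St' → Y → St') (hg : Measurable fun p : St' × Y => g p.1 p.2)
    (π : St → St') (hπ : Measurable π)
    (hfg : ∀ s, μ.map (fun ξ => π (f s ξ)) = ν.map (fun ξ => g (π s) ξ)) (s : St) (n : ℕ) :
    (PI μ).map (fun ω => π (traj f s ω n)) = (PI ν).map (fun ω => traj g (π s) ω n) := by
  have hm : ∀ m, Measurable fun ω : ℕ → X => traj f s ω m := fun m =>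
    (measurable_traj f hf m).comp (measurable_const.prodMk measurable_id)
  have hm' : ∀ m, Measurable fun ω : ℕ → Y => traj g (π s) ω m := fun m =>
    (measurable_traj g hg m).comp (measurable_const.prodMk measurable_id)
  induction n with
  | zero =>
    show (PI μ).map (fun _ => π s) = (PI ν).map (fun _ => π s)
    rw [Measure.map_const, Measure.map_const, measure_univ, measure_univ]
  | succ n ih =>
    refine Measure.ext_of_lintegral _ fun Φ hΦ => ?_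
    have hc : ∀ m, Measurable fun ω : ℕ → X => π (traj f s ω m) := fun m => hπ.comp (hm m)
    rw [lintegral_map hΦ (hc (n + 1)), lintegral_map hΦ (hm' (n + 1))]
    rw [Obe2_succ f hf s n (fun x => Φ (π x)) (hΦ.comp hπ), Obe2_succ g hg (π s) n Φ hΦ]
    have h1 : ∀ x : St, ∫⁻ ξ, Φ (π (f x ξ)) ∂μ = ∫⁻ ξ, Φ (g (π x) ξ) ∂ν := by
      intro x
      have e1 : Measurable fun ξ : X => π (f x ξ) :=
        hπ.comp (hf.comp (measurable_const.prodMk measurable_id))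
      have e2 : Measurable fun ξ : Y => g (π x) ξ :=
        hg.comp (measurable_const.prodMk measurable_id)
      rw [← lintegral_map (μ := μ) hΦ e1, ← lintegral_map (μ := ν) hΦ e2, hfg]
    simp_rw [h1]
    have h2 : Measurable fun v : St' => ∫⁻ ξ, Φ (g v ξ) ∂ν :=
      Measurable.lintegral_prod_right' (f := fun p : St' × Y => Φ (g p.1 p.2)) (hΦ.comp hg)
    rw [← lintegral_map (μ := PI μ) h2 (hc n), ih, lintegral_map h2 (hm' n)]

/-- laws of the components of the pair -/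
theorem tr_marg {F : Fam d} {β k : ℝ} (S : PSys F β k) (h : ℝ) (L : ℕ)
    (G : (boxS d L → F.V) × (boxS d L → F.V)) (n : ℕ) :
    (PI (S.mu L)).map (fun ω => (S.tr h L G ω n).1) =
        (PI (F.mu L)).map (fun ω => traj (F.st h L) G.1 ω n) ∧
      (PI (S.mu L)).map (fun ω => (S.tr h L G ω n).2) =
        (PI (F.mu L)).map (fun ω => traj (F.st h L) G.2 ω n) := by
  refine ⟨?_, ?_⟩
  · exact Obe2_marg (μ := S.mu L) (ν := F.mu L) (S.st h L) (S.mst h L) (F.st h L) (F.mst h L)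
      Prod.fst measurable_fst (fun s => S.marg1 h L s) G n
  · exact Obe2_marg (μ := S.mu L) (ν := F.mu L) (S.st h L) (S.mst h L) (F.st h L) (F.mst h L)
      Prod.snd measurable_snd (fun s => S.marg2 h L s) G n

end DynC
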