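import Pool.Agent.Lib_MP_36b788c.Obe3

/-!
# Initial laws

PROOF.
* `V_start`: i.i.d. law `ρ` without atom at `0`: choose `δ0 ∈ (0,1]` with `ρ(‖v‖ ≥ δ0) ≥ 1/2`. The event `E_L`: for some site `x` of the box there is no site `z` with `‖G z‖ ≥ δ0` within distance `L`. There are at least
  `r + 1` sites within distance `r ≤ L` of `x` (move in one coordinate direction), so `P(no such site within r) ≤ 2^{-(r+1)}` and `P(E_L) ≤ |box| 2^{-L} → 0`. Off `E_L` let `r` = distance from `x` to the nearest such site `z`: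
  `V1(x)² ≤ (k^{r/4} fpot(δ0) SSt(z)^{-q})^{-2s} = k^{-rs/2} fpot(δ0)^{-2s} SSt(z)^{2qs}`. Sum over `z`: `E[V1(x)²; E_L^c] ≤ Σ_z k^{-s|x-z|/2} fpot(δ0)^{-2s} E[1{nearest at distance |x-z|} SSt(z)^{2qs}]`, Cauchy-Schwarz:
  `≤ Σ_z k^{-s|x-z|/2} C 2^{-|x-z|/2} (E SSt(z)^{4qs})^{1/2}`, `E SSt ≤ 1 + 3^d E‖v‖`, `4qs ≤ 1`; converges uniformly in `L` if `k^{-s/2} 2^{-1/2} ≤ 9/10`... (hypothesis `hks : k^{-s} ≤ 11/10`, and the number of `z` at distance `r` is at most `(2r+1)^d`).
* `V_all`: pair system started at `(G, 0)`: the second component stays `0` on good noise (`q2`). `m_j = (E[V1(x)²(tr (j n_B)); alv, E_L^c])^{1/2} ≤ κ' m_{j-1} + CV` (`ly`, Minkowski in the initial configuration, Markov property by `lintegral_glue`), `κ' ≤ 1/2`, then `gV` for the remainder.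
  So `E[V1(x)²(tr n); alv, E_L^c] ≤ CI` uniformly in `n, L, h, x`.
* `mom` gives `E[‖G_n x‖; alv] ≤ CM (1 + E Yl) ≤ C`.
* `init_of_blk`: `G = G_{n1}`, `G' = G'_{n2}` independent (two independent copies of the system started from `(G_0,0)`, `(G'_0,0)`). `tele` and `Cls`: `‖f G - f G'‖ ≤ Σ 4A(x) D(x)^θ w(x) + …`. `E[D(x)^θ w(x); good] ≤ (E D^{2θ})^{1/2} (E w²)^{1/2}`,
  `D^{2θ} ≤ 1 + ‖G x‖ + ‖G' x‖`. For the joint `S`: `SSt(u+u') ≤ SSt(u) SSt(u')`, so with `z* = z*(G)` the maximizer for `G` alone, `V1(G,G')(x) ≤ V1(G,0)(x) SSt(u')(z*)^{qs}` and by independence `E[V1(G,G')(x)²; good] ≤ E[V1(G,0)(x)²; good] sup_z E[SSt(u')(z)^{2qs}; good] ≤ C`.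
  Minkowski over `z` in `wpr`. The exceptional events: `E_L` (probability `≤ η/8` for `L ≥ L1`), `alv^c` (`exit`, `E Σ‖G_0‖ < ∞`), on which `‖f G - f G'‖ ≤ 2`. Additive term: `sum`.
-/

open MeasureTheory ProbabilityTheory
open scoped ENNReal

namespace DynC

open Dyn

variable {d : ℕ}


/-! ### Geometric sums over the box -/

private theorem Obe3a_mem {d L : ℕ} (x : Fin d → ℤ) :
    x ∈ boxS d L ↔ ∀ i, -(L : ℤ) ≤ x i ∧ x i ≤ L := by
  unfold boxS
  rw [Finset.mem_Icc, Pi.le_def, Pi.le_def]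
  constructor
  · rintro ⟨h1, h2⟩ i; exact ⟨h1 i, h2 i⟩
  · intro h; exact ⟨fun i => (h i).1, fun i => (h i).2⟩

private theorem Obe3a_pi (d L : ℕ) :
    boxS d L = Fintype.piFinset (fun _ : Fin d => Finset.Icc (-(L : ℤ)) L) := by
  ext x
  rw [Obe3a_mem, Fintype.mem_piFinset]
  simp only [Finset.mem_Icc]

private theorem Obe3a_card (d L : ℕ) : Fintype.card (boxS d L) = (2 * L + 1) ^ d := by
  rw [Fintype.card_coe, Obe3a_pi, Fintype.card_piFinset]
  simp only [Int.card_Icc, Finset.prod_const, Finset.card_univ, Fintype.card_fin]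
  congr 1
  omega

private theorem Obe3a_one (a : ℝ) (h0 : 0 ≤ a) (h1 : a < 1) (s : Finset ℤ) (m : ℤ) :
    ∑ n ∈ s, a ^ (m - n).natAbs ≤ (1 - a)⁻¹ + a * (1 - a)⁻¹ := by
  classical
  have hg : Summable (fun k : ℕ => a ^ k) := summable_geometric_of_lt_one h0 h1
  have hnn : ∀ k : ℕ, 0 ≤ a ^ k := fun k => pow_nonneg h0 k
  have e1 : ∑' k : ℕ, a ^ k = (1 - a)⁻¹ := tsum_geometric_of_lt_one h0 h1
  have e2 : ∑' k : ℕ, a ^ (k + 1) = a * (1 - a)⁻¹ := by
    rw [← e1, ← tsum_mul_left]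
    exact tsum_congr fun k => by ring
  rw [← e2, ← e1]
  rw [← Finset.sum_filter_add_sum_filter_not s (fun n => n ≤ m)]
  refine add_le_add ?_ ?_
  · have hinj : Set.InjOn (fun n : ℤ => (m - n).natAbs) (s.filter (fun n => n ≤ m)) := by
      intro a ha b hb hab
      have ha' := (Finset.mem_filter.mp (Finset.mem_coe.mp ha)).2
      have hb' := (Finset.mem_filter.mp (Finset.mem_coe.mp hb)).2
      simp only at hab
      omega
    have h1 : ∑ n ∈ s.filter (fun n => n ≤ m), a ^ (m - n).natAbs =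
        ∑ k ∈ (s.filter (fun n => n ≤ m)).image (fun n : ℤ => (m - n).natAbs), a ^ k := by
      rw [Finset.sum_image hinj]
    rw [h1]
    exact hg.sum_le_tsum _ (fun k _ => hnn k)
  · have hg' : Summable (fun k : ℕ => a ^ (k + 1)) := (summable_nat_add_iff 1).mpr hg
    have hinj : Set.InjOn (fun n : ℤ => (m - n).natAbs - 1) (s.filter (fun n => ¬ n ≤ m)) := by
      intro a ha b hb hab
      have ha' := (Finset.mem_filter.mp (Finset.mem_coe.mp ha)).2
      have hb' := (Finset.mem_filter.mp (Finset.mem_coe.mp hb)).2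
      simp only at hab
      omega
    have h1 : ∑ n ∈ s.filter (fun n => ¬ n ≤ m), a ^ (m - n).natAbs =
        ∑ k ∈ (s.filter (fun n => ¬ n ≤ m)).image (fun n : ℤ => (m - n).natAbs - 1),
          a ^ (k + 1) := by
      rw [Finset.sum_image hinj]
      refine Finset.sum_congr rfl fun n hn => ?_
      have hn' := (Finset.mem_filter.mp hn).2
      congr 1
      omega
    rw [h1]
    exact hg'.sum_le_tsum _ (fun k _ => hnn (k + 1))

private theorem Obe3a_geom (a : ℝ) (h0 : 0 ≤ a) (h1 : a < 1) (d L : ℕ) (x : boxS d L) :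
    ∑ z, a ^ (boxNet d L).dist x z ≤ ((1 - a)⁻¹ + a * (1 - a)⁻¹) ^ d := by
  have e1 : ∑ z : boxS d L, a ^ (boxNet d L).dist x z =
      ∑ z ∈ boxS d L, ∏ i, a ^ ((x : Fin d → ℤ) i - z i).natAbs := by
    rw [← Finset.sum_coe_sort (boxS d L)
      (fun z => ∏ i, a ^ ((x : Fin d → ℤ) i - z i).natAbs)]
    refine Finset.sum_congr rfl fun z _ => ?_
    rw [boxNet_dist, Finset.prod_pow_eq_pow_sum]
    rfl
  have e2 : ∀ y : Fin d → ℤ, ∑ z ∈ boxS d L, ∏ i, a ^ (y i - z i).natAbs =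
      ∏ i, ∑ n ∈ Finset.Icc (-(L : ℤ)) L, a ^ (y i - n).natAbs := by
    intro y
    rw [Obe3a_pi, Finset.prod_univ_sum]
  rw [e1, e2 (x : Fin d → ℤ)]
  calc ∏ i : Fin d, ∑ n ∈ Finset.Icc (-(L : ℤ)) L, a ^ ((x : Fin d → ℤ) i - n).natAbs
      ≤ ∏ _i : Fin d, ((1 - a)⁻¹ + a * (1 - a)⁻¹) :=
        Finset.prod_le_prod (fun i _ => Finset.sum_nonneg fun n _ => pow_nonneg h0 _)
          (fun i _ => Obe3a_one a h0 h1 _ _)
    _ = _ := by simp

/-! ### Sites near a given site -/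

private theorem Obe3a_upd {d : ℕ} (x : Fin d → ℤ) (i : Fin d) (v : ℤ) :
    l1 x (Function.update x i v) = (x i - v).natAbs := by
  unfold l1
  rw [← Finset.add_sum_erase Finset.univ (fun j => (x j - (Function.update x i v) j).natAbs)
      (Finset.mem_univ i)]
  have h : ∑ j ∈ Finset.univ.erase i, (x j - (Function.update x i v) j).natAbs = 0 := by
    refine Finset.sum_eq_zero fun j hj => ?_
    rw [Function.update_of_ne (Finset.ne_of_mem_erase hj)]
    simp
  rw [h]
  simp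

private theorem Obe3a_near {d L : ℕ} (hd : 1 ≤ d) (x : boxS d L) (m : ℕ) (hm : m ≤ L) :
    ∃ T : Finset (boxS d L), T.card = m + 1 ∧ ∀ z ∈ T, (boxNet d L).dist x z ≤ m := by
  classical
  let i0 : Fin d := ⟨0, hd⟩
  have hx := (Obe3a_mem (x : Fin d → ℤ)).mp x.2
  obtain ⟨sg, hsg1, hsg⟩ : ∃ sg : ℤ, (sg = 1 ∨ sg = -1) ∧
      ∀ j : ℕ, j ≤ L → -(L : ℤ) ≤ (x : Fin d → ℤ) i0 + sg * j ∧
        (x : Fin d → ℤ) i0 + sg * j ≤ L := by
    have h0 := hx i0
    rcases le_total ((x : Fin d → ℤ) i0) 0 with h | h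
    · refine ⟨1, Or.inl rfl, fun j hj => ?_⟩
      constructor <;> omega
    · refine ⟨-1, Or.inr rfl, fun j hj => ?_⟩
      constructor <;> omega
  have hmem : ∀ j : ℕ, j ≤ L →
      Function.update (x : Fin d → ℤ) i0 ((x : Fin d → ℤ) i0 + sg * j) ∈ boxS d L := by
    intro j hj
    rw [Obe3a_mem]
    intro i
    by_cases hi : i = i0
    · subst hi
      rw [Function.update_self]
      exact hsg j hj
    · rw [Function.update_of_ne hi]
      exact hx i
  let g : Fin (m + 1) → boxS d L := fun j =>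
    ⟨Function.update (x : Fin d → ℤ) i0 ((x : Fin d → ℤ) i0 + sg * ((j : ℕ) : ℤ)),
      hmem j (by have := j.2; omega)⟩
  have hinj : Function.Injective g := by
    intro a b hab
    have h1 := congrArg (fun z : boxS d L => (z : Fin d → ℤ) i0) hab
    simp only [g, Function.update_self] at h1
    have h2 : ((a : ℕ) : ℤ) = ((b : ℕ) : ℤ) := by
      rcases hsg1 with h | h <;> subst h <;> omega
    exact Fin.ext (by exact_mod_cast h2)
  refine ⟨Finset.univ.image g, ?_, ?_⟩
  · rw [Finset.card_image_of_injective _ hinj]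
    simp
  · intro z hz
    obtain ⟨j, _, rfl⟩ := Finset.mem_image.mp hz
    rw [boxNet_dist]
    simp only [g]
    rw [Obe3a_upd]
    have h1 := j.2
    rcases hsg1 with h | h <;> subst h <;> omega

/-! ### The potential is monotone -/

private theorem Obe3a_gX {a b : ℝ} (h : a ≤ b) : gX a ≤ gX b := by
  unfold gX
  split_ifs <;> nlinarith [sq_nonneg (a + 1 / 4), sq_nonneg (b + 1 / 4), sq_nonneg (a - b)]

private theorem Obe3a_fpos {k v : ℝ} (hv : 0 < v) : 0 < fpot k v := by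
  unfold fpot
  rw [if_neg (not_le.mpr hv)]
  exact Real.exp_pos _

private theorem Obe3a_fmono {k v w : ℝ} (hk : 0 < k) (hk1 : k < 1) (hv : 0 < v) (h : v ≤ w) :
    fpot k v ≤ fpot k w := by
  have hell : 0 < ell k := by
    unfold ell
    rw [one_div, Real.log_inv]
    have := Real.log_neg hk hk1
    linarith
  unfold fpot
  rw [if_neg (not_le.mpr hv), if_neg (not_le.mpr (hv.trans_le h))]
  refine Real.exp_le_exp.mpr (mul_le_mul_of_nonneg_left (Obe3a_gX ?_) hell.le)
  exact div_le_div_of_nonneg_right (Real.log_le_log hv h) hell.le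

/-! ### Probability estimates -/

section prob

variable {V : Type} [NormedAddCommGroup V] [MeasurableSpace V] [BorelSpace V]

/-- all sites of `T` are small -/
private theorem Obe3a_small {ι : Type} [Fintype ι] (ρ : Measure V) [IsProbabilityMeasure ρ]
    (δ0 : ℝ) (hδ : ρ {v | ‖v‖ < δ0} ≤ 1 / 2) (T : Finset ι) (m : ℕ) (hm : m ≤ T.card) :
    Measure.pi (fun _ : ι => ρ) {G | ∀ z ∈ T, ‖G z‖ < δ0} ≤ (1 / 2) ^ m := by
  classical
  have h1 : {G : ι → V | ∀ z ∈ T, ‖G z‖ < δ0} =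
      Set.pi Set.univ (fun z => if z ∈ T then {v | ‖v‖ < δ0} else Set.univ) := by
    ext G
    simp only [Set.mem_ofPred_eq, Set.mem_pi, Set.mem_univ, true_implies]
    constructor
    · intro h z
      by_cases hz : z ∈ T
      · rw [if_pos hz]; exact h z hz
      · rw [if_neg hz]; trivial
    · intro h z hz
      have := h z
      rw [if_pos hz] at this
      exact this
  rw [h1, Measure.pi_pi]
  have h2 : ∏ z, ρ (if z ∈ T then {v | ‖v‖ < δ0} else Set.univ) =
      ∏ z ∈ T, ρ {v | ‖v‖ < δ0} := by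
    rw [← Finset.prod_subset (Finset.subset_univ T)]
    · exact Finset.prod_congr rfl fun z hz => by rw [if_pos hz]
    · intro z _ hz
      rw [if_neg hz]
      exact measure_univ
  rw [h2, Finset.prod_const]
  calc ρ {v | ‖v‖ < δ0} ^ T.card ≤ (1 / 2) ^ T.card := by gcongr
    _ ≤ (1 / 2) ^ m := pow_le_pow_right_of_le_one' (by
        rw [one_div]; exact ENNReal.inv_le_one.mpr (by norm_num)) hm

private theorem Obe3a_delta (ρ : Measure V) [IsProbabilityMeasure ρ] (h0 : ρ {0} = 0) :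
    ∃ δ0 : ℝ, 0 < δ0 ∧ ρ {v | ‖v‖ < δ0} ≤ 1 / 2 := by
  have hm : ∀ n : ℕ, NullMeasurableSet {v : V | ‖v‖ < 1 / ((n : ℝ) + 1)} ρ := fun n =>
    (measurableSet_lt measurable_norm measurable_const).nullMeasurableSet
  have hanti : Antitone (fun n : ℕ => {v : V | ‖v‖ < 1 / ((n : ℝ) + 1)}) := by
    intro a b hab v hv
    simp only [Set.mem_ofPred_eq] at hv ⊢
    refine lt_of_lt_of_le hv ?_
    have : (a : ℝ) ≤ b := by exact_mod_cast hab
    exact one_div_le_one_div_of_le (by positivity) (by linarith)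
  have ht := tendsto_measure_iInter_atTop hm hanti ⟨0, measure_ne_top ρ _⟩
  have hI : (⋂ n : ℕ, {v : V | ‖v‖ < 1 / ((n : ℝ) + 1)}) = {0} := by
    ext v
    simp only [Set.mem_iInter, Set.mem_ofPred_eq, Set.mem_singleton_iff]
    constructor
    · intro h
      by_contra hv
      have hpos : 0 < ‖v‖ := norm_pos_iff.mpr hv
      obtain ⟨n, hn⟩ := exists_nat_one_div_lt hpos
      exact absurd (h n) (not_lt.mpr hn.le)
    · rintro rfl n
      rw [norm_zero]
      positivity
  rw [hI, h0] at ht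
  have hev := ht.eventually (gt_mem_nhds (show (0 : ℝ≥0∞) < 1 / 2 by simp))
  obtain ⟨n, hn⟩ := hev.exists
  exact ⟨1 / ((n : ℝ) + 1), by positivity, hn.le⟩

private theorem Obe3a_EL {d L : ℕ} (hd : 1 ≤ d) (ρ : Measure V) [IsProbabilityMeasure ρ]
    (δ0 : ℝ) (hδ : ρ {v | ‖v‖ < δ0} ≤ 1 / 2) :
    Measure.pi (fun _ : boxS d L => ρ) (EL d L δ0) ≤
      ENNReal.ofReal (((2 * L + 1 : ℕ) : ℝ) ^ d * (1 / 2) ^ (L + 1)) := by
  classical
  choose T hT1 hT2 using fun x : boxS d L => Obe3a_near hd x L le_rfl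
  have hsub : EL d L δ0 ⊆ ⋃ x : boxS d L, {G : boxS d L → V | ∀ z ∈ T x, ‖G z‖ < δ0} := by
    rintro G ⟨x, hx⟩
    exact Set.mem_iUnion.mpr ⟨x, fun z hz => hx z (hT2 x z hz)⟩
  refine (measure_mono hsub).trans ((measure_iUnion_fintype_le _ _).trans ?_)
  calc ∑ x : boxS d L, Measure.pi (fun _ : boxS d L => ρ)
        {G : boxS d L → V | ∀ z ∈ T x, ‖G z‖ < δ0}
      ≤ ∑ _x : boxS d L, (1 / 2 : ℝ≥0∞) ^ (L + 1) :=
        Finset.sum_le_sum fun x _ => Obe3a_small ρ δ0 hδ (T x) (L + 1) (hT1 x).ge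
    _ = ENNReal.ofReal (((2 * L + 1 : ℕ) : ℝ) ^ d * (1 / 2) ^ (L + 1)) := by
        rw [Finset.sum_const, Finset.card_univ, Obe3a_card, nsmul_eq_mul,
          ENNReal.ofReal_mul (by positivity), ENNReal.ofReal_pow (by positivity),
          ENNReal.ofReal_pow (by positivity), ENNReal.ofReal_natCast]
        congr 1
        · push_cast; rfl
        · congr 1
          rw [ENNReal.ofReal_div_of_pos (by norm_num)]
          simp

private theorem Obe3a_tend (d : ℕ) (η : ℝ) (hη : 0 < η) : ∃ L1 : ℕ, ∀ L, L1 ≤ L →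
    ((2 * L + 1 : ℕ) : ℝ) ^ d * (1 / 2) ^ (L + 1) ≤ η := by
  have h1 := tendsto_pow_const_mul_const_pow_of_abs_lt_one d
    (show |(1 / 2 : ℝ)| < 1 by rw [abs_of_pos] <;> norm_num)
  have h2 := h1.const_mul ((3 : ℝ) ^ d)
  rw [mul_zero] at h2
  have h3 := h2.eventually (gt_mem_nhds hη)
  obtain ⟨n, hn⟩ := Filter.eventually_atTop.mp h3
  refine ⟨max n 1, fun L hL => ?_⟩
  have h4 := hn L ((le_max_left _ _).trans hL)
  have hL1 : (1 : ℝ) ≤ L := by exact_mod_cast (le_max_right n 1).trans hL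
  refine le_trans ?_ h4.le
  have h5 : ((2 * L + 1 : ℕ) : ℝ) ^ d ≤ (3 * (L : ℝ)) ^ d := by
    refine pow_le_pow_left₀ (by positivity) ?_ d
    push_cast
    linarith
  calc ((2 * L + 1 : ℕ) : ℝ) ^ d * (1 / 2) ^ (L + 1) ≤ (3 * (L : ℝ)) ^ d * (1 / 2) ^ L := by
        refine mul_le_mul h5 ?_ (by positivity) (by positivity)
        exact pow_le_pow_of_le_one (by norm_num) (by norm_num) (Nat.le_succ L)
    _ = 3 ^ d * ((L : ℝ) ^ d * (1 / 2) ^ L) := by rw [mul_pow]; ring

end prob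

/-! ### The potential off the bad event -/

section main

variable {V : Type} [NormedAddCommGroup V]

/-- no site closer to `x` than `z` is large, `z` is within distance `L` -/
private def Obe3a_A {d L : ℕ} (δ0 : ℝ) (x z : boxS d L) : Set (boxS d L → V) :=
  {G | (boxNet d L).dist x z ≤ L ∧
    ∀ y, (boxNet d L).dist x y < (boxNet d L).dist x z → ‖G y‖ < δ0}

private theorem Obe3a_S1 {d L : ℕ} {k : ℝ} (hk : 0 < k) (t : boxS d L → ℝ)
    (ht : ∀ y, 0 ≤ t y) (z : boxS d L) : 1 ≤ SSt (boxNet d L) k t z := by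
  unfold SSt
  have : 0 ≤ k ^ (1 / 16 : ℝ) * ∑ w, (1 / 2 : ℝ) ^ (boxNet d L).dist z w * t w :=
    mul_nonneg (Real.rpow_nonneg hk.le _)
      (Finset.sum_nonneg fun w _ => mul_nonneg (by positivity) (ht w))
  linarith

/-- value of `V1²` at the nearest large site -/
private theorem Obe3a_val {d L : ℕ} {k q s : ℝ} (hk : 0 < k) (hk1 : k < 1) (hs : 0 < s)
    (hqs : 4 * q * s ≤ 1) (δ0 : ℝ) (hδ : 0 < δ0) (G : boxS d L → V) (x z : boxS d L)
    (hz : δ0 ≤ ‖G z‖) :
    V1 k q s (G, (0 : boxS d L → V)) x ^ 2 ≤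
      ENNReal.ofReal ((k ^ (-(s / 2))) ^ (boxNet d L).dist x z * fpot k δ0 ^ (-(2 * s)) *
        SSt (boxNet d L) k (fun y => ‖G y‖) z ^ (1 / 2 : ℝ)) := by
  set r := (boxNet d L).dist x z with hr
  set S := SSt (boxNet d L) k (fun y => ‖G y‖) z with hSdef
  have hS : 1 ≤ S := Obe3a_S1 hk _ (fun y => norm_nonneg _) z
  have hS0 : 0 < S := by linarith
  have hfz : 0 < fpot k ‖G z‖ := Obe3a_fpos (hδ.trans_le hz)
  have hf0 : 0 < fpot k δ0 := Obe3a_fpos hδ
  have ht : (fun y => ‖(G, (0 : boxS d L → V)).1 y‖ + ‖(G, (0 : boxS d L → V)).2 y‖) =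
      fun y => ‖G y‖ := by
    funext y
    simp
  have hTpos : 0 < Tz (boxNet d L) k q (fun y => ‖G y‖) (fun y => ‖G y‖) x z := by
    unfold Tz
    positivity
  have h1 : V1 k q s (G, (0 : boxS d L → V)) x ≤
      ENNReal.ofReal (Tz (boxNet d L) k q (fun y => ‖G y‖) (fun y => ‖G y‖) x z ^ (-s)) := by
    unfold V1
    rw [ht]
    unfold Vp
    rw [← ENNReal.ofReal_rpow_of_pos hTpos, ENNReal.rpow_neg, ENNReal.rpow_neg]
    refine ENNReal.inv_le_inv.mpr (ENNReal.rpow_le_rpow ?_ hs.le)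
    exact Finset.le_sup (f := fun z => ENNReal.ofReal
      (Tz (boxNet d L) k q (fun y => ‖G y‖) (fun y => ‖G y‖) x z)) (Finset.mem_univ z)
  refine (pow_le_pow_left' h1 2).trans ?_
  rw [← ENNReal.ofReal_pow (Real.rpow_nonneg hTpos.le _)]
  refine ENNReal.ofReal_le_ofReal ?_
  have e0 : (Tz (boxNet d L) k q (fun y => ‖G y‖) (fun y => ‖G y‖) x z ^ (-s)) ^ 2 =
      Tz (boxNet d L) k q (fun y => ‖G y‖) (fun y => ‖G y‖) x z ^ (-(2 * s)) := by
    rw [← Real.rpow_natCast, ← Real.rpow_mul hTpos.le]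
    congr 1
    push_cast
    ring
  rw [e0]
  have e1 : Tz (boxNet d L) k q (fun y => ‖G y‖) (fun y => ‖G y‖) x z ^ (-(2 * s)) =
      (k ^ (-(s / 2))) ^ r * fpot k ‖G z‖ ^ (-(2 * s)) * S ^ (2 * q * s) := by
    unfold Tz
    rw [← hr, ← hSdef]
    rw [Real.mul_rpow (by positivity) (by positivity), Real.mul_rpow (by positivity) hfz.le,
      ← Real.rpow_mul hS0.le]
    congr 1
    · congr 1
      rw [← Real.rpow_natCast, ← Real.rpow_mul hk.le, ← Real.rpow_mul hk.le,
        ← Real.rpow_natCast, ← Real.rpow_mul hk.le]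
      congr 1
      ring
    · congr 1
      ring
  rw [e1]
  have e2 : fpot k ‖G z‖ ^ (-(2 * s)) ≤ fpot k δ0 ^ (-(2 * s)) :=
    Real.rpow_le_rpow_of_nonpos hf0 (Obe3a_fmono hk hk1 hδ hz) (by linarith)
  have e3 : S ^ (2 * q * s) ≤ S ^ (1 / 2 : ℝ) :=
    Real.rpow_le_rpow_of_exponent_le hS (by linarith)
  have e4 : 0 ≤ (k ^ (-(s / 2))) ^ r := pow_nonneg (Real.rpow_nonneg hk.le _) _
  have e5 : 0 ≤ fpot k ‖G z‖ ^ (-(2 * s)) := Real.rpow_nonneg hfz.le _
  have e6 : 0 ≤ S ^ (2 * q * s) := Real.rpow_nonneg hS0.le _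
  exact mul_le_mul (mul_le_mul_of_nonneg_left e2 e4) e3 e6 (mul_nonneg e4 (e5.trans e2))

/-- numerical inequality -/
private theorem Obe3a_amgm (e S : ℝ) (he : 0 < e) (hS : 0 ≤ S) :
    S ^ (1 / 2 : ℝ) ≤ 1 / (2 * e) + e / 2 * S := by
  rw [← Real.sqrt_eq_rpow]
  have h1 : Real.sqrt S ^ 2 = S := Real.sq_sqrt hS
  have h2 : 0 ≤ (1 / e) * (e * Real.sqrt S - 1) ^ 2 := by positivity
  have h3 : (1 / e) * (e * Real.sqrt S - 1) ^ 2 = e * S - 2 * Real.sqrt S + 1 / e := by
    have : (e * Real.sqrt S - 1) ^ 2 = e ^ 2 * (Real.sqrt S ^ 2) - 2 * e * Real.sqrt S + 1 := by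
      ring
    rw [this, h1]
    field_simp
  have h4 : 1 / (2 * e) = (1 / e) / 2 := by field_simp
  rw [h4]
  linarith

/-- pointwise bound off the bad event -/
private theorem Obe3a_pt {d L : ℕ} {k q s : ℝ} (hk : 0 < k) (hk1 : k < 1) (hs : 0 < s)
    (hqs : 4 * q * s ≤ 1) (δ0 : ℝ) (hδ : 0 < δ0) (e : ℝ) (he : 0 < e) (G : boxS d L → V)
    (hG : G ∈ (EL d L δ0)ᶜ) (x : boxS d L) :
    V1 k q s (G, (0 : boxS d L → V)) x ^ 2 ≤
      ∑ z, ENNReal.ofReal ((k ^ (-(s / 2))) ^ (boxNet d L).dist x z * fpot k δ0 ^ (-(2 * s))) *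
        (ENNReal.ofReal (1 / (2 * e ^ (boxNet d L).dist x z)) *
            (Obe3a_A δ0 x z).indicator 1 G +
          ENNReal.ofReal (e ^ (boxNet d L).dist x z / 2) *
            ENNReal.ofReal (SSt (boxNet d L) k (fun y => ‖G y‖) z)) := by
  classical
  have h1 : ∃ z, (boxNet d L).dist x z ≤ L ∧ δ0 ≤ ‖G z‖ := by
    by_contra hc
    push Not at hc
    exact hG ⟨x, hc⟩
  obtain ⟨z0, hz0L, hz0⟩ := h1
  obtain ⟨z, hz, hmin⟩ := Finset.exists_min_image
    (Finset.univ.filter fun z : boxS d L => δ0 ≤ ‖G z‖) (fun z => (boxNet d L).dist x z)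
    ⟨z0, Finset.mem_filter.mpr ⟨Finset.mem_univ _, hz0⟩⟩
  have hz' := (Finset.mem_filter.mp hz).2
  have hA : G ∈ Obe3a_A δ0 x z := by
    refine ⟨(hmin z0 (Finset.mem_filter.mpr ⟨Finset.mem_univ _, hz0⟩)).trans hz0L, ?_⟩
    intro y hy
    by_contra hc
    exact absurd (hmin y (Finset.mem_filter.mpr ⟨Finset.mem_univ _, not_lt.mp hc⟩))
      (not_le.mpr hy)
  have h2 := Obe3a_val hk hk1 hs hqs δ0 hδ G x z hz'
  refine h2.trans ?_
  refine le_trans ?_ (Finset.single_le_sum (f := fun z =>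
    ENNReal.ofReal ((k ^ (-(s / 2))) ^ (boxNet d L).dist x z * fpot k δ0 ^ (-(2 * s))) *
        (ENNReal.ofReal (1 / (2 * e ^ (boxNet d L).dist x z)) *
            (Obe3a_A δ0 x z).indicator 1 G +
          ENNReal.ofReal (e ^ (boxNet d L).dist x z / 2) *
            ENNReal.ofReal (SSt (boxNet d L) k (fun y => ‖G y‖) z)))
    (fun _ _ => bot_le) (Finset.mem_univ z))
  rw [ENNReal.ofReal_mul (by
    have := Obe3a_fpos (k := k) hδ
    positivity)]
  refine mul_le_mul_right ?_ _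
  rw [Set.indicator_of_mem hA, Pi.one_apply, mul_one]
  have hS : 0 ≤ SSt (boxNet d L) k (fun y => ‖G y‖) z :=
    le_trans zero_le_one (Obe3a_S1 hk _ (fun y => norm_nonneg _) z)
  rw [← ENNReal.ofReal_mul (by positivity), ← ENNReal.ofReal_add (by positivity)
    (mul_nonneg (by positivity) hS)]
  exact ENNReal.ofReal_le_ofReal (Obe3a_amgm _ _ (pow_pos he _) hS)

end main

section main2

variable {V : Type} [NormedAddCommGroup V] [MeasurableSpace V] [BorelSpace V]

private theorem Obe3a_mA {d L : ℕ} (δ0 : ℝ) (x z : boxS d L) :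
    MeasurableSet (Obe3a_A (V := V) δ0 x z) := by
  have : Obe3a_A (V := V) δ0 x z = {G | (boxNet d L).dist x z ≤ L} ∩
      ⋂ y, {G : boxS d L → V | (boxNet d L).dist x y < (boxNet d L).dist x z → ‖G y‖ < δ0} := by
    ext G
    simp only [Obe3a_A, Set.mem_inter_iff, Set.mem_iInter, Set.mem_ofPred_eq]
  rw [this]
  refine MeasurableSet.inter (MeasurableSet.const _) (MeasurableSet.iInter fun y => ?_)
  by_cases h : (boxNet d L).dist x y < (boxNet d L).dist x z
  · have : {G : boxS d L → V | (boxNet d L).dist x y < (boxNet d L).dist x z → ‖G y‖ < δ0} =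
        {G | ‖G y‖ < δ0} := by
      ext G; simp [h]
    rw [this]
    exact measurableSet_lt ((measurable_pi_apply y).norm) measurable_const
  · have : {G : boxS d L → V | (boxNet d L).dist x y < (boxNet d L).dist x z → ‖G y‖ < δ0} =
        Set.univ := by
      ext G; simp [h]
    rw [this]
    exact MeasurableSet.univ

private theorem Obe3a_PA {d L : ℕ} (hd : 1 ≤ d) (ρ : Measure V) [IsProbabilityMeasure ρ]
    (δ0 : ℝ) (hδ : ρ {v | ‖v‖ < δ0} ≤ 1 / 2) (x z : boxS d L) :
    Measure.pi (fun _ : boxS d L => ρ) (Obe3a_A δ0 x z) ≤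
      ENNReal.ofReal ((1 / 2) ^ (boxNet d L).dist x z) := by
  have hhalf : ENNReal.ofReal ((1 / 2 : ℝ) ^ (boxNet d L).dist x z) =
      (1 / 2 : ℝ≥0∞) ^ (boxNet d L).dist x z := by
    rw [ENNReal.ofReal_pow (by positivity)]
    congr 1
    rw [ENNReal.ofReal_div_of_pos (by norm_num)]
    simp
  rw [hhalf]
  by_cases hL : (boxNet d L).dist x z ≤ L
  · rcases Nat.eq_zero_or_pos ((boxNet d L).dist x z) with h0 | h0
    · rw [h0, pow_zero]
      exact prob_le_one
    · obtain ⟨T, hT1, hT2⟩ := Obe3a_near hd x ((boxNet d L).dist x z - 1) (by omega)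
      refine le_trans (measure_mono ?_) (Obe3a_small ρ δ0 hδ T _ (show _ ≤ T.card by omega))
      intro G hG w hw
      exact hG.2 w (by have := hT2 w hw; omega)
  · have : Obe3a_A (V := V) δ0 x z = ∅ := by
      ext G
      simp [Obe3a_A, hL]
    rw [this, measure_empty]
    exact bot_le

/-- mean of `S` -/
private theorem Obe3a_mean {d L : ℕ} {k : ℝ} (hk : 0 < k) (hk1 : k < 1) (ρ : Measure V)
    [IsProbabilityMeasure ρ] (h1 : Integrable (fun v : V => ‖v‖) ρ) (z : boxS d L) :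
    ∫⁻ G, ENNReal.ofReal (SSt (boxNet d L) k (fun y => ‖G y‖) z)
        ∂(Measure.pi (fun _ : boxS d L => ρ)) ≤
      ENNReal.ofReal (1 + 3 ^ d * ∫ v, ‖v‖ ∂ρ) := by
  have hM : 0 ≤ ∫ v, ‖v‖ ∂ρ := integral_nonneg fun v => norm_nonneg v
  have hmp : ∀ w : boxS d L, MeasurePreserving (Function.eval w)
      (Measure.pi (fun _ : boxS d L => ρ)) ρ := fun w =>
    measurePreserving_eval (fun _ : boxS d L => ρ) w
  have hi : ∀ w : boxS d L, Integrable (fun G : boxS d L → V => ‖G w‖)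
      (Measure.pi (fun _ : boxS d L => ρ)) := fun w =>
    (hmp w).integrable_comp_of_integrable h1
  have he : ∀ w : boxS d L, ∫ G : boxS d L → V, ‖G w‖ ∂(Measure.pi (fun _ : boxS d L => ρ)) =
      ∫ v, ‖v‖ ∂ρ := by
    intro w
    have h2 := integral_map (μ := Measure.pi (fun _ : boxS d L => ρ))
      (φ := Function.eval w) (hmp w).measurable.aemeasurable
      (f := fun v : V => ‖v‖) (by rw [(hmp w).map_eq]; exact h1.aestronglyMeasurable)
    rw [(hmp w).map_eq] at h2
    exact h2.symm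
  have hint : Integrable (fun G : boxS d L → V => SSt (boxNet d L) k (fun y => ‖G y‖) z)
      (Measure.pi (fun _ : boxS d L => ρ)) := by
    unfold SSt
    exact (integrable_const _).add ((integrable_finsetSum _
      fun w _ => (hi w).const_mul _).const_mul _)
  rw [← ofReal_integral_eq_lintegral_ofReal hint (Filter.Eventually.of_forall fun G =>
    le_trans zero_le_one (Obe3a_S1 hk _ (fun y => norm_nonneg _) z))]
  refine ENNReal.ofReal_le_ofReal ?_
  unfold SSt
  rw [integral_add (integrable_const _) ((integrable_finsetSum _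
      fun w _ => (hi w).const_mul _).const_mul _), integral_const_mul,
    integral_finsetSum _ fun w _ => (hi w).const_mul _]
  have e1 : ∑ w, ∫ G : boxS d L → V, (1 / 2 : ℝ) ^ (boxNet d L).dist z w * ‖G w‖
      ∂(Measure.pi (fun _ : boxS d L => ρ)) =
      (∑ w, (1 / 2 : ℝ) ^ (boxNet d L).dist z w) * ∫ v, ‖v‖ ∂ρ := by
    rw [Finset.sum_mul]
    exact Finset.sum_congr rfl fun w _ => by rw [integral_const_mul, he w]
  rw [e1]
  have e2 := (boxNet d L).sum_half z
  have e3 : k ^ (1 / 16 : ℝ) ≤ 1 := Real.rpow_le_one hk.le hk1.le (by norm_num)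
  have e4 : 0 ≤ k ^ (1 / 16 : ℝ) := Real.rpow_nonneg hk.le _
  have e5 : 0 ≤ ∑ w, (1 / 2 : ℝ) ^ (boxNet d L).dist z w :=
    Finset.sum_nonneg fun w _ => by positivity
  have e6 : k ^ (1 / 16 : ℝ) * ((∑ w, (1 / 2 : ℝ) ^ (boxNet d L).dist z w) * ∫ v, ‖v‖ ∂ρ) ≤
      3 ^ d * ∫ v, ‖v‖ ∂ρ := by
    calc k ^ (1 / 16 : ℝ) * ((∑ w, (1 / 2 : ℝ) ^ (boxNet d L).dist z w) * ∫ v, ‖v‖ ∂ρ)
        ≤ 1 * ((∑ w, (1 / 2 : ℝ) ^ (boxNet d L).dist z w) * ∫ v, ‖v‖ ∂ρ) :=
          mul_le_mul_of_nonneg_right e3 (mul_nonneg e5 hM)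
      _ ≤ 3 ^ d * ∫ v, ‖v‖ ∂ρ := by
          rw [one_mul]
          exact mul_le_mul_of_nonneg_right e2 hM
  simpa using e6

end main2

theorem V_start {V : Type} [NormedAddCommGroup V] [InnerProductSpace ℝ V] [MeasurableSpace V]
    [BorelSpace V] [SecondCountableTopology V]
    (d : ℕ) (hd : 1 ≤ d)
    (k q s : ℝ) (hk : 0 < k) (hk1 : k < 1) (hq : 1 ≤ q) (hs : 0 < s) (hqs : 4 * q * s ≤ 1)
    (hks : k ^ (-s) ≤ 11 / 10) (ρ : Measure V) [IsProbabilityMeasure ρ] (h0 : ρ {0} = 0)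
    (h2 : Integrable (fun x : V => ‖x‖ ^ 2) ρ) :
    ∃ δ0 C : ℝ, 0 < δ0 ∧ 0 ≤ C ∧
      (∀ η : ℝ, 0 < η → ∃ L1 : ℕ, ∀ L, L1 ≤ L →
        Measure.pi (fun _ : boxS d L => ρ) (EL d L δ0) ≤ ENNReal.ofReal η) ∧
      ∀ (L : ℕ) (x : boxS d L),
        ∫⁻ G in (EL d L δ0)ᶜ, V1 k q s (G, (0 : boxS d L → V)) x ^ 2
          ∂(Measure.pi (fun _ : boxS d L => ρ)) ≤ ENNReal.ofReal C := by
  obtain ⟨δ0, hδ0, hδ⟩ := Obe3a_delta ρ h0
  have h1 : Integrable (fun v : V => ‖v‖) ρ := by
    refine Integrable.mono' ((integrable_const (1 : ℝ)).add h2) continuous_norm.aestronglyMeasurable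
      (Filter.Eventually.of_forall fun v => ?_)
    rw [norm_norm]
    simp only [Pi.add_apply]
    nlinarith [sq_nonneg (‖v‖ - 1), norm_nonneg v]
  set M : ℝ := ∫ v, ‖v‖ ∂ρ with hMdef
  have hM : 0 ≤ M := integral_nonneg fun v => norm_nonneg v
  have hf0 : 0 < fpot k δ0 := Obe3a_fpos hδ0
  set e : ℝ := Real.sqrt (1 / 2) with hedef
  have he : 0 < e := Real.sqrt_pos.mpr (by norm_num)
  have he2 : e * e = 1 / 2 := Real.mul_self_sqrt (by norm_num)
  set κ : ℝ := k ^ (-(s / 2)) with hκdef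
  have hκ0 : 0 < κ := Real.rpow_pos_of_pos hk _
  have hκe : κ * e ≤ 3 / 4 := by
    have h3 : κ * κ = k ^ (-s) := by
      rw [hκdef, ← Real.rpow_add hk]
      congr 1
      ring
    have h4 : (κ * e) ^ 2 ≤ (3 / 4) ^ 2 := by
      calc (κ * e) ^ 2 = (κ * κ) * (e * e) := by ring
        _ ≤ (11 / 10) * (1 / 2) := by
            rw [h3, he2]
            linarith
        _ ≤ (3 / 4) ^ 2 := by norm_num
    exact (abs_le_of_sq_le_sq' h4 (by norm_num)).2
  set F : ℝ := fpot k δ0 ^ (-(2 * s)) with hFdef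
  have hF : 0 < F := Real.rpow_pos_of_pos hf0 _
  refine ⟨δ0, F * ((1 / 2 + (1 + 3 ^ d * M) / 2)) * 7 ^ d, hδ0, by positivity, ?_, ?_⟩
  · intro η hη
    obtain ⟨L1, hL1⟩ := Obe3a_tend d η hη
    exact ⟨L1, fun L hL => (Obe3a_EL hd ρ δ0 hδ).trans (ENNReal.ofReal_le_ofReal (hL1 L hL))⟩
  · intro L x
    have hmEL : MeasurableSet ((EL d L δ0)ᶜ : Set (boxS d L → V)) := by
      refine MeasurableSet.compl ?_
      have : (EL d L δ0 : Set (boxS d L → V)) = ⋃ x, ⋂ z,
          {G : boxS d L → V | (boxNet d L).dist x z ≤ L → ‖G z‖ < δ0} := by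
        ext G
        simp only [EL, Set.mem_iUnion, Set.mem_iInter, Set.mem_ofPred_eq]
      rw [this]
      refine MeasurableSet.iUnion fun x => MeasurableSet.iInter fun z => ?_
      by_cases h : (boxNet d L).dist x z ≤ L
      · have : {G : boxS d L → V | (boxNet d L).dist x z ≤ L → ‖G z‖ < δ0} =
            {G | ‖G z‖ < δ0} := by
          ext G; simp [h]
        rw [this]
        exact measurableSet_lt ((measurable_pi_apply z).norm) measurable_const
      · have : {G : boxS d L → V | (boxNet d L).dist x z ≤ L → ‖G z‖ < δ0} = Set.univ := by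
          ext G; simp [h]
        rw [this]
        exact MeasurableSet.univ
    have hmS : ∀ z : boxS d L, Measurable (fun G : boxS d L → V =>
        ENNReal.ofReal (SSt (boxNet d L) k (fun y => ‖G y‖) z)) := by
      intro z
      refine ENNReal.measurable_ofReal.comp ?_
      unfold SSt
      refine measurable_const.add (measurable_const.mul ?_)
      exact Finset.measurable_fun_sum _ fun w _ =>
        measurable_const.mul ((measurable_pi_apply w).norm)
    calc ∫⁻ G in (EL d L δ0)ᶜ, V1 k q s (G, (0 : boxS d L → V)) x ^ 2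
          ∂(Measure.pi (fun _ : boxS d L => ρ))
        ≤ ∫⁻ G in (EL d L δ0)ᶜ, ∑ z, ENNReal.ofReal (κ ^ (boxNet d L).dist x z * F) *
        (ENNReal.ofReal (1 / (2 * e ^ (boxNet d L).dist x z)) *
            (Obe3a_A δ0 x z).indicator 1 G +
          ENNReal.ofReal (e ^ (boxNet d L).dist x z / 2) *
            ENNReal.ofReal (SSt (boxNet d L) k (fun y => ‖G y‖) z))
          ∂(Measure.pi (fun _ : boxS d L => ρ)) := by
          refine setLIntegral_mono' hmEL fun G hG => ?_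
          exact Obe3a_pt hk hk1 hs hqs δ0 hδ0 e he G hG x
      _ ≤ ∫⁻ G, ∑ z, ENNReal.ofReal (κ ^ (boxNet d L).dist x z * F) *
        (ENNReal.ofReal (1 / (2 * e ^ (boxNet d L).dist x z)) *
            (Obe3a_A δ0 x z).indicator 1 G +
          ENNReal.ofReal (e ^ (boxNet d L).dist x z / 2) *
            ENNReal.ofReal (SSt (boxNet d L) k (fun y => ‖G y‖) z))
          ∂(Measure.pi (fun _ : boxS d L => ρ)) := setLIntegral_le_lintegral _ _
      _ = ∑ z, ENNReal.ofReal (κ ^ (boxNet d L).dist x z * F) *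
        (ENNReal.ofReal (1 / (2 * e ^ (boxNet d L).dist x z)) *
            Measure.pi (fun _ : boxS d L => ρ) (Obe3a_A δ0 x z) +
          ENNReal.ofReal (e ^ (boxNet d L).dist x z / 2) *
            ∫⁻ G, ENNReal.ofReal (SSt (boxNet d L) k (fun y => ‖G y‖) z)
              ∂(Measure.pi (fun _ : boxS d L => ρ))) := by
          rw [lintegral_finsetSum]
          · refine Finset.sum_congr rfl fun z _ => ?_
            rw [lintegral_const_mul, lintegral_add_left, lintegral_const_mul,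
              lintegral_const_mul, lintegral_indicator_one (Obe3a_mA δ0 x z)]
            · exact hmS z
            · exact measurable_one.indicator (Obe3a_mA δ0 x z)
            · exact measurable_const.mul (measurable_one.indicator (Obe3a_mA δ0 x z))
            · exact (measurable_const.mul (measurable_one.indicator (Obe3a_mA δ0 x z))).add
                (measurable_const.mul (hmS z))
          · intro z _
            exact measurable_const.mul ((measurable_const.mul
              (measurable_one.indicator (Obe3a_mA δ0 x z))).add (measurable_const.mul (hmS z)))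
      _ ≤ ∑ z, ENNReal.ofReal ((3 / 4) ^ (boxNet d L).dist x z * F *
          (1 / 2 + (1 + 3 ^ d * M) / 2)) := by
          refine Finset.sum_le_sum fun z _ => ?_
          set r := (boxNet d L).dist x z with hr
          have hPA := Obe3a_PA hd ρ δ0 hδ x z
          have hme := Obe3a_mean (k := k) hk hk1 ρ h1 z
          rw [← hMdef] at hme
          rw [← hr] at hPA
          have her : 0 < e ^ r := pow_pos he r
          calc ENNReal.ofReal (κ ^ r * F) *
              (ENNReal.ofReal (1 / (2 * e ^ r)) *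
                Measure.pi (fun _ : boxS d L => ρ) (Obe3a_A δ0 x z) +
              ENNReal.ofReal (e ^ r / 2) *
                ∫⁻ G, ENNReal.ofReal (SSt (boxNet d L) k (fun y => ‖G y‖) z)
                  ∂(Measure.pi (fun _ : boxS d L => ρ)))
              ≤ ENNReal.ofReal (κ ^ r * F) *
              (ENNReal.ofReal (1 / (2 * e ^ r)) * ENNReal.ofReal ((1 / 2) ^ r) +
              ENNReal.ofReal (e ^ r / 2) * ENNReal.ofReal (1 + 3 ^ d * M)) := by
                gcongr
            _ = ENNReal.ofReal (κ ^ r * F * (1 / (2 * e ^ r) * (1 / 2) ^ r +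
                  e ^ r / 2 * (1 + 3 ^ d * M))) := by
                rw [← ENNReal.ofReal_mul (by positivity), ← ENNReal.ofReal_mul (by positivity),
                  ← ENNReal.ofReal_add (by positivity) (by positivity),
                  ← ENNReal.ofReal_mul (by positivity)]
            _ ≤ _ := by
                refine ENNReal.ofReal_le_ofReal ?_
                have h5 : (1 / 2 : ℝ) ^ r = e ^ r * e ^ r := by
                  rw [← he2, mul_pow]
                have h6 : 1 / (2 * e ^ r) * (1 / 2) ^ r = e ^ r / 2 := by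
                  rw [h5]
                  field_simp
                rw [h6]
                have h7 : κ ^ r * F * (e ^ r / 2 + e ^ r / 2 * (1 + 3 ^ d * M)) =
                    (κ * e) ^ r * F * (1 / 2 + (1 + 3 ^ d * M) / 2) := by
                  rw [mul_pow]
                  ring
                rw [h7]
                have h8 : (κ * e) ^ r ≤ (3 / 4) ^ r :=
                  pow_le_pow_left₀ (by positivity) hκe r
                have h9 : 0 ≤ 1 / 2 + (1 + 3 ^ d * M) / 2 := by positivity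
                exact mul_le_mul_of_nonneg_right (mul_le_mul_of_nonneg_right h8 hF.le) h9
      _ = ENNReal.ofReal (∑ z, (3 / 4) ^ (boxNet d L).dist x z * F *
          (1 / 2 + (1 + 3 ^ d * M) / 2)) := by
          rw [ENNReal.ofReal_sum_of_nonneg fun z _ => by positivity]
      _ ≤ ENNReal.ofReal (F * ((1 / 2 + (1 + 3 ^ d * M) / 2)) * 7 ^ d) := by
          refine ENNReal.ofReal_le_ofReal ?_
          rw [← Finset.sum_mul, ← Finset.sum_mul]
          have h10 := Obe3a_geom (3 / 4) (by norm_num) (by norm_num) d L x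
          have h11 : ((1 - 3 / 4 : ℝ)⁻¹ + 3 / 4 * (1 - 3 / 4)⁻¹) = 7 := by norm_num
          rw [h11] at h10
          have h12 : 0 ≤ F * (1 / 2 + (1 + 3 ^ d * M) / 2) := by positivity
          calc (∑ z, (3 / 4 : ℝ) ^ (boxNet d L).dist x z) * F * (1 / 2 + (1 + 3 ^ d * M) / 2)
              = (∑ z, (3 / 4 : ℝ) ^ (boxNet d L).dist x z) *
                (F * (1 / 2 + (1 + 3 ^ d * M) / 2)) := by ring
            _ ≤ 7 ^ d * (F * (1 / 2 + (1 + 3 ^ d * M) / 2)) :=
                mul_le_mul_of_nonneg_right h10 h12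
            _ = _ := by ring

end DynC
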