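import Pool.Agent.Lib_MP_36b788c.PSDefs

/-!
# Path space: basic facts

PROOF.
* `PI_prob`, `map_coord`: `Measure.infinitePi` is a probability measure; coordinate marginals by
  `infinitePi_map_restrict`/`infinitePi_map_eval` (Mathlib.Probability.ProductMeasure).
* `map_glue`: use `Measure.eq_infinitePi`: for a finite set `s` and measurable `t i`, the preimage under
  `(a,b) ↦ glue n a b` of the box `s.pi t` is the product of the box `{a | ∀ i∈s, i<n → a i ∈ t i}` and
  `{b | ∀ i∈s, n≤i → b (i-n) ∈ t i}`, whose measures are finite products (`infinitePi_pi`).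
* `traj_glue_*`: induction on the time.
* `lintegral_glue` from `map_glue` and Tonelli.
* `PI_map`: image of an i.i.d. sequence under a coordinatewise map.
-/

open MeasureTheory ProbabilityTheory
open scoped ENNReal

namespace DynC

variable {X : Type} [MeasurableSpace X] {μ : Measure X} [IsProbabilityMeasure μ]

instance PI_prob : IsProbabilityMeasure (PI μ) := by
  unfold PI; infer_instance

theorem measurable_glue (n : ℕ) :
    Measurable (fun p : (ℕ → X) × (ℕ → X) => glue n p.1 p.2) := by
  rw [measurable_pi_iff]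
  intro i
  unfold glue
  by_cases h : i < n
  · simp only [h, if_true]
    exact (measurable_pi_apply i).comp measurable_fst
  · simp only [h, if_false]
    exact (measurable_pi_apply (i - n)).comp measurable_snd

theorem map_glue (n : ℕ) : ((PI μ).prod (PI μ)).map (fun p => glue n p.1 p.2) = PI μ := by
  classical
  conv_rhs => unfold PI
  refine Measure.eq_infinitePi _ ?_
  intro s t ht
  rw [Measure.map_apply (measurable_glue n)
    (MeasurableSet.pi s.countable_toSet (fun i _ => ht i))]
  have hpre : (fun p : (ℕ → X) × (ℕ → X) => glue n p.1 p.2) ⁻¹' ((s : Set ℕ).pi t)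
      = ((((s.filter (fun i => i < n)) : Finset ℕ) : Set ℕ).pi t) ×ˢ
        (((((s.filter (fun i => ¬ i < n)).image (fun i => i - n)) : Finset ℕ) : Set ℕ).pi
          (fun j => t (j + n))) := by
    ext p
    simp only [Set.mem_preimage, Set.mem_pi, Finset.mem_coe, Set.mem_prod, Finset.mem_filter,
      Finset.mem_image, glue]
    constructor
    · intro h
      refine ⟨?_, ?_⟩
      · intro i hi
        have := h i hi.1
        rwa [if_pos hi.2] at this
      · rintro j ⟨i, hi, rfl⟩
        have := h i hi.1
        rw [if_neg hi.2] at this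
        have e : i - n + n = i := by omega
        rwa [e]
    · intro h i hi
      by_cases hin : i < n
      · rw [if_pos hin]
        exact h.1 i ⟨hi, hin⟩
      · rw [if_neg hin]
        have := h.2 (i - n) ⟨i, ⟨hi, hin⟩, rfl⟩
        have e : i - n + n = i := by omega
        rwa [e] at this
  rw [hpre, Measure.prod_prod]
  have h1 : (PI μ) ((((s.filter (fun i => i < n)) : Finset ℕ) : Set ℕ).pi t)
      = ∏ i ∈ s.filter (fun i => i < n), μ (t i) := by
    unfold PI
    exact Measure.infinitePi_pi _ (fun i _ => ht i)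
  have h2 : (PI μ) (((((s.filter (fun i => ¬ i < n)).image (fun i => i - n)) : Finset ℕ) :
      Set ℕ).pi (fun j => t (j + n)))
      = ∏ j ∈ (s.filter (fun i => ¬ i < n)).image (fun i => i - n), μ (t (j + n)) := by
    unfold PI
    exact Measure.infinitePi_pi _ (fun i _ => ht (i + n))
  rw [h1, h2, Finset.prod_image, ← Finset.prod_filter_mul_prod_filter_not s (fun i => i < n)]
  · congr 1
    refine Finset.prod_congr rfl ?_
    intro i hi
    rw [Finset.mem_filter] at hi
    have e : i - n + n = i := by omega
    rw [e]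
  · intro i hi j hj hij
    rw [Finset.mem_coe, Finset.mem_filter] at hi hj
    simp only at hij
    omega

theorem map_coord (i : ℕ) : (PI μ).map (fun ω => ω i) = μ := by
  unfold PI
  exact Measure.infinitePi_map_eval (fun _ : ℕ => μ) i

theorem lintegral_glue (n : ℕ) (F : (ℕ → X) → ℝ≥0∞) (hF : Measurable F) :
    ∫⁻ ω, F ω ∂(PI μ) = ∫⁻ a, ∫⁻ b, F (glue n a b) ∂(PI μ) ∂(PI μ) := by
  conv_lhs => rw [← map_glue (μ := μ) n]
  rw [lintegral_map hF (measurable_glue n), lintegral_prod]
  exact (hF.comp (measurable_glue n)).aemeasurable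

private theorem PS_glue_one (a b : ℕ → X) :
    glue 1 a b = (fun i => Nat.casesOn i (a 0) b) := by
  funext i
  cases i with
  | zero => rfl
  | succ i => simp [glue]

private theorem PS_meas_cons :
    Measurable (fun p : X × (ℕ → X) => (fun i : ℕ => (Nat.casesOn i p.1 p.2 : X))) := by
  rw [measurable_pi_iff]
  intro i
  cases i with
  | zero => exact measurable_fst
  | succ i => exact (measurable_pi_apply i).comp measurable_snd

/-- first coordinate and the rest -/
theorem lintegral_cons (F : (ℕ → X) → ℝ≥0∞) (hF : Measurable F) :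
    ∫⁻ ω, F ω ∂(PI μ) = ∫⁻ a, ∫⁻ ω, F (fun i => Nat.casesOn i a ω) ∂(PI μ) ∂μ := by
  rw [lintegral_glue 1 F hF]
  have hG : Measurable (fun x : X => ∫⁻ ω, F (fun i => Nat.casesOn i x ω) ∂(PI μ)) :=
    Measurable.lintegral_prod_right' (f := fun p : X × (ℕ → X) => F (fun i => Nat.casesOn i p.1 p.2))
      (hF.comp PS_meas_cons)
  have key : ∫⁻ a, (fun x : X => ∫⁻ ω, F (fun i => Nat.casesOn i x ω) ∂(PI μ)) (a 0) ∂(PI μ)
      = ∫⁻ x, (fun x : X => ∫⁻ ω, F (fun i => Nat.casesOn i x ω) ∂(PI μ)) x ∂μ := by
    have h := lintegral_map (μ := PI μ) hG (measurable_pi_apply (0 : ℕ))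
    rw [map_coord] at h
    exact h.symm
  refine Eq.trans ?_ key
  refine lintegral_congr ?_
  intro a
  refine lintegral_congr ?_
  intro b
  rw [PS_glue_one]

theorem integral_glue (n : ℕ) (F : (ℕ → X) → ℂ) (hF : Measurable F) (C : ℝ)
    (hC : ∀ ω, ‖F ω‖ ≤ C) :
    ∫ ω, F ω ∂(PI μ) = ∫ a, ∫ b, F (glue n a b) ∂(PI μ) ∂(PI μ) := by
  conv_lhs => rw [← map_glue (μ := μ) n]
  rw [integral_map (measurable_glue n).aemeasurable hF.aestronglyMeasurable, integral_prod]
  refine Integrable.of_bound (hF.comp (measurable_glue n)).aestronglyMeasurable C ?_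
  exact Filter.Eventually.of_forall (fun p => hC _)

theorem integral_cons (F : (ℕ → X) → ℂ) (hF : Measurable F) (C : ℝ) (hC : ∀ ω, ‖F ω‖ ≤ C) :
    ∫ ω, F ω ∂(PI μ) = ∫ a, ∫ ω, F (fun i => Nat.casesOn i a ω) ∂(PI μ) ∂μ := by
  rw [integral_glue 1 F hF C hC]
  have hG : StronglyMeasurable (fun x : X => ∫ ω, F (fun i => Nat.casesOn i x ω) ∂(PI μ)) := by
    have h0 : StronglyMeasurable
        (F ∘ (fun p : X × (ℕ → X) => (fun i : ℕ => (Nat.casesOn i p.1 p.2 : X)))) :=
      (hF.comp PS_meas_cons).stronglyMeasurable
    exact h0.integral_prod_right'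
  have key : ∫ a, (fun x : X => ∫ ω, F (fun i => Nat.casesOn i x ω) ∂(PI μ)) (a 0) ∂(PI μ)
      = ∫ x, (fun x : X => ∫ ω, F (fun i => Nat.casesOn i x ω) ∂(PI μ)) x ∂μ := by
    have h := integral_map (μ := PI μ) (φ := fun a : ℕ → X => a 0)
      (measurable_pi_apply (0 : ℕ)).aemeasurable
      (f := fun x : X => ∫ ω, F (fun i => Nat.casesOn i x ω) ∂(PI μ)) hG.aestronglyMeasurable
    rw [map_coord] at h
    exact h.symm
  refine Eq.trans ?_ key
  refine integral_congr_ae (Filter.Eventually.of_forall ?_)
  intro a
  refine integral_congr_ae (Filter.Eventually.of_forall ?_)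
  intro b
  simp only [PS_glue_one]

theorem traj_glue_le {St : Type} (f : St → X → St) (s : St) (n : ℕ) (a b : ℕ → X) (j : ℕ)
    (hj : j ≤ n) : traj f s (glue n a b) j = traj f s a j := by
  induction j with
  | zero => rfl
  | succ j ih =>
    have h1 : glue n a b j = a j := by
      unfold glue
      rw [if_pos (by omega)]
    show f (traj f s (glue n a b) j) (glue n a b j) = f (traj f s a j) (a j)
    rw [ih (by omega), h1]

theorem traj_glue_add {St : Type} (f : St → X → St) (s : St) (n : ℕ) (a b : ℕ → X) (m : ℕ) :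
    traj f s (glue n a b) (n + m) = traj f (traj f s a n) b m := by
  induction m with
  | zero => exact traj_glue_le f s n a b n le_rfl
  | succ m ih =>
    have h1 : glue n a b (n + m) = b m := by
      unfold glue
      rw [if_neg (by omega)]
      congr 1
      omega
    show f (traj f s (glue n a b) (n + m)) (glue n a b (n + m)) = f (traj f (traj f s a n) b m) (b m)
    rw [ih, h1]

theorem dep_traj {St : Type} (f : St → X → St) (s : St) (n : ℕ) :
    Dep n (fun ω : ℕ → X => traj f s ω n) := by
  intro a b
  induction n with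
  | zero => intro _; rfl
  | succ n ih =>
    intro h
    show f (traj f s a n) (a n) = f (traj f s b n) (b n)
    have h1 : traj f s a n = traj f s b n := ih (fun i hi => h i (by omega))
    rw [h1, h n (by omega)]

theorem measurable_traj {St : Type} [MeasurableSpace St] (f : St → X → St)
    (hf : Measurable (fun p : St × X => f p.1 p.2)) (n : ℕ) :
    Measurable (fun p : St × (ℕ → X) => traj f p.1 p.2 n) := by
  induction n with
  | zero => exact measurable_fst
  | succ n ih =>
    show Measurable (fun p : St × (ℕ → X) => f (traj f p.1 p.2 n) (p.2 n))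
    exact hf.comp (ih.prodMk ((measurable_pi_apply n).comp measurable_snd))

/-- coordinatewise image of an i.i.d. sequence -/
theorem PI_map {Y : Type} [MeasurableSpace Y] (φ : X → Y) (hφ : Measurable φ)
    [IsProbabilityMeasure (μ.map φ)] : (PI μ).map (fun ω i => φ (ω i)) = PI (μ.map φ) := by
  unfold PI
  exact Measure.infinitePi_map_pi (fun _ : ℕ => μ) (fun _ => hφ)

private theorem PS_meas_blk (m i : ℕ) :
    Measurable (fun ω : ℕ → X => (fun j => ω (m * i + j))) := by
  rw [measurable_pi_iff]
  intro j
  exact measurable_pi_apply _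

private theorem PS_block_prod {Y : Type} [MeasurableSpace Y] (m : ℕ) (φ : (ℕ → X) → Y)
    (hφ : Measurable φ) (hd : Dep m φ) (N : ℕ) :
    ∀ t : ℕ → Set Y, (∀ i, MeasurableSet (t i)) →
      (PI μ) {ω | ∀ i, i < N → φ (fun j => ω (m * i + j)) ∈ t i}
        = ∏ i ∈ Finset.range N, (PI μ) (φ ⁻¹' (t i)) := by
  induction N with
  | zero =>
    intro t _
    simp
  | succ N ih =>
    intro t ht
    have hms : MeasurableSet {ω : ℕ → X | ∀ i, i < N + 1 → φ (fun j => ω (m * i + j)) ∈ t i} := by
      have : {ω : ℕ → X | ∀ i, i < N + 1 → φ (fun j => ω (m * i + j)) ∈ t i}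
          = ⋂ i ∈ Finset.range (N + 1), (fun ω : ℕ → X => φ (fun j => ω (m * i + j))) ⁻¹' (t i) := by
        ext ω
        simp
      rw [this]
      refine Finset.measurableSet_biInter _ ?_
      intro i _
      exact (hφ.comp (PS_meas_blk m i)) (ht i)
    conv_lhs => rw [← map_glue (μ := μ) m]
    rw [Measure.map_apply (measurable_glue m) hms]
    have hpre : (fun p : (ℕ → X) × (ℕ → X) => glue m p.1 p.2) ⁻¹'
        {ω : ℕ → X | ∀ i, i < N + 1 → φ (fun j => ω (m * i + j)) ∈ t i}
        = (φ ⁻¹' (t 0)) ×ˢ {ω : ℕ → X | ∀ i, i < N → φ (fun j => ω (m * i + j)) ∈ t (i + 1)} := by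
      have hz : ∀ a b : ℕ → X, φ (fun j => glue m a b (m * 0 + j)) = φ a := by
        intro a b
        refine hd _ _ ?_
        intro i hi
        unfold glue
        rw [if_pos (by omega)]
        congr 1
        omega
      have hs : ∀ (a b : ℕ → X) (i : ℕ),
          (fun j => glue m a b (m * (i + 1) + j)) = (fun j => b (m * i + j)) := by
        intro a b i
        funext j
        unfold glue
        have e1 : m * (i + 1) = m * i + m := by ring
        rw [if_neg (by rw [e1]; omega)]
        congr 1
        rw [e1]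
        omega
      ext p
      simp only [Set.mem_preimage, Set.mem_ofPred_eq, Set.mem_prod]
      constructor
      · intro h
        refine ⟨?_, ?_⟩
        · have := h 0 (by omega)
          rwa [hz] at this
        · intro i hi
          have := h (i + 1) (by omega)
          rwa [hs] at this
      · rintro ⟨h0, h1⟩ i hi
        cases i with
        | zero => rw [hz]; exact h0
        | succ i => rw [hs]; exact h1 i (by omega)
    rw [hpre, Measure.prod_prod, ih (fun i => t (i + 1)) (fun i => ht (i + 1)),
      Finset.prod_range_succ', mul_comm]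

/-- blocks of length `m` of an i.i.d. sequence are i.i.d.: `φ` is applied to the block
`ω (m i), …, ω (m i + m - 1)`, seen as a sequence of which `φ` uses the first `m` entries only -/
theorem PI_block {Y : Type} [MeasurableSpace Y] (m : ℕ) (hm : 0 < m) (φ : (ℕ → X) → Y)
    (hφ : Measurable φ) (hd : Dep m φ) [IsProbabilityMeasure ((PI μ).map φ)] :
    (PI μ).map (fun ω i => φ (fun j => ω (m * i + j))) = PI ((PI μ).map φ) := by
  classical
  show (PI μ).map (fun ω i => φ (fun j => ω (m * i + j)))
    = Measure.infinitePi (fun _ : ℕ => (PI μ).map φ)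
  refine Measure.eq_infinitePi _ ?_
  intro s t ht
  have hmeas : Measurable (fun (ω : ℕ → X) (i : ℕ) => φ (fun j => ω (m * i + j))) := by
    rw [measurable_pi_iff]
    intro i
    exact hφ.comp (PS_meas_blk m i)
  rw [Measure.map_apply hmeas (MeasurableSet.pi s.countable_toSet (fun i _ => ht i))]
  have hN : ∃ N, ∀ i ∈ s, i < N := ⟨s.sup id + 1, fun i hi => Nat.lt_succ_of_le (Finset.le_sup (f := id) hi)⟩
  obtain ⟨N, hN⟩ := hN
  have hpre : (fun (ω : ℕ → X) (i : ℕ) => φ (fun j => ω (m * i + j))) ⁻¹' ((s : Set ℕ).pi t)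
      = {ω | ∀ i, i < N → φ (fun j => ω (m * i + j)) ∈ (if i ∈ s then t i else Set.univ)} := by
    ext ω
    simp only [Set.mem_preimage, Set.mem_pi, Finset.mem_coe, Set.mem_ofPred_eq]
    constructor
    · intro h i _
      by_cases his : i ∈ s
      · rw [if_pos his]; exact h i his
      · rw [if_neg his]; exact Set.mem_univ _
    · intro h i hi
      have := h i (hN i hi)
      rwa [if_pos hi] at this
  rw [hpre, PS_block_prod m φ hφ hd N (fun i => if i ∈ s then t i else Set.univ) ?_]
  · have hsub : s ⊆ Finset.range N := fun i hi => Finset.mem_range.2 (hN i hi)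
    rw [← Finset.prod_subset hsub]
    · refine Finset.prod_congr rfl ?_
      intro i hi
      rw [if_pos hi, Measure.map_apply hφ (ht i)]
    · intro i _ hi
      rw [if_neg hi]
      simp
  · intro i
    split_ifs
    · exact ht i
    · exact MeasurableSet.univ

end DynC
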