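import Mathlib

/-!
# Path space: definitions

`PI μ` is the law of an i.i.d. sequence with one-step law `μ`. `glue n a b` plays the first `n`
entries of `a` and then the sequence `b`. `traj f s ω` is the state sequence driven by `ω`.
-/

open MeasureTheory ProbabilityTheory
open scoped ENNReal

namespace DynC

noncomputable section

variable {X : Type} [MeasurableSpace X]

/-- law of an i.i.d. sequence -/
def PI (μ : Measure X) [IsProbabilityMeasure μ] : Measure (ℕ → X) :=
  Measure.infinitePi (fun _ : ℕ => μ)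

/-- first `n` entries of `a`, then `b` -/
def glue {X : Type} (n : ℕ) (a b : ℕ → X) : ℕ → X := fun i => if i < n then a i else b (i - n)

/-- state sequence: `traj f s ω (n+1) = f (traj f s ω n) (ω n)` -/
def traj {St X : Type} (f : St → X → St) (s : St) (ω : ℕ → X) : ℕ → St
  | 0 => s
  | n + 1 => f (traj f s ω n) (ω n)

/-- `F` depends only on the first `n` entries -/
def Dep {X A : Type} (n : ℕ) (F : (ℕ → X) → A) : Prop :=
  ∀ a b : ℕ → X, (∀ i, i < n → a i = b i) → F a = F b

/-- Cameron-Martin identity for one variable -/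
def CMart {V : Type} [NormedAddCommGroup V] [InnerProductSpace ℝ V] [MeasurableSpace V]
    (γ : Measure V) : Prop :=
  ∀ (a : V) (Φ : V → ℝ≥0∞), Measurable Φ →
    ∫⁻ ξ, Φ (ξ + a) * ENNReal.ofReal (Real.exp (-(inner ℝ a ξ) - ‖a‖ ^ 2 / 2)) ∂γ = ∫⁻ ξ, Φ ξ ∂γ

/-- log density of the adapted shift `v` (first `n` times) -/
def logZ {ι V : Type} [Fintype ι] [NormedAddCommGroup V] [InnerProductSpace ℝ V] (n : ℕ)
    (v : ℕ → (ℕ → ι → V) → ι → V) (ω : ℕ → ι → V) : ℝ :=
  ∑ j ∈ Finset.range n, ∑ x, (-(inner ℝ (v j ω x) (ω j x)) - ‖v j ω x‖ ^ 2 / 2)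

/-- shifted noise -/
def shft {ι V : Type} [AddCommGroup V] (v : ℕ → (ℕ → ι → V) → ι → V) (ω : ℕ → ι → V) :
    ℕ → ι → V := fun j x => ω j x + v j ω x

end

end DynC
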