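import Pool.Agent.Lib_MP_36b788c.Cmp2

/-!
# Balls in the box: lines; lower bound of the cut heights

PROOF.
* `ball_line`: `y'` in the ball. If `dist y' y ≥ 2n`: `toward` (applied with `x = y`) gives a path `p_0 = y', p_1, …, p_{2n-1}` with `dist y p_i = dist y y' - i`: distinct sites of the ball, consecutive ones at distance `1`, `dist y' p_i ≤ i`. If `dist y' y < 2n`: move along the first coordinate (`d ≥ 1`) towards the origin side: `y' - i e_0` if `y'_0 ≥ 0`, otherwise `y' + i e_0`, `i < 2n` (`boxNet_dist`, `l1`; inside the box since `2n ≤ L`), distance to `y` is `< 4n ≤ R`. Pairs `(p_{2i}, p_{2i+1})`.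
* `hB_low`: `M' = M + s0 R + 1`. `LowR` at `v`: some `z` in the box with `dist v z ≤ M + s0 dist v y + log(u z)/ell` (`u z > 0`), and `log(u z)/ell ≤ ε0(1 + dist z y)`. If `z` is in the ball: `log(u z)/ell < 0`: `hB z ≥ log(u z)/ell`, so `hB z - dist v z ≥ -(M + s0 dist v y)`; `log(u z)/ell ≥ 0`: `hB z = 0` and `dist v z ≤ M + s0 dist v y + ε0(1+R) ≤ M + 1 + s0 dist v y`.
  If `z` is not in the ball: `R < dist v y + dist v z`, `(1-ε0) dist v z ≤ M + (s0 + ε0) dist v y + ε0`, so `R ≤ (17/15) dist v y + (16/15) M + 1/15`, and `RR ≥ hB v ≥ -M' = -(M + 1 + s0 R) ≥ -(2M + 4) - 2 s0 dist v y`.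
-/

open MeasureTheory ProbabilityTheory
open scoped ENNReal

namespace DynC

open Dyn

/-- two points of the box on a line parallel to an axis -/
private theorem Pr0_l1 {d : ℕ} (y : Fin d → ℤ) (i0 : Fin d) (v w : ℤ) :
    l1 (Function.update y i0 v) (Function.update y i0 w) = (v - w).natAbs := by
  unfold l1
  rw [Finset.sum_eq_single i0]
  · rw [Function.update_self, Function.update_self]
  · intro j _ hj
    rw [Function.update_of_ne hj, Function.update_of_ne hj, sub_self, Int.natAbs_zero]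
  · intro h
    exact absurd (Finset.mem_univ i0) h

private theorem Pr0_mem {d L : ℕ} (x : Fin d → ℤ) :
    x ∈ boxS d L ↔ ∀ i, -(L : ℤ) ≤ x i ∧ x i ≤ L := by
  unfold boxS
  rw [Finset.mem_Icc, Pi.le_def, Pi.le_def]
  constructor
  · rintro ⟨h1, h2⟩ i; exact ⟨h1 i, h2 i⟩
  · intro h; exact ⟨fun i => (h i).1, fun i => (h i).2⟩

/-- a path in the ball gives the pairs -/
private theorem Pr0_path {d n L R : ℕ} (y : boxS d L) (y' : Bl d L y R) (P : ℕ → boxS d L)
    (hR : ∀ i, i < 2 * n → (boxNet d L).dist y (P i) ≤ R)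
    (hinj : ∀ i j, i < 2 * n → j < 2 * n → P i = P j → i = j)
    (hd1 : ∀ i, i + 1 < 2 * n → (boxNet d L).dist (P i) (P (i + 1)) = 1)
    (hdi : ∀ i, i < 2 * n → (boxNet d L).dist y'.1 (P i) ≤ 2 * n) :
    ∃ p : Fin n → Fin 2 → Bl d L y R,
      Function.Injective (fun q : Fin n × Fin 2 => p q.1 q.2) ∧
      (∀ i, (ballM d L y R).dd (p i 0) (p i 1) = 1) ∧
      ∀ i j, (ballM d L y R).dd y' (p i j) ≤ 2 * n := by
  have hlt : ∀ (i : Fin n) (j : Fin 2), 2 * (i : ℕ) + (j : ℕ) < 2 * n := by
    intro i j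
    have h1 := i.2
    have h2 := j.2
    omega
  refine ⟨fun i j => ⟨P (2 * (i : ℕ) + (j : ℕ)), hR _ (hlt i j)⟩, ?_, ?_, ?_⟩
  · rintro ⟨i, j⟩ ⟨i', j'⟩ h
    have h1 : P (2 * (i : ℕ) + (j : ℕ)) = P (2 * (i' : ℕ) + (j' : ℕ)) := congrArg Subtype.val h
    have h2 := hinj _ _ (hlt i j) (hlt i' j') h1
    have h3 := j.2
    have h4 := j'.2
    have h5 : (i : ℕ) = i' := by omega
    have h6 : (j : ℕ) = j' := by omega
    exact Prod.ext (Fin.ext h5) (Fin.ext h6)
  · intro i
    have h1 := hlt i 1
    have h2 := hd1 (2 * (i : ℕ)) (by simpa using h1)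
    show (boxNet d L).dist (P (2 * (i : ℕ) + ((0 : Fin 2) : ℕ)))
      (P (2 * (i : ℕ) + ((1 : Fin 2) : ℕ))) = 1
    simpa using h2
  · intro i j
    exact hdi _ (hlt i j)

theorem ball_line (d : ℕ) (hd : 1 ≤ d) (n L R : ℕ) (hL : 2 * n ≤ L) (hR : 4 * n ≤ R)
    (y : boxS d L) : (ballM d L y R).HasLine n := by
  classical
  intro y'
  by_cases hc : 2 * n ≤ (boxNet d L).dist y y'.1
  · -- walk towards the centre
    have htw : ∀ z : boxS d L, ∃ w : boxS d L, z ≠ y →
        w ∈ (boxNet d L).nb z ∧ (boxNet d L).dist y w + 1 = (boxNet d L).dist y z := by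
      intro z
      by_cases hz : z = y
      · exact ⟨z, fun h => absurd hz h⟩
      · obtain ⟨w, hw1, hw2⟩ := (boxNet d L).toward y z hz
        exact ⟨w, fun _ => ⟨hw1, hw2⟩⟩
    choose f hf using htw
    set P : ℕ → boxS d L := fun i => f^[i] y'.1 with hP
    have hP0 : P 0 = y'.1 := rfl
    have hPs : ∀ i, P (i + 1) = f (P i) := fun i => Function.iterate_succ_apply' f i y'.1
    have hdist : ∀ i, i ≤ (boxNet d L).dist y y'.1 →
        (boxNet d L).dist y (P i) + i = (boxNet d L).dist y y'.1 := by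
      intro i
      induction i with
      | zero =>
        intro _
        rw [hP0, add_zero]
      | succ i ih =>
        intro hi
        have h1 := ih (by omega)
        have h2 : P i ≠ y := by
          intro h
          rw [h, (boxNet d L).dist_self] at h1
          omega
        have h3 := (hf (P i) h2).2
        rw [hPs]
        omega
    have hne : ∀ i, i < (boxNet d L).dist y y'.1 → P i ≠ y := by
      intro i hi h
      have h1 := hdist i hi.le
      rw [h, (boxNet d L).dist_self] at h1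
      omega
    have hstep : ∀ i, i < (boxNet d L).dist y y'.1 → (boxNet d L).dist (P i) (P (i + 1)) = 1 := by
      intro i hi
      rw [hPs]
      exact (boxNet d L).dist_nb _ _ (hf (P i) (hne i hi)).1
    have hfar : ∀ i, i ≤ (boxNet d L).dist y y'.1 → (boxNet d L).dist y'.1 (P i) ≤ i := by
      intro i
      induction i with
      | zero =>
        intro _
        rw [hP0, (boxNet d L).dist_self]
      | succ i ih =>
        intro hi
        have h1 := ih (by omega)
        have h2 := (boxNet d L).dist_tri y'.1 (P i) (P (i + 1))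
        rw [hstep i (by omega)] at h2
        omega
    have hy' := y'.2
    refine Pr0_path y y' P ?_ ?_ ?_ ?_
    · intro i hi
      have h1 := hdist i (by omega)
      omega
    · intro i j hi hj hij
      have h1 := hdist i (by omega)
      have h2 := hdist j (by omega)
      rw [hij] at h1
      omega
    · intro i hi
      exact hstep i (by omega)
    · intro i hi
      have h1 := hfar i (by omega)
      omega
  · -- straight line towards the origin side
    push Not at hc
    set i0 : Fin d := ⟨0, hd⟩ with hi0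
    set a : ℤ := (y'.1 : Fin d → ℤ) i0 with ha
    set sg : ℤ := if 0 ≤ a then -1 else 1 with hsg
    have hbox := (Pr0_mem (y'.1 : Fin d → ℤ)).mp y'.1.2
    have hmem : ∀ i : ℕ, i < 2 * n →
        Function.update (y'.1 : Fin d → ℤ) i0 (a + sg * i) ∈ boxS d L := by
      intro i hi
      rw [Pr0_mem]
      intro j
      by_cases hj : j = i0
      · subst hj
        rw [Function.update_self]
        have h1 := hbox i0
        rw [hsg]
        split_ifs with h
        · constructor <;> omega
        · constructor <;> omega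
      · rw [Function.update_of_ne hj]
        exact hbox j
    set P : ℕ → boxS d L := fun i => if hi : i < 2 * n then
      ⟨Function.update (y'.1 : Fin d → ℤ) i0 (a + sg * i), hmem i hi⟩ else y'.1 with hP
    have hPv : ∀ i, i < 2 * n → ((P i : boxS d L) : Fin d → ℤ) =
        Function.update (y'.1 : Fin d → ℤ) i0 (a + sg * i) := by
      intro i hi
      rw [hP]
      simp only [dif_pos hi]
    have hsg1 : sg.natAbs = 1 := by
      rw [hsg]
      split_ifs <;> rfl
    have hdd : ∀ i j, i < 2 * n → j < 2 * n →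
        (boxNet d L).dist (P i) (P j) = ((i : ℤ) - j).natAbs := by
      intro i j hi hj
      rw [boxNet_dist, hPv i hi, hPv j hj, Pr0_l1]
      have h1 : a + sg * (i : ℤ) - (a + sg * (j : ℤ)) = sg * ((i : ℤ) - j) := by ring
      rw [h1, Int.natAbs_mul, hsg1, one_mul]
    have hd0 : ∀ i, i < 2 * n → (boxNet d L).dist y'.1 (P i) = i := by
      intro i hi
      have h0 : 0 < 2 * n := by omega
      have h1 : P 0 = y'.1 := by
        apply Subtype.ext
        rw [hPv 0 h0]
        simp [ha]
      rw [← h1, hdd 0 i h0 hi]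
      omega
    refine Pr0_path y y' P ?_ ?_ ?_ ?_
    · intro i hi
      have h1 := (boxNet d L).dist_tri y y'.1 (P i)
      rw [hd0 i hi] at h1
      omega
    · intro i j hi hj hij
      have h1 := hdd i j hi hj
      rw [hij, (boxNet d L).dist_self] at h1
      omega
    · intro i hi
      rw [hdd i (i + 1) (by omega) hi]
      push_cast
      omega
    · intro i hi
      rw [hd0 i hi]
      omega

private theorem Pr0_exp {k a : ℝ} (hk : 0 < k) : k ^ a = Real.exp (-(a * ell k)) := by
  unfold ell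
  rw [Real.rpow_def_of_pos hk, one_div, Real.log_inv]
  congr 1
  ring

theorem hB_low {d L : ℕ} (k M s0 ε0 : ℝ) (hk : 0 < k) (hk1 : k < 1) (hM : 0 ≤ M) (hs : 0 ≤ s0)
    (hs1 : s0 ≤ 1 / 16) (hε : 0 < ε0) (R : ℕ) (hεR : ε0 * (1 + R) ≤ 1 / 16) (y : boxS d L)
    (u : boxS d L → ℝ) (hu : ∀ v, 0 ≤ u v) (hl : LowR k u M s0 y) (hc : Caps k u ε0 y)
    (v : Bl d L y R) :
    -(2 * M + 4) - 2 * s0 * (boxNet d L).dist y v.1 ≤
      (ballM d L y R).RR (hB k (M + s0 * R + 1) u y R) v := by
  have hell : 0 < ell k := ell_pos hk hk1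
  obtain ⟨z, hz⟩ := hl v.1
  set dv : ℝ := (((boxNet d L).dist v.1 y : ℕ) : ℝ) with hdv
  have hdv0 : 0 ≤ dv := Nat.cast_nonneg _
  have hdv' : ((boxNet d L).dist y v.1 : ℝ) = dv := by
    rw [hdv, (boxNet d L).dist_comm]
  set dz : ℝ := (((boxNet d L).dist v.1 z : ℕ) : ℝ) with hdz
  have hdz0 : 0 ≤ dz := Nat.cast_nonneg _
  have hR0 : (0 : ℝ) ≤ R := Nat.cast_nonneg _
  have hpos : 0 < u z := by
    by_contra h
    have h1 : u z = 0 := le_antisymm (not_lt.1 h) (hu z)
    rw [h1, zero_mul] at hz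
    exact absurd hz (not_le.2 (Real.rpow_pos_of_pos hk _))
  set X : ℝ := Real.log (u z) / ell k with hX
  have hXe : u z = k ^ (-X) := by
    rw [Pr0_exp hk, hX]
    have h1 : -(-(Real.log (u z) / ell k) * ell k) = Real.log (u z) := by
      field_simp
    rw [h1, Real.exp_log hpos]
  have hle : ∀ a b : ℝ, k ^ a ≤ k ^ b → b ≤ a := fun a b h =>
    (Real.rpow_le_rpow_left_iff_of_base_lt_one hk hk1).1 h
  -- the reached site
  have h1 : dz ≤ M + s0 * dv + X := by
    have h2 : k ^ (M + s0 * dv) ≤ k ^ (-X + dz) := by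
      rw [Real.rpow_add hk (-X) dz, ← hXe, hdz, Real.rpow_natCast]
      exact hz
    have h3 := hle _ _ h2
    linarith
  set dzy : ℝ := (((boxNet d L).dist z y : ℕ) : ℝ) with hdzy
  have hdzy0 : 0 ≤ dzy := Nat.cast_nonneg _
  have h2 : X ≤ ε0 * (1 + dzy) := by
    have h3 : k ^ (-X) ≤ k ^ (-(ε0 * (1 + dzy))) := by
      rw [← hXe]
      exact hc z
    have h4 := hle _ _ h3
    linarith
  have hε1 : ε0 ≤ 1 / 16 := by
    have := mul_nonneg hε.le hR0
    linarith
  rw [hdv']
  by_cases hzb : (boxNet d L).dist y z ≤ R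
  · have h3 := le_RR (ballM d L y R) (hB k (M + s0 * R + 1) u y R) v ⟨z, hzb⟩
    have h4 : ((ballM d L y R).dd v ⟨z, hzb⟩ : ℝ) = dz := rfl
    rw [h4] at h3
    have h5 : hB k (M + s0 * R + 1) u y R ⟨z, hzb⟩ = min 0 (max (-(M + s0 * R + 1)) X) := by
      unfold hB
      rw [if_neg (not_le.2 hpos)]
    rw [h5] at h3
    refine le_trans ?_ h3
    have h6 : s0 * dv ≥ 0 := mul_nonneg hs hdv0
    rcases lt_or_ge X 0 with hX0 | hX0
    · have h7 : X ≤ min 0 (max (-(M + s0 * R + 1)) X) := le_min hX0.le (le_max_right _ _)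
      linarith
    · have h7 : min 0 (max (-(M + s0 * R + 1)) X) = 0 :=
        min_eq_left (hX0.trans (le_max_right _ _))
      rw [h7]
      have h8 : dzy ≤ R := by
        rw [hdzy, (boxNet d L).dist_comm z y]
        exact_mod_cast hzb
      have h9 : ε0 * (1 + dzy) ≤ ε0 * (1 + R) := mul_le_mul_of_nonneg_left (by linarith) hε.le
      linarith
  · push Not at hzb
    have h3 := self_le_RR (ballM d L y R) (hB k (M + s0 * R + 1) u y R) v
    refine le_trans ?_ h3
    have h4 : -(M + s0 * R + 1) ≤ hB k (M + s0 * R + 1) u y R v := by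
      unfold hB
      refine le_min ?_ (le_max_left _ _)
      have := mul_nonneg hs hR0
      linarith
    refine le_trans ?_ h4
    have h5 : (R : ℝ) ≤ dzy := by
      rw [hdzy, (boxNet d L).dist_comm z y]
      exact_mod_cast hzb.le
    have h6 : dzy ≤ dz + dv := by
      have h7 := (boxNet d L).dist_tri z v.1 y
      rw [(boxNet d L).dist_comm z v.1] at h7
      rw [hdzy, hdz, hdv]
      exact_mod_cast h7
    have h7 : dz ≤ M + s0 * dv + ε0 * (1 + (dz + dv)) := by
      have := mul_le_mul_of_nonneg_left h6 hε.le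
      linarith
    have h8 : ε0 * (1 + (dz + dv)) ≤ 1 / 16 * (1 + (dz + dv)) :=
      mul_le_mul_of_nonneg_right hε1 (by positivity)
    have h9 : s0 * dv ≤ 1 / 16 * dv := mul_le_mul_of_nonneg_right hs1 hdv0
    have h10 : (R : ℝ) ≤ 17 / 15 * dv + 16 / 15 * M + 1 / 15 := by linarith
    have h11 : s0 * R ≤ s0 * (17 / 15 * dv + 16 / 15 * M + 1 / 15) :=
      mul_le_mul_of_nonneg_left h10 hs
    have h12 : s0 * (16 / 15 * M + 1 / 15) ≤ 1 / 16 * (16 / 15 * M + 1 / 15) :=
      mul_le_mul_of_nonneg_right hs1 (by positivity)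
    have h13 : 0 ≤ s0 * dv := mul_nonneg hs hdv0
    linarith

end DynC
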