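import Pool.Agent.Lib_MP_36b788c.MNz

/-!
# Small ball estimate by shifts; one-site products; first moments

PROOF.
* `sbs`: `E = {ω ∈ Reg, ‖F ω‖ ≤ ρ}`, `E^φ = {ω : ω + φ v ∈ E}`. Cameron-Martin (`shift_lintegral` with the deterministic shift `φ v`): `P(E) = E[1_{E^φ} Z_φ]`, `Z_φ = exp(-φ Σ⟪v,ω⟫ - φ²‖v‖²/2)`, `E Z_φ² = e^{φ²‖v‖²} ≤ e` (`cm` with `2φv`), so `P(E)² ≤ e P(E^φ)`. Average over `φ ∈ [0,1]` (Tonelli, `(φ,ω) ↦ ω + φ v` is measurable):
  `P(E)² ≤ e ∫ P(E^φ) dφ` and `(∫ P(E^φ) dφ)² ≤ E (∫ 1_{E^φ} dφ)² = ∫∫ P(E^φ ∩ E^{φ'}) ≤ 2η + p2` (`|φ-φ'| < η` has area `≤ 2η`; otherwise both `‖F^φ‖, ‖F^{φ'}‖ ≤ ρ`). So `P(E)⁴ ≤ e² (2η + p2)`.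
* `prod_near`: `pr A i j` = composition `A_{j-1} ⋯ A_i`. For a fixed unit vector `v`: `P(∃ j ≤ m, ‖pr A 0 j v - v‖ ≥ δ) ≤ 4 C m h/δ²`: claim by induction on `n` (`lintegral_cons`), for all `w` with `‖w - v‖ < δ ≤ 1`: `P(∃ j ≤ n, ‖pr A 0 j w - v‖ ≥ δ) ≤ (‖w-v‖² + 4 n C h)/δ²`
  (`E‖A w - v‖² = ‖w-v‖² + E‖A w - w‖² ≤ ‖w-v‖² + 4 C h` by `mean`, `var`; if `‖A w - v‖ ≥ δ` the bound is `≥ 1`). Orthonormal basis `e_1 … e_D` of `V`: with probability `≥ 1 - D·4C m h D²/δ²` (use `δ/D`) all `‖pr A 0 j v - v‖ ≤ δ‖v‖`, `v ∈ V`, `j ≤ m`; then `pr A 0 i` is bijective (finite dimension) with `‖(pr A 0 i)⁻¹ w‖ ≤ 2‖w‖`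
  and `pr A i j w = pr A 0 j v` for `w = pr A 0 i v`, so `‖pr A i j w - w‖ ≤ 2δ‖v‖ ≤ 4δ‖w‖`. Use `δ/4`.
-/

open MeasureTheory ProbabilityTheory
open scoped ENNReal

namespace DynC

open Dyn

private theorem SBS_cs {A : Type} [MeasurableSpace A] (μ : Measure A) (f g : A → ℝ≥0∞)
    (hf : Measurable f) (hg : Measurable g) :
    (∫⁻ a, f a * g a ∂μ) ^ 2 ≤ (∫⁻ a, f a ^ 2 ∂μ) * ∫⁻ a, g a ^ 2 ∂μ := by
  have h1 := ENNReal.lintegral_mul_le_Lp_mul_Lq μ (p := 2) (q := 2)
    (Real.HolderConjugate.two_two) hf.aemeasurable hg.aemeasurable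
  have h2 : ∀ F : A → ℝ≥0∞, ∫⁻ a, F a ^ (2:ℝ) ∂μ = ∫⁻ a, F a ^ 2 ∂μ := by
    intro F
    refine lintegral_congr ?_
    intro a
    exact ENNReal.rpow_two _
  rw [h2, h2] at h1
  have h3 : ∀ x : ℝ≥0∞, (x ^ (1 / (2:ℝ))) ^ 2 = x := by
    intro x
    rw [← ENNReal.rpow_natCast, ← ENNReal.rpow_mul]
    norm_num
  calc (∫⁻ a, f a * g a ∂μ) ^ 2
      ≤ ((∫⁻ a, f a ^ 2 ∂μ) ^ (1 / (2:ℝ)) * (∫⁻ a, g a ^ 2 ∂μ) ^ (1 / (2:ℝ))) ^ 2 :=
        pow_le_pow_left' h1 2
    _ = _ := by rw [mul_pow, h3, h3]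

private theorem SBS_shift {ι H : Type} [Fintype ι]
    [NormedAddCommGroup H] [InnerProductSpace ℝ H] [MeasurableSpace H] [BorelSpace H]
    [SecondCountableTopology H] (γ : Measure H) [IsProbabilityMeasure γ] (cm : CMart γ)
    (n : ℕ) (v : ℕ → ι → H) (hv0 : ∀ j, n ≤ j → v j = 0) (c : ℝ)
    (Φ : (ℕ → ι → H) → ℝ≥0∞) (hΦ : Measurable Φ) :
    ∫⁻ ω, Φ (ω + c • v) * ENNReal.ofReal (Real.exp (logZ n (fun j _ => c • v j) ω))
        ∂(PI (Measure.pi fun _ : ι => γ))
      = ∫⁻ ω, Φ ω ∂(PI (Measure.pi fun _ : ι => γ)) := by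
  have h := shift_lintegral cm n (fun j (_ : ℕ → ι → H) => c • v j) (fun j => measurable_const)
    (fun j a b _ => rfl) (fun j hj ω => by rw [hv0 j hj, smul_zero]) Φ hΦ
  exact h

private theorem SBS_logZ {ι H : Type} [Fintype ι]
    [NormedAddCommGroup H] [InnerProductSpace ℝ H]
    (n : ℕ) (v : ℕ → ι → H) (c : ℝ) (ω : ℕ → ι → H) :
    2 * logZ n (fun j (_ : ℕ → ι → H) => c • v j) ω =
      logZ n (fun j (_ : ℕ → ι → H) => (2 * c) • v j) ω +
        c ^ 2 * ∑ j ∈ Finset.range n, ∑ x, ‖v j x‖ ^ 2 := by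
  unfold logZ
  rw [Finset.mul_sum, Finset.mul_sum, ← Finset.sum_add_distrib]
  refine Finset.sum_congr rfl ?_
  intro j _
  rw [Finset.mul_sum, Finset.mul_sum, ← Finset.sum_add_distrib]
  refine Finset.sum_congr rfl ?_
  intro x _
  simp only [Pi.smul_apply, norm_smul, inner_smul_left, Real.norm_eq_abs, mul_pow, sq_abs, abs_mul,
    conj_trivial]
  norm_num
  ring

private theorem SBS_meas_add {ι H : Type} [Fintype ι]
    [NormedAddCommGroup H] [InnerProductSpace ℝ H] [MeasurableSpace H] [BorelSpace H]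
    [SecondCountableTopology H] (v : ℕ → ι → H) :
    Measurable (fun p : ℝ × (ℕ → ι → H) => p.2 + p.1 • v) := by
  refine measurable_pi_lambda _ fun j => measurable_pi_lambda _ fun x => ?_
  have h1 : Measurable fun p : ℝ × (ℕ → ι → H) => p.2 j x :=
    (measurable_pi_apply x).comp ((measurable_pi_apply j).comp measurable_snd)
  have h2 : Measurable fun p : ℝ × (ℕ → ι → H) => p.1 • v j x :=
    measurable_fst.smul_const _
  exact h1.add h2

theorem sbs {ι V H : Type} [Fintype ι] [NormedAddCommGroup V] [MeasurableSpace V] [BorelSpace V]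
    [SecondCountableTopology V]
    [NormedAddCommGroup H] [InnerProductSpace ℝ H] [MeasurableSpace H] [BorelSpace H]
    [SecondCountableTopology H] (γ : Measure H) [IsProbabilityMeasure γ] (cm : CMart γ)
    (n : ℕ) (v : ℕ → ι → H) (hv0 : ∀ j, n ≤ j → v j = 0)
    (hv : ∑ j ∈ Finset.range n, ∑ x, ‖v j x‖ ^ 2 ≤ 1)
    (F : (ℕ → ι → H) → V) (hF : Measurable F) (Reg : Set (ℕ → ι → H)) (hR : MeasurableSet Reg)
    (ρ η p2 : ℝ) (hρ : 0 ≤ ρ) (hη : 0 ≤ η) (hp : 0 ≤ p2)
    (h : ∀ φ φ' : ℝ, 0 ≤ φ → φ' ≤ 1 → η ≤ φ' - φ →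
      PI (Measure.pi fun _ : ι => γ) {ω | (ω + φ • v) ∈ Reg ∧ (ω + φ' • v) ∈ Reg ∧
        ‖F (ω + φ' • v) - F (ω + φ • v)‖ ≤ 2 * ρ} ≤ ENNReal.ofReal p2) :
    PI (Measure.pi fun _ : ι => γ) {ω | ω ∈ Reg ∧ ‖F ω‖ ≤ ρ} ≤
      ENNReal.ofReal (2 * (2 * η + p2) ^ (1 / 4 : ℝ)) := by
  classical
  set μ := PI (Measure.pi fun _ : ι => γ) with hμ
  set E : Set (ℕ → ι → H) := {ω | ω ∈ Reg ∧ ‖F ω‖ ≤ ρ} with hE
  have hEm : MeasurableSet E := hR.inter (measurableSet_le hF.norm measurable_const)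
  set f : ℝ → (ℕ → ι → H) → ℝ≥0∞ := fun φ ω => E.indicator (fun _ => (1:ℝ≥0∞)) (ω + φ • v)
    with hf
  have hfm : Measurable (Function.uncurry f) :=
    (measurable_const.indicator hEm).comp (SBS_meas_add v)
  have hfm1 : ∀ φ, Measurable (f φ) := fun φ => hfm.comp (measurable_const.prodMk measurable_id)
  have hfm2 : ∀ ω, Measurable (fun φ => f φ ω) := fun ω =>
    hfm.comp (measurable_id.prodMk measurable_const)
  have hff : ∀ φ ω, f φ ω ^ 2 = f φ ω := by
    intro φ ω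
    simp only [hf]
    by_cases hc : ω + φ • v ∈ E
    · rw [Set.indicator_of_mem hc, one_pow]
    · rw [Set.indicator_of_notMem hc]; norm_num
  have hf1 : ∀ φ ω, f φ ω ≤ 1 := by
    intro φ ω
    simp only [hf]
    by_cases hc : ω + φ • v ∈ E
    · rw [Set.indicator_of_mem hc]
    · rw [Set.indicator_of_notMem hc]; norm_num
  -- step 1
  have s1 : ∀ φ ∈ Set.Icc (0:ℝ) 1, μ E ^ 2 ≤ ENNReal.ofReal (Real.exp 1) * ∫⁻ ω, f φ ω ∂μ := by
    intro φ hφ
    have e1 : μ E = ∫⁻ ω, f φ ω * ENNReal.ofReal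
        (Real.exp (logZ n (fun j (_ : ℕ → ι → H) => φ • v j) ω)) ∂μ := by
      rw [← lintegral_indicator_one hEm]
      exact (SBS_shift γ cm n v hv0 φ (E.indicator 1) (measurable_const.indicator hEm)).symm
    have hZm : ∀ c : ℝ, Measurable (fun ω : ℕ → ι → H => ENNReal.ofReal
        (Real.exp (logZ n (fun j (_ : ℕ → ι → H) => c • v j) ω))) := by
      intro c
      refine ENNReal.measurable_ofReal.comp (Real.measurable_exp.comp ?_)
      unfold logZ
      refine Finset.measurable_fun_sum _ fun j _ => Finset.measurable_fun_sum _ fun x _ => ?_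
      have h1 : Measurable fun ω : ℕ → ι → H => ω j x :=
        (measurable_pi_apply x).comp (measurable_pi_apply j)
      exact ((measurable_const.inner h1).neg.sub measurable_const)
    rw [e1]
    refine le_trans (SBS_cs μ _ _ (hfm1 φ) (hZm φ)) ?_
    rw [mul_comm]
    have e2 : ∫⁻ ω, f φ ω ^ 2 ∂μ = ∫⁻ ω, f φ ω ∂μ := lintegral_congr (fun ω => hff φ ω)
    rw [e2]
    refine mul_le_mul_left ?_ _
    have e3 : ∀ ω : ℕ → ι → H, ENNReal.ofReal
        (Real.exp (logZ n (fun j (_ : ℕ → ι → H) => φ • v j) ω)) ^ 2 =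
        ENNReal.ofReal (Real.exp (φ ^ 2 * ∑ j ∈ Finset.range n, ∑ x, ‖v j x‖ ^ 2)) *
        (1 * ENNReal.ofReal (Real.exp (logZ n (fun j (_ : ℕ → ι → H) => (2 * φ) • v j) ω))) := by
      intro ω
      rw [one_mul, ← ENNReal.ofReal_mul (Real.exp_pos _).le, ← Real.exp_add,
        ← ENNReal.ofReal_pow (Real.exp_pos _).le, ← Real.exp_nat_mul]
      congr 2
      push_cast
      rw [SBS_logZ]
      ring
    rw [lintegral_congr e3, lintegral_const_mul]
    · have e4 := SBS_shift γ cm n v hv0 (2 * φ) (fun _ => 1) measurable_const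
      rw [e4, lintegral_one, measure_univ, mul_one]
      refine ENNReal.ofReal_le_ofReal (Real.exp_le_exp.2 ?_)
      have : φ ^ 2 ≤ 1 := by nlinarith [hφ.1, hφ.2]
      calc φ ^ 2 * ∑ j ∈ Finset.range n, ∑ x, ‖v j x‖ ^ 2
          ≤ 1 * 1 := by
            refine mul_le_mul this hv ?_ zero_le_one
            exact Finset.sum_nonneg fun j _ => Finset.sum_nonneg fun x _ => by positivity
        _ = 1 := one_mul 1
    · exact measurable_const.mul (hZm (2 * φ))
  -- step 2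
  set lam : Measure ℝ := volume.restrict (Set.Icc (0:ℝ) 1) with hlam
  have hl1 : lam Set.univ = 1 := by
    rw [hlam, Measure.restrict_apply MeasurableSet.univ, Set.univ_inter, Real.volume_Icc]
    norm_num
  have : IsProbabilityMeasure lam := ⟨hl1⟩
  have s2 : μ E ^ 2 ≤ ENNReal.ofReal (Real.exp 1) * ∫⁻ φ, ∫⁻ ω, f φ ω ∂μ ∂lam := by
    have hm : Measurable (fun φ => ∫⁻ ω, f φ ω ∂μ) := hfm.lintegral_prod_right'
    calc μ E ^ 2 = ∫⁻ _φ, μ E ^ 2 ∂lam := by
          rw [lintegral_const, hl1, mul_one]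
      _ ≤ ∫⁻ φ, ENNReal.ofReal (Real.exp 1) * ∫⁻ ω, f φ ω ∂μ ∂lam := by
          refine setLIntegral_mono' measurableSet_Icc ?_
          intro φ hφ
          exact s1 φ hφ
      _ = _ := lintegral_const_mul _ hm
  -- step 3
  have s3 : (∫⁻ φ, ∫⁻ ω, f φ ω ∂μ ∂lam) ^ 2 ≤
      ∫⁻ φ, ∫⁻ φ', ∫⁻ ω, f φ ω * f φ' ω ∂μ ∂lam ∂lam := by
    have hm : Measurable (fun ω => ∫⁻ φ, f φ ω ∂lam) :=
      (hfm.comp measurable_swap).lintegral_prod_right'
    rw [lintegral_lintegral_swap hfm.aemeasurable]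
    have c1 := SBS_cs μ (fun ω => ∫⁻ φ, f φ ω ∂lam) (fun _ => 1) hm measurable_const
    simp only [mul_one, one_pow, lintegral_one, measure_univ] at c1
    refine le_trans c1 ?_
    have c2 : ∀ ω, (∫⁻ φ, f φ ω ∂lam) ^ 2 = ∫⁻ φ, ∫⁻ φ', f φ ω * f φ' ω ∂lam ∂lam := by
      intro ω
      rw [sq, ← lintegral_mul_const _ (hfm2 ω)]
      refine lintegral_congr ?_
      intro φ
      rw [lintegral_const_mul _ (hfm2 ω)]
    rw [lintegral_congr c2]
    have hm3 : Measurable (fun p : (ℕ → ι → H) × ℝ × ℝ => f p.2.1 p.1 * f p.2.2 p.1) := by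
      have h1 : Measurable (fun p : (ℕ → ι → H) × ℝ × ℝ => f p.2.1 p.1) :=
        hfm.comp ((measurable_fst.comp measurable_snd).prodMk measurable_fst)
      have h2 : Measurable (fun p : (ℕ → ι → H) × ℝ × ℝ => f p.2.2 p.1) :=
        hfm.comp ((measurable_snd.comp measurable_snd).prodMk measurable_fst)
      exact h1.mul h2
    refine le_of_eq ?_
    rw [lintegral_lintegral_swap]
    · refine lintegral_congr ?_
      intro φ
      rw [lintegral_lintegral_swap]
      have : Measurable (Function.uncurry fun (ω : ℕ → ι → H) (φ' : ℝ) => f φ ω * f φ' ω) :=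
        hm3.comp (measurable_fst.prodMk (measurable_const.prodMk measurable_snd))
      exact this.aemeasurable
    · have hm4 : Measurable (fun p : ((ℕ → ι → H) × ℝ) × ℝ => f p.1.2 p.1.1 * f p.2 p.1.1) :=
        hm3.comp ((measurable_fst.comp measurable_fst).prodMk
          ((measurable_snd.comp measurable_fst).prodMk measurable_snd))
      exact (hm4.lintegral_prod_right').aemeasurable
  -- step 4
  have s4 : ∫⁻ φ, ∫⁻ φ', ∫⁻ ω, f φ ω * f φ' ω ∂μ ∂lam ∂lam ≤ ENNReal.ofReal (2 * η + p2) := by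
    have c1 : ∀ φ ∈ Set.Icc (0:ℝ) 1, ∀ φ' ∈ Set.Icc (0:ℝ) 1, η ≤ φ' - φ →
        ∫⁻ ω, f φ ω * f φ' ω ∂μ ≤ ENNReal.ofReal p2 := by
      intro φ hφ φ' hφ' hd
      refine le_trans ?_ (h φ φ' hφ.1 hφ'.2 hd)
      have hle : ∀ ω, f φ ω * f φ' ω ≤ {ω | (ω + φ • v) ∈ Reg ∧ (ω + φ' • v) ∈ Reg ∧
          ‖F (ω + φ' • v) - F (ω + φ • v)‖ ≤ 2 * ρ}.indicator (fun _ => (1:ℝ≥0∞)) ω := by
        intro ω
        by_cases hc : ω + φ • v ∈ E
        · by_cases hc' : ω + φ' • v ∈ E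
          · rw [Set.indicator_of_mem]
            · calc f φ ω * f φ' ω ≤ 1 * 1 := mul_le_mul' (hf1 _ _) (hf1 _ _)
                _ = 1 := one_mul 1
            · refine ⟨hc.1, hc'.1, ?_⟩
              calc ‖F (ω + φ' • v) - F (ω + φ • v)‖
                  ≤ ‖F (ω + φ' • v)‖ + ‖F (ω + φ • v)‖ := norm_sub_le _ _
                _ ≤ ρ + ρ := add_le_add hc'.2 hc.2
                _ = 2 * ρ := by ring
          · have : f φ' ω = 0 := Set.indicator_of_notMem hc' _
            rw [this, mul_zero]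
            exact zero_le
        · have : f φ ω = 0 := Set.indicator_of_notMem hc _
          rw [this, zero_mul]
          exact zero_le
      refine le_trans (lintegral_mono hle) ?_
      refine le_trans (lintegral_indicator_le _ _) ?_
      rw [setLIntegral_one]
    have c2 : ∀ φ ∈ Set.Icc (0:ℝ) 1, ∀ φ' ∈ Set.Icc (0:ℝ) 1,
        ∫⁻ ω, f φ ω * f φ' ω ∂μ ≤ (Metric.ball φ η).indicator (fun _ => (1:ℝ≥0∞)) φ' +
          ENNReal.ofReal p2 := by
      intro φ hφ φ' hφ'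
      by_cases hd : φ' ∈ Metric.ball φ η
      · rw [Set.indicator_of_mem hd]
        refine le_trans ?_ le_self_add
        calc ∫⁻ ω, f φ ω * f φ' ω ∂μ ≤ ∫⁻ _ω, 1 ∂μ := by
              refine lintegral_mono ?_
              intro ω
              calc f φ ω * f φ' ω ≤ 1 * 1 := mul_le_mul' (hf1 _ _) (hf1 _ _)
                _ = 1 := one_mul 1
          _ = 1 := by rw [lintegral_one, measure_univ]
      · rw [Set.indicator_of_notMem hd, zero_add]
        rw [Metric.mem_ball, not_lt, Real.dist_eq] at hd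
        rcases le_total φ φ' with hle | hle
        · rw [abs_of_nonneg (by linarith)] at hd
          exact c1 φ hφ φ' hφ' hd
        · rw [abs_of_nonpos (by linarith)] at hd
          have := c1 φ' hφ' φ hφ (by linarith)
          simpa only [mul_comm] using this
    have c3 : ∀ φ ∈ Set.Icc (0:ℝ) 1, ∫⁻ φ', ∫⁻ ω, f φ ω * f φ' ω ∂μ ∂lam ≤
        ENNReal.ofReal (2 * η + p2) := by
      intro φ hφ
      calc ∫⁻ φ', ∫⁻ ω, f φ ω * f φ' ω ∂μ ∂lam
          ≤ ∫⁻ φ', ((Metric.ball φ η).indicator (fun _ => (1:ℝ≥0∞)) φ' + ENNReal.ofReal p2)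
              ∂lam := by
            refine setLIntegral_mono' measurableSet_Icc ?_
            intro φ' hφ'
            exact c2 φ hφ φ' hφ'
        _ = lam (Metric.ball φ η) + ENNReal.ofReal p2 := by
            rw [lintegral_add_right _ measurable_const, lintegral_const, hl1, mul_one]
            congr 1
            exact lintegral_indicator_one Metric.isOpen_ball.measurableSet
        _ ≤ volume (Metric.ball φ η) + ENNReal.ofReal p2 := by
            refine add_le_add_left ?_ _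
            exact Measure.restrict_le_self _
        _ = ENNReal.ofReal (2 * η + p2) := by
            rw [Real.volume_ball, ← ENNReal.ofReal_add (by positivity) hp]
    calc ∫⁻ φ, ∫⁻ φ', ∫⁻ ω, f φ ω * f φ' ω ∂μ ∂lam ∂lam
        ≤ ∫⁻ _φ, ENNReal.ofReal (2 * η + p2) ∂lam := by
          refine setLIntegral_mono' measurableSet_Icc ?_
          intro φ hφ
          exact c3 φ hφ
      _ = ENNReal.ofReal (2 * η + p2) := by rw [lintegral_const, hl1, mul_one]
  -- conclusion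
  have hfin : μ E ≠ ⊤ := measure_ne_top _ _
  set p : ℝ := (μ E).toReal with hpdef
  have hp0 : 0 ≤ p := ENNReal.toReal_nonneg
  have hpE : μ E = ENNReal.ofReal p := (ENNReal.ofReal_toReal hfin).symm
  have s5 : ENNReal.ofReal (p ^ 4) ≤ ENNReal.ofReal (16 * (2 * η + p2)) := by
    have c1 : μ E ^ 4 ≤ ENNReal.ofReal (Real.exp 1) ^ 2 * ENNReal.ofReal (2 * η + p2) := by
      calc μ E ^ 4 = (μ E ^ 2) ^ 2 := by ring
        _ ≤ (ENNReal.ofReal (Real.exp 1) * ∫⁻ φ, ∫⁻ ω, f φ ω ∂μ ∂lam) ^ 2 :=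
            pow_le_pow_left' s2 2
        _ = ENNReal.ofReal (Real.exp 1) ^ 2 * (∫⁻ φ, ∫⁻ ω, f φ ω ∂μ ∂lam) ^ 2 := mul_pow _ _ _
        _ ≤ _ := mul_le_mul_right (le_trans s3 s4) _
    rw [ENNReal.ofReal_pow hp0, ← hpE]
    refine le_trans c1 ?_
    rw [← ENNReal.ofReal_pow (Real.exp_pos _).le, ← ENNReal.ofReal_mul (by positivity)]
    refine ENNReal.ofReal_le_ofReal ?_
    refine mul_le_mul_of_nonneg_right ?_ (by positivity)
    have : Real.exp 1 ≤ 4 := le_trans Real.exp_one_lt_d9.le (by norm_num)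
    nlinarith [Real.exp_pos 1]
  have s6 : p ^ 4 ≤ 16 * (2 * η + p2) := (ENNReal.ofReal_le_ofReal_iff (by positivity)).1 s5
  rw [hpE]
  refine ENNReal.ofReal_le_ofReal ?_
  have hy : ((2 * η + p2) ^ (1 / 4 : ℝ)) ^ 4 = 2 * η + p2 := by
    rw [← Real.rpow_natCast, ← Real.rpow_mul (by positivity)]
    norm_num
  refine le_of_pow_le_pow_left₀ (n := 4) (by norm_num) (by positivity) ?_
  rw [mul_pow, hy]
  linarith

/-- product `A_{j-1} ⋯ A_i` -/
def pr {V : Type} [AddCommGroup V] [Module ℝ V] (A : ℕ → V →ₗ[ℝ] V) (i j : ℕ) : V → V :=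
  fun v => (List.range (j - i)).foldl (fun w l => A (i + l) w) v

/-- all partial products up to time `m` are close to the identity -/
def PNear {V : Type} [NormedAddCommGroup V] [Module ℝ V] (A : ℕ → V →ₗ[ℝ] V) (m : ℕ) (δ : ℝ) :
    Prop :=
  ∀ i j, i ≤ j → j ≤ m → ∀ w, ‖pr A i j w - w‖ ≤ δ * ‖w‖

theorem pr_self {V : Type} [AddCommGroup V] [Module ℝ V] (A : ℕ → V →ₗ[ℝ] V) (i : ℕ) (v : V) :
    pr A i i v = v := by
  unfold pr
  simp

theorem pr_succ {V : Type} [AddCommGroup V] [Module ℝ V] (A : ℕ → V →ₗ[ℝ] V) {i j : ℕ}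
    (h : i ≤ j) (v : V) : pr A i (j + 1) v = A j (pr A i j v) := by
  unfold pr
  rw [Nat.sub_add_comm h, List.range_succ, List.foldl_concat, Nat.add_sub_cancel' h]

theorem pr_comp {V : Type} [AddCommGroup V] [Module ℝ V] (A : ℕ → V →ₗ[ℝ] V) {i j l : ℕ}
    (h : i ≤ j) (h' : j ≤ l) (v : V) : pr A j l (pr A i j v) = pr A i l v := by
  induction l, h' using Nat.le_induction with
  | base => rw [pr_self]
  | succ l hl ih => rw [pr_succ A hl, pr_succ A (le_trans h hl), ih]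

theorem pr_add {V : Type} [AddCommGroup V] [Module ℝ V] (A : ℕ → V →ₗ[ℝ] V) (i j : ℕ) (v w : V) :
    pr A i j (v + w) = pr A i j v + pr A i j w := by
  rcases le_total i j with hij | hij
  · induction j, hij using Nat.le_induction with
    | base => simp only [pr_self]
    | succ l hl ih => rw [pr_succ A hl, pr_succ A hl, pr_succ A hl, ih, map_add]
  · unfold pr
    rw [Nat.sub_eq_zero_of_le hij]
    simp

theorem pr_smul {V : Type} [AddCommGroup V] [Module ℝ V] (A : ℕ → V →ₗ[ℝ] V) (i j : ℕ) (c : ℝ)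
    (v : V) : pr A i j (c • v) = c • pr A i j v := by
  rcases le_total i j with hij | hij
  · induction j, hij using Nat.le_induction with
    | base => simp only [pr_self]
    | succ l hl ih => rw [pr_succ A hl, pr_succ A hl, ih, map_smul]
  · unfold pr
    rw [Nat.sub_eq_zero_of_le hij]
    simp

private theorem SBS_pr_cons {V : Type} [AddCommGroup V] [Module ℝ V] (A : ℕ → V →ₗ[ℝ] V) (j : ℕ)
    (w : V) : pr A 0 (j + 1) w = pr (fun l => A (l + 1)) 0 j (A 0 w) := by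
  induction j with
  | zero => rw [pr_succ A (le_refl 0), pr_self, pr_self]
  | succ j ih => rw [pr_succ A (Nat.zero_le _), ih, pr_succ _ (Nat.zero_le j)]

private noncomputable def SBS_lin {V : Type} [AddCommGroup V] [Module ℝ V] (A : ℕ → V →ₗ[ℝ] V)
    (i j : ℕ) : V →ₗ[ℝ] V where
  toFun := pr A i j
  map_add' := pr_add A i j
  map_smul' := pr_smul A i j

private theorem SBS_det {V : Type} [NormedAddCommGroup V] [InnerProductSpace ℝ V]
    [FiniteDimensional ℝ V] (A : ℕ → V →ₗ[ℝ] V) (m : ℕ) (δ : ℝ) (hδ : 0 < δ) (hδ1 : δ ≤ 1)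
    (hb : ∀ (i : Fin (Module.finrank ℝ V)) (j : ℕ), j ≤ m →
      ‖pr A 0 j (stdOrthonormalBasis ℝ V i) - stdOrthonormalBasis ℝ V i‖ ≤
        δ / (4 * (Module.finrank ℝ V + 1))) : PNear A m δ := by
  have ha : ∀ (v : V) (j : ℕ), j ≤ m → ‖pr A 0 j v - v‖ ≤ δ / 4 * ‖v‖ := by
    intro v j hj
    have h1 : pr A 0 j v - v = ∑ i, (inner ℝ (stdOrthonormalBasis ℝ V i) v) •
        (pr A 0 j (stdOrthonormalBasis ℝ V i) - stdOrthonormalBasis ℝ V i) := by
      have h2 : SBS_lin A 0 j v - v = ∑ i, (inner ℝ (stdOrthonormalBasis ℝ V i) v) •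
        (SBS_lin A 0 j (stdOrthonormalBasis ℝ V i) - stdOrthonormalBasis ℝ V i) := by
        conv_lhs => rw [← (stdOrthonormalBasis ℝ V).sum_repr' v]
        rw [map_sum, ← Finset.sum_sub_distrib]
        refine Finset.sum_congr rfl ?_
        intro i _
        rw [map_smul, smul_sub]
      exact h2
    rw [h1]
    calc ‖∑ i, (inner ℝ (stdOrthonormalBasis ℝ V i) v) •
          (pr A 0 j (stdOrthonormalBasis ℝ V i) - stdOrthonormalBasis ℝ V i)‖
        ≤ ∑ i, ‖(inner ℝ (stdOrthonormalBasis ℝ V i) v) •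
          (pr A 0 j (stdOrthonormalBasis ℝ V i) - stdOrthonormalBasis ℝ V i)‖ :=
          norm_sum_le _ _
      _ ≤ ∑ _i : Fin (Module.finrank ℝ V), ‖v‖ * (δ / (4 * (Module.finrank ℝ V + 1))) := by
          refine Finset.sum_le_sum ?_
          intro i _
          rw [norm_smul]
          refine mul_le_mul ?_ (hb i j hj) (norm_nonneg _) (norm_nonneg _)
          have := norm_inner_le_norm (𝕜 := ℝ) (stdOrthonormalBasis ℝ V i) v
          rwa [(stdOrthonormalBasis ℝ V).norm_eq_one i, one_mul] at this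
      _ ≤ δ / 4 * ‖v‖ := by
          rw [Finset.sum_const, Finset.card_univ, Fintype.card_fin, nsmul_eq_mul]
          have h3 : ((Module.finrank ℝ V : ℕ) : ℝ) * (δ / (4 * (Module.finrank ℝ V + 1))) ≤
              δ / 4 := by
            rw [mul_div_assoc', div_le_div_iff₀ (by positivity) (by norm_num)]
            nlinarith
          calc ((Module.finrank ℝ V : ℕ) : ℝ) * (‖v‖ * (δ / (4 * (Module.finrank ℝ V + 1))))
              = ((Module.finrank ℝ V : ℕ) : ℝ) * (δ / (4 * (Module.finrank ℝ V + 1))) * ‖v‖ := by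
                ring
            _ ≤ δ / 4 * ‖v‖ := mul_le_mul_of_nonneg_right h3 (norm_nonneg _)
  intro i j hij hj w
  have hinj : Function.Injective (SBS_lin A 0 i) := by
    rw [← LinearMap.ker_eq_bot, LinearMap.ker_eq_bot']
    intro v hv
    have h1 := ha v i (le_trans hij hj)
    have h2 : pr A 0 i v = 0 := hv
    rw [h2, zero_sub, norm_neg] at h1
    have h3 : ‖v‖ = 0 := by
      have := norm_nonneg v
      nlinarith
    exact norm_eq_zero.1 h3
  obtain ⟨v, hv⟩ := (LinearMap.injective_iff_surjective.1 hinj) w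
  have hv' : pr A 0 i v = w := hv
  have h1 := ha v i (le_trans hij hj)
  have h2 := ha v j hj
  have h3 : ‖v‖ ≤ 2 * ‖w‖ := by
    rw [hv'] at h1
    have h4 : ‖v‖ ≤ ‖w‖ + ‖w - v‖ := by
      calc ‖v‖ = ‖w - (w - v)‖ := by congr 1; abel
        _ ≤ ‖w‖ + ‖w - v‖ := norm_sub_le _ _
    have := norm_nonneg v
    nlinarith
  have h5 : pr A i j w = pr A 0 j v := by
    rw [← hv', pr_comp A (Nat.zero_le i) hij]
  rw [h5]
  rw [hv'] at h1
  calc ‖pr A 0 j v - w‖ = ‖(pr A 0 j v - v) - (w - v)‖ := by congr 1; abel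
    _ ≤ ‖pr A 0 j v - v‖ + ‖w - v‖ := norm_sub_le _ _
    _ ≤ δ / 4 * ‖v‖ + δ / 4 * ‖v‖ := add_le_add h2 h1
    _ = δ / 2 * ‖v‖ := by ring
    _ ≤ δ / 2 * (2 * ‖w‖) := by gcongr
    _ = δ * ‖w‖ := by ring

section

variable {V H : Type} [NormedAddCommGroup V] [InnerProductSpace ℝ V] [MeasurableSpace V]
    [BorelSpace V] [FiniteDimensional ℝ V]
    [NormedAddCommGroup H] [InnerProductSpace ℝ H] [MeasurableSpace H]

private theorem SBS_msq (M : MN V H) {h : ℝ} (hh : 0 < h) (hh1 : h < 1) (v w : V)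
    (hw : ‖w‖ ≤ 2) :
    ∫⁻ ω, ENNReal.ofReal (‖M.A h ω w - v‖ ^ 2) ∂M.γ ≤
      ENNReal.ofReal (‖w - v‖ ^ 2 + 4 * M.C * h) := by
  have hC := M.C1
  have hVc : CompleteSpace V := FiniteDimensional.complete ℝ V
  have hm : Measurable (fun ω => M.A h ω w) := (M.mA h).comp (measurable_id.prodMk measurable_const)
  have hmX : Measurable (fun ω => M.A h ω w - w) := hm.sub_const w
  have hX : Integrable (fun ω => M.A h ω w - w) M.γ := (M.int h w hh hh1).sub (integrable_const w)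
  have hX0 : ∫ ω, (M.A h ω w - w) ∂M.γ = 0 := by
    rw [integral_sub (M.int h w hh hh1) (integrable_const w), M.mean h w hh hh1, integral_const]
    simp
  have hvar := M.var h w hh hh1
  have hX2 : Integrable (fun ω => ‖M.A h ω w - w‖ ^ 2) M.γ := by
    refine ⟨(hmX.norm.pow_const 2).aestronglyMeasurable, ?_⟩
    rw [hasFiniteIntegral_iff_ofReal (Filter.Eventually.of_forall fun ω => by positivity)]
    exact lt_of_le_of_lt hvar ENNReal.ofReal_lt_top
  have hX2b : ∫ ω, ‖M.A h ω w - w‖ ^ 2 ∂M.γ ≤ M.C * h * ‖w‖ ^ 2 := by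
    rw [← ofReal_integral_eq_lintegral_ofReal hX2
      (Filter.Eventually.of_forall fun ω => by positivity)] at hvar
    exact (ENNReal.ofReal_le_ofReal_iff (by positivity)).1 hvar
  have hin : Integrable (fun ω => 2 * inner ℝ (w - v) (M.A h ω w - w)) M.γ :=
    (hX.const_inner (w - v)).const_mul 2
  have heq : ∀ ω, ‖M.A h ω w - v‖ ^ 2 = ‖M.A h ω w - w‖ ^ 2 +
      2 * inner ℝ (w - v) (M.A h ω w - w) + ‖w - v‖ ^ 2 := by
    intro ω
    have : M.A h ω w - v = (M.A h ω w - w) + (w - v) := by abel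
    rw [this, norm_add_sq_real, real_inner_comm]
  have hI : Integrable (fun ω => ‖M.A h ω w - v‖ ^ 2) M.γ := by
    simp only [heq]
    exact (hX2.add hin).add (integrable_const _)
  rw [← ofReal_integral_eq_lintegral_ofReal hI
    (Filter.Eventually.of_forall fun ω => by positivity)]
  refine ENNReal.ofReal_le_ofReal ?_
  simp only [heq]
  have hw2 : ‖w‖ ^ 2 ≤ 4 := by
    have := norm_nonneg w
    nlinarith
  have hs1 : Integrable (fun ω => ‖M.A h ω w - w‖ ^ 2 +
      2 * inner ℝ (w - v) (M.A h ω w - w)) M.γ := hX2.add hin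
  rw [integral_add hs1 (integrable_const _), integral_add hX2 hin, integral_const_mul,
    integral_inner hX, hX0, inner_zero_right, mul_zero, add_zero, integral_const]
  simp only [probReal_univ, one_smul]
  have : M.C * h * ‖w‖ ^ 2 ≤ M.C * h * 4 := by gcongr
  linarith

omit [BorelSpace V] [FiniteDimensional ℝ V] in
private theorem SBS_meas_pr (M : MN V H) (h : ℝ) (i j : ℕ) (w : V) : Measurable (fun ω : ℕ → H =>
    pr (fun j => M.A h (ω j)) i j w) := by
  rcases le_total i j with hij | hij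
  · induction j, hij using Nat.le_induction with
    | base => simp only [pr_self]; exact measurable_const
    | succ l hl ih =>
      simp only [pr_succ _ hl]
      exact (M.mA h).comp ((measurable_pi_apply l).prodMk ih)
  · unfold pr
    rw [Nat.sub_eq_zero_of_le hij]
    exact measurable_const

omit [FiniteDimensional ℝ V] in
private theorem SBS_meas_set (M : MN V H) (h : ℝ) (v w : V) (δ : ℝ) (n : ℕ) :
    MeasurableSet {ω : ℕ → H | ∃ j, j ≤ n ∧ δ ≤ ‖pr (fun l => M.A h (ω l)) 0 j w - v‖} := by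
  have h1 : {ω : ℕ → H | ∃ j, j ≤ n ∧ δ ≤ ‖pr (fun l => M.A h (ω l)) 0 j w - v‖} =
      ⋃ j, ⋃ (_ : j ≤ n), {ω : ℕ → H | δ ≤ ‖pr (fun l => M.A h (ω l)) 0 j w - v‖} := by
    ext ω
    simp
  rw [h1]
  refine MeasurableSet.iUnion fun j => MeasurableSet.iUnion fun _ => ?_
  exact measurableSet_le measurable_const ((SBS_meas_pr M h 0 j w).sub_const v).norm

private theorem SBS_max (M : MN V H) {h : ℝ} (hh : 0 < h) (hh1 : h < 1) (v : V) (hv : ‖v‖ ≤ 1)
    (δ : ℝ) (hδ : 0 < δ) (hδ1 : δ ≤ 1) (n : ℕ) : ∀ w : V,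
    PI M.γ {ω : ℕ → H | ∃ j, j ≤ n ∧ δ ≤ ‖pr (fun l => M.A h (ω l)) 0 j w - v‖} ≤
      ENNReal.ofReal ((‖w - v‖ ^ 2 + n * (4 * M.C * h)) / δ ^ 2) := by
  have hC := M.C1
  have htriv : ∀ (w : V) (n : ℕ), δ ≤ ‖w - v‖ →
      PI M.γ {ω : ℕ → H | ∃ j, j ≤ n ∧ δ ≤ ‖pr (fun l => M.A h (ω l)) 0 j w - v‖} ≤
      ENNReal.ofReal ((‖w - v‖ ^ 2 + n * (4 * M.C * h)) / δ ^ 2) := by
    intro w n hw
    refine le_trans prob_le_one ?_
    rw [← ENNReal.ofReal_one]
    refine ENNReal.ofReal_le_ofReal ?_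
    rw [one_le_div (by positivity)]
    have h1 : δ ^ 2 ≤ ‖w - v‖ ^ 2 := by gcongr
    have h2 : 0 ≤ (n:ℝ) * (4 * M.C * h) := by positivity
    linarith
  induction n with
  | zero =>
    intro w
    by_cases hw : δ ≤ ‖w - v‖
    · exact htriv w 0 hw
    · have : {ω : ℕ → H | ∃ j, j ≤ 0 ∧ δ ≤ ‖pr (fun l => M.A h (ω l)) 0 j w - v‖} = ∅ := by
        ext ω
        simp only [Set.mem_ofPred_eq, Set.mem_empty_iff_false, iff_false, not_exists, not_and]
        intro j hj
        have hj0 : j = 0 := by omega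
        subst hj0
        rw [pr_self]
        exact hw
      rw [this, measure_empty]
      exact zero_le
  | succ n ih =>
    intro w
    by_cases hw : δ ≤ ‖w - v‖
    · exact htriv w (n + 1) hw
    · have hw2 : ‖w‖ ≤ 2 := by
        have : ‖w‖ ≤ ‖w - v‖ + ‖v‖ := by
          calc ‖w‖ = ‖(w - v) + v‖ := by congr 1; abel
            _ ≤ _ := norm_add_le _ _
        linarith
      rw [← lintegral_indicator_one (SBS_meas_set M h v w δ (n + 1)),
        lintegral_cons _ (measurable_one.indicator (SBS_meas_set M h v w δ (n + 1)))]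
      have hstep : ∀ a : H, ∫⁻ ω, {ω : ℕ → H | ∃ j, j ≤ n + 1 ∧
          δ ≤ ‖pr (fun l => M.A h (ω l)) 0 j w - v‖}.indicator 1
            (fun i => Nat.casesOn i a ω) ∂(PI M.γ) ≤
          ENNReal.ofReal (1 / δ ^ 2) * (ENNReal.ofReal (‖M.A h a w - v‖ ^ 2) +
            ENNReal.ofReal (n * (4 * M.C * h))) := by
        intro a
        rw [← ENNReal.ofReal_add (by positivity) (by positivity), ← ENNReal.ofReal_mul
          (by positivity)]
        have e1 : 1 / δ ^ 2 * (‖M.A h a w - v‖ ^ 2 + n * (4 * M.C * h)) =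
          (‖M.A h a w - v‖ ^ 2 + n * (4 * M.C * h)) / δ ^ 2 := by ring
        rw [e1]
        refine le_trans ?_ (ih (M.A h a w))
        rw [← lintegral_indicator_one (SBS_meas_set M h v (M.A h a w) δ n)]
        refine lintegral_mono ?_
        intro ω
        show {ω : ℕ → H | ∃ j, j ≤ n + 1 ∧
          δ ≤ ‖pr (fun l => M.A h (ω l)) 0 j w - v‖}.indicator (1 : (ℕ → H) → ℝ≥0∞)
            (fun i => Nat.casesOn i a ω) ≤ _
        by_cases hω : (fun i => Nat.casesOn i a ω : ℕ → H) ∈ {ω : ℕ → H | ∃ j, j ≤ n + 1 ∧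
          δ ≤ ‖pr (fun l => M.A h (ω l)) 0 j w - v‖}
        · rw [Set.indicator_of_mem hω, Set.indicator_of_mem]
          · rfl
          · obtain ⟨j, hj, hjd⟩ := hω
            cases j with
            | zero =>
              rw [pr_self] at hjd
              exact absurd hjd hw
            | succ j =>
              refine ⟨j, by omega, ?_⟩
              rw [SBS_pr_cons] at hjd
              exact hjd
        · rw [Set.indicator_of_notMem hω]
          exact zero_le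
      refine le_trans (lintegral_mono hstep) ?_
      have hmm : Measurable (fun a => ENNReal.ofReal (‖M.A h a w - v‖ ^ 2)) := by
        have hm : Measurable (fun ω => M.A h ω w) :=
          (M.mA h).comp (measurable_id.prodMk measurable_const)
        exact ((hm.sub_const v).norm.pow_const 2).ennreal_ofReal
      have hmm2 : Measurable (fun a => ENNReal.ofReal (‖M.A h a w - v‖ ^ 2) +
          ENNReal.ofReal (n * (4 * M.C * h))) := hmm.add measurable_const
      rw [lintegral_const_mul _ hmm2, lintegral_add_right _ measurable_const,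
        lintegral_const, measure_univ, mul_one]
      calc ENNReal.ofReal (1 / δ ^ 2) * (∫⁻ a, ENNReal.ofReal (‖M.A h a w - v‖ ^ 2) ∂M.γ +
            ENNReal.ofReal (n * (4 * M.C * h)))
          ≤ ENNReal.ofReal (1 / δ ^ 2) * (ENNReal.ofReal (‖w - v‖ ^ 2 + 4 * M.C * h) +
            ENNReal.ofReal (n * (4 * M.C * h))) :=
            mul_le_mul_right (add_le_add_left (SBS_msq M hh hh1 v w hw2) _) _
        _ = _ := by
            rw [← ENNReal.ofReal_add (by positivity) (by positivity), ← ENNReal.ofReal_mul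
              (by positivity)]
            congr 1
            push_cast
            ring

private theorem SBS_meas_near (M : MN V H) (h : ℝ) (m : ℕ) (δ : ℝ) :
    MeasurableSet {ω : ℕ → H | PNear (fun j => M.A h (ω j)) m δ} := by
  have hsc : SecondCountableTopology V := by
    have : ProperSpace V := FiniteDimensional.proper ℝ V
    infer_instance
  have h1 : {ω : ℕ → H | PNear (fun j => M.A h (ω j)) m δ} =
      ⋂ i, ⋂ j, ⋂ (_ : i ≤ j), ⋂ (_ : j ≤ m), ⋂ (k : ℕ),
        {ω : ℕ → H | ‖pr (fun j => M.A h (ω j)) i j (TopologicalSpace.denseSeq V k) -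
          TopologicalSpace.denseSeq V k‖ ≤ δ * ‖TopologicalSpace.denseSeq V k‖} := by
    ext ω
    simp only [Set.mem_iInter, Set.mem_ofPred_eq]
    constructor
    · intro hω i j hij hj k
      exact hω i j hij hj _
    · intro hω i j hij hj w
      have hcl : IsClosed {w : V | ‖pr (fun j => M.A h (ω j)) i j w - w‖ ≤ δ * ‖w‖} := by
        have hcont : Continuous (SBS_lin (fun j => M.A h (ω j)) i j) :=
          LinearMap.continuous_of_finiteDimensional _
        exact isClosed_le (hcont.sub continuous_id).norm (continuous_const.mul continuous_norm)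
      exact (TopologicalSpace.denseRange_denseSeq V).induction_on w hcl (hω i j hij hj)
  rw [h1]
  refine MeasurableSet.iInter fun i => MeasurableSet.iInter fun j => MeasurableSet.iInter fun _ =>
    MeasurableSet.iInter fun _ => MeasurableSet.iInter fun k => ?_
  exact measurableSet_le ((SBS_meas_pr M h i j _).sub_const _).norm measurable_const

end

theorem prod_near {V H : Type} [NormedAddCommGroup V] [InnerProductSpace ℝ V] [MeasurableSpace V]
    [BorelSpace V] [FiniteDimensional ℝ V]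
    [NormedAddCommGroup H] [InnerProductSpace ℝ H] [MeasurableSpace H] (M : MN V H) :
    ∃ C : ℝ, 1 ≤ C ∧ ∀ h, 0 < h → h < 1 → ∀ (m : ℕ) (δ : ℝ), 0 < δ → δ ≤ 1 →
      MeasurableSet {ω : ℕ → H | PNear (fun j => M.A h (ω j)) m δ} ∧
      PI M.γ {ω | ¬ PNear (fun j => M.A h (ω j)) m δ} ≤ ENNReal.ofReal (C * (m * h) / δ ^ 2) := by
  refine ⟨64 * (Module.finrank ℝ V + 1) ^ 3 * M.C, ?_, ?_⟩
  · have h1 := M.C1
    have h2 : (1:ℝ) ≤ (Module.finrank ℝ V + 1) ^ 3 :=
      one_le_pow₀ (by linarith [Nat.cast_nonneg (α := ℝ) (Module.finrank ℝ V)])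
    nlinarith
  intro h hh hh1 m δ hδ hδ1
  refine ⟨SBS_meas_near M h m δ, ?_⟩
  have hC := M.C1
  set δ' : ℝ := δ / (4 * (Module.finrank ℝ V + 1)) with hδ'
  have hD0 : (0:ℝ) ≤ (Module.finrank ℝ V : ℝ) := Nat.cast_nonneg _
  have hδ'0 : 0 < δ' := by positivity
  have hδ'1 : δ' ≤ 1 := by
    rw [hδ', div_le_one (by positivity)]
    linarith
  have hsub : {ω : ℕ → H | ¬ PNear (fun j => M.A h (ω j)) m δ} ⊆
      ⋃ i : Fin (Module.finrank ℝ V), {ω : ℕ → H | ∃ j, j ≤ m ∧
        δ' ≤ ‖pr (fun l => M.A h (ω l)) 0 j (stdOrthonormalBasis ℝ V i) -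
          stdOrthonormalBasis ℝ V i‖} := by
    intro ω hω
    by_contra hcon
    refine hω (SBS_det _ m δ hδ hδ1 ?_)
    intro i j hj
    simp only [Set.mem_iUnion, Set.mem_ofPred_eq, not_exists, not_and, not_le] at hcon
    exact (hcon i j hj).le
  refine le_trans (measure_mono hsub) (le_trans (measure_iUnion_fintype_le _ _) ?_)
  have hone : ∀ i : Fin (Module.finrank ℝ V), PI M.γ {ω : ℕ → H | ∃ j, j ≤ m ∧
        δ' ≤ ‖pr (fun l => M.A h (ω l)) 0 j (stdOrthonormalBasis ℝ V i) -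
          stdOrthonormalBasis ℝ V i‖} ≤ ENNReal.ofReal (m * (4 * M.C * h) / δ' ^ 2) := by
    intro i
    have h1 := SBS_max M hh hh1 (stdOrthonormalBasis ℝ V i)
      ((stdOrthonormalBasis ℝ V).norm_eq_one i).le δ' hδ'0 hδ'1 m (stdOrthonormalBasis ℝ V i)
    rw [sub_self, norm_zero] at h1
    simpa using h1
  refine le_trans (Finset.sum_le_sum fun i _ => hone i) ?_
  rw [Finset.sum_const, Finset.card_univ, Fintype.card_fin, nsmul_eq_mul, ← ENNReal.ofReal_natCast,
    ← ENNReal.ofReal_mul (by positivity)]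
  refine ENNReal.ofReal_le_ofReal ?_
  have h2 : (Module.finrank ℝ V : ℝ) * (m * (4 * M.C * h) / δ' ^ 2) =
      64 * ((Module.finrank ℝ V : ℝ) * (Module.finrank ℝ V + 1) ^ 2) * M.C * (m * h) / δ ^ 2 := by
    rw [hδ']
    field_simp
    ring
  rw [h2]
  gcongr
  nlinarith

end DynC
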