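import Pool.Agent.Lib_MP_36b788c.SBS

/-!
# One site: deterministic perturbation estimates

`G_{j+1} = J(A_j G_j) + s_j`, all partial products of the `A_j` are close to the identity.

PROOF. `e_i = J(A_i G_i) - A_i G_i`, `‖e_i‖ ≤ h ‖A_i G_i‖^{1+β}` (`psi ≤ v`, `v - psi v = h psi^{1+β}`), `G_j = pr A 0 j G_0 + Σ_{i<j} pr A (i+1) j (s_i + e_i)` (induction on `j`, `pr_succ`). `u = ‖G_0‖`.
* `site_one`: strong induction: if `‖G_i‖ ≤ 2u` for `i < j` then `‖e_i‖ ≤ h (9/4) u (4u)^β`, the sum over `i < m` is `≤ (9/4) δ u`, so `‖G_j - G_0‖ ≤ δu + (1+δ)(δu + (9/4)δu) ≤ 8δu` and `‖G_j‖ ≤ 2u`.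
* `site_two`: `D = G' - G`: `D_j = (pr A' 0 j - pr A 0 j) G_0 + Σ_i pr A' (i+1) j ((s'_i - s_i) + (e'_i - e_i)) + Σ_i (pr A' (i+1) j - pr A (i+1) j)(s_i + e_i)`. `pr A' i j = θ_{ij} pr A i j + O(ς)`; `‖(pr A' - pr A) w‖ ≤ (2ϑ + ς)‖w‖`; `Σ‖s_i + e_i‖ ≤ 4δu`; `‖e'_i - e_i‖ ≤ h(1+β)(4u)^β (2‖D_i‖ + 2ςu)` (`JV_lip`, `‖A'_i G'_i - A_i G_i‖ ≤ ‖A'_i D_i‖ + ς ‖G_i‖`).
  First by strong induction `‖D_j‖ ≤ 2(ϑ+δ1+ς)u`, then `‖D_j - (θ_{0j}-1) G_0‖ ≤ (ϑδ + ς)u + (2ϑ+ς)4δu + (9/8)(δ1 u + 4δ(ϑ+δ1+ς)u + 2δςu) ≤ 20(δϑ+δ1+ς)u`.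
* `site_far`: `D_m = Σ_j pr A (j+1) m (a_j + e_j)`, `X = max‖D_j‖ ≤ (1+δ)(Σ‖a‖ + (1+δ)δ X)`, so `X ≤ 2Σ‖a‖`, `‖D_m - Σ a‖ ≤ δΣ‖a‖ + (1+δ)²δX`.
-/

open MeasureTheory ProbabilityTheory
open scoped ENNReal

namespace DynC

open Dyn

section

variable {V : Type} [NormedAddCommGroup V] [InnerProductSpace ℝ V]

theorem JV_near {β h : ℝ} (hβ : 0 < β) (hh : 0 ≤ h) (v : V) :
    ‖JV β h v - v‖ ≤ h * ‖v‖ ^ (1 + β) := by
  have h1 : JV β h v - v = -((h * ‖JV β h v‖ ^ β) • JV β h v) := by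
    conv_lhs => rw [← JV_eq hβ hh v]
    nth_rewrite 1 [JV_eq hβ hh v]
    abel
  have h2 : ‖JV β h v‖ ≤ ‖v‖ := by
    rw [norm_JV hβ hh]
    exact psi_le hβ hh (norm_nonneg v)
  have h3 : ‖JV β h v‖ ^ β ≤ ‖v‖ ^ β := Real.rpow_le_rpow (norm_nonneg _) h2 hβ.le
  have h4 : 0 ≤ ‖JV β h v‖ ^ β := Real.rpow_nonneg (norm_nonneg _) _
  rw [h1, norm_neg, norm_smul, Real.norm_of_nonneg (mul_nonneg hh h4), add_comm,
    Real.rpow_add' (norm_nonneg v) (by positivity), Real.rpow_one, mul_assoc]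
  gcongr

private theorem Site_rep (A : ℕ → V →ₗ[ℝ] V) (m : ℕ) (G c : ℕ → V)
    (hG : ∀ j, j < m → G (j + 1) = A j (G j) + c j) (j : ℕ) (hj : j ≤ m) :
    G j = pr A 0 j (G 0) + ∑ i ∈ Finset.range j, pr A (i + 1) j (c i) := by
  induction j with
  | zero => simp [pr_self]
  | succ j ih =>
    have hj' : j < m := hj
    rw [hG j hj', Finset.sum_range_succ, pr_self, pr_succ A (Nat.zero_le j)]
    conv_lhs => rw [ih hj'.le]
    rw [map_add, map_sum, add_assoc]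
    congr 2
    refine Finset.sum_congr rfl fun i hi => ?_
    rw [pr_succ A (by have := Finset.mem_range.1 hi; omega)]

private theorem Site_A {A : ℕ → V →ₗ[ℝ] V} {m : ℕ} {δ : ℝ} (hA : PNear A m δ) {j : ℕ}
    (hj : j < m) (w : V) : ‖A j w - w‖ ≤ δ * ‖w‖ := by
  have h1 := hA j (j + 1) (Nat.le_succ j) hj w
  rwa [pr_succ A le_rfl, pr_self] at h1

private theorem Site_An {A : ℕ → V →ₗ[ℝ] V} {m : ℕ} {δ : ℝ} (hA : PNear A m δ) {j : ℕ}
    (hj : j < m) (w : V) : ‖A j w‖ ≤ (1 + δ) * ‖w‖ := by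
  have h1 := Site_A hA hj w
  have h2 := norm_le_norm_add_norm_sub' (A j w) w
  linarith

private theorem Site_pn {A : ℕ → V →ₗ[ℝ] V} {m : ℕ} {δ : ℝ} (hA : PNear A m δ) {i j : ℕ}
    (hij : i ≤ j) (hj : j ≤ m) (w : V) : ‖pr A i j w‖ ≤ (1 + δ) * ‖w‖ := by
  have h1 := hA i j hij hj w
  have h2 := norm_le_norm_add_norm_sub' (pr A i j w) w
  linarith

private theorem Site_sum {A : ℕ → V →ₗ[ℝ] V} {m : ℕ} {δ : ℝ} (hA : PNear A m δ)
    (c : ℕ → V) {j : ℕ} (hj : j ≤ m) :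
    ‖∑ i ∈ Finset.range j, pr A (i + 1) j (c i)‖ ≤
      (1 + δ) * ∑ i ∈ Finset.range j, ‖c i‖ := by
  rw [Finset.mul_sum]
  refine (norm_sum_le _ _).trans (Finset.sum_le_sum fun i hi => ?_)
  exact Site_pn hA (by have := Finset.mem_range.1 hi; omega) hj _

private theorem Site_e {β h : ℝ} (hβ : 0 < β) (hh : 0 < h) {u : ℝ} (v : V) (hv : ‖v‖ ≤ 2 * u) :
    ‖JV β h v - v‖ ≤ h * (4 * u) ^ β * ‖v‖ := by
  have h1 := JV_near hβ hh.le v
  rw [add_comm, Real.rpow_add' (norm_nonneg v) (by positivity), Real.rpow_one] at h1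
  have hu : 0 ≤ u := by have := norm_nonneg v; linarith
  have h2 : ‖v‖ ^ β ≤ (4 * u) ^ β :=
    Real.rpow_le_rpow (norm_nonneg _) (by linarith) hβ.le
  calc ‖JV β h v - v‖ ≤ h * (‖v‖ ^ β * ‖v‖) := h1
    _ ≤ h * ((4 * u) ^ β * ‖v‖) := by gcongr
    _ = _ := by ring

/-- closeness and the size of the forcing -/
private theorem Site_core {β h : ℝ} (hβ : 0 < β) (hh : 0 < h) (m : ℕ) (A : ℕ → V →ₗ[ℝ] V)
    (s G : ℕ → V)
    (hG : ∀ j, j < m → G (j + 1) = JV β h (A j (G j)) + s j) (δ : ℝ) (hδ : 0 < δ)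
    (hδ1 : δ ≤ 1 / 16) (hA : PNear A m δ) (hs : ∑ j ∈ Finset.range m, ‖s j‖ ≤ δ * ‖G 0‖)
    (ht : m * h * (1 + β) * (4 * ‖G 0‖) ^ β ≤ δ) :
    (∀ j, j ≤ m → ‖G j - G 0‖ ≤ 4 * δ * ‖G 0‖) ∧
      ∀ j, j ≤ m → ∑ i ∈ Finset.range j, ‖s i + (JV β h (A i (G i)) - A i (G i))‖ ≤
        7 / 3 * δ * ‖G 0‖ := by
  set u : ℝ := ‖G 0‖ with hu
  have hu0 : 0 ≤ u := norm_nonneg _
  have hp : 0 ≤ (4 * u) ^ β := Real.rpow_nonneg (by positivity) _
  have ht1 : (m : ℝ) * h * (4 * u) ^ β ≤ δ := by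
    refine le_trans ?_ ht
    have h1 : 0 ≤ (m : ℝ) * h * (4 * u) ^ β := by positivity
    nlinarith
  set c : ℕ → V := fun i => s i + (JV β h (A i (G i)) - A i (G i)) with hc
  have hrep := Site_rep A m G c (fun j hj => by
    rw [hG j hj]
    change JV β h (A j (G j)) + s j =
      A j (G j) + (s j + (JV β h (A j (G j)) - A j (G j)))
    abel)
  have hcs : ∀ j, j ≤ m → (∀ i, i < j → ‖G i‖ ≤ 5 / 4 * u) →
      ∑ i ∈ Finset.range j, ‖c i‖ ≤ 7 / 3 * δ * u := by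
    intro j hj hi
    have h1 : ∀ i ∈ Finset.range j, ‖c i‖ ≤ ‖s i‖ + h * (4 * u) ^ β * (4 / 3 * u) := by
      intro i hir
      have hij : i < j := Finset.mem_range.1 hir
      have h2 : ‖A i (G i)‖ ≤ 4 / 3 * u := by
        have h3 := Site_An hA (hij.trans_le hj) (G i)
        have h4 := hi i hij
        have h5 : (1 + δ) * ‖G i‖ ≤ (1 + 1 / 16) * (5 / 4 * u) := by gcongr
        linarith
      have h3 := Site_e hβ hh (u := u) (A i (G i)) (by linarith)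
      have h4 : h * (4 * u) ^ β * ‖A i (G i)‖ ≤ h * (4 * u) ^ β * (4 / 3 * u) := by gcongr
      have h5 := norm_add_le (s i) (JV β h (A i (G i)) - A i (G i))
      exact h5.trans (by linarith)
    have h2 : ∑ i ∈ Finset.range j, ‖s i‖ ≤ ∑ i ∈ Finset.range m, ‖s i‖ :=
      Finset.sum_le_sum_of_subset_of_nonneg (Finset.range_mono hj) fun _ _ _ => norm_nonneg _
    have h3 : (j : ℝ) * (h * (4 * u) ^ β * (4 / 3 * u)) ≤ δ * (4 / 3 * u) := by
      have h4 : (j : ℝ) ≤ m := by exact_mod_cast hj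
      calc (j : ℝ) * (h * (4 * u) ^ β * (4 / 3 * u)) ≤
            (m : ℝ) * (h * (4 * u) ^ β * (4 / 3 * u)) := by gcongr
        _ = ((m : ℝ) * h * (4 * u) ^ β) * (4 / 3 * u) := by ring
        _ ≤ δ * (4 / 3 * u) := by gcongr
    have h4 := Finset.sum_le_sum h1
    rw [Finset.sum_add_distrib, Finset.sum_const, Finset.card_range, nsmul_eq_mul] at h4
    linarith
  have hmain : ∀ j, j ≤ m → ‖G j - G 0‖ ≤ 4 * δ * u := by
    intro j
    induction j using Nat.strong_induction_on with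
    | _ j ih =>
      intro hj
      have hGi : ∀ i, i < j → ‖G i‖ ≤ 5 / 4 * u := by
        intro i hi
        have h1 := ih i hi (by omega)
        have h2 := norm_le_norm_add_norm_sub' (G i) (G 0)
        have h3 : 4 * δ * u ≤ 4 * (1 / 16) * u := by gcongr
        linarith
      have h1 := hcs j hj hGi
      have h2 := Site_sum hA c hj
      have h3 := hA 0 j (Nat.zero_le j) hj (G 0)
      have h4 : G j - G 0 = (pr A 0 j (G 0) - G 0) +
          ∑ i ∈ Finset.range j, pr A (i + 1) j (c i) := by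
        conv_lhs => rw [hrep j hj]
        abel
      rw [h4]
      refine (norm_add_le _ _).trans ?_
      have h5 : (1 + δ) * ∑ i ∈ Finset.range j, ‖c i‖ ≤ (1 + 1 / 16) * (7 / 3 * δ * u) := by
        gcongr
      have h6 : 0 ≤ δ * u := by positivity
      nlinarith
  refine ⟨hmain, fun j hj => hcs j hj fun i hi => ?_⟩
  have h1 := hmain i (by omega)
  have h2 := norm_le_norm_add_norm_sub' (G i) (G 0)
  have h3 : 4 * δ * u ≤ 4 * (1 / 16) * u := by gcongr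
  linarith

theorem site_one {β h : ℝ} (hβ : 0 < β) (hh : 0 < h) (m : ℕ) (A : ℕ → V →ₗ[ℝ] V) (s G : ℕ → V)
    (hG : ∀ j, j < m → G (j + 1) = JV β h (A j (G j)) + s j) (δ : ℝ) (hδ : 0 < δ)
    (hδ1 : δ ≤ 1 / 16) (hA : PNear A m δ) (hs : ∑ j ∈ Finset.range m, ‖s j‖ ≤ δ * ‖G 0‖)
    (ht : m * h * (1 + β) * (4 * ‖G 0‖) ^ β ≤ δ) (j : ℕ) (hj : j ≤ m) :
    ‖G j - G 0‖ ≤ 8 * δ * ‖G 0‖ := by
  have h1 := (Site_core hβ hh m A s G hG δ hδ hδ1 hA hs ht).1 j hj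
  have h2 : 0 ≤ δ * ‖G 0‖ := by positivity
  linarith

theorem site_two {β h : ℝ} (hβ : 0 < β) (hh : 0 < h) (m : ℕ) (A A' : ℕ → V →ₗ[ℝ] V)
    (s s' G G' : ℕ → V)
    (hG : ∀ j, j < m → G (j + 1) = JV β h (A j (G j)) + s j)
    (hG' : ∀ j, j < m → G' (j + 1) = JV β h (A' j (G' j)) + s' j) (h0 : G' 0 = G 0)
    (δ ϑ ς δ1 : ℝ) (hδ : 0 < δ) (hδ1 : δ ≤ 1 / 16) (hϑ : 0 ≤ ϑ) (hϑ1 : ϑ ≤ 1 / 2) (hς : 0 ≤ ς)
    (hς1 : ς ≤ 1 / 16) (hd1 : 0 ≤ δ1) (hA : PNear A m δ) (hA' : PNear A' m δ)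
    (θ : ℕ → ℕ → ℝ) (hθ : ∀ i j, i ≤ j → j ≤ m → |θ i j - 1| ≤ ϑ)
    (hAA : ∀ i j, i ≤ j → j ≤ m → ∀ w, ‖pr A' i j w - θ i j • pr A i j w‖ ≤ ς * ‖w‖)
    (hAA1 : ∀ j, j < m → ∀ w, ‖A' j w - A j w‖ ≤ ς * ‖w‖)
    (hs : ∑ j ∈ Finset.range m, ‖s j‖ ≤ δ * ‖G 0‖)
    (hs' : ∑ j ∈ Finset.range m, ‖s' j‖ ≤ δ * ‖G 0‖)
    (hss : ∑ j ∈ Finset.range m, ‖s' j - s j‖ ≤ δ1 * ‖G 0‖)
    (ht : m * h * (1 + β) * (4 * ‖G 0‖) ^ β ≤ δ) (j : ℕ) (hj : j ≤ m) :
    ‖G' j - G j - (θ 0 j - 1) • G 0‖ ≤ 20 * (δ * ϑ + δ1 + ς) * ‖G 0‖ := by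
  obtain ⟨c1, c2⟩ := Site_core hβ hh m A s G hG δ hδ hδ1 hA hs ht
  have hs'' : ∑ j ∈ Finset.range m, ‖s' j‖ ≤ δ * ‖G' 0‖ := by rw [h0]; exact hs'
  have ht' : m * h * (1 + β) * (4 * ‖G' 0‖) ^ β ≤ δ := by rw [h0]; exact ht
  obtain ⟨c1', c2'⟩ := Site_core hβ hh m A' s' G' hG' δ hδ hδ1 hA' hs'' ht'
  rw [h0] at c1'
  set u : ℝ := ‖G 0‖ with hu
  have hu0 : 0 ≤ u := norm_nonneg _
  have hp : 0 ≤ (4 * u) ^ β := Real.rpow_nonneg (by positivity) _
  have hGn : ∀ i, i ≤ m → ‖G i‖ ≤ 5 / 4 * u := by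
    intro i hi
    have h1 := c1 i hi
    have h2 := norm_le_norm_add_norm_sub' (G i) (G 0)
    have h3 : 4 * δ * u ≤ 4 * (1 / 16) * u := by gcongr
    linarith
  have hGn' : ∀ i, i ≤ m → ‖G' i‖ ≤ 5 / 4 * u := by
    intro i hi
    have h1 := c1' i hi
    have h2 := norm_le_norm_add_norm_sub' (G' i) (G 0)
    have h3 : 4 * δ * u ≤ 4 * (1 / 16) * u := by gcongr
    linarith
  set c : ℕ → V := fun i => s i + (JV β h (A i (G i)) - A i (G i)) with hc
  set c' : ℕ → V := fun i => s' i + (JV β h (A' i (G' i)) - A' i (G' i)) with hc'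
  have hrep := Site_rep A m G c (fun j hj => by
    rw [hG j hj]
    change JV β h (A j (G j)) + s j =
      A j (G j) + (s j + (JV β h (A j (G j)) - A j (G j)))
    abel)
  have hrep' := Site_rep A' m G' c' (fun j hj => by
    rw [hG' j hj]
    change JV β h (A' j (G' j)) + s' j =
      A' j (G' j) + (s' j + (JV β h (A' j (G' j)) - A' j (G' j)))
    abel)
  rw [h0] at hrep'
  -- difference of the propagators
  have hpd : ∀ i j, i ≤ j → j ≤ m → ∀ w, ‖pr A' i j w - pr A i j w‖ ≤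
      (ς + 17 / 16 * ϑ) * ‖w‖ := by
    intro i j hij hj w
    have h1 : pr A' i j w - pr A i j w = (pr A' i j w - θ i j • pr A i j w) +
        (θ i j - 1) • pr A i j w := by
      rw [sub_smul, one_smul]
      abel
    rw [h1]
    refine (norm_add_le _ _).trans ?_
    rw [norm_smul, Real.norm_eq_abs]
    have h2 := hAA i j hij hj w
    have h3 := hθ i j hij hj
    have h4 := Site_pn hA hij hj w
    have h5 : |θ i j - 1| * ‖pr A i j w‖ ≤ ϑ * ((1 + 1 / 16) * ‖w‖) := by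
      refine mul_le_mul h3 (h4.trans ?_) (norm_nonneg _) hϑ
      gcongr
    linarith
  -- difference of the forcing
  have hcd : ∀ j, j ≤ m → ∀ X : ℝ, 0 ≤ X → (∀ i, i < j → ‖G' i - G i‖ ≤ X) →
      ∑ i ∈ Finset.range j, ‖c' i - c i‖ ≤ δ1 * u + δ * (17 / 16 * X + 5 / 4 * ς * u) := by
    intro j hj X hX hDi
    have h1 : ∀ i ∈ Finset.range j, ‖c' i - c i‖ ≤ ‖s' i - s i‖ +
        h * (1 + β) * (4 * u) ^ β * (17 / 16 * X + 5 / 4 * ς * u) := by
      intro i hir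
      have hij : i < j := Finset.mem_range.1 hir
      have him : i < m := hij.trans_le hj
      have h2 : c' i - c i = (s' i - s i) +
          ((JV β h (A' i (G' i)) - JV β h (A i (G i))) - (A' i (G' i) - A i (G i))) := by
        change s' i + (JV β h (A' i (G' i)) - A' i (G' i)) -
          (s i + (JV β h (A i (G i)) - A i (G i))) = _
        abel
      have hv : ‖A i (G i)‖ ≤ 4 * u := by
        have h3 := Site_An hA him (G i)
        have h4 := hGn i him.le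
        have h5 : (1 + δ) * ‖G i‖ ≤ (1 + 1 / 16) * (5 / 4 * u) := by gcongr
        linarith
      have hv' : ‖A' i (G' i)‖ ≤ 4 * u := by
        have h3 := Site_An hA' him (G' i)
        have h4 := hGn' i him.le
        have h5 : (1 + δ) * ‖G' i‖ ≤ (1 + 1 / 16) * (5 / 4 * u) := by gcongr
        linarith
      have h3 := JV_lip hβ hh.le (A' i (G' i)) (A i (G i))
      have h4 : (max ‖A' i (G' i)‖ ‖A i (G i)‖) ^ β ≤ (4 * u) ^ β :=
        Real.rpow_le_rpow (le_max_of_le_left (norm_nonneg _)) (max_le hv' hv) hβ.le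
      have h5 : ‖A' i (G' i) - A i (G i)‖ ≤ 17 / 16 * X + 5 / 4 * ς * u := by
        have h6 : A' i (G' i) - A i (G i) = A' i (G' i - G i) + (A' i (G i) - A i (G i)) := by
          rw [map_sub]
          abel
        rw [h6]
        refine (norm_add_le _ _).trans ?_
        have h7 := Site_An hA' him (G' i - G i)
        have h8 := hAA1 i him (G i)
        have h9 : (1 + δ) * ‖G' i - G i‖ ≤ (1 + 1 / 16) * X := by
          have := hDi i hij
          gcongr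
        have h10 : ς * ‖G i‖ ≤ ς * (5 / 4 * u) := by
          have := hGn i him.le
          gcongr
        linarith
      rw [h2]
      refine (norm_add_le _ _).trans (add_le_add le_rfl (h3.trans ?_))
      gcongr
    have h2 : ∑ i ∈ Finset.range j, ‖s' i - s i‖ ≤ ∑ i ∈ Finset.range m, ‖s' i - s i‖ :=
      Finset.sum_le_sum_of_subset_of_nonneg (Finset.range_mono hj) fun _ _ _ => norm_nonneg _
    have hY : 0 ≤ 17 / 16 * X + 5 / 4 * ς * u := by positivity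
    have h3 : (j : ℝ) * (h * (1 + β) * (4 * u) ^ β * (17 / 16 * X + 5 / 4 * ς * u)) ≤
        δ * (17 / 16 * X + 5 / 4 * ς * u) := by
      have h4 : (j : ℝ) ≤ m := by exact_mod_cast hj
      calc (j : ℝ) * (h * (1 + β) * (4 * u) ^ β * (17 / 16 * X + 5 / 4 * ς * u)) ≤
            (m : ℝ) * (h * (1 + β) * (4 * u) ^ β * (17 / 16 * X + 5 / 4 * ς * u)) := by gcongr
        _ = ((m : ℝ) * h * (1 + β) * (4 * u) ^ β) * (17 / 16 * X + 5 / 4 * ς * u) := by ring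
        _ ≤ δ * (17 / 16 * X + 5 / 4 * ς * u) := by gcongr
    have h4 := Finset.sum_le_sum h1
    rw [Finset.sum_add_distrib, Finset.sum_const, Finset.card_range, nsmul_eq_mul] at h4
    linarith
  have hdec : ∀ j, j ≤ m → G' j - G j = (pr A' 0 j (G 0) - pr A 0 j (G 0)) +
      (∑ i ∈ Finset.range j, pr A' (i + 1) j (c' i - c i)) +
      ∑ i ∈ Finset.range j, (pr A' (i + 1) j (c i) - pr A (i + 1) j (c i)) := by
    intro j hj
    have h1 : ∀ i, pr A' (i + 1) j (c' i - c i) =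
        pr A' (i + 1) j (c' i) - pr A' (i + 1) j (c i) := by
      intro i
      have h2 := pr_add A' (i + 1) j (c' i - c i) (c i)
      rw [sub_add_cancel] at h2
      rw [h2]
      abel
    rw [Finset.sum_congr rfl fun i _ => h1 i, Finset.sum_sub_distrib, Finset.sum_sub_distrib]
    conv_lhs => rw [hrep j hj, hrep' j hj]
    abel
  have hthird : ∀ j, j ≤ m →
      ‖∑ i ∈ Finset.range j, (pr A' (i + 1) j (c i) - pr A (i + 1) j (c i))‖ ≤
      (ς + 17 / 16 * ϑ) * (7 / 3 * δ * u) := by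
    intro j hj
    refine (norm_sum_le _ _).trans ?_
    calc ∑ i ∈ Finset.range j, ‖pr A' (i + 1) j (c i) - pr A (i + 1) j (c i)‖
        ≤ ∑ i ∈ Finset.range j, (ς + 17 / 16 * ϑ) * ‖c i‖ :=
          Finset.sum_le_sum fun i hi =>
            hpd (i + 1) j (by have := Finset.mem_range.1 hi; omega) hj (c i)
      _ = (ς + 17 / 16 * ϑ) * ∑ i ∈ Finset.range j, ‖c i‖ := by rw [Finset.mul_sum]
      _ ≤ _ := by
        have := c2 j hj
        gcongr
  have hδu : 0 ≤ δ * u := by positivity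
  have hX0 : 0 ≤ 2 * (ϑ + δ1 + ς) * u := by positivity
  have hD : ∀ j, j ≤ m → ‖G' j - G j‖ ≤ 2 * (ϑ + δ1 + ς) * u := by
    intro j
    induction j using Nat.strong_induction_on with
    | _ j ih =>
      intro hj
      have h1 := hcd j hj _ hX0 fun i hi => ih i hi (by omega)
      have h2 := Site_sum hA' (fun i => c' i - c i) hj
      have h3 := hpd 0 j (Nat.zero_le j) hj (G 0)
      have h4 := hthird j hj
      rw [hdec j hj]
      refine (norm_add_le _ _).trans ((add_le_add (norm_add_le _ _) le_rfl).trans ?_)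
      have h5 : (1 + δ) * ∑ i ∈ Finset.range j, ‖c' i - c i‖ ≤ (1 + 1 / 16) *
          (δ1 * u + 1 / 16 * (17 / 16 * (2 * (ϑ + δ1 + ς) * u) + 5 / 4 * ς * u)) := by
        refine mul_le_mul (by linarith) (h1.trans ?_)
          (Finset.sum_nonneg fun _ _ => norm_nonneg _) (by norm_num)
        gcongr
      have h6 : (ς + 17 / 16 * ϑ) * (7 / 3 * δ * u) ≤
          (ς + 17 / 16 * ϑ) * (7 / 3 * (1 / 16) * u) := by gcongr
      have e1 : 0 ≤ ς * u := by positivity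
      have e2 : 0 ≤ ϑ * u := by positivity
      have e3 : 0 ≤ δ1 * u := by positivity
      have e4 : ‖G 0‖ = u := rfl
      rw [e4] at h3
      nlinarith
  have h1 := hcd j hj _ hX0 fun i hi => hD i (by omega)
  have h2 := Site_sum hA' (fun i => c' i - c i) hj
  have h4 := hthird j hj
  have h5 : G' j - G j - (θ 0 j - 1) • G 0 = (pr A' 0 j (G 0) - θ 0 j • pr A 0 j (G 0)) +
      (θ 0 j - 1) • (pr A 0 j (G 0) - G 0) +
      (∑ i ∈ Finset.range j, pr A' (i + 1) j (c' i - c i)) +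
      ∑ i ∈ Finset.range j, (pr A' (i + 1) j (c i) - pr A (i + 1) j (c i)) := by
    rw [hdec j hj, smul_sub, sub_smul (θ 0 j) 1 (pr A 0 j (G 0)), one_smul]
    abel
  rw [h5]
  have h6 := hAA 0 j (Nat.zero_le j) hj (G 0)
  have h7 := hθ 0 j (Nat.zero_le j) hj
  have h8 := hA 0 j (Nat.zero_le j) hj (G 0)
  have h9 : ‖(θ 0 j - 1) • (pr A 0 j (G 0) - G 0)‖ ≤ ϑ * (δ * u) := by
    rw [norm_smul, Real.norm_eq_abs]
    exact mul_le_mul h7 h8 (norm_nonneg _) hϑ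
  refine (norm_add_le _ _).trans ((add_le_add ((norm_add_le _ _).trans
    (add_le_add (norm_add_le _ _) le_rfl)) le_rfl).trans ?_)
  have h10 : (1 + δ) * ∑ i ∈ Finset.range j, ‖c' i - c i‖ ≤ (1 + 1 / 16) *
      (δ1 * u + δ * (17 / 16 * (2 * (ϑ + δ1 + ς) * u) + 5 / 4 * ς * u)) :=
    mul_le_mul (by linarith) h1 (Finset.sum_nonneg fun _ _ => norm_nonneg _) (by norm_num)
  have e1 : 0 ≤ ς * u := by positivity
  have e2 : 0 ≤ δ * (ϑ * u) := by positivity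
  have e3 : 0 ≤ δ1 * u := by positivity
  have e4 : δ * (δ1 * u) ≤ 1 / 16 * (δ1 * u) := by gcongr
  have e5 : δ * (ς * u) ≤ 1 / 16 * (ς * u) := by gcongr
  have e6 : ‖G 0‖ = u := rfl
  rw [e6] at h6
  nlinarith

theorem site_far {h κ1 : ℝ} (hh : 0 < h) (hκ : 0 ≤ κ1) (m : ℕ) (A : ℕ → V →ₗ[ℝ] V)
    (a e D : ℕ → V) (hD : ∀ j, j < m → D (j + 1) = A j (D j) + e j + a j) (h0 : D 0 = 0)
    (he : ∀ j, j < m → ‖e j‖ ≤ h * κ1 * ‖A j (D j)‖) (δ : ℝ) (hδ : 0 < δ) (hδ1 : δ ≤ 1 / 16)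
    (hA : PNear A m δ) (ht : m * h * κ1 ≤ δ) :
    ‖D m - ∑ j ∈ Finset.range m, a j‖ ≤ 6 * δ * ∑ j ∈ Finset.range m, ‖a j‖ := by
  set S : ℝ := ∑ j ∈ Finset.range m, ‖a j‖ with hS
  have hS0 : 0 ≤ S := Finset.sum_nonneg fun _ _ => norm_nonneg _
  have hrep := Site_rep A m D (fun j => e j + a j) (fun j hj => by
    rw [hD j hj]
    abel)
  have hz : ∀ j, j ≤ m → pr A 0 j (D 0) = 0 := by
    intro j hj
    have h1 := Site_pn hA (Nat.zero_le j) hj (D 0)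
    rw [h0, norm_zero, mul_zero] at h1
    rw [h0]
    exact norm_le_zero_iff.1 h1
  have hes : ∀ j, j ≤ m → (∀ i, i < j → ‖D i‖ ≤ 2 * S) →
      ∑ i ∈ Finset.range j, ‖e i‖ ≤ δ * (17 / 8 * S) := by
    intro j hj hi
    have h1 : ∀ i ∈ Finset.range j, ‖e i‖ ≤ h * κ1 * (17 / 8 * S) := by
      intro i hir
      have hij : i < j := Finset.mem_range.1 hir
      refine (he i (hij.trans_le hj)).trans ?_
      have h2 := Site_An hA (hij.trans_le hj) (D i)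
      have h3 : (1 + δ) * ‖D i‖ ≤ (1 + 1 / 16) * (2 * S) := by
        have := hi i hij
        gcongr
      have h4 : ‖A i (D i)‖ ≤ 17 / 8 * S := by linarith
      gcongr
    have h2 := Finset.sum_le_sum h1
    rw [Finset.sum_const, Finset.card_range, nsmul_eq_mul] at h2
    refine h2.trans ?_
    have h4 : (j : ℝ) ≤ m := by exact_mod_cast hj
    calc (j : ℝ) * (h * κ1 * (17 / 8 * S)) ≤ (m : ℝ) * (h * κ1 * (17 / 8 * S)) := by gcongr
      _ = ((m : ℝ) * h * κ1) * (17 / 8 * S) := by ring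
      _ ≤ δ * (17 / 8 * S) := by gcongr
  have hDb : ∀ j, j ≤ m → ‖D j‖ ≤ 2 * S := by
    intro j
    induction j using Nat.strong_induction_on with
    | _ j ih =>
      intro hj
      have h1 := hes j hj fun i hi => ih i hi (by omega)
      have h2 := Site_sum hA (fun i => e i + a i) hj
      have h3 : ∑ i ∈ Finset.range j, ‖e i + a i‖ ≤ 1 / 16 * (17 / 8 * S) + S := by
        have h4 : ∑ i ∈ Finset.range j, ‖e i + a i‖ ≤
            ∑ i ∈ Finset.range j, ‖e i‖ + ∑ i ∈ Finset.range j, ‖a i‖ := by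
          rw [← Finset.sum_add_distrib]
          exact Finset.sum_le_sum fun i _ => norm_add_le _ _
        have h5 : ∑ i ∈ Finset.range j, ‖a i‖ ≤ S :=
          Finset.sum_le_sum_of_subset_of_nonneg (Finset.range_mono hj) fun _ _ _ => norm_nonneg _
        have h6 : δ * (17 / 8 * S) ≤ 1 / 16 * (17 / 8 * S) := by gcongr
        linarith
      have h4 : D j = ∑ i ∈ Finset.range j, pr A (i + 1) j (e i + a i) := by
        have h5 := hrep j hj
        rw [hz j hj, zero_add] at h5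
        exact h5
      rw [h4]
      refine h2.trans ?_
      have h5 : (1 + δ) * ∑ i ∈ Finset.range j, ‖e i + a i‖ ≤
          (1 + 1 / 16) * (1 / 16 * (17 / 8 * S) + S) :=
        mul_le_mul (by linarith) h3 (Finset.sum_nonneg fun _ _ => norm_nonneg _) (by norm_num)
      linarith
  have h1 := hes m le_rfl fun i hi => hDb i hi.le
  have h2 := Site_sum hA e le_rfl
  have h3 : D m - ∑ j ∈ Finset.range m, a j =
      ∑ i ∈ Finset.range m, (pr A (i + 1) m (a i) - a i) +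
        ∑ i ∈ Finset.range m, pr A (i + 1) m (e i) := by
    have h5 := hrep m le_rfl
    rw [hz m le_rfl, zero_add, Finset.sum_congr rfl fun i _ => pr_add A (i + 1) m (e i) (a i),
      Finset.sum_add_distrib] at h5
    rw [Finset.sum_sub_distrib]
    conv_lhs => rw [h5]
    abel
  have h4 : ‖∑ i ∈ Finset.range m, (pr A (i + 1) m (a i) - a i)‖ ≤ δ * S := by
    rw [hS, Finset.mul_sum]
    refine (norm_sum_le _ _).trans (Finset.sum_le_sum fun i hi => ?_)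
    exact hA (i + 1) m (by have := Finset.mem_range.1 hi; omega) le_rfl (a i)
  rw [h3]
  refine (norm_add_le _ _).trans ?_
  have h5 : (1 + δ) * ∑ i ∈ Finset.range m, ‖e i‖ ≤ (1 + 1 / 16) * (δ * (17 / 8 * S)) :=
    mul_le_mul (by linarith) h1 (Finset.sum_nonneg fun _ _ => norm_nonneg _) (by norm_num)
  have h6 : 0 ≤ δ * S := by positivity
  linarith

end

end DynC
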