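import Pool.Agent.Lib_MP_36b788.HatB
import Pool.Agent.Lib_MP_36b788c.Sm1
import Pool.Agent.Lib_MP_36b788c.Mom2

/-!
# The potential: one step

`untame G x`: every maximizer `z` of `Tz` has `SSt(z) ≥ 2`.

PROOF of `sm_step` (first component; the second is symmetric). `u = ‖G.1‖`, `t = ‖G.1‖ + ‖G.2‖`, `z` a maximizer for `x` (in the untame case with `SSt(z) ≥ 2`), `v = u z`. If `v = 0` then all `u = 0`, `V1 = ∞`, nothing to prove (the factor is positive). Otherwise, on good noise `|b| ≤ 2h^{3/8}`: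
(1) `u⁺(z) ≥ ψ(e^b v) - k h cpl u z ≥ v e^b (1 - h (e^b v)^β) - h v (2d k^{1/2} 2^q + 2d k)` (`psi_lower`, `nb_small`), so `u⁺(z) ≥ v e^{b - r}`, `r = h (Cr v^β + k^{1/4})`, `Cr = 4·2^β` (`h(2 rad)^β` is small, `k` small).
(2) `fpot_inc`: `T⁺/T ≥ exp(g'(b-r) - 4(b-r)²/ell) (S⁺/S)^{-q}`, `g' = gX'(log v/ell)`, `S = SSt(z)`. So `V⁺ ≤ V exp(-s g'(b-r) + 4 s (b-r)²/ell) (S⁺/S)^{qs}`; Cauchy-Schwarz over the good noise.
(3) `E exp(-2s g' b + 2s g' r + 8s(b-r)²/ell) ≤ exp((4 s² + C s/ell) h + 3 s g' r)`: `(b-r)² ≤ 2b²+2r²`, `b² ≤ e^b + e^{-b} - 2`, `BNoise.mgf` with `rm = 2` (and for `N ≥ 3` the term `-2 s g' lamN ≤ 0`), the error `ε` of `mgf` is taken `≤ s/ell`.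
    `g' r ≤ h/ell` if `log v/ell ≤ -1/8` (`v^β ≤ k^{β/8}`), `g' = 0` on `(-1/8,1/16]`, and for `v > k^{-1/16}`: `g' r = r ≤ 2 Cr h v^β`.
(4) `E SSt⁺(z)`: `E_{gd} t⁺(w) ≤ t(w)(1+Ch) - h c (u^{1+β} + u'^{1+β}) + k h cpl t w`, `u^{1+β}+u'^{1+β} ≥ 2^{-β} t^{1+β}`; with `Σt = Σ_w 2^{-|z-w|} t(w)`: `E S⁺ ≤ S + h k^{1/16}(A - c' Σt^{1+β})`. If `v ≥ k^{-1/16}` or `S ≥ 2`: `Σt ≥ max(v, k^{-1/16})`, `S ≤ 2 k^{1/16} Σt`, so
    `E S⁺/S ≤ 1 + h k^{1/16} A - h (c'/2) Σt^β`. Jensen (`2qs ≤ 1`): `E (S⁺/S)^{2qs} ≤ exp(2qs(h k^{1/16} A - h (c'/2) Σt^β))`.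
(5) Product of the square roots; `q c' ≥ 16 Cr` gives `3 s Cr h v^β ≤ (1/2) q s h (c'/2) Σt^β`, and in the untame case the remaining half `q s h (c'/4) k^{-β/16}` gives the strong decay, which dominates all other terms for small `k`.
-/

open MeasureTheory ProbabilityTheory
open scoped ENNReal

namespace DynC

open Dyn

variable {d : ℕ}

/-- every maximizer for `x` has `SSt ≥ 2` -/
def untame {V : Type} [NormedAddCommGroup V] {L : ℕ} (k q : ℝ) (u t : boxS d L → ℝ)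
    (x : boxS d L) : Prop :=
  ∀ z, (∀ y, Tz (boxNet d L) k q u t x y ≤ Tz (boxNet d L) k q u t x z) →
    2 ≤ SSt (boxNet d L) k t z


private theorem Sm2_exp2 {y : ℝ} (h0 : 0 ≤ y) (h1 : y ≤ 1 / 2) : Real.exp (-(2 * y)) ≤ 1 - y := by
  have h2 : 1 + 2 * y ≤ Real.exp (2 * y) := by
    have := Real.add_one_le_exp (2 * y)
    linarith
  rw [Real.exp_neg]
  have h3 : 0 < 1 - y := by linarith
  rw [inv_le_comm₀ (Real.exp_pos _) h3]
  refine le_trans ?_ h2
  rw [inv_le_iff_one_le_mul₀ h3]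
  nlinarith

private theorem Sm2_log2 {b : ℝ} (hb : |b| ≤ Real.log 2) :
    Real.exp b ≤ 2 ∧ 1 ≤ 2 * Real.exp b := by
  have h1 := abs_le.1 hb
  constructor
  · calc Real.exp b ≤ Real.exp (Real.log 2) := Real.exp_le_exp.2 h1.2
      _ = 2 := Real.exp_log two_pos
  · have h2 : Real.exp (-Real.log 2) ≤ Real.exp b := Real.exp_le_exp.2 h1.1
    rw [Real.exp_neg, Real.exp_log two_pos] at h2
    linarith

private theorem Sm2_low {ι : Type} [Fintype ι] {d : ℕ} (net : Net ι d) {β h k q : ℝ} (hβ : 0 < β)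
    (hh : 0 < h) (hh1 : h < 1) (hk : 0 < k) (hk1 : k < 1) (hq : 0 ≤ q)
    (hkq : 4 * d * (2 ^ q * k ^ (1 / 4 : ℝ) + k ^ (3 / 4 : ℝ)) ≤ 1 / 2)
    (hhs : 2 ^ β * h ^ (3 / 4 : ℝ) + h / 2 ≤ 1 / 2)
    (b u u' t : ι → ℝ) (Q : QStep net β h k b u u')
    (hu : ∀ x, u x ≤ rad β h) (ht : ∀ x, 0 ≤ t x) (x z : ι)
    (hz : ∀ y, Tz net k q u t x y ≤ Tz net k q u t x z) (hb : |b z| ≤ Real.log 2) :
    u z * Real.exp (b z - h * (2 * 2 ^ β * u z ^ β + k ^ (1 / 4 : ℝ))) ≤ u' z := by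
  obtain ⟨he1, he2⟩ := Sm2_log2 hb
  have he0 := Real.exp_pos (b z)
  have hv : 0 ≤ u z := Q.n0 z
  have h2β : (0 : ℝ) < 2 ^ β := Real.rpow_pos_of_pos two_pos _
  have h2q : (0 : ℝ) < 2 ^ q := Real.rpow_pos_of_pos two_pos _
  have hk4 : (0 : ℝ) < k ^ (1 / 4 : ℝ) := Real.rpow_pos_of_pos hk _
  have hk34 : (0 : ℝ) < k ^ (3 / 4 : ℝ) := Real.rpow_pos_of_pos hk _
  have hk41 : k ^ (1 / 4 : ℝ) ≤ 1 := Real.rpow_le_one hk.le hk1.le (by norm_num)
  have e1 : k ^ (1 / 2 : ℝ) = k ^ (1 / 4 : ℝ) * k ^ (1 / 4 : ℝ) := by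
    rw [← Real.rpow_add hk]; norm_num
  have e2 : k = k ^ (1 / 4 : ℝ) * k ^ (3 / 4 : ℝ) := by
    rw [← Real.rpow_add hk]; norm_num
  -- interaction
  have hcpl : k * cpl net u z ≤ u z * k ^ (1 / 4 : ℝ) / 4 := by
    have h1 : ∑ y ∈ net.nb z, k * u y ≤ ∑ _y ∈ net.nb z, k ^ (1 / 2 : ℝ) * 2 ^ q * u z :=
      Finset.sum_le_sum fun y hy => nb_small net hk hk1 hq u t Q.n0 ht x z hz y hy
    rw [Finset.sum_const, nsmul_eq_mul] at h1
    have h2 : ((net.nb z).card : ℝ) ≤ 2 * d := by exact_mod_cast net.nb_card z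
    have h3 : ((net.nb z).card : ℝ) * (k ^ (1 / 2 : ℝ) * 2 ^ q * u z) ≤
        2 * d * (k ^ (1 / 2 : ℝ) * 2 ^ q * u z) := by
      refine mul_le_mul_of_nonneg_right h2 ?_
      rw [e1]
      positivity
    have h4 : k * cpl net u z = ∑ y ∈ net.nb z, k * u y + k * (2 * d * u z) := by
      unfold cpl
      rw [mul_add, Finset.mul_sum]
      push_cast
      ring
    rw [h4]
    have h5 : k * (2 * d * u z) = k ^ (1 / 4 : ℝ) * k ^ (3 / 4 : ℝ) * (2 * d * u z) := by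
      rw [← e2]
    rw [h5]
    rw [e1] at h1 h3
    have h6 : u z * k ^ (1 / 4 : ℝ) * (4 * d * (2 ^ q * k ^ (1 / 4 : ℝ) + k ^ (3 / 4 : ℝ))) ≤
        u z * k ^ (1 / 4 : ℝ) * (1 / 2) := mul_le_mul_of_nonneg_left hkq (by positivity)
    nlinarith
  have hrf := rad_facts hβ hh hh1 hv (hu z)
  -- damping
  have hpsi := psi_lower hβ hh.le (v := Real.exp (b z) * u z) (by positivity)
  have h7 : (Real.exp (b z) * u z) ^ β ≤ 2 ^ β * u z ^ β := by
    rw [Real.mul_rpow he0.le hv]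
    exact mul_le_mul_of_nonneg_right (Real.rpow_le_rpow he0.le he1 hβ.le)
      (Real.rpow_nonneg hv _)
  have hub : 0 ≤ u z ^ β := Real.rpow_nonneg hv _
  have hlo := Q.lo z
  set y : ℝ := h * (2 ^ β * u z ^ β + k ^ (1 / 4 : ℝ) / 2) with hy
  have hy0 : 0 ≤ y := by positivity
  have hy1 : y ≤ 1 / 2 := by
    have h8 : 2 ^ β * (h * u z ^ β) ≤ 2 ^ β * h ^ (3 / 4 : ℝ) :=
      mul_le_mul_of_nonneg_left hrf.2.2.1 h2β.le
    have h9 : h * k ^ (1 / 4 : ℝ) ≤ h := by nlinarith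
    rw [hy]
    nlinarith
  have h10 : Real.exp (b z) * u z * (1 - y) ≤ u' z := by
    have h11 : Real.exp (b z) * u z * (1 - h * (Real.exp (b z) * u z) ^ β) ≥
        Real.exp (b z) * u z * (1 - h * (2 ^ β * u z ^ β)) := by
      refine mul_le_mul_of_nonneg_left ?_ (by positivity)
      have := mul_le_mul_of_nonneg_left h7 hh.le
      linarith
    have h12 : k * h * cpl net u z ≤ h * (u z * k ^ (1 / 4 : ℝ) / 4) := by
      have := mul_le_mul_of_nonneg_left hcpl hh.le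
      linarith
    have h13 : h * (u z * k ^ (1 / 4 : ℝ) / 4) * 1 ≤
        h * (u z * k ^ (1 / 4 : ℝ) / 4) * (2 * Real.exp (b z)) :=
      mul_le_mul_of_nonneg_left he2 (by positivity)
    rw [hy]
    nlinarith
  refine le_trans ?_ h10
  have h14 : b z - h * (2 * 2 ^ β * u z ^ β + k ^ (1 / 4 : ℝ)) = b z + -(2 * y) := by
    rw [hy]; ring
  rw [h14, Real.exp_add]
  have h15 := mul_le_mul_of_nonneg_left (Sm2_exp2 hy0 hy1)
    (by positivity : 0 ≤ Real.exp (b z) * u z)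
  linarith

private theorem Sm2_up {β h u b : ℝ} (hβ : 0 < β) (hh : 0 < h) (hh1 : h < 1)
    (hhs : 2 ^ β * h ^ (3 / 4 : ℝ) + h / 2 ≤ 1 / 2) (hu0 : 0 ≤ u) (hu : u ≤ rad β h)
    (hb : |b| ≤ Real.log 2) :
    psi β h (Real.exp b * u) ≤
      Real.exp b * (u - h * (1 / 2 * (1 / 4) ^ (1 + β) * u ^ (1 + β))) := by
  obtain ⟨he1, he2⟩ := Sm2_log2 hb
  have he0 := Real.exp_pos b
  have hrf := rad_facts hβ hh hh1 hu0 hu
  have h2β : (0 : ℝ) < 2 ^ β := Real.rpow_pos_of_pos two_pos _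
  have hy : 0 ≤ Real.exp b * u := by positivity
  have h7 : (Real.exp b * u) ^ β ≤ 2 ^ β * u ^ β := by
    rw [Real.mul_rpow he0.le hu0]
    exact mul_le_mul_of_nonneg_right (Real.rpow_le_rpow he0.le he1 hβ.le)
      (Real.rpow_nonneg hu0 _)
  have h8 : h * (Real.exp b * u) ^ β ≤ 1 := by
    have h9 := mul_le_mul_of_nonneg_left h7 hh.le
    have h10 := mul_le_mul_of_nonneg_left hrf.2.2.1 h2β.le
    nlinarith
  have h9 := psi_half hβ hh.le hy h8
  have h10 := psi_eq hβ hh.le hy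
  have h11 : 1 / 4 * u ≤ psi β h (Real.exp b * u) := by
    have : 1 / 2 * u ≤ Real.exp b * u := mul_le_mul_of_nonneg_right (by linarith) hu0
    linarith
  have h12 : (1 / 4 * u) ^ (1 + β) ≤ psi β h (Real.exp b * u) ^ (1 + β) :=
    Real.rpow_le_rpow (by positivity) h11 (by linarith)
  rw [Real.mul_rpow (by norm_num) hu0] at h12
  have h13 : 0 ≤ (1 / 4 : ℝ) ^ (1 + β) * u ^ (1 + β) := by positivity
  have h14 := mul_le_mul_of_nonneg_left h12 hh.le
  have h15 : Real.exp b * (h * ((1 / 4 : ℝ) ^ (1 + β) * u ^ (1 + β))) ≤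
      2 * (h * ((1 / 4 : ℝ) ^ (1 + β) * u ^ (1 + β))) :=
    mul_le_mul_of_nonneg_right he1 (by positivity)
  nlinarith


private theorem Sm2_exp1 {x : ℝ} (h0 : 0 ≤ x) (h1 : x ≤ 1 / 2) : Real.exp x ≤ 1 + 2 * x := by
  have h2 : 1 - x ≤ Real.exp (-x) := by
    have := Real.add_one_le_exp (-x)
    linarith
  have h3 : Real.exp x * Real.exp (-x) = 1 := by
    rw [← Real.exp_add]; simp
  have h4 := Real.exp_pos x
  have h5 : Real.exp x * (1 - x) ≤ 1 := (mul_le_mul_of_nonneg_left h2 h4.le).trans h3.le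
  by_contra hc
  push Not at hc
  have h6 : (1 + 2 * x) * (1 - x) < Real.exp x * (1 - x) :=
    mul_lt_mul_of_pos_right hc (by linarith)
  nlinarith

private theorem Sm2_sq (b : ℝ) : b ^ 2 ≤ Real.exp b + Real.exp (-b) - 2 := by
  have h1 : Real.exp b + Real.exp (-b) - 2 = (2 * Real.sinh (b / 2)) ^ 2 := by
    rw [Real.sinh_eq]
    have e1 : Real.exp b = Real.exp (b / 2) * Real.exp (b / 2) := by
      rw [← Real.exp_add]; ring_nf
    have e2 : Real.exp (-b) = Real.exp (-(b / 2)) * Real.exp (-(b / 2)) := by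
      rw [← Real.exp_add]; ring_nf
    have e3 : Real.exp (b / 2) * Real.exp (-(b / 2)) = 1 := by
      rw [← Real.exp_add]; simp
    rw [e1, e2]
    nlinarith
  rw [h1]
  have h2 : |b / 2| ≤ |Real.sinh (b / 2)| := by
    rcases le_total 0 (b / 2) with hb | hb
    · rw [abs_of_nonneg hb, abs_of_nonneg (Real.sinh_nonneg_iff.2 hb)]
      exact Real.self_le_sinh_iff.2 hb
    · rw [abs_of_nonpos hb, abs_of_nonpos (Real.sinh_nonpos_iff.2 hb)]
      exact neg_le_neg (Real.sinh_le_self_iff.2 hb)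
  have h3 := sq_le_sq' (by have := abs_nonneg (Real.sinh (b / 2)); have := abs_nonneg (b / 2); linarith) h2
  rw [sq_abs, sq_abs] at h3
  nlinarith

private theorem Sm2_E1 {N : ℕ} (hN : 2 ≤ N) {Ω0 : Type} [MeasurableSpace Ω0] (ν : Measure Ω0)
    (b : Ω0 → ℝ) (hb : Measurable b) (gd : Set Ω0) (hgd : MeasurableSet gd)
    {h ε s' g' el r : ℝ} (hh : 0 < h) (hNh : N * h ≤ 1) (hel : 0 < el) (hs' : 0 < s')
    (hs1 : s' ≤ 1) (hg0 : 0 ≤ g') (hg1 : g' ≤ 1) (hκ : 32 * s' ≤ el) (hε : 0 ≤ ε)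
    (hbd : ∀ a ∈ gd, 16 * s' * b a ^ 2 ≤ el)
    (mgf : ∀ r, |r| ≤ 2 → ∫⁻ a in gd, ENNReal.ofReal (Real.exp (r * b a)) ∂ν ≤
      ENNReal.ofReal (1 + (lamN N * r + r ^ 2 / 2 + ε) * h)) :
    ∫⁻ a in gd, ENNReal.ofReal (Real.exp (-(s' * g' * (b a - r)) + 4 * s' * (b a - r) ^ 2 / el)) ∂ν
      ≤ ENNReal.ofReal (Real.exp ((s' ^ 2 / 2 + 16 * s' / el + ε) * h + s' * g' * r +
        8 * s' * r ^ 2 / el)) := by
  set K : ℝ := Real.exp (s' * g' * r + 8 * s' * r ^ 2 / el) with hK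
  have hK0 : 0 < K := Real.exp_pos _
  set κ : ℝ := 16 * s' / el with hκd
  have hκ0 : 0 ≤ κ := by positivity
  have hκ1 : 2 * κ ≤ 1 := by
    rw [hκd, ← mul_div_assoc, div_le_one hel]
    linarith
  set ρ : ℝ := -(s' * g') with hρ
  have hsg : s' * g' ≤ s' := by nlinarith
  have hsg0 : 0 ≤ s' * g' := by positivity
  have hmE : ∀ c : ℝ, Measurable (fun a => ENNReal.ofReal (Real.exp (c * b a))) := fun c =>
    (Real.measurable_exp.comp (hb.const_mul c)).ennreal_ofReal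
  have hpt : ∀ a ∈ gd,
      ENNReal.ofReal (Real.exp (-(s' * g' * (b a - r)) + 4 * s' * (b a - r) ^ 2 / el)) ≤
      ENNReal.ofReal (K * (1 - 2 * κ)) * ENNReal.ofReal (Real.exp (ρ * b a)) +
        (ENNReal.ofReal (K * κ) * ENNReal.ofReal (Real.exp ((ρ + 1) * b a)) +
        ENNReal.ofReal (K * κ) * ENNReal.ofReal (Real.exp ((ρ - 1) * b a))) := by
    intro a ha
    have hKk : 0 ≤ K * (1 - 2 * κ) := mul_nonneg hK0.le (by linarith)
    rw [← ENNReal.ofReal_mul hKk, ← ENNReal.ofReal_mul (by positivity),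
      ← ENNReal.ofReal_mul (by positivity), ← ENNReal.ofReal_add (by positivity) (by positivity),
      ← ENNReal.ofReal_add (by positivity) (by positivity)]
    refine ENNReal.ofReal_le_ofReal ?_
    have h1 : -(s' * g' * (b a - r)) + 4 * s' * (b a - r) ^ 2 / el ≤
        (s' * g' * r + 8 * s' * r ^ 2 / el) + (ρ * b a + 8 * s' * b a ^ 2 / el) := by
      have h2 : (b a - r) ^ 2 ≤ 2 * b a ^ 2 + 2 * r ^ 2 := by nlinarith [sq_nonneg (b a + r)]
      have h3 : 4 * s' * (b a - r) ^ 2 / el ≤ 4 * s' * (2 * b a ^ 2 + 2 * r ^ 2) / el := by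
        gcongr
      have h4 : 4 * s' * (2 * b a ^ 2 + 2 * r ^ 2) / el =
          8 * s' * b a ^ 2 / el + 8 * s' * r ^ 2 / el := by ring
      rw [hρ]
      linarith
    refine (Real.exp_le_exp.2 h1).trans ?_
    rw [Real.exp_add, Real.exp_add (ρ * b a), ← hK]
    have h5 : Real.exp (8 * s' * b a ^ 2 / el) ≤ 1 + 2 * (8 * s' * b a ^ 2 / el) := by
      refine Sm2_exp1 (by positivity) ?_
      rw [div_le_iff₀ hel]
      have := hbd a ha
      linarith
    have h6 : 1 + 2 * (8 * s' * b a ^ 2 / el) = 1 + κ * b a ^ 2 := by rw [hκd]; ring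
    have h7 : Real.exp (8 * s' * b a ^ 2 / el) ≤ 1 + κ * (Real.exp (b a) + Real.exp (-b a) - 2) := by
      have := mul_le_mul_of_nonneg_left (Sm2_sq (b a)) hκ0
      linarith
    have h8 : Real.exp ((ρ + 1) * b a) = Real.exp (ρ * b a) * Real.exp (b a) := by
      rw [← Real.exp_add]; ring_nf
    have h9 : Real.exp ((ρ - 1) * b a) = Real.exp (ρ * b a) * Real.exp (-b a) := by
      rw [← Real.exp_add]; ring_nf
    rw [h8, h9]
    have h10 : K * (Real.exp (ρ * b a) * Real.exp (8 * s' * b a ^ 2 / el)) ≤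
        K * (Real.exp (ρ * b a) * (1 + κ * (Real.exp (b a) + Real.exp (-b a) - 2))) := by
      gcongr
    refine h10.trans (le_of_eq ?_)
    ring
  calc ∫⁻ a in gd, ENNReal.ofReal
        (Real.exp (-(s' * g' * (b a - r)) + 4 * s' * (b a - r) ^ 2 / el)) ∂ν
      ≤ ∫⁻ a in gd, (ENNReal.ofReal (K * (1 - 2 * κ)) * ENNReal.ofReal (Real.exp (ρ * b a)) +
        (ENNReal.ofReal (K * κ) * ENNReal.ofReal (Real.exp ((ρ + 1) * b a)) +
        ENNReal.ofReal (K * κ) * ENNReal.ofReal (Real.exp ((ρ - 1) * b a)))) ∂ν :=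
        setLIntegral_mono' hgd hpt
    _ = ENNReal.ofReal (K * (1 - 2 * κ)) * ∫⁻ a in gd, ENNReal.ofReal (Real.exp (ρ * b a)) ∂ν +
        (ENNReal.ofReal (K * κ) * ∫⁻ a in gd, ENNReal.ofReal (Real.exp ((ρ + 1) * b a)) ∂ν +
        ENNReal.ofReal (K * κ) * ∫⁻ a in gd, ENNReal.ofReal (Real.exp ((ρ - 1) * b a)) ∂ν) := by
        rw [lintegral_add_left ((hmE ρ).const_mul _), lintegral_add_left ((hmE (ρ + 1)).const_mul _),
          lintegral_const_mul _ (hmE ρ), lintegral_const_mul _ (hmE (ρ + 1)),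
          lintegral_const_mul _ (hmE (ρ - 1))]
    _ ≤ ENNReal.ofReal (K * (1 - 2 * κ)) *
          ENNReal.ofReal (1 + (lamN N * ρ + ρ ^ 2 / 2 + ε) * h) +
        (ENNReal.ofReal (K * κ) *
          ENNReal.ofReal (1 + (lamN N * (ρ + 1) + (ρ + 1) ^ 2 / 2 + ε) * h) +
        ENNReal.ofReal (K * κ) *
          ENNReal.ofReal (1 + (lamN N * (ρ - 1) + (ρ - 1) ^ 2 / 2 + ε) * h)) := by
        gcongr
        · exact mgf ρ (by rw [hρ, abs_le]; constructor <;> linarith)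
        · exact mgf (ρ + 1) (by rw [hρ, abs_le]; constructor <;> linarith)
        · exact mgf (ρ - 1) (by rw [hρ, abs_le]; constructor <;> linarith)
    _ ≤ _ := by
        have hl0 : 0 ≤ lamN N := by
          unfold lamN
          have : (2 : ℝ) ≤ N := by exact_mod_cast hN
          linarith
        have hl1 : 2 * lamN N * h ≤ 1 := by
          unfold lamN
          nlinarith
        have hnn : ∀ p : ℝ, -2 ≤ p → 0 ≤ 1 + (lamN N * p + p ^ 2 / 2 + ε) * h := by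
          intro p hp
          have h1 : lamN N * (-2) ≤ lamN N * p := mul_le_mul_of_nonneg_left hp hl0
          have h2 : 0 ≤ (p ^ 2 / 2 + ε) * h := by positivity
          nlinarith
        have hKk : 0 ≤ K * (1 - 2 * κ) := mul_nonneg hK0.le (by linarith)
        have n1 := hnn ρ (by rw [hρ]; linarith)
        have n2 := hnn (ρ + 1) (by rw [hρ]; linarith)
        have n3 := hnn (ρ - 1) (by rw [hρ]; linarith)
        rw [← ENNReal.ofReal_mul hKk, ← ENNReal.ofReal_mul (by positivity),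
          ← ENNReal.ofReal_mul (by positivity), ← ENNReal.ofReal_add (by positivity) (by positivity),
          ← ENNReal.ofReal_add (mul_nonneg hKk n1) (by positivity)]
        refine ENNReal.ofReal_le_ofReal ?_
        have e1 : (s' ^ 2 / 2 + 16 * s' / el + ε) * h + s' * g' * r + 8 * s' * r ^ 2 / el =
            (s' * g' * r + 8 * s' * r ^ 2 / el) + (s' ^ 2 / 2 + κ + ε) * h := by
          rw [hκd]; ring
        rw [e1, Real.exp_add, ← hK]
        have e2 : K * (1 - 2 * κ) * (1 + (lamN N * ρ + ρ ^ 2 / 2 + ε) * h) +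
            (K * κ * (1 + (lamN N * (ρ + 1) + (ρ + 1) ^ 2 / 2 + ε) * h) +
            K * κ * (1 + (lamN N * (ρ - 1) + (ρ - 1) ^ 2 / 2 + ε) * h)) =
            K * (1 + (lamN N * ρ + ρ ^ 2 / 2 + κ + ε) * h) := by ring
        rw [e2]
        refine mul_le_mul_of_nonneg_left ?_ hK0.le
        refine le_trans ?_ (Real.add_one_le_exp _)
        have h1 : lamN N * ρ ≤ 0 := by
          rw [hρ]
          have := mul_nonneg hl0 hsg0
          linarith
        have h2 : ρ ^ 2 ≤ s' ^ 2 := by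
          rw [hρ]
          nlinarith
        nlinarith

/-- good noise everywhere -/
private def Sm2_G {ι Ωp : Type} (gd : Set Ωp) : Set (ι → Ωp) := {ω | ∀ x, ω x ∈ gd}

private theorem Sm2_Gm {ι Ωp : Type} [Fintype ι] [MeasurableSpace Ωp] (gd : Set Ωp)
    (hgd : MeasurableSet gd) : MeasurableSet (Sm2_G (ι := ι) gd) := by
  have : Sm2_G (ι := ι) gd = ⋂ x : ι, (fun ω : ι → Ωp => ω x) ⁻¹' gd := by
    ext ω
    simp [Sm2_G]
  rw [this]
  exact MeasurableSet.iInter fun x => (measurable_pi_apply x) hgd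

private theorem Sm2_one {ι Ωp : Type} [Fintype ι] [MeasurableSpace Ωp] (ν : Measure Ωp)
    [IsProbabilityMeasure ν] (gd : Set Ωp) (hgd : MeasurableSet gd) (f : Ωp → ℝ≥0∞)
    (hf : Measurable f) (w : ι) :
    ∫⁻ ω in Sm2_G (ι := ι) gd, f (ω w) ∂(Measure.pi fun _ : ι => ν) ≤ ∫⁻ a in gd, f a ∂ν := by
  have h1 : ∫⁻ ω in Sm2_G (ι := ι) gd, f (ω w) ∂(Measure.pi fun _ : ι => ν) ≤
      ∫⁻ ω in (Function.eval w) ⁻¹' gd, f (ω w) ∂(Measure.pi fun _ : ι => ν) :=
    lintegral_mono_set (fun ω hω => hω w)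
  exact h1.trans (le_of_eq ((measurePreserving_eval (fun _ : ι => ν) w).setLIntegral_comp_preimage
    hgd hf))

private theorem Sm2_site {ι : Type} [Fintype ι] {d : ℕ} (net : Net ι d) {Ωp : Type}
    [MeasurableSpace Ωp] (ν : Measure Ωp) [IsProbabilityMeasure ν]
    (b : Ωp → ℝ) (hb : Measurable b) (gd : Set Ωp) (hgd : MeasurableSet gd) {β h k C1 : ℝ}
    (hβ : 0 < β) (hh : 0 < h) (hh1 : h < 1) (hk : 0 < k) (hC1 : 0 ≤ C1)
    (hhs : 2 ^ β * h ^ (3 / 4 : ℝ) + h / 2 ≤ 1 / 2)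
    (hbd : ∀ a ∈ gd, |b a| ≤ Real.log 2)
    (hm : ∫⁻ a in gd, ENNReal.ofReal (Real.exp (b a)) ∂ν ≤ ENNReal.ofReal (1 + C1 * h))
    (u : ι → ℝ) (hu0 : ∀ x, 0 ≤ u x) (hu : ∀ x, u x ≤ rad β h) (up : (ι → Ωp) → ι → ℝ)
    (Q : ∀ ω, (∀ x, ω x ∈ gd) → QStep net β h k (fun x => b (ω x)) u (up ω)) (w : ι) :
    0 ≤ u w - h * (1 / 2 * (1 / 4) ^ (1 + β) * u w ^ (1 + β)) ∧
    ∫⁻ ω in Sm2_G gd, ENNReal.ofReal (up ω w) ∂(Measure.pi fun _ : ι => ν) ≤
      ENNReal.ofReal ((1 + C1 * h) * (u w - h * (1 / 2 * (1 / 4) ^ (1 + β) * u w ^ (1 + β))) +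
        k * h * cpl net u w) := by
  have hrf := rad_facts hβ hh hh1 (hu0 w) (hu w)
  have hA : 0 ≤ u w - h * (1 / 2 * (1 / 4) ^ (1 + β) * u w ^ (1 + β)) := by
    rcases (hu0 w).lt_or_eq with h0 | h0
    · have h1 : u w ^ (1 + β) = u w * u w ^ β := by rw [Real.rpow_add h0, Real.rpow_one]
      have h2 : (1 / 4 : ℝ) ^ (1 + β) ≤ 1 :=
        Real.rpow_le_one (by norm_num) (by norm_num) (by linarith)
      have h3 : h ^ (3 / 4 : ℝ) ≤ 1 := Real.rpow_le_one hh.le hh1.le (by norm_num)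
      have h4 : (0 : ℝ) < (1 / 4 : ℝ) ^ (1 + β) := Real.rpow_pos_of_pos (by norm_num) _
      have h5 : 0 ≤ h * u w ^ β := by positivity
      have h6 : (1 / 4 : ℝ) ^ (1 + β) * (h * u w ^ β) ≤ 1 := by nlinarith
      rw [h1]
      nlinarith
    · rw [← h0, Real.zero_rpow (by linarith)]
      simp
  refine ⟨hA, ?_⟩
  set A : ℝ := u w - h * (1 / 2 * (1 / 4) ^ (1 + β) * u w ^ (1 + β)) with hAd
  set B : ℝ := k * h * cpl net u w with hB
  have hB0 : 0 ≤ B := by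
    rw [hB]
    unfold cpl
    have : 0 ≤ ∑ y ∈ net.nb w, u y := Finset.sum_nonneg fun y _ => hu0 y
    have := hu0 w
    positivity
  have hpt : ∀ ω ∈ Sm2_G (ι := ι) gd, ENNReal.ofReal (up ω w) ≤
      ENNReal.ofReal A * ENNReal.ofReal (Real.exp (b (ω w))) + ENNReal.ofReal B := by
    intro ω hω
    rw [← ENNReal.ofReal_mul hA, ← ENNReal.ofReal_add (by positivity) hB0]
    refine ENNReal.ofReal_le_ofReal ?_
    have h1 := (Q ω hω).up w
    have h2 := Sm2_up hβ hh hh1 hhs (hu0 w) (hu w) (hbd _ (hω w))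
    rw [← hAd] at h2
    rw [← hB] at h1
    rw [mul_comm A]
    exact h1.trans (add_le_add_left h2 B)
  have hmE : Measurable (fun a => ENNReal.ofReal (Real.exp (b a))) :=
    (Real.measurable_exp.comp hb).ennreal_ofReal
  have hmE' : Measurable (fun ω : ι → Ωp => ENNReal.ofReal (Real.exp (b (ω w)))) :=
    hmE.comp (measurable_pi_apply w)
  calc ∫⁻ ω in Sm2_G gd, ENNReal.ofReal (up ω w) ∂(Measure.pi fun _ : ι => ν)
      ≤ ∫⁻ ω in Sm2_G gd, (ENNReal.ofReal A * ENNReal.ofReal (Real.exp (b (ω w))) +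
          ENNReal.ofReal B) ∂(Measure.pi fun _ : ι => ν) :=
        setLIntegral_mono' (Sm2_Gm gd hgd) hpt
    _ = ENNReal.ofReal A * ∫⁻ ω in Sm2_G (ι := ι) gd, ENNReal.ofReal (Real.exp (b (ω w)))
            ∂(Measure.pi fun _ : ι => ν) +
          ENNReal.ofReal B * (Measure.pi fun _ : ι => ν) (Sm2_G gd) := by
        rw [lintegral_add_right _ measurable_const, lintegral_const_mul _ hmE',
          setLIntegral_const]
    _ ≤ ENNReal.ofReal A * ENNReal.ofReal (1 + C1 * h) + ENNReal.ofReal B * 1 := by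
        gcongr
        · exact (Sm2_one ν gd hgd _ hmE w).trans hm
        · exact prob_le_one
    _ = _ := by
        rw [mul_one, ← ENNReal.ofReal_mul hA, ← ENNReal.ofReal_add (by positivity) hB0]
        congr 1
        ring


private theorem Sm2_pm2 {p a b : ℝ} (hp : 1 ≤ p) (ha : 0 ≤ a) (hb : 0 ≤ b) :
    (2 : ℝ) ^ (-(p - 1)) * (a + b) ^ p ≤ a ^ p + b ^ p := by
  have h1 := NNReal.rpow_add_le_mul_rpow_add_rpow ⟨a, ha⟩ ⟨b, hb⟩ hp
  have h2 : (a + b) ^ p ≤ 2 ^ (p - 1) * (a ^ p + b ^ p) := by exact_mod_cast h1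
  have h3 : (0 : ℝ) < 2 ^ (p - 1) := Real.rpow_pos_of_pos two_pos _
  rw [Real.rpow_neg two_pos.le, inv_mul_le_iff₀ h3]
  exact h2

private theorem Sm2_cpl {ι : Type} [Fintype ι] {d : ℕ} (net : Net ι d) (t : ι → ℝ)
    (ht : ∀ x, 0 ≤ t x) (z : ι) :
    ∑ w, (1 / 2 : ℝ) ^ net.dist z w * cpl net t w ≤
      6 * d * ∑ w, (1 / 2 : ℝ) ^ net.dist z w * t w := by
  classical
  have h1 : ∑ w, (1 / 2 : ℝ) ^ net.dist z w * ∑ y ∈ net.nb w, t y ≤
      4 * d * ∑ w, (1 / 2 : ℝ) ^ net.dist z w * t w := by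
    calc ∑ w, (1 / 2 : ℝ) ^ net.dist z w * ∑ y ∈ net.nb w, t y
        ≤ ∑ w, ∑ y ∈ net.nb w, 2 * ((1 / 2 : ℝ) ^ net.dist z y * t y) := by
          refine Finset.sum_le_sum fun w _ => ?_
          rw [Finset.mul_sum]
          refine Finset.sum_le_sum fun y hy => ?_
          have h2 : net.dist z y ≤ net.dist z w + 1 := by
            have h3 := net.dist_tri z w y
            rw [net.dist_nb w y hy] at h3
            exact h3
          have h3 : (1 / 2 : ℝ) ^ (net.dist z w + 1) ≤ (1 / 2 : ℝ) ^ net.dist z y :=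
            pow_le_pow_of_le_one (by norm_num) (by norm_num) h2
          rw [pow_succ] at h3
          have h4 := mul_le_mul_of_nonneg_right h3 (ht y)
          linarith
      _ = ∑ y, ∑ _w ∈ net.nb y, 2 * ((1 / 2 : ℝ) ^ net.dist z y * t y) := by
          refine Finset.sum_comm' ?_
          intro x y
          constructor
          · rintro ⟨_, h⟩
            exact ⟨net.nb_symm _ _ h, Finset.mem_univ _⟩
          · rintro ⟨h, _⟩
            exact ⟨Finset.mem_univ _, net.nb_symm _ _ h⟩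
      _ ≤ ∑ y, 2 * d * (2 * ((1 / 2 : ℝ) ^ net.dist z y * t y)) := by
          refine Finset.sum_le_sum fun y _ => ?_
          rw [Finset.sum_const, nsmul_eq_mul]
          have h2 : ((net.nb y).card : ℝ) ≤ 2 * d := by exact_mod_cast net.nb_card y
          refine mul_le_mul_of_nonneg_right h2 ?_
          have := ht y
          positivity
      _ = 4 * d * ∑ w, (1 / 2 : ℝ) ^ net.dist z w * t w := by
          rw [← Finset.mul_sum, ← Finset.mul_sum]
          ring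
  have h2 : ∑ w, (1 / 2 : ℝ) ^ net.dist z w * cpl net t w =
      ∑ w, (1 / 2 : ℝ) ^ net.dist z w * ∑ y ∈ net.nb w, t y +
        2 * d * ∑ w, (1 / 2 : ℝ) ^ net.dist z w * t w := by
    rw [Finset.mul_sum, ← Finset.sum_add_distrib]
    refine Finset.sum_congr rfl fun w _ => ?_
    unfold cpl
    push_cast
    ring
  rw [h2]
  linarith

private theorem Sm2_pmean {ι : Type} [Fintype ι] {d : ℕ} (net : Net ι d) {β : ℝ} (hβ : 0 < β)
    (t : ι → ℝ) (ht : ∀ x, 0 ≤ t x) (z : ι) :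
    ((3 : ℝ) ^ d) ^ (-β) * (∑ w, (1 / 2 : ℝ) ^ net.dist z w * t w) ^ (1 + β) ≤
      ∑ w, (1 / 2 : ℝ) ^ net.dist z w * t w ^ (1 + β) := by
  set P : ℝ := ∑ w, (1 / 2 : ℝ) ^ net.dist z w with hP
  have hP1 : P ≤ 3 ^ d := net.sum_half z
  have hP0 : 0 < P := by
    have h1 : (1 / 2 : ℝ) ^ net.dist z z ≤ P :=
      Finset.single_le_sum (f := fun w => (1 / 2 : ℝ) ^ net.dist z w)
        (fun w _ => by positivity) (Finset.mem_univ z)
    rw [net.dist_self, pow_zero] at h1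
    linarith
  set X : ℝ := ∑ w, (1 / 2 : ℝ) ^ net.dist z w * t w with hX
  have hX0 : 0 ≤ X := Finset.sum_nonneg fun w _ => mul_nonneg (by positivity) (ht w)
  set Y : ℝ := ∑ w, (1 / 2 : ℝ) ^ net.dist z w * t w ^ (1 + β) with hY
  have h1 := Real.rpow_arith_mean_le_arith_mean_rpow Finset.univ
    (fun w => (1 / 2 : ℝ) ^ net.dist z w / P) t (fun w _ => by positivity)
    (by rw [← Finset.sum_div, ← hP, div_self hP0.ne']) (fun w _ => ht w)
    (p := 1 + β) (by linarith)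
  have e1 : ∑ w, (1 / 2 : ℝ) ^ net.dist z w / P * t w = X / P := by
    rw [hX, Finset.sum_div]
    exact Finset.sum_congr rfl fun w _ => by ring
  have e2 : ∑ w, (1 / 2 : ℝ) ^ net.dist z w / P * t w ^ (1 + β) = Y / P := by
    rw [hY, Finset.sum_div]
    exact Finset.sum_congr rfl fun w _ => by ring
  rw [e1, e2, Real.div_rpow hX0 hP0.le, Real.rpow_add hP0, Real.rpow_one] at h1
  have h2 : 0 ≤ X ^ (1 + β) := Real.rpow_nonneg hX0 _
  have hPβ : 0 < P ^ β := Real.rpow_pos_of_pos hP0 _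
  have h3 : X ^ (1 + β) ≤ Y * P ^ β := by
    rw [div_le_div_iff₀ (by positivity) hP0] at h1
    have h4 : X ^ (1 + β) * P ≤ (Y * P ^ β) * P := by linarith
    exact le_of_mul_le_mul_right h4 hP0
  have h5 : ((3 : ℝ) ^ d) ^ (-β) ≤ (P ^ β)⁻¹ := by
    rw [Real.rpow_neg (by positivity)]
    exact inv_anti₀ hPβ (Real.rpow_le_rpow hP0.le hP1 hβ.le)
  calc ((3 : ℝ) ^ d) ^ (-β) * X ^ (1 + β) ≤ (P ^ β)⁻¹ * X ^ (1 + β) :=
        mul_le_mul_of_nonneg_right h5 h2
    _ ≤ Y := by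
        rw [inv_mul_le_iff₀ hPβ]
        linarith

private theorem Sm2_det (d : ℕ) {β C1 : ℝ} (hβ : 0 < β) (hC1 : 0 ≤ C1) :
    ∃ A c' : ℝ, 0 < A ∧ 0 < c' ∧ ∀ {ι : Type} [Fintype ι] (net : Net ι d) (h k : ℝ)
      (u u' t : ι → ℝ) (z : ι), 0 < h → 0 < k → k ≤ 1 → (∀ x, 0 ≤ u x) → (∀ x, 0 ≤ u' x) →
      (∀ x, t x = u x + u' x) →
      ∑ w, (1 / 2 : ℝ) ^ net.dist z w *
        (((1 + C1 * h) * (u w - h * (1 / 2 * (1 / 4) ^ (1 + β) * u w ^ (1 + β))) +
          k * h * cpl net u w) +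
        ((1 + C1 * h) * (u' w - h * (1 / 2 * (1 / 4) ^ (1 + β) * u' w ^ (1 + β))) +
          k * h * cpl net u' w)) ≤
      (∑ w, (1 / 2 : ℝ) ^ net.dist z w * t w) +
        h * (A - c' * (∑ w, (1 / 2 : ℝ) ^ net.dist z w * t w) ^ (1 + β)) := by
  set c0 : ℝ := 1 / 2 * (1 / 4) ^ (1 + β) with hc0
  have hc00 : 0 < c0 := by
    have : (0 : ℝ) < (1 / 4 : ℝ) ^ (1 + β) := Real.rpow_pos_of_pos (by norm_num) _
    positivity
  set c2 : ℝ := c0 * 2 ^ (-(1 + β - 1)) * ((3 : ℝ) ^ d) ^ (-β) with hc2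
  have h2p : (0 : ℝ) < 2 ^ (-(1 + β - 1)) := Real.rpow_pos_of_pos two_pos _
  have h3p : (0 : ℝ) < ((3 : ℝ) ^ d) ^ (-β) := Real.rpow_pos_of_pos (by positivity) _
  have hc20 : 0 < c2 := by positivity
  set C2 : ℝ := C1 + 6 * d + 1 with hC2
  have hC20 : 0 < C2 := by positivity
  refine ⟨C2 * (2 * C2 / c2) ^ (1 / β), c2 / 2, ?_, by positivity, ?_⟩
  · have : 0 < (2 * C2 / c2) ^ (1 / β) := Real.rpow_pos_of_pos (by positivity) _
    positivity
  intro ι _ net h k u u' t z hh hk hk1 hu hu' htu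
  have ht : ∀ x, 0 ≤ t x := fun x => by rw [htu]; have := hu x; have := hu' x; linarith
  set X : ℝ := ∑ w, (1 / 2 : ℝ) ^ net.dist z w * t w with hX
  have hX0 : 0 ≤ X := Finset.sum_nonneg fun w _ => mul_nonneg (by positivity) (ht w)
  -- pointwise
  have hp : ∀ w, (1 / 2 : ℝ) ^ net.dist z w *
        (((1 + C1 * h) * (u w - h * (c0 * u w ^ (1 + β))) + k * h * cpl net u w) +
        ((1 + C1 * h) * (u' w - h * (c0 * u' w ^ (1 + β))) + k * h * cpl net u' w)) ≤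
      (1 + C1 * h) * ((1 / 2 : ℝ) ^ net.dist z w * t w) -
        h * (c0 * 2 ^ (-(1 + β - 1))) * ((1 / 2 : ℝ) ^ net.dist z w * t w ^ (1 + β)) +
        k * h * ((1 / 2 : ℝ) ^ net.dist z w * cpl net t w) := by
    intro w
    have h1 : cpl net t w = cpl net u w + cpl net u' w := by
      unfold cpl
      rw [htu w, Finset.sum_congr rfl (fun y _ => htu y), Finset.sum_add_distrib]
      ring
    have h2 := Sm2_pm2 (p := 1 + β) (by linarith) (hu w) (hu' w)
    rw [← htu w] at h2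
    have hp0 : (0 : ℝ) < (1 / 2 : ℝ) ^ net.dist z w := by positivity
    have hur : 0 ≤ u w ^ (1 + β) := Real.rpow_nonneg (hu w) _
    have hur' : 0 ≤ u' w ^ (1 + β) := Real.rpow_nonneg (hu' w) _
    have h3 : 0 ≤ C1 * h * (h * (c0 * u w ^ (1 + β))) := by positivity
    have h4 : 0 ≤ C1 * h * (h * (c0 * u' w ^ (1 + β))) := by positivity
    have h5 := mul_le_mul_of_nonneg_left h2 (by positivity : 0 ≤ h * c0)
    have h6 : ((1 + C1 * h) * (u w - h * (c0 * u w ^ (1 + β))) + k * h * cpl net u w) +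
        ((1 + C1 * h) * (u' w - h * (c0 * u' w ^ (1 + β))) + k * h * cpl net u' w) ≤
        (1 + C1 * h) * t w - h * (c0 * 2 ^ (-(1 + β - 1))) * t w ^ (1 + β) +
          k * h * cpl net t w := by
      rw [h1, htu w] at *
      nlinarith
    have h7 := mul_le_mul_of_nonneg_left h6 hp0.le
    refine h7.trans (le_of_eq ?_)
    ring
  have hs := Finset.sum_le_sum (fun w (_ : w ∈ Finset.univ) => hp w)
  rw [Finset.sum_add_distrib, Finset.sum_sub_distrib, ← Finset.mul_sum, ← Finset.mul_sum,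
    ← Finset.mul_sum, ← hX] at hs
  have h8 := Sm2_cpl net t ht z
  rw [← hX] at h8
  have h9 := Sm2_pmean net hβ t ht z
  rw [← hX] at h9
  have h10 : k * h * ∑ w, (1 / 2 : ℝ) ^ net.dist z w * cpl net t w ≤ h * (6 * d * X) := by
    have h11 : k * h * ∑ w, (1 / 2 : ℝ) ^ net.dist z w * cpl net t w ≤ k * h * (6 * d * X) :=
      mul_le_mul_of_nonneg_left h8 (by positivity)
    have h12 : k * (h * (6 * d * X)) ≤ 1 * (h * (6 * d * X)) :=
      mul_le_mul_of_nonneg_right hk1 (by positivity)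
    linarith
  have h13 := mul_le_mul_of_nonneg_left h9 (by positivity : 0 ≤ h * (c0 * 2 ^ (-(1 + β - 1))))
  have h14 : C2 * X - c2 * X ^ (1 + β) ≤
      C2 * (2 * C2 / c2) ^ (1 / β) - c2 / 2 * X ^ (1 + β) := by
    rcases le_total X ((2 * C2 / c2) ^ (1 / β)) with hc | hc
    · have h15 := mul_le_mul_of_nonneg_left hc hC20.le
      have h16 : 0 ≤ X ^ (1 + β) := Real.rpow_nonneg hX0 _
      nlinarith
    · have hr0 : 0 < (2 * C2 / c2) ^ (1 / β) := Real.rpow_pos_of_pos (by positivity) _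
      have hXp : 0 < X := hr0.trans_le hc
      have h15 := Real.rpow_le_rpow hr0.le hc hβ.le
      rw [← Real.rpow_mul (by positivity), one_div, inv_mul_cancel₀ hβ.ne', Real.rpow_one,
        div_le_iff₀ hc20] at h15
      have h16 : X ^ (1 + β) = X * X ^ β := by rw [Real.rpow_add hXp, Real.rpow_one]
      have h17 := mul_le_mul_of_nonneg_left h15 hXp.le
      rw [h16]
      have h18 : 0 < C2 * (2 * C2 / c2) ^ (1 / β) := by positivity
      rw [one_div] at h18 ⊢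
      nlinarith
  have h19 := mul_le_mul_of_nonneg_left h14 hh.le
  refine hs.trans ?_
  have e : h * (c0 * 2 ^ (-(1 + β - 1))) * (((3 : ℝ) ^ d) ^ (-β) * X ^ (1 + β)) =
      h * (c2 * X ^ (1 + β)) := by rw [hc2]; ring
  rw [e] at h13
  have h20 : h * (C2 * X) = h * (C1 * X) + h * (6 * d * X) + h * X := by rw [hC2]; ring
  have h21 : 0 ≤ h * X := by positivity
  nlinarith

private theorem Sm2_cpl0 {ι : Type} [Fintype ι] {d : ℕ} (net : Net ι d) (u : ι → ℝ)
    (hu : ∀ x, 0 ≤ u x) (w : ι) : 0 ≤ cpl net u w := by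
  unfold cpl
  have h1 : 0 ≤ ∑ y ∈ net.nb w, u y := Finset.sum_nonneg fun y _ => hu y
  have h2 := hu w
  positivity

private theorem Sm2_ES (d : ℕ) {β C1 : ℝ} (hβ : 0 < β) (hC1 : 0 ≤ C1) :
    ∃ A c' : ℝ, 0 < A ∧ 0 < c' ∧ ∀ {ι : Type} [Fintype ι] (net : Net ι d) {Ωp : Type}
      [MeasurableSpace Ωp] (ν : Measure Ωp) [IsProbabilityMeasure ν]
      (b : Ωp → ℝ) (_ : Measurable b) (gd : Set Ωp) (_ : MeasurableSet gd) {h k : ℝ}
      (_ : 0 < h) (_ : h < 1) (_ : 0 < k) (_ : k ≤ 1)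
      (_ : 2 ^ β * h ^ (3 / 4 : ℝ) + h / 2 ≤ 1 / 2)
      (_ : ∀ a ∈ gd, |b a| ≤ Real.log 2)
      (_ : ∫⁻ a in gd, ENNReal.ofReal (Real.exp (b a)) ∂ν ≤ ENNReal.ofReal (1 + C1 * h))
      (u u' t : ι → ℝ) (_ : ∀ x, 0 ≤ u x) (_ : ∀ x, u x ≤ rad β h) (_ : ∀ x, 0 ≤ u' x)
      (_ : ∀ x, u' x ≤ rad β h) (_ : ∀ x, t x = u x + u' x)
      (up up' tp : (ι → Ωp) → ι → ℝ) (_ : ∀ ω x, tp ω x = up ω x + up' ω x)
      (_ : ∀ x, Measurable fun ω => up ω x) (_ : ∀ x, Measurable fun ω => up' ω x)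
      (_ : ∀ ω, (∀ x, ω x ∈ gd) → QStep net β h k (fun x => b (ω x)) u (up ω))
      (_ : ∀ ω, (∀ x, ω x ∈ gd) → QStep net β h k (fun x => b (ω x)) u' (up' ω)) (z : ι),
      ∫⁻ ω in Sm2_G gd, ENNReal.ofReal (SSt net k (tp ω) z / SSt net k t z)
          ∂(Measure.pi fun _ : ι => ν) ≤ ENNReal.ofReal (Real.exp (h * k ^ (1 / 16 : ℝ) * A)) ∧
      (1 ≤ k ^ (1 / 16 : ℝ) * ∑ w, (1 / 2 : ℝ) ^ net.dist z w * t w →
        ∫⁻ ω in Sm2_G gd, ENNReal.ofReal (SSt net k (tp ω) z / SSt net k t z)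
          ∂(Measure.pi fun _ : ι => ν) ≤
        ENNReal.ofReal (Real.exp (h * k ^ (1 / 16 : ℝ) * A -
          h * (c' / 2) * (∑ w, (1 / 2 : ℝ) ^ net.dist z w * t w) ^ β))) := by
  obtain ⟨A, c', hA, hc', hdet⟩ := Sm2_det d hβ hC1
  refine ⟨A, c', hA, hc', ?_⟩
  intro ι _ net Ωp _ ν _ b hb gd hgd h k hh hh1 hk hk1 hhs hbd hm u u' t hu0 hu hu0' hu' htu
    up up' tp htp mup mup' Q Q' z
  have ht : ∀ x, 0 ≤ t x := fun x => by rw [htu]; have := hu0 x; have := hu0' x; linarith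
  set k16 : ℝ := k ^ (1 / 16 : ℝ) with hk16
  have hk160 : 0 < k16 := Real.rpow_pos_of_pos hk _
  set X : ℝ := ∑ w, (1 / 2 : ℝ) ^ net.dist z w * t w with hX
  have hX0 : 0 ≤ X := Finset.sum_nonneg fun w _ => mul_nonneg (by positivity) (ht w)
  set S : ℝ := SSt net k t z with hS
  have hSX : S = 1 + k16 * X := rfl
  have hS1 : 1 ≤ S := by rw [hSX]; have := mul_nonneg hk160.le hX0; linarith
  have hS0 : 0 < S := by linarith
  set U : ι → ℝ := fun w => (1 + C1 * h) * (u w - h * (1 / 2 * (1 / 4) ^ (1 + β) * u w ^ (1 + β))) +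
          k * h * cpl net u w with hU
  set U' : ι → ℝ := fun w => (1 + C1 * h) *
    (u' w - h * (1 / 2 * (1 / 4) ^ (1 + β) * u' w ^ (1 + β))) + k * h * cpl net u' w with hU'
  have hs1 := fun w => Sm2_site net ν b hb gd hgd hβ hh hh1 hk hC1 hhs hbd hm u hu0 hu up Q w
  have hs2 := fun w => Sm2_site net ν b hb gd hgd hβ hh hh1 hk hC1 hhs hbd hm u' hu0' hu' up' Q' w
  have hU0 : ∀ w, 0 ≤ U w := fun w => by
    have h1 := (hs1 w).1
    have h2 := Sm2_cpl0 net u hu0 w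
    simp only [hU]
    positivity
  have hU0' : ∀ w, 0 ≤ U' w := fun w => by
    have h1 := (hs2 w).1
    have h2 := Sm2_cpl0 net u' hu0' w
    simp only [hU']
    positivity
  have hd := hdet net h k u u' t z hh hk hk1 hu0 hu0' htu
  rw [← hX] at hd
  -- integral of SSt
  have hI : ∫⁻ ω in Sm2_G gd, ENNReal.ofReal (SSt net k (tp ω) z) ∂(Measure.pi fun _ : ι => ν) ≤
      ENNReal.ofReal (S + h * k16 * (A - c' * X ^ (1 + β))) := by
    have hpt : ∀ ω ∈ Sm2_G (ι := ι) gd, ENNReal.ofReal (SSt net k (tp ω) z) ≤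
        1 + ∑ w, ENNReal.ofReal (k16 * (1 / 2 : ℝ) ^ net.dist z w) *
          (ENNReal.ofReal (up ω w) + ENNReal.ofReal (up' ω w)) := by
      intro ω hω
      have q1 := (Q ω hω).n1
      have q2 := (Q' ω hω).n1
      have e1 : SSt net k (tp ω) z = 1 + ∑ w, k16 * (1 / 2 : ℝ) ^ net.dist z w *
          (up ω w + up' ω w) := by
        unfold SSt
        rw [Finset.mul_sum]
        congr 1
        refine Finset.sum_congr rfl fun w _ => ?_
        rw [htp]
        ring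
      have hn : ∀ w ∈ Finset.univ, 0 ≤ k16 * (1 / 2 : ℝ) ^ net.dist z w * (up ω w + up' ω w) :=
        fun w _ => mul_nonneg (by positivity) (add_nonneg (q1 w) (q2 w))
      rw [e1, ENNReal.ofReal_add zero_le_one (Finset.sum_nonneg hn), ENNReal.ofReal_one,
        ENNReal.ofReal_sum_of_nonneg hn]
      refine add_le_add_right (Finset.sum_le_sum fun w _ => ?_) 1
      rw [ENNReal.ofReal_mul (by positivity), ENNReal.ofReal_add (q1 w) (q2 w)]
    have m1 : ∀ w, Measurable fun ω : ι → Ωp => ENNReal.ofReal (up ω w) :=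
      fun w => (mup w).ennreal_ofReal
    have m2 : ∀ w, Measurable fun ω : ι → Ωp => ENNReal.ofReal (up' ω w) :=
      fun w => (mup' w).ennreal_ofReal
    have m12 : ∀ w, Measurable fun ω : ι → Ωp => ENNReal.ofReal (up ω w) +
        ENNReal.ofReal (up' ω w) := fun w => (m1 w).add (m2 w)
    have m13 : ∀ w, Measurable fun ω : ι → Ωp => ENNReal.ofReal (k16 * (1 / 2 : ℝ) ^ net.dist z w) *
        (ENNReal.ofReal (up ω w) + ENNReal.ofReal (up' ω w)) := fun w => (m12 w).const_mul _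
    calc ∫⁻ ω in Sm2_G gd, ENNReal.ofReal (SSt net k (tp ω) z) ∂(Measure.pi fun _ : ι => ν)
        ≤ ∫⁻ ω in Sm2_G gd, (1 + ∑ w, ENNReal.ofReal (k16 * (1 / 2 : ℝ) ^ net.dist z w) *
          (ENNReal.ofReal (up ω w) + ENNReal.ofReal (up' ω w))) ∂(Measure.pi fun _ : ι => ν) :=
          setLIntegral_mono' (Sm2_Gm gd hgd) hpt
      _ = (Measure.pi fun _ : ι => ν) (Sm2_G gd) +
          ∑ w, ENNReal.ofReal (k16 * (1 / 2 : ℝ) ^ net.dist z w) *
            (∫⁻ ω in Sm2_G gd, ENNReal.ofReal (up ω w) ∂(Measure.pi fun _ : ι => ν) +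
            ∫⁻ ω in Sm2_G gd, ENNReal.ofReal (up' ω w) ∂(Measure.pi fun _ : ι => ν)) := by
          rw [lintegral_add_left measurable_const, lintegral_finsetSum _ (fun w _ => m13 w)]
          congr 1
          · rw [setLIntegral_const, one_mul]
          · refine Finset.sum_congr rfl fun w _ => ?_
            rw [lintegral_const_mul _ (m12 w), lintegral_add_left (m1 w)]
      _ ≤ 1 + ∑ w, ENNReal.ofReal (k16 * (1 / 2 : ℝ) ^ net.dist z w) *
            (ENNReal.ofReal (U w) + ENNReal.ofReal (U' w)) := by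
          gcongr with w _
          · exact prob_le_one
          · exact (hs1 w).2
          · exact (hs2 w).2
      _ = ENNReal.ofReal (1 + ∑ w, k16 * (1 / 2 : ℝ) ^ net.dist z w * (U w + U' w)) := by
          have hn : ∀ w ∈ Finset.univ, 0 ≤ k16 * (1 / 2 : ℝ) ^ net.dist z w * (U w + U' w) :=
            fun w _ => mul_nonneg (by positivity) (add_nonneg (hU0 w) (hU0' w))
          rw [ENNReal.ofReal_add zero_le_one (Finset.sum_nonneg hn), ENNReal.ofReal_one,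
            ENNReal.ofReal_sum_of_nonneg hn]
          congr 1
          refine Finset.sum_congr rfl fun w _ => ?_
          rw [← ENNReal.ofReal_add (hU0 w) (hU0' w), ← ENNReal.ofReal_mul (by positivity)]
      _ ≤ _ := by
          refine ENNReal.ofReal_le_ofReal ?_
          have e2 : ∑ w, k16 * (1 / 2 : ℝ) ^ net.dist z w * (U w + U' w) =
              k16 * ∑ w, (1 / 2 : ℝ) ^ net.dist z w * (U w + U' w) := by
            rw [Finset.mul_sum]
            exact Finset.sum_congr rfl fun w _ => by ring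
          rw [e2, hSX]
          have h3 := mul_le_mul_of_nonneg_left hd hk160.le
          simp only [hU, hU']
          linarith
  have hI2 : ∫⁻ ω in Sm2_G gd, ENNReal.ofReal (SSt net k (tp ω) z / S)
      ∂(Measure.pi fun _ : ι => ν) ≤
      ENNReal.ofReal ((S + h * k16 * (A - c' * X ^ (1 + β))) / S) := by
    have m3 : Measurable fun ω : ι → Ωp => ENNReal.ofReal (SSt net k (tp ω) z) := by
      refine Measurable.ennreal_ofReal ?_
      unfold SSt
      refine measurable_const.add (Measurable.const_mul (Finset.measurable_sum _ fun w _ => ?_) _)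
      refine Measurable.const_mul ?_ _
      have : (fun ω : ι → Ωp => tp ω w) = fun ω => up ω w + up' ω w := funext fun ω => htp ω w
      rw [this]
      exact (mup w).add (mup' w)
    have e3 : ∀ ω : ι → Ωp, ENNReal.ofReal (SSt net k (tp ω) z / S) =
        ENNReal.ofReal S⁻¹ * ENNReal.ofReal (SSt net k (tp ω) z) := by
      intro ω
      rw [← ENNReal.ofReal_mul (by positivity)]
      congr 1
      ring
    simp only [e3]
    rw [lintegral_const_mul _ m3]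
    refine (mul_le_mul_right hI _).trans (le_of_eq ?_)
    rw [← ENNReal.ofReal_mul (by positivity)]
    congr 1
    ring
  have hXβ : 0 ≤ X ^ (1 + β) := Real.rpow_nonneg hX0 _
  have e4 : (S + h * k16 * (A - c' * X ^ (1 + β))) / S =
      h * k16 * (A - c' * X ^ (1 + β)) / S + 1 := by
    field_simp
    ring
  rw [e4] at hI2
  constructor
  · refine hI2.trans (ENNReal.ofReal_le_ofReal ?_)
    refine le_trans ?_ (Real.add_one_le_exp _)
    have h1 : h * k16 * (A - c' * X ^ (1 + β)) / S ≤ h * k16 * A := by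
      rw [div_le_iff₀ hS0]
      have h2 : 0 ≤ h * k16 * (c' * X ^ (1 + β)) := by positivity
      have h3 : h * k16 * A * 1 ≤ h * k16 * A * S := mul_le_mul_of_nonneg_left hS1 (by positivity)
      linarith
    linarith
  · intro hX1
    refine hI2.trans (ENNReal.ofReal_le_ofReal ?_)
    refine le_trans ?_ (Real.add_one_le_exp _)
    have hXp : 0 < X := by
      by_contra hc
      have : X = 0 := le_antisymm (not_lt.1 hc) hX0
      rw [this] at hX1
      norm_num at hX1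
    have h1 : h * k16 * (A - c' * X ^ (1 + β)) / S ≤ h * k16 * A - h * (c' / 2) * X ^ β := by
      rw [div_le_iff₀ hS0]
      have h2 : X ^ (1 + β) = X * X ^ β := by rw [Real.rpow_add hXp, Real.rpow_one]
      have h3 : h * k16 * A * 1 ≤ h * k16 * A * S := mul_le_mul_of_nonneg_left hS1 (by positivity)
      have h4 : S ≤ 2 * (k16 * X) := by rw [hSX]; linarith
      have h5 : 0 ≤ h * (c' / 2) * X ^ β := by positivity
      have h6 := mul_le_mul_of_nonneg_left h4 h5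
      rw [h2]
      nlinarith
    linarith

private theorem Sm2_rneg {a b : ℝ≥0∞} {s : ℝ} (hs : 0 < s) (hab : a ≤ b) : b ^ (-s) ≤ a ^ (-s) := by
  rw [ENNReal.rpow_neg, ENNReal.rpow_neg, ENNReal.inv_le_inv]
  exact ENNReal.rpow_le_rpow hab hs.le

private theorem Sm2_comb {ι : Type} [Fintype ι] {d : ℕ} (net : Net ι d) {Ωp : Type}
    [MeasurableSpace Ωp] (ν : Measure Ωp) [IsProbabilityMeasure ν] (b : Ωp → ℝ)
    (hb : Measurable b) (gd : Set Ωp) (hgd : MeasurableSet gd) {k q s r E X2 : ℝ} (hk : 0 < k)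
    (hk1 : k < 1) (hq : 0 ≤ q) (hs : 0 < s) (hqs : q * s < 1)
    (u t : ι → ℝ) (up tp : (ι → Ωp) → ι → ℝ) (ht0 : ∀ x, 0 ≤ t x)
    (mtp : ∀ x, Measurable fun ω => tp ω x) (x z : ι)
    (hz : ∀ y, Tz net k q u t x y ≤ Tz net k q u t x z) (hv : 0 < u z)
    (htp0 : ∀ ω ∈ Sm2_G gd, ∀ x, 0 ≤ tp ω x)
    (hlow : ∀ ω ∈ Sm2_G gd, u z * Real.exp (b (ω z) - r) ≤ up ω z)
    (hE : ∫⁻ a in gd, ENNReal.ofReal (Real.exp (-(s / (1 - q * s) *
      gX' (Real.log (u z) / ell k) * (b a - r)) + 4 * (s / (1 - q * s)) * (b a - r) ^ 2 / ell k)) ∂ν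
      ≤ ENNReal.ofReal (Real.exp E))
    (hS : ∫⁻ ω in Sm2_G gd, ENNReal.ofReal (SSt net k (tp ω) z / SSt net k t z)
          ∂(Measure.pi fun _ : ι => ν) ≤ ENNReal.ofReal (Real.exp X2)) :
    ∫⁻ ω in Sm2_G gd, Vp net k q s (up ω) (tp ω) x ∂(Measure.pi fun _ : ι => ν) ≤
      ENNReal.ofReal (Real.exp ((1 - q * s) * E + q * s * X2)) * Vp net k q s u t x := by
  set g' : ℝ := gX' (Real.log (u z) / ell k) with hg'
  set s' : ℝ := s / (1 - q * s) with hs'
  have h1qs : 0 < 1 - q * s := by linarith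
  have hs's : s' * (1 - q * s) = s := by rw [hs', div_mul_cancel₀ _ h1qs.ne']
  have hell : 0 < ell k := ell_pos hk hk1
  have hqs0 : 0 ≤ q * s := by positivity
  set S : ℝ := SSt net k t z with hSd
  have hS1 : 1 ≤ S := SSt_one net hk t ht0 z
  have hS0 : 0 < S := by linarith
  have hk4 : (0 : ℝ) < (k ^ (1 / 4 : ℝ)) ^ net.dist x z := pow_pos (Real.rpow_pos_of_pos hk _) _
  have hf0 : 0 < fpot k (u z) := fpot_pos hv
  set T : ℝ := Tz net k q u t x z with hT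
  have hT0 : 0 < T := by
    rw [hT]
    unfold Tz
    rw [← hSd]
    have : 0 < S ^ (-q) := Real.rpow_pos_of_pos hS0 _
    positivity
  have hV : Vp net k q s u t x = ENNReal.ofReal (T ^ (-s)) := by
    rw [Vp_argmax net k q s u t x z hz, ← hT, ENNReal.ofReal_rpow_of_pos hT0]
  have hpt : ∀ ω ∈ Sm2_G (ι := ι) gd, Vp net k q s (up ω) (tp ω) x ≤
      ENNReal.ofReal (T ^ (-s)) *
      (ENNReal.ofReal (Real.exp (-(s' * g' * (b (ω z) - r)) +
        4 * s' * (b (ω z) - r) ^ 2 / ell k)) ^ (1 - q * s) *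
        ENNReal.ofReal (SSt net k (tp ω) z / S) ^ (q * s)) := by
    intro ω hω
    have h1 : 1 ≤ SSt net k (tp ω) z := SSt_one net hk (tp ω) (htp0 ω hω) z
    set S' : ℝ := SSt net k (tp ω) z with hS'
    have hS'0 : 0 < S' := by linarith
    set c : ℝ := b (ω z) - r with hc
    have h2 := fpot_inc hk hk1 hv (hlow ω hω)
    rw [← hg'] at h2
    set e : ℝ := g' * c - 4 * c ^ 2 / ell k with he
    have hR0 : 0 < S' / S := by positivity
    set L : ℝ := T * Real.exp e * (S' / S) ^ (-q) with hL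
    have hL0 : 0 < L := by
      have : 0 < (S' / S) ^ (-q) := Real.rpow_pos_of_pos hR0 _
      positivity
    have h3 : L ≤ Tz net k q (up ω) (tp ω) x z := by
      rw [hL, hT]
      unfold Tz
      rw [← hS', ← hSd]
      have h4 : S' ^ (-q) = S ^ (-q) * (S' / S) ^ (-q) := by
        rw [← Real.mul_rpow hS0.le hR0.le]
        congr 1
        field_simp
      rw [h4]
      have h5 : 0 < S ^ (-q) * (S' / S) ^ (-q) := by
        have := Real.rpow_pos_of_pos hS0 (-q)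
        have := Real.rpow_pos_of_pos hR0 (-q)
        positivity
      have h6 := mul_le_mul_of_nonneg_left h2 hk4.le
      have h7 := mul_le_mul_of_nonneg_right h6 h5.le
      refine le_trans (le_of_eq ?_) h7
      ring
    have h8 : ENNReal.ofReal L ≤
        Finset.univ.sup fun y => ENNReal.ofReal (Tz net k q (up ω) (tp ω) x y) :=
      (ENNReal.ofReal_le_ofReal h3).trans
        (Finset.le_sup (f := fun y => ENNReal.ofReal (Tz net k q (up ω) (tp ω) x y))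
          (Finset.mem_univ z))
    have h9 : Vp net k q s (up ω) (tp ω) x ≤ ENNReal.ofReal L ^ (-s) := by
      unfold Vp
      exact Sm2_rneg hs h8
    refine h9.trans (le_of_eq ?_)
    rw [ENNReal.ofReal_rpow_of_pos hL0, ENNReal.ofReal_rpow_of_pos (Real.exp_pos _),
      ENNReal.ofReal_rpow_of_pos hR0, ← ENNReal.ofReal_mul (by positivity),
      ← ENNReal.ofReal_mul (by positivity)]
    congr 1
    rw [hL, Real.mul_rpow (by positivity) (by positivity), Real.mul_rpow hT0.le (by positivity),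
      ← Real.exp_mul, ← Real.exp_mul, ← Real.rpow_mul hR0.le, mul_assoc]
    have e1 : e * -s = (-(s' * g' * c) + 4 * s' * c ^ 2 / ell k) * (1 - q * s) := by
      have : (-(s' * g' * c) + 4 * s' * c ^ 2 / ell k) * (1 - q * s) =
        (-(g' * c) + 4 * c ^ 2 / ell k) * (s' * (1 - q * s)) := by ring
      rw [this, hs's, he]
      ring
    have e2 : -q * -s = q * s := by ring
    rw [e1, e2]
  have mF : Measurable fun a : Ωp => ENNReal.ofReal (Real.exp (-(s' * g' * (b a - r)) +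
        4 * s' * (b a - r) ^ 2 / ell k)) := by
    refine Measurable.ennreal_ofReal (Real.measurable_exp.comp ?_)
    exact ((((hb.sub_const r).const_mul (s' * g')).neg).add
      ((((hb.sub_const r).pow_const 2).const_mul (4 * s')).div_const (ell k)))
  have mF' : Measurable fun ω : ι → Ωp => ENNReal.ofReal (Real.exp (-(s' * g' * (b (ω z) - r)) +
        4 * s' * (b (ω z) - r) ^ 2 / ell k)) := mF.comp (measurable_pi_apply z)
  have mR : Measurable fun ω : ι → Ωp => ENNReal.ofReal (SSt net k (tp ω) z / S) := by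
    refine Measurable.ennreal_ofReal (Measurable.div_const ?_ S)
    unfold SSt
    refine measurable_const.add (Measurable.const_mul (Finset.measurable_sum _ fun w _ => ?_) _)
    exact (mtp w).const_mul _
  have mP : Measurable fun ω : ι → Ωp =>
      (ENNReal.ofReal (Real.exp (-(s' * g' * (b (ω z) - r)) +
        4 * s' * (b (ω z) - r) ^ 2 / ell k)) ^ (1 - q * s) *
        ENNReal.ofReal (SSt net k (tp ω) z / S) ^ (q * s)) :=
    (mF'.pow_const _).mul (mR.pow_const _)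
  calc ∫⁻ ω in Sm2_G gd, Vp net k q s (up ω) (tp ω) x ∂(Measure.pi fun _ : ι => ν)
      ≤ ∫⁻ ω in Sm2_G gd, ENNReal.ofReal (T ^ (-s)) *
      (ENNReal.ofReal (Real.exp (-(s' * g' * (b (ω z) - r)) +
        4 * s' * (b (ω z) - r) ^ 2 / ell k)) ^ (1 - q * s) *
        ENNReal.ofReal (SSt net k (tp ω) z / S) ^ (q * s)) ∂(Measure.pi fun _ : ι => ν) :=
        setLIntegral_mono' (Sm2_Gm gd hgd) hpt
    _ = ENNReal.ofReal (T ^ (-s)) * ∫⁻ ω in Sm2_G gd,
      (ENNReal.ofReal (Real.exp (-(s' * g' * (b (ω z) - r)) +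
        4 * s' * (b (ω z) - r) ^ 2 / ell k)) ^ (1 - q * s) *
        ENNReal.ofReal (SSt net k (tp ω) z / S) ^ (q * s)) ∂(Measure.pi fun _ : ι => ν) :=
        lintegral_const_mul _ mP
    _ ≤ ENNReal.ofReal (T ^ (-s)) *
        ((∫⁻ ω in Sm2_G gd, ENNReal.ofReal (Real.exp (-(s' * g' * (b (ω z) - r)) +
        4 * s' * (b (ω z) - r) ^ 2 / ell k)) ∂(Measure.pi fun _ : ι => ν)) ^ (1 - q * s) *
        (∫⁻ ω in Sm2_G gd, ENNReal.ofReal (SSt net k (tp ω) z / S)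
          ∂(Measure.pi fun _ : ι => ν)) ^ (q * s)) := by
        gcongr
        exact ENNReal.lintegral_mul_norm_pow_le mF'.aemeasurable mR.aemeasurable h1qs.le hqs0
          (by ring)
    _ ≤ ENNReal.ofReal (T ^ (-s)) *
        (ENNReal.ofReal (Real.exp E) ^ (1 - q * s) *
        ENNReal.ofReal (Real.exp X2) ^ (q * s)) := by
        gcongr
        exact (Sm2_one ν gd hgd _ mF z).trans hE
    _ = _ := by
        rw [ENNReal.ofReal_rpow_of_pos (Real.exp_pos _), ENNReal.ofReal_rpow_of_pos (Real.exp_pos _),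
          ← ENNReal.ofReal_mul (by positivity), ← Real.exp_mul, ← Real.exp_mul, ← Real.exp_add,
          hV, mul_comm]
        congr 3
        ring


open Filter Topology in
private theorem Sm2_ev {P : ℝ → Prop} (h : ∀ᶠ x in 𝓝[>] (0 : ℝ), P x) :
    ∃ x0 : ℝ, 0 < x0 ∧ ∀ x, 0 < x → x < x0 → P x := by
  obtain ⟨u, hu, hs⟩ := mem_nhdsGT_iff_exists_Ioo_subset.1 h
  exact ⟨u, hu, fun x h1 h2 => hs ⟨h1, h2⟩⟩

open Filter Topology in
private theorem Sm2_pow (C : ℝ) {a δ : ℝ} (ha : 0 < a) (hδ : 0 < δ) :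
    ∀ᶠ x in 𝓝[>] (0 : ℝ), C * x ^ a ≤ δ := by
  have h1 : Tendsto (fun x : ℝ => C * x ^ a) (𝓝[>] 0) (𝓝 (C * 0)) := by
    refine Tendsto.const_mul C ?_
    have h2 : ContinuousAt (fun x : ℝ => x ^ a) 0 := Real.continuousAt_rpow_const 0 a (Or.inr ha.le)
    have h3 := h2.tendsto
    rw [Real.zero_rpow ha.ne'] at h3
    exact h3.mono_left nhdsWithin_le_nhds
  rw [mul_zero] at h1
  exact (h1.eventually (gt_mem_nhds hδ)).mono fun x hx => hx.le

open Filter Topology in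
private theorem Sm2_ell (C : ℝ) : ∀ᶠ k in 𝓝[>] (0 : ℝ), C ≤ ell k := by
  have h1 : Tendsto (fun k : ℝ => -Real.log k) (𝓝[>] 0) atTop :=
    tendsto_neg_atBot_atTop.comp Real.tendsto_log_nhdsGT_zero
  refine (h1.eventually_ge_atTop C).mono fun k hk => ?_
  unfold ell
  rw [one_div, Real.log_inv]
  exact hk

open Filter Topology in
private theorem Sm2_powell (C : ℝ) {a δ : ℝ} (ha : 0 < a) (hδ : 0 < δ) :
    ∀ᶠ k in 𝓝[>] (0 : ℝ), C * k ^ a * ell k ≤ δ := by
  have h1 : Tendsto (fun k : ℝ => -C * (Real.log k * k ^ a)) (𝓝[>] 0) (𝓝 (-C * 0)) :=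
    (tendsto_log_mul_rpow_nhdsGT_zero ha).const_mul (-C)
  rw [mul_zero] at h1
  refine (h1.eventually (gt_mem_nhds hδ)).mono fun k hk => ?_
  unfold ell
  rw [one_div, Real.log_inv]
  refine le_trans (le_of_eq ?_) hk.le
  ring

private theorem Sm2_elk (k : ℝ) : ell k = -Real.log k := by
  unfold ell; rw [one_div, Real.log_inv]

private theorem Sm2_drift {β k h v Cr : ℝ} (hβ : 0 < β) (hk : 0 < k) (hk1 : k < 1) (hh : 0 < h)
    (hel0 : 0 < ell k) (hCr1 : 1 ≤ Cr) (hv : 0 < v) (K4 : Cr * k ^ (β / 8) * ell k ≤ 1 / 2)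
    (K5 : 1 * k ^ (1 / 4 : ℝ) * ell k ≤ 1 / 2) :
    (gX' (Real.log v / ell k) * (h * (Cr * v ^ β + k ^ (1 / 4 : ℝ))) ≤ h / ell k) ∨
    (1 ≤ k ^ (1 / 16 : ℝ) * v ∧
      gX' (Real.log v / ell k) * (h * (Cr * v ^ β + k ^ (1 / 4 : ℝ))) ≤ 2 * Cr * h * v ^ β) := by
  have hk4 : (0 : ℝ) < k ^ (1 / 4 : ℝ) := Real.rpow_pos_of_pos hk _
  have hk41 : k ^ (1 / 4 : ℝ) ≤ 1 := Real.rpow_le_one hk.le hk1.le (by norm_num)
  have hvβ : 0 < v ^ β := Real.rpow_pos_of_pos hv _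
  obtain ⟨hg0, hg1⟩ := gX'_mem (Real.log v / ell k)
  set g' : ℝ := gX' (Real.log v / ell k) with hg'
  set r : ℝ := h * (Cr * v ^ β + k ^ (1 / 4 : ℝ)) with hr
  have hr0 : 0 ≤ r := by positivity
  have hlk := Sm2_elk k
  have hgle : g' * r ≤ r := mul_le_of_le_one_left hr0 hg1
  rcases le_or_gt (Real.log v / ell k) (-(1 / 8)) with hc | hc
  · left
    refine hgle.trans ?_
    rw [div_le_iff₀ hel0] at hc
    have g1 : v ≤ k ^ (1 / 8 : ℝ) := by
      rw [← Real.exp_log hv, Real.rpow_def_of_pos hk]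
      refine Real.exp_le_exp.2 ?_
      rw [hlk] at hc
      linarith
    have g2 : v ^ β ≤ k ^ (β / 8) := by
      have g3 := Real.rpow_le_rpow hv.le g1 hβ.le
      rw [← Real.rpow_mul hk.le] at g3
      have g4 : (1 / 8 : ℝ) * β = β / 8 := by ring
      rwa [g4] at g3
    rw [le_div_iff₀ hel0, hr]
    have g5 : Cr * v ^ β * ell k ≤ Cr * k ^ (β / 8) * ell k := by gcongr
    have g6 : Cr * v ^ β * ell k + 1 * k ^ (1 / 4 : ℝ) * ell k ≤ 1 := by linarith
    have g7 := mul_le_mul_of_nonneg_left g6 hh.le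
    linarith
  · rcases le_or_gt (Real.log v / ell k) (1 / 16) with hc2 | hc2
    · left
      have g1 : g' = 0 := by
        rw [hg']
        unfold gX'
        rw [if_neg (by linarith), if_neg (by linarith), if_pos hc2]
      rw [g1, zero_mul]
      positivity
    · right
      rw [lt_div_iff₀ hel0] at hc2
      have g1 : 1 ≤ k ^ (1 / 16 : ℝ) * v := by
        rw [Real.rpow_def_of_pos hk]
        nth_rw 1 [← Real.exp_log hv]
        rw [← Real.exp_add]
        refine Real.one_le_exp ?_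
        rw [hlk] at hc2
        linarith
      refine ⟨g1, hgle.trans ?_⟩
      have g2 : k ^ (1 / 16 : ℝ) ≤ 1 := Real.rpow_le_one hk.le hk1.le (by norm_num)
      have g3 : 1 ≤ v := by
        have := mul_le_mul_of_nonneg_right g2 hv.le
        linarith
      have g4 : 1 ≤ v ^ β := Real.one_le_rpow g3 hβ.le
      have g5 : k ^ (1 / 4 : ℝ) ≤ Cr * v ^ β := by
        have : 1 * 1 ≤ Cr * v ^ β := mul_le_mul hCr1 g4 zero_le_one (by linarith)
        linarith
      have g6 := mul_le_mul_of_nonneg_left g5 hh.le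
      rw [hr]
      linarith

private theorem Sm2_r2 {β k h v Cr : ℝ} (hβ : 0 < β) (hk : 0 < k) (hk1 : k < 1) (hh : 0 < h)
    (hh1 : h < 1) (hCr1 : 1 ≤ Cr) (hv : 0 < v) (hvr : v ≤ rad β h)
    (H4 : 8 * (Cr + 1) ^ 2 * h ^ (1 / 2 : ℝ) ≤ 1) :
    8 * (h * (Cr * v ^ β + k ^ (1 / 4 : ℝ))) ^ 2 ≤ h := by
  have hk4 : (0 : ℝ) < k ^ (1 / 4 : ℝ) := Real.rpow_pos_of_pos hk _
  have hk41 : k ^ (1 / 4 : ℝ) ≤ 1 := Real.rpow_le_one hk.le hk1.le (by norm_num)
  have hvβ : 0 < v ^ β := Real.rpow_pos_of_pos hv _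
  have hrf := rad_facts hβ hh hh1 hv.le hvr
  have hr0 : 0 ≤ h * (Cr * v ^ β + k ^ (1 / 4 : ℝ)) := by positivity
  have g1 : h * (Cr * v ^ β + k ^ (1 / 4 : ℝ)) ≤ (Cr + 1) * h ^ (3 / 4 : ℝ) := by
    have g2 : Cr * (h * v ^ β) ≤ Cr * h ^ (3 / 4 : ℝ) :=
      mul_le_mul_of_nonneg_left hrf.2.2.1 (by linarith)
    have g3 : h ≤ h ^ (3 / 4 : ℝ) := by
      have := Real.rpow_le_rpow_of_exponent_ge hh hh1.le (show (3 / 4 : ℝ) ≤ 1 by norm_num)
      rwa [Real.rpow_one] at this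
    have g4 : h * k ^ (1 / 4 : ℝ) ≤ h * 1 := mul_le_mul_of_nonneg_left hk41 hh.le
    linarith
  have g5 := pow_le_pow_left₀ hr0 g1 2
  have g6 : ((Cr + 1) * h ^ (3 / 4 : ℝ)) ^ 2 = (Cr + 1) ^ 2 * h ^ (1 / 2 : ℝ) * h := by
    have g7 : h ^ (3 / 4 : ℝ) * h ^ (3 / 4 : ℝ) = h ^ (1 / 2 : ℝ) * h := by
      nth_rw 4 [← Real.rpow_one h]
      rw [← Real.rpow_add hh, ← Real.rpow_add hh]
      norm_num
    rw [mul_pow, sq (h ^ (3 / 4 : ℝ)), g7]
    ring
  have g8 : 8 * (Cr + 1) ^ 2 * h ^ (1 / 2 : ℝ) * h ≤ 1 * h := mul_le_mul_of_nonneg_right H4 hh.le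
  linarith

private theorem Sm2_hE1 {q s s' el ε h g' r : ℝ} (hh : 0 < h) (hel0 : 0 < el) (hs : 0 < s)
    (hqs0 : 0 ≤ q * s) (h1qs : 0 < 1 - q * s) (hs's : s' * (1 - q * s) = s) (hs'2 : s' ≤ 2 * s)
    (hε0 : 0 < ε) (hε2 : ε ≤ s / el) (hr2 : 8 * r ^ 2 ≤ h) :
    (1 - q * s) * ((s' ^ 2 / 2 + 16 * s' / el + ε) * h + s' * g' * r + 8 * s' * r ^ 2 / el) ≤
      (s ^ 2 + 18 * s / el) * h + s * (g' * r) := by
  have e1 : (1 - q * s) * ((s' ^ 2 / 2 + 16 * s' / el + ε) * h + s' * g' * r +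
      8 * s' * r ^ 2 / el) = (s' * (1 - q * s)) * (s' / 2) * h +
      16 * (s' * (1 - q * s)) / el * h + (1 - q * s) * ε * h + (s' * (1 - q * s)) * (g' * r) +
      (s' * (1 - q * s)) * (8 * r ^ 2) / el := by ring
  rw [e1, hs's]
  have g1 : s * (s' / 2) * h ≤ s ^ 2 * h := by
    have : s * (s' / 2) ≤ s ^ 2 := by nlinarith
    exact mul_le_mul_of_nonneg_right this hh.le
  have g2 : (1 - q * s) * ε * h ≤ s / el * h := by
    have : (1 - q * s) * ε ≤ 1 * (s / el) := by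
      refine mul_le_mul (by linarith) hε2 hε0.le (by norm_num)
    have := mul_le_mul_of_nonneg_right this hh.le
    linarith
  have g3 : s * (8 * r ^ 2) / el ≤ s * h / el := by gcongr
  have e2 : (s ^ 2 + 18 * s / el) * h = s ^ 2 * h + 16 * s / el * h + s / el * h + s * h / el := by
    ring
  linarith

private theorem Sm2_strong {β q s el h A c' X v E G Cr k16 : ℝ} (hβ : 0 < β) (hh : 0 < h)
    (hel0 : 0 < el) (hs : 0 < s) (hq0 : 0 < q) (hc' : 0 < c') (hXp : 0 < X) (hv : 0 < v)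
    (hvX : v ≤ X) (hCr1 : 1 ≤ Cr) (hq2 : 8 * Cr ≤ q * c')
    (hgr : G ≤ h / el ∨ G ≤ 2 * Cr * h * v ^ β)
    (hE1 : (1 - q * s) * E ≤ (s ^ 2 + 18 * s / el) * h + s * G)
    (hqA' : q * s * (h * k16 * A) ≤ s / el * h) :
    (1 - q * s) * E + q * s * (h * k16 * A - h * (c' / 2) * X ^ β) ≤
        (s ^ 2 + 20 * s / el) * h - s * h * (q * c' / 4 * X ^ β) := by
  have hXβ : 0 < X ^ β := Real.rpow_pos_of_pos hXp _
  have hvβ : 0 < v ^ β := Real.rpow_pos_of_pos hv _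
  have g1 : s * G ≤ s / el * h + s * h * (q * c' / 4 * X ^ β) := by
    rcases hgr with hc | hc
    · have g2 := mul_le_mul_of_nonneg_left hc hs.le
      have g3 : 0 ≤ s * h * (q * c' / 4 * X ^ β) := by positivity
      have e1 : s * (h / el) = s / el * h := by ring
      linarith
    · have g2 := mul_le_mul_of_nonneg_left hc hs.le
      have g3 : v ^ β ≤ X ^ β := Real.rpow_le_rpow hv.le hvX hβ.le
      have g4 : s * (2 * Cr * h * v ^ β) ≤ s * h * (q * c' / 4 * X ^ β) := by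
        have g5 : 2 * Cr * v ^ β ≤ q * c' / 4 * X ^ β :=
          mul_le_mul (by linarith) g3 hvβ.le (by positivity)
        have g6 := mul_le_mul_of_nonneg_left g5 (by positivity : 0 ≤ s * h)
        linarith
      have g5 : 0 ≤ s / el * h := by positivity
      linarith
  have e2 : q * s * (h * k16 * A - h * (c' / 2) * X ^ β) =
      q * s * (h * k16 * A) - 2 * (s * h * (q * c' / 4 * X ^ β)) := by ring
  have e3 : (s ^ 2 + 20 * s / el) * h = (s ^ 2 + 18 * s / el) * h + s / el * h + s / el * h := by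
    ring
  linarith

private theorem Sm2_fin {q c' κβ s h el X2 Y : ℝ} (hs : 0 < s) (hs1 : s ≤ 1 / 8) (hh : 0 < h)
    (hel5 : 5 ≤ el) (hq0 : 0 < q) (hc' : 0 < c') (hκ : 0 < κβ)
    (K7 : 5 ≤ q * c' / 8 * κβ) (hX : κβ ≤ X2)
    (hY : Y ≤ (s ^ 2 + 20 * s / el) * h - s * h * (q * c' / 4 * X2)) :
    Y ≤ -(2 * (s * (q * c' / 8 * κβ) * h / 2)) := by
  refine hY.trans ?_
  have g5 : s * h * (q * c' / 4 * κβ) ≤ s * h * (q * c' / 4 * X2) := by gcongr
  have g6 : s ^ 2 + 20 * s / el ≤ s * 5 := by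
    have g7 : 20 * s / el ≤ 4 * s := by
      rw [div_le_iff₀ (by linarith)]
      nlinarith
    nlinarith
  have g8 := mul_le_mul_of_nonneg_right g6 hh.le
  have g9 := mul_le_mul_of_nonneg_left K7 (by positivity : 0 ≤ s * h)
  have e1 : s * h * (q * c' / 4 * κβ) = 2 * (s * h * (q * c' / 8 * κβ)) := by ring
  linarith

open Filter Topology in
private theorem Sm2_core (N d : ℕ) (β : ℝ) (hN : 2 ≤ N) (hβ : 0 < β) : ∃ q0 : ℝ, 1 ≤ q0 ∧
    ∀ q, q0 ≤ q → ∃ C9 c k0 : ℝ, 0 < C9 ∧ 0 < c ∧ 0 < k0 ∧ k0 < 1 ∧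
    ∀ {Ωp : Type} [MeasurableSpace Ωp] (ν : Measure Ωp) [IsProbabilityMeasure ν]
      (b : ℝ → Ωp → ℝ) (_ : ∀ h, Measurable (b h)) (gd : ℝ → Set Ωp)
      (_ : ∀ h, MeasurableSet (gd h)) (k : ℝ), 0 < k → k < k0 → BNoise N ν b gd →
    ∀ s : ℝ, 0 < s → 8 * q * s ≤ 1 →
    ∃ h0 : ℝ, 0 < h0 ∧ ∀ h, 0 < h → h < h0 → ∀ {ι : Type} [Fintype ι] (net : Net ι d)
      (u u' t : ι → ℝ) (up up' tp : (ι → Ωp) → ι → ℝ),
      (∀ x, 0 ≤ u x) → (∀ x, u x ≤ rad β h) → (∀ x, 0 ≤ u' x) → (∀ x, u' x ≤ rad β h) →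
      (∀ x, t x = u x + u' x) → (∀ ω x, tp ω x = up ω x + up' ω x) →
      (∀ x, Measurable fun ω => up ω x) → (∀ x, Measurable fun ω => up' ω x) →
      (∀ ω, (∀ x, ω x ∈ gd h) → QStep net β h k (fun x => b h (ω x)) u (up ω)) →
      (∀ ω, (∀ x, ω x ∈ gd h) → QStep net β h k (fun x => b h (ω x)) u' (up' ω)) → ∀ x,
      (∫⁻ ω in Sm2_G (gd h), Vp net k q s (up ω) (tp ω) x ∂(Measure.pi fun _ : ι => ν) ≤
        ENNReal.ofReal (Real.exp (C9 * (s / ell k + s ^ 2) * h)) * Vp net k q s u t x) ∧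
      ((∀ z, (∀ y, Tz net k q u t x y ≤ Tz net k q u t x z) → 2 ≤ SSt net k t z) →
        ∫⁻ ω in Sm2_G (gd h), Vp net k q s (up ω) (tp ω) x ∂(Measure.pi fun _ : ι => ν) ≤
        ENNReal.ofReal (1 - c * s * k ^ (-(β / 16)) * h) * Vp net k q s u t x) := by
  have hC1 : (0 : ℝ) ≤ (N : ℝ) + 1 := by positivity
  obtain ⟨A, c', hA, hc', hES⟩ := Sm2_ES d hβ hC1
  have h2β : (0 : ℝ) < 2 ^ β := Real.rpow_pos_of_pos two_pos _
  have h2β1 : (1 : ℝ) ≤ 2 ^ β := Real.one_le_rpow one_le_two hβ.le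
  set Cr : ℝ := 2 * 2 ^ β with hCr
  have hCr1 : 1 ≤ Cr := by linarith
  refine ⟨max 1 (8 * Cr / c'), le_max_left _ _, ?_⟩
  intro q hq
  have hq1 : 1 ≤ q := (le_max_left _ _).trans hq
  have hq2 : 8 * Cr ≤ q * c' := by
    have h1 := (le_max_right _ _).trans hq
    rwa [div_le_iff₀ hc'] at h1
  have hq0 : 0 < q := by linarith
  have h2q : (0 : ℝ) < 2 ^ q := Real.rpow_pos_of_pos two_pos _
  have hβ16 : 0 < β / 16 := by positivity
  -- choice of k0
  obtain ⟨k1, hk1, hK⟩ := Sm2_ev ((Sm2_ell 5).and ((Sm2_pow (4 * d * 2 ^ q) (a := 1 / 4)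
    (δ := 1 / 4) (by norm_num) (by norm_num)).and ((Sm2_pow (4 * d) (a := 3 / 4)
    (δ := 1 / 4) (by norm_num) (by norm_num)).and ((Sm2_powell Cr (a := β / 8) (δ := 1 / 2)
    (by positivity) (by norm_num)).and ((Sm2_powell 1 (a := 1 / 4) (δ := 1 / 2)
    (by norm_num) (by norm_num)).and ((Sm2_powell (q * A) (a := 1 / 16) (δ := 1)
    (by norm_num) (by norm_num)).and ((tendsto_rpow_neg_nhdsGT_zero
    (show -(β / 16) < 0 by linarith)).eventually_ge_atTop (40 / (q * c')))))))))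
  refine ⟨20, q * c' / 16, min k1 (1 / 2), by norm_num, by positivity,
    lt_min hk1 (by norm_num), (min_le_right _ _).trans_lt (by norm_num), ?_⟩
  intro Ωp _ ν _ b hb gd hgd k hk hkk hB s hs hqs
  have hk11 : k < 1 := hkk.trans_le ((min_le_right _ _).trans (by norm_num))
  obtain ⟨K1, K2, K3, K4, K5, K6, K7⟩ := hK k hk (hkk.trans_le (min_le_left _ _))
  set el : ℝ := ell k with hel
  have hel0 : 0 < el := by linarith
  set k16 : ℝ := k ^ (1 / 16 : ℝ) with hk16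
  have hk160 : 0 < k16 := Real.rpow_pos_of_pos hk _
  set κβ : ℝ := k ^ (-(β / 16)) with hκβ
  have hκβ0 : 0 < κβ := Real.rpow_pos_of_pos hk _
  have hqs0 : 0 < q * s := by positivity
  have hqs1 : q * s ≤ 1 / 8 := by linarith
  have hs1 : s ≤ 1 / 8 := by nlinarith
  have h1qs : 0 < 1 - q * s := by linarith
  set s' : ℝ := s / (1 - q * s) with hs'
  have hs's : s' * (1 - q * s) = s := by rw [hs', div_mul_cancel₀ _ h1qs.ne']
  have hs'0 : 0 < s' := by positivity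
  have hs'2 : s' ≤ 2 * s := by
    rw [hs', div_le_iff₀ h1qs]
    nlinarith
  have hss' : s' ≤ 1 / 7 := by
    rw [hs', div_le_iff₀ h1qs]
    linarith
  have K7' : 5 ≤ q * c' / 8 * κβ := by
    rw [div_le_iff₀ (by positivity)] at K7
    linarith
  set ε : ℝ := min 1 (s / el) with hε
  have hε0 : 0 < ε := lt_min one_pos (by positivity)
  have hε1 : ε ≤ 1 := min_le_left _ _
  have hε2 : ε ≤ s / el := min_le_right _ _
  obtain ⟨hm, hm0, hmgf⟩ := hB.mgf 2 ε two_pos hε0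
  have hlog2 : 0 < Real.log 2 := Real.log_pos one_lt_two
  -- choice of h0
  obtain ⟨h1, hh1, hH⟩ := Sm2_ev ((Sm2_pow 2 (a := 3 / 8) (δ := Real.log 2) (by norm_num) hlog2).and
    ((Sm2_pow (2 ^ β) (a := 3 / 4) (δ := 1 / 4) (by norm_num) (by norm_num)).and
    ((Sm2_pow 64 (a := 3 / 4) (δ := 1) (by norm_num) (by norm_num)).and
    ((Sm2_pow (8 * (Cr + 1) ^ 2) (a := 1 / 2) (δ := 1) (by norm_num) (by norm_num)).and
    ((Sm2_pow (N : ℝ) (a := 1) (δ := 1) (by norm_num) (by norm_num)).and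
    (Sm2_pow (s * (q * c' / 8 * κβ)) (a := 1) (δ := 1) (by norm_num) (by norm_num)))))))
  refine ⟨min (min h1 hm) (1 / 2), lt_min (lt_min hh1 hm0) (by norm_num), ?_⟩
  intro h hh hhh ι _ net u u' t up up' tp hu0 hu hu0' hu' htu htp mup mup' Q Q' x
  have hh2 : h < 1 / 2 := hhh.trans_le (min_le_right _ _)
  have hh1' : h < 1 := by linarith
  obtain ⟨H1, H2, H3, H4, H5, H6⟩ := hH h hh (hhh.trans_le ((min_le_left _ _).trans (min_le_left _ _)))
  have hmgf' := hmgf h hh (hhh.trans_le ((min_le_left _ _).trans (min_le_right _ _)))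
  rw [Real.rpow_one] at H5 H6
  have hhs : 2 ^ β * h ^ (3 / 4 : ℝ) + h / 2 ≤ 1 / 2 := by linarith
  have hbd : ∀ a ∈ gd h, |b h a| ≤ Real.log 2 := fun a ha => (hB.bdd h hh hh1' a ha).trans H1
  have hbd2 : ∀ a ∈ gd h, 16 * s' * b h a ^ 2 ≤ el := by
    intro a ha
    have g1 := hB.bdd h hh hh1' a ha
    have g2 : b h a ^ 2 ≤ 4 * h ^ (3 / 4 : ℝ) := by
      have g3 : h ^ (3 / 4 : ℝ) = h ^ (3 / 8 : ℝ) * h ^ (3 / 8 : ℝ) := by
        rw [← Real.rpow_add hh]; norm_num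
      rw [g3, ← sq_abs]
      nlinarith [abs_nonneg (b h a)]
    have g4 : 16 * s' * b h a ^ 2 ≤ 16 * 1 * (4 * h ^ (3 / 4 : ℝ)) := by
      have := sq_nonneg (b h a)
      gcongr
      linarith
    linarith
  have hm1 : ∫⁻ a in gd h, ENNReal.ofReal (Real.exp (b h a)) ∂ν ≤
      ENNReal.ofReal (1 + ((N : ℝ) + 1) * h) := by
    have g1 := (hmgf' 1 (by norm_num)).1
    simp only [one_mul] at g1
    refine g1.trans (ENNReal.ofReal_le_ofReal ?_)
    have g2 : lamN N * 1 + 1 ^ 2 / 2 + ε ≤ (N : ℝ) + 1 := by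
      unfold lamN
      have : (0 : ℝ) ≤ N := by positivity
      linarith
    have := mul_le_mul_of_nonneg_right g2 hh.le
    linarith
  have ht : ∀ x, 0 ≤ t x := fun x => by rw [htu]; have := hu0 x; have := hu0' x; linarith
  obtain ⟨z, hz⟩ := exists_argmax net k q u t x
  have hES' := hES net ν (b h) (hb h) (gd h) (hgd h) hh hh1' hk hk11.le hhs hbd hm1 u u' t hu0 hu
    hu0' hu' htu up up' tp htp mup mup' Q Q' z
  set X : ℝ := ∑ w, (1 / 2 : ℝ) ^ net.dist z w * t w with hX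
  have hSX : SSt net k t z = 1 + k16 * X := rfl
  have hX0 : 0 ≤ X := Finset.sum_nonneg fun w _ => mul_nonneg (by positivity) (ht w)
  have hvX : u z ≤ X := by
    have g1 : (1 / 2 : ℝ) ^ net.dist z z * t z ≤ X :=
      Finset.single_le_sum (f := fun w => (1 / 2 : ℝ) ^ net.dist z w * t w)
        (fun w _ => mul_nonneg (by positivity) (ht w)) (Finset.mem_univ z)
    rw [net.dist_self, pow_zero, one_mul, htu] at g1
    have := hu0' z
    linarith
  have hy1 : s * (q * c' / 8 * κβ) * h ≤ 1 := H6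
  have hy0 : 0 ≤ s * (q * c' / 8 * κβ) * h := by positivity
  have hfac : 0 < 1 - q * c' / 16 * s * κβ * h := by
    have : q * c' / 16 * s * κβ * h = s * (q * c' / 8 * κβ) * h / 2 := by ring
    rw [this]
    linarith
  rcases (hu0 z).lt_or_eq with hv | hv
  swap
  · -- everything vanishes
    have g0 : Vp net k q s u t x = ⊤ := by
      rw [Vp_argmax net k q s u t x z hz]
      have g1 : Tz net k q u t x z = 0 := by
        unfold Tz fpot
        rw [if_pos (le_of_eq hv.symm)]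
        ring
      rw [g1, ENNReal.ofReal_zero, ENNReal.zero_rpow_of_neg (by linarith)]
    rw [g0]
    constructor
    · rw [ENNReal.mul_top (by simpa using Real.exp_pos _)]
      exact le_top
    · intro _
      rw [ENNReal.mul_top (by simpa using hfac)]
      exact le_top
  set r : ℝ := h * (Cr * u z ^ β + k ^ (1 / 4 : ℝ)) with hr
  have hk4 : (0 : ℝ) < k ^ (1 / 4 : ℝ) := Real.rpow_pos_of_pos hk _
  have hk41 : k ^ (1 / 4 : ℝ) ≤ 1 := Real.rpow_le_one hk.le hk11.le (by norm_num)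
  have hvβ : 0 < u z ^ β := Real.rpow_pos_of_pos hv _
  have hr0 : 0 ≤ r := by positivity
  have hrf := rad_facts hβ hh hh1' (hu0 z) (hu z)
  have hr2 : 8 * r ^ 2 ≤ h :=
    Sm2_r2 hβ hk hk11 hh hh1' hCr1 hv (hu z) H4
  set g' : ℝ := gX' (Real.log (u z) / el) with hg'
  obtain ⟨hg0, hg1⟩ := gX'_mem (Real.log (u z) / el)
  rw [← hg'] at hg0 hg1
  -- the drift term
  have hgr : (g' * r ≤ h / el) ∨ (1 ≤ k16 * u z ∧ g' * r ≤ 2 * Cr * h * u z ^ β) :=
    Sm2_drift hβ hk hk11 hh hel0 hCr1 hv K4 K5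
  -- first factor
  have hE := Sm2_E1 hN ν (b h) (hb h) (gd h) (hgd h) (r := r) (g' := g') (s' := s') (el := el)
    (ε := ε) hh H5 hel0 hs'0 (by linarith) hg0 hg1 (by linarith) hε0.le hbd2
    (fun p hp => (hmgf' p hp).1)
  have hlow : ∀ ω ∈ Sm2_G (ι := ι) (gd h), u z * Real.exp (b h (ω z) - r) ≤ up ω z := by
    intro ω hω
    exact Sm2_low net hβ hh hh1' hk hk11 hq0.le (by linarith) hhs (fun x => b h (ω x)) u (up ω) t
      (Q ω hω) hu ht x z hz (hbd _ (hω z))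
  have mtp : ∀ x, Measurable fun ω => tp ω x := by
    intro y
    have : (fun ω : ι → Ωp => tp ω y) = fun ω => up ω y + up' ω y := funext fun ω => htp ω y
    rw [this]
    exact (mup y).add (mup' y)
  have htp0 : ∀ ω ∈ Sm2_G (ι := ι) (gd h), ∀ x, 0 ≤ tp ω x := by
    intro ω hω y
    rw [htp]
    exact add_nonneg ((Q ω hω).n1 y) ((Q' ω hω).n1 y)
  set E : ℝ := (s' ^ 2 / 2 + 16 * s' / el + ε) * h + s' * g' * r + 8 * s' * r ^ 2 / el with hEd
  have hE1 : (1 - q * s) * E ≤ (s ^ 2 + 18 * s / el) * h + s * (g' * r) :=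
    Sm2_hE1 hh hel0 hs hqs0.le h1qs hs's hs'2 hε0 hε2 hr2
  have hqA : q * k16 * A ≤ 1 / el := by
    rw [le_div_iff₀ hel0]
    linarith
  have hqA' : q * s * (h * k16 * A) ≤ s / el * h := by
    have := mul_le_mul_of_nonneg_left hqA (by positivity : 0 ≤ s * h)
    calc q * s * (h * k16 * A) = s * h * (q * k16 * A) := by ring
      _ ≤ s * h * (1 / el) := this
      _ = s / el * h := by ring
  have hmono : ∀ p p' : ℝ, p ≤ p' → ENNReal.ofReal (Real.exp p) * Vp net k q s u t x ≤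
      ENNReal.ofReal (Real.exp p') * Vp net k q s u t x := by
    intro p p' hpp
    gcongr
  -- bound with the strong term
  have hstrong : 1 ≤ k16 * X →
      (1 - q * s) * E + q * s * (h * k16 * A - h * (c' / 2) * X ^ β) ≤
        (s ^ 2 + 20 * s / el) * h - s * h * (q * c' / 4 * X ^ β) := by
    intro hX1
    have hXp : 0 < X := by
      by_contra hc
      have : X = 0 := le_antisymm (not_lt.1 hc) hX0
      rw [this] at hX1
      norm_num at hX1
    exact Sm2_strong hβ hh hel0 hs hq0 hc' hXp hv hvX hCr1 hq2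
      (hgr.imp id (fun hc => hc.2)) hE1 hqA'
  constructor
  · rcases hgr with hc | ⟨hc1, hc2⟩
    · have hcomb := Sm2_comb net ν (b h) (hb h) (gd h) (hgd h) hk hk11 hq0.le hs (by linarith) u t
        up tp ht mtp x z hz hv htp0 hlow hE hES'.1
      refine hcomb.trans (hmono _ _ ?_)
      have g2 := mul_le_mul_of_nonneg_left hc hs.le
      have e1 : s * (h / el) = s / el * h := by ring
      have e2 : 20 * (s / el + s ^ 2) * h = (s ^ 2 + 18 * s / el) * h + s / el * h + s / el * h +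
        19 * s ^ 2 * h := by ring
      have g3 : 0 ≤ 19 * s ^ 2 * h := by positivity
      linarith
    · have hX1 : 1 ≤ k16 * X := hc1.trans (mul_le_mul_of_nonneg_left hvX hk160.le)
      have hcomb := Sm2_comb net ν (b h) (hb h) (gd h) (hgd h) hk hk11 hq0.le hs (by linarith) u t
        up tp ht mtp x z hz hv htp0 hlow hE (hES'.2 hX1)
      refine hcomb.trans (hmono _ _ ?_)
      refine (hstrong hX1).trans ?_
      have hXβ : 0 ≤ X ^ β := Real.rpow_nonneg hX0 _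
      have g3 : 0 ≤ s * h * (q * c' / 4 * X ^ β) := by positivity
      have e2 : 20 * (s / el + s ^ 2) * h = (s ^ 2 + 20 * s / el) * h + 19 * s ^ 2 * h := by ring
      have g4 : 0 ≤ 19 * s ^ 2 * h := by positivity
      linarith
  · intro hun
    have hS2 := hun z hz
    rw [hSX] at hS2
    have hX1 : 1 ≤ k16 * X := by linarith
    have hcomb := Sm2_comb net ν (b h) (hb h) (gd h) (hgd h) hk hk11 hq0.le hs (by linarith) u t
      up tp ht mtp x z hz hv htp0 hlow hE (hES'.2 hX1)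
    refine hcomb.trans ?_
    refine mul_le_mul_left (ENNReal.ofReal_le_ofReal ?_) _
    have hXk : κβ ≤ X ^ β := by
      have g1 : k ^ (-(1 / 16) : ℝ) ≤ X := by
        rw [Real.rpow_neg hk.le, inv_le_iff_one_le_mul₀ hk160]
        linarith
      have g2 := Real.rpow_le_rpow (Real.rpow_nonneg hk.le _) g1 hβ.le
      rw [← Real.rpow_mul hk.le] at g2
      have g3 : (-(1 / 16) : ℝ) * β = -(β / 16) := by ring
      rwa [g3] at g2
    have g4 : (1 - q * s) * E + q * s * (h * k16 * A - h * (c' / 2) * X ^ β) ≤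
        -(2 * (s * (q * c' / 8 * κβ) * h / 2)) :=
      Sm2_fin hs hs1 hh K1 hq0 hc' hκβ0 K7' hXk (hstrong hX1)
    refine (Real.exp_le_exp.2 g4).trans ((Sm2_exp2 (by positivity) (by linarith)).trans
      (le_of_eq ?_))
    ring

theorem sm_step (N d : ℕ) (β : ℝ) (hN : 2 ≤ N) (hβ : 0 < β) : ∃ q0 : ℝ, 1 ≤ q0 ∧
    ∀ q, q0 ≤ q → ∃ C9 c k0 : ℝ, 0 < C9 ∧ 0 < c ∧ 0 < k0 ∧ k0 < 1 ∧
    ∀ (F : Fam d) (k : ℝ) (S : PSys F β k), 0 < k → k < k0 → BNoise N S.ν S.b S.gd →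
    ∀ s : ℝ, 0 < s → 8 * q * s ≤ 1 →
    ∃ h0 : ℝ, 0 < h0 ∧ ∀ h, 0 < h → h < h0 → ∀ (L : ℕ) (G : (boxS d L → F.V) × (boxS d L → F.V)),
      (∀ x, ‖G.1 x‖ ≤ rad β h ∧ ‖G.2 x‖ ≤ rad β h) → ∀ x,
      (∫⁻ ω in {ω | ∀ x, ω x ∈ S.gd h}, V1 k q s (S.st h L G ω) x ∂(S.mu L) ≤
          ENNReal.ofReal (Real.exp (C9 * (s / ell k + s ^ 2) * h)) * V1 k q s G x) ∧
      (∫⁻ ω in {ω | ∀ x, ω x ∈ S.gd h}, V2 k q s (S.st h L G ω) x ∂(S.mu L) ≤
          ENNReal.ofReal (Real.exp (C9 * (s / ell k + s ^ 2) * h)) * V2 k q s G x) ∧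
      (untame (V := F.V) k q (nrm G.1) (fun y => nrm G.1 y + nrm G.2 y) x →
        ∫⁻ ω in {ω | ∀ x, ω x ∈ S.gd h}, V1 k q s (S.st h L G ω) x ∂(S.mu L) ≤
          ENNReal.ofReal (1 - c * s * k ^ (-(β / 16)) * h) * V1 k q s G x) ∧
      (untame (V := F.V) k q (nrm G.2) (fun y => nrm G.1 y + nrm G.2 y) x →
        ∫⁻ ω in {ω | ∀ x, ω x ∈ S.gd h}, V2 k q s (S.st h L G ω) x ∂(S.mu L) ≤
          ENNReal.ofReal (1 - c * s * k ^ (-(β / 16)) * h) * V2 k q s G x) := by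
  obtain ⟨q0, hq0, H⟩ := Sm2_core N d β hN hβ
  refine ⟨q0, hq0, fun q hq => ?_⟩
  obtain ⟨C9, c, k0, hC9, hc, hk0, hk01, H⟩ := H q hq
  refine ⟨C9, c, k0, hC9, hc, hk0, hk01, ?_⟩
  intro F k S hk hkk hB s hs hqs
  obtain ⟨h0, hh0, H⟩ := H S.ν S.b S.mb S.gd S.mgd k hk hkk hB s hs hqs
  refine ⟨h0, hh0, ?_⟩
  intro h hh hhh L G hG x
  have mst : Measurable fun ω : boxS d L → S.Ωp => S.st h L G ω :=
    (S.mst h L).comp (measurable_const.prodMk measurable_id)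
  have m1 : ∀ y, Measurable fun ω : boxS d L → S.Ωp => nrm (S.st h L G ω).1 y := fun y =>
    ((measurable_pi_apply y).comp (measurable_fst.comp mst)).norm
  have m2 : ∀ y, Measurable fun ω : boxS d L → S.Ωp => nrm (S.st h L G ω).2 y := fun y =>
    ((measurable_pi_apply y).comp (measurable_snd.comp mst)).norm
  have A1 := H h hh hhh (boxNet d L) (nrm G.1) (nrm G.2) (fun y => nrm G.1 y + nrm G.2 y)
    (fun ω => nrm (S.st h L G ω).1) (fun ω => nrm (S.st h L G ω).2)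
    (fun ω y => nrm (S.st h L G ω).1 y + nrm (S.st h L G ω).2 y)
    (fun y => norm_nonneg _) (fun y => (hG y).1) (fun y => norm_nonneg _) (fun y => (hG y).2)
    (fun y => rfl) (fun ω y => rfl) m1 m2 (fun ω hω => S.q1 h L G ω hh hω)
    (fun ω hω => S.q2 h L G ω hh hω) x
  have A2 := H h hh hhh (boxNet d L) (nrm G.2) (nrm G.1) (fun y => nrm G.1 y + nrm G.2 y)
    (fun ω => nrm (S.st h L G ω).2) (fun ω => nrm (S.st h L G ω).1)
    (fun ω y => nrm (S.st h L G ω).1 y + nrm (S.st h L G ω).2 y)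
    (fun y => norm_nonneg _) (fun y => (hG y).2) (fun y => norm_nonneg _) (fun y => (hG y).1)
    (fun y => add_comm _ _) (fun ω y => add_comm _ _) m2 m1 (fun ω hω => S.q2 h L G ω hh hω)
    (fun ω hω => S.q1 h L G ω hh hω) x
  exact ⟨A1.1, A2.1, A1.2, A2.2⟩

end DynC
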