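import Pool.Agent.Lib_MP_36b788c.Tilt

/-!
# Adapted shift on a block of sites, second form

PROOF. As for `tilt_bd` (file `Tilt.lean`, copy what is needed). `P = PI (γ^ι)`, `Z = exp(logZ ns v ω)`, `∫ Ψ(shft v ω) Z = ∫ Ψ` (`shift_lintegral`), `Ψ ω = ∫ Φ(res ω ω') dω'` is invariant under the shift, so `∫ Φ - ∫ Φ∘shft = ∫ ((Φ - Ψ)∘shft)(Z-1)`. `‖Φ - Ψ‖ ω ≤ τ1 ω + τ2 ω`, `τi ω = ∫ Ti ω ω' dω'`.
`∫ τ1∘shft |Z-1| ≤ (∫ τ1²∘shft Z)^{1/2}(∫ (Z-1)²/Z)^{1/2} ≤ (∫ τ1²)^{1/2}(e^Q - 1)^{1/2}`, `τ1² ≤ ∫ T1² dω'` (Jensen). `∫ τ2∘shft |Z-1| ≤ ∫ τ2∘shft Z + ∫ τ2∘shft = ∫ τ2 + ∫ τ2∘shft`.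
-/

open MeasureTheory ProbabilityTheory
open scoped ENNReal

namespace DynC

variable {ι V : Type} [Fintype ι] [NormedAddCommGroup V] [InnerProductSpace ℝ V]
  [MeasurableSpace V] [BorelSpace V] [SecondCountableTopology V] {γ : Measure V}
  [IsProbabilityMeasure γ]

private theorem Tilt2_meas_shft (v : ℕ → (ℕ → ι → V) → ι → V) (hv : ∀ j, Measurable (v j)) :
    Measurable (shft v) := by
  refine measurable_pi_lambda _ fun j => measurable_pi_lambda _ fun x => ?_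
  have h1 : Measurable fun ω : ℕ → ι → V => ω j x :=
    (measurable_pi_apply x).comp (measurable_pi_apply j)
  have h2 : Measurable fun ω : ℕ → ι → V => v j ω x := (measurable_pi_apply x).comp (hv j)
  exact h1.add h2

private theorem Tilt2_meas_logZ (n : ℕ) (v : ℕ → (ℕ → ι → V) → ι → V)
    (hv : ∀ j, Measurable (v j)) : Measurable (logZ n v) := by
  unfold logZ
  refine Finset.measurable_fun_sum _ fun j _ => Finset.measurable_fun_sum _ fun x _ => ?_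
  have h1 : Measurable fun ω : ℕ → ι → V => ω j x :=
    (measurable_pi_apply x).comp (measurable_pi_apply j)
  have h2 : Measurable fun ω : ℕ → ι → V => v j ω x := (measurable_pi_apply x).comp (hv j)
  exact (h2.inner h1).neg.sub ((h2.norm.pow_const 2).div_const 2)

private theorem Tilt2_logZ_neg (n : ℕ) (v : ℕ → (ℕ → ι → V) → ι → V) (ω : ℕ → ι → V) :
    -(logZ n v ω) = logZ n (fun j ω x => - v j ω x) ω +
      ∑ j ∈ Finset.range n, ∑ x, ‖v j ω x‖ ^ 2 := by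
  unfold logZ
  rw [← Finset.sum_neg_distrib, ← Finset.sum_add_distrib]
  apply Finset.sum_congr rfl
  intro j _
  rw [← Finset.sum_neg_distrib, ← Finset.sum_add_distrib]
  apply Finset.sum_congr rfl
  intro x _
  rw [inner_neg_left, norm_neg]
  ring

private theorem Tilt2_Z_one (hγ : CMart γ) (n : ℕ) (v : ℕ → (ℕ → ι → V) → ι → V)
    (hv : ∀ j, Measurable (v j)) (hd : ∀ j, Dep j (v j)) (hv0 : ∀ j, n ≤ j → ∀ ω, v j ω = 0) :
    ∫⁻ ω, ENNReal.ofReal (Real.exp (logZ n v ω)) ∂(PI (Measure.pi fun _ : ι => γ)) = 1 := by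
  have h1 := shift_lintegral hγ n v hv hd hv0 (fun _ => 1) measurable_const
  simp only [one_mul, lintegral_one, measure_univ] at h1
  exact h1

private theorem Tilt2_Zinv (hγ : CMart γ) (n : ℕ) (v : ℕ → (ℕ → ι → V) → ι → V)
    (hv : ∀ j, Measurable (v j)) (hd : ∀ j, Dep j (v j)) (hv0 : ∀ j, n ≤ j → ∀ ω, v j ω = 0)
    (Q : ℝ) (hQv : ∀ ω, ∑ j ∈ Finset.range n, ∑ x, ‖v j ω x‖ ^ 2 ≤ Q) :
    ∫⁻ ω, ENNReal.ofReal (Real.exp (-(logZ n v ω))) ∂(PI (Measure.pi fun _ : ι => γ)) ≤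
      ENNReal.ofReal (Real.exp Q) := by
  have hw : ∀ j, Measurable ((fun j ω x => - v j ω x : ℕ → (ℕ → ι → V) → ι → V) j) := by
    intro j
    refine measurable_pi_lambda _ fun x => ?_
    exact ((measurable_pi_apply x).comp (hv j)).neg
  have hwd : ∀ j, Dep j ((fun j ω x => - v j ω x : ℕ → (ℕ → ι → V) → ι → V) j) := by
    intro j a b hab
    funext x
    show - v j a x = - v j b x
    rw [hd j a b hab]
  have hw0 : ∀ j, n ≤ j → ∀ ω, (fun j ω x => - v j ω x : ℕ → (ℕ → ι → V) → ι → V) j ω = 0 := by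
    intro j hj ω
    funext x
    show - v j ω x = 0
    rw [hv0 j hj ω]
    simp
  have h1 := Tilt2_Z_one hγ n _ hw hwd hw0
  calc ∫⁻ ω, ENNReal.ofReal (Real.exp (-(logZ n v ω))) ∂(PI (Measure.pi fun _ : ι => γ))
      ≤ ∫⁻ ω, ENNReal.ofReal (Real.exp Q) *
          ENNReal.ofReal (Real.exp (logZ n (fun j ω x => - v j ω x) ω))
          ∂(PI (Measure.pi fun _ : ι => γ)) := by
        apply lintegral_mono
        intro ω
        show ENNReal.ofReal (Real.exp (-(logZ n v ω))) ≤ ENNReal.ofReal (Real.exp Q) *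
          ENNReal.ofReal (Real.exp (logZ n (fun j ω x => - v j ω x) ω))
        rw [← ENNReal.ofReal_mul (Real.exp_pos _).le, ← Real.exp_add, Tilt2_logZ_neg]
        apply ENNReal.ofReal_le_ofReal
        apply Real.exp_le_exp.mpr
        linarith [hQv ω]
    _ = ENNReal.ofReal (Real.exp Q) := by
        rw [lintegral_const_mul' _ _ ENNReal.ofReal_ne_top, h1, mul_one]

private theorem Tilt2_cs {Ω : Type} [MeasurableSpace Ω] (P : Measure Ω) (f g : Ω → ℝ≥0∞)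
    (hf : Measurable f) (hg : Measurable g) :
    ∫⁻ ω, f ω * g ω ∂P ≤ (∫⁻ ω, f ω ^ 2 ∂P) ^ (1 / 2 : ℝ) * (∫⁻ ω, g ω ^ 2 ∂P) ^ (1 / 2 : ℝ) := by
  have h := ENNReal.lintegral_mul_le_Lp_mul_Lq P Real.HolderConjugate.two_two hf.aemeasurable
    hg.aemeasurable
  simp only [ENNReal.rpow_two, Pi.mul_apply] at h
  exact h

private theorem Tilt2_half_sq (a : ℝ) :
    ENNReal.ofReal (Real.exp (a / 2)) ^ 2 = ENNReal.ofReal (Real.exp a) := by
  rw [← ENNReal.ofReal_pow (Real.exp_pos _).le, ← Real.exp_nat_mul]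
  congr 2
  push_cast
  ring

/-- image of the tilted law -/
private theorem Tilt2_map (hγ : CMart γ) (ns : ℕ) (v : ℕ → (ℕ → ι → V) → ι → V)
    (hv : ∀ j, Measurable (v j)) (hd : ∀ j, Dep j (v j)) (hv0 : ∀ j, ns ≤ j → ∀ ω, v j ω = 0) :
    ((PI (Measure.pi fun _ : ι => γ)).withDensity
      (fun ω => ENNReal.ofReal (Real.exp (logZ ns v ω)))).map (shft v) =
      PI (Measure.pi fun _ : ι => γ) := by
  have hsm := Tilt2_meas_shft v hv
  have hlm := Tilt2_meas_logZ ns v hv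
  have hW : Measurable fun ω => ENNReal.ofReal (Real.exp (logZ ns v ω)) :=
    ENNReal.measurable_ofReal.comp (Real.measurable_exp.comp hlm)
  ext s hs
  rw [Measure.map_apply hsm hs, withDensity_apply _ (hsm hs), ← lintegral_indicator (hsm hs)]
  have h1 := shift_lintegral hγ ns v hv hd hv0 (s.indicator fun _ => 1)
    (measurable_const.indicator hs)
  rw [lintegral_indicator hs, lintegral_const, Measure.restrict_apply MeasurableSet.univ,
    Set.univ_inter, one_mul] at h1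
  rw [← h1]
  apply lintegral_congr
  intro ω
  by_cases h : shft v ω ∈ s
  · rw [Set.indicator_of_mem (show ω ∈ shft v ⁻¹' s from h), Set.indicator_of_mem h, one_mul]
  · rw [Set.indicator_of_notMem (show ω ∉ shft v ⁻¹' s from h), Set.indicator_of_notMem h,
      zero_mul]

private theorem Tilt2_cint (hγ : CMart γ) (ns : ℕ) (v : ℕ → (ℕ → ι → V) → ι → V)
    (hv : ∀ j, Measurable (v j)) (hd : ∀ j, Dep j (v j)) (hv0 : ∀ j, ns ≤ j → ∀ ω, v j ω = 0)
    (Φ : (ℕ → ι → V) → ℂ) (hΦ : Measurable Φ) :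
    ∫ ω, ((Real.exp (logZ ns v ω) : ℝ) : ℂ) * Φ (shft v ω) ∂(PI (Measure.pi fun _ : ι => γ)) =
      ∫ ω, Φ ω ∂(PI (Measure.pi fun _ : ι => γ)) := by
  have hsm := Tilt2_meas_shft v hv
  have hlm := Tilt2_meas_logZ ns v hv
  have hW : Measurable fun ω => ENNReal.ofReal (Real.exp (logZ ns v ω)) :=
    ENNReal.measurable_ofReal.comp (Real.measurable_exp.comp hlm)
  conv_rhs => rw [← Tilt2_map hγ ns v hv hd hv0]
  rw [integral_map hsm.aemeasurable hΦ.aestronglyMeasurable,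
    integral_withDensity_eq_integral_toReal_smul hW
      (Filter.Eventually.of_forall fun ω => ENNReal.ofReal_lt_top)]
  apply integral_congr_ae
  refine Filter.Eventually.of_forall fun ω => ?_
  show ((Real.exp (logZ ns v ω) : ℝ) : ℂ) * Φ (shft v ω) =
    (ENNReal.ofReal (Real.exp (logZ ns v ω))).toReal • Φ (shft v ω)
  rw [ENNReal.toReal_ofReal (Real.exp_pos _).le]
  rfl

private theorem Tilt2_int_Z (hγ : CMart γ) (ns : ℕ) (v : ℕ → (ℕ → ι → V) → ι → V)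
    (hv : ∀ j, Measurable (v j)) (hd : ∀ j, Dep j (v j)) (hv0 : ∀ j, ns ≤ j → ∀ ω, v j ω = 0) :
    Integrable (fun ω => Real.exp (logZ ns v ω)) (PI (Measure.pi fun _ : ι => γ)) := by
  have hlm := Tilt2_meas_logZ ns v hv
  refine ⟨(Real.measurable_exp.comp hlm).aestronglyMeasurable, ?_⟩
  rw [hasFiniteIntegral_iff_ofReal (Filter.Eventually.of_forall fun ω => (Real.exp_pos _).le),
    Tilt2_Z_one hγ ns v hv hd hv0]
  exact ENNReal.one_lt_top

/-- `∫ (Z-1)²/Z ≤ e^Q - 1` -/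
private theorem Tilt2_var (hγ : CMart γ) (ns : ℕ) (v : ℕ → (ℕ → ι → V) → ι → V)
    (hv : ∀ j, Measurable (v j)) (hd : ∀ j, Dep j (v j)) (hv0 : ∀ j, ns ≤ j → ∀ ω, v j ω = 0)
    (Q : ℝ) (hQ : 0 ≤ Q) (hQv : ∀ ω, ∑ j ∈ Finset.range ns, ∑ x, ‖v j ω x‖ ^ 2 ≤ Q) :
    ∫⁻ ω, ENNReal.ofReal ((Real.exp (logZ ns v ω) - 1) ^ 2 * Real.exp (-(logZ ns v ω)))
      ∂(PI (Measure.pi fun _ : ι => γ)) ≤ ENNReal.ofReal (Real.exp Q - 1) := by
  have hlm := Tilt2_meas_logZ ns v hv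
  have h2 : (2 : ℝ≥0∞) ≠ ⊤ := by norm_num
  rw [← ENNReal.add_le_add_iff_right h2]
  have e0 : ∫⁻ _ω : ℕ → ι → V, (2 : ℝ≥0∞) ∂(PI (Measure.pi fun _ : ι => γ)) = 2 := by
    rw [lintegral_const, measure_univ, mul_one]
  have hm1 : Measurable fun ω =>
      ENNReal.ofReal ((Real.exp (logZ ns v ω) - 1) ^ 2 * Real.exp (-(logZ ns v ω))) := by
    apply ENNReal.measurable_ofReal.comp
    exact (((Real.measurable_exp.comp hlm).sub_const 1).pow_const 2).mul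
      (Real.measurable_exp.comp hlm.neg)
  have hm2 : Measurable fun ω => ENNReal.ofReal (Real.exp (logZ ns v ω)) :=
    ENNReal.measurable_ofReal.comp (Real.measurable_exp.comp hlm)
  calc ∫⁻ ω, ENNReal.ofReal ((Real.exp (logZ ns v ω) - 1) ^ 2 * Real.exp (-(logZ ns v ω)))
        ∂(PI (Measure.pi fun _ : ι => γ)) + 2
      = ∫⁻ ω, (ENNReal.ofReal ((Real.exp (logZ ns v ω) - 1) ^ 2 *
          Real.exp (-(logZ ns v ω))) + 2) ∂(PI (Measure.pi fun _ : ι => γ)) := by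
        rw [lintegral_add_left hm1, e0]
    _ = ∫⁻ ω, (ENNReal.ofReal (Real.exp (logZ ns v ω)) +
          ENNReal.ofReal (Real.exp (-(logZ ns v ω)))) ∂(PI (Measure.pi fun _ : ι => γ)) := by
        apply lintegral_congr
        intro ω
        rw [show (2 : ℝ≥0∞) = ENNReal.ofReal 2 by norm_num,
          ← ENNReal.ofReal_add (by positivity) (by norm_num),
          ← ENNReal.ofReal_add (Real.exp_pos _).le (Real.exp_pos _).le]
        congr 1
        have h3 : Real.exp (logZ ns v ω) * Real.exp (-(logZ ns v ω)) = 1 := by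
          rw [← Real.exp_add, add_neg_cancel, Real.exp_zero]
        have h4 : (Real.exp (logZ ns v ω) - 1) ^ 2 * Real.exp (-(logZ ns v ω)) =
            Real.exp (logZ ns v ω) * (Real.exp (logZ ns v ω) * Real.exp (-(logZ ns v ω)))
            - 2 * (Real.exp (logZ ns v ω) * Real.exp (-(logZ ns v ω)))
            + Real.exp (-(logZ ns v ω)) := by ring
        rw [h4, h3]
        ring
    _ = 1 + ∫⁻ ω, ENNReal.ofReal (Real.exp (-(logZ ns v ω)))
          ∂(PI (Measure.pi fun _ : ι => γ)) := by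
        rw [lintegral_add_left hm2, Tilt2_Z_one hγ ns v hv hd hv0]
    _ ≤ 1 + ENNReal.ofReal (Real.exp Q) := by
        gcongr
        exact Tilt2_Zinv hγ ns v hv hd hv0 Q hQv
    _ = ENNReal.ofReal (Real.exp Q - 1) + 2 := by
        have h5 : 1 ≤ Real.exp Q := Real.one_le_exp hQ
        rw [show (2 : ℝ≥0∞) = ENNReal.ofReal 2 by norm_num,
          show (1 : ℝ≥0∞) = ENNReal.ofReal 1 by norm_num,
          ← ENNReal.ofReal_add (by norm_num) (Real.exp_pos _).le,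
          ← ENNReal.ofReal_add (by linarith) (by norm_num)]
        congr 1
        ring

/-- integral representation of the difference -/
private theorem Tilt2_repr (hγ : CMart γ) (ns : ℕ) (Bs : ι → Prop)
    (v : ℕ → (ℕ → ι → V) → ι → V)
    (hv : ∀ j, Measurable (v j)) (hd : ∀ j, Dep j (v j)) (hv0 : ∀ j, ns ≤ j → ∀ ω, v j ω = 0)
    (hvB : ∀ j ω z, ¬ Bs z → v j ω z = 0)
    (Φ : (ℕ → ι → V) → ℂ) (hΦ : Measurable Φ) (hb : ∀ ω, ‖Φ ω‖ ≤ 1) :
    ‖∫ ω, Φ ω ∂(PI (Measure.pi fun _ : ι => γ)) -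
        ∫ ω, Φ (shft v ω) ∂(PI (Measure.pi fun _ : ι => γ))‖ₑ ≤
      ∫⁻ ω, ENNReal.ofReal |Real.exp (logZ ns v ω) - 1| *
        (fun η => ‖Φ η - ∫ ω', Φ (res Bs ns η ω') ∂(PI (Measure.pi fun _ : ι => γ))‖ₑ)
          (shft v ω) ∂(PI (Measure.pi fun _ : ι => γ)) := by
  classical
  set P : Measure (ℕ → ι → V) := PI (Measure.pi fun _ : ι => γ) with hP
  have hsm := Tilt2_meas_shft v hv
  have hlm := Tilt2_meas_logZ ns v hv
  have hres := measurable_res (V := V) Bs ns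
  have hΦr : Measurable fun p : (ℕ → ι → V) × (ℕ → ι → V) => Φ (res Bs ns p.1 p.2) :=
    hΦ.comp hres
  set Ψ : (ℕ → ι → V) → ℂ := fun ω => ∫ ω', Φ (res Bs ns ω ω') ∂P with hΨ
  have hΨm : Measurable Ψ := by
    have h0 : StronglyMeasurable fun p : (ℕ → ι → V) × (ℕ → ι → V) => Φ (res Bs ns p.1 p.2) :=
      hΦr.stronglyMeasurable
    exact (h0.integral_prod_right').measurable
  have hΨb : ∀ ω, ‖Ψ ω‖ ≤ 1 := by
    intro ω
    refine (norm_integral_le_of_norm_le_const (C := 1)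
      (Filter.Eventually.of_forall fun ω' => hb _)).trans ?_
    rw [Measure.real, measure_univ]
    simp
  have hresS : ∀ ω ω', res Bs ns (shft v ω) ω' = res Bs ns ω ω' := by
    intro ω ω'
    funext j z
    unfold res
    by_cases h : j < ns ∧ Bs z
    · rw [if_pos h, if_pos h]
    · rw [if_neg h, if_neg h]
      unfold shft
      by_cases hj : j < ns
      · rw [hvB j ω z (fun hz => h ⟨hj, hz⟩), add_zero]
      · rw [hv0 j (by omega) ω]
        simp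
  have hΨS : ∀ ω, Ψ (shft v ω) = Ψ ω := by
    intro ω
    show ∫ ω', Φ (res Bs ns (shft v ω) ω') ∂P = ∫ ω', Φ (res Bs ns ω ω') ∂P
    simp only [hresS]
  have hintZ := Tilt2_int_Z hγ ns v hv hd hv0
  have hintZc : Integrable (fun ω => ((Real.exp (logZ ns v ω) : ℝ) : ℂ)) P := hintZ.ofReal
  have hiZ : ∀ G : (ℕ → ι → V) → ℂ, Measurable G → (∀ ω, ‖G ω‖ ≤ 1) →
      Integrable (fun ω => ((Real.exp (logZ ns v ω) : ℝ) : ℂ) * G (shft v ω)) P := by
    intro G hG hGb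
    refine hintZc.mul_bdd (c := 1) (hG.comp hsm).aestronglyMeasurable ?_
    exact Filter.Eventually.of_forall fun ω => hGb _
  have hiS : ∀ G : (ℕ → ι → V) → ℂ, Measurable G → (∀ ω, ‖G ω‖ ≤ 1) →
      Integrable (fun ω => G (shft v ω)) P := by
    intro G hG hGb
    exact Integrable.of_bound (hG.comp hsm).aestronglyMeasurable 1
      (Filter.Eventually.of_forall fun ω => hGb _)
  have hdiff : ∀ G : (ℕ → ι → V) → ℂ, Measurable G → (∀ ω, ‖G ω‖ ≤ 1) →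
      ∫ ω, G ω ∂P - ∫ ω, G (shft v ω) ∂P =
        ∫ ω, (((Real.exp (logZ ns v ω) : ℝ) : ℂ) - 1) * G (shft v ω) ∂P := by
    intro G hG hGb
    rw [← Tilt2_cint hγ ns v hv hd hv0 G hG, ← integral_sub (hiZ G hG hGb) (hiS G hG hGb)]
    apply integral_congr_ae
    refine Filter.Eventually.of_forall fun ω => ?_
    show ((Real.exp (logZ ns v ω) : ℝ) : ℂ) * G (shft v ω) - G (shft v ω) =
      (((Real.exp (logZ ns v ω) : ℝ) : ℂ) - 1) * G (shft v ω)
    ring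
  have h0 : ∫ ω, (((Real.exp (logZ ns v ω) : ℝ) : ℂ) - 1) * Ψ (shft v ω) ∂P = 0 := by
    rw [← hdiff Ψ hΨm hΨb]
    simp only [hΨS, sub_self]
  have hi1 : ∀ G : (ℕ → ι → V) → ℂ, Measurable G → (∀ ω, ‖G ω‖ ≤ 1) →
      Integrable (fun ω => (((Real.exp (logZ ns v ω) : ℝ) : ℂ) - 1) * G (shft v ω)) P := by
    intro G hG hGb
    have := (hiZ G hG hGb).sub (hiS G hG hGb)
    refine this.congr (Filter.Eventually.of_forall fun ω => ?_)
    show ((Real.exp (logZ ns v ω) : ℝ) : ℂ) * G (shft v ω) - G (shft v ω) =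
      (((Real.exp (logZ ns v ω) : ℝ) : ℂ) - 1) * G (shft v ω)
    ring
  have h1 : ∫ ω, Φ ω ∂P - ∫ ω, Φ (shft v ω) ∂P =
      ∫ ω, (((Real.exp (logZ ns v ω) : ℝ) : ℂ) - 1) * (Φ (shft v ω) - Ψ (shft v ω)) ∂P := by
    rw [hdiff Φ hΦ hb, ← sub_zero (∫ ω, (((Real.exp (logZ ns v ω) : ℝ) : ℂ) - 1) *
      Φ (shft v ω) ∂P), ← h0, ← integral_sub (hi1 Φ hΦ hb) (hi1 Ψ hΨm hΨb)]
    apply integral_congr_ae
    refine Filter.Eventually.of_forall fun ω => ?_
    show (((Real.exp (logZ ns v ω) : ℝ) : ℂ) - 1) * Φ (shft v ω) -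
      (((Real.exp (logZ ns v ω) : ℝ) : ℂ) - 1) * Ψ (shft v ω) =
      (((Real.exp (logZ ns v ω) : ℝ) : ℂ) - 1) * (Φ (shft v ω) - Ψ (shft v ω))
    ring
  rw [h1]
  refine (enorm_integral_le_lintegral_enorm _).trans (le_of_eq ?_)
  apply lintegral_congr
  intro ω
  have e5 : ‖(((Real.exp (logZ ns v ω) : ℝ) : ℂ) - 1)‖ₑ =
      ENNReal.ofReal |Real.exp (logZ ns v ω) - 1| := by
    rw [← ofReal_norm, show (((Real.exp (logZ ns v ω) : ℝ) : ℂ) - 1) =
      ((Real.exp (logZ ns v ω) - 1 : ℝ) : ℂ) by push_cast; rfl, Complex.norm_real,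
      Real.norm_eq_abs]
  rw [enorm_mul, e5]

/-- part with the square integrable majorant -/
private theorem Tilt2_one (hγ : CMart γ) (ns : ℕ)
    (v : ℕ → (ℕ → ι → V) → ι → V)
    (hv : ∀ j, Measurable (v j)) (hd : ∀ j, Dep j (v j)) (hv0 : ∀ j, ns ≤ j → ∀ ω, v j ω = 0)
    (Q : ℝ) (hQ : 0 ≤ Q) (hQv : ∀ ω, ∑ j ∈ Finset.range ns, ∑ x, ‖v j ω x‖ ^ 2 ≤ Q)
    (τ : (ℕ → ι → V) → ℝ≥0∞) (hτ : Measurable τ) :
    ∫⁻ ω, ENNReal.ofReal |Real.exp (logZ ns v ω) - 1| * τ (shft v ω)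
        ∂(PI (Measure.pi fun _ : ι => γ)) ≤
      ENNReal.ofReal (Real.sqrt (Real.exp Q - 1)) *
        (∫⁻ ω, τ ω ^ 2 ∂(PI (Measure.pi fun _ : ι => γ))) ^ (1 / 2 : ℝ) := by
  set P : Measure (ℕ → ι → V) := PI (Measure.pi fun _ : ι => γ) with hP
  have hsm := Tilt2_meas_shft v hv
  have hlm := Tilt2_meas_logZ ns v hv
  have hf : Measurable fun ω => τ (shft v ω) *
      ENNReal.ofReal (Real.exp (logZ ns v ω / 2)) :=
    (hτ.comp hsm).mul (ENNReal.measurable_ofReal.comp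
      (Real.measurable_exp.comp (hlm.div_const 2)))
  have hg : Measurable fun ω => ENNReal.ofReal |Real.exp (logZ ns v ω) - 1| *
      ENNReal.ofReal (Real.exp (-(logZ ns v ω) / 2)) :=
    (ENNReal.measurable_ofReal.comp
      ((Real.measurable_exp.comp hlm).sub_const 1).abs).mul
      (ENNReal.measurable_ofReal.comp (Real.measurable_exp.comp (hlm.neg.div_const 2)))
  have h2 := Tilt2_cs P _ _ hf hg
  have e1 : ∀ ω, τ (shft v ω) *
      ENNReal.ofReal (Real.exp (logZ ns v ω / 2)) *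
      (ENNReal.ofReal |Real.exp (logZ ns v ω) - 1| *
      ENNReal.ofReal (Real.exp (-(logZ ns v ω) / 2))) =
      ENNReal.ofReal |Real.exp (logZ ns v ω) - 1| * τ (shft v ω) := by
    intro ω
    have e4 : ENNReal.ofReal (Real.exp (logZ ns v ω / 2)) *
        ENNReal.ofReal (Real.exp (-(logZ ns v ω) / 2)) = 1 := by
      rw [← ENNReal.ofReal_mul (Real.exp_pos _).le, ← Real.exp_add,
        show logZ ns v ω / 2 + -(logZ ns v ω) / 2 = 0 by ring, Real.exp_zero, ENNReal.ofReal_one]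
    calc τ (shft v ω) * ENNReal.ofReal (Real.exp (logZ ns v ω / 2)) *
        (ENNReal.ofReal |Real.exp (logZ ns v ω) - 1| *
          ENNReal.ofReal (Real.exp (-(logZ ns v ω) / 2)))
        = (ENNReal.ofReal (Real.exp (logZ ns v ω / 2)) *
          ENNReal.ofReal (Real.exp (-(logZ ns v ω) / 2))) *
          (ENNReal.ofReal |Real.exp (logZ ns v ω) - 1| * τ (shft v ω)) := by ring
      _ = ENNReal.ofReal |Real.exp (logZ ns v ω) - 1| * τ (shft v ω) := by rw [e4, one_mul]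
  have e2 : ∀ ω, (τ (shft v ω) *
      ENNReal.ofReal (Real.exp (logZ ns v ω / 2))) ^ 2 =
      (fun η => τ η ^ 2) (shft v ω) * ENNReal.ofReal (Real.exp (logZ ns v ω)) := by
    intro ω
    rw [mul_pow, Tilt2_half_sq]
  have e3 : ∀ ω, (ENNReal.ofReal |Real.exp (logZ ns v ω) - 1| *
      ENNReal.ofReal (Real.exp (-(logZ ns v ω) / 2))) ^ 2 =
      ENNReal.ofReal ((Real.exp (logZ ns v ω) - 1) ^ 2 * Real.exp (-(logZ ns v ω))) := by
    intro ω
    rw [mul_pow, Tilt2_half_sq, ← ENNReal.ofReal_pow (abs_nonneg _), sq_abs,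
      ← ENNReal.ofReal_mul (sq_nonneg _)]
  rw [lintegral_congr e1, lintegral_congr e2, lintegral_congr e3,
    shift_lintegral hγ ns v hv hd hv0 (fun η => τ η ^ 2) (hτ.pow_const 2)] at h2
  have hE0 : 0 ≤ Real.exp Q - 1 := by linarith [Real.one_le_exp hQ]
  have h9 : (∫⁻ ω, ENNReal.ofReal ((Real.exp (logZ ns v ω) - 1) ^ 2 *
      Real.exp (-(logZ ns v ω))) ∂P) ^ (1 / 2 : ℝ) ≤
      ENNReal.ofReal (Real.sqrt (Real.exp Q - 1)) := by
    refine (ENNReal.rpow_le_rpow (Tilt2_var hγ ns v hv hd hv0 Q hQ hQv) (by norm_num)).trans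
      (le_of_eq ?_)
    rw [ENNReal.ofReal_rpow_of_nonneg hE0 (by norm_num), Real.sqrt_eq_rpow]
  refine h2.trans ?_
  rw [mul_comm]
  exact mul_le_mul' h9 le_rfl

/-- part with the integrable majorant -/
private theorem Tilt2_two (hγ : CMart γ) (ns : ℕ)
    (v : ℕ → (ℕ → ι → V) → ι → V)
    (hv : ∀ j, Measurable (v j)) (hd : ∀ j, Dep j (v j)) (hv0 : ∀ j, ns ≤ j → ∀ ω, v j ω = 0)
    (τ : (ℕ → ι → V) → ℝ≥0∞) (hτ : Measurable τ) :
    ∫⁻ ω, ENNReal.ofReal |Real.exp (logZ ns v ω) - 1| * τ (shft v ω)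
        ∂(PI (Measure.pi fun _ : ι => γ)) ≤
      ∫⁻ ω, τ ω ∂(PI (Measure.pi fun _ : ι => γ)) +
        ∫⁻ ω, τ (shft v ω) ∂(PI (Measure.pi fun _ : ι => γ)) := by
  set P : Measure (ℕ → ι → V) := PI (Measure.pi fun _ : ι => γ) with hP
  have hsm := Tilt2_meas_shft v hv
  have hlm := Tilt2_meas_logZ ns v hv
  rw [← shift_lintegral hγ ns v hv hd hv0 τ hτ, ← lintegral_add_left]
  · apply lintegral_mono
    intro ω
    show ENNReal.ofReal |Real.exp (logZ ns v ω) - 1| * τ (shft v ω) ≤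
      τ (shft v ω) * ENNReal.ofReal (Real.exp (logZ ns v ω)) + τ (shft v ω)
    have h1 : ENNReal.ofReal |Real.exp (logZ ns v ω) - 1| ≤
        ENNReal.ofReal (Real.exp (logZ ns v ω)) + 1 := by
      rw [← ENNReal.ofReal_one, ← ENNReal.ofReal_add (Real.exp_pos _).le zero_le_one]
      apply ENNReal.ofReal_le_ofReal
      rw [abs_le]
      constructor <;> linarith [Real.exp_pos (logZ ns v ω)]
    calc ENNReal.ofReal |Real.exp (logZ ns v ω) - 1| * τ (shft v ω)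
        ≤ (ENNReal.ofReal (Real.exp (logZ ns v ω)) + 1) * τ (shft v ω) :=
          mul_le_mul' h1 le_rfl
      _ = τ (shft v ω) * ENNReal.ofReal (Real.exp (logZ ns v ω)) + τ (shft v ω) := by ring
  · exact (hτ.comp hsm).mul (ENNReal.measurable_ofReal.comp (Real.measurable_exp.comp hlm))

theorem tilt_bd2 (hγ : CMart γ) (ns : ℕ) (Bs : ι → Prop) (v : ℕ → (ℕ → ι → V) → ι → V)
    (hv : ∀ j, Measurable (v j)) (hd : ∀ j, Dep j (v j)) (hv0 : ∀ j, ns ≤ j → ∀ ω, v j ω = 0)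
    (hvB : ∀ j ω z, ¬ Bs z → v j ω z = 0) (Q : ℝ) (hQ : 0 ≤ Q)
    (hQv : ∀ ω, ∑ j ∈ Finset.range ns, ∑ x, ‖v j ω x‖ ^ 2 ≤ Q)
    (Φ : (ℕ → ι → V) → ℂ) (hΦ : Measurable Φ) (hb : ∀ ω, ‖Φ ω‖ ≤ 1)
    (T1 T2 : (ℕ → ι → V) → (ℕ → ι → V) → ℝ≥0∞)
    (h1 : Measurable fun p : (ℕ → ι → V) × (ℕ → ι → V) => T1 p.1 p.2)
    (h2 : Measurable fun p : (ℕ → ι → V) × (ℕ → ι → V) => T2 p.1 p.2)
    (hT : ∀ ω ω', ENNReal.ofReal ‖Φ ω - Φ (res Bs ns ω ω')‖ ≤ T1 ω ω' + T2 ω ω') :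
    ENNReal.ofReal ‖∫ ω, Φ ω ∂(PI (Measure.pi fun _ : ι => γ)) -
        ∫ ω, Φ (shft v ω) ∂(PI (Measure.pi fun _ : ι => γ))‖ ≤
      ENNReal.ofReal (Real.sqrt (Real.exp Q - 1)) *
          (∫⁻ ω, ∫⁻ ω', T1 ω ω' ^ 2 ∂(PI (Measure.pi fun _ : ι => γ))
            ∂(PI (Measure.pi fun _ : ι => γ))) ^ (1 / 2 : ℝ) +
        (∫⁻ ω, ∫⁻ ω', T2 ω ω' ∂(PI (Measure.pi fun _ : ι => γ))
          ∂(PI (Measure.pi fun _ : ι => γ)) +
        ∫⁻ ω, ∫⁻ ω', T2 (shft v ω) ω' ∂(PI (Measure.pi fun _ : ι => γ))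
          ∂(PI (Measure.pi fun _ : ι => γ))) := by
  classical
  set P : Measure (ℕ → ι → V) := PI (Measure.pi fun _ : ι => γ) with hP
  have hres := measurable_res (V := V) Bs ns
  have hsm := Tilt2_meas_shft v hv
  have hlm := Tilt2_meas_logZ ns v hv
  have hΦr : Measurable fun p : (ℕ → ι → V) × (ℕ → ι → V) => Φ (res Bs ns p.1 p.2) :=
    hΦ.comp hres
  have hm1 : Measurable fun ω => ∫⁻ ω', T1 ω ω' ∂P := h1.lintegral_prod_right'
  have hm2 : Measurable fun ω => ∫⁻ ω', T2 ω ω' ∂P := h2.lintegral_prod_right'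
  have hW : Measurable fun ω => ENNReal.ofReal |Real.exp (logZ ns v ω) - 1| :=
    ENNReal.measurable_ofReal.comp ((Real.measurable_exp.comp hlm).sub_const 1).abs
  have s1 : ∀ ω, Measurable fun ω' => T1 ω ω' := fun ω =>
    h1.comp (measurable_const.prodMk measurable_id)
  -- pointwise bound
  have hpt : ∀ η, ‖Φ η - ∫ ω', Φ (res Bs ns η ω') ∂P‖ₑ ≤
      ∫⁻ ω', T1 η ω' ∂P + ∫⁻ ω', T2 η ω' ∂P := by
    intro η
    have e6 : Φ η - ∫ ω', Φ (res Bs ns η ω') ∂P = ∫ ω', (Φ η - Φ (res Bs ns η ω')) ∂P := by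
      have h7 : Integrable (fun ω' => Φ (res Bs ns η ω')) P :=
        Integrable.of_bound (hΦr.comp (measurable_const.prodMk measurable_id)).aestronglyMeasurable
          1 (Filter.Eventually.of_forall fun ω' => hb _)
      rw [integral_sub (integrable_const _) h7, integral_const, Measure.real, measure_univ]
      simp
    rw [e6, ← lintegral_add_left (s1 η)]
    refine (enorm_integral_le_lintegral_enorm _).trans ?_
    apply lintegral_mono
    intro ω'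
    show ‖Φ η - Φ (res Bs ns η ω')‖ₑ ≤ T1 η ω' + T2 η ω'
    rw [← ofReal_norm]
    exact hT η ω'
  have hr := Tilt2_repr hγ ns Bs v hv hd hv0 hvB Φ hΦ hb
  have h3 : ∫⁻ ω, ENNReal.ofReal |Real.exp (logZ ns v ω) - 1| *
      (fun η => ‖Φ η - ∫ ω', Φ (res Bs ns η ω') ∂P‖ₑ) (shft v ω) ∂P ≤
      ∫⁻ ω, ENNReal.ofReal |Real.exp (logZ ns v ω) - 1| *
        (fun η => ∫⁻ ω', T1 η ω' ∂P) (shft v ω) ∂P +
      ∫⁻ ω, ENNReal.ofReal |Real.exp (logZ ns v ω) - 1| *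
        (fun η => ∫⁻ ω', T2 η ω' ∂P) (shft v ω) ∂P := by
    have hmul : Measurable fun ω => ENNReal.ofReal |Real.exp (logZ ns v ω) - 1| *
        (fun η => ∫⁻ ω', T1 η ω' ∂P) (shft v ω) := hW.mul (hm1.comp hsm)
    rw [← lintegral_add_left hmul]
    apply lintegral_mono
    intro ω
    show ENNReal.ofReal |Real.exp (logZ ns v ω) - 1| *
        ‖Φ (shft v ω) - ∫ ω', Φ (res Bs ns (shft v ω) ω') ∂P‖ₑ ≤
      ENNReal.ofReal |Real.exp (logZ ns v ω) - 1| * (∫⁻ ω', T1 (shft v ω) ω' ∂P) +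
      ENNReal.ofReal |Real.exp (logZ ns v ω) - 1| * (∫⁻ ω', T2 (shft v ω) ω' ∂P)
    rw [← mul_add]
    exact mul_le_mul' le_rfl (hpt _)
  have h4 := Tilt2_one hγ ns v hv hd hv0 Q hQ hQv _ hm1
  have h5 := Tilt2_two hγ ns v hv hd hv0 _ hm2
  have h6 : ∫⁻ ω, (∫⁻ ω', T1 ω ω' ∂P) ^ 2 ∂P ≤ ∫⁻ ω, ∫⁻ ω', T1 ω ω' ^ 2 ∂P ∂P := by
    apply lintegral_mono
    intro ω
    have h7 := Tilt2_cs P (fun ω' => T1 ω ω') (fun _ => 1) (s1 ω) measurable_const
    simp only [mul_one, one_pow, lintegral_one, measure_univ, ENNReal.one_rpow] at h7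
    have h8 := pow_le_pow_left₀ zero_le h7 2
    refine h8.trans (le_of_eq ?_)
    rw [← ENNReal.rpow_two, ← ENNReal.rpow_mul]
    norm_num
  rw [ofReal_norm]
  refine hr.trans (h3.trans (add_le_add (h4.trans ?_) h5))
  exact mul_le_mul' le_rfl (ENNReal.rpow_le_rpow h6 (by norm_num))

end DynC
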