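import Pool.Agent.Lib_MP_36b788c.Mq
import Pool.Agent.Lib_MP_36b788c.Reg2

/-!
# Upper bound of a field over a block by the height model on a ball (deterministic)

`Bl d L y R`: the ball of radius `R` around `y` in the box. `ballM`: the metric set. `gwin g nw i`: sums of `g` over window `i` (`nw` steps each).

PROOF of `upper_cmp`. `q = 1 - 4κ`, `Fq = mfq q X (gwin)` on the ball. `HO v = 1 + (3/4)(dist y v - R)` (real). Global supersolution `Ō_j v = (1 + j h)(1 + 4d k^{1/8} h)^j exp(ell(lpp_j v + HO v))` (`lpp` with cost `1/8`, start `0`, increments `b/ell` on the whole box): `Ō_{j+1} v ≥ e^{b_j v} Ō_j v + k h cpl Ō_j v + h exp(ell HO v)` (as in `grow_path`, `lpp ≥ 0`).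
In window `i`, `H x = Rq q (Fq i) x + i ε + εc` for `x` in the ball, `Ī_l x = (1 + 4d k^{2κ} h)^l exp(ell(H x + Σ_{l' < l} g x))` for `x` in the ball, `0` outside. For `x` in the ball: `Ī_{l+1} x ≥ e^{b} Ī_l x + k h cpl Ī_l x`: neighbours `y'` in the ball have `H y' ≤ H x + (1-4κ)` (`Rq_lip`), block sums `≤ κ`, so `k Ī_l y' ≤ k^{2κ}(…)^l exp(ell(H x + Σ_{l' ≤ l} g x))`; the term `2d k Ī_l x` is `≤ 2d k^{1-2κ}…`.
For `x` outside: `k cpl Ī_l x ≤ 2d k·2k^{-(εc + J ε + κ)} ≤ 1 ≤ exp(ell HO x)` (`Fq ≤ 0`, `εc + Jε + κ ≤ 1/2`). So by induction in `l`: `u_j ≤ Ī_l + Ō_j`, `j = i nw + l`.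
At the end of the window, for `x` in the ball: `u ≤ k^{-εc}`, so `u ≤ min (k^{-εc}) Ī + Ō ≤ exp(ell(Fq (i+1) x + (i+1) ε + εc)) + Ō` (`(1+4dk^{2κ}h)^{nw} ≤ exp(ell ε)` for small `k`). Start: `u_0 x ≤ exp(ell(X x + εc))` in the ball, `u_0 v ≤ exp(ell HO v)` outside. Finally `(1 + j h)(1+4d k^{1/8} h)^j ≤ k^{-ε}` for `j h ≤ ell³`.
-/

open MeasureTheory ProbabilityTheory
open scoped ENNReal

namespace DynC

open Dyn

/-- ball of the box -/
abbrev Bl (d L : ℕ) (y : boxS d L) (R : ℕ) : Type := {x : boxS d L // (boxNet d L).dist y x ≤ R}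

noncomputable instance (d L : ℕ) (y : boxS d L) (R : ℕ) : Fintype (Bl d L y R) :=
  Fintype.ofFinite _

/-- the ball as a metric set -/
noncomputable def ballM (d L : ℕ) (y : boxS d L) (R : ℕ) : MSet (Bl d L y R) d where
  dd := fun a b => (boxNet d L).dist a.1 b.1
  dd_self := fun a => (boxNet d L).dist_self a.1
  dd_pos := fun a b hab => (boxNet d L).dist_pos a.1 b.1 fun h => hab (Subtype.ext h)
  dd_comm := fun a b => (boxNet d L).dist_comm a.1 b.1
  dd_tri := fun a b c => (boxNet d L).dist_tri a.1 b.1 c.1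
  growth := by
    intro x r A hA
    classical
    have h1 := (boxMSet d L).growth x.1 r (A.image fun a : Bl d L y R => a.1) (by
      intro z hz
      obtain ⟨a, ha, rfl⟩ := Finset.mem_image.mp hz
      exact hA a ha)
    rwa [Finset.card_image_of_injective _ Subtype.val_injective] at h1

/-- window sums on the ball -/
noncomputable def gwin {d L : ℕ} (y : boxS d L) (R : ℕ) (g : ℕ → boxS d L → ℝ) (nw : ℕ) :
    ℕ → Bl d L y R → ℝ :=
  fun i x => ∑ l ∈ Finset.range nw, g (i * nw + l) x.1

private theorem Up2_ev (b c : ℝ) (hb : 0 < b) (hc : 0 < c) :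
    ∀ᶠ T : ℝ in Filter.atTop, T ^ 3 * Real.exp (-(b * T)) ≤ c := by
  have h1 := tendsto_rpow_mul_exp_neg_mul_atTop_nhds_zero 3 b hb
  filter_upwards [h1.eventually (Iio_mem_nhds hc)] with T hT
  have h2 : T ^ (3 : ℝ) = T ^ 3 := by
    exact_mod_cast Real.rpow_natCast T 3
  rw [h2] at hT
  have h3 : -b * T = -(b * T) := by ring
  rw [h3] at hT
  exact (le_of_lt hT)

private theorem Up2_cpl_mono {d L : ℕ} (a b : boxS d L → ℝ) (h : ∀ x, a x ≤ b x) (x : boxS d L) :
    cpl (boxNet d L) a x ≤ cpl (boxNet d L) b x := by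
  unfold cpl
  have h1 : ∑ y ∈ (boxNet d L).nb x, a y ≤ ∑ y ∈ (boxNet d L).nb x, b y :=
    Finset.sum_le_sum fun y _ => h y
  have h2 : ((2 * d : ℕ) : ℝ) * a x ≤ ((2 * d : ℕ) : ℝ) * b x :=
    mul_le_mul_of_nonneg_left (h x) (Nat.cast_nonneg _)
  linarith

private theorem Up2_cpl_add {d L : ℕ} (a b : boxS d L → ℝ) (x : boxS d L) :
    cpl (boxNet d L) (fun z => a z + b z) x = cpl (boxNet d L) a x + cpl (boxNet d L) b x := by
  unfold cpl
  rw [Finset.sum_add_distrib]
  ring

private theorem Up2_cpl_le {d L : ℕ} (a : boxS d L → ℝ) (x : boxS d L) (C : ℝ) (hC : 0 ≤ C)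
    (h : ∀ y ∈ (boxNet d L).nb x, a y ≤ C) (hx : a x ≤ C) :
    cpl (boxNet d L) a x ≤ 4 * d * C := by
  unfold cpl
  have h1 : ∑ y ∈ (boxNet d L).nb x, a y ≤ 2 * d * C := by
    calc ∑ y ∈ (boxNet d L).nb x, a y ≤ ∑ _y ∈ (boxNet d L).nb x, C := Finset.sum_le_sum h
      _ = ((boxNet d L).nb x).card * C := by rw [Finset.sum_const, nsmul_eq_mul]
      _ ≤ 2 * d * C := by
        apply mul_le_mul_of_nonneg_right _ hC
        exact_mod_cast (boxNet d L).nb_card x
  have h2 : ((2 * d : ℕ) : ℝ) * a x ≤ ((2 * d : ℕ) : ℝ) * C :=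
    mul_le_mul_of_nonneg_left hx (Nat.cast_nonneg _)
  push_cast at h2 ⊢
  linarith

private theorem Up2_W0 (d L : ℕ) (q : ℝ) (g : ℕ → boxS d L → ℝ) (n : ℕ) (x : boxS d L) :
    (boxMSet d L).lpp q (fun _ => 0) g n x + g n x ≤ (boxMSet d L).lpp q (fun _ => 0) g (n + 1) x := by
  show _ ≤ max 0 (max ((boxMSet d L).lpp q (fun _ => 0) g n x + g n x) _)
  exact (le_max_left _ _).trans (le_max_right _ _)

private theorem Up2_W1 (d L : ℕ) (q : ℝ) (g : ℕ → boxS d L → ℝ) (n : ℕ)
    (x y : boxS d L) (hy : (boxNet d L).dist x y ≤ 1) :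
    (boxMSet d L).lpp q (fun _ => 0) g n y ≤ (boxMSet d L).lpp q (fun _ => 0) g (n + 1) x + q := by
  have h1 : (boxMSet d L).lpp q (fun _ => 0) g n y - q * max ((boxMSet d L).dd x y : ℝ) 1 ≤
      (boxMSet d L).Rq1 q ((boxMSet d L).lpp q (fun _ => 0) g n) x :=
    le_Rq1 (boxMSet d L) q _ x y
  have h2 : max ((boxMSet d L).dd x y : ℝ) 1 = 1 := by
    apply max_eq_right
    exact_mod_cast hy
  rw [h2] at h1
  have h3 : (boxMSet d L).Rq1 q ((boxMSet d L).lpp q (fun _ => 0) g n) x + max (g n x) 0 ≤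
      (boxMSet d L).lpp q (fun _ => 0) g (n + 1) x := by
    show _ ≤ max 0 (max _ ((boxMSet d L).Rq1 q ((boxMSet d L).lpp q (fun _ => 0) g n) x +
      max (g n x) 0))
    exact (le_max_right _ _).trans (le_max_right _ _)
  have h4 : 0 ≤ max (g n x) 0 := le_max_right _ _
  linarith

/-- exponent of the field outside the ball -/
private noncomputable def Up2_HO {d L : ℕ} (y : boxS d L) (R : ℕ) (v : boxS d L) : ℝ :=
  1 + 3 / 4 * (((boxNet d L).dist y v : ℝ) - R)

private theorem Up2_HO_lip {d L : ℕ} (y : boxS d L) (R : ℕ) (v w : boxS d L)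
    (hw : (boxNet d L).dist v w ≤ 1) : Up2_HO y R w ≤ Up2_HO y R v + 3 / 4 := by
  have h1 := (boxNet d L).dist_tri y v w
  have h2 : (boxNet d L).dist y w ≤ (boxNet d L).dist y v + 1 := by omega
  have h3 : ((boxNet d L).dist y w : ℝ) ≤ (boxNet d L).dist y v + 1 := by exact_mod_cast h2
  unfold Up2_HO
  linarith

/-- global supersolution -/
private noncomputable def Up2_O {d L : ℕ} (T h : ℝ) (y : boxS d L) (R : ℕ)
    (g : ℕ → boxS d L → ℝ) (j : ℕ) (v : boxS d L) : ℝ :=
  (1 + j * h) * (1 + 4 * d * Real.exp (-(T / 8)) * h) ^ j *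
    Real.exp (T * ((boxMSet d L).lpp (1 / 8) (fun _ => 0) g j v + Up2_HO y R v))

private theorem Up2_O_nonneg {d L : ℕ} (T h : ℝ) (hh : 0 < h) (y : boxS d L) (R : ℕ)
    (g : ℕ → boxS d L → ℝ) (j : ℕ) (v : boxS d L) : 0 ≤ Up2_O T h y R g j v := by
  unfold Up2_O
  positivity

private theorem Up2_O_step {d L : ℕ} (T h : ℝ) (hT : 0 < T) (hh : 0 < h) (y : boxS d L) (R : ℕ)
    (g : ℕ → boxS d L → ℝ) (j : ℕ) (v : boxS d L) :
    Real.exp (T * g j v) * Up2_O T h y R g j v +
      Real.exp (-T) * h * cpl (boxNet d L) (Up2_O T h y R g j) v +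
      h * Real.exp (T * Up2_HO y R v) ≤ Up2_O T h y R g (j + 1) v := by
  set W := (boxMSet d L).lpp (1 / 8) (fun _ => 0) g with hW
  set A : ℝ := (1 + j * h) * (1 + 4 * d * Real.exp (-(T / 8)) * h) ^ j with hA
  have hA0 : 0 ≤ A := by rw [hA]; positivity
  set E : ℝ := Real.exp (T * (W (j + 1) v + Up2_HO y R v)) with hE
  have hE0 : 0 < E := Real.exp_pos _
  have hc : 0 ≤ 4 * d * Real.exp (-(T / 8)) * h := by positivity
  have e1 : Real.exp (T * g j v) * Up2_O T h y R g j v ≤ A * E := by
    have h1 : W j v + g j v ≤ W (j + 1) v := Up2_W0 d L (1 / 8) g j v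
    have h2 : Real.exp (T * g j v) * Up2_O T h y R g j v =
        A * Real.exp (T * (W j v + g j v + Up2_HO y R v)) := by
      unfold Up2_O
      have h3 : T * (W j v + g j v + Up2_HO y R v) = T * g j v + T * (W j v + Up2_HO y R v) := by
        ring
      rw [h3, Real.exp_add]
      ring
    rw [h2]
    apply mul_le_mul_of_nonneg_left _ hA0
    apply Real.exp_le_exp.mpr
    apply mul_le_mul_of_nonneg_left _ hT.le
    linarith
  have e2 : ∀ w, (boxNet d L).dist v w ≤ 1 → Up2_O T h y R g j w ≤ A * E * Real.exp (T * (7 / 8)) := by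
    intro w hw
    have h1 : W j w ≤ W (j + 1) v + 1 / 8 := Up2_W1 d L (1 / 8) g j v w hw
    have h2 := Up2_HO_lip y R v w hw
    unfold Up2_O
    rw [mul_assoc A E, hE, ← Real.exp_add]
    apply mul_le_mul_of_nonneg_left _ hA0
    apply Real.exp_le_exp.mpr
    rw [← mul_add]
    apply mul_le_mul_of_nonneg_left _ hT.le
    linarith
  have e3 : cpl (boxNet d L) (Up2_O T h y R g j) v ≤ 4 * d * (A * E * Real.exp (T * (7 / 8))) := by
    refine Up2_cpl_le _ v _ (by positivity) (fun w hw => e2 w ?_) (e2 v ?_)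
    · exact le_of_eq ((boxNet d L).dist_nb v w hw)
    · rw [(boxNet d L).dist_self]
      exact Nat.zero_le _
  have e4 : Real.exp (-T) * h * cpl (boxNet d L) (Up2_O T h y R g j) v ≤
      A * E * (4 * d * Real.exp (-(T / 8)) * h) := by
    have h1 := mul_le_mul_of_nonneg_left e3 (by positivity : 0 ≤ Real.exp (-T) * h)
    refine h1.trans (le_of_eq ?_)
    have h2 : Real.exp (-(T / 8)) = Real.exp (-T) * Real.exp (T * (7 / 8)) := by
      rw [← Real.exp_add]
      congr 1
      ring
    rw [h2]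
    ring
  have e5 : h * Real.exp (T * Up2_HO y R v) ≤
      h * (1 + 4 * d * Real.exp (-(T / 8)) * h) ^ (j + 1) * E := by
    have h1 : 1 ≤ (1 + 4 * d * Real.exp (-(T / 8)) * h) ^ (j + 1) :=
      one_le_pow₀ (by linarith)
    have h2 : 0 ≤ W (j + 1) v := lpp_nonneg (boxMSet d L) _ _ (fun _ => le_refl 0) g (j + 1) v
    have h3 : Real.exp (T * Up2_HO y R v) ≤ E := by
      apply Real.exp_le_exp.mpr
      apply mul_le_mul_of_nonneg_left _ hT.le
      linarith
    have h4 : h ≤ h * (1 + 4 * d * Real.exp (-(T / 8)) * h) ^ (j + 1) := by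
      nlinarith
    exact mul_le_mul h4 h3 (Real.exp_pos _).le (by positivity)
  have e6 : Up2_O T h y R g (j + 1) v =
      A * E * (1 + 4 * d * Real.exp (-(T / 8)) * h) +
        h * (1 + 4 * d * Real.exp (-(T / 8)) * h) ^ (j + 1) * E := by
    unfold Up2_O
    rw [hA, pow_succ]
    push_cast
    ring
  rw [e6]
  have e7 : A * E * (1 + 4 * d * Real.exp (-(T / 8)) * h) =
      A * E + A * E * (4 * d * Real.exp (-(T / 8)) * h) := by ring
  rw [e7]
  linarith

open scoped Classical in
/-- local supersolution in a window -/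
private noncomputable def Up2_I {d L : ℕ} (T h κ : ℝ) (y : boxS d L) (R : ℕ)
    (H : boxS d L → ℝ) (s : ℕ → boxS d L → ℝ) (l : ℕ) (x : boxS d L) : ℝ :=
  if (boxNet d L).dist y x ≤ R then
    (1 + 4 * d * Real.exp (-(T * (2 * κ))) * h) ^ l * Real.exp (T * (H x + s l x)) else 0

private theorem Up2_I_nonneg {d L : ℕ} (T h κ : ℝ) (hh : 0 < h) (y : boxS d L) (R : ℕ)
    (H : boxS d L → ℝ) (s : ℕ → boxS d L → ℝ) (l : ℕ) (x : boxS d L) :
    0 ≤ Up2_I T h κ y R H s l x := by
  unfold Up2_I
  split_ifs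
  · positivity
  · exact le_refl 0

private theorem Up2_I_step {d L : ℕ} (T h κ : ℝ) (hT : 0 < T) (hh : 0 < h) (hκ : 0 < κ)
    (hκ1 : κ ≤ 1 / 16) (y : boxS d L) (R : ℕ)
    (H : boxS d L → ℝ) (s : ℕ → boxS d L → ℝ) (nw : ℕ) (l : ℕ) (hl : l < nw) (x : boxS d L)
    (hx : (boxNet d L).dist y x ≤ R)
    (hH : ∀ w ∈ (boxNet d L).nb x, (boxNet d L).dist y w ≤ R → H w ≤ H x + (1 - 4 * κ))
    (hs : ∀ w, (boxNet d L).dist y w ≤ R → ∀ m, m ≤ nw → |s m w| ≤ κ) :
    Real.exp (T * (s (l + 1) x - s l x)) * Up2_I T h κ y R H s l x +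
      Real.exp (-T) * h * cpl (boxNet d L) (Up2_I T h κ y R H s l) x ≤
      Up2_I T h κ y R H s (l + 1) x := by
  set P : ℝ := (1 + 4 * d * Real.exp (-(T * (2 * κ))) * h) ^ l with hP
  have hP0 : 0 ≤ P := by rw [hP]; positivity
  set E : ℝ := Real.exp (T * (H x + s (l + 1) x)) with hE
  have hE0 : 0 < E := Real.exp_pos _
  have hsx1 := abs_le.mp (hs x hx (l + 1) hl)
  have hsx0 := abs_le.mp (hs x hx l hl.le)
  have e1 : Real.exp (T * (s (l + 1) x - s l x)) * Up2_I T h κ y R H s l x = P * E := by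
    unfold Up2_I
    rw [if_pos hx, hE]
    have h1 : T * (H x + s (l + 1) x) = T * (s (l + 1) x - s l x) + T * (H x + s l x) := by ring
    rw [h1, Real.exp_add]
    ring
  have e2 : ∀ w ∈ (boxNet d L).nb x, Up2_I T h κ y R H s l w ≤ P * E * Real.exp (T * (1 - 2 * κ)) := by
    intro w hw
    unfold Up2_I
    split_ifs with hwR
    · have h1 := hH w hw hwR
      have h2 := abs_le.mp (hs w hwR l hl.le)
      rw [mul_assoc P E, hE, ← Real.exp_add]
      apply mul_le_mul_of_nonneg_left _ hP0
      apply Real.exp_le_exp.mpr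
      rw [← mul_add]
      apply mul_le_mul_of_nonneg_left _ hT.le
      linarith [h2.2, hsx1.1]
    · positivity
  have e3 : Up2_I T h κ y R H s l x ≤ P * E * Real.exp (T * (1 - 2 * κ)) := by
    unfold Up2_I
    rw [if_pos hx, mul_assoc P E, hE, ← Real.exp_add]
    apply mul_le_mul_of_nonneg_left _ hP0
    apply Real.exp_le_exp.mpr
    rw [← mul_add]
    apply mul_le_mul_of_nonneg_left _ hT.le
    linarith [hsx0.2, hsx1.1]
  have e4 := Up2_cpl_le (Up2_I T h κ y R H s l) x (P * E * Real.exp (T * (1 - 2 * κ)))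
    (by positivity) e2 e3
  have e5 : Real.exp (-T) * h * cpl (boxNet d L) (Up2_I T h κ y R H s l) x ≤
      P * E * (4 * d * Real.exp (-(T * (2 * κ))) * h) := by
    have h1 := mul_le_mul_of_nonneg_left e4 (by positivity : 0 ≤ Real.exp (-T) * h)
    refine h1.trans (le_of_eq ?_)
    have h2 : Real.exp (-(T * (2 * κ))) = Real.exp (-T) * Real.exp (T * (1 - 2 * κ)) := by
      rw [← Real.exp_add]
      congr 1
      ring
    rw [h2]
    ring
  have e6 : Up2_I T h κ y R H s (l + 1) x =
      P * E + P * E * (4 * d * Real.exp (-(T * (2 * κ))) * h) := by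
    unfold Up2_I
    rw [if_pos hx, pow_succ]
    ring
  rw [e1, e6]
  linarith

private theorem Up2_pow (x : ℝ) (hx : 0 ≤ x) (n : ℕ) : (1 + x) ^ n ≤ Real.exp (n * x) := by
  have h1 : (1 + x) ^ n ≤ Real.exp x ^ n := by
    refine pow_le_pow_left₀ (by linarith) ?_ n
    have := Real.add_one_le_exp x
    linarith
  rwa [← Real.exp_nat_mul] at h1

theorem upper_cmp (d : ℕ) (κ ε εc : ℝ) (hκ : 0 < κ) (hκ1 : κ ≤ 1 / 16) (hε : 0 < ε)
    (hεc : 0 < εc) (J : ℕ) (hJ : εc + (J + 1) * ε + κ ≤ 1 / 2) :
    ∃ k0 : ℝ, 0 < k0 ∧ k0 < 1 ∧ ∀ k, 0 < k → k < k0 → ∀ (L : ℕ) (y : boxS d L) (R nw : ℕ) (h : ℝ),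
      0 < h → h < 1 → (J * nw : ℕ) * h ≤ ell k ^ 3 →
      ∀ (g u : ℕ → boxS d L → ℝ) (X : Bl d L y R → ℝ), (∀ x, X x ≤ 0) →
      (∀ j x, 0 ≤ u j x) →
      (∀ j x, u (j + 1) x ≤ Real.exp (ell k * g j x) * u j x + k * h * cpl (boxNet d L) (u j) x) →
      (∀ x : Bl d L y R, ∀ i, i < J → ∀ l l', l ≤ l' → l' ≤ nw →
        |∑ j ∈ Finset.Ico (i * nw + l) (i * nw + l'), g j x.1| ≤ κ) →
      (∀ x : Bl d L y R, ∀ i, i ≤ J → u (i * nw) x.1 ≤ k ^ (-εc)) →
      (∀ x : Bl d L y R, u 0 x.1 ≤ Real.exp (ell k * (X x + εc))) →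
      (∀ v, R < (boxNet d L).dist y v →
        u 0 v ≤ Real.exp (ell k * (1 + 3 / 4 * ((boxNet d L).dist y v - R)))) →
      ∀ i, i ≤ J → ∀ x : Bl d L y R, u (i * nw) x.1 ≤
        Real.exp (ell k * ((ballM d L y R).mfq (1 - 4 * κ) X (gwin y R g nw) i x + i * ε + εc)) +
        k ^ (-ε) * Real.exp (ell k * ((boxMSet d L).lpp (1 / 8) (fun _ => 0) g (i * nw) x.1 +
          1 + 3 / 4 * ((boxNet d L).dist y x.1 - R))) := by
  have hd0 : (0 : ℝ) ≤ d := Nat.cast_nonneg d
  obtain ⟨T0, hT0⟩ := Filter.eventually_atTop.mp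
    (((Up2_ev (2 * κ) (ε / (4 * d + 1)) (by positivity) (by positivity)).and
      (Up2_ev (1 / 8) (1 / (4 * d + 1)) (by norm_num) (by positivity))).and
      (Up2_ev ε (1 / 6) hε (by norm_num)))
  refine ⟨Real.exp (-(max T0 1)), Real.exp_pos _, by
    rw [Real.exp_lt_one_iff]
    have := le_max_right T0 1
    linarith, ?_⟩
  intro k hk hkk L y R nw h hh _ hJh g u X hX _ hstep hblk hcap hin hout
  have hTge : max T0 1 ≤ ell k := by
    unfold ell
    rw [one_div, Real.log_inv]
    have h1 := Real.log_lt_log hk hkk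
    rw [Real.log_exp] at h1
    linarith
  have hkT : k = Real.exp (-ell k) := by
    unfold ell
    rw [one_div, Real.log_inv, neg_neg, Real.exp_log hk]
  obtain ⟨⟨hc1, hc2⟩, hc3⟩ := hT0 (ell k) ((le_max_left _ _).trans hTge)
  set T := ell k with hTdef
  have hT1 : 1 ≤ T := (le_max_right _ _).trans hTge
  have hT0' : 0 < T := by linarith
  have hT3 : 1 ≤ T ^ 3 := one_le_pow₀ hT1
  -- powers of `k`
  have hkpow : ∀ a : ℝ, k ^ a = Real.exp (-(T * a)) := by
    intro a
    rw [hkT, ← Real.exp_mul]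
    congr 1
    ring
  -- small quantities
  have hs1 : 4 * d * Real.exp (-(T * (2 * κ))) * T ^ 3 ≤ T * ε := by
    have h1 : T ^ 3 * Real.exp (-(2 * κ * T)) ≤ ε / (4 * d + 1) := hc1
    have h2 : -(T * (2 * κ)) = -(2 * κ * T) := by ring
    rw [h2]
    have h3 : 4 * d * (ε / (4 * d + 1)) ≤ ε := by
      rw [mul_div_assoc', div_le_iff₀ (by positivity)]
      nlinarith
    have h4 := mul_le_mul_of_nonneg_left h1 (by positivity : (0 : ℝ) ≤ 4 * d)
    nlinarith
  have hs2 : 4 * d * Real.exp (-(T / 8)) * T ^ 3 ≤ 1 := by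
    have h1 : T ^ 3 * Real.exp (-(1 / 8 * T)) ≤ 1 / (4 * d + 1) := hc2
    have h2 : -(T / 8) = -(1 / 8 * T) := by ring
    rw [h2]
    have h3 : 4 * (d : ℝ) * (1 / (4 * d + 1)) ≤ 1 := by
      rw [mul_div_assoc', div_le_iff₀ (by positivity)]
      nlinarith
    have h4 := mul_le_mul_of_nonneg_left h1 (by positivity : (0 : ℝ) ≤ 4 * d)
    nlinarith
  have hs3 : 3 * (1 + T ^ 3) ≤ Real.exp (T * ε) := by
    have h1 : T ^ 3 * Real.exp (-(ε * T)) ≤ 1 / 6 := hc3
    have h2 : Real.exp (-(ε * T)) * Real.exp (T * ε) = 1 := by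
      rw [← Real.exp_add, ← Real.exp_zero]
      congr 1
      ring
    have h3 := mul_le_mul_of_nonneg_right h1 (Real.exp_pos (T * ε)).le
    rw [mul_assoc, h2, mul_one] at h3
    linarith
  have hs4 : 4 * d * Real.exp (-(T / 2)) ≤ 1 := by
    have h1 : Real.exp (-(T / 2)) ≤ Real.exp (-(T / 8)) := Real.exp_le_exp.mpr (by linarith)
    have h2 : Real.exp (-(T / 8)) ≤ Real.exp (-(T / 8)) * T ^ 3 := by
      have := (Real.exp_pos (-(T / 8))).le
      nlinarith
    have h3 := mul_le_mul_of_nonneg_left (h1.trans h2) (by positivity : (0 : ℝ) ≤ 4 * d)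
    linarith
  -- the window factor
  have hwin : ∀ i, i < J → ∀ l, l ≤ nw →
      (1 + 4 * d * Real.exp (-(T * (2 * κ))) * h) ^ l ≤ Real.exp (T * ε) := by
    intro i hi l hl
    refine (Up2_pow _ (by positivity) l).trans (Real.exp_le_exp.mpr ?_)
    have h1 : (l : ℝ) * h ≤ T ^ 3 := by
      refine le_trans ?_ hJh
      apply mul_le_mul_of_nonneg_right _ hh.le
      have h2 : l ≤ J * nw := by
        calc l ≤ 1 * nw := by omega
          _ ≤ J * nw := Nat.mul_le_mul_right nw (by omega)
      exact_mod_cast h2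
    have h3 := mul_le_mul_of_nonneg_left h1
      (by positivity : (0 : ℝ) ≤ 4 * d * Real.exp (-(T * (2 * κ))))
    calc (l : ℝ) * (4 * d * Real.exp (-(T * (2 * κ))) * h)
        = 4 * d * Real.exp (-(T * (2 * κ))) * (l * h) := by ring
      _ ≤ 4 * d * Real.exp (-(T * (2 * κ))) * T ^ 3 := h3
      _ ≤ T * ε := hs1
  set Fq := (ballM d L y R).mfq (1 - 4 * κ) X (gwin y R g nw) with hFq
  have hFq0 : ∀ i x, Fq i x ≤ 0 := fun i x => mfq_nonpos (ballM d L y R) _ X hX _ i x
  -- main claim
  have main : ∀ i, i ≤ J →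
      (∀ x : Bl d L y R, u (i * nw) x.1 ≤ Real.exp (T * (Fq i x + i * ε + εc)) +
        Up2_O T h y R g (i * nw) x.1) ∧
      (∀ v, R < (boxNet d L).dist y v → u (i * nw) v ≤ Up2_O T h y R g (i * nw) v) := by
    intro i
    induction i with
    | zero =>
      intro _
      constructor
      · intro x
        have h1 := hin x
        have h2 := Up2_O_nonneg T h hh y R g (0 * nw) x.1
        have h3 : Fq 0 x = X x := rfl
        rw [h3]
        have h4 : T * (X x + ((0 : ℕ) : ℝ) * ε + εc) = T * (X x + εc) := by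
          push_cast
          ring
        rw [h4, Nat.zero_mul]
        rw [Nat.zero_mul] at h2
        linarith
      · intro v hv
        have h1 := hout v hv
        rw [Nat.zero_mul]
        refine h1.trans (le_of_eq ?_)
        unfold Up2_O Up2_HO
        simp only [Nat.cast_zero, zero_mul, add_zero, pow_zero, mul_one, one_mul]
        show _ = Real.exp (T * ((0 : ℝ) + _))
        rw [zero_add]
    | succ i ih =>
      intro hiJ
      have hi : i < J := hiJ
      obtain ⟨ih1, ih2⟩ := ih (by omega)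
      -- window quantities
      set H : boxS d L → ℝ := fun x => if hx : (boxNet d L).dist y x ≤ R then
        (ballM d L y R).Rq (1 - 4 * κ) (Fq i) ⟨x, hx⟩ + i * ε + εc else 0 with hHdef
      set s : ℕ → boxS d L → ℝ := fun l x => ∑ j ∈ Finset.Ico (i * nw) (i * nw + l), g j x with hsdef
      have hH : ∀ (x : boxS d L) (hx : (boxNet d L).dist y x ≤ R),
          H x = (ballM d L y R).Rq (1 - 4 * κ) (Fq i) ⟨x, hx⟩ + i * ε + εc := by
        intro x hx
        rw [hHdef]
        exact dif_pos hx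
      have hs : ∀ w, (boxNet d L).dist y w ≤ R → ∀ m, m ≤ nw → |s m w| ≤ κ := by
        intro w hw m hm
        have := hblk ⟨w, hw⟩ i hi 0 m (Nat.zero_le _) hm
        simpa [hsdef] using this
      have hsucc : ∀ l x, s (l + 1) x - s l x = g (i * nw + l) x := by
        intro l x
        show ∑ j ∈ Finset.Ico (i * nw) (i * nw + (l + 1)), g j x -
          ∑ j ∈ Finset.Ico (i * nw) (i * nw + l), g j x = _
        rw [← add_assoc, Finset.sum_Ico_succ_top (by omega)]
        ring
      have hHlip : ∀ x, (boxNet d L).dist y x ≤ R → ∀ w ∈ (boxNet d L).nb x,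
          (boxNet d L).dist y w ≤ R → H w ≤ H x + (1 - 4 * κ) := by
        intro x hx w hw hwR
        rw [hH x hx, hH w hwR]
        have h1 := Rq_lip (ballM d L y R) (1 - 4 * κ) (by linarith) (Fq i) ⟨w, hwR⟩ ⟨x, hx⟩
        have h2 : (ballM d L y R).dd ⟨w, hwR⟩ ⟨x, hx⟩ = 1 := by
          show (boxNet d L).dist w x = 1
          rw [(boxNet d L).dist_comm]
          exact (boxNet d L).dist_nb x w hw
        rw [h2] at h1
        push_cast at h1
        linarith
      have hHle : ∀ x, (boxNet d L).dist y x ≤ R → H x ≤ i * ε + εc := by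
        intro x hx
        rw [hH x hx]
        have h1 : (ballM d L y R).Rq (1 - 4 * κ) (Fq i) ⟨x, hx⟩ ≤ 0 := by
          apply Rq_le
          intro z
          have h2 := hFq0 i z
          have h3 : 0 ≤ (1 - 4 * κ) * ((ballM d L y R).dd ⟨x, hx⟩ z : ℝ) :=
            mul_nonneg (by linarith) (Nat.cast_nonneg _)
          linarith
        linarith
      -- bound of the local part
      have hIle : ∀ l, l ≤ nw → ∀ x, Up2_I T h κ y R H s l x ≤ Real.exp (T / 2) := by
        intro l hl x
        unfold Up2_I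
        split_ifs with hx
        · have h1 := hwin i hi l hl
          have h2 := hHle x hx
          have h3 := abs_le.mp (hs x hx l hl)
          calc (1 + 4 * d * Real.exp (-(T * (2 * κ))) * h) ^ l * Real.exp (T * (H x + s l x))
              ≤ Real.exp (T * ε) * Real.exp (T * (H x + s l x)) :=
                mul_le_mul_of_nonneg_right h1 (Real.exp_pos _).le
            _ = Real.exp (T * (ε + (H x + s l x))) := by
                rw [← Real.exp_add]
                congr 1
                ring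
            _ ≤ Real.exp (T * (1 / 2)) := by
                apply Real.exp_le_exp.mpr
                apply mul_le_mul_of_nonneg_left _ hT0'.le
                have h4 : ((i : ℝ) + 1) * ε ≤ (J : ℝ) * ε := by
                  apply mul_le_mul_of_nonneg_right _ hε.le
                  exact_mod_cast hiJ
                linarith [h3.2]
            _ = Real.exp (T / 2) := by
                congr 1
                ring
        · exact (Real.exp_pos _).le
      -- window induction
      have win : ∀ l, l ≤ nw → ∀ x, u (i * nw + l) x ≤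
          Up2_I T h κ y R H s l x + Up2_O T h y R g (i * nw + l) x := by
        intro l
        induction l with
        | zero =>
          intro _ x
          rw [add_zero]
          by_cases hx : (boxNet d L).dist y x ≤ R
          · have h1 := ih1 ⟨x, hx⟩
            have h2 : Real.exp (T * (Fq i ⟨x, hx⟩ + i * ε + εc)) ≤ Up2_I T h κ y R H s 0 x := by
              unfold Up2_I
              rw [if_pos hx, pow_zero, one_mul]
              apply Real.exp_le_exp.mpr
              apply mul_le_mul_of_nonneg_left _ hT0'.le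
              have h3 : s 0 x = 0 := by
                show ∑ j ∈ Finset.Ico (i * nw) (i * nw + 0), g j x = 0
                rw [add_zero, Finset.Ico_self, Finset.sum_empty]
              rw [h3, hH x hx]
              have h4 := le_Rq (ballM d L y R) (1 - 4 * κ) (Fq i) ⟨x, hx⟩ ⟨x, hx⟩
              rw [(ballM d L y R).dd_self] at h4
              push_cast at h4
              linarith
            linarith
          · have h1 := ih2 x (not_le.mp hx)
            have h2 := Up2_I_nonneg T h κ hh y R H s 0 x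
            linarith
        | succ l ihl =>
          intro hl x
          have hl' : l ≤ nw := by omega
          have ihl' := ihl hl'
          have hO := Up2_O_step T h hT0' hh y R g (i * nw + l) x
          have h1 := hstep (i * nw + l) x
          have h2 : cpl (boxNet d L) (u (i * nw + l)) x ≤
              cpl (boxNet d L) (Up2_I T h κ y R H s l) x +
                cpl (boxNet d L) (Up2_O T h y R g (i * nw + l)) x := by
            rw [← Up2_cpl_add]
            exact Up2_cpl_mono _ _ ihl' x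
          have h3 := mul_le_mul_of_nonneg_left (ihl' x) (Real.exp_pos (T * g (i * nw + l) x)).le
          have h4 := mul_le_mul_of_nonneg_left h2 (by positivity : 0 ≤ k * h)
          have h5 : 0 ≤ h * Real.exp (T * Up2_HO y R x) := by positivity
          rw [← hkT] at hO
          by_cases hx : (boxNet d L).dist y x ≤ R
          · have hI := Up2_I_step T h κ hT0' hh hκ hκ1 y R H s nw l hl x hx (hHlip x hx) hs
            rw [hsucc, ← hkT] at hI
            show u (i * nw + l + 1) x ≤ Up2_I T h κ y R H s (l + 1) x +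
              Up2_O T h y R g (i * nw + l + 1) x
            linarith
          · -- outside of the ball
            have hI0 : Up2_I T h κ y R H s l x = 0 := by
              unfold Up2_I
              rw [if_neg hx]
            have hI1 := Up2_I_nonneg T h κ hh y R H s (l + 1) x
            have h6 : cpl (boxNet d L) (Up2_I T h κ y R H s l) x ≤ 4 * d * Real.exp (T / 2) :=
              Up2_cpl_le _ x _ (Real.exp_pos _).le (fun w _ => hIle l hl' w) (hIle l hl' x)
            have h7 : k * cpl (boxNet d L) (Up2_I T h κ y R H s l) x ≤ 1 := by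
              have h8 := mul_le_mul_of_nonneg_left h6 hk.le
              refine h8.trans (le_trans (le_of_eq ?_) hs4)
              have h9 : Real.exp (-(T / 2)) = k * Real.exp (T / 2) := by
                rw [hkT, ← Real.exp_add]
                congr 1
                ring
              rw [h9]
              ring
            have h8 : 1 ≤ Real.exp (T * Up2_HO y R x) := by
              apply Real.one_le_exp
              apply mul_nonneg hT0'.le
              have h9 : (R : ℝ) < (boxNet d L).dist y x := by exact_mod_cast not_le.mp hx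
              unfold Up2_HO
              linarith
            have h9 : k * h * cpl (boxNet d L) (Up2_I T h κ y R H s l) x ≤
                h * Real.exp (T * Up2_HO y R x) := by
              have h10 := mul_le_mul_of_nonneg_left (h7.trans h8) hh.le
              linarith
            rw [hI0] at h3
            show u (i * nw + l + 1) x ≤ Up2_I T h κ y R H s (l + 1) x +
              Up2_O T h y R g (i * nw + l + 1) x
            linarith
      have hidx : (i + 1) * nw = i * nw + nw := by ring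
      constructor
      · intro x
        have h1 := win nw (le_refl _) x.1
        have h2 := hcap x (i + 1) hiJ
        have h3 := Up2_O_nonneg T h hh y R g (i * nw + nw) x.1
        rw [hidx] at h2 ⊢
        have h4 : Fq (i + 1) x = min 0 ((ballM d L y R).Rq (1 - 4 * κ) (Fq i) x +
            gwin y R g nw i x) := rfl
        rw [h4]
        rcases min_choice (0 : ℝ) ((ballM d L y R).Rq (1 - 4 * κ) (Fq i) x + gwin y R g nw i x) with
          h5 | h5
        · rw [h5]
          have h6 : k ^ (-εc) ≤ Real.exp (T * (0 + ((i + 1 : ℕ) : ℝ) * ε + εc)) := by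
            rw [hkpow]
            apply Real.exp_le_exp.mpr
            have h7 : 0 ≤ T * (((i + 1 : ℕ) : ℝ) * ε) := by positivity
            linarith
          linarith
        · rw [h5]
          have h6 : Up2_I T h κ y R H s nw x.1 ≤ Real.exp (T * ((ballM d L y R).Rq (1 - 4 * κ)
              (Fq i) x + gwin y R g nw i x + ((i + 1 : ℕ) : ℝ) * ε + εc)) := by
            unfold Up2_I
            rw [if_pos x.2, hH x.1 x.2]
            have h7 : s nw x.1 = gwin y R g nw i x := by
              show ∑ j ∈ Finset.Ico (i * nw) (i * nw + nw), g j x.1 =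
                ∑ l ∈ Finset.range nw, g (i * nw + l) x.1
              rw [Finset.sum_Ico_eq_sum_range]
              congr 1
              rw [Nat.add_sub_cancel_left]
            rw [h7]
            have h8 := hwin i hi nw (le_refl _)
            refine (mul_le_mul_of_nonneg_right h8 (Real.exp_pos _).le).trans ?_
            rw [← Real.exp_add]
            apply Real.exp_le_exp.mpr
            push_cast
            have h9 : (⟨x.1, x.2⟩ : Bl d L y R) = x := rfl
            rw [h9]
            apply le_of_eq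
            ring
          linarith
      · intro v hv
        have h1 := win nw (le_refl _) v
        rw [hidx]
        have h2 : Up2_I T h κ y R H s nw v = 0 := by
          unfold Up2_I
          rw [if_neg (not_le.mpr hv)]
        linarith
  -- conclusion
  intro i hi x
  have h1 := (main i hi).1 x
  refine h1.trans ?_
  have h2 : Up2_O T h y R g (i * nw) x.1 ≤
      k ^ (-ε) * Real.exp (T * ((boxMSet d L).lpp (1 / 8) (fun _ => 0) g (i * nw) x.1 +
        1 + 3 / 4 * ((boxNet d L).dist y x.1 - R))) := by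
    unfold Up2_O Up2_HO
    have h3 : T * ((boxMSet d L).lpp (1 / 8) (fun _ => 0) g (i * nw) x.1 +
        (1 + 3 / 4 * (((boxNet d L).dist y x.1 : ℝ) - R))) =
        T * ((boxMSet d L).lpp (1 / 8) (fun _ => 0) g (i * nw) x.1 +
        1 + 3 / 4 * ((boxNet d L).dist y x.1 - R)) := by ring
    rw [h3]
    apply mul_le_mul_of_nonneg_right _ (Real.exp_pos _).le
    have h4 : ((i * nw : ℕ) : ℝ) * h ≤ T ^ 3 := by
      refine le_trans ?_ hJh
      apply mul_le_mul_of_nonneg_right _ hh.le
      exact_mod_cast Nat.mul_le_mul_right nw hi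
    have h5 : (1 + 4 * d * Real.exp (-(T / 8)) * h) ^ (i * nw) ≤ 3 := by
      refine (Up2_pow _ (by positivity) (i * nw)).trans ?_
      have h6 : ((i * nw : ℕ) : ℝ) * (4 * d * Real.exp (-(T / 8)) * h) ≤ 1 := by
        have h7 := mul_le_mul_of_nonneg_left h4
          (by positivity : (0 : ℝ) ≤ 4 * d * Real.exp (-(T / 8)))
        calc ((i * nw : ℕ) : ℝ) * (4 * d * Real.exp (-(T / 8)) * h)
            = 4 * d * Real.exp (-(T / 8)) * (((i * nw : ℕ) : ℝ) * h) := by ring
          _ ≤ 4 * d * Real.exp (-(T / 8)) * T ^ 3 := h7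
          _ ≤ 1 := hs2
      refine (Real.exp_le_exp.mpr h6).trans ?_
      have := Real.exp_one_lt_d9
      linarith
    have h6 : k ^ (-ε) = Real.exp (T * ε) := by
      rw [hkpow]
      congr 1
      ring
    rw [h6]
    calc (1 + ((i * nw : ℕ) : ℝ) * h) * (1 + 4 * d * Real.exp (-(T / 8)) * h) ^ (i * nw)
        ≤ (1 + T ^ 3) * 3 := by
          apply mul_le_mul (by linarith) h5 (by positivity) (by positivity)
      _ ≤ Real.exp (T * ε) := by linarith
  linarith

end DynC
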