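import Pool.Agent.Lib_MP_36b788c.OL3
import Pool.Agent.Lib_MP_36b788c.CUp
import Pool.Agent.Lib_MP_36b788c.Q2
import Pool.Agent.Lib_MP_36b788c.Osc

/-!
# One window, `N ≥ 3`

PROOF.
* `tr_path`: as `traj_law` (induction on `n`, `lintegral_cons`), with `marg1`.
* `bsum3`: block sums of `b` at one site: `P(∃ i ≤ j ≤ n, κ ell < |Σ_{[i,j)} b_l x|) ≤ k^c` for `n h ≤ σ ell + 1`, `σ ≤ σ0(κ)`: on the event that all noise at `x` is good replace `b` by `b 1_{gd}`; `max_ineq` with `φ = ± b 1_{gd}`, `s = 1`, `E e^{±b 1_{gd}} ≤ exp((|λ| + 1) h)` (`mgf`, `tail`): `P(max_m ± Σ_{l<m} b ≥ κ ell/2) ≤ exp(-κ ell/2 + (|λ|+1)(σ ell + 1))`; `|Σ_{[i,j)}| ≤ osc`.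
* `wl3`: as `wl2`. `S` a pair system over `Fam1 N d β k`; the law of `(tr (G,G') ω j).1`, `j ≤ n`, is that of `traj (Fam1.st)` (`tr_path`) and of the matrix chain (`traj_law`, `law3`). `catch_up` and `ol3` for the matrix chain: outside probability `k^c` either `‖G_n x‖ ≥ k^{2e+ε/4+m+e'} e^{λ(n-N)h} ‖G z‖ ≥ k^{ε+m} e^{λ n h}‖G z‖` or some `j0 ∈ [N,n]` has `‖G_{j0} x‖ ≥ k^κ`.
The event {some `‖G_{j0} x‖ ≥ k^κ` and `‖G_n x‖ < k^{3κ}`} in the system `S`: outside {some bad noise} (`≤ |box| n h³`), `bsum3`, and for `y` with `dist x y ≤ 1` {∃ j ≤ n, k^{-1/8} ≤ Σ_v k^{(7/8) dist y v}‖G_j v‖} (`cap_max`, weights `w v = k^{(7/8) dist y v}`, `k cpl w ≤ 4d k^{1/8} w`; `H v ≤ 1/16 + (3/4) dist y v`, so `Σ_v w v k^{-H v} ≤ k^{-1/16} Σ_v k^{dist y v/8} ≤ C k^{-1/16}`; probability `≤ e^{(C+1)(σ ell+1)} C k^{-1/16} k^{1/8} ≤ k^{1/32}` for small `σ0`), `q2_low` applies (`q1` gives `QStep`; `‖G_j y‖ ≤ k^{-1/8}` for `dist x y ≤ 1`), contradiction.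
-/

open MeasureTheory ProbabilityTheory
open scoped ENNReal

namespace DynC

open Dyn

variable {d : ℕ}

section WL3_path

variable {St1 St2 X1 X2 : Type} [MeasurableSpace St1] [MeasurableSpace St2]
  [MeasurableSpace X1] [MeasurableSpace X2]

private theorem WL3_meas_cons {X : Type} [MeasurableSpace X] :
    Measurable (fun p : X × (ℕ → X) => (fun i : ℕ => (Nat.casesOn i p.1 p.2 : X))) := by
  rw [measurable_pi_iff]
  intro i
  cases i with
  | zero => exact measurable_fst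
  | succ i => exact (measurable_pi_apply i).comp measurable_snd

private theorem WL3_traj_cons {St X : Type} (f : St → X → St) (s : St) (a : X) (b : ℕ → X)
    (j : ℕ) : traj f s (fun i => Nat.casesOn i a b) (j + 1) = traj f (f s a) b j := by
  induction j with
  | zero => rfl
  | succ j ih =>
    show f (traj f s (fun i => Nat.casesOn i a b) (j + 1)) (b j) = f (traj f (f s a) b j) (b j)
    rw [ih]

private theorem WL3_meas_seq {St X : Type} [MeasurableSpace St] [MeasurableSpace X]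
    (f : St → X → St) (hf : Measurable (fun p : St × X => f p.1 p.2)) :
    Measurable (fun p : St × (ℕ → X) => traj f p.1 p.2) := by
  rw [measurable_pi_iff]
  intro n
  exact measurable_traj f hf n

private theorem WL3_path (μ1 : Measure X1) [IsProbabilityMeasure μ1] (μ2 : Measure X2)
    [IsProbabilityMeasure μ2] (f1 : St1 → X1 → St1) (f2 : St2 → X2 → St2)
    (h1 : Measurable fun p : St1 × X1 => f1 p.1 p.2)
    (h2 : Measurable fun p : St2 × X2 => f2 p.1 p.2) (q : St1 → St2) (hq : Measurable q)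
    (h : ∀ s, μ1.map (fun x => q (f1 s x)) = μ2.map (f2 (q s))) (n : ℕ) :
    ∀ (Φ : (ℕ → St2) → ℝ≥0∞), Measurable Φ → Dep n Φ → ∀ s : St1,
      ∫⁻ ω, Φ (fun j => q (traj f1 s ω j)) ∂(PI μ1) = ∫⁻ ω, Φ (traj f2 (q s) ω) ∂(PI μ2) := by
  induction n with
  | zero =>
    intro Φ hΦ hd s
    have hc : ∀ a : ℕ → St2, Φ a = Φ (fun _ => q s) := fun a => hd _ _ (fun i hi => by omega)
    have e1 : ∀ ω, Φ (fun j => q (traj f1 s ω j)) = Φ (fun _ => q s) := fun ω => hc _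
    have e2 : ∀ ω, Φ (traj f2 (q s) ω) = Φ (fun _ => q s) := fun ω => hc _
    simp_rw [e1, e2]
    simp
  | succ n ih =>
    intro Φ hΦ hd s
    have hms1 : Measurable fun ω : ℕ → X1 => Φ (fun j => q (traj f1 s ω j)) := by
      refine hΦ.comp ?_
      rw [measurable_pi_iff]
      intro j
      exact hq.comp ((measurable_traj f1 h1 j).comp (measurable_const.prodMk measurable_id))
    have hms2 : Measurable fun ω : ℕ → X2 => Φ (traj f2 (q s) ω) :=
      hΦ.comp ((WL3_meas_seq f2 h2).comp (measurable_const.prodMk measurable_id))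
    rw [lintegral_cons _ hms1, lintegral_cons _ hms2]
    set Φ' : (ℕ → St2) → ℝ≥0∞ := fun t => Φ (fun j => Nat.casesOn j (q s) t) with hΦ'
    have hΦ'm : Measurable Φ' :=
      hΦ.comp (WL3_meas_cons.comp (measurable_const.prodMk measurable_id))
    have hΦ'd : Dep n Φ' := by
      intro a b hab
      refine hd _ _ ?_
      intro i hi
      cases i with
      | zero => rfl
      | succ i => exact hab i (by omega)
    have e1 : ∀ (a : X1) (ω : ℕ → X1),
        Φ (fun j => q (traj f1 s (fun i => Nat.casesOn i a ω) j)) =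
        Φ' (fun j => q (traj f1 (f1 s a) ω j)) := by
      intro a ω
      show Φ _ = Φ _
      congr 1
      funext j
      cases j with
      | zero => rfl
      | succ j => exact congrArg q (WL3_traj_cons f1 s a ω j)
    have e2 : ∀ (a : X2) (ω : ℕ → X2),
        Φ (traj f2 (q s) (fun i => Nat.casesOn i a ω)) = Φ' (traj f2 (f2 (q s) a) ω) := by
      intro a ω
      show Φ _ = Φ _
      congr 1
      funext j
      cases j with
      | zero => rfl
      | succ j => exact WL3_traj_cons f2 (q s) a ω j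
    simp_rw [e1, e2]
    have hΨ : Measurable fun t : St2 => ∫⁻ ω, Φ' (traj f2 t ω) ∂(PI μ2) :=
      Measurable.lintegral_prod_right' (f := fun p : St2 × (ℕ → X2) => Φ' (traj f2 p.1 p.2))
        (hΦ'm.comp (WL3_meas_seq f2 h2))
    have hg1 : Measurable fun x => q (f1 s x) :=
      hq.comp (h1.comp (measurable_const.prodMk measurable_id))
    have hg2 : Measurable (f2 (q s)) := h2.comp (measurable_const.prodMk measurable_id)
    calc ∫⁻ a, ∫⁻ ω, Φ' (fun j => q (traj f1 (f1 s a) ω j)) ∂(PI μ1) ∂μ1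
        = ∫⁻ a, (fun t : St2 => ∫⁻ ω, Φ' (traj f2 t ω) ∂(PI μ2)) (q (f1 s a)) ∂μ1 :=
          lintegral_congr fun a => ih Φ' hΦ'm hΦ'd _
      _ = ∫⁻ t, (∫⁻ ω, Φ' (traj f2 t ω) ∂(PI μ2)) ∂(μ1.map (fun x => q (f1 s x))) := by
          exact (lintegral_map hΨ hg1).symm
      _ = ∫⁻ t, (∫⁻ ω, Φ' (traj f2 t ω) ∂(PI μ2)) ∂(μ2.map (f2 (q s))) := by rw [h s]
      _ = ∫⁻ a, ∫⁻ ω, Φ' (traj f2 (f2 (q s) a) ω) ∂(PI μ2) ∂μ2 := by
          exact lintegral_map hΨ hg2

end WL3_path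

/-- the first component has the path law of the chain -/
theorem tr_path {F : Fam d} {β k : ℝ} (S : PSys F β k) (h : ℝ) (L : ℕ)
    (G : (boxS d L → F.V) × (boxS d L → F.V)) (n : ℕ) (Φ : (ℕ → boxS d L → F.V) → ℝ≥0∞)
    (hΦ : Measurable Φ) (hd : Dep n Φ) :
    ∫⁻ ω, Φ (fun j => (S.tr h L G ω j).1) ∂(PI (S.mu L)) =
        ∫⁻ ω, Φ (traj (F.st h L) G.1 ω) ∂(PI (F.mu L)) ∧
      ∫⁻ ω, Φ (fun j => (S.tr h L G ω j).2) ∂(PI (S.mu L)) =
        ∫⁻ ω, Φ (traj (F.st h L) G.2 ω) ∂(PI (F.mu L)) := by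
  constructor
  · exact WL3_path (S.mu L) (F.mu L) (S.st h L) (F.st h L) (S.mst h L) (F.mst h L)
      Prod.fst measurable_fst (fun s => S.marg1 h L s) n Φ hΦ hd G
  · exact WL3_path (S.mu L) (F.mu L) (S.st h L) (F.st h L) (S.mst h L) (F.mst h L)
      Prod.snd measurable_snd (fun s => S.marg2 h L s) n Φ hΦ hd G


section WL3_num

private theorem WL3_ell_exp {k : ℝ} (hk : 0 < k) (a : ℝ) :
    Real.exp (a * ell k) = k ^ (-a) := by
  unfold ell
  rw [Real.rpow_def_of_pos hk, one_div, Real.log_inv]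
  congr 1
  ring

private theorem WL3_rpow_small (a M : ℝ) (ha : 0 < a) (hM : 0 < M) :
    ∀ᶠ k : ℝ in nhdsWithin 0 (Set.Ioi 0), k ^ a ≤ M := by
  have h1 : Filter.Tendsto (fun k : ℝ => k ^ a) (nhds 0) (nhds (0 ^ a)) :=
    (Real.continuousAt_rpow_const 0 a (Or.inr ha.le)).tendsto
  rw [Real.zero_rpow ha.ne'] at h1
  have h2 := (h1.mono_left (nhdsWithin_le_nhds (s := Set.Ioi 0))).eventually (gt_mem_nhds hM)
  exact h2.mono fun k hk => hk.le

private theorem WL3_ext {p : ℝ → Prop} (h : ∀ᶠ k : ℝ in nhdsWithin 0 (Set.Ioi 0), p k) :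
    ∃ k0 : ℝ, 0 < k0 ∧ k0 < 1 ∧ ∀ k, 0 < k → k < k0 → p k := by
  rw [eventually_nhdsWithin_iff, Metric.eventually_nhds_iff] at h
  obtain ⟨r, hr, h⟩ := h
  refine ⟨min r (1 / 2), by positivity, lt_of_le_of_lt (min_le_right _ _) (by norm_num),
    fun k hk hkr => ?_⟩
  exact h (by rw [Real.dist_eq, sub_zero, abs_of_pos hk]; exact hkr.trans_le (min_le_left _ _)) hk

end WL3_num

/-- probability of some bad noise -/
private theorem WL3_bad {X : Type} [MeasurableSpace X] (μ : Measure X) [IsProbabilityMeasure μ]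
    (s : Set X) (hs : MeasurableSet s) (p : ℝ≥0∞) (hp : μ sᶜ ≤ p) (n : ℕ) :
    PI μ {ω | ∃ l, l < n ∧ ω l ∉ s} ≤ n * p := by
  have hsub : {ω : ℕ → X | ∃ l, l < n ∧ ω l ∉ s} ⊆
      ⋃ l ∈ Finset.range n, {ω : ℕ → X | ω l ∈ sᶜ} := by
    rintro ω ⟨l, hl, hl2⟩
    simp only [Set.mem_iUnion]
    exact ⟨l, Finset.mem_range.2 hl, hl2⟩
  calc PI μ {ω | ∃ l, l < n ∧ ω l ∉ s} ≤ PI μ (⋃ l ∈ Finset.range n, {ω : ℕ → X | ω l ∈ sᶜ}) :=
        measure_mono hsub
    _ ≤ ∑ l ∈ Finset.range n, PI μ {ω : ℕ → X | ω l ∈ sᶜ} := measure_biUnion_finset_le _ _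
    _ ≤ ∑ l ∈ Finset.range n, p := by
        refine Finset.sum_le_sum fun l _ => ?_
        have e1 : PI μ {ω : ℕ → X | ω l ∈ sᶜ} = μ sᶜ := by
          conv_rhs => rw [← map_coord (μ := μ) l]
          rw [Measure.map_apply (measurable_pi_apply l) hs.compl]
          rfl
        rw [e1]
        exact hp
    _ = n * p := by rw [Finset.sum_const, Finset.card_range, nsmul_eq_mul]

/-- moment generating function of the truncated noise -/
private theorem WL3_mgf (N : ℕ) {Ω0 : Type} [MeasurableSpace Ω0] (ν : Measure Ω0)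
    [IsProbabilityMeasure ν] (b : ℝ → Ω0 → ℝ) (gd : ℝ → Set Ω0) (hB : BNoise N ν b gd)
    (hb : ∀ h, Measurable (b h)) (hg : ∀ h, MeasurableSet (gd h)) :
    ∃ h0 : ℝ, 0 < h0 ∧ h0 < 1 ∧ ∀ h, 0 < h → h < h0 →
      ν (gd h)ᶜ ≤ ENNReal.ofReal (h ^ 3) ∧ ∀ s : ℝ, |s| = 1 →
        ∫⁻ a, ENNReal.ofReal (Real.exp (s * (gd h).indicator (b h) a)) ∂ν ≤
          ENNReal.ofReal (Real.exp ((|lamN N| + 2) * h)) := by
  obtain ⟨h1, hh1, ht⟩ := hB.tail
  obtain ⟨h2, hh2, hm⟩ := hB.mgf 1 (1 / 2) one_pos (by norm_num)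
  refine ⟨min (min h1 h2) (1 / 2), by positivity,
    lt_of_le_of_lt (min_le_right _ _) (by norm_num), fun h hh hlt => ?_⟩
  have hl1 : h < h1 := hlt.trans_le ((min_le_left _ _).trans (min_le_left _ _))
  have hl2 : h < h2 := hlt.trans_le ((min_le_left _ _).trans (min_le_right _ _))
  have hl3 : h < 1 := (hlt.trans_le (min_le_right _ _)).trans (by norm_num)
  refine ⟨ht h hh hl1, fun s hs => ?_⟩
  rw [← lintegral_add_compl _ (hg h)]
  have e1 : ∫⁻ a in gd h, ENNReal.ofReal (Real.exp (s * (gd h).indicator (b h) a)) ∂ν =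
      ∫⁻ a in gd h, ENNReal.ofReal (Real.exp (s * b h a)) ∂ν := by
    refine setLIntegral_congr_fun (hg h) ?_
    intro a ha
    simp only [Set.indicator_of_mem ha]
  have e2 : ∫⁻ a in (gd h)ᶜ, ENNReal.ofReal (Real.exp (s * (gd h).indicator (b h) a)) ∂ν =
      ∫⁻ _a in (gd h)ᶜ, 1 ∂ν := by
    refine setLIntegral_congr_fun (hg h).compl ?_
    intro a ha
    simp only [Set.indicator_of_notMem (show a ∉ gd h from ha), mul_zero, Real.exp_zero,
      ENNReal.ofReal_one]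
  rw [e1, e2, setLIntegral_const, one_mul]
  have hm1 := (hm h hh hl2 s hs.le).1
  have hs2 : s ^ 2 = 1 := by rw [← sq_abs, hs]; norm_num
  have hls : lamN N * s ≤ |lamN N| := by
    calc lamN N * s ≤ |lamN N * s| := le_abs_self _
      _ = |lamN N| := by rw [abs_mul, hs, mul_one]
  calc ∫⁻ a in gd h, ENNReal.ofReal (Real.exp (s * b h a)) ∂ν + ν (gd h)ᶜ
      ≤ ENNReal.ofReal (1 + (lamN N * s + s ^ 2 / 2 + 1 / 2) * h) + ENNReal.ofReal (h ^ 3) :=
        add_le_add hm1 (ht h hh hl1)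
    _ ≤ ENNReal.ofReal (1 + (|lamN N| + 1) * h) + ENNReal.ofReal (h ^ 3) := by
        refine add_le_add (ENNReal.ofReal_le_ofReal ?_) le_rfl
        rw [hs2]
        nlinarith
    _ = ENNReal.ofReal (1 + (|lamN N| + 1) * h + h ^ 3) := by
        exact (ENNReal.ofReal_add (by positivity) (by positivity)).symm
    _ ≤ ENNReal.ofReal (Real.exp ((|lamN N| + 2) * h)) := by
        refine ENNReal.ofReal_le_ofReal ?_
        have h3 : h ^ 3 ≤ h := by nlinarith [mul_pos hh hh]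
        have h4 := Real.add_one_le_exp ((|lamN N| + 2) * h)
        linarith

private theorem WL3_bsum (N : ℕ) (κ : ℝ) (hκ : 0 < κ) : ∃ σ0 c k0 : ℝ, 0 < σ0 ∧ 0 < c ∧
    0 < k0 ∧ k0 < 1 ∧
    ∀ (Ω0 : Type) [MeasurableSpace Ω0] (ν : Measure Ω0) [IsProbabilityMeasure ν]
      (b : ℝ → Ω0 → ℝ) (gd : ℝ → Set Ω0), BNoise N ν b gd → (∀ h, Measurable (b h)) →
      (∀ h, MeasurableSet (gd h)) →
    ∀ k, 0 < k → k < k0 → ∃ h0 : ℝ, 0 < h0 ∧ ∀ h, 0 < h → h < h0 →
    ∀ n : ℕ, n * h ≤ σ0 * ell k + 1 →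
      PI ν {ω | ∃ i j, i ≤ j ∧ j ≤ n ∧ κ * ell k < |∑ l ∈ Finset.Ico i j, b h (ω l)|} ≤
        ENNReal.ofReal (k ^ c) := by
  set Λ : ℝ := |lamN N| + 2 with hΛ
  have hΛ0 : 0 < Λ := by positivity
  obtain ⟨k0, hk0, hk01, hk⟩ := WL3_ext (WL3_rpow_small (κ / 4) (Real.exp (-Λ) / 4)
    (by positivity) (by positivity))
  refine ⟨κ / (8 * Λ), κ / 8, k0, by positivity, by positivity, hk0, hk01, ?_⟩
  intro Ω0 _ ν _ b gd hB hb hg k hk1 hk2
  have hkk := hk k hk1 hk2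
  have hell : 0 ≤ ell k := by
    unfold ell
    refine Real.log_nonneg ?_
    rw [one_le_div hk1]
    linarith
  obtain ⟨h1, hh1, hh11, hm⟩ := WL3_mgf N ν b gd hB hb hg
  have hkc : 0 < k ^ (κ / 8) := Real.rpow_pos_of_pos hk1 _
  have hden : 0 < κ / (8 * Λ) * ell k + 1 := by positivity
  refine ⟨min h1 (k ^ (κ / 8) / (2 * (κ / (8 * Λ) * ell k + 1))), by positivity, ?_⟩
  intro h hh hlt n hn
  have hl1 : h < h1 := hlt.trans_le (min_le_left _ _)
  have hl2 : h < k ^ (κ / 8) / (2 * (κ / (8 * Λ) * ell k + 1)) := hlt.trans_le (min_le_right _ _)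
  have hlt1 : h < 1 := hl1.trans hh11
  obtain ⟨htl, hmg⟩ := hm h hh hl1
  set φ : Ω0 → ℝ := (gd h).indicator (b h) with hφ
  have hφm : Measurable φ := (hb h).indicator (hg h)
  set w : ℝ := Λ * h with hw
  set y : ℝ := Real.exp (κ * ell k / 2 - n * w) with hy
  have hy0 : 0 < y := Real.exp_pos _
  have hA := max_ineq (μ := ν) φ hφm 1 w (hmg 1 (by norm_num)) n y hy0
  have hB' := max_ineq (μ := ν) φ hφm (-1) w (hmg (-1) (by norm_num)) n y hy0
  have hC := WL3_bad ν (gd h) (hg h) _ htl n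
  have hsub : {ω : ℕ → Ω0 | ∃ i j, i ≤ j ∧ j ≤ n ∧
      κ * ell k < |∑ l ∈ Finset.Ico i j, b h (ω l)|} ⊆
      ({ω | ∃ m, m ≤ n ∧ y ≤ Real.exp (1 * (∑ j ∈ Finset.range m, φ (ω j)) - m * w)} ∪
      {ω | ∃ m, m ≤ n ∧ y ≤ Real.exp (-1 * (∑ j ∈ Finset.range m, φ (ω j)) - m * w)}) ∪
      {ω | ∃ l, l < n ∧ ω l ∉ gd h} := by
    rintro ω ⟨i, j, hij, hj, hlt2⟩
    by_cases hgd : ∃ l, l < n ∧ ω l ∉ gd h
    · exact Or.inr hgd
    · left
      push Not at hgd
      have e1 : ∑ l ∈ Finset.Ico i j, b h (ω l) = ∑ l ∈ Finset.Ico i j, φ (ω l) := by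
        refine Finset.sum_congr rfl fun l hl => ?_
        have hln : l < n := lt_of_lt_of_le (Finset.mem_Ico.1 hl).2 hj
        rw [hφ, Set.indicator_of_mem (hgd l hln)]
      rw [e1, Finset.sum_Ico_eq_sub _ hij] at hlt2
      have key : ∀ (m : ℕ) (s : ℝ), m ≤ n →
          κ * ell k / 2 ≤ s * ∑ l ∈ Finset.range m, φ (ω l) →
          y ≤ Real.exp (s * (∑ j ∈ Finset.range m, φ (ω j)) - m * w) := by
        intro m s hm1 hs
        rw [hy]
        refine Real.exp_le_exp.2 ?_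
        have hw0 : 0 ≤ w := by positivity
        have hmn : (m : ℝ) ≤ n := by exact_mod_cast hm1
        nlinarith
      set P : ℕ → ℝ := fun m => ∑ l ∈ Finset.range m, φ (ω l) with hP
      have hlt3 : κ * ell k < |P j - P i| := hlt2
      rcases lt_abs.1 hlt3 with h5 | h5
      · by_cases h6 : κ * ell k / 2 ≤ P j
        · exact Or.inl ⟨j, hj, key j 1 hj (by rw [one_mul]; exact h6)⟩
        · push Not at h6
          refine Or.inr ⟨i, hij.trans hj, key i (-1) (hij.trans hj) ?_⟩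
          have : -1 * ∑ l ∈ Finset.range i, φ (ω l) = -P i := by rw [hP]; ring
          rw [this]
          linarith
      · by_cases h6 : κ * ell k / 2 ≤ P i
        · exact Or.inl ⟨i, hij.trans hj, key i 1 (hij.trans hj) (by rw [one_mul]; exact h6)⟩
        · push Not at h6
          refine Or.inr ⟨j, hj, key j (-1) hj ?_⟩
          have : -1 * ∑ l ∈ Finset.range j, φ (ω l) = -P j := by rw [hP]; ring
          rw [this]
          linarith
  have hinv : 1 / y ≤ k ^ (κ / 8) / 4 := by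
    have e1 : 1 / y = Real.exp (-(κ * ell k / 2) + n * w) := by
      rw [hy, one_div, ← Real.exp_neg]
      congr 1
      ring
    have e2 : (n : ℝ) * w ≤ κ / 8 * ell k + Λ := by
      have : (n : ℝ) * w = (n * h) * Λ := by rw [hw]; ring
      rw [this]
      calc (n * h) * Λ ≤ (κ / (8 * Λ) * ell k + 1) * Λ := by gcongr
        _ = κ / 8 * ell k + Λ := by field_simp
    have e3 : Real.exp (-(κ * ell k / 2) + n * w) ≤
        Real.exp (-(3 * κ / 8) * ell k) * Real.exp Λ := by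
      rw [← Real.exp_add]
      refine Real.exp_le_exp.2 ?_
      linarith
    have e4 : Real.exp (-(3 * κ / 8) * ell k) = k ^ (κ / 8) * k ^ (κ / 4) := by
      rw [WL3_ell_exp hk1, ← Real.rpow_add hk1]
      congr 1
      ring
    rw [e1]
    refine e3.trans ?_
    rw [e4]
    calc k ^ (κ / 8) * k ^ (κ / 4) * Real.exp Λ
        ≤ k ^ (κ / 8) * (Real.exp (-Λ) / 4) * Real.exp Λ := by gcongr
      _ = k ^ (κ / 8) / 4 * (Real.exp (-Λ) * Real.exp Λ) := by ring
      _ = k ^ (κ / 8) / 4 := by rw [← Real.exp_add]; simp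
  have hnb : (n : ℝ≥0∞) * ENNReal.ofReal (h ^ 3) ≤ ENNReal.ofReal (k ^ (κ / 8) / 2) := by
    rw [← ENNReal.ofReal_natCast n, ← ENNReal.ofReal_mul (by positivity)]
    refine ENNReal.ofReal_le_ofReal ?_
    have e1 : (n : ℝ) * h ^ 3 = (n * h) * h * h := by ring
    rw [e1]
    have h7 : h * (2 * (κ / (8 * Λ) * ell k + 1)) ≤ k ^ (κ / 8) := by
      rw [lt_div_iff₀ (by positivity)] at hl2
      exact hl2.le
    calc (n * h) * h * h ≤ (κ / (8 * Λ) * ell k + 1) * h * 1 := by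
          gcongr
      _ ≤ k ^ (κ / 8) / 2 := by linarith
  calc PI ν {ω : ℕ → Ω0 | ∃ i j, i ≤ j ∧ j ≤ n ∧
      κ * ell k < |∑ l ∈ Finset.Ico i j, b h (ω l)|}
      ≤ (ENNReal.ofReal (1 / y) + ENNReal.ofReal (1 / y)) + n * ENNReal.ofReal (h ^ 3) :=
        (measure_mono hsub).trans ((measure_union_le _ _).trans
          (add_le_add ((measure_union_le _ _).trans (add_le_add hA hB')) hC))
    _ ≤ (ENNReal.ofReal (k ^ (κ / 8) / 4) + ENNReal.ofReal (k ^ (κ / 8) / 4)) +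
        ENNReal.ofReal (k ^ (κ / 8) / 2) := by
        gcongr
    _ = ENNReal.ofReal (k ^ (κ / 8)) := by
        rw [← ENNReal.ofReal_add (by positivity) (by positivity),
          ← ENNReal.ofReal_add (by positivity) (by positivity)]
        congr 1
        ring

theorem bsum3 (N : ℕ) (κ : ℝ) (hκ : 0 < κ) : ∃ σ0 c : ℝ, 0 < σ0 ∧ 0 < c ∧
    ∀ (Ω0 : Type) [MeasurableSpace Ω0] (ν : Measure Ω0) [IsProbabilityMeasure ν]
      (b : ℝ → Ω0 → ℝ) (gd : ℝ → Set Ω0), BNoise N ν b gd → (∀ h, Measurable (b h)) →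
      (∀ h, MeasurableSet (gd h)) →
    ∃ k0 : ℝ, 0 < k0 ∧ k0 < 1 ∧ ∀ k, 0 < k → k < k0 → ∃ h0 : ℝ, 0 < h0 ∧ ∀ h, 0 < h → h < h0 →
    ∀ n : ℕ, n * h ≤ σ0 * ell k + 1 →
      PI ν {ω | ∃ i j, i ≤ j ∧ j ≤ n ∧ κ * ell k < |∑ l ∈ Finset.Ico i j, b h (ω l)|} ≤
        ENNReal.ofReal (k ^ c) := by
  obtain ⟨σ0, c, k0, h1, h2, h3, h4, h5⟩ := WL3_bsum N κ hκ
  exact ⟨σ0, c, h1, h2, fun Ω0 _ ν _ b gd hB hb hg => ⟨k0, h3, h4, h5 Ω0 ν b gd hB hb hg⟩⟩


private theorem WL3_PI_map {X Y : Type} [MeasurableSpace X] [MeasurableSpace Y] (μ : Measure X)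
    [IsProbabilityMeasure μ] (ν : Measure Y) [IsProbabilityMeasure ν] (φ : X → Y)
    (hφ : Measurable φ) (h : μ.map φ = ν) : (PI μ).map (fun ω i => φ (ω i)) = PI ν := by
  subst h
  exact PI_map φ hφ

private theorem WL3_cpl (d L : ℕ) (k a : ℝ) (hk : 0 < k) (hk1 : k < 1) (ha : 0 ≤ a)
    (x v : boxS d L) :
    cpl (boxNet d L) (fun v => k ^ (a * (boxNet d L).dist x v)) v ≤
      4 * d * k ^ (-a) * k ^ (a * (boxNet d L).dist x v) := by
  have h0 : 0 < k ^ (-a) * k ^ (a * ((boxNet d L).dist x v : ℝ)) := by positivity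
  have h1 : ∀ y ∈ (boxNet d L).nb v, k ^ (a * ((boxNet d L).dist x y : ℝ)) ≤
      k ^ (-a) * k ^ (a * ((boxNet d L).dist x v : ℝ)) := by
    intro y hy
    rw [← Real.rpow_add hk]
    refine Real.rpow_le_rpow_of_exponent_ge hk hk1.le ?_
    have h2 := (boxNet d L).dist_tri x y v
    have h3 := (boxNet d L).dist_nb v y hy
    rw [(boxNet d L).dist_comm] at h3
    have h4 : ((boxNet d L).dist x v : ℝ) ≤ (boxNet d L).dist x y + 1 := by
      rw [h3] at h2
      exact_mod_cast h2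
    nlinarith
  have h2 : k ^ (a * ((boxNet d L).dist x v : ℝ)) ≤
      k ^ (-a) * k ^ (a * ((boxNet d L).dist x v : ℝ)) := by
    have : 1 ≤ k ^ (-a) := Real.one_le_rpow_of_pos_of_le_one_of_nonpos hk hk1.le (by linarith)
    have h5 : 0 < k ^ (a * ((boxNet d L).dist x v : ℝ)) := by positivity
    nlinarith
  unfold cpl
  calc ∑ y ∈ (boxNet d L).nb v, k ^ (a * ((boxNet d L).dist x y : ℝ)) +
        (2 * d : ℕ) * k ^ (a * ((boxNet d L).dist x v : ℝ))
      ≤ ∑ y ∈ (boxNet d L).nb v, (k ^ (-a) * k ^ (a * ((boxNet d L).dist x v : ℝ))) +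
        (2 * d : ℕ) * (k ^ (-a) * k ^ (a * ((boxNet d L).dist x v : ℝ))) :=
        add_le_add (Finset.sum_le_sum h1) (mul_le_mul_of_nonneg_left h2 (by positivity))
    _ = (((boxNet d L).nb v).card : ℝ) * (k ^ (-a) * k ^ (a * ((boxNet d L).dist x v : ℝ))) +
        (2 * d : ℕ) * (k ^ (-a) * k ^ (a * ((boxNet d L).dist x v : ℝ))) := by
        rw [Finset.sum_const, nsmul_eq_mul]
    _ ≤ ((2 * d : ℕ) : ℝ) * (k ^ (-a) * k ^ (a * ((boxNet d L).dist x v : ℝ))) +
        (2 * d : ℕ) * (k ^ (-a) * k ^ (a * ((boxNet d L).dist x v : ℝ))) := by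
        have : (((boxNet d L).nb v).card : ℝ) ≤ ((2 * d : ℕ) : ℝ) := by
          exact_mod_cast (boxNet d L).nb_card v
        exact add_le_add (mul_le_mul_of_nonneg_right this h0.le) le_rfl
    _ = 4 * d * k ^ (-a) * k ^ (a * (boxNet d L).dist x v) := by
        push_cast
        ring

/-- a site that was high stays high, in probability -/
private theorem WL3_B2 (N d : ℕ) (β : ℝ) (hβ : 0 < β) (κ : ℝ) (hκ : 0 < κ) (hκ1 : κ ≤ 1 / 64) :
    ∃ σ0 c2 k0 : ℝ, 0 < σ0 ∧ 0 < c2 ∧ 0 < k0 ∧ k0 < 1 ∧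
    ∀ k, 0 < k → k < k0 → ∀ (F : Fam d) (S : PSys F β k), BNoise N S.ν S.b S.gd →
    ∀ L : ℕ, ∃ h0 : ℝ, 0 < h0 ∧ ∀ h, 0 < h → h < h0 →
    ∀ (G : boxS d L → F.V) (x : boxS d L),
    ∀ H : boxS d L → ℝ, (∀ v, ∀ y ∈ (boxNet d L).nb v, H y ≤ H v + 3 / 4) →
    (∀ v, (boxNet d L).dist x v ≤ 1 → H v ≤ 1 / 16) → (∀ v, ‖G v‖ ≤ k ^ (-(H v))) →
    ∀ n : ℕ, n * h ≤ σ0 * ell k + 1 →
      PI (F.mu L) {ω | ∃ j0, j0 ≤ n ∧ k ^ κ ≤ ‖traj (F.st h L) G ω j0 x‖ ∧
          ‖traj (F.st h L) G ω n x‖ < k ^ (3 * κ)} ≤ ENNReal.ofReal (k ^ c2) := by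
  obtain ⟨C, hC, hcap⟩ := cap_max N d β hβ
  obtain ⟨σb, cb, k1, hσb, hcb, hk1, hk11, hbs⟩ := WL3_bsum N κ hκ
  obtain ⟨k2, hk2, hk21, hq2⟩ := q2_low d β κ hβ hκ (hκ1.trans (by norm_num))
  set σ0 : ℝ := min σb (1 / (64 * (C + 1))) with hσ0
  have hσ0p : 0 < σ0 := by positivity
  have hσ0b : σ0 ≤ σb := min_le_left _ _
  have hσ0c : (C + 1) * σ0 ≤ 1 / 64 := by
    calc (C + 1) * σ0 ≤ (C + 1) * (1 / (64 * (C + 1))) :=
          mul_le_mul_of_nonneg_left (min_le_right _ _) (by positivity)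
      _ = 1 / 64 := by field_simp
  have hσ01 : σ0 ≤ 1 := by nlinarith
  set c2 : ℝ := min (cb / 2) (1 / 64) with hc2
  have hc2p : 0 < c2 := by positivity
  obtain ⟨k3, hk3, hk31, hev⟩ := WL3_ext
    (((WL3_rpow_small (1 / 8) (1 / 2) (by norm_num) (by norm_num)).and
      (WL3_rpow_small (1 / 8) (1 / (4 * d + 1)) (by norm_num) (by positivity))).and
      (((WL3_rpow_small (1 / 32) (1 / (3 * ((2 * d + 1) * (Real.exp (C + 1) * 3 ^ d))))
        (by norm_num) (by positivity)).and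
        (WL3_rpow_small (cb / 2) (1 / 3) (by positivity) (by norm_num))).and
      (WL3_rpow_small 1 (Real.exp (-2)) one_pos (Real.exp_pos _))))
  refine ⟨σ0, c2, min (min k1 k2) k3, hσ0p, hc2p, by positivity,
    lt_of_le_of_lt (min_le_right _ _) hk31, ?_⟩
  intro k hk hkk F S hB L
  have hkk1 : k < k1 := hkk.trans_le ((min_le_left _ _).trans (min_le_left _ _))
  have hkk2 : k < k2 := hkk.trans_le ((min_le_left _ _).trans (min_le_right _ _))
  have hkk3 : k < k3 := hkk.trans_le (min_le_right _ _)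
  have hklt : k < 1 := hkk1.trans hk11
  obtain ⟨⟨ha, hb⟩, ⟨hc, hd'⟩, he⟩ := hev k hk hkk3
  rw [Real.rpow_one] at he
  have hell2 : 2 ≤ ell k := by
    unfold ell
    rw [one_div, Real.log_inv]
    have := Real.log_le_log hk he
    rw [Real.log_exp] at this
    linarith
  have hell : 0 ≤ ell k := by linarith
  obtain ⟨h1, hh1, hcap'⟩ := hcap F k S hk hklt hB
  obtain ⟨h2, hh2, hbs'⟩ := hbs S.Ωp S.ν S.b S.gd hB S.mb S.mgd k hk hkk1
  obtain ⟨h3, hh3, hq2'⟩ := hq2 k hk hkk2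
  obtain ⟨h4, hh4, htail⟩ := hB.tail
  have hkc : 0 < k ^ c2 := Real.rpow_pos_of_pos hk _
  set cd : ℝ := (Fintype.card (boxS d L) : ℝ) with hcd
  have hcd0 : 0 ≤ cd := by positivity
  have hden : 0 < 3 * (cd + 1) * (σ0 * ell k + 1) := by positivity
  refine ⟨min (min (min h1 h2) (min h3 h4)) (min (1 / 2) (k ^ c2 / (3 * (cd + 1) * (σ0 * ell k + 1)))),
    by positivity, ?_⟩
  intro h hh hlt G x H hH1 hH2 hG n hn
  have hl1 : h < h1 := hlt.trans_le ((min_le_left _ _).trans ((min_le_left _ _).trans (min_le_left _ _)))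
  have hl2 : h < h2 := hlt.trans_le ((min_le_left _ _).trans ((min_le_left _ _).trans (min_le_right _ _)))
  have hl3 : h < h3 := hlt.trans_le ((min_le_left _ _).trans ((min_le_right _ _).trans (min_le_left _ _)))
  have hl4 : h < h4 := hlt.trans_le ((min_le_left _ _).trans ((min_le_right _ _).trans (min_le_right _ _)))
  have hl5 : h < 1 / 2 := hlt.trans_le ((min_le_right _ _).trans (min_le_left _ _))
  have hl6 : h < k ^ c2 / (3 * (cd + 1) * (σ0 * ell k + 1)) :=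
    hlt.trans_le ((min_le_right _ _).trans (min_le_right _ _))
  have hlt1 : h < 1 := by linarith
  set G2 : (boxS d L → F.V) × (boxS d L → F.V) := (G, G) with hG2
  -- transfer to the pair system
  have hBset : MeasurableSet {s : ℕ → boxS d L → F.V | ∃ j0, j0 ≤ n ∧ k ^ κ ≤ ‖s j0 x‖ ∧
      ‖s n x‖ < k ^ (3 * κ)} := by
    have e : {s : ℕ → boxS d L → F.V | ∃ j0, j0 ≤ n ∧ k ^ κ ≤ ‖s j0 x‖ ∧
      ‖s n x‖ < k ^ (3 * κ)} = ⋃ j0 ∈ Finset.range (n + 1), {s | k ^ κ ≤ ‖s j0 x‖ ∧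
      ‖s n x‖ < k ^ (3 * κ)} := by
      ext s
      simp only [Set.mem_ofPred_eq, Set.mem_iUnion, Finset.mem_range, Nat.lt_succ_iff, exists_prop]
    rw [e]
    refine Finset.measurableSet_biUnion _ fun j _ => ?_
    have hm : ∀ j : ℕ, Measurable fun s : ℕ → boxS d L → F.V => ‖s j x‖ := fun j =>
      measurable_norm.comp ((measurable_pi_apply x).comp (measurable_pi_apply j))
    exact (measurableSet_le measurable_const (hm j)).inter
      (measurableSet_lt (hm n) measurable_const)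
  set Bs : Set (ℕ → boxS d L → F.V) := {s | ∃ j0, j0 ≤ n ∧ k ^ κ ≤ ‖s j0 x‖ ∧
      ‖s n x‖ < k ^ (3 * κ)} with hBs
  have htr := (tr_path S h L G2 (n + 1) (Bs.indicator 1) (measurable_one.indicator hBset) (by
    intro a b hab
    have hiff : a ∈ Bs ↔ b ∈ Bs := by
      simp only [hBs, Set.mem_ofPred_eq]
      constructor
      · rintro ⟨j0, hj0, h5, h6⟩
        refine ⟨j0, hj0, ?_, ?_⟩
        · rw [← hab j0 (by omega)]; exact h5
        · rw [← hab n (by omega)]; exact h6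
      · rintro ⟨j0, hj0, h5, h6⟩
        refine ⟨j0, hj0, ?_, ?_⟩
        · rw [hab j0 (by omega)]; exact h5
        · rw [hab n (by omega)]; exact h6
    by_cases hb' : b ∈ Bs
    · rw [Set.indicator_of_mem hb', Set.indicator_of_mem (hiff.2 hb')]
      rfl
    · rw [Set.indicator_of_notMem hb', Set.indicator_of_notMem (fun hc' => hb' (hiff.1 hc'))])).1
  have hmF : Measurable fun ω : ℕ → boxS d L → F.Ω0 => traj (F.st h L) G ω :=
    (WL3_meas_seq (F.st h L) (F.mst h L)).comp (measurable_const.prodMk measurable_id)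
  have hmS : Measurable fun (ω : ℕ → boxS d L → S.Ωp) (j : ℕ) => (S.tr h L G2 ω j).1 := by
    rw [measurable_pi_iff]
    intro j
    exact measurable_fst.comp ((measurable_traj (S.st h L) (S.mst h L) j).comp
      (measurable_const.prodMk measurable_id))
  have e1 : PI (F.mu L) {ω | ∃ j0, j0 ≤ n ∧ k ^ κ ≤ ‖traj (F.st h L) G ω j0 x‖ ∧
          ‖traj (F.st h L) G ω n x‖ < k ^ (3 * κ)} =
      PI (S.mu L) {ω | (fun j => (S.tr h L G2 ω j).1) ∈ Bs} := by
    have e2 : PI (F.mu L) {ω | ∃ j0, j0 ≤ n ∧ k ^ κ ≤ ‖traj (F.st h L) G ω j0 x‖ ∧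
          ‖traj (F.st h L) G ω n x‖ < k ^ (3 * κ)} =
        ∫⁻ ω, Bs.indicator 1 (traj (F.st h L) G2.1 ω) ∂(PI (F.mu L)) := by
      exact (lintegral_indicator_one (μ := PI (F.mu L)) (hmF hBset)).symm
    have e3 : PI (S.mu L) {ω | (fun j => (S.tr h L G2 ω j).1) ∈ Bs} =
        ∫⁻ ω, Bs.indicator 1 (fun j => (S.tr h L G2 ω j).1) ∂(PI (S.mu L)) := by
      exact (lintegral_indicator_one (μ := PI (S.mu L)) (hmS hBset)).symm
    rw [e2, e3, htr]
  rw [e1]
  -- three exceptional events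
  set gs : Set (boxS d L → S.Ωp) := {ξ | ∀ y, ξ y ∈ S.gd h} with hgs
  have hgsm : MeasurableSet gs := by
    have : gs = ⋂ y : boxS d L, {ξ | ξ y ∈ S.gd h} := by ext ξ; simp [hgs]
    rw [this]
    exact MeasurableSet.iInter fun y => (measurable_pi_apply y) (S.mgd h)
  have hgsp : S.mu L gsᶜ ≤ ENNReal.ofReal (cd * h ^ 3) := by
    have hsub : gsᶜ ⊆ ⋃ y ∈ (Finset.univ : Finset (boxS d L)), {ξ | ξ y ∈ (S.gd h)ᶜ} := by
      intro ξ hξ
      simp only [hgs, Set.mem_compl_iff, Set.mem_ofPred_eq, not_forall] at hξ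
      obtain ⟨y, hy⟩ := hξ
      simp only [Set.mem_iUnion]
      exact ⟨y, Finset.mem_univ y, hy⟩
    calc S.mu L gsᶜ ≤ S.mu L (⋃ y ∈ (Finset.univ : Finset (boxS d L)), {ξ | ξ y ∈ (S.gd h)ᶜ}) :=
          measure_mono hsub
      _ ≤ ∑ y ∈ (Finset.univ : Finset (boxS d L)), S.mu L {ξ | ξ y ∈ (S.gd h)ᶜ} :=
          measure_biUnion_finset_le _ _
      _ ≤ ∑ y ∈ (Finset.univ : Finset (boxS d L)), ENNReal.ofReal (h ^ 3) := by
          refine Finset.sum_le_sum fun y _ => ?_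
          have e2 : S.mu L {ξ : boxS d L → S.Ωp | ξ y ∈ (S.gd h)ᶜ} = S.ν (S.gd h)ᶜ := by
            have hmp := measurePreserving_eval (fun _ : boxS d L => S.ν) y
            exact hmp.measure_preimage (S.mgd h).compl.nullMeasurableSet
          rw [e2]
          exact htail h hh hl4
      _ = ENNReal.ofReal (cd * h ^ 3) := by
          rw [Finset.sum_const, Finset.card_univ, nsmul_eq_mul, ENNReal.ofReal_mul hcd0, hcd,
            ENNReal.ofReal_natCast]
  have hA := WL3_bad (S.mu L) gs hgsm _ hgsp n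
  have hB2 : PI (S.mu L) {ω | ∃ i j, i ≤ j ∧ j ≤ n ∧
      κ * ell k < |∑ l ∈ Finset.Ico i j, S.b h (ω l x)|} ≤ ENNReal.ofReal (k ^ cb) := by
    have hmap : (PI (S.mu L)).map (fun ω i => ω i x) = PI S.ν :=
      WL3_PI_map (S.mu L) S.ν (fun ξ => ξ x) (measurable_pi_apply x)
        (measurePreserving_eval (fun _ : boxS d L => S.ν) x).map_eq
    have hmm : Measurable fun (ω : ℕ → boxS d L → S.Ωp) (i : ℕ) => ω i x := by
      rw [measurable_pi_iff]
      intro i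
      exact (measurable_pi_apply x).comp (measurable_pi_apply i)
    have h5 := hbs' h hh hl2 n (hn.trans (by
      have := mul_le_mul_of_nonneg_right hσ0b hell
      linarith))
    refine le_trans ?_ h5
    rw [← hmap]
    exact Measure.le_map_apply hmm.aemeasurable _
  set w : boxS d L → boxS d L → ℝ := fun y v => k ^ (7 / 8 * ((boxNet d L).dist y v : ℝ)) with hw
  have hw0 : ∀ y v, 0 ≤ w y v := fun y v => Real.rpow_nonneg hk.le _
  have hr : ∀ y v, k * cpl (boxNet d L) (w y) v ≤ 1 * w y v := by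
    intro y v
    have h5 := WL3_cpl d L k (7 / 8) hk hklt (by norm_num) y v
    have h6 : k * (4 * d * k ^ (-(7 / 8) : ℝ)) ≤ 1 := by
      have e2 : k * (4 * d * k ^ (-(7 / 8) : ℝ)) = 4 * d * k ^ (1 / 8 : ℝ) := by
        have e3 : k ^ (1 / 8 : ℝ) = k * k ^ (-(7 / 8) : ℝ) := by
          nth_rewrite 2 [← Real.rpow_one k]
          rw [← Real.rpow_add hk]
          congr 1
          norm_num
        rw [e3]; ring
      rw [e2]
      calc 4 * d * k ^ (1 / 8 : ℝ) ≤ 4 * d * (1 / (4 * d + 1)) :=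
            mul_le_mul_of_nonneg_left hb (by positivity)
        _ ≤ 1 := by
            rw [mul_one_div, div_le_one (by positivity)]
            linarith
    calc k * cpl (boxNet d L) (w y) v ≤ k * (4 * d * k ^ (-(7 / 8) : ℝ) * w y v) :=
          mul_le_mul_of_nonneg_left h5 hk.le
      _ = (k * (4 * d * k ^ (-(7 / 8) : ℝ))) * w y v := by ring
      _ ≤ 1 * w y v := mul_le_mul_of_nonneg_right h6 (hw0 y v)
  have hy0 : 0 < k ^ (-(1 / 8) : ℝ) := Real.rpow_pos_of_pos hk _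
  have hH : ∀ y, (boxNet d L).dist x y ≤ 1 → ∀ (D : ℕ) (v : boxS d L),
      (boxNet d L).dist y v = D → H v ≤ 1 / 16 + 3 / 4 * D := by
    intro y hy D
    induction D with
    | zero =>
      intro v hv
      have : v = y := by
        by_contra hne
        have := (boxNet d L).dist_pos y v (fun hc' => hne hc'.symm)
        omega
      subst this
      have := hH2 v hy
      simpa using this
    | succ D ih =>
      intro v hv
      have hne : v ≠ y := by
        rintro rfl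
        rw [(boxNet d L).dist_self] at hv
        omega
      obtain ⟨u, hu, hu2⟩ := (boxNet d L).toward y v hne
      have h5 := ih u (by omega)
      have h6 := hH1 u v ((boxNet d L).nb_symm v u hu)
      push_cast
      linarith
  have hCy : ∀ y, (boxNet d L).dist x y ≤ 1 →
      PI (S.mu L) {ω | ∃ j, j ≤ n ∧ k ^ (-(1 / 8) : ℝ) ≤
        ∑ v, w y v * ‖(S.tr h L G2 ω j).1 v‖} ≤
      ENNReal.ofReal (Real.exp (C + 1) * 3 ^ d * k ^ (3 / 64 : ℝ)) := by
    intro y hy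
    refine (hcap' h hh hl1 L G2 (w y) 1 (k ^ (-(1 / 8) : ℝ)) zero_le_one hy0 (hw0 y) (hr y) n).trans
      (ENNReal.ofReal_le_ofReal ?_)
    have hsum : ∑ v, w y v * ‖G2.1 v‖ ≤ 3 ^ d * k ^ (-(1 / 16) : ℝ) := by
      calc ∑ v, w y v * ‖G2.1 v‖
          ≤ ∑ v, k ^ (-(1 / 16) : ℝ) * (1 / 2 : ℝ) ^ (boxNet d L).dist y v := by
            refine Finset.sum_le_sum fun v _ => ?_
            have h5 := hH y hy _ v rfl
            calc w y v * ‖G2.1 v‖ ≤ w y v * k ^ (-(H v)) :=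
                  mul_le_mul_of_nonneg_left (hG v) (hw0 y v)
              _ ≤ w y v * k ^ (-(1 / 16 + 3 / 4 * ((boxNet d L).dist y v : ℝ))) := by
                  refine mul_le_mul_of_nonneg_left ?_ (hw0 y v)
                  exact Real.rpow_le_rpow_of_exponent_ge hk hklt.le (by linarith)
              _ = k ^ (-(1 / 16) : ℝ) * (k ^ (1 / 8 : ℝ)) ^ (boxNet d L).dist y v := by
                  rw [hw, ← Real.rpow_natCast (k ^ (1 / 8 : ℝ)), ← Real.rpow_mul hk.le,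
                    ← Real.rpow_add hk, ← Real.rpow_add hk]
                  congr 1
                  ring
              _ ≤ k ^ (-(1 / 16) : ℝ) * (1 / 2 : ℝ) ^ (boxNet d L).dist y v := by
                  refine mul_le_mul_of_nonneg_left ?_ (Real.rpow_nonneg hk.le _)
                  exact pow_le_pow_left₀ (Real.rpow_nonneg hk.le _) ha _
        _ = k ^ (-(1 / 16) : ℝ) * ∑ v, (1 / 2 : ℝ) ^ (boxNet d L).dist y v := by
            rw [Finset.mul_sum]
        _ ≤ k ^ (-(1 / 16) : ℝ) * 3 ^ d :=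
            mul_le_mul_of_nonneg_left ((boxNet d L).sum_half y) (Real.rpow_nonneg hk.le _)
        _ = 3 ^ d * k ^ (-(1 / 16) : ℝ) := mul_comm _ _
    have hexp : Real.exp ((C + 1) * (n * h)) ≤ Real.exp (C + 1) * k ^ (-(1 / 64) : ℝ) := by
      have e2 : Real.exp (C + 1) * k ^ (-(1 / 64) : ℝ) = Real.exp (C + 1 + 1 / 64 * ell k) := by
        rw [Real.exp_add (C + 1) (1 / 64 * ell k), WL3_ell_exp hk]
      rw [e2]
      refine Real.exp_le_exp.2 ?_
      calc (C + 1) * (n * h) ≤ (C + 1) * (σ0 * ell k + 1) :=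
            mul_le_mul_of_nonneg_left hn (by positivity)
        _ = (C + 1) + ((C + 1) * σ0) * ell k := by ring
        _ ≤ C + 1 + 1 / 64 * ell k := by
            have := mul_le_mul_of_nonneg_right hσ0c hell
            linarith
    have hyinv : (k ^ (-(1 / 8) : ℝ))⁻¹ = k ^ (1 / 8 : ℝ) := by
      rw [Real.rpow_neg hk.le, inv_inv]
    rw [div_eq_mul_inv, hyinv]
    calc Real.exp ((C + 1) * (n * h)) * (∑ v, w y v * ‖G2.1 v‖) * k ^ (1 / 8 : ℝ)
        ≤ (Real.exp (C + 1) * k ^ (-(1 / 64) : ℝ)) * (3 ^ d * k ^ (-(1 / 16) : ℝ)) *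
            k ^ (1 / 8 : ℝ) := by
          gcongr
      _ = (Real.exp (C + 1) * 3 ^ d) * k ^ (-(1 / 64) + -(1 / 16) + 1 / 8 : ℝ) := by
          rw [Real.rpow_add hk, Real.rpow_add hk]; ring
      _ = Real.exp (C + 1) * 3 ^ d * k ^ (3 / 64 : ℝ) := by norm_num
  set Y : Finset (boxS d L) := insert x ((boxNet d L).nb x) with hY
  have hYc : (Y.card : ℝ) ≤ 2 * d + 1 := by
    have h5 := (Finset.card_insert_le x ((boxNet d L).nb x)).trans
      (Nat.add_le_add_right ((boxNet d L).nb_card x) 1)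
    exact_mod_cast h5
  have hYd : ∀ y ∈ Y, (boxNet d L).dist x y ≤ 1 := by
    intro y hy
    rcases Finset.mem_insert.1 hy with rfl | hy
    · rw [(boxNet d L).dist_self]; omega
    · exact ((boxNet d L).dist_nb x y hy).le
  have hCc : PI (S.mu L) {ω | ∃ y ∈ Y, ∃ j, j ≤ n ∧ k ^ (-(1 / 8) : ℝ) ≤
        ∑ v, w y v * ‖(S.tr h L G2 ω j).1 v‖} ≤ ENNReal.ofReal (k ^ c2 / 3) := by
    have hsub : {ω : ℕ → boxS d L → S.Ωp | ∃ y ∈ Y, ∃ j, j ≤ n ∧ k ^ (-(1 / 8) : ℝ) ≤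
        ∑ v, w y v * ‖(S.tr h L G2 ω j).1 v‖} ⊆ ⋃ y ∈ Y, {ω | ∃ j, j ≤ n ∧
        k ^ (-(1 / 8) : ℝ) ≤ ∑ v, w y v * ‖(S.tr h L G2 ω j).1 v‖} := by
      rintro ω ⟨y, hy, hj⟩
      simp only [Set.mem_iUnion]
      exact ⟨y, hy, hj⟩
    refine (measure_mono hsub).trans ((measure_biUnion_finset_le _ _).trans ?_)
    refine (Finset.sum_le_sum fun y hy => hCy y (hYd y hy)).trans ?_
    rw [Finset.sum_const, nsmul_eq_mul, ← ENNReal.ofReal_natCast, ← ENNReal.ofReal_mul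
      (by positivity)]
    refine ENNReal.ofReal_le_ofReal ?_
    have h7 : k ^ (1 / 64 : ℝ) ≤ k ^ c2 :=
      Real.rpow_le_rpow_of_exponent_ge hk hklt.le (min_le_right _ _)
    have e5 : k ^ (3 / 64 : ℝ) = k ^ (1 / 32 : ℝ) * k ^ (1 / 64 : ℝ) := by
      rw [← Real.rpow_add hk]; norm_num
    calc (Y.card : ℝ) * (Real.exp (C + 1) * 3 ^ d * k ^ (3 / 64 : ℝ))
        ≤ (2 * d + 1) * (Real.exp (C + 1) * 3 ^ d * k ^ (3 / 64 : ℝ)) :=
          mul_le_mul_of_nonneg_right hYc (by positivity)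
      _ = ((2 * d + 1) * (Real.exp (C + 1) * 3 ^ d)) * k ^ (1 / 32 : ℝ) * k ^ (1 / 64 : ℝ) := by
          rw [e5]; ring
      _ ≤ ((2 * d + 1) * (Real.exp (C + 1) * 3 ^ d)) *
          (1 / (3 * ((2 * d + 1) * (Real.exp (C + 1) * 3 ^ d)))) * k ^ c2 :=
          mul_le_mul (mul_le_mul_of_nonneg_left hc (by positivity)) h7
            (Real.rpow_nonneg hk.le _) (by positivity)
      _ = k ^ c2 / 3 := by field_simp
  -- the inclusion
  have hincl : {ω | (fun j => (S.tr h L G2 ω j).1) ∈ Bs} ⊆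
      ({ω : ℕ → boxS d L → S.Ωp | ∃ l, l < n ∧ ω l ∉ gs} ∪
      {ω | ∃ i j, i ≤ j ∧ j ≤ n ∧ κ * ell k < |∑ l ∈ Finset.Ico i j, S.b h (ω l x)|}) ∪
      {ω | ∃ y ∈ Y, ∃ j, j ≤ n ∧ k ^ (-(1 / 8) : ℝ) ≤
        ∑ v, w y v * ‖(S.tr h L G2 ω j).1 v‖} := by
    intro ω hω
    by_contra hcon
    simp only [Set.mem_union, not_or] at hcon
    obtain ⟨⟨hc1, hc2'⟩, hc3⟩ := hcon
    simp only [Set.mem_ofPred_eq] at hc1 hc2' hc3
    push Not at hc1 hc2' hc3
    obtain ⟨j0, hj0, hj1, hj2⟩ := hω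
    have hsite : ∀ y ∈ Y, ∀ j, j ≤ n → ‖(S.tr h L G2 ω j).1 y‖ ≤ k ^ (-(1 / 8 : ℝ)) := by
      intro y hy j hj
      refine le_trans ?_ (hc3 y hy j hj).le
      have h5 := Finset.single_le_sum (f := fun v => w y v * ‖(S.tr h L G2 ω j).1 v‖)
        (fun v _ => mul_nonneg (hw0 y v) (norm_nonneg _)) (Finset.mem_univ y)
      refine le_trans (le_of_eq ?_) h5
      simp only [hw]
      rw [(boxNet d L).dist_self, Nat.cast_zero, mul_zero, Real.rpow_zero, one_mul]
    have hfin := hq2' h hh hl3 (boxS d L) (boxNet d L) (fun j y => S.b h (ω j y))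
      (fun j => nrm (S.tr h L G2 ω j).1) x n
      (by
        refine hn.trans ?_
        have h5 : σ0 * ell k ≤ 1 * ell k := mul_le_mul_of_nonneg_right hσ01 hell
        nlinarith [mul_nonneg hell hell, mul_self_nonneg (ell k - 2)])
      (fun j hj => S.q1 h L (S.tr h L G2 ω j) (ω j) hh (fun y => hc1 j hj y))
      (fun j hj => hB.bdd h hh hlt1 _ (hc1 j hj x))
      (fun i j hij hj => hc2' i j hij hj)
      (fun j hj => ⟨hsite x (Finset.mem_insert_self _ _) j hj,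
        fun y hy => hsite y (Finset.mem_insert_of_mem hy) j hj⟩)
      j0 hj0 hj1
    exact absurd hfin (not_le.2 hj2)
  have hAn : (n : ℝ≥0∞) * ENNReal.ofReal (cd * h ^ 3) ≤ ENNReal.ofReal (k ^ c2 / 3) := by
    rw [← ENNReal.ofReal_natCast n, ← ENNReal.ofReal_mul (by positivity)]
    refine ENNReal.ofReal_le_ofReal ?_
    have e2 : (n : ℝ) * (cd * h ^ 3) = cd * (n * h) * h * h := by ring
    rw [e2]
    rw [lt_div_iff₀ hden] at hl6
    calc cd * (n * h) * h * h ≤ (cd + 1) * (σ0 * ell k + 1) * h * 1 := by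
          gcongr
          linarith
      _ ≤ k ^ c2 / 3 := by linarith
  have hBn : k ^ cb ≤ k ^ c2 / 3 := by
    have e2 : k ^ cb = k ^ (cb / 2) * k ^ (cb / 2) := by
      rw [← Real.rpow_add hk]; congr 1; ring
    rw [e2]
    calc k ^ (cb / 2) * k ^ (cb / 2) ≤ 1 / 3 * k ^ c2 := by
          have h7 : k ^ (cb / 2) ≤ k ^ c2 :=
            Real.rpow_le_rpow_of_exponent_ge hk hklt.le (min_le_left _ _)
          exact mul_le_mul hd' h7 (Real.rpow_nonneg hk.le _) (by norm_num)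
      _ = k ^ c2 / 3 := by ring
  calc PI (S.mu L) {ω | (fun j => (S.tr h L G2 ω j).1) ∈ Bs}
      ≤ (n * ENNReal.ofReal (cd * h ^ 3) + ENNReal.ofReal (k ^ cb)) +
        ENNReal.ofReal (k ^ c2 / 3) :=
        (measure_mono hincl).trans ((measure_union_le _ _).trans
          (add_le_add ((measure_union_le _ _).trans (add_le_add hA hB2)) hCc))
    _ ≤ (ENNReal.ofReal (k ^ c2 / 3) + ENNReal.ofReal (k ^ c2 / 3)) +
        ENNReal.ofReal (k ^ c2 / 3) :=
        add_le_add (add_le_add hAn (ENNReal.ofReal_le_ofReal hBn)) le_rfl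
    _ = ENNReal.ofReal (k ^ c2) := by
        rw [← ENNReal.ofReal_add (by positivity) (by positivity),
          ← ENNReal.ofReal_add (by positivity) (by positivity)]
        congr 1
        ring

/-- the matrix chain: catching up, then one site -/
private theorem WL3_B1 (N d : ℕ) (hN : 1 ≤ N) (β : ℝ) (hβ : 0 < β) (κ : ℝ) (hκ : 0 < κ)
    (hκ1 : κ ≤ 1 / 64) :
    ∃ σ0 : ℝ, 0 < σ0 ∧ ∀ σ, 0 < σ → σ ≤ σ0 → ∀ (m0 : ℕ) (ε : ℝ), 0 < ε →
    ∃ ε0 c k0 : ℝ, 0 < ε0 ∧ 0 < c ∧ 0 < k0 ∧ k0 < 1 ∧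
    ∀ k, 0 < k → k < k0 → ∃ h0 : ℝ, 0 < h0 ∧ ∀ h, 0 < h → h < h0 →
    ∀ (L : ℕ) (G : boxS d L → E N) (z x : boxS d L), (boxNet d L).dist x z ≤ m0 →
    (∀ v, ‖G v‖ * k ^ (boxNet d L).dist x v ≤ ‖G z‖ * k ^ (boxNet d L).dist x z) →
    ‖G z‖ ≤ k ^ (-ε0) →
    ∀ n : ℕ, 1 ≤ n * h → n * h ≤ σ * ell k + 1 → ∃ N1 : ℕ,
      PI ((MN3 N hN).mu d L) {ω |
          (∀ j, N1 ≤ j → j ≤ n → ‖traj ((MN3 N hN).st β k h L) G ω j x‖ < k ^ κ) ∧
          ‖traj ((MN3 N hN).st β k h L) G ω n x‖ <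
            k ^ (ε + (boxNet d L).dist x z) * Real.exp (lamN N * (n * h)) * ‖G z‖}
        ≤ ENNReal.ofReal (k ^ c) := by
  obtain ⟨e1, σ0, ε1o, he1, hσ0, hε1o, hol⟩ := ol3 N hN d β hβ κ hκ (hκ1.trans (by norm_num))
  refine ⟨σ0, hσ0, fun σ hσ hσ' m0 ε hε => ?_⟩
  set e : ℝ := min e1 (ε / 16) with he
  have hep : 0 < e := by positivity
  have hee1 : e ≤ e1 := min_le_left _ _
  have heε : e ≤ ε / 16 := min_le_right _ _
  set εo : ℝ := min ε1o (ε / 4) with hεo
  have hεop : 0 < εo := by positivity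
  have hεo1 : εo ≤ ε1o := min_le_left _ _
  have hεo2 : εo ≤ ε / 4 := min_le_right _ _
  set e' : ℝ := min (min (e / 16) (e / (8 * β))) (ε / 8) with he'
  have he'p : 0 < e' := by positivity
  have he'1 : e' ≤ e / 16 := (min_le_left _ _).trans (min_le_left _ _)
  have he'2 : e' ≤ e / (8 * β) := (min_le_left _ _).trans (min_le_right _ _)
  have he'3 : e' ≤ ε / 8 := min_le_right _ _
  obtain ⟨εc, cc, k1, hεc, hcc, hk1, hk11, hcu⟩ := catch_up (MN3 N hN) d β hβ m0 e' he'p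
  set ε0 : ℝ := min εc (e / (8 * β)) with hε0
  have hε0p : 0 < ε0 := by positivity
  have hε0c : ε0 ≤ εc := min_le_left _ _
  have hε0e : ε0 ≤ e / (8 * β) := min_le_right _ _
  obtain ⟨co, k2, hco, hk2, hk21, hol'⟩ := hol e hep hee1 σ hσ hσ' εo hεop hεo1
  set c0 : ℝ := min cc co with hc0
  have hc0p : 0 < c0 := by positivity
  obtain ⟨k3, hk3, hk31, hev⟩ := WL3_ext
    (((WL3_rpow_small cc (1 / 4) hcc (by norm_num)).and
      (WL3_rpow_small e (1 / 4) hep (by norm_num))).and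
      ((WL3_rpow_small (ε / 4) (Real.exp (-|lamN N|)) (by positivity) (Real.exp_pos _)).and
      (WL3_rpow_small (c0 / 2) (1 / 2) (by positivity) (by norm_num))))
  refine ⟨ε0, c0 / 2, min (min k1 k2) k3, hε0p, by positivity, by positivity,
    lt_of_le_of_lt (min_le_right _ _) hk31, ?_⟩
  intro k hk hkk
  have hkk1 : k < k1 := hkk.trans_le ((min_le_left _ _).trans (min_le_left _ _))
  have hkk2 : k < k2 := hkk.trans_le ((min_le_left _ _).trans (min_le_right _ _))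
  have hkk3 : k < k3 := hkk.trans_le (min_le_right _ _)
  have hklt : k < 1 := hkk1.trans hk11
  obtain ⟨⟨ha, hb⟩, ⟨hc, hd'⟩⟩ := hev k hk hkk3
  obtain ⟨h1, hh1, hcu'⟩ := hcu k hk hkk1
  obtain ⟨h2, hh2, hol2⟩ := hol' k hk hkk2
  refine ⟨min (min h1 h2) (1 / 4), by positivity, ?_⟩
  intro h hh hlt L G z x hm hmax hzb n hn1 hn2
  have hl1 : h < h1 := hlt.trans_le ((min_le_left _ _).trans (min_le_left _ _))
  have hl2 : h < h2 := hlt.trans_le ((min_le_left _ _).trans (min_le_right _ _))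
  have hl3 : h < 1 / 4 := hlt.trans_le (min_le_right _ _)
  obtain ⟨Nc, hNc, hcu2⟩ := hcu' h hh hl1 _ hm
  set m : ℕ := (boxNet d L).dist x z with hmdef
  set n1 : ℕ := ⌈k ^ e / h⌉₊ with hn1def
  refine ⟨Nc + n1, ?_⟩
  have hNn : Nc + n1 ≤ n := by
    have h5 : (n1 : ℝ) * h ≤ k ^ e + h := by
      have h6 : (n1 : ℝ) < k ^ e / h + 1 := Nat.ceil_lt_add_one (by positivity)
      calc (n1 : ℝ) * h ≤ (k ^ e / h + 1) * h := by gcongr
        _ = k ^ e + h := by field_simp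
    have h6 : ((Nc + n1 : ℕ) : ℝ) * h < n * h := by
      push_cast
      nlinarith
    have h7 : ((Nc + n1 : ℕ) : ℝ) < n := lt_of_mul_lt_mul_right h6 hh.le
    exact_mod_cast h7.le
  rcases (norm_nonneg (G z)).lt_or_eq with hu | hu
  swap
  · have : {ω : ℕ → boxS d L → EuclideanSpace ℝ (Fin (N * N)) |
          (∀ j, Nc + n1 ≤ j → j ≤ n → ‖traj ((MN3 N hN).st β k h L) G ω j x‖ < k ^ κ) ∧
          ‖traj ((MN3 N hN).st β k h L) G ω n x‖ <
            k ^ (ε + (m : ℝ)) * Real.exp (lamN N * (n * h)) * ‖G z‖} = ∅ := by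
      rw [Set.eq_empty_iff_forall_notMem]
      rintro ω ⟨_, h6⟩
      rw [← hu, mul_zero] at h6
      exact absurd h6 (not_lt.2 (norm_nonneg _))
    rw [this]
    simp
  set st := (MN3 N hN).st (d := d) β k h L with hst
  have hstm : Measurable fun p : (boxS d L → E N) ×
      (boxS d L → EuclideanSpace ℝ (Fin (N * N))) => st p.1 p.2 :=
    (MN3 N hN).measurable_st β k h L
  set K : ℝ := k ^ (ε + (m : ℝ)) * Real.exp (lamN N * (n * h)) * ‖G z‖ with hK
  set E1 : Set (ℕ → boxS d L → EuclideanSpace ℝ (Fin (N * N))) := {ω |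
      (∀ j, Nc + n1 ≤ j → j ≤ n → ‖traj st G ω j x‖ < k ^ κ) ∧ ‖traj st G ω n x‖ < K} with hE1
  have hmtr : ∀ (v : boxS d L) (j : ℕ), Measurable fun ω : ℕ → boxS d L →
      EuclideanSpace ℝ (Fin (N * N)) => ‖traj st G ω j v‖ := fun v j =>
    measurable_norm.comp ((measurable_pi_apply v).comp ((measurable_traj st hstm j).comp
      (measurable_const.prodMk measurable_id)))
  have hE1m : MeasurableSet E1 := by
    have e2 : E1 = (⋂ j : ℕ, ⋂ (_ : Nc + n1 ≤ j ∧ j ≤ n), {ω | ‖traj st G ω j x‖ < k ^ κ}) ∩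
        {ω | ‖traj st G ω n x‖ < K} := by
      ext ω
      simp only [hE1, Set.mem_ofPred_eq, Set.mem_inter_iff, Set.mem_iInter, and_imp]
    rw [e2]
    refine MeasurableSet.inter ?_ (measurableSet_lt (hmtr x n) measurable_const)
    exact MeasurableSet.iInter fun j => MeasurableSet.iInter fun _ =>
      measurableSet_lt (hmtr x j) measurable_const
  set Bad : Set (ℕ → boxS d L → EuclideanSpace ℝ (Fin (N * N))) := {ω |
      ‖traj st G ω Nc x‖ < k ^ ((m : ℝ) + e') * ‖G z‖ ∨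
      ∃ v, k ^ ((m : ℝ) - (1 + e') * (boxNet d L).dist x v - e') * ‖G z‖ <
        ‖traj st G ω Nc v‖} with hBad
  have hBadm : MeasurableSet Bad := by
    have e2 : Bad = {ω | ‖traj st G ω Nc x‖ < k ^ ((m : ℝ) + e') * ‖G z‖} ∪
      ⋃ v, {ω | k ^ ((m : ℝ) - (1 + e') * (boxNet d L).dist x v - e') * ‖G z‖ <
        ‖traj st G ω Nc v‖} := by
      ext ω
      simp only [hBad, Set.mem_ofPred_eq, Set.mem_union, Set.mem_iUnion]
    rw [e2]
    exact (measurableSet_lt (hmtr x Nc) measurable_const).union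
      (MeasurableSet.iUnion fun v => measurableSet_lt measurable_const (hmtr v Nc))
  have hBadp : PI ((MN3 N hN).mu d L) Bad ≤ ENNReal.ofReal (k ^ cc) := by
    refine hcu2 L G z x rfl hmax ?_
    refine hzb.trans ?_
    exact Real.rpow_le_rpow_of_exponent_ge hk hklt.le (by linarith)
  have hkey : ∀ a ∉ Bad, PI ((MN3 N hN).mu d L) {b | glue Nc a b ∈ E1} ≤
      ENNReal.ofReal (k ^ co) := by
    intro a haB
    simp only [hBad, Set.mem_ofPred_eq, not_or, not_lt, not_exists] at haB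
    obtain ⟨hlo, hup⟩ := haB
    set G' : boxS d L → E N := traj st G a Nc with hG'
    have hn' : n1 ≤ n - Nc := by omega
    have hcast : ((n - Nc : ℕ) : ℝ) = n - Nc := by
      rw [Nat.cast_sub (by omega)]
    have hx0 : 0 ≤ ‖G' x‖ := norm_nonneg _
    have hprof : ∀ v, ‖G' v‖ ≤ k ^ (-(e / 4) - (1 + e / 16) * (boxNet d L).dist v x) * ‖G' x‖ := by
      intro v
      rw [(boxNet d L).dist_comm v x]
      set D : ℝ := ((boxNet d L).dist x v : ℝ) with hD
      have hD0 : 0 ≤ D := by positivity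
      calc ‖G' v‖ ≤ k ^ ((m : ℝ) - (1 + e') * D - e') * ‖G z‖ := hup v
        _ = k ^ (-(2 * e') - (1 + e') * D) * (k ^ ((m : ℝ) + e') * ‖G z‖) := by
            rw [← mul_assoc, ← Real.rpow_add hk]
            congr 2
            ring
        _ ≤ k ^ (-(2 * e') - (1 + e') * D) * ‖G' x‖ :=
            mul_le_mul_of_nonneg_left hlo (Real.rpow_nonneg hk.le _)
        _ ≤ k ^ (-(e / 4) - (1 + e / 16) * D) * ‖G' x‖ := by
            refine mul_le_mul_of_nonneg_right ?_ hx0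
            refine Real.rpow_le_rpow_of_exponent_ge hk hklt.le ?_
            nlinarith
    have hsize : ‖G' x‖ ≤ k ^ (-(e / (4 * β))) := by
      have h5 := hup x
      rw [(boxNet d L).dist_self, Nat.cast_zero, mul_zero, sub_zero] at h5
      calc ‖G' x‖ ≤ k ^ ((m : ℝ) - e') * ‖G z‖ := h5
        _ ≤ k ^ ((m : ℝ) - e') * k ^ (-ε0) :=
            mul_le_mul_of_nonneg_left hzb (Real.rpow_nonneg hk.le _)
        _ = k ^ ((m : ℝ) - e' + -ε0) := by rw [Real.rpow_add hk]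
        _ ≤ k ^ (-(e / (4 * β))) := by
            refine Real.rpow_le_rpow_of_exponent_ge hk hklt.le ?_
            have h6 : e / (4 * β) = e / (8 * β) + e / (8 * β) := by field_simp; ring
            have h7 : (0 : ℝ) ≤ m := by positivity
            linarith
    have hol3 := hol2 h hh hl2 L G' x hprof hsize (n - Nc) hn' (by
      rw [hcast]
      have : (0 : ℝ) ≤ Nc * h := by positivity
      nlinarith)
    refine le_trans (measure_mono ?_) hol3
    rintro b ⟨hb1, hb2⟩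
    refine ⟨fun j hj1 hj2 => ?_, ?_⟩
    · have := hb1 (Nc + j) (by omega) (by omega)
      rwa [traj_glue_add] at this
    · have e3 : n = Nc + (n - Nc) := by omega
      rw [e3, traj_glue_add] at hb2
      refine lt_of_lt_of_le hb2 ?_
      rw [hcast]
      have h5 : Real.exp (lamN N * (n * h)) ≤
          Real.exp (lamN N * ((n - Nc) * h)) * Real.exp |lamN N| := by
        rw [← Real.exp_add]
        refine Real.exp_le_exp.2 ?_
        have h6 : lamN N * (Nc * h) ≤ |lamN N| := by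
          calc lamN N * (Nc * h) ≤ |lamN N * (Nc * h)| := le_abs_self _
            _ = |lamN N| * (Nc * h) := by
                rw [abs_mul, abs_of_nonneg (by positivity : (0 : ℝ) ≤ Nc * h)]
            _ ≤ |lamN N| * 1 := by
                refine mul_le_mul_of_nonneg_left ?_ (abs_nonneg _)
                linarith
            _ = |lamN N| := mul_one _
        nlinarith
      have h6 : k ^ ε * Real.exp |lamN N| ≤ k ^ (2 * e + εo) * k ^ e' := by
        calc k ^ ε * Real.exp |lamN N| = k ^ (3 * ε / 4) * (k ^ (ε / 4) * Real.exp |lamN N|) := by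
              rw [← mul_assoc, ← Real.rpow_add hk]
              congr 2
              ring
          _ ≤ k ^ (3 * ε / 4) * (Real.exp (-|lamN N|) * Real.exp |lamN N|) := by
              gcongr
          _ = k ^ (3 * ε / 4) := by rw [← Real.exp_add]; simp
          _ ≤ k ^ (2 * e + εo + e') :=
              Real.rpow_le_rpow_of_exponent_ge hk hklt.le (by linarith)
          _ = k ^ (2 * e + εo) * k ^ e' := by rw [Real.rpow_add hk]
      rw [hK]
      calc k ^ (ε + (m : ℝ)) * Real.exp (lamN N * (n * h)) * ‖G z‖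
          = k ^ ε * Real.exp (lamN N * (n * h)) * (k ^ (m : ℝ) * ‖G z‖) := by
            rw [Real.rpow_add hk]; ring
        _ ≤ k ^ ε * (Real.exp (lamN N * ((n - Nc) * h)) * Real.exp |lamN N|) *
            (k ^ (m : ℝ) * ‖G z‖) := by
            gcongr
        _ = (k ^ ε * Real.exp |lamN N|) * Real.exp (lamN N * ((n - Nc) * h)) *
            (k ^ (m : ℝ) * ‖G z‖) := by ring
        _ ≤ (k ^ (2 * e + εo) * k ^ e') * Real.exp (lamN N * ((n - Nc) * h)) *
            (k ^ (m : ℝ) * ‖G z‖) := by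
            gcongr
        _ = k ^ (2 * e + εo) * Real.exp (lamN N * ((n - Nc) * h)) *
            (k ^ ((m : ℝ) + e') * ‖G z‖) := by
            rw [Real.rpow_add hk (m : ℝ) e']; ring
        _ ≤ k ^ (2 * e + εo) * Real.exp (lamN N * ((n - Nc) * h)) * ‖G' x‖ :=
            mul_le_mul_of_nonneg_left hlo (by positivity)
  have hfin : PI ((MN3 N hN).mu d L) E1 ≤ ENNReal.ofReal (k ^ cc) + ENNReal.ofReal (k ^ co) := by
    rw [← lintegral_indicator_one hE1m, lintegral_glue Nc _ (measurable_one.indicator hE1m)]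
    have hmg : ∀ a, MeasurableSet {b | glue Nc a b ∈ E1} := fun a =>
      ((measurable_glue Nc).comp (measurable_const.prodMk measurable_id) :
        Measurable fun b : ℕ → boxS d L → EuclideanSpace ℝ (Fin (N * N)) => glue Nc a b) hE1m
    have h5 : ∀ a, ∫⁻ b, E1.indicator 1 (glue Nc a b) ∂(PI ((MN3 N hN).mu d L)) ≤
        Bad.indicator 1 a + ENNReal.ofReal (k ^ co) := by
      intro a
      have e2 : ∫⁻ b, E1.indicator 1 (glue Nc a b) ∂(PI ((MN3 N hN).mu d L)) =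
          PI ((MN3 N hN).mu d L) {b | glue Nc a b ∈ E1} :=
        lintegral_indicator_one (μ := PI ((MN3 N hN).mu d L)) (hmg a)
      rw [e2]
      by_cases haB : a ∈ Bad
      · rw [Set.indicator_of_mem haB]
        refine prob_le_one.trans ?_
        exact le_self_add
      · exact (hkey a haB).trans le_add_self
    calc ∫⁻ a, ∫⁻ b, E1.indicator 1 (glue Nc a b) ∂(PI ((MN3 N hN).mu d L))
          ∂(PI ((MN3 N hN).mu d L))
        ≤ ∫⁻ a, (Bad.indicator 1 a + ENNReal.ofReal (k ^ co)) ∂(PI ((MN3 N hN).mu d L)) :=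
          lintegral_mono h5
      _ = PI ((MN3 N hN).mu d L) Bad + ENNReal.ofReal (k ^ co) := by
          rw [lintegral_add_right _ measurable_const, lintegral_indicator_one hBadm,
            lintegral_const, measure_univ, mul_one]
      _ ≤ ENNReal.ofReal (k ^ cc) + ENNReal.ofReal (k ^ co) := add_le_add hBadp le_rfl
  refine hfin.trans ?_
  rw [← ENNReal.ofReal_add (Real.rpow_nonneg hk.le _) (Real.rpow_nonneg hk.le _)]
  refine ENNReal.ofReal_le_ofReal ?_
  have h5 : ∀ c', c0 ≤ c' → k ^ c' ≤ 1 / 2 * k ^ (c0 / 2) := by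
    intro c' hc'
    calc k ^ c' ≤ k ^ (c0 / 2 + c0 / 2) :=
          Real.rpow_le_rpow_of_exponent_ge hk hklt.le (by linarith)
      _ = k ^ (c0 / 2) * k ^ (c0 / 2) := Real.rpow_add hk _ _
      _ ≤ 1 / 2 * k ^ (c0 / 2) := mul_le_mul_of_nonneg_right hd' (Real.rpow_nonneg hk.le _)
  have h6 := h5 cc (min_le_left _ _)
  have h7 := h5 co (min_le_right _ _)
  linarith

theorem wl3 (N d : ℕ) (hN : 1 ≤ N) (β : ℝ) (hβ : 0 < β) (κ : ℝ) (hκ : 0 < κ) (hκ1 : κ ≤ 1 / 64) :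
    ∃ σ0 : ℝ, 0 < σ0 ∧ ∀ σ, 0 < σ → σ ≤ σ0 → ∀ (m0 : ℕ) (ε : ℝ), 0 < ε →
    ∃ ε0 c k0 : ℝ, 0 < ε0 ∧ 0 < c ∧ 0 < k0 ∧ k0 < 1 ∧
    ∀ k, 0 < k → k < k0 → ∀ (S : PSys (Fam1 N d β k) β k), BNoise N S.ν S.b S.gd →
    ∀ L : ℕ, ∃ h0 : ℝ, 0 < h0 ∧ ∀ h, 0 < h → h < h0 →
    ∀ (G : boxS d L → E N) (z x : boxS d L), (boxNet d L).dist x z ≤ m0 →
    (∀ v, ‖G v‖ * k ^ (boxNet d L).dist x v ≤ ‖G z‖ * k ^ (boxNet d L).dist x z) →
    ‖G z‖ ≤ k ^ (-ε0) →
    ∀ H : boxS d L → ℝ, (∀ v, ∀ y ∈ (boxNet d L).nb v, H y ≤ H v + 3 / 4) →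
    (∀ v, (boxNet d L).dist x v ≤ 1 → H v ≤ 1 / 16) → (∀ v, ‖G v‖ ≤ k ^ (-(H v))) →
    ∀ n : ℕ, 1 ≤ n * h → n * h ≤ σ * ell k + 1 →
      PI ((Fam1 N d β k).mu L) {ω |
          ‖traj ((Fam1 N d β k).st h L) G ω n x‖ < min (k ^ (3 * κ))
            (k ^ (ε + (boxNet d L).dist x z) * Real.exp (lamN N * (n * h)) * ‖G z‖)}
        ≤ ENNReal.ofReal (k ^ c) := by
  obtain ⟨σ1, hσ1, hB1⟩ := WL3_B1 N d hN β hβ κ hκ hκ1
  obtain ⟨σ2, c2, k2, hσ2, hc2, hk2, hk21, hB2'⟩ := WL3_B2 N d β hβ κ hκ hκ1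
  refine ⟨min σ1 σ2, by positivity, fun σ hσ hσ' m0 ε hε => ?_⟩
  obtain ⟨ε0, c1, k1, hε0, hc1, hk1, hk11, hB1''⟩ :=
    hB1 σ hσ (hσ'.trans (min_le_left _ _)) m0 ε hε
  set c0 : ℝ := min c1 c2 with hc0
  have hc0p : 0 < c0 := by positivity
  obtain ⟨k3, hk3, hk31, hev⟩ := WL3_ext
    (WL3_rpow_small (c0 / 2) (1 / 2) (by positivity) (by norm_num))
  refine ⟨ε0, c0 / 2, min (min k1 k2) k3, hε0, by positivity, by positivity,
    lt_of_le_of_lt (min_le_right _ _) hk31, ?_⟩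
  intro k hk hkk S hB L
  have hkk1 : k < k1 := hkk.trans_le ((min_le_left _ _).trans (min_le_left _ _))
  have hkk2 : k < k2 := hkk.trans_le ((min_le_left _ _).trans (min_le_right _ _))
  have hkk3 : k < k3 := hkk.trans_le (min_le_right _ _)
  have hklt : k < 1 := hkk1.trans hk11
  have hd' := hev k hk hkk3
  have hell : 0 ≤ ell k := by
    unfold ell
    refine Real.log_nonneg ?_
    rw [one_le_div hk]
    linarith
  obtain ⟨h1, hh1, hA⟩ := hB1'' k hk hkk1
  obtain ⟨h2, hh2, hC⟩ := hB2' k hk hkk2 (Fam1 N d β k) S hB L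
  refine ⟨min h1 h2, by positivity, ?_⟩
  intro h hh hlt G z x hm hmax hzb H hH1 hH2 hG n hn1 hn2
  obtain ⟨N1, hA1⟩ := hA h hh (hlt.trans_le (min_le_left _ _)) L G z x hm hmax hzb n hn1 hn2
  have hC1 := hC h hh (hlt.trans_le (min_le_right _ _)) G x H hH1 hH2 hG n (hn2.trans (by
    have := mul_le_mul_of_nonneg_right (hσ'.trans (min_le_right σ1 σ2)) hell
    linarith))
  set K : ℝ := k ^ (ε + ((boxNet d L).dist x z : ℝ)) * Real.exp (lamN N * (n * h)) * ‖G z‖ with hK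
  -- the event of the matrix chain
  set Bs : Set (ℕ → boxS d L → E N) := {s | (∀ j, N1 ≤ j → j ≤ n → ‖s j x‖ < k ^ κ) ∧
      ‖s n x‖ < K} with hBs
  have hms : ∀ j : ℕ, Measurable fun s : ℕ → boxS d L → E N => ‖s j x‖ := fun j =>
    measurable_norm.comp ((measurable_pi_apply x).comp (measurable_pi_apply j))
  have hBm : MeasurableSet Bs := by
    have e2 : Bs = (⋂ j : ℕ, ⋂ (_ : N1 ≤ j ∧ j ≤ n), {s | ‖s j x‖ < k ^ κ}) ∩
        {s | ‖s n x‖ < K} := by
      ext ω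
      simp only [hBs, Set.mem_ofPred_eq, Set.mem_inter_iff, Set.mem_iInter, and_imp]
    rw [e2]
    refine MeasurableSet.inter ?_ (measurableSet_lt (hms n) measurable_const)
    exact MeasurableSet.iInter fun j => MeasurableSet.iInter fun _ =>
      measurableSet_lt (hms j) measurable_const
  have hdep : Dep (n + 1) (Bs.indicator (1 : (ℕ → boxS d L → E N) → ℝ≥0∞)) := by
    intro a b hab
    have hiff : a ∈ Bs ↔ b ∈ Bs := by
      simp only [hBs, Set.mem_ofPred_eq]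
      constructor
      · rintro ⟨h5, h6⟩
        refine ⟨fun j hj1 hj2 => ?_, ?_⟩
        · rw [← hab j (by omega)]; exact h5 j hj1 hj2
        · rw [← hab n (by omega)]; exact h6
      · rintro ⟨h5, h6⟩
        refine ⟨fun j hj1 hj2 => ?_, ?_⟩
        · rw [hab j (by omega)]; exact h5 j hj1 hj2
        · rw [hab n (by omega)]; exact h6
    by_cases hb' : b ∈ Bs
    · rw [Set.indicator_of_mem hb', Set.indicator_of_mem (hiff.2 hb')]
      rfl
    · rw [Set.indicator_of_notMem hb', Set.indicator_of_notMem (fun hc' => hb' (hiff.1 hc'))]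
  have hstm : Measurable fun p : (boxS d L → E N) ×
      (boxS d L → EuclideanSpace ℝ (Fin (N * N))) => (MN3 N hN).st (d := d) β k h L p.1 p.2 :=
    (MN3 N hN).measurable_st β k h L
  have hfm : Measurable fun p : (boxS d L → E N) × (boxS d L → E N) =>
      stp (boxNet d L) β h k p.1 p.2 := measurable_stp N d β k h L
  have htl := traj_law ((MN3 N hN).mu d L) ((Fam1 N d β k).mu L)
    ((MN3 N hN).st (d := d) β k h L) ((Fam1 N d β k).st h L) hstm hfm
    (fun s => law3 N hN d β k h L s) (n + 1) (Bs.indicator 1) (measurable_one.indicator hBm) hdep G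
  have hA2 : PI ((Fam1 N d β k).mu L) {ω | traj ((Fam1 N d β k).st h L) G ω ∈ Bs} ≤
      ENNReal.ofReal (k ^ c1) := by
    have hmF : Measurable fun ω : ℕ → boxS d L → E N => traj ((Fam1 N d β k).st h L) G ω :=
      (WL3_meas_seq _ hfm).comp (measurable_const.prodMk measurable_id)
    have hmM : Measurable fun ω : ℕ → boxS d L → EuclideanSpace ℝ (Fin (N * N)) =>
        traj ((MN3 N hN).st (d := d) β k h L) G ω :=
      (WL3_meas_seq _ hstm).comp (measurable_const.prodMk measurable_id)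
    have e2 : PI ((Fam1 N d β k).mu L) {ω | traj ((Fam1 N d β k).st h L) G ω ∈ Bs} =
        ∫⁻ ω, Bs.indicator 1 (traj ((Fam1 N d β k).st h L) G ω) ∂(PI ((Fam1 N d β k).mu L)) :=
      (lintegral_indicator_one (μ := PI ((Fam1 N d β k).mu L)) (hmF hBm)).symm
    have e3 : PI ((MN3 N hN).mu d L) {ω | traj ((MN3 N hN).st (d := d) β k h L) G ω ∈ Bs} =
        ∫⁻ ω, Bs.indicator 1 (traj ((MN3 N hN).st (d := d) β k h L) G ω)
          ∂(PI ((MN3 N hN).mu d L)) :=
      (lintegral_indicator_one (μ := PI ((MN3 N hN).mu d L)) (hmM hBm)).symm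
    rw [e2, ← htl, ← e3]
    exact hA1
  have hsub : {ω | ‖traj ((Fam1 N d β k).st h L) G ω n x‖ < min (k ^ (3 * κ)) K} ⊆
      {ω | traj ((Fam1 N d β k).st h L) G ω ∈ Bs} ∪
      {ω | ∃ j0, j0 ≤ n ∧ k ^ κ ≤ ‖traj ((Fam1 N d β k).st h L) G ω j0 x‖ ∧
          ‖traj ((Fam1 N d β k).st h L) G ω n x‖ < k ^ (3 * κ)} := by
    intro ω hω
    have hω0 : ‖traj ((Fam1 N d β k).st h L) G ω n x‖ < min (k ^ (3 * κ)) K := hω
    have hω1 := lt_of_lt_of_le hω0 (min_le_left _ _)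
    have hω2 := lt_of_lt_of_le hω0 (min_le_right _ _)
    by_cases hj : ∀ j, N1 ≤ j → j ≤ n → ‖traj ((Fam1 N d β k).st h L) G ω j x‖ < k ^ κ
    · exact Or.inl ⟨hj, hω2⟩
    · push Not at hj
      obtain ⟨j0, _, hj1, hj2⟩ := hj
      exact Or.inr ⟨j0, hj1, hj2, hω1⟩
  refine (measure_mono hsub).trans ((measure_union_le _ _).trans
    ((add_le_add hA2 hC1).trans ?_))
  rw [← ENNReal.ofReal_add (Real.rpow_nonneg hk.le _) (Real.rpow_nonneg hk.le _)]
  refine ENNReal.ofReal_le_ofReal ?_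
  have h5 : ∀ c', c0 ≤ c' → k ^ c' ≤ 1 / 2 * k ^ (c0 / 2) := by
    intro c' hc'
    calc k ^ c' ≤ k ^ (c0 / 2 + c0 / 2) :=
          Real.rpow_le_rpow_of_exponent_ge hk hklt.le (by linarith)
      _ = k ^ (c0 / 2) * k ^ (c0 / 2) := Real.rpow_add hk _ _
      _ ≤ 1 / 2 * k ^ (c0 / 2) := mul_le_mul_of_nonneg_right hd' (Real.rpow_nonneg hk.le _)
  have h6 := h5 c1 (min_le_left _ _)
  have h7 := h5 c2 (min_le_right _ _)
  linarith

end DynC
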